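import Mathlib

/-! Parts: RI.Defs, RI.Stmts, RI.Basic, RI.Stmts2, Lib_helper28.FROB.Local, Lib_helper28.FROB.Count, Lib_helper28.FROB.Euler, Lib_helper28.FROB.Log, Lib_helper28.FROB.Zeta, Lib_helper28.FROB.Fiber, Lib_helper28.FROB.Sum, Lib_helper28.FROB.Induct, Lib_helper28.FROB.Count2, RI.FROBD, RI.PD, RI.PDGE -/

section

/-!
# Relative Iwasawa theorem: definitions

Definitions used in the main statement: `classNo`, `IsLayer`, `Nonsplit`, `UnramInf`,
`NonsplitRam`, `PosDensity`.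

Auxiliary definitions: `J K` is the group of nonzero fractional ideals of a number field, with the
action of the field automorphisms, `prin x` is the principal fractional ideal of `x`, `ext K L` the
extension of fractional ideals, `RelTriv F K p` says that the relative class group of `K / F` has
trivial `p`-part, `relU M L` is the group of relative units.
-/

open NumberField
open scoped nonZeroDivisors Pointwise

namespace Pool.Agent.RI

/-! ### Definitions for the main statement -/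

/-- The class number of the subfield `E` of `ℂ` (the number of elements of the class group of its
ring of integers). -/
noncomputable def classNo (E : IntermediateField ℚ ℂ) : ℕ := Nat.card (ClassGroup (𝓞 E))

/-- `B` is the `n`-th layer of the cyclotomic `ℤ_p`-extension of `ℚ`: it has degree `p ^ n` over
`ℚ`, consists of real numbers, and is contained in `ℚ(ζ)` for a root of unity `ζ` of `p`-power
order. -/
def IsLayer (p n : ℕ) (B : IntermediateField ℚ ℂ) : Prop :=
  Module.finrank ℚ B = p ^ n ∧ (∀ z ∈ B, (starRingEnd ℂ) z = z) ∧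
    ∃ m : ℕ, B ≤ IntermediateField.adjoin ℚ {z : ℂ | z ^ (p ^ m) = 1}

/-- No prime of `F` above `p` splits in `K`: a prime of `F` containing `p` has at most one prime of
`K` above it. -/
def Nonsplit (p : ℕ) {F K : IntermediateField ℚ ℂ} (h : F ≤ K) : Prop :=
  ∀ P Q : Ideal (𝓞 K), P.IsPrime → Q.IsPrime → (p : 𝓞 K) ∈ P → (p : 𝓞 K) ∈ Q →
    P.comap (RingOfIntegers.mapRingHom (IntermediateField.inclusion h : F →+* K)) =
      Q.comap (RingOfIntegers.mapRingHom (IntermediateField.inclusion h : F →+* K)) → P = Q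

/-- `M / F` is unramified at infinity: an embedding of `M` into `ℂ` that is real on `F` is real. -/
def UnramInf {F M : IntermediateField ℚ ℂ} (_h : F ≤ M) : Prop :=
  ∀ φ : M →+* ℂ, (∀ x : M, (x : ℂ) ∈ F → (starRingEnd ℂ) (φ x) = φ x) →
    ∀ x : M, (starRingEnd ℂ) (φ x) = φ x

/-- The prime `P` of `F` ramifies in `M`: some prime of `M` above `P` has ramification index
different from `1`. -/
def Ramifies {F M : IntermediateField ℚ ℂ} (h : F ≤ M) (P : Ideal (𝓞 F)) : Prop :=
  letI : Algebra F M := (IntermediateField.inclusion h).toRingHom.toAlgebra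
  ∃ R : Ideal (𝓞 M), R.IsPrime ∧ R.under (𝓞 F) = P ∧ R.ramificationIdx (𝓞 F) ≠ 1

/-- No prime of `F` that ramifies in `M` splits in `K`. -/
def NonsplitRam {F K M : IntermediateField ℚ ℂ} (hK : F ≤ K) (hM : F ≤ M) : Prop :=
  ∀ P Q : Ideal (𝓞 K), P.IsPrime → Q.IsPrime →
    P.comap (RingOfIntegers.mapRingHom (IntermediateField.inclusion hK : F →+* K)) =
      Q.comap (RingOfIntegers.mapRingHom (IntermediateField.inclusion hK : F →+* K)) →
    Ramifies hM
      (P.comap (RingOfIntegers.mapRingHom (IntermediateField.inclusion hK : F →+* K))) → P = Q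

/-- The set `S` of natural numbers contains primes with positive lower Dirichlet density. -/
def PosDensity (S : Set ℕ) : Prop :=
  ∃ δ > 0, ∃ C : ℝ, ∀ s : ℝ, 1 < s → s ≤ 2 →
    δ * Real.log (1 / (s - 1)) - C ≤ ∑' q : {q : ℕ // q.Prime ∧ q ∈ S}, (q : ℝ) ^ (-s)

/-! ### Fractional ideals -/

/-- The group of nonzero fractional ideals of the number field `K`. -/
abbrev J (K : Type) [Field K] : Type := (FractionalIdeal (𝓞 K)⁰ K)ˣ

/-- The principal fractional ideal generated by `x`. -/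
noncomputable abbrev prin {K : Type} [Field K] [NumberField K] : Kˣ →* J K :=
  toPrincipalIdeal (𝓞 K) K

lemma act_aux {K : Type} [Field K] (σ : K ≃+* K) :
    (𝓞 K)⁰ ≤ Submonoid.comap ((RingOfIntegers.mapRingEquiv σ : 𝓞 K ≃+* 𝓞 K) : 𝓞 K →+* 𝓞 K)
      (𝓞 K)⁰ :=
  nonZeroDivisors_le_comap_nonZeroDivisors_of_injective _
      (RingOfIntegers.mapRingEquiv σ).injective

/-- The image of a fractional ideal under a field automorphism. -/
noncomputable def actF {K : Type} [Field K] [NumberField K] (σ : K ≃+* K) :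
    FractionalIdeal (𝓞 K)⁰ K →+* FractionalIdeal (𝓞 K)⁰ K :=
  FractionalIdeal.extendedHom' K (act_aux σ)

lemma map_aux {K : Type} [Field K] [NumberField K] (σ : K ≃+* K) (x : K) :
    IsLocalization.map (S := K) (M := (𝓞 K)⁰) (T := (𝓞 K)⁰) K
      ((RingOfIntegers.mapRingEquiv σ : 𝓞 K ≃+* 𝓞 K) : 𝓞 K →+* 𝓞 K) (act_aux σ) x = σ x := by
  have h : (IsLocalization.map (S := K) (M := (𝓞 K)⁰) (T := (𝓞 K)⁰) K
      ((RingOfIntegers.mapRingEquiv σ : 𝓞 K ≃+* 𝓞 K) : 𝓞 K →+* 𝓞 K) (act_aux σ)) =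
      (σ : K →+* K) := by
    apply IsLocalization.ringHom_ext (𝓞 K)⁰
    ext y
    simp only [RingHom.comp_apply, IsLocalization.map_eq, RingHom.coe_coe]
    rfl
  rw [h]; rfl

/-- `x ∈ σ I ↔ σ⁻¹ x ∈ I`. -/
lemma mem_actF {K : Type} [Field K] [NumberField K] (σ : K ≃+* K)
    (I : FractionalIdeal (𝓞 K)⁰ K) (x : K) : x ∈ actF σ I ↔ σ.symm x ∈ I := by
  unfold actF
  rw [FractionalIdeal.extendedHom'_apply, FractionalIdeal.mem_extended_iff]
  constructor
  · intro h
    refine Submodule.span_induction (p := fun x _ => σ.symm x ∈ I) ?_ ?_ ?_ ?_ h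
    · rintro _ ⟨y, hy, rfl⟩
      rw [map_aux, RingEquiv.symm_apply_apply]
      exact hy
    · simp only [map_zero]; exact I.val.zero_mem
    · intro a b _ _ ha hb
      rw [map_add]
      exact I.val.add_mem ha hb
    · intro a b _ hb
      have : σ.symm (a • b) =
          ((RingOfIntegers.mapRingEquiv σ.symm : 𝓞 K ≃+* 𝓞 K) a) • σ.symm b := by
        rw [Algebra.smul_def, Algebra.smul_def, map_mul]; rfl
      rw [this]
      exact I.val.smul_mem _ hb
  · intro h
    apply Submodule.subset_span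
    exact ⟨σ.symm x, h, by rw [map_aux, RingEquiv.apply_symm_apply]⟩

/-- The automorphisms of `K / F` act on the fractional ideals of `K`. -/
noncomputable instance actJ {K : Type} [Field K] [NumberField K] {F : Type} [Field F]
    [Algebra F K] : MulDistribMulAction (K ≃ₐ[F] K) (J K) where
  smul σ I := Units.map (actF (σ : K ≃+* K)).toMonoidHom I
  one_smul I := by
    apply Units.ext
    apply FractionalIdeal.coeToSubmodule_injective
    ext x
    exact mem_actF (K := K) ((1 : K ≃ₐ[F] K) : K ≃+* K) I x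
  mul_smul σ τ I := by
    apply Units.ext
    ext x
    exact (mem_actF ((σ * τ : K ≃ₐ[F] K) : K ≃+* K) I x).trans
      ((mem_actF (σ : K ≃+* K) _ x).trans (mem_actF (τ : K ≃+* K) _ _)).symm
  smul_mul σ I J := map_mul _ _ _
  smul_one σ := map_one _

/-- `x ∈ σ • I ↔ σ⁻¹ x ∈ I`. -/
lemma mem_smul {K : Type} [Field K] [NumberField K] {F : Type} [Field F]
    [Algebra F K] (σ : K ≃ₐ[F] K) (I : J K) (x : K) :
    x ∈ ((σ • I : J K) : FractionalIdeal (𝓞 K)⁰ K) ↔
      σ.symm x ∈ (I : FractionalIdeal (𝓞 K)⁰ K) :=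
  mem_actF (σ : K ≃+* K) I x

/-- `σ (x) = (σ x)`. -/
lemma smul_prin {K : Type} [Field K] [NumberField K] {F : Type} [Field F]
    [Algebra F K] (σ : K ≃ₐ[F] K) (x : Kˣ) : σ • prin x = prin (σ • x) := by
  apply Units.ext
  ext y
  rw [mem_smul, coe_toPrincipalIdeal, coe_toPrincipalIdeal, FractionalIdeal.mem_spanSingleton,
    FractionalIdeal.mem_spanSingleton]
  constructor
  · rintro ⟨a, ha⟩
    refine ⟨(RingOfIntegers.mapRingEquiv (σ : K ≃+* K) : 𝓞 K ≃+* 𝓞 K) a, ?_⟩
    have := congrArg σ ha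
    rw [AlgEquiv.apply_symm_apply, Algebra.smul_def, map_mul] at this
    rw [Algebra.smul_def]
    exact this
  · rintro ⟨a, ha⟩
    refine ⟨(RingOfIntegers.mapRingEquiv (σ.symm : K ≃+* K) : 𝓞 K ≃+* 𝓞 K) a, ?_⟩
    rw [← ha, Algebra.smul_def, Algebra.smul_def, map_mul]
    congr 1
    exact (σ.symm_apply_apply (x : K)).symm

/-- Extension of fractional ideals from `K` to `L`. -/
noncomputable def ext (K L : Type) [Field K] [NumberField K] [Field L] [NumberField L]
    [Algebra K L] : J K →* J L :=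
  Units.map (FractionalIdeal.extendedHom L (𝓞 L) : FractionalIdeal (𝓞 K)⁰ K →+* _).toMonoidHom

lemma ext_prin (K L : Type) [Field K] [NumberField K] [Field L] [NumberField L]
    [Algebra K L] (x : Kˣ) : ext K L (prin x) = prin (Units.map (algebraMap K L) x) := by
  apply Units.ext
  show FractionalIdeal.extendedHom L (𝓞 L) (prin x : FractionalIdeal (𝓞 K)⁰ K) = _
  rw [coe_toPrincipalIdeal, coe_toPrincipalIdeal, FractionalIdeal.extendedHom_spanSingleton]
  congr 1
  have h : (IsFractionRing.map (A := 𝓞 K) (B := 𝓞 L) (K := K) (L := L)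
      (FaithfulSMul.algebraMap_injective (𝓞 K) (𝓞 L))) = algebraMap K L := by
    apply IsLocalization.ringHom_ext (𝓞 K)⁰
    ext y
    simp only [RingHom.comp_apply, IsFractionRing.map, IsLocalization.map_eq]
    rfl
  rw [h]; rfl

lemma ext_injective (K L : Type) [Field K] [NumberField K] [Field L] [NumberField L]
    [Algebra K L] : Function.Injective (ext K L) := by
  intro a b h
  apply Units.ext
  exact FractionalIdeal.extendedHom_injective (𝓞 K) K L (𝓞 L) (congrArg Units.val h)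

/-! ### Relative class groups and relative units -/

/-- The relative class group of `K / F` has trivial `p`-part: every fractional ideal of `K` whose
norm ideal (the product of its conjugates over `F`) is `1` has a power with exponent prime to `p`
that is principal. -/
def RelTriv (F K : Type) [Field F] [Field K] [NumberField K] [Algebra F K]
    [FiniteDimensional F K] (p : ℕ) : Prop :=
  ∀ c : J K, (∏ σ : K ≃ₐ[F] K, σ • c) = 1 → ∃ m : ℕ, m.Coprime p ∧ ∃ x : Kˣ, c ^ m = prin x

/-- The relative units of `L / M`: units `u` of `L` with `∏ σ u = 1` (as elements of `Lˣ`). -/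
noncomputable def relU (M L : Type) [Field M] [Field L] [NumberField L] [Algebra M L]
    [FiniteDimensional M L] : Subgroup Lˣ where
  carrier := {u | prin u = 1 ∧ (∏ σ : L ≃ₐ[M] L, σ • u) = 1}
  mul_mem' := by
    rintro a b ⟨ha, ha'⟩ ⟨hb, hb'⟩
    refine ⟨by rw [map_mul, ha, hb, one_mul], ?_⟩
    simp only [smul_mul', Finset.prod_mul_distrib, ha', hb', one_mul]
  one_mem' := ⟨map_one _, by simp⟩
  inv_mem' := by
    rintro a ⟨ha, ha'⟩
    refine ⟨by rw [map_inv, ha, inv_one], ?_⟩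
    simp only [smul_inv', Finset.prod_inv_distrib, ha', inv_one]

lemma mem_relU {M L : Type} [Field M] [Field L] [NumberField L] [Algebra M L]
    [FiniteDimensional M L] {u : Lˣ} :
    u ∈ relU M L ↔ prin u = 1 ∧ (∏ σ : L ≃ₐ[M] L, σ • u) = 1 := Iff.rfl

/-- The relative units of `L / M` fixed by `Gal(L / K)`. -/
noncomputable def relUfix (K M L : Type) [Field K] [Field M] [Field L] [NumberField L]
    [Algebra K L] [Algebra M L] [FiniteDimensional M L] : Subgroup Lˣ where
  carrier := {u | u ∈ relU M L ∧ ∀ τ : L ≃ₐ[K] L, τ • u = u}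
  mul_mem' := by
    rintro a b ⟨ha, ha'⟩ ⟨hb, hb'⟩
    exact ⟨mul_mem ha hb, fun τ => by rw [smul_mul', ha', hb']⟩
  one_mem' := ⟨one_mem _, fun τ => smul_one _⟩
  inv_mem' := by
    rintro a ⟨ha, ha'⟩
    exact ⟨inv_mem ha, fun τ => by rw [smul_inv', ha']⟩

lemma mem_relUfix {K M L : Type} [Field K] [Field M] [Field L] [NumberField L]
    [Algebra K L] [Algebra M L] [FiniteDimensional M L] {u : Lˣ} :
    u ∈ relUfix K M L ↔ u ∈ relU M L ∧ ∀ τ : L ≃ₐ[K] L, τ • u = u := Iff.rfl

end Pool.Agent.RI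


end

section

/-!
# Relative Iwasawa theorem: statements of the modules

Every `def X : Prop` is the statement of a module; the module proves `theorem X_thm : X`
(possibly from other modules as hypotheses).
-/

open NumberField Finset IsDedekindDomain
open scoped nonZeroDivisors Pointwise

namespace Pool.Agent.RI

/-! ### Algebra -/

/-- HERB: a finitely generated abelian group `E` with an automorphism of order `p`, trivial `H¹`
and rank `p` times the rank of the invariants: invariants are norms (Herbrand quotient one). -/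
def HERB : Prop := ∀ (p : ℕ) [Fact p.Prime] (A G : Type) [CommGroup A] [Group G]
    [MulDistribMulAction G A] (g : G) (E E' : Subgroup A), g ^ p = 1 → E.FG →
    (∀ u ∈ E, g • u ∈ E) → (∀ u, u ∈ E' ↔ u ∈ E ∧ g • u = u) →
    (∀ u ∈ E, ∏ i ∈ range p, g ^ i • u = 1 → ∃ v ∈ E, u = v / g • v) →
    Module.finrank ℤ (Additive E) = p * Module.finrank ℤ (Additive E') →
    ∀ e ∈ E', ∃ η ∈ E, e = ∏ i ∈ range p, g ^ i • η

/-- ABSH: the relative units have trivial `H¹` at `p`. -/
def ABSH : Prop := ∀ (p : ℕ) [Fact p.Prime] (A I G D : Type) [CommGroup A] [CommGroup I]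
    [Group G] [Group D] [Fintype D] [MulDistribMulAction G A] [MulDistribMulAction G I]
    (ρ : D →* G) (g : G) (dv : A →* I), (Fintype.card D).Coprime p → g ^ p = 1 →
    (∀ δ : D, ρ δ * g = g * ρ δ) → (∀ (σ : G) (x : A), dv (σ • x) = σ • dv x) →
    (∀ x : A, ∏ i ∈ range p, g ^ i • x = 1 → ∃ y : A, x = y / g • y) →
    (∀ b : I, g • b = b → ∏ δ : D, ρ δ • b = 1 →
      ∃ m : ℕ, m.Coprime p ∧ ∃ γ : A, g • γ = γ ∧ b ^ m = dv γ) →
    ∀ u : A, dv u = 1 → ∏ δ : D, ρ δ • u = 1 → ∏ i ∈ range p, g ^ i • u = 1 →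
      ∃ m : ℕ, m.Coprime p ∧ ∃ v : A, dv v = 1 ∧ ∏ δ : D, ρ δ • v = 1 ∧ u ^ m = v / g • v

/-- ABS: the step for class groups, in abstract form. -/
def ABS : Prop := ∀ (p : ℕ) [Fact p.Prime] (A I G D : Type) [CommGroup A] [CommGroup I]
    [Group G] [Group D] [Fintype D] [MulDistribMulAction G A] [MulDistribMulAction G I]
    (ρ : D →* G) (g : G) (dv : A →* I), (Fintype.card D).Coprime p → g ^ p = 1 →
    (∀ δ : D, ρ δ * g = g * ρ δ) → (∀ (σ : G) (x : A), dv (σ • x) = σ • dv x) →
    (∀ x : A, ∏ i ∈ range p, g ^ i • x = 1 → ∃ y : A, x = y / g • y) →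
    (∀ b : I, g • b = b → ∏ δ : D, ρ δ • b = 1 →
      ∃ m : ℕ, m.Coprime p ∧ ∃ γ : A, g • γ = γ ∧ b ^ m = dv γ) →
    (∀ e : A, dv e = 1 → g • e = e → ∏ δ : D, ρ δ • e = 1 →
      ∃ m : ℕ, m.Coprime p ∧ ∃ η : A, dv η = 1 ∧ e ^ m = ∏ i ∈ range p, g ^ i • η) →
    Finite (I ⧸ dv.range) →
    ∀ c : I, ∏ δ : D, ρ δ • c = 1 → ∃ m : ℕ, m.Coprime p ∧ ∃ x : A, c ^ m = dv x

/-! ### Ideals -/

/-- COUNTACT: exponents of the conjugate ideal. -/
def COUNTACT : Prop := ∀ (F K : Type) [Field F] [Field K] [NumberField K] [Algebra F K]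
    (σ : K ≃ₐ[F] K) (v w : HeightOneSpectrum (𝓞 K)), w.asIdeal = σ • v.asIdeal → ∀ c : J K,
    FractionalIdeal.count K w ((σ • c : J K) : FractionalIdeal (𝓞 K)⁰ K) =
      FractionalIdeal.count K v (c : FractionalIdeal (𝓞 K)⁰ K)

/-- COUNTEXT: exponents of the extended ideal. -/
def COUNTEXT : Prop := ∀ (K L : Type) [Field K] [NumberField K] [Field L] [NumberField L]
    [Algebra K L] (v : HeightOneSpectrum (𝓞 K)) (w : HeightOneSpectrum (𝓞 L)),
    w.asIdeal.under (𝓞 K) = v.asIdeal → ∀ c : J K,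
    FractionalIdeal.count L w ((ext K L c : J L) : FractionalIdeal (𝓞 L)⁰ L) =
      (w.asIdeal.ramificationIdx (𝓞 K) : ℤ) *
        FractionalIdeal.count K v (c : FractionalIdeal (𝓞 K)⁰ K)

/-- INVI: an ideal of `L` invariant under `Gal(L / K)` without ramified primes comes from `K`. -/
def INVI : Prop := ∀ (K L : Type) [Field K] [NumberField K] [Field L] [NumberField L]
    [Algebra K L] [IsGalois K L] (b : J L), (∀ τ : L ≃ₐ[K] L, τ • b = b) →
    (∀ w : HeightOneSpectrum (𝓞 L), w.asIdeal.ramificationIdx (𝓞 K) ≠ 1 →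
      FractionalIdeal.count L w (b : FractionalIdeal (𝓞 L)⁰ L) = 0) →
    ∃ c : J K, ext K L c = b

/-- EXTACT: extension of ideals commutes with the Galois action. -/
def EXTACT : Prop := ∀ (F K M L : Type) [Field F] [Field K] [NumberField K] [Field M] [Field L]
    [NumberField L] [Algebra F K] [Algebra K L] [Algebra M L] (σ : L ≃ₐ[M] L) (σ' : K ≃ₐ[F] K),
    (∀ x : K, algebraMap K L (σ' x) = σ (algebraMap K L x)) → ∀ c : J K,
    ext K L (σ' • c) = σ • ext K L c

/-- CL: for `K / F` Galois of degree prime to `p`, the class numbers of `K` and `F` are divisible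
by the same power of `p` iff the relative class group has trivial `p`-part. -/
def CL : Prop := ∀ (p : ℕ) [Fact p.Prime] (F K : Type) [Field F] [NumberField F] [Field K]
    [NumberField K] [Algebra F K] [IsGalois F K], (Module.finrank F K).Coprime p →
    (padicValNat p (NumberField.classNumber K) = padicValNat p (NumberField.classNumber F) ↔
      RelTriv F K p)

/-! ### The square `F ⊆ K, M ⊆ L` -/

/-- `L = K M`, `K / F` Galois of degree prime to `p`, `M / F` Galois of degree `p`. -/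
structure Square (p : ℕ) (F K M L : Type) [Field F] [NumberField F] [Field K] [NumberField K]
    [Field M] [NumberField M] [Field L] [NumberField L] [Algebra F K] [Algebra F M] [Algebra F L]
    [Algebra K L] [Algebra M L] [IsScalarTower F K L] [IsScalarTower F M L] : Prop where
  galK : IsGalois F K
  galM : IsGalois F M
  galL : IsGalois F L
  cop : (Module.finrank F K).Coprime p
  degM : Module.finrank F M = p
  degL : Module.finrank K L = p

/-- SQ: Galois theory of the square. -/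
def SQ : Prop := ∀ (p : ℕ) [Fact p.Prime] (F K M L : Type) [Field F] [NumberField F] [Field K]
    [NumberField K] [Field M] [NumberField M] [Field L] [NumberField L] [Algebra F K]
    [Algebra F M] [Algebra F L] [Algebra K L] [Algebra M L] [IsScalarTower F K L]
    [IsScalarTower F M L], Square p F K M L →
    IsGalois K L ∧ IsGalois M L ∧ Module.finrank M L = Module.finrank F K ∧
    (∀ (σ : L ≃ₐ[M] L) (τ : L ≃ₐ[K] L) (x : L), σ (τ x) = τ (σ x)) ∧
    ∃ ρ : (L ≃ₐ[M] L) ≃* (K ≃ₐ[F] K), ∀ (σ : L ≃ₐ[M] L) (x : K),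
      algebraMap K L (ρ σ x) = σ (algebraMap K L x)

/-- INV: the ideal input of the step. -/
def INV : Prop := ∀ (p : ℕ) [Fact p.Prime] (F K M L : Type) [Field F] [NumberField F] [Field K]
    [NumberField K] [Field M] [NumberField M] [Field L] [NumberField L] [Algebra F K]
    [Algebra F M] [Algebra F L] [Algebra K L] [Algebra M L] [IsScalarTower F K L]
    [IsScalarTower F M L], Square p F K M L → RelTriv F K p →
    (∀ w : HeightOneSpectrum (𝓞 L), w.asIdeal.ramificationIdx (𝓞 K) ≠ 1 →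
      ∀ σ : L ≃ₐ[M] L, σ • w.asIdeal = w.asIdeal) →
    ∀ b : J L, (∀ τ : L ≃ₐ[K] L, τ • b = b) → ∏ σ : L ≃ₐ[M] L, σ • b = 1 →
    ∃ m : ℕ, m.Coprime p ∧ ∃ γ : Kˣ, b ^ m = prin (Units.map (algebraMap K L : K →* L) γ)

/-! ### Units -/

/-- H90: Hilbert 90 for an extension of prime degree. -/
def H90 : Prop := ∀ (p : ℕ) [Fact p.Prime] (K L : Type) [Field K] [Field L] [Algebra K L]
    [FiniteDimensional K L] [IsGalois K L] (g : L ≃ₐ[K] L), Module.finrank K L = p → g ≠ 1 →
    ∀ x : Lˣ, ∏ i ∈ range p, g ^ i • x = 1 → ∃ y : Lˣ, x = y / g • y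

/-- RKU: the relative units of `L / M` are finitely generated of rank
`rank E(L) - rank E(M)`. -/
def RKU : Prop := ∀ (M L : Type) [Field M] [NumberField M] [Field L] [NumberField L]
    [Algebra M L] [IsGalois M L], (relU M L).FG ∧
    Module.finrank ℤ (Additive (relU M L)) + NumberField.Units.rank M = NumberField.Units.rank L

/-- RKF: ranks in the square. -/
def RKF : Prop := ∀ (p : ℕ) [Fact p.Prime] (F K M L : Type) [Field F] [NumberField F] [Field K]
    [NumberField K] [Field M] [NumberField M] [Field L] [NumberField L] [Algebra F K]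
    [Algebra F M] [Algebra F L] [Algebra K L] [Algebra M L] [IsScalarTower F K L]
    [IsScalarTower F M L], Square p F K M L →
    Fintype.card (InfinitePlace L) = p * Fintype.card (InfinitePlace K) →
    Fintype.card (InfinitePlace M) = p * Fintype.card (InfinitePlace F) →
    Module.finrank ℤ (Additive (relU M L)) = p * Module.finrank ℤ (Additive (relUfix K M L))

/-- UNIT: relative units of `L` fixed by `Gal(L / K)` are norms of relative units. -/
def UNIT : Prop := ∀ (p : ℕ) [Fact p.Prime] (F K M L : Type) [Field F] [NumberField F] [Field K]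
    [NumberField K] [Field M] [NumberField M] [Field L] [NumberField L] [Algebra F K]
    [Algebra F M] [Algebra F L] [Algebra K L] [Algebra M L] [IsScalarTower F K L]
    [IsScalarTower F M L], Square p F K M L →
    Fintype.card (InfinitePlace L) = p * Fintype.card (InfinitePlace K) →
    Fintype.card (InfinitePlace M) = p * Fintype.card (InfinitePlace F) →
    (∀ w : HeightOneSpectrum (𝓞 L), w.asIdeal.ramificationIdx (𝓞 K) ≠ 1 →
      ∀ σ : L ≃ₐ[M] L, σ • w.asIdeal = w.asIdeal) →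
    RelTriv F K p →
    ∀ e ∈ relUfix K M L, ∃ η ∈ relU M L, e = ∏ τ : L ≃ₐ[K] L, τ • η

/-! ### The step -/

/-- STEP: triviality of the relative `p`-class group goes up. -/
def STEP : Prop := ∀ (p : ℕ) [Fact p.Prime] (F K M L : Type) [Field F] [NumberField F] [Field K]
    [NumberField K] [Field M] [NumberField M] [Field L] [NumberField L] [Algebra F K]
    [Algebra F M] [Algebra F L] [Algebra K L] [Algebra M L] [IsScalarTower F K L]
    [IsScalarTower F M L], Square p F K M L →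
    Fintype.card (InfinitePlace L) = p * Fintype.card (InfinitePlace K) →
    Fintype.card (InfinitePlace M) = p * Fintype.card (InfinitePlace F) →
    (∀ w : HeightOneSpectrum (𝓞 L), w.asIdeal.ramificationIdx (𝓞 K) ≠ 1 →
      ∀ σ : L ≃ₐ[M] L, σ • w.asIdeal = w.asIdeal) →
    RelTriv F K p → RelTriv M L p

/-! ### Ramification -/

/-- RAM: in `K ⊆ L ⊆ K(ζ)`, `ζ` a root of unity of `p`-power order, primes not above `p` are
unramified. -/
def RAM : Prop := ∀ (p m : ℕ) [Fact p.Prime] (K L N : Type) [Field K] [NumberField K]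
    [Field L] [NumberField L] [Field N] [NumberField N] [Algebra K L] [Algebra L N] [Algebra K N]
    [IsScalarTower K L N] (ζ : N), ζ ^ (p ^ m) = 1 → IntermediateField.adjoin K {ζ} = ⊤ →
    ∀ w : HeightOneSpectrum (𝓞 L), (p : 𝓞 L) ∉ w.asIdeal → w.asIdeal.ramificationIdx (𝓞 K) = 1

/-- RAMB: ramification in `L = K M` over `K` comes from ramification in `M` over `F`. -/
def RAMB : Prop := ∀ (F K M L : Type) [Field F] [NumberField F] [Field K]
    [NumberField K] [Field M] [NumberField M] [Field L] [NumberField L] [Algebra F K]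
    [Algebra F M] [Algebra F L] [Algebra K L] [Algebra M L] [IsScalarTower F K L]
    [IsScalarTower F M L] [IsGalois F M] [IsGalois K L],
    IntermediateField.adjoin K (Set.range (algebraMap M L)) = ⊤ →
    ∀ w : HeightOneSpectrum (𝓞 L), w.asIdeal.ramificationIdx (𝓞 K) ≠ 1 →
      (w.asIdeal.under (𝓞 M)).ramificationIdx (𝓞 F) ≠ 1

/-- INF: criterion for `L / K` to be unramified at the infinite places. -/
def INF : Prop := ∀ (K L : Type) [Field K] [NumberField K] [Field L] [NumberField L]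
    [Algebra K L] [IsGalois K L] (S : Set L), IntermediateField.adjoin K S = ⊤ →
    (∀ (φ : L →+* ℂ), (∀ x : K, (starRingEnd ℂ) (φ (algebraMap K L x)) = φ (algebraMap K L x)) →
      ∀ s ∈ S, (starRingEnd ℂ) (φ s) = φ s) →
    Fintype.card (InfinitePlace L) = Module.finrank K L * Fintype.card (InfinitePlace K)

/-- NSN: a prime of `L` whose restriction to `K` is undecomposed over `F` is undecomposed over
`M`, when `[L : K]` is a power of `p` and `[L : M]` is prime to `p`. -/
def NSN : Prop := ∀ (p : ℕ) [Fact p.Prime] (F K M L : Type) [Field F] [NumberField F] [Field K]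
    [NumberField K] [Field M] [NumberField M] [Field L] [NumberField L] [Algebra F K]
    [Algebra F M] [Algebra F L] [Algebra K L] [Algebra M L] [IsScalarTower F K L]
    [IsScalarTower F M L] [IsGalois F K] [IsGalois F M] [IsGalois F L],
    (∃ a : ℕ, Module.finrank K L = p ^ a) → (Module.finrank M L).Coprime p →
    ∀ w : Ideal (𝓞 L), w.IsPrime → (∀ σ : K ≃ₐ[F] K, σ • w.under (𝓞 K) = w.under (𝓞 K)) →
      ∀ σ : L ≃ₐ[M] L, σ • w = w

/-- LAY: the layers are Galois over `ℚ` and totally real. -/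
def LAY : Prop := ∀ (p n : ℕ) [Fact p.Prime] (B : IntermediateField ℚ ℂ), IsLayer p n B →
    FiniteDimensional ℚ B ∧ IsGalois ℚ B ∧
    (∀ φ : B →+* ℂ, ∀ x : B, (starRingEnd ℂ) (φ x) = φ x)

/-! ### Primes with a given decomposition group -/

/-- The number of ideals of norm `n`. -/
noncomputable def idealCount (M : Type) [Field M] [NumberField M] (n : ℕ) : ℕ :=
  Nat.card {I : Ideal (𝓞 M) // Ideal.absNorm I = n}

/-- MULT: the number of ideals of given norm is multiplicative. -/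
def MULT : Prop := ∀ (M : Type) [Field M] [NumberField M] (m n : ℕ), m.Coprime n →
    idealCount M (m * n) = idealCount M m * idealCount M n

/-- BND: the number of ideals of norm `p ^ e`. -/
def BND : Prop := ∀ (M : Type) [Field M] [NumberField M] (p e : ℕ), p.Prime →
    idealCount M (p ^ e) ≤ (e + 1) ^ Module.finrank ℚ M

/-- ZLOG: the sum over the primes of degree one behaves like `log (1 / (s - 1))`. -/
def ZLOG : Prop := ∀ (M : Type) [Field M] [NumberField M], ∃ C : ℝ, ∀ s : ℝ, 1 < s → s ≤ 2 →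
    |∑' q : Nat.Primes, (idealCount M q : ℝ) * (q : ℝ) ^ (-s) - Real.log (1 / (s - 1))| ≤ C

/-- FIXN: degree one primes of a fixed field and the Frobenius. -/
def FIXN : Prop := ∀ (L : Type) [Field L] [NumberField L] [IsGalois ℚ L]
    (H : Subgroup (L ≃ₐ[ℚ] L)) (q : ℕ) (P : Ideal (𝓞 L)) (φ : L ≃ₐ[ℚ] L), q.Prime → P.IsPrime →
    (q : 𝓞 L) ∈ P → P.ramificationIdx ℤ = 1 → IsArithFrobAt ℤ φ P →
    idealCount (IntermediateField.fixedField H) q * Nat.card H =
      Nat.card {x : L ≃ₐ[ℚ] L // x⁻¹ * φ * x ∈ H}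

/-- GRP: the group theoretic identity behind the theorem of Frobenius. -/
def GRP : Prop := ∀ (G : Type) [Group G] [Finite G] (σ φ : G),
    ∑ d ∈ (orderOf σ).divisors, (ArithmeticFunction.moebius d : ℝ) / d *
      ((Nat.card {x : G // x⁻¹ * φ * x ∈ Subgroup.zpowers (σ ^ d)} : ℝ) /
        Nat.card (Subgroup.zpowers (σ ^ d))) =
    (Nat.card {x : G // Subgroup.zpowers (x⁻¹ * φ * x) = Subgroup.zpowers σ} : ℝ) / orderOf σ

/-- FROB: the theorem of Frobenius (lower bound): the primes `q` such that some prime of `L` above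
`q` has decomposition group generated by `σ` have positive lower density. -/
def FROB : Prop := ∀ (L : Type) [Field L] [NumberField L] [IsGalois ℚ L] (σ : L ≃ₐ[ℚ] L),
    PosDensity {q : ℕ | ∃ P : Ideal (𝓞 L), P.IsPrime ∧ (q : 𝓞 L) ∈ P ∧
      MulAction.stabilizer (L ≃ₐ[ℚ] L) P = Subgroup.zpowers σ}

/-- GEN2: simultaneous generators. -/
def GEN2 : Prop := ∀ (N C₁ C₂ : Type) [CommGroup N] [Finite N] [Group C₁] [Group C₂]
    [IsCyclic C₁] [IsCyclic C₂] (f₁ : N →* C₁) (f₂ : N →* C₂), Function.Surjective f₁ →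
    Function.Surjective f₂ →
    ∃ x : N, Subgroup.zpowers (f₁ x) = ⊤ ∧ Subgroup.zpowers (f₂ x) = ⊤

/-- NSF: a decomposition group that surjects onto `Gal(K / F)` makes all primes of `F` above `q`
nonsplit in `K`; fields inside a Galois extension `L / ℚ`. -/
def NSF : Prop := ∀ (L : Type) [Field L] [NumberField L] [IsGalois ℚ L]
    (F K : IntermediateField ℚ L) (σ : L ≃ₐ[ℚ] L) (q : ℕ) (P : Ideal (𝓞 L)), q.Prime →
    P.IsPrime → (q : 𝓞 L) ∈ P → MulAction.stabilizer (L ≃ₐ[ℚ] L) P = Subgroup.zpowers σ →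
    (∀ τ ρ : L ≃ₐ[ℚ] L, ρ ∈ F.fixingSubgroup →
      ∃ j : ℤ, ρ * (τ * σ ^ j * τ⁻¹)⁻¹ ∈ K.fixingSubgroup) →
    ∀ Q₁ Q₂ : Ideal (𝓞 L), Q₁.IsPrime → Q₂.IsPrime → (q : 𝓞 L) ∈ Q₁ → (q : 𝓞 L) ∈ Q₂ →
      (∀ x : 𝓞 L, (x : L) ∈ F → (x ∈ Q₁ ↔ x ∈ Q₂)) →
      ∀ x : 𝓞 L, (x : L) ∈ K → (x ∈ Q₁ ↔ x ∈ Q₂)

/-- SPL: if the decomposition group lies in `Gal(L / F)`, `F / ℚ` Galois, then the residue fields
of `F` at the primes above `q` have `q` elements. -/
def SPL : Prop := ∀ (L : Type) [Field L] [NumberField L] [IsGalois ℚ L]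
    (F : IntermediateField ℚ L) [IsGalois ℚ F] (q : ℕ) (P : Ideal (𝓞 L)), q.Prime →
    P.IsPrime → (q : 𝓞 L) ∈ P → MulAction.stabilizer (L ≃ₐ[ℚ] L) P ≤ F.fixingSubgroup →
    ∀ Q : Ideal (𝓞 F), Q.IsPrime → (q : 𝓞 F) ∈ Q → Nat.card (𝓞 F ⧸ Q) = q

/-- PD: positive density is monotone and insensitive to finitely many primes. -/
def PD : Prop := ∀ (S T : Set ℕ) (A : Finset ℕ), PosDensity S →
    (∀ q ∈ S, q.Prime → q ∉ A → q ∈ T) → PosDensity T

/-! ### Subfields of `ℂ` -/

/-- A subfield of `ℂ` of finite degree over `ℚ` is a number field. -/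
instance numC (K : IntermediateField ℚ ℂ) [FiniteDimensional ℚ K] : NumberField K where

/-- The algebra structure of an inclusion of subfields of `ℂ`. -/
noncomputable abbrev algC {F K : IntermediateField ℚ ℂ} (h : F ≤ K) : Algebra F K :=
  (IntermediateField.inclusion h).toRingHom.toAlgebra

/-- `K / F` is a Galois extension of number fields of degree prime to `p` with trivial relative
`p`-class group. -/
def RelTrivC (p : ℕ) (F K : IntermediateField ℚ ℂ) : Prop :=
  ∃ (h : F ≤ K) (_ : FiniteDimensional ℚ F) (_ : FiniteDimensional ℚ K),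
    letI := algC h
    IsGalois F K ∧ (Module.finrank F K).Coprime p ∧ RelTriv F K p

/-- BASE: translation between class numbers and `RelTrivC`. -/
def BASE : Prop := ∀ (p : ℕ) [Fact p.Prime] (F K : IntermediateField ℚ ℂ)
    [FiniteDimensional ℚ K] (h : F ≤ K), IsGalois F (IntermediateField.extendScalars h) →
    ¬ p ∣ Module.finrank F (IntermediateField.extendScalars h) →
    (padicValNat p (classNo K) = padicValNat p (classNo F) ↔ RelTrivC p F K)

/-- BCH: base change of Galois extensions of subfields of `ℂ`. -/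
def BCH : Prop :=
  (∀ (A C E A' C' : IntermediateField ℚ ℂ) [FiniteDimensional ℚ C] [FiniteDimensional ℚ E]
    (h : A ≤ C) (h' : A' ≤ C'), A' = A ⊔ E → C' = C ⊔ E →
    IsGalois A (IntermediateField.extendScalars h) →
    IsGalois A' (IntermediateField.extendScalars h') ∧
    Module.finrank A' (IntermediateField.extendScalars h') ∣
      Module.finrank A (IntermediateField.extendScalars h)) ∧
  (∀ (A C E : IntermediateField ℚ ℂ) [FiniteDimensional ℚ C] [FiniteDimensional ℚ E]
    (h : A ≤ C) (h' : A ≤ E) (h'' : A ≤ C ⊔ E), IsGalois A (IntermediateField.extendScalars h) →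
    IsGalois A (IntermediateField.extendScalars h') →
    IsGalois A (IntermediateField.extendScalars h''))

/-- CHIEF: a Galois `p`-extension `M / F` of degree `p ^ (a + 1)` has a Galois subextension
`M' / F` of degree `p ^ a`. -/
def CHIEF : Prop := ∀ (p a : ℕ) [Fact p.Prime] (F M : IntermediateField ℚ ℂ)
    [FiniteDimensional ℚ M] (h : F ≤ M), IsGalois F (IntermediateField.extendScalars h) →
    Module.finrank F (IntermediateField.extendScalars h) = p ^ (a + 1) →
    ∃ (M' : IntermediateField ℚ ℂ) (h₁ : F ≤ M') (h₂ : M' ≤ M),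
      IsGalois F (IntermediateField.extendScalars h₁) ∧
      Module.finrank F (IntermediateField.extendScalars h₁) = p ^ a ∧
      Module.finrank M' (IntermediateField.extendScalars h₂) = p

/-- TSTEP: one step of the induction, for subfields of `ℂ`. -/
def TSTEP : Prop := ∀ (p : ℕ) [Fact p.Prime] (F K M' M : IntermediateField ℚ ℂ)
    [FiniteDimensional ℚ K] [FiniteDimensional ℚ M] (hK : F ≤ K) (h₁ : F ≤ M') (h₂ : M' ≤ M),
    IsGalois F (IntermediateField.extendScalars hK) →
    ¬ p ∣ Module.finrank F (IntermediateField.extendScalars hK) →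
    IsGalois F (IntermediateField.extendScalars h₁) →
    IsGalois F (IntermediateField.extendScalars (h₁.trans h₂)) →
    (∃ a : ℕ, Module.finrank F (IntermediateField.extendScalars (h₁.trans h₂)) = p ^ a) →
    Module.finrank M' (IntermediateField.extendScalars h₂) = p →
    UnramInf (h₁.trans h₂) → NonsplitRam hK (h₁.trans h₂) →
    RelTrivC p M' (K ⊔ M') → RelTrivC p M (K ⊔ M)

/-- GALB: for `K / k` abelian, `k` imaginary quadratic, `F / ℚ` abelian, `K / F` cyclic there is
`σ` in the Galois group over `F` of the normal closure that generates `Gal(K' / F)` for all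
conjugates `K'` of `K`. -/
def GALB : Prop := ∀ (k F K : IntermediateField ℚ ℂ) [FiniteDimensional ℚ K] (hkF : k ≤ F)
    (hFK : F ≤ K), Module.finrank ℚ k = 2 → (∃ z ∈ k, (starRingEnd ℂ) z ≠ z) →
    IsGalois k (IntermediateField.extendScalars (hkF.trans hFK)) →
    (∀ a b : (IntermediateField.extendScalars (hkF.trans hFK)) ≃ₐ[k]
      (IntermediateField.extendScalars (hkF.trans hFK)), a * b = b * a) →
    IsGalois ℚ F → (∀ a b : F ≃ₐ[ℚ] F, a * b = b * a) →
    IsCyclic ((IntermediateField.extendScalars hFK) ≃ₐ[F]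
      (IntermediateField.extendScalars hFK)) →
    ∃ L : IntermediateField ℚ ℂ, K ≤ L ∧ FiniteDimensional ℚ L ∧ IsGalois ℚ L ∧
      ∃ σ : L ≃ₐ[ℚ] L, (∀ x : L, (x : ℂ) ∈ F → σ x = x) ∧
        ∀ τ ρ : L ≃ₐ[ℚ] L, (∀ x : L, (x : ℂ) ∈ F → ρ x = x) →
          ∃ j : ℤ, ∀ x : L, (x : ℂ) ∈ K → (ρ * (τ * σ ^ j * τ⁻¹)⁻¹) x = x

/-! ### The results -/

/-- MAINA: the relative Iwasawa theorem. -/
def MAINA : Prop := ∀ (p a : ℕ) [Fact p.Prime] (F K M : IntermediateField ℚ ℂ)
    [FiniteDimensional ℚ K] [FiniteDimensional ℚ M] (hK : F ≤ K) (hM : F ≤ M),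
    IsGalois F (IntermediateField.extendScalars hK) →
    ¬ p ∣ Module.finrank F (IntermediateField.extendScalars hK) →
    IsGalois F (IntermediateField.extendScalars hM) →
    Module.finrank F (IntermediateField.extendScalars hM) = p ^ a →
    UnramInf hM → NonsplitRam hK hM →
    padicValNat p (classNo K) = padicValNat p (classNo F) →
    padicValNat p (classNo (K ⊔ M)) = padicValNat p (classNo M)

/-- MAINC: the layers of the cyclotomic `ℤ_p`-extensions. -/
def MAINC : Prop := ∀ (p : ℕ) [Fact p.Prime] (F K : IntermediateField ℚ ℂ)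
    [FiniteDimensional ℚ K] (h : F ≤ K), IsGalois F (IntermediateField.extendScalars h) →
    ¬ p ∣ Module.finrank F (IntermediateField.extendScalars h) → Nonsplit p h →
    padicValNat p (classNo K) = padicValNat p (classNo F) →
    ∀ (n : ℕ) (B : IntermediateField ℚ ℂ), IsLayer p n B →
      padicValNat p (classNo (K ⊔ B)) = padicValNat p (classNo (F ⊔ B))

/-- MAINB: positive density of primes. -/
def MAINB : Prop := ∀ (k F K : IntermediateField ℚ ℂ) [FiniteDimensional ℚ K] (hkF : k ≤ F)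
    (hFK : F ≤ K), Module.finrank ℚ k = 2 → (∃ z ∈ k, (starRingEnd ℂ) z ≠ z) →
    IsGalois k (IntermediateField.extendScalars (hkF.trans hFK)) →
    (∀ a b : (IntermediateField.extendScalars (hkF.trans hFK)) ≃ₐ[k]
      (IntermediateField.extendScalars (hkF.trans hFK)), a * b = b * a) →
    IsGalois ℚ F → (∀ a b : F ≃ₐ[ℚ] F, a * b = b * a) →
    IsCyclic ((IntermediateField.extendScalars hFK) ≃ₐ[F]
      (IntermediateField.extendScalars hFK)) →
    PosDensity {p : ℕ | (∀ P : Ideal (𝓞 F), P.IsPrime → (p : 𝓞 F) ∈ P → Nat.card (𝓞 F ⧸ P) = p) ∧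
      ∀ (n : ℕ) (B : IntermediateField ℚ ℂ), IsLayer p n B →
        padicValNat p (classNo (K ⊔ B)) = padicValNat p (classNo (F ⊔ B))}

end Pool.Agent.RI


end

section

/-!
# Relative Iwasawa theorem: translation between `extendScalars` and `algC`
-/

open NumberField

namespace Pool.Agent.RI

/-- `extendScalars h` and `K` are the same extension of `F`. -/
noncomputable def extEquiv {F K : IntermediateField ℚ ℂ} (h : F ≤ K) :
    letI := algC h
    (IntermediateField.extendScalars h) ≃ₐ[F] K :=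
  letI := algC h
  { toFun := fun x => ⟨x.1, x.2⟩
    invFun := fun x => ⟨x.1, x.2⟩
    left_inv := fun _ => rfl
    right_inv := fun _ => rfl
    map_mul' := fun _ _ => rfl
    map_add' := fun _ _ => rfl
    commutes' := fun _ => rfl }

@[simp] lemma extEquiv_coe {F K : IntermediateField ℚ ℂ} (h : F ≤ K)
    (x : IntermediateField.extendScalars h) : ((extEquiv h x : K) : ℂ) = (x : ℂ) := rfl

lemma isGalois_algC {F K : IntermediateField ℚ ℂ} (h : F ≤ K) :
    (letI := algC h; IsGalois F K) ↔ IsGalois F (IntermediateField.extendScalars h) := by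
  letI := algC h
  constructor
  · intro hg
    exact IsGalois.of_algEquiv (extEquiv h).symm
  · intro hg
    exact IsGalois.of_algEquiv (extEquiv h)

lemma finrank_algC {F K : IntermediateField ℚ ℂ} (h : F ≤ K) :
    (letI := algC h; Module.finrank F K) =
      Module.finrank F (IntermediateField.extendScalars h) := by
  letI := algC h
  exact (extEquiv h).symm.toLinearEquiv.finrank_eq

/-- Towers of inclusions. -/
lemma towerC {E F K : IntermediateField ℚ ℂ} (h : E ≤ F) (h' : F ≤ K) :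
    @IsScalarTower E F K (algC h).toSMul (algC h').toSMul (algC (h.trans h')).toSMul := by
  letI := algC h
  letI := algC h'
  letI := algC (h.trans h')
  exact IsScalarTower.of_algebraMap_eq (fun _ => rfl)

end Pool.Agent.RI


end

section

/-!
# Relative Iwasawa theorem: statements of the density part (explicit constants)
-/

open NumberField Finset IsDedekindDomain
open scoped nonZeroDivisors Pointwise

namespace Pool.Agent.RI

/-- The set `S` of natural numbers contains primes of lower Dirichlet density at least `δ` (with a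
bounded error term). -/
def DensityGE (S : Set ℕ) (δ : ℝ) : Prop :=
  ∃ C : ℝ, ∀ s : ℝ, 1 < s → s ≤ 2 →
    δ * Real.log (1 / (s - 1)) - C ≤ ∑' q : {q : ℕ // q.Prime ∧ q ∈ S}, (q : ℝ) ^ (-s)

/-- FROBD: the theorem of Frobenius (lower bound) for a set `T` of elements of the Galois group
that is a union of divisions: the primes `q` with a decomposition group generated by an element of
`T` have lower density at least `#T / #G`. -/
def FROBD : Prop := ∀ (L : Type) [Field L] [NumberField L] [IsGalois ℚ L]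
    (T : Set (L ≃ₐ[ℚ] L)),
    (∀ g h τ : L ≃ₐ[ℚ] L, g ∈ T → Subgroup.zpowers h = Subgroup.zpowers (τ * g * τ⁻¹) → h ∈ T) →
    DensityGE {q : ℕ | ∃ g ∈ T, ∃ P : Ideal (𝓞 L), P.IsPrime ∧ (q : 𝓞 L) ∈ P ∧
      MulAction.stabilizer (L ≃ₐ[ℚ] L) P = Subgroup.zpowers g}
      ((Nat.card T : ℝ) / Nat.card (L ≃ₐ[ℚ] L))

/-- PDGE: the density bound is monotone and insensitive to finitely many primes. -/
def PDGE : Prop := ∀ (S T : Set ℕ) (A : Finset ℕ) (δ : ℝ), DensityGE S δ →
    (∀ q ∈ S, q.Prime → q ∉ A → q ∈ T) → DensityGE T δ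

/-- COUNTG: number of good elements in a group `G` with an abelian subgroup `N` of index two and
a subgroup `H` of `N` with `N = H × cHc⁻¹` and `N / H` cyclic of order `m`. -/
def COUNTG : Prop := ∀ (G : Type) [Group G] [Finite G] (N H : Subgroup G) (c : G) (m : ℕ),
    N.index = 2 → c ∉ N → (∀ a ∈ N, ∀ b ∈ N, a * b = b * a) → H ≤ N → H.relIndex N = m →
    (∀ a ∈ H, c * a * c⁻¹ ∈ H → a = 1) →
    (∀ a ∈ N, ∃ x ∈ H, ∃ y ∈ H, a = x * (c * y * c⁻¹)) →
    (∃ x ∈ N, ∀ y ∈ N, ∃ j : ℤ, y * (x ^ j)⁻¹ ∈ H) →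
    Nat.card G = 2 * m ^ 2 ∧
    Nat.card {g : G // ∀ τ ρ : G, ρ ∈ N → ∃ j : ℤ, ρ * (τ * g ^ j * τ⁻¹)⁻¹ ∈ H} =
      m.totient ^ 2 + m * m.totient

/-- `g` is good for `F ⊆ K ⊆ L`: for all conjugates `g'` of `g`, `Gal(L/F) = Gal(L/K) ⟨g'⟩`. -/
def Good (F K L : IntermediateField ℚ ℂ) (g : L ≃ₐ[ℚ] L) : Prop :=
  ∀ τ ρ : L ≃ₐ[ℚ] L, (∀ x : L, (x : ℂ) ∈ F → ρ x = x) →
    ∃ j : ℤ, ∀ x : L, (x : ℂ) ∈ K → (ρ * (τ * g ^ j * τ⁻¹)⁻¹) x = x

/-- GALE: the Galois group of `L = K ⊔ conj K`, `K / k` cyclic of degree `m`, `K ∩ conj K = k`. -/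
def GALE : Prop := ∀ (k K : IntermediateField ℚ ℂ) [FiniteDimensional ℚ K] (h : k ≤ K),
    Module.finrank ℚ k = 2 → (∃ z ∈ k, (starRingEnd ℂ) z ≠ z) →
    IsGalois k (IntermediateField.extendScalars h) →
    IsCyclic ((IntermediateField.extendScalars h) ≃ₐ[k] (IntermediateField.extendScalars h)) →
    (∀ z ∈ K, (starRingEnd ℂ) z ∈ K → z ∈ k) →
    ∃ L : IntermediateField ℚ ℂ, K ≤ L ∧ FiniteDimensional ℚ L ∧ IsGalois ℚ L ∧
      Nat.card (L ≃ₐ[ℚ] L) = 2 * Module.finrank k (IntermediateField.extendScalars h) ^ 2 ∧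
      Nat.card {g : L ≃ₐ[ℚ] L // Good k K L g} =
        (Module.finrank k (IntermediateField.extendScalars h)).totient ^ 2 +
        Module.finrank k (IntermediateField.extendScalars h) *
          (Module.finrank k (IntermediateField.extendScalars h)).totient

/-- MAIND: density of the primes with trivial relative `p`-class groups in the cyclotomic tower,
for `K / F` Galois, in terms of the Galois closure. -/
def MAIND : Prop := ∀ (F K L : IntermediateField ℚ ℂ) [FiniteDimensional ℚ L] (hFK : F ≤ K)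
    (_hKL : K ≤ L), IsGalois ℚ L → IsGalois F (IntermediateField.extendScalars hFK) →
    DensityGE {p : ℕ | ∀ (n : ℕ) (B : IntermediateField ℚ ℂ), IsLayer p n B →
        padicValNat p (classNo (K ⊔ B)) = padicValNat p (classNo (F ⊔ B))}
      ((Nat.card {g : L ≃ₐ[ℚ] L // Good F K L g} : ℝ) / Nat.card (L ≃ₐ[ℚ] L))

/-- MAINE: `K / k` cyclic of degree `m` with `K ∩ conj K = k`. -/
def MAINE : Prop := ∀ (k K : IntermediateField ℚ ℂ) [FiniteDimensional ℚ K] (h : k ≤ K) (m : ℕ),
    Module.finrank ℚ k = 2 → (∃ z ∈ k, (starRingEnd ℂ) z ≠ z) →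
    IsGalois k (IntermediateField.extendScalars h) →
    IsCyclic ((IntermediateField.extendScalars h) ≃ₐ[k] (IntermediateField.extendScalars h)) →
    (∀ z ∈ K, (starRingEnd ℂ) z ∈ K → z ∈ k) →
    Module.finrank k (IntermediateField.extendScalars h) = m →
    DensityGE {p : ℕ | ∀ (n : ℕ) (B : IntermediateField ℚ ℂ), IsLayer p n B →
        padicValNat p (classNo (K ⊔ B)) = padicValNat p (classNo (k ⊔ B))}
      (((m.totient : ℝ) / m) * (1 + (m.totient : ℝ) / m) / 2)

end Pool.Agent.RI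


end

section

/-!
# Frobenius: decomposition groups and primes of degree one of fixed fields

`M` is a finite Galois extension of the rational numbers with group `G`, and `H` is a subgroup of
`G` with fixed field `F`.  For a prime `w` of `M`, unramified over the rational numbers, the prime
of `F` below `w` has degree one iff the decomposition group of `w` is contained in `H`.
-/

open NumberField IsDedekindDomain Ideal MulAction
open scoped Pointwise

namespace Pool.Agent.Lib_helper28.FROB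

variable {M : Type*} [Field M] [NumberField M] [IsGalois ℚ M]

/-- The fixed field of a subgroup. -/
abbrev Fix (H : Subgroup Gal(M/ℚ)) : IntermediateField ℚ M := FixedPoints.intermediateField H

instance galH (H : Subgroup Gal(M/ℚ)) : IsGaloisGroup H (Fix H) M :=
  IsGaloisGroup.subgroup Gal(M/ℚ) ℚ M H

instance galHO (H : Subgroup Gal(M/ℚ)) : IsGaloisGroup H (𝓞 (Fix H)) (𝓞 M) :=
  IsGaloisGroup.of_isFractionRing H _ _ (Fix H) M

/-- The stabilizer of a prime in the subgroup `H` and in `G`. -/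
theorem card_stab_sub (H : Subgroup Gal(M/ℚ)) (P : Ideal (𝓞 M)) :
    Nat.card (stabilizer H P) = Nat.card ((stabilizer Gal(M/ℚ) P ⊓ H : Subgroup Gal(M/ℚ))) := by
  have h : stabilizer H P = (stabilizer Gal(M/ℚ) P).subgroupOf H := by
    ext g
    simp only [mem_stabilizer_iff, Subgroup.mem_subgroupOf]
    rfl
  rw [h, ← Subgroup.inf_subgroupOf_right]
  exact Nat.card_congr (Subgroup.subgroupOfEquivOfLe inf_le_right).toEquiv


theorem perfect_under {R : Type*} [CommRing R] [IsDomain R] [Ring.HasFiniteQuotients R]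
    (p : Ideal R) [p.IsMaximal] (hp : p ≠ ⊥) : PerfectField p.ResidueField := by
  have : Finite (R ⧸ p) := Ring.HasFiniteQuotients.finiteQuotient hp
  infer_instance

theorem card_stab (G : Type*) [Group G] [Finite G] (R S : Type*) [CommRing R] [CommRing S]
    [Algebra R S] [MulSemiringAction G S] [IsGaloisGroup G R S] [IsDomain R] [IsDomain S]
    [Module.Finite R S] [Module.Flat R S] [Ring.HasFiniteQuotients R] (P : Ideal S)
    [P.IsPrime] (p : Ideal R) [p.IsMaximal] [P.LiesOver p] (hp : p ≠ ⊥)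
    (h : P.ramificationIdx R = 1) :
    Nat.card (stabilizer G P) = P.inertiaDeg R := by
  have := perfect_under p hp
  rw [Ideal.card_stabilizer_eq p P, ramificationIdxIn_eq_ramificationIdx p P G, h, one_mul,
    inertiaDegIn_eq_inertiaDeg p P G]

end Pool.Agent.Lib_helper28.FROB


end

section

/-!
# Prime ideals of a number field and the rational primes below them
-/

open NumberField IsDedekindDomain Ideal
open scoped ENNReal

namespace Pool.Agent.Lib_helper28.FROB

section

variable {K : Type*} [Field K]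

/-- the rational prime below -/
noncomputable def pr (v : HeightOneSpectrum (𝓞 K)) : ℕ := absNorm (v.asIdeal.under ℤ)

/-- the residue degree over the rational prime below -/
noncomputable def dg (v : HeightOneSpectrum (𝓞 K)) : ℕ := v.asIdeal.inertiaDeg ℤ

theorem pr_prime (v : HeightOneSpectrum (𝓞 K)) : (pr v).Prime := by
  have : NeZero v.asIdeal := ⟨v.ne_bot⟩
  exact Nat.absNorm_under_prime v.asIdeal

theorem under_eq (v : HeightOneSpectrum (𝓞 K)) : v.asIdeal.under ℤ = span {(pr v : ℤ)} :=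
  (Int.ideal_span_absNorm_eq_self _).symm

/-- primes above `p` -/
noncomputable def toOver (p : ℕ) (v : {v : HeightOneSpectrum (𝓞 K) // pr v = p}) :
    (span {(p : ℤ)}).primesOver (𝓞 K) :=
  ⟨v.1.asIdeal, v.1.isPrime, ⟨by rw [under_eq, v.2]⟩⟩

theorem toOver_inj (p : ℕ) : Function.Injective (toOver (K := K) p) := by
  intro v w h
  apply Subtype.ext
  apply HeightOneSpectrum.ext
  exact congrArg Subtype.val h

end

variable {K : Type*} [Field K] [NumberField K]

theorem norm_eq (v : HeightOneSpectrum (𝓞 K)) : absNorm v.asIdeal = pr v ^ dg v := by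
  have : v.asIdeal.LiesOver (span {(pr v : ℤ)}) := Int.liesOver_span_absNorm _
  have h := Ideal.natAbs_pow_inertiaDeg (pr v : ℤ) v.asIdeal
  rw [← h, Int.natAbs_natCast]
  rfl

theorem dg_pos (v : HeightOneSpectrum (𝓞 K)) : 0 < dg v := Ideal.inertiaDeg_pos _ _

theorem finite_over (p : ℕ) [Fact p.Prime] : Finite ((span {(p : ℤ)}).primesOver (𝓞 K)) :=
  (Algebra.QuasiFinite.finite_primesOver (span {(p : ℤ)})).to_subtype

theorem fiber_finite (p : ℕ) : Finite {v : HeightOneSpectrum (𝓞 K) // pr v = p} := by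
  by_cases hp : p.Prime
  · have := Fact.mk hp
    have := finite_over (K := K) p
    exact Finite.of_injective _ (toOver_inj p)
  · have : IsEmpty {v : HeightOneSpectrum (𝓞 K) // pr v = p} := ⟨fun v => hp (v.2 ▸ pr_prime v.1)⟩
    infer_instance

theorem card_fiber_le (p : ℕ) :
    Nat.card {v : HeightOneSpectrum (𝓞 K) // pr v = p} ≤ Module.finrank ℚ K := by
  by_cases hp : p.Prime
  · have := Fact.mk hp
    have := finite_over (K := K) p
    refine (Nat.card_le_card_of_injective _ (toOver_inj p)).trans ?_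
    have := Fintype.ofFinite ((span {(p : ℤ)}).primesOver (𝓞 K))
    rw [← RingOfIntegers.rank K, ← Ideal.sum_ramification_inertia_eq_finrank
      (span {(p : ℤ)}) (𝓞 K), Nat.card_eq_fintype_card, ← Finset.card_univ,
      Finset.card_eq_sum_ones]
    refine Finset.sum_le_sum fun q _ => ?_
    exact Nat.one_le_iff_ne_zero.mpr (Nat.mul_ne_zero (Ideal.ramificationIdx_pos _ _).ne'
      (Ideal.inertiaDeg_pos _ _).ne')
  · have : IsEmpty {v : HeightOneSpectrum (𝓞 K) // pr v = p} := ⟨fun v => hp (v.2 ▸ pr_prime v.1)⟩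
    simp

/-- Sums over the prime ideals of functions of the rational prime below. -/
theorem tsum_pr_le (f : ℕ → ℝ≥0∞) :
    ∑' v : HeightOneSpectrum (𝓞 K), f (pr v) ≤ Module.finrank ℚ K * ∑' p : Nat.Primes, f p := by
  let g : HeightOneSpectrum (𝓞 K) → Nat.Primes := fun v => ⟨pr v, pr_prime v⟩
  rw [← ENNReal.tsum_fiberwise (fun v : HeightOneSpectrum (𝓞 K) => f (pr v)) g,
    ← ENNReal.tsum_mul_left]
  refine ENNReal.tsum_le_tsum fun p => ?_
  have h1 : ∀ v : ↑(g ⁻¹' {p}), f (pr v.1) = f p := by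
    intro v
    have : g v.1 = p := v.2
    exact congrArg (fun q : Nat.Primes => f (q : ℕ)) this
  have hfin := fiber_finite (K := K) p
  let e : ↑(g ⁻¹' {p}) ≃ {v : HeightOneSpectrum (𝓞 K) // pr v = (p : ℕ)} :=
    Equiv.subtypeEquivRight fun v => Subtype.ext_iff
  have : Finite ↑(g ⁻¹' {p}) := Finite.of_equiv _ e.symm
  have := Fintype.ofFinite ↑(g ⁻¹' {p})
  rw [tsum_congr h1, tsum_fintype, Finset.sum_const, Finset.card_univ, nsmul_eq_mul,
    ← Nat.card_eq_fintype_card, Nat.card_congr e]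
  gcongr
  exact card_fiber_le _

end Pool.Agent.Lib_helper28.FROB


end

section

/-!
# The two inequalities of the Euler product of the Dedekind zeta function
-/

open NumberField IsDedekindDomain Ideal
open scoped ENNReal

namespace Pool.Agent.Lib_helper28.FROB

variable {K : Type*} [Field K] [NumberField K]

/-- `N(I)^(-s)` -/
noncomputable def F (s : ℝ) (I : Ideal (𝓞 K)) : ℝ≥0∞ := ENNReal.ofReal ((absNorm I : ℝ) ^ (-s))

/-- the sum over all nonzero ideals -/
noncomputable def Z (K : Type*) [Field K] [NumberField K] (s : ℝ) : ℝ≥0∞ :=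
  ∑' I : {I : Ideal (𝓞 K) // I ≠ ⊥}, F s I.1

/-- `N(v)^(-s)` -/
noncomputable def x (s : ℝ) (v : HeightOneSpectrum (𝓞 K)) : ℝ := (absNorm v.asIdeal : ℝ) ^ (-s)

theorem F_one (s : ℝ) : F s (1 : Ideal (𝓞 K)) = 1 := by
  simp [F]

theorem F_mul (s : ℝ) (I J : Ideal (𝓞 K)) : F s (I * J) = F s I * F s J := by
  unfold F
  rw [map_mul, Nat.cast_mul, Real.mul_rpow (Nat.cast_nonneg _) (Nat.cast_nonneg _),
    ENNReal.ofReal_mul (Real.rpow_nonneg (Nat.cast_nonneg _) _)]

theorem F_pow (s : ℝ) (I : Ideal (𝓞 K)) (k : ℕ) : F s (I ^ k) = F s I ^ k := by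
  induction k with
  | zero => rw [pow_zero, pow_zero, F_one]
  | succ k ih => rw [pow_succ, pow_succ, F_mul, ih]

theorem F_prod (s : ℝ) (t : Finset (HeightOneSpectrum (𝓞 K))) :
    F s (∏ v ∈ t, v.asIdeal) = ∏ v ∈ t, F s v.asIdeal := by
  classical
  induction t using Finset.induction_on with
  | empty => rw [Finset.prod_empty, Finset.prod_empty, F_one]
  | insert v t hv ih => rw [Finset.prod_insert hv, Finset.prod_insert hv, F_mul, ih]

theorem dvd_asIdeal {v w : HeightOneSpectrum (𝓞 K)} (h : v.asIdeal ∣ w.asIdeal) : v = w := by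
  apply HeightOneSpectrum.ext
  have h1 : w.asIdeal ≤ v.asIdeal := Ideal.dvd_iff_le.mp h
  exact (w.isMaximal.eq_of_le v.isPrime.ne_top h1).symm

theorem dvd_prod {v : HeightOneSpectrum (𝓞 K)} {t : Finset (HeightOneSpectrum (𝓞 K))} :
    v.asIdeal ∣ ∏ w ∈ t, w.asIdeal ↔ v ∈ t := by
  constructor
  · intro h
    obtain ⟨w, hw, h'⟩ := (Prime.dvd_finsetProd_iff v.prime _).mp h
    rwa [dvd_asIdeal h']
  · intro h
    exact Finset.dvd_prod_of_mem _ h

omit [NumberField K] in
theorem prod_ne_bot (t : Finset (HeightOneSpectrum (𝓞 K))) : ∏ w ∈ t, w.asIdeal ≠ ⊥ := by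
  rw [← Ideal.zero_eq_bot, Finset.prod_ne_zero_iff]
  intro w _
  exact w.ne_bot

theorem euler_lower (s : ℝ) (t : Finset (HeightOneSpectrum (𝓞 K))) :
    ∏ v ∈ t, (1 + F s v.asIdeal) ≤ Z K s := by
  classical
  rw [Finset.prod_one_add]
  let φ : Finset (HeightOneSpectrum (𝓞 K)) → {I : Ideal (𝓞 K) // I ≠ ⊥} :=
    fun u => ⟨∏ v ∈ u, v.asIdeal, prod_ne_bot u⟩
  have hφ : Function.Injective φ := by
    intro u u' h
    have h' : ∏ v ∈ u, v.asIdeal = ∏ v ∈ u', v.asIdeal := congrArg Subtype.val h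
    ext v
    rw [← dvd_prod, h', dvd_prod]
  have h1 : ∀ u ∈ t.powerset, ∏ v ∈ u, F s v.asIdeal = F s (φ u).1 := fun u _ => (F_prod s u).symm
  rw [Finset.sum_congr rfl h1, ← Finset.sum_image (f := fun I : {I : Ideal (𝓞 K) // I ≠ ⊥} =>
    F s I.1) (s := t.powerset) (g := φ) (fun a _ b _ h => hφ h)]
  exact ENNReal.sum_le_tsum _

/-- the nonzero ideals all of whose prime divisors are in `t` -/
abbrev AS (t : Finset (HeightOneSpectrum (𝓞 K))) : Type _ :=
  {I : Ideal (𝓞 K) // I ≠ ⊥ ∧ ∀ v : HeightOneSpectrum (𝓞 K), v.asIdeal ∣ I → v ∈ t}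

theorem AS_insert {t : Finset (HeightOneSpectrum (𝓞 K))} {v : HeightOneSpectrum (𝓞 K)}
    [DecidableEq (HeightOneSpectrum (𝓞 K))] (I : AS (insert v t)) :
    ∃ (J : AS t) (k : ℕ), I.1 = J.1 * v.asIdeal ^ k := by
  have hfin : FiniteMultiplicity v.asIdeal I.1 :=
    FiniteMultiplicity.of_not_isUnit v.prime.not_isUnit I.2.1
  obtain ⟨c, hc, hnd⟩ := hfin.exists_eq_pow_mul_and_not_dvd
  refine ⟨⟨c, ?_, ?_⟩, multiplicity v.asIdeal I.1, ?_⟩
  · rintro rfl
    rw [Ideal.mul_bot] at hc
    exact I.2.1 hc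
  · intro w hw
    have h1 : w.asIdeal ∣ I.1 := hc ▸ hw.mul_left _
    rcases Finset.mem_insert.mp (I.2.2 w h1) with h2 | h2
    · subst h2
      exact absurd hw hnd
    · exact h2
  · rw [mul_comm]
    exact hc

theorem euler_upper_aux (s : ℝ) (t : Finset (HeightOneSpectrum (𝓞 K))) :
    ∑' I : AS t, F s I.1 ≤ ∏ v ∈ t, (1 - F s v.asIdeal)⁻¹ := by
  classical
  induction t using Finset.induction_on with
  | empty =>
    have h1 : ∀ I : AS (∅ : Finset (HeightOneSpectrum (𝓞 K))), I.1 = 1 := by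
      intro I
      by_contra h
      obtain ⟨P, hP, hle⟩ := Ideal.exists_le_maximal I.1 (by rwa [← Ideal.one_eq_top])
      have hPb : P ≠ ⊥ := by
        rintro rfl
        exact I.2.1 (le_bot_iff.mp hle)
      exact absurd (I.2.2 ⟨P, hP.isPrime, hPb⟩ (Ideal.dvd_iff_le.mpr hle)) (Finset.notMem_empty _)
    have : Subsingleton (AS (∅ : Finset (HeightOneSpectrum (𝓞 K)))) :=
      ⟨fun a b => Subtype.ext ((h1 a).trans (h1 b).symm)⟩
    let e : AS (∅ : Finset (HeightOneSpectrum (𝓞 K))) :=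
      ⟨1, one_ne_zero, fun v hv => absurd (isUnit_of_dvd_one hv) v.prime.not_isUnit⟩
    rw [tsum_eq_single e (fun b hb => absurd (Subsingleton.elim b e) hb), Finset.prod_empty]
    exact (F_one s).le
  | insert v t hv ih =>
    rw [Finset.prod_insert hv]
    let φ : AS t × ℕ → AS (insert v t) := fun p => ⟨p.1.1 * v.asIdeal ^ p.2, by
      refine ⟨?_, ?_⟩
      · exact mul_ne_zero (M₀ := Ideal (𝓞 K)) p.1.2.1 (pow_ne_zero _ v.ne_bot)
      · intro w hw
        rcases w.prime.dvd_or_dvd hw with h | h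
        · exact Finset.mem_insert_of_mem (p.1.2.2 w h)
        · rw [dvd_asIdeal (w.prime.dvd_of_dvd_pow h)]
          exact Finset.mem_insert_self _ _⟩
    have hφ : Function.Surjective φ := by
      intro I
      obtain ⟨J, k, h⟩ := AS_insert I
      exact ⟨(J, k), Subtype.ext h.symm⟩
    refine (ENNReal.tsum_le_tsum_comp_of_surjective hφ _).trans ?_
    have h2 : ∀ p : AS t × ℕ, F s (φ p).1 = F s p.1.1 * F s v.asIdeal ^ p.2 := by
      intro p
      show F s (p.1.1 * v.asIdeal ^ p.2) = _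
      rw [F_mul, F_pow]
    rw [tsum_congr h2, ENNReal.tsum_prod']
    simp_rw [ENNReal.tsum_mul_left, ENNReal.tsum_mul_right, ENNReal.tsum_geometric]
    rw [mul_comm]
    gcongr

theorem euler_upper (s : ℝ) (B : ℝ≥0∞)
    (hB : ∀ t : Finset (HeightOneSpectrum (𝓞 K)), ∏ v ∈ t, (1 - F s v.asIdeal)⁻¹ ≤ B) :
    Z K s ≤ B := by
  classical
  unfold Z
  rw [ENNReal.tsum_eq_iSup_sum]
  refine iSup_le fun T => ?_
  let t : Finset (HeightOneSpectrum (𝓞 K)) :=
    T.biUnion fun I => (Ideal.finite_factors I.2).toFinset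
  let ψ : {I // I ∈ T} → AS t := fun I => ⟨I.1.1, I.1.2, fun v hv =>
    Finset.mem_biUnion.mpr ⟨I.1, I.2, (Set.Finite.mem_toFinset _).mpr hv⟩⟩
  have hψ : Function.Injective ψ := by
    intro a b h
    have h' : (ψ a).1 = (ψ b).1 := congrArg Subtype.val h
    exact Subtype.ext (Subtype.ext h')
  have h1 : ∑ I ∈ T, F s I.1 = ∑ I ∈ T.attach, F s (ψ I).1 :=
    (Finset.sum_attach T fun I => F s I.1).symm
  rw [h1, ← Finset.sum_image (f := fun I : AS t => F s I.1) (s := T.attach) (g := ψ)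
    (fun a _ b _ h => hψ h)]
  exact ((ENNReal.sum_le_tsum _).trans (euler_upper_aux s t)).trans (hB t)

end Pool.Agent.Lib_helper28.FROB


end

section

/-!
# The logarithm of the Dedekind zeta function and the sum over the prime ideals
-/

open NumberField IsDedekindDomain Ideal Filter Topology
open scoped ENNReal

namespace Pool.Agent.Lib_helper28.FROB

theorem inv_one_sub_le {x : ℝ} (h0 : 0 ≤ x) (h1 : x ≤ 1 / 2) :
    (1 - x)⁻¹ ≤ Real.exp (x + x ^ 2) := by
  have hpos : 0 < 1 - x := by linarith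
  rw [inv_le_iff_one_le_mul₀ hpos]
  have h2 := Real.quadratic_le_exp_of_nonneg (x := x + x ^ 2) (by positivity)
  have h3 : 1 ≤ (1 + (x + x ^ 2) + (x + x ^ 2) ^ 2 / 2) * (1 - x) := by
    have h4 : (1 + (x + x ^ 2) + (x + x ^ 2) ^ 2 / 2) * (1 - x) =
        1 + x ^ 2 / 2 * (1 - x - x ^ 2 - x ^ 3) := by ring
    rw [h4]
    have h5 : x ^ 2 ≤ 1 / 4 := by nlinarith
    have h6 : x ^ 3 ≤ 1 / 8 := by nlinarith
    nlinarith [sq_nonneg x]
  calc (1 : ℝ) ≤ (1 + (x + x ^ 2) + (x + x ^ 2) ^ 2 / 2) * (1 - x) := h3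
    _ ≤ Real.exp (x + x ^ 2) * (1 - x) := by gcongr

theorem exp_sub_le {x : ℝ} (h0 : 0 ≤ x) (h1 : x ≤ 1) : Real.exp (x - x ^ 2) ≤ 1 + x := by
  have h2 : 0 < 1 - (x - x ^ 2) := by nlinarith
  have h3 : 1 - (x - x ^ 2) ≤ Real.exp (-(x - x ^ 2)) := Real.one_sub_le_exp_neg _
  have h4 : Real.exp (x - x ^ 2) * Real.exp (-(x - x ^ 2)) = 1 := by
    rw [← Real.exp_add]; simp
  have h5 : 1 ≤ (1 + x) * (1 - (x - x ^ 2)) := by
    have : (1 + x) * (1 - (x - x ^ 2)) = 1 + x ^ 3 := by ring
    rw [this]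
    have : 0 ≤ x ^ 3 := by positivity
    linarith
  have h6 : Real.exp (x - x ^ 2) * (1 - (x - x ^ 2)) ≤ (1 + x) * (1 - (x - x ^ 2)) := by
    refine le_trans ?_ h5
    exact (mul_le_mul_of_nonneg_left h3 (Real.exp_pos _).le).trans h4.le
  exact le_of_mul_le_mul_right h6 h2

variable {K : Type*} [Field K] [NumberField K]

theorem norm_ge (v : HeightOneSpectrum (𝓞 K)) : 2 ≤ absNorm v.asIdeal := by
  rw [norm_eq]
  exact (pr_prime v).two_le.trans (Nat.le_self_pow (dg_pos v).ne' _)

theorem norm_ge' (v : HeightOneSpectrum (𝓞 K)) : (2 : ℝ) ≤ absNorm v.asIdeal := by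
  exact_mod_cast norm_ge v

theorem x_pos (s : ℝ) (v : HeightOneSpectrum (𝓞 K)) : 0 < x s v :=
  Real.rpow_pos_of_pos (by linarith [norm_ge' v]) _

theorem x_anti {s t : ℝ} (h : s ≤ t) (v : HeightOneSpectrum (𝓞 K)) : x t v ≤ x s v :=
  Real.rpow_le_rpow_of_exponent_le (by linarith [norm_ge' v]) (by linarith)

theorem x_le {s : ℝ} (h : 1 ≤ s) (v : HeightOneSpectrum (𝓞 K)) : x s v ≤ 1 / 2 := by
  refine (x_anti h v).trans ?_
  unfold x
  rw [Real.rpow_neg_one, one_div]
  exact inv_anti₀ (by norm_num) (norm_ge' v)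

theorem F_eq (s : ℝ) (v : HeightOneSpectrum (𝓞 K)) : F s v.asIdeal = ENNReal.ofReal (x s v) := rfl

/-- `p ^ (-s)` for the rational prime below -/
theorem x_le_pr {s : ℝ} (h : 0 ≤ s) (v : HeightOneSpectrum (𝓞 K)) :
    x s v ≤ ((pr v : ℝ)) ^ (-s) := by
  unfold x
  rw [norm_eq]
  have h1 : (1 : ℝ) ≤ pr v := by exact_mod_cast (pr_prime v).one_le
  refine Real.rpow_le_rpow_of_nonpos (by linarith) ?_ (by linarith)
  exact_mod_cast Nat.le_self_pow (dg_pos v).ne' _

theorem summable_pr {s : ℝ} (h : 1 < s) :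
    Summable fun v : HeightOneSpectrum (𝓞 K) => ((pr v : ℝ)) ^ (-s) := by
  have h1 : Summable fun p : Nat.Primes => ((p : ℝ)) ^ (-s) :=
    Nat.Primes.summable_rpow.mpr (by linarith)
  have h2 : ∑' v : HeightOneSpectrum (𝓞 K), ENNReal.ofReal (((pr v : ℝ)) ^ (-s)) ≠ ∞ := by
    refine ne_top_of_le_ne_top ?_ (tsum_pr_le fun n => ENNReal.ofReal ((n : ℝ) ^ (-s)))
    refine ENNReal.mul_ne_top (ENNReal.natCast_ne_top _) ?_
    exact h1.tsum_ofReal_ne_top
  refine (ENNReal.summable_toReal h2).congr fun v => ?_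
  rw [ENNReal.toReal_ofReal (by positivity)]

theorem summable_x {s : ℝ} (h : 1 < s) : Summable (x (K := K) s) :=
  Summable.of_nonneg_of_le (fun v => (x_pos s v).le) (x_le_pr (by linarith)) (summable_pr h)

theorem x_sq (s : ℝ) (v : HeightOneSpectrum (𝓞 K)) : x s v ^ 2 = x (2 * s) v := by
  unfold x
  rw [← Real.rpow_natCast, ← Real.rpow_mul (Nat.cast_nonneg _)]
  congr 1
  push_cast
  ring

theorem x_sq_le {s : ℝ} (h : 1 ≤ s) (v : HeightOneSpectrum (𝓞 K)) : x s v ^ 2 ≤ x 2 v := by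
  rw [x_sq]
  exact x_anti (by linarith) v

theorem sum_sq_le {s : ℝ} (h : 1 ≤ s) (t : Finset (HeightOneSpectrum (𝓞 K))) :
    ∑ v ∈ t, x s v ^ 2 ≤ ∑' v : HeightOneSpectrum (𝓞 K), x 2 v :=
  (Finset.sum_le_sum fun v _ => x_sq_le h v).trans
    ((summable_x (by norm_num)).sum_le_tsum _ fun v _ => (x_pos 2 v).le)

theorem Z_le {s : ℝ} (h : 1 < s) : Z K s ≤ ENNReal.ofReal (Real.exp
    (∑' v : HeightOneSpectrum (𝓞 K), x s v + ∑' v : HeightOneSpectrum (𝓞 K), x 2 v)) := by
  refine euler_upper s _ fun t => ?_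
  have h1 : ∀ v ∈ t, (1 - F s v.asIdeal)⁻¹ ≤ ENNReal.ofReal (Real.exp (x s v + x s v ^ 2)) := by
    intro v _
    have h2 := x_le h.le v
    have h3 := x_pos s v
    rw [F_eq, ← ENNReal.ofReal_one, ← ENNReal.ofReal_sub _ h3.le,
      ← ENNReal.ofReal_inv_of_pos (by linarith)]
    exact ENNReal.ofReal_le_ofReal (inv_one_sub_le h3.le h2)
  refine (Finset.prod_le_prod' h1).trans ?_
  rw [← ENNReal.ofReal_prod_of_nonneg (fun v _ => (Real.exp_pos _).le), ← Real.exp_sum]
  refine ENNReal.ofReal_le_ofReal (Real.exp_le_exp.mpr ?_)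
  rw [Finset.sum_add_distrib]
  exact add_le_add ((summable_x h).sum_le_tsum _ fun v _ => (x_pos s v).le) (sum_sq_le h.le t)

theorem le_Z {s : ℝ} (h : 1 < s) : ENNReal.ofReal (Real.exp
    (∑' v : HeightOneSpectrum (𝓞 K), x s v - ∑' v : HeightOneSpectrum (𝓞 K), x 2 v)) ≤ Z K s := by
  have hc : Tendsto (fun t : Finset (HeightOneSpectrum (𝓞 K)) => ENNReal.ofReal (Real.exp
      (∑ v ∈ t, x s v - ∑' v : HeightOneSpectrum (𝓞 K), x 2 v))) atTop (𝓝 (ENNReal.ofReal (Real.exp
      (∑' v : HeightOneSpectrum (𝓞 K), x s v - ∑' v : HeightOneSpectrum (𝓞 K), x 2 v)))) := by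
    refine ENNReal.tendsto_ofReal ?_
    exact (Real.continuous_exp.tendsto _).comp ((summable_x h).hasSum.sub_const _)
  refine le_of_tendsto' hc fun t => ?_
  refine le_trans ?_ (euler_lower s t)
  have h1 : ∀ v ∈ t, ENNReal.ofReal (Real.exp (x s v - x s v ^ 2)) ≤ 1 + F s v.asIdeal := by
    intro v _
    have h2 := x_le h.le v
    have h3 := x_pos s v
    rw [F_eq, ← ENNReal.ofReal_one, ← ENNReal.ofReal_add (by norm_num) h3.le]
    exact ENNReal.ofReal_le_ofReal (exp_sub_le h3.le (by linarith))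
  refine le_trans ?_ (Finset.prod_le_prod' h1)
  rw [← ENNReal.ofReal_prod_of_nonneg (fun v _ => (Real.exp_pos _).le), ← Real.exp_sum]
  refine ENNReal.ofReal_le_ofReal (Real.exp_le_exp.mpr ?_)
  rw [Finset.sum_sub_distrib]
  exact sub_le_sub_left (sum_sq_le h.le t) _

end Pool.Agent.Lib_helper28.FROB


end

section

/-!
# The sum over the prime ideals near `s = 1`
-/

open NumberField IsDedekindDomain Ideal Filter Topology Asymptotics
open scoped ENNReal

namespace Pool.Agent.Lib_helper28.FROB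

variable (K : Type*) [Field K] [NumberField K]

/-- The terms of the Dedekind zeta function. -/
noncomputable def cf (s : ℝ) (n : ℕ) : ℝ :=
  if n = 0 then 0 else (Nat.card {I : Ideal (𝓞 K) // absNorm I = n} : ℝ) * (n : ℝ) ^ (-s)

theorem cf_nonneg (s : ℝ) (n : ℕ) : 0 ≤ cf K s n := by
  unfold cf
  split_ifs
  · exact le_rfl
  · positivity

theorem Z_eq (s : ℝ) : Z K s = ∑' n : ℕ, ENNReal.ofReal (cf K s n) := by
  let g : {I : Ideal (𝓞 K) // I ≠ ⊥} → ℕ := fun I => absNorm I.1
  unfold Z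
  rw [← ENNReal.tsum_fiberwise (fun I : {I : Ideal (𝓞 K) // I ≠ ⊥} => F s I.1) g]
  refine tsum_congr fun n => ?_
  have h1 : ∀ I : ↑(g ⁻¹' {n}), F s I.1.1 = ENNReal.ofReal ((n : ℝ) ^ (-s)) := by
    intro I
    have : absNorm I.1.1 = n := I.2
    unfold F
    rw [this]
  rw [tsum_congr h1]
  unfold cf
  by_cases hn : n = 0
  · subst hn
    have : IsEmpty ↑(g ⁻¹' {0}) := ⟨fun I => I.1.2 (absNorm_eq_zero_iff.mp I.2)⟩
    simp
  · let e : ↑(g ⁻¹' {n}) ≃ {I : Ideal (𝓞 K) // absNorm I = n} :=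
      { toFun := fun I => ⟨I.1.1, I.2⟩
        invFun := fun I => ⟨⟨I.1, by
          rintro h
          apply hn
          rw [← I.2, h, absNorm_bot]⟩, I.2⟩
        left_inv := fun I => rfl
        right_inv := fun I => rfl }
    have hfin : Finite {I : Ideal (𝓞 K) // absNorm I = n} :=
      (finite_setOfPred_absNorm_eq (S := 𝓞 K) n).to_subtype
    have : Finite ↑(g ⁻¹' {n}) := Finite.of_equiv _ e.symm
    have := Fintype.ofFinite ↑(g ⁻¹' {n})
    rw [if_neg hn, tsum_fintype, Finset.sum_const, Finset.card_univ, nsmul_eq_mul,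
      ← Nat.card_eq_fintype_card, Nat.card_congr e, ENNReal.ofReal_mul (Nat.cast_nonneg _),
      ENNReal.ofReal_natCast]

theorem zeta_eq (s : ℝ) : dedekindZeta K (s : ℂ) = (((Z K s).toReal : ℝ) : ℂ) := by
  rw [Z_eq, ENNReal.tsum_toReal_eq (fun n => ENNReal.ofReal_ne_top), Complex.ofReal_tsum]
  unfold dedekindZeta LSeries
  refine tsum_congr fun n => ?_
  rw [ENNReal.toReal_ofReal (cf_nonneg K s n)]
  unfold LSeries.term cf
  split_ifs with hn
  · simp
  · rw [Complex.ofReal_mul, Complex.ofReal_natCast, div_eq_mul_inv, ← Complex.cpow_neg,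
      Complex.ofReal_cpow (Nat.cast_nonneg _)]
    simp

theorem tendsto_Z : Tendsto (fun s : ℝ => (s - 1) * (Z K s).toReal) (𝓝[>] 1)
    (𝓝 (dedekindZeta_residue K)) := by
  have h := tendsto_sub_one_mul_dedekindZeta_nhdsGT K
  have h2 := (Complex.continuous_re.tendsto _).comp h
  refine (h2.congr fun s => ?_)
  simp only [Function.comp_apply]
  rw [zeta_eq, ← Complex.ofReal_one, ← Complex.ofReal_sub, ← Complex.ofReal_mul,
    Complex.ofReal_re]

/-- the sum over the prime ideals -/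
theorem isBigO_sum : (fun s : ℝ => ∑' v : HeightOneSpectrum (𝓞 K), x s v - Real.log (1 / (s - 1)))
    =O[𝓝[>] 1] (fun _ => (1 : ℝ)) := by
  have hρ := dedekindZeta_residue_pos K
  set ρ := dedekindZeta_residue K
  have h1 : ∀ᶠ s : ℝ in 𝓝[>] 1, ρ / 2 < (s - 1) * (Z K s).toReal :=
    (tendsto_Z K).eventually (lt_mem_nhds (by linarith))
  have h2 : ∀ᶠ s : ℝ in 𝓝[>] 1, (s - 1) * (Z K s).toReal < 2 * ρ :=
    (tendsto_Z K).eventually (gt_mem_nhds (by linarith))
  set c := ∑' v : HeightOneSpectrum (𝓞 K), x 2 v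
  refine IsBigO.of_bound (c + |Real.log (ρ / 2)| + |Real.log (2 * ρ)|) ?_
  filter_upwards [h1, h2, self_mem_nhdsWithin] with s hs1 hs2 hs
  have hs0 : 0 < s - 1 := sub_pos.mpr hs
  have hc : 0 ≤ c := tsum_nonneg fun v => (x_pos 2 v).le
  have hZtop : Z K s ≠ ∞ := ne_top_of_le_ne_top ENNReal.ofReal_ne_top (Z_le hs)
  have hZpos : 0 < (Z K s).toReal := by
    by_contra hneg
    have : (s - 1) * (Z K s).toReal ≤ 0 := mul_nonpos_of_nonneg_of_nonpos hs0.le (not_lt.mp hneg)
    linarith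
  set X := ∑' v : HeightOneSpectrum (𝓞 K), x s v
  have hup : (Z K s).toReal ≤ Real.exp (X + c) := by
    have := ENNReal.toReal_mono ENNReal.ofReal_ne_top (Z_le (K := K) hs)
    rwa [ENNReal.toReal_ofReal (Real.exp_pos _).le] at this
  have hlo : Real.exp (X - c) ≤ (Z K s).toReal := by
    have := ENNReal.toReal_mono hZtop (le_Z (K := K) hs)
    rwa [ENNReal.toReal_ofReal (Real.exp_pos _).le] at this
  have hup' : Real.log (Z K s).toReal ≤ X + c := by
    rw [← Real.log_exp (X + c)]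
    exact Real.log_le_log hZpos hup
  have hlo' : X - c ≤ Real.log (Z K s).toReal := by
    rw [← Real.log_exp (X - c)]
    exact Real.log_le_log (Real.exp_pos _) hlo
  have hlog : Real.log ((s - 1) * (Z K s).toReal) =
      Real.log (Z K s).toReal - Real.log (1 / (s - 1)) := by
    rw [Real.log_mul hs0.ne' hZpos.ne', one_div, Real.log_inv]
    ring
  have ha : Real.log (ρ / 2) ≤ Real.log ((s - 1) * (Z K s).toReal) :=
    Real.log_le_log (by linarith) hs1.le
  have hb : Real.log ((s - 1) * (Z K s).toReal) ≤ Real.log (2 * ρ) :=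
    Real.log_le_log (by linarith) hs2.le
  rw [norm_one, mul_one, Real.norm_eq_abs, abs_le]
  have ha' := neg_abs_le (Real.log (ρ / 2))
  have hb' := le_abs_self (Real.log (2 * ρ))
  have ha'' := abs_nonneg (Real.log (ρ / 2))
  have hb'' := abs_nonneg (Real.log (2 * ρ))
  constructor <;> linarith

end Pool.Agent.Lib_helper28.FROB


end

section

/-!
# Frobenius: the primes above a prime of degree one of a fixed field
-/

open NumberField IsDedekindDomain Ideal MulAction
open scoped Pointwise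

namespace Pool.Agent.Lib_helper28.FROB

variable {M : Type*} [Field M] [NumberField M] [IsGalois ℚ M]

/-- the decomposition group -/
abbrev Dec (w : HeightOneSpectrum (𝓞 M)) : Subgroup Gal(M/ℚ) := stabilizer Gal(M/ℚ) w.asIdeal

/-- The prime of the fixed field of `H` below `w`. -/
noncomputable abbrev dn (H : Subgroup Gal(M/ℚ)) (w : HeightOneSpectrum (𝓞 M)) :
    HeightOneSpectrum (𝓞 (Fix H)) :=
  w.under (𝓞 (Fix H))

set_option linter.unusedSectionVars false

instance liesOver_dn (H : Subgroup Gal(M/ℚ)) (w : HeightOneSpectrum (𝓞 M)) :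
    w.asIdeal.LiesOver (dn H w).asIdeal := ⟨rfl⟩

theorem pr_dn (H : Subgroup Gal(M/ℚ)) (w : HeightOneSpectrum (𝓞 M)) : pr (dn H w) = pr w := by
  unfold pr
  rw [HeightOneSpectrum.under_asIdeal, Ideal.under_under]

theorem under_ne_bot (w : HeightOneSpectrum (𝓞 M)) : w.asIdeal.under ℤ ≠ ⊥ := by
  rw [under_eq]
  intro h
  rw [Ideal.span_singleton_eq_bot] at h
  exact (pr_prime w).ne_zero (by exact_mod_cast h)

theorem card_dec (w : HeightOneSpectrum (𝓞 M)) (h : w.asIdeal.ramificationIdx ℤ = 1) :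
    Nat.card (Dec w) = w.asIdeal.inertiaDeg ℤ := by
  have : w.asIdeal.IsMaximal := w.isMaximal
  have : (w.asIdeal.under ℤ).IsMaximal := Ideal.IsMaximal.under ℤ w.asIdeal
  exact card_stab Gal(M/ℚ) ℤ (𝓞 M) w.asIdeal (w.asIdeal.under ℤ) (under_ne_bot w) h

theorem ram_dn (H : Subgroup Gal(M/ℚ)) (w : HeightOneSpectrum (𝓞 M))
    (h : w.asIdeal.ramificationIdx ℤ = 1) : w.asIdeal.ramificationIdx (𝓞 (Fix H)) = 1 := by
  rw [Ideal.ramificationIdx_tower (R := ℤ) (dn H w).asIdeal w.asIdeal] at h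
  exact Nat.eq_one_of_mul_eq_one_left h

theorem card_dec_inf (H : Subgroup Gal(M/ℚ)) (w : HeightOneSpectrum (𝓞 M))
    (h : w.asIdeal.ramificationIdx ℤ = 1) :
    Nat.card ((Dec w ⊓ H : Subgroup Gal(M/ℚ))) = w.asIdeal.inertiaDeg (𝓞 (Fix H)) := by
  rw [← card_stab_sub]
  have : (dn H w).asIdeal.IsMaximal := (dn H w).isMaximal
  exact card_stab H (𝓞 (Fix H)) (𝓞 M) w.asIdeal (dn H w).asIdeal (dn H w).ne_bot (ram_dn H w h)

theorem dg_dn (H : Subgroup Gal(M/ℚ)) (w : HeightOneSpectrum (𝓞 M)) :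
    w.asIdeal.inertiaDeg ℤ = dg (dn H w) * w.asIdeal.inertiaDeg (𝓞 (Fix H)) :=
  Ideal.inertiaDeg_tower (R := ℤ) (dn H w).asIdeal w.asIdeal

/-- The prime of the fixed field of `H` below `w` has degree one iff the decomposition group of `w`
is contained in `H`. -/
theorem deg_one_iff (H : Subgroup Gal(M/ℚ)) (w : HeightOneSpectrum (𝓞 M))
    (h : w.asIdeal.ramificationIdx ℤ = 1) : dg (dn H w) = 1 ↔ Dec w ≤ H := by
  have h1 := card_dec w h
  have h2 := card_dec_inf H w h
  have h3 := dg_dn H w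
  constructor
  · intro hd
    rw [hd, one_mul] at h3
    have h4 : Dec w ⊓ H = Dec w := by
      refine Subgroup.eq_of_le_of_card_ge inf_le_left ?_
      rw [h1, h2, h3]
    exact inf_eq_left.mp h4
  · intro hle
    rw [inf_eq_left.mpr hle, h1, h3] at h2
    have h5 : 0 < w.asIdeal.inertiaDeg (𝓞 (Fix H)) := Ideal.inertiaDeg_pos _ _
    exact Nat.eq_of_mul_eq_mul_right h5 (by rw [h2, one_mul])

/-- the primes above `v` -/
noncomputable def fiberEquiv (H : Subgroup Gal(M/ℚ)) (v : HeightOneSpectrum (𝓞 (Fix H))) :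
    {w : HeightOneSpectrum (𝓞 M) // dn H w = v} ≃ v.asIdeal.primesOver (𝓞 M) where
  toFun w := ⟨w.1.asIdeal, w.1.isPrime, ⟨(congrArg HeightOneSpectrum.asIdeal w.2).symm⟩⟩
  invFun P := ⟨⟨P.1, P.2.1, by
    intro h0
    have := P.2.2.over
    rw [h0, Ideal.under_bot] at this
    exact v.ne_bot this⟩, by
      apply HeightOneSpectrum.ext
      exact P.2.2.over.symm⟩
  left_inv w := rfl
  right_inv P := rfl

theorem fiber_sum (H : Subgroup Gal(M/ℚ)) (v : HeightOneSpectrum (𝓞 (Fix H))) (hv : dg v = 1)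
    (hu : ∀ w : HeightOneSpectrum (𝓞 M), dn H w = v → w.asIdeal.ramificationIdx ℤ = 1) :
    ∑' w : {w : HeightOneSpectrum (𝓞 M) // dn H w = v}, (Nat.card (Dec w.1) : ℝ) =
      Nat.card H := by
  have hm : v.asIdeal.IsMaximal := v.isMaximal
  have hperf := perfect_under v.asIdeal v.ne_bot
  have h1 : ∀ w : {w : HeightOneSpectrum (𝓞 M) // dn H w = v}, (Nat.card (Dec w.1) : ℝ) =
      ((v.asIdeal.ramificationIdxIn (𝓞 M) * v.asIdeal.inertiaDegIn (𝓞 M) : ℕ) : ℝ) := by
    rintro ⟨w, rfl⟩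
    have hle := (deg_one_iff H w (hu w rfl)).mp hv
    have h2 : Nat.card (Dec w) = Nat.card (stabilizer H w.asIdeal) := by
      rw [card_stab_sub, inf_eq_left.mpr hle]
    rw [h2]
    exact congrArg Nat.cast (Ideal.card_stabilizer_eq (G := H) (dn H w).asIdeal w.asIdeal)
  rw [tsum_congr h1, tsum_const, nsmul_eq_mul, Nat.card_congr (fiberEquiv H v),
    Nat.card_coe_set_eq, ← Nat.cast_mul,
    ncard_primesOver_mul_ramificationIdxIn_mul_inertiaDegIn v.asIdeal (𝓞 M) H]

end Pool.Agent.Lib_helper28.FROB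


end

section

/-!
# Frobenius: sums over the primes with decomposition group in a given subgroup
-/

open NumberField IsDedekindDomain Ideal MulAction Filter Topology Asymptotics
open scoped Pointwise

namespace Pool.Agent.Lib_helper28.FROB

variable {M : Type*} [Field M] [NumberField M] [IsGalois ℚ M]

set_option linter.unusedSectionVars false

/-- `p` is unramified in `M` -/
def U (M : Type*) [Field M] [NumberField M] (p : ℕ) : Prop :=
  ∀ w : HeightOneSpectrum (𝓞 M), pr w = p → w.asIdeal.ramificationIdx ℤ = 1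

theorem bad_finite : {p : ℕ | ¬ U M p}.Finite := by
  have hd : NumberField.discr M ≠ 0 := NumberField.discr_ne_zero M
  refine (Nat.divisors (NumberField.discr M).natAbs).finite_toSet.subset ?_
  intro p hp
  simp only [Set.mem_ofPred_eq, U, not_forall] at hp
  obtain ⟨w, hw, hr⟩ := hp
  rw [Finset.mem_coe, Nat.mem_divisors]
  refine ⟨?_, by simpa using hd⟩
  by_contra hnd
  have hpp : p.Prime := hw ▸ pr_prime w
  have hnd' : ¬ (p : ℤ) ∣ NumberField.discr M := by
    rwa [Int.natCast_dvd]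
  have h := (NumberField.not_dvd_discr_iff_forall_mem M (𝓞 M) (Nat.prime_iff_prime_int.mp hpp)).mp
    hnd' w.asIdeal w.isPrime ?_
  · exact hr Ideal.ramificationIdx_eq_one_of_isUnramifiedAt
  · have h1 : (p : ℤ) ∈ w.asIdeal.under ℤ := by
      rw [under_eq, hw]
      exact Ideal.mem_span_singleton_self _
    rw [Ideal.mem_comap] at h1
    simpa using h1

open Classical in
/-- the term of `w` for the primes with decomposition group contained in `H` -/
noncomputable def ta (H : Subgroup Gal(M/ℚ)) (s : ℝ) (w : HeightOneSpectrum (𝓞 M)) : ℝ :=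
  if U M (pr w) ∧ Dec w ≤ H then (Nat.card (Dec w) : ℝ) * (pr w : ℝ) ^ (-s) else 0

open Classical in
/-- the term of `v` for the primes of degree one -/
noncomputable def tb (H : Subgroup Gal(M/ℚ)) (s : ℝ) (v : HeightOneSpectrum (𝓞 (Fix H))) : ℝ :=
  if U M (pr v) ∧ dg v = 1 then (pr v : ℝ) ^ (-s) else 0

open Classical in
/-- the term of `w` for the primes with decomposition group `H` -/
noncomputable def tt (H : Subgroup Gal(M/ℚ)) (s : ℝ) (w : HeightOneSpectrum (𝓞 M)) : ℝ :=
  if U M (pr w) ∧ Dec w = H then (Nat.card H : ℝ) * (pr w : ℝ) ^ (-s) else 0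

theorem ta_nonneg (H : Subgroup Gal(M/ℚ)) (s : ℝ) (w : HeightOneSpectrum (𝓞 M)) :
    0 ≤ ta H s w := by
  unfold ta; split_ifs <;> positivity

theorem tt_nonneg (H : Subgroup Gal(M/ℚ)) (s : ℝ) (w : HeightOneSpectrum (𝓞 M)) :
    0 ≤ tt H s w := by
  unfold tt; split_ifs <;> positivity

theorem tb_nonneg (H : Subgroup Gal(M/ℚ)) (s : ℝ) (v : HeightOneSpectrum (𝓞 (Fix H))) :
    0 ≤ tb H s v := by
  unfold tb; split_ifs <;> positivity

theorem summable_ta (H : Subgroup Gal(M/ℚ)) {s : ℝ} (hs : 1 < s) : Summable (ta H s) := by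
  refine Summable.of_nonneg_of_le (ta_nonneg H s) (fun w => ?_)
    ((summable_pr hs).mul_left (Nat.card Gal(M/ℚ) : ℝ))
  unfold ta
  split_ifs
  · gcongr
    exact Subgroup.card_le_card_group _
  · positivity

theorem summable_tt (H : Subgroup Gal(M/ℚ)) {s : ℝ} (hs : 1 < s) : Summable (tt H s) := by
  refine Summable.of_nonneg_of_le (tt_nonneg H s) (fun w => ?_)
    ((summable_pr hs).mul_left (Nat.card Gal(M/ℚ) : ℝ))
  unfold tt
  split_ifs
  · gcongr
    exact Subgroup.card_le_card_group _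
  · positivity

theorem summable_tb (H : Subgroup Gal(M/ℚ)) {s : ℝ} (hs : 1 < s) : Summable (tb H s) := by
  refine Summable.of_nonneg_of_le (tb_nonneg H s) (fun w => ?_) (summable_pr hs)
  unfold tb
  split_ifs
  · exact le_rfl
  · positivity

theorem sum_ta (H : Subgroup Gal(M/ℚ)) {s : ℝ} (hs : 1 < s) :
    ∑' w, ta H s w = Nat.card H * ∑' v, tb H s v := by
  rw [← (HasSum.tsum_fiberwise (summable_ta H hs).hasSum (dn H)).tsum_eq, ← tsum_mul_left]
  refine tsum_congr fun v => ?_
  by_cases hv : U M (pr v) ∧ dg v = 1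
  · have h1 : ∀ w : (dn H ⁻¹' {v} : Set (HeightOneSpectrum (𝓞 M))),
        ta H s w.1 = (Nat.card (Dec w.1) : ℝ) * (pr v : ℝ) ^ (-s) := by
      rintro ⟨w, hw⟩
      have hw' : dn H w = v := hw
      subst hw'
      rw [pr_dn] at hv
      have hr := hv.1 w rfl
      unfold ta
      rw [if_pos ⟨hv.1, (deg_one_iff H w hr).mp hv.2⟩, pr_dn]
    rw [tsum_congr h1, tsum_mul_right]
    have h2 := fiber_sum H v hv.2 (fun w hw => hv.1 w (by rw [← hw, pr_dn]))
    have h3 : ∑' w : (dn H ⁻¹' {v} : Set (HeightOneSpectrum (𝓞 M))), (Nat.card (Dec w.1) : ℝ) =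
        Nat.card H := h2
    rw [h3, tb, if_pos hv]
  · have h1 : ∀ w : (dn H ⁻¹' {v} : Set (HeightOneSpectrum (𝓞 M))), ta H s w.1 = 0 := by
      rintro ⟨w, hw⟩
      have hw' : dn H w = v := hw
      subst hw'
      unfold ta
      rw [if_neg]
      rintro ⟨h2, h3⟩
      exact hv ⟨by rw [pr_dn]; exact h2, (deg_one_iff H w (h2 w rfl)).mpr h3⟩
    rw [tsum_congr h1, tsum_zero, tb, if_neg hv, mul_zero]

theorem badv_finite (H : Subgroup Gal(M/ℚ)) :
    {v : HeightOneSpectrum (𝓞 (Fix H)) | ¬ U M (pr v)}.Finite := by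
  have h1 : ∀ p : ℕ, {v : HeightOneSpectrum (𝓞 (Fix H)) | pr v = p}.Finite := fun p =>
    Set.finite_coe_iff.mp (fiber_finite p)
  refine ((bad_finite (M := M)).biUnion fun p _ => h1 p).subset ?_
  intro v hv
  simp only [Set.mem_iUnion]
  exact ⟨pr v, hv, rfl⟩

theorem sum_tb (H : Subgroup Gal(M/ℚ)) : ∃ C : ℝ, ∀ s : ℝ, 1 < s →
    |∑' v : HeightOneSpectrum (𝓞 (Fix H)), x s v - ∑' v, tb H s v| ≤ C := by
  classical
  have hfin := badv_finite H
  let ind : HeightOneSpectrum (𝓞 (Fix H)) → ℝ := fun v => if ¬ U M (pr v) then 1 else 0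
  have hind : Summable ind := by
    refine summable_of_hasFiniteSupport (hfin.subset ?_)
    intro v hv
    by_contra h
    exact hv (if_neg h)
  have h2 : Summable fun v : HeightOneSpectrum (𝓞 (Fix H)) => ((pr v : ℝ)) ^ (-2 : ℝ) :=
    summable_pr (by norm_num)
  refine ⟨∑' v : HeightOneSpectrum (𝓞 (Fix H)), (((pr v : ℝ)) ^ (-2 : ℝ) + ind v), ?_⟩
  intro s hs
  have hx := summable_x (K := Fix H) hs
  have hb := summable_tb H hs
  rw [← hx.tsum_sub hb]
  have key : ∀ v : HeightOneSpectrum (𝓞 (Fix H)), 0 ≤ x s v - tb H s v ∧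
      x s v - tb H s v ≤ ((pr v : ℝ)) ^ (-2 : ℝ) + ind v := by
    intro v
    have hp1 : (1 : ℝ) ≤ pr v := by exact_mod_cast (pr_prime v).one_le
    have hnn : 0 ≤ ((pr v : ℝ)) ^ (-2 : ℝ) := by positivity
    have hxp := x_pos s v
    have hi : 0 ≤ ind v := by
      show 0 ≤ (if ¬ U M (pr v) then (1 : ℝ) else 0)
      split_ifs <;> norm_num
    by_cases hv : U M (pr v) ∧ dg v = 1
    · have : x s v = tb H s v := by
        rw [tb, if_pos hv]
        unfold x
        rw [norm_eq, hv.2, pow_one]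
      rw [this, sub_self]
      exact ⟨le_rfl, by positivity⟩
    · have htb : tb H s v = 0 := by rw [tb, if_neg hv]
      rw [htb, sub_zero]
      refine ⟨hxp.le, ?_⟩
      by_cases hu : U M (pr v)
      · have hd : dg v ≠ 1 := fun h => hv ⟨hu, h⟩
        have hd2 : 2 ≤ dg v := by have := dg_pos v; omega
        have : x s v ≤ ((pr v : ℝ)) ^ (-2 : ℝ) := by
          unfold x
          rw [norm_eq, Nat.cast_pow, ← Real.rpow_natCast, ← Real.rpow_mul (by positivity)]
          refine Real.rpow_le_rpow_of_exponent_le hp1 ?_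
          have : (2 : ℝ) ≤ dg v := by exact_mod_cast hd2
          nlinarith
        linarith
      · have : ind v = 1 := if_pos hu
        rw [this]
        have := x_le hs.le v
        linarith
  have hsum : Summable fun v => x s v - tb H s v := hx.sub hb
  rw [abs_of_nonneg (tsum_nonneg fun v => (key v).1)]
  exact hsum.tsum_le_tsum (fun v => (key v).2) (h2.add hind)

end Pool.Agent.Lib_helper28.FROB


end

section

/-!
# Frobenius: induction over the subgroups
-/

open NumberField IsDedekindDomain Ideal MulAction Filter Topology Asymptotics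
open scoped Pointwise

namespace Pool.Agent.Lib_helper28.FROB

variable {M : Type*} [Field M] [NumberField M] [IsGalois ℚ M]

set_option linter.unusedSectionVars false

theorem isBigO_tb (H : Subgroup Gal(M/ℚ)) :
    (fun s : ℝ => ∑' v, tb H s v - Real.log (1 / (s - 1))) =O[𝓝[>] 1] (fun _ => (1 : ℝ)) := by
  obtain ⟨C, hC⟩ := sum_tb H
  have h1 : (fun s : ℝ => ∑' v : HeightOneSpectrum (𝓞 (Fix H)), x s v - ∑' v, tb H s v)
      =O[𝓝[>] 1] (fun _ => (1 : ℝ)) := by
    refine IsBigO.of_bound C ?_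
    filter_upwards [self_mem_nhdsWithin] with s hs
    rw [norm_one, mul_one, Real.norm_eq_abs]
    exact hC s hs
  refine ((isBigO_sum (K := Fix H)).sub h1).congr_left fun s => ?_
  ring

theorem isBigO_ta (H : Subgroup Gal(M/ℚ)) :
    (fun s : ℝ => ∑' w, ta H s w - Nat.card H * Real.log (1 / (s - 1)))
      =O[𝓝[>] 1] (fun _ => (1 : ℝ)) := by
  refine ((isBigO_tb H).const_mul_left (Nat.card H : ℝ)).congr' ?_ EventuallyEq.rfl
  filter_upwards [self_mem_nhdsWithin] with s hs
  rw [sum_ta H hs, mul_sub]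

/-- the number of generators of `H` -/
noncomputable def gen {G : Type*} [Group G] (H : Subgroup G) : ℕ :=
  Nat.card {h : G // Subgroup.zpowers h = H}

open Classical in
theorem sum_gen {G : Type*} [Group G] [Fintype (Subgroup G)] [Finite G] (H : Subgroup G) :
    ∑ H' : Subgroup G with H' ≤ H, gen H' = Nat.card H := by
  have := Fintype.ofFinite G
  have h1 : Nat.card H = (Finset.univ.filter fun h : G => h ∈ H).card := by
    rw [← Fintype.card_subtype, Nat.card_eq_fintype_card]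
  rw [h1, Finset.card_eq_sum_card_fiberwise (f := fun h : G => Subgroup.zpowers h)
    (t := Finset.univ.filter fun H' : Subgroup G => H' ≤ H)]
  · refine Finset.sum_congr rfl fun H' hH' => ?_
    have hle : H' ≤ H := (Finset.mem_filter.mp hH').2
    unfold gen
    rw [Nat.card_eq_fintype_card, Fintype.card_subtype]
    congr 1
    ext h
    simp only [Finset.mem_filter, Finset.mem_univ, true_and]
    constructor
    · intro e
      exact ⟨hle (e ▸ Subgroup.mem_zpowers h), e⟩
    · exact fun e => e.2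
  · intro h hh
    simp only [Finset.coe_filter, Finset.mem_univ, true_and, Set.mem_ofPred_eq] at hh ⊢
    exact Subgroup.zpowers_le.mpr hh

open Classical in
theorem sum_tt [Fintype (Subgroup Gal(M/ℚ))] (H : Subgroup Gal(M/ℚ)) (s : ℝ)
    (w : HeightOneSpectrum (𝓞 M)) :
    ∑ H' : Subgroup Gal(M/ℚ) with H' ≤ H, tt H' s w = ta H s w := by
  by_cases h : U M (pr w) ∧ Dec w ≤ H
  · rw [Finset.sum_eq_single (Dec w)]
    · rw [tt, if_pos ⟨h.1, rfl⟩, ta, if_pos h]
    · intro H' _ hne
      rw [tt, if_neg]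
      exact fun h' => hne h'.2.symm
    · intro hn
      refine absurd ?_ hn
      rw [Finset.mem_filter]
      exact ⟨Finset.mem_univ _, h.2⟩
  · rw [ta, if_neg h]
    refine Finset.sum_eq_zero fun H' hH' => ?_
    rw [tt, if_neg]
    rintro ⟨h1, h2⟩
    exact h ⟨h1, h2 ▸ (Finset.mem_filter.mp hH').2⟩

open Classical in
theorem sum_sum_tt [Fintype (Subgroup Gal(M/ℚ))] (H : Subgroup Gal(M/ℚ)) {s : ℝ} (hs : 1 < s) :
    ∑ H' : Subgroup Gal(M/ℚ) with H' ≤ H, ∑' w, tt H' s w = ∑' w, ta H s w := by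
  rw [← Summable.tsum_finsetSum fun H' _ => summable_tt H' hs]
  exact tsum_congr fun w => sum_tt H s w

theorem isBigO_tt (H : Subgroup Gal(M/ℚ)) :
    (fun s : ℝ => ∑' w, tt H s w - gen H * Real.log (1 / (s - 1)))
      =O[𝓝[>] 1] (fun _ => (1 : ℝ)) := by
  classical
  have := Fintype.ofFinite (Subgroup Gal(M/ℚ))
  induction H using WellFoundedLT.induction with
  | ind H ih =>
  have hsplit : (Finset.univ.filter fun H' : Subgroup Gal(M/ℚ) => H' ≤ H) =
      insert H (Finset.univ.filter fun H' : Subgroup Gal(M/ℚ) => H' < H) := by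
    ext H'
    simp only [Finset.mem_filter, Finset.mem_univ, true_and, Finset.mem_insert]
    exact le_iff_eq_or_lt
  have hnot : H ∉ (Finset.univ.filter fun H' : Subgroup Gal(M/ℚ) => H' < H) := by simp
  have h1 : (fun s : ℝ => ∑ H' : Subgroup Gal(M/ℚ) with H' < H,
      (∑' w, tt H' s w - gen H' * Real.log (1 / (s - 1)))) =O[𝓝[>] 1] (fun _ => (1 : ℝ)) := by
    refine IsBigO.fun_sum fun H' hH' => ih H' (Finset.mem_filter.mp hH').2
  refine ((isBigO_ta H).sub h1).congr' ?_ EventuallyEq.rfl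
  filter_upwards [self_mem_nhdsWithin] with s hs
  have h2 := sum_sum_tt H hs
  have h3 := sum_gen H
  rw [hsplit, Finset.sum_insert hnot] at h2 h3
  have h4 : (Nat.card H : ℝ) = gen H +
      ∑ H' : Subgroup Gal(M/ℚ) with H' < H, (gen H' : ℝ) := by
    rw [← h3]; push_cast; rfl
  rw [← h2, h4, Finset.sum_sub_distrib, ← Finset.sum_mul]
  ring

end Pool.Agent.Lib_helper28.FROB


end

section

/-!
# Frobenius: the sum of the orders of the decomposition groups above a rational prime
-/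

open NumberField IsDedekindDomain Ideal MulAction
open scoped Pointwise ENNReal

namespace Pool.Agent.Lib_helper28.FROB

variable {M : Type*} [Field M] [NumberField M] [IsGalois ℚ M]

/-- the primes above `p` -/
noncomputable def overEquiv (p : ℕ) :
    {w : HeightOneSpectrum (𝓞 M) // pr w = p} ≃
      {P : (span {(p : ℤ)}).primesOver (𝓞 M) // p.Prime} where
  toFun w := ⟨toOver p w, w.2 ▸ pr_prime w.1⟩
  invFun P := ⟨⟨P.1.1, P.1.2.1, by
    intro h0
    have h1 := P.1.2.2.over
    rw [h0, Ideal.under_bot, Ideal.span_singleton_eq_bot] at h1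
    exact P.2.ne_zero (by exact_mod_cast h1)⟩, by
      have h1 := P.1.2.2.over
      show absNorm (P.1.1.under ℤ) = p
      rw [← h1]
      simp⟩
  left_inv w := rfl
  right_inv P := rfl

theorem sum_dec (p : ℕ) (hp : p.Prime) :
    ∑' w : {w : HeightOneSpectrum (𝓞 M) // pr w = p}, (Nat.card (Dec w.1) : ℝ≥0∞) =
      Nat.card Gal(M/ℚ) := by
  have hF := Fact.mk hp
  have hpi : Prime (p : ℤ) := Nat.prime_iff_prime_int.mp hp
  have hbot : (span {(p : ℤ)} : Ideal ℤ) ≠ ⊥ := by
    rw [Ne, Ideal.span_singleton_eq_bot]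
    exact_mod_cast hp.ne_zero
  have hprime : (span {(p : ℤ)} : Ideal ℤ).IsPrime := (Ideal.span_singleton_prime
    (by exact_mod_cast hp.ne_zero)).mpr hpi
  have hmax : (span {(p : ℤ)} : Ideal ℤ).IsMaximal :=
    Ring.DimensionLEOne.maximalOfPrime hbot hprime
  have hperf := perfect_under (span {(p : ℤ)} : Ideal ℤ) hbot
  have h1 : ∀ w : {w : HeightOneSpectrum (𝓞 M) // pr w = p}, (Nat.card (Dec w.1) : ℝ≥0∞) =
      (((span {(p : ℤ)} : Ideal ℤ).ramificationIdxIn (𝓞 M) *
        (span {(p : ℤ)} : Ideal ℤ).inertiaDegIn (𝓞 M) : ℕ) : ℝ≥0∞) := by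
    intro w
    have : w.1.asIdeal.LiesOver (span {(p : ℤ)}) := (toOver p w).2.2
    exact congrArg Nat.cast
      (Ideal.card_stabilizer_eq (G := Gal(M/ℚ)) (span {(p : ℤ)}) w.1.asIdeal)
  have hfin := fiber_finite (K := M) p
  have := Fintype.ofFinite {w : HeightOneSpectrum (𝓞 M) // pr w = p}
  have e : Nat.card {w : HeightOneSpectrum (𝓞 M) // pr w = p} =
      ((span {(p : ℤ)}).primesOver (𝓞 M)).ncard := by
    rw [Nat.card_congr (overEquiv p), ← Nat.card_coe_set_eq]
    exact Nat.card_congr ⟨fun P => P.1, fun P => ⟨P, hp⟩, fun P => rfl, fun P => rfl⟩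
  rw [tsum_congr h1, tsum_fintype, Finset.sum_const, Finset.card_univ, nsmul_eq_mul,
    ← Nat.card_eq_fintype_card, e, ← Nat.cast_mul,
    ncard_primesOver_mul_ramificationIdxIn_mul_inertiaDegIn (span {(p : ℤ)}) (𝓞 M) Gal(M/ℚ)]

/-- Sums over the prime ideals of functions of the rational prime below, weighted by the order of
the decomposition group. -/
theorem tsum_dec (f : ℕ → ℝ≥0∞) :
    ∑' w : HeightOneSpectrum (𝓞 M), (Nat.card (Dec w) : ℝ≥0∞) * f (pr w) =
      Nat.card Gal(M/ℚ) * ∑' p : Nat.Primes, f p := by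
  let g : HeightOneSpectrum (𝓞 M) → Nat.Primes := fun v => ⟨pr v, pr_prime v⟩
  rw [← ENNReal.tsum_fiberwise
    (fun w : HeightOneSpectrum (𝓞 M) => (Nat.card (Dec w) : ℝ≥0∞) * f (pr w)) g,
    ← ENNReal.tsum_mul_left]
  refine tsum_congr fun p => ?_
  have h1 : ∀ v : ↑(g ⁻¹' {p}), (Nat.card (Dec v.1) : ℝ≥0∞) * f (pr v.1) =
      (Nat.card (Dec v.1) : ℝ≥0∞) * f p := by
    intro v
    have : g v.1 = p := v.2
    exact congrArg (fun q : Nat.Primes => (Nat.card (Dec v.1) : ℝ≥0∞) * f (q : ℕ)) this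
  let e : ↑(g ⁻¹' {p}) ≃ {v : HeightOneSpectrum (𝓞 M) // pr v = (p : ℕ)} :=
    Equiv.subtypeEquivRight fun v => Subtype.ext_iff
  rw [tsum_congr h1, ENNReal.tsum_mul_right]
  congr 1
  rw [← sum_dec (p : ℕ) p.2]
  exact e.tsum_eq (fun w : {v : HeightOneSpectrum (𝓞 M) // pr v = (p : ℕ)} =>
    (Nat.card (Dec w.1) : ℝ≥0∞))

end Pool.Agent.Lib_helper28.FROB


end

section

/-!
# Relative Iwasawa theorem, module FROBD

The theorem of Frobenius (1896), lower bound with the exact constant: the primes `q` such that some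
prime of `L` above `q` has decomposition group generated by an element of `T` have lower Dirichlet
density at least `#T / #G`.
-/

open NumberField IsDedekindDomain Ideal MulAction Filter Topology Asymptotics
open scoped Pointwise ENNReal

namespace Pool.Agent.RI

namespace FROBD

open Pool.Agent.Lib_helper28.FROB

open Classical in
/-- The sum over the primes with decomposition group in a set of subgroups is bounded by the sum
over the rational primes below. -/
theorem sum_tt_le (L : Type) [Field L] [NumberField L] [IsGalois ℚ L]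
    (I : Finset (Subgroup (L ≃ₐ[ℚ] L)))
    (S : Set ℕ) (hS : ∀ w : HeightOneSpectrum (𝓞 L), Dec w ∈ I → pr w ∈ S) {s : ℝ} (hs : 1 < s) :
    ∑ H ∈ I, ∑' w, tt H s w ≤ (Nat.card (L ≃ₐ[ℚ] L) : ℝ) *
      ∑' q : {q : ℕ // q.Prime ∧ q ∈ S}, (q : ℝ) ^ (-s) := by
  let g : ℕ → ℝ≥0∞ := fun n => ENNReal.ofReal ((n : ℝ) ^ (-s))
  let f : ℕ → ℝ≥0∞ := fun n => if n ∈ S then g n else 0
  have hsum : Summable fun q : {q : ℕ // q.Prime ∧ q ∈ S} => (q : ℝ) ^ (-s) :=
    (Real.summable_nat_rpow.mpr (by linarith : -s < -1)).subtype _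
  rw [← Summable.tsum_finsetSum fun H _ => summable_tt H hs]
  have hterm : ∀ w : HeightOneSpectrum (𝓞 L),
      ENNReal.ofReal (∑ H ∈ I, tt H s w) ≤ (Nat.card (Dec w) : ℝ≥0∞) * f (pr w) := by
    intro w
    by_cases hw : Dec w ∈ I
    · have h1 : ∑ H ∈ I, tt H s w = tt (Dec w) s w := by
        refine Finset.sum_eq_single (Dec w) ?_ (fun h => absurd hw h)
        intro H' _ hne
        rw [tt, if_neg]
        exact fun h' => hne h'.2.symm
      have h2 : f (pr w) = g (pr w) := if_pos (hS w hw)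
      rw [h1, h2]
      have h3 : (Nat.card (Dec w) : ℝ≥0∞) * g (pr w) =
          ENNReal.ofReal ((Nat.card (Dec w) : ℝ) * (pr w : ℝ) ^ (-s)) := by
        rw [ENNReal.ofReal_mul (by positivity), ENNReal.ofReal_natCast]
      rw [h3]
      refine ENNReal.ofReal_le_ofReal ?_
      unfold tt
      split_ifs
      · exact le_rfl
      · positivity
    · have h1 : ∑ H ∈ I, tt H s w = 0 := by
        refine Finset.sum_eq_zero fun H' hH' => ?_
        rw [tt, if_neg]
        exact fun h' => hw (h'.2 ▸ hH')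
      rw [h1, ENNReal.ofReal_zero]
      exact bot_le
  have hsm : Summable fun w : HeightOneSpectrum (𝓞 L) => ∑ H ∈ I, tt H s w :=
    summable_sum fun H _ => summable_tt H hs
  have hnn : ∀ w : HeightOneSpectrum (𝓞 L), 0 ≤ ∑ H ∈ I, tt H s w :=
    fun w => Finset.sum_nonneg fun H _ => tt_nonneg H s w
  have h1 : ENNReal.ofReal (∑' w, ∑ H ∈ I, tt H s w) ≤
      ∑' w : HeightOneSpectrum (𝓞 L), (Nat.card (Dec w) : ℝ≥0∞) * f (pr w) :=
    (ENNReal.ofReal_tsum_of_nonneg hnn hsm).le.trans (ENNReal.tsum_le_tsum hterm)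
  have h2 : ∑' p : Nat.Primes, f p = ∑' q : {q : ℕ // q.Prime ∧ q ∈ S}, g q := by
    have e1 : ∑' p : Nat.Primes, f p = ∑' n : ℕ, Set.indicator {n | n.Prime} f n :=
      tsum_subtype {n : ℕ | n.Prime} f
    have e2 : ∑' q : {q : ℕ // q.Prime ∧ q ∈ S}, g q =
        ∑' n : ℕ, Set.indicator {n | n.Prime ∧ n ∈ S} g n :=
      tsum_subtype {n : ℕ | n.Prime ∧ n ∈ S} g
    rw [e1, e2]
    refine tsum_congr fun n => ?_
    simp only [Set.indicator, Set.mem_ofPred_eq]
    by_cases h1 : n.Prime <;> by_cases h2 : n ∈ S <;> simp [h1, h2, f]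
  have h3 : ENNReal.ofReal (∑' w, ∑ H ∈ I, tt H s w) ≤
      ENNReal.ofReal ((Nat.card (L ≃ₐ[ℚ] L) : ℝ) *
        ∑' q : {q : ℕ // q.Prime ∧ q ∈ S}, (q : ℝ) ^ (-s)) := by
    refine h1.trans ?_
    rw [tsum_dec, h2, ENNReal.ofReal_mul (by positivity), ENNReal.ofReal_natCast,
      ENNReal.ofReal_tsum_of_nonneg (fun q => by positivity) hsum]
  exact (ENNReal.ofReal_le_ofReal_iff (mul_nonneg (by positivity)
    (tsum_nonneg fun q => by positivity))).mp h3

open Classical in
/-- The number of elements of `T` is at most the number of generators of the cyclic groups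
generated by the elements of `T`. -/
theorem card_le_gen {G : Type} [Group G] [Finite G] (T : Set G) (t : Finset (Subgroup G))
    (ht : ∀ g ∈ T, Subgroup.zpowers g ∈ t) : Nat.card T ≤ ∑ H ∈ t, gen H := by
  have := Fintype.ofFinite G
  have h1 : Nat.card T = (Finset.univ.filter fun h : G => h ∈ T).card := by
    rw [← Fintype.card_subtype, Nat.card_eq_fintype_card]
  rw [h1, Finset.card_eq_sum_card_fiberwise (f := fun h : G => Subgroup.zpowers h) (t := t)]
  · refine Finset.sum_le_sum fun H' _ => ?_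
    unfold gen
    rw [Nat.card_eq_fintype_card, Fintype.card_subtype]
    refine Finset.card_le_card fun h hh => ?_
    simp only [Finset.mem_filter, Finset.mem_univ, true_and] at hh ⊢
    exact hh.2
  · intro h hh
    simp only [Finset.coe_filter, Finset.mem_univ, true_and, Set.mem_ofPred_eq] at hh ⊢
    exact ht h hh

/-- The lower bound for an arbitrary set `T`. -/
theorem main (L : Type) [Field L] [NumberField L] [IsGalois ℚ L] (T : Set (L ≃ₐ[ℚ] L)) :
    DensityGE {q : ℕ | ∃ g ∈ T, ∃ P : Ideal (𝓞 L), P.IsPrime ∧ (q : 𝓞 L) ∈ P ∧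
      MulAction.stabilizer (L ≃ₐ[ℚ] L) P = Subgroup.zpowers g}
      ((Nat.card T : ℝ) / Nat.card (L ≃ₐ[ℚ] L)) := by
  classical
  have := Fintype.ofFinite (Subgroup (L ≃ₐ[ℚ] L))
  set I : Finset (Subgroup (L ≃ₐ[ℚ] L)) :=
    Finset.univ.filter fun H => ∃ g ∈ T, Subgroup.zpowers g = H with hI
  set S := {q : ℕ | ∃ g ∈ T, ∃ P : Ideal (𝓞 L), P.IsPrime ∧ (q : 𝓞 L) ∈ P ∧
      MulAction.stabilizer (L ≃ₐ[ℚ] L) P = Subgroup.zpowers g} with hSdef
  have hS : ∀ w : HeightOneSpectrum (𝓞 L), Dec w ∈ I → pr w ∈ S := by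
    intro w hw
    obtain ⟨g, hg, hgw⟩ := (Finset.mem_filter.mp hw).2
    refine ⟨g, hg, w.asIdeal, w.isPrime, ?_, hgw.symm⟩
    have h1 : (pr w : ℤ) ∈ w.asIdeal.under ℤ := by
      rw [under_eq]
      exact Ideal.mem_span_singleton_self _
    rw [Ideal.mem_comap] at h1
    simpa using h1
  have hT : (Nat.card T : ℝ) ≤ ∑ H ∈ I, (gen H : ℝ) := by
    have h := card_le_gen T I fun g hg => Finset.mem_filter.mpr ⟨Finset.mem_univ _, g, hg, rfl⟩
    exact_mod_cast h
  have hO : (fun s : ℝ => ∑ H ∈ I, (∑' w, tt H s w - gen H * Real.log (1 / (s - 1))))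
      =O[𝓝[>] 1] (fun _ => (1 : ℝ)) :=
    IsBigO.fun_sum fun H _ => isBigO_tt H
  obtain ⟨c, hc⟩ := hO.bound
  have hlt : ∀ᶠ s : ℝ in 𝓝[>] 1, s < 2 := by
    have : Set.Ioo (1 : ℝ) 2 ∈ 𝓝[>] (1 : ℝ) := Ioo_mem_nhdsGT (by norm_num)
    filter_upwards [this] with s hs
    exact hs.2
  have hev : ∀ᶠ s : ℝ in 𝓝[>] 1, (Nat.card T : ℝ) * Real.log (1 / (s - 1)) - |c| ≤
      ∑ H ∈ I, ∑' w, tt H s w := by
    filter_upwards [hc, hlt, self_mem_nhdsWithin] with s hs hs2 hs1
    rw [norm_one, mul_one, Real.norm_eq_abs, Finset.sum_sub_distrib, ← Finset.sum_mul] at hs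
    have h1 := (abs_le.mp hs).1
    have h2 := le_abs_self c
    have hs1' : (1 : ℝ) < s := hs1
    have hlog : 0 ≤ Real.log (1 / (s - 1)) := by
      apply Real.log_nonneg
      rw [le_div_iff₀ (by linarith)]
      linarith
    have h3 := mul_le_mul_of_nonneg_right hT hlog
    linarith
  obtain ⟨b, hb1, hb⟩ := mem_nhdsGT_iff_exists_Ioo_subset.mp hev
  have hb1' : (1 : ℝ) < b := hb1
  set A : ℝ := ((Nat.card (L ≃ₐ[ℚ] L) : ℕ) : ℝ) with hA
  have hApos : 0 < A := by
    rw [hA]
    exact_mod_cast Nat.card_pos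
  have hδ : 0 ≤ (Nat.card T : ℝ) / A := by positivity
  refine ⟨|c| / A + Nat.card T / A * |Real.log (1 / (b - 1))|, fun s hs1 hs2 => ?_⟩
  have hnn : 0 ≤ ∑' q : {q : ℕ // q.Prime ∧ q ∈ S}, (q : ℝ) ^ (-s) :=
    tsum_nonneg fun q => by positivity
  have hcA : 0 ≤ |c| / A := by positivity
  have habs : 0 ≤ Nat.card T / A * |Real.log (1 / (b - 1))| := by positivity
  rcases lt_or_ge s b with hsb | hsb
  · have h1 : (Nat.card T : ℝ) * Real.log (1 / (s - 1)) - |c| ≤ ∑ H ∈ I, ∑' w, tt H s w :=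
      hb ⟨hs1, hsb⟩
    have h2 := sum_tt_le L I S hS hs1
    have h3 : ((Nat.card T : ℝ) * Real.log (1 / (s - 1)) - |c|) / A ≤
        ∑' q : {q : ℕ // q.Prime ∧ q ∈ S}, (q : ℝ) ^ (-s) := by
      rw [div_le_iff₀' hApos]
      exact h1.trans h2
    rw [sub_div, mul_div_right_comm] at h3
    linarith
  · have h1 : Real.log (1 / (s - 1)) ≤ Real.log (1 / (b - 1)) := by
      refine Real.log_le_log (by have := sub_pos.mpr hs1; positivity) ?_
      exact one_div_le_one_div_of_le (by linarith) (by linarith)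
    have h2 := le_abs_self (Real.log (1 / (b - 1)))
    have h3 : (Nat.card T : ℝ) / A * Real.log (1 / (s - 1)) ≤
        Nat.card T / A * |Real.log (1 / (b - 1))| :=
      mul_le_mul_of_nonneg_left (h1.trans h2) hδ
    linarith

end FROBD

/-- Module FROBD. -/
theorem FROBD_thm : FROBD := fun L _ _ _ T _ => FROBD.main L T

end Pool.Agent.RI


end

section

/-!
# Relative Iwasawa theorem: module PD (positive density is insensitive to finitely many primes)
-/

open Finset

namespace Pool.Agent.RI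

namespace PD

lemma term_nonneg (s : ℝ) (n : ℕ) : 0 ≤ (n : ℝ) ^ (-s) := Real.rpow_nonneg (Nat.cast_nonneg n) _

lemma term_le_one {s : ℝ} (hs : 1 < s) (n : ℕ) : (n : ℝ) ^ (-s) ≤ 1 := by
  rcases Nat.eq_zero_or_pos n with h | h
  · subst h
    rw [Nat.cast_zero, Real.zero_rpow (by linarith)]
    exact zero_le_one
  · exact Real.rpow_le_one_of_one_le_of_nonpos (by exact_mod_cast h) (by linarith)

lemma summ {s : ℝ} (hs : 1 < s) : Summable (fun n : ℕ => (n : ℝ) ^ (-s)) :=
  Real.summable_nat_rpow.mpr (by linarith)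

lemma sub_eq (s : ℝ) (S : Set ℕ) :
    ∑' q : {q : ℕ // q.Prime ∧ q ∈ S}, (q : ℝ) ^ (-s) =
      ∑' n : ℕ, Set.indicator {q : ℕ | q.Prime ∧ q ∈ S} (fun n : ℕ => (n : ℝ) ^ (-s)) n :=
  tsum_subtype {q : ℕ | q.Prime ∧ q ∈ S} (fun n : ℕ => (n : ℝ) ^ (-s))

lemma fin_le {s : ℝ} (hs : 1 < s) (A : Finset ℕ) :
    ∑' n : ℕ, Set.indicator (A : Set ℕ) (fun n : ℕ => (n : ℝ) ^ (-s)) n ≤ A.card := by
  rw [← tsum_subtype (A : Set ℕ) (fun n : ℕ => (n : ℝ) ^ (-s))]
  have h1 : ∑' x : (A : Set ℕ), (((x : ℕ) : ℝ)) ^ (-s) = ∑ x ∈ A, ((x : ℕ) : ℝ) ^ (-s) :=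
    Finset.tsum_subtype A (fun n : ℕ => (n : ℝ) ^ (-s))
  rw [h1]
  calc ∑ x ∈ A, ((x : ℕ) : ℝ) ^ (-s) ≤ ∑ _x ∈ A, (1 : ℝ) :=
        Finset.sum_le_sum (fun x _ => term_le_one hs x)
    _ = A.card := by simp

end PD

open _root_.Pool.Agent.RI.PD in
theorem PD_thm : PD := by
  rintro S T A ⟨δ, hδ, C, h⟩ hST
  refine ⟨δ, hδ, C + A.card, fun s hs hs2 => ?_⟩
  have h1 := h s hs hs2
  rw [sub_eq] at h1 ⊢
  have hsum := summ hs
  have hS := hsum.indicator {q : ℕ | q.Prime ∧ q ∈ S}
  have hT := hsum.indicator {q : ℕ | q.Prime ∧ q ∈ T}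
  have hA := hsum.indicator (A : Set ℕ)
  have h2 : ∑' n : ℕ, Set.indicator {q : ℕ | q.Prime ∧ q ∈ S} (fun n : ℕ => (n : ℝ) ^ (-s)) n ≤
      ∑' n : ℕ, (Set.indicator {q : ℕ | q.Prime ∧ q ∈ T} (fun n : ℕ => (n : ℝ) ^ (-s)) n +
        Set.indicator (A : Set ℕ) (fun n : ℕ => (n : ℝ) ^ (-s)) n) := by
    refine hS.tsum_le_tsum (fun n => ?_) (hT.add hA)
    have hT0 : 0 ≤ Set.indicator {q : ℕ | q.Prime ∧ q ∈ T} (fun n : ℕ => (n : ℝ) ^ (-s)) n :=
      Set.indicator_nonneg (fun x _ => term_nonneg s x) n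
    have hA0 : 0 ≤ Set.indicator (A : Set ℕ) (fun n : ℕ => (n : ℝ) ^ (-s)) n :=
      Set.indicator_nonneg (fun x _ => term_nonneg s x) n
    by_cases hn : n ∈ {q : ℕ | q.Prime ∧ q ∈ S}
    · rw [Set.indicator_of_mem hn]
      by_cases hnA : n ∈ (A : Set ℕ)
      · rw [Set.indicator_of_mem hnA]
        linarith
      · have hnT : n ∈ {q : ℕ | q.Prime ∧ q ∈ T} := ⟨hn.1, hST n hn.2 hn.1 (by simpa using hnA)⟩
        rw [Set.indicator_of_mem hnT]
        linarith
    · rw [Set.indicator_of_notMem hn]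
      linarith
  rw [hT.tsum_add hA] at h2
  have h3 := fin_le hs A
  linarith

end Pool.Agent.RI


end

section

/-!
# Relative Iwasawa theorem: module PDGE (the density bound with its constant is monotone and
insensitive to finitely many primes)
-/

open Finset

namespace Pool.Agent.RI

open PD in
theorem PDGE_thm : PDGE := by
  rintro S T A δ ⟨C, h⟩ hST
  refine ⟨C + A.card, fun s hs hs2 => ?_⟩
  have h1 := h s hs hs2
  rw [sub_eq] at h1 ⊢
  have hsum := summ hs
  have hS := hsum.indicator {q : ℕ | q.Prime ∧ q ∈ S}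
  have hT := hsum.indicator {q : ℕ | q.Prime ∧ q ∈ T}
  have hA := hsum.indicator (A : Set ℕ)
  have h2 : ∑' n : ℕ, Set.indicator {q : ℕ | q.Prime ∧ q ∈ S} (fun n : ℕ => (n : ℝ) ^ (-s)) n ≤
      ∑' n : ℕ, (Set.indicator {q : ℕ | q.Prime ∧ q ∈ T} (fun n : ℕ => (n : ℝ) ^ (-s)) n +
        Set.indicator (A : Set ℕ) (fun n : ℕ => (n : ℝ) ^ (-s)) n) := by
    refine hS.tsum_le_tsum (fun n => ?_) (hT.add hA)
    have hT0 : 0 ≤ Set.indicator {q : ℕ | q.Prime ∧ q ∈ T} (fun n : ℕ => (n : ℝ) ^ (-s)) n :=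
      Set.indicator_nonneg (fun x _ => term_nonneg s x) n
    have hA0 : 0 ≤ Set.indicator (A : Set ℕ) (fun n : ℕ => (n : ℝ) ^ (-s)) n :=
      Set.indicator_nonneg (fun x _ => term_nonneg s x) n
    by_cases hn : n ∈ {q : ℕ | q.Prime ∧ q ∈ S}
    · rw [Set.indicator_of_mem hn]
      by_cases hnA : n ∈ (A : Set ℕ)
      · rw [Set.indicator_of_mem hnA]
        linarith
      · have hnT : n ∈ {q : ℕ | q.Prime ∧ q ∈ T} := ⟨hn.1, hST n hn.2 hn.1 (by simpa using hnA)⟩
        rw [Set.indicator_of_mem hnT]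
        linarith
    · rw [Set.indicator_of_notMem hn]
      linarith
  rw [hT.tsum_add hA] at h2
  have h3 := fin_le hs A
  linarith

end Pool.Agent.RI


end
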