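import Mathlib

/-! Parts: Lib_helper18.Eis, Lib_helper18.Sym, Lib_helper18.Chars, Lib_helper18.GaussG, Lib_helper18.Recip, Lib_helper18.Suppl, Lib_helper18.CaseI, Lib_helper18.CaseIb, Lib_helper18.Descent, Lib_helper18.Z9, Lib_helper18.Z9Jac -/

section

/-!
# The Eisenstein integers as a concrete Euclidean domain
-/

namespace Pool.Agent.Lib_helper18

/-- Eisenstein integers `re + im * w`, `w^2 = -1 - w`. -/
@[ext] structure Eis where
  re : ℤ
  im : ℤ
deriving DecidableEq

namespace Eis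

instance : Zero Eis := ⟨⟨0, 0⟩⟩
instance : One Eis := ⟨⟨1, 0⟩⟩
instance : Add Eis := ⟨fun x y => ⟨x.re + y.re, x.im + y.im⟩⟩
instance : Neg Eis := ⟨fun x => ⟨-x.re, -x.im⟩⟩
instance : Sub Eis := ⟨fun x y => ⟨x.re - y.re, x.im - y.im⟩⟩
instance : Mul Eis := ⟨fun x y => ⟨x.re * y.re - x.im * y.im,
  x.re * y.im + x.im * y.re - x.im * y.im⟩⟩
instance : NatCast Eis := ⟨fun n => ⟨n, 0⟩⟩
instance : IntCast Eis := ⟨fun n => ⟨n, 0⟩⟩

@[simp] theorem zero_re : (0 : Eis).re = 0 := rfl
@[simp] theorem zero_im : (0 : Eis).im = 0 := rfl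
@[simp] theorem one_re : (1 : Eis).re = 1 := rfl
@[simp] theorem one_im : (1 : Eis).im = 0 := rfl
@[simp] theorem add_re (x y : Eis) : (x + y).re = x.re + y.re := rfl
@[simp] theorem add_im (x y : Eis) : (x + y).im = x.im + y.im := rfl
@[simp] theorem neg_re (x : Eis) : (-x).re = -x.re := rfl
@[simp] theorem neg_im (x : Eis) : (-x).im = -x.im := rfl
@[simp] theorem sub_re (x y : Eis) : (x - y).re = x.re - y.re := rfl
@[simp] theorem sub_im (x y : Eis) : (x - y).im = x.im - y.im := rfl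
@[simp] theorem mul_re (x y : Eis) : (x * y).re = x.re * y.re - x.im * y.im := rfl
@[simp] theorem mul_im (x y : Eis) :
    (x * y).im = x.re * y.im + x.im * y.re - x.im * y.im := rfl
@[simp] theorem natCast_re (n : ℕ) : (n : Eis).re = n := rfl
@[simp] theorem natCast_im (n : ℕ) : (n : Eis).im = 0 := rfl
@[simp] theorem intCast_re (n : ℤ) : (n : Eis).re = n := rfl
@[simp] theorem intCast_im (n : ℤ) : (n : Eis).im = 0 := rfl

instance : CommRing Eis where
  add_assoc x y z := by ext <;> simp [add_assoc]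
  zero_add x := by ext <;> simp
  add_zero x := by ext <;> simp
  add_comm x y := by ext <;> simp [add_comm]
  neg_add_cancel x := by ext <;> simp
  sub_eq_add_neg x y := by ext <;> simp [sub_eq_add_neg]
  left_distrib x y z := by ext <;> simp <;> ring
  right_distrib x y z := by ext <;> simp <;> ring
  zero_mul x := by ext <;> simp
  mul_zero x := by ext <;> simp
  mul_assoc x y z := by ext <;> simp <;> ring
  one_mul x := by ext <;> simp
  mul_one x := by ext <;> simp
  mul_comm x y := by ext <;> simp <;> ring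
  nsmul := nsmulRec
  zsmul := zsmulRec
  natCast_zero := by ext <;> simp
  natCast_succ n := by ext <;> simp
  intCast_ofNat n := by ext <;> simp
  intCast_negSucc n := by ext <;> simp [Int.negSucc_eq]

@[simp] theorem ofNat_re (n : ℕ) [n.AtLeastTwo] : (OfNat.ofNat n : Eis).re = OfNat.ofNat n := rfl
@[simp] theorem ofNat_im (n : ℕ) [n.AtLeastTwo] : (OfNat.ofNat n : Eis).im = 0 := rfl

instance : Nontrivial Eis := ⟨0, 1, fun h => by have := congrArg Eis.re h; simp at this⟩

/-- the primitive cube root of unity -/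
def w : Eis := ⟨0, 1⟩

@[simp] theorem w_re : w.re = 0 := rfl
@[simp] theorem w_im : w.im = 1 := rfl

theorem w_sq : w ^ 2 = -1 - w := by ext <;> simp [pow_two]
theorem w_rel : w ^ 2 + w + 1 = 0 := by rw [w_sq]; ring
theorem w_cube : w ^ 3 = 1 := by
  have : w ^ 3 = w ^ 2 * w := by ring
  rw [this, w_sq]; have := w_sq; linear_combination (-1 : Eis) * this

theorem eq_re_add_im (x : Eis) : x = (x.re : Eis) + (x.im : Eis) * w := by
  ext <;> simp

/-- conjugation -/
def conj : Eis →+* Eis where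
  toFun x := ⟨x.re - x.im, -x.im⟩
  map_one' := by ext <;> simp
  map_mul' x y := by ext <;> simp <;> ring
  map_zero' := by ext <;> simp
  map_add' x y := by ext <;> simp <;> ring

@[simp] theorem conj_re (x : Eis) : (conj x).re = x.re - x.im := rfl
@[simp] theorem conj_im (x : Eis) : (conj x).im = -x.im := rfl
@[simp] theorem conj_conj (x : Eis) : conj (conj x) = x := by ext <;> simp
@[simp] theorem conj_intCast (n : ℤ) : conj (n : Eis) = n := by ext <;> simp
@[simp] theorem conj_natCast (n : ℕ) : conj (n : Eis) = n := by ext <;> simp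
theorem conj_w : conj w = w ^ 2 := by rw [w_sq]; ext <;> simp

theorem conj_dvd {x y : Eis} (h : x ∣ y) : conj x ∣ conj y := map_dvd conj h
theorem conj_dvd_iff {x y : Eis} : conj x ∣ conj y ↔ x ∣ y :=
  ⟨fun h => by simpa using conj_dvd h, conj_dvd⟩

/-- conjugation as an equivalence -/
def conjEquiv : Eis ≃+* Eis :=
  RingEquiv.ofRingHom conj conj (by ext x <;> simp) (by ext x <;> simp)

theorem prime_conj {x : Eis} (h : Prime x) : Prime (conj x) :=
  (MulEquiv.prime_iff conjEquiv (p := x)).mpr h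

/-- norm -/
def norm (x : Eis) : ℤ := x.re ^ 2 - x.re * x.im + x.im ^ 2

theorem norm_def (x : Eis) : x.norm = x.re ^ 2 - x.re * x.im + x.im ^ 2 := rfl

@[simp] theorem norm_mul (x y : Eis) : (x * y).norm = x.norm * y.norm := by
  simp only [norm, mul_re, mul_im]; ring

@[simp] theorem norm_one : (1 : Eis).norm = 1 := by simp [norm]
@[simp] theorem norm_zero : (0 : Eis).norm = 0 := by simp [norm]
@[simp] theorem norm_neg (x : Eis) : (-x).norm = x.norm := by simp [norm]
@[simp] theorem norm_conj (x : Eis) : (conj x).norm = x.norm := by simp [norm]; ring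
@[simp] theorem norm_intCast (n : ℤ) : (n : Eis).norm = n ^ 2 := by simp [norm]
@[simp] theorem norm_natCast (n : ℕ) : (n : Eis).norm = n ^ 2 := by simp [norm]
@[simp] theorem norm_w : w.norm = 1 := by simp [norm]

theorem norm_pow (x : Eis) (n : ℕ) : (x ^ n).norm = x.norm ^ n := by
  induction n with
  | zero => simp
  | succ n ih => rw [pow_succ, norm_mul, ih, pow_succ]

theorem mul_conj (x : Eis) : x * conj x = (x.norm : Eis) := by
  ext
  · simp only [mul_re, conj_re, conj_im, intCast_re, norm_def]; ring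
  · simp only [mul_im, conj_re, conj_im, intCast_im]; ring

theorem conj_mul_self (x : Eis) : conj x * x = (x.norm : Eis) := by
  rw [mul_comm, mul_conj]

theorem norm_nonneg (x : Eis) : 0 ≤ x.norm := by
  simp only [norm]; nlinarith [sq_nonneg (2 * x.re - x.im), sq_nonneg x.im]

theorem norm_eq_zero {x : Eis} : x.norm = 0 ↔ x = 0 := by
  constructor
  · intro h
    simp only [norm] at h
    have h1 : x.im = 0 := by
      by_contra hne
      have : 0 < x.im ^ 2 := by positivity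
      nlinarith [sq_nonneg (2 * x.re - x.im)]
    have h2 : x.re = 0 := by
      rw [h1] at h; simpa using h
    ext <;> simp [h1, h2]
  · rintro rfl; simp

theorem norm_pos {x : Eis} (hx : x ≠ 0) : 0 < x.norm :=
  lt_of_le_of_ne (norm_nonneg x) (fun h => hx (norm_eq_zero.mp h.symm))

/-- Euclidean quotient -/
def quo (x y : Eis) : Eis :=
  ⟨(2 * (x * conj y).re + y.norm) / (2 * y.norm), (2 * (x * conj y).im + y.norm) / (2 * y.norm)⟩

theorem norm_sub_quo_lt (x : Eis) {y : Eis} (hy : y ≠ 0) : (x - y * quo x y).norm < y.norm := by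
  have hn := norm_pos hy
  set n := y.norm with hn'
  set c := x * conj y with hc
  set q := quo x y with hq
  have e1 := Int.emod_add_mul_ediv (2 * c.re + n) (2 * n)
  have l1 := Int.emod_nonneg (2 * c.re + n) (b := 2 * n) (by positivity)
  have u1 := Int.emod_lt_of_pos (2 * c.re + n) (b := 2 * n) (by positivity)
  have e2 := Int.emod_add_mul_ediv (2 * c.im + n) (2 * n)
  have l2 := Int.emod_nonneg (2 * c.im + n) (b := 2 * n) (by positivity)
  have u2 := Int.emod_lt_of_pos (2 * c.im + n) (b := 2 * n) (by positivity)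
  have q1 : q.re = (2 * c.re + n) / (2 * n) := rfl
  have q2 : q.im = (2 * c.im + n) / (2 * n) := rfl
  rw [← q1] at e1
  rw [← q2] at e2
  set r1 := (2 * c.re + n) % (2 * n)
  set r2 := (2 * c.im + n) % (2 * n)
  have hkey : (x - y * q) * conj y = c - (n : Eis) * q := by
    rw [sub_mul, ← hc, hn', ← mul_conj]; ring
  have h3 : ((x - y * q).norm) * n = (c - (n : Eis) * q).norm := by
    rw [← hkey, norm_mul, norm_conj]
  have h4 : 4 * (c - (n : Eis) * q).norm ≤ 3 * n ^ 2 := by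
    have a1 : 2 * (c - (n : Eis) * q).re = r1 - n := by simp; linarith
    have a2 : 2 * (c - (n : Eis) * q).im = r2 - n := by simp; linarith
    have b1 : |r1 - n| ≤ n := abs_le.mpr ⟨by linarith, by linarith⟩
    have b2 : |r2 - n| ≤ n := abs_le.mpr ⟨by linarith, by linarith⟩
    have : 4 * (c - (n : Eis) * q).norm =
        (r1 - n) ^ 2 - (r1 - n) * (r2 - n) + (r2 - n) ^ 2 := by
      rw [norm_def, ← a1, ← a2]; ring
    rw [this]
    have s1 : (r1 - n) ^ 2 ≤ n ^ 2 := sq_le_sq' (by linarith) (by linarith)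
    have s2 : (r2 - n) ^ 2 ≤ n ^ 2 := sq_le_sq' (by linarith) (by linarith)
    have s3 : -((r1 - n) * (r2 - n)) ≤ n ^ 2 := by
      have := abs_mul (r1 - n) (r2 - n)
      have h5 : |r1 - n| * |r2 - n| ≤ n * n := mul_le_mul b1 b2 (abs_nonneg _) hn.le
      have h6 := neg_abs_le ((r1 - n) * (r2 - n))
      nlinarith
    linarith
  by_contra hcon
  push Not at hcon
  nlinarith

instance : EuclideanDomain Eis where
  quotient := quo
  quotient_zero x := by ext <;> simp [quo, norm]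
  remainder x y := x - y * quo x y
  quotient_mul_add_remainder_eq x y := by ring
  r := fun x y => x.norm.natAbs < y.norm.natAbs
  r_wellFounded := (measure (fun x : Eis => x.norm.natAbs)).wf
  remainder_lt x y hy := by
    have := norm_sub_quo_lt x hy
    have h1 := norm_nonneg (x - y * quo x y)
    omega
  mul_left_not_lt x y hy := by
    have h1 := norm_pos hy
    have h2 := norm_nonneg x
    rw [norm_mul, not_lt, Int.natAbs_mul]
    have : 1 ≤ y.norm.natAbs := by omega
    exact Nat.le_mul_of_pos_right _ (by omega)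

theorem isUnit_iff_norm {x : Eis} : IsUnit x ↔ x.norm = 1 := by
  constructor
  · intro h
    obtain ⟨y, hy⟩ := h.exists_right_inv
    have := congrArg norm hy
    rw [norm_mul, norm_one] at this
    exact Int.eq_one_or_neg_one_of_mul_eq_one this |>.resolve_right
      (fun h => by have := norm_nonneg x; omega)
  · intro h
    refine IsUnit.of_mul_eq_one (conj x) ?_
    rw [mul_conj, h]; simp

theorem unit_cases {x : Eis} (hx : IsUnit x) :
    ∃ i : ℕ, i < 3 ∧ (x = w ^ i ∨ x = -w ^ i) := by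
  rw [isUnit_iff_norm, norm_def] at hx
  have h1 : x.im ^ 2 ≤ 1 := by nlinarith [sq_nonneg (2 * x.re - x.im)]
  have h2 : x.re ^ 2 ≤ 1 := by nlinarith [sq_nonneg (2 * x.im - x.re)]
  have h3 : -1 ≤ x.im ∧ x.im ≤ 1 := abs_le.mp (by
    have := sq_le_one_iff_abs_le_one x.im |>.mp h1; exact this)
  have h4 : -1 ≤ x.re ∧ x.re ≤ 1 := abs_le.mp (by
    have := sq_le_one_iff_abs_le_one x.re |>.mp h2; exact this)
  obtain ⟨h3a, h3b⟩ := h3
  obtain ⟨h4a, h4b⟩ := h4
  obtain ⟨a, b⟩ := x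
  simp only at *
  interval_cases a <;> interval_cases b <;> simp at hx <;>
    first
    | exact ⟨0, by norm_num, by decide⟩
    | exact ⟨1, by norm_num, by decide⟩
    | exact ⟨2, by norm_num, by decide⟩

end Eis

end Pool.Agent.Lib_helper18


end

section

/-!
# Primes of the Eisenstein integers and the cubic residue symbol
-/

namespace Pool.Agent.Lib_helper18

namespace Eis

/-- the prime above 3 -/
def lam : Eis := ⟨1, -1⟩

@[simp] theorem lam_re : lam.re = 1 := rfl
@[simp] theorem lam_im : lam.im = -1 := rfl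
theorem lam_eq : lam = 1 - w := by ext <;> simp
@[simp] theorem norm_lam : lam.norm = 3 := by simp [norm]

theorem intCast_dvd_iff {n : ℤ} {x : Eis} : (n : Eis) ∣ x ↔ n ∣ x.re ∧ n ∣ x.im := by
  constructor
  · rintro ⟨y, rfl⟩
    simp
  · rintro ⟨⟨a, ha⟩, ⟨b, hb⟩⟩
    exact ⟨⟨a, b⟩, by ext <;> simp [ha, hb]⟩

theorem natCast_dvd_iff {n : ℕ} {x : Eis} : (n : Eis) ∣ x ↔ (n : ℤ) ∣ x.re ∧ (n : ℤ) ∣ x.im := by
  have := intCast_dvd_iff (n := (n : ℤ)) (x := x)
  simpa using this

theorem intCast_dvd_intCast {m n : ℤ} : (m : Eis) ∣ (n : Eis) ↔ m ∣ n := by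
  rw [intCast_dvd_iff]; simp

theorem three_eq_cast : (3 : Eis) = ((3 : ℤ) : Eis) := by ext <;> simp

theorem three_dvd_iff {x : Eis} : (3 : Eis) ∣ x ↔ (3 : ℤ) ∣ x.re ∧ (3 : ℤ) ∣ x.im := by
  rw [three_eq_cast, intCast_dvd_iff]

theorem lam_dvd_iff {x : Eis} : lam ∣ x ↔ (3 : ℤ) ∣ x.re + x.im := by
  constructor
  · rintro ⟨y, rfl⟩
    refine ⟨y.im, ?_⟩
    simp; ring
  · rintro ⟨k, hk⟩
    refine ⟨⟨x.re - k, k⟩, ?_⟩
    ext
    · simp
    · simp; linarith

theorem norm_emod_three (x : Eis) : x.norm % 3 = 0 ∨ x.norm % 3 = 1 := by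
  have h : x.norm = (x.re + x.im) ^ 2 - 3 * (x.re * x.im) := by rw [norm_def]; ring
  rw [h]
  generalize x.re + x.im = s
  generalize x.re * x.im = t
  have : s % 3 = 0 ∨ s % 3 = 1 ∨ s % 3 = 2 := by omega
  rcases this with h | h | h <;> simp [pow_two, Int.sub_emod, Int.mul_emod, h]

theorem norm_emod_three_of_not_lam_dvd {x : Eis} (hx : ¬ lam ∣ x) : x.norm % 3 = 1 := by
  rw [lam_dvd_iff] at hx
  have h : x.norm = (x.re + x.im) ^ 2 - 3 * (x.re * x.im) := by rw [norm_def]; ring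
  rw [h]
  revert hx
  generalize x.re + x.im = s
  generalize x.re * x.im = t
  intro hx
  have : s % 3 = 1 ∨ s % 3 = 2 := by omega
  rcases this with h | h <;> simp [pow_two, Int.sub_emod, Int.mul_emod, h]

theorem lam_dvd_iff_norm {x : Eis} : lam ∣ x ↔ (3 : ℤ) ∣ x.norm := by
  constructor
  · rintro ⟨y, rfl⟩
    simp
  · intro h
    by_contra hx
    have := norm_emod_three_of_not_lam_dvd hx
    omega

/-- if the norm is a rational prime then the element is prime -/
theorem prime_of_norm_prime {x : Eis} (h : Prime x.norm) : Prime x := by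
  rw [← irreducible_iff_prime]
  have h1 : Irreducible x.norm := h.irreducible
  have hnu : ∀ y : Eis, IsUnit y ↔ IsUnit y.norm := by
    intro y
    rw [isUnit_iff_norm, Int.isUnit_iff]
    have := norm_nonneg y
    constructor
    · intro h; left; exact h
    · rintro (h | h)
      · exact h
      · omega
  refine ⟨fun hu => h1.not_isUnit ((hnu x).mp hu), ?_⟩
  intro a b hab
  have := h1.isUnit_or_isUnit (a := a.norm) (b := b.norm) (by rw [hab, norm_mul])
  rwa [← hnu, ← hnu] at this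

theorem prime_lam : Prime lam := prime_of_norm_prime (by rw [norm_lam]; exact Int.prime_three)

theorem three_eq : (3 : Eis) = -w ^ 2 * lam ^ 2 := by decide

theorem lam_dvd_three : lam ∣ 3 := ⟨-w ^ 2 * lam, by rw [three_eq]; ring⟩

theorem dvd_three_iff {l : Eis} (hl : Prime l) : l ∣ 3 ↔ Associated l lam := by
  constructor
  · intro h
    rw [three_eq] at h
    have h1 : l ∣ lam ^ 2 := by
      have h2 : l ∣ (-w ^ 2 * lam ^ 2) * (-w) := dvd_mul_of_dvd_left h _
      have h3 : (-w ^ 2 * lam ^ 2) * (-w) = lam ^ 2 := by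
        have := w_cube; linear_combination lam ^ 2 * this
      rwa [h3] at h2
    exact (hl.associated_of_dvd prime_lam (hl.dvd_of_dvd_pow h1))
  · intro h
    exact h.dvd.trans lam_dvd_three

/-- Every prime divides a rational prime. -/
theorem exists_rational_prime {l : Eis} (hl : Prime l) :
    ∃ q : ℕ, q.Prime ∧ l ∣ (q : Eis) ∧ (l.norm = q ∨ l.norm = q ^ 2) := by
  have h0 : l ≠ 0 := hl.ne_zero
  have hn := norm_pos h0
  have hn1 : l.norm ≠ 1 := fun h => hl.not_isUnit (isUnit_iff_norm.mpr h)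
  -- l divides its norm
  have h1 : l ∣ ((l.norm.natAbs : ℕ) : Eis) := by
    have : ((l.norm.natAbs : ℕ) : Eis) = ((l.norm : ℤ) : Eis) := by
      rw [← Int.cast_natCast, Int.natAbs_of_nonneg hn.le]
    rw [this, ← mul_conj]
    exact dvd_mul_right _ _
  -- find a prime factor
  have key : ∀ n : ℕ, n ≠ 0 → l ∣ (n : Eis) → ∃ q : ℕ, q.Prime ∧ l ∣ (q : Eis) := by
    intro n
    induction n using Nat.recOnMul with
    | zero => intro h; exact absurd rfl h
    | one => intro _ h; rw [Nat.cast_one] at h; exact absurd (isUnit_of_dvd_one h) hl.not_isUnit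
    | prime p hp => intro _ h; exact ⟨p, hp, h⟩
    | mul a b iha ihb =>
      intro hab h
      rw [Nat.cast_mul] at h
      rcases hl.dvd_or_dvd h with h | h
      · exact iha (by rintro rfl; simp at hab) h
      · exact ihb (by rintro rfl; simp at hab) h
  obtain ⟨q, hq, hlq⟩ := key l.norm.natAbs (by omega) h1
  refine ⟨q, hq, hlq, ?_⟩
  obtain ⟨m, hm⟩ := hlq
  have h2 : (q : ℤ) ^ 2 = l.norm * m.norm := by rw [← norm_mul, ← hm, norm_natCast]
  have h3 : l.norm.natAbs ∣ q ^ 2 := by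
    have : l.norm ∣ (q : ℤ) ^ 2 := ⟨_, h2⟩
    have := Int.natAbs_dvd_natAbs.mpr this
    simpa [Int.natAbs_pow] using this
  rw [Nat.dvd_prime_pow hq] at h3
  obtain ⟨k, hk, hk2⟩ := h3
  interval_cases k
  · simp at hk2; omega
  · left; simp at hk2; omega
  · right
    have : (l.norm.natAbs : ℤ) = ((q ^ 2 : ℕ) : ℤ) := by exact_mod_cast hk2
    rw [Int.natCast_natAbs, abs_of_pos hn] at this
    rw [this]; push_cast; ring

/-- size of the residue field -/
def N (l : Eis) : ℕ := l.norm.natAbs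

theorem N_cast (l : Eis) : (N l : ℤ) = l.norm := by
  rw [N, Int.natCast_natAbs, abs_of_nonneg (norm_nonneg l)]

theorem N_mul (l m : Eis) : N (l * m) = N l * N m := by
  simp [N, Int.natAbs_mul]

@[simp] theorem N_conj (l : Eis) : N (conj l) = N l := by simp [N]

theorem N_unit {u : Eis} (hu : IsUnit u) : N u = 1 := by
  rw [N, isUnit_iff_norm.mp hu]; rfl

theorem N_mod_three {x : Eis} (hx : ¬ lam ∣ x) : N x % 3 = 1 := by
  have := norm_emod_three_of_not_lam_dvd hx
  have h2 := N_cast x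
  omega

/-- Frobenius congruence. -/
theorem frob {q : ℕ} (hq : q.Prime) (x : Eis) :
    (q : Eis) ∣ x ^ q - ((x.re : Eis) + (x.im : Eis) * w ^ q) := by
  have := Fact.mk hq
  obtain ⟨r, hr⟩ := exists_add_pow_prime_eq hq (x.re : Eis) ((x.im : Eis) * w)
  have h1 : ∀ a : ℤ, ((q : ℤ) : Eis) ∣ (a : Eis) ^ q - a := by
    intro a
    have : (q : ℤ) ∣ a ^ q - a := by
      rw [← ZMod.intCast_zmod_eq_zero_iff_dvd]
      push_cast
      rw [ZMod.pow_card]; ring
    have h2 := intCast_dvd_intCast.mpr this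
    push_cast at h2 ⊢
    exact h2
  have h2 := h1 x.re
  have h3 := h1 x.im
  rw [Int.cast_natCast] at h2 h3
  have hx : x ^ q = ((x.re : Eis) + (x.im : Eis) * w) ^ q := by rw [← eq_re_add_im]
  rw [hx, hr]
  have e : (x.re : Eis) ^ q + ((x.im : Eis) * w) ^ q + q * (x.re : Eis) * ((x.im : Eis) * w) * r -
      ((x.re : Eis) + (x.im : Eis) * w ^ q) =
      ((x.re : Eis) ^ q - x.re) + ((x.im : Eis) ^ q - x.im) * w ^ q +
      q * ((x.re : Eis) * ((x.im : Eis) * w) * r) := by
    rw [mul_pow]; ring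
  rw [e]
  exact dvd_add (dvd_add h2 (dvd_mul_of_dvd_left h3 _)) (dvd_mul_right _ _)

theorem w_pow_mod (n : ℕ) : w ^ n = w ^ (n % 3) := by
  conv_lhs => rw [← Nat.mod_add_div n 3]
  rw [pow_add, pow_mul, w_cube, one_pow, mul_one]

theorem frob_one {q : ℕ} (hq : q.Prime) (h : q % 3 = 1) (x : Eis) :
    (q : Eis) ∣ x ^ q - x := by
  have := frob hq x
  rw [w_pow_mod q, h, pow_one, ← eq_re_add_im] at this
  exact this

theorem frob_two {q : ℕ} (hq : q.Prime) (h : q % 3 = 2) (x : Eis) :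
    (q : Eis) ∣ x ^ q - conj x := by
  have := frob hq x
  rw [w_pow_mod q, h] at this
  have e : conj x = (x.re : Eis) + (x.im : Eis) * w ^ 2 := by
    conv_lhs => rw [eq_re_add_im x]
    rw [map_add, map_mul, conj_w, conj_intCast, conj_intCast]
  rw [e]
  exact this

theorem dvd_pow_sub {l x : Eis} (hl : Prime l) (h3 : ¬ l ∣ 3) : l ∣ x ^ (N l) - x := by
  obtain ⟨q, hq, hlq, hn⟩ := exists_rational_prime hl
  have hq3 : q ≠ 3 := by
    rintro rfl
    exact h3 (by simpa using hlq)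
  have hqm : q % 3 = 1 ∨ q % 3 = 2 := by
    have : q % 3 ≠ 0 := by
      intro h
      have : 3 ∣ q := Nat.dvd_of_mod_eq_zero h
      rw [Nat.prime_dvd_prime_iff_eq Nat.prime_three hq] at this
      omega
    omega
  have hNN := N_cast l
  rcases hqm with hm | hm
  · have h1 := hlq.trans (frob_one hq hm x)
    rcases hn with hn | hn
    · have : N l = q := by
        have : (N l : ℤ) = q := by rw [hNN, hn]
        exact_mod_cast this
      rw [this]; exact h1
    · have : N l = q * q := by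
        have : (N l : ℤ) = q * q := by rw [hNN, hn]; ring
        exact_mod_cast this
      rw [this, pow_mul]
      have h2 : l ∣ (x ^ q) ^ q - x ^ q := hlq.trans (frob_one hq hm (x ^ q))
      have := dvd_add h2 h1
      simpa using this
  · -- q = 2 mod 3 : then norm is q^2
    have hn' : l.norm = q ^ 2 := by
      rcases hn with hn | hn
      · exfalso
        have := norm_emod_three l
        rw [hn] at this
        omega
      · exact hn
    have : N l = q * q := by
      have : (N l : ℤ) = q * q := by rw [hNN, hn']; ring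
      exact_mod_cast this
    rw [this, pow_mul]
    have h1 : l ∣ x ^ q - conj x := hlq.trans (frob_two hq hm x)
    have h2 : l ∣ (conj x) ^ q - x := by
      have := hlq.trans (frob_two hq hm (conj x))
      rwa [conj_conj] at this
    have h4 : l ∣ (x ^ q) ^ q - (conj x) ^ q := h1.trans (sub_dvd_pow_sub_pow _ _ _)
    have := dvd_add h4 h2
    simpa using this

theorem not_lam_dvd_of_prime {l : Eis} (hl : Prime l) (h3 : ¬ l ∣ 3) : ¬ lam ∣ l := by
  intro h
  exact h3 ((prime_lam.associated_of_dvd hl h).symm.dvd.trans lam_dvd_three)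

theorem three_mul_div {l : Eis} (hl : Prime l) (h3 : ¬ l ∣ 3) : 3 * ((N l - 1) / 3) + 1 = N l := by
  have := N_mod_three (not_lam_dvd_of_prime hl h3)
  omega

theorem dvd_pow_sub_one {l x : Eis} (hl : Prime l) (h3 : ¬ l ∣ 3) (hx : ¬ l ∣ x) :
    l ∣ (x ^ ((N l - 1) / 3)) ^ 3 - 1 := by
  have h := dvd_pow_sub (x := x) hl h3
  have e : x ^ (N l) - x = x * ((x ^ ((N l - 1) / 3)) ^ 3 - 1) := by
    conv_lhs => rw [← three_mul_div hl h3]
    rw [pow_add, mul_comm 3, pow_mul]; ring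
  rw [e] at h
  exact (hl.dvd_or_dvd h).resolve_left hx

/-- the cubic residue symbol, as an exponent of `w` -/
noncomputable def sym (l x : Eis) : ZMod 3 :=
  open Classical in
  if l ∣ x ^ ((N l - 1) / 3) - 1 then 0 else if l ∣ x ^ ((N l - 1) / 3) - w then 1 else 2

theorem w_pow_sub_dvd {l : Eis} (h3 : ¬ l ∣ 3) {m n : ℕ} (h : l ∣ w ^ m - w ^ n) :
    (m : ZMod 3) = n := by
  rw [w_pow_mod m, w_pow_mod n] at h
  rw [ZMod.natCast_eq_natCast_iff']
  have hm : m % 3 < 3 := Nat.mod_lt _ (by norm_num)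
  have hn : n % 3 < 3 := Nat.mod_lt _ (by norm_num)
  generalize m % 3 = a at *
  generalize n % 3 = b at *
  by_contra hab
  apply h3
  refine h.trans ?_
  interval_cases a <;> interval_cases b <;> simp at hab
  · exact ⟨1 - w ^ 2, by decide⟩
  · exact ⟨1 - w, by decide⟩
  · exact ⟨w ^ 2 - 1, by decide⟩
  · exact ⟨w ^ 2 * (1 - w ^ 2), by decide⟩
  · exact ⟨w - 1, by decide⟩
  · exact ⟨w ^ 2 * (w ^ 2 - 1), by decide⟩

theorem sym_spec {l x : Eis} (hl : Prime l) (h3 : ¬ l ∣ 3) (hx : ¬ l ∣ x) :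
    l ∣ x ^ ((N l - 1) / 3) - w ^ (sym l x).val := by
  have h := dvd_pow_sub_one hl h3 hx
  rw [sym]
  split_ifs with h1 h2
  · simpa using h1
  · have : (1 : ZMod 3).val = 1 := rfl
    rw [this, pow_one]; exact h2
  · have e : (x ^ ((N l - 1) / 3)) ^ 3 - 1 =
      (x ^ ((N l - 1) / 3) - 1) * ((x ^ ((N l - 1) / 3) - w) * (x ^ ((N l - 1) / 3) - w ^ 2)) := by
      generalize x ^ ((N l - 1) / 3) = y
      have := w_rel
      have h3 := w_cube
      linear_combination (-y + y ^ 2) * this + (1 - y) * h3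
    rw [e] at h
    have := ((hl.dvd_or_dvd h).resolve_left h1)
    have := (hl.dvd_or_dvd this).resolve_left h2
    have hv : (2 : ZMod 3).val = 2 := rfl
    rw [hv]; exact this

theorem sym_eq_of_dvd {l x : Eis} (hl : Prime l) (h3 : ¬ l ∣ 3) (hx : ¬ l ∣ x) {n : ℕ}
    (h : l ∣ x ^ ((N l - 1) / 3) - w ^ n) : sym l x = n := by
  have h1 := sym_spec hl h3 hx
  have h2 : l ∣ w ^ (sym l x).val - w ^ n := by
    have := dvd_sub h h1
    have e : x ^ ((N l - 1) / 3) - w ^ n - (x ^ ((N l - 1) / 3) - w ^ (sym l x).val) =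
      w ^ (sym l x).val - w ^ n := by ring
    rwa [e] at this
  have := w_pow_sub_dvd h3 h2
  rwa [ZMod.natCast_val, ZMod.cast_id', id] at this

theorem sym_mul {l x y : Eis} (hl : Prime l) (h3 : ¬ l ∣ 3) (hx : ¬ l ∣ x) (hy : ¬ l ∣ y) :
    sym l (x * y) = sym l x + sym l y := by
  have h1 := sym_spec hl h3 hx
  have h2 := sym_spec hl h3 hy
  have hxy : ¬ l ∣ x * y := fun h => (hl.dvd_or_dvd h).elim hx hy
  have h4 : l ∣ (x * y) ^ ((N l - 1) / 3) - w ^ ((sym l x).val + (sym l y).val) := by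
    rw [mul_pow, pow_add]
    generalize x ^ ((N l - 1) / 3) = X at *
    generalize y ^ ((N l - 1) / 3) = Y at *
    have e : X * Y - w ^ (sym l x).val * w ^ (sym l y).val =
      (X - w ^ (sym l x).val) * Y + w ^ (sym l x).val * (Y - w ^ (sym l y).val) := by ring
    rw [e]
    exact dvd_add (dvd_mul_of_dvd_left h1 _) (dvd_mul_of_dvd_right h2 _)
  rw [sym_eq_of_dvd hl h3 hxy h4]
  push_cast
  simp [ZMod.natCast_val]

theorem sym_one {l : Eis} (hl : Prime l) (h3 : ¬ l ∣ 3) : sym l 1 = 0 := by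
  have : ¬ l ∣ 1 := fun h => hl.not_isUnit (isUnit_of_dvd_one h)
  simpa using sym_eq_of_dvd (n := 0) hl h3 this (by simp)

theorem sym_pow {l x : Eis} (hl : Prime l) (h3 : ¬ l ∣ 3) (hx : ¬ l ∣ x) (n : ℕ) :
    sym l (x ^ n) = n * sym l x := by
  induction n with
  | zero => simp [sym_one hl h3]
  | succ n ih =>
    have : ¬ l ∣ x ^ n := fun h => hx (hl.dvd_of_dvd_pow h)
    rw [pow_succ, sym_mul hl h3 this hx, ih]; push_cast; ring

theorem sym_cube {l x : Eis} (hl : Prime l) (h3 : ¬ l ∣ 3) (hx : ¬ l ∣ x) :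
    sym l (x ^ 3) = 0 := by
  rw [sym_pow hl h3 hx]
  have : ((3 : ℕ) : ZMod 3) = 0 := by decide
  rw [this, zero_mul]

theorem sym_congr {l x y : Eis} (h : l ∣ x - y) : sym l x = sym l y := by
  have key : ∀ z : Eis, l ∣ x ^ ((N l - 1) / 3) - z ↔ l ∣ y ^ ((N l - 1) / 3) - z := by
    intro z
    have h1 : l ∣ x ^ ((N l - 1) / 3) - y ^ ((N l - 1) / 3) := h.trans (sub_dvd_pow_sub_pow _ _ _)
    constructor
    · intro h2
      have := dvd_sub h2 h1
      simpa using this
    · intro h2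
      have := dvd_add h2 h1
      simpa using this
  by_cases h1 : l ∣ x ^ ((N l - 1) / 3) - 1
  · simp [sym, h1, (key 1).mp h1]
  · by_cases h2 : l ∣ x ^ ((N l - 1) / 3) - w
    · simp [sym, h1, mt (key 1).mpr h1, h2, (key w).mp h2]
    · simp [sym, h1, mt (key 1).mpr h1, h2, mt (key w).mpr h2]

theorem not_dvd_of_isUnit {l u : Eis} (hl : Prime l) (hu : IsUnit u) : ¬ l ∣ u :=
  fun h => hl.not_isUnit (isUnit_of_dvd_unit h hu)

theorem isUnit_w : IsUnit w := isUnit_iff_norm.mpr norm_w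

theorem sym_neg_one {l : Eis} (hl : Prime l) (h3 : ¬ l ∣ 3) : sym l (-1) = 0 := by
  have h1 : ¬ l ∣ (-1 : Eis) := not_dvd_of_isUnit hl (by simp)
  have := sym_cube hl h3 h1
  have e : (-1 : Eis) ^ 3 = -1 := by norm_num
  rwa [e] at this

theorem sym_neg {l x : Eis} (hl : Prime l) (h3 : ¬ l ∣ 3) (hx : ¬ l ∣ x) :
    sym l (-x) = sym l x := by
  have h1 : ¬ l ∣ (-1 : Eis) := not_dvd_of_isUnit hl (by simp)
  have e : -x = (-1) * x := by ring
  rw [e, sym_mul hl h3 h1 hx, sym_neg_one hl h3, zero_add]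

theorem sym_w {l : Eis} (hl : Prime l) (h3 : ¬ l ∣ 3) : sym l w = ((N l - 1) / 3 : ℕ) :=
  sym_eq_of_dvd hl h3 (not_dvd_of_isUnit hl isUnit_w) (by simp)

theorem sym_conj {l x : Eis} (hl : Prime l) (h3 : ¬ l ∣ 3) (hx : ¬ l ∣ x) :
    sym (conj l) (conj x) = - sym l x := by
  have h1 := sym_spec hl h3 hx
  have h2 := conj_dvd h1
  have hl' := prime_conj hl
  have h3' : ¬ conj l ∣ 3 := fun h => h3 (by
    have := conj_dvd h
    rw [conj_conj] at this
    have e : conj 3 = 3 := conj_natCast 3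
    rwa [e] at this)
  have hx' : ¬ conj l ∣ conj x := fun h => hx (conj_dvd_iff.mp h)
  rw [map_sub, map_pow, map_pow, conj_w, ← pow_mul, ← N_conj l] at h2
  rw [sym_eq_of_dvd hl' h3' hx' h2]
  push_cast
  rw [ZMod.natCast_val, ZMod.cast_id', id]
  have : (2 : ZMod 3) = -1 := by decide
  rw [this]; ring

theorem sym_associated {l m x : Eis} (h : Associated l m) : sym l x = sym m x := by
  have h1 : N l = N m := by
    obtain ⟨u, rfl⟩ := h
    rw [N_mul, N_unit u.isUnit, mul_one]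
  have key : ∀ z : Eis, l ∣ z ↔ m ∣ z := fun z => h.dvd_iff_dvd_left
  by_cases h2 : m ∣ x ^ ((N m - 1) / 3) - 1
  · simp [sym, h1, key, h2]
  · by_cases h3 : m ∣ x ^ ((N m - 1) / 3) - w
    · simp [sym, h1, key, h2, h3]
    · simp [sym, h1, key, h2, h3]

/-- compatibility with a ring homomorphism to a field with kernel generated by `l` -/
theorem map_pow_eq {F : Type*} [Field F] {l x : Eis} (hl : Prime l) (h3 : ¬ l ∣ 3)
    (hx : ¬ l ∣ x) (φ : Eis →+* F) (hφ : φ l = 0) :
    (φ x) ^ ((N l - 1) / 3) = (φ w) ^ (sym l x).val := by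
  obtain ⟨c, hc⟩ := sym_spec hl h3 hx
  have := congrArg φ hc
  rw [map_mul, hφ, zero_mul, map_sub, map_pow, map_pow, sub_eq_zero] at this
  exact this

end Eis

end Pool.Agent.Lib_helper18


end

section

/-!
# Multiplicative characters of `ZMod p` lifting power maps, and values of Jacobi sums modulo `p`
-/

namespace Pool.Agent.Lib_helper18

open Finset

variable {p : ℕ} [hp : Fact p.Prime]

/-- A multiplicative character lifting the `m`-th power map through a ring homomorphism. -/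
theorem exists_mulChar {R : Type*} [CommRing R] (φ : R →+* ZMod p) (ζ : R) {n m : ℕ}
    (hζ : ζ ^ n = 1) (hprim : IsPrimitiveRoot (φ ζ) n) (hn : p - 1 = n * m) :
    ∃ χ : MulChar (ZMod p) R, (∀ x : ZMod p, x ≠ 0 → φ (χ x) = x ^ m) ∧
      (∀ x : ZMod p, x ≠ 0 → ∃ i : ℕ, χ x = ζ ^ i) ∧ ∃ x : ZMod p, x ≠ 0 ∧ χ x = ζ := by
  obtain ⟨g, hg⟩ := IsCyclic.exists_generator (α := (ZMod p)ˣ)
  have hn0 : n ≠ 0 := by
    rintro rfl
    have := hp.out.two_le
    omega
  have : NeZero n := ⟨hn0⟩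
  have hgn : ((g : ZMod p) ^ m) ^ n = 1 := by
    rw [← pow_mul, mul_comm, ← hn]
    exact ZMod.pow_card_sub_one_eq_one g.ne_zero
  obtain ⟨i, hi, hi2⟩ := hprim.eq_pow_of_pow_eq_one hgn
  have hu : IsUnit ζ := IsUnit.of_pow_eq_one hζ hn0
  have hmem : (hu.unit ^ i : Rˣ) ∈ rootsOfUnity (Fintype.card (ZMod p)ˣ) R := by
    rw [mem_rootsOfUnity, ZMod.card_units_eq_totient, Nat.totient_prime hp.out, hn]
    ext
    push_cast
    rw [IsUnit.unit_spec, ← pow_mul, mul_comm i, mul_assoc, pow_mul, hζ, one_pow]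
  refine ⟨MulChar.ofRootOfUnity hmem hg, ?_, ?_, ?_⟩
  · intro x hx
    have h1 : ∃ k' : ℕ, g ^ k' = Units.mk0 x hx := by
      have := (mem_powers_iff_mem_zpowers (x := g) (y := Units.mk0 x hx)).mpr (hg _)
      exact this
    obtain ⟨k', hk'⟩ := h1
    have hx' : x = (g : ZMod p) ^ k' := by
      have := congrArg Units.val hk'
      simpa using this.symm
    rw [hx', map_pow, MulChar.ofRootOfUnity_spec, map_pow]
    push_cast
    rw [IsUnit.unit_spec, map_pow, hi2]
    rw [← pow_mul, ← pow_mul, mul_comm]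
  · intro x hx
    obtain ⟨k', hk'⟩ : ∃ k' : ℕ, g ^ k' = Units.mk0 x hx :=
      (mem_powers_iff_mem_zpowers (x := g) (y := Units.mk0 x hx)).mpr (hg _)
    have hx' : x = (g : ZMod p) ^ k' := by
      have := congrArg Units.val hk'
      simpa using this.symm
    refine ⟨i * k', ?_⟩
    rw [hx', map_pow, MulChar.ofRootOfUnity_spec]
    push_cast
    rw [IsUnit.unit_spec, ← pow_mul]
  · have hord : orderOf g = p - 1 := by
      rw [orderOf_eq_card_of_forall_mem_zpowers hg, Nat.card_eq_fintype_card,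
        ZMod.card_units_eq_totient, Nat.totient_prime hp.out]
    have hgp : IsPrimitiveRoot g (p - 1) := by rw [← hord]; exact IsPrimitiveRoot.orderOf g
    have hgp' : IsPrimitiveRoot (g : ZMod p) (p - 1) := hgp.map_of_injective
      (f := Units.coeHom (ZMod p)) Units.val_injective
    have hgm : IsPrimitiveRoot ((g : ZMod p) ^ m) n :=
      hgp'.pow (by have := hp.out.two_le; omega) (by rw [hn, mul_comm])
    obtain ⟨k, hk, hk2⟩ := hgm.eq_pow_of_pow_eq_one hprim.pow_eq_one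
    refine ⟨(g : ZMod p) ^ k, pow_ne_zero _ g.ne_zero, ?_⟩
    rw [map_pow, MulChar.ofRootOfUnity_spec]
    push_cast
    rw [IsUnit.unit_spec, ← pow_mul]
    have h1 : (φ ζ) ^ (i * k) = (φ ζ) ^ 1 := by rw [pow_mul, hi2, hk2, pow_one]
    have hfin : IsOfFinOrder (φ ζ) :=
      isOfFinOrder_iff_pow_eq_one.mpr ⟨n, Nat.pos_of_ne_zero hn0, hprim.pow_eq_one⟩
    rw [hfin.pow_eq_pow_iff_modEq, ← hprim.eq_orderOf] at h1
    have h2 : ζ ^ (i * k) = ζ ^ 1 := by
      have h3 : i * k % n = 1 % n := h1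
      rw [← Nat.mod_add_div (i * k) n, pow_add, pow_mul, hζ, one_pow, mul_one, h3]
      conv_rhs => rw [← Nat.mod_add_div 1 n, pow_add, pow_mul, hζ, one_pow, mul_one]
    rw [h2, pow_one]

/-- Power sums over `ZMod p`. -/
theorem sum_pow (i : ℕ) (hi : 0 < i) :
    ∑ x : ZMod p, x ^ i = if p - 1 ∣ i then -1 else 0 := by
  have h1 := FiniteField.sum_pow_units (K := ZMod p) i
  rw [ZMod.card] at h1
  rw [← h1]
  have : (∑ x : (ZMod p)ˣ, (x ^ i : ZMod p)) = ∑ x ∈ univ \ {(0 : ZMod p)}, x ^ i := by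
    let φ : (ZMod p)ˣ ↪ ZMod p := ⟨fun x ↦ x, Units.val_injective⟩
    have hφ : univ.map φ = univ \ {(0 : ZMod p)} := by
      ext x
      simp only [φ, mem_map, mem_univ, Function.Embedding.coeFn_mk, true_and, mem_sdiff,
        mem_singleton]
      constructor
      · rintro ⟨y, rfl⟩; exact y.ne_zero
      · intro hx; exact ⟨Units.mk0 x hx, rfl⟩
    rw [← hφ, Finset.sum_map]
    rfl
  rw [this, Finset.sum_sdiff_eq_sub (Finset.subset_univ _)]
  simp [hi.ne']

/-- The Jacobi-type power sum. -/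
theorem sum_pow_mul_pow (k : ℕ) (hk : 0 < k) (hk2 : k < p - 1) :
    ∑ x : ZMod p, x ^ k * (1 - x) ^ k =
      if p - 1 ≤ 2 * k then -((-1) ^ (p - 1 - k) * (k.choose (p - 1 - k) : ZMod p)) else 0 := by
  have h1 : ∀ x : ZMod p, x ^ k * (1 - x) ^ k =
      ∑ j ∈ range (k + 1), ((-1) ^ j * (k.choose j : ZMod p)) * x ^ (k + j) := by
    intro x
    have : (1 - x) ^ k = ∑ j ∈ range (k + 1), ((-1) ^ j * (k.choose j : ZMod p)) * x ^ j := by
      have h2 : (1 - x) = (-x) + 1 := by ring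
      rw [h2, add_pow]
      refine Finset.sum_congr rfl fun j _ => ?_
      rw [neg_pow]; ring
    rw [this, Finset.mul_sum]
    refine Finset.sum_congr rfl fun j _ => ?_
    rw [pow_add]; ring
  simp_rw [h1]
  rw [Finset.sum_comm]
  have h2 : ∀ j ∈ range (k + 1), ∑ x : ZMod p, ((-1) ^ j * (k.choose j : ZMod p)) * x ^ (k + j) =
      if j = p - 1 - k then -((-1) ^ j * (k.choose j : ZMod p)) else 0 := by
    intro j hj
    rw [Finset.mem_range] at hj
    rw [← Finset.mul_sum, sum_pow _ (by omega)]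
    have : (p - 1 ∣ k + j) ↔ j = p - 1 - k := by
      constructor
      · rintro ⟨c, hc⟩
        have : c = 1 := by
          have h3 : c < 2 := by
            by_contra hcon
            push Not at hcon
            have : (p - 1) * 2 ≤ (p - 1) * c := Nat.mul_le_mul_left _ hcon
            omega
          have h4 : c ≠ 0 := by rintro rfl; omega
          omega
        subst this
        omega
      · intro h; exact ⟨1, by omega⟩
    by_cases h : j = p - 1 - k
    · rw [if_pos h, if_pos (this.mpr h)]; ring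
    · rw [if_neg h, if_neg (mt this.mp h)]; ring
  rw [Finset.sum_congr rfl h2, Finset.sum_ite_eq']
  by_cases h : p - 1 ≤ 2 * k
  · rw [if_pos h, if_pos (by rw [Finset.mem_range]; omega)]
  · rw [if_neg h, if_neg (by rw [Finset.mem_range]; omega)]

/-- Value of a Jacobi sum under a homomorphism to `ZMod p`. -/
theorem map_jacobiSum {R : Type*} [CommRing R] (φ : R →+* ZMod p) (χ : MulChar (ZMod p) R)
    (k : ℕ) (hk : 0 < k) (h : ∀ x : ZMod p, x ≠ 0 → φ (χ x) = x ^ k) :
    φ (jacobiSum χ χ) = ∑ x : ZMod p, x ^ k * (1 - x) ^ k := by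
  rw [jacobiSum, map_sum]
  refine Finset.sum_congr rfl fun x _ => ?_
  rw [map_mul]
  by_cases hx : x = 0
  · subst hx
    rw [χ.map_zero, map_zero, zero_pow hk.ne', zero_mul, zero_mul]
  · by_cases hx1 : 1 - x = 0
    · rw [hx1, χ.map_zero, map_zero, zero_pow hk.ne', mul_zero, mul_zero]
    · rw [h x hx, h _ hx1]

theorem map_jacobiSum_eq_zero {R : Type*} [CommRing R] (φ : R →+* ZMod p)
    (χ : MulChar (ZMod p) R) (k : ℕ) (hk : 0 < k) (hk2 : 2 * k < p - 1)
    (h : ∀ x : ZMod p, x ≠ 0 → φ (χ x) = x ^ k) :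
    φ (jacobiSum χ χ) = 0 := by
  rw [map_jacobiSum φ χ k hk h, sum_pow_mul_pow k hk (by omega), if_neg (by omega)]

theorem map_jacobiSum_eq_choose {R : Type*} [CommRing R] (φ : R →+* ZMod p)
    (χ : MulChar (ZMod p) R) (k : ℕ) (hk : k < p - 1) (hk2 : p - 1 ≤ 2 * k)
    (h : ∀ x : ZMod p, x ≠ 0 → φ (χ x) = x ^ k) :
    φ (jacobiSum χ χ) = -((-1) ^ (p - 1 - k) * (k.choose (p - 1 - k) : ZMod p)) := by
  have hk0 : 0 < k := by
    have := hp.out.two_le
    omega
  rw [map_jacobiSum φ χ k hk0 h, sum_pow_mul_pow k hk0 hk, if_pos hk2]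

/-- `J(χ,χ) J(χ⁻¹,χ⁻¹) = p` in a domain of characteristic zero. -/
theorem jacobiSum_mul_inv {R : Type*} [CommRing R] [IsDomain R] [CharZero R]
    {χ : MulChar (ZMod p) R} (hχ : χ ≠ 1) (hχ2 : χ * χ ≠ 1) :
    jacobiSum χ χ * jacobiSum χ⁻¹ χ⁻¹ = (p : R) := by
  let K := FractionRing R
  have hinj : Function.Injective (algebraMap R K) := IsFractionRing.injective R K
  have hch : ringChar K ≠ ringChar (ZMod p) := by
    have : CharZero K := charZero_of_injective_algebraMap hinj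
    rw [ringChar.eq_zero, ZMod.ringChar_zmod_n]
    exact hp.out.ne_zero.symm
  have h := jacobiSum_mul_jacobiSum_inv (F := ZMod p) (F' := K) hch
    (χ := χ.ringHomComp (algebraMap R K)) (φ := χ.ringHomComp (algebraMap R K))
    ((MulChar.ringHomComp_ne_one_iff hinj).mpr hχ)
    ((MulChar.ringHomComp_ne_one_iff hinj).mpr hχ)
    (by rw [← MulChar.ringHomComp_mul]; exact (MulChar.ringHomComp_ne_one_iff hinj).mpr hχ2)
  rw [MulChar.ringHomComp_inv, jacobiSum_ringHomComp, jacobiSum_ringHomComp, ← map_mul,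
    ZMod.card] at h
  apply hinj
  rw [h, map_natCast]

theorem gaussSum_frob_iter' {R : Type*} [CommRing R] [Fintype R] {R' : Type*} [CommRing R']
    (q : ℕ) [Fact q.Prime] [CharP R' q] (χ : MulChar R R') (ψ : AddChar R R') (n : ℕ) :
    gaussSum χ ψ ^ (q ^ n) = gaussSum (χ ^ (q ^ n)) (ψ ^ (q ^ n)) := by
  induction n with
  | zero => simp
  | succ n ih =>
    rw [pow_succ, pow_mul, ih, gaussSum_frob q, ← pow_mul, ← pow_mul]

/-- The key identity: for a cubic character with values in a field of characteristic `q ≠ p`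
and `N = q^n ≡ 1` modulo 3: `χ(N) * (p * J(χ,χ))^((N-1)/3) = 1`. -/
theorem cubic_gauss {F' : Type*} [Field F'] (q : ℕ) [Fact q.Prime] [CharP F' q]
    (hqp : q ≠ p) (χ : MulChar (ZMod p) F') (hχ : orderOf χ = 3) (n : ℕ)
    (hN : 3 * ((q ^ n - 1) / 3) + 1 = q ^ n) :
    χ ((q ^ n : ℕ) : ZMod p) * ((p : F') * jacobiSum χ χ) ^ ((q ^ n - 1) / 3) = 1 := by
  have hrc : ringChar F' ≠ ringChar (ZMod p) := by
    rw [ringChar.eq F' q, ZMod.ringChar_zmod_n]
    exact hqp
  let ψ := AddChar.FiniteField.primitiveChar (ZMod p) F' hrc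
  let FF := CyclotomicField ψ.n F'
  have hinj : Function.Injective (algebraMap F' FF) := (algebraMap F' FF).injective
  have : CharP FF q := charP_of_injective_algebraMap hinj q
  set χ' := χ.ringHomComp (algebraMap F' FF) with hχ'
  have hχ3 : χ ^ 3 = 1 := by rw [← hχ]; exact pow_orderOf_eq_one χ
  have hord : orderOf χ' = 3 := by
    rw [← hχ]
    exact orderOf_injective (MulChar.ringHomCompHom (algebraMap F' FF))
      (MulChar.injective_ringHomComp hinj) χ
  have hχ'3 : χ' ^ 3 = 1 := by rw [← hord]; exact pow_orderOf_eq_one χ'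
  have hχ'1 : χ' ≠ 1 := by
    intro h
    rw [h, orderOf_one] at hord
    norm_num at hord
  set g := gaussSum χ' ψ.char with hg
  have hneg : χ' (-1) = 1 := by
    have h1 : (-1 : ZMod p) ^ 3 = -1 := by norm_num
    have h2 : χ' ((-1) ^ 3) = (χ' ^ 3) (-1) := by
      rw [map_pow, MulChar.pow_apply' _ (by norm_num)]
    rw [h1, hχ'3] at h2
    rw [h2]
    exact MulChar.one_apply (by simp)
  have hg3 : g ^ 3 = (p : FF) * jacobiSum χ' χ' := by
    have h := gaussSum_pow_eq_prod_jacobiSum (χ := χ') (ψ := ψ.char) (by rw [hord]; norm_num)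
      ψ.prim
    rw [hord, hneg, ZMod.card] at h
    simpa using h
  have hcard : (Fintype.card (ZMod p) : FF) ≠ 0 := by
    rw [ZMod.card]
    intro h
    have := (CharP.cast_eq_zero_iff FF q p).mp h
    rw [Nat.prime_dvd_prime_iff_eq (Fact.out : q.Prime) hp.out] at this
    exact hqp this
  have hg0 : g ≠ 0 := gaussSum_ne_zero_of_nontrivial hcard hχ'1 ψ.prim
  set m := (q ^ n - 1) / 3 with hm
  have hfrob := gaussSum_frob_iter' q χ' ψ.char n
  have hpow : χ' ^ (q ^ n) = χ' := by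
    rw [← hN, pow_succ, pow_mul, hχ'3, one_pow, one_mul]
  have hunit : IsUnit ((q ^ n : ℕ) : ZMod p) := by
    rw [isUnit_iff_ne_zero]
    intro h
    rw [ZMod.natCast_eq_zero_iff] at h
    have := hp.out.dvd_of_dvd_pow h
    rw [Nat.prime_dvd_prime_iff_eq hp.out (Fact.out : q.Prime)] at this
    exact hqp this.symm
  have hshift := gaussSum_mulShift χ' ψ.char hunit.unit
  rw [hunit.unit_spec] at hshift
  rw [hpow, AddChar.pow_mulShift] at hfrob
  rw [← hfrob, ← hg] at hshift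
  have h1 : χ' ((q ^ n : ℕ) : ZMod p) * (g ^ 3) ^ m = 1 := by
    have h2 : g ^ (q ^ n) = (g ^ 3) ^ m * g := by
      conv_lhs => rw [← hN]
      rw [pow_succ, pow_mul]
    rw [h2] at hshift
    apply mul_right_cancel₀ hg0
    rw [one_mul, mul_assoc, hshift]
  rw [hg3] at h1
  apply hinj
  have e1 : algebraMap F' FF (χ ((q ^ n : ℕ) : ZMod p)) = χ' ((q ^ n : ℕ) : ZMod p) := rfl
  have e2 : algebraMap F' FF (p : F') = (p : FF) := map_natCast _ _
  rw [map_mul, map_pow, map_mul (algebraMap F' FF) (p : F') (jacobiSum χ χ), e1, e2,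
    ← jacobiSum_ringHomComp, map_one]
  exact h1

end Pool.Agent.Lib_helper18


end

section

/-!
# The basic relation between cubic residue symbols coming from Gauss sums
-/

namespace Pool.Agent.Lib_helper18

namespace Eis

/-- ring homomorphism out of the Eisenstein integers -/
def lift {R : Type*} [CommRing R] (t : R) (ht : t ^ 2 + t + 1 = 0) : Eis →+* R where
  toFun x := (x.re : R) + (x.im : R) * t
  map_one' := by simp
  map_mul' x y := by
    simp only [mul_re, mul_im]; push_cast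
    linear_combination (-(x.im : R) * y.im) * ht
  map_zero' := by simp
  map_add' x y := by simp only [add_re, add_im]; push_cast; ring

theorem lift_apply {R : Type*} [CommRing R] (t : R) (ht : t ^ 2 + t + 1 = 0) (x : Eis) :
    lift t ht x = (x.re : R) + (x.im : R) * t := rfl

theorem hom_apply {R : Type*} [CommRing R] (φ : Eis →+* R) (x : Eis) :
    φ x = (x.re : R) + (x.im : R) * φ w := by
  conv_lhs => rw [eq_re_add_im x]
  rw [map_add, map_mul, map_intCast, map_intCast]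

theorem hom_w {R : Type*} [CommRing R] (φ : Eis →+* R) : (φ w) ^ 2 + φ w + 1 = 0 := by
  rw [← map_pow, ← map_add, ← map_one φ, ← map_add, w_rel, map_zero]

theorem hom_three {R : Type*} [CommRing R] (φ : Eis →+* R) : φ 3 = 3 := by
  rw [three_eq_cast, map_intCast]; norm_num

theorem dvd_norm_self (x : Eis) : x ∣ (x.norm : Eis) := ⟨conj x, (mul_conj x).symm⟩

section split

variable {p : ℕ} [hp : Fact p.Prime] {π : Eis}

theorem prime_of_norm_eq (hπ : π.norm = p) : Prime π :=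
  prime_of_norm_prime (by rw [hπ]; exact Nat.prime_iff_prime_int.mp hp.out)

omit hp in
theorem dvd_p (hπ : π.norm = p) : π ∣ (p : Eis) := by
  have := dvd_norm_self π
  rw [hπ] at this
  exact_mod_cast this

omit hp in
theorem mul_conj_p (hπ : π.norm = p) : π * conj π = (p : Eis) := by
  rw [mul_conj, hπ]; simp

/-- the residue map at a split prime -/
theorem exists_hom (hπ : π.norm = p) : ∃ φ : Eis →+* ZMod p, ∀ x, φ x = 0 ↔ π ∣ x := by
  have hpr := prime_of_norm_eq hπ
  -- p does not divide im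
  have hb : (π.im : ZMod p) ≠ 0 := by
    intro h
    rw [ZMod.intCast_zmod_eq_zero_iff_dvd] at h
    obtain ⟨c, hc⟩ := h
    have h1 : (p : ℤ) ∣ π.re ^ 2 := by
      have : π.re ^ 2 = p - p * (p * c ^ 2) + π.re * (p * c) := by
        have := hπ
        rw [norm_def, hc] at this
        linear_combination this
      rw [this]
      exact dvd_add (dvd_sub dvd_rfl (dvd_mul_right _ _)) (Dvd.intro (π.re * c) (by ring))
    have h2 := (Nat.prime_iff_prime_int.mp hp.out).dvd_of_dvd_pow h1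
    obtain ⟨d, hd⟩ := h2
    have h3 : (p : ℤ) * p ∣ p := by
      refine ⟨d ^ 2 - d * c + c ^ 2, ?_⟩
      have := hπ
      rw [norm_def, hc, hd] at this
      linear_combination -this
    have h4 : (p : ℤ) ∣ 1 := by
      rcases h3 with ⟨e, he⟩
      refine ⟨e, ?_⟩
      have hp0 : (p : ℤ) ≠ 0 := by exact_mod_cast hp.out.ne_zero
      apply mul_left_cancel₀ hp0
      linear_combination he
    exact (Nat.prime_iff_prime_int.mp hp.out).not_dvd_one h4
  set t : ZMod p := -(π.re : ZMod p) * (π.im : ZMod p)⁻¹ with ht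
  have hrel : (π.re : ZMod p) + (π.im : ZMod p) * t = 0 := by
    rw [ht]; field_simp; ring
  have hn : (π.re : ZMod p) ^ 2 - π.re * π.im + (π.im : ZMod p) ^ 2 = 0 := by
    have := congrArg (Int.cast : ℤ → ZMod p) hπ
    rw [norm_def] at this
    push_cast at this
    rw [this]; simp
  have ht2 : t ^ 2 + t + 1 = 0 := by
    have h1 : (π.im : ZMod p) ^ 2 * (t ^ 2 + t + 1) = 0 := by
      have : (π.im : ZMod p) * t = -π.re := by linear_combination hrel
      linear_combination hn + (π.im * t - π.re + π.im) * hrel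
    exact (mul_eq_zero.mp h1).resolve_left (pow_ne_zero _ hb)
  refine ⟨lift t ht2, fun x => ?_⟩
  constructor
  · intro hx
    by_contra hd
    have hcop : IsCoprime π x := (hpr.irreducible.coprime_iff_not_dvd).mpr hd
    obtain ⟨u, v, huv⟩ := hcop
    have := congrArg (lift t ht2) huv
    rw [map_add, map_mul, map_mul, hx, map_one, mul_zero, add_zero] at this
    have h0 : lift t ht2 π = 0 := hrel
    rw [h0, mul_zero] at this
    exact zero_ne_one this
  · rintro ⟨y, rfl⟩
    have h0 : lift t ht2 π = 0 := hrel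
    rw [map_mul, h0, zero_mul]

theorem not_dvd_three (hπ : π.norm = p) (hp3 : p % 3 = 1) : ¬ π ∣ 3 := by
  intro h
  have h1 := (dvd_three_iff (prime_of_norm_eq hπ)).mp h
  have h2 : (3 : ℤ) ∣ π.norm := lam_dvd_iff_norm.mp h1.symm.dvd
  rw [hπ] at h2
  have : 3 ∣ p := by exact_mod_cast h2
  omega

theorem hom_w_primitive (hp3 : p % 3 = 1) (φ : Eis →+* ZMod p) :
    IsPrimitiveRoot (φ w) 3 := by
  have h1 : (φ w) ^ 3 = 1 := by rw [← map_pow, w_cube, map_one]
  have h2 : φ w ≠ 1 := by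
    intro h
    have := hom_w φ
    rw [h] at this
    have h3 : ((3 : ℕ) : ZMod p) = 0 := by push_cast; linear_combination this
    rw [ZMod.natCast_eq_zero_iff] at h3
    have h4 := (Nat.prime_dvd_prime_iff_eq hp.out Nat.prime_three).mp h3
    omega
  have := orderOf_eq_prime h1 h2
  rw [← this]
  exact IsPrimitiveRoot.orderOf _

theorem w_primitive : IsPrimitiveRoot w 3 := by
  have := orderOf_eq_prime w_cube (by decide)
  rw [← this]
  exact IsPrimitiveRoot.orderOf _

/-- the Eisenstein-integer valued cubic character at `π`, with its Jacobi sum -/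
theorem exists_cubic_char (hp3 : p % 3 = 1) (φ : Eis →+* ZMod p) :
    ∃ χ : MulChar (ZMod p) Eis, (∀ x : ZMod p, x ≠ 0 → φ (χ x) = x ^ ((p - 1) / 3)) ∧
      (∀ x : ZMod p, x ≠ 0 → ∃ i : ℕ, χ x = w ^ i) ∧ (∃ x : ZMod p, x ≠ 0 ∧ χ x = w) :=
  exists_mulChar φ w w_cube (hom_w_primitive hp3 φ) (by omega)

theorem char_cube {χ : MulChar (ZMod p) Eis}
    (h : ∀ x : ZMod p, x ≠ 0 → ∃ i : ℕ, χ x = w ^ i) : χ ^ 3 = 1 := by
  refine MulChar.ext fun x => ?_
  rw [MulChar.pow_apply_coe]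
  obtain ⟨i, hi⟩ := h x x.ne_zero
  rw [hi, ← pow_mul, mul_comm, pow_mul, w_cube, one_pow, MulChar.one_apply_coe]

theorem char_conj {χ : MulChar (ZMod p) Eis}
    (h : ∀ x : ZMod p, x ≠ 0 → ∃ i : ℕ, χ x = w ^ i) : χ.ringHomComp conj = χ⁻¹ := by
  have h3 : χ⁻¹ = χ ^ 2 := by
    rw [inv_eq_iff_mul_eq_one, ← pow_succ', char_cube h]
  rw [h3]
  refine MulChar.ext fun x => ?_
  rw [MulChar.ringHomComp_apply, MulChar.pow_apply_coe]
  obtain ⟨i, hi⟩ := h x x.ne_zero
  rw [hi, map_pow, conj_w, ← pow_mul, ← pow_mul, mul_comm]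

theorem char_ne_one {χ : MulChar (ZMod p) Eis}
    (h : ∃ x : ZMod p, x ≠ 0 ∧ χ x = w) : χ ≠ 1 := by
  rintro rfl
  obtain ⟨x, hx, hx2⟩ := h
  rw [MulChar.one_apply (isUnit_iff_ne_zero.mpr hx)] at hx2
  exact absurd hx2 (by decide)

theorem jacobi_mul_conj {χ : MulChar (ZMod p) Eis}
    (h : ∀ x : ZMod p, x ≠ 0 → ∃ i : ℕ, χ x = w ^ i) (h' : ∃ x : ZMod p, x ≠ 0 ∧ χ x = w) :
    jacobiSum χ χ * conj (jacobiSum χ χ) = (p : Eis) := by
  have : CharZero Eis := ⟨fun a b hab => by
    have := congrArg Eis.re hab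
    simpa using this⟩
  rw [← jacobiSum_ringHomComp, char_conj h]
  apply jacobiSum_mul_inv (char_ne_one h')
  intro h2
  have h3 := char_cube h
  have h4 : χ = 1 := by
    have : χ ^ 3 = χ * χ * χ := by rw [pow_succ, pow_two]
    rw [this, h2, one_mul] at h3
    exact h3
  exact char_ne_one h' h4

theorem jacobi_mod_three (hp3 : p % 3 = 1) {χ : MulChar (ZMod p) Eis}
    (h : ∀ x : ZMod p, x ≠ 0 → ∃ i : ℕ, χ x = w ^ i) :
    (3 : Eis) ∣ jacobiSum χ χ + 1 := by
  have h3 := char_cube h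
  have hdvd : 3 ∣ Fintype.card (ZMod p) - 1 := by rw [ZMod.card]; omega
  obtain ⟨z, -, hz⟩ := exists_jacobiSum_eq_neg_one_add (n := 3) (by norm_num : 2 < 3) (χ := χ)
    (ψ := χ) (μ := w) h3 h3 hdvd w_primitive
  refine ⟨z * (-w), ?_⟩
  rw [hz]
  have : (w - 1) ^ 2 = 3 * (-w) := by decide
  rw [this]; ring

theorem primary_unique {π u : Eis} (hu : IsUnit u) (h1 : (3 : ℤ) ∣ π.im) (h2 : ¬ (3 : ℤ) ∣ π.re)
    (h : (3 : Eis) ∣ π * u + 1 ∨ (3 : Eis) ∣ π * u - 1) : u = 1 ∨ u = -1 := by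
  have hd : (3 : ℤ) ∣ (π * u).im := by
    rw [three_dvd_iff, three_dvd_iff] at h
    rcases h with h | h
    · have := h.2
      rw [add_im, one_im, add_zero] at this
      exact this
    · have := h.2
      rw [sub_im, one_im, sub_zero] at this
      exact this
  clear h
  obtain ⟨i, hi, hu | hu⟩ := unit_cases hu
  · interval_cases i
    · left; rw [hu, pow_zero]
    · exfalso; rw [hu, pow_one, mul_im, w_re, w_im] at hd
      apply h2; omega
    · exfalso; rw [hu, w_sq, mul_im] at hd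
      simp only [sub_re, sub_im, neg_re, neg_im, one_re, one_im, w_re, w_im] at hd
      apply h2; omega
  · interval_cases i
    · right; rw [hu, pow_zero]
    · exfalso; rw [hu, pow_one, mul_im, neg_re, neg_im, w_re, w_im] at hd
      apply h2; omega
    · exfalso; rw [hu, w_sq, mul_im] at hd
      simp only [sub_re, sub_im, neg_re, neg_im, one_re, one_im, w_re, w_im] at hd
      apply h2; omega

omit hp in
theorem re_not_dvd (hp3 : p % 3 = 1) (hπ : π.norm = p) (h1 : (3 : ℤ) ∣ π.im) :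
    ¬ (3 : ℤ) ∣ π.re := by
  rintro ⟨c, hc⟩
  obtain ⟨d, hd⟩ := h1
  rw [norm_def, hc, hd] at hπ
  have : (3 : ℤ) ∣ p := ⟨3 * c ^ 2 - 3 * c * d + 3 * d ^ 2, by rw [← hπ]; ring⟩
  omega

/-- The Jacobi sum of the cubic character at `π` is `π` up to sign. -/
theorem jacobi_eq (hp3 : p % 3 = 1) (hπ : π.norm = p) (hprim : (3 : ℤ) ∣ π.im)
    (φ : Eis →+* ZMod p) (hφ : ∀ x, φ x = 0 ↔ π ∣ x) {χ : MulChar (ZMod p) Eis}
    (h1 : ∀ x : ZMod p, x ≠ 0 → φ (χ x) = x ^ ((p - 1) / 3))
    (h : ∀ x : ZMod p, x ≠ 0 → ∃ i : ℕ, χ x = w ^ i) (h' : ∃ x : ZMod p, x ≠ 0 ∧ χ x = w) :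
    jacobiSum χ χ = π ∨ jacobiSum χ χ = -π := by
  have hp2 := hp.out.two_le
  have hz : φ (jacobiSum χ χ) = 0 :=
    map_jacobiSum_eq_zero φ χ ((p - 1) / 3) (by omega) (by omega) h1
  rw [hφ] at hz
  obtain ⟨u, hu⟩ := hz
  have hJ := jacobi_mul_conj h h'
  have hpi := mul_conj_p hπ
  have hu1 : IsUnit u := by
    rw [isUnit_iff_norm]
    have := congrArg norm hJ
    rw [hu, norm_mul, norm_mul, norm_conj, norm_mul, hπ, norm_natCast] at this
    have hp0 : (p : ℤ) ≠ 0 := by exact_mod_cast hp.out.ne_zero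
    have h2 : u.norm ^ 2 = 1 := by
      apply mul_left_cancel₀ (pow_ne_zero 2 hp0)
      linear_combination this
    have := norm_nonneg u
    nlinarith
  have h3 := jacobi_mod_three hp3 h
  rw [hu] at h3
  rcases primary_unique hu1 hprim (re_not_dvd hp3 hπ hprim) (Or.inl h3) with h4 | h4
  · left; rw [hu, h4, mul_one]
  · right; rw [hu, h4]; ring

/-- **Lemma G**: the basic relation coming from Gauss sums. -/
theorem lemmaG (hp3 : p % 3 = 1) (hπ : π.norm = p) (hprim : (3 : ℤ) ∣ π.im) {l : Eis}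
    (hl : Prime l) (hl3 : ¬ l ∣ 3) (hlp : ¬ l ∣ (p : Eis)) :
    sym l π - sym l (conj π) = sym π ((N l : ℕ) : Eis) := by
  obtain ⟨φ, hφ⟩ := exists_hom hπ
  obtain ⟨χ, hχ1, hχ2, hχ3⟩ := exists_cubic_char hp3 φ
  have hJ := jacobi_eq hp3 hπ hprim φ hφ hχ1 hχ2 hχ3
  have hπ3 := not_dvd_three hπ hp3
  have hπpr := prime_of_norm_eq hπ
  have hpc := mul_conj_p hπ
  obtain ⟨q, hq, hlq, hn⟩ := exists_rational_prime hl
  have hqp : q ≠ p := by rintro rfl; exact hlp hlq
  have : Fact q.Prime := ⟨hq⟩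
  obtain ⟨n, hnN⟩ : ∃ n : ℕ, q ^ n = N l := by
    have := N_cast l
    rcases hn with hn | hn
    · refine ⟨1, ?_⟩
      rw [hn] at this
      rw [pow_one]; exact_mod_cast this.symm
    · refine ⟨2, ?_⟩
      rw [hn] at this
      exact_mod_cast this.symm
  -- the residue field
  let I : Ideal Eis := Ideal.span {l}
  have hI : I.IsPrime := (Ideal.span_singleton_prime hl.ne_zero).mpr hl
  have hI0 : I ≠ ⊥ := by
    intro h
    exact hl.ne_zero (Ideal.span_singleton_eq_bot.mp h)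
  have hImax : I.IsMaximal := IsPrime.to_maximal_ideal hI0
  let _ : Field (Eis ⧸ I) := Ideal.Quotient.field I
  let θ : Eis →+* Eis ⧸ I := Ideal.Quotient.mk I
  have hθ : ∀ x, θ x = 0 ↔ l ∣ x := fun x => by
    rw [Ideal.Quotient.eq_zero_iff_mem, Ideal.mem_span_singleton]
  have hchar : CharP (Eis ⧸ I) q := by
    have h0 : ((q : ℕ) : Eis ⧸ I) = 0 := by
      have := (hθ (q : Eis)).mpr hlq
      rwa [map_natCast] at this
    have := CharP.ringChar_of_prime_eq_zero hq h0
    rw [← this]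
    exact ringChar.charP _
  set χ' := χ.ringHomComp θ with hχ'
  have hord : orderOf χ' = 3 := by
    apply orderOf_eq_prime
    · rw [hχ', MulChar.ringHomComp_pow, char_cube hχ2, MulChar.ringHomComp_one]
    · intro h1
      obtain ⟨x, hx, hx2⟩ := hχ3
      have h2 : χ' x = 1 := by rw [h1]; exact MulChar.one_apply (isUnit_iff_ne_zero.mpr hx)
      rw [hχ', MulChar.ringHomComp_apply, hx2] at h2
      have h3 : θ (w - 1) = 0 := by rw [map_sub, h2, map_one, sub_self]
      rw [hθ] at h3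
      apply hl3
      refine h3.trans ⟨w ^ 2 - 1, by decide⟩
  have hkey := cubic_gauss (p := p) q hqp χ' hord n (by rw [hnN]; exact three_mul_div hl hl3)
  rw [hnN, hχ', jacobiSum_ringHomComp, MulChar.ringHomComp_apply] at hkey
  have hkey2 : θ (χ ((N l : ℕ) : ZMod p) * ((p : Eis) * jacobiSum χ χ) ^ ((N l - 1) / 3) - 1) = 0
      := by
    have e2 : θ (p : Eis) = ((p : ℕ) : Eis ⧸ I) := map_natCast _ _
    rw [map_sub, map_mul, map_pow, map_mul θ (p : Eis) (jacobiSum χ χ), e2, map_one, hkey,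
      sub_self]
  rw [hθ] at hkey2
  -- the value of χ at N l
  have hNp : ¬ π ∣ ((N l : ℕ) : Eis) := by
    intro h
    rw [← hφ, map_natCast, ZMod.natCast_eq_zero_iff, ← hnN] at h
    have := hp.out.dvd_of_dvd_pow h
    rw [Nat.prime_dvd_prime_iff_eq hp.out hq] at this
    exact hqp this.symm
  have hN0 : ((N l : ℕ) : ZMod p) ≠ 0 := by
    intro h
    apply hNp
    rw [← hφ, map_natCast, h]
  obtain ⟨i, hi⟩ := hχ2 _ hN0
  have hNpi : N π = p := by
    have := N_cast π
    rw [hπ] at this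
    exact_mod_cast this
  have hsym1 : (i : ZMod 3) = sym π ((N l : ℕ) : Eis) := by
    have h1 := hχ1 _ hN0
    have h2 := map_pow_eq hπpr hπ3 hNp φ ((hφ π).mpr dvd_rfl)
    rw [map_natCast, hNpi] at h2
    rw [h2, hi, ← map_pow, ← sub_eq_zero, ← map_sub, hφ] at h1
    have := w_pow_sub_dvd hπ3 h1
    rwa [ZMod.natCast_val, ZMod.cast_id', id] at this
  -- not divisible
  have hlπ : ¬ l ∣ π := fun h => hlp (h.trans (dvd_p hπ))
  have hlπ' : ¬ l ∣ conj π := fun h => hlp (h.trans (by rw [← hpc]; exact dvd_mul_left _ _))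
  have hlJ : sym l ((p : Eis) * jacobiSum χ χ) = 2 * sym l π + sym l (conj π) := by
    have e1 : sym l (jacobiSum χ χ) = sym l π := by
      rcases hJ with h | h
      · rw [h]
      · rw [h, sym_neg hl hl3 hlπ]
    have e2 : ¬ l ∣ jacobiSum χ χ := by
      rcases hJ with h | h
      · rw [h]; exact hlπ
      · rw [h]; rwa [dvd_neg]
    rw [sym_mul hl hl3 hlp e2, e1, ← hpc, sym_mul hl hl3 hlπ hlπ']
    ring
  have hlpJ : ¬ l ∣ (p : Eis) * jacobiSum χ χ := by
    intro h
    rcases hl.dvd_or_dvd h with h | h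
    · exact hlp h
    · rcases hJ with h2 | h2
      · rw [h2] at h; exact hlπ h
      · rw [h2, dvd_neg] at h; exact hlπ h
  have hs := sym_spec hl hl3 hlpJ
  rw [hi] at hkey2
  have h5 : l ∣ w ^ (i + (sym l ((p : Eis) * jacobiSum χ χ)).val) - w ^ 0 := by
    have e : w ^ (i + (sym l ((p : Eis) * jacobiSum χ χ)).val) - w ^ 0 =
      (w ^ i * ((p : Eis) * jacobiSum χ χ) ^ ((N l - 1) / 3) - 1) -
        w ^ i * (((p : Eis) * jacobiSum χ χ) ^ ((N l - 1) / 3) -
          w ^ (sym l ((p : Eis) * jacobiSum χ χ)).val) := by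
      rw [pow_add]; ring
    rw [e]
    exact dvd_sub hkey2 (dvd_mul_of_dvd_right hs _)
  have h6 := w_pow_sub_dvd hl3 h5
  push_cast at h6
  rw [ZMod.natCast_val, ZMod.cast_id', id, hlJ, hsym1] at h6
  have h3 : (3 : ZMod 3) = 0 := by decide
  linear_combination (-1 : ZMod 3) * h6 + sym l π * h3

end split

end Eis

end Pool.Agent.Lib_helper18


end

section

/-!
# Cubic reciprocity and the supplementary law
-/

namespace Pool.Agent.Lib_helper18

namespace Eis

/-- `wt n = (n - 1) / 3` modulo 3 -/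
def wt (n : ℤ) : ZMod 3 := (((n - 1) / 3 : ℤ) : ZMod 3)

theorem wt_eq {n k : ℤ} (h : n = 1 + 3 * k) : wt n = (k : ZMod 3) := by
  rw [wt, h]
  congr 1
  omega

theorem wt_mul {m n : ℤ} (hm : m % 3 = 1) (hn : n % 3 = 1) : wt (m * n) = wt m + wt n := by
  obtain ⟨a, ha⟩ : ∃ a, m = 1 + 3 * a := ⟨m / 3, by omega⟩
  obtain ⟨b, hb⟩ : ∃ b, n = 1 + 3 * b := ⟨n / 3, by omega⟩
  have h : m * n = 1 + 3 * (a + b + 3 * a * b) := by rw [ha, hb]; ring
  rw [wt_eq ha, wt_eq hb, wt_eq h]
  push_cast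
  have h3 : (3 : ZMod 3) = 0 := by decide
  rw [h3]; ring

theorem wt_one : wt 1 = 0 := by rw [wt]; norm_num

theorem sq_mod_three {n : ℤ} (h : ¬ (3 : ℤ) ∣ n) : n ^ 2 % 3 = 1 := by
  have : n % 3 = 1 ∨ n % 3 = 2 := by omega
  rcases this with h | h <;> simp [pow_two, Int.mul_emod, h]

theorem sym_w' {l : Eis} (hl : Prime l) (h3 : ¬ l ∣ 3) : sym l w = wt l.norm := by
  rw [sym_w hl h3, wt]
  have h1 := N_cast l
  have h2 := N_mod_three (not_lam_dvd_of_prime hl h3)
  have : ((((N l - 1) / 3 : ℕ) : ℤ)) = (l.norm - 1) / 3 := by rw [← h1]; omega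
  rw [← this]; push_cast; rfl

theorem not_dvd_conj_three {l : Eis} (h3 : ¬ l ∣ 3) : ¬ conj l ∣ 3 := fun h => h3 (by
  have := conj_dvd h
  rw [conj_conj] at this
  have e : conj 3 = 3 := conj_natCast 3
  rwa [e] at this)

/-- A prime of norm `q^2` above `q` is associated to `q`. -/
theorem associated_of_norm_sq {l : Eis} {q : ℕ} (hq : q.Prime) (h : l ∣ (q : Eis))
    (hn : l.norm = q ^ 2) : Associated l (q : Eis) := by
  obtain ⟨u, hu⟩ := h
  have h1 := congrArg norm hu
  rw [norm_mul, norm_natCast, hn] at h1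
  have hq0 : ((q : ℤ) ^ 2) ≠ 0 := by
    have := hq.ne_zero
    positivity
  have h2 : u.norm = 1 := by
    apply mul_left_cancel₀ hq0
    rw [← h1, mul_one]
  obtain ⟨v, rfl⟩ := isUnit_iff_norm.mpr h2
  exact ⟨v, hu.symm⟩

section split

variable {p : ℕ} [hp : Fact p.Prime] {π : Eis}

theorem dvd_intCast_iff (hπ : π.norm = p) {s : ℤ} : π ∣ (s : Eis) ↔ (p : ℤ) ∣ s := by
  obtain ⟨φ, hφ⟩ := exists_hom hπ
  rw [← hφ, map_intCast, ZMod.intCast_zmod_eq_zero_iff_dvd]

theorem dvd_natCast_iff (hπ : π.norm = p) {s : ℕ} : π ∣ (s : Eis) ↔ p ∣ s := by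
  obtain ⟨φ, hφ⟩ := exists_hom hπ
  rw [← hφ, map_natCast, ZMod.natCast_eq_zero_iff]

/-- A prime dividing `p` has norm `p`. -/
theorem norm_of_dvd_p (hπ : π.norm = p) {l : Eis} (hl : Prime l) (h : l ∣ (p : Eis)) :
    l.norm = p ∧ (Associated l π ∨ Associated l (conj π)) := by
  rw [← mul_conj_p hπ] at h
  rcases hl.dvd_or_dvd h with h | h
  · have := hl.associated_of_dvd (prime_of_norm_eq hπ) h
    refine ⟨?_, Or.inl this⟩
    obtain ⟨u, hu⟩ := this
    rw [← hπ, ← hu, norm_mul, isUnit_iff_norm.mp u.isUnit, mul_one]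
  · have := hl.associated_of_dvd (prime_conj (prime_of_norm_eq hπ)) h
    refine ⟨?_, Or.inr this⟩
    obtain ⟨u, hu⟩ := this
    have h5 : l.norm = (conj π).norm := by
      rw [← hu, norm_mul, isUnit_iff_norm.mp u.isUnit, mul_one]
    rw [h5, norm_conj, hπ]

/-- **Lemma S** on natural numbers. -/
theorem lemmaS_nat (hp3 : p % 3 = 1) (hπ : π.norm = p) (hprim : (3 : ℤ) ∣ π.im) (c : ZMod 3)
    (s : ℕ) (hs0 : s ≠ 0) (hs3 : ¬ 3 ∣ s) (hsp : ¬ p ∣ s)
    (H : ∀ l : Eis, Prime l → l ∣ (s : Eis) → sym l π - sym l (conj π) = c * wt l.norm) :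
    2 * sym π (s : Eis) = c * wt ((s : ℤ) ^ 2) := by
  have hπpr := prime_of_norm_eq hπ
  have hπ3 := not_dvd_three hπ hp3
  induction s using Nat.recOnMul with
  | zero => exact absurd rfl hs0
  | one =>
    rw [Nat.cast_one, Nat.cast_one, one_pow, wt_one, sym_one hπpr hπ3]; ring
  | prime q hq =>
    have hq3 : ¬ (3 : ℤ) ∣ q := by exact_mod_cast hs3
    have hnu : ¬ IsUnit (q : Eis) := by
      rw [isUnit_iff_norm, norm_natCast]
      intro h
      have := hq.two_le
      have h2 : (2 : ℤ) ≤ q := by exact_mod_cast this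
      nlinarith
    obtain ⟨l, hl, hlq⟩ := WfDvdMonoid.exists_irreducible_factor hnu (by
      intro h
      have := congrArg Eis.re h
      simp at this
      exact hq.ne_zero this)
    have hlp := hl.prime
    have hl3 : ¬ l ∣ 3 := by
      intro h
      have h1 := (dvd_three_iff hlp).mp h
      have h2 : lam ∣ (q : Eis) := h1.symm.dvd.trans hlq
      rw [lam_dvd_iff] at h2
      simp at h2
      exact hq3 h2
    have hlpp : ¬ l ∣ (p : Eis) := by
      intro h
      obtain ⟨h1, -⟩ := norm_of_dvd_p hπ hlp h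
      have h2 : (p : ℤ) ∣ ((q : Eis)).norm := by
        obtain ⟨m, hm⟩ := hlq
        rw [hm, norm_mul, h1]; exact dvd_mul_right _ _
      rw [norm_natCast] at h2
      have h3 := (Nat.prime_iff_prime_int.mp hp.out).dvd_of_dvd_pow h2
      exact hsp (by exact_mod_cast h3)
    have hG := lemmaG hp3 hπ hprim hlp hl3 hlpp
    rw [H l hlp hlq] at hG
    have hπq : ¬ π ∣ (q : Eis) := by rwa [dvd_natCast_iff hπ]
    -- norm of l
    obtain ⟨m, hm⟩ := hlq
    have hnorm : l.norm = q ∨ l.norm = q ^ 2 := by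
      obtain ⟨q', hq', hlq', hn'⟩ := exists_rational_prime hlp
      have : q' = q := by
        by_contra hne
        have hco : IsCoprime ((q' : ℕ) : ℤ) (q : ℤ) :=
          Nat.Coprime.isCoprime ((Nat.coprime_primes hq' hq).mpr hne)
        obtain ⟨u, v, huv⟩ := hco
        have h1 : ((u : Eis)) * (q' : Eis) + (v : Eis) * (q : Eis) = 1 := by
          have := congrArg (Int.cast : ℤ → Eis) huv
          push_cast at this; exact this
        have h2 : l ∣ 1 := by
          rw [← h1]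
          exact dvd_add (dvd_mul_of_dvd_right hlq' _) (dvd_mul_of_dvd_right ⟨m, hm⟩ _)
        exact hlp.not_isUnit (isUnit_of_dvd_one h2)
      rw [this] at hn'; exact hn'
    have hNl := N_cast l
    rcases hnorm with hn | hn
    · have hNq : N l = q := by
        have : (N l : ℤ) = q := by rw [hNl, hn]
        exact_mod_cast this
      have hq1 : (q : ℤ) % 3 = 1 := by
        have := norm_emod_three_of_not_lam_dvd (not_lam_dvd_of_prime hlp hl3)
        rwa [hn] at this
      rw [hNq, hn] at hG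
      rw [← hG, pow_two, wt_mul hq1 hq1]; ring
    · have hNq : N l = q ^ 2 := by
        have : (N l : ℤ) = q ^ 2 := by rw [hNl, hn]
        exact_mod_cast this
      rw [hNq, hn] at hG
      push_cast at hG
      rw [sym_pow hπpr hπ3 hπq] at hG
      rw [hG]; push_cast; rfl
  | mul a b iha ihb =>
    have ha0 : a ≠ 0 := by rintro rfl; simp at hs0
    have hb0 : b ≠ 0 := by rintro rfl; simp at hs0
    have ha3 : ¬ 3 ∣ a := fun h => hs3 (Dvd.dvd.mul_right h b)
    have hb3 : ¬ 3 ∣ b := fun h => hs3 (Dvd.dvd.mul_left h a)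
    have hap : ¬ p ∣ a := fun h => hsp (Dvd.dvd.mul_right h b)
    have hbp : ¬ p ∣ b := fun h => hsp (Dvd.dvd.mul_left h a)
    have h1 := iha ha0 ha3 hap (fun l hl hla => H l hl (by
      rw [Nat.cast_mul]; exact Dvd.dvd.mul_right hla _))
    have h2 := ihb hb0 hb3 hbp (fun l hl hla => H l hl (by
      rw [Nat.cast_mul]; exact Dvd.dvd.mul_left hla _))
    have ha3' : ¬ (3 : ℤ) ∣ a := by exact_mod_cast ha3
    have hb3' : ¬ (3 : ℤ) ∣ b := by exact_mod_cast hb3
    rw [Nat.cast_mul, sym_mul hπpr hπ3 (by rwa [dvd_natCast_iff hπ])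
      (by rwa [dvd_natCast_iff hπ]), mul_add, h1, h2, Nat.cast_mul, mul_pow,
      wt_mul (sq_mod_three ha3') (sq_mod_three hb3')]
    ring

/-- **Lemma S**. -/
theorem lemmaS (hp3 : p % 3 = 1) (hπ : π.norm = p) (hprim : (3 : ℤ) ∣ π.im) (c : ZMod 3)
    (s : ℤ) (hs3 : ¬ (3 : ℤ) ∣ s) (hsp : ¬ (p : ℤ) ∣ s)
    (H : ∀ l : Eis, Prime l → l ∣ (s : Eis) → sym l π - sym l (conj π) = c * wt l.norm) :
    2 * sym π (s : Eis) = c * wt (s ^ 2) := by
  have hπpr := prime_of_norm_eq hπ
  have hπ3 := not_dvd_three hπ hp3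
  have hs0 : s ≠ 0 := by rintro rfl; simp at hs3
  have key : ∀ n : ℕ, (s = n ∨ s = -n) → 2 * sym π (s : Eis) = c * wt (s ^ 2) := by
    intro n hn
    have hn0 : n ≠ 0 := by rintro rfl; simp at hn; exact hs0 hn
    have hn3 : ¬ 3 ∣ n := by
      intro h
      have : (3 : ℤ) ∣ n := by exact_mod_cast h
      rcases hn with hn | hn
      · rw [hn] at hs3; exact hs3 this
      · rw [hn, dvd_neg] at hs3; exact hs3 this
    have hnp : ¬ p ∣ n := by
      intro h
      have : (p : ℤ) ∣ n := by exact_mod_cast h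
      rcases hn with hn | hn
      · rw [hn] at hsp; exact hsp this
      · rw [hn, dvd_neg] at hsp; exact hsp this
    have h1 := lemmaS_nat hp3 hπ hprim c n hn0 hn3 hnp (fun l hl hln => H l hl (by
      rcases hn with hn | hn <;> rw [hn] <;> push_cast
      · exact hln
      · rwa [dvd_neg]))
    rcases hn with hn | hn
    · rw [hn]; push_cast; exact h1
    · rw [hn]; push_cast
      rw [sym_neg hπpr hπ3 (by rwa [dvd_natCast_iff hπ]), neg_pow]
      simpa using h1
  exact key s.natAbs (Int.natAbs_eq s)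

theorem trace_not_dvd (hp3 : p % 3 = 1) (hπ : π.norm = p) :
    ¬ (p : ℤ) ∣ 2 * π.re - π.im := by
  rintro ⟨k, hk⟩
  have hp2 := hp.out.two_le
  have h1 : (2 * π.re - π.im) ^ 2 = 4 * p - 3 * π.im ^ 2 := by
    rw [← hπ, norm_def]; ring
  have hp7 : (4 : ℤ) < p := by
    have : 4 < p := by
      by_contra h
      push Not at h
      have : p = 4 := by omega
      exact absurd hp.out (by rw [this]; norm_num)
    exact_mod_cast this
  rw [hk] at h1
  have hk0 : k = 0 := by
    by_contra hne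
    have : 1 ≤ k ^ 2 := by
      have : 0 < k ^ 2 := by positivity
      omega
    nlinarith [sq_nonneg π.im, mul_pos (by linarith : (0 : ℤ) < p) (by linarith : (0 : ℤ) < p)]
  rw [hk0] at h1
  have : (3 : ℤ) ∣ 4 * p := ⟨π.im ^ 2, by linarith⟩
  omega

theorem not_dvd_conj (hp3 : p % 3 = 1) (hπ : π.norm = p) : ¬ π ∣ conj π := by
  intro h
  have h1 : π ∣ ((2 * π.re - π.im : ℤ) : Eis) := by
    have e : ((2 * π.re - π.im : ℤ) : Eis) = π + conj π := by
      ext
      · simp only [intCast_re, add_re, conj_re]; ring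
      · simp only [intCast_im, add_im, conj_im]; ring
    rw [e]
    exact dvd_add dvd_rfl h
  rw [dvd_intCast_iff hπ] at h1
  exact trace_not_dvd hp3 hπ h1

/-- `π̄` is a cube modulo `π`. -/
theorem sym_conj_self (hp3 : p % 3 = 1) (hπ : π.norm = p) (hprim : (3 : ℤ) ∣ π.im) :
    sym π (conj π) = 0 := by
  have hπpr := prime_of_norm_eq hπ
  have hπ3 := not_dvd_three hπ hp3
  have hre := re_not_dvd hp3 hπ hprim
  have e : ((2 * π.re - π.im : ℤ) : Eis) = π + conj π := by
    ext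
    · simp only [intCast_re, add_re, conj_re]; ring
    · simp only [intCast_im, add_im, conj_im]; ring
  have h1 := lemmaS hp3 hπ hprim 0 (2 * π.re - π.im) (by omega) (trace_not_dvd hp3 hπ) (by
    intro l hl hls
    rw [e] at hls
    rw [zero_mul, sub_eq_zero]
    have hlc : ¬ l ∣ conj π := by
      intro h
      have h2 : l ∣ π := by
        have := dvd_sub hls h
        simpa using this
      have h3 := hl.associated_of_dvd hπpr h2
      exact not_dvd_conj hp3 hπ (h3.symm.dvd.trans h)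
    have hl3 : ¬ l ∣ 3 := by
      intro h
      have h1 := (dvd_three_iff hl).mp h
      have h2 : lam ∣ ((2 * π.re - π.im : ℤ) : Eis) := by rw [e]; exact h1.symm.dvd.trans hls
      rw [lam_dvd_iff] at h2
      simp only [intCast_re, intCast_im] at h2
      omega
    rw [← sym_neg hl hl3 hlc]
    apply sym_congr
    rw [sub_neg_eq_add]; exact hls)
  rw [zero_mul] at h1
  have h2 : sym π ((2 * π.re - π.im : ℤ) : Eis) = 0 := by
    generalize sym π ((2 * π.re - π.im : ℤ) : Eis) = x at h1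
    revert x; decide
  rw [← h2]
  apply sym_congr
  rw [e]; simp

end split

/-- a primary prime -/
def Prim (x : Eis) : Prop := (3 : ℤ) ∣ x.im ∧ ¬ (3 : ℤ) ∣ x.re

theorem Prim.unit {x u : Eis} (hx : Prim x) (hu : IsUnit u) (h : Prim (x * u)) :
    u = 1 ∨ u = -1 := by
  obtain ⟨h1, h2⟩ := hx
  obtain ⟨h3, h4⟩ := h
  obtain ⟨i, hi, hu | hu⟩ := unit_cases hu
  · interval_cases i
    · left; rw [hu, pow_zero]
    · exfalso; rw [hu, pow_one, mul_im, w_re, w_im] at h3
      apply h2; omega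
    · exfalso; rw [hu, w_sq, mul_im] at h3
      simp only [sub_re, sub_im, neg_re, neg_im, one_re, one_im, w_re, w_im] at h3
      apply h2; omega
  · interval_cases i
    · right; rw [hu, pow_zero]
    · exfalso; rw [hu, pow_one, mul_im, neg_re, neg_im, w_re, w_im] at h3
      apply h2; omega
    · exfalso; rw [hu, w_sq, mul_im] at h3
      simp only [sub_re, sub_im, neg_re, neg_im, one_re, one_im, w_re, w_im] at h3
      apply h2; omega

theorem Prim.conj {x : Eis} (hx : Prim x) : Prim (conj x) := by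
  obtain ⟨h1, h2⟩ := hx
  refine ⟨?_, ?_⟩
  · simpa using h1
  · simp only [conj_re]; omega

theorem prim_natCast {n : ℕ} (h : ¬ 3 ∣ n) : Prim (n : Eis) := by
  refine ⟨by simp, ?_⟩
  simp only [natCast_re]; exact_mod_cast h

theorem exists_prim {x : Eis} (hx : ¬ lam ∣ x) : ∃ i : ℕ, Prim (x * w ^ i) := by
  rw [lam_dvd_iff] at hx
  have h1 : x.re % 3 = 0 ∨ x.re % 3 = 1 ∨ x.re % 3 = 2 := by omega
  have h2 : x.im % 3 = 0 ∨ x.im % 3 = 1 ∨ x.im % 3 = 2 := by omega
  rcases h2 with h2 | h2 | h2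
  · refine ⟨0, ?_, ?_⟩ <;> simp only [pow_zero, mul_one] <;> omega
  all_goals
    rcases h1 with h1 | h1 | h1
    · refine ⟨2, ?_, ?_⟩ <;> rw [w_sq] <;>
        simp only [mul_im, mul_re, sub_re, sub_im, neg_re, neg_im, one_re, one_im, w_re, w_im] <;>
        omega
    · first
      | (exfalso; apply hx; omega)
      | (refine ⟨1, ?_, ?_⟩ <;> rw [pow_one] <;>
        simp only [mul_im, mul_re, w_re, w_im] <;> omega)
    · first
      | (exfalso; apply hx; omega)
      | (refine ⟨1, ?_, ?_⟩ <;> rw [pow_one] <;>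
        simp only [mul_im, mul_re, w_re, w_im] <;> omega)

section split

variable {p : ℕ} [hp : Fact p.Prime] {π : Eis}

/-- **Cubic reciprocity** with one of the primes split. -/
theorem recip (hp3 : p % 3 = 1) (hπ : π.norm = p) (hprim : (3 : ℤ) ∣ π.im) {l : Eis}
    (hl : Prime l) (hl3 : ¬ l ∣ 3) (hlprim : Prim l) (hne : ¬ Associated l π) :
    sym π l = sym l π := by
  have hπpr := prime_of_norm_eq hπ
  have hπ3 := not_dvd_three hπ hp3
  have hre := re_not_dvd hp3 hπ hprim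
  have hπprim : Prim π := ⟨hprim, hre⟩
  by_cases hlp : l ∣ (p : Eis)
  · obtain ⟨h1, h2⟩ := norm_of_dvd_p hπ hl hlp
    have h3 := h2.resolve_left hne
    obtain ⟨u, hu⟩ := h3
    have h4 : Prim (l * u) := by rw [hu]; exact hπprim.conj
    have h5 := hlprim.unit u.isUnit h4
    have h6 : sym π l = 0 := by
      have hs := sym_conj_self hp3 hπ hprim
      rcases h5 with h5 | h5
      · rw [h5, mul_one] at hu; rw [hu]; exact hs
      · rw [h5] at hu
        have : l = - conj π := by rw [← hu]; ring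
        rw [this, sym_neg hπpr hπ3 (not_dvd_conj hp3 hπ)]; exact hs
    have h7 : sym l π = 0 := by
      have h8 : Associated l (conj π) := ⟨u, hu⟩
      rw [sym_associated h8]
      have h9 := sym_conj hπpr hπ3 (not_dvd_conj hp3 hπ)
      rw [conj_conj, sym_conj_self hp3 hπ hprim, neg_zero] at h9
      exact h9
    rw [h6, h7]
  · have hG := lemmaG hp3 hπ hprim hl hl3 hlp
    obtain ⟨q, hq, hlq, hn⟩ := exists_rational_prime hl
    have hNl := N_cast l
    have hq3 : ¬ 3 ∣ q := by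
      intro h
      have := (Nat.prime_dvd_prime_iff_eq Nat.prime_three hq).mp h
      rw [← this] at hlq
      exact hl3 (by exact_mod_cast hlq)
    have hπq : ¬ π ∣ (q : Eis) := by
      rw [dvd_natCast_iff hπ]
      intro h
      have := (Nat.prime_dvd_prime_iff_eq hp.out hq).mp h
      rw [this] at hlp
      exact hlp hlq
    rcases hn with hn | hn
    · -- split
      have hNq : N l = q := by
        have : (N l : ℤ) = q := by rw [hNl, hn]
        exact_mod_cast this
      have hq1 : q % 3 = 1 := by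
        have := norm_emod_three_of_not_lam_dvd (not_lam_dvd_of_prime hl hl3)
        rw [hn] at this
        omega
      have : Fact q.Prime := ⟨hq⟩
      have hG2 := lemmaG hq1 hn hlprim.1 hπpr hπ3 hπq
      have hNπ : N π = p := by
        have := N_cast π
        rw [hπ] at this
        exact_mod_cast this
      rw [hNq] at hG
      rw [hNπ] at hG2
      have hlc := mul_conj_p hn
      have hπc := mul_conj_p hπ
      have n1 : ¬ π ∣ l := fun h => hπq (h.trans hlq)
      have n2 : ¬ π ∣ conj l := fun h => hπq (h.trans (by rw [← hlc]; exact dvd_mul_left _ _))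
      have n3 : ¬ l ∣ π := fun h => hlp (h.trans (dvd_p hπ))
      have n4 : ¬ l ∣ conj π := fun h => hlp (h.trans (by rw [← hπc]; exact dvd_mul_left _ _))
      rw [← hlc, sym_mul hπpr hπ3 n1 n2] at hG
      rw [← hπc, sym_mul hl hl3 n3 n4] at hG2
      have h3 : (3 : ZMod 3) = 0 := by decide
      linear_combination hG - hG2 + (sym π l - sym l π) * h3
    · -- inert
      have hNq : N l = q ^ 2 := by
        have : (N l : ℤ) = q ^ 2 := by rw [hNl, hn]
        exact_mod_cast this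
      have has := associated_of_norm_sq hq hlq hn
      obtain ⟨u, hu⟩ := has
      have hqprim : Prim (l * u) := by rw [hu]; exact prim_natCast hq3
      have hu1 := hlprim.unit u.isUnit hqprim
      rw [hNq] at hG
      push_cast at hG
      rw [sym_pow hπpr hπ3 hπq] at hG
      have n3 : ¬ l ∣ π := fun h => hlp (h.trans (dvd_p hπ))
      have has' : Associated (Eis.conj l) l := by
        have h1 : Associated l (q : Eis) := ⟨u, hu⟩
        have h2 : Associated (Eis.conj l) (q : Eis) := by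
          refine ⟨Units.map Eis.conj.toMonoidHom u, ?_⟩
          have := congrArg Eis.conj hu
          rw [map_mul, conj_natCast] at this
          exact this
        exact h2.trans h1.symm
      have hsc := sym_conj hl hl3 n3
      rw [sym_associated has'] at hsc
      have hlq' : sym π l = sym π (q : Eis) := by
        rcases hu1 with h | h
        · rw [h, mul_one] at hu; rw [hu]
        · rw [h] at hu
          have : l = -(q : Eis) := by rw [← hu]; ring
          rw [this, sym_neg hπpr hπ3 hπq]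
      rw [hlq']
      rw [hsc] at hG
      push_cast at hG
      have h3 : (3 : ZMod 3) = 0 := by decide
      linear_combination (1 : ZMod 3) * hG + sym π (q : Eis) * h3 - sym l π * h3

theorem sym_unit (hp9 : p % 9 = 1) (hπ : π.norm = p) {u : Eis} (hu : IsUnit u) :
    sym π u = 0 := by
  have hp3 : p % 3 = 1 := by omega
  have hπpr := prime_of_norm_eq hπ
  have hπ3 := not_dvd_three hπ hp3
  have hw : sym π w = 0 := by
    rw [sym_w' hπpr hπ3, hπ]
    have : (p : ℤ) = 1 + 3 * (3 * (p / 9 : ℤ)) := by omega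
    rw [wt_eq this]
    push_cast
    have h3 : (3 : ZMod 3) = 0 := by decide
    rw [h3]; ring
  have hwi : ∀ i : ℕ, sym π (w ^ i) = 0 := fun i => by
    rw [sym_pow hπpr hπ3 (not_dvd_of_isUnit hπpr isUnit_w), hw, mul_zero]
  obtain ⟨i, hi, hu | hu⟩ := unit_cases hu
  · rw [hu]; exact hwi i
  · rw [hu, sym_neg hπpr hπ3 (not_dvd_of_isUnit hπpr (isUnit_w.pow i))]; exact hwi i

/-- **Lemma R**. -/
theorem lemmaR (hp9 : p % 9 = 1) (hπ : π.norm = p) (hprim : (3 : ℤ) ∣ π.im) (c : ZMod 3)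
    (x : Eis) (hx0 : x ≠ 0) (hx3 : ¬ lam ∣ x) (hxπ : ¬ π ∣ x)
    (H : ∀ l : Eis, Prime l → l ∣ x → sym l π = c * wt l.norm) :
    sym π x = c * wt x.norm := by
  have hp3 : p % 3 = 1 := by omega
  have hπpr := prime_of_norm_eq hπ
  have hπ3 := not_dvd_three hπ hp3
  induction x using UniqueFactorizationMonoid.induction_on_prime with
  | h₁ => exact absurd rfl hx0
  | h₂ u hu => rw [sym_unit hp9 hπ hu, isUnit_iff_norm.mp hu, wt_one, mul_zero]
  | h₃ a l ha0 hl ih =>
    have hla : ¬ lam ∣ a := fun h => hx3 (Dvd.dvd.mul_left h l)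
    have hll : ¬ lam ∣ l := fun h => hx3 (Dvd.dvd.mul_right h a)
    have hπa : ¬ π ∣ a := fun h => hxπ (Dvd.dvd.mul_left h l)
    have hπl : ¬ π ∣ l := fun h => hxπ (Dvd.dvd.mul_right h a)
    have h1 := ih ha0 hla hπa (fun m hm hma => H m hm (Dvd.dvd.mul_left hma l))
    have hl3 : ¬ l ∣ 3 := fun h => hll ((dvd_three_iff hl).mp h).symm.dvd
    obtain ⟨i, hi⟩ := exists_prim hll
    have hass : Associated (l * w ^ i) l := ⟨(isUnit_w.pow i).unit⁻¹, by
      rw [mul_assoc]; simp⟩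
    have hl' : Prime (l * w ^ i) := (hass.symm.prime hl)
    have hl3' : ¬ (l * w ^ i) ∣ 3 := fun h => hl3 (hass.symm.dvd.trans h)
    have hne : ¬ Associated (l * w ^ i) π := fun h => hπl (h.symm.dvd.trans hass.dvd)
    have h2 := recip hp3 hπ hprim hl' hl3' hi hne
    rw [sym_associated hass, sym_mul hπpr hπ3 hπl (not_dvd_of_isUnit hπpr (isUnit_w.pow i)),
      sym_unit hp9 hπ (isUnit_w.pow i), add_zero, H l hl (dvd_mul_right _ _)] at h2
    rw [sym_mul hπpr hπ3 hπl hπa, h1, h2, norm_mul,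
      wt_mul (norm_emod_three_of_not_lam_dvd hll) (norm_emod_three_of_not_lam_dvd hla)]
    ring

end split

end Eis

end Pool.Agent.Lib_helper18


end

section

/-!
# The supplementary law for the prime above 3
-/

namespace Pool.Agent.Lib_helper18

namespace Eis

section split

variable {p : ℕ} [hp : Fact p.Prime] {π : Eis}

theorem four_lt (hp3 : p % 3 = 1) : (4 : ℤ) < p := by
  have hp2 := hp.out.two_le
  have : 4 < p := by
    by_contra h
    push Not at h
    have : p = 4 := by omega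
    exact absurd hp.out (by rw [this]; norm_num)
  exact_mod_cast this

theorem not_dvd_of_sq_le (hp3 : p % 3 = 1) {s : ℤ} (hs : s ^ 2 ≤ 4 * p) (hs0 : s ≠ 0) :
    ¬ (p : ℤ) ∣ s := by
  rintro ⟨k, hk⟩
  have h4 := four_lt hp3
  have hk0 : k ≠ 0 := by rintro rfl; simp at hk; exact hs0 hk
  have : 1 ≤ k ^ 2 := by
    have : 0 < k ^ 2 := by positivity
    omega
  rw [hk] at hs
  nlinarith [mul_pos (by linarith : (0 : ℤ) < p) (by linarith : (0 : ℤ) < p)]

/-- the supplementary law -/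
theorem sym_lam (hp3 : p % 3 = 1) (hπ : π.norm = p) {M : ℤ} (hM : π.im = 3 * M) :
    sym π lam = 2 * wt (π.re ^ 2) := by
  have hπpr := prime_of_norm_eq hπ
  have hπ3 := not_dvd_three hπ hp3
  have hprim : (3 : ℤ) ∣ π.im := ⟨M, hM⟩
  have hre := re_not_dvd hp3 hπ hprim
  obtain ⟨a, b⟩ := π
  simp only at hM hre hprim
  subst hM
  set π : Eis := ⟨a, 3 * M⟩ with hπdef
  show sym π lam = 2 * wt (a ^ 2)
  have hn : a ^ 2 - 3 * a * M + 9 * M ^ 2 = p := by
    have := hπ
    rw [norm_def] at this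
    simp only [hπdef] at this
    linear_combination this
  have hpos : (0 : ℤ) < p := by have := four_lt (hp := hp) hp3; linarith
  have ha0 : a ≠ 0 := by rintro rfl; simp at hre
  have hs3 : ¬ (3 : ℤ) ∣ a + 3 * M := by omega
  have hs0 : a + 3 * M ≠ 0 := by intro h; rw [h] at hs3; simp at hs3
  have hpa : ¬ (p : ℤ) ∣ a := not_dvd_of_sq_le hp3 (by
    nlinarith [sq_nonneg (a - 6 * M), sq_nonneg a]) ha0
  have hps : ¬ (p : ℤ) ∣ a + 3 * M := not_dvd_of_sq_le hp3 (by
    nlinarith [sq_nonneg (a - 3 * M), sq_nonneg a]) hs0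
  -- coprimality facts
  have hnoM : ∀ l : Eis, Prime l → ¬ (l ∣ π ∧ l ∣ conj π) := by
    rintro l hl ⟨h1, h2⟩
    have := hl.associated_of_dvd hπpr h1
    exact not_dvd_conj hp3 hπ (this.symm.dvd.trans h2)
  have eπ : π = (a : Eis) + ((3 * M : ℤ) : Eis) * w := by
    ext <;> simp only [hπdef, add_re, add_im, mul_re, mul_im, intCast_re, intCast_im, w_re, w_im]
      <;> ring
  have eπ' : conj π = (a : Eis) + ((3 * M : ℤ) : Eis) * w ^ 2 := by
    rw [eπ, map_add, map_mul, conj_intCast, conj_intCast, conj_w]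
  -- primes dividing a
  have hSa := lemmaS hp3 hπ hprim (-1) a hre hpa (by
    intro l hl hla
    have hl3 : ¬ l ∣ 3 := by
      intro h
      have h1 := (dvd_three_iff hl).mp h
      have h2 : lam ∣ (a : Eis) := h1.symm.dvd.trans hla
      rw [lam_dvd_iff] at h2
      simp only [intCast_re, intCast_im] at h2
      omega
    have hlM : ¬ l ∣ ((3 * M : ℤ) : Eis) := by
      intro h
      apply hnoM l hl
      rw [eπ', eπ]
      exact ⟨dvd_add hla (dvd_mul_of_dvd_left h _), dvd_add hla (dvd_mul_of_dvd_left h _)⟩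
    have e1 : sym l π = sym l (((3 * M : ℤ) : Eis) * w) := sym_congr (by rw [eπ]; simpa using hla)
    have e2 : sym l (conj π) = sym l (((3 * M : ℤ) : Eis) * w ^ 2) :=
      sym_congr (by rw [eπ']; simpa using hla)
    have hlw := not_dvd_of_isUnit hl isUnit_w
    have hlw2 := not_dvd_of_isUnit hl (isUnit_w.pow 2)
    rw [e1, e2, sym_mul hl hl3 hlM hlw, sym_mul hl hl3 hlM hlw2, sym_pow hl hl3 hlw,
      sym_w' hl hl3]
    push_cast; ring)
  have hSs := lemmaS hp3 hπ hprim 1 (a + 3 * M) hs3 hps (by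
    intro l hl hla
    have hl3 : ¬ l ∣ 3 := by
      intro h
      have h1 := (dvd_three_iff hl).mp h
      have h2 : lam ∣ ((a + 3 * M : ℤ) : Eis) := h1.symm.dvd.trans hla
      rw [lam_dvd_iff] at h2
      simp only [intCast_re, intCast_im] at h2
      omega
    have hla' : l ∣ (a : Eis) + ((3 * M : ℤ) : Eis) := by
      have e : ((a + 3 * M : ℤ) : Eis) = (a : Eis) + ((3 * M : ℤ) : Eis) := by push_cast; ring
      rwa [e] at hla
    have hlM : ¬ l ∣ ((3 * M : ℤ) : Eis) := by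
      intro h
      apply hnoM l hl
      have hla2 : l ∣ (a : Eis) := by
        have := dvd_sub hla' h
        simpa using this
      rw [eπ', eπ]
      exact ⟨dvd_add hla2 (dvd_mul_of_dvd_left h _), dvd_add hla2 (dvd_mul_of_dvd_left h _)⟩
    have hllam : ¬ l ∣ lam := fun h => hl3 (h.trans lam_dvd_three)
    have hlw := not_dvd_of_isUnit hl isUnit_w
    have hlw2 := not_dvd_of_isUnit hl (isUnit_w.pow 2)
    have e1 : sym l π = sym l (-(((3 * M : ℤ) : Eis) * lam)) := sym_congr (by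
      have e : π - -(((3 * M : ℤ) : Eis) * lam) = (a : Eis) + ((3 * M : ℤ) : Eis) := by
        rw [eπ, lam_eq]; ring
      rw [e]; exact hla')
    have e2 : sym l (conj π) = sym l (((3 * M : ℤ) : Eis) * lam * w ^ 2) := sym_congr (by
      have e : conj π - ((3 * M : ℤ) : Eis) * lam * w ^ 2 = (a : Eis) + ((3 * M : ℤ) : Eis) := by
        rw [eπ', lam_eq]
        have := w_cube
        linear_combination ((3 * M : ℤ) : Eis) * this
      rw [e]; exact hla')
    have hlMl : ¬ l ∣ ((3 * M : ℤ) : Eis) * lam := fun h => (hl.dvd_or_dvd h).elim hlM hllam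
    rw [e1, e2, sym_neg hl hl3 hlMl, sym_mul hl hl3 hlMl hlw2, sym_pow hl hl3 hlw,
      sym_w' hl hl3]
    push_cast
    have h3 : (3 : ZMod 3) = 0 := by decide
    linear_combination (-wt l.norm) * h3)
  -- relations at π
  have hπM : ¬ π ∣ ((3 * M : ℤ) : Eis) := by
    intro h
    have h1 : π ∣ (a : Eis) := by
      have : π ∣ π - ((3 * M : ℤ) : Eis) * w := dvd_sub dvd_rfl (dvd_mul_of_dvd_left h _)
      have e : π - ((3 * M : ℤ) : Eis) * w = (a : Eis) := by
        conv_lhs => rw [eπ]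
        ring
      rwa [e] at this
    rw [dvd_intCast_iff hπ] at h1
    exact hpa h1
  have hπw := not_dvd_of_isUnit hπpr isUnit_w
  have hπlam : ¬ π ∣ lam := fun h => hπ3 (h.trans lam_dvd_three)
  have r1 : sym π (a : Eis) = sym π ((3 * M : ℤ) : Eis) + sym π w := by
    rw [← sym_mul hπpr hπ3 hπM hπw, ← sym_neg hπpr hπ3 (x := ((3 * M : ℤ) : Eis) * w)
      (fun h => (hπpr.dvd_or_dvd h).elim hπM hπw)]
    apply sym_congr
    have e : (a : Eis) - -(((3 * M : ℤ) : Eis) * w) = π := by rw [eπ]; ring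
    rw [e]
  have r2 : sym π ((a + 3 * M : ℤ) : Eis) = sym π ((3 * M : ℤ) : Eis) + sym π lam := by
    rw [← sym_mul hπpr hπ3 hπM hπlam]
    apply sym_congr
    have e : ((a + 3 * M : ℤ) : Eis) - ((3 * M : ℤ) : Eis) * lam = π := by
      rw [eπ, lam_eq]; push_cast; ring
    rw [e]
  have r3 : sym π w = wt p := by rw [sym_w' hπpr hπ3, hπ]
  -- weights
  obtain ⟨α, hα⟩ : ∃ α, a ^ 2 = 1 + 3 * α := ⟨a ^ 2 / 3, by
    have := sq_mod_three hre; omega⟩
  have w1 : wt (a ^ 2) = (α : ZMod 3) := wt_eq hα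
  have w2 : wt ((a + 3 * M) ^ 2) = ((α + 2 * a * M + 3 * M ^ 2 : ℤ) : ZMod 3) :=
    wt_eq (by linear_combination hα)
  have w3 : wt p = ((α - a * M + 3 * M ^ 2 : ℤ) : ZMod 3) :=
    wt_eq (by rw [← hn]; linear_combination hα)
  rw [w1]
  rw [w1] at hSa
  rw [w2] at hSs
  rw [w3] at r3
  push_cast at hSa hSs r3
  have h3 : (3 : ZMod 3) = 0 := by decide
  have h2 : 2 * sym π lam = (α : ZMod 3) := by
    push_cast at r1 r2
    linear_combination hSs - hSa - 2 * r2 + 2 * r1 + 2 * r3 + (α + 3 * M ^ 2) * h3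
  linear_combination 2 * h2 - sym π lam * h3

/-- the supplementary law for `p ≡ 1` modulo 9 -/
theorem sym_lam' (hp9 : p % 9 = 1) (hπ : π.norm = p) {M : ℤ} (hM : π.im = 3 * M) :
    sym π lam = 2 * ((π.re * M : ℤ) : ZMod 3) := by
  have hp3 : p % 3 = 1 := by omega
  rw [sym_lam hp3 hπ hM]
  congr 1
  obtain ⟨k, hk⟩ : ∃ k : ℤ, (p : ℤ) = 1 + 9 * k := ⟨p / 9, by omega⟩
  have hn : π.re ^ 2 - 3 * π.re * M + 9 * M ^ 2 = p := by
    rw [← hπ, norm_def, hM]; ring
  have h1 : π.re ^ 2 = 1 + 3 * (π.re * M + 3 * k - 3 * M ^ 2) := by linear_combination hn + hk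
  rw [wt_eq h1]
  push_cast
  have h3 : (3 : ZMod 3) = 0 := by decide
  linear_combination (k - M ^ 2 : ZMod 3) * h3

end split

end Eis

end Pool.Agent.Lib_helper18


end

section

/-!
# The two cases in which `p` divides the norm factor
-/

namespace Pool.Agent.Lib_helper18

/-- roots of order dividing `p - 1` -/
theorem exists_root {p : ℕ} [hp : Fact p.Prime] {n k : ℕ} (hn : p - 1 = n * k) {x : ZMod p}
    (hx : x ≠ 0) (h : x ^ k = 1) : ∃ y : ZMod p, y ^ n = x := by
  obtain ⟨g, hg⟩ := IsCyclic.exists_generator (α := (ZMod p)ˣ)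
  have hord : orderOf g = p - 1 := by
    rw [orderOf_eq_card_of_forall_mem_zpowers hg, Nat.card_eq_fintype_card,
      ZMod.card_units_eq_totient, Nat.totient_prime hp.out]
  have hp2 := hp.out.two_le
  obtain ⟨j, hj⟩ : ∃ j : ℕ, g ^ j = Units.mk0 x hx :=
    (mem_powers_iff_mem_zpowers (x := g) (y := Units.mk0 x hx)).mpr (hg _)
  have hx' : x = (g : ZMod p) ^ j := by
    have := congrArg Units.val hj
    simpa using this.symm
  have h1 : g ^ (j * k) = 1 := by
    ext
    push_cast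
    rw [pow_mul, ← hx', h]
  rw [← orderOf_dvd_iff_pow_eq_one, hord, hn] at h1
  have hk : 0 < k := by
    rcases Nat.eq_zero_or_pos k with h | h
    · rw [h] at hn; omega
    · exact h
  have h2 : n ∣ j := Nat.dvd_of_mul_dvd_mul_right hk h1
  obtain ⟨i, rfl⟩ := h2
  exact ⟨(g : ZMod p) ^ i, by rw [hx', ← pow_mul, mul_comm]⟩

namespace Eis

/-- square root of `-3` -/
def r3 : Eis := w * lam

theorem r3_sq : r3 ^ 2 = -3 := by decide
theorem r3_eq : r3 = w - w ^ 2 := by decide
theorem conj_r3 : conj r3 = -r3 := by decide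

theorem Prim.mul {x y : Eis} (hx : Prim x) (hy : Prim y) : Prim (x * y) := by
  obtain ⟨⟨a, ha⟩, h2⟩ := hx
  obtain ⟨⟨b, hb⟩, h4⟩ := hy
  refine ⟨?_, ?_⟩
  · rw [mul_im, ha, hb]
    exact ⟨x.re * b + a * y.re - 3 * a * b, by ring⟩
  · rw [mul_re, ha, hb]
    intro h
    have h5 : (3 : ℤ) ∣ x.re * y.re := by
      have : x.re * y.re = (x.re * y.re - 3 * a * (3 * b)) + 3 * (3 * a * b) := by ring
      rw [this]
      exact dvd_add h (dvd_mul_right _ _)
    rcases Int.prime_three.dvd_or_dvd h5 with h | h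
    · exact h2 h
    · exact h4 h

theorem prim_one : Prim 1 := ⟨by simp, by simp⟩

theorem Prim.pow {x : Eis} (hx : Prim x) (n : ℕ) : Prim (x ^ n) := by
  induction n with
  | zero => rw [pow_zero]; exact prim_one
  | succ n ih => rw [pow_succ]; exact ih.mul hx

theorem Prim.not_lam_dvd {x : Eis} (hx : Prim x) : ¬ lam ∣ x := by
  rw [lam_dvd_iff]
  have h1 := hx.1
  have h2 := hx.2
  omega

theorem Prim.neg {x : Eis} (hx : Prim x) : Prim (-x) := by
  refine ⟨?_, ?_⟩
  · simpa using hx.1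
  · simpa using hx.2

/-- cubes of elements prime to 3 are `±1` modulo 9 -/
theorem cube_mod_nine {x : Eis} (hx : ¬ lam ∣ x) :
    ∃ C : ℤ, (C = 1 ∨ C = -1) ∧ ∃ y : Eis, x ^ 3 = (C : Eis) + 9 * y := by
  obtain ⟨i, hi⟩ := exists_prim hx
  have h1 : x ^ 3 = (x * w ^ i) ^ 3 := by
    rw [mul_pow, ← pow_mul, mul_comm i, pow_mul, w_cube, one_pow, mul_one]
  obtain ⟨⟨d, hd⟩, hc⟩ := hi
  set δ := x * w ^ i with hδ
  have h2 : δ = (δ.re : Eis) + 3 * ((d : Eis) * w) := by
    conv_lhs => rw [eq_re_add_im δ, hd]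
    push_cast; ring
  have h3 : ∃ C : ℤ, (C = 1 ∨ C = -1) ∧ ∃ b : ℤ, δ.re ^ 3 = C + 9 * b := by
    generalize δ.re = c at hc
    have : c % 3 = 1 ∨ c % 3 = 2 := by omega
    rcases this with h | h
    · obtain ⟨u, hu⟩ : ∃ u, c = 1 + 3 * u := ⟨c / 3, by omega⟩
      exact ⟨1, Or.inl rfl, u + 3 * u ^ 2 + 3 * u ^ 3, by rw [hu]; ring⟩
    · obtain ⟨u, hu⟩ : ∃ u, c = -1 + 3 * u := ⟨(c + 1) / 3, by omega⟩
      exact ⟨-1, Or.inr rfl, u - 3 * u ^ 2 + 3 * u ^ 3, by rw [hu]; ring⟩
  obtain ⟨C, hC, b, hb⟩ := h3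
  refine ⟨C, hC, (b : Eis) + ((δ.re : Eis) ^ 2 * ((d : Eis) * w) +
    3 * (δ.re : Eis) * ((d : Eis) * w) ^ 2 + 3 * ((d : Eis) * w) ^ 3), ?_⟩
  have hb' : (δ.re : Eis) ^ 3 = (C : Eis) + 9 * (b : Eis) := by
    have := congrArg (Int.cast : ℤ → Eis) hb
    push_cast at this; exact this
  rw [h1]
  conv_lhs => rw [h2]
  linear_combination hb'

section split

variable {p : ℕ} [hp : Fact p.Prime] {π : Eis}

/-- The value of `π` modulo its conjugate. -/
theorem hom_pi (φ : Eis →+* ZMod p) (hφ : ∀ x, φ x = 0 ↔ conj π ∣ x) {M : ℤ}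
    (hM : π.im = 3 * M) : φ π = -((φ r3) ^ 3 * (M : ZMod p)) := by
  have h1 : φ (conj π) = 0 := (hφ _).mpr dvd_rfl
  have h2 : π - conj π = 3 * (M : Eis) * r3 := by
    rw [r3_eq]
    have h3 : π = (π.re : Eis) + 3 * (M : Eis) * w := by
      conv_lhs => rw [eq_re_add_im π, hM]
      push_cast; ring
    have h4 : conj π = (π.re : Eis) + 3 * (M : Eis) * w ^ 2 := by
      conv_lhs => rw [h3]
      rw [map_add, map_mul, map_mul, conj_w, conj_intCast, conj_intCast]
      have : conj 3 = 3 := conj_natCast 3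
      rw [this]
    linear_combination h3 - h4
  have h5 := congrArg φ h2
  rw [map_sub, h1, sub_zero, map_mul, map_mul, map_intCast] at h5
  have h6 : (φ r3) ^ 2 = -3 := by rw [← map_pow, r3_sq, map_neg, hom_three]
  rw [h5, hom_three]
  linear_combination ((M : ZMod p) * φ r3) * h6

omit hp in
theorem conj_norm (hπ : π.norm = p) : (conj π).norm = p := by rw [norm_conj, hπ]

theorem sym_rat_conj (hp3 : p % 3 = 1) (hπ : π.norm = p) {s : ℤ} (hs : ¬ (p : ℤ) ∣ s) :
    sym (conj π) (s : Eis) = - sym π (s : Eis) := by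
  have h1 : ¬ π ∣ (s : Eis) := by rwa [dvd_intCast_iff hπ]
  have := sym_conj (prime_of_norm_eq hπ) (not_dvd_three hπ hp3) h1
  rwa [conj_intCast] at this

theorem conj_im_dvd (hprim : (3 : ℤ) ∣ π.im) : (3 : ℤ) ∣ (conj π).im := by
  rw [conj_im, dvd_neg]; exact hprim

/-- Case I-a. -/
theorem caseIa (hp9 : p % 9 = 1) (hπ : π.norm = p) {M : ℤ} (hM : π.im = 3 * M)
    (φ : Eis →+* ZMod p) (hφ : ∀ x, φ x = 0 ↔ conj π ∣ x)
    {e : ℕ} (he : e = 1 ∨ e = 2) {γ η : Eis} (hη : η = π ^ e * γ ^ 3) (hγ3 : ¬ lam ∣ γ)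
    (hcop : IsCoprime η (conj η)) {s : ℤ} (hs : η - conj η = 3 * r3 * (s : Eis) ^ 3) :
    ∃ τ : ZMod p, τ ^ 9 = (M : ZMod p) ^ e * (φ r3) ^ (3 * (e - 1)) := by
  have hp3 : p % 3 = 1 := by omega
  have hprim : (3 : ℤ) ∣ π.im := ⟨M, hM⟩
  have hπpr := prime_of_norm_eq hπ
  have hπ3 := not_dvd_three hπ hp3
  have hπc := conj_norm hπ
  have hπcpr := prime_of_norm_eq hπc
  have hπc3 := not_dvd_three hπc hp3
  have hcprim := conj_im_dvd hprim
  have hnc := not_dvd_conj hp3 hπ
  have hnc' : ¬ conj π ∣ π := by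
    have := not_dvd_conj hp3 hπc
    rwa [conj_conj] at this
  have hcopp : ∀ l : Eis, Prime l → ¬ (l ∣ η ∧ l ∣ conj η) := by
    rintro l hl ⟨h1, h2⟩
    exact hl.not_isUnit (hcop.isUnit_of_dvd' h1 h2)
  have hce : conj η = conj π ^ e * conj γ ^ 3 := by rw [hη, map_mul, map_pow, map_pow]
  have he0 : e ≠ 0 := by omega
  have hγ0 : γ ≠ 0 := by
    rintro rfl
    exact hγ3 (dvd_zero _)
  -- conj π does not divide γ and s
  have hcπη : conj π ∣ conj η := by
    rw [hce]; exact Dvd.dvd.mul_right (dvd_pow_self _ he0) _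
  have hcγ : ¬ conj π ∣ γ := by
    intro h
    refine hcopp _ hπcpr ⟨?_, hcπη⟩
    rw [hη]
    exact Dvd.dvd.mul_left (Dvd.dvd.pow h (by norm_num)) _
  have hps : ¬ (p : ℤ) ∣ s := by
    intro h
    have h1 : conj π ∣ (s : Eis) := by rwa [dvd_intCast_iff hπc]
    have h2 : conj π ∣ η := by
      have : η = conj η + 3 * r3 * (s : Eis) ^ 3 := by rw [← hs]; ring
      rw [this]
      exact dvd_add hcπη (Dvd.dvd.mul_left (Dvd.dvd.pow h1 (by norm_num)) _)
    exact hcopp _ hπcpr ⟨h2, hcπη⟩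
  -- symbols of s
  have hsymη : ∀ l : Eis, Prime l → ¬ l ∣ 3 → ¬ l ∣ η → sym l η = e * sym l π := by
    intro l hl hl3 hlη
    have h1 : ¬ l ∣ π := fun h => hlη (by
      rw [hη]; exact Dvd.dvd.mul_right (Dvd.dvd.pow h he0) _)
    have h2 : ¬ l ∣ γ := fun h => hlη (by
      rw [hη]; exact Dvd.dvd.mul_left (Dvd.dvd.pow h (by norm_num)) _)
    rw [hη, sym_mul hl hl3 (fun h => h1 (hl.dvd_of_dvd_pow h))
      (fun h => h2 (hl.dvd_of_dvd_pow h)), sym_cube hl hl3 h2, sym_pow hl hl3 h1, add_zero]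
  have hsymη' : ∀ l : Eis, Prime l → ¬ l ∣ 3 → ¬ l ∣ conj η →
      sym l (conj η) = e * sym l (conj π) := by
    intro l hl hl3 hlη
    have h1 : ¬ l ∣ conj π := fun h => hlη (by
      rw [hce]; exact Dvd.dvd.mul_right (Dvd.dvd.pow h he0) _)
    have h2 : ¬ l ∣ conj γ := fun h => hlη (by
      rw [hce]; exact Dvd.dvd.mul_left (Dvd.dvd.pow h (by norm_num)) _)
    rw [hce, sym_mul hl hl3 (fun h => h1 (hl.dvd_of_dvd_pow h))
      (fun h => h2 (hl.dvd_of_dvd_pow h)), sym_cube hl hl3 h2, sym_pow hl hl3 h1, add_zero]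
  have hee : ∀ x : ZMod 3, (e : ZMod 3) * x = 0 → x = 0 := by
    rcases he with rfl | rfl
    · intro x; simp
    · intro x; push_cast; revert x; decide
  have hSprime : ∀ l : Eis, Prime l → ¬ l ∣ 3 → l ∣ (s : Eis) →
      sym l π - sym l (conj π) = 0 := by
    intro l hl hl3 hls
    have h1 : l ∣ η - conj η := by
      rw [hs]; exact Dvd.dvd.mul_left (Dvd.dvd.pow hls (by norm_num)) _
    have h2 : ¬ l ∣ η := by
      intro h
      refine hcopp l hl ⟨h, ?_⟩
      have := dvd_sub h h1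
      simpa using this
    have h3 : ¬ l ∣ conj η := by
      intro h
      refine h2 ?_
      have := dvd_add h1 h
      simpa using this
    have h4 := sym_congr h1
    rw [hsymη l hl hl3 h2, hsymη' l hl hl3 h3] at h4
    apply hee
    rw [mul_sub, h4, sub_self]
  have hs0 : s ≠ 0 := by rintro rfl; simp at hps
  have hsS : sym π (s : Eis) = 0 := by
    obtain ⟨k, s', hs'3, hss⟩ : ∃ k : ℕ, ∃ s' : ℤ, ¬ (3 : ℤ) ∣ s' ∧ s = 3 ^ k * s' := by
      obtain ⟨k, s', h1, h2⟩ := WfDvdMonoid.max_power_factor hs0 Int.prime_three.irreducible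
      exact ⟨k, s', h1, h2⟩
    have hps' : ¬ (p : ℤ) ∣ s' := fun h => hps (by rw [hss]; exact Dvd.dvd.mul_left h _)
    have hπs' : ¬ π ∣ (s' : Eis) := by rwa [dvd_intCast_iff hπ]
    have h1 := lemmaS hp3 hπ hprim 0 s' hs'3 hps' (by
      intro l hl hls
      rw [zero_mul]
      have hl3 : ¬ l ∣ 3 := by
        intro h
        have h1 := (dvd_three_iff hl).mp h
        have h2 : lam ∣ (s' : Eis) := h1.symm.dvd.trans hls
        rw [lam_dvd_iff] at h2
        simp only [intCast_re, intCast_im, add_zero] at h2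
        exact hs'3 h2
      apply hSprime l hl hl3
      rw [hss]; push_cast
      exact Dvd.dvd.mul_left hls _)
    rw [zero_mul] at h1
    have h2 : sym π (s' : Eis) = 0 := by
      generalize sym π (s' : Eis) = x at h1
      revert x; decide
    rcases Nat.eq_zero_or_pos k with hk | hk
    · rw [hss, hk, pow_zero, one_mul]; exact h2
    · -- 3 divides s, hence M
      have h3s : (3 : ℤ) ∣ s := by
        rw [hss]; exact Dvd.dvd.mul_right (dvd_pow_self _ (by omega)) _
      have h3M : (3 : ℤ) ∣ M := by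
        obtain ⟨C, hC, y, hy⟩ := cube_mod_nine hγ3
        obtain ⟨c, hc⟩ := h3s
        have hre := re_not_dvd hp3 hπ hprim
        -- η - conj η is divisible by 81
        have h4 : η.im = 3 * (s ^ 3) := by
          have h5 := congrArg Eis.im hs
          have h6 : (3 * r3 * (s : Eis) ^ 3).im = 6 * s ^ 3 := by
            have : (3 * r3 * (s : Eis) ^ 3) = ((s ^ 3 : ℤ) : Eis) * ⟨3, 6⟩ := by
              have : (3 * r3 : Eis) = ⟨3, 6⟩ := by decide
              rw [this]; push_cast; ring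
            rw [this, mul_im, intCast_re, intCast_im]; ring
          rw [h6] at h5
          simp only [sub_im, conj_im] at h5
          linarith
        rw [hc] at h4
        have h7 : (9 : ℤ) ∣ η.im := ⟨9 * c ^ 3, by rw [h4]; ring⟩
        -- η = C π^e mod 9
        have h8 : η = (C : Eis) * π ^ e + 9 * (π ^ e * y) := by
          rw [hη, hy]; ring
        have h9 : (9 * (π ^ e * y) : Eis).im = 9 * (π ^ e * y).im := by
          have : (9 : Eis) = ((9 : ℤ) : Eis) := by ext <;> simp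
          rw [this, mul_im, intCast_re, intCast_im]; ring
        have h10 : (9 : ℤ) ∣ C * (π ^ e).im := by
          have := congrArg Eis.im h8
          rw [add_im, h9, mul_im, intCast_re, intCast_im] at this
          have h11 : C * (π ^ e).im = η.im - 9 * (π ^ e * y).im := by rw [this]; ring
          rw [h11]
          exact dvd_sub h7 (dvd_mul_right _ _)
        have h11 : (9 : ℤ) ∣ (π ^ e).im := by
          rcases hC with h | h <;> rw [h] at h10
          · simpa using h10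
          · simpa using h10
        rcases he with h | h
        · rw [h, pow_one, hM] at h11
          omega
        · rw [h, pow_two, mul_im, hM] at h11
          have : (9 : ℤ) ∣ 6 * (π.re * M) := by
            have h12 : 6 * (π.re * M) = (π.re * (3 * M) + 3 * M * π.re - 3 * M * (3 * M))
              + 9 * M ^ 2 := by ring
            rw [h12]
            exact dvd_add h11 (dvd_mul_right _ _)
          have h13 : (3 : ℤ) ∣ π.re * M := by omega
          exact (Int.prime_three.dvd_or_dvd h13).resolve_left hre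
      have hlam : sym π lam = 0 := by
        rw [sym_lam' hp9 hπ hM]
        obtain ⟨c, hc⟩ := h3M
        rw [hc]
        push_cast
        have h3 : (3 : ZMod 3) = 0 := by decide
        rw [h3]; ring
      have hπlam : ¬ π ∣ lam := fun h => hπ3 (h.trans lam_dvd_three)
      have h3' : sym π 3 = 0 := by
        rw [three_eq, sym_mul hπpr hπ3 (not_dvd_of_isUnit hπpr (isUnit_w.pow 2).neg)
          (fun h => hπlam (hπpr.dvd_of_dvd_pow h)), sym_unit hp9 hπ (isUnit_w.pow 2).neg,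
          sym_pow hπpr hπ3 hπlam, hlam]
        ring
      rw [hss]; push_cast
      rw [sym_mul hπpr hπ3 (fun h => hπ3 (hπpr.dvd_of_dvd_pow h)) hπs',
        sym_pow hπpr hπ3 hπ3, h3', h2]
      ring
  have hsS' : sym (conj π) (s : Eis) = 0 := by rw [sym_rat_conj hp3 hπ hps, hsS, neg_zero]
  -- symbol of γ
  have hγS : sym (conj π) γ = 0 := by
    have := lemmaR hp9 hπc hcprim 0 γ hγ0 hγ3 hcγ (by
      intro l hl hlγ
      rw [zero_mul]
      have hl3 : ¬ l ∣ 3 := fun h => hγ3 (((dvd_three_iff hl).mp h).symm.dvd.trans hlγ)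
      have hlη : l ∣ η := by
        rw [hη]; exact Dvd.dvd.mul_left (Dvd.dvd.pow hlγ (by norm_num)) _
      have hlη' : ¬ l ∣ conj η := fun h => hcopp l hl ⟨hlη, h⟩
      have e1 : 3 * r3 * (s : Eis) ^ 3 = -(r3 * (s : Eis)) ^ 3 := by
        linear_combination (r3 * (s : Eis) ^ 3) * r3_sq
      have h1 : l ∣ conj η - (r3 * (s : Eis)) ^ 3 := by
        have e2 : conj η - (r3 * (s : Eis)) ^ 3 = η := by
          rw [e1] at hs
          linear_combination (-1 : Eis) * hs
        rw [e2]; exact hlη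
      have h2 := sym_congr h1
      have h3 : ¬ l ∣ r3 * (s : Eis) := by
        intro h
        apply hlη'
        have h4 : l ∣ (r3 * (s : Eis)) ^ 3 := Dvd.dvd.pow h (by norm_num)
        have := dvd_add h1 h4
        simpa using this
      rw [sym_cube hl hl3 h3, hsymη' l hl hl3 hlη'] at h2
      exact hee _ h2)
    rw [zero_mul] at this; exact this
  -- conclusion
  obtain ⟨k, hk⟩ : ∃ k, p - 1 = 9 * k := ⟨(p - 1) / 9, by omega⟩
  have hNc : (N (conj π) - 1) / 3 = 3 * k := by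
    have : N (conj π) = p := by
      have := N_cast (conj π)
      rw [hπc] at this
      exact_mod_cast this
    rw [this]; omega
  have hφc : φ (conj π) = 0 := (hφ _).mpr dvd_rfl
  have hcs : ¬ conj π ∣ (s : Eis) := by rwa [dvd_intCast_iff hπc]
  have m1 := map_pow_eq hπcpr hπc3 hcs φ hφc
  have m2 := map_pow_eq hπcpr hπc3 hcγ φ hφc
  rw [hNc, hsS', ZMod.val_zero, pow_zero] at m1
  rw [hNc, hγS, ZMod.val_zero, pow_zero] at m2
  have hφs : φ (s : Eis) ≠ 0 := fun h => hcs ((hφ _).mp h)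
  have hφγ : φ γ ≠ 0 := fun h => hcγ ((hφ _).mp h)
  have hr2 : (φ r3) ^ 2 = -3 := by rw [← map_pow, r3_sq, map_neg, hom_three]
  have h3ne : (3 : ZMod p) ≠ 0 := by
    intro h
    have : ((3 : ℕ) : ZMod p) = 0 := by exact_mod_cast h
    rw [ZMod.natCast_eq_zero_iff] at this
    have := (Nat.prime_dvd_prime_iff_eq hp.out Nat.prime_three).mp this
    omega
  have hr0 : φ r3 ≠ 0 := by
    intro h
    rw [h] at hr2
    apply h3ne
    linear_combination hr2
  have hφη : φ (conj η) = 0 := (hφ _).mpr hcπη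
  have hrel : (φ π) ^ e * (φ γ) ^ 3 = -((φ r3) ^ 3 * (φ (s : Eis)) ^ 3) := by
    have h1 := congrArg φ hs
    rw [map_sub, hφη, sub_zero, hη, map_mul, map_mul, map_mul, map_pow, map_pow, map_pow] at h1
    rw [h1, hom_three]
    linear_combination ((φ r3) * φ (s : Eis) ^ 3) * hr2
  rw [hom_pi φ hφ hM] at hrel
  -- the element is ± a cube of (s/γ)
  have hX : ∃ ε : ZMod p, (ε = 1 ∨ ε = -1) ∧
      (M : ZMod p) ^ e * (φ r3) ^ (3 * (e - 1)) = ε * (φ (s : Eis) / φ γ) ^ 3 := by
    rcases he with rfl | rfl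
    · refine ⟨1, Or.inl rfl, ?_⟩
      simp only [pow_one] at hrel ⊢
      field_simp
      apply mul_left_cancel₀ (pow_ne_zero 3 hr0)
      simp only [Nat.sub_self, mul_zero, pow_zero, mul_one]
      linear_combination -hrel
    · refine ⟨-1, Or.inr rfl, ?_⟩
      have e1 : 3 * (2 - 1) = 3 := rfl
      rw [e1]
      field_simp
      apply mul_left_cancel₀ (pow_ne_zero 3 hr0)
      linear_combination hrel
  obtain ⟨ε, hε, hX⟩ := hX
  rw [hX]
  apply exists_root (k := k) hk
  · apply mul_ne_zero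
    · rcases hε with h | h <;> rw [h] <;> simp
    · exact pow_ne_zero _ (div_ne_zero hφs hφγ)
  · have hεk : ε ^ k = 1 := by
      rcases hε with h | h
      · rw [h, one_pow]
      · rw [h]
        apply Even.neg_one_pow
        have hodd : p % 2 = 1 := by
          rcases hp.out.eq_two_or_odd with h2 | h2
          · omega
          · exact h2
        rw [Nat.even_iff]; omega
    rw [mul_pow, hεk, one_mul, ← pow_mul, div_pow, m1, m2, div_one]

end split

end Eis

end Pool.Agent.Lib_helper18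


end

section

/-!
# The second case in which `p` divides the norm factor
-/

namespace Pool.Agent.Lib_helper18

namespace Eis

theorem sum_eq (x : Eis) : ((x.re + x.im : ℤ) : Eis) = -(w * x + w ^ 2 * conj x) := by
  rw [w_sq]
  ext
  · simp only [intCast_re, neg_re, add_re, mul_re, w_re, w_im, conj_re, conj_im, sub_re, sub_im,
      neg_im, one_re, one_im]
    ring
  · simp only [intCast_im, neg_im, add_im, mul_im, w_re, w_im, conj_re, conj_im, sub_re, sub_im,
      neg_re, one_re, one_im]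
    ring

theorem hom_w_pow {R : Type*} [CommRing R] (φ : Eis →+* R) {i j : ℕ}
    (h : (i : ZMod 3) = (j : ZMod 3)) : (φ w) ^ i = (φ w) ^ j := by
  rw [ZMod.natCast_eq_natCast_iff'] at h
  rw [← map_pow, ← map_pow, w_pow_mod i, w_pow_mod j, h]

section split

variable {p : ℕ} [hp : Fact p.Prime] {π : Eis}

/-- Case I-b. -/
theorem caseIb (hp9 : p % 9 = 1) (hπ : π.norm = p) {M : ℤ} (hM : π.im = 3 * M)
    (φ : Eis →+* ZMod p) (hφ : ∀ x, φ x = 0 ↔ conj π ∣ x)
    {e : ℕ} (he : e = 1 ∨ e = 2) {γ ξ : Eis} (hξ : ξ = π ^ e * γ ^ 3) (hγ3 : ¬ lam ∣ γ)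
    (hcop : IsCoprime ξ (conj ξ)) {s : ℤ} (hs : ξ.re + ξ.im = s ^ 3) :
    ∃ τ : ZMod p, τ ^ 9 = (M : ZMod p) ^ e * (φ r3) ^ (3 * (e - 1)) := by
  have hp3 : p % 3 = 1 := by omega
  have hprim : (3 : ℤ) ∣ π.im := ⟨M, hM⟩
  have hπpr := prime_of_norm_eq hπ
  have hπ3 := not_dvd_three hπ hp3
  have hre := re_not_dvd hp3 hπ hprim
  have hπc := conj_norm hπ
  have hπcpr := prime_of_norm_eq hπc
  have hπc3 := not_dvd_three hπc hp3
  have hcprim := conj_im_dvd hprim
  have hcopp : ∀ l : Eis, Prime l → ¬ (l ∣ ξ ∧ l ∣ conj ξ) := by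
    rintro l hl ⟨h1, h2⟩
    exact hl.not_isUnit (hcop.isUnit_of_dvd' h1 h2)
  have hce : conj ξ = conj π ^ e * conj γ ^ 3 := by rw [hξ, map_mul, map_pow, map_pow]
  have he0 : e ≠ 0 := by omega
  have hγ0 : γ ≠ 0 := by
    rintro rfl
    exact hγ3 (dvd_zero _)
  have hsE : (s : Eis) ^ 3 = -(w * ξ + w ^ 2 * conj ξ) := by
    rw [← sum_eq, hs]; push_cast; ring
  have hcπη : conj π ∣ conj ξ := by
    rw [hce]; exact Dvd.dvd.mul_right (dvd_pow_self _ he0) _
  have hcγ : ¬ conj π ∣ γ := by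
    intro h
    refine hcopp _ hπcpr ⟨?_, hcπη⟩
    rw [hξ]
    exact Dvd.dvd.mul_left (Dvd.dvd.pow h (by norm_num)) _
  have hps : ¬ (p : ℤ) ∣ s := by
    intro h
    have h1 : conj π ∣ (s : Eis) := by rwa [dvd_intCast_iff hπc]
    have h2 : conj π ∣ ξ := by
      have : ξ = -w ^ 2 * ((s : Eis) ^ 3 + w ^ 2 * conj ξ) := by
        rw [hsE]
        linear_combination (-ξ) * w_cube
      rw [this]
      exact Dvd.dvd.mul_left (dvd_add (Dvd.dvd.pow h1 (by norm_num)) (Dvd.dvd.mul_left hcπη _)) _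
    exact hcopp _ hπcpr ⟨h2, hcπη⟩
  have hsymη : ∀ l : Eis, Prime l → ¬ l ∣ 3 → ¬ l ∣ ξ → sym l ξ = e * sym l π := by
    intro l hl hl3 hlη
    have h1 : ¬ l ∣ π := fun h => hlη (by
      rw [hξ]; exact Dvd.dvd.mul_right (Dvd.dvd.pow h he0) _)
    have h2 : ¬ l ∣ γ := fun h => hlη (by
      rw [hξ]; exact Dvd.dvd.mul_left (Dvd.dvd.pow h (by norm_num)) _)
    rw [hξ, sym_mul hl hl3 (fun h => h1 (hl.dvd_of_dvd_pow h))
      (fun h => h2 (hl.dvd_of_dvd_pow h)), sym_cube hl hl3 h2, sym_pow hl hl3 h1, add_zero]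
  have hsymη' : ∀ l : Eis, Prime l → ¬ l ∣ 3 → ¬ l ∣ conj ξ →
      sym l (conj ξ) = e * sym l (conj π) := by
    intro l hl hl3 hlη
    have h1 : ¬ l ∣ conj π := fun h => hlη (by
      rw [hce]; exact Dvd.dvd.mul_right (Dvd.dvd.pow h he0) _)
    have h2 : ¬ l ∣ conj γ := fun h => hlη (by
      rw [hce]; exact Dvd.dvd.mul_left (Dvd.dvd.pow h (by norm_num)) _)
    rw [hce, sym_mul hl hl3 (fun h => h1 (hl.dvd_of_dvd_pow h))
      (fun h => h2 (hl.dvd_of_dvd_pow h)), sym_cube hl hl3 h2, sym_pow hl hl3 h1, add_zero]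
  have hee : ∀ x y : ZMod 3, (e : ZMod 3) * x = y → x = (e : ZMod 3) * y := by
    rcases he with rfl | rfl
    · intro x y; simp
    · intro x y; push_cast; revert x y; decide
  have h3 : (3 : ZMod 3) = 0 := by decide
  -- primality to 3
  have hξprim : Prim (ξ * 1) := by
    obtain ⟨i, hi⟩ := exists_prim hγ3
    have h1 : ξ * 1 = π ^ e * (γ * w ^ i) ^ 3 := by
      rw [hξ, mul_pow, ← pow_mul, mul_comm i, pow_mul, w_cube, one_pow]; ring
    rw [h1]
    exact (Prim.pow ⟨hprim, hre⟩ e).mul (hi.pow 3)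
  rw [mul_one] at hξprim
  have hs3 : ¬ (3 : ℤ) ∣ s := by
    intro h
    have h1 : (3 : ℤ) ∣ s ^ 3 := Dvd.dvd.pow h (by norm_num)
    rw [← hs] at h1
    have h2 := hξprim.1
    have h4 := hξprim.2
    omega
  -- symbol of s
  have hsS : 2 * sym π (s : Eis) = e * wt (s ^ 2) := by
    apply lemmaS hp3 hπ hprim e s hs3 hps
    intro l hl hls
    have hl3 : ¬ l ∣ 3 := by
      intro h
      have h1 := (dvd_three_iff hl).mp h
      have h2 : lam ∣ (s : Eis) := h1.symm.dvd.trans hls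
      rw [lam_dvd_iff] at h2
      simp only [intCast_re, intCast_im, add_zero] at h2
      exact hs3 h2
    have h1 : l ∣ ξ - -(w * conj ξ) := by
      have : ξ - -(w * conj ξ) = -w ^ 2 * (s : Eis) ^ 3 := by
        rw [hsE]
        linear_combination (-ξ - w * conj ξ) * w_cube
      rw [this]
      exact Dvd.dvd.mul_left (Dvd.dvd.pow hls (by norm_num)) _
    have h2 : ¬ l ∣ ξ := by
      intro h
      refine hcopp l hl ⟨h, ?_⟩
      have h4 := dvd_sub h h1
      have h5 : ξ - (ξ - -(w * conj ξ)) = -(w * conj ξ) := by ring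
      rw [h5, dvd_neg] at h4
      exact (hl.dvd_or_dvd h4).resolve_left (not_dvd_of_isUnit hl isUnit_w)
    have h3 : ¬ l ∣ conj ξ := by
      intro h
      refine h2 ?_
      have h4 := dvd_sub h1 (Dvd.dvd.mul_left h w)
      have h5 : ξ - -(w * conj ξ) - w * conj ξ = ξ := by ring
      rwa [h5] at h4
    have h4 := sym_congr h1
    have hlw := not_dvd_of_isUnit hl isUnit_w
    rw [sym_neg hl hl3 (fun h => (hl.dvd_or_dvd h).elim hlw h3), sym_mul hl hl3 hlw h3,
      hsymη l hl hl3 h2, hsymη' l hl hl3 h3, sym_w' hl hl3] at h4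
    apply hee
    linear_combination h4
  -- symbol of γ
  have hγS : sym (conj π) γ = e * wt γ.norm := by
    apply lemmaR hp9 hπc hcprim e γ hγ0 hγ3 hcγ
    intro l hl hlγ
    have hl3 : ¬ l ∣ 3 := fun h => hγ3 (((dvd_three_iff hl).mp h).symm.dvd.trans hlγ)
    have hlη : l ∣ ξ := by
      rw [hξ]; exact Dvd.dvd.mul_left (Dvd.dvd.pow hlγ (by norm_num)) _
    have hlη' : ¬ l ∣ conj ξ := fun h => hcopp l hl ⟨hlη, h⟩
    have h1 : l ∣ (s : Eis) ^ 3 - -(w ^ 2 * conj ξ) := by
      have e2 : (s : Eis) ^ 3 - -(w ^ 2 * conj ξ) = -(w * ξ) := by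
        rw [hsE]; ring
      rw [e2, dvd_neg]; exact Dvd.dvd.mul_left hlη _
    have h2 := sym_congr h1
    have hlw := not_dvd_of_isUnit hl isUnit_w
    have hlw2 := not_dvd_of_isUnit hl (isUnit_w.pow 2)
    have h3' : ¬ l ∣ (s : Eis) := by
      intro h
      have h4 : l ∣ (s : Eis) ^ 3 := Dvd.dvd.pow h (by norm_num)
      have h5 := dvd_sub h4 h1
      have h6 : (s : Eis) ^ 3 - ((s : Eis) ^ 3 - -(w ^ 2 * conj ξ)) = -(w ^ 2 * conj ξ) := by ring
      rw [h6, dvd_neg] at h5
      exact (hl.dvd_or_dvd h5).elim hlw2 hlη'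
    rw [sym_cube hl hl3 h3', sym_neg hl hl3 (fun h => (hl.dvd_or_dvd h).elim hlw2 hlη'),
      sym_mul hl hl3 hlw2 hlη', sym_pow hl hl3 hlw, sym_w' hl hl3, hsymη' l hl hl3 hlη'] at h2
    apply hee
    push_cast at h2
    linear_combination -h2 - wt l.norm * h3
  -- conversion
  have hsS' : sym (conj π) (s : Eis) = e * wt (s ^ 2) := by
    rw [sym_rat_conj hp3 hπ hps]
    linear_combination hsS - sym π (s : Eis) * h3
  have hrS : sym (conj π) r3 = ((π.re * M : ℤ) : ZMod 3) := by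
    have hlw := not_dvd_of_isUnit hπcpr isUnit_w
    have hlam : ¬ conj π ∣ lam := fun h => hπc3 (h.trans lam_dvd_three)
    have h4 : (conj π).im = 3 * (-M) := by rw [conj_im, hM]; ring
    rw [r3, sym_mul hπcpr hπc3 hlw hlam, sym_unit hp9 hπc isUnit_w, sym_lam' hp9 hπc h4,
      conj_re, hM]
    push_cast
    linear_combination (-π.re * M + 2 * M ^ 2 : ZMod 3) * h3
  -- integers
  obtain ⟨k, hk⟩ : ∃ k, p - 1 = 9 * k := ⟨(p - 1) / 9, by omega⟩
  have hp1 : (p : ℤ) = 1 + 9 * k := by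
    have := hp.out.two_le
    omega
  obtain ⟨m, hm⟩ : ∃ m, s ^ 2 = 1 + 3 * m := ⟨s ^ 2 / 3, by
    have := sq_mod_three hs3; omega⟩
  obtain ⟨n, hn⟩ : ∃ n, γ.norm = 1 + 3 * n := ⟨γ.norm / 3, by
    have := norm_emod_three_of_not_lam_dvd hγ3; omega⟩
  obtain ⟨y', hy'⟩ := hξprim.1
  obtain ⟨u, hu⟩ : ∃ u, s ^ 3 = s + 3 * u := by
    have : s % 3 = 1 ∨ s % 3 = 2 := by omega
    refine ⟨(s ^ 3 - s) / 3, ?_⟩
    have h3' : (3 : ℤ) ∣ s ^ 3 - s := by
      rcases this with h | h
      · obtain ⟨v, hv⟩ : ∃ v, s = 1 + 3 * v := ⟨s / 3, by omega⟩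
        exact ⟨2 * v + 9 * v ^ 2 + 9 * v ^ 3, by rw [hv]; ring⟩
      · obtain ⟨v, hv⟩ : ∃ v, s = -1 + 3 * v := ⟨(s + 1) / 3, by omega⟩
        exact ⟨2 * v - 9 * v ^ 2 + 9 * v ^ 3, by rw [hv]; ring⟩
    omega
  -- the congruence for s * y'
  have hsy : ((s * y' : ℤ) : ZMod 3) = ((e * π.re * M : ℤ) : ZMod 3) := by
    obtain ⟨C, hC, y, hy⟩ := cube_mod_nine hγ3
    have h8 : ξ = (C : Eis) * π ^ e + 9 * (π ^ e * y) := by
      rw [hξ, hy]; ring
    have h9 : ∀ z : Eis, (9 * z : Eis).im = 9 * z.im ∧ (9 * z : Eis).re = 9 * z.re := by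
      intro z
      have : (9 : Eis) = ((9 : ℤ) : Eis) := by ext <;> simp
      constructor
      · rw [this, mul_im, intCast_re, intCast_im]; ring
      · rw [this, mul_re, intCast_re, intCast_im]; ring
    have him := congrArg Eis.im h8
    have hrr := congrArg Eis.re h8
    rw [add_im, (h9 _).1, mul_im, intCast_re, intCast_im] at him
    rw [add_re, (h9 _).2, mul_re, intCast_re, intCast_im] at hrr
    generalize (π ^ e * y).im = z1 at him
    generalize (π ^ e * y).re = z2 at hrr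
    have hC2 : C ^ 2 = 1 := by rcases hC with h | h <;> rw [h] <;> norm_num
    have hC2' : (C : ZMod 3) ^ 2 = 1 := by exact_mod_cast congrArg (Int.cast : ℤ → ZMod 3) hC2
    rcases he with h | h
    · subst h
      rw [pow_one, hM] at him
      rw [pow_one] at hrr
      have h10 : y' = C * M + 3 * z1 := by
        rw [hy'] at him; linarith
      have h11 : s = C * π.re + 3 * (3 * z2 + y' - u) := by
        have : s ^ 3 = ξ.re + 3 * y' := by rw [← hs, hy']
        rw [hu, hrr] at this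
        linarith
      have h12 := congrArg (Int.cast : ℤ → ZMod 3) h10
      have h13 := congrArg (Int.cast : ℤ → ZMod 3) h11
      push_cast at h12 h13 ⊢
      rw [h12, h13, h3]
      linear_combination ((π.re : ZMod 3) * M) * hC2'
    · subst h
      rw [pow_two, mul_im, hM] at him
      rw [pow_two, mul_re, hM] at hrr
      have h10 : y' = C * (2 * π.re * M - 3 * M ^ 2) + 3 * z1 := by
        rw [hy'] at him; linarith
      have h11 : s = C * π.re ^ 2 + 3 * (3 * z2 + y' - u - 3 * C * M ^ 2) := by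
        have : s ^ 3 = ξ.re + 3 * y' := by rw [← hs, hy']
        rw [hu, hrr] at this
        linarith
      have h12 := congrArg (Int.cast : ℤ → ZMod 3) h10
      have h13 := congrArg (Int.cast : ℤ → ZMod 3) h11
      have h14 : (π.re : ZMod 3) ^ 3 = π.re := by
        generalize (π.re : ZMod 3) = x; revert x; decide
      push_cast at h12 h13 ⊢
      rw [h12, h13, h3]
      linear_combination (2 * (π.re : ZMod 3) ^ 3 * M) * hC2' + 2 * (M : ZMod 3) * h14
  -- the relation modulo 27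
  have h27 : ∃ W : ℤ, m - s * y' - e * k - n = 3 * W := by
    have hnorm : ξ.norm = (p : ℤ) ^ e * γ.norm ^ 3 := by
      rw [hξ, norm_mul, norm_pow, norm_pow, hπ]
    have hnx : ξ.norm = (s ^ 2) ^ 3 - 3 * ((s ^ 3 - 3 * y') * (3 * y')) := by
      have h1 : ξ.re = s ^ 3 - 3 * y' := by rw [← hs, hy']; ring
      rw [norm_def, hy', h1]; ring
    rw [hnorm, hn, hm, hu, hp1] at hnx
    rcases he with h | h
    · subst h
      refine ⟨-m ^ 2 - m ^ 3 + u * y' - y' ^ 2 + n ^ 2 + n ^ 3 + 3 * k * n + 9 * k * n ^ 2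
        + 9 * k * n ^ 3, ?_⟩
      push_cast
      linarith
    · subst h
      refine ⟨-m ^ 2 - m ^ 3 + u * y' - y' ^ 2 + n ^ 2 + n ^ 3 + 6 * k * n + 18 * k * n ^ 2
        + 18 * k * n ^ 3 + 3 * k ^ 2 * (1 + 9 * n + 27 * n ^ 2 + 27 * n ^ 3), ?_⟩
      push_cast
      linarith
  obtain ⟨W, hW⟩ := h27
  have hexp : ((2 * k + (sym (conj π) (s : Eis)).val : ℕ) : ZMod 3) =
      (((sym (conj π) γ).val + (sym (conj π) r3).val : ℕ) : ZMod 3) := by
    have hv : ∀ x : ZMod 3, ((x.val : ℕ) : ZMod 3) = x := fun x => by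
      rw [ZMod.natCast_val, ZMod.cast_id', id]
    push_cast
    rw [hv, hv, hv, hsS', hγS, hrS, wt_eq hm, wt_eq hn]
    have hW' := congrArg (Int.cast : ℤ → ZMod 3) hW
    push_cast at hW' hsy ⊢
    have he2 : (e : ZMod 3) ^ 2 = 1 := by
      rcases he with h | h <;> rw [h] <;> decide
    rw [hsy] at hW'
    linear_combination (e : ZMod 3) * hW' + ((k : ZMod 3) + π.re * M) * he2 +
      ((k : ZMod 3) + e * W) * h3
  -- conclusion
  have hNc : (N (conj π) - 1) / 3 = 3 * k := by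
    have : N (conj π) = p := by
      have := N_cast (conj π)
      rw [hπc] at this
      exact_mod_cast this
    rw [this]; omega
  have hφc : φ (conj π) = 0 := (hφ _).mpr dvd_rfl
  have hcs : ¬ conj π ∣ (s : Eis) := by rwa [dvd_intCast_iff hπc]
  have hcr : ¬ conj π ∣ r3 := by
    intro h
    rcases hπcpr.dvd_or_dvd h with h | h
    · exact not_dvd_of_isUnit hπcpr isUnit_w h
    · exact hπc3 (h.trans lam_dvd_three)
  have m1 := map_pow_eq hπcpr hπc3 hcs φ hφc
  have m2 := map_pow_eq hπcpr hπc3 hcγ φ hφc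
  have m3 := map_pow_eq hπcpr hπc3 hcr φ hφc
  rw [hNc] at m1 m2 m3
  have hφs : φ (s : Eis) ≠ 0 := fun h => hcs ((hφ _).mp h)
  have hφγ : φ γ ≠ 0 := fun h => hcγ ((hφ _).mp h)
  have hr0 : φ r3 ≠ 0 := fun h => hcr ((hφ _).mp h)
  have hr2 : (φ r3) ^ 2 = -3 := by rw [← map_pow, r3_sq, map_neg, hom_three]
  have hφη : φ (conj ξ) = 0 := (hφ _).mpr hcπη
  have hw3 : (φ w) ^ 3 = 1 := by rw [← map_pow, w_cube, map_one]
  have hw0 : φ w ≠ 0 := by
    intro h; rw [h] at hw3; norm_num at hw3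
  have hrel : (φ π) ^ e * (φ γ) ^ 3 = -((φ w) ^ 2 * (φ (s : Eis)) ^ 3) := by
    have h1 := congrArg φ hsE
    rw [map_pow, map_neg, map_add, map_mul, map_mul, hφη, mul_zero, add_zero, hξ, map_mul,
      map_pow, map_pow] at h1
    linear_combination ((φ w) ^ 2) * h1 - (φ π ^ e * φ γ ^ 3) * hw3
  rw [hom_pi φ hφ hM] at hrel
  have hX : ∃ ε : ZMod p, (ε = 1 ∨ ε = -1) ∧
      (M : ZMod p) ^ e * (φ r3) ^ (3 * (e - 1)) =
        ε * ((φ w) ^ 2 * (φ (s : Eis) / (φ γ * φ r3)) ^ 3) := by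
    rcases he with rfl | rfl
    · refine ⟨1, Or.inl rfl, ?_⟩
      simp only [pow_one] at hrel ⊢
      field_simp
      simp only [Nat.sub_self, mul_zero, pow_zero, mul_one]
      linear_combination -hrel
    · refine ⟨-1, Or.inr rfl, ?_⟩
      have e1 : 3 * (2 - 1) = 3 := rfl
      rw [e1]
      field_simp
      linear_combination hrel
  obtain ⟨ε, hε, hX⟩ := hX
  rw [hX]
  apply exists_root (k := k) hk
  · apply mul_ne_zero
    · rcases hε with h | h <;> rw [h] <;> simp
    · exact mul_ne_zero (pow_ne_zero _ hw0)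
        (pow_ne_zero _ (div_ne_zero hφs (mul_ne_zero hφγ hr0)))
  · have hεk : ε ^ k = 1 := by
      rcases hε with h | h
      · rw [h, one_pow]
      · rw [h]
        apply Even.neg_one_pow
        have hodd : p % 2 = 1 := by
          rcases hp.out.eq_two_or_odd with h2 | h2
          · omega
          · exact h2
        rw [Nat.even_iff]; omega
    have h5 := hom_w_pow φ hexp
    rw [pow_add, pow_add, ← m1, ← m2, ← m3] at h5
    rw [mul_pow, hεk, one_mul, mul_pow, ← pow_mul, ← pow_mul, div_pow, mul_pow]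
    rw [← mul_div_assoc, h5, div_self]
    exact mul_ne_zero (pow_ne_zero _ hφγ) (pow_ne_zero _ hr0)

end split

end Eis

end Pool.Agent.Lib_helper18


end

section

/-!
# The first descent on `x^3 + y^3 = p^e z^3`
-/

namespace Pool.Agent.Lib_helper18

/-- The conclusion of the second descent: `M^e` is `27^(e-1)` times a ninth power. -/
def Concl (p e : ℕ) (M : ℤ) : Prop := ∃ τ : ZMod p, (M : ZMod p) ^ e = 27 ^ (e - 1) * τ ^ 9

theorem Concl.neg {p e : ℕ} (he : e = 1 ∨ e = 2) {M : ℤ} (h : Concl p e (-M)) :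
    Concl p e M := by
  obtain ⟨τ, hτ⟩ := h
  rcases he with rfl | rfl
  · refine ⟨-τ, ?_⟩
    push_cast at hτ
    linear_combination -hτ
  · refine ⟨τ, ?_⟩
    push_cast at hτ
    linear_combination hτ

namespace Eis

theorem coprime_xi {x y : ℤ} (h : IsCoprime x y) {l : Eis} (hl : Prime l)
    (h1 : l ∣ (⟨x, y⟩ : Eis)) (h2 : l ∣ conj ⟨x, y⟩) : Associated l lam := by
  obtain ⟨u, v, huv⟩ := h
  have e1 : r3 * (y : Eis) = (⟨x, y⟩ : Eis) - conj ⟨x, y⟩ := by
    rw [r3_eq, w_sq]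
    ext
    · simp only [mul_re, sub_re, conj_re, sub_im, neg_re, neg_im, one_re, one_im, w_re, w_im,
        intCast_re, intCast_im]; ring
    · simp only [mul_im, sub_re, conj_im, sub_im, neg_re, neg_im, one_re, one_im, w_re, w_im,
        intCast_re, intCast_im]; ring
  have e2 : r3 * (x : Eis) = w * conj ⟨x, y⟩ - w ^ 2 * (⟨x, y⟩ : Eis) := by
    rw [r3_eq, w_sq]
    ext
    · simp only [mul_re, sub_re, conj_re, conj_im, sub_im, neg_re, neg_im, one_re, one_im, w_re,
        w_im, intCast_re, intCast_im]; ring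
    · simp only [mul_im, sub_re, conj_re, conj_im, sub_im, neg_re, neg_im, one_re, one_im, w_re,
        w_im, intCast_re, intCast_im]; ring
  have h3 : l ∣ r3 * (y : Eis) := by rw [e1]; exact dvd_sub h1 h2
  have h4 : l ∣ r3 * (x : Eis) := by
    rw [e2]; exact dvd_sub (Dvd.dvd.mul_left h2 _) (Dvd.dvd.mul_left h1 _)
  have h5 : l ∣ r3 := by
    have : r3 = (u : Eis) * (r3 * (x : Eis)) + (v : Eis) * (r3 * (y : Eis)) := by
      have h6 := congrArg (Int.cast : ℤ → Eis) huv
      push_cast at h6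
      linear_combination (-r3) * h6
    rw [this]
    exact dvd_add (Dvd.dvd.mul_left h4 _) (Dvd.dvd.mul_left h3 _)
  have h6 : l ∣ lam := (hl.dvd_or_dvd h5).resolve_left (not_dvd_of_isUnit hl isUnit_w)
  exact hl.associated_of_dvd prime_lam h6

theorem extract {ρ η : Eis} (hρ : Prim ρ) (hρη : ρ ∣ η) (hη : Prim η)
    (hcop : IsCoprime η (conj η)) {t : ℤ} (h : η.norm = ρ.norm * t ^ 3) :
    ∃ γ, η = ρ * γ ^ 3 ∧ ¬ lam ∣ γ := by
  obtain ⟨η', hη'⟩ := hρη
  have hρ0 : ρ.norm ≠ 0 := by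
    intro h0
    rw [norm_eq_zero] at h0
    exact hρ.not_lam_dvd (by rw [h0]; exact dvd_zero _)
  have hn : η'.norm = t ^ 3 := by
    rw [hη', norm_mul] at h
    exact mul_left_cancel₀ hρ0 h
  have h1 : η' * conj η' = (t : Eis) ^ 3 := by
    rw [mul_conj, hn]; push_cast; rfl
  have hcop' : IsCoprime η' (conj η') := by
    have h2 : η' ∣ η := ⟨ρ, by rw [hη']; ring⟩
    exact (hcop.of_isCoprime_of_dvd_left h2).of_isCoprime_of_dvd_right (conj_dvd h2)
  obtain ⟨d, u, hu⟩ := exists_associated_pow_of_mul_eq_pow' hcop' h1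
  have hld : ¬ lam ∣ d := by
    intro h2
    apply hη.not_lam_dvd
    rw [hη', ← hu]
    exact Dvd.dvd.mul_left (Dvd.dvd.mul_right (Dvd.dvd.pow h2 (by norm_num)) _) _
  obtain ⟨i, hi⟩ := exists_prim hld
  have h3 : ρ * d ^ 3 = ρ * (d * w ^ i) ^ 3 := by
    rw [mul_pow, ← pow_mul, mul_comm i, pow_mul, w_cube, one_pow]; ring
  have h4 : Prim (ρ * d ^ 3) := by rw [h3]; exact hρ.mul (hi.pow 3)
  have h5 : Prim (ρ * d ^ 3 * u) := by rw [mul_assoc, hu, ← hη']; exact hη
  rcases h4.unit u.isUnit h5 with h6 | h6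
  · exact ⟨d, by rw [hη', ← hu, h6, mul_one], hld⟩
  · exact ⟨-d, by rw [hη', ← hu, h6]; ring, by rwa [dvd_neg]⟩

section split

variable {p : ℕ} [hp : Fact p.Prime] {π : Eis}

/-- conclusion of Cases I-a and I-b in the uniform form -/
theorem concl_of_root (hp3 : p % 3 = 1) {e : ℕ} (he : e = 1 ∨ e = 2) {M : ℤ} {r : ZMod p}
    (hr : r ^ 2 = -3) (h : ∃ τ : ZMod p, τ ^ 9 = (M : ZMod p) ^ e * r ^ (3 * (e - 1))) :
    Concl p e M := by
  obtain ⟨τ, hτ⟩ := h
  rcases he with rfl | rfl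
  · refine ⟨τ, ?_⟩
    simp only [Nat.sub_self, mul_zero, pow_zero, mul_one] at hτ
    rw [hτ]; simp
  · have h3ne : (3 : ZMod p) ≠ 0 := by
      intro h
      have : ((3 : ℕ) : ZMod p) = 0 := by exact_mod_cast h
      rw [ZMod.natCast_eq_zero_iff] at this
      have := (Nat.prime_dvd_prime_iff_eq hp.out Nat.prime_three).mp this
      omega
    have hr0 : r ≠ 0 := by
      rintro rfl
      apply h3ne
      linear_combination hr
    have e1 : 3 * (2 - 1) = 3 := rfl
    rw [e1] at hτ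
    refine ⟨-(τ / r), ?_⟩
    have h4 : (27 : ZMod p) * (-(τ / r)) ^ 9 = 27 * (-(τ ^ 9 / r ^ 9)) := by
      rw [Odd.neg_pow (by decide), div_pow]
    rw [show 27 ^ (2 - 1) = (27 : ZMod p) by norm_num, h4, hτ]
    have hr6 : r ^ 6 = -27 := by
      have : r ^ 6 = (r ^ 2) ^ 3 := by ring
      rw [this, hr]; norm_num
    have h27 : (27 : ZMod p) = - r ^ 6 := by rw [hr6]; ring
    rw [h27]
    field_simp

/-- splitting off the power of `p` -/
theorem exists_rho (hπ : π.norm = p) (e : ℕ) (he : 0 < e) {η : Eis}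
    (hcop : IsCoprime η (conj η)) (h : ((p : ℤ) ^ e) ∣ η.norm) :
    π ^ e ∣ η ∨ conj π ^ e ∣ η := by
  have hπpr := prime_of_norm_eq hπ
  have hπcpr := prime_of_norm_eq (conj_norm hπ)
  have h1 : (p : Eis) ^ e ∣ η * conj η := by
    rw [mul_conj]
    have := (intCast_dvd_intCast (m := (p : ℤ) ^ e) (n := η.norm)).mpr h
    push_cast at this
    exact this
  have hcopp : ∀ l : Eis, Prime l → ¬ (l ∣ η ∧ l ∣ conj η) := by
    rintro l hl ⟨h1, h2⟩
    exact hl.not_isUnit (hcop.isUnit_of_dvd' h1 h2)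
  have h2 : π ^ e ∣ η * conj η := (pow_dvd_pow_of_dvd (dvd_p hπ) e).trans h1
  have h3 : conj π ^ e ∣ η * conj η := (pow_dvd_pow_of_dvd (dvd_p (conj_norm hπ)) e).trans h1
  rcases hπpr.dvd_or_dvd ((dvd_pow_self π he.ne').trans h2) with h4 | h4
  · left
    have h5 : ¬ π ∣ conj η := fun h => hcopp π hπpr ⟨h4, h⟩
    exact hπpr.pow_dvd_of_dvd_mul_right e h5 h2
  · right
    have h6 : conj π ∣ η := by have := conj_dvd h4; rwa [conj_conj] at this
    have h5 : ¬ conj π ∣ conj η := fun h => hcopp _ hπcpr ⟨h6, h⟩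
    exact hπcpr.pow_dvd_of_dvd_mul_right e h5 h3

end split

end Eis

theorem sq_eq_one_iff_of_side {a : ℤ} (h : a ^ 2 = 1) : a = 1 ∨ a = -1 :=
  sq_eq_one_iff.mp h

/-- three pairwise coprime integers with product `p^e s^3` -/
theorem three_factors {p : ℕ} [hp : Fact p.Prime] {e : ℕ} {u v t s : ℤ} (huv : IsCoprime u v)
    (hut : IsCoprime u t) (hvt : IsCoprime v t) (h : u * v * t = (p : ℤ) ^ e * s ^ 3)
    (hs : s ≠ 0) (hpu : (p : ℤ) ∣ u) :
    ∃ a b c : ℤ, u = (p : ℤ) ^ e * a ^ 3 ∧ v = b ^ 3 ∧ t = c ^ 3 ∧ a ≠ 0 ∧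
      a.natAbs ≤ s.natAbs := by
  have hpp : Prime (p : ℤ) := Nat.prime_iff_prime_int.mp hp.out
  have hpvt : ¬ (p : ℤ) ∣ v * t := by
    intro h1
    rcases hpp.dvd_or_dvd h1 with h2 | h2
    · exact hpp.not_isUnit (huv.isUnit_of_dvd' hpu h2)
    · exact hpp.not_isUnit (hut.isUnit_of_dvd' hpu h2)
  have h1 : (p : ℤ) ^ e ∣ u := by
    apply hpp.pow_dvd_of_dvd_mul_right e hpvt
    rw [← mul_assoc, h]
    exact dvd_mul_right _ _
  obtain ⟨u', hu'⟩ := h1
  have hp0 : (p : ℤ) ^ e ≠ 0 := pow_ne_zero _ hpp.ne_zero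
  have h2 : u' * (v * t) = s ^ 3 := by
    apply mul_left_cancel₀ hp0
    rw [← h, hu']; ring
  have hu'd : u' ∣ u := ⟨(p : ℤ) ^ e, by rw [hu']; ring⟩
  have hco : IsCoprime u' (v * t) :=
    ((huv.of_isCoprime_of_dvd_left hu'd).mul_right (hut.of_isCoprime_of_dvd_left hu'd))
  obtain ⟨a, ha⟩ := Int.eq_pow_of_mul_eq_pow_odd_left hco (by decide : Odd 3) h2
  obtain ⟨d, hd⟩ := Int.eq_pow_of_mul_eq_pow_odd_right hco (by decide : Odd 3) h2
  obtain ⟨b, hb⟩ := Int.eq_pow_of_mul_eq_pow_odd_left hvt (by decide : Odd 3) hd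
  obtain ⟨c, hc⟩ := Int.eq_pow_of_mul_eq_pow_odd_right hvt (by decide : Odd 3) hd
  have ha0 : a ≠ 0 := by
    rintro rfl
    rw [ha] at h2
    have : s ^ 3 = 0 := by rw [← h2]; ring
    exact hs (pow_eq_zero_iff (by norm_num) |>.mp this)
  refine ⟨a, b, c, by rw [hu', ha], hb, hc, ha0, ?_⟩
  have h3 : a ^ 3 ∣ s ^ 3 := ⟨v * t, by rw [← h2, ha]⟩
  have h4 : a ∣ s := (Int.pow_dvd_pow_iff (by norm_num)).mp h3
  exact Nat.le_of_dvd (Int.natAbs_pos.mpr hs) (Int.natAbs_dvd_natAbs.mpr h4)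

open _root_.Pool.Agent.Lib_helper18.Eis in
/-- The first descent. -/
theorem first_descent {p : ℕ} [hp : Fact p.Prime] (hp9 : p % 9 = 1) {π : Eis}
    (hπ : π.norm = p) {M : ℤ} (hM : π.im = 3 * M) {e : ℕ} (he : e = 1 ∨ e = 2)
    (hIIb : ∀ (ξ γ : Eis) (s : ℤ), ξ = γ ^ 3 → ¬ lam ∣ γ → IsCoprime ξ (conj ξ) →
      (3 : ℤ) ∣ ξ.im → ξ.re + ξ.im = (p : ℤ) ^ e * s ^ 3 → Concl p e M) :
    ∀ (n : ℕ) (x y z : ℤ), z.natAbs = n → z ≠ 0 → x ^ 3 + y ^ 3 = (p : ℤ) ^ e * z ^ 3 →
      Concl p e M := by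
  have hp3 : p % 3 = 1 := by omega
  have hprim : (3 : ℤ) ∣ π.im := ⟨M, hM⟩
  have hπpr := prime_of_norm_eq hπ
  have hre := re_not_dvd hp3 hπ hprim
  have hπprim : Prim π := ⟨hprim, hre⟩
  have hπc := conj_norm hπ
  have hMc : (conj π).im = 3 * (-M) := by rw [conj_im, hM]; ring
  have hpp : Prime (p : ℤ) := Nat.prime_iff_prime_int.mp hp.out
  have hp0 : (p : ℤ) ^ e ≠ 0 := pow_ne_zero _ hpp.ne_zero
  have he0 : 0 < e := by omega
  obtain ⟨φ, hφ⟩ := exists_hom hπ
  obtain ⟨φ', hφ'⟩ := exists_hom hπc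
  have hr2 : ∀ ψ : Eis →+* ZMod p, (ψ r3) ^ 2 = -3 := fun ψ => by
    rw [← map_pow, r3_sq, map_neg, hom_three]
  have hnormpow : (π ^ e).norm = (p : ℤ) ^ e := by rw [norm_pow, hπ]
  have hnormpowc : (conj π ^ e).norm = (p : ℤ) ^ e := by rw [norm_pow, norm_conj, hπ]
  intro n
  induction n using Nat.strong_induction_on with
  | _ n ih =>
  intro x y z hzn hz0 hxyz
  by_cases hco : IsCoprime x y
  swap
  · -- common factor
    have hx0y0 : ¬ (x = 0 ∧ y = 0) := by
      rintro ⟨rfl, rfl⟩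
      have : (p : ℤ) ^ e * z ^ 3 = 0 := by rw [← hxyz]; ring
      rcases mul_eq_zero.mp this with h | h
      · exact hp0 h
      · exact hz0 (pow_eq_zero_iff (by norm_num) |>.mp h)
    have : ∃ q : ℤ, Prime q ∧ q ∣ x ∧ q ∣ y := by
      by_contra hcon
      push Not at hcon
      exact hco (isCoprime_of_prime_dvd hx0y0 (fun q hq hqx => hcon q hq hqx))
    obtain ⟨q, hq, ⟨x', hx'⟩, ⟨y', hy'⟩⟩ := this
    have hq3 : q ^ 3 ∣ (p : ℤ) ^ e * z ^ 3 := ⟨x' ^ 3 + y' ^ 3, by rw [← hxyz, hx', hy']; ring⟩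
    have hqz : q ∣ z := by
      by_cases hqp : q ∣ (p : ℤ)
      · -- q associated to p
        have hass := hq.associated_of_dvd hpp hqp
        have h1 : (p : ℤ) ^ 3 ∣ (p : ℤ) ^ e * z ^ 3 :=
          (pow_dvd_pow_of_dvd hass.symm.dvd 3).trans hq3
        have h2 : (p : ℤ) ^ 3 = (p : ℤ) ^ e * (p : ℤ) ^ (3 - e) := by
          rw [← pow_add]; congr 1; omega
        rw [h2] at h1
        have h3 := (mul_dvd_mul_iff_left hp0).mp h1
        have h4 : (p : ℤ) ∣ z ^ 3 := (dvd_pow_self _ (by omega)).trans h3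
        exact hqp.trans (hpp.dvd_of_dvd_pow h4)
      · have h1 : q ∣ (p : ℤ) ^ e * z ^ 3 := (dvd_pow_self q (by norm_num)).trans hq3
        rcases hq.dvd_or_dvd h1 with h2 | h2
        · exact absurd (hq.dvd_of_dvd_pow h2) hqp
        · exact hq.dvd_of_dvd_pow h2
    obtain ⟨z', hz'⟩ := hqz
    have hz'0 : z' ≠ 0 := by rintro rfl; simp at hz'; exact hz0 hz'
    have hlt : z'.natAbs < n := by
      rw [← hzn, hz', Int.natAbs_mul]
      have h1 : 1 < q.natAbs := by
        have := hq.not_isUnit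
        rw [Int.isUnit_iff_natAbs_eq] at this
        have h2 : q.natAbs ≠ 0 := Int.natAbs_ne_zero.mpr hq.ne_zero
        omega
      have h2 : 0 < z'.natAbs := Int.natAbs_pos.mpr hz'0
      nlinarith
    refine ih _ hlt x' y' z' rfl hz'0 ?_
    have hq30 : q ^ 3 ≠ 0 := pow_ne_zero _ hq.ne_zero
    apply mul_left_cancel₀ hq30
    rw [hx', hy', hz'] at hxyz
    linear_combination hxyz
  · have hco1 : IsCoprime (x + y) x := by
      obtain ⟨u, v, huv⟩ := hco
      exact ⟨v, u - v, by linear_combination huv⟩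
    have hco2 : IsCoprime (x + y) y := by
      obtain ⟨u, v, huv⟩ := hco
      exact ⟨u, v - u, by linear_combination huv⟩
    have hcoxy : IsCoprime (x + y) (x * y) := hco1.mul_right hco2
    have hST : (x + y) * (⟨x, y⟩ : Eis).norm = (p : ℤ) ^ e * z ^ 3 := by
      rw [← hxyz, norm_def]; ring
    have hno3 : ¬ ((3 : ℤ) ∣ x ∧ (3 : ℤ) ∣ y) := by
      rintro ⟨h1, h2⟩
      exact Int.prime_three.not_isUnit (hco.isUnit_of_dvd' h1 h2)
    by_cases h3z : (3 : ℤ) ∣ z
    · -- Case A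
      obtain ⟨z1, hz1⟩ := h3z
      have h3S : (3 : ℤ) ∣ x + y := by
        have h1 : (3 : ℤ) ∣ x ^ 3 + y ^ 3 := by
          rw [hxyz, hz1]; exact ⟨(p : ℤ) ^ e * (9 * z1 ^ 3), by ring⟩
        have h2 : (3 : ℤ) ∣ (x ^ 3 + y ^ 3) - (x + y) := by
          have h4 : ∀ a : ℤ, (3 : ℤ) ∣ a ^ 3 - a := by
            intro a
            have : a % 3 = 0 ∨ a % 3 = 1 ∨ a % 3 = 2 := by omega
            apply Int.dvd_of_emod_eq_zero
            rcases this with h | h | h <;>
              simp [pow_succ, Int.sub_emod, Int.mul_emod, h]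
          have := dvd_add (h4 x) (h4 y)
          have e5 : x ^ 3 - x + (y ^ 3 - y) = (x ^ 3 + y ^ 3) - (x + y) := by ring
          rwa [e5] at this
        have := dvd_sub h1 h2
        simpa using this
      have h3y : ¬ (3 : ℤ) ∣ y := by
        intro h; exact hno3 ⟨by omega, h⟩
      have h3x : ¬ (3 : ℤ) ∣ x := by
        intro h; exact hno3 ⟨h, by omega⟩
      obtain ⟨S0, hS0⟩ := h3S
      have hT : (⟨x, y⟩ : Eis).norm = 3 * (3 * S0 ^ 2 - x * y) := by
        rw [norm_def]; simp only; linear_combination (x + y + 3 * S0) * hS0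
      have h3T' : ¬ (3 : ℤ) ∣ 3 * S0 ^ 2 - x * y := by
        intro h
        have : (3 : ℤ) ∣ x * y := by
          have h4 := dvd_sub (dvd_mul_right (3 : ℤ) (S0 ^ 2)) h
          have e5 : 3 * S0 ^ 2 - (3 * S0 ^ 2 - x * y) = x * y := by ring
          rwa [e5] at h4
        rcases Int.prime_three.dvd_or_dvd this with h | h
        · exact h3x h
        · exact h3y h
      have hST' : S0 * (3 * S0 ^ 2 - x * y) = 3 * ((p : ℤ) ^ e * z1 ^ 3) := by
        rw [hT, hS0, hz1] at hST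
        have h9 : (9 : ℤ) ≠ 0 := by norm_num
        apply mul_left_cancel₀ h9
        linear_combination hST
      have h3S0 : (3 : ℤ) ∣ S0 := by
        have h4 : (3 : ℤ) ∣ S0 * (3 * S0 ^ 2 - x * y) := ⟨_, hST'⟩
        exact (Int.prime_three.dvd_or_dvd h4).resolve_right h3T'
      obtain ⟨S', hS'⟩ := h3S0
      have hS9 : x + y = 9 * S' := by rw [hS0, hS']; ring
      set η : Eis := ⟨-y + 6 * S', 3 * S'⟩ with hη
      have hηlam : (⟨x, y⟩ : Eis) = lam * η := by
        ext
        · simp only [hη, mul_re, lam_re, lam_im]; linarith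
        · simp only [hη, mul_im, lam_re, lam_im]; ring
      have hηnorm : η.norm = 3 * S0 ^ 2 - x * y := by
        have h4 := congrArg Eis.norm hηlam
        rw [norm_mul, norm_lam, hT] at h4
        linarith
      have hηS : S' * η.norm = (p : ℤ) ^ e * z1 ^ 3 := by
        rw [hηnorm]
        have h9 : (3 : ℤ) ≠ 0 := by norm_num
        apply mul_left_cancel₀ h9
        rw [← hST', hS']; ring
      have hηprim : Prim η := by
        refine ⟨⟨S', rfl⟩, ?_⟩
        simp only [hη]; omega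
      have hηcop : IsCoprime η (conj η) := by
        apply isCoprime_of_prime_dvd
        · rintro ⟨h, -⟩
          exact hηprim.not_lam_dvd (by rw [h]; exact dvd_zero _)
        · intro l hl h1 h2
          have h4 : l ∣ (⟨x, y⟩ : Eis) := by rw [hηlam]; exact Dvd.dvd.mul_left h1 _
          have h5 : l ∣ conj (⟨x, y⟩ : Eis) := by
            rw [hηlam, map_mul]; exact Dvd.dvd.mul_left h2 _
          have h6 := coprime_xi hco hl h4 h5
          exact hηprim.not_lam_dvd (h6.symm.dvd.trans h1)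
      have hηdiff : η - conj η = 3 * r3 * (S' : Eis) := by
        rw [r3_eq, w_sq, three_eq_cast]
        ext
        · simp only [hη, mul_re, mul_im, sub_re, conj_re, conj_im, sub_im, neg_re, neg_im, one_re,
            one_im, w_re, w_im, intCast_re, intCast_im]; ring
        · simp only [hη, mul_re, mul_im, sub_re, conj_re, conj_im, sub_im, neg_re, neg_im, one_re,
            one_im, w_re, w_im, intCast_re, intCast_im]; ring
      have hcoS : IsCoprime S' η.norm := by
        have h4 : IsCoprime S' (x * y) := hcoxy.of_isCoprime_of_dvd_left ⟨9, by rw [hS9]; ring⟩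
        have h5 : η.norm = S' * (27 * S') + -(x * y) := by rw [hηnorm, hS']; ring
        rw [h5]
        exact (IsCoprime.mul_add_left_right h4.neg_right (27 * S'))
      by_cases hpS : (p : ℤ) ∣ S'
      · -- Case II-a
        have hpT : ¬ (p : ℤ) ∣ η.norm := fun h =>
          hpp.not_isUnit (hcoS.isUnit_of_dvd' hpS h)
        have h4 : (p : ℤ) ^ e ∣ S' :=
          hpp.pow_dvd_of_dvd_mul_right e hpT (by rw [hηS]; exact dvd_mul_right _ _)
        obtain ⟨S'', hS''⟩ := h4
        have h5 : S'' * η.norm = z1 ^ 3 := by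
          apply mul_left_cancel₀ hp0
          rw [← hηS, hS'']; ring
        have hcoS'' : IsCoprime S'' η.norm := hcoS.of_isCoprime_of_dvd_left
          ⟨(p : ℤ) ^ e, by rw [hS'']; ring⟩
        obtain ⟨s, hs⟩ := Int.eq_pow_of_mul_eq_pow_odd_left hcoS'' (by decide : Odd 3) h5
        obtain ⟨t, ht⟩ := Int.eq_pow_of_mul_eq_pow_odd_right hcoS'' (by decide : Odd 3) h5
        obtain ⟨γ, hγ, hγ3⟩ := extract (ρ := 1) prim_one (one_dvd _) hηprim hηcop (t := t)
          (by rw [norm_one, one_mul, ht])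
        rw [one_mul] at hγ
        have hs0 : s ≠ 0 := by
          rintro rfl
          rw [hs] at h5
          have : z1 ^ 3 = 0 := by rw [← h5]; ring
          have h6 := pow_eq_zero_iff (by norm_num) |>.mp this
          rw [hz1, h6] at hz0; simp at hz0
        obtain ⟨α, δ⟩ := γ
        have hprod : α * δ * (α - δ) = (p : ℤ) ^ e * s ^ 3 := by
          have h6 := congrArg Eis.im hγ
          simp only [hη, pow_succ, pow_zero, one_mul, mul_im, mul_re] at h6
          rw [← hs, ← hS'']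
          linarith
        have hcoad : IsCoprime α δ := by
          apply isCoprime_of_prime_dvd
          · rintro ⟨rfl, rfl⟩
            exact hγ3 (by rw [show (⟨0, 0⟩ : Eis) = 0 from rfl]; exact dvd_zero _)
          · intro q hq h6 h7
            have h8 : (q : Eis) ∣ (⟨α, δ⟩ : Eis) := intCast_dvd_iff.mpr ⟨h6, h7⟩
            have h9 : (q : Eis) ∣ η := by rw [hγ]; exact Dvd.dvd.pow h8 (by norm_num)
            have h10 : (q : Eis) ∣ conj η := by
              have := conj_dvd h9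
              rwa [conj_intCast] at this
            have h11 := hηcop.isUnit_of_dvd' h9 h10
            rw [isUnit_iff_norm, norm_intCast] at h11
            apply hq.not_isUnit
            rw [Int.isUnit_iff]
            exact sq_eq_one_iff_of_side h11
        have hc1 : IsCoprime α (α - δ) := by
          obtain ⟨u, v, huv⟩ := hcoad
          exact ⟨u + v, -v, by linear_combination huv⟩
        have hc2 : IsCoprime δ (α - δ) := by
          obtain ⟨u, v, huv⟩ := hcoad
          exact ⟨u + v, u, by linear_combination huv⟩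
        have hz10 : z1 ≠ 0 := by rintro rfl; simp at hz1; exact hz0 hz1
        have hsz : s ∣ z1 := by
          have : s ^ 3 ∣ z1 ^ 3 := ⟨η.norm, by rw [← h5, hs]⟩
          exact (Int.pow_dvd_pow_iff (by norm_num)).mp this
        have hle : s.natAbs ≤ z1.natAbs :=
          Nat.le_of_dvd (Int.natAbs_pos.mpr hz10) (Int.natAbs_dvd_natAbs.mpr hsz)
        have hn3 : n = 3 * z1.natAbs := by rw [← hzn, hz1, Int.natAbs_mul]; rfl
        have hz1pos : 0 < z1.natAbs := Int.natAbs_pos.mpr hz10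
        have hpprod : (p : ℤ) ∣ α * δ * (α - δ) := by
          rw [hprod]; exact Dvd.dvd.mul_right (dvd_pow_self _ he0.ne') _
        rcases hpp.dvd_or_dvd hpprod with h6 | h6
        · rcases hpp.dvd_or_dvd h6 with h7 | h7
          · obtain ⟨a, b, c, ha, hb, hc, ha0, hle2⟩ :=
              three_factors hcoad hc1 hc2 hprod hs0 h7
            refine ih a.natAbs (by omega) b c a rfl ha0 ?_
            rw [← ha, ← hb, ← hc]; ring
          · obtain ⟨a, b, c, ha, hb, hc, ha0, hle2⟩ :=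
              three_factors (e := e) hcoad.symm hc2 hc1 (by rw [← hprod]; ring) hs0 h7
            refine ih a.natAbs (by omega) b (-c) a rfl ha0 ?_
            rw [← ha]
            linear_combination hc - hb
        · obtain ⟨a, b, c, ha, hb, hc, ha0, hle2⟩ :=
            three_factors (e := e) hc1.symm hc2.symm hcoad (by rw [← hprod]; ring) hs0 h6
          refine ih a.natAbs (by omega) b (-c) a rfl ha0 ?_
          rw [← ha]
          linear_combination hc - hb
      · -- Case I-a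
        have h4 : (p : ℤ) ^ e ∣ η.norm :=
          hpp.pow_dvd_of_dvd_mul_left e hpS (by rw [hηS]; exact dvd_mul_right _ _)
        obtain ⟨T'', hT''⟩ := h4
        have h5 : S' * T'' = z1 ^ 3 := by
          apply mul_left_cancel₀ hp0
          rw [← hηS, hT'']; ring
        have hcoS'' : IsCoprime S' T'' := hcoS.of_isCoprime_of_dvd_right
          ⟨(p : ℤ) ^ e, by rw [hT'']; ring⟩
        obtain ⟨s, hs⟩ := Int.eq_pow_of_mul_eq_pow_odd_left hcoS'' (by decide : Odd 3) h5
        obtain ⟨t, ht⟩ := Int.eq_pow_of_mul_eq_pow_odd_right hcoS'' (by decide : Odd 3) h5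
        have hdiff : η - conj η = 3 * r3 * (s : Eis) ^ 3 := by
          rw [hηdiff, hs]; push_cast; rfl
        rcases exists_rho hπ e he0 hηcop ⟨T'', hT''⟩ with h6 | h6
        · obtain ⟨γ, hγ, hγ3⟩ := extract (hπprim.pow e) h6 hηprim hηcop (t := t)
            (by rw [hnormpow, hT'', ht])
          exact concl_of_root hp3 he (hr2 φ')
            (caseIa hp9 hπ hM φ' hφ' he hγ hγ3 hηcop hdiff)
        · obtain ⟨γ, hγ, hγ3⟩ := extract (hπprim.conj.pow e) h6 hηprim hηcop (t := t)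
            (by rw [hnormpowc, hT'', ht])
          apply Concl.neg he
          refine concl_of_root hp3 he (hr2 φ)
            (caseIa hp9 hπc hMc φ (by rw [conj_conj]; exact hφ) he hγ hγ3 hηcop hdiff)
    · -- Case B
      have key : ∀ x y : ℤ, IsCoprime x y → (3 : ℤ) ∣ y → ¬ (3 : ℤ) ∣ x →
          IsCoprime (x + y) (x * y) → (x + y) * (⟨x, y⟩ : Eis).norm = (p : ℤ) ^ e * z ^ 3 →
          Concl p e M := by
        clear hco hco1 hco2 hcoxy hST hno3 hxyz
        intro x y hco h3y h3x hcoxy hST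
        set ξ : Eis := ⟨x, y⟩ with hξ
        have hξprim : Prim ξ := ⟨h3y, h3x⟩
        have hξcop : IsCoprime ξ (conj ξ) := by
          apply isCoprime_of_prime_dvd
          · rintro ⟨h, -⟩
            exact hξprim.not_lam_dvd (by rw [h]; exact dvd_zero _)
          · intro l hl h1 h2
            have h6 := coprime_xi hco hl h1 h2
            exact hξprim.not_lam_dvd (h6.symm.dvd.trans h1)
        have hS3 : IsCoprime (x + y) 3 := by
          rw [isCoprime_comm, Int.prime_three.irreducible.coprime_iff_not_dvd]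
          omega
        have hcoS : IsCoprime (x + y) ξ.norm := by
          have h4 : IsCoprime (x + y) (3 * (x * y)) := hS3.mul_right hcoxy
          have h5 : ξ.norm = (x + y) * (x + y) + -(3 * (x * y)) := by
            rw [norm_def]; simp only [hξ]; ring
          rw [h5]
          exact (IsCoprime.mul_add_left_right h4.neg_right (x + y))
        by_cases hpS : (p : ℤ) ∣ x + y
        · -- Case II-b
          have hpT : ¬ (p : ℤ) ∣ ξ.norm := fun h =>
            hpp.not_isUnit (hcoS.isUnit_of_dvd' hpS h)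
          have h4 : (p : ℤ) ^ e ∣ x + y :=
            hpp.pow_dvd_of_dvd_mul_right e hpT (by rw [hST]; exact dvd_mul_right _ _)
          obtain ⟨S'', hS''⟩ := h4
          have h5 : S'' * ξ.norm = z ^ 3 := by
            apply mul_left_cancel₀ hp0
            rw [← hST, hS'']; ring
          have hcoS'' : IsCoprime S'' ξ.norm := hcoS.of_isCoprime_of_dvd_left
            ⟨(p : ℤ) ^ e, by rw [hS'']; ring⟩
          obtain ⟨s, hs⟩ := Int.eq_pow_of_mul_eq_pow_odd_left hcoS'' (by decide : Odd 3) h5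
          obtain ⟨t, ht⟩ := Int.eq_pow_of_mul_eq_pow_odd_right hcoS'' (by decide : Odd 3) h5
          obtain ⟨γ, hγ, hγ3⟩ := extract (ρ := 1) prim_one (one_dvd _) hξprim hξcop (t := t)
            (by rw [norm_one, one_mul, ht])
          rw [one_mul] at hγ
          exact hIIb ξ γ s hγ hγ3 hξcop h3y (by rw [← hs, ← hS''])
        · -- Case I-b
          have h4 : (p : ℤ) ^ e ∣ ξ.norm :=
            hpp.pow_dvd_of_dvd_mul_left e hpS (by rw [hST]; exact dvd_mul_right _ _)
          obtain ⟨T'', hT''⟩ := h4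
          have h5 : (x + y) * T'' = z ^ 3 := by
            apply mul_left_cancel₀ hp0
            rw [← hST, hT'']; ring
          have hcoS'' : IsCoprime (x + y) T'' := hcoS.of_isCoprime_of_dvd_right
            ⟨(p : ℤ) ^ e, by rw [hT'']; ring⟩
          obtain ⟨s, hs⟩ := Int.eq_pow_of_mul_eq_pow_odd_left hcoS'' (by decide : Odd 3) h5
          obtain ⟨t, ht⟩ := Int.eq_pow_of_mul_eq_pow_odd_right hcoS'' (by decide : Odd 3) h5
          rcases exists_rho hπ e he0 hξcop ⟨T'', hT''⟩ with h6 | h6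
          · obtain ⟨γ, hγ, hγ3⟩ := extract (hπprim.pow e) h6 hξprim hξcop (t := t)
              (by rw [hnormpow, hT'', ht])
            exact concl_of_root hp3 he (hr2 φ')
              (caseIb hp9 hπ hM φ' hφ' he hγ hγ3 hξcop hs)
          · obtain ⟨γ, hγ, hγ3⟩ := extract (hπprim.conj.pow e) h6 hξprim hξcop (t := t)
              (by rw [hnormpowc, hT'', ht])
            apply Concl.neg he
            refine concl_of_root hp3 he (hr2 φ)
              (caseIb hp9 hπc hMc φ (by rw [conj_conj]; exact hφ) he hγ hγ3 hξcop hs)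
      -- one of x, y is divisible by 3
      have h3xy : (3 : ℤ) ∣ x ∨ (3 : ℤ) ∣ y := by
        by_contra hcon
        push Not at hcon
        obtain ⟨h3x, h3y⟩ := hcon
        have hcube : ∀ a : ℤ, ¬ (3 : ℤ) ∣ a → ∃ b, a ^ 3 = 1 + 9 * b ∨ a ^ 3 = -1 + 9 * b := by
          intro a ha
          have : a % 3 = 1 ∨ a % 3 = 2 := by omega
          rcases this with h | h
          · obtain ⟨u, hu⟩ : ∃ u, a = 1 + 3 * u := ⟨a / 3, by omega⟩
            exact ⟨u + 3 * u ^ 2 + 3 * u ^ 3, Or.inl (by rw [hu]; ring)⟩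
          · obtain ⟨u, hu⟩ : ∃ u, a = -1 + 3 * u := ⟨(a + 1) / 3, by omega⟩
            exact ⟨u - 3 * u ^ 2 + 3 * u ^ 3, Or.inr (by rw [hu]; ring)⟩
        obtain ⟨a1, h1⟩ := hcube x h3x
        obtain ⟨a2, h2⟩ := hcube y h3y
        obtain ⟨a3, h3⟩ := hcube z h3z
        obtain ⟨k, hk⟩ : ∃ k : ℤ, (p : ℤ) ^ e = 1 + 9 * k := by
          obtain ⟨k0, hk0⟩ : ∃ k : ℤ, (p : ℤ) = 1 + 9 * k := ⟨p / 9, by omega⟩
          rcases he with h | h
          · exact ⟨k0, by rw [h, pow_one, hk0]⟩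
          · exact ⟨2 * k0 + 9 * k0 ^ 2, by rw [h, hk0]; ring⟩
        rw [hk] at hxyz
        have h5 : x ^ 3 + y ^ 3 = z ^ 3 + 9 * (k * z ^ 3) := by rw [hxyz]; ring
        generalize x ^ 3 = X at *
        generalize y ^ 3 = Y at *
        generalize k * z ^ 3 = KZ at *
        generalize z ^ 3 = Z at *
        omega
      rcases h3xy with h | h
      · exact key y x hco.symm h (fun h' => hno3 ⟨h, h'⟩) (by
          rw [add_comm y x, mul_comm y x]; exact hcoxy) (by
          rw [← hST, norm_def, norm_def]; simp only; ring)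
      · exact key x y hco h (fun h' => hno3 ⟨h', h⟩) hcoxy hST

end Pool.Agent.Lib_helper18


end

section

/-!
# The ring of integers of the ninth cyclotomic field, as a cubic extension of the Eisenstein
integers
-/

namespace Pool.Agent.Lib_helper18

open Eis

/-- `a + b z + c z^2` with `z^3 = w` -/
@[ext] structure Z9 where
  a : Eis
  b : Eis
  c : Eis

namespace Z9

instance : Zero Z9 := ⟨⟨0, 0, 0⟩⟩
instance : One Z9 := ⟨⟨1, 0, 0⟩⟩
instance : Add Z9 := ⟨fun x y => ⟨x.a + y.a, x.b + y.b, x.c + y.c⟩⟩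
instance : Neg Z9 := ⟨fun x => ⟨-x.a, -x.b, -x.c⟩⟩
instance : Sub Z9 := ⟨fun x y => ⟨x.a - y.a, x.b - y.b, x.c - y.c⟩⟩
instance : Mul Z9 := ⟨fun x y => ⟨x.a * y.a + w * (x.b * y.c + x.c * y.b),
  x.a * y.b + x.b * y.a + w * (x.c * y.c), x.a * y.c + x.b * y.b + x.c * y.a⟩⟩
instance : NatCast Z9 := ⟨fun n => ⟨n, 0, 0⟩⟩
instance : IntCast Z9 := ⟨fun n => ⟨n, 0, 0⟩⟩

@[simp] theorem zero_a : (0 : Z9).a = 0 := rfl
@[simp] theorem zero_b : (0 : Z9).b = 0 := rfl
@[simp] theorem zero_c : (0 : Z9).c = 0 := rfl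
@[simp] theorem one_a : (1 : Z9).a = 1 := rfl
@[simp] theorem one_b : (1 : Z9).b = 0 := rfl
@[simp] theorem one_c : (1 : Z9).c = 0 := rfl
@[simp] theorem add_a (x y : Z9) : (x + y).a = x.a + y.a := rfl
@[simp] theorem add_b (x y : Z9) : (x + y).b = x.b + y.b := rfl
@[simp] theorem add_c (x y : Z9) : (x + y).c = x.c + y.c := rfl
@[simp] theorem neg_a (x : Z9) : (-x).a = -x.a := rfl
@[simp] theorem neg_b (x : Z9) : (-x).b = -x.b := rfl
@[simp] theorem neg_c (x : Z9) : (-x).c = -x.c := rfl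
@[simp] theorem sub_a (x y : Z9) : (x - y).a = x.a - y.a := rfl
@[simp] theorem sub_b (x y : Z9) : (x - y).b = x.b - y.b := rfl
@[simp] theorem sub_c (x y : Z9) : (x - y).c = x.c - y.c := rfl
@[simp] theorem mul_a (x y : Z9) :
    (x * y).a = x.a * y.a + w * (x.b * y.c + x.c * y.b) := rfl
@[simp] theorem mul_b (x y : Z9) :
    (x * y).b = x.a * y.b + x.b * y.a + w * (x.c * y.c) := rfl
@[simp] theorem mul_c (x y : Z9) :
    (x * y).c = x.a * y.c + x.b * y.b + x.c * y.a := rfl
@[simp] theorem natCast_a (n : ℕ) : (n : Z9).a = n := rfl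
@[simp] theorem natCast_b (n : ℕ) : (n : Z9).b = 0 := rfl
@[simp] theorem natCast_c (n : ℕ) : (n : Z9).c = 0 := rfl
@[simp] theorem intCast_a (n : ℤ) : (n : Z9).a = n := rfl
@[simp] theorem intCast_b (n : ℤ) : (n : Z9).b = 0 := rfl
@[simp] theorem intCast_c (n : ℤ) : (n : Z9).c = 0 := rfl

instance : CommRing Z9 where
  add_assoc x y z := by apply Z9.ext <;> simp [add_assoc]
  zero_add x := by apply Z9.ext <;> simp
  add_zero x := by apply Z9.ext <;> simp
  add_comm x y := by apply Z9.ext <;> simp [add_comm]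
  neg_add_cancel x := by apply Z9.ext <;> simp
  sub_eq_add_neg x y := by apply Z9.ext <;> simp [sub_eq_add_neg]
  left_distrib x y z := by apply Z9.ext <;> simp only [mul_a, mul_b, mul_c, add_a, add_b, add_c]
    <;> ring
  right_distrib x y z := by apply Z9.ext <;> simp only [mul_a, mul_b, mul_c, add_a, add_b, add_c]
    <;> ring
  zero_mul x := by apply Z9.ext <;> simp
  mul_zero x := by apply Z9.ext <;> simp
  mul_assoc x y z := by apply Z9.ext <;> simp only [mul_a, mul_b, mul_c] <;> ring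
  one_mul x := by apply Z9.ext <;> simp
  mul_one x := by apply Z9.ext <;> simp
  mul_comm x y := by apply Z9.ext <;> simp only [mul_a, mul_b, mul_c] <;> ring
  nsmul := nsmulRec
  zsmul := zsmulRec
  natCast_zero := by apply Z9.ext <;> simp
  natCast_succ n := by apply Z9.ext <;> simp
  intCast_ofNat n := by apply Z9.ext <;> simp
  intCast_negSucc n := by apply Z9.ext <;> simp [Int.negSucc_eq]

/-- the ninth root of unity -/
def z : Z9 := ⟨0, 1, 0⟩

/-- the embedding of the Eisenstein integers -/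
def ι : Eis →+* Z9 where
  toFun x := ⟨x, 0, 0⟩
  map_one' := rfl
  map_mul' x y := by apply Z9.ext <;> simp
  map_zero' := rfl
  map_add' x y := by apply Z9.ext <;> simp

@[simp] theorem ι_a (x : Eis) : (ι x).a = x := rfl
@[simp] theorem ι_b (x : Eis) : (ι x).b = 0 := rfl
@[simp] theorem ι_c (x : Eis) : (ι x).c = 0 := rfl
@[simp] theorem z_a : z.a = 0 := rfl
@[simp] theorem z_b : z.b = 1 := rfl
@[simp] theorem z_c : z.c = 0 := rfl

theorem z_cube : z ^ 3 = ι w := by
  have : z ^ 3 = z * z * z := by ring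
  rw [this]
  apply Z9.ext <;> simp

theorem z_nine : z ^ 9 = 1 := by
  have : z ^ 9 = (z ^ 3) ^ 3 := by ring
  rw [this, z_cube, ← map_pow, w_cube, map_one]

/-- evaluation at a root of `X^3 = w` -/
def ev {R : Type*} [CommRing R] (φ : Eis →+* R) (t : R) (ht : t ^ 3 = φ w) : Z9 →+* R where
  toFun x := φ x.a + φ x.b * t + φ x.c * t ^ 2
  map_one' := by simp
  map_mul' x y := by
    simp only [mul_a, mul_b, mul_c, map_add, map_mul]
    linear_combination (-(φ x.b * φ y.c + φ x.c * φ y.b) - φ x.c * φ y.c * t) * ht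
  map_zero' := by simp
  map_add' x y := by simp only [add_a, add_b, add_c, map_add]; ring

theorem ev_apply {R : Type*} [CommRing R] (φ : Eis →+* R) (t : R) (ht : t ^ 3 = φ w) (x : Z9) :
    ev φ t ht x = φ x.a + φ x.b * t + φ x.c * t ^ 2 := rfl

theorem ev_ι {R : Type*} [CommRing R] (φ : Eis →+* R) (t : R) (ht : t ^ 3 = φ w) (x : Eis) :
    ev φ t ht (ι x) = φ x := by
  rw [ev_apply]; simp

theorem ev_z {R : Type*} [CommRing R] (φ : Eis →+* R) (t : R) (ht : t ^ 3 = φ w) :
    ev φ t ht z = t := by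
  rw [ev_apply]; simp

/-- the automorphism `z ↦ w z` -/
def σ : Z9 →+* Z9 := ev ι (ι w * z) (by
  rw [mul_pow, z_cube, ← map_pow, w_cube, map_one, one_mul])

theorem σ_apply (x : Z9) : σ x = ι x.a + ι x.b * (ι w * z) + ι x.c * (ι w * z) ^ 2 := rfl
theorem σ_a (x : Z9) : (σ x).a = x.a := by
  rw [σ_apply]; simp [pow_two]
theorem σ_b (x : Z9) : (σ x).b = w * x.b := by
  rw [σ_apply]; simp [pow_two, mul_comm]
theorem σ_c (x : Z9) : (σ x).c = w ^ 2 * x.c := by
  rw [σ_apply]; simp [pow_two, mul_comm]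

/-- complex conjugation -/
def bar : Z9 →+* Z9 := ev (ι.comp Eis.conj) (ι (w ^ 2) * z ^ 2) (by
  have : (ι (w ^ 2) * z ^ 2) ^ 3 = ι (w ^ 6) * (z ^ 3) ^ 2 := by
    rw [mul_pow, ← map_pow]; ring_nf
  rw [this, z_cube, ← map_pow, ← map_mul, RingHom.comp_apply, conj_w]
  have e : w ^ 6 * w ^ 2 = w ^ 2 := by
    have := w_cube
    linear_combination (w ^ 5 + w ^ 2) * this
  rw [e])

theorem bar_apply (x : Z9) : bar x = ι (Eis.conj x.a) + ι (Eis.conj x.b) * (ι (w ^ 2) * z ^ 2) +
    ι (Eis.conj x.c) * (ι (w ^ 2) * z ^ 2) ^ 2 := rfl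

theorem bar_a (x : Z9) : (bar x).a = Eis.conj x.a := by
  rw [bar_apply]; simp [pow_two]
theorem bar_b (x : Z9) : (bar x).b = w ^ 2 * Eis.conj x.c := by
  rw [bar_apply]; simp [pow_two]
  have := w_cube
  linear_combination (w ^ 2 * Eis.conj x.c) * this
theorem bar_c (x : Z9) : (bar x).c = w ^ 2 * Eis.conj x.b := by
  rw [bar_apply]; simp [pow_two]; ring

theorem bar_z : bar z = z ^ 8 := by
  have : z ^ 8 = (z ^ 3) ^ 2 * z ^ 2 := by ring
  rw [this, z_cube, ← map_pow]
  apply Z9.ext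
  · rw [bar_a]; simp [pow_two]
  · rw [bar_b]; simp [pow_two]
  · rw [bar_c]; simp [pow_two]

theorem σ_z : σ z = z ^ 4 := by
  have : z ^ 4 = z ^ 3 * z := by ring
  rw [this, z_cube]
  apply Z9.ext
  · rw [σ_a]; simp
  · rw [σ_b]; simp
  · rw [σ_c]; simp

/-- relative norm -/
def N (x : Z9) : Eis := x.a ^ 3 + w * x.b ^ 3 + w ^ 2 * x.c ^ 3 - 3 * w * (x.a * x.b * x.c)

theorem N_def (x : Z9) :
    N x = x.a ^ 3 + w * x.b ^ 3 + w ^ 2 * x.c ^ 3 - 3 * w * (x.a * x.b * x.c) := rfl

theorem hom_N {R : Type*} [CommRing R] (φ : Eis →+* R) (t : R) (ht : t ^ 3 = φ w) (x : Z9) :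
    φ (N x) = (φ x.a + φ x.b * t + φ x.c * t ^ 2) *
      (φ x.a + φ x.b * (φ w * t) + φ x.c * (φ w * t) ^ 2) *
      (φ x.a + φ x.b * (φ w ^ 2 * t) + φ x.c * (φ w ^ 2 * t) ^ 2) := by
  have h3 : φ 3 = 3 := hom_three φ
  have hw := hom_w φ
  rw [N_def, map_sub, map_add, map_add, map_mul, map_mul, map_mul, map_mul, map_mul, map_mul, h3]
  simp only [map_pow]
  generalize φ x.a = a
  generalize φ x.b = b
  generalize φ x.c = c
  generalize φ w = W at *
  linear_combination (-(b ^ 3 + c ^ 3 * (t ^ 3 + W) - 3 * a * b * c)) * ht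
    - (a ^ 2 * b * t + a ^ 2 * c * t ^ 2 * W ^ 2 - a ^ 2 * c * t ^ 2 * W + a ^ 2 * c * t ^ 2 + a * b ^ 2 * t ^ 2 * W + a * b * c * t ^ 3 * W ^ 3 + a * b * c * t ^ 3 * W ^ 2 - 2 * a * b * c * t ^ 3 * W + 3 * a * b * c * t ^ 3 + a * c ^ 2 * t ^ 4 * W ^ 4 - a * c ^ 2 * t ^ 4 * W ^ 3 + a * c ^ 2 * t ^ 4 * W ^ 2 + b ^ 3 * t ^ 3 * W - b ^ 3 * t ^ 3 + b ^ 2 * c * t ^ 4 * W ^ 3 + b * c ^ 2 * t ^ 5 * W ^ 4 + c ^ 3 * t ^ 6 * W ^ 4 - c ^ 3 * t ^ 6 * W ^ 3 + c ^ 3 * t ^ 6 * W - c ^ 3 * t ^ 6) * hw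

theorem eq_sum (x : Z9) : x = ι x.a + ι x.b * z + ι x.c * z ^ 2 := by
  apply Z9.ext <;> simp [pow_two]

theorem ι_injective : Function.Injective ι := fun _ _ h => congrArg Z9.a h

theorem ι_N (x : Z9) : ι (N x) = x * σ x * σ (σ x) := by
  have h := hom_N ι z z_cube x
  have e1 : ι x.a + ι x.b * z + ι x.c * z ^ 2 = x := (eq_sum x).symm
  have e2 : ι x.a + ι x.b * (ι w * z) + ι x.c * (ι w * z) ^ 2 = σ x := rfl
  have e3 : ι x.a + ι x.b * (ι w ^ 2 * z) + ι x.c * (ι w ^ 2 * z) ^ 2 = σ (σ x) := by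
    rw [σ_apply (σ x), σ_a, σ_b, σ_c]
    simp only [map_mul, map_pow]
    ring
  exact h.trans (congrArg₂ (· * ·) (congrArg₂ (· * ·) e1 e2) e3)

theorem N_mul (x y : Z9) : N (x * y) = N x * N y := by
  apply ι_injective
  rw [ι_N (x * y), map_mul ι (N x) (N y), ι_N x, ι_N y, map_mul σ x y, map_mul σ (σ x) (σ y)]
  ring

theorem N_ι (x : Eis) : N (ι x) = x ^ 3 := by
  rw [N_def]; simp

theorem N_natCast (n : ℕ) : N (n : Z9) = (n : Eis) ^ 3 := by
  rw [N_def]; simp

theorem N_bar (x : Z9) : N (bar x) = Eis.conj (N x) := by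
  rw [N_def, N_def, bar_a, bar_b, bar_c]
  have h3 : Eis.conj 3 = 3 := conj_natCast 3
  simp only [map_sub, map_add, map_mul, map_pow, conj_w, h3]
  have := w_cube
  linear_combination (w ^ 4 * Eis.conj x.c ^ 3 + w ^ 5 * Eis.conj x.b ^ 3
    + w ^ 2 * Eis.conj x.b ^ 3 - 3 * w ^ 2 * Eis.conj x.a * Eis.conj x.b * Eis.conj x.c) * this

theorem N_σ (x : Z9) : N (σ x) = N x := by
  rw [N_def, N_def, σ_a, σ_b, σ_c]
  have := w_cube
  linear_combination (w * x.b ^ 3 + (w ^ 5 + w ^ 2) * x.c ^ 3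
    - 3 * w * x.a * x.b * x.c) * this

/-- an embedding into the complex numbers -/
theorem exists_embedding : ∃ f : Z9 →+* ℂ, Function.Injective f := by
  have hz := Complex.isPrimitiveRoot_exp 9 (by norm_num)
  set ζ : ℂ := Complex.exp (2 * Real.pi * Complex.I / (9 : ℕ)) with hζ
  clear_value ζ
  have h9 := hz.pow_eq_one
  have h3 : ζ ^ 3 ≠ 1 := fun h => by
    have := hz.dvd_of_pow_eq_one 3 h
    norm_num at this
  have ht : (ζ ^ 3) ^ 2 + ζ ^ 3 + 1 = 0 := by
    have h1 : (ζ ^ 3 - 1) * ((ζ ^ 3) ^ 2 + ζ ^ 3 + 1) = 0 := by linear_combination h9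
    rcases mul_eq_zero.mp h1 with h | h
    · exact absurd (sub_eq_zero.mp h) h3
    · exact h
  let φ : Eis →+* ℂ := Eis.lift (ζ ^ 3) ht
  have hφw : ζ ^ 3 = φ w := by
    show ζ ^ 3 = ((0 : ℤ) : ℂ) + ((1 : ℤ) : ℂ) * ζ ^ 3
    push_cast; ring
  refine ⟨ev φ ζ hφw, ?_⟩
  rw [injective_iff_map_eq_zero]
  intro x hx
  rw [ev_apply] at hx
  open Polynomial in
  let P : ℤ[X] := C x.a.re + C x.b.re * X + C x.c.re * X ^ 2 + C x.a.im * X ^ 3 +
    C x.b.im * X ^ 4 + C x.c.im * X ^ 5
  have hP : Polynomial.aeval ζ P = 0 := by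
    rw [← hx]
    simp only [P, map_add, map_mul, map_pow, Polynomial.aeval_C, Polynomial.aeval_X,
      algebraMap_int_eq, Int.coe_castRingHom]
    show _ = ((x.a.re : ℂ) + (x.a.im : ℂ) * ζ ^ 3) + ((x.b.re : ℂ) + (x.b.im : ℂ) * ζ ^ 3) * ζ +
      ((x.c.re : ℂ) + (x.c.im : ℂ) * ζ ^ 3) * ζ ^ 2
    ring
  have hint : IsIntegral ℤ ζ := hz.isIntegral (by norm_num)
  have hdvd := minpoly.isIntegrallyClosed_dvd hint hP
  rw [← Polynomial.cyclotomic_eq_minpoly hz (by norm_num)] at hdvd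
  have hP0 : P = 0 := by
    by_contra hne
    have h1 := Polynomial.natDegree_le_of_dvd hdvd hne
    rw [Polynomial.natDegree_cyclotomic] at h1
    have h2 : P.natDegree ≤ 5 := by
      simp only [P]
      compute_degree
    have h4 : Nat.totient 9 = 6 := by decide
    omega
  have hc : ∀ i, P.coeff i = 0 := fun i => by rw [hP0]; simp
  have c0 := hc 0
  have c1 := hc 1
  have c2 := hc 2
  have c3 := hc 3
  have c4 := hc 4
  have c5 := hc 5
  simp only [P, Polynomial.coeff_add, Polynomial.coeff_C_mul, Polynomial.coeff_X_pow,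
    Polynomial.coeff_X, Polynomial.coeff_C] at c0 c1 c2 c3 c4 c5
  norm_num at c0 c1 c2 c3 c4 c5
  apply Z9.ext <;> apply Eis.ext <;> simp only [zero_a, zero_b, zero_c, zero_re, zero_im] <;>
    assumption

instance : IsDomain Z9 := by
  obtain ⟨f, hf⟩ := exists_embedding
  exact hf.isDomain f

instance : CharZero Z9 := ⟨fun a b hab => by
  have h1 := congrArg Z9.a hab
  have h2 := congrArg Eis.re h1
  simpa using h2⟩

theorem z_primitive : IsPrimitiveRoot z 9 := by
  have h3 : ¬ z ^ 3 ^ 1 = 1 := by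
    rw [pow_one, z_cube]
    intro h
    have h1 := congrArg Z9.a h
    have h2 := congrArg Eis.re h1
    simp at h2
  have := orderOf_eq_prime_pow (p := 3) (n := 1) h3 (by
    have : 3 ^ (1 + 1) = 9 := by norm_num
    rw [this, z_nine])
  have h9 : orderOf z = 9 := by rw [this]; norm_num
  rw [← h9]
  exact IsPrimitiveRoot.orderOf z

end Z9

end Pool.Agent.Lib_helper18


end

section

/-!
# Jacobi sums of order nine
-/

namespace Pool.Agent.Lib_helper18

open Eis Z9

section fact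

variable {p : ℕ} [hp : Fact p.Prime]

theorem fact_mul_fact (k : ℕ) (hk : k ≤ p - 1) :
    ((k.factorial : ℕ) : ZMod p) * (((p - 1 - k).factorial : ℕ) : ZMod p) = (-1) ^ (k + 1) := by
  have hp2 := hp.out.two_le
  induction k with
  | zero =>
    have := ZMod.wilsons_lemma p
    simp only [Nat.factorial_zero, Nat.cast_one, one_mul, Nat.sub_zero, zero_add, pow_one]
    exact this
  | succ k ih =>
    have ih' := ih (by omega)
    have h1 : p - 1 - k = (p - 1 - (k + 1)) + 1 := by omega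
    rw [h1, Nat.factorial_succ, ← h1] at ih'
    rw [Nat.factorial_succ]
    push_cast at ih' ⊢
    have h2 : ((p - 1 - k : ℕ) : ZMod p) = -((k : ZMod p) + 1) := by
      have h3 : ((p - 1 - k : ℕ) : ZMod p) + ((k : ZMod p) + 1) = 0 := by
        have : (p - 1 - k) + (k + 1) = p := by omega
        have := congrArg (Nat.cast : ℕ → ZMod p) this
        push_cast at this
        rw [this]; simp
      linear_combination h3
    rw [h2] at ih'
    rw [pow_succ, ← ih']
    ring

theorem fact_ne_zero (k : ℕ) (hk : k < p) : ((k.factorial : ℕ) : ZMod p) ≠ 0 := by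
  rw [Ne, ZMod.natCast_eq_zero_iff, hp.out.dvd_factorial]
  omega

theorem fact_mult {m : ℕ} (hm : ((9 * m + 1 : ℕ) : ZMod p) = 0) (j : ℕ) :
    (((3 * j).factorial : ℕ) : ZMod p) * (((3 * m).factorial : ℕ) : ZMod p) *
      (((6 * m).factorial : ℕ) : ZMod p) = 27 ^ j * ((j.factorial : ℕ) : ZMod p) *
      (((3 * m + j).factorial : ℕ) : ZMod p) * (((6 * m + j).factorial : ℕ) : ZMod p) := by
  induction j with
  | zero => simp
  | succ j ih =>
    have e1 : (3 * (j + 1)).factorial =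
        (3 * j + 3) * ((3 * j + 2) * ((3 * j + 1) * (3 * j).factorial)) := by
      have : 3 * (j + 1) = 3 * j + 3 := by ring
      rw [this, Nat.factorial_succ, Nat.factorial_succ, Nat.factorial_succ]
    have e2 : (3 * m + (j + 1)).factorial = (3 * m + j + 1) * (3 * m + j).factorial := by
      rw [← add_assoc, Nat.factorial_succ]
    have e3 : (6 * m + (j + 1)).factorial = (6 * m + j + 1) * (6 * m + j).factorial := by
      rw [← add_assoc, Nat.factorial_succ]
    rw [e1, e2, e3, Nat.factorial_succ]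
    push_cast at hm ih ⊢
    have h1 : 3 * (3 * (m : ZMod p) + j + 1) = 3 * j + 2 := by linear_combination hm
    have h2 : 3 * (6 * (m : ZMod p) + j + 1) = 3 * j + 1 := by linear_combination 2 * hm
    have h3 : (27 : ZMod p) ^ (j + 1) * (((j : ZMod p) + 1) * (j.factorial : ZMod p)) *
        ((3 * m + j + 1) * ((3 * m + j).factorial : ZMod p)) *
        ((6 * m + j + 1) * ((6 * m + j).factorial : ZMod p)) =
        (3 * (3 * (m : ZMod p) + j + 1)) * (3 * (6 * (m : ZMod p) + j + 1)) * (3 * (j + 1)) *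
        (27 ^ j * (j.factorial : ZMod p) * ((3 * m + j).factorial : ZMod p) *
          ((6 * m + j).factorial : ZMod p)) := by
      rw [pow_succ]; ring
    rw [h3, h1, h2, ← ih]; ring

/-- values of Jacobi sums modulo p -/
noncomputable def jv (p m r : ℕ) [Fact p.Prime] : ZMod p :=
  ∑ x : ZMod p, x ^ (m * r) * (1 - x) ^ (m * r)

theorem jv_zero {m r : ℕ} (hm : p - 1 = 9 * m) (hr : 0 < r) (hr2 : r ≤ 4) : jv p m r = 0 := by
  have hp2 := hp.out.two_le
  have hm0 : 0 < m := by omega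
  have h1 : m * r ≤ m * 4 := Nat.mul_le_mul_left _ hr2
  have h2 : 0 < m * r := Nat.mul_pos hm0 hr
  rw [jv, sum_pow_mul_pow _ h2 (by omega), if_neg (by omega)]

theorem m_even {m : ℕ} (hm : p - 1 = 9 * m) : Even m := by
  have hp2 := hp.out.two_le
  rcases hp.out.eq_two_or_odd with h2 | h2
  · omega
  · rw [Nat.even_iff]; omega

theorem jv_eq {m r : ℕ} (hm : p - 1 = 9 * m) (hr : 5 ≤ r) (hr2 : r ≤ 8) :
    jv p m r = -(((r * m).choose ((9 - r) * m) : ℕ) : ZMod p) := by
  have hp2 := hp.out.two_le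
  have hm0 : 0 < m := by omega
  have h1 : m * r ≤ m * 8 := Nat.mul_le_mul_left _ hr2
  have h2 : m * 5 ≤ m * r := Nat.mul_le_mul_left _ hr
  have h3 : p - 1 - m * r = (9 - r) * m := by
    rw [hm, Nat.sub_mul, mul_comm m r]
  rw [jv, sum_pow_mul_pow _ (by omega) (by omega), if_pos (by omega), h3,
    ((m_even hm).mul_left _).neg_one_pow, one_mul, mul_comm m r]

theorem choose_eq {n k : ℕ} (hk : k ≤ n) :
    ((n.choose k : ℕ) : ZMod p) * ((k.factorial : ℕ) : ZMod p) *
      (((n - k).factorial : ℕ) : ZMod p) = ((n.factorial : ℕ) : ZMod p) := by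
  have := Nat.choose_mul_factorial_mul_factorial hk
  rw [← this]; push_cast; ring

theorem jv_ne_zero {m r : ℕ} (hm : p - 1 = 9 * m) (hr : 5 ≤ r) (hr2 : r ≤ 8) :
    jv p m r ≠ 0 := by
  have hp2 := hp.out.two_le
  have hm0 : 0 < m := by omega
  have h1 : m * r ≤ m * 8 := Nat.mul_le_mul_left _ hr2
  rw [jv_eq hm hr hr2, neg_ne_zero]
  intro h
  have h4 : (9 - r) * m ≤ r * m := Nat.mul_le_mul_right _ (by omega)
  have h3 := choose_eq (p := p) h4
  rw [h, zero_mul, zero_mul] at h3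
  exact fact_ne_zero (p := p) (r * m) (by rw [mul_comm]; omega) h3.symm

/-- The ratio of two Jacobi sums modulo `p` in terms of `(3m)!`. -/
theorem jv_ratio {m : ℕ} (hm : p - 1 = 9 * m) :
    jv p m 8 * (((3 * m).factorial : ℕ) : ZMod p) =
      -(((((4 * m).factorial : ℕ) : ZMod p) * 3 ^ m) ^ 3 * jv p m 5) := by
  have hp2 := hp.out.two_le
  have hm0 : 0 < m := by omega
  have hev := m_even hm
  have hp9 : ((9 * m + 1 : ℕ) : ZMod p) = 0 := by
    have : 9 * m + 1 = p := by omega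
    rw [this]; simp
  have w1 := fact_mul_fact (p := p) m (by omega)
  have w3 := fact_mul_fact (p := p) (3 * m) (by omega)
  have w4 := fact_mul_fact (p := p) (4 * m) (by omega)
  have o1 : p - 1 - m = 8 * m := by omega
  have o3 : p - 1 - 3 * m = 6 * m := by omega
  have o4 : p - 1 - 4 * m = 5 * m := by omega
  rw [o1, pow_succ, hev.neg_one_pow, one_mul] at w1
  rw [o3, pow_succ, (hev.mul_left 3).neg_one_pow, one_mul] at w3
  rw [o4, pow_succ, (hev.mul_left 4).neg_one_pow, one_mul] at w4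
  have hmult := fact_mult hp9 m
  have o5 : 3 * m + m = 4 * m := by ring
  have o6 : 6 * m + m = 7 * m := by ring
  rw [o5, o6] at hmult
  have c8 := choose_eq (p := p) (n := 8 * m) (k := m) (by omega)
  have c5 := choose_eq (p := p) (n := 5 * m) (k := 4 * m) (by omega)
  have o7 : 8 * m - m = 7 * m := by omega
  have o8 : 5 * m - 4 * m = m := by omega
  rw [o7] at c8
  rw [o8] at c5
  rw [jv_eq hm (by norm_num) (by norm_num), jv_eq hm (by norm_num) (by norm_num)]
  have o9 : (9 - 8) * m = m := by omega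
  have o10 : (9 - 5) * m = 4 * m := by omega
  rw [o9, o10]
  have n1 := fact_ne_zero (p := p) m (by omega)
  have n4 := fact_ne_zero (p := p) (4 * m) (by omega)
  have n7 := fact_ne_zero (p := p) (7 * m) (by omega)
  generalize (((m).factorial : ℕ) : ZMod p) = f1 at *
  generalize (((3 * m).factorial : ℕ) : ZMod p) = f3 at *
  generalize (((4 * m).factorial : ℕ) : ZMod p) = f4 at *
  generalize (((5 * m).factorial : ℕ) : ZMod p) = f5 at *
  generalize (((6 * m).factorial : ℕ) : ZMod p) = f6 at *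
  generalize (((7 * m).factorial : ℕ) : ZMod p) = f7 at *
  generalize (((8 * m).factorial : ℕ) : ZMod p) = f8 at *
  generalize (((8 * m).choose m : ℕ) : ZMod p) = C8 at *
  generalize (((5 * m).choose (4 * m) : ℕ) : ZMod p) = C5 at *
  have h27 : (27 : ZMod p) ^ m = (3 ^ m) ^ 3 := by
    rw [← pow_mul, mul_comm m 3, pow_mul]; norm_num
  rw [h27] at hmult
  generalize (3 : ZMod p) ^ m = T at *
  -- goal : -C8 * f3 = -((f4 * T)^3 * -C5)
  have hf3 : -f3 = T ^ 3 * f1 * f4 * f7 := by linear_combination hmult - f3 * w3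
  apply mul_left_cancel₀ (mul_ne_zero (mul_ne_zero n1 n1) n7)
  -- f1^2 f7 C8 f3 = f1 f8 f3 = - f3
  have g1 : f1 * f1 * f7 * (-C8 * f3) = f3 := by
    linear_combination (-f1 * f3) * c8 - f3 * w1
  have g2 : f1 * f1 * f7 * (-((f4 * T) ^ 3 * -C5)) = f3 := by
    linear_combination (f1 * f7 * f4 ^ 2 * T ^ 3) * c5 + (f1 * f7 * f4 * T ^ 3) * w4 + hf3
  rw [g1, g2]

/-- The middle Jacobi sum modulo `p`. -/
theorem jv_six {m : ℕ} (hm : p - 1 = 9 * m) :
    jv p m 6 * (((3 * m).factorial : ℕ) : ZMod p) ^ 3 = 1 := by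
  have hp2 := hp.out.two_le
  have hm0 : 0 < m := by omega
  have hev := m_even hm
  have w3 := fact_mul_fact (p := p) (3 * m) (by omega)
  have o3 : p - 1 - 3 * m = 6 * m := by omega
  rw [o3, pow_succ, (hev.mul_left 3).neg_one_pow, one_mul] at w3
  have c6 := choose_eq (p := p) (n := 6 * m) (k := 3 * m) (by omega)
  have o7 : 6 * m - 3 * m = 3 * m := by omega
  rw [o7] at c6
  rw [jv_eq hm (by norm_num) (by norm_num)]
  have o9 : (9 - 6) * m = 3 * m := by omega
  rw [o9]
  linear_combination (-(((3 * m).factorial : ℕ) : ZMod p)) * c6 - w3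

end fact

section char

variable {p : ℕ} [hp : Fact p.Prime]

theorem root_primitive (hp9 : p % 9 = 1) (φ : Eis →+* ZMod p) {t : ZMod p}
    (ht : t ^ 3 = φ w) : IsPrimitiveRoot t 9 := by
  have hw := hom_w_primitive (p := p) (by omega) φ
  have h3 : ¬ t ^ 3 ^ 1 = 1 := by
    rw [pow_one, ht]
    exact hw.ne_one (by norm_num)
  have := orderOf_eq_prime_pow (p := 3) (n := 1) h3 (by
    have : 3 ^ (1 + 1) = 3 * 3 := by norm_num
    rw [this, pow_mul, ht, hw.pow_eq_one])
  have h9 : orderOf t = 9 := by rw [this]; norm_num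
  rw [← h9]
  exact IsPrimitiveRoot.orderOf t

/-- a character of order nine -/
def IsPsi (ψ : MulChar (ZMod p) Z9) (t : ZMod p) (m : ℕ) : Prop :=
  (∀ x : ZMod p, x ≠ 0 → ∃ i : ℕ, ψ x = z ^ i ∧ t ^ i = x ^ m) ∧ ∃ x : ZMod p, x ≠ 0 ∧ ψ x = z

theorem exists_psi (hp9 : p % 9 = 1) {m : ℕ} (hm : p - 1 = 9 * m) (φ : Eis →+* ZMod p)
    {t : ZMod p} (ht : t ^ 3 = φ w) : ∃ ψ : MulChar (ZMod p) Z9, IsPsi ψ t m := by
  obtain ⟨ψ, h1, h2, h3⟩ := exists_mulChar (ev φ t ht) z z_nine
    (by rw [ev_z]; exact root_primitive hp9 φ ht) hm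
  refine ⟨ψ, ?_, h3⟩
  intro x hx
  obtain ⟨i, hi⟩ := h2 x hx
  refine ⟨i, hi, ?_⟩
  rw [← h1 x hx, hi, map_pow, ev_z]

variable {ψ : MulChar (ZMod p) Z9} {t : ZMod p} {m : ℕ}

theorem IsPsi.pow_nine (h : IsPsi ψ t m) : ψ ^ 9 = 1 := by
  refine MulChar.ext fun x => ?_
  rw [MulChar.pow_apply_coe]
  obtain ⟨i, hi, -⟩ := h.1 x x.ne_zero
  rw [hi, ← pow_mul, mul_comm, pow_mul, z_nine, one_pow, MulChar.one_apply_coe]

theorem IsPsi.orderOf (h : IsPsi ψ t m) : orderOf ψ = 9 := by
  have h3 : ¬ ψ ^ 3 ^ 1 = 1 := by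
    rw [pow_one]
    intro h3
    obtain ⟨x, hx, hx2⟩ := h.2
    have h4 : (ψ ^ 3) x = 1 := by rw [h3]; exact MulChar.one_apply (isUnit_iff_ne_zero.mpr hx)
    rw [MulChar.pow_apply' _ (by norm_num), hx2, z_cube] at h4
    have h1 := congrArg Z9.a h4
    have h2 := congrArg Eis.re h1
    simp at h2
  have := orderOf_eq_prime_pow (p := 3) (n := 1) h3 (by
    have : 3 ^ (1 + 1) = 9 := by norm_num
    rw [this, h.pow_nine])
  rw [this]; norm_num

/-- Jacobi sums of powers of `ψ` -/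
noncomputable def JJ (ψ : MulChar (ZMod p) Z9) (a : ℕ) : Z9 := jacobiSum (ψ ^ a) (ψ ^ a)

theorem IsPsi.JJ_add_nine (h : IsPsi ψ t m) (a : ℕ) : JJ ψ (a + 9) = JJ ψ a := by
  rw [JJ, JJ, pow_add, h.pow_nine, mul_one]

theorem IsPsi.ringHomComp (h : IsPsi ψ t m) (τ : Z9 →+* Z9) (j : ℕ) (hτ : τ z = z ^ j) :
    ψ.ringHomComp τ = ψ ^ j := by
  refine MulChar.ext fun x => ?_
  rw [MulChar.ringHomComp_apply, MulChar.pow_apply_coe]
  obtain ⟨i, hi, -⟩ := h.1 x x.ne_zero
  rw [hi, map_pow, hτ, ← pow_mul, ← pow_mul, mul_comm]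

theorem IsPsi.map_JJ (h : IsPsi ψ t m) (τ : Z9 →+* Z9) (j : ℕ) (hτ : τ z = z ^ j) (a : ℕ) :
    τ (JJ ψ a) = JJ ψ (j * a) := by
  rw [JJ, JJ, ← jacobiSum_ringHomComp, ← MulChar.ringHomComp_pow, h.ringHomComp τ j hτ, ← pow_mul]

theorem IsPsi.JJ_mul (h : IsPsi ψ t m) {a : ℕ} (ha : ¬ 3 ∣ a) :
    JJ ψ a * JJ ψ (8 * a) = (p : Z9) := by
  have hinv : (ψ ^ a)⁻¹ = ψ ^ (8 * a) := by
    rw [inv_eq_iff_mul_eq_one, ← pow_add]
    have : a + 8 * a = 9 * a := by ring
    rw [this, pow_mul, h.pow_nine, one_pow]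
  rw [JJ, JJ, ← hinv]
  have hord := h.orderOf
  have hno : ∀ k, ¬ 9 ∣ k → ψ ^ k ≠ 1 := by
    intro k hk h1
    rw [← orderOf_dvd_iff_pow_eq_one, hord] at h1
    exact hk h1
  apply jacobiSum_mul_inv
  · apply hno; omega
  · rw [← pow_add]; apply hno; omega

theorem IsPsi.JJ_mod (h : IsPsi ψ t m) (hm : p - 1 = 9 * m) (a : ℕ) :
    ∃ y : Z9, JJ ψ a = -1 + y * (z - 1) ^ 2 := by
  have h9 : (ψ ^ a) ^ 9 = 1 := by rw [← pow_mul, mul_comm, pow_mul, h.pow_nine, one_pow]
  have hdvd : 9 ∣ Fintype.card (ZMod p) - 1 := by rw [ZMod.card, hm]; exact dvd_mul_right _ _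
  obtain ⟨y, -, hy⟩ := exists_jacobiSum_eq_neg_one_add (n := 9) (by norm_num : 2 < 9)
    (χ := ψ ^ a) (ψ := ψ ^ a) (μ := z) h9 h9 hdvd z_primitive
  exact ⟨y, hy⟩

/-- evaluation of Jacobi sums modulo `p` -/
theorem IsPsi.ev_JJ (h : IsPsi ψ t m) (hm : p - 1 = 9 * m) (E : Z9 →+* ZMod p) {j : ℕ}
    (hE : E z = t ^ j) {a r : ℕ} (hr : (a * j) % 9 = r) (hr0 : 0 < r) :
    E (JJ ψ a) = jv p m r := by
  have hp2 := hp.out.two_le
  have hm0 : 0 < m := by omega
  have h1 : ∀ x : ZMod p, x ≠ 0 → E ((ψ ^ a) x) = x ^ (m * r) := by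
    intro x hx
    obtain ⟨i, hi, hi2⟩ := h.1 x hx
    have ha0 : a ≠ 0 := by rintro rfl; simp at hr; omega
    rw [MulChar.pow_apply' _ ha0, hi, map_pow, map_pow, hE]
    have e1 : (((t ^ j) ^ i) ^ a) = (t ^ i) ^ (a * j) := by
      rw [← pow_mul, ← pow_mul, ← pow_mul]; congr 1; ring
    rw [e1, hi2, ← pow_mul]
    conv_lhs => rw [← Nat.mod_add_div (a * j) 9, hr]
    rw [mul_add, pow_add, ← mul_assoc, mul_comm m 9, ← hm, pow_mul x (p - 1),
      ZMod.pow_card_sub_one_eq_one hx, one_pow, mul_one]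
  rw [JJ, map_jacobiSum E (ψ ^ a) (m * r) (Nat.mul_pos hm0 hr0) h1]
  rfl

end char

end Pool.Agent.Lib_helper18


end
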