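import Mathlib
import Pool.Agent.PTDM.C02

/-! Parts: Lib_helper18.FD1, Lib_helper18.FD2, Lib_helper18.FD3, Lib_helper18.FD4, Lib_helper18.FD5, Lib_helper18.FD6, Lib_helper18.FD7 -/

section

/-!
# First descent for composite `A`: splitting lemmas
-/

namespace Pool.Agent.Lib_helper18

open Finset

/-- splitting a product of two coprime integers -/
theorem split_two {ι : Type*} [DecidableEq ι] (p e : ι → ℕ) (hp : ∀ i, (p i).Prime)
    (he : ∀ i, e i ≠ 0) (S : Finset ι) :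
    ∀ (u v s : ℤ), IsCoprime u v → u * v = (∏ j ∈ S, (p j : ℤ) ^ e j) * s ^ 3 →
    ∃ J ⊆ S, ∃ a b : ℤ, u = (∏ j ∈ J, (p j : ℤ) ^ e j) * a ^ 3 ∧
      v = (∏ j ∈ S \ J, (p j : ℤ) ^ e j) * b ^ 3 ∧ s = a * b := by
  induction S using Finset.induction_on with
  | empty =>
    intro u v s huv h
    rw [prod_empty, one_mul] at h
    obtain ⟨a, ha⟩ := Int.eq_pow_of_mul_eq_pow_odd_left huv (by decide : Odd 3) h
    obtain ⟨b, hb⟩ := Int.eq_pow_of_mul_eq_pow_odd_right huv (by decide : Odd 3) h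
    refine ⟨∅, Finset.Subset.refl _, a, b, by simpa using ha, by simpa using hb, ?_⟩
    have h1 : (a * b) ^ 3 = s ^ 3 := by rw [mul_pow, ← ha, ← hb, h]
    exact ((by decide : Odd 3).pow_injective h1).symm
  | insert j S hj ih =>
    intro u v s huv h
    have hpj : Prime (p j : ℤ) := Nat.prime_iff_prime_int.mp (hp j)
    have hpj0 : (p j : ℤ) ^ e j ≠ 0 := pow_ne_zero _ hpj.ne_zero
    rw [prod_insert hj] at h
    have h1 : (p j : ℤ) ∣ u * v := by
      rw [h]
      exact Dvd.dvd.mul_right (Dvd.dvd.mul_right (dvd_pow_self _ (he j)) _) _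
    rcases hpj.dvd_or_dvd h1 with h2 | h2
    · have h3 : ¬ (p j : ℤ) ∣ v := fun h3 => hpj.not_isUnit (huv.isUnit_of_dvd' h2 h3)
      have h4 : (p j : ℤ) ^ e j ∣ u := by
        apply hpj.pow_dvd_of_dvd_mul_right (e j) h3
        rw [h, mul_assoc]; exact dvd_mul_right _ _
      obtain ⟨u', hu'⟩ := h4
      have h5 : u' * v = (∏ j ∈ S, (p j : ℤ) ^ e j) * s ^ 3 := by
        apply mul_left_cancel₀ hpj0
        rw [← mul_assoc, ← mul_assoc, ← hu', h]
      obtain ⟨J, hJ, a, b, ha, hb, hs⟩ := ih u' v s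
        (huv.of_isCoprime_of_dvd_left ⟨(p j : ℤ) ^ e j, by rw [hu']; ring⟩) h5
      have hjJ : j ∉ J := fun h => hj (hJ h)
      refine ⟨insert j J, insert_subset_insert j hJ, a, b, ?_, ?_, hs⟩
      · rw [prod_insert hjJ, hu', ha]; ring
      · rw [insert_sdiff_insert, sdiff_insert_of_notMem hj]; exact hb
    · have h3 : ¬ (p j : ℤ) ∣ u := fun h3 => hpj.not_isUnit (huv.isUnit_of_dvd' h3 h2)
      have h4 : (p j : ℤ) ^ e j ∣ v := by
        apply hpj.pow_dvd_of_dvd_mul_left (e j) h3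
        rw [h, mul_assoc]; exact dvd_mul_right _ _
      obtain ⟨v', hv'⟩ := h4
      have h5 : u * v' = (∏ j ∈ S, (p j : ℤ) ^ e j) * s ^ 3 := by
        apply mul_left_cancel₀ hpj0
        rw [hv'] at h
        linear_combination h
      obtain ⟨J, hJ, a, b, ha, hb, hs⟩ := ih u v' s
        (huv.of_isCoprime_of_dvd_right ⟨(p j : ℤ) ^ e j, by rw [hv']; ring⟩) h5
      have hjJ : j ∉ J := fun h => hj (hJ h)
      refine ⟨J, hJ.trans (subset_insert _ _), a, b, ha, ?_, hs⟩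
      rw [insert_sdiff_of_notMem _ hjJ, prod_insert (by simp [hj]), hv', hb]; ring

namespace Eis

theorem Prim.of_mul {x y : Eis} (hx : Prim x) (hxy : Prim (x * y)) : Prim y := by
  have h1 : ¬ lam ∣ y := fun h => hxy.not_lam_dvd (Dvd.dvd.mul_left h _)
  obtain ⟨i, hi⟩ := exists_prim h1
  have h2 : Prim (x * y * w ^ i) := by rw [mul_assoc]; exact hx.mul hi
  rcases hxy.unit (isUnit_w.pow i) h2 with h3 | h3
  · rwa [h3, mul_one] at hi
  · rw [h3, mul_neg, mul_one] at hi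
    simpa using hi.neg

theorem sym_prod_pow {ι : Type*} [DecidableEq ι] {l : Eis} (hl : Prime l) (h3 : ¬ l ∣ 3)
    (x : ι → Eis) (e : ι → ℕ) (S : Finset ι) (hx : ∀ j ∈ S, ¬ l ∣ x j) :
    ¬ l ∣ ∏ j ∈ S, x j ^ e j ∧
      sym l (∏ j ∈ S, x j ^ e j) = ∑ j ∈ S, (e j : ZMod 3) * sym l (x j) := by
  induction S using Finset.induction_on with
  | empty => exact ⟨by simpa using fun h => hl.not_isUnit (isUnit_of_dvd_one h),
      by simpa using sym_one hl h3⟩
  | insert j S hj ih =>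
    obtain ⟨h1, h2⟩ := ih (fun k hk => hx k (mem_insert_of_mem hk))
    have h4 : ¬ l ∣ x j ^ e j := fun h => hx j (mem_insert_self _ _) (hl.dvd_of_dvd_pow h)
    rw [prod_insert hj, sum_insert hj]
    refine ⟨fun h => (hl.dvd_or_dvd h).elim h4 h1, ?_⟩
    rw [sym_mul hl h3 h4 h1, h2, sym_pow hl h3 (hx j (mem_insert_self _ _))]

/-- factorisation of an element coprime to its conjugate, up to cubes -/
theorem split_eis {ι : Type*} [DecidableEq ι] (p e : ι → ℕ) (π : ι → Eis)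
    (hp : ∀ i, (p i).Prime) (hπ : ∀ i, (π i).norm = p i) (hprim : ∀ i, Prim (π i))
    (he : ∀ i, e i ≠ 0) (J : Finset ι) :
    ∀ (η : Eis) (t : ℤ), Prim η → IsCoprime η (conj η) →
    η.norm = (∏ j ∈ J, (p j : ℤ) ^ e j) * t ^ 3 →
    ∃ (ρ : ι → Eis) (γ : Eis), (∀ j, ρ j = π j ∨ ρ j = conj (π j)) ∧
      η = (∏ j ∈ J, ρ j ^ e j) * γ ^ 3 ∧ ¬ lam ∣ γ := by
  induction J using Finset.induction_on with
  | empty =>
    intro η t hη hcop h
    rw [prod_empty, one_mul] at h
    obtain ⟨γ, hγ, hγ3⟩ := extract (ρ := 1) prim_one (one_dvd _) hη hcop (t := t)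
      (by rw [norm_one, one_mul, h])
    exact ⟨π, γ, fun j => Or.inl rfl, by rw [prod_empty]; exact hγ, hγ3⟩
  | insert j J hj ih =>
    intro η t hη hcop h
    have : Fact (p j).Prime := ⟨hp j⟩
    rw [prod_insert hj, mul_assoc] at h
    have hpj : Prime (p j : ℤ) := Nat.prime_iff_prime_int.mp (hp j)
    have hpj0 : (p j : ℤ) ^ e j ≠ 0 := pow_ne_zero _ hpj.ne_zero
    have key : ∀ ρ0 : Eis, Prim ρ0 → ρ0.norm = p j → (ρ0 = π j ∨ ρ0 = conj (π j)) →
        ρ0 ^ e j ∣ η → ∃ (ρ : ι → Eis) (γ : Eis), (∀ j, ρ j = π j ∨ ρ j = conj (π j)) ∧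
        η = (∏ j ∈ insert j J, ρ j ^ e j) * γ ^ 3 ∧ ¬ lam ∣ γ := by
      intro ρ0 hρ0 hρn hρ hd
      obtain ⟨η', hη'⟩ := hd
      have hP : Prim η' := (hρ0.pow (e j)).of_mul (by rw [← hη']; exact hη)
      have hc : IsCoprime η' (conj η') := by
        have h2 : η' ∣ η := ⟨ρ0 ^ e j, by rw [hη']; ring⟩
        exact (hcop.of_isCoprime_of_dvd_left h2).of_isCoprime_of_dvd_right (conj_dvd h2)
      have hn : η'.norm = (∏ j ∈ J, (p j : ℤ) ^ e j) * t ^ 3 := by
        apply mul_left_cancel₀ hpj0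
        rw [← h, hη', norm_mul, norm_pow, hρn]
      obtain ⟨ρ, γ, h1, h2, h3⟩ := ih η' t hP hc hn
      refine ⟨Function.update ρ j ρ0, γ, ?_, ?_, h3⟩
      · intro k
        by_cases hk : k = j
        · subst hk; simpa using hρ
        · rw [Function.update_of_ne hk]; exact h1 k
      · rw [prod_insert hj, Function.update_self, hη', h2]
        have : ∏ k ∈ J, Function.update ρ j ρ0 k ^ e k = ∏ k ∈ J, ρ k ^ e k := by
          apply prod_congr rfl
          intro k hk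
          rw [Function.update_of_ne (by rintro rfl; exact hj hk)]
        rw [this]; ring
    rcases exists_rho (hπ j) (e j) (Nat.pos_of_ne_zero (he j)) hcop
      (by rw [h]; exact dvd_mul_right _ _) with h1 | h1
    · exact key (π j) (hprim j) (hπ j) (Or.inl rfl) h1
    · exact key (conj (π j)) (hprim j).conj (by rw [norm_conj]; exact hπ j) (Or.inr rfl) h1

end Eis

end Pool.Agent.Lib_helper18


end

section

/-!
# First descent for composite `A`: the matrix
-/

set_option linter.unusedSectionVars false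

namespace Pool.Agent.Lib_helper18

open Finset Eis

/-- primes `p i = 1 mod 3` with exponents `e i` and a primary prime above each of them -/
structure FData (ι : Type*) where
  p : ι → ℕ
  e : ι → ℕ
  π : ι → Eis
  hp : ∀ i, (p i).Prime
  h3 : ∀ i, p i % 3 = 1
  inj : Function.Injective p
  hπ : ∀ i, (π i).norm = p i
  hprim : ∀ i, (3 : ℤ) ∣ (π i).im
  he : ∀ i, e i = 1 ∨ e i = 2

namespace FData

variable {ι : Type*} [Fintype ι] [DecidableEq ι] (D : FData ι)

theorem pr (i : ι) : Prime (D.π i) :=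
  have : Fact (D.p i).Prime := ⟨D.hp i⟩
  prime_of_norm_eq (D.hπ i)

theorem n3 (i : ι) : ¬ D.π i ∣ 3 :=
  have : Fact (D.p i).Prime := ⟨D.hp i⟩
  not_dvd_three (D.hπ i) (D.h3 i)

theorem prim (i : ι) : Prim (D.π i) :=
  have : Fact (D.p i).Prime := ⟨D.hp i⟩
  ⟨D.hprim i, re_not_dvd (D.h3 i) (D.hπ i) (D.hprim i)⟩

theorem he0 (i : ι) : D.e i ≠ 0 := by rcases D.he i with h | h <;> rw [h] <;> norm_num

theorem e_sq (i : ι) : (D.e i : ZMod 3) * (D.e i : ZMod 3) = 1 := by
  rcases D.he i with h | h <;> rw [h] <;> decide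

theorem dvd_int (i : ι) {s : ℤ} : D.π i ∣ (s : Eis) ↔ (D.p i : ℤ) ∣ s :=
  have : Fact (D.p i).Prime := ⟨D.hp i⟩
  dvd_intCast_iff (D.hπ i)

theorem not_dvd_p {i j : ι} (h : j ≠ i) : ¬ D.π i ∣ (D.p j : Eis) := by
  have h1 := D.dvd_int i (s := D.p j)
  rw [Int.cast_natCast] at h1
  rw [h1, Int.natCast_dvd_natCast, Nat.prime_dvd_prime_iff_eq (D.hp i) (D.hp j)]
  intro h2
  exact h (D.inj h2).symm

theorem mul_conj_eq (j : ι) : D.π j * conj (D.π j) = (D.p j : Eis) :=
  have : Fact (D.p j).Prime := ⟨D.hp j⟩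
  mul_conj_p (D.hπ j)

theorem not_dvd_pi {i j : ι} (h : j ≠ i) : ¬ D.π i ∣ D.π j := fun h1 =>
  D.not_dvd_p h (by rw [← D.mul_conj_eq]; exact Dvd.dvd.mul_right h1 _)

theorem not_dvd_pi' (i j : ι) : ¬ D.π i ∣ conj (D.π j) := by
  by_cases h : j = i
  · subst h
    have : Fact (D.p j).Prime := ⟨D.hp j⟩
    exact not_dvd_conj (D.h3 j) (D.hπ j)
  · exact fun h1 => D.not_dvd_p h (by rw [← D.mul_conj_eq]; exact Dvd.dvd.mul_left h1 _)

/-- weighted residue symbols off the diagonal -/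
noncomputable def G (i j : ι) : ZMod 3 :=
  if j = i then 0 else (D.e j : ZMod 3) * sym (D.π i) (D.p j : Eis)

/-- the matrix of the first descent; `y i` is the symbol of the remaining factor of `A` -/
noncomputable def R (y : ι → ZMod 3) (i j : ι) : ZMod 3 :=
  if j = i then -((D.e i : ZMod 3) * (y i + ∑ k, D.G i k)) else sym (D.π i) (D.p j : Eis)

/-- the vector attached to a pair of disjoint sets -/
def vec (J1 J2 : Finset ι) (j : ι) : ZMod 3 :=
  if j ∈ J1 then (D.e j : ZMod 3) else if j ∈ J2 then -(D.e j : ZMod 3) else 0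

/-- sign attached to a pair of disjoint sets -/
def sg (J1 J2 : Finset ι) (j : ι) : ZMod 3 := if j ∈ J1 then 1 else if j ∈ J2 then -1 else 0

theorem row_sum (y : ι → ZMod 3) (F : ι → ι → ZMod 3) (g : ι → ι → ZMod 3)
    (hF : ∀ i j, F i j = if j = i then -((D.e i : ZMod 3) * (y i + ∑ k, D.G i k)) else g i j)
    {J1 J2 : Finset ι} (h12 : Disjoint J1 J2) (i : ι) :
    ∑ j, F i j * D.vec J1 J2 j = -(sg J1 J2 i * (y i + ∑ k, D.G i k)) +
      (∑ j ∈ J1, if j = i then 0 else (D.e j : ZMod 3) * g i j) -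
      ∑ j ∈ J2, if j = i then 0 else (D.e j : ZMod 3) * g i j := by
  have h1 : ∀ j, F i j * D.vec J1 J2 j =
      (if j = i then -(sg J1 J2 i * (y i + ∑ k, D.G i k)) else 0) +
      (if j ∈ J1 then (if j = i then 0 else (D.e j : ZMod 3) * g i j) else 0) -
      (if j ∈ J2 then (if j = i then 0 else (D.e j : ZMod 3) * g i j) else 0) := by
    intro j
    have he := D.e_sq j
    have hd : j ∈ J1 → j ∉ J2 := fun h => Finset.disjoint_left.mp h12 h
    rw [hF, vec, sg]
    by_cases hji : j = i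
    · subst hji
      by_cases hj1 : j ∈ J1
      · simp only [hj1, if_true, hd hj1, if_false]
        linear_combination (-(y j + ∑ k, D.G j k)) * he
      · by_cases hj2 : j ∈ J2
        · simp only [hj1, hj2, if_true, if_false]
          linear_combination (y j + ∑ k, D.G j k) * he
        · simp [hj1, hj2]
    · by_cases hj1 : j ∈ J1
      · simp only [hj1, if_true, hd hj1, if_false, hji]; ring
      · by_cases hj2 : j ∈ J2
        · simp only [hj1, hj2, if_true, if_false, hji]; ring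
        · simp [hj1, hj2, hji]
  rw [sum_congr rfl (fun j _ => h1 j), sum_sub_distrib, sum_add_distrib]
  simp

theorem sum_univ_split {J1 J2 J3 : Finset ι} (h12 : Disjoint J1 J2) (h13 : Disjoint J1 J3)
    (h23 : Disjoint J2 J3) (hU : J1 ∪ J2 ∪ J3 = univ) (f : ι → ZMod 3) :
    ∑ j, f j = ∑ j ∈ J1, f j + ∑ j ∈ J2, f j + ∑ j ∈ J3, f j := by
  rw [← hU, sum_union (disjoint_union_left.mpr ⟨h13, h23⟩), sum_union h12]

/-- symbol of a product of prime powers times a further integer -/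
theorem sym_intprod (i : ι) {J : Finset ι} (hi : i ∉ J) {u0 : ℤ} (hu0 : ¬ (D.p i : ℤ) ∣ u0) :
    ¬ D.π i ∣ (((∏ j ∈ J, (D.p j : ℤ) ^ D.e j) * u0 : ℤ) : Eis) ∧
    sym (D.π i) (((∏ j ∈ J, (D.p j : ℤ) ^ D.e j) * u0 : ℤ) : Eis) =
      (∑ j ∈ J, D.G i j) + sym (D.π i) (u0 : Eis) := by
  have h0 : ∀ j ∈ J, j ≠ i := fun j hj => by rintro rfl; exact hi hj
  obtain ⟨h1, h2⟩ := sym_prod_pow (D.pr i) (D.n3 i) (fun j => (D.p j : Eis)) D.e J
    (fun j hj => D.not_dvd_p (h0 j hj))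
  have h3 : ¬ D.π i ∣ (u0 : Eis) := by rwa [D.dvd_int]
  push_cast
  refine ⟨fun h => ((D.pr i).dvd_or_dvd h).elim h1 h3, ?_⟩
  rw [sym_mul (D.pr i) (D.n3 i) h1 h3, h2]
  congr 1
  apply sum_congr rfl
  intro j hj
  rw [G, if_neg (h0 j hj)]

/-- the rational side -/
theorem qside {J1 J2 J3 : Finset ι} (h12 : Disjoint J1 J2) (h13 : Disjoint J1 J3)
    (h23 : Disjoint J2 J3) (hU : J1 ∪ J2 ∪ J3 = univ) {u0 v0 t0 : ℤ} (y β1 β2 : ι → ZMod 3)
    (hu0 : ∀ i, i ∉ J1 → ¬ (D.p i : ℤ) ∣ u0) (hv0 : ∀ i, i ∉ J2 → ¬ (D.p i : ℤ) ∣ v0)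
    (ht0 : ∀ i, i ∉ J3 → ¬ (D.p i : ℤ) ∣ t0)
    (hy : ∀ i, i ∉ J3 → y i = β1 i + β2 i + sym (D.π i) (t0 : Eis))
    (h1 : ∀ i, i ∉ J1 → sym (D.π i) (u0 : Eis) = β1 i)
    (h2 : ∀ i, i ∉ J2 → sym (D.π i) (v0 : Eis) = β2 i)
    (h : (∏ j ∈ J1, (D.p j : ℤ) ^ D.e j) * u0 + (∏ j ∈ J2, (D.p j : ℤ) ^ D.e j) * v0 +
      (∏ j ∈ J3, (D.p j : ℤ) ^ D.e j) * t0 = 0) (i : ι) :
    ∑ j, D.R y i j * D.vec J1 J2 j = β2 i - β1 i := by
  have hrow := D.row_sum y (D.R y) (fun i j => sym (D.π i) (D.p j : Eis)) (fun i j => rfl) h12 i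
  have hGG : ∀ J : Finset ι, (∑ j ∈ J, if j = i then 0 else (D.e j : ZMod 3) *
      sym (D.π i) (D.p j : Eis)) = ∑ j ∈ J, D.G i j := fun J => rfl
  rw [hGG, hGG] at hrow
  rw [hrow, sum_univ_split h12 h13 h23 hU (D.G i)]
  have hdvd : ∀ (J : Finset ι) (x0 : ℤ), i ∈ J →
      D.π i ∣ (((∏ j ∈ J, (D.p j : ℤ) ^ D.e j) * x0 : ℤ) : Eis) := by
    intro J x0 hi
    rw [D.dvd_int]
    apply Dvd.dvd.mul_right
    exact (dvd_pow_self _ (D.he0 i)).trans (dvd_prod_of_mem _ hi)
  set u : ℤ := (∏ j ∈ J1, (D.p j : ℤ) ^ D.e j) * u0 with hu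
  set v : ℤ := (∏ j ∈ J2, (D.p j : ℤ) ^ D.e j) * v0 with hv
  set t : ℤ := (∏ j ∈ J3, (D.p j : ℤ) ^ D.e j) * t0 with ht
  have hsum : (u : Eis) + (v : Eis) + (t : Eis) = 0 := by
    have := congrArg (Int.cast : ℤ → Eis) h
    push_cast at this
    exact this
  have h3 : (3 : ZMod 3) = 0 := by decide
  have hiU : i ∈ J1 ∪ J2 ∪ J3 := by rw [hU]; exact mem_univ i
  rw [mem_union, mem_union] at hiU
  rcases hiU with (hi | hi) | hi
  · -- i in J1
    have n2 : i ∉ J2 := Finset.disjoint_left.mp h12 hi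
    have n3 : i ∉ J3 := Finset.disjoint_left.mp h13 hi
    obtain ⟨a1, a2⟩ := D.sym_intprod i n2 (hv0 i n2)
    obtain ⟨b1, b2⟩ := D.sym_intprod i n3 (ht0 i n3)
    rw [← hv] at a1 a2
    rw [← ht] at b1 b2
    have c : sym (D.π i) (v : Eis) = sym (D.π i) (t : Eis) := by
      rw [← sym_neg (D.pr i) (D.n3 i) b1]
      apply sym_congr
      have : (v : Eis) - -(t : Eis) = -(u : Eis) := by linear_combination hsum
      rw [this, dvd_neg]
      exact hdvd J1 u0 hi
    rw [a2, b2, h2 i n2] at c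
    rw [sg, if_pos hi, hy i n3]
    linear_combination c - (∑ j ∈ J2, D.G i j + β2 i) * h3
  · have n1 : i ∉ J1 := Finset.disjoint_right.mp h12 hi
    have n3 : i ∉ J3 := Finset.disjoint_left.mp h23 hi
    obtain ⟨a1, a2⟩ := D.sym_intprod i n1 (hu0 i n1)
    obtain ⟨b1, b2⟩ := D.sym_intprod i n3 (ht0 i n3)
    rw [← hu] at a1 a2
    rw [← ht] at b1 b2
    have c : sym (D.π i) (u : Eis) = sym (D.π i) (t : Eis) := by
      rw [← sym_neg (D.pr i) (D.n3 i) b1]
      apply sym_congr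
      have : (u : Eis) - -(t : Eis) = -(v : Eis) := by linear_combination hsum
      rw [this, dvd_neg]
      exact hdvd J2 v0 hi
    rw [a2, b2, h1 i n1] at c
    rw [sg, if_neg n1, if_pos hi, hy i n3]
    linear_combination -c + (∑ j ∈ J1, D.G i j + β1 i) * h3
  · have n1 : i ∉ J1 := Finset.disjoint_right.mp h13 hi
    have n2 : i ∉ J2 := Finset.disjoint_right.mp h23 hi
    obtain ⟨a1, a2⟩ := D.sym_intprod i n1 (hu0 i n1)
    obtain ⟨b1, b2⟩ := D.sym_intprod i n2 (hv0 i n2)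
    rw [← hu] at a1 a2
    rw [← hv] at b1 b2
    have c : sym (D.π i) (u : Eis) = sym (D.π i) (v : Eis) := by
      rw [← sym_neg (D.pr i) (D.n3 i) b1]
      apply sym_congr
      have : (u : Eis) - -(v : Eis) = -(t : Eis) := by linear_combination hsum
      rw [this, dvd_neg]
      exact hdvd J3 t0 hi
    rw [a2, b2, h1 i n1, h2 i n2] at c
    rw [sg, if_neg n1, if_neg n2]
    linear_combination c

end FData

end Pool.Agent.Lib_helper18


end

section

set_option linter.unusedSectionVars false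

/-!
# First descent for composite `A`: the side of `Z[ω]`
-/

namespace Pool.Agent.Lib_helper18

open Finset Eis

namespace FData

variable {ι : Type*} [Fintype ι] [DecidableEq ι] (D : FData ι)

/-- the transpose of `R` in terms of the primes of `Z[ω]` -/
theorem R_transpose (y : ι → ZMod 3) (i j : ι) : D.R y j i =
    if j = i then -((D.e i : ZMod 3) * (y i + ∑ k, D.G i k)) else
      sym (D.π i) (D.π j) - sym (D.π i) (conj (D.π j)) := by
  rw [R]
  by_cases h : i = j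
  · subst h; simp
  · have h' : j ≠ i := fun h2 => h h2.symm
    rw [if_neg h, if_neg h']
    have : Fact (D.p j).Prime := ⟨D.hp j⟩
    have hG := lemmaG (D.h3 j) (D.hπ j) (D.hprim j) (D.pr i) (D.n3 i) (D.not_dvd_p h')
    rw [hG]
    have hN : N (D.π i) = D.p i := by
      have := N_cast (D.π i)
      rw [D.hπ i] at this
      exact_mod_cast this
    rw [hN]

theorem sym_self_conj (i : ι) : sym (D.π i) (conj (D.π i)) = 0 := by
  have : Fact (D.p i).Prime := ⟨D.hp i⟩
  exact sym_conj_self (D.h3 i) (D.hπ i) (D.hprim i)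

/-- The equations on the side of `Z[ω]`. -/
theorem kside {J : Finset ι} {ρ : ι → Eis} (hρ : ∀ j, ρ j = D.π j ∨ ρ j = conj (D.π j))
    {η γ : Eis} (hη : η = (∏ j ∈ J, ρ j ^ D.e j) * γ ^ 3) (hcop : IsCoprime η (conj η))
    {S0 : ℤ} (hS0 : ∀ i ∈ J, ¬ (D.p i : ℤ) ∣ S0) (y θ : ι → ZMod 3)
    (hy : ∀ i ∈ J, sym (D.π i) (S0 : Eis) = y i)
    {α β κ : Eis} (hα : ∀ i, ¬ D.π i ∣ α) (hβ : ∀ i, ¬ D.π i ∣ β) (hκ : ∀ i, ¬ D.π i ∣ κ)
    (hα' : ∀ i, sym (D.π i) α = θ i) (hβ' : ∀ i, sym (D.π i) β = -θ i)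
    (hκ' : ∀ i, sym (D.π i) κ = 0)
    (hrel : α * η + β * conj η = κ * (((∏ j ∈ univ \ J, (D.p j : ℤ) ^ D.e j) * S0 : ℤ) : Eis))
    (i : ι) :
    ∑ j, D.R y j i * D.vec (J.filter (fun j => ρ j = D.π j))
      (J.filter (fun j => ρ j ≠ D.π j)) j = θ i := by
  set J1 := J.filter (fun j => ρ j = D.π j) with hJ1
  set J2 := J.filter (fun j => ρ j ≠ D.π j) with hJ2
  have h12 : Disjoint J1 J2 := disjoint_filter_filter_not _ _ _
  have hJ : J1 ∪ J2 = J := filter_union_filter_not_eq _ _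
  have h13 : Disjoint J1 (univ \ J) := by
    rw [Finset.disjoint_left]; intro k hk; simp [(mem_filter.mp hk).1]
  have h23 : Disjoint J2 (univ \ J) := by
    rw [Finset.disjoint_left]; intro k hk; simp [(mem_filter.mp hk).1]
  have hU : J1 ∪ J2 ∪ (univ \ J) = univ := by rw [hJ]; simp
  have hrow := D.row_sum y (fun i j => D.R y j i)
    (fun i j => sym (D.π i) (D.π j) - sym (D.π i) (conj (D.π j)))
    (fun i j => D.R_transpose y i j) h12 i
  -- the symbols
  set X : ι → ZMod 3 := fun j => if j = i then 0 else (D.e j : ZMod 3) * sym (D.π i) (D.π j)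
    with hX
  set X' : ι → ZMod 3 := fun j => if j = i then 0 else
    (D.e j : ZMod 3) * sym (D.π i) (conj (D.π j)) with hX'
  have hdiff : ∀ K : Finset ι, (∑ j ∈ K, if j = i then 0 else (D.e j : ZMod 3) *
      (sym (D.π i) (D.π j) - sym (D.π i) (conj (D.π j)))) = ∑ j ∈ K, X j - ∑ j ∈ K, X' j := by
    intro K
    rw [← sum_sub_distrib]
    apply sum_congr rfl
    intro j _
    simp only [hX, hX']
    split_ifs <;> ring
  have hG : ∀ j, D.G i j = X j + X' j := by
    intro j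
    simp only [G, hX, hX']
    by_cases hji : j = i
    · simp [hji]
    · simp only [hji, if_false]
      rw [← D.mul_conj_eq j, sym_mul (D.pr i) (D.n3 i) (D.not_dvd_pi hji) (D.not_dvd_pi' i j)]
      ring
  have hGs : ∀ K : Finset ι, ∑ j ∈ K, D.G i j = ∑ j ∈ K, X j + ∑ j ∈ K, X' j := by
    intro K
    rw [← sum_add_distrib]
    exact sum_congr rfl (fun j _ => hG j)
  rw [hdiff, hdiff] at hrow
  have hGU := sum_univ_split h12 h13 h23 hU (D.G i)
  rw [hGs J1, hGs J2, hGs (univ \ J)] at hGU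
  rw [hGU] at hrow
  -- factorisations
  have hηP : η = (∏ j ∈ J1, D.π j ^ D.e j) * (∏ j ∈ J2, conj (D.π j) ^ D.e j) * γ ^ 3 := by
    rw [hη, ← hJ, prod_union h12]
    congr 2
    · apply prod_congr rfl
      intro j hj
      rw [(mem_filter.mp hj).2]
    · apply prod_congr rfl
      intro j hj
      rw [(hρ j).resolve_left (mem_filter.mp hj).2]
  have hηP' : conj η = (∏ j ∈ J1, conj (D.π j) ^ D.e j) * (∏ j ∈ J2, D.π j ^ D.e j) *
      (conj γ) ^ 3 := by
    rw [hηP]
    simp only [map_mul, map_prod, map_pow, conj_conj]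
  -- general computation of the symbol of an element of this shape
  have hshape : ∀ (K1 K2 : Finset ι) (ξ g : Eis), i ∉ K1 → ¬ D.π i ∣ g →
      ξ = (∏ j ∈ K1, D.π j ^ D.e j) * (∏ j ∈ K2, conj (D.π j) ^ D.e j) * g ^ 3 →
      ¬ D.π i ∣ ξ ∧ sym (D.π i) ξ = ∑ j ∈ K1, X j + ∑ j ∈ K2, X' j := by
    intro K1 K2 ξ g hi hg hξ
    have h0 : ∀ j ∈ K1, j ≠ i := fun j hj => by rintro rfl; exact hi hj
    obtain ⟨a1, a2⟩ := sym_prod_pow (D.pr i) (D.n3 i) D.π D.e K1
      (fun j hj => D.not_dvd_pi (h0 j hj))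
    obtain ⟨b1, b2⟩ := sym_prod_pow (D.pr i) (D.n3 i) (fun j => conj (D.π j)) D.e K2
      (fun j _ => D.not_dvd_pi' i j)
    have c1 : ¬ D.π i ∣ g ^ 3 := fun h => hg ((D.pr i).dvd_of_dvd_pow h)
    have d1 : ¬ D.π i ∣ (∏ j ∈ K1, D.π j ^ D.e j) * (∏ j ∈ K2, conj (D.π j) ^ D.e j) :=
      fun h => ((D.pr i).dvd_or_dvd h).elim a1 b1
    refine ⟨by rw [hξ]; exact fun h => ((D.pr i).dvd_or_dvd h).elim d1 c1, ?_⟩
    rw [hξ, sym_mul (D.pr i) (D.n3 i) d1 c1, sym_cube (D.pr i) (D.n3 i) hg,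
      sym_mul (D.pr i) (D.n3 i) a1 b1, a2, b2, add_zero]
    congr 1
    · apply sum_congr rfl
      intro j hj
      simp only [hX, if_neg (h0 j hj)]
    · apply sum_congr rfl
      intro j _
      simp only [hX']
      by_cases hji : j = i
      · subst hji; rw [if_pos rfl, D.sym_self_conj, mul_zero]
      · rw [if_neg hji]
  have hcopp : ¬ (D.π i ∣ η ∧ D.π i ∣ conj η) := by
    rintro ⟨h1, h2⟩
    exact (D.pr i).not_isUnit (hcop.isUnit_of_dvd' h1 h2)
  set S : Eis := (((∏ j ∈ univ \ J, (D.p j : ℤ) ^ D.e j) * S0 : ℤ) : Eis) with hS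
  have h3 : (3 : ZMod 3) = 0 := by decide
  have hiU : i ∈ J1 ∪ J2 ∪ (univ \ J) := by rw [hU]; exact mem_univ i
  rw [mem_union, mem_union] at hiU
  rcases hiU with (hi | hi) | hi
  · -- `π i` divides `η`
    have n2 : i ∉ J2 := Finset.disjoint_left.mp h12 hi
    have n3 : i ∉ univ \ J := Finset.disjoint_left.mp h13 hi
    have hd : D.π i ∣ η := by
      rw [hηP]
      apply Dvd.dvd.mul_right
      apply Dvd.dvd.mul_right
      exact (dvd_pow_self _ (D.he0 i)).trans (dvd_prod_of_mem _ hi)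
    have hnd : ¬ D.π i ∣ conj η := fun h => hcopp ⟨hd, h⟩
    have hg : ¬ D.π i ∣ conj γ := by
      intro h
      apply hnd
      rw [hηP']
      exact Dvd.dvd.mul_left (Dvd.dvd.pow h (by norm_num)) _
    obtain ⟨a1, a2⟩ := hshape J2 J1 (conj η) (conj γ) n2 hg (by rw [hηP']; ring)
    have hiJ : i ∈ J := (mem_filter.mp hi).1
    obtain ⟨b1, b2⟩ := D.sym_intprod i n3 (hS0 i hiJ)
    rw [← hS] at b1 b2
    rw [hy i hiJ, hGs] at b2
    have c : sym (D.π i) (β * conj η) = sym (D.π i) (κ * S) := by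
      apply sym_congr
      have : β * conj η - κ * S = -(α * η) := by linear_combination hrel
      rw [this, dvd_neg]
      exact Dvd.dvd.mul_left hd _
    rw [sym_mul (D.pr i) (D.n3 i) (hβ i) a1, sym_mul (D.pr i) (D.n3 i) (hκ i) b1, hβ' i,
      hκ' i, a2, b2] at c
    rw [hrow, sg, if_pos hi]
    linear_combination c - (∑ j ∈ J1, X' j + ∑ j ∈ J2, X j) * h3
  · have n1 : i ∉ J1 := Finset.disjoint_right.mp h12 hi
    have n3 : i ∉ univ \ J := Finset.disjoint_left.mp h23 hi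
    have hd : D.π i ∣ conj η := by
      rw [hηP']
      apply Dvd.dvd.mul_right
      apply Dvd.dvd.mul_left
      exact (dvd_pow_self _ (D.he0 i)).trans (dvd_prod_of_mem _ hi)
    have hnd : ¬ D.π i ∣ η := fun h => hcopp ⟨h, hd⟩
    have hg : ¬ D.π i ∣ γ := by
      intro h
      apply hnd
      rw [hηP]
      exact Dvd.dvd.mul_left (Dvd.dvd.pow h (by norm_num)) _
    obtain ⟨a1, a2⟩ := hshape J1 J2 η γ n1 hg hηP
    have hiJ : i ∈ J := (mem_filter.mp hi).1
    obtain ⟨b1, b2⟩ := D.sym_intprod i n3 (hS0 i hiJ)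
    rw [← hS] at b1 b2
    rw [hy i hiJ, hGs] at b2
    have c : sym (D.π i) (α * η) = sym (D.π i) (κ * S) := by
      apply sym_congr
      have : α * η - κ * S = -(β * conj η) := by linear_combination hrel
      rw [this, dvd_neg]
      exact Dvd.dvd.mul_left hd _
    rw [sym_mul (D.pr i) (D.n3 i) (hα i) a1, sym_mul (D.pr i) (D.n3 i) (hκ i) b1, hα' i,
      hκ' i, a2, b2] at c
    rw [hrow, sg, if_neg n1, if_pos hi]
    linear_combination -c + (∑ j ∈ J1, X j + ∑ j ∈ J2, X' j) * h3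
  · have n1 : i ∉ J1 := Finset.disjoint_right.mp h13 hi
    have n2 : i ∉ J2 := Finset.disjoint_right.mp h23 hi
    have hdS : D.π i ∣ S := by
      rw [hS, D.dvd_int]
      apply Dvd.dvd.mul_right
      exact (dvd_pow_self _ (D.he0 i)).trans (dvd_prod_of_mem _ hi)
    have hdr : D.π i ∣ α * η + β * conj η := by rw [hrel]; exact Dvd.dvd.mul_left hdS _
    have hnd : ¬ D.π i ∣ η := by
      intro h
      apply hcopp
      refine ⟨h, ?_⟩
      have h1 : D.π i ∣ β * conj η := by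
        have := dvd_sub hdr (Dvd.dvd.mul_left h α)
        simpa using this
      exact ((D.pr i).dvd_or_dvd h1).resolve_left (hβ i)
    have hnd' : ¬ D.π i ∣ conj η := by
      intro h
      apply hcopp
      refine ⟨?_, h⟩
      have h1 : D.π i ∣ α * η := by
        have := dvd_sub hdr (Dvd.dvd.mul_left h β)
        simpa using this
      exact ((D.pr i).dvd_or_dvd h1).resolve_left (hα i)
    have hg : ¬ D.π i ∣ γ := by
      intro h
      apply hnd
      rw [hηP]
      exact Dvd.dvd.mul_left (Dvd.dvd.pow h (by norm_num)) _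
    have hg' : ¬ D.π i ∣ conj γ := by
      intro h
      apply hnd'
      rw [hηP']
      exact Dvd.dvd.mul_left (Dvd.dvd.pow h (by norm_num)) _
    obtain ⟨a1, a2⟩ := hshape J1 J2 η γ n1 hg hηP
    obtain ⟨b1, b2⟩ := hshape J2 J1 (conj η) (conj γ) n2 hg' (by rw [hηP']; ring)
    have hne : ¬ D.π i ∣ β * conj η := fun h => ((D.pr i).dvd_or_dvd h).elim (hβ i) b1
    have c : sym (D.π i) (α * η) = sym (D.π i) (β * conj η) := by
      rw [← sym_neg (D.pr i) (D.n3 i) hne]
      apply sym_congr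
      rw [sub_neg_eq_add]; exact hdr
    rw [sym_mul (D.pr i) (D.n3 i) (hα i) a1, sym_mul (D.pr i) (D.n3 i) (hβ i) b1, hα' i,
      hβ' i, a2, b2] at c
    rw [hrow, sg, if_neg n1, if_neg n2]
    linear_combination c - θ i * h3

end FData

end Pool.Agent.Lib_helper18


end

section

set_option linter.unusedSectionVars false

/-!
# First descent for composite `A`: preparations for the descent
-/

namespace Pool.Agent.Lib_helper18

open Finset Eis

theorem cube_not_dvd_prod {κ : Type*} [DecidableEq κ] (p e : κ → ℕ) (hp : ∀ i, (p i).Prime)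
    (hinj : Function.Injective p) (he : ∀ i, e i ≤ 2) (S : Finset κ) (r : ℤ) (hr : Prime r) :
    ¬ r ^ 3 ∣ ∏ j ∈ S, (p j : ℤ) ^ e j := by
  induction S using Finset.induction_on with
  | empty =>
    rw [prod_empty]
    intro h
    exact hr.not_isUnit (isUnit_of_dvd_one ((dvd_pow_self r (by norm_num)).trans h))
  | insert j S hj ih =>
    rw [prod_insert hj]
    intro h
    have hpj : Prime (p j : ℤ) := Nat.prime_iff_prime_int.mp (hp j)
    by_cases hrj : r ∣ (p j : ℤ)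
    · have hass := hr.associated_of_dvd hpj hrj
      have h1 : ¬ r ∣ ∏ k ∈ S, (p k : ℤ) ^ e k := by
        intro h1
        rw [hr.dvd_finsetProd_iff] at h1
        obtain ⟨k, hk, h2⟩ := h1
        have h3 := hass.symm.dvd.trans (hr.dvd_of_dvd_pow h2)
        rw [Int.natCast_dvd_natCast, Nat.prime_dvd_prime_iff_eq (hp j) (hp k)] at h3
        exact hj (by rw [hinj h3]; exact hk)
      have h2 : r ^ 3 ∣ (p j : ℤ) ^ e j := hr.pow_dvd_of_dvd_mul_right 3 h1 h
      have h3 : (p j : ℤ) ^ 3 ∣ (p j : ℤ) ^ e j := (pow_dvd_pow_of_dvd hass.symm.dvd 3).trans h2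
      rw [pow_dvd_pow_iff hpj.ne_zero hpj.not_isUnit] at h3
      have := he j
      omega
    · have h1 : ¬ r ∣ (p j : ℤ) ^ e j := fun h2 => hrj (hr.dvd_of_dvd_pow h2)
      exact ih (hr.pow_dvd_of_dvd_mul_left 3 h1 h)

theorem prime_inert {q : ℕ} (hq : q.Prime) (h : q % 3 = 2) : Prime (q : Eis) := by
  have hq0 : (q : Eis) ≠ 0 := by
    intro h
    have := congrArg Eis.re h
    simp at this
    exact hq.ne_zero this
  have hnu : ¬ IsUnit (q : Eis) := by
    rw [isUnit_iff_norm, norm_natCast]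
    intro h
    have := hq.two_le
    have h2 : (2 : ℤ) ≤ q := by exact_mod_cast this
    nlinarith
  obtain ⟨l, hl, hlq⟩ := WfDvdMonoid.exists_irreducible_factor hnu hq0
  have hlp := hl.prime
  have hlq' := hlq
  obtain ⟨m, hm⟩ := hlq
  have h1 : (q : ℤ) ^ 2 = l.norm * m.norm := by rw [← norm_mul, ← hm, norm_natCast]
  have h2 : l.norm.natAbs ∣ q ^ 2 := by
    have : l.norm ∣ (q : ℤ) ^ 2 := ⟨_, h1⟩
    have := Int.natAbs_dvd_natAbs.mpr this
    simpa [Int.natAbs_pow] using this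
  have hn := norm_pos hlp.ne_zero
  have hn1 : l.norm ≠ 1 := fun h => hlp.not_isUnit (isUnit_iff_norm.mpr h)
  rw [Nat.dvd_prime_pow hq] at h2
  obtain ⟨k, hk, hk2⟩ := h2
  have h4 := norm_emod_three l
  interval_cases k
  · simp at hk2; omega
  · rw [pow_one] at hk2; omega
  · have h5 : l.norm = (q : ℤ) ^ 2 := by
      have : (l.norm.natAbs : ℤ) = ((q ^ 2 : ℕ) : ℤ) := by exact_mod_cast hk2
      rw [Int.natCast_natAbs, abs_of_pos hn] at this
      rw [this]; push_cast; ring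
    exact (associated_of_norm_sq hq hlq' h5).prime hlp

theorem inert_not_dvd_norm {q : ℕ} (hq : q.Prime) (h : q % 3 = 2) {η : Eis}
    (hcop : IsCoprime η (conj η)) : ¬ (q : ℤ) ∣ η.norm := by
  intro h1
  have hP := prime_inert hq h
  have h2 : (q : Eis) ∣ η * conj η := by
    rw [mul_conj]
    have := intCast_dvd_intCast.mpr h1
    rwa [Int.cast_natCast] at this
  rcases hP.dvd_or_dvd h2 with h3 | h3
  · have h4 := conj_dvd h3
    rw [conj_natCast] at h4
    exact hP.not_isUnit (hcop.isUnit_of_dvd' h3 h4)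
  · have h4 := conj_dvd h3
    rw [conj_natCast, conj_conj] at h4
    exact hP.not_isUnit (hcop.isUnit_of_dvd' h4 h3)

section cases

variable {A x y z : ℤ}

theorem coprime_sum (hco : IsCoprime x y) : IsCoprime (x + y) (x * y) := by
  have hco1 : IsCoprime (x + y) x := by
    obtain ⟨u, v, huv⟩ := hco
    exact ⟨v, u - v, by linear_combination huv⟩
  have hco2 : IsCoprime (x + y) y := by
    obtain ⟨u, v, huv⟩ := hco
    exact ⟨u, v - u, by linear_combination huv⟩
  exact hco1.mul_right hco2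

theorem caseA_data (hco : IsCoprime x y) (h3z : (3 : ℤ) ∣ z) (hxyz : x ^ 3 + y ^ 3 = A * z ^ 3) :
    ∃ (z1 S' : ℤ) (η : Eis), z = 3 * z1 ∧ Prim η ∧ IsCoprime η (conj η) ∧ η.im = 3 * S' ∧
      η - conj η = 3 * r3 * (S' : Eis) ∧ IsCoprime S' η.norm ∧ S' * η.norm = A * z1 ^ 3 := by
  have hcoxy := coprime_sum hco
  have hST : (x + y) * (⟨x, y⟩ : Eis).norm = A * z ^ 3 := by
    rw [← hxyz, norm_def]; ring
  have hno3 : ¬ ((3 : ℤ) ∣ x ∧ (3 : ℤ) ∣ y) := by
    rintro ⟨h1, h2⟩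
    exact Int.prime_three.not_isUnit (hco.isUnit_of_dvd' h1 h2)
  obtain ⟨z1, hz1⟩ := h3z
  have h3S : (3 : ℤ) ∣ x + y := by
    have h1 : (3 : ℤ) ∣ x ^ 3 + y ^ 3 := by
      rw [hxyz, hz1]; exact ⟨A * (9 * z1 ^ 3), by ring⟩
    have h2 : (3 : ℤ) ∣ (x ^ 3 + y ^ 3) - (x + y) := by
      have h4 : ∀ a : ℤ, (3 : ℤ) ∣ a ^ 3 - a := by
        intro a
        have : a % 3 = 0 ∨ a % 3 = 1 ∨ a % 3 = 2 := by omega
        apply Int.dvd_of_emod_eq_zero
        rcases this with h | h | h <;>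
          simp [pow_succ, Int.sub_emod, Int.mul_emod, h]
      have := dvd_add (h4 x) (h4 y)
      have e5 : x ^ 3 - x + (y ^ 3 - y) = (x ^ 3 + y ^ 3) - (x + y) := by ring
      rwa [e5] at this
    have := dvd_sub h1 h2
    simpa using this
  have h3y : ¬ (3 : ℤ) ∣ y := by
    intro h; exact hno3 ⟨by omega, h⟩
  have h3x : ¬ (3 : ℤ) ∣ x := by
    intro h; exact hno3 ⟨h, by omega⟩
  obtain ⟨S0, hS0⟩ := h3S
  have hT : (⟨x, y⟩ : Eis).norm = 3 * (3 * S0 ^ 2 - x * y) := by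
    rw [norm_def]; simp only; linear_combination (x + y + 3 * S0) * hS0
  have h3T' : ¬ (3 : ℤ) ∣ 3 * S0 ^ 2 - x * y := by
    intro h
    have : (3 : ℤ) ∣ x * y := by
      have h4 := dvd_sub (dvd_mul_right (3 : ℤ) (S0 ^ 2)) h
      have e5 : 3 * S0 ^ 2 - (3 * S0 ^ 2 - x * y) = x * y := by ring
      rwa [e5] at h4
    rcases Int.prime_three.dvd_or_dvd this with h | h
    · exact h3x h
    · exact h3y h
  have hST' : S0 * (3 * S0 ^ 2 - x * y) = 3 * (A * z1 ^ 3) := by
    rw [hT, hS0, hz1] at hST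
    have h9 : (9 : ℤ) ≠ 0 := by norm_num
    apply mul_left_cancel₀ h9
    linear_combination hST
  have h3S0 : (3 : ℤ) ∣ S0 := by
    have h4 : (3 : ℤ) ∣ S0 * (3 * S0 ^ 2 - x * y) := ⟨_, hST'⟩
    exact (Int.prime_three.dvd_or_dvd h4).resolve_right h3T'
  obtain ⟨S', hS'⟩ := h3S0
  have hS9 : x + y = 9 * S' := by rw [hS0, hS']; ring
  set η : Eis := ⟨-y + 6 * S', 3 * S'⟩ with hη
  have hηlam : (⟨x, y⟩ : Eis) = lam * η := by
    ext
    · simp only [hη, mul_re, lam_re, lam_im]; linarith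
    · simp only [hη, mul_im, lam_re, lam_im]; ring
  have hηnorm : η.norm = 3 * S0 ^ 2 - x * y := by
    have h4 := congrArg Eis.norm hηlam
    rw [norm_mul, norm_lam, hT] at h4
    linarith
  have hηS : S' * η.norm = A * z1 ^ 3 := by
    rw [hηnorm]
    have h9 : (3 : ℤ) ≠ 0 := by norm_num
    apply mul_left_cancel₀ h9
    rw [← hST', hS']; ring
  have hηprim : Prim η := by
    refine ⟨⟨S', rfl⟩, ?_⟩
    simp only [hη]; omega
  have hηcop : IsCoprime η (conj η) := by
    apply isCoprime_of_prime_dvd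
    · rintro ⟨h, -⟩
      exact hηprim.not_lam_dvd (by rw [h]; exact dvd_zero _)
    · intro l hl h1 h2
      have h4 : l ∣ (⟨x, y⟩ : Eis) := by rw [hηlam]; exact Dvd.dvd.mul_left h1 _
      have h5 : l ∣ conj (⟨x, y⟩ : Eis) := by
        rw [hηlam, map_mul]; exact Dvd.dvd.mul_left h2 _
      have h6 := coprime_xi hco hl h4 h5
      exact hηprim.not_lam_dvd (h6.symm.dvd.trans h1)
  have hηdiff : η - conj η = 3 * r3 * (S' : Eis) := by
    rw [r3_eq, w_sq, three_eq_cast]
    ext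
    · simp only [hη, mul_re, mul_im, sub_re, conj_re, sub_im, neg_re, neg_im, one_re,
        one_im, w_re, w_im, intCast_re, intCast_im]; ring
    · simp only [hη, mul_re, mul_im, sub_re, conj_im, sub_im, neg_re, neg_im, one_re,
        one_im, w_re, w_im, intCast_re, intCast_im]; ring
  have hcoS : IsCoprime S' η.norm := by
    have h4 : IsCoprime S' (x * y) := hcoxy.of_isCoprime_of_dvd_left ⟨9, by rw [hS9]; ring⟩
    have h5 : η.norm = S' * (27 * S') + -(x * y) := by rw [hηnorm, hS']; ring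
    rw [h5]
    exact (IsCoprime.mul_add_left_right h4.neg_right (27 * S'))
  exact ⟨z1, S', η, hz1, hηprim, hηcop, rfl, hηdiff, hcoS, hηS⟩

theorem cube_mod_nine_int {a : ℤ} (ha : ¬ (3 : ℤ) ∣ a) : a ^ 3 % 9 = 1 ∨ a ^ 3 % 9 = 8 := by
  have : a % 9 = 1 ∨ a % 9 = 2 ∨ a % 9 = 4 ∨ a % 9 = 5 ∨ a % 9 = 7 ∨ a % 9 = 8 := by omega
  rcases this with h | h | h | h | h | h <;> simp [pow_succ, Int.mul_emod, h]

theorem cube_mod_nine_int' {a : ℤ} (ha : (3 : ℤ) ∣ a) : a ^ 3 % 9 = 0 := by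
  obtain ⟨b, rfl⟩ := ha
  have : (3 * b) ^ 3 = 9 * (3 * b ^ 3) := by ring
  omega

theorem caseB_data (hco : IsCoprime x y) (h3z : ¬ (3 : ℤ) ∣ z) (hA3 : ¬ (3 : ℤ) ∣ A)
    (hA1 : A % 9 ≠ 1) (hA8 : A % 9 ≠ 8) (hxyz : x ^ 3 + y ^ 3 = A * z ^ 3) :
    ∃ η : Eis, Prim η ∧ IsCoprime η (conj η) ∧ η + conj η = -((x + y : ℤ) : Eis) ∧
      IsCoprime (x + y) η.norm ∧ (x + y) * η.norm = A * z ^ 3 := by
  have hcoxy := coprime_sum hco
  have hno3 : ¬ ((3 : ℤ) ∣ x ∧ (3 : ℤ) ∣ y) := by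
    rintro ⟨h1, h2⟩
    exact Int.prime_three.not_isUnit (hco.isUnit_of_dvd' h1 h2)
  have h9 : (x ^ 3 % 9 + y ^ 3 % 9) % 9 = (A % 9) * (z ^ 3 % 9) % 9 := by
    rw [← Int.add_emod, ← Int.mul_emod, hxyz]
  have hz := cube_mod_nine_int h3z
  have hA : A % 9 = 2 ∨ A % 9 = 4 ∨ A % 9 = 5 ∨ A % 9 = 7 := by omega
  have h3x : ¬ (3 : ℤ) ∣ x := by
    intro h
    have h1 := cube_mod_nine_int' h
    have h2 := cube_mod_nine_int (a := y) (fun h' => hno3 ⟨h, h'⟩)
    rw [h1] at h9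
    rcases h2 with h2 | h2 <;> rcases hz with hz | hz <;> rcases hA with hA | hA | hA | hA <;>
      rw [h2, hz, hA] at h9 <;> norm_num at h9
  have h3y : ¬ (3 : ℤ) ∣ y := by
    intro h
    have h1 := cube_mod_nine_int' h
    have h2 := cube_mod_nine_int (a := x) (fun h' => hno3 ⟨h', h⟩)
    rw [h1] at h9
    rcases h2 with h2 | h2 <;> rcases hz with hz | hz <;> rcases hA with hA | hA | hA | hA <;>
      rw [h2, hz, hA] at h9 <;> norm_num at h9
  have h3xy : (3 : ℤ) ∣ x - y := by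
    by_contra hne
    have hx' : x % 3 = 1 ∨ x % 3 = 2 := by omega
    have hy' : y % 3 = 1 ∨ y % 3 = 2 := by omega
    have h4 : (3 : ℤ) ∣ x + y := by omega
    obtain ⟨k, hk⟩ := h4
    have h5 : x ^ 3 + y ^ 3 = 9 * (k * (3 * k ^ 2 - x * y)) := by
      have : x = 3 * k - y := by linarith
      rw [this]; ring
    have h6 : (x ^ 3 + y ^ 3) % 9 = 0 := by rw [h5]; omega
    rw [hxyz, Int.mul_emod] at h6
    rcases hz with hz | hz <;> rcases hA with hA | hA | hA | hA <;>
      rw [hz, hA] at h6 <;> norm_num at h6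
  set η : Eis := ⟨-y, x - y⟩ with hη
  have hηw : η = w * (⟨x, y⟩ : Eis) := by
    ext
    · simp only [hη, mul_re, w_re, w_im]; ring
    · simp only [hη, mul_im, w_re, w_im]; ring
  have hnorm : η.norm = (x + y) * (x + y) + -(3 * (x * y)) := by
    rw [norm_def]; simp only [hη]; ring
  have hprim : Prim η := by
    refine ⟨h3xy, ?_⟩
    simp only [hη]; omega
  refine ⟨η, hprim, ?_, ?_, ?_, ?_⟩
  · apply isCoprime_of_prime_dvd
    · rintro ⟨h, -⟩
      exact hprim.not_lam_dvd (by rw [h]; exact dvd_zero _)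
    · intro l hl h1 h2
      have hlw : ¬ l ∣ w := not_dvd_of_isUnit hl isUnit_w
      have h4 : l ∣ (⟨x, y⟩ : Eis) := by
        rw [hηw] at h1
        exact (hl.dvd_or_dvd h1).resolve_left hlw
      have h5 : l ∣ conj (⟨x, y⟩ : Eis) := by
        rw [hηw, map_mul, conj_w] at h2
        exact (hl.dvd_or_dvd h2).resolve_left (fun h => hlw (hl.dvd_of_dvd_pow h))
      have h6 := coprime_xi hco hl h4 h5
      exact hprim.not_lam_dvd (h6.symm.dvd.trans h1)
  · ext
    · simp only [hη, add_re, conj_re, neg_re, intCast_re]; ring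
    · simp only [hη, add_im, conj_im, neg_im, intCast_im]; ring
  · have hS3 : IsCoprime (x + y) 3 := by
      rw [isCoprime_comm, Int.prime_three.irreducible.coprime_iff_not_dvd]
      omega
    have h4 : IsCoprime (x + y) (3 * (x * y)) := hS3.mul_right hcoxy
    rw [hnorm]
    exact (IsCoprime.mul_add_left_right h4.neg_right (x + y))
  · rw [← hxyz, hnorm]; ring

end cases


end Pool.Agent.Lib_helper18


end

section

set_option linter.unusedSectionVars false

/-!
# First descent for `A = B * ∏ p_i ^ e_i`, `B` a power of a prime `q = 2 mod 3`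
-/

namespace Pool.Agent.Lib_helper18

open Finset Eis

namespace FData

variable {ι : Type*} [Fintype ι] [DecidableEq ι] (D : FData ι)

/-- the product of the prime powers over a set of indices -/
def P (S : Finset ι) : ℤ := ∏ j ∈ S, (D.p j : ℤ) ^ D.e j

theorem dvd_P {i : ι} {S : Finset ι} (hi : i ∈ S) : (D.p i : ℤ) ∣ D.P S :=
  (dvd_pow_self _ (D.he0 i)).trans (dvd_prod_of_mem _ hi)

theorem prime_int (i : ι) : Prime (D.p i : ℤ) := Nat.prime_iff_prime_int.mp (D.hp i)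

theorem vec_eq_zero {J1 J2 : Finset ι} (h12 : Disjoint J1 J2)
    (h : ∀ j, D.vec J1 J2 j = 0) : J1 = ∅ ∧ J2 = ∅ := by
  have he : ∀ j, (D.e j : ZMod 3) ≠ 0 := by
    intro j h0
    have := D.e_sq j
    rw [h0, mul_zero] at this
    exact absurd this (by decide)
  constructor
  · rw [eq_empty_iff_forall_notMem]
    intro j hj
    have := h j
    rw [vec, if_pos hj] at this
    exact he j this
  · rw [eq_empty_iff_forall_notMem]
    intro j hj
    have := h j
    rw [vec, if_neg (Finset.disjoint_right.mp h12 hj), if_pos hj, neg_eq_zero] at this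
    exact he j this

theorem three_split {u v t s : ℤ} (huv : IsCoprime u v) (hut : IsCoprime u t)
    (hvt : IsCoprime v t) (h : u * v * t = D.P univ * s ^ 3) :
    ∃ J1 J2 J3 : Finset ι, Disjoint J1 J2 ∧ Disjoint J1 J3 ∧ Disjoint J2 J3 ∧
      J1 ∪ J2 ∪ J3 = univ ∧ ∃ a b c : ℤ, u = D.P J1 * a ^ 3 ∧ v = D.P J2 * b ^ 3 ∧
      t = D.P J3 * c ^ 3 ∧ s = a * b * c := by
  obtain ⟨J1, -, a, b', h1, h2, h3⟩ := split_two D.p D.e D.hp D.he0 univ u (v * t) s
    (huv.mul_right hut) (by rw [← mul_assoc]; exact h)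
  obtain ⟨J2, hJ2, b, c, h4, h5, h6⟩ := split_two D.p D.e D.hp D.he0 (univ \ J1) v t b' hvt h2
  refine ⟨J1, J2, (univ \ J1) \ J2, ?_, ?_, ?_, ?_, a, b, c, h1, h4, h5, ?_⟩
  · rw [Finset.disjoint_left]
    intro i hi hi2
    have := hJ2 hi2
    simp [hi] at this
  · rw [Finset.disjoint_left]
    intro i hi hi2
    simp [hi] at hi2
  · exact disjoint_sdiff
  · ext i
    simp only [mem_union, mem_sdiff, mem_univ, true_and, iff_true]
    tauto
  · rw [h3, h6]; ring

theorem mulVec_zero {M : Matrix ι ι (ZMod 3)} (hM : M.det ≠ 0) {v : ι → ZMod 3}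
    (h : ∀ i, ∑ j, M i j * v j = 0) : ∀ j, v j = 0 := by
  have h1 : M.mulVec v = 0 := by
    ext i
    simp only [Matrix.mulVec, dotProduct, Pi.zero_apply]
    exact h i
  have := Matrix.eq_zero_of_mulVec_eq_zero hM h1
  intro j
  rw [this]; rfl

section one

variable {q f : ℕ} (y : ι → ZMod 3)

/-- the rational side, `q` dividing the third term -/
theorem qstep (hq : q.Prime) (hqp : ∀ i, D.p i ≠ q)
    (hy : ∀ i, sym (D.π i) (((q : ℤ) ^ f : ℤ) : Eis) = y i)
    (hR : (Matrix.of (D.R y)).det ≠ 0) {u v t s : ℤ} (huv : IsCoprime u v)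
    (hut : IsCoprime u t) (hvt : IsCoprime v t) (hsum : u + v + t = 0)
    (hprod : u * v * t = ((q : ℤ) ^ f * D.P univ) * s ^ 3) (hqt : (q : ℤ) ∣ t) :
    ∃ a b c : ℤ, a ^ 3 + b ^ 3 = ((q : ℤ) ^ f * D.P univ) * c ^ 3 ∧
      s.natAbs = a.natAbs * b.natAbs * c.natAbs := by
  have hqi : Prime (q : ℤ) := Nat.prime_iff_prime_int.mp hq
  have hq0 : (q : ℤ) ^ f ≠ 0 := pow_ne_zero _ hqi.ne_zero
  have h1 : ¬ (q : ℤ) ∣ u * v := by
    intro h
    rcases hqi.dvd_or_dvd h with h | h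
    · exact hqi.not_isUnit (hut.isUnit_of_dvd' h hqt)
    · exact hqi.not_isUnit (hvt.isUnit_of_dvd' h hqt)
  have h2 : (q : ℤ) ^ f ∣ t := by
    apply hqi.pow_dvd_of_dvd_mul_left f h1
    rw [hprod, mul_assoc]; exact dvd_mul_right _ _
  obtain ⟨t1, ht1⟩ := h2
  have ht1d : t1 ∣ t := ⟨(q : ℤ) ^ f, by rw [ht1]; ring⟩
  obtain ⟨J1, J2, J3, h12, h13, h23, hU, a, b, c, ha, hb, hc, hs⟩ := D.three_split huv
    (hut.of_isCoprime_of_dvd_right ht1d) (hvt.of_isCoprime_of_dvd_right ht1d) (s := s) (by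
      apply mul_left_cancel₀ hq0
      rw [ht1] at hprod
      linear_combination hprod)
  have hpq : ∀ i, ¬ (D.p i : ℤ) ∣ (q : ℤ) ^ f := by
    intro i h
    have := (D.prime_int i).dvd_of_dvd_pow h
    rw [Int.natCast_dvd_natCast, Nat.prime_dvd_prime_iff_eq (D.hp i) hq] at this
    exact hqp i this
  have hmem : ∀ i, i ∈ J1 ∨ i ∈ J2 ∨ i ∈ J3 := by
    intro i
    have : i ∈ J1 ∪ J2 ∪ J3 := by rw [hU]; exact mem_univ i
    simp only [mem_union] at this
    tauto
  have hdu : ∀ i ∈ J1, (D.p i : ℤ) ∣ u := fun i hi => by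
    rw [ha]; exact Dvd.dvd.mul_right (D.dvd_P hi) _
  have hdv : ∀ i ∈ J2, (D.p i : ℤ) ∣ v := fun i hi => by
    rw [hb]; exact Dvd.dvd.mul_right (D.dvd_P hi) _
  have hdt : ∀ i ∈ J3, (D.p i : ℤ) ∣ t := fun i hi => by
    rw [ht1, hc]; exact Dvd.dvd.mul_left (Dvd.dvd.mul_right (D.dvd_P hi) _) _
  have hna : ∀ i, i ∉ J1 → ¬ (D.p i : ℤ) ∣ a := by
    intro i hi h
    have h5 : (D.p i : ℤ) ∣ u := by rw [ha]; exact Dvd.dvd.mul_left (Dvd.dvd.pow h (by norm_num)) _
    rcases hmem i with h6 | h6 | h6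
    · exact hi h6
    · exact (D.prime_int i).not_isUnit (huv.isUnit_of_dvd' h5 (hdv i h6))
    · exact (D.prime_int i).not_isUnit (hut.isUnit_of_dvd' h5 (hdt i h6))
  have hnb : ∀ i, i ∉ J2 → ¬ (D.p i : ℤ) ∣ b := by
    intro i hi h
    have h5 : (D.p i : ℤ) ∣ v := by rw [hb]; exact Dvd.dvd.mul_left (Dvd.dvd.pow h (by norm_num)) _
    rcases hmem i with h6 | h6 | h6
    · exact (D.prime_int i).not_isUnit (huv.isUnit_of_dvd' (hdu i h6) h5)
    · exact hi h6
    · exact (D.prime_int i).not_isUnit (hvt.isUnit_of_dvd' h5 (hdt i h6))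
  have hnc : ∀ i, i ∉ J3 → ¬ (D.p i : ℤ) ∣ c := by
    intro i hi h
    have h5 : (D.p i : ℤ) ∣ t := by
      rw [ht1, hc]; exact Dvd.dvd.mul_left (Dvd.dvd.mul_left (Dvd.dvd.pow h (by norm_num)) _) _
    rcases hmem i with h6 | h6 | h6
    · exact (D.prime_int i).not_isUnit (hut.isUnit_of_dvd' (hdu i h6) h5)
    · exact (D.prime_int i).not_isUnit (hvt.isUnit_of_dvd' (hdv i h6) h5)
    · exact hi h6
  have hn3 : ∀ i (x : ℤ), ¬ (D.p i : ℤ) ∣ x → ¬ (D.p i : ℤ) ∣ x ^ 3 :=
    fun i x h h' => h ((D.prime_int i).dvd_of_dvd_pow h')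
  have hs3 : ∀ i (x : ℤ), ¬ (D.p i : ℤ) ∣ x → sym (D.π i) ((x ^ 3 : ℤ) : Eis) = 0 := by
    intro i x hx
    rw [Int.cast_pow]
    exact sym_cube (D.pr i) (D.n3 i) (by rwa [D.dvd_int])
  have hres := D.qside h12 h13 h23 hU (u0 := a ^ 3) (v0 := b ^ 3) (t0 := (q : ℤ) ^ f * c ^ 3)
    y (fun _ => 0) (fun _ => 0) (fun i hi => hn3 i a (hna i hi))
    (fun i hi => hn3 i b (hnb i hi))
    (fun i hi h => ((D.prime_int i).dvd_or_dvd h).elim (hpq i) (hn3 i c (hnc i hi)))
    (fun i hi => by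
      rw [zero_add, zero_add, Int.cast_mul, sym_mul (D.pr i) (D.n3 i)
        (by rw [D.dvd_int]; exact hpq i) (by rw [D.dvd_int]; exact hn3 i c (hnc i hi)),
        hs3 i c (hnc i hi), add_zero, hy i])
    (fun i hi => hs3 i a (hna i hi)) (fun i hi => hs3 i b (hnb i hi)) (by
      rw [ha, hb, ht1, hc] at hsum
      rw [P, P, P] at hsum
      linear_combination hsum)
  have hv0 := mulVec_zero hR (v := D.vec J1 J2) (fun i => by
    have := hres i
    rw [sub_zero] at this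
    exact this)
  obtain ⟨e1, e2⟩ := D.vec_eq_zero h12 hv0
  subst e1 e2
  have e3 : J3 = univ := by simpa using hU
  subst e3
  have e0 : D.P ∅ = 1 := by rw [P, prod_empty]
  rw [e0, one_mul] at ha hb
  refine ⟨a, b, -c, ?_, ?_⟩
  · rw [ha, hb, ht1, hc] at hsum
    linear_combination hsum
  · rw [hs, Int.natAbs_mul, Int.natAbs_mul, Int.natAbs_neg]

/-- the rational side -/
theorem qstep' (hq : q.Prime) (hqp : ∀ i, D.p i ≠ q) (hf : f ≠ 0)
    (hy : ∀ i, sym (D.π i) (((q : ℤ) ^ f : ℤ) : Eis) = y i)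
    (hR : (Matrix.of (D.R y)).det ≠ 0) {u v t s : ℤ} (huv : IsCoprime u v)
    (hut : IsCoprime u t) (hvt : IsCoprime v t) (hsum : u + v + t = 0)
    (hprod : u * v * t = ((q : ℤ) ^ f * D.P univ) * s ^ 3) :
    ∃ a b c : ℤ, a ^ 3 + b ^ 3 = ((q : ℤ) ^ f * D.P univ) * c ^ 3 ∧
      s.natAbs = a.natAbs * b.natAbs * c.natAbs := by
  have hqi : Prime (q : ℤ) := Nat.prime_iff_prime_int.mp hq
  have h1 : (q : ℤ) ∣ u * v * t := by
    rw [hprod, mul_assoc]
    exact Dvd.dvd.mul_right (dvd_pow_self _ hf) _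
  rcases hqi.dvd_or_dvd h1 with h2 | h2
  · rcases hqi.dvd_or_dvd h2 with h3 | h3
    · exact D.qstep y hq hqp hy hR hvt huv.symm hut.symm (by linarith)
        (by rw [← hprod]; ring) h3
    · exact D.qstep y hq hqp hy hR hut huv hvt.symm (by linarith)
        (by rw [← hprod]; ring) h3
  · exact D.qstep y hq hqp hy hR huv hut hvt hsum hprod h2

end one

end FData

end Pool.Agent.Lib_helper18


end

section

set_option linter.unusedSectionVars false

/-!
# The descent for `A = q^f * ∏ p_i ^ e_i`, `q = 2 mod 3`, `A ≠ ±1 mod 9`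
-/

namespace Pool.Agent.Lib_helper18

open Finset Eis

theorem r3_dvd {l : Eis} (_hl : Prime l) (h : l ∣ r3) : l ∣ 3 := by
  have h1 : l ∣ r3 ^ 2 := Dvd.dvd.pow h (by norm_num)
  rw [r3_sq, dvd_neg] at h1
  exact h1

/-- the cube identity on the symmetric side -/
theorem trace_identity (α δ : ℤ) :
    ((⟨α, δ⟩ : Eis) ^ 3 + conj (⟨α, δ⟩ : Eis) ^ 3) =
      (((2 * α - δ) * (-α - δ) * (2 * δ - α) : ℤ) : Eis) := by
  ext
  · simp only [pow_succ, pow_zero, one_mul, add_re, mul_re, mul_im, conj_re, conj_im, intCast_re]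
    ring
  · simp only [pow_succ, pow_zero, one_mul, add_im, mul_re, mul_im, conj_re, conj_im, intCast_im]
    ring

theorem coprime_coords {γ : Eis} {α δ : ℤ} (hγ : γ = ⟨α, δ⟩) (hl : ¬ lam ∣ γ)
    (hcop : IsCoprime (γ ^ 3) (conj (γ ^ 3))) : IsCoprime α δ := by
  apply isCoprime_of_prime_dvd
  · rintro ⟨rfl, rfl⟩
    exact hl (by rw [hγ, show (⟨0, 0⟩ : Eis) = 0 from rfl]; exact dvd_zero _)
  · intro q hq h6 h7
    have h8 : (q : Eis) ∣ γ := by rw [hγ]; exact intCast_dvd_iff.mpr ⟨h6, h7⟩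
    have h9 : (q : Eis) ∣ γ ^ 3 := Dvd.dvd.pow h8 (by norm_num)
    have h10 : (q : Eis) ∣ conj (γ ^ 3) := by
      have := conj_dvd h9
      rwa [conj_intCast] at this
    have h11 := hcop.isUnit_of_dvd' h9 h10
    rw [isUnit_iff_norm, norm_intCast] at h11
    apply hq.not_isUnit
    rw [Int.isUnit_iff]
    exact sq_eq_one_iff_of_side h11

namespace FData

variable {ι : Type*} [Fintype ι] [DecidableEq ι] (D : FData ι)

section one

variable {q f : ℕ} (y : ι → ZMod 3)

/-- the side of `Z[ω]`: the class is trivial -/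
theorem kstep (hq : q.Prime) (hq3 : q % 3 = 2) (hqp : ∀ i, D.p i ≠ q)
    (hy : ∀ i, sym (D.π i) (((q : ℤ) ^ f : ℤ) : Eis) = y i)
    (hR : (Matrix.of (D.R y)).det ≠ 0) {η : Eis} {S z : ℤ} (hηprim : Prim η)
    (hηcop : IsCoprime η (conj η)) (hcoS : IsCoprime S η.norm)
    (hηS : S * η.norm = ((q : ℤ) ^ f * D.P univ) * z ^ 3) {β κ : Eis}
    (hβ : ∀ i, ¬ D.π i ∣ β) (hκ : ∀ i, ¬ D.π i ∣ κ)
    (hβ' : ∀ i, sym (D.π i) β = 0) (hκ' : ∀ i, sym (D.π i) κ = 0)
    (hrel : η + β * conj η = κ * (S : Eis)) :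
    ∃ (γ : Eis) (s t : ℤ), η = γ ^ 3 ∧ ¬ lam ∣ γ ∧ S = ((q : ℤ) ^ f * D.P univ) * s ^ 3 ∧
      z = t * s := by
  have hqi : Prime (q : ℤ) := Nat.prime_iff_prime_int.mp hq
  have hq0 : (q : ℤ) ^ f ≠ 0 := pow_ne_zero _ hqi.ne_zero
  have hqη := inert_not_dvd_norm hq hq3 hηcop
  have h2 : (q : ℤ) ^ f ∣ S := by
    apply hqi.pow_dvd_of_dvd_mul_right f hqη
    rw [hηS, mul_assoc]; exact dvd_mul_right _ _
  obtain ⟨S1, hS1⟩ := h2
  have hS1d : S1 ∣ S := ⟨(q : ℤ) ^ f, by rw [hS1]; ring⟩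
  obtain ⟨J, -, t, s, ht, hs, hz⟩ := split_two D.p D.e D.hp D.he0 univ η.norm S1 z
    (hcoS.of_isCoprime_of_dvd_left hS1d).symm (by
      apply mul_left_cancel₀ hq0
      rw [hS1] at hηS
      rw [P] at hηS
      linear_combination hηS)
  obtain ⟨ρ, γ, hρ, hγ, hγ3⟩ := split_eis D.p D.e D.π D.hp D.hπ D.prim D.he0 J η t hηprim hηcop ht
  have hpq : ∀ i, ¬ (D.p i : ℤ) ∣ (q : ℤ) ^ f := by
    intro i h
    have := (D.prime_int i).dvd_of_dvd_pow h
    rw [Int.natCast_dvd_natCast, Nat.prime_dvd_prime_iff_eq (D.hp i) hq] at this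
    exact hqp i this
  have hns : ∀ i ∈ J, ¬ (D.p i : ℤ) ∣ s := by
    intro i hi h
    have h5 : (D.p i : ℤ) ∣ S := by
      rw [hS1, hs]; exact Dvd.dvd.mul_left (Dvd.dvd.mul_left (Dvd.dvd.pow h (by norm_num)) _) _
    have h6 : (D.p i : ℤ) ∣ η.norm := by
      rw [ht]; exact Dvd.dvd.mul_right (D.dvd_P hi) _
    exact (D.prime_int i).not_isUnit (hcoS.isUnit_of_dvd' h5 h6)
  have hn3 : ∀ i (x : ℤ), ¬ (D.p i : ℤ) ∣ x → ¬ (D.p i : ℤ) ∣ x ^ 3 :=
    fun i x h h' => h ((D.prime_int i).dvd_of_dvd_pow h')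
  have hres := D.kside (J := J) hρ hγ hηcop (S0 := (q : ℤ) ^ f * s ^ 3)
    (fun i hi h => ((D.prime_int i).dvd_or_dvd h).elim (hpq i) (hn3 i s (hns i hi)))
    y (fun _ => 0) (fun i hi => by
      rw [Int.cast_mul, sym_mul (D.pr i) (D.n3 i)
        (by rw [D.dvd_int]; exact hpq i) (by rw [D.dvd_int]; exact hn3 i s (hns i hi)),
        Int.cast_pow s, sym_cube (D.pr i) (D.n3 i) (by rw [D.dvd_int]; exact hns i hi),
        add_zero, hy i])
    (α := 1) (β := β) (κ := κ) (fun i => not_dvd_of_isUnit (D.pr i) isUnit_one) hβ hκ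
    (fun i => sym_one (D.pr i) (D.n3 i)) (fun i => by rw [hβ' i, neg_zero]) hκ' (by
      rw [one_mul, hrel, hS1, hs]
      congr 2; ring)
  have hT : (Matrix.of (D.R y)).transpose.det ≠ 0 := by rwa [Matrix.det_transpose]
  have hv0 := mulVec_zero hT (v := D.vec _ _) (fun i => hres i)
  obtain ⟨e1, e2⟩ := D.vec_eq_zero (disjoint_filter_filter_not _ _ _) hv0
  have e3 : J = ∅ := by
    rw [← filter_union_filter_not_eq (fun j => ρ j = D.π j) J, e1, e2]; rfl
  subst e3
  rw [prod_empty, one_mul] at hγ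
  refine ⟨γ, s, t, hγ, hγ3, ?_, hz⟩
  rw [hS1, hs, sdiff_empty, P]; ring

theorem dvd_A_cube (hq : q.Prime) (hqp : ∀ i, D.p i ≠ q) (hf : f ≤ 2) (r : ℤ) (hr : Prime r) :
    ¬ r ^ 3 ∣ (q : ℤ) ^ f * D.P univ := by
  have h := cube_not_dvd_prod (κ := Option ι) (fun k => k.elim q D.p) (fun k => k.elim f D.e)
    (fun k => by cases k with
      | none => exact hq
      | some i => exact D.hp i)
    (fun k l hkl => by
      cases k with
      | none =>
        cases l with
        | none => rfl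
        | some j => exact absurd hkl.symm (hqp j)
      | some i =>
        cases l with
        | none => exact absurd hkl (hqp i)
        | some j => exact congrArg some (D.inj hkl))
    (fun k => by cases k with
      | none => exact hf
      | some i => rcases D.he i with h | h <;> simp [h])
    univ r hr
  rw [Fintype.prod_option] at h
  exact h

theorem descent_one (hq : q.Prime) (hq3 : q % 3 = 2) (hf : f = 1 ∨ f = 2)
    (hy : ∀ i, sym (D.π i) (((q : ℤ) ^ f : ℤ) : Eis) = y i)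
    (hR : (Matrix.of (D.R y)).det ≠ 0)
    (hA1 : ((q : ℤ) ^ f * D.P univ) % 9 ≠ 1) (hA8 : ((q : ℤ) ^ f * D.P univ) % 9 ≠ 8)
    (hA2 : ((q : ℤ) ^ f * D.P univ) ≠ 2) :
    ∀ (n : ℕ) (x y z : ℤ), z.natAbs = n → z ≠ 0 →
      x ^ 3 + y ^ 3 = ((q : ℤ) ^ f * D.P univ) * z ^ 3 → False := by
  have hqp : ∀ i, D.p i ≠ q := fun i h => by
    have := D.h3 i
    rw [h] at this
    omega
  have hf0 : f ≠ 0 := by omega
  have hqi : Prime (q : ℤ) := Nat.prime_iff_prime_int.mp hq
  have hcf := D.dvd_A_cube (f := f) hq hqp (by omega)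
  have hq' := fun {u v t s : ℤ} => D.qstep' y hq hqp hf0 hy hR (u := u) (v := v) (t := t) (s := s)
  have hk' := fun {η : Eis} {S z : ℤ} => D.kstep y hq hq3 hqp hy hR (η := η) (S := S) (z := z)
  set A : ℤ := (q : ℤ) ^ f * D.P univ with hA
  have hA0 : A ≠ 0 := by
    apply mul_ne_zero (pow_ne_zero _ hqi.ne_zero)
    exact prod_ne_zero_iff.mpr (fun j _ => pow_ne_zero _ (D.prime_int j).ne_zero)
  have hA3 : ¬ (3 : ℤ) ∣ A := by
    intro h
    rcases Int.prime_three.dvd_or_dvd h with h | h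
    · have h1 := Int.prime_three.dvd_of_dvd_pow h
      omega
    · rw [P, Int.prime_three.dvd_finsetProd_iff] at h
      obtain ⟨j, -, h⟩ := h
      have h1 := Int.prime_three.dvd_of_dvd_pow h
      have := D.h3 j
      omega
  intro n
  induction n using Nat.strong_induction_on with
  | _ n ih =>
  intro x y z hzn hz0 hxyz
  by_cases hco : IsCoprime x y
  swap
  · -- common factor
    have hx0y0 : ¬ (x = 0 ∧ y = 0) := by
      rintro ⟨rfl, rfl⟩
      have : A * z ^ 3 = 0 := by rw [← hxyz]; ring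
      rcases mul_eq_zero.mp this with h | h
      · exact hA0 h
      · exact hz0 (pow_eq_zero_iff (by norm_num) |>.mp h)
    have : ∃ r : ℤ, Prime r ∧ r ∣ x ∧ r ∣ y := by
      by_contra hcon
      push Not at hcon
      exact hco (isCoprime_of_prime_dvd hx0y0 (fun q hq hqx => hcon q hq hqx))
    obtain ⟨r, hr, ⟨x', hx'⟩, ⟨y', hy'⟩⟩ := this
    have hr3 : r ^ 3 ∣ A * z ^ 3 := ⟨x' ^ 3 + y' ^ 3, by rw [← hxyz, hx', hy']; ring⟩
    have hrz : r ∣ z := by
      by_contra hrz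
      exact hcf r hr (hr.pow_dvd_of_dvd_mul_right 3 (fun h => hrz (hr.dvd_of_dvd_pow h)) hr3)
    obtain ⟨z', hz'⟩ := hrz
    have hz'0 : z' ≠ 0 := by rintro rfl; simp at hz'; exact hz0 hz'
    have hlt : z'.natAbs < n := by
      rw [← hzn, hz', Int.natAbs_mul]
      have h1 : 1 < r.natAbs := by
        have := hr.not_isUnit
        rw [Int.isUnit_iff_natAbs_eq] at this
        have h2 : r.natAbs ≠ 0 := Int.natAbs_ne_zero.mpr hr.ne_zero
        omega
      have h2 : 0 < z'.natAbs := Int.natAbs_pos.mpr hz'0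
      nlinarith
    refine ih _ hlt x' y' z' rfl hz'0 ?_
    have hr30 : r ^ 3 ≠ 0 := pow_ne_zero _ hr.ne_zero
    apply mul_left_cancel₀ hr30
    rw [hx', hy', hz'] at hxyz
    linear_combination hxyz
  · by_cases h3z : (3 : ℤ) ∣ z
    · -- Case A
      obtain ⟨z1, S, η, hz1, hηprim, hηcop, hηim, hηdiff, hcoS, hηS⟩ := caseA_data hco h3z hxyz
      obtain ⟨γ, s, t, hγ, hγ3, hS, hzt⟩ := hk' hηprim hηcop hcoS hηS (β := -1) (κ := 3 * r3)
        (fun i => by
          rw [dvd_neg]; exact not_dvd_of_isUnit (D.pr i) isUnit_one)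
        (fun i h => ((D.pr i).dvd_or_dvd h).elim (D.n3 i) (fun h => D.n3 i (r3_dvd (D.pr i) h)))
        (fun i => sym_neg_one (D.pr i) (D.n3 i))
        (fun i => by
          have e : 3 * r3 = (-r3) ^ 3 := by decide
          rw [e]
          exact sym_cube (D.pr i) (D.n3 i)
            (by rw [dvd_neg]; exact fun h => D.n3 i (r3_dvd (D.pr i) h)))
        (by rw [← hηdiff]; ring)
      have hz10 : z1 ≠ 0 := by rintro rfl; simp at hz1; exact hz0 hz1
      have hs0 : s ≠ 0 := by rintro rfl; simp at hzt; exact hz10 hzt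
      obtain ⟨α, δ⟩ := γ
      have hcoad : IsCoprime α δ := coprime_coords rfl hγ3 (by rw [← hγ]; exact hηcop)
      have hprod : α * δ * (α - δ) = A * s ^ 3 := by
        have h6 := congrArg Eis.im hγ
        simp only [pow_succ, pow_zero, one_mul, mul_im, mul_re] at h6
        rw [hηim] at h6
        rw [← hS]
        linarith
      have hc1 : IsCoprime α (δ - α) := by
        obtain ⟨u, v, huv⟩ := hcoad
        exact ⟨u + v, v, by linear_combination huv⟩
      have hc2 : IsCoprime (-δ) (δ - α) := by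
        obtain ⟨u, v, huv⟩ := hcoad
        exact ⟨-(u + v), -u, by linear_combination huv⟩
      obtain ⟨a, b, c, habc, hsabc⟩ := hq' hcoad.neg_right hc1 hc2 (by ring)
        (by rw [← hprod]; ring)
      have hc0 : c ≠ 0 := by
        rintro rfl
        simp at hsabc
        exact hs0 hsabc
      have ha0 : a ≠ 0 := by rintro rfl; simp at hsabc; exact hs0 hsabc
      have hb0 : b ≠ 0 := by rintro rfl; simp at hsabc; exact hs0 hsabc
      have ht0 : t ≠ 0 := by rintro rfl; simp at hzt; exact hz10 hzt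
      refine ih c.natAbs ?_ a b c rfl hc0 habc
      have h1 : z.natAbs = 3 * (t.natAbs * s.natAbs) := by
        rw [hz1, Int.natAbs_mul, hzt, Int.natAbs_mul]; rfl
      have ha1 : 1 ≤ a.natAbs := Int.natAbs_pos.mpr ha0
      have hb1 : 1 ≤ b.natAbs := Int.natAbs_pos.mpr hb0
      have hc1 : 1 ≤ c.natAbs := Int.natAbs_pos.mpr hc0
      have ht1 : 1 ≤ t.natAbs := Int.natAbs_pos.mpr ht0
      have h2 : c.natAbs ≤ s.natAbs := by
        rw [hsabc]
        calc c.natAbs = 1 * 1 * c.natAbs := by ring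
          _ ≤ a.natAbs * b.natAbs * c.natAbs := by gcongr
      have h3 : s.natAbs ≤ t.natAbs * s.natAbs := by
        calc s.natAbs = 1 * s.natAbs := by ring
          _ ≤ t.natAbs * s.natAbs := by gcongr
      omega
    · -- Case B
      obtain ⟨η, hηprim, hηcop, hηsum, hcoS, hηS⟩ := caseB_data hco h3z hA3 hA1 hA8 hxyz
      obtain ⟨γ, s, t, hγ, hγ3, hS, hzt⟩ := hk' hηprim hηcop hcoS hηS (β := 1) (κ := -1)
        (fun i => not_dvd_of_isUnit (D.pr i) isUnit_one)
        (fun i => by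
          rw [dvd_neg]; exact not_dvd_of_isUnit (D.pr i) isUnit_one)
        (fun i => sym_one (D.pr i) (D.n3 i))
        (fun i => sym_neg_one (D.pr i) (D.n3 i))
        (by rw [one_mul, hηsum]; ring)
      have hs0 : s ≠ 0 := by rintro rfl; simp at hzt; exact hz0 hzt
      have ht0 : t ≠ 0 := by rintro rfl; simp at hzt; exact hz0 hzt
      obtain ⟨α, δ⟩ := γ
      have hcoad : IsCoprime α δ := coprime_coords rfl hγ3 (by rw [← hγ]; exact hηcop)
      have hl : ¬ (3 : ℤ) ∣ α + δ := by rw [lam_dvd_iff] at hγ3; exact hγ3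
      have hprod : (2 * α - δ) * (-α - δ) * (2 * δ - α) = A * (-s) ^ 3 := by
        have h6 := trace_identity α δ
        rw [← map_pow, ← hγ, hηsum, hS] at h6
        have h7 := congrArg Eis.re h6
        simp only [neg_re, intCast_re] at h7
        rw [← h7]; ring
      have h3n : ∀ n : ℤ, ¬ (3 : ℤ) ∣ n → IsCoprime n 3 := by
        intro n hn
        rw [isCoprime_comm, Int.prime_three.irreducible.coprime_iff_not_dvd]
        exact hn
      have key : ∀ u v : ℤ, (∃ a b c d : ℤ, a * u + b * v = 3 * α ∧ c * u + d * v = 3 * δ) →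
          ¬ (3 : ℤ) ∣ u → IsCoprime u v := by
        rintro u v ⟨a, b, c, d, h1, h2⟩ hu
        obtain ⟨m, n, hmn⟩ := hcoad
        have h4 : IsCoprime u (3 : ℤ) := h3n u hu
        have h5 : ∃ g h : ℤ, g * u + h * v = 3 :=
          ⟨m * a + n * c, m * b + n * d, by linear_combination m * h1 + n * h2 + 3 * hmn⟩
        obtain ⟨g, h, hgh⟩ := h5
        obtain ⟨k, l, hkl⟩ := h4
        exact ⟨k + l * g, l * h, by linear_combination hkl + l * hgh⟩
      have c1 : IsCoprime (2 * α - δ) (-α - δ) :=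
        key _ _ ⟨1, -1, -1, -2, by ring, by ring⟩ (by omega)
      have c2 : IsCoprime (2 * α - δ) (2 * δ - α) :=
        key _ _ ⟨2, 1, 1, 2, by ring, by ring⟩ (by omega)
      have c3 : IsCoprime (-α - δ) (2 * δ - α) :=
        key _ _ ⟨-2, -1, -1, 1, by ring, by ring⟩ (by omega)
      obtain ⟨a, b, c, habc, hsabc⟩ := hq' c1 c2 c3 (by ring) hprod
      rw [Int.natAbs_neg] at hsabc
      have hc0 : c ≠ 0 := by
        rintro rfl
        simp at hsabc
        exact hs0 hsabc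
      have ha0 : a ≠ 0 := by rintro rfl; simp at hsabc; exact hs0 hsabc
      have hb0 : b ≠ 0 := by rintro rfl; simp at hsabc; exact hs0 hsabc
      refine ih c.natAbs ?_ a b c rfl hc0 habc
      have h1 : z.natAbs = t.natAbs * s.natAbs := by rw [hzt, Int.natAbs_mul]
      have ha1 : 1 ≤ a.natAbs := Int.natAbs_pos.mpr ha0
      have hb1 : 1 ≤ b.natAbs := Int.natAbs_pos.mpr hb0
      have hc1 : 1 ≤ c.natAbs := Int.natAbs_pos.mpr hc0
      have ht1 : 1 ≤ t.natAbs := Int.natAbs_pos.mpr ht0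
      have h3 : s.natAbs ≤ t.natAbs * s.natAbs := by
        calc s.natAbs = 1 * s.natAbs := by ring
          _ ≤ t.natAbs * s.natAbs := by gcongr
      by_contra hcon
      have h4 : s.natAbs ≤ c.natAbs := by omega
      -- then |a| = |b| = 1
      have h5 : a.natAbs * b.natAbs = 1 := by
        rw [hsabc] at h4
        by_contra hne
        have h6 : 2 ≤ a.natAbs * b.natAbs := by
          have : 1 ≤ a.natAbs * b.natAbs := Nat.mul_pos ha1 hb1
          omega
        nlinarith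
      have ha2 : a.natAbs = 1 := Nat.eq_one_of_mul_eq_one_right h5
      have hb2 : b.natAbs = 1 := Nat.eq_one_of_mul_eq_one_left h5
      have hcase : A * c ^ 3 = 2 ∨ A * c ^ 3 = -2 := by
        have hAc : A * c ^ 3 ≠ 0 := mul_ne_zero hA0 (pow_ne_zero _ hc0)
        rcases Int.natAbs_eq a with h | h <;> rcases Int.natAbs_eq b with h' | h' <;>
          rw [ha2] at h <;> rw [hb2] at h' <;> rw [h, h'] at habc <;> norm_num at habc
        · left; exact habc.symm
        · exact absurd habc (by tauto)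
        · exact absurd habc (by tauto)
        · right; exact habc.symm
      have hApos : 0 < A := by
        rw [hA]
        apply mul_pos (pow_pos (by exact_mod_cast hq.pos) _)
        exact prod_pos (fun j _ => pow_pos (by exact_mod_cast (D.hp j).pos) _)
      have hAd : A ∣ 2 := by
        rcases hcase with h | h
        · exact ⟨_, h.symm⟩
        · exact ⟨-c ^ 3, by linarith⟩
      have hA2' := Int.le_of_dvd (by norm_num) hAd
      have : A = 1 := by omega
      rw [this] at hA1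
      exact hA1 (by norm_num)

end one

end FData

end Pool.Agent.Lib_helper18


end

section

set_option linter.unusedSectionVars false

/-!
# Existence statements: choice of the diagonal, splitting primes, prescribed symbols
-/

namespace Pool.Agent.Lib_helper18

open Finset Eis Matrix

/-- choosing the diagonal -/
theorem exists_diag_fin : ∀ (n : ℕ) (M1 M2 : Matrix (Fin n) (Fin n) (ZMod 3)),
    ∃ x : Fin n → ZMod 3, (M1 + diagonal x).det ≠ 0 ∧ (M2 - diagonal x).det ≠ 0 := by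
  intro n
  induction n with
  | zero =>
    intro M1 M2
    exact ⟨0, by rw [det_isEmpty]; decide, by rw [det_isEmpty]; decide⟩
  | succ n ih =>
    intro M1 M2
    obtain ⟨x', h1, h2⟩ := ih (M1.submatrix Fin.succ Fin.succ) (M2.submatrix Fin.succ Fin.succ)
    -- det is affine in the first diagonal entry
    have key : ∀ (M : Matrix (Fin (n + 1)) (Fin (n + 1)) (ZMod 3)) (x : Fin n → ZMod 3) (a : ZMod 3),
        (M + diagonal (Fin.cons a x)).det =
          (M + diagonal (Fin.cons 0 x)).det + a * (M.submatrix Fin.succ Fin.succ + diagonal x).det := by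
      intro M x a
      have hu : M + diagonal (Fin.cons a x : Fin (n + 1) → ZMod 3) =
          updateRow (M + diagonal (Fin.cons 0 x : Fin (n + 1) → ZMod 3)) 0
            ((M + diagonal (Fin.cons 0 x : Fin (n + 1) → ZMod 3)) 0 + a • Pi.single 0 1) := by
        ext i j
        refine Fin.cases ?_ (fun i => ?_) i
        · refine Fin.cases ?_ (fun j => ?_) j
          · simp
          · simp [Matrix.diagonal_apply_ne _ (Fin.succ_ne_zero j).symm]
        · rw [updateRow_ne (Fin.succ_ne_zero i)]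
          refine Fin.cases ?_ (fun j => ?_) j
          · simp
          · by_cases hij : i = j
            · subst hij; simp
            · have : i.succ ≠ j.succ := fun h => hij (Fin.succ_injective _ h)
              simp [Matrix.diagonal_apply_ne _ this]
      rw [hu, det_updateRow_add, updateRow_eq_self, det_updateRow_smul]
      congr 1
      congr 1
      rw [det_succ_row_zero, Finset.sum_eq_single 0]
      · simp only [Fin.val_zero, pow_zero, one_mul, updateRow_self, Pi.single_eq_same]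
        congr 1
        ext i j
        simp only [submatrix_apply, Matrix.add_apply, Fin.succAbove_zero]
        rw [updateRow_ne (Fin.succ_ne_zero i)]
        by_cases hij : i = j
        · subst hij; simp
        · have : i.succ ≠ j.succ := fun h => hij (Fin.succ_injective _ h)
          simp [Matrix.diagonal_apply_ne _ this, Matrix.diagonal_apply_ne _ hij]
      · intro j _ hj
        simp [Pi.single_eq_of_ne hj]
      · intro h; exact absurd (Finset.mem_univ _) h
    have hneg : ∀ (M : Matrix (Fin (n + 1)) (Fin (n + 1)) (ZMod 3)) (x : Fin n → ZMod 3) (a : ZMod 3),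
        M - diagonal (Fin.cons a x : Fin (n + 1) → ZMod 3) =
          M + diagonal (Fin.cons (-a) (-x) : Fin (n + 1) → ZMod 3) := by
      intro M x a
      rw [sub_eq_add_neg, diagonal_neg]
      congr 2
      ext i
      refine Fin.cases ?_ (fun i => ?_) i <;> simp
    have hx' : M2.submatrix Fin.succ Fin.succ + diagonal (-x') =
        M2.submatrix Fin.succ Fin.succ - diagonal x' := by
      rw [sub_eq_add_neg, diagonal_neg]; rfl
    have hex : ∀ c1 d1 c2 d2 : ZMod 3, d1 ≠ 0 → d2 ≠ 0 →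
        ∃ a : ZMod 3, c1 + a * d1 ≠ 0 ∧ c2 + -a * d2 ≠ 0 := by decide
    obtain ⟨a, ha1, ha2⟩ := hex (M1 + diagonal (Fin.cons 0 x' : Fin (n + 1) → ZMod 3)).det
      (M1.submatrix Fin.succ Fin.succ + diagonal x').det
      (M2 + diagonal (Fin.cons 0 (-x') : Fin (n + 1) → ZMod 3)).det
      (M2.submatrix Fin.succ Fin.succ + diagonal (-x')).det h1 (by rw [hx']; exact h2)
    refine ⟨Fin.cons a x', by rw [key]; exact ha1, by rw [hneg, key]; exact ha2⟩

theorem exists_diag {ι : Type*} [Fintype ι] [DecidableEq ι] (M1 M2 : Matrix ι ι (ZMod 3)) :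
    ∃ x : ι → ZMod 3, (M1 + diagonal x).det ≠ 0 ∧ (M2 - diagonal x).det ≠ 0 := by
  let e := Fintype.equivFin ι
  obtain ⟨x, h1, h2⟩ := exists_diag_fin (Fintype.card ι) (M1.submatrix e.symm e.symm)
    (M2.submatrix e.symm e.symm)
  have hd : diagonal x = (diagonal (x ∘ e)).submatrix e.symm e.symm := by
    ext i j
    simp only [submatrix_apply, diagonal_apply, Function.comp_apply, Equiv.apply_symm_apply,
      EmbeddingLike.apply_eq_iff_eq]
  refine ⟨x ∘ e, ?_, ?_⟩
  · rw [hd] at h1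
    rw [← det_submatrix_equiv_self e.symm]
    exact h1
  · rw [hd] at h2
    rw [← det_submatrix_equiv_self e.symm]
    exact h2

/-- every prime `p = 1 mod 3` is the norm of an element `a + 3 b ω` -/
theorem exists_pi {p : ℕ} (hp : p.Prime) (h3 : p % 3 = 1) :
    ∃ π : Eis, π.norm = p ∧ (3 : ℤ) ∣ π.im := by
  have : Fact p.Prime := ⟨hp⟩
  -- a primitive cube root of unity modulo p
  obtain ⟨t, ht⟩ : ∃ t : ZMod p, t ^ 2 + t + 1 = 0 := by
    obtain ⟨g, hg⟩ := IsCyclic.exists_generator (α := (ZMod p)ˣ)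
    have hord : orderOf g = p - 1 := by
      rw [orderOf_eq_card_of_forall_mem_zpowers hg, Nat.card_eq_fintype_card,
        ZMod.card_units_eq_totient, Nat.totient_prime hp]
    have hp2 := hp.two_le
    obtain ⟨k, hk⟩ : ∃ k, p - 1 = 3 * k := ⟨(p - 1) / 3, by omega⟩
    have hk0 : 0 < k := by omega
    refine ⟨((g ^ k : (ZMod p)ˣ) : ZMod p), ?_⟩
    have h1 : (g ^ k) ^ 3 = 1 := by
      rw [← pow_mul, mul_comm, ← hk, ← hord]; exact pow_orderOf_eq_one g
    have h2 : g ^ k ≠ 1 := by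
      intro h
      have := orderOf_dvd_of_pow_eq_one h
      rw [hord, hk] at this
      have := Nat.le_of_dvd hk0 this
      omega
    have h3' : (((g ^ k : (ZMod p)ˣ) : ZMod p)) ^ 3 = 1 := by
      have := congrArg Units.val h1
      simpa using this
    have h4 : (((g ^ k : (ZMod p)ˣ) : ZMod p)) - 1 ≠ 0 := by
      rw [sub_ne_zero]
      intro h
      exact h2 (Units.ext (by simpa using h))
    apply mul_left_cancel₀ h4
    linear_combination h3'
  obtain ⟨a, ha⟩ := ZMod.intCast_surjective t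
  have hpa : (p : ℤ) ∣ a ^ 2 + a + 1 := by
    rw [← ZMod.intCast_zmod_eq_zero_iff_dvd]
    push_cast
    rw [ha]; exact ht
  have hq0 : (p : Eis) ≠ 0 := by
    intro h
    have := congrArg Eis.re h
    simp at this
    exact hp.ne_zero this
  have hnu : ¬ IsUnit (p : Eis) := by
    rw [isUnit_iff_norm, norm_natCast]
    intro h
    have := hp.two_le
    have h2 : (2 : ℤ) ≤ p := by exact_mod_cast this
    nlinarith
  have hnp : ¬ Prime (p : Eis) := by
    intro hP
    have h1 : (p : Eis) ∣ (⟨a, -1⟩ : Eis) * conj ⟨a, -1⟩ := by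
      rw [mul_conj]
      have := intCast_dvd_intCast.mpr hpa
      rw [Int.cast_natCast] at this
      have e : (⟨a, -1⟩ : Eis).norm = a ^ 2 + a + 1 := by rw [norm_def]; simp only; ring
      rw [e]; exact this
    have h2 : ¬ (p : Eis) ∣ (⟨a, -1⟩ : Eis) := by
      rw [natCast_dvd_iff]
      rintro ⟨-, h⟩
      simp only [dvd_neg] at h
      have := Int.le_of_dvd one_pos h
      have := hp.two_le
      omega
    rcases hP.dvd_or_dvd h1 with h | h
    · exact h2 h
    · have := conj_dvd h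
      rw [conj_natCast, conj_conj] at this
      exact h2 this
  obtain ⟨l, hl, hlq⟩ := WfDvdMonoid.exists_irreducible_factor hnu hq0
  have hlp := hl.prime
  have hlq' := hlq
  obtain ⟨m, hm⟩ := hlq
  have h1 : (p : ℤ) ^ 2 = l.norm * m.norm := by rw [← norm_mul, ← hm, norm_natCast]
  have h2 : l.norm.natAbs ∣ p ^ 2 := by
    have : l.norm ∣ (p : ℤ) ^ 2 := ⟨_, h1⟩
    have := Int.natAbs_dvd_natAbs.mpr this
    simpa [Int.natAbs_pow] using this
  have hn := norm_pos hlp.ne_zero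
  have hn1 : l.norm ≠ 1 := fun h => hlp.not_isUnit (isUnit_iff_norm.mpr h)
  rw [Nat.dvd_prime_pow hp] at h2
  obtain ⟨k, hk, hk2⟩ := h2
  interval_cases k
  · simp at hk2; omega
  · have hln : l.norm = p := by rw [pow_one] at hk2; omega
    have hl3 : ¬ l ∣ 3 := not_dvd_three hln h3
    obtain ⟨i, hi⟩ := exists_prim (not_lam_dvd_of_prime hlp hl3)
    refine ⟨l * w ^ i, ?_, hi.1⟩
    rw [norm_mul, norm_pow, norm_w, one_pow, mul_one, hln]
  · exfalso
    have h5 : l.norm = (p : ℤ) ^ 2 := by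
      have : (l.norm.natAbs : ℤ) = ((p ^ 2 : ℕ) : ℤ) := by exact_mod_cast hk2
      rw [Int.natCast_natAbs, abs_of_pos hn] at this
      rw [this]; push_cast; ring
    exact hnp ((associated_of_norm_sq hp hlq' h5).prime hlp)

/-- prescribed cubic residue symbol -/
theorem exists_sym {p : ℕ} [hp : Fact p.Prime] {π : Eis} (h3 : p % 3 = 1) (hπ : π.norm = p)
    (x : ZMod 3) : ∃ c : ℕ, ¬ p ∣ c ∧ sym π (c : Eis) = x := by
  have hπpr := prime_of_norm_eq hπ
  have hπ3 := not_dvd_three hπ h3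
  obtain ⟨φ, hφ⟩ := exists_hom hπ
  obtain ⟨χ, hχ1, hχ2, ⟨g, hg0, hg⟩⟩ := exists_cubic_char h3 φ
  have hNpi : N π = p := by
    have := N_cast π
    rw [hπ] at this
    exact_mod_cast this
  have hg' : ¬ π ∣ ((g.val : ℕ) : Eis) := by
    rw [← hφ, map_natCast, ZMod.natCast_val, ZMod.cast_id', id]
    exact hg0
  have h1 : sym π ((g.val : ℕ) : Eis) = 1 := by
    have h1 := hχ1 _ hg0
    have h2 := map_pow_eq hπpr hπ3 hg' φ ((hφ π).mpr dvd_rfl)
    rw [map_natCast, hNpi, ZMod.natCast_val, ZMod.cast_id', id] at h2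
    rw [h2, hg, ← map_pow, ← sub_eq_zero, ← map_sub, hφ] at h1
    have h5 : π ∣ w ^ 1 - w ^ (sym π ((g.val : ℕ) : Eis)).val := by rw [pow_one]; exact h1
    have h4 := w_pow_sub_dvd hπ3 h5
    rw [ZMod.natCast_val, ZMod.cast_id', id] at h4
    rw [← h4]; rfl
  refine ⟨g.val ^ x.val, ?_, ?_⟩
  · intro h
    have h4 := hp.out.dvd_of_dvd_pow h
    rw [← ZMod.natCast_eq_zero_iff, ZMod.natCast_val, ZMod.cast_id', id] at h4
    exact hg0 h4
  · rw [Nat.cast_pow, sym_pow hπpr hπ3 hg', h1, mul_one, ZMod.natCast_val, ZMod.cast_id', id]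

/-- splitting off the largest cube -/
theorem exists_cubefree (n : ℕ) (hn : n ≠ 0) :
    ∃ n' m : ℕ, n = n' * m ^ 3 ∧ m ≠ 0 ∧ n' ≠ 0 ∧ ∀ r : ℕ, r.Prime → ¬ r ^ 3 ∣ n' := by
  induction n using Nat.strong_induction_on with
  | _ n ih =>
  by_cases h : ∃ r : ℕ, r.Prime ∧ r ^ 3 ∣ n
  · obtain ⟨r, hr, k, hk⟩ := h
    have hr0 := hr.two_le
    have hk0 : k ≠ 0 := by rintro rfl; simp at hk; exact hn hk
    have hlt : k < n := by
      rw [hk]
      have h1 : 2 ^ 3 ≤ r ^ 3 := Nat.pow_le_pow_left hr0 3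
      have h2 : 0 < k := Nat.pos_of_ne_zero hk0
      nlinarith
    obtain ⟨n', m, h1, h2, h3, h4⟩ := ih k hlt hk0
    exact ⟨n', r * m, by rw [hk, h1]; ring, mul_ne_zero hr.ne_zero h2, h3, h4⟩
  · push Not at h
    exact ⟨n, 1, by ring, one_ne_zero, hn, h⟩

end Pool.Agent.Lib_helper18


end
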