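import Mathlib
import Pool.Agent.PTDM.C01
import Pool.Agent.PTDM.C03
import Pool.Agent.PTDM.C04

/-! Parts: Lib_helper18.NPD, Lib_helper18.NPDMain -/

section

/-!
# The primes `p = 1 (mod 9)` for which `3` is not a cube: Galois theory
-/

open NumberField Polynomial
open scoped Pointwise

namespace Pool.Agent.Lib_helper18.NPD

section Gal

variable {L : Type} [Field L] [NumberField L] [IsGalois ℚ L] {ζ θ : L}

omit [NumberField L] [IsGalois ℚ L] in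
lemma om (hζ : IsPrimitiveRoot ζ 9) : IsPrimitiveRoot (ζ ^ 3) 3 :=
  hζ.pow (by norm_num) (by norm_num)

omit [NumberField L] [IsGalois ℚ L] in
lemma om_eq (hζ : IsPrimitiveRoot ζ 9) : (ζ ^ 3) ^ 2 + ζ ^ 3 + 1 = 0 := by
  have h := om hζ
  have h1 : (ζ ^ 3) ^ 3 = 1 := h.pow_eq_one
  have h2 : ζ ^ 3 ≠ 1 := h.ne_one (by norm_num)
  have h3 : (ζ ^ 3 - 1) * ((ζ ^ 3) ^ 2 + ζ ^ 3 + 1) = 0 := by linear_combination h1
  rcases mul_eq_zero.1 h3 with h4 | h4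
  · exact absurd (sub_eq_zero.1 h4) h2
  · exact h4

omit [NumberField L] [IsGalois ℚ L] in
lemma th_ne (hL : (3 : L) ≠ 0) (hθ : θ ^ 3 = 3) : θ ≠ 0 := by
  rintro rfl
  apply hL
  rw [← hθ]
  ring

omit [IsGalois ℚ L] in
/-- The image of the cube root. -/
lemma act_th (hζ : IsPrimitiveRoot ζ 9) (hθ : θ ^ 3 = 3) (g : L ≃ₐ[ℚ] L) :
    ∃ a : ℕ, a < 3 ∧ g θ = (ζ ^ 3) ^ a * θ := by
  have h0 : θ ≠ 0 := th_ne (by norm_num) hθ
  have h1 : (g θ / θ) ^ 3 = 1 := by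
    rw [div_pow, ← map_pow, hθ, map_ofNat]
    norm_num
  obtain ⟨a, ha, h2⟩ := (om hζ).eq_pow_of_pow_eq_one h1
  refine ⟨a, ha, ?_⟩
  rw [h2]
  field_simp

omit [IsGalois ℚ L] in
/-- The image of the root of unity. -/
lemma act_ze (hζ : IsPrimitiveRoot ζ 9) (g : L ≃ₐ[ℚ] L) :
    ∃ i : ℕ, i < 9 ∧ g ζ = ζ ^ i := by
  have h1 : (g ζ) ^ 9 = 1 := by
    rw [← map_pow, hζ.pow_eq_one, map_one]
  obtain ⟨a, ha, h2⟩ := hζ.eq_pow_of_pow_eq_one h1
  exact ⟨a, ha, h2.symm⟩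

lemma irr : Irreducible (X ^ 3 - C 3 : ℚ[X]) := by
  have h := X_pow_sub_C_irreducible_of_prime (K := ℚ) Nat.prime_three (a := 3) ?_
  · exact h
  · intro b hb
    have hn := irrational_nrt_of_notint_nrt 3 3 (x := (b : ℝ)) (by exact_mod_cast hb) ?_ (by norm_num)
    · exact hn ⟨b, rfl⟩
    · rintro ⟨y, hy⟩
      have h1 : (y : ℝ) ^ 3 = 3 := by rw [← hy]; exact_mod_cast hb
      have h2 : y ^ 3 = 3 := by exact_mod_cast h1
      have h3 : y ≤ 1 := by nlinarith [sq_nonneg y, sq_nonneg (y + 2)]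
      have h4 : 1 < y := by nlinarith [sq_nonneg y, sq_nonneg (y + 1)]
      omega

/-- There is an automorphism with a prescribed image of the cube root. -/
lemma exists_th (hζ : IsPrimitiveRoot ζ 9) (hθ : θ ^ 3 = 3) (a : ℕ) :
    ∃ g : L ≃ₐ[ℚ] L, g θ = (ζ ^ 3) ^ a * θ := by
  have hm : minpoly ℚ θ = X ^ 3 - C 3 := by
    symm
    refine minpoly.eq_of_irreducible_of_monic irr ?_ (monic_X_pow_sub_C _ (by norm_num))
    simp [hθ]
  refine minpoly.exists_algEquiv_of_root' (Algebra.IsAlgebraic.isAlgebraic θ) ?_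
  rw [hm]
  have h1 : ((ζ ^ 3) ^ a * θ) ^ 3 = 3 := by
    rw [mul_pow, hθ, ← pow_mul, mul_comm a 3, pow_mul, (om hζ).pow_eq_one, one_pow, one_mul]
  simp only [map_sub, map_pow, aeval_X, aeval_C, h1]
  simp

/-- There is an automorphism which inverts the cube roots of unity. -/
lemma exists_om (hζ : IsPrimitiveRoot ζ 9) :
    ∃ g : L ≃ₐ[ℚ] L, g (ζ ^ 3) = (ζ ^ 3) ^ 2 := by
  refine minpoly.exists_algEquiv_of_root' (Algebra.IsAlgebraic.isAlgebraic _) ?_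
  rw [← cyclotomic_eq_minpoly_rat (om hζ) (by norm_num)]
  have h2 : IsPrimitiveRoot ((ζ ^ 3) ^ 2) 3 := (om hζ).pow_of_coprime 2 (by norm_num)
  have h3 : IsRoot (cyclotomic 3 L) ((ζ ^ 3) ^ 2) := h2.isRoot_cyclotomic (by norm_num)
  rw [IsRoot.def, ← map_cyclotomic 3 (algebraMap ℚ L), eval_map_algebraMap] at h3
  exact h3

omit [IsGalois ℚ L] in
lemma pow_inj3 (hζ : IsPrimitiveRoot ζ 9) (hθ : θ ^ 3 = 3) {a b : ℕ}
    (h : (ζ ^ 3) ^ a * θ = (ζ ^ 3) ^ b * θ) : a % 3 = b % 3 := by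
  have h0 : θ ≠ 0 := th_ne (by norm_num) hθ
  have h1 := mul_right_cancel₀ h0 h
  have h2 := (om hζ).pow_inj (i := a % 3) (j := b % 3) (Nat.mod_lt _ (by norm_num))
    (Nat.mod_lt _ (by norm_num))
  refine h2 ?_
  rw [pow_eq_pow_mod a (om hζ).pow_eq_one, pow_eq_pow_mod b (om hζ).pow_eq_one] at h1
  exact h1

/-- The cube root is not fixed by all automorphisms which fix the root of unity. -/
lemma exists_move (hζ : IsPrimitiveRoot ζ 9) (hθ : θ ^ 3 = 3) :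
    ∃ g : L ≃ₐ[ℚ] L, g ζ = ζ ∧ g θ ≠ θ := by
  by_contra hcon
  push Not at hcon
  have hcomm : ∀ g h : L ≃ₐ[ℚ] L, g (h θ) = h (g θ) := by
    intro g h
    obtain ⟨i, -, hi⟩ := act_ze hζ g
    obtain ⟨j, -, hj⟩ := act_ze hζ h
    have h1 : g (h ζ) = h (g ζ) := by
      rw [hi, hj, map_pow, map_pow, hi, hj, ← pow_mul, ← pow_mul, mul_comm]
    have h2 : (h * g)⁻¹ (g (h ζ)) = ζ := by
      rw [h1]
      exact AlgEquiv.symm_apply_apply (h * g) ζ
    have h3 := hcon ((h * g)⁻¹ * (g * h)) h2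
    have h4 : (h * g) (((h * g)⁻¹ * (g * h)) θ) = (h * g) θ := by rw [h3]
    have h5 : (h * g) (((h * g)⁻¹ * (g * h)) θ) = (g * h) θ :=
      AlgEquiv.apply_symm_apply (h * g) ((g * h) θ)
    rw [h5] at h4
    exact h4
  obtain ⟨c, hc⟩ := exists_om hζ (L := L)
  obtain ⟨a, ha, hcθ⟩ := act_th hζ hθ c
  have key : ∀ e : ℕ, ∃ b : ℕ, (b = 1 ∨ b = 2) ∧ (b * a + e) % 3 = (2 * e + a) % 3 := by
    intro e
    obtain ⟨s, hs⟩ := exists_th hζ hθ e
    obtain ⟨b, hb, hsω⟩ : ∃ b, b < 3 ∧ s (ζ ^ 3) = (ζ ^ 3) ^ b := by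
      have h1 : (s (ζ ^ 3)) ^ 3 = 1 := by
        rw [← map_pow, (om hζ).pow_eq_one, map_one]
      obtain ⟨b, hb, h2⟩ := (om hζ).eq_pow_of_pow_eq_one h1
      exact ⟨b, hb, h2.symm⟩
    have hb0 : b ≠ 0 := by
      rintro rfl
      rw [pow_zero] at hsω
      have : s (ζ ^ 3) = s 1 := by rw [hsω, map_one]
      exact (om hζ).ne_one (by norm_num) (s.injective this)
    refine ⟨b, by omega, ?_⟩
    have h1 := hcomm s c
    have h2 : s (c θ) = (ζ ^ 3) ^ (b * a + e) * θ := by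
      rw [hcθ, map_mul, map_pow s (ζ ^ 3) a, hsω, hs, ← pow_mul, ← mul_assoc, ← pow_add]
    have h3 : c (s θ) = (ζ ^ 3) ^ (2 * e + a) * θ := by
      rw [hs, map_mul, map_pow c (ζ ^ 3) e, hc, hcθ, ← pow_mul, ← mul_assoc, ← pow_add]
    rw [h2, h3] at h1
    exact pow_inj3 hζ hθ h1
  obtain ⟨b1, h1, e1⟩ := key 1
  obtain ⟨b2, h2, e2⟩ := key 2
  rcases h1 with rfl | rfl <;> rcases h2 with rfl | rfl <;> omega

omit [IsGalois ℚ L] in
/-- The Galois group has at most 18 elements. -/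
lemma card_le (hζ : IsPrimitiveRoot ζ 9) (hθ : θ ^ 3 = 3)
    (hgen : ∀ g : L ≃ₐ[ℚ] L, g ζ = ζ → g θ = θ → g = 1) : Nat.card (L ≃ₐ[ℚ] L) ≤ 18 := by
  classical
  choose a ha ha' using act_th hζ hθ (L := L)
  let F : (L ≃ₐ[ℚ] L) → (ZMod 9)ˣ × Fin 3 := fun g => (hζ.autToPow ℚ g, ⟨a g, ha g⟩)
  have hF : Function.Injective F := by
    intro g h hgh
    simp only [F, Prod.mk.injEq, Fin.mk.injEq] at hgh
    obtain ⟨h1, h2⟩ := hgh
    have e1 : g ζ = h ζ := by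
      rw [← hζ.autToPow_spec ℚ g, ← hζ.autToPow_spec ℚ h, h1]
    have e2 : g θ = h θ := by rw [ha', ha', h2]
    have e3 : (h⁻¹ * g) = 1 := by
      refine hgen _ ?_ ?_
      · change h.symm (g ζ) = ζ
        rw [e1]
        exact AlgEquiv.symm_apply_apply h ζ
      · change h.symm (g θ) = θ
        rw [e2]
        exact AlgEquiv.symm_apply_apply h θ
    exact (inv_mul_eq_one.1 e3).symm
  have h1 := Nat.card_le_card_of_injective F hF
  have h2 : Nat.card ((ZMod 9)ˣ × Fin 3) = 18 := by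
    rw [Nat.card_prod, Nat.card_eq_fintype_card, ZMod.card_units_eq_totient, Nat.card_eq_fintype_card,
      Fintype.card_fin]
    decide
  omega

/-- The set of the nontrivial automorphisms which fix the root of unity. -/
def TT (ζ : L) : Set (L ≃ₐ[ℚ] L) := {g | g ζ = ζ ∧ g ≠ 1}

lemma two_le_card (hζ : IsPrimitiveRoot ζ 9) (hθ : θ ^ 3 = 3) : 2 ≤ Nat.card (TT ζ) := by
  obtain ⟨g, h1, h2⟩ := exists_move hζ hθ
  obtain ⟨a, ha, h3⟩ := act_th hζ hθ g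
  have ha0 : a ≠ 0 := by
    rintro rfl
    exact h2 (by rw [h3, pow_zero, one_mul])
  have hgω : g (ζ ^ 3) = ζ ^ 3 := by rw [map_pow, h1]
  have h4 : (g * g) θ = (ζ ^ 3) ^ (2 * a) * θ := by
    change g (g θ) = _
    rw [h3, map_mul, map_pow, hgω, h3, ← mul_assoc, ← pow_add, two_mul]
  have h5 : g ∈ TT ζ := by
    refine ⟨h1, ?_⟩
    rintro rfl
    exact h2 rfl
  have h6 : g * g ∈ TT ζ := by
    refine ⟨by change g (g ζ) = ζ; rw [h1, h1], ?_⟩
    intro h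
    rw [h] at h4
    have h7 : (ζ ^ 3) ^ 0 * θ = (ζ ^ 3) ^ (2 * a) * θ := by
      rw [pow_zero, one_mul]
      exact h4
    have := pow_inj3 hζ hθ h7
    omega
  have h7 : g ≠ g * g := by
    intro h
    have : (ζ ^ 3) ^ a * θ = (ζ ^ 3) ^ (2 * a) * θ := by rw [← h3, ← h4, ← h]
    have := pow_inj3 hζ hθ this
    omega
  have : Nontrivial (TT ζ) := ⟨⟨⟨g, h5⟩, ⟨g * g, h6⟩, fun h => h7 (congrArg Subtype.val h)⟩⟩
  have := Finite.one_lt_card (α := TT ζ)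
  omega

omit [IsGalois ℚ L] in
lemma TT_inv (hζ : IsPrimitiveRoot ζ 9) (g h τ : L ≃ₐ[ℚ] L) (hg : g ∈ TT ζ)
    (hh : Subgroup.zpowers h = Subgroup.zpowers (τ * g * τ⁻¹)) : h ∈ TT ζ := by
  obtain ⟨h1, h2⟩ := hg
  constructor
  · let H : Subgroup (L ≃ₐ[ℚ] L) := MulAction.stabilizer _ ζ
    have h3 : τ * g * τ⁻¹ ∈ H := by
      rw [MulAction.mem_stabilizer_iff]
      change τ (g (τ.symm ζ)) = ζ
      obtain ⟨i, -, hi⟩ := act_ze hζ τ.symm
      rw [hi, map_pow, h1, ← hi]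
      exact AlgEquiv.apply_symm_apply τ ζ
    have h4 : Subgroup.zpowers (τ * g * τ⁻¹) ≤ H := by
      rw [Subgroup.zpowers_le]
      exact h3
    rw [← hh, Subgroup.zpowers_le] at h4
    exact h4
  · rintro rfl
    rw [Subgroup.zpowers_one_eq_bot, eq_comm, Subgroup.zpowers_eq_bot] at hh
    apply h2
    have : τ * g = τ := by
      have := congrArg (· * τ) hh
      simpa using this
    simpa using this

/-! ### Primes -/

section Loc

variable {Q : ℕ} {P : Ideal (𝓞 L)}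

omit [NumberField L] [IsGalois ℚ L] in
theorem under_eq (hQ : Q.Prime) (hP : P.IsPrime) (hQP : (Q : 𝓞 L) ∈ P) :
    P.under ℤ = Ideal.span {(Q : ℤ)} := by
  symm
  have hmax : (Ideal.span {(Q : ℤ)}).IsMaximal :=
    PrincipalIdealRing.isMaximal_of_irreducible ((Nat.prime_iff_prime_int.mp hQ).irreducible)
  apply hmax.eq_of_le
  · exact (Ideal.IsPrime.under ℤ P).ne_top
  · rw [Ideal.span_singleton_le_iff_mem]
    change algebraMap ℤ (𝓞 L) (Q : ℤ) ∈ P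
    simpa using hQP

omit [NumberField L] [IsGalois ℚ L] in
theorem card_under (hQ : Q.Prime) (hP : P.IsPrime) (hQP : (Q : 𝓞 L) ∈ P) :
    Nat.card (ℤ ⧸ P.under ℤ) = Q := by
  rw [under_eq hQ hP hQP, Nat.card_congr (Int.quotientSpanNatEquivZMod Q).toEquiv, Nat.card_zmod]

omit [NumberField L] [IsGalois ℚ L] in
theorem int_mem (hQ : Q.Prime) (hP : P.IsPrime) (hQP : (Q : 𝓞 L) ∈ P) (n : ℤ) :
    (n : 𝓞 L) ∈ P ↔ (Q : ℤ) ∣ n := by
  have h1 := under_eq hQ hP hQP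
  have h2 : (n : 𝓞 L) ∈ P ↔ n ∈ P.under ℤ := by
    change _ ↔ algebraMap ℤ (𝓞 L) n ∈ P
    simp
  rw [h2, h1, Ideal.mem_span_singleton]

omit [IsGalois ℚ L] in
theorem quo_finite (hQ : Q.Prime) (hQP : (Q : 𝓞 L) ∈ P) : Finite (𝓞 L ⧸ P) := by
  refine Ideal.finiteQuotientOfFreeOfNeBot P ?_
  rintro rfl
  rw [Ideal.mem_bot] at hQP
  exact hQ.ne_zero (by exact_mod_cast hQP)

/-- A generator of the decomposition group in the set `TT`: the prime is `1` modulo `9`, and `3` is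
not a cube. -/
theorem local_step (hζ : IsPrimitiveRoot ζ 9) (hθ : θ ^ 3 = 3)
    (hgen : ∀ g : L ≃ₐ[ℚ] L, g ζ = ζ → g θ = θ → g = 1) (hQ : Q.Prime) (hQ3 : Q ≠ 3)
    (hP : P.IsPrime) (hQP : (Q : 𝓞 L) ∈ P) {g : L ≃ₐ[ℚ] L} (hg : g ∈ TT ζ)
    (hst : MulAction.stabilizer (L ≃ₐ[ℚ] L) P = Subgroup.zpowers g) :
    Q % 9 = 1 ∧ ¬ ∃ t : ℤ, (Q : ℤ) ∣ t ^ 3 - 3 := by
  have hfin := quo_finite hQ hQP
  have hζi : IsIntegral ℤ ζ := hζ.isIntegral (by norm_num)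
  have hθi : IsIntegral ℤ θ := by
    refine IsIntegral.of_pow (n := 3) (by norm_num) ?_
    rw [hθ]
    have h := isIntegral_algebraMap (R := ℤ) (A := L) (x := 3)
    simpa using h
  let z : 𝓞 L := ⟨ζ, hζi⟩
  let t' : 𝓞 L := ⟨θ, hθi⟩
  have hz9 : z ^ 9 = 1 := by
    apply RingOfIntegers.coe_injective
    change ζ ^ 9 = 1
    exact hζ.pow_eq_one
  have hz3 : (z ^ 3) ^ 2 + z ^ 3 + 1 = 0 := by
    apply RingOfIntegers.coe_injective
    change (ζ ^ 3) ^ 2 + ζ ^ 3 + 1 = 0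
    exact om_eq hζ
  have ht3 : t' ^ 3 = 3 := by
    apply RingOfIntegers.coe_injective
    change θ ^ 3 = ((3 : 𝓞 L) : L)
    rw [hθ]
    rfl
  have h3 : ((3 : ℤ) : 𝓞 L) ∉ P := by
    rw [int_mem hQ hP hQP]
    intro h
    have h7 : Q ∣ 3 := by exact_mod_cast h
    exact hQ3 ((Nat.prime_dvd_prime_iff_eq hQ Nat.prime_three).1 h7)
  have h3' : (3 : 𝓞 L) ∉ P := by exact_mod_cast h3
  constructor
  · obtain ⟨σ, hσ⟩ := IsArithFrobAt.exists_of_isInvariant ℤ (L ≃ₐ[ℚ] L) P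
    have hmem : σ ∈ MulAction.stabilizer (L ≃ₐ[ℚ] L) P := hσ.mem_stabilizer
    rw [hst] at hmem
    have hσζ : σ ζ = ζ := by
      have h4 : Subgroup.zpowers g ≤ MulAction.stabilizer (L ≃ₐ[ℚ] L) ζ := by
        rw [Subgroup.zpowers_le]
        exact hg.1
      exact h4 hmem
    have h9 : ((9 : ℕ) : 𝓞 L) ∉ P := by
      intro h
      have h5 : (3 : 𝓞 L) * 3 ∈ P := by
        have : ((9 : ℕ) : 𝓞 L) = 3 * 3 := by norm_num
        rwa [this] at h
      exact (hP.mem_or_mem h5).elim h3' h3'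
    have h1 := hσ.apply_of_pow_eq_one hz9 h9
    rw [card_under hQ hP hQP] at h1
    have h2 : σ ζ = ζ ^ Q := congrArg (fun x : 𝓞 L => (x : L)) h1
    rw [hσζ] at h2
    have h5 : ζ ^ 1 = ζ ^ (Q % 9) := by
      rw [pow_one, ← pow_eq_pow_mod Q hζ.pow_eq_one]
      exact h2
    have h6 := hζ.pow_inj (by norm_num : 1 < 9) (Nat.mod_lt _ (by norm_num)) h5
    omega
  · rintro ⟨t, ht⟩
    obtain ⟨a, ha, hgθ⟩ := act_th hζ hθ g
    have ha0 : a ≠ 0 := by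
      rintro rfl
      refine hg.2 (hgen g hg.1 ?_)
      rw [hgθ, pow_zero, one_mul]
    -- a root modulo `P`
    have hprod : (t' - t) * (t' - z ^ 3 * t) * (t' - (z ^ 3) ^ 2 * t) ∈ P := by
      have e : (t' - t) * (t' - z ^ 3 * t) * (t' - (z ^ 3) ^ 2 * t) = -((t ^ 3 - 3 : ℤ) : 𝓞 L) := by
        have e3 : (z ^ 3) ^ 3 = 1 := by rw [← pow_mul]; exact hz9
        push_cast
        linear_combination ht3 - (t' ^ 2 * t - t' * t ^ 2 * z ^ 3) * hz3 - (t : 𝓞 L) ^ 3 * e3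
      rw [e]
      exact neg_mem ((int_mem hQ hP hQP _).2 ht)
    have hroot : ∃ i : ℕ, t' - (z ^ 3) ^ i * t ∈ P := by
      rcases hP.mem_or_mem hprod with h | h
      · rcases hP.mem_or_mem h with h | h
        · exact ⟨0, by simpa using h⟩
        · exact ⟨1, by simpa using h⟩
      · exact ⟨2, h⟩
    obtain ⟨i, hi⟩ := hroot
    have hgP : g • P = P := by
      have : g ∈ MulAction.stabilizer (L ≃ₐ[ℚ] L) P := by
        rw [hst]
        exact Subgroup.mem_zpowers g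
      exact this
    have hgi : g • (t' - (z ^ 3) ^ i * t) ∈ P := by
      rw [← hgP]
      exact Ideal.smul_mem_pointwise_smul g _ P hi
    have e1 : g • (t' - (z ^ 3) ^ i * t) = (z ^ 3) ^ a * t' - (z ^ 3) ^ i * t := by
      apply RingOfIntegers.coe_injective
      change g (θ - (ζ ^ 3) ^ i * ((t : 𝓞 L) : L)) = (ζ ^ 3) ^ a * θ - (ζ ^ 3) ^ i * ((t : 𝓞 L) : L)
      have hct : ((t : 𝓞 L) : L) = (t : L) := map_intCast (algebraMap (𝓞 L) L) t
      rw [hct, map_sub, map_mul, map_pow, map_pow, hg.1, hgθ, map_intCast]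
    rw [e1] at hgi
    have h4 : ((z ^ 3) ^ a - 1) * t' ∈ P := by
      have := sub_mem hgi hi
      have e : (z ^ 3) ^ a * t' - (z ^ 3) ^ i * t - (t' - (z ^ 3) ^ i * t) =
          ((z ^ 3) ^ a - 1) * t' := by ring
      rwa [e] at this
    rcases hP.mem_or_mem h4 with h5 | h5
    · have h6 : (z ^ 3) ^ a = z ^ 3 ∨ (z ^ 3) ^ a = (z ^ 3) ^ 2 := by
        have : a = 1 ∨ a = 2 := by omega
        rcases this with rfl | rfl
        · left; rw [pow_one]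
        · right; rfl
      have e3 : (z ^ 3) ^ 3 = 1 := by rw [← pow_mul]; exact hz9
      apply h3'
      rcases h6 with h6 | h6
      · rw [h6] at h5
        have e : (3 : 𝓞 L) = -(z ^ 3 + 2) * (z ^ 3 - 1) := by
          linear_combination hz3
        rw [e]
        exact P.mul_mem_left _ h5
      · rw [h6] at h5
        have e : (3 : 𝓞 L) = (z ^ 3 - 1) * ((z ^ 3) ^ 2 - 1) := by
          linear_combination -e3 + hz3
        rw [e]
        exact P.mul_mem_left _ h5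
    · apply h3'
      rw [← ht3]
      exact P.pow_mem_of_mem h5 3 (by norm_num)

/-- The density, in a field with the right properties. -/
theorem dens_of (hζ : IsPrimitiveRoot ζ 9) (hθ : θ ^ 3 = 3)
    (hgen : ∀ g : L ≃ₐ[ℚ] L, g ζ = ζ → g θ = θ → g = 1) :
    RI.DensityGE {p : ℕ | p % 9 = 1 ∧ ¬ ∃ t : ℤ, (p : ℤ) ∣ t ^ 3 - 3} (1 / 9) := by
  have h := RI.FROBD_thm L (TT ζ) (TT_inv hζ)
  have h1 := RI.PDGE_thm _ {p : ℕ | p % 9 = 1 ∧ ¬ ∃ t : ℤ, (p : ℤ) ∣ t ^ 3 - 3} {3} _ h ?_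
  · have h2 : (1 / 9 : ℝ) ≤ (Nat.card (TT ζ) : ℝ) / Nat.card (L ≃ₐ[ℚ] L) := by
      have h3 := card_le hζ hθ hgen
      have h4 := two_le_card hζ hθ
      have h5 : 0 < Nat.card (L ≃ₐ[ℚ] L) := Nat.card_pos
      rw [div_le_div_iff₀ (by norm_num) (by exact_mod_cast h5)]
      have h6 : Nat.card (L ≃ₐ[ℚ] L) ≤ 9 * Nat.card (TT ζ) := by omega
      have h7 : (Nat.card (L ≃ₐ[ℚ] L) : ℝ) ≤ 9 * Nat.card (TT ζ) := by exact_mod_cast h6
      linarith
    obtain ⟨C, hC⟩ := h1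
    refine ⟨C, fun s hs hs2 => ?_⟩
    have h3 := hC s hs hs2
    have h4 : 0 ≤ Real.log (1 / (s - 1)) := by
      apply Real.log_nonneg
      rw [le_div_iff₀ (by linarith)]
      linarith
    have h5 := mul_le_mul_of_nonneg_right h2 h4
    linarith
  · rintro q ⟨g, hg, P, hP, hqP, hst⟩ hq hq3
    exact local_step hζ hθ hgen hq (by simpa using hq3) hP hqP hg hst

end Loc

end Gal

/-- The polynomial. -/
noncomputable def pol : ℚ[X] := (X ^ 9 - 1) * (X ^ 3 - C 3)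

lemma h9 : (X ^ 9 - 1 : ℚ[X]) ≠ 0 := by
  have h := X_pow_sub_C_ne_zero (n := 9) (by norm_num) (1 : ℚ)
  rwa [C_1] at h

lemma h3 : (X ^ 3 - C 3 : ℚ[X]) ≠ 0 := X_pow_sub_C_ne_zero (by norm_num) 3

lemma pol_ne : pol ≠ 0 := mul_ne_zero h9 h3

section

variable {LL : Type} [Field LL] [CharZero LL]

lemma root_of (h1 : (pol.map (algebraMap ℚ LL)).Splits) {f : ℚ[X]} (hf : f ∣ pol)
    (hd : f.natDegree ≠ 0) : ∃ x : LL, aeval x f = 0 := by
  have h2 : (f.map (algebraMap ℚ LL)).Splits :=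
    h1.of_dvd ((Polynomial.map_ne_zero_iff (algebraMap ℚ LL).injective).2 pol_ne)
      (Polynomial.map_dvd _ hf)
  obtain ⟨x, hx⟩ := h2.exists_eval_eq_zero (by
    rw [degree_map]
    intro h
    exact hd (natDegree_eq_of_degree_eq_some h))
  exact ⟨x, by rwa [eval_map_algebraMap] at hx⟩

theorem dens_aux [IsSplittingField ℚ LL pol] :
    RI.DensityGE {p : ℕ | p % 9 = 1 ∧ ¬ ∃ t : ℤ, (p : ℤ) ∣ t ^ 3 - 3} (1 / 9) := by
  have hsp : (pol.map (algebraMap ℚ LL)).Splits := IsSplittingField.splits LL pol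
  have : FiniteDimensional ℚ LL := IsSplittingField.finiteDimensional LL pol
  have : NumberField LL := { to_charZero := inferInstance, to_finiteDimensional := inferInstance }
  have : Normal ℚ LL := Normal.of_isSplittingField pol
  have : IsGalois ℚ LL := ⟨⟩
  obtain ⟨ζ, hζ⟩ : ∃ ζ : LL, IsPrimitiveRoot ζ 9 := by
    obtain ⟨x, hx⟩ := root_of hsp (f := cyclotomic 9 ℚ)
      ((cyclotomic.dvd_X_pow_sub_one 9 ℚ).trans (Dvd.intro _ rfl)) (by
        rw [natDegree_cyclotomic]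
        decide)
    refine ⟨x, ?_⟩
    have : NeZero ((9 : ℕ) : LL) := ⟨by norm_num⟩
    rw [← isRoot_cyclotomic_iff, IsRoot.def, ← map_cyclotomic 9 (algebraMap ℚ LL),
      eval_map_algebraMap]
    exact hx
  obtain ⟨θ, hθ⟩ : ∃ θ : LL, θ ^ 3 = 3 := by
    obtain ⟨x, hx⟩ := root_of hsp (f := X ^ 3 - C 3) (Dvd.intro_left _ rfl) (by
      rw [natDegree_X_pow_sub_C]
      norm_num)
    refine ⟨x, ?_⟩
    simp only [map_sub, map_pow, aeval_X, aeval_C] at hx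
    rw [sub_eq_zero] at hx
    rw [hx]
    simp
  refine dens_of hζ hθ fun g h1 h2 => ?_
  have hh : (g : LL →ₐ[ℚ] LL) = ((1 : LL ≃ₐ[ℚ] LL) : LL →ₐ[ℚ] LL) := by
    refine AlgHom.ext_of_adjoin_eq_top (IsSplittingField.adjoin_rootSet LL pol) ?_
    intro x hx
    change g x = x
    rw [mem_rootSet] at hx
    have hx' : aeval x ((X ^ 9 - 1) * (X ^ 3 - C 3) : ℚ[X]) = 0 := hx.2
    rw [map_mul, mul_eq_zero] at hx'
    rcases hx' with hx' | hx'
    · simp only [map_sub, map_pow, aeval_X, map_one, sub_eq_zero] at hx'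
      obtain ⟨i, -, rfl⟩ := hζ.eq_pow_of_pow_eq_one hx'
      rw [map_pow, h1]
    · simp only [map_sub, map_pow, aeval_X, aeval_C, sub_eq_zero] at hx'
      have hx3 : x ^ 3 = 3 := by
        rw [hx']
        simp
      have h0 : θ ≠ 0 := th_ne (by norm_num) hθ
      have h4 : (x / θ) ^ 3 = 1 := by
        rw [div_pow, hx3, hθ]
        norm_num
      obtain ⟨a, ha, h5⟩ := (om hζ).eq_pow_of_pow_eq_one h4
      have h6 : x = (ζ ^ 3) ^ a * θ := by
        rw [h5]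
        field_simp
      rw [h6, map_mul, map_pow, map_pow, h1, h2]
  ext x
  exact DFunLike.congr_fun hh x

end

theorem dens_alg (L : Type) [Field L] [CharZero L] [alg : Algebra ℚ L]
    [h : IsSplittingField ℚ L pol] :
    RI.DensityGE {p : ℕ | p % 9 = 1 ∧ ¬ ∃ t : ℤ, (p : ℤ) ∣ t ^ 3 - 3} (1 / 9) := by
  obtain rfl : alg = DivisionRing.toRatAlgebra := Subsingleton.elim _ _
  exact dens_aux (LL := L)

/-- The density of the primes which are `1` modulo `9` and for which `3` is not a cube. -/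
theorem dens : RI.DensityGE {p : ℕ | p % 9 = 1 ∧ ¬ ∃ t : ℤ, (p : ℤ) ∣ t ^ 3 - 3} (1 / 9) :=
  dens_alg pol.SplittingField (h := IsSplittingField.splittingField pol)

end Pool.Agent.Lib_helper18.NPD


end

section

/-!
# The ninth power criterion applies to `p` or to `p ^ 2` if `3` is not a cube modulo `p`
-/

namespace Pool.Agent.Lib_helper18.NPD

open Eis

lemma exists_LM (p : ℕ) (hp : p.Prime) (h9 : p % 9 = 1) :
    ∃ L M : ℤ, 4 * (p : ℤ) = L ^ 2 + 27 * M ^ 2 := by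
  obtain ⟨π, h1, M, hM⟩ := exists_pi hp (by omega)
  refine ⟨2 * π.re - 3 * M, M, ?_⟩
  rw [norm_def, hM] at h1
  linear_combination -4 * h1

lemma cube_of {p : ℕ} [Fact p.Prime] (h9 : p % 9 = 1) {u : ZMod p} (h0 : (3 : ZMod p) ≠ 0)
    (h : (27 : ZMod p) = u ^ 9) : ∃ t : ZMod p, t ^ 3 = 3 := by
  have hp := Fact.out (p := p.Prime)
  obtain ⟨k, hk⟩ : ∃ k, p - 1 = 9 * k := ⟨(p - 1) / 9, by have := hp.two_le; omega⟩
  have hu : u ≠ 0 := by
    rintro rfl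
    apply h0
    have : (3 : ZMod p) ^ 3 = 0 := by
      rw [show (3 : ZMod p) ^ 3 = 27 by norm_num, h]
      ring
    exact pow_eq_zero_iff (by norm_num) |>.1 this
  have h1 : (3 : ZMod p) ^ (3 * k) = 1 := by
    rw [pow_mul, show (3 : ZMod p) ^ 3 = 27 by norm_num, h, ← pow_mul, ← hk]
    exact ZMod.pow_card_sub_one_eq_one hu
  obtain ⟨g, hg⟩ := IsCyclic.exists_generator (α := (ZMod p)ˣ)
  obtain ⟨m, hm⟩ := mem_powers_iff_mem_zpowers.2 (hg (Units.mk0 3 h0))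
  have hm' : g ^ m = Units.mk0 3 h0 := hm
  have h2 : g ^ (m * (3 * k)) = 1 := by
    rw [pow_mul, hm']
    ext
    push_cast
    rw [Units.val_mk0]
    exact h1
  have h3 : orderOf g = 9 * k := by
    rw [orderOf_eq_card_of_forall_mem_zpowers hg, Nat.card_eq_fintype_card,
      ZMod.card_units_eq_totient, Nat.totient_prime hp, hk]
  have h4 := orderOf_dvd_of_pow_eq_one h2
  rw [h3] at h4
  have hk0 : 0 < k := by
    have := hp.two_le
    omega
  have h5 : 3 ∣ m := by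
    have h6 : 3 * k * 3 ∣ 3 * k * m := by
      have e1 : 3 * k * 3 = 9 * k := by ring
      have e2 : 3 * k * m = m * (3 * k) := by ring
      rw [e1, e2]
      exact h4
    exact Nat.dvd_of_mul_dvd_mul_left (by omega) h6
  obtain ⟨n, rfl⟩ := h5
  refine ⟨((g ^ n : (ZMod p)ˣ) : ZMod p), ?_⟩
  have h7 : ((g ^ n) ^ 3 : (ZMod p)ˣ) = Units.mk0 3 h0 := by
    rw [← hm', ← pow_mul, mul_comm]
  have := congrArg (fun x : (ZMod p)ˣ => (x : ZMod p)) h7
  simpa using this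

/-- One of the two curves has no rational point. -/
theorem one_of (p : ℕ) (hp : p.Prime) (h9 : p % 9 = 1) (h3 : ¬ ∃ t : ℤ, (p : ℤ) ∣ t ^ 3 - 3) :
    ∃ g : ℕ, (g = 1 ∨ g = 2) ∧ ¬ ∃ X Y : ℚ, X ^ 3 + Y ^ 3 = (p : ℚ) ^ g := by
  by_contra hcon
  push Not at hcon
  have : Fact p.Prime := ⟨hp⟩
  obtain ⟨L, M, hLM⟩ := exists_LM p hp h9
  obtain ⟨X, Y, h1⟩ := hcon 1 (Or.inl rfl)
  obtain ⟨X', Y', h2⟩ := hcon 2 (Or.inr rfl)
  obtain ⟨σ, hσ⟩ := main p hp h9 L M hLM (e := 1) (Or.inl rfl) h1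
  obtain ⟨τ, hτ⟩ := main p hp h9 L M hLM (e := 2) (Or.inr rfl) h2
  have hM : (M : ZMod p) ≠ 0 := by
    intro h
    rw [ZMod.intCast_zmod_eq_zero_iff_dvd] at h
    obtain ⟨N, rfl⟩ := h
    have h1 : (p : ℤ) ∣ L ^ 2 := ⟨4 - 27 * p * N ^ 2, by linear_combination -hLM⟩
    obtain ⟨K, rfl⟩ := (Nat.prime_iff_prime_int.1 hp).dvd_of_dvd_pow h1
    have h2 : (4 : ℤ) = p * (K ^ 2 + 27 * N ^ 2) := by
      have hp0 : (p : ℤ) ≠ 0 := by exact_mod_cast hp.ne_zero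
      refine mul_left_cancel₀ hp0 ?_
      linear_combination hLM
    have h3 : (p : ℤ) ∣ ((4 : ℕ) : ℤ) := ⟨_, h2⟩
    have h4 : p ∣ 4 := by exact_mod_cast h3
    have h5 := Nat.le_of_dvd (by norm_num) h4
    have h6 := hp.two_le
    omega
  have h30 : (3 : ZMod p) ≠ 0 := by
    intro h
    have h' : ((3 : ℕ) : ZMod p) = 0 := by exact_mod_cast h
    rw [ZMod.natCast_eq_zero_iff] at h'
    have := (Nat.prime_dvd_prime_iff_eq hp Nat.prime_three).1 h'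
    omega
  have hτ0 : τ ≠ 0 := by
    rintro rfl
    apply hM
    have : (M : ZMod p) ^ 2 = 0 := by
      rw [hτ]
      ring
    exact pow_eq_zero_iff (by norm_num) |>.1 this
  have key : (27 : ZMod p) = (σ ^ 2 / τ) ^ 9 := by
    rw [div_pow, eq_div_iff (pow_ne_zero _ hτ0)]
    have e1 : (M : ZMod p) = σ ^ 9 := by simpa using hσ
    have e2 : (M : ZMod p) ^ 2 = 27 * τ ^ 9 := by simpa using hτ
    rw [← e2, e1]
    ring
  obtain ⟨t, ht⟩ := cube_of h9 h30 key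
  refine h3 ⟨(t.val : ℤ), ?_⟩
  rw [← ZMod.intCast_zmod_eq_zero_iff_dvd]
  push_cast
  rw [ZMod.natCast_val, ZMod.cast_id', id, ht, sub_self]

/-- The density of the primes for which one of the two curves has no rational point. -/
theorem dens_one_of : RI.DensityGE {p : ℕ | p % 9 = 1 ∧
    ∃ g : ℕ, (g = 1 ∨ g = 2) ∧ ¬ ∃ X Y : ℚ, X ^ 3 + Y ^ 3 = (p : ℚ) ^ g} (1 / 9) :=
  RI.PDGE_thm _ _ ∅ _ dens fun q hq hp _ => ⟨hq.1, one_of q hp hq.1 hq.2⟩

end Pool.Agent.Lib_helper18.NPD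


end
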