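import Mathlib
import Pool.Agent.PTDM.C03
import Pool.Agent.PTDM.C04

/-! Parts: Lib_helper18.FD8, Lib_helper18.FD9, Lib_helper18.FD10, Lib_helper18.FD11, Lib_helper18.FD12, Lib_helper84.Cub.LemB, Lib_helper84.Cub.Val, Lib_helper84.Cub.LemC, Lib_helper84.Cub.CaseOne -/

section

set_option linter.unusedSectionVars false

/-!
# `n q` and `n q^2` for `n` a product of primes `1 mod 3`
-/

namespace Pool.Agent.Lib_helper18

open Finset Eis Matrix

/-- the data attached to a cube-free number all of whose prime factors are `1 mod 3` -/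
noncomputable def mkData (n : ℕ) (hn : n ≠ 0) (h3 : ∀ r : ℕ, r.Prime → r ∣ n → r % 3 = 1)
    (hcf : ∀ r : ℕ, r.Prime → ¬ r ^ 3 ∣ n) : FData n.primeFactors where
  p := fun i => (i : ℕ)
  e := fun i => n.factorization i
  π := fun i => (exists_pi (Nat.prime_of_mem_primeFactors i.2)
    (h3 i (Nat.prime_of_mem_primeFactors i.2) (Nat.dvd_of_mem_primeFactors i.2))).choose
  hp := fun i => Nat.prime_of_mem_primeFactors i.2
  h3 := fun i => h3 i (Nat.prime_of_mem_primeFactors i.2) (Nat.dvd_of_mem_primeFactors i.2)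
  inj := Subtype.val_injective
  hπ := fun i => (exists_pi (Nat.prime_of_mem_primeFactors i.2)
    (h3 i (Nat.prime_of_mem_primeFactors i.2)
      (Nat.dvd_of_mem_primeFactors i.2))).choose_spec.1
  hprim := fun i => (exists_pi (Nat.prime_of_mem_primeFactors i.2)
    (h3 i (Nat.prime_of_mem_primeFactors i.2)
      (Nat.dvd_of_mem_primeFactors i.2))).choose_spec.2
  he := fun i => by
    have hp := Nat.prime_of_mem_primeFactors i.2
    have h1 : 1 ≤ n.factorization i :=
      (hp.dvd_iff_one_le_factorization hn).mp (Nat.dvd_of_mem_primeFactors i.2)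
    have h2 : ¬ 3 ≤ n.factorization i := fun h =>
      hcf i hp ((hp.pow_dvd_iff_le_factorization hn).mpr h)
    omega

theorem mkData_P (n : ℕ) (hn : n ≠ 0) (h3 : ∀ r : ℕ, r.Prime → r ∣ n → r % 3 = 1)
    (hcf : ∀ r : ℕ, r.Prime → ¬ r ^ 3 ∣ n) : (mkData n hn h3 hcf).P univ = n := by
  have h1 : ∏ i : n.primeFactors, (i : ℕ) ^ n.factorization i = n := by
    have := Nat.prod_factorization_pow_eq_self hn
    rw [Finsupp.prod, Nat.support_factorization] at this
    rw [← prod_coe_sort] at this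
    exact this
  have h2 : (mkData n hn h3 hcf).P univ = ((∏ i : n.primeFactors, (i : ℕ) ^ n.factorization i : ℕ) : ℤ) := by
    push_cast
    rfl
  rw [h2, h1]

/-- main theorem for cube-free `n` -/
theorem cubefree_case (n : ℕ) (hn : n ≠ 0) (h3 : ∀ r : ℕ, r.Prime → r ∣ n → r % 3 = 1)
    (hcf : ∀ r : ℕ, r.Prime → ¬ r ^ 3 ∣ n) :
    ∃ c : ℕ → ℕ, (∀ r : ℕ, r.Prime → r ∣ n → ¬ r ∣ c r) ∧ ∃ c9 : ℕ, c9 % 3 = 2 ∧
      ∀ q : ℕ, q.Prime → 2 < q → q ≡ c9 [MOD 9] →
        (∀ r : ℕ, r.Prime → r ∣ n → q ≡ c r [MOD r]) → ∀ f : ℕ, f = 1 ∨ f = 2 →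
        ∀ x y z : ℤ, z ≠ 0 → x ^ 3 + y ^ 3 = ((n * q ^ f : ℕ) : ℤ) * z ^ 3 → False := by
  classical
  set D := mkData n hn h3 hcf with hD
  obtain ⟨x, hx1, hx2⟩ := exists_diag (Matrix.of (D.R 0)) (Matrix.of (D.R 0))
  have hc : ∀ i : n.primeFactors, ∃ c : ℕ, ¬ D.p i ∣ c ∧
      sym (D.π i) (c : Eis) = -((D.e i : ZMod 3) * x i) := fun i =>
    have : Fact (D.p i).Prime := ⟨D.hp i⟩
    exists_sym (D.h3 i) (D.hπ i) _
  choose c hc1 hc2 using hc
  refine ⟨fun r => if h : r ∈ n.primeFactors then c ⟨r, h⟩ else 1, ?_,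
    if n % 9 = 1 then 2 else 8, ?_, ?_⟩
  · intro r hr hrn
    have h : r ∈ n.primeFactors := Nat.mem_primeFactors.mpr ⟨hr, hrn, hn⟩
    simp only [h, dif_pos]
    exact hc1 ⟨r, h⟩
  · split_ifs <;> rfl
  · intro q hq hq2 hq9 hqr f hf X Y z hz hXY
    have hq3 : q % 3 = 2 := by
      have h1 : q ≡ (if n % 9 = 1 then 2 else 8) [MOD 3] := hq9.of_dvd (by norm_num)
      rw [Nat.ModEq] at h1
      split_ifs at h1 <;> omega
    -- the symbols of `q`
    have hs : ∀ i, sym (D.π i) (q : Eis) = -((D.e i : ZMod 3) * x i) := by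
      intro i
      rw [← hc2 i]
      apply sym_congr
      have h1 := hqr i.1 (Nat.prime_of_mem_primeFactors i.2) (Nat.dvd_of_mem_primeFactors i.2)
      simp only [i.2, dif_pos] at h1
      have h2 : (D.p i : ℤ) ∣ (q : ℤ) - (c i : ℤ) := (Nat.modEq_iff_dvd.mp h1.symm)
      have h3 := (D.dvd_int i).mpr h2
      push_cast at h3
      exact h3
    have hqn : ∀ i, ¬ D.π i ∣ (q : Eis) := by
      intro i h
      have h1 := D.dvd_int i (s := (q : ℤ))
      rw [Int.cast_natCast] at h1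
      rw [h1, Int.natCast_dvd_natCast, Nat.prime_dvd_prime_iff_eq (D.hp i) hq] at h
      have := D.h3 i
      rw [h] at this
      omega
    have hy : ∀ i, sym (D.π i) (((q : ℤ) ^ f : ℤ) : Eis) =
        (f : ZMod 3) * -((D.e i : ZMod 3) * x i) := by
      intro i
      push_cast
      rw [sym_pow (D.pr i) (D.n3 i) (hqn i), hs i]
    have hdet : (Matrix.of (D.R (fun i => (f : ZMod 3) * -((D.e i : ZMod 3) * x i)))).det ≠ 0 := by
      rcases hf with rfl | rfl
      · have e1 : Matrix.of (D.R (fun i => ((1 : ℕ) : ZMod 3) * -((D.e i : ZMod 3) * x i))) =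
            Matrix.of (D.R 0) + diagonal x := by
          ext i j
          simp only [Matrix.of_apply, Matrix.add_apply, FData.R, diagonal_apply, Pi.zero_apply]
          by_cases hij : j = i
          · subst hij
            simp only [if_true]
            have := D.e_sq j
            push_cast
            linear_combination (x j) * this
          · have hij' : ¬ i = j := fun h => hij h.symm
            simp [hij, hij']
        rw [e1]; exact hx1
      · have e1 : Matrix.of (D.R (fun i => ((2 : ℕ) : ZMod 3) * -((D.e i : ZMod 3) * x i))) =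
            Matrix.of (D.R 0) - diagonal x := by
          ext i j
          simp only [Matrix.of_apply, Matrix.sub_apply, FData.R, diagonal_apply, Pi.zero_apply]
          by_cases hij : j = i
          · subst hij
            simp only [if_true]
            have := D.e_sq j
            have h3 : (3 : ZMod 3) = 0 := by decide
            push_cast
            linear_combination (2 * x j) * this + x j * h3
          · have hij' : ¬ i = j := fun h => hij h.symm
            simp [hij, hij']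
        rw [e1]; exact hx2
    have hA : (q : ℤ) ^ f * D.P univ = ((n * q ^ f : ℕ) : ℤ) := by
      rw [hD, mkData_P]; push_cast; ring
    have hn3 : n % 9 = 1 ∨ n % 9 = 4 ∨ n % 9 = 7 := by
      have h1 : n % 3 = 1 := by
        have h2 : ∀ m : ℕ, m ≠ 0 → (∀ r : ℕ, r.Prime → r ∣ m → r % 3 = 1) → m % 3 = 1 := by
          intro m
          induction m using Nat.recOnMul with
          | zero => intro h; exact absurd rfl h
          | one => intro _ _; rfl
          | prime p hp => intro _ h; exact h p hp dvd_rfl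
          | mul a b iha ihb =>
            intro hab h
            have ha := iha (by rintro rfl; simp at hab) (fun r hr hra => h r hr (Dvd.dvd.mul_right hra _))
            have hb := ihb (by rintro rfl; simp at hab) (fun r hr hrb => h r hr (Dvd.dvd.mul_left hrb _))
            rw [Nat.mul_mod, ha, hb]
        exact h2 n hn h3
      omega
    have hA9 : (n * q ^ f) % 9 ≠ 1 ∧ (n * q ^ f) % 9 ≠ 8 := by
      have h1 : (n * q ^ f) % 9 = ((n % 9) * ((if n % 9 = 1 then 2 else 8) ^ f % 9)) % 9 := by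
        have : q ^ f ≡ (if n % 9 = 1 then 2 else 8) ^ f [MOD 9] := hq9.pow f
        rw [Nat.mul_mod, this]
      rw [h1]
      rcases hn3 with h | h | h <;> rcases hf with rfl | rfl <;> rw [h] <;> simp
    refine D.descent_one _ hq hq3 hf hy hdet ?_ ?_ ?_ z.natAbs X Y z rfl hz (by rw [hA]; exact hXY)
    · rw [hA]; omega
    · rw [hA]; omega
    · rw [hA]
      have : 2 < n * q ^ f := by
        have h1 : 1 ≤ n := Nat.pos_of_ne_zero hn
        have h2 : q ≤ q ^ f := Nat.le_self_pow (by omega) q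
        nlinarith
      omega

/-- The residue class for general `n`. -/
theorem exists_class (n : ℕ) (hn : n ≠ 0) (h3 : ∀ r : ℕ, r.Prime → r ∣ n → r % 3 = 1) :
    ∃ a : ℕ, a.Coprime (9 * n) ∧ ∀ q : ℕ, q.Prime → 2 < q → q ≡ a [MOD 9 * n] →
      (¬ ∃ X Y : ℚ, X ^ 3 + Y ^ 3 = n * q) ∧ ¬ ∃ X Y : ℚ, X ^ 3 + Y ^ 3 = n * q ^ 2 := by
  classical
  obtain ⟨n', m, hnm, hm, hn', hcf⟩ := exists_cubefree n hn
  have hdvd : n' ∣ n := ⟨m ^ 3, hnm⟩
  obtain ⟨c, hc1, c9, hc9, H⟩ := cubefree_case n' hn' (fun r hr h => h3 r hr (h.trans hdvd)) hcf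
  let s : ℕ → ℕ := fun r => if r = 3 then 9 else r
  let b : ℕ → ℕ := fun r => if r = 3 then c9 else if r ∣ n' then c r else 1
  have hmem : ∀ r ∈ insert 3 n.primeFactors, r.Prime := by
    intro r hr
    rcases mem_insert.mp hr with h | h
    · rw [h]; exact Nat.prime_three
    · exact Nat.prime_of_mem_primeFactors h
  have hpp : Set.Pairwise (insert 3 n.primeFactors : Finset ℕ) (Function.onFun Nat.Coprime s) := by
    intro r hr t ht hrt
    have hr' := hmem r hr
    have ht' := hmem t ht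
    have h1 := (Nat.coprime_primes hr' ht').mpr hrt
    simp only [Function.onFun, s]
    split_ifs with h2 h4 h4
    · exact absurd (h2.trans h4.symm) hrt
    · rw [h2] at h1
      exact Nat.Coprime.pow_left 2 h1
    · rw [h4] at h1
      exact Nat.Coprime.pow_right 2 h1
    · exact h1
  obtain ⟨a, ha⟩ := Nat.chineseRemainderOfFinset b s (insert 3 n.primeFactors)
    (fun r hr => by
      simp only [s]
      split_ifs
      · norm_num
      · exact (hmem r hr).ne_zero) hpp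
  have h3n : ¬ 3 ∣ n := by
    intro h
    have := h3 3 Nat.prime_three h
    norm_num at this
  have ha9 : a ≡ c9 [MOD 9] := by
    have := ha 3 (mem_insert_self _ _)
    simpa [s, b] using this
  have har : ∀ r : ℕ, r.Prime → r ∣ n → a ≡ (if r ∣ n' then c r else 1) [MOD r] := by
    intro r hr hrn
    have hr3 : r ≠ 3 := by rintro rfl; exact h3n hrn
    have := ha r (mem_insert_of_mem (Nat.mem_primeFactors.mpr ⟨hr, hrn, hn⟩))
    simpa [s, b, hr3] using this
  refine ⟨a, ?_, ?_⟩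
  · apply Nat.Coprime.mul_right
    · have h1 : a % 3 = 2 := by
        have : a ≡ c9 [MOD 3] := ha9.of_dvd (by norm_num)
        rw [Nat.ModEq] at this
        omega
      have h2 : Nat.Coprime a 3 := by
        rw [Nat.coprime_comm, Nat.Prime.coprime_iff_not_dvd Nat.prime_three]
        omega
      exact Nat.Coprime.pow_right 2 h2
    · apply Nat.coprime_of_dvd
      intro r hr hra hrn
      have h1 := har r hr hrn
      have h2 : (if r ∣ n' then c r else 1) ≡ 0 [MOD r] :=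
        h1.symm.trans ((Nat.modEq_zero_iff_dvd).mpr hra)
      rw [Nat.modEq_zero_iff_dvd] at h2
      split_ifs at h2 with h4
      · exact hc1 r hr h4 h2
      · exact hr.one_lt.ne' (Nat.dvd_one.mp h2)
  · intro q hq hq2 hqa
    have hq9 : q ≡ c9 [MOD 9] := (hqa.of_dvd (dvd_mul_right _ _)).trans ha9
    have hqr : ∀ r : ℕ, r.Prime → r ∣ n' → q ≡ c r [MOD r] := by
      intro r hr hrn
      have h1 := har r hr (hrn.trans hdvd)
      rw [if_pos hrn] at h1
      exact (hqa.of_dvd (Dvd.dvd.mul_left (hrn.trans hdvd) 9)).trans h1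
    have key : ∀ f : ℕ, f = 1 ∨ f = 2 → ¬ ∃ X Y : ℚ, X ^ 3 + Y ^ 3 = n * q ^ f := by
      rintro f hf ⟨X, Y, hXY⟩
      have hm' : (m : ℚ) ≠ 0 := by exact_mod_cast hm
      have h1 : (X / m) ^ 3 + (Y / m) ^ 3 = (((n' * q ^ f : ℕ) : ℤ) : ℚ) := by
        rw [div_pow, div_pow, ← add_div, hXY, hnm]
        push_cast
        field_simp
      obtain ⟨x, y, z, hz, hxyz⟩ := integral_solution h1
      exact H q hq hq2 hq9 hqr f hf x y z hz hxyz
    refine ⟨?_, key 2 (Or.inr rfl)⟩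
    have := key 1 (Or.inl rfl)
    simpa using this

end Pool.Agent.Lib_helper18


end

section

set_option linter.unusedSectionVars false

/-!
# First descent with an inert prime in the matrix and a condition at `3`
-/

namespace Pool.Agent.Lib_helper18

open Finset Eis Matrix

/-- the class modulo 9, up to sign -/
def wq (n : ℤ) : ZMod 3 :=
  if n % 9 = 1 ∨ n % 9 = 8 then 0 else if n % 9 = 4 ∨ n % 9 = 5 then 1 else 2

theorem wq_mul {m n : ℤ} (hm : ¬ (3 : ℤ) ∣ m) (hn : ¬ (3 : ℤ) ∣ n) :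
    wq (m * n) = wq m + wq n := by
  have h1 : m % 9 = 1 ∨ m % 9 = 2 ∨ m % 9 = 4 ∨ m % 9 = 5 ∨ m % 9 = 7 ∨ m % 9 = 8 := by omega
  have h2 : n % 9 = 1 ∨ n % 9 = 2 ∨ n % 9 = 4 ∨ n % 9 = 5 ∨ n % 9 = 7 ∨ n % 9 = 8 := by omega
  unfold wq
  rw [Int.mul_emod]
  rcases h1 with h | h | h | h | h | h <;> rcases h2 with h' | h' | h' | h' | h' | h' <;>
    rw [h, h'] <;> decide

theorem wq_one : wq 1 = 0 := by decide

theorem wq_pow {m : ℤ} (hm : ¬ (3 : ℤ) ∣ m) (k : ℕ) : wq (m ^ k) = (k : ZMod 3) * wq m := by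
  induction k with
  | zero => simp [wq_one]
  | succ k ih =>
    rw [pow_succ, wq_mul (fun h => hm (Int.prime_three.dvd_of_dvd_pow h)) hm, ih]
    push_cast; ring

theorem wq_cube {m : ℤ} (hm : ¬ (3 : ℤ) ∣ m) : wq (m ^ 3) = 0 := by
  rw [wq_pow hm]
  have : ((3 : ℕ) : ZMod 3) = 0 := by decide
  rw [this, zero_mul]

theorem wq_of_add {u v : ℤ} (h : (9 : ℤ) ∣ u + v) : wq u = wq v := by
  unfold wq
  have h1 : u % 9 = 0 ∧ v % 9 = 0 ∨ u % 9 + v % 9 = 9 := by omega
  rcases h1 with ⟨h1, h2⟩ | h1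
  · rw [h1, h2]
  · have h2 : v % 9 = 9 - u % 9 := by omega
    rw [h2]
    have h3 : 0 ≤ u % 9 := by omega
    have h4 : u % 9 < 9 := by omega
    generalize u % 9 = a at *
    interval_cases a <;> simp

theorem wq_eq_wt {n : ℤ} (h : n % 3 = 1) : wq n = wt n := by
  have h1 : n % 9 = 1 ∨ n % 9 = 4 ∨ n % 9 = 7 := by omega
  rcases h1 with h1 | h1 | h1
  · obtain ⟨k, hk⟩ : ∃ k, n = 1 + 3 * (3 * k) := ⟨n / 9, by omega⟩
    rw [wt_eq hk, wq, h1]
    push_cast
    have h3 : (3 : ZMod 3) = 0 := by decide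
    rw [h3]; simp
  · obtain ⟨k, hk⟩ : ∃ k, n = 1 + 3 * (1 + 3 * k) := ⟨n / 9, by omega⟩
    rw [wt_eq hk, wq, h1]
    push_cast
    have h3 : (3 : ZMod 3) = 0 := by decide
    rw [h3]; simp
  · obtain ⟨k, hk⟩ : ∃ k, n = 1 + 3 * (2 + 3 * k) := ⟨n / 9, by omega⟩
    rw [wt_eq hk, wq, h1]
    push_cast
    have h3 : (3 : ZMod 3) = 0 := by decide
    rw [h3]; simp

/-- the weight of the norm of an inert prime -/
theorem wt_sq {r : ℤ} (h : r % 3 = 2) : wt (r ^ 2) = -wq r := by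
  have h1 : r ^ 2 % 3 = 1 := sq_mod_three (by omega)
  rw [← wq_eq_wt h1, wq_pow (by omega)]
  have : ((2 : ℕ) : ZMod 3) = -1 := by decide
  rw [this]; ring

namespace FData

variable {ι : Type*} [Fintype ι] [DecidableEq ι] (D : FData ι)

/-- the bordered matrix -/
noncomputable def NN (y L : ι → ZMod 3) (w0 : ZMod 3) : Matrix (Option ι) (Option ι) (ZMod 3) :=
  fun a b => match a, b with
  | some i, some j => D.R y i j
  | some i, none => L i
  | none, some j => wt (D.p j)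
  | none, none => w0

theorem NN_q {y L : ι → ZMod 3} {w0 : ZMod 3} (hN : (D.NN y L w0).det ≠ 0) {v : ι → ZMod 3}
    {m : ZMod 3} (h1 : ∀ i, ∑ j, D.R y i j * v j + L i * m = 0)
    (h2 : ∑ j, wt (D.p j) * v j + w0 * m = 0) : (∀ j, v j = 0) ∧ m = 0 := by
  have h := mulVec_zero hN (v := fun a => a.elim m v) (fun a => by
    cases a with
    | none =>
      rw [Fintype.sum_option]
      show w0 * m + ∑ j, wt (D.p j) * v j = 0
      rw [add_comm]; exact h2
    | some i =>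
      rw [Fintype.sum_option]
      show L i * m + ∑ j, D.R y i j * v j = 0
      rw [add_comm]; exact h1 i)
  exact ⟨fun j => h (some j), h none⟩

theorem NN_k {y L : ι → ZMod 3} {w0 : ZMod 3} (hN : (D.NN y L w0).det ≠ 0) {v : ι → ZMod 3}
    {c : ZMod 3} (h1 : ∀ i, ∑ j, D.R y j i * v j = c * wt (D.p i))
    (h2 : ∑ j, L j * v j = c * w0) : (∀ j, v j = 0) ∧ c = 0 := by
  have hT : (D.NN y L w0).transpose.det ≠ 0 := by rwa [Matrix.det_transpose]
  have h := mulVec_zero hT (v := fun a => a.elim (-c) v) (fun a => by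
    cases a with
    | none =>
      rw [Fintype.sum_option]
      show w0 * (-c) + ∑ j, L j * v j = 0
      rw [h2]; ring
    | some i =>
      rw [Fintype.sum_option]
      show wt (D.p i) * (-c) + ∑ j, D.R y j i * v j = 0
      rw [h1 i]; ring)
  exact ⟨fun j => h (some j), neg_eq_zero.mp (h none)⟩

theorem three_not_dvd_p (i : ι) : ¬ (3 : ℤ) ∣ (D.p i : ℤ) := by
  have := D.h3 i
  omega

theorem wq_p (i : ι) : wq (D.p i : ℤ) = wt (D.p i) := wq_eq_wt (by have := D.h3 i; omega)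

theorem three_not_dvd_P (S : Finset ι) : ¬ (3 : ℤ) ∣ D.P S := by
  rw [P, Int.prime_three.dvd_finsetProd_iff]
  rintro ⟨j, -, h⟩
  exact D.three_not_dvd_p j (Int.prime_three.dvd_of_dvd_pow h)

theorem wq_P (S : Finset ι) : wq (D.P S) = ∑ j ∈ S, (D.e j : ZMod 3) * wt (D.p j) := by
  induction S using Finset.induction_on with
  | empty => rw [P, prod_empty, sum_empty, wq_one]
  | insert j S hj ih =>
    have h1 : D.P (insert j S) = (D.p j : ℤ) ^ D.e j * D.P S := by rw [P, prod_insert hj, P]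
    rw [h1, sum_insert hj, wq_mul (fun h => D.three_not_dvd_p j (Int.prime_three.dvd_of_dvd_pow h))
      (D.three_not_dvd_P S), wq_pow (D.three_not_dvd_p j), ih, D.wq_p]

theorem sum_vec {J1 J2 : Finset ι} (h12 : Disjoint J1 J2) (F : ι → ZMod 3) :
    ∑ j, F j * D.vec J1 J2 j =
      ∑ j ∈ J1, (D.e j : ZMod 3) * F j - ∑ j ∈ J2, (D.e j : ZMod 3) * F j := by
  have h1 : ∀ j, F j * D.vec J1 J2 j = (if j ∈ J1 then (D.e j : ZMod 3) * F j else 0) -
      (if j ∈ J2 then (D.e j : ZMod 3) * F j else 0) := by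
    intro j
    have hd : j ∈ J1 → j ∉ J2 := fun h => Finset.disjoint_left.mp h12 h
    rw [vec]
    by_cases hj1 : j ∈ J1
    · simp only [hj1, if_true, hd hj1, if_false]; ring
    · by_cases hj2 : j ∈ J2
      · simp only [hj1, hj2, if_true, if_false]; ring
      · simp [hj1, hj2]
  rw [sum_congr rfl (fun j _ => h1 j), sum_sub_distrib]
  simp

section inert

variable {r f : ℕ} {C0 : ℤ} (y L : ι → ZMod 3)

theorem inert_prime (hr : r.Prime) (hr3 : r % 3 = 2) : Prime (r : Eis) := prime_inert hr hr3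

theorem inert_n3 (hr : r.Prime) (hr3 : r % 3 = 2) : ¬ (r : Eis) ∣ 3 := by
  intro h
  have h1 : ((r : ℤ) : Eis) ∣ ((3 : ℤ) : Eis) := by
    rw [← three_eq_cast, Int.cast_natCast]; exact h
  rw [intCast_dvd_intCast] at h1
  have h2 : r ∣ 3 := by exact_mod_cast h1
  have h4 := (Nat.prime_dvd_prime_iff_eq hr Nat.prime_three).mp h2
  omega

/-- the symbol of `η` at an inert prime -/
theorem inert_sym (hr : r.Prime) (hr3 : r % 3 = 2) (hrp : ∀ i, D.p i ≠ r) {J : Finset ι}
    {ρ : ι → Eis} (hρ : ∀ j, ρ j = D.π j ∨ ρ j = conj (D.π j)) {η γ : Eis}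
    (hη : η = (∏ j ∈ J, ρ j ^ D.e j) * γ ^ 3) (hrη : ¬ (r : Eis) ∣ η)
    (hL : ∀ i, sym (D.π i) (r : Eis) = L i) :
    sym (r : Eis) η = ∑ j, L j * D.vec (J.filter (fun j => ρ j = D.π j))
      (J.filter (fun j => ρ j ≠ D.π j)) j := by
  have hP := prime_inert hr hr3
  have hn3 := inert_n3 hr hr3
  have hnp : ∀ j, ¬ (r : Eis) ∣ D.π j := by
    intro j h
    have : Fact (D.p j).Prime := ⟨D.hp j⟩
    have h1 := h.trans (dvd_p (D.hπ j))
    have h2 : ((r : ℤ) : Eis) ∣ ((D.p j : ℤ) : Eis) := by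
      rw [Int.cast_natCast, Int.cast_natCast]; exact h1
    rw [intCast_dvd_intCast] at h2
    have h3 : r ∣ D.p j := by exact_mod_cast h2
    exact hrp j ((Nat.prime_dvd_prime_iff_eq hr (D.hp j)).mp h3).symm
  have hnp' : ∀ j, ¬ (r : Eis) ∣ conj (D.π j) := by
    intro j h
    apply hnp j
    have := conj_dvd h
    rwa [conj_natCast, conj_conj] at this
  have hsym : ∀ j, sym (r : Eis) (D.π j) = L j := by
    intro j
    have : Fact (D.p j).Prime := ⟨D.hp j⟩
    rw [← hL j]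
    have h3r : ¬ 3 ∣ r := by omega
    refine (recip (D.h3 j) (D.hπ j) (D.hprim j) hP hn3 (prim_natCast h3r) ?_).symm
    intro h
    exact hnp j h.dvd
  have hsym' : ∀ j, sym (r : Eis) (conj (D.π j)) = -L j := by
    intro j
    rw [← hsym j, ← sym_conj hP hn3 (hnp j), conj_natCast]
  have hρn : ∀ j, ¬ (r : Eis) ∣ ρ j := by
    intro j
    rcases hρ j with h | h <;> rw [h]
    · exact hnp j
    · exact hnp' j
  have hγ : ¬ (r : Eis) ∣ γ := by
    intro h
    apply hrη
    rw [hη]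
    exact Dvd.dvd.mul_left (Dvd.dvd.pow h (by norm_num)) _
  obtain ⟨h1, h2⟩ := sym_prod_pow hP hn3 ρ D.e J (fun j _ => hρn j)
  have h3 : ¬ (r : Eis) ∣ γ ^ 3 := fun h => hγ (hP.dvd_of_dvd_pow h)
  rw [hη, sym_mul hP hn3 h1 h3, sym_cube hP hn3 hγ, add_zero, h2,
    D.sum_vec (disjoint_filter_filter_not _ _ _), sum_filter, sum_filter, ← sum_sub_distrib]
  apply sum_congr rfl
  intro j _
  by_cases h : ρ j = D.π j
  · rw [if_pos h, if_neg (not_not.mpr h), h, hsym j]; ring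
  · rw [if_neg h, if_pos h, (hρ j).resolve_left h, hsym' j]; ring

/-- the side of `Z[ω]` -/
theorem kstep2 (hr : r.Prime) (hr3 : r % 3 = 2) (hrp : ∀ i, D.p i ≠ r) (hC0 : C0 ≠ 0)
    (hf : f ≠ 0) (hCp : ∀ i, ¬ (D.p i : ℤ) ∣ C0)
    (hy : ∀ i, sym (D.π i) ((C0 * (r : ℤ) ^ f : ℤ) : Eis) = y i)
    (hL : ∀ i, sym (D.π i) (r : Eis) = L i)
    (hR : (D.NN y L (wq r)).det ≠ 0) {η : Eis} {S z : ℤ} (hηprim : Prim η)
    (hηcop : IsCoprime η (conj η)) (hcoS : IsCoprime S η.norm)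
    (hηS : S * η.norm = (C0 * (r : ℤ) ^ f * D.P univ) * z ^ 3) (hCS : C0 ∣ S)
    {α β κ : Eis} {c : ZMod 3}
    (hα : ∀ i, ¬ D.π i ∣ α)
    (hβ : ∀ i, ¬ D.π i ∣ β) (hκ : ∀ i, ¬ D.π i ∣ κ)
    (hα' : ∀ i, sym (D.π i) α = c * wt (D.p i))
    (hβ' : ∀ i, sym (D.π i) β = -(c * wt (D.p i))) (hκ' : ∀ i, sym (D.π i) κ = 0)
    (hαr : ¬ (r : Eis) ∣ α) (hβr : ¬ (r : Eis) ∣ β) (hαr' : sym (r : Eis) α = -(c * wq r))
    (hβr' : sym (r : Eis) β = c * wq r)
    (hrel : α * η + β * conj η = κ * (S : Eis)) :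
    c = 0 ∧ ∃ (γ : Eis) (s t : ℤ), η = γ ^ 3 ∧ ¬ lam ∣ γ ∧
      S = (C0 * (r : ℤ) ^ f * D.P univ) * s ^ 3 ∧ z = t * s := by
  have hri : Prime (r : ℤ) := Nat.prime_iff_prime_int.mp hr
  have hr0 : (r : ℤ) ^ f ≠ 0 := pow_ne_zero _ hri.ne_zero
  have hrη := inert_not_dvd_norm hr hr3 hηcop
  obtain ⟨S2, hS2⟩ := hCS
  have h2 : (r : ℤ) ^ f ∣ S2 := by
    have h3 : S2 * η.norm = ((r : ℤ) ^ f * D.P univ) * z ^ 3 := by
      apply mul_left_cancel₀ hC0
      rw [hS2] at hηS
      linear_combination hηS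
    apply hri.pow_dvd_of_dvd_mul_right f hrη
    rw [h3, mul_assoc]; exact dvd_mul_right _ _
  obtain ⟨S1, hS1⟩ := h2
  have hS1' : S = C0 * (r : ℤ) ^ f * S1 := by rw [hS2, hS1]; ring
  have hS1d : S1 ∣ S := ⟨C0 * (r : ℤ) ^ f, by rw [hS1']; ring⟩
  obtain ⟨J, -, t, s, ht, hs, hz⟩ := split_two D.p D.e D.hp D.he0 univ η.norm S1 z
    (hcoS.of_isCoprime_of_dvd_left hS1d).symm (by
      apply mul_left_cancel₀ (mul_ne_zero hC0 hr0)
      rw [hS1'] at hηS
      rw [P] at hηS
      linear_combination hηS)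
  obtain ⟨ρ, γ, hρ, hγ, hγ3⟩ := split_eis D.p D.e D.π D.hp D.hπ D.prim D.he0 J η t hηprim hηcop ht
  have hpq : ∀ i, ¬ (D.p i : ℤ) ∣ C0 * (r : ℤ) ^ f := by
    intro i h
    rcases (D.prime_int i).dvd_or_dvd h with h | h
    · exact hCp i h
    · have := (D.prime_int i).dvd_of_dvd_pow h
      rw [Int.natCast_dvd_natCast, Nat.prime_dvd_prime_iff_eq (D.hp i) hr] at this
      exact hrp i this
  have hns : ∀ i ∈ J, ¬ (D.p i : ℤ) ∣ s := by
    intro i hi h
    have h5 : (D.p i : ℤ) ∣ S := by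
      rw [hS1', hs]; exact Dvd.dvd.mul_left (Dvd.dvd.mul_left (Dvd.dvd.pow h (by norm_num)) _) _
    have h6 : (D.p i : ℤ) ∣ η.norm := by
      rw [ht]; exact Dvd.dvd.mul_right (D.dvd_P hi) _
    exact (D.prime_int i).not_isUnit (hcoS.isUnit_of_dvd' h5 h6)
  have hn3 : ∀ i (x : ℤ), ¬ (D.p i : ℤ) ∣ x → ¬ (D.p i : ℤ) ∣ x ^ 3 :=
    fun i x h h' => h ((D.prime_int i).dvd_of_dvd_pow h')
  have hres := D.kside (J := J) hρ hγ hηcop (S0 := C0 * (r : ℤ) ^ f * s ^ 3)
    (fun i hi h => ((D.prime_int i).dvd_or_dvd h).elim (hpq i) (hn3 i s (hns i hi)))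
    y (fun i => c * wt (D.p i)) (fun i hi => by
      rw [Int.cast_mul, sym_mul (D.pr i) (D.n3 i)
        (by rw [D.dvd_int]; exact hpq i) (by rw [D.dvd_int]; exact hn3 i s (hns i hi)),
        Int.cast_pow s, sym_cube (D.pr i) (D.n3 i) (by rw [D.dvd_int]; exact hns i hi),
        add_zero, hy i])
    (α := α) (β := β) (κ := κ) hα hβ hκ hα' hβ' hκ' (by
      rw [hrel, hS1', hs]
      congr 2; ring)
  -- the equation at `r`
  have hP := prime_inert hr hr3
  have hr3' := inert_n3 hr hr3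
  have hrη' : ¬ (r : Eis) ∣ η := by
    intro h
    apply hrη
    have h1 : ((r : ℤ) : Eis) ∣ (η.norm : Eis) := by
      rw [← mul_conj, Int.cast_natCast]; exact Dvd.dvd.mul_right h _
    exact intCast_dvd_intCast.mp h1
  have hrη'' : ¬ (r : Eis) ∣ conj η := by
    intro h
    apply hrη'
    have := conj_dvd h
    rwa [conj_natCast, conj_conj] at this
  have hsη := D.inert_sym L hr hr3 hrp hρ hγ hrη' hL
  have hrS : (r : Eis) ∣ α * η + β * conj η := by
    rw [hrel]
    apply Dvd.dvd.mul_left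
    have : ((r : ℤ) : Eis) ∣ (S : Eis) := by
      rw [intCast_dvd_intCast, hS1']
      exact Dvd.dvd.mul_right (Dvd.dvd.mul_left (dvd_pow_self _ hf) _) _
    rwa [Int.cast_natCast] at this
  have hnb : ¬ (r : Eis) ∣ β * conj η := fun h => (hP.dvd_or_dvd h).elim hβr hrη''
  have hc : sym (r : Eis) (α * η) = sym (r : Eis) (β * conj η) := by
    rw [← sym_neg hP hr3' hnb]
    apply sym_congr
    rw [sub_neg_eq_add]; exact hrS
  have hconj : sym (r : Eis) (conj η) = -sym (r : Eis) η := by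
    have := sym_conj hP hr3' hrη'
    rwa [conj_natCast] at this
  rw [sym_mul hP hr3' hαr hrη', sym_mul hP hr3' hβr hrη'', hαr', hβr', hconj, hsη] at hc
  have h3 : (3 : ZMod 3) = 0 := by decide
  have heq : ∑ j, L j * D.vec (J.filter (fun j => ρ j = D.π j))
      (J.filter (fun j => ρ j ≠ D.π j)) j = c * wq r := by
    linear_combination (-1 : ZMod 3) * hc + (∑ j, L j * D.vec (J.filter (fun j => ρ j = D.π j))
      (J.filter (fun j => ρ j ≠ D.π j)) j - c * wq r) * h3
  obtain ⟨hv0, hc0⟩ := D.NN_k hR hres heq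
  refine ⟨hc0, ?_⟩
  obtain ⟨e1, e2⟩ := D.vec_eq_zero (disjoint_filter_filter_not _ _ _) hv0
  have e3 : J = ∅ := by
    rw [← filter_union_filter_not_eq (fun j => ρ j = D.π j) J, e1, e2]; rfl
  subst e3
  rw [prod_empty, one_mul] at hγ
  refine ⟨γ, s, t, hγ, hγ3, ?_, hz⟩
  rw [hS1', hs, sdiff_empty, P]; ring

end inert

end FData

end Pool.Agent.Lib_helper18


end

section

set_option linter.unusedSectionVars false

/-!
# The rational side with an inert prime in the matrix and a condition at `3`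
-/

namespace Pool.Agent.Lib_helper18

open Finset Eis Matrix

theorem inert_split {r : ℤ} (hr : Prime r) {f : ℕ} (hf : f ≠ 0) {u v t X : ℤ}
    (huv : IsCoprime u v) (hut : IsCoprime u t) (hvt : IsCoprime v t)
    (h : u * v * t = r ^ f * X) :
    ∃ (f1 f2 f3 : ℕ) (u' v' t' : ℤ), ((f1 = f ∧ f2 = 0 ∧ f3 = 0) ∨ (f1 = 0 ∧ f2 = f ∧ f3 = 0) ∨
      (f1 = 0 ∧ f2 = 0 ∧ f3 = f)) ∧ u = r ^ f1 * u' ∧ v = r ^ f2 * v' ∧ t = r ^ f3 * t' ∧
      u' * v' * t' = X := by
  have hr0 : r ^ f ≠ 0 := pow_ne_zero _ hr.ne_zero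
  have h1 : r ∣ u * v * t := by rw [h]; exact Dvd.dvd.mul_right (dvd_pow_self _ hf) _
  have key : ∀ a b : ℤ, IsCoprime a b → r ∣ a → ¬ r ∣ b :=
    fun a b hab ha hb => hr.not_isUnit (hab.isUnit_of_dvd' ha hb)
  rcases hr.dvd_or_dvd h1 with h2 | h2
  · rcases hr.dvd_or_dvd h2 with h3 | h3
    · have h4 : ¬ r ∣ v * t := fun h5 => (hr.dvd_or_dvd h5).elim (key _ _ huv h3) (key _ _ hut h3)
      have h5 : r ^ f ∣ u := by
        apply hr.pow_dvd_of_dvd_mul_right f h4
        rw [← mul_assoc, h]; exact dvd_mul_right _ _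
      obtain ⟨u', hu'⟩ := h5
      refine ⟨f, 0, 0, u', v, t, Or.inl ⟨rfl, rfl, rfl⟩, hu', by ring, by ring, ?_⟩
      apply mul_left_cancel₀ hr0
      rw [← h, hu']; ring
    · have h4 : ¬ r ∣ u * t :=
        fun h5 => (hr.dvd_or_dvd h5).elim (key _ _ huv.symm h3) (key _ _ hvt h3)
      have h5 : r ^ f ∣ v := by
        apply hr.pow_dvd_of_dvd_mul_right f h4
        rw [show v * (u * t) = u * v * t by ring, h]; exact dvd_mul_right _ _
      obtain ⟨v', hv'⟩ := h5
      refine ⟨0, f, 0, u, v', t, Or.inr (Or.inl ⟨rfl, rfl, rfl⟩), by ring, hv', by ring, ?_⟩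
      apply mul_left_cancel₀ hr0
      rw [← h, hv']; ring
  · have h4 : ¬ r ∣ u * v :=
      fun h5 => (hr.dvd_or_dvd h5).elim (key _ _ hut.symm h2) (key _ _ hvt.symm h2)
    have h5 : r ^ f ∣ t := by
      apply hr.pow_dvd_of_dvd_mul_right f h4
      rw [show t * (u * v) = u * v * t by ring, h]; exact dvd_mul_right _ _
    obtain ⟨t', ht'⟩ := h5
    refine ⟨0, 0, f, u, v, t', Or.inr (Or.inr ⟨rfl, rfl, rfl⟩), by ring, by ring, ht', ?_⟩
    apply mul_left_cancel₀ hr0
    rw [← h, ht']; ring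

namespace FData

variable {ι : Type*} [Fintype ι] [DecidableEq ι] (D : FData ι)

variable {r f : ℕ} {C0 : ℤ} (y L : ι → ZMod 3)

theorem qstep2 (hr : r.Prime) (hr3 : r % 3 = 2) (hrp : ∀ i, D.p i ≠ r) (hC0 : C0 ≠ 0)
    (hf : f = 1 ∨ f = 2) (hCp : ∀ i, ¬ (D.p i : ℤ) ∣ C0)
    (hy : ∀ i, sym (D.π i) ((C0 * (r : ℤ) ^ f : ℤ) : Eis) = y i)
    (hL : ∀ i, sym (D.π i) (r : Eis) = L i)
    (hR : (D.NN y L (wq r)).det ≠ 0) {u v t s : ℤ} (huv : IsCoprime u v)
    (hut : IsCoprime u t) (hvt : IsCoprime v t) (hsum : u + v + t = 0)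
    (hprod : u * v * t = (C0 * (r : ℤ) ^ f * D.P univ) * s ^ 3) (hCt : C0 ∣ t)
    (h3 : ∀ d1 d2 d3 a b c : ℤ, ¬ (3 : ℤ) ∣ d1 → ¬ (3 : ℤ) ∣ d2 → u = d1 * a ^ 3 →
      v = d2 * b ^ 3 → t = C0 * d3 * c ^ 3 → d1 * d2 * d3 = (r : ℤ) ^ f * D.P univ →
      wq d1 = wq d2) :
    ∃ a b c : ℤ, a ^ 3 + b ^ 3 = (C0 * (r : ℤ) ^ f * D.P univ) * c ^ 3 ∧
      s.natAbs = a.natAbs * b.natAbs * c.natAbs := by
  have hri : Prime (r : ℤ) := Nat.prime_iff_prime_int.mp hr
  have hf0 : f ≠ 0 := by omega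
  have h3r : ¬ (3 : ℤ) ∣ (r : ℤ) := by omega
  obtain ⟨t0, ht0⟩ := hCt
  have ht0d : t0 ∣ t := ⟨C0, by rw [ht0]; ring⟩
  obtain ⟨f1, f2, f3, u', v', t', hff, hu', hv', ht', hX⟩ := inert_split hri hf0 huv
    (hut.of_isCoprime_of_dvd_right ht0d) (hvt.of_isCoprime_of_dvd_right ht0d)
    (X := D.P univ * s ^ 3) (by
      apply mul_left_cancel₀ hC0
      rw [ht0] at hprod
      linear_combination hprod)
  have hu'd : u' ∣ u := ⟨(r : ℤ) ^ f1, by rw [hu']; ring⟩
  have hv'd : v' ∣ v := ⟨(r : ℤ) ^ f2, by rw [hv']; ring⟩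
  have ht'd0 : t' ∣ t0 := ⟨(r : ℤ) ^ f3, by rw [ht']; ring⟩
  have ht'd : t' ∣ t := ht'd0.trans ht0d
  obtain ⟨J1, J2, J3, h12, h13, h23, hU, a, b, c, ha, hb, hc, hs⟩ := D.three_split
    ((huv.of_isCoprime_of_dvd_left hu'd).of_isCoprime_of_dvd_right hv'd)
    ((hut.of_isCoprime_of_dvd_left hu'd).of_isCoprime_of_dvd_right ht'd)
    ((hvt.of_isCoprime_of_dvd_left hv'd).of_isCoprime_of_dvd_right ht'd) hX
  have hpr : ∀ i (k : ℕ), ¬ (D.p i : ℤ) ∣ (r : ℤ) ^ k := by
    intro i k h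
    have := (D.prime_int i).dvd_of_dvd_pow h
    rw [Int.natCast_dvd_natCast, Nat.prime_dvd_prime_iff_eq (D.hp i) hr] at this
    exact hrp i this
  have hmem : ∀ i, i ∈ J1 ∨ i ∈ J2 ∨ i ∈ J3 := by
    intro i
    have : i ∈ J1 ∪ J2 ∪ J3 := by rw [hU]; exact mem_univ i
    simp only [mem_union] at this
    tauto
  have hdu : ∀ i ∈ J1, (D.p i : ℤ) ∣ u := fun i hi => by
    rw [hu', ha]; exact Dvd.dvd.mul_left (Dvd.dvd.mul_right (D.dvd_P hi) _) _
  have hdv : ∀ i ∈ J2, (D.p i : ℤ) ∣ v := fun i hi => by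
    rw [hv', hb]; exact Dvd.dvd.mul_left (Dvd.dvd.mul_right (D.dvd_P hi) _) _
  have hdt : ∀ i ∈ J3, (D.p i : ℤ) ∣ t := fun i hi => by
    rw [ht0, ht', hc]
    exact Dvd.dvd.mul_left (Dvd.dvd.mul_left (Dvd.dvd.mul_right (D.dvd_P hi) _) _) _
  have hna : ∀ i, i ∉ J1 → ¬ (D.p i : ℤ) ∣ a := by
    intro i hi h
    have h5 : (D.p i : ℤ) ∣ u := by
      rw [hu', ha]; exact Dvd.dvd.mul_left (Dvd.dvd.mul_left (Dvd.dvd.pow h (by norm_num)) _) _
    rcases hmem i with h6 | h6 | h6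
    · exact hi h6
    · exact (D.prime_int i).not_isUnit (huv.isUnit_of_dvd' h5 (hdv i h6))
    · exact (D.prime_int i).not_isUnit (hut.isUnit_of_dvd' h5 (hdt i h6))
  have hnb : ∀ i, i ∉ J2 → ¬ (D.p i : ℤ) ∣ b := by
    intro i hi h
    have h5 : (D.p i : ℤ) ∣ v := by
      rw [hv', hb]; exact Dvd.dvd.mul_left (Dvd.dvd.mul_left (Dvd.dvd.pow h (by norm_num)) _) _
    rcases hmem i with h6 | h6 | h6
    · exact (D.prime_int i).not_isUnit (huv.isUnit_of_dvd' (hdu i h6) h5)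
    · exact hi h6
    · exact (D.prime_int i).not_isUnit (hvt.isUnit_of_dvd' h5 (hdt i h6))
  have hnc : ∀ i, i ∉ J3 → ¬ (D.p i : ℤ) ∣ c := by
    intro i hi h
    have h5 : (D.p i : ℤ) ∣ t := by
      rw [ht0, ht', hc]
      exact Dvd.dvd.mul_left (Dvd.dvd.mul_left (Dvd.dvd.mul_left
        (Dvd.dvd.pow h (by norm_num)) _) _) _
    rcases hmem i with h6 | h6 | h6
    · exact (D.prime_int i).not_isUnit (hut.isUnit_of_dvd' (hdu i h6) h5)
    · exact (D.prime_int i).not_isUnit (hvt.isUnit_of_dvd' (hdv i h6) h5)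
    · exact hi h6
  have hn3 : ∀ i (x : ℤ), ¬ (D.p i : ℤ) ∣ x → ¬ (D.p i : ℤ) ∣ x ^ 3 :=
    fun i x h h' => h ((D.prime_int i).dvd_of_dvd_pow h')
  have hs3 : ∀ i (x : ℤ), ¬ (D.p i : ℤ) ∣ x → sym (D.π i) ((x ^ 3 : ℤ) : Eis) = 0 := by
    intro i x hx
    rw [Int.cast_pow]
    exact sym_cube (D.pr i) (D.n3 i) (by rwa [D.dvd_int])
  have hrn : ∀ i, ¬ D.π i ∣ (r : Eis) := by
    intro i h
    have h1 := D.dvd_int i (s := (r : ℤ))
    rw [Int.cast_natCast] at h1
    rw [h1] at h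
    exact hpr i 1 (by rwa [pow_one])
  have hsr : ∀ i (k : ℕ) (x : ℤ), ¬ (D.p i : ℤ) ∣ x →
      sym (D.π i) (((r : ℤ) ^ k * x ^ 3 : ℤ) : Eis) = (k : ZMod 3) * L i := by
    intro i k x hx
    rw [Int.cast_mul, sym_mul (D.pr i) (D.n3 i) (by rw [D.dvd_int]; exact hpr i k)
      (by rw [D.dvd_int]; exact hn3 i x hx), hs3 i x hx, add_zero, Int.cast_pow,
      Int.cast_natCast, sym_pow (D.pr i) (D.n3 i) (hrn i), hL i]
  have hfsum : (f1 : ZMod 3) + f2 + f3 = f := by
    rcases hff with ⟨h1, h2, h3⟩ | ⟨h1, h2, h3⟩ | ⟨h1, h2, h3⟩ <;> rw [h1, h2, h3] <;> simp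
  have hres := D.qside h12 h13 h23 hU (u0 := (r : ℤ) ^ f1 * a ^ 3) (v0 := (r : ℤ) ^ f2 * b ^ 3)
    (t0 := C0 * ((r : ℤ) ^ f3 * c ^ 3))
    y (fun i => (f1 : ZMod 3) * L i) (fun i => (f2 : ZMod 3) * L i)
    (fun i hi h => ((D.prime_int i).dvd_or_dvd h).elim (hpr i f1) (hn3 i a (hna i hi)))
    (fun i hi h => ((D.prime_int i).dvd_or_dvd h).elim (hpr i f2) (hn3 i b (hnb i hi)))
    (fun i hi h => ((D.prime_int i).dvd_or_dvd h).elim (hCp i)
      (fun h => ((D.prime_int i).dvd_or_dvd h).elim (hpr i f3) (hn3 i c (hnc i hi))))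
    (fun i hi => by
      have e1 : ¬ D.π i ∣ (((r : ℤ) ^ f3 * c ^ 3 : ℤ) : Eis) := by
        rw [D.dvd_int]
        exact fun h => ((D.prime_int i).dvd_or_dvd h).elim (hpr i f3) (hn3 i c (hnc i hi))
      have e2 : ¬ D.π i ∣ (((r : ℤ) ^ f : ℤ) : Eis) := by rw [D.dvd_int]; exact hpr i f
      have e3 : ¬ D.π i ∣ (C0 : Eis) := by rw [D.dvd_int]; exact hCp i
      have h4 := hy i
      rw [Int.cast_mul, sym_mul (D.pr i) (D.n3 i) e3 e2, Int.cast_pow, Int.cast_natCast,
        sym_pow (D.pr i) (D.n3 i) (hrn i), hL i] at h4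
      rw [Int.cast_mul, sym_mul (D.pr i) (D.n3 i) e3 e1, hsr i f3 c (hnc i hi), ← h4, ← hfsum]
      ring)
    (fun i hi => hsr i f1 a (hna i hi)) (fun i hi => hsr i f2 b (hnb i hi)) (by
      rw [hu', hv', ht0, ht', ha, hb, hc] at hsum
      rw [P, P, P] at hsum
      linear_combination hsum)
  have hrow3 := h3 ((r : ℤ) ^ f1 * D.P J1) ((r : ℤ) ^ f2 * D.P J2) ((r : ℤ) ^ f3 * D.P J3) a b c
    (fun h => (Int.prime_three.dvd_or_dvd h).elim
      (fun h => h3r (Int.prime_three.dvd_of_dvd_pow h)) (D.three_not_dvd_P J1))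
    (fun h => (Int.prime_three.dvd_or_dvd h).elim
      (fun h => h3r (Int.prime_three.dvd_of_dvd_pow h)) (D.three_not_dvd_P J2))
    (by rw [hu', ha]; ring) (by rw [hv', hb]; ring) (by rw [ht0, ht', hc]; ring) (by
      have e1 : D.P J1 * D.P J2 * D.P J3 = D.P univ := by
        rw [← hU, P, P, P, P, prod_union (disjoint_union_left.mpr ⟨h13, h23⟩), prod_union h12]
      have e2 : (r : ℤ) ^ f1 * (r : ℤ) ^ f2 * (r : ℤ) ^ f3 = (r : ℤ) ^ f := by
        rw [← pow_add, ← pow_add]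
        congr 1
        omega
      rw [← e1, ← e2]; ring)
  have hrk : ∀ k : ℕ, ¬ (3 : ℤ) ∣ (r : ℤ) ^ k := fun k h => h3r (Int.prime_three.dvd_of_dvd_pow h)
  rw [wq_mul (hrk f1) (D.three_not_dvd_P J1), wq_mul (hrk f2) (D.three_not_dvd_P J2),
    wq_pow h3r, wq_pow h3r, D.wq_P, D.wq_P] at hrow3
  obtain ⟨hv0, hm0⟩ := D.NN_q hR (v := D.vec J1 J2) (m := (f1 : ZMod 3) - f2) (fun i => by
    rw [hres i]; ring) (by
    rw [D.sum_vec h12]
    linear_combination hrow3)
  obtain ⟨e1, e2⟩ := D.vec_eq_zero h12 hv0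
  subst e1 e2
  have e3 : J3 = univ := by simpa using hU
  subst e3
  have e0 : D.P ∅ = 1 := by rw [P, prod_empty]
  have hff3 : f1 = 0 ∧ f2 = 0 ∧ f3 = f := by
    rcases hff with ⟨h1, h2, h3⟩ | ⟨h1, h2, h3⟩ | ⟨h1, h2, h3⟩
    · rw [h1, h2] at hm0
      rcases hf with h | h <;> rw [h] at hm0 <;> exact absurd hm0 (by decide)
    · rw [h1, h2] at hm0
      rcases hf with h | h <;> rw [h] at hm0 <;> exact absurd hm0 (by decide)
    · exact ⟨h1, h2, h3⟩
  obtain ⟨g1, g2, g3⟩ := hff3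
  rw [e0, one_mul] at ha hb
  rw [g1, pow_zero, one_mul] at hu'
  rw [g2, pow_zero, one_mul] at hv'
  rw [g3] at ht'
  refine ⟨a, b, -c, ?_, ?_⟩
  · rw [hu', hv', ha, hb, ht0, ht', hc] at hsum
    linear_combination hsum
  · rw [hs, Int.natAbs_mul, Int.natAbs_mul, Int.natAbs_neg]

end FData

end Pool.Agent.Lib_helper18


end

section

set_option linter.unusedSectionVars false

/-!
# The descents for two inert primes, and for `9` times one inert prime
-/

namespace Pool.Agent.Lib_helper18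

open Finset Eis Matrix

/-- infinite descent -/
theorem no_solution {A : ℤ} (hA0 : A ≠ 0) (hcf : ∀ r : ℤ, Prime r → ¬ r ^ 3 ∣ A)
    (hstep : ∀ x y z : ℤ, z ≠ 0 → IsCoprime x y → x ^ 3 + y ^ 3 = A * z ^ 3 →
      ∃ a b c : ℤ, c ≠ 0 ∧ a ^ 3 + b ^ 3 = A * c ^ 3 ∧ c.natAbs < z.natAbs) :
    ∀ (n : ℕ) (x y z : ℤ), z.natAbs = n → z ≠ 0 → x ^ 3 + y ^ 3 = A * z ^ 3 → False := by
  intro n
  induction n using Nat.strong_induction_on with
  | _ n ih =>
  intro x y z hzn hz0 hxyz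
  by_cases hco : IsCoprime x y
  swap
  · have hx0y0 : ¬ (x = 0 ∧ y = 0) := by
      rintro ⟨rfl, rfl⟩
      have : A * z ^ 3 = 0 := by rw [← hxyz]; ring
      rcases mul_eq_zero.mp this with h | h
      · exact hA0 h
      · exact hz0 (pow_eq_zero_iff (by norm_num) |>.mp h)
    have : ∃ r : ℤ, Prime r ∧ r ∣ x ∧ r ∣ y := by
      by_contra hcon
      push Not at hcon
      exact hco (isCoprime_of_prime_dvd hx0y0 (fun q hq hqx => hcon q hq hqx))
    obtain ⟨r, hr, ⟨x', hx'⟩, ⟨y', hy'⟩⟩ := this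
    have hr3 : r ^ 3 ∣ A * z ^ 3 := ⟨x' ^ 3 + y' ^ 3, by rw [← hxyz, hx', hy']; ring⟩
    have hrz : r ∣ z := by
      by_contra hrz
      exact hcf r hr (hr.pow_dvd_of_dvd_mul_right 3 (fun h => hrz (hr.dvd_of_dvd_pow h)) hr3)
    obtain ⟨z', hz'⟩ := hrz
    have hz'0 : z' ≠ 0 := by rintro rfl; simp at hz'; exact hz0 hz'
    have hlt : z'.natAbs < n := by
      rw [← hzn, hz', Int.natAbs_mul]
      have h1 : 1 < r.natAbs := by
        have := hr.not_isUnit
        rw [Int.isUnit_iff_natAbs_eq] at this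
        have h2 : r.natAbs ≠ 0 := Int.natAbs_ne_zero.mpr hr.ne_zero
        omega
      have h2 : 0 < z'.natAbs := Int.natAbs_pos.mpr hz'0
      nlinarith
    refine ih _ hlt x' y' z' rfl hz'0 ?_
    have hr30 : r ^ 3 ≠ 0 := pow_ne_zero _ hr.ne_zero
    apply mul_left_cancel₀ hr30
    rw [hx', hy', hz'] at hxyz
    linear_combination hxyz
  · obtain ⟨a, b, c, hc0, habc, hlt⟩ := hstep x y z hz0 hco hxyz
    exact ih _ (by rw [← hzn]; exact hlt) a b c rfl hc0 habc

theorem natAbs_lt_of {a b c s t z : ℤ} (hz : z = 3 * (t * s)) (hs : s.natAbs = a.natAbs * b.natAbs * c.natAbs)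
    (hz0 : z ≠ 0) : c ≠ 0 ∧ c.natAbs < z.natAbs := by
  have hs0 : s ≠ 0 := by rintro rfl; simp at hz; exact hz0 hz
  have ht0 : t ≠ 0 := by rintro rfl; simp at hz; exact hz0 hz
  have hc0 : c ≠ 0 := by rintro rfl; simp at hs; exact hs0 hs
  have ha0 : a ≠ 0 := by rintro rfl; simp at hs; exact hs0 hs
  have hb0 : b ≠ 0 := by rintro rfl; simp at hs; exact hs0 hs
  refine ⟨hc0, ?_⟩
  have h1 : z.natAbs = 3 * (t.natAbs * s.natAbs) := by
    rw [hz, Int.natAbs_mul, Int.natAbs_mul]; rfl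
  have ha1 : 1 ≤ a.natAbs := Int.natAbs_pos.mpr ha0
  have hb1 : 1 ≤ b.natAbs := Int.natAbs_pos.mpr hb0
  have hc1 : 1 ≤ c.natAbs := Int.natAbs_pos.mpr hc0
  have ht1 : 1 ≤ t.natAbs := Int.natAbs_pos.mpr ht0
  have h2 : c.natAbs ≤ s.natAbs := by
    rw [hs]
    calc c.natAbs = 1 * 1 * c.natAbs := by ring
      _ ≤ a.natAbs * b.natAbs * c.natAbs := by gcongr
  have h3 : s.natAbs ≤ t.natAbs * s.natAbs := by
    calc s.natAbs = 1 * s.natAbs := by ring
      _ ≤ t.natAbs * s.natAbs := by gcongr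
  omega

/-- the weights of the three terms agree when `A = ±1 mod 9` -/
theorem row3_one {A u v t s : ℤ} (hA : A % 9 = 1 ∨ A % 9 = 8) (huv : IsCoprime u v)
    (hut : IsCoprime u t) (hvt : IsCoprime v t) (hsum : u + v + t = 0)
    (hprod : u * v * t = A * s ^ 3) {d1 d2 d3 a b c : ℤ} (h1 : ¬ (3 : ℤ) ∣ d1)
    (h2 : ¬ (3 : ℤ) ∣ d2) (hu : u = d1 * a ^ 3) (hv : v = d2 * b ^ 3) (ht : t = d3 * c ^ 3)
    (hd : d1 * d2 * d3 = A) : wq d1 = wq d2 := by
  have h3A : ¬ (3 : ℤ) ∣ A := by omega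
  have h3d : ¬ (3 : ℤ) ∣ d3 := fun h => h3A (by rw [← hd]; exact Dvd.dvd.mul_left h _)
  have hwA : wq d1 + wq d2 + wq d3 = 0 := by
    have h12 : ¬ (3 : ℤ) ∣ d1 * d2 := fun h => (Int.prime_three.dvd_or_dvd h).elim h1 h2
    rw [← wq_mul h1 h2, ← wq_mul h12 h3d, hd, wq, if_pos hA]
  have h3s : (3 : ℤ) ∣ s := by
    by_contra h3s
    have hs9 := cube_mod_nine_int h3s
    have h9 : (u * v * t) % 9 = 1 ∨ (u * v * t) % 9 = 8 := by
      rw [hprod, Int.mul_emod]
      rcases hA with h | h <;> rcases hs9 with h' | h' <;> rw [h, h'] <;> norm_num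
    have ht' : t = -u - v := by linarith
    have key : ∀ a b : ZMod 9, a * b * (-a - b) ≠ 1 ∧ a * b * (-a - b) ≠ 8 := by decide
    have hk := key u v
    rcases h9 with h | h
    · apply hk.1
      have h5 : ((u * v * t : ℤ) : ZMod 9) = ((1 : ℤ) : ZMod 9) := by
        rw [ZMod.intCast_eq_intCast_iff']; exact h
      rw [ht'] at h5
      push_cast at h5
      exact h5
    · apply hk.2
      have h5 : ((u * v * t : ℤ) : ZMod 9) = ((8 : ℤ) : ZMod 9) := by
        rw [ZMod.intCast_eq_intCast_iff']; exact h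
      rw [ht'] at h5
      push_cast at h5
      exact h5
  have h27 : (3 : ℤ) ^ 3 ∣ u * v * t := by
    rw [hprod]
    exact Dvd.dvd.mul_left (pow_dvd_pow_of_dvd h3s 3) _
  have h3 : (3 : ℤ) ∣ u * v * t := (dvd_pow_self _ (by norm_num)).trans h27
  have key : ∀ a b : ℤ, IsCoprime a b → (3 : ℤ) ∣ a → ¬ (3 : ℤ) ∣ b :=
    fun a b hab ha hb => Int.prime_three.not_isUnit (hab.isUnit_of_dvd' ha hb)
  have h9of : ∀ a : ℤ, (3 : ℤ) ^ 3 ∣ a → (9 : ℤ) ∣ a := by
    intro a h
    norm_num at h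
    omega
  have hcube : ∀ d x : ℤ, ¬ (3 : ℤ) ∣ d → ¬ (3 : ℤ) ∣ d * x ^ 3 → wq (d * x ^ 3) = wq d := by
    intro d x hd hdx
    have hx : ¬ (3 : ℤ) ∣ x := fun h => hdx (Dvd.dvd.mul_left (Dvd.dvd.pow h (by norm_num)) _)
    have hx3 : ¬ (3 : ℤ) ∣ x ^ 3 := fun h => hx (Int.prime_three.dvd_of_dvd_pow h)
    rw [wq_mul hd hx3, wq_cube hx, add_zero]
  have h30 : (3 : ZMod 3) = 0 := by decide
  rcases Int.prime_three.dvd_or_dvd h3 with h | h
  · rcases Int.prime_three.dvd_or_dvd h with h | h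
    · have n1 := key _ _ huv h
      have n2 := key _ _ hut h
      have h5 : (9 : ℤ) ∣ u := h9of _ (Int.prime_three.pow_dvd_of_dvd_mul_right 3
        (fun h => (Int.prime_three.dvd_or_dvd h).elim n1 n2) (by rw [← mul_assoc]; exact h27))
      have h6 : wq v = wq t := wq_of_add (by omega)
      rw [hv, ht] at h6
      rw [hcube _ _ h2 (by rw [← hv]; exact n1), hcube _ _ h3d (by rw [← ht]; exact n2)] at h6
      linear_combination hwA + h6 - wq d2 * h30
    · have n1 := key _ _ huv.symm h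
      have n2 := key _ _ hvt h
      have h5 : (9 : ℤ) ∣ v := h9of _ (Int.prime_three.pow_dvd_of_dvd_mul_right 3
        (a := v) (b := u * t)
        (fun h => (Int.prime_three.dvd_or_dvd h).elim n1 n2)
        (by rw [show v * (u * t) = u * v * t by ring]; exact h27))
      have h6 : wq u = wq t := wq_of_add (by omega)
      rw [hu, ht] at h6
      rw [hcube _ _ h1 (by rw [← hu]; exact n1), hcube _ _ h3d (by rw [← ht]; exact n2)] at h6
      linear_combination -hwA - h6 + wq d1 * h30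
  · have n1 := key _ _ hut.symm h
    have n2 := key _ _ hvt.symm h
    have h5 : (9 : ℤ) ∣ t := h9of _ (Int.prime_three.pow_dvd_of_dvd_mul_right 3
        (a := t) (b := u * v)
        (fun h => (Int.prime_three.dvd_or_dvd h).elim n1 n2)
        (by rw [show t * (u * v) = u * v * t by ring]; exact h27))
    have h6 : wq u = wq v := wq_of_add (by omega)
    rw [hu, hv] at h6
    rw [hcube _ _ h1 (by rw [← hu]; exact n1), hcube _ _ h2 (by rw [← hv]; exact n2)] at h6
    exact h6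

/-- data when `3` does not divide `z` and `A = ±1 mod 9` -/
theorem caseB1_data {A x y z : ℤ} (hco : IsCoprime x y) (h3z : ¬ (3 : ℤ) ∣ z)
    (hA : A % 9 = 1 ∨ A % 9 = 8) (hxyz : x ^ 3 + y ^ 3 = A * z ^ 3) :
    ∃ η : Eis, Prim η ∧ IsCoprime η (conj η) ∧
      w * η + w ^ 2 * conj η = -((x + y : ℤ) : Eis) ∧
      IsCoprime (x + y) η.norm ∧ (x + y) * η.norm = A * z ^ 3 := by
  -- one of `x`, `y` is divisible by `3`
  have hno3 : ¬ ((3 : ℤ) ∣ x ∧ (3 : ℤ) ∣ y) := by
    rintro ⟨h1, h2⟩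
    exact Int.prime_three.not_isUnit (hco.isUnit_of_dvd' h1 h2)
  have main : ∀ x y : ℤ, IsCoprime x y → x ^ 3 + y ^ 3 = A * z ^ 3 → (3 : ℤ) ∣ y →
      ¬ (3 : ℤ) ∣ x → ∃ η : Eis, Prim η ∧ IsCoprime η (conj η) ∧
      w * η + w ^ 2 * conj η = -((x + y : ℤ) : Eis) ∧
      IsCoprime (x + y) η.norm ∧ (x + y) * η.norm = A * z ^ 3 := by
    intro x y hco hxyz h3y h3x
    have hprim : Prim (⟨x, y⟩ : Eis) := ⟨h3y, h3x⟩
    refine ⟨⟨x, y⟩, hprim, ?_, ?_, ?_, ?_⟩
    · apply isCoprime_of_prime_dvd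
      · rintro ⟨h, -⟩
        exact hprim.not_lam_dvd (by rw [h]; exact dvd_zero _)
      · intro l hl h1 h2
        have h6 := coprime_xi hco hl h1 h2
        exact hprim.not_lam_dvd (h6.symm.dvd.trans h1)
    · ext
      · simp only [w_sq, add_re, mul_re, mul_im, sub_re, sub_im, neg_re, neg_im, one_re, one_im,
          w_re, w_im, conj_re, conj_im, intCast_re]; ring
      · simp only [w_sq, add_im, mul_re, mul_im, sub_re, sub_im, neg_re, neg_im, one_re, one_im,
          w_re, w_im, conj_re, conj_im, intCast_im]; ring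
    · have hS3 : IsCoprime (x + y) 3 := by
        rw [isCoprime_comm, Int.prime_three.irreducible.coprime_iff_not_dvd]
        omega
      have h4 : IsCoprime (x + y) (3 * (x * y)) := hS3.mul_right (coprime_sum hco)
      have hnorm : (⟨x, y⟩ : Eis).norm = (x + y) * (x + y) + -(3 * (x * y)) := by
        rw [norm_def]; ring
      rw [hnorm]
      exact (IsCoprime.mul_add_left_right h4.neg_right (x + y))
    · rw [← hxyz, norm_def]; ring
  have h9 : (x ^ 3 % 9 + y ^ 3 % 9) % 9 = (A % 9) * (z ^ 3 % 9) % 9 := by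
    rw [← Int.add_emod, ← Int.mul_emod, hxyz]
  have hz := cube_mod_nine_int h3z
  by_cases h3y : (3 : ℤ) ∣ y
  · exact main x y hco hxyz h3y (fun h => hno3 ⟨h, h3y⟩)
  · by_cases h3x : (3 : ℤ) ∣ x
    · obtain ⟨η, h1, h2, h4, h5, h6⟩ := main y x hco.symm (by rw [add_comm]; exact hxyz) h3x h3y
      exact ⟨η, h1, h2, by rw [add_comm x y]; exact h4, by rw [add_comm x y]; exact h5,
        by rw [add_comm x y]; exact h6⟩
    · exfalso
      have h1 := cube_mod_nine_int h3x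
      have h2 := cube_mod_nine_int h3y
      rcases h1 with h1 | h1 <;> rcases h2 with h2 | h2 <;> rcases hz with hz | hz <;>
        rcases hA with hA | hA <;> rw [h1, h2, hz, hA] at h9 <;> norm_num at h9

/-- data for `A = 9 B` -/
theorem caseC_data {B x y z : ℤ} (hco : IsCoprime x y) (hxyz : x ^ 3 + y ^ 3 = 9 * B * z ^ 3) :
    ∃ (S0 : ℤ) (η : Eis), ¬ lam ∣ η ∧ IsCoprime η (conj η) ∧ η.im = S0 ∧
      η - conj η = r3 * (S0 : Eis) ∧ IsCoprime (9 * S0) η.norm ∧ S0 * η.norm = B * z ^ 3 := by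
  have hcoxy := coprime_sum hco
  have hST : (x + y) * (⟨x, y⟩ : Eis).norm = 9 * B * z ^ 3 := by
    rw [← hxyz, norm_def]; ring
  have hno3 : ¬ ((3 : ℤ) ∣ x ∧ (3 : ℤ) ∣ y) := by
    rintro ⟨h1, h2⟩
    exact Int.prime_three.not_isUnit (hco.isUnit_of_dvd' h1 h2)
  have h3S : (3 : ℤ) ∣ x + y := by
    have h1 : (3 : ℤ) ∣ x ^ 3 + y ^ 3 := by
      rw [hxyz]; exact ⟨3 * B * z ^ 3, by ring⟩
    have h2 : (3 : ℤ) ∣ (x ^ 3 + y ^ 3) - (x + y) := by
      have h4 : ∀ a : ℤ, (3 : ℤ) ∣ a ^ 3 - a := by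
        intro a
        have : a % 3 = 0 ∨ a % 3 = 1 ∨ a % 3 = 2 := by omega
        apply Int.dvd_of_emod_eq_zero
        rcases this with h | h | h <;>
          simp [pow_succ, Int.sub_emod, Int.mul_emod, h]
      have := dvd_add (h4 x) (h4 y)
      have e5 : x ^ 3 - x + (y ^ 3 - y) = (x ^ 3 + y ^ 3) - (x + y) := by ring
      rwa [e5] at this
    have := dvd_sub h1 h2
    simpa using this
  have h3y : ¬ (3 : ℤ) ∣ y := by
    intro h; exact hno3 ⟨by omega, h⟩
  have h3x : ¬ (3 : ℤ) ∣ x := by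
    intro h; exact hno3 ⟨h, by omega⟩
  obtain ⟨S0, hS0⟩ := h3S
  have hT : (⟨x, y⟩ : Eis).norm = 3 * (3 * S0 ^ 2 - x * y) := by
    rw [norm_def]; simp only; linear_combination (x + y + 3 * S0) * hS0
  have h3T' : ¬ (3 : ℤ) ∣ 3 * S0 ^ 2 - x * y := by
    intro h
    have : (3 : ℤ) ∣ x * y := by
      have h4 := dvd_sub (dvd_mul_right (3 : ℤ) (S0 ^ 2)) h
      have e5 : 3 * S0 ^ 2 - (3 * S0 ^ 2 - x * y) = x * y := by ring
      rwa [e5] at h4
    rcases Int.prime_three.dvd_or_dvd this with h | h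
    · exact h3x h
    · exact h3y h
  have hST' : S0 * (3 * S0 ^ 2 - x * y) = B * z ^ 3 := by
    rw [hT, hS0] at hST
    have h9 : (9 : ℤ) ≠ 0 := by norm_num
    apply mul_left_cancel₀ h9
    linear_combination hST
  set η : Eis := ⟨-y + 2 * S0, S0⟩ with hη
  have hηlam : (⟨x, y⟩ : Eis) = lam * η := by
    ext
    · simp only [hη, mul_re, lam_re, lam_im]; linarith
    · simp only [hη, mul_im, lam_re, lam_im]; ring
  have hηnorm : η.norm = 3 * S0 ^ 2 - x * y := by
    have h4 := congrArg Eis.norm hηlam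
    rw [norm_mul, norm_lam, hT] at h4
    linarith
  have hnl : ¬ lam ∣ η := by
    rw [lam_dvd_iff_norm, hηnorm]; exact h3T'
  refine ⟨S0, η, hnl, ?_, rfl, ?_, ?_, by rw [hηnorm]; exact hST'⟩
  · apply isCoprime_of_prime_dvd
    · rintro ⟨h, -⟩
      exact hnl (by rw [h]; exact dvd_zero _)
    · intro l hl h1 h2
      have h4 : l ∣ (⟨x, y⟩ : Eis) := by rw [hηlam]; exact Dvd.dvd.mul_left h1 _
      have h5 : l ∣ conj (⟨x, y⟩ : Eis) := by
        rw [hηlam, map_mul]; exact Dvd.dvd.mul_left h2 _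
      have h6 := coprime_xi hco hl h4 h5
      exact hnl (h6.symm.dvd.trans h1)
  · rw [r3_eq, w_sq]
    ext
    · simp only [hη, mul_re, mul_im, sub_re, conj_re, sub_im, neg_re, neg_im, one_re,
        one_im, w_re, w_im, intCast_re, intCast_im]; ring
    · simp only [hη, mul_re, mul_im, sub_re, conj_im, sub_im, neg_re, neg_im, one_re,
        one_im, w_re, w_im, intCast_re, intCast_im]; ring
  · have h4 : IsCoprime S0 (x * y) := hcoxy.of_isCoprime_of_dvd_left ⟨3, by rw [hS0]; ring⟩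
    have h5 : η.norm = S0 * (3 * S0) + -(x * y) := by rw [hηnorm]; ring
    have h6 : IsCoprime S0 η.norm := by
      rw [h5]
      exact (IsCoprime.mul_add_left_right h4.neg_right (3 * S0))
    have h7 : IsCoprime (3 : ℤ) η.norm := by
      rw [Int.prime_three.irreducible.coprime_iff_not_dvd, hηnorm]
      exact h3T'
    have h9 : (9 : ℤ) = 3 * 3 := by norm_num
    rw [h9]
    exact (h7.mul_left h7).mul_left h6

end Pool.Agent.Lib_helper18


end

section

set_option linter.unusedSectionVars false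

/-!
# The two descents
-/

namespace Pool.Agent.Lib_helper18

open Finset Eis Matrix

namespace FData

variable {ι : Type*} [Fintype ι] [DecidableEq ι] (D : FData ι)

/-- cube-freeness -/
theorem dvd_A_cube2 {r0 r1 e0 e1 : ℕ} (h0 : r0.Prime) (h1 : r1.Prime) (h01 : r0 ≠ r1)
    (hp0 : ∀ i, D.p i ≠ r0) (hp1 : ∀ i, D.p i ≠ r1) (he0 : e0 ≤ 2) (he1 : e1 ≤ 2) (r : ℤ)
    (hr : Prime r) : ¬ r ^ 3 ∣ (r0 : ℤ) ^ e0 * (r1 : ℤ) ^ e1 * D.P univ := by
  have h := cube_not_dvd_prod (κ := Option (Option ι))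
    (fun k => k.elim r0 (fun k => k.elim r1 D.p)) (fun k => k.elim e0 (fun k => k.elim e1 D.e))
    (fun k => by
      rcases k with _ | _ | i
      · exact h0
      · exact h1
      · exact D.hp i)
    (fun k l hkl => by
      rcases k with _ | _ | i <;> rcases l with _ | _ | j
      · rfl
      · exact absurd hkl h01
      · exact absurd hkl.symm (hp0 j)
      · exact absurd hkl.symm h01
      · rfl
      · exact absurd hkl.symm (hp1 j)
      · exact absurd hkl (hp0 i)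
      · exact absurd hkl (hp1 i)
      · have := D.inj hkl
        rw [this])
    (fun k => by
      rcases k with _ | _ | i
      · exact he0
      · exact he1
      · rcases D.he i with h | h <;> simp [h])
    univ r hr
  rw [Fintype.prod_option, Fintype.prod_option, ← mul_assoc] at h
  exact h

theorem P_ne_zero (S : Finset ι) : D.P S ≠ 0 :=
  prod_ne_zero_iff.mpr (fun j _ => pow_ne_zero _ (D.prime_int j).ne_zero)

theorem ne_of_mod {q : ℕ} (hq3 : q % 3 = 2) (i : ι) : D.p i ≠ q := fun h => by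
  have := D.h3 i
  rw [h] at this
  omega

theorem not_dvd_pow_nat {q : ℕ} (hq : q.Prime) (hqp : ∀ i, D.p i ≠ q) (i : ι) (k : ℕ) :
    ¬ (D.p i : ℤ) ∣ (q : ℤ) ^ k := by
  intro h
  have := (D.prime_int i).dvd_of_dvd_pow h
  rw [Int.natCast_dvd_natCast, Nat.prime_dvd_prime_iff_eq (D.hp i) hq] at this
  exact hqp i this

theorem sym_w_i (i : ι) : sym (D.π i) w = wt (D.p i) := by
  rw [sym_w' (D.pr i) (D.n3 i), D.hπ i]

theorem sym_w_r {r : ℕ} (hr : r.Prime) (hr3 : r % 3 = 2) : sym (r : Eis) w = -wq r := by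
  rw [sym_w' (prime_inert hr hr3) (inert_n3 hr hr3), norm_natCast, wt_sq (by omega)]

theorem sym_w_pow {l : Eis} (hl : Prime l) (h3 : ¬ l ∣ 3) (k : ℕ) :
    sym l (w ^ k) = (k : ZMod 3) * sym l w :=
  sym_pow hl h3 (not_dvd_of_isUnit hl isUnit_w) k

/-- two inert primes, `A = ±1 mod 9` -/
theorem descent_two {q g r f : ℕ} (y L : ι → ZMod 3) (hq : q.Prime) (hq3 : q % 3 = 2)
    (hg : g = 1 ∨ g = 2) (hr : r.Prime) (hr3 : r % 3 = 2) (hf : f = 1 ∨ f = 2) (hqr : q ≠ r)
    (hy : ∀ i, sym (D.π i) (((q : ℤ) ^ g * (r : ℤ) ^ f : ℤ) : Eis) = y i)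
    (hL : ∀ i, sym (D.π i) (r : Eis) = L i) (hR : (D.NN y L (wq r)).det ≠ 0)
    (hA9 : ((q : ℤ) ^ g * (r : ℤ) ^ f * D.P univ) % 9 = 1 ∨
      ((q : ℤ) ^ g * (r : ℤ) ^ f * D.P univ) % 9 = 8) (x y' z : ℤ) (hz : z ≠ 0)
    (hxyz : x ^ 3 + y' ^ 3 = ((q : ℤ) ^ g * (r : ℤ) ^ f * D.P univ) * z ^ 3) : False := by
  have hqp := D.ne_of_mod hq3
  have hrp := D.ne_of_mod hr3
  have hqi : Prime (q : ℤ) := Nat.prime_iff_prime_int.mp hq
  have hri : Prime (r : ℤ) := Nat.prime_iff_prime_int.mp hr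
  have hC0 : (q : ℤ) ^ g ≠ 0 := pow_ne_zero _ hqi.ne_zero
  have hr0 : (r : ℤ) ^ f ≠ 0 := pow_ne_zero _ hri.ne_zero
  have hf0 : f ≠ 0 := by omega
  have hg0 : g ≠ 0 := by omega
  have hCp := D.not_dvd_pow_nat hq hqp (k := g)
  set A : ℤ := (q : ℤ) ^ g * (r : ℤ) ^ f * D.P univ with hA
  have hA0 : A ≠ 0 := mul_ne_zero (mul_ne_zero hC0 hr0) (D.P_ne_zero _)
  have hqA : (q : ℤ) ∣ A := by
    rw [hA, mul_assoc]; exact Dvd.dvd.mul_right (dvd_pow_self _ hg0) _
  -- the rational side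
  have hQ0 : ∀ {u v t s : ℤ}, IsCoprime u v → IsCoprime u t → IsCoprime v t → u + v + t = 0 →
      u * v * t = A * s ^ 3 → (q : ℤ) ∣ t → ∃ a b c : ℤ, a ^ 3 + b ^ 3 = A * c ^ 3 ∧
      s.natAbs = a.natAbs * b.natAbs * c.natAbs := by
    intro u v t s huv hut hvt hsum hprod hqt
    have h1 : ¬ (q : ℤ) ∣ u * v := by
      intro h
      rcases hqi.dvd_or_dvd h with h | h
      · exact hqi.not_isUnit (hut.isUnit_of_dvd' h hqt)
      · exact hqi.not_isUnit (hvt.isUnit_of_dvd' h hqt)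
    have h2 : (q : ℤ) ^ g ∣ t := by
      apply hqi.pow_dvd_of_dvd_mul_left g h1
      rw [hprod, hA, mul_assoc, mul_assoc]; exact dvd_mul_right _ _
    refine D.qstep2 y L hr hr3 hrp hC0 hf hCp hy hL hR huv hut hvt hsum hprod h2 ?_
    intro d1 d2 d3 a b c n1 n2 hu hv ht hd
    exact row3_one hA9 huv hut hvt hsum hprod n1 n2 hu hv ht (by
      rw [hA, mul_assoc ((q : ℤ) ^ g), ← hd]; ring)
  have hQ : ∀ {u v t s : ℤ}, IsCoprime u v → IsCoprime u t → IsCoprime v t → u + v + t = 0 →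
      u * v * t = A * s ^ 3 → ∃ a b c : ℤ, a ^ 3 + b ^ 3 = A * c ^ 3 ∧
      s.natAbs = a.natAbs * b.natAbs * c.natAbs := by
    intro u v t s huv hut hvt hsum hprod
    have h1 : (q : ℤ) ∣ u * v * t := by rw [hprod]; exact Dvd.dvd.mul_right hqA _
    rcases hqi.dvd_or_dvd h1 with h2 | h2
    · rcases hqi.dvd_or_dvd h2 with h3 | h3
      · exact hQ0 hvt huv.symm hut.symm (by linarith) (by rw [← hprod]; ring) h3
      · exact hQ0 hut huv hvt.symm (by linarith) (by rw [← hprod]; ring) h3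
    · exact hQ0 huv hut hvt hsum hprod h2
  refine no_solution hA0 (D.dvd_A_cube2 hq hr hqr hqp hrp (by omega) (by omega)) ?_ z.natAbs
    x y' z rfl hz hxyz
  intro x y' z hz hco hxyz
  have hP := prime_inert hr hr3
  have hrn3 := inert_n3 hr hr3
  have hcopS : ∀ {η : Eis} {S z : ℤ}, IsCoprime η (conj η) → S * η.norm = A * z ^ 3 →
      (q : ℤ) ^ g ∣ S := by
    intro η S z hcop h
    apply hqi.pow_dvd_of_dvd_mul_right g (inert_not_dvd_norm hq hq3 hcop)
    rw [h, hA, mul_assoc, mul_assoc]; exact dvd_mul_right _ _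
  by_cases h3z : (3 : ℤ) ∣ z
  · obtain ⟨z1, S, η, hz1, hηprim, hηcop, hηim, hηdiff, hcoS, hηS⟩ := caseA_data hco h3z hxyz
    obtain ⟨-, γ, s, t, hγ, hγ3, hS, hzt⟩ := D.kstep2 y L hr hr3 hrp hC0 hf0 hCp hy hL hR
      hηprim hηcop hcoS hηS (hcopS hηcop hηS) (α := 1) (β := -1) (κ := 3 * r3) (c := 0)
      (fun i => not_dvd_of_isUnit (D.pr i) isUnit_one)
      (fun i => by
        rw [dvd_neg]; exact not_dvd_of_isUnit (D.pr i) isUnit_one)
      (fun i h => ((D.pr i).dvd_or_dvd h).elim (D.n3 i) (fun h => D.n3 i (r3_dvd (D.pr i) h)))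
      (fun i => by rw [sym_one (D.pr i) (D.n3 i), zero_mul])
      (fun i => by rw [sym_neg_one (D.pr i) (D.n3 i), zero_mul, neg_zero])
      (fun i => by
        have e : 3 * r3 = (-r3) ^ 3 := by decide
        rw [e]
        exact sym_cube (D.pr i) (D.n3 i)
          (by rw [dvd_neg]; exact fun h => D.n3 i (r3_dvd (D.pr i) h)))
      (not_dvd_of_isUnit hP isUnit_one)
      (by rw [dvd_neg]; exact not_dvd_of_isUnit hP isUnit_one)
      (by rw [sym_one hP hrn3, zero_mul, neg_zero])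
      (by rw [sym_neg_one hP hrn3, zero_mul])
      (by rw [← hηdiff]; ring)
    obtain ⟨α, δ⟩ := γ
    have hcoad : IsCoprime α δ := coprime_coords rfl hγ3 (by rw [← hγ]; exact hηcop)
    have hprod : α * δ * (α - δ) = A * s ^ 3 := by
      have h6 := congrArg Eis.im hγ
      simp only [pow_succ, pow_zero, one_mul, mul_im, mul_re] at h6
      rw [hηim] at h6
      rw [hA, ← hS]
      linarith
    have hc1 : IsCoprime α (δ - α) := by
      obtain ⟨u, v, huv⟩ := hcoad
      exact ⟨u + v, v, by linear_combination huv⟩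
    have hc2 : IsCoprime (-δ) (δ - α) := by
      obtain ⟨u, v, huv⟩ := hcoad
      exact ⟨-(u + v), -u, by linear_combination huv⟩
    obtain ⟨a, b, c, habc, hsabc⟩ := hQ hcoad.neg_right hc1 hc2 (by ring)
      (by rw [← hprod]; ring)
    obtain ⟨h1, h2⟩ := natAbs_lt_of (z := z) (s := s) (t := t) (by rw [hz1, hzt]) hsabc hz
    exact ⟨a, b, c, h1, habc, h2⟩
  · exfalso
    obtain ⟨η, hηprim, hηcop, hηrel, hcoS, hηS⟩ := caseB1_data hco h3z hA9 hxyz
    have h3 : (3 : ZMod 3) = 0 := by decide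
    obtain ⟨hc, -⟩ := D.kstep2 y L hr hr3 hrp hC0 hf0 hCp hy hL hR
      hηprim hηcop hcoS hηS (hcopS hηcop hηS) (α := w) (β := w ^ 2) (κ := -1) (c := 1)
      (fun i => not_dvd_of_isUnit (D.pr i) isUnit_w)
      (fun i => not_dvd_of_isUnit (D.pr i) (isUnit_w.pow 2))
      (fun i => by
        rw [dvd_neg]; exact not_dvd_of_isUnit (D.pr i) isUnit_one)
      (fun i => by rw [D.sym_w_i, one_mul])
      (fun i => by
        rw [sym_w_pow (D.pr i) (D.n3 i), D.sym_w_i]
        push_cast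
        linear_combination (wt (D.p i)) * h3)
      (fun i => sym_neg_one (D.pr i) (D.n3 i))
      (not_dvd_of_isUnit hP isUnit_w)
      (not_dvd_of_isUnit hP (isUnit_w.pow 2))
      (by rw [sym_w_r hr hr3, one_mul])
      (by
        rw [sym_w_pow hP hrn3, sym_w_r hr hr3]
        push_cast
        linear_combination (-(wq r)) * h3)
      (by rw [hηrel]; ring)
    exact absurd hc (by decide)

/-- `9` times one inert prime -/
theorem descent_nine {r f : ℕ} (y L : ι → ZMod 3) (hr : r.Prime) (hr3 : r % 3 = 2)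
    (hf : f = 1 ∨ f = 2)
    (hy : ∀ i, sym (D.π i) (((9 : ℤ) * (r : ℤ) ^ f : ℤ) : Eis) = y i)
    (hL : ∀ i, sym (D.π i) (r : Eis) = L i) (hR : (D.NN y L (wq r)).det ≠ 0)
    (x y' z : ℤ) (hz : z ≠ 0)
    (hxyz : x ^ 3 + y' ^ 3 = ((9 : ℤ) * (r : ℤ) ^ f * D.P univ) * z ^ 3) : False := by
  have hrp := D.ne_of_mod hr3
  have hri : Prime (r : ℤ) := Nat.prime_iff_prime_int.mp hr
  have hr0 : (r : ℤ) ^ f ≠ 0 := pow_ne_zero _ hri.ne_zero
  have hC0 : (9 : ℤ) ≠ 0 := by norm_num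
  have hf0 : f ≠ 0 := by omega
  have h3p : ∀ i, D.p i ≠ 3 := fun i h => by
    have := D.h3 i
    rw [h] at this
    omega
  have hCp : ∀ i, ¬ (D.p i : ℤ) ∣ 9 := by
    intro i h
    have h1 : (D.p i : ℤ) ∣ (3 : ℤ) ^ 2 := by norm_num; exact h
    have h2 := (D.prime_int i).dvd_of_dvd_pow h1
    have h3 : D.p i ∣ 3 := by exact_mod_cast h2
    exact h3p i ((Nat.prime_dvd_prime_iff_eq (D.hp i) Nat.prime_three).mp h3)
  have h3r : ¬ (3 : ℤ) ∣ (r : ℤ) ^ f := by
    intro h
    have := Int.prime_three.dvd_of_dvd_pow h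
    omega
  set A : ℤ := (9 : ℤ) * (r : ℤ) ^ f * D.P univ with hA
  set B : ℤ := (r : ℤ) ^ f * D.P univ with hB
  have hAB : A = 9 * B := by rw [hA, hB]; ring
  have h3B : ¬ (3 : ℤ) ∣ B := fun h =>
    (Int.prime_three.dvd_or_dvd h).elim h3r (D.three_not_dvd_P univ)
  have hA0 : A ≠ 0 := mul_ne_zero (mul_ne_zero hC0 hr0) (D.P_ne_zero _)
  have key3 : ∀ a b : ℤ, IsCoprime a b → (3 : ℤ) ∣ a → ¬ (3 : ℤ) ∣ b :=
    fun a b hab ha hb => Int.prime_three.not_isUnit (hab.isUnit_of_dvd' ha hb)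
  have hQ0 : ∀ {u v t s : ℤ}, IsCoprime u v → IsCoprime u t → IsCoprime v t → u + v + t = 0 →
      u * v * t = A * s ^ 3 → (3 : ℤ) ∣ t → ∃ a b c : ℤ, a ^ 3 + b ^ 3 = A * c ^ 3 ∧
      s.natAbs = a.natAbs * b.natAbs * c.natAbs := by
    intro u v t s huv hut hvt hsum hprod h3t
    have n1 := key3 _ _ hut.symm h3t
    have n2 := key3 _ _ hvt.symm h3t
    have h2 : (9 : ℤ) ∣ t := by
      have h9 : (9 : ℤ) = 3 ^ 2 := by norm_num
      rw [h9]
      apply Int.prime_three.pow_dvd_of_dvd_mul_left 2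
        (fun h => (Int.prime_three.dvd_or_dvd h).elim n1 n2)
      rw [hprod, hA, ← h9, mul_assoc, mul_assoc]; exact dvd_mul_right _ _
    refine D.qstep2 y L hr hr3 hrp hC0 hf hCp hy hL hR huv hut hvt hsum hprod h2 ?_
    intro d1 d2 d3 a b c m1 m2 hu hv ht hd
    have hcube : ∀ d x : ℤ, ¬ (3 : ℤ) ∣ d → ¬ (3 : ℤ) ∣ d * x ^ 3 → wq (d * x ^ 3) = wq d := by
      intro d x hd hdx
      have hx : ¬ (3 : ℤ) ∣ x := fun h => hdx (Dvd.dvd.mul_left (Dvd.dvd.pow h (by norm_num)) _)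
      have hx3 : ¬ (3 : ℤ) ∣ x ^ 3 := fun h => hx (Int.prime_three.dvd_of_dvd_pow h)
      rw [wq_mul hd hx3, wq_cube hx, add_zero]
    have h6 : wq u = wq v := wq_of_add (by omega)
    rw [hu, hv] at h6
    rwa [hcube _ _ m1 (by rw [← hu]; exact n1), hcube _ _ m2 (by rw [← hv]; exact n2)] at h6
  have hQ : ∀ {u v t s : ℤ}, IsCoprime u v → IsCoprime u t → IsCoprime v t → u + v + t = 0 →
      u * v * t = A * s ^ 3 → ∃ a b c : ℤ, a ^ 3 + b ^ 3 = A * c ^ 3 ∧
      s.natAbs = a.natAbs * b.natAbs * c.natAbs := by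
    intro u v t s huv hut hvt hsum hprod
    have h1 : (3 : ℤ) ∣ u * v * t := by
      rw [hprod, hAB]; exact ⟨3 * B * s ^ 3, by ring⟩
    rcases Int.prime_three.dvd_or_dvd h1 with h2 | h2
    · rcases Int.prime_three.dvd_or_dvd h2 with h3 | h3
      · exact hQ0 hvt huv.symm hut.symm (by linarith) (by rw [← hprod]; ring) h3
      · exact hQ0 hut huv hvt.symm (by linarith) (by rw [← hprod]; ring) h3
    · exact hQ0 huv hut hvt hsum hprod h2
  have hcf : ∀ x : ℤ, Prime x → ¬ x ^ 3 ∣ A := by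
    have h := D.dvd_A_cube2 (r0 := 3) (r1 := r) (e0 := 2) (e1 := f) Nat.prime_three hr
      (by omega) h3p hrp (by norm_num) (by omega)
    intro x hx
    have := h x hx
    have e : ((3 : ℕ) : ℤ) ^ 2 = 9 := by norm_num
    rwa [e] at this
  refine no_solution hA0 hcf ?_ z.natAbs x y' z rfl hz hxyz
  intro x y' z hz hco hxyz
  have hP := prime_inert hr hr3
  have hrn3 := inert_n3 hr hr3
  rw [hAB] at hxyz
  obtain ⟨S0, η0, hnl, hηcop0, him0, hdiff0, hcoS0, hηS0⟩ := caseC_data hco hxyz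
  obtain ⟨i, hi⟩ := exists_prim hnl
  -- `η0 = η * w ^ (2 i)`
  set η : Eis := η0 * w ^ i with hη
  have hw3 : (w ^ i) * (w ^ (2 * i)) = 1 := by
    rw [← pow_add, show i + 2 * i = 3 * i by ring, pow_mul, w_cube, one_pow]
  have hη0 : η0 = w ^ (2 * i) * η := by
    rw [hη]; linear_combination (-η0) * hw3
  have hη0c : conj η0 = w ^ i * conj η := by
    have h1 : conj η = conj η0 * w ^ (2 * i) := by
      rw [hη, map_mul, map_pow, conj_w, ← pow_mul]
    rw [h1]; linear_combination (-(conj η0)) * hw3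
  have hηnorm : η.norm = η0.norm := by rw [hη, norm_mul, norm_pow, norm_w, one_pow, mul_one]
  have hηcop : IsCoprime η (conj η) := by
    have h1 : conj η = conj η0 * w ^ (2 * i) := by
      rw [hη, map_mul, map_pow, conj_w, ← pow_mul]
    rw [h1, hη]
    have h2 : IsCoprime (η0 * w ^ i) (conj η0) :=
      (isCoprime_mul_unit_right_left (isUnit_w.pow i) _ _).mpr hηcop0
    exact (isCoprime_mul_unit_right_right (isUnit_w.pow (2 * i)) _ _).mpr h2
  have hw27 : ∀ {l : Eis}, Prime l → ¬ l ∣ 3 → ∀ k : ℕ,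
      ¬ l ∣ 3 ^ 3 * w ^ k ∧ sym l (3 ^ 3 * w ^ k) = (k : ZMod 3) * sym l w := by
    intro l hl hl3 k
    have n1 : ¬ l ∣ (3 : Eis) ^ 3 := fun h => hl3 (hl.dvd_of_dvd_pow h)
    have n2 : ¬ l ∣ w ^ k := not_dvd_of_isUnit hl (isUnit_w.pow k)
    refine ⟨fun h => (hl.dvd_or_dvd h).elim n1 n2, ?_⟩
    rw [sym_mul hl hl3 n1 n2, sym_cube hl hl3 hl3, zero_add, sym_w_pow hl hl3]
  have h3 : (3 : ZMod 3) = 0 := by decide
  obtain ⟨hc, γ, s, t, hγ, hγ3, hS, hzt⟩ := D.kstep2 y L hr hr3 hrp hC0 hf0 hCp hy hL hR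
    (η := η) (S := 9 * S0) (z := z) hi hηcop (by rw [hηnorm]; exact hcoS0)
    (by rw [hηnorm]; show 9 * S0 * η0.norm = A * z ^ 3; rw [hAB]; linear_combination 9 * hηS0)
    (dvd_mul_right _ _)
    (α := 3 ^ 3 * w ^ (2 * i)) (β := -(3 ^ 3 * w ^ i)) (κ := 3 * r3)
    (c := ((2 * i : ℕ) : ZMod 3))
    (fun j => (hw27 (D.pr j) (D.n3 j) _).1)
    (fun j => by rw [dvd_neg]; exact (hw27 (D.pr j) (D.n3 j) _).1)
    (fun i h => ((D.pr i).dvd_or_dvd h).elim (D.n3 i) (fun h => D.n3 i (r3_dvd (D.pr i) h)))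
    (fun j => by rw [(hw27 (D.pr j) (D.n3 j) _).2, D.sym_w_i])
    (fun j => by
      rw [sym_neg (D.pr j) (D.n3 j) (hw27 (D.pr j) (D.n3 j) _).1, (hw27 (D.pr j) (D.n3 j) _).2,
        D.sym_w_i]
      push_cast
      linear_combination (i * wt (D.p j)) * h3)
    (fun i => by
      have e : 3 * r3 = (-r3) ^ 3 := by decide
      rw [e]
      exact sym_cube (D.pr i) (D.n3 i)
        (by rw [dvd_neg]; exact fun h => D.n3 i (r3_dvd (D.pr i) h)))
    (hw27 hP hrn3 _).1
    (by rw [dvd_neg]; exact (hw27 hP hrn3 _).1)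
    (by rw [(hw27 hP hrn3 _).2, sym_w_r hr hr3]; ring)
    (by
      rw [sym_neg hP hrn3 (hw27 hP hrn3 _).1, (hw27 hP hrn3 _).2, sym_w_r hr hr3]
      push_cast
      linear_combination (-(i * wq r)) * h3)
    (by
      have h1 : 3 ^ 3 * w ^ (2 * i) * η + -(3 ^ 3 * w ^ i) * conj η =
          3 ^ 3 * (η0 - conj η0) := by
        linear_combination (-(3 ^ 3 : Eis)) * hη0 + 3 ^ 3 * hη0c
      rw [h1, hdiff0]
      push_cast
      ring)
  -- now `w ^ i = 1`
  have hi3 : 3 ∣ i := by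
    rw [ZMod.natCast_eq_zero_iff] at hc
    omega
  have hwi : w ^ i = 1 := by
    obtain ⟨k, hk⟩ := hi3
    rw [hk, pow_mul, w_cube, one_pow]
  have hηη : η = η0 := by rw [hη, hwi, mul_one]
  have him : η.im = S0 := by rw [hηη]; exact him0
  have h3S0 : (3 : ℤ) ∣ S0 := by rw [← him]; exact hi.1
  have hS' : S0 = B * s ^ 3 := by
    have h9 : (9 : ℤ) ≠ 0 := by norm_num
    apply mul_left_cancel₀ h9
    rw [hS, hB]; ring
  have h3s : (3 : ℤ) ∣ s := by
    rw [hS'] at h3S0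
    exact Int.prime_three.dvd_of_dvd_pow ((Int.prime_three.dvd_or_dvd h3S0).resolve_left h3B)
  obtain ⟨s', hs'⟩ := h3s
  obtain ⟨α, δ⟩ := γ
  have hcoad : IsCoprime α δ := coprime_coords rfl hγ3 (by rw [← hγ]; exact hηcop)
  have hprod : α * δ * (α - δ) = A * s' ^ 3 := by
    have h6 := congrArg Eis.im hγ
    simp only [pow_succ, pow_zero, one_mul, mul_im, mul_re] at h6
    rw [him, hS', hs'] at h6
    rw [hAB]
    have h3' : (3 : ℤ) ≠ 0 := by norm_num
    apply mul_left_cancel₀ h3'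
    linear_combination -h6
  have hc1 : IsCoprime α (δ - α) := by
    obtain ⟨u, v, huv⟩ := hcoad
    exact ⟨u + v, v, by linear_combination huv⟩
  have hc2 : IsCoprime (-δ) (δ - α) := by
    obtain ⟨u, v, huv⟩ := hcoad
    exact ⟨-(u + v), -u, by linear_combination huv⟩
  obtain ⟨a, b, c, habc, hsabc⟩ := hQ hcoad.neg_right hc1 hc2 (by ring)
    (by rw [← hprod]; ring)
  obtain ⟨h1, h2⟩ := natAbs_lt_of (z := z) (s := s') (t := t) (by rw [hzt, hs']; ring) hsabc hz
  exact ⟨a, b, c, h1, habc, h2⟩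

end FData

end Pool.Agent.Lib_helper18


end

section

/-!
# A product formula for two inert primes
-/

namespace Pool.Agent.Lib_helper84.Cub

open Pool.Agent.Lib_helper18 Pool.Agent.Lib_helper18.Eis

theorem three_zmod : (3 : ZMod 3) = 0 := by decide

/-- an inert prime does not divide 3 -/
theorem n3 {q : ℕ} (hq : q.Prime) (h : q % 3 = 2) : ¬ (q : Eis) ∣ 3 := by
  intro h'
  have h1 : ((q : ℤ) : Eis) ∣ ((3 : ℤ) : Eis) := by
    rw [← three_eq_cast, Int.cast_natCast]; exact h'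
  rw [intCast_dvd_intCast] at h1
  have h2 : q ∣ 3 := by exact_mod_cast h1
  have h4 := (Nat.prime_dvd_prime_iff_eq hq Nat.prime_three).mp h2
  omega

theorem not_lam_dvd_inert {q : ℕ} (hq : q.Prime) (h : q % 3 = 2) : ¬ lam ∣ (q : Eis) :=
  not_lam_dvd_of_prime (prime_inert hq h) (n3 hq h)

/-- the symbol of a rational integer at an inert prime vanishes -/
theorem sym_int {q : ℕ} (hq : q.Prime) (h : q % 3 = 2) {n : ℤ} (hn : ¬ (q : ℤ) ∣ n) :
    sym (q : Eis) (n : Eis) = 0 := by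
  have hP := prime_inert hq h
  have h3 := n3 hq h
  have hn' : ¬ (q : Eis) ∣ (n : Eis) := by
    intro h'
    have : ((q : ℤ) : Eis) ∣ (n : Eis) := by rw [Int.cast_natCast]; exact h'
    rw [intCast_dvd_intCast] at this
    exact hn this
  have := sym_conj hP h3 hn'
  rw [conj_natCast, conj_intCast] at this
  have h2 : (2 : ZMod 3) * sym (q : Eis) (n : Eis) = 0 := by linear_combination this
  have h4 : ∀ x : ZMod 3, 2 * x = 0 → x = 0 := by decide
  exact h4 _ h2

theorem sym_nat {q : ℕ} (hq : q.Prime) (h : q % 3 = 2) {n : ℕ} (hn : ¬ q ∣ n) :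
    sym (q : Eis) (n : Eis) = 0 := by
  have := sym_int hq h (n := (n : ℤ)) (by exact_mod_cast hn)
  simpa using this

theorem not_dvd_w {l : Eis} (hl : Prime l) : ¬ l ∣ w := not_dvd_of_isUnit hl isUnit_w

theorem not_dvd_lam {l : Eis} (h3 : ¬ l ∣ 3) : ¬ l ∣ lam :=
  fun h => h3 (h.trans lam_dvd_three)

theorem sym_inert_lam {q : ℕ} (hq : q.Prime) (h : q % 3 = 2) :
    sym (q : Eis) lam = - sym (q : Eis) w := by
  have hP := prime_inert hq h
  have h3 := n3 hq h
  have hq3 : ¬ (q : ℤ) ∣ 3 := by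
    intro h'
    have h2 : q ∣ 3 := by exact_mod_cast h'
    have h4 := (Nat.prime_dvd_prime_iff_eq hq Nat.prime_three).mp h2
    omega
  have h1 := sym_int hq h hq3
  rw [← three_eq_cast, three_eq] at h1
  have hw := not_dvd_w hP
  have hl := not_dvd_lam h3
  have hw2 : ¬ (q : Eis) ∣ w ^ 2 := fun h => hw (hP.dvd_of_dvd_pow h)
  have hl2 : ¬ (q : Eis) ∣ lam ^ 2 := fun h => hl (hP.dvd_of_dvd_pow h)
  have hw2' : ¬ (q : Eis) ∣ -w ^ 2 := by rwa [dvd_neg]
  rw [sym_mul hP h3 hw2' hl2, sym_neg hP h3 hw2, sym_pow hP h3 hw, sym_pow hP h3 hl] at h1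
  push_cast at h1
  linear_combination (-1 : ZMod 3) * h1 + (sym (q : Eis) w + sym (q : Eis) lam) * three_zmod

/-- **reciprocity** for an inert rational prime -/
theorem recip_inert {q : ℕ} (hq : q.Prime) (h : q % 3 = 2) {l : Eis} (hl : Prime l)
    (hl3 : ¬ l ∣ 3) (hprim : Prim l) (hql : ¬ (q : Eis) ∣ l) :
    sym (q : Eis) l = sym l (q : Eis) := by
  have hP := prime_inert hq h
  have h3 := n3 hq h
  obtain ⟨p0, hp0, hlp, hn⟩ := exists_rational_prime hl
  have hp3 : ¬ 3 ∣ p0 := by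
    intro h'
    have := (Nat.prime_dvd_prime_iff_eq Nat.prime_three hp0).mp h'
    subst this
    exact hl3 (by exact_mod_cast hlp)
  rcases hn with hn | hn
  · have hF : Fact p0.Prime := ⟨hp0⟩
    have h1 : p0 % 3 = 1 := by
      have := norm_emod_three_of_not_lam_dvd (not_lam_dvd_of_prime hl hl3)
      rw [hn] at this
      omega
    have h3q : ¬ 3 ∣ q := by omega
    refine (recip h1 hn hprim.1 hP h3 (prim_natCast h3q) ?_).symm
    intro h'
    exact hql h'.dvd
  · obtain ⟨u, hu⟩ := associated_of_norm_sq hp0 hlp hn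
    have h5 : Prim (l * u) := by rw [hu]; exact prim_natCast hp3
    have h6 := hprim.unit u.isUnit h5
    have hlne : (q : Eis) ∣ (p0 : Eis) → False := by
      intro h'
      apply hql
      rw [← hu] at h'
      exact (Associated.dvd_iff_dvd_right ⟨u, rfl⟩).mpr h'
    have hqp : ¬ q ∣ p0 := by
      intro h'
      exact hlne (by exact_mod_cast (Nat.cast_dvd_cast (α := Eis) h'))
    have hpq : ¬ p0 ∣ q := by
      intro h'
      exact hqp (((Nat.prime_dvd_prime_iff_eq hp0 hq).mp h') ▸ dvd_rfl)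
    have hp03 : p0 % 3 = 2 := by
      by_contra hne
      have h1 : p0 % 3 = 1 := by omega
      -- then p0 splits, contradiction with l of norm p0^2: p0 = π π'
      have hnl : l.norm = (p0 : ℤ) ^ 2 := hn
      obtain ⟨π, hπ⟩ : ∃ π : Eis, π.norm = p0 := by
        have hF : Fact p0.Prime := ⟨hp0⟩
        have hcube : ∃ g : ZMod p0, g ^ 2 + g + 1 = 0 := by
          obtain ⟨k, hk⟩ : 3 ∣ p0 - 1 := by
            have := hp0.two_le
            omega
          obtain ⟨g, hg⟩ := IsCyclic.exists_generator (α := (ZMod p0)ˣ)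
          have hord : orderOf g = p0 - 1 := by
            rw [orderOf_eq_card_of_forall_mem_zpowers hg, Nat.card_eq_fintype_card,
              ZMod.card_units]
          refine ⟨((g ^ k : (ZMod p0)ˣ) : ZMod p0), ?_⟩
          have hk0 : k ≠ 0 := by
            rintro rfl
            have := hp0.two_le
            omega
          have h1' : ((g ^ k : (ZMod p0)ˣ) : ZMod p0) ^ 3 = 1 := by
            rw [← Units.val_pow_eq_pow_val, ← pow_mul, mul_comm k 3, ← hk, ← hord,
              pow_orderOf_eq_one]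
            rfl
          have hne1 : ((g ^ k : (ZMod p0)ˣ) : ZMod p0) ≠ 1 := by
            intro h'
            have h2 : g ^ k = 1 := Units.ext h'
            have h3 := orderOf_dvd_of_pow_eq_one h2
            rw [hord, hk] at h3
            have := Nat.le_of_dvd (by omega) h3
            omega
          have h4 : (((g ^ k : (ZMod p0)ˣ) : ZMod p0) - 1) *
              (((g ^ k : (ZMod p0)ˣ) : ZMod p0) ^ 2 + ((g ^ k : (ZMod p0)ˣ) : ZMod p0) + 1) = 0 := by
            linear_combination h1'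
          exact (mul_eq_zero.mp h4).resolve_left (sub_ne_zero.mpr hne1)
        obtain ⟨g, hg⟩ := hcube
        -- the element gcd (p0, w - g)
        by_contra hno
        -- p0 is prime in Eis
        have hpp : Prime (p0 : Eis) := by
          have : Associated l (p0 : Eis) := ⟨u, hu⟩
          exact this.prime hl
        have hdv : (p0 : Eis) ∣ (⟨-(g.val : ℤ), 1⟩ : Eis) * ⟨(g.val : ℤ) + 1, 1⟩ := by
          rw [natCast_dvd_iff]
          have hgv : ((p0 : ℤ)) ∣ (g.val : ℤ) ^ 2 + g.val + 1 := by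
            rw [← ZMod.intCast_zmod_eq_zero_iff_dvd]
            push_cast
            rw [ZMod.natCast_val, ZMod.cast_id', id]
            exact hg
          obtain ⟨c, hc⟩ := hgv
          constructor
          · refine ⟨-c, ?_⟩
            simp only [mul_re]
            linear_combination (-1 : ℤ) * hc
          · refine ⟨0, ?_⟩
            simp only [mul_im]
            ring
        rcases hpp.dvd_or_dvd hdv with h' | h'
        · rw [natCast_dvd_iff] at h'
          have := h'.2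
          simp only at this
          have h8 := Int.le_of_dvd one_pos this
          have := hp0.two_le
          omega
        · rw [natCast_dvd_iff] at h'
          have := h'.2
          simp only at this
          have h8 := Int.le_of_dvd one_pos this
          have := hp0.two_le
          omega
      have hlass : Associated l (p0 : Eis) := ⟨u, hu⟩
      have hpp : Prime (p0 : Eis) := hlass.prime hl
      have hdv : (p0 : Eis) ∣ π * Eis.conj π := by
        rw [mul_conj, hπ]; simp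
      have hnp : ∀ x : Eis, x.norm = p0 → ¬ (p0 : Eis) ∣ x := by
        intro x hx h'
        obtain ⟨y, hy⟩ := h'
        have h9 := congrArg Eis.norm hy
        rw [norm_mul, norm_natCast, hx] at h9
        have hp0' : (p0 : ℤ) ≠ 0 := by exact_mod_cast hp0.ne_zero
        have h10 : (1 : ℤ) = p0 * y.norm := by
          apply mul_left_cancel₀ hp0'
          linear_combination h9
        have := hp0.two_le
        have h11 : (p0 : ℤ) ∣ 1 := ⟨_, h10⟩
        have h12 := Int.le_of_dvd one_pos h11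
        omega
      rcases hpp.dvd_or_dvd hdv with h' | h'
      · exact hnp _ hπ h'
      · exact hnp _ (by rw [norm_conj, hπ]) h'
    have hz1 : sym (q : Eis) (p0 : Eis) = 0 := sym_nat hq h hqp
    have hz2 : sym (p0 : Eis) (q : Eis) = 0 := sym_nat hp0 hp03 hpq
    have hz3 : sym l (q : Eis) = 0 := by
      rw [← hz2]; exact sym_associated ⟨u, hu⟩
    rw [hz3]
    rcases h6 with h6 | h6
    · rw [h6, mul_one] at hu; rw [hu]; exact hz1
    · rw [h6] at hu
      have : l = -(p0 : Eis) := by rw [← hu]; ring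
      rw [this, sym_neg hP h3 hlne]; exact hz1

end Pool.Agent.Lib_helper84.Cub


end

section

/-!
# Valuations on `Z[ω]` and the product formula
-/

namespace Pool.Agent.Lib_helper84.Cub

open Pool.Agent.Lib_helper18 Pool.Agent.Lib_helper18.Eis

/-- the valuation at a prime (for nonzero elements) -/
noncomputable abbrev V (l x : Eis) : ℕ := multiplicity l x

section

variable {l x y : Eis}

theorem fin (hl : Prime l) (hx : x ≠ 0) : FiniteMultiplicity l x :=
  FiniteMultiplicity.of_prime_left hl hx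

theorem V_mul (hl : Prime l) (hx : x ≠ 0) (hy : y ≠ 0) : V l (x * y) = V l x + V l y :=
  multiplicity_mul hl (fin hl (mul_ne_zero hx hy))

theorem V_eq_zero (h : ¬ l ∣ x) : V l x = 0 := multiplicity_eq_zero.mpr h

theorem V_eq_zero_iff : V l x = 0 ↔ ¬ l ∣ x := multiplicity_eq_zero

theorem V_pow (hl : Prime l) (hx : x ≠ 0) (n : ℕ) : V l (x ^ n) = n * V l x :=
  (fin hl hx).multiplicity_pow hl

theorem V_neg : V l (-x) = V l x := multiplicity_neg l x

theorem V_self : V l l = 1 := multiplicity_self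

theorem V_split (hl : Prime l) (hx : x ≠ 0) : ∃ c, x = l ^ (V l x) * c ∧ ¬ l ∣ c :=
  (fin hl hx).exists_eq_pow_mul_and_not_dvd

theorem V_mul_not_dvd (hl : Prime l) (hx : ¬ l ∣ x) (hy : y ≠ 0) : V l (x * y) = V l y := by
  have hx0 : x ≠ 0 := by rintro rfl; exact hx (dvd_zero _)
  rw [V_mul hl hx0 hy, V_eq_zero hx, zero_add]

theorem V_pow_mul (hl : Prime l) (n : ℕ) (hy : ¬ l ∣ y) : V l (l ^ n * y) = n := by
  have hy0 : y ≠ 0 := by rintro rfl; exact hy (dvd_zero _)
  rw [V_mul hl (pow_ne_zero _ hl.ne_zero) hy0, V_pow hl hl.ne_zero, V_self, V_eq_zero hy]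
  ring

end

theorem N_pos {x : Eis} (hx : x ≠ 0) : 0 < N x := by
  have h1 := norm_pos hx
  have h2 := N_cast x
  omega

theorem N_prime {l : Eis} (hl : Prime l) : 1 < N l := by
  have h1 := N_pos hl.ne_zero
  have h2 := N_cast l
  have h3 : N l ≠ 1 := by
    intro h
    apply hl.not_isUnit
    rw [isUnit_iff_norm, ← h2, h]; rfl
  omega

/-- if `x ^ 3 + B y ^ 3` has no nontrivial zero mod `l` then its valuations are divisible by 3 -/
theorem three_dvd_V {l B : Eis} (hl : Prime l)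
    (hB : ∀ u v : Eis, l ∣ u ^ 3 + B * v ^ 3 → l ∣ u ∧ l ∣ v) :
    ∀ (n : ℕ) (x y : Eis), N x + N y = n → ¬ (x = 0 ∧ y = 0) →
      x ^ 3 + B * y ^ 3 ≠ 0 ∧ 3 ∣ V l (x ^ 3 + B * y ^ 3) := by
  intro n
  induction n using Nat.strong_induction_on with
  | _ n ih =>
    intro x y hn hxy
    by_cases h : l ∣ x ^ 3 + B * y ^ 3
    · obtain ⟨⟨u, rfl⟩, ⟨v, rfl⟩⟩ := hB x y h
      have huv : ¬ (u = 0 ∧ v = 0) := by
        rintro ⟨rfl, rfl⟩; exact hxy (by simp)
      have hlt : N u + N v < n := by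
        rw [← hn, N_mul, N_mul]
        have h1 := N_prime hl
        have h2 : 0 < N u + N v := by
          by_contra h0
          apply huv
          constructor
          · by_contra h3; have := N_pos h3; omega
          · by_contra h3; have := N_pos h3; omega
        nlinarith
      obtain ⟨h1, h2⟩ := ih _ hlt u v rfl huv
      have e : (l * u) ^ 3 + B * (l * v) ^ 3 = l ^ 3 * (u ^ 3 + B * v ^ 3) := by ring
      rw [e]
      refine ⟨mul_ne_zero (pow_ne_zero _ hl.ne_zero) h1, ?_⟩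
      rw [V_mul hl (pow_ne_zero _ hl.ne_zero) h1, V_pow hl hl.ne_zero, V_self]
      omega
    · refine ⟨?_, by rw [V_eq_zero h]; exact dvd_zero _⟩
      intro h0
      rw [h0] at h
      exact h (dvd_zero _)

/-- one factor of `X ^ 3 + Y ^ 3` -/
theorem three_dvd_V_add {l X Y : Eis} (hl : Prime l) (h3 : ¬ l ∣ 3)
    (hXY : ¬ (l ∣ X ∧ l ∣ Y)) (h0 : X ^ 3 + Y ^ 3 ≠ 0) (hV : 3 ∣ V l (X ^ 3 + Y ^ 3)) :
    3 ∣ V l (X + Y) := by
  by_cases h : l ∣ X + Y
  · have e : X ^ 3 + Y ^ 3 = (X + Y) * ((X + w * Y) * (X + w ^ 2 * Y)) := by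
      have h1 := w_rel
      have h2 := w_cube
      linear_combination (-X * Y * (X + Y)) * h1 - (Y ^ 2 * (X + Y)) * h2
    have key : ∀ c : Eis, ¬ l ∣ 1 - c → ¬ l ∣ X + c * Y := by
      intro c hc h'
      have h4 := dvd_sub h h'
      have e4 : X + Y - (X + c * Y) = (1 - c) * Y := by ring
      rw [e4] at h4
      have h5 := (hl.dvd_or_dvd h4).resolve_left hc
      exact hXY ⟨(dvd_add_left h5).mp h, h5⟩
    have k1 : ¬ l ∣ X + w * Y := key w (by rw [← lam_eq]; exact not_dvd_lam h3)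
    have k2 : ¬ l ∣ X + w ^ 2 * Y := key (w ^ 2) (by
      intro h'
      apply h3
      exact h'.trans ⟨1 - w, by decide⟩)
    have k3 : ¬ l ∣ (X + w * Y) * (X + w ^ 2 * Y) := fun h' => (hl.dvd_or_dvd h').elim k1 k2
    rw [e] at hV h0
    have hne := (mul_ne_zero_iff.mp h0)
    rwa [V_mul hl hne.1 hne.2, V_eq_zero k3, add_zero] at hV
  · rw [V_eq_zero h]; exact dvd_zero _

/-- **Lemma B**: a product formula -/
theorem lemmaB {q r : ℕ} (hq : q.Prime) (hq3 : q % 3 = 2) (hr : r.Prime) (hr3 : r % 3 = 2)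
    (a b : ZMod 3) (hw : a * sym (q : Eis) w + b * sym (r : Eis) w = 0) :
    ∀ (n : ℕ) (t : Eis), N t = n → t ≠ 0 → ¬ (q : Eis) ∣ t → ¬ (r : Eis) ∣ t →
    (∀ l : Eis, Prime l → ¬ l ∣ 3 → l ∣ t →
      a * sym l (q : Eis) + b * sym l (r : Eis) = 0 ∨ 3 ∣ V l t) →
    a * sym (q : Eis) t + b * sym (r : Eis) t = 0 := by
  have hQ := prime_inert hq hq3
  have hR := prime_inert hr hr3
  have hQ3 := n3 hq hq3
  have hR3 := n3 hr hr3
  intro n
  induction n using Nat.strong_induction_on with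
  | _ n ih =>
    intro t hn ht hqt hrt H
    by_cases hu : IsUnit t
    · obtain ⟨i, hi, hu | hu⟩ := unit_cases hu
      · rw [hu, sym_pow hQ hQ3 (not_dvd_w hQ), sym_pow hR hR3 (not_dvd_w hR)]
        linear_combination (i : ZMod 3) * hw
      · have h1 : ¬ (q : Eis) ∣ w ^ i := fun h => not_dvd_w hQ (hQ.dvd_of_dvd_pow h)
        have h2 : ¬ (r : Eis) ∣ w ^ i := fun h => not_dvd_w hR (hR.dvd_of_dvd_pow h)
        rw [hu, sym_neg hQ hQ3 h1, sym_neg hR hR3 h2, sym_pow hQ hQ3 (not_dvd_w hQ),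
          sym_pow hR hR3 (not_dvd_w hR)]
        linear_combination (i : ZMod 3) * hw
    · obtain ⟨l, hlirr, hlt⟩ := WfDvdMonoid.exists_irreducible_factor hu ht
      have hl : Prime l := hlirr.prime
      by_cases hl3 : l ∣ 3
      · -- the prime above 3
        have hlam : lam ∣ t := ((dvd_three_iff hl).mp hl3).symm.dvd.trans hlt
        obtain ⟨t', rfl⟩ := hlam
        have ht' : t' ≠ 0 := right_ne_zero_of_mul ht
        have hqt' : ¬ (q : Eis) ∣ t' := fun h => hqt (Dvd.dvd.mul_left h _)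
        have hrt' : ¬ (r : Eis) ∣ t' := fun h => hrt (Dvd.dvd.mul_left h _)
        have hlt' : N t' < n := by
          rw [← hn, N_mul]
          have h1 := N_prime prime_lam
          have h2 := N_pos ht'
          nlinarith
        have h1 := ih _ hlt' t' rfl ht' hqt' hrt' (by
          intro m hm hm3 hmt
          rcases H m hm hm3 (Dvd.dvd.mul_left hmt _) with h | h
          · exact Or.inl h
          · right
            rwa [V_mul_not_dvd hm (not_dvd_lam hm3) ht'] at h)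
        rw [sym_mul hQ hQ3 (not_dvd_lam hQ3) hqt', sym_mul hR hR3 (not_dvd_lam hR3) hrt',
          sym_inert_lam hq hq3, sym_inert_lam hr hr3]
        linear_combination h1 - hw
      · rcases H l hl hl3 hlt with hgood | hval
        · -- a good prime
          obtain ⟨t', rfl⟩ := hlt
          have ht' : t' ≠ 0 := right_ne_zero_of_mul ht
          have hqt' : ¬ (q : Eis) ∣ t' := fun h => hqt (Dvd.dvd.mul_left h _)
          have hrt' : ¬ (r : Eis) ∣ t' := fun h => hrt (Dvd.dvd.mul_left h _)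
          have hql : ¬ (q : Eis) ∣ l := fun h => hqt (Dvd.dvd.mul_right h _)
          have hrl : ¬ (r : Eis) ∣ l := fun h => hrt (Dvd.dvd.mul_right h _)
          have hlt' : N t' < n := by
            rw [← hn, N_mul]
            have h1 := N_prime hl
            have h2 := N_pos ht'
            nlinarith
          have h1 := ih _ hlt' t' rfl ht' hqt' hrt' (by
            intro m hm hm3 hmt
            by_cases hass : Associated m l
            · left
              rw [sym_associated hass, sym_associated hass]; exact hgood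
            · rcases H m hm hm3 (Dvd.dvd.mul_left hmt _) with h | h
              · exact Or.inl h
              · right
                have hml : ¬ m ∣ l := fun h' => hass (hm.associated_of_dvd hl h')
                rwa [V_mul_not_dvd hm hml ht'] at h)
          obtain ⟨i, hi⟩ := exists_prim (not_lam_dvd_of_prime hl hl3)
          have hass : Associated (l * w ^ i) l := ⟨(isUnit_w.pow i).unit⁻¹, by
            rw [mul_assoc]; simp⟩
          have hl' : Prime (l * w ^ i) := (hass.symm.prime hl)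
          have hl3' : ¬ (l * w ^ i) ∣ 3 := fun h => hl3 (hass.symm.dvd.trans h)
          have hwq : ¬ (q : Eis) ∣ w ^ i := fun h => not_dvd_w hQ (hQ.dvd_of_dvd_pow h)
          have hwr : ¬ (r : Eis) ∣ w ^ i := fun h => not_dvd_w hR (hR.dvd_of_dvd_pow h)
          have r1 := recip_inert hq hq3 hl' hl3' hi (fun h => (hQ.dvd_or_dvd h).elim hql hwq)
          have r2 := recip_inert hr hr3 hl' hl3' hi (fun h => (hR.dvd_or_dvd h).elim hrl hwr)
          rw [sym_associated hass, sym_mul hQ hQ3 hql hwq, sym_pow hQ hQ3 (not_dvd_w hQ)] at r1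
          rw [sym_associated hass, sym_mul hR hR3 hrl hwr, sym_pow hR hR3 (not_dvd_w hR)] at r2
          rw [sym_mul hQ hQ3 hql hqt', sym_mul hR hR3 hrl hrt']
          linear_combination h1 + a * r1 + b * r2 + hgood - (i : ZMod 3) * hw
        · -- valuation divisible by 3
          obtain ⟨c, hc, hlc⟩ := V_split hl ht
          obtain ⟨k, hk⟩ := hval
          have hk0 : k ≠ 0 := by
            rintro rfl
            exact V_eq_zero_iff.mp (by rw [hk]) hlt
          rw [hk] at hc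
          have hc0 : c ≠ 0 := by rintro rfl; exact hlc (dvd_zero _)
          have hpk : l ^ (3 * k) ≠ 0 := pow_ne_zero _ hl.ne_zero
          have hlk : l ∣ l ^ (3 * k) := dvd_pow_self _ (by omega)
          have hqc : ¬ (q : Eis) ∣ c := fun h => hqt (by rw [hc]; exact Dvd.dvd.mul_left h _)
          have hrc : ¬ (r : Eis) ∣ c := fun h => hrt (by rw [hc]; exact Dvd.dvd.mul_left h _)
          have hqk : ¬ (q : Eis) ∣ l ^ (3 * k) := fun h => hqt (by
            rw [hc]; exact Dvd.dvd.mul_right h _)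
          have hrk : ¬ (r : Eis) ∣ l ^ (3 * k) := fun h => hrt (by
            rw [hc]; exact Dvd.dvd.mul_right h _)
          have hql : ¬ (q : Eis) ∣ l := fun h => hqk (h.trans hlk)
          have hrl : ¬ (r : Eis) ∣ l := fun h => hrk (h.trans hlk)
          have hlt' : N c < n := by
            rw [← hn, hc, N_mul]
            have h1 : 1 < N (l ^ (3 * k)) := by
              have : N (l ^ (3 * k)) = (N l) ^ (3 * k) := by
                have h5 : ((N (l ^ (3 * k)) : ℕ) : ℤ) = ((N l) ^ (3 * k) : ℕ) := by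
                  rw [N_cast, norm_pow]; push_cast; rw [N_cast]
                exact_mod_cast h5
              rw [this]
              exact Nat.one_lt_pow (by omega) (N_prime hl)
            have h2 := N_pos hc0
            nlinarith
          have h1 := ih _ hlt' c rfl hc0 hqc hrc (by
            intro m hm hm3 hmt
            have hml : ¬ m ∣ l ^ (3 * k) := by
              intro h'
              have h6 := hm.dvd_of_dvd_pow h'
              have := hm.associated_of_dvd hl h6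
              exact hlc (this.symm.dvd.trans hmt)
            rcases H m hm hm3 (by rw [hc]; exact Dvd.dvd.mul_left hmt _) with h | h
            · exact Or.inl h
            · right
              rwa [hc, V_mul_not_dvd hm hml hc0] at h)
          rw [hc, sym_mul hQ hQ3 hqk hqc, sym_mul hR hR3 hrk hrc, sym_pow hQ hQ3 hql,
            sym_pow hR hR3 hrl]
          push_cast
          linear_combination h1 + (a * k * sym (q : Eis) l + b * k * sym (r : Eis) l) * three_zmod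

end Pool.Agent.Lib_helper84.Cub


end

section

/-!
# The product formula for one inert prime, with the term at the prime above 3
-/

namespace Pool.Agent.Lib_helper84.Cub

open Pool.Agent.Lib_helper18 Pool.Agent.Lib_helper18.Eis

theorem Prim.ndvd3 {t l : Eis} (hl : Prime l) (ht : Prim t) (hlt : l ∣ t) : ¬ l ∣ 3 := by
  intro h
  exact ht.not_lam_dvd (((dvd_three_iff hl).mp h).symm.dvd.trans hlt)

/-- the product formula for a primary element -/
theorem lemmaB1_prim {q : ℕ} (hq : q.Prime) (hq3 : q % 3 = 2) :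
    ∀ (n : ℕ) (t : Eis), N t = n → Prim t → ¬ (q : Eis) ∣ t →
    (∀ l : Eis, Prime l → ¬ l ∣ 3 → l ∣ t → sym l (q : Eis) = 0 ∨ 3 ∣ V l t) →
    sym (q : Eis) t = 0 := by
  have hQ := prime_inert hq hq3
  have hQ3 := n3 hq hq3
  intro n
  induction n using Nat.strong_induction_on with
  | _ n ih =>
    intro t hn hprim hqt H
    have ht : t ≠ 0 := by rintro rfl; exact hqt (dvd_zero _)
    by_cases hu : IsUnit t
    · have h1 := Prim.unit prim_one hu (by rwa [one_mul])
      rcases h1 with rfl | rfl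
      · exact sym_one hQ hQ3
      · have h2 : ¬ (q : Eis) ∣ 1 := not_dvd_of_isUnit hQ isUnit_one
        rw [sym_neg hQ hQ3 h2, sym_one hQ hQ3]
    · obtain ⟨l, hlirr, hlt⟩ := WfDvdMonoid.exists_irreducible_factor hu ht
      have hl : Prime l := hlirr.prime
      have hl3 : ¬ l ∣ 3 := Prim.ndvd3 hl hprim hlt
      rcases H l hl hl3 hlt with hgood | hval
      · -- a good prime; make it primary
        obtain ⟨i, hi⟩ := exists_prim (not_lam_dvd_of_prime hl hl3)
        have hass : Associated (l * w ^ i) l := ⟨(isUnit_w.pow i).unit⁻¹, by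
          rw [mul_assoc]; simp⟩
        have hl' : Prime (l * w ^ i) := (hass.symm.prime hl)
        have hl3' : ¬ (l * w ^ i) ∣ 3 := fun h => hl3 (hass.symm.dvd.trans h)
        obtain ⟨t', ht'e⟩ : l * w ^ i ∣ t := hass.dvd.trans hlt
        have ht'p : Prim t' := hi.of_mul (by rw [← ht'e]; exact hprim)
        have ht' : t' ≠ 0 := by
          rintro rfl
          rw [mul_zero] at ht'e
          exact ht ht'e
        have hqt' : ¬ (q : Eis) ∣ t' := fun h => hqt (by rw [ht'e]; exact Dvd.dvd.mul_left h _)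
        have hql' : ¬ (q : Eis) ∣ l * w ^ i := fun h => hqt (by
          rw [ht'e]; exact Dvd.dvd.mul_right h _)
        have hlt' : N t' < n := by
          rw [← hn, ht'e, N_mul]
          have h1 := N_prime hl'
          have h2 := N_pos ht'
          nlinarith
        have h1 := ih _ hlt' t' rfl ht'p hqt' (by
          intro m hm hm3 hmt
          by_cases hass' : Associated m (l * w ^ i)
          · left
            rw [sym_associated (hass'.trans hass)]; exact hgood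
          · rcases H m hm hm3 (by rw [ht'e]; exact Dvd.dvd.mul_left hmt _) with h | h
            · exact Or.inl h
            · right
              have hml : ¬ m ∣ l * w ^ i := fun h' => hass' (hm.associated_of_dvd hl' h')
              rwa [ht'e, V_mul_not_dvd hm hml ht'] at h)
        have r1 := recip_inert hq hq3 hl' hl3' hi hql'
        rw [ht'e, sym_mul hQ hQ3 hql' hqt', h1, add_zero, r1, sym_associated hass, hgood]
      · -- valuation divisible by 3
        obtain ⟨i, hi⟩ := exists_prim (not_lam_dvd_of_prime hl hl3)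
        have hass : Associated (l * w ^ i) l := ⟨(isUnit_w.pow i).unit⁻¹, by
          rw [mul_assoc]; simp⟩
        have hl' : Prime (l * w ^ i) := (hass.symm.prime hl)
        have hVe : V (l * w ^ i) t = V l t := multiplicity_eq_of_associated_left hass.symm
        obtain ⟨c, hc, hlc⟩ := V_split hl' ht
        obtain ⟨k, hk⟩ := hval
        have hk0 : k ≠ 0 := by
          rintro rfl
          exact V_eq_zero_iff.mp (by rw [hk]) hlt
        rw [hVe, hk] at hc
        have hc0 : c ≠ 0 := by rintro rfl; exact hlc (dvd_zero _)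
        have hcp : Prim c := (hi.pow (3 * k)).of_mul (by rw [← hc]; exact hprim)
        have hpk : (l * w ^ i) ^ (3 * k) ≠ 0 := pow_ne_zero _ hl'.ne_zero
        have hlk : l * w ^ i ∣ (l * w ^ i) ^ (3 * k) := dvd_pow_self _ (by omega)
        have hqc : ¬ (q : Eis) ∣ c := fun h => hqt (by rw [hc]; exact Dvd.dvd.mul_left h _)
        have hqk : ¬ (q : Eis) ∣ (l * w ^ i) ^ (3 * k) := fun h => hqt (by
          rw [hc]; exact Dvd.dvd.mul_right h _)
        have hql : ¬ (q : Eis) ∣ l * w ^ i := fun h => hqk (h.trans hlk)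
        have hlt' : N c < n := by
          rw [← hn, hc, N_mul]
          have h1 : 1 < N ((l * w ^ i) ^ (3 * k)) := by
            have : N ((l * w ^ i) ^ (3 * k)) = (N (l * w ^ i)) ^ (3 * k) := by
              have h5 : ((N ((l * w ^ i) ^ (3 * k)) : ℕ) : ℤ) = ((N (l * w ^ i)) ^ (3 * k) : ℕ) := by
                rw [N_cast, Eis.norm_pow]; push_cast; rw [N_cast]
              exact_mod_cast h5
            rw [this]
            exact Nat.one_lt_pow (by omega) (N_prime hl')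
          have h2 := N_pos hc0
          nlinarith
        have h1 := ih _ hlt' c rfl hcp hqc (by
          intro m hm hm3 hmt
          have hml : ¬ m ∣ (l * w ^ i) ^ (3 * k) := by
            intro h'
            have h6 := hm.dvd_of_dvd_pow h'
            have := hm.associated_of_dvd hl' h6
            exact hlc (this.symm.dvd.trans hmt)
          rcases H m hm hm3 (by rw [hc]; exact Dvd.dvd.mul_left hmt _) with h | h
          · exact Or.inl h
          · right
            rwa [hc, V_mul_not_dvd hm hml hc0] at h)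
        rw [hc, sym_mul hQ hQ3 hqk hqc, sym_pow hQ hQ3 hql, h1]
        push_cast
        linear_combination ((k : ZMod 3) * sym (q : Eis) (l * w ^ i)) * three_zmod

/-- the class of `t` at the prime above 3: `t = lam^j s` with `s w^k` primary gives `-(j+k)` -/
def Cls (t : Eis) (c : ZMod 3) : Prop :=
  ∃ (j k : ℕ) (s : Eis), t = lam ^ j * s ∧ Prim (s * w ^ k) ∧ c = -((j : ZMod 3) + k)

/-- **the product formula for one inert prime** -/
theorem lemmaB1 {q : ℕ} (hq : q.Prime) (hq3 : q % 3 = 2) {t : Eis} {c : ZMod 3}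
    (hqt : ¬ (q : Eis) ∣ t) (hc : Cls t c)
    (H : ∀ l : Eis, Prime l → ¬ l ∣ 3 → l ∣ t → sym l (q : Eis) = 0 ∨ 3 ∣ V l t) :
    sym (q : Eis) t = c * sym (q : Eis) w := by
  have hQ := prime_inert hq hq3
  have hQ3 := n3 hq hq3
  obtain ⟨j, k, s, rfl, hp, rfl⟩ := hc
  have hw := not_dvd_w hQ
  have hl := not_dvd_lam hQ3
  have hlj : ¬ (q : Eis) ∣ lam ^ j := fun h => hl (hQ.dvd_of_dvd_pow h)
  have hwk : ¬ (q : Eis) ∣ w ^ k := fun h => hw (hQ.dvd_of_dvd_pow h)
  have hqs : ¬ (q : Eis) ∣ s := fun h => hqt (Dvd.dvd.mul_left h _)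
  have hs0 : s ≠ 0 := by rintro rfl; exact hqs (dvd_zero _)
  have h1 := lemmaB1_prim hq hq3 _ (s * w ^ k) rfl hp
    (fun h => (hQ.dvd_or_dvd h).elim hqs hwk) (by
      intro l hl hl3 hlt
      have hls : l ∣ s := (hl.dvd_or_dvd hlt).resolve_right (fun h =>
        not_dvd_w hl (hl.dvd_of_dvd_pow h))
      rcases H l hl hl3 (Dvd.dvd.mul_left hls _) with h | h
      · exact Or.inl h
      · right
        have e1 : ¬ l ∣ lam ^ j := fun h => not_dvd_lam hl3 (hl.dvd_of_dvd_pow h)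
        have e2 : ¬ l ∣ w ^ k := fun h => not_dvd_w hl (hl.dvd_of_dvd_pow h)
        rw [V_mul_not_dvd hl e1 hs0] at h
        rwa [mul_comm, V_mul_not_dvd hl e2 hs0])
  rw [sym_mul hQ hQ3 hqs hwk, sym_pow hQ hQ3 hw] at h1
  rw [sym_mul hQ hQ3 hlj hqs, sym_pow hQ hQ3 hl, sym_inert_lam hq hq3]
  linear_combination h1

end Pool.Agent.Lib_helper84.Cub


end

section

/-!
# Case I
-/

namespace Pool.Agent.Lib_helper84.Cub

open Pool.Agent.Lib_helper18 Pool.Agent.Lib_helper18.Eis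

theorem cast_dvd_cast {q : ℕ} {n : ℤ} : (q : Eis) ∣ (n : Eis) ↔ (q : ℤ) ∣ n := by
  have := intCast_dvd_intCast (m := (q : ℤ)) (n := n)
  rwa [Int.cast_natCast] at this

theorem not_dvd_of_coprime {q : ℕ} (hq : q.Prime) {x y : ℤ} (h : IsCoprime x y)
    (hx : (q : ℤ) ∣ x) : ¬ (q : ℤ) ∣ y := by
  intro hy
  exact (Nat.prime_iff_prime_int.mp hq).not_isUnit (h.isUnit_of_dvd' hx hy)

theorem not_dvd_of_coprime' {l : Eis} (hl : Prime l) {x y : ℤ} (h : IsCoprime x y)
    (hx : l ∣ (x : Eis)) : ¬ l ∣ (y : Eis) := by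
  intro hy
  have h2 : IsCoprime (x : Eis) (y : Eis) := by
    obtain ⟨a, b, hab⟩ := h
    refine ⟨a, b, ?_⟩
    have := congrArg (fun n : ℤ => (n : Eis)) hab
    push_cast at this
    exact this
  exact hl.not_isUnit (h2.isUnit_of_dvd' hx hy)

/-- the resolvent -/
def res (X0 X1 X2 : ℤ) : Eis := (X0 : Eis) + w * X1 + w ^ 2 * X2

theorem conj_res (X0 X1 X2 : ℤ) : conj (res X0 X1 X2) = (X0 : Eis) + w ^ 2 * X1 + w * X2 := by
  rw [res, map_add, map_add, map_mul, map_mul, map_pow, conj_w, conj_intCast, conj_intCast,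
    conj_intCast]
  have : (w ^ 2) ^ 2 = w := by decide
  rw [this]

theorem sym_res {q : ℕ} (hq : q.Prime) (hq3 : q % 3 = 2) {X0 X1 X2 : ℤ} (hsum : X0 + X1 + X2 = 0)
    (h01 : IsCoprime X0 X1) (h02 : IsCoprime X0 X2) {c : ZMod 3}
    (hc : (q : ℤ) ∣ X0 ∧ c = 0 ∨ (q : ℤ) ∣ X1 ∧ c = 1 ∨ (q : ℤ) ∣ X2 ∧ c = 2) :
    ¬ (q : Eis) ∣ res X0 X1 X2 ∧ sym (q : Eis) (res X0 X1 X2) = c * sym (q : Eis) w := by
  have hP := prime_inert hq hq3
  have h3 := n3 hq hq3
  have hw := not_dvd_w hP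
  have hl := not_dvd_lam h3
  have hsl := sym_inert_lam hq hq3
  have hcast : ((X0 : Eis) + X1 + X2) = 0 := by exact_mod_cast congrArg (fun n : ℤ => (n : Eis)) hsum
  have key : ∀ (Y : ℤ) (u : Eis), ¬ (q : ℤ) ∣ Y → ¬ (q : Eis) ∣ u →
      (q : Eis) ∣ res X0 X1 X2 - Y * u →
      ¬ (q : Eis) ∣ res X0 X1 X2 ∧ sym (q : Eis) (res X0 X1 X2) = sym (q : Eis) u := by
    intro Y u hY hu h
    have hY' : ¬ (q : Eis) ∣ (Y : Eis) := fun h' => hY (cast_dvd_cast.mp h')
    constructor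
    · intro h'
      have h4 := dvd_sub h' h
      have e4 : res X0 X1 X2 - (res X0 X1 X2 - Y * u) = Y * u := by ring
      rw [e4] at h4
      exact (hP.dvd_or_dvd h4).elim hY' hu
    · rw [sym_congr h, sym_mul hP h3 hY' hu, sym_int hq hq3 hY, zero_add]
  rcases hc with ⟨h, rfl⟩ | ⟨h, rfl⟩ | ⟨h, rfl⟩
  · have hu : ¬ (q : Eis) ∣ w * lam := fun h' => (hP.dvd_or_dvd h').elim hw hl
    obtain ⟨k1, k2⟩ := key X1 (w * lam) (not_dvd_of_coprime hq h01 h) hu (by
      have e : res X0 X1 X2 - X1 * (w * lam) = (X0 : Eis) * (1 - w ^ 2) := by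
        rw [res, lam_eq]
        linear_combination w ^ 2 * hcast
      rw [e]
      exact Dvd.dvd.mul_right (cast_dvd_cast.mpr h) _)
    refine ⟨k1, ?_⟩
    rw [k2, sym_mul hP h3 hw hl, hsl]; ring
  · have hw2 : ¬ (q : Eis) ∣ w ^ 2 := fun h => hw (hP.dvd_of_dvd_pow h)
    have hw2' : ¬ (q : Eis) ∣ -w ^ 2 := by rwa [dvd_neg]
    have hu : ¬ (q : Eis) ∣ -w ^ 2 * lam := fun h' => (hP.dvd_or_dvd h').elim hw2' hl
    obtain ⟨k1, k2⟩ := key X0 (-w ^ 2 * lam) (not_dvd_of_coprime hq h01.symm h) hu (by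
      have e : res X0 X1 X2 - X0 * (-w ^ 2 * lam) = (X1 : Eis) * (w - w ^ 2) := by
        rw [res, lam_eq]
        have h4 := w_cube
        linear_combination w ^ 2 * hcast - (X0 : Eis) * h4
      rw [e]
      exact Dvd.dvd.mul_right (cast_dvd_cast.mpr h) _)
    refine ⟨k1, ?_⟩
    rw [k2, sym_mul hP h3 hw2' hl, sym_neg hP h3 hw2, sym_pow hP h3 hw, hsl]
    push_cast; ring
  · obtain ⟨k1, k2⟩ := key X0 lam (not_dvd_of_coprime hq h02.symm h) hl (by
      have e : res X0 X1 X2 - X0 * lam = (X2 : Eis) * (w ^ 2 - w) := by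
        rw [res, lam_eq]
        linear_combination w * hcast
      rw [e]
      exact Dvd.dvd.mul_right (cast_dvd_cast.mpr h) _)
    refine ⟨k1, ?_⟩
    rw [k2, hsl]
    linear_combination -(sym (q : Eis) w) * three_zmod

/-- for a bad prime `l`, `B` is a noncube modulo `l` -/
theorem bad_B {q r a b : ℕ} {l : Eis} (hl : Prime l) (hl3 : ¬ l ∣ 3) (hlq : ¬ l ∣ (q : Eis))
    (hlr : ¬ l ∣ (r : Eis))
    (hbad : ¬ ((a : ZMod 3) * sym l (q : Eis) + (b : ZMod 3) * sym l (r : Eis) = 0)) :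
    ∀ u v : Eis, l ∣ u ^ 3 + ((q : Eis) ^ a * (r : Eis) ^ b) * v ^ 3 → l ∣ u ∧ l ∣ v := by
  intro u v h
  have hqa : ¬ l ∣ (q : Eis) ^ a := fun h' => hlq (hl.dvd_of_dvd_pow h')
  have hrb : ¬ l ∣ (r : Eis) ^ b := fun h' => hlr (hl.dvd_of_dvd_pow h')
  have hB : ¬ l ∣ (q : Eis) ^ a * (r : Eis) ^ b := fun h' => (hl.dvd_or_dvd h').elim hqa hrb
  by_cases hv : l ∣ v
  · have h1 : l ∣ ((q : Eis) ^ a * (r : Eis) ^ b) * v ^ 3 :=
      Dvd.dvd.mul_left (Dvd.dvd.pow hv (by norm_num)) _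
    exact ⟨hl.dvd_of_dvd_pow ((dvd_add_left h1).mp h), hv⟩
  · exfalso
    apply hbad
    have hv3 : ¬ l ∣ v ^ 3 := fun h' => hv (hl.dvd_of_dvd_pow h')
    have hBv : ¬ l ∣ ((q : Eis) ^ a * (r : Eis) ^ b) * v ^ 3 := fun h' =>
      (hl.dvd_or_dvd h').elim hB hv3
    have hu : ¬ l ∣ u := by
      intro h'
      have h1 : l ∣ u ^ 3 := Dvd.dvd.pow h' (by norm_num)
      exact hBv ((dvd_add_right h1).mp h)
    have h5 : l ∣ ((q : Eis) ^ a * (r : Eis) ^ b) * v ^ 3 - (-u) ^ 3 := by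
      have e : ((q : Eis) ^ a * (r : Eis) ^ b) * v ^ 3 - (-u) ^ 3 =
        u ^ 3 + ((q : Eis) ^ a * (r : Eis) ^ b) * v ^ 3 := by ring
      rw [e]; exact h
    have h6 := sym_congr h5
    have hu' : ¬ l ∣ -u := by rwa [dvd_neg]
    rw [sym_cube hl hl3 hu', sym_mul hl hl3 hB hv3, sym_cube hl hl3 hv, sym_mul hl hl3 hqa hrb,
      sym_pow hl hl3 hlq, sym_pow hl hl3 hlr, add_zero] at h6
    exact h6

/-- **Case I** -/
theorem caseI {q r a b : ℕ} (hq : q.Prime) (hq3 : q % 3 = 2) (hr : r.Prime) (hr3 : r % 3 = 2)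
    (hab : (a : ZMod 3) * sym (q : Eis) w + (b : ZMod 3) * sym (r : Eis) w = 0)
    {B B' C : ℤ} (hB : B = (q : ℤ) ^ a * (r : ℤ) ^ b) (hBB : B * B' = (q * r : ℤ) ^ 3)
    (hqB' : (q : ℤ) ∣ B') (hrB' : (r : ℤ) ∣ B')
    {X0 X1 X2 w0 : ℤ} (hsum : X0 + X1 + X2 = 0) (hprod : X0 * X1 * X2 = B * C * w0 ^ 3)
    (h01 : IsCoprime X0 X1) (h02 : IsCoprime X0 X2)
    {x y z : ℤ} (hP : x ^ 3 + C * y ^ 3 + B' * z ^ 3 = 0)
    (cxy : IsCoprime x (C * y)) (cxz : IsCoprime x (B' * z)) (cyz : IsCoprime (C * y) (B' * z))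
    {cq cr : ZMod 3}
    (hcq : (q : ℤ) ∣ X0 ∧ cq = 0 ∨ (q : ℤ) ∣ X1 ∧ cq = 1 ∨ (q : ℤ) ∣ X2 ∧ cq = 2)
    (hcr : (r : ℤ) ∣ X0 ∧ cr = 0 ∨ (r : ℤ) ∣ X1 ∧ cr = 1 ∨ (r : ℤ) ∣ X2 ∧ cr = 2) :
    (a : ZMod 3) * (cq * sym (q : Eis) w) + (b : ZMod 3) * (cr * sym (r : Eis) w) = 0 := by
  have hQ := prime_inert hq hq3
  have hR := prime_inert hr hr3
  have hQ3 := n3 hq hq3
  have hR3 := n3 hr hr3
  obtain ⟨hqs, hsq⟩ := sym_res hq hq3 hsum h01 h02 hcq
  obtain ⟨hrs, hsr⟩ := sym_res hr hr3 hsum h01 h02 hcr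
  set s := res X0 X1 X2 with hs
  have hqy : ¬ (q : ℤ) ∣ y := fun h => not_dvd_of_coprime hq cyz (Dvd.dvd.mul_left h _)
    (Dvd.dvd.mul_right hqB' _)
  have hry : ¬ (r : ℤ) ∣ y := fun h => not_dvd_of_coprime hr cyz (Dvd.dvd.mul_left h _)
    (Dvd.dvd.mul_right hrB' _)
  have hqy' : ¬ (q : Eis) ∣ (y : Eis) := fun h' => hqy (cast_dvd_cast.mp h')
  have hry' : ¬ (r : Eis) ∣ (y : Eis) := fun h' => hry (cast_dvd_cast.mp h')
  set T : Eis := 3 * (w0 : Eis) * ((q : Eis) * (r : Eis) * (z : Eis)) with hT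
  have hqT : (q : Eis) ∣ T := ⟨3 * w0 * (r * z), by rw [hT]; ring⟩
  have hrT : (r : Eis) ∣ T := ⟨3 * w0 * (q * z), by rw [hT]; ring⟩
  have tq : ¬ (q : Eis) ∣ T + s * y := by
    intro h
    have := (dvd_add_right hqT).mp h
    exact (hQ.dvd_or_dvd this).elim hqs hqy'
  have tr : ¬ (r : Eis) ∣ T + s * y := by
    intro h
    have := (dvd_add_right hrT).mp h
    exact (hR.dvd_or_dvd this).elim hrs hry'
  have hcq' : sym (q : Eis) (T + s * y) = cq * sym (q : Eis) w := by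
    have h1 : (q : Eis) ∣ (T + s * y) - s * y := by rw [add_sub_cancel_right]; exact hqT
    rw [sym_congr h1, sym_mul hQ hQ3 hqs hqy', hsq, sym_int hq hq3 hqy, add_zero]
  have hcr' : sym (r : Eis) (T + s * y) = cr * sym (r : Eis) w := by
    have h1 : (r : Eis) ∣ (T + s * y) - s * y := by rw [add_sub_cancel_right]; exact hrT
    rw [sym_congr h1, sym_mul hR hR3 hrs hry', hsr, sym_int hr hr3 hry, add_zero]
  have ht0 : T + s * y ≠ 0 := by
    intro h; rw [h] at tq; exact tq (dvd_zero _)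
  rw [← hcq', ← hcr']
  refine lemmaB hq hq3 hr hr3 _ _ hab _ _ rfl ht0 tq tr ?_
  intro l hl hl3 hlt
  by_cases hgood : (a : ZMod 3) * sym l (q : Eis) + (b : ZMod 3) * sym l (r : Eis) = 0
  · exact Or.inl hgood
  right
  have hlq : ¬ l ∣ (q : Eis) := fun h => tq ((hl.associated_of_dvd hQ h).symm.dvd.trans hlt)
  have hlr : ¬ l ∣ (r : Eis) := fun h => tr ((hl.associated_of_dvd hR h).symm.dvd.trans hlt)
  have hbad := bad_B hl hl3 hlq hlr hgood
  have hBc : (B : Eis) = (q : Eis) ^ a * (r : Eis) ^ b := by rw [hB]; push_cast; rfl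
  rw [← hBc] at hbad
  -- identities
  have hsumE : (X0 : Eis) + X1 + X2 = 0 := by exact_mod_cast congrArg (fun n : ℤ => (n : Eis)) hsum
  have hprodE : (X0 : Eis) * X1 * X2 = B * C * w0 ^ 3 := by
    exact_mod_cast congrArg (fun n : ℤ => (n : Eis)) hprod
  have hBBE : (B : Eis) * B' = (q * r) ^ 3 := by
    exact_mod_cast congrArg (fun n : ℤ => (n : Eis)) hBB
  have hPE : (x : Eis) ^ 3 + C * y ^ 3 + B' * z ^ 3 = 0 := by
    exact_mod_cast congrArg (fun n : ℤ => (n : Eis)) hP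
  have hss : s ^ 3 + (conj s) ^ 3 = B * C * (3 * w0) ^ 3 := by
    have hX2 : (X2 : Eis) = -X0 - X1 := by linear_combination hsumE
    have h4 := w_rel
    have h5 : s ^ 3 + (conj s) ^ 3 = 27 * (X0 * X1 * X2) := by
      rw [hs, conj_res, res, hX2]
      have h6 : w ^ 2 = -1 - w := w_sq
      ring_nf
      have h7 : w ^ 3 = 1 := w_cube
      have h8 : w ^ 4 = w := by decide
      have h9 : w ^ 5 = w ^ 2 := by decide
      have h10 : w ^ 6 = 1 := by decide
      rw [h7, h8, h9, h10, h6]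
      ring
    rw [h5, hprodE]; ring
  have hid : T ^ 3 + (s * y) ^ 3 = -((conj s * y) ^ 3 + B * (3 * w0 * x) ^ 3) := by
    rw [hT]
    linear_combination (y : Eis) ^ 3 * hss - 27 * (w0 : Eis) ^ 3 * z ^ 3 * hBBE +
      27 * (w0 : Eis) ^ 3 * B * hPE
  have hxne : x ≠ 0 ∨ y ≠ 0 := by
    right; rintro rfl; exact hqy (dvd_zero _)
  have hy0 : y ≠ 0 := by rintro rfl; exact hqy (dvd_zero _)
  have hs0 : conj s ≠ 0 := by
    intro h
    have : s = 0 := by
      have := congrArg conj h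
      rwa [conj_conj, map_zero] at this
    rw [this] at hqs
    exact hqs (dvd_zero _)
  have hy0' : (y : Eis) ≠ 0 := by
    intro h
    rw [h] at hqy'
    exact hqy' (dvd_zero _)
  obtain ⟨n0, n1⟩ := three_dvd_V hl hbad _ (conj s * y) (3 * w0 * x) rfl (fun h =>
    (mul_ne_zero hs0 hy0') h.1)
  refine three_dvd_V_add hl hl3 ?_ ?_ ?_
  · -- not both divisible
    rintro ⟨hlT, hlsy⟩
    have hbadP : l ∣ (B : Eis) * (x : Eis) ^ 3 + (q * r * z) ^ 3 → l ∣ (q : Eis) * r * z ∧ l ∣ (x : Eis) := by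
      intro h
      apply hbad
      rwa [add_comm]
    by_cases hly : l ∣ (y : Eis)
    · -- then x³ ≡ - B' z³
      have h1 : l ∣ (B : Eis) * (x : Eis) ^ 3 + (q * r * z) ^ 3 := by
        have e : (B : Eis) * (x : Eis) ^ 3 + (q * r * z) ^ 3 = y * (-(B * C * y ^ 2)) := by
          linear_combination (B : Eis) * hPE - (z : Eis) ^ 3 * hBBE
        rw [e]; exact Dvd.dvd.mul_right hly _
      obtain ⟨-, h2⟩ := hbadP h1
      refine not_dvd_of_coprime' hl cxy h2 ?_
      push_cast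
      exact Dvd.dvd.mul_left hly _
    · have hls : l ∣ s := (hl.dvd_or_dvd hlsy).resolve_right hly
      have hlw : ¬ l ∣ (w0 : Eis) := by
        intro hlw
        have h1 : l ∣ (conj s) ^ 3 := by
          have e : (conj s) ^ 3 = w0 * (27 * B * C * w0 ^ 2) - s * s ^ 2 := by
            linear_combination hss
          rw [e]
          exact dvd_sub (Dvd.dvd.mul_right hlw _) (Dvd.dvd.mul_right hls _)
        have h2 : l ∣ conj s := hl.dvd_of_dvd_pow h1
        have h3 : l ∣ 3 * (X0 : Eis) := by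
          have e : 3 * (X0 : Eis) = s + conj s := by
            rw [hs, conj_res, res]
            have h4 := w_rel
            linear_combination hsumE - ((X1 : Eis) + X2) * h4
          rw [e]; exact dvd_add hls h2
        have h5 : l ∣ 3 * (X1 : Eis) := by
          have e : 3 * (X1 : Eis) = w ^ 2 * s + w * conj s := by
            rw [hs, conj_res, res]
            have h4 := w_rel
            have h6 := w_cube
            have h7 : w ^ 4 = w := by decide
            linear_combination hsumE - 2 * (X1 : Eis) * h6 - (X0 + X2) * h4 - (X2 : Eis) * h7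
          rw [e]; exact dvd_add (Dvd.dvd.mul_left hls _) (Dvd.dvd.mul_left h2 _)
        exact not_dvd_of_coprime' hl h01 ((hl.dvd_or_dvd h3).resolve_left hl3)
          ((hl.dvd_or_dvd h5).resolve_left hl3)
      have hlz : l ∣ (z : Eis) := by
        rw [hT] at hlT
        rcases hl.dvd_or_dvd hlT with h | h
        · exact absurd ((hl.dvd_or_dvd h).resolve_left hl3) hlw
        · rcases hl.dvd_or_dvd h with h | h
          · exact absurd h (fun h => (hl.dvd_or_dvd h).elim hlq hlr)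
          · exact h
      -- B C (3w0)³ ≡ s̄³, x³ ≡ -C y³
      have h1 : l ∣ (conj s * y) ^ 3 + (B : Eis) * (3 * w0 * x) ^ 3 := by
        have e : (conj s * y) ^ 3 + (B : Eis) * (3 * w0 * x) ^ 3 =
            z * (-(27 * w0 ^ 3 * B * B' * z ^ 2)) + s * (-(s ^ 2 * y ^ 3)) := by
          linear_combination (y : Eis) ^ 3 * hss + 27 * (w0 : Eis) ^ 3 * B * hPE
        rw [e]
        exact dvd_add (Dvd.dvd.mul_right hlz _) (Dvd.dvd.mul_right hls _)
      obtain ⟨-, h2⟩ := hbad _ _ h1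
      have h3 : l ∣ (x : Eis) := by
        rcases hl.dvd_or_dvd h2 with h | h
        · exact absurd ((hl.dvd_or_dvd h).resolve_left hl3) hlw
        · exact h
      refine not_dvd_of_coprime' hl cxz h3 ?_
      push_cast
      exact Dvd.dvd.mul_left hlz _
  · rw [hid]; exact neg_ne_zero.mpr n0
  · rw [hid, V_neg]; exact n1

end Pool.Agent.Lib_helper84.Cub


end
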