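import Mathlib
import Pool.Agent.PTDM.C04
import Pool.Agent.PTDM.C06
import Pool.Agent.PTDM.C07

/-! Parts: Lib_helper18.CubStep0, CubeRank.Lift, Lib_helper84.Cub.StepThree, CubeRank.GLift -/

section

/-!
# The first descent for products of primes `= 2, 5 mod 9`
-/

set_option linter.unusedSectionVars false

namespace Pool.Agent.Lib_helper18.CubStep0

open Finset Pool.Agent.Lib_helper18 Pool.Agent.Lib_helper18.Eis Pool.Agent.Lib_helper84.Cub

variable {m : ℕ} (p e : Fin m → ℕ)

/-- product of the prime powers with index in `S` -/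
def PP (S : Finset (Fin m)) : ℤ := ∏ j ∈ S, (p j : ℤ) ^ e j

/-- position function of two disjoint sets -/
def posOf (J J' : Finset (Fin m)) (j : Fin m) : Fin 3 :=
  if j ∈ J then 0 else if j ∈ J' then 1 else 2

theorem cell_eq (pos : Fin m → Fin 3) (k : Fin 3) :
    cell p e pos k = PP p e (univ.filter (fun j => pos j = k)) := by
  unfold cell PP
  rw [prod_filter]

theorem filter_pos_zero (J J' : Finset (Fin m)) :
    univ.filter (fun j => posOf J J' j = 0) = J := by
  ext j
  rw [mem_filter]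
  simp only [mem_univ, true_and]
  unfold posOf
  split_ifs with h1 h2 <;> simp [h1]

theorem filter_pos_one {J J' : Finset (Fin m)} (h : J' ⊆ univ \ J) :
    univ.filter (fun j => posOf J J' j = 1) = J' := by
  ext j
  rw [mem_filter]
  simp only [mem_univ, true_and]
  unfold posOf
  by_cases h1 : j ∈ J
  · have h2 : j ∉ J' := fun h3 => (mem_sdiff.mp (h h3)).2 h1
    simp [h1, h2]
  · by_cases h2 : j ∈ J'
    · simp [h1, h2]
    · simp [h1, h2]

theorem filter_pos_two (J J' : Finset (Fin m)) :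
    univ.filter (fun j => posOf J J' j = 2) = (univ \ J) \ J' := by
  ext j
  rw [mem_filter]
  simp only [mem_univ, true_and, mem_sdiff]
  unfold posOf
  by_cases h1 : j ∈ J
  · simp [h1]
  · by_cases h2 : j ∈ J'
    · simp [h1, h2]
    · simp [h1, h2]

/-- the conclusion of Step 0 -/
def Concl0 : Prop :=
  ∃ (pos : Fin m → Fin 3) (x : Fin 3 → ℤ), (∀ k, ∃ j, pos j ≠ k) ∧ IsPt p e pos x ∧
    ((∏ i, (p i : ℤ) ^ e i) % 9 = 1 ∨ (∏ i, (p i : ℤ) ^ e i) % 9 = 8 →
      ∀ k k', wq (cell p e pos k) = wq (cell p e pos k'))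

variable {p e}

theorem three_not_dvd_PP (hp : ∀ i, p i % 9 = 2 ∨ p i % 9 = 5) (S : Finset (Fin m)) :
    ¬ (3 : ℤ) ∣ PP p e S := by
  intro h
  rw [PP, Int.prime_three.dvd_finsetProd_iff] at h
  obtain ⟨j, -, h⟩ := h
  have h1 := Int.prime_three.dvd_of_dvd_pow h
  have := hp j
  omega

/-- three coprime integers with sum `0` and product `A s^3` give the conclusion or a smaller
solution. -/
theorem three_split (hp : ∀ i, (p i).Prime) (hp9 : ∀ i, p i % 9 = 2 ∨ p i % 9 = 5)
    (he : ∀ i, e i = 1 ∨ e i = 2) (hnot : ¬ Concl0 p e) {u v t s : ℤ} (hs0 : s ≠ 0)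
    (huv : IsCoprime u v) (hut : IsCoprime u t) (hvt : IsCoprime v t) (hsum : u + v + t = 0)
    (hprod : u * v * t = PP p e univ * s ^ 3) :
    ∃ a b c : ℤ, a ^ 3 + b ^ 3 = PP p e univ * c ^ 3 ∧
      s.natAbs = a.natAbs * b.natAbs * c.natAbs := by
  have he0 : ∀ i, e i ≠ 0 := fun i => by have := he i; omega
  obtain ⟨J, -, a, w, hu, hw, hs1⟩ := split_two p e hp he0 univ u (v * t) s (huv.mul_right hut)
    (by rw [← mul_assoc]; exact hprod)
  obtain ⟨J', hJ', b, c, hv, ht, hs2⟩ := split_two p e hp he0 (univ \ J) v t w hvt hw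
  change u = PP p e J * a ^ 3 at hu
  change v = PP p e J' * b ^ 3 at hv
  change t = PP p e ((univ \ J) \ J') * c ^ 3 at ht
  have hs : s = a * b * c := by rw [hs1, hs2]; ring
  have ha0 : a ≠ 0 := by rintro rfl; apply hs0; rw [hs]; ring
  have hb0 : b ≠ 0 := by rintro rfl; apply hs0; rw [hs]; ring
  have hc0 : c ≠ 0 := by rintro rfl; apply hs0; rw [hs]; ring
  have hPd : PP p e J * PP p e J' * PP p e ((univ \ J) \ J') = PP p e univ := by
    rw [mul_assoc]
    unfold PP
    rw [mul_comm (∏ j ∈ J', _), prod_sdiff hJ', mul_comm, prod_sdiff (subset_univ J)]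
  have hn3 := three_not_dvd_PP (e := e) hp9
  by_cases hcon : ∀ k, ∃ j, posOf J J' j ≠ k
  · exfalso
    apply hnot
    have c0 : cell p e (posOf J J') 0 = PP p e J := by rw [cell_eq, filter_pos_zero]
    have c1 : cell p e (posOf J J') 1 = PP p e J' := by rw [cell_eq, filter_pos_one hJ']
    have c2 : cell p e (posOf J J') 2 = PP p e ((univ \ J) \ J') := by
      rw [cell_eq, filter_pos_two]
    refine ⟨posOf J J', ![a, b, c], hcon, ⟨?_, ?_, ?_⟩, ?_⟩
    · intro k
      fin_cases k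
      · exact ha0
      · exact hb0
      · exact hc0
    · rw [Fin.sum_univ_three, c0, c1, c2]
      show PP p e J * a ^ 3 + PP p e J' * b ^ 3 + PP p e ((univ \ J) \ J') * c ^ 3 = 0
      rw [← hu, ← hv, ← ht]; exact hsum
    · have d0 : cell p e (posOf J J') 0 * a ∣ u := ⟨a ^ 2, by rw [c0, hu]; ring⟩
      have d1 : cell p e (posOf J J') 1 * b ∣ v := ⟨b ^ 2, by rw [c1, hv]; ring⟩
      have d2 : cell p e (posOf J J') 2 * c ∣ t := ⟨c ^ 2, by rw [c2, ht]; ring⟩
      have h01 := huv.of_isCoprime_of_dvd_left d0 |>.of_isCoprime_of_dvd_right d1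
      have h02 := hut.of_isCoprime_of_dvd_left d0 |>.of_isCoprime_of_dvd_right d2
      have h12 := hvt.of_isCoprime_of_dvd_left d1 |>.of_isCoprime_of_dvd_right d2
      intro i j hij
      fin_cases i <;> fin_cases j
      · exact absurd rfl hij
      · exact h01
      · exact h02
      · exact h01.symm
      · exact absurd rfl hij
      · exact h12
      · exact h02.symm
      · exact h12.symm
      · exact absurd rfl hij
    · intro hA
      have hA' : PP p e univ % 9 = 1 ∨ PP p e univ % 9 = 8 := hA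
      have e1 : wq (PP p e J) = wq (PP p e J') :=
        row3_one hA' huv hut hvt hsum hprod (hn3 _) (hn3 _) hu hv ht hPd
      have e2 : wq (PP p e J) = wq (PP p e ((univ \ J) \ J')) :=
        row3_one hA' hut huv hvt.symm (by linarith) (by rw [← hprod]; ring) (hn3 _) (hn3 _)
          hu ht hv (by rw [← hPd]; ring)
      have key : ∀ k, wq (cell p e (posOf J J') k) = wq (PP p e J) := by
        intro k
        fin_cases k
        · exact congrArg wq c0
        · exact (congrArg wq c1).trans e1.symm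
        · exact (congrArg wq c2).trans e2.symm
      intro k k'
      rw [key, key]
  · push Not at hcon
    obtain ⟨k, hk⟩ := hcon
    have hone : PP p e ∅ = 1 := prod_empty
    fin_cases k
    · have hJ : J = univ := by
        ext j
        have := hk j
        simp only [posOf] at this
        simp only [mem_univ, iff_true]
        by_contra hj
        rw [if_neg hj] at this
        split_ifs at this <;> exact absurd this (by decide)
      have hJ2 : J' = ∅ := by
        apply Finset.subset_empty.mp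
        rw [hJ, Finset.sdiff_self] at hJ'
        exact hJ'
      rw [hJ] at hu ht
      rw [hJ2, hone, one_mul] at hv
      rw [hJ2, Finset.sdiff_self, empty_sdiff, hone, one_mul] at ht
      refine ⟨b, c, -a, ?_, ?_⟩
      · rw [← hv, ← ht]; linear_combination hsum - hu
      · rw [Int.natAbs_neg, hs, Int.natAbs_mul, Int.natAbs_mul]; ring
    · have hJ : J = ∅ := by
        ext j
        have := hk j
        simp only [posOf] at this
        simp only [notMem_empty, iff_false]
        intro hj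
        rw [if_pos hj] at this
        exact absurd this (by decide)
      have hJ2 : J' = univ := by
        ext j
        have := hk j
        simp only [posOf] at this
        simp only [mem_univ, iff_true]
        by_contra hj
        rw [if_neg (by rw [hJ]; exact notMem_empty j), if_neg hj] at this
        exact absurd this (by decide)
      rw [hJ, hone, one_mul] at hu
      rw [hJ2] at hv
      rw [hJ2, hJ, sdiff_empty, Finset.sdiff_self, hone, one_mul] at ht
      refine ⟨a, c, -b, ?_, ?_⟩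
      · rw [← hu, ← ht]; linear_combination hsum - hv
      · rw [Int.natAbs_neg, hs, Int.natAbs_mul, Int.natAbs_mul]; ring
    · have hJ : J = ∅ := by
        ext j
        have := hk j
        simp only [posOf] at this
        simp only [notMem_empty, iff_false]
        intro hj
        rw [if_pos hj] at this
        exact absurd this (by decide)
      have hJ2 : J' = ∅ := by
        ext j
        have := hk j
        simp only [posOf] at this
        simp only [notMem_empty, iff_false]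
        intro hj
        rw [if_neg (by rw [hJ]; exact notMem_empty j), if_pos hj] at this
        exact absurd this (by decide)
      rw [hJ, hone, one_mul] at hu
      rw [hJ2, hone, one_mul] at hv
      rw [hJ2, hJ, sdiff_empty, sdiff_empty] at ht
      refine ⟨a, b, -c, ?_, ?_⟩
      · rw [← hu, ← hv]; linear_combination hsum - ht
      · rw [Int.natAbs_neg, hs, Int.natAbs_mul, Int.natAbs_mul]

/-- all the primes divide the rational side -/
theorem side (hp : ∀ i, (p i).Prime) (hp9 : ∀ i, p i % 9 = 2 ∨ p i % 9 = 5)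
    (he : ∀ i, e i = 1 ∨ e i = 2) {η : Eis} {S z : ℤ} (hηprim : Prim η)
    (hηcop : IsCoprime η (conj η)) (hcoS : IsCoprime S η.norm)
    (hηS : S * η.norm = PP p e univ * z ^ 3) :
    ∃ (γ : Eis) (s t : ℤ), η = γ ^ 3 ∧ ¬ lam ∣ γ ∧ S = PP p e univ * s ^ 3 ∧ z = t * s := by
  have he0 : ∀ i, e i ≠ 0 := fun i => by have := he i; omega
  obtain ⟨J, -, t, s, ht, hs, hz⟩ := split_two p e hp he0 univ η.norm S z hcoS.symm
    (by rw [mul_comm]; exact hηS)
  have hJ : J = ∅ := by
    ext j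
    simp only [notMem_empty, iff_false]
    intro hj
    apply inert_not_dvd_norm (hp j) (by have := hp9 j; omega) hηcop
    rw [ht]
    apply Dvd.dvd.mul_right
    exact (dvd_pow_self _ (he0 j)).trans (dvd_prod_of_mem _ hj)
  subst hJ
  rw [prod_empty, one_mul] at ht
  obtain ⟨γ, hγ, hγ3⟩ := extract (ρ := 1) prim_one (one_dvd _) hηprim hηcop (t := t)
    (by rw [norm_one, one_mul, ht])
  rw [one_mul] at hγ
  refine ⟨γ, s, t, hγ, hγ3, ?_, hz⟩
  rw [hs, sdiff_empty]; rfl

theorem coord_coprime {α δ : ℤ} (hcoad : IsCoprime α δ) (hl : ¬ (3 : ℤ) ∣ α + δ) :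
    IsCoprime (2 * α - δ) (-α - δ) ∧ IsCoprime (2 * α - δ) (2 * δ - α) ∧
      IsCoprime (-α - δ) (2 * δ - α) := by
  have h3n : ∀ n : ℤ, ¬ (3 : ℤ) ∣ n → IsCoprime n 3 := by
    intro n hn
    rw [isCoprime_comm, Int.prime_three.irreducible.coprime_iff_not_dvd]
    exact hn
  have key : ∀ u v : ℤ, (∃ a b c d : ℤ, a * u + b * v = 3 * α ∧ c * u + d * v = 3 * δ) →
      ¬ (3 : ℤ) ∣ u → IsCoprime u v := by
    rintro u v ⟨a, b, c, d, h1, h2⟩ hu
    obtain ⟨m, n, hmn⟩ := hcoad
    have h4 : IsCoprime u (3 : ℤ) := h3n u hu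
    have h5 : ∃ g h : ℤ, g * u + h * v = 3 :=
      ⟨m * a + n * c, m * b + n * d, by linear_combination m * h1 + n * h2 + 3 * hmn⟩
    obtain ⟨g, h, hgh⟩ := h5
    obtain ⟨k, l, hkl⟩ := h4
    exact ⟨k + l * g, l * h, by linear_combination hkl + l * hgh⟩
  exact ⟨key _ _ ⟨1, -1, -1, -2, by ring, by ring⟩ (by omega),
    key _ _ ⟨2, 1, 1, 2, by ring, by ring⟩ (by omega),
    key _ _ ⟨-2, -1, -1, 1, by ring, by ring⟩ (by omega)⟩

theorem PP_big (hm : 2 ≤ m) (hp : ∀ i, (p i).Prime) (hinj : Function.Injective p)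
    (he : ∀ i, e i = 1 ∨ e i = 2) : ¬ PP p e univ ∣ 2 := by
  intro h
  have hpos : ∀ j, (2 : ℤ) ≤ (p j : ℤ) ^ e j := by
    intro j
    have h2 : (2 : ℤ) ≤ p j := by exact_mod_cast (hp j).two_le
    rcases he j with h | h <;> rw [h]
    · linarith
    · nlinarith
  have h0 : (0 : Fin m → ℕ) = 0 := rfl
  let i0 : Fin m := ⟨0, by omega⟩
  let i1 : Fin m := ⟨1, by omega⟩
  have h01 : i0 ≠ i1 := by
    intro h
    have := congrArg Fin.val h
    simp [i0, i1] at this
  have hd : PP p e {i0, i1} ∣ PP p e univ := prod_dvd_prod_of_subset _ _ _ (subset_univ _)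
  have h4 : PP p e {i0, i1} = (p i0 : ℤ) ^ e i0 * (p i1 : ℤ) ^ e i1 := by
    unfold PP
    rw [prod_pair h01]
  have h5 := Int.le_of_dvd (by norm_num) (hd.trans h)
  rw [h4] at h5
  have := hpos i0
  have := hpos i1
  nlinarith

theorem step0 : Step0Stmt := by
  intro m p e hm hp hp9 hinj he hXY
  by_contra hnot
  change ¬ Concl0 p e at hnot
  obtain ⟨X, Y, hXY⟩ := hXY
  have hAcast : X ^ 3 + Y ^ 3 = ((PP p e univ : ℤ) : ℚ) := by
    rw [hXY]; unfold PP; push_cast; rfl
  obtain ⟨x, y, z, hz, hxyz⟩ := integral_solution hAcast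
  have hn3 := three_not_dvd_PP (e := e) hp9
  have hprime : ∀ i, Prime (p i : ℤ) := fun i => Nat.prime_iff_prime_int.mp (hp i)
  have hA0 : PP p e univ ≠ 0 :=
    prod_ne_zero_iff.mpr (fun j _ => pow_ne_zero _ (hprime j).ne_zero)
  have hcf := cube_not_dvd_prod p e hp hinj (fun i => by have := he i; omega) univ
  have hApos : 0 < PP p e univ :=
    prod_pos (fun j _ => pow_pos (by exact_mod_cast (hp j).pos) _)
  refine no_solution hA0 hcf ?_ z.natAbs x y z rfl hz hxyz
  clear hxyz hz x y z hAcast hXY X Y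
  intro x y z hz hco hxyz
  by_cases h3z : (3 : ℤ) ∣ z
  · obtain ⟨z1, S, η, hz1, hηprim, hηcop, hηim, hηdiff, hcoS, hηS⟩ := caseA_data hco h3z hxyz
    obtain ⟨γ, s, t, hγ, hγ3, hS, hzt⟩ := side hp hp9 he hηprim hηcop hcoS hηS
    obtain ⟨α, δ⟩ := γ
    have hcoad : IsCoprime α δ := coprime_coords rfl hγ3 (by rw [← hγ]; exact hηcop)
    have hprod : α * δ * (α - δ) = PP p e univ * s ^ 3 := by
      have h6 := congrArg Eis.im hγ
      simp only [pow_succ, pow_zero, one_mul, mul_im, mul_re] at h6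
      rw [hηim] at h6
      rw [← hS]
      linarith
    have hc1 : IsCoprime α (δ - α) := by
      obtain ⟨u, v, huv⟩ := hcoad
      exact ⟨u + v, v, by linear_combination huv⟩
    have hc2 : IsCoprime (-δ) (δ - α) := by
      obtain ⟨u, v, huv⟩ := hcoad
      exact ⟨-(u + v), -u, by linear_combination huv⟩
    have hs0 : s ≠ 0 := by
      rintro rfl
      apply hz
      rw [hz1, hzt]; ring
    obtain ⟨a, b, c, habc, hsabc⟩ := three_split hp hp9 he hnot hs0 hcoad.neg_right hc1 hc2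
      (by ring) (by rw [← hprod]; ring)
    obtain ⟨h1, h2⟩ := natAbs_lt_of (z := z) (s := s) (t := t) (by rw [hz1, hzt]) hsabc hz
    exact ⟨a, b, c, h1, habc, h2⟩
  · by_cases hA9 : PP p e univ % 9 = 1 ∨ PP p e univ % 9 = 8
    · exfalso
      obtain ⟨η, hηprim, hηcop, hηrel, hcoS, hηS⟩ := caseB1_data hco h3z hA9 hxyz
      obtain ⟨γ, s, t, hγ, hγ3, hS, hzt⟩ := side hp hp9 he hηprim hηcop hcoS hηS
      let i0 : Fin m := ⟨0, by omega⟩
      have hr := hp i0
      have hr3 : p i0 % 3 = 2 := by have := hp9 i0; omega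
      have hP := prime_inert hr hr3
      have hrn3 := FData.inert_n3 hr hr3
      have hdvd : (p i0 : Eis) ∣ w * η + w ^ 2 * conj η := by
        rw [hηrel, dvd_neg]
        have h1 : (p i0 : ℤ) ∣ x + y := by
          rw [hS]
          apply Dvd.dvd.mul_right
          have he0 : e i0 ≠ 0 := by have := he i0; omega
          exact (dvd_pow_self _ he0).trans (dvd_prod_of_mem _ (mem_univ i0))
        have h2 := intCast_dvd_intCast.mpr h1
        rwa [Int.cast_natCast] at h2
      have hnη : ¬ (p i0 : Eis) ∣ η ∧ ¬ (p i0 : Eis) ∣ conj η := by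
        have h0 := inert_not_dvd_norm hr hr3 hηcop
        have h1 : ∀ ξ : Eis, ξ.norm = η.norm → ¬ (p i0 : Eis) ∣ ξ := by
          intro ξ hξ hd
          apply h0
          obtain ⟨c, hc⟩ := hd
          rw [← hξ, hc, norm_mul, norm_natCast]
          exact ⟨p i0 * c.norm, by ring⟩
        exact ⟨h1 _ rfl, h1 _ (norm_conj η)⟩
      have hw1 : ¬ (p i0 : Eis) ∣ w := not_dvd_of_isUnit hP isUnit_w
      have hw2 : ¬ (p i0 : Eis) ∣ w ^ 2 := not_dvd_of_isUnit hP (isUnit_w.pow 2)
      have hγd : ¬ (p i0 : Eis) ∣ γ := fun h => hnη.1 (by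
        rw [hγ]; exact Dvd.dvd.pow h (by norm_num))
      have hγd' : ¬ (p i0 : Eis) ∣ conj γ := fun h => hnη.2 (by
        rw [hγ, map_pow]; exact Dvd.dvd.pow h (by norm_num))
      have hm2 : ¬ (p i0 : Eis) ∣ w ^ 2 * conj η := fun h =>
        (hP.dvd_or_dvd h).elim hw2 hnη.2
      have hc : sym (p i0 : Eis) (w * η) = sym (p i0 : Eis) (w ^ 2 * conj η) := by
        rw [← sym_neg hP hrn3 hm2]
        apply sym_congr
        rw [sub_neg_eq_add]; exact hdvd
      rw [sym_mul hP hrn3 hw1 hnη.1, sym_mul hP hrn3 hw2 hnη.2, hγ, sym_cube hP hrn3 hγd,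
        map_pow, sym_cube hP hrn3 hγd', FData.sym_w_pow hP hrn3, FData.sym_w_r hr hr3] at hc
      have hwq : wq (p i0) = 0 := by
        have h3 : (3 : ZMod 3) = 0 := by decide
        push_cast at hc
        linear_combination hc
      have h9 := hp9 i0
      have h9' : (p i0 : ℤ) % 9 = 2 ∨ (p i0 : ℤ) % 9 = 5 := by omega
      unfold wq at hwq
      rcases h9' with h | h <;> rw [h] at hwq <;> exact absurd hwq (by decide)
    · have hA1 : PP p e univ % 9 ≠ 1 := fun h => hA9 (Or.inl h)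
      have hA8 : PP p e univ % 9 ≠ 8 := fun h => hA9 (Or.inr h)
      obtain ⟨η, hηprim, hηcop, hηsum, hcoS, hηS⟩ := caseB_data hco h3z (hn3 _) hA1 hA8 hxyz
      obtain ⟨γ, s, t, hγ, hγ3, hS, hzt⟩ := side hp hp9 he hηprim hηcop hcoS hηS
      have hs0 : s ≠ 0 := by rintro rfl; simp at hzt; exact hz hzt
      have ht0 : t ≠ 0 := by rintro rfl; simp at hzt; exact hz hzt
      obtain ⟨α, δ⟩ := γ
      have hcoad : IsCoprime α δ := coprime_coords rfl hγ3 (by rw [← hγ]; exact hηcop)
      have hl : ¬ (3 : ℤ) ∣ α + δ := by rw [lam_dvd_iff] at hγ3; exact hγ3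
      have hprod : (2 * α - δ) * (-α - δ) * (2 * δ - α) = PP p e univ * (-s) ^ 3 := by
        have h6 := trace_identity α δ
        rw [← map_pow, ← hγ, hηsum, hS] at h6
        have h7 := congrArg Eis.re h6
        simp only [neg_re, intCast_re] at h7
        rw [← h7]; ring
      obtain ⟨c1, c2, c3⟩ := coord_coprime hcoad hl
      obtain ⟨a, b, c, habc, hsabc⟩ := three_split hp hp9 he hnot (neg_ne_zero.mpr hs0) c1 c2 c3
        (by ring) hprod
      rw [Int.natAbs_neg] at hsabc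
      have hc0 : c ≠ 0 := by
        rintro rfl
        simp at hsabc
        exact hs0 hsabc
      have ha0 : a ≠ 0 := by rintro rfl; simp at hsabc; exact hs0 hsabc
      have hb0 : b ≠ 0 := by rintro rfl; simp at hsabc; exact hs0 hsabc
      refine ⟨a, b, c, hc0, habc, ?_⟩
      have h1 : z.natAbs = t.natAbs * s.natAbs := by rw [hzt, Int.natAbs_mul]
      have ha1 : 1 ≤ a.natAbs := Int.natAbs_pos.mpr ha0
      have hb1 : 1 ≤ b.natAbs := Int.natAbs_pos.mpr hb0
      have hc1 : 1 ≤ c.natAbs := Int.natAbs_pos.mpr hc0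
      have ht1 : 1 ≤ t.natAbs := Int.natAbs_pos.mpr ht0
      have h3 : s.natAbs ≤ t.natAbs * s.natAbs := by
        calc s.natAbs = 1 * s.natAbs := by ring
          _ ≤ t.natAbs * s.natAbs := by gcongr
      by_contra hcon
      have h4 : s.natAbs ≤ c.natAbs := by omega
      -- then |a| = |b| = 1
      have h5 : a.natAbs * b.natAbs = 1 := by
        rw [hsabc] at h4
        by_contra hne
        have h6 : 2 ≤ a.natAbs * b.natAbs := by
          have : 1 ≤ a.natAbs * b.natAbs := Nat.mul_pos ha1 hb1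
          omega
        nlinarith
      have ha2 : a.natAbs = 1 := Nat.eq_one_of_mul_eq_one_right h5
      have hb2 : b.natAbs = 1 := Nat.eq_one_of_mul_eq_one_left h5
      have hcase : PP p e univ * c ^ 3 = 2 ∨ PP p e univ * c ^ 3 = -2 := by
        have hAc : PP p e univ * c ^ 3 ≠ 0 := mul_ne_zero hA0 (pow_ne_zero _ hc0)
        rcases Int.natAbs_eq a with h | h <;> rcases Int.natAbs_eq b with h' | h' <;>
          rw [ha2] at h <;> rw [hb2] at h' <;> rw [h, h'] at habc <;> norm_num at habc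
        · left; exact habc.symm
        · exact absurd habc (by tauto)
        · exact absurd habc (by tauto)
        · right; exact habc.symm
      have hAd : PP p e univ ∣ 2 := by
        rcases hcase with h | h
        · exact ⟨_, h.symm⟩
        · exact ⟨-c ^ 3, by linarith⟩
      exact PP_big hm hp hinj he hAd

end Pool.Agent.Lib_helper18.CubStep0


end

section

/-!
# (M4) every rational point of `X³ + Y³ = A` comes from the 3-isogenous curve
(MP_8e0b0b_nt; mathematics: helper84; cf. `Lib_helper18/CubStep0.lean`, `FD4.lean`)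
-/

set_option autoImplicit false
set_option linter.unusedSectionVars false

namespace Pool.Agent.CubeRank

open Finset Pool.Agent.Lib_helper18 Pool.Agent.Lib_helper18.Eis Pool.Agent.Lib_helper84.Cub
  Pool.Agent.Lib_helper18.CubStep0

section cases

variable {A x y z : ℤ}

/-- `caseA_data` with the additional information `x + w y = λ η` -/
theorem lift_caseA (hco : IsCoprime x y) (h3z : (3 : ℤ) ∣ z) (hxyz : x ^ 3 + y ^ 3 = A * z ^ 3) :
    ∃ (z1 S' : ℤ) (η : Eis), z = 3 * z1 ∧ Prim η ∧ IsCoprime η (conj η) ∧ η.im = 3 * S' ∧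
      (⟨x, y⟩ : Eis) = lam * η ∧ IsCoprime S' η.norm ∧ S' * η.norm = A * z1 ^ 3 := by
  have hcoxy := coprime_sum hco
  have hST : (x + y) * (⟨x, y⟩ : Eis).norm = A * z ^ 3 := by
    rw [← hxyz, norm_def]; ring
  have hno3 : ¬ ((3 : ℤ) ∣ x ∧ (3 : ℤ) ∣ y) := by
    rintro ⟨h1, h2⟩
    exact Int.prime_three.not_isUnit (hco.isUnit_of_dvd' h1 h2)
  obtain ⟨z1, hz1⟩ := h3z
  have h3S : (3 : ℤ) ∣ x + y := by
    have h1 : (3 : ℤ) ∣ x ^ 3 + y ^ 3 := by
      rw [hxyz, hz1]; exact ⟨A * (9 * z1 ^ 3), by ring⟩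
    have h2 : (3 : ℤ) ∣ (x ^ 3 + y ^ 3) - (x + y) := by
      have h4 : ∀ a : ℤ, (3 : ℤ) ∣ a ^ 3 - a := by
        intro a
        have : a % 3 = 0 ∨ a % 3 = 1 ∨ a % 3 = 2 := by omega
        apply Int.dvd_of_emod_eq_zero
        rcases this with h | h | h <;>
          simp [pow_succ, Int.sub_emod, Int.mul_emod, h]
      have := dvd_add (h4 x) (h4 y)
      have e5 : x ^ 3 - x + (y ^ 3 - y) = (x ^ 3 + y ^ 3) - (x + y) := by ring
      rwa [e5] at this
    have := dvd_sub h1 h2
    simpa using this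
  have h3y : ¬ (3 : ℤ) ∣ y := by
    intro h; exact hno3 ⟨by omega, h⟩
  have h3x : ¬ (3 : ℤ) ∣ x := by
    intro h; exact hno3 ⟨h, by omega⟩
  obtain ⟨S0, hS0⟩ := h3S
  have hT : (⟨x, y⟩ : Eis).norm = 3 * (3 * S0 ^ 2 - x * y) := by
    rw [norm_def]; simp only; linear_combination (x + y + 3 * S0) * hS0
  have h3T' : ¬ (3 : ℤ) ∣ 3 * S0 ^ 2 - x * y := by
    intro h
    have : (3 : ℤ) ∣ x * y := by
      have h4 := dvd_sub (dvd_mul_right (3 : ℤ) (S0 ^ 2)) h
      have e5 : 3 * S0 ^ 2 - (3 * S0 ^ 2 - x * y) = x * y := by ring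
      rwa [e5] at h4
    rcases Int.prime_three.dvd_or_dvd this with h | h
    · exact h3x h
    · exact h3y h
  have hST' : S0 * (3 * S0 ^ 2 - x * y) = 3 * (A * z1 ^ 3) := by
    rw [hT, hS0, hz1] at hST
    have h9 : (9 : ℤ) ≠ 0 := by norm_num
    apply mul_left_cancel₀ h9
    linear_combination hST
  have h3S0 : (3 : ℤ) ∣ S0 := by
    have h4 : (3 : ℤ) ∣ S0 * (3 * S0 ^ 2 - x * y) := ⟨_, hST'⟩
    exact (Int.prime_three.dvd_or_dvd h4).resolve_right h3T'
  obtain ⟨S', hS'⟩ := h3S0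
  have hS9 : x + y = 9 * S' := by rw [hS0, hS']; ring
  set η : Eis := ⟨-y + 6 * S', 3 * S'⟩ with hη
  have hηlam : (⟨x, y⟩ : Eis) = lam * η := by
    ext
    · simp only [hη, mul_re, lam_re, lam_im]; linarith
    · simp only [hη, mul_im, lam_re, lam_im]; ring
  have hηnorm : η.norm = 3 * S0 ^ 2 - x * y := by
    have h4 := congrArg Eis.norm hηlam
    rw [norm_mul, norm_lam, hT] at h4
    linarith
  have hηS : S' * η.norm = A * z1 ^ 3 := by
    rw [hηnorm]
    have h9 : (3 : ℤ) ≠ 0 := by norm_num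
    apply mul_left_cancel₀ h9
    rw [← hST', hS']; ring
  have hηprim : Prim η := by
    refine ⟨⟨S', rfl⟩, ?_⟩
    simp only [hη]; omega
  have hηcop : IsCoprime η (conj η) := by
    apply isCoprime_of_prime_dvd
    · rintro ⟨h, -⟩
      exact hηprim.not_lam_dvd (by rw [h]; exact dvd_zero _)
    · intro l hl h1 h2
      have h4 : l ∣ (⟨x, y⟩ : Eis) := by rw [hηlam]; exact Dvd.dvd.mul_left h1 _
      have h5 : l ∣ conj (⟨x, y⟩ : Eis) := by
        rw [hηlam, map_mul]; exact Dvd.dvd.mul_left h2 _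
      have h6 := coprime_xi hco hl h4 h5
      exact hηprim.not_lam_dvd (h6.symm.dvd.trans h1)
  have hcoS : IsCoprime S' η.norm := by
    have h4 : IsCoprime S' (x * y) := hcoxy.of_isCoprime_of_dvd_left ⟨9, by rw [hS9]; ring⟩
    have h5 : η.norm = S' * (27 * S') + -(x * y) := by rw [hηnorm, hS']; ring
    rw [h5]
    exact (IsCoprime.mul_add_left_right h4.neg_right (27 * S'))
  exact ⟨z1, S', η, hz1, hηprim, hηcop, rfl, hηlam, hcoS, hηS⟩

/-- `caseB_data` with the additional information `η = w (x + w y)` -/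
theorem lift_caseB (hco : IsCoprime x y) (h3z : ¬ (3 : ℤ) ∣ z) (hA3 : ¬ (3 : ℤ) ∣ A)
    (hA1 : A % 9 ≠ 1) (hA8 : A % 9 ≠ 8) (hxyz : x ^ 3 + y ^ 3 = A * z ^ 3) :
    ∃ η : Eis, Prim η ∧ IsCoprime η (conj η) ∧ η + conj η = -((x + y : ℤ) : Eis) ∧
      η = w * (⟨x, y⟩ : Eis) ∧
      IsCoprime (x + y) η.norm ∧ (x + y) * η.norm = A * z ^ 3 := by
  have hcoxy := coprime_sum hco
  have hno3 : ¬ ((3 : ℤ) ∣ x ∧ (3 : ℤ) ∣ y) := by
    rintro ⟨h1, h2⟩
    exact Int.prime_three.not_isUnit (hco.isUnit_of_dvd' h1 h2)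
  have h9 : (x ^ 3 % 9 + y ^ 3 % 9) % 9 = (A % 9) * (z ^ 3 % 9) % 9 := by
    rw [← Int.add_emod, ← Int.mul_emod, hxyz]
  have hz := cube_mod_nine_int h3z
  have hA : A % 9 = 2 ∨ A % 9 = 4 ∨ A % 9 = 5 ∨ A % 9 = 7 := by omega
  have h3x : ¬ (3 : ℤ) ∣ x := by
    intro h
    have h1 := cube_mod_nine_int' h
    have h2 := cube_mod_nine_int (a := y) (fun h' => hno3 ⟨h, h'⟩)
    rw [h1] at h9
    rcases h2 with h2 | h2 <;> rcases hz with hz | hz <;> rcases hA with hA | hA | hA | hA <;>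
      rw [h2, hz, hA] at h9 <;> norm_num at h9
  have h3y : ¬ (3 : ℤ) ∣ y := by
    intro h
    have h1 := cube_mod_nine_int' h
    have h2 := cube_mod_nine_int (a := x) (fun h' => hno3 ⟨h', h⟩)
    rw [h1] at h9
    rcases h2 with h2 | h2 <;> rcases hz with hz | hz <;> rcases hA with hA | hA | hA | hA <;>
      rw [h2, hz, hA] at h9 <;> norm_num at h9
  have h3xy : (3 : ℤ) ∣ x - y := by
    by_contra hne
    have hx' : x % 3 = 1 ∨ x % 3 = 2 := by omega
    have hy' : y % 3 = 1 ∨ y % 3 = 2 := by omega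
    have h4 : (3 : ℤ) ∣ x + y := by omega
    obtain ⟨k, hk⟩ := h4
    have h5 : x ^ 3 + y ^ 3 = 9 * (k * (3 * k ^ 2 - x * y)) := by
      have : x = 3 * k - y := by linarith
      rw [this]; ring
    have h6 : (x ^ 3 + y ^ 3) % 9 = 0 := by rw [h5]; omega
    rw [hxyz, Int.mul_emod] at h6
    rcases hz with hz | hz <;> rcases hA with hA | hA | hA | hA <;>
      rw [hz, hA] at h6 <;> norm_num at h6
  set η : Eis := ⟨-y, x - y⟩ with hη
  have hηw : η = w * (⟨x, y⟩ : Eis) := by
    ext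
    · simp only [hη, mul_re, w_re, w_im]; ring
    · simp only [hη, mul_im, w_re, w_im]; ring
  have hnorm : η.norm = (x + y) * (x + y) + -(3 * (x * y)) := by
    rw [norm_def]; simp only [hη]; ring
  have hprim : Prim η := by
    refine ⟨h3xy, ?_⟩
    simp only [hη]; omega
  refine ⟨η, hprim, ?_, ?_, hηw, ?_, ?_⟩
  · apply isCoprime_of_prime_dvd
    · rintro ⟨h, -⟩
      exact hprim.not_lam_dvd (by rw [h]; exact dvd_zero _)
    · intro l hl h1 h2
      have hlw : ¬ l ∣ w := not_dvd_of_isUnit hl isUnit_w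
      have h4 : l ∣ (⟨x, y⟩ : Eis) := by
        rw [hηw] at h1
        exact (hl.dvd_or_dvd h1).resolve_left hlw
      have h5 : l ∣ conj (⟨x, y⟩ : Eis) := by
        rw [hηw, map_mul, conj_w] at h2
        exact (hl.dvd_or_dvd h2).resolve_left (fun h => hlw (hl.dvd_of_dvd_pow h))
      have h6 := coprime_xi hco hl h4 h5
      exact hprim.not_lam_dvd (h6.symm.dvd.trans h1)
  · ext
    · simp only [hη, add_re, conj_re, neg_re, intCast_re]; ring
    · simp only [hη, add_im, conj_im, neg_im, intCast_im]; ring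
  · have hS3 : IsCoprime (x + y) 3 := by
      rw [isCoprime_comm, Int.prime_three.irreducible.coprime_iff_not_dvd]
      omega
    have h4 : IsCoprime (x + y) (3 * (x * y)) := hS3.mul_right hcoxy
    rw [hnorm]
    exact (IsCoprime.mul_add_left_right h4.neg_right (x + y))
  · rw [← hxyz, hnorm]; ring

end cases

/-- the case `3 ∤ z`, `A = ±1 mod 9` is impossible -/
theorem lift_caseB1 {m : ℕ} {p e : Fin m → ℕ} (hm : 1 ≤ m) (hp : ∀ i, (p i).Prime)
    (hp9 : ∀ i, p i % 9 = 2 ∨ p i % 9 = 5) (he : ∀ i, e i = 1 ∨ e i = 2) {x y z : ℤ}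
    (hco : IsCoprime x y) (h3z : ¬ (3 : ℤ) ∣ z)
    (hA9 : PP p e univ % 9 = 1 ∨ PP p e univ % 9 = 8)
    (hxyz : x ^ 3 + y ^ 3 = PP p e univ * z ^ 3) : False := by
  obtain ⟨η, hηprim, hηcop, hηrel, hcoS, hηS⟩ := caseB1_data hco h3z hA9 hxyz
  obtain ⟨γ, s, t, hγ, hγ3, hS, hzt⟩ := side hp hp9 he hηprim hηcop hcoS hηS
  let i0 : Fin m := ⟨0, by omega⟩
  have hr := hp i0
  have hr3 : p i0 % 3 = 2 := by have := hp9 i0; omega
  have hP := prime_inert hr hr3
  have hrn3 := FData.inert_n3 hr hr3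
  have hdvd : (p i0 : Eis) ∣ w * η + w ^ 2 * conj η := by
    rw [hηrel, dvd_neg]
    have h1 : (p i0 : ℤ) ∣ x + y := by
      rw [hS]
      apply Dvd.dvd.mul_right
      have he0 : e i0 ≠ 0 := by have := he i0; omega
      exact (dvd_pow_self _ he0).trans (dvd_prod_of_mem _ (mem_univ i0))
    have h2 := intCast_dvd_intCast.mpr h1
    rwa [Int.cast_natCast] at h2
  have hnη : ¬ (p i0 : Eis) ∣ η ∧ ¬ (p i0 : Eis) ∣ conj η := by
    have h0 := inert_not_dvd_norm hr hr3 hηcop
    have h1 : ∀ ξ : Eis, ξ.norm = η.norm → ¬ (p i0 : Eis) ∣ ξ := by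
      intro ξ hξ hd
      apply h0
      obtain ⟨c, hc⟩ := hd
      rw [← hξ, hc, norm_mul, norm_natCast]
      exact ⟨p i0 * c.norm, by ring⟩
    exact ⟨h1 _ rfl, h1 _ (norm_conj η)⟩
  have hw1 : ¬ (p i0 : Eis) ∣ w := not_dvd_of_isUnit hP isUnit_w
  have hw2 : ¬ (p i0 : Eis) ∣ w ^ 2 := not_dvd_of_isUnit hP (isUnit_w.pow 2)
  have hγd : ¬ (p i0 : Eis) ∣ γ := fun h => hnη.1 (by
    rw [hγ]; exact Dvd.dvd.pow h (by norm_num))
  have hγd' : ¬ (p i0 : Eis) ∣ conj γ := fun h => hnη.2 (by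
    rw [hγ, map_pow]; exact Dvd.dvd.pow h (by norm_num))
  have hm2 : ¬ (p i0 : Eis) ∣ w ^ 2 * conj η := fun h =>
    (hP.dvd_or_dvd h).elim hw2 hnη.2
  have hc : sym (p i0 : Eis) (w * η) = sym (p i0 : Eis) (w ^ 2 * conj η) := by
    rw [← sym_neg hP hrn3 hm2]
    apply sym_congr
    rw [sub_neg_eq_add]; exact hdvd
  rw [sym_mul hP hrn3 hw1 hnη.1, sym_mul hP hrn3 hw2 hnη.2, hγ, sym_cube hP hrn3 hγd,
    map_pow, sym_cube hP hrn3 hγd', FData.sym_w_pow hP hrn3, FData.sym_w_r hr hr3] at hc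
  have hwq : wq (p i0) = 0 := by
    have h3 : (3 : ZMod 3) = 0 := by decide
    push_cast at hc
    linear_combination hc
  have h9 := hp9 i0
  have h9' : (p i0 : ℤ) % 9 = 2 ∨ (p i0 : ℤ) % 9 = 5 := by omega
  unfold wq at hwq
  rcases h9' with h | h <;> rw [h] at hwq <;> exact absurd hwq (by decide)

/-- **(M4)** -/
theorem lift : LiftStmt := by
  intro m p e hm hyp x y z hz hco hxyz
  have hp := hyp.hp
  have hp9 := hyp.h9
  have he := hyp.he
  have hAA : AA p e = PP p e univ := rfl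
  rw [hAA] at hxyz ⊢
  have hn3 := three_not_dvd_PP (e := e) hp9
  have hxy : ((x : Eis) + w * y) = (⟨x, y⟩ : Eis) := by
    ext
    · simp
    · simp
  rw [hxy]
  by_cases h3z : (3 : ℤ) ∣ z
  · obtain ⟨z1, S, η, hz1, hηprim, hηcop, hηim, hηlam, hcoS, hηS⟩ := lift_caseA hco h3z hxyz
    obtain ⟨γ, s, t, hγ, hγ3, hS, hzt⟩ := side hp hp9 he hηprim hηcop hcoS hηS
    obtain ⟨α, δ⟩ := γ
    have hcoad : IsCoprime α δ := coprime_coords rfl hγ3 (by rw [← hγ]; exact hηcop)
    have hprod : α * δ * (α - δ) = PP p e univ * s ^ 3 := by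
      have h6 := congrArg Eis.im hγ
      simp only [pow_succ, pow_zero, one_mul, mul_im, mul_re] at h6
      rw [hηim] at h6
      rw [← hS]
      linarith
    have hs0 : s ≠ 0 := by
      rintro rfl
      apply hz
      rw [hz1, hzt]; ring
    refine ⟨α, δ, s, 1, 1, hcoad, hs0, one_ne_zero, one_ne_zero, hprod, ?_⟩
    have hαδ : ((α : Eis) + δ * w) = (⟨α, δ⟩ : Eis) := (eq_re_add_im ⟨α, δ⟩).symm
    rw [hαδ, hηlam, hγ]
  · by_cases hA9 : PP p e univ % 9 = 1 ∨ PP p e univ % 9 = 8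
    · exact absurd hxyz (fun h => lift_caseB1 hm hp hp9 he hco h3z hA9 h)
    · have hA1 : PP p e univ % 9 ≠ 1 := fun h => hA9 (Or.inl h)
      have hA8 : PP p e univ % 9 ≠ 8 := fun h => hA9 (Or.inr h)
      obtain ⟨η, hηprim, hηcop, hηsum, hηw, hcoS, hηS⟩ :=
        lift_caseB hco h3z (hn3 _) hA1 hA8 hxyz
      obtain ⟨γ, s, t, hγ, hγ3, hS, hzt⟩ := side hp hp9 he hηprim hηcop hcoS hηS
      have hs0 : s ≠ 0 := by rintro rfl; simp at hzt; exact hz hzt
      obtain ⟨α, δ⟩ := γ
      have hcoad : IsCoprime α δ := coprime_coords rfl hγ3 (by rw [← hγ]; exact hηcop)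
      have hl : ¬ (3 : ℤ) ∣ α + δ := by rw [lam_dvd_iff] at hγ3; exact hγ3
      have hprod : (2 * α - δ) * (-α - δ) * (2 * δ - α) = PP p e univ * (-s) ^ 3 := by
        have h6 := trace_identity α δ
        rw [← map_pow, ← hγ, hηsum, hS] at h6
        have h7 := congrArg Eis.re h6
        simp only [neg_re, intCast_re] at h7
        rw [← h7]; ring
      obtain ⟨c1, -, -⟩ := coord_coprime hcoad hl
      refine ⟨2 * α - δ, α + δ, -s, -9, 1, ?_, neg_ne_zero.mpr hs0, by norm_num, one_ne_zero,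
        ?_, ?_⟩
      · have := c1.neg_right
        rwa [show -(-α - δ) = α + δ by ring] at this
      · rw [← hprod]; ring
      · have e1 : (((2 * α - δ : ℤ) : Eis) + ((α + δ : ℤ) : Eis) * w) =
            (⟨α, δ⟩ : Eis) * (1 - w ^ 2) := by
          rw [w_sq]
          ext
          · simp only [add_re, mul_re, sub_re, neg_re, intCast_re, intCast_im, one_re, w_re, w_im,
              sub_im, neg_im, one_im]; ring
          · simp only [add_im, mul_im, sub_re, neg_re, intCast_re, intCast_im, one_re, w_re, w_im,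
              sub_im, neg_im, one_im]; ring
        have e2 : (lam : Eis) * (1 - w ^ 2) ^ 3 * w = -9 := by
          decide
        have e3 : lam * ((⟨α, δ⟩ : Eis) * (1 - w ^ 2)) ^ 3 =
            lam * (1 - w ^ 2) ^ 3 * (⟨α, δ⟩ : Eis) ^ 3 := by ring
        rw [e1, e3, ← hγ, hηw]
        push_cast
        linear_combination (-(⟨x, y⟩ : Eis)) * e2

end Pool.Agent.CubeRank


end

section

/-!
# The first descent when 3 divides `A`
-/

set_option linter.unusedSectionVars false

namespace Pool.Agent.Lib_helper84.Cub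

open Finset Pool.Agent.Lib_helper18 Pool.Agent.Lib_helper18.Eis Pool.Agent.Lib_helper18.CubStep0

variable {m : ℕ} {p e : Fin m → ℕ}

/-- the conclusion of Step 0 -/
def Concl3 (p e : Fin m → ℕ) : Prop :=
  ∃ (pos : Fin m → Fin 3) (x : Fin 3 → ℤ), (∀ k, ∃ j, pos j ≠ k) ∧ IsPt p e pos x


theorem ndvd9' {q : ℕ} (hq : q.Prime) (hq3 : q % 3 = 2) : ¬ (q : ℤ) ∣ 9 := by
  intro h9
  have hqZ := Nat.prime_iff_prime_int.mp hq
  have h9' : (q : ℤ) ∣ 3 ^ 2 := by norm_num; exact h9
  have h3' := hqZ.dvd_of_dvd_pow h9'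
  have h3n : q ∣ 3 := by exact_mod_cast h3'
  have := (Nat.prime_dvd_prime_iff_eq hq Nat.prime_three).mp h3n
  omega

theorem wq_ne' {q : ℕ} (h9 : q % 9 = 2 ∨ q % 9 = 5) : wq (q : ℤ) ≠ 0 := by
  unfold wq
  have : (q : ℤ) % 9 = 2 ∨ (q : ℤ) % 9 = 5 := by omega
  rcases this with h | h <;> rw [h] <;> decide

/-- three coprime integers with sum `0` and product `A s^3` give the conclusion or a smaller
solution. -/
theorem three_split' (hp : ∀ i, (p i).Prime)
    (he : ∀ i, e i = 1 ∨ e i = 2) (hnot : ¬ Concl3 p e) {u v t s : ℤ} (hs0 : s ≠ 0)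
    (huv : IsCoprime u v) (hut : IsCoprime u t) (hvt : IsCoprime v t) (hsum : u + v + t = 0)
    (hprod : u * v * t = PP p e univ * s ^ 3) :
    ∃ a b c : ℤ, a ^ 3 + b ^ 3 = PP p e univ * c ^ 3 ∧
      s.natAbs = a.natAbs * b.natAbs * c.natAbs := by
  have he0 : ∀ i, e i ≠ 0 := fun i => by have := he i; omega
  obtain ⟨J, -, a, w, hu, hw, hs1⟩ := split_two p e hp he0 univ u (v * t) s (huv.mul_right hut)
    (by rw [← mul_assoc]; exact hprod)
  obtain ⟨J', hJ', b, c, hv, ht, hs2⟩ := split_two p e hp he0 (univ \ J) v t w hvt hw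
  change u = PP p e J * a ^ 3 at hu
  change v = PP p e J' * b ^ 3 at hv
  change t = PP p e ((univ \ J) \ J') * c ^ 3 at ht
  have hs : s = a * b * c := by rw [hs1, hs2]; ring
  have ha0 : a ≠ 0 := by rintro rfl; apply hs0; rw [hs]; ring
  have hb0 : b ≠ 0 := by rintro rfl; apply hs0; rw [hs]; ring
  have hc0 : c ≠ 0 := by rintro rfl; apply hs0; rw [hs]; ring
  have hPd : PP p e J * PP p e J' * PP p e ((univ \ J) \ J') = PP p e univ := by
    rw [mul_assoc]
    unfold PP
    rw [mul_comm (∏ j ∈ J', _), prod_sdiff hJ', mul_comm, prod_sdiff (subset_univ J)]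
  by_cases hcon : ∀ k, ∃ j, posOf J J' j ≠ k
  · exfalso
    apply hnot
    have c0 : cell p e (posOf J J') 0 = PP p e J := by rw [cell_eq, filter_pos_zero]
    have c1 : cell p e (posOf J J') 1 = PP p e J' := by rw [cell_eq, filter_pos_one hJ']
    have c2 : cell p e (posOf J J') 2 = PP p e ((univ \ J) \ J') := by
      rw [cell_eq, filter_pos_two]
    refine ⟨posOf J J', ![a, b, c], hcon, ?_, ?_, ?_⟩
    · intro k
      fin_cases k
      · exact ha0
      · exact hb0
      · exact hc0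
    · rw [Fin.sum_univ_three, c0, c1, c2]
      show PP p e J * a ^ 3 + PP p e J' * b ^ 3 + PP p e ((univ \ J) \ J') * c ^ 3 = 0
      rw [← hu, ← hv, ← ht]; exact hsum
    · have d0 : cell p e (posOf J J') 0 * a ∣ u := ⟨a ^ 2, by rw [c0, hu]; ring⟩
      have d1 : cell p e (posOf J J') 1 * b ∣ v := ⟨b ^ 2, by rw [c1, hv]; ring⟩
      have d2 : cell p e (posOf J J') 2 * c ∣ t := ⟨c ^ 2, by rw [c2, ht]; ring⟩
      have h01 := huv.of_isCoprime_of_dvd_left d0 |>.of_isCoprime_of_dvd_right d1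
      have h02 := hut.of_isCoprime_of_dvd_left d0 |>.of_isCoprime_of_dvd_right d2
      have h12 := hvt.of_isCoprime_of_dvd_left d1 |>.of_isCoprime_of_dvd_right d2
      intro i j hij
      fin_cases i <;> fin_cases j
      · exact absurd rfl hij
      · exact h01
      · exact h02
      · exact h01.symm
      · exact absurd rfl hij
      · exact h12
      · exact h02.symm
      · exact h12.symm
      · exact absurd rfl hij
  · push Not at hcon
    obtain ⟨k, hk⟩ := hcon
    have hone : PP p e ∅ = 1 := prod_empty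
    fin_cases k
    · have hJ : J = univ := by
        ext j
        have := hk j
        simp only [posOf] at this
        simp only [mem_univ, iff_true]
        by_contra hj
        rw [if_neg hj] at this
        split_ifs at this <;> exact absurd this (by decide)
      have hJ2 : J' = ∅ := by
        apply Finset.subset_empty.mp
        rw [hJ, Finset.sdiff_self] at hJ'
        exact hJ'
      rw [hJ] at hu ht
      rw [hJ2, hone, one_mul] at hv
      rw [hJ2, Finset.sdiff_self, empty_sdiff, hone, one_mul] at ht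
      refine ⟨b, c, -a, ?_, ?_⟩
      · rw [← hv, ← ht]; linear_combination hsum - hu
      · rw [Int.natAbs_neg, hs, Int.natAbs_mul, Int.natAbs_mul]; ring
    · have hJ : J = ∅ := by
        ext j
        have := hk j
        simp only [posOf] at this
        simp only [notMem_empty, iff_false]
        intro hj
        rw [if_pos hj] at this
        exact absurd this (by decide)
      have hJ2 : J' = univ := by
        ext j
        have := hk j
        simp only [posOf] at this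
        simp only [mem_univ, iff_true]
        by_contra hj
        rw [if_neg (by rw [hJ]; exact notMem_empty j), if_neg hj] at this
        exact absurd this (by decide)
      rw [hJ, hone, one_mul] at hu
      rw [hJ2] at hv
      rw [hJ2, hJ, sdiff_empty, Finset.sdiff_self, hone, one_mul] at ht
      refine ⟨a, c, -b, ?_, ?_⟩
      · rw [← hu, ← ht]; linear_combination hsum - hv
      · rw [Int.natAbs_neg, hs, Int.natAbs_mul, Int.natAbs_mul]; ring
    · have hJ : J = ∅ := by
        ext j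
        have := hk j
        simp only [posOf] at this
        simp only [notMem_empty, iff_false]
        intro hj
        rw [if_pos hj] at this
        exact absurd this (by decide)
      have hJ2 : J' = ∅ := by
        ext j
        have := hk j
        simp only [posOf] at this
        simp only [notMem_empty, iff_false]
        intro hj
        rw [if_neg (by rw [hJ]; exact notMem_empty j), if_pos hj] at this
        exact absurd this (by decide)
      rw [hJ, hone, one_mul] at hu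
      rw [hJ2, hone, one_mul] at hv
      rw [hJ2, hJ, sdiff_empty, sdiff_empty] at ht
      refine ⟨a, b, -c, ?_, ?_⟩
      · rw [← hu, ← hv]; linear_combination hsum - ht
      · rw [Int.natAbs_neg, hs, Int.natAbs_mul, Int.natAbs_mul]


/-- all the primes divide the rational side -/
theorem side3 (hp : ∀ i, (p i).Prime) (hp9 : ∀ i, p i % 3 = 2 ∨ p i = 3)
    (he : ∀ i, e i = 1 ∨ e i = 2) {η : Eis} {S z : ℤ} (hηprim : Prim η)
    (hηcop : IsCoprime η (conj η)) (hcoS : IsCoprime S η.norm)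
    (hηS : S * η.norm = PP p e univ * z ^ 3) :
    ∃ (γ : Eis) (s t : ℤ), η = γ ^ 3 ∧ ¬ lam ∣ γ ∧ S = PP p e univ * s ^ 3 ∧ z = t * s := by
  have he0 : ∀ i, e i ≠ 0 := fun i => by have := he i; omega
  obtain ⟨J, -, t, s, ht, hs, hz⟩ := split_two p e hp he0 univ η.norm S z hcoS.symm
    (by rw [mul_comm]; exact hηS)
  have hJ : J = ∅ := by
    ext j
    simp only [notMem_empty, iff_false]
    intro hj
    have hd : (p j : ℤ) ∣ η.norm := by
      rw [ht]
      apply Dvd.dvd.mul_right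
      exact (dvd_pow_self _ (he0 j)).trans (dvd_prod_of_mem _ hj)
    rcases hp9 j with h | h
    · exact inert_not_dvd_norm (hp j) h hηcop hd
    · rw [h] at hd
      exact hηprim.not_lam_dvd (lam_dvd_iff_norm.mpr (by exact_mod_cast hd))
  subst hJ
  rw [prod_empty, one_mul] at ht
  obtain ⟨γ, hγ, hγ3⟩ := extract (ρ := 1) prim_one (one_dvd _) hηprim hηcop (t := t)
    (by rw [norm_one, one_mul, ht])
  rw [one_mul] at hγ
  refine ⟨γ, s, t, hγ, hγ3, ?_, hz⟩
  rw [hs, sdiff_empty]; rfl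

/-- **Step 0** when 3 divides `A` -/
theorem step0_three (hm : 2 ≤ m) (hp : ∀ i, (p i).Prime)
    (hp9 : ∀ i, p i % 9 = 2 ∨ p i % 9 = 5 ∨ p i = 3) {i3 : Fin m} (hi3 : p i3 = 3)
    (hinj : Function.Injective p) (he : ∀ i, e i = 1 ∨ e i = 2)
    (hXY : ∃ X Y : ℚ, X ^ 3 + Y ^ 3 = ∏ i, (p i : ℚ) ^ e i) : Concl3 p e := by
  by_contra hnot
  obtain ⟨X, Y, hXY⟩ := hXY
  have hAcast : X ^ 3 + Y ^ 3 = ((PP p e univ : ℤ) : ℚ) := by
    rw [hXY]; unfold PP; push_cast; rfl
  obtain ⟨x, y, z, hz, hxyz⟩ := integral_solution hAcast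
  have hprime : ∀ i, Prime (p i : ℤ) := fun i => Nat.prime_iff_prime_int.mp (hp i)
  have hA0 : PP p e univ ≠ 0 :=
    prod_ne_zero_iff.mpr (fun j _ => pow_ne_zero _ (hprime j).ne_zero)
  have hcf := cube_not_dvd_prod p e hp hinj (fun i => by have := he i; omega) univ
  have hp3 : ∀ i, p i % 3 = 2 ∨ p i = 3 := fun i => by have := hp9 i; omega
  refine no_solution hA0 hcf ?_ z.natAbs x y z rfl hz hxyz
  clear hxyz hz x y z hAcast hXY X Y
  intro x y z hz hco hxyz
  -- the case where 3 divides z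
  have main : (3 : ℤ) ∣ z → ∃ x' y' z' : ℤ, z' ≠ 0 ∧ x' ^ 3 + y' ^ 3 = PP p e univ * z' ^ 3 ∧
      z'.natAbs < z.natAbs := by
    intro h3z
    obtain ⟨z1, S, η, hz1, hηprim, hηcop, hηim, hηdiff, hcoS, hηS⟩ := caseA_data hco h3z hxyz
    obtain ⟨γ, s, t, hγ, hγ3, hS, hzt⟩ := side3 hp hp3 he hηprim hηcop hcoS hηS
    obtain ⟨α, δ⟩ := γ
    have hcoad : IsCoprime α δ := coprime_coords rfl hγ3 (by rw [← hγ]; exact hηcop)
    have hprod : α * δ * (α - δ) = PP p e univ * s ^ 3 := by
      have h6 := congrArg Eis.im hγ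
      simp only [pow_succ, pow_zero, one_mul, mul_im, mul_re] at h6
      rw [hηim] at h6
      rw [← hS]
      linarith
    have hc1 : IsCoprime α (δ - α) := by
      obtain ⟨u, v, huv⟩ := hcoad
      exact ⟨u + v, v, by linear_combination huv⟩
    have hc2 : IsCoprime (-δ) (δ - α) := by
      obtain ⟨u, v, huv⟩ := hcoad
      exact ⟨-(u + v), -u, by linear_combination huv⟩
    have hs0 : s ≠ 0 := by
      rintro rfl
      apply hz
      rw [hz1, hzt]; ring
    obtain ⟨a, b, c, habc, hsabc⟩ := three_split' hp he hnot hs0 hcoad.neg_right hc1 hc2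
      (by ring) (by rw [← hprod]; ring)
    obtain ⟨h1, h2⟩ := natAbs_lt_of (z := z) (s := s) (t := t) (by rw [hz1, hzt]) hsabc hz
    exact ⟨a, b, c, h1, habc, h2⟩
  by_cases h3z : (3 : ℤ) ∣ z
  · exact main h3z
  · exfalso
    have h3A : (3 : ℤ) ∣ PP p e univ := by
      have he0 : e i3 ≠ 0 := by have := he i3; omega
      have h1 : (p i3 : ℤ) ∣ PP p e univ :=
        (dvd_pow_self _ he0).trans (dvd_prod_of_mem (fun j => (p j : ℤ) ^ e j) (mem_univ i3))
      rw [hi3] at h1
      exact_mod_cast h1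
    have hno3 : ¬ ((3 : ℤ) ∣ x ∧ (3 : ℤ) ∣ y) := by
      rintro ⟨h1, h2⟩
      exact Int.prime_three.not_isUnit (hco.isUnit_of_dvd' h1 h2)
    -- 9 divides A
    have h9 : (9 : ℤ) ∣ PP p e univ := by
      have h3s : (3 : ℤ) ∣ x ^ 3 + y ^ 3 := by rw [hxyz]; exact Dvd.dvd.mul_right h3A _
      have h3xy : (3 : ℤ) ∣ x + y := by
        have e1 : x ^ 3 + y ^ 3 = (x + y) ^ 3 - 3 * (x * y * (x + y)) := by ring
        rw [e1] at h3s
        have h4 := dvd_add h3s (dvd_mul_right (3 : ℤ) (x * y * (x + y)))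
        rw [sub_add_cancel] at h4
        exact Int.prime_three.dvd_of_dvd_pow h4
      obtain ⟨k, hk⟩ := h3xy
      have h9s : (9 : ℤ) ∣ PP p e univ * z ^ 3 := by
        rw [← hxyz]
        exact ⟨k * (3 * k ^ 2 - x * y), by
          have : x = 3 * k - y := by linarith
          rw [this]; ring⟩
      have h5 : (3 : ℤ) ^ 2 ∣ PP p e univ * z ^ 3 := by norm_num; exact h9s
      have h6 := Int.prime_three.pow_dvd_of_dvd_mul_right 2
        (fun h => h3z (Int.prime_three.dvd_of_dvd_pow h)) h5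
      norm_num at h6
      exact h6
    obtain ⟨B, hB⟩ := h9
    have h3B : ¬ (3 : ℤ) ∣ B := by
      rintro ⟨B', hB'⟩
      apply hcf 3 Int.prime_three
      refine ⟨B', ?_⟩
      change PP p e univ = _
      rw [hB, hB']; ring
    obtain ⟨S0, η, hnl, hηcop, hηim, hηdiff, hcoS, hηS⟩ := caseC_data hco (B := B)
      (by rw [← hB]; exact hxyz)
    have hS3 : ¬ (3 : ℤ) ∣ S0 := by
      intro h
      have h1 : (3 : ℤ) ∣ B * z ^ 3 := by rw [← hηS]; exact Dvd.dvd.mul_right h _
      rcases Int.prime_three.dvd_or_dvd h1 with h | h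
      · exact h3B h
      · exact h3z (Int.prime_three.dvd_of_dvd_pow h)
    -- an inert prime
    obtain ⟨i0, hi0⟩ : ∃ i0 : Fin m, p i0 ≠ 3 := by
      by_contra hcon
      push Not at hcon
      have h01 : (⟨0, by omega⟩ : Fin m) = ⟨1, by omega⟩ := by
        apply hinj
        rw [hcon, hcon]
      simp at h01
    have hr := hp i0
    have hr9 : p i0 % 9 = 2 ∨ p i0 % 9 = 5 := by have := hp9 i0; omega
    have hr3 : p i0 % 3 = 2 := by omega
    have hP := prime_inert hr hr3
    have hrn3 := FData.inert_n3 hr hr3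
    have he0 : e i0 ≠ 0 := by have := he i0; omega
    obtain ⟨i, hi⟩ := exists_prim hnl
    -- all primes divide `S0`
    have hηη : IsCoprime (η * w ^ i) (conj (η * w ^ i)) := by
      have hu1 : IsUnit (w ^ i) := isUnit_w.pow i
      have hu2 : IsUnit (conj (w ^ i)) := by
        rw [map_pow, conj_w]; exact (isUnit_w.pow 2).pow i
      rw [map_mul]
      rw [isCoprime_mul_unit_right_left hu1, isCoprime_mul_unit_right_right hu2]
      exact hηcop
    have hnorm : (η * w ^ i).norm = η.norm := by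
      rw [norm_mul, Eis.norm_pow]
      have : w.norm = 1 := by decide
      rw [this, one_pow, mul_one]
    have hcoS' : IsCoprime (9 * S0) (η * w ^ i).norm := by rw [hnorm]; exact hcoS
    obtain ⟨γ, s, t, hγ, hγ3, hS, -⟩ := side3 hp hp3 he hi hηη hcoS' (z := z) (by
      rw [hnorm, hB]; linear_combination 9 * hηS)
    have hdS : (p i0 : ℤ) ∣ S0 := by
      have h1 : (p i0 : ℤ) ∣ 9 * S0 := by
        rw [hS]
        apply Dvd.dvd.mul_right
        exact (dvd_pow_self _ he0).trans (dvd_prod_of_mem (fun j => (p j : ℤ) ^ e j) (mem_univ i0))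
      exact ((hprime i0).dvd_or_dvd h1).resolve_left (ndvd9' hr hr3)
    have hdvd : (p i0 : Eis) ∣ η - conj η := by
      rw [hηdiff]
      apply Dvd.dvd.mul_left
      have h2 := intCast_dvd_intCast.mpr hdS
      rwa [Int.cast_natCast] at h2
    have hnη : ∀ ξ : Eis, ξ.norm = η.norm → ¬ (p i0 : Eis) ∣ ξ := by
      have h0 := inert_not_dvd_norm hr hr3 hηcop
      intro ξ hξ hd
      apply h0
      obtain ⟨c, hc⟩ := hd
      rw [← hξ, hc, Eis.norm_mul, norm_natCast]
      exact ⟨p i0 * c.norm, by ring⟩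
    have n1 := hnη η rfl
    have n2 := hnη (conj η) (norm_conj η)
    have hwi : ¬ (p i0 : Eis) ∣ w ^ i := fun h => not_dvd_w hP (hP.dvd_of_dvd_pow h)
    have hγd : ¬ (p i0 : Eis) ∣ γ := fun h => by
      have h1 : (p i0 : Eis) ∣ η * w ^ i := by rw [hγ]; exact Dvd.dvd.pow h (by norm_num)
      exact (hP.dvd_or_dvd h1).elim n1 hwi
    have hs1 : sym (p i0 : Eis) η + (i : ZMod 3) * sym (p i0 : Eis) w = 0 := by
      have h1 : sym (p i0 : Eis) (η * w ^ i) = 0 := by rw [hγ]; exact sym_cube hP hrn3 hγd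
      rwa [sym_mul hP hrn3 n1 hwi, FData.sym_w_pow hP hrn3] at h1
    have hs2 := sym_congr hdvd
    have hs3 := sym_conj hP hrn3 n1
    rw [conj_natCast] at hs3
    have hwne : sym (p i0 : Eis) w ≠ 0 := by
      rw [FData.sym_w_r hr hr3]
      exact neg_ne_zero.mpr (wq_ne' hr9)
    have hi3 : (i : ZMod 3) = 0 := by
      have key : ∀ a b c d : ZMod 3, a + d * b = 0 → a = c → c = -a → b ≠ 0 → d = 0 := by decide
      exact key _ _ _ _ hs1 hs2 hs3 hwne
    have hi3' : 3 ∣ i := (ZMod.natCast_eq_zero_iff i 3).mp hi3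
    obtain ⟨k, rfl⟩ := hi3'
    rw [pow_mul, w_cube, one_pow, mul_one] at hi
    exact hS3 (by rw [← hηim]; exact hi.1)

end Pool.Agent.Lib_helper84.Cub


end

section

/-!
# (G4) every rational point of `X³ + Y³ = A` comes from the 3-isogenous curve, general version:
the prime factors of `A` are 3 or congruent to 2 modulo 3
(MP_8e0b0b_nt; mathematics: helper84; cf. `CubeRank/Lift.lean`, `Lib_helper84/Cub/StepThree.lean`)
-/

set_option autoImplicit false
set_option linter.unusedSectionVars false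

namespace Pool.Agent.CubeRank

open Finset Pool.Agent.Lib_helper18 Pool.Agent.Lib_helper18.Eis Pool.Agent.Lib_helper84.Cub
  Pool.Agent.Lib_helper18.CubStep0

section gcases

variable {m : ℕ} {p e : Fin m → ℕ} {x y z : ℤ}

/-- a prime congruent to 2 or 5 modulo 9 does not divide the norm -/
theorem not_dvd_of_norm {η : Eis} (hηcop : IsCoprime η (conj η)) {q : ℕ} (hr : q.Prime)
    (hr3 : q % 3 = 2) : ∀ ξ : Eis, ξ.norm = η.norm → ¬ (q : Eis) ∣ ξ := by
  have h0 := inert_not_dvd_norm hr hr3 hηcop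
  intro ξ hξ hd
  apply h0
  obtain ⟨c, hc⟩ := hd
  rw [← hξ, hc, norm_mul, norm_natCast]
  exact ⟨q * c.norm, by ring⟩

/-- the case `3 ∤ z`, `A = ±1 mod 9` is impossible -/
theorem glift_caseB1 (hp : ∀ i, (p i).Prime) (h3 : ∀ i, p i % 3 = 2 ∨ p i = 3)
    (he : ∀ i, e i = 1 ∨ e i = 2) {i0 : Fin m} (h9 : p i0 % 9 = 2 ∨ p i0 % 9 = 5)
    (hco : IsCoprime x y) (h3z : ¬ (3 : ℤ) ∣ z)
    (hA9 : PP p e univ % 9 = 1 ∨ PP p e univ % 9 = 8)
    (hxyz : x ^ 3 + y ^ 3 = PP p e univ * z ^ 3) : False := by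
  obtain ⟨η, hηprim, hηcop, hηrel, hcoS, hηS⟩ := caseB1_data hco h3z hA9 hxyz
  obtain ⟨γ, s, t, hγ, hγ3, hS, hzt⟩ := side3 hp h3 he hηprim hηcop hcoS hηS
  have hr := hp i0
  have hr3 : p i0 % 3 = 2 := by omega
  have hP := prime_inert hr hr3
  have hrn3 := FData.inert_n3 hr hr3
  have hdvd : (p i0 : Eis) ∣ w * η + w ^ 2 * conj η := by
    rw [hηrel, dvd_neg]
    have h1 : (p i0 : ℤ) ∣ x + y := by
      rw [hS]
      apply Dvd.dvd.mul_right
      have he0 : e i0 ≠ 0 := by have := he i0; omega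
      exact (dvd_pow_self _ he0).trans (dvd_prod_of_mem (fun j => (p j : ℤ) ^ e j) (mem_univ i0))
    have h2 := intCast_dvd_intCast.mpr h1
    rwa [Int.cast_natCast] at h2
  have hn := not_dvd_of_norm hηcop hr hr3
  have n1 : ¬ (p i0 : Eis) ∣ η := hn _ rfl
  have n2 : ¬ (p i0 : Eis) ∣ conj η := hn _ (norm_conj η)
  have hw1 : ¬ (p i0 : Eis) ∣ w := not_dvd_of_isUnit hP isUnit_w
  have hw2 : ¬ (p i0 : Eis) ∣ w ^ 2 := not_dvd_of_isUnit hP (isUnit_w.pow 2)
  have hγd : ¬ (p i0 : Eis) ∣ γ := fun h => n1 (by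
    rw [hγ]; exact Dvd.dvd.pow h (by norm_num))
  have hγd' : ¬ (p i0 : Eis) ∣ conj γ := fun h => n2 (by
    rw [hγ, map_pow]; exact Dvd.dvd.pow h (by norm_num))
  have hm2 : ¬ (p i0 : Eis) ∣ w ^ 2 * conj η := fun h => (hP.dvd_or_dvd h).elim hw2 n2
  have hc : sym (p i0 : Eis) (w * η) = sym (p i0 : Eis) (w ^ 2 * conj η) := by
    rw [← sym_neg hP hrn3 hm2]
    apply sym_congr
    rw [sub_neg_eq_add]; exact hdvd
  rw [sym_mul hP hrn3 hw1 n1, sym_mul hP hrn3 hw2 n2, hγ, sym_cube hP hrn3 hγd,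
    map_pow, sym_cube hP hrn3 hγd', FData.sym_w_pow hP hrn3, FData.sym_w_r hr hr3] at hc
  have hwq : wq (p i0) = 0 := by
    have h3 : (3 : ZMod 3) = 0 := by decide
    push_cast at hc
    linear_combination hc
  exact wq_ne' h9 hwq

/-- the case `3 ∤ z`, `3 ∣ A` is impossible -/
theorem glift_caseC (hp : ∀ i, (p i).Prime) (h3 : ∀ i, p i % 3 = 2 ∨ p i = 3)
    (hinj : Function.Injective p)
    (he : ∀ i, e i = 1 ∨ e i = 2) {i0 : Fin m} (h9 : p i0 % 9 = 2 ∨ p i0 % 9 = 5)
    (hco : IsCoprime x y) (h3z : ¬ (3 : ℤ) ∣ z) (h3A : (3 : ℤ) ∣ PP p e univ)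
    (hxyz : x ^ 3 + y ^ 3 = PP p e univ * z ^ 3) : False := by
  have hprime : ∀ i, Prime (p i : ℤ) := fun i => Nat.prime_iff_prime_int.mp (hp i)
  have hcf := cube_not_dvd_prod p e hp hinj (fun i => by have := he i; omega) univ
  -- 9 divides A
  have h9A : (9 : ℤ) ∣ PP p e univ := by
    have h3s : (3 : ℤ) ∣ x ^ 3 + y ^ 3 := by rw [hxyz]; exact Dvd.dvd.mul_right h3A _
    have h3xy : (3 : ℤ) ∣ x + y := by
      have e1 : x ^ 3 + y ^ 3 = (x + y) ^ 3 - 3 * (x * y * (x + y)) := by ring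
      rw [e1] at h3s
      have h4 := dvd_add h3s (dvd_mul_right (3 : ℤ) (x * y * (x + y)))
      rw [sub_add_cancel] at h4
      exact Int.prime_three.dvd_of_dvd_pow h4
    obtain ⟨k, hk⟩ := h3xy
    have h9s : (9 : ℤ) ∣ PP p e univ * z ^ 3 := by
      rw [← hxyz]
      exact ⟨k * (3 * k ^ 2 - x * y), by
        have : x = 3 * k - y := by linarith
        rw [this]; ring⟩
    have h5 : (3 : ℤ) ^ 2 ∣ PP p e univ * z ^ 3 := by norm_num; exact h9s
    have h6 := Int.prime_three.pow_dvd_of_dvd_mul_right 2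
      (fun h => h3z (Int.prime_three.dvd_of_dvd_pow h)) h5
    norm_num at h6
    exact h6
  obtain ⟨B, hB⟩ := h9A
  have h3B : ¬ (3 : ℤ) ∣ B := by
    rintro ⟨B', hB'⟩
    apply hcf 3 Int.prime_three
    refine ⟨B', ?_⟩
    change PP p e univ = _
    rw [hB, hB']; ring
  obtain ⟨S0, η, hnl, hηcop, hηim, hηdiff, hcoS, hηS⟩ := caseC_data hco (B := B)
    (by rw [← hB]; exact hxyz)
  have hS3 : ¬ (3 : ℤ) ∣ S0 := by
    intro h
    have h1 : (3 : ℤ) ∣ B * z ^ 3 := by rw [← hηS]; exact Dvd.dvd.mul_right h _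
    rcases Int.prime_three.dvd_or_dvd h1 with h | h
    · exact h3B h
    · exact h3z (Int.prime_three.dvd_of_dvd_pow h)
  have hr := hp i0
  have hr3 : p i0 % 3 = 2 := by omega
  have hP := prime_inert hr hr3
  have hrn3 := FData.inert_n3 hr hr3
  have he0 : e i0 ≠ 0 := by have := he i0; omega
  obtain ⟨i, hi⟩ := exists_prim hnl
  -- all primes divide `S0`
  have hηη : IsCoprime (η * w ^ i) (conj (η * w ^ i)) := by
    have hu1 : IsUnit (w ^ i) := isUnit_w.pow i
    have hu2 : IsUnit (conj (w ^ i)) := by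
      rw [map_pow, conj_w]; exact (isUnit_w.pow 2).pow i
    rw [map_mul]
    rw [isCoprime_mul_unit_right_left hu1, isCoprime_mul_unit_right_right hu2]
    exact hηcop
  have hnorm : (η * w ^ i).norm = η.norm := by
    rw [norm_mul, Eis.norm_pow]
    have : w.norm = 1 := by decide
    rw [this, one_pow, mul_one]
  have hcoS' : IsCoprime (9 * S0) (η * w ^ i).norm := by rw [hnorm]; exact hcoS
  obtain ⟨γ, s, t, hγ, hγ3, hS, -⟩ := side3 hp h3 he hi hηη hcoS' (z := z) (by
    rw [hnorm, hB]; linear_combination 9 * hηS)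
  have hdS : (p i0 : ℤ) ∣ S0 := by
    have h1 : (p i0 : ℤ) ∣ 9 * S0 := by
      rw [hS]
      apply Dvd.dvd.mul_right
      exact (dvd_pow_self _ he0).trans (dvd_prod_of_mem (fun j => (p j : ℤ) ^ e j) (mem_univ i0))
    exact ((hprime i0).dvd_or_dvd h1).resolve_left (ndvd9' hr hr3)
  have hdvd : (p i0 : Eis) ∣ η - conj η := by
    rw [hηdiff]
    apply Dvd.dvd.mul_left
    have h2 := intCast_dvd_intCast.mpr hdS
    rwa [Int.cast_natCast] at h2
  have hnη := not_dvd_of_norm hηcop hr hr3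
  have n1 := hnη η rfl
  have n2 := hnη (conj η) (norm_conj η)
  have hwi : ¬ (p i0 : Eis) ∣ w ^ i := fun h => not_dvd_w hP (hP.dvd_of_dvd_pow h)
  have hγd : ¬ (p i0 : Eis) ∣ γ := fun h => by
    have h1 : (p i0 : Eis) ∣ η * w ^ i := by rw [hγ]; exact Dvd.dvd.pow h (by norm_num)
    exact (hP.dvd_or_dvd h1).elim n1 hwi
  have hs1 : sym (p i0 : Eis) η + (i : ZMod 3) * sym (p i0 : Eis) w = 0 := by
    have h1 : sym (p i0 : Eis) (η * w ^ i) = 0 := by rw [hγ]; exact sym_cube hP hrn3 hγd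
    rwa [sym_mul hP hrn3 n1 hwi, FData.sym_w_pow hP hrn3] at h1
  have hs2 := sym_congr hdvd
  have hs3 := sym_conj hP hrn3 n1
  rw [conj_natCast] at hs3
  have hwne : sym (p i0 : Eis) w ≠ 0 := by
    rw [FData.sym_w_r hr hr3]
    exact neg_ne_zero.mpr (wq_ne' h9)
  have hi3 : (i : ZMod 3) = 0 := by
    have key : ∀ a b c d : ZMod 3, a + d * b = 0 → a = c → c = -a → b ≠ 0 → d = 0 := by decide
    exact key _ _ _ _ hs1 hs2 hs3 hwne
  have hi3' : 3 ∣ i := (ZMod.natCast_eq_zero_iff i 3).mp hi3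
  obtain ⟨k, rfl⟩ := hi3'
  rw [pow_mul, w_cube, one_pow, mul_one] at hi
  exact hS3 (by rw [← hηim]; exact hi.1)

end gcases

/-- **(G4)** -/
theorem liftG : LiftStmtG := by
  intro m p e hyp x y z hz hco hxyz
  have hp := hyp.hp
  have h3 := hyp.h3
  have he := hyp.he
  obtain ⟨i0, h9⟩ := hyp.ex
  have hAA : AA p e = PP p e univ := rfl
  rw [hAA] at hxyz ⊢
  have hxy : ((x : Eis) + w * y) = (⟨x, y⟩ : Eis) := by
    ext
    · simp
    · simp
  rw [hxy]
  by_cases h3z : (3 : ℤ) ∣ z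
  · obtain ⟨z1, S, η, hz1, hηprim, hηcop, hηim, hηlam, hcoS, hηS⟩ := lift_caseA hco h3z hxyz
    obtain ⟨γ, s, t, hγ, hγ3, hS, hzt⟩ := side3 hp h3 he hηprim hηcop hcoS hηS
    obtain ⟨α, δ⟩ := γ
    have hcoad : IsCoprime α δ := coprime_coords rfl hγ3 (by rw [← hγ]; exact hηcop)
    have hprod : α * δ * (α - δ) = PP p e univ * s ^ 3 := by
      have h6 := congrArg Eis.im hγ
      simp only [pow_succ, pow_zero, one_mul, mul_im, mul_re] at h6
      rw [hηim] at h6
      rw [← hS]
      linarith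
    have hs0 : s ≠ 0 := by
      rintro rfl
      apply hz
      rw [hz1, hzt]; ring
    refine ⟨α, δ, s, 1, 1, hcoad, hs0, one_ne_zero, one_ne_zero, hprod, ?_⟩
    have hαδ : ((α : Eis) + δ * w) = (⟨α, δ⟩ : Eis) := (eq_re_add_im ⟨α, δ⟩).symm
    rw [hαδ, hηlam, hγ]
  · by_cases h3A : (3 : ℤ) ∣ PP p e univ
    · exact absurd hxyz (fun h => glift_caseC hp h3 hyp.inj he h9 hco h3z h3A h)
    by_cases hA9 : PP p e univ % 9 = 1 ∨ PP p e univ % 9 = 8
    · exact absurd hxyz (fun h => glift_caseB1 hp h3 he h9 hco h3z hA9 h)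
    · have hA1 : PP p e univ % 9 ≠ 1 := fun h => hA9 (Or.inl h)
      have hA8 : PP p e univ % 9 ≠ 8 := fun h => hA9 (Or.inr h)
      obtain ⟨η, hηprim, hηcop, hηsum, hηw, hcoS, hηS⟩ :=
        lift_caseB hco h3z h3A hA1 hA8 hxyz
      obtain ⟨γ, s, t, hγ, hγ3, hS, hzt⟩ := side3 hp h3 he hηprim hηcop hcoS hηS
      have hs0 : s ≠ 0 := by rintro rfl; simp at hzt; exact hz hzt
      obtain ⟨α, δ⟩ := γ
      have hcoad : IsCoprime α δ := coprime_coords rfl hγ3 (by rw [← hγ]; exact hηcop)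
      have hl : ¬ (3 : ℤ) ∣ α + δ := by rw [lam_dvd_iff] at hγ3; exact hγ3
      have hprod : (2 * α - δ) * (-α - δ) * (2 * δ - α) = PP p e univ * (-s) ^ 3 := by
        have h6 := trace_identity α δ
        rw [← map_pow, ← hγ, hηsum, hS] at h6
        have h7 := congrArg Eis.re h6
        simp only [neg_re, intCast_re] at h7
        rw [← h7]; ring
      obtain ⟨c1, -, -⟩ := coord_coprime hcoad hl
      refine ⟨2 * α - δ, α + δ, -s, -9, 1, ?_, neg_ne_zero.mpr hs0, by norm_num, one_ne_zero,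
        ?_, ?_⟩
      · have := c1.neg_right
        rwa [show -(-α - δ) = α + δ by ring] at this
      · rw [← hprod]; ring
      · have e1 : (((2 * α - δ : ℤ) : Eis) + ((α + δ : ℤ) : Eis) * w) =
            (⟨α, δ⟩ : Eis) * (1 - w ^ 2) := by
          rw [w_sq]
          ext
          · simp only [add_re, mul_re, sub_re, neg_re, intCast_re, intCast_im, one_re, w_re, w_im,
              sub_im, neg_im, one_im]; ring
          · simp only [add_im, mul_im, sub_re, neg_re, intCast_re, intCast_im, one_re, w_re, w_im,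
              sub_im, neg_im, one_im]; ring
        have e2 : (lam : Eis) * (1 - w ^ 2) ^ 3 * w = -9 := by
          decide
        have e3 : lam * ((⟨α, δ⟩ : Eis) * (1 - w ^ 2)) ^ 3 =
            lam * (1 - w ^ 2) ^ 3 * (⟨α, δ⟩ : Eis) ^ 3 := by ring
        rw [e1, e3, ← hγ, hηw]
        push_cast
        linear_combination (-(⟨x, y⟩ : Eis)) * e2

end Pool.Agent.CubeRank


end
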