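import Mathlib
import Pool.Agent.PTDM.C06

/-! Parts: Lib_helper84.Cub.CaseTwo, Lib_helper84.Cub.CaseOneB, Lib_helper84.Cub.Adic -/

section

/-!
# Case II
-/

namespace Pool.Agent.Lib_helper84.Cub

open Pool.Agent.Lib_helper18 Pool.Agent.Lib_helper18.Eis

/-- cubing is injective modulo an inert prime -/
theorem cube_inj {q : ℕ} (hq : q.Prime) (hq3 : q % 3 = 2) {u v : ℤ}
    (h : (q : ℤ) ∣ u ^ 3 - v ^ 3) : (q : ℤ) ∣ u - v := by
  have hP := prime_inert hq hq3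
  have h1 : (q : Eis) ∣ ((u : Eis) - v) * (((u : Eis) - w * v) * ((u : Eis) - w ^ 2 * v)) := by
    have e : ((u : Eis) - v) * (((u : Eis) - w * v) * ((u : Eis) - w ^ 2 * v)) =
        ((u ^ 3 - v ^ 3 : ℤ) : Eis) := by
      push_cast
      have h1 := w_rel
      have h2 := w_cube
      linear_combination ((u : Eis) - v) * u * v * (-1) * h1 + ((u : Eis) - v) * v ^ 2 * h2
    rw [e]; exact cast_dvd_cast.mpr h
  rcases hP.dvd_or_dvd h1 with h2 | h2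
  · have : (q : Eis) ∣ ((u - v : ℤ) : Eis) := by push_cast; exact h2
    exact cast_dvd_cast.mp this
  · rcases hP.dvd_or_dvd h2 with h3 | h3
    · rw [natCast_dvd_iff] at h3
      obtain ⟨h4, h5⟩ := h3
      simp at h4 h5
      exact dvd_sub h4 h5
    · rw [natCast_dvd_iff, w_sq] at h3
      obtain ⟨h4, h5⟩ := h3
      simp at h4 h5
      have h6 : (q : ℤ) ∣ u := by
        have := dvd_sub h4 h5
        have e : u - -v - v = u := by ring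
        first
        | rwa [e] at this
        | (have h7 := (dvd_add_left h5).mp h4; exact h7)
      exact dvd_sub h6 h5

theorem cast_eq {m n : ℤ} (h : m = n) : (m : Eis) = n := by rw [h]

/-- the contribution of one prime in case II -/
theorem caseII_one {q : ℕ} (hq : q.Prime) (hq3 : q % 3 = 2)
    {a0 a1 a2 a0' a1' a2' x0 x1 x2 y0 y1 y2 rd rn : ℤ}
    (hx : a0 * x0 ^ 3 + a1 * x1 ^ 3 + a2 * x2 ^ 3 = 0)
    (cx01 : IsCoprime (a0 * x0) (a1 * x1))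
    (cx12 : IsCoprime (a1 * x1) (a2 * x2))
    (hy : a0' * y0 ^ 3 + a1' * y1 ^ 3 + a2' * y2 ^ 3 = 0)
    (cy01 : IsCoprime (a0' * y0) (a1' * y1)) (cy02 : IsCoprime (a0' * y0) (a2' * y2))
    (h1 : a0 * a1' * rd ^ 3 = a0' * a1 * rn ^ 3) {f : ZMod 3}
    (hf : (q : ℤ) ∣ a2 ∧ (q : ℤ) ∣ a2' ∧ ¬ (q : ℤ) ∣ rd ∧ f = 2 ∨
      (q : ℤ) ∣ a0 ∧ (q : ℤ) ∣ a1' ∧ (q : ℤ) ∣ rn ∧ ¬ (q : ℤ) ∣ rd ∧ f = 1 ∨
      (q : ℤ) ∣ a1 ∧ (q : ℤ) ∣ a0' ∧ (q : ℤ) ∣ rd ∧ ¬ (q : ℤ) ∣ rn ∧ f = 0) :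
    ¬ (q : Eis) ∣ w * rd * x1 * y0 + (-(rn * x0 * y1) : ℤ) ∧
      sym (q : Eis) (w * rd * x1 * y0 + (-(rn * x0 * y1) : ℤ)) = f * sym (q : Eis) w := by
  have hP := prime_inert hq hq3
  have hZ := Nat.prime_iff_prime_int.mp hq
  have h3 := n3 hq hq3
  have hw := not_dvd_w hP
  have hl := not_dvd_lam h3
  have key : ∀ (Y : ℤ) (u : Eis), ¬ (q : ℤ) ∣ Y → ¬ (q : Eis) ∣ u →
      (q : Eis) ∣ (w * rd * x1 * y0 + (-(rn * x0 * y1) : ℤ)) - Y * u →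
      ¬ (q : Eis) ∣ w * rd * x1 * y0 + (-(rn * x0 * y1) : ℤ) ∧
      sym (q : Eis) (w * rd * x1 * y0 + (-(rn * x0 * y1) : ℤ)) = sym (q : Eis) u := by
    intro Y u hY hu h
    have hY' : ¬ (q : Eis) ∣ (Y : Eis) := fun h' => hY (cast_dvd_cast.mp h')
    constructor
    · intro h'
      have h4 := dvd_sub h' h
      rw [sub_sub_cancel] at h4
      exact (hP.dvd_or_dvd h4).elim hY' hu
    · rw [sym_congr h, sym_mul hP h3 hY' hu, sym_int hq hq3 hY, zero_add]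
  have nd : ∀ {s t u v : ℤ}, IsCoprime (s * t) (u * v) → (q : ℤ) ∣ s → ¬ (q : ℤ) ∣ v :=
    fun h hs hv => not_dvd_of_coprime hq h (Dvd.dvd.mul_right hs _) (Dvd.dvd.mul_left hv _)
  have nd2 : ∀ {s t u v : ℤ}, IsCoprime (s * t) (u * v) → (q : ℤ) ∣ s → ¬ (q : ℤ) ∣ u :=
    fun h hs hv => not_dvd_of_coprime hq h (Dvd.dvd.mul_right hs _) (Dvd.dvd.mul_right hv _)
  rcases hf with ⟨g1, g2, g3, rfl⟩ | ⟨g1, g2, g3, g4, rfl⟩ | ⟨g1, g2, g3, g4, rfl⟩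
  · -- position 2
    have n0 : ¬ (q : ℤ) ∣ y0 := nd cy02.symm g2
    have n1 : ¬ (q : ℤ) ∣ x1 := nd cx12.symm g1
    have m0 : ¬ (q : ℤ) ∣ a0' := nd2 cy02.symm g2
    have m1 : ¬ (q : ℤ) ∣ a1 := nd2 cx12.symm g1
    have e1 : (q : ℤ) ∣ a0' * a1 * ((rn * x0 * y1) ^ 3 - (rd * x1 * y0) ^ 3) := by
      have e : a0' * a1 * ((rn * x0 * y1) ^ 3 - (rd * x1 * y0) ^ 3) =
        a2 * (-(rd ^ 3 * a1' * x2 ^ 3 * y1 ^ 3)) + a2' * (rd ^ 3 * a1 * x1 ^ 3 * y2 ^ 3) := by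
        linear_combination (-(x0 * y1) ^ 3) * h1 + rd ^ 3 * a1' * y1 ^ 3 * hx -
          rd ^ 3 * a1 * x1 ^ 3 * hy
      rw [e]
      exact dvd_add (Dvd.dvd.mul_right g1 _) (Dvd.dvd.mul_right g2 _)
    have e2 : (q : ℤ) ∣ rn * x0 * y1 - rd * x1 * y0 := by
      apply cube_inj hq hq3
      rcases hZ.dvd_or_dvd e1 with h | h
      · exact absurd h (fun h => (hZ.dvd_or_dvd h).elim m0 m1)
      · exact h
    have hu : ¬ (q : Eis) ∣ -lam := by rwa [dvd_neg]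
    have hY : ¬ (q : ℤ) ∣ rd * x1 * y0 := fun h =>
      (hZ.dvd_or_dvd h).elim (fun h => (hZ.dvd_or_dvd h).elim g3 n1) n0
    obtain ⟨k1, k2⟩ := key (rd * x1 * y0) (-lam) hY hu (by
      have e : (w * rd * x1 * y0 + (-(rn * x0 * y1) : ℤ)) - ((rd * x1 * y0 : ℤ) : Eis) * (-lam) =
        ((-(rn * x0 * y1 - rd * x1 * y0) : ℤ) : Eis) := by
        rw [lam_eq]; push_cast; ring
      rw [e]
      exact cast_dvd_cast.mpr ((dvd_neg).mpr e2))
    refine ⟨k1, ?_⟩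
    rw [k2, sym_neg hP h3 hl, sym_inert_lam hq hq3]
    linear_combination -(sym (q : Eis) w) * three_zmod
  · have n0 : ¬ (q : ℤ) ∣ y0 := nd cy01.symm g2
    have n1 : ¬ (q : ℤ) ∣ x1 := nd cx01 g1
    have hY : ¬ (q : ℤ) ∣ rd * x1 * y0 := fun h =>
      (hZ.dvd_or_dvd h).elim (fun h => (hZ.dvd_or_dvd h).elim g4 n1) n0
    obtain ⟨k1, k2⟩ := key (rd * x1 * y0) w hY hw (by
      have e : (w * rd * x1 * y0 + (-(rn * x0 * y1) : ℤ)) - ((rd * x1 * y0 : ℤ) : Eis) * w =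
        ((rn * (-(x0 * y1)) : ℤ) : Eis) := by
        push_cast; ring
      rw [e]
      exact cast_dvd_cast.mpr (Dvd.dvd.mul_right g3 _))
    refine ⟨k1, ?_⟩
    rw [k2]; ring
  · have n0 : ¬ (q : ℤ) ∣ y1 := nd cy01 g2
    have n1 : ¬ (q : ℤ) ∣ x0 := nd cx01.symm g1
    have hY : ¬ (q : ℤ) ∣ -(rn * x0 * y1) := by
      rw [dvd_neg]
      exact fun h => (hZ.dvd_or_dvd h).elim (fun h => (hZ.dvd_or_dvd h).elim g4 n1) n0
    have hu : ¬ (q : Eis) ∣ 1 := not_dvd_of_isUnit hP isUnit_one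
    obtain ⟨k1, k2⟩ := key (-(rn * x0 * y1)) 1 hY hu (by
      rw [mul_one, add_sub_cancel_right]
      have : (q : Eis) ∣ (rd : Eis) := cast_dvd_cast.mpr g3
      exact Dvd.dvd.mul_right (Dvd.dvd.mul_right (Dvd.dvd.mul_left this _) _) _)
    refine ⟨k1, ?_⟩
    rw [k2, sym_one hP h3]; ring

/-- **Case II** -/
theorem caseII {q r a b : ℕ} (hq : q.Prime) (hq3 : q % 3 = 2) (hr : r.Prime) (hr3 : r % 3 = 2)
    (hab : (a : ZMod 3) * sym (q : Eis) w + (b : ZMod 3) * sym (r : Eis) w = 0)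
    {a0 a1 a2 a0' a1' a2' x0 x1 x2 y0 y1 y2 rd rn B k m : ℤ}
    (hB : B = (q : ℤ) ^ a * (r : ℤ) ^ b)
    (hx : a0 * x0 ^ 3 + a1 * x1 ^ 3 + a2 * x2 ^ 3 = 0)
    (cx01 : IsCoprime (a0 * x0) (a1 * x1))
    (cx12 : IsCoprime (a1 * x1) (a2 * x2))
    (hy : a0' * y0 ^ 3 + a1' * y1 ^ 3 + a2' * y2 ^ 3 = 0)
    (cy01 : IsCoprime (a0' * y0) (a1' * y1)) (cy02 : IsCoprime (a0' * y0) (a2' * y2))
    (cy12 : IsCoprime (a1' * y1) (a2' * y2))
    (h1 : a0 * a1' * rd ^ 3 = a0' * a1 * rn ^ 3)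
    (h2 : a0 * a2' * k ^ 3 = a0' * a2 * B) (h3 : a1 * a2' * m ^ 3 = a1' * a2 * B)
    (hunit : ∀ l : Eis, Prime l → ¬ l ∣ 3 → ¬ l ∣ (q : Eis) → ¬ l ∣ (r : Eis) →
      ¬ ((a : ZMod 3) * sym l (q : Eis) + (b : ZMod 3) * sym l (r : Eis) = 0) →
      ¬ l ∣ ((a0' * a1' * a1 * a2 * rd * rn * k * m : ℤ) : Eis))
    {f g : ZMod 3}
    (hf : (q : ℤ) ∣ a2 ∧ (q : ℤ) ∣ a2' ∧ ¬ (q : ℤ) ∣ rd ∧ f = 2 ∨
      (q : ℤ) ∣ a0 ∧ (q : ℤ) ∣ a1' ∧ (q : ℤ) ∣ rn ∧ ¬ (q : ℤ) ∣ rd ∧ f = 1 ∨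
      (q : ℤ) ∣ a1 ∧ (q : ℤ) ∣ a0' ∧ (q : ℤ) ∣ rd ∧ ¬ (q : ℤ) ∣ rn ∧ f = 0)
    (hg : (r : ℤ) ∣ a2 ∧ (r : ℤ) ∣ a2' ∧ ¬ (r : ℤ) ∣ rd ∧ g = 2 ∨
      (r : ℤ) ∣ a0 ∧ (r : ℤ) ∣ a1' ∧ (r : ℤ) ∣ rn ∧ ¬ (r : ℤ) ∣ rd ∧ g = 1 ∨
      (r : ℤ) ∣ a1 ∧ (r : ℤ) ∣ a0' ∧ (r : ℤ) ∣ rd ∧ ¬ (r : ℤ) ∣ rn ∧ g = 0)
    (hne : x0 ≠ 0 ∧ y2 ≠ 0) :
    (a : ZMod 3) * (f * sym (q : Eis) w) + (b : ZMod 3) * (g * sym (r : Eis) w) = 0 := by
  have hQ := prime_inert hq hq3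
  have hR := prime_inert hr hr3
  obtain ⟨tq, sq⟩ := caseII_one hq hq3 hx cx01 cx12 hy cy01 cy02 h1 hf
  obtain ⟨tr, sr⟩ := caseII_one hr hr3 hx cx01 cx12 hy cy01 cy02 h1 hg
  have ht0 : w * rd * x1 * y0 + (-(rn * x0 * y1) : ℤ) ≠ 0 := by
    intro h; rw [h] at tq; exact tq (dvd_zero _)
  rw [← sq, ← sr]
  refine lemmaB hq hq3 hr hr3 _ _ hab _ _ rfl ht0 tq tr ?_
  intro l hl hl3 hlt
  by_cases hgood : (a : ZMod 3) * sym l (q : Eis) + (b : ZMod 3) * sym l (r : Eis) = 0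
  · exact Or.inl hgood
  right
  have hlq : ¬ l ∣ (q : Eis) := fun h => tq ((hl.associated_of_dvd hQ h).symm.dvd.trans hlt)
  have hlr : ¬ l ∣ (r : Eis) := fun h => tr ((hl.associated_of_dvd hR h).symm.dvd.trans hlt)
  have hbad := bad_B hl hl3 hlq hlr hgood
  have hBc : (B : Eis) = (q : Eis) ^ a * (r : Eis) ^ b := by rw [hB]; push_cast; rfl
  rw [← hBc] at hbad
  have hun := hunit l hl hl3 hlq hlr hgood
  push_cast at hun
  have u0' : ¬ l ∣ (a0' : Eis) := fun h => hun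
    (by repeat' first | exact h | apply Dvd.dvd.mul_right)
  have u1' : ¬ l ∣ (a1' : Eis) := fun h => hun
    (by
      iterate 6 apply Dvd.dvd.mul_right
      exact Dvd.dvd.mul_left h _)
  have u1 : ¬ l ∣ (a1 : Eis) := fun h => hun
    (by
      iterate 5 apply Dvd.dvd.mul_right
      exact Dvd.dvd.mul_left h _)
  have u2 : ¬ l ∣ (a2 : Eis) := fun h => hun
    (by
      iterate 4 apply Dvd.dvd.mul_right
      exact Dvd.dvd.mul_left h _)
  have urd : ¬ l ∣ (rd : Eis) := fun h => hun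
    (by
      iterate 3 apply Dvd.dvd.mul_right
      exact Dvd.dvd.mul_left h _)
  have urn : ¬ l ∣ (rn : Eis) := fun h => hun
    (by
      iterate 2 apply Dvd.dvd.mul_right
      exact Dvd.dvd.mul_left h _)
  have uk : ¬ l ∣ (k : Eis) := fun h => hun
    (by
      iterate 1 apply Dvd.dvd.mul_right
      exact Dvd.dvd.mul_left h _)
  have um : ¬ l ∣ (m : Eis) := fun h => hun (Dvd.dvd.mul_left h _)
  -- casts
  have hxE := cast_eq hx
  have hyE := cast_eq hy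
  have h1E := cast_eq h1
  have h2E := cast_eq h2
  have h3E := cast_eq h3
  push_cast at hxE hyE h1E h2E h3E
  have ha0E : (a0' : Eis) ≠ 0 := by rintro h; rw [h] at u0'; exact u0' (dvd_zero _)
  have hcast0 : ∀ {n : ℤ}, n ≠ 0 → (n : Eis) ≠ 0 := by
    intro n hn h
    have := congrArg Eis.re h
    simp at this
    exact hn this
  have hkne : (k : Eis) ≠ 0 := by rintro h; rw [h] at uk; exact uk (dvd_zero _)
  -- the main identity
  have hmain : (a1 : Eis) * k ^ 3 * ((w * rd * x1 * y0) ^ 3 + ((-(rn * x0 * y1) : ℤ) : Eis) ^ 3) =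
      rd ^ 3 * a2 * ((-(k * x2 * y0)) ^ 3 + B * (x0 * y2) ^ 3) := by
    apply mul_left_cancel₀ ha0E
    push_cast
    have hw3 := w_cube
    linear_combination (a0' : Eis) * a1 * k ^ 3 * (rd * x1 * y0) ^ 3 * hw3 +
      (k : Eis) ^ 3 * (x0 * y1) ^ 3 * h1E + (rd : Eis) ^ 3 * (x0 * y2) ^ 3 * h2E +
      (k : Eis) ^ 3 * rd ^ 3 * a0' * y0 ^ 3 * hxE - (k : Eis) ^ 3 * rd ^ 3 * a0 * x0 ^ 3 * hyE
  obtain ⟨n0, n1⟩ := three_dvd_V hl hbad _ (-(k * x2 * y0)) (x0 * y2) rfl (fun h =>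
    (mul_ne_zero (hcast0 hne.1) (hcast0 hne.2)) h.2)
  have hc1 : ¬ l ∣ (a1 : Eis) * k ^ 3 := fun h =>
    (hl.dvd_or_dvd h).elim u1 (fun h => uk (hl.dvd_of_dvd_pow h))
  have hc2 : ¬ l ∣ (rd : Eis) ^ 3 * a2 := fun h =>
    (hl.dvd_or_dvd h).elim (fun h => urd (hl.dvd_of_dvd_pow h)) u2
  have hDne : (w * rd * x1 * y0) ^ 3 + ((-(rn * x0 * y1) : ℤ) : Eis) ^ 3 ≠ 0 := by
    intro h
    rw [h, mul_zero] at hmain
    refine mul_ne_zero ?_ n0 hmain.symm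
    rintro h; rw [h] at hc2; exact hc2 (dvd_zero _)
  refine three_dvd_V_add hl hl3 ?_ hDne ?_
  · rintro ⟨g1, g2⟩
    have g1' : l ∣ (x1 : Eis) ∨ l ∣ (y0 : Eis) := by
      rcases hl.dvd_or_dvd g1 with h | h
      · rcases hl.dvd_or_dvd h with h | h
        · exact absurd h (fun h => (hl.dvd_or_dvd h).elim (not_dvd_w hl) urd)
        · exact Or.inl h
      · exact Or.inr h
    have g2' : l ∣ (x0 : Eis) ∨ l ∣ (y1 : Eis) := by
      push_cast at g2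
      rw [dvd_neg] at g2
      rcases hl.dvd_or_dvd g2 with h | h
      · rcases hl.dvd_or_dvd h with h | h
        · exact absurd h urn
        · exact Or.inl h
      · exact Or.inr h
    have ndc : ∀ {s t u v : ℤ}, IsCoprime (s * t) (u * v) → l ∣ (t : Eis) → ¬ l ∣ (v : Eis) := by
      intro s t u v h ht hv
      refine not_dvd_of_coprime' hl h ?_ ?_
      · push_cast; exact Dvd.dvd.mul_left ht _
      · push_cast; exact Dvd.dvd.mul_left hv _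
    rcases g1' with g1 | g1 <;> rcases g2' with g2 | g2
    · exact ndc cx01 g2 g1
    · -- x1, y1
      have e1 : l ∣ (a0' : Eis) * a2 * ((-(k * x2 * y0)) ^ 3 + B * (x0 * y2) ^ 3) := by
        have e : (a0' : Eis) * a2 * ((-(k * x2 * y0)) ^ 3 + B * (x0 * y2) ^ 3) =
          x1 * (a0' * a1 * k ^ 3 * x1 ^ 2 * y0 ^ 3) +
          y1 * (-(a0 * a1' * k ^ 3 * x0 ^ 3 * y1 ^ 2)) := by
          linear_combination (-((x0 * y2 : Eis)) ^ 3) * h2E - (k : Eis) ^ 3 * a0' * y0 ^ 3 * hxE +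
            (k : Eis) ^ 3 * a0 * x0 ^ 3 * hyE
        rw [e]
        exact dvd_add (Dvd.dvd.mul_right g1 _) (Dvd.dvd.mul_right g2 _)
      have e2 := (hl.dvd_or_dvd e1).resolve_left (fun h => (hl.dvd_or_dvd h).elim u0' u2)
      rcases hl.dvd_or_dvd (hbad _ _ e2).2 with h | h
      · exact ndc cx01 h g1
      · exact ndc cy12 g2 h
    · -- y0, x0
      have e1 : l ∣ (a1' : Eis) * a2 * ((-(m * x2 * y1)) ^ 3 + B * (x1 * y2) ^ 3) := by
        have e : (a1' : Eis) * a2 * ((-(m * x2 * y1)) ^ 3 + B * (x1 * y2) ^ 3) =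
          x0 * (a1' * a0 * m ^ 3 * x0 ^ 2 * y1 ^ 3) +
          y0 * (-(a1 * a0' * m ^ 3 * x1 ^ 3 * y0 ^ 2)) := by
          linear_combination (-((x1 * y2 : Eis)) ^ 3) * h3E - (m : Eis) ^ 3 * a1' * y1 ^ 3 * hxE +
            (m : Eis) ^ 3 * a1 * x1 ^ 3 * hyE
        rw [e]
        exact dvd_add (Dvd.dvd.mul_right g2 _) (Dvd.dvd.mul_right g1 _)
      have e2 := (hl.dvd_or_dvd e1).resolve_left (fun h => (hl.dvd_or_dvd h).elim u1' u2)
      rcases hl.dvd_or_dvd (hbad _ _ e2).2 with h | h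
      · exact ndc cx01 g2 h
      · exact ndc cy02 g1 h
    · exact ndc cy01 g1 g2
  · have hV := congrArg (V l) hmain
    rw [V_mul_not_dvd hl hc1 hDne, V_mul_not_dvd hl hc2 n0] at hV
    rw [hV]; exact n1

end Pool.Agent.Lib_helper84.Cub


end

section

/-!
# Cases I and II, general forms
-/

namespace Pool.Agent.Lib_helper84.Cub

open Pool.Agent.Lib_helper18 Pool.Agent.Lib_helper18.Eis

/-- `B` is a noncube modulo `l` -/
def NonCube (l : Eis) (B : ℤ) : Prop := ∀ u v : Eis, l ∣ u ^ 3 + (B : Eis) * v ^ 3 → l ∣ u ∧ l ∣ v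

theorem nonCube_pow {q a : ℕ} {l : Eis} (hl : Prime l) (hl3 : ¬ l ∣ 3) (hlq : ¬ l ∣ (q : Eis))
    (ha : (a : ZMod 3) ≠ 0) (hs : sym l (q : Eis) ≠ 0) : NonCube l ((q : ℤ) ^ a) := by
  have h1 : ¬ l ∣ ((1 : ℕ) : Eis) := by
    rw [Nat.cast_one]; exact not_dvd_of_isUnit hl isUnit_one
  have := bad_B (r := 1) (b := 0) (a := a) hl hl3 hlq h1 (by
    push_cast
    rw [zero_mul, add_zero]
    exact mul_ne_zero ha hs)
  intro u v h
  apply this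
  push_cast at h ⊢
  rwa [pow_zero, mul_one]

/-- the main element of case I -/
def tOne (Q X0 X1 X2 w0 y z : ℤ) : Eis := ((3 * w0 * (Q * z) : ℤ) : Eis) + res X0 X1 X2 * y

/-- case I at a prime `q` -/
theorem caseI_at {q : ℕ} (hq : q.Prime) (hq3 : q % 3 = 2)
    {B' C Q X0 X1 X2 w0 y z : ℤ} (hqQ : (q : ℤ) ∣ Q) (hqB' : (q : ℤ) ∣ B')
    (hsum : X0 + X1 + X2 = 0) (h01 : IsCoprime X0 X1) (h02 : IsCoprime X0 X2)
    (cyz : IsCoprime (C * y) (B' * z)) {cq : ZMod 3}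
    (hcq : (q : ℤ) ∣ X0 ∧ cq = 0 ∨ (q : ℤ) ∣ X1 ∧ cq = 1 ∨ (q : ℤ) ∣ X2 ∧ cq = 2) :
    ¬ (q : Eis) ∣ tOne Q X0 X1 X2 w0 y z ∧
      sym (q : Eis) (tOne Q X0 X1 X2 w0 y z) = cq * sym (q : Eis) w ∧ y ≠ 0 ∧
        res X0 X1 X2 ≠ 0 := by
  have hP := prime_inert hq hq3
  have hP3 := n3 hq hq3
  obtain ⟨hqs, hsq⟩ := sym_res hq hq3 hsum h01 h02 hcq
  have hqy : ¬ (q : ℤ) ∣ y := fun h => not_dvd_of_coprime hq cyz (Dvd.dvd.mul_left h _)
    (Dvd.dvd.mul_right hqB' _)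
  have hqy' : ¬ (q : Eis) ∣ (y : Eis) := fun h' => hqy (cast_dvd_cast.mp h')
  have hqT : (q : Eis) ∣ ((3 * w0 * (Q * z) : ℤ) : Eis) :=
    cast_dvd_cast.mpr (Dvd.dvd.mul_left (Dvd.dvd.mul_right hqQ _) _)
  refine ⟨?_, ?_, ?_, ?_⟩
  · intro h
    have := (dvd_add_right hqT).mp h
    exact (hP.dvd_or_dvd this).elim hqs hqy'
  · have h1 : (q : Eis) ∣ tOne Q X0 X1 X2 w0 y z - res X0 X1 X2 * y := by
      rw [tOne, add_sub_cancel_right]; exact hqT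
    rw [sym_congr h1, sym_mul hP hP3 hqs hqy', hsq, sym_int hq hq3 hqy, add_zero]
  · rintro rfl; exact hqy (dvd_zero _)
  · intro h; rw [h] at hqs; exact hqs (dvd_zero _)

/-- case I away from `3 Q` -/
theorem caseI_loc {B B' C Q X0 X1 X2 w0 x y z : ℤ} {l : Eis} (hl : Prime l) (hl3 : ¬ l ∣ 3)
    (hlQ : ¬ l ∣ (Q : Eis)) (hbad : NonCube l B) (hBB : B * B' = Q ^ 3)
    (hsum : X0 + X1 + X2 = 0) (hprod : X0 * X1 * X2 = B * C * w0 ^ 3)
    (h01 : IsCoprime X0 X1)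
    (hP : x ^ 3 + C * y ^ 3 + B' * z ^ 3 = 0)
    (cxy : IsCoprime x (C * y)) (cxz : IsCoprime x (B' * z))
    (hy0 : y ≠ 0) (hs0 : res X0 X1 X2 ≠ 0) :
    3 ∣ V l (tOne Q X0 X1 X2 w0 y z) := by
  set s := res X0 X1 X2 with hs
  set T : Eis := ((3 * w0 * (Q * z) : ℤ) : Eis) with hT
  have hT' : T = 3 * (w0 : Eis) * ((Q : Eis) * (z : Eis)) := by rw [hT]; push_cast; ring
  have hy0' : (y : Eis) ≠ 0 := by
    intro h
    have := congrArg Eis.re h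
    simp at this
    exact hy0 this
  -- identities
  have hsumE : (X0 : Eis) + X1 + X2 = 0 := by exact_mod_cast congrArg (fun n : ℤ => (n : Eis)) hsum
  have hprodE : (X0 : Eis) * X1 * X2 = B * C * w0 ^ 3 := by
    exact_mod_cast congrArg (fun n : ℤ => (n : Eis)) hprod
  have hBBE : (B : Eis) * B' = Q ^ 3 := by
    exact_mod_cast congrArg (fun n : ℤ => (n : Eis)) hBB
  have hPE : (x : Eis) ^ 3 + C * y ^ 3 + B' * z ^ 3 = 0 := by
    exact_mod_cast congrArg (fun n : ℤ => (n : Eis)) hP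
  have hss : s ^ 3 + (conj s) ^ 3 = B * C * (3 * w0) ^ 3 := by
    have hX2 : (X2 : Eis) = -X0 - X1 := by linear_combination hsumE
    have h4 := w_rel
    have h5 : s ^ 3 + (conj s) ^ 3 = 27 * (X0 * X1 * X2) := by
      rw [hs, conj_res, res, hX2]
      have h6 : w ^ 2 = -1 - w := w_sq
      ring_nf
      have h7 : w ^ 3 = 1 := w_cube
      have h8 : w ^ 4 = w := by decide
      have h9 : w ^ 5 = w ^ 2 := by decide
      have h10 : w ^ 6 = 1 := by decide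
      rw [h7, h8, h9, h10, h6]
      ring
    rw [h5, hprodE]; ring
  have hid : T ^ 3 + (s * y) ^ 3 = -((conj s * y) ^ 3 + B * (3 * w0 * x) ^ 3) := by
    rw [hT']
    linear_combination (y : Eis) ^ 3 * hss - 27 * (w0 : Eis) ^ 3 * z ^ 3 * hBBE +
      27 * (w0 : Eis) ^ 3 * B * hPE
  have hs0' : conj s ≠ 0 := by
    intro h
    apply hs0
    have := congrArg conj h
    rwa [conj_conj, map_zero] at this
  obtain ⟨n0, n1⟩ := three_dvd_V hl hbad _ (conj s * y) (3 * w0 * x) rfl (fun h =>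
    (mul_ne_zero hs0' hy0') h.1)
  change 3 ∣ V l (T + s * y)
  refine three_dvd_V_add hl hl3 ?_ ?_ ?_
  · -- not both divisible
    rintro ⟨hlT, hlsy⟩
    by_cases hly : l ∣ (y : Eis)
    · have h1 : l ∣ (B : Eis) * (x : Eis) ^ 3 + (Q * z) ^ 3 := by
        have e : (B : Eis) * (x : Eis) ^ 3 + (Q * z) ^ 3 = y * (-(B * C * y ^ 2)) := by
          linear_combination (B : Eis) * hPE - (z : Eis) ^ 3 * hBBE
        rw [e]; exact Dvd.dvd.mul_right hly _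
      obtain ⟨-, h2⟩ := hbad _ _ (by rwa [add_comm] at h1)
      refine not_dvd_of_coprime' hl cxy h2 ?_
      push_cast
      exact Dvd.dvd.mul_left hly _
    · have hls : l ∣ s := (hl.dvd_or_dvd hlsy).resolve_right hly
      have hlw : ¬ l ∣ (w0 : Eis) := by
        intro hlw
        have h1 : l ∣ (conj s) ^ 3 := by
          have e : (conj s) ^ 3 = w0 * (27 * B * C * w0 ^ 2) - s * s ^ 2 := by
            linear_combination hss
          rw [e]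
          exact dvd_sub (Dvd.dvd.mul_right hlw _) (Dvd.dvd.mul_right hls _)
        have h2 : l ∣ conj s := hl.dvd_of_dvd_pow h1
        have h3 : l ∣ 3 * (X0 : Eis) := by
          have e : 3 * (X0 : Eis) = s + conj s := by
            rw [hs, conj_res, res]
            have h4 := w_rel
            linear_combination hsumE - ((X1 : Eis) + X2) * h4
          rw [e]; exact dvd_add hls h2
        have h5 : l ∣ 3 * (X1 : Eis) := by
          have e : 3 * (X1 : Eis) = w ^ 2 * s + w * conj s := by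
            rw [hs, conj_res, res]
            have h4 := w_rel
            have h6 := w_cube
            have h7 : w ^ 4 = w := by decide
            linear_combination hsumE - 2 * (X1 : Eis) * h6 - (X0 + X2) * h4 - (X2 : Eis) * h7
          rw [e]; exact dvd_add (Dvd.dvd.mul_left hls _) (Dvd.dvd.mul_left h2 _)
        exact not_dvd_of_coprime' hl h01 ((hl.dvd_or_dvd h3).resolve_left hl3)
          ((hl.dvd_or_dvd h5).resolve_left hl3)
      have hlz : l ∣ (z : Eis) := by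
        rw [hT'] at hlT
        rcases hl.dvd_or_dvd hlT with h | h
        · exact absurd ((hl.dvd_or_dvd h).resolve_left hl3) hlw
        · exact (hl.dvd_or_dvd h).resolve_left hlQ
      have h1 : l ∣ (conj s * y) ^ 3 + (B : Eis) * (3 * w0 * x) ^ 3 := by
        have e : (conj s * y) ^ 3 + (B : Eis) * (3 * w0 * x) ^ 3 =
            z * (-(27 * w0 ^ 3 * B * B' * z ^ 2)) + s * (-(s ^ 2 * y ^ 3)) := by
          linear_combination (y : Eis) ^ 3 * hss + 27 * (w0 : Eis) ^ 3 * B * hPE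
        rw [e]
        exact dvd_add (Dvd.dvd.mul_right hlz _) (Dvd.dvd.mul_right hls _)
      obtain ⟨-, h2⟩ := hbad _ _ h1
      have h3 : l ∣ (x : Eis) := by
        rcases hl.dvd_or_dvd h2 with h | h
        · exact absurd ((hl.dvd_or_dvd h).resolve_left hl3) hlw
        · exact h
      refine not_dvd_of_coprime' hl cxz h3 ?_
      push_cast
      exact Dvd.dvd.mul_left hlz _
  · rw [hid]; exact neg_ne_zero.mpr n0
  · rw [hid, V_neg]; exact n1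

/-- **Case I**, one exchanged prime -/
theorem caseI_single {q a : ℕ} (hq : q.Prime) (hq3 : q % 3 = 2) (ha : (a : ZMod 3) ≠ 0)
    (hwq : sym (q : Eis) w ≠ 0)
    {B B' C : ℤ} (hB : B = (q : ℤ) ^ a) (hBB : B * B' = (q : ℤ) ^ 3) (hqB' : (q : ℤ) ∣ B')
    {X0 X1 X2 w0 x y z : ℤ} (hsum : X0 + X1 + X2 = 0) (hprod : X0 * X1 * X2 = B * C * w0 ^ 3)
    (h01 : IsCoprime X0 X1) (h02 : IsCoprime X0 X2)
    (hP : x ^ 3 + C * y ^ 3 + B' * z ^ 3 = 0)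
    (cxy : IsCoprime x (C * y)) (cxz : IsCoprime x (B' * z)) (cyz : IsCoprime (C * y) (B' * z))
    {cq c : ZMod 3}
    (hcq : (q : ℤ) ∣ X0 ∧ cq = 0 ∨ (q : ℤ) ∣ X1 ∧ cq = 1 ∨ (q : ℤ) ∣ X2 ∧ cq = 2)
    (hc : Cls (tOne q X0 X1 X2 w0 y z) c) : cq = c := by
  have hQ := prime_inert hq hq3
  obtain ⟨tq, sq, hy0, hs0⟩ := caseI_at (w0 := w0) hq hq3 dvd_rfl hqB' hsum h01 h02 cyz hcq
  have h1 := lemmaB1 hq hq3 tq hc (by
    intro l hl hl3 hlt
    by_cases hgood : sym l (q : Eis) = 0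
    · exact Or.inl hgood
    right
    have hlq : ¬ l ∣ (q : Eis) := fun h => tq ((hl.associated_of_dvd hQ h).symm.dvd.trans hlt)
    refine caseI_loc hl hl3 ?_ ?_ hBB hsum hprod h01 hP cxy cxz hy0 hs0
    · rw [Int.cast_natCast]; exact hlq
    · rw [hB]; exact nonCube_pow hl hl3 hlq ha hgood)
  rw [sq] at h1
  exact mul_right_cancel₀ hwq h1

/-- the main element of case II -/
def tTwo (rd rn x0 x1 y0 y1 : ℤ) : Eis := w * rd * x1 * y0 + (-(rn * x0 * y1) : ℤ)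

/-- case II away from `3 Q` -/
theorem caseII_loc {l : Eis} (hl : Prime l) (hl3 : ¬ l ∣ 3)
    {a0 a1 a2 a0' a1' a2' x0 x1 x2 y0 y1 y2 rd rn B k m : ℤ} (hbad : NonCube l B)
    (hx : a0 * x0 ^ 3 + a1 * x1 ^ 3 + a2 * x2 ^ 3 = 0)
    (cx01 : IsCoprime (a0 * x0) (a1 * x1))
    (hy : a0' * y0 ^ 3 + a1' * y1 ^ 3 + a2' * y2 ^ 3 = 0)
    (cy01 : IsCoprime (a0' * y0) (a1' * y1)) (cy02 : IsCoprime (a0' * y0) (a2' * y2))
    (cy12 : IsCoprime (a1' * y1) (a2' * y2))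
    (h1 : a0 * a1' * rd ^ 3 = a0' * a1 * rn ^ 3)
    (h2 : a0 * a2' * k ^ 3 = a0' * a2 * B) (h3 : a1 * a2' * m ^ 3 = a1' * a2 * B)
    (hun : ¬ l ∣ ((a0' * a1' * a1 * a2 * rd * rn * k * m : ℤ) : Eis))
    (hne : x0 ≠ 0 ∧ y2 ≠ 0) :
    3 ∣ V l (tTwo rd rn x0 x1 y0 y1) := by
  push_cast at hun
  have u0' : ¬ l ∣ (a0' : Eis) := fun h => hun
    (by repeat' first | exact h | apply Dvd.dvd.mul_right)
  have u1' : ¬ l ∣ (a1' : Eis) := fun h => hun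
    (by
      iterate 6 apply Dvd.dvd.mul_right
      exact Dvd.dvd.mul_left h _)
  have u1 : ¬ l ∣ (a1 : Eis) := fun h => hun
    (by
      iterate 5 apply Dvd.dvd.mul_right
      exact Dvd.dvd.mul_left h _)
  have u2 : ¬ l ∣ (a2 : Eis) := fun h => hun
    (by
      iterate 4 apply Dvd.dvd.mul_right
      exact Dvd.dvd.mul_left h _)
  have urd : ¬ l ∣ (rd : Eis) := fun h => hun
    (by
      iterate 3 apply Dvd.dvd.mul_right
      exact Dvd.dvd.mul_left h _)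
  have urn : ¬ l ∣ (rn : Eis) := fun h => hun
    (by
      iterate 2 apply Dvd.dvd.mul_right
      exact Dvd.dvd.mul_left h _)
  have uk : ¬ l ∣ (k : Eis) := fun h => hun
    (by
      iterate 1 apply Dvd.dvd.mul_right
      exact Dvd.dvd.mul_left h _)
  have um : ¬ l ∣ (m : Eis) := fun h => hun (Dvd.dvd.mul_left h _)
  -- casts
  have hxE := cast_eq hx
  have hyE := cast_eq hy
  have h1E := cast_eq h1
  have h2E := cast_eq h2
  have h3E := cast_eq h3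
  push_cast at hxE hyE h1E h2E h3E
  have ha0E : (a0' : Eis) ≠ 0 := by rintro h; rw [h] at u0'; exact u0' (dvd_zero _)
  have hcast0 : ∀ {n : ℤ}, n ≠ 0 → (n : Eis) ≠ 0 := by
    intro n hn h
    have := congrArg Eis.re h
    simp at this
    exact hn this
  -- the main identity
  have hmain : (a1 : Eis) * k ^ 3 * ((w * rd * x1 * y0) ^ 3 + ((-(rn * x0 * y1) : ℤ) : Eis) ^ 3) =
      rd ^ 3 * a2 * ((-(k * x2 * y0)) ^ 3 + B * (x0 * y2) ^ 3) := by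
    apply mul_left_cancel₀ ha0E
    push_cast
    have hw3 := w_cube
    linear_combination (a0' : Eis) * a1 * k ^ 3 * (rd * x1 * y0) ^ 3 * hw3 +
      (k : Eis) ^ 3 * (x0 * y1) ^ 3 * h1E + (rd : Eis) ^ 3 * (x0 * y2) ^ 3 * h2E +
      (k : Eis) ^ 3 * rd ^ 3 * a0' * y0 ^ 3 * hxE - (k : Eis) ^ 3 * rd ^ 3 * a0 * x0 ^ 3 * hyE
  obtain ⟨n0, n1⟩ := three_dvd_V hl hbad _ (-(k * x2 * y0)) (x0 * y2) rfl (fun h =>
    (mul_ne_zero (hcast0 hne.1) (hcast0 hne.2)) h.2)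
  have hc1 : ¬ l ∣ (a1 : Eis) * k ^ 3 := fun h =>
    (hl.dvd_or_dvd h).elim u1 (fun h => uk (hl.dvd_of_dvd_pow h))
  have hc2 : ¬ l ∣ (rd : Eis) ^ 3 * a2 := fun h =>
    (hl.dvd_or_dvd h).elim (fun h => urd (hl.dvd_of_dvd_pow h)) u2
  have hDne : (w * rd * x1 * y0) ^ 3 + ((-(rn * x0 * y1) : ℤ) : Eis) ^ 3 ≠ 0 := by
    intro h
    rw [h, mul_zero] at hmain
    refine mul_ne_zero ?_ n0 hmain.symm
    rintro h; rw [h] at hc2; exact hc2 (dvd_zero _)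
  unfold tTwo
  refine three_dvd_V_add hl hl3 ?_ hDne ?_
  · rintro ⟨g1, g2⟩
    have g1' : l ∣ (x1 : Eis) ∨ l ∣ (y0 : Eis) := by
      rcases hl.dvd_or_dvd g1 with h | h
      · rcases hl.dvd_or_dvd h with h | h
        · exact absurd h (fun h => (hl.dvd_or_dvd h).elim (not_dvd_w hl) urd)
        · exact Or.inl h
      · exact Or.inr h
    have g2' : l ∣ (x0 : Eis) ∨ l ∣ (y1 : Eis) := by
      push_cast at g2
      rw [dvd_neg] at g2
      rcases hl.dvd_or_dvd g2 with h | h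
      · rcases hl.dvd_or_dvd h with h | h
        · exact absurd h urn
        · exact Or.inl h
      · exact Or.inr h
    have ndc : ∀ {s t u v : ℤ}, IsCoprime (s * t) (u * v) → l ∣ (t : Eis) → ¬ l ∣ (v : Eis) := by
      intro s t u v h ht hv
      refine not_dvd_of_coprime' hl h ?_ ?_
      · push_cast; exact Dvd.dvd.mul_left ht _
      · push_cast; exact Dvd.dvd.mul_left hv _
    rcases g1' with g1 | g1 <;> rcases g2' with g2 | g2
    · exact ndc cx01 g2 g1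
    · -- x1, y1
      have e1 : l ∣ (a0' : Eis) * a2 * ((-(k * x2 * y0)) ^ 3 + B * (x0 * y2) ^ 3) := by
        have e : (a0' : Eis) * a2 * ((-(k * x2 * y0)) ^ 3 + B * (x0 * y2) ^ 3) =
          x1 * (a0' * a1 * k ^ 3 * x1 ^ 2 * y0 ^ 3) +
          y1 * (-(a0 * a1' * k ^ 3 * x0 ^ 3 * y1 ^ 2)) := by
          linear_combination (-((x0 * y2 : Eis)) ^ 3) * h2E - (k : Eis) ^ 3 * a0' * y0 ^ 3 * hxE +
            (k : Eis) ^ 3 * a0 * x0 ^ 3 * hyE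
        rw [e]
        exact dvd_add (Dvd.dvd.mul_right g1 _) (Dvd.dvd.mul_right g2 _)
      have e2 := (hl.dvd_or_dvd e1).resolve_left (fun h => (hl.dvd_or_dvd h).elim u0' u2)
      rcases hl.dvd_or_dvd (hbad _ _ e2).2 with h | h
      · exact ndc cx01 h g1
      · exact ndc cy12 g2 h
    · -- y0, x0
      have e1 : l ∣ (a1' : Eis) * a2 * ((-(m * x2 * y1)) ^ 3 + B * (x1 * y2) ^ 3) := by
        have e : (a1' : Eis) * a2 * ((-(m * x2 * y1)) ^ 3 + B * (x1 * y2) ^ 3) =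
          x0 * (a1' * a0 * m ^ 3 * x0 ^ 2 * y1 ^ 3) +
          y0 * (-(a1 * a0' * m ^ 3 * x1 ^ 3 * y0 ^ 2)) := by
          linear_combination (-((x1 * y2 : Eis)) ^ 3) * h3E - (m : Eis) ^ 3 * a1' * y1 ^ 3 * hxE +
            (m : Eis) ^ 3 * a1 * x1 ^ 3 * hyE
        rw [e]
        exact dvd_add (Dvd.dvd.mul_right g2 _) (Dvd.dvd.mul_right g1 _)
      have e2 := (hl.dvd_or_dvd e1).resolve_left (fun h => (hl.dvd_or_dvd h).elim u1' u2)
      rcases hl.dvd_or_dvd (hbad _ _ e2).2 with h | h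
      · exact ndc cx01 g2 h
      · exact ndc cy02 g1 h
    · exact ndc cy01 g1 g2
  · have hV := congrArg (V l) hmain
    rw [V_mul_not_dvd hl hc1 hDne, V_mul_not_dvd hl hc2 n0] at hV
    rw [hV]; exact n1

/-- **Case II**, one exchanged prime -/
theorem caseII_single {q a : ℕ} (hq : q.Prime) (hq3 : q % 3 = 2) (ha : (a : ZMod 3) ≠ 0)
    (hwq : sym (q : Eis) w ≠ 0)
    {a0 a1 a2 a0' a1' a2' x0 x1 x2 y0 y1 y2 rd rn B k m : ℤ}
    (hB : B = (q : ℤ) ^ a)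
    (hx : a0 * x0 ^ 3 + a1 * x1 ^ 3 + a2 * x2 ^ 3 = 0)
    (cx01 : IsCoprime (a0 * x0) (a1 * x1))
    (cx12 : IsCoprime (a1 * x1) (a2 * x2))
    (hy : a0' * y0 ^ 3 + a1' * y1 ^ 3 + a2' * y2 ^ 3 = 0)
    (cy01 : IsCoprime (a0' * y0) (a1' * y1)) (cy02 : IsCoprime (a0' * y0) (a2' * y2))
    (cy12 : IsCoprime (a1' * y1) (a2' * y2))
    (h1 : a0 * a1' * rd ^ 3 = a0' * a1 * rn ^ 3)
    (h2 : a0 * a2' * k ^ 3 = a0' * a2 * B) (h3 : a1 * a2' * m ^ 3 = a1' * a2 * B)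
    (hunit : ∀ l : Eis, Prime l → ¬ l ∣ 3 → ¬ l ∣ (q : Eis) → sym l (q : Eis) ≠ 0 →
      ¬ l ∣ ((a0' * a1' * a1 * a2 * rd * rn * k * m : ℤ) : Eis))
    {f c : ZMod 3}
    (hf : (q : ℤ) ∣ a2 ∧ (q : ℤ) ∣ a2' ∧ ¬ (q : ℤ) ∣ rd ∧ f = 2 ∨
      (q : ℤ) ∣ a0 ∧ (q : ℤ) ∣ a1' ∧ (q : ℤ) ∣ rn ∧ ¬ (q : ℤ) ∣ rd ∧ f = 1 ∨
      (q : ℤ) ∣ a1 ∧ (q : ℤ) ∣ a0' ∧ (q : ℤ) ∣ rd ∧ ¬ (q : ℤ) ∣ rn ∧ f = 0)
    (hc : Cls (tTwo rd rn x0 x1 y0 y1) c)
    (hne : x0 ≠ 0 ∧ y2 ≠ 0) : f = c := by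
  have hQ := prime_inert hq hq3
  obtain ⟨tq, sq⟩ := caseII_one hq hq3 hx cx01 cx12 hy cy01 cy02 h1 hf
  have h1 := lemmaB1 (t := tTwo rd rn x0 x1 y0 y1) hq hq3 tq hc (by
    intro l hl hl3 hlt
    by_cases hgood : sym l (q : Eis) = 0
    · exact Or.inl hgood
    right
    have hlq : ¬ l ∣ (q : Eis) := fun h => tq ((hl.associated_of_dvd hQ h).symm.dvd.trans hlt)
    refine caseII_loc hl hl3 ?_ hx cx01 hy cy01 cy02 cy12 h1 h2 h3
      (hunit l hl hl3 hlq hgood) hne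
    rw [hB]; exact nonCube_pow hl hl3 hlq ha hgood)
  have h2 : f * sym (q : Eis) w = c * sym (q : Eis) w := by rw [← h1]; exact sq.symm
  exact mul_right_cancel₀ hwq h2

end Pool.Agent.Lib_helper84.Cub


end

section

/-!
# Classes at the prime above 3
-/

namespace Pool.Agent.Lib_helper84.Cub

open Pool.Agent.Lib_helper18 Pool.Agent.Lib_helper18.Eis

theorem prim_of {n : ℤ} (hn : ¬ (3 : ℤ) ∣ n) (r : Eis) : Prim ((n : Eis) + 3 * r) := by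
  have h3 : (3 : Eis) = ⟨3, 0⟩ := by decide
  refine ⟨?_, ?_⟩
  · rw [h3]
    simp only [add_im, mul_im, intCast_im]
    omega
  · rw [h3]
    simp only [add_re, mul_re, intCast_re]
    omega

theorem cls_mk {t r : Eis} {n : ℤ} (j i : ℕ) (h : t = lam ^ j * (w ^ i * ((n : Eis) + 3 * r)))
    (hn : ¬ (3 : ℤ) ∣ n) : Cls t ((i : ZMod 3) - j) := by
  refine ⟨j, 2 * i, w ^ i * ((n : Eis) + 3 * r), h, ?_, ?_⟩
  · have e : w ^ i * ((n : Eis) + 3 * r) * w ^ (2 * i) = (n : Eis) + 3 * r := by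
      have h1 : w ^ i * w ^ (2 * i) = 1 := by
        rw [← pow_add, show i + 2 * i = 3 * i by ring, pow_mul, w_cube, one_pow]
      calc w ^ i * ((n : Eis) + 3 * r) * w ^ (2 * i) =
          (w ^ i * w ^ (2 * i)) * ((n : Eis) + 3 * r) := by ring
        _ = _ := by rw [h1, one_mul]
    rw [e]
    exact prim_of hn r
  · push_cast
    linear_combination (i : ZMod 3) * three_zmod

theorem three_lam : (3 : Eis) = lam * (2 + w) := by decide
theorem lam_two : (3 : Eis) = lam ^ 2 * (-w ^ 2) := by decide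

section two

variable {X Y : ℤ}

theorem clsTwo_zero (hX : (3 : ℤ) ∣ X) (hY : ¬ (3 : ℤ) ∣ Y) : Cls (w * X + (-Y : ℤ)) 0 := by
  obtain ⟨v, rfl⟩ := hX
  have := cls_mk (t := w * ((3 * v : ℤ) : Eis) + (-Y : ℤ)) (r := w * v) (n := -Y) 0 0
    (by push_cast; ring) (by rwa [dvd_neg])
  simpa using this

theorem clsTwo_one (hY : (3 : ℤ) ∣ Y) (hX : ¬ (3 : ℤ) ∣ X) : Cls (w * X + (-Y : ℤ)) 1 := by
  obtain ⟨v, rfl⟩ := hY
  have := cls_mk (t := w * (X : Eis) + (-(3 * v) : ℤ)) (r := -w ^ 2 * v) (n := X) 0 1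
    (by
      push_cast
      have h := w_cube
      linear_combination (3 * (v : Eis)) * h) hX
  simpa using this

theorem clsTwo_two (hX : ¬ (3 : ℤ) ∣ X) (h : (3 : ℤ) ∣ X + Y) : Cls (w * X + (-Y : ℤ)) 2 := by
  obtain ⟨v, hv⟩ := h
  have hY : Y = -X + 3 * v := by linarith
  have := cls_mk (t := w * (X : Eis) + (-Y : ℤ)) (r := -w * v) (n := -X) 0 2
    (by
      rw [hY]
      push_cast
      have h := w_cube
      have h1 := w_rel
      linear_combination (3 * (v : Eis)) * h + (X : Eis) * h1) (by rwa [dvd_neg])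
  simpa using this

theorem clsTwo_two' (hX : ¬ (3 : ℤ) ∣ X) (h : (9 : ℤ) ∣ X - Y) : Cls (w * X + (-Y : ℤ)) 2 := by
  obtain ⟨v, hv⟩ := h
  have hY : Y = X - 9 * v := by linarith
  have := cls_mk (t := w * (X : Eis) + (-Y : ℤ)) (r := (2 + w) * v) (n := -X) 1 0
    (by
      rw [hY]
      push_cast
      have h := three_lam
      have h2 := lam_eq
      linear_combination (3 * (v : Eis)) * h + (X : Eis) * h2) (by rwa [dvd_neg])
  have e : ((0 : ℕ) : ZMod 3) - ((1 : ℕ) : ZMod 3) = 2 := by decide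
  rwa [e] at this

/-- finer version -/
theorem clsTwo_fine {s : ℤ} (hX : ¬ (3 : ℤ) ∣ X) (h : (9 : ℤ) ∣ X - Y - 3 * s * X) :
    Cls (w * X + (-Y : ℤ)) (-1 - (s : ZMod 3)) := by
  -- t = -lam X + (X - Y)
  have hs : s % 3 = 0 ∨ s % 3 = 1 ∨ s % 3 = 2 := by omega
  obtain ⟨v, hv⟩ := h
  have hY : Y = X - 3 * s * X - 9 * v := by linarith
  have h3 := three_lam
  have h2 := lam_eq
  have h1 := w_rel
  have hc := w_cube
  rcases hs with hs | hs | hs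
  · obtain ⟨u, hu⟩ : ∃ u, s = 3 * u := ⟨s / 3, by omega⟩
    have := cls_mk (t := w * (X : Eis) + (-Y : ℤ)) (r := (2 + w) * (v + u * X)) (n := -X) 1 0
      (by
        rw [hY, hu]
        push_cast
        linear_combination (3 * ((v : Eis) + u * X)) * h3 + (X : Eis) * h2) (by rwa [dvd_neg])
    have e : ((0 : ℕ) : ZMod 3) - ((1 : ℕ) : ZMod 3) = -1 - (s : ZMod 3) := by
      rw [hu]; push_cast; rw [three_zmod]; ring
    rwa [e] at this
  · -- s = 1 + 3u : t = -lam X + 3 X + 9 ... ; lam * (-X + (2+w) X) = lam X (1 + w) = -lam w² X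
    obtain ⟨u, hu⟩ : ∃ u, s = 1 + 3 * u := ⟨s / 3, by omega⟩
    have := cls_mk (t := w * (X : Eis) + (-Y : ℤ)) (r := w * (2 + w) * (v + u * X)) (n := -X) 1 2
      (by
        rw [hY, hu]
        push_cast
        linear_combination (3 * ((v : Eis) + u * X) + X) * h3 + (X : Eis) * h2 +
          (lam * X) * h1 - lam * (3 * (2 + w) * ((v : Eis) + u * X)) * hc) (by rwa [dvd_neg])
    have e : ((2 : ℕ) : ZMod 3) - ((1 : ℕ) : ZMod 3) = -1 - (s : ZMod 3) := by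
      rw [hu]; push_cast; rw [three_zmod, zero_mul]; decide
    rwa [e] at this
  · -- s = -1 + 3u : lam * (-X - (2+w) X) = lam X (-3 - w)
    obtain ⟨u, hu⟩ : ∃ u, s = -1 + 3 * u := ⟨(s + 1) / 3, by omega⟩
    have := cls_mk (t := w * (X : Eis) + (-Y : ℤ))
      (r := w ^ 2 * ((2 + w) * (v + u * X) - X)) (n := -X) 1 1
      (by
        rw [hY, hu]
        push_cast
        linear_combination (3 * ((v : Eis) + u * X) - X) * h3 + (X : Eis) * h2 -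
          lam * (3 * ((2 + w) * ((v : Eis) + u * X) - X)) * hc) (by rwa [dvd_neg])
    have e : ((1 : ℕ) : ZMod 3) - ((1 : ℕ) : ZMod 3) = -1 - (s : ZMod 3) := by
      rw [hu]; push_cast; rw [three_zmod, zero_mul]; decide
    rwa [e] at this

end two

theorem tTwo_eq (rd rn x0 x1 y0 y1 : ℤ) : tTwo rd rn x0 x1 y0 y1 =
    w * ((rd * x1 * y0 : ℤ) : Eis) + (-(rn * x0 * y1) : ℤ) := by
  rw [tTwo]; push_cast; ring

section one

variable {X0 X1 X2 T y : ℤ}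

theorem ndvd_mul {a b : ℤ} (ha : ¬ (3 : ℤ) ∣ a) (hb : ¬ (3 : ℤ) ∣ b) : ¬ (3 : ℤ) ∣ a * b :=
  fun h => (Int.prime_three.dvd_or_dvd h).elim ha hb

theorem clsOne_div (hT : (9 : ℤ) ∣ T) (hy : ¬ (3 : ℤ) ∣ y) (hsum : X0 + X1 + X2 = 0) {c : ZMod 3}
    (h : (9 : ℤ) ∣ X0 ∧ ¬ (3 : ℤ) ∣ X1 ∧ c = 0 ∨ (9 : ℤ) ∣ X1 ∧ ¬ (3 : ℤ) ∣ X0 ∧ c = 1 ∨
      (9 : ℤ) ∣ X2 ∧ ¬ (3 : ℤ) ∣ X0 ∧ c = 2) :
    Cls ((T : Eis) + res X0 X1 X2 * y) c := by
  obtain ⟨T', rfl⟩ := hT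
  have h3 := three_lam
  have h2 := lam_eq
  have h1 := w_rel
  have hc := w_cube
  have h9 : (9 : Eis) = lam * (3 * (2 + w)) := by decide
  rcases h with ⟨⟨u, hu⟩, hX, rfl⟩ | ⟨⟨u, hu⟩, hX, rfl⟩ | ⟨⟨u, hu⟩, hX, rfl⟩
  · have hX2 : X2 = -X1 - 9 * u := by linarith
    have := cls_mk (t := ((9 * T' : ℤ) : Eis) + res X0 X1 X2 * y)
      (r := w ^ 2 * (2 + w) * (T' + (1 - w ^ 2) * u * y)) (n := X1 * y) 1 1
      (by
        rw [hu, hX2, res]
        push_cast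
        linear_combination ((T' : Eis) + (1 - w ^ 2) * u * y) * h9 -
          lam * (3 * (2 + w) * ((T' : Eis) + (1 - w ^ 2) * u * y)) * hc -
          (X1 * y * w : Eis) * h2) (ndvd_mul hX hy)
    simpa using this
  · have hX2 : X2 = -X0 - 9 * u := by linarith
    have := cls_mk (t := ((9 * T' : ℤ) : Eis) + res X0 X1 X2 * y)
      (r := w * (2 + w) * (T' + (w - w ^ 2) * u * y)) (n := -(X0 * y)) 1 2
      (by
        rw [hu, hX2, res]
        push_cast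
        linear_combination ((T' : Eis) + (w - w ^ 2) * u * y) * h9 -
          lam * (3 * (2 + w) * ((T' : Eis) + (w - w ^ 2) * u * y)) * hc +
          (X0 * y * w ^ 2 : Eis) * h2 + (- (X0 * y : Eis)) * hc) (by
          rw [dvd_neg]; exact ndvd_mul hX hy)
    have e : ((2 : ℕ) : ZMod 3) - ((1 : ℕ) : ZMod 3) = 1 := by decide
    rwa [e] at this
  · have hX1 : X1 = -X0 - 9 * u := by linarith
    have := cls_mk (t := ((9 * T' : ℤ) : Eis) + res X0 X1 X2 * y)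
      (r := (2 + w) * (T' + (w ^ 2 - w) * u * y)) (n := X0 * y) 1 0
      (by
        rw [hu, hX1, res]
        push_cast
        linear_combination ((T' : Eis) + (w ^ 2 - w) * u * y) * h9 -
          (X0 * y : Eis) * h2) (ndvd_mul hX hy)
    have e : ((0 : ℕ) : ZMod 3) - ((1 : ℕ) : ZMod 3) = 2 := by decide
    rwa [e] at this

theorem clsOne_non (hT : (9 : ℤ) ∣ T) (hy : ¬ (3 : ℤ) ∣ y) (hsum : X0 + X1 + X2 = 0) {c : ZMod 3}
    (h : (9 : ℤ) ∣ X1 - X2 ∧ ¬ (3 : ℤ) ∣ X1 ∧ c = 0 ∨ (9 : ℤ) ∣ X0 - X2 ∧ ¬ (3 : ℤ) ∣ X0 ∧ c = 1 ∨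
      (9 : ℤ) ∣ X0 - X1 ∧ ¬ (3 : ℤ) ∣ X0 ∧ c = 2) :
    Cls ((T : Eis) + res X0 X1 X2 * y) c := by
  obtain ⟨T', rfl⟩ := hT
  have h2 := lam_two
  have h1 := w_rel
  have hc := w_cube
  have h9 : (9 : Eis) = lam ^ 2 * (3 * (-w ^ 2)) := by decide
  rcases h with ⟨⟨u, hu⟩, hX, rfl⟩ | ⟨⟨u, hu⟩, hX, rfl⟩ | ⟨⟨u, hu⟩, hX, rfl⟩
  · -- X2 = X1 - 9u, X0 = -2 X1 + 9 u ; res = -3 X1 + 9 u (1 - w²)
    have hX2 : X2 = X1 - 9 * u := by linarith
    have hX0 : X0 = -2 * X1 + 9 * u := by linarith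
    have := cls_mk (t := ((9 * T' : ℤ) : Eis) + res X0 X1 X2 * y)
      (r := -(T' + (1 - w ^ 2) * u * y)) (n := X1 * y) 2 2
      (by
        rw [hX0, hX2, res]
        push_cast
        linear_combination ((T' : Eis) + (1 - w ^ 2) * u * y) * h9 -
          (X1 * y : Eis) * h2 + (X1 * y : Eis) * h1) (ndvd_mul hX hy)
    have e : ((2 : ℕ) : ZMod 3) - ((2 : ℕ) : ZMod 3) = 0 := by decide
    rwa [e] at this
  · -- X2 = X0 - 9u, X1 = -2 X0 + 9u; res = X0 (1 + w²) - 2 w X0 + 9u (w - w²) = -3 w X0 + ..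
    have hX2 : X2 = X0 - 9 * u := by linarith
    have hX1 : X1 = -2 * X0 + 9 * u := by linarith
    have := cls_mk (t := ((9 * T' : ℤ) : Eis) + res X0 X1 X2 * y)
      (r := -w ^ 2 * (T' + (w - w ^ 2) * u * y)) (n := X0 * y) 2 0
      (by
        rw [hX1, hX2, res]
        push_cast
        linear_combination ((T' : Eis) + (w - w ^ 2) * u * y) * h9 -
          (X0 * y * w : Eis) * h2 + (X0 * y : Eis) * h1 +
          (lam ^ 2 * X0 * y : Eis) * hc) (ndvd_mul hX hy)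
    have e : ((0 : ℕ) : ZMod 3) - ((2 : ℕ) : ZMod 3) = 1 := by decide
    rwa [e] at this
  · -- X1 = X0 - 9u, X2 = -2 X0 + 9u ; res = -3 w² X0 + 9 u (w² - w)
    have hX1 : X1 = X0 - 9 * u := by linarith
    have hX2 : X2 = -2 * X0 + 9 * u := by linarith
    have := cls_mk (t := ((9 * T' : ℤ) : Eis) + res X0 X1 X2 * y)
      (r := -w * (T' + (w ^ 2 - w) * u * y)) (n := X0 * y) 2 1
      (by
        rw [hX1, hX2, res]
        push_cast
        linear_combination ((T' : Eis) + (w ^ 2 - w) * u * y) * h9 -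
          (X0 * y * w ^ 2 : Eis) * h2 + (X0 * y : Eis) * h1 +
          (lam ^ 2 * w * X0 * y : Eis) * hc) (ndvd_mul hX hy)
    have e : ((1 : ℕ) : ZMod 3) - ((2 : ℕ) : ZMod 3) = 2 := by decide
    rwa [e] at this

end one

end Pool.Agent.Lib_helper84.Cub


end
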