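import Mathlib
import Pool.Agent.PTDM.C07
import Pool.Agent.PTDM.C09
import Pool.Agent.PTDM.C10

/-! Parts: Lib_helper84.Cub.CaseThree, Lib_helper84.Cub.Glue, Lib_helper84.Cub.GlueB -/

section

/-!
# Case III
-/

namespace Pool.Agent.Lib_helper84.Cub

open Pool.Agent.Lib_helper18 Pool.Agent.Lib_helper18.Eis

theorem cast_ne {n : ℤ} (hn : n ≠ 0) : (n : Eis) ≠ 0 := by
  intro h
  have := congrArg Eis.re h
  simp at this
  exact hn this

theorem prime_ndvd {q s : ℕ} (hq : q.Prime) (hs : s.Prime) (h : q ≠ s) : ¬ q ∣ s :=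
  fun h' => h ((Nat.prime_dvd_prime_iff_eq hq hs).mp h')

/-- **Case III** -/
theorem caseIII {q r p : ℕ} (hq : q.Prime) (hq3 : q % 3 = 2) (hr : r.Prime) (hr3 : r % 3 = 2)
    (hp : p.Prime) (hp3 : p % 3 = 2)
    {B B' C : ℤ} (hBB : B * B' = ((q : ℤ) * r) ^ 3) (hqB : (q : ℤ) ∣ B) (hqB' : (q : ℤ) ∣ B')
    (hpC : (p : ℤ) ∣ C)
    (hC : ∀ l : Eis, Prime l → l ∣ (C : Eis) → ∃ s : ℕ, s.Prime ∧ s % 3 = 2 ∧ Associated l (s : Eis))
    {x y z x' y' z' : ℤ} (h : x ^ 3 + C * y ^ 3 + B * z ^ 3 = 0)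
    (h' : x' ^ 3 + C * y' ^ 3 + B' * z' ^ 3 = 0)
    (cxy : IsCoprime x (C * y)) (cyz : IsCoprime (C * y) (B * z))
    (cxy' : IsCoprime x' (C * y'))
    (cyz' : IsCoprime (C * y') (B' * z'))
    (hz : z ≠ 0) (hz' : z' ≠ 0)
    (hwq : sym (q : Eis) w ≠ 0) (hwp : sym (p : Eis) w ≠ 0) : False := by
  have hQ := prime_inert hq hq3
  have hR := prime_inert hr hr3
  have hP := prime_inert hp hp3
  have hQ3 := n3 hq hq3
  have hR3 := n3 hr hr3
  have hP3 := n3 hp hp3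
  have hqZ := Nat.prime_iff_prime_int.mp hq
  have hpZ := Nat.prime_iff_prime_int.mp hp
  have hE := cast_eq h
  have hE' := cast_eq h'
  have hBBE := cast_eq hBB
  push_cast at hE hE' hBBE
  set Ξ := Xi (C : Eis) ((q * r : Eis) * z * z') (x * x') (x * y' + x' * y) (y * y') with hΞ
  -- modulo q
  have qC : ¬ (q : ℤ) ∣ C := not_dvd_of_coprime hq
    (IsCoprime.of_mul_left_left cyz).symm (Dvd.dvd.mul_right hqB _)
  have qy : ¬ (q : ℤ) ∣ y := not_dvd_of_coprime hq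
    (IsCoprime.of_mul_left_right cyz).symm (Dvd.dvd.mul_right hqB _)
  have qy' : ¬ (q : ℤ) ∣ y' := not_dvd_of_coprime hq
    (IsCoprime.of_mul_left_right cyz').symm (Dvd.dvd.mul_right hqB' _)
  have q1 : (q : ℤ) ∣ x ^ 3 + C * y ^ 3 := by
    have e : x ^ 3 + C * y ^ 3 = B * (-z ^ 3) := by linear_combination h
    rw [e]; exact Dvd.dvd.mul_right hqB _
  have q2 : (q : ℤ) ∣ x' ^ 3 + C * y' ^ 3 := by
    have e : x' ^ 3 + C * y' ^ 3 = B' * (-z' ^ 3) := by linear_combination h'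
    rw [e]; exact Dvd.dvd.mul_right hqB' _
  have q3 : (q : ℤ) ∣ x * y' - x' * y := by
    apply cube_inj hq hq3
    have e : (x * y') ^ 3 - (x' * y) ^ 3 = (x ^ 3 + C * y ^ 3) * y' ^ 3 -
      (x' ^ 3 + C * y' ^ 3) * y ^ 3 := by ring
    rw [e]; exact dvd_sub (Dvd.dvd.mul_right q1 _) (Dvd.dvd.mul_right q2 _)
  have q9 : ¬ (q : ℤ) ∣ -9 * C ^ 2 * (y * y') ^ 3 := by
    intro hd
    rcases hqZ.dvd_or_dvd hd with hd | hd
    · rcases hqZ.dvd_or_dvd hd with hd | hd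
      · have h9 : (q : ℤ) ∣ 9 := by
          rw [neg_eq_neg_one_mul] at hd
          have := (dvd_neg (a := (q : ℤ)) (b := 9)).mp (by simpa using hd)
          exact this
        have h9' : (q : ℤ) ∣ 3 ^ 2 := by norm_num; exact h9
        have h3' := hqZ.dvd_of_dvd_pow h9'
        have h3n : q ∣ 3 := by exact_mod_cast h3'
        have := (Nat.prime_dvd_prime_iff_eq hq Nat.prime_three).mp h3n
        omega
      · exact qC (hqZ.dvd_of_dvd_pow hd)
    · rcases hqZ.dvd_or_dvd (hqZ.dvd_of_dvd_pow hd) with hd | hd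
      · exact qy hd
      · exact qy' hd
  have q1E := cast_dvd_cast.mpr q1
  have q2E := cast_dvd_cast.mpr q2
  have q3E := cast_dvd_cast.mpr q3
  push_cast at q1E q2E q3E
  have hw2 : ¬ (q : Eis) ∣ w ^ 2 := fun h => not_dvd_w hQ (hQ.dvd_of_dvd_pow h)
  have q9E : ¬ (q : Eis) ∣ ((-9 * C ^ 2 * (y * y') ^ 3 : ℤ) : Eis) := fun h => q9 (cast_dvd_cast.mp h)
  have qΞ : (q : Eis) ∣ Ξ - ((-9 * C ^ 2 * (y * y') ^ 3 : ℤ) : Eis) * w ^ 2 := by
    have e : Ξ - ((-9 * C ^ 2 * (y * y') ^ 3 : ℤ) : Eis) * w ^ 2 =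
        (q : Eis) * (r * z * z' * (3 * (x * x') ^ 2 + 3 * (x * x') * (q * r * z * z') +
          2 * (q * r * z * z') ^ 2 - 3 * C * (x * y' + x' * y) * (y * y'))) +
        ((x : Eis) ^ 3 + C * y ^ 3) * (x' ^ 3 + 8 * w ^ 2 * C * y' ^ 3) -
        ((x' : Eis) ^ 3 + C * y' ^ 3) * (C * y ^ 3) +
        ((x : Eis) * y' - x' * y) * (-(w ^ 2 * C * ((x * y' + x' * y) ^ 2 +
          (x * y' + x' * y) * (2 * x * y') + (2 * x * y') ^ 2))) := by
      have h4 := w_rel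
      rw [hΞ, Xi]
      push_cast
      linear_combination ((C : Eis) ^ 2 * (y * y') ^ 3) * h4
    rw [e]
    exact dvd_add (dvd_sub (dvd_add (dvd_mul_right _ _) (Dvd.dvd.mul_right q1E _))
      (Dvd.dvd.mul_right q2E _)) (Dvd.dvd.mul_right q3E _)
  have qnd : ¬ (q : Eis) ∣ Ξ := by
    intro hd
    have := dvd_sub hd qΞ
    rw [sub_sub_cancel] at this
    exact (hQ.dvd_or_dvd this).elim q9E hw2
  have symq : sym (q : Eis) Ξ = 2 * sym (q : Eis) w := by
    rw [sym_congr qΞ, sym_mul hQ hQ3 q9E hw2, sym_int hq hq3 q9, sym_pow hQ hQ3 (not_dvd_w hQ)]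
    push_cast; ring
  -- modulo p
  have px : ¬ (p : ℤ) ∣ x := not_dvd_of_coprime hp cxy.symm (Dvd.dvd.mul_right hpC _)
  have px' : ¬ (p : ℤ) ∣ x' := not_dvd_of_coprime hp cxy'.symm (Dvd.dvd.mul_right hpC _)
  have p1 : (p : ℤ) ∣ x * x' - q * r * z * z' := by
    apply cube_inj hp hp3
    have e : (x * x') ^ 3 - (q * r * z * z') ^ 3 = C * (-(y ^ 3 * x' ^ 3) + B * z ^ 3 * y' ^ 3) := by
      linear_combination x' ^ 3 * h - B * z ^ 3 * h' + (z * z') ^ 3 * hBB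
    rw [e]; exact Dvd.dvd.mul_right hpC _
  have p9 : ¬ (p : ℤ) ∣ 9 * (x * x') ^ 3 := by
    intro hd
    rcases hpZ.dvd_or_dvd hd with hd | hd
    · have h9' : (p : ℤ) ∣ 3 ^ 2 := by norm_num; exact hd
      have h3' := hpZ.dvd_of_dvd_pow h9'
      have h3n : p ∣ 3 := by exact_mod_cast h3'
      have := (Nat.prime_dvd_prime_iff_eq hp Nat.prime_three).mp h3n
      omega
    · rcases hpZ.dvd_or_dvd (hpZ.dvd_of_dvd_pow hd) with hd | hd
      · exact px hd
      · exact px' hd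
  have p1E := cast_dvd_cast.mpr p1
  have pCE := cast_dvd_cast.mpr hpC
  push_cast at p1E
  have p9E : ¬ (p : Eis) ∣ ((9 * (x * x') ^ 3 : ℤ) : Eis) := fun h => p9 (cast_dvd_cast.mp h)
  have pΞ : (p : Eis) ∣ Ξ - ((9 * (x * x') ^ 3 : ℤ) : Eis) := by
    have e : Ξ - ((9 * (x * x') ^ 3 : ℤ) : Eis) =
        ((x : Eis) * x' - q * r * z * z') * (-((q * r * z * z' + x * x') ^ 2 +
          (q * r * z * z' + x * x') * (2 * x * x') + (2 * x * x') ^ 2 +
          (q * r * z * z') ^ 2 + (q * r * z * z') * (x * x') + (x * x') ^ 2)) +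
        (C : Eis) * (w ^ 2 * (x * y' + x' * y) ^ 3 + w * C * (y * y') ^ 3 -
          3 * (x * y' + x' * y) * (y * y') * (q * r * z * z')) := by
      rw [hΞ, Xi]
      push_cast
      ring
    rw [e]
    exact dvd_add (Dvd.dvd.mul_right p1E _) (Dvd.dvd.mul_right pCE _)
  have pnd : ¬ (p : Eis) ∣ Ξ := by
    intro hd
    have := dvd_sub hd pΞ
    rw [sub_sub_cancel] at this
    exact p9E this
  have symp : sym (p : Eis) Ξ = 0 := by
    rw [sym_congr pΞ, sym_int hp hp3 p9]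
  -- exponents
  obtain ⟨b, hb⟩ : ∃ b : ZMod 3, 1 * sym (q : Eis) w + b * sym (p : Eis) w = 0 := by
    have key : ∀ u v : ZMod 3, v ≠ 0 → ∃ b : ZMod 3, 1 * u + b * v = 0 := by decide
    exact key _ _ hwp
  have hΞ0 : Ξ ≠ 0 := by
    intro h0; rw [h0] at qnd; exact qnd (dvd_zero _)
  have hfin := lemmaB hq hq3 hp hp3 1 b hb _ Ξ rfl hΞ0 qnd pnd (by
    intro l hl hl3 hlΞ
    have hlq : ¬ l ∣ (q : Eis) := fun h => qnd ((hl.associated_of_dvd hQ h).symm.dvd.trans hlΞ)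
    have hlp : ¬ l ∣ (p : Eis) := fun h => pnd ((hl.associated_of_dvd hP h).symm.dvd.trans hlΞ)
    have inert_good : ∀ s : ℕ, s.Prime → s % 3 = 2 → Associated l (s : Eis) →
        1 * sym l (q : Eis) + b * sym l (p : Eis) = 0 := by
      intro s hs hs3 hass
      have h1 : ¬ s ∣ q := by
        intro hd
        exact hlq (hass.dvd.trans (Nat.cast_dvd_cast hd))
      have h2 : ¬ s ∣ p := by
        intro hd
        exact hlp (hass.dvd.trans (Nat.cast_dvd_cast hd))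
      rw [sym_associated hass, sym_associated hass, sym_nat hs hs3 h1, sym_nat hs hs3 h2]
      ring
    by_cases hlC : l ∣ (C : Eis)
    · obtain ⟨s, hs, hs3, hass⟩ := hC l hl hlC
      exact Or.inl (inert_good s hs hs3 hass)
    by_cases hlr : l ∣ (r : Eis)
    · exact Or.inl (inert_good r hr hr3 (hl.associated_of_dvd hR hlr))
    right
    have hlqr : ¬ l ∣ (q : Eis) * r := fun h => (hl.dvd_or_dvd h).elim hlq hlr
    have hlBB : ¬ l ∣ (B : Eis) * B' := by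
      rw [hBBE]; exact fun h => hlqr (hl.dvd_of_dvd_pow h)
    have ndc : ∀ {s t : ℤ}, IsCoprime s (C * t) → ¬ (l ∣ (s : Eis) ∧ l ∣ (t : Eis)) := by
      intro s t hc ⟨h1, h2⟩
      refine not_dvd_of_coprime' hl hc h1 ?_
      push_cast; exact Dvd.dvd.mul_left h2 _
    exact caseIII_local hl hl3 hlC hE hE' hBBE (fun h => hlBB (Dvd.dvd.mul_right h _))
      (fun h => hlBB (Dvd.dvd.mul_left h _)) (ndc cxy) (ndc cxy') (cast_ne hz) (cast_ne hz')
      hlqr hΞ0)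
  rw [symq, symp] at hfin
  have key : ∀ u b : ZMod 3, 1 * (2 * u) + b * 0 = 0 → u = 0 := by decide
  exact hwq (key _ _ hfin)

end Pool.Agent.Lib_helper84.Cub


end

section

/-!
# From the cells to the three cases
-/

namespace Pool.Agent.Lib_helper84.Cub

open Pool.Agent.Lib_helper18 Pool.Agent.Lib_helper18.Eis

variable {m : ℕ} {p e e' : Fin m → ℕ} {pos pos' : Fin m → Fin 3} {x y : Fin 3 → ℤ}

theorem cell_perm (p e : Fin m → ℕ) (pos : Fin m → Fin 3) (σ : Equiv.Perm (Fin 3)) (k : Fin 3) :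
    cell p e (σ ∘ pos) (σ k) = cell p e pos k := by
  simp [cell]

theorem IsPt.perm (h : IsPt p e pos x) (σ : Equiv.Perm (Fin 3)) :
    IsPt p e (σ ∘ pos) (x ∘ σ.symm) := by
  have hc : ∀ k, cell p e (σ ∘ pos) k = cell p e pos (σ.symm k) := by
    intro k
    have := cell_perm p e pos σ (σ.symm k)
    rwa [σ.apply_symm_apply] at this
  refine ⟨fun k => h.ne _, ?_, ?_⟩
  · have := Equiv.sum_comp σ.symm (fun k => cell p e pos k * x k ^ 3)
    rw [← h.sum, ← this]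
    refine Finset.sum_congr rfl (fun k _ => ?_)
    rw [hc]; rfl
  · intro i j hij
    rw [hc, hc]
    exact h.cop _ _ (fun h' => hij (σ.symm.injective h'))

/-- the set of the two special indices -/
abbrev Sp (i0 i1 j : Fin m) : Prop := j = i0 ∨ j = i1

/-- the relation between the exponents -/
def Rel (i0 i1 : Fin m) (e e' : Fin m → ℕ) : Prop :=
  ∀ j, if Sp i0 i1 j then e j + e' j = 3 else e j = e' j

theorem Rel.symm {i0 i1 : Fin m} (h : Rel i0 i1 e e') : Rel i0 i1 e' e := by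
  intro j
  have := h j
  split_ifs at this ⊢ with hj
  · omega
  · exact this.symm

theorem prod_Sp {i0 i1 : Fin m} (h01 : i0 ≠ i1) (f : Fin m → ℤ) :
    ∏ j, (if Sp i0 i1 j then f j else 1) = f i0 * f i1 := by
  have e : ∀ j, (if Sp i0 i1 j then f j else 1) =
      (if j = i0 then f j else 1) * (if j = i1 then f j else 1) := by
    intro j
    by_cases h0 : j = i0
    · have h1 : j ≠ i1 := fun h => h01 (h0.symm.trans h)
      simp [h0, h01]
    · by_cases h1 : j = i1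
      · simp [h1, h01.symm]
      · simp [Sp, h0, h1]
  rw [Finset.prod_congr rfl (fun j _ => e j), Finset.prod_mul_distrib]
  simp

/-- all primes of `Z[ω]` dividing `n` divide some `p j` -/
def SPr (p : Fin m → ℕ) (n : ℤ) : Prop :=
  ∀ l : Eis, Prime l → l ∣ (n : Eis) → ∃ j, l ∣ (p j : Eis)

theorem SPr.mul {a b : ℤ} (ha : SPr p a) (hb : SPr p b) : SPr p (a * b) := by
  intro l hl h
  push_cast at h
  rcases hl.dvd_or_dvd h with h | h
  · exact ha l hl h
  · exact hb l hl h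

theorem SPr.prod (p : Fin m → ℕ) (c : Fin m → Prop) [DecidablePred c] (n : Fin m → ℕ) :
    SPr p (∏ j, if c j then (p j : ℤ) ^ n j else 1) := by
  intro l hl h
  push_cast at h
  rw [Prime.dvd_finsetProd_iff hl] at h
  obtain ⟨j, -, hj⟩ := h
  split_ifs at hj with hc
  · exact ⟨j, hl.dvd_of_dvd_pow hj⟩
  · exact absurd (isUnit_of_dvd_one hj) hl.not_isUnit

theorem dvd_prod_if {p : Fin m → ℕ} (c : Fin m → Prop) [DecidablePred c] {n : Fin m → ℕ} {i : Fin m}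
    (hc : c i) (hn : n i ≠ 0) : (p i : ℤ) ∣ ∏ j, if c j then (p j : ℤ) ^ n j else 1 := by
  refine dvd_trans ?_ (Finset.dvd_prod_of_mem _ (Finset.mem_univ i))
  rw [if_pos hc]
  exact dvd_pow_self _ hn

theorem not_dvd_prod_if (hp : ∀ i, (p i).Prime) (hinj : Function.Injective p) (c : Fin m → Prop)
    [DecidablePred c] {n : Fin m → ℕ} {i : Fin m} (hc : ¬ c i) :
    ¬ (p i : ℤ) ∣ ∏ j, if c j then (p j : ℤ) ^ n j else 1 := by
  have hP := Nat.prime_iff_prime_int.mp (hp i)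
  intro h
  rw [Prime.dvd_finsetProd_iff hP] at h
  obtain ⟨j, -, hj⟩ := h
  split_ifs at hj with hcj
  · have h1 := hP.dvd_of_dvd_pow hj
    have h2 : p i ∣ p j := by exact_mod_cast h1
    have h3 := (Nat.prime_dvd_prime_iff_eq (hp i) (hp j)).mp h2
    rw [hinj h3] at hc
    exact hc hcj
  · exact hP.not_isUnit (isUnit_of_dvd_one hj)

theorem sum3 {f : Fin 3 → ℤ} (h : ∑ k, f k = 0) : f 0 + f 1 + f 2 = 0 := by
  rwa [Fin.sum_univ_three] at h

/-- data used in all cases -/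
structure Base (p e e' : Fin m → ℕ) (i0 i1 : Fin m) : Prop where
  hp : ∀ i, (p i).Prime
  h3 : ∀ i, p i % 3 = 2
  inj : Function.Injective p
  he : ∀ i, e i = 1 ∨ e i = 2
  he' : ∀ i, e' i = 1 ∨ e' i = 2
  h01 : i0 ≠ i1
  hw : ∀ i, sym (p i : Eis) w ≠ 0
  hab : (e i0 : ZMod 3) * sym (p i0 : Eis) w + (e i1 : ZMod 3) * sym (p i1 : Eis) w = 0
  rel : Rel i0 i1 e e'

theorem Base.symm {i0 i1 : Fin m} (b : Base p e e' i0 i1) : Base p e' e i0 i1 where
  hp := b.hp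
  h3 := b.h3
  inj := b.inj
  he := b.he'
  he' := b.he
  h01 := b.h01
  hw := b.hw
  hab := by
    have h0 := b.rel i0
    have h1 := b.rel i1
    rw [if_pos (Or.inl rfl)] at h0
    rw [if_pos (Or.inr rfl)] at h1
    have h0' : (e i0 : ZMod 3) + e' i0 = 0 := by
      have := congrArg (fun n : ℕ => (n : ZMod 3)) h0
      push_cast at this
      rw [this, three_zmod]
    have h1' : (e i1 : ZMod 3) + e' i1 = 0 := by
      have := congrArg (fun n : ℕ => (n : ZMod 3)) h1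
      push_cast at this
      rw [this, three_zmod]
    linear_combination sym (p i0 : Eis) w * h0' + sym (p i1 : Eis) w * h1' - b.hab
  rel := b.rel.symm

theorem zmod_ne {n : ℕ} (h : n = 1 ∨ n = 2) : (n : ZMod 3) ≠ 0 := by
  rcases h with rfl | rfl <;> decide

theorem Base.good {i0 i1 : Fin m} (b : Base p e e' i0 i1) {l : Eis} (hl : Prime l)
    (hq : ¬ l ∣ (p i0 : Eis)) (hr : ¬ l ∣ (p i1 : Eis)) {j : Fin m} (hj : l ∣ (p j : Eis)) :
    (e i0 : ZMod 3) * sym l (p i0 : Eis) + (e i1 : ZMod 3) * sym l (p i1 : Eis) = 0 := by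
  have hass := hl.associated_of_dvd (prime_inert (b.hp j) (b.h3 j)) hj
  have h1 : ¬ p j ∣ p i0 := fun h => hq (hass.dvd.trans (Nat.cast_dvd_cast h))
  have h2 : ¬ p j ∣ p i1 := fun h => hr (hass.dvd.trans (Nat.cast_dvd_cast h))
  rw [sym_associated hass, sym_associated hass, sym_nat (b.hp j) (b.h3 j) h1,
    sym_nat (b.hp j) (b.h3 j) h2]
  ring

/-- swap 0 and 1 -/
def tau : Fin 3 → Fin 3 := ![1, 0, 2]

def fpos : Fin 3 → ZMod 3 := ![1, 0, 2]

theorem fpos_inj : ∀ a b : Fin 3, fpos a = fpos b → a = b := by decide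

theorem concl_eq {a b u v f g : ZMod 3} (h : a * u + b * v = 0) (ha : a ≠ 0) (hu : u ≠ 0)
    (h' : a * (f * u) + b * (g * v) = 0) : f = g := by
  revert a b u v f g; decide

/-- **Case II** in terms of cells -/
theorem caseII_gen {i0 i1 : Fin m} (b : Base p e e' i0 i1) (hP : IsPt p e pos x)
    (hP' : IsPt p e' pos' y) (hne : pos i0 ≠ pos i1)
    (hpos : ∀ j, pos' j = if Sp i0 i1 j then tau (pos j) else pos j) : False := by
  apply hne
  apply fpos_inj
  refine concl_eq (a := (e i0 : ZMod 3)) (b := (e i1 : ZMod 3)) b.hab (zmod_ne (b.he i0))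
    (b.hw i0) ?_
  have key : ∀ i : Fin m, Sp i0 i1 i →
      ((p i : ℤ) ∣ cell p e pos 2 ∧ (p i : ℤ) ∣ cell p e' pos' 2 ∧
        ¬ (p i : ℤ) ∣ (∏ j, if Sp i0 i1 j ∧ pos j = 1 then (p j : ℤ) ^ 1 else 1) ∧
        fpos (pos i) = 2 ∨
      (p i : ℤ) ∣ cell p e pos 0 ∧ (p i : ℤ) ∣ cell p e' pos' 1 ∧
        (p i : ℤ) ∣ (∏ j, if Sp i0 i1 j ∧ pos j = 0 then (p j : ℤ) ^ 1 else 1) ∧
        ¬ (p i : ℤ) ∣ (∏ j, if Sp i0 i1 j ∧ pos j = 1 then (p j : ℤ) ^ 1 else 1) ∧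
        fpos (pos i) = 1 ∨
      (p i : ℤ) ∣ cell p e pos 1 ∧ (p i : ℤ) ∣ cell p e' pos' 0 ∧
        (p i : ℤ) ∣ (∏ j, if Sp i0 i1 j ∧ pos j = 1 then (p j : ℤ) ^ 1 else 1) ∧
        ¬ (p i : ℤ) ∣ (∏ j, if Sp i0 i1 j ∧ pos j = 0 then (p j : ℤ) ^ 1 else 1) ∧
        fpos (pos i) = 0) := by
    intro i hi
    have he0 : e i ≠ 0 := by have := b.he i; omega
    have he0' : e' i ≠ 0 := by have := b.he' i; omega
    have hp' := hpos i
    rw [if_pos hi] at hp'
    have h3 : pos i = 0 ∨ pos i = 1 ∨ pos i = 2 := by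
      generalize pos i = k; revert k; decide
    rcases h3 with h3 | h3 | h3
    · right; left
      rw [h3] at hp' ⊢
      exact ⟨dvd_prod_if (fun j => pos j = 0) h3 he0,
        dvd_prod_if (fun j => pos' j = 1) hp' he0',
        dvd_prod_if (fun j => Sp i0 i1 j ∧ pos j = 0) ⟨hi, h3⟩ one_ne_zero,
        not_dvd_prod_if b.hp b.inj (fun j => Sp i0 i1 j ∧ pos j = 1)
          (fun h => by have := h.2; rw [h3] at this; exact absurd this (by decide)), rfl⟩
    · right; right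
      rw [h3] at hp' ⊢
      exact ⟨dvd_prod_if (fun j => pos j = 1) h3 he0,
        dvd_prod_if (fun j => pos' j = 0) hp' he0',
        dvd_prod_if (fun j => Sp i0 i1 j ∧ pos j = 1) ⟨hi, h3⟩ one_ne_zero,
        not_dvd_prod_if b.hp b.inj (fun j => Sp i0 i1 j ∧ pos j = 0)
          (fun h => by have := h.2; rw [h3] at this; exact absurd this (by decide)), rfl⟩
    · left
      rw [h3] at hp' ⊢
      exact ⟨dvd_prod_if (fun j => pos j = 2) h3 he0,
        dvd_prod_if (fun j => pos' j = 2) hp' he0',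
        not_dvd_prod_if b.hp b.inj (fun j => Sp i0 i1 j ∧ pos j = 1)
          (fun h => by have := h.2; rw [h3] at this; exact absurd this (by decide)), rfl⟩
  have hx := sum3 hP.sum
  have hy := sum3 hP'.sum
  refine caseII (b.hp i0) (b.h3 i0) (b.hp i1) (b.h3 i1) b.hab
    (B := (p i0 : ℤ) ^ e i0 * (p i1 : ℤ) ^ e i1)
    (k := ∏ j, if Sp i0 i1 j ∧ (pos j = 1 ∨ pos j = 2 ∧ e j = 2) then (p j : ℤ) ^ 1 else 1)
    (m := ∏ j, if Sp i0 i1 j ∧ (pos j = 0 ∨ pos j = 2 ∧ e j = 2) then (p j : ℤ) ^ 1 else 1)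
    rfl hx (hP.cop 0 1 (by decide)) (hP.cop 1 2 (by decide)) hy (hP'.cop 0 1 (by decide))
    (hP'.cop 0 2 (by decide)) (hP'.cop 1 2 (by decide)) ?_ ?_ ?_ ?_ (key i0 (Or.inl rfl))
    (key i1 (Or.inr rfl)) ⟨hP.ne 0, hP'.ne 2⟩
  · -- h1
    simp only [cell, ← Finset.prod_mul_distrib, ← Finset.prod_pow]
    refine Finset.prod_congr rfl (fun j _ => ?_)
    have hj := hpos j
    have hr := b.rel j
    have hej := b.he j
    have h3 : pos j = 0 ∨ pos j = 1 ∨ pos j = 2 := by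
      generalize pos j = k; revert k; decide
    split_ifs at hj hr with hS
    · have hee : (e j = 1 ∧ e' j = 2) ∨ (e j = 2 ∧ e' j = 1) := by omega
      rcases h3 with h3 | h3 | h3 <;> rcases hee with ⟨he, h9⟩ | ⟨he, h9⟩ <;> rw [h3] at hj <;>
        simp [hj, h3, hS, he, h9, tau] <;> ring
    · rcases h3 with h3 | h3 | h3 <;> rw [h3] at hj <;> simp [hj, h3, hS, hr]
  · -- h2
    rw [← prod_Sp b.h01 (fun j => (p j : ℤ) ^ e j)]
    simp only [cell, ← Finset.prod_mul_distrib, ← Finset.prod_pow]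
    refine Finset.prod_congr rfl (fun j _ => ?_)
    have hj := hpos j
    have hr := b.rel j
    have hej := b.he j
    have h3 : pos j = 0 ∨ pos j = 1 ∨ pos j = 2 := by
      generalize pos j = k; revert k; decide
    split_ifs at hj hr with hS
    · have hee : (e j = 1 ∧ e' j = 2) ∨ (e j = 2 ∧ e' j = 1) := by omega
      rcases h3 with h3 | h3 | h3 <;> rcases hee with ⟨he, h9⟩ | ⟨he, h9⟩ <;> rw [h3] at hj <;>
        simp [hj, h3, hS, he, h9, tau] <;> ring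
    · rcases h3 with h3 | h3 | h3 <;> rw [h3] at hj <;> simp [hj, h3, hS, hr]
  · -- h3
    rw [← prod_Sp b.h01 (fun j => (p j : ℤ) ^ e j)]
    simp only [cell, ← Finset.prod_mul_distrib, ← Finset.prod_pow]
    refine Finset.prod_congr rfl (fun j _ => ?_)
    have hj := hpos j
    have hr := b.rel j
    have hej := b.he j
    have h3 : pos j = 0 ∨ pos j = 1 ∨ pos j = 2 := by
      generalize pos j = k; revert k; decide
    split_ifs at hj hr with hS
    · have hee : (e j = 1 ∧ e' j = 2) ∨ (e j = 2 ∧ e' j = 1) := by omega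
      rcases h3 with h3 | h3 | h3 <;> rcases hee with ⟨he, h9⟩ | ⟨he, h9⟩ <;> rw [h3] at hj <;>
        simp [hj, h3, hS, he, h9, tau] <;> ring
    · rcases h3 with h3 | h3 | h3 <;> rw [h3] at hj <;> simp [hj, h3, hS, hr]
  · -- units
    intro l hl hl3 hlq hlr hbad hdvd
    apply hbad
    have hS : SPr p (cell p e' pos' 0 * cell p e' pos' 1 * cell p e pos 1 * cell p e pos 2 *
      (∏ j, if Sp i0 i1 j ∧ pos j = 1 then (p j : ℤ) ^ 1 else 1) *
      (∏ j, if Sp i0 i1 j ∧ pos j = 0 then (p j : ℤ) ^ 1 else 1) *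
      (∏ j, if Sp i0 i1 j ∧ (pos j = 1 ∨ pos j = 2 ∧ e j = 2) then (p j : ℤ) ^ 1 else 1) *
      (∏ j, if Sp i0 i1 j ∧ (pos j = 0 ∨ pos j = 2 ∧ e j = 2) then (p j : ℤ) ^ 1 else 1)) := by
      refine SPr.mul (SPr.mul (SPr.mul (SPr.mul (SPr.mul (SPr.mul (SPr.mul ?_ ?_) ?_) ?_)
        ?_) ?_) ?_) ?_
      · exact SPr.prod p (fun j => pos' j = 0) e'
      · exact SPr.prod p (fun j => pos' j = 1) e'
      · exact SPr.prod p (fun j => pos j = 1) e
      · exact SPr.prod p (fun j => pos j = 2) e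
      · exact SPr.prod p (fun j => Sp i0 i1 j ∧ pos j = 1) (fun _ => 1)
      · exact SPr.prod p (fun j => Sp i0 i1 j ∧ pos j = 0) (fun _ => 1)
      · exact SPr.prod p (fun j => Sp i0 i1 j ∧ (pos j = 1 ∨ pos j = 2 ∧ e j = 2)) (fun _ => 1)
      · exact SPr.prod p (fun j => Sp i0 i1 j ∧ (pos j = 0 ∨ pos j = 2 ∧ e j = 2)) (fun _ => 1)
    obtain ⟨j, hj⟩ := hS l hl hdvd
    exact b.good hl hlq hlr hj

end Pool.Agent.Lib_helper84.Cub


end

section

/-!
# Cases I and III in terms of cells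
-/

namespace Pool.Agent.Lib_helper84.Cub

open Pool.Agent.Lib_helper18 Pool.Agent.Lib_helper18.Eis

variable {m : ℕ} {p e e' : Fin m → ℕ} {pos pos' : Fin m → Fin 3} {x y : Fin 3 → ℤ}

/-- the standard position with the two special primes together -/
def stdp (i0 i1 : Fin m) (j : Fin m) : Fin 3 := if Sp i0 i1 j then 2 else 1

theorem cell_std0 (p e : Fin m → ℕ) (i0 i1 : Fin m) : cell p e (stdp i0 i1) 0 = 1 := by
  unfold cell stdp
  refine Finset.prod_eq_one (fun j _ => ?_)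
  by_cases h : Sp i0 i1 j
  · rw [if_pos h, if_neg (by decide)]
  · rw [if_neg h, if_neg (by decide)]

theorem cell_std1 (p e : Fin m → ℕ) (i0 i1 : Fin m) :
    cell p e (stdp i0 i1) 1 = ∏ j, if ¬ Sp i0 i1 j then (p j : ℤ) ^ e j else 1 := by
  unfold cell stdp
  refine Finset.prod_congr rfl (fun j _ => ?_)
  by_cases h : Sp i0 i1 j
  · rw [if_pos h, if_neg (by decide), if_neg (not_not.mpr h)]
  · rw [if_neg h, if_pos rfl, if_pos h]

theorem cell_std2 (p e : Fin m → ℕ) {i0 i1 : Fin m} (h01 : i0 ≠ i1) :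
    cell p e (stdp i0 i1) 2 = (p i0 : ℤ) ^ e i0 * (p i1 : ℤ) ^ e i1 := by
  rw [← prod_Sp h01 (fun j => (p j : ℤ) ^ e j)]
  unfold cell stdp
  refine Finset.prod_congr rfl (fun j _ => ?_)
  by_cases h : Sp i0 i1 j
  · rw [if_pos h, if_pos rfl, if_pos h]
  · rw [if_neg h, if_neg (by decide), if_neg h]

theorem cell_std1_eq {i0 i1 : Fin m} (h : Rel i0 i1 e e') :
    cell p e (stdp i0 i1) 1 = cell p e' (stdp i0 i1) 1 := by
  rw [cell_std1, cell_std1]
  refine Finset.prod_congr rfl (fun j _ => ?_)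
  have := h j
  by_cases hS : Sp i0 i1 j
  · rw [if_neg (not_not.mpr hS), if_neg (not_not.mpr hS)]
  · rw [if_neg hS] at this
    rw [this]

theorem Base.BB {i0 i1 : Fin m} (b : Base p e e' i0 i1) :
    ((p i0 : ℤ) ^ e i0 * (p i1 : ℤ) ^ e i1) * ((p i0 : ℤ) ^ e' i0 * (p i1 : ℤ) ^ e' i1) =
      ((p i0 : ℤ) * p i1) ^ 3 := by
  have h0 := b.rel i0
  have h1 := b.rel i1
  rw [if_pos (Or.inl rfl)] at h0
  rw [if_pos (Or.inr rfl)] at h1
  rw [mul_pow, ← h0]
  conv_rhs => rw [h0, ← h1]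
  conv_rhs => rw [h1, ← h0]
  have e1 : (p i1 : ℤ) ^ (e i0 + e' i0) = (p i1 : ℤ) ^ (e i1 + e' i1) := by rw [h0, h1]
  rw [e1, pow_add, pow_add]; ring

theorem cell_prod (p e : Fin m → ℕ) (pos : Fin m → Fin 3) :
    cell p e pos 0 * cell p e pos 1 * cell p e pos 2 = ∏ j, (p j : ℤ) ^ e j := by
  simp only [cell, ← Finset.prod_mul_distrib]
  refine Finset.prod_congr rfl (fun j _ => ?_)
  have h3 : pos j = 0 ∨ pos j = 1 ∨ pos j = 2 := by
    generalize pos j = k; revert k; decide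
  rcases h3 with h3 | h3 | h3 <;> simp [h3]

theorem coprime_cube {c d u v : ℤ} (h : IsCoprime (c * u) (d * v)) :
    IsCoprime (c * u ^ 3) (d * v ^ 3) := by
  have h1 : IsCoprime ((c * u) ^ 3) ((d * v) ^ 3) := h.pow
  refine IsCoprime.of_isCoprime_of_dvd_left (IsCoprime.of_isCoprime_of_dvd_right h1 ?_) ?_
  · exact ⟨d ^ 2, by ring⟩
  · exact ⟨c ^ 2, by ring⟩

theorem cast_pos : ∀ k : Fin 3, ∀ P : Fin 3 → Prop, P k →
    (P 0 ∧ ((k : ℕ) : ZMod 3) = 0 ∨ P 1 ∧ ((k : ℕ) : ZMod 3) = 1 ∨ P 2 ∧ ((k : ℕ) : ZMod 3) = 2) := by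
  intro k P h
  have h3 : k = 0 ∨ k = 1 ∨ k = 2 := by clear h; revert k; decide
  rcases h3 with rfl | rfl | rfl
  · left; exact ⟨h, by decide⟩
  · right; left; exact ⟨h, by decide⟩
  · right; right; exact ⟨h, by decide⟩

/-- **Case I** in terms of cells -/
theorem caseI_gen {i0 i1 : Fin m} (b : Base p e e' i0 i1) (hP : IsPt p e pos x)
    (hne : pos i0 ≠ pos i1) (hP' : IsPt p e' (stdp i0 i1) y) : False := by
  apply hne
  have hinj : ∀ a b : Fin 3, ((a : ℕ) : ZMod 3) = ((b : ℕ) : ZMod 3) → a = b := by decide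
  apply hinj
  refine concl_eq (a := (e i0 : ZMod 3)) (b := (e i1 : ZMod 3)) b.hab (zmod_ne (b.he i0))
    (b.hw i0) ?_
  have hx := sum3 hP.sum
  have hy := sum3 hP'.sum
  have he0' : e' i0 ≠ 0 := by have := b.he' i0; omega
  have he1' : e' i1 ≠ 0 := by have := b.he' i1; omega
  have c0 := cell_std0 p e' i0 i1
  have c2 := cell_std2 p e' b.h01
  have c1 := cell_std1_eq (p := p) b.rel
  have hprod := cell_prod p e pos
  have hprod' := cell_prod p e (stdp i0 i1)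
  rw [cell_std0, cell_std2 p e b.h01, one_mul] at hprod'
  have hq : ∀ i : Fin m, (p i : ℤ) ∣ cell p e pos (pos i) * x (pos i) ^ 3 := by
    intro i
    have he : e i ≠ 0 := by have := b.he i; omega
    exact Dvd.dvd.mul_right (dvd_prod_if (fun j => pos j = pos i) rfl he) _
  refine caseI (b.hp i0) (b.h3 i0) (b.hp i1) (b.h3 i1) b.hab
    (B := (p i0 : ℤ) ^ e i0 * (p i1 : ℤ) ^ e i1) (B' := (p i0 : ℤ) ^ e' i0 * (p i1 : ℤ) ^ e' i1)
    (C := cell p e' (stdp i0 i1) 1)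
    rfl b.BB (Dvd.dvd.mul_right (dvd_pow_self _ he0') _) (Dvd.dvd.mul_left (dvd_pow_self _ he1') _)
    hx (w0 := x 0 * x 1 * x 2) ?_ (coprime_cube (hP.cop 0 1 (by decide)))
    (coprime_cube (hP.cop 0 2 (by decide)))
    (x := y 0) (y := y 1) (z := y 2) ?_ ?_ ?_ ?_
    (cast_pos (pos i0) (fun k => (p i0 : ℤ) ∣ cell p e pos k * x k ^ 3) (hq i0))
    (cast_pos (pos i1) (fun k => (p i1 : ℤ) ∣ cell p e pos k * x k ^ 3) (hq i1))
  · rw [← c1]
    have e1 : cell p e pos 0 * x 0 ^ 3 * (cell p e pos 1 * x 1 ^ 3) * (cell p e pos 2 * x 2 ^ 3) =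
      (cell p e pos 0 * cell p e pos 1 * cell p e pos 2) * (x 0 * x 1 * x 2) ^ 3 := by ring
    rw [e1, hprod, ← hprod']; ring
  · rw [c0, c2] at hy
    linear_combination hy
  · have := hP'.cop 0 1 (by decide)
    rwa [c0, one_mul] at this
  · have := hP'.cop 0 2 (by decide)
    rwa [c0, one_mul, c2] at this
  · have := hP'.cop 1 2 (by decide)
    rwa [c2] at this

/-- **Case III** in terms of cells -/
theorem caseIII_gen {i0 i1 i2 : Fin m} (b : Base p e e' i0 i1) (hi2 : ¬ Sp i0 i1 i2)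
    (hP : IsPt p e (stdp i0 i1) x) (hP' : IsPt p e' (stdp i0 i1) y) : False := by
  have hx := sum3 hP.sum
  have hy := sum3 hP'.sum
  have he0 : e i0 ≠ 0 := by have := b.he i0; omega
  have he0' : e' i0 ≠ 0 := by have := b.he' i0; omega
  have he2 : e i2 ≠ 0 := by have := b.he i2; omega
  have c0 := cell_std0 p e i0 i1
  have c2 := cell_std2 p e b.h01
  have c0' := cell_std0 p e' i0 i1
  have c2' := cell_std2 p e' b.h01
  have c1 := cell_std1_eq (p := p) b.rel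
  have k01 := hP.cop 0 1 (by decide)
  have k12 := hP.cop 1 2 (by decide)
  have k01' := hP'.cop 0 1 (by decide)
  have k12' := hP'.cop 1 2 (by decide)
  rw [c0, c2] at hx
  rw [c0', c2', ← c1] at hy
  rw [c0, one_mul] at k01
  rw [c2] at k12
  rw [c0', one_mul, ← c1] at k01'
  rw [c2', ← c1] at k12'
  refine caseIII (b.hp i0) (b.h3 i0) (b.hp i1) (b.h3 i1) (b.hp i2) (b.h3 i2)
    (B := (p i0 : ℤ) ^ e i0 * (p i1 : ℤ) ^ e i1) (B' := (p i0 : ℤ) ^ e' i0 * (p i1 : ℤ) ^ e' i1)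
    (C := cell p e (stdp i0 i1) 1)
    b.BB (Dvd.dvd.mul_right (dvd_pow_self _ he0) _) (Dvd.dvd.mul_right (dvd_pow_self _ he0') _)
    ?_ ?_ (x := x 0) (y := x 1) (z := x 2) (x' := y 0) (y' := y 1) (z' := y 2)
    (by linear_combination hx) (by linear_combination hy) k01 k12 k01' k12' (hP.ne 2) (hP'.ne 2)
    (b.hw i0) (b.hw i2)
  · rw [cell_std1]
    exact dvd_prod_if (fun j => ¬ Sp i0 i1 j) hi2 he2
  · intro l hl hlC
    rw [cell_std1] at hlC
    obtain ⟨j, hj⟩ := SPr.prod p (fun j => ¬ Sp i0 i1 j) e l hl hlC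
    exact ⟨p j, b.hp j, b.h3 j, hl.associated_of_dvd (prime_inert (b.hp j) (b.h3 j)) hj⟩

end Pool.Agent.Lib_helper84.Cub


end
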