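import Mathlib
import Pool.Agent.PTDM.C08
import Pool.Agent.PTDM.C11

/-! Parts: Lib_helper84.Cub.Comb, Lib_helper84.Cub.Final -/

section

/-!
# Orderings of the cells
-/

namespace Pool.Agent.Lib_helper84.Cub

open Pool.Agent.Lib_helper18 Pool.Agent.Lib_helper18.Eis

variable {m : ℕ} {p e e' : Fin m → ℕ} {pos pos' : Fin m → Fin 3} {x y : Fin 3 → ℤ}

/-- the six permutations -/
def pf : Fin 6 → Fin 3 → Fin 3 :=
  ![![0, 1, 2], ![0, 2, 1], ![1, 0, 2], ![1, 2, 0], ![2, 0, 1], ![2, 1, 0]]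

theorem pf_bij : ∀ k, Function.Bijective (pf k) := by decide

noncomputable def pe (k : Fin 6) : Equiv.Perm (Fin 3) := Equiv.ofBijective (pf k) (pf_bij k)

theorem pe_apply (k : Fin 6) (a : Fin 3) : pe k a = pf k a := rfl

theorem glueA {i0 i1 : Fin m} (b : Base p e e' i0 i1) (hP : IsPt p e pos x)
    (hP' : IsPt p e' pos' y) (hne : pos i0 ≠ pos i1) {k k' : Fin 6}
    (h : ∀ j, pf k' (pos' j) = if Sp i0 i1 j then tau (pf k (pos j)) else pf k (pos j)) :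
    False := by
  refine caseII_gen b (hP.perm (pe k)) (hP'.perm (pe k')) ?_ h
  intro h'
  exact hne ((pe k).injective h')

theorem IsPt.std {i0 i1 : Fin m} (hP : IsPt p e pos x) {k : Fin 6}
    (h : ∀ j, pf k (pos j) = stdp i0 i1 j) : ∃ z, IsPt p e (stdp i0 i1) z := by
  have h1 := hP.perm (pe k)
  have h2 : (pe k) ∘ pos = stdp i0 i1 := funext h
  rw [h2] at h1
  exact ⟨_, h1⟩

/-- everything together: the cells of each point are either standard or separate `i0`, `i1` -/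
theorem glue {i0 i1 i2 : Fin m} (b : Base p e e' i0 i1) (hi2 : ¬ Sp i0 i1 i2)
    (hP : IsPt p e pos x) (hP' : IsPt p e' pos' y)
    (h1 : pos i0 = pos i1 → ∃ k, ∀ j, pf k (pos j) = stdp i0 i1 j)
    (h2 : pos' i0 = pos' i1 → ∃ k, ∀ j, pf k (pos' j) = stdp i0 i1 j)
    (h3 : pos i0 ≠ pos i1 → pos' i0 ≠ pos' i1 → ∃ k k', ∀ j, pf k' (pos' j) =
      if Sp i0 i1 j then tau (pf k (pos j)) else pf k (pos j)) : False := by
  by_cases g1 : pos i0 = pos i1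
  · obtain ⟨k, hk⟩ := h1 g1
    obtain ⟨z, hz⟩ := hP.std hk
    by_cases g2 : pos' i0 = pos' i1
    · obtain ⟨k', hk'⟩ := h2 g2
      obtain ⟨z', hz'⟩ := hP'.std hk'
      exact caseIII_gen b hi2 hz hz'
    · exact caseI_gen b.symm hP' g2 hz
  · by_cases g2 : pos' i0 = pos' i1
    · obtain ⟨k', hk'⟩ := h2 g2
      obtain ⟨z', hz'⟩ := hP'.std hk'
      exact caseI_gen b hP g1 hz'
    · obtain ⟨k, k', h⟩ := h3 g1 g2
      exact glueA b hP hP' g1 h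

theorem comb3 : ∀ a b c a' b' c' : Fin 3, a ≠ b → a' ≠ b' → ∃ k k' : Fin 6,
    pf k' a' = tau (pf k a) ∧ pf k' b' = tau (pf k b) ∧ pf k' c' = pf k c := by
  decide

theorem std3 : ∀ a c : Fin 3, a ≠ c → ∃ k, pf k a = 2 ∧ pf k c = 1 := by decide

/-- equal weights of the cells -/
def cw (s0 s1 s2 s3 : ZMod 3) (a b c d k : Fin 3) : ZMod 3 :=
  (if a = k then s0 else 0) + (if b = k then s1 else 0) + (if c = k then s2 else 0) +
    (if d = k then s3 else 0)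

def cwEq (s0 s1 s2 s3 : ZMod 3) (a b c d : Fin 3) : Prop :=
  cw s0 s1 s2 s3 a b c d 0 = cw s0 s1 s2 s3 a b c d 1 ∧
    cw s0 s1 s2 s3 a b c d 0 = cw s0 s1 s2 s3 a b c d 2

instance (s0 s1 s2 s3 : ZMod 3) (a b c d : Fin 3) : Decidable (cwEq s0 s1 s2 s3 a b c d) := by
  unfold cwEq; infer_instance

set_option maxRecDepth 100000 in
theorem comb4same : ∀ s u : ZMod 3, s ≠ 0 → u ≠ 0 → ∀ a c d : Fin 3,
    ¬ (c = a ∧ d = a) → cwEq s (-s) u (-u) a a c d → c = d ∧ a ≠ c := by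
  decide

def ExK (a b c d a' b' c' d' : Fin 3) : Prop := ∃ k k' : Fin 6,
    pf k' a' = tau (pf k a) ∧ pf k' b' = tau (pf k b) ∧ pf k' c' = pf k c ∧
      pf k' d' = pf k d

instance (a b c d a' b' c' d' : Fin 3) : Decidable (ExK a b c d a' b' c' d') := by
  unfold ExK; infer_instance

def Imp4 (s u : ZMod 3) (a b c d : Fin 3) : Prop := ∀ a' b' c' d' : Fin 3, a' ≠ b' →
    cwEq (-s) s u (-u) a' b' c' d' → ExK a b c d a' b' c' d'

instance (s u : ZMod 3) (a b c d : Fin 3) : Decidable (Imp4 s u a b c d) := by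
  unfold Imp4; infer_instance

set_option maxRecDepth 100000 in
theorem comb4diff : ∀ s u : ZMod 3, s ≠ 0 → u ≠ 0 → ∀ a b c d : Fin 3, a ≠ b →
    cwEq s (-s) u (-u) a b c d → Imp4 s u a b c d := by
  decide

end Pool.Agent.Lib_helper84.Cub


end

section

/-!
# The theorems on pairs of cubic twists
-/

namespace Pool.Agent.Lib_helper84.Cub

open Pool.Agent.Lib_helper18 Pool.Agent.Lib_helper18.Eis

/-- being a sum of two rational cubes -/
def IsSum (n : ℚ) : Prop := ∃ X Y : ℚ, X ^ 3 + Y ^ 3 = n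

variable {m : ℕ} {p e e' : Fin m → ℕ}

theorem wq_prod (s : Finset (Fin m)) (f : Fin m → ℤ) (hf : ∀ j, ¬ (3 : ℤ) ∣ f j) :
    wq (∏ j ∈ s, f j) = ∑ j ∈ s, wq (f j) := by
  classical
  induction s using Finset.induction_on with
  | empty => simp [wq_one]
  | insert a s ha ih =>
    rw [Finset.prod_insert ha, Finset.sum_insert ha, ← ih]
    refine wq_mul (hf a) ?_
    intro h
    rw [Prime.dvd_finsetProd_iff Int.prime_three] at h
    obtain ⟨j, -, hj⟩ := h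
    exact hf j hj

theorem not_three_dvd {q : ℕ} (h9 : q % 9 = 2 ∨ q % 9 = 5) : ¬ (3 : ℤ) ∣ (q : ℤ) := by
  omega

theorem wq_cell (h9 : ∀ i, p i % 9 = 2 ∨ p i % 9 = 5) (pos : Fin m → Fin 3) (k : Fin 3) :
    wq (cell p e pos k) = ∑ j, if pos j = k then (e j : ZMod 3) * wq (p j : ℤ) else 0 := by
  have h3 : ∀ j, ¬ (3 : ℤ) ∣ (p j : ℤ) ^ e j := fun j h =>
    not_three_dvd (h9 j) (Int.prime_three.dvd_of_dvd_pow h)
  rw [cell, wq_prod]
  · refine Finset.sum_congr rfl (fun j _ => ?_)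
    split_ifs
    · rw [wq_pow (not_three_dvd (h9 j))]
    · exact wq_one
  · intro j
    split_ifs
    · exact h3 j
    · norm_num

theorem wq_all (h9 : ∀ i, p i % 9 = 2 ∨ p i % 9 = 5) :
    wq (∏ j, (p j : ℤ) ^ e j) = ∑ j, (e j : ZMod 3) * wq (p j : ℤ) := by
  have h3 : ∀ j, ¬ (3 : ℤ) ∣ (p j : ℤ) ^ e j := fun j h =>
    not_three_dvd (h9 j) (Int.prime_three.dvd_of_dvd_pow h)
  rw [wq_prod _ _ h3]
  exact Finset.sum_congr rfl (fun j _ => wq_pow (not_three_dvd (h9 j)) _)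

theorem wq_ne {q : ℕ} (h9 : q % 9 = 2 ∨ q % 9 = 5) : wq (q : ℤ) ≠ 0 := by
  unfold wq
  have : (q : ℤ) % 9 = 2 ∨ (q : ℤ) % 9 = 5 := by omega
  rcases this with h | h <;> rw [h] <;> decide

theorem wq_zero_iff {n : ℤ} (h3 : ¬ (3 : ℤ) ∣ n) : wq n = 0 ↔ n % 9 = 1 ∨ n % 9 = 8 := by
  unfold wq
  have : n % 9 = 1 ∨ n % 9 = 2 ∨ n % 9 = 4 ∨ n % 9 = 5 ∨ n % 9 = 7 ∨ n % 9 = 8 := by omega
  rcases this with h | h | h | h | h | h <;> rw [h] <;> decide

theorem wq_eq_iff {n k : ℤ} (hn : ¬ (3 : ℤ) ∣ n) (hk : ¬ (3 : ℤ) ∣ k) :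
    wq n = wq k ↔ n % 9 = k % 9 ∨ (n + k) % 9 = 0 := by
  have e1 : (n + k) % 9 = (n % 9 + k % 9) % 9 := by omega
  rw [e1]
  unfold wq
  have h1 : n % 9 = 1 ∨ n % 9 = 2 ∨ n % 9 = 4 ∨ n % 9 = 5 ∨ n % 9 = 7 ∨ n % 9 = 8 := by omega
  have h2 : k % 9 = 1 ∨ k % 9 = 2 ∨ k % 9 = 4 ∨ k % 9 = 5 ∨ k % 9 = 7 ∨ k % 9 = 8 := by omega
  rcases h1 with h | h | h | h | h | h <;> rcases h2 with h' | h' | h' | h' | h' | h' <;>
    rw [h, h'] <;> decide

theorem mk_base (hp : ∀ i, (p i).Prime) (h9 : ∀ i, p i % 9 = 2 ∨ p i % 9 = 5)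
    (hinj : Function.Injective p) (he : ∀ i, e i = 1 ∨ e i = 2) (he' : ∀ i, e' i = 1 ∨ e' i = 2)
    {i0 i1 : Fin m} (h01 : i0 ≠ i1)
    (hab : (e i0 : ZMod 3) * wq (p i0 : ℤ) + (e i1 : ZMod 3) * wq (p i1 : ℤ) = 0)
    (rel : Rel i0 i1 e e') : Base p e e' i0 i1 where
  hp := hp
  h3 := fun i => by have := h9 i; omega
  inj := hinj
  he := he
  he' := he'
  h01 := h01
  hw := fun i => by
    rw [FData.sym_w_r (hp i) (by have := h9 i; omega)]
    exact neg_ne_zero.mpr (wq_ne (h9 i))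
  hab := by
    rw [FData.sym_w_r (hp i0) (by have := h9 i0; omega),
      FData.sym_w_r (hp i1) (by have := h9 i1; omega)]
    linear_combination (-1 : ZMod 3) * hab
  rel := rel

end Pool.Agent.Lib_helper84.Cub


end
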