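import Mathlib
import Pool.Agent.PTDM.C06
import Pool.Agent.PTDM.C07
import Pool.Agent.PTDM.C10
import Pool.Agent.PTDM.C11

/-! Parts: Lib_helper84.Cub.CaseThreeB, Lib_helper84.Cub.GlueC, CubeRank.LawA, CubeRank.GLawA -/

section

/-!
# Case III, general form
-/

namespace Pool.Agent.Lib_helper84.Cub

open Pool.Agent.Lib_helper18 Pool.Agent.Lib_helper18.Eis

/-- every nonzero element has a class at the prime above 3 -/
theorem exists_cls {t : Eis} (ht : t ≠ 0) : ∃ c, Cls t c := by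
  obtain ⟨s, hs, hns⟩ := V_split prime_lam ht
  obtain ⟨k, hk⟩ := exists_prim hns
  exact ⟨_, V lam t, k, s, hs, hk, rfl⟩

/-- all primes dividing `n`, not above 3, are inert rational primes -/
def InertD (n : ℤ) : Prop := ∀ l : Eis, Prime l → ¬ l ∣ 3 → l ∣ (n : Eis) →
  ∃ s : ℕ, s.Prime ∧ s % 3 = 2 ∧ Associated l (s : Eis)

theorem ndvd9 {q : ℕ} (hq : q.Prime) (hq3 : q % 3 = 2) : ¬ (q : ℤ) ∣ 9 := by
  intro h9
  have hqZ := Nat.prime_iff_prime_int.mp hq
  have h9' : (q : ℤ) ∣ 3 ^ 2 := by norm_num; exact h9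
  have h3' := hqZ.dvd_of_dvd_pow h9'
  have h3n : q ∣ 3 := by exact_mod_cast h3'
  have := (Nat.prime_dvd_prime_iff_eq hq Nat.prime_three).mp h3n
  omega

/-- the main element of case III -/
def XiZ (C Q x y z x' y' z' : ℤ) : Eis :=
  Xi (C : Eis) ((Q : Eis) * z * z') (x * x') (x * y' + x' * y) (y * y')

section

variable {q : ℕ} (hq : q.Prime) (hq3 : q % 3 = 2)
  {B B' C Q x y z x' y' z' : ℤ}

include hq hq3

/-- modulo a prime `q` dividing `B`, `B'` -/
theorem caseIII_q (hqQ : (q : ℤ) ∣ Q) (hqB : (q : ℤ) ∣ B) (hqB' : (q : ℤ) ∣ B')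
    (h : x ^ 3 + C * y ^ 3 + B * z ^ 3 = 0)
    (h' : x' ^ 3 + C * y' ^ 3 + B' * z' ^ 3 = 0)
    (cyz : IsCoprime (C * y) (B * z)) (cyz' : IsCoprime (C * y') (B' * z')) :
    ¬ (q : Eis) ∣ XiZ C Q x y z x' y' z' ∧
      sym (q : Eis) (XiZ C Q x y z x' y' z') = 2 * sym (q : Eis) w := by
  have hQ := prime_inert hq hq3
  have hQ3 := n3 hq hq3
  have hqZ := Nat.prime_iff_prime_int.mp hq
  set Ξ := XiZ C Q x y z x' y' z' with hΞ
  have qC : ¬ (q : ℤ) ∣ C := not_dvd_of_coprime hq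
    (IsCoprime.of_mul_left_left cyz).symm (Dvd.dvd.mul_right hqB _)
  have qy : ¬ (q : ℤ) ∣ y := not_dvd_of_coprime hq
    (IsCoprime.of_mul_left_right cyz).symm (Dvd.dvd.mul_right hqB _)
  have qy' : ¬ (q : ℤ) ∣ y' := not_dvd_of_coprime hq
    (IsCoprime.of_mul_left_right cyz').symm (Dvd.dvd.mul_right hqB' _)
  have q1 : (q : ℤ) ∣ x ^ 3 + C * y ^ 3 := by
    have e : x ^ 3 + C * y ^ 3 = B * (-z ^ 3) := by linear_combination h
    rw [e]; exact Dvd.dvd.mul_right hqB _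
  have q2 : (q : ℤ) ∣ x' ^ 3 + C * y' ^ 3 := by
    have e : x' ^ 3 + C * y' ^ 3 = B' * (-z' ^ 3) := by linear_combination h'
    rw [e]; exact Dvd.dvd.mul_right hqB' _
  have q3 : (q : ℤ) ∣ x * y' - x' * y := by
    apply cube_inj hq hq3
    have e : (x * y') ^ 3 - (x' * y) ^ 3 = (x ^ 3 + C * y ^ 3) * y' ^ 3 -
      (x' ^ 3 + C * y' ^ 3) * y ^ 3 := by ring
    rw [e]; exact dvd_sub (Dvd.dvd.mul_right q1 _) (Dvd.dvd.mul_right q2 _)
  have q9 : ¬ (q : ℤ) ∣ -9 * C ^ 2 * (y * y') ^ 3 := by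
    intro hd
    rcases hqZ.dvd_or_dvd hd with hd | hd
    · rcases hqZ.dvd_or_dvd hd with hd | hd
      · have h9 : (q : ℤ) ∣ 9 := by
          rw [neg_eq_neg_one_mul] at hd
          have := (dvd_neg (a := (q : ℤ)) (b := 9)).mp (by simpa using hd)
          exact this
        exact ndvd9 hq hq3 h9
      · exact qC (hqZ.dvd_of_dvd_pow hd)
    · rcases hqZ.dvd_or_dvd (hqZ.dvd_of_dvd_pow hd) with hd | hd
      · exact qy hd
      · exact qy' hd
  have q1E := cast_dvd_cast.mpr q1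
  have q2E := cast_dvd_cast.mpr q2
  have q3E := cast_dvd_cast.mpr q3
  have qQE := cast_dvd_cast.mpr hqQ
  push_cast at q1E q2E q3E
  have hw2 : ¬ (q : Eis) ∣ w ^ 2 := fun h => not_dvd_w hQ (hQ.dvd_of_dvd_pow h)
  have q9E : ¬ (q : Eis) ∣ ((-9 * C ^ 2 * (y * y') ^ 3 : ℤ) : Eis) :=
    fun h => q9 (cast_dvd_cast.mp h)
  have qΞ : (q : Eis) ∣ Ξ - ((-9 * C ^ 2 * (y * y') ^ 3 : ℤ) : Eis) * w ^ 2 := by
    have e : Ξ - ((-9 * C ^ 2 * (y * y') ^ 3 : ℤ) : Eis) * w ^ 2 =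
        (Q : Eis) * (z * z' * (3 * (x * x') ^ 2 + 3 * (x * x') * (Q * z * z') +
          2 * (Q * z * z') ^ 2 - 3 * C * (x * y' + x' * y) * (y * y'))) +
        ((x : Eis) ^ 3 + C * y ^ 3) * (x' ^ 3 + 8 * w ^ 2 * C * y' ^ 3) -
        ((x' : Eis) ^ 3 + C * y' ^ 3) * (C * y ^ 3) +
        ((x : Eis) * y' - x' * y) * (-(w ^ 2 * C * ((x * y' + x' * y) ^ 2 +
          (x * y' + x' * y) * (2 * x * y') + (2 * x * y') ^ 2))) := by
      have h4 := w_rel
      rw [hΞ, XiZ, Xi]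
      push_cast
      linear_combination ((C : Eis) ^ 2 * (y * y') ^ 3) * h4
    rw [e]
    exact dvd_add (dvd_sub (dvd_add (Dvd.dvd.mul_right qQE _) (Dvd.dvd.mul_right q1E _))
      (Dvd.dvd.mul_right q2E _)) (Dvd.dvd.mul_right q3E _)
  refine ⟨?_, ?_⟩
  · intro hd
    have := dvd_sub hd qΞ
    rw [sub_sub_cancel] at this
    exact (hQ.dvd_or_dvd this).elim q9E hw2
  · rw [sym_congr qΞ, sym_mul hQ hQ3 q9E hw2, sym_int hq hq3 q9, sym_pow hQ hQ3 (not_dvd_w hQ)]
    push_cast; ring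

/-- modulo a prime `q` dividing `C` -/
theorem caseIII_p (hBB : B * B' = Q ^ 3) (hqC : (q : ℤ) ∣ C)
    (h : x ^ 3 + C * y ^ 3 + B * z ^ 3 = 0)
    (h' : x' ^ 3 + C * y' ^ 3 + B' * z' ^ 3 = 0)
    (cxy : IsCoprime x (C * y)) (cxy' : IsCoprime x' (C * y')) :
    ¬ (q : Eis) ∣ XiZ C Q x y z x' y' z' ∧
      sym (q : Eis) (XiZ C Q x y z x' y' z') = 0 := by
  have hqZ := Nat.prime_iff_prime_int.mp hq
  set Ξ := XiZ C Q x y z x' y' z' with hΞ
  have px : ¬ (q : ℤ) ∣ x := not_dvd_of_coprime hq cxy.symm (Dvd.dvd.mul_right hqC _)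
  have px' : ¬ (q : ℤ) ∣ x' := not_dvd_of_coprime hq cxy'.symm (Dvd.dvd.mul_right hqC _)
  have p1 : (q : ℤ) ∣ x * x' - Q * z * z' := by
    apply cube_inj hq hq3
    have e : (x * x') ^ 3 - (Q * z * z') ^ 3 = C * (-(y ^ 3 * x' ^ 3) + B * z ^ 3 * y' ^ 3) := by
      linear_combination x' ^ 3 * h - B * z ^ 3 * h' + (z * z') ^ 3 * hBB
    rw [e]; exact Dvd.dvd.mul_right hqC _
  have p9 : ¬ (q : ℤ) ∣ 9 * (x * x') ^ 3 := by
    intro hd
    rcases hqZ.dvd_or_dvd hd with hd | hd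
    · exact ndvd9 hq hq3 hd
    · rcases hqZ.dvd_or_dvd (hqZ.dvd_of_dvd_pow hd) with hd | hd
      · exact px hd
      · exact px' hd
  have p1E := cast_dvd_cast.mpr p1
  have pCE := cast_dvd_cast.mpr hqC
  push_cast at p1E
  have p9E : ¬ (q : Eis) ∣ ((9 * (x * x') ^ 3 : ℤ) : Eis) := fun h => p9 (cast_dvd_cast.mp h)
  have pΞ : (q : Eis) ∣ Ξ - ((9 * (x * x') ^ 3 : ℤ) : Eis) := by
    have e : Ξ - ((9 * (x * x') ^ 3 : ℤ) : Eis) =
        ((x : Eis) * x' - Q * z * z') * (-((Q * z * z' + x * x') ^ 2 +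
          (Q * z * z' + x * x') * (2 * x * x') + (2 * x * x') ^ 2 +
          (Q * z * z') ^ 2 + (Q * z * z') * (x * x') + (x * x') ^ 2)) +
        (C : Eis) * (w ^ 2 * (x * y' + x' * y) ^ 3 + w * C * (y * y') ^ 3 -
          3 * (x * y' + x' * y) * (y * y') * (Q * z * z')) := by
      rw [hΞ, XiZ, Xi]
      push_cast
      ring
    rw [e]
    exact dvd_add (Dvd.dvd.mul_right p1E _) (Dvd.dvd.mul_right pCE _)
  refine ⟨?_, ?_⟩
  · intro hd
    have := dvd_sub hd pΞ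
    rw [sub_sub_cancel] at this
    exact p9E this
  · rw [sym_congr pΞ, sym_int hq hq3 p9]

/-- at all other primes the symbol of `q` vanishes or the valuation is divisible by 3 -/
theorem caseIII_loc (hBB : B * B' = Q ^ 3) (hCi : InertD C) (hQi : InertD Q)
    (h : x ^ 3 + C * y ^ 3 + B * z ^ 3 = 0)
    (h' : x' ^ 3 + C * y' ^ 3 + B' * z' ^ 3 = 0)
    (cxy : IsCoprime x (C * y)) (cxy' : IsCoprime x' (C * y'))
    (hz : z ≠ 0) (hz' : z' ≠ 0) (hΞ0 : XiZ C Q x y z x' y' z' ≠ 0)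
    {l : Eis} (hl : Prime l) (hl3 : ¬ l ∣ 3) (hlq : ¬ l ∣ (q : Eis)) :
    sym l (q : Eis) = 0 ∨ 3 ∣ V l (XiZ C Q x y z x' y' z') := by
  have hE := cast_eq h
  have hE' := cast_eq h'
  have hBBE := cast_eq hBB
  push_cast at hE hE' hBBE
  have inert_good : (∃ s : ℕ, s.Prime ∧ s % 3 = 2 ∧ Associated l (s : Eis)) →
      sym l (q : Eis) = 0 := by
    rintro ⟨s, hs, hs3, hass⟩
    have h1 : ¬ s ∣ q := by
      intro hd
      exact hlq (hass.dvd.trans (Nat.cast_dvd_cast hd))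
    rw [sym_associated hass, sym_nat hs hs3 h1]
  by_cases hlC : l ∣ (C : Eis)
  · exact Or.inl (inert_good (hCi l hl hl3 hlC))
  by_cases hlQ : l ∣ (Q : Eis)
  · exact Or.inl (inert_good (hQi l hl hl3 hlQ))
  right
  have hlBB : ¬ l ∣ (B : Eis) * B' := by
    rw [hBBE]; exact fun h => hlQ (hl.dvd_of_dvd_pow h)
  have ndc : ∀ {s t : ℤ}, IsCoprime s (C * t) → ¬ (l ∣ (s : Eis) ∧ l ∣ (t : Eis)) := by
    intro s t hc ⟨h1, h2⟩
    refine not_dvd_of_coprime' hl hc h1 ?_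
    push_cast; exact Dvd.dvd.mul_left h2 _
  exact caseIII_local hl hl3 hlC hE hE' hBBE (fun h => hlBB (Dvd.dvd.mul_right h _))
    (fun h => hlBB (Dvd.dvd.mul_left h _)) (ndc cxy) (ndc cxy') (cast_ne hz) (cast_ne hz')
    hlQ hΞ0

end

/-- **Case III**, general form -/
theorem caseIII_gen' {q p : ℕ} (hq : q.Prime) (hq3 : q % 3 = 2)
    (hp : p.Prime) (hp3 : p % 3 = 2)
    {B B' C Q x y z x' y' z' : ℤ} (hBB : B * B' = Q ^ 3)
    (hqQ : (q : ℤ) ∣ Q) (hqB : (q : ℤ) ∣ B) (hqB' : (q : ℤ) ∣ B')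
    (hpC : (p : ℤ) ∣ C) (hCi : InertD C) (hQi : InertD Q)
    (h : x ^ 3 + C * y ^ 3 + B * z ^ 3 = 0)
    (h' : x' ^ 3 + C * y' ^ 3 + B' * z' ^ 3 = 0)
    (cxy : IsCoprime x (C * y)) (cyz : IsCoprime (C * y) (B * z))
    (cxy' : IsCoprime x' (C * y')) (cyz' : IsCoprime (C * y') (B' * z'))
    (hz : z ≠ 0) (hz' : z' ≠ 0)
    (hwq : sym (q : Eis) w ≠ 0) (hwp : sym (p : Eis) w ≠ 0) : False := by
  have hQ := prime_inert hq hq3
  have hP := prime_inert hp hp3
  obtain ⟨qnd, symq⟩ := caseIII_q hq hq3 hqQ hqB hqB' h h' cyz cyz'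
  obtain ⟨pnd, symp⟩ := caseIII_p hp hp3 hBB hpC h h' cxy cxy'
  have hΞ0 : XiZ C Q x y z x' y' z' ≠ 0 := by
    intro h0; rw [h0] at qnd; exact qnd (dvd_zero _)
  obtain ⟨c, hc⟩ := exists_cls hΞ0
  have h1 := lemmaB1 hq hq3 qnd hc (fun l hl hl3 hlΞ =>
    caseIII_loc hq hq3 hBB hCi hQi h h' cxy cxy' hz hz' hΞ0 hl hl3
      (fun h => qnd ((hl.associated_of_dvd hQ h).symm.dvd.trans hlΞ)))
  have h2 := lemmaB1 hp hp3 pnd hc (fun l hl hl3 hlΞ =>
    caseIII_loc hp hp3 hBB hCi hQi h h' cxy cxy' hz hz' hΞ0 hl hl3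
      (fun h => pnd ((hl.associated_of_dvd hP h).symm.dvd.trans hlΞ)))
  rw [symq] at h1
  rw [symp] at h2
  have key : ∀ u v c : ZMod 3, 2 * u = c * u → 0 = c * v → u ≠ 0 → v ≠ 0 → False := by decide
  exact key _ _ _ h1 h2 hwq hwp

end Pool.Agent.Lib_helper84.Cub


end

section

/-!
# The three cases in terms of cells; one or two exchanged primes, 3 allowed in the cells
-/

namespace Pool.Agent.Lib_helper84.Cub

open Pool.Agent.Lib_helper18 Pool.Agent.Lib_helper18.Eis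

variable {m : ℕ} {p e e' : Fin m → ℕ} {pos pos' : Fin m → Fin 3} {x y : Fin 3 → ℤ} {i0 i1 : Fin m}

/-- data used in all cases; `i0 = i1` is allowed -/
structure BaseG (p e e' : Fin m → ℕ) (i0 i1 : Fin m) : Prop where
  hp : ∀ i, (p i).Prime
  h3 : ∀ i, p i % 3 = 2 ∨ p i = 3
  inj : Function.Injective p
  he : ∀ i, e i = 1 ∨ e i = 2
  he' : ∀ i, e' i = 1 ∨ e' i = 2
  n0 : p i0 ≠ 3
  n1 : p i1 ≠ 3
  hw : ∀ i, p i ≠ 3 → sym (p i : Eis) w ≠ 0
  rel : Rel i0 i1 e e'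

namespace BaseG

theorem symm (b : BaseG p e e' i0 i1) : BaseG p e' e i0 i1 where
  hp := b.hp
  h3 := b.h3
  inj := b.inj
  he := b.he'
  he' := b.he
  n0 := b.n0
  n1 := b.n1
  hw := b.hw
  rel := b.rel.symm

theorem sp3 (b : BaseG p e e' i0 i1) {i : Fin m} (hi : Sp i0 i1 i) : p i % 3 = 2 := by
  rcases hi with rfl | rfl
  · exact (b.h3 _).resolve_right b.n0
  · exact (b.h3 _).resolve_right b.n1

end BaseG

/-- the product of the exchanged prime powers -/
def bS (p e : Fin m → ℕ) (i0 i1 : Fin m) : ℤ := ∏ j, if Sp i0 i1 j then (p j : ℤ) ^ e j else 1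

/-- the product of the exchanged primes -/
def qS (p : Fin m → ℕ) (i0 i1 : Fin m) : ℤ := ∏ j, if Sp i0 i1 j then (p j : ℤ) ^ 1 else 1

theorem BaseG.bb (b : BaseG p e e' i0 i1) : bS p e i0 i1 * bS p e' i0 i1 = qS p i0 i1 ^ 3 := by
  unfold bS qS
  rw [← Finset.prod_mul_distrib, ← Finset.prod_pow]
  refine Finset.prod_congr rfl (fun j _ => ?_)
  have hr := b.rel j
  split_ifs at hr ⊢ with hS
  · rw [← pow_add, hr]; ring
  · ring

theorem bS_single (p e : Fin m → ℕ) (i0 : Fin m) : bS p e i0 i0 = (p i0 : ℤ) ^ e i0 := by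
  unfold bS
  rw [Finset.prod_eq_single i0]
  · simp
  · intro j _ hj
    rw [if_neg]
    rintro (h | h) <;> exact hj h
  · intro h; exact absurd (Finset.mem_univ _) h

theorem qS_single (p : Fin m → ℕ) (i0 : Fin m) : qS p i0 i0 = (p i0 : ℤ) := by
  unfold qS
  rw [Finset.prod_eq_single i0]
  · simp
  · intro j _ hj
    rw [if_neg]
    rintro (h | h) <;> exact hj h
  · intro h; exact absurd (Finset.mem_univ _) h

theorem bS_double (p e : Fin m → ℕ) (h01 : i0 ≠ i1) :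
    bS p e i0 i1 = (p i0 : ℤ) ^ e i0 * (p i1 : ℤ) ^ e i1 :=
  prod_Sp h01 (fun j => (p j : ℤ) ^ e j)

/-- nonresidues -/
theorem BaseG.nonCube (b : BaseG p e e' i0 i1) {l : Eis} (hl : Prime l) (hl3 : ¬ l ∣ 3)
    (hno : ∀ j, ¬ l ∣ (p j : Eis))
    (h : i0 ≠ i1 ∧ (e i0 : ZMod 3) * sym l (p i0 : Eis) + (e i1 : ZMod 3) * sym l (p i1 : Eis) ≠ 0 ∨
      i0 = i1 ∧ sym l (p i0 : Eis) ≠ 0) : NonCube l (bS p e i0 i1) := by
  rcases h with ⟨h01, h⟩ | ⟨rfl, h⟩
  · rw [bS_double p e h01]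
    have := bad_B (q := p i0) (r := p i1) (a := e i0) (b := e i1) hl hl3 (hno i0) (hno i1) h
    intro u v huv
    apply this
    push_cast at huv
    exact huv
  · rw [bS_single]
    exact nonCube_pow hl hl3 (hno i0) (zmod_ne (b.he i0)) h

/-- primes dividing some `p j` are harmless -/
theorem BaseG.good (b : BaseG p e e' i0 i1) {l : Eis} (hl : Prime l) (hl3 : ¬ l ∣ 3)
    {j : Fin m} (hj : l ∣ (p j : Eis)) {i : Fin m} (hi : ¬ l ∣ (p i : Eis)) :
    sym l (p i : Eis) = 0 := by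
  rcases b.h3 j with h | h
  · have hass := hl.associated_of_dvd (prime_inert (b.hp j) h) hj
    have h1 : ¬ p j ∣ p i := fun h => hi (hass.dvd.trans (Nat.cast_dvd_cast h))
    rw [sym_associated hass, sym_nat (b.hp j) h h1]
  · rw [h] at hj
    exact absurd (by exact_mod_cast hj) hl3

/-! ### case II -/

/-- auxiliary products -/
def rdP (p : Fin m → ℕ) (i0 i1 : Fin m) (pos : Fin m → Fin 3) (k : Fin 3) : ℤ :=
  ∏ j, if Sp i0 i1 j ∧ pos j = k then (p j : ℤ) ^ 1 else 1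

/-- the main element of case II in terms of cells -/
def tII (p : Fin m → ℕ) (i0 i1 : Fin m) (pos : Fin m → Fin 3) (x y : Fin 3 → ℤ) : Eis :=
  tTwo (rdP p i0 i1 pos 1) (rdP p i0 i1 pos 0) (x 0) (x 1) (y 0) (y 1)

/-- the exchange of the positions -/
def Exch (i0 i1 : Fin m) (pos pos' : Fin m → Fin 3) : Prop :=
  ∀ j, pos' j = if Sp i0 i1 j then tau (pos j) else pos j

theorem exch_h1 (b : BaseG p e e' i0 i1) (hpos : Exch i0 i1 pos pos') :
    cell p e pos 0 * cell p e' pos' 1 * rdP p i0 i1 pos 1 ^ 3 =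
      cell p e' pos' 0 * cell p e pos 1 * rdP p i0 i1 pos 0 ^ 3 := by
  unfold rdP
  simp only [cell, ← Finset.prod_mul_distrib, ← Finset.prod_pow]
  refine Finset.prod_congr rfl (fun j _ => ?_)
  have hj := hpos j
  have hr := b.rel j
  have hej := b.he j
  have h3 : pos j = 0 ∨ pos j = 1 ∨ pos j = 2 := by
    generalize pos j = k; revert k; decide
  split_ifs at hj hr with hS
  · have hee : (e j = 1 ∧ e' j = 2) ∨ (e j = 2 ∧ e' j = 1) := by omega
    rcases h3 with h3 | h3 | h3 <;> rcases hee with ⟨he, h9⟩ | ⟨he, h9⟩ <;> rw [h3] at hj <;>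
      simp [hj, h3, hS, he, h9, tau] <;> ring
  · rcases h3 with h3 | h3 | h3 <;> rw [h3] at hj <;> simp [hj, h3, hS, hr]

theorem tII_at (b : BaseG p e e' i0 i1) (hP : IsPt p e pos x) (hP' : IsPt p e' pos' y)
    (hpos : Exch i0 i1 pos pos') {i : Fin m} (hi : Sp i0 i1 i) :
    ¬ (p i : Eis) ∣ tII p i0 i1 pos x y ∧
      sym (p i : Eis) (tII p i0 i1 pos x y) = fpos (pos i) * sym (p i : Eis) w := by
  have he0 : e i ≠ 0 := by have := b.he i; omega
  have he0' : e' i ≠ 0 := by have := b.he' i; omega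
  have hp' := hpos i
  rw [if_pos hi] at hp'
  have hx := sum3 hP.sum
  have hy := sum3 hP'.sum
  have key : ((p i : ℤ) ∣ cell p e pos 2 ∧ (p i : ℤ) ∣ cell p e' pos' 2 ∧
        ¬ (p i : ℤ) ∣ rdP p i0 i1 pos 1 ∧ fpos (pos i) = 2 ∨
      (p i : ℤ) ∣ cell p e pos 0 ∧ (p i : ℤ) ∣ cell p e' pos' 1 ∧
        (p i : ℤ) ∣ rdP p i0 i1 pos 0 ∧ ¬ (p i : ℤ) ∣ rdP p i0 i1 pos 1 ∧ fpos (pos i) = 1 ∨
      (p i : ℤ) ∣ cell p e pos 1 ∧ (p i : ℤ) ∣ cell p e' pos' 0 ∧
        (p i : ℤ) ∣ rdP p i0 i1 pos 1 ∧ ¬ (p i : ℤ) ∣ rdP p i0 i1 pos 0 ∧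
        fpos (pos i) = 0) := by
    have h3 : pos i = 0 ∨ pos i = 1 ∨ pos i = 2 := by
      generalize pos i = k; revert k; decide
    rcases h3 with h3 | h3 | h3
    · right; left
      rw [h3] at hp' ⊢
      exact ⟨dvd_prod_if (fun j => pos j = 0) h3 he0,
        dvd_prod_if (fun j => pos' j = 1) hp' he0',
        dvd_prod_if (fun j => Sp i0 i1 j ∧ pos j = 0) ⟨hi, h3⟩ one_ne_zero,
        not_dvd_prod_if b.hp b.inj (fun j => Sp i0 i1 j ∧ pos j = 1)
          (fun h => by have := h.2; rw [h3] at this; exact absurd this (by decide)), rfl⟩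
    · right; right
      rw [h3] at hp' ⊢
      exact ⟨dvd_prod_if (fun j => pos j = 1) h3 he0,
        dvd_prod_if (fun j => pos' j = 0) hp' he0',
        dvd_prod_if (fun j => Sp i0 i1 j ∧ pos j = 1) ⟨hi, h3⟩ one_ne_zero,
        not_dvd_prod_if b.hp b.inj (fun j => Sp i0 i1 j ∧ pos j = 0)
          (fun h => by have := h.2; rw [h3] at this; exact absurd this (by decide)), rfl⟩
    · left
      rw [h3] at hp' ⊢
      exact ⟨dvd_prod_if (fun j => pos j = 2) h3 he0,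
        dvd_prod_if (fun j => pos' j = 2) hp' he0',
        not_dvd_prod_if b.hp b.inj (fun j => Sp i0 i1 j ∧ pos j = 1)
          (fun h => by have := h.2; rw [h3] at this; exact absurd this (by decide)), rfl⟩
  exact caseII_one (b.hp i) (b.sp3 hi) hx (hP.cop 0 1 (by decide)) (hP.cop 1 2 (by decide)) hy
    (hP'.cop 0 1 (by decide)) (hP'.cop 0 2 (by decide)) (exch_h1 b hpos) key

theorem tII_loc (b : BaseG p e e' i0 i1) (hP : IsPt p e pos x) (hP' : IsPt p e' pos' y)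
    (hpos : Exch i0 i1 pos pos') {l : Eis} (hl : Prime l) (hl3 : ¬ l ∣ 3)
    (hno : ∀ j, ¬ l ∣ (p j : Eis)) (hbad : NonCube l (bS p e i0 i1)) :
    3 ∣ V l (tII p i0 i1 pos x y) := by
  have hx := sum3 hP.sum
  have hy := sum3 hP'.sum
  refine caseII_loc hl hl3
    (k := ∏ j, if Sp i0 i1 j ∧ (pos j = 1 ∨ pos j = 2 ∧ e j = 2) then (p j : ℤ) ^ 1 else 1)
    (m := ∏ j, if Sp i0 i1 j ∧ (pos j = 0 ∨ pos j = 2 ∧ e j = 2) then (p j : ℤ) ^ 1 else 1)
    hbad hx (hP.cop 0 1 (by decide)) hy (hP'.cop 0 1 (by decide))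
    (hP'.cop 0 2 (by decide)) (hP'.cop 1 2 (by decide)) (exch_h1 b hpos) ?_ ?_ ?_
    ⟨hP.ne 0, hP'.ne 2⟩
  · -- h2
    unfold bS
    simp only [cell, ← Finset.prod_mul_distrib, ← Finset.prod_pow]
    refine Finset.prod_congr rfl (fun j _ => ?_)
    have hj := hpos j
    have hr := b.rel j
    have hej := b.he j
    have h3 : pos j = 0 ∨ pos j = 1 ∨ pos j = 2 := by
      generalize pos j = k; revert k; decide
    split_ifs at hj hr with hS
    · have hee : (e j = 1 ∧ e' j = 2) ∨ (e j = 2 ∧ e' j = 1) := by omega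
      rcases h3 with h3 | h3 | h3 <;> rcases hee with ⟨he, h9⟩ | ⟨he, h9⟩ <;> rw [h3] at hj <;>
        simp [hj, h3, hS, he, h9, tau] <;> ring
    · rcases h3 with h3 | h3 | h3 <;> rw [h3] at hj <;> simp [hj, h3, hS, hr]
  · -- h3
    unfold bS
    simp only [cell, ← Finset.prod_mul_distrib, ← Finset.prod_pow]
    refine Finset.prod_congr rfl (fun j _ => ?_)
    have hj := hpos j
    have hr := b.rel j
    have hej := b.he j
    have h3 : pos j = 0 ∨ pos j = 1 ∨ pos j = 2 := by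
      generalize pos j = k; revert k; decide
    split_ifs at hj hr with hS
    · have hee : (e j = 1 ∧ e' j = 2) ∨ (e j = 2 ∧ e' j = 1) := by omega
      rcases h3 with h3 | h3 | h3 <;> rcases hee with ⟨he, h9⟩ | ⟨he, h9⟩ <;> rw [h3] at hj <;>
        simp [hj, h3, hS, he, h9, tau] <;> ring
    · rcases h3 with h3 | h3 | h3 <;> rw [h3] at hj <;> simp [hj, h3, hS, hr]
  · -- units
    intro hdvd
    have hS : SPr p (cell p e' pos' 0 * cell p e' pos' 1 * cell p e pos 1 * cell p e pos 2 *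
      rdP p i0 i1 pos 1 * rdP p i0 i1 pos 0 *
      (∏ j, if Sp i0 i1 j ∧ (pos j = 1 ∨ pos j = 2 ∧ e j = 2) then (p j : ℤ) ^ 1 else 1) *
      (∏ j, if Sp i0 i1 j ∧ (pos j = 0 ∨ pos j = 2 ∧ e j = 2) then (p j : ℤ) ^ 1 else 1)) := by
      refine SPr.mul (SPr.mul (SPr.mul (SPr.mul (SPr.mul (SPr.mul (SPr.mul ?_ ?_) ?_) ?_)
        ?_) ?_) ?_) ?_
      · exact SPr.prod p (fun j => pos' j = 0) e'
      · exact SPr.prod p (fun j => pos' j = 1) e'
      · exact SPr.prod p (fun j => pos j = 1) e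
      · exact SPr.prod p (fun j => pos j = 2) e
      · exact SPr.prod p (fun j => Sp i0 i1 j ∧ pos j = 1) (fun _ => 1)
      · exact SPr.prod p (fun j => Sp i0 i1 j ∧ pos j = 0) (fun _ => 1)
      · exact SPr.prod p (fun j => Sp i0 i1 j ∧ (pos j = 1 ∨ pos j = 2 ∧ e j = 2)) (fun _ => 1)
      · exact SPr.prod p (fun j => Sp i0 i1 j ∧ (pos j = 0 ∨ pos j = 2 ∧ e j = 2)) (fun _ => 1)
    obtain ⟨j, hj⟩ := hS l hl hdvd
    exact hno j hj

/-- the product formula for two exchanged primes -/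
theorem dbl_of (b : BaseG p e e' i0 i1) (h01 : i0 ≠ i1)
    (hab : (e i0 : ZMod 3) * sym (p i0 : Eis) w + (e i1 : ZMod 3) * sym (p i1 : Eis) w = 0)
    {t : Eis} {f g : ZMod 3}
    (h0 : ¬ (p i0 : Eis) ∣ t ∧ sym (p i0 : Eis) t = f * sym (p i0 : Eis) w)
    (h1 : ¬ (p i1 : Eis) ∣ t ∧ sym (p i1 : Eis) t = g * sym (p i1 : Eis) w)
    (hloc : ∀ l : Eis, Prime l → ¬ l ∣ 3 → (∀ j, ¬ l ∣ (p j : Eis)) → NonCube l (bS p e i0 i1) →
      3 ∣ V l t) : f = g := by
  have q3 := b.sp3 (Or.inl rfl : Sp i0 i1 i0)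
  have r3 := b.sp3 (Or.inr rfl : Sp i0 i1 i1)
  have hQ := prime_inert (b.hp i0) q3
  have hR := prime_inert (b.hp i1) r3
  refine concl_eq (a := (e i0 : ZMod 3)) (b := (e i1 : ZMod 3)) hab (zmod_ne (b.he i0))
    (b.hw i0 b.n0) ?_
  rw [← h0.2, ← h1.2]
  have ht0 : t ≠ 0 := by
    intro h; rw [h] at h0; exact h0.1 (dvd_zero _)
  refine lemmaB (b.hp i0) q3 (b.hp i1) r3 _ _ hab _ _ rfl ht0 h0.1 h1.1 ?_
  intro l hl hl3 hlt
  have hlq : ¬ l ∣ (p i0 : Eis) := fun h => h0.1 ((hl.associated_of_dvd hQ h).symm.dvd.trans hlt)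
  have hlr : ¬ l ∣ (p i1 : Eis) := fun h => h1.1 ((hl.associated_of_dvd hR h).symm.dvd.trans hlt)
  by_cases hno : ∃ j, l ∣ (p j : Eis)
  · left
    obtain ⟨j, hj⟩ := hno
    rw [b.good hl hl3 hj hlq, b.good hl hl3 hj hlr]; ring
  push Not at hno
  by_cases hgood : (e i0 : ZMod 3) * sym l (p i0 : Eis) + (e i1 : ZMod 3) * sym l (p i1 : Eis) = 0
  · exact Or.inl hgood
  · exact Or.inr (hloc l hl hl3 hno (b.nonCube hl hl3 hno (Or.inl ⟨h01, hgood⟩)))

/-- the product formula for one exchanged prime -/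
theorem sgl_of (b : BaseG p e e' i0 i0) {t : Eis} {f c : ZMod 3}
    (h0 : ¬ (p i0 : Eis) ∣ t ∧ sym (p i0 : Eis) t = f * sym (p i0 : Eis) w)
    (hc : Cls t c)
    (hloc : ∀ l : Eis, Prime l → ¬ l ∣ 3 → (∀ j, ¬ l ∣ (p j : Eis)) → NonCube l (bS p e i0 i0) →
      3 ∣ V l t) : f = c := by
  have q3 := b.sp3 (Or.inl rfl : Sp i0 i0 i0)
  have hQ := prime_inert (b.hp i0) q3
  have h1 := lemmaB1 (b.hp i0) q3 h0.1 hc (by
    intro l hl hl3 hlt
    have hlq : ¬ l ∣ (p i0 : Eis) := fun h => h0.1 ((hl.associated_of_dvd hQ h).symm.dvd.trans hlt)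
    by_cases hno : ∃ j, l ∣ (p j : Eis)
    · left
      obtain ⟨j, hj⟩ := hno
      exact b.good hl hl3 hj hlq
    push Not at hno
    by_cases hgood : sym l (p i0 : Eis) = 0
    · exact Or.inl hgood
    · exact Or.inr (hloc l hl hl3 hno (b.nonCube hl hl3 hno (Or.inr ⟨rfl, hgood⟩))))
  rw [h0.2] at h1
  exact mul_right_cancel₀ (b.hw i0 b.n0) h1

theorem caseII_dbl (b : BaseG p e e' i0 i1) (h01 : i0 ≠ i1)
    (hab : (e i0 : ZMod 3) * sym (p i0 : Eis) w + (e i1 : ZMod 3) * sym (p i1 : Eis) w = 0)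
    (hP : IsPt p e pos x) (hP' : IsPt p e' pos' y) (hpos : Exch i0 i1 pos pos') :
    pos i0 = pos i1 :=
  fpos_inj _ _ (dbl_of b h01 hab (tII_at b hP hP' hpos (Or.inl rfl))
    (tII_at b hP hP' hpos (Or.inr rfl)) (fun _ hl hl3 hno hbad => tII_loc b hP hP' hpos hl hl3 hno hbad))

theorem caseII_sgl (b : BaseG p e e' i0 i0)
    (hP : IsPt p e pos x) (hP' : IsPt p e' pos' y) (hpos : Exch i0 i0 pos pos') {c : ZMod 3}
    (hc : Cls (tII p i0 i0 pos x y) c) : fpos (pos i0) = c :=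
  sgl_of b (tII_at b hP hP' hpos (Or.inl rfl)) hc
    (fun _ hl hl3 hno hbad => tII_loc b hP hP' hpos hl hl3 hno hbad)

/-! ### case I -/

/-- the terms of a point -/
def term (p e : Fin m → ℕ) (pos : Fin m → Fin 3) (x : Fin 3 → ℤ) (k : Fin 3) : ℤ :=
  cell p e pos k * x k ^ 3

/-- the main element of case I in terms of cells -/
def tI (p e : Fin m → ℕ) (i0 i1 : Fin m) (pos : Fin m → Fin 3) (x y : Fin 3 → ℤ) : Eis :=
  tOne (qS p i0 i1) (term p e pos x 0) (term p e pos x 1) (term p e pos x 2)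
    (x 0 * x 1 * x 2) (y 1) (y 2)

theorem cell_std2' (p e : Fin m → ℕ) (i0 i1 : Fin m) : cell p e (stdp i0 i1) 2 = bS p e i0 i1 := by
  unfold cell stdp bS
  refine Finset.prod_congr rfl (fun j _ => ?_)
  by_cases h : Sp i0 i1 j
  · rw [if_pos h, if_pos rfl, if_pos h]
  · rw [if_neg h, if_neg (by decide), if_neg h]

theorem tI_at (b : BaseG p e e' i0 i1) (hP : IsPt p e pos x) (hP' : IsPt p e' (stdp i0 i1) y)
    {i : Fin m} (hi : Sp i0 i1 i) :
    (¬ (p i : Eis) ∣ tI p e i0 i1 pos x y ∧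
      sym (p i : Eis) (tI p e i0 i1 pos x y) = ((pos i : ℕ) : ZMod 3) * sym (p i : Eis) w) ∧
      y 1 ≠ 0 ∧ res (term p e pos x 0) (term p e pos x 1) (term p e pos x 2) ≠ 0 := by
  have he : e i ≠ 0 := by have := b.he i; omega
  have he' : e' i ≠ 0 := by have := b.he' i; omega
  have hx := sum3 hP.sum
  have h12 := hP'.cop 1 2 (by decide)
  rw [cell_std2'] at h12
  obtain ⟨h1, h2, h3, h4⟩ := caseI_at (w0 := x 0 * x 1 * x 2) (b.hp i) (b.sp3 hi)
    (Q := qS p i0 i1) (B' := bS p e' i0 i1)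
    (dvd_prod_if (fun j => Sp i0 i1 j) hi one_ne_zero)
    (dvd_prod_if (fun j => Sp i0 i1 j) hi he')
    (X0 := term p e pos x 0) (X1 := term p e pos x 1) (X2 := term p e pos x 2) hx
    (coprime_cube (hP.cop 0 1 (by decide)))
    (coprime_cube (hP.cop 0 2 (by decide))) h12
    (cast_pos (pos i) (fun k => (p i : ℤ) ∣ term p e pos x k)
      (Dvd.dvd.mul_right (dvd_prod_if (fun j => pos j = pos i) rfl he) _))
  exact ⟨⟨h1, h2⟩, h3, h4⟩

theorem tI_loc (b : BaseG p e e' i0 i1) (hP : IsPt p e pos x) (hP' : IsPt p e' (stdp i0 i1) y)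
    {l : Eis} (hl : Prime l) (hl3 : ¬ l ∣ 3)
    (hno : ∀ j, ¬ l ∣ (p j : Eis)) (hbad : NonCube l (bS p e i0 i1)) :
    3 ∣ V l (tI p e i0 i1 pos x y) := by
  have hx := sum3 hP.sum
  have hy := sum3 hP'.sum
  have hprod := cell_prod p e pos
  have hprod' := cell_prod p e (stdp i0 i1)
  rw [cell_std0, cell_std2', one_mul] at hprod'
  have c0 := cell_std0 p e' i0 i1
  have c1 := cell_std1_eq (p := p) b.rel
  obtain ⟨-, hy0, hs0⟩ := tI_at b hP hP' (Or.inl rfl)
  have k01 := hP'.cop 0 1 (by decide)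
  have k02 := hP'.cop 0 2 (by decide)
  rw [c0, one_mul] at k01
  rw [c0, one_mul, cell_std2'] at k02
  rw [c0, cell_std2'] at hy
  refine caseI_loc (B := bS p e i0 i1) (B' := bS p e' i0 i1) (C := cell p e' (stdp i0 i1) 1)
    (x := y 0) hl hl3 ?_ hbad b.bb hx ?_ (coprime_cube (hP.cop 0 1 (by decide))) ?_ k01 k02 hy0 hs0
  · intro h
    obtain ⟨j, hj⟩ := SPr.prod p (fun j => Sp i0 i1 j) (fun _ => 1) l hl h
    exact hno j hj
  · rw [← c1]
    have e1 : term p e pos x 0 * term p e pos x 1 * term p e pos x 2 =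
      (cell p e pos 0 * cell p e pos 1 * cell p e pos 2) * (x 0 * x 1 * x 2) ^ 3 := by
      unfold term; ring
    rw [e1, hprod, ← hprod']; ring
  · linear_combination hy

theorem pos_cast_inj : ∀ a b : Fin 3, ((a : ℕ) : ZMod 3) = ((b : ℕ) : ZMod 3) → a = b := by decide

theorem caseI_dbl (b : BaseG p e e' i0 i1) (h01 : i0 ≠ i1)
    (hab : (e i0 : ZMod 3) * sym (p i0 : Eis) w + (e i1 : ZMod 3) * sym (p i1 : Eis) w = 0)
    (hP : IsPt p e pos x) (hP' : IsPt p e' (stdp i0 i1) y) : pos i0 = pos i1 :=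
  pos_cast_inj _ _ (dbl_of b h01 hab (tI_at b hP hP' (Or.inl rfl)).1
    (tI_at b hP hP' (Or.inr rfl)).1 (fun _ hl hl3 hno hbad => tI_loc b hP hP' hl hl3 hno hbad))

theorem caseI_sgl (b : BaseG p e e' i0 i0)
    (hP : IsPt p e pos x) (hP' : IsPt p e' (stdp i0 i0) y) {c : ZMod 3}
    (hc : Cls (tI p e i0 i0 pos x y) c) : ((pos i0 : ℕ) : ZMod 3) = c :=
  sgl_of b (tI_at b hP hP' (Or.inl rfl)).1 hc
    (fun _ hl hl3 hno hbad => tI_loc b hP hP' hl hl3 hno hbad)

/-! ### case III -/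

theorem inertD_prod (b : BaseG p e e' i0 i1) (c : Fin m → Prop) [DecidablePred c]
    (n : Fin m → ℕ) : InertD (∏ j, if c j then (p j : ℤ) ^ n j else 1) := by
  intro l hl hl3 h
  obtain ⟨j, hj⟩ := SPr.prod p c n l hl h
  rcases b.h3 j with h | h
  · exact ⟨p j, b.hp j, h, hl.associated_of_dvd (prime_inert (b.hp j) h) hj⟩
  · rw [h] at hj
    exact absurd (by exact_mod_cast hj) hl3

theorem caseIII_any (b : BaseG p e e' i0 i1) {i2 : Fin m} (hi2 : ¬ Sp i0 i1 i2) (h2 : p i2 ≠ 3)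
    (hP : IsPt p e (stdp i0 i1) x) (hP' : IsPt p e' (stdp i0 i1) y) : False := by
  have hx := sum3 hP.sum
  have hy := sum3 hP'.sum
  have he0 : e i0 ≠ 0 := by have := b.he i0; omega
  have he0' : e' i0 ≠ 0 := by have := b.he' i0; omega
  have he2 : e i2 ≠ 0 := by have := b.he i2; omega
  have c0 := cell_std0 p e i0 i1
  have c0' := cell_std0 p e' i0 i1
  have c1 := cell_std1_eq (p := p) b.rel
  have k01 := hP.cop 0 1 (by decide)
  have k12 := hP.cop 1 2 (by decide)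
  have k01' := hP'.cop 0 1 (by decide)
  have k12' := hP'.cop 1 2 (by decide)
  rw [c0, cell_std2'] at hx
  rw [c0', cell_std2', ← c1] at hy
  rw [c0, one_mul] at k01
  rw [cell_std2'] at k12
  rw [c0', one_mul, ← c1] at k01'
  rw [cell_std2', ← c1] at k12'
  refine caseIII_gen' (b.hp i0) (b.sp3 (Or.inl rfl)) (b.hp i2) ((b.h3 i2).resolve_right h2)
    (B := bS p e i0 i1) (B' := bS p e' i0 i1)
    (C := cell p e (stdp i0 i1) 1) (Q := qS p i0 i1)
    b.bb (dvd_prod_if (fun j => Sp i0 i1 j) (Or.inl rfl) one_ne_zero)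
    (dvd_prod_if (fun j => Sp i0 i1 j) (Or.inl rfl) he0)
    (dvd_prod_if (fun j => Sp i0 i1 j) (Or.inl rfl) he0') ?_ ?_ ?_
    (x := x 0) (y := x 1) (z := x 2) (x' := y 0) (y' := y 1) (z' := y 2)
    (by linear_combination hx) (by linear_combination hy) k01 k12 k01' k12' (hP.ne 2) (hP'.ne 2)
    (b.hw i0 b.n0) (b.hw i2 h2)
  · rw [cell_std1]
    exact dvd_prod_if (fun j => ¬ Sp i0 i1 j) hi2 he2
  · rw [cell_std1]
    exact inertD_prod b (fun j => ¬ Sp i0 i1 j) e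
  · exact inertD_prod b (fun j => Sp i0 i1 j) (fun _ => 1)

end Pool.Agent.Lib_helper84.Cub


end

section

/-!
# The product formula for several inert primes, with the term at the prime above 3
-/

set_option autoImplicit false

namespace Pool.Agent.CubeRank

open Pool.Agent.Lib_helper18 Pool.Agent.Lib_helper18.Eis Pool.Agent.Lib_helper84.Cub

variable {m : ℕ}

/-- the product formula for a primary element -/
theorem lemmaS_prim {q : Fin m → ℕ} (hq : ∀ i, (q i).Prime) (hq3 : ∀ i, q i % 3 = 2)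
    (S : Finset (Fin m)) (a : Fin m → ZMod 3) :
    ∀ (n : ℕ) (t : Eis), N t = n → t ≠ 0 → Prim t → (∀ i ∈ S, ¬ (q i : Eis) ∣ t) →
    (∀ l : Eis, Prime l → ¬ l ∣ 3 → l ∣ t →
      ∑ i ∈ S, a i * sym l (q i : Eis) = 0 ∨ 3 ∣ V l t) →
    ∑ i ∈ S, a i * sym (q i : Eis) t = 0 := by
  have hQ := fun i => prime_inert (hq i) (hq3 i)
  have hQ3 := fun i => n3 (hq i) (hq3 i)
  intro n
  induction n using Nat.strong_induction_on with
  | _ n ih =>
    intro t hn ht hprim hqt H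
    by_cases hu : IsUnit t
    · have h1 := Prim.unit prim_one hu (by rwa [one_mul])
      refine Finset.sum_eq_zero (fun i _ => ?_)
      rcases h1 with rfl | rfl
      · rw [sym_one (hQ i) (hQ3 i), mul_zero]
      · have h2 : ¬ (q i : Eis) ∣ 1 := not_dvd_of_isUnit (hQ i) isUnit_one
        rw [sym_neg (hQ i) (hQ3 i) h2, sym_one (hQ i) (hQ3 i), mul_zero]
    · obtain ⟨l, hlirr, hlt⟩ := WfDvdMonoid.exists_irreducible_factor hu ht
      have hl : Prime l := hlirr.prime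
      have hl3 : ¬ l ∣ 3 := Prim.ndvd3 hl hprim hlt
      obtain ⟨j, hi⟩ := exists_prim (not_lam_dvd_of_prime hl hl3)
      have hass : Associated (l * w ^ j) l := ⟨(isUnit_w.pow j).unit⁻¹, by
        rw [mul_assoc]; simp⟩
      have hl' : Prime (l * w ^ j) := (hass.symm.prime hl)
      rcases H l hl hl3 hlt with hgood | hval
      · -- a good prime; make it primary
        have hl3' : ¬ (l * w ^ j) ∣ 3 := fun h => hl3 (hass.symm.dvd.trans h)
        obtain ⟨t', ht'e⟩ : l * w ^ j ∣ t := hass.dvd.trans hlt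
        have ht'p : Prim t' := hi.of_mul (by rw [← ht'e]; exact hprim)
        have ht' : t' ≠ 0 := by
          rintro rfl
          rw [mul_zero] at ht'e
          exact ht ht'e
        have hqt' : ∀ i ∈ S, ¬ (q i : Eis) ∣ t' := fun i hiS h => hqt i hiS (by
          rw [ht'e]; exact Dvd.dvd.mul_left h _)
        have hql' : ∀ i ∈ S, ¬ (q i : Eis) ∣ l * w ^ j := fun i hiS h => hqt i hiS (by
          rw [ht'e]; exact Dvd.dvd.mul_right h _)
        have hlt' : N t' < n := by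
          rw [← hn, ht'e, N_mul]
          have h1 := N_prime hl'
          have h2 := N_pos ht'
          nlinarith
        have h1 := ih _ hlt' t' rfl ht' ht'p hqt' (by
          intro m hm hm3 hmt
          by_cases hass' : Associated m (l * w ^ j)
          · left
            rw [← hgood]
            exact Finset.sum_congr rfl (fun i _ => by rw [sym_associated (hass'.trans hass)])
          · rcases H m hm hm3 (by rw [ht'e]; exact Dvd.dvd.mul_left hmt _) with h | h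
            · exact Or.inl h
            · right
              have hml : ¬ m ∣ l * w ^ j := fun h' => hass' (hm.associated_of_dvd hl' h')
              rwa [ht'e, V_mul_not_dvd hm hml ht'] at h)
        have h2 : ∀ i ∈ S, a i * sym (q i : Eis) t =
            a i * sym l (q i : Eis) + a i * sym (q i : Eis) t' := by
          intro i hiS
          have r1 := recip_inert (hq i) (hq3 i) hl' hl3' hi (hql' i hiS)
          rw [ht'e, sym_mul (hQ i) (hQ3 i) (hql' i hiS) (hqt' i hiS), r1, sym_associated hass]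
          ring
        rw [Finset.sum_congr rfl h2, Finset.sum_add_distrib, h1, hgood, add_zero]
      · -- valuation divisible by 3
        have hVe : V (l * w ^ j) t = V l t := multiplicity_eq_of_associated_left hass.symm
        obtain ⟨c, hc, hlc⟩ := V_split hl' ht
        obtain ⟨k, hk⟩ := hval
        have hk0 : k ≠ 0 := by
          rintro rfl
          exact V_eq_zero_iff.mp (by rw [hk]) hlt
        rw [hVe, hk] at hc
        have hc0 : c ≠ 0 := by rintro rfl; exact hlc (dvd_zero _)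
        have hcp : Prim c := (hi.pow (3 * k)).of_mul (by rw [← hc]; exact hprim)
        have hlk : l * w ^ j ∣ (l * w ^ j) ^ (3 * k) := dvd_pow_self _ (by omega)
        have hqc : ∀ i ∈ S, ¬ (q i : Eis) ∣ c := fun i hiS h => hqt i hiS (by
          rw [hc]; exact Dvd.dvd.mul_left h _)
        have hqk : ∀ i ∈ S, ¬ (q i : Eis) ∣ (l * w ^ j) ^ (3 * k) := fun i hiS h => hqt i hiS (by
          rw [hc]; exact Dvd.dvd.mul_right h _)
        have hql : ∀ i ∈ S, ¬ (q i : Eis) ∣ l * w ^ j := fun i hiS h => hqk i hiS (h.trans hlk)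
        have hlt' : N c < n := by
          rw [← hn, hc, N_mul]
          have h1 : 1 < N ((l * w ^ j) ^ (3 * k)) := by
            have : N ((l * w ^ j) ^ (3 * k)) = (N (l * w ^ j)) ^ (3 * k) := by
              have h5 : ((N ((l * w ^ j) ^ (3 * k)) : ℕ) : ℤ) = ((N (l * w ^ j)) ^ (3 * k) : ℕ) := by
                rw [N_cast, Eis.norm_pow]; push_cast; rw [N_cast]
              exact_mod_cast h5
            rw [this]
            exact Nat.one_lt_pow (by omega) (N_prime hl')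
          have h2 := N_pos hc0
          nlinarith
        have h1 := ih _ hlt' c rfl hc0 hcp hqc (by
          intro m hm hm3 hmt
          have hml : ¬ m ∣ (l * w ^ j) ^ (3 * k) := by
            intro h'
            have h6 := hm.dvd_of_dvd_pow h'
            have := hm.associated_of_dvd hl' h6
            exact hlc (this.symm.dvd.trans hmt)
          rcases H m hm hm3 (by rw [hc]; exact Dvd.dvd.mul_left hmt _) with h | h
          · exact Or.inl h
          · right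
            rwa [hc, V_mul_not_dvd hm hml hc0] at h)
        rw [← h1]
        refine Finset.sum_congr rfl (fun i hiS => ?_)
        rw [hc, sym_mul (hQ i) (hQ3 i) (hqk i hiS) (hqc i hiS),
          sym_pow (hQ i) (hQ3 i) (hql i hiS)]
        push_cast
        linear_combination (a i * (k : ZMod 3) * sym (q i : Eis) (l * w ^ j)) * three_zmod

/-- **the product formula for several inert primes** -/
theorem lemmaS {q : Fin m → ℕ} (hq : ∀ i, (q i).Prime) (hq3 : ∀ i, q i % 3 = 2)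
    (S : Finset (Fin m)) (a : Fin m → ZMod 3) {t : Eis} {c : ZMod 3} (ht : t ≠ 0)
    (hqt : ∀ i ∈ S, ¬ (q i : Eis) ∣ t) (hc : Cls t c)
    (H : ∀ l : Eis, Prime l → ¬ l ∣ 3 → l ∣ t →
      ∑ i ∈ S, a i * sym l (q i : Eis) = 0 ∨ 3 ∣ V l t) :
    ∑ i ∈ S, a i * sym (q i : Eis) t = c * ∑ i ∈ S, a i * sym (q i : Eis) w := by
  have hQ := fun i => prime_inert (hq i) (hq3 i)
  have hQ3 := fun i => n3 (hq i) (hq3 i)
  obtain ⟨j, k, s, rfl, hp, rfl⟩ := hc
  have hw := fun i => not_dvd_w (hQ i)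
  have hl := fun i => not_dvd_lam (hQ3 i)
  have hlj : ∀ i, ¬ (q i : Eis) ∣ lam ^ j := fun i h => hl i ((hQ i).dvd_of_dvd_pow h)
  have hwk : ∀ i, ¬ (q i : Eis) ∣ w ^ k := fun i h => hw i ((hQ i).dvd_of_dvd_pow h)
  have hqs : ∀ i ∈ S, ¬ (q i : Eis) ∣ s := fun i hi h => hqt i hi (Dvd.dvd.mul_left h _)
  have hs0 : s ≠ 0 := by rintro rfl; exact ht (by rw [mul_zero])
  have hwk0 : w ^ k ≠ 0 := pow_ne_zero _ (by decide)
  have h1 := lemmaS_prim hq hq3 S a _ (s * w ^ k) rfl (mul_ne_zero hs0 hwk0) hp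
    (fun i hi h => ((hQ i).dvd_or_dvd h).elim (hqs i hi) (hwk i)) (by
      intro l hl hl3 hlt
      have hls : l ∣ s := (hl.dvd_or_dvd hlt).resolve_right (fun h =>
        not_dvd_w hl (hl.dvd_of_dvd_pow h))
      rcases H l hl hl3 (Dvd.dvd.mul_left hls _) with h | h
      · exact Or.inl h
      · right
        have e1 : ¬ l ∣ lam ^ j := fun h => not_dvd_lam hl3 (hl.dvd_of_dvd_pow h)
        have e2 : ¬ l ∣ w ^ k := fun h => not_dvd_w hl (hl.dvd_of_dvd_pow h)
        rw [V_mul_not_dvd hl e1 hs0] at h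
        rwa [mul_comm, V_mul_not_dvd hl e2 hs0])
  rw [Finset.mul_sum]
  rw [← add_zero (∑ i ∈ S, -((j : ZMod 3) + k) * (a i * sym (q i : Eis) w)), ← h1,
    ← Finset.sum_add_distrib]
  refine Finset.sum_congr rfl (fun i hi => ?_)
  rw [sym_mul (hQ i) (hQ3 i) (hqs i hi) (hwk i), sym_pow (hQ i) (hQ3 i) (hw i),
    sym_mul (hQ i) (hQ3 i) (hlj i) (hqs i hi), sym_pow (hQ i) (hQ3 i) (hl i),
    sym_inert_lam (hq i) (hq3 i)]
  ring

/-- the symbol of a product -/
theorem sym_prod {l : Eis} (hl : Prime l) (hl3 : ¬ l ∣ 3) {p : Fin m → ℕ} (e : Fin m → ℕ)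
    (S : Finset (Fin m)) (hno : ∀ j, ¬ l ∣ (p j : Eis)) :
    ¬ l ∣ ∏ j ∈ S, (p j : Eis) ^ e j ∧
      sym l (∏ j ∈ S, (p j : Eis) ^ e j) = ∑ j ∈ S, (e j : ZMod 3) * sym l (p j : Eis) := by
  classical
  induction S using Finset.induction_on with
  | empty =>
    simp only [Finset.prod_empty, Finset.sum_empty]
    exact ⟨not_dvd_of_isUnit hl isUnit_one, sym_one hl hl3⟩
  | insert i S hi ih =>
    rw [Finset.prod_insert hi, Finset.sum_insert hi]
    have h1 : ¬ l ∣ (p i : Eis) ^ e i := fun h => hno i (hl.dvd_of_dvd_pow h)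
    refine ⟨fun h => (hl.dvd_or_dvd h).elim h1 ih.1, ?_⟩
    rw [sym_mul hl hl3 h1 ih.1, ih.2, sym_pow hl hl3 (hno i)]

/-- noncubes -/
theorem nonCube_of_sym {l : Eis} (hl : Prime l) (hl3 : ¬ l ∣ 3) {B : ℤ} (hB : ¬ l ∣ (B : Eis))
    (hs : sym l (B : Eis) ≠ 0) : NonCube l B := by
  intro u v h
  by_cases hv : l ∣ v
  · have h1 : l ∣ (B : Eis) * v ^ 3 := Dvd.dvd.mul_left (Dvd.dvd.pow hv (by norm_num)) _
    exact ⟨hl.dvd_of_dvd_pow ((dvd_add_left h1).mp h), hv⟩
  · exfalso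
    apply hs
    have hv3 : ¬ l ∣ v ^ 3 := fun h' => hv (hl.dvd_of_dvd_pow h')
    have hBv : ¬ l ∣ (B : Eis) * v ^ 3 := fun h' => (hl.dvd_or_dvd h').elim hB hv3
    have hu : ¬ l ∣ u := by
      intro h'
      have h1 : l ∣ u ^ 3 := Dvd.dvd.pow h' (by norm_num)
      exact hBv ((dvd_add_right h1).mp h)
    have h5 : l ∣ (B : Eis) * v ^ 3 - (-u) ^ 3 := by
      have e : (B : Eis) * v ^ 3 - (-u) ^ 3 = u ^ 3 + (B : Eis) * v ^ 3 := by ring
      rw [e]; exact h
    have h6 := sym_congr h5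
    have hu' : ¬ l ∣ -u := by rwa [dvd_neg]
    rw [sym_cube hl hl3 hu', sym_mul hl hl3 hB hv3, sym_cube hl hl3 hv, add_zero] at h6
    exact h6

end Pool.Agent.CubeRank


end

section

/-!
# The product formula for several inert primes, with the term at the prime above 3
-/

set_option autoImplicit false

namespace Pool.Agent.CubeRank

open Pool.Agent.Lib_helper18 Pool.Agent.Lib_helper18.Eis Pool.Agent.Lib_helper84.Cub

variable {m : ℕ}

/-- the product formula for a primary element -/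
theorem lemmaS_primG {q : Fin m → ℕ} (S : Finset (Fin m)) (hq : ∀ i ∈ S, (q i).Prime)
    (hq3 : ∀ i ∈ S, q i % 3 = 2) (a : Fin m → ZMod 3) :
    ∀ (n : ℕ) (t : Eis), N t = n → t ≠ 0 → Prim t → (∀ i ∈ S, ¬ (q i : Eis) ∣ t) →
    (∀ l : Eis, Prime l → ¬ l ∣ 3 → l ∣ t →
      ∑ i ∈ S, a i * sym l (q i : Eis) = 0 ∨ 3 ∣ V l t) →
    ∑ i ∈ S, a i * sym (q i : Eis) t = 0 := by
  have hQ := fun i hi => prime_inert (hq i hi) (hq3 i hi)
  have hQ3 := fun i hi => n3 (hq i hi) (hq3 i hi)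
  intro n
  induction n using Nat.strong_induction_on with
  | _ n ih =>
    intro t hn ht hprim hqt H
    by_cases hu : IsUnit t
    · have h1 := Prim.unit prim_one hu (by rwa [one_mul])
      refine Finset.sum_eq_zero (fun i hiS => ?_)
      rcases h1 with rfl | rfl
      · rw [sym_one (hQ i hiS) (hQ3 i hiS), mul_zero]
      · have h2 : ¬ (q i : Eis) ∣ 1 := not_dvd_of_isUnit (hQ i hiS) isUnit_one
        rw [sym_neg (hQ i hiS) (hQ3 i hiS) h2, sym_one (hQ i hiS) (hQ3 i hiS), mul_zero]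
    · obtain ⟨l, hlirr, hlt⟩ := WfDvdMonoid.exists_irreducible_factor hu ht
      have hl : Prime l := hlirr.prime
      have hl3 : ¬ l ∣ 3 := Prim.ndvd3 hl hprim hlt
      obtain ⟨j, hi⟩ := exists_prim (not_lam_dvd_of_prime hl hl3)
      have hass : Associated (l * w ^ j) l := ⟨(isUnit_w.pow j).unit⁻¹, by
        rw [mul_assoc]; simp⟩
      have hl' : Prime (l * w ^ j) := (hass.symm.prime hl)
      rcases H l hl hl3 hlt with hgood | hval
      · -- a good prime; make it primary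
        have hl3' : ¬ (l * w ^ j) ∣ 3 := fun h => hl3 (hass.symm.dvd.trans h)
        obtain ⟨t', ht'e⟩ : l * w ^ j ∣ t := hass.dvd.trans hlt
        have ht'p : Prim t' := hi.of_mul (by rw [← ht'e]; exact hprim)
        have ht' : t' ≠ 0 := by
          rintro rfl
          rw [mul_zero] at ht'e
          exact ht ht'e
        have hqt' : ∀ i ∈ S, ¬ (q i : Eis) ∣ t' := fun i hiS h => hqt i hiS (by
          rw [ht'e]; exact Dvd.dvd.mul_left h _)
        have hql' : ∀ i ∈ S, ¬ (q i : Eis) ∣ l * w ^ j := fun i hiS h => hqt i hiS (by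
          rw [ht'e]; exact Dvd.dvd.mul_right h _)
        have hlt' : N t' < n := by
          rw [← hn, ht'e, N_mul]
          have h1 := N_prime hl'
          have h2 := N_pos ht'
          nlinarith
        have h1 := ih _ hlt' t' rfl ht' ht'p hqt' (by
          intro m hm hm3 hmt
          by_cases hass' : Associated m (l * w ^ j)
          · left
            rw [← hgood]
            exact Finset.sum_congr rfl (fun i _ => by rw [sym_associated (hass'.trans hass)])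
          · rcases H m hm hm3 (by rw [ht'e]; exact Dvd.dvd.mul_left hmt _) with h | h
            · exact Or.inl h
            · right
              have hml : ¬ m ∣ l * w ^ j := fun h' => hass' (hm.associated_of_dvd hl' h')
              rwa [ht'e, V_mul_not_dvd hm hml ht'] at h)
        have h2 : ∀ i ∈ S, a i * sym (q i : Eis) t =
            a i * sym l (q i : Eis) + a i * sym (q i : Eis) t' := by
          intro i hiS
          have r1 := recip_inert (hq i hiS) (hq3 i hiS) hl' hl3' hi (hql' i hiS)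
          rw [ht'e, sym_mul (hQ i hiS) (hQ3 i hiS) (hql' i hiS) (hqt' i hiS), r1, sym_associated hass]
          ring
        rw [Finset.sum_congr rfl h2, Finset.sum_add_distrib, h1, hgood, add_zero]
      · -- valuation divisible by 3
        have hVe : V (l * w ^ j) t = V l t := multiplicity_eq_of_associated_left hass.symm
        obtain ⟨c, hc, hlc⟩ := V_split hl' ht
        obtain ⟨k, hk⟩ := hval
        have hk0 : k ≠ 0 := by
          rintro rfl
          exact V_eq_zero_iff.mp (by rw [hk]) hlt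
        rw [hVe, hk] at hc
        have hc0 : c ≠ 0 := by rintro rfl; exact hlc (dvd_zero _)
        have hcp : Prim c := (hi.pow (3 * k)).of_mul (by rw [← hc]; exact hprim)
        have hlk : l * w ^ j ∣ (l * w ^ j) ^ (3 * k) := dvd_pow_self _ (by omega)
        have hqc : ∀ i ∈ S, ¬ (q i : Eis) ∣ c := fun i hiS h => hqt i hiS (by
          rw [hc]; exact Dvd.dvd.mul_left h _)
        have hqk : ∀ i ∈ S, ¬ (q i : Eis) ∣ (l * w ^ j) ^ (3 * k) := fun i hiS h => hqt i hiS (by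
          rw [hc]; exact Dvd.dvd.mul_right h _)
        have hql : ∀ i ∈ S, ¬ (q i : Eis) ∣ l * w ^ j := fun i hiS h => hqk i hiS (h.trans hlk)
        have hlt' : N c < n := by
          rw [← hn, hc, N_mul]
          have h1 : 1 < N ((l * w ^ j) ^ (3 * k)) := by
            have : N ((l * w ^ j) ^ (3 * k)) = (N (l * w ^ j)) ^ (3 * k) := by
              have h5 : ((N ((l * w ^ j) ^ (3 * k)) : ℕ) : ℤ) = ((N (l * w ^ j)) ^ (3 * k) : ℕ) := by
                rw [N_cast, Eis.norm_pow]; push_cast; rw [N_cast]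
              exact_mod_cast h5
            rw [this]
            exact Nat.one_lt_pow (by omega) (N_prime hl')
          have h2 := N_pos hc0
          nlinarith
        have h1 := ih _ hlt' c rfl hc0 hcp hqc (by
          intro m hm hm3 hmt
          have hml : ¬ m ∣ (l * w ^ j) ^ (3 * k) := by
            intro h'
            have h6 := hm.dvd_of_dvd_pow h'
            have := hm.associated_of_dvd hl' h6
            exact hlc (this.symm.dvd.trans hmt)
          rcases H m hm hm3 (by rw [hc]; exact Dvd.dvd.mul_left hmt _) with h | h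
          · exact Or.inl h
          · right
            rwa [hc, V_mul_not_dvd hm hml hc0] at h)
        rw [← h1]
        refine Finset.sum_congr rfl (fun i hiS => ?_)
        rw [hc, sym_mul (hQ i hiS) (hQ3 i hiS) (hqk i hiS) (hqc i hiS),
          sym_pow (hQ i hiS) (hQ3 i hiS) (hql i hiS)]
        push_cast
        linear_combination (a i * (k : ZMod 3) * sym (q i : Eis) (l * w ^ j)) * three_zmod

/-- **the product formula for several inert primes** -/
theorem lemmaSG {q : Fin m → ℕ} (S : Finset (Fin m)) (hq : ∀ i ∈ S, (q i).Prime)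
    (hq3 : ∀ i ∈ S, q i % 3 = 2) (a : Fin m → ZMod 3) {t : Eis} {c : ZMod 3} (ht : t ≠ 0)
    (hqt : ∀ i ∈ S, ¬ (q i : Eis) ∣ t) (hc : Cls t c)
    (H : ∀ l : Eis, Prime l → ¬ l ∣ 3 → l ∣ t →
      ∑ i ∈ S, a i * sym l (q i : Eis) = 0 ∨ 3 ∣ V l t) :
    ∑ i ∈ S, a i * sym (q i : Eis) t = c * ∑ i ∈ S, a i * sym (q i : Eis) w := by
  have hQ := fun i hi => prime_inert (hq i hi) (hq3 i hi)
  have hQ3 := fun i hi => n3 (hq i hi) (hq3 i hi)
  obtain ⟨j, k, s, rfl, hp, rfl⟩ := hc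
  have hw := fun i hi => not_dvd_w (hQ i hi)
  have hl := fun i hi => not_dvd_lam (hQ3 i hi)
  have hlj : ∀ i ∈ S, ¬ (q i : Eis) ∣ lam ^ j := fun i hi h =>
    hl i hi ((hQ i hi).dvd_of_dvd_pow h)
  have hwk : ∀ i ∈ S, ¬ (q i : Eis) ∣ w ^ k := fun i hi h => hw i hi ((hQ i hi).dvd_of_dvd_pow h)
  have hqs : ∀ i ∈ S, ¬ (q i : Eis) ∣ s := fun i hi h => hqt i hi (Dvd.dvd.mul_left h _)
  have hs0 : s ≠ 0 := by rintro rfl; exact ht (by rw [mul_zero])
  have hwk0 : w ^ k ≠ 0 := pow_ne_zero _ (by decide)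
  have h1 := lemmaS_primG S hq hq3 a _ (s * w ^ k) rfl (mul_ne_zero hs0 hwk0) hp
    (fun i hi h => ((hQ i hi).dvd_or_dvd h).elim (hqs i hi) (hwk i hi)) (by
      intro l hl hl3 hlt
      have hls : l ∣ s := (hl.dvd_or_dvd hlt).resolve_right (fun h =>
        not_dvd_w hl (hl.dvd_of_dvd_pow h))
      rcases H l hl hl3 (Dvd.dvd.mul_left hls _) with h | h
      · exact Or.inl h
      · right
        have e1 : ¬ l ∣ lam ^ j := fun h => not_dvd_lam hl3 (hl.dvd_of_dvd_pow h)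
        have e2 : ¬ l ∣ w ^ k := fun h => not_dvd_w hl (hl.dvd_of_dvd_pow h)
        rw [V_mul_not_dvd hl e1 hs0] at h
        rwa [mul_comm, V_mul_not_dvd hl e2 hs0])
  rw [Finset.mul_sum]
  rw [← add_zero (∑ i ∈ S, -((j : ZMod 3) + k) * (a i * sym (q i : Eis) w)), ← h1,
    ← Finset.sum_add_distrib]
  refine Finset.sum_congr rfl (fun i hi => ?_)
  rw [sym_mul (hQ i hi) (hQ3 i hi) (hqs i hi) (hwk i hi), sym_pow (hQ i hi) (hQ3 i hi) (hw i hi),
    sym_mul (hQ i hi) (hQ3 i hi) (hlj i hi) (hqs i hi), sym_pow (hQ i hi) (hQ3 i hi) (hl i hi),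
    sym_inert_lam (hq i hi) (hq3 i hi)]
  ring

end Pool.Agent.CubeRank


end
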