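import Mathlib

/-! Parts: CubeRank.ADefs, CubeRank.AClique, CubeRank.AWarn -/

section

/-!
# Average of `4 ^ r(A)`: the two combinatorial statements
-/

set_option autoImplicit false

namespace Pool.Agent.CubeRank

/-- (A1) a subspace of `F_3^m` of dimension `d` which contains a nowhere zero vector contains at
least `4^d / 2^m` nowhere zero vectors (Warning's second theorem for `{1,-1}^m`) -/
def WarnStmt : Prop := ∀ (m : ℕ) (W : Submodule (ZMod 3) (Fin m → ZMod 3)) (a : Fin m → ZMod 3),
  a ∈ W → (∀ i, a i ≠ 0) →
    4 ^ Module.finrank (ZMod 3) W ≤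
      2 ^ m * Nat.card {v : Fin m → ZMod 3 // v ∈ W ∧ ∀ i, v i ≠ 0}

/-- (A2) nowhere zero vectors with pairwise isotropic differences: `u` is the diagonal form on the
coordinates in `T`, the coordinates in `R` are free, the other ones are fixed -/
def CliqueStmt : Prop := ∀ (m : ℕ) (T R : Finset (Fin m)) (u : Fin m → ZMod 3)
  (E : Finset (Fin m → ZMod 3)),
  (∀ i ∈ T, u i ≠ 0) → (∀ x ∈ E, ∀ i, x i ≠ 0) →
  (∀ x ∈ E, ∀ y ∈ E, ∀ i, i ∉ T → i ∉ R → x i = y i) →
  (∀ x ∈ E, ∀ y ∈ E, ∑ i ∈ T, u i * (x i - y i) ^ 2 = 0) →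
    E.card ≤ 2 ^ (T.card / 2 + R.card)

end Pool.Agent.CubeRank


end

section

/-!
# Nowhere zero vectors with pairwise isotropic differences
-/

set_option autoImplicit false

namespace Pool.Agent.CubeRank

namespace AClique

open Finset

/-- counting: an affine space of dimension at most `D` over `F_3` contains at most `2 ^ D` nowhere
zero vectors -/
theorem count (m : ℕ) (D : ℕ) : ∀ (V : Submodule (ZMod 3) (Fin m → ZMod 3)) (z : Fin m → ZMod 3)
    (E : Finset (Fin m → ZMod 3)), Module.finrank (ZMod 3) V ≤ D → (∀ x ∈ E, x - z ∈ V) →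
    (∀ x ∈ E, ∀ i, x i ≠ 0) → E.card ≤ 2 ^ D := by
  induction D with
  | zero =>
    intro V z E hV hz _
    have hV0 : V = ⊥ := by
      rw [← Submodule.finrank_eq_zero (R := ZMod 3)]
      omega
    rw [pow_zero, Finset.card_le_one]
    intro a ha b hb
    have h1 := hz a ha
    have h2 := hz b hb
    rw [hV0, Submodule.mem_bot, sub_eq_zero] at h1 h2
    rw [h1, h2]
  | succ D ih =>
    intro V z E hV hz hE
    by_cases hV0 : V = ⊥
    · have : E.card ≤ 1 := by
        rw [Finset.card_le_one]
        intro a ha b hb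
        have h1 := hz a ha
        have h2 := hz b hb
        rw [hV0, Submodule.mem_bot, sub_eq_zero] at h1 h2
        rw [h1, h2]
      exact this.trans Nat.one_le_two_pow
    · obtain ⟨v, hv, hv0⟩ := Submodule.exists_mem_ne_zero_of_ne_bot hV0
      obtain ⟨i, hi⟩ := Function.ne_iff.1 hv0
      set V' : Submodule (ZMod 3) (Fin m → ZMod 3) :=
        V ⊓ LinearMap.ker (LinearMap.proj (R := ZMod 3) (φ := fun _ : Fin m => ZMod 3) i) with hV'
      have hlt : V' < V := by
        refine lt_of_le_of_ne inf_le_left ?_
        intro h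
        have h1 : v ∈ V' := by rw [h]; exact hv
        have h2 := (Submodule.mem_inf.1 h1).2
        rw [LinearMap.mem_ker] at h2
        exact hi h2
      have hfin : Module.finrank (ZMod 3) V' ≤ D := by
        have := Submodule.finrank_lt_finrank_of_lt hlt
        omega
      have key : ∀ c : ZMod 3, (E.filter (fun x => x i = c)).card ≤ 2 ^ D := by
        intro c
        rcases (E.filter (fun x => x i = c)).eq_empty_or_nonempty with h | ⟨z', hz'⟩
        · rw [h, Finset.card_empty]
          exact Nat.zero_le _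
        · have hz1 := (Finset.mem_filter.1 hz').1
          have hz2 := (Finset.mem_filter.1 hz').2
          refine ih V' z' _ hfin ?_ ?_
          · intro x hx
            have hx1 := (Finset.mem_filter.1 hx).1
            have hx2 := (Finset.mem_filter.1 hx).2
            refine Submodule.mem_inf.2 ⟨?_, ?_⟩
            · have h1 := V.sub_mem (hz x hx1) (hz z' hz1)
              rw [sub_sub_sub_cancel_right] at h1
              exact h1
            · rw [LinearMap.mem_ker]
              change x i - z' i = 0
              rw [hx2, hz2, sub_self]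
          · intro x hx
            exact hE x (Finset.mem_filter.1 hx).1
      have hcov : E ⊆ E.filter (fun x => x i = 1) ∪ E.filter (fun x => x i = 2) := by
        intro x hx
        have h1 := hE x hx i
        have h2 : ∀ c : ZMod 3, c ≠ 0 → c = 1 ∨ c = 2 := by decide
        rcases h2 _ h1 with h | h
        · exact Finset.mem_union_left _ (Finset.mem_filter.2 ⟨hx, h⟩)
        · exact Finset.mem_union_right _ (Finset.mem_filter.2 ⟨hx, h⟩)
      calc E.card ≤ (E.filter (fun x => x i = 1) ∪ E.filter (fun x => x i = 2)).card :=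
            Finset.card_le_card hcov
        _ ≤ (E.filter (fun x => x i = 1)).card + (E.filter (fun x => x i = 2)).card :=
            Finset.card_union_le _ _
        _ ≤ 2 ^ D + 2 ^ D := Nat.add_le_add (key 1) (key 2)
        _ = 2 ^ (D + 1) := by ring

/-- the bilinear form -/
noncomputable def bil {ι : Type*} (S : Finset ι) (u : ι → ZMod 3) :
    (ι → ZMod 3) →ₗ[ZMod 3] (ι → ZMod 3) →ₗ[ZMod 3] ZMod 3 :=
  LinearMap.mk₂ (ZMod 3) (fun a b => ∑ i ∈ S, u i * a i * b i)
    (by
      intro a a' b
      rw [← Finset.sum_add_distrib]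
      apply Finset.sum_congr rfl
      intro i _
      rw [Pi.add_apply]
      ring)
    (by
      intro c a b
      rw [smul_eq_mul, Finset.mul_sum]
      apply Finset.sum_congr rfl
      intro i _
      rw [Pi.smul_apply, smul_eq_mul]
      ring)
    (by
      intro a b b'
      rw [← Finset.sum_add_distrib]
      apply Finset.sum_congr rfl
      intro i _
      rw [Pi.add_apply]
      ring)
    (by
      intro c a b
      rw [smul_eq_mul, Finset.mul_sum]
      apply Finset.sum_congr rfl
      intro i _
      rw [Pi.smul_apply, smul_eq_mul]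
      ring)

theorem bil_apply {ι : Type*} (S : Finset ι) (u : ι → ZMod 3) (a b : ι → ZMod 3) :
    bil S u a b = ∑ i ∈ S, u i * a i * b i := rfl

/-- an isotropic subspace for a nondegenerate diagonal form has dimension at most half -/
theorem isotropic {ι : Type*} [Fintype ι] (u : ι → ZMod 3) (hu : ∀ i, u i ≠ 0)
    (W : Submodule (ZMod 3) (ι → ZMod 3)) (hW : ∀ a ∈ W, ∀ b ∈ W, bil univ u a b = 0) :
    2 * Module.finrank (ZMod 3) W ≤ Fintype.card ι := by
  classical
  have hinj : Function.Injective (bil univ u) := by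
    rw [← LinearMap.ker_eq_bot, LinearMap.ker_eq_bot']
    intro a ha
    funext i
    have h1 := congrArg (fun f => f (Pi.single i 1)) ha
    simp only [bil_apply, LinearMap.zero_apply] at h1
    rw [Finset.sum_eq_single i] at h1
    · rw [Pi.single_eq_same, mul_one] at h1
      rcases mul_eq_zero.1 h1 with h | h
      · exact absurd h (hu i)
      · exact h
    · intro j _ hj
      rw [Pi.single_eq_of_ne hj, mul_zero]
    · intro h
      exact absurd (Finset.mem_univ _) h
  have h1 : Module.finrank (ZMod 3) W = Module.finrank (ZMod 3) (W.map (bil univ u)) :=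
    (Submodule.equivMapOfInjective (bil univ u) hinj W).finrank_eq
  have h2 : W.map (bil univ u) ≤ W.dualAnnihilator := by
    rintro _ ⟨a, ha, rfl⟩
    rw [Submodule.mem_dualAnnihilator]
    intro b hb
    exact hW a ha b hb
  have h3 := Submodule.finrank_mono h2
  have h4 : Module.finrank (ZMod 3) W + Module.finrank (ZMod 3) W.dualAnnihilator =
      Fintype.card ι := by
    rw [← Module.finrank_fintype_fun_eq_card (ZMod 3) (η := ι)]
    exact Subspace.finrank_add_finrank_dualAnnihilator_eq W
  have h5 : Module.finrank (ZMod 3) W ≤ Module.finrank (ZMod 3) W.dualAnnihilator :=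
    h1.le.trans h3
  have h6 : Module.finrank (ZMod 3) W + Module.finrank (ZMod 3) W ≤ Fintype.card ι :=
    (Nat.add_le_add_left h5 _).trans h4.le
  omega

end AClique

open _root_.Pool.Agent.CubeRank.AClique in
/-- (A2) -/
theorem clique : CliqueStmt := by
  classical
  intro m T R u E hu hE hfix hiso
  rcases E.eq_empty_or_nonempty with h | ⟨z, hz⟩
  · rw [h, Finset.card_empty]
    exact Nat.zero_le _
  set V : Submodule (ZMod 3) (Fin m → ZMod 3) :=
    Submodule.span (ZMod 3) ((fun x => x - z) '' (E : Set (Fin m → ZMod 3))) with hV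
  -- the form vanishes on `V`
  have hgen : ∀ x ∈ E, ∀ y ∈ E, bil T u (x - z) (y - z) = 0 := by
    intro x hx y hy
    have h1 := hiso x hx z hz
    have h2 := hiso y hy z hz
    have h3 := hiso x hx y hy
    have h4 : 2 * bil T u (x - z) (y - z) = ∑ i ∈ T, u i * (x i - z i) ^ 2 +
        ∑ i ∈ T, u i * (y i - z i) ^ 2 - ∑ i ∈ T, u i * (x i - y i) ^ 2 := by
      rw [bil_apply, Finset.mul_sum, ← Finset.sum_add_distrib, ← Finset.sum_sub_distrib]
      apply Finset.sum_congr rfl
      intro i _
      rw [Pi.sub_apply, Pi.sub_apply]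
      ring
    rw [h1, h2, h3, add_zero, sub_zero] at h4
    rcases mul_eq_zero.1 h4 with h | h
    · exact absurd h (by decide)
    · exact h
  have hV0 : ∀ a ∈ V, ∀ b ∈ V, bil T u a b = 0 := by
    have s1 : ∀ x ∈ E, V ≤ LinearMap.ker (bil T u (x - z)) := by
      intro x hx
      rw [hV, Submodule.span_le]
      rintro _ ⟨y, hy, rfl⟩
      exact hgen x hx y hy
    intro a ha b hb
    have s2 : V ≤ LinearMap.ker ((bil T u).flip b) := by
      rw [hV, Submodule.span_le]
      rintro _ ⟨x, hx, rfl⟩
      have := s1 x hx hb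
      rw [LinearMap.mem_ker] at this
      change (bil T u).flip b (x - z) = 0
      rw [LinearMap.flip_apply]
      exact this
    have := s2 ha
    rw [LinearMap.mem_ker, LinearMap.flip_apply] at this
    exact this
  have hVfix : ∀ a ∈ V, ∀ i, i ∉ T → i ∉ R → a i = 0 := by
    intro a ha i hiT hiR
    have s : V ≤ LinearMap.ker (LinearMap.proj (R := ZMod 3) (φ := fun _ : Fin m => ZMod 3) i) := by
      rw [hV, Submodule.span_le]
      rintro _ ⟨x, hx, rfl⟩
      change x i - z i = 0
      rw [hfix x hx z hz i hiT hiR, sub_self]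
    exact s ha
  -- dimension
  let πT : (Fin m → ZMod 3) →ₗ[ZMod 3] (T → ZMod 3) :=
    LinearMap.funLeft (ZMod 3) (ZMod 3) (Subtype.val : T → Fin m)
  let πR : (Fin m → ZMod 3) →ₗ[ZMod 3] (R → ZMod 3) :=
    LinearMap.funLeft (ZMod 3) (ZMod 3) (Subtype.val : R → Fin m)
  have hrange : 2 * Module.finrank (ZMod 3) (LinearMap.range (πT.domRestrict V)) ≤ T.card := by
    have h1 := isotropic (fun i : T => u i) (fun i => hu i i.2)
      (LinearMap.range (πT.domRestrict V)) (by
        rintro _ ⟨a, rfl⟩ _ ⟨b, rfl⟩
        have h2 := hV0 a.1 a.2 b.1 b.2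
        rw [bil_apply] at h2 ⊢
        rw [← Finset.sum_coe_sort] at h2
        exact h2)
    rw [Fintype.card_coe] at h1
    exact h1
  have hker : Module.finrank (ZMod 3) (LinearMap.ker (πT.domRestrict V)) ≤ R.card := by
    have hinj : Function.Injective ((πR.domRestrict V).domRestrict
        (LinearMap.ker (πT.domRestrict V))) := by
      rw [injective_iff_map_eq_zero]
      intro a ha
      apply Subtype.ext
      apply Subtype.ext
      funext i
      have h1 : a.1.1 ∈ V := a.1.2
      have h2 : ∀ i : T, a.1.1 i = 0 := by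
        intro i
        have := a.2
        rw [LinearMap.mem_ker] at this
        exact congrFun this i
      have h3 : ∀ i : R, a.1.1 i = 0 := fun i => congrFun ha i
      by_cases hiT : i ∈ T
      · exact h2 ⟨i, hiT⟩
      · by_cases hiR : i ∈ R
        · exact h3 ⟨i, hiR⟩
        · exact hVfix _ h1 i hiT hiR
    have h1 := LinearMap.finrank_le_finrank_of_injective hinj
    rw [Module.finrank_fintype_fun_eq_card, Fintype.card_coe] at h1
    exact h1
  have hdim : Module.finrank (ZMod 3) V ≤ T.card / 2 + R.card := by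
    have h1 := LinearMap.finrank_range_add_finrank_ker (πT.domRestrict V)
    omega
  exact count m _ V z E hdim (fun x hx => Submodule.subset_span ⟨x, hx, rfl⟩) hE

end Pool.Agent.CubeRank


end

section

/-!
# Warning's second theorem for `{1,-1}^m` (module A_WARN, by helper85)
-/

set_option autoImplicit false

open Finset MvPolynomial

namespace Pool.Agent.CubeRank

lemma zmod3_sq : ∀ c : ZMod 3, c ≠ 0 → c ^ 2 = 1 := by decide

lemma zmod3_add_self : ∀ c : ZMod 3, c ≠ 0 → c + c ≠ 0 := by decide

/-- any `2 r + 1` vectors of `F_3^r` have a nonempty subfamily with sum zero -/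
lemma exists_zero_sum_fin {ι : Type*} [DecidableEq ι] (r : ℕ) (s : Finset ι)
    (g : ι → Fin r → ZMod 3) (hs : 2 * r + 1 ≤ s.card) :
    ∃ J ⊆ s, J.Nonempty ∧ ∑ i ∈ J, g i = 0 := by
  classical
  have : Fact (Nat.Prime 3) := ⟨Nat.prime_three⟩
  let f : Fin r → MvPolynomial s (ZMod 3) := fun j => ∑ i : s, C (g i j) * X i ^ 2
  have hdeg : (∑ j, (f j).totalDegree) < Fintype.card s := by
    have h1 : ∀ j, (f j).totalDegree ≤ 2 := by
      intro j
      refine (totalDegree_finsetSum _ _).trans (Finset.sup_le fun i _ => ?_)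
      refine (totalDegree_mul _ _).trans ?_
      rw [totalDegree_C, zero_add, totalDegree_X_pow]
    calc (∑ j, (f j).totalDegree) ≤ ∑ j : Fin r, 2 := Finset.sum_le_sum fun j _ => h1 j
      _ = 2 * r := by simp [mul_comm]
      _ < Fintype.card s := by rw [Fintype.card_coe]; omega
  have hdvd := char_dvd_card_solutions_of_fintype_sum_lt (p := 3) hdeg
  have h0 : ∀ j, eval (0 : s → ZMod 3) (f j) = 0 := by
    intro j
    simp [f]
  have hne : 1 < Fintype.card { x : s → ZMod 3 // ∀ i, eval x (f i) = 0 } := by
    have : Nonempty { x : s → ZMod 3 // ∀ i, eval x (f i) = 0 } := ⟨⟨0, h0⟩⟩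
    have h3 : 3 ≤ Fintype.card { x : s → ZMod 3 // ∀ i, eval x (f i) = 0 } := by
      refine Nat.le_of_dvd Fintype.card_pos ?_
      convert hdvd
    omega
  obtain ⟨⟨x, hx⟩, hx0⟩ := Fintype.exists_ne_of_one_lt_card hne ⟨0, h0⟩
  have hxne : x ≠ 0 := fun h => hx0 (Subtype.ext h)
  refine ⟨(univ.filter (fun i : s => x i ≠ 0)).map (Function.Embedding.subtype _), ?_, ?_, ?_⟩
  · intro i hi
    simp only [Finset.mem_map, Finset.mem_filter, Finset.mem_univ, true_and] at hi
    obtain ⟨j, -, rfl⟩ := hi
    exact j.2
  · rw [Finset.map_nonempty]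
    obtain ⟨i, hi⟩ := Function.ne_iff.mp hxne
    exact ⟨i, by simpa using hi⟩
  · rw [Finset.sum_map]
    funext j
    rw [Finset.sum_apply]
    have h1 := hx j
    simp only [f, map_sum, map_mul, eval_C, map_pow, eval_X] at h1
    rw [Finset.sum_filter]
    simp only [Function.Embedding.subtype_apply]
    rw [Pi.zero_apply]
    refine Eq.trans (Finset.sum_congr rfl fun i _ => ?_) h1
    by_cases hi : x i = 0
    · rw [if_neg (not_not.mpr hi), hi]
      simp
    · rw [if_pos hi, zmod3_sq _ hi, mul_one]

/-- the same for a vector space of dimension `r` -/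
lemma exists_zero_sum {ι G : Type*} [DecidableEq ι] [AddCommGroup G] [Module (ZMod 3) G]
    [Module.Finite (ZMod 3) G] (s : Finset ι) (g : ι → G)
    (hs : 2 * Module.finrank (ZMod 3) G + 1 ≤ s.card) :
    ∃ J ⊆ s, J.Nonempty ∧ ∑ i ∈ J, g i = 0 := by
  have : Fact (Nat.Prime 3) := ⟨Nat.prime_three⟩
  let b := Module.finBasis (ZMod 3) G
  obtain ⟨J, hJ, hJn, hJ0⟩ := exists_zero_sum_fin (Module.finrank (ZMod 3) G) s
    (fun i => b.equivFun (g i)) hs
  refine ⟨J, hJ, hJn, ?_⟩
  apply b.equivFun.injective
  rw [map_sum, map_zero]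
  exact hJ0

/-- the number of zero-sum subfamilies -/
lemma count_zero_sum {ι G : Type*} [DecidableEq ι] [AddCommGroup G] [DecidableEq G]
    [Module (ZMod 3) G] [Module.Finite (ZMod 3) G] (n : ℕ) :
    ∀ (s : Finset ι) (g : ι → G), s.card = n →
      2 ^ n ≤ 4 ^ Module.finrank (ZMod 3) G *
        (s.powerset.filter (fun I => ∑ i ∈ I, g i = 0)).card := by
  induction n with
  | zero =>
    intro s g hs
    have h1 : 1 ≤ (s.powerset.filter (fun I => ∑ i ∈ I, g i = 0)).card := by
      refine Finset.card_pos.mpr ⟨∅, ?_⟩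
      simp
    calc 2 ^ 0 = 1 * 1 := by norm_num
      _ ≤ _ := Nat.mul_le_mul (Nat.one_le_pow _ _ (by norm_num)) h1
  | succ n ih =>
    intro s g hs
    by_cases hr : n + 1 ≤ 2 * Module.finrank (ZMod 3) G
    · have h1 : 1 ≤ (s.powerset.filter (fun I => ∑ i ∈ I, g i = 0)).card := by
        refine Finset.card_pos.mpr ⟨∅, ?_⟩
        simp
      have h2 : 2 ^ (n + 1) ≤ 4 ^ Module.finrank (ZMod 3) G := by
        have : (4 : ℕ) = 2 ^ 2 := by norm_num
        rw [this, ← pow_mul]
        exact Nat.pow_le_pow_right (by norm_num) hr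
      calc 2 ^ (n + 1) = 2 ^ (n + 1) * 1 := (mul_one _).symm
        _ ≤ _ := Nat.mul_le_mul h2 h1
    · obtain ⟨J, hJs, ⟨j, hj⟩, hJ0⟩ := exists_zero_sum s g (by omega)
      have hjs : j ∈ s := hJs hj
      have hcard : (s.erase j).card = n := by rw [Finset.card_erase_of_mem hjs, hs]; rfl
      set g' : ι → G := fun i => if i ∈ J then - g i else g i with hg'
      have ih1 := ih (s.erase j) g hcard
      have ih2 := ih (s.erase j) g' hcard
      set A := (s.erase j).powerset.filter (fun I => ∑ i ∈ I, g i = 0) with hA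
      set B := (s.erase j).powerset.filter (fun I => ∑ i ∈ I, g' i = 0) with hB
      have key : ∀ I : Finset ι, ∑ i ∈ symmDiff I J, g i = ∑ i ∈ I, g' i := by
        intro I
        have h1 : ∑ i ∈ symmDiff I J, g i = ∑ i ∈ I \ J, g i + ∑ i ∈ J \ I, g i := by
          rw [symmDiff_def, Finset.sup_eq_union, Finset.sum_union]
          exact disjoint_sdiff_sdiff
        have h2 : ∑ i ∈ J \ I, g i = - ∑ i ∈ I ∩ J, g i := by
          have h3 : ∑ i ∈ J \ I, g i + ∑ i ∈ J ∩ I, g i = ∑ i ∈ J, g i := by
            rw [add_comm]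
            exact Finset.sum_inter_add_sum_sdiff J I g
          rw [hJ0, Finset.inter_comm] at h3
          exact eq_neg_of_add_eq_zero_left h3
        have h4 : ∑ i ∈ I, g' i = ∑ i ∈ I \ J, g i + - ∑ i ∈ I ∩ J, g i := by
          rw [← Finset.sum_inter_add_sum_sdiff I J g', add_comm]
          congr 1
          · refine Finset.sum_congr rfl fun i hi => ?_
            simp [hg', (Finset.mem_sdiff.mp hi).2]
          · rw [← Finset.sum_neg_distrib]
            refine Finset.sum_congr rfl fun i hi => ?_
            simp [hg', (Finset.mem_inter.mp hi).2]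
        rw [h1, h2, h4]
      -- the sets of B, transported by the symmetric difference with J
      set B' := B.image (fun I => symmDiff I J) with hB'
      have hBcard : B'.card = B.card := by
        rw [hB']
        refine Finset.card_image_of_injective _ ?_
        intro I I' h
        exact symmDiff_left_injective J h
      have hdisj : Disjoint A B' := by
        rw [Finset.disjoint_left]
        intro I hI hI'
        rw [hB', Finset.mem_image] at hI'
        obtain ⟨K, hK, rfl⟩ := hI'
        rw [hB, Finset.mem_filter, Finset.mem_powerset] at hK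
        rw [hA, Finset.mem_filter, Finset.mem_powerset] at hI
        have hjK : j ∉ K := fun h => Finset.notMem_erase j s (hK.1 h)
        have hjI : j ∈ symmDiff K J := by
          rw [Finset.mem_symmDiff]
          exact Or.inr ⟨hj, hjK⟩
        exact Finset.notMem_erase j s (hI.1 hjI)
      have hsub : A ∪ B' ⊆ s.powerset.filter (fun I => ∑ i ∈ I, g i = 0) := by
        intro I hI
        rw [Finset.mem_union] at hI
        rw [Finset.mem_filter, Finset.mem_powerset]
        rcases hI with hI | hI
        · rw [hA, Finset.mem_filter, Finset.mem_powerset] at hI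
          exact ⟨hI.1.trans (Finset.erase_subset _ _), hI.2⟩
        · rw [hB', Finset.mem_image] at hI
          obtain ⟨K, hK, rfl⟩ := hI
          rw [hB, Finset.mem_filter, Finset.mem_powerset] at hK
          refine ⟨?_, ?_⟩
          · intro i hi
            rw [Finset.mem_symmDiff] at hi
            rcases hi with hi | hi
            · exact Finset.erase_subset _ _ (hK.1 hi.1)
            · exact hJs hi.1
          · rw [key]
            exact hK.2
      have hle := Finset.card_le_card hsub
      rw [Finset.card_union_of_disjoint hdisj, hBcard] at hle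
      calc 2 ^ (n + 1) = 2 ^ n + 2 ^ n := by ring
        _ ≤ 4 ^ Module.finrank (ZMod 3) G * A.card + 4 ^ Module.finrank (ZMod 3) G * B.card :=
          add_le_add ih1 ih2
        _ = 4 ^ Module.finrank (ZMod 3) G * (A.card + B.card) := by ring
        _ ≤ _ := Nat.mul_le_mul_left _ hle

/-- **Warning's second theorem for `{1,-1}^m`** -/
theorem warn : WarnStmt := by
  classical
  intro m W a haW ha
  have : Fact (Nat.Prime 3) := ⟨Nat.prime_three⟩
  set G := (Fin m → ZMod 3) ⧸ W
  set g : Fin m → G := fun i => W.mkQ (Pi.single i (a i)) with hg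
  have h1 := count_zero_sum (G := G) m (Finset.univ : Finset (Fin m)) g (by simp)
  have hfin : Module.finrank (ZMod 3) G + Module.finrank (ZMod 3) W = m := by
    have := Submodule.finrank_quotient_add_finrank W
    simpa using this
  -- zero sum sets give nowhere zero vectors
  set N := ((Finset.univ : Finset (Fin m)).powerset.filter (fun I => ∑ i ∈ I, g i = 0)) with hN
  have hcount : N.card ≤ Nat.card {v : Fin m → ZMod 3 // v ∈ W ∧ ∀ i, v i ≠ 0} := by
    rw [Nat.card_eq_fintype_card]
    have hdef : ∀ I ∈ N, (a + ∑ i ∈ I, Pi.single i (a i)) ∈ W ∧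
        ∀ i, (a + ∑ i ∈ I, Pi.single i (a i) : Fin m → ZMod 3) i ≠ 0 := by
      intro I hI
      rw [hN, Finset.mem_filter] at hI
      refine ⟨?_, ?_⟩
      · refine W.add_mem haW ?_
        have h2 : W.mkQ (∑ i ∈ I, Pi.single i (a i)) = 0 := by
          rw [map_sum]
          exact hI.2
        rwa [Submodule.mkQ_apply, Submodule.Quotient.mk_eq_zero] at h2
      · intro i
        rw [Pi.add_apply, Finset.sum_apply]
        have h3 : ∑ c ∈ I, (Pi.single c (a c) : Fin m → ZMod 3) i = if i ∈ I then a i else 0 := by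
          simp [Pi.single_apply, Finset.sum_ite_eq]
        rw [h3]
        split_ifs
        · exact zmod3_add_self _ (ha i)
        · simpa using ha i
    have hval : ∀ (I : Finset (Fin m)) (i : Fin m),
        (a + ∑ i ∈ I, Pi.single i (a i) : Fin m → ZMod 3) i = a i + if i ∈ I then a i else 0 := by
      intro I i
      rw [Pi.add_apply, Finset.sum_apply]
      congr 1
      simp [Pi.single_apply, Finset.sum_ite_eq]
    have hinj : Function.Injective
        (fun I : N => (⟨a + ∑ i ∈ (I : Finset (Fin m)), Pi.single i (a i), hdef I I.2⟩ :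
          {v : Fin m → ZMod 3 // v ∈ W ∧ ∀ i, v i ≠ 0})) := by
      intro I I' h
      have h5 : (a + ∑ i ∈ (I : Finset (Fin m)), Pi.single i (a i) : Fin m → ZMod 3) =
          a + ∑ i ∈ (I' : Finset (Fin m)), Pi.single i (a i) := congrArg Subtype.val h
      apply Subtype.ext
      ext i
      have h6 := congrFun h5 i
      rw [hval, hval] at h6
      have h7 := ha i
      by_cases h8 : i ∈ (I : Finset (Fin m)) <;> by_cases h9 : i ∈ (I' : Finset (Fin m))
      · simp [h8, h9]
      · simp only [h8, h9, if_true, if_false] at h6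
        exact absurd (add_left_cancel h6) h7
      · simp only [h8, h9, if_true, if_false] at h6
        exact absurd (add_left_cancel h6).symm h7
      · simp [h8, h9]
    have := Fintype.card_le_of_injective _ hinj
    rwa [Fintype.card_coe] at this
  have h2 : 4 ^ m = 2 ^ m * 2 ^ m := by
    rw [← mul_pow]
    norm_num
  have h3 : 2 ^ m * 4 ^ Module.finrank (ZMod 3) W ≤
      2 ^ m * (2 ^ m * Nat.card {v : Fin m → ZMod 3 // v ∈ W ∧ ∀ i, v i ≠ 0}) := by
    calc 2 ^ m * 4 ^ Module.finrank (ZMod 3) W
        ≤ (4 ^ Module.finrank (ZMod 3) G * N.card) * 4 ^ Module.finrank (ZMod 3) W :=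
          Nat.mul_le_mul_right _ h1
      _ = 4 ^ (Module.finrank (ZMod 3) G + Module.finrank (ZMod 3) W) * N.card := by
          rw [pow_add]; ring
      _ = 2 ^ m * (2 ^ m * N.card) := by rw [hfin, h2]; ring
      _ ≤ _ := Nat.mul_le_mul_left _ (Nat.mul_le_mul_left _ hcount)
  exact Nat.le_of_mul_le_mul_left h3 (by positivity)

end Pool.Agent.CubeRank


end
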