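import Mathlib
import Pool.Agent.PTDM.C07

/-! Parts: CubeRank.Chord, CubeRank.Triple, CubeRank.Growth, CubeRank.KapEx -/

section

/-!
# The third point on a chord (module CR_CHORD of MP_8e0b0b_nt)
-/

set_option autoImplicit false

namespace Pool.Agent.CubeRank

open WeierstrassCurve WeierstrassCurve.Affine

/-- the rational algebra behind the chord formula -/
theorem chord_alg (α e1 e2 e3 x1 y1 x2 y2 x3 y3 a1 b1 c1 a2 b2 c2 a3 b3 c3 : ℚ)
    (hα : α ≠ 0) (h3 : e3 ≠ 0)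
    (hx : x1 - x2 ≠ 0)
    (E1 : y1 ^ 2 = x1 ^ 3 - 432 * α ^ 2) (E2 : y2 ^ 2 = x2 ^ 3 - 432 * α ^ 2)
    (hx3 : (x1 - x2) ^ 2 * x3 = (y1 - y2) ^ 2 - (x1 + x2) * (x1 - x2) ^ 2)
    (hy3 : (x1 - x2) * y3 = (y1 - y2) * (x3 - x1) + (x1 - x2) * y1)
    (ha1 : a1 = e1 * (36 * α + y1) / (72 * α)) (hb1 : b1 = e1 * (36 * α - y1) / (72 * α))
    (hc1 : c1 = e1 * x1 / (12 * α))
    (ha2 : a2 = e2 * (36 * α + y2) / (72 * α)) (hb2 : b2 = e2 * (36 * α - y2) / (72 * α))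
    (hc2 : c2 = e2 * x2 / (12 * α))
    (ha3 : a3 = e3 * (36 * α + y3) / (72 * α)) (hb3 : b3 = e3 * (36 * α - y3) / (72 * α))
    (hc3 : c3 = e3 * x3 / (12 * α)) :
    (e1 ^ 2 * e2 ^ 2 * (x2 - x1) ^ 3 / (5184 * α ^ 2 * e3)) * a3 =
        (a1 * a2 ^ 2 + b1 * b2 ^ 2 - α * c1 * c2 ^ 2) * a1 -
        (a1 ^ 2 * a2 + b1 ^ 2 * b2 - α * c1 ^ 2 * c2) * a2 ∧
    (e1 ^ 2 * e2 ^ 2 * (x2 - x1) ^ 3 / (5184 * α ^ 2 * e3)) * b3 =
        (a1 * a2 ^ 2 + b1 * b2 ^ 2 - α * c1 * c2 ^ 2) * b1 -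
        (a1 ^ 2 * a2 + b1 ^ 2 * b2 - α * c1 ^ 2 * c2) * b2 ∧
    (e1 ^ 2 * e2 ^ 2 * (x2 - x1) ^ 3 / (5184 * α ^ 2 * e3)) * c3 =
        (a1 * a2 ^ 2 + b1 * b2 ^ 2 - α * c1 * c2 ^ 2) * c1 -
        (a1 ^ 2 * a2 + b1 ^ 2 * b2 - α * c1 ^ 2 * c2) * c2 := by
  obtain ⟨N12, hN12⟩ : ∃ N, N = x1 ^ 3 - 3 * x1 ^ 2 * x2 + 2 * y1 * y2 + 864 * α ^ 2 := ⟨_, rfl⟩
  obtain ⟨N21, hN21⟩ : ∃ N, N = x2 ^ 3 - 3 * x2 ^ 2 * x1 + 2 * y1 * y2 + 864 * α ^ 2 := ⟨_, rfl⟩
  have hD : N21 - N12 = (x2 - x1) ^ 3 := by rw [hN12, hN21]; ring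
  have hX : N21 * x1 - N12 * x2 = (x2 - x1) ^ 3 * x3 := by
    rw [hN12, hN21]
    linear_combination (x1 - x2) * hx3 + (x1 - x2) * E1 + (x1 - x2) * E2
  have hY : N21 * y1 - N12 * y2 = (x2 - x1) ^ 3 * y3 := by
    apply mul_left_cancel₀ hx
    linear_combination (y1 - y2) * hX - (x2 - x1) ^ 3 * hy3 +
      ((x1 - x2) * y2 - x2 * (y1 - y2)) * hD
  have hL12 : a1 ^ 2 * a2 + b1 ^ 2 * b2 - α * c1 ^ 2 * c2 = e1 ^ 2 * e2 * N12 / (5184 * α ^ 2) := by
    rw [ha1, hb1, hc1, ha2, hb2, hc2, hN12]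
    field_simp
    linear_combination (e1 ^ 2 * e2 * α * 644972544) * E1
  have hL21 : a1 * a2 ^ 2 + b1 * b2 ^ 2 - α * c1 * c2 ^ 2 = e1 * e2 ^ 2 * N21 / (5184 * α ^ 2) := by
    rw [ha1, hb1, hc1, ha2, hb2, hc2, hN21]
    field_simp
    linear_combination (e1 * e2 ^ 2 * α * 644972544) * E2
  rw [hL12, hL21]
  refine ⟨?_, ?_, ?_⟩
  · rw [ha1, ha2, ha3]
    field_simp
    linear_combination (e1 ^ 2 * e2 ^ 2) * ((-36 * α) * hD - hY)
  · rw [hb1, hb2, hb3]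
    field_simp
    linear_combination (e1 ^ 2 * e2 ^ 2) * ((-36 * α) * hD + hY)
  · rw [hc1, hc2, hc3]
    field_simp
    linear_combination (e1 ^ 2 * e2 ^ 2) * (- hX)

theorem chord : ChordStmt := by
  intro A hA _ P Q R a1 b1 c1 a2 b2 c2 a3 b3 c3 hsum hPQ hP hQ hR
  obtain ⟨hc1, hco1, hF1, x1, y1, n1, hP', hx1, hy1⟩ := hP
  obtain ⟨hc2, hco2, hF2, x2, y2, n2, hQ', hx2, hy2⟩ := hQ
  obtain ⟨hc3, hco3, hF3, x3, y3, n3, hR', hx3, hy3⟩ := hR
  have hα : (A : ℚ) ≠ 0 := by exact_mod_cast hA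
  have hne : ∀ a b c : ℤ, c ≠ 0 → a ^ 3 + b ^ 3 = A * c ^ 3 → ((a : ℚ) + b) ≠ 0 := by
    intro a b c hc hF h
    have h1 : a + b = 0 := by exact_mod_cast h
    have h2 : A * c ^ 3 = 0 := by
      rw [← hF]
      linear_combination (a ^ 2 - a * b + b ^ 2) * h1
    rcases mul_eq_zero.mp h2 with h3 | h3
    · exact hA h3
    · exact hc (pow_eq_zero_iff (by norm_num) |>.mp h3)
  have e1 := hne a1 b1 c1 hc1 hF1
  have e2 := hne a2 b2 c2 hc2 hF2
  have e3 := hne a3 b3 c3 hc3 hF3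
  have hxne : x1 ≠ x2 := by
    intro h
    have h1 := (Affine.Point.X_eq_iff (h₁ := n1) (h₂ := n2)).mp h
    rw [← hP', ← hQ'] at h1
    rcases h1 with h1 | h1
    · exact hPQ h1
    · rw [h1, neg_add_cancel, zero_add] at hsum
      rw [hsum] at hR'
      exact Affine.Point.some_ne_zero n3 hR'.symm
  have hadd := Affine.Point.add_of_X_ne' (h₁ := n1) (h₂ := n2) hxne
  rw [← hP', ← hQ'] at hadd
  have hR2 : R = -(P + Q) := by
    rw [eq_neg_iff_add_eq_zero, add_comm]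
    exact hsum
  rw [hadd, neg_neg, hR'] at hR2
  have hinj := Affine.Point.some.inj hR2
  have hE1 := (Affine.equation_iff _ _).mp n1.1
  have hE2 := (Affine.equation_iff _ _).mp n2.1
  simp only [EA, zero_mul, add_zero] at hE1 hE2
  obtain ⟨hX3, hY3⟩ := hinj
  have hd : x1 - x2 ≠ 0 := sub_ne_zero.mpr hxne
  rw [Affine.slope_of_X_ne hxne] at hX3 hY3
  simp only [Affine.addX, Affine.negAddY, EA, zero_mul, add_zero, sub_zero] at hX3 hY3
  have k3 : (x1 - x2) ^ 2 * x3 = (y1 - y2) ^ 2 - (x1 + x2) * (x1 - x2) ^ 2 := by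
    rw [hX3]
    field_simp
    ring
  have k4 : (x1 - x2) * y3 = (y1 - y2) * (x3 - x1) + (x1 - x2) * y1 := by
    rw [hY3, hX3]
    field_simp
  have key := chord_alg A (a1 + b1) (a2 + b2) (a3 + b3) x1 y1 x2 y2 x3 y3 a1 b1 c1 a2 b2 c2
    a3 b3 c3 hα e3 hd (by linarith) (by linarith) k3 k4
    (by field_simp; linarith) (by field_simp; linarith) (by field_simp; linarith)
    (by field_simp; linarith) (by field_simp; linarith) (by field_simp; linarith)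
    (by field_simp; linarith) (by field_simp; linarith) (by field_simp; linarith)
  obtain ⟨ka, kb, kc⟩ := key
  set ρ : ℚ := ((a1 : ℚ) + b1) ^ 2 * ((a2 : ℚ) + b2) ^ 2 * (x2 - x1) ^ 3 /
    (5184 * (A : ℚ) ^ 2 * ((a3 : ℚ) + b3)) with hρ
  have hρ0 : ρ ≠ 0 := by
    have : x2 - x1 ≠ 0 := sub_ne_zero.mpr (Ne.symm hxne)
    rw [hρ]
    positivity
  obtain ⟨u, v, huv⟩ := hco3
  have huv' : (u : ℚ) * a3 + v * b3 = 1 := by exact_mod_cast huv
  refine ⟨u * ((a1 * a2 ^ 2 + b1 * b2 ^ 2 - A * c1 * c2 ^ 2) * a1 -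
        (a1 ^ 2 * a2 + b1 ^ 2 * b2 - A * c1 ^ 2 * c2) * a2) +
      v * ((a1 * a2 ^ 2 + b1 * b2 ^ 2 - A * c1 * c2 ^ 2) * b1 -
        (a1 ^ 2 * a2 + b1 ^ 2 * b2 - A * c1 ^ 2 * c2) * b2), ?_, ?_, ?_, ?_⟩
  all_goals
    have hg : (u : ℚ) * (((a1 : ℚ) * a2 ^ 2 + b1 * b2 ^ 2 - A * c1 * c2 ^ 2) * a1 -
        (a1 ^ 2 * a2 + b1 ^ 2 * b2 - A * c1 ^ 2 * c2) * a2) +
      v * ((a1 * a2 ^ 2 + b1 * b2 ^ 2 - A * c1 * c2 ^ 2) * b1 -
        (a1 ^ 2 * a2 + b1 ^ 2 * b2 - A * c1 ^ 2 * c2) * b2) = ρ := by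
      rw [← ka, ← kb]
      linear_combination ρ * huv'
  · intro h
    apply hρ0
    rw [← hg]
    exact_mod_cast h
  · have : ((u : ℚ) * (((a1 : ℚ) * a2 ^ 2 + b1 * b2 ^ 2 - A * c1 * c2 ^ 2) * a1 -
        (a1 ^ 2 * a2 + b1 ^ 2 * b2 - A * c1 ^ 2 * c2) * a2) +
      v * ((a1 * a2 ^ 2 + b1 * b2 ^ 2 - A * c1 * c2 ^ 2) * b1 -
        (a1 ^ 2 * a2 + b1 ^ 2 * b2 - A * c1 ^ 2 * c2) * b2)) * a3 =
        ((a1 : ℚ) * a2 ^ 2 + b1 * b2 ^ 2 - A * c1 * c2 ^ 2) * a1 -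
        (a1 ^ 2 * a2 + b1 ^ 2 * b2 - A * c1 ^ 2 * c2) * a2 := by
      rw [hg, ka]
    exact_mod_cast this
  · have : ((u : ℚ) * (((a1 : ℚ) * a2 ^ 2 + b1 * b2 ^ 2 - A * c1 * c2 ^ 2) * a1 -
        (a1 ^ 2 * a2 + b1 ^ 2 * b2 - A * c1 ^ 2 * c2) * a2) +
      v * ((a1 * a2 ^ 2 + b1 * b2 ^ 2 - A * c1 * c2 ^ 2) * b1 -
        (a1 ^ 2 * a2 + b1 ^ 2 * b2 - A * c1 ^ 2 * c2) * b2)) * b3 =
        ((a1 : ℚ) * a2 ^ 2 + b1 * b2 ^ 2 - A * c1 * c2 ^ 2) * b1 -
        (a1 ^ 2 * a2 + b1 ^ 2 * b2 - A * c1 ^ 2 * c2) * b2 := by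
      rw [hg, kb]
    exact_mod_cast this
  · have : ((u : ℚ) * (((a1 : ℚ) * a2 ^ 2 + b1 * b2 ^ 2 - A * c1 * c2 ^ 2) * a1 -
        (a1 ^ 2 * a2 + b1 ^ 2 * b2 - A * c1 ^ 2 * c2) * a2) +
      v * ((a1 * a2 ^ 2 + b1 * b2 ^ 2 - A * c1 * c2 ^ 2) * b1 -
        (a1 ^ 2 * a2 + b1 ^ 2 * b2 - A * c1 ^ 2 * c2) * b2)) * c3 =
        ((a1 : ℚ) * a2 ^ 2 + b1 * b2 ^ 2 - A * c1 * c2 ^ 2) * c1 -
        (a1 ^ 2 * a2 + b1 ^ 2 * b2 - A * c1 ^ 2 * c2) * c2 := by
      rw [hg, kc]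
    exact_mod_cast this

end Pool.Agent.CubeRank


end

section

/-!
# Tripling on `X³ + Y³ = A Z³` (module M3 of CubeRank, MP_8e0b0b_nt)
-/

set_option autoImplicit false

namespace Pool.Agent.CubeRank.Triple

open Pool.Agent.CubeRank

open WeierstrassCurve.Affine

variable {A : ℤ}

lemma EA_negY (x y : ℚ) : (EA A).toAffine.negY x y = -y := by
  simp [WeierstrassCurve.Affine.negY, EA]

lemma EA_addX (x₁ x₂ l : ℚ) : (EA A).toAffine.addX x₁ x₂ l = l ^ 2 - x₁ - x₂ := by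
  simp [WeierstrassCurve.Affine.addX, EA]

lemma EA_addY (x₁ x₂ y l : ℚ) : (EA A).toAffine.addY x₁ x₂ y l =
    -(l * (l ^ 2 - x₁ - x₂ - x₁) + y) := by
  simp [WeierstrassCurve.Affine.addY, WeierstrassCurve.Affine.negAddY,
    WeierstrassCurve.Affine.addX, WeierstrassCurve.Affine.negY, EA]

lemma EA_slope_self {x y : ℚ} (hy : y ≠ -y) :
    (EA A).toAffine.slope x x y y = 3 * x ^ 2 / (2 * y) := by
  rw [WeierstrassCurve.Affine.slope_of_Y_ne rfl (by rw [EA_negY]; exact hy), EA_negY]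
  simp only [EA]
  ring

/-- doubling -/
lemma double {x y : ℚ} (h : (EA A).toAffine.Nonsingular x y) (hy : y ≠ 0) (l x2 y2 : ℚ)
    (hl : l * (2 * y) = 3 * x ^ 2) (hx2 : x2 = l ^ 2 - x - x) (hy2 : y2 = -(l * (x2 - x) + y)) :
    ∃ h2 : (EA A).toAffine.Nonsingular x2 y2,
      Point.some x y h + Point.some x y h = Point.some x2 y2 h2 := by
  have hyy : y ≠ -y := fun e => hy (by linarith)
  have hne : y ≠ (EA A).toAffine.negY x y := by rw [EA_negY]; exact hyy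
  have hsl : (EA A).toAffine.slope x x y y = l := by
    rw [EA_slope_self hyy, div_eq_iff (by simpa using hy), hl]
  have h1 := Point.add_self_of_Y_ne (h₁ := h) hne
  have hX : (EA A).toAffine.addX x x ((EA A).toAffine.slope x x y y) = x2 := by
    rw [hsl, EA_addX, hx2]
  have hY : (EA A).toAffine.addY x x y ((EA A).toAffine.slope x x y y) = y2 := by
    rw [hsl, EA_addY, hy2, hx2]
  refine ⟨hX ▸ hY ▸ nonsingular_add h h (fun hxy => hne hxy.2), ?_⟩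
  rw [h1]
  congr 1

/-- chord -/
lemma chord {x y x' y' : ℚ} (h : (EA A).toAffine.Nonsingular x y)
    (h' : (EA A).toAffine.Nonsingular x' y') (hx : x ≠ x') (l x2 y2 : ℚ)
    (hl : l * (x - x') = y - y') (hx2 : x2 = l ^ 2 - x - x') (hy2 : y2 = -(l * (x2 - x) + y)) :
    ∃ h2 : (EA A).toAffine.Nonsingular x2 y2,
      Point.some x y h + Point.some x' y' h' = Point.some x2 y2 h2 := by
  have hsl : (EA A).toAffine.slope x x' y y' = l := by
    rw [WeierstrassCurve.Affine.slope_of_X_ne hx, div_eq_iff (sub_ne_zero.2 hx), hl]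
  have h1 := Point.add_of_X_ne (h₁ := h) (h₂ := h') hx
  have hX : (EA A).toAffine.addX x x' ((EA A).toAffine.slope x x' y y') = x2 := by
    rw [hsl, EA_addX, hx2]
  have hY : (EA A).toAffine.addY x x' y ((EA A).toAffine.slope x x' y y') = y2 := by
    rw [hsl, EA_addY, hy2, hx2]
  refine ⟨hX ▸ hY ▸ nonsingular_add h h' (fun hxy => hx hxy.1), ?_⟩
  rw [h1]
  congr 1

end Pool.Agent.CubeRank.Triple

namespace Pool.Agent.CubeRank

open Pool.Agent.CubeRank.Triple WeierstrassCurve.Affine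

theorem triple : TripleStmt := by
  intro A hA hcube P a b c hP
  obtain ⟨hc, hab, hE, x, y, h, rfl, hx, hy⟩ := hP
  have ha : a ≠ 0 := by
    rintro rfl
    have hb : IsUnit b := isCoprime_zero_left.1 hab
    rcases Int.isUnit_iff.1 hb with rfl | rfl
    · have : IsUnit (c ^ 3) := isUnit_of_dvd_one ⟨A, by linarith⟩
      have hcu : IsUnit c := (isUnit_pow_iff (by norm_num)).1 this
      rcases Int.isUnit_iff.1 hcu with rfl | rfl
      · exact hcube ⟨1, by linarith⟩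
      · exact hcube ⟨-1, by linarith⟩
    · have : IsUnit (c ^ 3) := isUnit_of_dvd_one ⟨-A, by linarith⟩
      have hcu : IsUnit c := (isUnit_pow_iff (by norm_num)).1 this
      rcases Int.isUnit_iff.1 hcu with rfl | rfl
      · exact hcube ⟨-1, by linarith⟩
      · exact hcube ⟨1, by linarith⟩
  have hb : b ≠ 0 := by
    rintro rfl
    have ha : IsUnit a := isCoprime_zero_right.1 hab
    rcases Int.isUnit_iff.1 ha with rfl | rfl
    · have : IsUnit (c ^ 3) := isUnit_of_dvd_one ⟨A, by linarith⟩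
      have hcu : IsUnit c := (isUnit_pow_iff (by norm_num)).1 this
      rcases Int.isUnit_iff.1 hcu with rfl | rfl
      · exact hcube ⟨1, by linarith⟩
      · exact hcube ⟨-1, by linarith⟩
    · have : IsUnit (c ^ 3) := isUnit_of_dvd_one ⟨-A, by linarith⟩
      have hcu : IsUnit c := (isUnit_pow_iff (by norm_num)).1 this
      rcases Int.isUnit_iff.1 hcu with rfl | rfl
      · exact hcube ⟨-1, by linarith⟩
      · exact hcube ⟨1, by linarith⟩
  have hsum : a + b ≠ 0 := by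
    intro e
    have h0 : a ^ 3 + b ^ 3 = 0 := by
      have : a = -b := by linarith
      rw [this]; ring
    rw [h0] at hE
    rcases mul_eq_zero.1 hE.symm with h1 | h1
    · exact hA h1
    · exact hc (pow_eq_zero_iff (by norm_num) |>.1 h1)
  -- pass to the rationals
  have hcQ : (c : ℚ) ≠ 0 := by exact_mod_cast hc
  have haQ : (a : ℚ) ≠ 0 := by exact_mod_cast ha
  have hbQ : (b : ℚ) ≠ 0 := by exact_mod_cast hb
  have hsQ : (a : ℚ) + b ≠ 0 := by exact_mod_cast hsum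
  have hEQ : (a : ℚ) ^ 3 + (b : ℚ) ^ 3 = A * (c : ℚ) ^ 3 := by exact_mod_cast hE
  have hAQ : (A : ℚ) = ((a : ℚ) + b) * ((a : ℚ) ^ 2 - a * b + b ^ 2) / (c : ℚ) ^ 3 := by
    rw [eq_div_iff (pow_ne_zero _ hcQ), ← hEQ]; ring
  have hn : (a : ℚ) ^ 2 - a * b + b ^ 2 ≠ 0 := by
    intro e
    have : (A : ℚ) = 0 := by rw [hAQ, e]; simp
    exact hA (by exact_mod_cast this)
  set a' : ℚ := (a : ℚ) with ha'
  set b' : ℚ := (b : ℚ) with hb'
  set c' : ℚ := (c : ℚ) with hc'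
  have hxv : x = 12 * (a' ^ 2 - a' * b' + b' ^ 2) / c' ^ 2 := by
    rw [eq_div_iff (pow_ne_zero _ hcQ)]
    apply mul_right_cancel₀ hsQ
    have : x * c' ^ 2 * (a' + b') = (x * (a' + b')) * c' ^ 2 := by ring
    rw [this, hx, hAQ]
    field_simp
  have hyv : y = 36 * (a' ^ 2 - a' * b' + b' ^ 2) * (a' - b') / c' ^ 3 := by
    rw [eq_div_iff (pow_ne_zero _ hcQ)]
    apply mul_right_cancel₀ hsQ
    have : y * c' ^ 3 * (a' + b') = (y * (a' + b')) * c' ^ 3 := by ring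
    rw [this, hy, hAQ]
    field_simp
  have hTX : ((TX a b : ℤ) : ℚ) = a' ^ 9 + 6 * a' ^ 6 * b' ^ 3 + 3 * a' ^ 3 * b' ^ 6 - b' ^ 9 := by
    simp only [TX]; push_cast; ring
  have hTY : ((TY a b : ℤ) : ℚ) = -a' ^ 9 + 3 * a' ^ 6 * b' ^ 3 + 6 * a' ^ 3 * b' ^ 6 + b' ^ 9 := by
    simp only [TY]; push_cast; ring
  have hTZ : ((TZ a b c : ℤ) : ℚ) =
      3 * a' * b' * c' * (a' ^ 6 + a' ^ 3 * b' ^ 3 + b' ^ 6) := by
    simp only [TZ]; push_cast; ring
  rw [hTX, hTY, hTZ]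
  have h3 : (3 : ℕ) • (Point.some x y h : GA A) =
      (Point.some x y h + Point.some x y h) + Point.some x y h := by
    rw [show (3 : ℕ) = 2 + 1 from rfl, succ_nsmul, two_nsmul]
  by_cases hab' : a' = b'
  · -- two-torsion
    have hy0 : y = 0 := by rw [hyv, hab']; simp
    have hP2 : (Point.some x y h : GA A) + Point.some x y h = 0 :=
      Point.add_self_of_Y_eq (by rw [EA_negY, hy0]; simp)
    refine ⟨x, y, h, ?_, ?_, ?_⟩
    · rw [h3, hP2, zero_add]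
    · rw [hxv, hAQ, ← hab']
      field_simp
      ring
    · rw [hy0, ← hab']; ring
  · have hd : a' - b' ≠ 0 := sub_ne_zero.2 hab'
    have hy0 : y ≠ 0 := by
      rw [hyv]
      exact div_ne_zero (mul_ne_zero (mul_ne_zero (by norm_num) hn) hd) (pow_ne_zero _ hcQ)
    set n : ℚ := a' ^ 2 - a' * b' + b' ^ 2 with hnn
    obtain ⟨h2, hP2⟩ := double h hy0 (6 * n / (c' * (a' - b')))
      (12 * n * (a' ^ 2 + a' * b' + b' ^ 2) / (c' ^ 2 * (a' - b') ^ 2))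
      (-(36 * n * ((a' - b') ^ 4 + 6 * n * (a' * b'))) / (c' ^ 3 * (a' - b') ^ 3))
      (by rw [hxv, hyv]; field_simp; ring)
      (by rw [hxv]; field_simp; rw [hnn]; ring)
      (by rw [hxv, hyv]; field_simp; rw [hnn]; ring)
    have hxne : (12 * n * (a' ^ 2 + a' * b' + b' ^ 2) / (c' ^ 2 * (a' - b') ^ 2)) ≠ x := by
      rw [hxv]
      intro e
      rw [div_eq_div_iff (mul_ne_zero (pow_ne_zero _ hcQ) (pow_ne_zero _ hd))
        (pow_ne_zero _ hcQ)] at e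
      have : 36 * n * (a' * b') * c' ^ 2 = 0 := by linear_combination e
      have h0 : 36 * n * (a' * b') * c' ^ 2 ≠ 0 :=
        mul_ne_zero (mul_ne_zero (mul_ne_zero (by norm_num) hn) (mul_ne_zero haQ hbQ))
          (pow_ne_zero _ hcQ)
      exact h0 this
    obtain ⟨h3', hP3⟩ := Triple.chord h2 h hxne
      (-(2 * ((a' - b') ^ 4 + 3 * (a' * b') * n)) / (c' * (a' - b') * (a' * b')))
      _ _ (by rw [hxv, hyv]; field_simp; ring) rfl rfl
    refine ⟨_, _, h3', ?_, ?_, ?_⟩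
    · rw [h3, hP2, hP3]
    · rw [hxv, hAQ]
      field_simp
      rw [hnn]
      ring
    · rw [hxv, hAQ]
      field_simp
      rw [hnn]
      ring

end Pool.Agent.CubeRank


end

section

/-!
# Growth of the coordinates under tripling (M3b)
(MP_8e0b0b_nt; mathematics: helper84; formalisation: helper65)
-/

set_option autoImplicit false

namespace Pool.Agent.CubeRank

/-- the greatest common divisor of the tripling polynomials divides 9 -/
theorem dvd_nine {a b g : ℤ} (hab : IsCoprime a b) (h1 : g ∣ TX a b) (h2 : g ∣ TY a b) :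
    g ∣ 9 := by
  have e1 : 9 * a ^ 15 = 9 * (a ^ 6 + 2 * a ^ 3 * b ^ 3) * TX a b -
      (8 * a ^ 6 + 7 * a ^ 3 * b ^ 3 - 2 * b ^ 6) * (TX a b + TY a b) := by
    unfold TX TY; ring
  have e2 : 9 * b ^ 15 = 9 * (b ^ 6 + 2 * a ^ 3 * b ^ 3) * TY a b -
      (8 * b ^ 6 + 7 * a ^ 3 * b ^ 3 - 2 * a ^ 6) * (TX a b + TY a b) := by
    unfold TX TY; ring
  have d1 : g ∣ 9 * a ^ 15 := by
    rw [e1]
    exact dvd_sub (Dvd.dvd.mul_left h1 _) (Dvd.dvd.mul_left (dvd_add h1 h2) _)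
  have d2 : g ∣ 9 * b ^ 15 := by
    rw [e2]
    exact dvd_sub (Dvd.dvd.mul_left h2 _) (Dvd.dvd.mul_left (dvd_add h1 h2) _)
  obtain ⟨u, v, huv⟩ : IsCoprime (a ^ 15) (b ^ 15) := hab.pow
  have e3 : (9 : ℤ) = u * (9 * a ^ 15) + v * (9 * b ^ 15) := by
    linear_combination (-9 : ℤ) * huv
  rw [e3]
  exact dvd_add (Dvd.dvd.mul_left d1 _) (Dvd.dvd.mul_left d2 _)

/-- (M3b) growth of the coordinates under tripling -/
theorem growth (h : TripleStmt) : GrowthStmt := by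
  intro A hA hcube P a b c a' b' c' hP hP3
  obtain ⟨x, y, hns, h3, hx, hy⟩ := h A hA hcube P a b c hP
  obtain ⟨hc0', hcop', heq', x', y', hns', h3', hx', hy'⟩ := hP3
  obtain ⟨-, hcop, -, -⟩ := hP
  have hxy : x' = x ∧ y' = y := by
    rw [h3] at h3'
    injection h3' with e1 e2
    exact ⟨e1.symm, e2.symm⟩
  obtain ⟨rfl, rfl⟩ := hxy
  have hAq : (A : ℚ) ≠ 0 := by exact_mod_cast hA
  have hs' : a' + b' ≠ 0 := by
    intro h0
    have h1 : a' ^ 3 + b' ^ 3 = 0 := by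
      have : a' ^ 3 + b' ^ 3 = (a' + b') * (a' ^ 2 - a' * b' + b' ^ 2) := by ring
      rw [this, h0, zero_mul]
    rw [h1] at heq'
    exact (mul_ne_zero hA (pow_ne_zero 3 hc0')) heq'.symm
  have k1 : TX a b * b' = TY a b * a' := by
    have : (36 * (A : ℚ)) * (2 * (TX a b * b' - TY a b * a')) = 0 := by
      linear_combination ((a' : ℚ) + b') * (-hy) + ((TX a b : ℚ) + TY a b) * hy'
    have h2 : (2 : ℚ) * (TX a b * b' - TY a b * a') = 0 :=
      (mul_eq_zero.1 this).resolve_left (mul_ne_zero (by norm_num) hAq)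
    have h3 : (TX a b : ℚ) * b' = TY a b * a' := by linarith
    exact_mod_cast h3
  have k2 : TZ a b c * (a' + b') = c' * (TX a b + TY a b) := by
    have : (12 * (A : ℚ)) * (TZ a b c * (a' + b') - c' * (TX a b + TY a b)) = 0 := by
      linear_combination ((a' : ℚ) + b') * (-hx) + ((TX a b : ℚ) + TY a b) * hx'
    have h2 := (mul_eq_zero.1 this).resolve_left (mul_ne_zero (by norm_num) hAq)
    have h3 : (TZ a b c : ℚ) * (a' + b') = c' * (TX a b + TY a b) := by linarith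
    exact_mod_cast h3
  obtain ⟨u, v, huv⟩ := hcop'
  set g : ℤ := u * TX a b + v * TY a b with hg
  have g1 : TX a b = g * a' := by
    rw [hg]
    linear_combination (-TX a b) * huv + v * k1
  have g2 : TY a b = g * b' := by
    rw [hg]
    linear_combination (-TY a b) * huv - u * k1
  have g3 : TZ a b c = g * c' := by
    have : (TZ a b c - g * c') * (a' + b') = 0 := by
      rw [g1, g2] at k2
      linear_combination k2
    have := (mul_eq_zero.1 this).resolve_right hs'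
    linarith
  have g9 : g ∣ 9 := dvd_nine hcop ⟨a', g1⟩ ⟨b', g2⟩
  have hg9 : |g| ≤ 9 := by
    have := Int.le_of_dvd (by norm_num) ((abs_dvd g 9).2 g9)
    exact this
  have hq : 0 ≤ a ^ 6 + a ^ 3 * b ^ 3 + b ^ 6 := by
    nlinarith [sq_nonneg (a ^ 3 + b ^ 3), sq_nonneg (a ^ 3), sq_nonneg (b ^ 3)]
  have hTZ : |TZ a b c| = 3 * (|a * b * c| * (a ^ 6 + a ^ 3 * b ^ 3 + b ^ 6)) := by
    have : TZ a b c = 3 * ((a * b * c) * (a ^ 6 + a ^ 3 * b ^ 3 + b ^ 6)) := by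
      unfold TZ; ring
    rw [this, abs_mul, abs_mul, abs_of_nonneg hq]
    norm_num
  have h9 : |TZ a b c| ≤ 9 * |c'| := by
    rw [g3, abs_mul]
    exact mul_le_mul_of_nonneg_right hg9 (abs_nonneg _)
  linarith

end Pool.Agent.CubeRank


end

section

/-!
# Every point has a class (module KAPEX, by helper56)
-/

set_option autoImplicit false

namespace Pool.Agent.CubeRank

open Pool.Agent.Lib_helper18 Pool.Agent.Lib_helper18.Eis Pool.Agent.Lib_helper84.Cub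

theorem AA_ne_zero {m : ℕ} {p e : Fin m → ℕ} (h : Hyp p e) : AA p e ≠ 0 := by
  refine Finset.prod_ne_zero_iff.mpr fun i _ => pow_ne_zero _ ?_
  exact_mod_cast (h.hp i).ne_zero

theorem Hyp.mod3 {m : ℕ} {p e : Fin m → ℕ} (h : Hyp p e) (i : Fin m) : p i % 3 = 2 := by
  have := h.h9 i; omega

theorem Hyp.dvd_AA {m : ℕ} {p e : Fin m → ℕ} (h : Hyp p e) (i : Fin m) : (p i : ℤ) ∣ AA p e := by
  have h1 : (p i : ℤ) ^ e i ∣ AA p e := Finset.dvd_prod_of_mem _ (Finset.mem_univ i)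
  refine (dvd_pow_self _ ?_).trans h1
  have := h.he i; omega

/-- a product of primes with exponents at most 2 is cube free -/
theorem cubeFree_AA {m : ℕ} {p e : Fin m → ℕ} (h : Hyp p e) : CubeFree (AA p e) := by
  intro q hq hdvd
  have hqA : q ∣ AA p e := (dvd_pow_self q (by norm_num)).trans hdvd
  obtain ⟨i, -, hi⟩ := (Prime.dvd_finsetProd_iff hq _).mp hqA
  have hi' : q ∣ (p i : ℤ) := hq.dvd_of_dvd_pow hi
  have hass : Associated q (p i : ℤ) :=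
    (Prime.dvd_prime_iff_associated hq (Nat.prime_iff_prime_int.mp (h.hp i))).mp hi'
  have hdvd' : (p i : ℤ) ^ 3 ∣ AA p e := (hass.pow_pow (n := 3)).symm.dvd.trans hdvd
  have hsplit : AA p e = (p i : ℤ) ^ e i * ∏ j ∈ Finset.univ.erase i, (p j : ℤ) ^ e j :=
    (Finset.mul_prod_erase _ _ (Finset.mem_univ i)).symm
  rw [hsplit] at hdvd'
  have hcop : IsCoprime ((p i : ℤ) ^ 3) (∏ j ∈ Finset.univ.erase i, (p j : ℤ) ^ e j) := by
    refine IsCoprime.prod_right fun j hj => ?_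
    refine IsCoprime.pow ?_
    rw [Nat.isCoprime_iff_coprime, Nat.coprime_primes (h.hp i) (h.hp j)]
    intro hpp
    exact (Finset.ne_of_mem_erase hj) (h.inj hpp).symm
  have h3 : (p i : ℤ) ^ 3 ∣ (p i : ℤ) ^ e i := hcop.dvd_of_dvd_mul_right hdvd'
  have h4 : (p i) ^ 3 ∣ (p i) ^ e i := by exact_mod_cast h3
  have h5 := (Nat.pow_dvd_pow_iff_le_right (h.hp i).one_lt).mp h4
  have := h.he i
  omega

theorem kapEx (h1 : BasicsStmt) (h2 : LiftStmt) : KapExStmt := by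
  intro m p e hm h P
  by_cases hP : P = 0
  · exact ⟨0, Or.inl ⟨hP, 0, fun _ => rfl⟩⟩
  obtain ⟨a, b, c, hcrd⟩ := (h1 (AA p e) (AA_ne_zero h)).1 (cubeFree_AA h) P hP
  obtain ⟨al, de, s, t1, t2, hcop, hs, ht1, ht2, hprod, heq⟩ :=
    h2 m p e hm h a b c hcrd.1 hcrd.2.1 hcrd.2.2.1
  have key : ∀ i, ∃ v : ZMod 3, ¬ (p i : Eis) ∣ ((al : Eis) + de * w) ∧
      sym (p i : Eis) ((al : Eis) + de * w) = v * sym (p i : Eis) w := by
    intro i
    have hm3 := h.mod3 i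
    have hPi := prime_inert (h.hp i) hm3
    have hn3 := n3 (h.hp i) hm3
    have hpz : Prime (p i : ℤ) := Nat.prime_iff_prime_int.mp (h.hp i)
    have hnd : ¬ (p i : Eis) ∣ ((al : Eis) + de * w) := by
      rw [natCast_dvd_iff]
      simp only [add_re, intCast_re, mul_re, w_re, intCast_im, w_im, add_im, mul_im]
      rintro ⟨ha, hb⟩
      have ha' : (p i : ℤ) ∣ al := by simpa using ha
      have hb' : (p i : ℤ) ∣ de := by simpa using hb
      exact hpz.not_isUnit (hcop.isUnit_of_dvd' ha' hb')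
    have hdv : (p i : ℤ) ∣ al * de * (al - de) := by
      rw [hprod]; exact (h.dvd_AA i).mul_right _
    have hw := not_dvd_w hPi
    have castdvd : ∀ n : ℤ, (p i : ℤ) ∣ n → (p i : Eis) ∣ (n : Eis) := by
      intro n hn
      have : ((p i : ℤ) : Eis) ∣ (n : Eis) := intCast_dvd_intCast.mpr hn
      simpa using this
    have castnd : ∀ n : ℤ, ¬ (p i : ℤ) ∣ n → ¬ (p i : Eis) ∣ (n : Eis) := by
      intro n hn h'
      have : ((p i : ℤ) : Eis) ∣ (n : Eis) := by simpa using h'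
      exact hn (intCast_dvd_intCast.mp this)
    by_cases hde : (p i : ℤ) ∣ de
    · -- `γ ≡ al`
      have hal : ¬ (p i : ℤ) ∣ al := fun h' => hpz.not_isUnit (hcop.isUnit_of_dvd' h' hde)
      refine ⟨0, hnd, ?_⟩
      have hc : (p i : Eis) ∣ ((al : Eis) + de * w) - (al : Eis) := by
        have : ((al : Eis) + de * w) - (al : Eis) = de * w := by ring
        rw [this]; exact (castdvd de hde).mul_right _
      rw [sym_congr hc, sym_int (h.hp i) hm3 hal, zero_mul]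
    by_cases hal : (p i : ℤ) ∣ al
    · refine ⟨1, hnd, ?_⟩
      have hc : (p i : Eis) ∣ ((al : Eis) + de * w) - (de : Eis) * w := by
        have : ((al : Eis) + de * w) - (de : Eis) * w = al := by ring
        rw [this]; exact castdvd al hal
      rw [sym_congr hc, sym_mul hPi hn3 (castnd de hde) hw, sym_int (h.hp i) hm3 hde, zero_add,
        one_mul]
    · have hsub : (p i : ℤ) ∣ al - de := by
        rcases hpz.dvd_or_dvd hdv with h' | h'
        · rcases hpz.dvd_or_dvd h' with h'' | h''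
          · exact absurd h'' hal
          · exact absurd h'' hde
        · exact h'
      refine ⟨2, hnd, ?_⟩
      have hc : (p i : Eis) ∣ ((al : Eis) + de * w) - ((-al : ℤ) : Eis) * w ^ 2 := by
        have : ((al : Eis) + de * w) - ((-al : ℤ) : Eis) * w ^ 2 = -((al - de : ℤ) : Eis) * w := by
          rw [w_sq]; push_cast; ring
        rw [this]; exact ((dvd_neg.mpr (castdvd _ hsub))).mul_right _
      have hal' : ¬ (p i : ℤ) ∣ -al := by rwa [dvd_neg]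
      have hw2 : ¬ (p i : Eis) ∣ w ^ 2 := fun h' => hw (hPi.dvd_of_dvd_pow h')
      rw [sym_congr hc, sym_mul hPi hn3 (castnd _ hal') hw2, sym_int (h.hp i) hm3 hal', zero_add,
        sym_pow hPi hn3 hw]
      push_cast; ring
  choose v hv using key
  exact ⟨v, Or.inr ⟨a, b, c, (al : Eis) + de * w, t1, t2, hcrd, ht1, ht2, heq, hv⟩⟩

end Pool.Agent.CubeRank


end
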