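import Mathlib
import Pool.Agent.PTDM.C07

/-! Parts: CubeRank.Basics, CubeRank.Gen -/

section

/-!
# CubeRank, module M1: coordinates of the points
-/

set_option autoImplicit false

namespace Pool.Agent.CubeRank

/-- primitive multiple of a solution -/
lemma bas_prim {A : ℤ} (hA0 : A ≠ 0) (hcf : CubeFree A) :
    ∀ (n : ℕ) (x y z : ℤ), z.natAbs = n → z ≠ 0 → x ^ 3 + y ^ 3 = A * z ^ 3 →
      ∃ a b c k : ℤ, c ≠ 0 ∧ IsCoprime a b ∧ a ^ 3 + b ^ 3 = A * c ^ 3 ∧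
        x = k * a ∧ y = k * b ∧ z = k * c := by
  intro n
  induction n using Nat.strong_induction_on with
  | _ n ih =>
  intro x y z hzn hz0 hxyz
  by_cases hco : IsCoprime x y
  · exact ⟨x, y, z, 1, hz0, hco, hxyz, by ring, by ring, by ring⟩
  · have hx0y0 : ¬ (x = 0 ∧ y = 0) := by
      rintro ⟨rfl, rfl⟩
      have : A * z ^ 3 = 0 := by rw [← hxyz]; ring
      rcases mul_eq_zero.mp this with h | h
      · exact hA0 h
      · exact hz0 (pow_eq_zero_iff (by norm_num) |>.mp h)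
    have : ∃ r : ℤ, Prime r ∧ r ∣ x ∧ r ∣ y := by
      by_contra hcon
      push Not at hcon
      exact hco (isCoprime_of_prime_dvd hx0y0 (fun q hq hqx => hcon q hq hqx))
    obtain ⟨r, hr, ⟨x', hx'⟩, ⟨y', hy'⟩⟩ := this
    have hr3 : r ^ 3 ∣ A * z ^ 3 := ⟨x' ^ 3 + y' ^ 3, by rw [← hxyz, hx', hy']; ring⟩
    have hrz : r ∣ z := by
      by_contra hrz
      exact hcf r hr (hr.pow_dvd_of_dvd_mul_right 3 (fun h => hrz (hr.dvd_of_dvd_pow h)) hr3)
    obtain ⟨z', hz'⟩ := hrz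
    have hz'0 : z' ≠ 0 := by rintro rfl; simp at hz'; exact hz0 hz'
    have hlt : z'.natAbs < n := by
      rw [← hzn, hz', Int.natAbs_mul]
      have h1 : 1 < r.natAbs := by
        have := hr.not_isUnit
        rw [Int.isUnit_iff_natAbs_eq] at this
        have h2 : r.natAbs ≠ 0 := Int.natAbs_ne_zero.mpr hr.ne_zero
        omega
      have h2 : 0 < z'.natAbs := Int.natAbs_pos.mpr hz'0
      nlinarith
    have heq : x' ^ 3 + y' ^ 3 = A * z' ^ 3 := by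
      have hr30 : r ^ 3 ≠ 0 := pow_ne_zero _ hr.ne_zero
      apply mul_left_cancel₀ hr30
      rw [hx', hy', hz'] at hxyz
      linear_combination hxyz
    obtain ⟨a, b, c, k, hc, hab, he, h1, h2, h3⟩ := ih _ hlt x' y' z' rfl hz'0 heq
    exact ⟨a, b, c, r * k, hc, hab, he, by rw [hx', h1]; ring, by rw [hy', h2]; ring,
      by rw [hz', h3]; ring⟩

lemma bas_eqn {A : ℤ} {x y : ℚ} (h : (EA A).toAffine.Nonsingular x y) :
    y ^ 2 = x ^ 3 - 432 * (A : ℚ) ^ 2 := by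
  have h1 := ((EA A).toAffine.equation_iff x y).1 h.1
  simp only [EA] at h1
  linear_combination h1

lemma bas_nonsing {A : ℤ} {x y : ℚ} (hx : x ≠ 0) (h : y ^ 2 = x ^ 3 - 432 * (A : ℚ) ^ 2) :
    (EA A).toAffine.Nonsingular x y := by
  rw [WeierstrassCurve.Affine.nonsingular_iff]
  refine ⟨?_, Or.inl ?_⟩
  · rw [WeierstrassCurve.Affine.equation_iff]
    simp only [EA]
    linear_combination h
  · simp only [EA]
    intro h2
    have : x ^ 2 = 0 := by linear_combination -h2 / 3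
    exact hx (pow_eq_zero_iff (two_ne_zero) |>.1 this)

lemma bas_add_ne {A a b c : ℤ} (hA : A ≠ 0) (hc : c ≠ 0) (h : a ^ 3 + b ^ 3 = A * c ^ 3) :
    ((a : ℚ) + b) ≠ 0 := by
  intro h0
  have h1 : a + b = 0 := by exact_mod_cast h0
  have h2 : A * c ^ 3 = 0 := by
    rw [← h]
    have : b = -a := by omega
    rw [this]; ring
  exact (mul_ne_zero hA (pow_ne_zero 3 hc)) h2

theorem basics : BasicsStmt := by
  intro A hA
  have hAq : (A : ℚ) ≠ 0 := by exact_mod_cast hA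
  refine ⟨?_, ?_, ?_, ?_, ?_⟩
  · intro hcf P hP
    cases P with
    | zero => exact absurd rfl hP
    | some x y h =>
      have he := bas_eqn h
      have hx : x ≠ 0 := by
        rintro rfl
        have h1 : y ^ 2 + 432 * (A : ℚ) ^ 2 = 0 := by rw [he]; ring
        have h2 : 0 < (A : ℚ) ^ 2 := by positivity
        nlinarith [sq_nonneg y]
      set X : ℚ := (36 * A + y) / (6 * x) with hX
      set Y : ℚ := (36 * A - y) / (6 * x) with hY
      have hXY : X ^ 3 + Y ^ 3 = A := by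
        rw [hX, hY]
        field_simp
        linear_combination (216 * (A : ℚ)) * he
      have hs : X + Y = 12 * A / x := by rw [hX, hY]; field_simp; ring
      have hdf : X - Y = y / (3 * x) := by rw [hX, hY]; field_simp; ring
      have hXd : (X.den : ℚ) ≠ 0 := by exact_mod_cast X.den_ne_zero
      have hYd : (Y.den : ℚ) ≠ 0 := by exact_mod_cast Y.den_ne_zero
      have hXn : (X.num : ℚ) = X * X.den := (Rat.mul_den_eq_num X).symm
      have hYn : (Y.num : ℚ) = Y * Y.den := (Rat.mul_den_eq_num Y).symm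
      have hz : (X.den : ℤ) * Y.den ≠ 0 := by
        exact_mod_cast mul_ne_zero X.den_ne_zero Y.den_ne_zero
      have hxyz : (X.num * Y.den) ^ 3 + (Y.num * X.den) ^ 3 = A * ((X.den : ℤ) * Y.den) ^ 3 := by
        have : ((X.num : ℚ) * Y.den) ^ 3 + ((Y.num : ℚ) * X.den) ^ 3 =
            A * ((X.den : ℚ) * Y.den) ^ 3 := by
          rw [hXn, hYn, ← hXY]; ring
        exact_mod_cast this
      obtain ⟨a, b, c, k, hc, hab, hE, h1, h2, h3⟩ := bas_prim hA hcf _ _ _ _ rfl hz hxyz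
      have hk : (k : ℚ) ≠ 0 := by
        rintro h0
        have : k = 0 := by exact_mod_cast h0
        rw [this, zero_mul] at h3
        exact hz h3
      have hcq : (c : ℚ) ≠ 0 := by exact_mod_cast hc
      have h1' : X * ((X.den : ℚ) * Y.den) = k * a := by
        have : ((X.num : ℚ) * Y.den) = k * a := by exact_mod_cast h1
        rw [← this, hXn]; ring
      have h2' : Y * ((X.den : ℚ) * Y.den) = k * b := by
        have : ((Y.num : ℚ) * X.den) = k * b := by exact_mod_cast h2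
        rw [← this, hYn]; ring
      have h3' : ((X.den : ℚ) * Y.den) = k * c := by exact_mod_cast h3
      have ha : X * c = a := by
        apply mul_left_cancel₀ hk
        rw [← h1', h3']; ring
      have hb : Y * c = b := by
        apply mul_left_cancel₀ hk
        rw [← h2', h3']; ring
      refine ⟨a, b, c, hc, hab, hE, x, y, h, rfl, ?_, ?_⟩
      · have : (a : ℚ) + b = 12 * A / x * c := by rw [← hs, ← ha, ← hb]; ring
        rw [this]; field_simp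
      · have e1 : (a : ℚ) + b = 12 * A / x * c := by rw [← hs, ← ha, ← hb]; ring
        have e2 : (a : ℚ) - b = y / (3 * x) * c := by rw [← hdf, ← ha, ← hb]; ring
        rw [e1, e2]; field_simp; ring
  · intro a b c hc hab hE
    have hne := bas_add_ne hA hc hE
    have hcq : (c : ℚ) ≠ 0 := by exact_mod_cast hc
    have hEq : (a : ℚ) ^ 3 + (b : ℚ) ^ 3 = A * (c : ℚ) ^ 3 := by exact_mod_cast hE
    have hx : (12 * A * c / ((a : ℚ) + b)) ≠ 0 := by
      refine div_ne_zero ?_ hne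
      exact mul_ne_zero (mul_ne_zero (by norm_num) hAq) hcq
    refine ⟨.some (12 * A * c / ((a : ℚ) + b)) (36 * A * (a - b) / ((a : ℚ) + b))
      (bas_nonsing hx ?_), hc, hab, hE, _, _, _, rfl, ?_, ?_⟩
    · field_simp
      linear_combination (1728 : ℚ) * hEq
    · field_simp
    · field_simp
  · rintro P Q a b c ⟨hc, hab, hE, x, y, h, rfl, h1, h2⟩ ⟨_, _, _, x', y', h', rfl, h1', h2'⟩
    have hne := bas_add_ne hA hc hE
    have ex : x = x' := mul_right_cancel₀ hne (h1.trans h1'.symm)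
    have ey : y = y' := mul_right_cancel₀ hne (h2.trans h2'.symm)
    subst ex
    subst ey
    rfl
  · rintro P a b c a' b' c' ⟨hc, hab, hE, x, y, h, rfl, h1, h2⟩
      ⟨hc', hab', hE', x', y', h', he, h1', h2'⟩
    rw [WeierstrassCurve.Affine.Point.some.injEq] at he
    obtain ⟨rfl, rfl⟩ := he
    have hcq : (c : ℚ) ≠ 0 := by exact_mod_cast hc
    have hcq' : (c' : ℚ) ≠ 0 := by exact_mod_cast hc'
    have hx : x ≠ 0 := by
      rintro rfl
      rw [zero_mul] at h1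
      exact (mul_ne_zero (mul_ne_zero (by norm_num) hAq) hcq) h1.symm
    -- `x (a+b) c' = x (a'+b') c`
    have e1 : ((a : ℚ) + b) * c' = (a' + b') * c := by
      apply mul_left_cancel₀ hx
      linear_combination c' * h1 - c * h1'
    have e2 : ((a : ℚ) - b) * c' = (a' - b') * c := by
      have h36 : (36 : ℚ) * A ≠ 0 := mul_ne_zero (by norm_num) hAq
      apply mul_left_cancel₀ h36
      linear_combination -c' * h2 + c * h2' + y * e1
    have f1 : (a : ℚ) * c' = a' * c := by linear_combination (e1 + e2) / 2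
    have f2 : (b : ℚ) * c' = b' * c := by linear_combination (e1 - e2) / 2
    have g1 : a * c' = a' * c := by exact_mod_cast f1
    have g2 : b * c' = b' * c := by exact_mod_cast f2
    obtain ⟨u, v, huv⟩ := hab
    obtain ⟨u', v', huv'⟩ := hab'
    have d1 : c ∣ c' := ⟨u * a' + v * b', by linear_combination (-c') * huv + u * g1 + v * g2⟩
    have d2 : c' ∣ c := ⟨u' * a + v' * b, by linear_combination (-c) * huv' - u' * g1 - v' * g2⟩
    rcases Int.natAbs_eq_natAbs_iff.1 (Int.natAbs_eq_of_dvd_dvd d1 d2) with h3 | h3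
    · left
      refine ⟨?_, ?_, h3.symm⟩
      · rw [h3] at g1
        exact (mul_right_cancel₀ hc' g1).symm
      · rw [h3] at g2
        exact (mul_right_cancel₀ hc' g2).symm
    · right
      refine ⟨?_, ?_, by rw [h3]; ring⟩
      · rw [h3] at g1
        have : (a + a') * c' = 0 := by linear_combination g1
        rcases mul_eq_zero.1 this with h4 | h4
        · omega
        · exact absurd h4 hc'
      · rw [h3] at g2
        have : (b + b') * c' = 0 := by linear_combination g2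
        rcases mul_eq_zero.1 this with h4 | h4
        · omega
        · exact absurd h4 hc'
  · rintro P a b c ⟨hc, hab, hE, x, y, h, rfl, h1, h2⟩
    refine ⟨⟨hc, hab.symm, by linear_combination hE, ?_⟩,
      ⟨neg_ne_zero.2 hc, hab.neg_left.neg_right, by linear_combination -hE, x, y, h, rfl, ?_, ?_⟩⟩
    · refine ⟨x, (EA A).toAffine.negY x y, (WeierstrassCurve.Affine.nonsingular_neg ..).mpr h,
        WeierstrassCurve.Affine.Point.neg_some h, ?_, ?_⟩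
      · linear_combination h1
      · simp only [WeierstrassCurve.Affine.negY, EA]
        linear_combination -h2
    · push_cast
      linear_combination -h1
    · push_cast
      linear_combination -h2

end Pool.Agent.CubeRank


end

section

/-!
# Module GEN: finite generation by descent, and the number of generators
-/

set_option autoImplicit false

namespace Pool.Agent.CubeRank

namespace GenPf

/-! ### Elementary inequalities -/

/-- the height of a triple -/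
def mx (a b c : ℤ) : ℤ := max (max |a| |b|) |c|

lemma le_mx1 (a b c : ℤ) : |a| ≤ mx a b c := (le_max_left _ _).trans (le_max_left _ _)

lemma le_mx2 (a b c : ℤ) : |b| ≤ mx a b c := (le_max_right _ _).trans (le_max_left _ _)

lemma le_mx3 (a b c : ℤ) : |c| ≤ mx a b c := le_max_right _ _

lemma mx_neg (a b c : ℤ) : mx (-a) (-b) (-c) = mx a b c := by simp [mx]

lemma mx_swap (a b c : ℤ) : mx b a c = mx a b c := by simp [mx, max_comm]

lemma abs_le_abs_mul {g x : ℤ} (hg : g ≠ 0) : |x| ≤ |g * x| := by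
  rw [abs_mul]
  have h1 : 1 ≤ |g| := Int.one_le_abs hg
  nlinarith [abs_nonneg x]

section num

variable {A a b c : ℤ}

lemma low (hA : 3 ≤ |A|) (hc : c ≠ 0) (h : a ^ 3 + b ^ 3 = A * c ^ 3) :
    3 * |c| ^ 3 ≤ |a| ^ 3 + |b| ^ 3 := by
  have h1 : |A| * |c| ^ 3 = |a ^ 3 + b ^ 3| := by rw [h, abs_mul, abs_pow]
  have h2 : |a ^ 3 + b ^ 3| ≤ |a| ^ 3 + |b| ^ 3 := by
    rw [← abs_pow a 3, ← abs_pow b 3]
    exact abs_add_le _ _
  have h3 : 0 ≤ |c| ^ 3 := by positivity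
  nlinarith

lemma a_ne (hA : 3 ≤ |A|) (hc : c ≠ 0) (hab : IsCoprime a b) (h : a ^ 3 + b ^ 3 = A * c ^ 3) :
    a ≠ 0 := by
  rintro rfl
  have h1 : IsUnit b := isCoprime_zero_left.1 hab
  have h2 : |b| = 1 := Int.isUnit_iff_abs_eq.1 h1
  have h3 := low hA hc h
  have h4 : 1 ≤ |c| := Int.one_le_abs hc
  have h5 : 1 ≤ |c| ^ 3 := one_le_pow₀ h4
  rw [h2] at h3
  simp at h3
  omega

lemma b_ne (hA : 3 ≤ |A|) (hc : c ≠ 0) (hab : IsCoprime a b) (h : a ^ 3 + b ^ 3 = A * c ^ 3) :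
    b ≠ 0 := a_ne hA hc hab.symm (by rw [add_comm]; exact h)

lemma two_le_max (hA : 3 ≤ |A|) (hc : c ≠ 0) (h : a ^ 3 + b ^ 3 = A * c ^ 3) :
    2 ≤ max |a| |b| := by
  by_contra h1
  push Not at h1
  have ha : |a| ≤ 1 := by have := le_max_left |a| |b|; omega
  have hb : |b| ≤ 1 := by have := le_max_right |a| |b|; omega
  have h3 := low hA hc h
  have h4 : 1 ≤ |c| := Int.one_le_abs hc
  have h5 : 1 ≤ |c| ^ 3 := one_le_pow₀ h4
  have h6 : |a| ^ 3 ≤ 1 := pow_le_one₀ (abs_nonneg a) ha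
  have h7 : |b| ^ 3 ≤ 1 := pow_le_one₀ (abs_nonneg b) hb
  omega

lemma c_le_max (hA : 3 ≤ |A|) (hc : c ≠ 0) (h : a ^ 3 + b ^ 3 = A * c ^ 3) :
    |c| ≤ max |a| |b| := by
  have h3 := low hA hc h
  have h1 : |a| ^ 3 ≤ (max |a| |b|) ^ 3 := pow_le_pow_left₀ (abs_nonneg _) (le_max_left _ _) 3
  have h2 : |b| ^ 3 ≤ (max |a| |b|) ^ 3 := pow_le_pow_left₀ (abs_nonneg _) (le_max_right _ _) 3
  have h4 : 0 ≤ max |a| |b| := (abs_nonneg a).trans (le_max_left _ _)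
  have h5 : 0 ≤ (max |a| |b|) ^ 3 := by positivity
  refine le_of_pow_le_pow_left₀ (n := 3) (by norm_num) h4 ?_
  omega

lemma mx_eq (hA : 3 ≤ |A|) (hc : c ≠ 0) (h : a ^ 3 + b ^ 3 = A * c ^ 3) :
    mx a b c = max |a| |b| := max_eq_left (c_le_max hA hc h)

lemma quad (u v : ℤ) : 3 * (max |u| |v|) ^ 2 ≤ 4 * (u ^ 2 + u * v + v ^ 2) := by
  rcases max_cases |u| |v| with ⟨h, -⟩ | ⟨h, -⟩ <;> rw [h, sq_abs]
  · nlinarith [sq_nonneg (u + 2 * v)]
  · nlinarith [sq_nonneg (2 * u + v)]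

lemma cube_max (a b : ℤ) : (max |a| |b|) ^ 3 = max |a ^ 3| |b ^ 3| := by
  rw [abs_pow, abs_pow]
  rcases le_total |a| |b| with h | h
  · rw [max_eq_right h, max_eq_right (pow_le_pow_left₀ (abs_nonneg _) h 3)]
  · rw [max_eq_left h, max_eq_left (pow_le_pow_left₀ (abs_nonneg _) h 3)]

lemma growth_num (ha : a ≠ 0) (hb : b ≠ 0) (hc : c ≠ 0) {c' : ℤ}
    (h : |a * b * c| * (a ^ 6 + a ^ 3 * b ^ 3 + b ^ 6) ≤ 3 * |c'|) :
    (max |a| |b|) ^ 7 ≤ 4 * |c'| := by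
  have h1 := quad (a ^ 3) (b ^ 3)
  rw [← cube_max] at h1
  have h2 : max |a| |b| ≤ |a * b * c| := by
    have e1 : 1 ≤ |a| := Int.one_le_abs ha
    have e2 : 1 ≤ |b| := Int.one_le_abs hb
    have e3 : 1 ≤ |c| := Int.one_le_abs hc
    rw [abs_mul, abs_mul]
    have e4 : |a| ≤ |a| * |b| := le_mul_of_one_le_right (abs_nonneg _) e2
    have e5 : |b| ≤ |a| * |b| := le_mul_of_one_le_left (abs_nonneg _) e1
    have e6 : |a| * |b| ≤ |a| * |b| * |c| := le_mul_of_one_le_right (by positivity) e3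
    exact max_le (e4.trans e6) (e5.trans e6)
  have h3 : 0 ≤ max |a| |b| := (abs_nonneg a).trans (le_max_left _ _)
  set m := max |a| |b| with hm
  have h4 : 3 * m ^ 6 ≤ 4 * (a ^ 6 + a ^ 3 * b ^ 3 + b ^ 6) := by
    calc 3 * m ^ 6 = 3 * (m ^ 3) ^ 2 := by ring
      _ ≤ 4 * ((a ^ 3) ^ 2 + a ^ 3 * b ^ 3 + (b ^ 3) ^ 2) := h1
      _ = 4 * (a ^ 6 + a ^ 3 * b ^ 3 + b ^ 6) := by ring
  have h5 : 0 ≤ m ^ 6 := by positivity
  have h6 : m * (3 * m ^ 6) ≤ |a * b * c| * (4 * (a ^ 6 + a ^ 3 * b ^ 3 + b ^ 6)) :=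
    mul_le_mul h2 h4 (by positivity) (abs_nonneg _)
  have h7 : m * (3 * m ^ 6) = 3 * m ^ 7 := by ring
  have h8 : |a * b * c| * (4 * (a ^ 6 + a ^ 3 * b ^ 3 + b ^ 6)) =
    4 * (|a * b * c| * (a ^ 6 + a ^ 3 * b ^ 3 + b ^ 6)) := by ring
  omega

lemma chord_num {A a1 b1 c1 a2 b2 c2 H1 H2 : ℤ} (ha1 : |a1| ≤ H1) (hb1 : |b1| ≤ H1)
    (hc1 : |c1| ≤ H1) (ha2 : |a2| ≤ H2) (hb2 : |b2| ≤ H2) (hc2 : |c2| ≤ H2) {z1 z2 : ℤ}
    (hz1 : |z1| ≤ H1) (hz2 : |z2| ≤ H2) :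
    |(a1 * a2 ^ 2 + b1 * b2 ^ 2 - A * c1 * c2 ^ 2) * z1 -
        (a1 ^ 2 * a2 + b1 ^ 2 * b2 - A * c1 ^ 2 * c2) * z2| ≤
      2 * (2 + |A|) * (H1 ^ 2 * H2 ^ 2) := by
  have h1 : 0 ≤ H1 := (abs_nonneg _).trans ha1
  have h2 : 0 ≤ H2 := (abs_nonneg _).trans ha2
  have sq {x H : ℤ} (h : |x| ≤ H) : |x ^ 2| ≤ H ^ 2 := by
    rw [abs_pow]
    exact pow_le_pow_left₀ (abs_nonneg _) h 2
  have pr {x y X Y : ℤ} (hx : |x| ≤ X) (hy : |y| ≤ Y) : |x * y| ≤ X * Y := by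
    rw [abs_mul]
    exact mul_le_mul hx hy (abs_nonneg _) ((abs_nonneg _).trans hx)
  have e1 : |a1 * a2 ^ 2| ≤ H1 * H2 ^ 2 := pr ha1 (sq ha2)
  have e2 : |b1 * b2 ^ 2| ≤ H1 * H2 ^ 2 := pr hb1 (sq hb2)
  have e3 : |A * c1 * c2 ^ 2| ≤ |A| * H1 * H2 ^ 2 := pr (pr le_rfl hc1) (sq hc2)
  have e4 : |a1 ^ 2 * a2| ≤ H1 ^ 2 * H2 := pr (sq ha1) ha2
  have e5 : |b1 ^ 2 * b2| ≤ H1 ^ 2 * H2 := pr (sq hb1) hb2
  have e6 : |A * c1 ^ 2 * c2| ≤ |A| * H1 ^ 2 * H2 := pr (pr le_rfl (sq hc1)) hc2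
  have f1 : |a1 * a2 ^ 2 + b1 * b2 ^ 2 - A * c1 * c2 ^ 2| ≤ (2 + |A|) * (H1 * H2 ^ 2) := by
    calc _ ≤ |a1 * a2 ^ 2 + b1 * b2 ^ 2| + |A * c1 * c2 ^ 2| := abs_sub _ _
      _ ≤ |a1 * a2 ^ 2| + |b1 * b2 ^ 2| + |A * c1 * c2 ^ 2| := by
        gcongr
        exact abs_add_le _ _
      _ ≤ H1 * H2 ^ 2 + H1 * H2 ^ 2 + |A| * H1 * H2 ^ 2 := by gcongr
      _ = (2 + |A|) * (H1 * H2 ^ 2) := by ring
  have f2 : |a1 ^ 2 * a2 + b1 ^ 2 * b2 - A * c1 ^ 2 * c2| ≤ (2 + |A|) * (H1 ^ 2 * H2) := by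
    calc _ ≤ |a1 ^ 2 * a2 + b1 ^ 2 * b2| + |A * c1 ^ 2 * c2| := abs_sub _ _
      _ ≤ |a1 ^ 2 * a2| + |b1 ^ 2 * b2| + |A * c1 ^ 2 * c2| := by
        gcongr
        exact abs_add_le _ _
      _ ≤ H1 ^ 2 * H2 + H1 ^ 2 * H2 + |A| * H1 ^ 2 * H2 := by gcongr
      _ = (2 + |A|) * (H1 ^ 2 * H2) := by ring
  calc _ ≤ |(a1 * a2 ^ 2 + b1 * b2 ^ 2 - A * c1 * c2 ^ 2) * z1| +
        |(a1 ^ 2 * a2 + b1 ^ 2 * b2 - A * c1 ^ 2 * c2) * z2| := abs_sub _ _
    _ ≤ (2 + |A|) * (H1 * H2 ^ 2) * H1 + (2 + |A|) * (H1 ^ 2 * H2) * H2 :=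
      add_le_add (pr f1 hz1) (pr f2 hz2)
    _ = 2 * (2 + |A|) * (H1 ^ 2 * H2 ^ 2) := by ring

end num

/-! ### The height -/

variable {A : ℤ}

/-- multiplicative height of a point -/
noncomputable def Ht (P : GA A) : ℤ :=
  open Classical in if h : ∃ t : ℤ × ℤ × ℤ, Crd A P t.1 t.2.1 t.2.2 then
    mx h.choose.1 h.choose.2.1 h.choose.2.2 else 1

lemma crd_ne_zero {P : GA A} {a b c : ℤ} (h : Crd A P a b c) : P ≠ 0 := by
  obtain ⟨_, _, _, x, y, hxy, rfl, _⟩ := h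
  exact WeierstrassCurve.Affine.Point.some_ne_zero hxy

lemma Ht_zero : Ht (0 : GA A) = 1 := by
  unfold Ht
  rw [dif_neg]
  rintro ⟨t, ht⟩
  exact crd_ne_zero ht rfl

lemma Ht_eq (hB : BasicsStmt) (hA : A ≠ 0) {P : GA A} {a b c : ℤ} (h : Crd A P a b c) :
    Ht P = mx a b c := by
  have h1 : ∃ t : ℤ × ℤ × ℤ, Crd A P t.1 t.2.1 t.2.2 := ⟨(a, b, c), h⟩
  unfold Ht
  rw [dif_pos h1]
  obtain ⟨-, -, -, h4, -⟩ := hB A hA
  rcases h4 P _ _ _ _ _ _ h h1.choose_spec with ⟨e1, e2, e3⟩ | ⟨e1, e2, e3⟩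
  · rw [e1, e2, e3]
  · rw [e1, e2, e3, mx_neg]

lemma Ht_neg (hB : BasicsStmt) (hA : A ≠ 0) (hf : CubeFree A) (P : GA A) : Ht (-P) = Ht P := by
  by_cases hP : P = 0
  · rw [hP, neg_zero]
  · obtain ⟨a, b, c, h⟩ := (hB A hA).1 hf P hP
    rw [Ht_eq hB hA h, Ht_eq hB hA ((hB A hA).2.2.2.2 P a b c h).1, mx_swap]

lemma Ht_ge_two (hB : BasicsStmt) (hf : CubeFree A) (hA : 3 ≤ |A|) {P : GA A} (hP : P ≠ 0) :
    2 ≤ Ht P := by
  have hA0 : A ≠ 0 := by rintro rfl; simp at hA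
  obtain ⟨a, b, c, h⟩ := (hB A hA0).1 hf P hP
  obtain ⟨h1, h2, h3, -⟩ := id h
  rw [Ht_eq hB hA0 h, mx_eq hA h1 h3]
  exact two_le_max hA h1 h3

lemma Ht_pos (hB : BasicsStmt) (hf : CubeFree A) (hA : 3 ≤ |A|) (P : GA A) : 1 ≤ Ht P := by
  by_cases hP : P = 0
  · rw [hP, Ht_zero]
  · have := Ht_ge_two hB hf hA hP
    omega

lemma not_cube (hf : CubeFree A) (hA : 3 ≤ |A|) : ¬ ∃ n : ℤ, n ^ 3 = A := by
  rintro ⟨n, rfl⟩
  have h1 : ¬ IsUnit n := by
    intro h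
    have h2 := Int.isUnit_iff_abs_eq.1 h
    rw [abs_pow, h2] at hA
    norm_num at hA
  have h0 : n ≠ 0 := by
    rintro rfl
    norm_num at hA
  obtain ⟨q, hq, hqn⟩ := WfDvdMonoid.exists_irreducible_factor h1 h0
  exact hf q hq.prime (pow_dvd_pow_of_dvd hqn 3)

lemma three_ne (hT : TripleStmt) (hB : BasicsStmt) (hf : CubeFree A) (hA : 3 ≤ |A|) {P : GA A}
    (hP : P ≠ 0) : (3 : ℕ) • P ≠ 0 := by
  have hA0 : A ≠ 0 := by rintro rfl; simp at hA
  obtain ⟨a, b, c, h⟩ := (hB A hA0).1 hf P hP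
  obtain ⟨x, y, hxy, e, -⟩ := hT A hA0 (not_cube hf hA) P a b c h
  rw [e]
  exact WeierstrassCurve.Affine.Point.some_ne_zero hxy

lemma Ht_three (hT : TripleStmt) (hG : GrowthStmt) (hB : BasicsStmt) (hf : CubeFree A)
    (hA : 3 ≤ |A|) (P : GA A) : Ht P ^ 7 ≤ 4 * Ht ((3 : ℕ) • P) := by
  by_cases hP : P = 0
  · rw [hP, nsmul_zero, Ht_zero]
    norm_num
  have hA0 : A ≠ 0 := by rintro rfl; simp at hA
  obtain ⟨a, b, c, h⟩ := (hB A hA0).1 hf P hP
  obtain ⟨a', b', c', h'⟩ := (hB A hA0).1 hf _ (three_ne hT hB hf hA hP)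
  have h2 := hG A hA0 (not_cube hf hA) P a b c a' b' c' h h'
  obtain ⟨h3, h4, h5, -⟩ := id h
  have h6 := growth_num (a_ne hA h3 h4 h5) (b_ne hA h3 h4 h5) h3 h2
  rw [Ht_eq hB hA0 h, Ht_eq hB hA0 h', mx_eq hA h3 h5]
  exact h6.trans (by have := le_mx3 a' b' c'; omega)

lemma Ht_chord (hC : ChordStmt) (hB : BasicsStmt) (hf : CubeFree A) (hA : 3 ≤ |A|) {P Q R : GA A}
    (h : P + Q + R = 0) (hne : P ≠ Q) (hP : P ≠ 0) (hQ : Q ≠ 0) (hR : R ≠ 0) :
    Ht R ≤ 2 * (2 + |A|) * (Ht P ^ 2 * Ht Q ^ 2) := by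
  have hA0 : A ≠ 0 := by rintro rfl; simp at hA
  obtain ⟨a1, b1, c1, h1⟩ := (hB A hA0).1 hf P hP
  obtain ⟨a2, b2, c2, h2⟩ := (hB A hA0).1 hf Q hQ
  obtain ⟨a3, b3, c3, h3⟩ := (hB A hA0).1 hf R hR
  obtain ⟨g, hg, e1, e2, e3⟩ := hC A hA0 (not_cube hf hA) P Q R _ _ _ _ _ _ _ _ _ h hne h1 h2 h3
  rw [Ht_eq hB hA0 h1, Ht_eq hB hA0 h2, Ht_eq hB hA0 h3]
  have key : ∀ {z z1 z2 : ℤ}, |z1| ≤ mx a1 b1 c1 → |z2| ≤ mx a2 b2 c2 →
      g * z = (a1 * a2 ^ 2 + b1 * b2 ^ 2 - A * c1 * c2 ^ 2) * z1 -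
        (a1 ^ 2 * a2 + b1 ^ 2 * b2 - A * c1 ^ 2 * c2) * z2 →
      |z| ≤ 2 * (2 + |A|) * (mx a1 b1 c1 ^ 2 * mx a2 b2 c2 ^ 2) := by
    intro z z1 z2 hz1 hz2 e
    refine (abs_le_abs_mul hg).trans ?_
    rw [e]
    exact chord_num (le_mx1 _ _ _) (le_mx2 _ _ _) (le_mx3 _ _ _) (le_mx1 _ _ _) (le_mx2 _ _ _)
      (le_mx3 _ _ _) hz1 hz2
  exact max_le (max_le (key (le_mx1 _ _ _) (le_mx1 _ _ _) e1) (key (le_mx2 _ _ _) (le_mx2 _ _ _) e2))
    (key (le_mx3 _ _ _) (le_mx3 _ _ _) e3)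

lemma finite_Ht (hB : BasicsStmt) (hf : CubeFree A) (hA0 : A ≠ 0) (N : ℤ) :
    {P : GA A | Ht P ≤ N}.Finite := by
  classical
  let f : ℤ × ℤ × ℤ → GA A := fun t =>
    if h : ∃ P, Crd A P t.1 t.2.1 t.2.2 then h.choose else 0
  have h1 : {P : GA A | Ht P ≤ N} ⊆
      {0} ∪ f '' (Set.Icc (-N) N ×ˢ (Set.Icc (-N) N ×ˢ Set.Icc (-N) N)) := by
    intro P hP
    by_cases h0 : P = 0
    · exact Or.inl h0
    · right
      obtain ⟨a, b, c, h⟩ := (hB A hA0).1 hf P h0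
      rw [Set.mem_ofPred_eq, Ht_eq hB hA0 h] at hP
      refine ⟨(a, b, c), ⟨abs_le.1 ((le_mx1 a b c).trans hP), abs_le.1 ((le_mx2 a b c).trans hP),
        abs_le.1 ((le_mx3 a b c).trans hP)⟩, ?_⟩
      have h2 : ∃ P, Crd A P (a, b, c).1 (a, b, c).2.1 (a, b, c).2.2 := ⟨P, h⟩
      have h3 : f (a, b, c) = h2.choose := dif_pos h2
      rw [h3]
      exact (hB A hA0).2.2.1 _ _ _ _ _ h2.choose_spec h
  refine Set.Finite.subset ((Set.finite_singleton _).union (Set.Finite.image _ ?_)) h1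
  exact (Set.finite_Icc _ _).prod ((Set.finite_Icc _ _).prod (Set.finite_Icc _ _))

/-- logarithmic height -/
noncomputable def ht (P : GA A) : ℝ := Real.log (Ht P : ℝ)

lemma northcott (hB : BasicsStmt) (hf : CubeFree A) (hA : 3 ≤ |A|) :
    Northcott (ht : GA A → ℝ) := by
  have hA0 : A ≠ 0 := by rintro rfl; simp at hA
  refine ⟨fun B => (finite_Ht hB hf hA0 ⌊Real.exp B⌋).subset fun P hP => ?_⟩
  rw [Set.mem_ofPred_eq] at hP ⊢
  have h1 : (0 : ℝ) < (Ht P : ℝ) := by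
    have := Ht_pos hB hf hA P
    exact_mod_cast (by omega : 0 < Ht P)
  rw [Int.le_floor]
  exact (Real.log_le_iff_le_exp h1).1 hP

lemma ht_nonneg (hB : BasicsStmt) (hf : CubeFree A) (hA : 3 ≤ |A|) (P : GA A) : 0 ≤ ht P := by
  apply Real.log_nonneg
  exact_mod_cast Ht_pos hB hf hA P

lemma ht_three (hT : TripleStmt) (hG : GrowthStmt) (hB : BasicsStmt) (hf : CubeFree A)
    (hA : 3 ≤ |A|) (P : GA A) : 7 * ht P - Real.log 4 ≤ ht ((3 : ℕ) • P) := by
  have h1 : (0 : ℝ) < (Ht P : ℝ) := by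
    have := Ht_pos hB hf hA P
    exact_mod_cast (by omega : 0 < Ht P)
  have h2 : (0 : ℝ) < (Ht ((3 : ℕ) • P) : ℝ) := by
    have := Ht_pos hB hf hA ((3 : ℕ) • P)
    exact_mod_cast (by omega : 0 < Ht ((3 : ℕ) • P))
  have h3 : (Ht P : ℝ) ^ 7 ≤ 4 * (Ht ((3 : ℕ) • P) : ℝ) := by
    exact_mod_cast Ht_three hT hG hB hf hA P
  have h4 := Real.log_le_log (by positivity) h3
  rw [Real.log_pow, Real.log_mul (by norm_num) h2.ne'] at h4
  unfold ht
  push_cast at h4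
  linarith

lemma ht_chord (hC : ChordStmt) (hB : BasicsStmt) (hf : CubeFree A) (hA : 3 ≤ |A|) {P Q R : GA A}
    (h : P + Q + R = 0) (hne : P ≠ Q) (hP : P ≠ 0) (hQ : Q ≠ 0) (hR : R ≠ 0) :
    ht R ≤ 2 * ht P + 2 * ht Q + Real.log (2 * (2 + |(A : ℝ)|)) := by
  have pos : ∀ S : GA A, (0 : ℝ) < (Ht S : ℝ) := by
    intro S
    have := Ht_pos hB hf hA S
    exact_mod_cast (by omega : 0 < Ht S)
  have h1 : (Ht R : ℝ) ≤ 2 * (2 + |(A : ℝ)|) * ((Ht P : ℝ) ^ 2 * (Ht Q : ℝ) ^ 2) := by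
    exact_mod_cast Ht_chord hC hB hf hA h hne hP hQ hR
  have h2 := Real.log_le_log (pos R) h1
  have pA : (0 : ℝ) < 2 * (2 + |(A : ℝ)|) := by positivity
  have pP : (0 : ℝ) < (Ht P : ℝ) ^ 2 := pow_pos (pos P) 2
  have pQ : (0 : ℝ) < (Ht Q : ℝ) ^ 2 := pow_pos (pos Q) 2
  rw [Real.log_mul pA.ne' (mul_pos pP pQ).ne', Real.log_mul pP.ne' pQ.ne', Real.log_pow,
    Real.log_pow] at h2
  unfold ht
  push_cast at h2
  linarith

lemma fg (hB : BasicsStmt) (hC : ChordStmt) (hT : TripleStmt) (hG : GrowthStmt) (hf : CubeFree A)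
    (hA : 3 ≤ |A|) (hi : (threeMul A).FiniteIndex) : AddGroup.FG (GA A) := by
  have := northcott hB hf hA
  have hlog : 0 ≤ Real.log (2 * (2 + |(A : ℝ)|)) := by
    apply Real.log_nonneg
    have := abs_nonneg (A : ℝ)
    linarith
  have hn := ht_nonneg hB hf hA
  refine AddCommGroup.fg_of_descent (G := GA A) (n := 3) (h := ht) (a := 2) (b := 7)
    (c₀ := Real.log 4)
    (c := fun g => 2 * ht g + ht (-(g + g)) + Real.log (2 * (2 + |(A : ℝ)|)))
    (by norm_num) (by norm_num) hi ?_ (ht_three hT hG hB hf hA)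
  intro g x
  have hA0 : A ≠ 0 := by rintro rfl; simp at hA
  have e : ∀ P : GA A, ht (-P) = ht P := fun P => by
    unfold ht
    rw [Ht_neg hB hA0 hf]
  by_cases hx : x = 0
  · have : ht x = 0 := by
      rw [hx]
      unfold ht
      rw [Ht_zero]
      simp
    rw [this]
    have := hn g
    have := hn (g + x)
    have := hn (-(g + g))
    positivity
  by_cases hg : g = 0
  · rw [hg, zero_add]
    have := hn (0 : GA A)
    have := hn x
    have := hn (-((0 : GA A) + 0))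
    linarith
  by_cases hgx : g + x = 0
  · have h1 : x = -g := (neg_eq_of_add_eq_zero_right hgx).symm
    have h2 : ht x = ht g := by rw [h1, e]
    rw [h2]
    have := hn g
    have := hn (g + x)
    have := hn (-(g + g))
    linarith
  by_cases hgx' : g + x = -g
  · have h1 : x = -(g + g) := by
      have : x = -g - g := eq_sub_of_add_eq' hgx'
      rw [this]
      abel
    have h2 : ht x = ht (-(g + g)) := by rw [h1]
    rw [h2]
    have := hn g
    have := hn (g + x)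
    linarith
  · have h1 := ht_chord hC hB hf hA (P := g + x) (Q := -g) (R := -x) (by abel) hgx' hgx
      (neg_ne_zero.2 hg) (neg_ne_zero.2 hx)
    rw [e, e] at h1
    have := hn (-(g + g))
    linarith

lemma torsion_free (hB : BasicsStmt) (hT : TripleStmt) (hG : GrowthStmt) (hf : CubeFree A)
    (hA : 3 ≤ |A|) : IsAddTorsionFree (GA A) := by
  rw [isAddTorsionFree_iff_not_isOfFinAddOrder]
  intro P hP hfin
  have h0 : ∀ k : ℕ, (3 ^ k : ℕ) • P ≠ 0 := by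
    intro k
    induction k with
    | zero => simpa using hP
    | succ k ih =>
      rw [pow_succ, mul_comm, mul_smul]
      exact three_ne hT hB hf hA ih
  have hmono : StrictMono fun k : ℕ => Ht ((3 ^ k : ℕ) • P) := by
    refine strictMono_nat_of_lt_succ fun k => ?_
    have h1 := Ht_ge_two hB hf hA (h0 k)
    have h2 := Ht_three hT hG hB hf hA ((3 ^ k : ℕ) • P)
    rw [← mul_smul, ← pow_succ'] at h2
    set u := Ht ((3 ^ k : ℕ) • P)
    have h3 : 2 ^ 6 * u ≤ u ^ 7 := by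
      calc 2 ^ 6 * u ≤ u ^ 6 * u :=
            mul_le_mul_of_nonneg_right (pow_le_pow_left₀ (by norm_num) h1 6) (by omega)
        _ = u ^ 7 := by ring
    show u < Ht ((3 ^ (k + 1) : ℕ) • P)
    omega
  have hinj : Function.Injective fun k : ℕ => (3 ^ k : ℕ) • P := by
    intro i j hij
    exact hmono.injective (congrArg Ht hij)
  have hsub : Set.range (fun k : ℕ => (3 ^ k : ℕ) • P) ⊆
      (AddSubmonoid.multiples P : Set (GA A)) := by
    rintro _ ⟨k, rfl⟩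
    exact ⟨3 ^ k, rfl⟩
  have hfin' : (AddSubmonoid.multiples P : Set (GA A)).Finite := finite_multiples.2 hfin
  exact Set.infinite_range_of_injective hinj (hfin'.subset hsub)

end GenPf

open _root_.Pool.Agent.CubeRank.GenPf

/-- (M6) number of generators -/
theorem gen (h1 : BasicsStmt) (h2 : ChordStmt) (h3 : TripleStmt) (h4 : GrowthStmt) : GenStmt := by
  intro A hf hA' d hi hd
  have hA : 3 ≤ |A| := by
    rw [Int.abs_eq_natAbs]
    exact_mod_cast hA'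
  have := fg h1 h2 h3 h4 hf hA hi
  have : Module.Finite ℤ (GA A) := Module.Finite.iff_addGroup_fg.2 this
  have := torsion_free h1 h3 h4 hf hA
  have : Module.Free ℤ (GA A) := Module.free_of_finite_type_torsion_free'
  have hind : (threeMul A).index = 3 ^ Module.finrank ℤ (GA A) :=
    AddSubgroup.index_range_nsmul (GA A) 3
  rw [hind] at hd
  have hr : Module.finrank ℤ (GA A) ≤ d := (Nat.pow_le_pow_iff_right (by norm_num)).1 hd
  let b := Module.finBasis ℤ (GA A)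
  classical
  refine ⟨Finset.univ.image b, ?_, ?_⟩
  · refine (Finset.card_image_le).trans ?_
    simpa using hr
  · rw [Finset.coe_image, Finset.coe_univ, Set.image_univ, ← Submodule.span_int_eq_addSubgroupClosure,
      b.span_eq]
    rfl

end Pool.Agent.CubeRank


end
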