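import Mathlib
import Pool.Agent.PTDM.C08
import Pool.Agent.PTDM.C10
import Pool.Agent.PTDM.C12
import Pool.Agent.PTDM.C13
import Pool.Agent.PTDM.C14
import Pool.Agent.PTDM.C15
import Pool.Agent.PTDM.C16
import Pool.Agent.PTDM.C17
import Pool.Agent.PTDM.C18

/-! Parts: Lib_helper84.Cub.Info, CubeRank.LawB, CubeRank.LawC, CubeRank.GLawB, Lib_helper84.Cub.AdicB, CubeRank.GLawC, CubeRank.GLawD, CubeRank.GLawE, CubeRank.Law, CubeRank.GLaw, CubeRank.Main, CubeRank.GMain, CubeRank.AllButTwo, CubeRank.GFinal, CubeRank.Avg, CubeRank.AvgFinal -/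

section

/-!
# 3-adic information on points, `A` prime to 3
-/

namespace Pool.Agent.Lib_helper84.Cub

open Pool.Agent.Lib_helper18 Pool.Agent.Lib_helper18.Eis

theorem wq_mul_cube {a x : ℤ} (ha : ¬ (3 : ℤ) ∣ a) (hx : ¬ (3 : ℤ) ∣ x) :
    wq (a * x ^ 3) = wq a := by
  have hx3 : ¬ (3 : ℤ) ∣ x ^ 3 := fun h => hx (Int.prime_three.dvd_of_dvd_pow h)
  rw [wq_mul ha hx3, wq_cube hx, add_zero]

/-- three units with sum zero modulo 9 -/
theorem units9 {X0 X1 X2 : ℤ} (h0 : ¬ (3 : ℤ) ∣ X0) (h1 : ¬ (3 : ℤ) ∣ X1) (h2 : ¬ (3 : ℤ) ∣ X2)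
    (hs : X0 + X1 + X2 = 0) : ((9 : ℤ) ∣ X1 - X2 ∨ (9 : ℤ) ∣ X0 - X2 ∨ (9 : ℤ) ∣ X0 - X1) ∧
      wq X0 + wq X1 + wq X2 = 2 := by
  have h0' : X0 % 9 = 1 ∨ X0 % 9 = 2 ∨ X0 % 9 = 4 ∨ X0 % 9 = 5 ∨ X0 % 9 = 7 ∨ X0 % 9 = 8 := by omega
  have h1' : X1 % 9 = 1 ∨ X1 % 9 = 2 ∨ X1 % 9 = 4 ∨ X1 % 9 = 5 ∨ X1 % 9 = 7 ∨ X1 % 9 = 8 := by omega
  have e2 : X2 % 9 = (-(X0 % 9) - (X1 % 9)) % 9 := by omega
  constructor
  · rcases h0' with h | h | h | h | h | h <;> rcases h1' with h' | h' | h' | h' | h' | h' <;>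
      first
      | (exfalso; omega)
      | (left; omega)
      | (right; left; omega)
      | (right; right; omega)
  unfold wq
  rcases h0' with h | h | h | h | h | h <;> rcases h1' with h' | h' | h' | h' | h' | h' <;>
    first
    | (exfalso; omega)
    | (rw [e2, h, h']; decide)

theorem dvd_add_of {X Y : ℤ} (hX : ¬ (3 : ℤ) ∣ X) (hY : ¬ (3 : ℤ) ∣ Y) (h : ¬ (3 : ℤ) ∣ X - Y) :
    (3 : ℤ) ∣ X + Y := by
  have h1 : X % 3 = 1 ∨ X % 3 = 2 := by omega
  have h2 : Y % 3 = 1 ∨ Y % 3 = 2 := by omega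
  rcases h1 with h1 | h1 <;> rcases h2 with h2 | h2 <;> omega

theorem wq_congr {u v : ℤ} (h : (9 : ℤ) ∣ u - v) : wq u = wq v := by
  have : wq u = wq (-v) := by
    unfold wq
    have h1 : u % 9 = v % 9 := by omega
    have h2 : (-v) % 9 = (9 - v % 9) % 9 := by omega
    rw [h1, h2]
    have h3 : 0 ≤ v % 9 := by omega
    have h4 : v % 9 < 9 := by omega
    generalize v % 9 = a at *
    interval_cases a <;> simp
  rw [this]
  exact wq_of_add (by simp)

/-- equality outside `o` -/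
def OO (f : Fin 3 → ZMod 3) (o : Fin 3) : Prop := ∀ i j, i ≠ o → j ≠ o → f i = f j

instance (f : Fin 3 → ZMod 3) (o : Fin 3) : Decidable (OO f o) := by
  unfold OO; infer_instance

variable {m : ℕ} {p e e' : Fin m → ℕ} {pos pos' : Fin m → Fin 3} {x y : Fin 3 → ℤ} {i0 i1 : Fin m}

/-- 3-adic information on a point -/
structure PInfo (p e : Fin m → ℕ) (pos : Fin m → Fin 3) (x : Fin 3 → ℤ) (o : Fin 3) : Prop where
  out : OO (fun k => wq (cell p e pos k)) o
  unit : ∀ k, k ≠ o → ¬ (3 : ℤ) ∣ x k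
  alt : (3 : ℤ) ∣ x o ∨ (¬ (3 : ℤ) ∣ x o ∧ ∀ i j, i ≠ o → j ≠ o →
    (9 : ℤ) ∣ term p e pos x i - term p e pos x j)
  div : wq (∏ j, (p j : ℤ) ^ e j) = 1 → (3 : ℤ) ∣ x o

theorem OO_iff (f : Fin 3 → ZMod 3) : (OO f 0 ↔ f 1 = f 2) ∧ (OO f 1 ↔ f 0 = f 2) ∧
    (OO f 2 ↔ f 0 = f 1) := by
  have key : ∀ a b c : ZMod 3, (OO ![a, b, c] 0 ↔ b = c) ∧ (OO ![a, b, c] 1 ↔ a = c) ∧
    (OO ![a, b, c] 2 ↔ a = b) := by decide
  have e : f = ![f 0, f 1, f 2] := by
    ext k; fin_cases k <;> rfl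
  have := key (f 0) (f 1) (f 2)
  rw [← e] at this
  exact this

theorem forall3 {P : Fin 3 → Prop} (h0 : P 0) (h1 : P 1) (h2 : P 2) : ∀ k, P k := by
  intro k; fin_cases k
  · exact h0
  · exact h1
  · exact h2

theorem pt_info (h3 : ∀ k, ¬ (3 : ℤ) ∣ cell p e pos k)
    (hP : IsPt p e pos x) : ∃ o, PInfo p e pos x o := by
  have hprod := cell_prod p e pos
  have hsum := sum3 hP.sum
  have c01 := hP.cop 0 1 (by decide)
  have c02 := hP.cop 0 2 (by decide)
  have c12 := hP.cop 1 2 (by decide)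
  have hwA : wq (∏ j, (p j : ℤ) ^ e j) =
      wq (cell p e pos 0) + wq (cell p e pos 1) + wq (cell p e pos 2) := by
    rw [← hprod, wq_mul (ndvd_mul (h3 0) (h3 1)) (h3 2), wq_mul (h3 0) (h3 1)]
  have nd : ∀ {a b c d : ℤ}, IsCoprime (a * b) (c * d) → (3 : ℤ) ∣ b → ¬ (3 : ℤ) ∣ d := by
    intro a b c d h hb hd
    exact Int.prime_three.not_isUnit (h.isUnit_of_dvd' (Dvd.dvd.mul_left hb _)
      (Dvd.dvd.mul_left hd _))
  have d27 : ∀ k, (3 : ℤ) ∣ x k → (9 : ℤ) ∣ term p e pos x k := by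
    rintro k ⟨u, hu⟩
    refine ⟨cell p e pos k * (3 * u ^ 3), ?_⟩
    unfold term
    rw [hu]; ring
  have hsum' : term p e pos x 0 + term p e pos x 1 + term p e pos x 2 = 0 := hsum
  have ht : ∀ k, ¬ (3 : ℤ) ∣ x k → wq (term p e pos x k) = wq (cell p e pos k) :=
    fun k hk => wq_mul_cube (h3 k) hk
  obtain ⟨O0, O1, O2⟩ := OO_iff (fun k => wq (cell p e pos k))
  by_cases d0 : (3 : ℤ) ∣ x 0
  · have n1 := nd c01 d0
    have n2 := nd c02 d0
    refine ⟨0, O0.mpr ?_, ?_, Or.inl d0, fun _ => d0⟩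
    · have h9 := d27 0 d0
      rw [← ht 1 n1, ← ht 2 n2]
      exact wq_of_add (by omega)
    · exact forall3 (fun h => absurd rfl h) (fun _ => n1) (fun _ => n2)
  by_cases d1 : (3 : ℤ) ∣ x 1
  · have n0 := nd c01.symm d1
    have n2 := nd c12 d1
    refine ⟨1, O1.mpr ?_, ?_, Or.inl d1, fun _ => d1⟩
    · have h9 := d27 1 d1
      rw [← ht 0 n0, ← ht 2 n2]
      exact wq_of_add (by omega)
    · exact forall3 (fun _ => n0) (fun h => absurd rfl h) (fun _ => n2)
  by_cases d2 : (3 : ℤ) ∣ x 2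
  · have n0 := nd c02.symm d2
    have n1 := nd c12.symm d2
    refine ⟨2, O2.mpr ?_, ?_, Or.inl d2, fun _ => d2⟩
    · have h9 := d27 2 d2
      rw [← ht 0 n0, ← ht 1 n1]
      exact wq_of_add (by omega)
    · exact forall3 (fun _ => n0) (fun _ => n1) (fun h => absurd rfl h)
  have hall : ∀ k, ¬ (3 : ℤ) ∣ x k := forall3 d0 d1 d2
  have hX : ∀ k, ¬ (3 : ℤ) ∣ term p e pos x k := fun k =>
    ndvd_mul (h3 k) (fun h => hall k (Int.prime_three.dvd_of_dvd_pow h))
  obtain ⟨h9, hw⟩ := units9 (hX 0) (hX 1) (hX 2) hsum'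
  rw [ht 0 d0, ht 1 d1, ht 2 d2, ← hwA] at hw
  have hne : wq (∏ j, (p j : ℤ) ^ e j) ≠ 1 := by rw [hw]; decide
  rcases h9 with h9 | h9 | h9
  · refine ⟨0, O0.mpr ?_, fun k _ => hall k, Or.inr ⟨d0, ?_⟩, fun h => absurd h hne⟩
    · rw [← ht 1 d1, ← ht 2 d2]; exact wq_congr h9
    · refine forall3 (fun j h => absurd rfl h) (fun j _ => ?_) (fun j _ => ?_) <;>
        revert j <;> refine forall3 (fun h => absurd rfl h) (fun _ => ?_) (fun _ => ?_)
      · simp
      · exact h9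
      · rw [← dvd_neg, neg_sub]; exact h9
      · simp
  · refine ⟨1, O1.mpr ?_, fun k _ => hall k, Or.inr ⟨d1, ?_⟩, fun h => absurd h hne⟩
    · rw [← ht 0 d0, ← ht 2 d2]; exact wq_congr h9
    · refine forall3 (fun j _ => ?_) (fun j h => absurd rfl h) (fun j _ => ?_) <;>
        revert j <;> refine forall3 (fun _ => ?_) (fun h => absurd rfl h) (fun _ => ?_)
      · simp
      · exact h9
      · rw [← dvd_neg, neg_sub]; exact h9
      · simp
  · refine ⟨2, O2.mpr ?_, fun k _ => hall k, Or.inr ⟨d2, ?_⟩, fun h => absurd h hne⟩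
    · rw [← ht 0 d0, ← ht 1 d1]; exact wq_congr h9
    · refine forall3 (fun j _ => ?_) (fun j _ => ?_) (fun j h => absurd rfl h) <;>
        revert j <;> refine forall3 (fun _ => ?_) (fun _ => ?_) (fun h => absurd rfl h)
      · simp
      · exact h9
      · rw [← dvd_neg, neg_sub]; exact h9
      · simp

/-- the class of the main element of case I -/
theorem cls_tI (h3 : ∀ k, ¬ (3 : ℤ) ∣ cell p e pos k) (hP : IsPt p e pos x) {o : Fin 3}
    (hI : PInfo p e pos x o) (hT : (3 : ℤ) ∣ x 0 * x 1 * x 2 ∨ (3 : ℤ) ∣ y 2)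
    (hy : ¬ (3 : ℤ) ∣ y 1) : Cls (tI p e i0 i1 pos x y) ((o : ℕ) : ZMod 3) := by
  have hsum : term p e pos x 0 + term p e pos x 1 + term p e pos x 2 = 0 := sum3 hP.sum
  have h9T : (9 : ℤ) ∣ 3 * (x 0 * x 1 * x 2) * (qS p i0 i1 * y 2) := by
    rcases hT with ⟨u, hu⟩ | ⟨u, hu⟩
    · rw [hu]; exact ⟨u * (qS p i0 i1 * y 2), by ring⟩
    · rw [hu]; exact ⟨x 0 * x 1 * x 2 * (qS p i0 i1 * u), by ring⟩
  have d9 : ∀ k, (3 : ℤ) ∣ x k → (9 : ℤ) ∣ term p e pos x k := by
    rintro k ⟨u, hu⟩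
    refine ⟨cell p e pos k * (3 * u ^ 3), ?_⟩
    unfold term
    rw [hu]; ring
  have hX : ∀ k, ¬ (3 : ℤ) ∣ x k → ¬ (3 : ℤ) ∣ term p e pos x k := fun k hk =>
    ndvd_mul (h3 k) (fun h => hk (Int.prime_three.dvd_of_dvd_pow h))
  have hu := hI.unit
  have ho : o = 0 ∨ o = 1 ∨ o = 2 := by clear * -; revert o; decide
  unfold tI tOne
  rcases hI.alt with h | ⟨-, h⟩
  · apply clsOne_div h9T hy hsum
    rcases ho with rfl | rfl | rfl
    · exact Or.inl ⟨d9 0 h, hX 1 (hu 1 (by decide)), by decide⟩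
    · exact Or.inr (Or.inl ⟨d9 1 h, hX 0 (hu 0 (by decide)), by decide⟩)
    · exact Or.inr (Or.inr ⟨d9 2 h, hX 0 (hu 0 (by decide)), by decide⟩)
  · apply clsOne_non h9T hy hsum
    rcases ho with rfl | rfl | rfl
    · exact Or.inl ⟨h 1 2 (by decide) (by decide), hX 1 (hu 1 (by decide)), by decide⟩
    · exact Or.inr (Or.inl ⟨h 0 2 (by decide) (by decide), hX 0 (hu 0 (by decide)), by decide⟩)
    · exact Or.inr (Or.inr ⟨h 0 1 (by decide) (by decide), hX 0 (hu 0 (by decide)), by decide⟩)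

theorem BaseG.rd3 (b : BaseG p e e' i0 i1) (k : Fin 3) : ¬ (3 : ℤ) ∣ rdP p i0 i1 pos k := by
  unfold rdP
  intro h
  rw [Prime.dvd_finsetProd_iff Int.prime_three] at h
  obtain ⟨j, -, hj⟩ := h
  split_ifs at hj with hc
  · have h1 := b.sp3 hc.1
    rw [pow_one] at hj
    omega
  · omega

theorem cube_congr {X Y : ℤ} (hX : ¬ (3 : ℤ) ∣ X) (h : (27 : ℤ) ∣ X ^ 3 - Y ^ 3) :
    (9 : ℤ) ∣ X - Y := by
  have h3 : (3 : ℤ) ∣ X - Y := by
    have h1 : (3 : ℤ) ∣ X ^ 3 - Y ^ 3 := (by norm_num : (3 : ℤ) ∣ 27).trans h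
    have h2 : (3 : ℤ) ∣ (X - Y) ^ 3 := by
      have e : (X - Y) ^ 3 = X ^ 3 - Y ^ 3 + 3 * (X * Y * (Y - X)) := by ring
      rw [e]; exact dvd_add h1 (dvd_mul_right _ _)
    exact Int.prime_three.dvd_of_dvd_pow h2
  obtain ⟨k, hk⟩ := h3
  obtain ⟨c, hc⟩ := h
  have hY : Y = X - 3 * k := by linarith
  have h9 : (3 : ℤ) ∣ k * X ^ 2 := by
    refine ⟨c + k ^ 2 * X - k ^ 3, ?_⟩
    rw [hY] at hc
    have : (9 : ℤ) * (k * X ^ 2) = 9 * (3 * (c + k ^ 2 * X - k ^ 3)) := by linarith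
    linarith
  have hk3 : (3 : ℤ) ∣ k := (Int.prime_three.dvd_or_dvd h9).resolve_right
    (fun h => hX (Int.prime_three.dvd_of_dvd_pow h))
  obtain ⟨u, hu⟩ := hk3
  exact ⟨u, by rw [hk, hu]; ring⟩

theorem tII_eq (p : Fin m → ℕ) (i0 i1 : Fin m) (pos : Fin m → Fin 3) (x y : Fin 3 → ℤ) :
    tII p i0 i1 pos x y = w * ((rdP p i0 i1 pos 1 * x 1 * y 0 : ℤ) : Eis) +
      (-(rdP p i0 i1 pos 0 * x 0 * y 1) : ℤ) := tTwo_eq _ _ _ _ _ _

theorem cls_tII_zero (b : BaseG p e e' i0 i1) (h : (3 : ℤ) ∣ x 1 ∨ (3 : ℤ) ∣ y 0)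
    (h0 : ¬ (3 : ℤ) ∣ x 0) (h1 : ¬ (3 : ℤ) ∣ y 1) : Cls (tII p i0 i1 pos x y) 0 := by
  rw [tII_eq]
  refine clsTwo_zero ?_ (ndvd_mul (ndvd_mul (b.rd3 0) h0) h1)
  rcases h with h | h
  · exact Dvd.dvd.mul_right (Dvd.dvd.mul_left h _) _
  · exact Dvd.dvd.mul_left h _

theorem cls_tII_one (b : BaseG p e e' i0 i1) (h : (3 : ℤ) ∣ x 0 ∨ (3 : ℤ) ∣ y 1)
    (h0 : ¬ (3 : ℤ) ∣ x 1) (h1 : ¬ (3 : ℤ) ∣ y 0) : Cls (tII p i0 i1 pos x y) 1 := by
  rw [tII_eq]
  refine clsTwo_one ?_ (ndvd_mul (ndvd_mul (b.rd3 1) h0) h1)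
  rcases h with h | h
  · exact Dvd.dvd.mul_right (Dvd.dvd.mul_left h _) _
  · exact Dvd.dvd.mul_left h _

theorem cls_tII_two (b : BaseG p e e' i0 i1) (hpos : Exch i0 i1 pos pos')
    (hP : IsPt p e pos x) (hP' : IsPt p e' pos' y)
    (n0 : ¬ (3 : ℤ) ∣ cell p e' pos' 0) (n1 : ¬ (3 : ℤ) ∣ cell p e pos 1)
    (n2 : ¬ (3 : ℤ) ∣ cell p e pos 2)
    (hx0 : ¬ (3 : ℤ) ∣ x 0) (hx1 : ¬ (3 : ℤ) ∣ x 1) (hy0 : ¬ (3 : ℤ) ∣ y 0)
    (hy1 : ¬ (3 : ℤ) ∣ y 1) (hy2 : (3 : ℤ) ∣ y 2) : Cls (tII p i0 i1 pos x y) 2 := by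
  have hx := sum3 hP.sum
  have hy := sum3 hP'.sum
  have h1 := exch_h1 b hpos
  set X := rdP p i0 i1 pos 1 * x 1 * y 0 with hX
  set Y := rdP p i0 i1 pos 0 * x 0 * y 1 with hY
  have hXn : ¬ (3 : ℤ) ∣ X := ndvd_mul (ndvd_mul (b.rd3 1) hx1) hy0
  have hYn : ¬ (3 : ℤ) ∣ Y := ndvd_mul (ndvd_mul (b.rd3 0) hx0) hy1
  have hid : cell p e' pos' 0 * cell p e pos 1 * (X ^ 3 - Y ^ 3) =
      rdP p i0 i1 pos 1 ^ 3 * (cell p e pos 0 * cell p e' pos' 2 * (x 0 * y 2) ^ 3 -
        cell p e' pos' 0 * cell p e pos 2 * (x 2 * y 0) ^ 3) := by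
    rw [hX, hY]
    linear_combination (x 0 * y 1) ^ 3 * h1 +
      rdP p i0 i1 pos 1 ^ 3 * cell p e' pos' 0 * y 0 ^ 3 * hx -
      rdP p i0 i1 pos 1 ^ 3 * cell p e pos 0 * x 0 ^ 3 * hy
  obtain ⟨u, hu⟩ := hy2
  rw [tII_eq]
  by_cases hx2 : (3 : ℤ) ∣ x 2
  · refine clsTwo_two' hXn ?_
    apply cube_congr hXn
    obtain ⟨v, hv⟩ := hx2
    have h27 : (3 : ℤ) ^ 3 ∣ (cell p e' pos' 0 * cell p e pos 1) * (X ^ 3 - Y ^ 3) := by
      rw [hid, hu, hv]
      exact ⟨rdP p i0 i1 pos 1 ^ 3 * (cell p e pos 0 * cell p e' pos' 2 * (x 0 * u) ^ 3 -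
        cell p e' pos' 0 * cell p e pos 2 * (v * y 0) ^ 3), by ring⟩
    have := Int.prime_three.pow_dvd_of_dvd_mul_left 3 (ndvd_mul n0 n1) h27
    norm_num at this
    exact this
  · refine clsTwo_two hXn ?_
    have hne : ¬ (3 : ℤ) ∣ X - Y := by
      intro h
      have h4 : (3 : ℤ) ∣ cell p e' pos' 0 * cell p e pos 1 * (X ^ 3 - Y ^ 3) := by
        apply Dvd.dvd.mul_left
        exact h.trans (sub_dvd_pow_sub_pow X Y 3)
      rw [hid] at h4
      rcases Int.prime_three.dvd_or_dvd h4 with h5 | h5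
      · exact b.rd3 1 (Int.prime_three.dvd_of_dvd_pow h5)
      · have h6 : (3 : ℤ) ∣ cell p e pos 0 * cell p e' pos' 2 * (x 0 * y 2) ^ 3 := by
          rw [hu]; exact ⟨cell p e pos 0 * cell p e' pos' 2 * (x 0 * u) ^ 3 * 9, by ring⟩
        have h7 := dvd_sub h6 h5
        rw [sub_sub_cancel] at h7
        exact ndvd_mul (ndvd_mul n0 n2) (fun h => ndvd_mul hx2 hy0
          (Int.prime_three.dvd_of_dvd_pow h)) h7
    exact dvd_add_of hXn hYn hne

end Pool.Agent.Lib_helper84.Cub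


end

section

/-!
# The three cases in terms of cells, a set `S` of exchanged primes
-/

set_option autoImplicit false

namespace Pool.Agent.CubeRank

open Pool.Agent.Lib_helper18 Pool.Agent.Lib_helper18.Eis Pool.Agent.Lib_helper84.Cub

variable {m : ℕ} {p e e' : Fin m → ℕ} {pos pos' : Fin m → Fin 3} {x y : Fin 3 → ℤ}
  {S : Finset (Fin m)}

/-- data used in all cases -/
structure BaseS (p e e' : Fin m → ℕ) (S : Finset (Fin m)) : Prop where
  hp : ∀ i, (p i).Prime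
  h3 : ∀ i, p i % 3 = 2
  inj : Function.Injective p
  he : ∀ i, e i = 1 ∨ e i = 2
  he' : ∀ i, e' i = 1 ∨ e' i = 2
  hw : ∀ i, sym (p i : Eis) w ≠ 0
  rel : ∀ j, if j ∈ S then e j + e' j = 3 else e j = e' j

/-- the product of the exchanged prime powers -/
def bS (p e : Fin m → ℕ) (S : Finset (Fin m)) : ℤ := ∏ j, if j ∈ S then (p j : ℤ) ^ e j else 1

/-- the product of the exchanged primes -/
def qS (p : Fin m → ℕ) (S : Finset (Fin m)) : ℤ := ∏ j, if j ∈ S then (p j : ℤ) ^ 1 else 1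

/-- the standard position -/
def stdS (S : Finset (Fin m)) (j : Fin m) : Fin 3 := if j ∈ S then 2 else 1

theorem BaseS.bb (b : BaseS p e e' S) : bS p e S * bS p e' S = qS p S ^ 3 := by
  unfold bS qS
  rw [← Finset.prod_mul_distrib, ← Finset.prod_pow]
  refine Finset.prod_congr rfl (fun j _ => ?_)
  have hr := b.rel j
  split_ifs at hr ⊢ with hS
  · rw [← pow_add, hr]; ring
  · ring

/-- nonresidues -/
theorem BaseS.nonCube (_b : BaseS p e e' S) {l : Eis} (hl : Prime l) (hl3 : ¬ l ∣ 3)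
    (hno : ∀ j, ¬ l ∣ (p j : Eis))
    (h : ∑ i ∈ S, (e i : ZMod 3) * sym l (p i : Eis) ≠ 0) : NonCube l (bS p e S) := by
  have e1 : ((bS p e S : ℤ) : Eis) = ∏ j ∈ S, (p j : Eis) ^ e j := by
    unfold bS
    push_cast
    rw [← Finset.prod_filter]
    simp
  obtain ⟨h1, h2⟩ := sym_prod hl hl3 e S hno
  apply nonCube_of_sym hl hl3
  · rw [e1]; exact h1
  · rw [e1, h2]; exact h

/-- primes dividing some `p j` are harmless -/
theorem BaseS.good (b : BaseS p e e' S) {l : Eis} (hl : Prime l)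
    {j : Fin m} (hj : l ∣ (p j : Eis)) {i : Fin m} (hi : ¬ l ∣ (p i : Eis)) :
    sym l (p i : Eis) = 0 := by
  have hass := hl.associated_of_dvd (prime_inert (b.hp j) (b.h3 j)) hj
  have h1 : ¬ p j ∣ p i := fun h => hi (hass.dvd.trans (Nat.cast_dvd_cast h))
  rw [sym_associated hass, sym_nat (b.hp j) (b.h3 j) h1]

/-- the product formula for the exchanged primes -/
theorem BaseS.sum_of (b : BaseS p e e' S) {t : Eis} {f : Fin m → ZMod 3} {c : ZMod 3}
    (ht : t ≠ 0)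
    (h0 : ∀ i ∈ S, ¬ (p i : Eis) ∣ t ∧ sym (p i : Eis) t = f i * sym (p i : Eis) w)
    (hc : Cls t c)
    (hloc : ∀ l : Eis, Prime l → ¬ l ∣ 3 → (∀ j, ¬ l ∣ (p j : Eis)) → NonCube l (bS p e S) →
      3 ∣ V l t) :
    ∑ i ∈ S, (e i : ZMod 3) * (f i * sym (p i : Eis) w) =
      c * ∑ i ∈ S, (e i : ZMod 3) * sym (p i : Eis) w := by
  have h1 := lemmaS b.hp b.h3 S (fun i => (e i : ZMod 3)) ht (fun i hi => (h0 i hi).1) hc (by
    intro l hl hl3 hlt
    have hlq : ∀ i ∈ S, ¬ l ∣ (p i : Eis) := fun i hi h => (h0 i hi).1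
      ((hl.associated_of_dvd (prime_inert (b.hp i) (b.h3 i)) h).symm.dvd.trans hlt)
    by_cases hno : ∃ j, l ∣ (p j : Eis)
    · left
      obtain ⟨j, hj⟩ := hno
      refine Finset.sum_eq_zero (fun i hi => ?_)
      rw [b.good hl hj (hlq i hi), mul_zero]
    push Not at hno
    by_cases hgood : ∑ i ∈ S, (e i : ZMod 3) * sym l (p i : Eis) = 0
    · exact Or.inl hgood
    · exact Or.inr (hloc l hl hl3 hno (b.nonCube hl hl3 hno hgood)))
  rw [← h1]
  exact Finset.sum_congr rfl (fun i hi => by rw [(h0 i hi).2])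

/-! ### case II -/

/-- auxiliary products -/
def rdP (p : Fin m → ℕ) (S : Finset (Fin m)) (pos : Fin m → Fin 3) (k : Fin 3) : ℤ :=
  ∏ j, if j ∈ S ∧ pos j = k then (p j : ℤ) ^ 1 else 1

/-- the main element of case II in terms of cells -/
def tII (p : Fin m → ℕ) (S : Finset (Fin m)) (pos : Fin m → Fin 3) (x y : Fin 3 → ℤ) : Eis :=
  tTwo (rdP p S pos 1) (rdP p S pos 0) (x 0) (x 1) (y 0) (y 1)

/-- the exchange of the positions -/
def Exch (S : Finset (Fin m)) (pos pos' : Fin m → Fin 3) : Prop :=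
  ∀ j, pos' j = if j ∈ S then tau (pos j) else pos j

theorem exch_h1 (b : BaseS p e e' S) (hpos : Exch S pos pos') :
    cell p e pos 0 * cell p e' pos' 1 * rdP p S pos 1 ^ 3 =
      cell p e' pos' 0 * cell p e pos 1 * rdP p S pos 0 ^ 3 := by
  unfold rdP
  simp only [cell, ← Finset.prod_mul_distrib, ← Finset.prod_pow]
  refine Finset.prod_congr rfl (fun j _ => ?_)
  have hj := hpos j
  have hr := b.rel j
  have hej := b.he j
  have h3 : pos j = 0 ∨ pos j = 1 ∨ pos j = 2 := by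
    generalize pos j = k; revert k; decide
  split_ifs at hj hr with hS
  · have hee : (e j = 1 ∧ e' j = 2) ∨ (e j = 2 ∧ e' j = 1) := by omega
    rcases h3 with h3 | h3 | h3 <;> rcases hee with ⟨he, h9⟩ | ⟨he, h9⟩ <;> rw [h3] at hj <;>
      simp [hj, h3, hS, he, h9, tau] <;> ring
  · rcases h3 with h3 | h3 | h3 <;> rw [h3] at hj <;> simp [hj, h3, hS, hr]

theorem tII_at (b : BaseS p e e' S) (hP : IsPt p e pos x) (hP' : IsPt p e' pos' y)
    (hpos : Exch S pos pos') {i : Fin m} (hi : i ∈ S) :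
    ¬ (p i : Eis) ∣ tII p S pos x y ∧
      sym (p i : Eis) (tII p S pos x y) = fpos (pos i) * sym (p i : Eis) w := by
  have he0 : e i ≠ 0 := by have := b.he i; omega
  have he0' : e' i ≠ 0 := by have := b.he' i; omega
  have hp' := hpos i
  rw [if_pos hi] at hp'
  have hx := sum3 hP.sum
  have hy := sum3 hP'.sum
  have key : ((p i : ℤ) ∣ cell p e pos 2 ∧ (p i : ℤ) ∣ cell p e' pos' 2 ∧
        ¬ (p i : ℤ) ∣ rdP p S pos 1 ∧ fpos (pos i) = 2 ∨
      (p i : ℤ) ∣ cell p e pos 0 ∧ (p i : ℤ) ∣ cell p e' pos' 1 ∧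
        (p i : ℤ) ∣ rdP p S pos 0 ∧ ¬ (p i : ℤ) ∣ rdP p S pos 1 ∧ fpos (pos i) = 1 ∨
      (p i : ℤ) ∣ cell p e pos 1 ∧ (p i : ℤ) ∣ cell p e' pos' 0 ∧
        (p i : ℤ) ∣ rdP p S pos 1 ∧ ¬ (p i : ℤ) ∣ rdP p S pos 0 ∧
        fpos (pos i) = 0) := by
    have h3 : pos i = 0 ∨ pos i = 1 ∨ pos i = 2 := by
      generalize pos i = k; revert k; decide
    rcases h3 with h3 | h3 | h3
    · right; left
      rw [h3] at hp' ⊢
      exact ⟨dvd_prod_if (fun j => pos j = 0) h3 he0,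
        dvd_prod_if (fun j => pos' j = 1) hp' he0',
        dvd_prod_if (fun j => j ∈ S ∧ pos j = 0) ⟨hi, h3⟩ one_ne_zero,
        not_dvd_prod_if b.hp b.inj (fun j => j ∈ S ∧ pos j = 1)
          (fun h => by have := h.2; rw [h3] at this; exact absurd this (by decide)), rfl⟩
    · right; right
      rw [h3] at hp' ⊢
      exact ⟨dvd_prod_if (fun j => pos j = 1) h3 he0,
        dvd_prod_if (fun j => pos' j = 0) hp' he0',
        dvd_prod_if (fun j => j ∈ S ∧ pos j = 1) ⟨hi, h3⟩ one_ne_zero,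
        not_dvd_prod_if b.hp b.inj (fun j => j ∈ S ∧ pos j = 0)
          (fun h => by have := h.2; rw [h3] at this; exact absurd this (by decide)), rfl⟩
    · left
      rw [h3] at hp' ⊢
      exact ⟨dvd_prod_if (fun j => pos j = 2) h3 he0,
        dvd_prod_if (fun j => pos' j = 2) hp' he0',
        not_dvd_prod_if b.hp b.inj (fun j => j ∈ S ∧ pos j = 1)
          (fun h => by have := h.2; rw [h3] at this; exact absurd this (by decide)), rfl⟩
  exact caseII_one (b.hp i) (b.h3 i) hx (hP.cop 0 1 (by decide)) (hP.cop 1 2 (by decide)) hy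
    (hP'.cop 0 1 (by decide)) (hP'.cop 0 2 (by decide)) (exch_h1 b hpos) key

theorem tII_loc (b : BaseS p e e' S) (hP : IsPt p e pos x) (hP' : IsPt p e' pos' y)
    (hpos : Exch S pos pos') {l : Eis} (hl : Prime l) (hl3 : ¬ l ∣ 3)
    (hno : ∀ j, ¬ l ∣ (p j : Eis)) (hbad : NonCube l (bS p e S)) :
    3 ∣ V l (tII p S pos x y) := by
  have hx := sum3 hP.sum
  have hy := sum3 hP'.sum
  refine caseII_loc hl hl3
    (k := ∏ j, if j ∈ S ∧ (pos j = 1 ∨ pos j = 2 ∧ e j = 2) then (p j : ℤ) ^ 1 else 1)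
    (m := ∏ j, if j ∈ S ∧ (pos j = 0 ∨ pos j = 2 ∧ e j = 2) then (p j : ℤ) ^ 1 else 1)
    hbad hx (hP.cop 0 1 (by decide)) hy (hP'.cop 0 1 (by decide))
    (hP'.cop 0 2 (by decide)) (hP'.cop 1 2 (by decide)) (exch_h1 b hpos) ?_ ?_ ?_
    ⟨hP.ne 0, hP'.ne 2⟩
  · -- h2
    unfold bS
    simp only [cell, ← Finset.prod_mul_distrib, ← Finset.prod_pow]
    refine Finset.prod_congr rfl (fun j _ => ?_)
    have hj := hpos j
    have hr := b.rel j
    have hej := b.he j
    have h3 : pos j = 0 ∨ pos j = 1 ∨ pos j = 2 := by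
      generalize pos j = k; revert k; decide
    split_ifs at hj hr with hS
    · have hee : (e j = 1 ∧ e' j = 2) ∨ (e j = 2 ∧ e' j = 1) := by omega
      rcases h3 with h3 | h3 | h3 <;> rcases hee with ⟨he, h9⟩ | ⟨he, h9⟩ <;> rw [h3] at hj <;>
        simp [hj, h3, hS, he, h9, tau] <;> ring
    · rcases h3 with h3 | h3 | h3 <;> rw [h3] at hj <;> simp [hj, h3, hS, hr]
  · -- h3
    unfold bS
    simp only [cell, ← Finset.prod_mul_distrib, ← Finset.prod_pow]
    refine Finset.prod_congr rfl (fun j _ => ?_)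
    have hj := hpos j
    have hr := b.rel j
    have hej := b.he j
    have h3 : pos j = 0 ∨ pos j = 1 ∨ pos j = 2 := by
      generalize pos j = k; revert k; decide
    split_ifs at hj hr with hS
    · have hee : (e j = 1 ∧ e' j = 2) ∨ (e j = 2 ∧ e' j = 1) := by omega
      rcases h3 with h3 | h3 | h3 <;> rcases hee with ⟨he, h9⟩ | ⟨he, h9⟩ <;> rw [h3] at hj <;>
        simp [hj, h3, hS, he, h9, tau] <;> ring
    · rcases h3 with h3 | h3 | h3 <;> rw [h3] at hj <;> simp [hj, h3, hS, hr]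
  · -- units
    intro hdvd
    have hS : SPr p (cell p e' pos' 0 * cell p e' pos' 1 * cell p e pos 1 * cell p e pos 2 *
      rdP p S pos 1 * rdP p S pos 0 *
      (∏ j, if j ∈ S ∧ (pos j = 1 ∨ pos j = 2 ∧ e j = 2) then (p j : ℤ) ^ 1 else 1) *
      (∏ j, if j ∈ S ∧ (pos j = 0 ∨ pos j = 2 ∧ e j = 2) then (p j : ℤ) ^ 1 else 1)) := by
      refine SPr.mul (SPr.mul (SPr.mul (SPr.mul (SPr.mul (SPr.mul (SPr.mul ?_ ?_) ?_) ?_)
        ?_) ?_) ?_) ?_
      · exact SPr.prod p (fun j => pos' j = 0) e'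
      · exact SPr.prod p (fun j => pos' j = 1) e'
      · exact SPr.prod p (fun j => pos j = 1) e
      · exact SPr.prod p (fun j => pos j = 2) e
      · exact SPr.prod p (fun j => j ∈ S ∧ pos j = 1) (fun _ => 1)
      · exact SPr.prod p (fun j => j ∈ S ∧ pos j = 0) (fun _ => 1)
      · exact SPr.prod p (fun j => j ∈ S ∧ (pos j = 1 ∨ pos j = 2 ∧ e j = 2)) (fun _ => 1)
      · exact SPr.prod p (fun j => j ∈ S ∧ (pos j = 0 ∨ pos j = 2 ∧ e j = 2)) (fun _ => 1)
    obtain ⟨j, hj⟩ := hS l hl hdvd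
    exact hno j hj

/-- case II -/
theorem caseII_S (b : BaseS p e e' S) (hS : S.Nonempty)
    (hP : IsPt p e pos x) (hP' : IsPt p e' pos' y) (hpos : Exch S pos pos') :
    tII p S pos x y ≠ 0 ∧ ∀ c : ZMod 3, Cls (tII p S pos x y) c →
      ∑ i ∈ S, (e i : ZMod 3) * (fpos (pos i) * sym (p i : Eis) w) =
        c * ∑ i ∈ S, (e i : ZMod 3) * sym (p i : Eis) w := by
  have ht : tII p S pos x y ≠ 0 := by
    obtain ⟨i, hi⟩ := hS
    intro h
    have := (tII_at b hP hP' hpos hi).1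
    rw [h] at this
    exact this (dvd_zero _)
  refine ⟨ht, fun c hc => ?_⟩
  exact b.sum_of (f := fun i => fpos (pos i)) ht (fun i hi => tII_at b hP hP' hpos hi) hc
    (fun _ hl hl3 hno hbad => tII_loc b hP hP' hpos hl hl3 hno hbad)

/-! ### case I -/

/-- the main element of case I in terms of cells -/
def tI (p e : Fin m → ℕ) (S : Finset (Fin m)) (pos : Fin m → Fin 3) (x y : Fin 3 → ℤ) : Eis :=
  tOne (qS p S) (term p e pos x 0) (term p e pos x 1) (term p e pos x 2)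
    (x 0 * x 1 * x 2) (y 1) (y 2)

theorem cellS0 (p e : Fin m → ℕ) (S : Finset (Fin m)) : cell p e (stdS S) 0 = 1 := by
  unfold cell stdS
  refine Finset.prod_eq_one (fun j _ => ?_)
  by_cases h : j ∈ S
  · rw [if_pos h, if_neg (by decide)]
  · rw [if_neg h, if_neg (by decide)]

theorem cellS1 (p e : Fin m → ℕ) (S : Finset (Fin m)) :
    cell p e (stdS S) 1 = ∏ j, if ¬ j ∈ S then (p j : ℤ) ^ e j else 1 := by
  unfold cell stdS
  refine Finset.prod_congr rfl (fun j _ => ?_)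
  by_cases h : j ∈ S
  · rw [if_pos h, if_neg (by decide), if_neg (not_not.mpr h)]
  · rw [if_neg h, if_pos rfl, if_pos h]

theorem cellS2 (p e : Fin m → ℕ) (S : Finset (Fin m)) : cell p e (stdS S) 2 = bS p e S := by
  unfold cell stdS bS
  refine Finset.prod_congr rfl (fun j _ => ?_)
  by_cases h : j ∈ S
  · rw [if_pos h, if_pos rfl, if_pos h]
  · rw [if_neg h, if_neg (by decide), if_neg h]

theorem cellS1_eq (b : BaseS p e e' S) : cell p e (stdS S) 1 = cell p e' (stdS S) 1 := by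
  rw [cellS1, cellS1]
  refine Finset.prod_congr rfl (fun j _ => ?_)
  have := b.rel j
  by_cases hS : j ∈ S
  · rw [if_neg (not_not.mpr hS), if_neg (not_not.mpr hS)]
  · rw [if_neg hS] at this
    rw [this]

theorem tI_at (b : BaseS p e e' S) (hP : IsPt p e pos x) (hP' : IsPt p e' (stdS S) y)
    {i : Fin m} (hi : i ∈ S) :
    (¬ (p i : Eis) ∣ tI p e S pos x y ∧
      sym (p i : Eis) (tI p e S pos x y) = ((pos i : ℕ) : ZMod 3) * sym (p i : Eis) w) ∧
      y 1 ≠ 0 ∧ res (term p e pos x 0) (term p e pos x 1) (term p e pos x 2) ≠ 0 := by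
  have he : e i ≠ 0 := by have := b.he i; omega
  have he' : e' i ≠ 0 := by have := b.he' i; omega
  have hx := sum3 hP.sum
  have h12 := hP'.cop 1 2 (by decide)
  rw [cellS2] at h12
  obtain ⟨h1, h2, h3, h4⟩ := caseI_at (w0 := x 0 * x 1 * x 2) (b.hp i) (b.h3 i)
    (Q := qS p S) (B' := bS p e' S)
    (dvd_prod_if (fun j => j ∈ S) hi one_ne_zero)
    (dvd_prod_if (fun j => j ∈ S) hi he')
    (X0 := term p e pos x 0) (X1 := term p e pos x 1) (X2 := term p e pos x 2) hx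
    (coprime_cube (hP.cop 0 1 (by decide)))
    (coprime_cube (hP.cop 0 2 (by decide))) h12
    (cast_pos (pos i) (fun k => (p i : ℤ) ∣ term p e pos x k)
      (Dvd.dvd.mul_right (dvd_prod_if (fun j => pos j = pos i) rfl he) _))
  exact ⟨⟨h1, h2⟩, h3, h4⟩

theorem tI_loc (b : BaseS p e e' S) (hS : S.Nonempty) (hP : IsPt p e pos x)
    (hP' : IsPt p e' (stdS S) y)
    {l : Eis} (hl : Prime l) (hl3 : ¬ l ∣ 3)
    (hno : ∀ j, ¬ l ∣ (p j : Eis)) (hbad : NonCube l (bS p e S)) :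
    3 ∣ V l (tI p e S pos x y) := by
  have hx := sum3 hP.sum
  have hy := sum3 hP'.sum
  have hprod := cell_prod p e pos
  have hprod' := cell_prod p e (stdS S)
  rw [cellS0, cellS2, one_mul] at hprod'
  have c0 := cellS0 p e' S
  have c1 := cellS1_eq b
  obtain ⟨i0, hi0⟩ := hS
  obtain ⟨-, hy0, hs0⟩ := tI_at b hP hP' hi0
  have k01 := hP'.cop 0 1 (by decide)
  have k02 := hP'.cop 0 2 (by decide)
  rw [c0, one_mul] at k01
  rw [c0, one_mul, cellS2] at k02
  rw [c0, cellS2] at hy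
  refine caseI_loc (B := bS p e S) (B' := bS p e' S) (C := cell p e' (stdS S) 1)
    (x := y 0) hl hl3 ?_ hbad b.bb hx ?_ (coprime_cube (hP.cop 0 1 (by decide))) ?_ k01 k02 hy0 hs0
  · intro h
    obtain ⟨j, hj⟩ := SPr.prod p (fun j => j ∈ S) (fun _ => 1) l hl h
    exact hno j hj
  · rw [← c1]
    have e1 : term p e pos x 0 * term p e pos x 1 * term p e pos x 2 =
      (cell p e pos 0 * cell p e pos 1 * cell p e pos 2) * (x 0 * x 1 * x 2) ^ 3 := by
      unfold term; ring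
    rw [e1, hprod, ← hprod']; ring
  · linear_combination hy

/-- case I -/
theorem caseI_S (b : BaseS p e e' S) (hS : S.Nonempty)
    (hP : IsPt p e pos x) (hP' : IsPt p e' (stdS S) y) :
    tI p e S pos x y ≠ 0 ∧ ∀ c : ZMod 3, Cls (tI p e S pos x y) c →
      ∑ i ∈ S, (e i : ZMod 3) * (((pos i : ℕ) : ZMod 3) * sym (p i : Eis) w) =
        c * ∑ i ∈ S, (e i : ZMod 3) * sym (p i : Eis) w := by
  have ht : tI p e S pos x y ≠ 0 := by
    obtain ⟨i, hi⟩ := hS
    intro h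
    have := (tI_at b hP hP' hi).1.1
    rw [h] at this
    exact this (dvd_zero _)
  refine ⟨ht, fun c hc => ?_⟩
  exact b.sum_of (f := fun i => ((pos i : ℕ) : ZMod 3)) ht (fun i hi => (tI_at b hP hP' hi).1) hc
    (fun _ hl hl3 hno hbad => tI_loc b hS hP hP' hl hl3 hno hbad)

/-! ### case III -/

theorem inertD_prodS (b : BaseS p e e' S) (c : Fin m → Prop) [DecidablePred c]
    (n : Fin m → ℕ) : InertD (∏ j, if c j then (p j : ℤ) ^ n j else 1) := by
  intro l hl _ h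
  obtain ⟨j, hj⟩ := SPr.prod p c n l hl h
  exact ⟨p j, b.hp j, b.h3 j, hl.associated_of_dvd (prime_inert (b.hp j) (b.h3 j)) hj⟩

theorem caseIII_S (b : BaseS p e e' S) {i0 i2 : Fin m} (hi0 : i0 ∈ S) (hi2 : i2 ∉ S)
    (hP : IsPt p e (stdS S) x) (hP' : IsPt p e' (stdS S) y) : False := by
  have hx := sum3 hP.sum
  have hy := sum3 hP'.sum
  have he0 : e i0 ≠ 0 := by have := b.he i0; omega
  have he0' : e' i0 ≠ 0 := by have := b.he' i0; omega
  have he2 : e i2 ≠ 0 := by have := b.he i2; omega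
  have c0 := cellS0 p e S
  have c0' := cellS0 p e' S
  have c1 := cellS1_eq b
  have k01 := hP.cop 0 1 (by decide)
  have k12 := hP.cop 1 2 (by decide)
  have k01' := hP'.cop 0 1 (by decide)
  have k12' := hP'.cop 1 2 (by decide)
  rw [c0, cellS2] at hx
  rw [c0', cellS2, ← c1] at hy
  rw [c0, one_mul] at k01
  rw [cellS2] at k12
  rw [c0', one_mul, ← c1] at k01'
  rw [cellS2, ← c1] at k12'
  refine caseIII_gen' (b.hp i0) (b.h3 i0) (b.hp i2) (b.h3 i2)
    (B := bS p e S) (B' := bS p e' S)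
    (C := cell p e (stdS S) 1) (Q := qS p S)
    b.bb (dvd_prod_if (fun j => j ∈ S) hi0 one_ne_zero)
    (dvd_prod_if (fun j => j ∈ S) hi0 he0)
    (dvd_prod_if (fun j => j ∈ S) hi0 he0') ?_ ?_ ?_
    (x := x 0) (y := x 1) (z := x 2) (x' := y 0) (y' := y 1) (z' := y 2)
    (by linear_combination hx) (by linear_combination hy) k01 k12 k01' k12' (hP.ne 2) (hP'.ne 2)
    (b.hw i0) (b.hw i2)
  · rw [cellS1]
    exact dvd_prod_if (fun j => ¬ j ∈ S) hi2 he2
  · rw [cellS1]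
    exact inertD_prodS b (fun j => ¬ j ∈ S) e
  · exact inertD_prodS b (fun j => j ∈ S) (fun _ => 1)

end Pool.Agent.CubeRank


end

section

/-!
# Classes at the prime above 3, a set `S` of exchanged primes
-/

set_option autoImplicit false

namespace Pool.Agent.CubeRank

open Pool.Agent.Lib_helper18 Pool.Agent.Lib_helper18.Eis Pool.Agent.Lib_helper84.Cub

variable {m : ℕ} {p e e' : Fin m → ℕ} {pos pos' : Fin m → Fin 3} {x y : Fin 3 → ℤ}
  {S : Finset (Fin m)}

/-- the class of the main element of case I -/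
theorem cls_tIS (h3 : ∀ k, ¬ (3 : ℤ) ∣ cell p e pos k) (hP : IsPt p e pos x) {o : Fin 3}
    (hI : PInfo p e pos x o) (hT : (3 : ℤ) ∣ x 0 * x 1 * x 2 ∨ (3 : ℤ) ∣ y 2)
    (hy : ¬ (3 : ℤ) ∣ y 1) : Cls (tI p e S pos x y) ((o : ℕ) : ZMod 3) := by
  have hsum : term p e pos x 0 + term p e pos x 1 + term p e pos x 2 = 0 := sum3 hP.sum
  have h9T : (9 : ℤ) ∣ 3 * (x 0 * x 1 * x 2) * (qS p S * y 2) := by
    rcases hT with ⟨u, hu⟩ | ⟨u, hu⟩
    · rw [hu]; exact ⟨u * (qS p S * y 2), by ring⟩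
    · rw [hu]; exact ⟨x 0 * x 1 * x 2 * (qS p S * u), by ring⟩
  have d9 : ∀ k, (3 : ℤ) ∣ x k → (9 : ℤ) ∣ term p e pos x k := by
    rintro k ⟨u, hu⟩
    refine ⟨cell p e pos k * (3 * u ^ 3), ?_⟩
    unfold term
    rw [hu]; ring
  have hX : ∀ k, ¬ (3 : ℤ) ∣ x k → ¬ (3 : ℤ) ∣ term p e pos x k := fun k hk =>
    ndvd_mul (h3 k) (fun h => hk (Int.prime_three.dvd_of_dvd_pow h))
  have hu := hI.unit
  have ho : o = 0 ∨ o = 1 ∨ o = 2 := by clear * -; revert o; decide
  unfold tI tOne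
  rcases hI.alt with h | ⟨-, h⟩
  · apply clsOne_div h9T hy hsum
    rcases ho with rfl | rfl | rfl
    · exact Or.inl ⟨d9 0 h, hX 1 (hu 1 (by decide)), by decide⟩
    · exact Or.inr (Or.inl ⟨d9 1 h, hX 0 (hu 0 (by decide)), by decide⟩)
    · exact Or.inr (Or.inr ⟨d9 2 h, hX 0 (hu 0 (by decide)), by decide⟩)
  · apply clsOne_non h9T hy hsum
    rcases ho with rfl | rfl | rfl
    · exact Or.inl ⟨h 1 2 (by decide) (by decide), hX 1 (hu 1 (by decide)), by decide⟩
    · exact Or.inr (Or.inl ⟨h 0 2 (by decide) (by decide), hX 0 (hu 0 (by decide)), by decide⟩)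
    · exact Or.inr (Or.inr ⟨h 0 1 (by decide) (by decide), hX 0 (hu 0 (by decide)), by decide⟩)

theorem BaseS.rd3 (b : BaseS p e e' S) (pos : Fin m → Fin 3) (k : Fin 3) :
    ¬ (3 : ℤ) ∣ rdP p S pos k := by
  unfold rdP
  intro h
  rw [Prime.dvd_finsetProd_iff Int.prime_three] at h
  obtain ⟨j, -, hj⟩ := h
  split_ifs at hj with hc
  · have h1 := b.h3 j
    rw [pow_one] at hj
    omega
  · omega

theorem tII_eqS (p : Fin m → ℕ) (S : Finset (Fin m)) (pos : Fin m → Fin 3) (x y : Fin 3 → ℤ) :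
    tII p S pos x y = w * ((rdP p S pos 1 * x 1 * y 0 : ℤ) : Eis) +
      (-(rdP p S pos 0 * x 0 * y 1) : ℤ) := tTwo_eq _ _ _ _ _ _

theorem cls_tII_zeroS (b : BaseS p e e' S) (h : (3 : ℤ) ∣ x 1 ∨ (3 : ℤ) ∣ y 0)
    (h0 : ¬ (3 : ℤ) ∣ x 0) (h1 : ¬ (3 : ℤ) ∣ y 1) : Cls (tII p S pos x y) 0 := by
  rw [tII_eqS]
  refine clsTwo_zero ?_ (ndvd_mul (ndvd_mul (b.rd3 pos 0) h0) h1)
  rcases h with h | h
  · exact Dvd.dvd.mul_right (Dvd.dvd.mul_left h _) _
  · exact Dvd.dvd.mul_left h _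

theorem cls_tII_oneS (b : BaseS p e e' S) (h : (3 : ℤ) ∣ x 0 ∨ (3 : ℤ) ∣ y 1)
    (h0 : ¬ (3 : ℤ) ∣ x 1) (h1 : ¬ (3 : ℤ) ∣ y 0) : Cls (tII p S pos x y) 1 := by
  rw [tII_eqS]
  refine clsTwo_one ?_ (ndvd_mul (ndvd_mul (b.rd3 pos 1) h0) h1)
  rcases h with h | h
  · exact Dvd.dvd.mul_right (Dvd.dvd.mul_left h _) _
  · exact Dvd.dvd.mul_left h _

theorem cls_tII_twoS (b : BaseS p e e' S) (hpos : Exch S pos pos')
    (hP : IsPt p e pos x) (hP' : IsPt p e' pos' y)
    (h3 : ∀ k, ¬ (3 : ℤ) ∣ cell p e pos k) (h3' : ∀ k, ¬ (3 : ℤ) ∣ cell p e' pos' k)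
    (hx0 : ¬ (3 : ℤ) ∣ x 0) (hx1 : ¬ (3 : ℤ) ∣ x 1) (hy0 : ¬ (3 : ℤ) ∣ y 0)
    (hy1 : ¬ (3 : ℤ) ∣ y 1) (hxy : (3 : ℤ) ∣ x 2 ∨ (3 : ℤ) ∣ y 2) :
    Cls (tII p S pos x y) 2 := by
  have hx := sum3 hP.sum
  have hy := sum3 hP'.sum
  have h1 := exch_h1 b hpos
  set X := rdP p S pos 1 * x 1 * y 0 with hX
  set Y := rdP p S pos 0 * x 0 * y 1 with hY
  have hXn : ¬ (3 : ℤ) ∣ X := ndvd_mul (ndvd_mul (b.rd3 pos 1) hx1) hy0
  have hYn : ¬ (3 : ℤ) ∣ Y := ndvd_mul (ndvd_mul (b.rd3 pos 0) hx0) hy1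
  have hid : cell p e' pos' 0 * cell p e pos 1 * (X ^ 3 - Y ^ 3) =
      rdP p S pos 1 ^ 3 * (cell p e pos 0 * cell p e' pos' 2 * (x 0 * y 2) ^ 3 -
        cell p e' pos' 0 * cell p e pos 2 * (x 2 * y 0) ^ 3) := by
    rw [hX, hY]
    linear_combination (x 0 * y 1) ^ 3 * h1 +
      rdP p S pos 1 ^ 3 * cell p e' pos' 0 * y 0 ^ 3 * hx -
      rdP p S pos 1 ^ 3 * cell p e pos 0 * x 0 ^ 3 * hy
  have c3 : ∀ {z : ℤ}, ¬ (3 : ℤ) ∣ z → ¬ (3 : ℤ) ∣ z ^ 3 := fun hz h =>
    hz (Int.prime_three.dvd_of_dvd_pow h)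
  -- if `X = Y` modulo 3 then both parts are divisible by 3
  have key : (3 : ℤ) ∣ X - Y → (3 : ℤ) ∣ x 2 ∧ (3 : ℤ) ∣ y 2 := by
    intro h
    have h4 : (3 : ℤ) ∣ cell p e' pos' 0 * cell p e pos 1 * (X ^ 3 - Y ^ 3) := by
      apply Dvd.dvd.mul_left
      exact h.trans (sub_dvd_pow_sub_pow X Y 3)
    rw [hid] at h4
    have h5 := (Int.prime_three.dvd_or_dvd h4).resolve_left
      (fun h => b.rd3 pos 1 (Int.prime_three.dvd_of_dvd_pow h))
    rcases hxy with hd | hd
    · refine ⟨hd, ?_⟩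
      by_contra hy2
      have h6 : (3 : ℤ) ∣ cell p e' pos' 0 * cell p e pos 2 * (x 2 * y 0) ^ 3 :=
        Dvd.dvd.mul_left (Dvd.dvd.pow (Dvd.dvd.mul_right hd _) (by norm_num)) _
      have h7 := dvd_add h5 h6
      rw [sub_add_cancel] at h7
      exact ndvd_mul (ndvd_mul (h3 0) (h3' 2)) (c3 (ndvd_mul hx0 hy2)) h7
    · refine ⟨?_, hd⟩
      by_contra hx2
      have h6 : (3 : ℤ) ∣ cell p e pos 0 * cell p e' pos' 2 * (x 0 * y 2) ^ 3 :=
        Dvd.dvd.mul_left (Dvd.dvd.pow (Dvd.dvd.mul_left hd _) (by norm_num)) _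
      have h7 := dvd_sub h6 h5
      rw [sub_sub_cancel] at h7
      exact ndvd_mul (ndvd_mul (h3' 0) (h3 2)) (c3 (ndvd_mul hx2 hy0)) h7
  rw [tII_eqS]
  by_cases hXY : (3 : ℤ) ∣ X - Y
  · obtain ⟨⟨v, hv⟩, ⟨u, hu⟩⟩ := key hXY
    refine clsTwo_two' hXn ?_
    apply cube_congr hXn
    have h27 : (3 : ℤ) ^ 3 ∣ (cell p e' pos' 0 * cell p e pos 1) * (X ^ 3 - Y ^ 3) := by
      rw [hid, hu, hv]
      exact ⟨rdP p S pos 1 ^ 3 * (cell p e pos 0 * cell p e' pos' 2 * (x 0 * u) ^ 3 -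
        cell p e' pos' 0 * cell p e pos 2 * (v * y 0) ^ 3), by ring⟩
    have := Int.prime_three.pow_dvd_of_dvd_mul_left 3 (ndvd_mul (h3' 0) (h3 1)) h27
    norm_num at this
    exact this
  · exact clsTwo_two hXn (dvd_add_of hXn hYn hXY)

/-! ### weights -/

theorem exc_aux : ∀ a b c : ZMod 3, ∀ o : Fin 3, OO ![a, b, c] o →
    b + 2 * c = ((o : ℕ) : ZMod 3) * (a + b + c) := by decide

theorem sum_cells (f : Fin m → ZMod 3) (pos : Fin m → Fin 3) :
    ∑ i, f i * ((pos i : ℕ) : ZMod 3) =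
      (∑ i, if pos i = 1 then f i else 0) + 2 * ∑ i, if pos i = 2 then f i else 0 := by
  rw [Finset.mul_sum, ← Finset.sum_add_distrib]
  refine Finset.sum_congr rfl (fun i _ => ?_)
  have h3 : pos i = 0 ∨ pos i = 1 ∨ pos i = 2 := by
    generalize pos i = k; revert k; decide
  rcases h3 with h | h | h <;> simp [h]
  ring

theorem sum_cells' (f : Fin m → ZMod 3) (pos : Fin m → Fin 3) :
    ∑ i, f i = (∑ i, if pos i = 0 then f i else 0) + (∑ i, if pos i = 1 then f i else 0) +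
      ∑ i, if pos i = 2 then f i else 0 := by
  rw [← Finset.sum_add_distrib, ← Finset.sum_add_distrib]
  refine Finset.sum_congr rfl (fun i _ => ?_)
  have h3 : pos i = 0 ∨ pos i = 1 ∨ pos i = 2 := by
    generalize pos i = k; revert k; decide
  rcases h3 with h | h | h <;> simp [h]

/-- the exceptional cell is given by a linear form -/
theorem exc_eq (h9 : ∀ i, p i % 9 = 2 ∨ p i % 9 = 5) {o : Fin 3}
    (h : OO (fun k => wq (cell p e pos k)) o) :
    ∑ i, sw p e i * ((pos i : ℕ) : ZMod 3) = ((o : ℕ) : ZMod 3) * tw p e := by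
  have e1 : (fun k => wq (cell p e pos k)) =
      ![∑ i, (if pos i = 0 then sw p e i else 0), ∑ i, (if pos i = 1 then sw p e i else 0),
        ∑ i, (if pos i = 2 then sw p e i else 0)] := by
    ext k
    fin_cases k <;> exact wq_cell h9 pos _
  rw [e1] at h
  rw [sum_cells, tw, sum_cells' (sw p e) pos]
  exact exc_aux _ _ _ _ h

theorem cell_three' (h9 : ∀ i, p i % 9 = 2 ∨ p i % 9 = 5) (pos : Fin m → Fin 3) (k : Fin 3) :
    ¬ (3 : ℤ) ∣ cell p e pos k := by
  intro h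
  rw [cell, Prime.dvd_finsetProd_iff Int.prime_three] at h
  obtain ⟨j, -, hj⟩ := h
  split_ifs at hj
  · exact not_three_dvd (h9 j) (Int.prime_three.dvd_of_dvd_pow hj)
  · omega

/-- 3-adic information in terms of the total weight -/
theorem info (h9 : ∀ i, p i % 9 = 2 ∨ p i % 9 = 5) (hP : IsPt p e pos x) :
    ∃ o, PInfo p e pos x o ∧
      ∑ i, sw p e i * ((pos i : ℕ) : ZMod 3) = ((o : ℕ) : ZMod 3) * tw p e ∧
      (tw p e = 1 → (3 : ℤ) ∣ x o) := by
  obtain ⟨o, ho⟩ := pt_info (cell_three' h9 pos) hP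
  refine ⟨o, ho, exc_eq h9 ho.out, fun h => ho.div ?_⟩
  rw [wq_all h9]; exact h

end Pool.Agent.CubeRank


end

section

/-!
# The three cases in terms of cells, a set `S` of exchanged primes
-/

set_option autoImplicit false

namespace Pool.Agent.CubeRank

open Pool.Agent.Lib_helper18 Pool.Agent.Lib_helper18.Eis Pool.Agent.Lib_helper84.Cub

variable {m : ℕ} {p e e' : Fin m → ℕ} {pos pos' : Fin m → Fin 3} {x y : Fin 3 → ℤ}
  {S : Finset (Fin m)}

/-- data used in all cases -/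
structure BaseT (p e e' : Fin m → ℕ) (S : Finset (Fin m)) : Prop where
  hp : ∀ i, (p i).Prime
  h3 : ∀ i, p i % 3 = 2 ∨ p i = 3
  inj : Function.Injective p
  he : ∀ i, e i = 1 ∨ e i = 2
  he' : ∀ i, e' i = 1 ∨ e' i = 2
  nS : ∀ i ∈ S, p i ≠ 3
  rel : ∀ j, if j ∈ S then e j + e' j = 3 else e j = e' j

theorem BaseT.sp3 (b : BaseT p e e' S) {i : Fin m} (hi : i ∈ S) : p i % 3 = 2 :=
  (b.h3 i).resolve_right (b.nS i hi)

theorem BaseT.bb (b : BaseT p e e' S) : bS p e S * bS p e' S = qS p S ^ 3 := by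
  unfold bS qS
  rw [← Finset.prod_mul_distrib, ← Finset.prod_pow]
  refine Finset.prod_congr rfl (fun j _ => ?_)
  have hr := b.rel j
  split_ifs at hr ⊢ with hS
  · rw [← pow_add, hr]; ring
  · ring

/-- nonresidues -/
theorem BaseT.nonCube (_b : BaseT p e e' S) {l : Eis} (hl : Prime l) (hl3 : ¬ l ∣ 3)
    (hno : ∀ j, ¬ l ∣ (p j : Eis))
    (h : ∑ i ∈ S, (e i : ZMod 3) * sym l (p i : Eis) ≠ 0) : NonCube l (bS p e S) := by
  have e1 : ((bS p e S : ℤ) : Eis) = ∏ j ∈ S, (p j : Eis) ^ e j := by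
    unfold bS
    push_cast
    rw [← Finset.prod_filter]
    simp
  obtain ⟨h1, h2⟩ := sym_prod hl hl3 e S hno
  apply nonCube_of_sym hl hl3
  · rw [e1]; exact h1
  · rw [e1, h2]; exact h

/-- primes dividing some `p j` are harmless -/
theorem BaseT.good (b : BaseT p e e' S) {l : Eis} (hl : Prime l) (hl3 : ¬ l ∣ 3)
    {j : Fin m} (hj : l ∣ (p j : Eis)) {i : Fin m} (hi : ¬ l ∣ (p i : Eis)) :
    sym l (p i : Eis) = 0 := by
  rcases b.h3 j with h | h
  · have hass := hl.associated_of_dvd (prime_inert (b.hp j) h) hj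
    have h1 : ¬ p j ∣ p i := fun h => hi (hass.dvd.trans (Nat.cast_dvd_cast h))
    rw [sym_associated hass, sym_nat (b.hp j) h h1]
  · rw [h] at hj
    exact absurd (by exact_mod_cast hj) hl3

/-- the product formula for the exchanged primes -/
theorem BaseT.sum_of (b : BaseT p e e' S) {t : Eis} {f : Fin m → ZMod 3} {c : ZMod 3}
    (ht : t ≠ 0)
    (h0 : ∀ i ∈ S, ¬ (p i : Eis) ∣ t ∧ sym (p i : Eis) t = f i * sym (p i : Eis) w)
    (hc : Cls t c)
    (hloc : ∀ l : Eis, Prime l → ¬ l ∣ 3 → (∀ j, ¬ l ∣ (p j : Eis)) → NonCube l (bS p e S) →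
      3 ∣ V l t) :
    ∑ i ∈ S, (e i : ZMod 3) * (f i * sym (p i : Eis) w) =
      c * ∑ i ∈ S, (e i : ZMod 3) * sym (p i : Eis) w := by
  have h1 := lemmaSG S (fun i _ => b.hp i) (fun i hi => b.sp3 hi) (fun i => (e i : ZMod 3)) ht
    (fun i hi => (h0 i hi).1) hc (by
    intro l hl hl3 hlt
    have hlq : ∀ i ∈ S, ¬ l ∣ (p i : Eis) := fun i hi h => (h0 i hi).1
      ((hl.associated_of_dvd (prime_inert (b.hp i) (b.sp3 hi)) h).symm.dvd.trans hlt)
    by_cases hno : ∃ j, l ∣ (p j : Eis)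
    · left
      obtain ⟨j, hj⟩ := hno
      refine Finset.sum_eq_zero (fun i hi => ?_)
      rw [b.good hl hl3 hj (hlq i hi), mul_zero]
    push Not at hno
    by_cases hgood : ∑ i ∈ S, (e i : ZMod 3) * sym l (p i : Eis) = 0
    · exact Or.inl hgood
    · exact Or.inr (hloc l hl hl3 hno (b.nonCube hl hl3 hno hgood)))
  rw [← h1]
  exact Finset.sum_congr rfl (fun i hi => by rw [(h0 i hi).2])

/-! ### case II -/

theorem exch_h1G (b : BaseT p e e' S) (hpos : Exch S pos pos') :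
    cell p e pos 0 * cell p e' pos' 1 * rdP p S pos 1 ^ 3 =
      cell p e' pos' 0 * cell p e pos 1 * rdP p S pos 0 ^ 3 := by
  unfold rdP
  simp only [cell, ← Finset.prod_mul_distrib, ← Finset.prod_pow]
  refine Finset.prod_congr rfl (fun j _ => ?_)
  have hj := hpos j
  have hr := b.rel j
  have hej := b.he j
  have h3 : pos j = 0 ∨ pos j = 1 ∨ pos j = 2 := by
    generalize pos j = k; revert k; decide
  split_ifs at hj hr with hS
  · have hee : (e j = 1 ∧ e' j = 2) ∨ (e j = 2 ∧ e' j = 1) := by omega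
    rcases h3 with h3 | h3 | h3 <;> rcases hee with ⟨he, h9⟩ | ⟨he, h9⟩ <;> rw [h3] at hj <;>
      simp [hj, h3, hS, he, h9, tau] <;> ring
  · rcases h3 with h3 | h3 | h3 <;> rw [h3] at hj <;> simp [hj, h3, hS, hr]

theorem tII_atG (b : BaseT p e e' S) (hP : IsPt p e pos x) (hP' : IsPt p e' pos' y)
    (hpos : Exch S pos pos') {i : Fin m} (hi : i ∈ S) :
    ¬ (p i : Eis) ∣ tII p S pos x y ∧
      sym (p i : Eis) (tII p S pos x y) = fpos (pos i) * sym (p i : Eis) w := by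
  have he0 : e i ≠ 0 := by have := b.he i; omega
  have he0' : e' i ≠ 0 := by have := b.he' i; omega
  have hp' := hpos i
  rw [if_pos hi] at hp'
  have hx := sum3 hP.sum
  have hy := sum3 hP'.sum
  have key : ((p i : ℤ) ∣ cell p e pos 2 ∧ (p i : ℤ) ∣ cell p e' pos' 2 ∧
        ¬ (p i : ℤ) ∣ rdP p S pos 1 ∧ fpos (pos i) = 2 ∨
      (p i : ℤ) ∣ cell p e pos 0 ∧ (p i : ℤ) ∣ cell p e' pos' 1 ∧
        (p i : ℤ) ∣ rdP p S pos 0 ∧ ¬ (p i : ℤ) ∣ rdP p S pos 1 ∧ fpos (pos i) = 1 ∨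
      (p i : ℤ) ∣ cell p e pos 1 ∧ (p i : ℤ) ∣ cell p e' pos' 0 ∧
        (p i : ℤ) ∣ rdP p S pos 1 ∧ ¬ (p i : ℤ) ∣ rdP p S pos 0 ∧
        fpos (pos i) = 0) := by
    have h3 : pos i = 0 ∨ pos i = 1 ∨ pos i = 2 := by
      generalize pos i = k; revert k; decide
    rcases h3 with h3 | h3 | h3
    · right; left
      rw [h3] at hp' ⊢
      exact ⟨dvd_prod_if (fun j => pos j = 0) h3 he0,
        dvd_prod_if (fun j => pos' j = 1) hp' he0',
        dvd_prod_if (fun j => j ∈ S ∧ pos j = 0) ⟨hi, h3⟩ one_ne_zero,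
        not_dvd_prod_if b.hp b.inj (fun j => j ∈ S ∧ pos j = 1)
          (fun h => by have := h.2; rw [h3] at this; exact absurd this (by decide)), rfl⟩
    · right; right
      rw [h3] at hp' ⊢
      exact ⟨dvd_prod_if (fun j => pos j = 1) h3 he0,
        dvd_prod_if (fun j => pos' j = 0) hp' he0',
        dvd_prod_if (fun j => j ∈ S ∧ pos j = 1) ⟨hi, h3⟩ one_ne_zero,
        not_dvd_prod_if b.hp b.inj (fun j => j ∈ S ∧ pos j = 0)
          (fun h => by have := h.2; rw [h3] at this; exact absurd this (by decide)), rfl⟩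
    · left
      rw [h3] at hp' ⊢
      exact ⟨dvd_prod_if (fun j => pos j = 2) h3 he0,
        dvd_prod_if (fun j => pos' j = 2) hp' he0',
        not_dvd_prod_if b.hp b.inj (fun j => j ∈ S ∧ pos j = 1)
          (fun h => by have := h.2; rw [h3] at this; exact absurd this (by decide)), rfl⟩
  exact caseII_one (b.hp i) (b.sp3 hi) hx (hP.cop 0 1 (by decide)) (hP.cop 1 2 (by decide)) hy
    (hP'.cop 0 1 (by decide)) (hP'.cop 0 2 (by decide)) (exch_h1G b hpos) key

theorem tII_locG (b : BaseT p e e' S) (hP : IsPt p e pos x) (hP' : IsPt p e' pos' y)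
    (hpos : Exch S pos pos') {l : Eis} (hl : Prime l) (hl3 : ¬ l ∣ 3)
    (hno : ∀ j, ¬ l ∣ (p j : Eis)) (hbad : NonCube l (bS p e S)) :
    3 ∣ V l (tII p S pos x y) := by
  have hx := sum3 hP.sum
  have hy := sum3 hP'.sum
  refine caseII_loc hl hl3
    (k := ∏ j, if j ∈ S ∧ (pos j = 1 ∨ pos j = 2 ∧ e j = 2) then (p j : ℤ) ^ 1 else 1)
    (m := ∏ j, if j ∈ S ∧ (pos j = 0 ∨ pos j = 2 ∧ e j = 2) then (p j : ℤ) ^ 1 else 1)
    hbad hx (hP.cop 0 1 (by decide)) hy (hP'.cop 0 1 (by decide))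
    (hP'.cop 0 2 (by decide)) (hP'.cop 1 2 (by decide)) (exch_h1G b hpos) ?_ ?_ ?_
    ⟨hP.ne 0, hP'.ne 2⟩
  · -- h2
    unfold bS
    simp only [cell, ← Finset.prod_mul_distrib, ← Finset.prod_pow]
    refine Finset.prod_congr rfl (fun j _ => ?_)
    have hj := hpos j
    have hr := b.rel j
    have hej := b.he j
    have h3 : pos j = 0 ∨ pos j = 1 ∨ pos j = 2 := by
      generalize pos j = k; revert k; decide
    split_ifs at hj hr with hS
    · have hee : (e j = 1 ∧ e' j = 2) ∨ (e j = 2 ∧ e' j = 1) := by omega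
      rcases h3 with h3 | h3 | h3 <;> rcases hee with ⟨he, h9⟩ | ⟨he, h9⟩ <;> rw [h3] at hj <;>
        simp [hj, h3, hS, he, h9, tau] <;> ring
    · rcases h3 with h3 | h3 | h3 <;> rw [h3] at hj <;> simp [hj, h3, hS, hr]
  · -- h3
    unfold bS
    simp only [cell, ← Finset.prod_mul_distrib, ← Finset.prod_pow]
    refine Finset.prod_congr rfl (fun j _ => ?_)
    have hj := hpos j
    have hr := b.rel j
    have hej := b.he j
    have h3 : pos j = 0 ∨ pos j = 1 ∨ pos j = 2 := by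
      generalize pos j = k; revert k; decide
    split_ifs at hj hr with hS
    · have hee : (e j = 1 ∧ e' j = 2) ∨ (e j = 2 ∧ e' j = 1) := by omega
      rcases h3 with h3 | h3 | h3 <;> rcases hee with ⟨he, h9⟩ | ⟨he, h9⟩ <;> rw [h3] at hj <;>
        simp [hj, h3, hS, he, h9, tau] <;> ring
    · rcases h3 with h3 | h3 | h3 <;> rw [h3] at hj <;> simp [hj, h3, hS, hr]
  · -- units
    intro hdvd
    have hS : SPr p (cell p e' pos' 0 * cell p e' pos' 1 * cell p e pos 1 * cell p e pos 2 *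
      rdP p S pos 1 * rdP p S pos 0 *
      (∏ j, if j ∈ S ∧ (pos j = 1 ∨ pos j = 2 ∧ e j = 2) then (p j : ℤ) ^ 1 else 1) *
      (∏ j, if j ∈ S ∧ (pos j = 0 ∨ pos j = 2 ∧ e j = 2) then (p j : ℤ) ^ 1 else 1)) := by
      refine SPr.mul (SPr.mul (SPr.mul (SPr.mul (SPr.mul (SPr.mul (SPr.mul ?_ ?_) ?_) ?_)
        ?_) ?_) ?_) ?_
      · exact SPr.prod p (fun j => pos' j = 0) e'
      · exact SPr.prod p (fun j => pos' j = 1) e'
      · exact SPr.prod p (fun j => pos j = 1) e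
      · exact SPr.prod p (fun j => pos j = 2) e
      · exact SPr.prod p (fun j => j ∈ S ∧ pos j = 1) (fun _ => 1)
      · exact SPr.prod p (fun j => j ∈ S ∧ pos j = 0) (fun _ => 1)
      · exact SPr.prod p (fun j => j ∈ S ∧ (pos j = 1 ∨ pos j = 2 ∧ e j = 2)) (fun _ => 1)
      · exact SPr.prod p (fun j => j ∈ S ∧ (pos j = 0 ∨ pos j = 2 ∧ e j = 2)) (fun _ => 1)
    obtain ⟨j, hj⟩ := hS l hl hdvd
    exact hno j hj

/-- case II -/
theorem caseII_G (b : BaseT p e e' S) (hS : S.Nonempty)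
    (hP : IsPt p e pos x) (hP' : IsPt p e' pos' y) (hpos : Exch S pos pos') :
    tII p S pos x y ≠ 0 ∧ ∀ c : ZMod 3, Cls (tII p S pos x y) c →
      ∑ i ∈ S, (e i : ZMod 3) * (fpos (pos i) * sym (p i : Eis) w) =
        c * ∑ i ∈ S, (e i : ZMod 3) * sym (p i : Eis) w := by
  have ht : tII p S pos x y ≠ 0 := by
    obtain ⟨i, hi⟩ := hS
    intro h
    have := (tII_atG b hP hP' hpos hi).1
    rw [h] at this
    exact this (dvd_zero _)
  refine ⟨ht, fun c hc => ?_⟩
  exact b.sum_of (f := fun i => fpos (pos i)) ht (fun i hi => tII_atG b hP hP' hpos hi) hc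
    (fun _ hl hl3 hno hbad => tII_locG b hP hP' hpos hl hl3 hno hbad)

/-! ### case I -/

theorem cellS1_eqG (b : BaseT p e e' S) : cell p e (stdS S) 1 = cell p e' (stdS S) 1 := by
  rw [cellS1, cellS1]
  refine Finset.prod_congr rfl (fun j _ => ?_)
  have := b.rel j
  by_cases hS : j ∈ S
  · rw [if_neg (not_not.mpr hS), if_neg (not_not.mpr hS)]
  · rw [if_neg hS] at this
    rw [this]

theorem tI_atG (b : BaseT p e e' S) (hP : IsPt p e pos x) (hP' : IsPt p e' (stdS S) y)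
    {i : Fin m} (hi : i ∈ S) :
    (¬ (p i : Eis) ∣ tI p e S pos x y ∧
      sym (p i : Eis) (tI p e S pos x y) = ((pos i : ℕ) : ZMod 3) * sym (p i : Eis) w) ∧
      y 1 ≠ 0 ∧ res (term p e pos x 0) (term p e pos x 1) (term p e pos x 2) ≠ 0 := by
  have he : e i ≠ 0 := by have := b.he i; omega
  have he' : e' i ≠ 0 := by have := b.he' i; omega
  have hx := sum3 hP.sum
  have h12 := hP'.cop 1 2 (by decide)
  rw [cellS2] at h12
  obtain ⟨h1, h2, h3, h4⟩ := caseI_at (w0 := x 0 * x 1 * x 2) (b.hp i) (b.sp3 hi)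
    (Q := qS p S) (B' := bS p e' S)
    (dvd_prod_if (fun j => j ∈ S) hi one_ne_zero)
    (dvd_prod_if (fun j => j ∈ S) hi he')
    (X0 := term p e pos x 0) (X1 := term p e pos x 1) (X2 := term p e pos x 2) hx
    (coprime_cube (hP.cop 0 1 (by decide)))
    (coprime_cube (hP.cop 0 2 (by decide))) h12
    (cast_pos (pos i) (fun k => (p i : ℤ) ∣ term p e pos x k)
      (Dvd.dvd.mul_right (dvd_prod_if (fun j => pos j = pos i) rfl he) _))
  exact ⟨⟨h1, h2⟩, h3, h4⟩

theorem tI_locG (b : BaseT p e e' S) (hS : S.Nonempty) (hP : IsPt p e pos x)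
    (hP' : IsPt p e' (stdS S) y)
    {l : Eis} (hl : Prime l) (hl3 : ¬ l ∣ 3)
    (hno : ∀ j, ¬ l ∣ (p j : Eis)) (hbad : NonCube l (bS p e S)) :
    3 ∣ V l (tI p e S pos x y) := by
  have hx := sum3 hP.sum
  have hy := sum3 hP'.sum
  have hprod := cell_prod p e pos
  have hprod' := cell_prod p e (stdS S)
  rw [cellS0, cellS2, one_mul] at hprod'
  have c0 := cellS0 p e' S
  have c1 := cellS1_eqG b
  obtain ⟨i0, hi0⟩ := hS
  obtain ⟨-, hy0, hs0⟩ := tI_atG b hP hP' hi0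
  have k01 := hP'.cop 0 1 (by decide)
  have k02 := hP'.cop 0 2 (by decide)
  rw [c0, one_mul] at k01
  rw [c0, one_mul, cellS2] at k02
  rw [c0, cellS2] at hy
  refine caseI_loc (B := bS p e S) (B' := bS p e' S) (C := cell p e' (stdS S) 1)
    (x := y 0) hl hl3 ?_ hbad b.bb hx ?_ (coprime_cube (hP.cop 0 1 (by decide))) ?_ k01 k02 hy0 hs0
  · intro h
    obtain ⟨j, hj⟩ := SPr.prod p (fun j => j ∈ S) (fun _ => 1) l hl h
    exact hno j hj
  · rw [← c1]
    have e1 : term p e pos x 0 * term p e pos x 1 * term p e pos x 2 =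
      (cell p e pos 0 * cell p e pos 1 * cell p e pos 2) * (x 0 * x 1 * x 2) ^ 3 := by
      unfold term; ring
    rw [e1, hprod, ← hprod']; ring
  · linear_combination hy

/-- case I -/
theorem caseI_G (b : BaseT p e e' S) (hS : S.Nonempty)
    (hP : IsPt p e pos x) (hP' : IsPt p e' (stdS S) y) :
    tI p e S pos x y ≠ 0 ∧ ∀ c : ZMod 3, Cls (tI p e S pos x y) c →
      ∑ i ∈ S, (e i : ZMod 3) * (((pos i : ℕ) : ZMod 3) * sym (p i : Eis) w) =
        c * ∑ i ∈ S, (e i : ZMod 3) * sym (p i : Eis) w := by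
  have ht : tI p e S pos x y ≠ 0 := by
    obtain ⟨i, hi⟩ := hS
    intro h
    have := (tI_atG b hP hP' hi).1.1
    rw [h] at this
    exact this (dvd_zero _)
  refine ⟨ht, fun c hc => ?_⟩
  exact b.sum_of (f := fun i => ((pos i : ℕ) : ZMod 3)) ht (fun i hi => (tI_atG b hP hP' hi).1) hc
    (fun _ hl hl3 hno hbad => tI_locG b hS hP hP' hl hl3 hno hbad)

/-! ### case III -/

theorem inertD_prodG (b : BaseT p e e' S) (c : Fin m → Prop) [DecidablePred c]
    (n : Fin m → ℕ) : InertD (∏ j, if c j then (p j : ℤ) ^ n j else 1) := by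
  intro l hl hl3 h
  obtain ⟨j, hj⟩ := SPr.prod p c n l hl h
  rcases b.h3 j with h | h
  · exact ⟨p j, b.hp j, h, hl.associated_of_dvd (prime_inert (b.hp j) h) hj⟩
  · rw [h] at hj
    exact absurd (by exact_mod_cast hj) hl3

theorem caseIII_G (b : BaseT p e e' S) {i0 i2 : Fin m} (hi0 : i0 ∈ S) (hi2 : i2 ∉ S)
    (h2 : p i2 % 3 = 2) (hw0 : sym (p i0 : Eis) w ≠ 0) (hw2 : sym (p i2 : Eis) w ≠ 0)
    (hP : IsPt p e (stdS S) x) (hP' : IsPt p e' (stdS S) y) : False := by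
  have hx := sum3 hP.sum
  have hy := sum3 hP'.sum
  have he0 : e i0 ≠ 0 := by have := b.he i0; omega
  have he0' : e' i0 ≠ 0 := by have := b.he' i0; omega
  have he2 : e i2 ≠ 0 := by have := b.he i2; omega
  have c0 := cellS0 p e S
  have c0' := cellS0 p e' S
  have c1 := cellS1_eqG b
  have k01 := hP.cop 0 1 (by decide)
  have k12 := hP.cop 1 2 (by decide)
  have k01' := hP'.cop 0 1 (by decide)
  have k12' := hP'.cop 1 2 (by decide)
  rw [c0, cellS2] at hx
  rw [c0', cellS2, ← c1] at hy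
  rw [c0, one_mul] at k01
  rw [cellS2] at k12
  rw [c0', one_mul, ← c1] at k01'
  rw [cellS2, ← c1] at k12'
  refine caseIII_gen' (b.hp i0) (b.sp3 hi0) (b.hp i2) h2
    (B := bS p e S) (B' := bS p e' S)
    (C := cell p e (stdS S) 1) (Q := qS p S)
    b.bb (dvd_prod_if (fun j => j ∈ S) hi0 one_ne_zero)
    (dvd_prod_if (fun j => j ∈ S) hi0 he0)
    (dvd_prod_if (fun j => j ∈ S) hi0 he0') ?_ ?_ ?_
    (x := x 0) (y := x 1) (z := x 2) (x' := y 0) (y' := y 1) (z' := y 2)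
    (by linear_combination hx) (by linear_combination hy) k01 k12 k01' k12' (hP.ne 2) (hP'.ne 2)
    hw0 hw2
  · rw [cellS1]
    exact dvd_prod_if (fun j => ¬ j ∈ S) hi2 he2
  · rw [cellS1]
    exact inertD_prodG b (fun j => ¬ j ∈ S) e
  · exact inertD_prodG b (fun j => j ∈ S) (fun _ => 1)

end Pool.Agent.CubeRank


end

section

/-!
# Classes at the prime above 3, when 3 divides `A` exactly once
-/

namespace Pool.Agent.Lib_helper84.Cub

open Pool.Agent.Lib_helper18 Pool.Agent.Lib_helper18.Eis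

/-- residues modulo 3 -/
theorem z3_ne {n : ℤ} : (n : ZMod 3) ≠ 0 ↔ ¬ (3 : ℤ) ∣ n := by
  rw [Ne, ZMod.intCast_zmod_eq_zero_iff_dvd]; rfl

theorem z3_eq {n : ℤ} : (n : ZMod 3) = 0 ↔ (3 : ℤ) ∣ n := by
  rw [ZMod.intCast_zmod_eq_zero_iff_dvd]; rfl

theorem z3_mod {n : ℤ} : (n : ZMod 3) = ((n % 3 : ℤ) : ZMod 3) := by
  rw [ZMod.intCast_eq_intCast_iff']; simp

/-- the basic relation modulo 9 -/
theorem wq_diff {U V D : ℤ} (hU : ¬ (3 : ℤ) ∣ U) (hV : ¬ (3 : ℤ) ∣ V) (h : U + V + 3 * D = 0) :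
    (D : ZMod 3) = (U : ZMod 3) * (wq V - wq U) := by
  have h1 : U % 9 = 1 ∨ U % 9 = 2 ∨ U % 9 = 4 ∨ U % 9 = 5 ∨ U % 9 = 7 ∨ U % 9 = 8 := by omega
  have h2 : V % 9 = 1 ∨ V % 9 = 2 ∨ V % 9 = 4 ∨ V % 9 = 5 ∨ V % 9 = 7 ∨ V % 9 = 8 := by omega
  have h3 : D % 3 = (-((U % 9 + V % 9) / 3)) % 3 := by omega
  have h4 : (U % 9 + V % 9) % 3 = 0 := by omega
  have h5 : U % 3 = (U % 9) % 3 := by omega
  rw [z3_mod (n := D), z3_mod (n := U), h3, h5]
  unfold wq
  rcases h1 with h1 | h1 | h1 | h1 | h1 | h1 <;> rcases h2 with h2 | h2 | h2 | h2 | h2 | h2 <;>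
    rw [h1, h2] at h4 ⊢ <;> revert h4 <;> decide

theorem wq_neg (n : ℤ) : wq (-n) = wq n := wq_of_add (by simp)

theorem z3_cube (a : ZMod 3) : a ^ 3 = a := by revert a; decide

section caseTwo

variable {N0 N1 N2 N0' N1' N2' X Y : ℤ}

/-- 3 in the last cell -/
theorem clsII_2 (h0 : ¬ (3 : ℤ) ∣ N0) (h1 : ¬ (3 : ℤ) ∣ N1) (h0' : ¬ (3 : ℤ) ∣ N0')
    (h1' : ¬ (3 : ℤ) ∣ N1') (hX : ¬ (3 : ℤ) ∣ X)
    (h2 : (3 : ℤ) ∣ N2 → (9 : ℤ) ∣ N2) (h2' : (3 : ℤ) ∣ N2' → (9 : ℤ) ∣ N2')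
    (hs : N0 + N1 + 3 * N2 = 0) (hs' : N0' + N1' + 3 * N2' = 0)
    (hd : wq N0 - wq N1 = wq N0' - wq N1')
    (rel : X ^ 3 * (N0 * N1') = Y ^ 3 * (N1 * N0')) {s : ℤ}
    (hss : (s : ZMod 3) = -(wq N0 - wq N1) * (wq N2 - wq N2' + wq N0' - wq N0)) :
    Cls (w * X + (-Y : ℤ)) (-1 - (s : ZMod 3)) := by
  -- D Y0 - X0 D' = 3 r with r = s X0 Y0 modulo 3
  have hD := wq_diff h0 h1 hs
  have hD' := wq_diff h0' h1' hs'
  have hN0 := z3_ne.mpr h0
  have hN0' := z3_ne.mpr h0'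
  obtain ⟨r, hr, hr3⟩ : ∃ r : ℤ, N2 * N0' - N0 * N2' = 3 * r ∧
      (r : ZMod 3) = (s : ZMod 3) * (N0 * N0') := by
    by_cases hz : wq N0 - wq N1 = 0
    · have e1 : (3 : ℤ) ∣ N2 := by
        rw [← z3_eq, hD]; linear_combination (-(N0 : ZMod 3)) * hz
      have e2 : (3 : ℤ) ∣ N2' := by
        rw [← z3_eq, hD']
        linear_combination (-(N0' : ZMod 3)) * hz + (N0' : ZMod 3) * hd
      obtain ⟨u, hu⟩ := h2 e1
      obtain ⟨v, hv⟩ := h2' e2
      refine ⟨3 * (u * N0' - N0 * v), by rw [hu, hv]; ring, ?_⟩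
      rw [hss, hz]; push_cast; rw [three_zmod]; ring
    · have n2 : ¬ (3 : ℤ) ∣ N2 := by
        rw [← z3_ne, hD]
        refine mul_ne_zero hN0 ?_
        rw [← neg_ne_zero, neg_sub]; exact hz
      have n2' : ¬ (3 : ℤ) ∣ N2' := by
        rw [← z3_ne, hD']
        refine mul_ne_zero hN0' ?_
        rw [← neg_ne_zero, neg_sub, ← hd]; exact hz
      have e3 : (3 : ℤ) ∣ N2 * N0' - N0 * N2' := by
        rw [← z3_eq]; push_cast; rw [hD, hD']
        linear_combination (-(N0 : ZMod 3) * N0') * hd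
      obtain ⟨r, hr⟩ := e3
      refine ⟨r, hr, ?_⟩
      have n3 : ¬ (3 : ℤ) ∣ -(N0 * N2') := by rw [dvd_neg]; exact ndvd_mul h0 n2'
      have h4 := wq_diff (U := N2 * N0') (V := -(N0 * N2')) (D := -r) (ndvd_mul n2 h0') n3
        (by linarith)
      rw [wq_neg, wq_mul h0 n2', wq_mul n2 h0'] at h4
      push_cast at h4
      rw [hD] at h4
      rw [hss]
      linear_combination (-1 : ZMod 3) * h4
  -- X = Y modulo 3
  have hkey : (X ^ 3 - Y ^ 3) * (N0 * N0') = 3 * (Y ^ 3 * N2 * N0' - X ^ 3 * N0 * N2') := by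
    have e1 : N1 = -N0 - 3 * N2 := by linarith
    have e2 : N1' = -N0' - 3 * N2' := by linarith
    rw [e1, e2] at rel
    linear_combination -rel
  have h3XY : (3 : ℤ) ∣ X - Y := by
    have h5 : (3 : ℤ) ∣ (X ^ 3 - Y ^ 3) * (N0 * N0') := by rw [hkey]; exact dvd_mul_right _ _
    have h6 := (Int.prime_three.dvd_or_dvd h5).resolve_right (ndvd_mul h0 h0')
    have h7 : (3 : ℤ) ∣ (X - Y) ^ 3 := by
      have e : (X - Y) ^ 3 = X ^ 3 - Y ^ 3 + 3 * (X * Y * (Y - X)) := by ring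
      rw [e]; exact dvd_add h6 (dvd_mul_right _ _)
    exact Int.prime_three.dvd_of_dvd_pow h7
  obtain ⟨ρ, hρ⟩ := h3XY
  have hY : Y = X - 3 * ρ := by linarith
  have h8 : (ρ * X ^ 2 - 3 * ρ ^ 2 * X + 3 * ρ ^ 3) * (N0 * N0') =
      Y ^ 3 * r - 3 * ((ρ * X ^ 2 - 3 * ρ ^ 2 * X + 3 * ρ ^ 3) * N0 * N2') := by
    have e1 : X ^ 3 - Y ^ 3 = 9 * (ρ * X ^ 2 - 3 * ρ ^ 2 * X + 3 * ρ ^ 3) := by rw [hY]; ring
    have e2 : Y ^ 3 * N2 * N0' - X ^ 3 * N0 * N2' =
      Y ^ 3 * (3 * r) - (X ^ 3 - Y ^ 3) * (N0 * N2') := by rw [← hr]; ring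
    rw [e2, e1] at hkey
    have h9 : (9 : ℤ) ≠ 0 := by norm_num
    apply mul_left_cancel₀ h9
    linear_combination hkey
  have h9 := congrArg (fun n : ℤ => (n : ZMod 3)) h8
  push_cast at h9
  simp only [three_zmod, zero_mul, sub_zero, add_zero, z3_cube] at h9
  have hYX : (Y : ZMod 3) = X := by
    rw [hY]; push_cast; rw [three_zmod]; ring
  rw [hYX, hr3] at h9
  have hXn := z3_ne.mpr hX
  refine clsTwo_fine hX ?_
  have h10 : (3 : ℤ) ∣ ρ - s * X := by
    rw [← z3_eq]; push_cast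
    have h11 : (ρ : ZMod 3) * X ^ 2 = X * s :=
      mul_right_cancel₀ (mul_ne_zero hN0 hN0') (by linear_combination h9)
    revert h11 hXn
    clear * -
    generalize (ρ : ZMod 3) = a
    generalize (X : ZMod 3) = b
    generalize (s : ZMod 3) = e
    revert a b e
    decide
  obtain ⟨v, hv⟩ := h10
  exact ⟨v, by linear_combination hρ + 3 * hv⟩

theorem two_key : ∀ a b c d e : ZMod 3, a ≠ 0 → c ≠ 0 → d ≠ 0 → e ≠ 0 →
    a * (c * -e * d) = b * (c * (d * e)) → a + b = 0 := by decide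

/-- 3 in the first cell -/
theorem clsII_0 (h1 : ¬ (3 : ℤ) ∣ N1) (h2 : ¬ (3 : ℤ) ∣ N2) (h1' : ¬ (3 : ℤ) ∣ N1')
    (h2' : ¬ (3 : ℤ) ∣ N2') (hs : 3 * N0 + N1 + N2 = 0) (hs' : 3 * N0' + N1' + N2' = 0)
    (rel : X ^ 3 * (N0 * N1') = Y ^ 3 * (N1 * N0'))
    (hX : ¬ (3 : ℤ) ∣ X) (hd : wq N1 - wq N2 ≠ 0) (hd' : wq N1' - wq N2' = -(wq N1 - wq N2)) :
    Cls (w * X + (-Y : ℤ)) 2 := by
  have hD := wq_diff (D := N0) h1 h2 (by linarith)
  have hD' := wq_diff (D := N0') h1' h2' (by linarith)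
  have h3 := congrArg (fun n : ℤ => (n : ZMod 3)) rel
  push_cast at h3
  rw [z3_cube, z3_cube, hD, hD'] at h3
  refine clsTwo_two hX ?_
  rw [← z3_eq]; push_cast
  refine two_key _ _ (N1 : ZMod 3) (N1' : ZMod 3) (wq N1 - wq N2) (z3_ne.mpr hX) (z3_ne.mpr h1)
    (z3_ne.mpr h1') hd ?_
  have e2 : wq N2' - wq N1' = wq N1 - wq N2 := by linear_combination -hd'
  rw [e2] at h3
  linear_combination h3

/-- 3 in the middle cell -/
theorem clsII_1 (h0 : ¬ (3 : ℤ) ∣ N0) (h2 : ¬ (3 : ℤ) ∣ N2) (h0' : ¬ (3 : ℤ) ∣ N0')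
    (h2' : ¬ (3 : ℤ) ∣ N2') (hs : N0 + 3 * N1 + N2 = 0) (hs' : N0' + 3 * N1' + N2' = 0)
    (rel : X ^ 3 * (N0 * N1') = Y ^ 3 * (N1 * N0'))
    (hX : ¬ (3 : ℤ) ∣ X) (hd : wq N0 - wq N2 ≠ 0) (hd' : wq N0' - wq N2' = -(wq N0 - wq N2)) :
    Cls (w * X + (-Y : ℤ)) 2 := by
  have hD := wq_diff (D := N1) h0 h2 (by linarith)
  have hD' := wq_diff (D := N1') h0' h2' (by linarith)
  have h3 := congrArg (fun n : ℤ => (n : ZMod 3)) rel
  push_cast at h3
  rw [z3_cube, z3_cube, hD, hD'] at h3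
  refine clsTwo_two hX ?_
  rw [← z3_eq]; push_cast
  refine two_key _ _ (N0 : ZMod 3) (N0' : ZMod 3) (wq N0 - wq N2) (z3_ne.mpr hX) (z3_ne.mpr h0)
    (z3_ne.mpr h0') hd ?_
  have e2 : wq N2' - wq N0' = wq N0 - wq N2 := by linear_combination -hd'
  rw [e2] at h3
  linear_combination -h3

end caseTwo

section caseOne

variable {X0 X1 X2 D N y : ℤ}

theorem m_cases (m : ZMod 3) : m = 0 ∨ m = 1 ∨ m = 2 := by revert m; decide

theorem n_zero {N k : ℤ} (h : (N : ZMod 3) = 0 * k) : ∃ n, N = 3 * n := by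
  rw [zero_mul, z3_eq] at h; exact h

theorem n_one {N k : ℤ} (h : (N : ZMod 3) = 1 * k) : ∃ n, N = k + 3 * n := by
  obtain ⟨n, hn⟩ : (3 : ℤ) ∣ N - k := by rw [← z3_eq]; push_cast; rw [h]; ring
  exact ⟨n, by linarith⟩

theorem n_two {N k : ℤ} (h : (N : ZMod 3) = 2 * k) : ∃ n, N = -k + 3 * n := by
  obtain ⟨n, hn⟩ : (3 : ℤ) ∣ N + k := by
    rw [← z3_eq]; push_cast; rw [h]; linear_combination (k : ZMod 3) * three_zmod
  exact ⟨n, by linarith⟩

/-- the fine class in case I: 3 in cell 0 -/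
theorem clsI_0 (hX0 : X0 = 3 * D) (hu : ¬ (3 : ℤ) ∣ X1) (hy : ¬ (3 : ℤ) ∣ y)
    (hsum : X0 + X1 + X2 = 0) {m : ZMod 3} (hN : (N : ZMod 3) = m * ((X1 * y : ℤ) : ZMod 3)) :
    Cls (((3 * N : ℤ) : Eis) + res X0 X1 X2 * y) (0 + m) := by
  have hX2 : X2 = -(3 * D) - X1 := by linarith
  have hr := w_rel
  rcases m_cases m with rfl | rfl | rfl
  · obtain ⟨n, hn⟩ := n_zero hN
    have := cls_mk (t := ((3 * N : ℤ) : Eis) + res X0 X1 X2 * y) (n := X1 * y)
      (r := (-1) * D * w * y + (-1) * n + (-2) * n * w) 1 1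
      (by
        rw [hX0, hX2, hn, res, lam_eq]
        push_cast
        linear_combination ((-3) * D * w * y + (3) * D * y + (9) * n + (-6) * n * w) * hr)
      (ndvd_mul hu hy)
    have e : ((1 : ℕ) : ZMod 3) - ((1 : ℕ) : ZMod 3) = 0 + 0 := by decide
    rwa [e] at this
  · obtain ⟨n, hn⟩ := n_one hN
    have := cls_mk (t := ((3 * N : ℤ) : Eis) + res X0 X1 X2 * y) (n := X1 * y)
      (r := (-1) * D * y + (-1) * X1 * y + (-1) * n + n * w) 1 2
      (by
        rw [hX0, hX2, hn, res, lam_eq]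
        push_cast
        linear_combination ((-3) * D * w * y + (3) * D * y + (-2) * X1 * w * y + (3) * X1 * y + (9) * n + (-9) * n * w + (3) * n * w ^ 2) * hr)
      (ndvd_mul hu hy)
    have e : ((2 : ℕ) : ZMod 3) - ((1 : ℕ) : ZMod 3) = 0 + 1 := by decide
    rwa [e] at this
  · obtain ⟨n, hn⟩ := n_two hN
    have := cls_mk (t := ((3 * N : ℤ) : Eis) + res X0 X1 X2 * y) (n := X1 * y)
      (r := D * w * y + D * y + (-1) * X1 * y + (2) * n + n * w) 1 0
      (by
        rw [hX0, hX2, hn, res, lam_eq]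
        push_cast
        linear_combination ((-1) * X1 * y + (3) * n) * hr)
      (ndvd_mul hu hy)
    have e : ((0 : ℕ) : ZMod 3) - ((1 : ℕ) : ZMod 3) = 0 + 2 := by decide
    rwa [e] at this

/-- the fine class in case I: 3 in cell 1 -/
theorem clsI_1 (hX1 : X1 = 3 * D) (hu : ¬ (3 : ℤ) ∣ X2) (hy : ¬ (3 : ℤ) ∣ y)
    (hsum : X0 + X1 + X2 = 0) {m : ZMod 3} (hN : (N : ZMod 3) = m * ((X2 * y : ℤ) : ZMod 3)) :
    Cls (((3 * N : ℤ) : Eis) + res X0 X1 X2 * y) (1 + m) := by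
  have hX0 : X0 = -(3 * D) - X2 := by linarith
  have hr := w_rel
  rcases m_cases m with rfl | rfl | rfl
  · obtain ⟨n, hn⟩ := n_zero hN
    have := cls_mk (t := ((3 * N : ℤ) : Eis) + res X0 X1 X2 * y) (n := X2 * y)
      (r := (-1) * D * w * y + (-1) * n + n * w) 1 2
      (by
        rw [hX1, hX0, hn, res, lam_eq]
        push_cast
        linear_combination ((6) * D * w * y + (-3) * D * w ^ 2 * y + (-3) * D * y + X2 * w * y + (-1) * X2 * y + (9) * n + (-9) * n * w + (3) * n * w ^ 2) * hr)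
      (ndvd_mul hu hy)
    have e : ((2 : ℕ) : ZMod 3) - ((1 : ℕ) : ZMod 3) = 1 + 0 := by decide
    rwa [e] at this
  · obtain ⟨n, hn⟩ := n_one hN
    have := cls_mk (t := ((3 * N : ℤ) : Eis) + res X0 X1 X2 * y) (n := X2 * y)
      (r := (-1) * D * y + (2) * n + n * w) 1 0
      (by
        rw [hX1, hX0, hn, res, lam_eq]
        push_cast
        linear_combination (X2 * y + (3) * n) * hr)
      (ndvd_mul hu hy)
    have e : ((0 : ℕ) : ZMod 3) - ((1 : ℕ) : ZMod 3) = 1 + 1 := by decide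
    rwa [e] at this
  · obtain ⟨n, hn⟩ := n_two hN
    have := cls_mk (t := ((3 * N : ℤ) : Eis) + res X0 X1 X2 * y) (n := X2 * y)
      (r := D * w * y + D * y + X2 * w * y + (-1) * n + (-2) * n * w) 1 1
      (by
        rw [hX1, hX0, hn, res, lam_eq]
        push_cast
        linear_combination ((3) * D * w * y + (-3) * D * y + (3) * X2 * w * y + (-4) * X2 * y + (9) * n + (-6) * n * w) * hr)
      (ndvd_mul hu hy)
    have e : ((1 : ℕ) : ZMod 3) - ((1 : ℕ) : ZMod 3) = 1 + 2 := by decide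
    rwa [e] at this

/-- the fine class in case I: 3 in cell 2 -/
theorem clsI_2 (hX2 : X2 = 3 * D) (hu : ¬ (3 : ℤ) ∣ X0) (hy : ¬ (3 : ℤ) ∣ y)
    (hsum : X0 + X1 + X2 = 0) {m : ZMod 3} (hN : (N : ZMod 3) = m * ((X0 * y : ℤ) : ZMod 3)) :
    Cls (((3 * N : ℤ) : Eis) + res X0 X1 X2 * y) (2 + m) := by
  have hX1 : X1 = -(3 * D) - X0 := by linarith
  have hr := w_rel
  rcases m_cases m with rfl | rfl | rfl
  · obtain ⟨n, hn⟩ := n_zero hN
    have := cls_mk (t := ((3 * N : ℤ) : Eis) + res X0 X1 X2 * y) (n := X0 * y)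
      (r := (-1) * D * w * y + (2) * n + n * w) 1 0
      (by
        rw [hX2, hX1, hn, res, lam_eq]
        push_cast
        linear_combination ((3) * n) * hr)
      (ndvd_mul hu hy)
    have e : ((0 : ℕ) : ZMod 3) - ((1 : ℕ) : ZMod 3) = 2 + 0 := by decide
    rwa [e] at this
  · obtain ⟨n, hn⟩ := n_one hN
    have := cls_mk (t := ((3 * N : ℤ) : Eis) + res X0 X1 X2 * y) (n := X0 * y)
      (r := (-1) * D * y + (-1) * X0 * w * y + (-1) * X0 * y + (-1) * n + (-2) * n * w) 1 1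
      (by
        rw [hX2, hX1, hn, res, lam_eq]
        push_cast
        linear_combination ((-3) * X0 * w * y + (4) * X0 * y + (9) * n + (-6) * n * w) * hr)
      (ndvd_mul hu hy)
    have e : ((1 : ℕ) : ZMod 3) - ((1 : ℕ) : ZMod 3) = 2 + 1 := by decide
    rwa [e] at this
  · obtain ⟨n, hn⟩ := n_two hN
    have := cls_mk (t := ((3 * N : ℤ) : Eis) + res X0 X1 X2 * y) (n := X0 * y)
      (r := D * w * y + D * y + (-1) * n + n * w) 1 2
      (by
        rw [hX2, hX1, hn, res, lam_eq]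
        push_cast
        linear_combination ((-3) * D * w * y + (3) * D * w ^ 2 * y + X0 * w * y + (-2) * X0 * y + (9) * n + (-9) * n * w + (3) * n * w ^ 2) * hr)
      (ndvd_mul hu hy)
    have e : ((2 : ℕ) : ZMod 3) - ((1 : ℕ) : ZMod 3) = 2 + 2 := by decide
    rwa [e] at this

end caseOne

end Pool.Agent.Lib_helper84.Cub


end

section

/-!
# Weights; classes at the prime above 3 when 3 divides `A` once
-/

set_option autoImplicit false

namespace Pool.Agent.CubeRank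

open Pool.Agent.Lib_helper18 Pool.Agent.Lib_helper18.Eis Pool.Agent.Lib_helper84.Cub

variable {m : ℕ} {p e e' : Fin m → ℕ} {pos pos' : Fin m → Fin 3} {x y : Fin 3 → ℤ}
  {S : Finset (Fin m)}

/-! ### weights -/

/-- signed weights; the prime 3 has weight 0 -/
def sg {m : ℕ} (p e : Fin m → ℕ) (i : Fin m) : ZMod 3 :=
  if p i = 3 then 0 else (e i : ZMod 3) * wq (p i : ℤ)

/-- the weight of a cell -/
def cwt {m : ℕ} (p e : Fin m → ℕ) (pos : Fin m → Fin 3) (k : Fin 3) : ZMod 3 :=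
  ∑ j, if pos j = k then sg p e j else 0

/-- the part of a cell prime to 3 -/
def dcl {m : ℕ} (p e : Fin m → ℕ) (pos : Fin m → Fin 3) (k : Fin 3) : ℤ :=
  ∏ j, if pos j = k ∧ p j ≠ 3 then (p j : ℤ) ^ e j else 1

theorem ndvd_of_mod {q : ℕ} (h : q % 3 = 2) : ¬ (3 : ℤ) ∣ (q : ℤ) := by omega

theorem ndvd_pw {a : ℤ} (h : ¬ (3 : ℤ) ∣ a) (n : ℕ) : ¬ (3 : ℤ) ∣ a ^ n :=
  fun h' => h (Int.prime_three.dvd_of_dvd_pow h')

theorem prod_ndvd (h3 : ∀ i, p i % 3 = 2 ∨ p i = 3) (c : Fin m → Prop) [DecidablePred c]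
    (hc : ∀ i, c i → p i ≠ 3) (n : Fin m → ℕ) :
    ¬ (3 : ℤ) ∣ ∏ j, if c j then (p j : ℤ) ^ n j else 1 := by
  intro h
  rw [Prime.dvd_finsetProd_iff Int.prime_three] at h
  obtain ⟨j, -, hj⟩ := h
  split_ifs at hj with hcj
  · exact ndvd_pw (ndvd_of_mod ((h3 j).resolve_right (hc j hcj))) _ hj
  · omega

theorem wq_prod_if (h3 : ∀ i, p i % 3 = 2 ∨ p i = 3) (c : Fin m → Prop) [DecidablePred c]
    (hc : ∀ i, c i → p i ≠ 3) (n : Fin m → ℕ) :
    wq (∏ j, if c j then (p j : ℤ) ^ n j else 1) = ∑ j, if c j then sg p n j else 0 := by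
  rw [wq_prod]
  · refine Finset.sum_congr rfl (fun j _ => ?_)
    split_ifs with hcj
    · rw [wq_pow (ndvd_of_mod ((h3 j).resolve_right (hc j hcj))), sg, if_neg (hc j hcj)]
    · exact wq_one
  · intro j
    split_ifs with hcj
    · exact ndvd_pw (ndvd_of_mod ((h3 j).resolve_right (hc j hcj))) _
    · norm_num

theorem dcl_ndvd (h3 : ∀ i, p i % 3 = 2 ∨ p i = 3) (pos : Fin m → Fin 3) (k : Fin 3) :
    ¬ (3 : ℤ) ∣ dcl p e pos k :=
  prod_ndvd h3 (fun j => pos j = k ∧ p j ≠ 3) (fun _ h => h.2) e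

theorem wq_dcl (h3 : ∀ i, p i % 3 = 2 ∨ p i = 3) (pos : Fin m → Fin 3) (k : Fin 3) :
    wq (dcl p e pos k) = cwt p e pos k := by
  unfold dcl cwt
  rw [wq_prod_if h3 (fun j => pos j = k ∧ p j ≠ 3) (fun _ h => h.2) e]
  refine Finset.sum_congr rfl (fun j _ => ?_)
  by_cases h : pos j = k
  · by_cases h' : p j = 3
    · simp [h, h', sg]
    · simp [h, h']
  · simp [h]

/-- the linear form of the cell weights -/
theorem eps_eq (f : Fin m → ZMod 3) (pos : Fin m → Fin 3) (c : Fin 3) :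
    ∑ j, f j * (((pos j : ℕ) : ZMod 3) - ((c : ℕ) : ZMod 3)) =
      (∑ j, if pos j = c + 1 then f j else 0) - ∑ j, if pos j = c + 2 then f j else 0 := by
  rw [← Finset.sum_sub_distrib]
  refine Finset.sum_congr rfl (fun j _ => ?_)
  have key : ∀ (z : ZMod 3) (a c : Fin 3), z * (((a : ℕ) : ZMod 3) - ((c : ℕ) : ZMod 3)) =
      (if a = c + 1 then z else 0) - (if a = c + 2 then z else 0) := by decide
  exact key _ _ _

/-- the data for a prime 3 dividing `A` exactly once -/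
structure Th (p e : Fin m → ℕ) (i3 : Fin m) : Prop where
  h3 : ∀ i, p i % 3 = 2 ∨ p i = 3
  inj : Function.Injective p
  p3 : p i3 = 3
  e3 : e i3 = 1

/-- the reduced terms -/
def ntg (p e : Fin m → ℕ) (pos : Fin m → Fin 3) (x : Fin 3 → ℤ) (k : Fin 3) : ℤ :=
  dcl p e pos k * x k ^ 3

theorem three_sumZ' {i j k : Fin 3} (h01 : i ≠ j) (h02 : i ≠ k) (h12 : j ≠ k) (f : Fin 3 → ℤ) :
    ∑ j, f j = f i + f j + f k := by
  rw [Fin.sum_univ_three]
  have key : ∀ i j k : Fin 3, i ≠ j → i ≠ k → j ≠ k → (i = 0 ∧ j = 1 ∧ k = 2) ∨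
    (i = 0 ∧ j = 2 ∧ k = 1) ∨ (i = 1 ∧ j = 0 ∧ k = 2) ∨ (i = 1 ∧ j = 2 ∧ k = 0) ∨
    (i = 2 ∧ j = 0 ∧ k = 1) ∨ (i = 2 ∧ j = 1 ∧ k = 0) := by decide
  rcases key i j k h01 h02 h12 with ⟨rfl, rfl, rfl⟩ | ⟨rfl, rfl, rfl⟩ | ⟨rfl, rfl, rfl⟩ |
    ⟨rfl, rfl, rfl⟩ | ⟨rfl, rfl, rfl⟩ | ⟨rfl, rfl, rfl⟩ <;> ring

namespace Th

variable {i3 : Fin m} (t : Th p e i3)

include t

theorem ne3 {j : Fin m} (h : j ≠ i3) : p j ≠ 3 := fun h' => h (t.inj (h'.trans t.p3.symm))

theorem sg3 : sg p e i3 = 0 := by unfold sg; rw [if_pos t.p3]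

theorem cell_eq (k : Fin 3) : cell p e pos k = dcl p e pos k * (if pos i3 = k then 3 else 1) := by
  unfold cell dcl
  have h1 : (if pos i3 = k then (3 : ℤ) else 1) = ∏ j, if j = i3 then
      (if pos i3 = k then (3 : ℤ) else 1) else 1 := by
    rw [Finset.prod_ite_eq' Finset.univ i3, if_pos (Finset.mem_univ _)]
  rw [h1, ← Finset.prod_mul_distrib]
  refine Finset.prod_congr rfl (fun j _ => ?_)
  by_cases hj : j = i3
  · subst hj
    rw [if_pos (rfl : j = j), t.p3, t.e3]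
    by_cases hk : pos j = k
    · simp [hk]
    · simp [hk]
  · rw [if_neg hj, mul_one]
    by_cases hk : pos j = k
    · rw [if_pos hk, if_pos ⟨hk, t.ne3 hj⟩]
    · rw [if_neg hk, if_neg (fun h => hk h.1)]

theorem term_eq (k : Fin 3) : term p e pos x k =
    (if pos i3 = k then 3 else 1) * ntg p e pos x k := by
  unfold term ntg
  rw [t.cell_eq]; ring

theorem unit (hP : IsPt p e pos x) {k : Fin 3} (hk : k ≠ pos i3) : ¬ (3 : ℤ) ∣ x k := by
  intro h
  have h1 := hP.cop k (pos i3) hk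
  refine Int.prime_three.not_isUnit (h1.isUnit_of_dvd' (Dvd.dvd.mul_left h _)
    (Dvd.dvd.mul_right ?_ _))
  rw [t.cell_eq, if_pos rfl]
  exact dvd_mul_left _ _

theorem nt_ndvd (hP : IsPt p e pos x) {k : Fin 3} (hk : k ≠ pos i3) :
    ¬ (3 : ℤ) ∣ ntg p e pos x k :=
  ndvd_mul (dcl_ndvd t.h3 pos k) (ndvd_pw (t.unit hP hk) 3)

theorem wq_nt (hP : IsPt p e pos x) {k : Fin 3} (hk : k ≠ pos i3) :
    wq (ntg p e pos x k) = cwt p e pos k := by
  unfold ntg
  rw [wq_mul_cube (dcl_ndvd t.h3 pos k) (t.unit hP hk), wq_dcl t.h3]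

theorem nt_sum (hP : IsPt p e pos x) {i j : Fin 3} (hi : i ≠ pos i3) (hj : j ≠ pos i3)
    (hij : i ≠ j) : ntg p e pos x i + ntg p e pos x j + 3 * ntg p e pos x (pos i3) = 0 := by
  have h := hP.sum
  rw [three_sumZ' hij hi hj] at h
  have h1 := t.term_eq (pos := pos) (x := x) i
  have h2 := t.term_eq (pos := pos) (x := x) j
  have h3 := t.term_eq (pos := pos) (x := x) (pos i3)
  rw [if_neg (Ne.symm hi)] at h1
  rw [if_neg (Ne.symm hj)] at h2
  rw [if_pos rfl] at h3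
  unfold term at h1 h2 h3
  linear_combination h - h1 - h2 - h3

theorem nt_mod (hP : IsPt p e pos x) {i j : Fin 3} (hi : i ≠ pos i3) (hj : j ≠ pos i3)
    (hij : i ≠ j) : (ntg p e pos x (pos i3) : ZMod 3) = (ntg p e pos x i : ZMod 3) *
      (cwt p e pos j - cwt p e pos i) := by
  rw [← t.wq_nt hP hi, ← t.wq_nt hP hj]
  exact wq_diff (t.nt_ndvd hP hi) (t.nt_ndvd hP hj) (t.nt_sum hP hi hj hij)

theorem nt_dvd {k : Fin 3} (h : (3 : ℤ) ∣ ntg p e pos x k) : (3 : ℤ) ∣ x k :=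
  Int.prime_three.dvd_of_dvd_pow ((Int.prime_three.dvd_or_dvd h).resolve_left
    (dcl_ndvd t.h3 pos k))

theorem dvd_iff (hP : IsPt p e pos x) {i j : Fin 3} (hi : i ≠ pos i3) (hj : j ≠ pos i3)
    (hij : i ≠ j) : (3 : ℤ) ∣ x (pos i3) ↔ cwt p e pos i = cwt p e pos j := by
  have h := t.nt_mod hP hi hj hij
  have hn := z3_ne.mpr (t.nt_ndvd hP hi)
  constructor
  · intro hd
    have h1 : (3 : ℤ) ∣ ntg p e pos x (pos i3) :=
      Dvd.dvd.mul_left (Dvd.dvd.pow hd (by norm_num)) _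
    rw [← z3_eq, h] at h1
    have := (mul_eq_zero.mp h1).resolve_left hn
    exact (sub_eq_zero.mp this).symm
  · intro he
    apply t.nt_dvd
    rw [← z3_eq, h, he, sub_self, mul_zero]

end Th

theorem ntg9 {k : Fin 3} (h : (3 : ℤ) ∣ x k) : (9 : ℤ) ∣ ntg p e pos x k := by
  obtain ⟨v, hv⟩ := h
  unfold ntg
  rw [hv]
  exact ⟨dcl p e pos k * (3 * v ^ 3), by ring⟩

/-! ### weights after the exchange -/

/-- the relation between the weights -/
structure Wt (p e e' : Fin m → ℕ) (S : Finset (Fin m)) : Prop where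
  ins : ∀ i ∈ S, sg p e' i = - sg p e i
  out : ∀ i ∉ S, sg p e' i = sg p e i

theorem BaseT.wt (b : BaseT p e e' S) : Wt p e e' S where
  ins := fun i hi => by
    have h := b.rel i
    rw [if_pos hi] at h
    have := congrArg (fun n : ℕ => (n : ZMod 3)) h
    push_cast at this
    unfold sg
    rw [if_neg (b.nS i hi), if_neg (b.nS i hi)]
    linear_combination wq (p i : ℤ) * this + wq (p i : ℤ) * three_zmod
  out := fun i hi => by
    have h := b.rel i
    rw [if_neg hi] at h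
    unfold sg
    rw [h]

/-- sums over the exchanged positions, checked term by term -/
theorem Wt.sum_eq (W : Wt p e e' S) (hpos : Exch S pos pos') (f f' g : Fin 3 → ZMod 3)
    (hin : ∀ a : Fin 3, - f' (tau a) - f a = g 0) (hout : ∀ a : Fin 3, f' a = f a) :
    ∑ j, sg p e' j * f' (pos' j) = ∑ j, sg p e j * f (pos j) + g 0 * ∑ j ∈ S, sg p e j := by
  classical
  have h1 : ∑ j ∈ S, sg p e j = ∑ j, if j ∈ S then sg p e j else 0 := by
    rw [Finset.sum_ite_mem, Finset.univ_inter]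
  rw [h1, Finset.mul_sum, ← Finset.sum_add_distrib]
  refine Finset.sum_congr rfl (fun j _ => ?_)
  have h := hpos j
  by_cases hj : j ∈ S
  · rw [if_pos hj] at h ⊢
    rw [h, W.ins j hj, ← hin (pos j)]; ring
  · rw [if_neg hj] at h ⊢
    rw [h, W.out j hj, hout]; ring

theorem cwt_as (p e : Fin m → ℕ) (pos : Fin m → Fin 3) (k : Fin 3) :
    cwt p e pos k = ∑ j, sg p e j * (if pos j = k then 1 else 0) := by
  unfold cwt
  exact Finset.sum_congr rfl (fun j _ => by split_ifs <;> ring)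

theorem cwt_sub (p e : Fin m → ℕ) (pos : Fin m → Fin 3) (k l : Fin 3) :
    cwt p e pos k - cwt p e pos l =
      ∑ j, sg p e j * ((if pos j = k then 1 else 0) - (if pos j = l then 1 else 0)) := by
  rw [cwt_as, cwt_as, ← Finset.sum_sub_distrib]
  exact Finset.sum_congr rfl (fun j _ => by ring)

theorem Wt.c0 (W : Wt p e e' S) (hpos : Exch S pos pos') :
    cwt p e' pos' 1 - cwt p e' pos' 2 =
      cwt p e pos 1 - cwt p e pos 2 - ∑ j ∈ S, sg p e j := by
  rw [cwt_sub, cwt_sub, W.sum_eq hpos (fun a => (if a = 1 then 1 else 0) - (if a = 2 then 1 else 0))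
    (fun a => (if a = 1 then 1 else 0) - (if a = 2 then 1 else 0)) (fun _ => -1) (by decide)
    (by decide)]
  ring

theorem Wt.c1 (W : Wt p e e' S) (hpos : Exch S pos pos') :
    cwt p e' pos' 2 - cwt p e' pos' 0 =
      cwt p e pos 2 - cwt p e pos 0 + ∑ j ∈ S, sg p e j := by
  rw [cwt_sub, cwt_sub, W.sum_eq hpos (fun a => (if a = 2 then 1 else 0) - (if a = 0 then 1 else 0))
    (fun a => (if a = 2 then 1 else 0) - (if a = 0 then 1 else 0)) (fun _ => 1) (by decide)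
    (by decide)]
  ring

theorem Wt.c2 (W : Wt p e e' S) (hpos : Exch S pos pos') :
    cwt p e' pos' 0 - cwt p e' pos' 1 = cwt p e pos 0 - cwt p e pos 1 := by
  rw [cwt_sub, cwt_sub, W.sum_eq hpos (fun a => (if a = 0 then 1 else 0) - (if a = 1 then 1 else 0))
    (fun a => (if a = 0 then 1 else 0) - (if a = 1 then 1 else 0)) (fun _ => 0) (by decide)
    (by decide)]
  ring

theorem Wt.c3 (W : Wt p e e' S) (hpos : Exch S pos pos') :
    cwt p e pos 2 - cwt p e' pos' 2 + cwt p e' pos' 0 - cwt p e pos 0 =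
      - ∑ j ∈ S, sg p e j := by
  have h1 : cwt p e' pos' 0 - cwt p e' pos' 2 =
      ∑ j, sg p e j * ((if pos j = 0 then 1 else 0) - (if pos j = 2 then 1 else 0)) +
        (-1) * ∑ j ∈ S, sg p e j := by
    rw [cwt_sub]
    exact W.sum_eq hpos (fun a => (if a = 0 then 1 else 0) - (if a = 2 then 1 else 0))
      (fun a => (if a = 0 then 1 else 0) - (if a = 2 then 1 else 0)) (fun _ => -1) (by decide)
      (by decide)
  have h2 := cwt_sub p e pos 0 2
  linear_combination h1 - h2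

end Pool.Agent.CubeRank


end

section

/-!
# The classes of the main elements when 3 divides `A` once
-/

set_option autoImplicit false

namespace Pool.Agent.CubeRank

open Pool.Agent.Lib_helper18 Pool.Agent.Lib_helper18.Eis Pool.Agent.Lib_helper84.Cub

variable {m : ℕ} {p e e' : Fin m → ℕ} {pos pos' : Fin m → Fin 3} {x y : Fin 3 → ℤ}
  {S : Finset (Fin m)}

theorem BaseT.rd3 (b : BaseT p e e' S) (pos : Fin m → Fin 3) (k : Fin 3) :
    ¬ (3 : ℤ) ∣ rdP p S pos k := by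
  unfold rdP
  intro h
  rw [Prime.dvd_finsetProd_iff Int.prime_three] at h
  obtain ⟨j, -, hj⟩ := h
  split_ifs at hj with hc
  · have h1 := b.sp3 hc.1
    rw [pow_one] at hj
    omega
  · omega

theorem exch_i3 (hpos : Exch S pos pos') {i3 : Fin m} (hi : i3 ∉ S) : pos' i3 = pos i3 := by
  have h := hpos i3
  rwa [if_neg hi] at h

/-- the relation between the reduced terms -/
theorem relg (b : BaseT p e e' S) {i3 : Fin m} (t : Th p e i3) (t' : Th p e' i3) (hi : i3 ∉ S)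
    (hpos : Exch S pos pos') :
    (rdP p S pos 1 * x 1 * y 0) ^ 3 * (ntg p e pos x 0 * ntg p e' pos' y 1) =
      (rdP p S pos 0 * x 0 * y 1) ^ 3 * (ntg p e pos x 1 * ntg p e' pos' y 0) := by
  have h2 := exch_i3 hpos hi
  have h := exch_h1G b hpos
  rw [t.cell_eq, t.cell_eq, t'.cell_eq, t'.cell_eq, h2] at h
  set a0 : ℤ := if pos i3 = 0 then 3 else 1 with ha0
  set a1 : ℤ := if pos i3 = 1 then 3 else 1 with ha1
  have n0 : a0 ≠ 0 := by rw [ha0]; split_ifs <;> norm_num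
  have n1 : a1 ≠ 0 := by rw [ha1]; split_ifs <;> norm_num
  apply mul_left_cancel₀ (mul_ne_zero n0 n1)
  unfold ntg
  linear_combination (x 0 * x 1 * y 0 * y 1) ^ 3 * h

theorem z3_three : ∀ d s : ZMod 3, s ≠ 0 → d ≠ 0 → d - s ≠ 0 → d - s = -d ∧ -(d * s) = 1 := by
  decide

theorem z3_three' : ∀ d s : ZMod 3, s ≠ 0 → d ≠ 0 → d + s ≠ 0 → d + s = -d ∧ d * s = 1 := by
  decide

theorem z3_sq1 : ∀ s : ZMod 3, s ≠ 0 → s * s = 1 := by decide

/-- the class of the main element of case II -/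
theorem cls_tIIg (b : BaseT p e e' S) {i3 : Fin m} (t : Th p e i3) (t' : Th p e' i3)
    (hi : i3 ∉ S) {s : ZMod 3} (hs : ∑ j ∈ S, sg p e j = s) (hs0 : s ≠ 0)
    (hpos : Exch S pos pos') (hP : IsPt p e pos x) (hP' : IsPt p e' pos' y) :
    Cls (tII p S pos x y) (1 - ((pos i3 : ℕ) : ZMod 3) -
      (cwt p e pos (pos i3 + 1) - cwt p e pos (pos i3 + 2)) * s) := by
  have g2 := exch_i3 hpos hi
  have rel := relg (x := x) (y := y) b t t' hi hpos
  have W := b.wt
  rw [tII_eqS]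
  have hc : pos i3 = 0 ∨ pos i3 = 1 ∨ pos i3 = 2 := by
    generalize pos i3 = k; revert k; decide
  rcases hc with hc | hc | hc
  · -- 3 in the first cell
    rw [hc] at g2
    have u1 := t.unit hP (k := 1) (by rw [hc]; decide)
    have u1' := t'.unit hP' (k := 1) (by rw [g2]; decide)
    have d := t.dvd_iff hP (i := 1) (j := 2) (by rw [hc]; decide) (by rw [hc]; decide) (by decide)
    have d' := t'.dvd_iff hP' (i := 1) (j := 2) (by rw [g2]; decide) (by rw [g2]; decide)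
      (by decide)
    have hw := W.c0 hpos
    rw [hs] at hw
    rw [hc] at d ⊢
    rw [g2] at d'
    have e1 : (0 : Fin 3) + 1 = 1 := by decide
    have e2 : (0 : Fin 3) + 2 = 2 := by decide
    have e3 : (((0 : Fin 3) : ℕ) : ZMod 3) = 0 := by decide
    rw [e1, e2, e3]
    by_cases h1 : cwt p e pos 1 = cwt p e pos 2
    · -- 3 | x 0
      have d1 := d.mpr h1
      have d2 : ¬ (3 : ℤ) ∣ y 0 := fun h => by
        have h4 := d'.mp h
        apply hs0
        linear_combination hw - h4 + h1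
      have := clsTwo_one (Dvd.dvd.mul_right (Dvd.dvd.mul_left d1 (rdP p S pos 0)) (y 1))
        (ndvd_mul (ndvd_mul (b.rd3 pos 1) u1) d2)
      rw [h1]
      simpa using this
    by_cases h2 : cwt p e' pos' 1 = cwt p e' pos' 2
    · have d2 := d'.mpr h2
      have d1 : ¬ (3 : ℤ) ∣ x 0 := fun h => h1 (d.mp h)
      have := clsTwo_zero (Dvd.dvd.mul_left d2 (rdP p S pos 1 * x 1))
        (ndvd_mul (ndvd_mul (b.rd3 pos 0) d1) u1')
      have e4 : cwt p e pos 1 - cwt p e pos 2 = s := by linear_combination h2 - hw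
      rw [e4, z3_sq1 s hs0]
      simpa using this
    · have d1 : ¬ (3 : ℤ) ∣ x 0 := fun h => h1 (d.mp h)
      have d2 : ¬ (3 : ℤ) ∣ y 0 := fun h => h2 (d'.mp h)
      have hsum := t.nt_sum hP (i := 1) (j := 2) (by rw [hc]; decide) (by rw [hc]; decide)
        (by decide)
      have hsum' := t'.nt_sum hP' (i := 1) (j := 2) (by rw [g2]; decide) (by rw [g2]; decide)
        (by decide)
      rw [hc] at hsum
      rw [g2] at hsum'
      have w1 := t.wq_nt hP (k := 1) (by rw [hc]; decide)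
      have w2 := t.wq_nt hP (k := 2) (by rw [hc]; decide)
      have w1' := t'.wq_nt hP' (k := 1) (by rw [g2]; decide)
      have w2' := t'.wq_nt hP' (k := 2) (by rw [g2]; decide)
      obtain ⟨k1, k2⟩ := z3_three (cwt p e pos 1 - cwt p e pos 2) s hs0 (sub_ne_zero.mpr h1)
        (by rw [← hw]; exact sub_ne_zero.mpr h2)
      have := clsII_0 (t.nt_ndvd hP (by rw [hc]; decide))
        (t.nt_ndvd hP (k := 2) (by rw [hc]; decide))
        (t'.nt_ndvd hP' (by rw [g2]; decide)) (t'.nt_ndvd hP' (k := 2) (by rw [g2]; decide))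
        (by linear_combination hsum) (by linear_combination hsum') rel
        (ndvd_mul (ndvd_mul (b.rd3 pos 1) u1) d2)
        (by rw [w1, w2]; exact sub_ne_zero.mpr h1)
        (by rw [w1, w2, w1', w2', hw, k1])
      have e4 : (1 : ZMod 3) - 0 - (cwt p e pos 1 - cwt p e pos 2) * s = 2 := by
        linear_combination k2
      rw [e4]; exact this
  · -- 3 in the middle cell
    rw [hc] at g2
    have u0 := t.unit hP (k := 0) (by rw [hc]; decide)
    have u0' := t'.unit hP' (k := 0) (by rw [g2]; decide)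
    have d := t.dvd_iff hP (i := 0) (j := 2) (by rw [hc]; decide) (by rw [hc]; decide) (by decide)
    have d' := t'.dvd_iff hP' (i := 0) (j := 2) (by rw [g2]; decide) (by rw [g2]; decide)
      (by decide)
    have hw := W.c1 hpos
    rw [hs] at hw
    rw [hc] at d ⊢
    rw [g2] at d'
    have e1 : (1 : Fin 3) + 1 = 2 := by decide
    have e2 : (1 : Fin 3) + 2 = 0 := by decide
    have e3 : (((1 : Fin 3) : ℕ) : ZMod 3) = 1 := by decide
    rw [e1, e2, e3]
    by_cases h1 : cwt p e pos 0 = cwt p e pos 2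
    · -- 3 | x 1
      have d1 := d.mpr h1
      have d2 : ¬ (3 : ℤ) ∣ y 1 := fun h => by
        have h4 := d'.mp h
        apply hs0
        linear_combination -hw - h4 + h1
      have := clsTwo_zero (Dvd.dvd.mul_right (Dvd.dvd.mul_left d1 (rdP p S pos 1)) (y 0))
        (ndvd_mul (ndvd_mul (b.rd3 pos 0) u0) d2)
      rw [h1]
      simpa using this
    by_cases h2 : cwt p e' pos' 0 = cwt p e' pos' 2
    · have d2 := d'.mpr h2
      have d1 : ¬ (3 : ℤ) ∣ x 1 := fun h => h1 (d.mp h)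
      have := clsTwo_one (Dvd.dvd.mul_left d2 (rdP p S pos 0 * x 0))
        (ndvd_mul (ndvd_mul (b.rd3 pos 1) d1) u0')
      have e4 : cwt p e pos 2 - cwt p e pos 0 = -s := by linear_combination -hw - h2
      have e5 : (1 : ZMod 3) - 1 - (cwt p e pos 2 - cwt p e pos 0) * s = 1 := by
        rw [e4]; linear_combination z3_sq1 s hs0
      rw [e5]; exact this
    · have d1 : ¬ (3 : ℤ) ∣ x 1 := fun h => h1 (d.mp h)
      have d2 : ¬ (3 : ℤ) ∣ y 1 := fun h => h2 (d'.mp h)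
      have hsum := t.nt_sum hP (i := 0) (j := 2) (by rw [hc]; decide) (by rw [hc]; decide)
        (by decide)
      have hsum' := t'.nt_sum hP' (i := 0) (j := 2) (by rw [g2]; decide) (by rw [g2]; decide)
        (by decide)
      rw [hc] at hsum
      rw [g2] at hsum'
      have w1 := t.wq_nt hP (k := 0) (by rw [hc]; decide)
      have w2 := t.wq_nt hP (k := 2) (by rw [hc]; decide)
      have w1' := t'.wq_nt hP' (k := 0) (by rw [g2]; decide)
      have w2' := t'.wq_nt hP' (k := 2) (by rw [g2]; decide)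
      obtain ⟨k1, k2⟩ := z3_three' (cwt p e pos 2 - cwt p e pos 0) s hs0
        (sub_ne_zero.mpr (Ne.symm h1)) (by rw [← hw]; exact sub_ne_zero.mpr (Ne.symm h2))
      have := clsII_1 (t.nt_ndvd hP (by rw [hc]; decide))
        (t.nt_ndvd hP (k := 2) (by rw [hc]; decide))
        (t'.nt_ndvd hP' (by rw [g2]; decide)) (t'.nt_ndvd hP' (k := 2) (by rw [g2]; decide))
        (by linear_combination hsum) (by linear_combination hsum') rel
        (ndvd_mul (ndvd_mul (b.rd3 pos 1) d1) u0')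
        (by rw [w1, w2]; exact sub_ne_zero.mpr h1)
        (by rw [w1, w2, w1', w2']; linear_combination -hw - k1)
      have e4 : (1 : ZMod 3) - 1 - (cwt p e pos 2 - cwt p e pos 0) * s = 2 := by
        linear_combination -k2 - three_zmod
      rw [e4]; exact this
  · -- 3 in the last cell
    rw [hc] at g2
    have u0' := t'.unit hP' (k := 0) (by rw [g2]; decide)
    have u1 := t.unit hP (k := 1) (by rw [hc]; decide)
    have hsum := t.nt_sum hP (i := 0) (j := 1) (by rw [hc]; decide) (by rw [hc]; decide)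
      (by decide)
    have hsum' := t'.nt_sum hP' (i := 0) (j := 1) (by rw [g2]; decide) (by rw [g2]; decide)
      (by decide)
    rw [hc] at hsum
    rw [g2] at hsum'
    have w0 := t.wq_nt hP (k := 0) (by rw [hc]; decide)
    have w1 := t.wq_nt hP (k := 1) (by rw [hc]; decide)
    have w0' := t'.wq_nt hP' (k := 0) (by rw [g2]; decide)
    have w1' := t'.wq_nt hP' (k := 1) (by rw [g2]; decide)
    have d := t.dvd_iff hP (i := 0) (j := 1) (by rw [hc]; decide) (by rw [hc]; decide) (by decide)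
    have d' := t'.dvd_iff hP' (i := 0) (j := 1) (by rw [g2]; decide) (by rw [g2]; decide)
      (by decide)
    have hw2 := W.c2 hpos
    have hw3 := W.c3 hpos
    rw [hs] at hw3
    rw [hc] at d ⊢
    rw [g2] at d'
    have e1 : (2 : Fin 3) + 1 = 0 := by decide
    have e2 : (2 : Fin 3) + 2 = 1 := by decide
    have e3 : (((2 : Fin 3) : ℕ) : ZMod 3) = 2 := by decide
    rw [e1, e2, e3]
    obtain ⟨v, hv⟩ := ZMod.intCast_surjective (n := 3) ((cwt p e pos 0 - cwt p e pos 1) * s)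
    have hcls := clsII_2 (t.nt_ndvd hP (k := 0) (by rw [hc]; decide))
      (t.nt_ndvd hP (k := 1) (by rw [hc]; decide)) (t'.nt_ndvd hP' (k := 0) (by rw [g2]; decide))
      (t'.nt_ndvd hP' (k := 1) (by rw [g2]; decide))
      (ndvd_mul (ndvd_mul (b.rd3 pos 1) u1) u0')
      (fun h => ntg9 (t.nt_dvd (k := 2) h)) (fun h => ntg9 (t'.nt_dvd (k := 2) h)) hsum hsum'
      (by rw [w0, w1, w0', w1']; exact hw2.symm) rel (s := v) (by
        rw [w0, w1, w0', hv]
        by_cases h : cwt p e pos 0 = cwt p e pos 1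
        · rw [h, sub_self, neg_zero, zero_mul, zero_mul]
        · have h' : cwt p e' pos' 0 ≠ cwt p e' pos' 1 := by
            intro h'
            rw [h', sub_self] at hw2
            exact h (sub_eq_zero.mp hw2.symm)
          have n2 : ¬ (3 : ℤ) ∣ x 2 := fun h3 => h (d.mp h3)
          have n2' : ¬ (3 : ℤ) ∣ y 2 := fun h3 => h' (d'.mp h3)
          have w2 : wq (ntg p e pos x 2) = cwt p e pos 2 := by
            unfold ntg
            rw [wq_mul_cube (dcl_ndvd t.h3 pos 2) n2, wq_dcl t.h3]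
          have w2' : wq (ntg p e' pos' y 2) = cwt p e' pos' 2 := by
            unfold ntg
            rw [wq_mul_cube (dcl_ndvd t'.h3 pos' 2) n2', wq_dcl t'.h3]
          rw [w2, w2', hw3]; ring)
    have e : -1 - (v : ZMod 3) = 1 - 2 - (cwt p e pos 0 - cwt p e pos 1) * s := by
      rw [hv]; ring
    rw [e] at hcls
    exact hcls

/-! ### case I -/

theorem key_w0' : ∀ X d Q R w0 : ZMod 3, X ≠ 0 → Q ≠ 0 → R ≠ 0 →
    X * (-d) * X * (-X) = Q * R * w0 → w0 = Q * R * X * d := by decide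

theorem caseI_keyg {X X' D w0 Q Q' R y0 y1 y2 d s qb : ZMod 3} (hX : X ≠ 0) (hs : s ≠ 0)
    (hQ : Q ≠ 0) (hR : R ≠ 0) (h1 : R * y1 = -s * y0) (h2 : y0 + Q' * y2 = 0)
    (hQQ : Q * Q' = qb) (h4 : D = X * (-d)) (h5 : X + X' = 0) (h3 : D * X * X' = Q * R * w0) :
    w0 * (qb * y2) = (d * s) * (X * y1) := by
  have hQ2 := z3_sq1 Q hQ
  have hR2 := z3_sq1 R hR
  have hs2 := z3_sq1 s hs
  have e1 : Q' = qb * Q := by linear_combination Q * hQQ - Q' * hQ2
  have e2 : y0 = -(qb * Q * y2) := by linear_combination h2 - y2 * e1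
  have e3 : y1 = R * s * (qb * Q * y2) := by
    linear_combination R * h1 - y1 * hR2 - R * s * e2
  have e5 : X' = -X := by linear_combination h5
  rw [h4, e5] at h3
  have e4 := key_w0' X d Q R w0 hX hQ hR h3
  rw [e3, e4]
  linear_combination (-(X * d * R * Q * qb * y2)) * hs2

theorem dcl_prod (p e : Fin m → ℕ) (pos : Fin m → Fin 3) :
    dcl p e pos 0 * dcl p e pos 1 * dcl p e pos 2 =
      ∏ j, if p j ≠ 3 then (p j : ℤ) ^ e j else 1 := by
  simp only [dcl, ← Finset.prod_mul_distrib]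
  refine Finset.prod_congr rfl (fun j _ => ?_)
  have h3 : pos j = 0 ∨ pos j = 1 ∨ pos j = 2 := by
    generalize pos j = k; revert k; decide
  rcases h3 with h3 | h3 | h3 <;> by_cases h : p j = 3 <;> simp [h3, h]

theorem dcl_std0 (p e : Fin m → ℕ) (S : Finset (Fin m)) : dcl p e (stdS S) 0 = 1 := by
  unfold dcl stdS
  refine Finset.prod_eq_one (fun j _ => ?_)
  rw [if_neg]
  rintro ⟨h, -⟩
  split_ifs at h <;> exact absurd h (by decide)

theorem dcl_std2 (b : BaseT p e e' S) (n : Fin m → ℕ) : dcl p n (stdS S) 2 = bS p n S := by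
  unfold dcl stdS bS
  refine Finset.prod_congr rfl (fun j _ => ?_)
  by_cases h : j ∈ S
  · rw [if_pos ⟨by rw [if_pos h], b.nS j h⟩, if_pos h]
  · rw [if_neg, if_neg h]
    rintro ⟨h', -⟩
    rw [if_neg h] at h'
    exact absurd h' (by decide)

theorem dcl_std1_eq (b : BaseT p e e' S) : dcl p e' (stdS S) 1 = dcl p e (stdS S) 1 := by
  unfold dcl stdS
  refine Finset.prod_congr rfl (fun j _ => ?_)
  have := b.rel j
  by_cases h : j ∈ S
  · rw [if_neg, if_neg]
    · rintro ⟨h', -⟩; rw [if_pos h] at h'; exact absurd h' (by decide)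
    · rintro ⟨h', -⟩; rw [if_pos h] at h'; exact absurd h' (by decide)
  · rw [if_neg h] at this
    rw [this]

theorem cwt_std0 (p e : Fin m → ℕ) (S : Finset (Fin m)) : cwt p e (stdS S) 0 = 0 := by
  unfold cwt stdS
  refine Finset.sum_eq_zero (fun j _ => ?_)
  rw [if_neg]
  split_ifs <;> decide

theorem cwt_std2 (p e : Fin m → ℕ) (S : Finset (Fin m)) :
    cwt p e (stdS S) 2 = ∑ j ∈ S, sg p e j := by
  classical
  have h1 : ∑ j ∈ S, sg p e j = ∑ j, if j ∈ S then sg p e j else 0 := by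
    rw [Finset.sum_ite_mem, Finset.univ_inter]
  rw [h1]
  unfold cwt stdS
  refine Finset.sum_congr rfl (fun j _ => ?_)
  by_cases h : j ∈ S
  · rw [if_pos h, if_pos rfl, if_pos h]
  · rw [if_neg h, if_neg (by decide), if_neg h]

theorem std_i3 {i3 : Fin m} (hi : i3 ∉ S) : stdS S i3 = 1 := by
  unfold stdS; rw [if_neg hi]

theorem sum_sg' (b : BaseT p e e' S) : ∑ j ∈ S, sg p e' j = - ∑ j ∈ S, sg p e j := by
  rw [← Finset.sum_neg_distrib]
  exact Finset.sum_congr rfl (fun j hj => b.wt.ins j hj)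

theorem three_prodZ' {i j k : Fin 3} (h01 : i ≠ j) (h02 : i ≠ k) (h12 : j ≠ k) (f : Fin 3 → ℤ) :
    ∏ j, f j = f i * f j * f k := by
  rw [Fin.prod_univ_three]
  have key : ∀ i j k : Fin 3, i ≠ j → i ≠ k → j ≠ k → (i = 0 ∧ j = 1 ∧ k = 2) ∨
    (i = 0 ∧ j = 2 ∧ k = 1) ∨ (i = 1 ∧ j = 0 ∧ k = 2) ∨ (i = 1 ∧ j = 2 ∧ k = 0) ∨
    (i = 2 ∧ j = 0 ∧ k = 1) ∨ (i = 2 ∧ j = 1 ∧ k = 0) := by decide
  rcases key i j k h01 h02 h12 with ⟨rfl, rfl, rfl⟩ | ⟨rfl, rfl, rfl⟩ | ⟨rfl, rfl, rfl⟩ |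
    ⟨rfl, rfl, rfl⟩ | ⟨rfl, rfl, rfl⟩ | ⟨rfl, rfl, rfl⟩ <;> ring

/-- the arithmetic of case I -/
theorem caseI_modg (b : BaseT p e e' S) {i3 : Fin m} (t : Th p e i3) (t' : Th p e' i3)
    (hi3 : i3 ∉ S) {s : ZMod 3} (hs : ∑ j ∈ S, sg p e j = s) (hs0 : s ≠ 0)
    (hP : IsPt p e pos x) (hP' : IsPt p e' (stdS S) y) {i j : Fin 3} (hi : i ≠ pos i3)
    (hj : j ≠ pos i3) (hij : i ≠ j) :
    ((x 0 * x 1 * x 2 * (qS p S * y 2) : ℤ) : ZMod 3) =
      ((cwt p e pos i - cwt p e pos j) * s) *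
        ((ntg p e pos x i * y 1 : ℤ) : ZMod 3) := by
  have st := std_i3 hi3
  have hsum' := t'.nt_sum hP' (i := 0) (j := 2) (by rw [st]; decide) (by rw [st]; decide)
    (by decide)
  have hmod' := t'.nt_mod hP' (i := 0) (j := 2) (by rw [st]; decide) (by rw [st]; decide)
    (by decide)
  rw [st, cwt_std0, cwt_std2, sum_sg' b, hs] at hmod'
  rw [st] at hsum'
  have m0 : ntg p e' (stdS S) y 0 = y 0 ^ 3 := by unfold ntg; rw [dcl_std0]; ring
  have m1 : ntg p e' (stdS S) y 1 = dcl p e (stdS S) 1 * y 1 ^ 3 := by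
    unfold ntg; rw [dcl_std1_eq b]
  have m2 : ntg p e' (stdS S) y 2 = bS p e' S * y 2 ^ 3 := by unfold ntg; rw [dcl_std2 b]
  rw [m0, m1] at hmod'
  rw [m0, m1, m2] at hsum'
  have hsumZ := congrArg (fun n : ℤ => (n : ZMod 3)) hsum'
  push_cast at hsumZ hmod'
  simp only [z3_cube, three_zmod, zero_mul, add_zero] at hsumZ hmod'
  -- the point `P`
  have hsum := t.nt_sum hP hi hj hij
  have hmod := t.nt_mod hP hi hj hij
  have hsZ := congrArg (fun n : ℤ => (n : ZMod 3)) hsum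
  push_cast at hsZ
  rw [three_zmod, zero_mul, add_zero] at hsZ
  have hprodd : ∏ k, ntg p e pos x k = ntg p e pos x (pos i3) * ntg p e pos x i *
      ntg p e pos x j := by
    exact three_prodZ' (Ne.symm hi) (Ne.symm hj) hij _
  have hBC : bS p e S * dcl p e (stdS S) 1 = dcl p e pos 0 * dcl p e pos 1 * dcl p e pos 2 := by
    rw [dcl_prod, ← dcl_prod p e (stdS S), dcl_std0, dcl_std2 b]; ring
  have hprod : ntg p e pos x (pos i3) * ntg p e pos x i * ntg p e pos x j =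
      bS p e S * dcl p e (stdS S) 1 * (x 0 * x 1 * x 2) ^ 3 := by
    rw [← hprodd, Fin.prod_univ_three, hBC]
    unfold ntg
    ring
  have hpZ := congrArg (fun n : ℤ => (n : ZMod 3)) hprod
  push_cast at hpZ
  simp only [z3_cube] at hpZ
  have hq : (qS p S : ZMod 3) ^ 3 = (bS p e S : ZMod 3) * (bS p e' S : ZMod 3) := by
    have := congrArg (fun n : ℤ => (n : ZMod 3)) b.bb
    push_cast at this
    exact this.symm
  rw [z3_cube] at hq
  have hB3 : ∀ n : Fin m → ℕ, ¬ (3 : ℤ) ∣ bS p n S := fun n =>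
    prod_ndvd t.h3 (fun j => j ∈ S) (fun j hj => b.nS j hj) n
  push_cast
  refine caseI_keyg (X := (ntg p e pos x i : ZMod 3)) (X' := (ntg p e pos x j : ZMod 3))
    (D := (ntg p e pos x (pos i3) : ZMod 3)) (Q := (bS p e S : ZMod 3))
    (Q' := (bS p e' S : ZMod 3))
    (R := (dcl p e (stdS S) 1 : ZMod 3)) (y0 := (y 0 : ZMod 3))
    (z3_ne.mpr (t.nt_ndvd hP hi)) hs0 (z3_ne.mpr (hB3 e))
    (z3_ne.mpr (dcl_ndvd t.h3 _ _))
    ?_ ?_ hq.symm ?_ hsZ ?_
  · linear_combination hmod'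
  · linear_combination hsumZ
  · rw [hmod]; ring
  · linear_combination hpZ

/-- the class in case I -/
theorem cls_tIg (b : BaseT p e e' S) {i3 : Fin m} (t : Th p e i3) (t' : Th p e' i3)
    (hi3 : i3 ∉ S) {s : ZMod 3} (hs : ∑ j ∈ S, sg p e j = s) (hs0 : s ≠ 0)
    (hP : IsPt p e pos x) (hP' : IsPt p e' (stdS S) y) :
    Cls (tI p e S pos x y) (((pos i3 : ℕ) : ZMod 3) +
      (cwt p e pos (pos i3 + 1) - cwt p e pos (pos i3 + 2)) * s) := by
  have st := std_i3 hi3
  have hy : ¬ (3 : ℤ) ∣ y 1 := by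
    have h := t'.dvd_iff hP' (i := 0) (j := 2) (by rw [st]; decide) (by rw [st]; decide)
      (by decide)
    rw [st, cwt_std0, cwt_std2, sum_sg' b, hs] at h
    intro h3
    have h4 := h.mp h3
    exact hs0 (by linear_combination h4)
  have hsum : term p e pos x 0 + term p e pos x 1 + term p e pos x 2 = 0 := sum3 hP.sum
  have e3 : ∀ z : ℤ, ((3 * (x 0 * x 1 * x 2) * z : ℤ) : Eis) =
      ((3 * (x 0 * x 1 * x 2 * z) : ℤ) : Eis) := by intro z; push_cast; ring
  have hc : pos i3 = 0 ∨ pos i3 = 1 ∨ pos i3 = 2 := by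
    generalize pos i3 = k; revert k; decide
  unfold tI tOne
  rw [e3]
  rcases hc with hc | hc | hc
  · have hm := caseI_modg b t t' hi3 hs hs0 hP hP' (i := 1) (j := 2) (by rw [hc]; decide)
      (by rw [hc]; decide) (by decide)
    have t0 := t.term_eq (pos := pos) (x := x) 0
    have t1 := t.term_eq (pos := pos) (x := x) 1
    rw [if_pos hc] at t0
    rw [if_neg (by rw [hc]; decide), one_mul] at t1
    rw [← t1] at hm
    have h := clsI_0 t0 (by rw [t1]; exact t.nt_ndvd hP (by rw [hc]; decide)) hy hsum hm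
    rw [hc]
    exact h
  · have hm := caseI_modg b t t' hi3 hs hs0 hP hP' (i := 2) (j := 0) (by rw [hc]; decide)
      (by rw [hc]; decide) (by decide)
    have t0 := t.term_eq (pos := pos) (x := x) 1
    have t1 := t.term_eq (pos := pos) (x := x) 2
    rw [if_pos hc] at t0
    rw [if_neg (by rw [hc]; decide), one_mul] at t1
    rw [← t1] at hm
    have h := clsI_1 t0 (by rw [t1]; exact t.nt_ndvd hP (by rw [hc]; decide)) hy hsum hm
    rw [hc]
    have e : ((((1 : Fin 3) : ℕ)) : ZMod 3) = 1 := by decide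
    rw [e]
    exact h
  · have hm := caseI_modg b t t' hi3 hs hs0 hP hP' (i := 0) (j := 1) (by rw [hc]; decide)
      (by rw [hc]; decide) (by decide)
    have t0 := t.term_eq (pos := pos) (x := x) 2
    have t1 := t.term_eq (pos := pos) (x := x) 0
    rw [if_pos hc] at t0
    rw [if_neg (by rw [hc]; decide), one_mul] at t1
    rw [← t1] at hm
    have h := clsI_2 t0 (by rw [t1]; exact t.nt_ndvd hP (by rw [hc]; decide)) hy hsum hm
    rw [hc]
    have e : ((((2 : Fin 3) : ℕ)) : ZMod 3) = 2 := by decide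
    rw [e]
    exact h

/-! ### case III -/

theorem y_divg {B C1 x y z : ℤ} (hx : ¬ (3 : ℤ) ∣ x) (hB : ¬ (3 : ℤ) ∣ B) (hz : ¬ (3 : ℤ) ∣ z)
    (hC : ¬ (3 : ℤ) ∣ C1) (hw : wq B = 0) (h : x ^ 3 + 3 * C1 * y ^ 3 + B * z ^ 3 = 0) :
    (3 : ℤ) ∣ y := by
  have h1 := wq_diff (U := x ^ 3) (V := B * z ^ 3) (D := C1 * y ^ 3) (ndvd_pw hx 3)
    (ndvd_mul hB (ndvd_pw hz 3)) (by linarith)
  rw [wq_mul_cube hB hz, wq_cube hx, hw, sub_zero, mul_zero, z3_eq] at h1
  exact Int.prime_three.dvd_of_dvd_pow ((Int.prime_three.dvd_or_dvd h1).resolve_left hC)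

theorem cube_congr81' {X Y : ℤ} (hX : ¬ (3 : ℤ) ∣ X) (h : (81 : ℤ) ∣ X ^ 3 - Y ^ 3) :
    (27 : ℤ) ∣ X - Y := by
  obtain ⟨k, hk⟩ := cube_congr hX ((by norm_num : (27 : ℤ) ∣ 81).trans h)
  obtain ⟨c, hc⟩ := h
  have hY : Y = X - 9 * k := by linarith
  have h9 : (3 : ℤ) ∣ k * X ^ 2 := by
    refine ⟨c + 3 * k ^ 2 * X - 9 * k ^ 3, ?_⟩
    rw [hY] at hc
    have : (27 : ℤ) * (k * X ^ 2) = 27 * (3 * (c + 3 * k ^ 2 * X - 9 * k ^ 3)) := by linarith
    linarith
  have hk3 : (3 : ℤ) ∣ k := (Int.prime_three.dvd_or_dvd h9).resolve_right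
    (fun h => hX (Int.prime_three.dvd_of_dvd_pow h))
  obtain ⟨u, hu⟩ := hk3
  exact ⟨u, by rw [hk, hu]; ring⟩

/-- the class of the main element of case III when 3 divides `C` and `y`, `y'` -/
theorem cls_Xig {B B' C1 Q x y z x' y' z' : ℤ} (hBB : B * B' = Q ^ 3)
    (h : x ^ 3 + 3 * C1 * y ^ 3 + B * z ^ 3 = 0) (h' : x' ^ 3 + 3 * C1 * y' ^ 3 + B' * z' ^ 3 = 0)
    (hx : ¬ (3 : ℤ) ∣ x) (hx' : ¬ (3 : ℤ) ∣ x') (hy : (3 : ℤ) ∣ y) (hy' : (3 : ℤ) ∣ y') :
    Cls (XiZ (3 * C1) Q x y z x' y' z') 0 := by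
  obtain ⟨v, rfl⟩ := hy
  obtain ⟨v', rfl⟩ := hy'
  have h81 : (81 : ℤ) ∣ (x * x') ^ 3 - (Q * z * z') ^ 3 := by
    refine ⟨C1 * (-(v ^ 3 * x' ^ 3) + B * z ^ 3 * v' ^ 3), ?_⟩
    linear_combination x' ^ 3 * h - B * z ^ 3 * h' + (z * z') ^ 3 * hBB
  obtain ⟨k, hk⟩ := cube_congr81' (ndvd_mul hx hx') h81
  have hn : (Q : Eis) * z * z' = x * x' - 27 * k := by
    have e : Q * z * z' = x * x' - 27 * k := by linarith
    exact_mod_cast congrArg (fun n : ℤ => (n : Eis)) e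
  have h9 : (9 : Eis) = lam ^ 4 * w := by decide
  have := cls_mk (t := XiZ (3 * C1) Q x (3 * v) z x' (3 * v') z') (n := (x * x') ^ 3)
    (r := 3 * (-(5 * (x * x') ^ 2 * k) + 81 * (x * x') * k ^ 2 - 486 * k ^ 3 +
      w ^ 2 * C1 * (x * v' + x' * v) ^ 3 + w * 81 * C1 ^ 2 * (v * v') ^ 3 -
        3 * C1 * (x * v' + x' * v) * (v * v') * (x * x' - 27 * k))) 4 1
    (by
      rw [XiZ, Xi, hn, pow_one, ← mul_assoc (lam ^ 4) w, ← h9]
      push_cast
      ring) (ndvd_pw (ndvd_mul hx hx') 3)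
  have e : ((1 : ℕ) : ZMod 3) - ((4 : ℕ) : ZMod 3) = 0 := by decide
  rwa [e] at this

/-- **Case III**, 3 divides `C` once and `wq B = 0` -/
theorem caseIII_C3g {q : ℕ} (hq : q.Prime) (hq3 : q % 3 = 2)
    {B B' C1 Q x y z x' y' z' : ℤ} (hBB : B * B' = Q ^ 3)
    (hqQ : (q : ℤ) ∣ Q) (hqB : (q : ℤ) ∣ B) (hqB' : (q : ℤ) ∣ B') (hCi : InertD (3 * C1))
    (hQi : InertD Q) (hC1 : ¬ (3 : ℤ) ∣ C1)
    (h : x ^ 3 + 3 * C1 * y ^ 3 + B * z ^ 3 = 0)
    (h' : x' ^ 3 + 3 * C1 * y' ^ 3 + B' * z' ^ 3 = 0)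
    (cxy : IsCoprime x (3 * C1 * y)) (cyz : IsCoprime (3 * C1 * y) (B * z))
    (cxy' : IsCoprime x' (3 * C1 * y')) (cyz' : IsCoprime (3 * C1 * y') (B' * z'))
    (hz : z ≠ 0) (hz' : z' ≠ 0) (hwB : wq B = 0) (hwB' : wq B' = 0)
    (hwq : sym (q : Eis) w ≠ 0) : False := by
  have hQ := prime_inert hq hq3
  obtain ⟨qnd, symq⟩ := caseIII_q hq hq3 hqQ hqB hqB' h h' cyz cyz'
  have hΞ0 : XiZ (3 * C1) Q x y z x' y' z' ≠ 0 := by
    intro h0; rw [h0] at qnd; exact qnd (dvd_zero _)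
  have nd : ∀ {a c : ℤ}, IsCoprime a (3 * C1 * c) → ¬ (3 : ℤ) ∣ a := by
    intro a c hc ha
    exact Int.prime_three.not_isUnit (hc.isUnit_of_dvd' ha
      (Dvd.dvd.mul_right (dvd_mul_right _ _) _))
  have hBz := nd cyz.symm
  have hBz' := nd cyz'.symm
  have hB : ¬ (3 : ℤ) ∣ B := fun h => hBz (Dvd.dvd.mul_right h _)
  have hB' : ¬ (3 : ℤ) ∣ B' := fun h => hBz' (Dvd.dvd.mul_right h _)
  have hz3 : ¬ (3 : ℤ) ∣ z := fun h => hBz (Dvd.dvd.mul_left h _)
  have hz3' : ¬ (3 : ℤ) ∣ z' := fun h => hBz' (Dvd.dvd.mul_left h _)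
  have h1 := lemmaB1 hq hq3 qnd (cls_Xig hBB h h' (nd cxy) (nd cxy')
    (y_divg (nd cxy) hB hz3 hC1 hwB h) (y_divg (nd cxy') hB' hz3' hC1 hwB' h'))
    (fun l hl hl3 hlΞ =>
    caseIII_loc hq hq3 hBB hCi hQi h h' cxy cxy' hz hz' hΞ0 hl hl3
      (fun h => qnd ((hl.associated_of_dvd hQ h).symm.dvd.trans hlΞ)))
  rw [symq] at h1
  have key : ∀ u : ZMod 3, 2 * u = 0 * u → u ≠ 0 → False := by decide
  exact key _ h1 hwq

theorem wq_bSg (b : BaseT p e e' S) (n : Fin m → ℕ) : wq (bS p n S) = ∑ j ∈ S, sg p n j := by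
  classical
  have h1 : ∑ j ∈ S, sg p n j = ∑ j, if j ∈ S then sg p n j else 0 := by
    rw [Finset.sum_ite_mem, Finset.univ_inter]
  rw [h1]
  exact wq_prod_if b.h3 (fun j => j ∈ S) (fun j hj => b.nS j hj) n

/-- case III when 3 divides `A` once and the exchanged weights sum to zero -/
theorem caseIII_Th (b : BaseT p e e' S) {i3 : Fin m} (t : Th p e i3)
    (hi3 : i3 ∉ S) (hs : ∑ j ∈ S, sg p e j = 0) {i0 : Fin m} (hi0 : i0 ∈ S)
    (hw0 : sym (p i0 : Eis) w ≠ 0)
    (hP : IsPt p e (stdS S) x) (hP' : IsPt p e' (stdS S) y) : False := by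
  have hx := sum3 hP.sum
  have hy := sum3 hP'.sum
  have he0 : e i0 ≠ 0 := by have := b.he i0; omega
  have he0' : e' i0 ≠ 0 := by have := b.he' i0; omega
  have c0 := cellS0 p e S
  have c0' := cellS0 p e' S
  have c1 : cell p e (stdS S) 1 = 3 * dcl p e (stdS S) 1 := by
    rw [t.cell_eq, if_pos (std_i3 hi3)]; ring
  have c1' : cell p e' (stdS S) 1 = 3 * dcl p e (stdS S) 1 := by
    rw [← cellS1_eqG b, c1]
  have k01 := hP.cop 0 1 (by decide)
  have k12 := hP.cop 1 2 (by decide)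
  have k01' := hP'.cop 0 1 (by decide)
  have k12' := hP'.cop 1 2 (by decide)
  rw [c0, c1, cellS2] at hx
  rw [c0', c1', cellS2] at hy
  rw [c0, c1, one_mul] at k01
  rw [c1, cellS2] at k12
  rw [c0', c1', one_mul] at k01'
  rw [c1', cellS2] at k12'
  refine caseIII_C3g (b.hp i0) (b.sp3 hi0) b.bb
    (dvd_prod_if (fun j => j ∈ S) hi0 one_ne_zero)
    (dvd_prod_if (fun j => j ∈ S) hi0 he0)
    (dvd_prod_if (fun j => j ∈ S) hi0 he0') ?_
    (inertD_prodG b (fun j => j ∈ S) (fun _ => 1)) (dcl_ndvd t.h3 _ _)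
    (by linear_combination hx) (by linear_combination hy) k01 k12 k01' k12' (hP.ne 2)
    (hP'.ne 2) (by rw [wq_bSg b]; exact hs) (by rw [wq_bSg b, sum_sg' b, hs, neg_zero])
    hw0
  rw [← c1, cellS1]
  exact inertD_prodG b (fun j => ¬ j ∈ S) e

end Pool.Agent.CubeRank


end

section

/-!
# Classes when 3 does not divide `A`; 3-adic information in all cases
-/

set_option autoImplicit false

namespace Pool.Agent.CubeRank

open Pool.Agent.Lib_helper18 Pool.Agent.Lib_helper18.Eis Pool.Agent.Lib_helper84.Cub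

variable {m : ℕ} {p e e' : Fin m → ℕ} {pos pos' : Fin m → Fin 3} {x y : Fin 3 → ℤ}
  {S : Finset (Fin m)}

theorem cls_tII_zeroG (b : BaseT p e e' S) (h : (3 : ℤ) ∣ x 1 ∨ (3 : ℤ) ∣ y 0)
    (h0 : ¬ (3 : ℤ) ∣ x 0) (h1 : ¬ (3 : ℤ) ∣ y 1) : Cls (tII p S pos x y) 0 := by
  rw [tII_eqS]
  refine clsTwo_zero ?_ (ndvd_mul (ndvd_mul (b.rd3 pos 0) h0) h1)
  rcases h with h | h
  · exact Dvd.dvd.mul_right (Dvd.dvd.mul_left h _) _
  · exact Dvd.dvd.mul_left h _

theorem cls_tII_oneG (b : BaseT p e e' S) (h : (3 : ℤ) ∣ x 0 ∨ (3 : ℤ) ∣ y 1)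
    (h0 : ¬ (3 : ℤ) ∣ x 1) (h1 : ¬ (3 : ℤ) ∣ y 0) : Cls (tII p S pos x y) 1 := by
  rw [tII_eqS]
  refine clsTwo_one ?_ (ndvd_mul (ndvd_mul (b.rd3 pos 1) h0) h1)
  rcases h with h | h
  · exact Dvd.dvd.mul_right (Dvd.dvd.mul_left h _) _
  · exact Dvd.dvd.mul_left h _

theorem cls_tII_twoG (b : BaseT p e e' S) (hpos : Exch S pos pos')
    (hP : IsPt p e pos x) (hP' : IsPt p e' pos' y)
    (h3 : ∀ k, ¬ (3 : ℤ) ∣ cell p e pos k) (h3' : ∀ k, ¬ (3 : ℤ) ∣ cell p e' pos' k)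
    (hx0 : ¬ (3 : ℤ) ∣ x 0) (hx1 : ¬ (3 : ℤ) ∣ x 1) (hy0 : ¬ (3 : ℤ) ∣ y 0)
    (hy1 : ¬ (3 : ℤ) ∣ y 1) (hxy : (3 : ℤ) ∣ x 2 ∨ (3 : ℤ) ∣ y 2) :
    Cls (tII p S pos x y) 2 := by
  have hx := sum3 hP.sum
  have hy := sum3 hP'.sum
  have h1 := exch_h1G b hpos
  set X := rdP p S pos 1 * x 1 * y 0 with hX
  set Y := rdP p S pos 0 * x 0 * y 1 with hY
  have hXn : ¬ (3 : ℤ) ∣ X := ndvd_mul (ndvd_mul (b.rd3 pos 1) hx1) hy0
  have hYn : ¬ (3 : ℤ) ∣ Y := ndvd_mul (ndvd_mul (b.rd3 pos 0) hx0) hy1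
  have hid : cell p e' pos' 0 * cell p e pos 1 * (X ^ 3 - Y ^ 3) =
      rdP p S pos 1 ^ 3 * (cell p e pos 0 * cell p e' pos' 2 * (x 0 * y 2) ^ 3 -
        cell p e' pos' 0 * cell p e pos 2 * (x 2 * y 0) ^ 3) := by
    rw [hX, hY]
    linear_combination (x 0 * y 1) ^ 3 * h1 +
      rdP p S pos 1 ^ 3 * cell p e' pos' 0 * y 0 ^ 3 * hx -
      rdP p S pos 1 ^ 3 * cell p e pos 0 * x 0 ^ 3 * hy
  have c3 : ∀ {z : ℤ}, ¬ (3 : ℤ) ∣ z → ¬ (3 : ℤ) ∣ z ^ 3 := fun hz h =>
    hz (Int.prime_three.dvd_of_dvd_pow h)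
  have key : (3 : ℤ) ∣ X - Y → (3 : ℤ) ∣ x 2 ∧ (3 : ℤ) ∣ y 2 := by
    intro h
    have h4 : (3 : ℤ) ∣ cell p e' pos' 0 * cell p e pos 1 * (X ^ 3 - Y ^ 3) := by
      apply Dvd.dvd.mul_left
      exact h.trans (sub_dvd_pow_sub_pow X Y 3)
    rw [hid] at h4
    have h5 := (Int.prime_three.dvd_or_dvd h4).resolve_left
      (fun h => b.rd3 pos 1 (Int.prime_three.dvd_of_dvd_pow h))
    rcases hxy with hd | hd
    · refine ⟨hd, ?_⟩
      by_contra hy2
      have h6 : (3 : ℤ) ∣ cell p e' pos' 0 * cell p e pos 2 * (x 2 * y 0) ^ 3 :=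
        Dvd.dvd.mul_left (Dvd.dvd.pow (Dvd.dvd.mul_right hd _) (by norm_num)) _
      have h7 := dvd_add h5 h6
      rw [sub_add_cancel] at h7
      exact ndvd_mul (ndvd_mul (h3 0) (h3' 2)) (c3 (ndvd_mul hx0 hy2)) h7
    · refine ⟨?_, hd⟩
      by_contra hx2
      have h6 : (3 : ℤ) ∣ cell p e pos 0 * cell p e' pos' 2 * (x 0 * y 2) ^ 3 :=
        Dvd.dvd.mul_left (Dvd.dvd.pow (Dvd.dvd.mul_left hd _) (by norm_num)) _
      have h7 := dvd_sub h6 h5
      rw [sub_sub_cancel] at h7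
      exact ndvd_mul (ndvd_mul (h3' 0) (h3 2)) (c3 (ndvd_mul hx2 hy0)) h7
  rw [tII_eqS]
  by_cases hXY : (3 : ℤ) ∣ X - Y
  · obtain ⟨⟨v, hv⟩, ⟨u, hu⟩⟩ := key hXY
    refine clsTwo_two' hXn ?_
    apply cube_congr hXn
    have h27 : (3 : ℤ) ^ 3 ∣ (cell p e' pos' 0 * cell p e pos 1) * (X ^ 3 - Y ^ 3) := by
      rw [hid, hu, hv]
      exact ⟨rdP p S pos 1 ^ 3 * (cell p e pos 0 * cell p e' pos' 2 * (x 0 * u) ^ 3 -
        cell p e' pos' 0 * cell p e pos 2 * (v * y 0) ^ 3), by ring⟩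
    have := Int.prime_three.pow_dvd_of_dvd_mul_left 3 (ndvd_mul (h3' 0) (h3 1)) h27
    norm_num at this
    exact this
  · exact clsTwo_two hXn (dvd_add_of hXn hYn hXY)

/-! ### 3-adic information when 3 does not divide `A` -/

theorem cell_dcl (hno : ∀ i, p i ≠ 3) (pos : Fin m → Fin 3) (k : Fin 3) :
    cell p e pos k = dcl p e pos k := by
  unfold cell dcl
  exact Finset.prod_congr rfl (fun j _ => by
    by_cases h : pos j = k
    · rw [if_pos h, if_pos ⟨h, hno j⟩]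
    · rw [if_neg h, if_neg (fun h' => h h'.1)])

/-- total weight -/
def tg {m : ℕ} (p e : Fin m → ℕ) : ZMod 3 := ∑ i, sg p e i

theorem infoG (h3 : ∀ i, p i % 3 = 2 ∨ p i = 3) (hno : ∀ i, p i ≠ 3) (hP : IsPt p e pos x) :
    ∃ o, PInfo p e pos x o ∧
      ∑ i, sg p e i * ((pos i : ℕ) : ZMod 3) = ((o : ℕ) : ZMod 3) * tg p e ∧
      (tg p e = 1 → (3 : ℤ) ∣ x o) := by
  have hc : ∀ k, ¬ (3 : ℤ) ∣ cell p e pos k := fun k => by
    rw [cell_dcl hno]; exact dcl_ndvd h3 pos k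
  obtain ⟨o, ho⟩ := pt_info hc hP
  refine ⟨o, ho, ?_, fun h => ho.div ?_⟩
  · have h := ho.out
    have e1 : (fun k => wq (cell p e pos k)) =
        ![∑ i, (if pos i = 0 then sg p e i else 0), ∑ i, (if pos i = 1 then sg p e i else 0),
          ∑ i, (if pos i = 2 then sg p e i else 0)] := by
      ext k
      rw [cell_dcl hno, wq_dcl h3]
      fin_cases k <;> rfl
    rw [e1] at h
    rw [sum_cells, tg, sum_cells' (sg p e) pos]
    exact exc_aux _ _ _ _ h
  · have e1 : (∏ j, (p j : ℤ) ^ e j) = ∏ j, if p j ≠ 3 then (p j : ℤ) ^ e j else 1 :=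
      Finset.prod_congr rfl (fun j _ => by rw [if_pos (hno j)])
    rw [e1, wq_prod_if h3 (fun j => p j ≠ 3) (fun _ h => h) e, ← h, tg]
    exact Finset.sum_congr rfl (fun j _ => by rw [if_pos (hno j)])

/-! ### 9 divides `A` -/

theorem eps_nine (h3 : ∀ i, p i % 3 = 2 ∨ p i = 3) (hinj : Function.Injective p) {i3 : Fin m}
    (hp3 : p i3 = 3) (he3 : e i3 = 2) (hP : IsPt p e pos x) {i j : Fin 3} (hi : i ≠ pos i3)
    (hj : j ≠ pos i3) (hij : i ≠ j) : cwt p e pos i = cwt p e pos j := by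
  have hne3 : ∀ {j : Fin m}, j ≠ i3 → p j ≠ 3 := fun h h' => h (hinj (h'.trans hp3.symm))
  have hcell : ∀ k, cell p e pos k = dcl p e pos k * (if pos i3 = k then 9 else 1) := by
    intro k
    unfold cell dcl
    have h1 : (if pos i3 = k then (9 : ℤ) else 1) = ∏ j, if j = i3 then
        (if pos i3 = k then (9 : ℤ) else 1) else 1 := by
      rw [Finset.prod_ite_eq' Finset.univ i3, if_pos (Finset.mem_univ _)]
    rw [h1, ← Finset.prod_mul_distrib]
    refine Finset.prod_congr rfl (fun j _ => ?_)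
    by_cases hj : j = i3
    · subst hj
      rw [if_pos (rfl : j = j), hp3, he3]
      by_cases hk : pos j = k
      · simp [hk]
      · simp [hk]
    · rw [if_neg hj, mul_one]
      by_cases hk : pos j = k
      · rw [if_pos hk, if_pos ⟨hk, hne3 hj⟩]
      · rw [if_neg hk, if_neg (fun h => hk h.1)]
  have hunit : ∀ {k : Fin 3}, k ≠ pos i3 → ¬ (3 : ℤ) ∣ x k := by
    intro k hk h
    have h1 := hP.cop k (pos i3) hk
    refine Int.prime_three.not_isUnit (h1.isUnit_of_dvd' (Dvd.dvd.mul_left h _)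
      (Dvd.dvd.mul_right ?_ _))
    rw [hcell, if_pos rfl]
    exact Dvd.dvd.mul_left (by norm_num) _
  have h := hP.sum
  rw [three_sumZ' hij hi hj] at h
  rw [hcell i, hcell j, hcell (pos i3), if_pos rfl, if_neg (Ne.symm hi), if_neg (Ne.symm hj)] at h
  have h9 : (9 : ℤ) ∣ dcl p e pos i * x i ^ 3 + dcl p e pos j * x j ^ 3 :=
    ⟨-(dcl p e pos (pos i3) * x (pos i3) ^ 3), by linear_combination h⟩
  have h4 := wq_of_add h9
  rwa [wq_mul_cube (dcl_ndvd h3 pos i) (hunit hi), wq_mul_cube (dcl_ndvd h3 pos j) (hunit hj),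
    wq_dcl h3, wq_dcl h3] at h4

end Pool.Agent.CubeRank


end

section

/-!
# The reciprocity law (M7)
-/

set_option autoImplicit false

namespace Pool.Agent.CubeRank

open Pool.Agent.Lib_helper18 Pool.Agent.Lib_helper18.Eis Pool.Agent.Lib_helper84.Cub

variable {m : ℕ} {p e e' : Fin m → ℕ} {S : Finset (Fin m)}

theorem zf_cast : ∀ z : ZMod 3, ((zf z : ℕ) : ZMod 3) = z := by decide

theorem zf_tau : ∀ z : ZMod 3, zf (1 - z) = tau (zf z) := by decide

theorem zf_fpos : ∀ z : ZMod 3, fpos (zf z) = 1 - z := by decide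

/-- cyclic shifts of the cells -/
def shp (a : ZMod 3) : Equiv.Perm (Fin 3) := Equiv.addRight (zf a)

theorem shp_zf : ∀ a z : ZMod 3, shp a (zf z) = zf (z + a) := by decide

/-- change of sign on the cells -/
def ngp : Equiv.Perm (Fin 3) := Equiv.neg (Fin 3)

theorem ngp_zf : ∀ z : ZMod 3, ngp (zf z) = zf (-z) := by decide

theorem rep_shift {v : Fin m → ZMod 3} (h : Rep p e v) (a : ZMod 3) :
    Rep p e (fun i => v i + a) := by
  obtain ⟨x, hx⟩ := h
  have h1 := hx.perm (shp a)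
  have h2 : (shp a) ∘ (fun i => zf (v i)) = fun i => zf (v i + a) := by
    funext i; exact shp_zf a (v i)
  rw [h2] at h1
  exact ⟨_, h1⟩

theorem rep_neg {v : Fin m → ZMod 3} (h : Rep p e v) : Rep p e (fun i => - v i) := by
  obtain ⟨x, hx⟩ := h
  have h1 := hx.perm ngp
  have h2 : ngp ∘ (fun i => zf (v i)) = fun i => zf (-v i) := by
    funext i; exact ngp_zf (v i)
  rw [h2] at h1
  exact ⟨_, h1⟩

theorem rep_std (h : Rep p e (ind S)) : ∃ y, IsPt p e (stdS S) y := by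
  obtain ⟨x, hx⟩ := rep_shift h 1
  have h2 : (fun i => zf (ind S i + 1)) = stdS S := by
    funext i
    unfold ind stdS
    split_ifs <;> decide
  rw [h2] at hx
  exact ⟨x, hx⟩

theorem base_of (h : Hyp p e) (h' : Hyp p e') (hS : ∀ i, i ∈ S ↔ e i ≠ e' i) :
    BaseS p e e' S where
  hp := h.hp
  h3 := fun i => by have := h.h9 i; omega
  inj := h.inj
  he := h.he
  he' := h'.he
  hw := fun i => by
    rw [FData.sym_w_r (h.hp i) (by have := h.h9 i; omega)]
    exact neg_ne_zero.mpr (wq_ne (h.h9 i))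
  rel := fun j => by
    have h1 := h.he j
    have h2 := h'.he j
    have h3 := hS j
    split_ifs with h4
    · have := h3.mp h4; omega
    · by_contra h5
      exact h4 (h3.mpr h5)

/-- the weights of `e'` -/
theorem sw_in (b : BaseS p e e' S) {i : Fin m} (hi : i ∈ S) : sw p e' i = - sw p e i := by
  have h := b.rel i
  rw [if_pos hi] at h
  have := congrArg (fun n : ℕ => (n : ZMod 3)) h
  push_cast at this
  unfold sw
  linear_combination wq (p i : ℤ) * this + wq (p i : ℤ) * three_zmod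

theorem sw_out (b : BaseS p e e' S) {i : Fin m} (hi : i ∉ S) : sw p e' i = sw p e i := by
  have h := b.rel i
  rw [if_neg hi] at h
  unfold sw
  rw [h]

theorem sum_split (f : Fin m → ZMod 3) (S : Finset (Fin m)) :
    ∑ i, f i = ∑ i ∈ S, f i + ∑ i ∈ Sᶜ, f i := (Finset.sum_add_sum_compl S f).symm

/-- the total weight of `e'` -/
theorem tw_eq (b : BaseS p e e' S) : tw p e' = tw p e + ∑ i ∈ S, sw p e i := by
  unfold tw
  rw [sum_split _ S, sum_split (sw p e) S]
  have h1 : ∑ i ∈ S, sw p e' i = - ∑ i ∈ S, sw p e i := by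
    rw [← Finset.sum_neg_distrib]
    exact Finset.sum_congr rfl (fun i hi => sw_in b hi)
  have h2 : ∑ i ∈ Sᶜ, sw p e' i = ∑ i ∈ Sᶜ, sw p e i :=
    Finset.sum_congr rfl (fun i hi => sw_out b (Finset.mem_compl.mp hi))
  rw [h1, h2]
  linear_combination (-(∑ i ∈ S, sw p e i)) * three_zmod

/-- the product formula with the weights -/
theorem formula (h : Hyp p e) {f : Fin m → ZMod 3} {c : ZMod 3}
    (h1 : ∑ i ∈ S, (e i : ZMod 3) * (f i * sym (p i : Eis) w) =
      c * ∑ i ∈ S, (e i : ZMod 3) * sym (p i : Eis) w) :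
    ∑ i ∈ S, sw p e i * f i = c * ∑ i ∈ S, sw p e i := by
  have hw : ∀ i, sym (p i : Eis) w = - wq (p i : ℤ) := fun i =>
    FData.sym_w_r (h.hp i) (by have := h.h9 i; omega)
  have e1 : ∑ i ∈ S, (e i : ZMod 3) * (f i * sym (p i : Eis) w) = - ∑ i ∈ S, sw p e i * f i := by
    rw [← Finset.sum_neg_distrib]
    refine Finset.sum_congr rfl (fun i _ => ?_)
    rw [hw, sw]; ring
  have e2 : ∑ i ∈ S, (e i : ZMod 3) * sym (p i : Eis) w = - ∑ i ∈ S, sw p e i := by
    rw [← Finset.sum_neg_distrib]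
    refine Finset.sum_congr rfl (fun i _ => ?_)
    rw [hw, sw]; ring
  rw [e1, e2] at h1
  linear_combination -h1

theorem z3_facts : ∀ W s : ZMod 3, W ≠ 0 → W + s ≠ 0 → s ≠ 0 → s = W ∧ (W = 1 ∨ W + s = 1) ∧
    W * W = 1 := by decide

/-- the linear form when the exchanged weights sum to zero -/
theorem Lam_zero {v : Fin m → ZMod 3} (hs : ∑ i ∈ S, sw p e i = 0) :
    Lam p e S v = ∑ i ∈ S, sw p e i * v i := by
  unfold Lam; rw [hs]; ring

theorem fin_of_mul {o : Fin 3} {W : ZMod 3} {k : Fin 3} (hW : W ≠ 0)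
    (h : ((o : ℕ) : ZMod 3) * W = ((k : ℕ) : ZMod 3) * W) : o = k := by
  have h1 := mul_right_cancel₀ hW h
  revert h1; clear * -; revert o k; decide

/-- case I -/
theorem law_I (h : Hyp p e) (h' : Hyp p e') (hS : ∀ i, i ∈ S ↔ e i ≠ e' i) (hne : S.Nonempty)
    (htw : (tw p e ≠ 0 ∧ tw p e' ≠ 0) ∨ (tw p e = 0 ∧ tw p e' = 0))
    (hr : Rep p e' (ind S)) {v : Fin m → ZMod 3} (hv : Rep p e v) : Lam p e S v = 0 := by
  have b := base_of h h' hS
  obtain ⟨y, hy⟩ := rep_std hr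
  obtain ⟨x, hx⟩ := hv
  obtain ⟨ht, hf⟩ := caseI_S b hne hx hy
  have htw' := tw_eq b
  have hform : ∀ c, Cls (tI p e S (fun i => zf (v i)) x y) c →
      ∑ i ∈ S, sw p e i * v i = c * ∑ i ∈ S, sw p e i := by
    intro c hc
    have := formula h (hf c hc)
    simpa only [zf_cast] using this
  by_cases hs : ∑ i ∈ S, sw p e i = 0
  · obtain ⟨c, hc⟩ := exists_cls ht
    rw [Lam_zero hs, hform c hc, hs, mul_zero]
  · have hW : tw p e ≠ 0 ∧ tw p e' ≠ 0 := by
      rcases htw with h1 | ⟨h1, h2⟩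
      · exact h1
      · exfalso; rw [h1, h2, zero_add] at htw'; exact hs htw'.symm
    obtain ⟨f1, f2, f3⟩ := z3_facts _ _ hW.1 (htw' ▸ hW.2) hs
    rw [← htw'] at f2
    obtain ⟨o, hI, ho, hd⟩ := info h.h9 hx
    obtain ⟨o', hI', ho', hd'⟩ := info h'.h9 hy
    have ho2 : o' = 2 := by
      apply fin_of_mul hW.2
      rw [← ho', sum_split _ S]
      have e1 : ∑ i ∈ S, sw p e' i * ((stdS S i : ℕ) : ZMod 3) = -2 * ∑ i ∈ S, sw p e i := by
        rw [Finset.mul_sum]
        refine Finset.sum_congr rfl (fun i hi => ?_)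
        rw [sw_in b hi, stdS, if_pos hi]
        have : (((2 : Fin 3) : ℕ) : ZMod 3) = 2 := by decide
        rw [this]; ring
      have e2 : ∑ i ∈ Sᶜ, sw p e' i * ((stdS S i : ℕ) : ZMod 3) = ∑ i ∈ Sᶜ, sw p e i := by
        refine Finset.sum_congr rfl (fun i hi => ?_)
        rw [sw_out b (Finset.mem_compl.mp hi), stdS, if_neg (Finset.mem_compl.mp hi)]
        have : (((1 : Fin 3) : ℕ) : ZMod 3) = 1 := by decide
        rw [this]; ring
      have e3 : ∑ i ∈ Sᶜ, sw p e i = tw p e - ∑ i ∈ S, sw p e i := by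
        unfold tw; rw [sum_split (sw p e) S]; ring
      rw [e1, e2, e3, htw', f1]
      have : (((2 : Fin 3) : ℕ) : ZMod 3) = 2 := by decide
      rw [this]
      linear_combination (-2 * tw p e) * three_zmod
    subst ho2
    have hy1 : ¬ (3 : ℤ) ∣ y 1 := hI'.unit 1 (by decide)
    have hT : (3 : ℤ) ∣ x 0 * x 1 * x 2 ∨ (3 : ℤ) ∣ y 2 := by
      rcases f2 with f2 | f2
      · left
        have := hd f2
        have h3 : o = 0 ∨ o = 1 ∨ o = 2 := by clear * -; revert o; decide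
        rcases h3 with rfl | rfl | rfl
        · exact Dvd.dvd.mul_right (Dvd.dvd.mul_right this _) _
        · exact Dvd.dvd.mul_right (Dvd.dvd.mul_left this _) _
        · exact Dvd.dvd.mul_left this _
      · exact Or.inr (hd' f2)
    have hc := hform _ (cls_tIS (cell_three' h.h9 _) hx hI hT hy1)
    simp only [zf_cast] at ho
    unfold Lam
    rw [hc, ho, f1]
    linear_combination (-(((o : ℕ) : ZMod 3) * tw p e)) * f3

/-- case II, normalised -/
theorem law_II (h : Hyp p e) (h' : Hyp p e') (hS : ∀ i, i ∈ S ↔ e i ≠ e' i) (hne : S.Nonempty)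
    (htw : (tw p e ≠ 0 ∧ tw p e' ≠ 0) ∨ (tw p e = 0 ∧ tw p e' = 0))
    {v v' : Fin m → ZMod 3} (hv : Rep p e v) (hv' : Rep p e' v')
    (hvv : ∀ i, v' i = if i ∈ S then 1 - v i else v i) : Lam p e S v = 0 := by
  have b := base_of h h' hS
  obtain ⟨x, hx⟩ := hv
  obtain ⟨y, hy⟩ := hv'
  have hpos : Exch S (fun i => zf (v i)) (fun i => zf (v' i)) := by
    intro i
    have := hvv i
    split_ifs at this ⊢ with hi
    · simp only [this]; exact zf_tau _
    · simp only [this]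
  obtain ⟨ht, hf⟩ := caseII_S b hne hx hy hpos
  have htw' := tw_eq b
  have hform : ∀ c, Cls (tII p S (fun i => zf (v i)) x y) c →
      ∑ i ∈ S, sw p e i * v i = (1 - c) * ∑ i ∈ S, sw p e i := by
    intro c hc
    have := formula h (hf c hc)
    simp only [zf_fpos, mul_sub, mul_one, Finset.sum_sub_distrib] at this
    linear_combination -this
  by_cases hs : ∑ i ∈ S, sw p e i = 0
  · obtain ⟨c, hc⟩ := exists_cls ht
    rw [Lam_zero hs, hform c hc, hs, mul_zero]
  · have hW : tw p e ≠ 0 ∧ tw p e' ≠ 0 := by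
      rcases htw with h1 | ⟨h1, h2⟩
      · exact h1
      · exfalso; rw [h1, h2, zero_add] at htw'; exact hs htw'.symm
    obtain ⟨f1, f2, f3⟩ := z3_facts _ _ hW.1 (htw' ▸ hW.2) hs
    rw [← htw'] at f2
    obtain ⟨o, hI, ho, hd⟩ := info h.h9 hx
    obtain ⟨o', hI', ho', hd'⟩ := info h'.h9 hy
    simp only [zf_cast] at ho ho'
    -- o' = 1 - o
    have hoo : ((o' : ℕ) : ZMod 3) = 1 - ((o : ℕ) : ZMod 3) := by
      apply mul_right_cancel₀ hW.2
      rw [← ho', sum_split _ S]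
      have e1 : ∑ i ∈ S, sw p e' i * v' i =
          ∑ i ∈ S, sw p e i * v i - ∑ i ∈ S, sw p e i := by
        rw [← Finset.sum_sub_distrib]
        refine Finset.sum_congr rfl (fun i hi => ?_)
        rw [sw_in b hi, hvv i, if_pos hi]; ring
      have e2 : ∑ i ∈ Sᶜ, sw p e' i * v' i = ∑ i ∈ Sᶜ, sw p e i * v i := by
        refine Finset.sum_congr rfl (fun i hi => ?_)
        rw [sw_out b (Finset.mem_compl.mp hi), hvv i, if_neg (Finset.mem_compl.mp hi)]
      rw [e1, e2, htw', f1]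
      rw [sum_split _ S] at ho
      linear_combination ho + (((o : ℕ) : ZMod 3) * tw p e - tw p e) * three_zmod
    have hcase : (o = 0 ∧ o' = 1) ∨ (o = 1 ∧ o' = 0) ∨ (o = 2 ∧ o' = 2) := by
      revert hoo; clear * -; revert o o'; decide
    have u1 := hI.unit
    have u2 := hI'.unit
    have hcls : Cls (tII p S (fun i => zf (v i)) x y) (1 - ((o : ℕ) : ZMod 3)) := by
      rcases hcase with ⟨rfl, rfl⟩ | ⟨rfl, rfl⟩ | ⟨rfl, rfl⟩
      · have : (1 : ZMod 3) - (((0 : Fin 3) : ℕ) : ZMod 3) = 1 := by decide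
        rw [this]
        exact cls_tII_oneS b (f2.imp hd hd') (u1 1 (by decide)) (u2 0 (by decide))
      · have : (1 : ZMod 3) - (((1 : Fin 3) : ℕ) : ZMod 3) = 0 := by decide
        rw [this]
        exact cls_tII_zeroS b (f2.imp hd hd') (u1 0 (by decide)) (u2 1 (by decide))
      · have : (1 : ZMod 3) - (((2 : Fin 3) : ℕ) : ZMod 3) = 2 := by decide
        rw [this]
        exact cls_tII_twoS b hpos hx hy (cell_three' h.h9 _) (cell_three' h'.h9 _)
          (u1 0 (by decide)) (u1 1 (by decide)) (u2 0 (by decide)) (u2 1 (by decide))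
          (f2.imp hd hd')
    have hc := hform _ hcls
    unfold Lam
    rw [hc, ho, f1]
    linear_combination (-(((o : ℕ) : ZMod 3) * tw p e)) * f3

/-- the linear form does not see constants -/
theorem Lam_shift (h : Hyp p e) (h' : Hyp p e') (hS : ∀ i, i ∈ S ↔ e i ≠ e' i)
    (htw : (tw p e ≠ 0 ∧ tw p e' ≠ 0) ∨ (tw p e = 0 ∧ tw p e' = 0)) (v : Fin m → ZMod 3)
    (a : ZMod 3) : Lam p e S (fun i => v i + a) = Lam p e S v := by
  have b := base_of h h' hS
  have htw' := tw_eq b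
  unfold Lam
  have e1 : ∑ i ∈ S, sw p e i * (v i + a) = ∑ i ∈ S, sw p e i * v i + a * ∑ i ∈ S, sw p e i := by
    rw [Finset.mul_sum, ← Finset.sum_add_distrib]
    exact Finset.sum_congr rfl (fun i _ => by ring)
  have e2 : ∑ i, sw p e i * (v i + a) = ∑ i, sw p e i * v i + a * tw p e := by
    rw [tw, Finset.mul_sum, ← Finset.sum_add_distrib]
    exact Finset.sum_congr rfl (fun i _ => by ring)
  rw [e1, e2]
  rcases htw with ⟨h1, h2⟩ | ⟨h1, h2⟩
  · have h3 : tw p e * tw p e = 1 := by revert h1; generalize tw p e = W; revert W; decide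
    linear_combination (-(a * ∑ i ∈ S, sw p e i)) * h3
  · rw [h1, h2, zero_add] at htw'
    rw [← htw']; ring

/-- **the reciprocity law** -/
theorem law : LawStmt := by
  intro m p e e' S h h' hS hne huniv htw
  have b := base_of h h' hS
  refine ⟨?_, ?_, ?_⟩
  · rintro ⟨h1, h2⟩
    obtain ⟨x, hx⟩ := rep_std h1
    obtain ⟨y, hy⟩ := rep_std h2
    obtain ⟨i0, hi0⟩ := hne
    obtain ⟨i2, hi2⟩ : ∃ i, i ∉ S := by
      by_contra hcon
      push Not at hcon
      exact huniv (Finset.eq_univ_iff_forall.mpr hcon)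
    exact caseIII_S b hi0 hi2 hx hy
  · intro hr v hv
    exact law_I h h' hS hne htw hr hv
  · intro v v' c d hv hv' hvv
    have k1 := rep_shift hv (2 * (1 - c + d))
    have k2 := rep_shift hv' (2 * (1 - c + d) - d)
    have k3 := law_II h h' hS hne htw k1 k2 (by
      intro i
      simp only [hvv i]
      split_ifs
      · linear_combination (1 - c + d) * three_zmod
      · ring)
    rwa [Lam_shift h h' hS htw] at k3

end Pool.Agent.CubeRank


end

section

/-!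
# The reciprocity law, general version
-/

set_option autoImplicit false

namespace Pool.Agent.CubeRank

open Pool.Agent.Lib_helper18 Pool.Agent.Lib_helper18.Eis Pool.Agent.Lib_helper84.Cub

variable {m : ℕ} {p e e' : Fin m → ℕ} {S : Finset (Fin m)}

/-- the value at the prime 3 (0 if there is none) -/
def bas {m : ℕ} (p : Fin m → ℕ) (v : Fin m → ZMod 3) : ZMod 3 := ∑ i, if p i = 3 then v i else 0

open Classical in
/-- the linear form of the law -/
noncomputable def LamG {m : ℕ} (p e : Fin m → ℕ) (S : Finset (Fin m)) (v : Fin m → ZMod 3) :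
    ZMod 3 :=
  if ∑ i ∈ S, sg p e i = 0 then ∑ i ∈ S, sg p e i * v i
  else ∑ i ∈ Sᶜ, sg p e i * (v i - bas p v)

theorem bas_of {i3 : Fin m} (hinj : Function.Injective p) (h3 : p i3 = 3) (v : Fin m → ZMod 3) :
    bas p v = v i3 := by
  unfold bas
  rw [Finset.sum_eq_single i3]
  · rw [if_pos h3]
  · intro j _ hj
    rw [if_neg]
    intro h
    exact hj (hinj (h.trans h3.symm))
  · intro h; exact absurd (Finset.mem_univ _) h

theorem bas_no (h3 : ∀ i, p i ≠ 3) (v : Fin m → ZMod 3) : bas p v = 0 := by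
  unfold bas
  exact Finset.sum_eq_zero (fun i _ => if_neg (h3 i))

/-- the standing hypotheses on the pair -/
structure PairG {m : ℕ} (p e e' : Fin m → ℕ) (S : Finset (Fin m)) : Prop where
  h : HypG p e
  h' : HypG p e'
  hS : ∀ i, i ∈ S ↔ e i ≠ e' i
  nS : ∀ i ∈ S, p i ≠ 3
  inT : ∃ i ∈ S, sg p e i ≠ 0
  typ : ((∀ i, p i ≠ 3) ∧ ((tg p e ≠ 0 ∧ tg p e' ≠ 0) ∨ (tg p e = 0 ∧ tg p e' = 0))) ∨
    (∃ i3, p i3 = 3 ∧ e i3 = 1) ∨ ((∃ i3, p i3 = 3) ∧ ∑ i ∈ S, sg p e i = 0)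
  outT : (∃ i, i ∉ S ∧ sg p e i ≠ 0) ∨
    ((∃ i3, p i3 = 3 ∧ e i3 = 1) ∧ ∑ i ∈ S, sg p e i = 0)

namespace PairG

variable (b : PairG p e e' S)

include b

theorem base : BaseT p e e' S where
  hp := b.h.hp
  h3 := b.h.h3
  inj := b.h.inj
  he := b.h.he
  he' := b.h'.he
  nS := b.nS
  rel := fun j => by
    have h1 := b.h.he j
    have h2 := b.h'.he j
    have h3 := b.hS j
    split_ifs with h4
    · have := h3.mp h4; omega
    · by_contra h5
      exact h4 (h3.mpr h5)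

theorem e_out {i : Fin m} (hi : i ∉ S) : e' i = e i := by
  by_contra h
  exact hi ((b.hS i).mpr (Ne.symm h))

theorem i3_out {i3 : Fin m} (h3 : p i3 = 3) : i3 ∉ S := fun h => b.nS i3 h h3

theorem sumS : ∑ j ∈ S, sg p e' j = - ∑ j ∈ S, sg p e j := sum_sg' b.base

theorem ne : S.Nonempty := by
  obtain ⟨i, hi, -⟩ := b.inT
  exact ⟨i, hi⟩

/-- the symmetric pair -/
theorem symm : PairG p e' e S where
  h := b.h'
  h' := b.h
  hS := fun i => by rw [b.hS i]; exact ne_comm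
  nS := b.nS
  inT := by
    obtain ⟨i, hi, h⟩ := b.inT
    exact ⟨i, hi, by rw [b.base.wt.ins i hi]; exact neg_ne_zero.mpr h⟩
  typ := by
    rcases b.typ with ⟨h1, h2⟩ | ⟨i3, h3, h4⟩ | ⟨h1, h2⟩
    · exact Or.inl ⟨h1, h2.imp And.symm And.symm⟩
    · exact Or.inr (Or.inl ⟨i3, h3, by rw [b.e_out (b.i3_out h3)]; exact h4⟩)
    · exact Or.inr (Or.inr ⟨h1, by rw [b.sumS, h2, neg_zero]⟩)
  outT := by
    rcases b.outT with ⟨i, hi, h⟩ | ⟨⟨i3, h3, h4⟩, h2⟩
    · exact Or.inl ⟨i, hi, by rw [b.base.wt.out i hi]; exact h⟩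
    · exact Or.inr ⟨⟨i3, h3, by rw [b.e_out (b.i3_out h3)]; exact h4⟩, by
        rw [b.sumS, h2, neg_zero]⟩

/-- total weights -/
theorem tg_eq : tg p e' = tg p e + ∑ i ∈ S, sg p e i := by
  unfold tg
  rw [sum_split _ S, sum_split (sg p e) S, b.sumS]
  have h2 : ∑ i ∈ Sᶜ, sg p e' i = ∑ i ∈ Sᶜ, sg p e i :=
    Finset.sum_congr rfl (fun i hi => b.base.wt.out i (Finset.mem_compl.mp hi))
  rw [h2]
  linear_combination (-(∑ i ∈ S, sg p e i)) * three_zmod

/-- without the prime 3, nonzero exchanged weight -/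
theorem noThree (hno : ∀ i, p i ≠ 3) (hs : ∑ i ∈ S, sg p e i ≠ 0) :
    tg p e ≠ 0 ∧ tg p e' ≠ 0 ∧ ∑ i ∈ S, sg p e i = tg p e ∧ (tg p e = 1 ∨ tg p e' = 1) ∧
      tg p e * tg p e = 1 := by
  have hW : tg p e ≠ 0 ∧ tg p e' ≠ 0 := by
    rcases b.typ with ⟨-, h2⟩ | ⟨i3, h3, -⟩ | ⟨⟨i3, h3⟩, -⟩
    · rcases h2 with h2 | ⟨h1, h2⟩
      · exact h2
      · exfalso
        have := b.tg_eq
        rw [h1, h2, zero_add] at this
        exact hs this.symm
    · exact absurd h3 (hno i3)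
    · exact absurd h3 (hno i3)
  obtain ⟨f1, f2, f3⟩ := z3_facts _ _ hW.1 (by rw [← b.tg_eq]; exact hW.2) hs
  rw [← b.tg_eq] at f2
  exact ⟨hW.1, hW.2, f1, f2, f3⟩

/-- with the prime 3 and nonzero exchanged weight, 3 divides `A` once -/
theorem three {i3 : Fin m} (h3 : p i3 = 3) (hs : ∑ i ∈ S, sg p e i ≠ 0) :
    Th p e i3 ∧ Th p e' i3 := by
  have he3 : e i3 = 1 := by
    rcases b.typ with ⟨h1, -⟩ | ⟨i, h4, h5⟩ | ⟨-, h2⟩
    · exact absurd h3 (h1 i3)
    · have : i = i3 := b.h.inj (h4.trans h3.symm)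
      rw [← this]; exact h5
    · exact absurd h2 hs
  exact ⟨⟨b.h.h3, b.h.inj, h3, he3⟩, ⟨b.h.h3, b.h.inj, h3, by
    rw [b.e_out (b.i3_out h3)]; exact he3⟩⟩

/-- the product formula with the weights -/
theorem formula {f : Fin m → ZMod 3} {c : ZMod 3}
    (h1 : ∑ i ∈ S, (e i : ZMod 3) * (f i * sym (p i : Eis) w) =
      c * ∑ i ∈ S, (e i : ZMod 3) * sym (p i : Eis) w) :
    ∑ i ∈ S, sg p e i * f i = c * ∑ i ∈ S, sg p e i := by
  have hw : ∀ i ∈ S, (e i : ZMod 3) * sym (p i : Eis) w = - sg p e i := fun i hi => by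
    rw [FData.sym_w_r (b.h.hp i) (b.base.sp3 hi), sg, if_neg (b.nS i hi)]; ring
  have e1 : ∑ i ∈ S, (e i : ZMod 3) * (f i * sym (p i : Eis) w) = - ∑ i ∈ S, sg p e i * f i := by
    rw [← Finset.sum_neg_distrib]
    refine Finset.sum_congr rfl (fun i hi => ?_)
    linear_combination f i * hw i hi
  have e2 : ∑ i ∈ S, (e i : ZMod 3) * sym (p i : Eis) w = - ∑ i ∈ S, sg p e i := by
    rw [← Finset.sum_neg_distrib]
    exact Finset.sum_congr rfl hw
  rw [e1, e2] at h1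
  linear_combination -h1

/-- nonzero weight gives a nontrivial symbol -/
theorem sym_ne {i : Fin m} (h : sg p e i ≠ 0) : p i % 3 = 2 ∧ sym (p i : Eis) w ≠ 0 := by
  have h3 : p i ≠ 3 := by
    intro h3
    apply h
    unfold sg; rw [if_pos h3]
  have h2 := (b.h.h3 i).resolve_right h3
  refine ⟨h2, ?_⟩
  rw [FData.sym_w_r (b.h.hp i) h2]
  apply neg_ne_zero.mpr
  intro h4
  apply h
  unfold sg; rw [if_neg h3, h4, mul_zero]

/-- (1) -/
theorem law_one : ¬ (Rep p e (ind S) ∧ Rep p e' (ind S)) := by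
  rintro ⟨h1, h2⟩
  obtain ⟨x, hx⟩ := rep_std h1
  obtain ⟨y, hy⟩ := rep_std h2
  obtain ⟨i0, hi0, hw0⟩ := b.inT
  obtain ⟨-, k0⟩ := b.sym_ne hw0
  rcases b.outT with ⟨i2, hi2, hw2⟩ | ⟨⟨i3, h3, h4⟩, hs⟩
  · obtain ⟨k1, k2⟩ := b.sym_ne hw2
    exact caseIII_G b.base hi0 hi2 k1 k0 k2 hx hy
  · exact caseIII_Th b.base ⟨b.h.h3, b.h.inj, h3, h4⟩ (b.i3_out h3) hs hi0 k0 hx hy

/-- the final step: from the relation on `S` to the relation outside `S` -/
theorem to_compl {v : Fin m → ZMod 3} {c : ZMod 3}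
    (h1 : ∑ i ∈ S, sg p e i * v i = c * ∑ i ∈ S, sg p e i)
    (h2 : c * ∑ i ∈ S, sg p e i = bas p v * ∑ i ∈ S, sg p e i +
      ∑ i, sg p e i * (v i - bas p v)) :
    ∑ i ∈ Sᶜ, sg p e i * (v i - bas p v) = 0 := by
  rw [sum_split (fun i => sg p e i * (v i - bas p v)) S] at h2
  have h3 : ∑ i ∈ S, sg p e i * (v i - bas p v) =
      ∑ i ∈ S, sg p e i * v i - bas p v * ∑ i ∈ S, sg p e i := by
    rw [Finset.mul_sum, ← Finset.sum_sub_distrib]
    exact Finset.sum_congr rfl (fun i _ => by ring)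
  rw [h3, h1] at h2
  linear_combination -h2

theorem law_two (hr : Rep p e' (ind S)) {v : Fin m → ZMod 3} (hv : Rep p e v) :
    LamG p e S v = 0 := by
  classical
  obtain ⟨y, hy⟩ := rep_std hr
  obtain ⟨x, hx⟩ := hv
  obtain ⟨ht, hf⟩ := caseI_G b.base b.ne hx hy
  have hform : ∀ c, Cls (tI p e S (fun i => zf (v i)) x y) c →
      ∑ i ∈ S, sg p e i * v i = c * ∑ i ∈ S, sg p e i := by
    intro c hc
    have := b.formula (hf c hc)
    simpa only [zf_cast] using this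
  unfold LamG
  by_cases hs : ∑ i ∈ S, sg p e i = 0
  · rw [if_pos hs]
    obtain ⟨c, hc⟩ := exists_cls ht
    rw [hform c hc, hs, mul_zero]
  rw [if_neg hs]
  by_cases h3 : ∃ i3, p i3 = 3
  · -- 3 divides `A` once
    obtain ⟨i3, h3⟩ := h3
    obtain ⟨t, t'⟩ := b.three h3 hs
    have hc := hform _ (cls_tIg b.base t t' (b.i3_out h3) rfl hs hx hy)
    refine b.to_compl hc ?_
    rw [bas_of b.h.inj h3]
    have h5 := eps_eq (sg p e) (fun i => zf (v i)) (zf (v i3))
    simp only [zf_cast] at h5 ⊢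
    rw [h5]
    have h6 := z3_sq1 _ hs
    unfold cwt
    linear_combination ((∑ j, if zf (v j) = zf (v i3) + 1 then sg p e j else 0) -
      ∑ j, if zf (v j) = zf (v i3) + 2 then sg p e j else 0) * h6
  · -- 3 does not divide `A`
    push Not at h3
    obtain ⟨hW, hW', f1, f2, f3⟩ := b.noThree h3 hs
    obtain ⟨o, hI, ho, hd⟩ := infoG b.h.h3 h3 hx
    obtain ⟨o', hI', ho', hd'⟩ := infoG b.h.h3 h3 hy
    have htw' := b.tg_eq
    have hc3 : ∀ (n : Fin m → ℕ) (pos : Fin m → Fin 3) k, ¬ (3 : ℤ) ∣ cell p n pos k :=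
      fun n pos k => by rw [cell_dcl h3]; exact dcl_ndvd b.h.h3 pos k
    have ho2 : o' = 2 := by
      apply fin_of_mul hW'
      rw [← ho', sum_split _ S]
      have e1 : ∑ i ∈ S, sg p e' i * ((stdS S i : ℕ) : ZMod 3) = -2 * ∑ i ∈ S, sg p e i := by
        rw [Finset.mul_sum]
        refine Finset.sum_congr rfl (fun i hi => ?_)
        rw [b.base.wt.ins i hi, stdS, if_pos hi]
        have : (((2 : Fin 3) : ℕ) : ZMod 3) = 2 := by decide
        rw [this]; ring
      have e2 : ∑ i ∈ Sᶜ, sg p e' i * ((stdS S i : ℕ) : ZMod 3) = ∑ i ∈ Sᶜ, sg p e i := by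
        refine Finset.sum_congr rfl (fun i hi => ?_)
        rw [b.base.wt.out i (Finset.mem_compl.mp hi), stdS, if_neg (Finset.mem_compl.mp hi)]
        have : (((1 : Fin 3) : ℕ) : ZMod 3) = 1 := by decide
        rw [this]; ring
      have e3 : ∑ i ∈ Sᶜ, sg p e i = tg p e - ∑ i ∈ S, sg p e i := by
        unfold tg; rw [sum_split (sg p e) S]; ring
      rw [e1, e2, e3, htw', f1]
      have : (((2 : Fin 3) : ℕ) : ZMod 3) = 2 := by decide
      rw [this]
      linear_combination (-2 * tg p e) * three_zmod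
    subst ho2
    have hy1 : ¬ (3 : ℤ) ∣ y 1 := hI'.unit 1 (by decide)
    have hT : (3 : ℤ) ∣ x 0 * x 1 * x 2 ∨ (3 : ℤ) ∣ y 2 := by
      rcases f2 with f2 | f2
      · left
        have := hd f2
        have h3 : o = 0 ∨ o = 1 ∨ o = 2 := by clear * -; revert o; decide
        rcases h3 with rfl | rfl | rfl
        · exact Dvd.dvd.mul_right (Dvd.dvd.mul_right this _) _
        · exact Dvd.dvd.mul_right (Dvd.dvd.mul_left this _) _
        · exact Dvd.dvd.mul_left this _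
      · exact Or.inr (hd' f2)
    have hc := hform _ (cls_tIS (hc3 _ _) hx hI hT hy1)
    simp only [zf_cast] at ho
    refine b.to_compl hc ?_
    rw [bas_no h3]
    simp only [sub_zero, zero_mul, zero_add]
    rw [ho, f1]

theorem law_three {v v' : Fin m → ZMod 3} (hv : Rep p e v) (hv' : Rep p e' v')
    (hvv : ∀ i, v' i = if i ∈ S then 1 - v i else v i) : LamG p e S v = 0 := by
  classical
  obtain ⟨x, hx⟩ := hv
  obtain ⟨y, hy⟩ := hv'
  have hpos : Exch S (fun i => zf (v i)) (fun i => zf (v' i)) := by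
    intro i
    have := hvv i
    split_ifs at this ⊢ with hi
    · simp only [this]; exact zf_tau _
    · simp only [this]
  obtain ⟨ht, hf⟩ := caseII_G b.base b.ne hx hy hpos
  have hform : ∀ c, Cls (tII p S (fun i => zf (v i)) x y) c →
      ∑ i ∈ S, sg p e i * v i = (1 - c) * ∑ i ∈ S, sg p e i := by
    intro c hc
    have := b.formula (hf c hc)
    simp only [zf_fpos, mul_sub, mul_one, Finset.sum_sub_distrib] at this
    linear_combination -this
  unfold LamG
  by_cases hs : ∑ i ∈ S, sg p e i = 0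
  · rw [if_pos hs]
    obtain ⟨c, hc⟩ := exists_cls ht
    rw [hform c hc, hs, mul_zero]
  rw [if_neg hs]
  by_cases h3 : ∃ i3, p i3 = 3
  · -- 3 divides `A` once
    obtain ⟨i3, h3⟩ := h3
    obtain ⟨t, t'⟩ := b.three h3 hs
    have hc := hform _ (cls_tIIg b.base t t' (b.i3_out h3) rfl hs hpos hx hy)
    refine b.to_compl hc ?_
    rw [bas_of b.h.inj h3]
    have h5 := eps_eq (sg p e) (fun i => zf (v i)) (zf (v i3))
    simp only [zf_cast] at h5 ⊢
    rw [h5]
    have h6 := z3_sq1 _ hs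
    unfold cwt
    linear_combination ((∑ j, if zf (v j) = zf (v i3) + 1 then sg p e j else 0) -
      ∑ j, if zf (v j) = zf (v i3) + 2 then sg p e j else 0) * h6
  · -- 3 does not divide `A`
    push Not at h3
    obtain ⟨hW, hW', f1, f2, f3⟩ := b.noThree h3 hs
    obtain ⟨o, hI, ho, hd⟩ := infoG b.h.h3 h3 hx
    obtain ⟨o', hI', ho', hd'⟩ := infoG b.h.h3 h3 hy
    have htw' := b.tg_eq
    simp only [zf_cast] at ho ho'
    have hc3 : ∀ (n : Fin m → ℕ) (pos : Fin m → Fin 3) k, ¬ (3 : ℤ) ∣ cell p n pos k :=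
      fun n pos k => by rw [cell_dcl h3]; exact dcl_ndvd b.h.h3 pos k
    have hoo : ((o' : ℕ) : ZMod 3) = 1 - ((o : ℕ) : ZMod 3) := by
      apply mul_right_cancel₀ hW'
      rw [← ho', sum_split _ S]
      have e1 : ∑ i ∈ S, sg p e' i * v' i =
          ∑ i ∈ S, sg p e i * v i - ∑ i ∈ S, sg p e i := by
        rw [← Finset.sum_sub_distrib]
        refine Finset.sum_congr rfl (fun i hi => ?_)
        rw [b.base.wt.ins i hi, hvv i, if_pos hi]; ring
      have e2 : ∑ i ∈ Sᶜ, sg p e' i * v' i = ∑ i ∈ Sᶜ, sg p e i * v i := by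
        refine Finset.sum_congr rfl (fun i hi => ?_)
        rw [b.base.wt.out i (Finset.mem_compl.mp hi), hvv i, if_neg (Finset.mem_compl.mp hi)]
      rw [e1, e2, htw', f1]
      rw [sum_split _ S] at ho
      linear_combination ho + (((o : ℕ) : ZMod 3) * tg p e - tg p e) * three_zmod
    have hcase : (o = 0 ∧ o' = 1) ∨ (o = 1 ∧ o' = 0) ∨ (o = 2 ∧ o' = 2) := by
      revert hoo; clear * -; revert o o'; decide
    have u1 := hI.unit
    have u2 := hI'.unit
    have hcls : Cls (tII p S (fun i => zf (v i)) x y) (1 - ((o : ℕ) : ZMod 3)) := by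
      rcases hcase with ⟨rfl, rfl⟩ | ⟨rfl, rfl⟩ | ⟨rfl, rfl⟩
      · have : (1 : ZMod 3) - (((0 : Fin 3) : ℕ) : ZMod 3) = 1 := by decide
        rw [this]
        exact cls_tII_oneG b.base (f2.imp hd hd') (u1 1 (by decide)) (u2 0 (by decide))
      · have : (1 : ZMod 3) - (((1 : Fin 3) : ℕ) : ZMod 3) = 0 := by decide
        rw [this]
        exact cls_tII_zeroG b.base (f2.imp hd hd') (u1 0 (by decide)) (u2 1 (by decide))
      · have : (1 : ZMod 3) - (((2 : Fin 3) : ℕ) : ZMod 3) = 2 := by decide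
        rw [this]
        exact cls_tII_twoG b.base hpos hx hy (hc3 _ _) (hc3 _ _)
          (u1 0 (by decide)) (u1 1 (by decide)) (u2 0 (by decide)) (u2 1 (by decide))
          (f2.imp hd hd')
    have hc := hform _ hcls
    refine b.to_compl hc ?_
    rw [bas_no h3]
    simp only [sub_zero, zero_mul, zero_add]
    rw [ho, f1]; ring

/-! ### the linear form -/

theorem bas_add (v v' : Fin m → ZMod 3) (c : ZMod 3) :
    bas p (fun i => v i + c * v' i) = bas p v + c * bas p v' := by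
  unfold bas
  rw [Finset.mul_sum, ← Finset.sum_add_distrib]
  exact Finset.sum_congr rfl (fun i _ => by split_ifs <;> ring)

theorem Lam_add (v v' : Fin m → ZMod 3) (c : ZMod 3) :
    LamG p e S (fun i => v i + c * v' i) = LamG p e S v + c * LamG p e S v' := by
  classical
  unfold LamG
  rw [b.bas_add]
  by_cases hs : ∑ i ∈ S, sg p e i = 0
  · rw [if_pos hs, if_pos hs, if_pos hs, Finset.mul_sum, ← Finset.sum_add_distrib]
    exact Finset.sum_congr rfl (fun i _ => by ring)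
  · rw [if_neg hs, if_neg hs, if_neg hs, Finset.mul_sum, ← Finset.sum_add_distrib]
    exact Finset.sum_congr rfl (fun i _ => by ring)

theorem Lam_const {v : Fin m → ZMod 3} (hv : ∃ c, ∀ i, v i = c) : LamG p e S v = 0 := by
  classical
  obtain ⟨c, hc⟩ := hv
  unfold LamG
  by_cases hs : ∑ i ∈ S, sg p e i = 0
  · rw [if_pos hs]
    have : ∑ i ∈ S, sg p e i * v i = c * ∑ i ∈ S, sg p e i := by
      rw [Finset.mul_sum]
      exact Finset.sum_congr rfl (fun i _ => by rw [hc i]; ring)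
    rw [this, hs, mul_zero]
  · rw [if_neg hs]
    by_cases h3 : ∃ i3, p i3 = 3
    · obtain ⟨i3, h3⟩ := h3
      rw [bas_of b.h.inj h3]
      exact Finset.sum_eq_zero (fun i _ => by rw [hc i, hc i3]; ring)
    · push Not at h3
      obtain ⟨hW, hW', f1, f2, f3⟩ := b.noThree h3 hs
      rw [bas_no h3]
      have e3 : ∑ i ∈ Sᶜ, sg p e i = 0 := by
        have := sum_split (sg p e) S
        rw [f1] at this
        unfold tg at this
        linear_combination -this
      have : ∑ i ∈ Sᶜ, sg p e i * (v i - 0) = c * ∑ i ∈ Sᶜ, sg p e i := by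
        rw [Finset.mul_sum]
        exact Finset.sum_congr rfl (fun i _ => by rw [hc i]; ring)
      rw [this, e3, mul_zero]

theorem bas_ind : bas p (ind S) = 0 := by
  unfold bas ind
  refine Finset.sum_eq_zero (fun i _ => ?_)
  by_cases h : p i = 3
  · rw [if_pos h, if_neg (b.i3_out h)]
  · rw [if_neg h]

theorem Lam_ind : LamG p e S (ind S) = 0 := by
  classical
  unfold LamG
  rw [b.bas_ind]
  by_cases hs : ∑ i ∈ S, sg p e i = 0
  · rw [if_pos hs]
    rw [← hs]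
    refine Finset.sum_congr rfl (fun i hi => ?_)
    unfold ind; rw [if_pos hi, mul_one]
  · rw [if_neg hs]
    refine Finset.sum_eq_zero (fun i hi => ?_)
    unfold ind; rw [if_neg (Finset.mem_compl.mp hi)]; ring

/-- (3), general form -/
theorem law_three' {v v' : Fin m → ZMod 3} {c d : ZMod 3} (hv : Rep p e v) (hv' : Rep p e' v')
    (hvv : ∀ i, v' i = if i ∈ S then c - v i else v i + d) : LamG p e S v = 0 := by
  have k1 := rep_shift hv (2 * (1 - c + d))
  have k2 := rep_shift hv' (2 * (1 - c + d) - d)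
  have k3 := b.law_three k1 k2 (by
    intro i
    simp only [hvv i]
    split_ifs
    · linear_combination (1 - c + d) * three_zmod
    · ring)
  have k4 := b.Lam_add v (fun _ => 2 * (1 - c + d)) 1
  rw [b.Lam_const ⟨_, fun _ => rfl⟩, mul_zero, add_zero] at k4
  rw [← k4]
  simpa only [one_mul] using k3

end PairG

end Pool.Agent.CubeRank


end

section

/-!
# The bound for the number of generators (M8)
-/

set_option autoImplicit false

namespace Pool.Agent.CubeRank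

open Pool.Agent.Lib_helper18 Pool.Agent.Lib_helper18.Eis Pool.Agent.Lib_helper84.Cub

variable {m : ℕ} {p e e' : Fin m → ℕ} {S : Finset (Fin m)}

theorem kapEx' : KapExStmt := kapEx basics lift

theorem kapAdd' : KapAddStmt := kapAdd basics coll kapEx'

theorem kapRep' : KapRepStmt := kapRep basics lift triple

theorem gen' : GenStmt := gen basics chord triple (growth triple)

/-- the classes of the points -/
def UU {m : ℕ} (p e : Fin m → ℕ) (v : Fin m → ZMod 3) : Prop := ∃ P : GA (AA p e), Kap p e P v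

theorem U_const (p e : Fin m → ℕ) (c : ZMod 3) : UU p e (fun _ => c) :=
  ⟨0, Or.inl ⟨rfl, c, fun _ => rfl⟩⟩

theorem U_add (hm : 1 ≤ m) (h : Hyp p e) {v v' : Fin m → ZMod 3} (hv : UU p e v)
    (hv' : UU p e v') : UU p e (v + v') := by
  obtain ⟨P, hP⟩ := hv
  obtain ⟨Q, hQ⟩ := hv'
  exact ⟨P + Q, kapAdd' m p e hm h P Q v v' hP hQ⟩

theorem U_smul (hm : 1 ≤ m) (h : Hyp p e) {v : Fin m → ZMod 3} (hv : UU p e v) (c : ZMod 3) :
    UU p e (fun i => c * v i) := by
  have h3 : c = 0 ∨ c = 1 ∨ c = 2 := by revert c; decide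
  rcases h3 with rfl | rfl | rfl
  · have := U_const p e 0
    simpa using this
  · simpa using hv
  · have := U_add hm h hv hv
    have e1 : v + v = fun i => 2 * v i := by funext i; simp only [Pi.add_apply]; ring
    rwa [e1] at this

theorem kap_zero {v : Fin m → ZMod 3} (h : Kap p e 0 v) : ∃ c, ∀ i, v i = c := by
  rcases h with ⟨-, h⟩ | ⟨a, b, c, γ, t1, t2, hC, -⟩
  · exact h
  · obtain ⟨-, -, -, x, y, hn, h0, -⟩ := hC
    exact absurd h0 (by simp)

theorem kap_diff (hm : 1 ≤ m) (h : Hyp p e) {P Q : GA (AA p e)} {v v' : Fin m → ZMod 3}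
    (hP : Kap p e P v) (hQ : Kap p e Q v') (hc : ∃ c, ∀ i, v i = v' i + c) :
    P - Q ∈ threeMul (AA p e) := by
  obtain ⟨v'', h''⟩ := kapEx' m p e hm h (-Q)
  have h1 := kapAdd' m p e hm h Q (-Q) v' v'' hQ h''
  rw [add_neg_cancel] at h1
  obtain ⟨d, hd⟩ := kap_zero h1
  obtain ⟨c, hc⟩ := hc
  have h2 := kapAdd' m p e hm h P (-Q) v v'' hP h''
  have h3 := (kapRep' m p e hm h _ _ h2).1 ⟨c + d, fun i => by
    have := hd i
    simp only [Pi.add_apply] at this ⊢
    rw [hc i]; linear_combination this⟩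
  rwa [sub_eq_add_neg]

theorem AA_big (hm : 3 ≤ m) (h : Hyp p e) : 3 ≤ (AA p e).natAbs := by
  have h1 : (8 : ℤ) ≤ AA p e := by
    have h2 : ∀ i, (2 : ℤ) ≤ (p i : ℤ) ^ e i := by
      intro i
      have h3 : (2 : ℤ) ≤ p i := by exact_mod_cast (h.hp i).two_le
      have h4 := h.he i
      rcases h4 with h4 | h4 <;> rw [h4] <;> nlinarith
    have h5 : (∏ _i : Fin m, (2 : ℤ)) ≤ ∏ i, (p i : ℤ) ^ e i :=
      Finset.prod_le_prod (fun _ _ => by norm_num) (fun i _ => h2 i)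
    rw [Finset.prod_const, Finset.card_univ, Fintype.card_fin] at h5
    calc (8 : ℤ) = 2 ^ 3 := by norm_num
      _ ≤ 2 ^ m := pow_le_pow_right₀ (by norm_num) hm
      _ ≤ _ := h5
  omega

/-- few classes give few generators -/
theorem gen_of_card (hm : 3 ≤ m) (h : Hyp p e) (d : ℕ)
    (hc : Nat.card {v // UU p e v} ≤ 3 ^ (d + 1)) : GenBy (AA p e) d := by
  classical
  have hm1 : 1 ≤ m := by omega
  have i0 : Fin m := ⟨0, by omega⟩
  choose vv hvv using kapEx' m p e hm1 h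
  set T := threeMul (AA p e) with hT
  let F : (GA (AA p e) ⧸ T) × ZMod 3 → {v // UU p e v} := fun x =>
    ⟨vv (Quotient.out x.1) + fun _ => x.2, U_add hm1 h ⟨_, hvv _⟩ (U_const p e x.2)⟩
  have hF : Function.Injective F := by
    rintro ⟨g, c⟩ ⟨g', c'⟩ hgg
    have h1 : ∀ i, vv (Quotient.out g) i + c = vv (Quotient.out g') i + c' := by
      intro i
      exact congrFun (congrArg Subtype.val hgg) i
    have h2 := kap_diff hm1 h (hvv (Quotient.out g)) (hvv (Quotient.out g'))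
      ⟨c' - c, fun i => by linear_combination h1 i⟩
    have h3 : g = g' := by
      have e1 : (QuotientAddGroup.mk (Quotient.out g') : GA (AA p e) ⧸ T) =
          QuotientAddGroup.mk (Quotient.out g) := by
        rw [QuotientAddGroup.eq]
        rw [neg_add_eq_sub]
        exact h2
      have e2 : (QuotientAddGroup.mk (Quotient.out g) : GA (AA p e) ⧸ T) = g := Quotient.out_eq g
      have e3 : (QuotientAddGroup.mk (Quotient.out g') : GA (AA p e) ⧸ T) = g' := Quotient.out_eq g'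
      rw [← e2, ← e3, e1]
    subst h3
    have h4 := h1 i0
    exact Prod.ext rfl (add_left_cancel h4)
  have hfin : Finite ((GA (AA p e) ⧸ T) × ZMod 3) := Finite.of_injective F hF
  have hfinq : Finite (GA (AA p e) ⧸ T) :=
    Finite.of_injective (fun g => ((g, 0) : (GA (AA p e) ⧸ T) × ZMod 3))
      (fun a b hab => congrArg Prod.fst hab)
  have hcard := Nat.card_le_card_of_injective F hF
  rw [Nat.card_prod, Nat.card_zmod] at hcard
  have hidx : T.index ≤ 3 ^ d := by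
    have : T.index * 3 ≤ 3 ^ d * 3 := by
      rw [← pow_succ]
      exact hcard.trans hc
    exact Nat.le_of_mul_le_mul_right this (by norm_num)
  have hfi : T.FiniteIndex := AddSubgroup.finiteIndex_of_finite_quotient
  exact gen' (AA p e) (cubeFree_AA h) (AA_big hm h) d hfi hidx

/-! ### linear algebra -/

/-- the space of possible classes -/
def EE {m : ℕ} (p e : Fin m → ℕ) (v : Fin m → ZMod 3) : Prop :=
  tw p e = 0 → ∑ i, sw p e i * v i = 0

theorem U_rep (hm : 1 ≤ m) (h : Hyp p e) {v : Fin m → ZMod 3} (hv : UU p e v)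
    (hc : ¬ ∃ c, ∀ i, v i = c) : Rep p e v := by
  obtain ⟨P, hP⟩ := hv
  exact (kapRep' m p e hm h P v hP).2 hc

theorem U_sub_E (hm : 1 ≤ m) (h : Hyp p e) {v : Fin m → ZMod 3} (hv : UU p e v) : EE p e v := by
  intro hW
  by_cases hc : ∃ c, ∀ i, v i = c
  · obtain ⟨c, hc⟩ := hc
    have : ∑ i, sw p e i * v i = c * tw p e := by
      rw [tw, Finset.mul_sum]
      exact Finset.sum_congr rfl (fun i _ => by rw [hc i]; ring)
    rw [this, hW, mul_zero]
  · obtain ⟨x, hx⟩ := U_rep hm h hv hc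
    obtain ⟨o, -, ho, -⟩ := info h.h9 hx
    simp only [zf_cast] at ho
    rw [ho, hW, mul_zero]

theorem sw_ne (h : Hyp p e) (i : Fin m) : sw p e i ≠ 0 :=
  mul_ne_zero (zmod_ne (h.he i)) (wq_ne (h.h9 i))

/-- many classes: every element is a class up to a multiple of `D` -/
theorem exists_class (hm : 1 ≤ m) (h : Hyp p e) {D : Fin m → ZMod 3} (hDE : EE p e D)
    (hD : ¬ UU p e D) (hcard : Nat.card {v // EE p e v} < 9 * Nat.card {v // UU p e v})
    {v : Fin m → ZMod 3} (hv : EE p e v) : ∃ c : ZMod 3, UU p e (fun i => v i + c * D i) := by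
  classical
  by_contra hcon
  push Not at hcon
  let F : {v // UU p e v} × ZMod 3 × ZMod 3 → {v // EE p e v} := fun x =>
    ⟨fun i => x.1.1 i + x.2.1 * v i + x.2.2 * D i, fun hW => by
      have e1 : ∑ i, sw p e i * (x.1.1 i + x.2.1 * v i + x.2.2 * D i) =
          ∑ i, sw p e i * x.1.1 i + x.2.1 * ∑ i, sw p e i * v i +
            x.2.2 * ∑ i, sw p e i * D i := by
        rw [Finset.mul_sum, Finset.mul_sum, ← Finset.sum_add_distrib, ← Finset.sum_add_distrib]
        exact Finset.sum_congr rfl (fun i _ => by ring)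
      rw [e1, U_sub_E hm h x.1.2 hW, hv hW, hDE hW]
      ring⟩
  have hF : Function.Injective F := by
    rintro ⟨⟨u, hu⟩, a, b⟩ ⟨⟨u', hu'⟩, a', b'⟩ hh
    have h1 : ∀ i, u i + a * v i + b * D i = u' i + a' * v i + b' * D i := by
      intro i
      exact congrFun (congrArg Subtype.val hh) i
    have hdiff : UU p e (fun i => u' i + 2 * u i) := by
      have := U_add hm h hu' (U_smul hm h hu 2)
      exact this
    have hinv : ∀ z : ZMod 3, z ≠ 0 → z * z = 1 := by decide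
    have ha : a = a' := by
      by_contra hne
      have hz : a - a' ≠ 0 := sub_ne_zero.mpr hne
      have h5 := U_smul hm h hdiff (a - a')
      apply hcon ((a - a') * (b - b'))
      have e2 : (fun i => (a - a') * (u' i + 2 * u i)) =
          fun i => v i + (a - a') * (b - b') * D i := by
        funext i
        have h6 := hinv _ hz
        linear_combination (-(a - a')) * h1 i + (v i) * h6 +
          ((a - a') * u i) * three_zmod
      rwa [e2] at h5
    subst ha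
    have hb : b = b' := by
      by_contra hne
      have hz : b - b' ≠ 0 := sub_ne_zero.mpr hne
      have h5 := U_smul hm h hdiff (b - b')
      apply hD
      have e2 : (fun i => (b - b') * (u' i + 2 * u i)) = D := by
        funext i
        have h6 := hinv _ hz
        linear_combination (-(b - b')) * h1 i + (D i) * h6 +
          ((b - b') * u i) * three_zmod
      rwa [e2] at h5
    subst hb
    have hu : u = u' := by
      funext i
      linear_combination h1 i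
    subst hu
    rfl
  have := Nat.card_le_card_of_injective F hF
  rw [Nat.card_prod, Nat.card_prod, Nat.card_zmod] at this
  omega

theorem card_all (m : ℕ) : Nat.card (Fin m → ZMod 3) = 3 ^ m := by
  rw [Nat.card_fun, Nat.card_zmod, Nat.card_eq_fintype_card, Fintype.card_fin]

theorem card_E (p e : Fin m → ℕ) : Nat.card {v // EE p e v} ≤ 3 ^ m := by
  rw [← card_all m]
  exact Nat.card_le_card_of_injective (fun v : {v // EE p e v} => v.1) Subtype.val_injective

theorem card_E_zero (hm : 1 ≤ m) (h : Hyp p e) (hW : tw p e = 0) :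
    3 * Nat.card {v // EE p e v} ≤ 3 ^ m := by
  classical
  have i0 : Fin m := ⟨0, by omega⟩
  let F : ZMod 3 × {v // EE p e v} → (Fin m → ZMod 3) := fun x i =>
    x.2.1 i + if i = i0 then x.1 * sw p e i0 else 0
  have hF : Function.Injective F := by
    rintro ⟨a, ⟨u, hu⟩⟩ ⟨a', ⟨u', hu'⟩⟩ hh
    have h1 : ∀ i, u i + (if i = i0 then a * sw p e i0 else 0) =
        u' i + (if i = i0 then a' * sw p e i0 else 0) := fun i => congrFun hh i
    have key : ∀ (a : ZMod 3) (u : Fin m → ZMod 3), EE p e u →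
        ∑ i, sw p e i * (u i + (if i = i0 then a * sw p e i0 else 0)) = a := by
      intro a u hu
      have e1 : ∀ i, sw p e i * (u i + (if i = i0 then a * sw p e i0 else 0)) =
          sw p e i * u i + if i = i0 then a * (sw p e i0 * sw p e i0) else 0 := by
        intro i
        split_ifs with hi
        · subst hi; ring
        · ring
      have hinv : ∀ z : ZMod 3, z ≠ 0 → z * z = 1 := by decide
      rw [Finset.sum_congr rfl (fun i _ => e1 i), Finset.sum_add_distrib, hu hW, zero_add,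
        Finset.sum_ite_eq' Finset.univ i0, if_pos (Finset.mem_univ _), hinv _ (sw_ne h i0),
        mul_one]
    have ha : a = a' := by
      rw [← key a u hu, ← key a' u' hu']
      exact Finset.sum_congr rfl (fun i _ => by rw [h1 i])
    subst ha
    have : u = u' := by
      funext i
      exact add_right_cancel (h1 i)
    subst this
    rfl
  have := Nat.card_le_card_of_injective F hF
  rwa [Nat.card_prod, Nat.card_zmod, card_all] at this

/-! ### the contradiction -/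

theorem Lam_add (v v' : Fin m → ZMod 3) (c : ZMod 3) :
    Lam p e S (fun i => v i + c * v' i) = Lam p e S v + c * Lam p e S v' := by
  unfold Lam
  have e1 : ∀ T : Finset (Fin m), ∑ i ∈ T, sw p e i * (v i + c * v' i) =
      ∑ i ∈ T, sw p e i * v i + c * ∑ i ∈ T, sw p e i * v' i := by
    intro T
    rw [Finset.mul_sum, ← Finset.sum_add_distrib]
    exact Finset.sum_congr rfl (fun i _ => by ring)
  rw [e1, e1]; ring

/-- the standing hypotheses on the pair -/
structure Pair {m : ℕ} (p e e' : Fin m → ℕ) (S : Finset (Fin m)) : Prop where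
  h : Hyp p e
  h' : Hyp p e'
  hS : ∀ i, i ∈ S ↔ e i ≠ e' i
  ne : S.Nonempty
  nu : S ≠ Finset.univ
  tww : (tw p e ≠ 0 ∧ tw p e' ≠ 0) ∨ (tw p e = 0 ∧ tw p e' = 0)

theorem Pair.symm (b : Pair p e e' S) : Pair p e' e S where
  h := b.h'
  h' := b.h
  hS := fun i => by rw [b.hS i]; exact ne_comm
  ne := b.ne
  nu := b.nu
  tww := b.tww.imp And.symm And.symm

theorem Pair.base (b : Pair p e e' S) : BaseS p e e' S := base_of b.h b.h' b.hS

theorem sum_ind (f : Fin m → ZMod 3) (T : Finset (Fin m)) :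
    ∑ i ∈ T, f i * ind S i = ∑ i ∈ T ∩ S, f i := by
  classical
  unfold ind
  simp only [mul_ite, mul_one, mul_zero]
  rw [← Finset.sum_filter, Finset.filter_mem_eq_inter]

theorem Pair.EE_ind (b : Pair p e e' S) : EE p e (ind S) := by
  intro hW
  rw [sum_ind, Finset.univ_inter]
  have := tw_eq b.base
  rcases b.tww with ⟨h1, -⟩ | ⟨-, h2⟩
  · exact absurd hW h1
  · rw [h2, hW, zero_add] at this; exact this.symm

theorem Pair.Lam_ind (b : Pair p e e' S) : Lam p e S (ind S) = 0 := by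
  unfold Lam
  rw [sum_ind, sum_ind, Finset.inter_self, Finset.univ_inter]
  have h3 := tw_eq b.base
  rcases b.tww with ⟨h1, h2⟩ | ⟨h1, h2⟩
  · by_cases hs : ∑ i ∈ S, sw p e i = 0
    · rw [hs]; ring
    · obtain ⟨f1, -, f3⟩ := z3_facts _ _ h1 (h3 ▸ h2) hs
      rw [f1]; linear_combination (-(tw p e)) * f3
  · rw [h1, h2, zero_add] at h3
    rw [← h3]; ring

theorem Pair.Lam_const (b : Pair p e e' S) {v : Fin m → ZMod 3} (hv : ∃ c, ∀ i, v i = c) :
    Lam p e S v = 0 := by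
  obtain ⟨c, hc⟩ := hv
  have h1 := Lam_shift b.h b.h' b.hS b.tww (fun _ => 0) c
  have e1 : v = fun _ => (0 : ZMod 3) + c := by funext i; rw [hc i, zero_add]
  rw [e1, h1]
  unfold Lam
  simp

/-- the indicator is not constant -/
theorem Pair.ind_nc (b : Pair p e e' S) : ¬ ∃ c, ∀ i, ind S i = c := by
  rintro ⟨c, hc⟩
  obtain ⟨i0, hi0⟩ := b.ne
  obtain ⟨i2, hi2⟩ : ∃ i, i ∉ S := by
    by_contra hcon
    push Not at hcon
    exact b.nu (Finset.eq_univ_iff_forall.mpr hcon)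
  have h1 := hc i0
  have h2 := hc i2
  unfold ind at h1 h2
  rw [if_pos hi0] at h1
  rw [if_neg hi2] at h2
  rw [← h2] at h1
  exact absurd h1 (by decide)


theorem Pair.one (b : Pair p e e' S) (hm : 1 ≤ m) (h1 : UU p e (ind S)) (h2 : UU p e' (ind S)) :
    False :=
  (law m p e e' S b.h b.h' b.hS b.ne b.nu b.tww).1 ⟨U_rep hm b.h h1 b.ind_nc, U_rep hm b.h' h2 b.ind_nc⟩

theorem Pair.two (b : Pair p e e' S) (hm : 1 ≤ m) (h2 : UU p e' (ind S)) {v : Fin m → ZMod 3}
    (hv : UU p e v) : Lam p e S v = 0 := by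
  by_cases hc : ∃ c, ∀ i, v i = c
  · exact b.Lam_const hc
  · exact (law m p e e' S b.h b.h' b.hS b.ne b.nu b.tww).2.1 (U_rep hm b.h' h2 b.ind_nc) v (U_rep hm b.h hv hc)

theorem Pair.three (b : Pair p e e' S) (hm : 1 ≤ m) {v v' : Fin m → ZMod 3} {c d : ZMod 3}
    (hv : UU p e v) (hv' : UU p e' v') (hvv : ∀ i, v' i = if i ∈ S then c - v i else v i + d) :
    Lam p e S v = 0 := by
  by_cases hc : ∃ c, ∀ i, v i = c
  · exact b.Lam_const hc
  · by_cases hc' : ∃ c, ∀ i, v' i = c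
    · obtain ⟨f, hf⟩ := hc'
      -- v = const + multiple of the indicator
      have e1 : v = fun i => (f - d) + (c - f - (f - d)) * ind S i := by
        funext i
        have h1 := hvv i
        rw [hf i] at h1
        unfold ind
        split_ifs at h1 ⊢
        · linear_combination h1
        · linear_combination -h1
      rw [e1, Lam_add, b.Lam_const ⟨f - d, fun _ => rfl⟩, b.Lam_ind]
      ring
    · exact (law m p e e' S b.h b.h' b.hS b.ne b.nu b.tww).2.2 v v' c d (U_rep hm b.h hv hc) (U_rep hm b.h' hv' hc') hvv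

/-- `Lam` is nonzero on the space of possible classes -/
theorem Pair.nonzero (b : Pair p e e' S) : ∃ v, EE p e v ∧ Lam p e S v ≠ 0 := by
  classical
  obtain ⟨i0, hi0⟩ := b.ne
  obtain ⟨i2, hi2⟩ : ∃ i, i ∉ S := by
    by_contra hcon
    push Not at hcon
    exact b.nu (Finset.eq_univ_iff_forall.mpr hcon)
  have hinv : ∀ z : ZMod 3, z ≠ 0 → z * z = 1 := by decide
  have h02 : i0 ≠ i2 := fun h => hi2 (h ▸ hi0)
  let v : Fin m → ZMod 3 := fun i =>
    if i = i0 then sw p e i0 else if i = i2 then - sw p e i2 else 0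
  have key : ∀ T : Finset (Fin m), ∑ i ∈ T, sw p e i * v i =
      (if i0 ∈ T then 1 else 0) - (if i2 ∈ T then 1 else 0) := by
    intro T
    have e1 : ∀ i, sw p e i * v i = (if i = i0 then 1 else 0) - (if i = i2 then 1 else 0) := by
      intro i
      simp only [v]
      by_cases h1 : i = i0
      · subst h1
        rw [if_pos rfl, if_pos rfl, if_neg h02, hinv _ (sw_ne b.h _)]; ring
      · rw [if_neg h1, if_neg h1]
        by_cases h2 : i = i2
        · subst h2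
          rw [if_pos rfl, if_pos rfl]
          linear_combination -(hinv _ (sw_ne b.h i))
        · rw [if_neg h2, if_neg h2]; ring
    rw [Finset.sum_congr rfl (fun i _ => e1 i), Finset.sum_sub_distrib, Finset.sum_ite_eq',
      Finset.sum_ite_eq']
  refine ⟨v, fun _ => ?_, ?_⟩
  · rw [key]; simp
  · unfold Lam
    rw [key, key, if_pos hi0, if_neg hi2]
    simp

/-- **both groups cannot be large** -/
theorem Pair.main (b : Pair p e e' S) (hm : 1 ≤ m)
    (h1 : Nat.card {v // EE p e v} < 9 * Nat.card {v // UU p e v})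
    (h2 : Nat.card {v // EE p e' v} < 9 * Nat.card {v // UU p e' v}) : False := by
  -- it suffices that `Lam` vanishes on the classes of `e` and `D` is not one of them
  have fin : ∀ {e e' : Fin m → ℕ}, Pair p e e' S →
      Nat.card {v // EE p e v} < 9 * Nat.card {v // UU p e v} →
      ¬ UU p e (ind S) → (∀ v, UU p e v → Lam p e S v = 0) → False := by
    intro e e' b h1 hD hL
    obtain ⟨v, hv, hne⟩ := b.nonzero
    obtain ⟨c, hc⟩ := exists_class hm b.h b.EE_ind hD h1 hv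
    have h3 := hL _ hc
    rw [Lam_add, b.Lam_ind, mul_zero, add_zero] at h3
    exact hne h3
  by_cases hD' : UU p e' (ind S)
  · exact fin b h1 (fun hD => b.one hm hD hD') (fun v hv => b.two hm hD' hv)
  by_cases hD : UU p e (ind S)
  · exact fin b.symm h2 hD' (fun v hv => b.symm.two hm hD hv)
  refine fin b h1 hD (fun v hv => ?_)
  -- the reflected vector
  have hE : EE p e' (fun i => if i ∈ S then - v i else v i) := by
    intro hW'
    have hW : tw p e = 0 := by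
      rcases b.tww with ⟨-, h⟩ | ⟨h, -⟩
      · exact absurd hW' h
      · exact h
    have h3 := U_sub_E hm b.h hv hW
    rw [← h3]
    refine Finset.sum_congr rfl (fun i _ => ?_)
    beta_reduce
    split_ifs with hi
    · rw [sw_in b.base hi]; ring
    · rw [sw_out b.base hi]
  obtain ⟨c, hc⟩ := exists_class hm b.h' b.symm.EE_ind hD' h2 hE
  refine b.three hm (c := c) (d := 0) hv hc (fun i => ?_)
  unfold ind
  by_cases hi : i ∈ S
  · rw [if_pos hi, if_pos hi, if_pos hi]; ring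
  · rw [if_neg hi, if_neg hi, if_neg hi]; ring

/-- **the main theorem** -/
theorem main : MainStmt := by
  intro m p e e' hm h h' hne heq
  classical
  have hm1 : 1 ≤ m := by omega
  let S : Finset (Fin m) := Finset.univ.filter (fun i => e i ≠ e' i)
  have hS : ∀ i, i ∈ S ↔ e i ≠ e' i := fun i => by simp [S]
  have hSne : S.Nonempty := by
    obtain ⟨i, hi⟩ := Function.ne_iff.mp hne
    exact ⟨i, (hS i).mpr hi⟩
  have hSnu : S ≠ Finset.univ := by
    obtain ⟨i, hi⟩ := heq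
    intro h
    have := Finset.mem_univ i
    rw [← h] at this
    exact (hS i).mp this hi
  constructor
  · intro hW hW'
    have b : Pair p e e' S := ⟨h, h', hS, hSne, hSnu, Or.inl ⟨hW, hW'⟩⟩
    by_contra hcon
    push Not at hcon
    obtain ⟨c1, c2⟩ := hcon
    have hpow : 3 ^ m = 9 * 3 ^ (m - 3 + 1) := by
      obtain ⟨k, rfl⟩ := Nat.exists_eq_add_of_le hm
      have : 3 + k - 3 + 1 = k + 1 := by omega
      rw [this]; ring
    have g : ∀ {e : Fin m → ℕ}, Hyp p e → ¬ GenBy (AA p e) (m - 3) →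
        Nat.card {v // EE p e v} < 9 * Nat.card {v // UU p e v} := by
      intro e h hc
      have h1 : ¬ Nat.card {v // UU p e v} ≤ 3 ^ (m - 3 + 1) := fun h1 =>
        hc (gen_of_card hm h _ h1)
      have h2 := card_E p e
      rw [hpow] at h2
      omega
    exact b.main hm1 (g h c1) (g h' c2)
  · intro hW hW'
    have b : Pair p e e' S := ⟨h, h', hS, hSne, hSnu, Or.inr ⟨hW, hW'⟩⟩
    by_contra hcon
    push Not at hcon
    obtain ⟨c1, c2⟩ := hcon
    have hpow : 3 ^ m ≤ 27 * 3 ^ (m - 4 + 1) := by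
      have h1 : m ≤ 3 + (m - 4 + 1) := by omega
      calc 3 ^ m ≤ 3 ^ (3 + (m - 4 + 1)) := Nat.pow_le_pow_right (by norm_num) h1
        _ = 27 * 3 ^ (m - 4 + 1) := by rw [pow_add]; norm_num
    have g : ∀ {e : Fin m → ℕ}, Hyp p e → tw p e = 0 → ¬ GenBy (AA p e) (m - 4) →
        Nat.card {v // EE p e v} < 9 * Nat.card {v // UU p e v} := by
      intro e h hW hc
      have h1 : ¬ Nat.card {v // UU p e v} ≤ 3 ^ (m - 4 + 1) := fun h1 =>
        hc (gen_of_card hm h _ h1)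
      have h2 := card_E_zero hm1 h hW
      omega
    exact b.main hm1 (g h hW c1) (g h' hW' c2)

end Pool.Agent.CubeRank


end

section

/-!
# The bound for the number of generators, general version
-/

set_option autoImplicit false

namespace Pool.Agent.CubeRank

open Pool.Agent.Lib_helper18 Pool.Agent.Lib_helper18.Eis Pool.Agent.Lib_helper84.Cub

variable {m : ℕ} {p e e' : Fin m → ℕ} {S : Finset (Fin m)}

theorem kapExG' : KapExStmtG := kapExG basics liftG

theorem kapAddG' : KapAddStmtG := kapAddG basics coll kapExG'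

theorem kapRepG' : KapRepStmtG := kapRepG basics liftG triple

/-- the classes of the points -/
def UG {m : ℕ} (p e : Fin m → ℕ) (v : Fin m → ZMod 3) : Prop := ∃ P : GA (AA p e), KapG p e P v

theorem UG_const (p e : Fin m → ℕ) (c : ZMod 3) : UG p e (fun _ => c) :=
  ⟨0, Or.inl ⟨rfl, c, fun _ => rfl⟩⟩

theorem UG_add (h : HypG p e) {v v' : Fin m → ZMod 3} (hv : UG p e v)
    (hv' : UG p e v') : UG p e (v + v') := by
  obtain ⟨P, hP⟩ := hv
  obtain ⟨Q, hQ⟩ := hv'
  exact ⟨P + Q, kapAddG' m p e h P Q v v' hP hQ⟩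

theorem UG_smul (h : HypG p e) {v : Fin m → ZMod 3} (hv : UG p e v) (c : ZMod 3) :
    UG p e (fun i => c * v i) := by
  have h3 : c = 0 ∨ c = 1 ∨ c = 2 := by revert c; decide
  rcases h3 with rfl | rfl | rfl
  · have := UG_const p e 0
    simpa using this
  · simpa using hv
  · have := UG_add h hv hv
    have e1 : v + v = fun i => 2 * v i := by funext i; simp only [Pi.add_apply]; ring
    rwa [e1] at this

theorem kapG_zero {v : Fin m → ZMod 3} (h : KapG p e 0 v) : ∃ c, ∀ i, v i = c := by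
  rcases h with ⟨-, h⟩ | ⟨a, b, c, γ, t1, t2, hC, -⟩
  · exact h
  · obtain ⟨-, -, -, x, y, hn, h0, -⟩ := hC
    exact absurd h0 (by simp)

theorem kapG_diff (h : HypG p e) {P Q : GA (AA p e)} {v v' : Fin m → ZMod 3}
    (hP : KapG p e P v) (hQ : KapG p e Q v') (hc : ∃ c, ∀ i, v i = v' i + c) :
    P - Q ∈ threeMul (AA p e) := by
  obtain ⟨v'', h''⟩ := kapExG' m p e h (-Q)
  have h1 := kapAddG' m p e h Q (-Q) v' v'' hQ h''
  rw [add_neg_cancel] at h1
  obtain ⟨d, hd⟩ := kapG_zero h1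
  obtain ⟨c, hc⟩ := hc
  have h2 := kapAddG' m p e h P (-Q) v v'' hP h''
  have h3 := (kapRepG' m p e h _ _ h2).1 ⟨c + d, fun i => by
    have := hd i
    simp only [Pi.add_apply] at this ⊢
    rw [hc i]; linear_combination this⟩
  rwa [sub_eq_add_neg]

theorem AA_bigG (hm : 2 ≤ m) (h : HypG p e) : 3 ≤ (AA p e).natAbs := by
  have h1 : (4 : ℤ) ≤ AA p e := by
    have h2 : ∀ i, (2 : ℤ) ≤ (p i : ℤ) ^ e i := by
      intro i
      have h3 : (2 : ℤ) ≤ p i := by exact_mod_cast (h.hp i).two_le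
      have h4 := h.he i
      rcases h4 with h4 | h4 <;> rw [h4] <;> nlinarith
    have h5 : (∏ _i : Fin m, (2 : ℤ)) ≤ ∏ i, (p i : ℤ) ^ e i :=
      Finset.prod_le_prod (fun _ _ => by norm_num) (fun i _ => h2 i)
    rw [Finset.prod_const, Finset.card_univ, Fintype.card_fin] at h5
    calc (4 : ℤ) = 2 ^ 2 := by norm_num
      _ ≤ 2 ^ m := pow_le_pow_right₀ (by norm_num) hm
      _ ≤ _ := h5
  omega

/-- few classes give few generators -/
theorem gen_of_cardG (hm : 2 ≤ m) (h : HypG p e) (d : ℕ)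
    (hc : Nat.card {v // UG p e v} ≤ 3 ^ (d + 1)) : GenBy (AA p e) d := by
  classical
  have i0 : Fin m := ⟨0, by omega⟩
  choose vv hvv using kapExG' m p e h
  set T := threeMul (AA p e) with hT
  let F : (GA (AA p e) ⧸ T) × ZMod 3 → {v // UG p e v} := fun x =>
    ⟨vv (Quotient.out x.1) + fun _ => x.2, UG_add h ⟨_, hvv _⟩ (UG_const p e x.2)⟩
  have hF : Function.Injective F := by
    rintro ⟨g, c⟩ ⟨g', c'⟩ hgg
    have h1 : ∀ i, vv (Quotient.out g) i + c = vv (Quotient.out g') i + c' := by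
      intro i
      exact congrFun (congrArg Subtype.val hgg) i
    have h2 := kapG_diff h (hvv (Quotient.out g)) (hvv (Quotient.out g'))
      ⟨c' - c, fun i => by linear_combination h1 i⟩
    have h3 : g = g' := by
      have e1 : (QuotientAddGroup.mk (Quotient.out g') : GA (AA p e) ⧸ T) =
          QuotientAddGroup.mk (Quotient.out g) := by
        rw [QuotientAddGroup.eq]
        rw [neg_add_eq_sub]
        exact h2
      have e2 : (QuotientAddGroup.mk (Quotient.out g) : GA (AA p e) ⧸ T) = g := Quotient.out_eq g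
      have e3 : (QuotientAddGroup.mk (Quotient.out g') : GA (AA p e) ⧸ T) = g' := Quotient.out_eq g'
      rw [← e2, ← e3, e1]
    subst h3
    have h4 := h1 i0
    exact Prod.ext rfl (add_left_cancel h4)
  have hfin : Finite ((GA (AA p e) ⧸ T) × ZMod 3) := Finite.of_injective F hF
  have hfinq : Finite (GA (AA p e) ⧸ T) :=
    Finite.of_injective (fun g => ((g, 0) : (GA (AA p e) ⧸ T) × ZMod 3))
      (fun a b hab => congrArg Prod.fst hab)
  have hcard := Nat.card_le_card_of_injective F hF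
  rw [Nat.card_prod, Nat.card_zmod] at hcard
  have hidx : T.index ≤ 3 ^ d := by
    have : T.index * 3 ≤ 3 ^ d * 3 := by
      rw [← pow_succ]
      exact hcard.trans hc
    exact Nat.le_of_mul_le_mul_right this (by norm_num)
  have hfi : T.FiniteIndex := AddSubgroup.finiteIndex_of_finite_quotient
  exact gen' (AA p e) (cubeFree_AAG h) (AA_bigG hm h) d hfi hidx

/-! ### linear algebra -/

/-- the condition at 3 is not empty -/
def CondG {m : ℕ} (p e : Fin m → ℕ) : Prop :=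
  ((∀ i, p i ≠ 3) ∧ tg p e = 0) ∨ ∃ i, p i = 3 ∧ e i = 2

/-- the linear form of the condition at 3 -/
def psi {m : ℕ} (p e : Fin m → ℕ) (v : Fin m → ZMod 3) : ZMod 3 :=
  ∑ i, sg p e i * (v i - bas p v)

/-- the space of possible classes -/
def EEG {m : ℕ} (p e : Fin m → ℕ) (v : Fin m → ZMod 3) : Prop := CondG p e → psi p e v = 0

theorem bas_add' (p : Fin m → ℕ) (v v' : Fin m → ZMod 3) (c : ZMod 3) :
    bas p (fun i => v i + c * v' i) = bas p v + c * bas p v' := by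
  unfold bas
  rw [Finset.mul_sum, ← Finset.sum_add_distrib]
  exact Finset.sum_congr rfl (fun i _ => by split_ifs <;> ring)

theorem psi_add (p e : Fin m → ℕ) (v v' : Fin m → ZMod 3) (c : ZMod 3) :
    psi p e (fun i => v i + c * v' i) = psi p e v + c * psi p e v' := by
  unfold psi
  rw [bas_add', Finset.mul_sum, ← Finset.sum_add_distrib]
  exact Finset.sum_congr rfl (fun i _ => by ring)

theorem UG_rep (h : HypG p e) {v : Fin m → ZMod 3} (hv : UG p e v)
    (hc : ¬ ∃ c, ∀ i, v i = c) : Rep p e v := by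
  obtain ⟨P, hP⟩ := hv
  exact (kapRepG' m p e h P v hP).2 hc

theorem UG_sub_E (h : HypG p e) {v : Fin m → ZMod 3} (hv : UG p e v) : EEG p e v := by
  intro hW
  by_cases hc : ∃ c, ∀ i, v i = c
  · obtain ⟨c, hc⟩ := hc
    unfold psi
    rcases hW with ⟨h3, hW⟩ | ⟨i3, h3, -⟩
    · rw [bas_no h3]
      have : ∑ i, sg p e i * (v i - 0) = c * tg p e := by
        rw [tg, Finset.mul_sum]
        exact Finset.sum_congr rfl (fun i _ => by rw [hc i]; ring)
      rw [this, hW, mul_zero]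
    · rw [bas_of h.inj h3]
      exact Finset.sum_eq_zero (fun i _ => by rw [hc i, hc i3]; ring)
  · obtain ⟨x, hx⟩ := UG_rep h hv hc
    unfold psi
    rcases hW with ⟨h3, hW⟩ | ⟨i3, h3, he3⟩
    · obtain ⟨o, -, ho, -⟩ := infoG h.h3 h3 hx
      simp only [zf_cast] at ho
      rw [bas_no h3]
      simp only [sub_zero]
      rw [ho, hW, mul_zero]
    · rw [bas_of h.inj h3]
      have h5 := eps_eq (sg p e) (fun i => zf (v i)) (zf (v i3))
      simp only [zf_cast] at h5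
      rw [h5]
      have key : ∀ z : Fin 3, z + 1 ≠ z ∧ z + 2 ≠ z ∧ z + 1 ≠ z + 2 := by decide
      obtain ⟨k1, k2, k3⟩ := key (zf (v i3))
      have := eps_nine h.h3 h.inj h3 he3 hx k1 k2 k3
      unfold cwt at this
      rw [this, sub_self]

/-- many classes: every element is a class up to a multiple of `D` -/
theorem exists_classG (h : HypG p e) {D : Fin m → ZMod 3} (hDE : EEG p e D)
    (hD : ¬ UG p e D) (hcard : Nat.card {v // EEG p e v} < 9 * Nat.card {v // UG p e v})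
    {v : Fin m → ZMod 3} (hv : EEG p e v) : ∃ c : ZMod 3, UG p e (fun i => v i + c * D i) := by
  classical
  by_contra hcon
  push Not at hcon
  let F : {v // UG p e v} × ZMod 3 × ZMod 3 → {v // EEG p e v} := fun x =>
    ⟨fun i => (x.1.1 i + x.2.1 * v i) + x.2.2 * D i, fun hW => by
      rw [psi_add, psi_add, UG_sub_E h x.1.2 hW, hv hW, hDE hW]
      ring⟩
  have hF : Function.Injective F := by
    rintro ⟨⟨u, hu⟩, a, b⟩ ⟨⟨u', hu'⟩, a', b'⟩ hh
    have h1 : ∀ i, u i + a * v i + b * D i = u' i + a' * v i + b' * D i := by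
      intro i
      exact congrFun (congrArg Subtype.val hh) i
    have hdiff : UG p e (fun i => u' i + 2 * u i) := by
      have := UG_add h hu' (UG_smul h hu 2)
      exact this
    have hinv : ∀ z : ZMod 3, z ≠ 0 → z * z = 1 := by decide
    have ha : a = a' := by
      by_contra hne
      have hz : a - a' ≠ 0 := sub_ne_zero.mpr hne
      have h5 := UG_smul h hdiff (a - a')
      apply hcon ((a - a') * (b - b'))
      have e2 : (fun i => (a - a') * (u' i + 2 * u i)) =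
          fun i => v i + (a - a') * (b - b') * D i := by
        funext i
        have h6 := hinv _ hz
        linear_combination (-(a - a')) * h1 i + (v i) * h6 +
          ((a - a') * u i) * three_zmod
      rwa [e2] at h5
    subst ha
    have hb : b = b' := by
      by_contra hne
      have hz : b - b' ≠ 0 := sub_ne_zero.mpr hne
      have h5 := UG_smul h hdiff (b - b')
      apply hD
      have e2 : (fun i => (b - b') * (u' i + 2 * u i)) = D := by
        funext i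
        have h6 := hinv _ hz
        linear_combination (-(b - b')) * h1 i + (D i) * h6 +
          ((b - b') * u i) * three_zmod
      rwa [e2] at h5
    subst hb
    have hu : u = u' := by
      funext i
      linear_combination h1 i
    subst hu
    rfl
  have := Nat.card_le_card_of_injective F hF
  rw [Nat.card_prod, Nat.card_prod, Nat.card_zmod] at this
  omega

theorem card_EG (p e : Fin m → ℕ) : Nat.card {v // EEG p e v} ≤ 3 ^ m := by
  rw [← card_all m]
  exact Nat.card_le_card_of_injective (fun v : {v // EEG p e v} => v.1) Subtype.val_injective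

theorem ex_sg (h : HypG p e) : ∃ i, p i ≠ 3 ∧ sg p e i ≠ 0 := by
  obtain ⟨i, hi⟩ := h.ex
  have h3 : p i ≠ 3 := by omega
  refine ⟨i, h3, ?_⟩
  unfold sg
  rw [if_neg h3]
  exact mul_ne_zero (zmod_ne (h.he i)) (wq_ne hi)

theorem card_EG_zero (h : HypG p e) (hW : CondG p e) :
    3 * Nat.card {v // EEG p e v} ≤ 3 ^ m := by
  classical
  obtain ⟨i0, hi3, hi0⟩ := ex_sg h
  let D : Fin m → ZMod 3 := fun i => if i = i0 then sg p e i0 else 0
  have hD : psi p e D = 1 := by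
    unfold psi
    have hb : bas p D = 0 := by
      unfold bas
      refine Finset.sum_eq_zero (fun i _ => ?_)
      split_ifs with h3
      · simp only [D]
        rw [if_neg]
        rintro rfl
        exact hi3 h3
      · rfl
    rw [hb]
    have e1 : ∀ i, sg p e i * (D i - 0) = if i = i0 then sg p e i0 * sg p e i0 else 0 := by
      intro i
      simp only [D]
      split_ifs with hi
      · subst hi; ring
      · ring
    rw [Finset.sum_congr rfl (fun i _ => e1 i), Finset.sum_ite_eq' Finset.univ i0,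
      if_pos (Finset.mem_univ _)]
    exact z3_sq1 _ hi0
  let F : ZMod 3 × {v // EEG p e v} → (Fin m → ZMod 3) := fun x i => x.2.1 i + x.1 * D i
  have hF : Function.Injective F := by
    rintro ⟨a, ⟨u, hu⟩⟩ ⟨a', ⟨u', hu'⟩⟩ hh
    have h1 : (fun i => u i + a * D i) = fun i => u' i + a' * D i := hh
    have ha : a = a' := by
      have h2 := congrArg (psi p e) h1
      rw [psi_add, psi_add, hu hW, hu' hW, hD] at h2
      linear_combination h2
    subst ha
    have : u = u' := by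
      funext i
      exact add_right_cancel (congrFun h1 i)
    subst this
    rfl
  have := Nat.card_le_card_of_injective F hF
  rwa [Nat.card_prod, Nat.card_zmod, card_all] at this

/-! ### the contradiction -/

namespace PairG

variable (b : PairG p e e' S)

include b

theorem EE_ind : EEG p e (ind S) := by
  intro hW
  have hs : ∑ i ∈ S, sg p e i = 0 := by
    rcases hW with ⟨h3, hW⟩ | ⟨i3, h3, he3⟩
    · by_contra hs
      exact (b.noThree h3 hs).1 hW
    · by_contra hs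
      have := (b.three h3 hs).1.e3
      omega
  unfold psi
  rw [b.bas_ind]
  simp only [sub_zero]
  rw [sum_ind, Finset.univ_inter]
  exact hs

theorem ind_nc : ¬ ∃ c, ∀ i, ind S i = c := by
  rintro ⟨c, hc⟩
  obtain ⟨i0, hi0, -⟩ := b.inT
  obtain ⟨i2, hi2⟩ : ∃ i, i ∉ S := by
    rcases b.outT with ⟨i, hi, -⟩ | ⟨⟨i3, h3, -⟩, -⟩
    · exact ⟨i, hi⟩
    · exact ⟨i3, b.i3_out h3⟩
  have h1 := hc i0
  have h2 := hc i2
  unfold ind at h1 h2
  rw [if_pos hi0] at h1
  rw [if_neg hi2] at h2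
  rw [← h2] at h1
  exact absurd h1 (by decide)

theorem one (h1 : UG p e (ind S)) (h2 : UG p e' (ind S)) : False :=
  b.law_one ⟨UG_rep b.h h1 b.ind_nc, UG_rep b.h' h2 b.ind_nc⟩

theorem two (h2 : UG p e' (ind S)) {v : Fin m → ZMod 3} (hv : UG p e v) : LamG p e S v = 0 := by
  by_cases hc : ∃ c, ∀ i, v i = c
  · exact b.Lam_const hc
  · exact b.law_two (UG_rep b.h' h2 b.ind_nc) (UG_rep b.h hv hc)

theorem thr {v v' : Fin m → ZMod 3} {c d : ZMod 3}
    (hv : UG p e v) (hv' : UG p e' v') (hvv : ∀ i, v' i = if i ∈ S then c - v i else v i + d) :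
    LamG p e S v = 0 := by
  by_cases hc : ∃ c, ∀ i, v i = c
  · exact b.Lam_const hc
  · by_cases hc' : ∃ c, ∀ i, v' i = c
    · obtain ⟨f, hf⟩ := hc'
      have e1 : v = fun i => (f - d) + (c - f - (f - d)) * ind S i := by
        funext i
        have h1 := hvv i
        rw [hf i] at h1
        unfold ind
        split_ifs at h1 ⊢
        · linear_combination h1
        · linear_combination -h1
      rw [e1, b.Lam_add, b.Lam_const ⟨f - d, fun _ => rfl⟩, b.Lam_ind]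
      ring
    · exact b.law_three' (UG_rep b.h hv hc) (UG_rep b.h' hv' hc') hvv

/-- `LamG` is nonzero on the space of possible classes -/
theorem nonzero : ∃ v, EEG p e v ∧ LamG p e S v ≠ 0 := by
  classical
  obtain ⟨i0, hi0, hw0⟩ := b.inT
  have h30 : p i0 ≠ 3 := b.nS i0 hi0
  by_cases hex : ∃ i, i ∉ S ∧ sg p e i ≠ 0
  · obtain ⟨i2, hi2, hw2⟩ := hex
    have h32 : p i2 ≠ 3 := by
      intro h3
      apply hw2
      unfold sg; rw [if_pos h3]
    have h02 : i0 ≠ i2 := fun h => hi2 (h ▸ hi0)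
    let v : Fin m → ZMod 3 := fun i =>
      if i = i0 then sg p e i0 else if i = i2 then - sg p e i2 else 0
    have hb : bas p v = 0 := by
      unfold bas
      refine Finset.sum_eq_zero (fun i _ => ?_)
      split_ifs with h3
      · simp only [v]
        rw [if_neg, if_neg]
        · rintro rfl; exact h32 h3
        · rintro rfl; exact h30 h3
      · rfl
    have key : ∀ T : Finset (Fin m), ∑ i ∈ T, sg p e i * v i =
        (if i0 ∈ T then 1 else 0) - (if i2 ∈ T then 1 else 0) := by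
      intro T
      have e1 : ∀ i, sg p e i * v i = (if i = i0 then 1 else 0) - (if i = i2 then 1 else 0) := by
        intro i
        simp only [v]
        by_cases h1 : i = i0
        · subst h1
          rw [if_pos rfl, if_pos rfl, if_neg h02, z3_sq1 _ hw0]; ring
        · rw [if_neg h1, if_neg h1]
          by_cases h2 : i = i2
          · subst h2
            rw [if_pos rfl, if_pos rfl]
            linear_combination -(z3_sq1 _ hw2)
          · rw [if_neg h2, if_neg h2]; ring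
      rw [Finset.sum_congr rfl (fun i _ => e1 i), Finset.sum_sub_distrib, Finset.sum_ite_eq',
        Finset.sum_ite_eq']
    refine ⟨v, fun _ => ?_, ?_⟩
    · unfold psi
      rw [hb]
      simp only [sub_zero]
      rw [key]; simp
    · unfold LamG
      rw [hb]
      simp only [sub_zero]
      by_cases hs : ∑ i ∈ S, sg p e i = 0
      · rw [if_pos hs, key, if_pos hi0, if_neg hi2]; decide
      · rw [if_neg hs, key, if_neg (by simpa using hi0), if_pos (by simpa using hi2)]; decide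
  · obtain ⟨⟨i3, h3, he3⟩, hs⟩ := b.outT.resolve_left hex
    let v : Fin m → ZMod 3 := fun i => if i = i0 then sg p e i0 else 0
    refine ⟨v, fun hW => ?_, ?_⟩
    · exfalso
      rcases hW with ⟨h4, -⟩ | ⟨i, h4, h5⟩
      · exact h4 i3 h3
      · have : i = i3 := b.h.inj (h4.trans h3.symm)
        rw [this] at h5; omega
    · unfold LamG
      rw [if_pos hs]
      have e1 : ∀ i, sg p e i * v i = if i = i0 then 1 else 0 := by
        intro i
        simp only [v]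
        by_cases h1 : i = i0
        · subst h1
          rw [if_pos rfl, if_pos rfl, z3_sq1 _ hw0]
        · rw [if_neg h1, if_neg h1, mul_zero]
      rw [Finset.sum_congr rfl (fun i _ => e1 i), Finset.sum_ite_eq', if_pos hi0]
      decide

/-- **both groups cannot be large** -/
theorem contra
    (h1 : Nat.card {v // EEG p e v} < 9 * Nat.card {v // UG p e v})
    (h2 : Nat.card {v // EEG p e' v} < 9 * Nat.card {v // UG p e' v}) : False := by
  have fin : ∀ {e e' : Fin m → ℕ}, PairG p e e' S →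
      Nat.card {v // EEG p e v} < 9 * Nat.card {v // UG p e v} →
      ¬ UG p e (ind S) → (∀ v, UG p e v → LamG p e S v = 0) → False := by
    intro e e' b h1 hD hL
    obtain ⟨v, hv, hne⟩ := b.nonzero
    obtain ⟨c, hc⟩ := exists_classG b.h b.EE_ind hD h1 hv
    have h3 := hL _ hc
    rw [b.Lam_add, b.Lam_ind, mul_zero, add_zero] at h3
    exact hne h3
  by_cases hD' : UG p e' (ind S)
  · exact fin b h1 (fun hD => b.one hD hD') (fun v hv => b.two hD' hv)
  by_cases hD : UG p e (ind S)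
  · exact fin b.symm h2 hD' (fun v hv => b.symm.two hD hv)
  refine fin b h1 hD (fun v hv => ?_)
  -- the reflected vector
  have hE : EEG p e' (fun i => if i ∈ S then - v i else v i) := by
    intro hW'
    have hbas : bas p (fun i => if i ∈ S then - v i else v i) = bas p v := by
      unfold bas
      refine Finset.sum_congr rfl (fun i _ => ?_)
      by_cases h3 : p i = 3
      · rw [if_pos h3, if_pos h3]
        show (if i ∈ S then - v i else v i) = v i
        rw [if_neg (b.i3_out h3)]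
      · rw [if_neg h3, if_neg h3]
    have hs' : ∑ i ∈ S, sg p e i = 0 := by
      by_contra hs
      rcases hW' with ⟨h3, hW⟩ | ⟨i3, h3, he3⟩
      · exact (b.noThree h3 hs).2.1 hW
      · have := (b.three h3 hs).2.e3
        omega
    have hW : CondG p e := by
      rcases hW' with ⟨h3, hW⟩ | ⟨i3, h3, he3⟩
      · left
        refine ⟨h3, ?_⟩
        have := b.tg_eq
        rw [hW, hs', add_zero] at this
        exact this.symm
      · right
        exact ⟨i3, h3, by rw [← b.e_out (b.i3_out h3)]; exact he3⟩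
    have h3 := UG_sub_E b.h hv hW
    unfold psi at h3 ⊢
    rw [hbas]
    have e1 : ∑ i, sg p e' i * ((if i ∈ S then - v i else v i) - bas p v) =
        ∑ i, sg p e i * (v i - bas p v) + 2 * bas p v * ∑ i ∈ S, sg p e i := by
      have h4 : ∑ i ∈ S, sg p e i = ∑ i, if i ∈ S then sg p e i else 0 := by
        rw [Finset.sum_ite_mem, Finset.univ_inter]
      rw [h4, Finset.mul_sum, ← Finset.sum_add_distrib]
      refine Finset.sum_congr rfl (fun i _ => ?_)
      by_cases hi : i ∈ S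
      · rw [if_pos hi, if_pos hi, b.base.wt.ins i hi]; ring
      · rw [if_neg hi, if_neg hi, b.base.wt.out i hi]; ring
    rw [e1, h3, hs']; ring
  obtain ⟨c, hc⟩ := exists_classG b.h' b.symm.EE_ind hD' h2 hE
  refine b.thr (c := c) (d := 0) hv hc (fun i => ?_)
  unfold ind
  by_cases hi : i ∈ S
  · rw [if_pos hi, if_pos hi, if_pos hi]; ring
  · rw [if_neg hi, if_neg hi, if_neg hi]; ring

/-- the bound, no condition at 3 -/
theorem bound (hm : 2 ≤ m) {d : ℕ} (hd : m ≤ d + 3) : GenBy (AA p e) d ∨ GenBy (AA p e') d := by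
  by_contra hcon
  push Not at hcon
  obtain ⟨c1, c2⟩ := hcon
  have hpow : 3 ^ m ≤ 9 * 3 ^ (d + 1) := by
    calc 3 ^ m ≤ 3 ^ (d + 3) := Nat.pow_le_pow_right (by norm_num) hd
      _ = 9 * 3 ^ (d + 1) := by ring
  have g : ∀ {e : Fin m → ℕ}, HypG p e → ¬ GenBy (AA p e) d →
      Nat.card {v // EEG p e v} < 9 * Nat.card {v // UG p e v} := by
    intro e h hc
    have h1 : ¬ Nat.card {v // UG p e v} ≤ 3 ^ (d + 1) := fun h1 =>
      hc (gen_of_cardG hm h _ h1)
    have h2 := card_EG p e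
    omega
  exact b.contra (g b.h c1) (g b.h' c2)

/-- the bound with a condition at 3 -/
theorem bound' (hm : 2 ≤ m) {d : ℕ} (hd : m ≤ d + 4) (hW : CondG p e) (hW' : CondG p e') :
    GenBy (AA p e) d ∨ GenBy (AA p e') d := by
  by_contra hcon
  push Not at hcon
  obtain ⟨c1, c2⟩ := hcon
  have hpow : 3 ^ m ≤ 27 * 3 ^ (d + 1) := by
    calc 3 ^ m ≤ 3 ^ (d + 4) := Nat.pow_le_pow_right (by norm_num) hd
      _ = 27 * 3 ^ (d + 1) := by ring
  have g : ∀ {e : Fin m → ℕ}, HypG p e → CondG p e → ¬ GenBy (AA p e) d →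
      Nat.card {v // EEG p e v} < 9 * Nat.card {v // UG p e v} := by
    intro e h hW hc
    have h1 : ¬ Nat.card {v // UG p e v} ≤ 3 ^ (d + 1) := fun h1 =>
      hc (gen_of_cardG hm h _ h1)
    have h2 := card_EG_zero h hW
    omega
  exact b.contra (g b.h hW c1) (g b.h' hW' c2)

end PairG

end Pool.Agent.CubeRank


end

section

/-!
# All but at most two
-/

set_option autoImplicit false

namespace Pool.Agent.CubeRank

open Pool.Agent.Lib_helper18 Pool.Agent.Lib_helper18.Eis Pool.Agent.Lib_helper84.Cub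

theorem tw_zero_iff {m : ℕ} {p e : Fin m → ℕ} (h9 : ∀ i, p i % 9 = 2 ∨ p i % 9 = 5) :
    tw p e = 0 ↔ AA p e % 9 = 1 ∨ AA p e % 9 = 8 := by
  have h1 : tw p e = wq (AA p e) := (wq_all h9).symm
  rw [h1]
  apply wq_zero_iff
  intro h
  unfold AA at h
  rw [Prime.dvd_finsetProd_iff Int.prime_three] at h
  obtain ⟨j, -, hj⟩ := h
  exact not_three_dvd (h9 j) (Int.prime_three.dvd_of_dvd_pow hj)

/-- from pairs to all but two -/
theorem all_but_two {m : ℕ} {Good Cls : (Fin m → ℕ) → Prop}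
    (h : ∀ e e' : Fin m → ℕ, (∀ i, e i = 1 ∨ e i = 2) → (∀ i, e' i = 1 ∨ e' i = 2) →
      e ≠ e' → (∃ i, e i = e' i) → Cls e → Cls e' → Good e ∨ Good e') :
    ∃ e₀ : Fin m → ℕ, ∀ e : Fin m → ℕ, (∀ i, e i = 1 ∨ e i = 2) → Cls e →
      e ≠ e₀ → (∃ i, e i + e₀ i ≠ 3) → Good e := by
  by_cases hall : ∀ e : Fin m → ℕ, (∀ i, e i = 1 ∨ e i = 2) → Cls e → Good e
  · exact ⟨fun _ => 0, fun e he hc _ _ => hall e he hc⟩
  · push Not at hall
    obtain ⟨e₀, he₀, hc₀, hg₀⟩ := hall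
    refine ⟨e₀, fun e he hc hne hi => ?_⟩
    obtain ⟨i, hi⟩ := hi
    rcases h e e₀ he he₀ hne ⟨i, by have := he i; have := he₀ i; omega⟩ hc hc₀ with h1 | h1
    · exact h1
    · exact absurd h1 hg₀

end Pool.Agent.CubeRank


end

section

/-!
# The theorems on ranks, general version
-/

set_option autoImplicit false

namespace Pool.Agent.CubeRank

open Pool.Agent.Lib_helper18 Pool.Agent.Lib_helper18.Eis Pool.Agent.Lib_helper84.Cub

variable {m : ℕ} {p e e' : Fin m → ℕ} {S : Finset (Fin m)}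

/-- the set of exchanged primes -/
def dS {m : ℕ} (e e' : Fin m → ℕ) : Finset (Fin m) := Finset.univ.filter (fun i => e i ≠ e' i)

theorem mem_dS {i : Fin m} : i ∈ dS e e' ↔ e i ≠ e' i := by simp [dS]

theorem base_ofG (h : HypG p e) (h' : HypG p e') (h3 : ∀ i, p i = 3 → e i = e' i) :
    BaseT p e e' (dS e e') where
  hp := h.hp
  h3 := h.h3
  inj := h.inj
  he := h.he
  he' := h'.he
  nS := fun i hi h3i => (mem_dS.mp hi) (h3 i h3i)
  rel := fun j => by
    have h1 := h.he j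
    have h2 := h'.he j
    split_ifs with h4
    · have := mem_dS.mp h4; omega
    · by_contra h5
      exact h4 (mem_dS.mpr h5)

/-- total weights -/
theorem BaseT.tg_eq (b : BaseT p e e' S) : tg p e' = tg p e + ∑ i ∈ S, sg p e i := by
  unfold tg
  rw [sum_split _ S, sum_split (sg p e) S, sum_sg' b]
  have h2 : ∑ i ∈ Sᶜ, sg p e' i = ∑ i ∈ Sᶜ, sg p e i :=
    Finset.sum_congr rfl (fun i hi => b.wt.out i (Finset.mem_compl.mp hi))
  rw [h2]
  linear_combination (-(∑ i ∈ S, sg p e i)) * three_zmod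

/-- **the law for two curves in the same class** -/
theorem law_class (h : HypG p e) (h' : HypG p e') (h3 : ∀ i, p i = 3 → e i = e' i)
    (htg : tg p e = tg p e') {v v' : Fin m → ZMod 3} (hv : UG p e v) (hv' : UG p e' v')
    (hvv : ∀ i, v' i = if e i = e' i then v i else - v i) :
    ∑ i ∈ dS e e', sg p e i * v i = 0 := by
  classical
  have bb := base_ofG h h' h3
  have hs : ∑ i ∈ dS e e', sg p e i = 0 := by
    have := bb.tg_eq
    rw [← htg] at this
    linear_combination -this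
  by_cases hin : ∃ i ∈ dS e e', sg p e i ≠ 0
  swap
  · push Not at hin
    exact Finset.sum_eq_zero (fun i hi => by rw [hin i hi, zero_mul])
  by_cases hout : (∃ i, i ∉ dS e e' ∧ sg p e i ≠ 0) ∨ (∃ i3, p i3 = 3 ∧ e i3 = 1)
  · have b : PairG p e e' (dS e e') :=
      { h := h, h' := h', hS := fun i => mem_dS, nS := bb.nS, inT := hin
        typ := by
          by_cases h4 : ∀ i, p i ≠ 3
          · left
            refine ⟨h4, ?_⟩
            by_cases h5 : tg p e = 0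
            · exact Or.inr ⟨h5, by rw [← htg]; exact h5⟩
            · exact Or.inl ⟨h5, by rw [← htg]; exact h5⟩
          · push Not at h4
            exact Or.inr (Or.inr ⟨h4, hs⟩)
        outT := by
          rcases hout with h4 | h4
          · exact Or.inl h4
          · exact Or.inr ⟨h4, hs⟩ }
    have h6 := b.thr (c := 0) (d := 0) hv hv' (fun i => by
      rw [hvv i]
      by_cases hi : e i = e' i
      · rw [if_pos hi, if_neg (fun h => (mem_dS.mp h) hi), add_zero]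
      · rw [if_neg hi, if_pos (mem_dS.mpr hi), zero_sub])
    unfold LamG at h6
    rwa [if_pos hs] at h6
  · push Not at hout
    obtain ⟨ho1, ho2⟩ := hout
    have ht0 : tg p e = 0 := by
      unfold tg
      rw [sum_split _ (dS e e'), hs, zero_add]
      exact Finset.sum_eq_zero (fun i hi => ho1 i (Finset.mem_compl.mp hi))
    have hC : CondG p e := by
      by_cases h4 : ∀ i, p i ≠ 3
      · exact Or.inl ⟨h4, ht0⟩
      · push Not at h4
        obtain ⟨i3, hi3⟩ := h4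
        exact Or.inr ⟨i3, hi3, (h.he i3).resolve_left (ho2 i3 hi3)⟩
    have h5 := UG_sub_E h hv hC
    unfold psi at h5
    have e1 : ∑ i, sg p e i * (v i - bas p v) = ∑ i, sg p e i * v i - tg p e * bas p v := by
      unfold tg
      rw [Finset.sum_mul, ← Finset.sum_sub_distrib]
      exact Finset.sum_congr rfl (fun i _ => by ring)
    rw [e1, ht0, zero_mul, sub_zero, sum_split _ (dS e e')] at h5
    have h6 : ∑ i ∈ (dS e e')ᶜ, sg p e i * v i = 0 :=
      Finset.sum_eq_zero (fun i hi => by rw [ho1 i (Finset.mem_compl.mp hi), zero_mul])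
    rwa [h6, add_zero] at h5

/-! ### weights and residues modulo 9 -/

theorem three_ndvd {q : ℕ} (h3 : q % 3 = 2) : ¬ (3 : ℤ) ∣ (q : ℤ) := by omega

theorem three_ndvd_prod {k : ℕ} {q f : Fin k → ℕ} (h3 : ∀ i, q i % 3 = 2) :
    ¬ (3 : ℤ) ∣ ∏ i, (q i : ℤ) ^ f i := by
  intro h
  rw [Prime.dvd_finsetProd_iff Int.prime_three] at h
  obtain ⟨j, -, hj⟩ := h
  exact three_ndvd (h3 j) (Int.prime_three.dvd_of_dvd_pow hj)

theorem tg_eq_wq {k : ℕ} {q f : Fin k → ℕ} (h3 : ∀ i, q i % 3 = 2) :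
    tg q f = wq (∏ i, (q i : ℤ) ^ f i) := by
  have h3' : ∀ j, ¬ (3 : ℤ) ∣ (q j : ℤ) ^ f j := fun j h =>
    three_ndvd (h3 j) (Int.prime_three.dvd_of_dvd_pow h)
  rw [wq_prod _ _ h3']
  unfold tg sg
  refine Finset.sum_congr rfl (fun i _ => ?_)
  rw [if_neg (by have := h3 i; omega), wq_pow (three_ndvd (h3 i))]

theorem sg_ne {p f : Fin m → ℕ} (hf : ∀ i, f i = 1 ∨ f i = 2) {i : Fin m} (h3 : p i % 3 = 2)
    (h8 : p i % 9 ≠ 8) : sg p f i ≠ 0 := by
  unfold sg
  rw [if_neg (by omega)]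
  have h1 : wq (p i : ℤ) ≠ 0 := wq_ne (by omega)
  rcases hf i with h | h <;> rw [h]
  · rw [Nat.cast_one, one_mul]; exact h1
  · revert h1
    generalize wq (p i : ℤ) = x
    revert x
    decide

theorem sg_eight {p f : Fin m → ℕ} {i : Fin m} (h8 : p i % 9 = 8) : sg p f i = 0 := by
  unfold sg
  rw [if_neg (by omega), (wq_zero_iff (by omega)).mpr (by omega), mul_zero]

theorem tg_cons {k : ℕ} {q f : Fin k → ℕ} (j : ℕ) :
    tg (Fin.cons 3 q : Fin (k + 1) → ℕ) (Fin.cons j f : Fin (k + 1) → ℕ) = tg q f := by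
  unfold tg
  rw [Fin.sum_univ_succ]
  unfold sg
  simp

theorem AA_cons {k : ℕ} {q f : Fin k → ℕ} (j : ℕ) :
    AA (Fin.cons 3 q : Fin (k + 1) → ℕ) (Fin.cons j f : Fin (k + 1) → ℕ) =
      3 ^ j * ∏ i, (q i : ℤ) ^ f i := by
  unfold AA
  rw [Fin.prod_univ_succ]
  simp

/-! ### hypotheses -/

theorem hypG_of {k : ℕ} {q f : Fin k → ℕ} (hq : ∀ i, (q i).Prime) (h3 : ∀ i, q i % 3 = 2)
    (hinj : Function.Injective q) (hf : ∀ i, f i = 1 ∨ f i = 2) (hex : ∃ i, q i % 9 ≠ 8) :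
    HypG q f where
  hp := hq
  h3 := fun i => Or.inl (h3 i)
  inj := hinj
  he := hf
  ex := by
    obtain ⟨i, hi⟩ := hex
    exact ⟨i, by have := h3 i; omega⟩

theorem hypG_cons {k : ℕ} {q f : Fin k → ℕ} (hq : ∀ i, (q i).Prime) (h3 : ∀ i, q i % 3 = 2)
    (hinj : Function.Injective q) (hf : ∀ i, f i = 1 ∨ f i = 2) (hex : ∃ i, q i % 9 ≠ 8)
    {j : ℕ} (hj : j = 1 ∨ j = 2) :
    HypG (Fin.cons 3 q : Fin (k + 1) → ℕ) (Fin.cons j f : Fin (k + 1) → ℕ) where
  hp := fun i => by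
    refine Fin.cases ?_ (fun i => ?_) i
    · simpa using Nat.prime_three
    · simpa using hq i
  h3 := fun i => by
    refine Fin.cases ?_ (fun i => ?_) i
    · right; simp
    · left; simpa using h3 i
  inj := by
    rw [Fin.cons_injective_iff]
    refine ⟨?_, hinj⟩
    rintro ⟨i, hi⟩
    have := h3 i
    omega
  he := fun i => by
    refine Fin.cases ?_ (fun i => ?_) i
    · simpa using hj
    · simpa using hf i
  ex := by
    obtain ⟨i, hi⟩ := hex
    exact ⟨i.succ, by have := h3 i; simp; omega⟩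

/-! ### the theorem -/

theorem all_but {k : ℕ} {Good Cls : (Fin k → ℕ) → Prop}
    {X : (Fin k → ℕ) → (Fin k → ℕ) → Prop}
    (h : ∀ e e' : Fin k → ℕ, (∀ i, e i = 1 ∨ e i = 2) → (∀ i, e' i = 1 ∨ e' i = 2) →
      Cls e → Cls e' → X e e' → Good e ∨ Good e') :
    ∃ e₀ : Fin k → ℕ, ∀ e : Fin k → ℕ, (∀ i, e i = 1 ∨ e i = 2) → Cls e → X e e₀ → Good e := by
  by_cases hall : ∀ e : Fin k → ℕ, (∀ i, e i = 1 ∨ e i = 2) → Cls e → Good e
  · exact ⟨fun _ => 0, fun e he hc _ => hall e he hc⟩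
  · push Not at hall
    obtain ⟨e₀, he₀, hc₀, hg₀⟩ := hall
    exact ⟨e₀, fun e he hc hx => (h e e₀ he he₀ hc hc₀ hx).resolve_right hg₀⟩

/-- two vectors of exponents are neither equal nor complementary on the primes `≡ 2, 5 (mod 9)` -/
def ApartG {k : ℕ} (q e e' : Fin k → ℕ) : Prop :=
  (∃ i, q i % 9 ≠ 8 ∧ e i ≠ e' i) ∧ (∃ i, q i % 9 ≠ 8 ∧ e i + e' i ≠ 3)

section

variable {k : ℕ} {q : Fin k → ℕ} (hq : ∀ i, (q i).Prime) (h3 : ∀ i, q i % 3 = 2)
  (hinj : Function.Injective q)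

include hq h3 hinj

/-- 3 does not divide `A`: the pair -/
theorem pair_no {e e' : Fin k → ℕ} (he : ∀ i, e i = 1 ∨ e i = 2) (he' : ∀ i, e' i = 1 ∨ e' i = 2)
    (hx : ApartG q e e')
    (hcl : (tg q e ≠ 0 ∧ tg q e' ≠ 0) ∨ (tg q e = 0 ∧ tg q e' = 0)) :
    PairG q e e' (dS e e') := by
  obtain ⟨⟨i1, hi1, hn1⟩, ⟨i2, hi2, hn2⟩⟩ := hx
  have h : HypG q e := hypG_of hq h3 hinj he ⟨i1, hi1⟩
  have h' : HypG q e' := hypG_of hq h3 hinj he' ⟨i1, hi1⟩
  have n3 : ∀ i, q i ≠ 3 := fun i => by have := h3 i; omega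
  exact
    { h := h, h' := h', hS := fun i => mem_dS, nS := fun i _ => n3 i
      inT := ⟨i1, mem_dS.mpr hn1, sg_ne he (h3 i1) hi1⟩
      typ := Or.inl ⟨n3, hcl⟩
      outT := Or.inl ⟨i2, fun hh => by
        have := mem_dS.mp hh
        have h1 := he i2
        have h2 := he' i2
        omega, sg_ne he (h3 i2) hi2⟩ }

theorem rank_no (hk : 3 ≤ k) :
    (∃ e₀ : Fin k → ℕ, ∀ e : Fin k → ℕ, (∀ i, e i = 1 ∨ e i = 2) →
      ¬ ((∏ i, (q i : ℤ) ^ e i) % 9 = 1 ∨ (∏ i, (q i : ℤ) ^ e i) % 9 = 8) →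
      ApartG q e e₀ → GenBy (∏ i, (q i : ℤ) ^ e i) (k - 3)) := by
  refine all_but (fun e e' he he' hc hc' hx => ?_)
  have b := pair_no hq h3 hinj he he' hx (Or.inl ⟨?_, ?_⟩)
  · exact b.bound (by omega) (by omega)
  · rw [tg_eq_wq h3]; exact fun h => hc ((wq_zero_iff (three_ndvd_prod h3)).mp h)
  · rw [tg_eq_wq h3]; exact fun h => hc' ((wq_zero_iff (three_ndvd_prod h3)).mp h)

theorem rank_one (hk : 4 ≤ k) :
    (∃ e₀ : Fin k → ℕ, ∀ e : Fin k → ℕ, (∀ i, e i = 1 ∨ e i = 2) →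
      ((∏ i, (q i : ℤ) ^ e i) % 9 = 1 ∨ (∏ i, (q i : ℤ) ^ e i) % 9 = 8) →
      ApartG q e e₀ → GenBy (∏ i, (q i : ℤ) ^ e i) (k - 4)) := by
  refine all_but (fun e e' he he' hc hc' hx => ?_)
  have n3 : ∀ i, q i ≠ 3 := fun i => by have := h3 i; omega
  have t1 : tg q e = 0 := by
    rw [tg_eq_wq h3]; exact (wq_zero_iff (three_ndvd_prod h3)).mpr hc
  have t2 : tg q e' = 0 := by
    rw [tg_eq_wq h3]; exact (wq_zero_iff (three_ndvd_prod h3)).mpr hc'
  have b := pair_no hq h3 hinj he he' hx (Or.inr ⟨t1, t2⟩)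
  exact b.bound' (by omega) (by omega) (Or.inl ⟨n3, t1⟩) (Or.inl ⟨n3, t2⟩)

/-- 3 divides `A`: the pair -/
theorem pair_cons {e e' : Fin k → ℕ} (he : ∀ i, e i = 1 ∨ e i = 2)
    (he' : ∀ i, e' i = 1 ∨ e' i = 2) {j : ℕ} (hj : j = 1 ∨ j = 2)
    (hin : ∃ i, q i % 9 ≠ 8 ∧ e i ≠ e' i)
    (hcl : j = 1 ∨ tg q e = tg q e')
    (hout : (∃ i, q i % 9 ≠ 8 ∧ e i + e' i ≠ 3) ∨ (j = 1 ∧ tg q e = 0)) :
    PairG (Fin.cons 3 q : Fin (k + 1) → ℕ) (Fin.cons j e) (Fin.cons j e')
      (dS (Fin.cons j e) (Fin.cons j e')) := by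
  classical
  obtain ⟨i1, hi1, hn1⟩ := hin
  have h := hypG_cons hq h3 hinj he ⟨i1, hi1⟩ hj
  have h' := hypG_cons hq h3 hinj he' ⟨i1, hi1⟩ hj
  have hn3 : ∀ i : Fin k, (Fin.cons 3 q : Fin (k + 1) → ℕ) i.succ ≠ 3 := fun i => by
    have := h3 i
    simp
    omega
  have h3e : ∀ i : Fin (k + 1), (Fin.cons 3 q : Fin (k + 1) → ℕ) i = 3 →
      (Fin.cons j e : Fin (k + 1) → ℕ) i = (Fin.cons j e' : Fin (k + 1) → ℕ) i := by
    intro i
    refine Fin.cases ?_ (fun i => ?_) i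
    · intro _; simp
    · intro h; exact absurd h (hn3 i)
  have bb := base_ofG h h' h3e
  have htg := bb.tg_eq
  rw [tg_cons, tg_cons] at htg
  have hsg : ∀ i : Fin k, q i % 9 ≠ 8 →
      sg (Fin.cons 3 q : Fin (k + 1) → ℕ) (Fin.cons j e) i.succ ≠ 0 := fun i hi =>
    sg_ne h.he (by simpa using h3 i) (by simpa using hi)
  refine
    { h := h, h' := h', hS := fun i => mem_dS, nS := bb.nS
      inT := ⟨i1.succ, mem_dS.mpr (by simpa using hn1), hsg i1 hi1⟩
      typ := ?_, outT := ?_ }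
  · rcases hcl with hcl | hcl
    · exact Or.inr (Or.inl ⟨0, by simp, by simpa using hcl⟩)
    · refine Or.inr (Or.inr ⟨⟨0, by simp⟩, ?_⟩)
      rw [hcl] at htg
      linear_combination -htg
  · by_cases hh : ∃ i, q i % 9 ≠ 8 ∧ e i + e' i ≠ 3
    · obtain ⟨i2, hi2, hn2⟩ := hh
      refine Or.inl ⟨i2.succ, fun hh => ?_, hsg i2 hi2⟩
      have h4 := mem_dS.mp hh
      have h1 := he i2
      have h2 := he' i2
      simp only [Fin.cons_succ] at h4
      omega
    · obtain ⟨hj1, ht0⟩ := hout.resolve_left hh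
      refine Or.inr ⟨⟨0, by simp, by simpa using hj1⟩, ?_⟩
      -- the exchanged weight is the total weight
      push Not at hh
      have h5 := tg_cons (q := q) (f := e) j
      rw [ht0] at h5
      unfold tg at h5
      rw [sum_split _ (dS (Fin.cons j e : Fin (k + 1) → ℕ) (Fin.cons j e'))] at h5
      have h6 : ∑ i ∈ (dS (Fin.cons j e : Fin (k + 1) → ℕ) (Fin.cons j e'))ᶜ,
          sg (Fin.cons 3 q : Fin (k + 1) → ℕ) (Fin.cons j e) i = 0 := by
        refine Finset.sum_eq_zero (fun i hi => ?_)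
        have hi' := Finset.mem_compl.mp hi
        revert hi'
        refine Fin.cases ?_ (fun i => ?_) i
        · intro _
          unfold sg
          simp
        · intro hi'
          have h7 : e i = e' i := by
            by_contra h8
            exact hi' (mem_dS.mpr (by simpa using h8))
          have h8 : q i % 9 = 8 := by
            by_contra h9
            have h10 := hh i h9
            have h11 := he i
            omega
          exact sg_eight (by simpa using h8)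
      rwa [h6, add_zero] at h5

theorem rank_three (hk : 2 ≤ k) :
    (∃ e₀ : Fin k → ℕ, ∀ e : Fin k → ℕ, (∀ i, e i = 1 ∨ e i = 2) → True →
      ((∃ i, q i % 9 ≠ 8 ∧ e i ≠ e₀ i) ∧ ((∃ i, q i % 9 ≠ 8 ∧ e i + e₀ i ≠ 3) ∨
        (∏ i, (q i : ℤ) ^ e i) % 9 = 1 ∨ (∏ i, (q i : ℤ) ^ e i) % 9 = 8)) →
      GenBy (3 * ∏ i, (q i : ℤ) ^ e i) (k - 2)) := by
  refine all_but (fun e e' he he' _ _ hx => ?_)
  have b := pair_cons hq h3 hinj he he' (Or.inl rfl) hx.1 (Or.inl rfl)
    (hx.2.imp_right (fun h => ⟨rfl, by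
      rw [tg_eq_wq h3]; exact (wq_zero_iff (three_ndvd_prod h3)).mpr h⟩))
  have h1 := b.bound (d := k - 2) (by omega) (by omega)
  rwa [AA_cons, AA_cons, pow_one] at h1

theorem rank_nine (hk : 3 ≤ k) (c : ℤ) :
    (∃ e₀ : Fin k → ℕ, ∀ e : Fin k → ℕ, (∀ i, e i = 1 ∨ e i = 2) →
      (9 ∣ (∏ i, (q i : ℤ) ^ e i) - c ∨ 9 ∣ (∏ i, (q i : ℤ) ^ e i) + c) →
      ApartG q e e₀ → GenBy (9 * ∏ i, (q i : ℤ) ^ e i) (k - 3)) := by
  refine all_but (fun e e' he he' hc hc' hx => ?_)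
  have htg : tg q e = tg q e' := by
    rw [tg_eq_wq h3, tg_eq_wq h3, wq_eq_iff (three_ndvd_prod h3) (three_ndvd_prod h3)]
    omega
  have b := pair_cons hq h3 hinj he he' (j := 2) (Or.inr rfl) hx.1 (Or.inr htg) (Or.inl hx.2)
  have h1 := b.bound' (d := k - 3) (by omega) (by omega) (Or.inr ⟨0, by simp, by simp⟩)
    (Or.inr ⟨0, by simp, by simp⟩)
  rw [AA_cons, AA_cons] at h1
  norm_num at h1
  exact h1

end

end Pool.Agent.CubeRank


end

section

/-!
# The average of `4 ^ r(A)`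
-/

set_option autoImplicit false

namespace Pool.Agent.CubeRank

open Pool.Agent.Lib_helper18 Pool.Agent.Lib_helper18.Eis Pool.Agent.Lib_helper84.Cub

variable {m : ℕ} {p e e' : Fin m → ℕ}

/-- the group of classes of the curve with exponents `e`, normalised by the exponents -/
def WW {m : ℕ} (p e : Fin m → ℕ) : Submodule (ZMod 3) (Fin m → ZMod 3) :=
  Submodule.span (ZMod 3) {v | UG p e (fun i => (e i : ZMod 3) * v i)}

theorem mem_WW (h : HypG p e) {v : Fin m → ZMod 3} :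
    v ∈ WW p e ↔ UG p e (fun i => (e i : ZMod 3) * v i) := by
  refine ⟨fun hv => ?_, fun hv => Submodule.subset_span hv⟩
  unfold WW at hv
  induction hv using Submodule.span_induction with
  | mem x hx => exact hx
  | zero =>
    have := UG_const p e 0
    convert this using 2
    simp
  | add x y _ _ hx hy =>
    have := UG_add h hx hy
    convert this using 1
    funext i
    simp only [Pi.add_apply]
    ring
  | smul a x _ hx =>
    have := UG_smul h hx a
    convert this using 1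
    funext i
    simp only [Pi.smul_apply, smul_eq_mul]
    ring

theorem sq_one {f : Fin m → ℕ} (hf : ∀ i, f i = 1 ∨ f i = 2) (i : Fin m) :
    (f i : ZMod 3) * (f i : ZMod 3) = 1 := by
  rcases hf i with h | h <;> rw [h] <;> decide

theorem cast_ne {f : Fin m → ℕ} (hf : ∀ i, f i = 1 ∨ f i = 2) (i : Fin m) :
    (f i : ZMod 3) ≠ 0 := by
  rcases hf i with h | h <;> rw [h] <;> decide

/-- the exponent vector itself lies in `WW` -/
theorem self_mem (h : HypG p e) : (fun i => (e i : ZMod 3)) ∈ WW p e := by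
  rw [mem_WW h]
  have := UG_const p e 1
  convert this using 2
  exact sq_one h.he _

theorem card_WW (h : HypG p e) :
    Nat.card {v // UG p e v} = 3 ^ Module.finrank (ZMod 3) (WW p e) := by
  have h1 : Nat.card (WW p e) = 3 ^ Module.finrank (ZMod 3) (WW p e) := by
    rw [Module.natCard_eq_pow_finrank (K := ZMod 3)]
    simp
  rw [← h1]
  refine Nat.card_congr ?_
  exact
    { toFun := fun v => ⟨fun i => (e i : ZMod 3) * v.1 i, by
        rw [mem_WW h]
        have := v.2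
        convert this using 1
        funext i
        rw [← mul_assoc, sq_one h.he, one_mul]⟩
      invFun := fun v => ⟨fun i => (e i : ZMod 3) * v.1 i, (mem_WW h).mp v.2⟩
      left_inv := fun v => by
        ext i
        simp only
        rw [← mul_assoc, sq_one h.he, one_mul]
      right_inv := fun v => by
        ext i
        simp only
        rw [← mul_assoc, sq_one h.he, one_mul] }

theorem finrank_pos (hm : 1 ≤ m) (h : HypG p e) : 1 ≤ Module.finrank (ZMod 3) (WW p e) := by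
  rw [Nat.one_le_iff_ne_zero]
  intro h0
  rw [Submodule.finrank_eq_zero] at h0
  have h1 := self_mem h
  rw [h0, Submodule.mem_bot] at h1
  exact cast_ne h.he ⟨0, hm⟩ (congrFun h1 ⟨0, hm⟩)

/-- the bound for the rank -/
noncomputable def rk {m : ℕ} (p e : Fin m → ℕ) : ℕ := Module.finrank (ZMod 3) (WW p e) - 1

theorem gen_rk (hm : 2 ≤ m) (h : HypG p e) : GenBy (AA p e) (rk p e) := by
  refine gen_of_cardG hm h _ ?_
  rw [card_WW h, rk, Nat.sub_add_cancel (finrank_pos (by omega) h)]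

/-- the law in terms of `WW` -/
theorem law_WW (h : HypG p e) (h' : HypG p e') (h3 : ∀ i, p i = 3 → e i = e' i)
    (htg : tg p e = tg p e') {v : Fin m → ZMod 3} (hv : v ∈ WW p e) (hv' : v ∈ WW p e') :
    ∑ i, (if p i = 3 then 0 else wq (p i : ℤ)) * v i *
      ((e i : ZMod 3) - (e' i : ZMod 3)) ^ 2 = 0 := by
  rw [mem_WW h] at hv
  rw [mem_WW h'] at hv'
  have h1 := law_class h h' h3 htg hv hv' (fun i => by
    have h2 := h.he i
    have h4 := h'.he i
    split_ifs with h5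
    · rw [h5]
    · have h6 : e' i + e i = 3 := by omega
      have h7 : (e' i : ZMod 3) + (e i : ZMod 3) = 3 := by exact_mod_cast congrArg Nat.cast h6
      linear_combination (v i) * h7 + (v i) * three_zmod)
  refine Eq.trans ?_ h1
  rw [dS, Finset.sum_filter]
  refine Finset.sum_congr rfl (fun i _ => ?_)
  have h2 := h.he i
  have h4 := h'.he i
  split_ifs with h5 h6 h6
  · rw [sg, if_pos h5]; ring
  · rw [not_not.mp h6]; ring
  · rw [sg, if_neg h5]
    have h7 : ((e i : ZMod 3) - (e' i : ZMod 3)) ^ 2 = (e i : ZMod 3) * (e i : ZMod 3) := by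
      rcases h2 with h2 | h2 <;> rcases h4 with h4 | h4
      · exact absurd (h2.trans h4.symm) h6
      · rw [h2, h4]; decide
      · rw [h2, h4]; decide
      · exact absurd (h2.trans h4.symm) h6
    rw [h7]; ring
  · rw [not_not.mp h6]; ring

/-- the exponent vectors -/
def Ex (m : ℕ) : Finset (Fin m → ℕ) := Fintype.piFinset (fun _ => {1, 2})

theorem mem_Ex {f : Fin m → ℕ} : f ∈ Ex m ↔ ∀ i, f i = 1 ∨ f i = 2 := by
  unfold Ex
  simp [Fintype.mem_piFinset]

/-- nowhere zero vectors -/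
def Nz (m : ℕ) : Finset (Fin m → ZMod 3) := Fintype.piFinset (fun _ => {1, 2})

theorem z3_ne (x : ZMod 3) : x ≠ 0 ↔ x = 1 ∨ x = 2 := by revert x; decide

theorem mem_Nz {v : Fin m → ZMod 3} : v ∈ Nz m ↔ ∀ i, v i ≠ 0 := by
  unfold Nz
  simp [Fintype.mem_piFinset, z3_ne]

theorem card_Nz (m : ℕ) : (Nz m).card = 2 ^ m := by
  unfold Nz
  rw [Fintype.card_piFinset]
  have : ({1, 2} : Finset (ZMod 3)).card = 2 := by decide
  simp [this]

/-- the primes `≡ 2, 5 (mod 9)` -/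
def TT {m : ℕ} (p : Fin m → ℕ) : Finset (Fin m) :=
  Finset.univ.filter (fun i => p i ≠ 3 ∧ p i % 9 ≠ 8)

/-- the primes `≡ 8 (mod 9)` -/
def RR {m : ℕ} (p : Fin m → ℕ) : Finset (Fin m) :=
  Finset.univ.filter (fun i => p i ≠ 3 ∧ p i % 9 = 8)

open Classical in
/-- the sum over one class -/
theorem sum_class (hw : WarnStmt) (p : Fin m → ℕ) (hp3 : ∀ i, p i % 3 = 2 ∨ p i = 3)
    (F : Finset (Fin m → ℕ))
    (hF : ∀ e ∈ F, HypG p e)
    (hF' : ∀ e ∈ F, ∀ e' ∈ F, (∀ i, p i = 3 → e i = e' i) ∧ tg p e = tg p e') :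
    ∑ e ∈ F, 4 ^ Module.finrank (ZMod 3) (WW p e) ≤
      2 ^ m * (2 ^ m * 2 ^ ((TT p).card / 2 + (RR p).card)) := by
  have h1 : ∀ e ∈ F, 4 ^ Module.finrank (ZMod 3) (WW p e) ≤
      2 ^ m * ((Nz m).filter (fun v => v ∈ WW p e)).card := by
    intro e he
    have h := hF e he
    refine (hw m (WW p e) _ (self_mem h) (cast_ne h.he)).trans ?_
    refine Nat.mul_le_mul_left _ (le_of_eq ?_)
    rw [Nat.card_eq_fintype_card, Fintype.card_subtype]
    congr 1
    ext v
    simp only [Finset.mem_filter, Finset.mem_univ, true_and, mem_Nz]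
    tauto
  refine (Finset.sum_le_sum h1).trans ?_
  rw [← Finset.mul_sum]
  refine Nat.mul_le_mul_left _ ?_
  -- double counting
  have h2 : ∑ e ∈ F, ((Nz m).filter (fun v => v ∈ WW p e)).card =
      ∑ v ∈ Nz m, (F.filter (fun e => v ∈ WW p e)).card := by
    simp only [Finset.card_filter]
    exact Finset.sum_comm
  rw [h2, ← card_Nz m]
  refine (Finset.sum_le_card_nsmul _ _ (2 ^ ((TT p).card / 2 + (RR p).card)) (fun v hv => ?_)).trans
    (le_of_eq (smul_eq_mul _ _))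
  rw [mem_Nz] at hv
  -- the clique
  have h3 : (F.filter (fun e => v ∈ WW p e)).card =
      ((F.filter (fun e => v ∈ WW p e)).image (fun e => fun i => (e i : ZMod 3))).card := by
    refine (Finset.card_image_of_injOn ?_).symm
    intro f hf g hg hfg
    have h4 := (hF f (Finset.mem_filter.mp hf).1).he
    have h5 := (hF g (Finset.mem_filter.mp hg).1).he
    funext i
    have h6 := congrFun hfg i
    simp only at h6
    rcases h4 i with h7 | h7 <;> rcases h5 i with h8 | h8 <;> rw [h7, h8] at h6 ⊢ <;>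
      exact absurd h6 (by decide)
  rw [h3]
  refine clique m (TT p) (RR p)
    (fun i => (if p i = 3 then 0 else wq (p i : ℤ)) * v i) _ ?_ ?_ ?_ ?_
  · intro i hi
    have h4 := (Finset.mem_filter.mp hi).2
    show (if p i = 3 then 0 else wq (p i : ℤ)) * v i ≠ 0
    rw [if_neg h4.1]
    have h5 := (hp3 i).resolve_right h4.1
    exact mul_ne_zero (wq_ne (by omega)) (hv i)
  · intro x hx i
    obtain ⟨f, hf, rfl⟩ := Finset.mem_image.mp hx
    exact cast_ne (hF f (Finset.mem_filter.mp hf).1).he i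
  · intro x hx y hy i hi hi'
    obtain ⟨f, hf, rfl⟩ := Finset.mem_image.mp hx
    obtain ⟨g, hg, rfl⟩ := Finset.mem_image.mp hy
    have h3i : p i = 3 := by
      by_contra h4
      by_cases h5 : p i % 9 = 8
      · exact hi' (Finset.mem_filter.mpr ⟨Finset.mem_univ _, h4, h5⟩)
      · exact hi (Finset.mem_filter.mpr ⟨Finset.mem_univ _, h4, h5⟩)
    have h6 := (hF' f (Finset.mem_filter.mp hf).1 g (Finset.mem_filter.mp hg).1).1 i h3i
    simp only
    rw [h6]
  · intro x hx y hy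
    obtain ⟨f, hf, rfl⟩ := Finset.mem_image.mp hx
    obtain ⟨g, hg, rfl⟩ := Finset.mem_image.mp hy
    have hf' := Finset.mem_filter.mp hf
    have hg' := Finset.mem_filter.mp hg
    have h6 := hF' f hf'.1 g hg'.1
    have h7 := law_WW (hF f hf'.1) (hF g hg'.1) h6.1 h6.2 hf'.2 hg'.2
    refine Eq.trans ?_ h7
    refine Finset.sum_subset (Finset.subset_univ _) (fun i _ hi => ?_)
    have h8 : (if p i = 3 then 0 else wq (p i : ℤ)) = 0 := by
      split_ifs with h9
      · rfl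
      · have h10 : p i % 9 = 8 := by
          by_contra h11
          exact hi (Finset.mem_filter.mpr ⟨Finset.mem_univ _, h9, h11⟩)
        exact (wq_zero_iff (by omega)).mpr (by omega)
    simp only
    rw [h8, zero_mul, zero_mul]

end Pool.Agent.CubeRank


end

section

/-!
# The average of `4 ^ r(A)`, all classes together
-/

set_option autoImplicit false

namespace Pool.Agent.CubeRank

open Pool.Agent.Lib_helper18 Pool.Agent.Lib_helper18.Eis Pool.Agent.Lib_helper84.Cub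

/-- the number of primes `≢ 8 (mod 9)` -/
def nT {k : ℕ} (q : Fin k → ℕ) : ℕ := (Finset.univ.filter (fun i => q i % 9 ≠ 8)).card

/-- sum over the exponent vectors, cut into the three classes -/
theorem sum_three {k : ℕ} (q : Fin k → ℕ) (f : (Fin k → ℕ) → ℕ) (B : ℕ)
    (h : ∀ c : ZMod 3, ∑ e ∈ (Ex k).filter (fun e => tg q e = c), f e ≤ B) :
    ∑ e ∈ Ex k, f e ≤ 3 * B := by
  rw [← Finset.sum_fiberwise_of_maps_to (t := Finset.univ) (g := fun e => tg q e)
    (fun _ _ => Finset.mem_univ _)]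
  refine (Finset.sum_le_sum (fun c _ => h c)).trans (le_of_eq ?_)
  rw [Finset.sum_const, smul_eq_mul]
  rfl

section

variable {k : ℕ} {q : Fin k → ℕ} (hq : ∀ i, (q i).Prime) (h3 : ∀ i, q i % 3 = 2)
  (hinj : Function.Injective q) (hex : ∃ i, q i % 9 ≠ 8)

include h3 in
theorem TT_no : (TT q).card = nT q := by
  unfold TT nT
  congr 1
  ext i
  simp only [Finset.mem_filter, Finset.mem_univ, true_and]
  have := h3 i
  omega

include h3 in
theorem RR_no : (RR q).card = k - nT q := by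
  have h1 : RR q = Finset.univ \ (Finset.univ.filter (fun i => q i % 9 ≠ 8)) := by
    unfold RR
    ext i
    simp only [Finset.mem_filter, Finset.mem_univ, true_and, Finset.mem_sdiff, not_not]
    have := h3 i
    omega
  rw [h1, Finset.card_sdiff_of_subset (Finset.subset_univ _), Finset.card_univ, Fintype.card_fin]
  rfl

theorem nT_le : nT q ≤ k := by
  unfold nT
  refine (Finset.card_le_univ _).trans ?_
  rw [Fintype.card_fin]

theorem TT_cons : (TT (Fin.cons 3 q : Fin (k + 1) → ℕ)).card = (TT q).card := by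
  unfold TT
  rw [← Finset.card_map (Fin.succEmb k)]
  congr 1
  ext i
  simp only [Finset.mem_filter, Finset.mem_univ, true_and, Finset.mem_map, Fin.coe_succEmb]
  refine Fin.cases ?_ (fun i => ?_) i
  · simp
  · simp

theorem RR_cons : (RR (Fin.cons 3 q : Fin (k + 1) → ℕ)).card = (RR q).card := by
  unfold RR
  rw [← Finset.card_map (Fin.succEmb k)]
  congr 1
  ext i
  simp only [Finset.mem_filter, Finset.mem_univ, true_and, Finset.mem_map, Fin.coe_succEmb]
  refine Fin.cases ?_ (fun i => ?_) i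
  · simp
  · simp

include hq h3 hinj hex

/-- 3 does not divide `A` -/
theorem avg_no (hk : 2 ≤ k) :
    2 ^ ((nT q + 1) / 2) * ∑ e ∈ Ex k, 4 ^ (rk q e + 1) ≤ 3 * 8 ^ k := by
  classical
  have h1 : ∑ e ∈ Ex k, 4 ^ (rk q e + 1) ≤ 3 * (2 ^ k * (2 ^ k * 2 ^ (nT q / 2 + (k - nT q)))) := by
    refine sum_three q _ _ (fun c => ?_)
    rw [← RR_no h3, ← TT_no h3]
    refine le_trans (le_of_eq ?_) (sum_class warn q (fun i => Or.inl (h3 i))
      ((Ex k).filter (fun e => tg q e = c)) (fun e he => ?_) (fun e he e' he' => ⟨fun i hi => ?_, ?_⟩))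
    · refine Finset.sum_congr rfl (fun e he => ?_)
      have he' := mem_Ex.mp (Finset.mem_filter.mp he).1
      rw [rk, Nat.sub_add_cancel (finrank_pos (by omega) (hypG_of hq h3 hinj he' hex))]
    · exact hypG_of hq h3 hinj (mem_Ex.mp (Finset.mem_filter.mp he).1) hex
    · have := h3 i; omega
    · rw [(Finset.mem_filter.mp he).2, (Finset.mem_filter.mp he').2]
  refine (Nat.mul_le_mul_left _ h1).trans (le_of_eq ?_)
  have h2 := nT_le (q := q)
  have e1 : (8 : ℕ) ^ k = 2 ^ (k + k + k) := by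
    rw [show (8 : ℕ) = 2 ^ 3 by norm_num, ← pow_mul]
    congr 1
    omega
  have e2 : k + k + k = (nT q + 1) / 2 + (k + (k + (nT q / 2 + (k - nT q)))) := by omega
  rw [e1, e2, pow_add 2 ((nT q + 1) / 2), pow_add 2 k (k + _), pow_add 2 k (nT q / 2 + _)]
  ring

/-- 3 divides `A` -/
theorem avg_cons (hk : 1 ≤ k) {j : ℕ} (hj : j = 1 ∨ j = 2) :
    2 ^ ((nT q + 1) / 2) * ∑ e ∈ Ex k, 4 ^ rk (Fin.cons 3 q : Fin (k + 1) → ℕ) (Fin.cons j e) ≤
      3 * 8 ^ k := by
  classical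
  have h1 : ∑ e ∈ Ex k, 4 ^ (rk (Fin.cons 3 q : Fin (k + 1) → ℕ) (Fin.cons j e) + 1) ≤
      3 * (2 ^ (k + 1) * (2 ^ (k + 1) * 2 ^ (nT q / 2 + (k - nT q)))) := by
    refine sum_three q _ _ (fun c => ?_)
    rw [← RR_no h3, ← TT_no h3, ← TT_cons (q := q), ← RR_cons (q := q)]
    have hcinj : Function.Injective
        (fun e : Fin k → ℕ => (Fin.cons j e : Fin (k + 1) → ℕ)) :=
      Fin.cons_right_injective (α := fun _ : Fin (k + 1) => ℕ) j
    refine le_trans (le_of_eq ?_) (sum_class warn (Fin.cons 3 q : Fin (k + 1) → ℕ) (fun i => ?_)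
      (((Ex k).filter (fun e => tg q e = c)).image
        (fun e : Fin k → ℕ => (Fin.cons j e : Fin (k + 1) → ℕ)))
      (fun e he => ?_) (fun e he e' he' => ⟨fun i hi => ?_, ?_⟩))
    · rw [Finset.sum_image (fun _ _ _ _ h => hcinj h)]
      refine Finset.sum_congr rfl (fun e he => ?_)
      have he' := mem_Ex.mp (Finset.mem_filter.mp he).1
      rw [rk, Nat.sub_add_cancel (finrank_pos (by omega) (hypG_cons hq h3 hinj he' hex hj))]
    · refine Fin.cases ?_ (fun i => ?_) i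
      · right; simp
      · left; simpa using h3 i
    · obtain ⟨f, hf, rfl⟩ := Finset.mem_image.mp he
      exact hypG_cons hq h3 hinj (mem_Ex.mp (Finset.mem_filter.mp hf).1) hex hj
    · obtain ⟨f, hf, rfl⟩ := Finset.mem_image.mp he
      obtain ⟨g, hg, rfl⟩ := Finset.mem_image.mp he'
      revert hi
      refine Fin.cases ?_ (fun i => ?_) i
      · intro _; simp
      · intro hi
        have := h3 i
        simp at hi
        omega
    · obtain ⟨f, hf, rfl⟩ := Finset.mem_image.mp he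
      obtain ⟨g, hg, rfl⟩ := Finset.mem_image.mp he'
      rw [tg_cons, tg_cons, (Finset.mem_filter.mp hf).2, (Finset.mem_filter.mp hg).2]
  have h2 := nT_le (q := q)
  have e1 : (8 : ℕ) ^ k = 2 ^ (k + k + k) := by
    rw [show (8 : ℕ) = 2 ^ 3 by norm_num, ← pow_mul]
    congr 1
    omega
  have e2 : k + k + k = (nT q + 1) / 2 + (k + (k + (nT q / 2 + (k - nT q)))) := by omega
  have h4 : 4 * (2 ^ ((nT q + 1) / 2) *
      ∑ e ∈ Ex k, 4 ^ rk (Fin.cons 3 q : Fin (k + 1) → ℕ) (Fin.cons j e)) ≤ 4 * (3 * 8 ^ k) := by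
    calc _ = 2 ^ ((nT q + 1) / 2) *
        ∑ e ∈ Ex k, 4 ^ (rk (Fin.cons 3 q : Fin (k + 1) → ℕ) (Fin.cons j e) + 1) := by
          rw [mul_left_comm, Finset.mul_sum]
          congr 1
          exact Finset.sum_congr rfl (fun e _ => by rw [pow_succ]; ring)
      _ ≤ _ := Nat.mul_le_mul_left _ h1
      _ = _ := by
          rw [e1, e2, pow_add 2 ((nT q + 1) / 2), pow_add 2 k (k + _), pow_add 2 k (nT q / 2 + _),
            pow_succ 2 k]
          ring
  exact Nat.le_of_mul_le_mul_left h4 (by norm_num)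

end

/-! ### the least number of generators -/

/-- the least number of generators -/
noncomputable def rr (A : ℤ) : ℕ := sInf {n : ℕ | GenBy A n}

theorem rr_le {A : ℤ} {n : ℕ} (h : GenBy A n) : rr A ≤ n := Nat.sInf_le h

theorem gen_rr {A : ℤ} {n : ℕ} (h : GenBy A n) : GenBy A (rr A) :=
  Nat.sInf_mem (s := {n : ℕ | GenBy A n}) ⟨n, h⟩

section

variable {k : ℕ} {q : Fin k → ℕ} (hq : ∀ i, (q i).Prime) (h3 : ∀ i, q i % 3 = 2)
  (hinj : Function.Injective q) (hex : ∃ i, q i % 9 ≠ 8)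

include hq h3 hinj hex

theorem gen_no (hk : 2 ≤ k) {e : Fin k → ℕ} (he : ∀ i, e i = 1 ∨ e i = 2) :
    GenBy (∏ i, (q i : ℤ) ^ e i) (rk q e) := gen_rk hk (hypG_of hq h3 hinj he hex)

theorem gen_cons (hk : 1 ≤ k) {j : ℕ} (hj : j = 1 ∨ j = 2) {e : Fin k → ℕ}
    (he : ∀ i, e i = 1 ∨ e i = 2) :
    GenBy (3 ^ j * ∏ i, (q i : ℤ) ^ e i)
      (rk (Fin.cons 3 q : Fin (k + 1) → ℕ) (Fin.cons j e)) := by
  rw [← AA_cons]
  exact gen_rk (by omega) (hypG_cons hq h3 hinj he hex hj)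

/-- **the average of `4 ^ r(A)`** -/
theorem average (hk : 2 ≤ k) :
    (∀ e : Fin k → ℕ, (∀ i, e i = 1 ∨ e i = 2) →
      GenBy (∏ i, (q i : ℤ) ^ e i) (rr (∏ i, (q i : ℤ) ^ e i)) ∧
      GenBy (3 * ∏ i, (q i : ℤ) ^ e i) (rr (3 * ∏ i, (q i : ℤ) ^ e i)) ∧
      GenBy (9 * ∏ i, (q i : ℤ) ^ e i) (rr (9 * ∏ i, (q i : ℤ) ^ e i))) ∧
    2 ^ ((nT q + 1) / 2) * ∑ e ∈ Ex k, 4 ^ (rr (∏ i, (q i : ℤ) ^ e i) + 1) ≤ 3 * 8 ^ k ∧
    2 ^ ((nT q + 1) / 2) * ∑ e ∈ Ex k, 4 ^ rr (3 * ∏ i, (q i : ℤ) ^ e i) ≤ 3 * 8 ^ k ∧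
    2 ^ ((nT q + 1) / 2) * ∑ e ∈ Ex k, 4 ^ rr (9 * ∏ i, (q i : ℤ) ^ e i) ≤ 3 * 8 ^ k := by
  have g0 := fun {e : Fin k → ℕ} (he : ∀ i, e i = 1 ∨ e i = 2) => gen_no hq h3 hinj hex hk he
  have g1 := fun {e : Fin k → ℕ} (he : ∀ i, e i = 1 ∨ e i = 2) =>
    gen_cons hq h3 hinj hex (by omega) (Or.inl rfl) he
  have g2 := fun {e : Fin k → ℕ} (he : ∀ i, e i = 1 ∨ e i = 2) =>
    gen_cons hq h3 hinj hex (by omega) (Or.inr rfl) he
  norm_num at g1 g2
  refine ⟨fun e he => ⟨gen_rr (g0 he), gen_rr (g1 he), gen_rr (g2 he)⟩, ?_, ?_, ?_⟩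
  · refine le_trans (Nat.mul_le_mul_left _ (Finset.sum_le_sum (fun e he => ?_)))
      (avg_no hq h3 hinj hex hk)
    exact Nat.pow_le_pow_right (by norm_num) (Nat.succ_le_succ (rr_le (g0 (mem_Ex.mp he))))
  · refine le_trans (Nat.mul_le_mul_left _ (Finset.sum_le_sum (fun e he => ?_)))
      (avg_cons hq h3 hinj hex (by omega) (Or.inl rfl))
    exact Nat.pow_le_pow_right (by norm_num) (rr_le (g1 (mem_Ex.mp he)))
  · refine le_trans (Nat.mul_le_mul_left _ (Finset.sum_le_sum (fun e he => ?_)))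
      (avg_cons hq h3 hinj hex (by omega) (Or.inr rfl))
    exact Nat.pow_le_pow_right (by norm_num) (rr_le (g2 (mem_Ex.mp he)))

end

end Pool.Agent.CubeRank


end
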