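import Mathlib
import Pool.Agent.PTDM.C14
import Pool.Agent.PTDM.C15
import Pool.Agent.PTDM.C19

/-! Parts: CubeRank.TDefs, CubeRank.TLaw, CubeRank.TMain, CubeRank.TAvg, CubeRank.TKapRep, CubeRank.TKapEx, CubeRank.TKapAdd, CubeRank.TDiff, CubeRank.TCls, CubeRank.TFinal -/

section

/-!
# Ranks of the curves `X³ + Y³ = A` for arbitrary `A` (statements of the modules)

`A = ∏ p_i ^ e_i`, the `p_i` arbitrary distinct primes, at least one of them `≡ 2, 5 (mod 9)`.
-/

set_option autoImplicit false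

namespace Pool.Agent.CubeRank

open Pool.Agent.Lib_helper18 Pool.Agent.Lib_helper18.Eis Pool.Agent.Lib_helper84.Cub

/-- standing hypotheses, all primes allowed -/
structure HypT {m : ℕ} (p e : Fin m → ℕ) : Prop where
  hp : ∀ i, (p i).Prime
  inj : Function.Injective p
  he : ∀ i, e i = 1 ∨ e i = 2
  ex : ∃ i, p i % 9 = 2 ∨ p i % 9 = 5

/-- the points which come from the 3-isogenous curve -/
def Lft (A : ℤ) (P : GA A) : Prop :=
  P = 0 ∨ ∃ (a b c : ℤ) (γ : Eis) (t1 t2 : ℤ), Crd A P a b c ∧ t1 ≠ 0 ∧ t2 ≠ 0 ∧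
    (t1 : Eis) * ((a : Eis) + w * b) = t2 * (lam * γ ^ 3)

/-- (T1) every lifted point has a class -/
def KapExStmtT : Prop := ∀ (m : ℕ) (p e : Fin m → ℕ), HypT p e → ∀ P : GA (AA p e),
  Lft (AA p e) P → ∃ v, KapG p e P v

/-- (T2) the class is additive -/
def KapAddStmtT : Prop := ∀ (m : ℕ) (p e : Fin m → ℕ), HypT p e →
  ∀ (P Q : GA (AA p e)) (v v' : Fin m → ZMod 3), KapG p e P v → KapG p e Q v' →
    KapG p e (P + Q) (v + v')

/-- (T3) points of class zero are multiples of 3, other classes are represented -/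
def KapRepStmtT : Prop := ∀ (m : ℕ) (p e : Fin m → ℕ), HypT p e →
  ∀ (P : GA (AA p e)) (v : Fin m → ZMod 3), KapG p e P v →
    ((∃ c, ∀ i, v i = c) → P ∈ threeMul (AA p e)) ∧ ((¬ ∃ c, ∀ i, v i = c) → Rep p e v)

/-- (T4) `a + ω b` is a cube times an element of bounded norm; primes `≡ 2 (mod 3)` do not occur -/
def ClsStmtT : Prop := ∀ A0 A : ℤ, A0 ≠ 0 → A ≠ 0 →
  (∀ q : ℕ, q.Prime → (q : ℤ) ∣ A → q % 3 = 2 ∨ (q : ℤ) ∣ A0) →
  ∀ a b c : ℤ, c ≠ 0 → IsCoprime a b → a ^ 3 + b ^ 3 = A * c ^ 3 →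
    ∃ μ γ : Eis, (a : Eis) + w * b = μ * γ ^ 3 ∧ N μ ≤ 81 * A0.natAbs ^ 4

/-- (T4b) two points with the same `μ` differ by a lifted point -/
def DiffStmtT : Prop := ∀ A : ℤ, A ≠ 0 → CubeFree A → (¬ ∃ n : ℤ, n ^ 3 = A) →
  ∀ (P Q : GA A) (a b c a' b' c' : ℤ) (μ γ γ' : Eis), Crd A P a b c → Crd A Q a' b' c' →
    (a : Eis) + w * b = μ * γ ^ 3 → (a' : Eis) + w * b' = μ * γ' ^ 3 → Lft A (P - Q)

/-- (T5) the law for classes without zeros -/
def LawStmtT : Prop := ∀ (m : ℕ) (p e e' : Fin m → ℕ) (S : Finset (Fin m)), HypT p e → HypT p e' →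
  (∀ i, i ∈ S ↔ e i ≠ e' i) → (∀ i ∈ S, p i % 3 = 2) → ∑ i ∈ S, sg p e i = 0 →
  ∀ v v' : Fin m → ZMod 3, Rep p e v → Rep p e' v' → (∀ i, v i ≠ 0) →
    (∀ i, v' i = if i ∈ S then - v i else v i) → ∑ i ∈ S, sg p e i * v i = 0

end Pool.Agent.CubeRank


end

section

/-!
# The reciprocity law for classes without zeros, arbitrary primes (T5)
-/

set_option autoImplicit false

namespace Pool.Agent.CubeRank

open Pool.Agent.Lib_helper18 Pool.Agent.Lib_helper18.Eis Pool.Agent.Lib_helper84.Cub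

namespace TLaw

variable {m : ℕ} {p e e' : Fin m → ℕ} {pos pos' : Fin m → Fin 3} {x y : Fin 3 → ℤ}
  {S : Finset (Fin m)}

/-- data used in all cases -/
structure BaseU (p e e' : Fin m → ℕ) (S : Finset (Fin m)) : Prop where
  hp : ∀ i, (p i).Prime
  sp3 : ∀ {i}, i ∈ S → p i % 3 = 2
  inj : Function.Injective p
  he : ∀ i, e i = 1 ∨ e i = 2
  he' : ∀ i, e' i = 1 ∨ e' i = 2
  rel : ∀ j, if j ∈ S then e j + e' j = 3 else e j = e' j

/-- nonresidues -/
theorem BaseU.nonCube (_b : BaseU p e e' S) {l : Eis} (hl : Prime l) (hl3 : ¬ l ∣ 3)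
    (hno : ∀ j, ¬ l ∣ (p j : Eis))
    (h : ∑ i ∈ S, (e i : ZMod 3) * sym l (p i : Eis) ≠ 0) : NonCube l (bS p e S) := by
  have e1 : ((bS p e S : ℤ) : Eis) = ∏ j ∈ S, (p j : Eis) ^ e j := by
    unfold bS
    push_cast
    rw [← Finset.prod_filter]
    simp
  obtain ⟨h1, h2⟩ := sym_prod hl hl3 e S hno
  apply nonCube_of_sym hl hl3
  · rw [e1]; exact h1
  · rw [e1, h2]; exact h


theorem exch_h1U (b : BaseU p e e' S) (hpos : Exch S pos pos') :
    cell p e pos 0 * cell p e' pos' 1 * rdP p S pos 1 ^ 3 =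
      cell p e' pos' 0 * cell p e pos 1 * rdP p S pos 0 ^ 3 := by
  unfold rdP
  simp only [cell, ← Finset.prod_mul_distrib, ← Finset.prod_pow]
  refine Finset.prod_congr rfl (fun j _ => ?_)
  have hj := hpos j
  have hr := b.rel j
  have hej := b.he j
  have h3 : pos j = 0 ∨ pos j = 1 ∨ pos j = 2 := by
    generalize pos j = k; revert k; decide
  split_ifs at hj hr with hS
  · have hee : (e j = 1 ∧ e' j = 2) ∨ (e j = 2 ∧ e' j = 1) := by omega
    rcases h3 with h3 | h3 | h3 <;> rcases hee with ⟨he, h9⟩ | ⟨he, h9⟩ <;> rw [h3] at hj <;>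
      simp [hj, h3, hS, he, h9, tau] <;> ring
  · rcases h3 with h3 | h3 | h3 <;> rw [h3] at hj <;> simp [hj, h3, hS, hr]

theorem tII_atU (b : BaseU p e e' S) (hP : IsPt p e pos x) (hP' : IsPt p e' pos' y)
    (hpos : Exch S pos pos') {i : Fin m} (hi : i ∈ S) :
    ¬ (p i : Eis) ∣ tII p S pos x y ∧
      sym (p i : Eis) (tII p S pos x y) = fpos (pos i) * sym (p i : Eis) w := by
  have he0 : e i ≠ 0 := by have := b.he i; omega
  have he0' : e' i ≠ 0 := by have := b.he' i; omega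
  have hp' := hpos i
  rw [if_pos hi] at hp'
  have hx := sum3 hP.sum
  have hy := sum3 hP'.sum
  have key : ((p i : ℤ) ∣ cell p e pos 2 ∧ (p i : ℤ) ∣ cell p e' pos' 2 ∧
        ¬ (p i : ℤ) ∣ rdP p S pos 1 ∧ fpos (pos i) = 2 ∨
      (p i : ℤ) ∣ cell p e pos 0 ∧ (p i : ℤ) ∣ cell p e' pos' 1 ∧
        (p i : ℤ) ∣ rdP p S pos 0 ∧ ¬ (p i : ℤ) ∣ rdP p S pos 1 ∧ fpos (pos i) = 1 ∨
      (p i : ℤ) ∣ cell p e pos 1 ∧ (p i : ℤ) ∣ cell p e' pos' 0 ∧
        (p i : ℤ) ∣ rdP p S pos 1 ∧ ¬ (p i : ℤ) ∣ rdP p S pos 0 ∧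
        fpos (pos i) = 0) := by
    have h3 : pos i = 0 ∨ pos i = 1 ∨ pos i = 2 := by
      generalize pos i = k; revert k; decide
    rcases h3 with h3 | h3 | h3
    · right; left
      rw [h3] at hp' ⊢
      exact ⟨dvd_prod_if (fun j => pos j = 0) h3 he0,
        dvd_prod_if (fun j => pos' j = 1) hp' he0',
        dvd_prod_if (fun j => j ∈ S ∧ pos j = 0) ⟨hi, h3⟩ one_ne_zero,
        not_dvd_prod_if b.hp b.inj (fun j => j ∈ S ∧ pos j = 1)
          (fun h => by have := h.2; rw [h3] at this; exact absurd this (by decide)), rfl⟩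
    · right; right
      rw [h3] at hp' ⊢
      exact ⟨dvd_prod_if (fun j => pos j = 1) h3 he0,
        dvd_prod_if (fun j => pos' j = 0) hp' he0',
        dvd_prod_if (fun j => j ∈ S ∧ pos j = 1) ⟨hi, h3⟩ one_ne_zero,
        not_dvd_prod_if b.hp b.inj (fun j => j ∈ S ∧ pos j = 0)
          (fun h => by have := h.2; rw [h3] at this; exact absurd this (by decide)), rfl⟩
    · left
      rw [h3] at hp' ⊢
      exact ⟨dvd_prod_if (fun j => pos j = 2) h3 he0,
        dvd_prod_if (fun j => pos' j = 2) hp' he0',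
        not_dvd_prod_if b.hp b.inj (fun j => j ∈ S ∧ pos j = 1)
          (fun h => by have := h.2; rw [h3] at this; exact absurd this (by decide)), rfl⟩
  exact caseII_one (b.hp i) (b.sp3 hi) hx (hP.cop 0 1 (by decide)) (hP.cop 1 2 (by decide)) hy
    (hP'.cop 0 1 (by decide)) (hP'.cop 0 2 (by decide)) (exch_h1U b hpos) key

theorem tII_locU (b : BaseU p e e' S) (hP : IsPt p e pos x) (hP' : IsPt p e' pos' y)
    (hpos : Exch S pos pos') {l : Eis} (hl : Prime l) (hl3 : ¬ l ∣ 3)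
    (hno : ∀ j, ¬ l ∣ (p j : Eis)) (hbad : NonCube l (bS p e S)) :
    3 ∣ V l (tII p S pos x y) := by
  have hx := sum3 hP.sum
  have hy := sum3 hP'.sum
  refine caseII_loc hl hl3
    (k := ∏ j, if j ∈ S ∧ (pos j = 1 ∨ pos j = 2 ∧ e j = 2) then (p j : ℤ) ^ 1 else 1)
    (m := ∏ j, if j ∈ S ∧ (pos j = 0 ∨ pos j = 2 ∧ e j = 2) then (p j : ℤ) ^ 1 else 1)
    hbad hx (hP.cop 0 1 (by decide)) hy (hP'.cop 0 1 (by decide))
    (hP'.cop 0 2 (by decide)) (hP'.cop 1 2 (by decide)) (exch_h1U b hpos) ?_ ?_ ?_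
    ⟨hP.ne 0, hP'.ne 2⟩
  · -- h2
    unfold bS
    simp only [cell, ← Finset.prod_mul_distrib, ← Finset.prod_pow]
    refine Finset.prod_congr rfl (fun j _ => ?_)
    have hj := hpos j
    have hr := b.rel j
    have hej := b.he j
    have h3 : pos j = 0 ∨ pos j = 1 ∨ pos j = 2 := by
      generalize pos j = k; revert k; decide
    split_ifs at hj hr with hS
    · have hee : (e j = 1 ∧ e' j = 2) ∨ (e j = 2 ∧ e' j = 1) := by omega
      rcases h3 with h3 | h3 | h3 <;> rcases hee with ⟨he, h9⟩ | ⟨he, h9⟩ <;> rw [h3] at hj <;>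
        simp [hj, h3, hS, he, h9, tau] <;> ring
    · rcases h3 with h3 | h3 | h3 <;> rw [h3] at hj <;> simp [hj, h3, hS, hr]
  · -- h3
    unfold bS
    simp only [cell, ← Finset.prod_mul_distrib, ← Finset.prod_pow]
    refine Finset.prod_congr rfl (fun j _ => ?_)
    have hj := hpos j
    have hr := b.rel j
    have hej := b.he j
    have h3 : pos j = 0 ∨ pos j = 1 ∨ pos j = 2 := by
      generalize pos j = k; revert k; decide
    split_ifs at hj hr with hS
    · have hee : (e j = 1 ∧ e' j = 2) ∨ (e j = 2 ∧ e' j = 1) := by omega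
      rcases h3 with h3 | h3 | h3 <;> rcases hee with ⟨he, h9⟩ | ⟨he, h9⟩ <;> rw [h3] at hj <;>
        simp [hj, h3, hS, he, h9, tau] <;> ring
    · rcases h3 with h3 | h3 | h3 <;> rw [h3] at hj <;> simp [hj, h3, hS, hr]
  · -- units
    intro hdvd
    have hS : SPr p (cell p e' pos' 0 * cell p e' pos' 1 * cell p e pos 1 * cell p e pos 2 *
      rdP p S pos 1 * rdP p S pos 0 *
      (∏ j, if j ∈ S ∧ (pos j = 1 ∨ pos j = 2 ∧ e j = 2) then (p j : ℤ) ^ 1 else 1) *
      (∏ j, if j ∈ S ∧ (pos j = 0 ∨ pos j = 2 ∧ e j = 2) then (p j : ℤ) ^ 1 else 1)) := by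
      refine SPr.mul (SPr.mul (SPr.mul (SPr.mul (SPr.mul (SPr.mul (SPr.mul ?_ ?_) ?_) ?_)
        ?_) ?_) ?_) ?_
      · exact SPr.prod p (fun j => pos' j = 0) e'
      · exact SPr.prod p (fun j => pos' j = 1) e'
      · exact SPr.prod p (fun j => pos j = 1) e
      · exact SPr.prod p (fun j => pos j = 2) e
      · exact SPr.prod p (fun j => j ∈ S ∧ pos j = 1) (fun _ => 1)
      · exact SPr.prod p (fun j => j ∈ S ∧ pos j = 0) (fun _ => 1)
      · exact SPr.prod p (fun j => j ∈ S ∧ (pos j = 1 ∨ pos j = 2 ∧ e j = 2)) (fun _ => 1)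
      · exact SPr.prod p (fun j => j ∈ S ∧ (pos j = 0 ∨ pos j = 2 ∧ e j = 2)) (fun _ => 1)
    obtain ⟨j, hj⟩ := hS l hl hdvd
    exact hno j hj


/-- the symbol of a product of prime powers -/
theorem sym_prod_if {l : Eis} (hl : Prime l) (hl3 : ¬ l ∣ 3) (f : Fin m → ℤ)
    (s : Finset (Fin m)) (hf : ∀ j ∈ s, ¬ l ∣ (f j : Eis)) :
    ¬ l ∣ ((∏ j ∈ s, f j : ℤ) : Eis) ∧
      sym l ((∏ j ∈ s, f j : ℤ) : Eis) = ∑ j ∈ s, sym l (f j : Eis) := by
  classical
  induction s using Finset.induction_on with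
  | empty =>
    simp only [Finset.prod_empty, Finset.sum_empty, Int.cast_one]
    exact ⟨not_dvd_of_isUnit hl isUnit_one, sym_one hl hl3⟩
  | insert a s ha ih =>
    have ih' := ih (fun j hj => hf j (Finset.mem_insert_of_mem hj))
    have h1 := hf a (Finset.mem_insert_self _ _)
    rw [Finset.prod_insert ha, Finset.sum_insert ha, Int.cast_mul]
    exact ⟨fun h => (hl.dvd_or_dvd h).elim h1 ih'.1, by rw [sym_mul hl hl3 h1 ih'.1, ih'.2]⟩

theorem sym_cell {l : Eis} (hl : Prime l) (hl3 : ¬ l ∣ 3) (he : ∀ i, e i = 1 ∨ e i = 2)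
    {k : Fin 3} (h : ¬ l ∣ (cell p e pos k : Eis)) :
    sym l (cell p e pos k : Eis) =
      ∑ j, if pos j = k then (e j : ZMod 3) * sym l (p j : Eis) else 0 := by
  have h1 : ∀ j ∈ Finset.univ,
      ¬ l ∣ (((if pos j = k then (p j : ℤ) ^ e j else 1 : ℤ)) : Eis) := by
    intro j hj hd
    apply h
    unfold cell
    rw [← Finset.mul_prod_erase Finset.univ _ hj, Int.cast_mul]
    exact Dvd.dvd.mul_right hd _
  have h2 := (sym_prod_if hl hl3 (fun j => if pos j = k then (p j : ℤ) ^ e j else 1)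
    Finset.univ h1).2
  unfold cell
  rw [h2]
  refine Finset.sum_congr rfl (fun j hj => ?_)
  have h3 := h1 j hj
  split_ifs at h3 ⊢ with h4
  · push_cast at h3 ⊢
    have h5 : ¬ l ∣ (p j : Eis) := fun h6 => h3 (Dvd.dvd.pow h6 (by
      have := he j; omega))
    exact sym_pow hl hl3 h5 _
  · push_cast
    exact sym_one hl hl3

/-- a cell which is a cube residue -/
theorem sym_cell_zero {l : Eis} (hl : Prime l) (hl3 : ¬ l ∣ 3) (hP : IsPt p e pos x)
    {i j k : Fin 3} (hij : i ≠ j) (hik : i ≠ k) (hjk : j ≠ k)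
    (hi : l ∣ (cell p e pos i : Eis)) (hk : cell p e pos k = 1) :
    ¬ l ∣ (cell p e pos j : Eis) ∧ sym l (cell p e pos j : Eis) = 0 := by
  have hcop : ∀ n, i ≠ n → ¬ l ∣ ((cell p e pos n * x n : ℤ) : Eis) := by
    intro n hn hd
    obtain ⟨u, v, huv⟩ := hP.cop i n hn
    apply hl.not_isUnit
    apply isUnit_of_dvd_one
    have e1 : (1 : Eis) = (u : Eis) * ((cell p e pos i : Eis) * (x i : Eis)) +
        (v : Eis) * ((cell p e pos n * x n : ℤ) : Eis) := by
      have := congrArg (Int.cast : ℤ → Eis) huv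
      push_cast at this ⊢
      exact this.symm
    rw [e1]
    exact dvd_add (Dvd.dvd.mul_left (Dvd.dvd.mul_right hi _) _) (Dvd.dvd.mul_left hd _)
  have hj := hcop j hij
  have hk' := hcop k hik
  rw [Int.cast_mul] at hj hk'
  have hjc : ¬ l ∣ (cell p e pos j : Eis) := fun h => hj (Dvd.dvd.mul_right h _)
  have hjx : ¬ l ∣ (x j : Eis) := fun h => hj (Dvd.dvd.mul_left h _)
  have hkx : ¬ l ∣ (x k : Eis) := fun h => hk' (Dvd.dvd.mul_left h _)
  refine ⟨hjc, ?_⟩
  have hsum : cell p e pos i * x i ^ 3 + cell p e pos j * x j ^ 3 + cell p e pos k * x k ^ 3 = 0 := by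
    rw [← hP.sum]
    have key : ∀ i j k : Fin 3, i ≠ j → i ≠ k → j ≠ k → ∀ f : Fin 3 → ℤ,
        f i + f j + f k = ∑ n, f n := by
      intro i j k h1 h2 h3 f
      rw [Fin.sum_univ_three]
      have key2 : ∀ i j k : Fin 3, i ≠ j → i ≠ k → j ≠ k → (i = 0 ∧ j = 1 ∧ k = 2) ∨
        (i = 0 ∧ j = 2 ∧ k = 1) ∨ (i = 1 ∧ j = 0 ∧ k = 2) ∨ (i = 1 ∧ j = 2 ∧ k = 0) ∨
        (i = 2 ∧ j = 0 ∧ k = 1) ∨ (i = 2 ∧ j = 1 ∧ k = 0) := by decide
      rcases key2 i j k h1 h2 h3 with ⟨rfl, rfl, rfl⟩ | ⟨rfl, rfl, rfl⟩ | ⟨rfl, rfl, rfl⟩ |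
        ⟨rfl, rfl, rfl⟩ | ⟨rfl, rfl, rfl⟩ | ⟨rfl, rfl, rfl⟩ <;> ring
    exact key i j k hij hik hjk (fun n => cell p e pos n * x n ^ 3)
  rw [hk, one_mul] at hsum
  have h5 : l ∣ (cell p e pos j : Eis) * (x j : Eis) ^ 3 - (-(x k : Eis)) ^ 3 := by
    have e2 : (cell p e pos j : Eis) * (x j : Eis) ^ 3 - (-(x k : Eis)) ^ 3 =
        -((cell p e pos i : Eis) * (x i : Eis) ^ 3) := by
      have := congrArg (Int.cast : ℤ → Eis) hsum
      push_cast at this
      linear_combination this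
    rw [e2, dvd_neg]
    exact Dvd.dvd.mul_right hi _
  have h6 := sym_congr h5
  have hkx' : ¬ l ∣ -(x k : Eis) := by rwa [dvd_neg]
  have hjx3 : ¬ l ∣ (x j : Eis) ^ 3 := fun h => hjx (hl.dvd_of_dvd_pow h)
  rw [sym_cube hl hl3 hkx', sym_mul hl hl3 hjc hjx3, sym_cube hl hl3 hjx, add_zero] at h6
  exact h6

/-- primes dividing an unexchanged `p j` are harmless -/
theorem BaseU.good (b : BaseU p e e' S) (hP : IsPt p e pos x) (hP' : IsPt p e' pos' y)
    (hpos : Exch S pos pos') (h2 : ∀ j, pos j ≠ 2) {l : Eis} (hl : Prime l) (hl3 : ¬ l ∣ 3)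
    {j : Fin m} (hj : l ∣ (p j : Eis)) (hjS : j ∉ S) :
    ∑ i ∈ S, (e i : ZMod 3) * sym l (p i : Eis) = 0 := by
  classical
  have c2 : cell p e pos 2 = 1 := by
    unfold cell
    exact Finset.prod_eq_one (fun i _ => if_neg (h2 i))
  have h2' : ∀ j, pos' j ≠ 2 := by
    intro i
    have h3 := hpos i
    have h4 := h2 i
    split_ifs at h3
    · rw [h3]
      revert h4
      generalize pos i = k
      revert k
      decide
    · rw [h3]; exact h4
  have c2' : cell p e' pos' 2 = 1 := by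
    unfold cell
    exact Finset.prod_eq_one (fun i _ => if_neg (h2' i))
  have hj' : pos' j = pos j := by
    have := hpos j
    rwa [if_neg hjS] at this
  have hdv : ∀ (n : Fin m → ℕ) (ps : Fin m → Fin 3), (∀ i, n i = 1 ∨ n i = 2) →
      l ∣ (cell p n ps (ps j) : Eis) := by
    intro n ps hn
    unfold cell
    rw [← Finset.mul_prod_erase Finset.univ _ (Finset.mem_univ j), if_pos rfl, Int.cast_mul]
    refine Dvd.dvd.mul_right ?_ _
    push_cast
    exact Dvd.dvd.pow hj (by have := hn j; omega)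
  have d1 := hdv e pos b.he
  have d2 := hdv e' pos' b.he'
  -- the two cases
  have main : ∀ k : Fin 3, k ≠ 2 → k ≠ pos j →
      ∑ i ∈ S, (e i : ZMod 3) * sym l (p i : Eis) = 0 := by
    intro k hk2 hkj
    have hj2 := h2 j
    obtain ⟨a1, a2⟩ := sym_cell_zero hl hl3 hP (i := pos j) (j := k) (k := 2) (Ne.symm hkj) hj2
      hk2 d1 c2
    obtain ⟨a3, a4⟩ := sym_cell_zero hl hl3 hP' (i := pos' j) (j := k) (k := 2)
      (by rw [hj']; exact Ne.symm hkj) (h2' j) hk2 d2 c2'
    rw [sym_cell hl hl3 b.he a1] at a2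
    rw [sym_cell hl hl3 b.he' a3] at a4
    have e1 : ∀ s : ZMod 3, s ≠ 0 → s * s = 1 := by decide
    -- signs
    set sg' : ZMod 3 := if k = 1 then 1 else -1 with hsg
    have hk01 : k = 0 ∨ k = 1 := by
      revert hk2; clear hkj a1 a2 a3 a4 hsg; revert k; decide
    have e2 : ∑ i ∈ S, (e i : ZMod 3) * sym l (p i : Eis) =
        (∑ i, if pos i = k then (e i : ZMod 3) * sym l (p i : Eis) else 0) -
        ∑ i, if pos' i = k then (e' i : ZMod 3) * sym l (p i : Eis) else 0 := by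
      rw [← Finset.sum_sub_distrib]
      rw [← Finset.sum_filter_add_sum_filter_not Finset.univ (fun i => i ∈ S)
        (fun i => (if pos i = k then (e i : ZMod 3) * sym l (p i : Eis) else 0) -
          if pos' i = k then (e' i : ZMod 3) * sym l (p i : Eis) else 0)]
      have z : ∑ i ∈ Finset.univ.filter (fun i => i ∉ S),
          ((if pos i = k then (e i : ZMod 3) * sym l (p i : Eis) else 0) -
          if pos' i = k then (e' i : ZMod 3) * sym l (p i : Eis) else 0) = 0 := by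
        refine Finset.sum_eq_zero (fun i hi => ?_)
        have hi' := (Finset.mem_filter.mp hi).2
        have h5 := hpos i
        have h6 := b.rel i
        rw [if_neg hi'] at h5 h6
        rw [h5, h6, sub_self]
      rw [z, add_zero]
      have hfil : Finset.univ.filter (fun i => i ∈ S) = S := by ext; simp
      rw [hfil]
      refine Finset.sum_congr rfl (fun i hi => ?_)
      have h5 := hpos i
      have h6 := b.rel i
      rw [if_pos hi] at h5 h6
      have h7 : (e i : ZMod 3) + (e' i : ZMod 3) = 0 := by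
        have := congrArg (Nat.cast : ℕ → ZMod 3) h6
        push_cast at this
        rw [this]; rfl
      have h8 := h2 i
      have h9 : pos i = 0 ∨ pos i = 1 := by
        revert h8; generalize pos i = n; revert n; decide
      rcases h9 with h9 | h9 <;> rw [h9] at h5 ⊢ <;> rcases hk01 with hk | hk <;> rw [hk, h5] <;>
        simp [tau] <;> linear_combination (sym l (p i : Eis)) * h7
    rw [e2, a2, a4, sub_self]
  have hj2 := h2 j
  have h9 : pos j = 0 ∨ pos j = 1 := by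
    revert hj2; generalize pos j = n; revert n; decide
  rcases h9 with h9 | h9
  · exact main 1 (by decide) (by rw [h9]; decide)
  · exact main 0 (by decide) (by rw [h9]; decide)

/-- the law -/
theorem BaseU.law (b : BaseU p e e' S) (hS : S.Nonempty) (hP : IsPt p e pos x)
    (hP' : IsPt p e' pos' y) (hpos : Exch S pos pos') (h2 : ∀ j, pos j ≠ 2)
    (hs : ∑ i ∈ S, (e i : ZMod 3) * sym (p i : Eis) w = 0) :
    ∑ i ∈ S, (e i : ZMod 3) * (fpos (pos i) * sym (p i : Eis) w) = 0 := by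
  have ht : tII p S pos x y ≠ 0 := by
    obtain ⟨i, hi⟩ := hS
    intro h
    have := (tII_atU b hP hP' hpos hi).1
    rw [h] at this
    exact this (dvd_zero _)
  obtain ⟨c, hc⟩ := exists_cls ht
  have h0 := fun i (hi : i ∈ S) => tII_atU b hP hP' hpos hi
  have h1 := lemmaSG S (fun i _ => b.hp i) (fun i hi => b.sp3 hi) (fun i => (e i : ZMod 3)) ht
    (fun i hi => (h0 i hi).1) hc (by
    intro l hl hl3 hlt
    have hlq : ∀ i ∈ S, ¬ l ∣ (p i : Eis) := fun i hi h => (h0 i hi).1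
      ((hl.associated_of_dvd (prime_inert (b.hp i) (b.sp3 hi)) h).symm.dvd.trans hlt)
    by_cases hno : ∃ j, l ∣ (p j : Eis)
    · left
      obtain ⟨j, hj⟩ := hno
      exact b.good hP hP' hpos h2 hl hl3 hj (fun hjS => hlq j hjS hj)
    push Not at hno
    by_cases hgood : ∑ i ∈ S, (e i : ZMod 3) * sym l (p i : Eis) = 0
    · exact Or.inl hgood
    · exact Or.inr (tII_locU b hP hP' hpos hl hl3 hno (b.nonCube hl hl3 hno hgood)))
  rw [hs, mul_zero] at h1
  rw [← h1]
  exact Finset.sum_congr rfl (fun i hi => by rw [(h0 i hi).2])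

end TLaw

open _root_.Pool.Agent.CubeRank.TLaw in
theorem lawT : LawStmtT := by
  intro m p e e' S h h' hS hS3 hs v v' hv hv' hv0 hvv
  classical
  by_cases hne : S.Nonempty
  swap
  · rw [Finset.not_nonempty_iff_eq_empty.mp hne]; simp
  have b : BaseU p e e' S :=
    { hp := h.hp, sp3 := fun hi => hS3 _ hi, inj := h.inj, he := h.he, he' := h'.he
      rel := fun j => by
        have h1 := h.he j
        have h2 := h'.he j
        have h3 := hS j
        split_ifs with h4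
        · have := h3.mp h4; omega
        · by_contra h5
          exact h4 (h3.mpr h5) }
  obtain ⟨x, hx⟩ := rep_shift hv 2
  obtain ⟨y, hy⟩ := rep_shift hv' 2
  have hsg : ∀ i ∈ S, sg p e i = -((e i : ZMod 3) * sym (p i : Eis) w) := by
    intro i hi
    have h3 := hS3 i hi
    unfold sg
    rw [if_neg (by omega)]
    have := FData.sym_w_r (h.hp i) h3
    rw [this]; ring
  have hs' : ∑ i ∈ S, (e i : ZMod 3) * sym (p i : Eis) w = 0 := by
    have h5 := hs
    rw [Finset.sum_congr rfl hsg, Finset.sum_neg_distrib, neg_eq_zero] at h5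
    exact h5
  have hpos : Exch S (fun i => zf (v i + 2)) (fun i => zf (v' i + 2)) := by
    intro i
    have h5 := hvv i
    have key : ∀ z : ZMod 3, zf (-z + 2) = tau (zf (z + 2)) := by decide
    split_ifs at h5 ⊢ with hi
    · simp only [h5]; exact key _
    · simp only [h5]
  have h2 : ∀ j, zf (v j + 2) ≠ 2 := by
    intro j
    have h5 := hv0 j
    have key : ∀ z : ZMod 3, z ≠ 0 → zf (z + 2) ≠ 2 := by decide
    exact key _ h5
  have h6 := b.law hne hx hy hpos h2 hs'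
  have key : ∀ z : ZMod 3, fpos (zf (z + 2)) = 2 - z := by decide
  rw [Finset.sum_congr rfl (fun i hi => by rw [key (v i)])] at h6
  have h7 : ∑ i ∈ S, sg p e i * v i = ∑ i ∈ S, (e i : ZMod 3) * ((2 - v i) * sym (p i : Eis) w) -
      2 * ∑ i ∈ S, (e i : ZMod 3) * sym (p i : Eis) w := by
    rw [Finset.mul_sum, ← Finset.sum_sub_distrib]
    refine Finset.sum_congr rfl (fun i hi => ?_)
    rw [hsg i hi]; ring
  rw [h7, h6, hs', mul_zero, sub_zero]

end Pool.Agent.CubeRank


end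

section

/-!
# The group of classes and the number of generators, arbitrary primes
-/

set_option autoImplicit false

namespace Pool.Agent.CubeRank

open Pool.Agent.Lib_helper18 Pool.Agent.Lib_helper18.Eis Pool.Agent.Lib_helper84.Cub

namespace TMain

variable {m : ℕ} {p e e' : Fin m → ℕ}

section group

variable (hAdd : KapAddStmtT)
include hAdd

theorem UG_add (h : HypT p e) {v v' : Fin m → ZMod 3} (hv : UG p e v)
    (hv' : UG p e v') : UG p e (v + v') := by
  obtain ⟨P, hP⟩ := hv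
  obtain ⟨Q, hQ⟩ := hv'
  exact ⟨P + Q, hAdd m p e h P Q v v' hP hQ⟩

theorem UG_smul (h : HypT p e) {v : Fin m → ZMod 3} (hv : UG p e v) (c : ZMod 3) :
    UG p e (fun i => c * v i) := by
  have h0 : c = 0 ∨ c = 1 ∨ c = 2 := by revert c; decide
  rcases h0 with rfl | rfl | rfl
  · have := UG_const p e 0
    convert this using 2
    simp
  · simpa using hv
  · have := UG_add hAdd h hv hv
    convert this using 1
    funext i
    simp only [Pi.add_apply]
    ring

theorem mem_WW (h : HypT p e) {v : Fin m → ZMod 3} :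
    v ∈ WW p e ↔ UG p e (fun i => (e i : ZMod 3) * v i) := by
  refine ⟨fun hv => ?_, fun hv => Submodule.subset_span hv⟩
  unfold WW at hv
  induction hv using Submodule.span_induction with
  | mem x hx => exact hx
  | zero =>
    have := UG_const p e 0
    convert this using 2
    simp
  | add x y _ _ hx hy =>
    have := UG_add hAdd h hx hy
    convert this using 1
    funext i
    simp only [Pi.add_apply]
    ring
  | smul a x _ hx =>
    have := UG_smul hAdd h hx a
    convert this using 1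
    funext i
    simp only [Pi.smul_apply, smul_eq_mul]
    ring

theorem self_mem (h : HypT p e) : (fun i => (e i : ZMod 3)) ∈ WW p e := by
  rw [mem_WW hAdd h]
  have := UG_const p e 1
  convert this using 2
  exact sq_one h.he _

theorem card_WW (h : HypT p e) :
    Nat.card {v // UG p e v} = 3 ^ Module.finrank (ZMod 3) (WW p e) := by
  have h1 : Nat.card (WW p e) = 3 ^ Module.finrank (ZMod 3) (WW p e) := by
    rw [Module.natCard_eq_pow_finrank (K := ZMod 3)]
    simp
  rw [← h1]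
  refine Nat.card_congr ?_
  exact
    { toFun := fun v => ⟨fun i => (e i : ZMod 3) * v.1 i, by
        rw [mem_WW hAdd h]
        have := v.2
        convert this using 1
        funext i
        rw [← mul_assoc, sq_one h.he, one_mul]⟩
      invFun := fun v => ⟨fun i => (e i : ZMod 3) * v.1 i, (mem_WW hAdd h).mp v.2⟩
      left_inv := fun v => by
        ext i
        simp only
        rw [← mul_assoc, sq_one h.he, one_mul]
      right_inv := fun v => by
        ext i
        simp only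
        rw [← mul_assoc, sq_one h.he, one_mul] }

end group

/-! ### elements of bounded norm -/

/-- elements of bounded norm -/
def Bd (B : ℕ) : Type := {μ : Eis // N μ ≤ B}

theorem bd_finite (B : ℕ) : Finite (Bd B) := by
  have hb : ∀ μ : Bd B, μ.1.re ∈ Set.Icc (-(4 * B : ℤ)) (4 * B) ∧
      μ.1.im ∈ Set.Icc (-(4 * B : ℤ)) (4 * B) := by
    rintro ⟨μ, hμ⟩
    have h1 : (N μ : ℤ) = μ.norm := N_cast μ
    have h2 : μ.norm ≤ B := by rw [← h1]; exact_mod_cast hμ
    have h3 : μ.norm = μ.re ^ 2 - μ.re * μ.im + μ.im ^ 2 := norm_def μ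
    rw [h3] at h2
    simp only [Set.mem_Icc]
    have key : ∀ a b : ℤ, a ^ 2 - a * b + b ^ 2 ≤ B → -(4 * B : ℤ) ≤ a ∧ a ≤ 4 * B := by
      intro a b hab
      have h4 : 3 * a ^ 2 ≤ 4 * B := by nlinarith [sq_nonneg (2 * b - a)]
      constructor
      · nlinarith [sq_nonneg (a + 1)]
      · nlinarith [sq_nonneg (a - 1)]
    refine ⟨key _ _ h2, key μ.im μ.re (by linarith)⟩
  let F : Bd B → (Set.Icc (-(4 * B : ℤ)) (4 * B)) × (Set.Icc (-(4 * B : ℤ)) (4 * B)) :=
    fun μ => (⟨μ.1.re, (hb μ).1⟩, ⟨μ.1.im, (hb μ).2⟩)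
  refine Finite.of_injective F ?_
  rintro ⟨μ, hμ⟩ ⟨ν, hν⟩ h
  have h1 := congrArg (fun x => (x.1 : ℤ)) h
  have h2 := congrArg (fun x => (x.2 : ℤ)) h
  apply Subtype.ext
  exact Eis.ext h1 h2

/-- the number of elements of bounded norm -/
noncomputable def nB (B : ℕ) : ℕ := Nat.card (Bd B)

/-! ### the number of generators -/

theorem AA_ne (h : HypT p e) : AA p e ≠ 0 := by
  unfold AA
  refine Finset.prod_ne_zero_iff.2 fun i _ => pow_ne_zero _ ?_
  exact_mod_cast (h.hp i).ne_zero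

theorem dvd_AA (h : HypT p e) (i : Fin m) : (p i : ℤ) ∣ AA p e := by
  unfold AA
  refine (dvd_pow_self (p i : ℤ) ?_).trans (Finset.dvd_prod_of_mem _ (Finset.mem_univ i))
  rcases h.he i with h | h <;> omega

theorem cubeFree (h : HypT p e) : CubeFree (AA p e) := by
  intro q hq hd
  unfold AA at hd
  have h1 : q ∣ ∏ i, (p i : ℤ) ^ e i := (dvd_pow_self q (by norm_num)).trans hd
  obtain ⟨i, -, hi⟩ := (Prime.dvd_finsetProd_iff hq _).1 h1
  have hZ := Nat.prime_iff_prime_int.mp (h.hp i)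
  have hass : Associated q (p i : ℤ) := hq.associated_of_dvd hZ (hq.dvd_of_dvd_pow hi)
  have hd' : (p i : ℤ) ^ 3 ∣ ∏ i, (p i : ℤ) ^ e i := (hass.pow_pow (n := 3)).symm.dvd.trans hd
  rw [← Finset.mul_prod_erase Finset.univ _ (Finset.mem_univ i)] at hd'
  have h0 : (p i : ℤ) ^ e i ≠ 0 := pow_ne_zero _ hZ.ne_zero
  have h2 : (p i : ℤ) ^ (e i + 1) ∣ (p i : ℤ) ^ 3 := pow_dvd_pow _ (by
    rcases h.he i with h | h <;> omega)
  have h3 := h2.trans hd'
  rw [pow_succ] at h3
  have h4 := (mul_dvd_mul_iff_left h0).1 h3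
  obtain ⟨j, hj, h5⟩ := (Prime.dvd_finsetProd_iff hZ _).1 h4
  have h6 := hZ.dvd_of_dvd_pow h5
  have h7 : p i ∣ p j := by exact_mod_cast h6
  have h8 := (Nat.prime_dvd_prime_iff_eq (h.hp i) (h.hp j)).1 h7
  exact (Finset.ne_of_mem_erase hj) (h.inj h8).symm

theorem not_cube (h : HypT p e) : ¬ ∃ n : ℤ, n ^ 3 = AA p e := by
  rintro ⟨n, hn⟩
  obtain ⟨i, _⟩ := h.ex
  have hZ := Nat.prime_iff_prime_int.mp (h.hp i)
  have h1 : (p i : ℤ) ∣ n ^ 3 := by rw [hn]; exact dvd_AA h _
  have h2 := hZ.dvd_of_dvd_pow h1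
  exact cubeFree h _ hZ (by rw [← hn]; exact pow_dvd_pow_of_dvd h2 3)

theorem AA_big (hm : 2 ≤ m) (h : HypT p e) : 3 ≤ (AA p e).natAbs := by
  have h1 : (4 : ℤ) ≤ AA p e := by
    have h2 : ∀ i, (2 : ℤ) ≤ (p i : ℤ) ^ e i := by
      intro i
      have h3 : (2 : ℤ) ≤ p i := by exact_mod_cast (h.hp i).two_le
      have h4 := h.he i
      rcases h4 with h4 | h4 <;> rw [h4] <;> nlinarith
    have h5 : (∏ _i : Fin m, (2 : ℤ)) ≤ ∏ i, (p i : ℤ) ^ e i :=
      Finset.prod_le_prod (fun _ _ => by norm_num) (fun i _ => h2 i)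
    rw [Finset.prod_const, Finset.card_univ, Fintype.card_fin] at h5
    calc (4 : ℤ) = 2 ^ 2 := by norm_num
      _ ≤ 2 ^ m := pow_le_pow_right₀ (by norm_num) hm
      _ ≤ _ := h5
  omega

section gens

variable (hEx : KapExStmtT) (hAdd : KapAddStmtT) (hRep : KapRepStmtT) (hCls : ClsStmtT)
  (hDiff : DiffStmtT)

include hAdd hRep in
theorem kap_diff (h : HypT p e) {P Q : GA (AA p e)} {v v' : Fin m → ZMod 3}
    (hP : KapG p e P v) (hQ : KapG p e Q v') (hc : ∃ c, ∀ i, v i = v' i + c) :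
    P - Q ∈ threeMul (AA p e) := by
  -- the class of `-Q` is obtained from `2 Q = 3 Q - Q`
  have h2 := hAdd m p e h Q Q v' v' hQ hQ
  have h3 := hAdd m p e h P (Q + Q) v (v' + v') hP h2
  obtain ⟨c, hc⟩ := hc
  have h4 := (hRep m p e h _ _ h3).1 ⟨c, fun i => by
    simp only [Pi.add_apply]
    rw [hc i]
    linear_combination (v' i) * three_zmod⟩
  have h5 : (3 : ℕ) • Q ∈ threeMul (AA p e) := ⟨Q, rfl⟩
  have h6 := (threeMul (AA p e)).sub_mem h4 h5
  have e1 : P + (Q + Q) - (3 : ℕ) • Q = P - Q := by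
    rw [succ_nsmul, succ_nsmul, one_nsmul]
    abel
  rwa [e1] at h6

include hEx hAdd hRep hCls hDiff in
open Classical in
theorem gen_card (hm : 2 ≤ m) (h : HypT p e) {A0 : ℤ} (hA0 : A0 ≠ 0)
    (hp : ∀ i, p i % 3 = 2 ∨ (p i : ℤ) ∣ A0) :
    GenBy (AA p e) (nB (81 * A0.natAbs ^ 4) + (Module.finrank (ZMod 3) (WW p e) - 1)) := by
  have i0 : Fin m := ⟨0, by omega⟩
  set A := AA p e with hA
  have hAne := AA_ne h
  have hcf := cubeFree h
  have hnc := not_cube h
  set B := 81 * A0.natAbs ^ 4 with hB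
  have hfinB := bd_finite B
  -- the code of a point
  have hcode : ∀ P : GA A, ∃ o : Option (Bd B),
      (P = 0 ∧ o = none) ∨ ∃ (a b c : ℤ) (γ : Eis) (μ : Bd B), o = some μ ∧ Crd A P a b c ∧
        (a : Eis) + w * b = μ.1 * γ ^ 3 := by
    intro P
    by_cases hP : P = 0
    · exact ⟨none, Or.inl ⟨hP, rfl⟩⟩
    · obtain ⟨a, b, c, hC⟩ := (basics A hAne).1 hcf P hP
      obtain ⟨μ, γ, h1, h2⟩ := hCls A0 A hA0 hAne (fun q hq hqd => by
        have hZ := Nat.prime_iff_prime_int.mp hq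
        rw [hA, AA] at hqd
        obtain ⟨i, -, hi⟩ := (Prime.dvd_finsetProd_iff hZ _).1 hqd
        have h7 : q ∣ p i := by exact_mod_cast hZ.dvd_of_dvd_pow hi
        have h8 := (Nat.prime_dvd_prime_iff_eq hq (h.hp i)).1 h7
        rw [h8]
        exact hp i) a b c hC.1 hC.2.1 hC.2.2.1
      exact ⟨some ⟨μ, h2⟩, Or.inr ⟨a, b, c, γ, ⟨μ, h2⟩, rfl, hC, h1⟩⟩
  choose code hcode using hcode
  have hdiff : ∀ P Q : GA A, code P = code Q → Lft A (P - Q) := by
    intro P Q hPQ
    rcases hcode P with ⟨hP, h1⟩ | ⟨a, b, c, γ, μ, h1, hC, h2⟩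
    · rcases hcode Q with ⟨hQ, h3⟩ | ⟨a', b', c', γ', μ', h3, hC', h4⟩
      · rw [hP, hQ, sub_zero]; exact Or.inl rfl
      · rw [h1, h3] at hPQ; exact absurd hPQ (by simp)
    · rcases hcode Q with ⟨hQ, h3⟩ | ⟨a', b', c', γ', μ', h3, hC', h4⟩
      · rw [h1, h3] at hPQ; exact absurd hPQ (by simp)
      · rw [h1, h3] at hPQ
        have hμ : μ = μ' := Option.some_injective _ hPQ
        rw [← hμ] at h4
        exact hDiff A hAne hcf hnc P Q a b c a' b' c' μ.1 γ γ' hC hC' h2 h4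
  -- base points
  set T := threeMul A with hT
  let rep : GA A ⧸ T → GA A := Quotient.out
  have hbase : ∀ o : Option (Bd B), ∃ R : GA A, ∀ g : GA A ⧸ T, code (rep g) = o →
      Lft A (rep g - R) := by
    intro o
    by_cases ho : ∃ g0 : GA A ⧸ T, code (rep g0) = o
    · obtain ⟨g0, hg0⟩ := ho
      exact ⟨rep g0, fun g hg => hdiff _ _ (hg.trans hg0.symm)⟩
    · exact ⟨0, fun g hg => absurd ⟨g, hg⟩ ho⟩
  choose base hbase using hbase
  have hvex : ∀ g : GA A ⧸ T, ∃ v, KapG p e (rep g - base (code (rep g))) v := fun g =>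
    hEx m p e h _ (hbase _ g rfl)
  choose vv hvv using hvex
  let F : (GA A ⧸ T) × ZMod 3 → Option (Bd B) × {v // UG p e v} := fun x =>
    (code (rep x.1), ⟨vv x.1 + fun _ => x.2,
      UG_add hAdd h ⟨_, hvv x.1⟩ (UG_const p e x.2)⟩)
  have hF : Function.Injective F := by
    rintro ⟨g, c⟩ ⟨g', c'⟩ hgg
    have h0 : code (rep g) = code (rep g') := congrArg Prod.fst hgg
    have h1 : ∀ i, vv g i + c = vv g' i + c' := by
      intro i
      exact congrFun (congrArg Subtype.val (congrArg Prod.snd hgg)) i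
    have k2 := hvv g'
    rw [← h0] at k2
    have h2 := kap_diff hAdd hRep h (hvv g) k2
      ⟨c' - c, fun i => by linear_combination h1 i⟩
    have h3 : g = g' := by
      have e0 : rep g - base (code (rep g)) - (rep g' - base (code (rep g))) =
          -rep g' + rep g := by abel
      rw [e0] at h2
      have e1 : (QuotientAddGroup.mk (rep g') : GA A ⧸ T) = QuotientAddGroup.mk (rep g) := by
        rw [QuotientAddGroup.eq]
        exact h2
      have e2 : (QuotientAddGroup.mk (rep g) : GA A ⧸ T) = g := Quotient.out_eq g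
      have e3 : (QuotientAddGroup.mk (rep g') : GA A ⧸ T) = g' := Quotient.out_eq g'
      rw [← e2, ← e3, e1]
    subst h3
    have h4 := h1 i0
    exact Prod.ext rfl (add_left_cancel h4)
  have hfin : Finite ((GA A ⧸ T) × ZMod 3) := Finite.of_injective F hF
  have hfinq : Finite (GA A ⧸ T) :=
    Finite.of_injective (fun g => ((g, 0) : (GA A ⧸ T) × ZMod 3))
      (fun a b hab => congrArg Prod.fst hab)
  have hcard := Nat.card_le_card_of_injective F hF
  rw [Nat.card_prod, Nat.card_zmod, Nat.card_prod, card_WW hAdd h, Finite.card_option] at hcard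
  have hd1 : 1 ≤ Module.finrank (ZMod 3) (WW p e) := by
    rw [Nat.one_le_iff_ne_zero]
    intro h0
    rw [Submodule.finrank_eq_zero] at h0
    have h1 := self_mem hAdd h
    rw [h0, Submodule.mem_bot] at h1
    exact cast_ne h.he i0 (congrFun h1 i0)
  obtain ⟨d, hd⟩ : ∃ d, Module.finrank (ZMod 3) (WW p e) = d + 1 :=
    ⟨Module.finrank (ZMod 3) (WW p e) - 1, by omega⟩
  rw [hd] at hcard ⊢
  rw [Nat.add_sub_cancel]
  have hpow : Nat.card (Bd B) + 1 ≤ 3 ^ Nat.card (Bd B) := by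
    have := Nat.lt_pow_self (n := Nat.card (Bd B)) (a := 3) (by norm_num)
    omega
  have hidx : T.index ≤ 3 ^ (nB B + d) := by
    have h5 : T.index * 3 ≤ 3 ^ (nB B + d) * 3 := by
      calc T.index * 3 ≤ (Nat.card (Bd B) + 1) * 3 ^ (d + 1) := hcard
        _ ≤ 3 ^ Nat.card (Bd B) * 3 ^ (d + 1) := Nat.mul_le_mul_right _ hpow
        _ = 3 ^ (nB B + d) * 3 := by rw [nB, pow_add, pow_succ]; ring
    exact Nat.le_of_mul_le_mul_right h5 (by norm_num)
  have hfi : T.FiniteIndex := AddSubgroup.finiteIndex_of_finite_quotient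
  exact gen' A hcf (AA_big hm h) _ hfi hidx

end gens

end TMain

end Pool.Agent.CubeRank


end

section

/-!
# The average of `4 ^ r(A)` in the family of all twists by inert primes of a given curve
-/

set_option autoImplicit false

namespace Pool.Agent.CubeRank

open Pool.Agent.Lib_helper18 Pool.Agent.Lib_helper18.Eis Pool.Agent.Lib_helper84.Cub

namespace TMain

variable {m : ℕ} {p e e' : Fin m → ℕ}

/-- the exchanged weight vanishes in a class -/
theorem sumS_zero (h : HypT p e) (h' : HypT p e') (htg : tg p e = tg p e') :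
    ∑ i ∈ dS e e', sg p e i = 0 := by
  classical
  have h1 : tg p e' - tg p e = ∑ i ∈ dS e e', sg p e i := by
    unfold tg
    rw [← Finset.sum_sub_distrib, dS, Finset.sum_filter]
    refine Finset.sum_congr rfl (fun i _ => ?_)
    have h2 := h.he i
    have h3 := h'.he i
    split_ifs with h4
    · have h5 : e' i + e i = 3 := by omega
      have h6 : (e' i : ZMod 3) + (e i : ZMod 3) = 3 := by exact_mod_cast congrArg Nat.cast h5
      unfold sg
      split_ifs
      · ring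
      · linear_combination (wq (p i : ℤ)) * h6 + (wq (p i : ℤ) - (e i : ZMod 3) * wq (p i : ℤ)) * three_zmod
    · rw [not_not] at h4
      unfold sg
      rw [h4, sub_self]
  rw [← h1, htg, sub_self]

section

variable (hAdd : KapAddStmtT) (hRep : KapRepStmtT)
include hAdd hRep

/-- the law in terms of `WW` -/
theorem law_WW (h : HypT p e) (h' : HypT p e') (h3 : ∀ i, e i ≠ e' i → p i % 3 = 2)
    (htg : tg p e = tg p e') {v : Fin m → ZMod 3} (hv : v ∈ WW p e) (hv' : v ∈ WW p e')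
    (hv0 : ∀ i, v i ≠ 0) (hc : ¬ ∃ c, ∀ i, (e i : ZMod 3) * v i = c)
    (hc' : ¬ ∃ c, ∀ i, (e' i : ZMod 3) * v i = c) :
    ∑ i, (if p i = 3 then 0 else wq (p i : ℤ)) * v i *
      ((e i : ZMod 3) - (e' i : ZMod 3)) ^ 2 = 0 := by
  rw [mem_WW hAdd h] at hv
  rw [mem_WW hAdd h'] at hv'
  obtain ⟨P, hP⟩ := hv
  obtain ⟨P', hP'⟩ := hv'
  have r1 := (hRep m p e h P _ hP).2 hc
  have r2 := (hRep m p e' h' P' _ hP').2 hc'
  have h1 := lawT m p e e' (dS e e') h h' (fun i => mem_dS) (fun i hi => h3 i (mem_dS.mp hi))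
    (sumS_zero h h' htg) _ _ r1 r2 (fun i => mul_ne_zero (cast_ne h.he i) (hv0 i)) (fun i => by
    have h2 := h.he i
    have h4 := h'.he i
    split_ifs with h5
    · have h5' := mem_dS.mp h5
      have h6 : e' i + e i = 3 := by omega
      have h7 : (e' i : ZMod 3) + (e i : ZMod 3) = 3 := by exact_mod_cast congrArg Nat.cast h6
      linear_combination (v i) * h7 + (v i) * three_zmod
    · have h5' : e i = e' i := by
        by_contra h6
        exact h5 (mem_dS.mpr h6)
      rw [h5'])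
  refine Eq.trans ?_ h1
  rw [dS, Finset.sum_filter]
  refine Finset.sum_congr rfl (fun i _ => ?_)
  have h2 := h.he i
  have h4 := h'.he i
  split_ifs with h5 h6 h6
  · rw [sg, if_pos h5]; ring
  · rw [not_not.mp h6]; ring
  · rw [sg, if_neg h5]
    have h7 : ((e i : ZMod 3) - (e' i : ZMod 3)) ^ 2 = (e i : ZMod 3) * (e i : ZMod 3) := by
      rcases h2 with h2 | h2 <;> rcases h4 with h4 | h4
      · exact absurd (h2.trans h4.symm) h6
      · rw [h2, h4]; decide
      · rw [h2, h4]; decide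
      · exact absurd (h2.trans h4.symm) h6
    rw [h7]; ring
  · rw [not_not.mp h6]; ring

open Classical in
/-- the sum over one class -/
theorem sum_class (hm : 1 ≤ m) (p : Fin m → ℕ) (I : Finset (Fin m)) (hI : ∀ i ∈ I, p i % 3 = 2)
    (F : Finset (Fin m → ℕ)) (hF : ∀ e ∈ F, HypT p e)
    (hF' : ∀ e ∈ F, ∀ e' ∈ F, (∀ i, i ∉ I → e i = e' i) ∧ tg p e = tg p e') :
    ∑ e ∈ F, 4 ^ Module.finrank (ZMod 3) (WW p e) ≤
      2 ^ m * (2 ^ m * (2 ^ ((I.filter (fun i => p i % 9 ≠ 8)).card / 2 +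
        (I.filter (fun i => p i % 9 = 8)).card) + 2)) := by
  have h1 : ∀ e ∈ F, 4 ^ Module.finrank (ZMod 3) (WW p e) ≤
      2 ^ m * ((Nz m).filter (fun v => v ∈ WW p e)).card := by
    intro e he
    have h := hF e he
    refine (warn m (WW p e) _ (self_mem hAdd h) (cast_ne h.he)).trans ?_
    refine Nat.mul_le_mul_left _ (le_of_eq ?_)
    rw [Nat.card_eq_fintype_card, Fintype.card_subtype]
    congr 1
    ext v
    simp only [Finset.mem_filter, Finset.mem_univ, true_and, mem_Nz]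
    tauto
  refine (Finset.sum_le_sum h1).trans ?_
  rw [← Finset.mul_sum]
  refine Nat.mul_le_mul_left _ ?_
  -- double counting
  have h2 : ∑ e ∈ F, ((Nz m).filter (fun v => v ∈ WW p e)).card =
      ∑ v ∈ Nz m, (F.filter (fun e => v ∈ WW p e)).card := by
    simp only [Finset.card_filter]
    exact Finset.sum_comm
  rw [h2, ← card_Nz m]
  refine (Finset.sum_le_card_nsmul _ _ (2 ^ ((I.filter (fun i => p i % 9 ≠ 8)).card / 2 +
        (I.filter (fun i => p i % 9 = 8)).card) + 2) (fun v hv => ?_)).trans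
    (le_of_eq (smul_eq_mul _ _))
  rw [mem_Nz] at hv
  -- exceptional curves
  have hsplit : F.filter (fun e => v ∈ WW p e) ⊆
      F.filter (fun e => v ∈ WW p e ∧ ¬ ∃ c, ∀ i, (e i : ZMod 3) * v i = c) ∪
      F.filter (fun e => ∃ c, ∀ i, (e i : ZMod 3) * v i = c) := by
    intro f hf
    rw [Finset.mem_filter] at hf
    by_cases hc : ∃ c, ∀ i, (f i : ZMod 3) * v i = c
    · exact Finset.mem_union_right _ (Finset.mem_filter.mpr ⟨hf.1, hc⟩)
    · exact Finset.mem_union_left _ (Finset.mem_filter.mpr ⟨hf.1, hf.2, hc⟩)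
  refine (Finset.card_le_card hsplit).trans ((Finset.card_union_le _ _).trans ?_)
  refine Nat.add_le_add ?_ ?_
  swap
  · -- at most two curves
    set i0 : Fin m := ⟨0, hm⟩
    have : (F.filter (fun e => ∃ c, ∀ i, (e i : ZMod 3) * v i = c)).card ≤
        ({1, 2} : Finset ℕ).card := by
      refine Finset.card_le_card_of_injOn (fun e => e i0) ?_ ?_
      · intro f hf
        have h4 := (hF f (Finset.mem_filter.mp hf).1).he i0
        simp only [Finset.coe_insert, Finset.coe_singleton, Set.mem_insert_iff,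
          Set.mem_singleton_iff]
        exact h4
      · intro f hf g hg hfg
        have h4 := (hF f (Finset.mem_filter.mp hf).1).he
        have h5 := (hF g (Finset.mem_filter.mp hg).1).he
        obtain ⟨c, hc⟩ := (Finset.mem_filter.mp hf).2
        obtain ⟨c', hc'⟩ := (Finset.mem_filter.mp hg).2
        simp only at hfg
        have hcc : c = c' := by rw [← hc i0, ← hc' i0, hfg]
        funext i
        have h6 : (f i : ZMod 3) = (g i : ZMod 3) := by
          apply mul_right_cancel₀ (hv i)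
          rw [hc, hc', hcc]
        rcases h4 i with h7 | h7 <;> rcases h5 i with h8 | h8 <;> rw [h7, h8] at h6 ⊢ <;>
          exact absurd h6 (by decide)
    exact this.trans (by decide)
  -- the clique
  set G := F.filter (fun e => v ∈ WW p e ∧ ¬ ∃ c, ∀ i, (e i : ZMod 3) * v i = c) with hG
  have h3 : G.card = (G.image (fun e => fun i => (e i : ZMod 3))).card := by
    refine (Finset.card_image_of_injOn ?_).symm
    intro f hf g hg hfg
    have h4 := (hF f (Finset.mem_filter.mp hf).1).he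
    have h5 := (hF g (Finset.mem_filter.mp hg).1).he
    funext i
    have h6 := congrFun hfg i
    simp only at h6
    rcases h4 i with h7 | h7 <;> rcases h5 i with h8 | h8 <;> rw [h7, h8] at h6 ⊢ <;>
      exact absurd h6 (by decide)
  rw [h3]
  refine clique m (I.filter (fun i => p i % 9 ≠ 8)) (I.filter (fun i => p i % 9 = 8))
    (fun i => (if p i = 3 then 0 else wq (p i : ℤ)) * v i) _ ?_ ?_ ?_ ?_
  · intro i hi
    have h4 := Finset.mem_filter.mp hi
    have h5 := hI i h4.1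
    show (if p i = 3 then 0 else wq (p i : ℤ)) * v i ≠ 0
    rw [if_neg (by omega)]
    exact mul_ne_zero (wq_ne (by have := h4.2; omega)) (hv i)
  · intro x hx i
    obtain ⟨f, hf, rfl⟩ := Finset.mem_image.mp hx
    exact cast_ne (hF f (Finset.mem_filter.mp hf).1).he i
  · intro x hx y hy i hi hi'
    obtain ⟨f, hf, rfl⟩ := Finset.mem_image.mp hx
    obtain ⟨g, hg, rfl⟩ := Finset.mem_image.mp hy
    have hiI : i ∉ I := by
      intro h4
      by_cases h5 : p i % 9 = 8
      · exact hi' (Finset.mem_filter.mpr ⟨h4, h5⟩)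
      · exact hi (Finset.mem_filter.mpr ⟨h4, h5⟩)
    have h6 := (hF' f (Finset.mem_filter.mp hf).1 g (Finset.mem_filter.mp hg).1).1 i hiI
    simp only
    rw [h6]
  · intro x hx y hy
    obtain ⟨f, hf, rfl⟩ := Finset.mem_image.mp hx
    obtain ⟨g, hg, rfl⟩ := Finset.mem_image.mp hy
    have hf' := Finset.mem_filter.mp hf
    have hg' := Finset.mem_filter.mp hg
    have h6 := hF' f hf'.1 g hg'.1
    have h7 := law_WW hAdd hRep (hF f hf'.1) (hF g hg'.1) (fun i hi => by
      by_contra h8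
      exact hi (h6.1 i (fun h9 => h8 (hI i h9)))) h6.2 hf'.2.1 hg'.2.1 hv hf'.2.2 hg'.2.2
    refine Eq.trans ?_ h7
    refine Finset.sum_subset (Finset.subset_univ _) (fun i _ hi => ?_)
    simp only
    by_cases hiI : i ∈ I
    · have h8 : (if p i = 3 then 0 else wq (p i : ℤ)) = 0 := by
        have h3i := hI i hiI
        rw [if_neg (by omega)]
        have h10 : p i % 9 = 8 := by
          by_contra h11
          exact hi (Finset.mem_filter.mpr ⟨hiI, h11⟩)
        exact (wq_zero_iff (by omega)).mpr (by omega)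
      rw [h8, zero_mul, zero_mul]
    · rw [h6.1 i hiI]; ring

end

end TMain

end Pool.Agent.CubeRank


end

section

/-!
# CubeRank T3: points of class zero are multiples of 3, other classes are represented,
version for arbitrary primes (MP_8e0b0b_nt; helper95, after helper7 and helper55)
-/

set_option autoImplicit false

namespace Pool.Agent.CubeRank

open Finset Pool.Agent.Lib_helper18 Pool.Agent.Lib_helper18.Eis Pool.Agent.Lib_helper84.Cub
  Pool.Agent.Lib_helper18.CubStep0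

namespace TKapRepAux

/-- `A u³ = D v³` with `A` cube free and `v ≠ 0`: `D = A s³` -/
lemma cube_ratio {A D u v : ℤ} (hf : CubeFree A) (hv : v ≠ 0) (hu : u ≠ 0)
    (h : A * u ^ 3 = D * v ^ 3) : ∃ s : ℤ, s ≠ 0 ∧ D = A * s ^ 3 := by
  obtain ⟨g, u', v', hg, hco, rfl, rfl⟩ : ∃ g u' v' : ℤ, g ≠ 0 ∧ IsCoprime u' v' ∧
      u = g * u' ∧ v = g * v' := by
    have hgpos : 0 < Int.gcd u v := Int.gcd_pos_of_ne_zero_left _ hu
    obtain ⟨u', v', hco, h1, h2⟩ := Int.exists_gcd_one hgpos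
    exact ⟨Int.gcd u v, u', v', by exact_mod_cast hgpos.ne', Int.isCoprime_iff_gcd_eq_one.mpr hco,
      by rw [mul_comm]; exact h1, by rw [mul_comm]; exact h2⟩
  have hu' : u' ≠ 0 := right_ne_zero_of_mul hu
  have h1 : A * u' ^ 3 = D * v' ^ 3 := by
    have h2 : g ^ 3 * (A * u' ^ 3) = g ^ 3 * (D * v' ^ 3) := by linear_combination h
    exact mul_left_cancel₀ (pow_ne_zero 3 hg) h2
  have h2 : v' ^ 3 ∣ A * u' ^ 3 := ⟨D, by rw [h1]; ring⟩
  have h3 : v' ^ 3 ∣ A := (hco.symm.pow (m := 3) (n := 3)).dvd_of_dvd_mul_right h2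
  have h4 : IsUnit v' := by
    by_contra hn
    have h0 : v' ≠ 0 := right_ne_zero_of_mul hv
    obtain ⟨q, hq, hqv⟩ := WfDvdMonoid.exists_irreducible_factor hn h0
    exact hf q hq.prime ((pow_dvd_pow_of_dvd hqv 3).trans h3)
  rcases Int.isUnit_iff.mp h4 with h5 | h5
  · refine ⟨u', hu', ?_⟩
    rw [h5] at h1
    linarith
  · refine ⟨-u', neg_ne_zero.mpr hu', ?_⟩
    rw [h5] at h1
    linear_combination h1

/-- the lift of a point from the isogenous curve, in coprime integers -/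
lemma lift_of {A : ℤ} (hf : CubeFree A) (hA : A ≠ 0) {a b c : ℤ} (hc : c ≠ 0)
    (habc : a ^ 3 + b ^ 3 = A * c ^ 3) {γ : Eis} {t1 t2 : ℤ} (ht1 : t1 ≠ 0) (ht2 : t2 ≠ 0)
    (hg : (t1 : Eis) * ((a : Eis) + w * b) = t2 * (lam * γ ^ 3)) :
    ∃ α δ s r2 : ℤ, IsCoprime α δ ∧ s ≠ 0 ∧ r2 ≠ 0 ∧ α * δ * (α - δ) = A * s ^ 3 ∧
      (t1 : Eis) * ((a : Eis) + w * b) = r2 * (lam * ((α : Eis) + δ * w) ^ 3) := by
  have hab : ¬ (a = 0 ∧ b = 0) := by
    rintro ⟨rfl, rfl⟩
    have h1 : A * c ^ 3 = 0 := by rw [← habc]; ring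
    exact (mul_ne_zero hA (pow_ne_zero 3 hc)) h1
  have hre : t1 * a = (t2 * (lam * γ ^ 3)).re := by
    rw [← hg]; simp
  have him : t1 * b = (t2 * (lam * γ ^ 3)).im := by
    rw [← hg]; simp
  have hγ : ¬ (γ.re = 0 ∧ γ.im = 0) := by
    rintro ⟨h1, h2⟩
    have h0 : γ = 0 := by ext <;> simp [h1, h2]
    apply hab
    rw [h0] at hre him
    simp at hre him
    exact ⟨hre.resolve_left ht1, him.resolve_left ht1⟩
  obtain ⟨g, α, δ, hg0, hco, hα, hδ⟩ : ∃ g α δ : ℤ, g ≠ 0 ∧ IsCoprime α δ ∧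
      γ.re = g * α ∧ γ.im = g * δ := by
    have hgpos : 0 < Int.gcd γ.re γ.im := by
      rw [Int.gcd_pos_iff]
      by_contra hn
      push Not at hn
      exact hγ hn
    obtain ⟨u', v', hco, h1, h2⟩ := Int.exists_gcd_one hgpos
    exact ⟨Int.gcd γ.re γ.im, u', v', by exact_mod_cast hgpos.ne',
      Int.isCoprime_iff_gcd_eq_one.mpr hco,
      by rw [mul_comm]; exact h1, by rw [mul_comm]; exact h2⟩
  have hγe : γ = (g : Eis) * ((α : Eis) + δ * w) := by
    ext
    · simp [hα]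
    · simp [hδ]
  have hr2 : t2 * g ^ 3 ≠ 0 := mul_ne_zero ht2 (pow_ne_zero 3 hg0)
  have hnew : (t1 : Eis) * ((a : Eis) + w * b) =
      ((t2 * g ^ 3 : ℤ) : Eis) * (lam * ((α : Eis) + δ * w) ^ 3) := by
    rw [hg, hγe]; push_cast; ring
  have ha : t1 * a = (t2 * g ^ 3) * (α ^ 3 + 3 * α ^ 2 * δ - 6 * α * δ ^ 2 + δ ^ 3) := by
    have h5 := congrArg Eis.re hnew
    simp only [pow_succ, pow_zero, one_mul, mul_im, mul_re, add_re, add_im, intCast_im,
      intCast_re, w_re, w_im, lam_re, lam_im] at h5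
    linear_combination h5
  have hb : t1 * b = (t2 * g ^ 3) * (-α ^ 3 + 6 * α ^ 2 * δ - 3 * α * δ ^ 2 - δ ^ 3) := by
    have h5 := congrArg Eis.im hnew
    simp only [pow_succ, pow_zero, one_mul, mul_im, mul_re, add_re, add_im, intCast_im,
      intCast_re, w_re, w_im, lam_re, lam_im] at h5
    linear_combination h5
  have hN : α ^ 2 - α * δ + δ ^ 2 ≠ 0 := by
    intro h0
    have h1 : (2 * α - δ) ^ 2 + 3 * δ ^ 2 = 0 := by linear_combination 4 * h0
    have h2 : δ = 0 := by nlinarith [sq_nonneg (2 * α - δ), sq_nonneg δ]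
    have h3 : α = 0 := by
      rw [h2] at h0
      have : α ^ 2 = 0 := by linarith
      exact pow_eq_zero_iff (by norm_num) |>.mp this
    rw [h2, h3] at hco
    exact not_isCoprime_zero_zero hco
  have hkey : A * (t1 * c) ^ 3 = (α * δ * (α - δ)) *
      (3 * (t2 * g ^ 3) * (α ^ 2 - α * δ + δ ^ 2)) ^ 3 := by
    have h1 : A * (t1 * c) ^ 3 = (t1 * a) ^ 3 + (t1 * b) ^ 3 := by
      linear_combination (-t1 ^ 3) * habc
    rw [h1, ha, hb]
    ring
  obtain ⟨s, hs, hD⟩ := cube_ratio hf (mul_ne_zero (mul_ne_zero (by norm_num) hr2) hN)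
    (mul_ne_zero ht1 hc) hkey
  exact ⟨α, δ, s, t2 * g ^ 3, hco, hs, hr2, hD, hnew⟩

end TKapRepAux

open KapRepAux GKapRepAux _root_.Pool.Agent.CubeRank.TKapRepAux in
/-- module `T_KAPREP` -/
theorem kapRepT (h1 : BasicsStmt) (h3 : TripleStmt) : KapRepStmtT := by
  intro m p e hH P v hK
  rcases hK with ⟨hP0, c, hc⟩ | ⟨a, b, c, γ, t1, t2, hCrd, ht1, ht2, hg, hcl⟩
  · refine ⟨fun _ => ?_, fun hn => absurd ⟨c, hc⟩ hn⟩
    rw [hP0]
    exact (threeMul (AA p e)).zero_mem
  have he0 : ∀ i, e i ≠ 0 := fun i => by have := hH.he i; omega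
  obtain ⟨i0, -⟩ := hH.ex
  obtain ⟨hc0, hab, habc, -⟩ := id hCrd
  have hprime : ∀ i, Prime (p i : ℤ) := fun i => Nat.prime_iff_prime_int.mp (hH.hp i)
  have hA0 : AA p e ≠ 0 :=
    prod_ne_zero_iff.mpr (fun j _ => pow_ne_zero _ (hprime j).ne_zero)
  have hcf := cube_not_dvd_prod p e hH.hp hH.inj (fun i => by have := hH.he i; omega) univ
  have hcf' : CubeFree (AA p e) := hcf
  obtain ⟨α, δ, s, r2, hco, hs0, hr2, hprod, hg'⟩ := lift_of hcf' hA0 hc0 habc ht1 ht2 hg
  -- comparison of the two lifts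
  have hcmp : ((t1 * t2 : ℤ) : Eis) * γ ^ 3 = ((t1 * r2 : ℤ) : Eis) * ((α : Eis) + δ * w) ^ 3 := by
    have h5 : lam * (((t1 * t2 : ℤ) : Eis) * γ ^ 3) =
        lam * (((t1 * r2 : ℤ) : Eis) * ((α : Eis) + δ * w) ^ 3) := by
      push_cast
      linear_combination (t1 : Eis) * hg' - (t1 : Eis) * hg
    exact mul_left_cancel₀ prime_lam.ne_zero h5
  obtain ⟨n, j, hnj⟩ := cube_rat (mul_ne_zero ht1 ht2) hcmp
  -- splitting
  have huv : IsCoprime α (-δ) := hco.neg_right
  have hut : IsCoprime α (δ - α) := by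
    obtain ⟨u, v, huv⟩ := hco
    exact ⟨u + v, v, by linear_combination huv⟩
  have hvt : IsCoprime (-δ) (δ - α) := by
    obtain ⟨u, v, huv⟩ := hco
    exact ⟨-(u + v), -u, by linear_combination huv⟩
  obtain ⟨pos, x, hu, hv, ht, hs⟩ := split3 hH.hp he0 huv hut hvt
    (s := s) (by rw [← hprod]; ring)
  have hpt : IsPt p e pos x := isPt_of hu hv ht hs hs0 huv hut hvt (by ring)
  have hval : ∀ i, v i = fv (j : ZMod 3) (pos i) := by
    intro i
    obtain ⟨n1, hn1, hγ⟩ := hcl i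
    obtain ⟨s0, s1, s2⟩ := pos_cong (hH.hp i) hco
    have hk : pos i = 0 ∨ pos i = 1 ∨ pos i = 2 := by
      generalize pos i = k
      fin_cases k <;> simp
    have hvv : (((v i).val : ℕ) : ZMod 3) = v i := ZMod.natCast_zmod_val _
    unfold fv
    rcases hk with hk | hk | hk
    · obtain ⟨n2, hn2, hγ'⟩ := s0 (by
        rw [hu]; exact Dvd.dvd.mul_right (dvd_cell p e he0 pos i 0 hk) _)
      have h5 := class_eq (hH.hp i) hnj hn1 hγ hn2 hγ'
      rw [hvv] at h5
      rw [hk, h5]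
      simp
    · obtain ⟨n2, hn2, hγ'⟩ := s1 (by
        rw [hv]; exact Dvd.dvd.mul_right (dvd_cell p e he0 pos i 1 hk) _)
      have h5 := class_eq (hH.hp i) hnj hn1 hγ hn2 hγ'
      rw [hvv] at h5
      rw [hk, h5]
      simp
    · obtain ⟨n2, hn2, hγ'⟩ := s2 (by
        rw [ht]; exact Dvd.dvd.mul_right (dvd_cell p e he0 pos i 2 hk) _)
      have h5 := class_eq (hH.hp i) hnj hn1 hγ hn2 hγ'
      rw [hvv] at h5
      rw [hk, h5]
      have : (1 - (((2 : Fin 3).val : ℕ) : ZMod 3)) = ((2 : ℕ) : ZMod 3) := by decide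
      rw [this]
  refine ⟨?_, ?_⟩
  · rintro ⟨c', hc'⟩
    -- constant class
    have hnc : ¬ ∃ n : ℤ, n ^ 3 = AA p e := by
      rintro ⟨n, hn⟩
      have hd : (p i0 : ℤ) ∣ AA p e := by
        unfold AA
        exact (dvd_pow_self _ (he0 i0)).trans (dvd_prod_of_mem _ (mem_univ i0))
      rw [← hn] at hd
      have hd2 := (hprime i0).dvd_of_dvd_pow hd
      have hd3 : (p i0 : ℤ) ^ 3 ∣ AA p e := by
        rw [← hn]
        exact pow_dvd_pow_of_dvd hd2 3
      exact hcf _ (hprime i0) hd3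
    have hpos : ∀ i, pos i = pos i0 := by
      intro i
      apply fv_inj (j : ZMod 3)
      rw [← hval, ← hval, hc', hc']
    generalize hk0 : pos i0 = k0 at hpos
    obtain ⟨hcA, hc1⟩ := cell_all p e pos k0 hpos
    have hx := hpt.ne
    have hk : k0 = 0 ∨ k0 = 1 ∨ k0 = 2 := by
      clear hk0 hpos hcA hc1
      fin_cases k0 <;> simp
    have hab' : ∀ y z : ℤ, IsCoprime (y ^ 3) (z ^ 3) → IsCoprime y z := fun y z h =>
      (IsCoprime.pow_iff (by norm_num) (by norm_num)).mp h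
    rcases hk with hk | hk | hk
    · subst hk
      rw [hcA] at hu
      rw [hc1 1 (by decide), one_mul] at hv
      rw [hc1 2 (by decide), one_mul] at ht
      have hδ : δ = -x 1 ^ 3 := by linarith
      have hα : α = -x 1 ^ 3 - x 2 ^ 3 := by linarith
      refine core h1 h3 (AA p e) hA0 hnc P a b c hCrd t1 r2 α δ (x 2) (x 1) (-x 0) ht1 hr2 hg'
        (neg_ne_zero.mpr (hx 0)) (hab' _ _ (by rw [← hv, ← ht]; exact hvt.symm)) ?_ ?_ ?_
      · linear_combination hα - hu
      · rw [hα, hδ]; unfold TX; ring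
      · rw [hα, hδ]; unfold TY; ring
    · subst hk
      rw [hcA] at hv
      rw [hc1 0 (by decide), one_mul] at hu
      rw [hc1 2 (by decide), one_mul] at ht
      have hδ : δ = x 0 ^ 3 + x 2 ^ 3 := by linarith
      refine core h1 h3 (AA p e) hA0 hnc P a b c hCrd t1 r2 α δ (x 0) (x 2) (-x 1) ht1 hr2 hg'
        (neg_ne_zero.mpr (hx 1)) (hab' _ _ (by rw [← hu, ← ht]; exact hut)) ?_ ?_ ?_
      · linear_combination -hv - hδ
      · rw [hu, hδ]; unfold TX; ring
      · rw [hu, hδ]; unfold TY; ring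
    · subst hk
      rw [hcA] at ht
      rw [hc1 0 (by decide), one_mul] at hu
      rw [hc1 1 (by decide), one_mul] at hv
      have hδ : δ = -x 1 ^ 3 := by linarith
      refine core h1 h3 (AA p e) hA0 hnc P a b c hCrd t1 r2 α δ (x 1) (x 0) (-x 2) ht1 hr2 hg'
        (neg_ne_zero.mpr (hx 2)) (hab' _ _ (by rw [← hu, ← hv]; exact huv.symm)) ?_ ?_ ?_
      · linear_combination hδ - ht - hu
      · rw [hu, hδ]; unfold TX; ring
      · rw [hu, hδ]; unfold TY; ring
  · intro _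
    -- representation
    have hinj : Function.Injective (fun k : Fin 3 => zf (fv (j : ZMod 3) k)) := by
      intro k k' hkk
      exact zf_fv_inj _ _ _ hkk
    let σ : Equiv.Perm (Fin 3) := Equiv.ofBijective _ (Finite.injective_iff_bijective.mp hinj)
    have h5 := hpt.perm σ
    refine ⟨x ∘ σ.symm, ?_⟩
    have h6 : (fun i => zf (v i)) = σ ∘ pos := by
      funext i
      rw [hval i]
      rfl
    rw [h6]
    exact h5

end Pool.Agent.CubeRank


end

section

/-!
# CubeRank T1: every lifted point has a class, version for arbitrary primes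
(MP_8e0b0b_nt; module T_KAPEX, by helper48, after helper71 and helper95)
-/

set_option autoImplicit false

namespace Pool.Agent.CubeRank

open Pool.Agent.Lib_helper18 Pool.Agent.Lib_helper18.Eis Pool.Agent.Lib_helper84.Cub

theorem AAT_ne_zero {m : ℕ} {p e : Fin m → ℕ} (h : HypT p e) : AA p e ≠ 0 := by
  refine Finset.prod_ne_zero_iff.mpr fun i _ => pow_ne_zero _ ?_
  exact_mod_cast (h.hp i).ne_zero

theorem HypT.dvd_AA {m : ℕ} {p e : Fin m → ℕ} (h : HypT p e) (i : Fin m) :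
    (p i : ℤ) ∣ AA p e := by
  have h1 : (p i : ℤ) ^ e i ∣ AA p e := Finset.dvd_prod_of_mem _ (Finset.mem_univ i)
  refine (dvd_pow_self _ ?_).trans h1
  have := h.he i; omega

/-- a product of distinct primes with exponents at most 2 is cube free -/
theorem cubeFree_AAT {m : ℕ} {p e : Fin m → ℕ} (h : HypT p e) : CubeFree (AA p e) := by
  intro q hq hdvd
  have hqA : q ∣ AA p e := (dvd_pow_self q (by norm_num)).trans hdvd
  obtain ⟨i, -, hi⟩ := (Prime.dvd_finsetProd_iff hq _).mp hqA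
  have hi' : q ∣ (p i : ℤ) := hq.dvd_of_dvd_pow hi
  have hass : Associated q (p i : ℤ) :=
    (Prime.dvd_prime_iff_associated hq (Nat.prime_iff_prime_int.mp (h.hp i))).mp hi'
  have hdvd' : (p i : ℤ) ^ 3 ∣ AA p e := (hass.pow_pow (n := 3)).symm.dvd.trans hdvd
  have hsplit : AA p e = (p i : ℤ) ^ e i * ∏ j ∈ Finset.univ.erase i, (p j : ℤ) ^ e j :=
    (Finset.mul_prod_erase _ _ (Finset.mem_univ i)).symm
  rw [hsplit] at hdvd'
  have hcop : IsCoprime ((p i : ℤ) ^ 3) (∏ j ∈ Finset.univ.erase i, (p j : ℤ) ^ e j) := by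
    refine IsCoprime.prod_right fun j hj => ?_
    refine IsCoprime.pow ?_
    rw [Nat.isCoprime_iff_coprime, Nat.coprime_primes (h.hp i) (h.hp j)]
    intro hpp
    exact (Finset.ne_of_mem_erase hj) (h.inj hpp).symm
  have h3 : (p i : ℤ) ^ 3 ∣ (p i : ℤ) ^ e i := hcop.dvd_of_dvd_mul_right hdvd'
  have h4 : (p i) ^ 3 ∣ (p i) ^ e i := by exact_mod_cast h3
  have h5 := (Nat.pow_dvd_pow_iff_le_right (h.hp i).one_lt).mp h4
  have := h.he i
  omega

/-- module `T_KAPEX` -/
theorem kapExT : KapExStmtT := by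
  intro m p e h P hP
  rcases hP with hP | ⟨a, b, c, γ, t1, t2, hcrd, ht1, ht2, hg⟩
  · exact ⟨0, Or.inl ⟨hP, 0, fun _ => rfl⟩⟩
  obtain ⟨al, de, s, r2, hcop, hs, hr2, hprod, heq⟩ :=
    TKapRepAux.lift_of (cubeFree_AAT h) (AAT_ne_zero h) hcrd.1 hcrd.2.2.1 ht1 ht2 hg
  have key : ∀ i, ∃ v : ZMod 3, ∃ n : ℤ, ¬ (p i : ℤ) ∣ n ∧
      (p i : Eis) ∣ ((al : Eis) + de * w) - n * w ^ v.val := by
    intro i
    have hpz : Prime (p i : ℤ) := Nat.prime_iff_prime_int.mp (h.hp i)
    have hdv : (p i : ℤ) ∣ al * de * (al - de) := by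
      rw [hprod]; exact (h.dvd_AA i).mul_right _
    have castdvd : ∀ n : ℤ, (p i : ℤ) ∣ n → (p i : Eis) ∣ (n : Eis) := by
      intro n hn
      have : ((p i : ℤ) : Eis) ∣ (n : Eis) := intCast_dvd_intCast.mpr hn
      simpa using this
    by_cases hde : (p i : ℤ) ∣ de
    · have hal : ¬ (p i : ℤ) ∣ al := fun h' => hpz.not_isUnit (hcop.isUnit_of_dvd' h' hde)
      refine ⟨0, al, hal, ?_⟩
      have h0 : (0 : ZMod 3).val = 0 := rfl
      have : ((al : Eis) + de * w) - (al : Eis) * w ^ (0 : ZMod 3).val = de * w := by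
        rw [h0, pow_zero]; ring
      rw [this]; exact (castdvd de hde).mul_right _
    by_cases hal : (p i : ℤ) ∣ al
    · refine ⟨1, de, hde, ?_⟩
      have h0 : (1 : ZMod 3).val = 1 := rfl
      have : ((al : Eis) + de * w) - (de : Eis) * w ^ (1 : ZMod 3).val = al := by
        rw [h0, pow_one]; ring
      rw [this]; exact castdvd al hal
    · have hsub : (p i : ℤ) ∣ al - de := by
        rcases hpz.dvd_or_dvd hdv with h' | h'
        · rcases hpz.dvd_or_dvd h' with h'' | h''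
          · exact absurd h'' hal
          · exact absurd h'' hde
        · exact h'
      refine ⟨2, -al, by rwa [dvd_neg], ?_⟩
      have h0 : (2 : ZMod 3).val = 2 := rfl
      have : ((al : Eis) + de * w) - ((-al : ℤ) : Eis) * w ^ (2 : ZMod 3).val =
          -((al - de : ℤ) : Eis) * w := by
        rw [h0, w_sq]; push_cast; ring
      rw [this]; exact ((dvd_neg.mpr (castdvd _ hsub))).mul_right _
  choose v hv using key
  exact ⟨v, Or.inr ⟨a, b, c, (al : Eis) + de * w, t1, r2, hcrd, ht1, hr2, heq, hv⟩⟩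

end Pool.Agent.CubeRank


end

section

/-!
# The class of a point is additive, arbitrary primes (module T_KAPADD)
-/

set_option autoImplicit false

namespace Pool.Agent.CubeRank

open Pool.Agent.Lib_helper18 Pool.Agent.Lib_helper18.Eis Pool.Agent.Lib_helper84.Cub

namespace TKapAdd

open KapAddAux GKapAdd

section

variable {m : ℕ} {p e : Fin m → ℕ} (H : HypT p e)
include H

theorem AA_ne : AA p e ≠ 0 := by
  unfold AA
  refine Finset.prod_ne_zero_iff.2 fun i _ => pow_ne_zero _ ?_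
  exact_mod_cast (H.hp i).ne_zero

theorem dvd_AA (i : Fin m) : (p i : ℤ) ∣ AA p e := by
  unfold AA
  refine (dvd_pow_self (p i : ℤ) ?_).trans (Finset.dvd_prod_of_mem _ (Finset.mem_univ i))
  rcases H.he i with h | h <;> omega

theorem cube_ndvd (i : Fin m) : ¬ (p i : ℤ) ^ 3 ∣ AA p e := by
  intro h
  unfold AA at h
  rw [← Finset.mul_prod_erase Finset.univ _ (Finset.mem_univ i)] at h
  have hZ := Nat.prime_iff_prime_int.mp (H.hp i)
  have h0 : (p i : ℤ) ^ e i ≠ 0 := pow_ne_zero _ hZ.ne_zero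
  have h1 : (p i : ℤ) ^ (e i + 1) ∣ (p i : ℤ) ^ 3 := pow_dvd_pow _ (by
    rcases H.he i with h | h <;> omega)
  have h2 := h1.trans h
  rw [pow_succ] at h2
  have h4 := (mul_dvd_mul_iff_left h0).1 h2
  obtain ⟨j, hj, h5⟩ := (Prime.dvd_finsetProd_iff hZ _).1 h4
  have h6 := hZ.dvd_of_dvd_pow h5
  have h7 : p i ∣ p j := by exact_mod_cast h6
  have h8 := (Nat.prime_dvd_prime_iff_eq (H.hp i) (H.hp j)).1 h7
  exact (Finset.ne_of_mem_erase hj) (H.inj h8).symm

theorem not_cube : ¬ ∃ n : ℤ, n ^ 3 = AA p e := by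
  rintro ⟨n, hn⟩
  obtain ⟨i, _⟩ := H.ex
  have hZ := Nat.prime_iff_prime_int.mp (H.hp i)
  have h1 : (p i : ℤ) ∣ n ^ 3 := by rw [hn]; exact dvd_AA H _
  have h2 := hZ.dvd_of_dvd_pow h1
  exact cube_ndvd H i (by rw [← hn]; exact pow_dvd_pow_of_dvd h2 3)

/-- adding a constant to the class -/
theorem kap_shift {P : GA (AA p e)} {v : Fin m → ZMod 3} (h : KapG p e P v) (c : ZMod 3) :
    KapG p e P (fun i => v i + c) := by
  rw [kapG_iff] at h ⊢
  rcases h with ⟨h0, d, hd⟩ | ⟨a, b, z, γ, t1, t2, hC, ht1, ht2, he, hs⟩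
  · exact Or.inl ⟨h0, d + c, fun i => by simp only [hd]⟩
  · refine Or.inr ⟨a, b, z, γ * W c, t1, t2, hC, ht1, ht2, ?_, fun i => ?_⟩
    · rw [he, mul_pow, W_cube, mul_one]
    · exact (hs i).mul (H.hp i) (Cl.W (H.hp i) c)

/-- the class of the negative -/
theorem kap_neg (h1 : BasicsStmt) {P : GA (AA p e)} {v : Fin m → ZMod 3} (h : KapG p e P v) :
    KapG p e (-P) (fun i => - v i) := by
  rw [kapG_iff] at h ⊢
  rcases h with ⟨h0, d, hd⟩ | ⟨a, b, z, γ, t1, t2, hC, ht1, ht2, he, hs⟩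
  · exact Or.inl ⟨by rw [h0, neg_zero], -d, fun i => by simp only [hd]⟩
  · refine Or.inr ⟨b, a, z, conj γ, t1, -t2, ((h1 _ (AA_ne H)).2.2.2.2 P a b z hC).1, ht1,
      neg_ne_zero.2 ht2, ?_, fun i => (hs i).conj⟩
    have e1 := congrArg conj he
    simp only [map_mul, map_add, map_pow, conj_intCast, conj_w, lam_eq, map_sub, map_one] at e1
    have hc := w_cube
    have hr := w_rel
    rw [lam_eq]
    push_cast
    linear_combination w * e1 + (-(t1 : Eis) * b - t2 * conj γ ^ 3) * hc +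
      (0 : Eis) * hr

/-- the class of a point is unique up to constants -/
theorem kap_unique (h1 : BasicsStmt) {P : GA (AA p e)} {v v' : Fin m → ZMod 3}
    (h : KapG p e P v) (h' : KapG p e P v') : ∃ c, ∀ i, v i = v' i + c := by
  rw [kapG_iff] at h h'
  rcases h with ⟨h0, d, hd⟩ | ⟨a, b, z, γ, t1, t2, hC, ht1, ht2, he, hs⟩
  · rcases h' with ⟨h0', d', hd'⟩ | ⟨a', b', z', γ', t1', t2', hC', _⟩
    · exact ⟨d - d', fun i => by rw [hd, hd']; ring⟩
    · exact absurd h0 (crd_ne hC')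
  · rcases h' with ⟨h0', d', hd'⟩ | ⟨a', b', z', γ', t1', t2', hC', ht1', ht2', he', hs'⟩
    · exact absurd h0' (crd_ne hC)
    · have hcong : ∃ (k : ℕ) (M : ℤ), γ * conj γ' = M * w ^ k := by
        have hl := prime_lam.ne_zero
        rcases (h1 _ (AA_ne H)).2.2.2.1 P a b z a' b' z' hC hC' with ⟨ea, eb, _⟩ | ⟨ea, eb, _⟩
        · refine ratio (n := t2 * t1') (n' := t2' * t1) (mul_ne_zero ht2 ht1') ?_
          refine mul_left_cancel₀ hl ?_
          rw [ea, eb] at he'
          push_cast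
          linear_combination (-(t1' : Eis)) * he + (t1 : Eis) * he'
        · refine ratio (n := -(t2 * t1')) (n' := t2' * t1) (neg_ne_zero.2
            (mul_ne_zero ht2 ht1')) ?_
          refine mul_left_cancel₀ hl ?_
          rw [ea, eb] at he'
          push_cast at he' ⊢
          linear_combination (t1' : Eis) * he + (t1 : Eis) * he'
      obtain ⟨k, M, hk⟩ := hcong
      refine ⟨k, fun i => ?_⟩
      have e1 := Cl.ratio (H.hp i) (hs i) (hs' i) hk
      linear_combination e1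

/-- the coordinates of a point with a class at a prime `p i` -/
theorem crd_q (i : Fin m) {P : GA (AA p e)} {a b c : ℤ} (h : Crd (AA p e) P a b c)
    {γ : Eis} {t1 t2 : ℤ} (ht1 : t1 ≠ 0)
    (he : (t1 : Eis) * ((a : Eis) + w * b) = t2 * (lam * γ ^ 3)) {v : ZMod 3}
    (hv : Cl (p i) γ v) :
    ¬ (p i : ℤ) ∣ a ∧ ¬ (p i : ℤ) ∣ b ∧ (p i : ℤ) ∣ a + b := by
  obtain ⟨_, hc, _, _⟩ := h
  have hZ := Nat.prime_iff_prime_int.mp (H.hp i)
  obtain ⟨n, hn, β, hβ⟩ := hv
  have hγ : γ = n * W v + (p i : Eis) * β := by linear_combination hβ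
  obtain ⟨β', hβ'⟩ : ∃ β' : Eis, γ ^ 3 = ((n ^ 3 : ℤ) : Eis) + ((p i : ℤ) : Eis) * β' := by
    refine ⟨3 * (n : Eis) ^ 2 * W v ^ 2 * β + 3 * n * W v * ((p i : Eis) * β ^ 2) +
      (p i : Eis) ^ 2 * β ^ 3, ?_⟩
    rw [hγ]
    push_cast
    linear_combination (n : Eis) ^ 3 * W_cube v
  -- cancel the common factor of `t1` and `t2`
  obtain ⟨g, u1, u2, hg, hu1, hu2, hcop⟩ : ∃ g u1 u2 : ℤ, g ≠ 0 ∧ t1 = g * u1 ∧ t2 = g * u2 ∧
      IsCoprime u1 u2 := by
    have hg : 0 < Int.gcd t1 t2 := Int.gcd_pos_of_ne_zero_left _ ht1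
    obtain ⟨u1, u2, hcop, h1, h2⟩ := Int.exists_gcd_one hg
    refine ⟨(Int.gcd t1 t2 : ℤ), u1, u2, by exact_mod_cast hg.ne', by rw [mul_comm]; exact h1,
      by rw [mul_comm]; exact h2, Int.isCoprime_iff_gcd_eq_one.2 hcop⟩
  have hgE : ((g : ℤ) : Eis) ≠ 0 := by
    intro h
    have := congrArg Eis.re h
    simp at this
    exact hg this
  have hE : (u1 : Eis) * ((a : Eis) + w * b) = (u2 : Eis) * (lam * γ ^ 3) := by
    refine mul_left_cancel₀ hgE ?_
    rw [hu1, hu2] at he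
    push_cast at he
    linear_combination he
  rw [hβ', lam_eq] at hE
  have hre := congrArg Eis.re hE
  have him := congrArg Eis.im hE
  simp only [mul_re, mul_im, add_re, add_im, sub_re, sub_im, one_re, one_im, intCast_re,
    intCast_im, w_re, w_im] at hre him
  have h1 : (p i : ℤ) ∣ u1 * a - u2 * n ^ 3 :=
    ⟨u2 * (β'.re + β'.im), by linear_combination hre⟩
  have h2 : (p i : ℤ) ∣ u1 * b + u2 * n ^ 3 :=
    ⟨u2 * (2 * β'.im - β'.re), by linear_combination him⟩
  have h3 : ¬ (p i : ℤ) ∣ u1 := by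
    intro h3
    have h4 : (p i : ℤ) ∣ u2 * n ^ 3 := (dvd_add_right (h3.mul_right b)).1 h2
    have h5 : (p i : ℤ) ∣ u2 := (hZ.dvd_or_dvd h4).resolve_right fun h => hn (hZ.dvd_of_dvd_pow h)
    exact hZ.not_isUnit (hcop.isUnit_of_dvd' h3 h5)
  have h4 : (p i : ℤ) ∣ a + b := by
    have h5 : (p i : ℤ) ∣ u1 * (a + b) := by
      have h6 := dvd_add h1 h2
      have e6 : u1 * a - u2 * n ^ 3 + (u1 * b + u2 * n ^ 3) = u1 * (a + b) := by ring
      rwa [e6] at h6
    exact (hZ.dvd_or_dvd h5).resolve_left h3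
  refine ⟨fun ha => ?_, fun hb => ?_, h4⟩
  · exact hZ.not_isUnit (hc.isUnit_of_dvd' ha ((dvd_add_right ha).1 h4))
  · exact hZ.not_isUnit (hc.isUnit_of_dvd' ((dvd_add_left hb).1 h4) hb)

omit H in
theorem norm_ndvd {q : ℕ} (hq : q.Prime) (h3 : q ≠ 3) {a b : ℤ}
    (h : ¬ (q : ℤ) ∣ a ∧ ¬ (q : ℤ) ∣ b ∧ (q : ℤ) ∣ a + b) :
    ¬ (q : ℤ) ∣ ((a : Eis) + w * b).norm := by
  obtain ⟨ha, hb, hab⟩ := h
  have hZ := Nat.prime_iff_prime_int.mp hq
  intro h
  have e1 : ((a : Eis) + w * b).norm = (a + b) * (a + b) - 3 * (a * b) := by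
    simp only [norm_def, add_re, add_im, mul_re, mul_im, w_re, w_im, intCast_re, intCast_im]
    ring
  rw [e1] at h
  have h1 : (q : ℤ) ∣ 3 * (a * b) := (dvd_sub_right (hab.mul_right _)).1 h
  rcases hZ.dvd_or_dvd h1 with h2 | h2
  · have h5 : q ∣ 3 := by exact_mod_cast h2
    exact h3 ((Nat.prime_dvd_prime_iff_eq hq Nat.prime_three).1 h5)
  · exact (hZ.dvd_or_dvd h2).elim ha hb

omit H in
theorem dvd_of_dvd_mul_norm {q : ℕ} (hq : q.Prime) {D : ℤ} {Z : Eis} (hZn : ¬ (q : ℤ) ∣ Z.norm)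
    (h : (q : Eis) ∣ (D : Eis) * Z) : (q : ℤ) ∣ D := by
  have hZ := Nat.prime_iff_prime_int.mp hq
  have h1 : (q : Eis) ∣ ((D * Z.norm : ℤ) : Eis) := by
    have h2 := h.mul_right (conj Z)
    rw [mul_assoc, mul_conj] at h2
    push_cast
    exact h2
  exact (hZ.dvd_or_dvd (cast_dvd.1 h1)).resolve_right hZn

/-- the case that one of three points with sum zero is zero -/
theorem kap_sum_zero (h1 : BasicsStmt) {P Q R : GA (AA p e)} {v v' v'' : Fin m → ZMod 3}
    (h : KapG p e P v) (h' : KapG p e Q v') (h'' : KapG p e R v'') (h0 : P + Q + R = 0)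
    (hP : P = 0) : ∃ c, ∀ i, v i + v' i + v'' i = c := by
  obtain ⟨d, hd⟩ : ∃ d, ∀ i, v i = d := by
    rcases h with ⟨_, d, hd⟩ | ⟨a, b, z, γ, t1, t2, hC, _⟩
    · exact ⟨d, hd⟩
    · exact absurd hP (crd_ne hC)
  have hQ : Q = -R := by
    rw [hP, zero_add] at h0
    exact eq_neg_of_add_eq_zero_left h0
  obtain ⟨c, hc⟩ := kap_unique H h1 h' (hQ ▸ kap_neg H h1 h'')
  exact ⟨d + c, fun i => by rw [hd, hc]; ring⟩

end

section

variable {m : ℕ} {p e : Fin m → ℕ} (H : HypT p e)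
include H

/-- three points with sum zero -/
theorem kap_sum (h1 : BasicsStmt) (h2 : CollStmt) {P Q R : GA (AA p e)}
    {v v' v'' : Fin m → ZMod 3}
    (h : KapG p e P v) (h' : KapG p e Q v') (h'' : KapG p e R v'') (h0 : P + Q + R = 0) :
    ∃ c, ∀ i, v i + v' i + v'' i = c := by
  by_cases hP : P = 0
  · exact kap_sum_zero H h1 h h' h'' h0 hP
  by_cases hQ : Q = 0
  · obtain ⟨c, hc⟩ := kap_sum_zero H h1 h' h h'' (by rw [← h0]; abel) hQ
    exact ⟨c, fun i => by rw [← hc i]; ring⟩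
  by_cases hR : R = 0
  · obtain ⟨c, hc⟩ := kap_sum_zero H h1 h'' h h' (by rw [← h0]; abel) hR
    exact ⟨c, fun i => by rw [← hc i]; ring⟩
  rw [kapG_iff] at h h' h''
  obtain ⟨a1, b1, c1, γ1, t1, s1, hC1, ht1, hs1, he1, hq1⟩ := h.resolve_left fun h => hP h.1
  obtain ⟨a2, b2, c2, γ2, t2, s2, hC2, ht2, hs2, he2, hq2⟩ := h'.resolve_left fun h => hQ h.1
  obtain ⟨a3, b3, c3, γ3, t3, s3, hC3, ht3, hs3, he3, hq3⟩ := h''.resolve_left fun h => hR h.1
  obtain ⟨l, mm, n, ⟨u, z, t, hpr⟩, hl1, _, _, hcoll⟩ := h2 (AA p e) (AA_ne H) (not_cube H)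
    P Q R a1 b1 c1 a2 b2 c2 a3 b3 c3 h0 hC1 hC2 hC3
  -- the linear form at a prime different from 3
  have hY : ∀ i, p i ≠ 3 → ¬ (p i : ℤ) ∣ l ∧ (p i : ℤ) ∣ mm - l := by
    intro i hi3
    have hZ := Nat.prime_iff_prime_int.mp (H.hp i)
    obtain ⟨x1, x2, x3⟩ := crd_q H i hC1 ht1 he1 (hq1 i)
    have x4 := norm_ndvd (H.hp i) hi3 ⟨x1, x2, x3⟩
    have y4 := norm_ndvd (H.hp i) hi3 (crd_q H i hC2 ht2 he2 (hq2 i))
    have z4 := norm_ndvd (H.hp i) hi3 (crd_q H i hC3 ht3 he3 (hq3 i))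
    have k1 : (p i : Eis) ∣ ((n ^ 3 + AA p e * mm ^ 3 : ℤ) : Eis) *
        (((a1 : Eis) + w * b1) * ((a2 : Eis) + w * b2) * ((a3 : Eis) + w * b3)) := by
      rw [hcoll]
      exact Dvd.dvd.mul_right (Dvd.dvd.mul_right (cast_dvd.2 (dvd_AA H i)) _) _
    have k2 : (p i : ℤ) ∣ n ^ 3 + AA p e * mm ^ 3 := by
      refine dvd_of_dvd_mul_norm (H.hp i) ?_ k1
      rw [norm_mul, norm_mul]
      intro k
      rcases hZ.dvd_or_dvd k with k | k
      · rcases hZ.dvd_or_dvd k with k | k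
        · exact x4 k
        · exact y4 k
      · exact z4 k
    have k3 : (p i : ℤ) ∣ n := by
      have k5 : (p i : ℤ) ∣ n ^ 3 := (dvd_add_left (Dvd.dvd.mul_right (dvd_AA H i) _)).1 k2
      exact hZ.dvd_of_dvd_pow k5
    have k4 : (p i : ℤ) ∣ mm - l := by
      have k5 : (p i : ℤ) ∣ (mm - l) * a1 := by
        have e : (mm - l) * a1 = mm * (a1 + b1) + n * c1 := by linear_combination -hl1
        rw [e]
        exact dvd_add (Dvd.dvd.mul_left x3 _) (Dvd.dvd.mul_right k3 _)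
      exact (hZ.dvd_or_dvd k5).resolve_right x1
    refine ⟨?_, k4⟩
    intro hl
    have hmm : (p i : ℤ) ∣ mm := by
      have := dvd_add k4 hl
      rwa [sub_add_cancel] at this
    apply hZ.not_dvd_one
    rw [← hpr]
    exact dvd_add (dvd_add (Dvd.dvd.mul_left hl _) (Dvd.dvd.mul_left hmm _))
      (Dvd.dvd.mul_left k3 _)
  have hlc : lam * conj lam = 3 := by
    rw [lam_eq, map_sub, map_one, conj_w]
    have hr := w_rel
    have hc := w_cube
    linear_combination hc - hr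
  have hD : n ^ 3 + AA p e * mm ^ 3 ≠ 0 := by
    intro hD
    rw [hD, Int.cast_zero, zero_mul] at hcoll
    obtain ⟨i, hi⟩ := H.ex
    have hi3 : p i ≠ 3 := by rcases hi with h | h <;> omega
    have a0 : ∀ {a : ℤ}, ¬ (p i : ℤ) ∣ a → a ≠ 0 := fun h h0 => h (h0 ▸ dvd_zero _)
    have hA : ((AA p e : ℤ) : Eis) ≠ 0 := by
      intro h
      have := congrArg Eis.re h
      simp at this
      exact AA_ne H this
    have hYn : (mm : Eis) - w * l ≠ 0 := by
      intro h
      have h4 := congrArg Eis.im h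
      simp at h4
      exact a0 (hY i hi3).1 h4
    have haa : ((a1 * a2 * a3 : ℤ) : Eis) ≠ 0 := by
      intro h
      have h4 := congrArg Eis.re h
      rw [intCast_re] at h4
      exact mul_ne_zero (mul_ne_zero (a0 (crd_q H i hC1 ht1 he1 (hq1 i)).1)
        (a0 (crd_q H i hC2 ht2 he2 (hq2 i)).1)) (a0 (crd_q H i hC3 ht3 he3 (hq3 i)).1) h4
    exact mul_ne_zero (mul_ne_zero hA (pow_ne_zero 3 hYn)) haa hcoll.symm
  obtain ⟨k, M, hk⟩ := ratio (X := lam * (γ1 * γ2 * γ3)) (Y := (mm : Eis) - w * l)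
    (n := (n ^ 3 + AA p e * mm ^ 3) * (s1 * s2 * s3)) (n' := AA p e * (t1 * t2 * t3) *
      (a1 * a2 * a3)) (mul_ne_zero hD (mul_ne_zero (mul_ne_zero hs1 hs2) hs3)) (by
    have e1 : (lam * (γ1 * γ2 * γ3)) ^ 3 * (((n ^ 3 + AA p e * mm ^ 3) * (s1 * s2 * s3) : ℤ) : Eis)
        = ((n ^ 3 + AA p e * mm ^ 3 : ℤ) : Eis) * ((s1 * (lam * γ1 ^ 3)) *
          (s2 * (lam * γ2 ^ 3)) * (s3 * (lam * γ3 ^ 3))) := by
      push_cast
      ring
    rw [e1, ← he1, ← he2, ← he3]
    push_cast at hcoll ⊢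
    linear_combination (t1 * t2 * t3 : Eis) * hcoll)
  rw [wpow_eq] at hk
  refine ⟨k, fun i => ?_⟩
  obtain ⟨N, hN, hd⟩ := ((hq1 i).mul (H.hp i) (hq2 i)).mul (H.hp i) (hq3 i)
  by_cases h3 : p i ≠ 3
  · -- primes different from 3
    obtain ⟨k5, k4⟩ := hY i h3
    have hZ := Nat.prime_iff_prime_int.mp (H.hp i)
    refine (uniq (q := p i) (M := M) (N := 3 * l * N) (u := k) ?_ ?_).symm
    · intro hh
      rcases hZ.dvd_or_dvd hh with hh | hh
      · rcases hZ.dvd_or_dvd hh with hh | hh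
        · have h5 : p i ∣ 3 := by exact_mod_cast hh
          exact h3 ((Nat.prime_dvd_prime_iff_eq (H.hp i) Nat.prime_three).1 h5)
        · exact k5 hh
      · exact hN hh
    · have e : (M : Eis) * W k - ((3 * l * N : ℤ) : Eis) * W (v i + v' i + v'' i) =
          lam * conj ((mm : Eis) - w * l) * (γ1 * γ2 * γ3 - N * W (v i + v' i + v'' i)) +
          ((mm - l : ℤ) : Eis) * (lam * (N * W (v i + v' i + v'' i))) := by
        rw [← hk, map_sub, map_mul, conj_w, conj_intCast, conj_intCast, lam_eq]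
        push_cast
        have hr := w_rel
        have hc := w_cube
        linear_combination (l * N * W (v i + v' i + v'' i) : Eis) * (hc - hr)
      rw [e]
      exact dvd_add (Dvd.dvd.mul_left hd _) (Dvd.dvd.mul_right (cast_dvd.2 k4) _)
  · -- the prime 3
    rw [not_not] at h3
    have h3A : (3 : ℤ) ∣ AA p e := by
      have := dvd_AA H i
      rw [h3] at this
      exact_mod_cast this
    have h27 : ¬ (3 : ℤ) ^ 3 ∣ AA p e := by
      have := cube_ndvd H i
      rw [h3] at this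
      exact_mod_cast this
    have q1 := hq1 i
    have q2 := hq2 i
    have q3 := hq3 i
    rw [h3] at q1 q2 q3 hd hN
    obtain ⟨_, y1, z1, r1, f1, g1⟩ := crd_three h3A h27 hC1 ht1 hs1 he1 q1
    obtain ⟨_, y2, z2, r2, f2, g2⟩ := crd_three h3A h27 hC2 ht2 hs2 he2 q2
    obtain ⟨_, y3, z3, r3, f3, g3⟩ := crd_three h3A h27 hC3 ht3 hs3 he3 q3
    have hN' : ¬ (3 : ℤ) ∣ N := by exact_mod_cast hN
    have hd' : (3 : Eis) ∣ γ1 * γ2 * γ3 - N * W (v i + v' i + v'' i) := by
      have e3 : ((3 : ℕ) : Eis) = 3 := by norm_num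
      rwa [e3] at hd
    obtain ⟨c1', hc1'⟩ := z1
    have hbb : (mm - l) * b1 = -27 * l * r1 - n * c1 := by
      linear_combination hl1 - l * f1
    obtain ⟨g, hg⟩ : (3 : ℤ) ∣ mm - l := by
      have h4 : (3 : ℤ) ∣ (mm - l) * b1 := ⟨-9 * l * r1 - n * c1', by rw [hbb, hc1']; ring⟩
      exact (prime3.dvd_or_dvd h4).resolve_right y1
    have hgE : (mm : Eis) - l = 3 * g := by
      have := congrArg (Int.cast : ℤ → Eis) hg
      push_cast at this
      exact this
    have eY : (mm : Eis) - w * l = lam * (l + g * conj lam) := by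
      have : lam * ((l : Eis) + g * conj lam) = lam * l + g * (lam * conj lam) := by ring
      rw [this, hlc, lam_eq]
      linear_combination hgE
    obtain ⟨A', hA'⟩ := h3A
    have hAE : ((AA p e : ℤ) : Eis) = 3 * A' := by rw [hA']; push_cast; ring
    have hc2 : ((n ^ 3 + AA p e * mm ^ 3 : ℤ) : Eis) * ((-b1 + 9 * r1 * (2 + w)) *
        (-b2 + 9 * r2 * (2 + w)) * (-b3 + 9 * r3 * (2 + w))) =
        (AA p e : Eis) * (l + g * conj lam) ^ 3 * ((a1 * a2 * a3 : ℤ) : Eis) := by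
      refine mul_left_cancel₀ (pow_ne_zero 3 prime_lam.ne_zero) ?_
      rw [g1, g2, g3, eY] at hcoll
      linear_combination hcoll
    have hn3 : (3 : ℤ) ∣ n := by
      have h4 : ((3 : ℕ) : Eis) ∣ (((n ^ 3 + AA p e * mm ^ 3) * (b1 * b2 * b3) : ℤ) : Eis) := by
        refine ⟨-((A' : Eis) * (l + g * conj lam) ^ 3 * ((a1 * a2 * a3 : ℤ) : Eis)) +
          3 * ((n ^ 3 + AA p e * mm ^ 3 : ℤ) : Eis) *
          ((r1 * (2 + w)) * (b2 * b3) + (r2 * (2 + w)) * (b1 * b3) + (r3 * (2 + w)) * (b1 * b2) -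
            9 * ((r1 * (2 + w)) * (r2 * (2 + w)) * b3 + (r1 * (2 + w)) * (r3 * (2 + w)) * b2 +
              (r2 * (2 + w)) * (r3 * (2 + w)) * b1) +
            81 * ((r1 * (2 + w)) * (r2 * (2 + w)) * (r3 * (2 + w)))), ?_⟩
        have e3 : ((3 : ℕ) : Eis) = 3 := by norm_num
        rw [e3, Int.cast_mul (n ^ 3 + AA p e * mm ^ 3)]
        generalize ((n ^ 3 + AA p e * mm ^ 3 : ℤ) : Eis) = D at hc2 ⊢
        rw [hAE] at hc2
        push_cast at hc2 ⊢
        linear_combination (-1 : Eis) * hc2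
      have h5 : (3 : ℤ) ∣ (n ^ 3 + AA p e * mm ^ 3) * (b1 * b2 * b3) := by
        have := cast_dvd.1 h4
        exact_mod_cast this
      have h6 : (3 : ℤ) ∣ n ^ 3 + AA p e * mm ^ 3 := by
        rcases prime3.dvd_or_dvd h5 with h6 | h6
        · exact h6
        · exfalso
          rcases prime3.dvd_or_dvd h6 with h6 | h6
          · rcases prime3.dvd_or_dvd h6 with h6 | h6
            · exact y1 h6
            · exact y2 h6
          · exact y3 h6
      have h7 : (3 : ℤ) ∣ n ^ 3 :=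
        (dvd_add_left (Dvd.dvd.mul_right (⟨A', hA'⟩ : (3 : ℤ) ∣ AA p e) _)).1 h6
      exact prime3.dvd_of_dvd_pow h7
    obtain ⟨n', hn'⟩ := hn3
    have hg3 : (3 : ℤ) ∣ g := by
      have h4 : (3 : ℤ) ∣ g * b1 := by
        refine ⟨-3 * l * r1 - n' * c1', ?_⟩
        have h5 : (3 : ℤ) * (g * b1) = 3 * (3 * (-3 * l * r1 - n' * c1')) := by
          rw [hg, hc1', hn'] at hbb
          linear_combination hbb
        exact mul_left_cancel₀ (by norm_num) h5
      exact (prime3.dvd_or_dvd h4).resolve_right y1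
    have hl3 : ¬ (3 : ℤ) ∣ l := by
      intro hl
      have hmm : (3 : ℤ) ∣ mm := by
        have := dvd_add (⟨g, hg⟩ : (3 : ℤ) ∣ mm - l) hl
        rwa [sub_add_cancel] at this
      apply prime3.not_dvd_one
      rw [← hpr]
      exact dvd_add (dvd_add (Dvd.dvd.mul_left hl _) (Dvd.dvd.mul_left hmm _))
        (Dvd.dvd.mul_left ⟨n', hn'⟩ _)
    -- the product
    have hk2 : (3 : Eis) * ((γ1 * γ2 * γ3) * (l + g * lam)) = M * W k := by
      rw [← hk, eY, map_mul, map_add, map_mul, conj_conj, conj_intCast, conj_intCast, ← hlc]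
      ring
    obtain ⟨M', hM'⟩ : (3 : ℤ) ∣ M := by
      have h4 : ((3 : ℕ) : Eis) ∣ (M : Eis) := by
        refine ⟨(γ1 * γ2 * γ3) * (l + g * lam) * W (-(k : ZMod 3)), ?_⟩
        have e3 : ((3 : ℕ) : Eis) = 3 := by norm_num
        rw [e3]
        linear_combination (-W (-(k : ZMod 3))) * hk2 - (M : Eis) * W_mul_neg (k : ZMod 3)
      have := cast_dvd.1 h4
      exact_mod_cast this
    have h3ne : (3 : Eis) ≠ 0 := by
      intro h
      have := congrArg Eis.re h
      rw [← hlc] at h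
      exact mul_ne_zero prime_lam.ne_zero (fun h5 => prime_lam.ne_zero (by
        have := congrArg conj h5
        rwa [conj_conj, map_zero] at this)) h
    have hk3 : (γ1 * γ2 * γ3) * (l + g * lam) = M' * W k := by
      refine mul_left_cancel₀ h3ne ?_
      rw [hk2, hM']
      push_cast
      ring
    refine (uniq (q := 3) (M := M') (N := N * l) (u := k) ?_ ?_).symm
    · intro hh
      have hh' : (3 : ℤ) ∣ N * l := by exact_mod_cast hh
      exact (prime3.dvd_or_dvd hh').elim hN' hl3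
    · obtain ⟨g', hg'⟩ := hg3
      obtain ⟨δ, hδ⟩ := hd'
      refine ⟨δ * l + γ1 * γ2 * γ3 * g' * lam, ?_⟩
      have e3 : ((3 : ℕ) : Eis) = 3 := by norm_num
      have hgE' : (g : Eis) = 3 * g' := by rw [hg']; push_cast; ring
      rw [e3, ← hk3, hgE']
      push_cast
      linear_combination (l : Eis) * hδ

end

section

variable {m : ℕ} {p e : Fin m → ℕ} (H : HypT p e)
include H

theorem cubeFree : CubeFree (AA p e) := by
  intro q hq hdvd
  have hqA : q ∣ AA p e := (dvd_pow_self q (by norm_num)).trans hdvd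
  obtain ⟨i, -, hi⟩ := (Prime.dvd_finsetProd_iff hq _).mp hqA
  have hi' : q ∣ (p i : ℤ) := hq.dvd_of_dvd_pow hi
  have hass : Associated q (p i : ℤ) :=
    (Prime.dvd_prime_iff_associated hq (Nat.prime_iff_prime_int.mp (H.hp i))).mp hi'
  exact cube_ndvd H i ((hass.pow_pow (n := 3)).symm.dvd.trans hdvd)

/-- the third point on the line through two points with a class is lifted -/
theorem lft_third (h1 : BasicsStmt) (h2 : CollStmt) {P Q R : GA (AA p e)}
    {v v' : Fin m → ZMod 3} (h : KapG p e P v) (h' : KapG p e Q v') (h0 : P + Q + R = 0)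
    (hP : P ≠ 0) (hQ : Q ≠ 0) : Lft (AA p e) R := by
  by_cases hR : R = 0
  · exact Or.inl hR
  have hA0 := AA_ne H
  rw [kapG_iff] at h h'
  obtain ⟨a1, b1, c1, γ1, t1, s1, hC1, ht1, hs1, he1, hq1⟩ := h.resolve_left fun h => hP h.1
  obtain ⟨a2, b2, c2, γ2, t2, s2, hC2, ht2, hs2, he2, hq2⟩ := h'.resolve_left fun h => hQ h.1
  obtain ⟨a3, b3, c3, hC3⟩ := (h1 _ hA0).1 (cubeFree H) R hR
  obtain ⟨l, mm, n, ⟨u, z, t, hpr⟩, hl1, _, _, hcoll⟩ := h2 (AA p e) hA0 (not_cube H)
    P Q R a1 b1 c1 a2 b2 c2 a3 b3 c3 h0 hC1 hC2 hC3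
  -- no coordinate `a` is zero
  have ha : ∀ {S : GA (AA p e)} {a b c : ℤ}, Crd (AA p e) S a b c → a ≠ 0 := by
    intro S a b c hC ha
    obtain ⟨_, hco, heq, _⟩ := hC
    rw [ha] at heq hco
    have hb : IsUnit b := isCoprime_zero_left.1 hco
    obtain ⟨i, _⟩ := H.ex
    have hZ := Nat.prime_iff_prime_int.mp (H.hp i)
    have h3 : (p i : ℤ) ∣ b ^ 3 := by
      have h4 : (p i : ℤ) ∣ AA p e * c ^ 3 := (dvd_AA H i).mul_right _
      rw [← heq] at h4
      simpa using h4
    exact hZ.not_isUnit (isUnit_of_dvd_unit h3 (hb.pow 3))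
  have hD : n ^ 3 + AA p e * mm ^ 3 ≠ 0 := by
    intro hD
    by_cases hm0 : mm = 0
    · have hn0 : n = 0 := by
        rw [hm0] at hD
        have : n ^ 3 = 0 := by linarith [hD]
        exact pow_eq_zero_iff (by norm_num) |>.1 this
      rw [hm0, hn0] at hl1 hpr
      have hl0 : l ≠ 0 := by
        rintro rfl
        norm_num at hpr
      have : l * a1 = 0 := by linarith
      exact (mul_ne_zero hl0 (ha hC1)) this
    · have h4 : mm ^ 3 ∣ n ^ 3 := ⟨-AA p e, by linear_combination hD⟩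
      obtain ⟨k, hk⟩ := (Int.pow_dvd_pow_iff (by norm_num)).1 h4
      apply not_cube H
      refine ⟨-k, ?_⟩
      have h5 : mm ^ 3 ≠ 0 := pow_ne_zero 3 hm0
      refine mul_left_cancel₀ h5 ?_
      rw [hk] at hD
      linear_combination -hD
  have hγ : ∀ {a b c t s : ℤ} {S : GA (AA p e)} {γ : Eis}, Crd (AA p e) S a b c → t ≠ 0 →
      (t : Eis) * ((a : Eis) + w * b) = s * (lam * γ ^ 3) → γ.norm ≠ 0 := by
    intro a b c t s S γ hC ht he h
    rw [norm_eq_zero] at h
    rw [h] at he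
    have hre := congrArg Eis.re he
    simp [lam_eq] at hre
    exact hre.elim ht (ha hC)
  have hlam : lam ^ 6 = -27 := by
    have hr := w_rel
    have hc := w_cube
    have e1 : lam ^ 2 = -3 * w := by
      rw [lam_eq]
      linear_combination hr
    calc lam ^ 6 = (lam ^ 2) ^ 3 := by ring
      _ = -27 := by rw [e1]; linear_combination (-27 : Eis) * hc
  refine Or.inr ⟨a3, b3, c3, lam * ((mm : Eis) - w * l) * conj (γ1 * γ2),
    -27 * ((n ^ 3 + AA p e * mm ^ 3) * (s1 * s2)) * (γ1.norm * γ2.norm) ^ 3,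
    t1 * t2 * (AA p e * (a1 * a2 * a3)), hC3, ?_, ?_, ?_⟩
  · exact mul_ne_zero (mul_ne_zero (by norm_num) (mul_ne_zero hD (mul_ne_zero hs1 hs2)))
      (pow_ne_zero 3 (mul_ne_zero (hγ hC1 ht1 he1) (hγ hC2 ht2 he2)))
  · exact mul_ne_zero (mul_ne_zero ht1 ht2)
      (mul_ne_zero hA0 (mul_ne_zero (mul_ne_zero (ha hC1) (ha hC2)) (ha hC3)))
  · have n1 := mul_conj γ1
    have n2 := mul_conj γ2
    push_cast at hcoll ⊢
    rw [← n1, ← n2, map_mul]
    generalize conj γ1 = g1 at *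
    generalize conj γ2 = g2 at *
    have e1 : (n ^ 3 + (AA p e : Eis) * mm ^ 3) * (((s1 : Eis) * (lam * γ1 ^ 3)) *
        ((s2 : Eis) * (lam * γ2 ^ 3)) * ((a3 : Eis) + w * b3)) =
        (t1 : Eis) * t2 * ((AA p e : Eis) * ((mm : Eis) - w * l) ^ 3 * (a1 * a2 * a3)) := by
      rw [← he1, ← he2]
      linear_combination ((t1 : Eis) * t2) * hcoll
    have e2 : (-27 : Eis) * ((n ^ 3 + (AA p e : Eis) * mm ^ 3) * (s1 * s2)) *
        (γ1 * g1 * (γ2 * g2)) ^ 3 * ((a3 : Eis) + w * b3) =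
        lam ^ 4 * (g1 * g2) ^ 3 * ((n ^ 3 + (AA p e : Eis) * mm ^ 3) *
          (((s1 : Eis) * (lam * γ1 ^ 3)) * ((s2 : Eis) * (lam * γ2 ^ 3)) *
            ((a3 : Eis) + w * b3))) := by
      linear_combination (-(n ^ 3 + (AA p e : Eis) * mm ^ 3) * (s1 * s2) *
        (γ1 * g1 * (γ2 * g2)) ^ 3 * ((a3 : Eis) + w * b3)) * hlam
    rw [e2, e1]
    ring

end

end TKapAdd

open _root_.Pool.Agent.CubeRank.TKapAdd GKapAdd in
/-- (T2) the class is additive -/
theorem kapAddT (h1 : BasicsStmt) (h2 : CollStmt) (h3 : KapExStmtT) : KapAddStmtT := by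
  intro m p e H P Q v v' hv hv'
  obtain ⟨v'', hv''⟩ : ∃ v'', KapG p e (-(P + Q)) v'' := by
    by_cases hP : P = 0
    · rw [hP, zero_add]
      exact ⟨_, TKapAdd.kap_neg H h1 hv'⟩
    by_cases hQ : Q = 0
    · rw [hQ, add_zero]
      exact ⟨_, TKapAdd.kap_neg H h1 hv⟩
    exact h3 m p e H (-(P + Q)) (lft_third H h1 h2 hv hv' (by abel) hP hQ)
  obtain ⟨c, hc⟩ := TKapAdd.kap_sum H h1 h2 hv hv' hv'' (by abel)
  have h4 := TKapAdd.kap_neg H h1 hv''
  rw [neg_neg] at h4
  have h5 := TKapAdd.kap_shift H h4 c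
  have e1 : (fun i => - v'' i + c) = v + v' := by
    funext i
    rw [Pi.add_apply, ← hc i]
    ring
  rwa [e1] at h5

end Pool.Agent.CubeRank


end

section

/-!
# Two points with the same `μ` differ by a lifted point (module T_DIFF)
-/

set_option autoImplicit false

namespace Pool.Agent.CubeRank

open Pool.Agent.Lib_helper18 Pool.Agent.Lib_helper18.Eis Pool.Agent.Lib_helper84.Cub

namespace TDiff

theorem crd_a_ne {A : ℤ} (hnc : ¬ ∃ n : ℤ, n ^ 3 = A) {P : GA A} {a b c : ℤ}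
    (h : Crd A P a b c) : a ≠ 0 := by
  rintro rfl
  obtain ⟨_, hco, he, _⟩ := h
  have hb : IsUnit b := isCoprime_zero_left.mp hco
  rw [zero_pow (by norm_num), zero_add] at he
  have hA : IsUnit A := by
    refine isUnit_of_dvd_unit (Dvd.intro _ he.symm) ?_
    exact hb.pow 3
  rcases Int.isUnit_iff.mp hA with h | h
  · exact hnc ⟨1, by rw [h]; norm_num⟩
  · exact hnc ⟨-1, by rw [h]; norm_num⟩

theorem lin_zero {x y : ℤ} (h : (x : Eis) - w * y = 0) : x = 0 ∧ y = 0 := by
  have h1 := congrArg Eis.re h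
  have h2 := congrArg Eis.im h
  simp at h1 h2
  exact ⟨h1, h2⟩

end TDiff

open _root_.Pool.Agent.CubeRank.TDiff

/-- (T4b) -/
theorem diffT (h1 : BasicsStmt) (h2 : CollStmt) : DiffStmtT := by
  intro A hA hcf hnc P Q a b c a' b' c' μ γ γ' hP hQ hμ hμ'
  by_cases hPQ : P = Q
  · left
    rw [hPQ, sub_self]
  right
  obtain ⟨hex, -, -, -, hneg⟩ := h1 A hA
  obtain ⟨a3, b3, c3, hR⟩ := hex hcf (P - Q) (sub_ne_zero.mpr hPQ)
  have hnP := (hneg P a b c hP).1
  obtain ⟨l, m, n, ⟨u, v, t, huvt⟩, hl1, -, -, hE⟩ := h2 A hA hnc (-P) Q (P - Q) b a c a' b' c'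
    a3 b3 c3 (by abel) hnP hQ hR
  -- nonvanishing
  have hb0 : b ≠ 0 := crd_a_ne hnc hnP
  have ha'0 : a' ≠ 0 := crd_a_ne hnc hQ
  have ha30 : a3 ≠ 0 := crd_a_ne hnc hR
  have hB : b * a' * a3 ≠ 0 := mul_ne_zero (mul_ne_zero hb0 ha'0) ha30
  have hM : (m : Eis) - w * l ≠ 0 := by
    intro h0
    obtain ⟨hm0, hl0⟩ := lin_zero h0
    rw [hm0, hl0] at hl1 huvt
    have hn0 : n * c = 0 := by linarith
    rcases mul_eq_zero.mp hn0 with h | h
    · rw [h] at huvt
      omega
    · exact hP.1 h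
  have hcast : ∀ z : ℤ, z ≠ 0 → (z : Eis) ≠ 0 := by
    intro z hz h0
    have := congrArg Eis.re h0
    simp at this
    exact hz this
  have hrhs : (A : Eis) * ((m : Eis) - w * l) ^ 3 * ((b * a' * a3 : ℤ) : Eis) ≠ 0 :=
    mul_ne_zero (mul_ne_zero (hcast A hA) (pow_ne_zero 3 hM)) (hcast _ hB)
  have hlhs := hrhs
  rw [← hE] at hlhs
  have hD : n ^ 3 + A * m ^ 3 ≠ 0 := by
    intro h0
    rw [h0] at hlhs
    simp at hlhs
  have hzQ : (a' : Eis) + w * b' ≠ 0 := by
    intro h0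
    rw [h0] at hlhs
    simp at hlhs
  have hzP : (b : Eis) + w * a ≠ 0 := by
    intro h0
    rw [h0] at hlhs
    simp at hlhs
  have hμ0 : μ ≠ 0 := by
    rintro rfl
    rw [zero_mul] at hμ'
    exact hzQ hμ'
  have hγ'0 : γ' ≠ 0 := by
    rintro rfl
    rw [zero_pow (by norm_num), mul_zero] at hμ'
    exact hzQ hμ'
  -- conjugation
  have hconj : (b : Eis) + w * a = w * (conj μ * conj γ ^ 3) := by
    have e1 := congrArg conj hμ
    simp only [map_mul, map_add, map_pow, conj_intCast, conj_w] at e1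
    rw [← e1]
    linear_combination (-(b : Eis)) * w_cube
  have hγ0 : γ ≠ 0 := by
    rintro rfl
    rw [map_zero, zero_pow (by norm_num), mul_zero, mul_zero] at hconj
    exact hzP hconj
  have h4 : lam ^ 4 = 9 * w ^ 2 := by
    rw [lam_eq]
    linear_combination (w ^ 2 - 5 * w + 1) * w_rel
  have eμ := mul_conj μ
  have eγ := mul_conj γ
  have eγ' := mul_conj γ'
  rw [hconj, hμ'] at hE
  refine ⟨a3, b3, c3, lam * (((m : Eis) - w * l) * (γ * conj γ')),
    9 * (n ^ 3 + A * m ^ 3) * μ.norm * (γ.norm * γ'.norm) ^ 3, A * (b * a' * a3), hR, ?_, ?_, ?_⟩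
  · have e1 : μ.norm ≠ 0 := fun h => hμ0 (norm_eq_zero.mp h)
    have e2 : γ.norm ≠ 0 := fun h => hγ0 (norm_eq_zero.mp h)
    have e3 : γ'.norm ≠ 0 := fun h => hγ'0 (norm_eq_zero.mp h)
    exact mul_ne_zero (mul_ne_zero (mul_ne_zero (by norm_num) hD) e1)
      (pow_ne_zero 3 (mul_ne_zero e2 e3))
  · exact mul_ne_zero hA hB
  · push_cast at hE ⊢
    rw [← eμ, ← eγ, ← eγ']
    linear_combination (9 * w ^ 2 * (γ * conj γ') ^ 3) * hE -
      (9 * ((n : Eis) ^ 3 + A * m ^ 3) * (μ * conj μ) *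
        ((γ * conj γ) * (γ' * conj γ')) ^ 3 * ((a3 : Eis) + w * b3)) * w_cube -
      ((A : Eis) * ((b : Eis) * a' * a3) * ((m : Eis) - w * l) ^ 3 * (γ * conj γ') ^ 3) * h4

end Pool.Agent.CubeRank


end

section

/-!
# `a + ω b` is a cube times an element of bounded norm (T4)
-/

set_option autoImplicit false

namespace Pool.Agent.CubeRank

open Pool.Agent.Lib_helper18 Pool.Agent.Lib_helper18.Eis

namespace TClsAux

/-- every nonzero element is `s t² γ³` with `s t` squarefree -/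
theorem decomp (z : Eis) (hz : z ≠ 0) :
    ∃ s t γ : Eis, z = s * t ^ 2 * γ ^ 3 ∧ Squarefree (s * t) := by
  induction z using UniqueFactorizationMonoid.induction_on_prime with
  | h₁ => exact absurd rfl hz
  | h₂ x hx => exact ⟨x, 1, 1, by ring, by rw [mul_one]; exact hx.squarefree⟩
  | h₃ a p ha hp ih =>
    obtain ⟨s, t, γ, h1, h2⟩ := ih ha
    by_cases hs : p ∣ s
    · obtain ⟨s1, rfl⟩ := hs
      refine ⟨s1, p * t, γ, by rw [h1]; ring, ?_⟩
      have e : s1 * (p * t) = p * s1 * t := by ring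
      rw [e]
      exact h2
    · by_cases ht : p ∣ t
      · obtain ⟨t1, rfl⟩ := ht
        refine ⟨s, t1, p * γ, by rw [h1]; ring, ?_⟩
        have e : s * (p * t1) = (s * t1) * p := by ring
        rw [e] at h2
        exact h2.squarefree_of_dvd (dvd_mul_right _ _)
      · refine ⟨p * s, t, γ, by rw [h1]; ring, ?_⟩
        have e : p * s * t = p * (s * t) := by ring
        rw [e]
        have hst : ¬ p ∣ s * t := fun h => (hp.dvd_or_dvd h).elim hs ht
        rw [squarefree_mul_iff]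
        refine ⟨?_, hp.irreducible.squarefree, h2⟩
        rw [hp.irreducible.isRelPrime_iff_not_dvd]
        exact hst

/-- all primes of `r` divide `B` -/
theorem dvd_pow_of_primes (B r : Eis) (hr : r ≠ 0) (h : ∀ q : Eis, Prime q → q ∣ r → q ∣ B) :
    ∃ n : ℕ, r ∣ B ^ n := by
  induction r using UniqueFactorizationMonoid.induction_on_prime with
  | h₁ => exact absurd rfl hr
  | h₂ x hx => exact ⟨0, by rw [pow_zero]; exact hx.dvd⟩
  | h₃ a p ha hp ih =>
    obtain ⟨n, hn⟩ := ih ha fun q hq hqa => h q hq (dvd_mul_of_dvd_right hqa _)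
    refine ⟨n + 1, ?_⟩
    rw [pow_succ, mul_comm]
    exact mul_dvd_mul hn (h p hp (dvd_mul_right _ _))

theorem sqf_dvd {B r : Eis} (hr : Squarefree r) (h : ∀ q : Eis, Prime q → q ∣ r → q ∣ B) :
    r ∣ B := by
  obtain ⟨n, hn⟩ := dvd_pow_of_primes B r hr.ne_zero h
  exact hr.isRadical n B hn

theorem N_pos {x : Eis} (hx : x ≠ 0) : 0 < N x := by
  have := norm_pos hx
  unfold N
  omega

theorem N_le_of_dvd {x y : Eis} (hy : y ≠ 0) (h : x ∣ y) : N x ≤ N y := by
  obtain ⟨m, rfl⟩ := h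
  rw [N_mul]
  have hm : m ≠ 0 := by
    rintro rfl
    simp at hy
  exact Nat.le_mul_of_pos_right _ (N_pos hm)

/-- multiplicities: no prime dividing `s t` can be prime to the other factors -/
theorem mult_contra {p s t γ x A c : Eis} (hp : Prime p) (hst : Squarefree (s * t))
    (hpst : p ∣ s * t) (hx : ¬ p ∣ x) (hA : ¬ p ∣ A) (hc : c ≠ 0)
    (h : s * t ^ 2 * γ ^ 3 * x = A * c ^ 3) : False := by
  have hA0 : A ≠ 0 := by rintro rfl; exact hA (dvd_zero _)
  have hR : A * c ^ 3 ≠ 0 := mul_ne_zero hA0 (pow_ne_zero _ hc)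
  have hL : s * t ^ 2 * γ ^ 3 * x ≠ 0 := by rw [h]; exact hR
  have hx0 : x ≠ 0 := right_ne_zero_of_mul hL
  have h1 := left_ne_zero_of_mul hL
  have hγ3 : γ ^ 3 ≠ 0 := right_ne_zero_of_mul h1
  have h2 := left_ne_zero_of_mul h1
  have ht2 : t ^ 2 ≠ 0 := right_ne_zero_of_mul h2
  have hs0 : s ≠ 0 := left_ne_zero_of_mul h2
  have hγ : γ ≠ 0 := fun e => hγ3 (by rw [e]; simp)
  have ht : t ≠ 0 := fun e => ht2 (by rw [e]; simp)
  have fin : ∀ {y : Eis}, y ≠ 0 → FiniteMultiplicity p y := fun hy =>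
    FiniteMultiplicity.of_prime_left hp hy
  have e1 : multiplicity p (s * t ^ 2 * γ ^ 3 * x) = multiplicity p (A * c ^ 3) := by rw [h]
  rw [multiplicity_mul hp (fin hL), multiplicity_mul hp (fin h1), multiplicity_mul hp (fin h2),
    multiplicity_mul hp (fin hR), (fin ht).multiplicity_pow hp, (fin hγ).multiplicity_pow hp,
    (fin hc).multiplicity_pow hp, multiplicity_eq_zero.mpr hx, multiplicity_eq_zero.mpr hA] at e1
  have e2 : multiplicity p (s * t) = multiplicity p s + multiplicity p t :=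
    multiplicity_mul hp (fin (mul_ne_zero hs0 ht))
  have e3 : multiplicity p (s * t) ≤ 1 := by
    by_contra hcon
    push Not at hcon
    have h4 : p ^ 2 ∣ s * t := (pow_dvd_pow p hcon).trans (pow_multiplicity_dvd p (s * t))
    rw [pow_two] at h4
    exact hp.not_isUnit (hst p h4)
  have e4 : multiplicity p (s * t) ≠ 0 := by
    intro h0
    exact (multiplicity_eq_zero.mp h0) hpst
  omega

/-- a prime above `q = 2 mod 3` is `q` itself -/
theorem inert {l : Eis} (hl : Prime l) {q : ℕ} (hq : q.Prime) (h : q % 3 = 2) (hlq : l ∣ (q : Eis)) :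
    (q : Eis) ∣ l := by
  obtain ⟨q', hq', hlq', hn⟩ := exists_rational_prime hl
  have hqq : q' = q := by
    by_contra hne
    have hcop : Nat.Coprime q' q := (Nat.coprime_primes hq' hq).mpr hne
    have h1 : IsCoprime (q' : ℤ) (q : ℤ) := Nat.isCoprime_iff_coprime.mpr hcop
    obtain ⟨u, v, huv⟩ := h1
    have h2 : l ∣ 1 := by
      have e : (1 : Eis) = (u : Eis) * (q' : Eis) + (v : Eis) * (q : Eis) := by
        have := congrArg (fun n : ℤ => (n : Eis)) huv
        push_cast at this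
        exact this.symm
      rw [e]
      exact dvd_add (dvd_mul_of_dvd_right hlq' _) (dvd_mul_of_dvd_right hlq _)
    exact hl.not_isUnit (isUnit_of_dvd_one h2)
  subst hqq
  have hn2 : l.norm = (q' : ℤ) ^ 2 := by
    rcases hn with hn | hn
    · exfalso
      have := norm_emod_three l
      rw [hn] at this
      omega
    · exact hn
  obtain ⟨m, hm⟩ := hlq
  have h3 : (q' : ℤ) ^ 2 = l.norm * m.norm := by rw [← norm_mul, ← hm, norm_natCast]
  have hq0 : (q' : ℤ) ^ 2 ≠ 0 := by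
    have := hq.pos
    positivity
  have h4 : m.norm = 1 := by
    rw [hn2] at h3
    have : (q' : ℤ) ^ 2 * 1 = (q' : ℤ) ^ 2 * m.norm := by rw [mul_one]; exact h3
    exact (mul_left_cancel₀ hq0 this).symm
  have h5 : IsUnit m := isUnit_iff_norm.mpr h4
  obtain ⟨n, hn'⟩ := h5.exists_right_inv
  exact ⟨n, by rw [hm, mul_assoc, hn', mul_one]⟩

theorem not_dvd_coprime {p : Eis} (hp : Prime p) {a b : ℤ} (h : IsCoprime a b)
    (ha : p ∣ (a : Eis)) (hb : p ∣ (b : Eis)) : False := by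
  obtain ⟨u, v, huv⟩ := h
  have h2 : p ∣ 1 := by
    have e : (1 : Eis) = (u : Eis) * (a : Eis) + (v : Eis) * (b : Eis) := by
      have := congrArg (fun n : ℤ => (n : Eis)) huv
      push_cast at this
      exact this.symm
    rw [e]
    exact dvd_add (dvd_mul_of_dvd_right ha _) (dvd_mul_of_dvd_right hb _)
  exact hp.not_isUnit (isUnit_of_dvd_one h2)

end TClsAux

open _root_.Pool.Agent.CubeRank.TClsAux in
theorem clsT : ClsStmtT := by
  intro A0 A hA0 hA hq a b c hc hab heq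
  set z : Eis := (a : Eis) + w * b with hz
  have hzre : z.re = a := by simp [hz]
  have hzim : z.im = b := by simp [hz]
  have hz0 : z ≠ 0 := by
    intro h
    have ha : a = 0 := by rw [← hzre, h]; rfl
    have hb : b = 0 := by rw [← hzim, h]; rfl
    rw [ha, hb] at hab
    have := isCoprime_zero_left.mp hab
    simp at this
  have hcz : conj z = (a : Eis) + w ^ 2 * b := by
    rw [hz, map_add, map_mul, conj_w, conj_intCast, conj_intCast]
  have hcube : z * (conj z * ((a : Eis) + b)) = (A : Eis) * (c : Eis) ^ 3 := by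
    have e := congrArg (fun n : ℤ => (n : Eis)) heq
    push_cast at e
    rw [← e, hcz, hz]
    have h1 := w_rel
    have h3 := w_cube
    linear_combination ((a : Eis) ^ 2 * b + a * b ^ 2) * h1 + ((a : Eis) * b ^ 2 + b ^ 3) * h3
  obtain ⟨s, t, γ, h1, h2⟩ := decomp z hz0
  have hst0 : s * t ≠ 0 := h2.ne_zero
  have hcE : (c : Eis) ≠ 0 := by
    intro h
    have := congrArg Eis.re h
    simp at this
    exact hc this
  -- primes of s t divide 3 A0
  have key : ∀ p : Eis, Prime p → p ∣ s * t → p ∣ ((3 * A0 : ℤ) : Eis) := by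
    intro p hp hpst
    have e3 : ((3 * A0 : ℤ) : Eis) = 3 * (A0 : Eis) := by push_cast; ring
    rw [e3]
    by_cases hp3 : p ∣ 3
    · exact dvd_mul_of_dvd_left hp3 _
    refine dvd_mul_of_dvd_right ?_ _
    have hpz : p ∣ z := by
      rw [h1]
      refine dvd_mul_of_dvd_left ?_ _
      rcases hp.dvd_or_dvd hpst with h | h
      · exact dvd_mul_of_dvd_left h _
      · exact dvd_mul_of_dvd_right (dvd_pow h two_ne_zero) _
    have hplam : ¬ p ∣ lam := fun h => hp3 (h.trans lam_dvd_three)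
    have hpw : ¬ p ∣ w := by
      intro h
      have : p ∣ w ^ 3 := dvd_pow h (by norm_num)
      rw [w_cube] at this
      exact hp.not_isUnit (isUnit_of_dvd_one this)
    have hpb : ¬ p ∣ (b : Eis) := by
      intro h
      have ha : p ∣ (a : Eis) := by
        have := dvd_sub hpz (dvd_mul_of_dvd_right h w)
        rw [hz, add_sub_cancel_right] at this
        exact this
      exact not_dvd_coprime hp hab ha h
    have hpcz : ¬ p ∣ conj z := by
      intro h
      have h4 := dvd_sub hpz h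
      have e : z - conj z = w * lam * (b : Eis) := by
        rw [hcz, hz, lam_eq]
        ring
      rw [e] at h4
      rcases hp.dvd_or_dvd h4 with h5 | h5
      · rcases hp.dvd_or_dvd h5 with h6 | h6
        · exact hpw h6
        · exact hplam h6
      · exact hpb h5
    have hpab : ¬ p ∣ ((a : Eis) + b) := by
      intro h
      have h4 := dvd_sub h hpz
      have e : (a : Eis) + b - z = lam * (b : Eis) := by
        rw [hz, lam_eq]
        ring
      rw [e] at h4
      rcases hp.dvd_or_dvd h4 with h5 | h5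
      · exact hplam h5
      · exact hpb h5
    have hpx : ¬ p ∣ conj z * ((a : Eis) + b) := fun h => (hp.dvd_or_dvd h).elim hpcz hpab
    have hpA : p ∣ (A : Eis) := by
      by_contra hcon
      refine mult_contra hp h2 hpst hpx hcon hcE ?_ (γ := γ)
      rw [← h1]
      exact hcube
    obtain ⟨q, hqp, hpq, -⟩ := exists_rational_prime hp
    have hqA : (q : ℤ) ∣ A := by
      by_contra hcon
      have hcop : IsCoprime (q : ℤ) A :=
        ((Nat.prime_iff_prime_int.mp hqp).irreducible.coprime_iff_not_dvd).mpr hcon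
      exact not_dvd_coprime hp hcop (by rw [Int.cast_natCast]; exact hpq) hpA
    rcases hq q hqp hqA with hq2 | hqA0
    · exfalso
      have h4 : (q : Eis) ∣ z := (inert hp hqp hq2 hpq).trans hpz
      rw [natCast_dvd_iff, hzre, hzim] at h4
      have h5 := hab.isUnit_of_dvd' h4.1 h4.2
      have h6 := (Nat.prime_iff_prime_int.mp hqp).not_isUnit
      exact h6 h5
    · refine hpq.trans ?_
      have h4 := intCast_dvd_intCast.mpr hqA0
      rwa [Int.cast_natCast] at h4
  have hdvd : s * t ∣ ((3 * A0 : ℤ) : Eis) := sqf_dvd h2 key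
  have h3A0 : ((3 * A0 : ℤ) : Eis) ≠ 0 := by
    intro h
    have := congrArg Eis.re h
    rw [intCast_re, zero_re] at this
    omega
  refine ⟨s * t ^ 2, γ, h1, ?_⟩
  have h5 : s * t ^ 2 ∣ (s * t) ^ 2 := ⟨s, by ring⟩
  have h6 : N (s * t ^ 2) ≤ N ((s * t) ^ 2) := N_le_of_dvd (pow_ne_zero _ hst0) h5
  have h7 : N (s * t) ≤ N ((3 * A0 : ℤ) : Eis) := N_le_of_dvd h3A0 hdvd
  have h8 : N ((3 * A0 : ℤ) : Eis) = 9 * A0.natAbs ^ 2 := by
    unfold N
    rw [norm_intCast, Int.natAbs_pow, Int.natAbs_mul]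
    norm_num
    ring
  have h9 : N ((s * t) ^ 2) = N (s * t) ^ 2 := by rw [pow_two, N_mul, pow_two]
  rw [h8] at h7
  calc N (s * t ^ 2) ≤ N ((s * t) ^ 2) := h6
    _ = N (s * t) ^ 2 := h9
    _ ≤ (9 * A0.natAbs ^ 2) ^ 2 := Nat.pow_le_pow_left h7 2
    _ = 81 * A0.natAbs ^ 4 := by ring

end Pool.Agent.CubeRank


end

section

/-!
# The average rank in the family of all twists of a given curve by inert primes
-/

set_option autoImplicit false

namespace Pool.Agent.CubeRank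

open Pool.Agent.Lib_helper18 Pool.Agent.Lib_helper18.Eis Pool.Agent.Lib_helper84.Cub

namespace TMain

section append

variable {m0 k : ℕ} {p0 e0 : Fin m0 → ℕ} {q : Fin k → ℕ}

theorem AA_append (f : Fin k → ℕ) :
    AA (Fin.append p0 q) (Fin.append e0 f) =
      (∏ i, (p0 i : ℤ) ^ e0 i) * ∏ i, (q i : ℤ) ^ f i := by
  unfold AA
  rw [Fin.prod_univ_add]
  simp only [Fin.append_left, Fin.append_right]

variable (hp0 : ∀ i, (p0 i).Prime) (inj0 : Function.Injective p0)
  (he0 : ∀ i, e0 i = 1 ∨ e0 i = 2) (hne : ∀ i j, p0 i ≠ q j)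
  (hq : ∀ i, (q i).Prime) (h3 : ∀ i, q i % 3 = 2)
  (hinj : Function.Injective q) (hex : ∃ i, q i % 9 ≠ 8)

include hp0 inj0 he0 hne hq h3 hinj hex in
theorem hypT_append {f : Fin k → ℕ} (hf : ∀ i, f i = 1 ∨ f i = 2) :
    HypT (Fin.append p0 q) (Fin.append e0 f) where
  hp := fun i => by
    refine Fin.addCases (fun i => ?_) (fun i => ?_) i
    · rw [Fin.append_left]; exact hp0 i
    · rw [Fin.append_right]; exact hq i
  inj := by
    intro i j
    refine Fin.addCases (fun i => ?_) (fun i => ?_) i <;>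
      refine Fin.addCases (fun j => ?_) (fun j => ?_) j
    · rw [Fin.append_left, Fin.append_left]; intro h; rw [inj0 h]
    · rw [Fin.append_left, Fin.append_right]; intro h; exact absurd h (hne i j)
    · rw [Fin.append_left, Fin.append_right]; intro h; exact absurd h.symm (hne j i)
    · rw [Fin.append_right, Fin.append_right]; intro h; rw [hinj h]
  he := fun i => by
    refine Fin.addCases (fun i => ?_) (fun i => ?_) i
    · rw [Fin.append_left]; exact he0 i
    · rw [Fin.append_right]; exact hf i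
  ex := by
    obtain ⟨i, hi⟩ := hex
    refine ⟨Fin.natAdd m0 i, ?_⟩
    rw [Fin.append_right]
    have := h3 i
    omega

include hp0 inj0 he0 hne hq h3 hinj hex in
open Classical in
theorem family (hk : 1 ≤ k) :
    2 ^ ((nT q + 1) / 2) * ∑ f ∈ Ex k,
      4 ^ Module.finrank (ZMod 3) (WW (Fin.append p0 q) (Fin.append e0 f)) ≤
        9 * 4 ^ m0 * 8 ^ k := by
  have hAdd : KapAddStmtT := kapAddT basics coll (kapExT)
  have hRep : KapRepStmtT := kapRepT basics triple
  have hT := nT_le (q := q)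
  have hinjA : Function.Injective (fun f : Fin k → ℕ => (Fin.append e0 f : Fin (m0 + k) → ℕ)) := by
    intro f g hfg
    funext i
    have := congrFun hfg (Fin.natAdd m0 i)
    simpa only [Fin.append_right] using this
  have h1 : ∑ f ∈ Ex k, 4 ^ Module.finrank (ZMod 3) (WW (Fin.append p0 q) (Fin.append e0 f)) ≤
      3 * (2 ^ (m0 + k) * (2 ^ (m0 + k) * (2 ^ (nT q / 2 + (k - nT q)) + 2))) := by
    rw [← Finset.sum_fiberwise_of_maps_to (t := Finset.univ)
      (g := fun f => tg (Fin.append p0 q) (Fin.append e0 f)) (fun _ _ => Finset.mem_univ _)]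
    have key : ∀ c : ZMod 3, ∑ f ∈ (Ex k).filter
        (fun f => tg (Fin.append p0 q) (Fin.append e0 f) = c),
        4 ^ Module.finrank (ZMod 3) (WW (Fin.append p0 q) (Fin.append e0 f)) ≤
        2 ^ (m0 + k) * (2 ^ (m0 + k) * (2 ^ (nT q / 2 + (k - nT q)) + 2)) := by
      intro c
      have hI : ∀ i ∈ (Finset.univ.map (Fin.natAddEmb m0) : Finset (Fin (m0 + k))),
          Fin.append p0 q i % 3 = 2 := by
        intro i hi
        obtain ⟨j, -, rfl⟩ := Finset.mem_map.mp hi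
        rw [Fin.natAddEmb_apply, Fin.append_right]
        exact h3 j
      have hmain := sum_class hAdd hRep (by omega : 1 ≤ m0 + k) (Fin.append p0 q)
        (Finset.univ.map (Fin.natAddEmb m0)) hI
        (((Ex k).filter (fun f => tg (Fin.append p0 q) (Fin.append e0 f) = c)).image
          (fun f : Fin k → ℕ => (Fin.append e0 f : Fin (m0 + k) → ℕ)))
        (fun e he => by
          obtain ⟨f, hf, rfl⟩ := Finset.mem_image.mp he
          exact hypT_append hp0 inj0 he0 hne hq h3 hinj hex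
            (mem_Ex.mp (Finset.mem_filter.mp hf).1))
        (fun e he e' he' => by
          obtain ⟨f, hf, rfl⟩ := Finset.mem_image.mp he
          obtain ⟨g, hg, rfl⟩ := Finset.mem_image.mp he'
          refine ⟨fun i => ?_, ?_⟩
          · refine Fin.addCases (fun i => ?_) (fun i => ?_) i
            · intro _
              rw [Fin.append_left, Fin.append_left]
            · intro hi
              exact absurd (Finset.mem_map.mpr ⟨i, Finset.mem_univ _, rfl⟩) hi
          · rw [(Finset.mem_filter.mp hf).2, (Finset.mem_filter.mp hg).2])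
      rw [Finset.sum_image (fun _ _ _ _ h => hinjA h)] at hmain
      have c1 : ((Finset.univ.map (Fin.natAddEmb m0)).filter
          (fun i => Fin.append p0 q i % 9 ≠ 8)).card = nT q := by
        rw [Finset.filter_map, Finset.card_map]
        unfold nT
        congr 1
        ext i
        simp only [Finset.mem_filter, Finset.mem_univ, true_and, Function.comp,
          Fin.natAddEmb_apply, Fin.append_right]
      have c2 : ((Finset.univ.map (Fin.natAddEmb m0)).filter
          (fun i => Fin.append p0 q i % 9 = 8)).card = k - nT q := by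
        rw [Finset.filter_map, Finset.card_map]
        have : (Finset.univ.filter (fun i => q i % 9 = 8)).card = k - nT q := by
          have h5 := Finset.card_filter_add_card_filter_not (s := (Finset.univ : Finset (Fin k)))
            (fun i => q i % 9 = 8)
          rw [Finset.card_univ, Fintype.card_fin] at h5
          have h6 : (Finset.univ.filter (fun i => ¬ q i % 9 = 8)).card = nT q := by
            unfold nT
            congr
          rw [h6] at h5
          omega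
        rw [← this]
        congr 1
        ext i
        simp only [Finset.mem_filter, Finset.mem_univ, true_and, Function.comp,
          Fin.natAddEmb_apply, Fin.append_right]
      rw [c1, c2] at hmain
      exact hmain
    refine (Finset.sum_le_sum (fun c _ => key c)).trans (le_of_eq ?_)
    rw [Finset.sum_const, smul_eq_mul]
    rfl
  refine (Nat.mul_le_mul_left _ h1).trans ?_
  have e1 : 2 ^ ((nT q + 1) / 2) * 2 ^ (nT q / 2 + (k - nT q)) = 2 ^ k := by
    rw [← pow_add]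
    congr 1
    omega
  have e2 : 2 ^ ((nT q + 1) / 2) ≤ 2 ^ k := Nat.pow_le_pow_right (by norm_num) (by omega)
  have e3 : (8 : ℕ) ^ k = 2 ^ k * 2 ^ k * 2 ^ k := by
    rw [← mul_pow, ← mul_pow]
    norm_num
  have e4 : (4 : ℕ) ^ m0 = 2 ^ m0 * 2 ^ m0 := by
    rw [← mul_pow]
    norm_num
  calc 2 ^ ((nT q + 1) / 2) *
        (3 * (2 ^ (m0 + k) * (2 ^ (m0 + k) * (2 ^ (nT q / 2 + (k - nT q)) + 2))))
      = 3 * (2 ^ (m0 + k) * 2 ^ (m0 + k)) *
          (2 ^ ((nT q + 1) / 2) * 2 ^ (nT q / 2 + (k - nT q)) + 2 * 2 ^ ((nT q + 1) / 2)) := by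
        ring
    _ ≤ 3 * (2 ^ (m0 + k) * 2 ^ (m0 + k)) * (2 ^ k + 2 * 2 ^ k) := by
        rw [e1]
        exact Nat.mul_le_mul_left _ (by omega)
    _ = 9 * 4 ^ m0 * 8 ^ k := by
        rw [e3, e4, pow_add]
        ring

end append

/-- factorisation of a cube-free number -/
theorem factor {A0 : ℕ} (h0 : A0 ≠ 0) (hcf : ∀ p : ℕ, p.Prime → ¬ p ^ 3 ∣ A0) :
    ∃ (m0 : ℕ) (p0 e0 : Fin m0 → ℕ), (∀ i, (p0 i).Prime) ∧ Function.Injective p0 ∧
      (∀ i, e0 i = 1 ∨ e0 i = 2) ∧ (∀ i, p0 i ∣ A0) ∧ ∏ i, (p0 i : ℤ) ^ e0 i = A0 := by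
  classical
  set φ := A0.primeFactors.equivFin.symm with hφ
  refine ⟨A0.primeFactors.card, fun i => (φ i).1, fun i => A0.factorization (φ i).1,
    fun i => Nat.prime_of_mem_primeFactors (φ i).2, ?_, fun i => ?_,
    fun i => Nat.dvd_of_mem_primeFactors (φ i).2, ?_⟩
  · intro i j hij
    exact φ.injective (Subtype.ext hij)
  · have hpr := Nat.prime_of_mem_primeFactors (φ i).2
    have hd := Nat.dvd_of_mem_primeFactors (φ i).2
    have h1 : 1 ≤ A0.factorization (φ i).1 := by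
      rw [← hpr.pow_dvd_iff_le_factorization h0, pow_one]
      exact hd
    have h2 : ¬ 3 ≤ A0.factorization (φ i).1 := by
      rw [← hpr.pow_dvd_iff_le_factorization h0]
      exact hcf _ hpr
    show A0.factorization (φ i).1 = 1 ∨ A0.factorization (φ i).1 = 2
    omega
  · have h1 : ∏ i, ((φ i).1 : ℕ) ^ A0.factorization (φ i).1 = A0 := by
      rw [Equiv.prod_comp φ (fun x => (x.1 : ℕ) ^ A0.factorization x.1),
        Finset.prod_coe_sort A0.primeFactors (fun x => x ^ A0.factorization x)]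
      exact Nat.prod_factorization_pow_eq_self h0
    exact_mod_cast congrArg (Nat.cast : ℕ → ℤ) h1

/-- **the average of `4 ^ r` over the twists of a given curve** -/
theorem twists {A0 : ℕ} (h0 : A0 ≠ 0) (hcf : ∀ p : ℕ, p.Prime → ¬ p ^ 3 ∣ A0) :
    ∃ c : ℕ, ∀ (k : ℕ) (q : Fin k → ℕ), 2 ≤ k → (∀ i, (q i).Prime) → (∀ i, q i % 3 = 2) →
      Function.Injective q → (∀ i, ¬ q i ∣ A0) → (∃ i, q i % 9 ≠ 8) →
      (∀ e : Fin k → ℕ, (∀ i, e i = 1 ∨ e i = 2) →
        GenBy (A0 * ∏ i, (q i : ℤ) ^ e i) (rr (A0 * ∏ i, (q i : ℤ) ^ e i))) ∧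
      2 ^ ((nT q + 1) / 2) * ∑ e ∈ Ex k, 4 ^ rr (A0 * ∏ i, (q i : ℤ) ^ e i) ≤ c * 8 ^ k := by
  obtain ⟨m0, p0, e0, hp0, inj0, he0, hd, hprod⟩ := factor h0 hcf
  refine ⟨9 * 4 ^ (m0 + nB (81 * (A0 : ℤ).natAbs ^ 4)), fun k q hk hq h3 hinj hnd hex => ?_⟩
  have hAdd : KapAddStmtT := kapAddT basics coll kapExT
  have hRep : KapRepStmtT := kapRepT basics triple
  have hDiff : DiffStmtT := diffT basics coll
  have hCls : ClsStmtT := clsT
  have hne : ∀ i j, p0 i ≠ q j := fun i j h => hnd j (by rw [← h]; exact hd i)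
  have hgen : ∀ {e : Fin k → ℕ}, (∀ i, e i = 1 ∨ e i = 2) →
      GenBy (A0 * ∏ i, (q i : ℤ) ^ e i) (nB (81 * (A0 : ℤ).natAbs ^ 4) +
        (Module.finrank (ZMod 3) (WW (Fin.append p0 q) (Fin.append e0 e)) - 1)) := by
    intro e he
    have h := hypT_append hp0 inj0 he0 hne hq h3 hinj hex he
    have h2 := gen_card kapExT hAdd hRep hCls hDiff (by omega : 2 ≤ m0 + k) h
      (A0 := (A0 : ℤ)) (by exact_mod_cast h0) (fun i => by
        refine Fin.addCases (fun i => ?_) (fun i => ?_) i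
        · rw [Fin.append_left]; right; exact_mod_cast hd i
        · rw [Fin.append_right]; left; exact h3 i)
    rw [AA_append, hprod] at h2
    exact h2
  refine ⟨fun e he => gen_rr (hgen he), ?_⟩
  have hfam := family hp0 inj0 he0 hne hq h3 hinj hex (by omega : 1 ≤ k)
  calc 2 ^ ((nT q + 1) / 2) * ∑ e ∈ Ex k, 4 ^ rr (A0 * ∏ i, (q i : ℤ) ^ e i)
      ≤ 2 ^ ((nT q + 1) / 2) * ∑ e ∈ Ex k, 4 ^ nB (81 * (A0 : ℤ).natAbs ^ 4) *
          4 ^ Module.finrank (ZMod 3) (WW (Fin.append p0 q) (Fin.append e0 e)) := by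
        refine Nat.mul_le_mul_left _ (Finset.sum_le_sum (fun e he => ?_))
        rw [← pow_add]
        refine Nat.pow_le_pow_right (by norm_num) ((rr_le (hgen (mem_Ex.mp he))).trans ?_)
        exact Nat.add_le_add_left (Nat.sub_le _ _) _
    _ = 4 ^ nB (81 * (A0 : ℤ).natAbs ^ 4) * (2 ^ ((nT q + 1) / 2) * ∑ e ∈ Ex k,
          4 ^ Module.finrank (ZMod 3) (WW (Fin.append p0 q) (Fin.append e0 e))) := by
        rw [← Finset.mul_sum]; ring
    _ ≤ 4 ^ nB (81 * (A0 : ℤ).natAbs ^ 4) * (9 * 4 ^ m0 * 8 ^ k) := Nat.mul_le_mul_left _ hfam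
    _ = 9 * 4 ^ (m0 + nB (81 * (A0 : ℤ).natAbs ^ 4)) * 8 ^ k := by rw [pow_add]; ring

end TMain

end Pool.Agent.CubeRank


end
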