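import Mathlib
import Pool.Agent.PTDM.C01
import Pool.Agent.PTDM.C02
import Pool.Agent.PTDM.C06

/-! Parts: PT.Defs, PT.Stmts1, PT.Stmts2, PT.Stmts3, PT.Stmts4, PT.CLSC, PT.EDET, PT.FDK, PT.SLE, PT.TCA, PT.TTH, PTE.Stmts, PT3.Stmts, PT3.TALT -/

section

/-!
# Prime twists of rank zero: definitions

`Eis` is the ring `Z[w]` (library of helper18), `sym l x : ZMod 3` the cubic residue symbol,
`V l x` the multiplicity of `l` in `x`.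
-/

namespace Pool.Agent.PT

open Pool.Agent.Lib_helper18 Pool.Agent.Lib_helper18.Eis Pool.Agent.Lib_helper84.Cub

/-- The primes of `Z[w]` not above `3`, one from each class of associates: primary and
`= 2 (mod 3)`. -/
def PP : Type := {π : Eis // Prime π ∧ π.re % 3 = 2 ∧ (3 : ℤ) ∣ π.im}

/-- the unit part of `a` at `π` -/
noncomputable def up (π a : Eis) : Eis := a / π ^ V π a

/-- the cubic residue symbol of the unit part of `a` at `π` -/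
noncomputable def ch (π a : Eis) : ZMod 3 := sym π (up π a)

/-- the tame symbol at `π` with values in `ZMod 3` -/
noncomputable def tm (π a b : Eis) : ZMod 3 := (V π b : ZMod 3) * ch π a - (V π a : ZMod 3) * ch π b

/-- the symbol at the prime `lam` above `3`, defined by the product formula -/
noncomputable def sl (a b : Eis) : ZMod 3 := -∑ᶠ π : PP, tm π.1 a b

/-- the places: `none` is the prime above `3` -/
abbrev Pl : Type := Option PP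

/-- the symbol at a place -/
noncomputable def sy : Pl → Eis → Eis → ZMod 3
  | none => sl
  | some π => tm π.1

/-- the uniformizer of a place -/
def uni : Pl → Eis
  | none => lam
  | some π => π.1

/-- A cubic symbol on `Z[w]` that is continuous for the `π`-adic topology, with exponent `e`. -/
structure LSym (π : Eis) (s : Eis → Eis → ZMod 3) (e : ℕ) : Prop where
  prime : Prime π
  pos : 1 ≤ e
  mul : ∀ a b c : Eis, a ≠ 0 → b ≠ 0 → c ≠ 0 → s (a * b) c = s a c + s b c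
  skew : ∀ a b : Eis, a ≠ 0 → b ≠ 0 → s b a = - s a b
  stein : ∀ a b c : Eis, a ≠ 0 → b ≠ 0 → c ≠ 0 → a + b + c = 0 → s a b + s b c + s c a = 0
  cont : ∀ a a' b : Eis, a ≠ 0 → b ≠ 0 → π ^ (V π a + e) ∣ a' - a → s a' b = s a b

/-- the linear form `p + q w^i r` -/
def Lf (p q : ℤ) (i : ℕ) (r : ℤ) : Eis := (p : Eis) + (q : Eis) * w ^ i * (r : Eis)

/-- the symbol of `B` with `α = [(p + q w^2 r)(p' + q' w r)] / [(p + q w r)(p' + q' w^2 r)]` -/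
def AS (s : Eis → Eis → ZMod 3) (B : Eis) (p q p' q' r : ℤ) : ZMod 3 :=
  s B (Lf p q 2 r) + s B (Lf p' q' 1 r) - s B (Lf p q 1 r) - s B (Lf p' q' 2 r)

/-- `G_i = q p' - w^i p q'` -/
def Gf (p q p' q' : ℤ) (i : ℕ) : Eis := (q : Eis) * p' - w ^ i * p * q'

/-- `D_i = X u + w^i v Y` -/
def Df (X Y u v : ℤ) (i : ℕ) : Eis := (X : Eis) * u + w ^ i * v * Y

/-- The local term of the point `(X, Y)`:
`(D_1/D_2, N'/n_0) - (D'_1/D'_2, N''/n_0)`, where `D_i = X p' + w^i p Y`, `D'_i = X q' + w^i q Y`,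
`N' = p^3 - x p'^3`, `N'' = x q'^3 - q^3`, `n_0 = X^3 + x Y^3`. -/
def SV (s : Eis → Eis → ZMod 3) (x p q p' q' X Y : ℤ) : ZMod 3 :=
  (s (Df X Y p' p 1) ((p ^ 3 - x * p' ^ 3 : ℤ) : Eis) -
    s (Df X Y p' p 2) ((p ^ 3 - x * p' ^ 3 : ℤ) : Eis) -
    s (Df X Y p' p 1) ((X ^ 3 + x * Y ^ 3 : ℤ) : Eis) +
    s (Df X Y p' p 2) ((X ^ 3 + x * Y ^ 3 : ℤ) : Eis)) -
  (s (Df X Y q' q 1) ((x * q' ^ 3 - q ^ 3 : ℤ) : Eis) -
    s (Df X Y q' q 2) ((x * q' ^ 3 - q ^ 3 : ℤ) : Eis) -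
    s (Df X Y q' q 1) ((X ^ 3 + x * Y ^ 3 : ℤ) : Eis) +
    s (Df X Y q' q 2) ((X ^ 3 + x * Y ^ 3 : ℤ) : Eis))

/-- The sum of the local terms `U_v = (B, G_1/G_2) + (w, B x b)`. -/
def UV (s : Eis → Eis → ZMod 3) (B b x p q p' q' : ℤ) : ZMod 3 :=
  s (B : Eis) (Gf p q p' q' 1) - s (B : Eis) (Gf p q p' q' 2) + s w ((B * x * b : ℤ) : Eis)

/-- `b` is a cube in the completion at `π` (through rational integers) -/
def LC (π : Eis) (b : ℤ) : Prop := ∀ N : ℕ, ∃ r : ℤ, π ^ N ∣ (r : Eis) ^ 3 - (b : Eis)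

open Classical in
/-- the value of `AS` at all good approximations of a cube root of `b` -/
noncomputable def AV (v : Pl) (B b p q p' q' : ℤ) : ZMod 3 :=
  if h : ∃ c : ZMod 3, ∃ N0 : ℕ, ∀ r : ℤ, uni v ^ N0 ∣ (r : Eis) ^ 3 - (b : Eis) →
      AS (sy v) (B : Eis) p q p' q' r = c then h.choose else 0

open Classical in
/-- The local term `T_v` of the pair `(b, η)`, `η = (p + q T)/(p' + q' T)` of norm `x` from
`Q(b^(1/3))`. -/
noncomputable def TT (v : Pl) (B b x p q p' q' : ℤ) : ZMod 3 :=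
  if LC (uni v) b then AV v B b p q p' q' + sy v w (x : Eis)
  else match v with
    | none => 0
    | some π => if 3 ∣ V π.1 (b : Eis) + V π.1 (B : Eis) ∧ ¬ 3 ∣ V π.1 (b : Eis)
        then - tm π.1 w (x : Eis) else 0

/-- The pairing `O_B(b, η)`. -/
noncomputable def OO (B b x p q p' q' : ℤ) : ZMod 3 := ∑ᶠ v : Pl, TT v B b x p q p' q'

/-- being a cube modulo `9` (prime to `3`) -/
def C9 (m : ℤ) : Prop := m % 9 = 1 ∨ m % 9 = 8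

/-- `η = (p + q T)/(p' + q' T)` has norm `x` from `Q(b^(1/3))`. -/
structure SolW (b x p q p' q' : ℤ) : Prop where
  eq : p ^ 3 + b * q ^ 3 = x * (p' ^ 3 + b * q' ^ 3)
  n1 : p ^ 3 + b * q ^ 3 ≠ 0

/-- `SolW` with a further nondegeneracy condition (automatic when `x` is not a cube). -/
structure Sol (b x p q p' q' : ℤ) : Prop extends SolW b x p q p' q' where
  n2 : p ^ 3 - x * p' ^ 3 ≠ 0

/-- `b` is an admissible class for the curve `X^3 + Y^3 = B`. -/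
structure Adm (B b : ℤ) : Prop where
  ne : b ≠ 0
  three : ¬ (3 : ℤ) ∣ b
  sym : ∀ π : PP, tm π.1 (b : Eis) (B : Eis) = 0
  unr : ∀ π : PP, ¬ π.1 ∣ (B : Eis) → ¬ π.1 ∣ (b : Eis)
  nine : C9 B → C9 b

/-- conditions on `B`: nonzero, prime to `3`, cube-free -/
structure BOk (B : ℤ) : Prop where
  ne : B ≠ 0
  three : ¬ (3 : ℤ) ∣ B
  cf : ∀ π : PP, V π.1 (B : Eis) ≤ 2

/-- `HypM B`: the part of the Selmer group on which complex conjugation acts by `-1` is trivial. -/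
def HypM (B : ℤ) : Prop := ∀ z t : Eis, z ≠ 0 → z * conj z = t ^ 3 →
  (∀ π : PP, tm π.1 z (B : Eis) = 0) → (∀ π : PP, ¬ π.1 ∣ (B : Eis) → 3 ∣ V π.1 z) →
  ∃ γ : Eis, z = γ ^ 3

/-- `(X, Y)` is a point of class `x` on the curve `X^3 + Y^3 = B`. -/
structure Pt (B x X Y : ℤ) : Prop where
  hX : X ≠ 0
  hY : Y ≠ 0
  eq : ∃ c : ℤ, c ≠ 0 ∧ x * (X ^ 3 + x * Y ^ 3) = B * c ^ 3

end Pool.Agent.PT


end

section

/-!
# Prime twists of rank zero: statements, part 1 (symbols, identities, local and global theorem)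
-/

namespace Pool.Agent.PT

open Pool.Agent.Lib_helper18 Pool.Agent.Lib_helper18.Eis Pool.Agent.Lib_helper84.Cub

/-! ### Symbols -/

/-- STM: the tame symbols. -/
def STM : Prop := ∀ π : Eis, Prime π → ¬ π ∣ 3 → LSym π (tm π) 1

/-- SPP: the set `PP`. -/
def SPP : Prop :=
  (∀ l : Eis, Prime l → ¬ l ∣ 3 → ∃ π : PP, Associated l π.1) ∧
  (∀ π π' : PP, Associated π.1 π'.1 → π = π') ∧
  (∀ a : Eis, a ≠ 0 → {π : PP | π.1 ∣ a}.Finite) ∧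
  (∀ π : PP, ¬ π.1 ∣ 3 ∧ ∃ π' : PP, π'.1 = conj π.1) ∧
  (∀ q : ℕ, q.Prime → q % 3 = 2 → ∃ π : PP, π.1 = (q : Eis)) ∧
  (∀ π : PP, ∃ p : ℕ, p.Prime ∧ ((p % 3 = 2 ∧ π.1 = (p : Eis)) ∨
    (p % 3 = 1 ∧ π.1.norm = p ∧ (p : Eis) = π.1 * conj π.1 ∧ ¬ Associated π.1 (conj π.1))))

/-- SSL: the symbol `sl` and the product formula. -/
def SSL : Prop :=
  (∀ a b c : Eis, a ≠ 0 → b ≠ 0 → c ≠ 0 → sl (a * b) c = sl a c + sl b c) ∧
  (∀ a b : Eis, a ≠ 0 → b ≠ 0 → sl b a = - sl a b) ∧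
  (∀ a b c : Eis, a ≠ 0 → b ≠ 0 → c ≠ 0 → a + b + c = 0 → sl a b + sl b c + sl c a = 0) ∧
  (∀ a b : Eis, a ≠ 0 → b ≠ 0 → (Function.support fun v : Pl => sy v a b).Finite ∧
    ∑ᶠ v : Pl, sy v a b = 0)

/-- SREC: cubic reciprocity for primary elements and the supplementary laws. -/
def SREC : Prop :=
  (∀ c d : Eis, Prim c → Prim d → sl c d = 0) ∧
  (∀ c : Eis, Prim c → sl c w = wt c.norm) ∧
  (∀ c : Eis, Prim c → sl c lam = 2 * wt (c.re ^ 2)) ∧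
  sl w lam = 0

/-- SLC: `sl` is a symbol at `lam` with exponent `4`. -/
def SLC : Prop := LSym lam sl 4

/-- SCJ: complex conjugation. -/
def SCJ : Prop :=
  (∀ π a b : Eis, Prime π → ¬ π ∣ 3 → a ≠ 0 → b ≠ 0 →
    tm (conj π) (conj a) (conj b) = - tm π a b) ∧
  (∀ a b : Eis, a ≠ 0 → b ≠ 0 → sl (conj a) (conj b) = - sl a b) ∧
  (∀ m n : ℤ, m ≠ 0 → n ≠ 0 → sl m n = 0) ∧
  (∀ q : ℕ, q.Prime → q % 3 = 2 → ∀ m n : ℤ, m ≠ 0 → n ≠ 0 → tm (q : Eis) m n = 0)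

/-- LCI: rational local cubes. -/
def LCI : Prop :=
  (∀ (π : PP) (b : ℤ), b ≠ 0 → (LC π.1 b ↔ 3 ∣ V π.1 (b : Eis) ∧ ch π.1 (b : Eis) = 0)) ∧
  (∀ b : ℤ, ¬ (3 : ℤ) ∣ b → (LC lam b ↔ C9 b)) ∧
  (∀ (π : Eis) (s : Eis → Eis → ZMod 3) (e : ℕ) (b : ℤ) (a : Eis), LSym π s e → LC π b →
    b ≠ 0 → a ≠ 0 → s (b : Eis) a = 0)

/-! ### Identities -/

/-- STAR: the identity of symbols of linear forms `F_i = X + w^i ξ Y`, `G_i = u + w^i ξ v`,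
`D_i = X v - w^i u Y`. -/
def STAR : Prop := ∀ (π : Eis) (s : Eis → Eis → ZMod 3) (e : ℕ), LSym π s e →
  ∀ (X Y u v ξ : Eis) (F G D : ℕ → Eis), (∀ i, F i = X + w ^ i * ξ * Y) →
    (∀ i, G i = u + w ^ i * ξ * v) → (∀ i, D i = X * v - w ^ i * u * Y) → ξ ≠ 0 →
    (∀ i, F i ≠ 0) →
    s (F 1) (F 0 * F 1 * F 2) - s (F 2) (F 0 * F 1 * F 2) = s w (F 0 * F 1 * F 2) ∧
    ((∀ i, G i ≠ 0) → D 1 ≠ 0 → D 2 ≠ 0 →
      s (D 1) (G 0 * G 1 * G 2) - s (D 2) (G 0 * G 1 * G 2) -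
        s (D 1) (F 0 * F 1 * F 2) + s (D 2) (F 0 * F 1 * F 2) =
      s w (F 0 * F 1 * F 2) + s (F 0 * F 1 * F 2) (G 2) - s (F 0 * F 1 * F 2) (G 1) +
        s (F 1) (G 0 * G 1 * G 2) - s (F 2) (G 0 * G 1 * G 2))

/-- IF1: `α_b α_x = w⁻¹ k_0` modulo cubes. -/
def IF1 : Prop := ∀ (π : Eis) (s : Eis → Eis → ZMod 3) (e : ℕ), LSym π s e →
  ∀ b x p q p' q' : ℤ, b ≠ 0 → x ≠ 0 → Sol b x p q p' q' →
  ∃ N0 : ℕ, ∀ r ξ : ℤ, π ^ N0 ∣ (r : Eis) ^ 3 - (b : Eis) → π ^ N0 ∣ (ξ : Eis) ^ 3 - (x : Eis) →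
    ∀ B : Eis, B ≠ 0 → AS s B p q p' q' r + AS s B p (-p') (-q) q' ξ =
      s B (Gf p q p' q' 1) - s B (Gf p q p' q' 2) + s w B

/-- IF2: `(x, α_b) = (x, k_0) + (w, x)`. -/
def IF2 : Prop := ∀ (π : Eis) (s : Eis → Eis → ZMod 3) (e : ℕ), LSym π s e →
  ∀ b x p q p' q' : ℤ, b ≠ 0 → x ≠ 0 → Sol b x p q p' q' →
  ∃ N0 : ℕ, ∀ r : ℤ, π ^ N0 ∣ (r : Eis) ^ 3 - (b : Eis) →
    AS s (x : Eis) p q p' q' r =
      s (x : Eis) (Gf p q p' q' 1) - s (x : Eis) (Gf p q p' q' 2) + s w (x : Eis)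

/-- IF4: the local term of a point when `x` is a local cube. -/
def IF4 : Prop := ∀ (π : Eis) (s : Eis → Eis → ZMod 3) (e : ℕ), LSym π s e →
  ∀ b x p q p' q' X Y : ℤ, b ≠ 0 → x ≠ 0 → Sol b x p q p' q' → X ≠ 0 → Y ≠ 0 →
    X ^ 3 + x * Y ^ 3 ≠ 0 →
  ∃ N0 : ℕ, ∀ ξ : ℤ, π ^ N0 ∣ (ξ : Eis) ^ 3 - (x : Eis) →
    SV s x p q p' q' X Y =
      AS s ((X ^ 3 + x * Y ^ 3 : ℤ) : Eis) p (-p') (-q) q' ξ +
        s (Lf X Y 1 ξ) (b : Eis) - s (Lf X Y 2 ξ) (b : Eis)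

/-- IF4B: `(F_1/F_2, n_0) = (w, n_0)`. -/
def IF4B : Prop := ∀ (π : Eis) (s : Eis → Eis → ZMod 3) (e : ℕ), LSym π s e →
  ∀ x X Y : ℤ, x ≠ 0 → X ≠ 0 → Y ≠ 0 → X ^ 3 + x * Y ^ 3 ≠ 0 →
  ∃ N0 : ℕ, ∀ ξ : ℤ, π ^ N0 ∣ (ξ : Eis) ^ 3 - (x : Eis) →
    s (Lf X Y 1 ξ) ((X ^ 3 + x * Y ^ 3 : ℤ) : Eis) - s (Lf X Y 2 ξ) ((X ^ 3 + x * Y ^ 3 : ℤ) : Eis) =
      s w ((X ^ 3 + x * Y ^ 3 : ℤ) : Eis)

/-- ROOT: independence of the cube root. -/
def ROOT : Prop := ∀ (π : Eis) (s : Eis → Eis → ZMod 3) (e : ℕ), LSym π s e →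
  ∀ (b x p q p' q' : ℤ) (B : Eis), b ≠ 0 → x ≠ 0 → SolW b x p q p' q' → B ≠ 0 →
    s B (x : Eis) = 0 →
  ∃ N0 : ℕ, ∀ r r' : ℤ, π ^ N0 ∣ (r : Eis) ^ 3 - (b : Eis) → π ^ N0 ∣ (r' : Eis) ^ 3 - (b : Eis) →
    AS s B p q p' q' r = AS s B p q p' q' r'

/-! ### Local evaluation -/

/-- F2B: (B, α_b) = (B, k_0) + (w, B) when `b` is a local cube and `x` is not. -/
def F2B : Prop := ∀ (v : Pl) (B b x p q p' q' : ℤ), BOk B → Adm B b → Adm B x →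
  Sol b x p q p' q' → LC (uni v) b → ¬ LC (uni v) x →
  ∃ N0 : ℕ, ∀ r : ℤ, uni v ^ N0 ∣ (r : Eis) ^ 3 - (b : Eis) →
    AS (sy v) (B : Eis) p q p' q' r =
      sy v (B : Eis) (Gf p q p' q' 1) - sy v (B : Eis) (Gf p q p' q' 2) + sy v w (B : Eis)

/-- F6R: the local term of a point at a tame place where `x` has valuation prime to `3`. -/
def F6R : Prop := ∀ (π : PP) (b x p q p' q' X Y : ℤ), b ≠ 0 → x ≠ 0 → Sol b x p q p' q' →
  X ≠ 0 → Y ≠ 0 → ¬ 3 ∣ V π.1 (x : Eis) →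
    (3 ∣ V π.1 ((X ^ 3 + x * Y ^ 3 : ℤ) : Eis) → SV (tm π.1) x p q p' q' X Y = 0) ∧
    (¬ 3 ∣ V π.1 ((X ^ 3 + x * Y ^ 3 : ℤ) : Eis) →
      SV (tm π.1) x p q p' q' X Y = - tm π.1 w (b : Eis))

/-- F7U: the local term of a point at a tame place where `x` has valuation divisible by `3` and is
not a cube. -/
def F7U : Prop := ∀ (π : PP) (b x p q p' q' X Y : ℤ), b ≠ 0 → x ≠ 0 → Sol b x p q p' q' →
  X ≠ 0 → Y ≠ 0 → 3 ∣ V π.1 (x : Eis) → ch π.1 (x : Eis) ≠ 0 → SV (tm π.1) x p q p' q' X Y = 0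

/-- SLE: the symbol at `lam` of `g + h w` and a rational integer. -/
def SLE : Prop := ∀ (g h N : ℤ) (v : ℕ), ¬ (3 : ℤ) ∣ N →
  (¬ (3 : ℤ) ∣ g → (3 : ℤ) ∣ h →
    sl ((g : Eis) + h * w) ((3 ^ v * N : ℤ) : Eis) = v * ((g * (h / 3) : ℤ) : ZMod 3)) ∧
  ((3 : ℤ) ∣ g → ¬ (3 : ℤ) ∣ h →
    sl ((g : Eis) + h * w) ((3 ^ v * N : ℤ) : Eis) =
      - wt (N ^ 2) - v * ((h * (g / 3) : ℤ) : ZMod 3)) ∧
  (¬ (3 : ℤ) ∣ h → (3 : ℤ) ∣ g - h →
    sl ((g : Eis) + h * w) ((3 ^ v * N : ℤ) : Eis) =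
      wt (N ^ 2) - v * ((h * ((g - h) / 3) : ℤ) : ZMod 3))

/-- F5L: the local term of a point at `lam` when `b` is a cube and `x` is not. -/
def F5L : Prop := ∀ B b x p q p' q' X Y : ℤ, BOk B → Adm B b → Adm B x → Sol b x p q p' q' →
  Pt B x X Y → C9 b → ¬ C9 x → SV sl x p q p' q' X Y = 0

/-- F3R: the case of two noncubes at a place dividing `B`. -/
def F3R : Prop := ∀ (π : PP) (B b x p q p' q' : ℤ), BOk B → Adm B b → Adm B x →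
  Sol b x p q p' q' → π.1 ∣ (B : Eis) → ¬ 3 ∣ V π.1 (b : Eis) → ¬ 3 ∣ V π.1 (x : Eis) →
    UV (tm π.1) B b x p q p' q' =
      (if 3 ∣ V π.1 (b : Eis) + V π.1 (B : Eis) then - tm π.1 w (x : Eis) else 0) +
      (if 3 ∣ V π.1 (x : Eis) + V π.1 (B : Eis) then - tm π.1 w (b : Eis) else 0)

/-- F3U: the case of two noncubes at a place not dividing `B`. -/
def F3U : Prop := ∀ (π : PP) (B b x p q p' q' : ℤ), BOk B → Adm B b → Adm B x →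
  Sol b x p q p' q' → ¬ π.1 ∣ (B : Eis) → ch π.1 (b : Eis) ≠ 0 → ch π.1 (x : Eis) ≠ 0 →
    UV (tm π.1) B b x p q p' q' = 0

/-- AVV: the value `AV` is attained at all good approximations of the cube root, and is
characterised by this. -/
def AVV : Prop := ∀ (v : Pl) (B b x p q p' q' : ℤ), B ≠ 0 → b ≠ 0 → x ≠ 0 →
  SolW b x p q p' q' → sy v (B : Eis) (x : Eis) = 0 → LC (uni v) b →
  (∃ N0 : ℕ, ∀ r : ℤ, uni v ^ N0 ∣ (r : Eis) ^ 3 - (b : Eis) →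
    AS (sy v) (B : Eis) p q p' q' r = AV v B b p q p' q') ∧
  (∀ (c : ZMod 3) (N0 : ℕ), (∀ r : ℤ, uni v ^ N0 ∣ (r : Eis) ^ 3 - (b : Eis) →
    AS (sy v) (B : Eis) p q p' q' r = c) → AV v B b p q p' q' = c)

/-- LEV: the local evaluation. -/
def LEV : Prop := ∀ (v : Pl) (B b x p q p' q' X Y : ℤ), BOk B → Adm B b → Adm B x →
  Sol b x p q p' q' → Pt B x X Y → (C9 b ∨ C9 x) →
    TT v B b x p q p' q' = UV (sy v) B b x p q p' q' - SV (sy v) x p q p' q' X Y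

/-- LAM: the local form of the antisymmetry. -/
def LAM : Prop := ∀ (v : Pl) (B b x p q p' q' : ℤ), BOk B → Adm B b → Adm B x →
  Sol b x p q p' q' → (C9 b ∨ C9 x) →
    TT v B b x p q p' q' + TT v B x b p (-p') (-q) q' = UV (sy v) B b x p q p' q'

/-! ### Global theorems -/

/-- LFIN: finiteness of the supports. -/
def LFIN : Prop :=
  (∀ B b x p q p' q' : ℤ, BOk B → Adm B b → Adm B x → SolW b x p q p' q' →
    (Function.support fun v : Pl => TT v B b x p q p' q').Finite) ∧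
  (∀ B b x p q p' q' : ℤ, B ≠ 0 → b ≠ 0 → x ≠ 0 → Sol b x p q p' q' →
    (Function.support fun v : Pl => UV (sy v) B b x p q p' q').Finite ∧
    ∑ᶠ v : Pl, UV (sy v) B b x p q p' q' = 0) ∧
  (∀ b x p q p' q' X Y : ℤ, b ≠ 0 → x ≠ 0 → Sol b x p q p' q' → X ≠ 0 → Y ≠ 0 →
    X ^ 3 + x * Y ^ 3 ≠ 0 →
    (Function.support fun v : Pl => SV (sy v) x p q p' q' X Y).Finite ∧
    ∑ᶠ v : Pl, SV (sy v) x p q p' q' X Y = 0)

/-- TC: the pairing vanishes on the class of a point. -/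
def TC : Prop := ∀ B b x p q p' q' X Y : ℤ, BOk B → Adm B b → Adm B x →
  Sol b x p q p' q' → Pt B x X Y → (C9 b ∨ C9 x) → OO B b x p q p' q' = 0

/-- TA: antisymmetry. -/
def TA : Prop := ∀ B b x p q p' q' : ℤ, BOk B → Adm B b → Adm B x →
  Sol b x p q p' q' → (C9 b ∨ C9 x) → OO B b x p q p' q' + OO B x b p (-p') (-q) q' = 0

/-- TADD: additivity in the second variable. -/
def TADD : Prop := ∀ b x₁ x₂ p₁ q₁ p₁' q₁' p₂ q₂ p₂' q₂' : ℤ, (¬ ∃ c : ℤ, c ^ 3 = b) →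
  b ≠ 0 → x₁ ≠ 0 → x₂ ≠ 0 → SolW b x₁ p₁ q₁ p₁' q₁' → SolW b x₂ p₂ q₂ p₂' q₂' →
  ∃ p q p' q' : ℤ, SolW b (x₁ * x₂) p q p' q' ∧ ∀ B : ℤ, BOk B → Adm B b → Adm B x₁ →
    Adm B x₂ → OO B b (x₁ * x₂) p q p' q' = OO B b x₁ p₁ q₁ p₁' q₁' + OO B b x₂ p₂ q₂ p₂' q₂'

/-- TTH: `O_B(b, b^(1/3)) = 0`. -/
def TTH : Prop := ∀ B b : ℤ, BOk B → Adm B b → C9 b → OO B b b 0 1 1 0 = 0

/-- A system of classes `b_i` with solutions of the norm equations. -/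
structure Sys {s : ℕ} (b : Fin s → ℤ) (p q p' q' : Fin s → Fin s → ℤ) : Prop where
  ind : ∀ c : Fin s → ℕ, (∃ i, ¬ 3 ∣ c i) → ¬ ∃ t : ℤ, t ^ 3 = ∏ i, b i ^ c i
  c9 : ∀ i j, i ≠ j → C9 (b i) ∨ C9 (b j)
  sol : ∀ j i, j ≠ i → Sol (b j) (b i) (p j i) (q j i) (p' j i) (q' j i)
  sw : ∀ j i, j ≠ i → p i j = p j i ∧ q i j = - p' j i ∧ p' i j = - q j i ∧ q' i j = q' j i

open Classical in
/-- the matrix of the pairing -/
noncomputable def Mat {s : ℕ} (b : Fin s → ℤ) (p q p' q' : Fin s → Fin s → ℤ) (B : ℤ) :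
    Matrix (Fin s) (Fin s) (ZMod 3) := fun j i =>
  if j = i then 0 else OO B (b j) (b i) (p j i) (q j i) (p' j i) (q' j i)

/-- TEND: the matrix is alternating and the class of a point is in its kernel. -/
def TEND : Prop := ∀ (s : ℕ) (b : Fin s → ℤ) (p q p' q' : Fin s → Fin s → ℤ) (B : ℤ),
  Sys b p q p' q' → BOk B → (∀ i, Adm B (b i)) →
  (∀ i j, Mat b p q p' q' B i j = - Mat b p q p' q' B j i) ∧
  ∀ (c : Fin s → ℕ) (X Y : ℤ), (∃ i, ¬ 3 ∣ c i) → Pt B (∏ i, b i ^ c i) X Y →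
    ∀ j, ∑ i, Mat b p q p' q' B j i * (c i : ZMod 3) = 0

end Pool.Agent.PT


end

section

/-!
# Prime twists of rank zero: statements, part 2 (first descent, choice of the class)
-/

namespace Pool.Agent.PT

open Pool.Agent.Lib_helper18 Pool.Agent.Lib_helper18.Eis Pool.Agent.Lib_helper84.Cub

/-! ### First descent -/

/-- The data of the first descent: `a_0 x_0^3 + a_1 x_1^3 + a_2 x_2^3 = 0`, `a_0 a_1 a_2 = B`. -/
structure Cell (B : ℤ) (a x : Fin 3 → ℤ) : Prop where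
  ne : ∀ k, x k ≠ 0
  sum : ∑ k, a k * x k ^ 3 = 0
  prod : ∏ k, a k = B
  cop : ∀ i j, i ≠ j → IsCoprime (a i) (a j)
  two : ∀ k, ∃ j, j ≠ k ∧ ¬ IsUnit (a j)
  nine : C9 B → ∀ k k', wt (a k ^ 2) = wt (a k' ^ 2)

/-- FDK: a primitive solution of `x^3 + y^3 = B z^3`: `x + w y = c w^2 δ^3`. -/
def FDK : Prop := ∀ B x y z : ℤ, BOk B → HypM B → IsCoprime x y → z ≠ 0 →
  x ^ 3 + y ^ 3 = B * z ^ 3 →
  ∃ (δ : Eis) (c d : ℤ), c ≠ 0 ∧ d ≠ 0 ∧ (∀ m : ℤ, (m : Eis) ∣ δ → IsUnit m) ∧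
    (d : Eis) * ((x : Eis) + w * y) = c * w ^ 2 * δ ^ 3

/-- FDA: three pairwise coprime integers `A_0 + A_1 + A_2 = 0` with product `B m^3`, and
`|z| = |m| N(δ)`, where `N(δ) > 1` unless `B = 2` or `B = -2`. -/
def FDA : Prop := ∀ (B x y z c d : ℤ) (δ : Eis), BOk B → 3 ≤ |B| → IsCoprime x y → z ≠ 0 →
  x ^ 3 + y ^ 3 = B * z ^ 3 → c ≠ 0 → d ≠ 0 → (∀ m : ℤ, (m : Eis) ∣ δ → IsUnit m) →
  (d : Eis) * ((x : Eis) + w * y) = c * w ^ 2 * δ ^ 3 →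
  ∃ (A : Fin 3 → ℤ) (m : ℤ), (∀ k, A k ≠ 0) ∧ A 0 + A 1 + A 2 = 0 ∧
    A 0 * A 1 * A 2 = B * m ^ 3 ∧ (∀ i j, i ≠ j → IsCoprime (A i) (A j)) ∧ |m| < |z|

/-- FDC: splitting into cells. -/
def FDC : Prop := ∀ (B m : ℤ) (A : Fin 3 → ℤ), BOk B → (∀ k, A k ≠ 0) → A 0 + A 1 + A 2 = 0 →
  A 0 * A 1 * A 2 = B * m ^ 3 → (∀ i j, i ≠ j → IsCoprime (A i) (A j)) →
  ∃ a x : Fin 3 → ℤ, (∀ k, A k = a k * x k ^ 3) ∧ ∏ k, a k = B ∧
    (∀ i j, i ≠ j → IsCoprime (a i) (a j)) ∧ (∀ i j, i ≠ j → IsCoprime (x i) (x j)) ∧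
    (C9 B → ∀ k k', wt (a k ^ 2) = wt (a k' ^ 2))

/-- FD1: the first descent. -/
def FD1 : Prop := ∀ B : ℤ, BOk B → 3 ≤ |B| → HypM B →
  (∃ X Y : ℚ, X ^ 3 + Y ^ 3 = (B : ℚ)) → ∃ a x : Fin 3 → ℤ, Cell B a x

/-- FD2: the class of a point; the prime `q` can be put into the last cell. -/
def FD2 : Prop := ∀ (n q : ℕ) (a x : Fin 3 → ℤ), q.Prime → q % 3 = 2 → ¬ q ∣ n → 0 < n →
  BOk ((n : ℤ) * q) → Cell ((n : ℤ) * q) a x →
  ∃ z X Y : ℤ, Pt ((n : ℤ) * q) z X Y ∧ Adm ((n : ℤ) * q) z ∧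
    (∀ l : ℕ, l.Prime → (l : ℤ) ∣ z → l ∣ n) ∧ ¬ ∃ t : ℤ, t ^ 3 = z

/-! ### Choice of the class -/

/-- Normal form of a cube-free number prime to `3`. -/
structure NF (n : ℕ) {m k : ℕ} (π : Fin m → PP) (p e : Fin m → ℕ) (r f : Fin k → ℕ) : Prop where
  pp : ∀ i, (p i).Prime
  p1 : ∀ i, p i % 3 = 1
  pπ : ∀ i, (p i : Eis) = (π i).1 * conj (π i).1
  pe : ∀ i, e i = 1 ∨ e i = 2
  pinj : Function.Injective p
  rp : ∀ j, (r j).Prime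
  r2 : ∀ j, r j % 3 = 2
  rf : ∀ j, f j = 1 ∨ f j = 2
  rinj : Function.Injective r
  eq : n = (∏ i, p i ^ e i) * ∏ j, r j ^ f j

/-- ENF: existence of the normal form; invariance under cubes. -/
def ENF : Prop := ∀ N : ℕ, 0 < N → ¬ 3 ∣ N → ∃ (n t : ℕ) (π : Fin (Nat.card {p : ℕ //
    p.Prime ∧ p % 3 = 1 ∧ ¬ 3 ∣ N.factorization p}) → PP)
    (p e : Fin (Nat.card {p : ℕ // p.Prime ∧ p % 3 = 1 ∧ ¬ 3 ∣ N.factorization p}) → ℕ)
    (r f : Fin (Nat.card {p : ℕ // p.Prime ∧ p % 3 = 2 ∧ ¬ 3 ∣ N.factorization p}) → ℕ),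
    0 < n ∧ 0 < t ∧ N = n * t ^ 3 ∧ NF n π p e r f ∧
    ∀ l : ℕ, l.Prime → ¬ 3 ∣ N.factorization l → l % 3 = 2 → ∃ j, r j = l

/-- EDET: the diagonal can be chosen such that two matrices become invertible. -/
def EDET : Prop := ∀ (m : ℕ) (A A' : Matrix (Fin (m + 1)) (Fin (m + 1)) (ZMod 3)),
  A 0 0 ≠ 0 → A' 0 0 ≠ 0 → ∃ d : Fin m → ZMod 3,
    (A - Matrix.diagonal (Fin.cons 0 d : Fin (m + 1) → ZMod 3)).det ≠ 0 ∧
    (A' - Matrix.diagonal (Fin.cons 0 d : Fin (m + 1) → ZMod 3)).det ≠ 0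

/-- The matrix of the conditions on the classes with `conj z = z⁻¹`. The first row and column
belong to the unit `w`; `j0` is the index of the inert prime used. -/
noncomputable def Mm (n : ℕ) {m k : ℕ} (π : Fin m → PP) (e : Fin m → ℕ) (r : Fin k → ℕ)
    (j0 : Option (Fin k)) (c : Fin m → ZMod 3) : Matrix (Fin (m + 1)) (Fin (m + 1)) (ZMod 3) :=
  fun a b => Fin.cases
    (motive := fun _ => ZMod 3)
    (match j0 with
      | none => if b = 0 then 1 else 0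
      | some j => Fin.cases (motive := fun _ => ZMod 3) (sym (r j : Eis) w)
          (fun i' => sym (r j : Eis) (π i').1 - sym (r j : Eis) (conj (π i').1)) b)
    (fun i => Fin.cases (motive := fun _ => ZMod 3) ((e i : ZMod 3) * sym (π i).1 w)
      (fun i' => if i' = i then
          - (e i : ZMod 3) * sym (π i).1 (conj (π i).1) - ch (π i).1 (n : Eis) - c i
        else (e i : ZMod 3) * (sym (π i).1 (π i').1 - sym (π i).1 (conj (π i').1))) b) a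

/-- The matrix of the conditions on the rational classes. The first column belongs to the inert
prime `r j0`, the first row to the condition modulo `9`. -/
noncomputable def Mp (n : ℕ) {m k : ℕ} (π : Fin m → PP) (p e : Fin m → ℕ) (r : Fin k → ℕ)
    (j0 : Option (Fin k)) (c : Fin m → ZMod 3) : Matrix (Fin (m + 1)) (Fin (m + 1)) (ZMod 3) :=
  fun a b => Fin.cases
    (motive := fun _ => ZMod 3)
    (match j0 with
      | none => if b = 0 then 1 else 0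
      | some j => Fin.cases (motive := fun _ => ZMod 3) (wt ((r j : ℤ) ^ 2))
          (fun i' => wt ((p i' : ℤ) ^ 2)) b)
    (fun i => Fin.cases (motive := fun _ => ZMod 3)
      (match j0 with
        | none => 0
        | some j => (e i : ZMod 3) * sym (π i).1 (r j : Eis))
      (fun i' => if i' = i then
          (e i : ZMod 3) * sym (π i).1 (conj (π i).1) - ch (π i).1 (n : Eis) - c i
        else (e i : ZMod 3) * sym (π i).1 (p i' : Eis)) b) a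

/-- EMAT: the class can be chosen such that both matrices are invertible. -/
def EMAT : Prop := ∀ (n m k : ℕ) (π : Fin m → PP) (p e : Fin m → ℕ) (r f : Fin k → ℕ)
  (j0 : Option (Fin k)), NF n π p e r f → (∀ j, j0 = some j → wt ((r j : ℤ) ^ 2) ≠ 0) →
  ∃ c : Fin m → ZMod 3, (Mm n π e r j0 c).det ≠ 0 ∧ (Mp n π p e r j0 c).det ≠ 0

/-- `q` is in the class `(w0, c)`. -/
def InCl {m : ℕ} (π : Fin m → PP) (w0 : ZMod 3) (c : Fin m → ZMod 3) (q : ℕ) : Prop :=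
  q % 3 = 2 ∧ wt ((q : ℤ) ^ 2) = w0 ∧ ∀ i, sym (π i).1 (q : Eis) = c i

/-- The rational classes that are admissible for `n q`, `q` in the class `(w0, c)`. -/
structure AdmC (n : ℕ) {m : ℕ} (π : Fin m → PP) (w0 : ZMod 3) (c : Fin m → ZMod 3) (x : ℤ) :
    Prop where
  ne : x ≠ 0
  three : ¬ (3 : ℤ) ∣ x
  supp : ∀ l : ℕ, l.Prime → (l : ℤ) ∣ x → l ∣ n
  sym : ∀ i, (V (π i).1 (n : Eis) : ZMod 3) * ch (π i).1 (x : Eis) -
    (V (π i).1 (x : Eis) : ZMod 3) * (ch (π i).1 (n : Eis) + c i) = 0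
  nine : wt ((n : ℤ) ^ 2) + w0 = 0 → C9 x

/-- EADM: `AdmC` and `Adm`. -/
def EADM : Prop := ∀ (n m k : ℕ) (π : Fin m → PP) (p e : Fin m → ℕ) (r f : Fin k → ℕ)
  (w0 : ZMod 3) (c : Fin m → ZMod 3) (q : ℕ), NF n π p e r f → q.Prime → InCl π w0 c q →
  ¬ q ∣ n → BOk ((n : ℤ) * q) ∧ ∀ x : ℤ, (∀ l : ℕ, l.Prime → (l : ℤ) ∣ x → l ∣ n) →
    (AdmC n π w0 c x ↔ Adm ((n : ℤ) * q) x)

/-- EHYP: the minus part of the Selmer group is trivial for `q` in the class. -/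
def EHYP : Prop := ∀ (n m k : ℕ) (π : Fin m → PP) (p e : Fin m → ℕ) (r f : Fin k → ℕ)
  (w0 : ZMod 3) (c : Fin m → ZMod 3) (j0 : Option (Fin k)) (q : ℕ), NF n π p e r f → q.Prime →
  InCl π w0 c q → ¬ q ∣ n → (j0 = none → wt ((n : ℤ) ^ 2) + w0 ≠ 0) →
  (Mm n π e r j0 c).det ≠ 0 → HypM ((n : ℤ) * q)

/-- EVEC: the admissible classes in terms of exponent vectors. -/
def EVEC : Prop := ∀ (n m k : ℕ) (π : Fin m → PP) (p e : Fin m → ℕ) (r f : Fin k → ℕ)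
  (w0 : ZMod 3) (c : Fin m → ZMod 3), NF n π p e r f →
  (∀ x : ℤ, x ≠ 0 → ¬ (3 : ℤ) ∣ x → (∀ l : ℕ, l.Prime → (l : ℤ) ∣ x → l ∣ n) →
    (AdmC n π w0 c x ↔
      (∀ i, (e i : ZMod 3) * (∑ i', (padicValInt (p i') x : ZMod 3) *
          (if i' = i then sym (π i).1 (conj (π i).1) else sym (π i).1 (p i' : Eis))) +
        (e i : ZMod 3) * (∑ j, (padicValInt (r j) x : ZMod 3) * sym (π i).1 (r j : Eis)) -
        (padicValInt (p i) x : ZMod 3) * (ch (π i).1 (n : Eis) + c i) = 0) ∧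
      (wt ((n : ℤ) ^ 2) + w0 = 0 → (∑ i, (padicValInt (p i) x : ZMod 3) * wt ((p i : ℤ) ^ 2)) +
        ∑ j, (padicValInt (r j) x : ZMod 3) * wt ((r j : ℤ) ^ 2) = 0)) ∧
    (C9 x ↔ (∑ i, (padicValInt (p i) x : ZMod 3) * wt ((p i : ℤ) ^ 2)) +
        ∑ j, (padicValInt (r j) x : ZMod 3) * wt ((r j : ℤ) ^ 2) = 0)) ∧
  ∀ x x' : ℤ, x ≠ 0 → x' ≠ 0 → (∀ l : ℕ, l.Prime → (l : ℤ) ∣ x → l ∣ n) →
    (∀ l : ℕ, l.Prime → (l : ℤ) ∣ x' → l ∣ n) →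
    ((∃ u v : ℤ, u ≠ 0 ∧ v ≠ 0 ∧ x * u ^ 3 = x' * v ^ 3) ↔
      (∀ i, (padicValInt (p i) x : ZMod 3) = padicValInt (p i) x') ∧
      ∀ j, (padicValInt (r j) x : ZMod 3) = padicValInt (r j) x')

/-- EBAS: basis of the admissible classes. -/
def EBAS : Prop := ∀ (n m k : ℕ) (π : Fin m → PP) (p e : Fin m → ℕ) (r f : Fin k → ℕ)
  (w0 : ZMod 3) (c : Fin m → ZMod 3) (j0 : Option (Fin k)), NF n π p e r f →
  ((j0 = none ∧ Even k ∧ wt ((n : ℤ) ^ 2) + w0 ≠ 0) ∨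
    (j0 ≠ none ∧ Odd k ∧ wt ((n : ℤ) ^ 2) + w0 = 0)) →
  (∀ j, j0 = some j → wt ((r j : ℤ) ^ 2) ≠ 0) →
  (Mp n π p e r j0 c).det ≠ 0 →
  ∃ (s : ℕ) (b : Fin s → ℤ), Even s ∧ (∀ i, AdmC n π w0 c (b i)) ∧
    (∀ i (π : PP), V π.1 (b i : Eis) ≤ 2) ∧
    (∀ g : Fin s → ℕ, (∃ i, ¬ 3 ∣ g i) → ¬ ∃ t : ℤ, t ^ 3 = ∏ i, b i ^ g i) ∧
    (∀ i j, i ≠ j → C9 (b i) ∨ C9 (b j)) ∧
    (∀ x : ℤ, AdmC n π w0 c x → ∃ (g : Fin s → ℕ) (u v : ℤ), u ≠ 0 ∧ v ≠ 0 ∧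
      x * u ^ 3 = (∏ i, b i ^ g i) * v ^ 3)

/-- HN: Hasse norm theorem for pure cubic fields, rational version. -/
def HN : Prop := ∀ x y : ℤ, x ≠ 0 → ¬ (3 : ℤ) ∣ x → (¬ ∃ c : ℤ, c ^ 3 = x) →
  (∀ π : PP, V π.1 (x : Eis) ≤ 2) → y ≠ 0 → ¬ (3 : ℤ) ∣ y →
  (∀ π : PP, tm π.1 (x : Eis) (y : Eis) = 0) →
  ∃ p q p' q' : ℤ, SolW x y p q p' q'

/-- ESYS: from a basis to a system with solutions. -/
def ESYS : Prop := ∀ (n m k : ℕ) (π : Fin m → PP) (p e : Fin m → ℕ) (r f : Fin k → ℕ)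
  (w0 : ZMod 3) (c : Fin m → ZMod 3) (s : ℕ) (b : Fin s → ℤ), NF n π p e r f →
  (∀ i, AdmC n π w0 c (b i)) → (∀ i (π : PP), V π.1 (b i : Eis) ≤ 2) →
  (∀ g : Fin s → ℕ, (∃ i, ¬ 3 ∣ g i) → ¬ ∃ t : ℤ, t ^ 3 = ∏ i, b i ^ g i) →
  (∀ i j, i ≠ j → C9 (b i) ∨ C9 (b j)) →
  ∃ P Q P' Q' : Fin s → Fin s → ℤ, Sys b P Q P' Q'

/-- ECL: for every admissible `n` there are a class and a system such that for all primes `q` of
the class a rational point on `X^3 + Y^3 = n q` gives a nontrivial kernel of the matrix. -/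
def ECL : Prop := ∀ (n m k : ℕ) (π : Fin m → PP) (p e : Fin m → ℕ) (r f : Fin k → ℕ),
  NF n π p e r f → (Even k ∨ ∃ j, r j % 9 = 2 ∨ r j % 9 = 5) →
  ∃ (w0 : ZMod 3) (c : Fin m → ZMod 3) (s : ℕ) (b : Fin s → ℤ) (P Q P' Q' : Fin s → Fin s → ℤ),
    Even s ∧ (∀ i, AdmC n π w0 c (b i)) ∧ Sys b P Q P' Q' ∧
    ∀ q : ℕ, q.Prime → InCl π w0 c q → ¬ q ∣ n → 3 < q →
      (∀ i, Adm ((n : ℤ) * q) (b i)) ∧ BOk ((n : ℤ) * q) ∧
      ((∃ X Y : ℚ, X ^ 3 + Y ^ 3 = (n : ℚ) * q) → (Mat b P Q P' Q' ((n : ℤ) * q)).det = 0)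

end Pool.Agent.PT


end

section

/-!
# Prime twists of rank zero: statements, part 3 (the Hasse norm theorem for pure cubic fields)
-/

open NumberField IsDedekindDomain Finset
open scoped nonZeroDivisors Pointwise

namespace Pool.Agent.PT

open Pool.Agent.Lib_helper18 Pool.Agent.Lib_helper18.Eis Pool.Agent.Lib_helper84.Cub

/-! ### Abstract statements -/

/-- HERBQ: Herbrand quotient argument with a subgroup of invariants detected by symbols. -/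
def HERBQ : Prop := ∀ (p : ℕ) [Fact p.Prime] (A G : Type) [CommGroup A] [Group G]
    [MulDistribMulAction G A] (g : G) (E E' : Subgroup A) (κ : Type) (ψ : A → κ → ZMod p)
    (e : ℕ) (d : Fin e → A), g ^ p = 1 → E.FG →
    (∀ u ∈ E, g • u ∈ E) → (∀ u, u ∈ E' ↔ u ∈ E ∧ g • u = u) →
    (∀ u ∈ E, ∏ i ∈ range p, g ^ i • u = 1 → ∃ v ∈ E, u = v / g • v) →
    (∀ u ∈ E', ∀ v ∈ E', ψ (u * v) = ψ u + ψ v) →
    (∀ u ∈ E, ψ (∏ i ∈ range p, g ^ i • u) = 0) →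
    (∀ i, d i ∈ E') →
    (∀ n : Fin e → ℤ, ∏ i, d i ^ n i = 1 → n = 0) →
    (∀ n : Fin e → ZMod p, ∑ i, n i • ψ (d i) = 0 → n = 0) →
    Module.finrank ℤ (Additive E) + p * e = p * Module.finrank ℤ (Additive E') + e →
    ∀ y ∈ E', ψ y = 0 → ∃ η ∈ E, y = ∏ i ∈ range p, g ^ i • η

/-- SUN: the theorem on `S`-units. -/
def SUN : Prop := ∀ (L : Type) [Field L] [NumberField L]
    (A : Finset (HeightOneSpectrum (𝓞 L))),
    ((A : Set (HeightOneSpectrum (𝓞 L))).unit L).FG ∧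
    Module.finrank ℤ (Additive ((A : Set (HeightOneSpectrum (𝓞 L))).unit L)) =
      NumberField.Units.rank L + A.card

/-- KUM: Kummer theory. -/
def KUM : Prop := ∀ (F L : Type) [Field F] [Field L] [CharZero F] [Algebra F L]
    [FiniteDimensional F L] [IsGalois F L] (ω : F) (κ : Type) [Fintype κ] (a : κ → F)
    (A : κ → L), ω ^ 2 + ω + 1 = 0 → (∀ i, a i ≠ 0) → (∀ i, A i ^ 3 = algebraMap F L (a i)) →
    (∀ n : κ → ℕ, (∃ b : F, ∏ i, a i ^ n i = b ^ 3) → ∀ i, 3 ∣ n i) →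
    ∀ v : κ → ZMod 3, ∃ g : L ≃ₐ[F] L, ∀ i, g (A i) = algebraMap F L ω ^ (v i).val * A i

/-! ### The field `Q(w, x^(1/3))` -/

/-- The data of the field `L = Q(w, x^(1/3))`. -/
structure CubF (x : ℤ) (L : Type) [Field L] [NumberField L] (ι : Eis →+* L) (θ : L)
    (σ c : L ≃ₐ[ℚ] L) : Prop where
  inj : Function.Injective ι
  cube : θ ^ 3 = (x : L)
  sθ : σ θ = ι w * θ
  sι : ∀ a : Eis, σ (ι a) = ι a
  cθ : c θ = θ
  cι : ∀ a : Eis, c (ι a) = ι (conj a)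
  rep : ∀ z : L, ∃ (m : ℤ) (a b d : Eis), m ≠ 0 ∧ (m : L) * z = ι a + ι b * θ + ι d * θ ^ 2
  lin : ∀ a b d : Eis, ι a + ι b * θ + ι d * θ ^ 2 = 0 → a = 0 ∧ b = 0 ∧ d = 0

/-- NFLD: existence of the field. -/
def NFLD : Prop := ∀ x : ℤ, x ≠ 0 → (¬ ∃ c : ℤ, c ^ 3 = x) →
  ∃ (L : Type) (_ : Field L) (_ : NumberField L) (ι : Eis →+* L) (θ : L) (σ c : L ≃ₐ[ℚ] L),
    CubF x L ι θ σ c

/-- NRK: the unit rank. -/
def NRK : Prop := ∀ (x : ℤ) (L : Type) [Field L] [NumberField L] (ι : Eis →+* L) (θ : L)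
  (σ c : L ≃ₐ[ℚ] L), CubF x L ι θ σ c → NumberField.Units.rank L = 2

/-- NHN: Hilbert 90. -/
def NHN : Prop := ∀ (x : ℤ) (L : Type) [Field L] [NumberField L] (ι : Eis →+* L) (θ : L)
  (σ c : L ≃ₐ[ℚ] L), x ≠ 0 → CubF x L ι θ σ c →
  (∀ z : L, σ (σ (σ z)) = z) ∧
  (∀ z : L, σ z = z → ∃ a b : Eis, b ≠ 0 ∧ z * ι b = ι a) ∧
  ∀ u : Lˣ, ∏ i ∈ range 3, σ ^ i • u = 1 → ∃ v : Lˣ, u = v / σ • v

/-- The primes of `L` above the place `v`. -/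
def Abv {L : Type} [Field L] [NumberField L] (ι : Eis →+* L) (v : Pl) :
    Set (HeightOneSpectrum (𝓞 L)) := {P | P.valuation L (ι (uni v)) < 1}

/-- The `S`-units of `L`. -/
noncomputable def SU {L : Type} [Field L] [NumberField L] (ι : Eis →+* L) (S : Finset Pl) : Subgroup Lˣ :=
  (⋃ v ∈ S, Abv ι v).unit L

/-- The `S`-units of `L` fixed by `σ`. -/
noncomputable def SF {L : Type} [Field L] [NumberField L] (ι : Eis →+* L) (σ : L ≃ₐ[ℚ] L) (S : Finset Pl) :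
    Subgroup Lˣ where
  carrier := {u | u ∈ SU ι S ∧ σ • u = u}
  one_mem' := ⟨one_mem _, smul_one _⟩
  mul_mem' := fun {a b} ha hb => ⟨mul_mem ha.1 hb.1, by rw [smul_mul', ha.2, hb.2]⟩
  inv_mem' := fun {a} ha => ⟨inv_mem ha.1, by rw [smul_inv', ha.2]⟩

/-- NTR: the primes of `L` above the primes of `Z[w]`. -/
def NTR : Prop := ∀ (x : ℤ) (L : Type) [Field L] [NumberField L] (ι : Eis →+* L) (θ : L)
  (σ c : L ≃ₐ[ℚ] L), x ≠ 0 → ¬ (3 : ℤ) ∣ x → CubF x L ι θ σ c →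
  (∀ (P : HeightOneSpectrum (𝓞 L)) (a : Eis), P.valuation L (ι a) ≤ 1) ∧
  (∀ P : HeightOneSpectrum (𝓞 L), ∃ v : Pl, P ∈ Abv ι v ∧
    ∀ a : Eis, P.valuation L (ι a) < 1 → uni v ∣ a) ∧
  (∀ P : HeightOneSpectrum (𝓞 L), ∃ P' : HeightOneSpectrum (𝓞 L),
    ∀ z : L, P'.valuation L (σ z) = P.valuation L z) ∧
  (∀ v : Pl, (Abv ι v).Finite ∧ (Abv ι v).Nonempty) ∧
  (∀ (v : Pl) (P P' : HeightOneSpectrum (𝓞 L)), P ∈ Abv ι v → P' ∈ Abv ι v →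
    ∃ i : ℕ, ∀ z : L, P'.valuation L ((σ ^ i) z) = P.valuation L z) ∧
  (∀ (π : PP) (P : HeightOneSpectrum (𝓞 L)), ¬ π.1 ∣ (x : Eis) → P ∈ Abv ι (some π) →
    P.valuation L (ι π.1) = WithZero.exp (-1 : ℤ))

open Classical in
/-- NCNT: the number of primes above a place. -/
def NCNT : Prop := ∀ (x : ℤ) (L : Type) [Field L] [NumberField L] (ι : Eis →+* L) (θ : L)
  (σ c : L ≃ₐ[ℚ] L), x ≠ 0 → ¬ (3 : ℤ) ∣ x → (∀ π : PP, V π.1 (x : Eis) ≤ 2) →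
  CubF x L ι θ σ c → ∀ v : Pl, Nat.card (Abv ι v) = if LC (uni v) x then 3 else 1

/-- NFIX: the fixed `S`-units. -/
def NFIX : Prop := ∀ (x : ℤ) (L : Type) [Field L] [NumberField L] (ι : Eis →+* L) (θ : L)
  (σ c : L ≃ₐ[ℚ] L), x ≠ 0 → ¬ (3 : ℤ) ∣ x → CubF x L ι θ σ c → ∀ S : Finset Pl,
  (∀ (u : Lˣ) (a : Eis), (u : L) = ι a → (∀ v : Pl, uni v ∣ a → v ∈ S) → u ∈ SF ι σ S) ∧
  (∀ u ∈ SF ι σ S, ∃ a b : Eis, a ≠ 0 ∧ b ≠ 0 ∧ (u : L) * ι b = ι a) ∧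
  Module.finrank ℤ (Additive (SF ι σ S)) = S.card

/-- NHO: the first cohomology of the `S`-units. -/
def NHO : Prop := ∀ (x : ℤ) (L : Type) [Field L] [NumberField L] (ι : Eis →+* L) (θ : L)
  (σ c : L ≃ₐ[ℚ] L), x ≠ 0 → ¬ (3 : ℤ) ∣ x → CubF x L ι θ σ c → ∀ S : Finset Pl,
  none ∈ S → (∀ π : PP, π.1 ∣ (x : Eis) → some π ∈ S) →
  (∀ u ∈ SU ι S, σ • u ∈ SU ι S) ∧
  ∀ u ∈ SU ι S, ∏ i ∈ range 3, σ ^ i • u = 1 → ∃ v ∈ SU ι S, u = v / σ • v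

/-- NNS: norms have trivial symbols with `x`. -/
def NNS : Prop := ∀ (x : ℤ) (L : Type) [Field L] [NumberField L] (ι : Eis →+* L) (θ : L)
  (σ c : L ≃ₐ[ℚ] L), x ≠ 0 → CubF x L ι θ σ c →
  ∀ (π : Eis) (s : Eis → Eis → ZMod 3) (e : ℕ), LSym π s e →
  ∀ (z : L) (a b : Eis), z ≠ 0 → a ≠ 0 → b ≠ 0 → z * σ z * σ (σ z) * ι b = ι a →
    s a (x : Eis) = s b (x : Eis)

/-! ### Auxiliary primes -/

/-- NAUX: primes with prescribed cubic residue symbols up to a common factor. -/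
def NAUX : Prop := ∀ (t : ℕ) (π : Fin t → PP) (r : Fin t → ZMod 3) (A : Finset PP),
  Function.Injective π → ∃ ρ : PP, ρ ∉ A ∧ ∃ ε : ZMod 3, ε ≠ 0 ∧
    ∀ i, sym ρ.1 (π i).1 = ε * r i

open Classical in
/-- NGEN: a set of places and sufficiently many units with independent symbols. -/
def NGEN : Prop := ∀ (x : ℤ) (S₀ : Finset Pl), x ≠ 0 → ¬ (3 : ℤ) ∣ x →
  (∀ π : PP, V π.1 (x : Eis) ≤ 2) → (¬ ∃ c : ℤ, c ^ 3 = x) → none ∈ S₀ →
  (∀ π : PP, π.1 ∣ (x : Eis) → some π ∈ S₀) →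
  (∀ π : PP, some π ∈ S₀ → ¬ LC π.1 x → π.1 ∣ (x : Eis)) →
  ∃ (S : Finset Pl) (e : ℕ) (d : Fin e → Eis), S₀ ⊆ S ∧ (∀ v ∈ S, v ∉ S₀ → LC (uni v) x) ∧
    (S.filter fun v => ¬ LC (uni v) x).card = e + 1 ∧
    (∀ i, d i ≠ 0) ∧ (∀ i (v : Pl), uni v ∣ d i → v ∈ S) ∧
    (∀ n m : Fin e → ℕ, ∏ i, d i ^ n i = ∏ i, d i ^ m i → n = m) ∧
    (∀ n : Fin e → ZMod 3, (∀ v : Pl, ∑ i, n i * sy v (d i) (x : Eis) = 0) → n = 0)

/-! ### The theorem -/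

/-- NMAIN: the norm theorem for `L / Q(w)`. -/
def NMAIN : Prop := ∀ (x : ℤ) (L : Type) [Field L] [NumberField L] (ι : Eis →+* L) (θ : L)
  (σ c : L ≃ₐ[ℚ] L), x ≠ 0 → ¬ (3 : ℤ) ∣ x → (∀ π : PP, V π.1 (x : Eis) ≤ 2) →
  (¬ ∃ c : ℤ, c ^ 3 = x) → CubF x L ι θ σ c →
  ∀ y : ℤ, y ≠ 0 → ¬ (3 : ℤ) ∣ y → (∀ π : PP, tm π.1 (x : Eis) (y : Eis) = 0) →
    (∀ π : PP, π.1 ∣ (y : Eis) → ¬ LC π.1 x → π.1 ∣ (x : Eis)) →
    ∃ z : L, z ≠ 0 ∧ z * σ z * σ (σ z) = (y : L)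

/-- NDESC: descent to the real cubic field. -/
def NDESC : Prop := ∀ (x : ℤ) (L : Type) [Field L] [NumberField L] (ι : Eis →+* L) (θ : L)
  (σ c : L ≃ₐ[ℚ] L), x ≠ 0 → CubF x L ι θ σ c → ∀ (y : ℤ) (z : L), y ≠ 0 → z ≠ 0 →
    z * σ z * σ (σ z) = (y : L) → ∃ p q p' q' : ℤ, SolW x y p q p' q'

end Pool.Agent.PT


end

section

/-!
# Prime twists of rank zero: statements, part 4 (the governing field, densities, final assembly)
-/

open NumberField IsDedekindDomain Finset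
open scoped nonZeroDivisors Pointwise

namespace Pool.Agent.PT

open Pool.Agent.Lib_helper18 Pool.Agent.Lib_helper18.Eis Pool.Agent.Lib_helper84.Cub

/-! ### Dependence of the pairing on the prime -/

/-- The cubic residue symbol modulo the prime `Q` of
`[(p + q w^2 r)(p' + q' w r)] / [(p + q w r)(p' + q' w^2 r)]`. -/
noncomputable def TAUV (Q : ℕ) (p q p' q' r : ℤ) : ZMod 3 :=
  sym (Q : Eis) (Lf p q 2 r) + sym (Q : Eis) (Lf p' q' 1 r) -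
    sym (Q : Eis) (Lf p q 1 r) - sym (Q : Eis) (Lf p' q' 2 r)

/-- DCONST: the pairing `O_{nQ}(b, η)` as a function of the prime `Q`. -/
def DCONST : Prop := ∀ (n : ℕ) (b x p q p' q' : ℤ), 0 < n → ¬ 3 ∣ n → Sol b x p q p' q' →
  b ≠ 0 → x ≠ 0 → ∃ f₀ : ℕ, 0 < f₀ ∧ ∀ f : ℕ, 0 < f → f₀ ∣ f →
  ∃ (C : ZMod 3) (Φ : (ZMod f)ˣ →* Multiplicative (ZMod 3)) (N₀ : ℕ),
    ∀ (Q : ℕ) (hQ : Q.Coprime f), Q.Prime → N₀ < Q → Q % 3 = 2 →
      BOk ((n : ℤ) * Q) → Adm ((n : ℤ) * Q) b → Adm ((n : ℤ) * Q) x →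
      ∀ r : ℤ, (Q : ℤ) ∣ r ^ 3 - b → OO ((n : ℤ) * Q) b x p q p' q' =
        C + (Φ (ZMod.unitOfCoprime Q hQ)).toAdd - TAUV Q p q p' q' r

/-! ### The governing field -/

/-- `a` is `2` modulo `3`. -/
def M2 {f : ℕ} (a : (ZMod f)ˣ) : Prop := (a : ZMod f).val % 3 = 2

/-- the numerator of `α` -/
def aN {L : Type} [Field L] (ω : L) (p q p' q' : ℤ) (ρ : L) : L :=
  (p + q * ω ^ 2 * ρ) * (p' + q' * ω * ρ)

/-- the denominator of `α` -/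
def aD {L : Type} [Field L] (ω : L) (p q p' q' : ℤ) (ρ : L) : L :=
  (p + q * ω * ρ) * (p' + q' * ω ^ 2 * ρ)

/-- The governing field. -/
structure GovF {s : ℕ} (b : Fin s → ℤ) (p q p' q' : Fin s → Fin s → ℤ) (f : ℕ)
    (L : Type) [Field L] [NumberField L] (ζ ω : L) : Prop where
  gal : IsGalois ℚ L
  prim : IsPrimitiveRoot ζ f
  nine : 9 ∣ f
  hω : ω = ζ ^ (f / 3)
  rel : ω ^ 2 + ω + 1 = 0
  root : ∀ j, ∃ θ : L, θ ^ 3 = (b j : L)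
  A : ∀ j i, j ≠ i → ∀ ρ : L, ρ ^ 3 = (b j : L) → ∃ A : L,
    A ^ 3 * aD ω (p j i) (q j i) (p' j i) (q' j i) ρ = aN ω (p j i) (q j i) (p' j i) (q' j i) ρ
  D : ∀ j i, j ≠ i → ∀ ρ : L, ρ ^ 3 = (b j : L) →
    aD ω (p j i) (q j i) (p' j i) (q' j i) ρ ≠ 0 ∧ aN ω (p j i) (q j i) (p' j i) (q' j i) ρ ≠ 0

/-- GZERO: existence of the governing field. -/
def GZERO : Prop := ∀ (s : ℕ) (b : Fin s → ℤ) (p q p' q' : Fin s → Fin s → ℤ) (f : ℕ),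
  Sys b p q p' q' → 0 < f → 9 ∣ f →
  ∃ (L : Type) (_ : Field L) (_ : NumberField L) (ζ ω : L), GovF b p q p' q' f L ζ ω

/-- GCHI: the cyclotomic character. -/
def GCHI : Prop := ∀ (L : Type) [Field L] [NumberField L] [IsGalois ℚ L] (f : ℕ) (ζ : L),
  0 < f → IsPrimitiveRoot ζ f → ∃ χ : (L ≃ₐ[ℚ] L) →* (ZMod f)ˣ, Function.Surjective χ ∧
    (∀ g : L ≃ₐ[ℚ] L, g ζ = ζ ^ ((χ g : ZMod f)).val) ∧
    (∀ (Q : ℕ) (hQ : Q.Coprime f), Q.Prime → ∀ (P : Ideal (𝓞 L)) (φ : L ≃ₐ[ℚ] L), P.IsPrime →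
      (Q : 𝓞 L) ∈ P → IsArithFrobAt ℤ φ P → χ φ = ZMod.unitOfCoprime Q hQ)

/-- GKI: an integer that is a cube in a cyclotomic field is a cube. -/
def GKI : Prop := ∀ (L : Type) [Field L] [NumberField L] (f : ℕ) (ζ β : L) (d : ℤ),
  0 < f → ζ ^ f = 1 → β ∈ IntermediateField.adjoin ℚ {ζ} → β ^ 3 = (d : L) →
  ∃ t : ℤ, t ^ 3 = d

/-- The relation between `g` and `t = t_{ji}(g)`: `g A * A = ω^t` for all `A` with
`A^3 = α_{ji}(ρ)`, `ρ^3 = b_j`, `g ρ = ρ`. -/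
def IsT {s : ℕ} (b : Fin s → ℤ) (p q p' q' : Fin s → Fin s → ℤ) {L : Type} [Field L]
    [NumberField L] (ω : L) (g : L ≃ₐ[ℚ] L) (j i : Fin s) (t : ZMod 3) : Prop :=
  ∀ ρ A : L, ρ ^ 3 = (b j : L) → g ρ = ρ →
    A ^ 3 * aD ω (p j i) (q j i) (p' j i) (q' j i) ρ = aN ω (p j i) (q j i) (p' j i) (q' j i) ρ →
    g A * A = ω ^ t.val

/-- GT: existence, uniqueness and properties of `t`. -/
def GT : Prop := ∀ (s : ℕ) (b : Fin s → ℤ) (p q p' q' : Fin s → Fin s → ℤ) (f : ℕ)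
  (L : Type) [Field L] [NumberField L] (ζ ω : L), Sys b p q p' q' → GovF b p q p' q' f L ζ ω →
  ∀ j i, j ≠ i →
  (∀ g : L ≃ₐ[ℚ] L, g ω = ω ^ 2 → ∃! t : ZMod 3, IsT b p q p' q' ω g j i t) ∧
  (∀ (g τ : L ≃ₐ[ℚ] L) (t : ZMod 3), g ω = ω ^ 2 → IsT b p q p' q' ω g j i t →
    IsT b p q p' q' ω (τ * g * τ⁻¹) j i t) ∧
  (∀ (g : L ≃ₐ[ℚ] L) (t : ZMod 3) (k : ℕ), g ω = ω ^ 2 → Odd k → IsT b p q p' q' ω g j i t →
    IsT b p q p' q' ω (g ^ k) j i (k * t))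

/-- GC: the commutators. -/
def GC : Prop := ∀ (s : ℕ) (b : Fin s → ℤ) (p q p' q' : Fin s → Fin s → ℤ) (f : ℕ)
  (L : Type) [Field L] [NumberField L] (ζ ω : L), Sys b p q p' q' → GovF b p q p' q' f L ζ ω →
  ∀ v : Fin s → Fin s → ZMod 3, ∃ z : L ≃ₐ[ℚ] L, z ζ = ζ ∧
    (∀ (j : Fin s) (ρ : L), ρ ^ 3 = (b j : L) → z ρ = ρ) ∧
    ∀ j i, j < i → ∀ ρ A : L, ρ ^ 3 = (b j : L) →
      A ^ 3 * aD ω (p j i) (q j i) (p' j i) (q' j i) ρ =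
        aN ω (p j i) (q j i) (p' j i) (q' j i) ρ →
      z A = ω ^ (v j i).val * A

/-- GFR: Frobenius elements and `t`. -/
def GFR : Prop := ∀ (s : ℕ) (b : Fin s → ℤ) (p q p' q' : Fin s → Fin s → ℤ) (f : ℕ)
  (L : Type) [Field L] [NumberField L] (ζ ω : L), Sys b p q p' q' → GovF b p q p' q' f L ζ ω →
  ∃ N₀ : ℕ, ∀ Q : ℕ, Q.Prime → N₀ < Q → ∀ (P : Ideal (𝓞 L)), P.IsPrime → (Q : 𝓞 L) ∈ P →
    (∀ g : L ≃ₐ[ℚ] L, MulAction.stabilizer (L ≃ₐ[ℚ] L) P = Subgroup.zpowers g →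
      ∃ k : ℕ, k.Coprime (orderOf g) ∧ IsArithFrobAt ℤ (g ^ k) P) ∧
    ∀ φ : L ≃ₐ[ℚ] L, IsArithFrobAt ℤ φ P → Q % 3 = 2 → φ ω = ω ^ 2 ∧
      ∀ j i, j ≠ i → ∀ (r : ℤ) (t : ZMod 3), (Q : ℤ) ∣ r ^ 3 - b j →
        IsT b p q p' q' ω φ j i t → t = TAUV Q (p j i) (q j i) (p' j i) (q' j i) r

/-- GALD: summary of the governing field. -/
def GALD : Prop := ∀ (s : ℕ) (b : Fin s → ℤ) (p q p' q' : Fin s → Fin s → ℤ) (f : ℕ),
  Sys b p q p' q' → 0 < f → 9 ∣ f →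
  ∃ (L : Type) (_ : Field L) (_ : NumberField L) (_ : IsGalois ℚ L)
    (χ : (L ≃ₐ[ℚ] L) →* (ZMod f)ˣ) (t : (L ≃ₐ[ℚ] L) → Fin s → Fin s → ZMod 3) (N₀ : ℕ),
    Function.Surjective χ ∧
    (∀ g τ : L ≃ₐ[ℚ] L, M2 (χ g) → ∀ j i, j ≠ i → t (τ * g * τ⁻¹) j i = t g j i) ∧
    (∀ (g : L ≃ₐ[ℚ] L) (k : ℕ), M2 (χ g) → Odd k → ∀ j i, j ≠ i → t (g ^ k) j i = k * t g j i) ∧
    (∀ (a : (ZMod f)ˣ) (v v' : Fin s → Fin s → ZMod 3), M2 a →
      Nat.card {g : L ≃ₐ[ℚ] L // χ g = a ∧ ∀ j i, j < i → t g j i = v j i} =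
        Nat.card {g : L ≃ₐ[ℚ] L // χ g = a ∧ ∀ j i, j < i → t g j i = v' j i}) ∧
    ∀ (Q : ℕ) (hQ : Q.Coprime f), Q.Prime → N₀ < Q → ∀ (P : Ideal (𝓞 L)) (g : L ≃ₐ[ℚ] L),
      P.IsPrime → (Q : 𝓞 L) ∈ P →
      MulAction.stabilizer (L ≃ₐ[ℚ] L) P = Subgroup.zpowers g →
      ∃ k : ℕ, k.Coprime (orderOf g) ∧ χ (g ^ k) = ZMod.unitOfCoprime Q hQ ∧
        (Q % 3 = 2 → ∀ j i, j ≠ i → ∀ r : ℤ, (Q : ℤ) ∣ r ^ 3 - b j →
          t (g ^ k) j i = TAUV Q (p j i) (q j i) (p' j i) (q' j i) r)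

/-! ### Counting and densities -/

/-- The alternating matrix with given entries above the diagonal. -/
def alt {s : ℕ} (v : Fin s → Fin s → ZMod 3) : Matrix (Fin s) (Fin s) (ZMod 3) := fun j i =>
  if j < i then v j i else if i < j then - v i j else 0

/-- SING: at most `3/8` of the alternating matrices of even size over `F_3` are singular. -/
def SING : Prop := ∀ s : ℕ, Even s →
  8 * Nat.card {v : Fin s → Fin s → ZMod 3 // (alt v).det = 0} ≤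
    3 * Nat.card (Fin s → Fin s → ZMod 3)

/-- DCNT: elements with singular matrix in a class of the Galois group. -/
def DCNT : Prop := ∀ (s f : ℕ) (G : Type) [Group G] [Finite G] (χ : G →* (ZMod f)ˣ)
  (t : G → Fin s → Fin s → ZMod 3), Even s → 0 < f → Function.Surjective χ →
  (∀ (a : (ZMod f)ˣ) (v v' : Fin s → Fin s → ZMod 3), M2 a →
    Nat.card {g : G // χ g = a ∧ ∀ j i, j < i → t g j i = v j i} =
      Nat.card {g : G // χ g = a ∧ ∀ j i, j < i → t g j i = v' j i}) →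
  ∀ (a : (ZMod f)ˣ) (C : Fin s → Fin s → ZMod 3), M2 a →
    8 * Nat.card {g : G // χ g = a ∧ (alt (C - t g)).det = 0} ≤
      3 * Nat.card {g : G // χ g = a} ∧
    8 * Nat.card {g : G // χ g = a ∧ (alt (C + t g)).det = 0} ≤
      3 * Nat.card {g : G // χ g = a} ∧
    Nat.card {g : G // χ g = a} * f.totient = Nat.card G

/-- DIR: upper bound for the number of primes in an arithmetic progression. -/
def DIR : Prop := ∀ (f : ℕ) (a : (ZMod f)ˣ), 0 < f → ∃ C : ℝ, ∀ s : ℝ, 1 < s → s ≤ 2 →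
  ∑' q : {q : ℕ // q.Prime ∧ (q : ZMod f) = a}, (q : ℝ) ^ (-s) ≤
    (1 / (f.totient : ℝ)) * Real.log (1 / (s - 1)) + C

/-- CLSC: the classes modulo `f` and their number. -/
def CLSC : Prop := ∀ (m : ℕ) (π : Fin m → PP) (p : Fin m → ℕ), (∀ i, (p i).Prime) →
  (∀ i, p i % 3 = 1) → (∀ i, (p i : Eis) = (π i).1 * conj (π i).1) → Function.Injective p →
  ∀ f : ℕ, 0 < f → 9 ∣ f → (∀ i, p i ∣ f) →
  ∃ κ : (ZMod f)ˣ →* Multiplicative (Fin (m + 1) → ZMod 3),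
    (∀ (Q : ℕ) (hQ : Q.Coprime f), (κ (ZMod.unitOfCoprime Q hQ)).toAdd =
      Fin.cons (wt ((Q : ℤ) ^ 2)) (fun i => sym (π i).1 (Q : Eis))) ∧
    ∀ c : Fin (m + 1) → ZMod 3,
      Nat.card {a : (ZMod f)ˣ // M2 a ∧ (κ a).toAdd = c} * (2 * 3 ^ (m + 1)) = f.totient

/-- DENS: the density of the primes with nonsingular matrix. -/
def DENS : Prop := ∀ (s : ℕ) (b : Fin s → ℤ) (p q p' q' : Fin s → Fin s → ℤ) (f m : ℕ)
  (κ : (ZMod f)ˣ →* Multiplicative (Fin (m + 1) → ZMod 3)) (c : Fin (m + 1) → ZMod 3)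
  (C : Fin s → Fin s → ZMod 3) (Φ : (ZMod f)ˣ →* Multiplicative (Fin s → Fin s → ZMod 3)),
  Sys b p q p' q' → Even s → 0 < f → 9 ∣ f →
  (∀ c : Fin (m + 1) → ZMod 3,
    Nat.card {a : (ZMod f)ˣ // M2 a ∧ (κ a).toAdd = c} * (2 * 3 ^ (m + 1)) = f.totient) →
  RI.DensityGE {Q : ℕ | ∃ hQ : Q.Coprime f, Q % 3 = 2 ∧
    (κ (ZMod.unitOfCoprime Q hQ)).toAdd = c ∧
    ∀ τ : Fin s → Fin s → ZMod 3,
      (∀ j i, j ≠ i → ∀ r : ℤ, (Q : ℤ) ∣ r ^ 3 - b j →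
        τ j i = TAUV Q (p j i) (q j i) (p' j i) (q' j i) r) →
      (alt (C + (Φ (ZMod.unitOfCoprime Q hQ)).toAdd - τ)).det ≠ 0}
    (1 / (24 * 3 ^ m))

/-- FINA: the theorem for numbers in normal form. -/
def FINA : Prop := ∀ (n m k : ℕ) (π : Fin m → PP) (p e : Fin m → ℕ) (r f : Fin k → ℕ),
  NF n π p e r f → (Even k ∨ ∃ j, r j % 9 = 2 ∨ r j % 9 = 5) →
  RI.DensityGE {q : ℕ | ¬ ∃ X Y : ℚ, X ^ 3 + Y ^ 3 = (n : ℚ) * q} (1 / (24 * 3 ^ m))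

/-- MAINT: the theorem. -/
def MAINT : Prop := ∀ n : ℕ, 0 < n → ¬ 3 ∣ n →
  (Even (Nat.card {p : ℕ // p.Prime ∧ p % 3 = 2 ∧ ¬ 3 ∣ n.factorization p}) ∨
    ∃ p : ℕ, p.Prime ∧ (p % 9 = 2 ∨ p % 9 = 5) ∧ ¬ 3 ∣ n.factorization p) →
  ∃ C : ℝ, ∀ s : ℝ, 1 < s → s ≤ 2 →
    1 / (24 * 3 ^ Nat.card {p : ℕ // p.Prime ∧ p % 3 = 1 ∧ ¬ 3 ∣ n.factorization p}) *
      Real.log (1 / (s - 1)) - C ≤
    ∑' q : {q : ℕ // q.Prime ∧ ¬ ∃ X Y : ℚ, X ^ 3 + Y ^ 3 = (n : ℚ) * q}, (q : ℝ) ^ (-s)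

end Pool.Agent.PT


end

section

/-!
# PT: CLSC, the classes modulo `f` and their number
-/

namespace Pool.Agent.PT

open Pool.Agent.Lib_helper18 Pool.Agent.Lib_helper18.Eis Pool.Agent.Lib_helper84.Cub

namespace CLSC

theorem fib_card {G H : Type*} [Group G] [Group H] [Finite G] (φ : G →* H)
    (hφ : Function.Surjective φ) (y : H) :
    Nat.card {a : G // φ a = y} * Nat.card H = Nat.card G := by
  have h1 : Nat.card {a : G // φ a = y} = Nat.card φ.ker :=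
    Nat.card_congr (MonoidHom.fiberEquivKerOfSurjective hφ y)
  rw [h1]
  have h2 := Subgroup.card_mul_index φ.ker
  rw [Subgroup.index_ker, MonoidHom.range_eq_top.2 hφ] at h2
  simpa using h2

theorem wt_congr {m n : ℤ} (h : (9 : ℤ) ∣ m - n) : wt m = wt n := by
  obtain ⟨k, hk⟩ := h
  unfold wt
  have h1 : (m - 1) / 3 = (n - 1) / 3 + 3 * k := by omega
  rw [h1]
  push_cast
  have h3 : (3 : ZMod 3) = 0 := by decide
  rw [h3]; ring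

/-- the value of `κ` at an integer -/
noncomputable def kv {m : ℕ} (π : Fin m → PP) (n : ℕ) : Fin (m + 1) → ZMod 3 :=
  Fin.cons (wt ((n : ℤ) ^ 2)) (fun i => sym (π i).1 (n : Eis))

theorem kv_congr {m : ℕ} (π : Fin m → PP) (p : Fin m → ℕ)
    (hπ : ∀ i, (p i : Eis) = (π i).1 * conj (π i).1) {a b : ℕ} (h9 : (9 : ℤ) ∣ (a : ℤ) - b)
    (hp : ∀ i, (p i : ℤ) ∣ (a : ℤ) - b) : kv π a = kv π b := by
  unfold kv
  have h1 : wt ((a : ℤ) ^ 2) = wt ((b : ℤ) ^ 2) := by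
    apply wt_congr
    have e : (a : ℤ) ^ 2 - (b : ℤ) ^ 2 = ((a : ℤ) - b) * (a + b) := by ring
    rw [e]
    exact Dvd.dvd.mul_right h9 _
  have h2 : (fun i => sym (π i).1 (a : Eis)) = fun i => sym (π i).1 (b : Eis) := by
    funext i
    apply sym_congr
    obtain ⟨k, hk⟩ := hp i
    have e : (a : Eis) - (b : Eis) = (p i : Eis) * (k : Eis) := by
      have : (((a : ℤ) - b : ℤ) : Eis) = (((p i : ℤ) * k : ℤ) : Eis) := by rw [hk]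
      push_cast at this
      exact this
    rw [e, hπ i]
    exact ⟨conj (π i).1 * k, by ring⟩
  rw [h1, h2]

theorem norm_of (π : Eis) (p : ℕ) (h : (p : Eis) = π * conj π) : π.norm = p := by
  rw [mul_conj] at h
  have h1 := congrArg Eis.re h
  simpa using h1.symm

theorem kv_mul (hSPP : SPP) {m : ℕ} (π : Fin m → PP) (p : Fin m → ℕ) (hp : ∀ i, (p i).Prime)
    (hπ : ∀ i, (p i : Eis) = (π i).1 * conj (π i).1) {a b : ℕ} (ha9 : ¬ 3 ∣ a) (hb9 : ¬ 3 ∣ b)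
    (ha : ∀ i, ¬ p i ∣ a) (hb : ∀ i, ¬ p i ∣ b) : kv π (a * b) = kv π a + kv π b := by
  funext j
  refine Fin.cases ?_ (fun i => ?_) j
  · show wt (((a * b : ℕ) : ℤ) ^ 2) = wt ((a : ℤ) ^ 2) + wt ((b : ℤ) ^ 2)
    rw [← wt_mul (sq_mod_three (by exact_mod_cast ha9)) (sq_mod_three (by exact_mod_cast hb9))]
    congr 1
    push_cast
    ring
  · show sym (π i).1 ((a * b : ℕ) : Eis) = sym (π i).1 (a : Eis) + sym (π i).1 (b : Eis)
    have : Fact (p i).Prime := ⟨hp i⟩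
    have hn := norm_of _ _ (hπ i)
    rw [Nat.cast_mul]
    refine sym_mul (π i).2.1 (hSPP.2.2.2.1 (π i)).1 ?_ ?_
    · rw [dvd_natCast_iff hn]
      exact ha i
    · rw [dvd_natCast_iff hn]
      exact hb i

/-- the cubic character modulo `p` is surjective -/
theorem sym_surj {π : Eis} (hπ : Prime π) (h3 : ¬ π ∣ 3) {p : ℕ} (hp : p.Prime)
    (hn : π.norm = p) (hp3 : p % 3 = 1) (t : ZMod 3) : ∃ n : ℕ, ¬ p ∣ n ∧ sym π (n : Eis) = t := by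
  have : Fact p.Prime := ⟨hp⟩
  obtain ⟨g, hg⟩ := IsCyclic.exists_generator (α := (ZMod p)ˣ)
  have hord : orderOf g = p - 1 := by
    rw [orderOf_eq_card_of_forall_mem_zpowers hg, Nat.card_eq_fintype_card,
      ZMod.card_units_eq_totient, Nat.totient_prime hp]
  set k := (g : ZMod p).val with hk
  have hkg : ((k : ℕ) : ZMod p) = (g : ZMod p) := ZMod.natCast_zmod_val _
  have hpk : ¬ p ∣ k := by
    rw [← ZMod.natCast_eq_zero_iff, hkg]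
    exact g.ne_zero
  have hπk : ¬ π ∣ (k : Eis) := by
    rw [dvd_natCast_iff hn]
    exact hpk
  have hN : N π = p := by
    have := N_cast π
    rw [hn] at this
    exact_mod_cast this
  have hs : sym π (k : Eis) ≠ 0 := by
    intro h0
    have h1 := sym_spec hπ h3 hπk
    rw [h0, hN] at h1
    have e : (k : Eis) ^ ((p - 1) / 3) - w ^ (0 : ZMod 3).val =
        (((k : ℤ) ^ ((p - 1) / 3) - 1 : ℤ) : Eis) := by
      have : (0 : ZMod 3).val = 0 := rfl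
      rw [this]
      push_cast
      ring
    rw [e, dvd_intCast_iff hn] at h1
    have h2 : ((k : ZMod p)) ^ ((p - 1) / 3) = 1 := by
      have h3' := (ZMod.intCast_zmod_eq_zero_iff_dvd _ p).2 h1
      push_cast at h3'
      rwa [sub_eq_zero] at h3'
    rw [hkg] at h2
    have h4 : g ^ ((p - 1) / 3) = 1 := by
      ext
      push_cast
      exact h2
    have h5 := orderOf_dvd_of_pow_eq_one h4
    rw [hord] at h5
    have h6 : 0 < (p - 1) / 3 := by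
      have := hp.two_le
      omega
    have h7 := Nat.le_of_dvd h6 h5
    omega
  have hex : ∃ j : ℕ, (j : ZMod 3) * sym π (k : Eis) = t := by
    generalize sym π (k : Eis) = s at hs
    revert s t
    intro t s hs
    refine ⟨(t * s).val, ?_⟩
    rw [ZMod.natCast_zmod_val]
    revert s t
    decide
  obtain ⟨j, hj⟩ := hex
  refine ⟨k ^ j, ?_, ?_⟩
  · intro h
    exact hpk (hp.dvd_of_dvd_pow h)
  · rw [Nat.cast_pow, sym_pow hπ h3 hπk, hj]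

theorem nine_surj (e : (ZMod 3)ˣ) (t : ZMod 3) :
    ∃ n : ℕ, ¬ 3 ∣ n ∧ ((n : ℕ) : ZMod 3) = e ∧ wt ((n : ℤ) ^ 2) = t := by
  have key : ∀ (e : (ZMod 3)ˣ) (t : ZMod 3), ∃ n ∈ Finset.range 9, ¬ 3 ∣ n ∧
      ((n : ℕ) : ZMod 3) = e ∧ wt ((n : ℤ) ^ 2) = t := by
    unfold wt
    decide
  obtain ⟨n, -, h⟩ := key e t
  exact ⟨n, h⟩

end CLSC

open _root_.Pool.Agent.PT.CLSC in
theorem CLSC_thm (hSPP : SPP) : CLSC := by
  intro m π p hp hp3 hpπ hinj f hf h9 hpf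
  have : NeZero f := ⟨hf.ne'⟩
  have h3f : 3 ∣ f := (by norm_num : 3 ∣ 9).trans h9
  -- elements coprime to `f`
  have hco3 : ∀ Q : ℕ, Q.Coprime f → ¬ 3 ∣ Q := by
    intro Q hQ h
    have := Nat.Coprime.eq_one_of_dvd (hQ.coprime_dvd_left h) h3f
    omega
  have hcop : ∀ Q : ℕ, Q.Coprime f → ∀ i, ¬ p i ∣ Q := by
    intro Q hQ i h
    exact (hp i).one_lt.ne' (Nat.Coprime.eq_one_of_dvd (hQ.coprime_dvd_left h) (hpf i))
  have hcongr : ∀ a b : ℕ, (f : ℤ) ∣ (a : ℤ) - b → kv π a = kv π b := by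
    intro a b h
    refine kv_congr π p hpπ ((Int.natCast_dvd_natCast.2 h9).trans h) fun i => ?_
    exact (Int.natCast_dvd_natCast.2 (hpf i)).trans h
  have hval : ∀ a : (ZMod f)ˣ, (a : ZMod f).val.Coprime f := fun a => ZMod.val_coe_unit_coprime a
  let κ : (ZMod f)ˣ →* Multiplicative (Fin (m + 1) → ZMod 3) :=
    MonoidHom.mk' (fun a => Multiplicative.ofAdd (kv π (a : ZMod f).val)) (by
      intro a b
      rw [← ofAdd_add]
      congr 1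
      rw [← kv_mul hSPP π p hp hpπ (hco3 _ (hval a)) (hco3 _ (hval b)) (hcop _ (hval a))
        (hcop _ (hval b))]
      apply hcongr
      rw [← ZMod.intCast_eq_intCast_iff_dvd_sub]
      push_cast
      simp)
  have hκ : ∀ a : (ZMod f)ˣ, (κ a).toAdd = kv π (a : ZMod f).val := fun a => rfl
  have hκQ : ∀ (u : (ZMod f)ˣ) (n : ℕ), (9 : ℤ) ∣ ((u : ZMod f).val : ℤ) - n →
      (∀ i, (p i : ℤ) ∣ ((u : ZMod f).val : ℤ) - n) → (κ u).toAdd = kv π n := by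
    intro u n h1 h2
    rw [hκ]
    exact kv_congr π p hpπ h1 h2
  refine ⟨κ, ?_, ?_⟩
  · intro Q hQ
    rw [hκ]
    show kv π _ = kv π Q
    apply hcongr
    rw [← ZMod.intCast_eq_intCast_iff_dvd_sub]
    push_cast
    simp [ZMod.coe_unitOfCoprime]
  · intro c
    let Ψ : (ZMod f)ˣ →* (ZMod 3)ˣ × Multiplicative (Fin (m + 1) → ZMod 3) :=
      (ZMod.unitsMap h3f).prod κ
    have hΨ : Function.Surjective Ψ := by
      rintro ⟨e, d⟩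
      obtain ⟨n0, hn0, hn1, hn2⟩ := nine_surj e (d.toAdd 0)
      have hloc : ∀ i : Fin m, ∃ n : ℕ, ¬ p i ∣ n ∧ sym (π i).1 (n : Eis) = d.toAdd i.succ :=
        fun i => sym_surj (π i).2.1 (hSPP.2.2.2.1 (π i)).1 (hp i) (norm_of _ _ (hpπ i)) (hp3 i) _
      choose n hn3 hn4 using hloc
      -- Chinese remainder theorem
      let s : Fin (m + 1) → ℕ := Fin.cons 9 p
      let a : Fin (m + 1) → ℕ := Fin.cons n0 n
      have hs0 : ∀ i ∈ (Finset.univ : Finset (Fin (m + 1))), s i ≠ 0 := by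
        intro i _
        refine Fin.cases ?_ (fun i => ?_) i
        · show (9 : ℕ) ≠ 0
          norm_num
        · exact (hp i).ne_zero
      have h9p : ∀ i, Nat.Coprime 9 (p i) := by
        intro i
        have h1 : Nat.Coprime 3 (p i) := by
          rw [Nat.coprime_primes Nat.prime_three (hp i)]
          intro h
          have := hp3 i
          omega
        exact Nat.Coprime.pow_left 2 h1
      have hpw : ((Finset.univ : Finset (Fin (m + 1))) : Set (Fin (m + 1))).Pairwise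
          (Function.onFun Nat.Coprime s) := by
        intro i _ j _ hij
        revert hij
        refine Fin.cases ?_ (fun i => ?_) i
        · refine Fin.cases ?_ (fun j => ?_) j
          · intro h; exact absurd rfl h
          · intro _; exact h9p j
        · refine Fin.cases ?_ (fun j => ?_) j
          · intro _; exact (h9p i).symm
          · intro h
            have hij : i ≠ j := fun h' => h (by rw [h'])
            show Nat.Coprime (p i) (p j)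
            rw [Nat.coprime_primes (hp i) (hp j)]
            exact fun h' => hij (hinj h')
      obtain ⟨k, hk⟩ := Nat.chineseRemainderOfFinset a s Finset.univ hs0 hpw
      have hk9 : k ≡ n0 [MOD 9] := hk 0 (Finset.mem_univ _)
      have hkp : ∀ i : Fin m, k ≡ n i [MOD p i] := fun i => hk i.succ (Finset.mem_univ _)
      -- the modulus `g = 9 ∏ p i`
      let g : ℕ := 9 * ∏ i, p i
      have hg9 : 9 ∣ g := ⟨_, rfl⟩
      have hgp : ∀ i, p i ∣ g := fun i =>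
        (Finset.dvd_prod_of_mem p (Finset.mem_univ i)).trans ⟨9, by ring⟩
      have hgf : g ∣ f := by
        have h1 : (∏ i, p i) ∣ f := by
          refine Finset.prod_dvd_of_isRelPrime ?_ (fun i _ => hpf i)
          intro i _ j _ hij
          show IsRelPrime (p i) (p j)
          rw [← Nat.coprime_iff_isRelPrime, Nat.coprime_primes (hp i) (hp j)]
          exact fun h' => hij (hinj h')
        refine Nat.Coprime.mul_dvd_of_dvd_of_dvd ?_ h9 h1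
        exact Nat.Coprime.prod_right fun i _ => h9p i
      have hkg : k.Coprime g := by
        refine Nat.Coprime.mul_right ?_ (Nat.Coprime.prod_right fun i _ => ?_)
        · have h1 : Nat.Coprime k 3 := by
            rw [Nat.coprime_comm, Nat.Prime.coprime_iff_not_dvd Nat.prime_three]
            intro h
            apply hn0
            have h2 : k ≡ n0 [MOD 3] := hk9.of_dvd (by norm_num)
            exact (h2.dvd_iff (dvd_refl 3)).1 h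
          exact Nat.Coprime.pow_right 2 h1
        · rw [Nat.coprime_comm, Nat.Prime.coprime_iff_not_dvd (hp i)]
          intro h
          exact hn3 i (((hkp i).dvd_iff (dvd_refl _)).1 h)
      obtain ⟨u, hu⟩ := ZMod.unitsMap_surjective hgf (ZMod.unitOfCoprime k hkg)
      have hug : (g : ℤ) ∣ ((u : ZMod f).val : ℤ) - k := by
        have h1 : ((u : ZMod f).val : ZMod g) = (k : ZMod g) := by
          have h2 := congrArg (fun v : (ZMod g)ˣ => (v : ZMod g)) hu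
          simp only [ZMod.unitsMap_def, Units.coe_map, MonoidHom.coe_coe, ZMod.castHom_apply,
            ZMod.coe_unitOfCoprime] at h2
          rw [← h2, ZMod.natCast_val]
        have h3 : (((u : ZMod f).val : ℤ) : ZMod g) = ((k : ℤ) : ZMod g) := by
          push_cast
          exact h1
        exact (ZMod.intCast_eq_intCast_iff_dvd_sub _ _ _).1 h3.symm
      refine ⟨u, ?_⟩
      have hk9' : (9 : ℤ) ∣ (k : ℤ) - n0 := by
        have := (Nat.modEq_iff_dvd.1 hk9.symm)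
        exact_mod_cast this
      have hkp' : ∀ i, (p i : ℤ) ∣ (k : ℤ) - n i := fun i => Nat.modEq_iff_dvd.1 (hkp i).symm
      have hu9 : (9 : ℤ) ∣ ((u : ZMod f).val : ℤ) - k :=
        (by exact_mod_cast hg9 : (9 : ℤ) ∣ (g : ℤ)).trans hug
      have hup : ∀ i, (p i : ℤ) ∣ ((u : ZMod f).val : ℤ) - k := fun i =>
        (Int.natCast_dvd_natCast.2 (hgp i)).trans hug
      apply Prod.ext
      · show ZMod.unitsMap h3f u = e
        ext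
        simp only [ZMod.unitsMap_def, Units.coe_map, MonoidHom.coe_coe, ZMod.castHom_apply]
        rw [← ZMod.natCast_val, ← hn1]
        have h1 : (3 : ℤ) ∣ ((u : ZMod f).val : ℤ) - n0 := by omega
        have h2 := (ZMod.intCast_eq_intCast_iff_dvd_sub (n0 : ℤ) ((u : ZMod f).val : ℤ) 3).2 h1
        push_cast at h2
        exact h2.symm
      · show κ u = d
        apply Multiplicative.toAdd.injective
        rw [hκQ u k hu9 hup]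
        funext j
        refine Fin.cases ?_ (fun i => ?_) j
        · show wt ((k : ℤ) ^ 2) = d.toAdd 0
          rw [← hn2]
          apply wt_congr
          have e : (k : ℤ) ^ 2 - (n0 : ℤ) ^ 2 = ((k : ℤ) - n0) * (k + n0) := by ring
          rw [e]
          exact Dvd.dvd.mul_right hk9' _
        · show sym (π i).1 (k : Eis) = d.toAdd i.succ
          rw [← hn4 i]
          apply sym_congr
          obtain ⟨l, hl⟩ := hkp' i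
          have e : (k : Eis) - (n i : Eis) = (p i : Eis) * (l : Eis) := by
            have : (((k : ℤ) - n i : ℤ) : Eis) = (((p i : ℤ) * l : ℤ) : Eis) := by rw [hl]
            push_cast at this
            exact this
          rw [e, hpπ i]
          exact ⟨conj (π i).1 * l, by ring⟩
    have hcard := fib_card Ψ hΨ (-1, Multiplicative.ofAdd c)
    have hM2 : ∀ u : (ZMod f)ˣ, M2 u ↔ ZMod.unitsMap h3f u = -1 := by
      intro u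
      unfold M2
      have h1 : ((ZMod.unitsMap h3f u : (ZMod 3)ˣ) : ZMod 3) = (((u : ZMod f).val : ℕ) : ZMod 3) := by
        simp only [ZMod.unitsMap_def, Units.coe_map, MonoidHom.coe_coe, ZMod.castHom_apply]
        rw [ZMod.natCast_val]
      have h2 : ZMod.unitsMap h3f u = -1 ↔ (((u : ZMod f).val : ℕ) : ZMod 3) = ((2 : ℕ) : ZMod 3) := by
        rw [← h1]
        constructor
        · intro h
          rw [h]
          decide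
        · intro h
          ext
          rw [h]
          decide
      rw [h2, ZMod.natCast_eq_natCast_iff']
    have hfib : Nat.card {a : (ZMod f)ˣ // M2 a ∧ (κ a).toAdd = c} =
        Nat.card {a : (ZMod f)ˣ // Ψ a = (-1, Multiplicative.ofAdd c)} := by
      apply Nat.card_congr
      refine Equiv.subtypeEquivRight fun a => ?_
      rw [hM2 a]
      constructor
      · rintro ⟨h1, h2⟩
        exact Prod.ext h1 (Multiplicative.toAdd.injective h2)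
      · intro h
        exact ⟨congrArg Prod.fst h, congrArg Multiplicative.toAdd (congrArg Prod.snd h)⟩
    rw [hfib]
    have hH : Nat.card ((ZMod 3)ˣ × Multiplicative (Fin (m + 1) → ZMod 3)) = 2 * 3 ^ (m + 1) := by
      rw [Nat.card_prod]
      congr 1
      · rw [Nat.card_eq_fintype_card, ZMod.card_units_eq_totient]
        decide
      · rw [Nat.card_eq_fintype_card, Fintype.card_multiplicative]
        simp
    rw [← hH, hcard, Nat.card_eq_fintype_card, ZMod.card_units_eq_totient]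

end Pool.Agent.PT


end

section

/-!
# Prime twists of rank zero: EDET, the choice of a diagonal
-/

namespace Pool.Agent.PT

open Pool.Agent.Lib_helper18 Pool.Agent.Lib_helper18.Eis Pool.Agent.Lib_helper84.Cub

namespace EDET

theorem choice : ∀ b D b' D' : ZMod 3, D ≠ 0 → D' ≠ 0 →
    ∃ t : ZMod 3, b - t * D ≠ 0 ∧ b' - t * D' ≠ 0 := by
  decide

/-- The determinant is affine in the last diagonal entry. -/
theorem det_last {n : ℕ} (A : Matrix (Fin (n + 2)) (Fin (n + 2)) (ZMod 3))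
    (d : Fin (n + 1) → ZMod 3) (t : ZMod 3) :
    (A - Matrix.diagonal (Fin.snoc d t : Fin (n + 2) → ZMod 3)).det =
      (A - Matrix.diagonal (Fin.snoc d 0 : Fin (n + 2) → ZMod 3)).det -
        t * (A.submatrix Fin.castSucc Fin.castSucc - Matrix.diagonal d).det := by
  set B : Matrix (Fin (n + 2)) (Fin (n + 2)) (ZMod 3) :=
    A - Matrix.diagonal (Fin.snoc d 0 : Fin (n + 2) → ZMod 3) with hB
  have h1 : A - Matrix.diagonal (Fin.snoc d t : Fin (n + 2) → ZMod 3) =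
      Matrix.updateRow B (Fin.last (n + 1))
        (B (Fin.last (n + 1)) + (-t) • (Pi.single (Fin.last (n + 1)) (1 : ZMod 3))) := by
    ext i j
    by_cases hi : i = Fin.last (n + 1)
    · subst hi
      rw [Matrix.updateRow_self, Pi.add_apply, Pi.smul_apply, hB, Matrix.sub_apply,
        Matrix.sub_apply]
      by_cases hj : Fin.last (n + 1) = j
      · subst hj
        rw [Matrix.diagonal_apply_eq, Matrix.diagonal_apply_eq, Fin.snoc_last, Fin.snoc_last,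
          Pi.single_eq_same, smul_eq_mul]
        ring
      · rw [Matrix.diagonal_apply_ne _ hj, Matrix.diagonal_apply_ne _ hj,
          Pi.single_eq_of_ne (Ne.symm hj), smul_zero, add_zero]
    · rw [Matrix.updateRow_ne hi, hB, Matrix.sub_apply, Matrix.sub_apply]
      by_cases hj : i = j
      · subst hj
        obtain ⟨i', rfl⟩ : ∃ i' : Fin (n + 1), i = i'.castSucc := by
          exact ⟨i.castPred hi, (Fin.castSucc_castPred i hi).symm⟩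
        rw [Matrix.diagonal_apply_eq, Matrix.diagonal_apply_eq, Fin.snoc_castSucc,
          Fin.snoc_castSucc]
      · rw [Matrix.diagonal_apply_ne _ hj, Matrix.diagonal_apply_ne _ hj]
  have h2 : (Matrix.updateRow B (Fin.last (n + 1))
      (Pi.single (Fin.last (n + 1)) (1 : ZMod 3))).det =
      (A.submatrix Fin.castSucc Fin.castSucc - Matrix.diagonal d).det := by
    rw [← Matrix.adjugate_apply, Matrix.adjugate_fin_succ_eq_det_submatrix]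
    have h3 : (-1 : ZMod 3) ^ (((Fin.last (n + 1) : Fin (n + 2)) : ℕ) +
        ((Fin.last (n + 1) : Fin (n + 2)) : ℕ)) = 1 := by
      rw [← two_mul, pow_mul]
      norm_num
    rw [h3, one_mul, Fin.succAbove_last]
    congr 1
    ext i j
    rw [Matrix.submatrix_apply, hB, Matrix.sub_apply, Matrix.sub_apply, Matrix.submatrix_apply]
    congr 1
    by_cases hij : i = j
    · subst hij
      rw [Matrix.diagonal_apply_eq, Matrix.diagonal_apply_eq, Fin.snoc_castSucc]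
    · rw [Matrix.diagonal_apply_ne _ hij, Matrix.diagonal_apply_ne _ (by
        intro h
        exact hij (Fin.castSucc_injective _ h))]
  rw [h1, Matrix.det_updateRow_add, Matrix.det_updateRow_smul, h2, Matrix.updateRow_eq_self]
  ring

theorem cons_snoc {n : ℕ} (d : Fin n → ZMod 3) (t : ZMod 3) :
    (Fin.cons 0 (Fin.snoc d t : Fin (n + 1) → ZMod 3) : Fin (n + 2) → ZMod 3) =
      Fin.snoc (Fin.cons 0 d : Fin (n + 1) → ZMod 3) t :=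
  Fin.cons_snoc_eq_snoc_cons 0 d t

end EDET

theorem EDET_thm : EDET := by
  intro m
  induction m with
  | zero =>
    intro A A' hA hA'
    refine ⟨fun i => 0, ?_, ?_⟩
    · rw [Matrix.det_fin_one, Matrix.sub_apply, Matrix.diagonal_apply_eq, Fin.cons_zero, sub_zero]
      exact hA
    · rw [Matrix.det_fin_one, Matrix.sub_apply, Matrix.diagonal_apply_eq, Fin.cons_zero, sub_zero]
      exact hA'
  | succ m ih =>
    intro A A' hA hA'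
    obtain ⟨d, hd, hd'⟩ := ih (A.submatrix Fin.castSucc Fin.castSucc)
      (A'.submatrix Fin.castSucc Fin.castSucc) hA hA'
    obtain ⟨t, ht, ht'⟩ := EDET.choice
      (A - Matrix.diagonal (Fin.snoc (Fin.cons 0 d : Fin (m + 1) → ZMod 3) 0 :
        Fin (m + 2) → ZMod 3)).det _
      (A' - Matrix.diagonal (Fin.snoc (Fin.cons 0 d : Fin (m + 1) → ZMod 3) 0 :
        Fin (m + 2) → ZMod 3)).det _ hd hd'
    refine ⟨Fin.snoc d t, ?_, ?_⟩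
    · rw [EDET.cons_snoc, EDET.det_last]
      exact ht
    · rw [EDET.cons_snoc, EDET.det_last]
      exact ht'

end Pool.Agent.PT


end

section

/-!
# First descent: a primitive solution of `x^3 + y^3 = B z^3`
-/

namespace Pool.Agent.PT

open Pool.Agent.Lib_helper18 Pool.Agent.Lib_helper18.Eis Pool.Agent.Lib_helper84.Cub

namespace FDK

theorem cast_ne {n : ℤ} (h : n ≠ 0) : (n : Eis) ≠ 0 := by
  intro h0
  apply h
  have := congrArg Eis.re h0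
  simpa using this

/-- integers dividing an element divide both coordinates -/
theorem int_dvd {m : ℤ} {δ : Eis} (h : (m : Eis) ∣ δ) : m ∣ δ.re ∧ m ∣ δ.im := by
  obtain ⟨c, rfl⟩ := h
  constructor
  · exact ⟨c.re, by simp⟩
  · exact ⟨c.im, by simp⟩

/-- splitting off the integral content -/
theorem content {a : Eis} (ha : a ≠ 0) : ∃ (g : ℤ) (δ : Eis), g ≠ 0 ∧ a = g * δ ∧
    ∀ m : ℤ, (m : Eis) ∣ δ → IsUnit m := by
  have hpos : 0 < Int.gcd a.re a.im := by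
    rw [Int.gcd_pos_iff]
    by_contra hcon
    push Not at hcon
    exact ha (Eis.ext hcon.1 hcon.2)
  obtain ⟨m', n', h1, h2, h3⟩ := Int.exists_gcd_one hpos
  refine ⟨Int.gcd a.re a.im, ⟨m', n'⟩, by exact_mod_cast hpos.ne', ?_, ?_⟩
  · apply Eis.ext
    · simp only [mul_re, intCast_re, intCast_im, zero_mul, sub_zero]
      linarith
    · simp only [mul_im, intCast_re, intCast_im, zero_mul]
      linarith
  · intro m hm
    obtain ⟨h4, h5⟩ := int_dvd hm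
    have h6 : m ∣ (Int.gcd m' n' : ℤ) := Int.dvd_coe_gcd h4 h5
    rw [h1] at h6
    exact isUnit_of_dvd_one (by exact_mod_cast h6)

theorem three_fac : (3 : Eis) = (1 - w) * (1 - w ^ 2) := by
  linear_combination w_rel - w_cube

section

variable {π : Eis}

theorem right_mul {s : Eis → Eis → ZMod 3} {e : ℕ} (h : LSym π s e) {a b c : Eis} (ha : a ≠ 0)
    (hb : b ≠ 0) (hc : c ≠ 0) : s a (b * c) = s a b + s a c := by
  have h1 := h.skew (b * c) a (mul_ne_zero hb hc) ha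
  rw [h1, h.mul b c a hb hc ha, h.skew a b ha hb, h.skew a c ha hc]
  ring

theorem not_dvd_of {x y : ℤ} (hπ : Prime π) (h3 : ¬ π ∣ 3) (hxy : IsCoprime x y) {c : Eis}
    (hc : c ∣ 3) (h1 : π ∣ c * x) (h2 : π ∣ c * y) : False := by
  have hcπ : ¬ π ∣ c := fun h => h3 (h.trans hc)
  have hx : π ∣ (x : Eis) := (hπ.dvd_or_dvd h1).resolve_left hcπ
  have hy : π ∣ (y : Eis) := (hπ.dvd_or_dvd h2).resolve_left hcπ
  obtain ⟨a, b, hab⟩ := hxy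
  apply hπ.not_isUnit
  apply isUnit_of_dvd_one
  have h : (1 : Eis) = (a : Eis) * x + b * y := by
    have := congrArg (fun t : ℤ => (t : Eis)) hab.symm
    push_cast at this
    exact this
  rw [h]
  exact dvd_add (Dvd.dvd.mul_left hx _) (Dvd.dvd.mul_left hy _)

end

end FDK

open _root_.Pool.Agent.PT.FDK in
theorem FDK_thm (hSTM : STM) (hSPP : SPP) (hSTAR : STAR) : FDK := by
  intro B x y z hB hM hxy hz hxyz
  have hB0 : (B : Eis) ≠ 0 := cast_ne hB.ne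
  have hz0 : (z : Eis) ≠ 0 := cast_ne hz
  obtain ⟨F, hF⟩ : ∃ F : ℕ → Eis, F = fun i => (x : Eis) + w ^ i * 1 * y := ⟨_, rfl⟩
  have hF0 : F 0 = (x : Eis) + y := by rw [hF]; ring
  have hF1 : F 1 = (x : Eis) + w * y := by rw [hF]; ring
  have hF2 : F 2 = (x : Eis) + w ^ 2 * y := by rw [hF]; ring
  have hcast : (x : Eis) ^ 3 + (y : Eis) ^ 3 = B * (z : Eis) ^ 3 := by
    have := congrArg (fun t : ℤ => (t : Eis)) hxyz
    push_cast at this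
    exact this
  have hprod : F 0 * F 1 * F 2 = (B : Eis) * (z : Eis) ^ 3 := by
    rw [← hcast, hF0, hF1, hF2]
    linear_combination ((x : Eis) ^ 2 * y + x * y ^ 2) * w_rel + ((x : Eis) * y ^ 2 + y ^ 3) * w_cube
  have hne : F 0 * F 1 * F 2 ≠ 0 := by
    rw [hprod]
    exact mul_ne_zero hB0 (pow_ne_zero _ hz0)
  have h0 : F 0 ≠ 0 := left_ne_zero_of_mul (left_ne_zero_of_mul hne)
  have h1 : F 1 ≠ 0 := right_ne_zero_of_mul (left_ne_zero_of_mul hne)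
  have h2 : F 2 ≠ 0 := right_ne_zero_of_mul hne
  have hc1 : conj (F 1) = F 2 := by
    rw [hF1, hF2, map_add, map_mul, conj_intCast, conj_intCast, conj_w]
  have hc2 : conj (F 2) = F 1 := by rw [← hc1, conj_conj]
  have hw0 : w ≠ 0 := fun h => by
    have := w_cube
    rw [h] at this
    norm_num at this
  have hFall : ∀ i, F i ≠ 0 := by
    intro i
    have hi : F i = F (i % 3) := by
      have : w ^ i = w ^ (i % 3) := by
        conv_lhs => rw [← Nat.div_add_mod i 3, pow_add, pow_mul, w_cube, one_pow, one_mul]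
      rw [hF]
      simp only [this]
    rw [hi]
    have h3 : i % 3 < 3 := Nat.mod_lt _ (by norm_num)
    interval_cases (i % 3)
    · exact h0
    · exact h1
    · exact h2
  -- the element
  obtain ⟨ζ, hζ⟩ : ∃ ζ : Eis, ζ = w ^ 2 * (F 1 * F 2 ^ 2) := ⟨_, rfl⟩
  have hζ0 : ζ ≠ 0 := by
    rw [hζ]
    exact mul_ne_zero (pow_ne_zero _ hw0) (mul_ne_zero h1 (pow_ne_zero _ h2))
  have hζn : ζ * conj ζ = (F 1 * F 2) ^ 3 := by
    rw [hζ, map_mul, map_mul, map_pow, map_pow, hc1, hc2, conj_w]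
    linear_combination ((F 1 * F 2) ^ 3 * (w ^ 3 + 1)) * w_cube
  have htm : ∀ π : PP, tm π.1 ζ (B : Eis) = 0 := by
    intro π
    have hs := hSTM π.1 π.2.1 (hSPP.2.2.2.1 π).1
    obtain ⟨hst, -⟩ := hSTAR π.1 (tm π.1) 1 hs x y 0 0 1 F (fun _ => 0 + w ^ 0 * 1 * 0)
      (fun i => (x : Eis) * 0 - w ^ i * 0 * y) (fun i => by rw [hF]) (fun i => by ring)
      (fun i => by ring) one_ne_zero hFall
    have hz3 : (z : Eis) ^ 3 ≠ 0 := pow_ne_zero _ hz0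
    have hr : ∀ a : Eis, a ≠ 0 → tm π.1 a (F 0 * F 1 * F 2) = tm π.1 a (B : Eis) := by
      intro a ha
      rw [hprod, right_mul hs ha hB0 hz3, pow_succ, right_mul hs ha (pow_ne_zero _ hz0) hz0,
        pow_two, right_mul hs ha hz0 hz0]
      have h3 : (3 : ZMod 3) = 0 := rfl
      linear_combination (tm π.1 a z) * h3
    rw [hr _ h1, hr _ h2, hr _ hw0] at hst
    rw [hζ, hs.mul _ _ _ (pow_ne_zero _ hw0) (mul_ne_zero h1 (pow_ne_zero _ h2)) hB0,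
      hs.mul _ _ _ h1 (pow_ne_zero _ h2) hB0, pow_two, pow_two, hs.mul _ _ _ hw0 hw0 hB0,
      hs.mul _ _ _ h2 h2 hB0]
    have h3 : (3 : ZMod 3) = 0 := rfl
    linear_combination hst + (tm π.1 w B + tm π.1 (F 2) B) * h3
  have hV : ∀ π : PP, ¬ π.1 ∣ (B : Eis) → 3 ∣ V π.1 ζ := by
    intro π hπB
    have hπ := π.2.1
    have h3 : ¬ π.1 ∣ 3 := (hSPP.2.2.2.1 π).1
    have hsum : V π.1 (F 0) + V π.1 (F 1) + V π.1 (F 2) = 3 * V π.1 (z : Eis) := by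
      rw [← V_mul hπ h0 h1, ← V_mul hπ (mul_ne_zero h0 h1) h2, hprod,
        V_mul_not_dvd hπ hπB (pow_ne_zero _ hz0), V_pow hπ hz0]
    have hd1 : (1 - w) ∣ (3 : Eis) := ⟨_, three_fac⟩
    have h01 : ¬ (π.1 ∣ F 0 ∧ π.1 ∣ F 1) := by
      rintro ⟨ha, hb⟩
      refine not_dvd_of hπ h3 hxy hd1 ?_ ?_
      · have : (1 - w) * (x : Eis) = F 1 - w * F 0 := by rw [hF0, hF1]; ring
        rw [this]
        exact dvd_sub hb (Dvd.dvd.mul_left ha _)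
      · have : (1 - w) * (y : Eis) = F 0 - F 1 := by rw [hF0, hF1]; ring
        rw [this]
        exact dvd_sub ha hb
    have h12 : ¬ (π.1 ∣ F 1 ∧ π.1 ∣ F 2) := by
      rintro ⟨ha, hb⟩
      refine not_dvd_of hπ h3 hxy hd1 ?_ ?_
      · have : (1 - w) * (x : Eis) = F 2 - w * F 1 := by rw [hF1, hF2]; ring
        rw [this]
        exact dvd_sub hb (Dvd.dvd.mul_left ha _)
      · have : (1 - w) * (y : Eis) = w ^ 2 * (F 1 - F 2) := by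
          rw [hF1, hF2]
          linear_combination (-(1 - w) * (y : Eis)) * w_cube
        rw [this]
        exact Dvd.dvd.mul_left (dvd_sub ha hb) _
    have hd2 : (1 - w ^ 2) ∣ (3 : Eis) := ⟨1 - w, by rw [three_fac]; ring⟩
    have h02 : ¬ (π.1 ∣ F 0 ∧ π.1 ∣ F 2) := by
      rintro ⟨ha, hb⟩
      refine not_dvd_of hπ h3 hxy hd2 ?_ ?_
      · have : (1 - w ^ 2) * (x : Eis) = F 2 - w ^ 2 * F 0 := by rw [hF0, hF2]; ring
        rw [this]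
        exact dvd_sub hb (Dvd.dvd.mul_left ha _)
      · have : (1 - w ^ 2) * (y : Eis) = F 0 - F 2 := by rw [hF0, hF2]; ring
        rw [this]
        exact dvd_sub ha hb
    have hz0' : V π.1 (F 0) = 0 ∨ V π.1 (F 1) = 0 := by
      by_contra hcon
      push Not at hcon
      apply h01
      constructor
      · by_contra h
        exact hcon.1 (V_eq_zero h)
      · by_contra h
        exact hcon.2 (V_eq_zero h)
    have hz1' : V π.1 (F 1) = 0 ∨ V π.1 (F 2) = 0 := by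
      by_contra hcon
      push Not at hcon
      apply h12
      constructor
      · by_contra h
        exact hcon.1 (V_eq_zero h)
      · by_contra h
        exact hcon.2 (V_eq_zero h)
    have hz2' : V π.1 (F 0) = 0 ∨ V π.1 (F 2) = 0 := by
      by_contra hcon
      push Not at hcon
      apply h02
      constructor
      · by_contra h
        exact hcon.1 (V_eq_zero h)
      · by_contra h
        exact hcon.2 (V_eq_zero h)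
    have hw : ¬ π.1 ∣ w ^ 2 := by
      intro h
      apply hπ.not_isUnit
      apply isUnit_of_dvd_unit h
      exact (IsUnit.of_mul_eq_one (w ^ 2) (by rw [← pow_succ', w_cube])).pow 2
    rw [hζ, V_mul_not_dvd hπ hw (mul_ne_zero h1 (pow_ne_zero _ h2)), V_mul hπ h1 (pow_ne_zero _ h2),
      V_pow hπ h2]
    omega
  obtain ⟨γ, hγ⟩ := hM ζ (F 1 * F 2) hζ0 hζn htm hV
  have hγ0 : γ ≠ 0 := by
    rintro rfl
    rw [hγ] at hζ0
    exact hζ0 (by norm_num)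
  have hcγ0 : conj γ ≠ 0 := by
    intro h
    apply hγ0
    rw [← conj_conj γ, h, map_zero]
  obtain ⟨g, δ, hg, hgδ, hδ⟩ := content hcγ0
  have hm : F 1 * F 2 = ((F 1).norm : Eis) := by rw [← hc1, mul_conj]
  have hn1 : (F 1).norm ≠ 0 := (norm_pos h1).ne'
  refine ⟨δ, (F 1).norm ^ 2 * g ^ 3, γ.norm ^ 3, mul_ne_zero (pow_ne_zero _ hn1)
    (pow_ne_zero _ hg), pow_ne_zero _ (norm_pos hγ0).ne', hδ, ?_⟩
  have e1 : γ ^ 3 * F 1 = w ^ 2 * (F 1 * F 2) ^ 2 := by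
    rw [← hγ, hζ]
    ring
  have e2 : (γ.norm : Eis) = γ * conj γ := (mul_conj γ).symm
  push_cast
  rw [← hF1, e2, ← hm]
  calc (γ * conj γ) ^ 3 * F 1 = (conj γ) ^ 3 * (γ ^ 3 * F 1) := by ring
    _ = (g * δ) ^ 3 * (w ^ 2 * (F 1 * F 2) ^ 2) := by rw [e1, ← hgδ]
    _ = _ := by ring

end Pool.Agent.PT


end

section

/-!
# Prime twists of rank zero: the symbol at `lam` of `g + h w` and a rational integer
-/

namespace Pool.Agent.PT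

open Pool.Agent.Lib_helper18 Pool.Agent.Lib_helper18.Eis Pool.Agent.Lib_helper84.Cub

namespace SLE

theorem self_neg {x : ZMod 3} (h : x = -x) : x = 0 := by
  revert x
  decide

theorem add_self_zero {x : ZMod 3} (h : x + x = 0) : x = 0 := by
  revert x
  decide

theorem self_add {x : ZMod 3} (h : x = x + x) : x = 0 := by
  revert x
  decide

theorem w_ne : (w : Eis) ≠ 0 := by
  intro h
  have := congrArg Eis.im h
  simp at this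

theorem lam_ne : (lam : Eis) ≠ 0 := by
  intro h
  have := congrArg Eis.re h
  simp [lam] at this

theorem three_re : (3 : Eis).re = 3 := rfl

theorem three_im : (3 : Eis).im = 0 := rfl

theorem three_ne : (3 : Eis) ≠ 0 := by
  intro h
  have := congrArg Eis.re h
  rw [three_re] at this
  simp at this

theorem int_ne {n : ℤ} (h : n ≠ 0) : (n : Eis) ≠ 0 := by
  intro h'
  have := congrArg Eis.re h'
  simp at this
  exact h this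

theorem three_eq : (3 : Eis) = -1 * ((w * w) * (lam * lam)) := by
  ext
  · rw [three_re]
    simp [w, lam]
  · rw [three_im]
    simp [w, lam]

section

variable (hS : SSL) (hR : SREC)

include hS

theorem mulL {a b c : Eis} (ha : a ≠ 0) (hb : b ≠ 0) (hc : c ≠ 0) :
    sl (a * b) c = sl a c + sl b c := hS.1 a b c ha hb hc

theorem skew {a b : Eis} (ha : a ≠ 0) (hb : b ≠ 0) : sl b a = -sl a b := hS.2.1 a b ha hb

theorem mulR {a b c : Eis} (ha : a ≠ 0) (hb : b ≠ 0) (hc : c ≠ 0) :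
    sl a (b * c) = sl a b + sl a c := by
  rw [skew hS (mul_ne_zero hb hc) ha, mulL hS hb hc ha, skew hS ha hb, skew hS ha hc]
  ring

theorem self {a : Eis} (ha : a ≠ 0) : sl a a = 0 := self_neg (skew hS ha ha)

theorem oneR {a : Eis} (ha : a ≠ 0) : sl a 1 = 0 := by
  have h := mulR hS ha one_ne_zero one_ne_zero
  rw [one_mul] at h
  exact self_add h

theorem negR {a : Eis} (ha : a ≠ 0) : sl a (-1) = 0 := by
  have h1 : (-1 : Eis) ≠ 0 := neg_ne_zero.mpr one_ne_zero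
  have h := mulR hS ha h1 h1
  rw [neg_one_mul, neg_neg, oneR hS ha] at h
  exact add_self_zero h.symm

theorem powR {a b : Eis} (ha : a ≠ 0) (hb : b ≠ 0) (v : ℕ) : sl a (b ^ v) = v * sl a b := by
  induction v with
  | zero => rw [pow_zero, oneR hS ha, Nat.cast_zero, zero_mul]
  | succ v ih =>
    rw [pow_succ, mulR hS ha (pow_ne_zero _ hb) hb, ih]
    push_cast
    ring

theorem threeR {a : Eis} (ha : a ≠ 0) : sl a 3 = 2 * sl a w + 2 * sl a lam := by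
  have h1 : (-1 : Eis) ≠ 0 := neg_ne_zero.mpr one_ne_zero
  rw [three_eq, mulR hS ha h1 (mul_ne_zero (mul_ne_zero w_ne w_ne) (mul_ne_zero lam_ne lam_ne)),
    negR hS ha, mulR hS ha (mul_ne_zero w_ne w_ne) (mul_ne_zero lam_ne lam_ne),
    mulR hS ha w_ne w_ne, mulR hS ha lam_ne lam_ne]
  ring

theorem splitR {a : Eis} (ha : a ≠ 0) {N : ℤ} (hN : N ≠ 0) (v : ℕ) :
    sl a ((3 ^ v * N : ℤ) : Eis) = v * sl a 3 + sl a (N : Eis) := by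
  have h1 : ((3 ^ v * N : ℤ) : Eis) = 3 ^ v * (N : Eis) := by push_cast; ring
  rw [h1, mulR hS ha (pow_ne_zero _ three_ne) (int_ne hN), powR hS ha three_ne]

include hR

/-- The symbol of a primary element. -/
theorem prim {g h N : ℤ} {v : ℕ} (hN : ¬ (3 : ℤ) ∣ N) (hg : ¬ (3 : ℤ) ∣ g) (hh : (3 : ℤ) ∣ h) :
    sl ((g : Eis) + h * w) ((3 ^ v * N : ℤ) : Eis) = v * ((g * (h / 3) : ℤ) : ZMod 3) := by
  have hN0 : N ≠ 0 := fun h => hN (h ▸ dvd_zero 3)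
  have hp : Prim ((g : Eis) + h * w) := by
    refine ⟨?_, ?_⟩
    · simpa using hh
    · simpa using hg
  have hD : (g : Eis) + h * w ≠ 0 := by
    intro h0
    have := congrArg Eis.re h0
    simp at this
    exact hg (this ▸ dvd_zero 3)
  have hNp : Prim (N : Eis) := ⟨by simp, by simpa using hN⟩
  obtain ⟨k, rfl⟩ := hh
  rw [splitR hS hD hN0, hR.1 _ _ hp hNp, threeR hS hD, hR.2.1 _ hp, hR.2.2.1 _ hp, add_zero]
  have h1 : g ^ 2 % 3 = 1 := sq_mod_three hg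
  obtain ⟨j, hj⟩ : ∃ j, g ^ 2 = 1 + 3 * j := ⟨g ^ 2 / 3, by omega⟩
  have h2 : ((g : Eis) + (3 * k : ℤ) * w).norm = 1 + 3 * (j - g * k + 3 * k ^ 2) := by
    rw [norm_def]
    simp only [add_re, mul_re, add_im, mul_im, intCast_re, intCast_im, w_re, w_im]
    linear_combination hj
  have h3 : ((g : Eis) + (3 * k : ℤ) * w).re ^ 2 = 1 + 3 * j := by
    simp only [add_re, mul_re, intCast_re, intCast_im, w_re, w_im]
    linear_combination hj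
  rw [wt_eq h2, h3, wt_eq rfl, Int.mul_ediv_cancel_left k (by norm_num)]
  push_cast
  have h4 : (3 : ZMod 3) = 0 := by decide
  linear_combination ((v : ZMod 3) * (2 * k ^ 2 + 2 * j - g * k)) * h4

/-- The symbol of `w`. -/
theorem symw {N : ℤ} {v : ℕ} (hN : ¬ (3 : ℤ) ∣ N) :
    sl w ((3 ^ v * N : ℤ) : Eis) = -wt (N ^ 2) := by
  have hN0 : N ≠ 0 := fun h => hN (h ▸ dvd_zero 3)
  have hNp : Prim (N : Eis) := ⟨by simp, by simpa using hN⟩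
  rw [splitR hS w_ne hN0, threeR hS w_ne, self hS w_ne, hR.2.2.2, skew hS (int_ne hN0) w_ne,
    hR.2.1 _ hNp, norm_intCast]
  ring

end

end SLE

open _root_.Pool.Agent.PT.SLE in
theorem SLE_thm (hSSL : SSL) (hSREC : SREC) : SLE := by
  intro g h N v hN
  have hN0 : N ≠ 0 := fun h => hN (h ▸ dvd_zero 3)
  have hM : ((3 ^ v * N : ℤ) : Eis) ≠ 0 := int_ne (mul_ne_zero (pow_ne_zero _ (by norm_num)) hN0)
  have h4 : (3 : ZMod 3) = 0 := by decide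
  refine ⟨fun h1 h2 => prim hSSL hSREC hN h1 h2, fun h1 h2 => ?_, fun h1 h2 => ?_⟩
  · have e : (g : Eis) + h * w = w * (((h - g : ℤ) : Eis) + ((-g : ℤ) : Eis) * w) := by
      ext <;> simp
    have hr : ¬ (3 : ℤ) ∣ h - g := by omega
    have hd : ((h - g : ℤ) : Eis) + ((-g : ℤ) : Eis) * w ≠ 0 := by
      intro h0
      have := congrArg Eis.re h0
      simp at this
      omega
    rw [e, mulL hSSL w_ne hd hM, symw hSSL hSREC hN, prim hSSL hSREC hN hr (by omega)]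
    obtain ⟨k, rfl⟩ := h1
    have e1 : -(3 * k) / 3 = -k := by omega
    have e2 : 3 * k / 3 = k := by omega
    rw [e1, e2]
    push_cast
    linear_combination ((v : ZMod 3) * k * k) * h4
  · have e : (g : Eis) + h * w = w * (w * (((-h : ℤ) : Eis) + ((g - h : ℤ) : Eis) * w)) := by
      ext
      · simp
      · simp
        ring
    have hr : ¬ (3 : ℤ) ∣ -h := by omega
    have hd : ((-h : ℤ) : Eis) + ((g - h : ℤ) : Eis) * w ≠ 0 := by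
      intro h0
      have := congrArg Eis.re h0
      simp at this
      omega
    rw [e, mulL hSSL w_ne (mul_ne_zero w_ne hd) hM, mulL hSSL w_ne hd hM, symw hSSL hSREC hN,
      prim hSSL hSREC hN hr h2]
    push_cast
    linear_combination (-wt (N ^ 2)) * h4

end Pool.Agent.PT


end

section

/-!
# TCA: the pairing vanishes on the class of a point; antisymmetry
-/

namespace Pool.Agent.PT

open Pool.Agent.Lib_helper18 Pool.Agent.Lib_helper18.Eis Pool.Agent.Lib_helper84.Cub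

namespace TCA

theorem sol_swap {b x p q p' q' : ℤ} (h : Sol b x p q p' q') : Sol x b p (-p') (-q) q' where
  eq := by linear_combination h.eq
  n1 := by
    intro h0
    apply h.n2
    linear_combination h0
  n2 := by
    intro h0
    apply h.n1
    linear_combination h0

end TCA

theorem TC_thm (hLEV : LEV) (hLFIN : LFIN) : TC := by
  intro B b x p q p' q' X Y hB hb hx hS hP h9
  obtain ⟨hX, hY, c, hc, e⟩ := hP
  have hn : X ^ 3 + x * Y ^ 3 ≠ 0 := by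
    intro h0
    rw [h0, mul_zero] at e
    exact mul_ne_zero hB.ne (pow_ne_zero 3 hc) e.symm
  obtain ⟨f1, e1⟩ := hLFIN.2.1 B b x p q p' q' hB.ne hb.ne hx.ne hS
  obtain ⟨f2, e2⟩ := hLFIN.2.2 b x p q p' q' X Y hb.ne hx.ne hS hX hY hn
  unfold OO
  rw [finsum_congr fun v => hLEV v B b x p q p' q' X Y hB hb hx hS ⟨hX, hY, c, hc, e⟩ h9,
    finsum_sub_distrib f1 f2, e1, e2, sub_zero]

theorem TA_thm (hLAM : LAM) (hLFIN : LFIN) : TA := by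
  intro B b x p q p' q' hB hb hx hS h9
  obtain ⟨-, e1⟩ := hLFIN.2.1 B b x p q p' q' hB.ne hb.ne hx.ne hS
  have f1 := hLFIN.1 B b x p q p' q' hB hb hx hS.toSolW
  have f2 := hLFIN.1 B x b p (-p') (-q) q' hB hx hb (TCA.sol_swap hS).toSolW
  unfold OO
  rw [← finsum_add_distrib f1 f2, finsum_congr fun v => hLAM v B b x p q p' q' hB hb hx hS h9, e1]

end Pool.Agent.PT


end

section

/-!
# TTH: `O_B(b, b^(1/3)) = 0`
-/

namespace Pool.Agent.PT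

open Pool.Agent.Lib_helper18 Pool.Agent.Lib_helper18.Eis Pool.Agent.Lib_helper84.Cub

namespace TTH

theorem cast_ne {n : ℤ} (hn : n ≠ 0) : (n : Eis) ≠ 0 := by
  intro h
  have h1 := congrArg Eis.re h
  rw [intCast_re] at h1
  exact hn h1

theorem w_ne : (w : Eis) ≠ 0 := by
  intro h
  have h1 := w_cube
  rw [h] at h1
  revert h1
  decide

theorem LSym.one_right {π : Eis} {s : Eis → Eis → ZMod 3} {e : ℕ} (hs : LSym π s e) {a : Eis}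
    (ha : a ≠ 0) : s a 1 = 0 := by
  have h1 := hs.mul 1 1 a one_ne_zero one_ne_zero ha
  have h2 := hs.skew 1 a one_ne_zero ha
  rw [one_mul] at h1
  have h3 : s 1 a = 0 := by linear_combination -h1
  rw [h2, h3, neg_zero]

theorem LSym.mul_right {π : Eis} {s : Eis → Eis → ZMod 3} {e : ℕ} (hs : LSym π s e) {a b c : Eis}
    (ha : a ≠ 0) (hb : b ≠ 0) (hc : c ≠ 0) : s a (b * c) = s a b + s a c := by
  have h1 := hs.mul b c a hb hc ha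
  have h2 := hs.skew (b * c) a (mul_ne_zero hb hc) ha
  have h3 := hs.skew b a hb ha
  have h4 := hs.skew c a hc ha
  rw [h2, h1, h3, h4]
  ring

theorem AS_val {π : Eis} {s : Eis → Eis → ZMod 3} {e : ℕ} (hs : LSym π s e) {B : Eis}
    (hB : B ≠ 0) {r : ℤ} (hr : (r : Eis) ≠ 0) : AS s B 0 1 1 0 r = - s w B := by
  have e1 : Lf 0 1 2 r = w * (w * (r : Eis)) := by
    unfold Lf
    push_cast
    ring
  have e2 : Lf 1 0 1 r = 1 := by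
    unfold Lf
    push_cast
    ring
  have e3 : Lf 0 1 1 r = w * (r : Eis) := by
    unfold Lf
    push_cast
    ring
  have e4 : Lf 1 0 2 r = 1 := by
    unfold Lf
    push_cast
    ring
  unfold AS
  rw [e1, e2, e3, e4, LSym.mul_right hs hB w_ne (mul_ne_zero w_ne hr), hs.skew w B w_ne hB]
  ring

theorem key3 : ∀ a b c : ZMod 3, (a + b = 0 → -(a * c) = a * c - b * c) := by decide

theorem key3' : ∀ a b c : ZMod 3, (a ≠ 0 → b ≠ 0 → a + b ≠ 0 → 0 = a * c - b * c) := by decide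

theorem cast3 (n : ℕ) : (n : ZMod 3) = 0 ↔ 3 ∣ n := ZMod.natCast_eq_zero_iff n 3

theorem local_eq (hSTM : STM) (hSPP : SPP) (hSLC : SLC) (hLCI : LCI) (hAVV : AVV) {B b : ℤ}
    (hB : BOk B) (hb : Adm B b) (h9 : C9 b) (v : Pl) :
    TT v B b b 0 1 1 0 = sy v w (b : Eis) - sy v w (B : Eis) := by
  have hB0 : (B : Eis) ≠ 0 := cast_ne hB.ne
  have hb0 : (b : Eis) ≠ 0 := cast_ne hb.ne
  have hsym : ∃ e, LSym (uni v) (sy v) e := by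
    cases v with
    | none => exact ⟨4, hSLC⟩
    | some π => exact ⟨1, hSTM π.1 π.2.1 (hSPP.2.2.2.1 π).1⟩
  obtain ⟨e, hs⟩ := hsym
  by_cases hLC : LC (uni v) b
  · have hBb : sy v (B : Eis) (b : Eis) = 0 := by
      rw [hs.skew _ _ hb0 hB0]
      cases v with
      | none =>
        change - sl (b : Eis) (B : Eis) = 0
        unfold sl
        have h0 : (fun π : PP => tm π.1 (b : Eis) (B : Eis)) = fun _ => 0 := by
          funext π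
          exact hb.sym π
        rw [h0, finsum_zero, neg_zero, neg_zero]
      | some π =>
        change - tm π.1 (b : Eis) (B : Eis) = 0
        rw [hb.sym π, neg_zero]
    have hSol : SolW b b 0 1 1 0 := ⟨by ring, by simpa using hb.ne⟩
    have hAV := (hAVV v B b b 0 1 1 0 hB.ne hb.ne hb.ne hSol hBb hLC).2 (- sy v w (B : Eis))
      (V (uni v) (b : Eis) + 1) (by
        intro r hr
        refine AS_val hs hB0 ?_
        intro hr0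
        rw [hr0, zero_pow three_ne_zero, zero_sub, dvd_neg] at hr
        exact (fin hs.prime hb0).not_pow_dvd_of_multiplicity_lt (Nat.lt_succ_self _) hr)
    have hwb : sy v w (b : Eis) = 0 := by
      have h1 := hLCI.2.2 (uni v) (sy v) e b w hs hLC hb.ne w_ne
      rw [hs.skew _ _ hb0 w_ne, h1, neg_zero]
    unfold TT
    rw [if_pos hLC, hAV, hwb]
    ring
  · cases v with
    | none => exact absurd ((hLCI.2.1 b hb.three).mpr h9) hLC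
    | some π =>
      have hVw : V π.1 w = 0 := by
        rw [V_eq_zero_iff]
        intro h
        have h1 : π.1 ∣ w ^ 3 := dvd_pow h three_ne_zero
        rw [w_cube] at h1
        exact π.2.1.not_isUnit (isUnit_of_dvd_one h1)
      have ht : ∀ x : Eis, tm π.1 w x = (V π.1 x : ZMod 3) * ch π.1 w := by
        intro x
        unfold tm
        rw [hVw]
        push_cast
        ring
      unfold TT
      rw [if_neg hLC]
      change (if 3 ∣ V π.1 (b : Eis) + V π.1 (B : Eis) ∧ ¬ 3 ∣ V π.1 (b : Eis)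
        then - tm π.1 w (b : Eis) else 0) = tm π.1 w (b : Eis) - tm π.1 w (B : Eis)
      rw [ht, ht]
      by_cases hd : π.1 ∣ (B : Eis)
      · have hV1 : V π.1 (B : Eis) ≠ 0 := by
          intro h
          exact (V_eq_zero_iff.mp h) hd
        have hV2 := hB.cf π
        have hVB : ¬ 3 ∣ V π.1 (B : Eis) := by omega
        have hVb : ¬ 3 ∣ V π.1 (b : Eis) := by
          intro h3
          apply hLC
          refine (hLCI.1 π b hb.ne).mpr ⟨h3, ?_⟩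
          have h4 := hb.sym π
          unfold tm at h4
          rw [(cast3 _).mpr h3, zero_mul, sub_zero] at h4
          rcases mul_eq_zero.mp h4 with h5 | h5
          · exact absurd ((cast3 _).mp h5) hVB
          · exact h5
        by_cases h6 : 3 ∣ V π.1 (b : Eis) + V π.1 (B : Eis)
        · rw [if_pos ⟨h6, hVb⟩]
          refine key3 _ _ _ ?_
          rw [← Nat.cast_add]
          exact (cast3 _).mpr h6
        · rw [if_neg (fun h => h6 h.1)]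
          refine key3' _ _ _ ?_ ?_ ?_
          · exact fun h => hVb ((cast3 _).mp h)
          · exact fun h => hVB ((cast3 _).mp h)
          · rw [← Nat.cast_add]
            exact fun h => h6 ((cast3 _).mp h)
      · have h1 : V π.1 (B : Eis) = 0 := V_eq_zero hd
        have h2 : V π.1 (b : Eis) = 0 := V_eq_zero (hb.unr π hd)
        rw [h1, h2, if_neg (fun h => h.2 (dvd_zero _))]
        push_cast
        ring

end TTH

/-- TTH. -/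
theorem TTH_thm (hSTM : STM) (hSPP : SPP) (hSSL : SSL) (hSLC : SLC) (hSCJ : SCJ) (hLCI : LCI)
    (hAVV : AVV) (hLFIN : LFIN) : TTH := by
  intro B b hB hb h9
  have hB0 : (B : Eis) ≠ 0 := TTH.cast_ne hB.ne
  have hb0 : (b : Eis) ≠ 0 := TTH.cast_ne hb.ne
  unfold OO
  have h1 : (fun v : Pl => TT v B b b 0 1 1 0) =
      fun v => sy v w (b : Eis) - sy v w (B : Eis) := by
    funext v
    exact TTH.local_eq hSTM hSPP hSLC hLCI hAVV hB hb h9 v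
  rw [h1, finsum_sub_distrib (hSSL.2.2.2 w b TTH.w_ne hb0).1 (hSSL.2.2.2 w B TTH.w_ne hB0).1,
    (hSSL.2.2.2 w b TTH.w_ne hb0).2, (hSSL.2.2.2 w B TTH.w_ne hB0).2, sub_zero]

end Pool.Agent.PT


end

section

/-!
# Prime twists of rank zero, every `n` prime to `3`: statements

Twists by primes `q = 1 (mod 3)`, `q = ρ conj ρ`, used when the number `k` of primes `= 2 (mod 3)`
dividing `n` is odd.
-/

open NumberField IsDedekindDomain Finset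
open scoped nonZeroDivisors Pointwise

namespace Pool.Agent.PTE

open Pool.Agent.Lib_helper18 Pool.Agent.Lib_helper18.Eis Pool.Agent.Lib_helper84.Cub
open Pool.Agent.PT

/-! ### Arithmetic of `q = ρ conj ρ` -/

/-- SPLT: the primes `q = 1 (mod 3)`. -/
def SPLT : Prop :=
  (∀ q : ℕ, q.Prime → q % 3 = 1 → ∃ ρ : PP, (q : Eis) = ρ.1 * conj ρ.1) ∧
  ∀ (q : ℕ) (ρ : PP), q.Prime → q % 3 = 1 → (q : Eis) = ρ.1 * conj ρ.1 →
    ¬ Associated ρ.1 (conj ρ.1) ∧ (∃ ρ' : PP, ρ'.1 = conj ρ.1) ∧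
    (∀ σ : PP, σ.1 ∣ (q : Eis) → σ.1 = ρ.1 ∨ σ.1 = conj ρ.1) ∧
    (∀ x : ℤ, ρ.1 ∣ (x : Eis) ↔ (q : ℤ) ∣ x) ∧
    (∀ a : Eis, ¬ ρ.1 ∣ a → sym (conj ρ.1) (conj a) = - sym ρ.1 a) ∧
    (∀ x : ℤ, ¬ (q : ℤ) ∣ x → sym ρ.1 (x : Eis) = 0 → ∃ r : ℤ, (q : ℤ) ∣ r ^ 3 - x)

/-- `q = 1 (mod 3)` is in the class `(w0, c)`. -/
def InClS {m : ℕ} (π : Fin m → PP) (w0 : ZMod 3) (c : Fin m → ZMod 3) (q : ℕ) : Prop :=
  q % 3 = 1 ∧ wt ((q : ℤ) ^ 2) = w0 ∧ ∀ i, sym (π i).1 (q : Eis) = c i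

/-- HYPS: the minus part of the Selmer group of `n q` is trivial. -/
def HYPS : Prop := ∀ (n m k : ℕ) (π : Fin m → PP) (p e : Fin m → ℕ) (r f : Fin k → ℕ)
  (w0 : ZMod 3) (c : Fin m → ZMod 3) (q : ℕ) (ρ : PP) (y : ℤ), NF n π p e r f → q.Prime →
  InClS π w0 c q → ¬ q ∣ n → (q : Eis) = ρ.1 * conj ρ.1 → wt ((n : ℤ) ^ 2) + w0 ≠ 0 →
  (Mp n π p e r none c).det ≠ 0 → AdmC n π w0 c y → sym ρ.1 (y : Eis) ≠ 0 →
  HypM ((n : ℤ) * q)

/-- EADMS: `AdmC` and `Adm`. -/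
def EADMS : Prop := ∀ (n m k : ℕ) (π : Fin m → PP) (p e : Fin m → ℕ) (r f : Fin k → ℕ)
  (w0 : ZMod 3) (c : Fin m → ZMod 3) (q : ℕ) (ρ : PP), NF n π p e r f → q.Prime →
  InClS π w0 c q → ¬ q ∣ n → (q : Eis) = ρ.1 * conj ρ.1 →
  BOk ((n : ℤ) * q) ∧ ∀ x : ℤ, (∀ l : ℕ, l.Prime → (l : ℤ) ∣ x → l ∣ n) →
    ((AdmC n π w0 c x ∧ sym ρ.1 (x : Eis) = 0) ↔ Adm ((n : ℤ) * q) x)

/-- FD2S: the class of a point; the prime `q` can be put into the last cell. -/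
def FD2S : Prop := ∀ (n q : ℕ) (a x : Fin 3 → ℤ), q.Prime → q % 3 = 1 → ¬ q ∣ n → 0 < n →
  BOk ((n : ℤ) * q) → Cell ((n : ℤ) * q) a x →
  ∃ z X Y : ℤ, Pt ((n : ℤ) * q) z X Y ∧ Adm ((n : ℤ) * q) z ∧
    (∀ l : ℕ, l.Prime → (l : ℤ) ∣ z → l ∣ n) ∧ ¬ ∃ t : ℤ, t ^ 3 = z

/-! ### Hyperplanes -/

/-- EHPL: bases of the admissible classes adapted to a hyperplane. -/
def EHPL : Prop := ∀ (n m k : ℕ) (π : Fin m → PP) (p e : Fin m → ℕ) (r f : Fin k → ℕ)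
  (w0 : ZMod 3) (c : Fin m → ZMod 3), NF n π p e r f → 0 < k →
  wt ((n : ℤ) ^ 2) + w0 ≠ 0 → (Mp n π p e r none c).det ≠ 0 →
  ∃ v : Fin k → ℤ, (∀ i, AdmC n π w0 c (v i)) ∧
    ∀ δ : Fin k → ZMod 3, δ ≠ 0 → ∃ (s : ℕ) (b : Fin (s + 1) → ℤ), s + 1 = k ∧
      (∀ i, AdmC n π w0 c (b i)) ∧ (∀ i (π : PP), V π.1 (b i : Eis) ≤ 2) ∧
      (∀ g : Fin (s + 1) → ℕ, (∃ i, ¬ 3 ∣ g i) → ¬ ∃ t : ℤ, t ^ 3 = ∏ i, b i ^ g i) ∧
      (∀ i j, i ≠ j → C9 (b i) ∨ C9 (b j)) ∧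
      ∀ ρ : PP, ¬ ρ.1 ∣ (n : Eis) → (∀ i : Fin s, sym ρ.1 (b i.castSucc : Eis) = 0) →
        sym ρ.1 (b (Fin.last s) : Eis) ≠ 0 →
        (∃ ε : ZMod 3, ε ≠ 0 ∧ ∀ i, sym ρ.1 (v i : Eis) = ε * δ i) ∧
        ∀ x : ℤ, AdmC n π w0 c x → sym ρ.1 (x : Eis) = 0 → ∃ (g : Fin s → ℕ) (u t : ℤ),
          u ≠ 0 ∧ t ≠ 0 ∧ x * u ^ 3 = (∏ i, b i.castSucc ^ g i) * t ^ 3

/-- A system of classes, without the condition modulo `9`. -/
structure SysG {s : ℕ} (b : Fin s → ℤ) (p q p' q' : Fin s → Fin s → ℤ) : Prop where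
  ind : ∀ c : Fin s → ℕ, (∃ i, ¬ 3 ∣ c i) → ¬ ∃ t : ℤ, t ^ 3 = ∏ i, b i ^ c i
  sol : ∀ j i, j ≠ i → Sol (b j) (b i) (p j i) (q j i) (p' j i) (q' j i)

/-- the restriction of a matrix to the first `s` indices -/
def rs {s : ℕ} (P : Fin (s + 1) → Fin (s + 1) → ℤ) : Fin s → Fin s → ℤ :=
  fun j i => P j.castSucc i.castSucc

/-- the restriction of a vector to the first `s` indices -/
def rv {s : ℕ} (b : Fin (s + 1) → ℤ) : Fin s → ℤ := fun j => b j.castSucc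

/-- ECLS: the class and the systems. -/
def ECLS : Prop := ∀ (n m k : ℕ) (π : Fin m → PP) (p e : Fin m → ℕ) (r f : Fin k → ℕ),
  NF n π p e r f → Odd k →
  ∃ (w0 : ZMod 3) (c : Fin m → ZMod 3) (v : Fin k → ℤ), w0 ≠ 0 ∧
    (∀ i, v i ≠ 0 ∧ ∀ l : ℕ, l.Prime → (l : ℤ) ∣ v i → l ∣ n) ∧
    ∀ δ : Fin k → ZMod 3, δ ≠ 0 → ∃ (s : ℕ) (b : Fin (s + 1) → ℤ)
      (P Q P' Q' : Fin (s + 1) → Fin (s + 1) → ℤ), s + 1 = k ∧ SysG b P Q P' Q' ∧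
      (∀ i, b i ≠ 0) ∧
      (∀ ρ : PP, ¬ ρ.1 ∣ (n : Eis) → (∀ i : Fin s, sym ρ.1 (b i.castSucc : Eis) = 0) →
        sym ρ.1 (b (Fin.last s) : Eis) ≠ 0 →
        ∃ ε : ZMod 3, ε ≠ 0 ∧ ∀ i, sym ρ.1 (v i : Eis) = ε * δ i) ∧
      ∀ (q : ℕ) (ρ : PP), q.Prime → InClS π w0 c q → ¬ q ∣ n → 3 < q →
        (q : Eis) = ρ.1 * conj ρ.1 → (∀ i : Fin s, sym ρ.1 (b i.castSucc : Eis) = 0) →
        sym ρ.1 (b (Fin.last s) : Eis) ≠ 0 →
        BOk ((n : ℤ) * q) ∧ (∀ i : Fin s, Adm ((n : ℤ) * q) (b i.castSucc)) ∧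
        (∀ i j, Mat (rv b) (rs P) (rs Q) (rs P') (rs Q') ((n : ℤ) * q) i j =
          - Mat (rv b) (rs P) (rs Q) (rs P') (rs Q') ((n : ℤ) * q) j i) ∧
        ((∃ X Y : ℚ, X ^ 3 + Y ^ 3 = (n : ℚ) * q) →
          (Mat (rv b) (rs P) (rs Q) (rs P') (rs Q') ((n : ℤ) * q)).det = 0)

/-! ### Dependence of the pairing on the prime -/

/-- The cubic residue symbol modulo `ρ` of
`[(p + q w^2 r)(p' + q' w r)] / [(p + q w r)(p' + q' w^2 r)]`. -/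
noncomputable def TAUVS (ρ : Eis) (p q p' q' r : ℤ) : ZMod 3 :=
  sym ρ (Lf p q 2 r) + sym ρ (Lf p' q' 1 r) - sym ρ (Lf p q 1 r) - sym ρ (Lf p' q' 2 r)

/-- DCONSTS: the pairing `O_{nQ}(b, η)` as a function of the prime `Q = 1 (mod 3)`. -/
def DCONSTS : Prop := ∀ (n : ℕ) (b x p q p' q' : ℤ), 0 < n → ¬ 3 ∣ n → Sol b x p q p' q' →
  b ≠ 0 → x ≠ 0 → ∃ f₀ : ℕ, 0 < f₀ ∧ ∀ f : ℕ, 0 < f → f₀ ∣ f →
  ∃ (C : ZMod 3) (Φ : (ZMod f)ˣ →* Multiplicative (ZMod 3)) (N₀ : ℕ),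
    ∀ (Q : ℕ) (hQ : Q.Coprime f) (ρ : PP), Q.Prime → N₀ < Q → Q % 3 = 1 →
      (Q : Eis) = ρ.1 * conj ρ.1 →
      BOk ((n : ℤ) * Q) → Adm ((n : ℤ) * Q) b → Adm ((n : ℤ) * Q) x →
      ∀ r : ℤ, (Q : ℤ) ∣ r ^ 3 - b → OO ((n : ℤ) * Q) b x p q p' q' =
        C + (Φ (ZMod.unitOfCoprime Q hQ)).toAdd + TAUVS ρ.1 p q p' q' r

/-! ### The governing field -/

/-- `a` is `1` modulo `3`. -/
def M1 {f : ℕ} (a : (ZMod f)ˣ) : Prop := (a : ZMod f).val % 3 = 1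

/-- GZEROG: existence of the governing field. -/
def GZEROG : Prop := ∀ (s : ℕ) (b : Fin s → ℤ) (p q p' q' : Fin s → Fin s → ℤ) (f : ℕ),
  SysG b p q p' q' → 0 < f → 9 ∣ f →
  ∃ (L : Type) (_ : Field L) (_ : NumberField L) (ζ ω : L), GovF b p q p' q' f L ζ ω

/-- GCG: the commutators. -/
def GCG : Prop := ∀ (s : ℕ) (b : Fin s → ℤ) (p q p' q' : Fin s → Fin s → ℤ) (f : ℕ)
  (L : Type) [Field L] [NumberField L] (ζ ω : L), SysG b p q p' q' →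
  GovF b p q p' q' f L ζ ω →
  ∀ v : Fin s → Fin s → ZMod 3, ∃ z : L ≃ₐ[ℚ] L, z ζ = ζ ∧
    (∀ (j : Fin s) (ρ : L), ρ ^ 3 = (b j : L) → z ρ = ρ) ∧
    ∀ j i, j < i → ∀ ρ A : L, ρ ^ 3 = (b j : L) →
      A ^ 3 * aD ω (p j i) (q j i) (p' j i) (q' j i) ρ =
        aN ω (p j i) (q j i) (p' j i) (q' j i) ρ →
      z A = ω ^ (v j i).val * A

/-- GKUM: Kummer theory for the cube roots of the `b_j`. -/
def GKUM : Prop := ∀ (s : ℕ) (b : Fin s → ℤ) (p q p' q' : Fin s → Fin s → ℤ) (f : ℕ)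
  (L : Type) [Field L] [NumberField L] (ζ ω : L), SysG b p q p' q' →
  GovF b p q p' q' f L ζ ω →
  ∀ v : Fin s → ZMod 3, ∃ z : L ≃ₐ[ℚ] L, z ζ = ζ ∧
    ∀ (j : Fin s) (ρ : L), ρ ^ 3 = (b j : L) → z ρ = ω ^ (v j).val * ρ

/-- `g` fixes the cube roots of the first `s` numbers and moves those of the last one. -/
def Fx {s : ℕ} (b : Fin (s + 1) → ℤ) {L : Type} [Field L] [NumberField L] (g : L ≃ₐ[ℚ] L) :
    Prop :=
  (∀ (j : Fin s) (ρ : L), ρ ^ 3 = (b j.castSucc : L) → g ρ = ρ) ∧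
  ∀ ρ : L, ρ ^ 3 = (b (Fin.last s) : L) → g ρ ≠ ρ

/-- The relation between `g` and `t = t_{ji}(g)`: `g A = ω^t A` for all `A` with
`A^3 = α_{ji}(ρ)`, `ρ^3 = b_j`. -/
def IsTS {s : ℕ} (b : Fin s → ℤ) (p q p' q' : Fin s → Fin s → ℤ) {L : Type} [Field L]
    [NumberField L] (ω : L) (g : L ≃ₐ[ℚ] L) (j i : Fin s) (t : ZMod 3) : Prop :=
  ∀ ρ A : L, ρ ^ 3 = (b j : L) →
    A ^ 3 * aD ω (p j i) (q j i) (p' j i) (q' j i) ρ = aN ω (p j i) (q j i) (p' j i) (q' j i) ρ →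
    g A = ω ^ t.val * A

/-- GTS: existence, uniqueness and properties of `t`. -/
def GTS : Prop := ∀ (s : ℕ) (b : Fin (s + 1) → ℤ) (p q p' q' : Fin (s + 1) → Fin (s + 1) → ℤ)
  (f : ℕ) (L : Type) [Field L] [NumberField L] (ζ ω : L), SysG b p q p' q' →
  GovF b p q p' q' f L ζ ω →
  (∀ g : L ≃ₐ[ℚ] L, g ω = ω → Fx b g →
    3 ∣ orderOf g ∧ (∀ τ : L ≃ₐ[ℚ] L, (τ * g * τ⁻¹) ω = ω ∧ Fx b (τ * g * τ⁻¹)) ∧
    ∀ k : ℕ, (g ^ k) ω = ω ∧ (¬ 3 ∣ k → Fx b (g ^ k))) ∧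
  ∀ j i : Fin s, j ≠ i →
  (∀ g : L ≃ₐ[ℚ] L, g ω = ω → Fx b g →
    ∃! t : ZMod 3, IsTS b p q p' q' ω g j.castSucc i.castSucc t) ∧
  (∀ (g τ : L ≃ₐ[ℚ] L) (t : ZMod 3), g ω = ω → Fx b g →
    IsTS b p q p' q' ω g j.castSucc i.castSucc t →
    IsTS b p q p' q' ω (τ * g * τ⁻¹) j.castSucc i.castSucc t) ∧
  (∀ (g : L ≃ₐ[ℚ] L) (t : ZMod 3) (k : ℕ), g ω = ω →
    IsTS b p q p' q' ω g j.castSucc i.castSucc t →
    IsTS b p q p' q' ω (g ^ k) j.castSucc i.castSucc (k * t))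

/-- GFRS: Frobenius elements and `t`. -/
def GFRS : Prop := ∀ (s : ℕ) (b : Fin (s + 1) → ℤ)
  (p q p' q' : Fin (s + 1) → Fin (s + 1) → ℤ) (f : ℕ)
  (L : Type) [Field L] [NumberField L] (ζ ω : L), SysG b p q p' q' →
  GovF b p q p' q' f L ζ ω →
  ∃ N₀ : ℕ, ∀ Q : ℕ, Q.Prime → N₀ < Q → Q % 3 = 1 → ∀ (P : Ideal (𝓞 L)), P.IsPrime →
    (Q : 𝓞 L) ∈ P → ∀ φ : L ≃ₐ[ℚ] L, IsArithFrobAt ℤ φ P → Fx b φ →
    ∃ ρ : PP, (Q : Eis) = ρ.1 * conj ρ.1 ∧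
      (∀ j : Fin s, sym ρ.1 (b j.castSucc : Eis) = 0) ∧ sym ρ.1 (b (Fin.last s) : Eis) ≠ 0 ∧
      ∀ j i : Fin s, j ≠ i → ∀ (r : ℤ) (t : ZMod 3), (Q : ℤ) ∣ r ^ 3 - b j.castSucc →
        IsTS b p q p' q' ω φ j.castSucc i.castSucc t →
        t = TAUVS ρ.1 (rs p j i) (rs q j i) (rs p' j i) (rs q' j i) r

/-- GALDS: summary of the governing field. -/
def GALDS : Prop := ∀ (s : ℕ) (b : Fin (s + 1) → ℤ)
  (p q p' q' : Fin (s + 1) → Fin (s + 1) → ℤ) (f : ℕ), SysG b p q p' q' → 0 < f → 9 ∣ f →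
  ∃ (L : Type) (_ : Field L) (_ : NumberField L) (_ : IsGalois ℚ L)
    (χ : (L ≃ₐ[ℚ] L) →* (ZMod f)ˣ) (F : (L ≃ₐ[ℚ] L) → Prop)
    (t : (L ≃ₐ[ℚ] L) → Fin s → Fin s → ZMod 3) (N₀ : ℕ),
    Function.Surjective χ ∧
    (∀ g τ : L ≃ₐ[ℚ] L, M1 (χ g) → F g →
      F (τ * g * τ⁻¹) ∧ ∀ j i, j ≠ i → t (τ * g * τ⁻¹) j i = t g j i) ∧
    (∀ (g : L ≃ₐ[ℚ] L) (k : ℕ), M1 (χ g) → F g → ¬ 3 ∣ k →
      F (g ^ k) ∧ ∀ j i, j ≠ i → t (g ^ k) j i = k * t g j i) ∧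
    (∀ (a : (ZMod f)ˣ) (v v' : Fin s → Fin s → ZMod 3), M1 a →
      Nat.card {g : L ≃ₐ[ℚ] L // χ g = a ∧ F g ∧ ∀ j i, j < i → t g j i = v j i} =
        Nat.card {g : L ≃ₐ[ℚ] L // χ g = a ∧ F g ∧ ∀ j i, j < i → t g j i = v' j i}) ∧
    (∀ a : (ZMod f)ˣ, M1 a → 3 ^ (s + 1) * Nat.card {g : L ≃ₐ[ℚ] L // χ g = a ∧ F g} =
      2 * Nat.card {g : L ≃ₐ[ℚ] L // χ g = a}) ∧
    ∀ (Q : ℕ) (hQ : Q.Coprime f), Q.Prime → N₀ < Q →
      ∀ (P : Ideal (𝓞 L)) (g : L ≃ₐ[ℚ] L), P.IsPrime → (Q : 𝓞 L) ∈ P →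
      MulAction.stabilizer (L ≃ₐ[ℚ] L) P = Subgroup.zpowers g → M1 (χ g) → F g →
      Q % 3 = 1 ∧ ∃ k : ℕ, k.Coprime (orderOf g) ∧ ¬ 3 ∣ k ∧
        χ (g ^ k) = ZMod.unitOfCoprime Q hQ ∧ ∃ ρ : PP, (Q : Eis) = ρ.1 * conj ρ.1 ∧
          (∀ j : Fin s, sym ρ.1 (b j.castSucc : Eis) = 0) ∧
          sym ρ.1 (b (Fin.last s) : Eis) ≠ 0 ∧
          ∀ j i : Fin s, j ≠ i → ∀ r : ℤ, (Q : ℤ) ∣ r ^ 3 - b j.castSucc →
            t (g ^ k) j i = TAUVS ρ.1 (rs p j i) (rs q j i) (rs p' j i) (rs q' j i) r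

/-! ### Counting and densities -/

/-- a lower bound for the proportion of the nonsingular alternating matrices of size `s` -/
noncomputable def rh (s : ℕ) : ℝ := if s = 0 then 1 else 5 / 8

/-- DCNTS: elements with nonsingular matrix in a class of the Galois group. -/
def DCNTS : Prop := ∀ (s f : ℕ) (G : Type) [Group G] [Finite G] (χ : G →* (ZMod f)ˣ)
  (F : G → Prop) (t : G → Fin s → Fin s → ZMod 3), Even s → 0 < f → Function.Surjective χ →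
  (∀ (a : (ZMod f)ˣ) (v v' : Fin s → Fin s → ZMod 3), M1 a →
    Nat.card {g : G // χ g = a ∧ F g ∧ ∀ j i, j < i → t g j i = v j i} =
      Nat.card {g : G // χ g = a ∧ F g ∧ ∀ j i, j < i → t g j i = v' j i}) →
  (∀ a : (ZMod f)ˣ, M1 a → 3 ^ (s + 1) * Nat.card {g : G // χ g = a ∧ F g} =
    2 * Nat.card {g : G // χ g = a}) →
  ∀ (a : (ZMod f)ˣ) (C : Fin s → Fin s → ZMod 3), M1 a →
    rh s * (2 / 3 ^ (s + 1)) * ((Nat.card G : ℝ) / f.totient) ≤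
      (Nat.card {g : G // χ g = a ∧ F g ∧ (alt (C + t g)).det ≠ 0} : ℝ) ∧
    rh s * (2 / 3 ^ (s + 1)) * ((Nat.card G : ℝ) / f.totient) ≤
      (Nat.card {g : G // χ g = a ∧ F g ∧ (alt (C - t g)).det ≠ 0} : ℝ)

/-- CLSCS: the number of classes modulo `f`. -/
def CLSCS : Prop := ∀ (f m : ℕ) (κ : (ZMod f)ˣ →* Multiplicative (Fin (m + 1) → ZMod 3)),
  0 < f → 9 ∣ f →
  (∀ c : Fin (m + 1) → ZMod 3,
    Nat.card {a : (ZMod f)ˣ // M2 a ∧ (κ a).toAdd = c} * (2 * 3 ^ (m + 1)) = f.totient) →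
  ∀ c : Fin (m + 1) → ZMod 3,
    Nat.card {a : (ZMod f)ˣ // M1 a ∧ (κ a).toAdd = c} * (2 * 3 ^ (m + 1)) = f.totient

/-- The prime `Q` has the class `c`, the first `s` numbers are cubes modulo `Q` and the last one
is not. -/
def ClQ {s f m : ℕ} (b : Fin (s + 1) → ℤ)
    (κ : (ZMod f)ˣ →* Multiplicative (Fin (m + 1) → ZMod 3)) (c : Fin (m + 1) → ZMod 3) (Q : ℕ)
    (hQ : Q.Coprime f) (ρ : PP) : Prop :=
  Q % 3 = 1 ∧ (κ (ZMod.unitOfCoprime Q hQ)).toAdd = c ∧ (Q : Eis) = ρ.1 * conj ρ.1 ∧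
    (∀ j : Fin s, sym ρ.1 (b j.castSucc : Eis) = 0) ∧ sym ρ.1 (b (Fin.last s) : Eis) ≠ 0

/-- The primes of the class `c` with nonsingular matrix. -/
def SSS {s f m : ℕ} (b : Fin (s + 1) → ℤ) (p q p' q' : Fin (s + 1) → Fin (s + 1) → ℤ)
    (κ : (ZMod f)ˣ →* Multiplicative (Fin (m + 1) → ZMod 3)) (c : Fin (m + 1) → ZMod 3)
    (C : Fin s → Fin s → ZMod 3) (Φ : (ZMod f)ˣ →* Multiplicative (Fin s → Fin s → ZMod 3)) :
    Set ℕ :=
  {Q : ℕ | ∃ (hQ : Q.Coprime f) (ρ : PP), ClQ b κ c Q hQ ρ ∧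
    ∀ τ : Fin s → Fin s → ZMod 3,
      (∀ j i, j ≠ i → ∀ r : ℤ, (Q : ℤ) ∣ r ^ 3 - b j.castSucc →
        τ j i = TAUVS ρ.1 (rs p j i) (rs q j i) (rs p' j i) (rs q' j i) r) →
      (alt (C + (Φ (ZMod.unitOfCoprime Q hQ)).toAdd + τ)).det ≠ 0}

/-- DENSS: the density of the primes with nonsingular matrix, for one hyperplane. -/
def DENSS : Prop := ∀ (s : ℕ) (b : Fin (s + 1) → ℤ)
  (p q p' q' : Fin (s + 1) → Fin (s + 1) → ℤ) (f m : ℕ)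
  (κ : (ZMod f)ˣ →* Multiplicative (Fin (m + 1) → ZMod 3)) (c : Fin (m + 1) → ZMod 3)
  (C : Fin s → Fin s → ZMod 3) (Φ : (ZMod f)ˣ →* Multiplicative (Fin s → Fin s → ZMod 3)),
  SysG b p q p' q' → Even s → 0 < f → 9 ∣ f → c ≠ 0 →
  (∀ c : Fin (m + 1) → ZMod 3,
    Nat.card {a : (ZMod f)ˣ // M1 a ∧ (κ a).toAdd = c} * (2 * 3 ^ (m + 1)) = f.totient) →
  RI.DensityGE (SSS b p q p' q' κ c C Φ ∪
    {Q : ℕ | ∃ (hQ : Q.Coprime f) (ρ : PP), ClQ b κ (-c) Q hQ ρ})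
    (2 * rh s / 3 ^ (s + m + 2))

/-- DIRS: upper bound for the number of primes in a class. -/
def DIRS : Prop := ∀ (m : ℕ) (π : Fin m → PP) (p : Fin m → ℕ), (∀ i, (p i).Prime) →
  (∀ i, p i % 3 = 1) → (∀ i, (p i : Eis) = (π i).1 * conj (π i).1) → Function.Injective p →
  ∀ (w0 : ZMod 3) (c : Fin m → ZMod 3), ∃ K : ℝ, ∀ s : ℝ, 1 < s → s ≤ 2 →
    ∑' q : {q : ℕ // q.Prime ∧ q ∈ {q : ℕ | InClS π w0 c q}}, (q : ℝ) ^ (-s) ≤
      1 / (2 * 3 ^ (m + 1)) * Real.log (1 / (s - 1)) + K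

/-- DSUM: sum of densities. -/
def DSUM : Prop := ∀ (ι : Type) [Fintype ι] (S S' : ι → Set ℕ) (T R : Set ℕ) (d u : ℝ) (N : ℕ),
  (∀ i, RI.DensityGE (S i ∪ S' i) d) →
  (∃ K : ℝ, ∀ s : ℝ, 1 < s → s ≤ 2 →
    ∑' q : {q : ℕ // q.Prime ∧ q ∈ R}, (q : ℝ) ^ (-s) ≤ u * Real.log (1 / (s - 1)) + K) →
  (∀ i q, q.Prime → N < q → q ∈ S' i → q ∈ R) →
  (∀ i q, q.Prime → N < q → q ∈ S i → q ∈ T) →
  (∀ q : ℕ, q.Prime → N < q → ∃ i₁ i₂, ∀ i, q ∈ S i ∨ q ∈ S' i → i = i₁ ∨ i = i₂) →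
  RI.DensityGE T ((Fintype.card ι * d - 2 * u) / 2)

/-- FINAS: the theorem for numbers in normal form, `k` odd. -/
def FINAS : Prop := ∀ (n m k : ℕ) (π : Fin m → PP) (p e : Fin m → ℕ) (r f : Fin k → ℕ),
  NF n π p e r f → Odd k →
  RI.DensityGE {q : ℕ | ¬ ∃ X Y : ℚ, X ^ 3 + Y ^ 3 = (n : ℚ) * q} (1 / (30 * 3 ^ m))

/-- MAINS: the theorem for all `n` prime to `3`. -/
def MAINS : Prop := ∀ n : ℕ, 0 < n → ¬ 3 ∣ n →
  ∃ C : ℝ, ∀ s : ℝ, 1 < s → s ≤ 2 →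
    1 / (30 * 3 ^ Nat.card {p : ℕ // p.Prime ∧ p % 3 = 1 ∧ ¬ 3 ∣ n.factorization p}) *
      Real.log (1 / (s - 1)) - C ≤
    ∑' q : {q : ℕ // q.Prime ∧ ¬ ∃ X Y : ℚ, X ^ 3 + Y ^ 3 = (n : ℚ) * q}, (q : ℝ) ^ (-s)

end Pool.Agent.PTE


end

section

/-!
# Prime twists of rank zero, `n` divisible by `3`: statements

`B = 3^h n q^E`, `h = 1, 2`, `E = 1, 2`, `n` prime to `3` and cube-free.
-/

open NumberField IsDedekindDomain Finset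
open scoped nonZeroDivisors Pointwise

namespace Pool.Agent.PT3

open Pool.Agent.Lib_helper18 Pool.Agent.Lib_helper18.Eis Pool.Agent.Lib_helper84.Cub
open Pool.Agent.PT Pool.Agent.PTE

/-! ### The completion at `3` -/

/-- the exponent of `3` -/
noncomputable def lv (b : ℤ) : ZMod 3 := (padicValInt 3 b : ZMod 3)

/-- the class modulo `9` of the part prime to `3` -/
noncomputable def lw (b : ℤ) : ZMod 3 := wt ((b / 3 ^ padicValInt 3 b) ^ 2)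

/-- LCL: local cubes at `lam` and symbols of rational numbers. -/
def LCL : Prop :=
  (∀ b : ℤ, b ≠ 0 → (LC lam b ↔ lv b = 0 ∧ lw b = 0)) ∧
  (∀ a b : ℤ, a ≠ 0 → b ≠ 0 → lv (a * b) = lv a + lv b ∧ lw (a * b) = lw a + lw b) ∧
  (lv 3 = 1 ∧ lw 3 = 0) ∧
  (∀ b : ℤ, ¬ (3 : ℤ) ∣ b → lv b = 0 ∧ lw b = wt (b ^ 2)) ∧
  (∀ b : ℤ, b ≠ 0 → sl w (b : Eis) = - lw b) ∧
  (∀ (a b : ℤ) (c : Eis), a ≠ 0 → b ≠ 0 → c ≠ 0 → lv a = lv b → lw a = lw b →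
    sl c (a : Eis) = sl c (b : Eis)) ∧
  (∀ a b : ℤ, a ≠ 0 → b ≠ 0 → lv a = lv b → lw a = lw b → LC lam (a * b ^ 2))

/-! ### Conditions on `B` and on the classes -/

/-- conditions on `B`: nonzero and cube-free outside `3` -/
structure BG (B : ℤ) : Prop where
  ne : B ≠ 0
  cf : ∀ π : PP, V π.1 (B : Eis) ≤ 2

/-- conditions on `B`: divisible by `3`, cube-free -/
structure BT (B : ℤ) : Prop extends BG B where
  t1 : (3 : ℤ) ∣ B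
  t2 : ¬ (27 : ℤ) ∣ B

/-- the conditions on the class `b` outside `3` -/
structure AG (B b : ℤ) : Prop where
  ne : b ≠ 0
  sym : ∀ π : PP, tm π.1 (b : Eis) (B : Eis) = 0
  unr : ∀ π : PP, ¬ π.1 ∣ (B : Eis) → ¬ π.1 ∣ (b : Eis)

/-- `b` is an admissible class for the curve `X^3 + Y^3 = B`, `3 ∣ B`. -/
structure AdT (B b : ℤ) : Prop extends AG B b where
  wild : lv B = 2 → lw b + lv b * lw B = 0

/-- a local point of class `x` at `lam` -/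
structure PtL (B x X Y : ℤ) : Prop where
  hX : X ≠ 0
  hY : Y ≠ 0
  n0 : X ^ 3 + x * Y ^ 3 ≠ 0
  cl : lv (x * (X ^ 3 + x * Y ^ 3)) = lv B ∧ lw (x * (X ^ 3 + x * Y ^ 3)) = lw B

/-- `HypM`, with the local condition at `lam` when `9` does not divide `B` -/
def HypT (B : ℤ) : Prop := ∀ z t : Eis, z ≠ 0 → z * conj z = t ^ 3 →
  (∀ π : PP, tm π.1 z (B : Eis) = 0) → (∀ π : PP, ¬ π.1 ∣ (B : Eis) → 3 ∣ V π.1 z) →
  (¬ (9 : ℤ) ∣ B → sl z 3 = 0 ∧ sl z 4 = 0) →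
  ∃ γ : Eis, z = γ ^ 3

/-! ### The local evaluation outside `3` -/

/-- F2BG -/
def F2BG : Prop := ∀ (π : PP) (B b x p q p' q' : ℤ), BG B → AG B b → AG B x →
  Sol b x p q p' q' → LC π.1 b → ¬ LC π.1 x →
  ∃ N0 : ℕ, ∀ r : ℤ, π.1 ^ N0 ∣ (r : Eis) ^ 3 - (b : Eis) →
    AS (tm π.1) (B : Eis) p q p' q' r =
      tm π.1 (B : Eis) (Gf p q p' q' 1) - tm π.1 (B : Eis) (Gf p q p' q' 2) +
        tm π.1 w (B : Eis)

/-- F3RG -/
def F3RG : Prop := ∀ (π : PP) (B b x p q p' q' : ℤ), BG B → AG B b → AG B x →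
  Sol b x p q p' q' → π.1 ∣ (B : Eis) → ¬ 3 ∣ V π.1 (b : Eis) → ¬ 3 ∣ V π.1 (x : Eis) →
    UV (tm π.1) B b x p q p' q' =
      (if 3 ∣ V π.1 (b : Eis) + V π.1 (B : Eis) then - tm π.1 w (x : Eis) else 0) +
      (if 3 ∣ V π.1 (x : Eis) + V π.1 (B : Eis) then - tm π.1 w (b : Eis) else 0)

/-- F3UG -/
def F3UG : Prop := ∀ (π : PP) (B b x p q p' q' : ℤ), BG B → AG B b → AG B x →
  Sol b x p q p' q' → ¬ π.1 ∣ (B : Eis) → ch π.1 (b : Eis) ≠ 0 → ch π.1 (x : Eis) ≠ 0 →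
    UV (tm π.1) B b x p q p' q' = 0

/-- TAMG: the tame places, two noncubes or one noncube. -/
def TAMG : Prop := F2BG ∧ F3RG ∧ F3UG

/-- LEVG: the local evaluation at the tame places. -/
def LEVG : Prop := ∀ (π : PP) (B b x p q p' q' X Y : ℤ), BG B → AG B b → AG B x →
  Sol b x p q p' q' → Pt B x X Y →
    TT (some π) B b x p q p' q' = UV (tm π.1) B b x p q p' q' - SV (tm π.1) x p q p' q' X Y

/-- LAMG: the local form of the antisymmetry at the tame places. -/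
def LAMG : Prop := ∀ (π : PP) (B b x p q p' q' : ℤ), BG B → AG B b → AG B x →
  Sol b x p q p' q' →
    TT (some π) B b x p q p' q' + TT (some π) B x b p (-p') (-q) q' = UV (tm π.1) B b x p q p' q'

/-- LFIG: finiteness of the supports. -/
def LFIG : Prop := ∀ B b x p q p' q' : ℤ, BG B → AG B b → AG B x → SolW b x p q p' q' →
    (Function.support fun v : Pl => TT v B b x p q p' q').Finite

/-! ### The local evaluation at `lam` -/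

/-- IIAG: the local term of a point when `b` is the cube of an integer. -/
def IIAG : Prop := ∀ r x p q p' q' X Y : ℤ, r ≠ 0 → x ≠ 0 → Sol (r ^ 3) x p q p' q' →
  X ≠ 0 → Y ≠ 0 → X ^ 3 + x * Y ^ 3 ≠ 0 →
  SV sl x p q p' q' X Y =
    sl ((X ^ 3 + x * Y ^ 3 : ℤ) : Eis) (Gf p q p' q' 1) -
      sl ((X ^ 3 + x * Y ^ 3 : ℤ) : Eis) (Gf p q p' q' 2) +
      sl w ((X ^ 3 + x * Y ^ 3 : ℤ) : Eis) -
      AS sl ((X ^ 3 + x * Y ^ 3 : ℤ) : Eis) p q p' q' r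

/-- IIA: the local term of a point at `lam` when `b` is a local cube. -/
def IIA : Prop := ∀ b x p q p' q' X Y : ℤ, b ≠ 0 → x ≠ 0 → LC lam b → Sol b x p q p' q' →
  X ≠ 0 → Y ≠ 0 → X ^ 3 + x * Y ^ 3 ≠ 0 →
  ∃ N0 : ℕ, ∀ r : ℤ, lam ^ N0 ∣ (r : Eis) ^ 3 - (b : Eis) →
  SV sl x p q p' q' X Y =
    sl ((X ^ 3 + x * Y ^ 3 : ℤ) : Eis) (Gf p q p' q' 1) -
      sl ((X ^ 3 + x * Y ^ 3 : ℤ) : Eis) (Gf p q p' q' 2) +
      sl w ((X ^ 3 + x * Y ^ 3 : ℤ) : Eis) -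
      AS sl ((X ^ 3 + x * Y ^ 3 : ℤ) : Eis) p q p' q' r

/-- LL1: the linear forms of a point when `x` is a local cube. -/
def LL1 : Prop := ∀ x X Y b : ℤ, x ≠ 0 → b ≠ 0 → X ≠ 0 → Y ≠ 0 → X ^ 3 + x * Y ^ 3 ≠ 0 →
  lv (X ^ 3 + x * Y ^ 3) = 1 →
  ∃ N0 : ℕ, ∀ ξ : ℤ, lam ^ N0 ∣ (ξ : Eis) ^ 3 - (x : Eis) →
    sl (Lf X Y 1 ξ) (b : Eis) - sl (Lf X Y 2 ξ) (b : Eis) = sl w (b : Eis)

/-- LB: the local form of the antisymmetry at `lam` when `b` is a local cube and `x` is a local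
cube or in the class of `B`. -/
def LB : Prop :=
  (∀ B b x p q p' q' : ℤ, B ≠ 0 → b ≠ 0 → x ≠ 0 → Sol b x p q p' q' → LC lam b → LC lam x →
    TT none B b x p q p' q' + TT none B x b p (-p') (-q) q' = UV sl B b x p q p' q') ∧
  (∀ B b x p q p' q' : ℤ, B ≠ 0 → b ≠ 0 → x ≠ 0 → Sol b x p q p' q' → LC lam b →
    lv x = lv B → lw x = lw B → TT none B b x p q p' q' = UV sl B b x p q p' q')

/-- LVA: the local evaluation at `lam` when `b` is a local cube. -/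
def LVA : Prop := ∀ B b x p q p' q' X Y : ℤ, B ≠ 0 → b ≠ 0 → x ≠ 0 → Sol b x p q p' q' →
  LC lam b → PtL B x X Y →
    TT none B b x p q p' q' = UV sl B b x p q p' q' - SV sl x p q p' q' X Y

/-- LVB: the case where `x` is a local cube and `b` is in the class of `B`. -/
def LVB : Prop := ∀ B b x p q p' q' X Y : ℤ, B ≠ 0 → b ≠ 0 → x ≠ 0 → Sol b x p q p' q' →
  LC lam x → lv b = lv B → lw b = lw B → PtL B x X Y →
    SV sl x p q p' q' X Y = UV sl B b x p q p' q'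

/-- LVC: the case where `x` is a local cube and `v(B) = 1`. -/
def LVC : Prop := ∀ B b x p q p' q' X Y X' Y' : ℤ, B ≠ 0 → b ≠ 0 → x ≠ 0 → Sol b x p q p' q' →
  lv B = 1 → LC lam x → PtL B x X Y → PtL B b X' Y' →
    SV sl b p (-p') (-q) q' X' Y' = UV sl B b x p q p' q' - SV sl x p q p' q' X Y

/-- LN1: the numerical form of LE1. -/
def LN1 : Prop := ∀ b p q p' q' X Y F H M : ℤ, (3 : ℤ) ∣ b → ¬ (9 : ℤ) ∣ b →
  ¬ ((3 : ℤ) ∣ p ∧ (3 : ℤ) ∣ q) → ¬ ((3 : ℤ) ∣ p' ∧ (3 : ℤ) ∣ q') → ¬ ((3 : ℤ) ∣ X ∧ (3 : ℤ) ∣ Y) →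
  X ≠ 0 → Y ≠ 0 →
  F = p ^ 3 + b * q ^ 3 → H = p' ^ 3 + b * q' ^ 3 → M = H * X ^ 3 + F * Y ^ 3 →
  F ≠ 0 → H ≠ 0 → M ≠ 0 → p ^ 3 * q' ^ 3 - q ^ 3 * p' ^ 3 ≠ 0 →
  lv F + lv H + lv M = 1 → lw F + lw H + lw M = lw b → ¬ (lv F = lv H ∧ lw F = lw H) →
  sl ((X * q' : ℤ) + (q * Y : ℤ) * w)
      ((b * (p ^ 3 * q' ^ 3 - q ^ 3 * p' ^ 3) * F * H * b : ℤ) : Eis) -
    sl ((X * p' : ℤ) + (p * Y : ℤ) * w)
      ((b * (p ^ 3 * q' ^ 3 - q ^ 3 * p' ^ 3) * F * H * b ^ 2 : ℤ) : Eis) =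
  sl ((q * p' : ℤ) - (p * q' : ℤ) * w) (b : Eis) + lw b - lw F + lw H

/-- LE1: the case where `b` is in the class of `B`, `v(B) = 1`, and `x` is not a local cube. -/
def LE1 : Prop := ∀ B b x p q p' q' X Y : ℤ, B ≠ 0 → b ≠ 0 → x ≠ 0 → Sol b x p q p' q' →
  lv B = 1 → lv b = lv B → lw b = lw B → ¬ LC lam x → PtL B x X Y →
    SV sl x p q p' q' X Y = UV sl B b x p q p' q'

/-- LE3: the local term of a point in the class of `B`, `v(B) = 1`. -/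
def LE3 : Prop := ∀ B b x p q p' q' X Y : ℤ, B ≠ 0 → b ≠ 0 → x ≠ 0 → Sol b x p q p' q' →
  lv B = 1 → lv x = lv B → lw x = lw B → PtL B x X Y → SV sl x p q p' q' X Y = 0

/-- LPT: existence of local points. -/
def LPT : Prop := ∀ (b : ℤ) (β : ZMod 3), b ≠ 0 → ¬ (lv b = 0 ∧ lw b = 0) →
  ∃ X Y : ℤ, X ≠ 0 ∧ Y ≠ 0 ∧ X ^ 3 + b * Y ^ 3 ≠ 0 ∧
    lv (b * (X ^ 3 + b * Y ^ 3)) = 1 ∧ lw (b * (X ^ 3 + b * Y ^ 3)) = β

/-! ### The pairing -/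

open Classical in
/-- The pairing `O_B(b, η)` with the local term of the local point `(X, Y)` of class `b`. -/
noncomputable def OT (B b X Y x p q p' q' : ℤ) : ZMod 3 :=
  OO B b x p q p' q' + if LC lam b then 0 else SV sl b p (-p') (-q) q' X Y

/-- `(p + qT)/(p' + q'T)` is the product of two elements, `T^3 = b` -/
structure PRel (b p₁ q₁ p₁' q₁' p₂ q₂ p₂' q₂' p q p' q' : ℤ) : Prop where
  e0 : p₁ * p₂ * p' + b * (q₁ * q₂ * q') = p₁' * p₂' * p + b * (q₁' * q₂' * q)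
  e1 : (p₁ * q₂ + q₁ * p₂) * p' + p₁ * p₂ * q' = (p₁' * q₂' + q₁' * p₂') * p + p₁' * p₂' * q
  e2 : q₁ * q₂ * p' + (p₁ * q₂ + q₁ * p₂) * q' = q₁' * q₂' * p + (p₁' * q₂' + q₁' * p₂') * q

/-- SVAD: additivity of the local term at `lam`. -/
def SVAD : Prop := ∀ b x₁ x₂ p₁ q₁ p₁' q₁' p₂ q₂ p₂' q₂' p q p' q' X Y : ℤ, b ≠ 0 → x₁ ≠ 0 →
  x₂ ≠ 0 → Sol b x₁ p₁ q₁ p₁' q₁' → Sol b x₂ p₂ q₂ p₂' q₂' → Sol b (x₁ * x₂) p q p' q' →
  PRel b p₁ q₁ p₁' q₁' p₂ q₂ p₂' q₂' p q p' q' → X ≠ 0 → Y ≠ 0 → X ^ 3 + b * Y ^ 3 ≠ 0 →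
  SV sl b p (-p') (-q) q' X Y =
    SV sl b p₁ (-p₁') (-q₁) q₁' X Y + SV sl b p₂ (-p₂') (-q₂) q₂' X Y

/-- TADT: additivity of the pairing. -/
def TADT : Prop :=
  (∀ b x₁ x₂ p₁ q₁ p₁' q₁' p₂ q₂ p₂' q₂' : ℤ, (¬ ∃ c : ℤ, c ^ 3 = b) →
    (¬ ∃ c : ℤ, c ^ 3 = x₁ * x₂) → b ≠ 0 → x₁ ≠ 0 → x₂ ≠ 0 →
    Sol b x₁ p₁ q₁ p₁' q₁' → Sol b x₂ p₂ q₂ p₂' q₂' →
    ∃ p q p' q' : ℤ, Sol b (x₁ * x₂) p q p' q' ∧ ∀ B X Y : ℤ, BG B → AG B b → AG B x₁ →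
      AG B x₂ → (LC lam b ∨ (X = 1 ∧ Y = 0) ∨ (X ≠ 0 ∧ Y ≠ 0 ∧ X ^ 3 + b * Y ^ 3 ≠ 0)) →
      OT B b X Y (x₁ * x₂) p q p' q' =
        OT B b X Y x₁ p₁ q₁ p₁' q₁' + OT B b X Y x₂ p₂ q₂ p₂' q₂') ∧
  (∀ b x p q p' q' u : ℤ, b ≠ 0 → x ≠ 0 → u ≠ 0 → Sol b x p q p' q' →
    Sol b (u ^ 3 * x) (u * p) (u * q) p' q' ∧ ∀ B X Y : ℤ, BG B → AG B b → AG B x → AG B u →
      (LC lam b ∨ (X = 1 ∧ Y = 0) ∨ (X ≠ 0 ∧ Y ≠ 0 ∧ X ^ 3 + b * Y ^ 3 ≠ 0)) →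
      OT B b X Y (u ^ 3 * x) (u * p) (u * q) p' q' = OT B b X Y x p q p' q')

/-- TTHT: `O_B(b, b^(1/3)) = 0`. -/
def TTHT : Prop := ∀ B b : ℤ, BG B → AG B b → (LC lam b ∨ (lv b = lv B ∧ lw b = lw B)) →
  OO B b b 0 1 1 0 = 0

/-- TPT: the pairing vanishes on the class of a point. -/
def TPT : Prop := ∀ B b x p q p' q' X Y X₀ Y₀ : ℤ, BG B → AG B b → AG B x →
  Sol b x p q p' q' → Pt B x X₀ Y₀ →
  (LC lam b ∨
    (lv b = lv B ∧ lw b = lw B ∧ X = 1 ∧ Y = 0 ∧ (LC lam x ∨ lv B = 1)) ∨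
    (lv B = 1 ∧ ¬ LC lam b ∧ PtL B b X Y ∧ (LC lam x ∨ (lv x = lv B ∧ lw x = lw B)))) →
  OT B b X Y x p q p' q' = 0

/-- TALT: antisymmetry. -/
def TALT : Prop := ∀ B b x p q p' q' X Y X' Y' : ℤ, BG B → AG B b → AG B x →
  Sol b x p q p' q' →
  ((LC lam b ∧ (LC lam x ∨ (lv x = lv B ∧ lw x = lw B ∧ X' = 1 ∧ Y' = 0) ∨ PtL B x X' Y')) ∨
    (lv B = 1 ∧ lv b = lv B ∧ lw b = lw B ∧ X = 1 ∧ Y = 0 ∧ ¬ LC lam x ∧ PtL B x X' Y')) →
  OT B b X Y x p q p' q' + OT B x X' Y' b p (-p') (-q) q' = 0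

/-- The types of the classes at `lam`: `0` local cubes, `1` the class of `B`, `2` another class;
at most one class of type `1` and at most one of type `2`. -/
structure LamS {s : ℕ} (B : ℤ) (τ : Fin s → Fin 3) (b X Y : Fin s → ℤ) : Prop where
  t0 : ∀ i, τ i = 0 → LC lam (b i)
  t1 : ∀ i, τ i = 1 → ¬ LC lam (b i) ∧ lv (b i) = lv B ∧ lw (b i) = lw B ∧ X i = 1 ∧ Y i = 0
  t2 : ∀ i, τ i = 2 → ¬ LC lam (b i) ∧ lv B = 1 ∧ PtL B (b i) (X i) (Y i)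
  inj : ∀ i j, τ i = τ j → τ i ≠ 0 → i = j

/-- the skew form of a system -/
def SwS {s : ℕ} (p q p' q' : Fin s → Fin s → ℤ) : Prop :=
  ∀ j i, j ≠ i → p i j = p j i ∧ q i j = - p' j i ∧ p' i j = - q j i ∧ q' i j = q' j i

open Classical in
/-- the matrix of the pairing -/
noncomputable def MaT {s : ℕ} (b X Y : Fin s → ℤ) (p q p' q' : Fin s → Fin s → ℤ) (B : ℤ) :
    Matrix (Fin s) (Fin s) (ZMod 3) := fun j i =>
  if j = i then 0 else OT B (b j) (X j) (Y j) (b i) (p j i) (q j i) (p' j i) (q' j i)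

/-- TENT: the matrix is alternating and the class of a point is in its kernel. -/
def TENT : Prop := ∀ (s : ℕ) (τ : Fin s → Fin 3) (b X Y : Fin s → ℤ)
  (p q p' q' : Fin s → Fin s → ℤ) (B : ℤ),
  SysG b p q p' q' → SwS p q p' q' → BG B → (∀ i, AG B (b i)) → LamS B τ b X Y →
  (∀ i, b i ≠ 0) →
  (∀ i j, MaT b X Y p q p' q' B i j = - MaT b X Y p q p' q' B j i) ∧
  ∀ (c : Fin s → ℕ) (X₀ Y₀ : ℤ), (∃ i, ¬ 3 ∣ c i) → Pt B (∏ i, b i ^ c i) X₀ Y₀ →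
    ∀ j, ∑ i, MaT b X Y p q p' q' B j i * (c i : ZMod 3) = 0

/-! ### First descent -/

/-- FDKT -/
def FDKT : Prop := ∀ B x y z : ℤ, BT B → HypT B → IsCoprime x y → z ≠ 0 →
  x ^ 3 + y ^ 3 = B * z ^ 3 →
  ∃ (δ : Eis) (c d : ℤ), c ≠ 0 ∧ d ≠ 0 ∧ (∀ m : ℤ, (m : Eis) ∣ δ → IsUnit m) ∧
    (d : Eis) * ((x : Eis) + w * y) = c * w ^ 2 * δ ^ 3

/-- FDAT -/
def FDAT : Prop := ∀ (B x y z c d : ℤ) (δ : Eis), BT B → 3 ≤ |B| → IsCoprime x y → z ≠ 0 →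
  x ^ 3 + y ^ 3 = B * z ^ 3 → c ≠ 0 → d ≠ 0 → (∀ m : ℤ, (m : Eis) ∣ δ → IsUnit m) →
  (d : Eis) * ((x : Eis) + w * y) = c * w ^ 2 * δ ^ 3 →
  ∃ (A : Fin 3 → ℤ) (m : ℤ), (∀ k, A k ≠ 0) ∧ A 0 + A 1 + A 2 = 0 ∧
    A 0 * A 1 * A 2 = B * m ^ 3 ∧ (∀ i j, i ≠ j → IsCoprime (A i) (A j)) ∧ |m| < |z|

/-- FDCT -/
def FDCT : Prop := ∀ (B m : ℤ) (A : Fin 3 → ℤ), BT B → (∀ k, A k ≠ 0) → A 0 + A 1 + A 2 = 0 →
  A 0 * A 1 * A 2 = B * m ^ 3 → (∀ i j, i ≠ j → IsCoprime (A i) (A j)) →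
  ∃ a x : Fin 3 → ℤ, (∀ k, A k = a k * x k ^ 3) ∧ ∏ k, a k = B ∧
    (∀ i j, i ≠ j → IsCoprime (a i) (a j)) ∧ (∀ i j, i ≠ j → IsCoprime (x i) (x j))

/-- FD1T: the first descent. -/
def FD1T : Prop := ∀ B : ℤ, BT B → HypT B →
  (∃ X Y : ℚ, X ^ 3 + Y ^ 3 = (B : ℚ)) → ∃ a x : Fin 3 → ℤ, Cell B a x

/-- the number `3^h n q^E` -/
def BB (h n E q : ℕ) : ℤ := (3 : ℤ) ^ h * n * (q : ℤ) ^ E

/-- FD2T: the class of a point; the prime `q` can be put into the last cell. -/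
def FD2T : Prop := ∀ (h n E q : ℕ) (a x : Fin 3 → ℤ), (h = 1 ∨ h = 2) → (E = 1 ∨ E = 2) →
  q.Prime → q ≠ 3 → ¬ q ∣ n → 0 < n → BT (BB h n E q) → Cell (BB h n E q) a x →
  ∃ z X Y : ℤ, Pt (BB h n E q) z X Y ∧ AdT (BB h n E q) z ∧
    (∀ l : ℕ, l.Prime → (l : ℤ) ∣ z → l ∣ 3 * n) ∧ ¬ ∃ t : ℤ, t ^ 3 = z

/-! ### The norm theorem -/

/-- NMAT: the norm theorem for `L / Q(w)`, `y` arbitrary. -/
def NMAT : Prop := ∀ (x : ℤ) (L : Type) [Field L] [NumberField L] (ι : Eis →+* L) (θ : L)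
  (σ c : L ≃ₐ[ℚ] L), x ≠ 0 → ¬ (3 : ℤ) ∣ x → (∀ π : PP, V π.1 (x : Eis) ≤ 2) →
  (¬ ∃ c : ℤ, c ^ 3 = x) → CubF x L ι θ σ c →
  ∀ y : ℤ, y ≠ 0 → (∀ π : PP, tm π.1 (x : Eis) (y : Eis) = 0) →
    (∀ π : PP, π.1 ∣ (y : Eis) → ¬ LC π.1 x → π.1 ∣ (x : Eis)) →
    ∃ z : L, z ≠ 0 ∧ z * σ z * σ (σ z) = (y : L)

/-- HNT: Hasse norm theorem for pure cubic fields, `y` arbitrary. -/
def HNT : Prop := ∀ x y : ℤ, x ≠ 0 → ¬ (3 : ℤ) ∣ x → (¬ ∃ c : ℤ, c ^ 3 = x) →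
  (∀ π : PP, V π.1 (x : Eis) ≤ 2) → y ≠ 0 →
  (∀ π : PP, tm π.1 (x : Eis) (y : Eis) = 0) →
  ∃ p q p' q' : ℤ, SolW x y p q p' q'

/-! ### Choice of the class -/

/-- `q^E` is in the class `(w0, c)`. -/
def InCT {m : ℕ} (E : ℕ) (π : Fin m → PP) (w0 : ZMod 3) (c : Fin m → ZMod 3) (q : ℕ) : Prop :=
  wt (((q : ℤ) ^ E) ^ 2) = w0 ∧ ∀ i, (E : ZMod 3) * sym (π i).1 (q : Eis) = c i

/-- The matrix of the conditions; the first column belongs to the prime `3`, the first row to the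
condition at `lam` (`h = 2`). -/
noncomputable def Mt (h n : ℕ) {m : ℕ} (π : Fin m → PP) (p e : Fin m → ℕ) (w0 : ZMod 3)
    (c : Fin m → ZMod 3) : Matrix (Fin (m + 1)) (Fin (m + 1)) (ZMod 3) :=
  fun a b => Fin.cases
    (motive := fun _ => ZMod 3)
    (Fin.cases (motive := fun _ => ZMod 3) (if h = 2 then wt ((n : ℤ) ^ 2) + w0 else 1)
      (fun i' => if h = 2 then wt ((p i' : ℤ) ^ 2) else 0) b)
    (fun i => Fin.cases (motive := fun _ => ZMod 3)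
      ((e i : ZMod 3) * sym (π i).1 3)
      (fun i' => if i' = i then
          (e i : ZMod 3) * sym (π i).1 (conj (π i).1) -
            ch (π i).1 ((3 ^ h * n : ℕ) : Eis) - c i
        else (e i : ZMod 3) * sym (π i).1 (p i' : Eis)) b) a

/-- EDC: the number of the diagonals such that the matrix becomes invertible. -/
def EDC : Prop := ∀ (m : ℕ) (A : Matrix (Fin (m + 1)) (Fin (m + 1)) (ZMod 3)), A 0 0 ≠ 0 →
  2 ^ m ≤ Nat.card {d : Fin m → ZMod 3 //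
    (A - Matrix.diagonal (Fin.cons 0 d : Fin (m + 1) → ZMod 3)).det ≠ 0}

/-- EMAX: the number of the classes. -/
def EMAX : Prop := ∀ (h n m : ℕ) (π : Fin m → PP) (p e : Fin m → ℕ) (w0 : ZMod 3),
  (h = 2 → wt ((n : ℤ) ^ 2) + w0 ≠ 0) →
  2 ^ m ≤ Nat.card {c : Fin m → ZMod 3 // (Mt h n π p e w0 c).det ≠ 0}

/-- The rational classes that are admissible for `3^h n q^E`, `q^E` in the class `(w0, c)`. -/
structure AdC (h n : ℕ) {m : ℕ} (π : Fin m → PP) (w0 : ZMod 3) (c : Fin m → ZMod 3) (x : ℤ) :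
    Prop where
  ne : x ≠ 0
  supp : ∀ l : ℕ, l.Prime → (l : ℤ) ∣ x → l ∣ 3 * n
  sym : ∀ i, (V (π i).1 (n : Eis) : ZMod 3) * ch (π i).1 (x : Eis) -
    (V (π i).1 (x : Eis) : ZMod 3) * (ch (π i).1 ((3 ^ h * n : ℕ) : Eis) + c i) = 0
  wild : h = 2 → lw x + lv x * (wt ((n : ℤ) ^ 2) + w0) = 0

/-- `B` has the type `(h, w)` at `3` -/
def TyB (h n : ℕ) (w0 : ZMod 3) (B : ℤ) : Prop :=
  B ≠ 0 ∧ lv B = (h : ZMod 3) ∧ lw B = wt ((n : ℤ) ^ 2) + w0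

/-- EADT: `AdC` and `AdT`, `q = 2 (mod 3)`. -/
def EADT : Prop := ∀ (h n m k : ℕ) (π : Fin m → PP) (p e : Fin m → ℕ) (r f : Fin k → ℕ)
  (w0 : ZMod 3) (c : Fin m → ZMod 3) (E q : ℕ), NF n π p e r f → (h = 1 ∨ h = 2) →
  (E = 1 ∨ E = 2) → q.Prime → q % 3 = 2 → InCT E π w0 c q → ¬ q ∣ n →
  BT (BB h n E q) ∧ TyB h n w0 (BB h n E q) ∧
    ∀ x : ℤ, (∀ l : ℕ, l.Prime → (l : ℤ) ∣ x → l ∣ 3 * n) →
      (AdC h n π w0 c x ↔ AdT (BB h n E q) x)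

/-- EADU: `AdC` and `AdT`, `q = 1 (mod 3)`. -/
def EADU : Prop := ∀ (h n m k : ℕ) (π : Fin m → PP) (p e : Fin m → ℕ) (r f : Fin k → ℕ)
  (w0 : ZMod 3) (c : Fin m → ZMod 3) (E q : ℕ) (ρ : PP), NF n π p e r f → (h = 1 ∨ h = 2) →
  (E = 1 ∨ E = 2) → q.Prime → q % 3 = 1 → InCT E π w0 c q → ¬ q ∣ n →
  (q : Eis) = ρ.1 * conj ρ.1 →
  BT (BB h n E q) ∧ TyB h n w0 (BB h n E q) ∧
    ∀ x : ℤ, (∀ l : ℕ, l.Prime → (l : ℤ) ∣ x → l ∣ 3 * n) →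
      ((AdC h n π w0 c x ∧ sym ρ.1 (x : Eis) = 0) ↔ AdT (BB h n E q) x)

/-- HYPT: the minus part of the Selmer group is trivial, `q = 2 (mod 3)`. -/
def HYPT : Prop := ∀ (h n m k : ℕ) (π : Fin m → PP) (p e : Fin m → ℕ) (r f : Fin k → ℕ)
  (w0 : ZMod 3) (c : Fin m → ZMod 3) (E q : ℕ), NF n π p e r f → (h = 1 ∨ h = 2) →
  (E = 1 ∨ E = 2) → q.Prime → q % 3 = 2 → InCT E π w0 c q → ¬ q ∣ n →
  (Mt h n π p e w0 c).det ≠ 0 → HypT (BB h n E q)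

/-- HYPU: the minus part of the Selmer group is trivial, `q = 1 (mod 3)`. -/
def HYPU : Prop := ∀ (h n m k : ℕ) (π : Fin m → PP) (p e : Fin m → ℕ) (r f : Fin k → ℕ)
  (w0 : ZMod 3) (c : Fin m → ZMod 3) (E q : ℕ) (ρ : PP) (y : ℤ), NF n π p e r f →
  (h = 1 ∨ h = 2) → (E = 1 ∨ E = 2) → q.Prime → q % 3 = 1 → InCT E π w0 c q → ¬ q ∣ n →
  (q : Eis) = ρ.1 * conj ρ.1 → (Mt h n π p e w0 c).det ≠ 0 → AdC h n π w0 c y →
  sym ρ.1 (y : Eis) ≠ 0 → HypT (BB h n E q)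

/-- EVET: the admissible classes in terms of exponent vectors. -/
def EVET : Prop := ∀ (h n m k : ℕ) (π : Fin m → PP) (p e : Fin m → ℕ) (r f : Fin k → ℕ)
  (w0 : ZMod 3) (c : Fin m → ZMod 3), NF n π p e r f →
  (∀ x : ℤ, x ≠ 0 → (∀ l : ℕ, l.Prime → (l : ℤ) ∣ x → l ∣ 3 * n) →
    (AdC h n π w0 c x ↔
      (∀ i, (e i : ZMod 3) * (lv x * sym (π i).1 3) +
        (e i : ZMod 3) * (∑ i', (padicValInt (p i') x : ZMod 3) *
          (if i' = i then sym (π i).1 (conj (π i).1) else sym (π i).1 (p i' : Eis))) +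
        (e i : ZMod 3) * (∑ j, (padicValInt (r j) x : ZMod 3) * sym (π i).1 (r j : Eis)) -
        (padicValInt (p i) x : ZMod 3) * (ch (π i).1 ((3 ^ h * n : ℕ) : Eis) + c i) = 0) ∧
      (h = 2 → (∑ i, (padicValInt (p i) x : ZMod 3) * wt ((p i : ℤ) ^ 2)) +
        (∑ j, (padicValInt (r j) x : ZMod 3) * wt ((r j : ℤ) ^ 2)) +
        lv x * (wt ((n : ℤ) ^ 2) + w0) = 0)) ∧
    lw x = (∑ i, (padicValInt (p i) x : ZMod 3) * wt ((p i : ℤ) ^ 2)) +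
        ∑ j, (padicValInt (r j) x : ZMod 3) * wt ((r j : ℤ) ^ 2)) ∧
  ∀ x x' : ℤ, x ≠ 0 → x' ≠ 0 → (∀ l : ℕ, l.Prime → (l : ℤ) ∣ x → l ∣ 3 * n) →
    (∀ l : ℕ, l.Prime → (l : ℤ) ∣ x' → l ∣ 3 * n) →
    ((∃ u v : ℤ, u ≠ 0 ∧ v ≠ 0 ∧ x * u ^ 3 = x' * v ^ 3) ↔
      lv x = lv x' ∧ (∀ i, (padicValInt (p i) x : ZMod 3) = padicValInt (p i) x') ∧
      ∀ j, (padicValInt (r j) x : ZMod 3) = padicValInt (r j) x')

/-- EBAT: basis of the admissible classes. -/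
def EBAT : Prop := ∀ (h n m k : ℕ) (π : Fin m → PP) (p e : Fin m → ℕ) (r f : Fin k → ℕ)
  (w0 : ZMod 3) (c : Fin m → ZMod 3), NF n π p e r f → (h = 1 ∨ h = 2) →
  (Mt h n π p e w0 c).det ≠ 0 →
  ∃ (s : ℕ) (τ : Fin s → Fin 3) (b X Y : Fin s → ℤ), s + h = k + 2 ∧
    (∀ i, AdC h n π w0 c (b i)) ∧ (∀ i (π : PP), V π.1 (b i : Eis) ≤ 2) ∧
    (∀ g : Fin s → ℕ, (∃ i, ¬ 3 ∣ g i) → ¬ ∃ t : ℤ, t ^ 3 = ∏ i, b i ^ g i) ∧
    (∀ i j, i ≠ j → ¬ (3 : ℤ) ∣ b i ∨ ¬ (3 : ℤ) ∣ b j) ∧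
    (∀ B : ℤ, TyB h n w0 B → LamS B τ b X Y) ∧
    (∀ x : ℤ, AdC h n π w0 c x → ∃ (g : Fin s → ℕ) (u v : ℤ), u ≠ 0 ∧ v ≠ 0 ∧
      x * u ^ 3 = (∏ i, b i ^ g i) * v ^ 3)

/-- EHPT: bases adapted to a hyperplane. -/
def EHPT : Prop := ∀ (h n m k : ℕ) (π : Fin m → PP) (p e : Fin m → ℕ) (r f : Fin k → ℕ)
  (w0 : ZMod 3) (c : Fin m → ZMod 3), NF n π p e r f → (h = 1 ∨ h = 2) →
  (Mt h n π p e w0 c).det ≠ 0 →
  ∃ (d : ℕ) (v : Fin d → ℤ), d + h = k + 2 ∧ (∀ i, AdC h n π w0 c (v i)) ∧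
    ∀ δ : Fin d → ZMod 3, δ ≠ 0 → ∃ (s : ℕ) (τ : Fin s → Fin 3) (b : Fin (s + 1) → ℤ)
      (X Y : Fin s → ℤ), s + 1 = d ∧
      (∀ i, AdC h n π w0 c (b i)) ∧ (∀ i (π : PP), V π.1 (b i : Eis) ≤ 2) ∧
      (∀ g : Fin (s + 1) → ℕ, (∃ i, ¬ 3 ∣ g i) → ¬ ∃ t : ℤ, t ^ 3 = ∏ i, b i ^ g i) ∧
      (∀ i j, i ≠ j → ¬ (3 : ℤ) ∣ b i ∨ ¬ (3 : ℤ) ∣ b j) ∧
      (∀ B : ℤ, TyB h n w0 B → LamS B τ (rv b) X Y) ∧
      ∀ ρ : PP, ¬ ρ.1 ∣ (n : Eis) → (∀ i : Fin s, sym ρ.1 (b i.castSucc : Eis) = 0) →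
        sym ρ.1 (b (Fin.last s) : Eis) ≠ 0 →
        (∃ ε : ZMod 3, ε ≠ 0 ∧ ∀ i, sym ρ.1 (v i : Eis) = ε * δ i) ∧
        ∀ x : ℤ, AdC h n π w0 c x → sym ρ.1 (x : Eis) = 0 → ∃ (g : Fin s → ℕ) (u t : ℤ),
          u ≠ 0 ∧ t ≠ 0 ∧ x * u ^ 3 = (∏ i, b i.castSucc ^ g i) * t ^ 3

/-- ESYT: from a basis to a system with solutions. -/
def ESYT : Prop := ∀ (h n m k : ℕ) (π : Fin m → PP) (p e : Fin m → ℕ) (r f : Fin k → ℕ)
  (w0 : ZMod 3) (c : Fin m → ZMod 3) (s : ℕ) (b : Fin s → ℤ), NF n π p e r f →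
  (∀ i, AdC h n π w0 c (b i)) → (∀ i (π : PP), V π.1 (b i : Eis) ≤ 2) →
  (∀ g : Fin s → ℕ, (∃ i, ¬ 3 ∣ g i) → ¬ ∃ t : ℤ, t ^ 3 = ∏ i, b i ^ g i) →
  (∀ i j, i ≠ j → ¬ (3 : ℤ) ∣ b i ∨ ¬ (3 : ℤ) ∣ b j) →
  ∃ P Q P' Q' : Fin s → Fin s → ℤ, SysG b P Q P' Q' ∧ SwS P Q P' Q'

/-- ECLT: the system for a class, `q = 2 (mod 3)`. -/
def ECLT : Prop := ∀ (h n m k : ℕ) (π : Fin m → PP) (p e : Fin m → ℕ) (r f : Fin k → ℕ)
  (w0 : ZMod 3) (c : Fin m → ZMod 3),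
  NF n π p e r f → (h = 1 ∨ h = 2) → Even (h + k) → (Mt h n π p e w0 c).det ≠ 0 →
  ∃ (s : ℕ) (b X Y : Fin s → ℤ) (P Q P' Q' : Fin s → Fin s → ℤ), Even s ∧ SysG b P Q P' Q' ∧
    (∀ i, b i ≠ 0) ∧
    ∀ E q : ℕ, (E = 1 ∨ E = 2) → q.Prime → q % 3 = 2 → InCT E π w0 c q → ¬ q ∣ n →
      BT (BB h n E q) ∧ (∀ i, AdT (BB h n E q) (b i)) ∧
      (∀ i j, MaT b X Y P Q P' Q' (BB h n E q) i j = - MaT b X Y P Q P' Q' (BB h n E q) j i) ∧
      ((∃ X Y : ℚ, X ^ 3 + Y ^ 3 = (BB h n E q : ℚ)) →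
        (MaT b X Y P Q P' Q' (BB h n E q)).det = 0)

/-- ECLU: the systems for a class, `q = 1 (mod 3)`. -/
def ECLU : Prop := ∀ (h n m k : ℕ) (π : Fin m → PP) (p e : Fin m → ℕ) (r f : Fin k → ℕ)
  (w0 : ZMod 3) (c : Fin m → ZMod 3),
  NF n π p e r f → (h = 1 ∨ h = 2) → Odd (h + k) → (Mt h n π p e w0 c).det ≠ 0 →
  ∃ (d : ℕ) (v : Fin d → ℤ), Odd d ∧
    (∀ i, v i ≠ 0 ∧ ∀ l : ℕ, l.Prime → (l : ℤ) ∣ v i → l ∣ 3 * n) ∧
    ∀ δ : Fin d → ZMod 3, δ ≠ 0 → ∃ (s : ℕ) (b : Fin (s + 1) → ℤ) (X Y : Fin s → ℤ)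
      (P Q P' Q' : Fin (s + 1) → Fin (s + 1) → ℤ), s + 1 = d ∧ SysG b P Q P' Q' ∧
      (∀ i, b i ≠ 0) ∧
      (∀ ρ : PP, ¬ ρ.1 ∣ (n : Eis) → (∀ i : Fin s, sym ρ.1 (b i.castSucc : Eis) = 0) →
        sym ρ.1 (b (Fin.last s) : Eis) ≠ 0 →
        ∃ ε : ZMod 3, ε ≠ 0 ∧ ∀ i, sym ρ.1 (v i : Eis) = ε * δ i) ∧
      ∀ (E q : ℕ) (ρ : PP), (E = 1 ∨ E = 2) → q.Prime → q % 3 = 1 → InCT E π w0 c q →
        ¬ q ∣ n → (q : Eis) = ρ.1 * conj ρ.1 →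
        (∀ i : Fin s, sym ρ.1 (b i.castSucc : Eis) = 0) →
        sym ρ.1 (b (Fin.last s) : Eis) ≠ 0 →
        BT (BB h n E q) ∧ (∀ i : Fin s, AdT (BB h n E q) (b i.castSucc)) ∧
        (∀ i j, MaT (rv b) X Y (rs P) (rs Q) (rs P') (rs Q') (BB h n E q) i j =
          - MaT (rv b) X Y (rs P) (rs Q) (rs P') (rs Q') (BB h n E q) j i) ∧
        ((∃ X Y : ℚ, X ^ 3 + Y ^ 3 = (BB h n E q : ℚ)) →
          (MaT (rv b) X Y (rs P) (rs Q) (rs P') (rs Q') (BB h n E q)).det = 0)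

/-! ### Dependence of the pairing on the prime -/

/-- DCOT: the pairing `O_{NQ^E}(b, η)` as a function of the prime `Q = 2 (mod 3)` and of `E`. -/
def DCOT : Prop := ∀ (N : ℕ) (b X Y x p q p' q' : ℤ), 0 < N → Sol b x p q p' q' → b ≠ 0 →
  x ≠ 0 → ∃ f₀ : ℕ, 0 < f₀ ∧ ∀ f : ℕ, 0 < f → f₀ ∣ f →
  ∃ (C : ZMod 3) (Φ : (ZMod f)ˣ →* Multiplicative (ZMod 3)),
    ∀ (E Q : ℕ) (hQ : Q.Coprime f), Q.Prime → Q % 3 = 2 → AG ((N : ℤ) * (Q : ℤ) ^ E) x →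
      ∀ r : ℤ, (Q : ℤ) ∣ r ^ 3 - b → OT ((N : ℤ) * (Q : ℤ) ^ E) b X Y x p q p' q' =
        C + E * ((Φ (ZMod.unitOfCoprime Q hQ)).toAdd - TAUV Q p q p' q' r)

/-- DCOU: the pairing `O_{NQ^E}(b, η)` as a function of the prime `Q = 1 (mod 3)` and of `E`. -/
def DCOU : Prop := ∀ (N : ℕ) (b X Y x p q p' q' : ℤ), 0 < N → Sol b x p q p' q' → b ≠ 0 →
  x ≠ 0 → ∃ f₀ : ℕ, 0 < f₀ ∧ ∀ f : ℕ, 0 < f → f₀ ∣ f →
  ∃ (C : ZMod 3) (Φ : (ZMod f)ˣ →* Multiplicative (ZMod 3)) (N₀ : ℕ),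
    ∀ (E Q : ℕ) (hQ : Q.Coprime f) (ρ : PP), (E = 1 ∨ E = 2) → Q.Prime → N₀ < Q → Q % 3 = 1 →
      (Q : Eis) = ρ.1 * conj ρ.1 → AG ((N : ℤ) * (Q : ℤ) ^ E) b → AG ((N : ℤ) * (Q : ℤ) ^ E) x →
      ∀ r : ℤ, (Q : ℤ) ∣ r ^ 3 - b → OT ((N : ℤ) * (Q : ℤ) ^ E) b X Y x p q p' q' =
        C + E * ((Φ (ZMod.unitOfCoprime Q hQ)).toAdd + TAUVS ρ.1 p q p' q' r)

/-! ### The governing field for `Q = 2 (mod 3)` -/

/-- GTG -/
def GTG : Prop := ∀ (s : ℕ) (b : Fin s → ℤ) (p q p' q' : Fin s → Fin s → ℤ) (f : ℕ)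
  (L : Type) [Field L] [NumberField L] (ζ ω : L), SysG b p q p' q' →
  GovF b p q p' q' f L ζ ω →
  ∀ j i, j ≠ i →
  (∀ g : L ≃ₐ[ℚ] L, g ω = ω ^ 2 → ∃! t : ZMod 3, IsT b p q p' q' ω g j i t) ∧
  (∀ (g τ : L ≃ₐ[ℚ] L) (t : ZMod 3), g ω = ω ^ 2 → IsT b p q p' q' ω g j i t →
    IsT b p q p' q' ω (τ * g * τ⁻¹) j i t) ∧
  (∀ (g : L ≃ₐ[ℚ] L) (t : ZMod 3) (k : ℕ), g ω = ω ^ 2 → Odd k → IsT b p q p' q' ω g j i t →
    IsT b p q p' q' ω (g ^ k) j i (k * t))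

/-- GFRG -/
def GFRG : Prop := ∀ (s : ℕ) (b : Fin s → ℤ) (p q p' q' : Fin s → Fin s → ℤ) (f : ℕ)
  (L : Type) [Field L] [NumberField L] (ζ ω : L), SysG b p q p' q' →
  GovF b p q p' q' f L ζ ω →
  ∃ N₀ : ℕ, ∀ Q : ℕ, Q.Prime → N₀ < Q → ∀ (P : Ideal (𝓞 L)), P.IsPrime → (Q : 𝓞 L) ∈ P →
    (∀ g : L ≃ₐ[ℚ] L, MulAction.stabilizer (L ≃ₐ[ℚ] L) P = Subgroup.zpowers g →
      ∃ k : ℕ, k.Coprime (orderOf g) ∧ IsArithFrobAt ℤ (g ^ k) P) ∧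
    ∀ φ : L ≃ₐ[ℚ] L, IsArithFrobAt ℤ φ P → Q % 3 = 2 → φ ω = ω ^ 2 ∧
      ∀ j i, j ≠ i → ∀ (r : ℤ) (t : ZMod 3), (Q : ℤ) ∣ r ^ 3 - b j →
        IsT b p q p' q' ω φ j i t → t = TAUV Q (p j i) (q j i) (p' j i) (q' j i) r

/-- GALG: summary of the governing field. -/
def GALG : Prop := ∀ (s : ℕ) (b : Fin s → ℤ) (p q p' q' : Fin s → Fin s → ℤ) (f : ℕ),
  SysG b p q p' q' → 0 < f → 9 ∣ f →
  ∃ (L : Type) (_ : Field L) (_ : NumberField L) (_ : IsGalois ℚ L)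
    (χ : (L ≃ₐ[ℚ] L) →* (ZMod f)ˣ) (t : (L ≃ₐ[ℚ] L) → Fin s → Fin s → ZMod 3) (N₀ : ℕ),
    Function.Surjective χ ∧
    (∀ g τ : L ≃ₐ[ℚ] L, M2 (χ g) → ∀ j i, j ≠ i → t (τ * g * τ⁻¹) j i = t g j i) ∧
    (∀ (g : L ≃ₐ[ℚ] L) (k : ℕ), M2 (χ g) → Odd k → ∀ j i, j ≠ i → t (g ^ k) j i = k * t g j i) ∧
    (∀ (a : (ZMod f)ˣ) (v v' : Fin s → Fin s → ZMod 3), M2 a →
      Nat.card {g : L ≃ₐ[ℚ] L // χ g = a ∧ ∀ j i, j < i → t g j i = v j i} =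
        Nat.card {g : L ≃ₐ[ℚ] L // χ g = a ∧ ∀ j i, j < i → t g j i = v' j i}) ∧
    ∀ (Q : ℕ) (hQ : Q.Coprime f), Q.Prime → N₀ < Q → ∀ (P : Ideal (𝓞 L)) (g : L ≃ₐ[ℚ] L),
      P.IsPrime → (Q : 𝓞 L) ∈ P →
      MulAction.stabilizer (L ≃ₐ[ℚ] L) P = Subgroup.zpowers g →
      ∃ k : ℕ, k.Coprime (orderOf g) ∧ χ (g ^ k) = ZMod.unitOfCoprime Q hQ ∧
        (Q % 3 = 2 → ∀ j i, j ≠ i → ∀ r : ℤ, (Q : ℤ) ∣ r ^ 3 - b j →
          t (g ^ k) j i = TAUV Q (p j i) (q j i) (p' j i) (q' j i) r)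

/-- DENG: the density of the primes with nonsingular matrix. -/
def DENG : Prop := ∀ (s : ℕ) (b : Fin s → ℤ) (p q p' q' : Fin s → Fin s → ℤ) (f m : ℕ)
  (κ : (ZMod f)ˣ →* Multiplicative (Fin (m + 1) → ZMod 3)) (c : Fin (m + 1) → ZMod 3)
  (C : Fin s → Fin s → ZMod 3) (Φ : (ZMod f)ˣ →* Multiplicative (Fin s → Fin s → ZMod 3)),
  SysG b p q p' q' → Even s → 0 < f → 9 ∣ f →
  (∀ c : Fin (m + 1) → ZMod 3,
    Nat.card {a : (ZMod f)ˣ // M2 a ∧ (κ a).toAdd = c} * (2 * 3 ^ (m + 1)) = f.totient) →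
  RI.DensityGE {Q : ℕ | ∃ hQ : Q.Coprime f, Q % 3 = 2 ∧
    (κ (ZMod.unitOfCoprime Q hQ)).toAdd = c ∧
    ∀ τ : Fin s → Fin s → ZMod 3,
      (∀ j i, j ≠ i → ∀ r : ℤ, (Q : ℤ) ∣ r ^ 3 - b j →
        τ j i = TAUV Q (p j i) (q j i) (p' j i) (q' j i) r) →
      (alt (C + (Φ (ZMod.unitOfCoprime Q hQ)).toAdd - τ)).det ≠ 0}
    (1 / (24 * 3 ^ m))

/-! ### `n` prime to `3`, all classes -/

/-- HYP0: the minus part of the Selmer group of `n q` is trivial, `q = 2 (mod 3)`. -/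
def HYP0 : Prop := ∀ (n m k : ℕ) (π : Fin m → PP) (p e : Fin m → ℕ) (r f : Fin k → ℕ)
  (w0 : ZMod 3) (c : Fin m → ZMod 3) (q : ℕ), NF n π p e r f → q.Prime →
  InCl π w0 c q → ¬ q ∣ n → wt ((n : ℤ) ^ 2) + w0 ≠ 0 → (Mp n π p e r none c).det ≠ 0 →
  HypM ((n : ℤ) * q)

/-- EMA0: the number of the classes. -/
def EMA0 : Prop := ∀ (n m k : ℕ) (π : Fin m → PP) (p e : Fin m → ℕ) (r : Fin k → ℕ),
  2 ^ m ≤ Nat.card {c : Fin m → ZMod 3 // (Mp n π p e r none c).det ≠ 0}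

/-- ECL0: the system for a class, `k` even. -/
def ECL0 : Prop := ∀ (n m k : ℕ) (π : Fin m → PP) (p e : Fin m → ℕ) (r f : Fin k → ℕ)
  (w0 : ZMod 3) (c : Fin m → ZMod 3),
  NF n π p e r f → Even k → wt ((n : ℤ) ^ 2) + w0 ≠ 0 → (Mp n π p e r none c).det ≠ 0 →
  ∃ (s : ℕ) (b : Fin s → ℤ) (P Q P' Q' : Fin s → Fin s → ℤ),
    Even s ∧ (∀ i, AdmC n π w0 c (b i)) ∧ Sys b P Q P' Q' ∧
    ∀ q : ℕ, q.Prime → InCl π w0 c q → ¬ q ∣ n → 3 < q →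
      (∀ i, Adm ((n : ℤ) * q) (b i)) ∧ BOk ((n : ℤ) * q) ∧
      ((∃ X Y : ℚ, X ^ 3 + Y ^ 3 = (n : ℚ) * q) → (Mat b P Q P' Q' ((n : ℤ) * q)).det = 0)

/-- ECS0: the systems for a class, `k` odd. -/
def ECS0 : Prop := ∀ (n m k : ℕ) (π : Fin m → PP) (p e : Fin m → ℕ) (r f : Fin k → ℕ)
  (w0 : ZMod 3) (c : Fin m → ZMod 3),
  NF n π p e r f → Odd k → wt ((n : ℤ) ^ 2) + w0 ≠ 0 → (Mp n π p e r none c).det ≠ 0 →
  ∃ v : Fin k → ℤ,
    (∀ i, v i ≠ 0 ∧ ∀ l : ℕ, l.Prime → (l : ℤ) ∣ v i → l ∣ n) ∧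
    ∀ δ : Fin k → ZMod 3, δ ≠ 0 → ∃ (s : ℕ) (b : Fin (s + 1) → ℤ)
      (P Q P' Q' : Fin (s + 1) → Fin (s + 1) → ℤ), s + 1 = k ∧ SysG b P Q P' Q' ∧
      (∀ i, b i ≠ 0) ∧
      (∀ ρ : PP, ¬ ρ.1 ∣ (n : Eis) → (∀ i : Fin s, sym ρ.1 (b i.castSucc : Eis) = 0) →
        sym ρ.1 (b (Fin.last s) : Eis) ≠ 0 →
        ∃ ε : ZMod 3, ε ≠ 0 ∧ ∀ i, sym ρ.1 (v i : Eis) = ε * δ i) ∧
      ∀ (q : ℕ) (ρ : PP), q.Prime → InClS π w0 c q → ¬ q ∣ n → 3 < q →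
        (q : Eis) = ρ.1 * conj ρ.1 → (∀ i : Fin s, sym ρ.1 (b i.castSucc : Eis) = 0) →
        sym ρ.1 (b (Fin.last s) : Eis) ≠ 0 →
        BOk ((n : ℤ) * q) ∧ (∀ i : Fin s, Adm ((n : ℤ) * q) (b i.castSucc)) ∧
        (∀ i j, Mat (rv b) (rs P) (rs Q) (rs P') (rs Q') ((n : ℤ) * q) i j =
          - Mat (rv b) (rs P) (rs Q) (rs P') (rs Q') ((n : ℤ) * q) j i) ∧
        ((∃ X Y : ℚ, X ^ 3 + Y ^ 3 = (n : ℚ) * q) →
          (Mat (rv b) (rs P) (rs Q) (rs P') (rs Q') ((n : ℤ) * q)).det = 0)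

/-! ### The theorems -/

/-- FCL0: one class, `3` does not divide `n`, `k` even. -/
def FCL0 : Prop := ∀ (n m k : ℕ) (π : Fin m → PP) (p e : Fin m → ℕ) (r f : Fin k → ℕ)
  (w0 : ZMod 3) (c : Fin m → ZMod 3),
  NF n π p e r f → Even k → wt ((n : ℤ) ^ 2) + w0 ≠ 0 → (Mp n π p e r none c).det ≠ 0 →
  RI.DensityGE {q : ℕ | InCl π w0 c q ∧ ¬ ∃ X Y : ℚ, X ^ 3 + Y ^ 3 = (n : ℚ) * q}
    (1 / (24 * 3 ^ m))

/-- FCS0: one class, `3` does not divide `n`, `k` odd. -/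
def FCS0 : Prop := ∀ (n m k : ℕ) (π : Fin m → PP) (p e : Fin m → ℕ) (r f : Fin k → ℕ)
  (w0 : ZMod 3) (c : Fin m → ZMod 3),
  NF n π p e r f → Odd k → (w0 ≠ 0 ∨ c ≠ 0) → wt ((n : ℤ) ^ 2) + w0 ≠ 0 →
  (Mp n π p e r none c).det ≠ 0 →
  RI.DensityGE {q : ℕ | InClS π w0 c q ∧ ¬ ∃ X Y : ℚ, X ^ 3 + Y ^ 3 = (n : ℚ) * q}
    (1 / (30 * 3 ^ m))

/-- FCLT: one class, `3^h n`, `h + k` even. -/
def FCLT : Prop := ∀ (h n m k : ℕ) (π : Fin m → PP) (p e : Fin m → ℕ) (r f : Fin k → ℕ)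
  (w0 : ZMod 3) (c : Fin m → ZMod 3),
  NF n π p e r f → (h = 1 ∨ h = 2) → Even (h + k) → (Mt h n π p e w0 c).det ≠ 0 →
  RI.DensityGE {q : ℕ | InCl π w0 c q ∧
    ¬ ∃ X Y : ℚ, X ^ 3 + Y ^ 3 = ((3 ^ h * n : ℕ) : ℚ) * q} (1 / (24 * 3 ^ m))

/-- FCLU: one class, `3^h n`, `h + k` odd. -/
def FCLU : Prop := ∀ (h n m k : ℕ) (π : Fin m → PP) (p e : Fin m → ℕ) (r f : Fin k → ℕ)
  (w0 : ZMod 3) (c : Fin m → ZMod 3),
  NF n π p e r f → (h = 1 ∨ h = 2) → Odd (h + k) → (w0 ≠ 0 ∨ c ≠ 0) →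
  (Mt h n π p e w0 c).det ≠ 0 →
  RI.DensityGE {q : ℕ | InClS π w0 c q ∧
    ¬ ∃ X Y : ℚ, X ^ 3 + Y ^ 3 = ((3 ^ h * n : ℕ) : ℚ) * q} (1 / (30 * 3 ^ m))

/-- DADD: sum of the densities of disjoint sets. -/
def DADD : Prop := ∀ (ι : Type) [Fintype ι] (S : ι → Set ℕ) (T : Set ℕ) (d : ℝ), 0 ≤ d →
  (∀ i, RI.DensityGE (S i) d) → (∀ i, S i ⊆ T) → (∀ i j, i ≠ j → Disjoint (S i) (S j)) →
  ∀ N : ℕ, N ≤ Fintype.card ι → RI.DensityGE T (N * d)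

/-- FIN0: `n` prime to `3`. -/
def FIN0 : Prop := ∀ (n m k : ℕ) (π : Fin m → PP) (p e : Fin m → ℕ) (r f : Fin k → ℕ),
  NF n π p e r f →
  (Even k → RI.DensityGE {q : ℕ | ¬ ∃ X Y : ℚ, X ^ 3 + Y ^ 3 = (n : ℚ) * q}
    (2 ^ m / (12 * 3 ^ m))) ∧
  RI.DensityGE {q : ℕ | ¬ ∃ X Y : ℚ, X ^ 3 + Y ^ 3 = (n : ℚ) * q} (2 ^ m / (30 * 3 ^ m))

/-- FIN3: `3^h n`. -/
def FIN3 : Prop := ∀ (h n m k : ℕ) (π : Fin m → PP) (p e : Fin m → ℕ) (r f : Fin k → ℕ),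
  NF n π p e r f → (h = 1 ∨ h = 2) →
  (Even (h + k) →
    RI.DensityGE {q : ℕ | ¬ ∃ X Y : ℚ, X ^ 3 + Y ^ 3 = ((3 ^ h * n : ℕ) : ℚ) * q}
      (2 ^ m / (12 * 3 ^ m))) ∧
  RI.DensityGE {q : ℕ | ¬ ∃ X Y : ℚ, X ^ 3 + Y ^ 3 = ((3 ^ h * n : ℕ) : ℚ) * q}
    (2 ^ m / (30 * 3 ^ m))

/-- MAIN3: the theorem for all `n`. -/
def MAIN3 : Prop := ∀ n : ℕ, 0 < n →
  (∃ C : ℝ, ∀ s : ℝ, 1 < s → s ≤ 2 →
    (2 / 3) ^ Nat.card {p : ℕ // p.Prime ∧ p % 3 = 1 ∧ ¬ 3 ∣ n.factorization p} / 30 *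
      Real.log (1 / (s - 1)) - C ≤
    ∑' q : {q : ℕ // q.Prime ∧ ¬ ∃ X Y : ℚ, X ^ 3 + Y ^ 3 = (n : ℚ) * q}, (q : ℝ) ^ (-s)) ∧
  (Even (n.factorization 3 % 3 +
      Nat.card {p : ℕ // p.Prime ∧ p % 3 = 2 ∧ ¬ 3 ∣ n.factorization p}) →
    ∃ C : ℝ, ∀ s : ℝ, 1 < s → s ≤ 2 →
    (2 / 3) ^ Nat.card {p : ℕ // p.Prime ∧ p % 3 = 1 ∧ ¬ 3 ∣ n.factorization p} / 12 *
      Real.log (1 / (s - 1)) - C ≤
    ∑' q : {q : ℕ // q.Prime ∧ ¬ ∃ X Y : ℚ, X ^ 3 + Y ^ 3 = (n : ℚ) * q}, (q : ℝ) ^ (-s))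

end Pool.Agent.PT3


end

section

/-!
# PT3, module TALT (helper68): antisymmetry of the pairing
-/

namespace Pool.Agent.PT3

open Pool.Agent.Lib_helper18 Pool.Agent.Lib_helper18.Eis Pool.Agent.Lib_helper84.Cub
open Pool.Agent.PT Pool.Agent.PTE

namespace TALT

theorem sol_swap {b x p q p' q' : ℤ} (h : Sol b x p q p' q') : Sol x b p (-p') (-q) q' where
  eq := by linear_combination h.eq
  n1 := by
    intro h0
    apply h.n2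
    linear_combination h0
  n2 := by
    intro h0
    apply h.n1
    linear_combination h0

theorem SV_one_zero (s : Eis → Eis → ZMod 3) (x p q p' q' : ℤ) : SV s x p q p' q' 1 0 = 0 := by
  have h : ∀ (u v : ℤ) (i : ℕ), Df 1 0 u v i = (u : Eis) := by
    intro u v i
    unfold Df
    simp
  unfold SV
  simp only [h]
  ring

theorem TT_none {B b x p q p' q' : ℤ} (h : ¬ LC lam b) : TT none B b x p q p' q' = 0 := by
  unfold TT
  exact if_neg h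

/-- The sum of the two pairings is the contribution of `lam`. -/
theorem key (hLFIG : LFIG) (hLFIN : LFIN) (hLAMG : LAMG) {B b x p q p' q' : ℤ} (hB : BG B)
    (hb : AG B b) (hx : AG B x) (hS : Sol b x p q p' q') :
    OO B b x p q p' q' + OO B x b p (-p') (-q) q' =
      TT none B b x p q p' q' + TT none B x b p (-p') (-q) q' - UV sl B b x p q p' q' := by
  have f1 := hLFIG B b x p q p' q' hB hb hx hS.toSolW
  have f2 := hLFIG B x b p (-p') (-q) q' hB hx hb (sol_swap hS).toSolW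
  obtain ⟨f3, e3⟩ := hLFIN.2.1 B b x p q p' q' hB.ne hb.ne hx.ne hS
  have hd : ∀ v : Pl, v ≠ none → TT v B b x p q p' q' + TT v B x b p (-p') (-q) q' -
      UV (sy v) B b x p q p' q' = 0 := by
    intro v hv
    cases v with
    | none => exact absurd rfl hv
    | some π =>
      rw [hLAMG π B b x p q p' q' hB hb hx hS]
      exact sub_self _
  have f4 : (Function.support fun v : Pl => TT v B b x p q p' q' +
      TT v B x b p (-p') (-q) q' - UV (sy v) B b x p q p' q').Finite := by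
    apply (Set.finite_singleton (none : Pl)).subset
    intro v hv
    by_contra h0
    exact hv (hd v h0)
  have h1 : ∑ᶠ v : Pl, (TT v B b x p q p' q' + TT v B x b p (-p') (-q) q') =
      ∑ᶠ v : Pl, (TT v B b x p q p' q' + TT v B x b p (-p') (-q) q' -
        UV (sy v) B b x p q p' q') + ∑ᶠ v : Pl, UV (sy v) B b x p q p' q' := by
    rw [← finsum_add_distrib f4 f3]
    apply finsum_congr
    intro v
    ring
  have h2 : ∑ᶠ v : Pl, (TT v B b x p q p' q' + TT v B x b p (-p') (-q) q' -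
        UV (sy v) B b x p q p' q') = TT none B b x p q p' q' +
        TT none B x b p (-p') (-q) q' - UV sl B b x p q p' q' :=
    finsum_eq_single _ none hd
  unfold OO
  rw [← finsum_add_distrib f1 f2, h1, e3, add_zero, h2]

end TALT

theorem TALT_thm (hSTM : STM) (hSPP : SPP) (hSSL : SSL) (hSLC : SLC) (hSCJ : SCJ) (hLCI : LCI)
    (hAVV : AVV) (hLFIG : LFIG) (hLFIN : LFIN) (hLAMG : LAMG) (hLB : LB) (hLVA : LVA)
    (hLE1 : LE1) (hLCL : LCL) : TALT := by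
  intro B b x p q p' q' X Y X' Y' hB hb hx hS hc
  have hk := TALT.key hLFIG hLFIN hLAMG hB hb hx hS
  unfold OT
  rw [neg_neg, neg_neg]
  by_cases hbL : LC lam b
  · rw [if_pos hbL, add_zero]
    by_cases hxL : LC lam x
    · rw [if_pos hxL, add_zero, hk,
        hLB.1 B b x p q p' q' hB.ne hb.ne hx.ne hS hbL hxL, sub_self]
    · rw [if_neg hxL, ← add_assoc, hk, TALT.TT_none hxL]
      rcases hc with ⟨-, h1 | ⟨h1, h2, rfl, rfl⟩ | h1⟩ | ⟨h1, h2, h3, -⟩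
      · exact absurd h1 hxL
      · rw [TALT.SV_one_zero, hLB.2 B b x p q p' q' hB.ne hb.ne hx.ne hS hbL h1 h2]
        ring
      · rw [hLVA B b x p q p' q' X' Y' hB.ne hb.ne hx.ne hS hbL h1]
        ring
      · exfalso
        have h4 := ((hLCL.1 b hb.ne).1 hbL).1
        rw [h2, h1] at h4
        exact absurd h4 (by decide)
  · rw [if_neg hbL]
    rcases hc with ⟨h1, -⟩ | ⟨h1, h2, h3, rfl, rfl, h4, h5⟩
    · exact absurd h1 hbL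
    · rw [TALT.SV_one_zero, add_zero, if_neg h4, ← add_assoc, hk, TALT.TT_none hbL,
        TALT.TT_none h4,
        hLE1 B b x p q p' q' X' Y' hB.ne hb.ne hx.ne hS h1 h2 h3 h4 h5]
      ring

end Pool.Agent.PT3


end
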