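import Mathlib
import Pool.Agent.PTDM.C01
import Pool.Agent.PTDM.C02
import Pool.Agent.PTDM.C21

/-! Parts: PT.DCONST, PT.DENS, PT.ECL, PT.EMAT, PT.IF2, PT.NAUX, PT.NNS, PTE.DCONSTS, PTE.DENSS, PTE.DIRS, PTL.DC, PT3.DCOU, PT3.DENG, PT3.ECL0, PT3.ECLT, PT3.FIN3, PT3.LL1, PT3.TPT -/

section

/-!
# Prime twists of rank zero: the pairing as a function of the prime
-/

set_option autoImplicit false

namespace Pool.Agent.PT

open Pool.Agent.Lib_helper18 Pool.Agent.Lib_helper18.Eis Pool.Agent.Lib_helper84.Cub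

namespace DCONST

lemma cast_ne {n : ℤ} (h : n ≠ 0) : ((n : ℤ) : Eis) ≠ 0 := by
  intro h1
  apply h
  have h2 := congrArg Eis.re h1
  simpa using h2

lemma Lf_mul (p q r : ℤ) (i : ℕ) :
    Lf p q i r * ((p : Eis) ^ 2 - p * (q * w ^ i * r) + (q * w ^ i * r) ^ 2) =
      (p : Eis) ^ 3 + (q : Eis) ^ 3 * (r : Eis) ^ 3 := by
  have h2 : (w ^ i) ^ 3 = 1 := by rw [← pow_mul, mul_comm, pow_mul, w_cube, one_pow]
  unfold Lf
  linear_combination ((q : Eis) ^ 3 * (r : Eis) ^ 3) * h2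

/-- The linear forms at good approximations have bounded valuation. -/
lemma Lf_ndvd {u : Eis} {b p q r : ℤ} (hr : u ∣ (r : Eis) ^ 3 - (b : Eis))
    (h : ¬ u ∣ ((p ^ 3 + b * q ^ 3 : ℤ) : Eis)) (i : ℕ) : ¬ u ∣ Lf p q i r := by
  intro hd
  apply h
  have h1 : ((p ^ 3 + b * q ^ 3 : ℤ) : Eis) =
      Lf p q i r * ((p : Eis) ^ 2 - p * (q * w ^ i * r) + (q * w ^ i * r) ^ 2) -
        (q : Eis) ^ 3 * ((r : Eis) ^ 3 - (b : Eis)) := by
    rw [Lf_mul]
    push_cast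
    ring
  rw [h1]
  exact dvd_sub (dvd_mul_of_dvd_left hd _) (dvd_mul_of_dvd_right hr _)

lemma ndvd_pow {u a : Eis} (hu : Prime u) (ha : a ≠ 0) {K : ℕ} (h : V u a ≤ K) :
    ¬ u ^ (K + 1) ∣ a :=
  (fin hu ha).multiplicity_lt_iff_not_dvd.1 (Nat.lt_succ_of_le h)

lemma ne_of_ndvd {u a : Eis} (h : ¬ u ∣ a) : a ≠ 0 := by
  rintro rfl
  exact h (dvd_zero _)

lemma V_le_of_ndvd {u a : Eis} (hu : Prime u) {K : ℕ} (h : ¬ u ^ (K + 1) ∣ a) : V u a ≤ K :=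
  Nat.le_of_lt_succ ((fin hu (ne_of_ndvd h)).multiplicity_lt_iff_not_dvd.2 h)

/-- a symbol does not see small changes of its second argument -/
lemma LSym.cont' {u : Eis} {s : Eis → Eis → ZMod 3} {e : ℕ} (h : LSym u s e) {B a a' : Eis}
    (hB : B ≠ 0) (ha : a ≠ 0) (ha' : a' ≠ 0) (hd : u ^ (V u a + e) ∣ a' - a) :
    s B a' = s B a := by
  rw [h.skew a' B ha' hB, h.skew a B ha hB, h.cont a a' B ha hB hd]

lemma Lf_cont {u : Eis} {s : Eis → Eis → ZMod 3} {e : ℕ} (h : LSym u s e) {b p q r r' : ℤ}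
    {K : ℕ} (hn : ¬ u ^ (K + 1) ∣ ((p ^ 3 + b * q ^ 3 : ℤ) : Eis))
    (hr : u ^ (K + 1) ∣ (r : Eis) ^ 3 - (b : Eis)) (hr' : u ^ (K + 1) ∣ (r' : Eis) ^ 3 - (b : Eis))
    (hrr : u ^ (K + e) ∣ (r' : Eis) - r) {B : Eis} (hB : B ≠ 0) (i : ℕ) :
    s B (Lf p q i r') = s B (Lf p q i r) := by
  have h1 := Lf_ndvd hr hn i
  have h2 := Lf_ndvd hr' hn i
  refine LSym.cont' h hB (ne_of_ndvd h1) (ne_of_ndvd h2) ?_
  have h3 : Lf p q i r' - Lf p q i r = (q * w ^ i) * ((r' : Eis) - r) := by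
    unfold Lf
    ring
  rw [h3]
  refine dvd_mul_of_dvd_right ((pow_dvd_pow u ?_).trans hrr) _
  have := V_le_of_ndvd h.prime h1
  omega

/-- a fixed good approximation of a cube root -/
lemma exists_root {u : Eis} {s : Eis → Eis → ZMod 3} {e : ℕ} (h : LSym u s e)
    {b p q p' q' : ℤ} (hn : p ^ 3 + b * q ^ 3 ≠ 0) (hn' : p' ^ 3 + b * q' ^ 3 ≠ 0)
    (hLC : LC u b) : ∃ r : ℤ, (∀ i, Lf p q i r ≠ 0) ∧ (∀ i, Lf p' q' i r ≠ 0) ∧
      ∀ (B : Eis) (c : ZMod 3) (N0 : ℕ), B ≠ 0 → (∀ r : ℤ, u ^ N0 ∣ (r : Eis) ^ 3 - (b : Eis) →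
        AS s B p q p' q' r = c) → AS s B p q p' q' r = c := by
  have hu := h.prime
  set K := V u ((p ^ 3 + b * q ^ 3 : ℤ) : Eis) + V u ((p' ^ 3 + b * q' ^ 3 : ℤ) : Eis) with hK
  have k1 : ¬ u ^ (K + 1) ∣ ((p ^ 3 + b * q ^ 3 : ℤ) : Eis) :=
    ndvd_pow hu (cast_ne hn) (Nat.le_add_right _ _)
  have k2 : ¬ u ^ (K + 1) ∣ ((p' ^ 3 + b * q' ^ 3 : ℤ) : Eis) :=
    ndvd_pow hu (cast_ne hn') (Nat.le_add_left _ _)
  choose ρ hρ using hLC
  have hNu : 1 < N u := N_prime hu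
  set m := (N u) ^ (K + e) with hm
  have hm0 : m ≠ 0 := pow_ne_zero _ (by omega)
  have : NeZero m := ⟨hm0⟩
  have hum : u ^ (K + e) ∣ ((m : ℤ) : Eis) := by
    have h1 : u ∣ ((N u : ℤ) : Eis) := by
      rw [N_cast, ← mul_conj]
      exact Dvd.intro _ rfl
    have h2 := pow_dvd_pow_of_dvd h1 (K + e)
    rw [hm]
    push_cast
    push_cast at h2
    exact h2
  obtain ⟨y, hy⟩ := Finite.exists_infinite_fiber (fun N : ℕ => ((ρ N : ℤ) : ZMod m))
  have hinf : ((fun N : ℕ => ((ρ N : ℤ) : ZMod m)) ⁻¹' {y}).Infinite := Set.infinite_coe_iff.1 hy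
  obtain ⟨N1, hN1, hN1'⟩ := hinf.exists_gt K
  have lev : ∀ N, K < N → u ^ (K + 1) ∣ ((ρ N : ℤ) : Eis) ^ 3 - (b : Eis) :=
    fun N hN => (pow_dvd_pow u hN).trans (hρ N)
  refine ⟨ρ N1, fun i => ne_of_ndvd (Lf_ndvd (lev N1 hN1') k1 i),
    fun i => ne_of_ndvd (Lf_ndvd (lev N1 hN1') k2 i), ?_⟩
  intro B c N0 hB hc
  obtain ⟨N2, hN2, hN2'⟩ := hinf.exists_gt (max K N0)
  have h2 := hc (ρ N2) ((pow_dvd_pow u ((le_max_right K N0).trans hN2'.le)).trans (hρ N2))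
  have hrr : u ^ (K + e) ∣ ((ρ N1 : ℤ) : Eis) - ((ρ N2 : ℤ) : Eis) := by
    have h3 : ((ρ N2 : ℤ) : ZMod m) = ((ρ N1 : ℤ) : ZMod m) := by
      rw [Set.mem_preimage, Set.mem_singleton_iff] at hN1 hN2
      rw [hN1, hN2]
    have h4 : (m : ℤ) ∣ ρ N1 - ρ N2 := (ZMod.intCast_eq_intCast_iff_dvd_sub _ _ _).1 h3
    have h5 : ((m : ℤ) : Eis) ∣ ((ρ N1 - ρ N2 : ℤ) : Eis) := intCast_dvd_intCast.2 h4
    rw [Int.cast_sub] at h5
    exact hum.trans h5
  have l2 := lev N2 ((le_max_left K N0).trans_lt hN2')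
  have l1 := lev N1 hN1'
  rw [← h2]
  unfold AS
  rw [Lf_cont h k1 l2 l1 hrr hB 2, Lf_cont h k2 l2 l1 hrr hB 1, Lf_cont h k1 l2 l1 hrr hB 1,
    Lf_cont h k2 l2 l1 hrr hB 2]

/-- a homomorphism from a periodic multiplicative function -/
lemma exists_hom {f : ℕ} (hf : 1 < f) (ψ : ℤ → ZMod 3)
    (hmul : ∀ a b : ℤ, IsCoprime a (f : ℤ) → IsCoprime b (f : ℤ) → ψ (a * b) = ψ a + ψ b)
    (hper : ∀ a b : ℤ, IsCoprime a (f : ℤ) → IsCoprime b (f : ℤ) → (f : ℤ) ∣ b - a → ψ b = ψ a) :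
    ∃ Φ : (ZMod f)ˣ →* Multiplicative (ZMod 3), ∀ (Q : ℕ) (hQ : Q.Coprime f),
      (Φ (ZMod.unitOfCoprime Q hQ)).toAdd = ψ Q := by
  have : NeZero f := ⟨by omega⟩
  have hcop : ∀ u : (ZMod f)ˣ, IsCoprime (((u : ZMod f).val : ℕ) : ℤ) (f : ℤ) := fun u =>
    Nat.isCoprime_iff_coprime.2 (ZMod.val_coe_unit_coprime u)
  have h1 : ψ 1 = 0 := by
    have h2 := hmul 1 1 isCoprime_one_left isCoprime_one_left
    rw [mul_one] at h2
    exact left_eq_add.1 h2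
  refine ⟨⟨⟨fun u => Multiplicative.ofAdd (ψ (((u : ZMod f).val : ℕ) : ℤ)), ?_⟩, ?_⟩, ?_⟩
  · rw [← ofAdd_zero]
    congr 1
    rw [Units.val_one, ← h1]
    have : Fact (1 < f) := ⟨hf⟩
    rw [ZMod.val_one]
    rfl
  · intro u v
    show Multiplicative.ofAdd (ψ ((((u * v : (ZMod f)ˣ) : ZMod f).val : ℕ) : ℤ)) =
      Multiplicative.ofAdd (ψ (((u : ZMod f).val : ℕ) : ℤ)) *
        Multiplicative.ofAdd (ψ (((v : ZMod f).val : ℕ) : ℤ))
    rw [← ofAdd_add, ← hmul _ _ (hcop u) (hcop v)]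
    congr 1
    refine hper _ _ ((hcop u).mul_left (hcop v)) (hcop (u * v)) ?_
    rw [← ZMod.intCast_eq_intCast_iff_dvd_sub]
    push_cast
    rw [ZMod.natCast_zmod_val, ZMod.natCast_zmod_val, ZMod.natCast_zmod_val]
  · intro Q hQ
    show ψ ((((ZMod.unitOfCoprime Q hQ : (ZMod f)ˣ) : ZMod f).val : ℕ) : ℤ) = ψ Q
    refine hper _ _ (Nat.isCoprime_iff_coprime.2 hQ) (hcop _) ?_
    rw [← ZMod.intCast_eq_intCast_iff_dvd_sub]
    push_cast
    rw [ZMod.natCast_zmod_val, ZMod.coe_unitOfCoprime]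

lemma AS_mul {u : Eis} {s : Eis → Eis → ZMod 3} {e : ℕ} (h : LSym u s e) {p q p' q' r : ℤ}
    (hr : ∀ i, Lf p q i r ≠ 0) (hr' : ∀ i, Lf p' q' i r ≠ 0) {A B : Eis} (hA : A ≠ 0)
    (hB : B ≠ 0) : AS s (A * B) p q p' q' r = AS s A p q p' q' r + AS s B p q p' q' r := by
  unfold AS
  rw [h.mul A B _ hA hB (hr 2), h.mul A B _ hA hB (hr' 1), h.mul A B _ hA hB (hr 1),
    h.mul A B _ hA hB (hr' 2)]
  ring

/-- places where `b` is a cube -/
lemma place_LC {u : Eis} {s : Eis → Eis → ZMod 3} {e : ℕ} (h : LSym u s e)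
    {b p q p' q' n : ℤ} (hn0 : n ≠ 0) (hn : p ^ 3 + b * q ^ 3 ≠ 0)
    (hn' : p' ^ 3 + b * q' ^ 3 ≠ 0) (hLC : LC u b) {f : ℕ} (hf : 1 < f)
    (huf : u ^ e ∣ ((f : ℤ) : Eis)) :
    ∃ (C : ZMod 3) (Φ : (ZMod f)ˣ →* Multiplicative (ZMod 3)),
      ∀ (Q : ℕ) (hQ : Q.Coprime f) (c : ZMod 3) (N0 : ℕ),
      (∀ r : ℤ, u ^ N0 ∣ (r : Eis) ^ 3 - (b : Eis) →
        AS s ((n * Q : ℤ) : Eis) p q p' q' r = c) →
      c = C + (Φ (ZMod.unitOfCoprime Q hQ)).toAdd := by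
  obtain ⟨r, hr, hr', H⟩ := exists_root h hn hn' hLC
  have hne : ∀ a : ℤ, IsCoprime a (f : ℤ) → (a : Eis) ≠ 0 := by
    intro a ha
    apply cast_ne
    rintro rfl
    have h1 := isCoprime_zero_left.1 ha
    have h2 := Int.isUnit_iff.1 h1
    omega
  have huf1 : u ∣ ((f : ℤ) : Eis) := by
    have h1 : u ^ 1 ∣ u ^ e := pow_dvd_pow u h.pos
    rw [pow_one] at h1
    exact h1.trans huf
  have hV : ∀ a : ℤ, IsCoprime a (f : ℤ) → V u (a : Eis) = 0 := by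
    intro a ha
    apply V_eq_zero
    intro hd
    obtain ⟨x, y, hxy⟩ := ha
    apply h.prime.not_isUnit
    apply isUnit_of_dvd_one
    have h1 : (1 : Eis) = (x : Eis) * (a : Eis) + (y : Eis) * ((f : ℤ) : Eis) := by
      have h2 := congrArg (fun t : ℤ => (t : Eis)) hxy
      simp only [Int.cast_add, Int.cast_mul, Int.cast_one] at h2
      exact h2.symm
    rw [h1]
    exact dvd_add (dvd_mul_of_dvd_right hd _) (dvd_mul_of_dvd_right huf1 _)
  obtain ⟨Φ, hΦ⟩ := exists_hom hf (fun a => AS s (a : Eis) p q p' q' r) (by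
    intro a c ha hc
    show AS s ((a * c : ℤ) : Eis) p q p' q' r = _
    rw [Int.cast_mul]
    exact AS_mul h hr hr' (hne a ha) (hne c hc)) (by
    intro a c ha hc hd
    have h1 : u ^ (V u (a : Eis) + e) ∣ (c : Eis) - (a : Eis) := by
      rw [hV a ha, zero_add, ← Int.cast_sub]
      exact huf.trans (intCast_dvd_intCast.2 hd)
    show AS s (c : Eis) p q p' q' r = AS s (a : Eis) p q p' q' r
    unfold AS
    rw [h.cont _ _ _ (hne a ha) (hr 2) h1, h.cont _ _ _ (hne a ha) (hr' 1) h1,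
      h.cont _ _ _ (hne a ha) (hr 1) h1, h.cont _ _ _ (hne a ha) (hr' 2) h1])
  refine ⟨AS s (n : Eis) p q p' q' r, Φ, ?_⟩
  intro Q hQ c N0 hc
  have hQ0 : ((Q : ℤ) : Eis) ≠ 0 := hne Q (Nat.isCoprime_iff_coprime.2 hQ)
  have hB : ((n * Q : ℤ) : Eis) = (n : Eis) * ((Q : ℤ) : Eis) := Int.cast_mul _ _
  rw [hΦ, ← H ((n * Q : ℤ) : Eis) c N0 (by rw [hB]; exact mul_ne_zero (cast_ne hn0) hQ0) hc, hB,
    AS_mul h hr hr' (cast_ne hn0) hQ0]

lemma tm_zero {π a b : Eis} (ha : ¬ π ∣ a) (hb : ¬ π ∣ b) : tm π a b = 0 := by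
  unfold tm
  rw [V_eq_zero ha, V_eq_zero hb]
  simp

/-- the symbol at an inert prime dividing the first argument once -/
lemma tm_inert {Q : Eis} {n : ℤ} (hQ : Prime Q) (hn : ¬ Q ∣ (n : Eis)) {L : Eis}
    (hL : ¬ Q ∣ L) : tm Q ((n : Eis) * Q) L = - sym Q L := by
  have h1 : V Q ((n : Eis) * Q) = 1 := by
    rw [V_mul_not_dvd hQ hn hQ.ne_zero, V_self]
  have h2 : up Q L = L := by
    unfold up
    rw [V_eq_zero hL, pow_zero, EuclideanDomain.div_one]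
  unfold tm
  rw [V_eq_zero hL, h1]
  unfold ch
  rw [h2]
  simp

/-- cube roots modulo a prime `= 2 (mod 3)` are unique -/
lemma root_unique {Q : ℕ} (hQ : Q.Prime) (hQ3 : Q % 3 = 2) {r r' : ℤ}
    (h : (Q : ℤ) ∣ r ^ 3 - r' ^ 3) : (Q : ℤ) ∣ r - r' := by
  have : Fact Q.Prime := ⟨hQ⟩
  have h1 : (r : ZMod Q) ^ 3 = (r' : ZMod Q) ^ 3 := by
    have h2 := (ZMod.intCast_zmod_eq_zero_iff_dvd _ Q).2 h
    push_cast at h2
    exact sub_eq_zero.1 h2
  have h3 : ∀ a : ZMod Q, a ≠ 0 → a = (a ^ 3) ^ ((2 * Q - 1) / 3) := by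
    intro a ha
    have h4 : 3 * ((2 * Q - 1) / 3) = (Q - 1) + (Q - 1) + 1 := by
      have := hQ.two_le
      omega
    rw [← pow_mul, h4, pow_add, pow_add, ZMod.pow_card_sub_one_eq_one ha]
    ring
  have h5 : (r : ZMod Q) = (r' : ZMod Q) := by
    by_cases hr : (r : ZMod Q) = 0
    · rw [hr, zero_pow (by norm_num)] at h1
      rw [hr]
      exact (pow_eq_zero_iff (by norm_num)).1 h1.symm |>.symm
    · have hr' : (r' : ZMod Q) ≠ 0 := by
        intro h0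
        rw [h0, zero_pow (by norm_num)] at h1
        exact hr ((pow_eq_zero_iff (by norm_num)).1 h1)
      rw [h3 _ hr, h3 _ hr', h1]
  rw [← ZMod.intCast_zmod_eq_zero_iff_dvd]
  push_cast
  rw [h5, sub_self]

lemma sy_zero (hSTM : STM) (hSPP : SPP) {B x : ℤ} (hB : B ≠ 0) (hx : Adm B x) (v : Pl) :
    sy v (B : Eis) (x : Eis) = 0 := by
  have h1 : ∀ π : PP, tm π.1 (B : Eis) (x : Eis) = 0 := by
    intro π
    have h1 := (hSTM π.1 π.2.1 (hSPP.2.2.2.1 π).1).skew (x : Eis) (B : Eis)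
      (cast_ne hx.ne) (cast_ne hB)
    rw [h1, hx.sym π, neg_zero]
  rcases v with _ | π
  · show sl (B : Eis) (x : Eis) = 0
    unfold sl
    rw [finsum_eq_zero_of_forall_eq_zero h1, neg_zero]
  · exact h1 π

lemma TT_LC {v : Pl} {B b x p q p' q' : ℤ} (h : LC (uni v) b) : TT v B b x p q p' q' =
    AV v B b p q p' q' + sy v w (x : Eis) := by
  unfold TT
  rw [if_pos h]

lemma TT_some {π : PP} {B b x p q p' q' : ℤ} (h : ¬ LC π.1 b) :
    TT (some π) B b x p q p' q' =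
      if 3 ∣ V π.1 (b : Eis) + V π.1 (B : Eis) ∧ ¬ 3 ∣ V π.1 (b : Eis)
        then - tm π.1 w (x : Eis) else 0 := by
  have h' : ¬ LC (uni (some π)) b := h
  unfold TT
  rw [if_neg h']

end DCONST

open _root_.Pool.Agent.PT.DCONST in
/-- DCONST: the pairing `O_{nQ}(b, η)` as a function of the prime `Q`. -/
theorem DCONST_thm (hSTM : STM) (hSPP : SPP) (_hSSL : SSL) (hSLC : SLC) (_hSCJ : SCJ)
    (hLCI : LCI) (hAVV : AVV) (_hLFIN : LFIN) : DCONST := by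
  intro n b x p q p' q' hn0 _hn3 hs hb hx
  have hn1 := hs.n1
  have hn2 : p' ^ 3 + b * q' ^ 3 ≠ 0 := by
    intro h
    apply hs.n1
    rw [hs.eq, h, mul_zero]
  have hnz : (n : ℤ) ≠ 0 := by omega
  obtain ⟨M, hMdef⟩ : ∃ M : ℤ, M = (n : ℤ) * b * x * (p ^ 3 + b * q ^ 3) *
    (p' ^ 3 + b * q' ^ 3) := ⟨_, rfl⟩
  have hM : M ≠ 0 := by
    rw [hMdef]
    exact mul_ne_zero (mul_ne_zero (mul_ne_zero (mul_ne_zero hnz hb) hx) hn1) hn2
  have dn : (n : ℤ) ∣ M := ⟨b * x * (p ^ 3 + b * q ^ 3) * (p' ^ 3 + b * q' ^ 3), by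
    rw [hMdef]; ring⟩
  have db : b ∣ M := ⟨(n : ℤ) * x * (p ^ 3 + b * q ^ 3) * (p' ^ 3 + b * q' ^ 3), by
    rw [hMdef]; ring⟩
  have dx : x ∣ M := ⟨(n : ℤ) * b * (p ^ 3 + b * q ^ 3) * (p' ^ 3 + b * q' ^ 3), by
    rw [hMdef]; ring⟩
  have d1 : p ^ 3 + b * q ^ 3 ∣ M := ⟨(n : ℤ) * b * x * (p' ^ 3 + b * q' ^ 3), by
    rw [hMdef]; ring⟩
  have d2 : p' ^ 3 + b * q' ^ 3 ∣ M := ⟨(n : ℤ) * b * x * (p ^ 3 + b * q ^ 3), by
    rw [hMdef]; ring⟩
  have hfin := hSPP.2.2.1 (M : Eis) (cast_ne hM)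
  have hMa : 0 < M.natAbs := Int.natAbs_pos.2 hM
  refine ⟨9 * M.natAbs, by omega, ?_⟩
  intro f hf0 hf
  have h9 : 9 ∣ f := (Dvd.intro _ rfl).trans hf
  have hf1 : 1 < f := by
    have := Nat.le_of_dvd hf0 h9
    omega
  have hMf : M ∣ (f : ℤ) := by
    have h1 : M.natAbs ∣ f := (Dvd.intro_left 9 rfl).trans hf
    exact Int.natAbs_dvd.1 (Int.natCast_dvd_natCast.2 h1)
  have hlamf : lam ^ 4 ∣ ((f : ℤ) : Eis) := by
    have h1 : ((9 : ℤ) : Eis) ∣ ((f : ℤ) : Eis) :=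
      intCast_dvd_intCast.2 (by exact_mod_cast h9)
    refine Dvd.dvd.trans ⟨w ^ 4, ?_⟩ h1
    have h2 : ((9 : ℤ) : Eis) = (3 : Eis) ^ 2 := by norm_num
    rw [h2, three_eq]
    ring
  have hQM : ∀ Q : ℕ, Q.Prime → Q.Coprime f → ¬ (Q : ℤ) ∣ M := by
    intro Q hQ hQf h
    have h1 : (Q : ℤ) ∣ (f : ℤ) := h.trans hMf
    have h2 : Q ∣ f := Int.natCast_dvd_natCast.1 h1
    have h3 := Nat.Coprime.eq_one_of_dvd hQf h2
    exact hQ.one_lt.ne' h3
  have hBne : ∀ Q : ℕ, Q.Prime → (n : ℤ) * Q ≠ 0 := fun Q hQ =>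
    mul_ne_zero hnz (by exact_mod_cast hQ.ne_zero)
  -- the place above `3`
  obtain ⟨c₀, Φ₀, H₀⟩ : ∃ (c : ZMod 3) (Φ : (ZMod f)ˣ →* Multiplicative (ZMod 3)),
      ∀ (Q : ℕ) (hQ : Q.Coprime f), Q.Prime → Adm ((n : ℤ) * Q) x →
        TT none ((n : ℤ) * Q) b x p q p' q' =
          c + (Φ (ZMod.unitOfCoprime Q hQ)).toAdd := by
    by_cases hLC : LC (uni none) b
    · obtain ⟨C, Φ, H⟩ := place_LC (n := (n : ℤ)) hSLC hnz hn1 hn2 hLC hf1 hlamf
      refine ⟨C + sl w (x : Eis), Φ, ?_⟩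
      intro Q hQ hQp hax
      rw [TT_LC hLC]
      obtain ⟨N0, hN0⟩ := (hAVV none ((n : ℤ) * Q) b x p q p' q' (hBne Q hQp) hb hx hs.toSolW
        (sy_zero hSTM hSPP (hBne Q hQp) hax none) hLC).1
      rw [H Q hQ _ N0 hN0]
      show _ + sl w (x : Eis) = _
      ring
    · refine ⟨0, 1, ?_⟩
      intro Q hQ hQp hax
      unfold TT
      rw [if_neg hLC]
      rfl
  -- the places dividing `M`
  have hpl : ∀ π : PP, ∃ (c : ZMod 3) (Φ : (ZMod f)ˣ →* Multiplicative (ZMod 3)),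
      π.1 ∣ (M : Eis) → ∀ (Q : ℕ) (hQ : Q.Coprime f), Q.Prime → Adm ((n : ℤ) * Q) x →
        TT (some π) ((n : ℤ) * Q) b x p q p' q' =
          c + (Φ (ZMod.unitOfCoprime Q hQ)).toAdd := by
    intro π
    by_cases hπM : π.1 ∣ (M : Eis)
    · have hπf : π.1 ∣ ((f : ℤ) : Eis) := hπM.trans (intCast_dvd_intCast.2 hMf)
      by_cases hLC : LC (uni (some π)) b
      · obtain ⟨C, Φ, H⟩ := place_LC (n := (n : ℤ)) (hSTM π.1 π.2.1 (hSPP.2.2.2.1 π).1) hnz hn1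
          hn2 hLC hf1 (by rw [pow_one]; exact hπf)
        refine ⟨C + tm π.1 w (x : Eis), Φ, ?_⟩
        intro _ Q hQ hQp hax
        rw [TT_LC hLC]
        obtain ⟨N0, hN0⟩ := (hAVV (some π) ((n : ℤ) * Q) b x p q p' q' (hBne Q hQp) hb hx
          hs.toSolW (sy_zero hSTM hSPP (hBne Q hQp) hax (some π)) hLC).1
        rw [H Q hQ _ N0 hN0]
        show _ + tm π.1 w (x : Eis) = _
        ring
      · refine ⟨if 3 ∣ V π.1 (b : Eis) + V π.1 ((n : ℤ) : Eis) ∧ ¬ 3 ∣ V π.1 (b : Eis)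
          then - tm π.1 w (x : Eis) else 0, 1, ?_⟩
        intro _ Q hQ hQp hax
        rw [TT_some hLC]
        have hVQ : V π.1 ((Q : ℤ) : Eis) = 0 := by
          apply V_eq_zero
          intro hd
          obtain ⟨y, z, hyz⟩ := Nat.isCoprime_iff_coprime.2 hQ
          apply π.2.1.not_isUnit
          apply isUnit_of_dvd_one
          have h1 : (1 : Eis) = (y : Eis) * ((Q : ℤ) : Eis) + (z : Eis) * ((f : ℤ) : Eis) := by
            have h2 := congrArg (fun t : ℤ => (t : Eis)) hyz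
            simp only [Int.cast_add, Int.cast_mul, Int.cast_one] at h2
            exact h2.symm
          rw [h1]
          exact dvd_add (dvd_mul_of_dvd_right hd _) (dvd_mul_of_dvd_right hπf _)
        have hV : V π.1 (((n : ℤ) * Q : ℤ) : Eis) = V π.1 ((n : ℤ) : Eis) := by
          rw [Int.cast_mul, V_mul π.2.1 (cast_ne hnz) (cast_ne (by exact_mod_cast hQp.ne_zero)),
            hVQ, add_zero]
        rw [hV]
        simp
    · exact ⟨0, 1, fun h => absurd h hπM⟩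
  choose c Φ H using hpl
  refine ⟨c₀ + ∑ π ∈ hfin.toFinset, c π, Φ₀ * ∏ π ∈ hfin.toFinset, Φ π, 0, ?_⟩
  intro Q hQ hQp _ hQ3 hBk hab hax r hr
  obtain ⟨πQ, hπQ⟩ := hSPP.2.2.2.2.1 Q hQp hQ3
  have hQc : ((Q : ℤ) : Eis) = (Q : Eis) := Int.cast_natCast Q
  have hπQ' : πQ.1 = ((Q : ℤ) : Eis) := by rw [hπQ, hQc]
  have hQnd : ∀ m : ℤ, m ∣ M → ¬ πQ.1 ∣ (m : Eis) := by
    intro m hm h
    rw [hπQ'] at h
    exact hQM Q hQp hQ ((intCast_dvd_intCast.1 h).trans hm)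
  have hQw : ¬ πQ.1 ∣ w := not_dvd_w πQ.2.1
  have hBcast : (((n : ℤ) * Q : ℤ) : Eis) = ((n : ℤ) : Eis) * πQ.1 := by
    rw [Int.cast_mul, hπQ']
  -- the place `Q`
  have hTQ : TT (some πQ) ((n : ℤ) * Q) b x p q p' q' = - TAUV Q p q p' q' r := by
    have hLC : LC (uni (some πQ)) b := by
      refine (hLCI.1 πQ b hb).2 ⟨?_, ?_⟩
      · rw [V_eq_zero (hQnd b db)]
        exact dvd_zero 3
      · unfold ch up
        rw [V_eq_zero (hQnd b db), pow_zero, EuclideanDomain.div_one, hπQ]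
        refine sym_int hQp hQ3 ?_
        intro h
        exact hQM Q hQp hQ (h.trans db)
    rw [TT_LC hLC]
    have hw : sy (some πQ) w (x : Eis) = 0 := tm_zero hQw (hQnd x dx)
    rw [hw, add_zero]
    refine (hAVV (some πQ) ((n : ℤ) * Q) b x p q p' q' (hBne Q hQp) hb hx
      hs.toSolW (sy_zero hSTM hSPP (hBne Q hQp) hax (some πQ)) hLC).2 _ 1 ?_
    intro r' hr'
    have hr1 : πQ.1 ∣ (r' : Eis) ^ 3 - (b : Eis) := by
      have h1 : πQ.1 ^ 1 ∣ (r' : Eis) ^ 3 - (b : Eis) := hr'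
      rwa [pow_one] at h1
    have hrr : (Q : ℤ) ∣ r' - r := by
      apply root_unique hQp hQ3
      have h1 : (Q : ℤ) ∣ r' ^ 3 - b := by
        rw [hπQ'] at hr1
        apply intCast_dvd_intCast.1
        push_cast
        push_cast at hr1
        exact hr1
      have h2 : r' ^ 3 - r ^ 3 = (r' ^ 3 - b) - (r ^ 3 - b) := by ring
      rw [h2]
      exact dvd_sub h1 hr
    have hrr' : πQ.1 ∣ (r' : Eis) - (r : Eis) := by
      rw [hπQ', ← Int.cast_sub]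
      exact intCast_dvd_intCast.2 hrr
    have hsym : ∀ (g h : ℤ) (i : ℕ), sym (Q : Eis) (Lf g h i r') = sym (Q : Eis) (Lf g h i r) := by
      intro g h i
      apply sym_congr
      rw [← hπQ]
      have h1 : Lf g h i r' - Lf g h i r = (h * w ^ i) * ((r' : Eis) - r) := by
        unfold Lf
        ring
      rw [h1]
      exact dvd_mul_of_dvd_right hrr' _
    have k1 := Lf_ndvd (p := p) (q := q) hr1 (hQnd _ d1)
    have k2 := Lf_ndvd (p := p') (q := q') hr1 (hQnd _ d2)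
    show tm πQ.1 (((n : ℤ) * Q : ℤ) : Eis) (Lf p q 2 r') +
      tm πQ.1 (((n : ℤ) * Q : ℤ) : Eis) (Lf p' q' 1 r') -
      tm πQ.1 (((n : ℤ) * Q : ℤ) : Eis) (Lf p q 1 r') -
      tm πQ.1 (((n : ℤ) * Q : ℤ) : Eis) (Lf p' q' 2 r') = - TAUV Q p q p' q' r
    rw [hBcast, tm_inert πQ.2.1 (hQnd _ dn) (k1 2), tm_inert πQ.2.1 (hQnd _ dn) (k2 1),
      tm_inert πQ.2.1 (hQnd _ dn) (k1 1), tm_inert πQ.2.1 (hQnd _ dn) (k2 2), hπQ, hsym, hsym,
      hsym, hsym]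
    unfold TAUV
    ring
  -- the sum
  have hQS : πQ ∉ hfin.toFinset := by
    rw [Set.Finite.mem_toFinset]
    exact hQnd M dvd_rfl
  classical
  have hsupp : (Function.support fun v : Pl => TT v ((n : ℤ) * Q) b x p q p' q') ⊆
      ((insert none (insert (some πQ) (hfin.toFinset.image some)) : Finset Pl) : Set Pl) := by
    intro v hv
    by_contra hnv
    apply hv
    rcases v with _ | π
    · exact absurd (Finset.mem_coe.2 (Finset.mem_insert_self _ _)) hnv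
    · have hnM : ¬ π.1 ∣ (M : Eis) := by
        intro h
        apply hnv
        rw [Finset.mem_coe]
        refine Finset.mem_insert_of_mem (Finset.mem_insert_of_mem (Finset.mem_image_of_mem _ ?_))
        rw [Set.Finite.mem_toFinset]
        exact h
      have hπne : π ≠ πQ := by
        rintro rfl
        apply hnv
        rw [Finset.mem_coe]
        exact Finset.mem_insert_of_mem (Finset.mem_insert_self _ _)
      have hd : ∀ m : ℤ, m ∣ M → ¬ π.1 ∣ (m : Eis) := fun m hm h =>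
        hnM (h.trans (intCast_dvd_intCast.2 hm))
      have hπQnd : ¬ π.1 ∣ πQ.1 := by
        intro h
        exact hπne (hSPP.2.1 π πQ (π.2.1.associated_of_dvd πQ.2.1 h))
      have hnB : ¬ π.1 ∣ (((n : ℤ) * Q : ℤ) : Eis) := by
        rw [hBcast]
        intro h
        rcases π.2.1.dvd_or_dvd h with h1 | h1
        · exact hd _ dn h1
        · exact hπQnd h1
      have hnw : ¬ π.1 ∣ w := not_dvd_w π.2.1
      show TT (some π) ((n : ℤ) * Q) b x p q p' q' = 0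
      by_cases hLC : LC (uni (some π)) b
      · rw [TT_LC hLC]
        have hw : sy (some π) w (x : Eis) = 0 := tm_zero hnw (hd x dx)
        obtain ⟨N0, hN0⟩ := (hAVV (some π) ((n : ℤ) * Q) b x p q p' q' (hBne Q hQp) hb hx
          hs.toSolW (sy_zero hSTM hSPP (hBne Q hQp) hax (some π)) hLC).1
        obtain ⟨r₁, hr₁⟩ := hLC (max N0 1)
        have hr0 : uni (some π) ^ N0 ∣ (r₁ : Eis) ^ 3 - (b : Eis) :=
          (pow_dvd_pow _ (le_max_left _ _)).trans hr₁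
        have hr1 : π.1 ∣ (r₁ : Eis) ^ 3 - (b : Eis) := by
          have h1 : π.1 ^ 1 ∣ (r₁ : Eis) ^ 3 - (b : Eis) :=
            (pow_dvd_pow π.1 (le_max_right N0 1)).trans hr₁
          rwa [pow_one] at h1
        have k1 := Lf_ndvd (p := p) (q := q) hr1 (hd _ d1)
        have k2 := Lf_ndvd (p := p') (q := q') hr1 (hd _ d2)
        rw [hw, ← hN0 r₁ hr0]
        show tm π.1 (((n : ℤ) * Q : ℤ) : Eis) (Lf p q 2 r₁) +
          tm π.1 (((n : ℤ) * Q : ℤ) : Eis) (Lf p' q' 1 r₁) -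
          tm π.1 (((n : ℤ) * Q : ℤ) : Eis) (Lf p q 1 r₁) -
          tm π.1 (((n : ℤ) * Q : ℤ) : Eis) (Lf p' q' 2 r₁) + 0 = 0
        rw [tm_zero hnB (k1 2), tm_zero hnB (k2 1), tm_zero hnB (k1 1), tm_zero hnB (k2 2)]
        simp
      · rw [TT_some hLC, if_neg]
        rintro ⟨-, h1⟩
        apply h1
        rw [V_eq_zero (hd b db)]
        exact dvd_zero 3
  have hn_notin : (none : Pl) ∉ insert (some πQ) (hfin.toFinset.image some) := by
    simp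
  have hQ_notin : (some πQ : Pl) ∉ hfin.toFinset.image some := by
    intro h
    obtain ⟨y, hy, hy'⟩ := Finset.mem_image.1 h
    rw [Option.some.injEq] at hy'
    rw [hy'] at hy
    exact hQS hy
  have hsum : ∑ π ∈ hfin.toFinset, TT (some π) ((n : ℤ) * Q) b x p q p' q' =
      ∑ π ∈ hfin.toFinset, (c π + (Φ π (ZMod.unitOfCoprime Q hQ)).toAdd) := by
    refine Finset.sum_congr rfl ?_
    intro π hπ
    rw [Set.Finite.mem_toFinset] at hπ
    exact H π hπ Q hQ hQp hax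
  unfold OO
  rw [finsum_eq_sum_of_support_subset _ hsupp, Finset.sum_insert hn_notin,
    Finset.sum_insert hQ_notin, Finset.sum_image (fun _ _ _ _ h => Option.some_injective _ h),
    hsum, hTQ, H₀ Q hQ hQp hax, Finset.sum_add_distrib, MonoidHom.mul_apply,
    MonoidHom.finsetProd_apply, toAdd_mul, toAdd_prod]
  ring

end Pool.Agent.PT


end

section

/-!
# Prime twists of rank zero: module DENS (the density of the primes with nonsingular matrix)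
-/

open NumberField IsDedekindDomain Finset
open scoped nonZeroDivisors Pointwise

namespace Pool.Agent.PT

open Pool.Agent.Lib_helper18 Pool.Agent.Lib_helper18.Eis Pool.Agent.Lib_helper84.Cub

namespace DENS

/-! ### Cube roots modulo `Q = 2 (mod 3)` -/

lemma root_exists {Q : ℕ} (hQ : Q.Prime) (h3 : Q % 3 = 2) (b : ℤ) :
    ∃ r : ℤ, (Q : ℤ) ∣ r ^ 3 - b := by
  have : Fact Q.Prime := ⟨hQ⟩
  obtain ⟨k, hk⟩ : ∃ k, Q = 3 * k + 2 := ⟨Q / 3, by omega⟩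
  refine ⟨b ^ (2 * k + 1), ?_⟩
  have h : (b : ZMod Q) ^ (3 * k + 2) = b :=
    (congrArg (fun n => (b : ZMod Q) ^ n) hk).symm.trans (ZMod.pow_card (b : ZMod Q))
  have h1 : (((b ^ (2 * k + 1)) ^ 3 - b : ℤ) : ZMod Q) = 0 := by
    push_cast
    have h2 : ((b : ZMod Q) ^ (2 * k + 1)) ^ 3 =
        (b : ZMod Q) ^ (3 * k + 2) * (b : ZMod Q) ^ (3 * k + 1) := by ring
    rw [h2, h]
    have h3 : (b : ZMod Q) * (b : ZMod Q) ^ (3 * k + 1) = (b : ZMod Q) ^ (3 * k + 2) := by ring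
    rw [h3, h, sub_self]
  exact (ZMod.intCast_zmod_eq_zero_iff_dvd _ Q).mp h1

/-! ### Densities -/

lemma cls_eq (s : ℝ) {f : ℕ} (a : (ZMod f)ˣ) :
    ∑' q : {q : ℕ // q.Prime ∧ (q : ZMod f) = a}, (q : ℝ) ^ (-s) =
      ∑' n : ℕ, Set.indicator {q : ℕ | q.Prime ∧ (q : ZMod f) = a}
        (fun n : ℕ => (n : ℝ) ^ (-s)) n :=
  tsum_subtype {q : ℕ | q.Prime ∧ (q : ZMod f) = a} (fun n : ℕ => (n : ℝ) ^ (-s))

open RI.PD in
/-- Removing primes in finitely many residue classes. -/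
lemma dens_sub (hDIR : DIR) {f : ℕ} (hf : 0 < f) (𝒞 : Finset (ZMod f)ˣ) (F S : Set ℕ) (δ : ℝ)
    (hF : RI.DensityGE F δ)
    (hsub : ∀ q ∈ F, q.Prime → q ∉ S → ∃ a ∈ 𝒞, (q : ZMod f) = a) :
    RI.DensityGE S (δ - 𝒞.card / f.totient) := by
  classical
  obtain ⟨C, h⟩ := hF
  have hD : ∀ a : (ZMod f)ˣ, ∃ C : ℝ, ∀ s : ℝ, 1 < s → s ≤ 2 →
    ∑' q : {q : ℕ // q.Prime ∧ (q : ZMod f) = a}, (q : ℝ) ^ (-s) ≤
      (1 / (f.totient : ℝ)) * Real.log (1 / (s - 1)) + C := fun a => hDIR f a hf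
  choose D hD using hD
  refine ⟨C + ∑ a ∈ 𝒞, D a, fun s hs hs2 => ?_⟩
  have h1 := h s hs hs2
  rw [sub_eq] at h1 ⊢
  have hsum := summ hs
  have hSF := hsum.indicator {q : ℕ | q.Prime ∧ q ∈ F}
  have hSS := hsum.indicator {q : ℕ | q.Prime ∧ q ∈ S}
  have hSa : ∀ a ∈ 𝒞, Summable (Set.indicator {q : ℕ | q.Prime ∧ (q : ZMod f) = a}
      (fun n : ℕ => (n : ℝ) ^ (-s))) := fun a _ => hsum.indicator _
  have hpt : ∀ n : ℕ, Set.indicator {q : ℕ | q.Prime ∧ q ∈ F} (fun n : ℕ => (n : ℝ) ^ (-s)) n ≤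
      Set.indicator {q : ℕ | q.Prime ∧ q ∈ S} (fun n : ℕ => (n : ℝ) ^ (-s)) n +
        ∑ a ∈ 𝒞, Set.indicator {q : ℕ | q.Prime ∧ (q : ZMod f) = a}
          (fun n : ℕ => (n : ℝ) ^ (-s)) n := by
    intro n
    have h0 : ∀ a ∈ 𝒞, 0 ≤ Set.indicator {q : ℕ | q.Prime ∧ (q : ZMod f) = a}
        (fun n : ℕ => (n : ℝ) ^ (-s)) n :=
      fun a _ => Set.indicator_nonneg (fun x _ => term_nonneg s x) n
    have hS0 : 0 ≤ Set.indicator {q : ℕ | q.Prime ∧ q ∈ S} (fun n : ℕ => (n : ℝ) ^ (-s)) n :=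
      Set.indicator_nonneg (fun x _ => term_nonneg s x) n
    have hsum0 := Finset.sum_nonneg h0
    by_cases hn : n ∈ {q : ℕ | q.Prime ∧ q ∈ F}
    · rw [Set.indicator_of_mem hn]
      by_cases hnS : n ∈ S
      · have hnT : n ∈ {q : ℕ | q.Prime ∧ q ∈ S} := ⟨hn.1, hnS⟩
        rw [Set.indicator_of_mem hnT]
        linarith
      · obtain ⟨a, ha, hna⟩ := hsub n hn.2 hn.1 hnS
        have h2 := Finset.single_le_sum h0 ha
        have hna' : n ∈ {q : ℕ | q.Prime ∧ (q : ZMod f) = a} := ⟨hn.1, hna⟩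
        rw [Set.indicator_of_mem hna'] at h2
        linarith
    · rw [Set.indicator_of_notMem hn]
      linarith
  have h2 := hSF.tsum_le_tsum hpt (hSS.add (summable_sum hSa))
  rw [hSS.tsum_add (summable_sum hSa), Summable.tsum_finsetSum hSa] at h2
  have h3 : ∑ a ∈ 𝒞, ∑' n : ℕ, Set.indicator {q : ℕ | q.Prime ∧ (q : ZMod f) = a}
      (fun n : ℕ => (n : ℝ) ^ (-s)) n ≤
      ∑ a ∈ 𝒞, ((1 / (f.totient : ℝ)) * Real.log (1 / (s - 1)) + D a) := by
    refine Finset.sum_le_sum fun a _ => ?_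
    have h4 := hD a s hs hs2
    rwa [cls_eq] at h4
  rw [Finset.sum_add_distrib, Finset.sum_const, nsmul_eq_mul] at h3
  have h5 : (δ - (𝒞.card : ℝ) / f.totient) * Real.log (1 / (s - 1)) =
      δ * Real.log (1 / (s - 1)) -
        𝒞.card * (1 / (f.totient : ℝ) * Real.log (1 / (s - 1))) := by ring
  rw [h5]
  linarith

lemma dens_mono {S : Set ℕ} {δ δ' : ℝ} (h : RI.DensityGE S δ) (hδ : δ' ≤ δ) :
    RI.DensityGE S δ' := by
  obtain ⟨C, h⟩ := h
  refine ⟨C, fun s hs hs2 => le_trans ?_ (h s hs hs2)⟩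
  have h0 : 0 ≤ Real.log (1 / (s - 1)) := by
    apply Real.log_nonneg
    rw [le_div_iff₀ (by linarith)]
    linarith
  have h1 := mul_le_mul_of_nonneg_right hδ h0
  linarith

/-! ### The counts -/

lemma card_fib {G β : Type} [Finite G] [Fintype β] [DecidableEq β] (χ : G → β) (S : β → Prop)
    [DecidablePred S] (R : G → Prop) :
    Nat.card {g : G // S (χ g) ∧ R g} =
      ∑ a ∈ univ.filter S, Nat.card {g : G // χ g = a ∧ R g} := by
  classical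
  have := Fintype.ofFinite G
  simp only [Nat.card_eq_fintype_card, Fintype.card_subtype]
  rw [Finset.card_eq_sum_card_fiberwise (f := χ) (t := univ.filter S)]
  · refine Finset.sum_congr rfl fun a ha => ?_
    rw [Finset.filter_filter]
    congr 1
    ext g
    simp only [Finset.mem_filter, Finset.mem_univ, true_and] at ha ⊢
    constructor
    · rintro ⟨⟨_, h2⟩, h3⟩
      exact ⟨h3, h2⟩
    · rintro ⟨h3, h2⟩
      exact ⟨⟨h3 ▸ ha, h2⟩, h3⟩
  · intro g hg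
    simp only [Finset.coe_filter, Finset.mem_univ, true_and] at hg ⊢
    exact hg.1

/-- The data for the counts. -/
structure Dat {G : Type} [Group G] [Finite G] {s f m : ℕ} [NeZero f] (χ : G →* (ZMod f)ˣ)
    (t : G → Fin s → Fin s → ZMod 3) (K : (ZMod f)ˣ → Fin (m + 1) → ZMod 3) : Prop where
  hK : ∀ c : Fin (m + 1) → ZMod 3,
    Nat.card {a : (ZMod f)ˣ // M2 a ∧ K a = c} * (2 * 3 ^ (m + 1)) = f.totient
  hD : ∀ (a : (ZMod f)ˣ) (C : Fin s → Fin s → ZMod 3), M2 a →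
    8 * Nat.card {g : G // χ g = a ∧ (alt (C - t g)).det = 0} ≤
      3 * Nat.card {g : G // χ g = a} ∧
    8 * Nat.card {g : G // χ g = a ∧ (alt (C + t g)).det = 0} ≤
      3 * Nat.card {g : G // χ g = a} ∧
    Nat.card {g : G // χ g = a} * f.totient = Nat.card G

section counts

variable {G : Type} [Group G] [Finite G] {s f m : ℕ} [NeZero f] {χ : G →* (ZMod f)ˣ}
  {t : G → Fin s → Fin s → ZMod 3} {K : (ZMod f)ˣ → Fin (m + 1) → ZMod 3}

omit [Finite G] [NeZero f] in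
lemma card_true (a : (ZMod f)ˣ) :
    Nat.card {g : G // χ g = a ∧ True} = Nat.card {g : G // χ g = a} := by
  simp only [and_true]

omit [Finite G] [NeZero f] in
lemma card_true' (c : Fin (m + 1) → ZMod 3) :
    Nat.card {g : G // (M2 (χ g) ∧ K (χ g) = c) ∧ True} =
      Nat.card {g : G // M2 (χ g) ∧ K (χ g) = c} := by
  simp only [and_true]

lemma countN (h : Dat χ t K) (c : Fin (m + 1) → ZMod 3) :
    Nat.card {g : G // M2 (χ g) ∧ K (χ g) = c} * (2 * 3 ^ (m + 1)) = Nat.card G := by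
  classical
  have h1 := card_fib (G := G) (β := (ZMod f)ˣ) χ (fun a => M2 a ∧ K a = c) (fun _ => True)
  rw [card_true' c] at h1
  simp only [card_true] at h1
  have h2 : (∑ a ∈ univ.filter (fun a : (ZMod f)ˣ => M2 a ∧ K a = c),
      Nat.card {g : G // χ g = a}) * f.totient =
      Nat.card {a : (ZMod f)ˣ // M2 a ∧ K a = c} * Nat.card G := by
    rw [Finset.sum_mul, Nat.card_eq_fintype_card (α := {a : (ZMod f)ˣ // M2 a ∧ K a = c}),
      Fintype.card_subtype, ← smul_eq_mul (a := Finset.card _), ← Finset.sum_const]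
    refine Finset.sum_congr rfl fun a ha => ?_
    simp only [Finset.mem_filter, Finset.mem_univ, true_and] at ha
    exact (h.hD a 0 ha.1).2.2
  have h3 := h.hK c
  have hφ : 0 < f.totient := Nat.totient_pos.mpr (NeZero.pos f)
  apply Nat.eq_of_mul_eq_mul_right hφ
  rw [h1]
  calc (∑ a ∈ univ.filter (fun a : (ZMod f)ˣ => M2 a ∧ K a = c), Nat.card {g : G // χ g = a}) *
        (2 * 3 ^ (m + 1)) * f.totient =
      ((∑ a ∈ univ.filter (fun a : (ZMod f)ˣ => M2 a ∧ K a = c),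
        Nat.card {g : G // χ g = a}) * f.totient) * (2 * 3 ^ (m + 1)) := by ring
    _ = (Nat.card {a : (ZMod f)ˣ // M2 a ∧ K a = c} * (2 * 3 ^ (m + 1))) * Nat.card G := by
        rw [h2]; ring
    _ = Nat.card G * f.totient := by rw [h3]; ring

lemma countB (c : Fin (m + 1) → ZMod 3) (D : G → Prop)
    (D' : (ZMod f)ˣ → G → Prop) (hDD : ∀ g, D g ↔ D' (χ g) g)
    (hb : ∀ a, M2 a → 8 * Nat.card {g : G // χ g = a ∧ D' a g} ≤
      3 * Nat.card {g : G // χ g = a}) :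
    8 * Nat.card {g : G // (M2 (χ g) ∧ K (χ g) = c) ∧ D g} ≤
      3 * Nat.card {g : G // M2 (χ g) ∧ K (χ g) = c} := by
  classical
  have h1 := card_fib (G := G) (β := (ZMod f)ˣ) χ (fun a => M2 a ∧ K a = c) (fun _ => True)
  rw [card_true' c] at h1
  simp only [card_true] at h1
  have h2 := card_fib (G := G) (β := (ZMod f)ˣ) χ (fun a => M2 a ∧ K a = c) D
  rw [h1, h2, Finset.mul_sum, Finset.mul_sum]
  refine Finset.sum_le_sum fun a ha => ?_
  simp only [Finset.mem_filter, Finset.mem_univ, true_and] at ha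
  refine le_trans (le_of_eq ?_) (hb a ha.1)
  congr 1
  refine Nat.card_congr (Equiv.subtypeEquivRight fun g => ?_)
  constructor
  · rintro ⟨h3, h4⟩
    exact ⟨h3, h3 ▸ (hDD g).mp h4⟩
  · rintro ⟨h3, h4⟩
    exact ⟨h3, (hDD g).mpr (h3.symm ▸ h4)⟩

/-- The positive part: nonsingular elements with class `c`. -/
lemma countP (h : Dat χ t K) (c : Fin (m + 1) → ZMod 3) (D : G → Prop)
    (D' : (ZMod f)ˣ → G → Prop) (hDD : ∀ g, D g ↔ D' (χ g) g)
    (hb : ∀ a, M2 a → 8 * Nat.card {g : G // χ g = a ∧ D' a g} ≤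
      3 * Nat.card {g : G // χ g = a}) :
    5 * Nat.card G ≤ 8 * (2 * 3 ^ (m + 1)) *
      Nat.card {g : G // (M2 (χ g) ∧ K (χ g) = c) ∧ ¬ D g} := by
  classical
  have h1 := countB (K := K) c D D' hDD hb
  have h2 := countN h c
  have h3 : Nat.card {g : G // (M2 (χ g) ∧ K (χ g) = c) ∧ D g} +
      Nat.card {g : G // (M2 (χ g) ∧ K (χ g) = c) ∧ ¬ D g} =
      Nat.card {g : G // M2 (χ g) ∧ K (χ g) = c} := by
    have := Fintype.ofFinite G
    simp only [Nat.card_eq_fintype_card, Fintype.card_subtype]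
    have h5 := Finset.card_filter_add_card_filter_not
      (s := univ.filter (fun g => M2 (χ g) ∧ K (χ g) = c)) D
    rwa [Finset.filter_filter, Finset.filter_filter] at h5
  rw [← h2]
  have h4 : 5 * Nat.card {g : G // M2 (χ g) ∧ K (χ g) = c} ≤
      8 * Nat.card {g : G // (M2 (χ g) ∧ K (χ g) = c) ∧ ¬ D g} := by omega
  calc 5 * (Nat.card {g : G // M2 (χ g) ∧ K (χ g) = c} * (2 * 3 ^ (m + 1))) =
      5 * Nat.card {g : G // M2 (χ g) ∧ K (χ g) = c} * (2 * 3 ^ (m + 1)) := by ring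
    _ ≤ 8 * Nat.card {g : G // (M2 (χ g) ∧ K (χ g) = c) ∧ ¬ D g} * (2 * 3 ^ (m + 1)) :=
        Nat.mul_le_mul_right _ h4
    _ = 8 * (2 * 3 ^ (m + 1)) *
        Nat.card {g : G // (M2 (χ g) ∧ K (χ g) = c) ∧ ¬ D g} := by ring

/-- Both conditions at once. -/
lemma countPP (h : Dat χ t K) (c : Fin (m + 1) → ZMod 3) (D E : G → Prop)
    (D' E' : (ZMod f)ˣ → G → Prop) (hDD : ∀ g, D g ↔ D' (χ g) g) (hEE : ∀ g, E g ↔ E' (χ g) g)
    (hb : ∀ a, M2 a → 8 * Nat.card {g : G // χ g = a ∧ D' a g} ≤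
      3 * Nat.card {g : G // χ g = a})
    (hb' : ∀ a, M2 a → 8 * Nat.card {g : G // χ g = a ∧ E' a g} ≤
      3 * Nat.card {g : G // χ g = a}) :
    Nat.card G ≤ 4 * (2 * 3 ^ (m + 1)) *
      Nat.card {g : G // (M2 (χ g) ∧ K (χ g) = c) ∧ ¬ D g ∧ ¬ E g} := by
  classical
  have h1 := countB (K := K) c D D' hDD hb
  have h1' := countB (K := K) c E E' hEE hb'
  have h2 := countN h c
  have h3 : Nat.card {g : G // M2 (χ g) ∧ K (χ g) = c} ≤
      Nat.card {g : G // (M2 (χ g) ∧ K (χ g) = c) ∧ D g} +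
      Nat.card {g : G // (M2 (χ g) ∧ K (χ g) = c) ∧ E g} +
      Nat.card {g : G // (M2 (χ g) ∧ K (χ g) = c) ∧ ¬ D g ∧ ¬ E g} := by
    have := Fintype.ofFinite G
    simp only [Nat.card_eq_fintype_card, Fintype.card_subtype]
    refine le_trans (Finset.card_le_card ?_) (le_trans (Finset.card_union_le _ _)
      (Nat.add_le_add_right (Finset.card_union_le _ _) _))
    intro g hg
    simp only [Finset.mem_filter, Finset.mem_univ, true_and, Finset.mem_union] at hg ⊢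
    tauto
  rw [← h2]
  have h4 : Nat.card {g : G // M2 (χ g) ∧ K (χ g) = c} ≤
      4 * Nat.card {g : G // (M2 (χ g) ∧ K (χ g) = c) ∧ ¬ D g ∧ ¬ E g} := by omega
  calc Nat.card {g : G // M2 (χ g) ∧ K (χ g) = c} * (2 * 3 ^ (m + 1)) ≤
      4 * Nat.card {g : G // (M2 (χ g) ∧ K (χ g) = c) ∧ ¬ D g ∧ ¬ E g} * (2 * 3 ^ (m + 1)) :=
        Nat.mul_le_mul_right _ h4
    _ = 4 * (2 * 3 ^ (m + 1)) *
        Nat.card {g : G // (M2 (χ g) ∧ K (χ g) = c) ∧ ¬ D g ∧ ¬ E g} := by ring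

end counts

/-! ### Invariance -/

lemma alt_congr {s : ℕ} {v v' : Fin s → Fin s → ZMod 3} (h : ∀ j i, j < i → v j i = v' j i) :
    alt v = alt v' := by
  ext j i
  unfold alt
  split_ifs with h1 h2
  · exact h j i h1
  · rw [h i j h2]
  · rfl

lemma M2_iff {f : ℕ} [NeZero f] (h3 : 3 ∣ f) (a : (ZMod f)ˣ) :
    M2 a ↔ ZMod.castHom h3 (ZMod 3) (a : ZMod f) = 2 := by
  have h1 : ZMod.castHom h3 (ZMod 3) (a : ZMod f) = (((a : ZMod f).val : ℕ) : ZMod 3) := by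
    rw [ZMod.castHom_apply, ZMod.cast_eq_val]
  rw [h1]
  unfold M2
  have h2 : ((2 : ℕ) : ZMod 3) = 2 := rfl
  rw [← h2, ZMod.natCast_eq_natCast_iff']

lemma two_pow_even {k : ℕ} (hk : Even k) : (2 : ZMod 3) ^ k = 1 := by
  obtain ⟨l, rfl⟩ := hk
  rw [← two_mul, pow_mul]
  have : (2 : ZMod 3) ^ 2 = 1 := by decide
  rw [this, one_pow]

lemma two_pow_odd {k : ℕ} (hk : Odd k) : (2 : ZMod 3) ^ k = 2 := by
  obtain ⟨l, rfl⟩ := hk
  rw [pow_succ, two_pow_even (even_two_mul l), one_mul]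

section inv

variable {G : Type} [Group G] [Finite G] {s f m : ℕ} [NeZero f] {χ : G →* (ZMod f)ˣ}
  {t : G → Fin s → Fin s → ZMod 3} {κ : (ZMod f)ˣ →* Multiplicative (Fin (m + 1) → ZMod 3)}
  {Φ : (ZMod f)ˣ →* Multiplicative (Fin s → Fin s → ZMod 3)}

lemma exps (h3 : 3 ∣ f) {g h : G} (hg : M2 (χ g)) (hz : Subgroup.zpowers h = Subgroup.zpowers g) :
    ∃ k l : ℕ, g ^ k = h ∧ h ^ l = g ∧ Odd k ∧ Odd l ∧ M2 (χ h) := by
  obtain ⟨k, hk⟩ : ∃ k : ℕ, g ^ k = h := by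
    have h1 : h ∈ Subgroup.zpowers g := hz ▸ Subgroup.mem_zpowers h
    exact mem_powers_iff_mem_zpowers.mpr h1
  obtain ⟨l, hl⟩ : ∃ l : ℕ, h ^ l = g := by
    have h1 : g ∈ Subgroup.zpowers h := hz ▸ Subgroup.mem_zpowers g
    exact mem_powers_iff_mem_zpowers.mpr h1
  rw [M2_iff h3] at hg
  have e1 : ZMod.castHom h3 (ZMod 3) ((χ h : (ZMod f)ˣ) : ZMod f) = 2 ^ k := by
    rw [← hk, map_pow, Units.val_pow_eq_pow_val, map_pow, hg]
  have e2 : (2 : ZMod 3) = (2 ^ k) ^ l := by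
    rw [← e1, ← map_pow, ← Units.val_pow_eq_pow_val, ← map_pow, hl, hg]
  have hodd : Odd k := by
    by_contra hc
    rw [Nat.not_odd_iff_even] at hc
    rw [two_pow_even hc, one_pow] at e2
    exact absurd e2 (by decide)
  rw [two_pow_odd hodd] at e1 e2
  have hodd' : Odd l := by
    by_contra hc
    rw [Nat.not_odd_iff_even] at hc
    rw [two_pow_even hc] at e2
    exact absurd e2 (by decide)
  exact ⟨k, l, hk, hl, hodd, hodd', (M2_iff h3 _).mpr e1⟩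

/-- Generators of conjugate cyclic subgroups have the same data up to a common sign. -/
lemma inv_main (h3 : 3 ∣ f)
    (hconj : ∀ g τ : G, M2 (χ g) → ∀ j i, j ≠ i → t (τ * g * τ⁻¹) j i = t g j i)
    (hpow : ∀ (g : G) (k : ℕ), M2 (χ g) → Odd k → ∀ j i, j ≠ i → t (g ^ k) j i = k * t g j i)
    {g h τ : G} (hg : M2 (χ g)) (hz : Subgroup.zpowers h = Subgroup.zpowers (τ * g * τ⁻¹)) :
    M2 (χ h) ∧
    (((κ (χ h)).toAdd = (κ (χ g)).toAdd ∧ (Φ (χ h)).toAdd = (Φ (χ g)).toAdd ∧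
        ∀ j i, j ≠ i → t h j i = t g j i) ∨
      ((κ (χ h)).toAdd = - (κ (χ g)).toAdd ∧ (Φ (χ h)).toAdd = - (Φ (χ g)).toAdd ∧
        ∀ j i, j ≠ i → t h j i = - t g j i)) := by
  have hχ : χ (τ * g * τ⁻¹) = χ g := by
    rw [map_mul, map_mul, map_inv, mul_comm (χ τ) (χ g), mul_inv_cancel_right]
  have hg' : M2 (χ (τ * g * τ⁻¹)) := by rw [hχ]; exact hg
  obtain ⟨k, l, hk, hl, hkodd, hlodd, hM⟩ := exps h3 hg' hz
  refine ⟨hM, ?_⟩
  have c1 : χ h = χ g ^ k := by rw [← hk, map_pow, hχ]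
  have c2 : χ g = χ h ^ l := by rw [← map_pow, hl, hχ]
  have k1 : (κ (χ h)).toAdd = k • (κ (χ g)).toAdd := by rw [c1, map_pow, toAdd_pow]
  have k2 : (κ (χ g)).toAdd = l • (κ (χ h)).toAdd := by
    rw [← toAdd_pow, ← map_pow, ← c2]
  have p1 : (Φ (χ h)).toAdd = k • (Φ (χ g)).toAdd := by rw [c1, map_pow, toAdd_pow]
  have p2 : (Φ (χ g)).toAdd = l • (Φ (χ h)).toAdd := by
    rw [← toAdd_pow, ← map_pow, ← c2]
  have t1 : ∀ j i, j ≠ i → t h j i = k * t g j i := by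
    intro j i hji
    rw [← hk, hpow _ k hg' hkodd j i hji, hconj g τ hg j i hji]
  have t2 : ∀ j i, j ≠ i → t g j i = l * t h j i := by
    intro j i hji
    rw [← hpow h l hM hlodd j i hji, hl, hconj g τ hg j i hji]
  rw [← Nat.cast_smul_eq_nsmul (ZMod 3)] at k1 k2 p1 p2
  have hcases : (k : ZMod 3) = 0 ∨ (k : ZMod 3) = 1 ∨ (k : ZMod 3) = -1 := by
    generalize (k : ZMod 3) = x
    revert x
    decide
  rcases hcases with hk0 | hk1 | hk2
  · left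
    rw [hk0] at k1 p1
    rw [zero_smul] at k1 p1
    rw [k1, smul_zero] at k2
    rw [p1, smul_zero] at p2
    refine ⟨k1.trans k2.symm, p1.trans p2.symm, fun j i hji => ?_⟩
    have h1 := t1 j i hji
    have h2 := t2 j i hji
    rw [hk0, zero_mul] at h1
    rw [h1, mul_zero] at h2
    exact h1.trans h2.symm
  · left
    rw [hk1, one_smul] at k1 p1
    refine ⟨k1, p1, fun j i hji => ?_⟩
    rw [t1 j i hji, hk1, one_mul]
  · right
    rw [hk2, neg_smul, one_smul] at k1 p1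
    refine ⟨k1, p1, fun j i hji => ?_⟩
    rw [t1 j i hji, hk2, neg_mul, one_mul]

end inv

/-! ### The final step -/

/-- The data of the governing field (`GALD`). -/
structure Gov {s : ℕ} (b : Fin s → ℤ) (p q p' q' : Fin s → Fin s → ℤ) (f : ℕ)
    (L : Type) [Field L] [NumberField L] (χ : (L ≃ₐ[ℚ] L) →* (ZMod f)ˣ)
    (t : (L ≃ₐ[ℚ] L) → Fin s → Fin s → ZMod 3) (N₀ : ℕ) : Prop where
  hconj : ∀ g τ : L ≃ₐ[ℚ] L, M2 (χ g) → ∀ j i, j ≠ i → t (τ * g * τ⁻¹) j i = t g j i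
  hpow : ∀ (g : L ≃ₐ[ℚ] L) (k : ℕ), M2 (χ g) → Odd k → ∀ j i, j ≠ i →
    t (g ^ k) j i = k * t g j i
  hfrob : ∀ (Q : ℕ) (hQ : Q.Coprime f), Q.Prime → N₀ < Q → ∀ (P : Ideal (𝓞 L))
      (g : L ≃ₐ[ℚ] L), P.IsPrime → (Q : 𝓞 L) ∈ P →
      MulAction.stabilizer (L ≃ₐ[ℚ] L) P = Subgroup.zpowers g →
      ∃ k : ℕ, k.Coprime (orderOf g) ∧ χ (g ^ k) = ZMod.unitOfCoprime Q hQ ∧
        (Q % 3 = 2 → ∀ j i, j ≠ i → ∀ r : ℤ, (Q : ℤ) ∣ r ^ 3 - b j →
          t (g ^ k) j i = TAUV Q (p j i) (q j i) (p' j i) (q' j i) r)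

section final

variable {s : ℕ} {b : Fin s → ℤ} {p q p' q' : Fin s → Fin s → ℤ} {f : ℕ}
    {L : Type} [Field L] [NumberField L] {χ : (L ≃ₐ[ℚ] L) →* (ZMod f)ˣ}
    {t : (L ≃ₐ[ℚ] L) → Fin s → Fin s → ZMod 3} {N₀ : ℕ}

lemma zp {G : Type} [Group G] {g : G} {k : ℕ} (hk : k.Coprime (orderOf g)) :
    Subgroup.zpowers (g ^ k) = Subgroup.zpowers g := by
  apply le_antisymm
  · rw [Subgroup.zpowers_le]
    exact Subgroup.npow_mem_zpowers g k
  · rw [Subgroup.zpowers_le]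
    obtain ⟨l, hl⟩ := exists_pow_eq_self_of_coprime hk
    have h1 := Subgroup.npow_mem_zpowers (g ^ k) l
    rwa [hl] at h1

/-- The primes with decomposition group generated by an element of an invariant set. -/
lemma frob_step (hG : Gov b p q p' q' f L χ t N₀) (hf : 0 < f) (T : Set (L ≃ₐ[ℚ] L))
    (hT : ∀ g h τ : L ≃ₐ[ℚ] L, g ∈ T → Subgroup.zpowers h = Subgroup.zpowers (τ * g * τ⁻¹) →
      h ∈ T) {Q : ℕ} (hQ : Q.Prime) (hN : N₀ < Q) (hfQ : f < Q)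
    (hF : ∃ g ∈ T, ∃ P : Ideal (𝓞 L), P.IsPrime ∧ (Q : 𝓞 L) ∈ P ∧
      MulAction.stabilizer (L ≃ₐ[ℚ] L) P = Subgroup.zpowers g) :
    ∃ (hc : Q.Coprime f) (φ : L ≃ₐ[ℚ] L), φ ∈ T ∧ χ φ = ZMod.unitOfCoprime Q hc ∧
      (Q % 3 = 2 → ∀ j i, j ≠ i → ∀ r : ℤ, (Q : ℤ) ∣ r ^ 3 - b j →
          t φ j i = TAUV Q (p j i) (q j i) (p' j i) (q' j i) r) := by
  obtain ⟨g, hg, P, hP, hQP, hst⟩ := hF
  have hc : Q.Coprime f := by
    rw [Nat.Prime.coprime_iff_not_dvd hQ]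
    intro hd
    have := Nat.le_of_dvd hf hd
    omega
  obtain ⟨k, hk, h1, h2⟩ := hG.hfrob Q hc hQ hN P g hP hQP hst
  refine ⟨hc, g ^ k, ?_, h1, h2⟩
  refine hT g (g ^ k) 1 hg ?_
  rw [one_mul, inv_one, mul_one]
  exact zp hk

/-- The set of the theorem. -/
def SS (b : Fin s → ℤ) (p q p' q' : Fin s → Fin s → ℤ) (f : ℕ) {m : ℕ}
    (κ : (ZMod f)ˣ →* Multiplicative (Fin (m + 1) → ZMod 3)) (c : Fin (m + 1) → ZMod 3)
    (C : Fin s → Fin s → ZMod 3) (Φ : (ZMod f)ˣ →* Multiplicative (Fin s → Fin s → ZMod 3)) :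
    Set ℕ :=
  {Q : ℕ | ∃ hQ : Q.Coprime f, Q % 3 = 2 ∧
    (κ (ZMod.unitOfCoprime Q hQ)).toAdd = c ∧
    ∀ τ : Fin s → Fin s → ZMod 3,
      (∀ j i, j ≠ i → ∀ r : ℤ, (Q : ℤ) ∣ r ^ 3 - b j →
        τ j i = TAUV Q (p j i) (q j i) (p' j i) (q' j i) r) →
      (alt (C + (Φ (ZMod.unitOfCoprime Q hQ)).toAdd - τ)).det ≠ 0}

variable {m : ℕ} {κ : (ZMod f)ˣ →* Multiplicative (Fin (m + 1) → ZMod 3)}
  {c : Fin (m + 1) → ZMod 3} {C : Fin s → Fin s → ZMod 3}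
  {Φ : (ZMod f)ˣ →* Multiplicative (Fin s → Fin s → ZMod 3)}

lemma mem_SS {Q : ℕ} (hQ : Q.Prime) (h3 : Q % 3 = 2) (hc : Q.Coprime f) {φ : L ≃ₐ[ℚ] L}
    (hφ : χ φ = ZMod.unitOfCoprime Q hc)
    (ht : ∀ j i, j ≠ i → ∀ r : ℤ, (Q : ℤ) ∣ r ^ 3 - b j →
          t φ j i = TAUV Q (p j i) (q j i) (p' j i) (q' j i) r)
    (hκ : (κ (χ φ)).toAdd = c) (hdet : ¬ (alt (C + (Φ (χ φ)).toAdd - t φ)).det = 0) :
    Q ∈ SS b p q p' q' f κ c C Φ := by
  rw [hφ] at hκ hdet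
  refine ⟨hc, h3, hκ, fun τ hτ hd => hdet ?_⟩
  rw [← hd]
  congr 1
  refine alt_congr fun j i hji => ?_
  obtain ⟨r, hr⟩ := root_exists hQ h3 (b j)
  simp only [Pi.sub_apply]
  rw [ht j i hji.ne r hr, hτ j i hji.ne r hr]

lemma M2_Q {Q : ℕ} (h3 : 3 ∣ f) (hc : Q.Coprime f) (h : M2 (ZMod.unitOfCoprime Q hc)) :
    Q % 3 = 2 := by
  unfold M2 at h
  rw [ZMod.coe_unitOfCoprime, ZMod.val_natCast, Nat.mod_mod_of_dvd _ h3] at h
  exact h

/-- Transfer of the conditions. -/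
lemma det_same {t₁ t₂ P₁ P₂ : Fin s → Fin s → ZMod 3} (hP : P₁ = P₂)
    (ht : ∀ j i, j ≠ i → t₁ j i = t₂ j i) :
    alt (C + P₁ - t₁) = alt (C + P₂ - t₂) ∧ alt (C - P₁ + t₁) = alt (C - P₂ + t₂) := by
  subst hP
  refine ⟨alt_congr fun j i hji => ?_, alt_congr fun j i hji => ?_⟩
  · simp only [Pi.sub_apply, Pi.add_apply, ht j i hji.ne]
  · simp only [Pi.sub_apply, Pi.add_apply, ht j i hji.ne]

lemma det_opp {t₁ t₂ P₁ P₂ : Fin s → Fin s → ZMod 3} (hP : P₁ = -P₂)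
    (ht : ∀ j i, j ≠ i → t₁ j i = - t₂ j i) :
    alt (C + P₁ - t₁) = alt (C - P₂ + t₂) ∧ alt (C - P₁ + t₁) = alt (C + P₂ - t₂) := by
  subst hP
  refine ⟨alt_congr fun j i hji => ?_, alt_congr fun j i hji => ?_⟩
  · simp only [Pi.sub_apply, Pi.add_apply, Pi.neg_apply, ht j i hji.ne]
    ring
  · simp only [Pi.sub_apply, Pi.add_apply, Pi.neg_apply, ht j i hji.ne]
    ring

end final

end DENS

open _root_.Pool.Agent.PT.DENS in
theorem DENS_thm (hGALD : GALD) (hDCNT : DCNT) (hDIR : DIR) : DENS := by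
  classical
  intro s b p q p' q' f m κ c C Φ hSys hs hf h9 hK
  have : NeZero f := ⟨hf.ne'⟩
  have h3f : 3 ∣ f := dvd_trans (by norm_num) h9
  obtain ⟨L, iF, iN, iG, χ, t, N₀, hsurj, hconj, hpow, hcnt, hfrob⟩ :=
    hGALD s b p q p' q' f hSys hf h9
  have hG : Gov b p q p' q' f L χ t N₀ := ⟨hconj, hpow, hfrob⟩
  have hDat : Dat χ t (fun a => (κ a).toAdd) := ⟨hK, hDCNT s f _ χ t hs hf hsurj hcnt⟩
  change RI.DensityGE (SS b p q p' q' f κ c C Φ) (1 / (24 * 3 ^ m))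
  have hGpos : 0 < Nat.card (L ≃ₐ[ℚ] L) := Nat.card_pos
  have hb1 : ∀ a, M2 a → 8 * Nat.card {g : L ≃ₐ[ℚ] L // χ g = a ∧
      (alt (C + (Φ a).toAdd - t g)).det = 0} ≤ 3 * Nat.card {g : L ≃ₐ[ℚ] L // χ g = a} :=
    fun a ha => (hDat.hD a (C + (Φ a).toAdd) ha).1
  have hb2 : ∀ a, M2 a → 8 * Nat.card {g : L ≃ₐ[ℚ] L // χ g = a ∧
      (alt (C - (Φ a).toAdd + t g)).det = 0} ≤ 3 * Nat.card {g : L ≃ₐ[ℚ] L // χ g = a} :=
    fun a ha => (hDat.hD a (C - (Φ a).toAdd) ha).2.1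
  by_cases hc0 : c = 0
  · subst hc0
    let T : Set (L ≃ₐ[ℚ] L) := {g | (M2 (χ g) ∧ (κ (χ g)).toAdd = 0) ∧
      ¬ (alt (C + (Φ (χ g)).toAdd - t g)).det = 0 ∧
      ¬ (alt (C - (Φ (χ g)).toAdd + t g)).det = 0}
    have hT : ∀ g h τ : L ≃ₐ[ℚ] L, g ∈ T →
        Subgroup.zpowers h = Subgroup.zpowers (τ * g * τ⁻¹) → h ∈ T := by
      rintro g h τ ⟨⟨hM, hκ⟩, hd1, hd2⟩ hz
      obtain ⟨hM', hh⟩ := inv_main (κ := κ) (Φ := Φ) h3f hconj hpow hM hz
      rcases hh with ⟨e1, e2, e3⟩ | ⟨e1, e2, e3⟩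
      · obtain ⟨d1, d2⟩ := det_same (C := C) e2 e3
        refine ⟨⟨hM', e1.trans hκ⟩, ?_, ?_⟩
        · rw [d1]; exact hd1
        · rw [d2]; exact hd2
      · obtain ⟨d1, d2⟩ := det_opp (C := C) e2 e3
        refine ⟨⟨hM', by rw [e1, hκ, neg_zero]⟩, ?_, ?_⟩
        · rw [d1]; exact hd2
        · rw [d2]; exact hd1
    have hcard := countPP hDat 0 (fun g => (alt (C + (Φ (χ g)).toAdd - t g)).det = 0)
      (fun g => (alt (C - (Φ (χ g)).toAdd + t g)).det = 0)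
      (fun a g => (alt (C + (Φ a).toAdd - t g)).det = 0)
      (fun a g => (alt (C - (Φ a).toAdd + t g)).det = 0)
      (fun g => Iff.rfl) (fun g => Iff.rfl) hb1 hb2
    have hF := RI.FROBD_thm L T hT
    have hF2 := RI.PDGE_thm _ (SS b p q p' q' f κ 0 C Φ) (Finset.range (N₀ + f + 1)) _ hF (by
      rintro Q hQF hQ hQA
      rw [Finset.mem_range, not_lt] at hQA
      obtain ⟨hc, φ, hφT, hφ, ht⟩ := frob_step hG hf T hT hQ (by omega) (by omega) hQF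
      have hQ3 : Q % 3 = 2 := M2_Q h3f hc (hφ ▸ hφT.1.1)
      exact mem_SS hQ hQ3 hc hφ (ht hQ3) hφT.1.2 hφT.2.1)
    refine dens_mono hF2 ?_
    have h1 : (Nat.card (L ≃ₐ[ℚ] L) : ℝ) ≤ 4 * (2 * 3 ^ (m + 1)) * Nat.card T := by
      exact_mod_cast hcard
    rw [div_le_div_iff₀ (by positivity) (by exact_mod_cast hGpos)]
    rw [pow_succ] at h1
    linarith
  · let T : Set (L ≃ₐ[ℚ] L) := {g | ((M2 (χ g) ∧ (κ (χ g)).toAdd = c) ∧
      ¬ (alt (C + (Φ (χ g)).toAdd - t g)).det = 0) ∨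
      ((M2 (χ g) ∧ (κ (χ g)).toAdd = -c) ∧
      ¬ (alt (C - (Φ (χ g)).toAdd + t g)).det = 0)}
    have hT : ∀ g h τ : L ≃ₐ[ℚ] L, g ∈ T →
        Subgroup.zpowers h = Subgroup.zpowers (τ * g * τ⁻¹) → h ∈ T := by
      rintro g h τ hg hz
      have hM : M2 (χ g) := by
        rcases hg with ⟨⟨hM, -⟩, -⟩ | ⟨⟨hM, -⟩, -⟩ <;> exact hM
      obtain ⟨hM', hh⟩ := inv_main (κ := κ) (Φ := Φ) h3f hconj hpow hM hz
      rcases hh with ⟨e1, e2, e3⟩ | ⟨e1, e2, e3⟩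
      · obtain ⟨d1, d2⟩ := det_same (C := C) e2 e3
        rcases hg with ⟨⟨-, hκ⟩, hd⟩ | ⟨⟨-, hκ⟩, hd⟩
        · left
          refine ⟨⟨hM', e1.trans hκ⟩, ?_⟩
          rw [d1]; exact hd
        · right
          refine ⟨⟨hM', e1.trans hκ⟩, ?_⟩
          rw [d2]; exact hd
      · obtain ⟨d1, d2⟩ := det_opp (C := C) e2 e3
        rcases hg with ⟨⟨-, hκ⟩, hd⟩ | ⟨⟨-, hκ⟩, hd⟩
        · right
          refine ⟨⟨hM', by rw [e1, hκ]⟩, ?_⟩
          rw [d2]; exact hd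
        · left
          refine ⟨⟨hM', by rw [e1, hκ, neg_neg]⟩, ?_⟩
          rw [d1]; exact hd
    have hcard1 := countP hDat c (fun g => (alt (C + (Φ (χ g)).toAdd - t g)).det = 0)
      (fun a g => (alt (C + (Φ a).toAdd - t g)).det = 0) (fun g => Iff.rfl) hb1
    have hcard2 := countP hDat (-c) (fun g => (alt (C - (Φ (χ g)).toAdd + t g)).det = 0)
      (fun a g => (alt (C - (Φ a).toAdd + t g)).det = 0) (fun g => Iff.rfl) hb2
    have hne : c ≠ -c := by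
      intro h
      apply hc0
      ext i
      have h1 := congrFun h i
      rw [Pi.neg_apply] at h1
      rw [Pi.zero_apply]
      revert h1
      generalize c i = x
      revert x
      decide
    have hcardT : Nat.card T = Nat.card {g : L ≃ₐ[ℚ] L // (M2 (χ g) ∧ (κ (χ g)).toAdd = c) ∧
        ¬ (alt (C + (Φ (χ g)).toAdd - t g)).det = 0} +
        Nat.card {g : L ≃ₐ[ℚ] L // (M2 (χ g) ∧ (κ (χ g)).toAdd = -c) ∧
        ¬ (alt (C - (Φ (χ g)).toAdd + t g)).det = 0} := by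
      have := Fintype.ofFinite (L ≃ₐ[ℚ] L)
      change Nat.card {g : L ≃ₐ[ℚ] L // ((M2 (χ g) ∧ (κ (χ g)).toAdd = c) ∧
      ¬ (alt (C + (Φ (χ g)).toAdd - t g)).det = 0) ∨
      ((M2 (χ g) ∧ (κ (χ g)).toAdd = -c) ∧
      ¬ (alt (C - (Φ (χ g)).toAdd + t g)).det = 0)} = _
      simp only [Nat.card_eq_fintype_card, Fintype.card_subtype]
      rw [Finset.filter_or, Finset.card_union_of_disjoint]
      rw [Finset.disjoint_filter]
      rintro g - ⟨⟨-, h1⟩, -⟩ ⟨⟨-, h2⟩, -⟩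
      exact hne (h1.symm.trans h2)
    have hF := RI.FROBD_thm L T hT
    have hF2 := RI.PDGE_thm _ {Q : ℕ | Q ∈ SS b p q p' q' f κ c C Φ ∨
        ∃ a ∈ univ.filter (fun a : (ZMod f)ˣ => M2 a ∧ (κ a).toAdd = -c), (Q : ZMod f) = a}
      (Finset.range (N₀ + f + 1)) _ hF (by
      rintro Q hQF hQ hQA
      rw [Finset.mem_range, not_lt] at hQA
      obtain ⟨hc, φ, hφT, hφ, ht⟩ := frob_step hG hf T hT hQ (by omega) (by omega) hQF
      have hM : M2 (χ φ) := by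
        rcases hφT with ⟨⟨hM, -⟩, -⟩ | ⟨⟨hM, -⟩, -⟩ <;> exact hM
      have hQ3 : Q % 3 = 2 := M2_Q h3f hc (hφ ▸ hM)
      rcases hφT with ⟨⟨-, hκ⟩, hd⟩ | ⟨⟨-, hκ⟩, hd⟩
      · left
        exact mem_SS hQ hQ3 hc hφ (ht hQ3) hκ hd
      · right
        refine ⟨χ φ, ?_, ?_⟩
        · rw [Finset.mem_filter]
          exact ⟨Finset.mem_univ _, hM, hκ⟩
        · rw [hφ, ZMod.coe_unitOfCoprime])
    have hF3 := dens_sub hDIR hf (univ.filter (fun a : (ZMod f)ˣ => M2 a ∧ (κ a).toAdd = -c)) _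
      (SS b p q p' q' f κ c C Φ) _ hF2 (by
      rintro Q hQ1 - hQ2
      exact hQ1.resolve_left hQ2)
    refine dens_mono hF3 ?_
    have hφ : 0 < f.totient := Nat.totient_pos.mpr hf
    have hKc := hK (-c)
    rw [Nat.card_eq_fintype_card, Fintype.card_subtype] at hKc
    have e1 : ((univ.filter (fun a : (ZMod f)ˣ => M2 a ∧ (κ a).toAdd = -c)).card : ℝ) /
        f.totient = 1 / (2 * 3 ^ (m + 1)) := by
      rw [div_eq_div_iff (by exact_mod_cast hφ.ne') (by positivity), one_mul]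
      exact_mod_cast hKc
    rw [e1]
    have h1 : (5 : ℝ) * (Nat.card (L ≃ₐ[ℚ] L) : ℝ) ≤ 8 * 3 ^ (m + 1) * Nat.card T := by
      have h2 : 10 * Nat.card (L ≃ₐ[ℚ] L) ≤ 8 * (2 * 3 ^ (m + 1)) * Nat.card T := by
        rw [hcardT, mul_add]
        omega
      have h4 : (10 : ℝ) * (Nat.card (L ≃ₐ[ℚ] L) : ℝ) ≤ 8 * (2 * 3 ^ (m + 1)) * Nat.card T := by
        exact_mod_cast h2
      linarith
    have h2 : (5 : ℝ) / (8 * 3 ^ (m + 1)) ≤ (Nat.card T : ℝ) / Nat.card (L ≃ₐ[ℚ] L) := by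
      rw [div_le_div_iff₀ (by positivity) (by exact_mod_cast hGpos)]
      linarith
    have h5 : (1 : ℝ) / (24 * 3 ^ m) = 5 / (8 * 3 ^ (m + 1)) - 1 / (2 * 3 ^ (m + 1)) := by
      have h6 : (3 : ℝ) ^ m ≠ 0 := by positivity
      rw [pow_succ]
      field_simp
      norm_num
    rw [h5]
    linarith

end Pool.Agent.PT


end

section

/-!
# Prime twists of rank zero: the class and the system
-/

set_option autoImplicit false

namespace Pool.Agent.PT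

open Pool.Agent.Lib_helper18 Pool.Agent.Lib_helper18.Eis Pool.Agent.Lib_helper84.Cub

namespace ECL

lemma wt_ne {r : ℕ} (h : r % 9 = 2 ∨ r % 9 = 5) : wt ((r : ℤ) ^ 2) ≠ 0 := by
  have h3 : (3 : ZMod 3) = 0 := rfl
  rcases h with h | h
  · obtain ⟨t, ht⟩ : ∃ t : ℕ, r = 9 * t + 2 := ⟨r / 9, by omega⟩
    have e : (r : ℤ) ^ 2 = 1 + 3 * (27 * (t : ℤ) ^ 2 + 12 * t + 1) := by
      rw [ht]
      push_cast
      ring
    rw [wt_eq e]
    have e2 : ((27 * (t : ℤ) ^ 2 + 12 * t + 1 : ℤ) : ZMod 3) = 1 := by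
      push_cast
      linear_combination (9 * (t : ZMod 3) ^ 2 + 4 * t) * h3
    rw [e2]
    decide
  · obtain ⟨t, ht⟩ : ∃ t : ℕ, r = 9 * t + 5 := ⟨r / 9, by omega⟩
    have e : (r : ℤ) ^ 2 = 1 + 3 * (27 * (t : ℤ) ^ 2 + 30 * t + 8) := by
      rw [ht]
      push_cast
      ring
    rw [wt_eq e]
    have e2 : ((27 * (t : ℤ) ^ 2 + 30 * t + 8 : ℤ) : ZMod 3) = 2 := by
      push_cast
      linear_combination (9 * (t : ZMod 3) ^ 2 + 10 * t + 2) * h3
    rw [e2]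
    decide

/-- a rational cube that is an integer is a cube -/
lemma cube_of {z u t : ℤ} (hu : u ≠ 0) (h : z * u ^ 3 = t ^ 3) : ∃ m : ℤ, m ^ 3 = z := by
  have h1 : u ^ 3 ∣ t ^ 3 := ⟨z, by rw [← h]; ring⟩
  have h2 : u ∣ t := (Int.pow_dvd_pow_iff (by norm_num)).1 h1
  obtain ⟨m, hm⟩ := h2
  refine ⟨m, ?_⟩
  have h3 : z * u ^ 3 = m ^ 3 * u ^ 3 := by rw [h, hm]; ring
  exact (mul_right_cancel₀ (pow_ne_zero 3 hu) h3).symm

/-- the determinant vanishes -/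
lemma point_det (hEHYP : EHYP) (hEADM : EADM) (hFD1 : FD1) (hFD2 : FD2) (hTEND : TEND)
    {n m k : ℕ} {π : Fin m → PP} {p e : Fin m → ℕ} {r f : Fin k → ℕ} (hNF : NF n π p e r f)
    {w0 : ZMod 3} {c : Fin m → ZMod 3} {j0 : Option (Fin k)}
    (h0 : j0 = none → wt ((n : ℤ) ^ 2) + w0 ≠ 0) (hdet : (Mm n π e r j0 c).det ≠ 0)
    {s : ℕ} {b : Fin s → ℤ} (hAdm : ∀ i, AdmC n π w0 c (b i))
    (hgen : ∀ x : ℤ, AdmC n π w0 c x → ∃ (g : Fin s → ℕ) (u v : ℤ), u ≠ 0 ∧ v ≠ 0 ∧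
      x * u ^ 3 = (∏ i, b i ^ g i) * v ^ 3)
    {P Q P' Q' : Fin s → Fin s → ℤ} (hSys : Sys b P Q P' Q') (q : ℕ) (hq : q.Prime)
    (hIn : InCl π w0 c q) (hqn : ¬ q ∣ n) (hq3 : 3 < q) :
    (∀ i, Adm ((n : ℤ) * q) (b i)) ∧ BOk ((n : ℤ) * q) ∧
      ((∃ X Y : ℚ, X ^ 3 + Y ^ 3 = (n : ℚ) * q) → (Mat b P Q P' Q' ((n : ℤ) * q)).det = 0) := by
  obtain ⟨hB, hE⟩ := hEADM n m k π p e r f w0 c q hNF hq hIn hqn
  have hA : ∀ i, Adm ((n : ℤ) * q) (b i) := fun i => (hE _ (hAdm i).supp).1 (hAdm i)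
  refine ⟨hA, hB, ?_⟩
  rintro ⟨X, Y, hXY⟩
  have hn0 : 0 < n := by
    rcases Nat.eq_zero_or_pos n with h | h
    · exact absurd (by rw [h]; exact dvd_zero q) hqn
    · exact h
  have h3 : 3 ≤ |(n : ℤ) * q| := by
    have h1 : (3 : ℤ) ≤ (n : ℤ) * q := by
      have h2 : 3 ≤ n * q := by nlinarith
      exact_mod_cast h2
    exact h1.trans (le_abs_self _)
  have hH : HypM ((n : ℤ) * q) := hEHYP n m k π p e r f w0 c j0 q hNF hq hIn hqn h0 hdet
  obtain ⟨a, x, hC⟩ := hFD1 ((n : ℤ) * q) hB h3 hH ⟨X, Y, by rw [hXY]; push_cast; ring⟩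
  obtain ⟨z, X1, Y1, hPt, hAz, hsupp, hcube⟩ := hFD2 n q a x hq hIn.1 hqn hn0 hB hC
  obtain ⟨g, u, v, hu, hv, hg⟩ := hgen z ((hE z hsupp).2 hAz)
  set W : ℤ := ∏ i, b i ^ g i with hW
  have hex : ∃ i, ¬ 3 ∣ g i := by
    by_contra hcon
    push Not at hcon
    choose g' hg' using hcon
    apply hcube
    have h1 : z * u ^ 3 = ((∏ i, b i ^ g' i) * v) ^ 3 := by
      rw [hg, hW, mul_pow, ← Finset.prod_pow]
      congr 1
      refine Finset.prod_congr rfl fun i _ => ?_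
      rw [← pow_mul, hg' i, mul_comm]
    exact cube_of hu h1
  have hPt' : Pt ((n : ℤ) * q) (∏ i, b i ^ g i) (u * v * X1) (v ^ 2 * Y1) := by
    refine ⟨mul_ne_zero (mul_ne_zero hu hv) hPt.hX, mul_ne_zero (pow_ne_zero 2 hv) hPt.hY, ?_⟩
    obtain ⟨c0, hc0, h1⟩ := hPt.eq
    refine ⟨c0 * u ^ 2, mul_ne_zero hc0 (pow_ne_zero 2 hu), ?_⟩
    rw [← hW]
    have e1 : W * ((u * v * X1) ^ 3 + W * (v ^ 2 * Y1) ^ 3) =
        (W * v ^ 3) * (u ^ 3 * X1 ^ 3 + (W * v ^ 3) * Y1 ^ 3) := by ring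
    rw [e1, ← hg]
    have e2 : z * u ^ 3 * (u ^ 3 * X1 ^ 3 + z * u ^ 3 * Y1 ^ 3) =
        u ^ 6 * (z * (X1 ^ 3 + z * Y1 ^ 3)) := by ring
    rw [e2, h1]
    ring
  have hker := (hTEND s b P Q P' Q' ((n : ℤ) * q) hSys hB hA).2 g _ _ hex hPt'
  rw [← Matrix.exists_mulVec_eq_zero_iff]
  refine ⟨fun i => (g i : ZMod 3), ?_, ?_⟩
  · intro h1
    obtain ⟨i, hi⟩ := hex
    apply hi
    have h2 := congrFun h1 i
    exact (ZMod.natCast_eq_zero_iff (g i) 3).1 h2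
  · ext j
    exact hker j

end ECL

open _root_.Pool.Agent.PT.ECL in
/-- ECL: the class and the system. -/
theorem ECL_thm (hEMAT : EMAT) (hEHYP : EHYP) (hEBAS : EBAS) (hEADM : EADM) (hESYS : ESYS)
    (hFD1 : FD1) (hFD2 : FD2) (hTEND : TEND) : ECL := by
  intro n m k π p e r f hNF hk
  have key : ∀ (j0 : Option (Fin k)) (w0 : ZMod 3),
      ((j0 = none ∧ Even k ∧ wt ((n : ℤ) ^ 2) + w0 ≠ 0) ∨
        (j0 ≠ none ∧ Odd k ∧ wt ((n : ℤ) ^ 2) + w0 = 0)) →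
      (∀ j, j0 = some j → wt ((r j : ℤ) ^ 2) ≠ 0) → ∃ (w0 : ZMod 3) (c : Fin m → ZMod 3) (s : ℕ)
      (b : Fin s → ℤ) (P Q P' Q' : Fin s → Fin s → ℤ),
      Even s ∧ (∀ i, AdmC n π w0 c (b i)) ∧ Sys b P Q P' Q' ∧
      ∀ q : ℕ, q.Prime → InCl π w0 c q → ¬ q ∣ n → 3 < q →
        (∀ i, Adm ((n : ℤ) * q) (b i)) ∧ BOk ((n : ℤ) * q) ∧
        ((∃ X Y : ℚ, X ^ 3 + Y ^ 3 = (n : ℚ) * q) →
          (Mat b P Q P' Q' ((n : ℤ) * q)).det = 0) := by
    intro j0 w0 hj hwt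
    obtain ⟨c, hc1, hc2⟩ := hEMAT n m k π p e r f j0 hNF hwt
    obtain ⟨s, b, hs, hAdm, hV, hind, hc9, hgen⟩ :=
      hEBAS n m k π p e r f w0 c j0 hNF hj hwt hc2
    obtain ⟨P, Q, P', Q', hSys⟩ := hESYS n m k π p e r f w0 c s b hNF hAdm hV hind hc9
    refine ⟨w0, c, s, b, P, Q, P', Q', hs, hAdm, hSys, ?_⟩
    intro q hq hIn hqn hq3
    refine point_det hEHYP hEADM hFD1 hFD2 hTEND hNF ?_ hc1 hAdm hgen hSys q hq hIn hqn hq3
    intro h
    rcases hj with h1 | h1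
    · exact h1.2.2
    · exact absurd h h1.1
  rcases Nat.even_or_odd k with hev | hodd
  · refine key none (1 - wt ((n : ℤ) ^ 2)) (Or.inl ⟨rfl, hev, ?_⟩) (fun j hj => by cases hj)
    rw [add_sub_cancel]
    exact one_ne_zero
  · rcases hk with h | ⟨j, hj⟩
    · exact absurd hodd (Nat.not_odd_iff_even.2 h)
    · refine key (some j) (-wt ((n : ℤ) ^ 2)) (Or.inr ⟨by simp, hodd, ?_⟩) ?_
      · rw [add_neg_cancel]
      · intro j' hj'
        rw [← Option.some.inj hj']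
        exact wt_ne hj

end Pool.Agent.PT


end

section

/-!
# EMAT: the class can be chosen such that both matrices are invertible
-/

namespace Pool.Agent.PT

open Pool.Agent.Lib_helper18 Pool.Agent.Lib_helper18.Eis Pool.Agent.Lib_helper84.Cub

namespace EMAT

theorem Mm_eq (n : ℕ) {m k : ℕ} (π : Fin m → PP) (e : Fin m → ℕ) (r : Fin k → ℕ)
    (j0 : Option (Fin k)) (c : Fin m → ZMod 3) :
    Mm n π e r j0 c = Mm n π e r j0 0 -
      Matrix.diagonal (Fin.cons 0 c : Fin (m + 1) → ZMod 3) := by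
  ext a b
  rw [Matrix.sub_apply]
  refine Fin.cases ?_ (fun i => ?_) a
  · have h : (Matrix.diagonal (Fin.cons 0 c : Fin (m + 1) → ZMod 3)) 0 b = 0 := by
      by_cases hb : (0 : Fin (m + 1)) = b
      · rw [← hb, Matrix.diagonal_apply_eq, Fin.cons_zero]
      · rw [Matrix.diagonal_apply_ne _ hb]
    rw [h, sub_zero]
    rfl
  · refine Fin.cases ?_ (fun i' => ?_) b
    · rw [Matrix.diagonal_apply_ne _ (Fin.succ_ne_zero i), sub_zero]
      rfl
    · by_cases h : i' = i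
      · subst h
        rw [Matrix.diagonal_apply_eq, Fin.cons_succ]
        simp [Mm]
      · have h' : i.succ ≠ i'.succ := fun h1 => h (Fin.succ_injective _ h1).symm
        rw [Matrix.diagonal_apply_ne _ h', sub_zero]
        simp [Mm, h]

theorem Mp_eq (n : ℕ) {m k : ℕ} (π : Fin m → PP) (p e : Fin m → ℕ) (r : Fin k → ℕ)
    (j0 : Option (Fin k)) (c : Fin m → ZMod 3) :
    Mp n π p e r j0 c = Mp n π p e r j0 0 -
      Matrix.diagonal (Fin.cons 0 c : Fin (m + 1) → ZMod 3) := by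
  ext a b
  rw [Matrix.sub_apply]
  refine Fin.cases ?_ (fun i => ?_) a
  · have h : (Matrix.diagonal (Fin.cons 0 c : Fin (m + 1) → ZMod 3)) 0 b = 0 := by
      by_cases hb : (0 : Fin (m + 1)) = b
      · rw [← hb, Matrix.diagonal_apply_eq, Fin.cons_zero]
      · rw [Matrix.diagonal_apply_ne _ hb]
    rw [h, sub_zero]
    rfl
  · refine Fin.cases ?_ (fun i' => ?_) b
    · rw [Matrix.diagonal_apply_ne _ (Fin.succ_ne_zero i), sub_zero]
      rfl
    · by_cases h : i' = i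
      · subst h
        rw [Matrix.diagonal_apply_eq, Fin.cons_succ]
        simp [Mp]
      · have h' : i.succ ≠ i'.succ := fun h1 => h (Fin.succ_injective _ h1).symm
        rw [Matrix.diagonal_apply_ne _ h', sub_zero]
        simp [Mp, h]

end EMAT

open _root_.Pool.Agent.PT.EMAT in
theorem EMAT_thm (hEDET : EDET) : EMAT := by
  intro n m k π p e r f j0 hNF hj
  have h0 : Mm n π e r j0 0 0 0 ≠ 0 ∧ Mp n π p e r j0 0 0 0 ≠ 0 := by
    cases j0 with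
    | none => exact ⟨one_ne_zero, one_ne_zero⟩
    | some j =>
      have h1 : Mm n π e r (some j) 0 0 0 = sym (r j : Eis) w := rfl
      have h2 : Mp n π p e r (some j) 0 0 0 = wt ((r j : ℤ) ^ 2) := rfl
      rw [h1, h2]
      refine ⟨?_, hj j rfl⟩
      rw [sym_w' (prime_inert (hNF.rp j) (hNF.r2 j)) (n3 (hNF.rp j) (hNF.r2 j)), norm_natCast]
      exact hj j rfl
  obtain ⟨d, h1, h2⟩ := hEDET m _ _ h0.1 h0.2
  refine ⟨d, ?_, ?_⟩
  · rw [Mm_eq]
    exact h1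
  · rw [Mp_eq]
    exact h2

end Pool.Agent.PT


end

section

namespace Pool.Agent.PT

open Pool.Agent.Lib_helper18 Pool.Agent.Lib_helper18.Eis Pool.Agent.Lib_helper84.Cub

namespace IF2

theorem intCast_inj0 {m : ℤ} (h : m ≠ 0) : (m : Eis) ≠ 0 := by
  intro h0
  have := congrArg Eis.re h0
  simp at this
  exact h this

theorem not_dvd {π a : Eis} (hπ : Prime π) (ha : a ≠ 0) {N : ℕ} (hN : V π a < N) :
    ¬ π ^ N ∣ a := by
  intro h
  have h1 := (fin hπ ha).le_multiplicity_of_pow_dvd h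
  unfold V at hN
  omega

theorem near_ne {π a a' : Eis} (hπ : Prime π) (ha : a ≠ 0) {N : ℕ} (hN : V π a < N)
    (h : π ^ N ∣ a' - a) : a' ≠ 0 := by
  rintro rfl
  rw [zero_sub, dvd_neg] at h
  exact not_dvd hπ ha hN h

theorem wi_cube (i : ℕ) : (w ^ i) ^ 3 = 1 := by
  rw [← pow_mul, mul_comm, pow_mul, w_cube, one_pow]

theorem w_ne : w ≠ 0 := by
  intro h
  have := congrArg Eis.im h
  simp at this

/-- each linear form divides the norm form -/
theorem form_dvd (X Y ξ : Eis) (i : ℕ) : X + w ^ i * ξ * Y ∣ X ^ 3 + ξ ^ 3 * Y ^ 3 := by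
  refine ⟨X ^ 2 - X * (w ^ i * ξ * Y) + (w ^ i * ξ * Y) ^ 2, ?_⟩
  have h := wi_cube i
  have : (X + w ^ i * ξ * Y) * (X ^ 2 - X * (w ^ i * ξ * Y) + (w ^ i * ξ * Y) ^ 2) =
      X ^ 3 + (w ^ i) ^ 3 * ξ ^ 3 * Y ^ 3 := by ring
  rw [this, h, one_mul]

theorem form_prod (X Y ξ : Eis) : (X + w ^ 0 * ξ * Y) * (X + w ^ 1 * ξ * Y) *
    (X + w ^ 2 * ξ * Y) = X ^ 3 + ξ ^ 3 * Y ^ 3 := by
  linear_combination (X ^ 2 * ξ * Y + X * ξ ^ 2 * Y ^ 2 * w) * w_rel +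
    (ξ ^ 3 * Y ^ 3) * w_cube

section

variable {π : Eis} {s : Eis → Eis → ZMod 3} {e : ℕ}

theorem mul_right (hS : LSym π s e) {a b c : Eis} (ha : a ≠ 0) (hb : b ≠ 0) (hc : c ≠ 0) :
    s c (a * b) = s c a + s c b := by
  rw [hS.skew (a * b) c (mul_ne_zero ha hb) hc, hS.mul a b c ha hb hc, hS.skew c a hc ha,
    hS.skew c b hc hb]
  ring

theorem cont_right (hS : LSym π s e) {a a' b : Eis} (ha : a ≠ 0) (ha' : a' ≠ 0) (hb : b ≠ 0)
    (h : π ^ (V π a + e) ∣ a' - a) : s b a' = s b a := by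
  rw [hS.skew a' b ha' hb, hS.cont a a' b ha hb h, hS.skew b a hb ha]
  ring

end

/-- the forms `Gf` do not vanish -/
theorem Gf_ne {b x p q p' q' : ℤ} (h : Sol b x p q p' q') (i : ℕ)
    (hi : i = 1 ∨ i = 2) : Gf p q p' q' i ≠ 0 := by
  intro h0
  have h1 : q * p' = 0 ∧ p * q' = 0 := by
    rcases hi with rfl | rfl
    · unfold Gf at h0
      have e1 := congrArg Eis.re h0
      have e2 := congrArg Eis.im h0
      simp at e1 e2
      rcases e1 with e1 | e1 <;> rcases e2 with e2 | e2 <;> simp [e1, e2]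
    · unfold Gf at h0
      rw [w_sq] at h0
      have e1 := congrArg Eis.re h0
      have e2 := congrArg Eis.im h0
      simp at e1 e2
      rcases e2 with e2 | e2
      · subst e2
        simp at e1
        rcases e1 with e1 | e1 <;> simp [e1]
      · subst e2
        simp at e1
        rcases e1 with e1 | e1 <;> simp [e1]
  obtain ⟨h2, h3⟩ := h1
  have hN : p' ^ 3 + b * q' ^ 3 ≠ 0 := by
    intro h4
    apply h.n1
    rw [h.eq, h4, mul_zero]
  rcases mul_eq_zero.mp h3 with hp | hq'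
  · subst hp
    rcases mul_eq_zero.mp h2 with hq | hp'
    · subst hq
      exact h.n1 (by ring)
    · subst hp'
      exact h.n2 (by ring)
  · subst hq'
    rcases mul_eq_zero.mp h2 with hq | hp'
    · subst hq
      apply h.n2
      have := h.eq
      linarith
    · subst hp'
      exact hN (by ring)

end IF2

open _root_.Pool.Agent.PT.IF2 in
theorem IF2_thm (hSTAR : STAR) : IF2 := by
  intro π s e hS b x p q p' q' hb hx hsol
  set n0 : Eis := (p' : Eis) ^ 3 + (b : Eis) * (q' : Eis) ^ 3 with hn0def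
  set g0 : Eis := (p : Eis) ^ 3 + (b : Eis) * (q : Eis) ^ 3 with hg0def
  have hg0 : g0 = (x : Eis) * n0 := by
    rw [hn0def, hg0def]
    exact_mod_cast congrArg (fun t : ℤ => (t : Eis)) hsol.eq
  have hg0ne : g0 ≠ 0 := by
    have := intCast_inj0 hsol.n1
    rw [hg0def]
    exact_mod_cast this
  have hn0ne : n0 ≠ 0 := by
    intro h
    apply hg0ne
    rw [hg0, h, mul_zero]
  have hxe : (x : Eis) ≠ 0 := intCast_inj0 hx
  have hbe : (b : Eis) ≠ 0 := intCast_inj0 hb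
  have hD1 := Gf_ne hsol 1 (Or.inl rfl)
  have hD2 := Gf_ne hsol 2 (Or.inr rfl)
  refine ⟨V π (b : Eis) + V π n0 + V π g0 + e + 1, ?_⟩
  intro r hr
  set N0 := V π (b : Eis) + V π n0 + V π g0 + e + 1 with hN0
  have hr0 : (r : Eis) ≠ 0 := by
    rintro h
    have : (r : Eis) ^ 3 ≠ 0 := near_ne hS.prime hbe (by omega) hr
    exact this (by rw [h]; ring)
  have hFdvd : π ^ N0 ∣ ((p' : Eis) ^ 3 + (r : Eis) ^ 3 * (q' : Eis) ^ 3) - n0 := by
    have : ((p' : Eis) ^ 3 + (r : Eis) ^ 3 * (q' : Eis) ^ 3) - n0 =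
        ((r : Eis) ^ 3 - (b : Eis)) * (q' : Eis) ^ 3 := by rw [hn0def]; ring
    rw [this]
    exact hr.mul_right _
  have hGdvd : π ^ N0 ∣ ((p : Eis) ^ 3 + (r : Eis) ^ 3 * (q : Eis) ^ 3) - g0 := by
    have : ((p : Eis) ^ 3 + (r : Eis) ^ 3 * (q : Eis) ^ 3) - g0 =
        ((r : Eis) ^ 3 - (b : Eis)) * (q : Eis) ^ 3 := by rw [hg0def]; ring
    rw [this]
    exact hr.mul_right _
  set n1 : Eis := (p' : Eis) ^ 3 + (r : Eis) ^ 3 * (q' : Eis) ^ 3 with hn1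
  set g1 : Eis := (p : Eis) ^ 3 + (r : Eis) ^ 3 * (q : Eis) ^ 3 with hg1
  have hn1ne : n1 ≠ 0 := near_ne hS.prime hn0ne (by omega) hFdvd
  have hg1ne : g1 ≠ 0 := near_ne hS.prime hg0ne (by omega) hGdvd
  let F : ℕ → Eis := fun i => (p' : Eis) + w ^ i * (r : Eis) * (q' : Eis)
  let G : ℕ → Eis := fun i => (p : Eis) + w ^ i * (r : Eis) * (q : Eis)
  have hF : ∀ i, F i ≠ 0 := fun i => ne_zero_of_dvd_ne_zero hn1ne (form_dvd _ _ _ i)
  have hG : ∀ i, G i ≠ 0 := fun i => ne_zero_of_dvd_ne_zero hg1ne (form_dvd _ _ _ i)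
  have hFL : ∀ i, Lf p' q' i r = F i := fun i => by unfold Lf; ring
  have hGL : ∀ i, Lf p q i r = G i := fun i => by unfold Lf; ring
  have hFp : F 0 * F 1 * F 2 = n1 := form_prod _ _ _
  have hGp : G 0 * G 1 * G 2 = g1 := form_prod _ _ _
  -- replace `n1`, `g1` by the integers `n0`, `g0`
  have cn : ∀ c : Eis, c ≠ 0 → s c n1 = s c n0 := fun c hc =>
    cont_right hS hn0ne hn1ne hc ((pow_dvd_pow π (by omega)).trans hFdvd)
  have cn' : ∀ c : Eis, c ≠ 0 → s n1 c = s n0 c := fun c hc =>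
    hS.cont _ _ _ hn0ne hc ((pow_dvd_pow π (by omega)).trans hFdvd)
  have cg : ∀ c : Eis, c ≠ 0 → s c g1 = s c (x : Eis) + s c n0 := fun c hc => by
    rw [cont_right hS hg0ne hg1ne hc ((pow_dvd_pow π (by omega)).trans hGdvd), hg0,
      mul_right hS hxe hn0ne hc]
  obtain ⟨s1, s2⟩ := hSTAR π s e hS (p' : Eis) (q' : Eis) (p : Eis) (q : Eis) (r : Eis) F G
    (Gf p q p' q') (fun i => rfl) (fun i => rfl) (fun i => by unfold Gf; ring) hr0 hF
  obtain ⟨t1, _⟩ := hSTAR π s e hS (p : Eis) (q : Eis) (p : Eis) (q : Eis) (r : Eis) G G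
    (fun i => (p : Eis) * q - w ^ i * p * q) (fun i => rfl) (fun i => rfl) (fun i => rfl) hr0 hG
  have s3 := s2 hG hD1 hD2
  rw [hFp, cn _ (hF 1), cn _ (hF 2), cn _ w_ne] at s1
  rw [hGp, cg _ (hG 1), cg _ (hG 2), cg _ w_ne] at t1
  rw [hFp, hGp, cg _ hD1, cg _ hD2, cn _ hD1, cn _ hD2, cn _ w_ne, cn' _ (hG 2), cn' _ (hG 1),
    cg _ (hF 1), cg _ (hF 2), hS.skew _ _ (hG 2) hn0ne, hS.skew _ _ (hG 1) hn0ne] at s3
  unfold AS
  rw [hFL, hFL, hGL, hGL, hS.skew _ _ (hG 2) hxe, hS.skew _ _ (hF 1) hxe, hS.skew _ _ (hG 1) hxe,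
    hS.skew _ _ (hF 2) hxe, hS.skew _ _ hD1 hxe, hS.skew _ _ hD2 hxe]
  have h3 : (3 : ZMod 3) = 0 := rfl
  linear_combination s3 + s1 + t1 + s w n0 * h3

end Pool.Agent.PT


end

section

/-!
# Primes with prescribed cubic residue symbols up to a common factor
-/

open NumberField
open scoped Pointwise

namespace Pool.Agent.PT

open Pool.Agent.Lib_helper18 Pool.Agent.Lib_helper18.Eis Pool.Agent.Lib_helper84.Cub

namespace NAUX

/-! ### A set of primes of positive density is infinite -/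

theorem exists_large {S : Set ℕ} {δ : ℝ} (hδ : 0 < δ) (h : RI.DensityGE S δ) (M : ℕ) :
    ∃ q : ℕ, q.Prime ∧ q ∈ S ∧ M < q := by
  by_contra hcon
  push Not at hcon
  have h1 : RI.DensityGE ∅ δ := by
    refine RI.PDGE_thm S ∅ (Finset.range (M + 1)) δ h ?_
    intro q hq hp hA
    exact absurd (Finset.mem_range.2 (Nat.lt_succ_of_le (hcon q hp hq))) hA
  obtain ⟨C, hC⟩ := h1
  have hx : 0 ≤ (|C| + 1) / δ := by positivity
  have he : Real.exp (-((|C| + 1) / δ)) ≤ 1 := Real.exp_le_one_iff.2 (by linarith)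
  have h2 := hC (1 + Real.exp (-((|C| + 1) / δ))) (by linarith [Real.exp_pos (-((|C| + 1) / δ))])
    (by linarith)
  have h3 : Real.log (1 / (1 + Real.exp (-((|C| + 1) / δ)) - 1)) = (|C| + 1) / δ := by
    rw [add_sub_cancel_left, one_div, ← Real.exp_neg, neg_neg, Real.log_exp]
  have h4 : IsEmpty {q : ℕ // q.Prime ∧ q ∈ (∅ : Set ℕ)} := ⟨fun q => q.2.2⟩
  rw [h3, tsum_empty, mul_div_cancel₀ _ hδ.ne'] at h2
  linarith [le_abs_self C]

/-! ### The field -/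

theorem hom_injective {R : Type*} [Field R] [CharZero R] (φ : Eis →+* R) :
    Function.Injective φ := by
  rw [injective_iff_map_eq_zero]
  intro x hx
  have h1 : φ (x * conj x) = 0 := by rw [map_mul, hx, zero_mul]
  rw [mul_conj, map_intCast] at h1
  exact norm_eq_zero.1 (by exact_mod_cast h1)

/-- an algebraic closure of `ℚ` -/
abbrev Ω : Type := AlgebraicClosure ℚ

theorem isAlgebraic_Ω : Algebra.IsAlgebraic ℚ Ω := by
  have e : (AlgebraicClosure.instAlgebra ℚ : Algebra ℚ Ω) = DivisionRing.toRatAlgebra :=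
    Subsingleton.elim _ _
  exact e ▸ (AlgebraicClosure.isAlgebraic ℚ)

theorem exists_field (t : ℕ) (a : Fin t → Eis) :
    ∃ (L : Type) (_ : Field L) (_ : NumberField L) (_ : IsGalois ℚ L) (ι : Eis →+* L)
      (A : Fin t → L), ∀ i, A i ^ 3 = ι (a i) := by
  classical
  have hint := isAlgebraic_Ω
  have hcl : IsAlgClosure ℚ Ω := ⟨inferInstance, inferInstance⟩
  have hnorm : Normal ℚ Ω := IsAlgClosure.normal ℚ Ω
  obtain ⟨ω, hω⟩ : ∃ ω : Ω, ω ^ 2 + ω + 1 = 0 := by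
    have hd : (Polynomial.X ^ 2 + Polynomial.X + 1 : Polynomial Ω).degree ≠ 0 := by
      have : (Polynomial.X ^ 2 + Polynomial.X + 1 : Polynomial Ω).degree = 2 := by
        compute_degree!
      rw [this]
      norm_num
    obtain ⟨ω, hω⟩ := IsAlgClosed.exists_root _ hd
    exact ⟨ω, by simpa [Polynomial.IsRoot] using hω⟩
  obtain ⟨ι₀, hι₀⟩ : ∃ ι₀ : Eis →+* Ω, ι₀ = lift ω hω := ⟨_, rfl⟩
  have hA : ∀ i, ∃ x : Ω, x ^ 3 = ι₀ (a i) := fun i =>
    IsAlgClosed.exists_pow_nat_eq _ (by norm_num)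
  choose A₀ hA₀ using hA
  let K : IntermediateField ℚ Ω := IntermediateField.adjoin ℚ (insert ω (Set.range A₀))
  have hK : FiniteDimensional ℚ K :=
    IntermediateField.finiteDimensional_adjoin fun x _ => Algebra.IsIntegral.isIntegral x
  let L : IntermediateField ℚ Ω := IntermediateField.normalClosure ℚ K Ω
  have hKL : K ≤ L := IntermediateField.le_normalClosure K
  have hfin : FiniteDimensional ℚ L := inferInstance
  have hnf : NumberField L := ⟨⟩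
  have hnL : Normal ℚ L := normalClosure.normal ℚ K Ω
  have hgal : IsGalois ℚ L := ⟨⟩
  have hωL : ω ∈ L := hKL (IntermediateField.subset_adjoin _ _ (Set.mem_insert _ _))
  have hAL : ∀ i, A₀ i ∈ L := fun i =>
    hKL (IntermediateField.subset_adjoin _ _ (Set.mem_insert_of_mem _ ⟨i, rfl⟩))
  refine ⟨L, inferInstance, hnf, hgal, lift (⟨ω, hωL⟩ : L) (Subtype.ext (by
    push_cast
    exact hω)), fun i => ⟨A₀ i, hAL i⟩, ?_⟩
  intro i
  apply Subtype.ext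
  have h1 := hA₀ i
  rw [hι₀, lift_apply] at h1
  rw [lift_apply]
  push_cast
  exact h1

/-! ### The automorphism -/

theorem exists_aut (hSPP : SPP) (hKUM : KUM) {t : ℕ} (π : Fin t → PP)
    (hπ : Function.Injective π) (L : Type) [Field L] [NumberField L] [IsGalois ℚ L]
    (ι : Eis →+* L) (A : Fin t → L) (hA : ∀ i, A i ^ 3 = ι (π i).1) (r : Fin t → ZMod 3) :
    ∃ g : L ≃ₐ[ℚ] L, g (ι w) = ι w ∧ ∀ i, g (A i) = ι w ^ (r i).val * A i := by
  have hinj := hom_injective ι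
  have hcz : CharZero Eis := ⟨fun m n h => by
    have := congrArg Eis.re h
    simpa using this⟩
  let F := FractionRing Eis
  have hczF : CharZero F := charZero_of_injective_algebraMap (IsFractionRing.injective Eis F)
  letI : Algebra F L := (IsFractionRing.lift hinj : F →+* L).toAlgebra
  have halg : ∀ x : Eis, algebraMap F L (algebraMap Eis F x) = ι x := fun x =>
    IsFractionRing.lift_algebraMap hinj x
  have htow : IsScalarTower ℚ F L := IsScalarTower.of_algebraMap_eq' (RingHom.ext_rat _ _)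
  have hfin : FiniteDimensional F L := Module.Finite.of_restrictScalars_finite ℚ F L
  have hgal : IsGalois F L := IsGalois.tower_top_of_isGalois ℚ F L
  have hnd : ∀ i j, i ≠ j → ¬ (π j).1 ∣ (π i).1 := by
    intro i j hij h
    apply hij
    apply hπ
    exact (hSPP.2.1 (π j) (π i) ((π j).2.1.associated_of_dvd (π i).2.1 h)).symm
  obtain ⟨g, hg⟩ := hKUM F L (algebraMap Eis F w) (Fin t) (fun i => algebraMap Eis F (π i).1) A
    (by rw [← map_pow, ← map_add, ← map_one (algebraMap Eis F), ← map_add, w_rel, map_zero])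
    (fun i h => (π i).2.1.ne_zero ((IsFractionRing.injective Eis F) (by rw [h, map_zero])))
    (fun i => by rw [halg, hA]) (by
      rintro n ⟨b, hb⟩ j
      obtain ⟨u, v, hv, rfl⟩ := IsFractionRing.div_surjective (A := Eis) b
      have hv0 : v ≠ 0 := nonZeroDivisors.ne_zero hv
      have hvF : algebraMap Eis F v ≠ 0 := fun h => hv0
        ((IsFractionRing.injective Eis F) (by rw [h, map_zero]))
      have h1 : (∏ i, (π i).1 ^ n i) * v ^ 3 = u ^ 3 := by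
        apply IsFractionRing.injective Eis F
        rw [map_mul, map_prod, map_pow, map_pow]
        simp only [map_pow]
        rw [hb, div_pow, div_mul_cancel₀ _ (pow_ne_zero _ hvF)]
      have hj := (π j).2.1
      have hrest : ¬ (π j).1 ∣ ∏ i ∈ Finset.univ.erase j, (π i).1 ^ n i := by
        intro h
        obtain ⟨i, hi, h2⟩ := hj.exists_mem_finset_dvd h
        exact hnd i j (Finset.ne_of_mem_erase hi) (hj.dvd_of_dvd_pow h2)
      have hrest0 : ∏ i ∈ Finset.univ.erase j, (π i).1 ^ n i ≠ 0 := fun h => hrest (h ▸ dvd_zero _)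
      have hprod : ∏ i, (π i).1 ^ n i = (π j).1 ^ n j * ∏ i ∈ Finset.univ.erase j, (π i).1 ^ n i :=
        (Finset.mul_prod_erase _ _ (Finset.mem_univ j)).symm
      have hu0 : u ≠ 0 := by
        rintro rfl
        rw [zero_pow (by norm_num), hprod] at h1
        exact mul_ne_zero (mul_ne_zero (pow_ne_zero _ hj.ne_zero) hrest0) (pow_ne_zero _ hv0) h1
      have h2 := congrArg (V (π j).1) h1
      rw [V_mul hj (by rw [hprod]; exact mul_ne_zero (pow_ne_zero _ hj.ne_zero) hrest0)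
        (pow_ne_zero _ hv0), V_pow hj hv0, V_pow hj hu0, hprod,
        V_mul hj (pow_ne_zero _ hj.ne_zero) hrest0, V_pow hj hj.ne_zero, V_self,
        V_eq_zero hrest] at h2
      omega) r
  refine ⟨g.restrictScalars ℚ, ?_, ?_⟩
  · show g (ι w) = ι w
    rw [← halg, AlgEquiv.commutes]
  · intro i
    show g (A i) = _
    rw [hg, halg]

/-! ### The residue field -/

section Local

variable {L : Type} [Field L] [NumberField L]

theorem ne_bot {q : ℕ} (hq : q.Prime) (P : Ideal (𝓞 L)) (hqP : (q : 𝓞 L) ∈ P) : P ≠ ⊥ := by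
  rintro rfl
  rw [Ideal.mem_bot] at hqP
  exact hq.ne_zero (by exact_mod_cast hqP)

theorem finite_quot {q : ℕ} (hq : q.Prime) (P : Ideal (𝓞 L)) (hqP : (q : 𝓞 L) ∈ P) :
    Finite (𝓞 L ⧸ P) := Ideal.finiteQuotientOfFreeOfNeBot P (ne_bot hq P hqP)

theorem card_quot {q : ℕ} (hq : q.Prime) (P : Ideal (𝓞 L)) [P.IsPrime] (hqP : (q : 𝓞 L) ∈ P) :
    Nat.card (ℤ ⧸ P.under ℤ) = q := by
  have h1 : P.under ℤ = Ideal.span {(q : ℤ)} := by
    symm
    have hmax : (Ideal.span {(q : ℤ)}).IsMaximal :=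
      PrincipalIdealRing.isMaximal_of_irreducible (Nat.prime_iff_prime_int.1 hq).irreducible
    refine hmax.eq_of_le (Ideal.IsPrime.ne_top inferInstance) ?_
    rw [Ideal.span_singleton_le_iff_mem, Ideal.mem_comap]
    simpa using hqP
  rw [h1, Nat.card_congr (Int.quotientSpanNatEquivZMod q).toEquiv, Nat.card_zmod]

theorem exists_frob [IsGalois ℚ L] {q : ℕ} (hq : q.Prime) (P : Ideal (𝓞 L)) [P.IsPrime]
    (hqP : (q : 𝓞 L) ∈ P) (g : L ≃ₐ[ℚ] L)
    (hst : MulAction.stabilizer (L ≃ₐ[ℚ] L) P = Subgroup.zpowers g) :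
    ∃ k : ℕ, ∀ x : 𝓞 L, (g ^ k) • x - x ^ q ∈ P := by
  have := finite_quot hq P hqP
  obtain ⟨σ, hσ⟩ := IsArithFrobAt.exists_of_isInvariant ℤ (L ≃ₐ[ℚ] L) P
  have hσs := hσ.mem_stabilizer
  rw [hst, ← mem_powers_iff_mem_zpowers] at hσs
  obtain ⟨k, rfl⟩ := hσs
  refine ⟨k, fun x => ?_⟩
  have h := hσ x
  rw [card_quot hq P hqP] at h
  exact h

theorem frob_pow_apply (K M : Type) [Field K] [Fintype K] [Field M] [Finite M] [Algebra K M]
    (n : ℕ) (y : M) : (FiniteField.frobeniusAlgEquivOfAlgebraic K M ^ n) y =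
      y ^ (Fintype.card K ^ n) := by
  induction n generalizing y with
  | zero => simp
  | succ n ih =>
    rw [pow_succ, AlgEquiv.mul_apply, ih, FiniteField.coe_frobeniusAlgEquivOfAlgebraic]
    show (y ^ Fintype.card K) ^ (Fintype.card K ^ n) = _
    rw [← pow_mul, pow_succ']

theorem exists_pow [IsGalois ℚ L] {q : ℕ} (hq : q.Prime) (P : Ideal (𝓞 L)) [hP : P.IsPrime]
    (hqP : (q : 𝓞 L) ∈ P) (g : L ≃ₐ[ℚ] L) (hg : g ∈ MulAction.stabilizer (L ≃ₐ[ℚ] L) P) :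
    ∃ j : ℕ, ∀ x : 𝓞 L, g • x - x ^ (q ^ j) ∈ P := by
  have hfin := finite_quot hq P hqP
  have hmax : P.IsMaximal := hP.isMaximal (ne_bot hq P hqP)
  letI : Field (𝓞 L ⧸ P) := Ideal.Quotient.field P
  have hfact := Fact.mk hq
  have hchar : CharP (𝓞 L ⧸ P) q := by
    refine (CharP.charP_iff_prime_eq_zero hq).2 ?_
    have : (Ideal.Quotient.mk P) (q : 𝓞 L) = 0 := Ideal.Quotient.eq_zero_iff_mem.2 hqP
    simpa using this
  letI : Algebra (ZMod q) (𝓞 L ⧸ P) := ZMod.algebra _ q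
  let e : (𝓞 L ⧸ P) ≃+* (𝓞 L ⧸ P) := Ideal.quotientEquiv P P
    (MulSemiringAction.toRingEquiv (L ≃ₐ[ℚ] L) (𝓞 L) g) (by
      rw [MulAction.mem_stabilizer_iff] at hg
      conv_lhs => rw [← hg]
      rfl)
  let e' : (𝓞 L ⧸ P) ≃ₐ[ZMod q] (𝓞 L ⧸ P) := AlgEquiv.ofRingEquiv (f := e) (fun r =>
    RingHom.congr_fun (Subsingleton.elim ((e : (𝓞 L ⧸ P) →+* (𝓞 L ⧸ P)).comp
      (algebraMap (ZMod q) (𝓞 L ⧸ P))) (algebraMap (ZMod q) (𝓞 L ⧸ P))) r)
  obtain ⟨n, hn⟩ := (FiniteField.bijective_frobeniusAlgEquivOfAlgebraic_pow (ZMod q)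
    (𝓞 L ⧸ P)).2 e'
  refine ⟨n, fun x => ?_⟩
  have h1 := DFunLike.congr_fun hn (Ideal.Quotient.mk P x)
  simp only at h1
  rw [frob_pow_apply, ZMod.card] at h1
  rw [← Ideal.Quotient.eq, map_pow, h1]
  rfl

theorem pow_apply (g : L ≃ₐ[ℚ] L) {ω a : L} {m : ℕ} (hω : g ω = ω) (ha : g a = ω ^ m * a)
    (k : ℕ) : (g ^ k) a = ω ^ (m * k) * a := by
  induction k with
  | zero => simp
  | succ k ih =>
    rw [pow_succ', AlgEquiv.mul_apply, ih, map_mul, map_pow, hω, ha]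
    ring

theorem coe_smul (g : L ≃ₐ[ℚ] L) (x : 𝓞 L) :
    algebraMap (𝓞 L) L (g • x) = g (algebraMap (𝓞 L) L x) := rfl

theorem inj_O {x y : 𝓞 L} (h : algebraMap (𝓞 L) L x = algebraMap (𝓞 L) L y) : x = y :=
  FaithfulSMul.algebraMap_injective (𝓞 L) L h

theorem local_main [IsGalois ℚ L] (hSPP : SPP) {t : ℕ} (π : Fin t → PP) (ι : Eis →+* L)
    (A : Fin t → L) (hA : ∀ i, A i ^ 3 = ι (π i).1) (r : Fin t → ZMod 3) (g : L ≃ₐ[ℚ] L)
    (hgw : g (ι w) = ι w) (hgA : ∀ i, g (A i) = ι w ^ (r i).val * A i) {q : ℕ} (hq : q.Prime)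
    (hq3 : 3 < q) (hbig : ∀ i, N (π i).1 < q) (P : Ideal (𝓞 L)) (hP : P.IsPrime)
    (hqP : (q : 𝓞 L) ∈ P)
    (hst : MulAction.stabilizer (L ≃ₐ[ℚ] L) P = Subgroup.zpowers g) :
    ∃ ρ : PP, N ρ.1 = q ∧ ∃ k c : ZMod 3, ∀ i,
      sym ρ.1 (π i).1 = k * r i ∧ r i = c * sym ρ.1 (π i).1 := by
  have hmax : P.IsMaximal := hP.isMaximal (ne_bot hq P hqP)
  letI : Field (𝓞 L ⧸ P) := Ideal.Quotient.field P
  obtain ⟨k, hk⟩ := exists_frob hq P hqP g hst
  obtain ⟨j, hj⟩ := exists_pow hq P hqP g (by rw [hst]; exact Subgroup.mem_zpowers g)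
  -- integral versions
  have hwint : IsIntegral ℤ (ι w) := by
    refine IsIntegral.of_pow (n := 3) (by norm_num) ?_
    rw [← map_pow, w_cube, map_one]
    exact isIntegral_one
  obtain ⟨W, hW⟩ : ∃ W : 𝓞 L, algebraMap (𝓞 L) L W = ι w := ⟨⟨ι w, hwint⟩, rfl⟩
  have hWrel : W ^ 2 + W + 1 = 0 := by
    apply inj_O
    rw [map_add, map_add, map_pow, map_one, map_zero, hW]
    exact hom_w ι
  obtain ⟨ιO, hιO⟩ : ∃ ιO : Eis →+* 𝓞 L, ιO = lift W hWrel := ⟨_, rfl⟩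
  have hιOw : ιO w = W := by
    rw [hιO, lift_apply]
    simp
  have hιc : ∀ x : Eis, algebraMap (𝓞 L) L (ιO x) = ι x := by
    intro x
    rw [hιO, lift_apply, hom_apply ι x, map_add, map_mul, map_intCast, map_intCast, hW]
  have hint : ∀ x : Eis, IsIntegral ℤ (ι x) := fun x => by
    rw [← hιc x]
    exact RingOfIntegers.isIntegral_coe (ιO x)
  have hAint : ∀ i, IsIntegral ℤ (A i) := fun i =>
    IsIntegral.of_pow (n := 3) (by norm_num) (by rw [hA]; exact hint _)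
  obtain ⟨B, hB⟩ : ∃ B : Fin t → 𝓞 L, ∀ i, algebraMap (𝓞 L) L (B i) = A i :=
    ⟨fun i => ⟨A i, hAint i⟩, fun i => rfl⟩
  have hB3 : ∀ i, B i ^ 3 = ιO (π i).1 := by
    intro i
    apply inj_O
    rw [hιc, map_pow, hB, hA]
  -- the residue map
  obtain ⟨θ, hθ⟩ : ∃ θ : Eis →+* (𝓞 L ⧸ P), θ = (Ideal.Quotient.mk P).comp ιO := ⟨_, rfl⟩
  have hθa : ∀ x, θ x = Ideal.Quotient.mk P (ιO x) := fun x => by rw [hθ]; rfl
  have hθq : θ (q : Eis) = 0 := by
    rw [hθa, map_natCast]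
    exact Ideal.Quotient.eq_zero_iff_mem.2 hqP
  have hkerp : (RingHom.ker θ).IsPrime := RingHom.ker_isPrime θ
  have hkne : RingHom.ker θ ≠ ⊥ := by
    intro h
    have h1 : (q : Eis) ∈ RingHom.ker θ := hθq
    rw [h, Ideal.mem_bot] at h1
    have := congrArg Eis.re h1
    simp at this
    exact hq.ne_zero this
  obtain ⟨l, hl, hlθ⟩ : ∃ l : Eis, Prime l ∧ ∀ x, θ x = 0 ↔ l ∣ x := by
    refine ⟨Submodule.IsPrincipal.generator (RingHom.ker θ),
      Submodule.IsPrincipal.prime_generator_of_isPrime _ hkne, fun x => ?_⟩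
    rw [← Submodule.IsPrincipal.mem_iff_generator_dvd]
    exact (RingHom.mem_ker).symm
  have hl3 : ¬ l ∣ 3 := by
    intro h
    have h1 := (hlθ 3).2 h
    rw [hom_three] at h1
    have h2 : (q : 𝓞 L ⧸ P) = 0 := by rw [← map_natCast θ]; exact hθq
    have hcop : Nat.Coprime 3 q := by
      rw [Nat.coprime_primes Nat.prime_three hq]
      omega
    have h3 : IsCoprime ((3 : ℕ) : ℤ) (q : ℤ) := Nat.isCoprime_iff_coprime.2 hcop
    obtain ⟨a, b, hab⟩ := h3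
    have h4 := congrArg (fun z : ℤ => (z : 𝓞 L ⧸ P)) hab
    push_cast at h4
    rw [h1, h2, mul_zero, mul_zero, add_zero] at h4
    exact zero_ne_one h4
  obtain ⟨ρ, hρ⟩ := hSPP.1 l hl hl3
  have hρθ : ∀ x, θ x = 0 ↔ ρ.1 ∣ x := fun x => (hlθ x).trans hρ.dvd_iff_dvd_left
  have hρp := ρ.2.1
  have hρ3 : ¬ ρ.1 ∣ 3 := (hSPP.2.2.2.1 ρ).1
  have hcmp : ∀ a b : ℕ, (θ w) ^ a = (θ w) ^ b → (a : ZMod 3) = b := by
    intro a b h
    apply w_pow_sub_dvd hρ3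
    rw [← hρθ, map_sub, map_pow, map_pow, h, sub_self]
  have hθw0 : θ w ≠ 0 := by
    intro h
    have h1 := (hρθ w).1 h
    exact not_dvd_of_isUnit hρp isUnit_w h1
  have hθw : θ w = Ideal.Quotient.mk P W := by rw [hθa, hιOw]
  -- `q = 1 (mod 3)`
  have hgk : (g ^ k) (ι w) = ι w := by
    have := pow_apply g (ω := ι w) (a := ι w) (m := 0) hgw (by rw [hgw]; simp) k
    simpa using this
  have hq1 : (1 : ZMod 3) = q := by
    have h1 := hk W
    rw [← Ideal.Quotient.eq, map_pow] at h1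
    have h2 : (g ^ k) • W = W := by
      apply inj_O
      rw [coe_smul, hW, hgk]
    rw [h2, ← hθw] at h1
    have h3 := hcmp 1 q (by rw [pow_one]; exact h1)
    simpa using h3
  have hq1' : q % 3 = 1 := by
    have h1 : ((1 : ℕ) : ZMod 3) = (q : ℕ) := by simpa using hq1
    rw [ZMod.natCast_eq_natCast_iff'] at h1
    omega
  -- the norm
  have hN : N ρ.1 = q := by
    have hdq : ρ.1 ∣ (q : Eis) := (hρθ _).1 hθq
    obtain ⟨p, hp, h | h⟩ := hSPP.2.2.2.2.2 ρ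
    · exfalso
      rw [h.2] at hdq
      have h1 := (natCast_dvd_iff (n := p) (x := (q : Eis))).1 hdq
      have h2 : p ∣ q := by
        have := h1.1
        simp only [natCast_re] at this
        exact_mod_cast this
      rw [Nat.prime_dvd_prime_iff_eq hp hq] at h2
      omega
    · obtain ⟨c, hc⟩ := hdq
      have h1 : (q : ℤ) ^ 2 = p * c.norm := by
        rw [← h.2.1, ← Eis.norm_mul, ← hc, norm_natCast]
      have h2 : (p : ℤ) ∣ (q : ℤ) ^ 2 := ⟨_, h1⟩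
      have h3 : p ∣ q ^ 2 := by exact_mod_cast h2
      have h4 : p ∣ q := hp.dvd_of_dvd_pow h3
      rw [Nat.prime_dvd_prime_iff_eq hp hq] at h4
      have h5 := N_cast ρ.1
      rw [h.2.1, h4] at h5
      exact_mod_cast h5
  refine ⟨ρ, hN, k, ((q ^ j - 1) / (q - 1) : ℕ), ?_⟩
  intro i
  have hnd : ¬ ρ.1 ∣ (π i).1 := by
    intro h
    have h1 := hSPP.2.1 ρ (π i) (hρp.associated_of_dvd (π i).2.1 h)
    have h2 := hbig i
    rw [← h1, hN] at h2
    exact lt_irrefl _ h2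
  have hs := map_pow_eq hρp hρ3 hnd θ ((hρθ _).2 dvd_rfl)
  rw [hN] at hs
  -- the element `B i` in the residue field
  have hb0 : Ideal.Quotient.mk P (B i) ≠ 0 := by
    intro h
    apply hnd
    rw [← hρθ, hθa, ← hB3, map_pow, h]
    norm_num
  have hb3 : (Ideal.Quotient.mk P (B i)) ^ 3 = θ (π i).1 := by
    rw [← map_pow, hB3, hθa]
  have hdiv : 3 * ((q - 1) / 3) = q - 1 := by omega
  have hb1 : (Ideal.Quotient.mk P (B i)) ^ (q - 1) = (θ w) ^ (sym ρ.1 (π i).1).val := by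
    rw [← hs, ← hb3, ← pow_mul, hdiv]
  constructor
  · have h1 := hk (B i)
    rw [← Ideal.Quotient.eq, map_pow] at h1
    have h2 : (g ^ k) • B i = W ^ ((r i).val * k) * B i := by
      apply inj_O
      rw [coe_smul, hB, pow_apply g hgw (hgA i) k, map_mul, map_pow, hW, hB]
    rw [h2, map_mul, map_pow, ← hθw] at h1
    have h3 : (Ideal.Quotient.mk P (B i)) ^ q =
        (Ideal.Quotient.mk P (B i)) ^ (q - 1) * Ideal.Quotient.mk P (B i) := by
      rw [← pow_succ, Nat.sub_add_cancel hq.one_le]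
    rw [h3, hb1] at h1
    have h4 := mul_right_cancel₀ hb0 h1
    have h5 := hcmp _ _ h4
    push_cast at h5
    simp only [ZMod.natCast_val, ZMod.cast_id', id] at h5
    rw [← h5]
    ring
  · have h1 := hj (B i)
    rw [← Ideal.Quotient.eq, map_pow] at h1
    have h2 : g • B i = W ^ (r i).val * B i := by
      apply inj_O
      rw [coe_smul, hB, hgA i, map_mul, map_pow, hW, hB]
    rw [h2, map_mul, map_pow, ← hθw] at h1
    have hqj : 1 ≤ q ^ j := Nat.one_le_pow _ _ hq.pos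
    have hc : (q - 1) * ((q ^ j - 1) / (q - 1)) = q ^ j - 1 := by
      apply Nat.mul_div_cancel'
      have := Nat.sub_dvd_pow_sub_pow q 1 j
      rwa [one_pow] at this
    have h3 : (Ideal.Quotient.mk P (B i)) ^ (q ^ j) =
        (Ideal.Quotient.mk P (B i)) ^ (q ^ j - 1) * Ideal.Quotient.mk P (B i) := by
      rw [← pow_succ, Nat.sub_add_cancel hqj]
    rw [h3, ← hc, pow_mul, hb1, ← pow_mul] at h1
    have h4 := mul_right_cancel₀ hb0 h1
    have h5 := hcmp _ _ h4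
    push_cast at h5
    simp only [ZMod.natCast_val, ZMod.cast_id', id] at h5
    rw [h5]
    ring

end Local

end NAUX

open _root_.Pool.Agent.PT.NAUX in
theorem NAUX_thm (hSPP : SPP) (hKUM : KUM) : NAUX := by
  intro t π r A hπ
  obtain ⟨L, _, _, _, ι, B, hB⟩ := exists_field t (fun i => (π i).1)
  obtain ⟨g, hgw, hgA⟩ := exists_aut hSPP hKUM π hπ L ι B hB r
  have hdens := RI.FROBD.main L {g}
  have hδ : (0 : ℝ) < (Nat.card ({g} : Set (L ≃ₐ[ℚ] L)) : ℝ) / Nat.card (L ≃ₐ[ℚ] L) := by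
    have h1 : 0 < Nat.card (L ≃ₐ[ℚ] L) := Nat.card_pos
    have h2 : 0 < Nat.card ({g} : Set (L ≃ₐ[ℚ] L)) := by
      rw [Nat.card_unique]
      norm_num
    positivity
  obtain ⟨q, hq, ⟨g', hg', P, hP, hqP, hst⟩, hlarge⟩ := exists_large hδ hdens
    (∑ a ∈ A, N a.1 + ∑ i, N (π i).1 + 3)
  rw [Set.mem_singleton_iff] at hg'
  subst hg'
  have hbig : ∀ i, N (π i).1 < q := by
    intro i
    have h1 : N (π i).1 ≤ ∑ i, N (π i).1 :=
      Finset.single_le_sum (f := fun i => N (π i).1) (fun _ _ => Nat.zero_le _) (Finset.mem_univ i)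
    omega
  have hbigA : ∀ a ∈ A, N a.1 < q := by
    intro a ha
    have h1 : N a.1 ≤ ∑ a ∈ A, N a.1 :=
      Finset.single_le_sum (f := fun a : PP => N a.1) (fun _ _ => Nat.zero_le _) ha
    omega
  obtain ⟨ρ, hN, k, c, hkc⟩ := local_main hSPP π ι B hB r g' hgw hgA hq (by omega) hbig P hP hqP hst
  refine ⟨ρ, fun h => ?_, ?_⟩
  · have := hbigA ρ h
    omega
  · by_cases hr : ∀ i, r i = 0
    · refine ⟨1, by decide, fun i => ?_⟩
      rw [(hkc i).1, hr i]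
      ring
    · push Not at hr
      obtain ⟨i₀, hi₀⟩ := hr
      refine ⟨k, ?_, fun i => (hkc i).1⟩
      rintro rfl
      apply hi₀
      rw [(hkc i₀).2, (hkc i₀).1]
      ring

end Pool.Agent.PT


end

section

open NumberField IsDedekindDomain Finset
open scoped nonZeroDivisors Pointwise

namespace Pool.Agent.PT

open Pool.Agent.Lib_helper18 Pool.Agent.Lib_helper18.Eis Pool.Agent.Lib_helper84.Cub

namespace NNS

lemma three_z (t : ZMod 3) : t + (t + t) = 0 := by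
  revert t; decide

lemma two_z {t : ZMod 3} (h : t = -t) : t = 0 := by
  revert h; revert t; decide

variable {π : Eis} {s : Eis → Eis → ZMod 3} {e : ℕ}

lemma cube_left (hs : LSym π s e) {a c : Eis} (ha : a ≠ 0) (hc : c ≠ 0) : s (a ^ 3) c = 0 := by
  have h2 : s (a * (a * a)) c = s a c + (s a c + s a c) := by
    rw [hs.mul _ _ _ ha (mul_ne_zero ha ha) hc, hs.mul _ _ _ ha ha hc]
  have e3 : a ^ 3 = a * (a * a) := by ring
  rw [e3, h2]
  exact three_z _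

lemma cube_right (hs : LSym π s e) {a c : Eis} (ha : a ≠ 0) (hc : c ≠ 0) : s c (a ^ 3) = 0 := by
  rw [hs.skew _ _ (pow_ne_zero 3 ha) hc, cube_left hs ha hc, neg_zero]

lemma neg_one_left (hs : LSym π s e) {c : Eis} (hc : c ≠ 0) : s (-1) c = 0 := by
  have h := cube_left hs (a := (-1 : Eis)) (by simp) hc
  have e3 : (-1 : Eis) ^ 3 = -1 := by ring
  rwa [e3] at h

lemma self_zero (hs : LSym π s e) {c : Eis} (hc : c ≠ 0) : s c c = 0 :=
  two_z (hs.skew c c hc hc)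

/-- the norm form has trivial symbol -/
lemma norm_symbol (hs : LSym π s e) {x α β : Eis} (hx : x ≠ 0) (hN : α ^ 3 + x * β ^ 3 ≠ 0) :
    s (α ^ 3 + x * β ^ 3) x = 0 := by
  by_cases hα : α = 0
  · subst hα
    have hβ : β ≠ 0 := by
      rintro rfl
      apply hN
      simp
    have e1 : (0 : Eis) ^ 3 + x * β ^ 3 = x * β ^ 3 := by
      rw [zero_pow (by norm_num), zero_add]
    rw [e1, hs.mul _ _ _ hx (pow_ne_zero 3 hβ) hx, self_zero hs hx, cube_left hs hβ hx, add_zero]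
  by_cases hβ : β = 0
  · subst hβ
    have e1 : α ^ 3 + x * (0 : Eis) ^ 3 = α ^ 3 := by
      rw [zero_pow (by norm_num), mul_zero, add_zero]
    rw [e1, cube_left hs hα hx]
  set N := α ^ 3 + x * β ^ 3 with hNdef
  have hα3 : α ^ 3 ≠ 0 := pow_ne_zero 3 hα
  have hβ3 : β ^ 3 ≠ 0 := pow_ne_zero 3 hβ
  have hxβ : x * β ^ 3 ≠ 0 := mul_ne_zero hx hβ3
  have hN' : -N ≠ 0 := neg_ne_zero.mpr hN
  have h1 := hs.stein (α ^ 3) (x * β ^ 3) (-N) hα3 hxβ hN' (by rw [hNdef]; ring)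
  rw [cube_left hs hα hxβ, cube_right hs hα hN', zero_add, add_zero] at h1
  have h2 : s (-N) (x * β ^ 3) = 0 := by
    rw [hs.skew _ _ hxβ hN', h1, neg_zero]
  have e2 : -N = (-1) * N := by ring
  rw [e2, hs.mul _ _ _ (by simp) hN hxβ, neg_one_left hs hxβ, zero_add] at h2
  rw [hs.skew _ _ hxβ hN, hs.mul _ _ _ hx hβ3 hN, cube_left hs hβ hN, add_zero] at h2
  rw [hs.skew _ _ hx hN, neg_eq_zero] 
  exact neg_eq_zero.mp h2

lemma norm_lin {x : ℤ} {L : Type} [Field L] [NumberField L] {ι : Eis →+* L} {θ : L}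
    {σ c : L ≃ₐ[ℚ] L} (h : CubF x L ι θ σ c) (α β : Eis) :
    (ι α + ι β * θ) * σ (ι α + ι β * θ) * σ (σ (ι α + ι β * θ))
      = ι (α ^ 3 + (x : Eis) * β ^ 3) := by
  have hw : ι w ^ 2 + ι w + 1 = 0 := by
    have : w ^ 2 + w + 1 = (0 : Eis) := by
      decide
    rw [← map_pow, ← map_one ι, ← map_add, ← map_add, this, map_zero]
  have h3 : ι w ^ 3 = 1 := by
    linear_combination (ι w - 1) * hw
  have e1 : σ (ι α + ι β * θ) = ι α + ι β * (ι w * θ) := by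
    rw [map_add, map_mul, h.sι, h.sι, h.sθ]
  have e2 : σ (σ (ι α + ι β * θ)) = ι α + ι β * (ι w * (ι w * θ)) := by
    rw [e1, map_add, map_mul, map_mul, h.sι, h.sι, h.sι, h.sθ]
  rw [e2, e1]
  have hx : ι (x : Eis) = (x : L) := map_intCast ι x
  rw [map_add, map_mul, map_pow, map_pow, hx, ← h.cube]
  linear_combination (ι α ^ 2 * ι β * θ + ι α * ι β ^ 2 * θ ^ 2 * ι w) * hw
    + ι β ^ 3 * θ ^ 3 * h3

lemma norm_ne {x : ℤ} {L : Type} [Field L] [NumberField L] {ι : Eis →+* L} {θ : L}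
    {σ c : L ≃ₐ[ℚ] L} (h : CubF x L ι θ σ c) {α β : Eis} (hne : ι α + ι β * θ ≠ 0) :
    α ^ 3 + (x : Eis) * β ^ 3 ≠ 0 := by
  intro h0
  have h1 := norm_lin h α β
  rw [h0, map_zero] at h1
  have hs : ∀ y : L, y ≠ 0 → σ y ≠ 0 := fun y hy => (map_ne_zero σ).mpr hy
  exact (mul_ne_zero (mul_ne_zero hne (hs _ hne)) (hs _ (hs _ hne))) h1

end NNS

theorem NNS_thm : NNS := by
  intro x L _ _ ι θ σ c hx hF π s e hs z a b hz ha hb hzab
  have hxE : (x : Eis) ≠ 0 := by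
    intro h0
    have h1 : ι (x : Eis) = (x : L) := map_intCast ι x
    rw [h0, map_zero] at h1
    exact hx (by exact_mod_cast h1.symm)
  obtain ⟨m, a0, b0, d0, hm, hrep⟩ := hF.rep z
  have hmL : (m : L) ≠ 0 := by exact_mod_cast hm
  have hmE : (m : Eis) ≠ 0 := by
    intro h0
    have h1 : ι (m : Eis) = (m : L) := map_intCast ι m
    rw [h0, map_zero] at h1
    exact hmL h1.symm
  obtain ⟨γ, δ, α, β, hγδ, hαβ⟩ : ∃ γ δ α β : Eis, ι γ + ι δ * θ ≠ 0 ∧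
      z * (ι γ + ι δ * θ) * (m : L) = ι α + ι β * θ := by
    by_cases hbd : b0 = 0 ∧ d0 = 0
    · refine ⟨1, 0, a0, 0, ?_, ?_⟩
      · simp
      · rw [hbd.1, hbd.2] at hrep
        simp only [map_zero, zero_mul, add_zero, map_one, mul_one] at hrep ⊢
        rw [mul_comm]; exact hrep
    · refine ⟨b0, -d0, a0 * b0 - d0 ^ 2 * (x : Eis), b0 ^ 2 - a0 * d0, ?_, ?_⟩
      · intro h0
        have h1 := hF.lin b0 (-d0) 0 (by rw [map_zero, zero_mul, add_zero]; exact h0)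
        exact hbd ⟨h1.1, neg_eq_zero.mp h1.2.1⟩
      · have hx' : ι (x : Eis) = (x : L) := map_intCast ι x
        rw [map_sub, map_sub, map_neg, map_mul, map_mul, map_mul, map_pow, map_pow, hx', ← hF.cube]
        linear_combination (ι b0 - ι d0 * θ) * hrep
  have hαβ0 : ι α + ι β * θ ≠ 0 := by
    rw [← hαβ]
    exact mul_ne_zero (mul_ne_zero hz hγδ) hmL
  have hN1 := NNS.norm_ne hF hγδ
  have hN2 := NNS.norm_ne hF hαβ0
  have hkey : a * ((m : Eis) ^ 3 * (γ ^ 3 + (x : Eis) * δ ^ 3)) = b * (α ^ 3 + (x : Eis) * β ^ 3) := by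
    apply hF.inj
    have hm' : ι (m : Eis) = (m : L) := map_intCast ι m
    have hsm : ∀ k : ℤ, σ (k : L) = (k : L) := fun k => map_intCast σ k
    rw [map_mul, map_mul, map_mul, map_pow, hm', ← NNS.norm_lin hF γ δ, ← NNS.norm_lin hF α β, ← hαβ,
      ← hzab]
    simp only [map_mul, hsm]
    ring
  have hl : s (a * ((m : Eis) ^ 3 * (γ ^ 3 + (x : Eis) * δ ^ 3))) (x : Eis) = s a (x : Eis) := by
    rw [hs.mul _ _ _ ha (mul_ne_zero (pow_ne_zero 3 hmE) hN1) hxE,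
      hs.mul _ _ _ (pow_ne_zero 3 hmE) hN1 hxE, NNS.cube_left hs hmE hxE,
      NNS.norm_symbol hs hxE hN1, add_zero, add_zero]
  have hr : s (b * (α ^ 3 + (x : Eis) * β ^ 3)) (x : Eis) = s b (x : Eis) := by
    rw [hs.mul _ _ _ hb hN2 hxE, NNS.norm_symbol hs hxE hN2, add_zero]
  rw [← hl, hkey, hr]

end Pool.Agent.PT


end

section

/-!
# Prime twists of rank zero: the pairing as a function of the prime `Q = 1 (mod 3)`
-/

set_option autoImplicit false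

namespace Pool.Agent.PTE

open Pool.Agent.Lib_helper18 Pool.Agent.Lib_helper18.Eis Pool.Agent.Lib_helper84.Cub
open Pool.Agent.PT

namespace DCONSTS

/-- Cube roots modulo `Q` are lifted. -/
lemma lift_root {Q : ℕ} (hQ : Q.Prime) {r b : ℤ} (h3 : ¬ (Q : ℤ) ∣ 3) (hr : ¬ (Q : ℤ) ∣ r)
    (h : (Q : ℤ) ∣ r ^ 3 - b) (N : ℕ) :
    ∃ r₁ : ℤ, (Q : ℤ) ^ (N + 1) ∣ r₁ ^ 3 - b ∧ (Q : ℤ) ∣ r₁ - r := by
  have hp : Prime (Q : ℤ) := Nat.prime_iff_prime_int.1 hQ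
  induction N with
  | zero => exact ⟨r, by rwa [zero_add, pow_one], by rw [sub_self]; exact dvd_zero _⟩
  | succ N ih =>
    obtain ⟨r₁, ⟨c, hc⟩, h2⟩ := ih
    have hr1 : ¬ (Q : ℤ) ∣ r₁ := by
      intro h4
      apply hr
      have := dvd_sub h4 h2
      rwa [sub_sub_cancel] at this
    have hcop : IsCoprime (3 * r₁ ^ 2) (Q : ℤ) := by
      rw [isCoprime_comm]
      refine (hp.coprime_iff_not_dvd).2 fun h4 => ?_
      rcases hp.dvd_or_dvd h4 with h5 | h5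
      · exact h3 h5
      · exact hr1 (hp.dvd_of_dvd_pow h5)
    obtain ⟨x, y, hxy⟩ := hcop
    refine ⟨r₁ + (Q : ℤ) ^ (N + 1) * (-c * x), ?_, ?_⟩
    · refine ⟨c * y + (Q : ℤ) ^ N * (3 * r₁ * (-c * x) ^ 2 + (Q : ℤ) ^ (N + 1) * (-c * x) ^ 3), ?_⟩
      have e : (r₁ + (Q : ℤ) ^ (N + 1) * (-c * x)) ^ 3 - b = (r₁ ^ 3 - b) +
          (Q : ℤ) ^ (N + 1) * (-c * (x * (3 * r₁ ^ 2))) + (Q : ℤ) ^ (N + 1) *
          ((Q : ℤ) ^ (N + 1) * (3 * r₁ * (-c * x) ^ 2 + (Q : ℤ) ^ (N + 1) * (-c * x) ^ 3)) := by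
        ring
      have e2 : x * (3 * r₁ ^ 2) = 1 - y * Q := by linarith
      rw [e, hc, e2]
      ring
    · have : r₁ + (Q : ℤ) ^ (N + 1) * (-c * x) - r = (r₁ - r) +
          (Q : ℤ) * ((Q : ℤ) ^ N * (-c * x)) := by ring
      rw [this]
      exact dvd_add h2 (Dvd.intro _ rfl)

/-- the symbol at a prime dividing the first argument once -/
lemma tm_one {ρ B L : Eis} (hB : V ρ B = 1) (hL : ¬ ρ ∣ L) : tm ρ B L = - sym ρ L := by
  have h2 : up ρ L = L := by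
    unfold up
    rw [V_eq_zero hL, pow_zero, EuclideanDomain.div_one]
  unfold tm
  rw [V_eq_zero hL, hB]
  unfold ch
  rw [h2]
  simp

lemma conj_Lf (p q r : ℤ) : conj (Lf p q 1 r) = Lf p q 2 r ∧ conj (Lf p q 2 r) = Lf p q 1 r := by
  have h4 : (w ^ 2) ^ 2 = w := by
    rw [← pow_mul, show 2 * 2 = 3 + 1 from rfl, pow_succ, w_cube, one_mul]
  constructor
  · unfold Lf
    rw [map_add, map_mul, map_mul, map_pow, conj_w, conj_intCast, conj_intCast, conj_intCast,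
      pow_one]
  · unfold Lf
    rw [map_add, map_mul, map_mul, map_pow, conj_w, conj_intCast, conj_intCast, conj_intCast,
      pow_one, h4]

end DCONSTS

open DCONST _root_.Pool.Agent.PTE.DCONSTS in
/-- DCONSTS: the pairing `O_{nQ}(b, η)` as a function of the prime `Q = 1 (mod 3)`. -/
theorem DCONSTS_thm (hSTM : STM) (hSPP : SPP) (_hSSL : SSL) (hSLC : SLC) (_hSCJ : SCJ)
    (hLCI : LCI) (hAVV : AVV) (_hLFIN : LFIN) (hSPLT : SPLT) : DCONSTS := by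
  intro n b x p q p' q' hn0 _hn3 hs hb hx
  have hn1 := hs.n1
  have hn2 : p' ^ 3 + b * q' ^ 3 ≠ 0 := by
    intro h
    apply hs.n1
    rw [hs.eq, h, mul_zero]
  have hnz : (n : ℤ) ≠ 0 := by omega
  obtain ⟨M, hMdef⟩ : ∃ M : ℤ, M = (n : ℤ) * b * x * (p ^ 3 + b * q ^ 3) *
    (p' ^ 3 + b * q' ^ 3) := ⟨_, rfl⟩
  have hM : M ≠ 0 := by
    rw [hMdef]
    exact mul_ne_zero (mul_ne_zero (mul_ne_zero (mul_ne_zero hnz hb) hx) hn1) hn2
  have dn : (n : ℤ) ∣ M := ⟨b * x * (p ^ 3 + b * q ^ 3) * (p' ^ 3 + b * q' ^ 3), by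
    rw [hMdef]; ring⟩
  have db : b ∣ M := ⟨(n : ℤ) * x * (p ^ 3 + b * q ^ 3) * (p' ^ 3 + b * q' ^ 3), by
    rw [hMdef]; ring⟩
  have dx : x ∣ M := ⟨(n : ℤ) * b * (p ^ 3 + b * q ^ 3) * (p' ^ 3 + b * q' ^ 3), by
    rw [hMdef]; ring⟩
  have d1 : p ^ 3 + b * q ^ 3 ∣ M := ⟨(n : ℤ) * b * x * (p' ^ 3 + b * q' ^ 3), by
    rw [hMdef]; ring⟩
  have d2 : p' ^ 3 + b * q' ^ 3 ∣ M := ⟨(n : ℤ) * b * x * (p ^ 3 + b * q ^ 3), by
    rw [hMdef]; ring⟩
  have hfin := hSPP.2.2.1 (M : Eis) (cast_ne hM)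
  have hMa : 0 < M.natAbs := Int.natAbs_pos.2 hM
  refine ⟨9 * M.natAbs, by omega, ?_⟩
  intro f hf0 hf
  have h9 : 9 ∣ f := (Dvd.intro _ rfl).trans hf
  have hf1 : 1 < f := by
    have := Nat.le_of_dvd hf0 h9
    omega
  have hMf : M ∣ (f : ℤ) := by
    have h1 : M.natAbs ∣ f := (Dvd.intro_left 9 rfl).trans hf
    exact Int.natAbs_dvd.1 (Int.natCast_dvd_natCast.2 h1)
  have hlamf : lam ^ 4 ∣ ((f : ℤ) : Eis) := by
    have h1 : ((9 : ℤ) : Eis) ∣ ((f : ℤ) : Eis) :=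
      intCast_dvd_intCast.2 (by exact_mod_cast h9)
    refine Dvd.dvd.trans ⟨w ^ 4, ?_⟩ h1
    have h2 : ((9 : ℤ) : Eis) = (3 : Eis) ^ 2 := by norm_num
    rw [h2, three_eq]
    ring
  have hQM : ∀ Q : ℕ, Q.Prime → Q.Coprime f → ¬ (Q : ℤ) ∣ M := by
    intro Q hQ hQf h
    have h1 : (Q : ℤ) ∣ (f : ℤ) := h.trans hMf
    have h2 : Q ∣ f := Int.natCast_dvd_natCast.1 h1
    have h3 := Nat.Coprime.eq_one_of_dvd hQf h2
    exact hQ.one_lt.ne' h3
  have hBne : ∀ Q : ℕ, Q.Prime → (n : ℤ) * Q ≠ 0 := fun Q hQ =>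
    mul_ne_zero hnz (by exact_mod_cast hQ.ne_zero)
  -- the place above `3`
  obtain ⟨c₀, Φ₀, H₀⟩ : ∃ (c : ZMod 3) (Φ : (ZMod f)ˣ →* Multiplicative (ZMod 3)),
      ∀ (Q : ℕ) (hQ : Q.Coprime f), Q.Prime → Adm ((n : ℤ) * Q) x →
        TT none ((n : ℤ) * Q) b x p q p' q' =
          c + (Φ (ZMod.unitOfCoprime Q hQ)).toAdd := by
    by_cases hLC : LC (uni none) b
    · obtain ⟨C, Φ, H⟩ := place_LC (n := (n : ℤ)) hSLC hnz hn1 hn2 hLC hf1 hlamf
      refine ⟨C + sl w (x : Eis), Φ, ?_⟩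
      intro Q hQ hQp hax
      rw [TT_LC hLC]
      obtain ⟨N0, hN0⟩ := (hAVV none ((n : ℤ) * Q) b x p q p' q' (hBne Q hQp) hb hx hs.toSolW
        (sy_zero hSTM hSPP (hBne Q hQp) hax none) hLC).1
      rw [H Q hQ _ N0 hN0]
      show _ + sl w (x : Eis) = _
      ring
    · refine ⟨0, 1, ?_⟩
      intro Q hQ hQp hax
      unfold TT
      rw [if_neg hLC]
      rfl
  -- the places dividing `M`
  have hpl : ∀ π : PP, ∃ (c : ZMod 3) (Φ : (ZMod f)ˣ →* Multiplicative (ZMod 3)),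
      π.1 ∣ (M : Eis) → ∀ (Q : ℕ) (hQ : Q.Coprime f), Q.Prime → Adm ((n : ℤ) * Q) x →
        TT (some π) ((n : ℤ) * Q) b x p q p' q' =
          c + (Φ (ZMod.unitOfCoprime Q hQ)).toAdd := by
    intro π
    by_cases hπM : π.1 ∣ (M : Eis)
    · have hπf : π.1 ∣ ((f : ℤ) : Eis) := hπM.trans (intCast_dvd_intCast.2 hMf)
      by_cases hLC : LC (uni (some π)) b
      · obtain ⟨C, Φ, H⟩ := place_LC (n := (n : ℤ)) (hSTM π.1 π.2.1 (hSPP.2.2.2.1 π).1) hnz hn1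
          hn2 hLC hf1 (by rw [pow_one]; exact hπf)
        refine ⟨C + tm π.1 w (x : Eis), Φ, ?_⟩
        intro _ Q hQ hQp hax
        rw [TT_LC hLC]
        obtain ⟨N0, hN0⟩ := (hAVV (some π) ((n : ℤ) * Q) b x p q p' q' (hBne Q hQp) hb hx
          hs.toSolW (sy_zero hSTM hSPP (hBne Q hQp) hax (some π)) hLC).1
        rw [H Q hQ _ N0 hN0]
        show _ + tm π.1 w (x : Eis) = _
        ring
      · refine ⟨if 3 ∣ V π.1 (b : Eis) + V π.1 ((n : ℤ) : Eis) ∧ ¬ 3 ∣ V π.1 (b : Eis)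
          then - tm π.1 w (x : Eis) else 0, 1, ?_⟩
        intro _ Q hQ hQp hax
        rw [TT_some hLC]
        have hVQ : V π.1 ((Q : ℤ) : Eis) = 0 := by
          apply V_eq_zero
          intro hd
          obtain ⟨y, z, hyz⟩ := Nat.isCoprime_iff_coprime.2 hQ
          apply π.2.1.not_isUnit
          apply isUnit_of_dvd_one
          have h1 : (1 : Eis) = (y : Eis) * ((Q : ℤ) : Eis) + (z : Eis) * ((f : ℤ) : Eis) := by
            have h2 := congrArg (fun t : ℤ => (t : Eis)) hyz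
            simp only [Int.cast_add, Int.cast_mul, Int.cast_one] at h2
            exact h2.symm
          rw [h1]
          exact dvd_add (dvd_mul_of_dvd_right hd _) (dvd_mul_of_dvd_right hπf _)
        have hV : V π.1 (((n : ℤ) * Q : ℤ) : Eis) = V π.1 ((n : ℤ) : Eis) := by
          rw [Int.cast_mul, V_mul π.2.1 (cast_ne hnz) (cast_ne (by exact_mod_cast hQp.ne_zero)),
            hVQ, add_zero]
        rw [hV]
        simp
    · exact ⟨0, 1, fun h => absurd h hπM⟩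
  choose c Φ H using hpl
  refine ⟨c₀ + ∑ π ∈ hfin.toFinset, c π, Φ₀ * ∏ π ∈ hfin.toFinset, Φ π, 0, ?_⟩
  intro Q hQ ρ hQp _ hQ3 hρ hBk hab hax r hr
  obtain ⟨hna, ⟨ρ', hρ'⟩, hdv, hint, hcj, -⟩ := hSPLT.2 Q ρ hQp hQ3 hρ
  have hQc : ((Q : ℤ) : Eis) = (Q : Eis) := Int.cast_natCast Q
  have hQ0 : (Q : Eis) ≠ 0 := by
    rw [← hQc]
    exact cast_ne (by exact_mod_cast hQp.ne_zero)
  have hρ2 : (Q : Eis) = ρ'.1 * conj ρ'.1 := by
    rw [hρ', conj_conj, mul_comm]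
    exact hρ
  have hcjr : conj ρ'.1 = ρ.1 := by rw [hρ', conj_conj]
  have hBcast : (((n : ℤ) * Q : ℤ) : Eis) = ((n : ℤ) : Eis) * (Q : Eis) := by
    rw [Int.cast_mul, hQc]
  have hQM' := hQM Q hQp hQ
  have hp : Prime (Q : ℤ) := Nat.prime_iff_prime_int.1 hQp
  have hrQ : ¬ (Q : ℤ) ∣ r := by
    intro h
    apply hQM'
    refine Dvd.dvd.trans ?_ db
    have h1 := dvd_sub (dvd_pow h (three_ne_zero)) hr
    rwa [sub_sub_cancel] at h1
  have h3Q : ¬ (Q : ℤ) ∣ 3 := by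
    intro h
    have h1 : Q ∣ 3 := by exact_mod_cast h
    have h2 := (Nat.prime_dvd_prime_iff_eq hQp Nat.prime_three).1 h1
    omega
  -- the value at a place above `Q`
  have key : ∀ σ : PP, (Q : Eis) = σ.1 * conj σ.1 → ¬ Associated σ.1 (conj σ.1) →
      (∀ x : ℤ, σ.1 ∣ (x : Eis) ↔ (Q : ℤ) ∣ x) →
      TT (some σ) ((n : ℤ) * Q) b x p q p' q' = - TAUVS σ.1 p q p' q' r := by
    intro σ hσ hσa hσi
    have hnd : ∀ m : ℤ, m ∣ M → ¬ σ.1 ∣ (m : Eis) := by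
      intro m hm h
      exact hQM' (((hσi m).1 h).trans hm)
    have hσw : ¬ σ.1 ∣ w := not_dvd_w σ.2.1
    have hσc : ¬ σ.1 ∣ conj σ.1 := by
      intro h
      apply hσa
      exact σ.2.1.associated_of_dvd (by
        have h1 := (hSPP.2.2.2.1 σ).2
        obtain ⟨τ, hτ⟩ := h1
        rw [← hτ]
        exact τ.2.1) h
    have hc0 : conj σ.1 ≠ 0 := by
      intro h
      apply hQ0
      rw [hσ, h, mul_zero]
    have hVQ : V σ.1 (Q : Eis) = 1 := by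
      rw [hσ, V_mul σ.2.1 σ.2.1.ne_zero hc0, V_self, V_eq_zero hσc]
    have hVB : V σ.1 (((n : ℤ) * Q : ℤ) : Eis) = 1 := by
      rw [hBcast, V_mul_not_dvd σ.2.1 (hnd _ dn) hQ0, hVQ]
    have hLC : LC (uni (some σ)) b := by
      refine (hLCI.1 σ b hb).2 ⟨?_, ?_⟩
      · rw [V_eq_zero (hnd b db)]
        exact dvd_zero 3
      · have h1 := hab.sym σ
        unfold tm at h1
        rw [hVB, V_eq_zero (hnd b db)] at h1
        simpa using h1
    rw [TT_LC hLC]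
    have hw : sy (some σ) w (x : Eis) = 0 := tm_zero hσw (hnd x dx)
    rw [hw, add_zero]
    obtain ⟨N0, hN0⟩ := (hAVV (some σ) ((n : ℤ) * Q) b x p q p' q' (hBne Q hQp) hb hx
      hs.toSolW (sy_zero hSTM hSPP (hBne Q hQp) hax (some σ)) hLC).1
    obtain ⟨r₁, hr₁, hrr⟩ := lift_root hQp h3Q hrQ hr N0
    have hσQ : σ.1 ∣ (Q : Eis) := by
      rw [hσ]
      exact Dvd.intro _ rfl
    have hr0 : σ.1 ^ (N0 + 1) ∣ (r₁ : Eis) ^ 3 - (b : Eis) := by
      have h1 : (Q : Eis) ^ (N0 + 1) ∣ (r₁ : Eis) ^ 3 - (b : Eis) := by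
        have h2 := intCast_dvd_intCast.2 hr₁
        push_cast at h2
        exact h2
      exact (pow_dvd_pow_of_dvd hσQ _).trans h1
    have hr1 : σ.1 ∣ (r₁ : Eis) ^ 3 - (b : Eis) := (dvd_pow_self _ (by omega)).trans hr0
    have hrr' : σ.1 ∣ (r₁ : Eis) - (r : Eis) := by
      have h1 := (hσi (r₁ - r)).2 hrr
      rwa [Int.cast_sub] at h1
    rw [← hN0 r₁ ((pow_dvd_pow _ (Nat.le_succ _)).trans hr0)]
    have hsym : ∀ (g h : ℤ) (i : ℕ), sym σ.1 (Lf g h i r₁) = sym σ.1 (Lf g h i r) := by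
      intro g h i
      apply sym_congr
      have h1 : Lf g h i r₁ - Lf g h i r = (h * w ^ i) * ((r₁ : Eis) - r) := by
        unfold Lf
        ring
      rw [h1]
      exact dvd_mul_of_dvd_right hrr' _
    have k1 := Lf_ndvd (p := p) (q := q) hr1 (hnd _ d1)
    have k2 := Lf_ndvd (p := p') (q := q') hr1 (hnd _ d2)
    show tm σ.1 (((n : ℤ) * Q : ℤ) : Eis) (Lf p q 2 r₁) +
      tm σ.1 (((n : ℤ) * Q : ℤ) : Eis) (Lf p' q' 1 r₁) -
      tm σ.1 (((n : ℤ) * Q : ℤ) : Eis) (Lf p q 1 r₁) -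
      tm σ.1 (((n : ℤ) * Q : ℤ) : Eis) (Lf p' q' 2 r₁) = - TAUVS σ.1 p q p' q' r
    rw [tm_one hVB (k1 2), tm_one hVB (k2 1), tm_one hVB (k1 1), tm_one hVB (k2 2), hsym, hsym,
      hsym, hsym]
    unfold TAUVS
    ring
  have hTρ := key ρ hρ hna hint
  have hTρ' := key ρ' hρ2 (by
    rw [hcjr, hρ']
    exact fun h => hna h.symm) (by
    intro x
    rw [← hint x, hρ']
    constructor
    · rintro ⟨y, hy⟩
      refine ⟨conj y, ?_⟩
      have h1 := congrArg conj hy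
      rw [map_mul, conj_conj, conj_intCast] at h1
      exact h1
    · rintro ⟨y, hy⟩
      refine ⟨conj y, ?_⟩
      have h1 := congrArg conj hy
      rw [map_mul, conj_intCast] at h1
      exact h1)
  -- the two values are equal
  have hnρ : ∀ m : ℤ, m ∣ M → ¬ ρ.1 ∣ (m : Eis) := fun m hm h =>
    hQM' (((hint m).1 h).trans hm)
  have hrρ : ρ.1 ∣ (r : Eis) ^ 3 - (b : Eis) := by
    have h1 := (hint (r ^ 3 - b)).2 hr
    push_cast at h1
    exact h1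
  have l1 := Lf_ndvd (p := p) (q := q) hrρ (hnρ _ d1)
  have l2 := Lf_ndvd (p := p') (q := q') hrρ (hnρ _ d2)
  have hTT : TAUVS ρ'.1 p q p' q' r = TAUVS ρ.1 p q p' q' r := by
    have e1 := hcj _ (l1 1)
    have e2 := hcj _ (l1 2)
    have e3 := hcj _ (l2 1)
    have e4 := hcj _ (l2 2)
    rw [(conj_Lf p q r).1] at e1
    rw [(conj_Lf p q r).2] at e2
    rw [(conj_Lf p' q' r).1] at e3
    rw [(conj_Lf p' q' r).2] at e4
    unfold TAUVS
    rw [hρ', e1, e2, e3, e4]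
    ring
  rw [hTT] at hTρ'
  have hρne : ρ ≠ ρ' := by
    rintro h
    apply hna
    rw [← hρ', ← h]
  -- the sum
  have hnρ' : ¬ ρ'.1 ∣ (M : Eis) := by
    intro h
    obtain ⟨y, hy⟩ := h
    apply hnρ M dvd_rfl
    refine ⟨conj y, ?_⟩
    have h1 := congrArg conj hy
    rw [map_mul, hcjr, conj_intCast] at h1
    exact h1
  have hQS : ρ ∉ hfin.toFinset := by
    rw [Set.Finite.mem_toFinset]
    exact hnρ M dvd_rfl
  have hQS' : ρ' ∉ hfin.toFinset := by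
    rw [Set.Finite.mem_toFinset]
    exact hnρ'
  classical
  have hsupp : (Function.support fun v : Pl => TT v ((n : ℤ) * Q) b x p q p' q') ⊆
      ((insert none (insert (some ρ) (insert (some ρ') (hfin.toFinset.image some))) :
        Finset Pl) : Set Pl) := by
    intro v hv
    by_contra hnv
    apply hv
    rcases v with _ | π
    · exact absurd (Finset.mem_coe.2 (Finset.mem_insert_self _ _)) hnv
    · have hnM : ¬ π.1 ∣ (M : Eis) := by
        intro h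
        apply hnv
        rw [Finset.mem_coe]
        refine Finset.mem_insert_of_mem (Finset.mem_insert_of_mem (Finset.mem_insert_of_mem
          (Finset.mem_image_of_mem _ ?_)))
        rw [Set.Finite.mem_toFinset]
        exact h
      have hπne : π ≠ ρ := by
        rintro rfl
        apply hnv
        rw [Finset.mem_coe]
        exact Finset.mem_insert_of_mem (Finset.mem_insert_self _ _)
      have hπne' : π ≠ ρ' := by
        rintro rfl
        apply hnv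
        rw [Finset.mem_coe]
        exact Finset.mem_insert_of_mem (Finset.mem_insert_of_mem (Finset.mem_insert_self _ _))
      have hd : ∀ m : ℤ, m ∣ M → ¬ π.1 ∣ (m : Eis) := fun m hm h =>
        hnM (h.trans (intCast_dvd_intCast.2 hm))
      have hπQnd : ¬ π.1 ∣ (Q : Eis) := by
        intro h
        rcases hdv π h with h1 | h1
        · exact hπne (Subtype.ext h1)
        · exact hπne' (Subtype.ext (h1.trans hρ'.symm))
      have hnB : ¬ π.1 ∣ (((n : ℤ) * Q : ℤ) : Eis) := by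
        rw [hBcast]
        intro h
        rcases π.2.1.dvd_or_dvd h with h1 | h1
        · exact hd _ dn h1
        · exact hπQnd h1
      have hnw : ¬ π.1 ∣ w := not_dvd_w π.2.1
      show TT (some π) ((n : ℤ) * Q) b x p q p' q' = 0
      by_cases hLC : LC (uni (some π)) b
      · rw [TT_LC hLC]
        have hw : sy (some π) w (x : Eis) = 0 := tm_zero hnw (hd x dx)
        obtain ⟨N0, hN0⟩ := (hAVV (some π) ((n : ℤ) * Q) b x p q p' q' (hBne Q hQp) hb hx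
          hs.toSolW (sy_zero hSTM hSPP (hBne Q hQp) hax (some π)) hLC).1
        obtain ⟨r₁, hr₁⟩ := hLC (max N0 1)
        have hr0 : uni (some π) ^ N0 ∣ (r₁ : Eis) ^ 3 - (b : Eis) :=
          (pow_dvd_pow _ (le_max_left _ _)).trans hr₁
        have hr1 : π.1 ∣ (r₁ : Eis) ^ 3 - (b : Eis) := by
          have h1 : π.1 ^ 1 ∣ (r₁ : Eis) ^ 3 - (b : Eis) :=
            (pow_dvd_pow π.1 (le_max_right N0 1)).trans hr₁
          rwa [pow_one] at h1
        have k1 := Lf_ndvd (p := p) (q := q) hr1 (hd _ d1)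
        have k2 := Lf_ndvd (p := p') (q := q') hr1 (hd _ d2)
        rw [hw, ← hN0 r₁ hr0]
        show tm π.1 (((n : ℤ) * Q : ℤ) : Eis) (Lf p q 2 r₁) +
          tm π.1 (((n : ℤ) * Q : ℤ) : Eis) (Lf p' q' 1 r₁) -
          tm π.1 (((n : ℤ) * Q : ℤ) : Eis) (Lf p q 1 r₁) -
          tm π.1 (((n : ℤ) * Q : ℤ) : Eis) (Lf p' q' 2 r₁) + 0 = 0
        rw [tm_zero hnB (k1 2), tm_zero hnB (k2 1), tm_zero hnB (k1 1), tm_zero hnB (k2 2)]
        simp
      · rw [TT_some hLC, if_neg]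
        rintro ⟨-, h1⟩
        apply h1
        rw [V_eq_zero (hd b db)]
        exact dvd_zero 3
  have hn_notin : (none : Pl) ∉ insert (some ρ) (insert (some ρ')
      (hfin.toFinset.image some)) := by
    simp
  have hρ'_notin : (some ρ' : Pl) ∉ hfin.toFinset.image some := by
    intro h
    obtain ⟨y, hy, hy'⟩ := Finset.mem_image.1 h
    rw [Option.some.injEq] at hy'
    rw [hy'] at hy
    exact hQS' hy
  have hρ_notin : (some ρ : Pl) ∉ insert (some ρ') (hfin.toFinset.image some) := by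
    intro h
    rcases Finset.mem_insert.1 h with h1 | h1
    · exact hρne (Option.some_injective _ h1)
    · obtain ⟨y, hy, hy'⟩ := Finset.mem_image.1 h1
      rw [Option.some.injEq] at hy'
      rw [hy'] at hy
      exact hQS hy
  have hsum : ∑ π ∈ hfin.toFinset, TT (some π) ((n : ℤ) * Q) b x p q p' q' =
      ∑ π ∈ hfin.toFinset, (c π + (Φ π (ZMod.unitOfCoprime Q hQ)).toAdd) := by
    refine Finset.sum_congr rfl ?_
    intro π hπ
    rw [Set.Finite.mem_toFinset] at hπ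
    exact H π hπ Q hQ hQp hax
  unfold OO
  rw [finsum_eq_sum_of_support_subset _ hsupp, Finset.sum_insert hn_notin,
    Finset.sum_insert hρ_notin, Finset.sum_insert hρ'_notin,
    Finset.sum_image (fun _ _ _ _ h => Option.some_injective _ h),
    hsum, hTρ, hTρ', H₀ Q hQ hQp hax, Finset.sum_add_distrib, MonoidHom.mul_apply,
    MonoidHom.finsetProd_apply, toAdd_mul, toAdd_prod]
  have h3 : (3 : ZMod 3) = 0 := rfl
  linear_combination (-(TAUVS ρ.1 p q p' q' r)) * h3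

end Pool.Agent.PTE


end

section

/-!
# Prime twists of rank zero, `k` odd: module DENSS (the density of the primes with nonsingular
matrix, for one hyperplane)
-/

set_option autoImplicit false

open NumberField IsDedekindDomain Finset
open scoped nonZeroDivisors Pointwise

namespace Pool.Agent.PTE

open Pool.Agent.Lib_helper18 Pool.Agent.Lib_helper18.Eis Pool.Agent.Lib_helper84.Cub
open Pool.Agent.PT

namespace DENSS

lemma M1_iff {f : ℕ} [NeZero f] (h3 : 3 ∣ f) (a : (ZMod f)ˣ) :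
    M1 a ↔ ZMod.castHom h3 (ZMod 3) (a : ZMod f) = 1 := by
  have h1 : ZMod.castHom h3 (ZMod 3) (a : ZMod f) = (((a : ZMod f).val : ℕ) : ZMod 3) := by
    rw [ZMod.castHom_apply, ZMod.cast_eq_val]
  rw [h1]
  unfold M1
  have h2 : ((1 : ℕ) : ZMod 3) = 1 := Nat.cast_one
  rw [← h2, ZMod.natCast_eq_natCast_iff']

section inv

variable {G : Type} [Group G] [Finite G] {s f m : ℕ} [NeZero f] {χ : G →* (ZMod f)ˣ}
  {F : G → Prop}
  {t : G → Fin s → Fin s → ZMod 3} {κ : (ZMod f)ˣ →* Multiplicative (Fin (m + 1) → ZMod 3)}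
  {Φ : (ZMod f)ˣ →* Multiplicative (Fin s → Fin s → ZMod 3)}

/-- Generators of conjugate cyclic subgroups have the same data up to a common sign. -/
lemma inv_main (h3 : 3 ∣ f)
    (hconj : ∀ g τ : G, M1 (χ g) → F g →
      F (τ * g * τ⁻¹) ∧ ∀ j i, j ≠ i → t (τ * g * τ⁻¹) j i = t g j i)
    (hpow : ∀ (g : G) (k : ℕ), M1 (χ g) → F g → ¬ 3 ∣ k →
      F (g ^ k) ∧ ∀ j i, j ≠ i → t (g ^ k) j i = k * t g j i)
    {g h τ : G} (hg : M1 (χ g)) (hF : F g) (hne : (κ (χ g)).toAdd ≠ 0)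
    (hz : Subgroup.zpowers h = Subgroup.zpowers (τ * g * τ⁻¹)) :
    M1 (χ h) ∧ F h ∧
    (((κ (χ h)).toAdd = (κ (χ g)).toAdd ∧ (Φ (χ h)).toAdd = (Φ (χ g)).toAdd ∧
        ∀ j i, j ≠ i → t h j i = t g j i) ∨
      ((κ (χ h)).toAdd = - (κ (χ g)).toAdd ∧ (Φ (χ h)).toAdd = - (Φ (χ g)).toAdd ∧
        ∀ j i, j ≠ i → t h j i = - t g j i)) := by
  have hχ : χ (τ * g * τ⁻¹) = χ g := by
    rw [map_mul, map_mul, map_inv, mul_comm (χ τ) (χ g), mul_inv_cancel_right]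
  have hg' : M1 (χ (τ * g * τ⁻¹)) := by rw [hχ]; exact hg
  obtain ⟨hF', htc⟩ := hconj g τ hg hF
  obtain ⟨k, hk⟩ : ∃ k : ℕ, (τ * g * τ⁻¹) ^ k = h := by
    have h1 : h ∈ Subgroup.zpowers (τ * g * τ⁻¹) := hz ▸ Subgroup.mem_zpowers h
    exact mem_powers_iff_mem_zpowers.mpr h1
  obtain ⟨l, hl⟩ : ∃ l : ℕ, h ^ l = τ * g * τ⁻¹ := by
    have h1 : τ * g * τ⁻¹ ∈ Subgroup.zpowers h := hz ▸ Subgroup.mem_zpowers _
    exact mem_powers_iff_mem_zpowers.mpr h1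
  have c1 : χ h = χ g ^ k := by rw [← hk, map_pow, hχ]
  have c2 : χ g = χ h ^ l := by rw [← map_pow, hl, hχ]
  have k1 : (κ (χ h)).toAdd = k • (κ (χ g)).toAdd := by rw [c1, map_pow, toAdd_pow]
  have k2 : (κ (χ g)).toAdd = l • (κ (χ h)).toAdd := by
    rw [← toAdd_pow, ← map_pow, ← c2]
  have p1 : (Φ (χ h)).toAdd = k • (Φ (χ g)).toAdd := by rw [c1, map_pow, toAdd_pow]
  rw [← Nat.cast_smul_eq_nsmul (ZMod 3)] at k1 k2 p1
  have hk0 : (k : ZMod 3) ≠ 0 := by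
    intro h0
    rw [h0, zero_smul] at k1
    rw [k1, smul_zero] at k2
    exact hne k2
  have h3k : ¬ 3 ∣ k := fun hd => hk0 ((ZMod.natCast_eq_zero_iff k 3).mpr hd)
  obtain ⟨hFk, htk⟩ := hpow _ k hg' hF' h3k
  rw [hk] at hFk htk
  have t1 : ∀ j i, j ≠ i → t h j i = k * t g j i := by
    intro j i hji
    rw [htk j i hji, htc j i hji]
  have hM : M1 (χ h) := by
    rw [M1_iff h3] at hg ⊢
    rw [c1, Units.val_pow_eq_pow_val, map_pow, hg, one_pow]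
  refine ⟨hM, hFk, ?_⟩
  have hcases : (k : ZMod 3) = 1 ∨ (k : ZMod 3) = -1 := by
    revert hk0
    generalize (k : ZMod 3) = x
    revert x
    decide
  rcases hcases with hk1 | hk2
  · left
    rw [hk1, one_smul] at k1 p1
    refine ⟨k1, p1, fun j i hji => ?_⟩
    rw [t1 j i hji, hk1, one_mul]
  · right
    rw [hk2, neg_smul, one_smul] at k1 p1
    refine ⟨k1, p1, fun j i hji => ?_⟩
    rw [t1 j i hji, hk2, neg_mul, one_mul]

/-- The count for one class. -/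
lemma count1 (c : Fin (m + 1) → ZMod 3) (R : G → Prop) (R' : (ZMod f)ˣ → G → Prop)
    (hRR : ∀ g, R g ↔ R' (χ g) g) (δ : ℝ)
    (hK : Nat.card {a : (ZMod f)ˣ // M1 a ∧ (κ a).toAdd = c} * (2 * 3 ^ (m + 1)) = f.totient)
    (hb : ∀ a, M1 a → δ * ((Nat.card G : ℝ) / f.totient) ≤
      (Nat.card {g : G // χ g = a ∧ R' a g} : ℝ)) :
    δ * (Nat.card G : ℝ) / (2 * 3 ^ (m + 1)) ≤
      (Nat.card {g : G // (M1 (χ g) ∧ (κ (χ g)).toAdd = c) ∧ R g} : ℝ) := by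
  classical
  have h1 := DENS.card_fib (G := G) (β := (ZMod f)ˣ) χ
    (fun a => M1 a ∧ (κ a).toAdd = c) R
  rw [h1]
  push_cast
  have h2 : ∀ a ∈ univ.filter (fun a : (ZMod f)ˣ => M1 a ∧ (κ a).toAdd = c),
      δ * ((Nat.card G : ℝ) / f.totient) ≤ (Nat.card {g : G // χ g = a ∧ R g} : ℝ) := by
    intro a ha
    simp only [Finset.mem_filter, Finset.mem_univ, true_and] at ha
    refine le_trans (hb a ha.1) (le_of_eq ?_)
    congr 1
    refine Nat.card_congr (Equiv.subtypeEquivRight fun g => ?_)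
    constructor
    · rintro ⟨h3, h4⟩
      exact ⟨h3, (hRR g).mpr (h3.symm ▸ h4)⟩
    · rintro ⟨h3, h4⟩
      exact ⟨h3, h3 ▸ (hRR g).mp h4⟩
  refine le_trans (le_of_eq ?_) (Finset.sum_le_sum h2)
  rw [Finset.sum_const, nsmul_eq_mul]
  rw [Nat.card_eq_fintype_card, Fintype.card_subtype] at hK
  have hφ : (0 : ℝ) < f.totient := by exact_mod_cast Nat.totient_pos.mpr (NeZero.pos f)
  have hK' : ((univ.filter (fun a : (ZMod f)ˣ => M1 a ∧ (κ a).toAdd = c)).card : ℝ) *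
      (2 * 3 ^ (m + 1)) = f.totient := by exact_mod_cast hK
  rw [← hK']
  have h5 : (0 : ℝ) < ((univ.filter (fun a : (ZMod f)ˣ => M1 a ∧ (κ a).toAdd = c)).card : ℝ) := by
    rcases Nat.eq_zero_or_pos (univ.filter (fun a : (ZMod f)ˣ => M1 a ∧ (κ a).toAdd = c)).card with
      h | h
    · rw [h, Nat.cast_zero, zero_mul] at hK'
      linarith
    · exact_mod_cast h
  field_simp

end inv

lemma M1_Q {f Q : ℕ} (h3 : 3 ∣ f) (hc : Q.Coprime f) (h : M1 (ZMod.unitOfCoprime Q hc)) :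
    Q % 3 = 1 := by
  unfold M1 at h
  rw [ZMod.coe_unitOfCoprime, ZMod.val_natCast, Nat.mod_mod_of_dvd _ h3] at h
  exact h

variable {s : ℕ} {C : Fin s → Fin s → ZMod 3}

/-- Transfer of the conditions. -/
lemma det_same {t₁ t₂ P₁ P₂ : Fin s → Fin s → ZMod 3} (hP : P₁ = P₂)
    (ht : ∀ j i, j ≠ i → t₁ j i = t₂ j i) :
    alt (C + P₁ + t₁) = alt (C + P₂ + t₂) ∧ alt (C - P₁ - t₁) = alt (C - P₂ - t₂) := by
  subst hP
  refine ⟨DENS.alt_congr fun j i hji => ?_, DENS.alt_congr fun j i hji => ?_⟩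
  · simp only [Pi.add_apply, ht j i hji.ne]
  · simp only [Pi.sub_apply, ht j i hji.ne]

lemma det_opp {t₁ t₂ P₁ P₂ : Fin s → Fin s → ZMod 3} (hP : P₁ = -P₂)
    (ht : ∀ j i, j ≠ i → t₁ j i = - t₂ j i) :
    alt (C + P₁ + t₁) = alt (C - P₂ - t₂) ∧ alt (C - P₁ - t₁) = alt (C + P₂ + t₂) := by
  subst hP
  refine ⟨DENS.alt_congr fun j i hji => ?_, DENS.alt_congr fun j i hji => ?_⟩
  · simp only [Pi.sub_apply, Pi.add_apply, Pi.neg_apply, ht j i hji.ne]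
    ring
  · simp only [Pi.sub_apply, Pi.add_apply, Pi.neg_apply, ht j i hji.ne]
    ring

end DENSS

open _root_.Pool.Agent.PTE.DENSS in
theorem DENSS_thm (hGALDS : GALDS) (hDCNTS : DCNTS) (hSPLT : SPLT) : DENSS := by
  classical
  intro s b p q p' q' f m κ c C Φ hSys hs hf h9 hc0 hK
  have : NeZero f := ⟨hf.ne'⟩
  have h3f : 3 ∣ f := dvd_trans (by norm_num) h9
  obtain ⟨L, iF, iN, iG, χ, F, t, N₀, hsurj, hconj, hpow, hcnt, hcntF, hfrob⟩ :=
    hGALDS s b p q p' q' f hSys hf h9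
  have hD := hDCNTS s f _ χ F t hs hf hsurj hcnt hcntF
  have hGpos : 0 < Nat.card (L ≃ₐ[ℚ] L) := Nat.card_pos
  let T : Set (L ≃ₐ[ℚ] L) := {g | ((M1 (χ g) ∧ (κ (χ g)).toAdd = c) ∧
      (F g ∧ (alt (C + (Φ (χ g)).toAdd + t g)).det ≠ 0)) ∨
      ((M1 (χ g) ∧ (κ (χ g)).toAdd = -c) ∧
      (F g ∧ (alt (C - (Φ (χ g)).toAdd - t g)).det ≠ 0))}
  have hTdat : ∀ g ∈ T, M1 (χ g) ∧ F g ∧ (κ (χ g)).toAdd ≠ 0 := by
    rintro g (⟨⟨h1, h2⟩, h3, -⟩ | ⟨⟨h1, h2⟩, h3, -⟩)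
    · exact ⟨h1, h3, by rw [h2]; exact hc0⟩
    · exact ⟨h1, h3, by rw [h2]; exact neg_ne_zero.mpr hc0⟩
  have hT : ∀ g h τ : L ≃ₐ[ℚ] L, g ∈ T →
      Subgroup.zpowers h = Subgroup.zpowers (τ * g * τ⁻¹) → h ∈ T := by
    intro g h τ hg hz
    obtain ⟨hM, hFg, hne⟩ := hTdat g hg
    obtain ⟨hM', hFh, hh⟩ := inv_main (κ := κ) (Φ := Φ) h3f hconj hpow hM hFg hne hz
    rcases hh with ⟨e1, e2, e3⟩ | ⟨e1, e2, e3⟩
    · obtain ⟨d1, d2⟩ := det_same (C := C) e2 e3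
      rcases hg with ⟨⟨-, hκ⟩, -, hd⟩ | ⟨⟨-, hκ⟩, -, hd⟩
      · left
        refine ⟨⟨hM', e1.trans hκ⟩, hFh, ?_⟩
        rw [d1]; exact hd
      · right
        refine ⟨⟨hM', e1.trans hκ⟩, hFh, ?_⟩
        rw [d2]; exact hd
    · obtain ⟨d1, d2⟩ := det_opp (C := C) e2 e3
      rcases hg with ⟨⟨-, hκ⟩, -, hd⟩ | ⟨⟨-, hκ⟩, -, hd⟩
      · right
        refine ⟨⟨hM', by rw [e1, hκ]⟩, hFh, ?_⟩
        rw [d2]; exact hd
      · left
        refine ⟨⟨hM', by rw [e1, hκ, neg_neg]⟩, hFh, ?_⟩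
        rw [d1]; exact hd
  have hcard1 := count1 (κ := κ) (χ := χ) c
    (fun g => F g ∧ (alt (C + (Φ (χ g)).toAdd + t g)).det ≠ 0)
    (fun a g => F g ∧ (alt (C + (Φ a).toAdd + t g)).det ≠ 0) (fun g => Iff.rfl)
    (rh s * (2 / 3 ^ (s + 1))) (hK c)
    (fun a ha => (hD a (C + (Φ a).toAdd) ha).1)
  have hcard2 := count1 (κ := κ) (χ := χ) (-c)
    (fun g => F g ∧ (alt (C - (Φ (χ g)).toAdd - t g)).det ≠ 0)
    (fun a g => F g ∧ (alt (C - (Φ a).toAdd - t g)).det ≠ 0) (fun g => Iff.rfl)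
    (rh s * (2 / 3 ^ (s + 1))) (hK (-c))
    (fun a ha => (hD a (C - (Φ a).toAdd) ha).2)
  have hne : c ≠ -c := by
    intro h
    apply hc0
    ext i
    have h1 := congrFun h i
    rw [Pi.neg_apply] at h1
    rw [Pi.zero_apply]
    revert h1
    generalize c i = x
    revert x
    decide
  have hcardT : Nat.card T = Nat.card {g : L ≃ₐ[ℚ] L // (M1 (χ g) ∧ (κ (χ g)).toAdd = c) ∧
      (F g ∧ (alt (C + (Φ (χ g)).toAdd + t g)).det ≠ 0)} +
      Nat.card {g : L ≃ₐ[ℚ] L // (M1 (χ g) ∧ (κ (χ g)).toAdd = -c) ∧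
      (F g ∧ (alt (C - (Φ (χ g)).toAdd - t g)).det ≠ 0)} := by
    have := Fintype.ofFinite (L ≃ₐ[ℚ] L)
    change Nat.card {g : L ≃ₐ[ℚ] L // ((M1 (χ g) ∧ (κ (χ g)).toAdd = c) ∧
      (F g ∧ (alt (C + (Φ (χ g)).toAdd + t g)).det ≠ 0)) ∨
      ((M1 (χ g) ∧ (κ (χ g)).toAdd = -c) ∧
      (F g ∧ (alt (C - (Φ (χ g)).toAdd - t g)).det ≠ 0))} = _
    simp only [Nat.card_eq_fintype_card, Fintype.card_subtype]
    rw [Finset.filter_or, Finset.card_union_of_disjoint]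
    rw [Finset.disjoint_filter]
    rintro g - ⟨⟨-, h1⟩, -⟩ ⟨⟨-, h2⟩, -⟩
    exact hne (h1.symm.trans h2)
  have hF := RI.FROBD_thm L T hT
  have hF2 := RI.PDGE_thm _ (SSS b p q p' q' κ c C Φ ∪
      {Q : ℕ | ∃ (hQ : Q.Coprime f) (ρ : PP), ClQ b κ (-c) Q hQ ρ})
    (Finset.range (N₀ + f + 1)) _ hF (by
    rintro Q ⟨g, hg, P, hP, hQP, hst⟩ hQ hQA
    rw [Finset.mem_range, not_lt] at hQA
    have hcf : Q.Coprime f := by
      rw [Nat.Prime.coprime_iff_not_dvd hQ]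
      intro hd
      have := Nat.le_of_dvd hf hd
      omega
    obtain ⟨hM, hFg, -⟩ := hTdat g hg
    obtain ⟨h1, k, hk, -, hχ, ρ, hρ, hb0, hb1, ht⟩ :=
      hfrob Q hcf hQ (by omega) P g hP hQP hst hM hFg
    have hφT : g ^ k ∈ T := by
      refine hT g (g ^ k) 1 hg ?_
      rw [one_mul, inv_one, mul_one]
      exact DENS.zp hk
    rcases hφT with ⟨⟨-, hκ⟩, -, hd⟩ | ⟨⟨-, hκ⟩, -, hd⟩
    · left
      rw [hχ] at hκ hd
      refine ⟨hcf, ρ, ⟨h1, hκ, hρ, hb0, hb1⟩, fun τ hτ h0 => hd ?_⟩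
      rw [← h0]
      congr 1
      refine DENS.alt_congr fun j i hji => ?_
      obtain ⟨r, hr⟩ : ∃ r : ℤ, (Q : ℤ) ∣ r ^ 3 - b j.castSucc := by
        by_cases hd : (Q : ℤ) ∣ b j.castSucc
        · exact ⟨0, by simpa using hd⟩
        · exact (hSPLT.2 Q ρ hQ h1 hρ).2.2.2.2.2 _ hd (hb0 j)
      simp only [Pi.add_apply]
      rw [ht j i hji.ne r hr, hτ j i hji.ne r hr]
    · right
      rw [hχ] at hκ
      exact ⟨hcf, ρ, h1, hκ, hρ, hb0, hb1⟩)
  refine DENS.dens_mono hF2 ?_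
  have hG : (0 : ℝ) < Nat.card (L ≃ₐ[ℚ] L) := by exact_mod_cast hGpos
  rw [le_div_iff₀ hG, hcardT]
  push_cast
  refine le_trans (le_of_eq ?_) (add_le_add hcard1 hcard2)
  have e1 : (3 : ℝ) ^ (s + m + 2) = 3 ^ (s + 1) * 3 ^ (m + 1) := by
    rw [← pow_add]; congr 1; ring
  rw [e1]
  have h6 : (3 : ℝ) ^ (s + 1) ≠ 0 := by positivity
  have h7 : (3 : ℝ) ^ (m + 1) ≠ 0 := by positivity
  field_simp
  ring

end Pool.Agent.PTE


end

section

/-!
# Prime twists of rank zero, every `n`: module DIRS (upper bound for the primes in a class)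
-/

open NumberField IsDedekindDomain Finset
open scoped nonZeroDivisors Pointwise

namespace Pool.Agent.PTE

open Pool.Agent.Lib_helper18 Pool.Agent.Lib_helper18.Eis Pool.Agent.Lib_helper84.Cub
open Pool.Agent.PT

namespace DIRS

lemma log_nonneg' {s : ℝ} (hs : 1 < s) (hs2 : s ≤ 2) : 0 ≤ Real.log (1 / (s - 1)) := by
  apply Real.log_nonneg
  rw [le_div_iff₀ (by linarith)]
  linarith

open RI.PD in
/-- An upper bound from finitely many residue classes and finitely many numbers. -/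
lemma upper (hDIR : DIR) {f : ℕ} (hf : 0 < f) (𝒞 : Finset (ZMod f)ˣ) (A : Finset ℕ) (R : Set ℕ)
    (hsub : ∀ q ∈ R, q.Prime → q ∉ A → ∃ a ∈ 𝒞, (q : ZMod f) = a) :
    ∃ K : ℝ, ∀ s : ℝ, 1 < s → s ≤ 2 →
      ∑' q : {q : ℕ // q.Prime ∧ q ∈ R}, (q : ℝ) ^ (-s) ≤
        (𝒞.card : ℝ) / f.totient * Real.log (1 / (s - 1)) + K := by
  classical
  have hD : ∀ a : (ZMod f)ˣ, ∃ C : ℝ, ∀ s : ℝ, 1 < s → s ≤ 2 →
    ∑' q : {q : ℕ // q.Prime ∧ (q : ZMod f) = a}, (q : ℝ) ^ (-s) ≤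
      (1 / (f.totient : ℝ)) * Real.log (1 / (s - 1)) + C := fun a => hDIR f a hf
  choose D hD using hD
  refine ⟨A.card + ∑ a ∈ 𝒞, D a, fun s hs hs2 => ?_⟩
  rw [sub_eq]
  have hsum := summ hs
  have hSR := hsum.indicator {q : ℕ | q.Prime ∧ q ∈ R}
  have hSA := hsum.indicator (A : Set ℕ)
  have hSa : ∀ a ∈ 𝒞, Summable (Set.indicator {q : ℕ | q.Prime ∧ (q : ZMod f) = a}
      (fun n : ℕ => (n : ℝ) ^ (-s))) := fun a _ => hsum.indicator _
  have hpt : ∀ n : ℕ, Set.indicator {q : ℕ | q.Prime ∧ q ∈ R} (fun n : ℕ => (n : ℝ) ^ (-s)) n ≤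
      Set.indicator (A : Set ℕ) (fun n : ℕ => (n : ℝ) ^ (-s)) n +
        ∑ a ∈ 𝒞, Set.indicator {q : ℕ | q.Prime ∧ (q : ZMod f) = a}
          (fun n : ℕ => (n : ℝ) ^ (-s)) n := by
    intro n
    have h0 : ∀ a ∈ 𝒞, 0 ≤ Set.indicator {q : ℕ | q.Prime ∧ (q : ZMod f) = a}
        (fun n : ℕ => (n : ℝ) ^ (-s)) n :=
      fun a _ => Set.indicator_nonneg (fun x _ => term_nonneg s x) n
    have hA0 : 0 ≤ Set.indicator (A : Set ℕ) (fun n : ℕ => (n : ℝ) ^ (-s)) n :=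
      Set.indicator_nonneg (fun x _ => term_nonneg s x) n
    have hsum0 := Finset.sum_nonneg h0
    by_cases hn : n ∈ {q : ℕ | q.Prime ∧ q ∈ R}
    · rw [Set.indicator_of_mem hn]
      by_cases hnA : n ∈ (A : Set ℕ)
      · rw [Set.indicator_of_mem hnA]
        linarith
      · obtain ⟨a, ha, hna⟩ := hsub n hn.2 hn.1 (by simpa using hnA)
        have h2 := Finset.single_le_sum h0 ha
        have hna' : n ∈ {q : ℕ | q.Prime ∧ (q : ZMod f) = a} := ⟨hn.1, hna⟩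
        rw [Set.indicator_of_mem hna'] at h2
        linarith
    · rw [Set.indicator_of_notMem hn]
      linarith
  have h2 := hSR.tsum_le_tsum hpt (hSA.add (summable_sum hSa))
  rw [hSA.tsum_add (summable_sum hSa), Summable.tsum_finsetSum hSa] at h2
  have h3 : ∑ a ∈ 𝒞, ∑' n : ℕ, Set.indicator {q : ℕ | q.Prime ∧ (q : ZMod f) = a}
      (fun n : ℕ => (n : ℝ) ^ (-s)) n ≤
      ∑ a ∈ 𝒞, ((1 / (f.totient : ℝ)) * Real.log (1 / (s - 1)) + D a) := by
    refine Finset.sum_le_sum fun a _ => ?_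
    have h4 := hD a s hs hs2
    rwa [DENS.cls_eq] at h4
  rw [Finset.sum_add_distrib, Finset.sum_const, nsmul_eq_mul] at h3
  have h5 : (𝒞.card : ℝ) / f.totient * Real.log (1 / (s - 1)) =
      𝒞.card * (1 / (f.totient : ℝ) * Real.log (1 / (s - 1))) := by ring
  have h6 := fin_le hs A
  rw [h5]
  linarith

end DIRS

open _root_.Pool.Agent.PTE.DIRS in
theorem DIRS_thm (hDIR : DIR) (hCLSC : CLSC) (hCLSCS : CLSCS) : DIRS := by
  classical
  intro m π p hp hp3 hpπ hinj w0 c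
  set f : ℕ := 9 * ∏ i, p i with hfdef
  have hf : 0 < f := Nat.mul_pos (by norm_num) (Finset.prod_pos fun i _ => (hp i).pos)
  have h9 : 9 ∣ f := Dvd.intro _ rfl
  have hpf : ∀ i, p i ∣ f := fun i => Dvd.dvd.mul_left (Finset.dvd_prod_of_mem _ (mem_univ i)) 9
  have : NeZero f := ⟨hf.ne'⟩
  have h3f : 3 ∣ f := dvd_trans (by norm_num) h9
  obtain ⟨κ, hκ, hM2⟩ := hCLSC m π p hp hp3 hpπ hinj f hf h9 hpf
  have hM1 := hCLSCS f m κ hf h9 hM2 (Fin.cons w0 c)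
  set 𝒞 : Finset (ZMod f)ˣ := univ.filter (fun a : (ZMod f)ˣ => M1 a ∧
    (κ a).toAdd = (Fin.cons w0 c : Fin (m + 1) → ZMod 3)) with h𝒞
  obtain ⟨K, hK⟩ := upper hDIR hf 𝒞 f.divisors {q : ℕ | InClS π w0 c q} (by
    rintro q ⟨hq3, hq0, hqc⟩ hq hqA
    have hcop : q.Coprime f := by
      rw [Nat.Prime.coprime_iff_not_dvd hq]
      intro hd
      exact hqA (Nat.mem_divisors.mpr ⟨hd, hf.ne'⟩)
    refine ⟨ZMod.unitOfCoprime q hcop, ?_, by rw [ZMod.coe_unitOfCoprime]⟩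
    rw [h𝒞, Finset.mem_filter]
    refine ⟨mem_univ _, ?_, ?_⟩
    · unfold M1
      rw [ZMod.coe_unitOfCoprime, ZMod.val_natCast, Nat.mod_mod_of_dvd _ h3f]
      exact hq3
    · rw [hκ q hcop, hq0]
      congr 1
      funext i
      exact hqc i)
  refine ⟨K, fun s hs hs2 => (hK s hs hs2).trans_eq ?_⟩
  have hφ : 0 < f.totient := Nat.totient_pos.mpr hf
  rw [Nat.card_eq_fintype_card, Fintype.card_subtype] at hM1
  have e1 : (𝒞.card : ℝ) / f.totient = 1 / (2 * 3 ^ (m + 1)) := by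
    rw [div_eq_div_iff (by exact_mod_cast hφ.ne') (by positivity), one_mul]
    exact_mod_cast hM1
  rw [e1]

end Pool.Agent.PTE


end

section

/-!
# Prime power twists: the pairing `O_{n Q^E}(b, η)` as a function of the prime and of the exponent
-/

set_option autoImplicit false

namespace Pool.Agent.PTL

open Pool.Agent.PT Pool.Agent.Lib_helper18 Pool.Agent.Lib_helper18.Eis Pool.Agent.Lib_helper84.Cub

/-- DCE: the pairing `O_{nQ^E}(b, η)` as a function of the prime `Q` and of `E`. -/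
def DCE : Prop := ∀ (n : ℕ) (b x p q p' q' : ℤ), 0 < n → Sol b x p q p' q' →
  b ≠ 0 → x ≠ 0 → ∃ f₀ : ℕ, 0 < f₀ ∧ ∀ f : ℕ, 0 < f → f₀ ∣ f →
  ∃ (C : ZMod 3) (Φ : (ZMod f)ˣ →* Multiplicative (ZMod 3)),
    ∀ (E Q : ℕ) (hQ : Q.Coprime f), Q.Prime → Q % 3 = 2 → Adm ((n : ℤ) * Q ^ E) x →
      ∀ r : ℤ, (Q : ℤ) ∣ r ^ 3 - b → OO ((n : ℤ) * Q ^ E) b x p q p' q' =
        C + E * ((Φ (ZMod.unitOfCoprime Q hQ)).toAdd - TAUV Q p q p' q' r)

namespace DC

open DCONST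

lemma AS_pow {u : Eis} {s : Eis → Eis → ZMod 3} {e : ℕ} (h : LSym u s e) {p q p' q' r : ℤ}
    (hr : ∀ i, Lf p q i r ≠ 0) (hr' : ∀ i, Lf p' q' i r ≠ 0) {B : Eis}
    (hB : B ≠ 0) (E : ℕ) : AS s (B ^ E) p q p' q' r = E * AS s B p q p' q' r := by
  induction E with
  | zero =>
    have h1 := AS_mul h hr hr' (A := 1) (B := 1) one_ne_zero one_ne_zero
    rw [mul_one] at h1
    rw [pow_zero, Nat.cast_zero, zero_mul]
    exact left_eq_add.1 h1
  | succ E ih =>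
    rw [pow_succ, AS_mul h hr hr' (pow_ne_zero _ hB) hB, ih]
    push_cast
    ring

/-- places where `b` is a cube -/
lemma place_LC {u : Eis} {s : Eis → Eis → ZMod 3} {e : ℕ} (h : LSym u s e)
    {b p q p' q' n : ℤ} (hn0 : n ≠ 0) (hn : p ^ 3 + b * q ^ 3 ≠ 0)
    (hn' : p' ^ 3 + b * q' ^ 3 ≠ 0) (hLC : LC u b) {f : ℕ} (hf : 1 < f)
    (huf : u ^ e ∣ ((f : ℤ) : Eis)) :
    ∃ (C : ZMod 3) (Φ : (ZMod f)ˣ →* Multiplicative (ZMod 3)),
      ∀ (E Q : ℕ) (hQ : Q.Coprime f) (c : ZMod 3) (N0 : ℕ),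
      (∀ r : ℤ, u ^ N0 ∣ (r : Eis) ^ 3 - (b : Eis) →
        AS s ((n * Q ^ E : ℤ) : Eis) p q p' q' r = c) →
      c = C + E * (Φ (ZMod.unitOfCoprime Q hQ)).toAdd := by
  obtain ⟨r, hr, hr', H⟩ := exists_root h hn hn' hLC
  have hne : ∀ a : ℤ, IsCoprime a (f : ℤ) → (a : Eis) ≠ 0 := by
    intro a ha
    apply cast_ne
    rintro rfl
    have h1 := isCoprime_zero_left.1 ha
    have h2 := Int.isUnit_iff.1 h1
    omega
  have huf1 : u ∣ ((f : ℤ) : Eis) := by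
    have h1 : u ^ 1 ∣ u ^ e := pow_dvd_pow u h.pos
    rw [pow_one] at h1
    exact h1.trans huf
  have hV : ∀ a : ℤ, IsCoprime a (f : ℤ) → V u (a : Eis) = 0 := by
    intro a ha
    apply V_eq_zero
    intro hd
    obtain ⟨x, y, hxy⟩ := ha
    apply h.prime.not_isUnit
    apply isUnit_of_dvd_one
    have h1 : (1 : Eis) = (x : Eis) * (a : Eis) + (y : Eis) * ((f : ℤ) : Eis) := by
      have h2 := congrArg (fun t : ℤ => (t : Eis)) hxy
      simp only [Int.cast_add, Int.cast_mul, Int.cast_one] at h2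
      exact h2.symm
    rw [h1]
    exact dvd_add (dvd_mul_of_dvd_right hd _) (dvd_mul_of_dvd_right huf1 _)
  obtain ⟨Φ, hΦ⟩ := exists_hom hf (fun a => AS s (a : Eis) p q p' q' r) (by
    intro a c ha hc
    show AS s ((a * c : ℤ) : Eis) p q p' q' r = _
    rw [Int.cast_mul]
    exact AS_mul h hr hr' (hne a ha) (hne c hc)) (by
    intro a c ha hc hd
    have h1 : u ^ (V u (a : Eis) + e) ∣ (c : Eis) - (a : Eis) := by
      rw [hV a ha, zero_add, ← Int.cast_sub]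
      exact huf.trans (intCast_dvd_intCast.2 hd)
    show AS s (c : Eis) p q p' q' r = AS s (a : Eis) p q p' q' r
    unfold AS
    rw [h.cont _ _ _ (hne a ha) (hr 2) h1, h.cont _ _ _ (hne a ha) (hr' 1) h1,
      h.cont _ _ _ (hne a ha) (hr 1) h1, h.cont _ _ _ (hne a ha) (hr' 2) h1])
  refine ⟨AS s (n : Eis) p q p' q' r, Φ, ?_⟩
  intro E Q hQ c N0 hc
  have hQ0 : ((Q : ℤ) : Eis) ≠ 0 := hne Q (Nat.isCoprime_iff_coprime.2 hQ)
  have hB : ((n * Q ^ E : ℤ) : Eis) = (n : Eis) * ((Q : ℤ) : Eis) ^ E := by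
    rw [Int.cast_mul, Int.cast_pow]
  rw [hΦ, ← H ((n * Q ^ E : ℤ) : Eis) c N0
    (by rw [hB]; exact mul_ne_zero (cast_ne hn0) (pow_ne_zero _ hQ0)) hc, hB,
    AS_mul h hr hr' (cast_ne hn0) (pow_ne_zero _ hQ0), AS_pow h hr hr' hQ0]

/-- the symbol at an inert prime -/
lemma tm_inert {Q : Eis} {n : ℤ} (hQ : Prime Q) (hn : ¬ Q ∣ (n : Eis)) {L : Eis}
    (hL : ¬ Q ∣ L) (E : ℕ) : tm Q ((n : Eis) * Q ^ E) L = - (E * sym Q L) := by
  have h1 : V Q ((n : Eis) * Q ^ E) = E := by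
    rw [V_mul_not_dvd hQ hn (pow_ne_zero _ hQ.ne_zero), V_pow hQ hQ.ne_zero, V_self, mul_one]
  have h2 : up Q L = L := by
    unfold up
    rw [V_eq_zero hL, pow_zero, EuclideanDomain.div_one]
  unfold tm
  rw [V_eq_zero hL, h1]
  unfold ch
  rw [h2]
  simp

end DC

open DCONST in
/-- DCE: the pairing `O_{nQ^E}(b, η)` as a function of the prime `Q`. -/
theorem DCE_thm (hSTM : STM) (hSPP : SPP) (hSLC : SLC)
    (hLCI : LCI) (hAVV : AVV) : DCE := by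
  intro n b x p q p' q' hn0 hs hb hx
  have hn1 := hs.n1
  have hn2 : p' ^ 3 + b * q' ^ 3 ≠ 0 := by
    intro h
    apply hs.n1
    rw [hs.eq, h, mul_zero]
  have hnz : (n : ℤ) ≠ 0 := by omega
  obtain ⟨M, hMdef⟩ : ∃ M : ℤ, M = (n : ℤ) * b * x * (p ^ 3 + b * q ^ 3) *
    (p' ^ 3 + b * q' ^ 3) := ⟨_, rfl⟩
  have hM : M ≠ 0 := by
    rw [hMdef]
    exact mul_ne_zero (mul_ne_zero (mul_ne_zero (mul_ne_zero hnz hb) hx) hn1) hn2
  have dn : (n : ℤ) ∣ M := ⟨b * x * (p ^ 3 + b * q ^ 3) * (p' ^ 3 + b * q' ^ 3), by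
    rw [hMdef]; ring⟩
  have db : b ∣ M := ⟨(n : ℤ) * x * (p ^ 3 + b * q ^ 3) * (p' ^ 3 + b * q' ^ 3), by
    rw [hMdef]; ring⟩
  have dx : x ∣ M := ⟨(n : ℤ) * b * (p ^ 3 + b * q ^ 3) * (p' ^ 3 + b * q' ^ 3), by
    rw [hMdef]; ring⟩
  have d1 : p ^ 3 + b * q ^ 3 ∣ M := ⟨(n : ℤ) * b * x * (p' ^ 3 + b * q' ^ 3), by
    rw [hMdef]; ring⟩
  have d2 : p' ^ 3 + b * q' ^ 3 ∣ M := ⟨(n : ℤ) * b * x * (p ^ 3 + b * q ^ 3), by
    rw [hMdef]; ring⟩
  have hfin := hSPP.2.2.1 (M : Eis) (cast_ne hM)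
  have hMa : 0 < M.natAbs := Int.natAbs_pos.2 hM
  refine ⟨9 * M.natAbs, by omega, ?_⟩
  intro f hf0 hf
  have h9 : 9 ∣ f := (Dvd.intro _ rfl).trans hf
  have hf1 : 1 < f := by
    have := Nat.le_of_dvd hf0 h9
    omega
  have hMf : M ∣ (f : ℤ) := by
    have h1 : M.natAbs ∣ f := (Dvd.intro_left 9 rfl).trans hf
    exact Int.natAbs_dvd.1 (Int.natCast_dvd_natCast.2 h1)
  have hlamf : lam ^ 4 ∣ ((f : ℤ) : Eis) := by
    have h1 : ((9 : ℤ) : Eis) ∣ ((f : ℤ) : Eis) :=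
      intCast_dvd_intCast.2 (by exact_mod_cast h9)
    refine Dvd.dvd.trans ⟨w ^ 4, ?_⟩ h1
    have h2 : ((9 : ℤ) : Eis) = (3 : Eis) ^ 2 := by norm_num
    rw [h2, three_eq]
    ring
  have hQM : ∀ Q : ℕ, Q.Prime → Q.Coprime f → ¬ (Q : ℤ) ∣ M := by
    intro Q hQ hQf h
    have h1 : (Q : ℤ) ∣ (f : ℤ) := h.trans hMf
    have h2 : Q ∣ f := Int.natCast_dvd_natCast.1 h1
    have h3 := Nat.Coprime.eq_one_of_dvd hQf h2
    exact hQ.one_lt.ne' h3
  have hBne : ∀ E Q : ℕ, Q.Prime → (n : ℤ) * Q ^ E ≠ 0 := fun E Q hQ =>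
    mul_ne_zero hnz (pow_ne_zero _ (by exact_mod_cast hQ.ne_zero))
  -- the place above `3`
  obtain ⟨c₀, Φ₀, H₀⟩ : ∃ (c : ZMod 3) (Φ : (ZMod f)ˣ →* Multiplicative (ZMod 3)),
      ∀ (E Q : ℕ) (hQ : Q.Coprime f), Q.Prime → Adm ((n : ℤ) * Q ^ E) x →
        TT none ((n : ℤ) * Q ^ E) b x p q p' q' =
          c + E * (Φ (ZMod.unitOfCoprime Q hQ)).toAdd := by
    by_cases hLC : LC (uni none) b
    · obtain ⟨C, Φ, H⟩   := DC.place_LC (n := (n : ℤ)) hSLC hnz hn1 hn2 hLC hf1 hlamf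
      refine ⟨C + sl w (x : Eis), Φ, ?_⟩
      intro E Q hQ hQp hax
      rw [TT_LC hLC]
      obtain ⟨N0, hN0⟩ := (hAVV none ((n : ℤ) * Q ^ E) b x p q p' q' (hBne E Q hQp) hb hx hs.toSolW
        (sy_zero hSTM hSPP (hBne E Q hQp) hax none) hLC).1
      rw [H E Q hQ _ N0 hN0]
      show _ + sl w (x : Eis) = _
      ring
    · refine ⟨0, 1, ?_⟩
      intro E Q hQ hQp hax
      unfold TT
      rw [if_neg hLC]
      simp
  -- the places dividing `M`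
  have hpl : ∀ π : PP, ∃ (c : ZMod 3) (Φ : (ZMod f)ˣ →* Multiplicative (ZMod 3)),
      π.1 ∣ (M : Eis) → ∀ (E Q : ℕ) (hQ : Q.Coprime f), Q.Prime → Adm ((n : ℤ) * Q ^ E) x →
        TT (some π) ((n : ℤ) * Q ^ E) b x p q p' q' =
          c + E * (Φ (ZMod.unitOfCoprime Q hQ)).toAdd := by
    intro π
    by_cases hπM : π.1 ∣ (M : Eis)
    · have hπf : π.1 ∣ ((f : ℤ) : Eis) := hπM.trans (intCast_dvd_intCast.2 hMf)
      by_cases hLC : LC (uni (some π)) b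
      · obtain ⟨C, Φ, H⟩   := DC.place_LC (n := (n : ℤ)) (hSTM π.1 π.2.1 (hSPP.2.2.2.1 π).1) hnz hn1
          hn2 hLC hf1 (by rw [pow_one]; exact hπf)
        refine ⟨C + tm π.1 w (x : Eis), Φ, ?_⟩
        intro _ E Q hQ hQp hax
        rw [TT_LC hLC]
        obtain ⟨N0, hN0⟩ := (hAVV (some π) ((n : ℤ) * Q ^ E) b x p q p' q' (hBne E Q hQp) hb hx
          hs.toSolW (sy_zero hSTM hSPP (hBne E Q hQp) hax (some π)) hLC).1
        rw [H E Q hQ _ N0 hN0]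
        show _ + tm π.1 w (x : Eis) = _
        ring
      · refine ⟨if 3 ∣ V π.1 (b : Eis) + V π.1 ((n : ℤ) : Eis) ∧ ¬ 3 ∣ V π.1 (b : Eis)
          then - tm π.1 w (x : Eis) else 0, 1, ?_⟩
        intro _ E Q hQ hQp hax
        rw [TT_some hLC]
        have hVQ : V π.1 ((Q : ℤ) : Eis) = 0 := by
          apply V_eq_zero
          intro hd
          obtain ⟨y, z, hyz⟩ := Nat.isCoprime_iff_coprime.2 hQ
          apply π.2.1.not_isUnit
          apply isUnit_of_dvd_one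
          have h1 : (1 : Eis) = (y : Eis) * ((Q : ℤ) : Eis) + (z : Eis) * ((f : ℤ) : Eis) := by
            have h2 := congrArg (fun t : ℤ => (t : Eis)) hyz
            simp only [Int.cast_add, Int.cast_mul, Int.cast_one] at h2
            exact h2.symm
          rw [h1]
          exact dvd_add (dvd_mul_of_dvd_right hd _) (dvd_mul_of_dvd_right hπf _)
        have hV : V π.1 (((n : ℤ) * Q ^ E : ℤ) : Eis) = V π.1 ((n : ℤ) : Eis) := by
          have hQe : ((Q : ℤ) : Eis) ≠ 0 := cast_ne (by exact_mod_cast hQp.ne_zero)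
          rw [Int.cast_mul, Int.cast_pow, V_mul π.2.1 (cast_ne hnz) (pow_ne_zero _ hQe),
            V_pow π.2.1 hQe, hVQ, mul_zero, add_zero]
        rw [hV]
        simp
    · exact ⟨0, 1, fun h => absurd h hπM⟩
  choose c Φ H using hpl
  refine ⟨c₀ + ∑ π ∈ hfin.toFinset, c π, Φ₀ * ∏ π ∈ hfin.toFinset, Φ π, ?_⟩
  intro E Q hQ hQp hQ3 hax r hr
  obtain ⟨πQ, hπQ⟩ := hSPP.2.2.2.2.1 Q hQp hQ3
  have hQc : ((Q : ℤ) : Eis) = (Q : Eis) := Int.cast_natCast Q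
  have hπQ' : πQ.1 = ((Q : ℤ) : Eis) := by rw [hπQ, hQc]
  have hQnd : ∀ m : ℤ, m ∣ M → ¬ πQ.1 ∣ (m : Eis) := by
    intro m hm h
    rw [hπQ'] at h
    exact hQM Q hQp hQ ((intCast_dvd_intCast.1 h).trans hm)
  have hQw : ¬ πQ.1 ∣ w := not_dvd_w πQ.2.1
  have hBcast : (((n : ℤ) * Q ^ E : ℤ) : Eis) = ((n : ℤ) : Eis) * πQ.1 ^ E := by
    rw [Int.cast_mul, Int.cast_pow, hπQ']
  -- the place `Q`
  have hTQ : TT (some πQ) ((n : ℤ) * Q ^ E) b x p q p' q' = - (E * TAUV Q p q p' q' r) := by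
    have hLC : LC (uni (some πQ)) b := by
      refine (hLCI.1 πQ b hb).2 ⟨?_, ?_⟩
      · rw [V_eq_zero (hQnd b db)]
        exact dvd_zero 3
      · unfold ch up
        rw [V_eq_zero (hQnd b db), pow_zero, EuclideanDomain.div_one, hπQ]
        refine sym_int hQp hQ3 ?_
        intro h
        exact hQM Q hQp hQ (h.trans db)
    rw [TT_LC hLC]
    have hw : sy (some πQ) w (x : Eis) = 0 := tm_zero hQw (hQnd x dx)
    rw [hw, add_zero]
    refine (hAVV (some πQ) ((n : ℤ) * Q ^ E) b x p q p' q' (hBne E Q hQp) hb hx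
      hs.toSolW (sy_zero hSTM hSPP (hBne E Q hQp) hax (some πQ)) hLC).2 _ 1 ?_
    intro r' hr'
    have hr1 : πQ.1 ∣ (r' : Eis) ^ 3 - (b : Eis) := by
      have h1 : πQ.1 ^ 1 ∣ (r' : Eis) ^ 3 - (b : Eis) := hr'
      rwa [pow_one] at h1
    have hrr : (Q : ℤ) ∣ r' - r := by
      apply root_unique hQp hQ3
      have h1 : (Q : ℤ) ∣ r' ^ 3 - b := by
        rw [hπQ'] at hr1
        apply intCast_dvd_intCast.1
        push_cast
        push_cast at hr1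
        exact hr1
      have h2 : r' ^ 3 - r ^ 3 = (r' ^ 3 - b) - (r ^ 3 - b) := by ring
      rw [h2]
      exact dvd_sub h1 hr
    have hrr' : πQ.1 ∣ (r' : Eis) - (r : Eis) := by
      rw [hπQ', ← Int.cast_sub]
      exact intCast_dvd_intCast.2 hrr
    have hsym : ∀ (g h : ℤ) (i : ℕ), sym (Q : Eis) (Lf g h i r') = sym (Q : Eis) (Lf g h i r) := by
      intro g h i
      apply sym_congr
      rw [← hπQ]
      have h1 : Lf g h i r' - Lf g h i r = (h * w ^ i) * ((r' : Eis) - r) := by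
        unfold Lf
        ring
      rw [h1]
      exact dvd_mul_of_dvd_right hrr' _
    have k1 := Lf_ndvd (p := p) (q := q) hr1 (hQnd _ d1)
    have k2 := Lf_ndvd (p := p') (q := q') hr1 (hQnd _ d2)
    show tm πQ.1 (((n : ℤ) * Q ^ E : ℤ) : Eis) (Lf p q 2 r') +
      tm πQ.1 (((n : ℤ) * Q ^ E : ℤ) : Eis) (Lf p' q' 1 r') -
      tm πQ.1 (((n : ℤ) * Q ^ E : ℤ) : Eis) (Lf p q 1 r') -
      tm πQ.1 (((n : ℤ) * Q ^ E : ℤ) : Eis) (Lf p' q' 2 r') = - (E * TAUV Q p q p' q' r)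
    rw [hBcast, DC.tm_inert πQ.2.1 (hQnd _ dn) (k1 2), DC.tm_inert πQ.2.1 (hQnd _ dn) (k2 1),
      DC.tm_inert πQ.2.1 (hQnd _ dn) (k1 1), DC.tm_inert πQ.2.1 (hQnd _ dn) (k2 2), hπQ, hsym, hsym,
      hsym, hsym]
    unfold TAUV
    ring
  -- the sum
  have hQS : πQ ∉ hfin.toFinset := by
    rw [Set.Finite.mem_toFinset]
    exact hQnd M dvd_rfl
  classical
  have hsupp : (Function.support fun v : Pl => TT v ((n : ℤ) * Q ^ E) b x p q p' q') ⊆
      ((insert none (insert (some πQ) (hfin.toFinset.image some)) : Finset Pl) : Set Pl) := by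
    intro v hv
    by_contra hnv
    apply hv
    rcases v with _ | π
    · exact absurd (Finset.mem_coe.2 (Finset.mem_insert_self _ _)) hnv
    · have hnM : ¬ π.1 ∣ (M : Eis) := by
        intro h
        apply hnv
        rw [Finset.mem_coe]
        refine Finset.mem_insert_of_mem (Finset.mem_insert_of_mem (Finset.mem_image_of_mem _ ?_))
        rw [Set.Finite.mem_toFinset]
        exact h
      have hπne : π ≠ πQ := by
        rintro rfl
        apply hnv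
        rw [Finset.mem_coe]
        exact Finset.mem_insert_of_mem (Finset.mem_insert_self _ _)
      have hd : ∀ m : ℤ, m ∣ M → ¬ π.1 ∣ (m : Eis) := fun m hm h =>
        hnM (h.trans (intCast_dvd_intCast.2 hm))
      have hπQnd : ¬ π.1 ∣ πQ.1 := by
        intro h
        exact hπne (hSPP.2.1 π πQ (π.2.1.associated_of_dvd πQ.2.1 h))
      have hnB : ¬ π.1 ∣ (((n : ℤ) * Q ^ E : ℤ) : Eis) := by
        rw [hBcast]
        intro h
        rcases π.2.1.dvd_or_dvd h with h1 | h1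
        · exact hd _ dn h1
        · exact hπQnd (π.2.1.dvd_of_dvd_pow h1)
      have hnw : ¬ π.1 ∣ w := not_dvd_w π.2.1
      show TT (some π) ((n : ℤ) * Q ^ E) b x p q p' q' = 0
      by_cases hLC : LC (uni (some π)) b
      · rw [TT_LC hLC]
        have hw : sy (some π) w (x : Eis) = 0 := tm_zero hnw (hd x dx)
        obtain ⟨N0, hN0⟩ := (hAVV (some π) ((n : ℤ) * Q ^ E) b x p q p' q' (hBne E Q hQp) hb hx
          hs.toSolW (sy_zero hSTM hSPP (hBne E Q hQp) hax (some π)) hLC).1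
        obtain ⟨r₁, hr₁⟩ := hLC (max N0 1)
        have hr0 : uni (some π) ^ N0 ∣ (r₁ : Eis) ^ 3 - (b : Eis) :=
          (pow_dvd_pow _ (le_max_left _ _)).trans hr₁
        have hr1 : π.1 ∣ (r₁ : Eis) ^ 3 - (b : Eis) := by
          have h1 : π.1 ^ 1 ∣ (r₁ : Eis) ^ 3 - (b : Eis) :=
            (pow_dvd_pow π.1 (le_max_right N0 1)).trans hr₁
          rwa [pow_one] at h1
        have k1 := Lf_ndvd (p := p) (q := q) hr1 (hd _ d1)
        have k2 := Lf_ndvd (p := p') (q := q') hr1 (hd _ d2)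
        rw [hw, ← hN0 r₁ hr0]
        show tm π.1 (((n : ℤ) * Q ^ E : ℤ) : Eis) (Lf p q 2 r₁) +
          tm π.1 (((n : ℤ) * Q ^ E : ℤ) : Eis) (Lf p' q' 1 r₁) -
          tm π.1 (((n : ℤ) * Q ^ E : ℤ) : Eis) (Lf p q 1 r₁) -
          tm π.1 (((n : ℤ) * Q ^ E : ℤ) : Eis) (Lf p' q' 2 r₁) + 0 = 0
        rw [tm_zero hnB (k1 2), tm_zero hnB (k2 1), tm_zero hnB (k1 1), tm_zero hnB (k2 2)]
        simp
      · rw [TT_some hLC, if_neg]
        rintro ⟨-, h1⟩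
        apply h1
        rw [V_eq_zero (hd b db)]
        exact dvd_zero 3
  have hn_notin : (none : Pl) ∉ insert (some πQ) (hfin.toFinset.image some) := by
    simp
  have hQ_notin : (some πQ : Pl) ∉ hfin.toFinset.image some := by
    intro h
    obtain ⟨y, hy, hy'⟩ := Finset.mem_image.1 h
    rw [Option.some.injEq] at hy'
    rw [hy'] at hy
    exact hQS hy
  have hsum : ∑ π ∈ hfin.toFinset, TT (some π) ((n : ℤ) * Q ^ E) b x p q p' q' =
      ∑ π ∈ hfin.toFinset, (c π + E * (Φ π (ZMod.unitOfCoprime Q hQ)).toAdd) := by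
    refine Finset.sum_congr rfl ?_
    intro π hπ
    rw [Set.Finite.mem_toFinset] at hπ
    exact H π hπ E Q hQ hQp hax
  unfold OO
  rw [finsum_eq_sum_of_support_subset _ hsupp, Finset.sum_insert hn_notin,
    Finset.sum_insert hQ_notin, Finset.sum_image (fun _ _ _ _ h => Option.some_injective _ h),
    hsum, hTQ, H₀ E Q hQ hQp hax, Finset.sum_add_distrib, MonoidHom.mul_apply,
    MonoidHom.finsetProd_apply, toAdd_mul, toAdd_prod, ← Finset.mul_sum]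
  ring

end Pool.Agent.PTL


end

section

/-!
# Prime twists of rank zero, `n` divisible by `3`: the pairing as a function of the prime
`Q = 1 (mod 3)` and of the exponent `E`
-/

set_option autoImplicit false

namespace Pool.Agent.PT3

open Pool.Agent.Lib_helper18 Pool.Agent.Lib_helper18.Eis Pool.Agent.Lib_helper84.Cub
open Pool.Agent.PT Pool.Agent.PTE

namespace DCOU

open Pool.Agent.PT.DCONST

lemma sy_zero (hSTM : STM) (hSPP : SPP) {B x : ℤ} (hB : B ≠ 0) (hx : AG B x) (v : Pl) :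
    sy v (B : Eis) (x : Eis) = 0 := by
  have h1 : ∀ π : PP, tm π.1 (B : Eis) (x : Eis) = 0 := by
    intro π
    have h1 := (hSTM π.1 π.2.1 (hSPP.2.2.2.1 π).1).skew (x : Eis) (B : Eis)
      (cast_ne hx.ne) (cast_ne hB)
    rw [h1, hx.sym π, neg_zero]
  rcases v with _ | π
  · show sl (B : Eis) (x : Eis) = 0
    unfold sl
    rw [finsum_eq_zero_of_forall_eq_zero h1, neg_zero]
  · exact h1 π

/-- the symbol at a prime, the second argument being a unit -/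
lemma tm_val {ρ B L : Eis} {E : ℕ} (hB : V ρ B = E) (hL : ¬ ρ ∣ L) :
    tm ρ B L = - ((E : ZMod 3) * sym ρ L) := by
  have h2 : up ρ L = L := by
    unfold up
    rw [V_eq_zero hL, pow_zero, EuclideanDomain.div_one]
  unfold tm
  rw [V_eq_zero hL, hB]
  unfold ch
  rw [h2]
  simp

end DCOU

open Pool.Agent.PT.DCONST Pool.Agent.PTE.DCONSTS in
/-- DCOU: the pairing `O_{NQ^E}(b, η)` as a function of the prime `Q = 1 (mod 3)` and of `E`. -/
theorem DCOU_thm (hSTM : STM) (hSPP : SPP) (hSLC : SLC) (hLCI : LCI) (hAVV : AVV)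
    (_hSCJ : SCJ) (hSPLT : SPLT) : DCOU := by
  intro n b X Y x p q p' q' hn0 hs hb hx
  have hn1 := hs.n1
  have hn2 : p' ^ 3 + b * q' ^ 3 ≠ 0 := by
    intro h
    apply hs.n1
    rw [hs.eq, h, mul_zero]
  have hnz : (n : ℤ) ≠ 0 := by omega
  obtain ⟨M, hMdef⟩ : ∃ M : ℤ, M = (n : ℤ) * b * x * (p ^ 3 + b * q ^ 3) *
    (p' ^ 3 + b * q' ^ 3) := ⟨_, rfl⟩
  have hM : M ≠ 0 := by
    rw [hMdef]
    exact mul_ne_zero (mul_ne_zero (mul_ne_zero (mul_ne_zero hnz hb) hx) hn1) hn2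
  have dn : (n : ℤ) ∣ M := ⟨b * x * (p ^ 3 + b * q ^ 3) * (p' ^ 3 + b * q' ^ 3), by
    rw [hMdef]; ring⟩
  have db : b ∣ M := ⟨(n : ℤ) * x * (p ^ 3 + b * q ^ 3) * (p' ^ 3 + b * q' ^ 3), by
    rw [hMdef]; ring⟩
  have dx : x ∣ M := ⟨(n : ℤ) * b * (p ^ 3 + b * q ^ 3) * (p' ^ 3 + b * q' ^ 3), by
    rw [hMdef]; ring⟩
  have d1 : p ^ 3 + b * q ^ 3 ∣ M := ⟨(n : ℤ) * b * x * (p' ^ 3 + b * q' ^ 3), by
    rw [hMdef]; ring⟩
  have d2 : p' ^ 3 + b * q' ^ 3 ∣ M := ⟨(n : ℤ) * b * x * (p ^ 3 + b * q ^ 3), by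
    rw [hMdef]; ring⟩
  have hfin := hSPP.2.2.1 (M : Eis) (cast_ne hM)
  have hMa : 0 < M.natAbs := Int.natAbs_pos.2 hM
  refine ⟨9 * M.natAbs, by omega, ?_⟩
  intro f hf0 hf
  have h9 : 9 ∣ f := (Dvd.intro _ rfl).trans hf
  have hf1 : 1 < f := by
    have := Nat.le_of_dvd hf0 h9
    omega
  have hMf : M ∣ (f : ℤ) := by
    have h1 : M.natAbs ∣ f := (Dvd.intro_left 9 rfl).trans hf
    exact Int.natAbs_dvd.1 (Int.natCast_dvd_natCast.2 h1)
  have hlamf : lam ^ 4 ∣ ((f : ℤ) : Eis) := by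
    have h1 : ((9 : ℤ) : Eis) ∣ ((f : ℤ) : Eis) :=
      intCast_dvd_intCast.2 (by exact_mod_cast h9)
    refine Dvd.dvd.trans ⟨w ^ 4, ?_⟩ h1
    have h2 : ((9 : ℤ) : Eis) = (3 : Eis) ^ 2 := by norm_num
    rw [h2, three_eq]
    ring
  have hQM : ∀ Q : ℕ, Q.Prime → Q.Coprime f → ¬ (Q : ℤ) ∣ M := by
    intro Q hQ hQf h
    have h1 : (Q : ℤ) ∣ (f : ℤ) := h.trans hMf
    have h2 : Q ∣ f := Int.natCast_dvd_natCast.1 h1
    have h3 := Nat.Coprime.eq_one_of_dvd hQf h2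
    exact hQ.one_lt.ne' h3
  have hBne : ∀ E Q : ℕ, Q.Prime → (n : ℤ) * (Q : ℤ) ^ E ≠ 0 := fun E Q hQ =>
    mul_ne_zero hnz (pow_ne_zero _ (by exact_mod_cast hQ.ne_zero))
  -- the place above `3`
  obtain ⟨c₀, Φ₀, H₀⟩ : ∃ (c : ZMod 3) (Φ : (ZMod f)ˣ →* Multiplicative (ZMod 3)),
      ∀ (E Q : ℕ) (hQ : Q.Coprime f), Q.Prime → AG ((n : ℤ) * (Q : ℤ) ^ E) x →
        TT none ((n : ℤ) * (Q : ℤ) ^ E) b x p q p' q' =
          c + E * (Φ (ZMod.unitOfCoprime Q hQ)).toAdd := by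
    by_cases hLC : LC (uni none) b
    · obtain ⟨C, Φ, H⟩ := Pool.Agent.PTL.DC.place_LC (n := (n : ℤ)) hSLC hnz hn1 hn2 hLC hf1 hlamf
      refine ⟨C + sl w (x : Eis), Φ, ?_⟩
      intro E Q hQ hQp hax
      rw [TT_LC hLC]
      obtain ⟨N0, hN0⟩ := (hAVV none ((n : ℤ) * (Q : ℤ) ^ E) b x p q p' q' (hBne E Q hQp) hb hx hs.toSolW
        (DCOU.sy_zero hSTM hSPP (hBne E Q hQp) hax none) hLC).1
      rw [H E Q hQ _ N0 hN0]
      show _ + sl w (x : Eis) = _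
      ring
    · refine ⟨0, 1, ?_⟩
      intro E Q hQ hQp hax
      unfold TT
      rw [if_neg hLC]
      simp
  -- the places dividing `M`
  have hpl : ∀ π : PP, ∃ (c : ZMod 3) (Φ : (ZMod f)ˣ →* Multiplicative (ZMod 3)),
      π.1 ∣ (M : Eis) → ∀ (E Q : ℕ) (hQ : Q.Coprime f), Q.Prime → AG ((n : ℤ) * (Q : ℤ) ^ E) x →
        TT (some π) ((n : ℤ) * (Q : ℤ) ^ E) b x p q p' q' =
          c + E * (Φ (ZMod.unitOfCoprime Q hQ)).toAdd := by
    intro π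
    by_cases hπM : π.1 ∣ (M : Eis)
    · have hπf : π.1 ∣ ((f : ℤ) : Eis) := hπM.trans (intCast_dvd_intCast.2 hMf)
      by_cases hLC : LC (uni (some π)) b
      · obtain ⟨C, Φ, H⟩ := Pool.Agent.PTL.DC.place_LC (n := (n : ℤ)) (hSTM π.1 π.2.1 (hSPP.2.2.2.1 π).1) hnz hn1
          hn2 hLC hf1 (by rw [pow_one]; exact hπf)
        refine ⟨C + tm π.1 w (x : Eis), Φ, ?_⟩
        intro _ E Q hQ hQp hax
        rw [TT_LC hLC]
        obtain ⟨N0, hN0⟩ := (hAVV (some π) ((n : ℤ) * (Q : ℤ) ^ E) b x p q p' q' (hBne E Q hQp) hb hx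
          hs.toSolW (DCOU.sy_zero hSTM hSPP (hBne E Q hQp) hax (some π)) hLC).1
        rw [H E Q hQ _ N0 hN0]
        show _ + tm π.1 w (x : Eis) = _
        ring
      · refine ⟨if 3 ∣ V π.1 (b : Eis) + V π.1 ((n : ℤ) : Eis) ∧ ¬ 3 ∣ V π.1 (b : Eis)
          then - tm π.1 w (x : Eis) else 0, 1, ?_⟩
        intro _ E Q hQ hQp hax
        rw [TT_some hLC]
        have hVQ : V π.1 ((Q : ℤ) : Eis) = 0 := by
          apply V_eq_zero
          intro hd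
          obtain ⟨y, z, hyz⟩ := Nat.isCoprime_iff_coprime.2 hQ
          apply π.2.1.not_isUnit
          apply isUnit_of_dvd_one
          have h1 : (1 : Eis) = (y : Eis) * ((Q : ℤ) : Eis) + (z : Eis) * ((f : ℤ) : Eis) := by
            have h2 := congrArg (fun t : ℤ => (t : Eis)) hyz
            simp only [Int.cast_add, Int.cast_mul, Int.cast_one] at h2
            exact h2.symm
          rw [h1]
          exact dvd_add (dvd_mul_of_dvd_right hd _) (dvd_mul_of_dvd_right hπf _)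
        have hV : V π.1 (((n : ℤ) * (Q : ℤ) ^ E : ℤ) : Eis) = V π.1 ((n : ℤ) : Eis) := by
          have hQe : ((Q : ℤ) : Eis) ≠ 0 := cast_ne (by exact_mod_cast hQp.ne_zero)
          rw [Int.cast_mul, Int.cast_pow, V_mul π.2.1 (cast_ne hnz) (pow_ne_zero _ hQe),
            V_pow π.2.1 hQe, hVQ, mul_zero, add_zero]
        rw [hV]
        simp
    · exact ⟨0, 1, fun h => absurd h hπM⟩
  choose c Φ H using hpl
  classical
  refine ⟨c₀ + (∑ π ∈ hfin.toFinset, c π) +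
    (if LC lam b then 0 else SV sl b p (-p') (-q) q' X Y), Φ₀ * ∏ π ∈ hfin.toFinset, Φ π, 0, ?_⟩
  intro E Q hQ ρ hE hQp _ hQ3 hρ hab hax r hr
  obtain ⟨hna, ⟨ρ', hρ'⟩, hdv, hint, hcj, -⟩ := hSPLT.2 Q ρ hQp hQ3 hρ
  have hQc : ((Q : ℤ) : Eis) = (Q : Eis) := Int.cast_natCast Q
  have hQ0 : (Q : Eis) ≠ 0 := by
    rw [← hQc]
    exact cast_ne (by exact_mod_cast hQp.ne_zero)
  have hρ2 : (Q : Eis) = ρ'.1 * conj ρ'.1 := by
    rw [hρ', conj_conj, mul_comm]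
    exact hρ
  have hcjr : conj ρ'.1 = ρ.1 := by rw [hρ', conj_conj]
  have hBcast : (((n : ℤ) * (Q : ℤ) ^ E : ℤ) : Eis) =
      ((n : ℤ) : Eis) * (Q : Eis) ^ E := by
    rw [Int.cast_mul, Int.cast_pow, hQc]
  have hQM' := hQM Q hQp hQ
  have hp : Prime (Q : ℤ) := Nat.prime_iff_prime_int.1 hQp
  have hrQ : ¬ (Q : ℤ) ∣ r := by
    intro h
    apply hQM'
    refine Dvd.dvd.trans ?_ db
    have h1 := dvd_sub (dvd_pow h (three_ne_zero)) hr
    rwa [sub_sub_cancel] at h1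
  have h3Q : ¬ (Q : ℤ) ∣ 3 := by
    intro h
    have h1 : Q ∣ 3 := by exact_mod_cast h
    have h2 := (Nat.prime_dvd_prime_iff_eq hQp Nat.prime_three).1 h1
    omega
  -- the value at a place above `Q`
  have key : ∀ σ : PP, (Q : Eis) = σ.1 * conj σ.1 → ¬ Associated σ.1 (conj σ.1) →
      (∀ x : ℤ, σ.1 ∣ (x : Eis) ↔ (Q : ℤ) ∣ x) →
      TT (some σ) ((n : ℤ) * (Q : ℤ) ^ E) b x p q p' q' =
        - (E * TAUVS σ.1 p q p' q' r) := by
    intro σ hσ hσa hσi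
    have hnd : ∀ m : ℤ, m ∣ M → ¬ σ.1 ∣ (m : Eis) := by
      intro m hm h
      exact hQM' (((hσi m).1 h).trans hm)
    have hσw : ¬ σ.1 ∣ w := not_dvd_w σ.2.1
    have hσc : ¬ σ.1 ∣ conj σ.1 := by
      intro h
      apply hσa
      exact σ.2.1.associated_of_dvd (by
        have h1 := (hSPP.2.2.2.1 σ).2
        obtain ⟨τ, hτ⟩ := h1
        rw [← hτ]
        exact τ.2.1) h
    have hc0 : conj σ.1 ≠ 0 := by
      intro h
      apply hQ0
      rw [hσ, h, mul_zero]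
    have hVQ : V σ.1 (Q : Eis) = 1 := by
      rw [hσ, V_mul σ.2.1 σ.2.1.ne_zero hc0, V_self, V_eq_zero hσc]
    have hVB : V σ.1 (((n : ℤ) * (Q : ℤ) ^ E : ℤ) : Eis) = E := by
      rw [hBcast, V_mul_not_dvd σ.2.1 (hnd _ dn) (pow_ne_zero _ hQ0), V_pow σ.2.1 hQ0, hVQ,
        mul_one]
    have hLC : LC (uni (some σ)) b := by
      refine (hLCI.1 σ b hb).2 ⟨?_, ?_⟩
      · rw [V_eq_zero (hnd b db)]
        exact dvd_zero 3
      · have h1 := hab.sym σ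
        unfold tm at h1
        rw [hVB, V_eq_zero (hnd b db), Nat.cast_zero, zero_mul, sub_zero] at h1
        have h2 : (E : ZMod 3) ≠ 0 := by
          rcases hE with rfl | rfl
          · decide
          · decide
        exact (mul_eq_zero.1 h1).resolve_left h2
    rw [TT_LC hLC]
    have hw : sy (some σ) w (x : Eis) = 0 := tm_zero hσw (hnd x dx)
    rw [hw, add_zero]
    obtain ⟨N0, hN0⟩ := (hAVV (some σ) ((n : ℤ) * (Q : ℤ) ^ E) b x p q p' q' (hBne E Q hQp) hb hx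
      hs.toSolW (DCOU.sy_zero hSTM hSPP (hBne E Q hQp) hax (some σ)) hLC).1
    obtain ⟨r₁, hr₁, hrr⟩ := lift_root hQp h3Q hrQ hr N0
    have hσQ : σ.1 ∣ (Q : Eis) := by
      rw [hσ]
      exact Dvd.intro _ rfl
    have hr0 : σ.1 ^ (N0 + 1) ∣ (r₁ : Eis) ^ 3 - (b : Eis) := by
      have h1 : (Q : Eis) ^ (N0 + 1) ∣ (r₁ : Eis) ^ 3 - (b : Eis) := by
        have h2 := intCast_dvd_intCast.2 hr₁
        push_cast at h2
        exact h2
      exact (pow_dvd_pow_of_dvd hσQ _).trans h1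
    have hr1 : σ.1 ∣ (r₁ : Eis) ^ 3 - (b : Eis) := (dvd_pow_self _ (by omega)).trans hr0
    have hrr' : σ.1 ∣ (r₁ : Eis) - (r : Eis) := by
      have h1 := (hσi (r₁ - r)).2 hrr
      rwa [Int.cast_sub] at h1
    rw [← hN0 r₁ ((pow_dvd_pow _ (Nat.le_succ _)).trans hr0)]
    have hsym : ∀ (g h : ℤ) (i : ℕ), sym σ.1 (Lf g h i r₁) = sym σ.1 (Lf g h i r) := by
      intro g h i
      apply sym_congr
      have h1 : Lf g h i r₁ - Lf g h i r = (h * w ^ i) * ((r₁ : Eis) - r) := by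
        unfold Lf
        ring
      rw [h1]
      exact dvd_mul_of_dvd_right hrr' _
    have k1 := Lf_ndvd (p := p) (q := q) hr1 (hnd _ d1)
    have k2 := Lf_ndvd (p := p') (q := q') hr1 (hnd _ d2)
    show tm σ.1 (((n : ℤ) * (Q : ℤ) ^ E : ℤ) : Eis) (Lf p q 2 r₁) +
      tm σ.1 (((n : ℤ) * (Q : ℤ) ^ E : ℤ) : Eis) (Lf p' q' 1 r₁) -
      tm σ.1 (((n : ℤ) * (Q : ℤ) ^ E : ℤ) : Eis) (Lf p q 1 r₁) -
      tm σ.1 (((n : ℤ) * (Q : ℤ) ^ E : ℤ) : Eis) (Lf p' q' 2 r₁) =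
      - (E * TAUVS σ.1 p q p' q' r)
    rw [DCOU.tm_val hVB (k1 2), DCOU.tm_val hVB (k2 1), DCOU.tm_val hVB (k1 1),
      DCOU.tm_val hVB (k2 2), hsym, hsym, hsym, hsym]
    unfold TAUVS
    ring
  have hTρ := key ρ hρ hna hint
  have hTρ' := key ρ' hρ2 (by
    rw [hcjr, hρ']
    exact fun h => hna h.symm) (by
    intro x
    rw [← hint x, hρ']
    constructor
    · rintro ⟨y, hy⟩
      refine ⟨conj y, ?_⟩
      have h1 := congrArg conj hy
      rw [map_mul, conj_conj, conj_intCast] at h1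
      exact h1
    · rintro ⟨y, hy⟩
      refine ⟨conj y, ?_⟩
      have h1 := congrArg conj hy
      rw [map_mul, conj_intCast] at h1
      exact h1)
  -- the two values are equal
  have hnρ : ∀ m : ℤ, m ∣ M → ¬ ρ.1 ∣ (m : Eis) := fun m hm h =>
    hQM' (((hint m).1 h).trans hm)
  have hrρ : ρ.1 ∣ (r : Eis) ^ 3 - (b : Eis) := by
    have h1 := (hint (r ^ 3 - b)).2 hr
    push_cast at h1
    exact h1
  have l1 := Lf_ndvd (p := p) (q := q) hrρ (hnρ _ d1)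
  have l2 := Lf_ndvd (p := p') (q := q') hrρ (hnρ _ d2)
  have hTT : TAUVS ρ'.1 p q p' q' r = TAUVS ρ.1 p q p' q' r := by
    have e1 := hcj _ (l1 1)
    have e2 := hcj _ (l1 2)
    have e3 := hcj _ (l2 1)
    have e4 := hcj _ (l2 2)
    rw [(conj_Lf p q r).1] at e1
    rw [(conj_Lf p q r).2] at e2
    rw [(conj_Lf p' q' r).1] at e3
    rw [(conj_Lf p' q' r).2] at e4
    unfold TAUVS
    rw [hρ', e1, e2, e3, e4]
    ring
  rw [hTT] at hTρ'
  have hρne : ρ ≠ ρ' := by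
    rintro h
    apply hna
    rw [← hρ', ← h]
  -- the sum
  have hnρ' : ¬ ρ'.1 ∣ (M : Eis) := by
    intro h
    obtain ⟨y, hy⟩ := h
    apply hnρ M dvd_rfl
    refine ⟨conj y, ?_⟩
    have h1 := congrArg conj hy
    rw [map_mul, hcjr, conj_intCast] at h1
    exact h1
  have hQS : ρ ∉ hfin.toFinset := by
    rw [Set.Finite.mem_toFinset]
    exact hnρ M dvd_rfl
  have hQS' : ρ' ∉ hfin.toFinset := by
    rw [Set.Finite.mem_toFinset]
    exact hnρ'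
  have hsupp : (Function.support fun v : Pl => TT v ((n : ℤ) * (Q : ℤ) ^ E) b x p q p' q') ⊆
      ((insert none (insert (some ρ) (insert (some ρ') (hfin.toFinset.image some))) :
        Finset Pl) : Set Pl) := by
    intro v hv
    by_contra hnv
    apply hv
    rcases v with _ | π
    · exact absurd (Finset.mem_coe.2 (Finset.mem_insert_self _ _)) hnv
    · have hnM : ¬ π.1 ∣ (M : Eis) := by
        intro h
        apply hnv
        rw [Finset.mem_coe]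
        refine Finset.mem_insert_of_mem (Finset.mem_insert_of_mem (Finset.mem_insert_of_mem
          (Finset.mem_image_of_mem _ ?_)))
        rw [Set.Finite.mem_toFinset]
        exact h
      have hπne : π ≠ ρ := by
        rintro rfl
        apply hnv
        rw [Finset.mem_coe]
        exact Finset.mem_insert_of_mem (Finset.mem_insert_self _ _)
      have hπne' : π ≠ ρ' := by
        rintro rfl
        apply hnv
        rw [Finset.mem_coe]
        exact Finset.mem_insert_of_mem (Finset.mem_insert_of_mem (Finset.mem_insert_self _ _))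
      have hd : ∀ m : ℤ, m ∣ M → ¬ π.1 ∣ (m : Eis) := fun m hm h =>
        hnM (h.trans (intCast_dvd_intCast.2 hm))
      have hπQnd : ¬ π.1 ∣ (Q : Eis) := by
        intro h
        rcases hdv π h with h1 | h1
        · exact hπne (Subtype.ext h1)
        · exact hπne' (Subtype.ext (h1.trans hρ'.symm))
      have hnB : ¬ π.1 ∣ (((n : ℤ) * (Q : ℤ) ^ E : ℤ) : Eis) := by
        rw [hBcast]
        intro h
        rcases π.2.1.dvd_or_dvd h with h1 | h1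
        · exact hd _ dn h1
        · exact hπQnd (π.2.1.dvd_of_dvd_pow h1)
      have hnw : ¬ π.1 ∣ w := not_dvd_w π.2.1
      show TT (some π) ((n : ℤ) * (Q : ℤ) ^ E) b x p q p' q' = 0
      by_cases hLC : LC (uni (some π)) b
      · rw [TT_LC hLC]
        have hw : sy (some π) w (x : Eis) = 0 := tm_zero hnw (hd x dx)
        obtain ⟨N0, hN0⟩ := (hAVV (some π) ((n : ℤ) * (Q : ℤ) ^ E) b x p q p' q' (hBne E Q hQp) hb hx
          hs.toSolW (DCOU.sy_zero hSTM hSPP (hBne E Q hQp) hax (some π)) hLC).1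
        obtain ⟨r₁, hr₁⟩ := hLC (max N0 1)
        have hr0 : uni (some π) ^ N0 ∣ (r₁ : Eis) ^ 3 - (b : Eis) :=
          (pow_dvd_pow _ (le_max_left _ _)).trans hr₁
        have hr1 : π.1 ∣ (r₁ : Eis) ^ 3 - (b : Eis) := by
          have h1 : π.1 ^ 1 ∣ (r₁ : Eis) ^ 3 - (b : Eis) :=
            (pow_dvd_pow π.1 (le_max_right N0 1)).trans hr₁
          rwa [pow_one] at h1
        have k1 := Lf_ndvd (p := p) (q := q) hr1 (hd _ d1)
        have k2 := Lf_ndvd (p := p') (q := q') hr1 (hd _ d2)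
        rw [hw, ← hN0 r₁ hr0]
        show tm π.1 (((n : ℤ) * (Q : ℤ) ^ E : ℤ) : Eis) (Lf p q 2 r₁) +
          tm π.1 (((n : ℤ) * (Q : ℤ) ^ E : ℤ) : Eis) (Lf p' q' 1 r₁) -
          tm π.1 (((n : ℤ) * (Q : ℤ) ^ E : ℤ) : Eis) (Lf p q 1 r₁) -
          tm π.1 (((n : ℤ) * (Q : ℤ) ^ E : ℤ) : Eis) (Lf p' q' 2 r₁) + 0 = 0
        rw [tm_zero hnB (k1 2), tm_zero hnB (k2 1), tm_zero hnB (k1 1), tm_zero hnB (k2 2)]
        simp
      · rw [TT_some hLC, if_neg]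
        rintro ⟨-, h1⟩
        apply h1
        rw [V_eq_zero (hd b db)]
        exact dvd_zero 3
  have hn_notin : (none : Pl) ∉ insert (some ρ) (insert (some ρ')
      (hfin.toFinset.image some)) := by
    simp
  have hρ'_notin : (some ρ' : Pl) ∉ hfin.toFinset.image some := by
    intro h
    obtain ⟨y, hy, hy'⟩ := Finset.mem_image.1 h
    rw [Option.some.injEq] at hy'
    rw [hy'] at hy
    exact hQS' hy
  have hρ_notin : (some ρ : Pl) ∉ insert (some ρ') (hfin.toFinset.image some) := by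
    intro h
    rcases Finset.mem_insert.1 h with h1 | h1
    · exact hρne (Option.some_injective _ h1)
    · obtain ⟨y, hy, hy'⟩ := Finset.mem_image.1 h1
      rw [Option.some.injEq] at hy'
      rw [hy'] at hy
      exact hQS hy
  have hsum : ∑ π ∈ hfin.toFinset, TT (some π) ((n : ℤ) * (Q : ℤ) ^ E) b x p q p' q' =
      ∑ π ∈ hfin.toFinset, (c π + E * (Φ π (ZMod.unitOfCoprime Q hQ)).toAdd) := by
    refine Finset.sum_congr rfl ?_
    intro π hπ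
    rw [Set.Finite.mem_toFinset] at hπ
    exact H π hπ E Q hQ hQp hax
  unfold OT OO
  rw [finsum_eq_sum_of_support_subset _ hsupp, Finset.sum_insert hn_notin,
    Finset.sum_insert hρ_notin, Finset.sum_insert hρ'_notin,
    Finset.sum_image (fun _ _ _ _ h => Option.some_injective _ h),
    hsum, hTρ, hTρ', H₀ E Q hQ hQp hax, Finset.sum_add_distrib, MonoidHom.mul_apply,
    MonoidHom.finsetProd_apply, toAdd_mul, toAdd_prod, ← Finset.mul_sum]
  have h3 : (3 : ZMod 3) = 0 := rfl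
  linear_combination (-(E * TAUVS ρ.1 p q p' q' r)) * h3


end Pool.Agent.PT3


end

section

/-!
# PT3_DENG: the density of the primes with nonsingular matrix

Copy of `Pool/Agent/PT/DENS.lean` with `SysG` in place of `Sys`; the helper lemmas are those of that file.
-/

open NumberField IsDedekindDomain Finset
open scoped nonZeroDivisors Pointwise

namespace Pool.Agent.PT3

open Pool.Agent.Lib_helper18 Pool.Agent.Lib_helper18.Eis Pool.Agent.Lib_helper84.Cub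
open Pool.Agent.PT Pool.Agent.PTE

open Pool.Agent.PT.DENS in
theorem DENG_thm (hGALG : GALG) (hDCNT : DCNT) (hDIR : DIR) : DENG := by
  classical
  intro s b p q p' q' f m κ c C Φ hSys hs hf h9 hK
  have : NeZero f := ⟨hf.ne'⟩
  have h3f : 3 ∣ f := dvd_trans (by norm_num) h9
  obtain ⟨L, iF, iN, iG, χ, t, N₀, hsurj, hconj, hpow, hcnt, hfrob⟩ :=
    hGALG s b p q p' q' f hSys hf h9
  have hG : Gov b p q p' q' f L χ t N₀ := ⟨hconj, hpow, hfrob⟩
  have hDat : Dat χ t (fun a => (κ a).toAdd) := ⟨hK, hDCNT s f _ χ t hs hf hsurj hcnt⟩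
  change RI.DensityGE (SS b p q p' q' f κ c C Φ) (1 / (24 * 3 ^ m))
  have hGpos : 0 < Nat.card (L ≃ₐ[ℚ] L) := Nat.card_pos
  have hb1 : ∀ a, M2 a → 8 * Nat.card {g : L ≃ₐ[ℚ] L // χ g = a ∧
      (alt (C + (Φ a).toAdd - t g)).det = 0} ≤ 3 * Nat.card {g : L ≃ₐ[ℚ] L // χ g = a} :=
    fun a ha => (hDat.hD a (C + (Φ a).toAdd) ha).1
  have hb2 : ∀ a, M2 a → 8 * Nat.card {g : L ≃ₐ[ℚ] L // χ g = a ∧
      (alt (C - (Φ a).toAdd + t g)).det = 0} ≤ 3 * Nat.card {g : L ≃ₐ[ℚ] L // χ g = a} :=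
    fun a ha => (hDat.hD a (C - (Φ a).toAdd) ha).2.1
  by_cases hc0 : c = 0
  · subst hc0
    let T : Set (L ≃ₐ[ℚ] L) := {g | (M2 (χ g) ∧ (κ (χ g)).toAdd = 0) ∧
      ¬ (alt (C + (Φ (χ g)).toAdd - t g)).det = 0 ∧
      ¬ (alt (C - (Φ (χ g)).toAdd + t g)).det = 0}
    have hT : ∀ g h τ : L ≃ₐ[ℚ] L, g ∈ T →
        Subgroup.zpowers h = Subgroup.zpowers (τ * g * τ⁻¹) → h ∈ T := by
      rintro g h τ ⟨⟨hM, hκ⟩, hd1, hd2⟩ hz
      obtain ⟨hM', hh⟩ := inv_main (κ := κ) (Φ := Φ) h3f hconj hpow hM hz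
      rcases hh with ⟨e1, e2, e3⟩ | ⟨e1, e2, e3⟩
      · obtain ⟨d1, d2⟩ := det_same (C := C) e2 e3
        refine ⟨⟨hM', e1.trans hκ⟩, ?_, ?_⟩
        · rw [d1]; exact hd1
        · rw [d2]; exact hd2
      · obtain ⟨d1, d2⟩ := det_opp (C := C) e2 e3
        refine ⟨⟨hM', by rw [e1, hκ, neg_zero]⟩, ?_, ?_⟩
        · rw [d1]; exact hd2
        · rw [d2]; exact hd1
    have hcard := countPP hDat 0 (fun g => (alt (C + (Φ (χ g)).toAdd - t g)).det = 0)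
      (fun g => (alt (C - (Φ (χ g)).toAdd + t g)).det = 0)
      (fun a g => (alt (C + (Φ a).toAdd - t g)).det = 0)
      (fun a g => (alt (C - (Φ a).toAdd + t g)).det = 0)
      (fun g => Iff.rfl) (fun g => Iff.rfl) hb1 hb2
    have hF := RI.FROBD_thm L T hT
    have hF2 := RI.PDGE_thm _ (SS b p q p' q' f κ 0 C Φ) (Finset.range (N₀ + f + 1)) _ hF (by
      rintro Q hQF hQ hQA
      rw [Finset.mem_range, not_lt] at hQA
      obtain ⟨hc, φ, hφT, hφ, ht⟩ := frob_step hG hf T hT hQ (by omega) (by omega) hQF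
      have hQ3 : Q % 3 = 2 := M2_Q h3f hc (hφ ▸ hφT.1.1)
      exact mem_SS hQ hQ3 hc hφ (ht hQ3) hφT.1.2 hφT.2.1)
    refine dens_mono hF2 ?_
    have h1 : (Nat.card (L ≃ₐ[ℚ] L) : ℝ) ≤ 4 * (2 * 3 ^ (m + 1)) * Nat.card T := by
      exact_mod_cast hcard
    rw [div_le_div_iff₀ (by positivity) (by exact_mod_cast hGpos)]
    rw [pow_succ] at h1
    linarith
  · let T : Set (L ≃ₐ[ℚ] L) := {g | ((M2 (χ g) ∧ (κ (χ g)).toAdd = c) ∧
      ¬ (alt (C + (Φ (χ g)).toAdd - t g)).det = 0) ∨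
      ((M2 (χ g) ∧ (κ (χ g)).toAdd = -c) ∧
      ¬ (alt (C - (Φ (χ g)).toAdd + t g)).det = 0)}
    have hT : ∀ g h τ : L ≃ₐ[ℚ] L, g ∈ T →
        Subgroup.zpowers h = Subgroup.zpowers (τ * g * τ⁻¹) → h ∈ T := by
      rintro g h τ hg hz
      have hM : M2 (χ g) := by
        rcases hg with ⟨⟨hM, -⟩, -⟩ | ⟨⟨hM, -⟩, -⟩ <;> exact hM
      obtain ⟨hM', hh⟩ := inv_main (κ := κ) (Φ := Φ) h3f hconj hpow hM hz
      rcases hh with ⟨e1, e2, e3⟩ | ⟨e1, e2, e3⟩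
      · obtain ⟨d1, d2⟩ := det_same (C := C) e2 e3
        rcases hg with ⟨⟨-, hκ⟩, hd⟩ | ⟨⟨-, hκ⟩, hd⟩
        · left
          refine ⟨⟨hM', e1.trans hκ⟩, ?_⟩
          rw [d1]; exact hd
        · right
          refine ⟨⟨hM', e1.trans hκ⟩, ?_⟩
          rw [d2]; exact hd
      · obtain ⟨d1, d2⟩ := det_opp (C := C) e2 e3
        rcases hg with ⟨⟨-, hκ⟩, hd⟩ | ⟨⟨-, hκ⟩, hd⟩
        · right
          refine ⟨⟨hM', by rw [e1, hκ]⟩, ?_⟩
          rw [d2]; exact hd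
        · left
          refine ⟨⟨hM', by rw [e1, hκ, neg_neg]⟩, ?_⟩
          rw [d1]; exact hd
    have hcard1 := countP hDat c (fun g => (alt (C + (Φ (χ g)).toAdd - t g)).det = 0)
      (fun a g => (alt (C + (Φ a).toAdd - t g)).det = 0) (fun g => Iff.rfl) hb1
    have hcard2 := countP hDat (-c) (fun g => (alt (C - (Φ (χ g)).toAdd + t g)).det = 0)
      (fun a g => (alt (C - (Φ a).toAdd + t g)).det = 0) (fun g => Iff.rfl) hb2
    have hne : c ≠ -c := by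
      intro h
      apply hc0
      ext i
      have h1 := congrFun h i
      rw [Pi.neg_apply] at h1
      rw [Pi.zero_apply]
      revert h1
      generalize c i = x
      revert x
      decide
    have hcardT : Nat.card T = Nat.card {g : L ≃ₐ[ℚ] L // (M2 (χ g) ∧ (κ (χ g)).toAdd = c) ∧
        ¬ (alt (C + (Φ (χ g)).toAdd - t g)).det = 0} +
        Nat.card {g : L ≃ₐ[ℚ] L // (M2 (χ g) ∧ (κ (χ g)).toAdd = -c) ∧
        ¬ (alt (C - (Φ (χ g)).toAdd + t g)).det = 0} := by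
      have := Fintype.ofFinite (L ≃ₐ[ℚ] L)
      change Nat.card {g : L ≃ₐ[ℚ] L // ((M2 (χ g) ∧ (κ (χ g)).toAdd = c) ∧
      ¬ (alt (C + (Φ (χ g)).toAdd - t g)).det = 0) ∨
      ((M2 (χ g) ∧ (κ (χ g)).toAdd = -c) ∧
      ¬ (alt (C - (Φ (χ g)).toAdd + t g)).det = 0)} = _
      simp only [Nat.card_eq_fintype_card, Fintype.card_subtype]
      rw [Finset.filter_or, Finset.card_union_of_disjoint]
      rw [Finset.disjoint_filter]
      rintro g - ⟨⟨-, h1⟩, -⟩ ⟨⟨-, h2⟩, -⟩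
      exact hne (h1.symm.trans h2)
    have hF := RI.FROBD_thm L T hT
    have hF2 := RI.PDGE_thm _ {Q : ℕ | Q ∈ SS b p q p' q' f κ c C Φ ∨
        ∃ a ∈ univ.filter (fun a : (ZMod f)ˣ => M2 a ∧ (κ a).toAdd = -c), (Q : ZMod f) = a}
      (Finset.range (N₀ + f + 1)) _ hF (by
      rintro Q hQF hQ hQA
      rw [Finset.mem_range, not_lt] at hQA
      obtain ⟨hc, φ, hφT, hφ, ht⟩ := frob_step hG hf T hT hQ (by omega) (by omega) hQF
      have hM : M2 (χ φ) := by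
        rcases hφT with ⟨⟨hM, -⟩, -⟩ | ⟨⟨hM, -⟩, -⟩ <;> exact hM
      have hQ3 : Q % 3 = 2 := M2_Q h3f hc (hφ ▸ hM)
      rcases hφT with ⟨⟨-, hκ⟩, hd⟩ | ⟨⟨-, hκ⟩, hd⟩
      · left
        exact mem_SS hQ hQ3 hc hφ (ht hQ3) hκ hd
      · right
        refine ⟨χ φ, ?_, ?_⟩
        · rw [Finset.mem_filter]
          exact ⟨Finset.mem_univ _, hM, hκ⟩
        · rw [hφ, ZMod.coe_unitOfCoprime])
    have hF3 := dens_sub hDIR hf (univ.filter (fun a : (ZMod f)ˣ => M2 a ∧ (κ a).toAdd = -c)) _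
      (SS b p q p' q' f κ c C Φ) _ hF2 (by
      rintro Q hQ1 - hQ2
      exact hQ1.resolve_left hQ2)
    refine dens_mono hF3 ?_
    have hφ : 0 < f.totient := Nat.totient_pos.mpr hf
    have hKc := hK (-c)
    rw [Nat.card_eq_fintype_card, Fintype.card_subtype] at hKc
    have e1 : ((univ.filter (fun a : (ZMod f)ˣ => M2 a ∧ (κ a).toAdd = -c)).card : ℝ) /
        f.totient = 1 / (2 * 3 ^ (m + 1)) := by
      rw [div_eq_div_iff (by exact_mod_cast hφ.ne') (by positivity), one_mul]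
      exact_mod_cast hKc
    rw [e1]
    have h1 : (5 : ℝ) * (Nat.card (L ≃ₐ[ℚ] L) : ℝ) ≤ 8 * 3 ^ (m + 1) * Nat.card T := by
      have h2 : 10 * Nat.card (L ≃ₐ[ℚ] L) ≤ 8 * (2 * 3 ^ (m + 1)) * Nat.card T := by
        rw [hcardT, mul_add]
        omega
      have h4 : (10 : ℝ) * (Nat.card (L ≃ₐ[ℚ] L) : ℝ) ≤ 8 * (2 * 3 ^ (m + 1)) * Nat.card T := by
        exact_mod_cast h2
      linarith
    have h2 : (5 : ℝ) / (8 * 3 ^ (m + 1)) ≤ (Nat.card T : ℝ) / Nat.card (L ≃ₐ[ℚ] L) := by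
      rw [div_le_div_iff₀ (by positivity) (by exact_mod_cast hGpos)]
      linarith
    have h5 : (1 : ℝ) / (24 * 3 ^ m) = 5 / (8 * 3 ^ (m + 1)) - 1 / (2 * 3 ^ (m + 1)) := by
      have h6 : (3 : ℝ) ^ m ≠ 0 := by positivity
      rw [pow_succ]
      field_simp
      norm_num
    rw [h5]
    linarith

end Pool.Agent.PT3


end

section

/-!
# PT3: the class and the system, `3` does not divide `n`, `k` even
-/

set_option autoImplicit false

open NumberField IsDedekindDomain Finset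
open scoped nonZeroDivisors Pointwise

namespace Pool.Agent.PT3

open Pool.Agent.Lib_helper18 Pool.Agent.Lib_helper18.Eis Pool.Agent.Lib_helper84.Cub
open Pool.Agent.PT Pool.Agent.PTE

namespace ECL0

open Pool.Agent.PT.ECL

/-- the determinant vanishes -/
lemma point_det0 (hEADM : EADM) (hFD1 : FD1) (hFD2 : FD2) (hTEND : TEND)
    {n m k : ℕ} {π : Fin m → PP} {p e : Fin m → ℕ} {r f : Fin k → ℕ} (hNF : NF n π p e r f)
    {w0 : ZMod 3} {c : Fin m → ZMod 3}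
    {s : ℕ} {b : Fin s → ℤ} (hAdm : ∀ i, AdmC n π w0 c (b i))
    (hgen : ∀ x : ℤ, AdmC n π w0 c x → ∃ (g : Fin s → ℕ) (u v : ℤ), u ≠ 0 ∧ v ≠ 0 ∧
      x * u ^ 3 = (∏ i, b i ^ g i) * v ^ 3)
    {P Q P' Q' : Fin s → Fin s → ℤ} (hSys : Sys b P Q P' Q') (q : ℕ) (hq : q.Prime)
    (hIn : InCl π w0 c q) (hqn : ¬ q ∣ n) (hq3 : 3 < q) (hH : HypM ((n : ℤ) * q)) :
    (∀ i, Adm ((n : ℤ) * q) (b i)) ∧ BOk ((n : ℤ) * q) ∧
      ((∃ X Y : ℚ, X ^ 3 + Y ^ 3 = (n : ℚ) * q) → (Mat b P Q P' Q' ((n : ℤ) * q)).det = 0) := by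
  obtain ⟨hB, hE⟩ := hEADM n m k π p e r f w0 c q hNF hq hIn hqn
  have hA : ∀ i, Adm ((n : ℤ) * q) (b i) := fun i => (hE _ (hAdm i).supp).1 (hAdm i)
  refine ⟨hA, hB, ?_⟩
  rintro ⟨X, Y, hXY⟩
  have hn0 : 0 < n := by
    rcases Nat.eq_zero_or_pos n with h | h
    · exact absurd (by rw [h]; exact dvd_zero q) hqn
    · exact h
  have h3 : 3 ≤ |(n : ℤ) * q| := by
    have h1 : (3 : ℤ) ≤ (n : ℤ) * q := by
      have h2 : 3 ≤ n * q := by nlinarith
      exact_mod_cast h2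
    exact h1.trans (le_abs_self _)
  obtain ⟨a, x, hC⟩ := hFD1 ((n : ℤ) * q) hB h3 hH ⟨X, Y, by rw [hXY]; push_cast; ring⟩
  obtain ⟨z, X1, Y1, hPt, hAz, hsupp, hcube⟩ := hFD2 n q a x hq hIn.1 hqn hn0 hB hC
  obtain ⟨g, u, v, hu, hv, hg⟩ := hgen z ((hE z hsupp).2 hAz)
  set W : ℤ := ∏ i, b i ^ g i with hW
  have hex : ∃ i, ¬ 3 ∣ g i := by
    by_contra hcon
    push Not at hcon
    choose g' hg' using hcon
    apply hcube
    have h1 : z * u ^ 3 = ((∏ i, b i ^ g' i) * v) ^ 3 := by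
      rw [hg, hW, mul_pow, ← Finset.prod_pow]
      congr 1
      refine Finset.prod_congr rfl fun i _ => ?_
      rw [← pow_mul, hg' i, mul_comm]
    exact cube_of hu h1
  have hPt' : Pt ((n : ℤ) * q) (∏ i, b i ^ g i) (u * v * X1) (v ^ 2 * Y1) := by
    refine ⟨mul_ne_zero (mul_ne_zero hu hv) hPt.hX, mul_ne_zero (pow_ne_zero 2 hv) hPt.hY, ?_⟩
    obtain ⟨c0, hc0, h1⟩ := hPt.eq
    refine ⟨c0 * u ^ 2, mul_ne_zero hc0 (pow_ne_zero 2 hu), ?_⟩
    rw [← hW]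
    have e1 : W * ((u * v * X1) ^ 3 + W * (v ^ 2 * Y1) ^ 3) =
        (W * v ^ 3) * (u ^ 3 * X1 ^ 3 + (W * v ^ 3) * Y1 ^ 3) := by ring
    rw [e1, ← hg]
    have e2 : z * u ^ 3 * (u ^ 3 * X1 ^ 3 + z * u ^ 3 * Y1 ^ 3) =
        u ^ 6 * (z * (X1 ^ 3 + z * Y1 ^ 3)) := by ring
    rw [e2, h1]
    ring
  have hker := (hTEND s b P Q P' Q' ((n : ℤ) * q) hSys hB hA).2 g _ _ hex hPt'
  rw [← Matrix.exists_mulVec_eq_zero_iff]
  refine ⟨fun i => (g i : ZMod 3), ?_, ?_⟩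
  · intro h1
    obtain ⟨i, hi⟩ := hex
    apply hi
    have h2 := congrFun h1 i
    exact (ZMod.natCast_eq_zero_iff (g i) 3).1 h2
  · ext j
    exact hker j

end ECL0

/-- ECL0: the system for a class, `k` even. -/
theorem ECL0_thm (hHYP0 : HYP0) (hEBAS : EBAS) (hEADM : EADM) (hESYS : ESYS) (hFD1 : FD1)
    (hFD2 : FD2) (hTEND : TEND) : ECL0 := by
  intro n m k π p e r f w0 c hNF hk hw hdet
  obtain ⟨s, b, hs, hAdm, hV, hind, hc9, hgen⟩ :=
    hEBAS n m k π p e r f w0 c none hNF (Or.inl ⟨rfl, hk, hw⟩) (fun j hj => by cases hj) hdet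
  obtain ⟨P, Q, P', Q', hSys⟩ := hESYS n m k π p e r f w0 c s b hNF hAdm hV hind hc9
  refine ⟨s, b, P, Q, P', Q', hs, hAdm, hSys, ?_⟩
  intro q hq hIn hqn hq3
  exact ECL0.point_det0 hEADM hFD1 hFD2 hTEND hNF hAdm hgen hSys q hq hIn hqn hq3
    (hHYP0 n m k π p e r f w0 c q hNF hq hIn hqn hw hdet)

end Pool.Agent.PT3


end

section

/-!
# Prime twists of rank zero, `3 ∣ B`: the class and the system, `q = 2 (mod 3)`
-/

set_option autoImplicit false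

namespace Pool.Agent.PT3

open Pool.Agent.Lib_helper18 Pool.Agent.Lib_helper18.Eis Pool.Agent.Lib_helper84.Cub
open Pool.Agent.PT Pool.Agent.PTE

namespace ECLT

/-- a point whose class is generated by the `b i` gives a point of the class of a product -/
lemma pt_prod {s : ℕ} {B z X Y : ℤ} {b : Fin s → ℤ} (hPt : Pt B z X Y)
    (hcube : ¬ ∃ t : ℤ, t ^ 3 = z) {g : Fin s → ℕ} {u v : ℤ} (hu : u ≠ 0) (hv : v ≠ 0)
    (hg : z * u ^ 3 = (∏ i, b i ^ g i) * v ^ 3) :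
    (∃ i, ¬ 3 ∣ g i) ∧ ∃ X' Y' : ℤ, Pt B (∏ i, b i ^ g i) X' Y' := by
  set W : ℤ := ∏ i, b i ^ g i with hW
  constructor
  · by_contra hcon
    push Not at hcon
    choose g' hg' using hcon
    apply hcube
    have h1 : z * u ^ 3 = ((∏ i, b i ^ g' i) * v) ^ 3 := by
      rw [hg, hW, mul_pow, ← Finset.prod_pow]
      congr 1
      refine Finset.prod_congr rfl fun i _ => ?_
      rw [← pow_mul, hg' i, mul_comm]
    exact ECL.cube_of hu h1
  · refine ⟨u * v * X, v ^ 2 * Y, mul_ne_zero (mul_ne_zero hu hv) hPt.hX,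
      mul_ne_zero (pow_ne_zero 2 hv) hPt.hY, ?_⟩
    obtain ⟨c0, hc0, h1⟩ := hPt.eq
    refine ⟨c0 * u ^ 2, mul_ne_zero hc0 (pow_ne_zero 2 hu), ?_⟩
    have e1 : W * ((u * v * X) ^ 3 + W * (v ^ 2 * Y) ^ 3) =
        (W * v ^ 3) * (u ^ 3 * X ^ 3 + (W * v ^ 3) * Y ^ 3) := by ring
    rw [e1, ← hg]
    have e2 : z * u ^ 3 * (u ^ 3 * X ^ 3 + z * u ^ 3 * Y ^ 3) =
        u ^ 6 * (z * (X ^ 3 + z * Y ^ 3)) := by ring
    rw [e2, h1]
    ring

end ECLT

open _root_.Pool.Agent.PT3.ECLT in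
/-- ECLT: the system for a class, `q = 2 (mod 3)`. -/
theorem ECLT_thm (hHYPT : HYPT) (hEBAT : EBAT) (hEADT : EADT) (hESYT : ESYT) (hFD1T : FD1T)
    (hFD2T : FD2T) (hTENT : TENT) : ECLT := by
  intro h n m k π p e r f w0 c hNF hh hhk hdet
  obtain ⟨s, τ, b, X, Y, hs, hAdC, hV, hind, h3, hLam, hgen⟩ :=
    hEBAT h n m k π p e r f w0 c hNF hh hdet
  obtain ⟨P, Q, P', Q', hSys, hSw⟩ := hESYT h n m k π p e r f w0 c s b hNF hAdC hV hind h3
  have hb0 : ∀ i, b i ≠ 0 := fun i => (hAdC i).ne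
  refine ⟨s, b, X, Y, P, Q, P', Q', ?_, hSys, hb0, ?_⟩
  · obtain ⟨a, ha⟩ := hhk
    exact ⟨a + 1 - h, by omega⟩
  intro E q hE hq hq2 hIn hqn
  obtain ⟨hBT, hTy, hiff⟩ := hEADT h n m k π p e r f w0 c E q hNF hh hE hq hq2 hIn hqn
  have hA : ∀ i, AdT (BB h n E q) (b i) := fun i => (hiff _ (hAdC i).supp).1 (hAdC i)
  obtain ⟨hsk, hker⟩ := hTENT s τ b X Y P Q P' Q' (BB h n E q) hSys hSw hBT.toBG
    (fun i => (hA i).toAG) (hLam _ hTy) hb0
  refine ⟨hBT, hA, hsk, ?_⟩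
  intro hXY
  have hn0 : 0 < n := by
    rcases Nat.eq_zero_or_pos n with h0 | h0
    · exact absurd (by rw [h0]; exact dvd_zero q) hqn
    · exact h0
  have hq3 : q ≠ 3 := by
    rintro rfl
    norm_num at hq2
  have hH : HypT (BB h n E q) :=
    hHYPT h n m k π p e r f w0 c E q hNF hh hE hq hq2 hIn hqn hdet
  obtain ⟨a, x, hC⟩ := hFD1T (BB h n E q) hBT hH hXY
  obtain ⟨z, X1, Y1, hPt, hAz, hsupp, hcube⟩ := hFD2T h n E q a x hh hE hq hq3 hqn hn0 hBT hC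
  obtain ⟨g, u, v, hu, hv, hg⟩ := hgen z ((hiff z hsupp).2 hAz)
  obtain ⟨hex, X', Y', hPt'⟩ := pt_prod hPt hcube hu hv hg
  have hk := hker g X' Y' hex hPt'
  rw [← Matrix.exists_mulVec_eq_zero_iff]
  refine ⟨fun i => (g i : ZMod 3), ?_, ?_⟩
  · intro h1
    obtain ⟨i, hi⟩ := hex
    apply hi
    have h2 := congrFun h1 i
    exact (ZMod.natCast_eq_zero_iff (g i) 3).1 h2
  · ext j
    exact hk j

end Pool.Agent.PT3


end

section

/-!
# FIN3: all the classes together, `3^h n`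
-/

open NumberField IsDedekindDomain Finset
open scoped nonZeroDivisors Pointwise

namespace Pool.Agent.PT3

open Pool.Agent.Lib_helper18 Pool.Agent.Lib_helper18.Eis Pool.Agent.Lib_helper84.Cub
open Pool.Agent.PT Pool.Agent.PTE

namespace FIN3

theorem card_two : ∀ t : ZMod 3, Fintype.card {w : ZMod 3 // t + w ≠ 0} = 2 := by decide

theorem exists_w : ∀ t : ZMod 3, ∃ w : ZMod 3, w ≠ 0 ∧ t + w ≠ 0 := by decide

open Classical in
/-- sum over the classes, `q = 2 (mod 3)` -/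
theorem even_part (hDADD : DADD) {m : ℕ} (π : Fin m → PP) (t : ZMod 3)
    (D : ZMod 3 → (Fin m → ZMod 3) → Prop) (T : Set ℕ) (d : ℝ) (hd : 0 ≤ d)
    (hD : ∀ w0, t + w0 ≠ 0 → 2 ^ m ≤ Nat.card {c : Fin m → ZMod 3 // D w0 c})
    (hS : ∀ w0 c, t + w0 ≠ 0 → D w0 c → RI.DensityGE {q : ℕ | InCl π w0 c q ∧ q ∈ T} d) :
    RI.DensityGE T ((2 * 2 ^ m : ℕ) * d) := by
  refine hDADD (Σ w : {w : ZMod 3 // t + w ≠ 0}, {c : Fin m → ZMod 3 // D w.1 c})
    (fun i => {q : ℕ | InCl π i.1.1 i.2.1 q ∧ q ∈ T}) T d hd ?_ ?_ ?_ _ ?_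
  · rintro ⟨⟨w, hw⟩, ⟨c, hc⟩⟩
    exact hS w c hw hc
  · rintro i q ⟨_, hq⟩
    exact hq
  · rintro ⟨⟨w, hw⟩, ⟨c, hc⟩⟩ ⟨⟨w', hw'⟩, ⟨c', hc'⟩⟩ hne
    rw [Set.disjoint_left]
    rintro q ⟨⟨_, h1, h2⟩, _⟩ ⟨⟨_, h3, h4⟩, _⟩
    apply hne
    have e1 : w = w' := h1.symm.trans h3
    have e2 : c = c' := funext fun i => (h2 i).symm.trans (h4 i)
    subst e1
    subst e2
    rfl
  · rw [Fintype.card_sigma]
    calc 2 * 2 ^ m = ∑ _w : {w : ZMod 3 // t + w ≠ 0}, 2 ^ m := by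
          rw [Finset.sum_const, Finset.card_univ, smul_eq_mul]
          congr 1
          exact (card_two t).symm.trans (Fintype.card_congr (Equiv.refl _))
      _ ≤ _ := by
          refine Finset.sum_le_sum fun w _ => ?_
          rw [← Nat.card_eq_fintype_card]
          exact hD w.1 w.2

open Classical in
/-- sum over the classes, `q = 1 (mod 3)` -/
theorem odd_part (hDADD : DADD) {m : ℕ} (π : Fin m → PP) (w0 : ZMod 3)
    (D : (Fin m → ZMod 3) → Prop) (T : Set ℕ) (d : ℝ) (hd : 0 ≤ d)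
    (hD : 2 ^ m ≤ Nat.card {c : Fin m → ZMod 3 // D c})
    (hS : ∀ c, D c → RI.DensityGE {q : ℕ | InClS π w0 c q ∧ q ∈ T} d) :
    RI.DensityGE T ((2 ^ m : ℕ) * d) := by
  refine hDADD {c : Fin m → ZMod 3 // D c}
    (fun i => {q : ℕ | InClS π w0 i.1 q ∧ q ∈ T}) T d hd ?_ ?_ ?_ _ ?_
  · rintro ⟨c, hc⟩
    exact hS c hc
  · rintro i q ⟨_, hq⟩
    exact hq
  · rintro ⟨c, hc⟩ ⟨c', hc'⟩ hne
    rw [Set.disjoint_left]
    rintro q ⟨⟨_, h1, h2⟩, _⟩ ⟨⟨_, h3, h4⟩, _⟩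
    apply hne
    have e2 : c = c' := funext fun i => (h2 i).symm.trans (h4 i)
    subst e2
    rfl
  · rw [← Nat.card_eq_fintype_card]
    exact hD

theorem const_even (m : ℕ) : ((2 * 2 ^ m : ℕ) : ℝ) * (1 / (24 * 3 ^ m)) = 2 ^ m / (12 * 3 ^ m) := by
  have h : (3 : ℝ) ^ m ≠ 0 := pow_ne_zero _ (by norm_num)
  push_cast
  field_simp
  norm_num

theorem const_odd (m : ℕ) : ((2 ^ m : ℕ) : ℝ) * (1 / (30 * 3 ^ m)) = 2 ^ m / (30 * 3 ^ m) := by
  have h : (3 : ℝ) ^ m ≠ 0 := pow_ne_zero _ (by norm_num)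
  push_cast
  field_simp

theorem const_le (m : ℕ) : (2 : ℝ) ^ m / (30 * 3 ^ m) ≤ 2 ^ m / (12 * 3 ^ m) := by
  have h : (0 : ℝ) < 3 ^ m := pow_pos (by norm_num) _
  have h2 : (0 : ℝ) ≤ 2 ^ m := (pow_pos (by norm_num) _).le
  exact div_le_div_of_nonneg_left h2 (by linarith) (by linarith)

end FIN3

open _root_.Pool.Agent.PT3.FIN3 in
theorem FIN3_thm (hFCLT : FCLT) (hFCLU : FCLU) (hEMAX : EMAX) (hDADD : DADD) : FIN3 := by
  intro h n m k π p e r f hNF hh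
  have hE : Even (h + k) →
      RI.DensityGE {q : ℕ | ¬ ∃ X Y : ℚ, X ^ 3 + Y ^ 3 = ((3 ^ h * n : ℕ) : ℚ) * q}
        (2 ^ m / (12 * 3 ^ m)) := by
    intro hev
    have h1 := even_part hDADD π (wt ((n : ℤ) ^ 2))
      (fun w0 c => (Mt h n π p e w0 c).det ≠ 0)
      {q : ℕ | ¬ ∃ X Y : ℚ, X ^ 3 + Y ^ 3 = ((3 ^ h * n : ℕ) : ℚ) * q} (1 / (24 * 3 ^ m))
      (by positivity)
      (fun w0 hw => hEMAX h n m π p e w0 fun _ => hw)
      (fun w0 c _ hc => hFCLT h n m k π p e r f w0 c hNF hh hev hc)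
    rwa [const_even] at h1
  refine ⟨hE, ?_⟩
  rcases Nat.even_or_odd (h + k) with hev | hod
  · exact PT.DENS.dens_mono (hE hev) (const_le m)
  · obtain ⟨w0, hw0, hw1⟩ := exists_w (wt ((n : ℤ) ^ 2))
    have h1 := odd_part hDADD π w0 (fun c => (Mt h n π p e w0 c).det ≠ 0)
      {q : ℕ | ¬ ∃ X Y : ℚ, X ^ 3 + Y ^ 3 = ((3 ^ h * n : ℕ) : ℚ) * q} (1 / (30 * 3 ^ m))
      (by positivity)
      (hEMAX h n m π p e w0 fun _ => hw1)
      (fun c hc => hFCLU h n m k π p e r f w0 c hNF hh hod (Or.inl hw0) hc)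
    rwa [const_odd] at h1

end Pool.Agent.PT3


end

section

/-!
# LL1: the linear forms of a point when `x` is a local cube
-/

open NumberField IsDedekindDomain Finset
open scoped nonZeroDivisors Pointwise

namespace Pool.Agent.PT3

open Pool.Agent.Lib_helper18 Pool.Agent.Lib_helper18.Eis Pool.Agent.Lib_helper84.Cub
open Pool.Agent.PT Pool.Agent.PTE

namespace LL1

/-! ### Integers -/

/-- the power of `3` -/
theorem exists_unit {n : ℤ} (hn : n ≠ 0) :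
    ∃ m : ℤ, n = 3 ^ padicValInt 3 n * m ∧ ¬ (3 : ℤ) ∣ m := by
  have : Fact (Nat.Prime 3) := ⟨Nat.prime_three⟩
  obtain ⟨m, hm⟩ : ((3 : ℕ) : ℤ) ^ padicValInt 3 n ∣ n := padicValInt_dvd n
  have hm' : n = 3 ^ padicValInt 3 n * m := hm
  refine ⟨m, hm', ?_⟩
  rintro ⟨k, hk⟩
  have h1 : ((3 : ℕ) : ℤ) ^ (padicValInt 3 n + 1) ∣ n := by
    refine ⟨k, ?_⟩
    have h3 : n = 3 ^ padicValInt 3 n * (3 * k) := by rw [← hk]; exact hm'
    have h4 : ((3 : ℕ) : ℤ) ^ (padicValInt 3 n + 1) * k = 3 ^ padicValInt 3 n * (3 * k) := by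
      rw [pow_succ]
      push_cast
      ring
    exact h3.trans h4.symm
  rcases (padicValInt_dvd_iff (p := 3) (padicValInt 3 n + 1) n).1 h1 with h2 | h2
  · exact hn h2
  · omega

theorem pow_three_cong (a : ℤ) : (3 : ℤ) ∣ a ^ 3 - a := by
  have h : a % 3 = 0 ∨ a % 3 = 1 ∨ a % 3 = 2 := by omega
  obtain ⟨k, hk⟩ : ∃ k, a = 3 * k + a % 3 := ⟨a / 3, by omega⟩
  rcases h with h | h | h
  · rw [h] at hk
    exact ⟨9 * k ^ 3 - k, by rw [hk]; ring⟩
  · rw [h] at hk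
    exact ⟨9 * k ^ 3 + 9 * k ^ 2 + 2 * k, by rw [hk]; ring⟩
  · rw [h] at hk
    exact ⟨9 * k ^ 3 + 18 * k ^ 2 + 11 * k + 2, by rw [hk]; ring⟩

theorem ndvd_mul {a b : ℤ} (ha : ¬ (3 : ℤ) ∣ a) (hb : ¬ (3 : ℤ) ∣ b) : ¬ (3 : ℤ) ∣ a * b := by
  intro h
  rcases Int.prime_three.dvd_or_dvd h with h | h
  · exact ha h
  · exact hb h

/-- the main computation with integers -/
theorem int_part (N : ℕ) : ∀ (X c : ℤ), X.natAbs ≤ N → X ≠ 0 → ∀ (v : ℕ) (m : ℤ),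
    X ^ 3 + c ^ 3 = 3 ^ v * m → ¬ (3 : ℤ) ∣ m → v % 3 = 1 →
    ∃ (a : ℕ) (X1 c1 : ℤ), X = 3 ^ a * X1 ∧ c = 3 ^ a * c1 ∧ ¬ (3 : ℤ) ∣ X1 ∧
      (27 : ℤ) ∣ X1 + c1 := by
  induction N with
  | zero =>
    intro X c hN hX
    exact absurd (Int.natAbs_eq_zero.1 (Nat.le_zero.1 hN)) hX
  | succ N ih =>
    intro X c hN hX v m h hm hv
    obtain ⟨v', rfl⟩ : ∃ v', v = v' + 1 := ⟨v - 1, by omega⟩
    have h3 : (3 : ℤ) ∣ X ^ 3 + c ^ 3 := by
      rw [h, pow_succ]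
      exact ⟨3 ^ v' * m, by ring⟩
    have hX3 := pow_three_cong X
    have hc3 := pow_three_cong c
    have hs : (3 : ℤ) ∣ X + c := by omega
    by_cases hX0 : (3 : ℤ) ∣ X
    · have hc0 : (3 : ℤ) ∣ c := by omega
      obtain ⟨X', rfl⟩ := hX0
      obtain ⟨c', rfl⟩ := hc0
      have hX' : X' ≠ 0 := by
        rintro rfl
        exact hX (mul_zero _)
      have hN' : X'.natAbs ≤ N := by
        rw [Int.natAbs_mul] at hN
        have h1 : 0 < X'.natAbs := Int.natAbs_pos.2 hX'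
        have h2 : (3 : ℤ).natAbs = 3 := rfl
        rw [h2] at hN
        omega
      have hv3 : 3 ≤ v' := by
        by_contra hlt
        have hv0 : v' = 0 := by omega
        subst hv0
        apply hm
        refine ⟨3 * (X' ^ 3 + c' ^ 3), ?_⟩
        have h4 : (3 : ℤ) * m = 3 * (3 * (3 * (X' ^ 3 + c' ^ 3))) := by
          rw [zero_add, pow_one] at h
          linear_combination -h
        exact mul_left_cancel₀ three_ne_zero h4
      obtain ⟨u, rfl⟩ : ∃ u, v' = u + 3 := ⟨v' - 3, by omega⟩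
      have h5 : X' ^ 3 + c' ^ 3 = 3 ^ (u + 1) * m := by
        have h6 : (27 : ℤ) * (X' ^ 3 + c' ^ 3) = 27 * (3 ^ (u + 1) * m) := by
          have h7 : (3 : ℤ) ^ (u + 3 + 1) = 27 * 3 ^ (u + 1) := by
            rw [show u + 3 + 1 = (u + 1) + 3 by ring, pow_add]
            norm_num
            ring
          rw [h7] at h
          linear_combination h
        exact mul_left_cancel₀ (by norm_num) h6
      obtain ⟨a, X1, c1, e1, e2, e3, e4⟩ := ih X' c' hN' hX' (u + 1) m h5 hm (by omega)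
      refine ⟨a + 1, X1, c1, ?_, ?_, e3, e4⟩
      · rw [e1, pow_succ]
        ring
      · rw [e2, pow_succ]
        ring
    · have hc0 : ¬ (3 : ℤ) ∣ c := by omega
      obtain ⟨s', hs'⟩ := hs
      set u : ℤ := 3 * s' ^ 2 - X * c with hu
      have hu3 : ¬ (3 : ℤ) ∣ u := by
        intro h1
        apply ndvd_mul hX0 hc0
        have h2 : X * c = 3 * s' ^ 2 - u := by rw [hu]; ring
        rw [h2]
        exact dvd_sub (dvd_mul_right _ _) h1
      have hfac : X ^ 3 + c ^ 3 = 9 * (s' * u) := by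
        have h1 : X ^ 3 + c ^ 3 = (X + c) * ((X + c) ^ 2 - 3 * (X * c)) := by ring
        rw [h1, hs', hu]
        ring
      have hv1 : 3 ≤ v' := by
        by_contra hlt
        have hv0 : v' = 0 := by omega
        subst hv0
        apply hm
        refine ⟨s' * u, ?_⟩
        have h4 : (3 : ℤ) * m = 3 * (3 * (s' * u)) := by
          rw [zero_add, pow_one] at h
          linear_combination hfac - h
        exact mul_left_cancel₀ three_ne_zero h4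
      obtain ⟨t, rfl⟩ : ∃ t, v' = t + 3 := ⟨v' - 3, by omega⟩
      have h9 : (9 : ℤ) ∣ s' * u := by
        refine ⟨3 ^ t * m, ?_⟩
        have h6 : (9 : ℤ) * (s' * u) = 9 * (9 * (3 ^ t * m)) := by
          have h7 : (3 : ℤ) ^ (t + 3 + 1) = 81 * 3 ^ t := by
            rw [show t + 3 + 1 = t + 4 by ring, pow_add]
            norm_num
            ring
          rw [h7] at h
          linear_combination h - hfac
        exact mul_left_cancel₀ (by norm_num) h6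
      have hcop : IsCoprime (9 : ℤ) u := by
        have h1 : IsCoprime (3 : ℤ) u := (Int.prime_three.coprime_iff_not_dvd).2 hu3
        have h2 := h1.pow_left (m := 2)
        norm_num at h2
        exact h2
      have h9' : (9 : ℤ) ∣ s' := hcop.dvd_of_dvd_mul_right h9
      refine ⟨0, X, c, by ring, by ring, hX0, ?_⟩
      obtain ⟨r, hr⟩ := h9'
      exact ⟨r, by rw [hs', hr]; ring⟩

/-! ### Eisenstein integers -/

theorem lam_sq : lam ^ 2 = 3 * (-w) := by decide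

theorem twentyseven : (27 : Eis) = lam ^ 5 * (-lam) := by decide

/-- powers of `lam` and of `3` -/
theorem int_dvd {M : ℕ} {n : ℤ} (h : lam ^ (2 * M) ∣ (n : Eis)) : (3 : ℤ) ^ M ∣ n := by
  rw [pow_mul, lam_sq, mul_pow] at h
  have h1 : ((3 ^ M : ℤ) : Eis) ∣ (n : Eis) := by
    have h2 : ((3 ^ M : ℤ) : Eis) ∣ 3 ^ M * (-w) ^ M := ⟨(-w) ^ M, by push_cast; ring⟩
    exact h2.trans h
  exact intCast_dvd_intCast.1 h1

theorem lam_dvd_int {n : ℤ} (h : lam ∣ (n : Eis)) : (3 : ℤ) ∣ n := by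
  rw [lam_dvd_iff] at h
  simpa using h

theorem ndvd1 {X : ℤ} (hX : ¬ (3 : ℤ) ∣ X) : ¬ lam ^ (1 + 1) ∣ lam * (X : Eis) := by
  intro h
  rw [pow_succ, pow_one] at h
  exact hX (lam_dvd_int ((mul_dvd_mul_iff_left prime_lam.ne_zero).1 h))

theorem one_sub_w2 : 1 - w ^ 2 = (-1) * (w * (w * lam)) := by decide

theorem ndvd2 {X : ℤ} (hX : ¬ (3 : ℤ) ∣ X) : ¬ lam ^ (1 + 1) ∣ (1 - w ^ 2) * (X : Eis) := by
  intro h
  apply ndvd1 hX
  have h1 : lam * (X : Eis) = ((1 - w ^ 2) * (X : Eis)) * (-w) := by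
    rw [one_sub_w2]
    linear_combination (-lam * (X : Eis)) * w_cube
  rw [h1]
  exact dvd_mul_of_dvd_left h _

/-- continuity -/
theorem near (hSLC : SLC) {X c : ℤ} {i : ℕ} (b : Eis) (hb : b ≠ 0)
    (hn : ¬ lam ^ (1 + 1) ∣ (1 - w ^ i) * (X : Eis)) (h : (27 : ℤ) ∣ X + c) :
    (X : Eis) + w ^ i * (c : Eis) ≠ 0 ∧
    sl ((X : Eis) + w ^ i * (c : Eis)) b = sl ((1 - w ^ i) * (X : Eis)) b := by
  have hV := DCONST.V_le_of_ndvd prime_lam hn
  obtain ⟨k, hk⟩ := h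
  have hk' : (X : Eis) + (c : Eis) = 27 * (k : Eis) := by exact_mod_cast congrArg (Int.cast : ℤ → Eis) hk
  have e : ((X : Eis) + w ^ i * (c : Eis)) - (1 - w ^ i) * (X : Eis) =
      lam ^ 5 * (-lam * (w ^ i * (k : Eis))) := by
    have e1 : ((X : Eis) + w ^ i * (c : Eis)) - (1 - w ^ i) * (X : Eis) =
      w ^ i * ((X : Eis) + (c : Eis)) := by ring
    rw [e1, hk', twentyseven]
    ring
  have h0 := DCONST.ne_of_ndvd hn
  refine ⟨?_, ?_⟩
  · intro hz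
    apply hn
    rw [hz, zero_sub] at e
    have e2 : (1 - w ^ i) * (X : Eis) = lam ^ (1 + 1) * (lam ^ 3 * (lam * (w ^ i * (k : Eis)))) := by
      linear_combination -e
    exact ⟨_, e2⟩
  · refine LSym.cont hSLC _ _ b h0 hb ?_
    have h5 : lam ^ (V lam ((1 - w ^ i) * (X : Eis)) + 4) ∣ lam ^ 5 := pow_dvd_pow _ (by omega)
    refine h5.trans ?_
    rw [e]
    exact dvd_mul_right _ _

end LL1

open _root_.Pool.Agent.PT3.LL1 in
theorem LL1_thm (hSLC : SLC) (_ : SSL) (hSCJ : SCJ) (_ : LCL) : LL1 := by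
  intro x X Y b hx hb hX hY hn0 hlv
  obtain ⟨m, hm, hm3⟩ := exists_unit hn0
  have hv : padicValInt 3 (X ^ 3 + x * Y ^ 3) % 3 = 1 := by
    have h1 : ((padicValInt 3 (X ^ 3 + x * Y ^ 3) : ℕ) : ZMod 3) = ((1 : ℕ) : ZMod 3) := by
      rw [Nat.cast_one]
      exact hlv
    rw [ZMod.natCast_eq_natCast_iff'] at h1
    simpa using h1
  set v := padicValInt 3 (X ^ 3 + x * Y ^ 3) with hvd
  refine ⟨2 * (v + 1), fun ξ hξ => ?_⟩
  have h1 : lam ^ (2 * (v + 1)) ∣ ((ξ ^ 3 - x : ℤ) : Eis) := by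
    push_cast
    exact hξ
  obtain ⟨k, hk⟩ := int_dvd h1
  have h2 : X ^ 3 + (ξ * Y) ^ 3 = 3 ^ v * (m + 3 * (k * Y ^ 3)) := by
    have h3 : X ^ 3 + (ξ * Y) ^ 3 = (X ^ 3 + x * Y ^ 3) + (ξ ^ 3 - x) * Y ^ 3 := by ring
    rw [h3, hm, hk, pow_succ]
    ring
  have hm3' : ¬ (3 : ℤ) ∣ m + 3 * (k * Y ^ 3) := by omega
  obtain ⟨a, X1, c1, e1, e2, e3, e4⟩ := int_part X.natAbs X (ξ * Y) le_rfl hX v _ h2 hm3' hv
  have hb' : (b : Eis) ≠ 0 := DCONST.cast_ne hb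
  obtain ⟨z1, s1⟩ := near hSLC (i := 1) (b : Eis) hb' (by
    rw [pow_one, ← lam_eq]
    exact ndvd1 e3) e4
  obtain ⟨z2, s2⟩ := near hSLC (i := 2) (b : Eis) hb' (ndvd2 e3) e4
  have hp : ((3 : Eis) ^ a) ≠ 0 := by
    have h3 : ((3 ^ a : ℤ) : Eis) ≠ 0 := DCONST.cast_ne (pow_ne_zero a (by norm_num))
    push_cast at h3
    exact h3
  have hX1 : (X1 : Eis) ≠ 0 := by
    apply DCONST.cast_ne
    rintro rfl
    exact e3 (dvd_zero _)
  have hL : ∀ i : ℕ, Lf X Y i ξ = (3 : Eis) ^ a * ((X1 : Eis) + w ^ i * (c1 : Eis)) := by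
    intro i
    have h5 : (X : Eis) = (3 : Eis) ^ a * (X1 : Eis) := by
      rw [e1]
      push_cast
      ring
    have h6 : (ξ : Eis) * (Y : Eis) = (3 : Eis) ^ a * (c1 : Eis) := by
      have := congrArg (Int.cast : ℤ → Eis) e2
      push_cast at this
      exact this
    unfold Lf
    linear_combination h5 + w ^ i * h6
  have hw : (w : Eis) ≠ 0 := by decide
  have hl : lam ≠ 0 := prime_lam.ne_zero
  have hn1 : (-1 : Eis) ≠ 0 := by decide
  have hs1 : sl ((-1 : Eis)) (b : Eis) = 0 := by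
    have h7 := hSCJ.2.2.1 (-1) b (by norm_num) hb
    have h8 : ((-1 : ℤ) : Eis) = -1 := by push_cast; rfl
    rwa [h8] at h7
  have hM := hSLC.mul
  rw [hL 1, hL 2, hM _ _ _ hp z1 hb', hM _ _ _ hp z2 hb', s1, s2, pow_one, ← lam_eq, one_sub_w2,
    hM _ _ _ hl hX1 hb',
    hM _ _ _ (mul_ne_zero hn1 (mul_ne_zero hw (mul_ne_zero hw hl))) hX1 hb',
    hM _ _ _ hn1 (mul_ne_zero hw (mul_ne_zero hw hl)) hb',
    hM _ _ _ hw (mul_ne_zero hw hl) hb', hM _ _ _ hw hl hb', hs1]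
  generalize sl w (b : Eis) = t
  generalize sl lam (b : Eis) = t'
  generalize sl (X1 : Eis) (b : Eis) = t''
  generalize sl ((3 : Eis) ^ a) (b : Eis) = t'''
  have h3 : (3 : ZMod 3) = 0 := by decide
  linear_combination (-t) * h3

end Pool.Agent.PT3


end

section

/-!
# TPT: the pairing vanishes on the class of a point
-/

namespace Pool.Agent.PT3

open Pool.Agent.Lib_helper18 Pool.Agent.Lib_helper18.Eis Pool.Agent.Lib_helper84.Cub
open Pool.Agent.PT Pool.Agent.PTE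

namespace TPT

theorem sol_swap {b x p q p' q' : ℤ} (h : Sol b x p q p' q') : Sol x b p (-p') (-q) q' where
  eq := by linear_combination h.eq
  n1 := by
    intro h0
    apply h.n2
    linear_combination h0
  n2 := by
    intro h0
    apply h.n1
    linear_combination h0

theorem Gf_swap (p q p' q' : ℤ) (i : ℕ) : Gf p (-p') (-q) q' i = Gf p q p' q' i := by
  unfold Gf
  push_cast
  ring

theorem UV_swap {s : Eis → Eis → ZMod 3} (B b x p q p' q' : ℤ) :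
    UV s B x b p (-p') (-q) q' = UV s B b x p q p' q' := by
  unfold UV
  rw [Gf_swap, Gf_swap]
  have : B * b * x = B * x * b := by ring
  rw [this]

theorem Df_one (u v : ℤ) (i : ℕ) : Df 1 0 u v i = u := by
  unfold Df
  push_cast
  ring

/-- the local term at the point at infinity -/
theorem SV_one (s : Eis → Eis → ZMod 3) (x p q p' q' : ℤ) : SV s x p q p' q' 1 0 = 0 := by
  unfold SV
  simp only [Df_one]
  ring

theorem n0_ne {B x X Y : ℤ} (hB : B ≠ 0) (h : Pt B x X Y) : X ^ 3 + x * Y ^ 3 ≠ 0 := by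
  obtain ⟨-, -, c, hc, e⟩ := h
  intro h0
  rw [h0, mul_zero] at e
  exact mul_ne_zero hB (pow_ne_zero 3 hc) e.symm

theorem three_mul (a : ZMod 3) : a + (a + a) = 0 := by
  revert a
  decide

theorem ptL (hLCL : LCL) {B x X Y : ℤ} (hB : B ≠ 0) (h : Pt B x X Y) : PtL B x X Y := by
  have hn := n0_ne hB h
  obtain ⟨hX, hY, c, hc, e⟩ := h
  refine ⟨hX, hY, hn, ?_⟩
  have h2 := hLCL.2.1
  have e1 := h2 c (c * c) hc (mul_ne_zero hc hc)
  have e2 := h2 c c hc hc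
  have e3 := h2 B (c * (c * c)) hB (mul_ne_zero hc (mul_ne_zero hc hc))
  have e4 : B * c ^ 3 = B * (c * (c * c)) := by ring
  rw [e, e4, e3.1, e3.2, e1.1, e1.2, e2.1, e2.2, three_mul, three_mul]
  exact ⟨add_zero _, add_zero _⟩

/-- the local identity at `lam` -/
theorem lam_case (hLVA : LVA) (hLVB : LVB) (hLVC : LVC) (hLE1 : LE1) (hLE3 : LE3)
    {B b x p q p' q' X Y X₀ Y₀ : ℤ} (hB : B ≠ 0) (hb : b ≠ 0) (hx : x ≠ 0)
    (hS : Sol b x p q p' q') (hP : PtL B x X₀ Y₀)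
    (h : LC lam b ∨
      (lv b = lv B ∧ lw b = lw B ∧ X = 1 ∧ Y = 0 ∧ (LC lam x ∨ lv B = 1)) ∨
      (lv B = 1 ∧ ¬ LC lam b ∧ PtL B b X Y ∧ (LC lam x ∨ (lv x = lv B ∧ lw x = lw B)))) :
    TT none B b x p q p' q' =
      UV (sy none) B b x p q p' q' - SV (sy none) x p q p' q' X₀ Y₀ -
        OT B b X Y x p q p' q' + OO B b x p q p' q' := by
  have e0 : sy none = sl := rfl
  rw [e0]
  unfold OT
  by_cases hc : LC lam b
  · rw [if_pos hc, hLVA B b x p q p' q' X₀ Y₀ hB hb hx hS hc hP]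
    ring
  · rw [if_neg hc]
    have hT : TT none B b x p q p' q' = 0 := by
      unfold TT
      rw [if_neg]
      exact hc
    rw [hT]
    rcases h with h | ⟨h1, h2, rfl, rfl, h5⟩ | ⟨h1, -, h3, h4⟩
    · exact absurd h hc
    · rw [SV_one]
      have key : SV sl x p q p' q' X₀ Y₀ = UV sl B b x p q p' q' := by
        by_cases hcx : LC lam x
        · exact hLVB B b x p q p' q' X₀ Y₀ hB hb hx hS hcx h1 h2 hP
        · exact hLE1 B b x p q p' q' X₀ Y₀ hB hb hx hS (h5.resolve_left hcx) h1 h2 hcx hP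
      rw [key]
      ring
    · by_cases hcx : LC lam x
      · rw [hLVC B b x p q p' q' X₀ Y₀ X Y hB hb hx hS h1 hcx hP h3]
        ring
      · obtain ⟨h5, h6⟩ := h4.resolve_left hcx
        rw [hLE3 B b x p q p' q' X₀ Y₀ hB hb hx hS h1 h5 h6 hP,
          hLE1 B x b p (-p') (-q) q' X Y hB hx hb (sol_swap hS) h1 h5 h6 hc h3, UV_swap]
        ring

end TPT

theorem TPT_thm (hSTM : STM) (hSPP : SPP) (hSSL : SSL) (hSLC : SLC) (hSCJ : SCJ) (hLCI : LCI)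
    (hAVV : AVV) (hLFIG : LFIG) (hLFIN : LFIN) (hLEVG : LEVG) (hLVA : LVA) (hLVB : LVB)
    (hLVC : LVC) (hLE1 : LE1) (hLE3 : LE3) (hLCL : LCL) : TPT := by
  intro B b x p q p' q' X Y X₀ Y₀ hB hb hx hS hP h
  have hn := TPT.n0_ne hB.ne hP
  have hPL := TPT.ptL hLCL hB.ne hP
  have hlam := TPT.lam_case hLVA hLVB hLVC hLE1 hLE3 hB.ne hb.ne hx.ne hS hPL h
  obtain ⟨f1, e1⟩ := hLFIN.2.1 B b x p q p' q' hB.ne hb.ne hx.ne hS
  obtain ⟨f2, e2⟩ := hLFIN.2.2 b x p q p' q' X₀ Y₀ hb.ne hx.ne hS hP.hX hP.hY hn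
  have f3 := hLFIG B b x p q p' q' hB hb hx hS.toSolW
  have e3 : ∑ᶠ v : Pl, (UV (sy v) B b x p q p' q' - SV (sy v) x p q p' q' X₀ Y₀) = 0 := by
    rw [finsum_sub_distrib f1 f2, e1, e2, sub_zero]
  set E : ZMod 3 := OT B b X Y x p q p' q' - OO B b x p q p' q' with hE
  have f4 : (Function.support fun v : Pl => if v = none then E else 0).Finite := by
    refine Set.Finite.subset (Set.finite_singleton (none : Pl)) ?_
    intro v hv
    by_contra hne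
    exact hv (if_neg hne)
  have e4 : ∑ᶠ v : Pl, (if v = none then E else 0) = E := by
    rw [finsum_eq_single _ (none : Pl) (fun v hv => if_neg hv), if_pos rfl]
  have e5 : ∀ v : Pl, TT v B b x p q p' q' + (if v = none then E else 0) =
      UV (sy v) B b x p q p' q' - SV (sy v) x p q p' q' X₀ Y₀ := by
    intro v
    cases v with
    | none =>
      rw [if_pos rfl, hlam, hE]
      ring
    | some π =>
      rw [if_neg (by simp), add_zero]
      exact hLEVG π B b x p q p' q' X₀ Y₀ hB hb hx hS hP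
  rw [← finsum_congr e5, finsum_add_distrib f3 f4, e4, hE] at e3
  have e6 : ∑ᶠ v : Pl, TT v B b x p q p' q' = OO B b x p q p' q' := rfl
  rw [e6] at e3
  rw [← e3]
  ring

end Pool.Agent.PT3


end
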