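import Mathlib
import Pool.Agent.PTDM.C21

/-! Parts: PT.EVEC, PT.GC, PT.GFR, PT.NHN, PTE.GCG, PTE.GFRS, PT3.EVET, PT3.GFRG -/

section

/-!
# EVEC: the admissible classes in terms of exponent vectors
-/

set_option autoImplicit false

namespace Pool.Agent.PT

open Pool.Agent.Lib_helper18 Pool.Agent.Lib_helper18.Eis Pool.Agent.Lib_helper84.Cub

namespace EVEC

/-! ### additive functions -/

/-- the value of an additive function at a product of powers -/
theorem fun_prod {M ι : Type} [AddCommMonoid M] [DecidableEq ι] (G : ℤ → Prop) (F : ℤ → M)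
    (hG1 : G 1) (hGm : ∀ a b, G a → G b → G (a * b)) (hF1 : F 1 = 0)
    (hF : ∀ a b, G a → G b → F (a * b) = F a + F b) (s : Finset ι) (a : ι → ℤ) (k : ι → ℕ)
    (ha : ∀ i ∈ s, G (a i)) :
    G (∏ i ∈ s, a i ^ k i) ∧ F (∏ i ∈ s, a i ^ k i) = ∑ i ∈ s, k i • F (a i) := by
  have hpow : ∀ b, G b → ∀ j : ℕ, G (b ^ j) ∧ F (b ^ j) = j • F b := by
    intro b hb j
    induction j with
    | zero => rw [pow_zero, zero_nsmul]; exact ⟨hG1, hF1⟩
    | succ j ih =>
      rw [pow_succ, succ_nsmul]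
      exact ⟨hGm _ _ ih.1 hb, by rw [hF _ _ ih.1 hb, ih.2]⟩
  induction s using Finset.induction_on with
  | empty => rw [Finset.prod_empty, Finset.sum_empty]; exact ⟨hG1, hF1⟩
  | insert i s hi ih =>
    rw [Finset.prod_insert hi, Finset.sum_insert hi]
    obtain ⟨h1, h2⟩ := hpow (a i) (ha i (Finset.mem_insert_self i s)) (k i)
    obtain ⟨h3, h4⟩ := ih fun j hj => ha j (Finset.mem_insert_of_mem hj)
    exact ⟨hGm _ _ h1 h3, by rw [hF _ _ h1 h3, h2, h4]⟩

section NF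

variable {n m k : ℕ} {π : Fin m → PP} {p e : Fin m → ℕ} {r f : Fin k → ℕ}

/-- the primes dividing `n` -/
theorem prime_dvd (h : NF n π p e r f) {l : ℕ} (hl : l.Prime) (hn : l ∣ n) :
    (∃ i, l = p i) ∨ ∃ j, l = r j := by
  rw [h.eq, hl.dvd_mul] at hn
  rcases hn with hn | hn
  · left
    obtain ⟨i, -, hi⟩ := (hl.prime.dvd_finsetProd_iff _).1 hn
    exact ⟨i, (Nat.prime_dvd_prime_iff_eq hl (h.pp i)).1 (hl.dvd_of_dvd_pow hi)⟩
  · right
    obtain ⟨j, -, hj⟩ := (hl.prime.dvd_finsetProd_iff _).1 hn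
    exact ⟨j, (Nat.prime_dvd_prime_iff_eq hl (h.rp j)).1 (hl.dvd_of_dvd_pow hj)⟩

/-- the factorisation of a number supported on `n` -/
theorem natAbs_eq (h : NF n π p e r f) {x : ℤ} (hx : x ≠ 0)
    (hs : ∀ l : ℕ, l.Prime → (l : ℤ) ∣ x → l ∣ n) :
    x.natAbs = (∏ i, p i ^ padicValInt (p i) x) * ∏ j, r j ^ padicValInt (r j) x := by
  classical
  have hx' : x.natAbs ≠ 0 := Int.natAbs_ne_zero.2 hx
  have h1 := Nat.prod_factorization_pow_eq_self hx'
  have hsub : x.natAbs.factorization.support ⊆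
      Finset.univ.image p ∪ Finset.univ.image r := by
    intro l hl
    rw [Nat.support_factorization, Nat.mem_primeFactors] at hl
    have h2 := hs l hl.1 (Int.natCast_dvd.2 hl.2.1)
    rw [Finset.mem_union, Finset.mem_image, Finset.mem_image]
    rcases prime_dvd h hl.1 h2 with ⟨i, hi⟩ | ⟨j, hj⟩
    · exact Or.inl ⟨i, Finset.mem_univ _, hi.symm⟩
    · exact Or.inr ⟨j, Finset.mem_univ _, hj.symm⟩
  have hdis : Disjoint (Finset.univ.image p) (Finset.univ.image r) := by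
    rw [Finset.disjoint_left]
    intro l hl hl'
    obtain ⟨i, -, rfl⟩ := Finset.mem_image.1 hl
    obtain ⟨j, -, hj⟩ := Finset.mem_image.1 hl'
    have e1 := h.p1 i
    have e2 := h.r2 j
    omega
  rw [Finsupp.prod_of_support_subset _ hsub _ (fun i _ => pow_zero i),
    Finset.prod_union hdis, Finset.prod_image (fun a _ b _ hab => h.pinj hab),
    Finset.prod_image (fun a _ b _ hab => h.rinj hab)] at h1
  have hval : ∀ l : ℕ, l.Prime → x.natAbs.factorization l = padicValInt l x := by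
    intro l hl
    rw [Nat.factorization_def _ hl]
    rfl
  rw [← h1]
  congr 1
  · exact Finset.prod_congr rfl fun i _ => by rw [hval _ (h.pp i)]
  · exact Finset.prod_congr rfl fun j _ => by rw [hval _ (h.rp j)]

theorem eq_prod (h : NF n π p e r f) {x : ℤ} (hx : x ≠ 0)
    (hs : ∀ l : ℕ, l.Prime → (l : ℤ) ∣ x → l ∣ n) :
    x = x.sign * ((∏ i, (p i : ℤ) ^ padicValInt (p i) x) *
      ∏ j, (r j : ℤ) ^ padicValInt (r j) x) := by
  conv_lhs => rw [← Int.sign_mul_natAbs x, natAbs_eq h hx hs]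
  push_cast
  rfl

theorem sign_cases {x : ℤ} (hx : x ≠ 0) : x.sign = 1 ∨ x.sign = -1 := by
  rcases lt_or_gt_of_ne hx with h | h
  · exact Or.inr (Int.sign_eq_neg_one_of_neg h)
  · exact Or.inl (Int.sign_eq_one_of_pos h)

/-- the value of an additive function with values in `ZMod 3` -/
theorem fun_eq (h : NF n π p e r f) (F : ℤ → ZMod 3)
    (hF : ∀ a b : ℤ, a ≠ 0 → b ≠ 0 → ¬ (3 : ℤ) ∣ a → ¬ (3 : ℤ) ∣ b → F (a * b) = F a + F b)
    (hneg : F (-1) = 0) {x : ℤ} (hx : x ≠ 0)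
    (hs : ∀ l : ℕ, l.Prime → (l : ℤ) ∣ x → l ∣ n) :
    F x = ∑ i, (padicValInt (p i) x : ZMod 3) * F (p i) +
      ∑ j, (padicValInt (r j) x : ZMod 3) * F (r j) := by
  classical
  let G : ℤ → Prop := fun a => a ≠ 0 ∧ ¬ (3 : ℤ) ∣ a
  have hG1 : G 1 := ⟨one_ne_zero, by norm_num⟩
  have hGm : ∀ a b, G a → G b → G (a * b) := fun a b ha hb =>
    ⟨mul_ne_zero ha.1 hb.1, fun hd => ((Int.prime_three.dvd_or_dvd hd).elim ha.2 hb.2)⟩
  have hF' : ∀ a b, G a → G b → F (a * b) = F a + F b := fun a b ha hb =>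
    hF a b ha.1 hb.1 ha.2 hb.2
  have hF1 : F 1 = 0 := by
    have e1 := hF' 1 1 hG1 hG1
    rw [one_mul] at e1
    exact (left_eq_add.1 e1)
  have hp : ∀ i, G (p i) := fun i => ⟨by exact_mod_cast (h.pp i).ne_zero, by
    have := h.p1 i
    omega⟩
  have hr : ∀ j, G (r j) := fun j => ⟨by exact_mod_cast (h.rp j).ne_zero, by
    have := h.r2 j
    omega⟩
  obtain ⟨a1, a2⟩ := fun_prod G F hG1 hGm hF1 hF' Finset.univ (fun i => (p i : ℤ))
    (fun i => padicValInt (p i) x) (fun i _ => hp i)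
  obtain ⟨b1, b2⟩ := fun_prod G F hG1 hGm hF1 hF' Finset.univ (fun j => (r j : ℤ))
    (fun j => padicValInt (r j) x) (fun j _ => hr j)
  have e1 : F x = F ((∏ i, (p i : ℤ) ^ padicValInt (p i) x) *
      ∏ j, (r j : ℤ) ^ padicValInt (r j) x) := by
    conv_lhs => rw [eq_prod h hx hs]
    rcases sign_cases hx with hs | hs
    · rw [hs, one_mul]
    · rw [hs, hF' (-1) _ ⟨by norm_num, by norm_num⟩ (hGm _ _ a1 b1), hneg, zero_add]
  rw [e1, hF' _ _ a1 b1, a2, b2]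
  simp only [nsmul_eq_mul]

/-- a number supported on `n` with all exponents divisible by three is a cube -/
theorem exists_cube (h : NF n π p e r f) {x : ℤ} (hx : x ≠ 0)
    (hs : ∀ l : ℕ, l.Prime → (l : ℤ) ∣ x → l ∣ n) (h1 : ∀ i, 3 ∣ padicValInt (p i) x)
    (h2 : ∀ j, 3 ∣ padicValInt (r j) x) : ∃ t : ℤ, t ≠ 0 ∧ x = t ^ 3 := by
  have e1 := eq_prod h hx hs
  choose a ha using h1
  choose b hb using h2
  have e2 : (∏ i, (p i : ℤ) ^ padicValInt (p i) x) * ∏ j, (r j : ℤ) ^ padicValInt (r j) x =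
      ((∏ i, (p i : ℤ) ^ a i) * ∏ j, (r j : ℤ) ^ b j) ^ 3 := by
    rw [mul_pow, ← Finset.prod_pow, ← Finset.prod_pow]
    congr 1
    · exact Finset.prod_congr rfl fun i _ => by rw [ha, ← pow_mul, mul_comm]
    · exact Finset.prod_congr rfl fun j _ => by rw [hb, ← pow_mul, mul_comm]
  have e3 : x = (x.sign * ((∏ i, (p i : ℤ) ^ a i) * ∏ j, (r j : ℤ) ^ b j)) ^ 3 := by
    rw [mul_pow, ← e2]
    have e4 : x.sign ^ 3 = x.sign := by
      rcases sign_cases hx with h | h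
      · rw [h]; norm_num
      · rw [h]; norm_num
    rw [e4]
    exact e1
  refine ⟨_, ?_, e3⟩
  intro h0
  rw [h0] at e3
  exact hx (by rw [e3]; norm_num)

end NF

/-! ### valuations and symbols at a split prime -/

section Split

variable {π : Eis} {p : ℕ}

/-- a split prime -/
structure Sp (π : Eis) (p : ℕ) : Prop where
  hp : p.Prime
  hp1 : p % 3 = 1
  pr : Prime π
  h3 : ¬ π ∣ 3
  norm : π.norm = p
  eq : (p : Eis) = π * conj π
  na : ¬ Associated π (conj π)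

theorem Sp.dvd_int (h : Sp π p) {a : ℤ} (ha : π ∣ (a : Eis)) : (p : ℤ) ∣ a := by
  obtain ⟨c, hc⟩ := ha
  have h1 : a ^ 2 = p * c.norm := by
    have h2 := congrArg Eis.norm hc
    rwa [norm_intCast, norm_mul, h.norm] at h2
  have h2 : (p : ℤ) ∣ a ^ 2 := ⟨_, h1⟩
  exact (Nat.prime_iff_prime_int.1 h.hp).dvd_of_dvd_pow h2

theorem Sp.not_dvd_conj (h : Sp π p) : ¬ π ∣ conj π := fun hd =>
  h.na (h.pr.associated_of_dvd (prime_conj h.pr) hd)

theorem Sp.V_self (h : Sp π p) : V π (p : Eis) = 1 := by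
  rw [h.eq, V_mul h.pr h.pr.ne_zero (prime_conj h.pr).ne_zero, Pool.Agent.Lib_helper84.Cub.V_self,
    V_eq_zero h.not_dvd_conj]

theorem Sp.V_int (h : Sp π p) {x : ℤ} (hx : x ≠ 0) : V π (x : Eis) = padicValInt p x := by
  have : Fact p.Prime := ⟨h.hp⟩
  obtain ⟨c, hc⟩ : (p : ℤ) ^ padicValInt p x ∣ x := padicValInt_dvd x
  have hc0 : c ≠ 0 := by
    rintro rfl
    rw [mul_zero] at hc
    exact hx hc
  have hpc : ¬ (p : ℤ) ∣ c := by
    rintro ⟨d, rfl⟩
    have h1 : (p : ℤ) ^ (padicValInt p x + 1) ∣ x := ⟨d, by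
      rw [pow_succ]
      conv_lhs => rw [hc]
      ring⟩
    rw [padicValInt_dvd_iff] at h1
    rcases h1 with h1 | h1
    · exact hx h1
    · omega
  have h1 : (x : Eis) = (p : Eis) ^ padicValInt p x * (c : Eis) := by
    conv_lhs => rw [hc]
    push_cast
    rfl
  have hp0 : (p : Eis) ≠ 0 := by
    rw [h.eq]
    exact mul_ne_zero h.pr.ne_zero (prime_conj h.pr).ne_zero
  have hcE : (c : Eis) ≠ 0 := by
    intro h0
    apply hc0
    have := congrArg Eis.re h0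
    simpa using this
  rw [h1, V_mul h.pr (pow_ne_zero _ hp0) hcE, V_pow h.pr hp0, h.V_self,
    V_eq_zero (fun hd => hpc (h.dvd_int hd)), mul_one, add_zero]

end Split

/-! ### the symbols of the unit parts -/

section Ch

variable {π : Eis}

theorem up_eq (hπ : Prime π) {a c : Eis} {v : ℕ} (h : a = π ^ v * c) (hc : ¬ π ∣ c) :
    up π a = c := by
  have hv : V π a = v := by rw [h, V_pow_mul hπ v hc]
  rw [up, hv, h, mul_div_cancel_left₀ _ (pow_ne_zero _ hπ.ne_zero)]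

theorem ch_mul (hπ : Prime π) (h3 : ¬ π ∣ 3) {a b : Eis} (ha : a ≠ 0) (hb : b ≠ 0) :
    ch π (a * b) = ch π a + ch π b := by
  obtain ⟨c, hc, hc'⟩ := V_split hπ ha
  obtain ⟨d, hd, hd'⟩ := V_split hπ hb
  have h1 : a * b = π ^ (V π a + V π b) * (c * d) := by
    conv_lhs => rw [hc, hd]
    ring
  have h2 : ¬ π ∣ c * d := fun h => (hπ.dvd_or_dvd h).elim hc' hd'
  rw [ch, ch, ch, up_eq hπ h1 h2, up_eq hπ hc hc', up_eq hπ hd hd', sym_mul hπ h3 hc' hd']

theorem ch_not_dvd (hπ : Prime π) {a : Eis} (ha : ¬ π ∣ a) : ch π a = sym π a := by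
  rw [ch, up_eq hπ (v := 0) (by rw [pow_zero, one_mul]) ha]

theorem ch_neg_one (hπ : Prime π) (h3 : ¬ π ∣ 3) : ch π (-1) = 0 := by
  rw [ch_not_dvd hπ (not_dvd_of_isUnit hπ (by simp)), sym_neg_one hπ h3]

theorem ch_self_mul (hπ : Prime π) {a : Eis} (ha : ¬ π ∣ a) : ch π (π * a) = sym π a := by
  rw [ch, up_eq hπ (v := 1) (by rw [pow_one]) ha]

end Ch

/-! ### the condition modulo nine -/

theorem wt_eq_zero_iff {a : ℤ} (ha : a % 3 = 1) : wt a = 0 ↔ a % 9 = 1 := by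
  rw [wt, ZMod.intCast_zmod_eq_zero_iff_dvd]
  omega

theorem C9_iff {x : ℤ} (hx : ¬ (3 : ℤ) ∣ x) : C9 x ↔ wt (x ^ 2) = 0 := by
  rw [wt_eq_zero_iff (sq_mod_three hx), C9]
  have h1 : x ^ 2 % 9 = (x % 9) ^ 2 % 9 := by rw [pow_two, pow_two, Int.mul_emod]
  rw [h1]
  have h2 : x % 9 = 0 ∨ x % 9 = 1 ∨ x % 9 = 2 ∨ x % 9 = 3 ∨ x % 9 = 4 ∨ x % 9 = 5 ∨
      x % 9 = 6 ∨ x % 9 = 7 ∨ x % 9 = 8 := by omega
  rcases h2 with h | h | h | h | h | h | h | h | h
  · omega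
  · rw [h]; norm_num
  · rw [h]; norm_num
  · omega
  · rw [h]; norm_num
  · rw [h]; norm_num
  · omega
  · rw [h]; norm_num
  · rw [h]; norm_num

end EVEC

open _root_.Pool.Agent.PT.EVEC in
theorem EVEC_thm (_hSTM : STM) (hSPP : SPP) : EVEC := by
  classical
  intro n m k π p e r f w0 c h
  -- the primes are split
  have hSp : ∀ i, Sp (π i).1 (p i) := by
    intro i
    obtain ⟨-, -, -, h4, -, h6⟩ := hSPP
    obtain ⟨p', hp', hc⟩ := h6 (π i)
    rcases hc with ⟨-, hc⟩ | ⟨-, hc1, hc2, hc3⟩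
    · exfalso
      have e1 := h.pπ i
      rw [hc, conj_natCast, ← Nat.cast_mul] at e1
      have e2 : p i = p' * p' := by
        have := congrArg Eis.re e1
        rw [natCast_re, natCast_re] at this
        exact_mod_cast this
      have e3 := h.pp i
      rw [e2] at e3
      exact Nat.not_prime_mul hp'.one_lt.ne' hp'.one_lt.ne' e3
    · have e1 : p i = p' := by
        have e2 : (p i : Eis) = (p' : Eis) := by rw [h.pπ i, hc2]
        have := congrArg Eis.re e2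
        simpa using this
      exact ⟨h.pp i, h.p1 i, (π i).2.1, (h4 (π i)).1, by rw [e1]; exact hc1, h.pπ i, hc3⟩
  have hpne : ∀ i i', i' ≠ i → ¬ (π i).1 ∣ (p i' : Eis) := by
    intro i i' hii hd
    have e1 : (p i : ℤ) ∣ (p i' : ℤ) := (hSp i).dvd_int (by exact_mod_cast hd)
    rw [Int.natCast_dvd_natCast, Nat.prime_dvd_prime_iff_eq (h.pp i) (h.pp i')] at e1
    exact hii (h.pinj e1).symm
  have hrne : ∀ i j, ¬ (π i).1 ∣ (r j : Eis) := by
    intro i j hd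
    have e1 : (p i : ℤ) ∣ (r j : ℤ) := (hSp i).dvd_int (by exact_mod_cast hd)
    rw [Int.natCast_dvd_natCast, Nat.prime_dvd_prime_iff_eq (h.pp i) (h.rp j)] at e1
    have e2 := h.p1 i
    have e3 := h.r2 j
    omega
  have hcast0 : ∀ a : ℤ, a ≠ 0 → (a : Eis) ≠ 0 := by
    intro a ha h0
    apply ha
    have := congrArg Eis.re h0
    simpa using this
  -- the valuation of `n`
  have hVn : ∀ i, V (π i).1 (n : Eis) = e i := by
    intro i
    let F : ℤ → ℕ := fun a => V (π i).1 (a : Eis)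
    have hF1 : F 1 = 0 := by
      show V (π i).1 ((1 : ℤ) : Eis) = 0
      rw [Int.cast_one]
      exact V_eq_zero (not_dvd_of_isUnit (π i).2.1 isUnit_one)
    have hF : ∀ a b : ℤ, a ≠ 0 → b ≠ 0 → F (a * b) = F a + F b := by
      intro a b ha hb
      show V (π i).1 ((a * b : ℤ) : Eis) = _
      rw [Int.cast_mul, V_mul (π i).2.1 (hcast0 a ha) (hcast0 b hb)]
    obtain ⟨a1, a2⟩ := fun_prod (fun a : ℤ => a ≠ 0) F one_ne_zero
      (fun a b => mul_ne_zero) hF1 hF Finset.univ (fun i => (p i : ℤ)) e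
      (fun i _ => by exact_mod_cast (h.pp i).ne_zero)
    obtain ⟨b1, b2⟩ := fun_prod (fun a : ℤ => a ≠ 0) F one_ne_zero
      (fun a b => mul_ne_zero) hF1 hF Finset.univ (fun j => (r j : ℤ)) f
      (fun j _ => by exact_mod_cast (h.rp j).ne_zero)
    have e1 : V (π i).1 (n : Eis) = F ((∏ i, (p i : ℤ) ^ e i) * ∏ j, (r j : ℤ) ^ f j) := by
      have e2 : ((n : ℕ) : ℤ) = (∏ i, (p i : ℤ) ^ e i) * ∏ j, (r j : ℤ) ^ f j := by
        rw [h.eq]
        push_cast
        rfl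
      rw [← e2]
      show V (π i).1 (n : Eis) = V (π i).1 ((n : ℤ) : Eis)
      rw [Int.cast_natCast]
    have hFp : F (p i) = 1 := by
      show V (π i).1 ((p i : ℤ) : Eis) = 1
      rw [Int.cast_natCast]
      exact (hSp i).V_self
    have hFp' : ∀ i', i' ≠ i → F (p i') = 0 := by
      intro i' hi'
      show V (π i).1 ((p i' : ℤ) : Eis) = 0
      rw [Int.cast_natCast]
      exact V_eq_zero (hpne i i' hi')
    have hFr : ∀ j, F (r j) = 0 := by
      intro j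
      show V (π i).1 ((r j : ℤ) : Eis) = 0
      rw [Int.cast_natCast]
      exact V_eq_zero (hrne i j)
    rw [e1, hF _ _ a1 b1, a2, b2, Finset.sum_eq_single i, hFp,
      Finset.sum_eq_zero fun j _ => by rw [hFr, smul_zero]]
    · simp
    · intro i' _ hi'
      rw [hFp' i' hi', smul_zero]
    · intro h0
      exact absurd (Finset.mem_univ _) h0
  -- the symbols
  have hch : ∀ (x : ℤ), x ≠ 0 → (∀ l : ℕ, l.Prime → (l : ℤ) ∣ x → l ∣ n) → ∀ i,
      ch (π i).1 (x : Eis) = (∑ i', (padicValInt (p i') x : ZMod 3) *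
          (if i' = i then sym (π i).1 (conj (π i).1) else sym (π i).1 (p i' : Eis))) +
        ∑ j, (padicValInt (r j) x : ZMod 3) * sym (π i).1 (r j : Eis) := by
    intro x hx hs i
    have hπ := (hSp i).pr
    have h3 := (hSp i).h3
    have e1 := fun_eq h (fun a => ch (π i).1 (a : Eis))
      (fun a b ha hb _ _ => by
        show ch (π i).1 ((a * b : ℤ) : Eis) = _
        rw [Int.cast_mul, ch_mul hπ h3 (hcast0 a ha) (hcast0 b hb)])
      (by
        show ch (π i).1 ((-1 : ℤ) : Eis) = 0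
        rw [Int.cast_neg, Int.cast_one, ch_neg_one hπ h3]) hx hs
    rw [e1]
    congr 1
    · refine Finset.sum_congr rfl fun i' _ => ?_
      congr 1
      show ch (π i).1 ((p i' : ℤ) : Eis) = _
      rw [Int.cast_natCast]
      by_cases hi' : i' = i
      · rw [if_pos hi', hi', (hSp i).eq, ch_self_mul hπ (hSp i).not_dvd_conj]
      · rw [if_neg hi', ch_not_dvd hπ (hpne i i' hi')]
    · refine Finset.sum_congr rfl fun j _ => ?_
      congr 1
      show ch (π i).1 ((r j : ℤ) : Eis) = _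
      rw [Int.cast_natCast, ch_not_dvd hπ (hrne i j)]
  -- the weight
  have hwt : ∀ (x : ℤ), x ≠ 0 → (∀ l : ℕ, l.Prime → (l : ℤ) ∣ x → l ∣ n) →
      wt (x ^ 2) = (∑ i, (padicValInt (p i) x : ZMod 3) * wt ((p i : ℤ) ^ 2)) +
        ∑ j, (padicValInt (r j) x : ZMod 3) * wt ((r j : ℤ) ^ 2) := by
    intro x hx hs
    exact fun_eq h (fun a => wt (a ^ 2))
      (fun a b _ _ ha hb => by
        show wt ((a * b) ^ 2) = _
        rw [mul_pow, wt_mul (sq_mod_three ha) (sq_mod_three hb)])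
      (by
        show wt ((-1) ^ 2) = 0
        rw [neg_one_sq, wt_one]) hx hs
  have hC9 : ∀ (x : ℤ), x ≠ 0 → ¬ (3 : ℤ) ∣ x → (∀ l : ℕ, l.Prime → (l : ℤ) ∣ x → l ∣ n) →
      (C9 x ↔ (∑ i, (padicValInt (p i) x : ZMod 3) * wt ((p i : ℤ) ^ 2)) +
        ∑ j, (padicValInt (r j) x : ZMod 3) * wt ((r j : ℤ) ^ 2) = 0) := by
    intro x hx h3 hs
    rw [C9_iff h3, hwt x hx hs]
  refine ⟨fun x hx h3 hs => ⟨?_, hC9 x hx h3 hs⟩, ?_⟩
  · have e1 : ∀ i, ((V (π i).1 (n : Eis) : ZMod 3) * ch (π i).1 (x : Eis) -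
        (V (π i).1 (x : Eis) : ZMod 3) * (ch (π i).1 (n : Eis) + c i) = 0) ↔
        ((e i : ZMod 3) * (∑ i', (padicValInt (p i') x : ZMod 3) *
          (if i' = i then sym (π i).1 (conj (π i).1) else sym (π i).1 (p i' : Eis))) +
        (e i : ZMod 3) * (∑ j, (padicValInt (r j) x : ZMod 3) * sym (π i).1 (r j : Eis)) -
        (padicValInt (p i) x : ZMod 3) * (ch (π i).1 (n : Eis) + c i) = 0) := by
      intro i
      rw [hVn i, (hSp i).V_int hx, hch x hx hs i, mul_add]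
    constructor
    · intro hA
      exact ⟨fun i => (e1 i).1 (hA.sym i), fun hw => (hC9 x hx h3 hs).1 (hA.nine hw)⟩
    · rintro ⟨hA, hB⟩
      exact ⟨hx, h3, hs, fun i => (e1 i).2 (hA i), fun hw => (hC9 x hx h3 hs).2 (hB hw)⟩
  · -- equality modulo cubes
    intro x x' hx hx' hs hs'
    have hmod : ∀ l : ℕ, l.Prime → ∀ u v : ℤ, u ≠ 0 → v ≠ 0 → x * u ^ 3 = x' * v ^ 3 →
        (padicValInt l x : ZMod 3) = padicValInt l x' := by
      intro l hl u v hu hv huv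
      have : Fact l.Prime := ⟨hl⟩
      have e1 := congrArg (padicValInt l) huv
      rw [padicValInt.mul hx (pow_ne_zero _ hu), padicValInt.mul hx' (pow_ne_zero _ hv),
        pow_succ, pow_succ, pow_one, pow_succ, pow_succ, pow_one,
        padicValInt.mul (mul_ne_zero hu hu) hu, padicValInt.mul hu hu,
        padicValInt.mul (mul_ne_zero hv hv) hv, padicValInt.mul hv hv] at e1
      have e2 := congrArg (fun t : ℕ => (t : ZMod 3)) e1
      push_cast at e2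
      have e3 : (3 : ZMod 3) = 0 := by decide
      linear_combination e2 + ((padicValInt l v : ZMod 3) - padicValInt l u) * e3
    constructor
    · rintro ⟨u, v, hu, hv, huv⟩
      exact ⟨fun i => hmod _ (h.pp i) u v hu hv huv, fun j => hmod _ (h.rp j) u v hu hv huv⟩
    · rintro ⟨hA, hB⟩
      have hxx : x * x' ^ 2 ≠ 0 := mul_ne_zero hx (pow_ne_zero _ hx')
      have h3 : ∀ l : ℕ, l.Prime → (padicValInt l x : ZMod 3) = padicValInt l x' →
          3 ∣ padicValInt l (x * x' ^ 2) := by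
        intro l hl he
        have : Fact l.Prime := ⟨hl⟩
        rw [padicValInt.mul hx (pow_ne_zero _ hx'), pow_two, padicValInt.mul hx' hx',
          ← ZMod.natCast_eq_zero_iff]
        push_cast
        rw [he]
        have e3 : (3 : ZMod 3) = 0 := by decide
        linear_combination (padicValInt l x' : ZMod 3) * e3
      obtain ⟨t, ht, hxt⟩ := exists_cube h hxx (by
        intro l hl hd
        rcases (Nat.prime_iff_prime_int.1 hl).dvd_or_dvd hd with h1 | h1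
        · exact hs l hl h1
        · exact hs' l hl ((Nat.prime_iff_prime_int.1 hl).dvd_of_dvd_pow h1))
        (fun i => h3 _ (h.pp i) (hA i)) (fun j => h3 _ (h.rp j) (hB j))
      refine ⟨x', t, hx', ht, ?_⟩
      rw [← hxt]
      ring

end Pool.Agent.PT


end

section

/-!
# Prime twists of rank zero: the commutators in the governing field
-/

open NumberField IsDedekindDomain Finset
open scoped nonZeroDivisors Pointwise

namespace Pool.Agent.PT

open Pool.Agent.Lib_helper18 Pool.Agent.Lib_helper18.Eis Pool.Agent.Lib_helper84.Cub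

namespace GC

section alg

variable {L : Type} [Field L]

theorem cube_eq {ω : L} (h : ω ^ 2 + ω + 1 = 0) {x y : L} (hxy : x ^ 3 = y ^ 3) :
    ∃ k : ℕ, x = ω ^ k * y := by
  have h1 : (x - y) * ((x - ω * y) * (x - ω ^ 2 * y)) = 0 := by
    linear_combination hxy + (-x ^ 2 * y + ω * x * y ^ 2 - (ω - 1) * y ^ 3) * h
  rcases mul_eq_zero.1 h1 with h2 | h2
  · exact ⟨0, by rw [pow_zero, one_mul]; exact sub_eq_zero.1 h2⟩
  · rcases mul_eq_zero.1 h2 with h3 | h3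
    · exact ⟨1, by rw [pow_one]; exact sub_eq_zero.1 h3⟩
    · exact ⟨2, sub_eq_zero.1 h3⟩

theorem om3 {ω : L} (h : ω ^ 2 + ω + 1 = 0) : ω ^ 3 = 1 := by
  linear_combination (ω - 1) * h

theorem om0 {ω : L} (h : ω ^ 2 + ω + 1 = 0) : ω ≠ 0 := by
  rintro rfl
  norm_num at h

/-- the norm form -/
theorem nrm {ω ρ : L} (h : ω ^ 2 + ω + 1 = 0) {b p q : ℤ} (hρ : ρ ^ 3 = (b : L)) :
    ((p : L) + q * ρ) * ((p + q * ω * ρ) * (p + q * ω ^ 2 * ρ)) = ((p ^ 3 + b * q ^ 3 : ℤ) : L) := by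
  push_cast
  rw [← hρ]
  linear_combination ((p : L) ^ 2 * q * ρ + p * q ^ 2 * ρ ^ 2 * ω + q ^ 3 * ρ ^ 3 * (ω - 1)) * h

end alg

section aut

variable {L : Type} [Field L] [NumberField L]

theorem ne3 {ω ρ : L} (h : ω ^ 2 + ω + 1 = 0) {b p q : ℤ} (hρ : ρ ^ 3 = (b : L))
    (hn : p ^ 3 + b * q ^ 3 ≠ 0) :
    ((p : L) + q * ρ) ≠ 0 ∧ ((p : L) + q * ω * ρ) ≠ 0 ∧ ((p : L) + q * ω ^ 2 * ρ) ≠ 0 := by
  have h1 : ((p : L) + q * ρ) * ((p + q * ω * ρ) * (p + q * ω ^ 2 * ρ)) ≠ 0 := by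
    rw [nrm h hρ]
    exact_mod_cast hn
  exact ⟨left_ne_zero_of_mul h1, left_ne_zero_of_mul (right_ne_zero_of_mul h1),
    right_ne_zero_of_mul (right_ne_zero_of_mul h1)⟩

theorem n1' {b x p q p' q' : ℤ} (hs : SolW b x p q p' q') : p' ^ 3 + b * q' ^ 3 ≠ 0 := by
  intro h
  have := hs.eq
  rw [h, mul_zero] at this
  exact hs.n1 this

/-- an automorphism fixing `ω` and `ρ` acts by a root of unity on `A` -/
theorem fixA {ω ρ A : L} {p q p' q' b x : ℤ} (h : L ≃ₐ[ℚ] L)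
    (hω : ω ^ 2 + ω + 1 = 0) (hρ : ρ ^ 3 = (b : L)) (hs : SolW b x p q p' q')
    (hhω : h ω = ω) (hhρ : h ρ = ρ)
    (hA : A ^ 3 * aD ω p q p' q' ρ = aN ω p q p' q' ρ) : ∃ e : ℕ, h A = ω ^ e * A := by
  have hD : aD ω p q p' q' ρ ≠ 0 := by
    unfold aD
    exact mul_ne_zero (ne3 hω hρ hs.n1).2.1 (ne3 hω hρ (n1' hs)).2.2
  have h1 : h (aD ω p q p' q' ρ) = aD ω p q p' q' ρ := by
    unfold aD
    simp [hhω, hhρ]
  have h2 : h (aN ω p q p' q' ρ) = aN ω p q p' q' ρ := by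
    unfold aN
    simp [hhω, hhρ]
  have h3 := congrArg h hA
  rw [map_mul, map_pow, h1, h2, ← hA] at h3
  exact cube_eq hω (mul_right_cancel₀ hD h3)

/-- an automorphism fixing `ω` and mapping `ρ` to `ωρ` -/
theorem movA {ω ρ t A : L} {p q p' q' b x : ℤ} (g : L ≃ₐ[ℚ] L)
    (hω : ω ^ 2 + ω + 1 = 0) (hρ : ρ ^ 3 = (b : L)) (ht : t ^ 3 = (x : L))
    (hs : SolW b x p q p' q') (hgω : g ω = ω) (hgρ : g ρ = ω * ρ)
    (hA : A ^ 3 * aD ω p q p' q' ρ = aN ω p q p' q' ρ) :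
    ∃ e : ℕ, g A * (p + q * ω ^ 2 * ρ) = ω ^ e * (A * t * (p' + q' * ω ^ 2 * ρ)) := by
  have h3 := congrArg g hA
  have hN := nrm hω hρ (p := p) (q := q)
  have hN' := nrm hω hρ (p := p') (q := q')
  have hnz := mul_ne_zero (ne3 hω hρ (n1' hs)).1 (ne3 hω hρ hs.n1).2.1
  unfold aD aN at h3 hA
  simp only [map_mul, map_pow, map_add, map_intCast, hgω, hgρ] at h3
  have hc := om3 hω
  have h4 : g A ^ 3 * ((p + q * ω ^ 2 * ρ) * (p' + q' * ρ)) =
      (p + q * ρ) * (p' + q' * ω ^ 2 * ρ) := by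
    have e1 : (p : L) + q * ω * (ω * ρ) = p + q * ω ^ 2 * ρ := by ring
    have e2 : (p' : L) + q' * ω ^ 2 * (ω * ρ) = p' + q' * ρ := by
      linear_combination ((q' : L) * ρ) * hc
    have e3 : (p : L) + q * ω ^ 2 * (ω * ρ) = p + q * ρ := by
      linear_combination ((q : L) * ρ) * hc
    have e4 : (p' : L) + q' * ω * (ω * ρ) = p' + q' * ω ^ 2 * ρ := by ring
    rw [e1, e2, e3, e4] at h3
    exact h3
  have heq : ((p ^ 3 + b * q ^ 3 : ℤ) : L) = (x : L) * ((p' ^ 3 + b * q' ^ 3 : ℤ) : L) := by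
    rw [hs.eq]
    push_cast
    ring
  rw [← hN, ← hN'] at heq
  apply cube_eq hω
  apply mul_right_cancel₀ hnz
  rw [mul_pow, mul_pow, mul_pow, ht]
  calc g A ^ 3 * ((p : L) + q * ω ^ 2 * ρ) ^ 3 * ((p' + q' * ρ) * (p + q * ω * ρ))
      = (g A ^ 3 * ((p + q * ω ^ 2 * ρ) * (p' + q' * ρ))) *
          ((p + q * ω ^ 2 * ρ) ^ 2 * (p + q * ω * ρ)) := by ring
    _ = ((p : L) + q * ρ) * ((p + q * ω * ρ) * (p + q * ω ^ 2 * ρ)) *
          ((p' + q' * ω ^ 2 * ρ) * (p + q * ω ^ 2 * ρ)) := by rw [h4]; ring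
    _ = (A ^ 3 * ((p + q * ω * ρ) * (p' + q' * ω ^ 2 * ρ))) *
          (x * ((p' + q' * ω ^ 2 * ρ) ^ 2 * (p' + q' * ρ))) := by rw [heq, hA]; ring
    _ = A ^ 3 * (x : L) * ((p' : L) + q' * ω ^ 2 * ρ) ^ 3 * ((p' + q' * ρ) * (p + q * ω * ρ)) := by
        ring

theorem mv {ω ρ t A : L} {p q p' q' b x : ℤ} (g h : L ≃ₐ[ℚ] L) (c : ℕ)
    (hω : ω ^ 2 + ω + 1 = 0) (hρ : ρ ^ 3 = (b : L)) (ht : t ^ 3 = (x : L))
    (hs : SolW b x p q p' q') (hgω : g ω = ω) (hhω : h ω = ω) (hgρ : g ρ = ω * ρ)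
    (hhρ : h ρ = ρ) (hht : h t = ω ^ c * t)
    (hA : A ^ 3 * aD ω p q p' q' ρ = aN ω p q p' q' ρ) : h (g A) = ω ^ c * g (h A) := by
  obtain ⟨e, he⟩ := movA g hω hρ ht hs hgω hgρ hA
  obtain ⟨e', he'⟩ := fixA h hω hρ hs hhω hhρ hA
  have hnz := (ne3 hω hρ hs.n1).2.2
  apply mul_right_cancel₀ hnz
  have h1 := congrArg h he
  simp only [map_mul, map_pow, map_add, map_intCast, hhω, hhρ, hht, he'] at h1
  rw [h1, he']
  simp only [map_mul, map_pow, hgω]
  linear_combination (- ω ^ c * ω ^ e') * he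

theorem fx {ω ρ A : L} {p q p' q' b x : ℤ} (g h : L ≃ₐ[ℚ] L)
    (hω : ω ^ 2 + ω + 1 = 0) (hρ : ρ ^ 3 = (b : L))
    (hs : SolW b x p q p' q') (hgω : g ω = ω) (hhω : h ω = ω) (hgρ : g ρ = ρ)
    (hhρ : h ρ = ρ)
    (hA : A ^ 3 * aD ω p q p' q' ρ = aN ω p q p' q' ρ) : h (g A) = g (h A) := by
  obtain ⟨e, he⟩ := fixA g hω hρ hs hgω hgρ hA
  obtain ⟨e', he'⟩ := fixA h hω hρ hs hhω hhρ hA
  rw [he, he']
  simp only [map_mul, map_pow, hgω, hhω, he, he']
  ring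

end aut

/-- the relation between the automorphism and the vector -/
def R {s : ℕ} (b : Fin s → ℤ) (p q p' q' : Fin s → Fin s → ℤ) {L : Type} [Field L]
    [NumberField L] (ζ ω : L) (v : Fin s → Fin s → ZMod 3) (z : L ≃ₐ[ℚ] L) : Prop :=
  z ζ = ζ ∧
    (∀ (j : Fin s) (ρ : L), ρ ^ 3 = (b j : L) → z ρ = ρ) ∧
    ∀ j i, j < i → ∀ ρ A : L, ρ ^ 3 = (b j : L) →
      A ^ 3 * aD ω (p j i) (q j i) (p' j i) (q' j i) ρ =
        aN ω (p j i) (q j i) (p' j i) (q' j i) ρ →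
      z A = ω ^ (v j i).val * A

section rel

variable {s : ℕ} {b : Fin s → ℤ} {p q p' q' : Fin s → Fin s → ℤ} {L : Type} [Field L]
    [NumberField L] {ζ ω : L}

theorem pow_val_add {ω : L} (h : ω ^ 3 = 1) (a c : ZMod 3) :
    ω ^ (a + c).val = ω ^ a.val * ω ^ c.val := by
  rw [← pow_add, ZMod.val_add, ← pow_eq_pow_mod _ h]

theorem R_zero {v : Fin s → Fin s → ZMod 3} (hv : ∀ j i, j < i → v j i = 0) :
    R b p q p' q' ζ ω v (1 : L ≃ₐ[ℚ] L) := by
  refine ⟨rfl, fun _ _ _ => rfl, fun j i hji ρ A _ _ => ?_⟩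
  rw [hv j i hji, ZMod.val_zero, pow_zero, one_mul]
  rfl

theorem R_add (hω : ω ^ 2 + ω + 1 = 0) (hζ : ∀ z : L ≃ₐ[ℚ] L, z ζ = ζ → z ω = ω)
    {v v' : Fin s → Fin s → ZMod 3} {z z' : L ≃ₐ[ℚ] L}
    (h : R b p q p' q' ζ ω v z) (h' : R b p q p' q' ζ ω v' z') :
    R b p q p' q' ζ ω (v + v') (z * z') := by
  refine ⟨?_, fun j ρ hρ => ?_, fun j i hji ρ A hρ hA => ?_⟩
  · rw [AlgEquiv.mul_apply, h'.1, h.1]
  · rw [AlgEquiv.mul_apply, h'.2.1 j ρ hρ, h.2.1 j ρ hρ]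
  · rw [AlgEquiv.mul_apply, h'.2.2 j i hji ρ A hρ hA, map_mul, map_pow, hζ z h.1,
      h.2.2 j i hji ρ A hρ hA, Pi.add_apply, Pi.add_apply, pow_val_add (om3 hω)]
    ring

/-- the existence for elementary vectors gives the existence for all vectors -/
theorem all (hω : ω ^ 2 + ω + 1 = 0) (hζ : ∀ z : L ≃ₐ[ℚ] L, z ζ = ζ → z ω = ω)
    (hel : ∀ j₀ i₀ : Fin s, j₀ < i₀ → ∃ z : L ≃ₐ[ℚ] L,
      R b p q p' q' ζ ω (fun j i => if (j, i) = (j₀, i₀) then 1 else 0) z)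
    (v : Fin s → Fin s → ZMod 3) : ∃ z : L ≃ₐ[ℚ] L, R b p q p' q' ζ ω v z := by
  let S : AddSubmonoid (Fin s → Fin s → ZMod 3) :=
    { carrier := {v | ∃ z : L ≃ₐ[ℚ] L, R b p q p' q' ζ ω v z}
      zero_mem' := ⟨1, R_zero (fun _ _ _ => rfl)⟩
      add_mem' := by
        rintro v v' ⟨z, hz⟩ ⟨z', hz'⟩
        exact ⟨z * z', R_add hω hζ hz hz'⟩ }
  have h1 : ∀ x : Fin s × Fin s,
      (fun j i => if (j, i) = x then v x.1 x.2 else 0 : Fin s → Fin s → ZMod 3) ∈ S := by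
    rintro ⟨j₀, i₀⟩
    by_cases hji : j₀ < i₀
    · have h2 : (fun j i => if (j, i) = (j₀, i₀) then v j₀ i₀ else 0 : Fin s → Fin s → ZMod 3) =
          (v j₀ i₀).val • (fun j i => if (j, i) = (j₀, i₀) then 1 else 0 :
            Fin s → Fin s → ZMod 3) := by
        funext j i
        rw [Pi.smul_apply, Pi.smul_apply]
        split_ifs with h
        · rw [nsmul_one, ZMod.natCast_val, ZMod.cast_id', id]
        · rw [smul_zero]
      change (fun j i => if (j, i) = (j₀, i₀) then v j₀ i₀ else 0 : Fin s → Fin s → ZMod 3) ∈ S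
      rw [h2]
      exact S.nsmul_mem (hel j₀ i₀ hji) _
    · refine ⟨1, R_zero (fun j i hji' => ?_)⟩
      rw [if_neg]
      intro h
      rw [Prod.mk.injEq] at h
      rw [h.1, h.2] at hji'
      exact hji hji'
  have h3 : v = ∑ x : Fin s × Fin s,
      (fun j i => if (j, i) = x then v x.1 x.2 else 0 : Fin s → Fin s → ZMod 3) := by
    funext j i
    rw [Finset.sum_apply, Finset.sum_apply, Finset.sum_ite_eq, if_pos (Finset.mem_univ _)]
  have h4 : v ∈ S := by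
    rw [h3]
    exact S.sum_mem (fun x _ => h1 x)
  exact h4

/-- from `h g A = ω^c g h A` to the commutator -/
theorem comm_apply (g h : L ≃ₐ[ℚ] L) (c : ℕ) (hgω : g ω = ω) (hhω : h ω = ω) (A : L)
    (hA : h (g A) = ω ^ c * g (h A)) : ((g * h)⁻¹ * (h * g)) A = ω ^ c * A := by
  rw [AlgEquiv.mul_apply, AlgEquiv.mul_apply, hA]
  have h1 : ω ^ c * g (h A) = (g * h) (ω ^ c * A) := by
    rw [AlgEquiv.mul_apply, map_mul, map_mul, map_pow, map_pow, hhω, hgω]
  rw [h1, ← AlgEquiv.mul_apply, inv_mul_cancel]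
  rfl

end rel

end GC

theorem GC_thm (hKUM : KUM) (hGKI : GKI) : GC := by
  intro s b p q p' q' f L _ _ ζ ω hS hG
  have hω := hG.rel
  haveI := hG.gal
  have hf : 0 < f := by
    rcases Nat.eq_zero_or_pos f with h | h
    · exfalso
      have h1 := hG.hω
      rw [h, Nat.zero_div, pow_zero] at h1
      rw [h1] at hω
      norm_num at hω
    · exact h
  have hζf : ζ ^ f = 1 := hG.prim.pow_eq_one
  have hζ : ∀ z : L ≃ₐ[ℚ] L, z ζ = ζ → z ω = ω := by
    intro z hz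
    rw [hG.hω, map_pow, hz]
  have hb : ∀ i, b i ≠ 0 := by
    intro i hi
    refine hS.ind (fun l => if l = i then 1 else 0) ⟨i, by simp⟩ ⟨0, ?_⟩
    symm
    rw [zero_pow (by norm_num)]
    exact Finset.prod_eq_zero (Finset.mem_univ i) (by simp [hi])
  choose θ hθ using hG.root
  -- Kummer theory
  have hgi : ∀ v : Fin s → ZMod 3, ∃ g : L ≃ₐ[ℚ] L, g ζ = ζ ∧
      ∀ l, g (θ l) = ω ^ (v l).val * θ l := by
    intro v
    let F := IntermediateField.adjoin ℚ {ζ}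
    have hζF : ζ ∈ F := IntermediateField.mem_adjoin_simple_self ℚ ζ
    let ζF : F := ⟨ζ, hζF⟩
    obtain ⟨g, hg⟩ := hKUM F L (ζF ^ (f / 3)) (Fin s) (fun i => ((b i : ℤ) : F)) θ
      (by
        apply Subtype.ext
        push_cast
        rw [← hG.hω]
        exact hω)
      (fun i => by exact_mod_cast hb i)
      (fun i => by rw [hθ i, map_intCast])
      (by
        rintro n ⟨β, hβ⟩
        by_contra hcon
        push Not at hcon
        have h1 : ((β : L)) ^ 3 = ((∏ i, b i ^ n i : ℤ) : L) := by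
          have h2 := congrArg (algebraMap F L) hβ
          rw [map_pow, map_prod] at h2
          push_cast
          rw [show ((β : L)) ^ 3 = (algebraMap F L β) ^ 3 from rfl, ← h2]
          refine Finset.prod_congr rfl (fun i _ => ?_)
          rw [map_pow, map_intCast]
        obtain ⟨t, ht⟩ := hGKI L f ζ (β : L) (∏ i, b i ^ n i) hf hζf β.2 h1
        exact hS.ind n hcon ⟨t, ht⟩)
      v
    refine ⟨g.restrictScalars ℚ, ?_, fun l => ?_⟩
    · exact g.commutes ζF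
    · have h3 := hg l
      rw [AlgEquiv.restrictScalars_apply, h3, map_pow]
      rw [show algebraMap F L ζF = ζ from rfl, ← hG.hω]
  have hg1 : ∀ i, ∃ g : L ≃ₐ[ℚ] L, g ζ = ζ ∧ g (θ i) = ω * θ i ∧ ∀ l, l ≠ i → g (θ l) = θ l := by
    intro i
    obtain ⟨g, hg, hg'⟩ := hgi (fun l => if l = i then 1 else 0)
    refine ⟨g, hg, ?_, fun l hl => ?_⟩
    · rw [hg' i, if_pos rfl]
      rw [show (1 : ZMod 3).val = 1 from rfl, pow_one]
    · rw [hg' l, if_neg hl, ZMod.val_zero, pow_zero, one_mul]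
  choose g hgζ hgθ hgθ' using hg1
  have hgω : ∀ i, g i ω = ω := fun i => hζ _ (hgζ i)
  have hroot : ∀ (j : Fin s) (ρ : L), ρ ^ 3 = (b j : L) → ∃ k : ℕ, ρ = ω ^ k * θ j := by
    intro j ρ hρ
    exact GC.cube_eq hω (by rw [hρ, hθ j])
  have hgρ : ∀ (j : Fin s) (ρ : L), ρ ^ 3 = (b j : L) → g j ρ = ω * ρ := by
    intro j ρ hρ
    obtain ⟨k, hk⟩ := hroot j ρ hρ
    rw [hk, map_mul, map_pow, hgω, hgθ]
    ring
  have hgρ' : ∀ (i j : Fin s) (ρ : L), ρ ^ 3 = (b j : L) → j ≠ i → g i ρ = ρ := by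
    intro i j ρ hρ hji
    obtain ⟨k, hk⟩ := hroot j ρ hρ
    rw [hk, map_mul, map_pow, hgω, hgθ' i j hji]
  apply GC.all hω hζ
  intro j i hji
  refine ⟨(g j * g i)⁻¹ * (g i * g j), ?_, fun l ρ hρ => ?_, fun l k hlk ρ A hρ hA => ?_⟩
  · have h1 : g i (g j ζ) = ω ^ 0 * g j (g i ζ) := by
      rw [hgζ j, hgζ i, hgζ j, pow_zero, one_mul]
    rw [GC.comm_apply (g j) (g i) 0 (hgω j) (hgω i) ζ h1, pow_zero, one_mul]
  · have h1 : g i (g j ρ) = ω ^ 0 * g j (g i ρ) := by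
      rw [pow_zero, one_mul]
      by_cases h2 : l = i
      · subst h2
        rw [hgρ l ρ hρ, hgρ' j l ρ hρ (ne_of_gt hji), hgρ l ρ hρ, map_mul, hgω j,
          hgρ' j l ρ hρ (ne_of_gt hji)]
      · by_cases h3 : l = j
        · subst h3
          rw [hgρ l ρ hρ, hgρ' i l ρ hρ h2, hgρ l ρ hρ, map_mul, hgω i, hgρ' i l ρ hρ h2]
        · rw [hgρ' i l ρ hρ h2, hgρ' j l ρ hρ h3, hgρ' i l ρ hρ h2]
    rw [GC.comm_apply (g j) (g i) 0 (hgω j) (hgω i) ρ h1, pow_zero, one_mul]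
  · have hsol := (hS.sol l k hlk.ne).toSolW
    by_cases h2 : (l, k) = (j, i)
    · rw [Prod.mk.injEq] at h2
      obtain ⟨rfl, rfl⟩ := h2
      simp only [if_true]
      have h1 : g k (g l A) = ω ^ 1 * g l (g k A) :=
        GC.mv (g l) (g k) 1 hω hρ (hθ k) hsol (hgω l) (hgω k) (hgρ l ρ hρ)
          (hgρ' k l ρ hρ hlk.ne) (by rw [pow_one]; exact hgθ k) hA
      exact GC.comm_apply (g l) (g k) 1 (hgω l) (hgω k) A h1
    · simp only [if_neg h2]
      have h1 : g i (g j A) = ω ^ 0 * g j (g i A) := by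
        by_cases h3 : l = j
        · subst h3
          have h4 : k ≠ i := fun h => h2 (by rw [h])
          exact GC.mv (g l) (g i) 0 hω hρ (hθ k) hsol (hgω l) (hgω i) (hgρ l ρ hρ)
            (hgρ' i l ρ hρ hji.ne) (by rw [pow_zero, one_mul]; exact hgθ' i k h4) hA
        · by_cases h4 : l = i
          · subst h4
            have h5 : k ≠ j := (hji.trans hlk).ne'
            have h6 := GC.mv (g l) (g j) 0 hω hρ (hθ k) hsol (hgω l) (hgω j) (hgρ l ρ hρ)
              (hgρ' j l ρ hρ hji.ne') (by rw [pow_zero, one_mul]; exact hgθ' j k h5) hA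
            rw [pow_zero, one_mul] at h6 ⊢
            exact h6.symm
          · rw [pow_zero, one_mul]
            exact GC.fx (g j) (g i) hω hρ hsol (hgω j) (hgω i) (hgρ' j l ρ hρ h3)
              (hgρ' i l ρ hρ h4) hA
      have h5 := GC.comm_apply (g j) (g i) 0 (hgω j) (hgω i) A h1
      rw [ZMod.val_zero]
      exact h5

end Pool.Agent.PT


end

section

/-!
# Frobenius elements and the classes `t`
-/

open NumberField IsDedekindDomain Finset
open scoped nonZeroDivisors Pointwise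

namespace Pool.Agent.PT

open Pool.Agent.Lib_helper18 Pool.Agent.Lib_helper18.Eis Pool.Agent.Lib_helper84.Cub

namespace GFR

/-- If the decomposition group is cyclic, every Frobenius coset contains a generator. -/
theorem exists_frob_gen {R S G : Type*} [CommRing R] [CommRing S] [Algebra R S] [Group G]
    [Finite G] [MulSemiringAction G S] [SMulCommClass G R S] [Algebra.IsInvariant R S G]
    (P : Ideal S) [P.IsPrime] [Finite (S ⧸ P)] (g : G)
    (hg : MulAction.stabilizer G P = Subgroup.zpowers g) :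
    ∃ k : ℕ, k.Coprime (orderOf g) ∧ IsArithFrobAt R (g ^ k) P := by
  classical
  have hint := Algebra.IsInvariant.isIntegral R S G
  have hmax : P.IsMaximal := Ideal.Quotient.maximal_of_isField _ (Finite.isField_of_domain (S ⧸ P))
  have hpmax : (P.under R).IsMaximal := inferInstance
  let _ : Field (S ⧸ P) := Ideal.Quotient.field P
  let _ : Field (R ⧸ P.under R) := Ideal.Quotient.field (P.under R)
  have hfin : Finite (R ⧸ P.under R) := .of_injective _ Ideal.algebraMap_quotient_injective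
  cases nonempty_fintype (R ⧸ P.under R)
  let F : (S ⧸ P) ≃ₐ[R ⧸ P.under R] (S ⧸ P) :=
    FiniteField.frobeniusAlgEquivOfAlgebraic (R ⧸ P.under R) (S ⧸ P)
  let h := Ideal.Quotient.stabilizerHom P (P.under R) G
  let g' : MulAction.stabilizer G P := ⟨g, hg ▸ Subgroup.mem_zpowers g⟩
  have hgen : ∀ y : MulAction.stabilizer G P, ∃ i : ℕ, g' ^ i = y := by
    intro y
    have h1 : (y : G) ∈ Subgroup.zpowers g := hg ▸ y.2
    obtain ⟨i, hi⟩ := mem_powers_iff_mem_zpowers.2 h1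
    exact ⟨i, Subtype.ext hi⟩
  obtain ⟨y, hy⟩ := Ideal.Quotient.stabilizerHom_surjective G (P.under R) P F
  obtain ⟨j, rfl⟩ := hgen y
  obtain ⟨⟨i, hi⟩, hF⟩ :=
    (FiniteField.bijective_frobeniusAlgEquivOfAlgebraic_pow (R ⧸ P.under R) (S ⧸ P)).2 (h g')
  have hF' : F ^ i = h g' := hF
  have hy' : h g' ^ j = F := by
    rw [← map_pow]
    exact hy
  have h1 : h g' ^ (j * i) = h g' ^ 1 := by
    rw [pow_mul, hy', hF', pow_one]
  rw [pow_eq_pow_iff_modEq] at h1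
  -- the order of the image of `g`
  have hpos : 0 < orderOf g := orderOf_pos g
  have hdvd : orderOf (h g') ∣ orderOf g := by
    have h2 : orderOf g = orderOf g' := (Subgroup.orderOf_coe g').symm ▸ rfl
    rw [h2]
    exact orderOf_map_dvd h g'
  have hcop : j.Coprime (orderOf (h g')) := by
    have h2 : (j * i).Coprime (orderOf (h g')) := by
      rw [Nat.Coprime, h1.gcd_eq]
      exact Nat.gcd_one_left _
    exact Nat.Coprime.coprime_mul_right h2
  have hne : NeZero (orderOf g) := ⟨hpos.ne'⟩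
  have hne' : NeZero (orderOf (h g')) := ⟨(Nat.pos_of_dvd_of_pos hdvd hpos).ne'⟩
  obtain ⟨v, hv⟩ := ZMod.unitsMap_surjective hdvd (ZMod.unitOfCoprime j hcop)
  refine ⟨(v : ZMod (orderOf g)).val, ZMod.val_coe_unit_coprime v, ?_⟩
  have h3 : (v : ZMod (orderOf g)).val ≡ j [MOD orderOf (h g')] := by
    rw [← ZMod.natCast_eq_natCast_iff]
    have h4 := congrArg (Units.val) hv
    rw [ZMod.unitsMap_val, ZMod.coe_unitOfCoprime] at h4
    rw [← h4, ZMod.natCast_val]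
  have h5 : h (g' ^ (v : ZMod (orderOf g)).val) = F := by
    rw [map_pow, ← hy', pow_eq_pow_iff_modEq]
    exact h3
  intro x
  rw [← Ideal.Quotient.eq]
  have h6 := DFunLike.congr_fun h5 (Ideal.Quotient.mk P x)
  have h7 : F (Ideal.Quotient.mk P x) = Ideal.Quotient.mk P x ^ Fintype.card (R ⧸ P.under R) := rfl
  rw [h7, ← map_pow, ← Nat.card_eq_fintype_card] at h6
  exact h6

/-- The homomorphism from the Eisenstein integers which maps `w` to `z`. -/
def lift {S : Type*} [CommRing S] (z : S) (hz : z ^ 2 + z + 1 = 0) : Eis →+* S where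
  toFun x := (x.re : S) + (x.im : S) * z
  map_one' := by simp
  map_mul' x y := by
    simp only [mul_re, mul_im]
    push_cast
    linear_combination (-(x.im : S) * (y.im : S)) * hz
  map_zero' := by simp
  map_add' x y := by
    simp only [add_re, add_im]
    push_cast
    ring

theorem lift_w {S : Type*} [CommRing S] (z : S) (hz : z ^ 2 + z + 1 = 0) : lift z hz w = z := by
  change ((w.re : ℤ) : S) + ((w.im : ℤ) : S) * z = z
  simp

theorem lift_int {S : Type*} [CommRing S] (z : S) (hz : z ^ 2 + z + 1 = 0) (n : ℤ) :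
    lift z hz (n : Eis) = n := map_intCast _ n

theorem lf_prod (p q r : ℤ) : Lf p q 0 r * Lf p q 1 r * Lf p q 2 r =
    ((p ^ 3 + q ^ 3 * r ^ 3 : ℤ) : Eis) := by
  have h1 := w_rel
  have h2 := w_cube
  simp only [Lf]
  push_cast
  linear_combination ((p : Eis) ^ 2 * q * r + (p : Eis) * q ^ 2 * r ^ 2) * h1 +
    ((p : Eis) * q ^ 2 * r ^ 2 + (q : Eis) ^ 3 * r ^ 3) * h2

/-- the linear forms are prime to `Q` -/
theorem lf_not_dvd {Q : ℕ} {b p q r : ℤ} (hb : ¬ (Q : ℤ) ∣ p ^ 3 + b * q ^ 3)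
    (hr : (Q : ℤ) ∣ r ^ 3 - b) : ¬ (Q : Eis) ∣ Lf p q 1 r ∧ ¬ (Q : Eis) ∣ Lf p q 2 r := by
  have key : ¬ (Q : Eis) ∣ Lf p q 0 r * Lf p q 1 r * Lf p q 2 r := by
    rw [lf_prod]
    intro h
    have h1 : ((Q : ℤ) : Eis) ∣ ((p ^ 3 + q ^ 3 * r ^ 3 : ℤ) : Eis) := by
      rw [Int.cast_natCast]
      exact h
    rw [intCast_dvd_intCast] at h1
    refine hb ?_
    have h2 : p ^ 3 + b * q ^ 3 = p ^ 3 + q ^ 3 * r ^ 3 - (r ^ 3 - b) * q ^ 3 := by ring
    rw [h2]
    exact dvd_sub h1 (Dvd.dvd.mul_right hr _)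
  exact ⟨fun h => key (Dvd.dvd.mul_right (Dvd.dvd.mul_left h _) _), fun h => key (Dvd.dvd.mul_left h _)⟩

section Local

variable {L : Type} [Field L] [NumberField L] {Q : ℕ} (hQ : Q.Prime) {P : Ideal (𝓞 L)}
  (hP : P.IsPrime) (hQP : (Q : 𝓞 L) ∈ P)

include hQ hP hQP

omit [NumberField L] in
theorem under_eq : P.under ℤ = Ideal.span {(Q : ℤ)} := by
  symm
  have hmax : (Ideal.span {(Q : ℤ)}).IsMaximal :=
    PrincipalIdealRing.isMaximal_of_irreducible ((Nat.prime_iff_prime_int.mp hQ).irreducible)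
  apply hmax.eq_of_le
  · exact (Ideal.IsPrime.under ℤ P).ne_top
  · rw [Ideal.span_singleton_le_iff_mem]
    change algebraMap ℤ (𝓞 L) (Q : ℤ) ∈ P
    simpa using hQP

omit [NumberField L] in
theorem card_under : Nat.card (ℤ ⧸ P.under ℤ) = Q := by
  rw [under_eq hQ hP hQP, Nat.card_congr (Int.quotientSpanNatEquivZMod Q).toEquiv, Nat.card_zmod]

omit [NumberField L] in
theorem int_mem (n : ℤ) : (n : 𝓞 L) ∈ P ↔ (Q : ℤ) ∣ n := by
  have h1 := under_eq hQ hP hQP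
  have h2 : (n : 𝓞 L) ∈ P ↔ n ∈ P.under ℤ := by
    change _ ↔ algebraMap ℤ (𝓞 L) n ∈ P
    simp
  rw [h2, h1, Ideal.mem_span_singleton]

omit [NumberField L] in
theorem int_mk (n : ℤ) : ((n : ℤ) : 𝓞 L ⧸ P) = 0 ↔ (Q : ℤ) ∣ n := by
  rw [← int_mem hQ hP hQP, ← Ideal.Quotient.eq_zero_iff_mem, map_intCast]

theorem frob_mk {φ : L ≃ₐ[ℚ] L} (hφ : IsArithFrobAt ℤ φ P) (x : 𝓞 L) :
    Ideal.Quotient.mk P (φ • x) = Ideal.Quotient.mk P x ^ Q := by
  rw [← map_pow, Ideal.Quotient.eq]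
  have h1 := hφ x
  rw [card_under hQ hP hQP] at h1
  exact h1

theorem quo_finite : Finite (𝓞 L ⧸ P) := by
  refine Ideal.finiteQuotientOfFreeOfNeBot P ?_
  rintro rfl
  rw [Ideal.mem_bot] at hQP
  exact hQ.ne_zero (by exact_mod_cast hQP)

end Local

theorem isIntegral_root {L : Type} [Field L] {ρ : L} {b : ℤ} (h : ρ ^ 3 = (b : L)) :
    IsIntegral ℤ ρ := by
  refine IsIntegral.of_pow (n := 3) (by norm_num) ?_
  rw [h]
  exact isIntegral_algebraMap (R := ℤ) (A := L) (x := b)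

theorem omega_cube {S : Type*} [CommRing S] {ω : S} (h : ω ^ 2 + ω + 1 = 0) : ω ^ 3 = 1 := by
  linear_combination (ω - 1) * h

theorem isIntegral_omega {L : Type} [Field L] {ω : L} (h : ω ^ 2 + ω + 1 = 0) :
    IsIntegral ℤ ω := by
  refine IsIntegral.of_pow (n := 3) (by norm_num) ?_
  rw [omega_cube h]
  exact isIntegral_one

theorem pow_mod3 {S : Type*} [CommRing S] {y : S} (h : y ^ 3 = 1) (k : ℕ) : y ^ k = y ^ (k % 3) :=
  pow_eq_pow_mod k h

/-- The value at `ω` of the Frobenius element. -/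
theorem frob_omega {L : Type} [Field L] [NumberField L] {Q : ℕ} (hQ : Q.Prime)
    {P : Ideal (𝓞 L)} (hP : P.IsPrime) (hQP : (Q : 𝓞 L) ∈ P) (hQ3 : Q % 3 = 2)
    {φ : L ≃ₐ[ℚ] L} (hφ : IsArithFrobAt ℤ φ P) {ω : L} (hω : ω ^ 2 + ω + 1 = 0) :
    φ ω = ω ^ 2 := by
  let z : 𝓞 L := ⟨ω, isIntegral_omega hω⟩
  have hz : z ^ 3 = 1 := by
    apply RingOfIntegers.coe_injective
    change ω ^ 3 = 1
    exact omega_cube hω
  have h3 : ((3 : ℕ) : 𝓞 L) ∉ P := by
    have h4 := int_mem hQ hP hQP 3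
    intro h5
    have h6 : ((3 : ℤ) : 𝓞 L) ∈ P := by simpa using h5
    rw [h4] at h6
    have h7 : Q ∣ 3 := by exact_mod_cast h6
    have h8 := (Nat.prime_dvd_prime_iff_eq hQ Nat.prime_three).1 h7
    omega
  have h1 := hφ.apply_of_pow_eq_one hz h3
  rw [card_under hQ hP hQP, pow_mod3 hz Q, hQ3] at h1
  have h2 := congrArg (fun x : 𝓞 L => (x : L)) h1
  exact h2

theorem core {L : Type} [Field L] [NumberField L] {Q : ℕ} (hQ : Q.Prime)
    {P : Ideal (𝓞 L)} (hP : P.IsPrime) (hQP : (Q : 𝓞 L) ∈ P) (hQ3 : Q % 3 = 2)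
    {φ : L ≃ₐ[ℚ] L} (hφ : IsArithFrobAt ℤ φ P) {ω : L} (hω : ω ^ 2 + ω + 1 = 0)
    {b p q p' q' r : ℤ} (hb : ¬ (Q : ℤ) ∣ b) (h1 : ¬ (Q : ℤ) ∣ p ^ 3 + b * q ^ 3)
    (h2 : ¬ (Q : ℤ) ∣ p' ^ 3 + b * q' ^ 3) (hr : (Q : ℤ) ∣ r ^ 3 - b) {ρ A : L}
    (hρ : ρ ^ 3 = (b : L)) (hφρ : φ ρ = ρ) (hA : A ^ 3 * aD ω p q p' q' ρ = aN ω p q p' q' ρ)
    {t : ZMod 3} (ht : φ A * A = ω ^ t.val) : t = TAUV Q p q p' q' r := by
  have hfin := quo_finite hQ hP hQP
  have hmax : P.IsMaximal :=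
    Ideal.Quotient.maximal_of_isField _ (Finite.isField_of_domain (𝓞 L ⧸ P))
  let _ : Field (𝓞 L ⧸ P) := Ideal.Quotient.field P
  have hφω := frob_omega hQ hP hQP hQ3 hφ hω
  have hω3 := omega_cube hω
  have hω0 : ω ≠ 0 := by
    rintro rfl
    norm_num at hω3
  -- the elements of the ring of integers
  let ωB : 𝓞 L := ⟨ω, isIntegral_omega hω⟩
  let ρB : 𝓞 L := ⟨ρ, isIntegral_root hρ⟩
  let dD : 𝓞 L := (p + q * ωB * ρB) * (p' + q' * ωB ^ 2 * ρB)
  let dN : 𝓞 L := (p + q * ωB ^ 2 * ρB) * (p' + q' * ωB * ρB)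
  have hdD : algebraMap (𝓞 L) L dD = aD ω p q p' q' ρ := by
    simp only [dD, aD, map_mul, map_add, map_pow, map_intCast]
    rfl
  have hdN : algebraMap (𝓞 L) L dN = aN ω p q p' q' ρ := by
    simp only [dN, aN, map_mul, map_add, map_pow, map_intCast]
    rfl
  have hA' : (A * aD ω p q p' q' ρ) ^ 3 = algebraMap (𝓞 L) L (dN * dD ^ 2) := by
    rw [map_mul, map_pow, hdD, hdN, ← hA]
    ring
  have hAint : IsIntegral ℤ (A * aD ω p q p' q' ρ) := by
    refine IsIntegral.of_pow (n := 3) (by norm_num) ?_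
    rw [hA']
    exact RingOfIntegers.isIntegral_coe _
  let AB : 𝓞 L := ⟨A * aD ω p q p' q' ρ, hAint⟩
  have hAB : AB ^ 3 = dN * dD ^ 2 := by
    apply RingOfIntegers.coe_injective
    rw [← hA']
    rfl
  -- the action of the square of the Frobenius
  have hφD : φ (aD ω p q p' q' ρ) = aN ω p q p' q' ρ := by
    simp only [aD, aN, map_mul, map_add, map_pow, map_intCast, hφω, hφρ]
    have h3 : (ω ^ 2) ^ 2 = ω := by linear_combination ω * hω3
    rw [h3]
  have hφN : φ (aN ω p q p' q' ρ) = aD ω p q p' q' ρ := by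
    simp only [aD, aN, map_mul, map_add, map_pow, map_intCast, hφω, hφρ]
    have h3 : (ω ^ 2) ^ 2 = ω := by linear_combination ω * hω3
    rw [h3]
  have hφφA : φ (φ A) = ω ^ t.val * A := by
    have h3 : φ (φ A) * φ A = (ω ^ 2) ^ t.val := by
      rw [← map_mul, ht, map_pow, hφω]
    have h4 : φ (φ A) * ω ^ t.val = (ω ^ 2) ^ t.val * A := by
      rw [← h3, ← ht]
      ring
    have h5 : (ω ^ 2) ^ t.val = ω ^ t.val * ω ^ t.val := by
      rw [← pow_mul, ← pow_add]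
      congr 1
      ring
    rw [h5] at h4
    refine mul_right_cancel₀ (pow_ne_zero t.val hω0) ?_
    rw [h4]
    ring
  have hφφ : φ • (φ • AB) = ωB ^ t.val * AB := by
    apply RingOfIntegers.coe_injective
    change φ (φ (A * aD ω p q p' q' ρ)) = ω ^ t.val * (A * aD ω p q p' q' ρ)
    rw [map_mul, map_mul, hφD, hφN, hφφA]
    ring
  -- reduction modulo `P`
  set z : 𝓞 L ⧸ P := Ideal.Quotient.mk P ωB with hz
  have hzrel : z ^ 2 + z + 1 = 0 := by
    have h3 : ωB ^ 2 + ωB + 1 = 0 := by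
      apply RingOfIntegers.coe_injective
      change ω ^ 2 + ω + 1 = 0
      exact hω
    rw [hz, ← map_pow, ← map_add, ← map_one (Ideal.Quotient.mk P), ← map_add, h3, map_zero]
  have hz3 := omega_cube hzrel
  have h3Q : ¬ (Q : ℤ) ∣ 3 := by
    intro h3
    have h4 : Q ∣ 3 := by exact_mod_cast h3
    have h5 := (Nat.prime_dvd_prime_iff_eq hQ Nat.prime_three).1 h4
    omega
  have hz1 : z ≠ 1 := by
    intro h3
    rw [h3] at hzrel
    refine h3Q ((int_mk hQ hP hQP 3).1 ?_)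
    push_cast
    linear_combination hzrel
  have hrQ : ((r : ℤ) : 𝓞 L ⧸ P) ≠ 0 := by
    rw [Ne, int_mk hQ hP hQP]
    intro h3
    refine hb ?_
    have h4 : b = r * r ^ 2 - (r ^ 3 - b) := by ring
    rw [h4]
    exact dvd_sub (Dvd.dvd.mul_right h3 _) hr
  have hrρ : Ideal.Quotient.mk P ρB = ((r : ℤ) : 𝓞 L ⧸ P) := by
    set c := Ideal.Quotient.mk P ρB with hc
    have hc3 : c ^ 3 = ((r : ℤ) : 𝓞 L ⧸ P) ^ 3 := by
      have h3 : ρB ^ 3 = ((b : ℤ) : 𝓞 L) := by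
        apply RingOfIntegers.coe_injective
        rw [map_intCast]
        exact hρ
      have h4 := (int_mk hQ hP hQP (r ^ 3 - b)).2 hr
      push_cast at h4
      rw [hc, ← map_pow, h3, map_intCast]
      linear_combination -h4
    have hcQ : c ^ Q = c := by
      rw [hc, ← frob_mk hQ hP hQP hφ]
      congr 1
      apply RingOfIntegers.coe_injective
      exact hφρ
    have hsQ : ((r : ℤ) : 𝓞 L ⧸ P) ^ Q = ((r : ℤ) : 𝓞 L ⧸ P) := by
      have h3 : (Q : ℤ) ∣ r ^ Q - r := by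
        have := Fact.mk hQ
        rw [← ZMod.intCast_zmod_eq_zero_iff_dvd]
        push_cast
        rw [ZMod.pow_card, sub_self]
      have h4 := (int_mk hQ hP hQP _).2 h3
      push_cast at h4
      exact sub_eq_zero.1 h4
    have hy3 : (c / ((r : ℤ) : 𝓞 L ⧸ P)) ^ 3 = 1 := by
      rw [div_pow, hc3, div_self (pow_ne_zero _ hrQ)]
    have hyQ : (c / ((r : ℤ) : 𝓞 L ⧸ P)) ^ Q = c / ((r : ℤ) : 𝓞 L ⧸ P) := by
      rw [div_pow, hcQ, hsQ]
    rw [pow_mod3 hy3 Q, hQ3] at hyQ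
    have hy0 : c / ((r : ℤ) : 𝓞 L ⧸ P) ≠ 0 := by
      intro h3
      rw [h3] at hy3
      norm_num at hy3
    have hy1 : c / ((r : ℤ) : 𝓞 L ⧸ P) = 1 := by
      refine mul_left_cancel₀ hy0 ?_
      rw [mul_one, ← pow_two]
      exact hyQ
    exact (div_eq_one_iff_eq hrQ).1 hy1
  -- the residue symbol
  have hq := prime_inert hQ hQ3
  have hq3 := n3 hQ hQ3
  obtain ⟨e1, e2⟩ := lf_not_dvd h1 hr
  obtain ⟨e1', e2'⟩ := lf_not_dvd h2 hr
  let ψ : Eis →+* 𝓞 L ⧸ P := lift z hzrel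
  have hψQ : ψ (Q : Eis) = 0 := by
    rw [map_natCast, ← map_natCast (Ideal.Quotient.mk P)]
    exact Ideal.Quotient.eq_zero_iff_mem.2 hQP
  have hψw : ψ w = z := lift_w z hzrel
  have hψi : ∀ n : ℤ, ψ (n : Eis) = n := lift_int z hzrel
  have hψL : ∀ (p q : ℤ) (i : ℕ), ψ (Lf p q i r) = p + q * z ^ i * r := by
    intro p q i
    simp only [Lf, map_add, map_mul, map_pow, hψi, hψw]
  set E : Eis := Lf p q 2 r * Lf p' q' 1 r * (Lf p q 1 r * Lf p' q' 2 r) ^ 2 with hE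
  have hEd : ¬ (Q : Eis) ∣ E := by
    intro h3
    rcases hq.dvd_or_dvd h3 with h4 | h4
    · rcases hq.dvd_or_dvd h4 with h5 | h5
      · exact e2 h5
      · exact e1' h5
    · rcases hq.dvd_or_dvd (hq.dvd_of_dvd_pow h4) with h5 | h5
      · exact e1 h5
      · exact e2' h5
  have hmkA : Ideal.Quotient.mk P AB ^ 3 = ψ E := by
    rw [← map_pow, hAB, hE]
    simp only [dD, dN, map_mul, map_add, map_pow, map_intCast, hrρ, ← hz, pow_one, hψL]
  have hsym := map_pow_eq hq hq3 hEd ψ hψQ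
  rw [← hmkA, hψw] at hsym
  set a := Ideal.Quotient.mk P AB with ha
  have hN : N (Q : Eis) = Q * Q := by
    have h3 := N_cast (Q : Eis)
    rw [Eis.norm_natCast] at h3
    have h4 : ((N (Q : Eis) : ℕ) : ℤ) = ((Q * Q : ℕ) : ℤ) := by
      rw [h3]
      push_cast
      ring
    exact_mod_cast h4
  have hM : 3 * ((N (Q : Eis) - 1) / 3) + 1 = Q * Q := by
    rw [three_mul_div hq hq3, hN]
  have ha0 : a ≠ 0 := by
    intro h3
    rw [h3] at hmkA
    rw [h3] at hsym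
    have h5 : 0 < (N (Q : Eis) - 1) / 3 := by
      have h6 := hQ.two_le
      by_contra h7
      have h8 : (N (Q : Eis) - 1) / 3 = 0 := by omega
      rw [h8] at hM
      nlinarith
    have h6 : z ≠ 0 := by
      intro h7
      rw [h7] at hz3
      norm_num at hz3
    rw [zero_pow (by norm_num), zero_pow h5.ne'] at hsym
    exact pow_ne_zero _ h6 hsym.symm
  have hfinal : z ^ t.val = z ^ (sym (Q : Eis) E).val := by
    have h3 := congrArg (Ideal.Quotient.mk P) hφφ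
    rw [frob_mk hQ hP hQP hφ, frob_mk hQ hP hQP hφ, map_mul, map_pow, ← hz, ← ha, ← pow_mul,
      ← hM, pow_succ, pow_mul, hsym] at h3
    exact (mul_right_cancel₀ ha0 h3).symm
  have horder : orderOf z = 3 := by
    have := Fact.mk Nat.prime_three
    exact orderOf_eq_prime hz3 hz1
  have ht' : t = sym (Q : Eis) E := by
    have h3 := IsPrimitiveRoot.orderOf z
    rw [horder] at h3
    exact ZMod.val_injective 3 (h3.pow_inj (ZMod.val_lt t) (ZMod.val_lt _) hfinal)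
  rw [ht', hE]
  have g1 : ¬ (Q : Eis) ∣ Lf p q 2 r * Lf p' q' 1 r := fun h3 =>
    (hq.dvd_or_dvd h3).elim e2 e1'
  have g2 : ¬ (Q : Eis) ∣ Lf p q 1 r * Lf p' q' 2 r := fun h3 =>
    (hq.dvd_or_dvd h3).elim e1 e2'
  have g3 : ¬ (Q : Eis) ∣ (Lf p q 1 r * Lf p' q' 2 r) ^ 2 := fun h3 => g2 (hq.dvd_of_dvd_pow h3)
  rw [sym_mul hq hq3 g1 g3, sym_mul hq hq3 e2 e1', sym_pow hq hq3 g2, sym_mul hq hq3 e1 e2']
  unfold TAUV
  have h2z : ((2 : ℕ) : ZMod 3) = -1 := by decide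
  rw [h2z]
  ring

/-- a fixed cube root -/
theorem exists_fixed {L : Type} [Field L] [NumberField L] {φ : L ≃ₐ[ℚ] L} {ω θ : L} {b : ℤ}
    (hω : ω ^ 2 + ω + 1 = 0) (hφω : φ ω = ω ^ 2) (hθ : θ ^ 3 = (b : L)) :
    ∃ ρ : L, ρ ^ 3 = (b : L) ∧ φ ρ = ρ := by
  have hω3 := omega_cube hω
  have h1 : (φ θ) ^ 3 = θ ^ 3 := by
    rw [← map_pow, hθ, map_intCast]
  have h2 : (φ θ - θ) * ((φ θ - ω * θ) * (φ θ - ω ^ 2 * θ)) = 0 := by
    linear_combination h1 + (-(φ θ) ^ 2 * θ + φ θ * θ ^ 2) * hω + (φ θ * θ ^ 2 - θ ^ 3) * hω3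
  rcases mul_eq_zero.1 h2 with h3 | h3
  · exact ⟨θ, hθ, sub_eq_zero.1 h3⟩
  rcases mul_eq_zero.1 h3 with h4 | h4
  · refine ⟨ω ^ 2 * θ, ?_, ?_⟩
    · rw [mul_pow, ← pow_mul, mul_comm 2 3, pow_mul, hω3, one_pow, one_mul, hθ]
    · rw [map_mul, map_pow, hφω, sub_eq_zero.1 h4]
      linear_combination ω ^ 2 * θ * hω3
  · refine ⟨ω * θ, ?_, ?_⟩
    · rw [mul_pow, hω3, one_mul, hθ]
    · rw [map_mul, hφω, sub_eq_zero.1 h4]
      linear_combination ω * θ * hω3

theorem not_dvd_of_lt {Q : ℕ} {n : ℤ} (hn : n ≠ 0) (h : n.natAbs < Q) : ¬ (Q : ℤ) ∣ n := by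
  intro h1
  have h2 := Int.natAbs_dvd_natAbs.2 h1
  rw [Int.natAbs_natCast] at h2
  exact absurd (Nat.le_of_dvd (Int.natAbs_pos.2 hn) h2) (by omega)

end GFR

open _root_.Pool.Agent.PT.GFR

theorem GFR_thm : GFR := by
  classical
  intro s b p q p' q' f L _ _ ζ ω hS hG
  have hgal := hG.gal
  let B : Fin s → Fin s → ℕ := fun j i => (b j).natAbs + (p j i ^ 3 + b j * q j i ^ 3).natAbs +
    (p' j i ^ 3 + b j * q' j i ^ 3).natAbs
  refine ⟨∑ j, ∑ i, B j i, fun Q hQ hQN P hP hQP => ⟨fun g hg => ?_, fun φ hφ hQ3 => ?_⟩⟩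
  · have hfin := quo_finite hQ hP hQP
    exact exists_frob_gen (R := ℤ) P g hg
  · have hφω := frob_omega hQ hP hQP hQ3 hφ hG.rel
    refine ⟨hφω, fun j i hji r t hr ht => ?_⟩
    have hB : B j i < Q := by
      refine lt_of_le_of_lt ?_ hQN
      have h1 : B j i ≤ ∑ i, B j i :=
        Finset.single_le_sum (f := fun i => B j i) (fun _ _ => Nat.zero_le _) (Finset.mem_univ i)
      refine h1.trans ?_
      exact Finset.single_le_sum (f := fun j => ∑ i, B j i) (fun _ _ => Nat.zero_le _)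
        (Finset.mem_univ j)
    have hsol := hS.sol j i hji
    have hbj : b j ≠ 0 := by
      intro h0
      refine hS.ind (Pi.single j 1) ⟨j, by simp⟩ ⟨0, ?_⟩
      have h1 : ∏ i, b i ^ (Pi.single j 1 : Fin s → ℕ) i = 0 := by
        refine Finset.prod_eq_zero (Finset.mem_univ j) ?_
        rw [Pi.single_eq_same, pow_one, h0]
      rw [h1]
      norm_num
    have h2 : p' j i ^ 3 + b j * q' j i ^ 3 ≠ 0 := by
      intro h0
      refine hsol.n1 ?_
      rw [hsol.eq, h0, mul_zero]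
    simp only [B] at hB
    obtain ⟨θ, hθ⟩ := hG.root j
    obtain ⟨ρ, hρ, hφρ⟩ := exists_fixed hG.rel hφω hθ
    obtain ⟨A, hA⟩ := hG.A j i hji ρ hρ
    exact core hQ hP hQP hQ3 hφ hG.rel (not_dvd_of_lt hbj (by omega))
      (not_dvd_of_lt hsol.n1 (by omega)) (not_dvd_of_lt h2 (by omega)) hr hρ hφρ hA
      (ht ρ A hρ hφρ hA)

end Pool.Agent.PT


end

section

/-!
# Hilbert 90 for the field `Q(w, x^(1/3))` (module NHN)
-/

open NumberField IsDedekindDomain Finset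
open scoped nonZeroDivisors Pointwise

namespace Pool.Agent.PT

open Pool.Agent.Lib_helper18 Pool.Agent.Lib_helper18.Eis Pool.Agent.Lib_helper84.Cub

namespace NHN

set_option linter.unusedSectionVars false

variable {x : ℤ} {L : Type} [Field L] [NumberField L] {ι : Eis →+* L} {θ : L}
  {σ c : L ≃ₐ[ℚ] L}

theorem w3 (ι : Eis →+* L) : ι w ^ 3 = 1 := by
  rw [← map_pow, w_cube, map_one]

theorem wrel (ι : Eis →+* L) : ι w ^ 2 + ι w + 1 = 0 := by
  rw [← map_pow, ← map_add, ← map_one ι, ← map_add, w_rel, map_zero]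

theorem s1 (h : CubF x L ι θ σ c) (a b d : Eis) :
    σ (ι a + ι b * θ + ι d * θ ^ 2) = ι a + ι b * (ι w * θ) + ι d * (ι w * θ) ^ 2 := by
  rw [map_add, map_add, map_mul, map_mul, map_pow, h.sι, h.sι, h.sι, h.sθ]

theorem s3θ (h : CubF x L ι θ σ c) : σ (σ (σ θ)) = θ := by
  rw [h.sθ, map_mul, h.sι, h.sθ, map_mul, map_mul, h.sι, h.sθ]
  linear_combination θ * w3 ι

theorem s3 (h : CubF x L ι θ σ c) (z : L) : σ (σ (σ z)) = z := by
  obtain ⟨m, a, b, d, hm, hz⟩ := h.rep z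
  have hm' : (m : L) ≠ 0 := Int.cast_ne_zero.2 hm
  have h1 : σ (σ (σ ((m : L) * z))) = (m : L) * z := by
    rw [hz]
    simp only [map_add, map_mul, map_pow, h.sι, s3θ h]
  rw [map_mul, map_mul, map_mul, map_intCast, map_intCast, map_intCast] at h1
  exact mul_left_cancel₀ hm' h1

theorem fixed (h : CubF x L ι θ σ c) {z : L} (hz : σ z = z) :
    ∃ a b : Eis, b ≠ 0 ∧ z * ι b = ι a := by
  obtain ⟨m, a, b, d, hm, hmz⟩ := h.rep z
  have h1 : σ ((m : L) * z) = (m : L) * z := by rw [map_mul, map_intCast, hz]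
  rw [hmz, s1 h] at h1
  have h2 : ι 0 + ι (b * (w - 1)) * θ + ι (d * (w ^ 2 - 1)) * θ ^ 2 = 0 := by
    rw [map_zero, map_mul, map_mul, map_sub, map_sub, map_pow, map_one]
    linear_combination h1
  obtain ⟨-, h3, h4⟩ := h.lin _ _ _ h2
  have hw1 : (w - 1 : Eis) ≠ 0 := by
    intro hc
    have := congrArg Eis.im hc
    simp at this
  have hw2 : (w ^ 2 - 1 : Eis) ≠ 0 := by
    rw [w_sq]
    intro hc
    have := congrArg Eis.im hc
    simp at this
  have hb : b = 0 := (mul_eq_zero.1 h3).resolve_right hw1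
  have hd : d = 0 := (mul_eq_zero.1 h4).resolve_right hw2
  have hm' : (m : Eis) ≠ 0 := by
    intro hc
    have h5 := congrArg Eis.re hc
    rw [intCast_re, zero_re] at h5
    exact hm h5
  refine ⟨a, (m : Eis), hm', ?_⟩
  rw [hb, hd] at hmz
  rw [map_intCast, mul_comm, hmz, map_zero]
  ring

end NHN

theorem NHN_thm : NHN := by
  intro x L _ _ ι θ σ c hx h
  refine ⟨NHN.s3 h, fun z hz => NHN.fixed h hz, fun u hu => ?_⟩
  have hu' : (u : L) * σ u * σ (σ u) = 1 := by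
    have h1 := congrArg (Units.val) hu
    simp only [Finset.prod_range_succ, Finset.prod_range_zero, one_mul, pow_zero, pow_one,
      one_smul, pow_two, mul_smul] at h1
    simpa using h1
  have hθ : θ ≠ 0 := by
    rintro rfl
    have h1 := h.cube
    rw [zero_pow (by norm_num)] at h1
    exact hx (Int.cast_eq_zero.1 h1.symm)
  -- the sum
  have key : ∀ e : L, (u : L) * σ (e + u * σ e + u * σ u * σ (σ e)) =
      e + u * σ e + u * σ u * σ (σ e) := by
    intro e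
    rw [map_add, map_add, map_mul, map_mul, map_mul, NHN.s3 h]
    linear_combination e * hu'
  have main : ∃ e : L, e + u * σ e + u * σ u * σ (σ e) ≠ 0 := by
    by_contra hc
    push Not at hc
    have h1 := hc 1
    have h2 := hc θ
    have h3 := hc (θ ^ 2)
    have e1 : σ (σ θ) = ι w ^ 2 * θ := by
      rw [h.sθ, map_mul, h.sι, h.sθ]
      ring
    have e2 : σ (σ (θ ^ 2)) = (ι w ^ 2 * θ) ^ 2 := by rw [map_pow, map_pow, e1]
    have e3 : σ (θ ^ 2) = (ι w * θ) ^ 2 := by rw [map_pow, h.sθ]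
    rw [map_one, map_one, mul_one, mul_one] at h1
    rw [e1, h.sθ] at h2
    rw [e2, e3] at h3
    have h2' : 1 + u * ι w + u * σ u * ι w ^ 2 = 0 := by
      have : θ * (1 + u * ι w + u * σ u * ι w ^ 2) = 0 := by linear_combination h2
      exact (mul_eq_zero.1 this).resolve_left hθ
    have h3' : 1 + u * ι w ^ 2 + u * σ u * ι w ^ 4 = 0 := by
      have : θ ^ 2 * (1 + u * ι w ^ 2 + u * σ u * ι w ^ 4) = 0 := by linear_combination h3
      exact (mul_eq_zero.1 this).resolve_left (pow_ne_zero _ hθ)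
    have h4 : (3 : L) = 0 := by
      linear_combination h1 + h2' + h3' - (u : L) * NHN.wrel ι -
        (u : L) * σ u * (NHN.wrel ι + ι w * NHN.w3 ι)
    exact three_ne_zero h4
  obtain ⟨e, he⟩ := main
  refine ⟨Units.mk0 _ he, ?_⟩
  rw [eq_div_iff_mul_eq']
  ext
  rw [Units.val_mul, AlgEquiv.smul_units_def]
  simp only [Units.coe_map, Units.val_mk0]
  have := key e
  simpa [mul_comm] using this

end Pool.Agent.PT


end

section

/-!
# Prime twists of rank zero: the commutators in the governing field, without the condition modulo 9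
-/

open NumberField IsDedekindDomain Finset
open scoped nonZeroDivisors Pointwise

namespace Pool.Agent.PTE

open Pool.Agent.Lib_helper18 Pool.Agent.Lib_helper18.Eis Pool.Agent.Lib_helper84.Cub
open Pool.Agent.PT

theorem GCG_thm (hKUM : KUM) (hGKI : GKI) : GCG := by
  intro s b p q p' q' f L _ _ ζ ω hS hG
  have hω := hG.rel
  have := hG.gal
  have hf : 0 < f := by
    rcases Nat.eq_zero_or_pos f with h | h
    · exfalso
      have h1 := hG.hω
      rw [h, Nat.zero_div, pow_zero] at h1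
      rw [h1] at hω
      norm_num at hω
    · exact h
  have hζf : ζ ^ f = 1 := hG.prim.pow_eq_one
  have hζ : ∀ z : L ≃ₐ[ℚ] L, z ζ = ζ → z ω = ω := by
    intro z hz
    rw [hG.hω, map_pow, hz]
  have hb : ∀ i, b i ≠ 0 := by
    intro i hi
    refine hS.ind (fun l => if l = i then 1 else 0) ⟨i, by simp⟩ ⟨0, ?_⟩
    symm
    rw [zero_pow (by norm_num)]
    exact Finset.prod_eq_zero (Finset.mem_univ i) (by simp [hi])
  choose θ hθ using hG.root
  -- Kummer theory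
  have hgi : ∀ v : Fin s → ZMod 3, ∃ g : L ≃ₐ[ℚ] L, g ζ = ζ ∧
      ∀ l, g (θ l) = ω ^ (v l).val * θ l := by
    intro v
    let F := IntermediateField.adjoin ℚ {ζ}
    have hζF : ζ ∈ F := IntermediateField.mem_adjoin_simple_self ℚ ζ
    let ζF : F := ⟨ζ, hζF⟩
    obtain ⟨g, hg⟩ := hKUM F L (ζF ^ (f / 3)) (Fin s) (fun i => ((b i : ℤ) : F)) θ
      (by
        apply Subtype.ext
        push_cast
        rw [← hG.hω]
        exact hω)
      (fun i => by exact_mod_cast hb i)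
      (fun i => by rw [hθ i, map_intCast])
      (by
        rintro n ⟨β, hβ⟩
        by_contra hcon
        push Not at hcon
        have h1 : ((β : L)) ^ 3 = ((∏ i, b i ^ n i : ℤ) : L) := by
          have h2 := congrArg (algebraMap F L) hβ
          rw [map_pow, map_prod] at h2
          push_cast
          rw [show ((β : L)) ^ 3 = (algebraMap F L β) ^ 3 from rfl, ← h2]
          refine Finset.prod_congr rfl (fun i _ => ?_)
          rw [map_pow, map_intCast]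
        obtain ⟨t, ht⟩ := hGKI L f ζ (β : L) (∏ i, b i ^ n i) hf hζf β.2 h1
        exact hS.ind n hcon ⟨t, ht⟩)
      v
    refine ⟨g.restrictScalars ℚ, ?_, fun l => ?_⟩
    · exact g.commutes ζF
    · have h3 := hg l
      rw [AlgEquiv.restrictScalars_apply, h3, map_pow]
      rw [show algebraMap F L ζF = ζ from rfl, ← hG.hω]
  have hg1 : ∀ i, ∃ g : L ≃ₐ[ℚ] L, g ζ = ζ ∧ g (θ i) = ω * θ i ∧ ∀ l, l ≠ i → g (θ l) = θ l := by
    intro i
    obtain ⟨g, hg, hg'⟩ := hgi (fun l => if l = i then 1 else 0)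
    refine ⟨g, hg, ?_, fun l hl => ?_⟩
    · rw [hg' i, if_pos rfl]
      rw [show (1 : ZMod 3).val = 1 from rfl, pow_one]
    · rw [hg' l, if_neg hl, ZMod.val_zero, pow_zero, one_mul]
  choose g hgζ hgθ hgθ' using hg1
  have hgω : ∀ i, g i ω = ω := fun i => hζ _ (hgζ i)
  have hroot : ∀ (j : Fin s) (ρ : L), ρ ^ 3 = (b j : L) → ∃ k : ℕ, ρ = ω ^ k * θ j := by
    intro j ρ hρ
    exact GC.cube_eq hω (by rw [hρ, hθ j])
  have hgρ : ∀ (j : Fin s) (ρ : L), ρ ^ 3 = (b j : L) → g j ρ = ω * ρ := by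
    intro j ρ hρ
    obtain ⟨k, hk⟩ := hroot j ρ hρ
    rw [hk, map_mul, map_pow, hgω, hgθ]
    ring
  have hgρ' : ∀ (i j : Fin s) (ρ : L), ρ ^ 3 = (b j : L) → j ≠ i → g i ρ = ρ := by
    intro i j ρ hρ hji
    obtain ⟨k, hk⟩ := hroot j ρ hρ
    rw [hk, map_mul, map_pow, hgω, hgθ' i j hji]
  apply GC.all hω hζ
  intro j i hji
  refine ⟨(g j * g i)⁻¹ * (g i * g j), ?_, fun l ρ hρ => ?_, fun l k hlk ρ A hρ hA => ?_⟩
  · have h1 : g i (g j ζ) = ω ^ 0 * g j (g i ζ) := by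
      rw [hgζ j, hgζ i, hgζ j, pow_zero, one_mul]
    rw [GC.comm_apply (g j) (g i) 0 (hgω j) (hgω i) ζ h1, pow_zero, one_mul]
  · have h1 : g i (g j ρ) = ω ^ 0 * g j (g i ρ) := by
      rw [pow_zero, one_mul]
      by_cases h2 : l = i
      · subst h2
        rw [hgρ l ρ hρ, hgρ' j l ρ hρ (ne_of_gt hji), hgρ l ρ hρ, map_mul, hgω j,
          hgρ' j l ρ hρ (ne_of_gt hji)]
      · by_cases h3 : l = j
        · subst h3
          rw [hgρ l ρ hρ, hgρ' i l ρ hρ h2, hgρ l ρ hρ, map_mul, hgω i, hgρ' i l ρ hρ h2]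
        · rw [hgρ' i l ρ hρ h2, hgρ' j l ρ hρ h3, hgρ' i l ρ hρ h2]
    rw [GC.comm_apply (g j) (g i) 0 (hgω j) (hgω i) ρ h1, pow_zero, one_mul]
  · have hsol := (hS.sol l k hlk.ne).toSolW
    by_cases h2 : (l, k) = (j, i)
    · rw [Prod.mk.injEq] at h2
      obtain ⟨rfl, rfl⟩ := h2
      simp only [if_true]
      have h1 : g k (g l A) = ω ^ 1 * g l (g k A) :=
        GC.mv (g l) (g k) 1 hω hρ (hθ k) hsol (hgω l) (hgω k) (hgρ l ρ hρ)
          (hgρ' k l ρ hρ hlk.ne) (by rw [pow_one]; exact hgθ k) hA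
      exact GC.comm_apply (g l) (g k) 1 (hgω l) (hgω k) A h1
    · simp only [if_neg h2]
      have h1 : g i (g j A) = ω ^ 0 * g j (g i A) := by
        by_cases h3 : l = j
        · subst h3
          have h4 : k ≠ i := fun h => h2 (by rw [h])
          exact GC.mv (g l) (g i) 0 hω hρ (hθ k) hsol (hgω l) (hgω i) (hgρ l ρ hρ)
            (hgρ' i l ρ hρ hji.ne) (by rw [pow_zero, one_mul]; exact hgθ' i k h4) hA
        · by_cases h4 : l = i
          · subst h4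
            have h5 : k ≠ j := (hji.trans hlk).ne'
            have h6 := GC.mv (g l) (g j) 0 hω hρ (hθ k) hsol (hgω l) (hgω j) (hgρ l ρ hρ)
              (hgρ' j l ρ hρ hji.ne') (by rw [pow_zero, one_mul]; exact hgθ' j k h5) hA
            rw [pow_zero, one_mul] at h6 ⊢
            exact h6.symm
          · rw [pow_zero, one_mul]
            exact GC.fx (g j) (g i) hω hρ hsol (hgω j) (hgω i) (hgρ' j l ρ hρ h3)
              (hgρ' i l ρ hρ h4) hA
      have h5 := GC.comm_apply (g j) (g i) 0 (hgω j) (hgω i) A h1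
      rw [ZMod.val_zero]
      exact h5

end Pool.Agent.PTE


end

section

/-!
# Frobenius elements and the classes `t` for the primes `= 1 (mod 3)`
-/

open NumberField IsDedekindDomain Finset
open scoped nonZeroDivisors Pointwise

namespace Pool.Agent.PTE

open Pool.Agent.Lib_helper18 Pool.Agent.Lib_helper18.Eis Pool.Agent.Lib_helper84.Cub
open Pool.Agent.PT

namespace GFRS

open Pool.Agent.PT.GFR (lf_prod int_mk int_mem card_under frob_mk quo_finite
  isIntegral_root omega_cube isIntegral_omega pow_mod3 not_dvd_of_lt)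

/-- The value at `ω` of the Frobenius element. -/
theorem frob_omega {L : Type} [Field L] [NumberField L] {Q : ℕ} (hQ : Q.Prime)
    {P : Ideal (𝓞 L)} (hP : P.IsPrime) (hQP : (Q : 𝓞 L) ∈ P) (hQ3 : Q % 3 = 1)
    {φ : L ≃ₐ[ℚ] L} (hφ : IsArithFrobAt ℤ φ P) {ω : L} (hω : ω ^ 2 + ω + 1 = 0) :
    φ ω = ω := by
  let z : 𝓞 L := ⟨ω, isIntegral_omega hω⟩
  have hz : z ^ 3 = 1 := by
    apply RingOfIntegers.coe_injective
    change ω ^ 3 = 1
    exact omega_cube hω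
  have h3 : ((3 : ℕ) : 𝓞 L) ∉ P := by
    have h4 := int_mem hQ hP hQP 3
    intro h5
    have h6 : ((3 : ℤ) : 𝓞 L) ∈ P := by simpa using h5
    rw [h4] at h6
    have h7 : Q ∣ 3 := by exact_mod_cast h6
    have h8 := (Nat.prime_dvd_prime_iff_eq hQ Nat.prime_three).1 h7
    omega
  have h1 := hφ.apply_of_pow_eq_one hz h3
  rw [card_under hQ hP hQP, pow_mod3 hz Q, hQ3, pow_one] at h1
  exact congrArg (fun x : 𝓞 L => (x : L)) h1

/-- the linear forms are prime to `ρ` -/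
theorem lf_not_dvd {Q : ℕ} {ρ : Eis} (hρ : ∀ x : ℤ, ρ ∣ (x : Eis) ↔ (Q : ℤ) ∣ x) {b p q r : ℤ}
    (hb : ¬ (Q : ℤ) ∣ p ^ 3 + b * q ^ 3)
    (hr : (Q : ℤ) ∣ r ^ 3 - b) : ¬ ρ ∣ Lf p q 1 r ∧ ¬ ρ ∣ Lf p q 2 r := by
  have key : ¬ ρ ∣ Lf p q 0 r * Lf p q 1 r * Lf p q 2 r := by
    rw [lf_prod, hρ]
    intro h1
    refine hb ?_
    have h2 : p ^ 3 + b * q ^ 3 = p ^ 3 + q ^ 3 * r ^ 3 - (r ^ 3 - b) * q ^ 3 := by ring
    rw [h2]
    exact dvd_sub h1 (Dvd.dvd.mul_right hr _)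
  exact ⟨fun h => key (Dvd.dvd.mul_right (Dvd.dvd.mul_left h _) _),
    fun h => key (Dvd.dvd.mul_left h _)⟩

/-- elements with the same cube -/
theorem cases_root {R : Type*} [CommRing R] [IsDomain R] {z x y : R} (hz : z ^ 2 + z + 1 = 0)
    (h : x ^ 3 = y ^ 3) : ∃ k : ℕ, x = z ^ k * y := by
  have hz3 := omega_cube hz
  have h2 : (x - y) * ((x - z * y) * (x - z ^ 2 * y)) = 0 := by
    linear_combination h + (-x ^ 2 * y + x * y ^ 2) * hz + (x * y ^ 2 - y ^ 3) * hz3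
  rcases mul_eq_zero.1 h2 with h3 | h3
  · exact ⟨0, by rw [pow_zero, one_mul]; exact sub_eq_zero.1 h3⟩
  rcases mul_eq_zero.1 h3 with h4 | h4
  · exact ⟨1, by rw [pow_one]; exact sub_eq_zero.1 h4⟩
  · exact ⟨2, sub_eq_zero.1 h4⟩

/-- The data at the prime `P`; `F` is the residue field. -/
structure Dat {L : Type} [Field L] [NumberField L] {F : Type} [Field F] (Q : ℕ)
    (φ : L ≃ₐ[ℚ] L) (ω : 𝓞 L) (ρ : Eis) (mk : 𝓞 L →+* F) (z : F) (ψ : Eis →+* F) : Prop where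
  hQ : Q.Prime
  rel : z ^ 2 + z + 1 = 0
  ne1 : z ≠ 1
  ωz : mk ω = z
  ψw : ψ w = z
  ψρ : ψ ρ = 0
  i0 : ∀ n : ℤ, ((n : ℤ) : F) = 0 ↔ (Q : ℤ) ∣ n
  fr : ∀ x : 𝓞 L, mk (φ • x) = mk x ^ Q
  fω : φ (ω : L) = ω
  rω : ω ^ 2 + ω + 1 = 0
  hq : Prime ρ
  h3 : ¬ ρ ∣ 3
  hN : N ρ = Q
  hd : ∀ x : ℤ, ρ ∣ (x : Eis) ↔ (Q : ℤ) ∣ x

namespace Dat

variable {L : Type} [Field L] [NumberField L] {F : Type} [Field F] {Q : ℕ}
  {φ : L ≃ₐ[ℚ] L} {ω : 𝓞 L} {ρ : Eis} {mk : 𝓞 L →+* F} {z : F} {ψ : Eis →+* F}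

theorem z3 (D : Dat Q φ ω ρ mk z ψ) : z ^ 3 = 1 := omega_cube D.rel

theorem z0 (D : Dat Q φ ω ρ mk z ψ) : z ≠ 0 := by
  intro h
  have := D.z3
  rw [h] at this
  norm_num at this

theorem order (D : Dat Q φ ω ρ mk z ψ) : orderOf z = 3 := by
  have := Fact.mk Nat.prime_three
  exact orderOf_eq_prime D.z3 D.ne1

theorem pow_inj (D : Dat Q φ ω ρ mk z ψ) {s t : ZMod 3} (h : z ^ s.val = z ^ t.val) : s = t := by
  have h3 := IsPrimitiveRoot.orderOf z
  rw [D.order] at h3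
  exact ZMod.val_injective 3 (h3.pow_inj (ZMod.val_lt s) (ZMod.val_lt t) h)

theorem three_mul (D : Dat Q φ ω ρ mk z ψ) : 3 * ((N ρ - 1) / 3) + 1 = Q := by
  rw [three_mul_div D.hq D.h3, D.hN]

/-- the Frobenius power of an element whose cube comes from the Eisenstein integers -/
theorem pow_Q (D : Dat Q φ ω ρ mk z ψ) {x : F} {e : Eis} (he : ¬ ρ ∣ e) (hx : x ^ 3 = ψ e) :
    x ^ Q = z ^ (sym ρ e).val * x := by
  have h1 := map_pow_eq D.hq D.h3 he ψ D.ψρ
  rw [← hx, D.ψw, ← pow_mul] at h1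
  conv_lhs => rw [← D.three_mul, pow_succ, h1]

theorem cube (_ : Dat Q φ ω ρ mk z ψ) {b : ℤ} {θ : 𝓞 L} (hθ : θ ^ 3 = (b : 𝓞 L)) :
    mk θ ^ 3 = (b : F) := by
  rw [← map_pow, hθ, map_intCast]

theorem ne0 (D : Dat Q φ ω ρ mk z ψ) {b : ℤ} {θ : 𝓞 L} (hθ : θ ^ 3 = (b : 𝓞 L))
    (hb : ¬ (Q : ℤ) ∣ b) : mk θ ≠ 0 := by
  intro h
  have h1 := D.cube hθ
  rw [h, zero_pow (by norm_num)] at h1
  exact hb ((D.i0 b).1 h1.symm)

theorem fr_root (D : Dat Q φ ω ρ mk z ψ) {b : ℤ} {θ : 𝓞 L} (hθ : θ ^ 3 = (b : 𝓞 L))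
    (hb : ¬ (Q : ℤ) ∣ b) : mk (φ • θ) = z ^ (sym ρ (b : Eis)).val * mk θ := by
  rw [D.fr]
  refine D.pow_Q (fun h => hb ((D.hd b).1 h)) ?_
  rw [D.cube hθ, map_intCast]

/-- a fixed cube root -/
theorem sym_zero (D : Dat Q φ ω ρ mk z ψ) {b : ℤ} {θ : 𝓞 L} (hθ : θ ^ 3 = (b : 𝓞 L))
    (hb : ¬ (Q : ℤ) ∣ b) (h : φ • θ = θ) : sym ρ (b : Eis) = 0 := by
  have h1 := D.fr_root hθ hb
  rw [h] at h1
  refine D.pow_inj ?_
  have h3 : z ^ (sym ρ (b : Eis)).val * mk θ = 1 * mk θ := by rw [one_mul, ← h1]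
  rw [mul_right_cancel₀ (D.ne0 hθ hb) h3, ZMod.val_zero, pow_zero]

/-- a cube root which is not fixed -/
theorem sym_ne (D : Dat Q φ ω ρ mk z ψ) {b : ℤ} {θ : 𝓞 L} (hθ : θ ^ 3 = (b : 𝓞 L))
    (hb : ¬ (Q : ℤ) ∣ b) (h : φ • θ ≠ θ) : sym ρ (b : Eis) ≠ 0 := by
  intro h0
  have h1 : (φ • θ) ^ 3 = θ ^ 3 := by
    rw [← smul_pow', hθ]
    have h7 : ((b : 𝓞 L) : L) = (b : L) := map_intCast (algebraMap (𝓞 L) L) b
    apply RingOfIntegers.coe_injective
    refine (congrArg φ h7).trans ?_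
    rw [map_intCast]
    exact h7.symm
  obtain ⟨k, hk⟩ := cases_root D.rω h1
  have h3 := D.fr_root hθ hb
  rw [hk, map_mul, map_pow, D.ωz, h0, ZMod.val_zero, pow_zero] at h3
  have h5 : z ^ k = 1 := mul_right_cancel₀ (D.ne0 hθ hb) h3
  have h6 : 3 ∣ k := D.order ▸ orderOf_dvd_of_pow_eq_one h5
  obtain ⟨l, rfl⟩ := h6
  refine h ?_
  rw [hk, pow_mul, omega_cube D.rω, one_pow, one_mul]

/-- a cube root with the residue `r` -/
theorem exists_root (D : Dat Q φ ω ρ mk z ψ) {b r : ℤ} (hr : (Q : ℤ) ∣ r ^ 3 - b)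
    {θ : 𝓞 L} (hθ : θ ^ 3 = (b : 𝓞 L)) :
    ∃ θ' : 𝓞 L, θ' ^ 3 = (b : 𝓞 L) ∧ mk θ' = (r : F) := by
  have h4 := (D.i0 (r ^ 3 - b)).2 hr
  push_cast at h4
  obtain ⟨k, hk⟩ := cases_root (x := (r : F)) (y := mk θ) D.rel
    (by rw [D.cube hθ]; exact sub_eq_zero.1 h4)
  refine ⟨ω ^ k * θ, ?_, ?_⟩
  · rw [mul_pow, ← pow_mul, mul_comm k 3, pow_mul, omega_cube D.rω, one_pow, one_mul, hθ]
  · rw [map_mul, map_pow, D.ωz, hk]

theorem core (D : Dat Q φ ω ρ mk z ψ) {b p q p' q' r : ℤ}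
    (h1 : ¬ (Q : ℤ) ∣ p ^ 3 + b * q ^ 3) (h2 : ¬ (Q : ℤ) ∣ p' ^ 3 + b * q' ^ 3)
    (hr : (Q : ℤ) ∣ r ^ 3 - b) {θ : 𝓞 L} {A : L} (hrθ : mk θ = (r : F))
    (hφθ : φ (θ : L) = θ)
    (hA : A ^ 3 * aD (ω : L) p q p' q' θ = aN (ω : L) p q p' q' θ)
    {t : ZMod 3} (ht : φ A = (ω : L) ^ t.val * A) : t = TAUVS ρ p q p' q' r := by
  -- the elements of the ring of integers
  let dD : 𝓞 L := (p + q * ω * θ) * (p' + q' * ω ^ 2 * θ)
  let dN : 𝓞 L := (p + q * ω ^ 2 * θ) * (p' + q' * ω * θ)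
  have hdD : algebraMap (𝓞 L) L dD = aD (ω : L) p q p' q' θ := by
    simp only [dD, aD, map_mul, map_add, map_pow, map_intCast]
  have hdN : algebraMap (𝓞 L) L dN = aN (ω : L) p q p' q' θ := by
    simp only [dN, aN, map_mul, map_add, map_pow, map_intCast]
  have hA' : (A * aD (ω : L) p q p' q' θ) ^ 3 = algebraMap (𝓞 L) L (dN * dD ^ 2) := by
    rw [map_mul, map_pow, hdD, hdN, ← hA]
    ring
  have hAint : IsIntegral ℤ (A * aD (ω : L) p q p' q' θ) := by
    refine IsIntegral.of_pow (n := 3) (by norm_num) ?_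
    rw [hA']
    exact RingOfIntegers.isIntegral_coe _
  obtain ⟨AB, hABv⟩ : ∃ AB : 𝓞 L, (AB : L) = A * aD (ω : L) p q p' q' θ := ⟨⟨_, hAint⟩, rfl⟩
  have hAB : AB ^ 3 = dN * dD ^ 2 := by
    apply RingOfIntegers.coe_injective
    rw [← hA', ← hABv, map_pow]
  have hφD : φ (aD (ω : L) p q p' q' θ) = aD (ω : L) p q p' q' θ := by
    simp only [aD, map_mul, map_add, map_pow, map_intCast, D.fω, hφθ]
  have hφA : φ • AB = ω ^ t.val * AB := by
    apply RingOfIntegers.coe_injective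
    rw [map_mul, map_pow]
    have h7 : algebraMap (𝓞 L) L (φ • AB) = φ (AB : L) := rfl
    have h8 : algebraMap (𝓞 L) L AB = A * aD (ω : L) p q p' q' θ := hABv
    rw [h7, hABv, h8, map_mul, hφD, ht]
    ring
  obtain ⟨e1, e2⟩ := lf_not_dvd D.hd h1 hr
  obtain ⟨e1', e2'⟩ := lf_not_dvd D.hd h2 hr
  have hψL : ∀ (p q : ℤ) (i : ℕ), ψ (Lf p q i r) = p + q * z ^ i * r := by
    intro p q i
    simp only [Lf, map_add, map_mul, map_pow, map_intCast, D.ψw]
  set E : Eis := Lf p q 2 r * Lf p' q' 1 r * (Lf p q 1 r * Lf p' q' 2 r) ^ 2 with hE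
  have hq := D.hq
  have hEd : ¬ ρ ∣ E := by
    intro h3
    rcases hq.dvd_or_dvd h3 with h4 | h4
    · rcases hq.dvd_or_dvd h4 with h5 | h5
      · exact e2 h5
      · exact e1' h5
    · rcases hq.dvd_or_dvd (hq.dvd_of_dvd_pow h4) with h5 | h5
      · exact e1 h5
      · exact e2' h5
  have hmkA : mk AB ^ 3 = ψ E := by
    rw [← map_pow, hAB, hE]
    simp only [dD, dN, map_mul, map_add, map_pow, map_intCast, hrθ, D.ωz, pow_one, hψL]
  have ha0 : mk AB ≠ 0 := by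
    intro h3
    rw [h3, zero_pow (by norm_num)] at hmkA
    have h4 := map_pow_eq hq D.h3 hEd ψ D.ψρ
    rw [← hmkA, D.ψw] at h4
    have h5 := D.three_mul
    have h6 := D.hQ.two_le
    rw [zero_pow (by omega)] at h4
    exact pow_ne_zero _ D.z0 h4.symm
  have hfinal : z ^ t.val = z ^ (sym ρ E).val := by
    have h3 := congrArg mk hφA
    rw [D.fr, D.pow_Q hEd hmkA, map_mul, map_pow, D.ωz] at h3
    exact (mul_right_cancel₀ ha0 h3).symm
  have ht' : t = sym ρ E := D.pow_inj hfinal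
  rw [ht', hE]
  have g1 : ¬ ρ ∣ Lf p q 2 r * Lf p' q' 1 r := fun h3 => (hq.dvd_or_dvd h3).elim e2 e1'
  have g2 : ¬ ρ ∣ Lf p q 1 r * Lf p' q' 2 r := fun h3 => (hq.dvd_or_dvd h3).elim e1 e2'
  have g3 : ¬ ρ ∣ (Lf p q 1 r * Lf p' q' 2 r) ^ 2 := fun h3 => g2 (hq.dvd_of_dvd_pow h3)
  rw [sym_mul hq D.h3 g1 g3, sym_mul hq D.h3 e2 e1', sym_pow hq D.h3 g2, sym_mul hq D.h3 e1 e2']
  unfold TAUVS
  have h2z : ((2 : ℕ) : ZMod 3) = -1 := by decide
  rw [h2z]
  ring

end Dat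

/-- the integral element -/
theorem exists_int {L : Type} [Field L] [NumberField L] {θ : L} {b : ℤ} (h : θ ^ 3 = (b : L)) :
    ∃ θ' : 𝓞 L, (θ' : L) = θ ∧ θ' ^ 3 = (b : 𝓞 L) := by
  refine ⟨⟨θ, isIntegral_root h⟩, rfl, ?_⟩
  apply RingOfIntegers.coe_injective
  rw [map_intCast]
  exact h

/-- existence of the data -/
theorem exists_dat (hSPLT : SPLT) (hSPP : SPP) {L : Type} [Field L] [NumberField L] {Q : ℕ}
    (hQ : Q.Prime) {P : Ideal (𝓞 L)} (hP : P.IsPrime) (hQP : (Q : 𝓞 L) ∈ P) (hQ3 : Q % 3 = 1)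
    {φ : L ≃ₐ[ℚ] L} (hφ : IsArithFrobAt ℤ φ P) {ω : L} (hω : ω ^ 2 + ω + 1 = 0) :
    ∃ (ωB : 𝓞 L) (ρ : PP) (F : Type) (_ : Field F) (mk : 𝓞 L →+* F) (z : F) (ψ : Eis →+* F),
      (ωB : L) = ω ∧ (Q : Eis) = ρ.1 * conj ρ.1 ∧ Dat Q φ ωB ρ.1 mk z ψ := by
  have hfin := quo_finite hQ hP hQP
  have hmax : P.IsMaximal :=
    Ideal.Quotient.maximal_of_isField _ (Finite.isField_of_domain (𝓞 L ⧸ P))
  let _ : Field (𝓞 L ⧸ P) := Ideal.Quotient.field P
  let ωB : 𝓞 L := ⟨ω, isIntegral_omega hω⟩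
  have h3 : ωB ^ 2 + ωB + 1 = 0 := by
    apply RingOfIntegers.coe_injective
    change ω ^ 2 + ω + 1 = 0
    exact hω
  set z : 𝓞 L ⧸ P := Ideal.Quotient.mk P ωB with hz
  have hzrel : z ^ 2 + z + 1 = 0 := by
    rw [hz, ← map_pow, ← map_add, ← map_one (Ideal.Quotient.mk P), ← map_add, h3, map_zero]
  have h3Q : ¬ (Q : ℤ) ∣ 3 := by
    intro h3
    have h4 : Q ∣ 3 := by exact_mod_cast h3
    have h5 := (Nat.prime_dvd_prime_iff_eq hQ Nat.prime_three).1 h4
    omega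
  have hz1 : z ≠ 1 := by
    intro h3
    rw [h3] at hzrel
    refine h3Q ((int_mk hQ hP hQP 3).1 ?_)
    push_cast
    linear_combination hzrel
  let ψ : Eis →+* 𝓞 L ⧸ P := Pool.Agent.PT.GFR.lift z hzrel
  have hψQ : ψ (Q : Eis) = 0 := by
    rw [map_natCast, ← map_natCast (Ideal.Quotient.mk P)]
    exact Ideal.Quotient.eq_zero_iff_mem.2 hQP
  have hψw : ψ w = z := Pool.Agent.PT.GFR.lift_w z hzrel
  obtain ⟨ρ, hρQ, hψρ⟩ : ∃ ρ : PP, (Q : Eis) = ρ.1 * conj ρ.1 ∧ ψ ρ.1 = 0 := by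
    obtain ⟨ρ₀, h0⟩ := hSPLT.1 Q hQ hQ3
    have h1 : ψ ρ₀.1 * ψ (conj ρ₀.1) = 0 := by rw [← map_mul, ← h0, hψQ]
    rcases mul_eq_zero.1 h1 with h2 | h2
    · exact ⟨ρ₀, h0, h2⟩
    · obtain ⟨ρ', h3⟩ := (hSPP.2.2.2.1 ρ₀).2
      refine ⟨ρ', ?_, ?_⟩
      · rw [h3, conj_conj, mul_comm]
        exact h0
      · rw [h3]
        exact h2
  have hN : N ρ.1 = Q := by
    have h1 := mul_conj ρ.1
    rw [← hρQ] at h1
    have h2 : ((Q : ℤ) : Eis) = ((ρ.1.norm : ℤ) : Eis) := by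
      rw [Int.cast_natCast]
      exact h1
    have h3 : (Q : ℤ) = ρ.1.norm := by
      have h4 := congrArg Eis.re h2
      simpa using h4
    have h4 := N_cast ρ.1
    rw [← h3] at h4
    exact_mod_cast h4
  exact ⟨ωB, ρ, 𝓞 L ⧸ P, inferInstance, Ideal.Quotient.mk P, z, ψ, rfl, hρQ,
    { hQ := hQ
      rel := hzrel
      ne1 := hz1
      ωz := rfl
      ψw := hψw
      ψρ := hψρ
      i0 := fun n => int_mk hQ hP hQP n
      fr := fun x => frob_mk hQ hP hQP hφ x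
      fω := frob_omega hQ hP hQP hQ3 hφ hω
      rω := h3
      hq := ρ.2.1
      h3 := (hSPP.2.2.2.1 ρ).1
      hN := hN
      hd := (hSPLT.2 Q ρ hQ hQ3 hρQ).2.2.2.1 }⟩

theorem ne_zero {s : ℕ} {b : Fin s → ℤ} {p q p' q' : Fin s → Fin s → ℤ}
    (hS : SysG b p q p' q') (j : Fin s) : b j ≠ 0 := by
  classical
  intro h0
  refine hS.ind (Pi.single j 1) ⟨j, by simp⟩ ⟨0, ?_⟩
  have h1 : ∏ i, b i ^ (Pi.single j 1 : Fin s → ℕ) i = 0 := by
    refine Finset.prod_eq_zero (Finset.mem_univ j) ?_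
    rw [Pi.single_eq_same, pow_one, h0]
  rw [h1]
  norm_num

end GFRS

theorem GFRS_thm (hSPLT : SPLT) (hSPP : SPP) : GFRS := by
  classical
  intro s b p q p' q' f L _ _ ζ ω hS hG
  let B : Fin (s + 1) → Fin (s + 1) → ℕ := fun j i => (b j).natAbs +
    (p j i ^ 3 + b j * q j i ^ 3).natAbs + (p' j i ^ 3 + b j * q' j i ^ 3).natAbs
  refine ⟨∑ j, ∑ i, B j i, fun Q hQ hQN hQ3 P hP hQP φ hφ hF => ?_⟩
  have hB : ∀ j i, B j i < Q := by
    intro j i
    refine lt_of_le_of_lt ?_ hQN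
    have h1 : B j i ≤ ∑ i, B j i :=
      Finset.single_le_sum (f := fun i => B j i) (fun _ _ => Nat.zero_le _) (Finset.mem_univ i)
    refine h1.trans ?_
    exact Finset.single_le_sum (f := fun j => ∑ i, B j i) (fun _ _ => Nat.zero_le _)
      (Finset.mem_univ j)
  have hb : ∀ j, ¬ (Q : ℤ) ∣ b j := fun j =>
    GFR.not_dvd_of_lt (GFRS.ne_zero hS j) (by have := hB j j; simp only [B] at this; omega)
  obtain ⟨ωB, ρ, F, _, mk, z, ψ, rfl, hρ, D⟩ := GFRS.exists_dat hSPLT hSPP hQ hP hQP hQ3 hφ hG.rel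
  refine ⟨ρ, hρ, fun j => ?_, ?_, fun j i hji r t hr ht => ?_⟩
  · obtain ⟨θ, hθ⟩ := hG.root j.castSucc
    obtain ⟨θB, rfl, hθB⟩ := GFRS.exists_int hθ
    exact D.sym_zero hθB (hb _) (RingOfIntegers.coe_injective (hF.1 j _ hθ))
  · obtain ⟨θ, hθ⟩ := hG.root (Fin.last s)
    obtain ⟨θB, rfl, hθB⟩ := GFRS.exists_int hθ
    exact D.sym_ne hθB (hb _) fun h => hF.2 _ hθ (congrArg (fun x : 𝓞 L => (x : L)) h)
  · have hji' : j.castSucc ≠ i.castSucc := fun h => hji (Fin.castSucc_injective _ h)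
    have hsol := hS.sol j.castSucc i.castSucc hji'
    have h2 : p' j.castSucc i.castSucc ^ 3 + b j.castSucc * q' j.castSucc i.castSucc ^ 3 ≠ 0 := by
      intro h0
      refine hsol.n1 ?_
      rw [hsol.eq, h0, mul_zero]
    have hBji := hB j.castSucc i.castSucc
    simp only [B] at hBji
    obtain ⟨θ₀, hθ₀⟩ := hG.root j.castSucc
    obtain ⟨θ₁, rfl, hθ₁⟩ := GFRS.exists_int hθ₀
    obtain ⟨θ, hθ, hrθ⟩ := D.exists_root hr hθ₁
    have hθL : (θ : L) ^ 3 = (b j.castSucc : L) := by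
      rw [← map_pow, hθ, map_intCast]
    obtain ⟨A, hA⟩ := hG.A j.castSucc i.castSucc hji' θ hθL
    exact D.core (GFR.not_dvd_of_lt hsol.n1 (by omega)) (GFR.not_dvd_of_lt h2 (by omega))
      hr hrθ (hF.1 j θ hθL) hA (ht θ A hθL hA)

end Pool.Agent.PTE


end

section

/-!
# PT3, module EVET: the admissible classes in terms of exponent vectors
-/

set_option autoImplicit false

namespace Pool.Agent.PT3

open Pool.Agent.Lib_helper18 Pool.Agent.Lib_helper18.Eis Pool.Agent.Lib_helper84.Cub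
open Pool.Agent.PT Pool.Agent.PTE

namespace EVET

/-- the part prime to `3` -/
theorem split3 {x : ℤ} (hx : x ≠ 0) : ∃ y : ℤ, y ≠ 0 ∧ ¬ (3 : ℤ) ∣ y ∧
    x = 3 ^ padicValInt 3 x * y ∧ x / 3 ^ padicValInt 3 x = y := by
  have : Fact (Nat.Prime 3) := ⟨Nat.prime_three⟩
  obtain ⟨c, hc⟩ : ((3 : ℕ) : ℤ) ^ padicValInt 3 x ∣ x := padicValInt_dvd x
  rw [Nat.cast_ofNat] at hc
  have hc0 : c ≠ 0 := by
    rintro rfl
    rw [mul_zero] at hc
    exact hx hc
  refine ⟨c, hc0, ?_, hc, ?_⟩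
  · rintro ⟨d, rfl⟩
    have h1 : ((3 : ℕ) : ℤ) ^ (padicValInt 3 x + 1) ∣ x := ⟨d, by
      rw [pow_succ, Nat.cast_ofNat]
      conv_lhs => rw [hc]
      ring⟩
    rw [padicValInt_dvd_iff] at h1
    rcases h1 with h1 | h1
    · exact hx h1
    · omega
  · exact Int.ediv_eq_of_eq_mul_right (pow_ne_zero _ (by norm_num)) hc

theorem val_split {l : ℕ} (hl : l.Prime) (h3 : l ≠ 3) {x y : ℤ} {a : ℕ} (hy : y ≠ 0)
    (h : x = 3 ^ a * y) : padicValInt l x = padicValInt l y := by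
  have : Fact l.Prime := ⟨hl⟩
  rw [h, padicValInt.mul (pow_ne_zero _ (by norm_num)) hy, padicValInt.eq_zero_of_not_dvd,
    zero_add]
  intro hd
  have h1 : (l : ℤ) ∣ ((3 : ℕ) : ℤ) := by
    rw [Nat.cast_ofNat]
    exact (Nat.prime_iff_prime_int.1 hl).dvd_of_dvd_pow hd
  rw [Int.natCast_dvd_natCast, Nat.prime_dvd_prime_iff_eq hl Nat.prime_three] at h1
  exact h3 h1

theorem supp_split {n : ℕ} {x y : ℤ} {a : ℕ} (hy : ¬ (3 : ℤ) ∣ y) (h : x = 3 ^ a * y)
    (hs : ∀ l : ℕ, l.Prime → (l : ℤ) ∣ x → l ∣ 3 * n) : ∀ l : ℕ, l.Prime → (l : ℤ) ∣ y → l ∣ n := by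
  intro l hl hd
  have h1 := hs l hl (by rw [h]; exact hd.mul_left _)
  rcases (Nat.Prime.dvd_mul hl).1 h1 with h2 | h2
  · exfalso
    rw [Nat.prime_dvd_prime_iff_eq hl Nat.prime_three] at h2
    rw [h2] at hd
    exact hy hd
  · exact h2

theorem cast0 {a : ℤ} (ha : a ≠ 0) : (a : Eis) ≠ 0 := by
  intro h0
  apply ha
  have := congrArg Eis.re h0
  simpa using this

theorem ch_pow {π : Eis} (hπ : Prime π) (h3 : ¬ π ∣ 3) {a : Eis} (ha : a ≠ 0) (j : ℕ) :
    ch π (a ^ j) = (j : ZMod 3) * ch π a := by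
  induction j with
  | zero =>
    rw [pow_zero, Nat.cast_zero, zero_mul]
    have h1 := EVEC.ch_mul hπ h3 (one_ne_zero (α := Eis)) (one_ne_zero (α := Eis))
    rw [mul_one] at h1
    exact left_eq_add.1 h1
  | succ j ih =>
    rw [pow_succ, EVEC.ch_mul hπ h3 (pow_ne_zero _ ha) ha, ih]
    push_cast
    ring

end EVET

open _root_.Pool.Agent.PT3.EVET EVEC in
theorem EVET_thm (_hSTM : STM) (hSPP : SPP) (_hLCL : LCL) : EVET := by
  classical
  intro h' n m k π p e r f w0 c h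
  -- the primes are split
  have hSp : ∀ i, Sp (π i).1 (p i) := by
    intro i
    obtain ⟨-, -, -, h4, -, h6⟩ := hSPP
    obtain ⟨p', hp', hc⟩ := h6 (π i)
    rcases hc with ⟨-, hc⟩ | ⟨-, hc1, hc2, hc3⟩
    · exfalso
      have e1 := h.pπ i
      rw [hc, conj_natCast, ← Nat.cast_mul] at e1
      have e2 : p i = p' * p' := by
        have := congrArg Eis.re e1
        rw [natCast_re, natCast_re] at this
        exact_mod_cast this
      have e3 := h.pp i
      rw [e2] at e3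
      exact Nat.not_prime_mul hp'.one_lt.ne' hp'.one_lt.ne' e3
    · have e1 : p i = p' := by
        have e2 : (p i : Eis) = (p' : Eis) := by rw [h.pπ i, hc2]
        have := congrArg Eis.re e2
        simpa using this
      exact ⟨h.pp i, h.p1 i, (π i).2.1, (h4 (π i)).1, by rw [e1]; exact hc1, h.pπ i, hc3⟩
  have hpne : ∀ i i', i' ≠ i → ¬ (π i).1 ∣ (p i' : Eis) := by
    intro i i' hii hd
    have e1 : (p i : ℤ) ∣ (p i' : ℤ) := (hSp i).dvd_int (by exact_mod_cast hd)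
    rw [Int.natCast_dvd_natCast, Nat.prime_dvd_prime_iff_eq (h.pp i) (h.pp i')] at e1
    exact hii (h.pinj e1).symm
  have hrne : ∀ i j, ¬ (π i).1 ∣ (r j : Eis) := by
    intro i j hd
    have e1 : (p i : ℤ) ∣ (r j : ℤ) := (hSp i).dvd_int (by exact_mod_cast hd)
    rw [Int.natCast_dvd_natCast, Nat.prime_dvd_prime_iff_eq (h.pp i) (h.rp j)] at e1
    have e2 := h.p1 i
    have e3 := h.r2 j
    omega
  have hp3 : ∀ i, p i ≠ 3 := by
    intro i h0
    have := h.p1 i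
    omega
  have hr3 : ∀ j, r j ≠ 3 := by
    intro j h0
    have := h.r2 j
    omega
  -- the valuation of `n`
  have hVn : ∀ i, V (π i).1 (n : Eis) = e i := by
    intro i
    let F : ℤ → ℕ := fun a => V (π i).1 (a : Eis)
    have hF1 : F 1 = 0 := by
      show V (π i).1 ((1 : ℤ) : Eis) = 0
      rw [Int.cast_one]
      exact V_eq_zero (not_dvd_of_isUnit (π i).2.1 isUnit_one)
    have hF : ∀ a b : ℤ, a ≠ 0 → b ≠ 0 → F (a * b) = F a + F b := by
      intro a b ha hb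
      show V (π i).1 ((a * b : ℤ) : Eis) = _
      rw [Int.cast_mul, V_mul (π i).2.1 (cast0 ha) (cast0 hb)]
    obtain ⟨a1, a2⟩ := fun_prod (fun a : ℤ => a ≠ 0) F one_ne_zero
      (fun a b => mul_ne_zero) hF1 hF Finset.univ (fun i => (p i : ℤ)) e
      (fun i _ => by exact_mod_cast (h.pp i).ne_zero)
    obtain ⟨b1, b2⟩ := fun_prod (fun a : ℤ => a ≠ 0) F one_ne_zero
      (fun a b => mul_ne_zero) hF1 hF Finset.univ (fun j => (r j : ℤ)) f
      (fun j _ => by exact_mod_cast (h.rp j).ne_zero)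
    have e1 : V (π i).1 (n : Eis) = F ((∏ i, (p i : ℤ) ^ e i) * ∏ j, (r j : ℤ) ^ f j) := by
      have e2 : ((n : ℕ) : ℤ) = (∏ i, (p i : ℤ) ^ e i) * ∏ j, (r j : ℤ) ^ f j := by
        rw [h.eq]
        push_cast
        rfl
      rw [← e2]
      show V (π i).1 (n : Eis) = V (π i).1 ((n : ℤ) : Eis)
      rw [Int.cast_natCast]
    have hFp : F (p i) = 1 := by
      show V (π i).1 ((p i : ℤ) : Eis) = 1
      rw [Int.cast_natCast]
      exact (hSp i).V_self
    have hFp' : ∀ i', i' ≠ i → F (p i') = 0 := by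
      intro i' hi'
      show V (π i).1 ((p i' : ℤ) : Eis) = 0
      rw [Int.cast_natCast]
      exact V_eq_zero (hpne i i' hi')
    have hFr : ∀ j, F (r j) = 0 := by
      intro j
      show V (π i).1 ((r j : ℤ) : Eis) = 0
      rw [Int.cast_natCast]
      exact V_eq_zero (hrne i j)
    rw [e1, hF _ _ a1 b1, a2, b2, Finset.sum_eq_single i, hFp,
      Finset.sum_eq_zero fun j _ => by rw [hFr, smul_zero]]
    · simp
    · intro i' _ hi'
      rw [hFp' i' hi', smul_zero]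
    · intro h0
      exact absurd (Finset.mem_univ _) h0
  -- the symbols, part prime to `3`
  have hch0 : ∀ (x : ℤ), x ≠ 0 → (∀ l : ℕ, l.Prime → (l : ℤ) ∣ x → l ∣ n) → ∀ i,
      ch (π i).1 (x : Eis) = (∑ i', (padicValInt (p i') x : ZMod 3) *
          (if i' = i then sym (π i).1 (conj (π i).1) else sym (π i).1 (p i' : Eis))) +
        ∑ j, (padicValInt (r j) x : ZMod 3) * sym (π i).1 (r j : Eis) := by
    intro x hx hs i
    have hπ := (hSp i).pr
    have h3 := (hSp i).h3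
    have e1 := fun_eq h (fun a => ch (π i).1 (a : Eis))
      (fun a b ha hb _ _ => by
        show ch (π i).1 ((a * b : ℤ) : Eis) = _
        rw [Int.cast_mul, ch_mul hπ h3 (cast0 ha) (cast0 hb)])
      (by
        show ch (π i).1 ((-1 : ℤ) : Eis) = 0
        rw [Int.cast_neg, Int.cast_one, ch_neg_one hπ h3]) hx hs
    rw [e1]
    congr 1
    · refine Finset.sum_congr rfl fun i' _ => ?_
      congr 1
      show ch (π i).1 ((p i' : ℤ) : Eis) = _
      rw [Int.cast_natCast]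
      by_cases hi' : i' = i
      · rw [if_pos hi', hi', (hSp i).eq, ch_self_mul hπ (hSp i).not_dvd_conj]
      · rw [if_neg hi', ch_not_dvd hπ (hpne i i' hi')]
    · refine Finset.sum_congr rfl fun j _ => ?_
      congr 1
      show ch (π i).1 ((r j : ℤ) : Eis) = _
      rw [Int.cast_natCast, ch_not_dvd hπ (hrne i j)]
  -- the symbols
  have hch : ∀ (x : ℤ), x ≠ 0 → (∀ l : ℕ, l.Prime → (l : ℤ) ∣ x → l ∣ 3 * n) → ∀ i,
      ch (π i).1 (x : Eis) = lv x * sym (π i).1 3 + ((∑ i', (padicValInt (p i') x : ZMod 3) *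
          (if i' = i then sym (π i).1 (conj (π i).1) else sym (π i).1 (p i' : Eis))) +
        ∑ j, (padicValInt (r j) x : ZMod 3) * sym (π i).1 (r j : Eis)) := by
    intro x hx hs i
    obtain ⟨y, hy, hy3, hxy, -⟩ := split3 hx
    have hπ := (hSp i).pr
    have h3 := (hSp i).h3
    have h30 : (3 : Eis) ≠ 0 := by
      have := cast0 (show (3 : ℤ) ≠ 0 by norm_num)
      rwa [Int.cast_ofNat] at this
    have e1 : ch (π i).1 (x : Eis) = lv x * sym (π i).1 3 + ch (π i).1 (y : Eis) := by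
      conv_lhs => rw [hxy]
      rw [Int.cast_mul, Int.cast_pow, Int.cast_ofNat, ch_mul hπ h3 (pow_ne_zero _ h30) (cast0 hy),
        ch_pow hπ h3 h30, ch_not_dvd hπ h3]
      rfl
    rw [e1, hch0 y hy (supp_split hy3 hxy hs) i]
    congr 2
    · refine Finset.sum_congr rfl fun i' _ => ?_
      rw [val_split (h.pp i') (hp3 i') hy hxy]
    · refine Finset.sum_congr rfl fun j _ => ?_
      rw [val_split (h.rp j) (hr3 j) hy hxy]
  -- the weight
  have hwt : ∀ (x : ℤ), x ≠ 0 → (∀ l : ℕ, l.Prime → (l : ℤ) ∣ x → l ∣ 3 * n) →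
      lw x = (∑ i, (padicValInt (p i) x : ZMod 3) * wt ((p i : ℤ) ^ 2)) +
        ∑ j, (padicValInt (r j) x : ZMod 3) * wt ((r j : ℤ) ^ 2) := by
    intro x hx hs
    obtain ⟨y, hy, hy3, hxy, hxy'⟩ := split3 hx
    have e1 : lw x = wt (y ^ 2) := by
      unfold lw
      rw [hxy']
    have e2 : wt (y ^ 2) = (∑ i, (padicValInt (p i) y : ZMod 3) * wt ((p i : ℤ) ^ 2)) +
        ∑ j, (padicValInt (r j) y : ZMod 3) * wt ((r j : ℤ) ^ 2) :=
      fun_eq h (fun a => wt (a ^ 2))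
      (fun a b _ _ ha hb => by
        show wt ((a * b) ^ 2) = _
        rw [mul_pow, wt_mul (sq_mod_three ha) (sq_mod_three hb)])
      (by
        show wt ((-1) ^ 2) = 0
        rw [neg_one_sq, wt_one]) hy (supp_split hy3 hxy hs)
    rw [e1, e2]
    congr 1
    · refine Finset.sum_congr rfl fun i' _ => ?_
      rw [val_split (h.pp i') (hp3 i') hy hxy]
    · refine Finset.sum_congr rfl fun j _ => ?_
      rw [val_split (h.rp j) (hr3 j) hy hxy]
  refine ⟨fun x hx hs => ⟨?_, hwt x hx hs⟩, ?_⟩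
  · have e1 : ∀ i, ((V (π i).1 (n : Eis) : ZMod 3) * ch (π i).1 (x : Eis) -
        (V (π i).1 (x : Eis) : ZMod 3) * (ch (π i).1 ((3 ^ h' * n : ℕ) : Eis) + c i) = 0) ↔
        ((e i : ZMod 3) * (lv x * sym (π i).1 3) +
        (e i : ZMod 3) * (∑ i', (padicValInt (p i') x : ZMod 3) *
          (if i' = i then sym (π i).1 (conj (π i).1) else sym (π i).1 (p i' : Eis))) +
        (e i : ZMod 3) * (∑ j, (padicValInt (r j) x : ZMod 3) * sym (π i).1 (r j : Eis)) -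
        (padicValInt (p i) x : ZMod 3) * (ch (π i).1 ((3 ^ h' * n : ℕ) : Eis) + c i) = 0) := by
      intro i
      rw [hVn i, (hSp i).V_int hx, hch x hx hs i, mul_add, mul_add, add_assoc]
    constructor
    · intro hA
      refine ⟨fun i => (e1 i).1 (hA.sym i), fun h2 => ?_⟩
      rw [← hwt x hx hs]
      exact hA.wild h2
    · rintro ⟨hA, hB⟩
      refine ⟨hx, hs, fun i => (e1 i).2 (hA i), fun h2 => ?_⟩
      rw [hwt x hx hs]
      exact hB h2
  · -- equality modulo cubes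
    intro x x' hx hx' hs hs'
    have hmod : ∀ l : ℕ, l.Prime → ∀ u v : ℤ, u ≠ 0 → v ≠ 0 → x * u ^ 3 = x' * v ^ 3 →
        (padicValInt l x : ZMod 3) = padicValInt l x' := by
      intro l hl u v hu hv huv
      have : Fact l.Prime := ⟨hl⟩
      have e1 := congrArg (padicValInt l) huv
      rw [padicValInt.mul hx (pow_ne_zero _ hu), padicValInt.mul hx' (pow_ne_zero _ hv),
        pow_succ, pow_succ, pow_one, pow_succ, pow_succ, pow_one,
        padicValInt.mul (mul_ne_zero hu hu) hu, padicValInt.mul hu hu,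
        padicValInt.mul (mul_ne_zero hv hv) hv, padicValInt.mul hv hv] at e1
      have e2 := congrArg (fun t : ℕ => (t : ZMod 3)) e1
      push_cast at e2
      have e3 : (3 : ZMod 3) = 0 := by decide
      linear_combination e2 + ((padicValInt l v : ZMod 3) - padicValInt l u) * e3
    constructor
    · rintro ⟨u, v, hu, hv, huv⟩
      exact ⟨hmod 3 Nat.prime_three u v hu hv huv, fun i => hmod _ (h.pp i) u v hu hv huv,
        fun j => hmod _ (h.rp j) u v hu hv huv⟩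
    · rintro ⟨h0, hA, hB⟩
      have hxx : x * x' ^ 2 ≠ 0 := mul_ne_zero hx (pow_ne_zero _ hx')
      have h3 : ∀ l : ℕ, l.Prime → (padicValInt l x : ZMod 3) = padicValInt l x' →
          3 ∣ padicValInt l (x * x' ^ 2) := by
        intro l hl he
        have : Fact l.Prime := ⟨hl⟩
        rw [padicValInt.mul hx (pow_ne_zero _ hx'), pow_two, padicValInt.mul hx' hx',
          ← ZMod.natCast_eq_zero_iff]
        push_cast
        rw [he]
        have e3 : (3 : ZMod 3) = 0 := by decide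
        linear_combination (padicValInt l x' : ZMod 3) * e3
      have hss : ∀ l : ℕ, l.Prime → (l : ℤ) ∣ x * x' ^ 2 → l ∣ 3 * n := by
        intro l hl hd
        rcases (Nat.prime_iff_prime_int.1 hl).dvd_or_dvd hd with h1 | h1
        · exact hs l hl h1
        · exact hs' l hl ((Nat.prime_iff_prime_int.1 hl).dvd_of_dvd_pow h1)
      obtain ⟨y, hy, hy3, hxy, -⟩ := split3 hxx
      obtain ⟨b, hb⟩ := h3 3 Nat.prime_three h0
      obtain ⟨t, ht, hyt⟩ := exists_cube h hy (supp_split hy3 hxy hss)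
        (fun i => by rw [← val_split (h.pp i) (hp3 i) hy hxy]; exact h3 _ (h.pp i) (hA i))
        (fun j => by rw [← val_split (h.rp j) (hr3 j) hy hxy]; exact h3 _ (h.rp j) (hB j))
      refine ⟨x', 3 ^ b * t, hx', mul_ne_zero (pow_ne_zero _ (by norm_num)) ht, ?_⟩
      have e5 : x * x' ^ 2 = (3 ^ b * t) ^ 3 := by
        rw [hxy, hb, hyt]
        ring
      rw [← e5]
      ring

end Pool.Agent.PT3


end

section

/-!
# Module GFRG: Frobenius elements and the classes `t`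
-/

set_option autoImplicit false

open NumberField IsDedekindDomain Finset
open scoped nonZeroDivisors Pointwise

namespace Pool.Agent.PT3

open Pool.Agent.Lib_helper18 Pool.Agent.Lib_helper18.Eis Pool.Agent.Lib_helper84.Cub
open Pool.Agent.PT Pool.Agent.PTE

open Pool.Agent.PT.GFR in
theorem GFRG_thm : GFRG := by
  classical
  intro s b p q p' q' f L _ _ ζ ω hS hG
  have hgal := hG.gal
  let B : Fin s → Fin s → ℕ := fun j i => (b j).natAbs + (p j i ^ 3 + b j * q j i ^ 3).natAbs +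
    (p' j i ^ 3 + b j * q' j i ^ 3).natAbs
  refine ⟨∑ j, ∑ i, B j i, fun Q hQ hQN P hP hQP => ⟨fun g hg => ?_, fun φ hφ hQ3 => ?_⟩⟩
  · have hfin := quo_finite hQ hP hQP
    exact exists_frob_gen (R := ℤ) P g hg
  · have hφω := frob_omega hQ hP hQP hQ3 hφ hG.rel
    refine ⟨hφω, fun j i hji r t hr ht => ?_⟩
    have hB : B j i < Q := by
      refine lt_of_le_of_lt ?_ hQN
      have h1 : B j i ≤ ∑ i, B j i :=
        Finset.single_le_sum (f := fun i => B j i) (fun _ _ => Nat.zero_le _) (Finset.mem_univ i)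
      refine h1.trans ?_
      exact Finset.single_le_sum (f := fun j => ∑ i, B j i) (fun _ _ => Nat.zero_le _)
        (Finset.mem_univ j)
    have hsol := hS.sol j i hji
    have hbj : b j ≠ 0 := by
      intro h0
      refine hS.ind (Pi.single j 1) ⟨j, by simp⟩ ⟨0, ?_⟩
      have h1 : ∏ i, b i ^ (Pi.single j 1 : Fin s → ℕ) i = 0 := by
        refine Finset.prod_eq_zero (Finset.mem_univ j) ?_
        rw [Pi.single_eq_same, pow_one, h0]
      rw [h1]
      norm_num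
    have h2 : p' j i ^ 3 + b j * q' j i ^ 3 ≠ 0 := by
      intro h0
      refine hsol.n1 ?_
      rw [hsol.eq, h0, mul_zero]
    simp only [B] at hB
    obtain ⟨θ, hθ⟩ := hG.root j
    obtain ⟨ρ, hρ, hφρ⟩ := exists_fixed hG.rel hφω hθ
    obtain ⟨A, hA⟩ := hG.A j i hji ρ hρ
    exact core hQ hP hQP hQ3 hφ hG.rel (not_dvd_of_lt hbj (by omega))
      (not_dvd_of_lt hsol.n1 (by omega)) (not_dvd_of_lt h2 (by omega)) hr hρ hφρ hA
      (ht ρ A hρ hφρ hA)

end Pool.Agent.PT3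


end
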