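import Mathlib
import Pool.Agent.PTDM.C01
import Pool.Agent.PTDM.C21
import Pool.Agent.PTDM.C23

/-! Parts: PT.ESYS, PT.F6R, PT.FINA, PT.GT, PT.HN, PT.NFLD, PT.TEND, PTE.GTS, PT3.EMAX, PT3.ESYT, PT3.FCLT, PT3.GTG, PT3.HNT, PT3.TENT -/

section

/-!
# ESYS: from a basis to a system with solutions
-/

namespace Pool.Agent.PT

open Pool.Agent.Lib_helper18 Pool.Agent.Lib_helper18.Eis Pool.Agent.Lib_helper84.Cub

namespace ESYS

theorem cast_ne {n : ℤ} (h : n ≠ 0) : (n : Eis) ≠ 0 := by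
  intro h1
  apply h
  have := congrArg Eis.re h1
  simpa using this

theorem dvd_int {ρ : Eis} {p : ℕ} (hp : p.Prime) (h : ρ.norm = p) {m : ℤ}
    (hd : ρ ∣ (m : Eis)) : (p : ℤ) ∣ m := by
  obtain ⟨t, ht⟩ := hd
  have h1 := congrArg Eis.norm ht
  rw [norm_intCast, norm_mul, h] at h1
  exact (Nat.prime_iff_prime_int.1 hp).dvd_of_dvd_pow ⟨t.norm, h1⟩

theorem V_p {ρ : Eis} {p : ℕ} (hρ : Prime ρ) (hn : (p : Eis) = ρ * conj ρ)
    (hna : ¬ Associated ρ (conj ρ)) : V ρ (p : Eis) = 1 := by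
  have hc : Prime (conj ρ) := prime_conj hρ
  have hd : ¬ ρ ∣ conj ρ := fun h => hna ((hρ.dvd_prime_iff_associated hc).1 h)
  rw [hn, V_mul hρ hρ.ne_zero hc.ne_zero, V_self, V_eq_zero hd]

theorem prime_cases {n m k : ℕ} {π : Fin m → PP} {p e : Fin m → ℕ} {r f : Fin k → ℕ}
    (h : NF n π p e r f) {l : ℕ} (hl : l.Prime) (hd : l ∣ n) : (∃ i, p i = l) ∨ ∃ j, r j = l := by
  rw [h.eq] at hd
  rcases hl.dvd_mul.1 hd with h1 | h1
  · obtain ⟨i, -, hi⟩ := (hl.prime.dvd_finsetProd_iff _).1 h1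
    exact Or.inl ⟨i, ((Nat.prime_dvd_prime_iff_eq hl (h.pp i)).1 (hl.dvd_of_dvd_pow hi)).symm⟩
  · obtain ⟨i, -, hi⟩ := (hl.prime.dvd_finsetProd_iff _).1 h1
    exact Or.inr ⟨i, ((Nat.prime_dvd_prime_iff_eq hl (h.rp i)).1 (hl.dvd_of_dvd_pow hi)).symm⟩

theorem V_n {n m k : ℕ} {π : Fin m → PP} {p e : Fin m → ℕ} {r f : Fin k → ℕ}
    (h : NF n π p e r f) {ρ : Eis} (i0 : Fin m) (hρ : Prime ρ) (hnorm : ρ.norm = p i0)
    (hn : (p i0 : Eis) = ρ * conj ρ) (hna : ¬ Associated ρ (conj ρ)) : V ρ (n : Eis) = e i0 := by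
  classical
  set M : ℕ := (∏ i ∈ Finset.univ.erase i0, p i ^ e i) * ∏ j, r j ^ f j with hM
  have hnM : n = p i0 ^ e i0 * M := by
    rw [h.eq, hM, ← mul_assoc, Finset.mul_prod_erase Finset.univ (fun i => p i ^ e i)
      (Finset.mem_univ i0)]
  have hMd : ¬ ρ ∣ (M : Eis) := by
    intro hd
    have h1 : ρ ∣ ((M : ℤ) : Eis) := by
      rw [Int.cast_natCast]
      exact hd
    have h2 := dvd_int (h.pp i0) hnorm h1
    have h3 : p i0 ∣ M := by exact_mod_cast h2
    have hl := h.pp i0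
    rcases hl.dvd_mul.1 h3 with h4 | h4
    · obtain ⟨i, hi, hi'⟩ := (hl.prime.dvd_finsetProd_iff _).1 h4
      have h5 := (Nat.prime_dvd_prime_iff_eq hl (h.pp i)).1 (hl.dvd_of_dvd_pow hi')
      exact (Finset.ne_of_mem_erase hi) (h.pinj h5).symm
    · obtain ⟨i, -, hi'⟩ := (hl.prime.dvd_finsetProd_iff _).1 h4
      have h5 := (Nat.prime_dvd_prime_iff_eq hl (h.rp i)).1 (hl.dvd_of_dvd_pow hi')
      have h6 := h.p1 i0
      have h7 := h.r2 i
      omega
  have hM0 : (M : Eis) ≠ 0 := by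
    intro h0
    rw [h0] at hMd
    exact hMd (dvd_zero _)
  have hp0 : (p i0 : Eis) ≠ 0 := by
    rw [hn]
    exact mul_ne_zero hρ.ne_zero (prime_conj hρ).ne_zero
  rw [hnM, Nat.cast_mul, Nat.cast_pow, V_mul hρ (pow_ne_zero _ hp0) hM0, V_pow hρ hp0,
    V_p hρ hn hna, V_eq_zero hMd]
  ring

theorem sol_swap {b x p q p' q' : ℤ} (h : Sol b x p q p' q') : Sol x b p (-p') (-q) q' := by
  have h1 := h.eq
  have h2 := h.n1
  have h3 := h.n2
  refine ⟨⟨?_, ?_⟩, ?_⟩
  · linear_combination h1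
  · intro h0
    apply h3
    linear_combination h0
  · intro h0
    apply h2
    linear_combination h0

theorem cube_of {x u v : ℤ} (hv : v ≠ 0) (h : u ^ 3 = x * v ^ 3) : ∃ t : ℤ, t ^ 3 = x := by
  have h1 : v ^ 3 ∣ u ^ 3 := ⟨x, by rw [h]; ring⟩
  have h2 : v ∣ u := (Int.pow_dvd_pow_iff (by norm_num)).1 h1
  obtain ⟨t, rfl⟩ := h2
  refine ⟨t, ?_⟩
  have h3 : v ^ 3 ≠ 0 := pow_ne_zero _ hv
  apply mul_left_cancel₀ h3
  linear_combination h

theorem sol_of {b x p q p' q' : ℤ} (h : SolW b x p q p' q') (hb : b ≠ 0)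
    (hx : ¬ ∃ t : ℤ, t ^ 3 = x) : Sol b x p q p' q' := by
  refine ⟨h, ?_⟩
  intro h0
  by_cases hp' : p' = 0
  · subst hp'
    have hp : p ^ 3 = 0 := by linear_combination h0
    have h1 : q ^ 3 = x * q' ^ 3 := by
      apply mul_left_cancel₀ hb
      linear_combination h.eq - hp
    have hq' : q' ≠ 0 := by
      rintro rfl
      apply h.n1
      have h2 : q ^ 3 = 0 := by linear_combination h1
      rw [hp, h2]
      ring
    exact hx (cube_of hq' h1)
  · exact hx (cube_of (u := p) hp' (by linear_combination h0))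

/-- the symbols of two admissible classes -/
theorem tm_zero (hSPP : SPP) (hSCJ : SCJ) {n m k : ℕ} {π : Fin m → PP} {p e : Fin m → ℕ}
    {r f : Fin k → ℕ} {w0 : ZMod 3} {c : Fin m → ZMod 3} (h : NF n π p e r f) {x y : ℤ}
    (hx : AdmC n π w0 c x) (hy : AdmC n π w0 c y) (ρ : PP) :
    tm ρ.1 (x : Eis) (y : Eis) = 0 := by
  obtain ⟨-, hS2, -, hS4, -, hS6⟩ := hSPP
  obtain ⟨hC1, -, -, hC4⟩ := hSCJ
  obtain ⟨l, hl, ⟨hl3, hρ⟩ | ⟨hl3, hnorm, hn, hna⟩⟩ := hS6 ρ
  · rw [hρ]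
    exact hC4 l hl hl3 x y hx.ne hy.ne
  by_cases hln : l ∣ n
  · rcases prime_cases h hl hln with ⟨i, rfl⟩ | ⟨j, rfl⟩
    · -- the key computation
      have key : ∀ σ : PP, σ = π i → σ.1.norm = p i → (p i : Eis) = σ.1 * conj σ.1 →
          ¬ Associated σ.1 (conj σ.1) → tm σ.1 (x : Eis) (y : Eis) = 0 := by
        intro σ hσ h1 h2 h3
        have hV := V_n h i σ.2.1 h1 h2 h3
        have e1 := hx.sym i
        have e2 := hy.sym i
        rw [← hσ, hV] at e1 e2
        have h4 : (e i : ZMod 3) * tm σ.1 (x : Eis) (y : Eis) = 0 := by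
          unfold tm
          linear_combination (V σ.1 (y : Eis) : ZMod 3) * e1 - (V σ.1 (x : Eis) : ZMod 3) * e2
        rcases h.pe i with h5 | h5
        · rw [h5] at h4
          simpa using h4
        · rw [h5] at h4
          generalize tm σ.1 (x : Eis) (y : Eis) = z at h4
          revert z
          decide
      have hd : ρ.1 ∣ (π i).1 * conj (π i).1 := by
        rw [← h.pπ i, hn]
        exact Dvd.intro _ rfl
      rcases ρ.2.1.dvd_or_dvd hd with h1 | h1
      · have h2 := hS2 ρ (π i) ((ρ.2.1.dvd_prime_iff_associated (π i).2.1).1 h1)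
        exact key ρ h2 hnorm hn hna
      · obtain ⟨σ, hσ⟩ := (hS4 (π i)).2
        have h2 : ρ = σ := by
          apply hS2
          rw [hσ]
          exact (ρ.2.1.dvd_prime_iff_associated (prime_conj (π i).2.1)).1 h1
        have h3 : (π i).1 = conj ρ.1 := by rw [h2, hσ, conj_conj]
        have h4 := key (π i) rfl (by rw [h3, norm_conj, hnorm])
          (by rw [h3, conj_conj, mul_comm, ← hn])
          (by
            rw [h3, conj_conj]
            exact fun h => hna h.symm)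
        have h5 : ¬ (π i).1 ∣ 3 := (hS4 (π i)).1
        have h6 := hC1 (π i).1 (x : Eis) (y : Eis) (π i).2.1 h5 (cast_ne hx.ne) (cast_ne hy.ne)
        rw [h4, neg_zero, conj_intCast, conj_intCast, h3, conj_conj] at h6
        exact h6
    · have := h.r2 j
      omega
  · have hnd : ∀ z : ℤ, AdmC n π w0 c z → V ρ.1 (z : Eis) = 0 := by
      intro z hz
      apply V_eq_zero
      intro hd
      exact hln (hz.supp l hl (dvd_int hl hnorm hd))
    unfold tm
    rw [hnd x hx, hnd y hy]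
    simp

end ESYS

open _root_.Pool.Agent.PT.ESYS in
theorem ESYS_thm (hSTM : STM) (hSPP : SPP) (hSCJ : SCJ) (hHN : HN) : ESYS := by
  classical
  intro n m k π p e r f w0 c s b hNF hA hV hind hC9
  have hnc : ∀ i, ¬ ∃ t : ℤ, t ^ 3 = b i := by
    intro i
    have := hind (fun j => if j = i then 1 else 0) ⟨i, by simp⟩
    simpa [Finset.prod_ite_eq'] using this
  have hex : ∀ j i : Fin s, ∃ P Q P' Q' : ℤ, Sol (b j) (b i) P Q P' Q' := by
    intro j i
    obtain ⟨P, Q, P', Q', h⟩ := hHN (b j) (b i) (hA j).ne (hA j).three (hnc j) (hV j) (hA i).ne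
      (hA i).three (fun ρ => tm_zero hSPP hSCJ hNF (hA j) (hA i) ρ)
    exact ⟨P, Q, P', Q', sol_of h (hA j).ne (hnc i)⟩
  choose P Q P' Q' hsol using hex
  refine ⟨fun j i => if j < i then P j i else P i j, fun j i => if j < i then Q j i else - P' i j,
    fun j i => if j < i then P' j i else - Q i j, fun j i => if j < i then Q' j i else Q' i j,
    hind, hC9, ?_, ?_⟩
  · intro j i hji
    rcases lt_or_gt_of_ne hji with h | h
    · simp only [h, if_true]
      exact hsol j i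
    · simp only [not_lt_of_gt h, if_false]
      exact sol_swap (hsol i j)
  · intro j i hji
    rcases lt_or_gt_of_ne hji with h | h
    · simp [h, not_lt_of_gt h]
    · simp [h, not_lt_of_gt h]

end Pool.Agent.PT


end

section

/-!
# Module F6R: the local term of a point at a tame place where `x` has valuation prime to `3`
-/

namespace Pool.Agent.PT

open Pool.Agent.Lib_helper18 Pool.Agent.Lib_helper18.Eis Pool.Agent.Lib_helper84.Cub

namespace F6R

variable {π : Eis} {s : Eis → Eis → ZMod 3}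

theorem three_smul_zmod (a : ZMod 3) : a + a + a = 0 := by
  revert a; decide

/-- The dominating term determines the symbol. -/
theorem dom (L : LSym π s 1) {a d c : Eis} (ha : a ≠ 0) (hc : c ≠ 0)
    (hd : d = 0 ∨ V π a < V π d) : s (a + d) c = s a c := by
  apply L.cont a (a + d) c ha hc
  have h1 : a + d - a = d := by ring
  rw [h1]
  rcases hd with rfl | hd
  · exact dvd_zero _
  · exact (pow_dvd_pow π hd).trans (pow_multiplicity_dvd π d)

/-- The dominating term determines the valuation. -/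
theorem V_dom (L : LSym π s 1) {a d : Eis} (ha : a ≠ 0) (hd : d = 0 ∨ V π a < V π d) :
    V π (a + d) = V π a := by
  rcases hd with rfl | hd
  · rw [add_zero]
  · rw [add_comm]
    exact (fin L.prime ha).multiplicity_add_of_gt hd

theorem cube_left (L : LSym π s 1) {a c : Eis} (ha : a ≠ 0) (hc : c ≠ 0) : s (a ^ 3) c = 0 := by
  have h1 : a ^ 3 = a * a * a := by ring
  rw [h1, L.mul _ _ _ (mul_ne_zero ha ha) ha hc, L.mul _ _ _ ha ha hc]
  exact three_smul_zmod _

theorem neg_left (L : LSym π s 1) {a c : Eis} (ha : a ≠ 0) (hc : c ≠ 0) : s (-a) c = s a c := by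
  have h1 : -a = (-1) ^ 3 * a := by ring
  have h2 : ((-1 : Eis)) ≠ 0 := neg_ne_zero.mpr one_ne_zero
  rw [h1, L.mul _ _ _ (pow_ne_zero _ h2) ha hc, cube_left L h2 hc, zero_add]

theorem neg_right (L : LSym π s 1) {a c : Eis} (ha : a ≠ 0) (hc : c ≠ 0) : s c (-a) = s c a := by
  rw [L.skew _ _ (neg_ne_zero.mpr ha) hc, neg_left L ha hc, ← L.skew _ _ ha hc]

theorem V_w (hπ : Prime π) (i : ℕ) {y : Eis} (hy : y ≠ 0) : V π (w ^ i * y) = V π y := by
  apply V_mul_not_dvd hπ _ hy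
  intro h
  exact not_dvd_w hπ (hπ.dvd_of_dvd_pow h)

theorem w_ne : (w : Eis) ≠ 0 := by
  intro h
  have := congrArg Eis.im h
  simp at this

theorem cast_ne {n : ℤ} (h : n ≠ 0) : (n : Eis) ≠ 0 := by
  intro h'
  apply h
  have := congrArg Eis.re h'
  simpa using this

theorem not_dvd_three (π : PP) : ¬ π.1 ∣ 3 := by
  rintro ⟨c, hc⟩
  obtain ⟨h1, h2, h3⟩ := π.2
  have h4 : (9 : ℤ) = π.1.norm * c.norm := by
    rw [← norm_mul, ← hc]
    decide
  have h5 : π.1.norm % 3 = 1 := by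
    obtain ⟨k, hk⟩ := h3
    rw [norm_def, hk]
    have h6 : π.1.re ^ 2 - π.1.re * (3 * k) + (3 * k) ^ 2 =
        π.1.re * π.1.re + 3 * (3 * k ^ 2 - π.1.re * k) := by ring
    rw [h6, Int.add_mul_emod_self_left, Int.mul_emod, h2]
    norm_num
  have h6 : 0 < π.1.norm := norm_pos h1.ne_zero
  have h7 : π.1.norm ∣ 9 := ⟨_, h4⟩
  have h8 : π.1.norm ≤ 9 := Int.le_of_dvd (by norm_num) h7
  apply h1.not_isUnit
  rw [isUnit_iff_norm]
  generalize π.1.norm = t at *
  interval_cases t <;> omega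

/-- `v ^ 3` dominates in `v ^ 3 - x u ^ 3`. -/
def DA (π : Eis) (x u v : ℤ) : Prop :=
  v ≠ 0 ∧ (u = 0 ∨ 3 * V π (v : Eis) < V π (x : Eis) + 3 * V π (u : Eis))

/-- `x u ^ 3` dominates in `v ^ 3 - x u ^ 3`. -/
def DB (π : Eis) (x u v : ℤ) : Prop :=
  u ≠ 0 ∧ (v = 0 ∨ V π (x : Eis) + 3 * V π (u : Eis) < 3 * V π (v : Eis))

theorem cases_uv {x u v : ℤ} (h3 : ¬ 3 ∣ V π (x : Eis)) (huv : ¬ (u = 0 ∧ v = 0)) :
    DA π x u v ∨ DB π x u v := by
  by_cases hu : u = 0
  · left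
    exact ⟨fun hv => huv ⟨hu, hv⟩, Or.inl hu⟩
  · by_cases hv : v = 0
    · right
      exact ⟨hu, Or.inl hv⟩
    · rcases lt_trichotomy (3 * V π (v : Eis)) (V π (x : Eis) + 3 * V π (u : Eis)) with h | h | h
      · left
        exact ⟨hv, Or.inr h⟩
      · exfalso
        apply h3
        omega
      · right
        exact ⟨hu, Or.inr h⟩

theorem V_xu (hπ : Prime π) {x u : ℤ} (hx : x ≠ 0) (hu : u ≠ 0) :
    V π ((x : Eis) * (u : Eis) ^ 3) = V π (x : Eis) + 3 * V π (u : Eis) := by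
  rw [V_mul hπ (cast_ne hx) (pow_ne_zero _ (cast_ne hu)), V_pow hπ (cast_ne hu)]

/-- the symbol when `v ^ 3` dominates -/
theorem sym_DA (L : LSym π s 1) {x u v : ℤ} (hx : x ≠ 0) (h : DA π x u v) {D : Eis}
    (hD : D ≠ 0) (hM : v ^ 3 - x * u ^ 3 ≠ 0) : s D ((v ^ 3 - x * u ^ 3 : ℤ) : Eis) = 0 := by
  have h1 : ((v ^ 3 - x * u ^ 3 : ℤ) : Eis) = (v : Eis) ^ 3 + -((x : Eis) * (u : Eis) ^ 3) := by
    push_cast
    ring
  have hv := cast_ne h.1
  rw [L.skew _ _ (cast_ne hM) hD, h1, dom L (pow_ne_zero _ hv) hD, cube_left L hv hD, neg_zero]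
  rcases h.2 with rfl | h2
  · left
    push_cast
    ring
  · by_cases hu : u = 0
    · left
      rw [hu]
      push_cast
      ring
    · right
      rw [V_neg, V_xu L.prime hx hu, V_pow L.prime hv]
      exact h2

/-- the symbol when `x u ^ 3` dominates -/
theorem sym_DB (L : LSym π s 1) {x u v : ℤ} (hx : x ≠ 0) (h : DB π x u v) {D : Eis}
    (hD : D ≠ 0) (hM : v ^ 3 - x * u ^ 3 ≠ 0) :
    s D ((v ^ 3 - x * u ^ 3 : ℤ) : Eis) = s D (x : Eis) := by
  have h1 : ((v ^ 3 - x * u ^ 3 : ℤ) : Eis) = -((x : Eis) * (u : Eis) ^ 3) + (v : Eis) ^ 3 := by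
    push_cast
    ring
  have hu := cast_ne h.1
  have hx' := cast_ne hx
  have hxu : (x : Eis) * (u : Eis) ^ 3 ≠ 0 := mul_ne_zero hx' (pow_ne_zero _ hu)
  rw [L.skew _ _ (cast_ne hM) hD, h1, dom L (neg_ne_zero.mpr hxu) hD, neg_left L hxu hD,
    L.mul _ _ _ hx' (pow_ne_zero _ hu) hD, cube_left L hu hD, add_zero, ← L.skew _ _ hx' hD]
  rcases h.2 with hv | h2
  · left
    rw [hv]
    push_cast
    ring
  · by_cases hv : v = 0
    · left
      rw [hv]
      push_cast
      ring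
    · right
      rw [V_neg, V_xu L.prime hx h.1, V_pow L.prime (cast_ne hv)]
      exact h2

theorem Df_ne {X Y u v : ℤ} (hX : X ≠ 0) (hY : Y ≠ 0) (huv : ¬ (u = 0 ∧ v = 0)) :
    Df X Y u v 1 ≠ 0 ∧ Df X Y u v 2 ≠ 0 := by
  constructor
  · intro h
    have h1 := congrArg Eis.re h
    have h2 := congrArg Eis.im h
    simp [Df] at h1 h2
    apply huv
    constructor
    · rcases h1 with h1 | h1
      · exact absurd h1 hX
      · exact h1
    · rcases h2 with h2 | h2
      · exact h2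
      · exact absurd h2 hY
  · intro h
    have h1 := congrArg Eis.re h
    have h2 := congrArg Eis.im h
    simp [Df, w_sq] at h1 h2
    apply huv
    have hv : v = 0 := by
      rcases h2 with h2 | h2
      · exact h2
      · exact absurd h2 hY
    rw [hv] at h1
    simp at h1
    refine ⟨?_, hv⟩
    rcases h1 with h1 | h1
    · exact absurd h1 hX
    · exact h1

/-- one half of `SV` -/
def half (s : Eis → Eis → ZMod 3) (X Y u v M n : ℤ) : ZMod 3 :=
  s (Df X Y u v 1) (M : Eis) - s (Df X Y u v 2) (M : Eis) - s (Df X Y u v 1) (n : Eis) +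
    s (Df X Y u v 2) (n : Eis)

theorem V_mul' (hπ : Prime π) {u v : ℤ} (hu : u ≠ 0) (hv : v ≠ 0) :
    V π ((u : Eis) * (v : Eis)) = V π (u : Eis) + V π (v : Eis) :=
  V_mul hπ (cast_ne hu) (cast_ne hv)

theorem n_eq (x X Y : ℤ) : ((X ^ 3 + x * Y ^ 3 : ℤ) : Eis) =
    (X : Eis) ^ 3 + (x : Eis) * (Y : Eis) ^ 3 := by
  push_cast
  ring

theorem n_eq' (x X Y : ℤ) : ((X ^ 3 + x * Y ^ 3 : ℤ) : Eis) =
    (x : Eis) * (Y : Eis) ^ 3 + (X : Eis) ^ 3 := by
  push_cast
  ring

/-- Case A: `X ^ 3` dominates in `n₀`. -/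
theorem half_caseA (L : LSym π s 1) {x X Y u v M : ℤ} (hx : x ≠ 0) (hX : X ≠ 0) (hY : Y ≠ 0)
    (h3 : ¬ 3 ∣ V π (x : Eis)) (hM : v ^ 3 - x * u ^ 3 ≠ 0)
    (hMs : M = v ^ 3 - x * u ^ 3 ∨ M = -(v ^ 3 - x * u ^ 3))
    (hA : 3 * V π (X : Eis) < V π (x : Eis) + 3 * V π (Y : Eis))
    (hn : X ^ 3 + x * Y ^ 3 ≠ 0) : half s X Y u v M (X ^ 3 + x * Y ^ 3) = 0 := by
  have huv : ¬ (u = 0 ∧ v = 0) := by
    rintro ⟨rfl, rfl⟩
    apply hM
    ring
  obtain ⟨hD1, hD2⟩ := Df_ne hX hY huv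
  have hMM : ∀ D : Eis, D ≠ 0 → s D (M : Eis) = s D ((v ^ 3 - x * u ^ 3 : ℤ) : Eis) := by
    intro D hD
    rcases hMs with rfl | rfl
    · rfl
    · rw [Int.cast_neg]
      exact neg_right L (cast_ne hM) hD
  have hn0 : ∀ D : Eis, D ≠ 0 → s D ((X ^ 3 + x * Y ^ 3 : ℤ) : Eis) = 0 := by
    intro D hD
    have hX' := cast_ne hX
    rw [L.skew _ _ (cast_ne hn) hD, n_eq, dom L (pow_ne_zero _ hX') hD, cube_left L hX' hD,
      neg_zero]
    right
    rw [V_pow L.prime hX', V_xu L.prime hx hY]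
    exact hA
  unfold half
  rw [hn0 _ hD1, hn0 _ hD2, hMM _ hD1, hMM _ hD2]
  rcases cases_uv h3 huv with h | h
  · rw [sym_DA L hx h hD1 hM, sym_DA L hx h hD2 hM]
    ring
  · rw [sym_DB L hx h hD1 hM, sym_DB L hx h hD2 hM]
    have hu := h.1
    have hXu : (X : Eis) * (u : Eis) ≠ 0 := mul_ne_zero (cast_ne hX) (cast_ne hu)
    have hs : ∀ i : ℕ, s (Df X Y u v i) (x : Eis) = s ((X : Eis) * (u : Eis)) (x : Eis) := by
      intro i
      unfold Df
      apply dom L hXu (cast_ne hx)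
      rcases h.2 with hv | h2
      · left
        rw [hv]
        push_cast
        ring
      · by_cases hv : v = 0
        · left
          rw [hv]
          push_cast
          ring
        · right
          rw [mul_assoc, V_w L.prime i (mul_ne_zero (cast_ne hv) (cast_ne hY)),
            V_mul' L.prime hX hu, V_mul' L.prime hv hY]
          omega
    rw [hs 1, hs 2]
    ring

/-- Case B: `x Y ^ 3` dominates in `n₀`. -/
theorem half_caseB (L : LSym π s 1) {x X Y u v M : ℤ} (hx : x ≠ 0) (hX : X ≠ 0) (hY : Y ≠ 0)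
    (hM : v ^ 3 - x * u ^ 3 ≠ 0)
    (hMs : M = v ^ 3 - x * u ^ 3 ∨ M = -(v ^ 3 - x * u ^ 3))
    (hB : V π (x : Eis) + 3 * V π (Y : Eis) < 3 * V π (X : Eis))
    (hn : X ^ 3 + x * Y ^ 3 ≠ 0) :
    (DA π x u v → half s X Y u v M (X ^ 3 + x * Y ^ 3) = s w (x : Eis)) ∧
    (DB π x u v → half s X Y u v M (X ^ 3 + x * Y ^ 3) = 0) := by
  have huv : ¬ (u = 0 ∧ v = 0) := by
    rintro ⟨rfl, rfl⟩
    apply hM
    ring
  obtain ⟨hD1, hD2⟩ := Df_ne hX hY huv
  have hx' := cast_ne hx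
  have hY' := cast_ne hY
  have hMM : ∀ D : Eis, D ≠ 0 → s D (M : Eis) = s D ((v ^ 3 - x * u ^ 3 : ℤ) : Eis) := by
    intro D hD
    rcases hMs with rfl | rfl
    · rfl
    · rw [Int.cast_neg]
      exact neg_right L (cast_ne hM) hD
  have hn0 : ∀ D : Eis, D ≠ 0 → s D ((X ^ 3 + x * Y ^ 3 : ℤ) : Eis) = s D (x : Eis) := by
    intro D hD
    have hxY : (x : Eis) * (Y : Eis) ^ 3 ≠ 0 := mul_ne_zero hx' (pow_ne_zero _ hY')
    rw [L.skew _ _ (cast_ne hn) hD, n_eq', dom L hxY hD, L.mul _ _ _ hx' (pow_ne_zero _ hY') hD,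
      cube_left L hY' hD, add_zero, ← L.skew _ _ hx' hD]
    right
    rw [V_pow L.prime (cast_ne hX), V_xu L.prime hx hY]
    exact hB
  unfold half
  rw [hn0 _ hD1, hn0 _ hD2, hMM _ hD1, hMM _ hD2]
  constructor
  · intro h
    rw [sym_DA L hx h hD1 hM, sym_DA L hx h hD2 hM]
    have hv := h.1
    have hv' := cast_ne hv
    have hw : ∀ i : ℕ, (w : Eis) ^ i ≠ 0 := fun i => pow_ne_zero _ w_ne
    have hs : ∀ i : ℕ, s (Df X Y u v i) (x : Eis) =
        s (w ^ i) (x : Eis) + s (v : Eis) (x : Eis) + s (Y : Eis) (x : Eis) := by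
      intro i
      have h1 : Df X Y u v i = w ^ i * (v : Eis) * (Y : Eis) + (X : Eis) * (u : Eis) := by
        unfold Df
        ring
      rw [h1, dom L (mul_ne_zero (mul_ne_zero (hw i) hv') hY') hx',
        L.mul _ _ _ (mul_ne_zero (hw i) hv') hY' hx', L.mul _ _ _ (hw i) hv' hx']
      rcases h.2 with hu | h2
      · left
        rw [hu]
        push_cast
        ring
      · by_cases hu : u = 0
        · left
          rw [hu]
          push_cast
          ring
        · right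
          rw [mul_assoc, V_w L.prime i (mul_ne_zero hv' hY'),
            V_mul' L.prime hX hu, V_mul' L.prime hv hY]
          omega
    have hw1 : s ((w : Eis) ^ 1) (x : Eis) = s w (x : Eis) := by rw [pow_one]
    have hw2 : s ((w : Eis) ^ 2) (x : Eis) = s w (x : Eis) + s w (x : Eis) := by
      rw [pow_two, L.mul _ _ _ w_ne w_ne hx']
    rw [hs 1, hs 2, hw1, hw2]
    ring
  · intro h
    rw [sym_DB L hx h hD1 hM, sym_DB L hx h hD2 hM]
    ring

end F6R

theorem F6R_thm (hSTM : STM) : F6R := by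
  intro π b x p q p' q' X Y hb hx hSol hX hY h3
  have hSPPp : Prime π.1 := π.2.1
  have hπ3 : ¬ π.1 ∣ 3 := F6R.not_dvd_three π
  have L : LSym π.1 (tm π.1) 1 := hSTM π.1 hSPPp hπ3
  set s := tm π.1 with hs
  have hN1 := hSol.n2
  have hbN : b * (x * q' ^ 3 - q ^ 3) = p ^ 3 - x * p' ^ 3 := by
    have h1 := hSol.eq
    linear_combination -h1
  have hN2 : x * q' ^ 3 - q ^ 3 ≠ 0 := by
    intro h
    apply hN1
    rw [← hbN, h, mul_zero]
  have hN2' : q ^ 3 - x * q' ^ 3 ≠ 0 := by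
    intro h
    apply hN2
    linear_combination -h
  have hn : X ^ 3 + x * Y ^ 3 ≠ 0 := by
    intro h
    apply h3
    have h1 : (X : Eis) ^ 3 = -((x : Eis) * (Y : Eis) ^ 3) := by
      have h2 : ((X ^ 3 + x * Y ^ 3 : ℤ) : Eis) = ((0 : ℤ) : Eis) := by rw [h]
      push_cast at h2
      linear_combination h2
    have h2 := congrArg (V π.1) h1
    rw [V_neg, V_pow L.prime (F6R.cast_ne hX), F6R.V_xu L.prime hx hY] at h2
    omega
  have hSV : SV s x p q p' q' X Y =
      F6R.half s X Y p' p (p ^ 3 - x * p' ^ 3) (X ^ 3 + x * Y ^ 3) -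
        F6R.half s X Y q' q (x * q' ^ 3 - q ^ 3) (X ^ 3 + x * Y ^ 3) := rfl
  have hX' := F6R.cast_ne hX
  have hY' := F6R.cast_ne hY
  have hx' := F6R.cast_ne hx
  have hb' := F6R.cast_ne hb
  have hxY : (x : Eis) * (Y : Eis) ^ 3 ≠ 0 := mul_ne_zero hx' (pow_ne_zero _ hY')
  rcases lt_trichotomy (3 * V π.1 (X : Eis)) (V π.1 (x : Eis) + 3 * V π.1 (Y : Eis)) with
    hA | hE | hB
  · -- case A
    have hV : V π.1 ((X ^ 3 + x * Y ^ 3 : ℤ) : Eis) = 3 * V π.1 (X : Eis) := by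
      rw [F6R.n_eq, F6R.V_dom L (pow_ne_zero _ hX'), V_pow L.prime hX']
      right
      rw [V_pow L.prime hX', F6R.V_xu L.prime hx hY]
      exact hA
    refine ⟨fun _ => ?_, fun h => absurd (by rw [hV]; exact dvd_mul_right 3 _) h⟩
    rw [hSV, F6R.half_caseA L hx hX hY h3 hN1 (Or.inl rfl) hA hn,
      F6R.half_caseA L hx hX hY h3 hN2' (Or.inr (by ring)) hA hn, sub_zero]
  · exfalso
    apply h3
    omega
  · -- case B
    have hV : V π.1 ((X ^ 3 + x * Y ^ 3 : ℤ) : Eis) =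
        V π.1 (x : Eis) + 3 * V π.1 (Y : Eis) := by
      rw [F6R.n_eq', F6R.V_dom L hxY, F6R.V_xu L.prime hx hY]
      right
      rw [V_pow L.prime hX', F6R.V_xu L.prime hx hY]
      exact hB
    refine ⟨fun h => absurd ?_ h3, fun _ => ?_⟩
    · rw [hV] at h
      exact (Nat.dvd_add_left (dvd_mul_right 3 _)).mp h
    · have huv1 : ¬ (p' = 0 ∧ p = 0) := by
        rintro ⟨rfl, rfl⟩
        apply hN1
        ring
      have huv2 : ¬ (q' = 0 ∧ q = 0) := by
        rintro ⟨rfl, rfl⟩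
        apply hN2
        ring
      obtain ⟨a1, a2⟩ := F6R.half_caseB L hx hX hY hN1 (Or.inl rfl) hB hn
      obtain ⟨b1, b2⟩ := F6R.half_caseB L hx hX hY hN2'
        (M := x * q' ^ 3 - q ^ 3) (Or.inr (by ring)) hB hn
      have hwb : s w (b : Eis) = s w ((p ^ 3 - x * p' ^ 3 : ℤ) : Eis) -
          s w ((q ^ 3 - x * q' ^ 3 : ℤ) : Eis) := by
        have h1 : ((p ^ 3 - x * p' ^ 3 : ℤ) : Eis) =
            -((b : Eis) * ((q ^ 3 - x * q' ^ 3 : ℤ) : Eis)) := by
          rw [← hbN]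
          push_cast
          ring
        have hN' := F6R.cast_ne hN2'
        rw [h1, F6R.neg_right L (mul_ne_zero hb' hN') F6R.w_ne,
          L.skew _ _ (mul_ne_zero hb' hN') F6R.w_ne, L.mul _ _ _ hb' hN' F6R.w_ne,
          L.skew w _ F6R.w_ne hb', L.skew w _ F6R.w_ne hN']
        ring
      rw [hSV, hwb]
      rcases F6R.cases_uv h3 huv1 with h | h
      · rcases F6R.cases_uv h3 huv2 with h' | h'
        · rw [a1 h, b1 h', F6R.sym_DA L hx h F6R.w_ne hN1, F6R.sym_DA L hx h' F6R.w_ne hN2']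
          ring
        · rw [a1 h, b2 h', F6R.sym_DA L hx h F6R.w_ne hN1, F6R.sym_DB L hx h' F6R.w_ne hN2']
          ring
      · rcases F6R.cases_uv h3 huv2 with h' | h'
        · rw [a2 h, b1 h', F6R.sym_DB L hx h F6R.w_ne hN1, F6R.sym_DA L hx h' F6R.w_ne hN2']
          ring
        · rw [a2 h, b2 h', F6R.sym_DB L hx h F6R.w_ne hN1, F6R.sym_DB L hx h' F6R.w_ne hN2']
          ring

end Pool.Agent.PT


end

section

/-!
# Prime twists of rank zero: the theorem for numbers in normal form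
-/

set_option autoImplicit false

open NumberField IsDedekindDomain Finset
open scoped nonZeroDivisors Pointwise

namespace Pool.Agent.PT

open Pool.Agent.Lib_helper18 Pool.Agent.Lib_helper18.Eis Pool.Agent.Lib_helper84.Cub

namespace FINA

theorem pos_of_nf {n m k : ℕ} {π : Fin m → PP} {p e : Fin m → ℕ} {r f : Fin k → ℕ}
    (h : NF n π p e r f) : 0 < n := by
  rw [h.eq]
  exact Nat.mul_pos (Finset.prod_pos fun i _ => pow_pos (h.pp i).pos _)
    (Finset.prod_pos fun j _ => pow_pos (h.rp j).pos _)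

theorem three_of_nf {n m k : ℕ} {π : Fin m → PP} {p e : Fin m → ℕ} {r f : Fin k → ℕ}
    (h : NF n π p e r f) : ¬ 3 ∣ n := by
  rw [h.eq]
  intro h0
  rcases (Nat.prime_three.dvd_mul).1 h0 with h1 | h1
  · obtain ⟨i, _, hi⟩ := (Nat.prime_three.prime.dvd_finsetProd_iff _).1 h1
    have h2 := Nat.prime_three.dvd_of_dvd_pow hi
    have h3 := h.p1 i
    omega
  · obtain ⟨i, _, hi⟩ := (Nat.prime_three.prime.dvd_finsetProd_iff _).1 h1
    have h2 := Nat.prime_three.dvd_of_dvd_pow hi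
    have h3 := h.r2 i
    omega

/-- The homomorphism with given components. -/
def assemble {s F : ℕ} (Φ : Fin s → Fin s → ((ZMod F)ˣ →* Multiplicative (ZMod 3))) :
    (ZMod F)ˣ →* Multiplicative (Fin s → Fin s → ZMod 3) where
  toFun := fun a => Multiplicative.ofAdd fun j i => (Φ j i a).toAdd
  map_one' := by
    apply Multiplicative.toAdd.injective
    funext j i
    simp
  map_mul' := fun a a' => by
    apply Multiplicative.toAdd.injective
    funext j i
    simp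

theorem assemble_apply {s F : ℕ} (Φ : Fin s → Fin s → ((ZMod F)ˣ →* Multiplicative (ZMod 3)))
    (a : (ZMod F)ˣ) (j i : Fin s) : (assemble Φ a).toAdd j i = (Φ j i a).toAdd := rfl

end FINA

/-- The theorem for numbers in normal form. -/
theorem FINA_thm (hSPP : SPP) (hECL : ECL) (hDCONST : DCONST) (hCLSC : CLSC) (hDENS : DENS)
    (hTEND : TEND) : FINA := by
  intro n m k π p e r f hNF hk
  obtain ⟨w0, c, s, b, P, Q, P', Q', hs, hadm, hsys, hq⟩ := hECL n m k π p e r f hNF hk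
  have hn : 0 < n := FINA.pos_of_nf hNF
  have h3 : ¬ 3 ∣ n := FINA.three_of_nf hNF
  have hD : ∀ j i : Fin s, ∃ f₀ : ℕ, 0 < f₀ ∧ ∀ F : ℕ, 0 < F → f₀ ∣ F →
      ∃ (C : ZMod 3) (Φ : (ZMod F)ˣ →* Multiplicative (ZMod 3)) (N₀ : ℕ), j ≠ i →
        ∀ (q : ℕ) (hQ : q.Coprime F), q.Prime → N₀ < q → q % 3 = 2 → BOk ((n : ℤ) * q) →
          Adm ((n : ℤ) * q) (b j) → Adm ((n : ℤ) * q) (b i) → ∀ t : ℤ, (q : ℤ) ∣ t ^ 3 - b j →
          OO ((n : ℤ) * q) (b j) (b i) (P j i) (Q j i) (P' j i) (Q' j i) =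
            C + (Φ (ZMod.unitOfCoprime q hQ)).toAdd -
              TAUV q (P j i) (Q j i) (P' j i) (Q' j i) t := by
    intro j i
    by_cases hji : j = i
    · exact ⟨1, one_pos, fun F _ _ => ⟨0, 1, 0, fun h => absurd hji h⟩⟩
    · obtain ⟨f₀, hf₀, h⟩ := hDCONST n (b j) (b i) (P j i) (Q j i) (P' j i) (Q' j i) hn h3
        (hsys.sol j i hji) (hadm j).ne (hadm i).ne
      refine ⟨f₀, hf₀, fun F hF hd => ?_⟩
      obtain ⟨C, Φ, N₀, h'⟩ := h F hF hd
      exact ⟨C, Φ, N₀, fun _ => h'⟩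
  choose f₀ hf₀ hD1 using hD
  obtain ⟨F, hF, h9, hpF, hfF⟩ : ∃ F : ℕ, 0 < F ∧ 9 ∣ F ∧ (∀ i, p i ∣ F) ∧ ∀ j i, f₀ j i ∣ F := by
    refine ⟨9 * (∏ i, p i) * ∏ j, ∏ i, f₀ j i, ?_, ?_, ?_, ?_⟩
    · have h1 : 0 < ∏ i, p i := Finset.prod_pos fun i _ => (hNF.pp i).pos
      have h2 : 0 < ∏ j, ∏ i, f₀ j i :=
        Finset.prod_pos fun j _ => Finset.prod_pos fun i _ => hf₀ j i
      positivity
    · exact Dvd.dvd.mul_right (Dvd.intro _ rfl) _
    · intro i
      exact Dvd.dvd.mul_right (Dvd.dvd.mul_left (Finset.dvd_prod_of_mem p (mem_univ i)) _) _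
    · intro j i
      exact Dvd.dvd.mul_left ((Finset.dvd_prod_of_mem (fun i => f₀ j i) (mem_univ i)).trans
        (Finset.dvd_prod_of_mem (fun j => ∏ i, f₀ j i) (mem_univ j))) _
  choose C Φ N₀ hD2 using fun j i => hD1 j i F hF (hfF j i)
  obtain ⟨κ, hκ, hcount⟩ := hCLSC m π p hNF.pp hNF.p1 hNF.pπ hNF.pinj F hF h9 hpF
  have hdens := hDENS s b P Q P' Q' F m κ (Fin.cons w0 c) C (FINA.assemble Φ) hsys hs hF h9 hcount
  refine RI.PDGE_thm _ _ (Finset.range (n + 3 + ∑ j, ∑ i, N₀ j i + 1)) _ hdens ?_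
  rintro q ⟨hQ, hq3, hκq, hdet⟩ hqp hqA hXY
  rw [Finset.mem_range, not_lt] at hqA
  have hN : ∀ j i, N₀ j i ≤ ∑ j, ∑ i, N₀ j i := by
    intro j i
    exact (Finset.single_le_sum (f := fun i => N₀ j i) (fun i _ => Nat.zero_le _)
      (mem_univ i)).trans (Finset.single_le_sum (f := fun j => ∑ i, N₀ j i)
        (fun j _ => Nat.zero_le _) (mem_univ j))
  rw [hκ q hQ] at hκq
  have hcl : InCl π w0 c q := by
    refine ⟨hq3, ?_, fun i => ?_⟩
    · have := congrFun hκq 0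
      simpa using this
    · have := congrFun hκq i.succ
      simpa using this
  have hqn : ¬ q ∣ n := fun h => by
    have := Nat.le_of_dvd hn h
    omega
  obtain ⟨hA, hB, hM⟩ := hq q hqp hcl hqn (by omega)
  have hM0 := hM hXY
  have hskew := (hTEND s b P Q P' Q' ((n : ℤ) * q) hsys hB hA).1
  let τ : Fin s → Fin s → ZMod 3 := fun j i =>
    C j i + (Φ j i (ZMod.unitOfCoprime q hQ)).toAdd -
      OO ((n : ℤ) * q) (b j) (b i) (P j i) (Q j i) (P' j i) (Q' j i)
  apply hdet τ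
  · intro j i hji t ht
    have h1 := hD2 j i hji q hQ hqp (by have := hN j i; omega) hq3 hB (hA j) (hA i) t ht
    simp only [τ]
    rw [h1]
    ring
  · rw [← hM0]
    congr 1
    ext j i
    have hv : ∀ j i, (C + (FINA.assemble Φ (ZMod.unitOfCoprime q hQ)).toAdd - τ) j i =
        OO ((n : ℤ) * q) (b j) (b i) (P j i) (Q j i) (P' j i) (Q' j i) := by
      intro j i
      simp only [Pi.sub_apply, Pi.add_apply, τ, FINA.assemble_apply]
      ring
    unfold alt
    rw [hv, hv]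
    by_cases h1 : j < i
    · rw [if_pos h1]
      unfold Mat
      rw [if_neg h1.ne]
    · rw [if_neg h1]
      by_cases h2 : i < j
      · rw [if_pos h2, hskew j i]
        unfold Mat
        rw [if_neg h2.ne]
      · rw [if_neg h2]
        have h3 : j = i := le_antisymm (not_lt.1 h2) (not_lt.1 h1)
        unfold Mat
        rw [if_pos h3]

end Pool.Agent.PT


end

section

/-!
# GT: existence, uniqueness and properties of `t`
-/

set_option autoImplicit false
set_option linter.unusedSectionVars false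

namespace Pool.Agent.PT

open Pool.Agent.Lib_helper18 Pool.Agent.Lib_helper18.Eis Pool.Agent.Lib_helper84.Cub

namespace GT

variable {L : Type} [Field L] [NumberField L] {ω : L}

/-- the powers of `ω` -/
def E (ω : L) (t : ZMod 3) : L := ω ^ t.val

theorem cube_one (rel : ω ^ 2 + ω + 1 = 0) : ω ^ 3 = 1 := by
  linear_combination (ω - 1) * rel

theorem E_pow (rel : ω ^ 2 + ω + 1 = 0) (n : ℕ) : ω ^ n = E ω (n : ZMod 3) := by
  rw [E, ZMod.val_natCast]
  conv_lhs => rw [← Nat.div_add_mod n 3, pow_add, pow_mul, cube_one rel, one_pow, one_mul]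

theorem E_add (rel : ω ^ 2 + ω + 1 = 0) (s t : ZMod 3) : E ω (s + t) = E ω s * E ω t := by
  have h : E ω s * E ω t = ω ^ (s.val + t.val) := by rw [E, E, pow_add]
  rw [h, E_pow rel]
  rw [Nat.cast_add, ZMod.natCast_zmod_val, ZMod.natCast_zmod_val]

theorem E_zero : E ω 0 = 1 := by
  rw [E, ZMod.val_zero, pow_zero]

theorem ω_ne_zero (rel : ω ^ 2 + ω + 1 = 0) : ω ≠ 0 := by
  rintro rfl
  simp at rel

theorem E_ne_zero (rel : ω ^ 2 + ω + 1 = 0) (t : ZMod 3) : E ω t ≠ 0 :=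
  pow_ne_zero _ (ω_ne_zero rel)

theorem E_neg (rel : ω ^ 2 + ω + 1 = 0) (t : ZMod 3) : E ω (-t) = (E ω t)⁻¹ := by
  refine eq_inv_of_mul_eq_one_left ?_
  rw [← E_add rel, neg_add_cancel, E_zero]

theorem ω_ne_one (rel : ω ^ 2 + ω + 1 = 0) : ω ≠ 1 := by
  intro h
  rw [h] at rel
  have h3 : (3 : L) = 0 := by linear_combination rel
  exact three_ne_zero h3

theorem E_inj (rel : ω ^ 2 + ω + 1 = 0) {s t : ZMod 3} (h : E ω s = E ω t) : s = t := by
  have h1 : E ω (s - t) = 1 := by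
    rw [sub_eq_add_neg, E_add rel, E_neg rel, h, mul_inv_cancel₀ (E_ne_zero rel t)]
  have h2 : ∀ u : ZMod 3, E ω u = 1 → u = 0 := by
    intro u hu
    have hne := ω_ne_one rel
    have hu' : u = 0 ∨ u = 1 ∨ u = 2 := by
      revert u
      intro u _
      fin_cases u
      · exact Or.inl rfl
      · exact Or.inr (Or.inl rfl)
      · exact Or.inr (Or.inr rfl)
    rcases hu' with rfl | rfl | rfl
    · rfl
    · exfalso
      apply hne
      have : (1 : ZMod 3).val = 1 := rfl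
      rw [E, this, pow_one] at hu
      exact hu
    · exfalso
      have : (2 : ZMod 3).val = 2 := rfl
      rw [E, this] at hu
      apply hne
      have h3 := cube_one rel
      calc ω = ω ^ 2 * ω := by rw [hu, one_mul]
        _ = ω ^ 3 := by ring
        _ = 1 := h3
  exact sub_eq_zero.mp (h2 _ h1)

/-- Two elements with the same cube. -/
theorem of_cube (rel : ω ^ 2 + ω + 1 = 0) {x y : L} (h : x ^ 3 = y ^ 3) :
    ∃ k : ZMod 3, x = E ω k * y := by
  have h1 : (x - y) * ((x - ω * y) * (x - ω ^ 2 * y)) = 0 := by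
    have h3 := cube_one rel
    have : (x - y) * ((x - ω * y) * (x - ω ^ 2 * y)) =
        x ^ 3 - y ^ 3 - (ω ^ 2 + ω + 1) * (x ^ 2 * y - x * y ^ 2) +
          (ω ^ 3 - 1) * (x * y ^ 2 - y ^ 3) := by
      ring
    rw [this, h, rel, h3]
    ring
  rcases mul_eq_zero.mp h1 with h2 | h2
  · exact ⟨0, by rw [E_zero, one_mul]; exact sub_eq_zero.mp h2⟩
  rcases mul_eq_zero.mp h2 with h2 | h2
  · refine ⟨1, ?_⟩
    have : (1 : ZMod 3).val = 1 := rfl
    rw [E, this, pow_one]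
    exact sub_eq_zero.mp h2
  · refine ⟨2, ?_⟩
    have : (2 : ZMod 3).val = 2 := rfl
    rw [E, this]
    exact sub_eq_zero.mp h2

/-- An automorphism which inverts `ω`. -/
theorem map_E (rel : ω ^ 2 + ω + 1 = 0) {g : L ≃ₐ[ℚ] L} (hg : g ω = ω ^ 2) (t : ZMod 3) :
    g (E ω t) = E ω (-t) := by
  rw [E_neg rel]
  refine eq_inv_of_mul_eq_one_left ?_
  rw [E, map_pow, hg, ← pow_mul, ← pow_add]
  have : 2 * t.val + t.val = 3 * t.val := by ring
  rw [this, pow_mul, cube_one rel, one_pow]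

/-- An automorphism which fixes `ω`. -/
theorem map_E' {g : L ≃ₐ[ℚ] L} (hg : g ω = ω) (t : ZMod 3) : g (E ω t) = E ω t := by
  rw [E, map_pow, hg]

/-- An automorphism sends `ω` to `ω` or to `ω ^ 2`. -/
theorem map_ω (rel : ω ^ 2 + ω + 1 = 0) (g : L ≃ₐ[ℚ] L) : g ω = ω ∨ g ω = ω ^ 2 := by
  have h1 : (g ω) ^ 2 + g ω + 1 = 0 := by
    have := congrArg g rel
    rwa [map_add, map_add, map_pow, map_one, map_zero] at this
  have h2 : (g ω - ω) * (g ω - ω ^ 2) = 0 := by
    have h3 := cube_one rel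
    linear_combination h1 - (g ω) * rel + h3
  rcases mul_eq_zero.mp h2 with h | h
  · exact Or.inl (sub_eq_zero.mp h)
  · exact Or.inr (sub_eq_zero.mp h)

/-- A cube root fixed by `g`. -/
theorem exists_fixed (rel : ω ^ 2 + ω + 1 = 0) {g : L ≃ₐ[ℚ] L} (hg : g ω = ω ^ 2) {b : ℤ} {θ : L}
    (hθ : θ ^ 3 = (b : L)) : ∃ ρ : L, ρ ^ 3 = (b : L) ∧ g ρ = ρ := by
  have h1 : (g θ) ^ 3 = θ ^ 3 := by
    rw [← map_pow, hθ, map_intCast]
  obtain ⟨a, ha⟩ := of_cube rel h1
  refine ⟨E ω (2 * a) * θ, ?_, ?_⟩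
  · rw [mul_pow, hθ, E, ← pow_mul, mul_comm _ 3, pow_mul, cube_one rel, one_pow, one_mul]
  · rw [map_mul, map_E rel hg, ha, ← mul_assoc, ← E_add rel]
    congr 2
    have h3 : (3 : ZMod 3) = 0 := rfl
    linear_combination (-a) * h3

/-- The fixed cube root is unique. -/
theorem fixed_unique (rel : ω ^ 2 + ω + 1 = 0) {g : L ≃ₐ[ℚ] L} (hg : g ω = ω ^ 2) {b : ℤ}
    {ρ ρ' : L} (h : ρ ^ 3 = (b : L)) (h' : ρ' ^ 3 = (b : L)) (hf : g ρ = ρ) (hf' : g ρ' = ρ') :
    ρ' = ρ := by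
  obtain ⟨k, hk⟩ := of_cube rel (h'.trans h.symm)
  by_cases h0 : ρ = 0
  · rw [hk, h0, mul_zero]
  · rw [hk, map_mul, map_E rel hg, hf] at hf'
    have h1 := mul_right_cancel₀ h0 hf'
    have h2 := E_inj rel h1
    have h3 : (3 : ZMod 3) = 0 := rfl
    have h4 : k = 0 := by linear_combination k * h3 + h2
    rw [hk, h4, E_zero, one_mul]

theorem map_aN (rel : ω ^ 2 + ω + 1 = 0) {g : L ≃ₐ[ℚ] L} (hg : g ω = ω ^ 2) (p q p' q' : ℤ)
    (ρ : L) : g (aN ω p q p' q' ρ) = aD ω p q p' q' (g ρ) := by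
  have h3 := cube_one rel
  rw [aN, aD]
  simp only [map_mul, map_add, map_pow, map_intCast, hg]
  have h4 : (ω ^ 2) ^ 2 = ω := by linear_combination ω * h3
  rw [h4]

theorem map_aD (rel : ω ^ 2 + ω + 1 = 0) {g : L ≃ₐ[ℚ] L} (hg : g ω = ω ^ 2) (p q p' q' : ℤ)
    (ρ : L) : g (aD ω p q p' q' ρ) = aN ω p q p' q' (g ρ) := by
  have h3 := cube_one rel
  rw [aN, aD]
  simp only [map_mul, map_add, map_pow, map_intCast, hg]
  have h4 : (ω ^ 2) ^ 2 = ω := by linear_combination ω * h3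
  rw [h4]

theorem map_aN' {g : L ≃ₐ[ℚ] L} (hg : g ω = ω) (p q p' q' : ℤ)
    (ρ : L) : g (aN ω p q p' q' ρ) = aN ω p q p' q' (g ρ) := by
  rw [aN, aN]
  simp only [map_mul, map_add, map_pow, map_intCast, hg]

theorem map_aD' {g : L ≃ₐ[ℚ] L} (hg : g ω = ω) (p q p' q' : ℤ)
    (ρ : L) : g (aD ω p q p' q' ρ) = aD ω p q p' q' (g ρ) := by
  rw [aD, aD]
  simp only [map_mul, map_add, map_pow, map_intCast, hg]

end GT

open Pool.Agent.PT.GT in
/-- GT: existence, uniqueness and properties of `t`. -/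
theorem GT_thm : GT := by
  intro s b p q p' q' f L _ _ ζ ω hS hG j i hji
  have rel := hG.rel
  have h3 := cube_one rel
  -- one witness is enough
  have isT_of : ∀ (g : L ≃ₐ[ℚ] L) (t : ZMod 3) (ρ A : L), g ω = ω ^ 2 → ρ ^ 3 = (b j : L) →
      g ρ = ρ → A ^ 3 * aD ω (p j i) (q j i) (p' j i) (q' j i) ρ =
        aN ω (p j i) (q j i) (p' j i) (q' j i) ρ → g A * A = E ω t →
      IsT b p q p' q' ω g j i t := by
    intro g t ρ A hg hρ hf hA ht ρ' A' hρ' hf' hA'
    have e1 := fixed_unique rel hg hρ hρ' hf hf'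
    subst e1
    have hD := (hG.D j i hji ρ' hρ').1
    have e2 : A' ^ 3 = A ^ 3 := mul_right_cancel₀ hD (hA'.trans hA.symm)
    obtain ⟨k, hk⟩ := of_cube rel e2
    change g A' * A' = E ω t
    rw [hk, map_mul, map_E rel hg, E_neg rel, ← ht]
    have hk0 := E_ne_zero rel k
    field_simp
  -- witnesses exist
  have exW : ∀ g : L ≃ₐ[ℚ] L, g ω = ω ^ 2 → ∃ ρ A : L, ρ ^ 3 = (b j : L) ∧ g ρ = ρ ∧
      A ^ 3 * aD ω (p j i) (q j i) (p' j i) (q' j i) ρ =
        aN ω (p j i) (q j i) (p' j i) (q' j i) ρ ∧ A ≠ 0 := by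
    intro g hg
    obtain ⟨θ, hθ⟩ := hG.root j
    obtain ⟨ρ, hρ, hf⟩ := exists_fixed rel hg hθ
    obtain ⟨A, hA⟩ := hG.A j i hji ρ hρ
    refine ⟨ρ, A, hρ, hf, hA, ?_⟩
    rintro rfl
    apply (hG.D j i hji ρ hρ).2
    rw [← hA]
    ring
  refine ⟨?_, ?_, ?_⟩
  · intro g hg
    obtain ⟨ρ, A, hρ, hf, hA, hA0⟩ := exW g hg
    obtain ⟨hD, hN⟩ := hG.D j i hji ρ hρ
    have e1 : (g A) ^ 3 * aN ω (p j i) (q j i) (p' j i) (q' j i) ρ =
        aD ω (p j i) (q j i) (p' j i) (q' j i) ρ := by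
      have := congrArg g hA
      rwa [map_mul, map_pow, map_aD rel hg, map_aN rel hg, hf] at this
    have e2 : (g A * A) ^ 3 = (1 : L) ^ 3 := by
      have h5 : (g A * A) ^ 3 * (aN ω (p j i) (q j i) (p' j i) (q' j i) ρ *
          aD ω (p j i) (q j i) (p' j i) (q' j i) ρ) =
          1 * (aN ω (p j i) (q j i) (p' j i) (q' j i) ρ *
          aD ω (p j i) (q j i) (p' j i) (q' j i) ρ) := by
        calc (g A * A) ^ 3 * (aN ω (p j i) (q j i) (p' j i) (q' j i) ρ *
              aD ω (p j i) (q j i) (p' j i) (q' j i) ρ)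
            = ((g A) ^ 3 * aN ω (p j i) (q j i) (p' j i) (q' j i) ρ) *
              (A ^ 3 * aD ω (p j i) (q j i) (p' j i) (q' j i) ρ) := by ring
          _ = _ := by rw [e1, hA]; ring
      rw [one_pow]
      exact mul_right_cancel₀ (mul_ne_zero hN hD) h5
    obtain ⟨t, ht⟩ := of_cube rel e2
    rw [mul_one] at ht
    refine ⟨t, isT_of g t ρ A hg hρ hf hA ht, ?_⟩
    intro t' ht'
    have h5 : g A * A = E ω t' := ht' ρ A hρ hf hA
    exact E_inj rel (h5.symm.trans ht)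
  · intro g τ t hg ht
    obtain ⟨ρ, A, hρ, hf, hA, hA0⟩ := exW g hg
    have hw : g A * A = E ω t := ht ρ A hρ hf hA
    have c1 : ∀ x : L, (τ * g * τ⁻¹) (τ x) = τ (g x) := by
      intro x
      change τ (g (τ⁻¹ (τ x))) = τ (g x)
      have : τ⁻¹ (τ x) = x := τ.symm_apply_apply x
      rw [this]
    have hρ' : (τ ρ) ^ 3 = (b j : L) := by
      rw [← map_pow, hρ, map_intCast]
    have hf' : (τ * g * τ⁻¹) (τ ρ) = τ ρ := by rw [c1, hf]
    have e1 := congrArg τ hA
    rw [map_mul, map_pow] at e1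
    rcases map_ω rel τ with hτ | hτ
    · have hg' : (τ * g * τ⁻¹) ω = ω ^ 2 := by
        have := c1 ω
        rwa [hτ, hg, map_pow, hτ] at this
      rw [map_aD' hτ, map_aN' hτ] at e1
      refine isT_of _ t (τ ρ) (τ A) hg' hρ' hf' e1 ?_
      rw [c1, ← map_mul, hw, map_E' hτ]
    · have hg' : (τ * g * τ⁻¹) ω = ω ^ 2 := by
        have h5 := c1 (ω ^ 2)
        have h6 : τ (ω ^ 2) = ω := by
          rw [map_pow, hτ]
          linear_combination ω * h3
        rw [h6] at h5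
        rw [h5, map_pow, hg]
        have h7 : (ω ^ 2) ^ 2 = ω := by linear_combination ω * h3
        rw [h7, hτ]
      rw [map_aD rel hτ, map_aN rel hτ] at e1
      have hτA : τ A ≠ 0 := by
        rw [Ne, EmbeddingLike.map_eq_zero_iff]
        exact hA0
      refine isT_of _ t (τ ρ) (τ A)⁻¹ hg' hρ' hf' ?_ ?_
      · rw [inv_pow, ← e1]
        field_simp
      · rw [map_inv₀, c1, ← mul_inv, ← map_mul, hw, map_E rel hτ, E_neg rel, inv_inv]
  · intro g t k hg hk ht
    obtain ⟨ρ, A, hρ, hf, hA, hA0⟩ := exW g hg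
    have hw : g A * A = E ω t := ht ρ A hρ hf hA
    have e1 : g A = E ω t * A⁻¹ := by
      rw [← hw]
      field_simp
    have h30 : (3 : ZMod 3) = 0 := rfl
    have e2 : ∀ l : ℕ, (g ^ (2 * l)) A = E ω (l * t) * A := by
      intro l
      induction l with
      | zero => simp [E_zero]
      | succ l ih =>
        have h5 : (g ^ (2 * (l + 1))) A = g (g ((g ^ (2 * l)) A)) := by
          have : g ^ (2 * (l + 1)) = g * (g * g ^ (2 * l)) := by
            rw [← mul_assoc, ← pow_two, ← pow_add]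
            congr 1
            ring
          rw [this]
          rfl
        rw [h5, ih, map_mul, map_E rel hg, e1, map_mul, map_mul, map_E rel hg, map_E rel hg,
          map_inv₀, e1, mul_inv, inv_inv, ← E_neg rel, neg_neg, ← mul_assoc, ← mul_assoc,
          ← E_add rel, ← E_add rel]
        congr 2
        push_cast
        linear_combination (-t) * h30
    have f1 : ∀ m : ℕ, (g ^ m) ρ = ρ := by
      intro m
      induction m with
      | zero => rfl
      | succ m ih =>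
        rw [pow_succ']
        change g ((g ^ m) ρ) = ρ
        rw [ih, hf]
    have f2 : ∀ l : ℕ, (g ^ (2 * l)) ω = ω := by
      intro l
      induction l with
      | zero => rfl
      | succ l ih =>
        have h5 : (g ^ (2 * (l + 1))) ω = g (g ((g ^ (2 * l)) ω)) := by
          have : g ^ (2 * (l + 1)) = g * (g * g ^ (2 * l)) := by
            rw [← mul_assoc, ← pow_two, ← pow_add]
            congr 1
            ring
          rw [this]
          rfl
        rw [h5, ih, hg, map_pow, hg]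
        linear_combination ω * h3
    obtain ⟨l, rfl⟩ := hk
    have h6 : ∀ x : L, (g ^ (2 * l + 1)) x = g ((g ^ (2 * l)) x) := by
      intro x
      rw [pow_succ']
      rfl
    refine isT_of _ _ ρ A ?_ hρ (f1 _) hA ?_
    · rw [h6, f2, hg]
    · rw [h6, e2, map_mul, map_E rel hg, mul_assoc, hw, ← E_add rel]
      congr 1
      push_cast
      linear_combination (-(l : ZMod 3) * t) * h30

end Pool.Agent.PT


end

section

/-!
# HN: the Hasse norm theorem for pure cubic fields, rational version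
-/

namespace Pool.Agent.PT

open Pool.Agent.Lib_helper18 Pool.Agent.Lib_helper18.Eis Pool.Agent.Lib_helper84.Cub

namespace HN

theorem cast_ne {a : ℤ} (ha : a ≠ 0) : (a : Eis) ≠ 0 := by
  intro h
  have h1 := congrArg Eis.re h
  rw [intCast_re, zero_re] at h1
  exact ha h1

/-- If `π` lies over `p` and divides the rational integer `a` then `p` divides `a`. -/
theorem dvd_int {π : PP} {p : ℕ} (hp : p.Prime)
    (h : (p % 3 = 2 ∧ π.1 = (p : Eis)) ∨
      (p % 3 = 1 ∧ π.1.norm = p ∧ (p : Eis) = π.1 * conj π.1 ∧ ¬ Associated π.1 (conj π.1)))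
    {a : ℤ} (ha : π.1 ∣ (a : Eis)) : (p : ℤ) ∣ a := by
  have hpz : Prime (p : ℤ) := Nat.prime_iff_prime_int.1 hp
  have h1 : (p : ℤ) ∣ π.1.norm := by
    rcases h with ⟨_, h⟩ | ⟨_, h, _⟩
    · rw [h, norm_natCast, sq]
      exact dvd_mul_right _ _
    · rw [h]
  obtain ⟨c, hc⟩ := ha
  have h2 : π.1.norm ∣ a ^ 2 := by
    rw [← norm_intCast, hc, norm_mul]
    exact dvd_mul_right _ _
  exact hpz.dvd_of_dvd_pow (h1.trans h2)

theorem dvd_nat {π : PP} {p : ℕ}
    (h : (p % 3 = 2 ∧ π.1 = (p : Eis)) ∨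
      (p % 3 = 1 ∧ π.1.norm = p ∧ (p : Eis) = π.1 * conj π.1 ∧ ¬ Associated π.1 (conj π.1))) :
    π.1 ∣ (p : Eis) := by
  rcases h with ⟨_, h⟩ | ⟨_, _, h, _⟩
  · rw [h]
  · rw [h]
    exact dvd_mul_right _ _

/-- The multiplicity of `π` in `p ^ k t`. -/
theorem V_eq {π : PP} {p : ℕ} (hp : p.Prime)
    (h : (p % 3 = 2 ∧ π.1 = (p : Eis)) ∨
      (p % 3 = 1 ∧ π.1.norm = p ∧ (p : Eis) = π.1 * conj π.1 ∧ ¬ Associated π.1 (conj π.1)))
    (k : ℕ) {t : ℤ} (ht : ¬ (p : ℤ) ∣ t) : V π.1 (((p : ℤ) ^ k * t : ℤ) : Eis) = k := by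
  have h1 : ¬ π.1 ∣ (t : Eis) := fun h2 => ht (dvd_int hp h h2)
  have hc : (((p : ℤ) ^ k * t : ℤ) : Eis) = (p : Eis) ^ k * (t : Eis) := by
    push_cast
    rfl
  rw [hc]
  have h' := h
  rcases h' with ⟨_, h2⟩ | ⟨_, _, h2, h3⟩
  · rw [← h2]
    exact V_pow_mul π.2.1 k h1
  · rw [h2, mul_pow, mul_assoc]
    refine V_pow_mul π.2.1 k fun h4 => ?_
    rcases π.2.1.dvd_or_dvd h4 with h5 | h5
    · have h6 := π.2.1.dvd_of_dvd_pow h5
      exact h3 (π.2.1.associated_of_dvd (prime_conj π.2.1) h6)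
    · exact h1 h5

/-- Splitting off the cube of the part of `y` prime to `x` with all exponents divisible by `3`. -/
theorem split (x y : ℤ) (hy : y ≠ 0) : ∃ (y1 : ℤ) (m : ℕ), m ≠ 0 ∧ y1 ≠ 0 ∧ y = y1 * (m : ℤ) ^ 3 ∧
    ∀ p : ℕ, p.Prime → (p : ℤ) ∣ y1 → ¬ (p : ℤ) ∣ x →
      ∃ (k : ℕ) (t : ℤ), ¬ 3 ∣ k ∧ ¬ (p : ℤ) ∣ t ∧ y1 = (p : ℤ) ^ k * t := by
  classical
  set N := y.natAbs with hN
  have hN0 : N ≠ 0 := Int.natAbs_ne_zero.2 hy
  set Q : ℕ → Prop := fun l => (l : ℤ) ∣ x ∨ ¬ 3 ∣ N.factorization l with hQ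
  set a : ℕ := ∏ l ∈ N.primeFactors.filter Q, l ^ N.factorization l with ha
  set m : ℕ := ∏ l ∈ N.primeFactors.filter (fun l => ¬ Q l), l ^ (N.factorization l / 3) with hm
  have hprod : N = a * m ^ 3 := by
    have h1 : N = ∏ l ∈ N.primeFactors, l ^ N.factorization l := by
      conv_lhs => rw [← Nat.prod_factorization_pow_eq_self hN0]
      rfl
    have h2 : m ^ 3 = ∏ l ∈ N.primeFactors.filter (fun l => ¬ Q l), l ^ N.factorization l := by
      rw [hm, ← Finset.prod_pow]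
      refine Finset.prod_congr rfl fun l hl => ?_
      have h3 := (Finset.mem_filter.1 hl).2
      simp only [hQ, not_or, not_not] at h3
      rw [← pow_mul, Nat.div_mul_cancel h3.2]
    rw [h2, ha, Finset.prod_filter_mul_prod_filter_not]
    exact h1
  have hm0 : m ≠ 0 := by
    intro h
    rw [h] at hprod
    exact hN0 (by rw [hprod]; ring)
  have ha0 : a ≠ 0 := by
    intro h
    rw [h] at hprod
    exact hN0 (by rw [hprod]; ring)
  have hs : y.sign ≠ 0 := by rwa [ne_eq, Int.sign_eq_zero_iff_zero]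
  refine ⟨y.sign * a, m, hm0, mul_ne_zero hs (by exact_mod_cast ha0), ?_, ?_⟩
  · have h1 : y = y.sign * (N : ℤ) := by rw [hN, Int.natCast_natAbs, Int.sign_mul_abs]
    conv_lhs => rw [h1, hprod]
    push_cast
    ring
  · intro p hp hpy hpx
    have hpz : Prime (p : ℤ) := Nat.prime_iff_prime_int.1 hp
    have hns : ¬ (p : ℤ) ∣ y.sign := by
      intro h
      have h1 : y.sign = 1 ∨ y.sign = -1 := by
        rcases lt_or_gt_of_ne hy with h2 | h2
        · right
          exact Int.sign_eq_neg_one_of_neg h2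
        · left
          exact Int.sign_eq_one_of_pos h2
      rcases h1 with h1 | h1 <;> rw [h1] at h
      · exact hpz.not_dvd_one h
      · exact hpz.not_dvd_one ((dvd_neg).1 h)
    have hpa : p ∣ a := by
      rcases hpz.dvd_or_dvd hpy with h | h
      · exact absurd h hns
      · exact_mod_cast h
    have hmem : p ∈ N.primeFactors.filter Q := by
      rw [ha] at hpa
      obtain ⟨l, hl, hpl⟩ := (Prime.dvd_finset_prod_iff hp.prime _).1 hpa
      have hl' := Nat.prime_of_mem_primeFactors (Finset.mem_filter.1 hl).1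
      have h1 := hp.dvd_of_dvd_pow hpl
      rw [(Nat.prime_dvd_prime_iff_eq hp hl').1 h1]
      exact hl
    obtain ⟨hpN, hpQ⟩ := Finset.mem_filter.1 hmem
    have hk : ¬ 3 ∣ N.factorization p := hpQ.resolve_left hpx
    refine ⟨N.factorization p,
      y.sign * ((∏ l ∈ (N.primeFactors.filter Q).erase p, l ^ N.factorization l : ℕ) : ℤ),
      hk, ?_, ?_⟩
    · intro h
      rcases hpz.dvd_or_dvd h with h | h
      · exact hns h
      · have h1 : p ∣ ∏ l ∈ (N.primeFactors.filter Q).erase p, l ^ N.factorization l := by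
          exact_mod_cast h
        obtain ⟨l, hl, hpl⟩ := (Prime.dvd_finset_prod_iff hp.prime _).1 h1
        obtain ⟨hne, hl2⟩ := Finset.mem_erase.1 hl
        have hl' := Nat.prime_of_mem_primeFactors (Finset.mem_filter.1 hl2).1
        have h1 := hp.dvd_of_dvd_pow hpl
        exact hne ((Nat.prime_dvd_prime_iff_eq hp hl').1 h1).symm
    · have h1 : a = p ^ N.factorization p *
          ∏ l ∈ (N.primeFactors.filter Q).erase p, l ^ N.factorization l := by
        rw [ha]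
        exact (Finset.mul_prod_erase _ _ hmem).symm
      rw [h1]
      push_cast
      ring

end HN

theorem HN_thm (hNFLD : NFLD) (hNMAIN : NMAIN) (hNDESC : NDESC) (hSTM : STM) (hSPP : SPP)
    (hLCI : LCI) : HN := by
  intro x y hx h3x hcube hV hy h3y htm
  obtain ⟨-, -, -, hSPP4, -, hSPP6⟩ := hSPP
  obtain ⟨y1, m, hm, hy1, hyy, hprop⟩ := HN.split x y hy
  obtain ⟨L, iF, iN, ι, θ, σ, c, hC⟩ := hNFLD x hx hcube
  have hxE : (x : Eis) ≠ 0 := HN.cast_ne hx
  have hyE : (y : Eis) ≠ 0 := HN.cast_ne hy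
  have hy1E : (y1 : Eis) ≠ 0 := HN.cast_ne hy1
  have hmE : ((m : ℤ) : Eis) ≠ 0 := HN.cast_ne (by exact_mod_cast hm)
  have h3y1 : ¬ (3 : ℤ) ∣ y1 := fun h => h3y (by rw [hyy]; exact h.mul_right _)
  have htm1 : ∀ π : PP, tm π.1 (x : Eis) (y1 : Eis) = 0 := by
    intro π
    have hS := hSTM π.1 π.2.1 (hSPP4 π).1
    have h1 := htm π
    have h2 : (y : Eis) = (y1 : Eis) * ((m : ℤ) : Eis) * ((m : ℤ) : Eis) * ((m : ℤ) : Eis) := by
      rw [hyy]
      push_cast
      ring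
    have h3 : tm π.1 (y : Eis) (x : Eis) = tm π.1 (y1 : Eis) (x : Eis) +
        3 * tm π.1 ((m : ℤ) : Eis) (x : Eis) := by
      rw [h2, hS.mul _ _ _ (mul_ne_zero (mul_ne_zero hy1E hmE) hmE) hmE hxE,
        hS.mul _ _ _ (mul_ne_zero hy1E hmE) hmE hxE, hS.mul _ _ _ hy1E hmE hxE]
      ring
    have h4 : (3 : ZMod 3) = 0 := rfl
    rw [h4, zero_mul, add_zero, hS.skew _ _ hxE hyE, h1, hS.skew _ _ hxE hy1E] at h3
    rw [neg_zero] at h3
    exact neg_eq_zero.1 h3.symm
  have hLC : ∀ π : PP, π.1 ∣ (y1 : Eis) → ¬ LC π.1 x → π.1 ∣ (x : Eis) := by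
    intro π hπ hnot
    by_contra hπx
    obtain ⟨p, hp, hcl⟩ := hSPP6 π
    have h1 := HN.dvd_int hp hcl hπ
    have h2 : ¬ (p : ℤ) ∣ x := by
      intro h
      obtain ⟨d, hd⟩ := h
      apply hπx
      rw [hd, Int.cast_mul, Int.cast_natCast]
      exact (HN.dvd_nat hcl).mul_right _
    obtain ⟨k, t, hk, ht, hyt⟩ := hprop p hp h1 h2
    have h3 : V π.1 (y1 : Eis) = k := by
      rw [hyt]
      exact HN.V_eq hp hcl k ht
    have h4 : V π.1 (x : Eis) = 0 := V_eq_zero hπx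
    have h5 := htm1 π
    rw [tm, h3, h4, Nat.cast_zero, zero_mul, sub_zero] at h5
    have h6 : (k : ZMod 3) ≠ 0 := by
      rw [ne_eq, ZMod.natCast_eq_zero_iff]
      exact hk
    have h7 : ch π.1 (x : Eis) = 0 := by
      have : Fact (Nat.Prime 3) := ⟨Nat.prime_three⟩
      exact (mul_eq_zero.1 h5).resolve_left h6
    exact hnot ((hLCI.1 π x hx).2 ⟨by rw [h4]; exact dvd_zero _, h7⟩)
  obtain ⟨z, hz, hzN⟩ := hNMAIN x L ι θ σ c hx h3x hV hcube hC y1 hy1 h3y1 htm1 hLC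
  obtain ⟨p, q, p', q', hsol⟩ := hNDESC x L ι θ σ c hx hC y1 z hy1 hz hzN
  have hmz : (m : ℤ) ≠ 0 := by exact_mod_cast hm
  refine ⟨m * p, m * q, p', q', ⟨?_, ?_⟩⟩
  · have h1 := hsol.eq
    rw [hyy]
    linear_combination (m : ℤ) ^ 3 * h1
  · have h1 := hsol.n1
    have h2 : ((m : ℤ) * p) ^ 3 + x * ((m : ℤ) * q) ^ 3 = (m : ℤ) ^ 3 * (p ^ 3 + x * q ^ 3) := by
      ring
    rw [h2]
    exact mul_ne_zero (pow_ne_zero 3 hmz) h1

end Pool.Agent.PT


end

section

/-!
# NFLD: existence of the field `Q(w, x^(1/3))`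
-/

open Polynomial

namespace Pool.Agent.PT

open Pool.Agent.Lib_helper18 Pool.Agent.Lib_helper18.Eis Pool.Agent.Lib_helper84.Cub

namespace NFLD

/-- the field `Q(w)` -/
abbrev F : Type := FractionRing Eis

theorem w_ne_one : (w : Eis) ≠ 1 := fun h => by
  have := congrArg Eis.im h
  simp at this

theorem no_root {x : ℤ} (hx : ¬ ∃ c : ℤ, c ^ 3 = x) (b : F) : b ^ 3 ≠ (x : F) := by
  intro hb
  obtain ⟨⟨u, v⟩, huv⟩ := IsLocalization.surj (nonZeroDivisors Eis) b
  have hv : (v : Eis) ≠ 0 := nonZeroDivisors.coe_ne_zero v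
  simp only at huv
  have h1 : u ^ 3 = (x : Eis) * (v : Eis) ^ 3 := by
    apply IsFractionRing.injective Eis F
    rw [map_pow, map_mul, map_pow, ← huv, mul_pow, hb, map_intCast]
  have h2 : u.norm ^ 3 = x ^ 2 * (v : Eis).norm ^ 3 := by
    have := congrArg Eis.norm h1
    rwa [Eis.norm_pow, norm_mul, norm_intCast, Eis.norm_pow] at this
  by_cases hu : u = 0
  · apply hx
    refine ⟨0, ?_⟩
    rw [hu] at h1
    have h3 : (x : Eis) * (v : Eis) ^ 3 = 0 := by rw [← h1]; simp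
    rcases mul_eq_zero.mp h3 with h | h
    · have := congrArg Eis.re h
      simp at this
      rw [this]; simp
    · exact absurd (pow_eq_zero_iff (by norm_num) |>.mp h) hv
  have hu' : u.norm ≠ 0 := fun h => hu (norm_eq_zero.mp h)
  have h3 : (x * (v : Eis).norm) ^ 3 = x * u.norm ^ 3 := by rw [h2]; ring
  have h4 : u.norm ^ 3 ∣ (x * (v : Eis).norm) ^ 3 := ⟨x, by rw [h3]; ring⟩
  obtain ⟨c, hc⟩ := (Int.pow_dvd_pow_iff (by norm_num)).mp h4
  apply hx
  refine ⟨c, ?_⟩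
  have h5 : u.norm ^ 3 * c ^ 3 = u.norm ^ 3 * x := by
    rw [← mul_pow, ← hc, h3]; ring
  exact mul_left_cancel₀ (pow_ne_zero 3 hu') h5

/-- From ring endomorphisms to the final statement. -/
theorem build (x : ℤ) (L : Type) [Field L] [CharZero L] (ι : Eis →+* L) (θ : L)
    (σ0 c0 : L →+* L) (inj : Function.Injective ι) (cube : θ ^ 3 = (x : L))
    (sθ : σ0 θ = ι w * θ) (sι : ∀ a : Eis, σ0 (ι a) = ι a) (cθ : c0 θ = θ)
    (cι : ∀ a : Eis, c0 (ι a) = ι (conj a))
    (rep : ∀ z : L, ∃ (m : ℤ) (a b d : Eis), m ≠ 0 ∧ (m : L) * z = ι a + ι b * θ + ι d * θ ^ 2)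
    (lin : ∀ a b d : Eis, ι a + ι b * θ + ι d * θ ^ 2 = 0 → a = 0 ∧ b = 0 ∧ d = 0) :
    ∃ (L : Type) (_ : Field L) (_ : NumberField L) (ι : Eis →+* L) (θ : L) (σ c : L ≃ₐ[ℚ] L),
      CubF x L ι θ σ c := by
  classical
  have hfin : FiniteDimensional ℚ L := by
    refine Module.finite_def.mpr ⟨(Finset.range 2 ×ˢ Finset.range 3).image
      (fun ij : ℕ × ℕ => ι w ^ ij.1 * θ ^ ij.2), ?_⟩
    rw [eq_top_iff]
    rintro z -
    obtain ⟨m, a, b, d, hm, h⟩ := rep z
    have hmL : (m : L) ≠ 0 := Int.cast_ne_zero.mpr hm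
    have hs : ∀ i < 2, ∀ j < 3, ι w ^ i * θ ^ j ∈ Submodule.span ℚ
        (((Finset.range 2 ×ˢ Finset.range 3).image
          (fun ij : ℕ × ℕ => ι w ^ ij.1 * θ ^ ij.2) : Finset L) : Set L) := by
      intro i hi j hj
      apply Submodule.subset_span
      rw [Finset.mem_coe, Finset.mem_image]
      exact ⟨(i, j), by simp [hi, hj], rfl⟩
    have he : ∀ a : Eis, ι a = (a.re : L) + (a.im : L) * ι w := by
      intro a
      conv_lhs => rw [eq_re_add_im a]
      simp
    have hz : z = ((a.re : ℚ) / m) • (ι w ^ 0 * θ ^ 0) + ((a.im : ℚ) / m) • (ι w ^ 1 * θ ^ 0) +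
        ((b.re : ℚ) / m) • (ι w ^ 0 * θ ^ 1) + ((b.im : ℚ) / m) • (ι w ^ 1 * θ ^ 1) +
        ((d.re : ℚ) / m) • (ι w ^ 0 * θ ^ 2) + ((d.im : ℚ) / m) • (ι w ^ 1 * θ ^ 2) := by
      apply mul_left_cancel₀ hmL
      rw [h, he a, he b, he d]
      simp only [Rat.smul_def]
      push_cast
      field_simp
      ring
    rw [hz]
    refine Submodule.add_mem _ (Submodule.add_mem _ (Submodule.add_mem _ (Submodule.add_mem _
      (Submodule.add_mem _ ?_ ?_) ?_) ?_) ?_) ?_ <;>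
    exact Submodule.smul_mem _ _ (hs _ (by norm_num) _ (by norm_num))
  have hNF : NumberField L := { to_charZero := inferInstance, to_finiteDimensional := hfin }
  have key : ∀ g : L →+* L, ∃ g' : L ≃ₐ[ℚ] L, ∀ z, g' z = g z := by
    intro g
    have hb : Function.Bijective g.toRatAlgHom :=
      Algebra.IsAlgebraic.algHom_bijective _
    exact ⟨AlgEquiv.ofBijective g.toRatAlgHom hb, fun z => rfl⟩
  obtain ⟨σ, hσ⟩ := key σ0
  obtain ⟨c, hc⟩ := key c0
  exact ⟨L, inferInstance, hNF, ι, θ, σ, c, inj, cube, by rw [hσ, sθ], fun a => by rw [hσ, sι],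
    by rw [hc, cθ], fun a => by rw [hc, cι], rep, lin⟩

end NFLD

open _root_.Pool.Agent.PT.NFLD in
theorem NFLD_thm : NFLD := by
  intro x hx0 hx
  let f : F[X] := X ^ 3 - C (x : F)
  have hf : Irreducible f :=
    X_pow_sub_C_irreducible_of_prime Nat.prime_three (fun b => no_root hx b)
  have : Fact (Irreducible f) := ⟨hf⟩
  have hdeg : f.natDegree = 3 := natDegree_X_pow_sub_C
  have hmonic : f.Monic := monic_X_pow_sub_C _ (by norm_num)
  let L := AdjoinRoot f
  let θ : L := AdjoinRoot.root f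
  let ι : Eis →+* L := (AdjoinRoot.of f).comp (algebraMap Eis F)
  have hinj : Function.Injective ι :=
    (AdjoinRoot.of f).injective.comp (IsFractionRing.injective Eis F)
  have hchar : CharZero Eis := ⟨fun a b h => by
    have := congrArg Eis.re h
    simpa using this⟩
  have hcL : CharZero L := charZero_of_injective_ringHom hinj
  have hcube : θ ^ 3 = (x : L) := by
    have h := AdjoinRoot.eval₂_root f
    simp only [f, eval₂_sub, eval₂_pow, eval₂_X, eval₂_C] at h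
    have h1 := sub_eq_zero.mp h
    rw [h1]
    simp
  -- lin
  have hlin : ∀ a b d : Eis, ι a + ι b * θ + ι d * θ ^ 2 = 0 → a = 0 ∧ b = 0 ∧ d = 0 := by
    intro a b d h
    let g : F[X] := C (algebraMap Eis F a) + C (algebraMap Eis F b) * X +
      C (algebraMap Eis F d) * X ^ 2
    have hg : AdjoinRoot.mk f g = 0 := by
      simp only [g, map_add, map_mul, map_pow, AdjoinRoot.mk_C, AdjoinRoot.mk_X]
      exact h
    rw [AdjoinRoot.mk_eq_zero] at hg
    have hg0 : g = 0 := by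
      by_contra hne
      have h1 := natDegree_le_of_dvd hg hne
      have h2 : g.natDegree ≤ 2 := by
        simp only [g]
        compute_degree
      omega
    have c0 := congrArg (fun q => coeff q 0) hg0
    have c1 := congrArg (fun q => coeff q 1) hg0
    have c2 := congrArg (fun q => coeff q 2) hg0
    simp [g, coeff_X, coeff_C] at c0 c1 c2
    exact ⟨c0, c1, c2⟩
  -- rep
  have hF : ∀ z : F, ∃ (m : ℤ) (a : Eis), m ≠ 0 ∧ (m : F) * z = algebraMap Eis F a := by
    intro z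
    obtain ⟨⟨u, v⟩, huv⟩ := IsLocalization.surj (nonZeroDivisors Eis) z
    have hv : (v : Eis) ≠ 0 := nonZeroDivisors.coe_ne_zero v
    simp only at huv
    refine ⟨(v : Eis).norm, u * conj v, fun h => hv (norm_eq_zero.mp h), ?_⟩
    have h1 : (((v : Eis).norm : ℤ) : F) = algebraMap Eis F ((v : Eis) * conj v) := by
      rw [mul_conj]; simp
    rw [h1, map_mul, map_mul, ← huv]
    ring
  have hrep : ∀ z : L, ∃ (m : ℤ) (a b d : Eis), m ≠ 0 ∧
      (m : L) * z = ι a + ι b * θ + ι d * θ ^ 2 := by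
    intro z
    obtain ⟨g0, rfl⟩ := AdjoinRoot.mk_surjective z
    obtain ⟨g, hgd, hgz⟩ : ∃ g : F[X], g.natDegree < 3 ∧ AdjoinRoot.mk f g0 = AdjoinRoot.mk f g := by
      refine ⟨g0 %ₘ f, ?_, ?_⟩
      · have := natDegree_modByMonic_lt g0 hmonic (fun h => by
          rw [h] at hdeg; simp at hdeg)
        rwa [hdeg] at this
      · rw [AdjoinRoot.mk_eq_mk]
        exact ⟨g0 /ₘ f, by
          have := modByMonic_add_div g0 f
          linear_combination (-1 : F[X]) * this⟩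
    obtain ⟨m0, a, hm0, ha⟩ := hF (g.coeff 0)
    obtain ⟨m1, b, hm1, hb⟩ := hF (g.coeff 1)
    obtain ⟨m2, d, hm2, hd⟩ := hF (g.coeff 2)
    refine ⟨m0 * m1 * m2, ((m1 * m2 : ℤ) : Eis) * a, ((m0 * m2 : ℤ) : Eis) * b, ((m0 * m1 : ℤ) : Eis) * d,
      by simp [hm0, hm1, hm2], ?_⟩
    have hg3 : g = C (g.coeff 0) + C (g.coeff 1) * X + C (g.coeff 2) * X ^ 2 := by
      conv_lhs => rw [g.as_sum_range' 3 hgd]
      simp [Finset.sum_range_succ, ← C_mul_X_pow_eq_monomial]
    have e : AdjoinRoot.mk f g0 = AdjoinRoot.of f (g.coeff 0) + AdjoinRoot.of f (g.coeff 1) * θ +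
        AdjoinRoot.of f (g.coeff 2) * θ ^ 2 := by
      rw [hgz]
      conv_lhs => rw [hg3]
      simp only [map_add, map_mul, map_pow, AdjoinRoot.mk_C, AdjoinRoot.mk_X]
      rfl
    have ha' : (m0 : L) * AdjoinRoot.of f (g.coeff 0) = ι a := by
      have := congrArg (AdjoinRoot.of f) ha
      rw [map_mul, map_intCast] at this
      exact this
    have hb' : (m1 : L) * AdjoinRoot.of f (g.coeff 1) = ι b := by
      have := congrArg (AdjoinRoot.of f) hb
      rw [map_mul, map_intCast] at this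
      exact this
    have hd' : (m2 : L) * AdjoinRoot.of f (g.coeff 2) = ι d := by
      have := congrArg (AdjoinRoot.of f) hd
      rw [map_mul, map_intCast] at this
      exact this
    rw [e, map_mul, map_mul, map_mul, ← ha', ← hb', ← hd']
    have hm : ((m0 * m1 * m2 : ℤ) : L) = (m0 : L) * m1 * m2 := by
      rw [Int.cast_mul, Int.cast_mul]
    have hi : ∀ k l : ℤ, ι ((k * l : ℤ) : Eis) = (k : L) * l := fun k l => by
      rw [map_intCast, Int.cast_mul]
    rw [hm, hi, hi, hi]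
    ring
  have hw3 : ι w ^ 3 = 1 := by rw [← map_pow, w_cube, map_one]
  -- sigma
  let σ0 : L →+* L := AdjoinRoot.lift (AdjoinRoot.of f) (ι w * θ) (by
    simp only [f, eval₂_sub, eval₂_pow, eval₂_X, eval₂_C]
    rw [mul_pow, hw3, hcube]
    simp)
  let cF : F →+* F := IsLocalization.map F conj (M := nonZeroDivisors Eis)
    (T := nonZeroDivisors Eis) (by
      intro y hy
      rw [Submonoid.mem_comap, mem_nonZeroDivisors_iff_ne_zero]
      intro h
      have h1 := congrArg conj h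
      rw [conj_conj, map_zero] at h1
      exact nonZeroDivisors.ne_zero hy h1)
  have hcF : ∀ a : Eis, cF (algebraMap Eis F a) = algebraMap Eis F (conj a) := fun a =>
    IsLocalization.map_eq _ a
  let c0 : L →+* L := AdjoinRoot.lift ((AdjoinRoot.of f).comp cF) θ (by
    simp only [f, eval₂_sub, eval₂_pow, eval₂_X, eval₂_C]
    rw [hcube]
    simp)
  refine build x L ι θ σ0 c0 hinj hcube (AdjoinRoot.lift_root _) (fun a => AdjoinRoot.lift_of _)
    (AdjoinRoot.lift_root _) (fun a => ?_) hrep hlin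
  show c0 (AdjoinRoot.of f (algebraMap Eis F a)) = AdjoinRoot.of f (algebraMap Eis F (conj a))
  rw [← hcF]
  exact AdjoinRoot.lift_of _

end Pool.Agent.PT


end

section

/-!
# The matrix of the pairing is alternating and the class of a point is in its kernel
-/

set_option autoImplicit false

open NumberField IsDedekindDomain Finset
open scoped nonZeroDivisors Pointwise

namespace Pool.Agent.PT

open Pool.Agent.Lib_helper18 Pool.Agent.Lib_helper18.Eis Pool.Agent.Lib_helper84.Cub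

namespace TEND

theorem cast_ne {n : ℤ} (h : n ≠ 0) : (n : Eis) ≠ 0 := by
  intro h0
  apply h
  have := congrArg Eis.re h0
  simpa using this

theorem three_zero : (3 : ZMod 3) = 0 := rfl

theorem c9_mul {m n : ℤ} (hm : C9 m) (hn : C9 n) : C9 (m * n) := by
  unfold C9 at *
  rcases hm with h | h <;> rcases hn with h' | h' <;> simp [Int.mul_emod, h, h']

theorem c9_one : C9 1 := by
  unfold C9
  decide

theorem c9_pow {m : ℤ} (hm : C9 m) (n : ℕ) : C9 (m ^ n) := by
  induction n with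
  | zero => simpa using c9_one
  | succ n ih =>
    rw [pow_succ]
    exact c9_mul ih hm

theorem c9_cube {m : ℤ} (hm : ¬ (3 : ℤ) ∣ m) : C9 (m ^ 3) := by
  unfold C9
  have h : m % 9 = 0 ∨ m % 9 = 1 ∨ m % 9 = 2 ∨ m % 9 = 3 ∨ m % 9 = 4 ∨ m % 9 = 5 ∨ m % 9 = 6 ∨
      m % 9 = 7 ∨ m % 9 = 8 := by omega
  have h3 : m ^ 3 % 9 = ((m % 9) * (m % 9) % 9 * (m % 9)) % 9 := by
    rw [pow_succ, pow_two]
    simp [Int.mul_emod]
  rcases h with h | h | h | h | h | h | h | h | h
  · exact absurd (by omega) hm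
  · rw [h3, h]
    decide
  · rw [h3, h]
    decide
  · exact absurd (by omega) hm
  · rw [h3, h]
    decide
  · rw [h3, h]
    decide
  · exact absurd (by omega) hm
  · rw [h3, h]
    decide
  · rw [h3, h]
    decide

theorem three_pow {m : ℤ} (hm : ¬ (3 : ℤ) ∣ m) (n : ℕ) : ¬ (3 : ℤ) ∣ m ^ n := fun h =>
  hm (Int.prime_three.dvd_of_dvd_pow h)

/-- all symbols are local symbols -/
theorem lsym (hSTM : STM) (hSPP : SPP) (hSLC : SLC) (v : Pl) : ∃ e, LSym (uni v) (sy v) e := by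
  cases v with
  | none => exact ⟨4, hSLC⟩
  | some π => exact ⟨1, hSTM π.1 π.2.1 (hSPP.2.2.2.1 π).1⟩

section
variable {π : Eis} {s : Eis → Eis → ZMod 3} {e : ℕ}

theorem s_mul_right (h : LSym π s e) {a b c : Eis} (ha : a ≠ 0) (hb : b ≠ 0) (hc : c ≠ 0) :
    s c (a * b) = s c a + s c b := by
  rw [h.skew (a * b) c (mul_ne_zero ha hb) hc, h.mul a b c ha hb hc, h.skew a c ha hc,
    h.skew b c hb hc]
  ring

theorem s_cube_right (h : LSym π s e) {a c : Eis} (ha : a ≠ 0) (hc : c ≠ 0) : s c (a ^ 3) = 0 := by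
  have h1 : a ^ 3 = a * a * a := by ring
  rw [h1, s_mul_right h (mul_ne_zero ha ha) ha hc, s_mul_right h ha ha hc]
  have h2 : s c a + s c a + s c a = 3 * s c a := by ring
  rw [h2, three_zero, zero_mul]

end

theorem w_ne : w ≠ 0 := by
  intro h
  have := congrArg Eis.im h
  revert this
  decide

/-! ### Admissible classes -/

theorem adm_mul (hSTM : STM) (hSPP : SPP) {B x y : ℤ} (hB : BOk B) (hx : Adm B x)
    (hy : Adm B y) : Adm B (x * y) where
  ne := mul_ne_zero hx.ne hy.ne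
  three := fun h => (Int.prime_three.dvd_or_dvd h).elim hx.three hy.three
  sym := fun π => by
    have hs := hSTM π.1 π.2.1 (hSPP.2.2.2.1 π).1
    push_cast
    rw [hs.mul _ _ _ (cast_ne hx.ne) (cast_ne hy.ne) (cast_ne hB.ne), hx.sym π, hy.sym π, add_zero]
  unr := fun π h1 h2 => by
    push_cast at h2
    rcases π.2.1.dvd_or_dvd h2 with h | h
    · exact hx.unr π h1 h
    · exact hy.unr π h1 h
  nine := fun h => c9_mul (hx.nine h) (hy.nine h)

theorem adm_one (hSTM : STM) (hSPP : SPP) {B : ℤ} (hB : BOk B) : Adm B 1 where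
  ne := one_ne_zero
  three := by decide
  sym := fun π => by
    have hs := hSTM π.1 π.2.1 (hSPP.2.2.2.1 π).1
    have h1 : (1 : Eis) ≠ 0 := one_ne_zero
    have h := hs.mul 1 1 _ h1 h1 (cast_ne hB.ne)
    rw [one_mul] at h
    push_cast
    have h2 : tm π.1 1 (B : Eis) + 0 = tm π.1 1 (B : Eis) + tm π.1 1 (B : Eis) := by
      rw [add_zero]
      exact h
    exact (add_left_cancel h2).symm
  unr := fun π _ h2 => by
    push_cast at h2
    exact π.2.1.not_unit (isUnit_of_dvd_one h2)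
  nine := fun _ => c9_one

theorem adm_pow (hSTM : STM) (hSPP : SPP) {B x : ℤ} (hB : BOk B) (hx : Adm B x) (n : ℕ) :
    Adm B (x ^ n) := by
  induction n with
  | zero =>
    rw [pow_zero]
    exact adm_one hSTM hSPP hB
  | succ n ih =>
    rw [pow_succ]
    exact adm_mul hSTM hSPP hB ih hx

theorem adm_prod (hSTM : STM) (hSPP : SPP) {B : ℤ} (hB : BOk B) {s : ℕ} {b : Fin s → ℤ}
    (hb : ∀ i, Adm B (b i)) (c : Fin s → ℕ) (t : Finset (Fin s)) :
    Adm B (∏ i ∈ t, b i ^ c i) := by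
  classical
  induction t using Finset.induction_on with
  | empty =>
    rw [Finset.prod_empty]
    exact adm_one hSTM hSPP hB
  | insert i t hi ih =>
    rw [Finset.prod_insert hi]
    exact adm_mul hSTM hSPP hB (adm_pow hSTM hSPP hB (hb i) _) ih

/-! ### The trivial solutions -/

theorem AV_const {v : Pl} {B b p q p' q' : ℤ} (hLC : LC (uni v) b) {c : ZMod 3}
    (h : ∀ r : ℤ, AS (sy v) (B : Eis) p q p' q' r = c) : AV v B b p q p' q' = c := by
  have h1 : ∃ c : ZMod 3, ∃ N0 : ℕ, ∀ r : ℤ, uni v ^ N0 ∣ (r : Eis) ^ 3 - (b : Eis) →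
      AS (sy v) (B : Eis) p q p' q' r = c := ⟨c, 0, fun r _ => h r⟩
  unfold AV
  rw [dif_pos h1]
  obtain ⟨N0, hN⟩ := h1.choose_spec
  obtain ⟨r, hr⟩ := hLC N0
  rw [← hN r hr]
  exact h r

theorem AS_zero {s : Eis → Eis → ZMod 3} (B : Eis) (u r : ℤ) : AS s B u 0 1 0 r = 0 := by
  unfold AS Lf
  simp

theorem OO_cube (hSTM : STM) (hSPP : SPP) (hSLC : SLC) (B b u : ℤ) (hu : u ≠ 0) :
    OO B b (u ^ 3) u 0 1 0 = 0 := by
  unfold OO
  apply finsum_eq_zero_of_forall_eq_zero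
  intro v
  have hs : sy v w ((u ^ 3 : ℤ) : Eis) = 0 := by
    obtain ⟨e, he⟩ := lsym hSTM hSPP hSLC v
    push_cast
    exact s_cube_right he (cast_ne hu) w_ne
  unfold TT
  split_ifs with h1
  · rw [AV_const h1 (fun r => AS_zero _ u r), hs, add_zero]
  · cases v with
    | none => rfl
    | some π =>
      simp only
      split_ifs
      · have : tm π.1 w ((u ^ 3 : ℤ) : Eis) = 0 := hs
        rw [this, neg_zero]
      · rfl

theorem solW_cube (b u : ℤ) (hu : u ≠ 0) : SolW b (u ^ 3) u 0 1 0 where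
  eq := by ring
  n1 := by
    have := pow_ne_zero 3 hu
    simpa using this

theorem solW_self (b : ℤ) (hb : b ≠ 0) : SolW b b 0 1 1 0 where
  eq := by ring
  n1 := by simpa using hb

/-- powers -/
theorem POW (hTADD : TADD) (hSTM : STM) (hSPP : SPP) (hSLC : SLC) {B b x p q p' q' : ℤ}
    (hB : BOk B) (hb : Adm B b) (hx : Adm B x) (hc : ¬ ∃ c : ℤ, c ^ 3 = b)
    (hS : SolW b x p q p' q') (n : ℕ) :
    ∃ P Q P' Q' : ℤ, SolW b (x ^ n) P Q P' Q' ∧
      OO B b (x ^ n) P Q P' Q' = n * OO B b x p q p' q' := by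
  induction n with
  | zero =>
    refine ⟨1, 0, 1, 0, ?_, ?_⟩
    · have := solW_cube b 1 one_ne_zero
      simpa using this
    · have := OO_cube hSTM hSPP hSLC B b 1 one_ne_zero
      simpa using this
  | succ n ih =>
    obtain ⟨P, Q, P', Q', h1, h2⟩ := ih
    obtain ⟨P₁, Q₁, P₁', Q₁', h3, h4⟩ := hTADD b (x ^ n) x P Q P' Q' p q p' q' hc hb.ne
      (pow_ne_zero n hx.ne) hx.ne h1 hS
    refine ⟨P₁, Q₁, P₁', Q₁', ?_, ?_⟩
    · rw [pow_succ]
      exact h3
    · rw [pow_succ, h4 B hB hb (adm_pow hSTM hSPP hB hx n) hx, h2]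
      push_cast
      ring

/-- an integer that is the cube of a rational number is a cube -/
theorem rcube {x m n : ℤ} (hn : n ≠ 0) (h : m ^ 3 = x * n ^ 3) : ∃ t : ℤ, t ^ 3 = x := by
  have h1 : n ^ 3 ∣ m ^ 3 := ⟨x, by rw [h]; ring⟩
  obtain ⟨t, rfl⟩ := (Int.pow_dvd_pow_iff (by norm_num)).1 h1
  refine ⟨t, ?_⟩
  have h2 : n ^ 3 * t ^ 3 = n ^ 3 * x := by
    rw [← mul_pow, h]
    ring
  exact mul_left_cancel₀ (pow_ne_zero 3 hn) h2

theorem sol_of {b x p q p' q' : ℤ} (hb : b ≠ 0) (hx : x ≠ 0) (hc : ¬ ∃ c : ℤ, c ^ 3 = x)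
    (h : SolW b x p q p' q') : Sol b x p q p' q' := by
  refine { toSolW := h, n2 := fun h2 => ?_ }
  by_cases hp : p' = 0
  · subst hp
    have hp0 : p = 0 := by
      have : p ^ 3 = 0 := by linarith
      exact pow_eq_zero_iff (by norm_num) |>.1 this
    subst hp0
    have h3 := h.eq
    have h4 := h.n1
    have h5 : b * q ^ 3 = b * (x * q' ^ 3) := by linarith
    have h6 : q ^ 3 = x * q' ^ 3 := mul_left_cancel₀ hb h5
    by_cases hq : q' = 0
    · subst hq
      apply h4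
      have : q ^ 3 = 0 := by rw [h6]; ring
      rw [this]
      ring
    · exact hc (rcube hq h6)
  · exact hc (rcube (m := p) hp (by linarith))

end TEND

open _root_.Pool.Agent.PT.TEND in
/-- the matrix is alternating and the class of a point is in its kernel -/
theorem TEND_thm (hTC : TC) (hTA : TA) (hTADD : TADD) (hTTH : TTH) (hSTM : STM) (hSPP : SPP)
    (hSSL : SSL) (hSLC : SLC) (hLCI : LCI) (hAVV : AVV) (hLFIN : LFIN) : TEND := by
  classical
  intro s b p q p' q' B hSys hB hAdm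
  have hanti : ∀ i j, Mat b p q p' q' B i j = - Mat b p q p' q' B j i := by
    intro i j
    by_cases hij : i = j
    · subst hij
      simp [Mat]
    · have hji : j ≠ i := fun h => hij h.symm
      obtain ⟨h1, h2, h3, h4⟩ := hSys.sw j i hji
      have h5 := hTA B (b j) (b i) (p j i) (q j i) (p' j i) (q' j i) hB (hAdm j) (hAdm i)
        (hSys.sol j i hji) (hSys.c9 j i hji)
      unfold Mat
      rw [if_neg hij, if_neg hji, h1, h2, h3, h4]
      exact eq_neg_of_add_eq_zero_right h5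
  refine ⟨hanti, fun c X Y hc hPt => ?_⟩
  have hAx : Adm B (∏ i, b i ^ c i) := adm_prod hSTM hSPP hB hAdm c Finset.univ
  have hxc : ¬ ∃ t : ℤ, t ^ 3 = ∏ i, b i ^ c i := hSys.ind c hc
  have hbc : ∀ j, ¬ ∃ t : ℤ, t ^ 3 = b j := by
    intro j
    have h1 := hSys.ind (fun i => if i = j then 1 else 0) ⟨j, by simp⟩
    have h2 : ∏ i, b i ^ (if i = j then 1 else 0) = b j := by
      rw [Finset.prod_eq_single j]
      · simp
      · intro i _ hij
        simp [hij]
      · intro h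
        exact absurd (Finset.mem_univ _) h
    rw [h2] at h1
    exact h1
  -- the class of the point is a norm, with the expected value of the pairing
  have key : ∀ j, (C9 (b j) ∨ 3 ∣ c j) → ∀ t : Finset (Fin s), ∃ P Q P' Q' : ℤ,
      SolW (b j) (∏ i ∈ t, b i ^ c i) P Q P' Q' ∧
      OO B (b j) (∏ i ∈ t, b i ^ c i) P Q P' Q' =
        ∑ i ∈ t, Mat b p q p' q' B j i * (c i : ZMod 3) := by
    intro j hj t
    -- one factor
    have one : ∀ i, ∃ P Q P' Q' : ℤ, SolW (b j) (b i ^ c i) P Q P' Q' ∧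
        OO B (b j) (b i ^ c i) P Q P' Q' = Mat b p q p' q' B j i * (c i : ZMod 3) := by
      intro i
      by_cases hij : i = j
      · subst hij
        have hM : Mat b p q p' q' B i i = 0 := by simp [Mat]
        rw [hM, zero_mul]
        rcases hj with hj | ⟨k, hk⟩
        · obtain ⟨P, Q, P', Q', h1, h2⟩ := POW hTADD hSTM hSPP hSLC hB (hAdm i) (hAdm i) (hbc i)
            (solW_self (b i) (hAdm i).ne) (c i)
          refine ⟨P, Q, P', Q', h1, ?_⟩
          rw [h2, hTTH B (b i) hB (hAdm i) hj, mul_zero]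
        · have h1 : b i ^ c i = (b i ^ k) ^ 3 := by
            rw [hk, ← pow_mul, mul_comm]
          rw [h1]
          exact ⟨b i ^ k, 0, 1, 0, solW_cube _ _ (pow_ne_zero _ (hAdm i).ne),
            OO_cube hSTM hSPP hSLC _ _ _ (pow_ne_zero _ (hAdm i).ne)⟩
      · have hji : j ≠ i := fun h => hij h.symm
        obtain ⟨P, Q, P', Q', h1, h2⟩ := POW hTADD hSTM hSPP hSLC hB (hAdm j) (hAdm i) (hbc j)
          (hSys.sol j i hji).toSolW (c i)
        refine ⟨P, Q, P', Q', h1, ?_⟩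
        rw [h2]
        unfold Mat
        rw [if_neg hji, mul_comm]
    induction t using Finset.induction_on with
    | empty =>
      refine ⟨1, 0, 1, 0, ?_, ?_⟩
      · have := solW_cube (b j) 1 one_ne_zero
        simpa using this
      · have := OO_cube hSTM hSPP hSLC B (b j) 1 one_ne_zero
        simpa using this
    | insert i t hi ih =>
      obtain ⟨P, Q, P', Q', h1, h2⟩ := ih
      obtain ⟨P₁, Q₁, P₁', Q₁', h3, h4⟩ := one i
      obtain ⟨P₂, Q₂, P₂', Q₂', h5, h6⟩ := hTADD (b j) (b i ^ c i) (∏ i ∈ t, b i ^ c i)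
        P₁ Q₁ P₁' Q₁' P Q P' Q' (hbc j) (hAdm j).ne (pow_ne_zero _ (hAdm i).ne)
        (adm_prod hSTM hSPP hB hAdm c t).ne h3 h1
      rw [Finset.prod_insert hi, Finset.sum_insert hi]
      refine ⟨P₂, Q₂, P₂', Q₂', h5, ?_⟩
      rw [h6 B hB (hAdm j) (adm_pow hSTM hSPP hB (hAdm i) _) (adm_prod hSTM hSPP hB hAdm c t),
        h2, h4]
  -- rows to which `TC` applies
  have good : ∀ j, (C9 (b j) ∨ 3 ∣ c j) → (C9 (b j) ∨ C9 (∏ i, b i ^ c i)) →
      ∑ i, Mat b p q p' q' B j i * (c i : ZMod 3) = 0 := by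
    intro j h1 h2
    obtain ⟨P, Q, P', Q', h3, h4⟩ := key j h1 Finset.univ
    rw [← h4]
    exact hTC B (b j) _ P Q P' Q' X Y hB (hAdm j) hAx (sol_of (hAdm j).ne hAx.ne hxc h3) hPt h2
  intro j
  by_cases hj : C9 (b j)
  · exact good j (Or.inl hj) (Or.inl hj)
  have hoth : ∀ i, i ≠ j → C9 (b i) := fun i hi => (hSys.c9 i j hi).resolve_right hj
  by_cases hcj : 3 ∣ c j
  · refine good j (Or.inr hcj) (Or.inr ?_)
    have : ∀ t : Finset (Fin s), C9 (∏ i ∈ t, b i ^ c i) := by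
      intro t
      induction t using Finset.induction_on with
      | empty => simpa using c9_one
      | insert i t hi ih =>
        rw [Finset.prod_insert hi]
        refine c9_mul ?_ ih
        by_cases hij : i = j
        · subst hij
          obtain ⟨k, hk⟩ := hcj
          rw [hk, mul_comm 3 k, pow_mul]
          exact c9_cube (three_pow (hAdm i).three k)
        · exact c9_pow (hoth i hij) _
    exact this Finset.univ
  · have hrow : ∀ i, i ≠ j → ∑ k, Mat b p q p' q' B i k * (c k : ZMod 3) = 0 := fun i hi =>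
      good i (Or.inl (hoth i hi)) (Or.inl (hoth i hi))
    set M := Mat b p q p' q' B with hM
    have h1 : ∑ i, (c i : ZMod 3) * ∑ k, M i k * (c k : ZMod 3) =
        (c j : ZMod 3) * ∑ k, M j k * (c k : ZMod 3) := by
      rw [Finset.sum_eq_single j]
      · intro i _ hi
        rw [hrow i hi, mul_zero]
      · intro h
        exact absurd (Finset.mem_univ _) h
    have h2 : ∑ i, (c i : ZMod 3) * ∑ k, M i k * (c k : ZMod 3) =
        - ∑ i, (c i : ZMod 3) * ∑ k, M i k * (c k : ZMod 3) := by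
      conv_lhs =>
        simp only [Finset.mul_sum]
        rw [Finset.sum_comm]
      rw [← Finset.sum_neg_distrib]
      apply Finset.sum_congr rfl
      intro i _
      rw [Finset.mul_sum, ← Finset.sum_neg_distrib]
      apply Finset.sum_congr rfl
      intro k _
      rw [hanti k i]
      ring
    have h3 : ∑ i, (c i : ZMod 3) * ∑ k, M i k * (c k : ZMod 3) = 0 := by
      generalize ∑ i, (c i : ZMod 3) * ∑ k, M i k * (c k : ZMod 3) = z at h2
      revert h2
      revert z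
      decide
    rw [h1] at h3
    rcases mul_eq_zero.1 h3 with h | h
    · exact absurd ((ZMod.natCast_eq_zero_iff _ _).1 h) hcj
    · exact h

end Pool.Agent.PT


end

section

/-!
# GTS: existence, uniqueness and properties of `t`
-/

set_option autoImplicit false
set_option linter.unusedSectionVars false

namespace Pool.Agent.PTE

open Pool.Agent.Lib_helper18 Pool.Agent.Lib_helper18.Eis Pool.Agent.Lib_helper84.Cub
open Pool.Agent.PT

namespace GTS

open Pool.Agent.PT.GT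

variable {L : Type} [Field L] [NumberField L] {ω : L}

/-- The element `A` for `ω ρ` in terms of the one for `ρ`. -/
theorem mov {ρ t A A' : L} {p q p' q' b x : ℤ}
    (hω : ω ^ 2 + ω + 1 = 0) (hρ : ρ ^ 3 = (b : L)) (ht : t ^ 3 = (x : L))
    (hs : SolW b x p q p' q')
    (hA : A ^ 3 * aD ω p q p' q' ρ = aN ω p q p' q' ρ)
    (hA' : A' ^ 3 * aD ω p q p' q' (ω * ρ) = aN ω p q p' q' (ω * ρ)) :
    ∃ e : ℕ, A' * (p + q * ω ^ 2 * ρ) = ω ^ e * (A * t * (p' + q' * ω ^ 2 * ρ)) := by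
  have h3 := hA'
  have hN := PT.GC.nrm hω hρ (p := p) (q := q)
  have hN' := PT.GC.nrm hω hρ (p := p') (q := q')
  have hnz := mul_ne_zero (PT.GC.ne3 hω hρ (PT.GC.n1' hs)).1 (PT.GC.ne3 hω hρ hs.n1).2.1
  unfold aD aN at h3 hA
  have hc := PT.GC.om3 hω
  have h4 : A' ^ 3 * ((p + q * ω ^ 2 * ρ) * (p' + q' * ρ)) =
      (p + q * ρ) * (p' + q' * ω ^ 2 * ρ) := by
    have e1 : (p : L) + q * ω * (ω * ρ) = p + q * ω ^ 2 * ρ := by ring
    have e2 : (p' : L) + q' * ω ^ 2 * (ω * ρ) = p' + q' * ρ := by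
      linear_combination ((q' : L) * ρ) * hc
    have e3 : (p : L) + q * ω ^ 2 * (ω * ρ) = p + q * ρ := by
      linear_combination ((q : L) * ρ) * hc
    have e4 : (p' : L) + q' * ω * (ω * ρ) = p' + q' * ω ^ 2 * ρ := by ring
    rw [e1, e2, e3, e4] at h3
    exact h3
  have heq : ((p ^ 3 + b * q ^ 3 : ℤ) : L) = (x : L) * ((p' ^ 3 + b * q' ^ 3 : ℤ) : L) := by
    rw [hs.eq]
    push_cast
    ring
  rw [← hN, ← hN'] at heq
  apply PT.GC.cube_eq hω
  apply mul_right_cancel₀ hnz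
  rw [mul_pow, mul_pow, mul_pow, ht]
  calc A' ^ 3 * ((p : L) + q * ω ^ 2 * ρ) ^ 3 * ((p' + q' * ρ) * (p + q * ω * ρ))
      = (A' ^ 3 * ((p + q * ω ^ 2 * ρ) * (p' + q' * ρ))) *
          ((p + q * ω ^ 2 * ρ) ^ 2 * (p + q * ω * ρ)) := by ring
    _ = ((p : L) + q * ρ) * ((p + q * ω * ρ) * (p + q * ω ^ 2 * ρ)) *
          ((p' + q' * ω ^ 2 * ρ) * (p + q * ω ^ 2 * ρ)) := by rw [h4]; ring
    _ = (A ^ 3 * ((p + q * ω * ρ) * (p' + q' * ω ^ 2 * ρ))) *
          (x * ((p' + q' * ω ^ 2 * ρ) ^ 2 * (p' + q' * ρ))) := by rw [heq, hA]; ring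
    _ = A ^ 3 * (x : L) * ((p' : L) + q' * ω ^ 2 * ρ) ^ 3 * ((p' + q' * ρ) * (p + q * ω * ρ)) := by
        ring

/-- `g` acts by `ω^t` on all `A` belonging to `ρ`. -/
def W (ω : L) (p q p' q' : ℤ) (g : L ≃ₐ[ℚ] L) (t : ZMod 3) (ρ : L) : Prop :=
  ∀ A : L, A ^ 3 * aD ω p q p' q' ρ = aN ω p q p' q' ρ → g A = E ω t * A

theorem W_step {ρ θ A : L} {p q p' q' b x : ℤ} {g : L ≃ₐ[ℚ] L} {t : ZMod 3}
    (hω : ω ^ 2 + ω + 1 = 0) (hρ : ρ ^ 3 = (b : L)) (hθ : θ ^ 3 = (x : L))
    (hs : SolW b x p q p' q') (hg : g ω = ω) (hgρ : g ρ = ρ) (hgθ : g θ = θ)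
    (hA : A ^ 3 * aD ω p q p' q' ρ = aN ω p q p' q' ρ) (h : W ω p q p' q' g t ρ) :
    W ω p q p' q' g t (ω * ρ) := by
  intro A' hA'
  obtain ⟨e, he⟩ := mov hω hρ hθ hs hA hA'
  have hnz := (PT.GC.ne3 hω hρ hs.n1).2.2
  apply mul_right_cancel₀ hnz
  have h1 := congrArg g he
  simp only [map_mul, map_pow, map_add, map_intCast, hg, hgρ, hgθ, h A hA] at h1
  rw [h1, mul_assoc (E ω t) A' _, he]
  ring

theorem W_all {ρ ρ' θ : L} {p q p' q' b x : ℤ} {g : L ≃ₐ[ℚ] L} {t : ZMod 3}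
    (hω : ω ^ 2 + ω + 1 = 0) (hρ : ρ ^ 3 = (b : L)) (hρ' : ρ' ^ 3 = (b : L))
    (hθ : θ ^ 3 = (x : L)) (hs : SolW b x p q p' q') (hg : g ω = ω)
    (hgρ : ∀ ρ : L, ρ ^ 3 = (b : L) → g ρ = ρ) (hgθ : g θ = θ)
    (hA : ∀ ρ : L, ρ ^ 3 = (b : L) → ∃ A, A ^ 3 * aD ω p q p' q' ρ = aN ω p q p' q' ρ)
    (h : W ω p q p' q' g t ρ) : W ω p q p' q' g t ρ' := by
  have hc := PT.GC.om3 hω
  obtain ⟨k, hk⟩ := PT.GC.cube_eq hω (hρ'.trans hρ.symm)
  have hpow : ∀ k : ℕ, (ω ^ k * ρ) ^ 3 = (b : L) ∧ W ω p q p' q' g t (ω ^ k * ρ) := by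
    intro k
    induction k with
    | zero => exact ⟨by rw [pow_zero, one_mul, hρ], by rw [pow_zero, one_mul]; exact h⟩
    | succ k ih =>
      obtain ⟨A, hA1⟩ := hA _ ih.1
      have e : ω ^ (k + 1) * ρ = ω * (ω ^ k * ρ) := by ring
      rw [e]
      refine ⟨?_, W_step hω ih.1 hθ hs hg (hgρ _ ih.1) hgθ hA1 ih.2⟩
      rw [mul_pow, hc, one_mul, ih.1]
  rw [hk]
  exact (hpow k).2

theorem pow_ω {g : L ≃ₐ[ℚ] L} (hg : g ω = ω) (k : ℕ) : (g ^ k) ω = ω := by
  induction k with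
  | zero => rfl
  | succ k ih =>
    rw [pow_succ']
    change g ((g ^ k) ω) = ω
    rw [ih, hg]

theorem pow_E (rel : ω ^ 2 + ω + 1 = 0) {g : L ≃ₐ[ℚ] L} (hg : g ω = ω) {x : L} {u : ZMod 3}
    (hx : g x = E ω u * x) (k : ℕ) : (g ^ k) x = E ω (k * u) * x := by
  induction k with
  | zero =>
    rw [Nat.cast_zero, zero_mul, E_zero, one_mul]
    rfl
  | succ k ih =>
    rw [pow_succ']
    change g ((g ^ k) x) = _
    rw [ih, map_mul, map_E' hg, hx, ← mul_assoc, ← E_add rel]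
    congr 2
    push_cast
    ring

theorem conj_apply (g τ : L ≃ₐ[ℚ] L) (x : L) : (τ * g * τ⁻¹) x = τ (g (τ⁻¹ x)) := rfl

theorem apply_inv (τ : L ≃ₐ[ℚ] L) (x : L) : τ (τ⁻¹ x) = x := τ.apply_symm_apply x

end GTS

open Pool.Agent.PT.GT in
/-- GTS: existence, uniqueness and properties of `t`. -/
theorem GTS_thm : GTS := by
  intro s b p q p' q' f L _ _ ζ ω hS hG
  have rel := hG.rel
  have h3 := cube_one rel
  have hω0 := ω_ne_zero rel
  have rootne : ∀ (g : L ≃ₐ[ℚ] L) (ρ : L), g ρ ≠ ρ → ρ ≠ 0 := by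
    rintro g ρ h rfl
    exact h (map_zero g)
  refine ⟨?_, ?_⟩
  · intro g hg hF
    have hmove : ∀ ρ : L, ρ ^ 3 = (b (Fin.last s) : L) → ∃ u : ZMod 3, u ≠ 0 ∧
        g ρ = E ω u * ρ := by
      intro ρ hρ
      have h1 : (g ρ) ^ 3 = ρ ^ 3 := by rw [← map_pow, hρ, map_intCast]
      obtain ⟨u, hu⟩ := of_cube rel h1
      refine ⟨u, ?_, hu⟩
      rintro rfl
      rw [E_zero, one_mul] at hu
      exact hF.2 ρ hρ hu
    have hk0 : ∀ (k : ℕ) (ρ : L), ρ ^ 3 = (b (Fin.last s) : L) → (g ^ k) ρ = ρ → 3 ∣ k := by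
      intro k ρ hρ hk
      obtain ⟨u, hu0, hu⟩ := hmove ρ hρ
      have h1 := GTS.pow_E rel hg hu k
      rw [hk] at h1
      have hρ0 := rootne g ρ (hF.2 ρ hρ)
      have h2 : E ω 0 = E ω (k * u) := by
        apply mul_right_cancel₀ hρ0
        rw [E_zero, one_mul]
        exact h1
      have h4 := E_inj rel h2
      have : Fact (Nat.Prime 3) := ⟨Nat.prime_three⟩
      rcases mul_eq_zero.1 h4.symm with h5 | h5
      · exact (ZMod.natCast_eq_zero_iff k 3).1 h5
      · exact absurd h5 hu0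
    refine ⟨?_, ?_, ?_⟩
    · obtain ⟨θ, hθ⟩ := hG.root (Fin.last s)
      apply hk0 _ θ hθ
      rw [pow_orderOf_eq_one]
      rfl
    · intro τ
      have hinv : ∀ (j : Fin (s + 1)) (ρ : L), ρ ^ 3 = (b j : L) → (τ⁻¹ ρ) ^ 3 = (b j : L) := by
        intro j ρ hρ
        rw [← map_pow, hρ, map_intCast]
      refine ⟨?_, ?_, ?_⟩
      · rw [GTS.conj_apply]
        have h1 : g (τ⁻¹ ω) = τ⁻¹ ω := by
          rcases map_ω rel (τ⁻¹ : L ≃ₐ[ℚ] L) with h | h
          · rw [h, hg]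
          · rw [h, map_pow, hg]
        rw [h1, GTS.apply_inv]
      · intro j ρ hρ
        rw [GTS.conj_apply, hF.1 j _ (hinv _ ρ hρ), GTS.apply_inv]
      · intro ρ hρ h1
        rw [GTS.conj_apply] at h1
        apply hF.2 _ (hinv _ ρ hρ)
        apply τ.injective
        rw [h1, GTS.apply_inv]
    · intro k
      refine ⟨GTS.pow_ω hg k, fun hk => ⟨?_, ?_⟩⟩
      · intro j ρ hρ
        have h1 : g ρ = E ω 0 * ρ := by rw [hF.1 j ρ hρ, E_zero, one_mul]
        rw [GTS.pow_E rel hg h1, mul_zero, E_zero, one_mul]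
      · intro ρ hρ h1
        exact hk (hk0 k ρ hρ h1)
  · intro j i hji
    have hji' : j.castSucc ≠ i.castSucc := fun h => hji (Fin.castSucc_injective _ h)
    have hsol := hS.sol _ _ hji'
    have hAne : ∀ ρ A : L, ρ ^ 3 = (b j.castSucc : L) →
        A ^ 3 * aD ω (p j.castSucc i.castSucc) (q j.castSucc i.castSucc)
          (p' j.castSucc i.castSucc) (q' j.castSucc i.castSucc) ρ =
        aN ω (p j.castSucc i.castSucc) (q j.castSucc i.castSucc)
          (p' j.castSucc i.castSucc) (q' j.castSucc i.castSucc) ρ → A ≠ 0 := by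
      rintro ρ A hρ hA rfl
      apply (hG.D _ _ hji' ρ hρ).2
      rw [← hA]
      ring
    refine ⟨?_, ?_, ?_⟩
    · intro g hg hF
      obtain ⟨ρ, hρ⟩ := hG.root j.castSucc
      obtain ⟨θ, hθ⟩ := hG.root i.castSucc
      obtain ⟨A, hA⟩ := hG.A _ _ hji' ρ hρ
      have hA0 := hAne ρ A hρ hA
      obtain ⟨hD, hN⟩ := hG.D _ _ hji' ρ hρ
      have hgρ := hF.1 j ρ hρ
      have e1 : (g A) ^ 3 = A ^ 3 := by
        have h1 := congrArg g hA
        rw [map_mul, map_pow, map_aD' hg, map_aN' hg, hgρ, ← hA] at h1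
        exact mul_right_cancel₀ hD h1
      obtain ⟨t, ht⟩ := of_cube rel e1
      have hW : GTS.W ω (p j.castSucc i.castSucc) (q j.castSucc i.castSucc)
          (p' j.castSucc i.castSucc) (q' j.castSucc i.castSucc) g t ρ := by
        intro A' hA'
        have e2 : A' ^ 3 = A ^ 3 := mul_right_cancel₀ hD (hA'.trans hA.symm)
        obtain ⟨m, hm⟩ := of_cube rel e2
        rw [hm, map_mul, map_E' hg, ht]
        ring
      refine ⟨t, ?_, ?_⟩
      · intro ρ' A' hρ' hA'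
        exact GTS.W_all rel hρ hρ' hθ hsol.toSolW hg (hF.1 j) (hF.1 i θ hθ)
          (hG.A _ _ hji') hW A' hA'
      · intro t' ht'
        have h1 : g A = E ω t' * A := ht' ρ A hρ hA
        rw [ht] at h1
        exact (E_inj rel (mul_right_cancel₀ hA0 h1)).symm
    · intro g τ t hg hF ht ρ A hρ hA
      have hρ' : (τ⁻¹ ρ) ^ 3 = (b j.castSucc : L) := by rw [← map_pow, hρ, map_intCast]
      have hA0 := hAne ρ A hρ hA
      have e1 := congrArg (τ⁻¹ : L ≃ₐ[ℚ] L) hA
      rw [map_mul, map_pow] at e1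
      rw [GTS.conj_apply]
      change τ (g (τ⁻¹ A)) = E ω t * A
      rcases map_ω rel (τ⁻¹ : L ≃ₐ[ℚ] L) with hτ | hτ
      · rw [map_aD' hτ, map_aN' hτ] at e1
        have h1 : g (τ⁻¹ A) = E ω t * τ⁻¹ A := ht _ _ hρ' e1
        have hτω : τ ω = ω := by
          have := congrArg τ hτ
          rw [GTS.apply_inv] at this
          exact this.symm
        rw [h1, map_mul, map_E' hτω, GTS.apply_inv]
      · rw [map_aD rel hτ, map_aN rel hτ] at e1
        have hA1 : τ⁻¹ A ≠ 0 := by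
          rw [Ne, EmbeddingLike.map_eq_zero_iff]
          exact hA0
        have h1 : g ((τ⁻¹ A)⁻¹) = E ω t * (τ⁻¹ A)⁻¹ := by
          apply ht _ _ hρ'
          rw [inv_pow, ← e1]
          field_simp
        have hτω : τ ω = ω ^ 2 := by
          have h4 := congrArg τ hτ
          rw [GTS.apply_inv, map_pow] at h4
          rcases map_ω rel τ with h5 | h5
          · exfalso
            rw [h5] at h4
            apply ω_ne_one rel
            have h6 : ω * (ω - 1) = 0 := by linear_combination -h4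
            rcases mul_eq_zero.1 h6 with h7 | h7
            · exact absurd h7 hω0
            · exact sub_eq_zero.1 h7
          · exact h5
        have h2 : g (τ⁻¹ A) = E ω (-t) * τ⁻¹ A := by
          rw [map_inv₀] at h1
          rw [E_neg rel]
          have h4 := congrArg (fun x => x⁻¹) h1
          simp only [inv_inv, mul_inv] at h4
          exact h4
        rw [h2, map_mul, map_E rel hτω, neg_neg, GTS.apply_inv]
    · intro g t k hg ht ρ A hρ hA
      have h1 : g A = E ω t * A := ht ρ A hρ hA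
      exact GTS.pow_E rel hg h1 k

end Pool.Agent.PTE


end

section

/-!
# EMAX: the number of the classes such that the matrix is invertible
-/

namespace Pool.Agent.PT3

open Pool.Agent.Lib_helper18 Pool.Agent.Lib_helper18.Eis Pool.Agent.Lib_helper84.Cub
open Pool.Agent.PT Pool.Agent.PTE

namespace EMAX

theorem Mt_eq (h n : ℕ) {m : ℕ} (π : Fin m → PP) (p e : Fin m → ℕ) (w0 : ZMod 3)
    (c : Fin m → ZMod 3) :
    Mt h n π p e w0 c = Mt h n π p e w0 0 -
      Matrix.diagonal (Fin.cons 0 c : Fin (m + 1) → ZMod 3) := by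
  ext a b
  rw [Matrix.sub_apply]
  refine Fin.cases ?_ (fun i => ?_) a
  · have h0 : (Matrix.diagonal (Fin.cons 0 c : Fin (m + 1) → ZMod 3)) 0 b = 0 := by
      by_cases hb : (0 : Fin (m + 1)) = b
      · rw [← hb, Matrix.diagonal_apply_eq, Fin.cons_zero]
      · rw [Matrix.diagonal_apply_ne _ hb]
    rw [h0, sub_zero]
    rfl
  · refine Fin.cases ?_ (fun i' => ?_) b
    · rw [Matrix.diagonal_apply_ne _ (Fin.succ_ne_zero i), sub_zero]
      rfl
    · by_cases h1 : i' = i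
      · subst h1
        rw [Matrix.diagonal_apply_eq, Fin.cons_succ]
        simp [Mt]
      · have h' : i.succ ≠ i'.succ := fun h2 => h1 (Fin.succ_injective _ h2).symm
        rw [Matrix.diagonal_apply_ne _ h', sub_zero]
        simp [Mt, h1]

end EMAX

open _root_.Pool.Agent.PT3.EMAX in
theorem EMAX_thm (hEDC : EDC) : EMAX := by
  intro h n m π p e w0 hw
  have h0 : Mt h n π p e w0 0 0 0 ≠ 0 := by
    have h1 : Mt h n π p e w0 0 0 0 = if h = 2 then wt ((n : ℤ) ^ 2) + w0 else 1 := rfl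
    rw [h1]
    split_ifs with h2
    · exact hw h2
    · exact one_ne_zero
  have h3 : ∀ c : Fin m → ZMod 3, (Mt h n π p e w0 0 -
      Matrix.diagonal (Fin.cons 0 c : Fin (m + 1) → ZMod 3)).det ≠ 0 ↔
      (Mt h n π p e w0 c).det ≠ 0 := fun c => by
    rw [Mt_eq h n π p e w0 c]
  exact (hEDC m _ h0).trans_eq (Nat.card_congr (Equiv.subtypeEquivRight h3))

end Pool.Agent.PT3


end

section

/-!
# ESYT: from a basis to a system with solutions, `n` divisible by `3`
-/

set_option linter.unusedVariables false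

open Finset

namespace Pool.Agent.PT3

open Pool.Agent.Lib_helper18 Pool.Agent.Lib_helper18.Eis Pool.Agent.Lib_helper84.Cub
open Pool.Agent.PT Pool.Agent.PTE

namespace ESYT

/-- the symbols of two admissible classes -/
theorem tm_zero (hSPP : SPP) (hSCJ : SCJ) {h n m k : ℕ} {π : Fin m → PP} {p e : Fin m → ℕ}
    {r f : Fin k → ℕ} {w0 : ZMod 3} {c : Fin m → ZMod 3} (hN : NF n π p e r f) {x y : ℤ}
    (hx : AdC h n π w0 c x) (hy : AdC h n π w0 c y) (ρ : PP) :
    tm ρ.1 (x : Eis) (y : Eis) = 0 := by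
  obtain ⟨-, hS2, -, hS4, -, hS6⟩ := hSPP
  obtain ⟨hC1, -, -, hC4⟩ := hSCJ
  obtain ⟨l, hl, ⟨hl3, hρ⟩ | ⟨hl3, hnorm, hn, hna⟩⟩ := hS6 ρ
  · rw [hρ]
    exact hC4 l hl hl3 x y hx.ne hy.ne
  by_cases hln : l ∣ n
  · rcases PT.ESYS.prime_cases hN hl hln with ⟨i, rfl⟩ | ⟨j, rfl⟩
    · -- the key computation
      have key : ∀ σ : PP, σ = π i → σ.1.norm = p i → (p i : Eis) = σ.1 * conj σ.1 →
          ¬ Associated σ.1 (conj σ.1) → tm σ.1 (x : Eis) (y : Eis) = 0 := by
        intro σ hσ h1 h2 h3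
        have hV := PT.ESYS.V_n hN i σ.2.1 h1 h2 h3
        have e1 := hx.sym i
        have e2 := hy.sym i
        rw [← hσ, hV] at e1 e2
        have h4 : (e i : ZMod 3) * tm σ.1 (x : Eis) (y : Eis) = 0 := by
          unfold tm
          linear_combination (V σ.1 (y : Eis) : ZMod 3) * e1 - (V σ.1 (x : Eis) : ZMod 3) * e2
        rcases hN.pe i with h5 | h5
        · rw [h5] at h4
          simpa using h4
        · rw [h5] at h4
          generalize tm σ.1 (x : Eis) (y : Eis) = z at h4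
          revert z
          decide
      have hd : ρ.1 ∣ (π i).1 * conj (π i).1 := by
        rw [← hN.pπ i, hn]
        exact Dvd.intro _ rfl
      rcases ρ.2.1.dvd_or_dvd hd with h1 | h1
      · have h2 := hS2 ρ (π i) ((ρ.2.1.dvd_prime_iff_associated (π i).2.1).1 h1)
        exact key ρ h2 hnorm hn hna
      · obtain ⟨σ, hσ⟩ := (hS4 (π i)).2
        have h2 : ρ = σ := by
          apply hS2
          rw [hσ]
          exact (ρ.2.1.dvd_prime_iff_associated (prime_conj (π i).2.1)).1 h1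
        have h3 : (π i).1 = conj ρ.1 := by rw [h2, hσ, conj_conj]
        have h4 := key (π i) rfl (by rw [h3, norm_conj, hnorm])
          (by rw [h3, conj_conj, mul_comm, ← hn])
          (by
            rw [h3, conj_conj]
            exact fun h => hna h.symm)
        have h5 : ¬ (π i).1 ∣ 3 := (hS4 (π i)).1
        have h6 := hC1 (π i).1 (x : Eis) (y : Eis) (π i).2.1 h5 (PT.ESYS.cast_ne hx.ne)
          (PT.ESYS.cast_ne hy.ne)
        rw [h4, neg_zero, conj_intCast, conj_intCast, h3, conj_conj] at h6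
        exact h6
    · have := hN.r2 j
      omega
  · have hnd : ∀ z : ℤ, AdC h n π w0 c z → V ρ.1 (z : Eis) = 0 := by
      intro z hz
      apply V_eq_zero
      intro hd
      have h1 := hz.supp l hl (PT.ESYS.dvd_int hl hnorm hd)
      rcases hl.dvd_mul.1 h1 with h2 | h2
      · have h3 := (Nat.prime_dvd_prime_iff_eq hl Nat.prime_three).1 h2
        omega
      · exact hln h2
    unfold tm
    rw [hnd x hx, hnd y hy]
    simp

end ESYT

theorem ESYT_thm (hSTM : STM) (hSPP : SPP) (hSCJ : SCJ) (hHNT : HNT) : ESYT := by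
  classical
  intro h n m k π p e r f w0 c s b hNF hA hV hind h3
  have hnc : ∀ i, ¬ ∃ t : ℤ, t ^ 3 = b i := by
    intro i
    have := hind (fun j => if j = i then 1 else 0) ⟨i, by simp⟩
    simpa [Finset.prod_ite_eq'] using this
  have hex1 : ∀ j i : Fin s, ¬ (3 : ℤ) ∣ b j → ∃ P Q P' Q' : ℤ, Sol (b j) (b i) P Q P' Q' := by
    intro j i hj
    obtain ⟨P, Q, P', Q', h⟩ := hHNT (b j) (b i) (hA j).ne hj (hnc j) (hV j) (hA i).ne
      (fun ρ => ESYT.tm_zero hSPP hSCJ hNF (hA j) (hA i) ρ)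
    exact ⟨P, Q, P', Q', PT.ESYS.sol_of h (hA j).ne (hnc i)⟩
  have hex : ∀ j i : Fin s, ∃ P Q P' Q' : ℤ, j ≠ i → Sol (b j) (b i) P Q P' Q' := by
    intro j i
    by_cases hji : j = i
    · exact ⟨0, 0, 0, 0, fun h => absurd hji h⟩
    · rcases h3 j i hji with h4 | h4
      · obtain ⟨P, Q, P', Q', h5⟩ := hex1 j i h4
        exact ⟨P, Q, P', Q', fun _ => h5⟩
      · obtain ⟨P, Q, P', Q', h5⟩ := hex1 i j h4
        exact ⟨P, -P', -Q, Q', fun _ => PT.ESYS.sol_swap h5⟩
  choose P Q P' Q' hsol using hex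
  refine ⟨fun j i => if j < i then P j i else P i j, fun j i => if j < i then Q j i else - P' i j,
    fun j i => if j < i then P' j i else - Q i j, fun j i => if j < i then Q' j i else Q' i j,
    ⟨hind, ?_⟩, ?_⟩
  · intro j i hji
    rcases lt_or_gt_of_ne hji with h | h
    · simp only [h, if_true]
      exact hsol j i hji
    · simp only [not_lt_of_gt h, if_false]
      exact PT.ESYS.sol_swap (hsol i j hji.symm)
  · intro j i hji
    rcases lt_or_gt_of_ne hji with h | h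
    · simp [h, not_lt_of_gt h]
    · simp [h, not_lt_of_gt h]

end Pool.Agent.PT3


end

section

/-!
# Prime twists of rank zero, `n` divisible by `3`: module FCLT
-/

set_option autoImplicit false

open NumberField IsDedekindDomain Finset
open scoped nonZeroDivisors Pointwise

namespace Pool.Agent.PT3

open Pool.Agent.Lib_helper18 Pool.Agent.Lib_helper18.Eis Pool.Agent.Lib_helper84.Cub
open Pool.Agent.PT Pool.Agent.PTE

/-- FCLT: one class, `3^h n`, `h + k` even. -/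
theorem FCLT_thm (hSPP : SPP) (hECLT : ECLT) (hDCOT : DCOT) (hCLSC : CLSC) (hDENG : DENG) :
    FCLT := by
  intro h n m k π p e r f w0 c hNF hh hk hMt
  obtain ⟨s, b, X, Y, P, Q, P', Q', hs, hsys, hb0, hq⟩ :=
    hECLT h n m k π p e r f w0 c hNF hh hk hMt
  have hn : 0 < n := PT.FINA.pos_of_nf hNF
  have hN0 : 0 < 3 ^ h * n := Nat.mul_pos (pow_pos (by norm_num) _) hn
  have hBB : ∀ q : ℕ, BB h n 1 q = ((3 ^ h * n : ℕ) : ℤ) * (q : ℤ) ^ 1 := by
    intro q
    unfold BB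
    push_cast
    ring
  have hD : ∀ j i : Fin s, ∃ f₀ : ℕ, 0 < f₀ ∧ ∀ F : ℕ, 0 < F → f₀ ∣ F →
      ∃ (C : ZMod 3) (Φ : (ZMod F)ˣ →* Multiplicative (ZMod 3)), j ≠ i →
        ∀ (q : ℕ) (hQ : q.Coprime F), q.Prime → q % 3 = 2 →
          AG (BB h n 1 q) (b i) → ∀ t : ℤ, (q : ℤ) ∣ t ^ 3 - b j →
          OT (BB h n 1 q) (b j) (X j) (Y j) (b i) (P j i) (Q j i) (P' j i) (Q' j i) =
            C + (Φ (ZMod.unitOfCoprime q hQ)).toAdd -
              TAUV q (P j i) (Q j i) (P' j i) (Q' j i) t := by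
    intro j i
    by_cases hji : j = i
    · exact ⟨1, one_pos, fun F _ _ => ⟨0, 1, fun h => absurd hji h⟩⟩
    · obtain ⟨f₀, hf₀, h'⟩ := hDCOT (3 ^ h * n) (b j) (X j) (Y j) (b i) (P j i) (Q j i) (P' j i)
        (Q' j i) hN0 (hsys.sol j i hji) (hb0 j) (hb0 i)
      refine ⟨f₀, hf₀, fun F hF hd => ?_⟩
      obtain ⟨C, Φ, h''⟩ := h' F hF hd
      refine ⟨C, Φ, fun _ q hQ hqp hq3 hAG t ht => ?_⟩
      rw [hBB q] at hAG ⊢
      have h1 := h'' 1 q hQ hqp hq3 hAG t ht
      rw [h1]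
      push_cast
      ring
  choose f₀ hf₀ hD1 using hD
  obtain ⟨F, hF, h9, hpF, hfF⟩ : ∃ F : ℕ, 0 < F ∧ 9 ∣ F ∧ (∀ i, p i ∣ F) ∧ ∀ j i, f₀ j i ∣ F := by
    refine ⟨9 * (∏ i, p i) * ∏ j, ∏ i, f₀ j i, ?_, ?_, ?_, ?_⟩
    · have h1 : 0 < ∏ i, p i := Finset.prod_pos fun i _ => (hNF.pp i).pos
      have h2 : 0 < ∏ j, ∏ i, f₀ j i :=
        Finset.prod_pos fun j _ => Finset.prod_pos fun i _ => hf₀ j i
      positivity
    · exact Dvd.dvd.mul_right (Dvd.intro _ rfl) _
    · intro i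
      exact Dvd.dvd.mul_right (Dvd.dvd.mul_left (Finset.dvd_prod_of_mem p (mem_univ i)) _) _
    · intro j i
      exact Dvd.dvd.mul_left ((Finset.dvd_prod_of_mem (fun i => f₀ j i) (mem_univ i)).trans
        (Finset.dvd_prod_of_mem (fun j => ∏ i, f₀ j i) (mem_univ j))) _
  choose C Φ hD2 using fun j i => hD1 j i F hF (hfF j i)
  obtain ⟨κ, hκ, hcount⟩ := hCLSC m π p hNF.pp hNF.p1 hNF.pπ hNF.pinj F hF h9 hpF
  have hdens := hDENG s b P Q P' Q' F m κ (Fin.cons w0 c) C (PT.FINA.assemble Φ) hsys hs hF h9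
    hcount
  refine RI.PDGE_thm _ _ (Finset.range (n + 4)) _ hdens ?_
  rintro q ⟨hQ, hq3, hκq, hdet⟩ hqp hqA
  rw [Finset.mem_range, not_lt] at hqA
  rw [hκ q hQ] at hκq
  have hcl : InCl π w0 c q := by
    refine ⟨hq3, ?_, fun i => ?_⟩
    · have := congrFun hκq 0
      simpa using this
    · have := congrFun hκq i.succ
      simpa using this
  have hct : InCT 1 π w0 c q := by
    refine ⟨?_, fun i => ?_⟩
    · rw [pow_one]
      exact hcl.2.1
    · rw [Nat.cast_one, one_mul]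
      exact hcl.2.2 i
  have hqn : ¬ q ∣ n := fun h => by
    have := Nat.le_of_dvd hn h
    omega
  refine ⟨hcl, fun hXY => ?_⟩
  obtain ⟨hB, hA, hskew, hM⟩ := hq 1 q (Or.inl rfl) hqp hq3 hct hqn
  have hM0 := hM (by
    obtain ⟨x, y, hxy⟩ := hXY
    refine ⟨x, y, ?_⟩
    rw [hxy, hBB q]
    push_cast
    ring)
  let τ : Fin s → Fin s → ZMod 3 := fun j i =>
    C j i + (Φ j i (ZMod.unitOfCoprime q hQ)).toAdd -
      OT (BB h n 1 q) (b j) (X j) (Y j) (b i) (P j i) (Q j i) (P' j i) (Q' j i)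
  apply hdet τ
  · intro j i hji t ht
    have h1 := hD2 j i hji q hQ hqp hq3 (hA i).toAG t ht
    simp only [τ]
    rw [h1]
    ring
  · rw [← hM0]
    congr 1
    ext j i
    have hv : ∀ j i, (C + (PT.FINA.assemble Φ (ZMod.unitOfCoprime q hQ)).toAdd - τ) j i =
        OT (BB h n 1 q) (b j) (X j) (Y j) (b i) (P j i) (Q j i) (P' j i) (Q' j i) := by
      intro j i
      simp only [Pi.sub_apply, Pi.add_apply, τ, PT.FINA.assemble_apply]
      ring
    unfold alt
    rw [hv, hv]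
    by_cases h1 : j < i
    · rw [if_pos h1]
      unfold MaT
      rw [if_neg h1.ne]
    · rw [if_neg h1]
      by_cases h2 : i < j
      · rw [if_pos h2, hskew j i]
        unfold MaT
        rw [if_neg h2.ne]
      · rw [if_neg h2]
        have h3 : j = i := le_antisymm (not_lt.1 h2) (not_lt.1 h1)
        unfold MaT
        rw [if_pos h3]

end Pool.Agent.PT3


end

section

/-!
# GTG: existence, uniqueness and properties of `t`
-/

set_option autoImplicit false
set_option linter.unusedSectionVars false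

namespace Pool.Agent.PT3

open Pool.Agent.PT Pool.Agent.PTE Pool.Agent.Lib_helper18 Pool.Agent.Lib_helper18.Eis Pool.Agent.Lib_helper84.Cub

open Pool.Agent.PT.GT in
/-- GTG: existence, uniqueness and properties of `t`. -/
theorem GTG_thm : GTG := by
  intro s b p q p' q' f L _ _ ζ ω _ hG j i hji
  have rel := hG.rel
  have h3 := cube_one rel
  -- one witness is enough
  have isT_of : ∀ (g : L ≃ₐ[ℚ] L) (t : ZMod 3) (ρ A : L), g ω = ω ^ 2 → ρ ^ 3 = (b j : L) →
      g ρ = ρ → A ^ 3 * aD ω (p j i) (q j i) (p' j i) (q' j i) ρ =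
        aN ω (p j i) (q j i) (p' j i) (q' j i) ρ → g A * A = E ω t →
      IsT b p q p' q' ω g j i t := by
    intro g t ρ A hg hρ hf hA ht ρ' A' hρ' hf' hA'
    have e1 := fixed_unique rel hg hρ hρ' hf hf'
    subst e1
    have hD := (hG.D j i hji ρ' hρ').1
    have e2 : A' ^ 3 = A ^ 3 := mul_right_cancel₀ hD (hA'.trans hA.symm)
    obtain ⟨k, hk⟩ := of_cube rel e2
    change g A' * A' = E ω t
    rw [hk, map_mul, map_E rel hg, E_neg rel, ← ht]
    have hk0 := E_ne_zero rel k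
    field_simp
  -- witnesses exist
  have exW : ∀ g : L ≃ₐ[ℚ] L, g ω = ω ^ 2 → ∃ ρ A : L, ρ ^ 3 = (b j : L) ∧ g ρ = ρ ∧
      A ^ 3 * aD ω (p j i) (q j i) (p' j i) (q' j i) ρ =
        aN ω (p j i) (q j i) (p' j i) (q' j i) ρ ∧ A ≠ 0 := by
    intro g hg
    obtain ⟨θ, hθ⟩ := hG.root j
    obtain ⟨ρ, hρ, hf⟩ := exists_fixed rel hg hθ
    obtain ⟨A, hA⟩ := hG.A j i hji ρ hρ
    refine ⟨ρ, A, hρ, hf, hA, ?_⟩
    rintro rfl
    apply (hG.D j i hji ρ hρ).2
    rw [← hA]
    ring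
  refine ⟨?_, ?_, ?_⟩
  · intro g hg
    obtain ⟨ρ, A, hρ, hf, hA, hA0⟩ := exW g hg
    obtain ⟨hD, hN⟩ := hG.D j i hji ρ hρ
    have e1 : (g A) ^ 3 * aN ω (p j i) (q j i) (p' j i) (q' j i) ρ =
        aD ω (p j i) (q j i) (p' j i) (q' j i) ρ := by
      have := congrArg g hA
      rwa [map_mul, map_pow, map_aD rel hg, map_aN rel hg, hf] at this
    have e2 : (g A * A) ^ 3 = (1 : L) ^ 3 := by
      have h5 : (g A * A) ^ 3 * (aN ω (p j i) (q j i) (p' j i) (q' j i) ρ *
          aD ω (p j i) (q j i) (p' j i) (q' j i) ρ) =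
          1 * (aN ω (p j i) (q j i) (p' j i) (q' j i) ρ *
          aD ω (p j i) (q j i) (p' j i) (q' j i) ρ) := by
        calc (g A * A) ^ 3 * (aN ω (p j i) (q j i) (p' j i) (q' j i) ρ *
              aD ω (p j i) (q j i) (p' j i) (q' j i) ρ)
            = ((g A) ^ 3 * aN ω (p j i) (q j i) (p' j i) (q' j i) ρ) *
              (A ^ 3 * aD ω (p j i) (q j i) (p' j i) (q' j i) ρ) := by ring
          _ = _ := by rw [e1, hA]; ring
      rw [one_pow]
      exact mul_right_cancel₀ (mul_ne_zero hN hD) h5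
    obtain ⟨t, ht⟩ := of_cube rel e2
    rw [mul_one] at ht
    refine ⟨t, isT_of g t ρ A hg hρ hf hA ht, ?_⟩
    intro t' ht'
    have h5 : g A * A = E ω t' := ht' ρ A hρ hf hA
    exact E_inj rel (h5.symm.trans ht)
  · intro g τ t hg ht
    obtain ⟨ρ, A, hρ, hf, hA, hA0⟩ := exW g hg
    have hw : g A * A = E ω t := ht ρ A hρ hf hA
    have c1 : ∀ x : L, (τ * g * τ⁻¹) (τ x) = τ (g x) := by
      intro x
      change τ (g (τ⁻¹ (τ x))) = τ (g x)
      have : τ⁻¹ (τ x) = x := τ.symm_apply_apply x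
      rw [this]
    have hρ' : (τ ρ) ^ 3 = (b j : L) := by
      rw [← map_pow, hρ, map_intCast]
    have hf' : (τ * g * τ⁻¹) (τ ρ) = τ ρ := by rw [c1, hf]
    have e1 := congrArg τ hA
    rw [map_mul, map_pow] at e1
    rcases map_ω rel τ with hτ | hτ
    · have hg' : (τ * g * τ⁻¹) ω = ω ^ 2 := by
        have := c1 ω
        rwa [hτ, hg, map_pow, hτ] at this
      rw [map_aD' hτ, map_aN' hτ] at e1
      refine isT_of _ t (τ ρ) (τ A) hg' hρ' hf' e1 ?_
      rw [c1, ← map_mul, hw, map_E' hτ]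
    · have hg' : (τ * g * τ⁻¹) ω = ω ^ 2 := by
        have h5 := c1 (ω ^ 2)
        have h6 : τ (ω ^ 2) = ω := by
          rw [map_pow, hτ]
          linear_combination ω * h3
        rw [h6] at h5
        rw [h5, map_pow, hg]
        have h7 : (ω ^ 2) ^ 2 = ω := by linear_combination ω * h3
        rw [h7, hτ]
      rw [map_aD rel hτ, map_aN rel hτ] at e1
      have hτA : τ A ≠ 0 := by
        rw [Ne, EmbeddingLike.map_eq_zero_iff]
        exact hA0
      refine isT_of _ t (τ ρ) (τ A)⁻¹ hg' hρ' hf' ?_ ?_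
      · rw [inv_pow, ← e1]
        field_simp
      · rw [map_inv₀, c1, ← mul_inv, ← map_mul, hw, map_E rel hτ, E_neg rel, inv_inv]
  · intro g t k hg hk ht
    obtain ⟨ρ, A, hρ, hf, hA, hA0⟩ := exW g hg
    have hw : g A * A = E ω t := ht ρ A hρ hf hA
    have e1 : g A = E ω t * A⁻¹ := by
      rw [← hw]
      field_simp
    have h30 : (3 : ZMod 3) = 0 := rfl
    have e2 : ∀ l : ℕ, (g ^ (2 * l)) A = E ω (l * t) * A := by
      intro l
      induction l with
      | zero => simp [E_zero]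
      | succ l ih =>
        have h5 : (g ^ (2 * (l + 1))) A = g (g ((g ^ (2 * l)) A)) := by
          have : g ^ (2 * (l + 1)) = g * (g * g ^ (2 * l)) := by
            rw [← mul_assoc, ← pow_two, ← pow_add]
            congr 1
            ring
          rw [this]
          rfl
        rw [h5, ih, map_mul, map_E rel hg, e1, map_mul, map_mul, map_E rel hg, map_E rel hg,
          map_inv₀, e1, mul_inv, inv_inv, ← E_neg rel, neg_neg, ← mul_assoc, ← mul_assoc,
          ← E_add rel, ← E_add rel]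
        congr 2
        push_cast
        linear_combination (-t) * h30
    have f1 : ∀ m : ℕ, (g ^ m) ρ = ρ := by
      intro m
      induction m with
      | zero => rfl
      | succ m ih =>
        rw [pow_succ']
        change g ((g ^ m) ρ) = ρ
        rw [ih, hf]
    have f2 : ∀ l : ℕ, (g ^ (2 * l)) ω = ω := by
      intro l
      induction l with
      | zero => rfl
      | succ l ih =>
        have h5 : (g ^ (2 * (l + 1))) ω = g (g ((g ^ (2 * l)) ω)) := by
          have : g ^ (2 * (l + 1)) = g * (g * g ^ (2 * l)) := by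
            rw [← mul_assoc, ← pow_two, ← pow_add]
            congr 1
            ring
          rw [this]
          rfl
        rw [h5, ih, hg, map_pow, hg]
        linear_combination ω * h3
    obtain ⟨l, rfl⟩ := hk
    have h6 : ∀ x : L, (g ^ (2 * l + 1)) x = g ((g ^ (2 * l)) x) := by
      intro x
      rw [pow_succ']
      rfl
    refine isT_of _ _ ρ A ?_ hρ (f1 _) hA ?_
    · rw [h6, f2, hg]
    · rw [h6, e2, map_mul, map_E rel hg, mul_assoc, hw, ← E_add rel]
      congr 1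
      push_cast
      linear_combination (-(l : ZMod 3) * t) * h30

end Pool.Agent.PT3


end

section

/-!
# HNT: the Hasse norm theorem for pure cubic fields, rational version, arbitrary norm
-/

namespace Pool.Agent.PT3

open Pool.Agent.Lib_helper18 Pool.Agent.Lib_helper18.Eis Pool.Agent.Lib_helper84.Cub
open Pool.Agent.PT Pool.Agent.PTE

theorem HNT_thm (hNFLD : NFLD) (hNMAT : NMAT) (hNDESC : NDESC) (hSTM : STM) (hSPP : SPP)
    (hLCI : LCI) : HNT := by
  intro x y hx h3x hcube hV hy htm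
  obtain ⟨-, -, -, hSPP4, -, hSPP6⟩ := hSPP
  obtain ⟨y1, m, hm, hy1, hyy, hprop⟩ := HN.split x y hy
  obtain ⟨L, iF, iN, ι, θ, σ, c, hC⟩ := hNFLD x hx hcube
  have hxE : (x : Eis) ≠ 0 := HN.cast_ne hx
  have hyE : (y : Eis) ≠ 0 := HN.cast_ne hy
  have hy1E : (y1 : Eis) ≠ 0 := HN.cast_ne hy1
  have hmE : ((m : ℤ) : Eis) ≠ 0 := HN.cast_ne (by exact_mod_cast hm)
  have htm1 : ∀ π : PP, tm π.1 (x : Eis) (y1 : Eis) = 0 := by
    intro π
    have hS := hSTM π.1 π.2.1 (hSPP4 π).1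
    have h1 := htm π
    have h2 : (y : Eis) = (y1 : Eis) * ((m : ℤ) : Eis) * ((m : ℤ) : Eis) * ((m : ℤ) : Eis) := by
      rw [hyy]
      push_cast
      ring
    have h3 : tm π.1 (y : Eis) (x : Eis) = tm π.1 (y1 : Eis) (x : Eis) +
        3 * tm π.1 ((m : ℤ) : Eis) (x : Eis) := by
      rw [h2, hS.mul _ _ _ (mul_ne_zero (mul_ne_zero hy1E hmE) hmE) hmE hxE,
        hS.mul _ _ _ (mul_ne_zero hy1E hmE) hmE hxE, hS.mul _ _ _ hy1E hmE hxE]
      ring
    have h4 : (3 : ZMod 3) = 0 := rfl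
    rw [h4, zero_mul, add_zero, hS.skew _ _ hxE hyE, h1, hS.skew _ _ hxE hy1E] at h3
    rw [neg_zero] at h3
    exact neg_eq_zero.1 h3.symm
  have hLC : ∀ π : PP, π.1 ∣ (y1 : Eis) → ¬ LC π.1 x → π.1 ∣ (x : Eis) := by
    intro π hπ hnot
    by_contra hπx
    obtain ⟨p, hp, hcl⟩ := hSPP6 π
    have h1 := HN.dvd_int hp hcl hπ
    have h2 : ¬ (p : ℤ) ∣ x := by
      intro h
      obtain ⟨d, hd⟩ := h
      apply hπx
      rw [hd, Int.cast_mul, Int.cast_natCast]
      exact (HN.dvd_nat hcl).mul_right _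
    obtain ⟨k, t, hk, ht, hyt⟩ := hprop p hp h1 h2
    have h3 : V π.1 (y1 : Eis) = k := by
      rw [hyt]
      exact HN.V_eq hp hcl k ht
    have h4 : V π.1 (x : Eis) = 0 := V_eq_zero hπx
    have h5 := htm1 π
    rw [tm, h3, h4, Nat.cast_zero, zero_mul, sub_zero] at h5
    have h6 : (k : ZMod 3) ≠ 0 := by
      rw [ne_eq, ZMod.natCast_eq_zero_iff]
      exact hk
    have h7 : ch π.1 (x : Eis) = 0 := by
      have : Fact (Nat.Prime 3) := ⟨Nat.prime_three⟩
      exact (mul_eq_zero.1 h5).resolve_left h6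
    exact hnot ((hLCI.1 π x hx).2 ⟨by rw [h4]; exact dvd_zero _, h7⟩)
  obtain ⟨z, hz, hzN⟩ := hNMAT x L ι θ σ c hx h3x hV hcube hC y1 hy1 htm1 hLC
  obtain ⟨p, q, p', q', hsol⟩ := hNDESC x L ι θ σ c hx hC y1 z hy1 hz hzN
  have hmz : (m : ℤ) ≠ 0 := by exact_mod_cast hm
  refine ⟨m * p, m * q, p', q', ⟨?_, ?_⟩⟩
  · have h1 := hsol.eq
    rw [hyy]
    linear_combination (m : ℤ) ^ 3 * h1
  · have h1 := hsol.n1
    have h2 : ((m : ℤ) * p) ^ 3 + x * ((m : ℤ) * q) ^ 3 = (m : ℤ) ^ 3 * (p ^ 3 + x * q ^ 3) := by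
      ring
    rw [h2]
    exact mul_ne_zero (pow_ne_zero 3 hmz) h1

end Pool.Agent.PT3


end

section

/-!
# PT3_TENT: the matrix of the pairing is alternating and the class of a point is in its kernel
-/

open NumberField IsDedekindDomain Finset
open scoped nonZeroDivisors Pointwise

namespace Pool.Agent.PT3

open Pool.Agent.Lib_helper18 Pool.Agent.Lib_helper18.Eis Pool.Agent.Lib_helper84.Cub
open Pool.Agent.PT Pool.Agent.PTE

namespace TENT

/-! ### Admissible classes -/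

theorem ag_mul (hSTM : STM) (hSPP : SPP) {B x y : ℤ} (hB : B ≠ 0) (hx : AG B x)
    (hy : AG B y) : AG B (x * y) where
  ne := mul_ne_zero hx.ne hy.ne
  sym := fun π => by
    have hs := hSTM π.1 π.2.1 (hSPP.2.2.2.1 π).1
    push_cast
    rw [hs.mul _ _ _ (TEND.cast_ne hx.ne) (TEND.cast_ne hy.ne) (TEND.cast_ne hB), hx.sym π,
      hy.sym π, add_zero]
  unr := fun π h1 h2 => by
    push_cast at h2
    rcases π.2.1.dvd_or_dvd h2 with h | h
    · exact hx.unr π h1 h
    · exact hy.unr π h1 h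

theorem ag_one (hSTM : STM) (hSPP : SPP) {B : ℤ} (hB : B ≠ 0) : AG B 1 where
  ne := one_ne_zero
  sym := fun π => by
    have hs := hSTM π.1 π.2.1 (hSPP.2.2.2.1 π).1
    have h1 : (1 : Eis) ≠ 0 := one_ne_zero
    have h := hs.mul 1 1 _ h1 h1 (TEND.cast_ne hB)
    rw [one_mul] at h
    push_cast
    have h2 : tm π.1 1 (B : Eis) + 0 = tm π.1 1 (B : Eis) + tm π.1 1 (B : Eis) := by
      rw [add_zero]
      exact h
    exact (add_left_cancel h2).symm
  unr := fun π _ h2 => by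
    push_cast at h2
    exact π.2.1.not_isUnit (isUnit_of_dvd_one h2)

theorem ag_pow (hSTM : STM) (hSPP : SPP) {B x : ℤ} (hB : B ≠ 0) (hx : AG B x) (n : ℕ) :
    AG B (x ^ n) := by
  induction n with
  | zero =>
    rw [pow_zero]
    exact ag_one hSTM hSPP hB
  | succ n ih =>
    rw [pow_succ]
    exact ag_mul hSTM hSPP hB ih hx

theorem ag_prod (hSTM : STM) (hSPP : SPP) {B : ℤ} (hB : B ≠ 0) {s : ℕ} {b : Fin s → ℤ}
    (hb : ∀ i, AG B (b i)) (c : Fin s → ℕ) (t : Finset (Fin s)) :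
    AG B (∏ i ∈ t, b i ^ c i) := by
  classical
  induction t using Finset.induction_on with
  | empty =>
    rw [Finset.prod_empty]
    exact ag_one hSTM hSPP hB
  | insert i t hi ih =>
    rw [Finset.prod_insert hi]
    exact ag_mul hSTM hSPP hB (ag_pow hSTM hSPP hB (hb i) _) ih

/-! ### The class at `lam` of a product -/

theorem hom_one {f : ℤ → ZMod 3} (hf : ∀ a b : ℤ, a ≠ 0 → b ≠ 0 → f (a * b) = f a + f b) :
    f 1 = 0 := by
  have h := hf 1 1 one_ne_zero one_ne_zero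
  rw [one_mul] at h
  have h2 : f 1 + 0 = f 1 + f 1 := by rw [add_zero]; exact h
  exact (add_left_cancel h2).symm

theorem hom_pow {f : ℤ → ZMod 3} (hf : ∀ a b : ℤ, a ≠ 0 → b ≠ 0 → f (a * b) = f a + f b)
    {a : ℤ} (ha : a ≠ 0) (n : ℕ) : f (a ^ n) = (n : ZMod 3) * f a := by
  induction n with
  | zero => rw [pow_zero, hom_one hf]; simp
  | succ n ih =>
    rw [pow_succ, hf _ _ (pow_ne_zero n ha) ha, ih]
    push_cast
    ring

theorem hom_prod {f : ℤ → ZMod 3} (hf : ∀ a b : ℤ, a ≠ 0 → b ≠ 0 → f (a * b) = f a + f b)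
    {s : ℕ} {b : Fin s → ℤ} (hb : ∀ i, b i ≠ 0) (c : Fin s → ℕ) (t : Finset (Fin s)) :
    f (∏ i ∈ t, b i ^ c i) = ∑ i ∈ t, (c i : ZMod 3) * f (b i) := by
  classical
  induction t using Finset.induction_on with
  | empty =>
    rw [Finset.prod_empty, Finset.sum_empty, hom_one hf]
  | insert i t hi ih =>
    rw [Finset.prod_insert hi, Finset.sum_insert hi, hf _ _ (pow_ne_zero _ (hb i))
      (Finset.prod_ne_zero_iff.2 fun k _ => pow_ne_zero _ (hb k)), ih, hom_pow hf (hb i)]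

/-- the multiplicity of the class of `B` in a product -/
noncomputable def mth {s : ℕ} (τ : Fin s → Fin 3) (c : Fin s → ℕ) : ZMod 3 :=
  ∑ i, if τ i = 1 then (c i : ZMod 3) else 0

theorem cls (hLCL : LCL) {s : ℕ} {τ : Fin s → Fin 3} {b X Y : Fin s → ℤ} {B : ℤ}
    (hL : LamS B τ b X Y) (hb : ∀ i, b i ≠ 0) (c : Fin s → ℕ)
    (hc : ∀ i, τ i = 2 → (c i : ZMod 3) = 0) :
    lv (∏ i, b i ^ c i) = mth τ c * lv B ∧ lw (∏ i, b i ^ c i) = mth τ c * lw B := by
  have h3 : ∀ i, τ i = 0 ∨ τ i = 1 ∨ τ i = 2 := by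
    intro i
    generalize τ i = t
    revert t
    decide
  have key : ∀ f : ℤ → ZMod 3, (∀ a b : ℤ, a ≠ 0 → b ≠ 0 → f (a * b) = f a + f b) →
      (∀ i, τ i = 0 → f (b i) = 0) → (∀ i, τ i = 1 → f (b i) = f B) →
      f (∏ i, b i ^ c i) = mth τ c * f B := by
    intro f hf h0 h1
    rw [hom_prod hf hb c, mth, Finset.sum_mul]
    refine Finset.sum_congr rfl fun i _ => ?_
    rcases h3 i with h | h | h
    · rw [h0 i h, mul_zero, if_neg (by rw [h]; decide), zero_mul]
    · rw [h1 i h, if_pos h]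
    · rw [hc i h, zero_mul, if_neg (by rw [h]; decide), zero_mul]
  constructor
  · refine key lv (fun a b ha hb => (hLCL.2.1 a b ha hb).1) (fun i hi => ?_) fun i hi => ?_
    · exact ((hLCL.1 (b i) (hb i)).1 (hL.t0 i hi)).1
    · exact (hL.t1 i hi).2.1
  · refine key lw (fun a b ha hb => (hLCL.2.1 a b ha hb).2) (fun i hi => ?_) fun i hi => ?_
    · exact ((hLCL.1 (b i) (hb i)).1 (hL.t0 i hi)).2
    · exact (hL.t1 i hi).2.2.1

/-! ### The trivial solution -/

theorem sol_self {b : ℤ} (hb : b ≠ 0) : Sol b b 0 1 1 0 where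
  eq := by ring
  n1 := by simpa using hb
  n2 := by simpa using hb

theorem sv_triv (s : Eis → Eis → ZMod 3) (x p q p' q' : ℤ) : SV s x p q p' q' 1 0 = 0 := by
  unfold SV Df
  simp

theorem ot_self (hTTHT : TTHT) {B b X Y : ℤ} (hB : BG B) (hb : AG B b)
    (h : LC lam b ∨ (lv b = lv B ∧ lw b = lw B ∧ X = 1 ∧ Y = 0)) :
    OT B b X Y b 0 1 1 0 = 0 := by
  unfold OT
  rw [hTTHT B b hB hb (h.imp id fun h => ⟨h.1, h.2.1⟩), zero_add]
  rcases h with h | ⟨-, -, rfl, rfl⟩
  · rw [if_pos h]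
  · rw [sv_triv, ite_self]

/-- the point of the square class -/
theorem pt_sq {B x X Y : ℤ} (hx : x ≠ 0) (h : Pt B x X Y) : Pt B (x ^ 2) (x * Y) X where
  hX := mul_ne_zero hx h.hY
  hY := h.hX
  eq := by
    obtain ⟨c, hc, h1⟩ := h.eq
    refine ⟨x * c, mul_ne_zero hx hc, ?_⟩
    linear_combination x ^ 3 * h1

section Row

variable {s : ℕ} {τ : Fin s → Fin 3} {b X Y : Fin s → ℤ} {p q p' q' : Fin s → Fin s → ℤ} {B : ℤ}

/-- the solution for one factor -/
theorem one (hTTHT : TTHT) (hSys : SysG b p q p' q') (hB : BG B) (hA : ∀ i, AG B (b i))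
    (hL : LamS B τ b X Y) (j i : Fin s) (hj : τ j ≠ 2 ∨ i ≠ j) :
    ∃ P Q P' Q' : ℤ, Sol (b j) (b i) P Q P' Q' ∧
      OT B (b j) (X j) (Y j) (b i) P Q P' Q' = MaT b X Y p q p' q' B j i := by
  by_cases hij : i = j
  · subst hij
    have hj2 : τ i ≠ 2 := hj.resolve_right fun h => h rfl
    refine ⟨0, 1, 1, 0, sol_self (hA i).ne, ?_⟩
    have hM : MaT b X Y p q p' q' B i i = 0 := by simp [MaT]
    rw [hM]
    refine ot_self hTTHT hB (hA i) ?_
    have h3 : τ i = 0 ∨ τ i = 1 := by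
      revert hj2
      generalize τ i = t
      revert t
      decide
    rcases h3 with h | h
    · exact Or.inl (hL.t0 i h)
    · exact Or.inr (hL.t1 i h).2
  · have hji : j ≠ i := fun h => hij h.symm
    refine ⟨_, _, _, _, hSys.sol j i hji, ?_⟩
    unfold MaT
    rw [if_neg hji]

theorem prod_split (b : Fin s → ℤ) (g g' : Fin s → ℕ) (i0 : Fin s)
    (h : ∀ i, g i = g' i + if i = i0 then 1 else 0) :
    ∏ i, b i ^ g i = (∏ i, b i ^ g' i) * b i0 := by
  have h1 : ∏ i, b i ^ (if i = i0 then 1 else 0) = b i0 := by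
    rw [Finset.prod_eq_single i0]
    · simp
    · intro i _ hi
      simp [hi]
    · intro hi
      exact absurd (Finset.mem_univ _) hi
  conv_rhs => rw [← h1]
  rw [← Finset.prod_mul_distrib]
  refine Finset.prod_congr rfl fun i _ => ?_
  rw [← pow_add, h i]

theorem sum_split (m : Fin s → ZMod 3) (g g' : Fin s → ℕ) (i0 : Fin s)
    (h : ∀ i, g i = g' i + if i = i0 then 1 else 0) :
    ∑ i, m i * (g i : ZMod 3) = (∑ i, m i * (g' i : ZMod 3)) + m i0 := by
  have h1 : ∑ i, (if i = i0 then m i else 0) = m i0 := by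
    rw [Finset.sum_ite_eq']
    simp
  conv_rhs => rw [← h1]
  rw [← Finset.sum_add_distrib]
  refine Finset.sum_congr rfl fun i _ => ?_
  rw [h i]
  split_ifs <;> push_cast <;> ring

/-- solutions for reduced exponents -/
theorem red (hTADT : TADT) (hTTHT : TTHT) (hSTM : STM) (hSPP : SPP) (hSys : SysG b p q p' q')
    (hB : BG B) (hA : ∀ i, AG B (b i)) (hL : LamS B τ b X Y) (j : Fin s)
    (hbj : ¬ ∃ c : ℤ, c ^ 3 = b j)
    (hcond : LC lam (b j) ∨ (X j = 1 ∧ Y j = 0) ∨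
      (X j ≠ 0 ∧ Y j ≠ 0 ∧ X j ^ 3 + b j * Y j ^ 3 ≠ 0)) (n : ℕ) :
    ∀ g : Fin s → ℕ, ∑ i, g i = n + 1 → (∀ i, g i ≤ 2) → (τ j ≠ 2 ∨ g j = 0) →
    ∃ P Q P' Q' : ℤ, Sol (b j) (∏ i, b i ^ g i) P Q P' Q' ∧
      OT B (b j) (X j) (Y j) (∏ i, b i ^ g i) P Q P' Q' =
        ∑ i, MaT b X Y p q p' q' B j i * (g i : ZMod 3) := by
  induction n with
  | zero =>
    intro g hg hg2 hgj
    obtain ⟨i0, hi0⟩ : ∃ i, g i ≠ 0 := by
      by_contra hcon
      push Not at hcon
      rw [Finset.sum_eq_zero fun i _ => hcon i] at hg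
      omega
    have hsp : ∀ i, g i = (g i - if i = i0 then 1 else 0) + if i = i0 then 1 else 0 := by
      intro i
      split_ifs with h
      · rw [h]; omega
      · omega
    have hsum : ∑ i, g i = (∑ i, (g i - if i = i0 then 1 else 0)) + 1 := by
      have h1 : ∑ i : Fin s, (if i = i0 then 1 else 0) = 1 := by
        rw [Finset.sum_ite_eq']
        simp
      calc ∑ i, g i = ∑ i, ((g i - if i = i0 then 1 else 0) + if i = i0 then 1 else 0) :=
            Finset.sum_congr rfl fun i _ => hsp i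
        _ = (∑ i, (g i - if i = i0 then 1 else 0)) + ∑ i : Fin s, (if i = i0 then 1 else 0) :=
            Finset.sum_add_distrib
        _ = _ := by rw [h1]
    have h0 : ∀ i, (g i - if i = i0 then 1 else 0) = 0 := by
      have h2 : ∑ i, (g i - if i = i0 then 1 else 0) = 0 := by omega
      intro i
      exact (Finset.sum_eq_zero_iff.1 h2) i (Finset.mem_univ i)
    obtain ⟨P, Q, P', Q', h1, h2⟩ := one hTTHT hSys hB hA hL j i0 (by
      rcases hgj with h | h
      · exact Or.inl h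
      · right
        rintro rfl
        exact hi0 h)
    refine ⟨P, Q, P', Q', ?_, ?_⟩
    · rw [prod_split b g _ i0 hsp]
      have h3 : ∏ i, b i ^ (g i - if i = i0 then 1 else 0) = 1 :=
        Finset.prod_eq_one fun i _ => by rw [h0 i, pow_zero]
      rw [h3, one_mul]
      exact h1
    · rw [prod_split b g _ i0 hsp, sum_split _ g _ i0 hsp]
      have h3 : ∏ i, b i ^ (g i - if i = i0 then 1 else 0) = 1 :=
        Finset.prod_eq_one fun i _ => by rw [h0 i, pow_zero]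
      have h4 : ∑ i, MaT b X Y p q p' q' B j i *
          (((g i - if i = i0 then 1 else 0 : ℕ)) : ZMod 3) = 0 :=
        Finset.sum_eq_zero fun i _ => by rw [h0 i, Nat.cast_zero, mul_zero]
      rw [h3, one_mul, h4, zero_add]
      exact h2
  | succ n ih =>
    intro g hg hg2 hgj
    obtain ⟨i0, hi0⟩ : ∃ i, g i ≠ 0 := by
      by_contra hcon
      push Not at hcon
      rw [Finset.sum_eq_zero fun i _ => hcon i] at hg
      omega
    have hsp : ∀ i, g i = (g i - if i = i0 then 1 else 0) + if i = i0 then 1 else 0 := by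
      intro i
      split_ifs with h
      · rw [h]; omega
      · omega
    have hsum : ∑ i, g i = (∑ i, (g i - if i = i0 then 1 else 0)) + 1 := by
      have h1 : ∑ i : Fin s, (if i = i0 then 1 else 0) = 1 := by
        rw [Finset.sum_ite_eq']
        simp
      calc ∑ i, g i = ∑ i, ((g i - if i = i0 then 1 else 0) + if i = i0 then 1 else 0) :=
            Finset.sum_congr rfl fun i _ => hsp i
        _ = (∑ i, (g i - if i = i0 then 1 else 0)) + ∑ i : Fin s, (if i = i0 then 1 else 0) :=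
            Finset.sum_add_distrib
        _ = _ := by rw [h1]
    obtain ⟨P, Q, P', Q', h1, h2⟩ := one hTTHT hSys hB hA hL j i0 (by
      rcases hgj with h | h
      · exact Or.inl h
      · right
        rintro rfl
        exact hi0 h)
    obtain ⟨P₁, Q₁, P₁', Q₁', h3, h4⟩ := ih (fun i => g i - if i = i0 then 1 else 0)
      (by
        show ∑ i, (g i - if i = i0 then 1 else 0) = n + 1
        omega)
      (fun i => (Nat.sub_le _ _).trans (hg2 i))
      (by
        rcases hgj with h | h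
        · exact Or.inl h
        · right
          show g j - (if j = i0 then 1 else 0) = 0
          omega)
    have hnc : ¬ ∃ c : ℤ, c ^ 3 =
        (∏ i, b i ^ (g i - if i = i0 then 1 else 0)) * b i0 := by
      rw [← prod_split b g _ i0 hsp]
      refine hSys.ind g ⟨i0, ?_⟩
      intro h
      have := hg2 i0
      omega
    obtain ⟨P₂, Q₂, P₂', Q₂', h5, h6⟩ := hTADT.1 (b j)
      (∏ i, b i ^ (g i - if i = i0 then 1 else 0)) (b i0) P₁ Q₁ P₁' Q₁' P Q P' Q' hbj hnc
      (hA j).ne (ag_prod hSTM hSPP hB.ne hA _ Finset.univ).ne (hA i0).ne h3 h1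
    refine ⟨P₂, Q₂, P₂', Q₂', ?_, ?_⟩
    · rw [prod_split b g _ i0 hsp]
      exact h5
    · rw [prod_split b g _ i0 hsp, sum_split _ g _ i0 hsp, h6 B (X j) (Y j) hB (hA j)
        (ag_prod hSTM hSPP hB.ne hA _ Finset.univ) (hA i0) hcond, h4, h2]

/-- the solution for a product -/
theorem key (hTADT : TADT) (hTTHT : TTHT) (hSTM : STM) (hSPP : SPP) (hSys : SysG b p q p' q')
    (hB : BG B) (hA : ∀ i, AG B (b i)) (hL : LamS B τ b X Y) (j : Fin s)
    (hbj : ¬ ∃ c : ℤ, c ^ 3 = b j)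
    (hcond : LC lam (b j) ∨ (X j = 1 ∧ Y j = 0) ∨
      (X j ≠ 0 ∧ Y j ≠ 0 ∧ X j ^ 3 + b j * Y j ^ 3 ≠ 0)) (c : Fin s → ℕ)
    (hc : ∃ i, ¬ 3 ∣ c i) (hj : τ j ≠ 2 ∨ 3 ∣ c j) :
    ∃ P Q P' Q' : ℤ, Sol (b j) (∏ i, b i ^ c i) P Q P' Q' ∧
      OT B (b j) (X j) (Y j) (∏ i, b i ^ c i) P Q P' Q' =
        ∑ i, MaT b X Y p q p' q' B j i * (c i : ZMod 3) := by
  obtain ⟨i1, hi1⟩ := hc
  have hpos : 0 < ∑ i, c i % 3 := by
    have h1 : c i1 % 3 ≤ ∑ i, c i % 3 :=
      Finset.single_le_sum (f := fun i => c i % 3) (fun i _ => Nat.zero_le _)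
        (Finset.mem_univ i1)
    omega
  obtain ⟨P, Q, P', Q', h1, h2⟩ := red hTADT hTTHT hSTM hSPP hSys hB hA hL j hbj hcond
    ((∑ i, c i % 3) - 1) (fun i => c i % 3) (by
      show ∑ i, c i % 3 = _
      omega) (fun i => by
      show c i % 3 ≤ 2
      omega) (by
      rcases hj with h | h
      · exact Or.inl h
      · right
        show c j % 3 = 0
        omega)
  have hprod : ∏ i, b i ^ c i = (∏ i, b i ^ (c i / 3)) ^ 3 * ∏ i, b i ^ (c i % 3) := by
    rw [← Finset.prod_pow, ← Finset.prod_mul_distrib]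
    refine Finset.prod_congr rfl fun i _ => ?_
    rw [← pow_mul, ← pow_add]
    congr 1
    omega
  have hu := ag_prod hSTM hSPP hB.ne hA (fun i => c i / 3) Finset.univ
  have hx := ag_prod hSTM hSPP hB.ne hA (fun i => c i % 3) Finset.univ
  obtain ⟨h3, h4⟩ := hTADT.2 (b j) (∏ i, b i ^ (c i % 3)) P Q P' Q' (∏ i, b i ^ (c i / 3))
    (hA j).ne hx.ne hu.ne h1
  refine ⟨(∏ i, b i ^ (c i / 3)) * P, (∏ i, b i ^ (c i / 3)) * Q, P', Q', ?_, ?_⟩
  · rw [hprod]
    exact h3
  · rw [hprod, h4 B (X j) (Y j) hB (hA j) hx hu hcond, h2]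
    refine Finset.sum_congr rfl fun i _ => ?_
    rw [ZMod.natCast_mod]

end Row

end TENT

set_option linter.unusedVariables false in
open _root_.Pool.Agent.PT3.TENT in
theorem TENT_thm (hTPT : TPT) (hTALT : TALT) (hTADT : TADT) (hTTHT : TTHT) (hSTM : STM)
    (hSPP : SPP) (hSSL : SSL) (hSLC : SLC) (hSCJ : SCJ) (hLCI : LCI) (hAVV : AVV)
    (hLCL : LCL) : TENT := by
  classical
  intro s τ b X Y p q p' q' B hSys hSw hB hA hL hb0
  have h3 : ∀ i, τ i = 0 ∨ τ i = 1 ∨ τ i = 2 := by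
    intro i
    generalize τ i = t
    revert t
    decide
  -- antisymmetry
  have hord : ∀ j i, j ≠ i → (τ j = 0 ∨ (τ j = 1 ∧ τ i = 2)) →
      MaT b X Y p q p' q' B j i + MaT b X Y p q p' q' B i j = 0 := by
    intro j i hji h
    obtain ⟨e1, e2, e3, e4⟩ := hSw j i hji
    have hij : i ≠ j := fun h => hji h.symm
    unfold MaT
    rw [if_neg hji, if_neg hij, e1, e2, e3, e4]
    refine hTALT B (b j) (b i) (p j i) (q j i) (p' j i) (q' j i) (X j) (Y j) (X i) (Y i) hB
      (hA j) (hA i) (hSys.sol j i hji) ?_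
    rcases h with h | ⟨h, h'⟩
    · left
      refine ⟨hL.t0 j h, ?_⟩
      rcases h3 i with h' | h' | h'
      · exact Or.inl (hL.t0 i h')
      · exact Or.inr (Or.inl (hL.t1 i h').2)
      · exact Or.inr (Or.inr (hL.t2 i h').2.2)
    · right
      obtain ⟨-, k1, k2, k3, k4⟩ := hL.t1 j h
      obtain ⟨m1, m2, m3⟩ := hL.t2 i h'
      exact ⟨m2, k1, k2, k3, k4, m1, m3⟩
  have hanti : ∀ i j, MaT b X Y p q p' q' B i j = - MaT b X Y p q p' q' B j i := by
    intro i j
    by_cases hij : i = j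
    · subst hij
      simp [MaT]
    · have hji : j ≠ i := fun h => hij h.symm
      have h : (τ j = 0 ∨ (τ j = 1 ∧ τ i = 2)) ∨ (τ i = 0 ∨ (τ i = 1 ∧ τ j = 2)) := by
        rcases h3 i with h | h | h
        · exact Or.inr (Or.inl h)
        · rcases h3 j with h' | h' | h'
          · exact Or.inl (Or.inl h')
          · exact absurd (hL.inj i j (h.trans h'.symm) (by rw [h]; decide)) hij
          · exact Or.inr (Or.inr ⟨h, h'⟩)
        · rcases h3 j with h' | h' | h'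
          · exact Or.inl (Or.inl h')
          · exact Or.inl (Or.inr ⟨h', h⟩)
          · exact absurd (hL.inj i j (h.trans h'.symm) (by rw [h]; decide)) hij
      rcases h with h | h
      · exact eq_neg_of_add_eq_zero_right (hord j i hji h)
      · exact eq_neg_of_add_eq_zero_left (hord i j hij h)
  refine ⟨hanti, fun c X₀ Y₀ hc hPt => ?_⟩
  have hbc : ∀ j, ¬ ∃ t : ℤ, t ^ 3 = b j := by
    intro j
    have h1 := hSys.ind (fun i => if i = j then 1 else 0) ⟨j, by simp⟩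
    have h2 : ∏ i, b i ^ (if i = j then 1 else 0) = b j := by
      rw [Finset.prod_eq_single j]
      · simp
      · intro i _ hij
        simp [hij]
      · intro h
        exact absurd (Finset.mem_univ _) h
    rw [h2] at h1
    exact h1
  have hcond : ∀ j, LC lam (b j) ∨ (X j = 1 ∧ Y j = 0) ∨
      (X j ≠ 0 ∧ Y j ≠ 0 ∧ X j ^ 3 + b j * Y j ^ 3 ≠ 0) := by
    intro j
    rcases h3 j with h | h | h
    · exact Or.inl (hL.t0 j h)
    · exact Or.inr (Or.inl (hL.t1 j h).2.2.2)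
    · have := (hL.t2 j h).2.2
      exact Or.inr (Or.inr ⟨this.hX, this.hY, this.n0⟩)
  -- rows to which `TPT` applies
  have good : ∀ (c : Fin s → ℕ) (X₀ Y₀ : ℤ), (∃ i, ¬ 3 ∣ c i) → Pt B (∏ i, b i ^ c i) X₀ Y₀ →
      ∀ j, (τ j ≠ 2 ∨ 3 ∣ c j) → (LC lam (b j) ∨
      (lv (b j) = lv B ∧ lw (b j) = lw B ∧ X j = 1 ∧ Y j = 0 ∧
        (LC lam (∏ i, b i ^ c i) ∨ lv B = 1)) ∨
      (lv B = 1 ∧ ¬ LC lam (b j) ∧ PtL B (b j) (X j) (Y j) ∧
        (LC lam (∏ i, b i ^ c i) ∨
          (lv (∏ i, b i ^ c i) = lv B ∧ lw (∏ i, b i ^ c i) = lw B)))) →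
      ∑ i, MaT b X Y p q p' q' B j i * (c i : ZMod 3) = 0 := by
    intro c X₀ Y₀ hc hPt j hj h
    obtain ⟨P, Q, P', Q', k1, k2⟩ := key hTADT hTTHT hSTM hSPP hSys hB hA hL j (hbc j)
      (hcond j) c hc hj
    rw [← k2]
    exact hTPT B (b j) (∏ i, b i ^ c i) P Q P' Q' (X j) (Y j) X₀ Y₀ hB (hA j)
      (ag_prod hSTM hSPP hB.ne hA c Finset.univ) k1 hPt h
  have hx0 : ∀ c : Fin s → ℕ, ∏ i, b i ^ c i ≠ 0 := fun c =>
    Finset.prod_ne_zero_iff.2 fun i _ => pow_ne_zero _ (hb0 i)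
  have hlc : ∀ c : Fin s → ℕ, (∀ i, τ i = 2 → (c i : ZMod 3) = 0) → mth τ c = 0 →
      LC lam (∏ i, b i ^ c i) := by
    intro c h1 h2
    obtain ⟨k1, k2⟩ := cls hLCL hL hb0 c h1
    rw [hLCL.1 _ (hx0 c), k1, k2, h2, zero_mul, zero_mul]
    exact ⟨rfl, rfl⟩
  -- rows of type 2, exponent divisible by 3
  have good2 : ∀ j, τ j = 2 → 3 ∣ c j →
      ∑ i, MaT b X Y p q p' q' B j i * (c i : ZMod 3) = 0 := by
    intro j hj h3c
    obtain ⟨m1, m2, m3⟩ := hL.t2 j hj
    have hz : ∀ i, τ i = 2 → (c i : ZMod 3) = 0 := by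
      intro i hi
      have : i = j := hL.inj i j (hi.trans hj.symm) (by rw [hi]; decide)
      rw [this, ZMod.natCast_eq_zero_iff]
      exact h3c
    have ht : mth τ c = 0 ∨ mth τ c = 1 ∨ mth τ c = 2 := by
      generalize mth τ c = t
      revert t
      decide
    rcases ht with ht | ht | ht
    · exact good c X₀ Y₀ hc hPt j (Or.inr h3c)
        (Or.inr (Or.inr ⟨m2, m1, m3, Or.inl (hlc c hz ht)⟩))
    · obtain ⟨k1, k2⟩ := cls hLCL hL hb0 c hz
      rw [ht, one_mul] at k1 k2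
      exact good c X₀ Y₀ hc hPt j (Or.inr h3c)
        (Or.inr (Or.inr ⟨m2, m1, m3, Or.inr ⟨k1, k2⟩⟩))
    · have hz2 : ∀ i, τ i = 2 → ((2 * c i : ℕ) : ZMod 3) = 0 := by
        intro i hi
        rw [Nat.cast_mul, hz i hi, mul_zero]
      have ht2 : mth τ (fun i => 2 * c i) = 1 := by
        have h1 : mth τ (fun i => 2 * c i) = 2 * mth τ c := by
          unfold mth
          rw [Finset.mul_sum]
          refine Finset.sum_congr rfl fun i _ => ?_
          split_ifs
          · push_cast; ring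
          · ring
        rw [h1, ht]
        rfl
      have hsq : ∏ i, b i ^ (2 * c i) = (∏ i, b i ^ c i) ^ 2 := by
        rw [← Finset.prod_pow]
        refine Finset.prod_congr rfl fun i _ => ?_
        rw [← pow_mul, mul_comm]
      have hP2 : Pt B (∏ i, b i ^ (2 * c i)) ((∏ i, b i ^ c i) * Y₀) X₀ := by
        rw [hsq]
        exact pt_sq (hx0 c) hPt
      obtain ⟨k1, k2⟩ := cls hLCL hL hb0 (fun i => 2 * c i) hz2
      rw [ht2, one_mul] at k1 k2
      have hg := good (fun i => 2 * c i) _ _ (by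
          obtain ⟨i, hi⟩ := hc
          refine ⟨i, ?_⟩
          show ¬ 3 ∣ 2 * c i
          omega) hP2 j (Or.inr (by
          show 3 ∣ 2 * c j
          exact Dvd.dvd.mul_left h3c 2)) (Or.inr (Or.inr ⟨m2, m1, m3, Or.inr ⟨k1, k2⟩⟩))
      have h1 : ∑ i, MaT b X Y p q p' q' B j i * ((2 * c i : ℕ) : ZMod 3) =
          2 * ∑ i, MaT b X Y p q p' q' B j i * (c i : ZMod 3) := by
        rw [Finset.mul_sum]
        refine Finset.sum_congr rfl fun i _ => ?_
        push_cast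
        ring
      rw [h1] at hg
      generalize ∑ i, MaT b X Y p q p' q' B j i * (c i : ZMod 3) = z at hg ⊢
      revert hg
      revert z
      decide
  -- the remaining row
  have skew : ∀ j, ¬ 3 ∣ c j →
      (∀ i, i ≠ j → ∑ k, MaT b X Y p q p' q' B i k * (c k : ZMod 3) = 0) →
      ∑ i, MaT b X Y p q p' q' B j i * (c i : ZMod 3) = 0 := by
    intro j hcj hrow
    set M := MaT b X Y p q p' q' B with hM
    have h1 : ∑ i, (c i : ZMod 3) * ∑ k, M i k * (c k : ZMod 3) =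
        (c j : ZMod 3) * ∑ k, M j k * (c k : ZMod 3) := by
      rw [Finset.sum_eq_single j]
      · intro i _ hi
        rw [hrow i hi, mul_zero]
      · intro h
        exact absurd (Finset.mem_univ _) h
    have h2 : ∑ i, (c i : ZMod 3) * ∑ k, M i k * (c k : ZMod 3) =
        - ∑ i, (c i : ZMod 3) * ∑ k, M i k * (c k : ZMod 3) := by
      conv_lhs =>
        simp only [Finset.mul_sum]
        rw [Finset.sum_comm]
      rw [← Finset.sum_neg_distrib]
      apply Finset.sum_congr rfl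
      intro i _
      rw [Finset.mul_sum, ← Finset.sum_neg_distrib]
      apply Finset.sum_congr rfl
      intro k _
      rw [hanti k i]
      ring
    have h3 : ∑ i, (c i : ZMod 3) * ∑ k, M i k * (c k : ZMod 3) = 0 := by
      generalize ∑ i, (c i : ZMod 3) * ∑ k, M i k * (c k : ZMod 3) = z at h2
      revert h2
      revert z
      decide
    rw [h1] at h3
    have : Fact (Nat.Prime 3) := ⟨Nat.prime_three⟩
    rcases mul_eq_zero.1 h3 with h | h
    · exact absurd ((ZMod.natCast_eq_zero_iff _ _).1 h) hcj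
    · exact h
  have type0 : ∀ j, τ j = 0 → ∑ i, MaT b X Y p q p' q' B j i * (c i : ZMod 3) = 0 :=
    fun j hj => good c X₀ Y₀ hc hPt j (Or.inl (by rw [hj]; decide)) (Or.inl (hL.t0 j hj))
  have type1 : ∀ j, τ j = 1 → (LC lam (∏ i, b i ^ c i) ∨ lv B = 1) →
      ∑ i, MaT b X Y p q p' q' B j i * (c i : ZMod 3) = 0 := by
    intro j hj h
    obtain ⟨-, k1, k2, k3, k4⟩ := hL.t1 j hj
    exact good c X₀ Y₀ hc hPt j (Or.inl (by rw [hj]; decide))
      (Or.inr (Or.inl ⟨k1, k2, k3, k4, h⟩))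
  intro j
  rcases h3 j with hj | hj | hj
  · exact type0 j hj
  · by_cases h : LC lam (∏ i, b i ^ c i) ∨ lv B = 1
    · exact type1 j hj h
    · push Not at h
      have hno : ∀ i, τ i ≠ 2 := fun i hi => h.2 (hL.t2 i hi).2.1
      refine skew j ?_ fun i hi => ?_
      · intro h3c
        apply h.1
        refine hlc c (fun i hi => absurd hi (hno i)) ?_
        unfold mth
        refine Finset.sum_eq_zero fun i _ => ?_
        split_ifs with hi
        · have : i = j := hL.inj i j (hi.trans hj.symm) (by rw [hi]; decide)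
          rw [this, ZMod.natCast_eq_zero_iff]
          exact h3c
        · rfl
      · rcases h3 i with h' | h' | h'
        · exact type0 i h'
        · exact absurd (hL.inj i j (h'.trans hj.symm) (by rw [h']; decide)) hi
        · exact absurd h' (hno i)
  · by_cases h3c : 3 ∣ c j
    · exact good2 j hj h3c
    · refine skew j h3c fun i hi => ?_
      rcases h3 i with h' | h' | h'
      · exact type0 i h'
      · exact type1 i h' (Or.inr (hL.t2 j hj).2.1)
      · exact absurd (hL.inj i j (h'.trans hj.symm) (by rw [h']; decide)) hi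

end Pool.Agent.PT3


end
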