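import Mathlib
import Pool.Agent.PTDM.C01

/-! Parts: RI.HERB, Lib_helper3.SU.Basic, Lib_helper3.SU.Lattice, Lib_helper3.SU.Tensor -/

section

/-!
# Fixed points and norms for an automorphism of prime order
-/

namespace Pool.Agent.RI

namespace HERB

open Finset

/-- `g - 1` for an endomorphism `g` of an abelian group. -/
def dif {M : Type*} [AddCommGroup M] (g : AddMonoid.End M) : M →+ M := (g - 1 : AddMonoid.End M)

theorem exists_poly (p : ℕ) [hp : Fact p.Prime] : ∃ h : Polynomial ℤ,
    (Polynomial.X - 1) ^ (p - 1) = ∑ i ∈ range p, Polynomial.X ^ i + Polynomial.C (p : ℤ) * h := by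
  have h1 : Polynomial.map (Int.castRingHom (ZMod p))
      ((Polynomial.X - 1) ^ (p - 1) - ∑ i ∈ range p, Polynomial.X ^ i : Polynomial ℤ) = 0 := by
    have h2 := Polynomial.cyclotomic_mul_prime_eq_pow_of_not_dvd (ZMod p) (n := 1) (p := p)
      (fun h => hp.out.one_lt.not_ge (Nat.le_of_dvd one_pos h))
    rw [one_mul, Polynomial.cyclotomic_one, Polynomial.cyclotomic_prime] at h2
    rw [Polynomial.map_sub, Polynomial.map_pow, Polynomial.map_sub, Polynomial.map_X,
      Polynomial.map_one, ← h2, Polynomial.map_sum, sub_eq_zero]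
    refine Finset.sum_congr rfl fun i _ => ?_
    rw [Polynomial.map_pow, Polynomial.map_X]
  have h2 : Polynomial.C (p : ℤ) ∣
      ((Polynomial.X - 1) ^ (p - 1) - ∑ i ∈ range p, Polynomial.X ^ i : Polynomial ℤ) := by
    rw [Polynomial.C_dvd_iff_dvd_coeff]
    intro i
    have h3 := congrArg (fun q => Polynomial.coeff q i) h1
    simp only [Polynomial.coeff_map, Polynomial.coeff_zero] at h3
    exact (ZMod.intCast_zmod_eq_zero_iff_dvd _ p).mp (by simpa using h3)
  obtain ⟨h, hh⟩ := h2
  exact ⟨h, by rw [← hh]; ring⟩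

theorem index_pow {M : Type*} [AddCommGroup M] (f : AddMonoid.End M)
    (hf : Function.Injective f) (k : ℕ) :
    (AddMonoidHom.range (f ^ k)).index = (AddMonoidHom.range f).index ^ k := by
  induction k with
  | zero =>
    rw [pow_zero, pow_zero, AddSubgroup.index_eq_one]
    rw [eq_top_iff]
    intro x _
    exact ⟨x, rfl⟩
  | succ k ih =>
    have h1 : AddMonoidHom.range (f ^ (k + 1)) = (AddMonoidHom.range (f ^ k)).map f := by
      ext x
      constructor
      · rintro ⟨y, rfl⟩
        exact ⟨(f ^ k) y, ⟨y, rfl⟩, by rw [pow_succ']; rfl⟩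
      · rintro ⟨_, ⟨y, rfl⟩, rfl⟩
        exact ⟨y, by rw [pow_succ']; rfl⟩
    rw [h1, AddSubgroup.index_map_of_injective _ hf, ih, pow_succ]

theorem finite_torsion (M : Type*) [AddCommGroup M] [Module.Finite ℤ M] :
    Finite (AddCommGroup.torsion M) := by
  have h1 : Module.Finite ℤ (AddSubgroup.toIntSubmodule (AddCommGroup.torsion M)) := inferInstance
  have h2 : Module.IsTorsion ℤ (AddSubgroup.toIntSubmodule (AddCommGroup.torsion M)) := by
    rintro ⟨x, hx⟩
    obtain ⟨n, hn, hx'⟩ := isOfFinAddOrder_iff_nsmul_eq_zero.mp hx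
    refine ⟨⟨(n : ℤ), mem_nonZeroDivisors_of_ne_zero (by exact_mod_cast hn.ne')⟩, ?_⟩
    apply Subtype.ext
    change ((n : ℤ) : ℤ) • x = 0
    rw [natCast_zsmul, hx']
  have h3 : Finite (AddSubgroup.toIntSubmodule (AddCommGroup.torsion M)) :=
    Module.finite_of_fg_torsion _ h2
  exact h3

/-- The index of the image of an endomorphism with finite kernel. -/
theorem index_range_eq {M : Type*} [AddCommGroup M] [Module.Finite ℤ M] (f : M →+ M)
    (hf : f.ker ≤ AddCommGroup.torsion M) :
    f.range.index = Nat.card f.ker *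
      (f.range.map (QuotientAddGroup.mk' (AddCommGroup.torsion M))).index := by
  obtain ⟨T, hT⟩ : ∃ T : AddSubgroup M, T = AddCommGroup.torsion M := ⟨_, rfl⟩
  have hfin : Finite T := by
    rw [hT]
    exact finite_torsion M
  rw [← hT]
  have hfT' : ∀ x ∈ T, f x ∈ T := by
    intro x hx
    rw [hT] at hx ⊢
    exact AddCommGroup.le_comap_torsion f hx
  have hfT : ∀ x : T, (f.comp T.subtype) x ∈ T := fun x => hfT' x x.2
  have h1 : (f.range.map (QuotientAddGroup.mk' T)).index = (f.range ⊔ T).index := by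
    rw [AddSubgroup.index_map, QuotientAddGroup.ker_mk',
      AddMonoidHom.range_eq_top.mpr (QuotientAddGroup.mk'_surjective T), AddSubgroup.index_top,
      mul_one]
  have h2 : f.range.relIndex (f.range ⊔ T) * (f.range ⊔ T).index = f.range.index :=
    AddSubgroup.relIndex_mul_index le_sup_left
  have h3 : f.range.addSubgroupOf T = ((f.comp T.subtype).codRestrict T hfT).range := by
    ext ⟨x, hx⟩
    rw [AddSubgroup.mem_addSubgroupOf]
    constructor
    · rintro ⟨y, hy⟩
      have hyT : y ∈ T := by
        have hx' := hx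
        rw [hT] at hx'
        obtain ⟨n, hn, hnx⟩ := isOfFinAddOrder_iff_nsmul_eq_zero.mp hx'
        have h4 : n • y ∈ AddCommGroup.torsion M := by
          apply hf
          rw [AddMonoidHom.mem_ker, map_nsmul, hy]
          exact hnx
        obtain ⟨m, hm, hmy⟩ := isOfFinAddOrder_iff_nsmul_eq_zero.mp h4
        rw [hT]
        refine isOfFinAddOrder_iff_nsmul_eq_zero.mpr ⟨m * n, Nat.mul_pos hm hn, ?_⟩
        rw [mul_nsmul']
        exact hmy
      exact ⟨⟨y, hyT⟩, Subtype.ext hy⟩
    · rintro ⟨y, hy⟩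
      exact ⟨y, congrArg Subtype.val hy⟩
  have h4 : f.range.relIndex T = Nat.card f.ker := by
    rw [AddSubgroup.relIndex, h3, AddSubgroup.index_range]
    refine Nat.card_congr ⟨fun y => ⟨(y : T), ?_⟩, fun y => ⟨⟨(y : M), ?_⟩, ?_⟩, ?_, ?_⟩
    · have h5 := y.2
      rw [AddMonoidHom.mem_ker] at h5 ⊢
      exact congrArg Subtype.val h5
    · rw [hT]
      exact hf y.2
    · rw [AddMonoidHom.mem_ker]
      exact Subtype.ext y.2
    · intro y
      rfl
    · intro y
      rfl
  rw [h1, ← h2, AddSubgroup.relIndex_sup_left, h4]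

/-- The quotient by the torsion subgroup. -/
abbrev Fq (M : Type*) [AddCommGroup M] : Type _ := M ⧸ AddCommGroup.torsion M

instance finite_Fq (M : Type*) [AddCommGroup M] [Module.Finite ℤ M] : Module.Finite ℤ (Fq M) :=
  Module.Finite.of_surjective (QuotientAddGroup.mk' (AddCommGroup.torsion M)).toIntLinearMap
    (QuotientAddGroup.mk'_surjective _)

instance free_Fq (M : Type*) [AddCommGroup M] [Module.Finite ℤ M] : Module.Free ℤ (Fq M) := by
  have : IsAddTorsionFree (Fq M) := inferInstance
  exact Module.free_of_finite_type_torsion_free'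

theorem rank_nullity {M M' : Type*} [AddCommGroup M] [Module.Finite ℤ M] [AddCommGroup M']
    (f : M →+ M') : Module.finrank ℤ f.range + Module.finrank ℤ f.ker = Module.finrank ℤ M := by
  have h := Submodule.finrank_quotient_add_finrank (LinearMap.ker f.toIntLinearMap)
  rw [← h, (LinearMap.quotKerEquivRange f.toIntLinearMap).finrank_eq]
  rfl

theorem finrank_Fq (M : Type*) [AddCommGroup M] [Module.Finite ℤ M] :
    Module.finrank ℤ (Fq M) = Module.finrank ℤ M := by
  have h1 : Module.finrank ℤ
      (LinearMap.range (QuotientAddGroup.mk' (AddCommGroup.torsion M)).toIntLinearMap) +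
      Module.finrank ℤ
        (LinearMap.ker (QuotientAddGroup.mk' (AddCommGroup.torsion M)).toIntLinearMap) =
      Module.finrank ℤ M := rank_nullity (QuotientAddGroup.mk' (AddCommGroup.torsion M))
  have h2 : LinearMap.range (QuotientAddGroup.mk' (AddCommGroup.torsion M)).toIntLinearMap = ⊤ :=
    LinearMap.range_eq_top.mpr (QuotientAddGroup.mk'_surjective _)
  have h3 : Module.finrank ℤ
      (LinearMap.ker (QuotientAddGroup.mk' (AddCommGroup.torsion M)).toIntLinearMap) = 0 := by
    rw [Module.finrank_eq_zero_iff_isTorsion]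
    rintro ⟨x, hx⟩
    have hx' : x ∈ AddCommGroup.torsion M := by
      rw [← QuotientAddGroup.ker_mk' (AddCommGroup.torsion M)]
      exact hx
    obtain ⟨n, hn, hx''⟩ := isOfFinAddOrder_iff_nsmul_eq_zero.mp hx'
    refine ⟨⟨(n : ℤ), mem_nonZeroDivisors_of_ne_zero (by exact_mod_cast hn.ne')⟩, ?_⟩
    apply Subtype.ext
    change ((n : ℤ) : ℤ) • x = 0
    rw [natCast_zsmul, hx'']
  rw [h2, h3, add_zero, finrank_top] at h1
  exact h1

theorem index_nsmul (M : Type*) [AddCommGroup M] [Module.Finite ℤ M] (p : ℕ) [hp : NeZero p] :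
    (nsmulAddMonoidHom p : M →+ M).range.index =
      Nat.card (nsmulAddMonoidHom p : M →+ M).ker * p ^ Module.finrank ℤ M := by
  rw [index_range_eq]
  · congr 1
    rw [← finrank_Fq M, ← ModN.natCard_eq (Fq M) p, AddSubgroup.index_eq_card]
    have h1 : (nsmulAddMonoidHom p : M →+ M).range.map
        (QuotientAddGroup.mk' (AddCommGroup.torsion M)) =
        (LinearMap.range (LinearMap.lsmul ℤ (Fq M) (p : ℤ))).toAddSubgroup := by
      ext x
      constructor
      · rintro ⟨_, ⟨y, rfl⟩, rfl⟩
        refine ⟨QuotientAddGroup.mk' (AddCommGroup.torsion M) y, ?_⟩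
        rw [LinearMap.lsmul_apply, natCast_zsmul]
        exact (map_nsmul (QuotientAddGroup.mk' (AddCommGroup.torsion M)) p y).symm
      · rintro ⟨y, rfl⟩
        obtain ⟨z, rfl⟩ := QuotientAddGroup.mk'_surjective (AddCommGroup.torsion M) y
        refine ⟨p • z, ⟨z, rfl⟩, ?_⟩
        rw [LinearMap.lsmul_apply, natCast_zsmul]
        exact map_nsmul (QuotientAddGroup.mk' (AddCommGroup.torsion M)) p z
    rw [h1]
    rfl
  · intro x hx
    exact isOfFinAddOrder_iff_nsmul_eq_zero.mpr ⟨p, Nat.pos_of_ne_zero hp.out, hx⟩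

theorem sum_apply {M ι : Type*} [AddCommGroup M] (s : Finset ι) (f : ι → AddMonoid.End M)
    (x : M) : (∑ i ∈ s, f i) x = ∑ i ∈ s, f i x := by
  classical
  induction s using Finset.induction_on with
  | empty => rfl
  | insert a s ha ih =>
    rw [Finset.sum_insert ha, Finset.sum_insert ha, ← ih]
    rfl

theorem fix_nsmul {M : Type*} [AddCommGroup M] (g : AddMonoid.End M) (p : ℕ) (x : M)
    (h1 : (∑ i ∈ range p, g ^ i) x = 0) (h2 : g x = x) : p • x = 0 := by
  rw [← h1, sum_apply]
  have h3 : ∀ i : ℕ, (g ^ i) x = x := by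
    intro i
    induction i with
    | zero => rfl
    | succ i ih =>
      rw [pow_succ]
      change (g ^ i) (g x) = x
      rw [h2, ih]
  rw [Finset.sum_congr rfl fun i _ => h3 i, Finset.sum_const, Finset.card_range]

theorem nsmul_mem_range {B : Type*} [AddCommGroup B] (g : AddMonoid.End B) (p : ℕ)
    (x : B) (hx : (∑ i ∈ range p, g ^ i) x = 0) : p • x ∈ (dif g).range := by
  have h1 : p • x = -∑ i ∈ range p, (g ^ i - 1) x := by
    have h2 : ∑ i ∈ range p, (g ^ i - 1) x = (∑ i ∈ range p, g ^ i) x - p • x := by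
      rw [sum_apply]
      have h3 : ∀ i ∈ range p, (g ^ i - 1) x = (g ^ i) x - x := fun i _ => rfl
      rw [Finset.sum_congr rfl h3, Finset.sum_sub_distrib, Finset.sum_const, Finset.card_range]
    rw [h2, hx]
    simp
  rw [h1]
  refine neg_mem (sum_mem fun i _ => ?_)
  rw [← mul_geom_sum]
  exact ⟨_, rfl⟩

theorem card_ker_ne_zero {M : Type*} [AddCommGroup M] [Module.Finite ℤ M] (f : M →+ M)
    (hf : f.ker ≤ AddCommGroup.torsion M) : Nat.card f.ker ≠ 0 := by
  have h1 := finite_torsion M
  have h2 : Finite f.ker := Finite.of_injective _ (AddSubgroup.inclusion_injective hf)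
  exact Nat.card_pos.ne'

theorem nsmul_ker_le {M : Type*} [AddCommGroup M] (p : ℕ) [hp : NeZero p] :
    (nsmulAddMonoidHom p : M →+ M).ker ≤ AddCommGroup.torsion M := fun _ hx =>
  isOfFinAddOrder_iff_nsmul_eq_zero.mpr ⟨p, Nat.pos_of_ne_zero hp.out, hx⟩

theorem key {B : Type*} [AddCommGroup B] [Module.Finite ℤ B] (g : AddMonoid.End B) (p r : ℕ)
    [hp : Fact p.Prime] (hN : ∑ i ∈ range p, g ^ i = 0)
    (hr : Module.finrank ℤ B = (p - 1) * r) :
    p ^ r * Nat.card (dif g).ker ≤ (dif g).range.index ∧ (dif g).range.index ≠ 0 := by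
  have : NeZero p := ⟨hp.out.ne_zero⟩
  have hkerB : (dif g).ker ≤ AddCommGroup.torsion B := by
    intro x hx
    have h2 : g x = x := by
      rw [AddMonoidHom.mem_ker] at hx
      exact sub_eq_zero.mp hx
    exact isOfFinAddOrder_iff_nsmul_eq_zero.mpr ⟨p, hp.out.pos, fix_nsmul g p x (by rw [hN]; rfl) h2⟩
  obtain ⟨T, hT⟩ : ∃ T : AddSubgroup B, T = AddCommGroup.torsion B := ⟨_, rfl⟩
  obtain ⟨k, hk⟩ : ∃ k : AddMonoid.End (Fq B), k = QuotientAddGroup.map
      (AddCommGroup.torsion B) (AddCommGroup.torsion B) g (AddCommGroup.le_comap_torsion g) :=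
    ⟨_, rfl⟩
  obtain ⟨q, hq⟩ : ∃ q : B →+ Fq B, q = QuotientAddGroup.mk' (AddCommGroup.torsion B) := ⟨_, rfl⟩
  have hqs : Function.Surjective q := by
    rw [hq]
    exact QuotientAddGroup.mk'_surjective _
  have hkq : ∀ x, k (q x) = q (g x) := by
    intro x
    rw [hk, hq]
    rfl
  have hkqi : ∀ (i : ℕ) x, (k ^ i) (q x) = q ((g ^ i) x) := by
    intro i
    induction i with
    | zero => exact fun x => rfl
    | succ i ih =>
      intro x
      rw [pow_succ, pow_succ]
      change (k ^ i) (k (q x)) = q ((g ^ i) (g x))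
      rw [hkq, ih]
  have hNk : ∑ i ∈ range p, k ^ i = 0 := by
    apply AddMonoidHom.ext
    intro y
    obtain ⟨x, rfl⟩ := hqs y
    change (∑ i ∈ range p, k ^ i) (q x) = 0
    rw [sum_apply, Finset.sum_congr rfl fun i _ => hkqi i x, ← map_sum, ← sum_apply, hN]
    exact map_zero q
  obtain ⟨h, hh⟩ := exists_poly p
  have hpow : (k - 1) ^ (p - 1) = (p : AddMonoid.End (Fq B)) * Polynomial.aeval k h := by
    have h1 := congrArg (Polynomial.aeval k) hh
    simp only [map_pow, map_sub, map_add, map_sum, map_mul, Polynomial.aeval_X, map_one,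
      Polynomial.aeval_C] at h1
    rw [h1, hNk, zero_add]
    simp
  have hinj : Function.Injective (dif k) := by
    rw [injective_iff_map_eq_zero]
    intro x hx
    have h1 : k x = x := sub_eq_zero.mp hx
    have h2 := fix_nsmul k p x (by rw [hNk]; rfl) h1
    exact (nsmul_eq_zero_iff.mp h2).resolve_right hp.out.ne_zero
  have hmap : (dif g).range.map q = (dif k).range := by
    ext y
    constructor
    · rintro ⟨_, ⟨x, rfl⟩, rfl⟩
      refine ⟨q x, ?_⟩
      change k (q x) - q x = q (g x - x)
      rw [hkq, map_sub]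
    · rintro ⟨y, rfl⟩
      obtain ⟨x, rfl⟩ := hqs y
      refine ⟨g x - x, ⟨x, rfl⟩, ?_⟩
      change q (g x - x) = k (q x) - q x
      rw [hkq, map_sub]
  have hidx := index_range_eq (dif g) hkerB
  rw [← hq, hmap] at hidx
  have hfin : (dif g).range.index ≠ 0 := by
    have h1 : (nsmulAddMonoidHom p : B →+ B).range ≤ (dif g).range := by
      rintro _ ⟨x, rfl⟩
      exact nsmul_mem_range g p x (by rw [hN]; rfl)
    have h2 := AddSubgroup.index_dvd_of_le h1
    intro h3
    rw [h3, zero_dvd_iff, index_nsmul] at h2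
    rcases mul_eq_zero.mp h2 with h4 | h4
    · exact card_ker_ne_zero _ (nsmul_ker_le p) h4
    · exact pow_ne_zero _ hp.out.ne_zero h4
  have hdvd : p ^ r ∣ (dif k).range.index := by
    have h1 : AddMonoidHom.range (((k - 1 : AddMonoid.End (Fq B)) ^ (p - 1) :
        AddMonoid.End (Fq B)) : Fq B →+ Fq B) ≤ (nsmulAddMonoidHom p : Fq B →+ Fq B).range := by
      rintro _ ⟨x, rfl⟩
      rw [hpow]
      refine ⟨Polynomial.aeval k h x, ?_⟩
      change p • _ = (p : AddMonoid.End (Fq B)) (Polynomial.aeval k h x)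
      rw [AddMonoid.End.natCast_apply]
    have h2 := AddSubgroup.index_dvd_of_le h1
    have h4 := index_pow (k - 1 : AddMonoid.End (Fq B)) hinj (p - 1)
    rw [index_nsmul, h4, finrank_Fq, hr, mul_comm (p - 1) r, pow_mul] at h2
    have h3 := (Dvd.intro_left _ rfl).trans h2
    exact (Nat.pow_dvd_pow_iff (Nat.sub_ne_zero_of_lt hp.out.one_lt)).mp h3
  refine ⟨?_, hfin⟩
  rw [hidx, mul_comm]
  refine Nat.mul_le_mul_left _ (Nat.le_of_dvd (Nat.pos_of_ne_zero fun h0 => hfin ?_) hdvd)
  rw [hidx, h0, mul_zero]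

/-- Let `g` be an automorphism of order `p` of a finitely generated abelian group `E`, whose
rank is `p` times the rank of the group of fixed points. If each element of norm `0` is of the form
`g y - y`, then each fixed element is a norm. -/
theorem main_add (E : Type*) [AddCommGroup E] [Module.Finite ℤ E] (g : AddMonoid.End E) (p : ℕ)
    [hp : Fact p.Prime] (hg : g ^ p = 1)
    (hrank : Module.finrank ℤ E = p * Module.finrank ℤ (dif g).ker)
    (hH : ∀ x, ∑ i ∈ range p, (g ^ i) x = 0 → ∃ y, g y - y = x) :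
    ∀ x, g x = x → ∃ y, ∑ i ∈ range p, (g ^ i) y = x := by
  have : NeZero p := ⟨hp.out.ne_zero⟩
  obtain ⟨N, hN⟩ : ∃ N : E →+ E, N = (∑ i ∈ range p, g ^ i : AddMonoid.End E) := ⟨_, rfl⟩
  have hNapp : ∀ x, N x = ∑ i ∈ range p, (g ^ i) x := by
    intro x
    rw [hN]
    exact sum_apply _ _ _
  obtain ⟨A, hA⟩ : ∃ A : AddSubgroup E, A = (dif g).ker := ⟨_, rfl⟩
  obtain ⟨B, hB⟩ : ∃ B : AddSubgroup E, B = N.ker := ⟨_, rfl⟩
  have memA : ∀ x, x ∈ A ↔ g x = x := by
    intro x
    rw [hA, AddMonoidHom.mem_ker]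
    exact sub_eq_zero
  have memB : ∀ x, x ∈ B ↔ N x = 0 := by
    intro x
    rw [hB, AddMonoidHom.mem_ker]
  have hgN : ∀ x, g (N x) = N x := by
    intro x
    have h1 : (g - 1) * ∑ i ∈ range p, g ^ i = 0 := by
      rw [mul_geom_sum, hg, sub_self]
    have h2 : ((g - 1) * ∑ i ∈ range p, g ^ i : AddMonoid.End E) x = 0 := by
      rw [h1]
      rfl
    rw [hN]
    exact sub_eq_zero.mp h2
  have hNg : ∀ x, N (g x) = N x := by
    intro x
    have h1 : (∑ i ∈ range p, g ^ i) * (g - 1) = 0 := by
      rw [geom_sum_mul, hg, sub_self]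
    have h2 : ((∑ i ∈ range p, g ^ i) * (g - 1) : AddMonoid.End E) x = 0 := by
      rw [h1]
      rfl
    have h3 : N (g x - x) = 0 := by
      rw [hN]
      exact h2
    rw [map_sub] at h3
    exact sub_eq_zero.mp h3
  have hNA : ∀ x ∈ A, N x = p • x := by
    intro x hx
    rw [memA] at hx
    have h3 : ∀ i : ℕ, (g ^ i) x = x := by
      intro i
      induction i with
      | zero => rfl
      | succ i ih =>
        rw [pow_succ]
        change (g ^ i) (g x) = x
        rw [hx, ih]
    rw [hNapp, Finset.sum_congr rfl fun i _ => h3 i, Finset.sum_const, Finset.card_range]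
  -- the restricted norm
  obtain ⟨N', hN'⟩ : ∃ N' : E →+ A, ∀ x, (N' x : E) = N x :=
    ⟨N.codRestrict A fun x => (memA _).mpr (hgN x), fun x => rfl⟩
  obtain ⟨t', ht'⟩ : ∃ t' : E →+ B, ∀ x, (t' x : E) = g x - x :=
    ⟨(dif g).codRestrict B fun x => (memB _).mpr (by
      change N (g x - x) = 0
      rw [map_sub, hNg, sub_self]), fun x => rfl⟩
  have hgB : ∀ x ∈ B, g x ∈ B := by
    intro x hx
    rw [memB] at hx ⊢
    rw [hNg, hx]
  obtain ⟨gB, hgB'⟩ : ∃ gB : AddMonoid.End B, ∀ x, (gB x : E) = g x :=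
    ⟨((g : E →+ E).comp B.subtype).codRestrict B fun x => hgB x x.2, fun x => rfl⟩
  have hgBi : ∀ (i : ℕ) (x : B), ((gB ^ i) x : E) = (g ^ i) x := by
    intro i
    induction i with
    | zero => exact fun x => rfl
    | succ i ih =>
      intro x
      rw [pow_succ, pow_succ]
      change (((gB ^ i) (gB x) : B) : E) = (g ^ i) (g x)
      rw [ih, hgB']
  have hNB : ∑ i ∈ range p, gB ^ i = 0 := by
    apply AddMonoidHom.ext
    intro x
    apply Subtype.ext
    change (((∑ i ∈ range p, gB ^ i) x : B) : E) = 0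
    rw [sum_apply, AddSubgroup.val_finsetSum, Finset.sum_congr rfl fun i _ => hgBi i x,
      ← hNapp]
    exact (memB _).mp x.2
  -- ranks
  have hrB : Module.finrank ℤ B = (p - 1) * Module.finrank ℤ A := by
    have h1 := rank_nullity (dif g)
    have h2 : (dif g).range = B := by
      ext x
      constructor
      · rintro ⟨y, rfl⟩
        have h2 : (dif g) y = t' y := (ht' y).symm
        rw [h2]
        exact (t' y).2
      · intro hx
        obtain ⟨y, hy⟩ := hH x (by rw [← hNapp]; exact (memB x).mp hx)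
        exact ⟨y, hy⟩
    rw [h2, ← hA, hrank, ← hA] at h1
    obtain ⟨q, hq⟩ : ∃ q, p = q + 1 := ⟨p - 1, by have := hp.out.pos; omega⟩
    have h3 : p * Module.finrank ℤ A = (p - 1) * Module.finrank ℤ A + Module.finrank ℤ A := by
      rw [hq]
      simp only [Nat.add_sub_cancel]
      ring
    omega
  have hfB : Module.Finite ℤ B :=
    (inferInstance : Module.Finite ℤ (AddSubgroup.toIntSubmodule B))
  have hfA : Module.Finite ℤ A :=
    (inferInstance : Module.Finite ℤ (AddSubgroup.toIntSubmodule A))
  have hkey := key gB p (Module.finrank ℤ A) hNB hrB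
  have hnA := index_nsmul A p
  have hc : Nat.card (nsmulAddMonoidHom p : A →+ A).ker = Nat.card (dif gB).ker := by
    refine Nat.card_congr ⟨fun x => ⟨⟨((x : A) : E), ?_⟩, ?_⟩, fun x => ⟨⟨((x : B) : E), ?_⟩, ?_⟩,
      ?_, ?_⟩
    · rw [memB, hNA _ x.1.2]
      exact congrArg Subtype.val x.2
    · rw [AddMonoidHom.mem_ker]
      apply Subtype.ext
      change (gB _ : E) - _ = 0
      rw [hgB', sub_eq_zero]
      exact (memA _).mp x.1.2
    · rw [memA, ← hgB']
      exact congrArg Subtype.val (sub_eq_zero.mp x.2)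
    · rw [AddMonoidHom.mem_ker]
      apply Subtype.ext
      have h1 : g ((x : B) : E) = (x : B) := by
        rw [← hgB']
        exact congrArg Subtype.val (sub_eq_zero.mp x.2)
      change p • ((x : B) : E) = 0
      rw [← hNA _ ((memA _).mpr h1)]
      exact (memB _).mp x.1.2
    · intro x
      rfl
    · intro x
      rfl
  have h1 : (A.map N').index = (A ⊔ B).index * N'.range.index := by
    rw [AddSubgroup.index_map]
    congr 3
    ext x
    rw [AddMonoidHom.mem_ker, memB, ← hN']
    exact ⟨fun h => congrArg Subtype.val h, fun h => Subtype.ext h⟩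
  have h2 : (B.map t').index = (B ⊔ A).index := by
    rw [AddSubgroup.index_map]
    have h3 : t'.range = ⊤ := by
      rw [AddMonoidHom.range_eq_top]
      intro x
      obtain ⟨y, hy⟩ := hH x (by rw [← hNapp]; exact (memB _).mp x.2)
      exact ⟨y, Subtype.ext (by rw [ht', hy])⟩
    rw [h3, AddSubgroup.index_top, mul_one]
    congr 2
    ext x
    rw [AddMonoidHom.mem_ker, memA]
    constructor
    · intro h
      have h4 := congrArg Subtype.val h
      rw [ht'] at h4
      exact sub_eq_zero.mp h4
    · intro h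
      apply Subtype.ext
      rw [ht', h, sub_self]
      rfl
  have h3 : A.map N' = (nsmulAddMonoidHom p : A →+ A).range := by
    ext x
    constructor
    · rintro ⟨y, hy, rfl⟩
      refine ⟨⟨y, hy⟩, Subtype.ext ?_⟩
      rw [hN', hNA y hy]
      rfl
    · rintro ⟨y, rfl⟩
      refine ⟨y, y.2, Subtype.ext ?_⟩
      rw [hN', hNA _ y.2]
      rfl
  have h4 : B.map t' = (dif gB).range := by
    ext x
    constructor
    · rintro ⟨y, hy, rfl⟩
      refine ⟨⟨y, hy⟩, Subtype.ext ?_⟩
      rw [ht']
      change (gB ⟨y, hy⟩ : E) - y = g y - y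
      rw [hgB']
    · rintro ⟨y, rfl⟩
      refine ⟨y, y.2, Subtype.ext ?_⟩
      rw [ht']
      change g y - y = (gB y : E) - y
      rw [hgB']
  rw [h3, hnA, hc] at h1
  rw [h4, sup_comm B A] at h2
  rw [h2] at hkey
  have h5 : N'.range.index = 1 := by
    have h6 : Nat.card (dif gB).ker * p ^ Module.finrank ℤ A ≠ 0 := by
      refine mul_ne_zero ?_ (pow_ne_zero _ hp.out.ne_zero)
      rw [← hc]
      exact card_ker_ne_zero _ (nsmul_ker_le p)
    have h7 : (A ⊔ B).index * N'.range.index ≤ (A ⊔ B).index * 1 := by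
      rw [← h1, mul_one, mul_comm]
      exact hkey.1
    have h8 := Nat.le_of_mul_le_mul_left h7 (Nat.pos_of_ne_zero hkey.2)
    have h9 : N'.range.index ≠ 0 := by
      intro h0
      rw [h0, mul_zero] at h1
      exact h6 h1
    omega
  intro x hx
  have h6 : (⟨x, (memA x).mpr hx⟩ : A) ∈ N'.range := by
    rw [AddSubgroup.index_eq_one.mp h5]
    exact AddSubgroup.mem_top _
  obtain ⟨y, hy⟩ := h6
  refine ⟨y, ?_⟩
  rw [← hNapp, ← hN', hy]

end HERB

open _root_.Pool.Agent.RI.HERB Finset in
theorem HERB_thm : HERB := by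
  intro p hp A G _ _ _ g E E' hg hfg hst hE' hH hr
  have : Group.FG E := (Group.fg_iff_subgroup_fg E).mpr hfg
  have hfin : Module.Finite ℤ (Additive E) := Module.Finite.iff_addGroup_fg.mpr inferInstance
  obtain ⟨k, hk⟩ : ∃ k : AddMonoid.End (Additive E), ∀ x : E,
      ((k (Additive.ofMul x)).toMul : A) = g • (x : A) :=
    ⟨MonoidHom.toAdditive (((MulDistribMulAction.toMonoidHom A g).comp E.subtype).codRestrict E
      fun x => hst x x.2), fun x => rfl⟩
  have hki : ∀ (i : ℕ) (x : E), (((k ^ i) (Additive.ofMul x)).toMul : A) = g ^ i • (x : A) := by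
    intro i
    induction i with
    | zero =>
      intro x
      rw [pow_zero, pow_zero, one_smul]
      rfl
    | succ i ih =>
      intro x
      rw [pow_succ, pow_succ, mul_smul, ← hk x]
      exact ih (k (Additive.ofMul x)).toMul
  have hsum : ∀ x : E, (((∑ i ∈ range p, (k ^ i) (Additive.ofMul x) : Additive E)).toMul : A) =
      ∏ i ∈ range p, g ^ i • (x : A) := by
    intro x
    rw [toMul_sum, Subgroup.val_finsetProd]
    exact Finset.prod_congr rfl fun i _ => hki i x
  have hkp : k ^ p = 1 := by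
    apply AddMonoidHom.ext
    intro x
    apply Additive.toMul.injective
    apply Subtype.ext
    have h1 := hki p x.toMul
    rw [hg, one_smul] at h1
    exact h1
  have hrk : Module.finrank ℤ (dif k).ker = Module.finrank ℤ (Additive E') := by
    have e : (dif k).ker ≃+ Additive E' :=
      { toFun := fun x => Additive.ofMul ⟨((x : Additive E).toMul : A), (hE' _).mpr
          ⟨(x : Additive E).toMul.2, by
            have h1 : k (x : Additive E) = x := sub_eq_zero.mp x.2
            rw [← hk]
            exact congrArg (fun z : Additive E => (z.toMul : A)) h1⟩⟩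
        invFun := fun x => ⟨Additive.ofMul ⟨(x.toMul : A), ((hE' _).mp x.toMul.2).1⟩, by
          rw [AddMonoidHom.mem_ker]
          change k _ - _ = 0
          rw [sub_eq_zero]
          apply Additive.toMul.injective
          apply Subtype.ext
          rw [hk]
          exact ((hE' _).mp x.toMul.2).2⟩
        left_inv := fun x => rfl
        right_inv := fun x => rfl
        map_add' := fun x y => rfl }
    exact e.toIntLinearEquiv.finrank_eq
  have hmain := main_add (Additive E) k p hkp (by rw [hrk]; exact hr) (by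
    intro x hx
    obtain ⟨v, hv, hv'⟩ := hH (x.toMul : A) x.toMul.2 (by
      rw [← hsum]
      exact congrArg (fun z : Additive E => (z.toMul : A)) hx)
    refine ⟨Additive.ofMul (⟨v, hv⟩⁻¹ : E), ?_⟩
    apply Additive.toMul.injective
    apply Subtype.ext
    change ((k (Additive.ofMul (⟨v, hv⟩⁻¹ : E))).toMul : A) / ((⟨v, hv⟩⁻¹ : E) : A) = _
    rw [hk, hv']
    change g • v⁻¹ / v⁻¹ = v / g • v
    rw [smul_inv', div_eq_mul_inv, inv_inv, div_eq_mul_inv, mul_comm])
  intro e he
  obtain ⟨h1, h2⟩ := (hE' e).mp he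
  obtain ⟨y, hy⟩ := hmain (Additive.ofMul ⟨e, h1⟩) (by
    apply Additive.toMul.injective
    apply Subtype.ext
    rw [hk]
    exact h2)
  refine ⟨y.toMul, y.toMul.2, ?_⟩
  have h3 := hsum y.toMul
  rw [← h3]
  exact (congrArg (fun z : Additive E => (z.toMul : A)) hy).symm

end Pool.Agent.RI


end

section

/-!
# The S-unit theorem for number fields

`S` a finite set of height one primes of `𝓞 K`; `U = S.unit K` (Mathlib's `Set.unit`).
`plog x w` is the logarithm of the normalised absolute value of `x ∈ Kˣ` at the place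
`w ∈ S_∞ ⊔ S`.
-/

open NumberField IsDedekindDomain Module
open scoped nonZeroDivisors

namespace SUnit

variable {K : Type*} [Field K] [NumberField K]

/-- places above: infinite places and the finite places in `S` -/
abbrev Pl (K : Type*) [Field K] [NumberField K] (S : Finset (HeightOneSpectrum (𝓞 K))) :=
  InfinitePlace K ⊕ S

/-- logarithm of the normalised absolute value -/
noncomputable def plog (S : Finset (HeightOneSpectrum (𝓞 K))) :
    Additive Kˣ →+ (Pl K S → ℝ) where
  toFun x w := match w with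
    | Sum.inl w => w.mult * Real.log (w (x.toMul : K))
    | Sum.inr v => Real.log (FinitePlace.mk v.1 (x.toMul : K))
  map_zero' := by
    funext w
    rcases w with w | v <;> simp
  map_add' x y := by
    funext w
    rcases w with w | v
    · have hx : w (x.toMul : K) ≠ 0 := by simp
      have hy : w (y.toMul : K) ≠ 0 := by simp
      simp [Real.log_mul hx hy, mul_add]
    · have hx : FinitePlace.mk v.1 (x.toMul : K) ≠ 0 := by simp
      have hy : FinitePlace.mk v.1 (y.toMul : K) ≠ 0 := by simp
      show Real.log (FinitePlace.mk v.1 ((x + y).toMul : K)) = Real.log _ + Real.log _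
      rw [← Real.log_mul hx hy, ← map_mul]
      rfl

@[simp] theorem plog_inl (S : Finset (HeightOneSpectrum (𝓞 K))) (x : Additive Kˣ)
    (w : InfinitePlace K) : plog S x (Sum.inl w) = w.mult * Real.log (w (x.toMul : K)) := rfl

theorem plog_inr (S : Finset (HeightOneSpectrum (𝓞 K))) (x : Additive Kˣ)
    (v : S) : plog S x (Sum.inr v) = Real.log (FinitePlace.mk v.1 (x.toMul : K)) := rfl

/-- the finite absolute value is one iff the valuation is one -/
theorem finitePlace_eq_one_iff (v : HeightOneSpectrum (𝓞 K)) (x : K) :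
    FinitePlace.mk v x = 1 ↔ v.valuation K x = 1 := by
  rw [FinitePlace.mk_apply, FinitePlace.norm_embedding, HeightOneSpectrum.adicAbv_def]
  norm_cast
  rw [WithZeroMulInt.toNNReal_eq_one_iff]
  · exact HeightOneSpectrum.one_lt_absNorm_nnreal v |>.ne'
  
theorem finitePlace_le_one_iff (v : HeightOneSpectrum (𝓞 K)) (x : K) :
    FinitePlace.mk v x ≤ 1 ↔ v.valuation K x ≤ 1 := by
  rw [FinitePlace.mk_apply, FinitePlace.norm_embedding, HeightOneSpectrum.adicAbv_def]
  norm_cast
  rw [WithZeroMulInt.toNNReal_le_one_iff]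
  · exact HeightOneSpectrum.one_lt_absNorm_nnreal v

/-- membership in the group of `S`-units -/
theorem mem_unit_iff (S : Finset (HeightOneSpectrum (𝓞 K))) (x : Kˣ) :
    x ∈ (S : Set (HeightOneSpectrum (𝓞 K))).unit K ↔
      ∀ v : HeightOneSpectrum (𝓞 K), v ∉ S → FinitePlace.mk v (x : K) = 1 := by
  have : x ∈ (S : Set (HeightOneSpectrum (𝓞 K))).unit K ↔
      ∀ v : HeightOneSpectrum (𝓞 K), v ∉ (S : Set (HeightOneSpectrum (𝓞 K))) →
        v.valuation K (x : K) = 1 := Iff.rfl
  rw [this]
  simp only [Finset.mem_coe, finitePlace_eq_one_iff]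

/-- the group of `S`-units as an additive subgroup of `Additive Kˣ` -/
noncomputable abbrev U (K : Type*) [Field K] [NumberField K] (S : Finset (HeightOneSpectrum (𝓞 K))) :
    AddSubgroup (Additive Kˣ) :=
  ((S : Set (HeightOneSpectrum (𝓞 K))).unit K).toAddSubgroup

theorem mem_U_iff (S : Finset (HeightOneSpectrum (𝓞 K))) (x : Additive Kˣ) :
    x ∈ U K S ↔ ∀ v : HeightOneSpectrum (𝓞 K), v ∉ S → FinitePlace.mk v (x.toMul : K) = 1 :=
  mem_unit_iff S x.toMul

/-- product formula -/
theorem sum_plog (S : Finset (HeightOneSpectrum (𝓞 K))) (x : Additive Kˣ) (hx : x ∈ U K S) :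
    ∑ w, plog S x w = 0 := by
  rw [mem_U_iff] at hx
  have hx0 : (x.toMul : K) ≠ 0 := x.toMul.ne_zero
  have h := prod_abs_eq_one hx0
  have h2 : ∏ᶠ w : FinitePlace K, w (x.toMul : K)
      = ∏ v : S, FinitePlace.mk v.1 (x.toMul : K) := by
    rw [← finprod_comp_equiv FinitePlace.equivHeightOneSpectrum.symm]
    rw [Finset.prod_coe_sort S (fun v => FinitePlace.mk v (x.toMul : K))]
    apply finprod_eq_prod_of_mulSupport_subset
    intro v hv
    by_contra hvS
    exact hv (hx v (by simpa using hvS))
  rw [h2] at h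
  have h3 := congrArg Real.log h
  rw [Real.log_one, Real.log_mul] at h3
  · rw [Real.log_prod, Real.log_prod] at h3
    · rw [Fintype.sum_sum_type]
      simpa [plog_inr, Real.log_pow] using h3
    · intro v _
      simp
    · intro w _
      simp
  · rw [Finset.prod_ne_zero_iff]
    intro w _
    simp
  · rw [Finset.prod_ne_zero_iff]
    intro w _
    simp

/-- **Northcott for `S`-units**: only finitely many `S`-units have bounded logarithms. -/
theorem finite_bounded (S : Finset (HeightOneSpectrum (𝓞 K))) (r : ℝ) :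
    {x : Additive Kˣ | x ∈ U K S ∧ ∀ w, |plog S x w| ≤ r}.Finite := by
  classical
  set N : ℕ := ∏ v ∈ S, Ideal.absNorm v.asIdeal with hN
  have hN0 : N ≠ 0 := by
    rw [hN, Finset.prod_ne_zero_iff]
    intro v _
    rw [Ne, Ideal.absNorm_eq_zero_iff]
    exact v.ne_bot
  have hN0K : (N : K) ≠ 0 := by exact_mod_cast hN0
  have hNint : ∀ v : HeightOneSpectrum (𝓞 K), FinitePlace.mk v (N : K) ≤ 1 := by
    intro v
    have := FinitePlace.norm_le_one (K := K) v (N : 𝓞 K)
    simpa using this
  have hNlt : ∀ v ∈ S, FinitePlace.mk v (N : K) < 1 := by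
    intro v hv
    have h := (FinitePlace.norm_lt_one_iff_mem (K := K) v (N : 𝓞 K)).mpr ?_
    · simpa using h
    · rw [hN]
      push_cast
      rw [← Finset.mul_prod_erase _ _ hv]
      exact Ideal.mul_mem_right _ _ (Ideal.absNorm_mem v.asIdeal)
  have hk : ∀ v ∈ S, ∃ k : ℕ, (FinitePlace.mk v (N : K)) ^ k * Real.exp r ≤ 1 := by
    intro v hv
    obtain ⟨k, hk⟩ := exists_pow_lt_of_lt_one (Real.exp_pos (-r)) (hNlt v hv)
    refine ⟨k, ?_⟩
    calc (FinitePlace.mk v (N : K)) ^ k * Real.exp r ≤ Real.exp (-r) * Real.exp r := by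
          gcongr
      _ = 1 := by rw [← Real.exp_add]; simp
  choose! κ hκ using hk
  set k : ℕ := S.sup κ with hkdef
  have hk : ∀ v ∈ S, (FinitePlace.mk v (N : K)) ^ k * Real.exp r ≤ 1 := by
    intro v hv
    refine le_trans ?_ (hκ v hv)
    gcongr ?_ * _
    exact pow_le_pow_of_le_one (apply_nonneg _ _) (hNint v) (Finset.le_sup hv)
  have hfin := Embeddings.finite_of_norm_le K ℂ ((N : ℝ) ^ k * Real.exp r)
  refine Set.Finite.of_finite_image (f := fun x : Additive Kˣ => (N : K) ^ k * (x.toMul : K))
    (hfin.subset ?_) ?_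
  · rintro _ ⟨x, ⟨hxU, hxb⟩, rfl⟩
    rw [mem_U_iff] at hxU
    refine ⟨?_, ?_⟩
    · have hval : ∀ v : HeightOneSpectrum (𝓞 K),
          v.valuation K ((N : K) ^ k * (x.toMul : K)) ≤ 1 := by
        intro v
        rw [← finitePlace_le_one_iff, map_mul, map_pow]
        by_cases hv : v ∈ S
        · refine le_trans ?_ (hk v hv)
          gcongr
          have h1 := hxb (Sum.inr ⟨v, hv⟩)
          rw [plog_inr] at h1
          have h2 := (abs_le.mp h1).2
          have hpos : 0 < FinitePlace.mk v (x.toMul : K) := by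
            rw [FinitePlace.pos_iff]
            exact x.toMul.ne_zero
          rwa [Real.log_le_iff_le_exp hpos] at h2
        · rw [hxU v hv, mul_one]
          exact pow_le_one₀ (apply_nonneg _ _) (hNint v)
      obtain ⟨y, hy⟩ := HeightOneSpectrum.mem_integers_of_valuation_le_one K _ hval
      show IsIntegral ℤ ((N : K) ^ k * (x.toMul : K))
      rw [← hy]
      exact RingOfIntegers.isIntegral_coe y
    · intro φ
      have h1 := hxb (Sum.inl (InfinitePlace.mk φ))
      rw [plog_inl] at h1
      have hpos : 0 < (InfinitePlace.mk φ) (x.toMul : K) := by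
        rw [InfinitePlace.pos_iff]
        exact x.toMul.ne_zero
      have hm : (1 : ℝ) ≤ (InfinitePlace.mk φ).mult := by
        exact_mod_cast InfinitePlace.one_le_mult
      have h2 : Real.log ((InfinitePlace.mk φ) (x.toMul : K)) ≤ r := by
        rw [abs_mul, abs_of_pos (by linarith : (0:ℝ) < (InfinitePlace.mk φ).mult)] at h1
        calc _ ≤ |Real.log ((InfinitePlace.mk φ) (x.toMul : K))| := le_abs_self _
          _ ≤ (InfinitePlace.mk φ).mult * |Real.log ((InfinitePlace.mk φ) (x.toMul : K))| :=
            le_mul_of_one_le_left (abs_nonneg _) hm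
          _ ≤ r := h1
      rw [Real.log_le_iff_le_exp hpos, InfinitePlace.apply] at h2
      show ‖φ ((N : K) ^ k * (x.toMul : K))‖ ≤ _
      rw [map_mul, map_pow, map_natCast, norm_mul, norm_pow, Complex.norm_natCast]
      gcongr
  · intro x _ y _ hxy
    have : (N : K) ^ k * (x.toMul : K) = (N : K) ^ k * (y.toMul : K) := hxy
    have h2 := mul_left_cancel₀ (pow_ne_zero k hN0K) this
    exact Additive.toMul.injective (Units.ext h2)

/-- an integer divisible by exactly one given prime -/
theorem exists_generator (v : HeightOneSpectrum (𝓞 K)) :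
    ∃ a : 𝓞 K, a ≠ 0 ∧ ∀ v' : HeightOneSpectrum (𝓞 K), a ∈ v'.asIdeal ↔ v' = v := by
  classical
  have hv0 : v.asIdeal ∈ (Ideal (𝓞 K))⁰ := mem_nonZeroDivisors_iff_ne_zero.mpr v.ne_bot
  set I : (Ideal (𝓞 K))⁰ := ⟨v.asIdeal, hv0⟩ with hI
  have h1 : ClassGroup.mk0 (I ^ Fintype.card (ClassGroup (𝓞 K))) = 1 := by
    rw [map_pow, pow_card_eq_one]
  have h2 := (ClassGroup.mk0_eq_one_iff (I ^ Fintype.card (ClassGroup (𝓞 K))).2).mp h1
  obtain ⟨a, ha⟩ := h2
  have ha' : v.asIdeal ^ Fintype.card (ClassGroup (𝓞 K)) = Ideal.span {a} := by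
    have : ((I ^ Fintype.card (ClassGroup (𝓞 K)) : (Ideal (𝓞 K))⁰) : Ideal (𝓞 K))
        = v.asIdeal ^ Fintype.card (ClassGroup (𝓞 K)) := by
      simp [hI]
    rw [← this, ha]
  refine ⟨a, ?_, ?_⟩
  · rintro rfl
    have : v.asIdeal ^ Fintype.card (ClassGroup (𝓞 K)) = ⊥ := by
      rw [ha']; simp
    exact v.ne_bot (pow_eq_zero_iff (Fintype.card_ne_zero) |>.mp this)
  · intro v'
    rw [← Ideal.span_singleton_le_iff_mem, ← ha']
    constructor
    · intro h
      have h3 : v.asIdeal ≤ v'.asIdeal := Ideal.IsPrime.le_of_pow_le (hP := v'.isPrime) h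
      have h4 := v.isMaximal.eq_of_le v'.isPrime.ne_top h3
      exact (HeightOneSpectrum.ext h4).symm
    · rintro rfl
      exact Ideal.pow_le_self Fintype.card_ne_zero

open NumberField.Units NumberField.Units.dirichletUnitTheorem in
/-- the hyperplane `∑ = 0` -/
noncomputable def hyper (K : Type*) [Field K] [NumberField K]
    (S : Finset (HeightOneSpectrum (𝓞 K))) : Submodule ℝ (Pl K S → ℝ) :=
  LinearMap.ker (∑ w, LinearMap.proj (R := ℝ) (φ := fun _ => ℝ) w : (Pl K S → ℝ) →ₗ[ℝ] ℝ)

theorem mem_hyper (S : Finset (HeightOneSpectrum (𝓞 K))) (f : Pl K S → ℝ) :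
    f ∈ hyper K S ↔ ∑ w, f w = 0 := by
  simp [hyper]

open NumberField.Units NumberField.Units.dirichletUnitTheorem in
/-- the logarithms of units span the part of the hyperplane supported at infinity -/
theorem inf_mem_span (S : Finset (HeightOneSpectrum (𝓞 K))) (f : Pl K S → ℝ)
    (hf : ∑ w, f w = 0) (hfin : ∀ v : S, f (Sum.inr v) = 0) :
    f ∈ Submodule.span ℝ (plog S '' (U K S : Set (Additive Kˣ))) := by
  classical
  set E : logSpace K →ₗ[ℝ] (Pl K S → ℝ) :=
    LinearMap.pi (fun w => match w with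
      | Sum.inl w => if h : w = w₀ then
          -(∑ w', LinearMap.proj (R := ℝ) (φ := fun _ => ℝ) w' : logSpace K →ₗ[ℝ] ℝ)
          else LinearMap.proj (R := ℝ) (φ := fun _ => ℝ) ⟨w, h⟩
      | Sum.inr _ => 0) with hE
  have hspan : Submodule.map E ⊤ ≤ Submodule.span ℝ (plog S '' (U K S : Set (Additive Kˣ))) := by
    rw [← unitLattice_span_eq_top K, Submodule.map_span]
    apply Submodule.span_mono
    rintro _ ⟨g, ⟨u, _, rfl⟩, rfl⟩
    set x : Additive Kˣ := Additive.ofMul (Units.map (algebraMap (𝓞 K) K).toMonoidHom u.toMul)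
      with hx
    refine ⟨x, ?_, ?_⟩
    · rw [SetLike.mem_coe, mem_U_iff]
      intro v _
      have h1 := (FinitePlace.norm_eq_one_iff_notMem (K := K) v (u.toMul : 𝓞 K)).mpr (by
        intro h
        exact v.isPrime.ne_top (Ideal.eq_top_of_isUnit_mem _ h u.toMul.isUnit))
      exact h1
    · funext w
      rcases w with w | v
      · rw [plog_inl, hE]
        by_cases h : w = w₀
        · subst h
          have := sum_logEmbedding_component u.toMul
          simp only [LinearMap.pi_apply, dif_pos, LinearMap.neg_apply, LinearMap.sum_apply,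
            LinearMap.proj_apply]
          have h3 : ∑ d, (logEmbedding K).toIntLinearMap u d
              = -↑w₀.mult * Real.log (w₀ ((algebraMap (𝓞 K) K) ↑(Additive.toMul u))) := this
          rw [h3]
          simp [hx]
        · simp only [LinearMap.pi_apply, dif_neg h, LinearMap.proj_apply]
          rfl
      · rw [plog_inr, hE]
        have h1 := (FinitePlace.norm_eq_one_iff_notMem (K := K) v.1 (u.toMul : 𝓞 K)).mpr (by
          intro h
          exact v.1.isPrime.ne_top (Ideal.eq_top_of_isUnit_mem _ h u.toMul.isUnit))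
        have h2 : FinitePlace.mk v.1 (x.toMul : K) = 1 := h1
        rw [h2]
        simp
  refine hspan ⟨fun w => f (Sum.inl w.1), trivial, ?_⟩
  funext w
  rcases w with w | v
  · by_cases h : w = w₀
    · subst h
      simp only [hE, LinearMap.pi_apply, dif_pos, LinearMap.neg_apply, LinearMap.sum_apply,
            LinearMap.proj_apply]
      rw [Fintype.sum_sum_type] at hf
      simp only [hfin, Finset.sum_const_zero, add_zero] at hf
      rw [Fintype.sum_eq_add_sum_subtype_ne _ (w₀ : InfinitePlace K)] at hf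
      linarith
    · simp only [hE, LinearMap.pi_apply, dif_neg h, LinearMap.proj_apply]
  · rw [hfin]
    rfl

/-- **span part of the `S`-unit theorem** -/
theorem span_plog (S : Finset (HeightOneSpectrum (𝓞 K))) :
    Submodule.span ℝ (plog S '' (U K S : Set (Additive Kˣ))) = hyper K S := by
  classical
  apply le_antisymm
  · rw [Submodule.span_le]
    rintro _ ⟨x, hx, rfl⟩
    rw [SetLike.mem_coe, mem_hyper]
    exact sum_plog S x hx
  · intro f hf
    rw [mem_hyper] at hf
    -- the elements `a v`
    choose a ha0 ha using exists_generator (K := K)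
    have haK : ∀ v, (algebraMap (𝓞 K) K (a v)) ≠ 0 := by
      intro v
      rw [Ne, FaithfulSMul.algebraMap_eq_zero_iff]
      exact ha0 v
    set x : HeightOneSpectrum (𝓞 K) → Additive Kˣ :=
      fun v => Additive.ofMul (Units.mk0 _ (haK v)) with hx
    have hval : ∀ v v', v' ≠ v → FinitePlace.mk v' ((x v).toMul : K) = 1 := by
      intro v v' h
      have h1 := (FinitePlace.norm_eq_one_iff_notMem (K := K) v' (a v)).mpr (by
        rw [ha v v']; exact h)
      exact h1
    have hval2 : ∀ v, FinitePlace.mk v ((x v).toMul : K) < 1 := by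
      intro v
      exact (FinitePlace.norm_lt_one_iff_mem (K := K) v (a v)).mpr ((ha v v).mpr rfl)
    have hxU : ∀ v ∈ S, x v ∈ U K S := by
      intro v hv
      rw [mem_U_iff]
      intro v' hv'
      exact hval v v' (fun h => hv' (h ▸ hv))
    have hlog : ∀ v : S, plog S (x v.1) (Sum.inr v) ≠ 0 := by
      intro v
      rw [plog_inr]
      have hpos : 0 < FinitePlace.mk v.1 ((x v.1).toMul : K) := by
        rw [FinitePlace.pos_iff]
        exact (x v.1).toMul.ne_zero
      exact (Real.log_neg hpos (hval2 v.1)).ne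
    set g : Pl K S → ℝ := ∑ v : S, (f (Sum.inr v) / plog S (x v.1) (Sum.inr v)) • plog S (x v.1)
      with hg
    have hgmem : g ∈ Submodule.span ℝ (plog S '' (U K S : Set (Additive Kˣ))) := by
      apply Submodule.sum_mem
      intro v _
      apply Submodule.smul_mem
      exact Submodule.subset_span ⟨x v.1, hxU v.1 v.2, rfl⟩
    have hgsum : ∑ w, g w = 0 := by
      have : g ∈ hyper K S := by
        apply Submodule.sum_mem
        intro v _
        apply Submodule.smul_mem
        rw [mem_hyper]
        exact sum_plog S _ (hxU v.1 v.2)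
      rwa [mem_hyper] at this
    have hginr : ∀ v : S, g (Sum.inr v) = f (Sum.inr v) := by
      intro v
      rw [hg, Finset.sum_apply, Finset.sum_eq_single v]
      · simp only [Pi.smul_apply, smul_eq_mul]
        rw [div_mul_cancel₀ _ (hlog v)]
      · intro v' _ hne
        simp only [Pi.smul_apply, smul_eq_mul]
        rw [plog_inr S (x v'.1) v, hval v'.1 v.1 (fun h => hne (Subtype.ext h.symm))]
        simp
      · simp
    have hsub := inf_mem_span S (f - g) (by simp [Finset.sum_sub_distrib, hf, hgsum]) (by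
      intro v
      simp [hginr v])
    have := Submodule.add_mem _ hsub hgmem
    simpa using this

end SUnit


end

section

/-!
# The S-unit theorem, lattice form
-/

open NumberField IsDedekindDomain Module
open scoped nonZeroDivisors TensorProduct

namespace SUnit

variable {K : Type*} [Field K] [NumberField K]

/-- the logarithmic map from `S`-units to the hyperplane -/
noncomputable def ell (S : Finset (HeightOneSpectrum (𝓞 K))) : U K S →ₗ[ℤ] hyper K S where
  toFun x := ⟨plog S x.1, (mem_hyper S _).mpr (sum_plog S x.1 x.2)⟩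
  map_add' x y := by
    apply Subtype.ext
    show plog S (x.1 + y.1) = plog S x.1 + plog S y.1
    rw [map_add]
  map_smul' n x := by
    apply Subtype.ext
    show plog S (n • x.1) = n • plog S x.1
    rw [map_zsmul]

theorem ell_coe (S : Finset (HeightOneSpectrum (𝓞 K))) (x : U K S) :
    (ell S x : Pl K S → ℝ) = plog S x.1 := rfl

/-- the `S`-unit lattice -/
noncomputable def lat (S : Finset (HeightOneSpectrum (𝓞 K))) : Submodule ℤ (hyper K S) :=
  LinearMap.range (ell S)

theorem lat_ball_finite (S : Finset (HeightOneSpectrum (𝓞 K))) (r : ℝ) :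
    {x : hyper K S | x ∈ lat S ∧ ‖x‖ ≤ r}.Finite := by
  by_cases hr : 0 ≤ r
  · refine ((finite_bounded S r).image (fun x : Additive Kˣ => (plog S x))).preimage
      (Subtype.val_injective.injOn) |>.subset ?_
    rintro _ ⟨⟨x, rfl⟩, hx⟩
    refine ⟨x.1, ⟨x.2, fun w => ?_⟩, rfl⟩
    have h1 : ‖(plog S x.1)‖ ≤ r := hx
    rw [pi_norm_le_iff_of_nonneg hr] at h1
    exact h1 w
  · convert Set.finite_empty
    ext x
    simp only [Set.mem_ofPred_eq, Set.mem_empty_iff_false, iff_false, not_and, not_le]
    intro _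
    exact lt_of_lt_of_le (not_le.mp hr) (norm_nonneg _)

instance (S : Finset (HeightOneSpectrum (𝓞 K))) : DiscreteTopology (lat S) := by
  refine discreteTopology_of_isOpen_singleton_zero ?_
  refine isOpen_singleton_of_finite_mem_nhds 0 (s := Metric.closedBall 0 1) ?_ ?_
  · exact Metric.closedBall_mem_nhds _ (by simp)
  · refine Set.Finite.of_finite_image ?_ (Set.injOn_of_injective Subtype.val_injective)
    refine (lat_ball_finite S 1).subset ?_
    rintro _ ⟨x, hx, rfl⟩
    refine ⟨x.2, ?_⟩
    rw [mem_closedBall_zero_iff] at hx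
    exact hx

instance (S : Finset (HeightOneSpectrum (𝓞 K))) : IsZLattice ℝ (lat S) where
  span_top := by
    rw [eq_top_iff]
    have h := span_plog S
    have hinj : Function.Injective (hyper K S).subtype := Subtype.val_injective
    rw [← Submodule.map_le_map_iff_of_injective hinj, Submodule.map_subtype_top,
      Submodule.map_span]
    refine h.ge.trans (Submodule.span_mono ?_)
    rintro _ ⟨x, hx, rfl⟩
    exact ⟨ell S ⟨x, hx⟩, ⟨⟨x, hx⟩, rfl⟩, rfl⟩

theorem isOfFinAddOrder_of_plog_eq_zero (S : Finset (HeightOneSpectrum (𝓞 K)))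
    (x : Additive Kˣ) (hx : x ∈ U K S) (h0 : plog S x = 0) : IsOfFinAddOrder x := by
  have hfin := finite_bounded S 0
  have hmap : ∀ n : ℕ, n • x ∈ {x : Additive Kˣ | x ∈ U K S ∧ ∀ w, |plog S x w| ≤ 0} := by
    intro n
    refine ⟨AddSubgroup.nsmul_mem _ hx n, fun w => ?_⟩
    rw [map_nsmul, h0]
    simp
  by_contra hcon
  have hinj : Function.Injective (fun n : ℕ => n • x) :=
    injective_nsmul_iff_not_isOfFinAddOrder.mpr hcon
  exact Set.infinite_range_of_injective hinj (hfin.subset (by
    rintro _ ⟨n, rfl⟩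
    exact hmap n))

/-- **The `S`-unit theorem**, explicit form: fundamental `S`-units. -/
theorem exists_fundamental (S : Finset (HeightOneSpectrum (𝓞 K))) :
    ∃ u : Fin (finrank ℝ (hyper K S)) → U K S,
      LinearIndependent ℝ (fun i => plog S (u i).1) ∧
      Submodule.span ℝ (Set.range fun i => plog S (u i).1) = hyper K S ∧
      ∀ x : U K S, ∃ n : Fin (finrank ℝ (hyper K S)) → ℤ,
        IsOfFinAddOrder (x - ∑ i, n i • u i) := by
  classical
  have hfree : Module.Free ℤ (lat S) := ZLattice.module_free ℝ (lat S)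
  have hfinite : Module.Finite ℤ (lat S) := ZLattice.module_finite ℝ (lat S)
  have hrank : finrank ℤ (lat S) = finrank ℝ (hyper K S) := ZLattice.rank ℝ (lat S)
  obtain ⟨b⟩ : Nonempty (Basis (Fin (finrank ℝ (hyper K S))) ℤ (lat S)) := by
    rw [← hrank]
    exact ⟨Module.finBasis ℤ (lat S)⟩
  choose u hu using fun i => (b i).2
  have hli : LinearIndependent ℝ (fun i => ((b i : lat S) : hyper K S)) := by
    have := (b.ofZLatticeBasis ℝ (lat S)).linearIndependent
    have h2 : (⇑(b.ofZLatticeBasis ℝ (lat S))) = fun i => ((b i : lat S) : hyper K S) := by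
      funext i
      exact b.ofZLatticeBasis_apply ℝ (lat S) i
    rwa [h2] at this
  have hsp : Submodule.span ℝ (Set.range fun i => ((b i : lat S) : hyper K S)) = ⊤ := by
    have := (b.ofZLatticeBasis ℝ (lat S)).span_eq
    have h2 : (⇑(b.ofZLatticeBasis ℝ (lat S))) = fun i => ((b i : lat S) : hyper K S) := by
      funext i
      exact b.ofZLatticeBasis_apply ℝ (lat S) i
    rwa [h2] at this
  refine ⟨u, ?_, ?_, ?_⟩
  · have := hli.map' (hyper K S).subtype (Submodule.ker_subtype _)
    have h3 : (⇑(hyper K S).subtype ∘ fun i => ((b i : lat S) : hyper K S))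
        = fun i => plog S (u i).1 := by
      funext i
      simp only [Function.comp_apply, ← hu i, Submodule.subtype_apply, ell_coe]
    rwa [h3] at this
  · have := congrArg (Submodule.map (hyper K S).subtype) hsp
    rw [Submodule.map_span, Submodule.map_subtype_top] at this
    have h3 : (⇑(hyper K S).subtype '' Set.range fun i => ((b i : lat S) : hyper K S))
        = Set.range fun i => plog S (u i).1 := by
      rw [← Set.range_comp]
      congr 1
      funext i
      simp only [Function.comp_apply, ← hu i, Submodule.subtype_apply, ell_coe]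
    rwa [h3] at this
  · intro x
    set y : lat S := ⟨ell S x, ⟨x, rfl⟩⟩ with hy
    refine ⟨fun i => b.repr y i, ?_⟩
    have h1 := b.sum_repr y
    have h2 : ell S (x - ∑ i, b.repr y i • u i) = 0 := by
      rw [map_sub, map_sum]
      simp only [map_smul, hu]
      have h3 := congrArg (Submodule.subtype (lat S)) h1
      rw [map_sum] at h3
      simp only [map_smul, Submodule.subtype_apply] at h3
      rw [h3, sub_self]
    have h4 := isOfFinAddOrder_of_plog_eq_zero S _ (x - ∑ i, b.repr y i • u i).2 (by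
      have := congrArg Subtype.val h2
      exact this)
    exact (AddSubmonoid.isOfFinAddOrder_coe (x := x - ∑ i, b.repr y i • u i)).mp h4

end SUnit


end

section

/-!
# The S-unit theorem, tensor form
-/

open NumberField IsDedekindDomain Module
open scoped nonZeroDivisors TensorProduct

namespace SUnit

variable {K : Type*} [Field K] [NumberField K]

/-- a torsion element dies in a characteristic zero base change -/
theorem tmul_eq_zero_of_torsion {M : Type*} [AddCommGroup M] {k : Type*} [Field k] [CharZero k]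
    (t : M) (ht : IsOfFinAddOrder t) (c : k) : (c ⊗ₜ[ℤ] t : k ⊗[ℤ] M) = 0 := by
  obtain ⟨n, hn, hnt⟩ := isOfFinAddOrder_iff_nsmul_eq_zero.mp ht
  have hn' : (n : k) ≠ 0 := by exact_mod_cast hn.ne'
  have h : c = (n : ℤ) • (c / n) := by
    rw [zsmul_eq_mul]
    push_cast
    field_simp
  rw [h, TensorProduct.smul_tmul]
  have : (n : ℤ) • t = 0 := by
    rw [natCast_zsmul]
    exact hnt
  rw [this, TensorProduct.tmul_zero]

/-- every element of `k ⊗ U` is a combination of the fundamental units -/
theorem tensor_span (S : Finset (HeightOneSpectrum (𝓞 K))) (k : Type*) [Field k] [CharZero k]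
    {ι : Type*} [Fintype ι] (u : ι → U K S)
    (hu : ∀ x : U K S, ∃ n : ι → ℤ, IsOfFinAddOrder (x - ∑ i, n i • u i)) :
    Submodule.span k (Set.range fun i => (1 : k) ⊗ₜ[ℤ] u i) = ⊤ := by
  rw [eq_top_iff]
  rintro z -
  induction z using TensorProduct.induction_on with
  | zero => exact Submodule.zero_mem _
  | add x y hx hy => exact Submodule.add_mem _ hx hy
  | tmul c x =>
    obtain ⟨n, hn⟩ := hu x
    have h1 : (c ⊗ₜ[ℤ] x : k ⊗[ℤ] U K S) = ∑ i, (c * n i) • ((1 : k) ⊗ₜ[ℤ] u i) := by
      have h2 : x = (x - ∑ i, n i • u i) + ∑ i, n i • u i := by abel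
      conv_lhs => rw [h2]
      rw [TensorProduct.tmul_add, tmul_eq_zero_of_torsion _ hn, zero_add, TensorProduct.tmul_sum]
      refine Finset.sum_congr rfl fun i _ => ?_
      rw [TensorProduct.smul_tmul', smul_eq_mul, mul_one, mul_comm, ← zsmul_eq_mul,
        TensorProduct.smul_tmul]
    rw [h1]
    refine Submodule.sum_mem _ fun i _ => Submodule.smul_mem _ _ ?_
    exact Submodule.subset_span ⟨i, rfl⟩

/-- `plog` as a `ℤ`-linear map on `S`-units with values in `k`-valued functions -/
noncomputable def plogk (S : Finset (HeightOneSpectrum (𝓞 K))) (k : Type*) [Field k]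
    [Algebra ℝ k] : U K S →ₗ[ℤ] (Pl K S → k) where
  toFun x w := algebraMap ℝ k (plog S x.1 w)
  map_add' x y := by
    funext w
    show algebraMap ℝ k (plog S (x.1 + y.1) w) = _ + _
    rw [map_add, Pi.add_apply, map_add]
  map_smul' n x := by
    funext w
    show algebraMap ℝ k (plog S (n • x.1) w) = n • _
    rw [map_zsmul, Pi.smul_apply, map_zsmul]

/-- the `k`-linear logarithmic map `k ⊗ U → k^{S(K)}` -/
noncomputable def lam (S : Finset (HeightOneSpectrum (𝓞 K))) (k : Type*) [Field k]
    [Algebra ℝ k] : k ⊗[ℤ] U K S →ₗ[k] (Pl K S → k) :=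
  (plogk S k).liftBaseChange k

@[simp] theorem lam_tmul (S : Finset (HeightOneSpectrum (𝓞 K))) (k : Type*) [Field k]
    [Algebra ℝ k] (c : k) (x : U K S) (w : Pl K S) :
    lam S k (c ⊗ₜ[ℤ] x) w = c * algebraMap ℝ k (plog S x.1 w) := by
  simp [lam, plogk]

/-- the hyperplane over `k` -/
noncomputable def hyperk (K : Type*) [Field K] [NumberField K]
    (S : Finset (HeightOneSpectrum (𝓞 K))) (k : Type*) [Field k] : Submodule k (Pl K S → k) :=
  LinearMap.ker (∑ w, LinearMap.proj (R := k) (φ := fun _ => k) w : (Pl K S → k) →ₗ[k] k)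

theorem mem_hyperk (S : Finset (HeightOneSpectrum (𝓞 K))) {k : Type*} [Field k]
    (f : Pl K S → k) : f ∈ hyperk K S k ↔ ∑ w, f w = 0 := by
  simp [hyperk]

theorem finrank_hyperk (S : Finset (HeightOneSpectrum (𝓞 K))) (k : Type*) [Field k] :
    finrank k (hyperk K S k) + 1 = Fintype.card (Pl K S) := by
  classical
  set φ := (∑ w, LinearMap.proj (R := k) (φ := fun _ => k) w : (Pl K S → k) →ₗ[k] k) with hφ
  have h1 := LinearMap.finrank_range_add_finrank_ker φ
  have h2 : LinearMap.range φ = ⊤ := by
    rw [LinearMap.range_eq_top]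
    intro c
    obtain ⟨w₀⟩ : Nonempty (Pl K S) := by
      obtain ⟨w⟩ : Nonempty (InfinitePlace K) := inferInstance
      exact ⟨Sum.inl w⟩
    refine ⟨Pi.single w₀ c, ?_⟩
    rw [hφ, LinearMap.sum_apply]
    simp only [LinearMap.proj_apply]
    rw [Finset.sum_eq_single w₀]
    · simp
    · intro b _ hb
      rw [Pi.single_eq_of_ne hb]
    · simp
  rw [h2, finrank_top, finrank_self, finrank_fintype_fun_eq_card] at h1
  show finrank k (LinearMap.ker φ) + 1 = _
  omega

theorem finrank_hyper (S : Finset (HeightOneSpectrum (𝓞 K))) (k : Type*) [Field k] :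
    finrank ℝ (hyper K S) = finrank k (hyperk K S k) := by
  have h1 := finrank_hyperk S k
  have h2 : finrank ℝ (hyper K S) + 1 = Fintype.card (Pl K S) := finrank_hyperk S ℝ
  omega

variable (k : Type*) [Field k] [Algebra ℝ k]

/-- **`S`-unit theorem, injectivity**: `λ_S : k ⊗ O_S^× → k^{S(K)}` is injective for every
field `k ⊇ ℝ`. -/
theorem lam_injective (S : Finset (HeightOneSpectrum (𝓞 K))) :
    Function.Injective (lam S k) := by
  classical
  have : CharZero k := charZero_of_injective_algebraMap (algebraMap ℝ k).injective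
  obtain ⟨u, hli, -, hu⟩ := exists_fundamental S
  have hsp := tensor_span S k u hu
  have hli2 : LinearIndependent k (fun i => lam S k ((1 : k) ⊗ₜ[ℤ] u i)) := by
    have h1 := linearIndependent_algebraMap_comp_iff (S := k) |>.mpr hli
    have h2 : (fun i => lam S k ((1 : k) ⊗ₜ[ℤ] u i))
        = fun i => ⇑(algebraMap ℝ k) ∘ (plog S) ↑(u i) := by
      funext i w
      simp
    rw [h2]
    exact h1
  have hli3 : LinearIndependent k (fun i => (1 : k) ⊗ₜ[ℤ] u i) := LinearIndependent.of_comp _ hli2
  exact LinearMap.injective_of_linearIndependent hsp hli2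

omit [Algebra ℝ k] in
/-- `k ⊗ O_S^×` is finite dimensional -/
theorem finite_tensor (S : Finset (HeightOneSpectrum (𝓞 K))) [CharZero k] :
    Module.Finite k (k ⊗[ℤ] U K S) := by
  classical
  obtain ⟨u, -, -, hu⟩ := exists_fundamental S
  exact ⟨⟨Finset.univ.image (fun i => (1 : k) ⊗ₜ[ℤ] u i), by
    rw [Finset.coe_image, Finset.coe_univ, Set.image_univ]
    exact tensor_span S k u hu⟩⟩

/-- **`S`-unit theorem, image**: the image of `λ_S` is the hyperplane `∑ = 0`. -/
theorem range_lam (S : Finset (HeightOneSpectrum (𝓞 K))) :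
    LinearMap.range (lam S k) = hyperk K S k := by
  classical
  have : CharZero k := charZero_of_injective_algebraMap (algebraMap ℝ k).injective
  have hle : LinearMap.range (lam S k) ≤ hyperk K S k := by
    rintro _ ⟨z, rfl⟩
    induction z using TensorProduct.induction_on with
    | zero => rw [map_zero]; exact Submodule.zero_mem _
    | add x y hx hy => rw [map_add]; exact Submodule.add_mem _ hx hy
    | tmul c x =>
      rw [mem_hyperk]
      simp only [lam_tmul]
      rw [← Finset.mul_sum, ← map_sum, sum_plog S x.1 x.2, map_zero, mul_zero]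
  refine Submodule.eq_of_le_of_finrank_le hle ?_
  obtain ⟨u, hli, -, hu⟩ := exists_fundamental S
  have hli2 : LinearIndependent k (fun i => lam S k ((1 : k) ⊗ₜ[ℤ] u i)) := by
    have h1 := linearIndependent_algebraMap_comp_iff (S := k) |>.mpr hli
    have h2 : (fun i => lam S k ((1 : k) ⊗ₜ[ℤ] u i))
        = fun i => ⇑(algebraMap ℝ k) ∘ (plog S) ↑(u i) := by
      funext i w
      simp
    rw [h2]
    exact h1
  have h5 : LinearIndependent k (fun i => (⟨lam S k ((1 : k) ⊗ₜ[ℤ] u i), ⟨_, rfl⟩⟩ :
      LinearMap.range (lam S k))) := by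
    refine LinearIndependent.of_comp (Submodule.subtype _) ?_
    exact hli2
  have h6 := h5.fintype_card_le_finrank
  rw [Fintype.card_fin, finrank_hyper S k] at h6
  exact h6

/-- the `S`-units are a finitely generated group -/
instance (S : Finset (HeightOneSpectrum (𝓞 K))) : Module.Finite ℤ (U K S) := by
  classical
  obtain ⟨u, -, -, hu⟩ := exists_fundamental S
  -- torsion is finite
  have htor : {x : U K S | IsOfFinAddOrder x}.Finite := by
    have h1 := finite_bounded S 0
    refine Set.Finite.of_finite_image (f := fun x : U K S => x.1) (h1.subset ?_)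
      Subtype.val_injective.injOn
    rintro _ ⟨x, hx, rfl⟩
    refine ⟨x.2, fun w => ?_⟩
    obtain ⟨n, hn, hnx⟩ := isOfFinAddOrder_iff_nsmul_eq_zero.mp hx
    have h2 : n • plog S x.1 = 0 := by
      rw [← map_nsmul]
      have : n • x.1 = 0 := by
        have := congrArg Subtype.val hnx
        exact this
      rw [this, map_zero]
    have h3 := congrFun h2 w
    have h4 : plog S x.1 w = 0 := by
      simpa [hn.ne'] using h3
    rw [h4]
    simp
  refine ⟨⟨Finset.univ.image u ∪ htor.toFinset, ?_⟩⟩
  rw [eq_top_iff]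
  rintro x -
  obtain ⟨n, hn⟩ := hu x
  have h2 : x = (x - ∑ i, n i • u i) + ∑ i, n i • u i := by abel
  rw [h2]
  refine Submodule.add_mem _ ?_ (Submodule.sum_mem _ fun i _ => Submodule.smul_mem _ _ ?_)
  · apply Submodule.subset_span
    simp only [Finset.coe_union, Set.mem_union, Set.Finite.coe_toFinset, Set.mem_ofPred_eq]
    exact Or.inr hn
  · apply Submodule.subset_span
    simp

end SUnit


end
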