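import Mathlib
import Pool.Agent.PTDM.C01
import Pool.Agent.PTDM.C21
import Pool.Agent.PTDM.C25

/-! Parts: PT.F2B, PT.F3R, PT.F3U, PT.F7U, PT.GZERO, PT.HERBQ, PT.SLC, PT.SPP, PT.STAR, PTE.DSUM, PTE.FINAS, PTE.GZEROG, PT3.DADD, PT3.FCLU, PT3.FCS0, PT3.FDKT, PT3.TAMG -/

section

/-!
# F2B
-/

namespace Pool.Agent.PT.F2B

open Pool.Agent.Lib_helper18 Pool.Agent.Lib_helper18.Eis Pool.Agent.Lib_helper84.Cub

theorem two_eq (a : ZMod 3) (h : a + a = a) : a = 0 := by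
  revert a
  decide

theorem neg_zero' (a : ZMod 3) (h : a + a = 0) : a = 0 := by
  revert a
  decide

theorem prop_zmod : ∀ vb cb vx cx : ZMod 3, vb * cx - vx * cb = 0 → ¬ (vx = 0 ∧ cx = 0) →
    ∃ j : ZMod 3, vb = j * vx ∧ cb = j * cx := by decide

theorem s_one {π : Eis} {s : Eis → Eis → ZMod 3} {e : ℕ} (h : LSym π s e) {c : Eis}
    (hc : c ≠ 0) : s 1 c = 0 := by
  have h1 := h.mul 1 1 c one_ne_zero one_ne_zero hc
  rw [mul_one] at h1
  exact two_eq _ h1.symm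

theorem s_neg {π : Eis} {s : Eis → Eis → ZMod 3} {e : ℕ} (h : LSym π s e) {a c : Eis}
    (ha : a ≠ 0) (hc : c ≠ 0) : s (-a) c = s a c := by
  have h0 : (-1 : Eis) ≠ 0 := neg_ne_zero.2 one_ne_zero
  have h1 := h.mul (-1) (-1) c h0 h0 hc
  rw [neg_mul_neg, mul_one, s_one h hc] at h1
  have h2 := neg_zero' _ h1.symm
  have h3 := h.mul (-1) a c h0 ha hc
  rw [neg_one_mul, h2, zero_add] at h3
  exact h3

/-- the value of `AS` is multiplied by `j` -/
theorem AS_smul {s : Eis → Eis → ZMod 3} {B x : Eis} {j : ZMod 3} {p q p' q' r : ℤ}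
    (h : ∀ y : Eis, y ≠ 0 → s B y = j * s x y) (h1 : Lf p q 1 r ≠ 0) (h2 : Lf p q 2 r ≠ 0)
    (h3 : Lf p' q' 1 r ≠ 0) (h4 : Lf p' q' 2 r ≠ 0) :
    AS s B p q p' q' r = j * AS s x p q p' q' r := by
  unfold AS
  rw [h _ h1, h _ h2, h _ h3, h _ h4]
  ring

theorem Gf_ne {b x p q p' q' : ℤ} (h : Sol b x p q p' q') :
    Gf p q p' q' 1 ≠ 0 ∧ Gf p q p' q' 2 ≠ 0 := by
  have key : ¬ (q * p' = 0 ∧ p * q' = 0) := by
    rintro ⟨h1, h2⟩
    apply h.n2
    have h3 := h.n1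
    have h4 := h.eq
    have h5 : p' ^ 3 + b * q' ^ 3 ≠ 0 := by
      intro h0
      rw [h0, mul_zero] at h4
      exact h3 h4
    rcases mul_eq_zero.1 h1 with h6 | h6
    · rcases mul_eq_zero.1 h2 with h7 | h7
      · exact absurd (by rw [h6, h7]; ring) h3
      · rw [h6, h7] at h4
        linarith
    · rcases mul_eq_zero.1 h2 with h7 | h7
      · rw [h6, h7]
        ring
      · exact absurd (by rw [h6, h7]; ring) h5
  constructor
  · intro h0
    apply key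
    have hre := congrArg Eis.re h0
    have him := congrArg Eis.im h0
    simp only [Gf, pow_one, sub_re, sub_im, mul_re, mul_im, intCast_re, intCast_im, w_re, w_im,
      zero_re, zero_im] at hre him
    constructor <;> linarith
  · intro h0
    apply key
    have hre := congrArg Eis.re h0
    have him := congrArg Eis.im h0
    simp only [Gf, pow_two, sub_re, sub_im, mul_re, mul_im, intCast_re, intCast_im, w_re, w_im,
      zero_re, zero_im] at hre him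
    constructor <;> linarith

theorem Lf_ne {p q r b : ℤ} (hb : ¬ (3 : ℤ) ∣ b) (h : p ^ 3 + b * q ^ 3 ≠ 0)
    (hr : lam ∣ (r : Eis) ^ 3 - (b : Eis)) : Lf p q 1 r ≠ 0 ∧ Lf p q 2 r ≠ 0 := by
  have key : ¬ (p = 0 ∧ q * r = 0) := by
    rintro ⟨h1, h2⟩
    rcases mul_eq_zero.1 h2 with h3 | h3
    · exact h (by rw [h1, h3]; ring)
    · rw [h3] at hr
      have h4 : lam ∣ (b : Eis) := by
        have h5 : (b : Eis) = -(((0 : ℤ) : Eis) ^ 3 - (b : Eis)) := by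
          ext <;> simp [pow_succ]
        rw [h5]
        exact hr.neg_right
      rw [lam_dvd_iff] at h4
      simp only [intCast_re, intCast_im, add_zero] at h4
      exact hb h4
  constructor
  · intro h0
    apply key
    have hre := congrArg Eis.re h0
    have him := congrArg Eis.im h0
    simp only [Lf, pow_one, add_re, add_im, mul_re, mul_im, intCast_re, intCast_im, w_re, w_im,
      zero_re, zero_im] at hre him
    constructor <;> linarith
  · intro h0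
    apply key
    have hre := congrArg Eis.re h0
    have him := congrArg Eis.im h0
    simp only [Lf, pow_two, add_re, add_im, mul_re, mul_im, intCast_re, intCast_im, w_re, w_im,
      zero_re, zero_im] at hre him
    constructor <;> linarith

/-- units modulo `9` -/
theorem units_nine {B x : ℤ} (hB : ¬ (3 : ℤ) ∣ B) (hx : ¬ (3 : ℤ) ∣ x) (h9 : ¬ C9 x) :
    ∃ (ε : ℤ) (j : ℕ), (ε = 1 ∨ ε = -1) ∧ (9 : ℤ) ∣ B - ε * x ^ j := by
  have hx' : x % 9 = 2 ∨ x % 9 = 4 ∨ x % 9 = 5 ∨ x % 9 = 7 := by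
    unfold C9 at h9
    omega
  have hB' : B % 9 = 1 ∨ B % 9 = 2 ∨ B % 9 = 4 ∨ B % 9 = 5 ∨ B % 9 = 7 ∨ B % 9 = 8 := by omega
  have hsq : x * x % 9 = (x % 9) * (x % 9) % 9 := Int.mul_emod x x 9
  have h0 : x ^ 0 = 1 := pow_zero x
  have h1 : x ^ 1 = x := pow_one x
  have h2 : x ^ 2 = x * x := pow_two x
  rcases hx' with hx' | hx' | hx' | hx' <;> rw [hx'] at hsq <;>
    rcases hB' with hB' | hB' | hB' | hB' | hB' | hB' <;>
    first
      | exact ⟨1, 0, Or.inl rfl, by rw [h0]; omega⟩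
      | exact ⟨-1, 0, Or.inr rfl, by rw [h0]; omega⟩
      | exact ⟨1, 1, Or.inl rfl, by rw [h1]; omega⟩
      | exact ⟨-1, 1, Or.inr rfl, by rw [h1]; omega⟩
      | exact ⟨1, 2, Or.inl rfl, by rw [h2]; omega⟩
      | exact ⟨-1, 2, Or.inr rfl, by rw [h2]; omega⟩

theorem s_pow {π : Eis} {s : Eis → Eis → ZMod 3} {e : ℕ} (h : LSym π s e) {a c : Eis}
    (ha : a ≠ 0) (hc : c ≠ 0) (j : ℕ) : s (a ^ j) c = (j : ZMod 3) * s a c := by
  induction j with
  | zero => rw [pow_zero, s_one h hc, Nat.cast_zero, zero_mul]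
  | succ j ih =>
    rw [pow_succ, h.mul _ _ _ (pow_ne_zero j ha) ha hc, ih]
    push_cast
    ring

/-- the functional of `B` is a multiple of the one of `x` at `lam` -/
theorem sl_smul (hSLC : SLC) {B x : ℤ} (hB : ¬ (3 : ℤ) ∣ B) (hx : ¬ (3 : ℤ) ∣ x) (h9 : ¬ C9 x) :
    ∃ j : ZMod 3, ∀ y : Eis, y ≠ 0 → sl (B : Eis) y = j * sl (x : Eis) y := by
  obtain ⟨ε, j, hε, h⟩ := units_nine hB hx h9
  have hx0 : (x : Eis) ≠ 0 := by
    intro h0
    have h1 := congrArg Eis.re h0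
    simp only [intCast_re, zero_re] at h1
    exact hx (by rw [h1]; exact dvd_zero 3)
  have hε0 : (ε : Eis) ≠ 0 := by
    intro h0
    have h1 := congrArg Eis.re h0
    simp only [intCast_re, zero_re] at h1
    omega
  have hlx : ¬ lam ∣ (x : Eis) := by
    rw [lam_dvd_iff]
    simp only [intCast_re, intCast_im, add_zero]
    exact hx
  have hlε : ¬ lam ∣ (ε : Eis) := by
    rw [lam_dvd_iff]
    simp only [intCast_re, intCast_im, add_zero]
    omega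
  refine ⟨(j : ZMod 3), fun y hy => ?_⟩
  have h1 : ¬ lam ∣ (ε : Eis) * (x : Eis) ^ j := by
    intro h2
    rcases prime_lam.dvd_or_dvd h2 with h3 | h3
    · exact hlε h3
    · exact hlx (prime_lam.dvd_of_dvd_pow h3)
  have h2 : lam ^ (V lam ((ε : Eis) * (x : Eis) ^ j) + 4) ∣ (B : Eis) - (ε : Eis) * (x : Eis) ^ j := by
    rw [V_eq_zero h1, zero_add]
    obtain ⟨k, hk⟩ := h
    have h3 : (B : Eis) - (ε : Eis) * (x : Eis) ^ j = ((9 * k : ℤ) : Eis) := by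
      rw [← hk]
      push_cast
      ring
    rw [h3]
    refine ⟨w * (k : Eis), ?_⟩
    have h4 : lam ^ 4 * w = ((9 : ℤ) : Eis) := by
      have h5 : lam ^ 4 * w = lam * lam * lam * lam * w := by ring
      rw [h5]
      rfl
    rw [← mul_assoc, h4, Int.cast_mul]
  rw [hSLC.cont _ _ y (mul_ne_zero hε0 (pow_ne_zero j hx0)) hy h2,
    hSLC.mul _ _ y hε0 (pow_ne_zero j hx0) hy, s_pow hSLC hx0 hy]
  have h3 : sl (ε : Eis) y = 0 := by
    rcases hε with rfl | rfl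
    · rw [Int.cast_one]
      exact s_one hSLC hy
    · rw [Int.cast_neg, Int.cast_one, s_neg hSLC one_ne_zero hy]
      exact s_one hSLC hy
  rw [h3, zero_add]

/-- the functional of `B` is a multiple of the one of `x` at a tame place -/
theorem tm_smul {π : Eis} {B x : Eis} (h : tm π x B = 0)
    (hx : ¬ (3 ∣ V π x ∧ ch π x = 0)) :
    ∃ j : ZMod 3, (∀ y : Eis, tm π B y = j * tm π x y) ∧ ∀ y : Eis, tm π y B = j * tm π y x := by
  have h1 : ¬ ((V π x : ZMod 3) = 0 ∧ ch π x = 0) := by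
    rintro ⟨h2, h3⟩
    exact hx ⟨(ZMod.natCast_eq_zero_iff _ _).1 h2, h3⟩
  obtain ⟨j, hj1, hj2⟩ := prop_zmod (V π B : ZMod 3) (ch π B) (V π x : ZMod 3) (ch π x) h h1
  refine ⟨j, fun y => ?_, fun y => ?_⟩
  · unfold tm
    rw [hj1, hj2]
    ring
  · unfold tm
    rw [hj1, hj2]
    ring

end Pool.Agent.PT.F2B

namespace Pool.Agent.PT

open Pool.Agent.Lib_helper18 Pool.Agent.Lib_helper18.Eis Pool.Agent.Lib_helper84.Cub

theorem F2B_thm (hSTM : STM) (hSPP : SPP) (hSLC : SLC) (hLCI : LCI) (hSCJ : SCJ) (hSREC : SREC)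
    (hSSL : SSL) (hIF2 : IF2) : F2B := by
  intro v B b x p q p' q' hB hb hx hsol hLb hLx
  rcases v with _ | π
  · have h9 : ¬ C9 x := fun h => hLx ((hLCI.2.1 x hx.three).2 h)
    obtain ⟨j, hj⟩ := F2B.sl_smul hSLC hB.three hx.three h9
    obtain ⟨N0, hN0⟩ := hIF2 lam sl 4 hSLC b x p q p' q' hb.ne hx.ne hsol
    refine ⟨N0 + 1, fun r hr => ?_⟩
    have hr1 : lam ^ N0 ∣ (r : Eis) ^ 3 - (b : Eis) := (pow_dvd_pow lam (Nat.le_succ N0)).trans hr
    have hr2 : lam ∣ (r : Eis) ^ 3 - (b : Eis) := (dvd_pow_self lam (Nat.succ_ne_zero N0)).trans hr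
    have hn : p' ^ 3 + b * q' ^ 3 ≠ 0 := by
      intro h0
      have h1 := hsol.eq
      rw [h0, mul_zero] at h1
      exact hsol.n1 h1
    obtain ⟨h1, h2⟩ := F2B.Lf_ne hb.three hsol.n1 hr2
    obtain ⟨h3, h4⟩ := F2B.Lf_ne hb.three hn hr2
    obtain ⟨h5, h6⟩ := F2B.Gf_ne hsol
    have hw : (w : Eis) ≠ 0 := by
      intro h0
      have h7 := congrArg Eis.im h0
      simp at h7
    have hB0 : (B : Eis) ≠ 0 := by
      intro h0
      have h7 := congrArg Eis.re h0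
      simp only [intCast_re, zero_re] at h7
      exact hB.ne h7
    have hx0 : (x : Eis) ≠ 0 := by
      intro h0
      have h7 := congrArg Eis.re h0
      simp only [intCast_re, zero_re] at h7
      exact hx.ne h7
    show AS sl (B : Eis) p q p' q' r =
      sl (B : Eis) (Gf p q p' q' 1) - sl (B : Eis) (Gf p q p' q' 2) + sl w (B : Eis)
    rw [F2B.AS_smul hj h1 h2 h3 h4, hN0 r hr1, hj _ h5, hj _ h6, hSLC.skew _ _ hB0 hw, hj _ hw,
      hSLC.skew _ _ hx0 hw]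
    ring
  · have hLSym : LSym π.1 (tm π.1) 1 := hSTM π.1 π.2.1 (hSPP.2.2.2.1 π).1
    have h1 : ¬ (3 ∣ V π.1 (x : Eis) ∧ ch π.1 (x : Eis) = 0) :=
      fun h => hLx ((hLCI.1 π x hx.ne).2 h)
    obtain ⟨j, hj, hj'⟩ := F2B.tm_smul (hx.sym π) h1
    obtain ⟨N0, hN0⟩ := hIF2 π.1 (tm π.1) 1 hLSym b x p q p' q' hb.ne hx.ne hsol
    refine ⟨N0, fun r hr => ?_⟩
    have h2 := hN0 r hr
    show AS (tm π.1) (B : Eis) p q p' q' r =
      tm π.1 (B : Eis) (Gf p q p' q' 1) - tm π.1 (B : Eis) (Gf p q p' q' 2) + tm π.1 w (B : Eis)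
    have h3 : AS (tm π.1) (B : Eis) p q p' q' r = j * AS (tm π.1) (x : Eis) p q p' q' r := by
      unfold AS
      rw [hj, hj, hj, hj]
      ring
    rw [h3, h2, hj, hj, hj']
    ring

end Pool.Agent.PT


end

section

/-!
# F3R: two noncubes at a place dividing `B`
-/

namespace Pool.Agent.PT

open Pool.Agent.Lib_helper18 Pool.Agent.Lib_helper18.Eis Pool.Agent.Lib_helper84.Cub

namespace F3R

theorem not_dvd_three (π : PP) : ¬ π.1 ∣ 3 := by
  intro h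
  obtain ⟨π, hp, h1, h2⟩ := π
  have h3 : lam ∣ π := ((dvd_three_iff hp).1 h).symm.dvd
  rw [lam_dvd_iff] at h3
  change π ∣ 3 at h
  omega

theorem pow_dvd_iff {l z : Eis} (hl : Prime l) (hz : z ≠ 0) (k : ℕ) : l ^ k ∣ z ↔ k ≤ V l z :=
  (fin hl hz).pow_dvd_iff_le_multiplicity

theorem taut {Pa Pb Pc Pd : Prop} (n : ¬ (Pa ∧ Pb ∧ Pc ∧ Pd)) (s1 : Pb → Pc → Pd → Pa)
    (s2 : Pa → Pc → Pd → Pb) (s3 : Pa → Pb → Pd → Pc) (s4 : Pa → Pb → Pc → Pd) (k1 : Pa ∨ Pb)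
    (k2 : Pa ∨ Pc) (k3 : Pa ∨ Pd) (k4 : Pb ∨ Pd) (k5 : Pc ∨ Pd) : Pa ∧ Pd ∧ ¬ Pb ∧ ¬ Pc := by
  have a1 : Pa := by
    by_contra h
    exact h (s1 (k1.resolve_left h) (k2.resolve_left h) (k3.resolve_left h))
  have d1 : Pd := by
    by_contra h
    exact h (s4 a1 (k4.resolve_right h) (k5.resolve_right h))
  exact ⟨a1, d1, fun hb => n ⟨a1, hb, s3 a1 hb d1, d1⟩, fun hc => n ⟨a1, s2 a1 hc d1, hc, d1⟩⟩

/-- Four terms with sum zero whose valuations are known modulo 3. -/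
theorem four {l : Eis} (hl : Prime l) {a b c d : Eis} {ra rb rc rd : ZMod 3}
    (h : a + b + c + d = 0) (ha : a ≠ 0 → (V l a : ZMod 3) = ra)
    (hb : b ≠ 0 → (V l b : ZMod 3) = rb) (hc : c ≠ 0 → (V l c : ZMod 3) = rc)
    (hd : d ≠ 0 → (V l d : ZMod 3) = rd) (h1 : ra ≠ rb) (h2 : ra ≠ rc) (h3 : ra ≠ rd)
    (h4 : rb ≠ rd) (h5 : rc ≠ rd) (h0 : ¬ (a = 0 ∧ b = 0 ∧ c = 0 ∧ d = 0)) :
    b ≠ 0 ∧ c ≠ 0 ∧ V l b = V l c ∧ l ^ (V l b + 1) ∣ a ∧ l ^ (V l b + 1) ∣ d := by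
  classical
  have hex : ∃ k : ℕ, ¬ (l ^ (k + 1) ∣ a ∧ l ^ (k + 1) ∣ b ∧ l ^ (k + 1) ∣ c ∧
      l ^ (k + 1) ∣ d) := by
    by_contra hno
    push Not at hno
    have key : ∀ z : Eis, (∀ k : ℕ, l ^ (k + 1) ∣ z) → z = 0 := by
      intro z hz
      by_contra hz0
      have := (pow_dvd_iff hl hz0 _).1 (hz (V l z))
      omega
    exact h0 ⟨key a fun k => (hno k).1, key b fun k => (hno k).2.1,
      key c fun k => (hno k).2.2.1, key d fun k => (hno k).2.2.2⟩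
  obtain ⟨k, hk, hmin⟩ : ∃ k : ℕ, ¬ (l ^ (k + 1) ∣ a ∧ l ^ (k + 1) ∣ b ∧ l ^ (k + 1) ∣ c ∧
      l ^ (k + 1) ∣ d) ∧ (l ^ k ∣ a ∧ l ^ k ∣ b ∧ l ^ k ∣ c ∧ l ^ k ∣ d) := by
    refine ⟨Nat.find hex, Nat.find_spec hex, ?_⟩
    rcases Nat.eq_zero_or_pos (Nat.find hex) with h6 | h6
    · rw [h6, pow_zero]
      exact ⟨one_dvd _, one_dvd _, one_dvd _, one_dvd _⟩
    · have h7 := Nat.find_min hex (m := Nat.find hex - 1) (by omega)
      rw [not_not, Nat.sub_add_cancel h6] at h7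
      exact h7
  have res : ∀ z : Eis, l ^ k ∣ z → ¬ l ^ (k + 1) ∣ z → z ≠ 0 ∧ V l z = k := by
    intro z hz hz'
    have hz0 : z ≠ 0 := by
      rintro rfl
      exact hz' (dvd_zero _)
    rw [pow_dvd_iff hl hz0] at hz hz'
    exact ⟨hz0, by omega⟩
  obtain ⟨ka, kb, kc, kd⟩ := hmin
  have s1 : l ^ (k + 1) ∣ b → l ^ (k + 1) ∣ c → l ^ (k + 1) ∣ d → l ^ (k + 1) ∣ a := by
    intro p1 p2 p3
    have e : a = -(b + c + d) := by linear_combination h
    rw [e]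
    exact ((p1.add p2).add p3).neg_right
  have s2 : l ^ (k + 1) ∣ a → l ^ (k + 1) ∣ c → l ^ (k + 1) ∣ d → l ^ (k + 1) ∣ b := by
    intro p1 p2 p3
    have e : b = -(a + c + d) := by linear_combination h
    rw [e]
    exact ((p1.add p2).add p3).neg_right
  have s3 : l ^ (k + 1) ∣ a → l ^ (k + 1) ∣ b → l ^ (k + 1) ∣ d → l ^ (k + 1) ∣ c := by
    intro p1 p2 p3
    have e : c = -(a + b + d) := by linear_combination h
    rw [e]
    exact ((p1.add p2).add p3).neg_right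
  have s4 : l ^ (k + 1) ∣ a → l ^ (k + 1) ∣ b → l ^ (k + 1) ∣ c → l ^ (k + 1) ∣ d := by
    intro p1 p2 p3
    have e : d = -(a + b + c) := by linear_combination h
    rw [e]
    exact ((p1.add p2).add p3).neg_right
  have kk : ∀ {y z : Eis} {ry rz : ZMod 3}, (y ≠ 0 → (V l y : ZMod 3) = ry) →
      (z ≠ 0 → (V l z : ZMod 3) = rz) → ry ≠ rz → l ^ k ∣ y → l ^ k ∣ z →
      l ^ (k + 1) ∣ y ∨ l ^ (k + 1) ∣ z := by
    intro y z ry rz hy hz hyz ky kz
    by_contra hno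
    rw [not_or] at hno
    obtain ⟨y0, vy⟩ := res y ky hno.1
    obtain ⟨z0, vz⟩ := res z kz hno.2
    apply hyz
    rw [← hy y0, ← hz z0, vy, vz]
  have k1 := kk ha hb h1 ka kb
  have k2 := kk ha hc h2 ka kc
  have k3 := kk ha hd h3 ka kd
  have k4 := kk hb hd h4 kb kd
  have k5 := kk hc hd h5 kc kd
  obtain ⟨f1, f2, f3, f4⟩ := taut hk s1 s2 s3 s4 k1 k2 k3 k4 k5
  obtain ⟨b0, vb⟩ := res b kb f3
  obtain ⟨c0, vc⟩ := res c kc f4
  exact ⟨b0, c0, by rw [vb, vc], by rw [vb]; exact f1, by rw [vb]; exact f2⟩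

theorem ne_zero_cast {z : ℤ} (h : z ≠ 0) : (z : Eis) ≠ 0 := by
  intro h1
  apply h
  have h2 := congrArg Eis.re h1
  simpa using h2

/-- From the valuations of the four terms. -/
theorem cmp {l : Eis} (hl : Prime l) {A a b c d y z : Eis} (hA : A ≠ 0) (hb : b ≠ 0) (hc : c ≠ 0)
    (hV : V l b = V l c) (ha : l ^ (V l b + 1) ∣ a) (hd : l ^ (V l b + 1) ∣ d)
    (e1 : b * c = A * y ^ 3) (e2 : a * d = A * z ^ 3) : y ≠ 0 ∧ l ^ (V l y + 1) ∣ z := by
  have hy : y ≠ 0 := by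
    rintro rfl
    have : b * c = 0 := by rw [e1]; ring
    exact (mul_ne_zero hb hc) this
  refine ⟨hy, ?_⟩
  by_cases hz : z = 0
  · rw [hz]
    exact dvd_zero _
  · rw [pow_dvd_iff hl hz]
    have h1 : V l (b * c) = V l A + 3 * V l y := by
      rw [e1, V_mul hl hA (pow_ne_zero _ hy), V_pow hl hy]
    rw [V_mul hl hb hc] at h1
    have h2 : V l (A * z ^ 3) = V l A + 3 * V l z := by
      rw [V_mul hl hA (pow_ne_zero _ hz), V_pow hl hz]
    have h3 : l ^ (V l b + 1 + (V l b + 1)) ∣ A * z ^ 3 := by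
      rw [← e2, pow_add]
      exact mul_dvd_mul ha hd
    rw [pow_dvd_iff hl (mul_ne_zero hA (pow_ne_zero _ hz)), h2] at h3
    omega

theorem three_dvd_iff' (n : ℕ) : 3 ∣ n ↔ (n : ZMod 3) = 0 := (ZMod.natCast_eq_zero_iff n 3).symm

theorem ite3 (n : ℕ) (u : ZMod 3) [Decidable (3 ∣ n)] :
    (if 3 ∣ n then u else 0) = if (n : ZMod 3) = 0 then u else 0 :=
  if_congr (three_dvd_iff' n) rfl rfl

theorem fin1 : ∀ v β o : ZMod 3, v ≠ 0 → β ≠ 0 →
    (v + β + β) * o = (if β + v = 0 then -(β * o) else 0) + (if β + v = 0 then -(β * o) else 0) := by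
  decide

theorem fin2 : ∀ v β ξ o : ZMod 3, v ≠ 0 → β ≠ 0 → ξ ≠ 0 → β ≠ ξ →
    v * o + (v + ξ + β) * o =
      (if β + v = 0 then -(ξ * o) else 0) + (if ξ + v = 0 then -(β * o) else 0) := by
  decide

end F3R

open _root_.Pool.Agent.PT.F3R in
theorem F3R_thm (hSTM : STM) : F3R := by
  intro π B b x p q p' q' hB hb hx hs hdvd hVb hVx
  have hπ : Prime π.1 := π.2.1
  have h3 := not_dvd_three π
  have S := hSTM π.1 hπ h3
  have B0 : (B : Eis) ≠ 0 := ne_zero_cast hB.ne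
  have b0 : (b : Eis) ≠ 0 := ne_zero_cast hb.ne
  have x0 : (x : Eis) ≠ 0 := ne_zero_cast hx.ne
  have w0 : w ≠ 0 := isUnit_w.ne_zero
  have Vw : V π.1 w = 0 := V_eq_zero (not_dvd_of_isUnit hπ isUnit_w)
  have tw : ∀ y : Eis, tm π.1 w y = (V π.1 y : ZMod 3) * ch π.1 w := by
    intro y
    unfold tm
    rw [Vw]
    push_cast
    ring
  have hv : (V π.1 (B : Eis) : ZMod 3) ≠ 0 := by
    rw [Ne, ← three_dvd_iff']
    have h1 : V π.1 (B : Eis) ≠ 0 := fun h => V_eq_zero_iff.1 h hdvd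
    have h2 := hB.cf π
    omega
  have hβ : (V π.1 (b : Eis) : ZMod 3) ≠ 0 := by rwa [Ne, ← three_dvd_iff']
  have hξ : (V π.1 (x : Eis) : ZMod 3) ≠ 0 := by rwa [Ne, ← three_dvd_iff']
  have skw : ∀ a c : Eis, tm π.1 a c = - tm π.1 c a := by
    intro a c
    unfold tm
    ring
  have e3 : ∀ n : ℕ, ((3 * n : ℕ) : ZMod 3) = 0 := fun n => (three_dvd_iff' _).1 ⟨n, rfl⟩
  -- the valuations of the four terms
  have c1 : (p : Eis) ^ 3 ≠ 0 → (V π.1 ((p : Eis) ^ 3) : ZMod 3) = 0 := by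
    intro h
    have h1 : (p : Eis) ≠ 0 := fun h' => h (by rw [h']; ring)
    rw [V_pow hπ h1, e3]
  have c2 : (b : Eis) * (q : Eis) ^ 3 ≠ 0 →
      (V π.1 ((b : Eis) * (q : Eis) ^ 3) : ZMod 3) = V π.1 (b : Eis) := by
    intro h
    have h1 : (q : Eis) ≠ 0 := fun h' => h (by rw [h']; ring)
    rw [V_mul hπ b0 (pow_ne_zero _ h1), V_pow hπ h1, Nat.cast_add, e3, add_zero]
  have c3 : -((x : Eis) * (p' : Eis) ^ 3) ≠ 0 →
      (V π.1 (-((x : Eis) * (p' : Eis) ^ 3)) : ZMod 3) = V π.1 (x : Eis) := by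
    intro h
    have h1 : (p' : Eis) ≠ 0 := fun h' => h (by rw [h']; ring)
    rw [V_neg, V_mul hπ x0 (pow_ne_zero _ h1), V_pow hπ h1, Nat.cast_add, e3, add_zero]
  have c4 : -((x : Eis) * (b : Eis) * (q' : Eis) ^ 3) ≠ 0 →
      (V π.1 (-((x : Eis) * (b : Eis) * (q' : Eis) ^ 3)) : ZMod 3) =
        V π.1 (x : Eis) + V π.1 (b : Eis) := by
    intro h
    have h1 : (q' : Eis) ≠ 0 := fun h' => h (by rw [h']; ring)
    rw [V_neg, V_mul hπ (mul_ne_zero x0 b0) (pow_ne_zero _ h1), V_mul hπ x0 b0, V_pow hπ h1,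
      Nat.cast_add, e3, add_zero, Nat.cast_add]
  have heq : (p : Eis) ^ 3 + (b : Eis) * (q : Eis) ^ 3 =
      (x : Eis) * ((p' : Eis) ^ 3 + (b : Eis) * (q' : Eis) ^ 3) := by
    exact_mod_cast congrArg (Int.cast : ℤ → Eis) hs.eq
  have hn1 : (p : Eis) ^ 3 + (b : Eis) * (q : Eis) ^ 3 ≠ 0 := by
    have := ne_zero_cast hs.n1
    push_cast at this
    exact this
  have hG : ∀ i, Gf p q p' q' i = (q : Eis) * p' - w ^ i * p * q' := fun i => rfl
  have hBxb : ((B * x * b : ℤ) : Eis) = (B : Eis) * x * b := by push_cast; ring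
  have hsum : tm π.1 w ((B * x * b : ℤ) : Eis) = ((V π.1 (B : Eis) : ZMod 3) +
      V π.1 (x : Eis) + V π.1 (b : Eis)) * ch π.1 w := by
    rw [tw, hBxb, V_mul hπ (mul_ne_zero B0 x0) b0, V_mul hπ B0 x0]
    push_cast
    ring
  unfold UV
  rw [hsum, tw, tw, ite3, ite3, Nat.cast_add, Nat.cast_add]
  by_cases hj : (V π.1 (b : Eis) : ZMod 3) = V π.1 (x : Eis)
  · obtain ⟨f1, f2, f3, f4, f5⟩ := four hπ (a := (p : Eis) ^ 3) (b := (b : Eis) * (q : Eis) ^ 3)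
      (c := -((x : Eis) * (p' : Eis) ^ 3)) (d := -((x : Eis) * (b : Eis) * (q' : Eis) ^ 3))
      (by linear_combination heq) c1 c2 c3 c4 hβ.symm hξ.symm
      (by
        rw [← hj]
        intro h
        apply hβ
        linear_combination h + (V π.1 (b : Eis) : ZMod 3) * three_zmod)
      (by
        intro h
        apply hξ
        linear_combination -h)
      (by
        intro h
        apply hβ
        linear_combination -h)
      (fun h => hn1 (by rw [h.1, h.2.1, add_zero]))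
    obtain ⟨g1, g2⟩ := cmp hπ (A := -((x : Eis) * b)) (y := (q : Eis) * p') (z := (p : Eis) * q')
      (neg_ne_zero.2 (mul_ne_zero x0 b0)) f1 f2 f3 f4 f5 (by ring) (by ring)
    have hc : ∀ i, tm π.1 (B : Eis) (Gf p q p' q' i) = tm π.1 (B : Eis) ((q : Eis) * p') := by
      intro i
      rw [skw, skw (B : Eis), S.cont ((q : Eis) * p') (Gf p q p' q' i) (B : Eis) g1 B0]
      have e : Gf p q p' q' i - (q : Eis) * p' = (p : Eis) * q' * (-w ^ i) := by
        rw [hG]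
        ring
      rw [e]
      exact Dvd.dvd.mul_right g2 _
    rw [hc, hc, sub_self, zero_add, ← hj]
    exact fin1 _ _ _ hv hβ
  · obtain ⟨f1, f2, f3, f4, f5⟩ := four hπ (a := (b : Eis) * (q : Eis) ^ 3) (b := (p : Eis) ^ 3)
      (c := -((x : Eis) * (b : Eis) * (q' : Eis) ^ 3)) (d := -((x : Eis) * (p' : Eis) ^ 3))
      (by linear_combination heq) c2 c1 c4 c3 hβ
      (by
        intro h
        apply hξ
        linear_combination -h)
      hj hξ.symm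
      (by
        intro h
        apply hβ
        linear_combination h)
      (fun h => hn1 (by rw [h.1, h.2.1, add_zero]))
    obtain ⟨g1, g2⟩ := cmp hπ (A := -((x : Eis) * b)) (y := (p : Eis) * q') (z := (q : Eis) * p')
      (neg_ne_zero.2 (mul_ne_zero x0 b0)) f1 f2 f3 f4 f5 (by ring) (by ring)
    have hc : ∀ i, tm π.1 (B : Eis) (Gf p q p' q' i) =
        -(tm π.1 (w ^ i) (B : Eis) + tm π.1 (-((p : Eis) * q')) (B : Eis)) := by
      intro i
      have gn : -((p : Eis) * q') ≠ 0 := neg_ne_zero.2 g1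
      have wi : w ^ i ≠ 0 := pow_ne_zero _ w0
      have hVi : V π.1 (w ^ i * -((p : Eis) * q')) = V π.1 ((p : Eis) * q') := by
        rw [V_mul hπ wi gn, V_neg, V_eq_zero (not_dvd_of_isUnit hπ (isUnit_w.pow i)), zero_add]
      rw [skw, ← S.mul _ _ _ wi gn B0,
        S.cont (w ^ i * -((p : Eis) * q')) (Gf p q p' q' i) (B : Eis) (mul_ne_zero wi gn) B0]
      have e : Gf p q p' q' i - w ^ i * -((p : Eis) * q') = (q : Eis) * p' := by
        rw [hG]
        ring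
      rw [e, hVi]
      exact g2
    have hw2 : tm π.1 (w ^ 2) (B : Eis) = tm π.1 w (B : Eis) + tm π.1 w (B : Eis) := by
      rw [pow_two, S.mul _ _ _ w0 w0 B0]
    rw [hc, hc, hw2, pow_one, tw]
    have h6 := fin2 _ _ _ (ch π.1 w) hv hβ hξ hj
    rw [← h6]
    ring

end Pool.Agent.PT


end

section

/-!
# F3U: the case of two noncubes at a place not dividing `B`
-/

namespace Pool.Agent.PT

open Pool.Agent.Lib_helper18 Pool.Agent.Lib_helper18.Eis Pool.Agent.Lib_helper84.Cub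

namespace F3U

/-- `u ^ 3 + b v ^ 3` has no nontrivial zero modulo `l` when `b` is not a cube. -/
theorem noncube {l b : Eis} (hl : Prime l) (h3 : ¬ l ∣ 3) (hb : ¬ l ∣ b) (hs : sym l b ≠ 0)
    {u v : Eis} (h : l ∣ u ^ 3 + b * v ^ 3) : l ∣ u ∧ l ∣ v := by
  have hv : l ∣ v := by
    by_contra hv
    have hu : ¬ l ∣ u := by
      intro hu
      have h1 : l ∣ b * v ^ 3 := (dvd_add_right (dvd_pow hu (by norm_num))).1 h
      rcases hl.dvd_or_dvd h1 with h2 | h2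
      · exact hb h2
      · exact hv (hl.dvd_of_dvd_pow h2)
    apply hs
    have hv3 : ¬ l ∣ v ^ 3 := fun h' => hv (hl.dvd_of_dvd_pow h')
    have hu' : ¬ l ∣ -u := by rwa [dvd_neg]
    have e1 : sym l (b * v ^ 3) = sym l ((-u) ^ 3) := by
      apply sym_congr
      have e2 : b * v ^ 3 - (-u) ^ 3 = u ^ 3 + b * v ^ 3 := by ring
      rw [e2]
      exact h
    rw [sym_mul hl h3 hb hv3, sym_cube hl h3 hv, sym_cube hl h3 hu', add_zero] at e1
    exact e1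
  refine ⟨?_, hv⟩
  have h1 : l ∣ b * v ^ 3 := Dvd.dvd.mul_left (dvd_pow hv (by norm_num)) _
  exact hl.dvd_of_dvd_pow ((dvd_add_left h1).1 h)

/-- The key step: the case where not all four numbers are divisible by `l`. -/
theorem key {l b x : Eis} (hl : Prime l) (h3 : ¬ l ∣ 3) (hb : ¬ l ∣ b) (hs : sym l b ≠ 0)
    (hx : ¬ l ∣ x) (hxs : sym l x ≠ 0) {p q p' q' : Eis}
    (h : p ^ 3 + b * q ^ 3 = x * (p' ^ 3 + b * q' ^ 3))
    (hn : ¬ (l ∣ p ∧ l ∣ q ∧ l ∣ p' ∧ l ∣ q')) (i : ℕ) : ¬ l ∣ q * p' - w ^ i * p * q' := by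
  intro hG
  have hw3 : (w ^ i) ^ 3 = 1 := by
    rw [← pow_mul, mul_comm, pow_mul, w_cube, one_pow]
  have hG3 : l ∣ (q * p') ^ 3 - (p * q') ^ 3 := by
    have e1 : (q * p') ^ 3 - (p * q') ^ 3 = (q * p') ^ 3 - (w ^ i * p * q') ^ 3 := by
      have e2 : (w ^ i * p * q') ^ 3 = (w ^ i) ^ 3 * (p * q') ^ 3 := by ring
      rw [e2, hw3, one_mul]
    rw [e1]
    exact hG.trans (sub_dvd_pow_sub_pow _ _ 3)
  have h5 : l ∣ (x * p' ^ 3 - p ^ 3) * (p' ^ 3 + b * q' ^ 3) := by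
    have e1 : (x * p' ^ 3 - p ^ 3) * (p' ^ 3 + b * q' ^ 3) =
        b * ((q * p') ^ 3 - (p * q') ^ 3) := by
      linear_combination (-(p' ^ 3)) * h
    rw [e1]
    exact hG3.mul_left _
  rcases hl.dvd_or_dvd h5 with h6 | h6
  · have hx' : ¬ l ∣ -x := by rwa [dvd_neg]
    have hxs' : sym l (-x) ≠ 0 := by rwa [sym_neg hl h3 hx]
    have h7 : l ∣ p ^ 3 + (-x) * p' ^ 3 := by
      have e1 : p ^ 3 + (-x) * p' ^ 3 = -(x * p' ^ 3 - p ^ 3) := by ring
      rw [e1, dvd_neg]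
      exact h6
    obtain ⟨h8, h9⟩ := noncube hl h3 hx' hxs' h7
    have h10 : l ∣ b * (q ^ 3 + (-x) * q' ^ 3) := by
      have e1 : b * (q ^ 3 + (-x) * q' ^ 3) = x * p' ^ 3 - p ^ 3 := by
        linear_combination h
      rw [e1]
      exact h6
    obtain ⟨h11, h12⟩ := noncube hl h3 hx' hxs' ((hl.dvd_or_dvd h10).resolve_left hb)
    exact hn ⟨h8, h11, h9, h12⟩
  · obtain ⟨h8, h9⟩ := noncube hl h3 hb hs h6
    have h10 : l ∣ p ^ 3 + b * q ^ 3 := by
      rw [h]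
      exact h6.mul_left _
    obtain ⟨h11, h12⟩ := noncube hl h3 hb hs h10
    exact hn ⟨h11, h12, h8, h9⟩

/-- The maximal power which divides all four numbers. -/
theorem exists_max {l p q p' q' : Eis} (hl : Prime l) (h : ¬ (p = 0 ∧ q = 0)) :
    ∃ (m : ℕ) (P Q P' Q' : Eis), p = l ^ m * P ∧ q = l ^ m * Q ∧ p' = l ^ m * P' ∧
      q' = l ^ m * Q' ∧ ¬ (l ∣ P ∧ l ∣ Q ∧ l ∣ P' ∧ l ∣ Q') := by
  classical
  have hex : ∃ m : ℕ, ¬ (l ^ (m + 1) ∣ p ∧ l ^ (m + 1) ∣ q ∧ l ^ (m + 1) ∣ p' ∧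
      l ^ (m + 1) ∣ q') := by
    by_cases hp : p = 0
    · have hq : q ≠ 0 := fun hq => h ⟨hp, hq⟩
      exact ⟨V l q, fun h' => (fin hl hq).not_pow_dvd_of_multiplicity_lt (Nat.lt_succ_self _) h'.2.1⟩
    · exact ⟨V l p, fun h' => (fin hl hp).not_pow_dvd_of_multiplicity_lt (Nat.lt_succ_self _) h'.1⟩
  let m := Nat.find hex
  have hm := Nat.find_spec hex
  have hlow : l ^ m ∣ p ∧ l ^ m ∣ q ∧ l ^ m ∣ p' ∧ l ^ m ∣ q' := by
    rcases Nat.eq_zero_or_pos m with h0 | h0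
    · rw [h0, pow_zero]
      exact ⟨one_dvd _, one_dvd _, one_dvd _, one_dvd _⟩
    · have h1 := Nat.find_min hex (m := m - 1) (Nat.sub_lt h0 one_pos)
      have h2 : m - 1 + 1 = m := Nat.sub_add_cancel h0
      rw [not_not, h2] at h1
      exact h1
  obtain ⟨⟨P, hP⟩, ⟨Q, hQ⟩, ⟨P', hP'⟩, ⟨Q', hQ'⟩⟩ := hlow
  refine ⟨m, P, Q, P', Q', hP, hQ, hP', hQ', ?_⟩
  rintro ⟨⟨a, rfl⟩, ⟨b, rfl⟩, ⟨c, rfl⟩, ⟨d, rfl⟩⟩
  apply hm
  change l ^ (m + 1) ∣ p ∧ l ^ (m + 1) ∣ q ∧ l ^ (m + 1) ∣ p' ∧ l ^ (m + 1) ∣ q'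
  refine ⟨⟨a, ?_⟩, ⟨b, ?_⟩, ⟨c, ?_⟩, ⟨d, ?_⟩⟩
  · rw [hP, pow_succ, mul_assoc]
  · rw [hQ, pow_succ, mul_assoc]
  · rw [hP', pow_succ, mul_assoc]
  · rw [hQ', pow_succ, mul_assoc]

theorem ch_eq {l a : Eis} (h : ¬ l ∣ a) : ch l a = sym l a := by
  unfold ch up
  rw [V_eq_zero h, pow_zero]
  congr 1
  exact EuclideanDomain.div_one a

end F3U

theorem F3U_thm (hSTM : STM) : F3U := by
  intro π B b x p q p' q' hB hAb hAx hS hπB hcb hcx
  have hl : Prime π.1 := π.2.1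
  have h3 : ¬ π.1 ∣ 3 := by
    intro h
    have h1 := (dvd_three_iff hl).1 h
    have h2 : lam ∣ π.1 := h1.symm.dvd
    rw [lam_dvd_iff] at h2
    have h4 := π.2.2.1
    have h5 := π.2.2.2
    omega
  have hb : ¬ π.1 ∣ (b : Eis) := hAb.unr π hπB
  have hx : ¬ π.1 ∣ (x : Eis) := hAx.unr π hπB
  rw [F3U.ch_eq hb] at hcb
  rw [F3U.ch_eq hx] at hcx
  have hw : ¬ π.1 ∣ w := not_dvd_of_isUnit hl isUnit_w
  -- the maximal power
  have hpq : ¬ ((p : Eis) = 0 ∧ (q : Eis) = 0) := by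
    rintro ⟨h1, h2⟩
    have h1' : p = 0 := by
      have h4 := congrArg Eis.re h1
      simpa using h4
    have h2' : q = 0 := by
      have h4 := congrArg Eis.re h2
      simpa using h4
    apply hS.n1
    rw [h1', h2']
    ring
  obtain ⟨m, P, Q, P', Q', eP, eQ, eP', eQ', hn⟩ :=
    F3U.exists_max (p' := (p' : Eis)) (q' := (q' : Eis)) hl hpq
  have heq : (p : Eis) ^ 3 + b * (q : Eis) ^ 3 = x * ((p' : Eis) ^ 3 + b * (q' : Eis) ^ 3) := by
    have h1 : ((p ^ 3 + b * q ^ 3 : ℤ) : Eis) = ((x * (p' ^ 3 + b * q' ^ 3) : ℤ) : Eis) := by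
      rw [hS.eq]
    push_cast at h1
    exact h1
  have heq2 : P ^ 3 + (b : Eis) * Q ^ 3 = (x : Eis) * (P' ^ 3 + b * Q' ^ 3) := by
    have h0 : (π.1 ^ m) ^ 3 ≠ 0 := pow_ne_zero _ (pow_ne_zero _ hl.ne_zero)
    apply mul_left_cancel₀ h0
    rw [eP, eQ, eP', eQ'] at heq
    linear_combination heq
  have hV : ∀ i, V π.1 (Gf p q p' q' i) = m + m := by
    intro i
    have e1 : Gf p q p' q' i = π.1 ^ (m + m) * (Q * P' - w ^ i * P * Q') := by
      unfold Gf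
      rw [eP, eQ, eP', eQ', pow_add]
      ring
    rw [e1]
    exact V_pow_mul hl _ (F3U.key hl h3 hb hcb hx hcx heq2 hn i)
  have hVB : V π.1 (B : Eis) = 0 := V_eq_zero hπB
  have hVw : V π.1 w = 0 := V_eq_zero hw
  have hVP : V π.1 ((B * x * b : ℤ) : Eis) = 0 := by
    apply V_eq_zero
    push_cast
    intro h
    rcases hl.dvd_or_dvd h with h1 | h1
    · rcases hl.dvd_or_dvd h1 with h2 | h2
      · exact hπB h2
      · exact hx h2
    · exact hb h1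
  unfold UV tm
  rw [hV 1, hV 2, hVB, hVw, hVP]
  simp

end Pool.Agent.PT


end

section

/-!
# PT_F7U: the local term of a point at a tame place where `x` has valuation divisible by `3` and is
not a cube.
-/

namespace Pool.Agent.PT

open Pool.Agent.Lib_helper18 Pool.Agent.Lib_helper18.Eis Pool.Agent.Lib_helper84.Cub

namespace F7U

theorem cast_ne {n : ℤ} (h : n ≠ 0) : (n : Eis) ≠ 0 := by
  intro h0
  apply h
  simpa using congrArg Eis.re h0

theorem pp_not_dvd_three (π : PP) : ¬ π.1 ∣ 3 := by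
  intro h
  have h1 := (dvd_three_iff π.2.1).1 h
  have h2 : lam ∣ π.1 := h1.symm.dvd
  rw [lam_dvd_iff] at h2
  have h3 := π.2.2.1
  have h4 := π.2.2.2
  omega

theorem ch_self {π : Eis} (hπ : Prime π) (h3 : ¬ π ∣ 3) : ch π π = 0 := by
  unfold ch up
  rw [V_self, pow_one, EuclideanDomain.div_self hπ.ne_zero, sym_one hπ h3]

theorem tm_self {π a : Eis} (hπ : Prime π) (h3 : ¬ π ∣ 3) : tm π a π = ch π a := by
  unfold tm
  rw [ch_self hπ h3, V_self]
  simp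

theorem ch_mul {π a b : Eis} (hπ : Prime π) (h3 : ¬ π ∣ 3) (S : LSym π (tm π) 1) (ha : a ≠ 0)
    (hb : b ≠ 0) : ch π (a * b) = ch π a + ch π b := by
  rw [← tm_self hπ h3, ← tm_self hπ h3, ← tm_self hπ h3]
  exact S.mul a b π ha hb hπ.ne_zero

theorem three0 : (3 : ZMod 3) = 0 := rfl

theorem ch_cube {π a : Eis} (hπ : Prime π) (h3 : ¬ π ∣ 3) (S : LSym π (tm π) 1) (ha : a ≠ 0) :
    ch π (a ^ 3) = 0 := by
  have e : a ^ 3 = a * a * a := by ring
  rw [e, ch_mul hπ h3 S (mul_ne_zero ha ha) ha, ch_mul hπ h3 S ha ha]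
  linear_combination (ch π a) * three0

theorem ch_neg {π a : Eis} (hπ : Prime π) (h3 : ¬ π ∣ 3) (S : LSym π (tm π) 1) (ha : a ≠ 0) :
    ch π (-a) = ch π a := by
  have e : -a = (-1) ^ 3 * a := by ring
  rw [e, ch_mul hπ h3 S (pow_ne_zero _ (by simp)) ha, ch_cube hπ h3 S (by simp), zero_add]

theorem ch_congr {π a a' : Eis} (hπ : Prime π) (h3 : ¬ π ∣ 3) (S : LSym π (tm π) 1) (ha : a ≠ 0)
    (h : π ^ (V π a + 1) ∣ a' - a) : ch π a' = ch π a := by
  rw [← tm_self hπ h3, ← tm_self hπ h3]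
  exact S.cont a a' π ha hπ.ne_zero h

theorem dvd_iff_le {π a : Eis} (hπ : Prime π) (ha : a ≠ 0) (n : ℕ) : π ^ n ∣ a ↔ n ≤ V π a :=
  (fin hπ ha).pow_dvd_iff_le_multiplicity

theorem ch_unit {π a : Eis} (h : ¬ π ∣ a) : ch π a = sym π a := by
  unfold ch up
  rw [V_eq_zero h, pow_zero, EuclideanDomain.div_one]

/-- `x0` not a cube mod `π` -/
theorem noncube {π x0 : Eis} (hπ : Prime π) (h3 : ¬ π ∣ 3) (hx : ¬ π ∣ x0) (hs : sym π x0 ≠ 0)
    (u v : Eis) (h : π ∣ u ^ 3 + x0 * v ^ 3) : π ∣ u ∧ π ∣ v := by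
  by_cases hv : π ∣ v
  · refine ⟨?_, hv⟩
    have h1 : π ∣ x0 * v ^ 3 := dvd_mul_of_dvd_right (dvd_pow hv (by norm_num)) _
    exact hπ.dvd_of_dvd_pow ((dvd_add_left h1).1 h)
  · exfalso
    have hv3 : ¬ π ∣ v ^ 3 := fun h => hv (hπ.dvd_of_dvd_pow h)
    have hxv : ¬ π ∣ x0 * v ^ 3 := fun h => (hπ.dvd_or_dvd h).elim hx hv3
    have hu : ¬ π ∣ u := by
      intro hu
      have h1 : π ∣ u ^ 3 := dvd_pow hu (by norm_num)
      exact hxv ((dvd_add_right h1).1 h)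
    have e : π ∣ (-u) ^ 3 - x0 * v ^ 3 := by
      have : (-u) ^ 3 - x0 * v ^ 3 = -(u ^ 3 + x0 * v ^ 3) := by ring
      rw [this]; exact (dvd_neg).2 h
    have h1 := sym_congr e
    rw [sym_cube hπ h3 (fun h => hu ((dvd_neg).1 h)), sym_mul hπ h3 hx hv3, sym_cube hπ h3 hv,
      add_zero] at h1
    exact hs h1.symm

theorem descent {π x0 : Eis} (hπ : Prime π)
    (hB : ∀ u v : Eis, π ∣ u ^ 3 + x0 * v ^ 3 → π ∣ u ∧ π ∣ v) :
    ∀ (j : ℕ) (A B : Eis), π ^ (3 * j + 1) ∣ A ^ 3 + x0 * B ^ 3 → π ^ (j + 1) ∣ A ∧ π ^ (j + 1) ∣ B := by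
  intro j
  induction j with
  | zero => intro A B h; simpa using hB A B (by simpa using h)
  | succ j ih =>
    intro A B h
    obtain ⟨⟨a, rfl⟩, ⟨b, rfl⟩⟩ := hB A B (dvd_trans (dvd_pow_self _ (by omega)) h)
    have e : (π * a) ^ 3 + x0 * (π * b) ^ 3 = π ^ 3 * (a ^ 3 + x0 * b ^ 3) := by ring
    have e2 : π ^ (3 * (j + 1) + 1) = π ^ 3 * π ^ (3 * j + 1) := by rw [← pow_add]; congr 1; ring
    rw [e, e2] at h
    obtain ⟨h1, h2⟩ := ih a b ((mul_dvd_mul_iff_left (pow_ne_zero _ hπ.ne_zero)).1 h)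
    rw [pow_succ' π (j + 1)]
    exact ⟨mul_dvd_mul_left _ h1, mul_dvd_mul_left _ h2⟩

/-- the structure of `x` -/
theorem split_x {π x : Eis} (hπ : Prime π) (h3 : ¬ π ∣ 3) (S : LSym π (tm π) 1) (hx : x ≠ 0)
    (hV : 3 ∣ V π x) (hc : ch π x ≠ 0) : ∃ (k : ℕ) (x0 : Eis), x = (π ^ k) ^ 3 * x0 ∧
      ∀ u v : Eis, π ∣ u ^ 3 + x0 * v ^ 3 → π ∣ u ∧ π ∣ v := by
  obtain ⟨c, hc1, hc2⟩ := V_split hπ hx
  obtain ⟨k, hk⟩ := hV
  refine ⟨k, c, ?_, ?_⟩
  · rw [← pow_mul, mul_comm k 3, ← hk]; exact hc1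
  · apply noncube hπ h3 hc2
    intro hs
    apply hc
    have hc0 : c ≠ 0 := by rintro rfl; exact hc2 (dvd_zero _)
    have hx' : x = (π ^ k) ^ 3 * c := by rw [← pow_mul, mul_comm k 3, ← hk]; exact hc1
    rw [hx', ch_mul hπ h3 S (pow_ne_zero _ (pow_ne_zero _ hπ.ne_zero)) hc0,
      ch_cube hπ h3 S (pow_ne_zero _ hπ.ne_zero), zero_add, ch_unit hc2, hs]

theorem V_form {π x : Eis} (hπ : Prime π) (h3 : ¬ π ∣ 3) (S : LSym π (tm π) 1) (hx : x ≠ 0)
    (hV : 3 ∣ V π x) (hc : ch π x ≠ 0) (A B : Eis) (hAB : ¬ (A = 0 ∧ B = 0)) :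
    A ^ 3 + x * B ^ 3 ≠ 0 ∧ 3 ∣ V π (A ^ 3 + x * B ^ 3) := by
  obtain ⟨k, x0, rfl, hB⟩ := split_x hπ h3 S hx hV hc
  have e : A ^ 3 + (π ^ k) ^ 3 * x0 * B ^ 3 = A ^ 3 + x0 * (π ^ k * B) ^ 3 := by ring
  rw [e]
  apply three_dvd_V hπ hB _ _ _ rfl
  rintro ⟨h1, h2⟩
  exact hAB ⟨h1, (mul_eq_zero.1 h2).resolve_left (pow_ne_zero _ hπ.ne_zero)⟩

theorem half {π : Eis} (hπ : Prime π) (h3 : ¬ π ∣ 3) (S : LSym π (tm π) 1) (x X Y P P' : Eis)
    (hx : x ≠ 0) (hV : 3 ∣ V π x) (hc : ch π x ≠ 0) (hX : X ≠ 0) (hY : Y ≠ 0)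
    (hN : P ^ 3 - x * P' ^ 3 ≠ 0) (hD1 : X * P' + w ^ 1 * P * Y ≠ 0)
    (hD2 : X * P' + w ^ 2 * P * Y ≠ 0) :
    tm π (X * P' + w ^ 1 * P * Y) (P ^ 3 - x * P' ^ 3) -
      tm π (X * P' + w ^ 2 * P * Y) (P ^ 3 - x * P' ^ 3) -
      tm π (X * P' + w ^ 1 * P * Y) (X ^ 3 + x * Y ^ 3) +
      tm π (X * P' + w ^ 2 * P * Y) (X ^ 3 + x * Y ^ 3) = 0 := by
  have hn := V_form hπ h3 S hx hV hc X Y (fun h => hX h.1)
  have hPP : ¬ (P = 0 ∧ -P' = 0) := by
    rintro ⟨rfl, h⟩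
    rw [neg_eq_zero] at h
    apply hN
    rw [h]; ring
  have hN1 := V_form hπ h3 S hx hV hc P (-P') hPP
  have eN : P ^ 3 + x * (-P') ^ 3 = P ^ 3 - x * P' ^ 3 := by ring
  rw [eN] at hN1
  have hz1 : (V π (P ^ 3 - x * P' ^ 3) : ZMod 3) = 0 := by
    rw [ZMod.natCast_eq_zero_iff]; exact hN1.2
  have hz2 : (V π (X ^ 3 + x * Y ^ 3) : ZMod 3) = 0 := by
    rw [ZMod.natCast_eq_zero_iff]; exact hn.2
  have key : V π (X * P' + w ^ 1 * P * Y) = V π (X * P' + w ^ 2 * P * Y) ∨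
      ch π (P ^ 3 - x * P' ^ 3) = ch π (X ^ 3 + x * Y ^ 3) := by
    by_contra hcon
    push Not at hcon
    obtain ⟨hne, hch⟩ := hcon
    -- the differences
    have hw1 : ¬ π ∣ w - w ^ 2 := fun h => h3 (h.trans ⟨w ^ 2 * (1 - w ^ 2), by decide⟩)
    have hw2 : ¬ π ∣ w - 1 := fun h => h3 (h.trans ⟨w ^ 2 - 1, by decide⟩)
    have hcop : ∀ (c z : Eis) (n : ℕ), ¬ π ∣ c → π ^ n ∣ c * z → π ^ n ∣ z := by
      intro c z n hc h
      exact (hπ.pow_dvd_of_dvd_mul_left n hc h)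
    have both : ∀ n : ℕ, π ^ n ∣ X * P' + w ^ 1 * P * Y → π ^ n ∣ X * P' + w ^ 2 * P * Y →
        π ^ n ∣ P * Y ∧ π ^ n ∣ X * P' := by
      intro n h1 h2
      constructor
      · apply hcop _ _ _ hw1
        have := dvd_sub h1 h2
        have e : X * P' + w ^ 1 * P * Y - (X * P' + w ^ 2 * P * Y) = (w - w ^ 2) * (P * Y) := by ring
        rwa [e] at this
      · apply hcop _ _ _ hw2
        have := dvd_sub (dvd_mul_of_dvd_right h1 w) h2
        have e : w * (X * P' + w ^ 1 * P * Y) - (X * P' + w ^ 2 * P * Y) = (w - 1) * (X * P') := by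
          ring
        rwa [e] at this
    obtain ⟨k, x0, hxe, hB⟩ := split_x hπ h3 S hx hV hc
    -- main claim
    have main : ∀ (c : Eis) (m : ℕ), c ^ 3 = 1 → π ^ m ∣ P * Y → π ^ m ∣ X * P' →
        ¬ (π ^ (m + 1) ∣ P * Y ∧ π ^ (m + 1) ∣ X * P') → π ^ (m + 1) ∣ X * P' + c * (P * Y) →
        False := by
      intro c m hc3 h1 h2 h4 h5
      have h6 : π ^ (3 * m + 1) ∣ (X * P') ^ 3 + (c * (P * Y)) ^ 3 := by
        obtain ⟨u, hu⟩ := h1
        obtain ⟨v, hv⟩ := h2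
        rw [hu, hv] at h5 ⊢
        obtain ⟨t, ht⟩ := h5
        refine ⟨t * (v ^ 2 - v * (c * u) + (c * u) ^ 2), ?_⟩
        have e : (π ^ m * v) ^ 3 + (c * (π ^ m * u)) ^ 3 =
          (π ^ m * v + c * (π ^ m * u)) * (π ^ m * π ^ m * (v ^ 2 - v * (c * u) + (c * u) ^ 2)) := by
          ring
        rw [e, ht]
        ring
      have h7 : π ^ (3 * m + 1) ∣ (-((X ^ 3 + x * Y ^ 3) * P' ^ 3)) - Y ^ 3 * (P ^ 3 - x * P' ^ 3) := by
        have e : (-((X ^ 3 + x * Y ^ 3) * P' ^ 3)) - Y ^ 3 * (P ^ 3 - x * P' ^ 3) =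
          -((X * P') ^ 3 + (c * (P * Y)) ^ 3) := by
          linear_combination (P ^ 3 * Y ^ 3) * hc3
        rw [e]; exact (dvd_neg).2 h6
      have h8 : ¬ π ^ (3 * m + 1) ∣ Y ^ 3 * (P ^ 3 - x * P' ^ 3) := by
        intro h8
        have e : Y ^ 3 * (P ^ 3 - x * P' ^ 3) = (P * Y) ^ 3 + x0 * (-(π ^ k * P' * Y)) ^ 3 := by
          rw [hxe]; ring
        rw [e] at h8
        obtain ⟨h9, -⟩ := descent hπ hB m _ _ h8
        apply h4
        refine ⟨h9, ?_⟩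
        exact (dvd_add_left (dvd_mul_of_dvd_right h9 c)).1 h5
      have hYN : Y ^ 3 * (P ^ 3 - x * P' ^ 3) ≠ 0 := mul_ne_zero (pow_ne_zero _ hY) hN
      have h9 : V π (Y ^ 3 * (P ^ 3 - x * P' ^ 3)) + 1 ≤ 3 * m + 1 := by
        by_contra hcon
        exact h8 ((dvd_iff_le hπ hYN _).2 (by omega))
      have h10 := ch_congr hπ h3 S hYN ((pow_dvd_pow _ h9).trans h7)
      have hP' : P' ≠ 0 := by
        rintro rfl
        apply h8
        have := (dvd_neg).2 h7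
        have e : -(-((X ^ 3 + x * Y ^ 3) * 0 ^ 3) - Y ^ 3 * (P ^ 3 - x * 0 ^ 3)) =
          Y ^ 3 * (P ^ 3 - x * 0 ^ 3) := by ring
        rwa [e] at this
      rw [ch_neg hπ h3 S (mul_ne_zero hn.1 (pow_ne_zero _ hP')),
        ch_mul hπ h3 S hn.1 (pow_ne_zero _ hP'), ch_cube hπ h3 S hP',
        ch_mul hπ h3 S (pow_ne_zero _ hY) hN, ch_cube hπ h3 S hY, add_zero, zero_add] at h10
      exact hch h10.symm
    rcases lt_or_gt_of_ne hne with h | h
    · obtain ⟨a1, a2⟩ := both (V π (X * P' + w ^ 1 * P * Y)) ((dvd_iff_le hπ hD1 _).2 le_rfl)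
        ((dvd_iff_le hπ hD2 _).2 h.le)
      refine main (w ^ 2) _ (by decide) a1 a2 ?_ ?_
      · rintro ⟨b1, b2⟩
        have := (dvd_add b2 (dvd_mul_of_dvd_right b1 (w ^ 1)))
        rw [← mul_assoc, dvd_iff_le hπ hD1] at this
        omega
      · rw [← mul_assoc, dvd_iff_le hπ hD2]
        omega
    · obtain ⟨a1, a2⟩ := both (V π (X * P' + w ^ 2 * P * Y)) ((dvd_iff_le hπ hD1 _).2 h.le)
        ((dvd_iff_le hπ hD2 _).2 le_rfl)
      refine main (w ^ 1) _ (by decide) a1 a2 ?_ ?_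
      · rintro ⟨b1, b2⟩
        have := (dvd_add b2 (dvd_mul_of_dvd_right b1 (w ^ 2)))
        rw [← mul_assoc, dvd_iff_le hπ hD2] at this
        omega
      · rw [← mul_assoc, dvd_iff_le hπ hD1]
        omega
  unfold tm
  rw [hz1, hz2]
  rcases key with h | h
  · rw [h]; ring
  · rw [h]; ring

/-- nonvanishing of the linear forms with integer coefficients -/
theorem lin_ne {X Y p p' : ℤ} (hX : X ≠ 0) (hY : Y ≠ 0) (h : ¬ (p = 0 ∧ p' = 0)) (i : ℕ)
    (hi : i = 1 ∨ i = 2) : (X : Eis) * p' + w ^ i * p * Y ≠ 0 := by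
  intro h0
  apply h
  have hre := congrArg Eis.re h0
  have him := congrArg Eis.im h0
  rcases hi with rfl | rfl
  · simp at hre him
    exact ⟨by tauto, by tauto⟩
  · simp [pow_two] at hre him
    rcases him with h1 | h1
    · subst h1
      simp at hre
      exact ⟨rfl, by tauto⟩
    · exact absurd h1 hY

end F7U

theorem F7U_thm (hSTM : STM) : F7U := by
  intro π b x p q p' q' X Y hb hx hs hX hY hV hc
  have h3 := F7U.pp_not_dvd_three π
  have hπ := π.2.1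
  have S := hSTM π.1 hπ h3
  have hxE : (x : Eis) ≠ 0 := F7U.cast_ne hx
  have hXE : (X : Eis) ≠ 0 := F7U.cast_ne hX
  have hYE : (Y : Eis) ≠ 0 := F7U.cast_ne hY
  have hN2 : x * q' ^ 3 - q ^ 3 ≠ 0 := by
    intro h
    apply hs.n2
    have e : p ^ 3 - x * p' ^ 3 = b * (x * q' ^ 3 - q ^ 3) := by linear_combination hs.eq
    rw [e, h, mul_zero]
  have hp : ¬ (p = 0 ∧ p' = 0) := by
    rintro ⟨rfl, rfl⟩; apply hs.n2; ring
  have hq : ¬ (q = 0 ∧ q' = 0) := by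
    rintro ⟨rfl, rfl⟩; apply hN2; ring
  have h1 := F7U.half hπ h3 S x X Y p p' hxE hV hc hXE hYE (by
    have := F7U.cast_ne hs.n2
    push_cast at this
    exact this) (F7U.lin_ne hX hY hp 1 (Or.inl rfl)) (F7U.lin_ne hX hY hp 2 (Or.inr rfl))
  have hqE : (q : Eis) ^ 3 - x * (q' : Eis) ^ 3 ≠ 0 := by
    intro h
    have h' := F7U.cast_ne hN2
    apply h'
    push_cast; linear_combination -h
  have h2 := F7U.half hπ h3 S x X Y q q' hxE hV hc hXE hYE hqE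
    (F7U.lin_ne hX hY hq 1 (Or.inl rfl)) (F7U.lin_ne hX hY hq 2 (Or.inr rfl))
  have hneg : ∀ D : Eis, tm π.1 D ((x * q' ^ 3 - q ^ 3 : ℤ) : Eis) =
      tm π.1 D ((q : Eis) ^ 3 - x * (q' : Eis) ^ 3) := by
    intro D
    have e : ((x * q' ^ 3 - q ^ 3 : ℤ) : Eis) = -((q : Eis) ^ 3 - x * (q' : Eis) ^ 3) := by
      push_cast; ring
    rw [e]
    unfold tm
    rw [V_neg, F7U.ch_neg hπ h3 S hqE]
  unfold SV Df
  rw [hneg, hneg]
  push_cast
  rw [h1, h2, sub_zero]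

end Pool.Agent.PT


end

section

/-!
# Prime twists of rank zero: existence of the governing field
-/

set_option autoImplicit false

open NumberField IsDedekindDomain Finset
open scoped nonZeroDivisors Pointwise

namespace Pool.Agent.PT

open Pool.Agent.Lib_helper18 Pool.Agent.Lib_helper18.Eis Pool.Agent.Lib_helper84.Cub

namespace GZERO

lemma gal_transfer {L : Type} [Field L] [CharZero L] (a : Algebra ℚ L)
    (h : @IsGalois ℚ _ L _ a) : IsGalois ℚ L := by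
  have e : a = DivisionRing.toRatAlgebra := Subsingleton.elim _ _
  subst e
  exact h

lemma fin_transfer {L : Type} [Field L] [CharZero L] (a : Algebra ℚ L)
    (h : @Module.Finite ℚ L _ _ a.toModule) : FiniteDimensional ℚ L := by
  have e : a = DivisionRing.toRatAlgebra := Subsingleton.elim _ _
  subst e
  exact h

lemma alg_transfer {L : Type} [Field L] [CharZero L] (a : Algebra ℚ L)
    (h : @Algebra.IsAlgebraic ℚ L _ _ a) : Algebra.IsAlgebraic ℚ L := by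
  have e : a = DivisionRing.toRatAlgebra := Subsingleton.elim _ _
  subst e
  exact h

/-- A finite set of algebraic numbers is contained in a Galois number field. -/
lemma exists_field (S : Set (AlgebraicClosure ℚ)) (hS : S.Finite) :
    ∃ (L : Type) (_ : Field L) (_ : NumberField L) (_ : IsGalois ℚ L)
      (ι : L →+* AlgebraicClosure ℚ), ∀ x ∈ S, ∃ y : L, ι y = x := by
  have : Finite S := hS
  have ha : Algebra.IsAlgebraic ℚ (AlgebraicClosure ℚ) :=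
    alg_transfer _ (AlgebraicClosure.isAlgebraic ℚ)
  have hc : IsAlgClosure ℚ (AlgebraicClosure ℚ) := ⟨inferInstance, inferInstance⟩
  have h0 : FiniteDimensional ℚ (IntermediateField.adjoin ℚ S) :=
    IntermediateField.finiteDimensional_adjoin fun x _ =>
      (Algebra.IsAlgebraic.isAlgebraic x).isIntegral
  have hn : Normal ℚ (AlgebraicClosure ℚ) := IsAlgClosure.normal ℚ _
  have h1 : FiniteDimensional ℚ (IntermediateField.normalClosure ℚ
      (IntermediateField.adjoin ℚ S) (AlgebraicClosure ℚ)) := inferInstance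
  have h4 := @normalClosure.normal ℚ (IntermediateField.adjoin ℚ S) (AlgebraicClosure ℚ)
    _ _ _ _ _ hn
  refine ⟨IntermediateField.normalClosure ℚ (IntermediateField.adjoin ℚ S)
    (AlgebraicClosure ℚ), inferInstance, @NumberField.mk _ _ inferInstance (fin_transfer _ h1),
    gal_transfer (IntermediateField.algebra' _)
      (@IsGalois.mk ℚ _ _ _ (IntermediateField.algebra' _) inferInstance h4),
    algebraMap (IntermediateField.normalClosure ℚ
      (IntermediateField.adjoin ℚ S) (AlgebraicClosure ℚ)) (AlgebraicClosure ℚ), ?_⟩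
  intro x hx
  have h3 : x ∈ IntermediateField.adjoin ℚ S := IntermediateField.subset_adjoin ℚ S hx
  exact ⟨⟨x, IntermediateField.le_normalClosure _ h3⟩, rfl⟩

lemma ne_of_prod {L : Type} [Field L] {ω : L} (hω : ω ^ 2 + ω + 1 = 0) {p q p' q' b : ℤ} {ρ : L}
    [CharZero L] (h1 : p ^ 3 + b * q ^ 3 ≠ 0) (h2 : p' ^ 3 + b * q' ^ 3 ≠ 0)
    (hρ : ρ ^ 3 = (b : L)) : aD ω p q p' q' ρ ≠ 0 ∧ aN ω p q p' q' ρ ≠ 0 := by
  have h3 : ω ^ 3 = 1 := by linear_combination (ω - 1) * hω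
  have key : aD ω p q p' q' ρ * aN ω p q p' q' ρ * ((p + q * ρ) * (p' + q' * ρ)) =
      ((p ^ 3 + b * q ^ 3 : ℤ) : L) * ((p' ^ 3 + b * q' ^ 3 : ℤ) : L) := by
    have e1 : ∀ u v : L, (u + v * ω ^ 2 * ρ) * (u + v * ω * ρ) * (u + v * ρ) =
        u ^ 3 + v ^ 3 * ρ ^ 3 := by
      intro u v
      linear_combination (u ^ 2 * v * ρ + u * v ^ 2 * ρ ^ 2 * ω) * hω + v ^ 3 * ρ ^ 3 * h3
    have e2 := e1 p q
    have e3 := e1 p' q'
    rw [hρ] at e2 e3
    unfold aD aN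
    push_cast
    linear_combination ((p' + q' * ω ^ 2 * ρ) * (p' + q' * ω * ρ) * (p' + q' * ρ)) * e2 +
      ((p : L) ^ 3 + q ^ 3 * b) * e3
  have hne : ((p ^ 3 + b * q ^ 3 : ℤ) : L) * ((p' ^ 3 + b * q' ^ 3 : ℤ) : L) ≠ 0 :=
    mul_ne_zero (Int.cast_ne_zero.2 h1) (Int.cast_ne_zero.2 h2)
  rw [← key] at hne
  exact ⟨left_ne_zero_of_mul (left_ne_zero_of_mul hne),
    right_ne_zero_of_mul (left_ne_zero_of_mul hne)⟩

lemma rel_of_prim {L : Type} [Field L] {ω : L} (h : IsPrimitiveRoot ω 3) :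
    ω ^ 2 + ω + 1 = 0 := by
  have h1 : ω ^ 3 = 1 := h.pow_eq_one
  have h2 : ω ≠ 1 := h.ne_one (by norm_num)
  have h3 : (ω - 1) * (ω ^ 2 + ω + 1) = 0 := by linear_combination h1
  exact (mul_eq_zero.1 h3).resolve_left (sub_ne_zero.2 h2)

lemma prim_pow {L : Type} [Field L] {ζ : L} {f : ℕ} (hf : 0 < f) (h9 : 9 ∣ f)
    (h : IsPrimitiveRoot ζ f) : IsPrimitiveRoot (ζ ^ (f / 3)) 3 :=
  h.pow hf (by omega)

end GZERO

open _root_.Pool.Agent.PT.GZERO in
/-- GZERO: existence of the governing field. -/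
theorem GZERO_thm : GZERO := by
  intro s b p q p' q' f hSys hf h9
  have : NeZero (f : AlgebraicClosure ℚ) := ⟨Nat.cast_ne_zero.2 hf.ne'⟩
  have : NeZero f := ⟨hf.ne'⟩
  obtain ⟨ζ, hζ⟩ := HasEnoughRootsOfUnity.exists_primitiveRoot (AlgebraicClosure ℚ) f
  have hω := rel_of_prim (prim_pow hf h9 hζ)
  have hN : ∀ j i, j ≠ i → p j i ^ 3 + b j * q j i ^ 3 ≠ 0 ∧
      p' j i ^ 3 + b j * q' j i ^ 3 ≠ 0 := by
    intro j i hji
    have h1 := hSys.sol j i hji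
    refine ⟨h1.n1, fun h2 => h1.n1 ?_⟩
    rw [h1.eq, h2, mul_zero]
  have hA : ∀ (j i : Fin s) (ρ : AlgebraicClosure ℚ), ∃ A : AlgebraicClosure ℚ, j ≠ i →
      ρ ^ 3 = (b j : AlgebraicClosure ℚ) →
      A ^ 3 * aD (ζ ^ (f / 3)) (p j i) (q j i) (p' j i) (q' j i) ρ =
        aN (ζ ^ (f / 3)) (p j i) (q j i) (p' j i) (q' j i) ρ := by
    intro j i ρ
    obtain ⟨A, hA⟩ := IsAlgClosed.exists_pow_nat_eq
      (aN (ζ ^ (f / 3)) (p j i) (q j i) (p' j i) (q' j i) ρ /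
        aD (ζ ^ (f / 3)) (p j i) (q j i) (p' j i) (q' j i) ρ) (n := 3) (by norm_num)
    refine ⟨A, fun hji hρ => ?_⟩
    rw [hA, div_mul_cancel₀]
    exact (ne_of_prod hω (hN j i hji).1 (hN j i hji).2 hρ).1
  choose A hA using hA
  have hθ : ∀ j : Fin s, ∃ θ : AlgebraicClosure ℚ, θ ^ 3 = (b j : AlgebraicClosure ℚ) :=
    fun j => IsAlgClosed.exists_pow_nat_eq _ (by norm_num)
  have hR : ∀ j : Fin s, {ρ : AlgebraicClosure ℚ | ρ ^ 3 = (b j : AlgebraicClosure ℚ)}.Finite := by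
    intro j
    classical
    refine (Polynomial.nthRoots 3 (b j : AlgebraicClosure ℚ)).toFinset.finite_toSet.subset ?_
    intro ρ hρ
    simp only [Finset.mem_coe, Multiset.mem_toFinset]
    exact (Polynomial.mem_nthRoots (by norm_num)).2 hρ
  obtain ⟨L, iF, iN, iG, ι, hι⟩ := exists_field
    (({ζ} ∪ ⋃ j : Fin s, {ρ | ρ ^ 3 = (b j : AlgebraicClosure ℚ)}) ∪
      ⋃ j : Fin s, ⋃ i : Fin s, A j i '' {ρ | ρ ^ 3 = (b j : AlgebraicClosure ℚ)})
    (((Set.finite_singleton ζ).union (Set.finite_iUnion hR)).union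
      (Set.finite_iUnion fun j => Set.finite_iUnion fun i => (hR j).image _))
  have hinj : Function.Injective ι := ι.injective
  obtain ⟨z, hz⟩ := hι ζ (Or.inl (Or.inl rfl))
  have hzp : IsPrimitiveRoot z f := by
    refine IsPrimitiveRoot.of_map_of_injective (f := ι) ?_ hinj
    rw [hz]
    exact hζ
  have hzω : ι (z ^ (f / 3)) = ζ ^ (f / 3) := by rw [map_pow, hz]
  have hrel := rel_of_prim (prim_pow hf h9 hzp)
  have hNmap : ∀ (u v u' v' : ℤ) (ρ : L), ι (aN (z ^ (f / 3)) u v u' v' ρ) =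
      aN (ζ ^ (f / 3)) u v u' v' (ι ρ) := by
    intro u v u' v' ρ
    unfold aN
    simp only [map_mul, map_add, map_pow, map_intCast, hz]
  have hDmap : ∀ (u v u' v' : ℤ) (ρ : L), ι (aD (z ^ (f / 3)) u v u' v' ρ) =
      aD (ζ ^ (f / 3)) u v u' v' (ι ρ) := by
    intro u v u' v' ρ
    unfold aD
    simp only [map_mul, map_add, map_pow, map_intCast, hz]
  refine ⟨L, iF, iN, z, z ^ (f / 3), iG, hzp, h9, rfl, hrel, ?_, ?_, ?_⟩
  · intro j
    obtain ⟨θ, hθ⟩ := hθ j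
    obtain ⟨y, hy⟩ := hι θ (Or.inl (Or.inr (Set.mem_iUnion.2 ⟨j, hθ⟩)))
    refine ⟨y, hinj ?_⟩
    rw [map_pow, hy, hθ, map_intCast]
  · intro j i hji ρ hρ
    have hρ' : (ι ρ) ^ 3 = (b j : AlgebraicClosure ℚ) := by rw [← map_pow, hρ, map_intCast]
    obtain ⟨y, hy⟩ := hι (A j i (ι ρ)) (Or.inr (Set.mem_iUnion.2 ⟨j, Set.mem_iUnion.2
      ⟨i, ⟨ι ρ, hρ', rfl⟩⟩⟩))
    refine ⟨y, hinj ?_⟩
    rw [map_mul, map_pow, hy, hDmap, hNmap]
    exact hA j i (ι ρ) hji hρ'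
  · intro j i hji ρ hρ
    exact ne_of_prod hrel (hN j i hji).1 (hN j i hji).2 hρ

end Pool.Agent.PT


end

section

/-!
# Module HERBQ: the Herbrand quotient argument relative to a free subgroup of invariants
-/

namespace Pool.Agent.PT

open Finset

namespace HERBQ

section group

variable {A G : Type} [CommGroup A] [Group G] [MulDistribMulAction G A]

/-- the subgroup generated by the `d i` -/
def Dg {e : ℕ} (d : Fin e → A) : Subgroup A where
  carrier := {x | ∃ n : Fin e → ℤ, x = ∏ i, d i ^ n i}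
  one_mem' := ⟨0, by simp⟩
  mul_mem' := by
    rintro _ _ ⟨n, rfl⟩ ⟨m, rfl⟩
    exact ⟨n + m, by simp [zpow_add, Finset.prod_mul_distrib]⟩
  inv_mem' := by
    rintro _ ⟨n, rfl⟩
    exact ⟨-n, by simp⟩

/-- the norm -/
def Nm (g : G) (p : ℕ) : A →* A where
  toFun x := ∏ i ∈ range p, g ^ i • x
  map_one' := by simp
  map_mul' x y := by simp [smul_mul', Finset.prod_mul_distrib]

theorem Nm_apply (g : G) (p : ℕ) (x : A) : Nm g p x = ∏ i ∈ range p, g ^ i • x := rfl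

theorem pow_smul_fixed {g : G} {x : A} (h : g • x = x) (i : ℕ) : g ^ i • x = x := by
  induction i with
  | zero => simp
  | succ i ih => rw [pow_succ, mul_smul, h, ih]

theorem Nm_fixed {g : G} {x : A} (p : ℕ) (h : g • x = x) : Nm g p x = x ^ p := by
  rw [Nm_apply, Finset.prod_congr rfl (fun i _ => pow_smul_fixed h i)]
  simp

theorem smul_Nm (g : G) (p : ℕ) (x : A) : g • Nm g p x = Nm g p (g • x) := by
  rw [Nm_apply, Nm_apply, Finset.smul_prod']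
  refine Finset.prod_congr rfl fun i _ => ?_
  rw [← mul_smul, ← mul_smul, ← pow_succ, ← pow_succ']

theorem Nm_smul {g : G} {p : ℕ} (hg : g ^ p = 1) (x : A) : Nm g p (g • x) = Nm g p x := by
  have h1 := Finset.prod_range_succ (fun i => g ^ i • x) p
  have h2 := Finset.prod_range_succ' (fun i => g ^ i • x) p
  rw [h1, hg, pow_zero, one_smul] at h2
  have h3 := mul_right_cancel h2
  rw [Nm_apply, Nm_apply, h3]
  refine Finset.prod_congr rfl fun i _ => ?_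
  rw [← mul_smul, ← pow_succ]

theorem pow_smul_mem {g : G} {E : Subgroup A} (hE : ∀ u ∈ E, g • u ∈ E) {x : A} (hx : x ∈ E)
    (i : ℕ) : g ^ i • x ∈ E := by
  induction i with
  | zero => simpa using hx
  | succ i ih => rw [pow_succ', mul_smul]; exact hE _ ih

theorem Nm_mem {g : G} {E : Subgroup A} (hE : ∀ u ∈ E, g • u ∈ E) {x : A} (hx : x ∈ E)
    (p : ℕ) : Nm g p x ∈ E := by
  rw [Nm_apply]
  exact Subgroup.prod_mem _ fun i _ => pow_smul_mem hE hx i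

theorem Dg_fixed {g : G} {e : ℕ} {d : Fin e → A} (hd : ∀ i, g • d i = d i) {x : A}
    (hx : x ∈ Dg d) : g • x = x := by
  obtain ⟨n, rfl⟩ := hx
  rw [Finset.smul_prod']
  refine Finset.prod_congr rfl fun i _ => ?_
  rw [smul_zpow', hd i]

theorem Dg_torsion {e : ℕ} {d : Fin e → A}
    (hi : ∀ n : Fin e → ℤ, ∏ i, d i ^ n i = 1 → n = 0) {x : A} (hx : x ∈ Dg d) {p : ℕ}
    (hp : p ≠ 0) (h : x ^ p = 1) : x = 1 := by
  obtain ⟨n, rfl⟩ := hx
  have h1 : ∏ i, d i ^ ((p : ℤ) * n i) = 1 := by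
    rw [← h, ← Finset.prod_pow]
    refine Finset.prod_congr rfl fun i _ => ?_
    rw [mul_comm, zpow_mul, zpow_natCast]
  have h2 := hi _ h1
  refine Finset.prod_eq_one fun i _ => ?_
  have h3 := congrFun h2 i
  simp only [Pi.zero_apply, mul_eq_zero, Nat.cast_eq_zero, hp, false_or] at h3
  rw [h3, zpow_zero]

/-- ranks -/
theorem rank_eq {e : ℕ} {d : Fin e → A}
    (hi : ∀ n : Fin e → ℤ, ∏ i, d i ^ n i = 1 → n = 0) {E : Subgroup A}
    (hfin : Module.Finite ℤ (Additive E)) (hd : ∀ i, d i ∈ E) :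
    Module.finrank ℤ (Additive E) =
      Module.finrank ℤ (Additive (E.map (QuotientGroup.mk' (Dg d)))) + e := by
  let f : Additive E →ₗ[ℤ] Additive (E.map (QuotientGroup.mk' (Dg d))) :=
    (MonoidHom.toAdditive ((QuotientGroup.mk' (Dg d)).subgroupMap E)).toIntLinearMap
  have hf : Function.Surjective f := by
    intro y
    obtain ⟨x, hx⟩ := (QuotientGroup.mk' (Dg d)).subgroupMap_surjective E (Additive.toMul y)
    exact ⟨Additive.ofMul x, hx⟩
  let φ : (Fin e → ℤ) →ₗ[ℤ] Additive E :=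
    Fintype.linearCombination ℤ (fun i => Additive.ofMul (⟨d i, hd i⟩ : E))
  have hφ : ∀ n : Fin e → ℤ, ((Additive.toMul (φ n) : E) : A) = ∏ i, d i ^ n i := by
    intro n
    simp only [φ, Fintype.linearCombination_apply, toMul_sum, toMul_zsmul, toMul_ofMul]
    rw [Subgroup.val_finsetProd]
    simp
  have hinj : Function.Injective φ := by
    rw [injective_iff_map_eq_zero]
    intro n hn
    apply hi
    rw [← hφ n, hn]
    rfl
  have hker : LinearMap.ker f = LinearMap.range φ := by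
    ext x
    rw [LinearMap.mem_ker, LinearMap.mem_range]
    have h1 : f x = 0 ↔ ((Additive.toMul x : E) : A) ∈ Dg d := by
      rw [← QuotientGroup.eq_one_iff]
      constructor
      · intro h
        have := congrArg (fun z => ((Additive.toMul z : E.map (QuotientGroup.mk' (Dg d))) : A ⧸ Dg d)) h
        exact this
      · intro h
        apply Additive.toMul.injective
        exact Subtype.ext h
    rw [h1]
    constructor
    · rintro ⟨n, hn⟩
      refine ⟨n, ?_⟩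
      apply Additive.toMul.injective
      apply Subtype.ext
      rw [hφ, hn]
    · rintro ⟨n, rfl⟩
      exact ⟨n, hφ n⟩
  have h1 := Submodule.finrank_quotient_add_finrank (LinearMap.ker f)
  rw [(LinearMap.quotKerEquivOfSurjective f hf).finrank_eq, hker,
    LinearMap.finrank_range_of_inj hinj, Module.finrank_fin_fun] at h1
  exact h1.symm

/-- the values of `ψ` on the subgroup generated by the `d i` -/
theorem psi_prod {κ : Type} {p : ℕ} {ψ : A → κ → ZMod p} {E' : Subgroup A}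
    (hψ : ∀ u ∈ E', ∀ v ∈ E', ψ (u * v) = ψ u + ψ v) {e : ℕ} {d : Fin e → A}
    (hd : ∀ i, d i ∈ E') (n : Fin e → ℤ) :
    ψ (∏ i, d i ^ n i) = ∑ i, (n i : ZMod p) • ψ (d i) := by
  let Ψ : E' →* Multiplicative (κ → ZMod p) :=
    MonoidHom.mk' (fun u => Multiplicative.ofAdd (ψ (u : A))) (fun u v => by
      rw [← ofAdd_add, ← hψ u u.2 v v.2]
      rfl)
  have h1 : Ψ (∏ i, (⟨d i, hd i⟩ : E') ^ n i) = ∏ i, Ψ ⟨d i, hd i⟩ ^ n i := by
    rw [map_prod]
    exact Finset.prod_congr rfl fun i _ => map_zpow Ψ _ _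
  have h2 : ((∏ i, (⟨d i, hd i⟩ : E') ^ n i : E') : A) = ∏ i, d i ^ n i := by
    rw [Subgroup.val_finsetProd]
    rfl
  have h3 : ψ (∏ i, d i ^ n i) = Multiplicative.toAdd (Ψ (∏ i, (⟨d i, hd i⟩ : E') ^ n i)) := by
    rw [← h2]
    rfl
  rw [h3, h1, toAdd_prod]
  refine Finset.sum_congr rfl fun i _ => ?_
  rw [toAdd_zpow]
  funext k
  simp [Ψ]

/-- elements with trivial symbols are norms -/
theorem exists_norm {κ : Type} {p : ℕ} [NeZero p] {ψ : A → κ → ZMod p} {E' : Subgroup A}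
    (hψ : ∀ u ∈ E', ∀ v ∈ E', ψ (u * v) = ψ u + ψ v) {e : ℕ} {d : Fin e → A}
    (hd : ∀ i, d i ∈ E') {g : G} (hdg : ∀ i, g • d i = d i)
    (hind : ∀ n : Fin e → ZMod p, ∑ i, n i • ψ (d i) = 0 → n = 0) {x : A} (hx : x ∈ Dg d)
    (h0 : ψ x = 0) : ∃ x' ∈ Dg d, x = Nm g p x' := by
  obtain ⟨n, rfl⟩ := hx
  rw [psi_prod hψ hd] at h0
  have h1 := hind _ h0
  have h2 : ∀ i, ∃ m : ℤ, n i = p * m := by
    intro i
    exact (ZMod.intCast_zmod_eq_zero_iff_dvd _ p).1 (congrFun h1 i)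
  choose m hm using h2
  refine ⟨∏ i, d i ^ m i, ⟨m, rfl⟩, ?_⟩
  rw [Nm_fixed p (Dg_fixed hdg ⟨m, rfl⟩), ← Finset.prod_pow]
  refine Finset.prod_congr rfl fun i _ => ?_
  rw [hm i, mul_comm, zpow_mul, zpow_natCast]

end group

end HERBQ

open _root_.Pool.Agent.PT.HERBQ in
theorem HERBQ_thm : HERBQ := by
  intro p hp A G _ _ _ g E E' κ ψ e d hgp hfg hE hE' hH1 hψ hψN hd hi hindep hrk y hy hψy
  have hpp : p.Prime := hp.out
  have : NeZero p := ⟨hpp.ne_zero⟩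
  have hdE : ∀ i, d i ∈ E := fun i => ((hE' _).1 (hd i)).1
  have hdg : ∀ i, g • d i = d i := fun i => ((hE' _).1 (hd i)).2
  have hDE : Dg d ≤ E := by
    rintro _ ⟨n, rfl⟩
    exact Subgroup.prod_mem _ fun i _ => Subgroup.zpow_mem _ (hdE i) _
  have hDE' : Dg d ≤ E' := by
    rintro _ ⟨n, rfl⟩
    exact Subgroup.prod_mem _ fun i _ => Subgroup.zpow_mem _ (hd i) _
  have hτ : (Dg d).map (MulDistribMulAction.toMulEquiv A g).toMonoidHom = Dg d := by
    ext x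
    constructor
    · rintro ⟨z, hz, rfl⟩
      change g • z ∈ Dg d
      rw [Dg_fixed hdg hz]
      exact hz
    · intro hx
      exact ⟨x, hx, Dg_fixed hdg hx⟩
  obtain ⟨g', hg'⟩ : ∃ g' : MulAut (A ⧸ Dg d),
      ∀ x : A, g' • (x : A ⧸ Dg d) = ((g • x : A) : A ⧸ Dg d) :=
    ⟨QuotientGroup.congr (Dg d) (Dg d) (MulDistribMulAction.toMulEquiv A g) hτ, fun x => rfl⟩
  have hgi : ∀ (i : ℕ) (x : A), g' ^ i • (x : A ⧸ Dg d) = ((g ^ i • x : A) : A ⧸ Dg d) := by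
    intro i
    induction i with
    | zero => intro x; simp
    | succ i ih => intro x; rw [pow_succ, mul_smul, hg', ih, pow_succ, mul_smul]
  have hN : ∀ x : A, ∏ i ∈ range p, g' ^ i • (x : A ⧸ Dg d) = ((Nm g p x : A) : A ⧸ Dg d) := by
    intro x
    rw [Nm_apply, Finset.prod_congr rfl (fun i _ => hgi i x)]
    exact (map_prod (QuotientGroup.mk' (Dg d)) (fun i => g ^ i • x) (range p)).symm
  have hNE : ∀ x ∈ E, Nm g p x ∈ E' := by
    intro x hx
    rw [hE', smul_Nm, Nm_smul hgp]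
    exact ⟨Nm_mem hE hx p, rfl⟩
  have hfgE : Group.FG E := (Group.fg_iff_subgroup_fg E).2 hfg
  have hfinE : Module.Finite ℤ (Additive E) := Module.Finite.iff_addGroup_fg.mpr inferInstance
  have hfgm : (E.map (QuotientGroup.mk' (Dg d))).FG := by
    rw [← Group.fg_iff_subgroup_fg]
    exact Group.fg_of_surjective ((QuotientGroup.mk' (Dg d)).subgroupMap_surjective E)
  have key := RI.HERB_thm p (A ⧸ Dg d) (MulAut (A ⧸ Dg d)) g' (E.map (QuotientGroup.mk' (Dg d)))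
    (E'.map (QuotientGroup.mk' (Dg d))) ?_ hfgm ?_ ?_ ?_ ?_ (y : A ⧸ Dg d) ⟨y, hy, rfl⟩
  · obtain ⟨_, ⟨η, hη, rfl⟩, h1⟩ := key
    rw [QuotientGroup.mk'_apply, hN η, QuotientGroup.eq] at h1
    have h2 : (Nm g p η)⁻¹ * y ∈ Dg d := by
      have := inv_mem h1
      rwa [mul_inv_rev, inv_inv] at this
    have h3 : y = Nm g p η * ((Nm g p η)⁻¹ * y) := by rw [mul_inv_cancel_left]
    have h4 := hψ _ (hNE η hη) _ (hDE' h2)
    rw [← h3, hψy, Nm_apply g p η, hψN η hη, zero_add] at h4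
    obtain ⟨z, hz, h5⟩ := exists_norm hψ hd hdg hindep h2 h4.symm
    refine ⟨η * z, mul_mem hη (hDE hz), ?_⟩
    rw [← Nm_apply g p, map_mul, ← h5]
    exact h3
  · refine MulEquiv.ext fun x => ?_
    induction x using QuotientGroup.induction_on with
    | H x =>
      have h1 := hgi p x
      rw [hgp, one_smul] at h1
      exact h1
  · rintro _ ⟨u, hu, rfl⟩
    exact ⟨g • u, hE u hu, (hg' u).symm⟩
  · intro u
    constructor
    · rintro ⟨u, hu, rfl⟩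
      have h1 := (hE' u).1 hu
      refine ⟨⟨u, h1.1, rfl⟩, ?_⟩
      rw [QuotientGroup.mk'_apply, hg', h1.2]
    · rintro ⟨⟨u, hu, rfl⟩, h1⟩
      rw [QuotientGroup.mk'_apply, hg', QuotientGroup.eq] at h1
      have h2 : Nm g p ((g • u)⁻¹ * u) = 1 := by
        rw [map_mul, map_inv, Nm_smul hgp, inv_mul_cancel]
      rw [Nm_fixed p (Dg_fixed hdg h1)] at h2
      have h3 := Dg_torsion hi h1 hpp.ne_zero h2
      exact ⟨u, (hE' u).2 ⟨hu, inv_mul_eq_one.1 h3⟩, rfl⟩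
  · rintro _ ⟨u, hu, rfl⟩ h1
    rw [QuotientGroup.mk'_apply, hN u] at h1
    have h2 : Nm g p u ∈ Dg d := (QuotientGroup.eq_one_iff _).1 h1
    obtain ⟨z, hz, h3⟩ := exists_norm hψ hd hdg hindep h2 (hψN u hu)
    have h4 : Nm g p (u / z) = 1 := by rw [map_div, h3, div_self']
    obtain ⟨v, hv, h5⟩ := hH1 (u / z) (div_mem hu (hDE hz)) h4
    refine ⟨v, ⟨v, hv, rfl⟩, ?_⟩
    have h6 : ((u : A) : A ⧸ Dg d) = ((u / z : A) : A ⧸ Dg d) := by
      rw [QuotientGroup.eq, mul_div_assoc', inv_mul_cancel, one_div]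
      exact inv_mem hz
    rw [QuotientGroup.mk'_apply, h6, h5, hg']
    rfl
  · have hfinE' : Module.Finite ℤ (Additive E') := by
      have hE'E : E' ≤ E := fun x hx => ((hE' x).1 hx).1
      exact Module.Finite.of_injective
        (MonoidHom.toAdditive (Subgroup.inclusion hE'E)).toIntLinearMap
        (Subgroup.inclusion_injective hE'E)
    have h1 := rank_eq hi hfinE hdE
    have h2 := rank_eq hi hfinE' hd
    rw [h1, h2] at hrk
    have h3 : Module.finrank ℤ (Additive (E.map (QuotientGroup.mk' (Dg d)))) + (e + p * e) =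
        p * Module.finrank ℤ (Additive (E'.map (QuotientGroup.mk' (Dg d)))) + (e + p * e) := by
      linarith
    exact Nat.add_right_cancel h3

end Pool.Agent.PT


end

section

/-!
# Module SLC: the symbol at the prime above `3` is continuous
-/

namespace Pool.Agent.PT

open Pool.Agent.Lib_helper18 Pool.Agent.Lib_helper18.Eis Pool.Agent.Lib_helper84.Cub

namespace SLC

theorem three_z : (3 : ZMod 3) = 0 := by decide

theorem prim_ne_zero {c : Eis} (hc : Prim c) : c ≠ 0 := by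
  rintro rfl
  exact hc.2 (by simp)

theorem w_ne_zero : w ≠ 0 := isUnit_w.ne_zero

theorem wt_congr {m n k : ℤ} (h : m = n + 9 * k) : wt m = wt n := by
  have h1 : (m - 1) / 3 = (n - 1) / 3 + 3 * k := by omega
  rw [wt, wt, h1]
  push_cast
  rw [three_z]
  ring

/-- additivity in the second variable -/
theorem mul_right (hSSL : SSL) {a b c : Eis} (ha : a ≠ 0) (hb : b ≠ 0) (hc : c ≠ 0) :
    sl c (a * b) = sl c a + sl c b := by
  have h1 := hSSL.1 a b c ha hb hc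
  have h2 := hSSL.2.1 (a * b) c (mul_ne_zero ha hb) hc
  have h3 := hSSL.2.1 a c ha hc
  have h4 := hSSL.2.1 b c hb hc
  rw [h2, h3, h4, h1]
  ring

theorem one_left (hSSL : SSL) {c : Eis} (hc : c ≠ 0) : sl 1 c = 0 := by
  have h1 := hSSL.1 1 1 c one_ne_zero one_ne_zero hc
  rw [one_mul] at h1
  linear_combination -h1

theorem pow_left (hSSL : SSL) {a c : Eis} (ha : a ≠ 0) (hc : c ≠ 0) (n : ℕ) :
    sl (a ^ n) c = n * sl a c := by
  induction n with
  | zero => rw [pow_zero, one_left hSSL hc]; simp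
  | succ n ih =>
    rw [pow_succ, hSSL.1 _ _ _ (pow_ne_zero _ ha) ha hc, ih]
    push_cast
    ring

theorem pow_right (hSSL : SSL) {a c : Eis} (ha : a ≠ 0) (hc : c ≠ 0) (n : ℕ) :
    sl c (a ^ n) = n * sl c a := by
  have h2 := hSSL.2.1 (a ^ n) c (pow_ne_zero _ ha) hc
  have h3 := hSSL.2.1 a c ha hc
  rw [h2, h3, pow_left hSSL ha hc]
  ring

theorem lam_four : lam ^ 4 = 9 * w ^ 2 := by decide

theorem nine_re : (9 : Eis).re = 9 := by decide

theorem nine_im : (9 : Eis).im = 0 := by decide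

/-- the value on a primary element -/
theorem prim_left (hSSL : SSL) (hSREC : SREC) {b d : Eis} {j l : ℕ} (hb : b ≠ 0) (hd : Prim d)
    (e : b * w ^ l = lam ^ j * d) {c : Eis} (hc : Prim c) :
    sl c b = j * (2 * wt (c.re ^ 2)) - l * wt c.norm := by
  have hc0 := prim_ne_zero hc
  have hd0 := prim_ne_zero hd
  have hl0 : lam ≠ 0 := prime_lam.ne_zero
  have h1 := mul_right hSSL hb (pow_ne_zero l w_ne_zero) hc0
  have h2 := mul_right hSSL (pow_ne_zero j hl0) hd0 hc0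
  rw [e, h2, pow_right hSSL hl0 hc0, pow_right hSSL w_ne_zero hc0, hSREC.1 c d hc hd,
    hSREC.2.1 c hc, hSREC.2.2.1 c hc] at h1
  linear_combination -h1

/-- the value depends only on the residue modulo `9` -/
theorem prim_congr (hSSL : SSL) (hSREC : SREC) {b c c' t : Eis} (hb : b ≠ 0) (hc : Prim c)
    (e : c' = c + 9 * t) : Prim c' ∧ sl c' b = sl c b := by
  have hre : c'.re = c.re + 9 * t.re := by rw [e, add_re, mul_re, nine_re, nine_im]; ring
  have him : c'.im = c.im + 9 * t.im := by rw [e, add_im, mul_im, nine_re, nine_im]; ring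
  have hc' : Prim c' := by
    refine ⟨?_, ?_⟩
    · have := hc.1
      omega
    · have := hc.2
      omega
  refine ⟨hc', ?_⟩
  obtain ⟨b1, hb1, hlb⟩ := V_split prime_lam hb
  obtain ⟨l, hl⟩ := exists_prim hlb
  have e1 : b * w ^ l = lam ^ (V lam b) * (b1 * w ^ l) := by
    rw [← mul_assoc, ← hb1]
  have h1 : wt (c'.re ^ 2) = wt (c.re ^ 2) :=
    wt_congr (k := 2 * c.re * t.re + 9 * t.re ^ 2) (by rw [hre]; ring)
  have h2 : wt c'.norm = wt c.norm :=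
    wt_congr (k := (2 * c.re * t.re + 9 * t.re ^ 2) - (c.re * t.im + t.re * c.im + 9 * t.re * t.im)
      + (2 * c.im * t.im + 9 * t.im ^ 2)) (by rw [norm_def, norm_def, hre, him]; ring)
  rw [prim_left hSSL hSREC hb hl e1 hc', prim_left hSSL hSREC hb hl e1 hc, h1, h2]

theorem cont (hSSL : SSL) (hSREC : SREC) (a a' b : Eis) (ha : a ≠ 0) (hb : b ≠ 0)
    (h : lam ^ (V lam a + 4) ∣ a' - a) : sl a' b = sl a b := by
  obtain ⟨a1, ha1, hla⟩ := V_split prime_lam ha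
  obtain ⟨t, ht⟩ := h
  obtain ⟨i, hi⟩ := exists_prim hla
  have hl0 : lam ≠ 0 := prime_lam.ne_zero
  generalize V lam a = k at ha1 ht
  have e1 : a' = lam ^ k * (a1 + lam ^ 4 * t) := by
    have : a' = a + lam ^ (k + 4) * t := by rw [← ht]; ring
    rw [this, ha1, pow_add]
    ring
  have e2 : (a1 + lam ^ 4 * t) * w ^ i = a1 * w ^ i + 9 * (w ^ 2 * t * w ^ i) := by
    rw [lam_four]; ring
  obtain ⟨hp', hs⟩ := prim_congr hSSL hSREC hb hi e2
  have ha0' : a' ≠ 0 := by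
    rintro rfl
    rcases mul_eq_zero.1 e1.symm with h0 | h0
    · exact pow_ne_zero _ hl0 h0
    · rw [h0, zero_mul] at hp'
      exact prim_ne_zero hp' rfl
  have h1 := hSSL.1 a (w ^ i) b ha (pow_ne_zero _ w_ne_zero) hb
  have h2 := hSSL.1 (lam ^ k) (a1 * w ^ i) b (pow_ne_zero _ hl0) (prim_ne_zero hi) hb
  have h3 := hSSL.1 a' (w ^ i) b ha0' (pow_ne_zero _ w_ne_zero) hb
  have h4 := hSSL.1 (lam ^ k) ((a1 + lam ^ 4 * t) * w ^ i) b (pow_ne_zero _ hl0)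
    (prim_ne_zero hp') hb
  rw [← mul_assoc, ← ha1] at h2
  rw [← mul_assoc, ← e1] at h4
  linear_combination h4 - h3 - h2 + h1 + hs

end SLC

theorem SLC_thm (hSSL : SSL) (hSREC : SREC) : SLC where
  prime := prime_lam
  pos := by norm_num
  mul := hSSL.1
  skew := hSSL.2.1
  stein := hSSL.2.2.1
  cont := SLC.cont hSSL hSREC

end Pool.Agent.PT


end

section

/-!
# SPP: the set `PP`
-/

namespace Pool.Agent.PT

open Pool.Agent.Lib_helper18 Pool.Agent.Lib_helper18.Eis Pool.Agent.Lib_helper84.Cub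

namespace SPP

theorem prim (π : PP) : Prim π.1 := by
  obtain ⟨_, h1, h2⟩ := π.2
  exact ⟨h2, by omega⟩

theorem exists_assoc {l : Eis} (hl : Prime l) (h3 : ¬ l ∣ 3) : ∃ π : PP, Associated l π.1 := by
  obtain ⟨i, hi⟩ := exists_prim (not_lam_dvd_of_prime hl h3)
  obtain ⟨h1, h2⟩ := hi
  have hu : IsUnit (w ^ i) := (IsUnit.of_mul_eq_one (w ^ 2) (by rw [← pow_succ', w_cube])).pow i
  obtain ⟨u, hu⟩ := hu
  have ha : Associated l (l * w ^ i) := ⟨u, by rw [hu]⟩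
  have h4 : (l * w ^ i).re % 3 = 1 ∨ (l * w ^ i).re % 3 = 2 := by omega
  rcases h4 with h4 | h4
  · have h5 : Associated l (-(l * w ^ i)) := ha.neg_right
    refine ⟨⟨-(l * w ^ i), h5.prime hl, ?_, ?_⟩, h5⟩
    · rw [neg_re]
      omega
    · rw [neg_im]
      exact (dvd_neg).2 h1
  · exact ⟨⟨l * w ^ i, ha.prime hl, h4, h1⟩, ha⟩

theorem unique (π π' : PP) (h : Associated π.1 π'.1) : π = π' := by
  obtain ⟨u, hu⟩ := h
  have h1 := (prim π).unit u.isUnit (by rw [hu]; exact prim π')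
  rcases h1 with h1 | h1
  · apply Subtype.ext
    rw [← hu, h1, mul_one]
  · exfalso
    rw [h1] at hu
    have h2 := congrArg Eis.re hu
    have h3 := π.2.2.1
    have h4 := π'.2.2.1
    rw [mul_neg, mul_one, neg_re] at h2
    omega

theorem finite_norm (M : ℤ) : {x : Eis | x.norm ≤ M}.Finite := by
  have h1 : Set.InjOn (fun x : Eis => (x.re, x.im)) {x : Eis | x.norm ≤ M} := by
    intro x _ y _ h
    have h2 := Prod.ext_iff.1 h
    exact Eis.ext h2.1 h2.2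
  refine Set.Finite.of_finite_image ?_ h1
  refine Set.Finite.subset ((Set.finite_Icc (-(2 * M)) (2 * M)).prod
    (Set.finite_Icc (-(2 * M)) (2 * M))) ?_
  rintro _ ⟨x, hx, rfl⟩
  have hx' : x.re ^ 2 - x.re * x.im + x.im ^ 2 ≤ M := hx
  have h2 : x.im ^ 2 ≤ 2 * M := by nlinarith [sq_nonneg (2 * x.re - x.im), sq_nonneg x.im]
  have h3 : x.re ^ 2 ≤ 2 * M := by nlinarith [sq_nonneg (2 * x.im - x.re), sq_nonneg x.re]
  have key : ∀ t : ℤ, t ^ 2 ≤ 2 * M → -(2 * M) ≤ t ∧ t ≤ 2 * M := by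
    intro t ht
    have h4 : |t| ≤ t ^ 2 := by
      rw [← sq_abs]
      rcases (abs_nonneg t).eq_or_lt with h | h
      · rw [← h]
        norm_num
      · nlinarith
    have h5 := abs_le.1 (h4.trans ht)
    exact h5
  exact ⟨⟨(key _ h3).1, (key _ h3).2⟩, ⟨(key _ h2).1, (key _ h2).2⟩⟩

theorem finite_dvd {a : Eis} (ha : a ≠ 0) : {π : PP | π.1 ∣ a}.Finite := by
  refine Set.Finite.of_finite_image (f := fun π : PP => π.1) ?_ Subtype.val_injective.injOn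
  refine (finite_norm a.norm).subset ?_
  rintro _ ⟨π, hπ, rfl⟩
  obtain ⟨b, hb⟩ := hπ
  have h1 : a.norm = π.1.norm * b.norm := by rw [hb, norm_mul]
  have h2 := norm_pos ha
  have h3 := norm_nonneg π.1
  have h4 := norm_nonneg b
  show π.1.norm ≤ a.norm
  have h5 : 0 < b.norm := by
    rcases h4.eq_or_lt with h | h
    · rw [← h, mul_zero] at h1
      omega
    · exact h
  nlinarith

theorem not_three (π : PP) : ¬ π.1 ∣ 3 := by
  intro h
  have h1 := (dvd_three_iff π.2.1).1 h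
  have h2 := lam_dvd_iff.1 h1.symm.dvd
  have h3 := π.2.2.1
  have h4 := π.2.2.2
  omega

theorem conj_mem (π : PP) : ∃ π' : PP, π'.1 = conj π.1 := by
  have h3 := π.2.2.1
  have h4 := π.2.2.2
  refine ⟨⟨conj π.1, prime_conj π.2.1, ?_, ?_⟩, rfl⟩
  · rw [conj_re]
    omega
  · rw [conj_im]
    exact (dvd_neg).2 h4

theorem inert_mem {q : ℕ} (hq : q.Prime) (h : q % 3 = 2) : ∃ π : PP, π.1 = (q : Eis) := by
  refine ⟨⟨(q : Eis), prime_inert hq h, ?_, ?_⟩, rfl⟩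
  · rw [natCast_re]
    omega
  · rw [natCast_im]
    exact dvd_zero _

theorem classify (π : PP) : ∃ p : ℕ, p.Prime ∧ ((p % 3 = 2 ∧ π.1 = (p : Eis)) ∨
    (p % 3 = 1 ∧ π.1.norm = p ∧ (p : Eis) = π.1 * conj π.1 ∧ ¬ Associated π.1 (conj π.1))) := by
  obtain ⟨q, hq, hlq, _⟩ := exists_rational_prime π.2.1
  refine ⟨q, hq, ?_⟩
  have h0 : q % 3 ≠ 0 := by
    intro h
    have h1 : 3 ∣ q := Nat.dvd_of_mod_eq_zero h
    have h2 : 3 = q := (Nat.prime_dvd_prime_iff_eq Nat.prime_three hq).1 h1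
    apply not_three π
    rw [← h2] at hlq
    exact hlq
  have h1 : q % 3 = 1 ∨ q % 3 = 2 := by omega
  rcases h1 with h1 | h1
  · right
    have : Fact q.Prime := ⟨hq⟩
    obtain ⟨π0, hπ0, _⟩ := exists_pi hq h1
    have h2 := (norm_of_dvd_p hπ0 π.2.1 hlq).1
    exact ⟨h1, h2, (mul_conj_p h2).symm, fun h => not_dvd_conj h1 h2 h.dvd⟩
  · left
    refine ⟨h1, ?_⟩
    obtain ⟨π', hπ'⟩ := inert_mem hq h1
    have h2 : Associated π.1 π'.1 := by
      rw [hπ']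
      exact π.2.1.associated_of_dvd (prime_inert hq h1) hlq
    rw [unique π π' h2, hπ']

end SPP

theorem SPP_thm : SPP :=
  ⟨fun _ hl h3 => SPP.exists_assoc hl h3, SPP.unique, fun _ ha => SPP.finite_dvd ha,
    fun π => ⟨SPP.not_three π, SPP.conj_mem π⟩, fun _ hq h => SPP.inert_mem hq h, SPP.classify⟩

end Pool.Agent.PT


end

section

/-!
# STAR: the identity of symbols of linear forms
-/

namespace Pool.Agent.PT

open Pool.Agent.Lib_helper18 Pool.Agent.Lib_helper18.Eis Pool.Agent.Lib_helper84.Cub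

namespace STAR

theorem w_ne : (w : Eis) ≠ 0 := by
  intro h
  have := congrArg Eis.im h
  simp [w] at this

theorem three0 : (3 : ZMod 3) = 0 := rfl

theorem double {x : ZMod 3} (h : x + x = 0) : x = 0 := by
  revert x; decide

variable {π : Eis} {s : Eis → Eis → ZMod 3} {e : ℕ}

theorem self (h : LSym π s e) {a : Eis} (ha : a ≠ 0) : s a a = 0 := by
  have := h.skew a a ha ha
  apply double
  linear_combination this

theorem one (h : LSym π s e) {c : Eis} (hc : c ≠ 0) : s 1 c = 0 := by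
  have := h.mul 1 1 c one_ne_zero one_ne_zero hc
  rw [mul_one] at this
  linear_combination -this

theorem mulR (h : LSym π s e) {a b c : Eis} (ha : a ≠ 0) (hb : b ≠ 0) (hc : c ≠ 0) :
    s a (b * c) = s a b + s a c := by
  have h1 := h.skew (b * c) a (mul_ne_zero hb hc) ha
  have h2 := h.mul b c a hb hc ha
  have h3 := h.skew b a hb ha
  have h4 := h.skew c a hc ha
  linear_combination h1 - h2 - h3 - h4

theorem negL (h : LSym π s e) {a b : Eis} (ha : a ≠ 0) (hb : b ≠ 0) : s (-a) b = s a b := by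
  have h1 : s (-1) b = 0 := by
    apply double
    have := h.mul (-1) (-1) b (neg_ne_zero.2 one_ne_zero) (neg_ne_zero.2 one_ne_zero) hb
    rw [neg_mul_neg, mul_one, one h hb] at this
    exact this.symm
  have := h.mul (-1) a b (neg_ne_zero.2 one_ne_zero) ha hb
  rw [neg_one_mul] at this
  rw [this, h1, zero_add]

theorem negR (h : LSym π s e) {a b : Eis} (ha : a ≠ 0) (hb : b ≠ 0) : s a (-b) = s a b := by
  rw [h.skew (-b) a (neg_ne_zero.2 hb) ha, negL h hb ha, ← h.skew b a hb ha]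

/-- Steinberg for differences -/
theorem stein' (h : LSym π s e) {a b d : Eis} (ha : a ≠ 0) (hb : b ≠ 0) (hd : d ≠ 0)
    (hd' : a - b = d) : s a b = s d b - s d a := by
  have h1 := h.stein (-a) d b (neg_ne_zero.2 ha) hd hb (by rw [← hd']; ring)
  rw [negL h ha hd, negR h hb ha, h.skew d a hd ha, h.skew a b ha hb] at h1
  linear_combination -h1

theorem cyc (h : LSym π s e) {a b c : Eis} (ha : a ≠ 0) (hb : b ≠ 0) (hc : c ≠ 0)
    (h0 : a + w * b + w * w * c = 0) :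
    s a b + s b c + s c a + s w a + s w b + s w c = 0 := by
  have hw := w_ne
  have h1 := h.stein a (w * b) (w * w * c) ha (mul_ne_zero hw hb)
    (mul_ne_zero (mul_ne_zero hw hw) hc) h0
  have k1 := mulR h ha hw hb
  have k2 := h.mul w b (w * w * c) hw hb (mul_ne_zero (mul_ne_zero hw hw) hc)
  have k3 := mulR h hw (mul_ne_zero hw hw) hc
  have k4 := mulR h hb (mul_ne_zero hw hw) hc
  have k5 := mulR h hw hw hw
  have k6 := mulR h hb hw hw
  have k7 := h.mul (w * w) c a (mul_ne_zero hw hw) hc ha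
  have k8 := h.mul w w a hw hw ha
  have k9 := self h hw
  have k10 := h.skew w a hw ha
  have k11 := h.skew w b hw hb
  have k12 : (3 : ZMod 3) = 0 := rfl
  linear_combination h1 - k1 - k2 - k3 - k4 - k5 - k6 - k7 - k8 - 2 * k9 - k10 - 2 * k11 + s w b * k12

theorem key (h : LSym π s e) {f0 f1 f2 g0 g1 g2 d1 d2 k : Eis} (hf0 : f0 ≠ 0) (hf1 : f1 ≠ 0)
    (hf2 : f2 ≠ 0) (hg0 : g0 ≠ 0) (hg1 : g1 ≠ 0) (hg2 : g2 ≠ 0) (hd1 : d1 ≠ 0) (hd2 : d2 ≠ 0)
    (hk : k ≠ 0) (e1 : f0 * g0 - f1 * g2 = k * (w * w) * d1) (e2 : f1 * g1 - f2 * g0 = k * d1)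
    (e3 : f0 * g2 - f1 * g1 = k * w * d2) (e4 : f1 * g0 - f2 * g2 = k * (w * w) * d2)
    (cf : s f0 f1 + s f1 f2 + s f2 f0 + s w f0 + s w f1 + s w f2 = 0)
    (cg : s g0 g1 + s g1 g2 + s g2 g0 + s w g0 + s w g1 + s w g2 = 0) :
    s d1 (g0 * g1 * g2) - s d2 (g0 * g1 * g2) - s d1 (f0 * f1 * f2) + s d2 (f0 * f1 * f2) =
      s w (f0 * f1 * f2) + s (f0 * f1 * f2) g2 - s (f0 * f1 * f2) g1 +
        s f1 (g0 * g1 * g2) - s f2 (g0 * g1 * g2) := by
  have hw := w_ne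
  have hww : w * w ≠ 0 := mul_ne_zero hw hw
  have E1 := stein' h (mul_ne_zero hf0 hg0) (mul_ne_zero hf1 hg2)
    (mul_ne_zero (mul_ne_zero hk hww) hd1) e1
  have E2 := stein' h (mul_ne_zero hf1 hg1) (mul_ne_zero hf2 hg0) (mul_ne_zero hk hd1) e2
  have E3 := stein' h (mul_ne_zero hf0 hg2) (mul_ne_zero hf1 hg1)
    (mul_ne_zero (mul_ne_zero hk hw) hd2) e3
  have E4 := stein' h (mul_ne_zero hf1 hg0) (mul_ne_zero hf2 hg2)
    (mul_ne_zero (mul_ne_zero hk hww) hd2) e4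
  have L : ∀ a b c : Eis, a ≠ 0 → b ≠ 0 → c ≠ 0 → s (a * b) c = s a c + s b c := h.mul
  have R : ∀ a b c : Eis, a ≠ 0 → b ≠ 0 → c ≠ 0 → s a (b * c) = s a b + s a c :=
    fun a b c ha hb hc => mulR h ha hb hc
  simp only [L, R, ne_eq, mul_eq_zero, hf0, hf1, hf2, hg0, hg1, hg2, hd1, hd2, hk, hw,
    or_self, not_false_eq_true] at E1 E2 E3 E4 ⊢
  have a1 := h.skew f0 f1 hf0 hf1
  have a2 := h.skew f1 f2 hf1 hf2
  have a3 := h.skew f2 f0 hf2 hf0
  have b1 := h.skew g0 g1 hg0 hg1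
  have b2 := h.skew g1 g2 hg1 hg2
  have b3 := h.skew g2 g0 hg2 hg0
  have c00 := h.skew f0 g0 hf0 hg0
  have c01 := h.skew f0 g1 hf0 hg1
  have c02 := h.skew f0 g2 hf0 hg2
  have c10 := h.skew f1 g0 hf1 hg0
  have c11 := h.skew f1 g1 hf1 hg1
  have c12 := h.skew f1 g2 hf1 hg2
  have c20 := h.skew f2 g0 hf2 hg0
  have c21 := h.skew f2 g1 hf2 hg1
  have c22 := h.skew f2 g2 hf2 hg2
  have s0 := self h hf0
  have s1 := self h hf1
  have s2 := self h hf2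
  have t0 := self h hg0
  have t1 := self h hg1
  have t2 := self h hg2
  simp only [s0, s1, s2, t0, t1, t2, c00, c01, c02, c10, c11, c12, c20, c21, c22, a1, a2, a3, b1,
    b2, b3] at E1 E2 E3 E4 cf cg ⊢
  clear a1 a2 a3 b1 b2 b3 c00 c01 c02 c10 c11 c12 c20 c21 c22
  grind

theorem tail (h : LSym π s e) {f0 f1 f2 : Eis} (hf0 : f0 ≠ 0) (hf1 : f1 ≠ 0) (hf2 : f2 ≠ 0)
    (cf : s f0 f1 + s f1 f2 + s f2 f0 + s w f0 + s w f1 + s w f2 = 0) :
    s f1 (f0 * f1 * f2) - s f2 (f0 * f1 * f2) = s w (f0 * f1 * f2) := by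
  have hw := w_ne
  have h01 := mul_ne_zero hf0 hf1
  have k1 := mulR h hf1 h01 hf2
  have k2 := mulR h hf1 hf0 hf1
  have k3 := mulR h hf2 h01 hf2
  have k4 := mulR h hf2 hf0 hf1
  have k5 := mulR h hw h01 hf2
  have k6 := mulR h hw hf0 hf1
  have a1 := h.skew f0 f1 hf0 hf1
  have a2 := h.skew f1 f2 hf1 hf2
  have s1 := self h hf1
  have s2 := self h hf2
  have h3 : (3 : ZMod 3) = 0 := rfl
  linear_combination k1 + k2 - k3 - k4 - k5 - k6 + a1 - a2 + s1 - s2 - cf + s f1 f2 * h3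

end STAR

theorem STAR_thm : STAR := by
  intro π s e h X Y u v ξ F G D hF hG hD hξ hF0
  have hww : (w : Eis) * w = -1 - w := by
    ext <;> simp [w]
  have e0 := hF 0
  have e1 := hF 1
  have e2 := hF 2
  have cf := STAR.cyc h (hF0 0) (hF0 1) (hF0 2) (by rw [e0, e1, e2]; clear * - hww; grind)
  refine ⟨STAR.tail h (hF0 0) (hF0 1) (hF0 2) cf, fun hG0 hD1 hD2 => ?_⟩
  have cg := STAR.cyc h (hG0 0) (hG0 1) (hG0 2) (by rw [hG 0, hG 1, hG 2]; clear * - hww; grind)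
  have hk : ξ * (w - 1) ≠ 0 := by
    refine mul_ne_zero hξ fun h0 => ?_
    have := congrArg Eis.im h0
    simp [w] at this
  refine STAR.key h (hF0 0) (hF0 1) (hF0 2) (hG0 0) (hG0 1) (hG0 2) hD1 hD2 hk ?_ ?_ ?_ ?_ cf cg
  · rw [e0, e1, hG 0, hG 2, hD 1]; clear * - hww; grind
  · rw [e1, e2, hG 0, hG 1, hD 1]; clear * - hww; grind
  · rw [e0, e1, hG 1, hG 2, hD 2]; clear * - hww; grind
  · rw [e1, e2, hG 0, hG 2, hD 2]; clear * - hww; grind

end Pool.Agent.PT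


end

section

/-!
# Prime twists of rank zero: module DSUM (sum of densities)
-/

open Finset

namespace Pool.Agent.PTE

namespace DSUM

open RI.PD in
/-- the pointwise inequality -/
lemma point {ι : Type} [Fintype ι] (S S' : ι → Set ℕ) (T R : Set ℕ) (N : ℕ)
    (h3 : ∀ i q, q.Prime → N < q → q ∈ S' i → q ∈ R)
    (h4 : ∀ i q, q.Prime → N < q → q ∈ S i → q ∈ T)
    (h5 : ∀ q : ℕ, q.Prime → N < q → ∃ i₁ i₂, ∀ i, q ∈ S i ∨ q ∈ S' i → i = i₁ ∨ i = i₂)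
    (s : ℝ) (n : ℕ) :
    ∑ i : ι, Set.indicator {q : ℕ | q.Prime ∧ q ∈ S i ∪ S' i} (fun n : ℕ => (n : ℝ) ^ (-s)) n ≤
      2 * Set.indicator {q : ℕ | q.Prime ∧ q ∈ T} (fun n : ℕ => (n : ℝ) ^ (-s)) n +
      2 * Set.indicator {q : ℕ | q.Prime ∧ q ∈ R} (fun n : ℕ => (n : ℝ) ^ (-s)) n +
      Fintype.card ι * Set.indicator ((Finset.range (N + 1) : Finset ℕ) : Set ℕ)
        (fun n : ℕ => (n : ℝ) ^ (-s)) n := by
  classical
  have hg := term_nonneg s n
  have hT0 : 0 ≤ Set.indicator {q : ℕ | q.Prime ∧ q ∈ T} (fun n : ℕ => (n : ℝ) ^ (-s)) n :=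
    Set.indicator_nonneg (fun x _ => term_nonneg s x) n
  have hR0 : 0 ≤ Set.indicator {q : ℕ | q.Prime ∧ q ∈ R} (fun n : ℕ => (n : ℝ) ^ (-s)) n :=
    Set.indicator_nonneg (fun x _ => term_nonneg s x) n
  have hN0 : 0 ≤ (Fintype.card ι : ℝ) * Set.indicator ((Finset.range (N + 1) : Finset ℕ) : Set ℕ)
      (fun n : ℕ => (n : ℝ) ^ (-s)) n :=
    mul_nonneg (Nat.cast_nonneg _) (Set.indicator_nonneg (fun x _ => term_nonneg s x) n)
  by_cases hp : n.Prime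
  swap
  · have h0 : ∑ i : ι, Set.indicator {q : ℕ | q.Prime ∧ q ∈ S i ∪ S' i}
        (fun n : ℕ => (n : ℝ) ^ (-s)) n = 0 := by
      refine Finset.sum_eq_zero fun i _ => ?_
      rw [Set.indicator_of_notMem]
      rintro ⟨h, _⟩
      exact hp h
    rw [h0]
    linarith
  by_cases hN : n ≤ N
  · have h1 : ∑ i : ι, Set.indicator {q : ℕ | q.Prime ∧ q ∈ S i ∪ S' i}
        (fun n : ℕ => (n : ℝ) ^ (-s)) n ≤ ∑ _i : ι, (n : ℝ) ^ (-s) := by
      refine Finset.sum_le_sum fun i _ => ?_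
      exact Set.indicator_le_self' (fun x _ => term_nonneg s x) n
    rw [Finset.sum_const, nsmul_eq_mul, Finset.card_univ] at h1
    have h2 : n ∈ ((Finset.range (N + 1) : Finset ℕ) : Set ℕ) := by
      simp only [Finset.coe_range, Set.mem_Iio]
      omega
    rw [Set.indicator_of_mem h2]
    linarith
  · have hN' : N < n := not_le.1 hN
    obtain ⟨i₁, i₂, hi⟩ := h5 n hp hN'
    by_cases hex : ∃ i, n ∈ S i ∪ S' i
    · -- the indicator of `T` or `R` is positive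
      have h1 : ∑ i : ι, Set.indicator {q : ℕ | q.Prime ∧ q ∈ S i ∪ S' i}
          (fun n : ℕ => (n : ℝ) ^ (-s)) n ≤ 2 * (n : ℝ) ^ (-s) := by
        have h2 : ∑ i : ι, Set.indicator {q : ℕ | q.Prime ∧ q ∈ S i ∪ S' i}
            (fun n : ℕ => (n : ℝ) ^ (-s)) n =
            ∑ i ∈ ({i₁, i₂} : Finset ι), Set.indicator {q : ℕ | q.Prime ∧ q ∈ S i ∪ S' i}
            (fun n : ℕ => (n : ℝ) ^ (-s)) n := by
          symm
          refine Finset.sum_subset (Finset.subset_univ _) fun i _ hi' => ?_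
          rw [Set.indicator_of_notMem]
          rintro ⟨_, h⟩
          rcases hi i h with h | h
          · exact hi' (by rw [h]; exact Finset.mem_insert_self _ _)
          · exact hi' (by rw [h]; exact Finset.mem_insert_of_mem (Finset.mem_singleton_self _))
        rw [h2]
        have h6 : ∑ i ∈ ({i₁, i₂} : Finset ι), Set.indicator {q : ℕ | q.Prime ∧ q ∈ S i ∪ S' i}
            (fun n : ℕ => (n : ℝ) ^ (-s)) n ≤ ∑ _i ∈ ({i₁, i₂} : Finset ι), (n : ℝ) ^ (-s) :=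
          Finset.sum_le_sum fun i _ => Set.indicator_le_self' (fun x _ => term_nonneg s x) n
        rw [Finset.sum_const, nsmul_eq_mul] at h6
        have h7 : (({i₁, i₂} : Finset ι).card : ℝ) ≤ 2 := by
          exact_mod_cast Finset.card_le_two
        have h8 := mul_le_mul_of_nonneg_right h7 hg
        linarith
      obtain ⟨i, hi'⟩ := hex
      rcases hi' with h | h
      · have h2 : n ∈ {q : ℕ | q.Prime ∧ q ∈ T} := ⟨hp, h4 i n hp hN' h⟩
        rw [Set.indicator_of_mem h2]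
        linarith
      · have h2 : n ∈ {q : ℕ | q.Prime ∧ q ∈ R} := ⟨hp, h3 i n hp hN' h⟩
        rw [Set.indicator_of_mem h2]
        linarith
    · have h0 : ∑ i : ι, Set.indicator {q : ℕ | q.Prime ∧ q ∈ S i ∪ S' i}
          (fun n : ℕ => (n : ℝ) ^ (-s)) n = 0 := by
        refine Finset.sum_eq_zero fun i _ => ?_
        rw [Set.indicator_of_notMem]
        rintro ⟨_, h⟩
        exact hex ⟨i, h⟩
      rw [h0]
      linarith

end DSUM

open _root_.Pool.Agent.PTE.DSUM RI.PD in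
theorem DSUM_thm : DSUM := by
  classical
  intro ι _ S S' T R d u N h1 h2 h3 h4 h5
  obtain ⟨K, hK⟩ := h2
  choose C hC using h1
  refine ⟨(∑ i, C i + 2 * K + Fintype.card ι * ((Finset.range (N + 1)).card : ℝ)) / 2,
    fun s hs hs2 => ?_⟩
  have hKs := hK s hs hs2
  rw [sub_eq] at hKs ⊢
  have hsum := summ hs
  have hSi : ∀ i ∈ (Finset.univ : Finset ι), Summable (Set.indicator
      {q : ℕ | q.Prime ∧ q ∈ S i ∪ S' i} (fun n : ℕ => (n : ℝ) ^ (-s))) :=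
    fun i _ => hsum.indicator _
  have hT := (hsum.indicator {q : ℕ | q.Prime ∧ q ∈ T}).mul_left 2
  have hR := (hsum.indicator {q : ℕ | q.Prime ∧ q ∈ R}).mul_left 2
  have hA := (hsum.indicator ((Finset.range (N + 1) : Finset ℕ) : Set ℕ)).mul_left
    (Fintype.card ι : ℝ)
  have h6 := (summable_sum hSi).tsum_le_tsum
    (fun n => by
      have := point S S' T R N h3 h4 h5 s n
      simpa using this) ((hT.add hR).add hA)
  rw [Summable.tsum_finsetSum hSi, (hT.add hR).tsum_add hA, hT.tsum_add hR, tsum_mul_left,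
    tsum_mul_left, tsum_mul_left] at h6
  have h7 : ∑ i : ι, (d * Real.log (1 / (s - 1)) - C i) ≤ ∑ i : ι, ∑' n : ℕ,
      Set.indicator {q : ℕ | q.Prime ∧ q ∈ S i ∪ S' i} (fun n : ℕ => (n : ℝ) ^ (-s)) n := by
    refine Finset.sum_le_sum fun i _ => ?_
    have h8 := hC i s hs hs2
    rwa [sub_eq] at h8
  rw [Finset.sum_sub_distrib, Finset.sum_const, nsmul_eq_mul, Finset.card_univ] at h7
  have h9 := fin_le hs (Finset.range (N + 1))
  have h10 := mul_le_mul_of_nonneg_left h9 (Nat.cast_nonneg (α := ℝ) (Fintype.card ι))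
  have h11 : (Fintype.card ι * d - 2 * u) / 2 * Real.log (1 / (s - 1)) =
      (Fintype.card ι * (d * Real.log (1 / (s - 1))) - 2 * (u * Real.log (1 / (s - 1)))) / 2 := by
    ring
  rw [h11]
  linarith

end Pool.Agent.PTE


end

section

/-!
# PTE: the theorem for numbers in normal form, an odd number of primes `= 2 (mod 3)`
-/

set_option autoImplicit false

open NumberField IsDedekindDomain Finset
open scoped nonZeroDivisors Pointwise

namespace Pool.Agent.PTE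

open Pool.Agent.Lib_helper18 Pool.Agent.Lib_helper18.Eis Pool.Agent.Lib_helper84.Cub
open Pool.Agent.PT

namespace FINAS

theorem pos_of_nf {n m k : ℕ} {π : Fin m → PP} {p e : Fin m → ℕ} {r f : Fin k → ℕ}
    (h : NF n π p e r f) : 0 < n := by
  rw [h.eq]
  exact Nat.mul_pos (Finset.prod_pos fun i _ => pow_pos (h.pp i).pos _)
    (Finset.prod_pos fun j _ => pow_pos (h.rp j).pos _)

theorem three_of_nf {n m k : ℕ} {π : Fin m → PP} {p e : Fin m → ℕ} {r f : Fin k → ℕ}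
    (h : NF n π p e r f) : ¬ 3 ∣ n := by
  rw [h.eq]
  intro h0
  rcases (Nat.prime_three.dvd_mul).1 h0 with h1 | h1
  · obtain ⟨i, _, hi⟩ := (Nat.prime_three.prime.dvd_finsetProd_iff _).1 h1
    have h2 := Nat.prime_three.dvd_of_dvd_pow hi
    have h3 := h.p1 i
    omega
  · obtain ⟨i, _, hi⟩ := (Nat.prime_three.prime.dvd_finsetProd_iff _).1 h1
    have h2 := Nat.prime_three.dvd_of_dvd_pow hi
    have h3 := h.r2 i
    omega

/-- The homomorphism with given components. -/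
def assemble {s F : ℕ} (Φ : Fin s → Fin s → ((ZMod F)ˣ →* Multiplicative (ZMod 3))) :
    (ZMod F)ˣ →* Multiplicative (Fin s → Fin s → ZMod 3) where
  toFun := fun a => Multiplicative.ofAdd fun j i => (Φ j i a).toAdd
  map_one' := by
    apply Multiplicative.toAdd.injective
    funext j i
    simp
  map_mul' := fun a a' => by
    apply Multiplicative.toAdd.injective
    funext j i
    simp

theorem assemble_apply {s F : ℕ} (Φ : Fin s → Fin s → ((ZMod F)ˣ →* Multiplicative (ZMod 3)))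
    (a : (ZMod F)ˣ) (j i : Fin s) : (assemble Φ a).toAdd j i = (Φ j i a).toAdd := rfl

theorem dens_mono {S : Set ℕ} {d d' : ℝ} (h : RI.DensityGE S d) (hd : d' ≤ d) :
    RI.DensityGE S d' := by
  obtain ⟨C, hC⟩ := h
  refine ⟨C, fun s hs1 hs2 => ?_⟩
  have h0 : 0 ≤ Real.log (1 / (s - 1)) := by
    apply Real.log_nonneg
    rw [le_div_iff₀ (by linarith)]
    linarith
  have h1 := mul_le_mul_of_nonneg_right hd h0
  linarith [hC s hs1 hs2]

theorem sq_one {ε : ZMod 3} (h : ε ≠ 0) : ε * ε = 1 := by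
  revert h
  revert ε
  decide

theorem eq_or {ε : ZMod 3} (h : ε ≠ 0) : ε = 1 ∨ ε = -1 := by
  revert h
  revert ε
  decide

/-- Two vectors on the same line. -/
theorem line {k : ℕ} (δ δ' : Fin k → ZMod 3) {ε ε' : ZMod 3} (hε : ε ≠ 0) (hε' : ε' ≠ 0)
    (h : ∀ i, ε' * δ' i = ε * δ i) : δ' = δ ∨ δ' = -δ := by
  rcases eq_or hε with h1 | h1 <;> rcases eq_or hε' with h2 | h2 <;> subst h1 <;> subst h2
  · left; funext i; simpa using h i
  · right; funext i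
    have := h i
    rw [Pi.neg_apply, ← one_mul (δ i), ← this]
    ring
  · right; funext i
    have := h i
    rw [Pi.neg_apply]
    rw [one_mul] at this
    rw [this]
    ring
  · left; funext i
    have := h i
    simpa using this

/-- The set of the theorem. -/
def TT' (n : ℕ) : Set ℕ := {q : ℕ | ¬ ∃ X Y : ℚ, X ^ 3 + Y ^ 3 = (n : ℚ) * q}

/-- One hyperplane. -/
theorem one (hDCONSTS : DCONSTS) (hCLSC : CLSC) (hCLSCS : CLSCS) (hDENSS : DENSS)
    {n m k : ℕ} {π : Fin m → PP} {p e : Fin m → ℕ} {r f : Fin k → ℕ} (hNF : NF n π p e r f)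
    (hk : Odd k) (w0 : ZMod 3) (c : Fin m → ZMod 3) (v : Fin k → ℤ) (hw0 : w0 ≠ 0)
    (δ : Fin k → ZMod 3)
    (hδ : ∃ (s : ℕ) (b : Fin (s + 1) → ℤ)
      (P Q P' Q' : Fin (s + 1) → Fin (s + 1) → ℤ), s + 1 = k ∧ SysG b P Q P' Q' ∧
      (∀ i, b i ≠ 0) ∧
      (∀ ρ : PP, ¬ ρ.1 ∣ (n : Eis) → (∀ i : Fin s, sym ρ.1 (b i.castSucc : Eis) = 0) →
        sym ρ.1 (b (Fin.last s) : Eis) ≠ 0 →
        ∃ ε : ZMod 3, ε ≠ 0 ∧ ∀ i, sym ρ.1 (v i : Eis) = ε * δ i) ∧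
      ∀ (q : ℕ) (ρ : PP), q.Prime → InClS π w0 c q → ¬ q ∣ n → 3 < q →
        (q : Eis) = ρ.1 * conj ρ.1 → (∀ i : Fin s, sym ρ.1 (b i.castSucc : Eis) = 0) →
        sym ρ.1 (b (Fin.last s) : Eis) ≠ 0 →
        BOk ((n : ℤ) * q) ∧ (∀ i : Fin s, Adm ((n : ℤ) * q) (b i.castSucc)) ∧
        (∀ i j, Mat (rv b) (rs P) (rs Q) (rs P') (rs Q') ((n : ℤ) * q) i j =
          - Mat (rv b) (rs P) (rs Q) (rs P') (rs Q') ((n : ℤ) * q) j i) ∧
        ((∃ X Y : ℚ, X ^ 3 + Y ^ 3 = (n : ℚ) * q) →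
          (Mat (rv b) (rs P) (rs Q) (rs P') (rs Q') ((n : ℤ) * q)).det = 0)) :
    ∃ (S S' : Set ℕ) (N : ℕ), RI.DensityGE (S ∪ S') (2 * rh (k - 1) / 3 ^ (k + m + 1)) ∧
      (∀ q, q.Prime → q ∈ S' → q ∈ {q : ℕ | InClS π (-w0) (-c) q}) ∧
      (∀ q, q.Prime → N < q → q ∈ S → q ∈ TT' n) ∧
      ∀ q, q.Prime → N < q → q ∈ S ∨ q ∈ S' → q % 3 = 1 ∧ ∃ ρ : PP,
        (q : Eis) = ρ.1 * conj ρ.1 ∧ (¬ ρ.1 ∣ (n : Eis) →
          ∃ ε : ZMod 3, ε ≠ 0 ∧ ∀ i, sym ρ.1 (v i : Eis) = ε * δ i) := by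
  obtain ⟨s, b, P, Q, P', Q', hs, hsys, hb, hρ, hq⟩ := hδ
  have hn : 0 < n := pos_of_nf hNF
  have h3 : ¬ 3 ∣ n := three_of_nf hNF
  have hD : ∀ j i : Fin s, ∃ f₀ : ℕ, 0 < f₀ ∧ ∀ F : ℕ, 0 < F → f₀ ∣ F →
      ∃ (C : ZMod 3) (Φ : (ZMod F)ˣ →* Multiplicative (ZMod 3)) (N₀ : ℕ), j ≠ i →
        ∀ (q : ℕ) (hQ : q.Coprime F) (ρ : PP), q.Prime → N₀ < q → q % 3 = 1 →
          (q : Eis) = ρ.1 * conj ρ.1 → BOk ((n : ℤ) * q) →
          Adm ((n : ℤ) * q) (b j.castSucc) → Adm ((n : ℤ) * q) (b i.castSucc) →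
          ∀ t : ℤ, (q : ℤ) ∣ t ^ 3 - b j.castSucc →
          OO ((n : ℤ) * q) (b j.castSucc) (b i.castSucc) (rs P j i) (rs Q j i) (rs P' j i)
            (rs Q' j i) = C + (Φ (ZMod.unitOfCoprime q hQ)).toAdd +
              TAUVS ρ.1 (rs P j i) (rs Q j i) (rs P' j i) (rs Q' j i) t := by
    intro j i
    by_cases hji : j = i
    · exact ⟨1, one_pos, fun F _ _ => ⟨0, 1, 0, fun h => absurd hji h⟩⟩
    · obtain ⟨f₀, hf₀, h⟩ := hDCONSTS n (b j.castSucc) (b i.castSucc) (rs P j i) (rs Q j i)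
        (rs P' j i) (rs Q' j i) hn h3
        (hsys.sol j.castSucc i.castSucc fun h => hji (Fin.castSucc_injective _ h)) (hb _) (hb _)
      refine ⟨f₀, hf₀, fun F hF hd => ?_⟩
      obtain ⟨C, Φ, N₀, h'⟩ := h F hF hd
      exact ⟨C, Φ, N₀, fun _ => h'⟩
  choose f₀ hf₀ hD1 using hD
  obtain ⟨F, hF, h9, hpF, hfF⟩ : ∃ F : ℕ, 0 < F ∧ 9 ∣ F ∧ (∀ i, p i ∣ F) ∧ ∀ j i, f₀ j i ∣ F := by
    refine ⟨9 * (∏ i, p i) * ∏ j, ∏ i, f₀ j i, ?_, ?_, ?_, ?_⟩
    · have h1 : 0 < ∏ i, p i := Finset.prod_pos fun i _ => (hNF.pp i).pos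
      have h2 : 0 < ∏ j, ∏ i, f₀ j i :=
        Finset.prod_pos fun j _ => Finset.prod_pos fun i _ => hf₀ j i
      positivity
    · exact Dvd.dvd.mul_right (Dvd.intro _ rfl) _
    · intro i
      exact Dvd.dvd.mul_right (Dvd.dvd.mul_left (Finset.dvd_prod_of_mem p (mem_univ i)) _) _
    · intro j i
      exact Dvd.dvd.mul_left ((Finset.dvd_prod_of_mem (fun i => f₀ j i) (mem_univ i)).trans
        (Finset.dvd_prod_of_mem (fun j => ∏ i, f₀ j i) (mem_univ j))) _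
  choose C Φ N₀ hD2 using fun j i => hD1 j i F hF (hfF j i)
  obtain ⟨κ, hκ, hcount⟩ := hCLSC m π p hNF.pp hNF.p1 hNF.pπ hNF.pinj F hF h9 hpF
  have hcount' := hCLSCS F m κ hF h9 hcount
  have heven : Even s := by
    rw [← hs] at hk
    rcases hk with ⟨t, ht⟩
    exact ⟨t, by omega⟩
  have hc0 : (Fin.cons w0 c : Fin (m + 1) → ZMod 3) ≠ 0 := fun h => hw0 (by
    have := congrFun h 0
    simpa using this)
  have hdens := hDENSS s b P Q P' Q' F m κ (Fin.cons w0 c) C (assemble Φ) hsys heven hF h9 hc0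
    hcount'
  have hN : ∀ j i, N₀ j i ≤ ∑ j, ∑ i, N₀ j i := by
    intro j i
    exact (Finset.single_le_sum (f := fun i => N₀ j i) (fun i _ => Nat.zero_le _)
      (mem_univ i)).trans (Finset.single_le_sum (f := fun j => ∑ i, N₀ j i)
        (fun j _ => Nat.zero_le _) (mem_univ j))
  have hk1 : k - 1 = s := by omega
  have hk2 : k + m + 1 = s + m + 2 := by omega
  rw [hk1, hk2]
  refine ⟨SSS b P Q P' Q' κ (Fin.cons w0 c) C (assemble Φ),
    {Q : ℕ | ∃ (hQ : Q.Coprime F) (ρ : PP), ClQ b κ (-Fin.cons w0 c) Q hQ ρ},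
    n + 3 + ∑ j, ∑ i, N₀ j i, hdens, ?_, ?_, ?_⟩
  · -- the second set is in `R`
    rintro q hqp ⟨hQ, ρ, hq3, hκq, -⟩
    rw [hκ q hQ] at hκq
    refine ⟨hq3, ?_, fun i => ?_⟩
    · have := congrFun hκq 0
      simpa using this
    · have := congrFun hκq i.succ
      simpa using this
  · -- the first set is in `T`
    rintro q hqp hqN ⟨hQ, ρ, ⟨hq3, hκq, hqρ, hb0, hb1⟩, hdet⟩ hXY
    rw [hκ q hQ] at hκq
    have hcl : InClS π w0 c q := by
      refine ⟨hq3, ?_, fun i => ?_⟩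
      · have := congrFun hκq 0
        simpa using this
      · have := congrFun hκq i.succ
        simpa using this
    have hqn : ¬ q ∣ n := fun h => by
      have := Nat.le_of_dvd hn h
      omega
    obtain ⟨hB, hA, hskew, hM⟩ := hq q ρ hqp hcl hqn (by omega) hqρ hb0 hb1
    have hM0 := hM hXY
    let τ : Fin s → Fin s → ZMod 3 := fun j i =>
      OO ((n : ℤ) * q) (b j.castSucc) (b i.castSucc) (rs P j i) (rs Q j i) (rs P' j i)
            (rs Q' j i) - C j i - (Φ j i (ZMod.unitOfCoprime q hQ)).toAdd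
    apply hdet τ
    · intro j i hji t ht
      have h1 := hD2 j i hji q hQ ρ hqp (by have := hN j i; omega) hq3 hqρ hB (hA j) (hA i) t ht
      simp only [τ]
      rw [h1]
      ring
    · rw [← hM0]
      congr 1
      ext j i
      have hv : ∀ j i, (C + (assemble Φ (ZMod.unitOfCoprime q hQ)).toAdd + τ) j i =
          OO ((n : ℤ) * q) (b j.castSucc) (b i.castSucc) (rs P j i) (rs Q j i) (rs P' j i)
            (rs Q' j i) := by
        intro j i
        simp only [Pi.add_apply, τ, assemble_apply]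
        ring
      unfold alt
      rw [hv, hv]
      by_cases h1 : j < i
      · rw [if_pos h1]
        unfold Mat
        rw [if_neg h1.ne]
        rfl
      · rw [if_neg h1]
        by_cases h2 : i < j
        · rw [if_pos h2, hskew j i]
          unfold Mat
          rw [if_neg h2.ne]
          rfl
        · rw [if_neg h2]
          have h3 : j = i := le_antisymm (not_lt.1 h2) (not_lt.1 h1)
          unfold Mat
          rw [if_pos h3]
  · -- the hyperplane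
    rintro q hqp hqN (⟨hQ, ρ, ⟨hq3, hκq, hqρ, hb0, hb1⟩, hdet⟩ | ⟨hQ, ρ, hq3, hκq, hqρ, hb0, hb1⟩)
    · exact ⟨hq3, ρ, hqρ, fun hn => hρ ρ hn hb0 hb1⟩
    · exact ⟨hq3, ρ, hqρ, fun hn => hρ ρ hn hb0 hb1⟩

theorem num0 (m : ℕ) : (1 : ℝ) / (30 * 3 ^ m) ≤
    ((3 ^ 1 - 1 : ℝ) * (2 * 1 / 3 ^ (1 + m + 1)) - 2 * (1 / (2 * 3 ^ (m + 1)))) / 2 := by
  have h : (0 : ℝ) < 3 ^ m := by positivity
  have h1 : ((3 ^ 1 - 1 : ℝ) * (2 * 1 / 3 ^ (1 + m + 1)) - 2 * (1 / (2 * 3 ^ (m + 1)))) / 2 =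
      1 / (18 * 3 ^ m) := by
    rw [show 1 + m + 1 = m + 2 by ring, pow_add, pow_add]
    field_simp
    norm_num
  rw [h1]
  apply one_div_le_one_div_of_le
  · positivity
  · linarith

theorem num1 (m k : ℕ) (hk : 3 ≤ k) : (1 : ℝ) / (30 * 3 ^ m) ≤
    ((3 ^ k - 1 : ℝ) * (2 * (5 / 8) / 3 ^ (k + m + 1)) - 2 * (1 / (2 * 3 ^ (m + 1)))) / 2 := by
  have h : (0 : ℝ) < 3 ^ m := by positivity
  have hk' : (27 : ℝ) ≤ 3 ^ k := by
    have : (3 : ℝ) ^ 3 ≤ 3 ^ k := pow_le_pow_right₀ (by norm_num) hk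
    linarith
  set x : ℝ := 3 ^ k with hx
  have hx0 : 0 < x := by linarith
  have h1 : ((x - 1 : ℝ) * (2 * (5 / 8) / 3 ^ (k + m + 1)) - 2 * (1 / (2 * 3 ^ (m + 1)))) / 2 =
      (5 / 8 * (1 - 1 / x) - 1 / 2) / (3 * 3 ^ m) := by
    rw [pow_add, pow_add, pow_add, ← hx]
    field_simp
  have h2 : 1 / x ≤ 1 / 27 := one_div_le_one_div_of_le (by norm_num) hk'
  rw [h1, div_le_div_iff₀ (by positivity) (by positivity)]
  nlinarith

end FINAS

open _root_.Pool.Agent.PTE.FINAS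

/-- The theorem for numbers in normal form, `k` odd. -/
theorem FINAS_thm (hSPLT : SPLT) (hECLS : ECLS) (hDCONSTS : DCONSTS) (hCLSC : CLSC)
    (hCLSCS : CLSCS) (hDENSS : DENSS) (hDIRS : DIRS) (hDSUM : DSUM) : FINAS := by
  intro n m k π p e r f hNF hk
  obtain ⟨w0, c, v, hw0, hv, hδ⟩ := hECLS n m k π p e r f hNF hk
  have hn : 0 < n := pos_of_nf hNF
  choose S S' N hd hR hT hH using fun δ : {δ : Fin k → ZMod 3 // δ ≠ 0} =>
    one hDCONSTS hCLSC hCLSCS hDENSS hNF hk w0 c v hw0 δ.1 (hδ δ.1 δ.2)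
  have hN : ∀ δ, N δ ≤ ∑ δ, N δ := fun δ =>
    Finset.single_le_sum (f := fun δ => N δ) (fun i _ => Nat.zero_le _) (mem_univ δ)
  have hmain := hDSUM {δ : Fin k → ZMod 3 // δ ≠ 0} S S' (TT' n)
    {q : ℕ | InClS π (-w0) (-c) q} _ _ (n + ∑ δ, N δ) hd
    (hDIRS m π p hNF.pp hNF.p1 hNF.pπ hNF.pinj (-w0) (-c))
    (fun i q hq _ h => hR i q hq h) (fun i q hq hNq h => hT i q hq (by have := hN i; omega) h) ?_
  · refine dens_mono hmain ?_
    have hcard : ((Fintype.card {δ : Fin k → ZMod 3 // δ ≠ 0} : ℕ) : ℝ) = 3 ^ k - 1 := by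
      rw [Fintype.card_subtype_compl, Fintype.card_subtype_eq, Fintype.card_fun, ZMod.card,
        Fintype.card_fin, Nat.cast_sub (Nat.one_le_pow _ _ (by norm_num))]
      push_cast
      ring
    rw [hcard]
    rcases Nat.eq_zero_or_pos (k - 1) with h0 | h0
    · have hk1 : k = 1 := by
        rcases hk with ⟨t, ht⟩
        omega
      subst hk1
      have : rh (1 - 1) = 1 := by simp [rh]
      rw [this]
      exact num0 m
    · have hk3 : 3 ≤ k := by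
        rcases hk with ⟨t, ht⟩
        omega
      have : rh (k - 1) = 5 / 8 := by
        unfold rh
        rw [if_neg (by omega)]
      rw [this]
      exact num1 m k hk3
  · intro q hqp hNq
    by_cases hex : ∃ i, q ∈ S i ∨ q ∈ S' i
    · obtain ⟨δ₀, h₀⟩ := hex
      obtain ⟨hq3, ρ₀, hqρ₀, hε₀⟩ := hH δ₀ q hqp (by have := hN δ₀; omega) h₀
      have hqn : ¬ q ∣ n := fun h => by
        have := Nat.le_of_dvd hn h
        omega
      have hqv : ∀ i, ¬ (q : ℤ) ∣ v i := fun i h => hqn ((hv i).2 q hqp h)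
      obtain ⟨-, -, hσ, hdv, hcj, -⟩ := hSPLT.2 q ρ₀ hqp hq3 hqρ₀
      have hn₀ : ∀ ρ : PP, (q : Eis) = ρ.1 * conj ρ.1 → ¬ ρ.1 ∣ (n : Eis) := by
        intro ρ hρ h
        obtain ⟨-, -, -, hdv', -, -⟩ := hSPLT.2 q ρ hqp hq3 hρ
        have h1 : ρ.1 ∣ ((n : ℤ) : Eis) := by
          rwa [Int.cast_natCast]
        exact hqn (Int.natCast_dvd_natCast.1 ((hdv' n).1 h1))
      obtain ⟨ε₀, hε₀0, hε₀v⟩ := hε₀ (hn₀ ρ₀ hqρ₀)
      refine ⟨δ₀, ⟨-δ₀.1, neg_ne_zero.2 δ₀.2⟩, fun δ h => ?_⟩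
      obtain ⟨-, ρ, hqρ, hε⟩ := hH δ q hqp (by have := hN δ; omega) h
      obtain ⟨ε, hε0, hεv⟩ := hε (hn₀ ρ hqρ)
      rcases hσ ρ ⟨conj ρ.1, hqρ⟩ with h1 | h1
      · rcases line δ₀.1 δ.1 hε₀0 hε0 fun i => by rw [← hεv i, ← hε₀v i, h1] with h2 | h2
        · exact Or.inl (Subtype.ext h2)
        · exact Or.inr (Subtype.ext h2)
      · rcases line δ₀.1 δ.1 (neg_ne_zero.2 hε₀0) hε0 fun i => by
          have h3 := hcj (v i : Eis) fun h => hqv i ((hdv (v i)).1 h)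
          rw [← hεv i, h1, neg_mul, ← hε₀v i, ← h3]
          congr 1
          exact (conj_intCast _).symm with h2 | h2
        · exact Or.inl (Subtype.ext h2)
        · exact Or.inr (Subtype.ext h2)
    · have : Nonempty {δ : Fin k → ZMod 3 // δ ≠ 0} := by
        refine ⟨fun _ => 1, fun h => ?_⟩
        have h1 := congrFun h ⟨0, hk.pos⟩
        exact one_ne_zero h1
      obtain ⟨i⟩ := this
      exact ⟨i, i, fun j hj => absurd ⟨j, hj⟩ hex⟩

end Pool.Agent.PTE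


end

section

/-!
# PTE: existence of the governing field
-/

set_option autoImplicit false

open NumberField IsDedekindDomain Finset
open scoped nonZeroDivisors Pointwise

namespace Pool.Agent.PTE

open Pool.Agent.Lib_helper18 Pool.Agent.Lib_helper18.Eis Pool.Agent.Lib_helper84.Cub
open Pool.Agent.PT

open Pool.Agent.PT.GZERO in
/-- GZEROG: existence of the governing field. -/
theorem GZEROG_thm : GZEROG := by
  intro s b p q p' q' f hSys hf h9
  have : NeZero (f : AlgebraicClosure ℚ) := ⟨Nat.cast_ne_zero.2 hf.ne'⟩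
  have : NeZero f := ⟨hf.ne'⟩
  obtain ⟨ζ, hζ⟩ := HasEnoughRootsOfUnity.exists_primitiveRoot (AlgebraicClosure ℚ) f
  have hω := rel_of_prim (prim_pow hf h9 hζ)
  have hN : ∀ j i, j ≠ i → p j i ^ 3 + b j * q j i ^ 3 ≠ 0 ∧
      p' j i ^ 3 + b j * q' j i ^ 3 ≠ 0 := by
    intro j i hji
    have h1 := hSys.sol j i hji
    refine ⟨h1.n1, fun h2 => h1.n1 ?_⟩
    rw [h1.eq, h2, mul_zero]
  have hA : ∀ (j i : Fin s) (ρ : AlgebraicClosure ℚ), ∃ A : AlgebraicClosure ℚ, j ≠ i →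
      ρ ^ 3 = (b j : AlgebraicClosure ℚ) →
      A ^ 3 * aD (ζ ^ (f / 3)) (p j i) (q j i) (p' j i) (q' j i) ρ =
        aN (ζ ^ (f / 3)) (p j i) (q j i) (p' j i) (q' j i) ρ := by
    intro j i ρ
    obtain ⟨A, hA⟩ := IsAlgClosed.exists_pow_nat_eq
      (aN (ζ ^ (f / 3)) (p j i) (q j i) (p' j i) (q' j i) ρ /
        aD (ζ ^ (f / 3)) (p j i) (q j i) (p' j i) (q' j i) ρ) (n := 3) (by norm_num)
    refine ⟨A, fun hji hρ => ?_⟩
    rw [hA, div_mul_cancel₀]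
    exact (ne_of_prod hω (hN j i hji).1 (hN j i hji).2 hρ).1
  choose A hA using hA
  have hθ : ∀ j : Fin s, ∃ θ : AlgebraicClosure ℚ, θ ^ 3 = (b j : AlgebraicClosure ℚ) :=
    fun j => IsAlgClosed.exists_pow_nat_eq _ (by norm_num)
  have hR : ∀ j : Fin s, {ρ : AlgebraicClosure ℚ | ρ ^ 3 = (b j : AlgebraicClosure ℚ)}.Finite := by
    intro j
    classical
    refine (Polynomial.nthRoots 3 (b j : AlgebraicClosure ℚ)).toFinset.finite_toSet.subset ?_
    intro ρ hρ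
    simp only [Finset.mem_coe, Multiset.mem_toFinset]
    exact (Polynomial.mem_nthRoots (by norm_num)).2 hρ
  obtain ⟨L, iF, iN, iG, ι, hι⟩ := exists_field
    (({ζ} ∪ ⋃ j : Fin s, {ρ | ρ ^ 3 = (b j : AlgebraicClosure ℚ)}) ∪
      ⋃ j : Fin s, ⋃ i : Fin s, A j i '' {ρ | ρ ^ 3 = (b j : AlgebraicClosure ℚ)})
    (((Set.finite_singleton ζ).union (Set.finite_iUnion hR)).union
      (Set.finite_iUnion fun j => Set.finite_iUnion fun i => (hR j).image _))
  have hinj : Function.Injective ι := ι.injective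
  obtain ⟨z, hz⟩ := hι ζ (Or.inl (Or.inl rfl))
  have hzp : IsPrimitiveRoot z f := by
    refine IsPrimitiveRoot.of_map_of_injective (f := ι) ?_ hinj
    rw [hz]
    exact hζ
  have hzω : ι (z ^ (f / 3)) = ζ ^ (f / 3) := by rw [map_pow, hz]
  have hrel := rel_of_prim (prim_pow hf h9 hzp)
  have hNmap : ∀ (u v u' v' : ℤ) (ρ : L), ι (aN (z ^ (f / 3)) u v u' v' ρ) =
      aN (ζ ^ (f / 3)) u v u' v' (ι ρ) := by
    intro u v u' v' ρ
    unfold aN
    simp only [map_mul, map_add, map_pow, map_intCast, hz]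
  have hDmap : ∀ (u v u' v' : ℤ) (ρ : L), ι (aD (z ^ (f / 3)) u v u' v' ρ) =
      aD (ζ ^ (f / 3)) u v u' v' (ι ρ) := by
    intro u v u' v' ρ
    unfold aD
    simp only [map_mul, map_add, map_pow, map_intCast, hz]
  refine ⟨L, iF, iN, z, z ^ (f / 3), iG, hzp, h9, rfl, hrel, ?_, ?_, ?_⟩
  · intro j
    obtain ⟨θ, hθ⟩ := hθ j
    obtain ⟨y, hy⟩ := hι θ (Or.inl (Or.inr (Set.mem_iUnion.2 ⟨j, hθ⟩)))
    refine ⟨y, hinj ?_⟩
    rw [map_pow, hy, hθ, map_intCast]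
  · intro j i hji ρ hρ
    have hρ' : (ι ρ) ^ 3 = (b j : AlgebraicClosure ℚ) := by rw [← map_pow, hρ, map_intCast]
    obtain ⟨y, hy⟩ := hι (A j i (ι ρ)) (Or.inr (Set.mem_iUnion.2 ⟨j, Set.mem_iUnion.2
      ⟨i, ⟨ι ρ, hρ', rfl⟩⟩⟩))
    refine ⟨y, hinj ?_⟩
    rw [map_mul, map_pow, hy, hDmap, hNmap]
    exact hA j i (ι ρ) hji hρ'
  · intro j i hji ρ hρ
    exact ne_of_prod hrel (hN j i hji).1 (hN j i hji).2 hρ

end Pool.Agent.PTE


end

section

/-!
# DADD: sum of the densities of disjoint sets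
-/

open Finset

namespace Pool.Agent.PT3

namespace DADD

open RI.PD in
/-- the pointwise inequality -/
lemma point {ι : Type} [Fintype ι] (S : ι → Set ℕ) (T : Set ℕ) (h1 : ∀ i, S i ⊆ T)
    (h2 : ∀ i j, i ≠ j → Disjoint (S i) (S j)) (s : ℝ) (n : ℕ) :
    ∑ i : ι, Set.indicator {q : ℕ | q.Prime ∧ q ∈ S i} (fun n : ℕ => (n : ℝ) ^ (-s)) n ≤
      Set.indicator {q : ℕ | q.Prime ∧ q ∈ T} (fun n : ℕ => (n : ℝ) ^ (-s)) n := by
  classical
  by_cases hex : ∃ i, n.Prime ∧ n ∈ S i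
  · obtain ⟨i, hp, hi⟩ := hex
    rw [Finset.sum_eq_single i]
    · have hsub : {q : ℕ | q.Prime ∧ q ∈ S i} ⊆ {q : ℕ | q.Prime ∧ q ∈ T} :=
        fun q hq => ⟨hq.1, h1 i hq.2⟩
      exact Set.indicator_le_indicator_of_subset hsub (fun x => term_nonneg s x) n
    · intro j _ hj
      rw [Set.indicator_of_notMem]
      rintro ⟨_, h⟩
      exact Set.disjoint_left.1 (h2 j i hj) h hi
    · intro h
      exact absurd (Finset.mem_univ i) h
  · have h0 : ∑ i : ι, Set.indicator {q : ℕ | q.Prime ∧ q ∈ S i}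
        (fun n : ℕ => (n : ℝ) ^ (-s)) n = 0 := by
      refine Finset.sum_eq_zero fun i _ => ?_
      rw [Set.indicator_of_notMem]
      rintro ⟨hp, h⟩
      exact hex ⟨i, hp, h⟩
    rw [h0]
    exact Set.indicator_nonneg (fun x _ => term_nonneg s x) n

end DADD

open _root_.Pool.Agent.PT3.DADD RI.PD in
theorem DADD_thm : DADD := by
  classical
  intro ι _ S T d hd h1 h2 h3 N hN
  choose C hC using h1
  refine ⟨∑ i, C i, fun s hs hs2 => ?_⟩
  rw [sub_eq]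
  have hsum := summ hs
  have hSi : ∀ i ∈ (Finset.univ : Finset ι), Summable (Set.indicator
      {q : ℕ | q.Prime ∧ q ∈ S i} (fun n : ℕ => (n : ℝ) ^ (-s))) :=
    fun i _ => hsum.indicator _
  have hT := hsum.indicator {q : ℕ | q.Prime ∧ q ∈ T}
  have h6 := (summable_sum hSi).tsum_le_tsum
    (fun n => by
      have := point S T h2 h3 s n
      simpa using this) hT
  rw [Summable.tsum_finsetSum hSi] at h6
  have h7 : ∑ i : ι, (d * Real.log (1 / (s - 1)) - C i) ≤ ∑ i : ι, ∑' n : ℕ,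
      Set.indicator {q : ℕ | q.Prime ∧ q ∈ S i} (fun n : ℕ => (n : ℝ) ^ (-s)) n := by
    refine Finset.sum_le_sum fun i _ => ?_
    have h8 := hC i s hs hs2
    rwa [sub_eq] at h8
  rw [Finset.sum_sub_distrib, Finset.sum_const, nsmul_eq_mul, Finset.card_univ] at h7
  have hlog : 0 ≤ Real.log (1 / (s - 1)) := by
    apply Real.log_nonneg
    rw [le_div_iff₀ (by linarith)]
    linarith
  have h9 : (N : ℝ) * (d * Real.log (1 / (s - 1))) ≤
      (Fintype.card ι : ℝ) * (d * Real.log (1 / (s - 1))) :=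
    mul_le_mul_of_nonneg_right (by exact_mod_cast hN) (mul_nonneg hd hlog)
  have h10 : (N : ℝ) * d * Real.log (1 / (s - 1)) = (N : ℝ) * (d * Real.log (1 / (s - 1))) := by
    ring
  rw [h10]
  linarith

end Pool.Agent.PT3


end

section

/-!
# PT3: the theorem for one class, `3^h n`, `h + k` odd
-/

set_option autoImplicit false

open NumberField IsDedekindDomain Finset
open scoped nonZeroDivisors Pointwise

namespace Pool.Agent.PT3

open Pool.Agent.Lib_helper18 Pool.Agent.Lib_helper18.Eis Pool.Agent.Lib_helper84.Cub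
open Pool.Agent.PT Pool.Agent.PTE

namespace FCLU

/-- The set of the theorem. -/
def TU (h n : ℕ) {m : ℕ} (π : Fin m → PP) (w0 : ZMod 3) (c : Fin m → ZMod 3) : Set ℕ :=
  {q : ℕ | InClS π w0 c q ∧ ¬ ∃ X Y : ℚ, X ^ 3 + Y ^ 3 = ((3 ^ h * n : ℕ) : ℚ) * q}

theorem BB_one (h n q : ℕ) : BB h n 1 q = ((3 ^ h * n : ℕ) : ℤ) * (q : ℤ) ^ 1 := by
  unfold BB
  push_cast
  rfl

theorem inCT_of {m : ℕ} {π : Fin m → PP} {w0 : ZMod 3} {c : Fin m → ZMod 3} {q : ℕ}
    (h : InClS π w0 c q) : InCT 1 π w0 c q := by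
  refine ⟨?_, fun i => ?_⟩
  · rw [pow_one]
    exact h.2.1
  · rw [Nat.cast_one, one_mul]
    exact h.2.2 i

/-- One hyperplane. -/
theorem one (hDCOU : DCOU) (hCLSC : CLSC) (hCLSCS : CLSCS) (hDENSS : DENSS)
    {h n m k : ℕ} {π : Fin m → PP} {p e : Fin m → ℕ} {r f : Fin k → ℕ} (hNF : NF n π p e r f)
    {d : ℕ} (hd : Odd d) (w0 : ZMod 3) (c : Fin m → ZMod 3) (v : Fin d → ℤ)
    (hwc : w0 ≠ 0 ∨ c ≠ 0) (δ : Fin d → ZMod 3)
    (hδ : ∃ (s : ℕ) (b : Fin (s + 1) → ℤ) (X Y : Fin s → ℤ)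
      (P Q P' Q' : Fin (s + 1) → Fin (s + 1) → ℤ), s + 1 = d ∧ SysG b P Q P' Q' ∧
      (∀ i, b i ≠ 0) ∧
      (∀ ρ : PP, ¬ ρ.1 ∣ (n : Eis) → (∀ i : Fin s, sym ρ.1 (b i.castSucc : Eis) = 0) →
        sym ρ.1 (b (Fin.last s) : Eis) ≠ 0 →
        ∃ ε : ZMod 3, ε ≠ 0 ∧ ∀ i, sym ρ.1 (v i : Eis) = ε * δ i) ∧
      ∀ (E q : ℕ) (ρ : PP), (E = 1 ∨ E = 2) → q.Prime → q % 3 = 1 → InCT E π w0 c q →
        ¬ q ∣ n → (q : Eis) = ρ.1 * conj ρ.1 →
        (∀ i : Fin s, sym ρ.1 (b i.castSucc : Eis) = 0) →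
        sym ρ.1 (b (Fin.last s) : Eis) ≠ 0 →
        BT (BB h n E q) ∧ (∀ i : Fin s, AdT (BB h n E q) (b i.castSucc)) ∧
        (∀ i j, MaT (rv b) X Y (rs P) (rs Q) (rs P') (rs Q') (BB h n E q) i j =
          - MaT (rv b) X Y (rs P) (rs Q) (rs P') (rs Q') (BB h n E q) j i) ∧
        ((∃ X Y : ℚ, X ^ 3 + Y ^ 3 = (BB h n E q : ℚ)) →
          (MaT (rv b) X Y (rs P) (rs Q) (rs P') (rs Q') (BB h n E q)).det = 0)) :
    ∃ (S S' : Set ℕ) (N : ℕ), RI.DensityGE (S ∪ S') (2 * rh (d - 1) / 3 ^ (d + m + 1)) ∧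
      (∀ q, q.Prime → q ∈ S' → q ∈ {q : ℕ | InClS π (-w0) (-c) q}) ∧
      (∀ q, q.Prime → N < q → q ∈ S → q ∈ TU h n π w0 c) ∧
      ∀ q, q.Prime → N < q → q ∈ S ∨ q ∈ S' → q % 3 = 1 ∧ ∃ ρ : PP,
        (q : Eis) = ρ.1 * conj ρ.1 ∧ (¬ ρ.1 ∣ (n : Eis) →
          ∃ ε : ZMod 3, ε ≠ 0 ∧ ∀ i, sym ρ.1 (v i : Eis) = ε * δ i) := by
  obtain ⟨s, b, X, Y, P, Q, P', Q', hs, hsys, hb, hρ, hq⟩ := hδ
  have hn : 0 < n := FINAS.pos_of_nf hNF
  have hN0 : 0 < 3 ^ h * n := Nat.mul_pos (pow_pos (by norm_num) _) hn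
  have hD : ∀ j i : Fin s, ∃ f₀ : ℕ, 0 < f₀ ∧ ∀ F : ℕ, 0 < F → f₀ ∣ F →
      ∃ (C : ZMod 3) (Φ : (ZMod F)ˣ →* Multiplicative (ZMod 3)) (N₀ : ℕ), j ≠ i →
        ∀ (q : ℕ) (hQ : q.Coprime F) (ρ : PP), q.Prime → N₀ < q → q % 3 = 1 →
          (q : Eis) = ρ.1 * conj ρ.1 →
          AdT (BB h n 1 q) (b j.castSucc) → AdT (BB h n 1 q) (b i.castSucc) →
          ∀ t : ℤ, (q : ℤ) ∣ t ^ 3 - b j.castSucc →
          OT (BB h n 1 q) (b j.castSucc) (X j) (Y j) (b i.castSucc) (rs P j i) (rs Q j i)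
            (rs P' j i) (rs Q' j i) = C + (Φ (ZMod.unitOfCoprime q hQ)).toAdd +
              TAUVS ρ.1 (rs P j i) (rs Q j i) (rs P' j i) (rs Q' j i) t := by
    intro j i
    by_cases hji : j = i
    · exact ⟨1, one_pos, fun F _ _ => ⟨0, 1, 0, fun h => absurd hji h⟩⟩
    · obtain ⟨f₀, hf₀, hf⟩ := hDCOU (3 ^ h * n) (b j.castSucc) (X j) (Y j) (b i.castSucc)
        (rs P j i) (rs Q j i) (rs P' j i) (rs Q' j i) hN0
        (hsys.sol j.castSucc i.castSucc fun h => hji (Fin.castSucc_injective _ h)) (hb _) (hb _)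
      refine ⟨f₀, hf₀, fun F hF hd => ?_⟩
      obtain ⟨C, Φ, N₀, h'⟩ := hf F hF hd
      refine ⟨C, Φ, N₀, fun _ q hQ ρ hqp hqN hq3 hqρ hAj hAi t ht => ?_⟩
      have h1 := h' 1 q hQ ρ (Or.inl rfl) hqp hqN hq3 hqρ
        (by rw [← BB_one]; exact hAj.toAG) (by rw [← BB_one]; exact hAi.toAG) t ht
      rw [← BB_one, Nat.cast_one, one_mul] at h1
      rw [h1, add_assoc]
  choose f₀ hf₀ hD1 using hD
  obtain ⟨F, hF, h9, hpF, hfF⟩ : ∃ F : ℕ, 0 < F ∧ 9 ∣ F ∧ (∀ i, p i ∣ F) ∧ ∀ j i, f₀ j i ∣ F := by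
    refine ⟨9 * (∏ i, p i) * ∏ j, ∏ i, f₀ j i, ?_, ?_, ?_, ?_⟩
    · have h1 : 0 < ∏ i, p i := Finset.prod_pos fun i _ => (hNF.pp i).pos
      have h2 : 0 < ∏ j, ∏ i, f₀ j i :=
        Finset.prod_pos fun j _ => Finset.prod_pos fun i _ => hf₀ j i
      positivity
    · exact Dvd.dvd.mul_right (Dvd.intro _ rfl) _
    · intro i
      exact Dvd.dvd.mul_right (Dvd.dvd.mul_left (Finset.dvd_prod_of_mem p (mem_univ i)) _) _
    · intro j i
      exact Dvd.dvd.mul_left ((Finset.dvd_prod_of_mem (fun i => f₀ j i) (mem_univ i)).trans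
        (Finset.dvd_prod_of_mem (fun j => ∏ i, f₀ j i) (mem_univ j))) _
  choose C Φ N₀ hD2 using fun j i => hD1 j i F hF (hfF j i)
  obtain ⟨κ, hκ, hcount⟩ := hCLSC m π p hNF.pp hNF.p1 hNF.pπ hNF.pinj F hF h9 hpF
  have hcount' := hCLSCS F m κ hF h9 hcount
  have heven : Even s := by
    rw [← hs] at hd
    rcases hd with ⟨t, ht⟩
    exact ⟨t, by omega⟩
  have hc0 : (Fin.cons w0 c : Fin (m + 1) → ZMod 3) ≠ 0 := fun h => by
    rcases hwc with h1 | h1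
    · apply h1
      have := congrFun h 0
      simpa using this
    · apply h1
      funext i
      have := congrFun h i.succ
      simpa using this
  have hdens := hDENSS s b P Q P' Q' F m κ (Fin.cons w0 c) C (FINAS.assemble Φ) hsys heven hF h9
    hc0 hcount'
  have hN : ∀ j i, N₀ j i ≤ ∑ j, ∑ i, N₀ j i := by
    intro j i
    exact (Finset.single_le_sum (f := fun i => N₀ j i) (fun i _ => Nat.zero_le _)
      (mem_univ i)).trans (Finset.single_le_sum (f := fun j => ∑ i, N₀ j i)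
        (fun j _ => Nat.zero_le _) (mem_univ j))
  have hk1 : d - 1 = s := by omega
  have hk2 : d + m + 1 = s + m + 2 := by omega
  rw [hk1, hk2]
  refine ⟨SSS b P Q P' Q' κ (Fin.cons w0 c) C (FINAS.assemble Φ),
    {Q : ℕ | ∃ (hQ : Q.Coprime F) (ρ : PP), ClQ b κ (-Fin.cons w0 c) Q hQ ρ},
    n + 3 + ∑ j, ∑ i, N₀ j i, hdens, ?_, ?_, ?_⟩
  · -- the second set is in `R`
    rintro q hqp ⟨hQ, ρ, hq3, hκq, -⟩
    rw [hκ q hQ] at hκq
    refine ⟨hq3, ?_, fun i => ?_⟩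
    · have := congrFun hκq 0
      simpa using this
    · have := congrFun hκq i.succ
      simpa using this
  · -- the first set is in `T`
    rintro q hqp hqN ⟨hQ, ρ, ⟨hq3, hκq, hqρ, hb0, hb1⟩, hdet⟩
    rw [hκ q hQ] at hκq
    have hcl : InClS π w0 c q := by
      refine ⟨hq3, ?_, fun i => ?_⟩
      · have := congrFun hκq 0
        simpa using this
      · have := congrFun hκq i.succ
        simpa using this
    refine ⟨hcl, fun hXY => ?_⟩
    have hqn : ¬ q ∣ n := fun h => by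
      have := Nat.le_of_dvd hn h
      omega
    obtain ⟨-, hA, hskew, hM⟩ := hq 1 q ρ (Or.inl rfl) hqp hq3 (inCT_of hcl) hqn hqρ hb0 hb1
    have hM0 := hM (by
      obtain ⟨x, y, hxy⟩ := hXY
      refine ⟨x, y, ?_⟩
      rw [hxy, BB_one]
      push_cast
      rw [pow_one])
    let τ : Fin s → Fin s → ZMod 3 := fun j i =>
      OT (BB h n 1 q) (b j.castSucc) (X j) (Y j) (b i.castSucc) (rs P j i) (rs Q j i) (rs P' j i)
            (rs Q' j i) - C j i - (Φ j i (ZMod.unitOfCoprime q hQ)).toAdd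
    apply hdet τ
    · intro j i hji t ht
      have h1 := hD2 j i hji q hQ ρ hqp (by have := hN j i; omega) hq3 hqρ (hA j) (hA i) t ht
      simp only [τ]
      rw [h1]
      ring
    · rw [← hM0]
      congr 1
      ext j i
      have hv : ∀ j i, (C + (FINAS.assemble Φ (ZMod.unitOfCoprime q hQ)).toAdd + τ) j i =
          OT (BB h n 1 q) (b j.castSucc) (X j) (Y j) (b i.castSucc) (rs P j i) (rs Q j i)
            (rs P' j i) (rs Q' j i) := by
        intro j i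
        simp only [Pi.add_apply, τ, FINAS.assemble_apply]
        ring
      unfold alt
      rw [hv, hv]
      by_cases h1 : j < i
      · rw [if_pos h1]
        unfold MaT
        rw [if_neg h1.ne]
        rfl
      · rw [if_neg h1]
        by_cases h2 : i < j
        · rw [if_pos h2, hskew j i]
          unfold MaT
          rw [if_neg h2.ne]
          rfl
        · rw [if_neg h2]
          have h3 : j = i := le_antisymm (not_lt.1 h2) (not_lt.1 h1)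
          unfold MaT
          rw [if_pos h3]
  · -- the hyperplane
    rintro q hqp hqN (⟨hQ, ρ, ⟨hq3, hκq, hqρ, hb0, hb1⟩, hdet⟩ | ⟨hQ, ρ, hq3, hκq, hqρ, hb0, hb1⟩)
    · exact ⟨hq3, ρ, hqρ, fun hn => hρ ρ hn hb0 hb1⟩
    · exact ⟨hq3, ρ, hqρ, fun hn => hρ ρ hn hb0 hb1⟩

end FCLU

open _root_.Pool.Agent.PT3.FCLU

/-- The theorem for one class, `3^h n`, `h + k` odd. -/
theorem FCLU_thm (hSPLT : SPLT) (hECLU : ECLU) (hDCOU : DCOU) (hCLSC : CLSC) (hCLSCS : CLSCS)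
    (hDENSS : DENSS) (hDIRS : DIRS) (hDSUM : DSUM) : FCLU := by
  intro h n m k π p e r f w0 c hNF hh hk hwc hdet
  obtain ⟨d, v, hdo, hv, hδ⟩ := hECLU h n m k π p e r f w0 c hNF hh hk hdet
  have hn : 0 < n := FINAS.pos_of_nf hNF
  choose S S' N hd hR hT hH using fun δ : {δ : Fin d → ZMod 3 // δ ≠ 0} =>
    one hDCOU hCLSC hCLSCS hDENSS hNF hdo w0 c v hwc δ.1 (hδ δ.1 δ.2)
  have hN : ∀ δ, N δ ≤ ∑ δ, N δ := fun δ =>
    Finset.single_le_sum (f := fun δ => N δ) (fun i _ => Nat.zero_le _) (mem_univ δ)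
  have hmain := hDSUM {δ : Fin d → ZMod 3 // δ ≠ 0} S S' (TU h n π w0 c)
    {q : ℕ | InClS π (-w0) (-c) q} _ _ (n + 3 + ∑ δ, N δ) hd
    (hDIRS m π p hNF.pp hNF.p1 hNF.pπ hNF.pinj (-w0) (-c))
    (fun i q hq _ h => hR i q hq h) (fun i q hq hNq h => hT i q hq (by have := hN i; omega) h) ?_
  · refine FINAS.dens_mono hmain ?_
    have hcard : ((Fintype.card {δ : Fin d → ZMod 3 // δ ≠ 0} : ℕ) : ℝ) = 3 ^ d - 1 := by
      rw [Fintype.card_subtype_compl, Fintype.card_subtype_eq, Fintype.card_fun, ZMod.card,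
        Fintype.card_fin, Nat.cast_sub (Nat.one_le_pow _ _ (by norm_num))]
      push_cast
      ring
    rw [hcard]
    rcases Nat.eq_zero_or_pos (d - 1) with h0 | h0
    · have hk1 : d = 1 := by
        rcases hdo with ⟨t, ht⟩
        omega
      subst hk1
      have : rh (1 - 1) = 1 := by simp [rh]
      rw [this]
      exact FINAS.num0 m
    · have hk3 : 3 ≤ d := by
        rcases hdo with ⟨t, ht⟩
        omega
      have : rh (d - 1) = 5 / 8 := by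
        unfold rh
        rw [if_neg (by omega)]
      rw [this]
      exact FINAS.num1 m d hk3
  · intro q hqp hNq
    by_cases hex : ∃ i, q ∈ S i ∨ q ∈ S' i
    · obtain ⟨δ₀, h₀⟩ := hex
      obtain ⟨hq3, ρ₀, hqρ₀, hε₀⟩ := hH δ₀ q hqp (by have := hN δ₀; omega) h₀
      have hqn : ¬ q ∣ n := fun h => by
        have := Nat.le_of_dvd hn h
        omega
      have hqv : ∀ i, ¬ (q : ℤ) ∣ v i := fun i h => by
        have h1 := (hv i).2 q hqp h
        rcases (hqp.dvd_mul).1 h1 with h2 | h2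
        · have := Nat.le_of_dvd (by norm_num) h2
          omega
        · exact hqn h2
      obtain ⟨-, -, hσ, hdv, hcj, -⟩ := hSPLT.2 q ρ₀ hqp hq3 hqρ₀
      have hn₀ : ∀ ρ : PP, (q : Eis) = ρ.1 * conj ρ.1 → ¬ ρ.1 ∣ (n : Eis) := by
        intro ρ hρ h
        obtain ⟨-, -, -, hdv', -, -⟩ := hSPLT.2 q ρ hqp hq3 hρ
        have h1 : ρ.1 ∣ ((n : ℤ) : Eis) := by
          rwa [Int.cast_natCast]
        exact hqn (Int.natCast_dvd_natCast.1 ((hdv' n).1 h1))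
      obtain ⟨ε₀, hε₀0, hε₀v⟩ := hε₀ (hn₀ ρ₀ hqρ₀)
      refine ⟨δ₀, ⟨-δ₀.1, neg_ne_zero.2 δ₀.2⟩, fun δ h => ?_⟩
      obtain ⟨-, ρ, hqρ, hε⟩ := hH δ q hqp (by have := hN δ; omega) h
      obtain ⟨ε, hε0, hεv⟩ := hε (hn₀ ρ hqρ)
      rcases hσ ρ ⟨conj ρ.1, hqρ⟩ with h1 | h1
      · rcases FINAS.line δ₀.1 δ.1 hε₀0 hε0 fun i => by rw [← hεv i, ← hε₀v i, h1] with h2 | h2
        · exact Or.inl (Subtype.ext h2)
        · exact Or.inr (Subtype.ext h2)
      · rcases FINAS.line δ₀.1 δ.1 (neg_ne_zero.2 hε₀0) hε0 fun i => by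
          have h3 := hcj (v i : Eis) fun h => hqv i ((hdv (v i)).1 h)
          rw [← hεv i, h1, neg_mul, ← hε₀v i, ← h3]
          congr 1
          exact (conj_intCast _).symm with h2 | h2
        · exact Or.inl (Subtype.ext h2)
        · exact Or.inr (Subtype.ext h2)
    · have : Nonempty {δ : Fin d → ZMod 3 // δ ≠ 0} := by
        refine ⟨fun _ => 1, fun h => ?_⟩
        have h1 := congrFun h ⟨0, hdo.pos⟩
        exact one_ne_zero h1
      obtain ⟨i⟩ := this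
      exact ⟨i, i, fun j hj => absurd ⟨j, hj⟩ hex⟩

end Pool.Agent.PT3


end

section

/-!
# PT3: one class, `3` does not divide `n`, `k` odd
-/

set_option autoImplicit false

open NumberField IsDedekindDomain Finset
open scoped nonZeroDivisors Pointwise

namespace Pool.Agent.PT3

open Pool.Agent.Lib_helper18 Pool.Agent.Lib_helper18.Eis Pool.Agent.Lib_helper84.Cub
open Pool.Agent.PT Pool.Agent.PTE Pool.Agent.PTE.FINAS

namespace FCS0

/-- The set of the theorem. -/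
def TS (n : ℕ) {m : ℕ} (π : Fin m → PP) (w0 : ZMod 3) (c : Fin m → ZMod 3) : Set ℕ :=
  {q : ℕ | InClS π w0 c q ∧ ¬ ∃ X Y : ℚ, X ^ 3 + Y ^ 3 = (n : ℚ) * q}

/-- One hyperplane. -/
theorem one (hDCONSTS : DCONSTS) (hCLSC : CLSC) (hCLSCS : CLSCS) (hDENSS : DENSS)
    {n m k : ℕ} {π : Fin m → PP} {p e : Fin m → ℕ} {r f : Fin k → ℕ} (hNF : NF n π p e r f)
    (hk : Odd k) (w0 : ZMod 3) (c : Fin m → ZMod 3) (v : Fin k → ℤ) (hw0 : w0 ≠ 0 ∨ c ≠ 0)
    (δ : Fin k → ZMod 3)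
    (hδ : ∃ (s : ℕ) (b : Fin (s + 1) → ℤ)
      (P Q P' Q' : Fin (s + 1) → Fin (s + 1) → ℤ), s + 1 = k ∧ SysG b P Q P' Q' ∧
      (∀ i, b i ≠ 0) ∧
      (∀ ρ : PP, ¬ ρ.1 ∣ (n : Eis) → (∀ i : Fin s, sym ρ.1 (b i.castSucc : Eis) = 0) →
        sym ρ.1 (b (Fin.last s) : Eis) ≠ 0 →
        ∃ ε : ZMod 3, ε ≠ 0 ∧ ∀ i, sym ρ.1 (v i : Eis) = ε * δ i) ∧
      ∀ (q : ℕ) (ρ : PP), q.Prime → InClS π w0 c q → ¬ q ∣ n → 3 < q →
        (q : Eis) = ρ.1 * conj ρ.1 → (∀ i : Fin s, sym ρ.1 (b i.castSucc : Eis) = 0) →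
        sym ρ.1 (b (Fin.last s) : Eis) ≠ 0 →
        BOk ((n : ℤ) * q) ∧ (∀ i : Fin s, Adm ((n : ℤ) * q) (b i.castSucc)) ∧
        (∀ i j, Mat (rv b) (rs P) (rs Q) (rs P') (rs Q') ((n : ℤ) * q) i j =
          - Mat (rv b) (rs P) (rs Q) (rs P') (rs Q') ((n : ℤ) * q) j i) ∧
        ((∃ X Y : ℚ, X ^ 3 + Y ^ 3 = (n : ℚ) * q) →
          (Mat (rv b) (rs P) (rs Q) (rs P') (rs Q') ((n : ℤ) * q)).det = 0)) :
    ∃ (S S' : Set ℕ) (N : ℕ), RI.DensityGE (S ∪ S') (2 * rh (k - 1) / 3 ^ (k + m + 1)) ∧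
      (∀ q, q.Prime → q ∈ S' → q ∈ {q : ℕ | InClS π (-w0) (-c) q}) ∧
      (∀ q, q.Prime → N < q → q ∈ S → q ∈ TS n π w0 c) ∧
      ∀ q, q.Prime → N < q → q ∈ S ∨ q ∈ S' → q % 3 = 1 ∧ ∃ ρ : PP,
        (q : Eis) = ρ.1 * conj ρ.1 ∧ (¬ ρ.1 ∣ (n : Eis) →
          ∃ ε : ZMod 3, ε ≠ 0 ∧ ∀ i, sym ρ.1 (v i : Eis) = ε * δ i) := by
  obtain ⟨s, b, P, Q, P', Q', hs, hsys, hb, hρ, hq⟩ := hδ
  have hn : 0 < n := pos_of_nf hNF
  have h3 : ¬ 3 ∣ n := three_of_nf hNF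
  have hD : ∀ j i : Fin s, ∃ f₀ : ℕ, 0 < f₀ ∧ ∀ F : ℕ, 0 < F → f₀ ∣ F →
      ∃ (C : ZMod 3) (Φ : (ZMod F)ˣ →* Multiplicative (ZMod 3)) (N₀ : ℕ), j ≠ i →
        ∀ (q : ℕ) (hQ : q.Coprime F) (ρ : PP), q.Prime → N₀ < q → q % 3 = 1 →
          (q : Eis) = ρ.1 * conj ρ.1 → BOk ((n : ℤ) * q) →
          Adm ((n : ℤ) * q) (b j.castSucc) → Adm ((n : ℤ) * q) (b i.castSucc) →
          ∀ t : ℤ, (q : ℤ) ∣ t ^ 3 - b j.castSucc →
          OO ((n : ℤ) * q) (b j.castSucc) (b i.castSucc) (rs P j i) (rs Q j i) (rs P' j i)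
            (rs Q' j i) = C + (Φ (ZMod.unitOfCoprime q hQ)).toAdd +
              TAUVS ρ.1 (rs P j i) (rs Q j i) (rs P' j i) (rs Q' j i) t := by
    intro j i
    by_cases hji : j = i
    · exact ⟨1, one_pos, fun F _ _ => ⟨0, 1, 0, fun h => absurd hji h⟩⟩
    · obtain ⟨f₀, hf₀, h⟩ := hDCONSTS n (b j.castSucc) (b i.castSucc) (rs P j i) (rs Q j i)
        (rs P' j i) (rs Q' j i) hn h3
        (hsys.sol j.castSucc i.castSucc fun h => hji (Fin.castSucc_injective _ h)) (hb _) (hb _)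
      refine ⟨f₀, hf₀, fun F hF hd => ?_⟩
      obtain ⟨C, Φ, N₀, h'⟩ := h F hF hd
      exact ⟨C, Φ, N₀, fun _ => h'⟩
  choose f₀ hf₀ hD1 using hD
  obtain ⟨F, hF, h9, hpF, hfF⟩ : ∃ F : ℕ, 0 < F ∧ 9 ∣ F ∧ (∀ i, p i ∣ F) ∧ ∀ j i, f₀ j i ∣ F := by
    refine ⟨9 * (∏ i, p i) * ∏ j, ∏ i, f₀ j i, ?_, ?_, ?_, ?_⟩
    · have h1 : 0 < ∏ i, p i := Finset.prod_pos fun i _ => (hNF.pp i).pos
      have h2 : 0 < ∏ j, ∏ i, f₀ j i :=
        Finset.prod_pos fun j _ => Finset.prod_pos fun i _ => hf₀ j i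
      positivity
    · exact Dvd.dvd.mul_right (Dvd.intro _ rfl) _
    · intro i
      exact Dvd.dvd.mul_right (Dvd.dvd.mul_left (Finset.dvd_prod_of_mem p (mem_univ i)) _) _
    · intro j i
      exact Dvd.dvd.mul_left ((Finset.dvd_prod_of_mem (fun i => f₀ j i) (mem_univ i)).trans
        (Finset.dvd_prod_of_mem (fun j => ∏ i, f₀ j i) (mem_univ j))) _
  choose C Φ N₀ hD2 using fun j i => hD1 j i F hF (hfF j i)
  obtain ⟨κ, hκ, hcount⟩ := hCLSC m π p hNF.pp hNF.p1 hNF.pπ hNF.pinj F hF h9 hpF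
  have hcount' := hCLSCS F m κ hF h9 hcount
  have heven : Even s := by
    rw [← hs] at hk
    rcases hk with ⟨t, ht⟩
    exact ⟨t, by omega⟩
  have hc0 : (Fin.cons w0 c : Fin (m + 1) → ZMod 3) ≠ 0 := by
    intro h
    rcases hw0 with h1 | h1
    · apply h1
      have := congrFun h 0
      simpa using this
    · apply h1
      funext i
      have := congrFun h i.succ
      simpa using this
  have hdens := hDENSS s b P Q P' Q' F m κ (Fin.cons w0 c) C (assemble Φ) hsys heven hF h9 hc0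
    hcount'
  have hN : ∀ j i, N₀ j i ≤ ∑ j, ∑ i, N₀ j i := by
    intro j i
    exact (Finset.single_le_sum (f := fun i => N₀ j i) (fun i _ => Nat.zero_le _)
      (mem_univ i)).trans (Finset.single_le_sum (f := fun j => ∑ i, N₀ j i)
        (fun j _ => Nat.zero_le _) (mem_univ j))
  have hk1 : k - 1 = s := by omega
  have hk2 : k + m + 1 = s + m + 2 := by omega
  rw [hk1, hk2]
  refine ⟨SSS b P Q P' Q' κ (Fin.cons w0 c) C (assemble Φ),
    {Q : ℕ | ∃ (hQ : Q.Coprime F) (ρ : PP), ClQ b κ (-Fin.cons w0 c) Q hQ ρ},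
    n + 3 + ∑ j, ∑ i, N₀ j i, hdens, ?_, ?_, ?_⟩
  · -- the second set is in `R`
    rintro q hqp ⟨hQ, ρ, hq3, hκq, -⟩
    rw [hκ q hQ] at hκq
    refine ⟨hq3, ?_, fun i => ?_⟩
    · have := congrFun hκq 0
      simpa using this
    · have := congrFun hκq i.succ
      simpa using this
  · -- the first set is in `T`
    rintro q hqp hqN ⟨hQ, ρ, ⟨hq3, hκq, hqρ, hb0, hb1⟩, hdet⟩
    rw [hκ q hQ] at hκq
    have hcl : InClS π w0 c q := by
      refine ⟨hq3, ?_, fun i => ?_⟩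
      · have := congrFun hκq 0
        simpa using this
      · have := congrFun hκq i.succ
        simpa using this
    refine ⟨hcl, fun hXY => ?_⟩
    have hqn : ¬ q ∣ n := fun h => by
      have := Nat.le_of_dvd hn h
      omega
    obtain ⟨hB, hA, hskew, hM⟩ := hq q ρ hqp hcl hqn (by omega) hqρ hb0 hb1
    have hM0 := hM hXY
    let τ : Fin s → Fin s → ZMod 3 := fun j i =>
      OO ((n : ℤ) * q) (b j.castSucc) (b i.castSucc) (rs P j i) (rs Q j i) (rs P' j i)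
            (rs Q' j i) - C j i - (Φ j i (ZMod.unitOfCoprime q hQ)).toAdd
    apply hdet τ
    · intro j i hji t ht
      have h1 := hD2 j i hji q hQ ρ hqp (by have := hN j i; omega) hq3 hqρ hB (hA j) (hA i) t ht
      simp only [τ]
      rw [h1]
      ring
    · rw [← hM0]
      congr 1
      ext j i
      have hv : ∀ j i, (C + (assemble Φ (ZMod.unitOfCoprime q hQ)).toAdd + τ) j i =
          OO ((n : ℤ) * q) (b j.castSucc) (b i.castSucc) (rs P j i) (rs Q j i) (rs P' j i)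
            (rs Q' j i) := by
        intro j i
        simp only [Pi.add_apply, τ, assemble_apply]
        ring
      unfold alt
      rw [hv, hv]
      by_cases h1 : j < i
      · rw [if_pos h1]
        unfold Mat
        rw [if_neg h1.ne]
        rfl
      · rw [if_neg h1]
        by_cases h2 : i < j
        · rw [if_pos h2, hskew j i]
          unfold Mat
          rw [if_neg h2.ne]
          rfl
        · rw [if_neg h2]
          have h3 : j = i := le_antisymm (not_lt.1 h2) (not_lt.1 h1)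
          unfold Mat
          rw [if_pos h3]
  · -- the hyperplane
    rintro q hqp hqN (⟨hQ, ρ, ⟨hq3, hκq, hqρ, hb0, hb1⟩, hdet⟩ | ⟨hQ, ρ, hq3, hκq, hqρ, hb0, hb1⟩)
    · exact ⟨hq3, ρ, hqρ, fun hn => hρ ρ hn hb0 hb1⟩
    · exact ⟨hq3, ρ, hqρ, fun hn => hρ ρ hn hb0 hb1⟩

end FCS0

open _root_.Pool.Agent.PT3.FCS0

/-- One class, `3` does not divide `n`, `k` odd. -/
theorem FCS0_thm (hSPLT : SPLT) (hECS0 : ECS0) (hDCONSTS : DCONSTS) (hCLSC : CLSC)
    (hCLSCS : CLSCS) (hDENSS : DENSS) (hDIRS : DIRS) (hDSUM : DSUM) : FCS0 := by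
  intro n m k π p e r f w0 c hNF hk hw0 hwt hdet
  obtain ⟨v, hv, hδ⟩ := hECS0 n m k π p e r f w0 c hNF hk hwt hdet
  have hn : 0 < n := pos_of_nf hNF
  choose S S' N hd hR hT hH using fun δ : {δ : Fin k → ZMod 3 // δ ≠ 0} =>
    one hDCONSTS hCLSC hCLSCS hDENSS hNF hk w0 c v hw0 δ.1 (hδ δ.1 δ.2)
  have hN : ∀ δ, N δ ≤ ∑ δ, N δ := fun δ =>
    Finset.single_le_sum (f := fun δ => N δ) (fun i _ => Nat.zero_le _) (mem_univ δ)
  have hmain := hDSUM {δ : Fin k → ZMod 3 // δ ≠ 0} S S' (TS n π w0 c)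
    {q : ℕ | InClS π (-w0) (-c) q} _ _ (n + ∑ δ, N δ) hd
    (hDIRS m π p hNF.pp hNF.p1 hNF.pπ hNF.pinj (-w0) (-c))
    (fun i q hq _ h => hR i q hq h) (fun i q hq hNq h => hT i q hq (by have := hN i; omega) h) ?_
  · refine dens_mono hmain ?_
    have hcard : ((Fintype.card {δ : Fin k → ZMod 3 // δ ≠ 0} : ℕ) : ℝ) = 3 ^ k - 1 := by
      rw [Fintype.card_subtype_compl, Fintype.card_subtype_eq, Fintype.card_fun, ZMod.card,
        Fintype.card_fin, Nat.cast_sub (Nat.one_le_pow _ _ (by norm_num))]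
      push_cast
      ring
    rw [hcard]
    rcases Nat.eq_zero_or_pos (k - 1) with h0 | h0
    · have hk1 : k = 1 := by
        rcases hk with ⟨t, ht⟩
        omega
      subst hk1
      have : rh (1 - 1) = 1 := by simp [rh]
      rw [this]
      exact num0 m
    · have hk3 : 3 ≤ k := by
        rcases hk with ⟨t, ht⟩
        omega
      have : rh (k - 1) = 5 / 8 := by
        unfold rh
        rw [if_neg (by omega)]
      rw [this]
      exact num1 m k hk3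
  · intro q hqp hNq
    by_cases hex : ∃ i, q ∈ S i ∨ q ∈ S' i
    · obtain ⟨δ₀, h₀⟩ := hex
      obtain ⟨hq3, ρ₀, hqρ₀, hε₀⟩ := hH δ₀ q hqp (by have := hN δ₀; omega) h₀
      have hqn : ¬ q ∣ n := fun h => by
        have := Nat.le_of_dvd hn h
        omega
      have hqv : ∀ i, ¬ (q : ℤ) ∣ v i := fun i h => hqn ((hv i).2 q hqp h)
      obtain ⟨-, -, hσ, hdv, hcj, -⟩ := hSPLT.2 q ρ₀ hqp hq3 hqρ₀
      have hn₀ : ∀ ρ : PP, (q : Eis) = ρ.1 * conj ρ.1 → ¬ ρ.1 ∣ (n : Eis) := by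
        intro ρ hρ h
        obtain ⟨-, -, -, hdv', -, -⟩ := hSPLT.2 q ρ hqp hq3 hρ
        have h1 : ρ.1 ∣ ((n : ℤ) : Eis) := by
          rwa [Int.cast_natCast]
        exact hqn (Int.natCast_dvd_natCast.1 ((hdv' n).1 h1))
      obtain ⟨ε₀, hε₀0, hε₀v⟩ := hε₀ (hn₀ ρ₀ hqρ₀)
      refine ⟨δ₀, ⟨-δ₀.1, neg_ne_zero.2 δ₀.2⟩, fun δ h => ?_⟩
      obtain ⟨-, ρ, hqρ, hε⟩ := hH δ q hqp (by have := hN δ; omega) h
      obtain ⟨ε, hε0, hεv⟩ := hε (hn₀ ρ hqρ)
      rcases hσ ρ ⟨conj ρ.1, hqρ⟩ with h1 | h1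
      · rcases line δ₀.1 δ.1 hε₀0 hε0 fun i => by rw [← hεv i, ← hε₀v i, h1] with h2 | h2
        · exact Or.inl (Subtype.ext h2)
        · exact Or.inr (Subtype.ext h2)
      · rcases line δ₀.1 δ.1 (neg_ne_zero.2 hε₀0) hε0 fun i => by
          have h3 := hcj (v i : Eis) fun h => hqv i ((hdv (v i)).1 h)
          rw [← hεv i, h1, neg_mul, ← hε₀v i, ← h3]
          congr 1
          exact (conj_intCast _).symm with h2 | h2
        · exact Or.inl (Subtype.ext h2)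
        · exact Or.inr (Subtype.ext h2)
    · have : Nonempty {δ : Fin k → ZMod 3 // δ ≠ 0} := by
        refine ⟨fun _ => 1, fun h => ?_⟩
        have h1 := congrFun h ⟨0, hk.pos⟩
        exact one_ne_zero h1
      obtain ⟨i⟩ := this
      exact ⟨i, i, fun j hj => absurd ⟨j, hj⟩ hex⟩

end Pool.Agent.PT3


end

section

/-!
# FDKT: first descent, a primitive solution of `x^3 + y^3 = B z^3`, `B` divisible by `3`
-/

open NumberField IsDedekindDomain Finset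
open scoped nonZeroDivisors Pointwise

namespace Pool.Agent.PT3

open Pool.Agent.Lib_helper18 Pool.Agent.Lib_helper18.Eis Pool.Agent.Lib_helper84.Cub
open Pool.Agent.PT Pool.Agent.PTE

namespace FDKT

theorem cube_sub (t : ℤ) : (3 : ℤ) ∣ t ^ 3 - t := by
  have h : t % 3 = 0 ∨ t % 3 = 1 ∨ t % 3 = 2 := by omega
  have e := Int.emod_add_mul_ediv t 3
  rcases h with h | h | h
  · rw [h] at e
    refine ⟨9 * (t / 3) ^ 3 - t / 3, ?_⟩
    obtain ⟨k, hk⟩ : ∃ k, k = t / 3 := ⟨_, rfl⟩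
    rw [← hk] at e ⊢
    rw [← e]
    ring
  · rw [h] at e
    refine ⟨9 * (t / 3) ^ 3 + 9 * (t / 3) ^ 2 + 2 * (t / 3), ?_⟩
    obtain ⟨k, hk⟩ : ∃ k, k = t / 3 := ⟨_, rfl⟩
    rw [← hk] at e ⊢
    rw [← e]
    ring
  · rw [h] at e
    refine ⟨9 * (t / 3) ^ 3 + 18 * (t / 3) ^ 2 + 11 * (t / 3) + 2, ?_⟩
    obtain ⟨k, hk⟩ : ∃ k, k = t / 3 := ⟨_, rfl⟩
    rw [← hk] at e ⊢
    rw [← e]
    ring

theorem dvd27 {B x y z : ℤ} (h3 : (3 : ℤ) ∣ B) (h9 : ¬ (9 : ℤ) ∣ B) (hxy : IsCoprime x y)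
    (h : x ^ 3 + y ^ 3 = B * z ^ 3) : (27 : ℤ) ∣ x + y ∧ ¬ (3 : ℤ) ∣ y := by
  have p3 : Prime (3 : ℤ) := Int.prime_three
  have hs : (3 : ℤ) ∣ x + y := by
    have h1 := cube_sub x
    have h2 := cube_sub y
    have h4 : (3 : ℤ) ∣ x ^ 3 + y ^ 3 := by
      rw [h]
      exact h3.mul_right _
    have e : x + y = (x ^ 3 + y ^ 3) - (x ^ 3 - x) - (y ^ 3 - y) := by ring
    rw [e]
    exact (h4.sub h1).sub h2
  have hy : ¬ (3 : ℤ) ∣ y := by
    intro hy
    have hx : (3 : ℤ) ∣ x := (dvd_add_left hy).1 hs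
    exact p3.not_isUnit (hxy.isUnit_of_dvd' hx hy)
  have hx : ¬ (3 : ℤ) ∣ x := by
    intro hx
    exact hy ((dvd_add_right hx).1 hs)
  refine ⟨?_, hy⟩
  obtain ⟨t, ht⟩ := hs
  obtain ⟨B', hB'⟩ := h3
  have hB3 : ¬ (3 : ℤ) ∣ B' := by
    rintro ⟨c, hc⟩
    exact h9 ⟨c, by rw [hB', hc]; ring⟩
  have hU : ¬ (3 : ℤ) ∣ 3 * t ^ 2 - x * y := by
    intro hU
    have h5 : (3 : ℤ) ∣ x * y := by
      have e : x * y = 3 * t ^ 2 - (3 * t ^ 2 - x * y) := by ring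
      rw [e]
      exact (dvd_mul_right _ _).sub hU
    rcases p3.dvd_or_dvd h5 with h6 | h6
    · exact hx h6
    · exact hy h6
  have e1 : 3 * (t * (3 * t ^ 2 - x * y)) = B' * z ^ 3 := by
    have hy' : y = 3 * t - x := by linarith
    have h5 : x ^ 3 + y ^ 3 = 3 * (B' * z ^ 3) := by rw [h, hB']; ring
    have h6 : x ^ 3 + y ^ 3 = 3 * (3 * (t * (3 * t ^ 2 - x * y))) := by
      rw [hy']
      ring
    have h7 : (3 : ℤ) * (3 * (t * (3 * t ^ 2 - x * y))) = 3 * (B' * z ^ 3) := by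
      rw [← h6, h5]
    exact mul_left_cancel₀ (by norm_num) h7
  have hz : (3 : ℤ) ∣ z := by
    have h5 : (3 : ℤ) ∣ B' * z ^ 3 := ⟨_, e1.symm⟩
    rcases p3.dvd_or_dvd h5 with h6 | h6
    · exact absurd h6 hB3
    · exact p3.dvd_of_dvd_pow h6
  obtain ⟨z', hz'⟩ := hz
  have e2 : t * (3 * t ^ 2 - x * y) = 9 * (B' * z' ^ 3) := by
    have h5 : (3 : ℤ) * (t * (3 * t ^ 2 - x * y)) = 3 * (9 * (B' * z' ^ 3)) := by
      rw [e1, hz']
      ring
    exact mul_left_cancel₀ (by norm_num) h5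
  have h6 : (9 : ℤ) ∣ t * (3 * t ^ 2 - x * y) := ⟨_, e2⟩
  have h7 : IsCoprime (9 : ℤ) (3 * t ^ 2 - x * y) := by
    have h8 : IsCoprime (3 : ℤ) (3 * t ^ 2 - x * y) := (Prime.coprime_iff_not_dvd p3).2 hU
    have h10 := h8.pow_left (m := 2)
    norm_num at h10
    exact h10
  obtain ⟨c, hc⟩ := h7.dvd_of_dvd_mul_right h6
  exact ⟨c, by rw [ht, hc]; ring⟩

theorem lam_eq : lam = 1 - w := by
  ext <;> simp [lam]

theorem lam_six : lam ^ 6 = -27 := by
  rw [lam_eq]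
  linear_combination (w ^ 4 - 7 * w ^ 3 + 21 * w ^ 2 - 34 * w + 28) * w_rel

theorem wild (hSLC : SLC) {x y : ℤ} (h27 : (27 : ℤ) ∣ x + y) (hy : ¬ (3 : ℤ) ∣ y) (c : Eis)
    (hc : c ≠ 0) :
    sl (w ^ 2 * (((x : Eis) + w * y) * ((x : Eis) + w ^ 2 * y) ^ 2)) c = 0 := by
  obtain ⟨k, hk⟩ := h27
  have hl : Prime lam := hSLC.prime
  have hly : ¬ lam ∣ (y : Eis) := by
    rw [lam_dvd_iff]
    simp only [intCast_re, intCast_im, add_zero]
    exact hy
  have hy0 : (y : Eis) ≠ 0 := fun h0 => hly (by rw [h0]; exact dvd_zero _)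
  have ha0 : -((y : Eis) * lam) ≠ 0 := neg_ne_zero.2 (mul_ne_zero hy0 hl.ne_zero)
  have hx : (x : Eis) = lam ^ 6 * (-k : Eis) - y := by
    have h1 : (x : Eis) + y = 27 * k := by
      have := congrArg (fun t : ℤ => (t : Eis)) hk
      push_cast at this
      exact this
    rw [lam_six]
    linear_combination h1
  have hF1 : (x : Eis) + w * y = lam ^ 6 * (-k : Eis) - y * lam := by
    rw [hx]
    rw [lam_eq]
    ring
  have hF2 : (x : Eis) + w ^ 2 * y = lam ^ 6 * (-k : Eis) + w ^ 2 * y * lam := by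
    rw [hx]
    rw [lam_eq]
    linear_combination (y : Eis) * w_cube
  have hV : V lam ((-((y : Eis) * lam)) ^ 3) = 3 := by
    rw [V_pow hl ha0, V_neg, V_mul hl hy0 hl.ne_zero, V_eq_zero hly, V_self]
  have hd : lam ^ (V lam ((-((y : Eis) * lam)) ^ 3) + 4) ∣
      w ^ 2 * (((x : Eis) + w * y) * ((x : Eis) + w ^ 2 * y) ^ 2) - (-((y : Eis) * lam)) ^ 3 := by
    rw [hV, hF1, hF2]
    refine ⟨lam * ((-k : Eis) * (w ^ 2 * lam ^ 10 * (-k : Eis) ^ 2 +
      2 * w ^ 4 * lam ^ 5 * (-k : Eis) * y + w ^ 6 * (y : Eis) ^ 2 -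
      w ^ 2 * y * lam ^ 5 * (-k : Eis) - 2 * w ^ 4 * (y : Eis) ^ 2)), ?_⟩
    linear_combination (-(w ^ 3 + 1) * ((y : Eis) * lam) ^ 3) * w_cube
  rw [LSym.cont hSLC _ _ c (pow_ne_zero 3 ha0) hc hd, PT.F2B.s_pow hSLC ha0 hc]
  have h3 : ((3 : ℕ) : ZMod 3) = 0 := rfl
  rw [h3, zero_mul]

theorem three_ne : (3 : Eis) ≠ 0 := by
  intro h
  have := congrArg Eis.re h
  revert this
  decide

theorem four_ne : (4 : Eis) ≠ 0 := by
  intro h
  have := congrArg Eis.re h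
  revert this
  decide

end FDKT

open PT.FDK in
theorem FDKT_thm (hSTM : STM) (hSPP : SPP) (hSTAR : STAR) (hSLC : SLC) (hSSL : SSL) (hSCJ : SCJ) :
    FDKT := by
  intro B x y z hB hM hxy hz hxyz
  have hB0 : (B : Eis) ≠ 0 := cast_ne hB.ne
  have hz0 : (z : Eis) ≠ 0 := cast_ne hz
  obtain ⟨F, hF⟩ : ∃ F : ℕ → Eis, F = fun i => (x : Eis) + w ^ i * 1 * y := ⟨_, rfl⟩
  have hF0 : F 0 = (x : Eis) + y := by rw [hF]; ring
  have hF1 : F 1 = (x : Eis) + w * y := by rw [hF]; ring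
  have hF2 : F 2 = (x : Eis) + w ^ 2 * y := by rw [hF]; ring
  have hcast : (x : Eis) ^ 3 + (y : Eis) ^ 3 = B * (z : Eis) ^ 3 := by
    have := congrArg (fun t : ℤ => (t : Eis)) hxyz
    push_cast at this
    exact this
  have hprod : F 0 * F 1 * F 2 = (B : Eis) * (z : Eis) ^ 3 := by
    rw [← hcast, hF0, hF1, hF2]
    linear_combination ((x : Eis) ^ 2 * y + x * y ^ 2) * w_rel + ((x : Eis) * y ^ 2 + y ^ 3) * w_cube
  have hne : F 0 * F 1 * F 2 ≠ 0 := by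
    rw [hprod]
    exact mul_ne_zero hB0 (pow_ne_zero _ hz0)
  have h0 : F 0 ≠ 0 := left_ne_zero_of_mul (left_ne_zero_of_mul hne)
  have h1 : F 1 ≠ 0 := right_ne_zero_of_mul (left_ne_zero_of_mul hne)
  have h2 : F 2 ≠ 0 := right_ne_zero_of_mul hne
  have hc1 : conj (F 1) = F 2 := by
    rw [hF1, hF2, map_add, map_mul, conj_intCast, conj_intCast, conj_w]
  have hc2 : conj (F 2) = F 1 := by rw [← hc1, conj_conj]
  have hw0 : w ≠ 0 := fun h => by
    have := w_cube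
    rw [h] at this
    norm_num at this
  have hFall : ∀ i, F i ≠ 0 := by
    intro i
    have hi : F i = F (i % 3) := by
      have : w ^ i = w ^ (i % 3) := by
        conv_lhs => rw [← Nat.div_add_mod i 3, pow_add, pow_mul, w_cube, one_pow, one_mul]
      rw [hF]
      simp only [this]
    rw [hi]
    have h3 : i % 3 < 3 := Nat.mod_lt _ (by norm_num)
    interval_cases (i % 3)
    · exact h0
    · exact h1
    · exact h2
  -- the element
  obtain ⟨ζ, hζ⟩ : ∃ ζ : Eis, ζ = w ^ 2 * (F 1 * F 2 ^ 2) := ⟨_, rfl⟩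
  have hζ0 : ζ ≠ 0 := by
    rw [hζ]
    exact mul_ne_zero (pow_ne_zero _ hw0) (mul_ne_zero h1 (pow_ne_zero _ h2))
  have hζn : ζ * conj ζ = (F 1 * F 2) ^ 3 := by
    rw [hζ, map_mul, map_mul, map_pow, map_pow, hc1, hc2, conj_w]
    linear_combination ((F 1 * F 2) ^ 3 * (w ^ 3 + 1)) * w_cube
  have htm : ∀ π : PP, tm π.1 ζ (B : Eis) = 0 := by
    intro π
    have hs := hSTM π.1 π.2.1 (hSPP.2.2.2.1 π).1
    obtain ⟨hst, -⟩ := hSTAR π.1 (tm π.1) 1 hs x y 0 0 1 F (fun _ => 0 + w ^ 0 * 1 * 0)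
      (fun i => (x : Eis) * 0 - w ^ i * 0 * y) (fun i => by rw [hF]) (fun i => by ring)
      (fun i => by ring) one_ne_zero hFall
    have hz3 : (z : Eis) ^ 3 ≠ 0 := pow_ne_zero _ hz0
    have hr : ∀ a : Eis, a ≠ 0 → tm π.1 a (F 0 * F 1 * F 2) = tm π.1 a (B : Eis) := by
      intro a ha
      rw [hprod, right_mul hs ha hB0 hz3, pow_succ, right_mul hs ha (pow_ne_zero _ hz0) hz0,
        pow_two, right_mul hs ha hz0 hz0]
      have h3 : (3 : ZMod 3) = 0 := rfl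
      linear_combination (tm π.1 a z) * h3
    rw [hr _ h1, hr _ h2, hr _ hw0] at hst
    rw [hζ, hs.mul _ _ _ (pow_ne_zero _ hw0) (mul_ne_zero h1 (pow_ne_zero _ h2)) hB0,
      hs.mul _ _ _ h1 (pow_ne_zero _ h2) hB0, pow_two, pow_two, hs.mul _ _ _ hw0 hw0 hB0,
      hs.mul _ _ _ h2 h2 hB0]
    have h3 : (3 : ZMod 3) = 0 := rfl
    linear_combination hst + (tm π.1 w B + tm π.1 (F 2) B) * h3
  have hV : ∀ π : PP, ¬ π.1 ∣ (B : Eis) → 3 ∣ V π.1 ζ := by
    intro π hπB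
    have hπ := π.2.1
    have h3 : ¬ π.1 ∣ 3 := (hSPP.2.2.2.1 π).1
    have hsum : V π.1 (F 0) + V π.1 (F 1) + V π.1 (F 2) = 3 * V π.1 (z : Eis) := by
      rw [← V_mul hπ h0 h1, ← V_mul hπ (mul_ne_zero h0 h1) h2, hprod,
        V_mul_not_dvd hπ hπB (pow_ne_zero _ hz0), V_pow hπ hz0]
    have hd1 : (1 - w) ∣ (3 : Eis) := ⟨_, three_fac⟩
    have h01 : ¬ (π.1 ∣ F 0 ∧ π.1 ∣ F 1) := by
      rintro ⟨ha, hb⟩
      refine not_dvd_of hπ h3 hxy hd1 ?_ ?_
      · have : (1 - w) * (x : Eis) = F 1 - w * F 0 := by rw [hF0, hF1]; ring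
        rw [this]
        exact dvd_sub hb (Dvd.dvd.mul_left ha _)
      · have : (1 - w) * (y : Eis) = F 0 - F 1 := by rw [hF0, hF1]; ring
        rw [this]
        exact dvd_sub ha hb
    have h12 : ¬ (π.1 ∣ F 1 ∧ π.1 ∣ F 2) := by
      rintro ⟨ha, hb⟩
      refine not_dvd_of hπ h3 hxy hd1 ?_ ?_
      · have : (1 - w) * (x : Eis) = F 2 - w * F 1 := by rw [hF1, hF2]; ring
        rw [this]
        exact dvd_sub hb (Dvd.dvd.mul_left ha _)
      · have : (1 - w) * (y : Eis) = w ^ 2 * (F 1 - F 2) := by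
          rw [hF1, hF2]
          linear_combination (-(1 - w) * (y : Eis)) * w_cube
        rw [this]
        exact Dvd.dvd.mul_left (dvd_sub ha hb) _
    have hd2 : (1 - w ^ 2) ∣ (3 : Eis) := ⟨1 - w, by rw [three_fac]; ring⟩
    have h02 : ¬ (π.1 ∣ F 0 ∧ π.1 ∣ F 2) := by
      rintro ⟨ha, hb⟩
      refine not_dvd_of hπ h3 hxy hd2 ?_ ?_
      · have : (1 - w ^ 2) * (x : Eis) = F 2 - w ^ 2 * F 0 := by rw [hF0, hF2]; ring
        rw [this]
        exact dvd_sub hb (Dvd.dvd.mul_left ha _)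
      · have : (1 - w ^ 2) * (y : Eis) = F 0 - F 2 := by rw [hF0, hF2]; ring
        rw [this]
        exact dvd_sub ha hb
    have hz0' : V π.1 (F 0) = 0 ∨ V π.1 (F 1) = 0 := by
      by_contra hcon
      push Not at hcon
      apply h01
      constructor
      · by_contra h
        exact hcon.1 (V_eq_zero h)
      · by_contra h
        exact hcon.2 (V_eq_zero h)
    have hz1' : V π.1 (F 1) = 0 ∨ V π.1 (F 2) = 0 := by
      by_contra hcon
      push Not at hcon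
      apply h12
      constructor
      · by_contra h
        exact hcon.1 (V_eq_zero h)
      · by_contra h
        exact hcon.2 (V_eq_zero h)
    have hz2' : V π.1 (F 0) = 0 ∨ V π.1 (F 2) = 0 := by
      by_contra hcon
      push Not at hcon
      apply h02
      constructor
      · by_contra h
        exact hcon.1 (V_eq_zero h)
      · by_contra h
        exact hcon.2 (V_eq_zero h)
    have hw : ¬ π.1 ∣ w ^ 2 := by
      intro h
      apply hπ.not_isUnit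
      apply isUnit_of_dvd_unit h
      exact (IsUnit.of_mul_eq_one (w ^ 2) (by rw [← pow_succ', w_cube])).pow 2
    rw [hζ, V_mul_not_dvd hπ hw (mul_ne_zero h1 (pow_ne_zero _ h2)), V_mul hπ h1 (pow_ne_zero _ h2),
      V_pow hπ h2]
    omega
  have hlam : ¬ (9 : ℤ) ∣ B → sl ζ 3 = 0 ∧ sl ζ 4 = 0 := by
    intro h9
    obtain ⟨h27, hy3⟩ := FDKT.dvd27 hB.t1 h9 hxy hxyz
    rw [hζ, hF1, hF2]
    exact ⟨FDKT.wild hSLC h27 hy3 3 FDKT.three_ne, FDKT.wild hSLC h27 hy3 4 FDKT.four_ne⟩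
  obtain ⟨γ, hγ⟩ := hM ζ (F 1 * F 2) hζ0 hζn htm hV hlam
  have hγ0 : γ ≠ 0 := by
    rintro rfl
    rw [hγ] at hζ0
    exact hζ0 (by norm_num)
  have hcγ0 : conj γ ≠ 0 := by
    intro h
    apply hγ0
    rw [← conj_conj γ, h, map_zero]
  obtain ⟨g, δ, hg, hgδ, hδ⟩ := content hcγ0
  have hm : F 1 * F 2 = ((F 1).norm : Eis) := by rw [← hc1, mul_conj]
  have hn1 : (F 1).norm ≠ 0 := (norm_pos h1).ne'
  refine ⟨δ, (F 1).norm ^ 2 * g ^ 3, γ.norm ^ 3, mul_ne_zero (pow_ne_zero _ hn1)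
    (pow_ne_zero _ hg), pow_ne_zero _ (norm_pos hγ0).ne', hδ, ?_⟩
  have e1 : γ ^ 3 * F 1 = w ^ 2 * (F 1 * F 2) ^ 2 := by
    rw [← hγ, hζ]
    ring
  have e2 : (γ.norm : Eis) = γ * conj γ := (mul_conj γ).symm
  push_cast
  rw [← hF1, e2, ← hm]
  calc (γ * conj γ) ^ 3 * F 1 = (conj γ) ^ 3 * (γ ^ 3 * F 1) := by ring
    _ = (g * δ) ^ 3 * (w ^ 2 * (F 1 * F 2) ^ 2) := by rw [e1, ← hgδ]
    _ = _ := by ring

end Pool.Agent.PT3


end

section

/-!
# TAMG: the tame places, two noncubes or one noncube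
-/

open NumberField IsDedekindDomain Finset
open scoped nonZeroDivisors Pointwise

namespace Pool.Agent.PT3

open Pool.Agent.Lib_helper18 Pool.Agent.Lib_helper18.Eis Pool.Agent.Lib_helper84.Cub
open Pool.Agent.PT Pool.Agent.PTE

namespace TAMG

theorem f2bg (hSTM : STM) (hSPP : SPP) (hLCI : LCI) (hIF2 : IF2) : F2BG := by
  intro π B b x p q p' q' hB hb hx hsol hLb hLx
  have hLSym : LSym π.1 (tm π.1) 1 := hSTM π.1 π.2.1 (hSPP.2.2.2.1 π).1
  have h1 : ¬ (3 ∣ V π.1 (x : Eis) ∧ ch π.1 (x : Eis) = 0) :=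
    fun h => hLx ((hLCI.1 π x hx.ne).2 h)
  obtain ⟨j, hj, hj'⟩ := PT.F2B.tm_smul (hx.sym π) h1
  obtain ⟨N0, hN0⟩ := hIF2 π.1 (tm π.1) 1 hLSym b x p q p' q' hb.ne hx.ne hsol
  refine ⟨N0, fun r hr => ?_⟩
  have h2 := hN0 r hr
  have h3 : AS (tm π.1) (B : Eis) p q p' q' r = j * AS (tm π.1) (x : Eis) p q p' q' r := by
    unfold AS
    rw [hj, hj, hj, hj]
    ring
  rw [h3, h2, hj, hj, hj']
  ring

open PT.F3R in
theorem f3rg (hSTM : STM) : F3RG := by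
  intro π B b x p q p' q' hB hb hx hs hdvd hVb hVx
  have hπ : Prime π.1 := π.2.1
  have h3 := not_dvd_three π
  have S := hSTM π.1 hπ h3
  have B0 : (B : Eis) ≠ 0 := ne_zero_cast hB.ne
  have b0 : (b : Eis) ≠ 0 := ne_zero_cast hb.ne
  have x0 : (x : Eis) ≠ 0 := ne_zero_cast hx.ne
  have w0 : w ≠ 0 := isUnit_w.ne_zero
  have Vw : V π.1 w = 0 := V_eq_zero (not_dvd_of_isUnit hπ isUnit_w)
  have tw : ∀ y : Eis, tm π.1 w y = (V π.1 y : ZMod 3) * ch π.1 w := by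
    intro y
    unfold tm
    rw [Vw]
    push_cast
    ring
  have hv : (V π.1 (B : Eis) : ZMod 3) ≠ 0 := by
    rw [Ne, ← three_dvd_iff']
    have h1 : V π.1 (B : Eis) ≠ 0 := fun h => V_eq_zero_iff.1 h hdvd
    have h2 := hB.cf π
    omega
  have hβ : (V π.1 (b : Eis) : ZMod 3) ≠ 0 := by rwa [Ne, ← three_dvd_iff']
  have hξ : (V π.1 (x : Eis) : ZMod 3) ≠ 0 := by rwa [Ne, ← three_dvd_iff']
  have skw : ∀ a c : Eis, tm π.1 a c = - tm π.1 c a := by
    intro a c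
    unfold tm
    ring
  have e3 : ∀ n : ℕ, ((3 * n : ℕ) : ZMod 3) = 0 := fun n => (three_dvd_iff' _).1 ⟨n, rfl⟩
  -- the valuations of the four terms
  have c1 : (p : Eis) ^ 3 ≠ 0 → (V π.1 ((p : Eis) ^ 3) : ZMod 3) = 0 := by
    intro h
    have h1 : (p : Eis) ≠ 0 := fun h' => h (by rw [h']; ring)
    rw [V_pow hπ h1, e3]
  have c2 : (b : Eis) * (q : Eis) ^ 3 ≠ 0 →
      (V π.1 ((b : Eis) * (q : Eis) ^ 3) : ZMod 3) = V π.1 (b : Eis) := by
    intro h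
    have h1 : (q : Eis) ≠ 0 := fun h' => h (by rw [h']; ring)
    rw [V_mul hπ b0 (pow_ne_zero _ h1), V_pow hπ h1, Nat.cast_add, e3, add_zero]
  have c3 : -((x : Eis) * (p' : Eis) ^ 3) ≠ 0 →
      (V π.1 (-((x : Eis) * (p' : Eis) ^ 3)) : ZMod 3) = V π.1 (x : Eis) := by
    intro h
    have h1 : (p' : Eis) ≠ 0 := fun h' => h (by rw [h']; ring)
    rw [V_neg, V_mul hπ x0 (pow_ne_zero _ h1), V_pow hπ h1, Nat.cast_add, e3, add_zero]
  have c4 : -((x : Eis) * (b : Eis) * (q' : Eis) ^ 3) ≠ 0 →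
      (V π.1 (-((x : Eis) * (b : Eis) * (q' : Eis) ^ 3)) : ZMod 3) =
        V π.1 (x : Eis) + V π.1 (b : Eis) := by
    intro h
    have h1 : (q' : Eis) ≠ 0 := fun h' => h (by rw [h']; ring)
    rw [V_neg, V_mul hπ (mul_ne_zero x0 b0) (pow_ne_zero _ h1), V_mul hπ x0 b0, V_pow hπ h1,
      Nat.cast_add, e3, add_zero, Nat.cast_add]
  have heq : (p : Eis) ^ 3 + (b : Eis) * (q : Eis) ^ 3 =
      (x : Eis) * ((p' : Eis) ^ 3 + (b : Eis) * (q' : Eis) ^ 3) := by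
    exact_mod_cast congrArg (Int.cast : ℤ → Eis) hs.eq
  have hn1 : (p : Eis) ^ 3 + (b : Eis) * (q : Eis) ^ 3 ≠ 0 := by
    have := ne_zero_cast hs.n1
    push_cast at this
    exact this
  have hG : ∀ i, Gf p q p' q' i = (q : Eis) * p' - w ^ i * p * q' := fun i => rfl
  have hBxb : ((B * x * b : ℤ) : Eis) = (B : Eis) * x * b := by push_cast; ring
  have hsum : tm π.1 w ((B * x * b : ℤ) : Eis) = ((V π.1 (B : Eis) : ZMod 3) +
      V π.1 (x : Eis) + V π.1 (b : Eis)) * ch π.1 w := by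
    rw [tw, hBxb, V_mul hπ (mul_ne_zero B0 x0) b0, V_mul hπ B0 x0]
    push_cast
    ring
  unfold UV
  rw [hsum, tw, tw, ite3, ite3, Nat.cast_add, Nat.cast_add]
  by_cases hj : (V π.1 (b : Eis) : ZMod 3) = V π.1 (x : Eis)
  · obtain ⟨f1, f2, f3, f4, f5⟩ := four hπ (a := (p : Eis) ^ 3) (b := (b : Eis) * (q : Eis) ^ 3)
      (c := -((x : Eis) * (p' : Eis) ^ 3)) (d := -((x : Eis) * (b : Eis) * (q' : Eis) ^ 3))
      (by linear_combination heq) c1 c2 c3 c4 hβ.symm hξ.symm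
      (by
        rw [← hj]
        intro h
        apply hβ
        linear_combination h + (V π.1 (b : Eis) : ZMod 3) * three_zmod)
      (by
        intro h
        apply hξ
        linear_combination -h)
      (by
        intro h
        apply hβ
        linear_combination -h)
      (fun h => hn1 (by rw [h.1, h.2.1, add_zero]))
    obtain ⟨g1, g2⟩ := cmp hπ (A := -((x : Eis) * b)) (y := (q : Eis) * p') (z := (p : Eis) * q')
      (neg_ne_zero.2 (mul_ne_zero x0 b0)) f1 f2 f3 f4 f5 (by ring) (by ring)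
    have hc : ∀ i, tm π.1 (B : Eis) (Gf p q p' q' i) = tm π.1 (B : Eis) ((q : Eis) * p') := by
      intro i
      rw [skw, skw (B : Eis), S.cont ((q : Eis) * p') (Gf p q p' q' i) (B : Eis) g1 B0]
      have e : Gf p q p' q' i - (q : Eis) * p' = (p : Eis) * q' * (-w ^ i) := by
        rw [hG]
        ring
      rw [e]
      exact Dvd.dvd.mul_right g2 _
    rw [hc, hc, sub_self, zero_add, ← hj]
    exact fin1 _ _ _ hv hβ
  · obtain ⟨f1, f2, f3, f4, f5⟩ := four hπ (a := (b : Eis) * (q : Eis) ^ 3) (b := (p : Eis) ^ 3)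
      (c := -((x : Eis) * (b : Eis) * (q' : Eis) ^ 3)) (d := -((x : Eis) * (p' : Eis) ^ 3))
      (by linear_combination heq) c2 c1 c4 c3 hβ
      (by
        intro h
        apply hξ
        linear_combination -h)
      hj hξ.symm
      (by
        intro h
        apply hβ
        linear_combination h)
      (fun h => hn1 (by rw [h.1, h.2.1, add_zero]))
    obtain ⟨g1, g2⟩ := cmp hπ (A := -((x : Eis) * b)) (y := (p : Eis) * q') (z := (q : Eis) * p')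
      (neg_ne_zero.2 (mul_ne_zero x0 b0)) f1 f2 f3 f4 f5 (by ring) (by ring)
    have hc : ∀ i, tm π.1 (B : Eis) (Gf p q p' q' i) =
        -(tm π.1 (w ^ i) (B : Eis) + tm π.1 (-((p : Eis) * q')) (B : Eis)) := by
      intro i
      have gn : -((p : Eis) * q') ≠ 0 := neg_ne_zero.2 g1
      have wi : w ^ i ≠ 0 := pow_ne_zero _ w0
      have hVi : V π.1 (w ^ i * -((p : Eis) * q')) = V π.1 ((p : Eis) * q') := by
        rw [V_mul hπ wi gn, V_neg, V_eq_zero (not_dvd_of_isUnit hπ (isUnit_w.pow i)), zero_add]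
      rw [skw, ← S.mul _ _ _ wi gn B0,
        S.cont (w ^ i * -((p : Eis) * q')) (Gf p q p' q' i) (B : Eis) (mul_ne_zero wi gn) B0]
      have e : Gf p q p' q' i - w ^ i * -((p : Eis) * q') = (q : Eis) * p' := by
        rw [hG]
        ring
      rw [e, hVi]
      exact g2
    have hw2 : tm π.1 (w ^ 2) (B : Eis) = tm π.1 w (B : Eis) + tm π.1 w (B : Eis) := by
      rw [pow_two, S.mul _ _ _ w0 w0 B0]
    rw [hc, hc, hw2, pow_one, tw]
    have h6 := fin2 _ _ _ (ch π.1 w) hv hβ hξ hj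
    rw [← h6]
    ring

theorem f3ug (hSTM : STM) : F3UG := by
  intro π B b x p q p' q' hB hAb hAx hS hπB hcb hcx
  have hl : Prime π.1 := π.2.1
  have h3 : ¬ π.1 ∣ 3 := by
    intro h
    have h1 := (dvd_three_iff hl).1 h
    have h2 : lam ∣ π.1 := h1.symm.dvd
    rw [lam_dvd_iff] at h2
    have h4 := π.2.2.1
    have h5 := π.2.2.2
    omega
  have hb : ¬ π.1 ∣ (b : Eis) := hAb.unr π hπB
  have hx : ¬ π.1 ∣ (x : Eis) := hAx.unr π hπB
  rw [PT.F3U.ch_eq hb] at hcb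
  rw [PT.F3U.ch_eq hx] at hcx
  have hw : ¬ π.1 ∣ w := not_dvd_of_isUnit hl isUnit_w
  -- the maximal power
  have hpq : ¬ ((p : Eis) = 0 ∧ (q : Eis) = 0) := by
    rintro ⟨h1, h2⟩
    have h1' : p = 0 := by
      have h4 := congrArg Eis.re h1
      simpa using h4
    have h2' : q = 0 := by
      have h4 := congrArg Eis.re h2
      simpa using h4
    apply hS.n1
    rw [h1', h2']
    ring
  obtain ⟨m, P, Q, P', Q', eP, eQ, eP', eQ', hn⟩ :=
    PT.F3U.exists_max (p' := (p' : Eis)) (q' := (q' : Eis)) hl hpq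
  have heq : (p : Eis) ^ 3 + b * (q : Eis) ^ 3 = x * ((p' : Eis) ^ 3 + b * (q' : Eis) ^ 3) := by
    have h1 : ((p ^ 3 + b * q ^ 3 : ℤ) : Eis) = ((x * (p' ^ 3 + b * q' ^ 3) : ℤ) : Eis) := by
      rw [hS.eq]
    push_cast at h1
    exact h1
  have heq2 : P ^ 3 + (b : Eis) * Q ^ 3 = (x : Eis) * (P' ^ 3 + b * Q' ^ 3) := by
    have h0 : (π.1 ^ m) ^ 3 ≠ 0 := pow_ne_zero _ (pow_ne_zero _ hl.ne_zero)
    apply mul_left_cancel₀ h0
    rw [eP, eQ, eP', eQ'] at heq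
    linear_combination heq
  have hV : ∀ i, V π.1 (Gf p q p' q' i) = m + m := by
    intro i
    have e1 : Gf p q p' q' i = π.1 ^ (m + m) * (Q * P' - w ^ i * P * Q') := by
      unfold Gf
      rw [eP, eQ, eP', eQ', pow_add]
      ring
    rw [e1]
    exact V_pow_mul hl _ (PT.F3U.key hl h3 hb hcb hx hcx heq2 hn i)
  have hVB : V π.1 (B : Eis) = 0 := V_eq_zero hπB
  have hVw : V π.1 w = 0 := V_eq_zero hw
  have hVP : V π.1 ((B * x * b : ℤ) : Eis) = 0 := by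
    apply V_eq_zero
    push_cast
    intro h
    rcases hl.dvd_or_dvd h with h1 | h1
    · rcases hl.dvd_or_dvd h1 with h2 | h2
      · exact hπB h2
      · exact hx h2
    · exact hb h1
  unfold UV tm
  rw [hV 1, hV 2, hVB, hVw, hVP]
  simp

end TAMG

theorem TAMG_thm (hSTM : STM) (hSPP : SPP) (hSSL : SSL) (hSLC : SLC) (hSREC : SREC) (hSCJ : SCJ)
    (hLCI : LCI) (hIF2 : IF2) : TAMG :=
  ⟨TAMG.f2bg hSTM hSPP hLCI hIF2, TAMG.f3rg hSTM, TAMG.f3ug hSTM⟩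

end Pool.Agent.PT3


end
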