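import Mathlib
import Pool.Agent.PTDM.C21

/-! Parts: PT.DCNT, PT.EADM, PT.FDC, PT.IF4, PT.MAINT, PT.NFIX, PT.ROOT, PT3.EADT, PT3.EADU, PT3.FDCT, PT3.FIN0, PT3.MAI3 -/

section

/-!
# Prime twists of rank zero: elements with singular matrix in a class of the Galois group
-/

namespace Pool.Agent.PT

open Pool.Agent.Lib_helper18 Pool.Agent.Lib_helper18.Eis Pool.Agent.Lib_helper84.Cub

namespace DCNT

/-- equality of the entries above the diagonal -/
def Up {s : ℕ} (v w : Fin s → Fin s → ZMod 3) : Prop := ∀ j i, j < i → v j i = w j i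

theorem alt_congr {s : ℕ} {v w : Fin s → Fin s → ZMod 3} (h : Up v w) : alt v = alt w := by
  funext j i
  unfold alt
  split_ifs with h1 h2
  · exact h j i h1
  · rw [h i j h2]
  · rfl

open Classical in
/-- Double counting. -/
theorem count {s : ℕ} {G : Type} [Fintype G] (A : Finset G) (t : G → Fin s → Fin s → ZMod 3)
    (hA : ∀ v v' : Fin s → Fin s → ZMod 3,
      (A.filter fun g => Up (t g) v).card = (A.filter fun g => Up (t g) v').card) :
    ∃ N K : ℕ, 0 < K ∧ ∀ P : (Fin s → Fin s → ZMod 3) → Prop,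
      (∀ v w, Up v w → P v → P w) →
      K * (A.filter fun g => P (t g)).card =
        N * (Finset.univ.filter fun v : Fin s → Fin s → ZMod 3 => P v).card := by
  refine ⟨(A.filter fun g => Up (t g) 0).card,
    (Finset.univ.filter fun v : Fin s → Fin s → ZMod 3 => Up 0 v).card, ?_, ?_⟩
  · apply Finset.card_pos.mpr
    exact ⟨0, Finset.mem_filter.mpr ⟨Finset.mem_univ _, fun j i _ => rfl⟩⟩
  · intro P hP
    have hK : ∀ w : Fin s → Fin s → ZMod 3,
        (Finset.univ.filter fun v : Fin s → Fin s → ZMod 3 => Up w v).card =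
          (Finset.univ.filter fun v : Fin s → Fin s → ZMod 3 => Up 0 v).card := by
      intro w
      refine Finset.card_bij (fun v _ => v - w) ?_ ?_ ?_
      · intro v hv
        rw [Finset.mem_filter] at hv ⊢
        refine ⟨Finset.mem_univ _, fun j i hji => ?_⟩
        have := hv.2 j i hji
        simp [this]
      · intro v _ v' _ h
        exact sub_left_injective h
      · intro v hv
        rw [Finset.mem_filter] at hv
        refine ⟨v + w, ?_, add_sub_cancel_right _ _⟩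
        rw [Finset.mem_filter]
        refine ⟨Finset.mem_univ _, fun j i hji => ?_⟩
        have := hv.2 j i hji
        simp only [Pi.zero_apply] at this
        simp [← this]
    have h1 : ∑ v : Fin s → Fin s → ZMod 3, ∑ g ∈ A, (if P v ∧ Up (t g) v then 1 else 0) =
        (A.filter fun g => Up (t g) 0).card *
          (Finset.univ.filter fun v : Fin s → Fin s → ZMod 3 => P v).card := by
      rw [Finset.card_filter (fun v : Fin s → Fin s → ZMod 3 => P v), Finset.mul_sum]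
      refine Finset.sum_congr rfl fun v _ => ?_
      by_cases hv : P v
      · simp only [hv, true_and, if_true, mul_one]
        rw [← Finset.card_filter]
        exact hA v 0
      · simp [hv]
    have h2 : ∑ g ∈ A, ∑ v : Fin s → Fin s → ZMod 3, (if P v ∧ Up (t g) v then 1 else 0) =
        (Finset.univ.filter fun v : Fin s → Fin s → ZMod 3 => Up 0 v).card *
          (A.filter fun g => P (t g)).card := by
      rw [Finset.card_filter (fun g => P (t g)), Finset.mul_sum]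
      refine Finset.sum_congr rfl fun g _ => ?_
      by_cases hg : P (t g)
      · rw [if_pos hg, mul_one, ← hK (t g), Finset.card_filter]
        refine Finset.sum_congr rfl fun v _ => ?_
        refine if_congr ⟨fun h => h.2, fun h => ⟨hP _ _ h hg, h⟩⟩ rfl rfl
      · rw [if_neg hg, mul_zero]
        refine Finset.sum_eq_zero fun v _ => ?_
        rw [if_neg]
        rintro ⟨h3, h4⟩
        exact hg (hP _ _ (fun j i hji => (h4 j i hji).symm) h3)
    rw [← h2, ← h1, Finset.sum_comm]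

end DCNT

open _root_.Pool.Agent.PT.DCNT in
theorem DCNT_thm (hSING : SING) : DCNT := by
  classical
  intro s f G _ _ χ t hs hf hχ ht a C ha
  have hft : Fintype G := Fintype.ofFinite G
  let A : Finset G := Finset.univ.filter fun g => χ g = a
  have hcard : ∀ P : G → Prop, Nat.card {g : G // χ g = a ∧ P g} = (A.filter P).card := by
    intro P
    rw [Nat.card_eq_fintype_card, Fintype.card_subtype, Finset.filter_filter]
  have hA : ∀ v v' : Fin s → Fin s → ZMod 3,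
      (A.filter fun g => Up (t g) v).card = (A.filter fun g => Up (t g) v').card := by
    intro v v'
    rw [← hcard, ← hcard]
    exact ht a v v' ha
  obtain ⟨N, K, hK, hNK⟩ := count A t hA
  have hall : K * A.card = N * Nat.card (Fin s → Fin s → ZMod 3) := by
    have h1 := hNK (fun _ => True) (fun _ _ _ _ => trivial)
    rw [Finset.filter_true, Finset.filter_true, Finset.card_univ] at h1
    rw [h1, Nat.card_eq_fintype_card]
  have hAc : Nat.card {g : G // χ g = a} = A.card := by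
    rw [Nat.card_eq_fintype_card, Fintype.card_subtype]
  have hmain : ∀ P : (Fin s → Fin s → ZMod 3) → Prop, (∀ v w, Up v w → P v → P w) →
      Nat.card {v : Fin s → Fin s → ZMod 3 // P v} =
        Nat.card {v : Fin s → Fin s → ZMod 3 // (alt v).det = 0} →
      8 * Nat.card {g : G // χ g = a ∧ P (t g)} ≤ 3 * Nat.card {g : G // χ g = a} := by
    intro P hP hPc
    have h1 := hNK P hP
    rw [← Fintype.card_subtype, ← Nat.card_eq_fintype_card] at h1
    have h2 := hSING s hs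
    rw [hcard (fun g => P (t g)), hAc]
    have h3 : K * (8 * (A.filter fun g => P (t g)).card) ≤ K * (3 * A.card) := by
      calc K * (8 * (A.filter fun g => P (t g)).card)
          = 8 * (K * (A.filter fun g => P (t g)).card) := by ring
        _ = N * (8 * Nat.card {v : Fin s → Fin s → ZMod 3 // (alt v).det = 0}) := by
            rw [h1, hPc]
            ring
        _ ≤ N * (3 * Nat.card (Fin s → Fin s → ZMod 3)) := Nat.mul_le_mul_left N h2
        _ = 3 * (K * A.card) := by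
            rw [hall]
            ring
        _ = K * (3 * A.card) := by ring
    exact Nat.le_of_mul_le_mul_left h3 hK
  refine ⟨?_, ?_, ?_⟩
  · refine hmain (fun v => (alt (C - v)).det = 0) ?_ ?_
    · intro v w hvw hv
      have h1 : Up (C - w) (C - v) := fun j i hji => by
        simp [hvw j i hji]
      change (alt (C - w)).det = 0
      rw [alt_congr h1]
      exact hv
    · exact Nat.card_congr ((Equiv.subLeft C).subtypeEquiv fun v => Iff.rfl)
  · refine hmain (fun v => (alt (C + v)).det = 0) ?_ ?_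
    · intro v w hvw hv
      have h1 : Up (C + w) (C + v) := fun j i hji => by
        simp [hvw j i hji]
      change (alt (C + w)).det = 0
      rw [alt_congr h1]
      exact hv
    · exact Nat.card_congr ((Equiv.addLeft C).subtypeEquiv fun v => Iff.rfl)
  · have : NeZero f := ⟨hf.ne'⟩
    obtain ⟨g0, hg0⟩ := hχ a
    have h1 : Nat.card {g : G // χ g = a} = Nat.card χ.ker := by
      refine Nat.card_congr ⟨fun g => ⟨g0⁻¹ * g.1, ?_⟩, fun g => ⟨g0 * g.1, ?_⟩, ?_, ?_⟩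
      · rw [MonoidHom.mem_ker, map_mul, map_inv, hg0, g.2, inv_mul_cancel]
      · rw [map_mul, hg0, MonoidHom.mem_ker.mp g.2, mul_one]
      · intro g
        exact Subtype.ext (mul_inv_cancel_left _ _)
      · intro g
        exact Subtype.ext (inv_mul_cancel_left _ _)
    have h2 : χ.ker.index = f.totient := by
      rw [Subgroup.index_ker, MonoidHom.range_eq_top.mpr hχ, Subgroup.card_top,
        Nat.card_eq_fintype_card, ZMod.card_units_eq_totient]
    rw [h1, ← h2, Subgroup.card_mul_index]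

end Pool.Agent.PT


end

section

/-!
# EADM: `AdmC` and `Adm`
-/

set_option autoImplicit false

namespace Pool.Agent.PT

open Pool.Agent.Lib_helper18 Pool.Agent.Lib_helper18.Eis Pool.Agent.Lib_helper84.Cub

namespace EADM

theorem up_eq {π a c : Eis} {k : ℕ} (hπ : Prime π) (hc : ¬ π ∣ c) (ha : a = π ^ k * c) :
    V π a = k ∧ up π a = c := by
  have h1 : V π a = k := by rw [ha]; exact V_pow_mul hπ k hc
  refine ⟨h1, ?_⟩
  unfold up
  rw [h1, ha]
  exact mul_div_cancel_left₀ c (pow_ne_zero _ hπ.ne_zero)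

theorem up_spec {π a : Eis} (hπ : Prime π) (ha : a ≠ 0) :
    a = π ^ V π a * up π a ∧ ¬ π ∣ up π a := by
  obtain ⟨c, hc, hd⟩ := V_split hπ ha
  have h1 := (up_eq hπ hd hc).2
  rw [h1]
  exact ⟨hc, hd⟩

theorem ch_mul {π a b : Eis} (hπ : Prime π) (h3 : ¬ π ∣ 3) (ha : a ≠ 0) (hb : b ≠ 0) :
    ch π (a * b) = ch π a + ch π b := by
  obtain ⟨h1, h2⟩ := up_spec hπ ha
  obtain ⟨h3', h4⟩ := up_spec hπ hb
  have h5 : a * b = π ^ (V π a + V π b) * (up π a * up π b) := by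
    conv_lhs => rw [h1, h3']
    ring
  have h6 : ¬ π ∣ up π a * up π b := fun h => (hπ.dvd_or_dvd h).elim h2 h4
  have h7 := (up_eq hπ h6 h5).2
  unfold ch
  rw [h7, sym_mul hπ h3 h2 h4]

theorem ch_unit {π a : Eis} (hπ : Prime π) (h : ¬ π ∣ a) : ch π a = sym π a := by
  have h1 := (up_eq (k := 0) hπ h (by simp : a = π ^ 0 * a)).2
  unfold ch
  rw [h1]

/-- the rational prime below a prime of `Z[w]` -/
structure Below (π : PP) (p : ℕ) : Prop where
  pr : p.Prime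
  h : (p % 3 = 2 ∧ π.1 = (p : Eis)) ∨
    (p % 3 = 1 ∧ π.1.norm = p ∧ (p : Eis) = π.1 * conj π.1 ∧ ¬ Associated π.1 (conj π.1))

theorem Below.dvd_int {π : PP} {p : ℕ} (h : Below π p) (m : ℤ) :
    π.1 ∣ (m : Eis) ↔ (p : ℤ) ∣ m := by
  have := Fact.mk h.pr
  rcases h.h with ⟨_, h2⟩ | ⟨_, h2, _, _⟩
  · rw [h2]
    have := intCast_dvd_intCast (m := (p : ℤ)) (n := m)
    rwa [Int.cast_natCast] at this
  · exact dvd_intCast_iff h2

theorem Below.dvd_nat {π : PP} {p : ℕ} (h : Below π p) (m : ℕ) :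
    π.1 ∣ (m : Eis) ↔ p ∣ m := by
  have h1 := h.dvd_int (m : ℤ)
  rw [Int.cast_natCast] at h1
  rw [h1]
  exact Int.natCast_dvd_natCast

theorem Below.V_self {π : PP} {p : ℕ} (h : Below π p) : V π.1 (p : Eis) = 1 := by
  rcases h.h with ⟨_, h2⟩ | ⟨_, _, h3, h4⟩
  · rw [← h2]
    exact Lib_helper84.Cub.V_self
  · rw [h3]
    have h5 : ¬ π.1 ∣ conj π.1 := fun h6 =>
      h4 (π.2.1.associated_of_dvd (prime_conj π.2.1) h6)
    have h6 : π.1 * conj π.1 = π.1 ^ 1 * conj π.1 := by rw [pow_one]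
    rw [h6]
    exact V_pow_mul π.2.1 1 h5

theorem natCast_ne {m : ℕ} (hm : m ≠ 0) : (m : Eis) ≠ 0 := by
  intro h
  have := congrArg Eis.re h
  simp only [natCast_re, zero_re] at this
  exact hm (by exact_mod_cast this)

theorem intCast_ne {m : ℤ} (hm : m ≠ 0) : (m : Eis) ≠ 0 := by
  intro h
  have := congrArg Eis.re h
  simp only [intCast_re, zero_re] at this
  exact hm this

theorem Below.V_nat {π : PP} {p : ℕ} (h : Below π p) {m : ℕ} (hm : m ≠ 0) :
    V π.1 (m : Eis) = m.factorization p := by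
  obtain ⟨v, m', hm', rfl⟩ := Nat.exists_eq_pow_mul_and_not_dvd hm p h.pr.ne_one
  have hm0 : m' ≠ 0 := by rintro rfl; exact hm' (dvd_zero _)
  have h1 : ((p ^ v * m' : ℕ) : Eis) = (p : Eis) ^ v * (m' : Eis) := by push_cast; ring
  have hp0 : (p : Eis) ≠ 0 := natCast_ne h.pr.ne_zero
  rw [h1, V_mul π.2.1 (pow_ne_zero _ hp0) (natCast_ne hm0), V_pow π.2.1 hp0, h.V_self,
    V_eq_zero (fun h2 => hm' ((h.dvd_nat m').1 h2)), Nat.factorization_mul
      (pow_ne_zero _ h.pr.ne_zero) hm0, Finsupp.add_apply, h.pr.factorization_pow,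
    Finsupp.single_eq_same, Nat.factorization_eq_zero_of_not_dvd hm']
  ring

theorem C9_iff {m : ℤ} (hm : ¬ (3 : ℤ) ∣ m) : C9 m ↔ wt (m ^ 2) = 0 := by
  have h1 : ∃ k r : ℤ, m = 9 * k + r ∧ (r = 1 ∨ r = 2 ∨ r = 4 ∨ r = 5 ∨ r = 7 ∨ r = 8) :=
    ⟨m / 9, m % 9, by omega, by omega⟩
  obtain ⟨k, r, rfl, hr⟩ := h1
  have h2 : ∀ s t : ℤ, r ^ 2 = 1 + 3 * (3 * s + t) →
      wt ((9 * k + r) ^ 2) = (t : ZMod 3) := by
    intro s t h
    have h3 : (9 * k + r) ^ 2 = 1 + 3 * (3 * (9 * k ^ 2 + 2 * k * r + s) + t) := by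
      linear_combination h
    rw [wt_eq h3]
    push_cast
    have h4 : (3 : ZMod 3) = 0 := by decide
    rw [h4]
    ring
  unfold C9
  rcases hr with rfl | rfl | rfl | rfl | rfl | rfl
  · rw [h2 0 0 (by norm_num)]
    constructor
    · intro _; decide
    · intro _; left; omega
  · rw [h2 0 1 (by norm_num)]
    constructor
    · rintro (h | h) <;> omega
    · intro h; exact absurd h (by decide)
  · rw [h2 1 2 (by norm_num)]
    constructor
    · rintro (h | h) <;> omega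
    · intro h; exact absurd h (by decide)
  · rw [h2 2 2 (by norm_num)]
    constructor
    · rintro (h | h) <;> omega
    · intro h; exact absurd h (by decide)
  · rw [h2 5 1 (by norm_num)]
    constructor
    · rintro (h | h) <;> omega
    · intro h; exact absurd h (by decide)
  · rw [h2 7 0 (by norm_num)]
    constructor
    · intro _; decide
    · intro _; right; omega

section NFs

variable {n m k : ℕ} {π : Fin m → PP} {p e : Fin m → ℕ} {r f : Fin k → ℕ}

theorem n_ne (hN : NF n π p e r f) : n ≠ 0 := by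
  rw [hN.eq]
  exact mul_ne_zero (Finset.prod_ne_zero_iff.2 fun i _ => pow_ne_zero _ (hN.pp i).ne_zero)
    (Finset.prod_ne_zero_iff.2 fun j _ => pow_ne_zero _ (hN.rp j).ne_zero)

theorem prime_dvd (hN : NF n π p e r f) {l : ℕ} (hl : l.Prime) (h : l ∣ n) :
    (∃ i, l = p i) ∨ ∃ j, l = r j := by
  rw [hN.eq] at h
  rcases hl.dvd_mul.1 h with h | h
  · obtain ⟨i, _, hi⟩ := (Prime.dvd_finsetProd_iff hl.prime _).1 h
    exact Or.inl ⟨i, (Nat.prime_dvd_prime_iff_eq hl (hN.pp i)).1 (hl.dvd_of_dvd_pow hi)⟩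
  · obtain ⟨j, _, hj⟩ := (Prime.dvd_finsetProd_iff hl.prime _).1 h
    exact Or.inr ⟨j, (Nat.prime_dvd_prime_iff_eq hl (hN.rp j)).1 (hl.dvd_of_dvd_pow hj)⟩

theorem three_not (hN : NF n π p e r f) : ¬ 3 ∣ n := by
  intro h
  rcases prime_dvd hN Nat.prime_three h with ⟨i, hi⟩ | ⟨j, hj⟩
  · have := hN.p1 i
    omega
  · have := hN.r2 j
    omega

/-- the exponents of `n` are at most `2` -/
theorem fac_le (hN : NF n π p e r f) (l : ℕ) : n.factorization l ≤ 2 := by
  classical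
  have h1 : n.factorization l = (∑ i, if p i = l then e i else 0) +
      ∑ j, if r j = l then f j else 0 := by
    have ha : (∏ i, p i ^ e i) ≠ 0 :=
      Finset.prod_ne_zero_iff.2 fun i _ => pow_ne_zero _ (hN.pp i).ne_zero
    have hb : (∏ j, r j ^ f j) ≠ 0 :=
      Finset.prod_ne_zero_iff.2 fun j _ => pow_ne_zero _ (hN.rp j).ne_zero
    rw [hN.eq, Nat.factorization_mul ha hb, Finsupp.add_apply,
      Nat.factorization_prod fun i _ => pow_ne_zero _ (hN.pp i).ne_zero,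
      Nat.factorization_prod fun j _ => pow_ne_zero _ (hN.rp j).ne_zero,
      Finsupp.finsetSum_apply, Finsupp.finsetSum_apply]
    congr 1
    · refine Finset.sum_congr rfl fun i _ => ?_
      rw [(hN.pp i).factorization_pow, Finsupp.single_apply]
    · refine Finset.sum_congr rfl fun j _ => ?_
      rw [(hN.rp j).factorization_pow, Finsupp.single_apply]
  rw [h1]
  by_cases hp : ∃ i, p i = l
  · obtain ⟨i, rfl⟩ := hp
    rw [Finset.sum_eq_single i (fun i' _ hi' => if_neg fun h => hi' (hN.pinj h))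
      (fun h => absurd (Finset.mem_univ i) h), if_pos rfl,
      Finset.sum_eq_zero fun j _ => if_neg fun h => by
        have h2 := hN.p1 i
        have h3 := hN.r2 j
        rw [h] at h3
        omega]
    have := hN.pe i
    omega
  · have h2 : (∑ i, if p i = l then e i else 0) = 0 :=
      Finset.sum_eq_zero fun i _ => if_neg fun h => hp ⟨i, h⟩
    rw [h2, zero_add]
    by_cases hr : ∃ j, r j = l
    · obtain ⟨j, rfl⟩ := hr
      rw [Finset.sum_eq_single j (fun j' _ hj' => if_neg fun h => hj' (hN.rinj h))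
        (fun h => absurd (Finset.mem_univ j) h), if_pos rfl]
      have := hN.rf j
      omega
    · rw [Finset.sum_eq_zero fun j _ => if_neg fun h => hr ⟨j, h⟩]
      omega

end NFs

end EADM

open _root_.Pool.Agent.PT.EADM in
/-- EADM: `AdmC` and `Adm`. -/
theorem EADM_thm (hSTM : STM) (hSPP : SPP) (hSCJ : SCJ) : EADM := by
  intro n m k π p e r f w0 c q hN hq hcl hqn
  obtain ⟨_, hSPP2, _, hSPP4, _, hSPP6⟩ := hSPP
  obtain ⟨hSCJ1, _, _, hSCJ4⟩ := hSCJ
  obtain ⟨hq3, hqw, hqc⟩ := hcl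
  have hn0 : n ≠ 0 := n_ne hN
  have hn3 : ¬ 3 ∣ n := three_not hN
  have hbelow : ∀ π : PP, ∃ l, Below π l := by
    intro π
    obtain ⟨l, hl, h⟩ := hSPP6 π
    exact ⟨l, hl, h⟩
  have hcast : (((n : ℤ) * (q : ℤ) : ℤ) : Eis) = ((n * q : ℕ) : Eis) := by push_cast; ring
  have hnq0 : n * q ≠ 0 := mul_ne_zero hn0 hq.ne_zero
  have hB0 : (n : ℤ) * (q : ℤ) ≠ 0 := by exact_mod_cast hnq0
  have hB3 : ¬ (3 : ℤ) ∣ (n : ℤ) * (q : ℤ) := by
    intro h
    have h1 : 3 ∣ n * q := by exact_mod_cast h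
    rcases Nat.prime_three.dvd_mul.1 h1 with h2 | h2
    · exact hn3 h2
    · have := (Nat.prime_dvd_prime_iff_eq Nat.prime_three hq).1 h2
      omega
  refine ⟨⟨hB0, hB3, ?_⟩, ?_⟩
  · intro ϖ
    obtain ⟨l, hl⟩ := hbelow ϖ
    rw [hcast, hl.V_nat hnq0, Nat.factorization_mul hn0 hq.ne_zero, Finsupp.add_apply]
    have h1 := fac_le hN l
    by_cases hlq : l = q
    · have h2 : n.factorization l = 0 := by
        rw [hlq]
        exact Nat.factorization_eq_zero_of_not_dvd hqn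
      have h3 : q.factorization l = 1 := by
        rw [hlq]
        exact hq.factorization_self
      omega
    · have h3 : q.factorization l = 0 := by
        apply Nat.factorization_eq_zero_of_not_dvd
        intro h
        exact hlq ((Nat.prime_dvd_prime_iff_eq hl.pr hq).1 h)
      omega
  · intro x hsupp
    -- the conditions at the `π i`
    have key : x ≠ 0 → ∀ i, (V (π i).1 (n : Eis) : ZMod 3) * ch (π i).1 (x : Eis) -
        (V (π i).1 (x : Eis) : ZMod 3) * (ch (π i).1 (n : Eis) + c i) =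
        tm (π i).1 (x : Eis) (((n : ℤ) * (q : ℤ) : ℤ) : Eis) := by
      intro hx i
      obtain ⟨l, hl⟩ := hbelow (π i)
      have hpi : (p i : Eis) = (π i).1 * conj (π i).1 := hN.pπ i
      have hlp : l = p i := by
        have h1 : (π i).1 ∣ (p i : Eis) := by rw [hpi]; exact dvd_mul_right _ _
        exact (Nat.prime_dvd_prime_iff_eq hl.pr (hN.pp i)).1 ((hl.dvd_nat _).1 h1)
      have hq' : ¬ (π i).1 ∣ (q : Eis) := by
        intro h
        have h1 := (Nat.prime_dvd_prime_iff_eq hl.pr hq).1 ((hl.dvd_nat _).1 h)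
        have h2 := hN.p1 i
        rw [← hlp, h1] at h2
        omega
      have h3 : ¬ (π i).1 ∣ 3 := (hSPP4 (π i)).1
      have e1 : (((n : ℤ) * (q : ℤ) : ℤ) : Eis) = (n : Eis) * (q : Eis) := by push_cast; ring
      rw [e1]
      unfold tm
      rw [V_mul (π i).2.1 (natCast_ne hn0) (natCast_ne hq.ne_zero), V_eq_zero hq', add_zero,
        ch_mul (π i).2.1 h3 (natCast_ne hn0) (natCast_ne hq.ne_zero), ch_unit (π i).2.1 hq',
        hqc i]
    have hnine : ¬ (3 : ℤ) ∣ (n : ℤ) := by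
      intro h
      exact hn3 (by exact_mod_cast h)
    have hqq : ¬ (3 : ℤ) ∣ (q : ℤ) := by
      intro h
      have : 3 ∣ q := by exact_mod_cast h
      omega
    have hC : C9 ((n : ℤ) * (q : ℤ)) ↔ wt ((n : ℤ) ^ 2) + w0 = 0 := by
      rw [C9_iff hB3, mul_pow, wt_mul (sq_mod_three hnine) (sq_mod_three hqq), hqw]
    constructor
    · rintro ⟨hx, h3, _, hsym, h9⟩
      refine ⟨hx, h3, ?_, ?_, fun h => h9 (hC.1 h)⟩
      · intro ϖ
        obtain ⟨l, hl⟩ := hbelow ϖ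
        rcases hl.h with ⟨hl3, hl2⟩ | ⟨hl3, hl2, hl4, hl5⟩
        · rw [hl2]
          exact hSCJ4 l hl.pr hl3 x _ hx hB0
        · by_cases hln : l ∣ n
          · rcases prime_dvd hN hl.pr hln with ⟨i, hi⟩ | ⟨j, hj⟩
            · have h4 : ϖ.1 ∣ (π i).1 * conj (π i).1 := by
                rw [← hN.pπ i, ← hi, hl4]
                exact dvd_mul_right _ _
              rcases ϖ.2.1.dvd_or_dvd h4 with h5 | h5
              · have h6 : ϖ = π i :=
                  hSPP2 _ _ (ϖ.2.1.associated_of_dvd (π i).2.1 h5)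
                rw [h6, ← key hx i]
                exact hsym i
              · obtain ⟨ϖ', hϖ'⟩ := (hSPP4 (π i)).2
                have h6 : ϖ = ϖ' := by
                  apply hSPP2
                  rw [hϖ']
                  exact ϖ.2.1.associated_of_dvd (prime_conj (π i).2.1) h5
                rw [h6, hϖ']
                have h7 := hSCJ1 (π i).1 (x : Eis) (((n : ℤ) * (q : ℤ) : ℤ) : Eis) (π i).2.1
                  (hSPP4 (π i)).1 (intCast_ne hx) (intCast_ne hB0)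
                rw [map_intCast, map_intCast] at h7
                rw [h7, ← key hx i, hsym i, neg_zero]
            · have := hN.r2 j
              rw [← hj] at this
              omega
          · have h4 : ¬ ϖ.1 ∣ (x : Eis) := by
              intro h
              exact hln (hsupp l hl.pr ((hl.dvd_int x).1 h))
            have h5 : ¬ ϖ.1 ∣ (((n : ℤ) * (q : ℤ) : ℤ) : Eis) := by
              rw [hcast, hl.dvd_nat]
              intro h
              rcases hl.pr.dvd_mul.1 h with h6 | h6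
              · exact hln h6
              · have := (Nat.prime_dvd_prime_iff_eq hl.pr hq).1 h6
                omega
            unfold tm
            rw [V_eq_zero h4, V_eq_zero h5]
            simp
      · intro ϖ hϖ h
        obtain ⟨l, hl⟩ := hbelow ϖ
        apply hϖ
        rw [hcast, hl.dvd_nat]
        exact (hsupp l hl.pr ((hl.dvd_int x).1 h)).mul_right q
    · rintro ⟨hx, h3, hsym, _, h9⟩
      refine ⟨hx, h3, hsupp, fun i => ?_, fun h => h9 (hC.2 h)⟩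
      rw [key hx i]
      exact hsym (π i)

end Pool.Agent.PT


end

section

/-!
# Splitting into cells
-/

namespace Pool.Agent.PT

open Pool.Agent.Lib_helper18 Pool.Agent.Lib_helper18.Eis Pool.Agent.Lib_helper84.Cub

namespace FDC

/-- cube-free integers -/
def CF (a : ℤ) : Prop := ∀ p : ℤ, Prime p → ¬ p ^ 3 ∣ a

theorem exists_cf (n : ℤ) (hn : n ≠ 0) : ∃ a x : ℤ, n = a * x ^ 3 ∧ CF a := by
  suffices h : ∀ N : ℕ, ∀ n : ℤ, n.natAbs = N → n ≠ 0 → ∃ a x : ℤ, n = a * x ^ 3 ∧ CF a from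
    h _ n rfl hn
  intro N
  induction N using Nat.strong_induction_on with
  | _ N ih =>
    intro n hN hn
    by_cases h : CF n
    · exact ⟨n, 1, by ring, h⟩
    · unfold CF at h
      push Not at h
      obtain ⟨p, hp, c, hc⟩ := h
      have hc0 : c ≠ 0 := by
        rintro rfl
        rw [mul_zero] at hc
        exact hn hc
      have hp2 : 2 ≤ p.natAbs := (Int.prime_iff_natAbs_prime.mp hp).two_le
      have hlt : c.natAbs < N := by
        rw [← hN, hc, Int.natAbs_mul, Int.natAbs_pow]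
        have h1 : 0 < c.natAbs := Int.natAbs_pos.mpr hc0
        have h2 : 1 < p.natAbs ^ 3 := Nat.one_lt_pow (by norm_num) (by omega)
        nlinarith
      obtain ⟨a, x, hax, ha⟩ := ih _ hlt c rfl hc0
      exact ⟨a, p * x, by rw [hc, hax]; ring, ha⟩

theorem CF.mul {a b : ℤ} (ha : CF a) (hb : CF b) (hab : IsCoprime a b) : CF (a * b) := by
  intro p hp h
  by_cases hpa : p ∣ a
  · have h1 : IsCoprime p b := hab.of_isCoprime_of_dvd_left hpa
    exact ha p hp ((h1.pow_left (m := 3)).dvd_of_dvd_mul_right h)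
  · have h1 : IsCoprime p a := (hp.coprime_iff_not_dvd).mpr hpa
    exact hb p hp ((h1.pow_left (m := 3)).dvd_of_dvd_mul_left h)

theorem CF.unit {a d : ℤ} (ha : CF a) (hd : d ^ 3 ∣ a) (hd0 : d ≠ 0) : IsUnit d := by
  by_contra h
  obtain ⟨p, hp, hpd⟩ := WfDvdMonoid.exists_irreducible_factor h hd0
  exact ha p hp.prime ((pow_dvd_pow_of_dvd hpd 3).trans hd)

/-- uniqueness of the cube-free part -/
theorem cf_unique {a b m x : ℤ} (ha : CF a) (hb : CF b) (hm : m ≠ 0) (hx : x ≠ 0)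
    (h : a * m ^ 3 = b * x ^ 3) : b = a ∨ b = -a := by
  obtain ⟨g, m', x', hg, hcop, rfl, rfl⟩ : ∃ g m' x' : ℤ, g ≠ 0 ∧ IsCoprime m' x' ∧
      m = g * m' ∧ x = g * x' := by
    have hg0 : (Int.gcd m x : ℤ) ≠ 0 := by
      have := Int.gcd_pos_of_ne_zero_left x hm
      omega
    obtain ⟨m', hm'⟩ := Int.gcd_dvd_left m x
    obtain ⟨x', hx'⟩ := Int.gcd_dvd_right m x
    refine ⟨Int.gcd m x, m', x', hg0, ?_, hm', hx'⟩
    have h1 := Int.gcd_eq_gcd_ab m x
    refine ⟨Int.gcdA m x, Int.gcdB m x, ?_⟩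
    apply mul_left_cancel₀ hg0
    linear_combination (-1 : ℤ) * h1 - Int.gcdA m x * hm' - Int.gcdB m x * hx'
  have h2 : a * m' ^ 3 = b * x' ^ 3 := by
    apply mul_left_cancel₀ (pow_ne_zero 3 hg)
    linear_combination h
  have hm0 : m' ≠ 0 := by rintro rfl; exact hm (by ring)
  have hx0 : x' ≠ 0 := by rintro rfl; exact hx (by ring)
  have hc3 : IsCoprime (m' ^ 3) (x' ^ 3) := hcop.pow
  have u1 : IsUnit m' := hb.unit (hc3.dvd_of_dvd_mul_right ⟨a, by rw [← h2]; ring⟩) hm0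
  have u2 : IsUnit x' := ha.unit (hc3.symm.dvd_of_dvd_mul_right ⟨b, by rw [h2]; ring⟩) hx0
  rcases Int.isUnit_iff.mp u1 with rfl | rfl <;> rcases Int.isUnit_iff.mp u2 with rfl | rfl
  · left; linarith
  · right; linarith
  · right; linarith
  · left; linarith

/-- the condition on `B` means that `B` is cube-free -/
theorem cf_of_BOk {B : ℤ} (hB : BOk B) : CF B := by
  intro p hp h
  have hp0 : p ≠ 0 := hp.ne_zero
  have hnu : ¬ IsUnit ((p : ℤ) : Eis) := by
    rw [isUnit_iff_norm]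
    intro h1
    have h2 : ((p : ℤ) : Eis).norm = p ^ 2 := by
      rw [Eis.norm]; simp
    rw [h2] at h1
    have : p = 1 ∨ p = -1 := by
      have h3 : (p - 1) * (p + 1) = 0 := by linear_combination h1
      rcases mul_eq_zero.mp h3 with h | h
      · left; linarith
      · right; linarith
    exact hp.not_unit (Int.isUnit_iff.mpr this)
  have hpe : ((p : ℤ) : Eis) ≠ 0 := by
    intro h1
    have := congrArg Eis.re h1
    simp at this
    exact hp0 this
  obtain ⟨l, hlirr, hlt⟩ := WfDvdMonoid.exists_irreducible_factor hnu hpe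
  have hl : Prime l := hlirr.prime
  have hpB : p ∣ B := (dvd_pow_self p (by norm_num)).trans h
  have hl3 : ¬ l ∣ 3 := by
    intro h1
    have h2 : lam ∣ ((B : ℤ) : Eis) := by
      have h3 : ((p : ℤ) : Eis) ∣ ((B : ℤ) : Eis) := by
        obtain ⟨c, rfl⟩ := hpB
        exact ⟨c, by push_cast; ring⟩
      exact (((dvd_three_iff hl).mp h1).symm.dvd.trans hlt).trans h3
    rw [lam_dvd_iff] at h2
    simp at h2
    exact hB.three h2
  obtain ⟨i, hi⟩ := exists_prim (not_lam_dvd_of_prime hl hl3)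
  have hass : Associated (l * w ^ i) l := ⟨(isUnit_w.pow i).unit⁻¹, by
    rw [mul_assoc]; simp⟩
  have hBe : ((B : ℤ) : Eis) ≠ 0 := by
    intro h1
    have := congrArg Eis.re h1
    simp at this
    exact hB.ne this
  have key : ∀ π : Eis, Associated π l → π.re % 3 = 2 → (3 : ℤ) ∣ π.im → False := by
    intro π hπ h1 h2
    have hπp : Prime π := hπ.symm.prime hl
    have h3 := hB.cf ⟨π, hπp, h1, h2⟩
    simp only at h3
    have h4 : π ^ 3 ∣ ((B : ℤ) : Eis) := by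
      have h5 : π ∣ ((p : ℤ) : Eis) := hπ.dvd.trans hlt
      refine (pow_dvd_pow_of_dvd h5 3).trans ?_
      obtain ⟨c, rfl⟩ := h
      exact ⟨c, by push_cast; ring⟩
    have h6 : 3 ≤ V π ((B : ℤ) : Eis) := (fin hπp hBe).le_multiplicity_of_pow_dvd h4
    omega
  obtain ⟨hi1, hi2⟩ := hi
  have h5 : (l * w ^ i).re % 3 = 1 ∨ (l * w ^ i).re % 3 = 2 := by omega
  rcases h5 with h5 | h5
  · refine key (-(l * w ^ i)) (hass.neg_left) ?_ ?_
    · rw [neg_re]; omega
    · rw [neg_im]; omega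
  · exact key _ hass h5 hi1

theorem wt_congr {m n : ℤ} (h : m % 9 = n % 9) : wt m = wt n := by
  obtain ⟨t, ht⟩ : ∃ t, m = n + 9 * t := ⟨(m - n) / 9, by omega⟩
  have h1 : (m - 1) / 3 = (n - 1) / 3 + 3 * t := by omega
  rw [wt, wt, h1]
  push_cast
  have h3 : (3 : ZMod 3) = 0 := by decide
  rw [h3]; ring

/-- three squares modulo `9` with product `1`, two of them equal -/
theorem sq_aux {a b c : ℤ} (ha : ¬ (3 : ℤ) ∣ a) (hc : ¬ (3 : ℤ) ∣ c)
    (h : a ^ 2 % 9 = b ^ 2 % 9) (h1 : (a * b * c) ^ 2 % 9 = 1) : a ^ 2 % 9 = c ^ 2 % 9 := by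
  have e1 : (a ^ 2 * b ^ 2 * c ^ 2) % 9 = 1 := by rw [← h1]; congr 1; ring
  have ra : a ^ 2 % 9 = 1 ∨ a ^ 2 % 9 = 4 ∨ a ^ 2 % 9 = 7 := by
    have : a % 9 = 1 ∨ a % 9 = 2 ∨ a % 9 = 4 ∨ a % 9 = 5 ∨ a % 9 = 7 ∨ a % 9 = 8 := by omega
    rcases this with h | h | h | h | h | h <;> simp [pow_two, Int.mul_emod, h]
  have rc : c ^ 2 % 9 = 1 ∨ c ^ 2 % 9 = 4 ∨ c ^ 2 % 9 = 7 := by
    have : c % 9 = 1 ∨ c % 9 = 2 ∨ c % 9 = 4 ∨ c % 9 = 5 ∨ c % 9 = 7 ∨ c % 9 = 8 := by omega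
    rcases this with h | h | h | h | h | h <;> simp [pow_two, Int.mul_emod, h]
  rw [Int.mul_emod, Int.mul_emod (a ^ 2)] at e1
  rw [← h] at e1
  rcases ra with h2 | h2 | h2 <;> rcases rc with h3 | h3 | h3 <;> rw [h2, h3] at e1 ⊢ <;>
    norm_num at e1

/-- a cube prime to `3` is `± 1` modulo `9` -/
theorem cube_mod {x : ℤ} (hx : ¬ (3 : ℤ) ∣ x) : x ^ 3 % 9 = 1 ∨ x ^ 3 % 9 = 8 := by
  have : x % 9 = 1 ∨ x % 9 = 2 ∨ x % 9 = 4 ∨ x % 9 = 5 ∨ x % 9 = 7 ∨ x % 9 = 8 := by omega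
  rcases this with h | h | h | h | h | h <;> simp [pow_succ, Int.mul_emod, h]

/-- the squares of `a` and `a x^3` modulo `9` -/
theorem sq_cube_mod {a x : ℤ} (hx : ¬ (3 : ℤ) ∣ x) : (a * x ^ 3) ^ 2 % 9 = a ^ 2 % 9 := by
  have h := cube_mod hx
  have e : (a * x ^ 3) ^ 2 = a ^ 2 * (x ^ 3 * x ^ 3) := by ring
  have h1 : (x ^ 3 * x ^ 3) % 9 = 1 := by
    rcases h with h | h <;> simp [Int.mul_emod, h]
  rw [e, Int.mul_emod, h1, mul_one, Int.emod_emod_of_dvd _ (dvd_refl _)]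

/-- if `3` divides one of the three terms, all the squares agree modulo `9` -/
theorem core {a b c x y z : ℤ} (ha : ¬ (3 : ℤ) ∣ a) (hc : ¬ (3 : ℤ) ∣ c)
    (hx : ¬ (3 : ℤ) ∣ x) (hy : ¬ (3 : ℤ) ∣ y) (hz : (3 : ℤ) ∣ z)
    (hs : a * x ^ 3 + b * y ^ 3 + c * z ^ 3 = 0) (h9 : (a * b * c) ^ 2 % 9 = 1) :
    a ^ 2 % 9 = b ^ 2 % 9 ∧ a ^ 2 % 9 = c ^ 2 % 9 := by
  have h1 : a ^ 2 % 9 = b ^ 2 % 9 := by
    rw [← sq_cube_mod (a := a) hx, ← sq_cube_mod (a := b) hy]
    obtain ⟨z', rfl⟩ := hz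
    have : a * x ^ 3 = -(b * y ^ 3) - 27 * (c * z' ^ 3) := by linear_combination hs
    rw [this]
    exact Int.modEq_iff_dvd.mpr ⟨-3 * (c * z' ^ 3) * (2 * (b * y ^ 3) + 27 * (c * z' ^ 3)), by ring⟩
  exact ⟨h1, sq_aux ha hc h1 h9⟩

/-- `3` divides `m` -/
theorem three_dvd {B m a b c : ℤ} (hB : C9 B) (hs : a + b + c = 0) (hp : a * b * c = B * m ^ 3) :
    (3 : ℤ) ∣ m := by
  by_contra hm
  have h1 := cube_mod hm
  have h2 : (B * m ^ 3) % 9 = 1 ∨ (B * m ^ 3) % 9 = 8 := by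
    rcases hB with h | h <;> rcases h1 with h1 | h1 <;> simp [Int.mul_emod, h, h1]
  rw [← hp] at h2
  obtain rfl : c = -(a + b) := by linarith
  have ra : a % 9 = 0 ∨ a % 9 = 1 ∨ a % 9 = 2 ∨ a % 9 = 3 ∨ a % 9 = 4 ∨ a % 9 = 5 ∨ a % 9 = 6 ∨
    a % 9 = 7 ∨ a % 9 = 8 := by omega
  have rb : b % 9 = 0 ∨ b % 9 = 1 ∨ b % 9 = 2 ∨ b % 9 = 3 ∨ b % 9 = 4 ∨ b % 9 = 5 ∨ b % 9 = 6 ∨
    b % 9 = 7 ∨ b % 9 = 8 := by omega
  obtain ⟨a', ha'⟩ : ∃ a', a = a % 9 + 9 * a' := ⟨a / 9, by omega⟩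
  obtain ⟨b', hb'⟩ : ∃ b', b = b % 9 + 9 * b' := ⟨b / 9, by omega⟩
  generalize a % 9 = r at *
  generalize b % 9 = s at *
  have e : (a * b * -(a + b)) % 9 = (r * s * -(r + s)) % 9 := by
    have e1 : a ≡ r [ZMOD 9] := Int.modEq_iff_dvd.mpr ⟨-a', by rw [ha']; ring⟩
    have e2 : b ≡ s [ZMOD 9] := Int.modEq_iff_dvd.mpr ⟨-b', by rw [hb']; ring⟩
    exact (e1.mul e2).mul (e1.add e2).neg
  rw [e] at h2
  rcases ra with rfl | rfl | rfl | rfl | rfl | rfl | rfl | rfl | rfl <;>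
    rcases rb with rfl | rfl | rfl | rfl | rfl | rfl | rfl | rfl | rfl <;> revert h2 <;> decide

theorem not_both {x y : ℤ} (h : IsCoprime x y) (hy : (3 : ℤ) ∣ y) : ¬ (3 : ℤ) ∣ x := by
  intro hx
  obtain ⟨u, v, huv⟩ := h
  have : (3 : ℤ) ∣ 1 := by
    rw [← huv]
    exact dvd_add (Dvd.dvd.mul_left hx _) (Dvd.dvd.mul_left hy _)
  omega

theorem last {B m : ℤ} {A a x : Fin 3 → ℤ} (hB : BOk B) (hs : A 0 + A 1 + A 2 = 0)
    (hp : A 0 * A 1 * A 2 = B * m ^ 3) (hA : ∀ k, A k = a k * x k ^ 3)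
    (ha : ∏ k, a k = B) (hx : ∀ i j, i ≠ j → IsCoprime (x i) (x j)) (h9 : C9 B) :
    ∀ k k', wt (a k ^ 2) = wt (a k' ^ 2) := by
  have hm := three_dvd h9 hs hp
  rw [Fin.prod_univ_three] at ha
  have ha' : ∀ k, ¬ (3 : ℤ) ∣ a k := by
    intro k hk
    apply hB.three
    rw [← ha]
    fin_cases k
    · exact Dvd.dvd.mul_right (Dvd.dvd.mul_right hk _) _
    · exact Dvd.dvd.mul_right (Dvd.dvd.mul_left hk _) _
    · exact Dvd.dvd.mul_left hk _
  have hB9 : B ^ 2 % 9 = 1 := by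
    rcases h9 with h | h <;> simp [pow_two, Int.mul_emod, h]
  have p3 : Prime (3 : ℤ) := Int.prime_three
  have hd : ∀ k, (3 : ℤ) ∣ A k → (3 : ℤ) ∣ x k := by
    intro k hk
    rw [hA k] at hk
    rcases p3.dvd_or_dvd hk with h | h
    · exact absurd h (ha' k)
    · exact p3.dvd_of_dvd_pow h
  have h3 : (3 : ℤ) ∣ A 0 * A 1 * A 2 := by
    rw [hp]
    exact Dvd.dvd.mul_left (Dvd.dvd.pow hm (by norm_num)) _
  have hs' : a 0 * x 0 ^ 3 + a 1 * x 1 ^ 3 + a 2 * x 2 ^ 3 = 0 := by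
    rw [← hA, ← hA, ← hA]; exact hs
  have key : a 0 ^ 2 % 9 = a 1 ^ 2 % 9 ∧ a 0 ^ 2 % 9 = a 2 ^ 2 % 9 := by
    rcases p3.dvd_or_dvd h3 with h | h
    · rcases p3.dvd_or_dvd h with h | h
      · have hz := hd 0 h
        have h1 := not_both (hx 1 0 (by decide)) hz
        have h2 := not_both (hx 2 0 (by decide)) hz
        obtain ⟨r1, r2⟩ := core (a := a 1) (b := a 2) (c := a 0) (ha' 1) (ha' 0) h1 h2 hz
          (by linear_combination hs') (by
            rw [← hB9, ← ha]; congr 1; ring)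
        exact ⟨r2.symm, r2.symm.trans r1⟩
      · have hz := hd 1 h
        have h1 := not_both (hx 0 1 (by decide)) hz
        have h2 := not_both (hx 2 1 (by decide)) hz
        obtain ⟨r1, r2⟩ := core (a := a 0) (b := a 2) (c := a 1) (ha' 0) (ha' 1) h1 h2 hz
          (by linear_combination hs') (by
            rw [← hB9, ← ha]; congr 1; ring)
        exact ⟨r2, r1⟩
    · have hz := hd 2 h
      have h1 := not_both (hx 0 2 (by decide)) hz
      have h2 := not_both (hx 1 2 (by decide)) hz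
      obtain ⟨r1, r2⟩ := core (a := a 0) (b := a 1) (c := a 2) (ha' 0) (ha' 2) h1 h2 hz
        (by linear_combination hs') (by
          rw [← hB9, ← ha])
      exact ⟨r1, r2⟩
  have hall : ∀ k, a k ^ 2 % 9 = a 0 ^ 2 % 9 := by
    intro k
    fin_cases k
    · rfl
    · exact key.1.symm
    · exact key.2.symm
  intro k k'
  exact wt_congr ((hall k).trans (hall k').symm)

end FDC

open _root_.Pool.Agent.PT.FDC in
theorem FDC_thm : FDC := by
  intro B m A hB hA hsum hprod hcop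
  choose a x hax hcf using fun k => exists_cf (A k) (hA k)
  have ha0 : ∀ k, a k ≠ 0 := by
    intro k h
    apply hA k
    rw [hax k, h, zero_mul]
  have hx0 : ∀ k, x k ≠ 0 := by
    intro k h
    apply hA k
    rw [hax k, h]; ring
  have hm0 : m ≠ 0 := by
    rintro rfl
    have : A 0 * A 1 * A 2 = 0 := by rw [hprod]; ring
    exact mul_ne_zero (mul_ne_zero (hA 0) (hA 1)) (hA 2) this
  have hca : ∀ i j, i ≠ j → IsCoprime (a i) (a j) := by
    intro i j hij
    have h := hcop i j hij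
    rw [hax i, hax j] at h
    exact h.of_mul_left_left.of_mul_right_left
  have hcx : ∀ i j, i ≠ j → IsCoprime (x i) (x j) := by
    intro i j hij
    have h := hcop i j hij
    rw [hax i, hax j] at h
    exact (h.of_mul_left_right.of_mul_right_right.of_isCoprime_of_dvd_left
      (dvd_pow_self _ (by norm_num))).of_isCoprime_of_dvd_right (dvd_pow_self _ (by norm_num))
  have hP : CF (a 0 * a 1 * a 2) := CF.mul (CF.mul (hcf 0) (hcf 1) (hca 0 1 (by decide))) (hcf 2)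
    (IsCoprime.mul_left (hca 0 2 (by decide)) (hca 1 2 (by decide)))
  have hu := cf_unique (cf_of_BOk hB) hP hm0
    (mul_ne_zero (mul_ne_zero (hx0 0) (hx0 1)) (hx0 2)) (by
      rw [← hprod, hax 0, hax 1, hax 2]; ring)
  rcases hu with hu | hu
  · have hprod' : ∏ k, a k = B := by rw [Fin.prod_univ_three, hu]
    exact ⟨a, x, hax, hprod', hca, hcx, last hB hsum hprod hax hprod' hcx⟩
  · have hprod' : ∏ k, (-a k) = B := by rw [Fin.prod_univ_three]; linear_combination -hu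
    have hax' : ∀ k, A k = (-a k) * (-x k) ^ 3 := by intro k; rw [hax k]; ring
    have hcx' : ∀ i j, i ≠ j → IsCoprime (-x i) (-x j) := fun i j h =>
      (hcx i j h).neg_left.neg_right
    exact ⟨fun k => -a k, fun k => -x k, hax', hprod',
      fun i j h => (hca i j h).neg_left.neg_right, hcx',
      last hB hsum hprod hax' hprod' hcx'⟩

end Pool.Agent.PT


end

section

/-!
# IF4: the local term of a point when `x` is a local cube
-/

namespace Pool.Agent.PT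

open Pool.Agent.Lib_helper18 Pool.Agent.Lib_helper18.Eis Pool.Agent.Lib_helper84.Cub

namespace IF4

theorem cast_ne {n : ℤ} (h : n ≠ 0) : (n : Eis) ≠ 0 := by
  intro h1
  apply h
  have := congrArg Eis.re h1
  simpa using this

theorem prod3 (a t : Eis) : (a + t) * (a + w * t) * (a + w ^ 2 * t) = a ^ 3 + t ^ 3 := by
  have h1 := w_rel
  have h2 := w_cube
  linear_combination (a + t) * a * t * h1 + (a + t) * t ^ 2 * h2

theorem lin_ne (a t : Eis) (h : a ^ 3 + t ^ 3 ≠ 0) (i : ℕ) : a + w ^ i * t ≠ 0 := by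
  intro h0
  apply h
  have h1 : a = -(w ^ i * t) := by linear_combination h0
  have h2 : (w ^ i) ^ 3 = 1 := by
    rw [← pow_mul, mul_comm, pow_mul, w_cube, one_pow]
  rw [h1]
  linear_combination (-t ^ 3) * h2

theorem D_ne {X Y u v : ℤ} (hX : X ≠ 0) (hY : Y ≠ 0) (huv : ¬ (u = 0 ∧ v = 0)) :
    Df X Y u v 1 ≠ 0 ∧ Df X Y u v 2 ≠ 0 := by
  constructor
  · intro h
    have h1 := congrArg Eis.re h
    have h2 := congrArg Eis.im h
    simp [Df] at h1 h2
    apply huv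
    refine ⟨h1.resolve_left hX, h2.resolve_right hY⟩
  · intro h
    have h1 := congrArg Eis.re h
    have h2 := congrArg Eis.im h
    rw [Df, w_sq] at h1 h2
    simp at h1 h2
    have h3 : v = 0 := h2.resolve_right hY
    rw [h3] at h1
    simp at h1
    exact huv ⟨h1.resolve_left hX, h3⟩

variable {π : Eis} {s : Eis → Eis → ZMod 3} {e : ℕ}

theorem s_one (h : LSym π s e) {c : Eis} (hc : c ≠ 0) : s 1 c = 0 := by
  have := h.mul 1 1 c one_ne_zero one_ne_zero hc
  rw [mul_one] at this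
  simpa using this

theorem s_neg (h : LSym π s e) {a c : Eis} (ha : a ≠ 0) (hc : c ≠ 0) : s (-a) c = s a c := by
  have hm : (-1 : Eis) ≠ 0 := neg_ne_zero.2 one_ne_zero
  have h1 := h.mul (-1) (-1) c hm hm hc
  rw [neg_mul_neg, one_mul, s_one h hc] at h1
  have h2 : s (-1) c = 0 := by
    generalize s (-1) c = z at h1
    revert z
    decide
  have h3 := h.mul (-1) a c hm ha hc
  rwa [neg_one_mul, h2, zero_add] at h3

theorem mul_right (h : LSym π s e) {a b c : Eis} (ha : a ≠ 0) (hb : b ≠ 0) (hc : c ≠ 0) :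
    s a (b * c) = s a b + s a c := by
  rw [h.skew (b * c) a (mul_ne_zero hb hc) ha, h.mul b c a hb hc ha, h.skew b a hb ha,
    h.skew c a hc ha]
  ring

theorem approx (h : LSym π s e) {a a' : Eis} (ha : a ≠ 0) {N : ℕ} (hN : V π a + e + 1 ≤ N)
    (hd : π ^ N ∣ a' - a) : a' ≠ 0 ∧ ∀ c, c ≠ 0 → s a' c = s a c ∧ s c a' = s c a := by
  have h0 : a' ≠ 0 := by
    rintro rfl
    rw [zero_sub, dvd_neg] at hd
    have h1 : N ≤ V π a := (fin h.prime ha).le_multiplicity_of_pow_dvd hd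
    omega
  refine ⟨h0, fun c hc => ?_⟩
  have h1 : s a' c = s a c := h.cont a a' c ha hc ((pow_dvd_pow π (by omega)).trans hd)
  refine ⟨h1, ?_⟩
  rw [h.skew a' c h0 hc, h1, h.skew a c ha hc]

end IF4

open _root_.Pool.Agent.PT.IF4 in
theorem IF4_thm (hSTAR : STAR) : IF4 := by
  intro π s e hs b x p q p' q' X Y hb hx hsol hX hY hn0
  have hN12 : p ^ 3 - x * p' ^ 3 = b * (x * q' ^ 3 - q ^ 3) := by linear_combination hsol.eq
  have hN1 : p ^ 3 - x * p' ^ 3 ≠ 0 := hsol.n2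
  have hN2 : x * q' ^ 3 - q ^ 3 ≠ 0 := by
    intro h
    rw [h, mul_zero] at hN12
    exact hN1 hN12
  have hp : ¬ (p' = 0 ∧ p = 0) := by
    rintro ⟨rfl, rfl⟩
    exact hN1 (by ring)
  have hq : ¬ (q' = 0 ∧ q = 0) := by
    rintro ⟨rfl, rfl⟩
    exact hN2 (by ring)
  have cn0 := cast_ne hn0
  have cN1 := cast_ne hN1
  have cN2 := cast_ne hN2
  have cx := cast_ne hx
  have cb := cast_ne hb
  refine ⟨V π ((X ^ 3 + x * Y ^ 3 : ℤ) : Eis) + V π ((p ^ 3 - x * p' ^ 3 : ℤ) : Eis) +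
    V π ((x * q' ^ 3 - q ^ 3 : ℤ) : Eis) + V π (x : Eis) + e + 1, ?_⟩
  intro ξ hξ
  set N : ℕ := V π ((X ^ 3 + x * Y ^ 3 : ℤ) : Eis) + V π ((p ^ 3 - x * p' ^ 3 : ℤ) : Eis) +
    V π ((x * q' ^ 3 - q ^ 3 : ℤ) : Eis) + V π (x : Eis) + e + 1 with hN
  have hξ0 : (ξ : Eis) ≠ 0 := by
    intro h
    have := (approx hs cx (N := N) (by omega) hξ).1
    apply this
    rw [h]
    ring
  -- the products
  have eF : Lf X Y 0 ξ * Lf X Y 1 ξ * Lf X Y 2 ξ = (X : Eis) ^ 3 + ((ξ : Eis) * Y) ^ 3 := by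
    rw [← prod3]
    simp only [Lf]
    ring
  have eG : Lf p (-p') 0 ξ * Lf p (-p') 1 ξ * Lf p (-p') 2 ξ
      = (p : Eis) ^ 3 + ((ξ : Eis) * (-p' : ℤ)) ^ 3 := by
    rw [← prod3]
    simp only [Lf]
    ring
  have eG' : Lf (-q) q' 0 ξ * Lf (-q) q' 1 ξ * Lf (-q) q' 2 ξ
      = ((-q : ℤ) : Eis) ^ 3 + ((ξ : Eis) * q') ^ 3 := by
    rw [← prod3]
    simp only [Lf]
    ring
  obtain ⟨hF0, hF⟩ := approx hs cn0 (a' := (X : Eis) ^ 3 + ((ξ : Eis) * Y) ^ 3) (N := N)
    (by omega) (by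
      have e1 : (X : Eis) ^ 3 + ((ξ : Eis) * Y) ^ 3 - ((X ^ 3 + x * Y ^ 3 : ℤ) : Eis)
          = ((ξ : Eis) ^ 3 - x) * Y ^ 3 := by push_cast; ring
      rw [e1]
      exact Dvd.dvd.mul_right hξ _)
  obtain ⟨hG0, hG⟩ := approx hs cN1 (a' := (p : Eis) ^ 3 + ((ξ : Eis) * (-p' : ℤ)) ^ 3) (N := N)
    (by omega) (by
      have e1 : (p : Eis) ^ 3 + ((ξ : Eis) * (-p' : ℤ)) ^ 3 - ((p ^ 3 - x * p' ^ 3 : ℤ) : Eis)
          = ((ξ : Eis) ^ 3 - x) * (-(p' : Eis) ^ 3) := by push_cast; ring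
      rw [e1]
      exact Dvd.dvd.mul_right hξ _)
  obtain ⟨hG0', hG'⟩ := approx hs cN2 (a' := ((-q : ℤ) : Eis) ^ 3 + ((ξ : Eis) * q') ^ 3) (N := N)
    (by omega) (by
      have e1 : ((-q : ℤ) : Eis) ^ 3 + ((ξ : Eis) * q') ^ 3 - ((x * q' ^ 3 - q ^ 3 : ℤ) : Eis)
          = ((ξ : Eis) ^ 3 - x) * ((q' : Eis) ^ 3) := by push_cast; ring
      rw [e1]
      exact Dvd.dvd.mul_right hξ _)
  have nF : ∀ i, Lf X Y i ξ ≠ 0 := by
    intro i
    have := lin_ne _ _ hF0 i
    intro h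
    apply this
    rw [← h]
    simp only [Lf]
    ring
  have nG : ∀ i, Lf p (-p') i ξ ≠ 0 := by
    intro i
    have := lin_ne _ _ hG0 i
    intro h
    apply this
    rw [← h]
    simp only [Lf]
    ring
  have nG' : ∀ i, Lf (-q) q' i ξ ≠ 0 := by
    intro i
    have := lin_ne _ _ hG0' i
    intro h
    apply this
    rw [← h]
    simp only [Lf]
    ring
  obtain ⟨nD1, nD2⟩ := D_ne hX hY hp
  obtain ⟨nD1', nD2'⟩ := D_ne hX hY hq
  have S1 := (hSTAR π s e hs X Y p (-p' : ℤ) ξ (fun i => Lf X Y i ξ) (fun i => Lf p (-p') i ξ)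
    (fun i => -Df X Y p' p i) (fun i => by simp only [Lf]; ring) (fun i => by simp only [Lf]; ring)
    (fun i => by simp only [Df]; push_cast; ring) hξ0 nF).2 nG (neg_ne_zero.2 nD1)
    (neg_ne_zero.2 nD2)
  have S2 := (hSTAR π s e hs X Y (-q : ℤ) q' ξ (fun i => Lf X Y i ξ) (fun i => Lf (-q) q' i ξ)
    (fun i => Df X Y q' q i) (fun i => by simp only [Lf]; ring) (fun i => by simp only [Lf]; ring)
    (fun i => by simp only [Df]; push_cast; ring) hξ0 nF).2 nG' nD1' nD2'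
  simp only [eF, eG, eG'] at S1 S2
  have hw : w ≠ 0 := by
    intro h
    have := congrArg Eis.im h
    simp at this
  rw [s_neg hs nD1 hG0, s_neg hs nD2 hG0, s_neg hs nD1 hF0, s_neg hs nD2 hF0,
    (hG _ nD1).2, (hG _ nD2).2, (hF _ nD1).2, (hF _ nD2).2, (hF _ hw).2, (hF _ (nG 2)).1,
    (hF _ (nG 1)).1, (hG _ (nF 1)).2, (hG _ (nF 2)).2] at S1
  rw [(hG' _ nD1').2, (hG' _ nD2').2, (hF _ nD1').2, (hF _ nD2').2, (hF _ hw).2,
    (hF _ (nG' 2)).1, (hF _ (nG' 1)).1, (hG' _ (nF 1)).2, (hG' _ (nF 2)).2] at S2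
  have hb1 : ∀ i, s (Lf X Y i ξ) ((p ^ 3 - x * p' ^ 3 : ℤ) : Eis)
      = s (Lf X Y i ξ) (b : Eis) + s (Lf X Y i ξ) ((x * q' ^ 3 - q ^ 3 : ℤ) : Eis) := by
    intro i
    rw [← mul_right hs (nF i) cb cN2, hN12]
    congr 1
    push_cast
    rfl
  rw [hb1 1, hb1 2] at S1
  unfold SV AS
  linear_combination S1 - S2

end Pool.Agent.PT


end

section

/-!
# PT, module MAINT
-/

set_option autoImplicit false

namespace Pool.Agent.PT

open Pool.Agent.Lib_helper18 Pool.Agent.Lib_helper18.Eis Pool.Agent.Lib_helper84.Cub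

namespace MAINT

/-- multiplying by the cube of a nonzero integer does not change being a sum of two cubes -/
theorem sum_cubes_iff {n t : ℕ} (ht : 0 < t) (q : ℕ) :
    (∃ X Y : ℚ, X ^ 3 + Y ^ 3 = (n : ℚ) * q) ↔
      ∃ X Y : ℚ, X ^ 3 + Y ^ 3 = ((n * t ^ 3 : ℕ) : ℚ) * q := by
  have ht' : (t : ℚ) ≠ 0 := by exact_mod_cast ht.ne'
  constructor
  · rintro ⟨X, Y, h⟩
    refine ⟨X * t, Y * t, ?_⟩
    push_cast
    linear_combination (t : ℚ) ^ 3 * h
  · rintro ⟨X, Y, h⟩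
    refine ⟨X / t, Y / t, ?_⟩
    push_cast at h
    field_simp
    linear_combination h

end MAINT

/-- The theorem: from the normal form to all `n`. -/
theorem MAINT_thm (hENF : ENF) (hFINA : FINA) : MAINT := by
  intro N hN h3 hyp
  obtain ⟨n, t, π, p, e, r, f, hn, ht, hNn, hNF, hl⟩ := hENF N hN h3
  have hyp' : Even (Nat.card {p : ℕ // p.Prime ∧ p % 3 = 2 ∧ ¬ 3 ∣ N.factorization p}) ∨
      ∃ j, r j % 9 = 2 ∨ r j % 9 = 5 := by
    rcases hyp with h | ⟨l, hlp, hl9, hl3⟩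
    · exact Or.inl h
    · obtain ⟨j, hj⟩ := hl l hlp hl3 (by omega)
      exact Or.inr ⟨j, by rw [hj]; exact hl9⟩
  obtain ⟨C, hC⟩ := hFINA n _ _ π p e r f hNF hyp'
  refine ⟨C, fun s hs1 hs2 => ?_⟩
  have hset : {q : ℕ | ¬ ∃ X Y : ℚ, X ^ 3 + Y ^ 3 = (n : ℚ) * q} =
      {q : ℕ | ¬ ∃ X Y : ℚ, X ^ 3 + Y ^ 3 = (N : ℚ) * q} := by
    ext q
    simp only [Set.mem_setOf_eq]
    rw [hNn, MAINT.sum_cubes_iff ht q]
  have := hC s hs1 hs2
  rw [hset] at this
  exact this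

end Pool.Agent.PT


end

section

/-!
# NFIX: the fixed `S`-units
-/

set_option autoImplicit false

namespace Pool.Agent.PT

open Pool.Agent.Lib_helper18 Pool.Agent.Lib_helper18.Eis Pool.Agent.Lib_helper84.Cub
open IsDedekindDomain NumberField

namespace NFIX

theorem uni_prime : ∀ v : Pl, Prime (uni v)
  | none => prime_lam
  | some π => π.2.1

theorem lam_dvd_three : lam ∣ (3 : Eis) :=
  ⟨conj lam, by
    rw [mul_conj, norm_lam]
    rfl⟩

theorem uni_assoc (hSPP : SPP) {v v' : Pl} (h : Associated (uni v) (uni v')) : v = v' := by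
  obtain ⟨-, h2, -, h4, -, -⟩ := hSPP
  rcases v with _ | π <;> rcases v' with _ | π'
  · rfl
  · exact absurd (h.symm.dvd.trans lam_dvd_three) (h4 π').1
  · exact absurd (h.dvd.trans lam_dvd_three) (h4 π).1
  · rw [h2 π π' h]

theorem dvd_lam_of_dvd_three {l : Eis} (hl : Prime l) (h : l ∣ 3) : l ∣ lam := by
  have h1 : lam * conj lam = 3 := by
    rw [mul_conj, norm_lam]
    rfl
  have h2 : conj lam = -w ^ 2 * lam := by decide
  rw [← h1, h2] at h
  have h3 : lam * (-w ^ 2 * lam) = -w ^ 2 * lam ^ 2 := by ring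
  rw [h3] at h
  have hu : IsUnit (-w ^ 2) := by
    rw [isUnit_iff_norm]
    decide
  exact hl.dvd_of_dvd_pow ((hu.dvd_mul_left).1 h)

theorem exists_place (hSPP : SPP) (l : Eis) (hl : Prime l) : ∃ v : Pl, Associated l (uni v) := by
  by_cases h : l ∣ 3
  · exact ⟨none, hl.associated_of_dvd prime_lam (dvd_lam_of_dvd_three hl h)⟩
  · obtain ⟨π, hπ⟩ := hSPP.1 l hl h
    exact ⟨some π, hπ⟩

/-- elements with the same valuations -/
theorem dvd_of_V (hSPP : SPP) {a b : Eis} (ha : a ≠ 0) (hb : b ≠ 0)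
    (h : ∀ v : Pl, V (uni v) a = V (uni v) b) : a ∣ b := by
  rw [UniqueFactorizationMonoid.dvd_iff_emultiplicity_le ha]
  intro p hp
  obtain ⟨v, hv⟩ := exists_place hSPP p hp
  rw [← emultiplicity_eq_of_associated_left hv, ← emultiplicity_eq_of_associated_left hv,
    (fin (uni_prime v) ha).emultiplicity_eq_multiplicity,
    (fin (uni_prime v) hb).emultiplicity_eq_multiplicity]
  exact le_of_eq (congrArg _ (h v))

theorem unit_pow_six {x : Eis} (hx : IsUnit x) : x ^ 6 = 1 := by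
  obtain ⟨i, -, h⟩ := unit_cases hx
  have h1 : (w ^ i) ^ 6 = 1 := by
    rw [← pow_mul, mul_comm, show 6 * i = 3 * (2 * i) by ring, pow_mul, w_cube, one_pow]
  rcases h with rfl | rfl
  · exact h1
  · rw [Even.neg_pow (by decide), h1]

section

variable {x : ℤ} {L : Type} [Field L] [NumberField L] {ι : Eis →+* L} {θ : L}
  {σ c : L ≃ₐ[ℚ] L}

/-- the valuations at the primes above a place -/
theorem val_lt_iff (hSPP : SPP) (hNTR : NTR) (hx0 : x ≠ 0) (hx3 : ¬ (3 : ℤ) ∣ x)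
    (hC : CubF x L ι θ σ c) {v : Pl} {P : HeightOneSpectrum (𝓞 L)} (hP : P ∈ Abv ι v) (a : Eis) :
    P.valuation L (ι a) < 1 ↔ uni v ∣ a := by
  have hN := hNTR x L ι θ σ c hx0 hx3 hC
  obtain ⟨v', hP', h'⟩ := hN.2.1 P
  have hv : v' = v := uni_assoc hSPP
    ((uni_prime v').associated_of_dvd (uni_prime v) (h' _ hP))
  subst hv
  refine ⟨h' a, ?_⟩
  rintro ⟨d, rfl⟩
  rw [map_mul, map_mul]
  exact lt_of_le_of_lt (mul_le_of_le_one_right' (hN.1 P d)) hP

theorem abv_unique (hSPP : SPP) (hNTR : NTR) (hx0 : x ≠ 0) (hx3 : ¬ (3 : ℤ) ∣ x)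
    (hC : CubF x L ι θ σ c) {v v' : Pl} {P : HeightOneSpectrum (𝓞 L)} (hP : P ∈ Abv ι v)
    (hP' : P ∈ Abv ι v') : v = v' :=
  uni_assoc hSPP ((uni_prime v).associated_of_dvd (uni_prime v')
    ((val_lt_iff hSPP hNTR hx0 hx3 hC hP _).1 hP'))

theorem val_eq (hSPP : SPP) (hNTR : NTR) (hx0 : x ≠ 0) (hx3 : ¬ (3 : ℤ) ∣ x)
    (hC : CubF x L ι θ σ c) {v : Pl} {P : HeightOneSpectrum (𝓞 L)} (hP : P ∈ Abv ι v) {a : Eis}
    (ha : a ≠ 0) : P.valuation L (ι a) = P.valuation L (ι (uni v)) ^ V (uni v) a := by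
  have hN := hNTR x L ι θ σ c hx0 hx3 hC
  obtain ⟨d, hd, hnd⟩ := V_split (uni_prime v) ha
  have h1 : P.valuation L (ι d) = 1 := by
    refine le_antisymm (hN.1 P d) (not_lt.1 fun h => hnd ?_)
    exact (val_lt_iff hSPP hNTR hx0 hx3 hC hP d).1 h
  conv_lhs => rw [hd]
  rw [map_mul, map_pow, map_mul, map_pow, h1, mul_one]

/-- the valuations of an `S`-unit outside of `S` -/
theorem V_eq_of_unit (hSPP : SPP) (hNTR : NTR) (hx0 : x ≠ 0) (hx3 : ¬ (3 : ℤ) ∣ x)
    (hC : CubF x L ι θ σ c) {S : Finset Pl} {u : Lˣ} (hu : u ∈ SU ι S) {a b : Eis} (ha : a ≠ 0)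
    (hb : b ≠ 0) (h : (u : L) * ι b = ι a) {v : Pl} (hv : v ∉ S) :
    V (uni v) a = V (uni v) b := by
  have hN := hNTR x L ι θ σ c hx0 hx3 hC
  obtain ⟨P, hP⟩ := (hN.2.2.2.1 v).2
  have hPS : P ∉ ⋃ v ∈ S, Abv ι v := by
    simp only [Set.mem_iUnion, not_exists]
    intro v' hv' hP'
    have := abv_unique hSPP hNTR hx0 hx3 hC hP hP'
    subst this
    exact hv hv'
  have h1 : P.valuation L (u : L) = 1 := hu P hPS
  have h2 := congrArg (P.valuation L) h
  rw [map_mul, h1, one_mul, val_eq hSPP hNTR hx0 hx3 hC hP ha,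
    val_eq hSPP hNTR hx0 hx3 hC hP hb] at h2
  have h0 : P.valuation L (ι (uni v)) ≠ 0 := by
    rw [Valuation.ne_zero_iff]
    intro h3
    exact (uni_prime v).ne_zero (hC.inj (h3.trans (map_zero ι).symm))
  have h3 : P.valuation L (ι (uni v)) < 1 := hP
  exact (pow_right_injective₀ (zero_lt_iff.2 h0) h3.ne h2).symm

end

/-- independence of the representation -/
theorem V_sub {L : Type} [Field L] {ι : Eis →+* L} (hι : Function.Injective ι) {u : L}
    {a b a' b' : Eis} (ha : a ≠ 0) (hb : b ≠ 0) (ha' : a' ≠ 0) (hb' : b' ≠ 0)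
    (h : u * ι b = ι a) (h' : u * ι b' = ι a') {l : Eis} (hl : Prime l) :
    (V l a : ℤ) - V l b = (V l a' : ℤ) - V l b' := by
  have h1 : a * b' = a' * b := by
    apply hι
    rw [map_mul, map_mul, ← h, ← h']
    ring
  have h2 := congrArg (V l) h1
  rw [V_mul hl ha hb', V_mul hl ha' hb] at h2
  omega

end NFIX

open _root_.Pool.Agent.PT.NFIX in
/-- NFIX: the fixed `S`-units. -/
theorem NFIX_thm (hSPP : SPP) (hNHN : NHN) (hNTR : NTR) : NFIX := by
  classical
  intro x L _ _ ι θ σ c hx0 hx3 hC S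
  have hN := hNTR x L ι θ σ c hx0 hx3 hC
  have hinj := hC.inj
  -- elements of `Z[w]`
  have h1 : ∀ (u : Lˣ) (a : Eis), (u : L) = ι a → (∀ v : Pl, uni v ∣ a → v ∈ S) →
      u ∈ SF ι σ S := by
    intro u a hu ha
    refine ⟨?_, ?_⟩
    · intro P hP
      change P.valuation L (u : L) = 1
      rw [hu]
      refine le_antisymm (hN.1 P a) (not_lt.1 fun hlt => hP ?_)
      obtain ⟨v, hPv, hv⟩ := hN.2.1 P
      exact Set.mem_iUnion₂.2 ⟨v, ha v (hv a hlt), hPv⟩
    · apply Units.ext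
      change σ (u : L) = u
      rw [hu, hC.sι]
  have h2 : ∀ u ∈ SF ι σ S, ∃ a b : Eis, a ≠ 0 ∧ b ≠ 0 ∧ (u : L) * ι b = ι a := by
    rintro u ⟨-, hu⟩
    have hσ : σ (u : L) = u := congrArg Units.val hu
    obtain ⟨a, b, hb, hab⟩ := (hNHN x L ι θ σ c hx0 hC).2.1 u hσ
    refine ⟨a, b, ?_, hb, hab⟩
    rintro rfl
    rw [map_zero] at hab
    rcases mul_eq_zero.1 hab with h | h
    · exact u.ne_zero h
    · exact hb (hinj (h.trans (map_zero ι).symm))
  refine ⟨h1, h2, ?_⟩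
  -- the valuation map
  choose! A B hA hB hAB using h2
  let F : Additive (SF ι σ S) →+ (S → ℤ) :=
    { toFun := fun u v => (V (uni v) (A u.toMul) : ℤ) - V (uni v) (B u.toMul)
      map_zero' := by
        funext v
        have h3 : ((1 : SF ι σ S) : Lˣ) ∈ SF ι σ S := (1 : SF ι σ S).2
        have h4 : (((1 : SF ι σ S) : Lˣ) : L) * ι 1 = ι 1 := by
          rw [map_one, mul_one]
          rfl
        have := V_sub hinj (hA _ h3) (hB _ h3) one_ne_zero one_ne_zero (hAB _ h3) h4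
          (uni_prime v)
        change (V (uni v) (A ((1 : SF ι σ S) : Lˣ)) : ℤ) - V (uni v) (B ((1 : SF ι σ S) : Lˣ)) = 0
        rw [this, sub_self]
      map_add' := by
        intro u u'
        funext v
        have hu := u.toMul.2
        have hu' := u'.toMul.2
        have huu := (u.toMul * u'.toMul).2
        have h4 : (((u.toMul * u'.toMul : SF ι σ S) : Lˣ) : L) *
            ι (B u.toMul * B u'.toMul) = ι (A u.toMul * A u'.toMul) := by
          rw [map_mul, map_mul, ← hAB _ hu, ← hAB _ hu']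
          change ((u.toMul : Lˣ) : L) * ((u'.toMul : Lˣ) : L) * _ = _
          ring
        have h5 := V_sub hinj (hA _ huu) (hB _ huu) (mul_ne_zero (hA _ hu) (hA _ hu'))
          (mul_ne_zero (hB _ hu) (hB _ hu')) (hAB _ huu) h4 (uni_prime v)
        rw [V_mul (uni_prime v) (hA _ hu) (hA _ hu'), V_mul (uni_prime v) (hB _ hu) (hB _ hu')]
          at h5
        change (V (uni v) (A ((u.toMul * u'.toMul : SF ι σ S) : Lˣ)) : ℤ) -
          V (uni v) (B ((u.toMul * u'.toMul : SF ι σ S) : Lˣ)) =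
          ((V (uni v) (A u.toMul) : ℤ) - V (uni v) (B u.toMul)) +
          ((V (uni v) (A u'.toMul) : ℤ) - V (uni v) (B u'.toMul))
        rw [h5]
        push_cast
        ring }
  have hF : ∀ (u : SF ι σ S) (v : S), F (Additive.ofMul u) v =
      (V (uni v) (A (u : Lˣ)) : ℤ) - V (uni v) (B (u : Lˣ)) := fun _ _ => rfl
  let G : Additive (SF ι σ S) →ₗ[ℤ] (S → ℤ) := F.toIntLinearMap
  have hG : ∀ u, G u = F u := fun _ => rfl
  -- surjectivity
  have hsurj : Function.Surjective G := by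
    rw [← LinearMap.range_eq_top, ← top_le_iff, ← (Pi.basisFun ℤ S).span_eq, Submodule.span_le]
    rintro _ ⟨v, rfl⟩
    rw [Pi.basisFun_apply]
    have hne : ι (uni v) ≠ 0 := fun h => (uni_prime v).ne_zero (hinj (h.trans (map_zero ι).symm))
    have hmem : Units.mk0 (ι (uni v)) hne ∈ SF ι σ S := by
      refine h1 _ (uni v) rfl fun v' hv' => ?_
      have := uni_assoc hSPP ((uni_prime v').associated_of_dvd (uni_prime v) hv')
      rw [this]
      exact v.2
    refine ⟨Additive.ofMul ⟨_, hmem⟩, ?_⟩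
    funext v'
    rw [hG, hF]
    have h3 : ((Units.mk0 (ι (uni v)) hne : Lˣ) : L) * ι 1 = ι (uni v) := by
      rw [map_one, mul_one]
      rfl
    rw [V_sub hinj (hA _ hmem) (hB _ hmem) (uni_prime v).ne_zero one_ne_zero (hAB _ hmem) h3
      (uni_prime v'), V_eq_zero (fun h => (uni_prime v').not_isUnit (isUnit_of_dvd_one h))]
    by_cases hvv : v' = v
    · subst hvv
      rw [V_self, Pi.single_eq_same]
      norm_num
    · rw [Pi.single_eq_of_ne hvv, V_eq_zero]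
      · norm_num
      · intro h
        exact hvv (Subtype.ext (uni_assoc hSPP
          ((uni_prime v').associated_of_dvd (uni_prime v) h)))
  -- the kernel
  have hker : Module.rank ℤ (LinearMap.ker G) = 0 := by
    rw [rank_eq_zero_iff]
    rintro ⟨u, hu⟩
    refine ⟨6, by norm_num, ?_⟩
    apply Subtype.ext
    have hu0 : G u = 0 := hu
    have hmem := u.toMul.2
    have hVS : ∀ v : Pl, V (uni v) (A u.toMul) = V (uni v) (B u.toMul) := by
      intro v
      by_cases hv : v ∈ S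
      · have h3 := congrFun hu0 ⟨v, hv⟩
        have h4 : (V (uni v) (A u.toMul) : ℤ) - V (uni v) (B u.toMul) = 0 := h3
        omega
      · exact V_eq_of_unit hSPP hNTR hx0 hx3 hC hmem.1 (hA _ hmem) (hB _ hmem) (hAB _ hmem) hv
    obtain ⟨d, hd⟩ := dvd_of_V hSPP (hB _ hmem) (hA _ hmem) fun v => (hVS v).symm
    obtain ⟨d', hd'⟩ := dvd_of_V hSPP (hA _ hmem) (hB _ hmem) hVS
    have hdd : d * d' = 1 := by
      have h3 : B u.toMul * (d * d') = B u.toMul * 1 := by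
        rw [← mul_assoc, ← hd, ← hd', mul_one]
      exact mul_left_cancel₀ (hB _ hmem) h3
    have hud : ((u.toMul : Lˣ) : L) = ι d := by
      have h3 := hAB _ hmem
      have h4 : ι (B u.toMul) ≠ 0 := fun h => hB _ hmem (hinj (h.trans (map_zero ι).symm))
      rw [hd, map_mul, mul_comm (ι _)] at h3
      exact mul_right_cancel₀ h4 h3
    have h6 : u.toMul ^ 6 = 1 := by
      apply Subtype.ext
      apply Units.ext
      change ((u.toMul : Lˣ) : L) ^ 6 = 1
      rw [hud, ← map_pow, unit_pow_six (IsUnit.of_mul_eq_one _ hdd), map_one]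
    change (6 : ℤ) • u = 0
    exact_mod_cast congrArg Additive.ofMul h6
  have hrank : Module.rank ℤ (Additive (SF ι σ S)) = S.card := by
    rw [LinearMap.rank_eq_of_surjective hsurj, hker, add_zero, rank_fun']
    simp
  rw [Module.finrank, hrank]
  exact Cardinal.toNat_natCast _

end Pool.Agent.PT


end

section

/-!
# ROOT: independence of the cube root
-/

namespace Pool.Agent.PT

open Pool.Agent.Lib_helper18 Pool.Agent.Lib_helper18.Eis Pool.Agent.Lib_helper84.Cub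

namespace ROOT

theorem pow_dvd_iff {π a : Eis} (hπ : Prime π) (ha : a ≠ 0) (k : ℕ) : π ^ k ∣ a ↔ k ≤ V π a :=
  (fin hπ ha).pow_dvd_iff_le_multiplicity

theorem pig {π a b c : Eis} (hπ : Prime π) {M : ℕ} (h : π ^ (3 * M) ∣ a * b * c) :
    π ^ M ∣ a ∨ π ^ M ∣ b ∨ π ^ M ∣ c := by
  by_cases ha : a = 0
  · exact Or.inl (ha ▸ dvd_zero _)
  by_cases hb : b = 0
  · exact Or.inr (Or.inl (hb ▸ dvd_zero _))
  by_cases hc : c = 0
  · exact Or.inr (Or.inr (hc ▸ dvd_zero _))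
  rw [pow_dvd_iff hπ (mul_ne_zero (mul_ne_zero ha hb) hc), V_mul hπ (mul_ne_zero ha hb) hc,
    V_mul hπ ha hb] at h
  rw [pow_dvd_iff hπ ha, pow_dvd_iff hπ hb, pow_dvd_iff hπ hc]
  omega

theorem close {π P Q : Eis} (hπ : Prime π) {N : ℕ} (h : π ^ N ∣ P - Q) (hQ : Q ≠ 0)
    (hN : V π Q < N) : P ≠ 0 ∧ V π P ≤ V π Q := by
  have h1 : ¬ π ^ N ∣ P := by
    intro h2
    have h3 : π ^ N ∣ Q := by
      have h4 := dvd_sub h2 h
      rwa [sub_sub_cancel] at h4
    rw [pow_dvd_iff hπ hQ] at h3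
    omega
  have hP : P ≠ 0 := by
    rintro rfl
    exact h1 (dvd_zero _)
  refine ⟨hP, ?_⟩
  rw [pow_dvd_iff hπ hP, not_le] at h1
  rw [← pow_dvd_iff hπ hQ]
  have h2 : π ^ V π P ∣ P := (pow_dvd_iff hπ hP _).mpr le_rfl
  have h3 : π ^ V π P ∣ P - Q := (pow_dvd_pow π h1.le).trans h
  have h4 := dvd_sub h2 h3
  rwa [sub_sub_cancel] at h4

theorem prod_eq (p q r : ℤ) :
    Lf p q 0 r * Lf p q 1 r * Lf p q 2 r = ((p ^ 3 + q ^ 3 * r ^ 3 : ℤ) : Eis) := by
  unfold Lf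
  push_cast
  have h1 := w_rel
  have h2 := w_cube
  linear_combination ((p : Eis) ^ 2 * q * r + (p : Eis) * q ^ 2 * r ^ 2 * w) * h1 +
    (((q : Eis) * r) ^ 3) * h2

theorem Lf_add_three (p q r : ℤ) (j : ℕ) : Lf p q (j + 3) r = Lf p q j r := by
  unfold Lf
  rw [pow_add, w_cube, mul_one]

theorem prod_sub {π : Eis} {b r : ℤ} {N : ℕ} (h : π ^ N ∣ (r : Eis) ^ 3 - (b : Eis)) (p q : ℤ) :
    π ^ N ∣ Lf p q 0 r * Lf p q 1 r * Lf p q 2 r - ((p ^ 3 + b * q ^ 3 : ℤ) : Eis) := by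
  rw [prod_eq]
  have e : ((p ^ 3 + q ^ 3 * r ^ 3 : ℤ) : Eis) - ((p ^ 3 + b * q ^ 3 : ℤ) : Eis) =
      ((r : Eis) ^ 3 - (b : Eis)) * (q : Eis) ^ 3 := by
    push_cast
    ring
  rw [e]
  exact Dvd.dvd.mul_right h _

theorem lin {π : Eis} (hπ : Prime π) {b r : ℤ} {N : ℕ} (h : π ^ N ∣ (r : Eis) ^ 3 - (b : Eis))
    (p q : ℤ) (h0 : ((p ^ 3 + b * q ^ 3 : ℤ) : Eis) ≠ 0)
    (hN : V π ((p ^ 3 + b * q ^ 3 : ℤ) : Eis) < N) :
    ∀ j < 3, Lf p q j r ≠ 0 ∧ V π (Lf p q j r) ≤ V π ((p ^ 3 + b * q ^ 3 : ℤ) : Eis) := by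
  obtain ⟨h1, h2⟩ := close hπ (prod_sub h p q) h0 hN
  have h3 := mul_ne_zero_iff.mp h1
  have h4 := mul_ne_zero_iff.mp h3.1
  rw [V_mul hπ h3.1 h3.2, V_mul hπ h4.1 h4.2] at h2
  intro j hj
  interval_cases j
  · exact ⟨h4.1, by omega⟩
  · exact ⟨h4.2, by omega⟩
  · exact ⟨h3.2, by omega⟩

section

variable {π : Eis} {s : Eis → Eis → ZMod 3} {e : ℕ}

theorem cont' (hs : LSym π s e) {a a' B : Eis} (hB : B ≠ 0) (ha : a ≠ 0) (ha' : a' ≠ 0)
    (h : π ^ (V π a + e) ∣ a' - a) : s B a' = s B a := by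
  rw [hs.skew a' B ha' hB, hs.skew a B ha hB, hs.cont a a' B ha hB h]

theorem mul' (hs : LSym π s e) {a c B : Eis} (hB : B ≠ 0) (ha : a ≠ 0) (hc : c ≠ 0) :
    s B (a * c) = s B a + s B c := by
  rw [hs.skew (a * c) B (mul_ne_zero ha hc) hB, hs.skew a B ha hB, hs.skew c B hc hB,
    hs.mul a c B ha hc hB]
  ring

theorem sum_eq (hs : LSym π s e) {B : Eis} (hB : B ≠ 0) {b r : ℤ} {N : ℕ}
    (h : π ^ N ∣ (r : Eis) ^ 3 - (b : Eis)) (p q : ℤ) (h0 : ((p ^ 3 + b * q ^ 3 : ℤ) : Eis) ≠ 0)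
    (hN : V π ((p ^ 3 + b * q ^ 3 : ℤ) : Eis) + e < N) :
    s B (Lf p q 0 r) + s B (Lf p q 1 r) + s B (Lf p q 2 r) =
      s B ((p ^ 3 + b * q ^ 3 : ℤ) : Eis) := by
  have h1 := lin hs.prime h p q h0 (by omega)
  have n0 := (h1 0 (by norm_num)).1
  have n1 := (h1 1 (by norm_num)).1
  have n2 := (h1 2 (by norm_num)).1
  rw [← mul' hs hB n0 n1, ← mul' hs hB (mul_ne_zero n0 n1) n2]
  exact cont' hs hB h0 (mul_ne_zero (mul_ne_zero n0 n1) n2)
    ((pow_dvd_pow π hN.le).trans (prod_sub h p q))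

theorem shift (hs : LSym π s e) {B : Eis} (hB : B ≠ 0) {r r' : ℤ} {M : ℕ} {i j k : ℕ}
    (h : π ^ M ∣ (r' : Eis) - w ^ i * (r : Eis)) (p q : ℤ) (hk : Lf p q (j + i) r = Lf p q k r)
    (hne : Lf p q k r ≠ 0) (hne' : Lf p q j r' ≠ 0) (hM : V π (Lf p q k r) + e ≤ M) :
    s B (Lf p q j r') = s B (Lf p q k r) := by
  refine cont' hs hB hne hne' ((pow_dvd_pow π hM).trans ?_)
  rw [← hk]
  have e1 : Lf p q j r' - Lf p q (j + i) r = ((r' : Eis) - w ^ i * (r : Eis)) * (q * w ^ j) := by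
    unfold Lf
    rw [pow_add]
    ring
  rw [e1]
  exact Dvd.dvd.mul_right h _

end

end ROOT

open _root_.Pool.Agent.PT.ROOT in
theorem ROOT_thm : ROOT := by
  intro π s e hs b x p q p' q' B hb hx hW hB hBx
  have n1Z : p ^ 3 + b * q ^ 3 ≠ 0 := hW.n1
  have n2Z : p' ^ 3 + b * q' ^ 3 ≠ 0 := by
    intro h
    apply n1Z
    rw [hW.eq, h, mul_zero]
  have cast_ne : ∀ z : ℤ, z ≠ 0 → (z : Eis) ≠ 0 := fun z hz h => hz (by simpa using congrArg Eis.re h)
  have n1 := cast_ne _ n1Z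
  have n2 := cast_ne _ n2Z
  set v1 := V π ((p ^ 3 + b * q ^ 3 : ℤ) : Eis) with hv1
  set v2 := V π ((p' ^ 3 + b * q' ^ 3 : ℤ) : Eis) with hv2
  set M := v1 + v2 + e + 1 with hM
  refine ⟨3 * M, fun r r' hr hr' => ?_⟩
  have L := lin hs.prime hr p q n1 (by omega)
  have L' := lin hs.prime hr p' q' n2 (by omega)
  have K := lin hs.prime hr' p q n1 (by omega)
  have K' := lin hs.prime hr' p' q' n2 (by omega)
  have hS := sum_eq hs hB hr p q n1 (by omega)
  have hS' := sum_eq hs hB hr p' q' n2 (by omega)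
  have hprod : s B ((p ^ 3 + b * q ^ 3 : ℤ) : Eis) = s B ((p' ^ 3 + b * q' ^ 3 : ℤ) : Eis) := by
    have h1 : ((p ^ 3 + b * q ^ 3 : ℤ) : Eis) = (x : Eis) * ((p' ^ 3 + b * q' ^ 3 : ℤ) : Eis) := by
      rw [hW.eq]
      push_cast
      ring
    rw [h1, mul' hs hB (cast_ne x hx) n2, hBx, zero_add]
  rw [hprod, ← hS'] at hS
  have h3 : (3 : ZMod 3) = 0 := by decide
  have hdiv : π ^ (3 * M) ∣ ((r' : Eis) - w ^ 0 * r) * ((r' : Eis) - w ^ 1 * r) *
      ((r' : Eis) - w ^ 2 * r) := by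
    have e1 : ((r' : Eis) - w ^ 0 * r) * ((r' : Eis) - w ^ 1 * r) * ((r' : Eis) - w ^ 2 * r) =
        ((r' : Eis) ^ 3 - b) - ((r : Eis) ^ 3 - b) := by
      have h1 := w_rel
      have h2 := w_cube
      linear_combination (-(r' : Eis) ^ 2 * r + (r' : Eis) * r ^ 2 * w) * h1 -
        ((r : Eis) ^ 3) * h2
    rw [e1]
    exact dvd_sub hr' hr
  have b0 := (L 0 (by norm_num)).2
  have b1 := (L 1 (by norm_num)).2
  have b2 := (L 2 (by norm_num)).2
  have c0 := (L' 0 (by norm_num)).2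
  have c1 := (L' 1 (by norm_num)).2
  have c2 := (L' 2 (by norm_num)).2
  rcases pig hs.prime hdiv with h | h | h
  · have e1 := shift hs hB h p q (j := 2) (k := 2) rfl (L 2 (by norm_num)).1
      (K 2 (by norm_num)).1 (by omega)
    have e2 := shift hs hB h p' q' (j := 1) (k := 1) rfl (L' 1 (by norm_num)).1
      (K' 1 (by norm_num)).1 (by omega)
    have e3 := shift hs hB h p q (j := 1) (k := 1) rfl (L 1 (by norm_num)).1
      (K 1 (by norm_num)).1 (by omega)
    have e4 := shift hs hB h p' q' (j := 2) (k := 2) rfl (L' 2 (by norm_num)).1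
      (K' 2 (by norm_num)).1 (by omega)
    unfold AS
    rw [e1, e2, e3, e4]
  · have e1 := shift hs hB h p q (j := 2) (k := 0) (Lf_add_three p q r 0)
      (L 0 (by norm_num)).1 (K 2 (by norm_num)).1 (by omega)
    have e2 := shift hs hB h p' q' (j := 1) (k := 2) rfl (L' 2 (by norm_num)).1
      (K' 1 (by norm_num)).1 (by omega)
    have e3 := shift hs hB h p q (j := 1) (k := 2) rfl (L 2 (by norm_num)).1
      (K 1 (by norm_num)).1 (by omega)
    have e4 := shift hs hB h p' q' (j := 2) (k := 0) (Lf_add_three p' q' r 0)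
      (L' 0 (by norm_num)).1 (K' 2 (by norm_num)).1 (by omega)
    unfold AS
    rw [e1, e2, e3, e4]
    linear_combination (-1 : ZMod 3) * hS + (s B (Lf p q 2 r) - s B (Lf p' q' 2 r)) * h3
  · have e1 := shift hs hB h p q (j := 2) (k := 1) (Lf_add_three p q r 1)
      (L 1 (by norm_num)).1 (K 2 (by norm_num)).1 (by omega)
    have e2 := shift hs hB h p' q' (j := 1) (k := 0) (Lf_add_three p' q' r 0)
      (L' 0 (by norm_num)).1 (K' 1 (by norm_num)).1 (by omega)
    have e3 := shift hs hB h p q (j := 1) (k := 0) (Lf_add_three p q r 0)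
      (L 0 (by norm_num)).1 (K 1 (by norm_num)).1 (by omega)
    have e4 := shift hs hB h p' q' (j := 2) (k := 1) (Lf_add_three p' q' r 1)
      (L' 1 (by norm_num)).1 (K' 2 (by norm_num)).1 (by omega)
    unfold AS
    rw [e1, e2, e3, e4]
    linear_combination hS + (s B (Lf p' q' 1 r) - s B (Lf p q 1 r)) * h3

end Pool.Agent.PT


end

section

/-!
# EADT: `AdC` and `AdT`, `q = 2 (mod 3)`

Follows `Pool/Agent/PT/EADM.lean`.
-/

set_option autoImplicit false

namespace Pool.Agent.PT3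

open Pool.Agent.Lib_helper18 Pool.Agent.Lib_helper18.Eis Pool.Agent.Lib_helper84.Cub
open Pool.Agent.PT Pool.Agent.PTE

namespace EADT

open Pool.Agent.PT.EADM

section

variable {h n m k E q : ℕ} {π : Fin m → PP} {p e : Fin m → ℕ} {r f : Fin k → ℕ}
  {w0 : ZMod 3} {c : Fin m → ZMod 3}

theorem below (hSPP : SPP) (π : PP) : ∃ l, Below π l := by
  obtain ⟨_, _, _, _, _, hSPP6⟩ := hSPP
  obtain ⟨l, hl, h⟩ := hSPP6 π
  exact ⟨l, hl, h⟩

theorem below_ne {π : PP} {l : ℕ} (h : Below π l) : l ≠ 3 := by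
  rcases h.h with ⟨h1, _⟩ | ⟨h1, _, _, _⟩ <;> omega

theorem BB_cast (h n E q : ℕ) : BB h n E q = ((3 ^ h * n * q ^ E : ℕ) : ℤ) := by
  unfold BB
  push_cast
  ring

theorem BB_eis (h n E q : ℕ) : ((BB h n E q : ℤ) : Eis) = ((3 ^ h * n * q ^ E : ℕ) : Eis) := by
  rw [BB_cast, Int.cast_natCast]

theorem nat_ne (hN : NF n π p e r f) (hq : q.Prime) : 3 ^ h * n * q ^ E ≠ 0 :=
  mul_ne_zero (mul_ne_zero (pow_ne_zero _ three_ne_zero) (n_ne hN)) (pow_ne_zero _ hq.ne_zero)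

theorem BB_ne (hN : NF n π p e r f) (hq : q.Prime) : BB h n E q ≠ 0 := by
  rw [BB_cast]
  exact_mod_cast nat_ne hN hq

theorem not_dvd_nq (hN : NF n π p e r f) (hq : q.Prime) (hq3 : q ≠ 3) : ¬ 3 ∣ n * q ^ E := by
  intro h1
  rcases Nat.prime_three.dvd_mul.1 h1 with h2 | h2
  · exact three_not hN h2
  · exact hq3 ((Nat.prime_dvd_prime_iff_eq Nat.prime_three hq).1
      (Nat.prime_three.dvd_of_dvd_pow h2)).symm

theorem base_BT (hSPP : SPP) (hN : NF n π p e r f) (hh : h = 1 ∨ h = 2) (hE : E = 1 ∨ E = 2)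
    (hq : q.Prime) (hq3 : q ≠ 3) (hqn : ¬ q ∣ n) : BT (BB h n E q) := by
  have hn0 : n ≠ 0 := n_ne hN
  have h3n := not_dvd_nq (E := E) hN hq hq3
  refine ⟨⟨BB_ne hN hq, fun ϖ => ?_⟩, ?_, ?_⟩
  · obtain ⟨l, hl⟩ := below hSPP ϖ
    have hqE : q ^ E ≠ 0 := pow_ne_zero _ hq.ne_zero
    have h30 : 3 ^ h ≠ 0 := pow_ne_zero _ three_ne_zero
    rw [BB_eis, hl.V_nat (nat_ne hN hq), Nat.factorization_mul (mul_ne_zero h30 hn0) hqE,
      Nat.factorization_mul h30 hn0, Finsupp.add_apply, Finsupp.add_apply]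
    have h1 := fac_le hN l
    have h2 : (3 ^ h).factorization l = 0 := by
      apply Nat.factorization_eq_zero_of_not_dvd
      intro h4
      exact below_ne hl ((Nat.prime_dvd_prime_iff_eq hl.pr Nat.prime_three).1
        (hl.pr.dvd_of_dvd_pow h4))
    by_cases hlq : l = q
    · have h4 : n.factorization l = 0 := by
        rw [hlq]
        exact Nat.factorization_eq_zero_of_not_dvd hqn
      have h3 : (q ^ E).factorization l = E := by
        rw [hlq, hq.factorization_pow, Finsupp.single_eq_same]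
      omega
    · have h3 : (q ^ E).factorization l = 0 := by
        apply Nat.factorization_eq_zero_of_not_dvd
        intro h
        exact hlq ((Nat.prime_dvd_prime_iff_eq hl.pr hq).1 (hl.pr.dvd_of_dvd_pow h))
      omega
  · unfold BB
    have h1 : (3 : ℤ) ∣ 3 ^ h := dvd_pow_self _ (by omega)
    exact (h1.mul_right _).mul_right _
  · intro h27
    rw [BB_cast] at h27
    have h1 : 27 ∣ 3 ^ h * n * q ^ E := by exact_mod_cast h27
    rw [mul_assoc] at h1
    apply h3n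
    rcases hh with rfl | rfl
    · exact (Nat.dvd_of_mul_dvd_mul_left (by norm_num : 0 < 3)
        ((by norm_num : 3 * 3 ∣ 27).trans (by simpa using h1)))
    · exact (Nat.dvd_of_mul_dvd_mul_left (by norm_num : 0 < 9)
        ((by norm_num : 9 * 3 ∣ 27).trans (by simpa using h1)))

theorem base_Ty (hLCL : LCL) (hN : NF n π p e r f) (hh : h = 1 ∨ h = 2)
    (hq : q.Prime) (hq3 : q ≠ 3) (hw : wt (((q : ℤ) ^ E) ^ 2) = w0) :
    TyB h n w0 (BB h n E q) := by
  obtain ⟨-, hmul, ⟨h3v, h3w⟩, hunit, -⟩ := hLCL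
  have hn0 : (n : ℤ) ≠ 0 := by exact_mod_cast n_ne hN
  have hn3 : ¬ (3 : ℤ) ∣ (n : ℤ) := by
    intro h
    exact three_not hN (by exact_mod_cast h)
  have hq0 : (q : ℤ) ^ E ≠ 0 := pow_ne_zero _ (by exact_mod_cast hq.ne_zero)
  have hqE3 : ¬ (3 : ℤ) ∣ (q : ℤ) ^ E := by
    intro h
    have h1 : 3 ∣ q ^ E := by exact_mod_cast h
    exact hq3 ((Nat.prime_dvd_prime_iff_eq Nat.prime_three hq).1
      (Nat.prime_three.dvd_of_dvd_pow h1)).symm
  have h30 : (3 : ℤ) ≠ 0 := by norm_num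
  have h3h : lv ((3 : ℤ) ^ h) = (h : ZMod 3) ∧ lw ((3 : ℤ) ^ h) = 0 := by
    rcases hh with rfl | rfl
    · rw [pow_one, h3v, h3w]
      exact ⟨by norm_num, rfl⟩
    · rw [pow_two, (hmul 3 3 h30 h30).1, (hmul 3 3 h30 h30).2, h3v, h3w]
      exact ⟨by norm_num, by norm_num⟩
  have h1 := hmul ((3 : ℤ) ^ h) n (pow_ne_zero _ h30) hn0
  have h2 := hmul ((3 : ℤ) ^ h * n) ((q : ℤ) ^ E) (mul_ne_zero (pow_ne_zero _ h30) hn0) hq0
  refine ⟨BB_ne hN hq, ?_, ?_⟩
  · unfold BB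
    rw [h2.1, h1.1, h3h.1, (hunit _ hn3).1, (hunit _ hqE3).1, add_zero, add_zero]
  · unfold BB
    rw [h2.2, h1.2, h3h.2, (hunit _ hn3).2, (hunit _ hqE3).2, zero_add, hw]

theorem sym_pow (hSPP : SPP) {ϖ : PP} (hE : E = 1 ∨ E = 2) {a : Eis} (ha : ¬ ϖ.1 ∣ a) :
    sym ϖ.1 (a ^ E) = (E : ZMod 3) * sym ϖ.1 a := by
  obtain ⟨_, _, _, hSPP4, _, _⟩ := hSPP
  rcases hE with rfl | rfl
  · rw [pow_one, Nat.cast_one, one_mul]
  · rw [pow_two, sym_mul ϖ.2.1 (hSPP4 ϖ).1 ha ha]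
    push_cast
    ring

/-- The condition at `π i`. -/
theorem key (hSPP : SPP) (hN : NF n π p e r f) (hE : E = 1 ∨ E = 2) (hq : q.Prime)
    (hqn : ¬ q ∣ n) (hqc : ∀ i, (E : ZMod 3) * sym (π i).1 (q : Eis) = c i) {x : ℤ} (hx : x ≠ 0)
    (i : Fin m) :
    (V (π i).1 (n : Eis) : ZMod 3) * ch (π i).1 (x : Eis) -
      (V (π i).1 (x : Eis) : ZMod 3) * (ch (π i).1 ((3 ^ h * n : ℕ) : Eis) + c i) =
        tm (π i).1 (x : Eis) ((BB h n E q : ℤ) : Eis) := by
  have hn0 : n ≠ 0 := n_ne hN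
  obtain ⟨l, hl⟩ := below hSPP (π i)
  have hpi : (p i : Eis) = (π i).1 * conj (π i).1 := hN.pπ i
  have hlp : l = p i := by
    have h1 : (π i).1 ∣ (p i : Eis) := by rw [hpi]; exact dvd_mul_right _ _
    exact (Nat.prime_dvd_prime_iff_eq hl.pr (hN.pp i)).1 ((hl.dvd_nat _).1 h1)
  have hpn : p i ∣ n := by
    have h1 : p i ∣ ∏ i, p i ^ e i :=
      (dvd_pow_self _ (by rcases hN.pe i with h | h <;> omega)).trans
        (Finset.dvd_prod_of_mem _ (Finset.mem_univ i))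
    rw [hN.eq]
    exact h1.mul_right _
  have hq' : ¬ (π i).1 ∣ (q : Eis) := by
    intro h
    have h1 := (Nat.prime_dvd_prime_iff_eq hl.pr hq).1 ((hl.dvd_nat _).1 h)
    apply hqn
    rw [← h1, hlp]
    exact hpn
  have hqE' : ¬ (π i).1 ∣ (q : Eis) ^ E := fun h => hq' ((π i).2.1.dvd_of_dvd_pow h)
  have h3 : ¬ (π i).1 ∣ 3 := by
    obtain ⟨_, _, _, hSPP4, _, _⟩ := hSPP
    exact (hSPP4 (π i)).1
  have h30 : (3 : ℕ) ^ h ≠ 0 := pow_ne_zero _ three_ne_zero
  have h3h : ¬ (π i).1 ∣ ((3 ^ h : ℕ) : Eis) := by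
    rw [hl.dvd_nat]
    intro h4
    exact below_ne hl ((Nat.prime_dvd_prime_iff_eq hl.pr Nat.prime_three).1
      (hl.pr.dvd_of_dvd_pow h4))
  have hqE0 : (q : Eis) ^ E ≠ 0 := pow_ne_zero _ (natCast_ne hq.ne_zero)
  have e1 : ((BB h n E q : ℤ) : Eis) = ((3 ^ h * n : ℕ) : Eis) * (q : Eis) ^ E := by
    rw [BB_eis]
    push_cast
    ring
  have e2 : V (π i).1 ((3 ^ h * n : ℕ) : Eis) = V (π i).1 (n : Eis) := by
    have h5 : ((3 ^ h * n : ℕ) : Eis) = ((3 ^ h : ℕ) : Eis) * (n : Eis) := by push_cast; ring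
    rw [h5, V_mul (π i).2.1 (natCast_ne h30) (natCast_ne hn0), V_eq_zero h3h, zero_add]
  have hm0 : ((3 ^ h * n : ℕ) : Eis) ≠ 0 := natCast_ne (mul_ne_zero h30 hn0)
  rw [e1]
  unfold tm
  rw [V_mul (π i).2.1 hm0 hqE0, V_eq_zero hqE', add_zero, e2,
    ch_mul (π i).2.1 h3 hm0 hqE0, ch_unit (π i).2.1 hqE', sym_pow hSPP hE hq', hqc i]

/-- The tame conditions outside of `q`. -/
theorem sym_of (hSPP : SPP) (hSCJ : SCJ) (hN : NF n π p e r f) (hE : E = 1 ∨ E = 2)
    (hq : q.Prime) (hqn : ¬ q ∣ n) (hqc : ∀ i, (E : ZMod 3) * sym (π i).1 (q : Eis) = c i)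
    {x : ℤ} (hx : x ≠ 0) (hsupp : ∀ l : ℕ, l.Prime → (l : ℤ) ∣ x → l ∣ 3 * n)
    (hsym : ∀ i, (V (π i).1 (n : Eis) : ZMod 3) * ch (π i).1 (x : Eis) -
      (V (π i).1 (x : Eis) : ZMod 3) * (ch (π i).1 ((3 ^ h * n : ℕ) : Eis) + c i) = 0)
    (ϖ : PP) (hϖ : q % 3 = 2 ∨ ¬ ϖ.1 ∣ (q : Eis)) :
    tm ϖ.1 (x : Eis) ((BB h n E q : ℤ) : Eis) = 0 := by
  have hB0 : BB h n E q ≠ 0 := BB_ne hN hq
  obtain ⟨l, hl⟩ := below hSPP ϖ
  have hlq : l % 3 = 1 → l ≠ q := by
    intro h1 h2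
    rcases hϖ with h3 | h3
    · omega
    · apply h3
      rw [hl.dvd_nat, h2]
  obtain ⟨_, hSPP2, _, hSPP4, _, _⟩ := id hSPP
  obtain ⟨hSCJ1, _, _, hSCJ4⟩ := hSCJ
  rcases hl.h with ⟨hl3, hl2⟩ | ⟨hl3, hl2, hl4, hl5⟩
  · rw [hl2]
    exact hSCJ4 l hl.pr hl3 x _ hx hB0
  · by_cases hln : l ∣ n
    · rcases prime_dvd hN hl.pr hln with ⟨i, hi⟩ | ⟨j, hj⟩
      · have h4 : ϖ.1 ∣ (π i).1 * conj (π i).1 := by
          rw [← hN.pπ i, ← hi, hl4]
          exact dvd_mul_right _ _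
        rcases ϖ.2.1.dvd_or_dvd h4 with h5 | h5
        · have h6 : ϖ = π i :=
            hSPP2 _ _ (ϖ.2.1.associated_of_dvd (π i).2.1 h5)
          rw [h6, ← key hSPP hN hE hq hqn hqc hx i]
          exact hsym i
        · obtain ⟨ϖ', hϖ'⟩ := (hSPP4 (π i)).2
          have h6 : ϖ = ϖ' := by
            apply hSPP2
            rw [hϖ']
            exact ϖ.2.1.associated_of_dvd (prime_conj (π i).2.1) h5
          rw [h6, hϖ']
          have h7 := hSCJ1 (π i).1 (x : Eis) ((BB h n E q : ℤ) : Eis) (π i).2.1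
            (hSPP4 (π i)).1 (intCast_ne hx) (intCast_ne hB0)
          rw [map_intCast, map_intCast] at h7
          rw [h7, ← key hSPP hN hE hq hqn hqc hx i, hsym i, neg_zero]
      · have := hN.r2 j
        rw [← hj] at this
        omega
    · have hl3' : ¬ l ∣ 3 * n := by
        intro h1
        rcases hl.pr.dvd_mul.1 h1 with h2 | h2
        · exact below_ne hl ((Nat.prime_dvd_prime_iff_eq hl.pr Nat.prime_three).1 h2)
        · exact hln h2
      have h4 : ¬ ϖ.1 ∣ (x : Eis) := by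
        intro h
        exact hl3' (hsupp l hl.pr ((hl.dvd_int x).1 h))
      have h5 : ¬ ϖ.1 ∣ ((BB h n E q : ℤ) : Eis) := by
        rw [BB_eis, hl.dvd_nat]
        intro h
        rcases hl.pr.dvd_mul.1 h with h6 | h6
        · rcases hl.pr.dvd_mul.1 h6 with h7 | h7
          · exact below_ne hl ((Nat.prime_dvd_prime_iff_eq hl.pr Nat.prime_three).1
              (hl.pr.dvd_of_dvd_pow h7))
          · exact hln h7
        · exact hlq hl3 ((Nat.prime_dvd_prime_iff_eq hl.pr hq).1 (hl.pr.dvd_of_dvd_pow h6))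
      unfold tm
      rw [V_eq_zero h4, V_eq_zero h5]
      simp

theorem unr_of (hSPP : SPP) (hh : h = 1 ∨ h = 2) {x : ℤ}
    (hsupp : ∀ l : ℕ, l.Prime → (l : ℤ) ∣ x → l ∣ 3 * n) (ϖ : PP)
    (hϖ : ¬ ϖ.1 ∣ ((BB h n E q : ℤ) : Eis)) : ¬ ϖ.1 ∣ (x : Eis) := by
  intro h1
  obtain ⟨l, hl⟩ := below hSPP ϖ
  apply hϖ
  rw [BB_eis, hl.dvd_nat]
  have h2 : 3 * n ∣ 3 ^ h * n := Nat.mul_dvd_mul_right (dvd_pow_self _ (by omega)) n
  exact ((hsupp l hl.pr ((hl.dvd_int x).1 h1)).trans h2).mul_right _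

theorem wild_iff (hT : TyB h n w0 (BB h n E q)) (hh : h = 1 ∨ h = 2) (x : ℤ) :
    (h = 2 → lw x + lv x * (wt ((n : ℤ) ^ 2) + w0) = 0) ↔
      (lv (BB h n E q) = 2 → lw x + lv x * lw (BB h n E q) = 0) := by
  obtain ⟨-, h1, h2⟩ := hT
  rw [h1, h2]
  rcases hh with rfl | rfl
  · constructor
    · intro _ h3
      exact absurd h3 (by decide)
    · intro _ h3
      exact absurd h3 (by norm_num)
  · constructor
    · intro h3 _
      exact h3 rfl
    · intro h3 _
      exact h3 (by decide)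

end

end EADT

open _root_.Pool.Agent.PT3.EADT in
/-- EADT: `AdC` and `AdT`, `q = 2 (mod 3)`. -/
theorem EADT_thm (hSTM : STM) (hSPP : SPP) (hSCJ : SCJ) (hLCL : LCL) : EADT := by
  have _ := hSTM
  intro h n m k π p e r f w0 c E q hN hh hE hq hq3 hcl hqn
  obtain ⟨hqw, hqc⟩ := hcl
  have hq3' : q ≠ 3 := by rintro rfl; omega
  have hT := base_Ty hLCL hN hh hq hq3' hqw
  refine ⟨base_BT hSPP hN hh hE hq hq3' hqn, hT, fun x hsupp => ⟨?_, ?_⟩⟩
  · rintro ⟨hx, _, hsym, hwild⟩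
    exact ⟨⟨hx, fun ϖ => sym_of hSPP hSCJ hN hE hq hqn hqc hx hsupp hsym ϖ (Or.inl hq3),
      fun ϖ hϖ => unr_of hSPP hh hsupp ϖ hϖ⟩, (wild_iff hT hh x).1 hwild⟩
  · rintro ⟨⟨hx, hsym, _⟩, hwild⟩
    refine ⟨hx, hsupp, fun i => ?_, (wild_iff hT hh x).2 hwild⟩
    rw [key hSPP hN hE hq hqn hqc hx i]
    exact hsym (π i)

end Pool.Agent.PT3


end

section

/-!
# EADU: `AdC` and `AdT` for the primes `q = 1 (mod 3)`

Follows `Pool/Agent/PTE/EADMS.lean`.
-/

set_option autoImplicit false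

namespace Pool.Agent.PT3

open Pool.Agent.Lib_helper18 Pool.Agent.Lib_helper18.Eis Pool.Agent.Lib_helper84.Cub
open Pool.Agent.PT Pool.Agent.PTE

namespace EADU

open Pool.Agent.PT.EADM

theorem ch_pow' {π a : Eis} (hπ : Prime π) (h3 : ¬ π ∣ 3) (ha : a ≠ 0) (E : ℕ) :
    ch π (a ^ E) = (E : ZMod 3) * ch π a := by
  induction E with
  | zero =>
    have h1 : ch π (1 * 1 : Eis) = ch π 1 + ch π 1 := ch_mul hπ h3 one_ne_zero one_ne_zero
    rw [one_mul] at h1
    have h2 : ch π (1 : Eis) = 0 := by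
      have h4 := sub_eq_zero.2 h1
      linear_combination - h4
    rw [pow_zero, h2, Nat.cast_zero, zero_mul]
  | succ k ih =>
    rw [pow_succ, ch_mul hπ h3 (pow_ne_zero _ ha) ha, ih]
    push_cast
    ring

theorem below_ne {π : PP} {l : ℕ} (h : Below π l) : l ≠ 3 := by
  rcases h.h with ⟨h1, _⟩ | ⟨h1, _⟩ <;> omega

/-- the type of `B` at `3` -/
theorem type (hLCL : LCL) {h n E q : ℕ} {w0 : ZMod 3} (hh : h = 1 ∨ h = 2)
    (hn0 : n ≠ 0) (hn3 : ¬ 3 ∣ n) (hq0 : q ≠ 0) (hq3 : ¬ 3 ∣ q)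
    (hw : wt (((q : ℤ) ^ E) ^ 2) = w0) : TyB h n w0 (BB h n E q) := by
  obtain ⟨-, hL2, ⟨hL3, hL4⟩, hL5, -⟩ := hLCL
  have hn : (n : ℤ) ≠ 0 := by exact_mod_cast hn0
  have hq : (q : ℤ) ≠ 0 := by exact_mod_cast hq0
  have hqE : (q : ℤ) ^ E ≠ 0 := pow_ne_zero _ hq
  have h3n : ¬ (3 : ℤ) ∣ (n : ℤ) := fun h => hn3 (by exact_mod_cast h)
  have h3q : ¬ (3 : ℤ) ∣ (q : ℤ) ^ E := by
    intro h
    have h1 : (3 : ℤ) ∣ (q : ℤ) := Int.prime_three.dvd_of_dvd_pow h
    exact hq3 (by exact_mod_cast h1)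
  have h3h : (3 : ℤ) ^ h ≠ 0 := pow_ne_zero _ (by norm_num)
  have hp : lv ((3 : ℤ) ^ h) = (h : ZMod 3) ∧ lw ((3 : ℤ) ^ h) = 0 := by
    rcases hh with rfl | rfl
    · rw [pow_one]
      exact ⟨by rw [hL3]; norm_num, hL4⟩
    · have h1 := hL2 3 3 (by norm_num) (by norm_num)
      have h2 : (3 : ℤ) ^ 2 = 3 * 3 := by norm_num
      rw [h2, h1.1, h1.2, hL3, hL4]
      constructor
      · decide
      · ring
  have hB : BB h n E q ≠ 0 := mul_ne_zero (mul_ne_zero h3h hn) hqE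
  obtain ⟨h1, h2⟩ := hL2 ((3 : ℤ) ^ h * n) ((q : ℤ) ^ E) (mul_ne_zero h3h hn) hqE
  obtain ⟨h3, h4⟩ := hL2 ((3 : ℤ) ^ h) n h3h hn
  obtain ⟨h5, h6⟩ := hL5 n h3n
  obtain ⟨h7, h8⟩ := hL5 _ h3q
  refine ⟨hB, ?_, ?_⟩
  · unfold BB
    rw [h1, h3, hp.1, h5, h7]
    ring
  · unfold BB
    rw [h2, h4, hp.2, h6, h8, hw]
    ring

/-- the conditions on `B` -/
theorem bt {h n m k : ℕ} {π : Fin m → PP} {p e : Fin m → ℕ} {r f : Fin k → ℕ} {E q : ℕ}
    (hN : NF n π p e r f) (hh : h = 1 ∨ h = 2) (hE : E = 1 ∨ E = 2) (hq : q.Prime)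
    (hq3 : ¬ 3 ∣ q) (hqn : ¬ q ∣ n) (hbelow : ∀ π : PP, ∃ l, Below π l) :
    BT (BB h n E q) := by
  have hn0 : n ≠ 0 := n_ne hN
  have hn3 : ¬ 3 ∣ n := three_not hN
  have hM : ¬ 3 ∣ n * q ^ E := by
    intro h1
    rcases Nat.prime_three.dvd_mul.1 h1 with h2 | h2
    · exact hn3 h2
    · exact hq3 (Nat.prime_three.dvd_of_dvd_pow h2)
  have e0 : BB h n E q = ((3 ^ h * (n * q ^ E) : ℕ) : ℤ) := by
    unfold BB
    push_cast
    ring
  have hne : 3 ^ h * (n * q ^ E) ≠ 0 :=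
    mul_ne_zero (pow_ne_zero _ (by norm_num)) (mul_ne_zero hn0 (pow_ne_zero _ hq.ne_zero))
  refine ⟨⟨?_, ?_⟩, ?_, ?_⟩
  · rw [e0]
    exact_mod_cast hne
  · intro ϖ
    obtain ⟨l, hl⟩ := hbelow ϖ
    have hl3 := below_ne hl
    rw [e0, Int.cast_natCast, hl.V_nat hne,
      Nat.factorization_mul (pow_ne_zero _ (by norm_num))
        (mul_ne_zero hn0 (pow_ne_zero _ hq.ne_zero)), Finsupp.add_apply,
      Nat.factorization_mul hn0 (pow_ne_zero _ hq.ne_zero), Finsupp.add_apply]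
    have h1 := fac_le hN l
    have h0 : (3 ^ h).factorization l = 0 := by
      apply Nat.factorization_eq_zero_of_not_dvd
      intro h2
      exact hl3 ((Nat.prime_dvd_prime_iff_eq hl.pr Nat.prime_three).1 (hl.pr.dvd_of_dvd_pow h2))
    by_cases hlq : l = q
    · have h2 : n.factorization l = 0 := by
        rw [hlq]
        exact Nat.factorization_eq_zero_of_not_dvd hqn
      have h3 : (q ^ E).factorization l = E := by
        rw [hlq, hq.factorization_pow, Finsupp.single_eq_same]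
      omega
    · have h3 : (q ^ E).factorization l = 0 := by
        apply Nat.factorization_eq_zero_of_not_dvd
        intro h2
        exact hlq ((Nat.prime_dvd_prime_iff_eq hl.pr hq).1 (hl.pr.dvd_of_dvd_pow h2))
      omega
  · rw [e0]
    have h1 : 3 ∣ 3 ^ h * (n * q ^ E) := by
      apply Dvd.dvd.mul_right
      rcases hh with rfl | rfl
      · norm_num
      · norm_num
    exact_mod_cast h1
  · rw [e0]
    intro h1
    have h2 : 27 ∣ 3 ^ h * (n * q ^ E) := by exact_mod_cast h1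
    apply hM
    rcases hh with rfl | rfl
    · generalize n * q ^ E = M at *
      omega
    · generalize n * q ^ E = M at *
      omega

end EADU

open Pool.Agent.PT.EADM _root_.Pool.Agent.PT3.EADU in
/-- EADU: `AdC` and `AdT`, `q = 1 (mod 3)`. -/
theorem EADU_thm (hSTM : STM) (hSPP : SPP) (hSCJ : SCJ) (hSPLT : SPLT) (hLCL : LCL) : EADU := by
  have _ := hSTM
  intro h n m k π p e r f w0 c E q ρ hN hh hE hq hq3 hcl hqn hqρ
  obtain ⟨_, hSPP2, _, hSPP4, _, hSPP6⟩ := hSPP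
  obtain ⟨hSCJ1, _, _, hSCJ4⟩ := hSCJ
  obtain ⟨hqw, hqc⟩ := hcl
  obtain ⟨-, hsplit⟩ := hSPLT
  obtain ⟨-, -, hS3, hS4, -, -⟩ := hsplit q ρ hq hq3 hqρ
  have hn0 : n ≠ 0 := n_ne hN
  have hn3 : ¬ 3 ∣ n := three_not hN
  have hbelow : ∀ π : PP, ∃ l, Below π l := by
    intro π
    obtain ⟨l, hl, h⟩ := hSPP6 π
    exact ⟨l, hl, h⟩
  have h3q : ¬ 3 ∣ q := by omega
  have hbt := bt hN hh hE hq h3q hqn hbelow
  have hty := EADU.type hLCL hh hn0 hn3 hq.ne_zero h3q hqw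
  refine ⟨hbt, hty, ?_⟩
  have hB0 : BB h n E q ≠ 0 := hbt.ne
  intro x hsupp
  have hρ3 : ¬ ρ.1 ∣ 3 := (hSPP4 ρ).1
  have h3ne : ((3 ^ h * n : ℕ) : Eis) ≠ 0 := natCast_ne
    (mul_ne_zero (pow_ne_zero _ (by norm_num)) hn0)
  have hq0 : (q : Eis) ≠ 0 := natCast_ne hq.ne_zero
  have e1 : ((BB h n E q : ℤ) : Eis) = ((3 ^ h * n : ℕ) : Eis) * (q : Eis) ^ E := by
    unfold BB
    push_cast
    ring
  -- divisors of `3 n`
  have hsupp' : ∀ l : ℕ, l.Prime → l ≠ 3 → (l : ℤ) ∣ x → l ∣ n := by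
    intro l hl hl3 hlx
    rcases hl.dvd_mul.1 (hsupp l hl hlx) with h1 | h1
    · exact absurd ((Nat.prime_dvd_prime_iff_eq hl Nat.prime_three).1 h1) hl3
    · exact h1
  have hq3' : q ≠ 3 := by omega
  -- `ρ` does not divide `x`
  have hρx : ¬ ρ.1 ∣ (x : Eis) := fun h => hqn (hsupp' q hq hq3' ((hS4 x).1 h))
  have hρn : ¬ ρ.1 ∣ ((3 ^ h * n : ℕ) : Eis) := by
    intro h1
    have h2 := (hS4 ((3 ^ h * n : ℕ) : ℤ)).1 (by rwa [Int.cast_natCast])
    have h3 : q ∣ 3 ^ h * n := by exact_mod_cast h2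
    rcases hq.dvd_mul.1 h3 with h4 | h4
    · exact hq3' ((Nat.prime_dvd_prime_iff_eq hq Nat.prime_three).1 (hq.dvd_of_dvd_pow h4))
    · exact hqn h4
  -- the symbol at `ρ`
  have hVq : V ρ.1 (q : Eis) = 1 := by
    obtain ⟨l, hl⟩ := hbelow ρ
    have h1 : ρ.1 ∣ (q : Eis) := by rw [hqρ]; exact dvd_mul_right _ _
    have h2 : l = q := (Nat.prime_dvd_prime_iff_eq hl.pr hq).1 ((hl.dvd_nat _).1 h1)
    rw [← h2]
    exact hl.V_self
  have hVB : V ρ.1 ((BB h n E q : ℤ) : Eis) = E := by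
    rw [e1, V_mul ρ.2.1 h3ne (pow_ne_zero _ hq0), V_eq_zero hρn, V_pow ρ.2.1 hq0, hVq,
      zero_add, mul_one]
  have hrho : tm ρ.1 (x : Eis) ((BB h n E q : ℤ) : Eis) = (E : ZMod 3) * sym ρ.1 (x : Eis) := by
    unfold tm
    rw [hVB, V_eq_zero hρx, ch_unit ρ.2.1 hρx]
    simp
  have hE0 : (E : ZMod 3) ≠ 0 := by
    rcases hE with rfl | rfl <;> decide
  -- the conditions at the `π i`
  have key : x ≠ 0 → ∀ i, (V (π i).1 (n : Eis) : ZMod 3) * ch (π i).1 (x : Eis) -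
      (V (π i).1 (x : Eis) : ZMod 3) * (ch (π i).1 ((3 ^ h * n : ℕ) : Eis) + c i) =
      tm (π i).1 (x : Eis) ((BB h n E q : ℤ) : Eis) := by
    intro hx i
    obtain ⟨l, hl⟩ := hbelow (π i)
    have hpi : (p i : Eis) = (π i).1 * conj (π i).1 := hN.pπ i
    have hlp : l = p i := by
      have h1 : (π i).1 ∣ (p i : Eis) := by rw [hpi]; exact dvd_mul_right _ _
      exact (Nat.prime_dvd_prime_iff_eq hl.pr (hN.pp i)).1 ((hl.dvd_nat _).1 h1)
    have hq' : ¬ (π i).1 ∣ (q : Eis) := by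
      intro h
      have h1 := (Nat.prime_dvd_prime_iff_eq hl.pr hq).1 ((hl.dvd_nat _).1 h)
      apply hqn
      rw [← h1, hlp, hN.eq]
      have he : e i ≠ 0 := by
        have := hN.pe i
        omega
      exact Dvd.dvd.mul_right ((dvd_pow_self _ he).trans
        (Finset.dvd_prod_of_mem (fun i => p i ^ e i) (Finset.mem_univ i))) _
    have h3 : ¬ (π i).1 ∣ 3 := (hSPP4 (π i)).1
    have h3' : ¬ (π i).1 ∣ ((3 ^ h : ℕ) : Eis) := by
      intro h4
      apply h3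
      have h5 := (hl.dvd_nat _).1 h4
      have h6 := (hl.dvd_nat 3).2 (hl.pr.dvd_of_dvd_pow h5)
      exact_mod_cast h6
    have h30 : ((3 ^ h : ℕ) : Eis) ≠ 0 := natCast_ne (pow_ne_zero _ (by norm_num))
    have hV : V (π i).1 ((3 ^ h * n : ℕ) : Eis) = V (π i).1 (n : Eis) := by
      rw [Nat.cast_mul, V_mul (π i).2.1 h30 (natCast_ne hn0), V_eq_zero h3', zero_add]
    rw [e1]
    unfold tm
    rw [V_mul (π i).2.1 h3ne (pow_ne_zero _ hq0), V_pow (π i).2.1 hq0, V_eq_zero hq', mul_zero,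
      add_zero, hV, ch_mul (π i).2.1 h3 h3ne (pow_ne_zero _ hq0), ch_pow' (π i).2.1 h3 hq0 E,
      ch_unit (π i).2.1 hq', hqc i]
  have hwild : h = 2 ↔ lv (BB h n E q) = 2 := by
    rw [hty.2.1]
    rcases hh with rfl | rfl
    · constructor
      · intro h1
        omega
      · intro h1
        exact absurd h1 (by decide)
    · constructor
      · intro _
        rfl
      · intro _
        rfl
  constructor
  · rintro ⟨⟨hx, _, hsym, h9⟩, hxρ⟩
    refine ⟨⟨hx, ?_, ?_⟩, fun h1 => ?_⟩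
    · intro ϖ
      obtain ⟨l, hl⟩ := hbelow ϖ
      rcases hl.h with ⟨hl3, hl2⟩ | ⟨hl3, hl2, hl4, hl5⟩
      · rw [hl2]
        exact hSCJ4 l hl.pr hl3 x _ hx hB0
      · by_cases hln : l ∣ n
        · rcases prime_dvd hN hl.pr hln with ⟨i, hi⟩ | ⟨j, hj⟩
          · have h4 : ϖ.1 ∣ (π i).1 * conj (π i).1 := by
              rw [← hN.pπ i, ← hi, hl4]
              exact dvd_mul_right _ _
            rcases ϖ.2.1.dvd_or_dvd h4 with h5 | h5
            · have h6 : ϖ = π i :=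
                hSPP2 _ _ (ϖ.2.1.associated_of_dvd (π i).2.1 h5)
              rw [h6, ← key hx i]
              exact hsym i
            · obtain ⟨ϖ', hϖ'⟩ := (hSPP4 (π i)).2
              have h6 : ϖ = ϖ' := by
                apply hSPP2
                rw [hϖ']
                exact ϖ.2.1.associated_of_dvd (prime_conj (π i).2.1) h5
              rw [h6, hϖ']
              have h7 := hSCJ1 (π i).1 (x : Eis) ((BB h n E q : ℤ) : Eis) (π i).2.1
                (hSPP4 (π i)).1 (intCast_ne hx) (intCast_ne hB0)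
              rw [map_intCast, map_intCast] at h7
              rw [h7, ← key hx i, hsym i, neg_zero]
          · have := hN.r2 j
            rw [← hj] at this
            omega
        · by_cases hlq : l = q
          · -- the primes above `q`
            have h4 : ϖ.1 ∣ (q : Eis) := by
              rw [← hlq, hl4]
              exact dvd_mul_right _ _
            rcases hS3 ϖ h4 with h5 | h5
            · rw [h5, hrho, hxρ, mul_zero]
            · rw [h5]
              have h7 := hSCJ1 ρ.1 (x : Eis) ((BB h n E q : ℤ) : Eis) ρ.2.1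
                hρ3 (intCast_ne hx) (intCast_ne hB0)
              rw [map_intCast, map_intCast] at h7
              rw [h7, hrho, hxρ, mul_zero, neg_zero]
          · have h4 : ¬ ϖ.1 ∣ (x : Eis) := by
              intro h
              exact hln (hsupp' l hl.pr (below_ne hl) ((hl.dvd_int x).1 h))
            have h5 : ¬ ϖ.1 ∣ ((BB h n E q : ℤ) : Eis) := by
              rw [e1]
              intro h6
              rcases ϖ.2.1.dvd_or_dvd h6 with h7 | h7
              · rcases hl.pr.dvd_mul.1 ((hl.dvd_nat _).1 h7) with h8 | h8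
                · exact below_ne hl ((Nat.prime_dvd_prime_iff_eq hl.pr Nat.prime_three).1
                    (hl.pr.dvd_of_dvd_pow h8))
                · exact hln h8
              · exact hlq ((Nat.prime_dvd_prime_iff_eq hl.pr hq).1
                  ((hl.dvd_nat _).1 (ϖ.2.1.dvd_of_dvd_pow h7)))
            unfold tm
            rw [V_eq_zero h4, V_eq_zero h5]
            simp
    · intro ϖ hϖ h1
      obtain ⟨l, hl⟩ := hbelow ϖ
      apply hϖ
      rw [e1]
      apply Dvd.dvd.mul_right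
      rw [hl.dvd_nat]
      exact (hsupp' l hl.pr (below_ne hl) ((hl.dvd_int x).1 h1)).mul_left _
    · have h2 := h9 (hwild.2 h1)
      rw [hty.2.2]
      exact h2
  · rintro ⟨⟨hx, hsym, _⟩, h9⟩
    refine ⟨⟨hx, hsupp, fun i => ?_, fun h1 => ?_⟩, ?_⟩
    · rw [key hx i]
      exact hsym (π i)
    · have h2 := h9 (hwild.1 h1)
      rw [hty.2.2] at h2
      exact h2
    · have h1 := hsym ρ
      rw [hrho] at h1
      exact (mul_eq_zero.1 h1).resolve_left hE0

end Pool.Agent.PT3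


end

section

/-!
# Splitting into cells, `3 ∣ B`
-/

namespace Pool.Agent.PT3

open Pool.Agent.Lib_helper18 Pool.Agent.Lib_helper18.Eis Pool.Agent.Lib_helper84.Cub
open Pool.Agent.PT Pool.Agent.PTE

namespace FDCT

open Pool.Agent.PT.FDC

/-- the condition on `B` means that `B` is cube-free -/
theorem cf_of_BT {B : ℤ} (hB : BT B) : CF B := by
  intro p hp h
  by_cases h3 : (3 : ℤ) ∣ p
  · apply hB.t2
    have e : (27 : ℤ) = 3 ^ 3 := by norm_num
    rw [e]
    exact (pow_dvd_pow_of_dvd h3 3).trans h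
  have hp0 : p ≠ 0 := hp.ne_zero
  have hnu : ¬ IsUnit ((p : ℤ) : Eis) := by
    rw [isUnit_iff_norm]
    intro h1
    have h2 : ((p : ℤ) : Eis).norm = p ^ 2 := by
      rw [Eis.norm]; simp
    rw [h2] at h1
    have : p = 1 ∨ p = -1 := by
      have h3 : (p - 1) * (p + 1) = 0 := by linear_combination h1
      rcases mul_eq_zero.mp h3 with h | h
      · left; linarith
      · right; linarith
    exact hp.not_isUnit (Int.isUnit_iff.mpr this)
  have hpe : ((p : ℤ) : Eis) ≠ 0 := by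
    intro h1
    have := congrArg Eis.re h1
    simp at this
    exact hp0 this
  obtain ⟨l, hlirr, hlt⟩ := WfDvdMonoid.exists_irreducible_factor hnu hpe
  have hl : Prime l := hlirr.prime
  have hl3 : ¬ l ∣ 3 := by
    intro h1
    obtain ⟨u, v, huv⟩ := (Int.prime_three.coprime_iff_not_dvd).mpr h3
    have h2 : ((u : ℤ) : Eis) * 3 + ((v : ℤ) : Eis) * ((p : ℤ) : Eis) = 1 := by
      have h4 : ((u * 3 + v * p : ℤ) : Eis) = ((1 : ℤ) : Eis) := by rw [huv]
      push_cast at h4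
      exact h4
    apply hl.not_isUnit
    rw [isUnit_iff_dvd_one, ← h2]
    exact dvd_add (Dvd.dvd.mul_left h1 _) (Dvd.dvd.mul_left hlt _)
  obtain ⟨i, hi⟩ := exists_prim (not_lam_dvd_of_prime hl hl3)
  have hass : Associated (l * w ^ i) l := ⟨(isUnit_w.pow i).unit⁻¹, by
    rw [mul_assoc]; simp⟩
  have hBe : ((B : ℤ) : Eis) ≠ 0 := by
    intro h1
    have := congrArg Eis.re h1
    simp at this
    exact hB.ne this
  have key : ∀ π : Eis, Associated π l → π.re % 3 = 2 → (3 : ℤ) ∣ π.im → False := by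
    intro π hπ h1 h2
    have hπp : Prime π := hπ.symm.prime hl
    have h3 := hB.cf ⟨π, hπp, h1, h2⟩
    simp only at h3
    have h4 : π ^ 3 ∣ ((B : ℤ) : Eis) := by
      have h5 : π ∣ ((p : ℤ) : Eis) := hπ.dvd.trans hlt
      refine (pow_dvd_pow_of_dvd h5 3).trans ?_
      obtain ⟨c, rfl⟩ := h
      exact ⟨c, by push_cast; ring⟩
    have h6 : 3 ≤ V π ((B : ℤ) : Eis) := (fin hπp hBe).le_multiplicity_of_pow_dvd h4
    omega
  obtain ⟨hi1, hi2⟩ := hi
  have h5 : (l * w ^ i).re % 3 = 1 ∨ (l * w ^ i).re % 3 = 2 := by omega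
  rcases h5 with h5 | h5
  · refine key (-(l * w ^ i)) (hass.neg_left) ?_ ?_
    · rw [neg_re]; omega
    · rw [neg_im]; omega
  · exact key _ hass h5 hi1

end FDCT

open _root_.Pool.Agent.PT3.FDCT Pool.Agent.PT.FDC in
theorem FDCT_thm : FDCT := by
  intro B m A hB hA hsum hprod hcop
  choose a x hax hcf using fun k => exists_cf (A k) (hA k)
  have hx0 : ∀ k, x k ≠ 0 := by
    intro k h
    apply hA k
    rw [hax k, h]; ring
  have hm0 : m ≠ 0 := by
    rintro rfl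
    have : A 0 * A 1 * A 2 = 0 := by rw [hprod]; ring
    exact mul_ne_zero (mul_ne_zero (hA 0) (hA 1)) (hA 2) this
  have hca : ∀ i j, i ≠ j → IsCoprime (a i) (a j) := by
    intro i j hij
    have h := hcop i j hij
    rw [hax i, hax j] at h
    exact h.of_mul_left_left.of_mul_right_left
  have hcx : ∀ i j, i ≠ j → IsCoprime (x i) (x j) := by
    intro i j hij
    have h := hcop i j hij
    rw [hax i, hax j] at h
    exact (h.of_mul_left_right.of_mul_right_right.of_isCoprime_of_dvd_left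
      (dvd_pow_self _ (by norm_num))).of_isCoprime_of_dvd_right (dvd_pow_self _ (by norm_num))
  have hP : CF (a 0 * a 1 * a 2) := CF.mul (CF.mul (hcf 0) (hcf 1) (hca 0 1 (by decide))) (hcf 2)
    (IsCoprime.mul_left (hca 0 2 (by decide)) (hca 1 2 (by decide)))
  have hu := cf_unique (cf_of_BT hB) hP hm0
    (mul_ne_zero (mul_ne_zero (hx0 0) (hx0 1)) (hx0 2)) (by
      rw [← hprod, hax 0, hax 1, hax 2]; ring)
  rcases hu with hu | hu
  · have hprod' : ∏ k, a k = B := by rw [Fin.prod_univ_three, hu]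
    exact ⟨a, x, hax, hprod', hca, hcx⟩
  · have hprod' : ∏ k, (-a k) = B := by rw [Fin.prod_univ_three]; linear_combination -hu
    have hax' : ∀ k, A k = (-a k) * (-x k) ^ 3 := by intro k; rw [hax k]; ring
    have hcx' : ∀ i j, i ≠ j → IsCoprime (-x i) (-x j) := fun i j h =>
      (hcx i j h).neg_left.neg_right
    exact ⟨fun k => -a k, fun k => -x k, hax', hprod',
      fun i j h => (hca i j h).neg_left.neg_right, hcx'⟩

end Pool.Agent.PT3


end

section

/-!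
# PT3, module FIN0: sum over the classes, `n` prime to `3`
-/

set_option autoImplicit false

namespace Pool.Agent.PT3

open Pool.Agent.Lib_helper18 Pool.Agent.Lib_helper18.Eis Pool.Agent.Lib_helper84.Cub
open Pool.Agent.PT Pool.Agent.PTE

namespace FIN0

/-- there are two values `w0` with `a + w0 ≠ 0` -/
theorem two_le (a : ZMod 3) : 2 ≤ Nat.card {w0 : ZMod 3 // a + w0 ≠ 0} := by
  rw [Nat.card_eq_fintype_card]
  revert a
  decide

/-- there is a value `w0 ≠ 0` with `a + w0 ≠ 0` -/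
theorem exists_w0 (a : ZMod 3) : ∃ w0 : ZMod 3, w0 ≠ 0 ∧ a + w0 ≠ 0 := by
  revert a
  decide

/-- a smaller density -/
theorem dens_mono {S : Set ℕ} {δ δ' : ℝ} (h : RI.DensityGE S δ) (hδ : δ' ≤ δ) :
    RI.DensityGE S δ' := by
  obtain ⟨C, h⟩ := h
  refine ⟨C, fun s hs hs2 => le_trans ?_ (h s hs hs2)⟩
  have h0 : 0 ≤ Real.log (1 / (s - 1)) := by
    apply Real.log_nonneg
    rw [le_div_iff₀ (by linarith)]
    linarith
  have h1 := mul_le_mul_of_nonneg_right hδ h0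
  linarith

/-- sum over the classes, with two values of `w0` -/
theorem sum_two (hDADD : DADD) {m : ℕ} (a : ZMod 3) (D : ZMod 3 → (Fin m → ZMod 3) → Prop)
    (hD : ∀ w0, a + w0 ≠ 0 → 2 ^ m ≤ Nat.card {c : Fin m → ZMod 3 // D w0 c})
    (I : ZMod 3 → (Fin m → ZMod 3) → ℕ → Prop) (T : Set ℕ)
    (hI : ∀ w0 w0' c c' q, I w0 c q → I w0' c' q → w0 = w0' ∧ c = c')
    (h : ∀ w0 c, a + w0 ≠ 0 → D w0 c → RI.DensityGE {q : ℕ | I w0 c q ∧ q ∈ T} (1 / (24 * 3 ^ m))) :
    RI.DensityGE T (2 ^ m / (12 * 3 ^ m)) := by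
  classical
  have h1 := hDADD (Σ w : {w0 : ZMod 3 // a + w0 ≠ 0}, {c : Fin m → ZMod 3 // D w.1 c})
    (fun i => {q : ℕ | I i.1.1 i.2.1 q ∧ q ∈ T}) T (1 / (24 * 3 ^ m)) (by positivity)
    (fun i => h _ _ i.1.2 i.2.2) (fun i q hq => hq.2) (fun i j hij => by
      rw [Set.disjoint_left]
      rintro q ⟨h1, -⟩ ⟨h2, -⟩
      apply hij
      obtain ⟨⟨w, hw⟩, ⟨c, hc⟩⟩ := i
      obtain ⟨⟨w', hw'⟩, ⟨c', hc'⟩⟩ := j
      obtain ⟨rfl, rfl⟩ := hI _ _ _ _ _ h1 h2
      rfl) (2 * 2 ^ m) (by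
      rw [Fintype.card_sigma]
      have h2 := two_le a
      rw [Nat.card_eq_fintype_card] at h2
      calc 2 * 2 ^ m ≤ Fintype.card {w0 : ZMod 3 // a + w0 ≠ 0} * 2 ^ m :=
            Nat.mul_le_mul_right _ h2
        _ = ∑ w : {w0 : ZMod 3 // a + w0 ≠ 0}, 2 ^ m := by
            rw [Finset.sum_const, Finset.card_univ, smul_eq_mul]
        _ ≤ _ := Finset.sum_le_sum fun w _ => by
            have h3 := hD w.1 w.2
            rwa [Nat.card_eq_fintype_card] at h3)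
  refine dens_mono h1 (le_of_eq ?_)
  push_cast
  rw [mul_one_div, div_eq_div_iff (by positivity) (by positivity)]
  ring

/-- sum over the classes, with one value of `w0` -/
theorem sum_one (hDADD : DADD) {m : ℕ} (D : (Fin m → ZMod 3) → Prop)
    (hD : 2 ^ m ≤ Nat.card {c : Fin m → ZMod 3 // D c})
    (I : (Fin m → ZMod 3) → ℕ → Prop) (T : Set ℕ)
    (hI : ∀ c c' q, I c q → I c' q → c = c')
    (h : ∀ c, D c → RI.DensityGE {q : ℕ | I c q ∧ q ∈ T} (1 / (30 * 3 ^ m))) :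
    RI.DensityGE T (2 ^ m / (30 * 3 ^ m)) := by
  classical
  have h1 := hDADD {c : Fin m → ZMod 3 // D c}
    (fun i => {q : ℕ | I i.1 q ∧ q ∈ T}) T (1 / (30 * 3 ^ m)) (by positivity)
    (fun i => h _ i.2) (fun i q hq => hq.2) (fun i j hij => by
      rw [Set.disjoint_left]
      rintro q ⟨h1, -⟩ ⟨h2, -⟩
      exact hij (Subtype.ext (hI _ _ _ h1 h2))) (2 ^ m) (by
      rwa [Nat.card_eq_fintype_card] at hD)
  refine dens_mono h1 (le_of_eq ?_)
  push_cast
  rw [mul_one_div]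

theorem incl_unique {m : ℕ} (π : Fin m → PP) (w0 w0' : ZMod 3) (c c' : Fin m → ZMod 3) (q : ℕ)
    (h : InCl π w0 c q) (h' : InCl π w0' c' q) : w0 = w0' ∧ c = c' :=
  ⟨h.2.1.symm.trans h'.2.1, funext fun i => (h.2.2 i).symm.trans (h'.2.2 i)⟩

theorem incls_unique {m : ℕ} (π : Fin m → PP) (w0 w0' : ZMod 3) (c c' : Fin m → ZMod 3) (q : ℕ)
    (h : InClS π w0 c q) (h' : InClS π w0' c' q) : w0 = w0' ∧ c = c' :=
  ⟨h.2.1.symm.trans h'.2.1, funext fun i => (h.2.2 i).symm.trans (h'.2.2 i)⟩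

theorem weaker {T : Set ℕ} {m : ℕ} (h : RI.DensityGE T (2 ^ m / (12 * 3 ^ m))) :
    RI.DensityGE T (2 ^ m / (30 * 3 ^ m)) := by
  refine dens_mono h ?_
  apply div_le_div_of_nonneg_left (by positivity) (by positivity)
  have : (0 : ℝ) < 3 ^ m := by positivity
  linarith

end FIN0

open _root_.Pool.Agent.PT3.FIN0 in
/-- FIN0: `n` prime to `3`. -/
theorem FIN0_thm (hFCL0 : FCL0) (hFCS0 : FCS0) (hEMA0 : EMA0) (hDADD : DADD) : FIN0 := by
  intro n m k π p e r f hNF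
  have hev : Even k → RI.DensityGE {q : ℕ | ¬ ∃ X Y : ℚ, X ^ 3 + Y ^ 3 = (n : ℚ) * q}
      (2 ^ m / (12 * 3 ^ m)) := by
    intro hk
    exact sum_two hDADD (wt ((n : ℤ) ^ 2)) (fun _ c => (Mp n π p e r none c).det ≠ 0)
      (fun _ _ => hEMA0 n m k π p e r) (fun w0 c q => InCl π w0 c q) _ (incl_unique π)
      (fun w0 c hw hc => hFCL0 n m k π p e r f w0 c hNF hk hw hc)
  refine ⟨hev, ?_⟩
  rcases Nat.even_or_odd k with hk | hk
  · exact weaker (hev hk)
  · obtain ⟨w0, h0, hw⟩ := exists_w0 (wt ((n : ℤ) ^ 2))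
    exact sum_one hDADD (fun c => (Mp n π p e r none c).det ≠ 0) (hEMA0 n m k π p e r)
      (fun c q => InClS π w0 c q) _ (fun c c' q h h' => (incls_unique π w0 w0 c c' q h h').2)
      (fun c hc => hFCS0 n m k π p e r f w0 c hNF hk (Or.inl h0) hw hc)

end Pool.Agent.PT3


end

section

/-!
# PT3: the theorem for all `n`
-/

set_option autoImplicit false

namespace Pool.Agent.PT3

open Pool.Agent.Lib_helper18 Pool.Agent.Lib_helper18.Eis Pool.Agent.Lib_helper84.Cub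
open Pool.Agent.PT Pool.Agent.PTE

namespace MAI3

/-- the density statements give the two inequalities -/
theorem ineq {N m : ℕ} {d : ℝ} (c : ℝ) (_hc : 0 < c) (hd : d = 2 ^ m / (c * 3 ^ m))
    (h : RI.DensityGE {q : ℕ | ¬ ∃ X Y : ℚ, X ^ 3 + Y ^ 3 = (N : ℚ) * q} d) :
    ∃ C : ℝ, ∀ s : ℝ, 1 < s → s ≤ 2 →
      (2 / 3) ^ m / c * Real.log (1 / (s - 1)) - C ≤
      ∑' q : {q : ℕ // q.Prime ∧ ¬ ∃ X Y : ℚ, X ^ 3 + Y ^ 3 = (N : ℚ) * q}, (q : ℝ) ^ (-s) := by
  obtain ⟨C, hC⟩ := h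
  refine ⟨C, fun s hs1 hs2 => ?_⟩
  have := hC s hs1 hs2
  have e : ((2 : ℝ) / 3) ^ m / c = d := by
    rw [hd, div_pow, div_div, mul_comm ((3 : ℝ) ^ m) c]
  rw [e]
  exact this

/-- multiplying by a cube -/
theorem set_eq {N M T : ℕ} (hT : 0 < T) (h : N = M * T ^ 3) :
    {q : ℕ | ¬ ∃ X Y : ℚ, X ^ 3 + Y ^ 3 = (M : ℚ) * q} =
      {q : ℕ | ¬ ∃ X Y : ℚ, X ^ 3 + Y ^ 3 = (N : ℚ) * q} := by
  ext q
  simp only [Set.mem_setOf_eq]
  rw [h, MAINT.sum_cubes_iff hT q]

/-- the exponents of the primes other than `3` -/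
theorem card_eq (N r : ℕ) (hr : r ≠ 0) :
    Nat.card {p : ℕ // p.Prime ∧ p % 3 = r ∧ ¬ 3 ∣ (N / 3 ^ N.factorization 3).factorization p} =
      Nat.card {p : ℕ // p.Prime ∧ p % 3 = r ∧ ¬ 3 ∣ N.factorization p} := by
  apply Nat.card_congr
  apply Equiv.subtypeEquivRight
  intro p
  have h1 : p % 3 = r → (N / 3 ^ N.factorization 3).factorization p = N.factorization p := by
    intro h
    have h3 : p ≠ 3 := by
      rintro rfl
      exact hr h.symm
    rw [Nat.factorization_ordCompl, Finsupp.erase_ne h3]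
  constructor
  · rintro ⟨a, b, c⟩
    exact ⟨a, b, by rwa [h1 b] at c⟩
  · rintro ⟨a, b, c⟩
    exact ⟨a, b, by rwa [h1 b]⟩

end MAI3

open _root_.Pool.Agent.PT3.MAI3 in
/-- MAI3: the theorem for all `n`. -/
theorem MAI3_thm (hENF : ENF) (hFIN0 : FIN0) (hFIN3 : FIN3) : MAIN3 := by
  intro N hN
  set v := N.factorization 3 with hv
  have hN0 : 3 ^ v * (N / 3 ^ v) = N := Nat.ordProj_mul_ordCompl_eq_self N 3
  have h3 : ¬ 3 ∣ N / 3 ^ v := Nat.not_dvd_ordCompl Nat.prime_three hN.ne'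
  have hpos : 0 < N / 3 ^ v := Nat.ordCompl_pos 3 hN.ne'
  have hm := card_eq N 1 (by norm_num)
  have hk := card_eq N 2 (by norm_num)
  rw [← hv] at hm hk
  obtain ⟨n, t, π, p, e, r, f, hn, ht, hNn, hNF, -⟩ := hENF (N / 3 ^ v) hpos h3
  rw [← hm, ← hk]
  have hvd := Nat.div_add_mod v 3
  have hT : 0 < t * 3 ^ (v / 3) := by positivity
  rcases Nat.eq_zero_or_pos (v % 3) with h0 | h0
  · have hN1 : N = n * (t * 3 ^ (v / 3)) ^ 3 := by
      rw [← hN0, hNn]
      have : 3 ^ v = (3 ^ (v / 3)) ^ 3 := by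
        rw [← pow_mul]
        congr 1
        omega
      rw [this]
      ring
    have hS := set_eq hT hN1
    obtain ⟨f1, f2⟩ := hFIN0 n _ _ π p e r f hNF
    rw [hS] at f1 f2
    refine ⟨ineq 30 (by norm_num) rfl f2, fun hE => ineq 12 (by norm_num) rfl (f1 ?_)⟩
    rwa [h0, zero_add] at hE
  · have hh : v % 3 = 1 ∨ v % 3 = 2 := by omega
    have hN1 : N = (3 ^ (v % 3) * n) * (t * 3 ^ (v / 3)) ^ 3 := by
      rw [← hN0, hNn]
      have : 3 ^ v = 3 ^ (v % 3) * (3 ^ (v / 3)) ^ 3 := by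
        rw [← pow_mul, ← pow_add]
        congr 1
        omega
      rw [this]
      ring
    have hS := set_eq hT hN1
    obtain ⟨f1, f2⟩ := hFIN3 (v % 3) n _ _ π p e r f hNF hh
    rw [hS] at f1 f2
    exact ⟨ineq 30 (by norm_num) rfl f2, fun hE => ineq 12 (by norm_num) rfl (f1 hE)⟩

end Pool.Agent.PT3


end
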