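import Mathlib
import Pool.Agent.PTDM.C21

/-! Parts: PT.FDA, PT.GKI, PT.LAM, PT.LEV, PT.LFIN, PT3.IIAG, PT3.LB, PT3.LEVG -/

section

/-!
# Prime twists of rank zero: FDA, the three integers of the first descent
-/

namespace Pool.Agent.PT

open Pool.Agent.Lib_helper18 Pool.Agent.Lib_helper18.Eis Pool.Agent.Lib_helper84.Cub

namespace FDA

/-- There is an element of `PP` above every rational prime different from `3`. -/
theorem exPP {l : ℕ} (hl : l.Prime) (h3 : l ≠ 3) : ∃ π : PP, π.1 ∣ (l : Eis) := by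
  have h0 : (l : Eis) ≠ 0 := by
    intro h
    have h1 := congrArg Eis.re h
    rw [natCast_re, zero_re] at h1
    exact hl.ne_zero (by exact_mod_cast h1)
  have hu : ¬ IsUnit (l : Eis) := by
    rw [isUnit_iff_norm, norm_natCast]
    intro h
    have h2 : (2 : ℤ) ≤ l := by exact_mod_cast hl.two_le
    nlinarith
  obtain ⟨ρ, hρ, hρl⟩ := WfDvdMonoid.exists_irreducible_factor hu h0
  have hlam : ¬ lam ∣ ρ := by
    intro h
    have h1 := lam_dvd_iff.1 (h.trans hρl)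
    rw [natCast_re, natCast_im, add_zero] at h1
    have h2 : 3 ∣ l := by exact_mod_cast h1
    rcases (Nat.dvd_prime hl).1 h2 with h | h
    · omega
    · exact h3 h.symm
  obtain ⟨i, h1, h2⟩ := exists_prim hlam
  have hw : IsUnit (w ^ i) := IsUnit.pow i (IsUnit.of_mul_eq_one (w ^ 2) (by
    rw [← pow_succ', w_cube]))
  have ha : Associated ρ (ρ * w ^ i) := ⟨hw.unit, by simp⟩
  have hp : Prime (ρ * w ^ i) := ha.prime hρ.prime
  have hd : ρ * w ^ i ∣ (l : Eis) := ha.symm.dvd.trans hρl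
  rcases (by rw [neg_re]; omega : (ρ * w ^ i).re % 3 = 2 ∨ (-(ρ * w ^ i)).re % 3 = 2) with h | h
  · exact ⟨⟨ρ * w ^ i, hp, h, h1⟩, hd⟩
  · exact ⟨⟨-(ρ * w ^ i), hp.neg, h, by rw [neg_im]; exact h1.neg_right⟩, by
      show -(ρ * w ^ i) ∣ (l : Eis)
      exact (neg_dvd).2 hd⟩

theorem cubefree {B : ℤ} (hB : BOk B) {l : ℕ} (hl : l.Prime) : ¬ (l : ℤ) ^ 3 ∣ B := by
  intro h
  by_cases h3 : l = 3
  · subst h3
    exact hB.three ((dvd_pow_self _ (by norm_num)).trans h)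
  · obtain ⟨π, hπ⟩ := exPP hl h3
    have h1 : π.1 ^ 3 ∣ (B : Eis) := by
      refine (pow_dvd_pow_of_dvd hπ 3).trans ?_
      obtain ⟨k, rfl⟩ := h
      exact ⟨(k : Eis), by push_cast; rfl⟩
    have h2 := hB.cf π
    have h0 : (B : Eis) ≠ 0 := by
      intro h
      have h1 := congrArg Eis.re h
      rw [intCast_re, zero_re] at h1
      exact hB.ne h1
    have h4 : FiniteMultiplicity π.1 (B : Eis) :=
      FiniteMultiplicity.of_prime_left π.2.1 h0
    have h5 := h4.le_multiplicity_of_pow_dvd h1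
    have h6 : V π.1 (B : Eis) = multiplicity π.1 (B : Eis) := rfl
    omega

theorem dvd_of_cube {B N z : ℤ} (hB : ∀ l : ℕ, l.Prime → ¬ (l : ℤ) ^ 3 ∣ B) (hN : N ≠ 0)
    (h : N ^ 3 ∣ B * z ^ 3) : N ∣ z := by
  have hg : 0 < Int.gcd N z := Int.gcd_pos_of_ne_zero_left z hN
  obtain ⟨N', z', hc, h1, h2⟩ := Int.exists_gcd_one hg
  set g : ℤ := (Int.gcd N z : ℤ) with hgdef
  have hg0 : g ≠ 0 := by
    rw [hgdef]
    exact_mod_cast hg.ne'
  have h3 : N' ^ 3 ∣ B := by
    have h4 : N' ^ 3 * g ^ 3 ∣ (B * z' ^ 3) * g ^ 3 := by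
      obtain ⟨k, hk⟩ := h
      refine ⟨k, ?_⟩
      rw [h1, h2] at hk
      linear_combination hk
    have h5 := (mul_dvd_mul_iff_right (pow_ne_zero 3 hg0)).1 h4
    have h6 : IsCoprime (N' ^ 3) (z' ^ 3) := (Int.isCoprime_iff_gcd_eq_one.2 hc).pow
    exact h6.dvd_of_dvd_mul_right h5
  have h7 : N'.natAbs = 1 := by
    by_contra hne
    obtain ⟨l, hl, hlN⟩ := Nat.exists_prime_and_dvd hne
    exact hB l hl ((pow_dvd_pow_of_dvd (Int.natCast_dvd.2 hlN) 3).trans h3)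
  rw [h1, h2]
  exact mul_dvd_mul_right ((Int.isUnit_iff_natAbs_eq.2 h7).dvd) _

/-- The final computation. -/
theorem fin_step {B z s t ε : ℤ} {A : Fin 3 → ℤ} (hB : BOk B) (hB3 : 3 ≤ |B|) (hz : z ≠ 0)
    (hε : ε = 1 ∨ ε = -1) (hN0 : s ^ 2 - s * t + t ^ 2 ≠ 0)
    (hsum : A 0 + A 1 + A 2 = 0) (hcop : IsCoprime (A 0) (A 1))
    (hprod : A 0 * A 1 * A 2 * (s ^ 2 - s * t + t ^ 2) ^ 3 = ε * B * z ^ 3)
    (hN1 : s ^ 2 - s * t + t ^ 2 = 1 → |A 0 * A 1 * A 2| = 2) :
    ∃ (A : Fin 3 → ℤ) (m : ℤ), (∀ k, A k ≠ 0) ∧ A 0 + A 1 + A 2 = 0 ∧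
    A 0 * A 1 * A 2 = B * m ^ 3 ∧ (∀ i j, i ≠ j → IsCoprime (A i) (A j)) ∧ |m| < |z| := by
  set N : ℤ := s ^ 2 - s * t + t ^ 2 with hN
  have hNpos : 0 < N := by
    have h1 : 0 ≤ N := by
      rw [hN]
      nlinarith [sq_nonneg (2 * s - t), sq_nonneg t]
    omega
  have hNz : N ∣ z := by
    apply dvd_of_cube (fun l hl => cubefree hB hl) hN0
    have hee : ε * ε = 1 := by rcases hε with rfl | rfl <;> norm_num
    exact ⟨ε * (A 0 * A 1 * A 2), by linear_combination (-ε) * hprod + (- B * z ^ 3) * hee⟩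
  obtain ⟨m, rfl⟩ := hNz
  have hm : m ≠ 0 := by
    rintro rfl
    exact hz (mul_zero _)
  have he3 : ε ^ 3 = ε := by rcases hε with rfl | rfl <;> norm_num
  have hp : A 0 * A 1 * A 2 = B * (ε * m) ^ 3 := by
    apply mul_right_cancel₀ (pow_ne_zero 3 hN0)
    rw [hprod]
    linear_combination (- B * m ^ 3 * N ^ 3) * he3
  have hA0 : A 0 * A 1 * A 2 ≠ 0 := by
    rw [hp]
    refine mul_ne_zero hB.ne (pow_ne_zero 3 (mul_ne_zero ?_ hm))
    rcases hε with rfl | rfl <;> norm_num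
  have hA2 : A 2 = -(A 0 + A 1) := by linarith
  have h12 : IsCoprime (A 1) (A 2) := by
    rw [hA2]
    refine IsCoprime.neg_right ?_
    have := hcop.symm.add_mul_left_right 1
    rwa [mul_one] at this
  have h02 : IsCoprime (A 0) (A 2) := by
    rw [hA2]
    refine IsCoprime.neg_right ?_
    have := hcop.add_mul_left_right 1
    rw [mul_one] at this
    rwa [add_comm] at this
  refine ⟨A, ε * m, ?_, hsum, hp, ?_, ?_⟩
  · intro k
    fin_cases k
    · exact left_ne_zero_of_mul (left_ne_zero_of_mul hA0)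
    · exact right_ne_zero_of_mul (left_ne_zero_of_mul hA0)
    · exact right_ne_zero_of_mul hA0
  · intro i j hij
    fin_cases i <;> fin_cases j <;>
      first
        | exact absurd rfl hij
        | exact hcop
        | exact hcop.symm
        | exact h12
        | exact h12.symm
        | exact h02
        | exact h02.symm
  · have he1 : |ε * m| = |m| := by
      rw [abs_mul]
      rcases hε with rfl | rfl <;> simp
    rw [he1, abs_mul, abs_of_pos hNpos]
    have hmpos : 0 < |m| := abs_pos.2 hm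
    have hN2 : 2 ≤ N := by
      by_contra hlt
      have h1 : N = 1 := by omega
      have h2 := hN1 h1
      rw [hp, abs_mul, abs_pow, he1] at h2
      have h3 : 1 ≤ |m| ^ 3 := one_le_pow₀ (by omega)
      nlinarith
    nlinarith

end FDA

open _root_.Pool.Agent.PT.FDA in
theorem FDA_thm : FDA := by
  intro B x y z c d δ hB hB3 hxy hz hcub hc hd hδ h
  obtain ⟨s, t⟩ := δ
  have hst : IsCoprime s t := by
    rw [Int.isCoprime_iff_gcd_eq_one]
    have h1 : ((Int.gcd s t : ℤ) : Eis) ∣ (⟨s, t⟩ : Eis) := by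
      obtain ⟨s', hs'⟩ := Int.gcd_dvd_left s t
      obtain ⟨t', ht'⟩ := Int.gcd_dvd_right s t
      refine ⟨⟨s', t'⟩, ?_⟩
      ext
      · simp only [mul_re, intCast_re, intCast_im]
        linear_combination hs'
      · simp only [mul_im, intCast_re, intCast_im]
        linear_combination ht'
    have h2 := hδ _ h1
    have h3 := Int.isUnit_iff_natAbs_eq.1 h2
    simpa using h3
  have hre : d * x = c * (3 * s ^ 2 * t - s ^ 3 - t ^ 3) := by
    have h1 := congrArg Eis.re h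
    rw [w_sq] at h1
    simp only [pow_succ, pow_zero, one_mul, mul_re, mul_im, add_re, add_im, sub_re, sub_im,
      neg_re, neg_im, one_re, one_im, w_re, w_im, intCast_re, intCast_im] at h1
    linear_combination h1
  have him : d * y = c * (3 * s * t ^ 2 - s ^ 3 - t ^ 3) := by
    have h1 := congrArg Eis.im h
    rw [w_sq] at h1
    simp only [pow_succ, pow_zero, one_mul, mul_re, mul_im, add_re, add_im, sub_re, sub_im,
      neg_re, neg_im, one_re, one_im, w_re, w_im, intCast_re, intCast_im] at h1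
    linear_combination h1
  set P : ℤ := 3 * s ^ 2 * t - s ^ 3 - t ^ 3 with hP
  set Q : ℤ := 3 * s * t ^ 2 - s ^ 3 - t ^ 3 with hQ
  have hPQ : P * y = Q * x := by
    apply mul_left_cancel₀ hc
    linear_combination (-y) * hre + x * him
  obtain ⟨a', b', hab⟩ := hxy
  obtain ⟨k, hk⟩ : ∃ k, k = P * a' + Q * b' := ⟨_, rfl⟩
  have hkx : k * x = P := by
    rw [hk]
    linear_combination P * hab - b' * hPQ
  have hky : k * y = Q := by
    rw [hk]
    linear_combination Q * hab + a' * hPQ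
  have hk3 : k ∣ 3 := by
    have h1 : IsCoprime P s := by
      have h2 : IsCoprime (-(t ^ 3)) s := (hst.symm.pow_left).neg_left
      have h3 := h2.add_mul_right_left (3 * s * t - s ^ 2)
      have h4 : -(t ^ 3) + (3 * s * t - s ^ 2) * s = P := by rw [hP]; ring
      rwa [h4] at h3
    have h5 : IsCoprime P t := by
      have h2 : IsCoprime (-(s ^ 3)) t := (hst.pow_left).neg_left
      have h3 := h2.add_mul_right_left (3 * s ^ 2 - t ^ 2)
      have h4 : -(s ^ 3) + (3 * s ^ 2 - t ^ 2) * t = P := by rw [hP]; ring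
      rwa [h4] at h3
    have h6 : IsCoprime P (s - t) := by
      have h7 : IsCoprime s (s - t) := by
        have h2 := (hst.neg_right).add_mul_left_right 1
        have h4 : -t + s * 1 = s - t := by ring
        rwa [h4] at h2
      have h2 : IsCoprime (s ^ 3) (s - t) := h7.pow_left
      have h3 := h2.add_mul_right_left ((s - t) ^ 2 - 3 * s * (s - t))
      have h4 : s ^ 3 + ((s - t) ^ 2 - 3 * s * (s - t)) * (s - t) = P := by rw [hP]; ring
      rwa [h4] at h3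
    have h8 : IsCoprime k (s * t * (s - t)) := by
      have h9 : IsCoprime P (s * t * (s - t)) := (h1.mul_right h5).mul_right h6
      rw [← hkx] at h9
      exact h9.of_mul_left_left
    have h10 : k ∣ 3 * (s * t * (s - t)) :=
      ⟨x - y, by linear_combination (-1 : ℤ) * hkx + hky + hP - hQ⟩
    exact h8.dvd_of_dvd_mul_right h10
  have hNN : P ^ 2 - P * Q + Q ^ 2 = (s ^ 2 - s * t + t ^ 2) ^ 3 := by
    rw [hP, hQ]
    ring
  have hN0 : s ^ 2 - s * t + t ^ 2 ≠ 0 := by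
    intro h0
    have h1 : s ^ 2 = 0 := le_antisymm (by nlinarith [sq_nonneg (2 * t - s)]) (sq_nonneg s)
    have h2 : t ^ 2 = 0 := le_antisymm (by nlinarith [sq_nonneg (2 * s - t)]) (sq_nonneg t)
    rw [pow_eq_zero_iff two_ne_zero] at h1 h2
    rw [h1, h2] at hst
    exact not_isCoprime_zero_zero hst
  have hk4 : k = 1 ∨ k = -1 ∨ k = 3 ∨ k = -3 := by
    have h1 : k.natAbs ∣ 3 := by
      have := Int.natAbs_dvd_natAbs.2 hk3
      simpa using this
    rcases (Nat.dvd_prime Nat.prime_three).1 h1 with h | h <;> omega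
  have key : (2 * s - t) * (2 * t - s) * (-(s + t)) * (s ^ 2 - s * t + t ^ 2) ^ 3 =
      - k ^ 3 * B * z ^ 3 := by
    have e1 : (2 * s - t) * (2 * t - s) * (-(s + t)) = -(P + Q) := by
      rw [hP, hQ]
      ring
    rw [e1, ← hNN, ← hkx, ← hky]
    linear_combination (-k ^ 3) * hcub
  have e2 : (s + t) ^ 3 = -P + 3 * (s ^ 2 * t + s * t * (s + t)) := by
    rw [hP]
    ring
  have e3 : (s + t) ^ 3 = -Q + 3 * (s * t ^ 2 + s * t * (s + t)) := by
    rw [hQ]
    ring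
  have hp3 : Prime (3 : ℤ) := Int.prime_three
  by_cases h3 : (3 : ℤ) ∣ s + t
  · obtain ⟨r, hr⟩ := h3
    have hsr : s = 3 * r - t := by linarith
    have hk5 : k = 3 ∨ k = -3 := by
      have h4 : (3 : ℤ) ∣ (s + t) ^ 3 := (Dvd.intro _ hr.symm).trans (dvd_pow_self _ (by norm_num))
      have h5 : (3 : ℤ) ∣ P := by
        have : P = 3 * (s ^ 2 * t + s * t * (s + t)) - (s + t) ^ 3 := by linarith
        rw [this]
        exact dvd_sub (dvd_mul_right _ _) h4
      have h6 : (3 : ℤ) ∣ Q := by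
        have : Q = 3 * (s * t ^ 2 + s * t * (s + t)) - (s + t) ^ 3 := by linarith
        rw [this]
        exact dvd_sub (dvd_mul_right _ _) h4
      have h7 : ¬ ((3 : ℤ) ∣ x ∧ (3 : ℤ) ∣ y) := by
        rintro ⟨⟨x', hx'⟩, y', hy'⟩
        rw [hx', hy'] at hab
        have h8 : (3 : ℤ) ∣ 1 := ⟨a' * x' + b' * y', by linarith⟩
        exact hp3.not_dvd_one h8
      rcases hk4 with h | h | h | h
      · exfalso
        rw [h, one_mul] at hkx hky
        exact h7 ⟨hkx ▸ h5, hky ▸ h6⟩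
      · exfalso
        rw [h, neg_one_mul] at hkx hky
        exact h7 ⟨(dvd_neg).1 (hkx ▸ h5), (dvd_neg).1 (hky ▸ h6)⟩
      · exact Or.inl h
      · exact Or.inr h
    obtain ⟨ε, hε, hkε⟩ : ∃ ε : ℤ, (ε = 1 ∨ ε = -1) ∧ k = -3 * ε := by
      rcases hk5 with h | h
      · exact ⟨-1, Or.inr rfl, by rw [h]; norm_num⟩
      · exact ⟨1, Or.inl rfl, by rw [h]; norm_num⟩
    have he3 : ε ^ 3 = ε := by rcases hε with rfl | rfl <;> norm_num
    refine fin_step (s := s) (t := t) (ε := ε) (A := ![2 * r - t, 2 * r - s, -r]) hB hB3 hz hε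
      hN0 ?_ ?_ ?_ ?_
    · show 2 * r - t + (2 * r - s) + -r = 0
      linarith
    · show IsCoprime (2 * r - t) (2 * r - s)
      obtain ⟨a, b, hab'⟩ := hst
      refine ⟨2 * a + b, a + 2 * b, ?_⟩
      linear_combination hab' + (-(2 : ℤ) * a - 2 * b) * hr
    · show (2 * r - t) * (2 * r - s) * -r * (s ^ 2 - s * t + t ^ 2) ^ 3 = ε * B * z ^ 3
      apply mul_left_cancel₀ (show (27 : ℤ) ≠ 0 by norm_num)
      rw [hkε] at key
      have h4 : 27 * ((2 * r - t) * (2 * r - s) * -r) =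
          (2 * s - t) * (2 * t - s) * (-(s + t)) := by
        rw [hsr]
        ring
      linear_combination key + (s ^ 2 - s * t + t ^ 2) ^ 3 * h4 + 27 * B * z ^ 3 * he3
    · intro h1
      exfalso
      rw [hsr] at h1
      ring_nf at h1
      omega
  · have hk5 : k = 1 ∨ k = -1 := by
      rcases hk4 with h | h | h | h
      · exact Or.inl h
      · exact Or.inr h
      · exfalso
        apply h3
        apply hp3.dvd_of_dvd_pow (n := 3)
        rw [e2, ← hkx, h]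
        exact ⟨-x + (s ^ 2 * t + s * t * (s + t)), by ring⟩
      · exfalso
        apply h3
        apply hp3.dvd_of_dvd_pow (n := 3)
        rw [e2, ← hkx, h]
        exact ⟨x + (s ^ 2 * t + s * t * (s + t)), by ring⟩
    obtain ⟨ε, hε, hkε⟩ : ∃ ε : ℤ, (ε = 1 ∨ ε = -1) ∧ k = -ε := by
      rcases hk5 with h | h
      · exact ⟨-1, Or.inr rfl, by rw [h]; norm_num⟩
      · exact ⟨1, Or.inl rfl, by rw [h]⟩
    have he3 : ε ^ 3 = ε := by rcases hε with rfl | rfl <;> norm_num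
    refine fin_step (s := s) (t := t) (ε := ε) (A := ![2 * s - t, 2 * t - s, -(s + t)]) hB hB3 hz
      hε hN0 ?_ ?_ ?_ ?_
    · show 2 * s - t + (2 * t - s) + -(s + t) = 0
      ring
    · show IsCoprime (2 * s - t) (2 * t - s)
      obtain ⟨a, b, hab'⟩ := hst
      have h4 : IsCoprime (2 * s - t) 3 := by
        refine (hp3.coprime_iff_not_dvd.2 ?_).symm
        intro h5
        apply h3
        obtain ⟨c', hc'⟩ := h5
        exact ⟨s - c', by linarith⟩
      have h6 : IsCoprime (2 * s - t) (3 - (2 * s - t) * (2 * a + b)) := by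
        have := h4.add_mul_left_right (-(2 * a + b))
        have h7 : 3 + (2 * s - t) * (-(2 * a + b)) = 3 - (2 * s - t) * (2 * a + b) := by ring
        rwa [h7] at this
      have h8 : 3 - (2 * s - t) * (2 * a + b) = (a + 2 * b) * (2 * t - s) := by
        linear_combination (-3 : ℤ) * hab'
      rw [h8] at h6
      exact h6.of_mul_right_right
    · show (2 * s - t) * (2 * t - s) * -(s + t) * (s ^ 2 - s * t + t ^ 2) ^ 3 = ε * B * z ^ 3
      rw [hkε] at key
      linear_combination key + B * z ^ 3 * he3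
    · intro h1
      show |(2 * s - t) * (2 * t - s) * -(s + t)| = 2
      have ht1 : t ≤ 1 := by nlinarith [sq_nonneg (2 * s - t)]
      have ht2 : -1 ≤ t := by nlinarith [sq_nonneg (2 * s - t)]
      have hs1 : s ≤ 1 := by nlinarith [sq_nonneg (2 * t - s)]
      have hs2 : -1 ≤ s := by nlinarith [sq_nonneg (2 * t - s)]
      interval_cases s <;> interval_cases t <;> first | (exfalso; norm_num at h1; done) | norm_num

end Pool.Agent.PT


end

section

/-!
# GKI: an integer which is a cube in a cyclotomic field is a cube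
-/

namespace Pool.Agent.PT

open Polynomial

theorem GKI_thm : GKI := by
  intro L _ _ f ζ β d hf hζ hβ hd
  by_contra hcon
  push Not at hcon
  -- `d` is not a cube in `ℚ`
  have hQ : ∀ b : ℚ, b ^ 3 ≠ (d : ℚ) := by
    intro b hb
    have h1 : IsIntegral ℤ b := by
      refine IsIntegral.of_pow (n := 3) (by norm_num) ?_
      rw [hb]
      exact isIntegral_algebraMap (R := ℤ) (A := ℚ) (x := d)
    obtain ⟨t, rfl⟩ := IsIntegrallyClosed.isIntegral_iff.1 h1
    refine hcon t ?_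
    have h2 : ((t ^ 3 : ℤ) : ℚ) = (d : ℚ) := by
      push_cast
      exact hb
    exact_mod_cast h2
  have hirr : Irreducible (X ^ 3 - C (d : ℚ)) := X_pow_sub_C_irreducible_of_prime Nat.prime_three hQ
  -- the cyclotomic field
  have hfo : IsOfFinOrder ζ := isOfFinOrder_iff_pow_eq_one.2 ⟨f, hf, hζ⟩
  have hpr : IsPrimitiveRoot ζ (orderOf ζ) := IsPrimitiveRoot.orderOf ζ
  have : NeZero (orderOf ζ) := ⟨(orderOf_pos_iff.2 hfo).ne'⟩
  have hcyc : IsCyclotomicExtension {orderOf ζ} ℚ (IntermediateField.adjoin ℚ {ζ}) :=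
    hpr.intermediateField_adjoin_isCyclotomicExtension ℚ
  have hab : IsAbelianGalois ℚ (IntermediateField.adjoin ℚ {ζ}) :=
    IsCyclotomicExtension.isAbelianGalois {orderOf ζ} ℚ _
  obtain ⟨γ, hγ⟩ : ∃ γ : IntermediateField.adjoin ℚ {ζ}, (γ : L) = β := ⟨⟨β, hβ⟩, rfl⟩
  have hγ3 : γ ^ 3 = (d : IntermediateField.adjoin ℚ {ζ}) := by
    apply Subtype.ext
    push_cast
    rw [hγ, hd]
  have hroot : aeval γ (X ^ 3 - C (d : ℚ)) = 0 := by
    simp [hγ3]
  have hmonic : (X ^ 3 - C (d : ℚ)).Monic := monic_X_pow_sub_C _ (by norm_num)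
  have hmin : X ^ 3 - C (d : ℚ) = minpoly ℚ γ :=
    minpoly.eq_of_irreducible_of_monic hirr hroot hmonic
  have hdeg : (X ^ 3 - C (d : ℚ)).natDegree = 3 := natDegree_X_pow_sub_C
  have hint : IsIntegral ℚ γ := ⟨_, hmonic, hroot⟩
  -- the field of `γ` is a Galois extension
  let E := IntermediateField.adjoin ℚ {γ}
  have hE : IsAbelianGalois ℚ E := IsAbelianGalois.of_algHom E.val
  have hfin : Module.finrank ℚ E = 3 := by
    rw [IntermediateField.adjoin.finrank hint, ← hmin, hdeg]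
  let δ : E := IntermediateField.AdjoinSimple.gen ℚ γ
  have hδ : (δ : IntermediateField.adjoin ℚ {ζ}) = γ := rfl
  have hδ3 : δ ^ 3 = (d : E) := by
    apply Subtype.ext
    push_cast
    exact hγ3
  have hδmin : minpoly ℚ δ = X ^ 3 - C (d : ℚ) := by
    rw [hmin]
    exact (minpoly.algebraMap_eq (algebraMap E (IntermediateField.adjoin ℚ {ζ})).injective δ).symm
  have hδ0 : δ ≠ 0 := by
    intro h
    rw [h, zero_pow (by norm_num)] at hδ3
    have h2 : (d : ℚ) = 0 := by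
      have : (d : E) = ((d : ℚ) : E) := by push_cast; rfl
      rw [this] at hδ3
      have h4 : ((0 : ℚ) : E) = ((d : ℚ) : E) := by rw [← hδ3]; simp
      exact (Rat.cast_injective h4).symm
    exact hQ 0 (by rw [h2]; norm_num)
  have hcard : Nat.card (E ≃ₐ[ℚ] E) = 3 := by
    rw [IsGalois.card_aut_eq_finrank, hfin]
  -- an automorphism
  have : Nontrivial (E ≃ₐ[ℚ] E) := by
    apply Finite.one_lt_card_iff_nontrivial.1
    rw [hcard]
    norm_num
  obtain ⟨σ, hσ⟩ := exists_ne (1 : E ≃ₐ[ℚ] E)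
  have hσδ : σ δ ≠ δ := by
    intro h
    apply hσ
    have h5 : (σ : E →ₐ[ℚ] E) = AlgHom.id ℚ E := by
      apply IntermediateField.algHom_ext_of_eq_adjoin ℚ (rfl : E = IntermediateField.adjoin ℚ {γ})
      intro x hx
      rw [Set.mem_singleton_iff] at hx
      subst hx
      exact h
    apply AlgEquiv.ext
    intro x
    exact DFunLike.congr_fun h5 x
  -- the primitive cube root of unity
  obtain ⟨ω, hω⟩ : ∃ ω : E, ω = σ δ / δ := ⟨_, rfl⟩
  have hω1 : ω ≠ 1 := by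
    rw [hω]
    intro h
    exact hσδ ((div_eq_one_iff_eq hδ0).1 h)
  have hω3 : ω ^ 3 = 1 := by
    rw [hω, div_pow, ← map_pow, hδ3, map_intCast]
    have : (d : E) ≠ 0 := by
      rw [← hδ3]
      exact pow_ne_zero 3 hδ0
    exact div_self this
  have hωr : aeval ω (X ^ 2 + X + 1 : ℚ[X]) = 0 := by
    have h6 : (ω - 1) * (ω ^ 2 + ω + 1) = 0 := by
      linear_combination hω3
    rcases mul_eq_zero.1 h6 with h7 | h7
    · exact absurd (sub_eq_zero.1 h7) hω1
    · simpa using h7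
  -- `[ℚ(ω) : ℚ]` is at most `2` and divides `3`
  have hq0 : (X ^ 2 + X + 1 : ℚ[X]) ≠ 0 := by
    intro h
    have h8 := congrArg (fun p : ℚ[X] => p.eval 0) h
    simp at h8
  have hωint : IsIntegral ℚ ω := Algebra.IsIntegral.isIntegral ω
  have hle : (minpoly ℚ ω).natDegree ≤ 2 := by
    have h9 := natDegree_le_of_dvd (minpoly.dvd ℚ ω hωr) hq0
    refine h9.trans ?_
    compute_degree
  have hdvd : (minpoly ℚ ω).natDegree ∣ 3 := by
    rw [← hfin]
    exact minpoly.degree_dvd hωint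
  have hone : (minpoly ℚ ω).natDegree = 1 := by
    rcases (Nat.dvd_prime Nat.prime_three).1 hdvd with h | h
    · exact h
    · omega
  obtain ⟨r, hr⟩ := (minpoly.natDegree_eq_one_iff).1 hone
  rw [← hr] at hωr
  have h10 : r ^ 2 + r + 1 = 0 := by
    have h11 : algebraMap ℚ E (r ^ 2 + r + 1) = 0 := by
      simpa using hωr
    exact (map_eq_zero _).1 h11
  nlinarith [sq_nonneg (r + 1 / 2)]

end Pool.Agent.PT


end

section

/-!
# PT_LAM: the local form of the antisymmetry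
-/

namespace Pool.Agent.PT

open Pool.Agent.Lib_helper18 Pool.Agent.Lib_helper18.Eis Pool.Agent.Lib_helper84.Cub

namespace LAM

theorem icast_ne {n : ℤ} (h : n ≠ 0) : (n : Eis) ≠ 0 := by
  intro h0
  apply h
  have := congrArg Eis.re h0
  simpa using this

theorem w_ne : (w : Eis) ≠ 0 := by
  intro h0
  have := congrArg Eis.im h0
  simp at this

/-- the swapped solution -/
theorem sol_swap {b x p q p' q' : ℤ} (h : Sol b x p q p' q') : Sol x b p (-p') (-q) q' := by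
  refine ⟨⟨?_, ?_⟩, ?_⟩
  · have := h.eq
    linear_combination this
  · have := h.n2
    intro h0
    apply this
    linear_combination h0
  · have := h.n1
    intro h0
    apply this
    linear_combination h0

theorem Gf_swap (p q p' q' : ℤ) (i : ℕ) : Gf p (-p') (-q) q' i = Gf p q p' q' i := by
  unfold Gf
  push_cast
  ring

/-- every `sy v` is a symbol -/
theorem lsym (hSTM : STM) (hSPP : SPP) (hSLC : SLC) (v : Pl) : ∃ e, LSym (uni v) (sy v) e := by
  rcases v with _ | π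
  · exact ⟨4, hSLC⟩
  · exact ⟨1, hSTM π.1 π.2.1 (hSPP.2.2.2.1 π).1⟩

theorem tm_swap (π a b : Eis) : tm π b a = - tm π a b := by
  unfold tm
  ring

/-- `(B, b) = 0` at all places -/
theorem sy_zero {B b : ℤ} (h : Adm B b) (v : Pl) : sy v (B : Eis) (b : Eis) = 0 := by
  have h1 : ∀ π : PP, tm π.1 (B : Eis) (b : Eis) = 0 := by
    intro π
    rw [tm_swap π.1 (b : Eis) (B : Eis), h.sym π, neg_zero]
  rcases v with _ | π
  · show sl (B : Eis) (b : Eis) = 0
    unfold sl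
    rw [finsum_congr h1, finsum_zero, neg_zero]
  · exact h1 π

/-- `(w, x) = 0` if `x` is a local cube -/
theorem w_lc (hLCI : LCI) {v : Pl} {e : ℕ} (hs : LSym (uni v) (sy v) e) {x : ℤ} (hx : x ≠ 0)
    (h : LC (uni v) x) : sy v w (x : Eis) = 0 := by
  have h1 : sy v (x : Eis) w = 0 := hLCI.2.2 (uni v) (sy v) e x w hs h hx w_ne
  rw [hs.skew (x : Eis) w (icast_ne hx) w_ne, h1, neg_zero]

/-- expansion of `(w, B x b)` -/
theorem w_mul {v : Pl} {e : ℕ} (hs : LSym (uni v) (sy v) e) {B x b : ℤ} (hB : B ≠ 0)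
    (hx : x ≠ 0) (hb : b ≠ 0) : sy v w ((B * x * b : ℤ) : Eis) =
      sy v w (B : Eis) + sy v w (x : Eis) + sy v w (b : Eis) := by
  have hB' := icast_ne hB
  have hx' := icast_ne hx
  have hb' := icast_ne hb
  have h1 : ((B * x * b : ℤ) : Eis) = (B : Eis) * (x : Eis) * (b : Eis) := by push_cast; ring
  rw [h1, hs.skew ((B : Eis) * (x : Eis) * (b : Eis)) w (mul_ne_zero (mul_ne_zero hB' hx') hb') w_ne,
    hs.mul _ _ _ (mul_ne_zero hB' hx') hb' w_ne, hs.mul _ _ _ hB' hx' w_ne,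
    hs.skew (B : Eis) w hB' w_ne, hs.skew (x : Eis) w hx' w_ne, hs.skew (b : Eis) w hb' w_ne]
  ring

theorem dvd_weak {π a : Eis} {M N : ℕ} (hMN : M ≤ N) (h : π ^ N ∣ a) : π ^ M ∣ a :=
  (pow_dvd_pow π hMN).trans h

/-- the case that `b` is a local cube and `x` is not -/
theorem half (hSTM : STM) (hSPP : SPP) (hSLC : SLC) (hLCI : LCI) (hAVV : AVV) (hF2B : F2B)
    (v : Pl) (B b x p q p' q' : ℤ) (hB : BOk B) (hb : Adm B b) (hx : Adm B x)
    (hs : Sol b x p q p' q') (h1 : LC (uni v) b) (h2 : ¬ LC (uni v) x) :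
    TT v B b x p q p' q' = UV (sy v) B b x p q p' q' ∧
      TT v B x b p (-p') (-q) q' = 0 := by
  obtain ⟨e, hL⟩ := lsym hSTM hSPP hSLC v
  have hwb : sy v w (b : Eis) = 0 := w_lc hLCI hL hb.ne h1
  obtain ⟨N0, hN⟩ := hF2B v B b x p q p' q' hB hb hx hs h1 h2
  have hA := (hAVV v B b x p q p' q' hB.ne hb.ne hx.ne hs.toSolW (sy_zero hx v) h1).2 _ N0 hN
  constructor
  · unfold TT
    rw [if_pos h1, hA]
    unfold UV
    rw [w_mul hL hB.ne hx.ne hb.ne, hwb]
    ring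
  · unfold TT
    rw [if_neg h2]
    rcases v with _ | π
    · rfl
    · show (if 3 ∣ V π.1 (x : Eis) + V π.1 (B : Eis) ∧ ¬ 3 ∣ V π.1 (x : Eis)
        then - tm π.1 w (b : Eis) else 0) = 0
      have hwb' : tm π.1 w (b : Eis) = 0 := hwb
      rw [hwb', neg_zero, ite_self]

theorem UV_swap {v : Pl} (B b x p q p' q' : ℤ) :
    UV (sy v) B x b p (-p') (-q) q' = UV (sy v) B b x p q p' q' := by
  unfold UV
  rw [Gf_swap, Gf_swap]
  have : B * b * x = B * x * b := by ring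
  rw [this]

/-- an admissible noncube at a place dividing `B` has valuation prime to `3` -/
theorem val_nc (hLCI : LCI) {B b : ℤ} (hB : BOk B) (hb : Adm B b) (π : PP)
    (hd : π.1 ∣ (B : Eis)) (h : ¬ LC π.1 b) : ¬ 3 ∣ V π.1 (b : Eis) := by
  intro h3
  apply h
  rw [hLCI.1 π b hb.ne]
  refine ⟨h3, ?_⟩
  have h1 : tm π.1 (b : Eis) (B : Eis) = 0 := hb.sym π
  have h2 : ((V π.1 (b : Eis) : ℕ) : ZMod 3) = 0 := by
    rw [ZMod.natCast_eq_zero_iff]
    exact h3
  unfold tm at h1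
  rw [h2, zero_mul, sub_zero] at h1
  have h4 : V π.1 (B : Eis) ≤ 2 := hB.cf π
  have h5 : V π.1 (B : Eis) ≠ 0 := by
    intro h0
    exact (V_eq_zero_iff.1 h0) hd
  have h6 : ((V π.1 (B : Eis) : ℕ) : ZMod 3) ≠ 0 := by
    intro h0
    rw [ZMod.natCast_eq_zero_iff] at h0
    omega
  have : Fact (Nat.Prime 3) := ⟨Nat.prime_three⟩
  rcases mul_eq_zero.1 h1 with h7 | h7
  · exact absurd h7 h6
  · exact h7

end LAM

set_option linter.unusedVariables false in
open _root_.Pool.Agent.PT.LAM in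
theorem LAM_thm (hSTM : STM) (hSPP : SPP) (hSSL : SSL) (hSLC : SLC) (hSREC : SREC) (hSCJ : SCJ)
    (hLCI : LCI) (hIF1 : IF1) (hAVV : AVV) (hF2B : F2B) (hF3R : F3R) (hF3U : F3U) : LAM := by
  intro v B b x p q p' q' hB hb hx hs h9
  obtain ⟨e, hL⟩ := lsym hSTM hSPP hSLC v
  have hs' := sol_swap hs
  by_cases h1 : LC (uni v) b
  · by_cases h2 : LC (uni v) x
    · -- both are local cubes
      obtain ⟨N0, hN⟩ := hIF1 (uni v) (sy v) e hL b x p q p' q' hb.ne hx.ne hs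
      obtain ⟨N1, hN1⟩ := (hAVV v B b x p q p' q' hB.ne hb.ne hx.ne hs.toSolW
        (sy_zero hx v) h1).1
      obtain ⟨N2, hN2⟩ := (hAVV v B x b p (-p') (-q) q' hB.ne hx.ne hb.ne hs'.toSolW
        (sy_zero hb v) h2).1
      obtain ⟨r, hr⟩ := h1 (max N0 N1)
      obtain ⟨ξ, hξ⟩ := h2 (max N0 N2)
      have hwb : sy v w (b : Eis) = 0 := w_lc hLCI hL hb.ne h1
      have hwx : sy v w (x : Eis) = 0 := w_lc hLCI hL hx.ne h2
      have e1 := hN r ξ (dvd_weak (le_max_left _ _) hr) (dvd_weak (le_max_left _ _) hξ)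
        (B : Eis) (icast_ne hB.ne)
      have e2 := hN1 r (dvd_weak (le_max_right _ _) hr)
      have e3 := hN2 ξ (dvd_weak (le_max_right _ _) hξ)
      unfold TT
      rw [if_pos h1, if_pos h2, hwb, hwx, ← e2, ← e3]
      unfold UV
      rw [w_mul hL hB.ne hx.ne hb.ne, hwb, hwx]
      linear_combination e1
    · obtain ⟨h3, h4⟩ := half hSTM hSPP hSLC hLCI hAVV hF2B v B b x p q p' q' hB hb hx hs h1 h2
      rw [h3, h4, add_zero]
  · by_cases h2 : LC (uni v) x
    · obtain ⟨h3, h4⟩ := half hSTM hSPP hSLC hLCI hAVV hF2B v B x b p (-p') (-q) q' hB hx hb hs'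
        h2 h1
      rw [h3, UV_swap]
      rw [neg_neg, neg_neg] at h4
      rw [h4, zero_add]
    · -- both are not local cubes
      rcases v with _ | π
      · exfalso
        have hl : ∀ y : ℤ, Adm B y → (LC (uni none) y ↔ C9 y) := fun y hy =>
          hLCI.2.1 y hy.three
        rcases h9 with h9 | h9
        · exact h1 ((hl b hb).2 h9)
        · exact h2 ((hl x hx).2 h9)
      · have hT1 : TT (some π) B b x p q p' q' =
            if 3 ∣ V π.1 (b : Eis) + V π.1 (B : Eis) ∧ ¬ 3 ∣ V π.1 (b : Eis)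
              then - tm π.1 w (x : Eis) else 0 := by
          unfold TT
          rw [if_neg h1]
        have hT2 : TT (some π) B x b p (-p') (-q) q' =
            if 3 ∣ V π.1 (x : Eis) + V π.1 (B : Eis) ∧ ¬ 3 ∣ V π.1 (x : Eis)
              then - tm π.1 w (b : Eis) else 0 := by
          unfold TT
          rw [if_neg h2]
        have h1' : ¬ LC π.1 b := h1
        have h2' : ¬ LC π.1 x := h2
        rw [hT1, hT2]
        show _ = UV (tm π.1) B b x p q p' q'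
        by_cases hd : π.1 ∣ (B : Eis)
        · have hvb := val_nc hLCI hB hb π hd h1'
          have hvx := val_nc hLCI hB hx π hd h2'
          rw [hF3R π B b x p q p' q' hB hb hx hs hd hvb hvx]
          simp only [hvb, hvx, not_false_eq_true, and_true]
        · have hvb : V π.1 (b : Eis) = 0 := V_eq_zero (hb.unr π hd)
          have hvx : V π.1 (x : Eis) = 0 := V_eq_zero (hx.unr π hd)
          have hcb : ch π.1 (b : Eis) ≠ 0 := by
            intro h0
            apply h1'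
            rw [hLCI.1 π b hb.ne]
            exact ⟨by rw [hvb]; exact dvd_zero 3, h0⟩
          have hcx : ch π.1 (x : Eis) ≠ 0 := by
            intro h0
            apply h2'
            rw [hLCI.1 π x hx.ne]
            exact ⟨by rw [hvx]; exact dvd_zero 3, h0⟩
          rw [hF3U π B b x p q p' q' hB hb hx hs hd hcb hcx, hvb, hvx]
          simp

end Pool.Agent.PT


end

section

/-!
# Prime twists of rank zero: the local evaluation (module LEV)
-/

namespace Pool.Agent.PT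

open Pool.Agent.Lib_helper18 Pool.Agent.Lib_helper18.Eis Pool.Agent.Lib_helper84.Cub

namespace LEV

theorem three0 : (3 : ZMod 3) = 0 := rfl

theorem cast_ne {m : ℤ} (h : m ≠ 0) : (m : Eis) ≠ 0 := by
  intro h'
  apply h
  simpa using congrArg Eis.re h'

theorem w_ne : w ≠ 0 := by
  intro h
  have := congrArg Eis.im h
  simp at this

section Sym

variable {π : Eis} {s : Eis → Eis → ZMod 3} {e : ℕ}

theorem mul_right (h : LSym π s e) {a b c : Eis} (ha : a ≠ 0) (hb : b ≠ 0) (hc : c ≠ 0) :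
    s c (a * b) = s c a + s c b := by
  rw [h.skew (a * b) c (mul_ne_zero ha hb) hc, h.mul a b c ha hb hc, h.skew c a hc ha,
    h.skew c b hc hb]
  ring

theorem cube_left (h : LSym π s e) {c y : Eis} (hc : c ≠ 0) (hy : y ≠ 0) : s (c ^ 3) y = 0 := by
  have e1 : c ^ 3 = c * c * c := by ring
  rw [e1, h.mul _ _ _ (mul_ne_zero hc hc) hc hy, h.mul _ _ _ hc hc hy]
  linear_combination (s c y) * three0

theorem neg_left (h : LSym π s e) {a y : Eis} (ha : a ≠ 0) (hy : y ≠ 0) :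
    s (-a) y = s a y := by
  have h1 : (-1 : Eis) ≠ 0 := neg_ne_zero.2 one_ne_zero
  have e1 : -a = (-1) ^ 3 * a := by ring
  rw [e1, h.mul _ _ _ (pow_ne_zero 3 h1) ha hy, cube_left h h1 hy, zero_add]

end Sym

/-- The relation between `B`, `x` and `n_0`. -/
theorem rel {B x X Y : ℤ} (hB : B ≠ 0) (hP : Pt B x X Y) :
    X ^ 3 + x * Y ^ 3 ≠ 0 ∧ ∃ c : Eis, c ≠ 0 ∧
      (x : Eis) * ((X ^ 3 + x * Y ^ 3 : ℤ) : Eis) = (B : Eis) * c ^ 3 := by
  obtain ⟨c, hc, heq⟩ := hP.eq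
  refine ⟨?_, (c : Eis), cast_ne hc, ?_⟩
  · intro h0
    rw [h0, mul_zero] at heq
    exact (mul_ne_zero hB (pow_ne_zero 3 hc)) heq.symm
  · exact_mod_cast congrArg (Int.cast : ℤ → Eis) heq

/-- The relation of symbols. -/
def Rel (s : Eis → Eis → ZMod 3) (B x n : Eis) : Prop := ∀ y : Eis, y ≠ 0 → s B y = s x y + s n y

theorem rel_sym {π : Eis} {s : Eis → Eis → ZMod 3} {e : ℕ} (h : LSym π s e) {B x n c : Eis}
    (hB : B ≠ 0) (hx : x ≠ 0) (hn : n ≠ 0) (hc : c ≠ 0) (heq : x * n = B * c ^ 3) :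
    Rel s B x n := by
  intro y hy
  have h1 := h.mul x n y hx hn hy
  rw [heq, h.mul B _ y hB (pow_ne_zero 3 hc) hy, cube_left h hc hy, add_zero] at h1
  exact h1

/-- Linear forms at good approximations of a cube root do not vanish. -/
theorem lf_ne {π : Eis} (hπ : Prime π) {p q r b : ℤ} {N : ℕ} (hn : p ^ 3 + b * q ^ 3 ≠ 0)
    (hN : V π ((p ^ 3 + b * q ^ 3 : ℤ) : Eis) < N) (hr : π ^ N ∣ (r : Eis) ^ 3 - (b : Eis))
    (i : ℕ) : Lf p q i r ≠ 0 := by
  intro h0
  unfold Lf at h0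
  have h1 : (q : Eis) * w ^ i * (r : Eis) = -(p : Eis) := by linear_combination h0
  have h2 : ((q : Eis) * w ^ i * (r : Eis)) ^ 3 = (-(p : Eis)) ^ 3 := by rw [h1]
  have h3 : (w ^ i) ^ 3 = 1 := by rw [← pow_mul, mul_comm, pow_mul, w_cube, one_pow]
  have h4 : ((p ^ 3 + b * q ^ 3 : ℤ) : Eis) = (-(q : Eis) ^ 3) * ((r : Eis) ^ 3 - (b : Eis)) := by
    push_cast
    linear_combination h2 - (q : Eis) ^ 3 * (r : Eis) ^ 3 * h3
  have h5 : π ^ N ∣ ((p ^ 3 + b * q ^ 3 : ℤ) : Eis) := by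
    rw [h4]
    exact Dvd.dvd.mul_left hr _
  have h6 := (fin hπ (cast_ne hn)).le_multiplicity_of_pow_dvd h5
  exact absurd h6 (not_le.2 hN)

/-- A symbol of a rational local cube. -/
theorem lc_right {π : Eis} {s : Eis → Eis → ZMod 3} {e : ℕ} (h : LSym π s e) (hLCI : LCI)
    {b : ℤ} (hb : b ≠ 0) (hL : LC π b) {y : Eis} (hy : y ≠ 0) : s y (b : Eis) = 0 := by
  rw [h.skew (b : Eis) y (cast_ne hb) hy, hLCI.2.2 π s e b y h hL hb hy, neg_zero]

/-- The swapped solution. -/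
theorem swap {b x p q p' q' : ℤ} (h : Sol b x p q p' q') :
    Sol x b p (-p') (-q) q' where
  eq := by linear_combination h.eq
  n1 := by
    intro h0
    apply h.n2
    linear_combination h0
  n2 := by
    intro h0
    apply h.n1
    linear_combination h0

theorem nn {b x p q p' q' : ℤ} (h : Sol b x p q p' q') :
    (-q) ^ 3 + x * q' ^ 3 ≠ 0 := by
  intro h0
  apply h.n2
  linear_combination h.eq + b * h0

theorem gf_swap (p q p' q' : ℤ) (i : ℕ) : Gf p (-p') (-q) q' i = Gf p q p' q' i := by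
  unfold Gf
  push_cast
  ring

/-- The local term of a point when `x` is a local cube. -/
theorem SV_LC {π : Eis} {s : Eis → Eis → ZMod 3} {e : ℕ} (h : LSym π s e) (hLCI : LCI)
    (hIF4 : IF4) {B b x p q p' q' X Y : ℤ} (hb : b ≠ 0) (hx : x ≠ 0)
    (hS : Sol b x p q p' q') (hX : X ≠ 0) (hY : Y ≠ 0) (hn : X ^ 3 + x * Y ^ 3 ≠ 0)
    (hL : LC π x) (hrel : Rel s (B : Eis) (x : Eis) ((X ^ 3 + x * Y ^ 3 : ℤ) : Eis)) :
    ∃ N0 : ℕ, V π ((X ^ 3 + x * Y ^ 3 : ℤ) : Eis) < N0 ∧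
      ∀ ξ : ℤ, π ^ N0 ∣ (ξ : Eis) ^ 3 - (x : Eis) → (∀ i, Lf X Y i ξ ≠ 0) ∧
        SV s x p q p' q' X Y = AS s (B : Eis) p (-p') (-q) q' ξ +
          s (Lf X Y 1 ξ) (b : Eis) - s (Lf X Y 2 ξ) (b : Eis) := by
  obtain ⟨N1, h1⟩ := hIF4 π s e h b x p q p' q' X Y hb hx hS hX hY hn
  have hn' : p ^ 3 + x * (-p') ^ 3 ≠ 0 := (swap hS).n1
  have hn'' := nn hS
  set N0 := N1 + V π ((X ^ 3 + x * Y ^ 3 : ℤ) : Eis) + V π ((p ^ 3 + x * (-p') ^ 3 : ℤ) : Eis) +
    V π (((-q) ^ 3 + x * q' ^ 3 : ℤ) : Eis) + 1 with hN0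
  refine ⟨N0, by omega, fun ξ hξ => ?_⟩
  have hF := lf_ne h.prime hn (N := N0) (by omega) hξ
  have hG := lf_ne h.prime hn' (N := N0) (by omega) hξ
  have hG' := lf_ne h.prime hn'' (N := N0) (by omega) hξ
  refine ⟨hF, ?_⟩
  rw [h1 ξ ((pow_dvd_pow π (by omega)).trans hξ)]
  have key : ∀ y : Eis, y ≠ 0 →
      s (B : Eis) y = s ((X ^ 3 + x * Y ^ 3 : ℤ) : Eis) y := by
    intro y hy
    rw [hrel y hy, hLCI.2.2 π s e x y h hL hx hy, zero_add]
  unfold AS
  rw [key _ (hG 2), key _ (hG' 1), key _ (hG 1), key _ (hG' 2)]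

/-- The case of a functional proportional to the one of `B`. -/
theorem prop_case {π : Eis} {s : Eis → Eis → ZMod 3} {e : ℕ} (h : LSym π s e) (hLCI : LCI)
    (hIF4B : IF4B) {B b x X Y : ℤ} (hb : b ≠ 0) (hx : x ≠ 0)
    (hX : X ≠ 0) (hY : Y ≠ 0) (hn : X ^ 3 + x * Y ^ 3 ≠ 0) (hL : LC π x)
    (hrel : Rel s (B : Eis) (x : Eis) ((X ^ 3 + x * Y ^ 3 : ℤ) : Eis)) (j : ZMod 3)
    (hj : ∀ y : Eis, y ≠ 0 → s (b : Eis) y = j * s (B : Eis) y) :
    ∃ N0 : ℕ, ∀ ξ : ℤ, π ^ N0 ∣ (ξ : Eis) ^ 3 - (x : Eis) → (∀ i, Lf X Y i ξ ≠ 0) →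
      s (Lf X Y 1 ξ) (b : Eis) - s (Lf X Y 2 ξ) (b : Eis) = s w (b : Eis) := by
  obtain ⟨N1, h1⟩ := hIF4B π s e h x X Y hx hX hY hn
  refine ⟨N1, fun ξ hξ hF => ?_⟩
  have h2 := h1 ξ hξ
  have key : ∀ y : Eis, y ≠ 0 → s y (b : Eis) = j * s y ((X ^ 3 + x * Y ^ 3 : ℤ) : Eis) := by
    intro y hy
    rw [h.skew (b : Eis) y (cast_ne hb) hy, hj y hy, hrel y hy,
      hLCI.2.2 π s e x y h hL hx hy, h.skew y _ hy (cast_ne hn)]
    ring
  rw [key _ (hF 1), key _ (hF 2), key _ w_ne]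
  linear_combination j * h2

theorem lam4 : lam ^ 4 ∣ (9 : Eis) := ⟨w, by decide⟩

theorem not_lam {m : ℤ} (h : ¬ (3 : ℤ) ∣ m) : ¬ lam ∣ (m : Eis) := by
  rw [lam_dvd_iff]
  simpa using h

theorem res {m : ℤ} (h3 : ¬ (3 : ℤ) ∣ m) (h9 : ¬ C9 m) :
    m % 9 = 2 ∨ m % 9 = 4 ∨ m % 9 = 5 ∨ m % 9 = 7 := by
  unfold C9 at h9
  omega

/-- Units modulo `9`. -/
theorem units9 {b B : ℤ} (hb3 : ¬ (3 : ℤ) ∣ b) (hB3 : ¬ (3 : ℤ) ∣ B) (hb : ¬ C9 b)
    (hB : ¬ C9 B) : 9 ∣ b - B ∨ 9 ∣ b + B ∨ 9 ∣ b - B * B ∨ 9 ∣ b + B * B := by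
  have h1 := res hb3 hb
  have h2 : (B % 9 = 2 ∨ B % 9 = 4 ∨ B % 9 = 5 ∨ B % 9 = 7) := res hB3 hB
  have h3 : (B * B) % 9 = ((B % 9) * (B % 9)) % 9 := Int.mul_emod B B 9
  rcases h2 with h | h | h | h <;> rw [h] at h3 <;> norm_num at h3 <;> omega

theorem none_prop (hL : LSym lam sl 4) {b B : ℤ} (hB0 : B ≠ 0)
    (hb3 : ¬ (3 : ℤ) ∣ b) (hB3 : ¬ (3 : ℤ) ∣ B)
    (hb : ¬ C9 b) (hB : ¬ C9 B) :
    ∃ j : ZMod 3, ∀ y : Eis, y ≠ 0 → sl (b : Eis) y = j * sl (B : Eis) y := by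
  have hBe : (B : Eis) ≠ 0 := cast_ne hB0
  have hV : ∀ a : Eis, a ≠ 0 → ¬ lam ∣ a → (9 : Eis) ∣ (b : Eis) - a → ∀ y : Eis, y ≠ 0 →
      sl (b : Eis) y = sl a y := by
    intro a ha hla h9 y hy
    refine hL.cont a b y ha hy ?_
    rw [V_eq_zero hla, zero_add]
    exact lam4.trans h9
  have hl := not_lam hB3
  have hll : ¬ lam ∣ (B : Eis) * B := fun h => (prime_lam.dvd_or_dvd h).elim hl hl
  have cst : ∀ m : ℤ, (9 : ℤ) ∣ m → (9 : Eis) ∣ (m : Eis) := by
    rintro m ⟨k, rfl⟩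
    exact ⟨k, by push_cast; ring⟩
  rcases units9 hb3 hB3 hb hB with h | h | h | h
  · refine ⟨1, fun y hy => ?_⟩
    rw [hV B hBe hl (by simpa using cst _ h) y hy, one_mul]
  · refine ⟨1, fun y hy => ?_⟩
    rw [hV (-B) (neg_ne_zero.2 hBe) (by rwa [dvd_neg]) (by simpa using cst _ h) y hy,
      neg_left hL hBe hy, one_mul]
  · refine ⟨2, fun y hy => ?_⟩
    rw [hV (B * B) (mul_ne_zero hBe hBe) hll (by simpa using cst _ h) y hy,
      hL.mul _ _ _ hBe hBe hy]
    ring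
  · refine ⟨2, fun y hy => ?_⟩
    rw [hV (-(B * B)) (neg_ne_zero.2 (mul_ne_zero hBe hBe)) (by rwa [dvd_neg])
      (by simpa using cst _ h) y hy, neg_left hL (mul_ne_zero hBe hBe) hy,
      hL.mul _ _ _ hBe hBe hy]
    ring

theorem alg3 : ∀ vB cB vb cb : ZMod 3, ¬ (vB = 0 ∧ cB = 0) → vB * cb - vb * cB = 0 →
    ∃ j : ZMod 3, vb = j * vB ∧ cb = j * cB := by decide

theorem cast3 {n : ℕ} : ((n : ℕ) : ZMod 3) = 0 ↔ 3 ∣ n := ZMod.natCast_eq_zero_iff n 3

theorem tame_prop {π : Eis} {b B : ℤ}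
    (hB : ¬ (3 ∣ V π (B : Eis) ∧ ch π (B : Eis) = 0)) (h0 : tm π (b : Eis) (B : Eis) = 0) :
    ∃ j : ZMod 3, ∀ y : Eis, y ≠ 0 → tm π (b : Eis) y = j * tm π (B : Eis) y := by
  unfold tm at h0
  obtain ⟨j, h1, h2⟩ := alg3 (V π (B : Eis) : ZMod 3) (ch π (B : Eis)) (V π (b : Eis) : ZMod 3)
    (ch π (b : Eis)) (by rwa [cast3]) h0
  refine ⟨j, fun y _ => ?_⟩
  unfold tm
  rw [h1, h2]
  ring

/-- Valuations of the three linear forms. -/
theorem val_case {π : Eis} (hπ : Prime π) (h3 : ¬ π ∣ 3) {x X Y ξ : ℤ} {N : ℕ}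
    (hX : X ≠ 0) (hY : Y ≠ 0) (hn : X ^ 3 + x * Y ^ 3 ≠ 0) (hxu : ¬ π ∣ (x : Eis))
    (hN : V π ((X ^ 3 + x * Y ^ 3 : ℤ) : Eis) < N)
    (hξ : π ^ N ∣ (ξ : Eis) ^ 3 - (x : Eis)) (hF : ∀ i, Lf X Y i ξ ≠ 0)
    (hV : 3 ∣ V π ((X ^ 3 + x * Y ^ 3 : ℤ) : Eis)) :
    ((V π (Lf X Y 1 ξ) : ℕ) : ZMod 3) = ((V π (Lf X Y 2 ξ) : ℕ) : ZMod 3) := by
  have hξu : ¬ π ∣ (ξ : Eis) := by
    intro h
    apply hxu
    have h1 : π ∣ (ξ : Eis) ^ 3 - (x : Eis) := (dvd_pow_self π (by omega)).trans hξ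
    have h2 : π ∣ (ξ : Eis) ^ 3 := h.trans (dvd_pow_self _ (by norm_num))
    have h3 := dvd_sub h2 h1
    simpa using h3
  set m := min (V π (X : Eis)) (V π (Y : Eis)) with hm
  have hmX : π ^ m ∣ (X : Eis) := (pow_dvd_pow π (min_le_left _ _)).trans (pow_multiplicity_dvd _ _)
  have hmY : π ^ m ∣ (Y : Eis) := (pow_dvd_pow π (min_le_right _ _)).trans (pow_multiplicity_dvd _ _)
  have hge : ∀ i, m ≤ V π (Lf X Y i ξ) := by
    intro i
    apply (fin hπ (hF i)).le_multiplicity_of_pow_dvd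
    unfold Lf
    exact dvd_add hmX (Dvd.dvd.mul_right (Dvd.dvd.mul_right hmY _) _)
  have hw1 : ¬ π ∣ 1 - w := fun h => not_dvd_lam h3 (by rw [lam_eq]; exact h)
  have hw2 : ¬ π ∣ 1 - w ^ 2 := fun h => h3 (h.trans ⟨1 - w, by decide⟩)
  have hw0 : ¬ π ∣ w := not_dvd_w hπ
  have pair : ∀ i k : ℕ, ¬ π ∣ w ^ i - w ^ k → m < V π (Lf X Y i ξ) →
      m < V π (Lf X Y k ξ) → False := by
    intro i k hik h1 h2
    have d1 : π ^ (m + 1) ∣ Lf X Y i ξ :=
      (pow_dvd_pow π h1).trans (pow_multiplicity_dvd _ _)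
    have d2 : π ^ (m + 1) ∣ Lf X Y k ξ :=
      (pow_dvd_pow π h2).trans (pow_multiplicity_dvd _ _)
    have d3 : π ^ (m + 1) ∣ (w ^ i - w ^ k) * (ξ : Eis) * (Y : Eis) := by
      have := dvd_sub d1 d2
      unfold Lf at this
      have e1 : (X : Eis) + (Y : Eis) * w ^ i * (ξ : Eis) - ((X : Eis) + (Y : Eis) * w ^ k * (ξ : Eis))
        = (w ^ i - w ^ k) * (ξ : Eis) * (Y : Eis) := by ring
      rwa [e1] at this
    have hu : ¬ π ∣ (w ^ i - w ^ k) * (ξ : Eis) := fun h => (hπ.dvd_or_dvd h).elim hik hξu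
    have d4 : π ^ (m + 1) ∣ (Y : Eis) := hπ.pow_dvd_of_dvd_mul_left _ hu d3
    have d5 : π ^ (m + 1) ∣ (X : Eis) := by
      have h5 : π ^ (m + 1) ∣ (Y : Eis) * w ^ i * (ξ : Eis) :=
        Dvd.dvd.mul_right (Dvd.dvd.mul_right d4 _) _
      have := dvd_sub d1 h5
      unfold Lf at this
      simpa using this
    have h6 : m + 1 ≤ V π (X : Eis) := (fin hπ (cast_ne hX)).le_multiplicity_of_pow_dvd d5
    have h7 : m + 1 ≤ V π (Y : Eis) := (fin hπ (cast_ne hY)).le_multiplicity_of_pow_dvd d4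
    omega
  have hsum : V π (Lf X Y 0 ξ) + V π (Lf X Y 1 ξ) + V π (Lf X Y 2 ξ) =
      V π ((X ^ 3 + x * Y ^ 3 : ℤ) : Eis) := by
    rw [← V_mul hπ (hF 0) (hF 1), ← V_mul hπ (mul_ne_zero (hF 0) (hF 1)) (hF 2)]
    have e1 : Lf X Y 0 ξ * Lf X Y 1 ξ * Lf X Y 2 ξ =
        ((X ^ 3 + x * Y ^ 3 : ℤ) : Eis) + (Y : Eis) ^ 3 * ((ξ : Eis) ^ 3 - (x : Eis)) := by
      unfold Lf
      push_cast
      linear_combination ((X : Eis) ^ 2 * (Y : Eis) * ξ + (X : Eis) * (Y : Eis) ^ 2 * ξ ^ 2 * w) *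
        w_rel + (Y : Eis) ^ 3 * (ξ : Eis) ^ 3 * w_cube
    rw [e1]
    have hne : (Y : Eis) ^ 3 * ((ξ : Eis) ^ 3 - (x : Eis)) = 0 ∨
        V π ((X ^ 3 + x * Y ^ 3 : ℤ) : Eis) < V π ((Y : Eis) ^ 3 * ((ξ : Eis) ^ 3 - (x : Eis))) := by
      by_cases hz : (Y : Eis) ^ 3 * ((ξ : Eis) ^ 3 - (x : Eis)) = 0
      · exact Or.inl hz
      · right
        have := (fin hπ hz).le_multiplicity_of_pow_dvd (Dvd.dvd.mul_left hξ _)
        exact hN.trans_le this
    rcases hne with hz | hlt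
    · rw [hz, add_zero]
    · rw [add_comm]
      exact (fin hπ (cast_ne hn)).multiplicity_add_of_gt hlt
  have p01 := pair 0 1 (by simpa using hw1)
  have p02 := pair 0 2 (by simpa using hw2)
  have p12 := pair 1 2 (by
    intro h
    have e1 : w ^ 1 - w ^ 2 = w * (1 - w) := by ring
    rw [e1] at h
    exact (hπ.dvd_or_dvd h).elim hw0 hw1)
  have g0 := hge 0
  have g1 := hge 1
  have g2 := hge 2
  rw [ZMod.natCast_eq_natCast_iff]
  unfold Nat.ModEq
  rw [← hsum] at hV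
  by_cases c1 : m < V π (Lf X Y 1 ξ)
  · have c2 : ¬ m < V π (Lf X Y 2 ξ) := fun h => p12 c1 h
    have c0 : ¬ m < V π (Lf X Y 0 ξ) := fun h => p01 h c1
    omega
  · by_cases c2 : m < V π (Lf X Y 2 ξ)
    · have c0 : ¬ m < V π (Lf X Y 0 ξ) := fun h => p02 h c2
      omega
    · omega

end LEV

open _root_.Pool.Agent.PT.LEV in
/-- LEV: the local evaluation. -/
theorem LEV_thm (hSTM : STM) (hSPP : SPP) (hSSL : SSL) (hSLC : SLC) (hSREC : SREC) (hSCJ : SCJ)
    (hLCI : LCI) (hIF1 : IF1) (hIF2 : IF2) (hIF4 : IF4) (hIF4B : IF4B) (hAVV : AVV)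
    (hF2B : F2B) (hF6R : F6R) (hF7U : F7U) (hF5L : F5L) (hF3R : F3R) (hF3U : F3U) : LEV := by
  intro v B b x p q p' q' X Y hB hb hx hS hP hC
  obtain ⟨e, hs⟩ : ∃ e, LSym (uni v) (sy v) e := by
    cases v with
    | none => exact ⟨4, hSLC⟩
    | some π => exact ⟨1, hSTM π.1 π.2.1 (hSPP.2.2.2.1 π).1⟩
  have hB0 := hB.ne
  have hb0 := hb.ne
  have hx0 := hx.ne
  have hBe := cast_ne hB0
  have hbe := cast_ne hb0
  have hxe := cast_ne hx0
  obtain ⟨hn, c, hc, heq⟩ := rel hB0 hP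
  have hrel := rel_sym hs hBe hxe (cast_ne hn) hc heq
  have hsBx : sy v (B : Eis) (x : Eis) = 0 := by
    cases v with
    | none => exact hSCJ.2.2.1 B x hB0 hx0
    | some π =>
      have h1 := hx.sym π
      have h2 := hs.skew (x : Eis) (B : Eis) hxe hBe
      rw [h2]
      change - tm π.1 (x : Eis) (B : Eis) = 0
      rw [h1, neg_zero]
  have hwprod : sy v w ((B * x * b : ℤ) : Eis) =
      sy v w (B : Eis) + sy v w (x : Eis) + sy v w (b : Eis) := by
    push_cast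
    rw [mul_right hs (mul_ne_zero hBe hxe) hbe w_ne, mul_right hs hBe hxe w_ne]
  by_cases hLb : LC (uni v) b
  · by_cases hLx : LC (uni v) x
    · -- both cubes
      obtain ⟨N1, h1⟩ := (hAVV v B b x p q p' q' hB0 hb0 hx0 hS.toSolW hsBx hLb).1
      obtain ⟨N2, h2⟩ := hIF1 (uni v) (sy v) e hs b x p q p' q' hb0 hx0 hS
      obtain ⟨N3, _, h3⟩ := SV_LC hs hLCI hIF4 hb0 hx0 hS hP.hX hP.hY hn hLx hrel
      obtain ⟨r, hr⟩ := hLb (N1 + N2)
      obtain ⟨ξ, hξ⟩ := hLx (N2 + N3)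
      have a1 := h1 r ((pow_dvd_pow _ (by omega)).trans hr)
      have a2 := h2 r ξ ((pow_dvd_pow _ (by omega)).trans hr)
        ((pow_dvd_pow _ (by omega)).trans hξ) (B : Eis) hBe
      obtain ⟨hF, a3⟩ := h3 ξ ((pow_dvd_pow _ (by omega)).trans hξ)
      rw [lc_right hs hLCI hb0 hLb (hF 1), lc_right hs hLCI hb0 hLb (hF 2)] at a3
      have a4 := lc_right hs hLCI hb0 hLb w_ne
      have a5 := lc_right hs hLCI hx0 hLx w_ne
      unfold TT
      rw [if_pos hLb]
      unfold UV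
      rw [hwprod, a3, a4, a5, ← a1]
      linear_combination a2
    · -- `b` is a cube, `x` is not
      obtain ⟨N1, h1⟩ := hF2B v B b x p q p' q' hB hb hx hS hLb hLx
      have a1 := (hAVV v B b x p q p' q' hB0 hb0 hx0 hS.toSolW hsBx hLb).2 _ N1 h1
      have a4 := lc_right hs hLCI hb0 hLb w_ne
      have a2 : SV (sy v) x p q p' q' X Y = 0 := by
        cases v with
        | none =>
          exact hF5L B b x p q p' q' X Y hB hb hx hS hP ((hLCI.2.1 b hb.three).1 hLb)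
            fun h => hLx ((hLCI.2.1 x hx.three).2 h)
        | some π =>
          change SV (tm π.1) x p q p' q' X Y = 0
          by_cases hVx : 3 ∣ V π.1 (x : Eis)
          · refine hF7U π b x p q p' q' X Y hb0 hx0 hS hP.hX hP.hY hVx fun h => hLx ?_
            exact (hLCI.1 π x hx0).2 ⟨hVx, h⟩
          · have h6 := hF6R π b x p q p' q' X Y hb0 hx0 hS hP.hX hP.hY hVx
            by_cases hVn : 3 ∣ V π.1 ((X ^ 3 + x * Y ^ 3 : ℤ) : Eis)
            · exact h6.1 hVn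
            · rw [h6.2 hVn]
              change - sy (some π) w (b : Eis) = 0
              rw [a4, neg_zero]
      unfold TT
      rw [if_pos hLb, a1, a2]
      unfold UV
      rw [hwprod, a4]
      ring
  · by_cases hLx : LC (uni v) x
    · -- `x` is a cube, `b` is not
      have a5 := lc_right hs hLCI hx0 hLx w_ne
      have hTT : TT v B b x p q p' q' = 0 := by
        unfold TT
        rw [if_neg hLb]
        cases v with
        | none => rfl
        | some π =>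
          dsimp only
          split_ifs with hcond
          · change - sy (some π) w (x : Eis) = 0
            rw [a5, neg_zero]
          · rfl
      obtain ⟨N1, h1⟩ := hF2B v B x b p (-p') (-q) q' hB hx hb (swap hS) hLx hLb
      obtain ⟨N3, hN3, h3⟩ := SV_LC hs hLCI hIF4 hb0 hx0 hS hP.hX hP.hY hn hLx hrel
      have hmain : ∃ N4 : ℕ, ∀ ξ : ℤ, uni v ^ N4 ∣ (ξ : Eis) ^ 3 - (x : Eis) →
          (∀ i, Lf X Y i ξ ≠ 0) →
          sy v (Lf X Y 1 ξ) (b : Eis) - sy v (Lf X Y 2 ξ) (b : Eis) = sy v w (b : Eis) := by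
        cases v with
        | none =>
          have hb9 : ¬ C9 b := fun h => hLb ((hLCI.2.1 b hb.three).2 h)
          obtain ⟨j, hj⟩ := none_prop hSLC hB0 hb.three hB.three hb9 fun h => hb9 (hb.nine h)
          exact prop_case hs hLCI hIF4B hb0 hx0 hP.hX hP.hY hn hLx hrel j hj
        | some π =>
          by_cases hLB : LC π.1 B
          · have hB' := (hLCI.1 π B hB0).1 hLB
            have hVB : V π.1 (B : Eis) = 0 := by
              have := hB.cf π
              omega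
            have hπB : ¬ π.1 ∣ (B : Eis) := V_eq_zero_iff.1 hVB
            have hπb := hb.unr π hπB
            have hπx := hx.unr π hπB
            have hVb : V π.1 (b : Eis) = 0 := V_eq_zero hπb
            have hVw : V π.1 w = 0 := V_eq_zero (not_dvd_w π.2.1)
            have hVn : 3 ∣ V π.1 ((X ^ 3 + x * Y ^ 3 : ℤ) : Eis) := by
              have h7 := congrArg (V π.1) heq
              rw [V_mul π.2.1 hxe (cast_ne hn), V_mul π.2.1 hBe (pow_ne_zero 3 hc),
                V_pow π.2.1 hc, hVB, V_eq_zero hπx] at h7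
              omega
            refine ⟨N3, fun ξ hξ hF => ?_⟩
            have h8 := val_case π.2.1 (hSPP.2.2.2.1 π).1 hP.hX hP.hY hn hπx hN3 hξ hF hVn
            change tm π.1 (Lf X Y 1 ξ) (b : Eis) - tm π.1 (Lf X Y 2 ξ) (b : Eis) =
              tm π.1 w (b : Eis)
            unfold tm
            rw [hVb, hVw, h8]
            push_cast
            ring
          · obtain ⟨j, hj⟩ := tame_prop (π := π.1) (b := b) (B := B)
              (fun h => hLB ((hLCI.1 π B hB0).2 h)) (hb.sym π)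
            exact prop_case hs hLCI hIF4B hb0 hx0 hP.hX hP.hY hn hLx hrel j hj
      obtain ⟨N4, h4⟩ := hmain
      obtain ⟨ξ, hξ⟩ := hLx (N1 + N3 + N4)
      obtain ⟨hF, a3⟩ := h3 ξ ((pow_dvd_pow _ (by omega)).trans hξ)
      have a1 := h1 ξ ((pow_dvd_pow _ (by omega)).trans hξ)
      have a6 := h4 ξ ((pow_dvd_pow _ (by omega)).trans hξ) hF
      rw [gf_swap, gf_swap] at a1
      rw [hTT, a3]
      unfold UV
      rw [hwprod, a5]
      linear_combination a1 + a6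
    · -- no cubes
      cases v with
      | none =>
        exfalso
        rcases hC with h | h
        · exact hLb ((hLCI.2.1 b hb.three).2 h)
        · exact hLx ((hLCI.2.1 x hx.three).2 h)
      | some π =>
        have hLb' : ¬ (3 ∣ V π.1 (b : Eis) ∧ ch π.1 (b : Eis) = 0) :=
          fun h => hLb ((hLCI.1 π b hb0).2 h)
        have hLx' : ¬ (3 ∣ V π.1 (x : Eis) ∧ ch π.1 (x : Eis) = 0) :=
          fun h => hLx ((hLCI.1 π x hx0).2 h)
        unfold TT
        rw [if_neg hLb]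
        dsimp only
        change _ = UV (tm π.1) B b x p q p' q' - SV (tm π.1) x p q p' q' X Y
        by_cases hπB : π.1 ∣ (B : Eis)
        · have hVB1 : V π.1 (B : Eis) ≠ 0 := fun h => (V_eq_zero_iff.1 h) hπB
          have hVB2 := hB.cf π
          have nd : ∀ t : ℤ, tm π.1 (t : Eis) (B : Eis) = 0 →
              ¬ (3 ∣ V π.1 (t : Eis) ∧ ch π.1 (t : Eis) = 0) → ¬ 3 ∣ V π.1 (t : Eis) := by
            intro t ht hLt h3
            apply hLt
            refine ⟨h3, ?_⟩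
            unfold tm at ht
            rw [cast3.2 h3, zero_mul, sub_zero] at ht
            have h9 : (V π.1 (B : Eis) : ZMod 3) ≠ 0 := by
              rw [Ne, cast3]
              omega
            have : ∀ u y : ZMod 3, u ≠ 0 → u * y = 0 → y = 0 := by decide
            exact this _ _ h9 ht
          have hVb := nd b (hb.sym π) hLb'
          have hVx := nd x (hx.sym π) hLx'
          rw [hF3R π B b x p q p' q' hB hb hx hS hπB hVb hVx]
          have h6 := hF6R π b x p q p' q' X Y hb0 hx0 hS hP.hX hP.hY hVx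
          have h7 := congrArg (V π.1) heq
          rw [V_mul π.2.1 hxe (cast_ne hn), V_mul π.2.1 hBe (pow_ne_zero 3 hc),
            V_pow π.2.1 hc] at h7
          have hSV : SV (tm π.1) x p q p' q' X Y =
              if 3 ∣ V π.1 (x : Eis) + V π.1 (B : Eis) then - tm π.1 w (b : Eis) else 0 := by
            split_ifs with hcond
            · exact h6.2 (by omega)
            · refine h6.1 ?_
              have c1 : V π.1 (x : Eis) % 3 = 1 ∨ V π.1 (x : Eis) % 3 = 2 := by omega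
              have c2 : V π.1 (B : Eis) = 1 ∨ V π.1 (B : Eis) = 2 := by omega
              rcases c1 with c1 | c1 <;> rcases c2 with c2 | c2 <;> omega
          rw [hSV]
          by_cases hcond : 3 ∣ V π.1 (b : Eis) + V π.1 (B : Eis)
          · rw [if_pos ⟨hcond, hVb⟩, if_pos hcond]
            ring
          · rw [if_neg (fun h => hcond h.1), if_neg hcond]
            ring
        · have hπb := hb.unr π hπB
          have hπx := hx.unr π hπB
          have hVb : V π.1 (b : Eis) = 0 := V_eq_zero hπb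
          have hVx : V π.1 (x : Eis) = 0 := V_eq_zero hπx
          have hcb : ch π.1 (b : Eis) ≠ 0 := fun h => hLb' ⟨by rw [hVb]; exact dvd_zero _, h⟩
          have hcx : ch π.1 (x : Eis) ≠ 0 := fun h => hLx' ⟨by rw [hVx]; exact dvd_zero _, h⟩
          rw [hF3U π B b x p q p' q' hB hb hx hS hπB hcb hcx,
            hF7U π b x p q p' q' X Y hb0 hx0 hS hP.hX hP.hY (by rw [hVx]; exact dvd_zero _) hcx,
            if_neg (fun h => h.2 (by rw [hVb]; exact dvd_zero _))]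
          ring

end Pool.Agent.PT


end

section

/-!
# Prime twists of rank zero: finiteness of the supports
-/

set_option autoImplicit false

namespace Pool.Agent.PT

open Pool.Agent.Lib_helper18 Pool.Agent.Lib_helper18.Eis Pool.Agent.Lib_helper84.Cub

namespace LFIN

/-- Finite support and sum zero. -/
def FZ (f : Pl → ZMod 3) : Prop := (Function.support f).Finite ∧ ∑ᶠ v : Pl, f v = 0

lemma FZ.add {f g : Pl → ZMod 3} (hf : FZ f) (hg : FZ g) : FZ (fun v => f v + g v) := by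
  refine ⟨(hf.1.union hg.1).subset (Function.support_add f g), ?_⟩
  rw [finsum_add_distrib hf.1 hg.1, hf.2, hg.2, add_zero]

lemma FZ.sub {f g : Pl → ZMod 3} (hf : FZ f) (hg : FZ g) : FZ (fun v => f v - g v) := by
  refine ⟨(hf.1.union hg.1).subset (Function.support_sub f g), ?_⟩
  rw [finsum_sub_distrib hf.1 hg.1, hf.2, hg.2, sub_zero]

lemma cast_ne {n : ℤ} (h : n ≠ 0) : ((n : ℤ) : Eis) ≠ 0 := by
  intro h1
  apply h
  have h2 := congrArg Eis.re h1
  simpa using h2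

lemma w_ne : w ≠ 0 := by
  intro h
  have h2 := congrArg Eis.im h
  simp at h2

lemma w_unit : IsUnit w := by
  refine IsUnit.of_mul_eq_one (w ^ 2) ?_
  rw [← w_cube]
  ring

/-- `g + w^i h ≠ 0` -/
lemma lin_ne {g h : ℤ} (hne : g ≠ 0 ∨ h ≠ 0) (i : ℕ) (hi : i = 1 ∨ i = 2) :
    (g : Eis) + w ^ i * (h : Eis) ≠ 0 := by
  intro h0
  have h1 := congrArg Eis.re h0
  have h2 := congrArg Eis.im h0
  rcases hi with rfl | rfl
  · rw [pow_one] at h1 h2
    simp at h1 h2
    rcases hne with h3 | h3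
    · exact h3 h1
    · exact h3 h2
  · rw [w_sq] at h1 h2
    simp at h1 h2
    rcases hne with h3 | h3
    · apply h3
      rw [h2] at h1
      simpa using h1
    · exact h3 h2

lemma Gf_ne {b x p q p' q' : ℤ} (h : Sol b x p q p' q') (i : ℕ) (hi : i = 1 ∨ i = 2) :
    Gf p q p' q' i ≠ 0 := by
  have e : Gf p q p' q' i = ((q * p' : ℤ) : Eis) + w ^ i * ((-(p * q') : ℤ) : Eis) := by
    unfold Gf
    push_cast
    ring
  rw [e]
  apply lin_ne _ i hi
  by_contra hcon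
  push Not at hcon
  obtain ⟨h1, h2⟩ := hcon
  have h2' : p * q' = 0 := by linarith
  rcases mul_eq_zero.1 h1 with h3 | h3
  · rcases mul_eq_zero.1 h2' with h4 | h4
    · apply h.n1
      rw [h3, h4]
      ring
    · apply h.n2
      have h5 := h.eq
      rw [h3, h4] at h5
      linarith
  · rcases mul_eq_zero.1 h2' with h4 | h4
    · apply h.n2
      rw [h3, h4]
      ring
    · apply h.n1
      rw [h.eq, h3, h4]
      ring

lemma N''_ne {b x p q p' q' : ℤ} (h : Sol b x p q p' q') : x * q' ^ 3 - q ^ 3 ≠ 0 := by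
  intro h1
  apply h.n2
  have h2 := h.eq
  have h3 : p ^ 3 - x * p' ^ 3 = b * (x * q' ^ 3 - q ^ 3) := by linarith
  rw [h3, h1, mul_zero]

lemma Df_ne {X Y u v : ℤ} (hX : X ≠ 0) (hY : Y ≠ 0) (h : u ≠ 0 ∨ v ≠ 0) (i : ℕ)
    (hi : i = 1 ∨ i = 2) : Df X Y u v i ≠ 0 := by
  have e : Df X Y u v i = ((X * u : ℤ) : Eis) + w ^ i * ((v * Y : ℤ) : Eis) := by
    unfold Df
    push_cast
    ring
  rw [e]
  apply lin_ne _ i hi
  rcases h with h | h
  · exact Or.inl (mul_ne_zero hX h)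
  · exact Or.inr (mul_ne_zero h hY)

/-- The linear forms at good approximations are prime to `π`. -/
lemma Lf_not_dvd {π : Eis} {b p q r : ℤ} (hr : π ∣ (r : Eis) ^ 3 - (b : Eis))
    (h : ¬ π ∣ ((p ^ 3 + b * q ^ 3 : ℤ) : Eis)) (i : ℕ) : ¬ π ∣ Lf p q i r := by
  intro hd
  apply h
  have h1 : ((p ^ 3 + b * q ^ 3 : ℤ) : Eis) =
      Lf p q i r * ((p : Eis) ^ 2 - p * (q * w ^ i * r) + (q * w ^ i * r) ^ 2) -
        (q : Eis) ^ 3 * ((r : Eis) ^ 3 - (b : Eis)) := by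
    have h2 : (w ^ i) ^ 3 = 1 := by rw [← pow_mul, mul_comm, pow_mul, w_cube, one_pow]
    unfold Lf
    push_cast
    linear_combination (-((q : Eis) ^ 3 * (r : Eis) ^ 3)) * h2
  rw [h1]
  exact dvd_sub (dvd_mul_of_dvd_left hd _) (dvd_mul_of_dvd_right hr _)

lemma tm_zero {π a b : Eis} (ha : ¬ π ∣ a) (hb : ¬ π ∣ b) : tm π a b = 0 := by
  unfold tm
  rw [V_eq_zero ha, V_eq_zero hb]
  simp

end LFIN

open _root_.Pool.Agent.PT.LFIN in
/-- LFIN: finiteness of the supports. -/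
theorem LFIN_thm (hSTM : STM) (hSPP : SPP) (hSSL : SSL) (_hSLC : SLC) (_hLCI : LCI)
    (hAVV : AVV) : LFIN := by
  have key : ∀ a b : Eis, a ≠ 0 → b ≠ 0 → FZ (fun v : Pl => sy v a b) :=
    fun a b ha hb => hSSL.2.2.2 a b ha hb
  refine ⟨?_, ?_, ?_⟩
  · intro B b x p q p' q' hB hb hx hs
    have hn2 : p' ^ 3 + b * q' ^ 3 ≠ 0 := by
      intro h
      apply hs.n1
      rw [hs.eq, h, mul_zero]
    set M : ℤ := B * b * x * (p ^ 3 + b * q ^ 3) * (p' ^ 3 + b * q' ^ 3) with hMdef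
    have hM : M ≠ 0 := mul_ne_zero (mul_ne_zero (mul_ne_zero (mul_ne_zero hB.ne hb.ne) hx.ne)
      hs.n1) hn2
    have hfin := hSPP.2.2.1 (M : Eis) (cast_ne hM)
    refine ((hfin.image some).union (Set.finite_singleton none)).subset ?_
    intro v hv
    rcases v with _ | π
    · right
      rfl
    · left
      refine ⟨π, ?_, rfl⟩
      by_contra hnd
      apply hv
      have hd : ∀ n : ℤ, n ∣ M → ¬ π.1 ∣ ((n : ℤ) : Eis) := by
        intro n hn h1
        apply hnd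
        obtain ⟨c, hc⟩ := hn
        show π.1 ∣ (M : Eis)
        rw [hc]
        push_cast
        exact dvd_mul_of_dvd_left h1 _
      have hnB := hd B ⟨b * x * (p ^ 3 + b * q ^ 3) * (p' ^ 3 + b * q' ^ 3), by rw [hMdef]; ring⟩
      have hnb := hd b ⟨B * x * (p ^ 3 + b * q ^ 3) * (p' ^ 3 + b * q' ^ 3), by rw [hMdef]; ring⟩
      have hnx := hd x ⟨B * b * (p ^ 3 + b * q ^ 3) * (p' ^ 3 + b * q' ^ 3), by rw [hMdef]; ring⟩
      have hn1 := hd (p ^ 3 + b * q ^ 3) ⟨B * b * x * (p' ^ 3 + b * q' ^ 3), by rw [hMdef]; ring⟩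
      have hn2 := hd (p' ^ 3 + b * q' ^ 3) ⟨B * b * x * (p ^ 3 + b * q ^ 3), by rw [hMdef]; ring⟩
      have hnw : ¬ π.1 ∣ w := fun h1 => π.2.1.not_isUnit (isUnit_of_dvd_unit h1 w_unit)
      show TT (some π) B b x p q p' q' = 0
      by_cases hLC : LC (uni (some π)) b
      · have hTT : TT (some π) B b x p q p' q' =
            AV (some π) B b p q p' q' + sy (some π) w (x : Eis) := by
          unfold TT
          rw [if_pos hLC]
        rw [hTT]
        have hw : sy (some π) w (x : Eis) = 0 := tm_zero hnw hnx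
        have hsym : sy (some π) (B : Eis) (x : Eis) = 0 := by
          have h1 := (hSTM π.1 π.2.1 (hSPP.2.2.2.1 π).1).skew (x : Eis) (B : Eis)
            (cast_ne hx.ne) (cast_ne hB.ne)
          show tm π.1 (B : Eis) (x : Eis) = 0
          rw [h1, hx.sym π, neg_zero]
        obtain ⟨N0, hN0⟩ := (hAVV (some π) B b x p q p' q' hB.ne hb.ne hx.ne hs hsym hLC).1
        obtain ⟨r, hr⟩ := hLC (max N0 1)
        have hr0 : uni (some π) ^ N0 ∣ (r : Eis) ^ 3 - (b : Eis) :=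
          (pow_dvd_pow _ (le_max_left _ _)).trans hr
        have hr1 : π.1 ∣ (r : Eis) ^ 3 - (b : Eis) := by
          have h1 : π.1 ^ 1 ∣ (r : Eis) ^ 3 - (b : Eis) :=
            (pow_dvd_pow π.1 (le_max_right N0 1)).trans hr
          rwa [pow_one] at h1
        rw [hw, ← hN0 r hr0]
        show tm π.1 (B : Eis) (Lf p q 2 r) + tm π.1 (B : Eis) (Lf p' q' 1 r) -
          tm π.1 (B : Eis) (Lf p q 1 r) - tm π.1 (B : Eis) (Lf p' q' 2 r) + 0 = 0
        rw [tm_zero hnB (Lf_not_dvd hr1 hn1 2), tm_zero hnB (Lf_not_dvd hr1 hn2 1),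
          tm_zero hnB (Lf_not_dvd hr1 hn1 1), tm_zero hnB (Lf_not_dvd hr1 hn2 2)]
        simp
      · unfold TT
        rw [if_neg hLC]
        show (if 3 ∣ V π.1 (b : Eis) + V π.1 (B : Eis) ∧ ¬ 3 ∣ V π.1 (b : Eis)
          then - tm π.1 w (x : Eis) else 0) = 0
        rw [if_neg]
        rintro ⟨-, h1⟩
        apply h1
        rw [V_eq_zero hnb]
        exact dvd_zero 3
  · intro B b x p q p' q' hB hb hx hs
    have hBbx : B * x * b ≠ 0 := mul_ne_zero (mul_ne_zero hB hx) hb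
    exact ((key _ _ (cast_ne hB) (Gf_ne hs 1 (Or.inl rfl))).sub
      (key _ _ (cast_ne hB) (Gf_ne hs 2 (Or.inr rfl)))).add (key _ _ w_ne (cast_ne hBbx))
  · intro b x p q p' q' X Y hb hx hs hX hY hn
    have hpp : p' ≠ 0 ∨ p ≠ 0 := by
      by_contra hcon
      push Not at hcon
      apply hs.n2
      rw [hcon.1, hcon.2]
      ring
    have hqq : q' ≠ 0 ∨ q ≠ 0 := by
      by_contra hcon
      push Not at hcon
      apply N''_ne hs
      rw [hcon.1, hcon.2]
      ring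
    have hN1 := cast_ne hs.n2
    have hN2 := cast_ne (N''_ne hs)
    have hN0 := cast_ne hn
    have d1 := Df_ne hX hY hpp 1 (Or.inl rfl)
    have d2 := Df_ne hX hY hpp 2 (Or.inr rfl)
    have e1 := Df_ne hX hY hqq 1 (Or.inl rfl)
    have e2 := Df_ne hX hY hqq 2 (Or.inr rfl)
    exact ((((key _ _ d1 hN1).sub (key _ _ d2 hN1)).sub (key _ _ d1 hN0)).add
      (key _ _ d2 hN0)).sub ((((key _ _ e1 hN2).sub (key _ _ e2 hN2)).sub
      (key _ _ e1 hN0)).add (key _ _ e2 hN0))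

end Pool.Agent.PT


end

section

/-!
# Prime twists of rank zero, `n` divisible by `3`: the local term of a point when `b` is a cube
-/

set_option autoImplicit false

namespace Pool.Agent.PT3

open Pool.Agent.Lib_helper18 Pool.Agent.Lib_helper18.Eis Pool.Agent.Lib_helper84.Cub
open Pool.Agent.PT Pool.Agent.PTE

namespace IIAG

/-- the right side of the identity -/
noncomputable def RS (s : Eis → Eis → ZMod 3) (n : Eis) (p q p' q' r : ℤ) : ZMod 3 :=
  s n (Gf p q p' q' 1) - s n (Gf p q p' q' 2) + s w n - AS s n p q p' q' r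

/-- the linear forms do not vanish -/
theorem lf_ne' {π : Eis} (hπ : Prime π) {p q r : ℤ} (hn : p ^ 3 + r ^ 3 * q ^ 3 ≠ 0) (i : ℕ) :
    Lf p q i r ≠ 0 := by
  refine LEV.lf_ne hπ (b := r ^ 3) hn (Nat.lt_succ_self _) ?_ i
  push_cast
  rw [sub_self]
  exact dvd_zero _

theorem sol_n {b x p q p' q' : ℤ} (h : Sol b x p q p' q') : p' ^ 3 + b * q' ^ 3 ≠ 0 := by
  intro h0
  apply h.n1
  rw [h.eq, h0, mul_zero]

section Sym

variable {π : Eis} {s : Eis → Eis → ZMod 3} {e : ℕ} {p q p' q' r x : ℤ}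

theorem RS_congr (h : LSym π s e) (hS : Sol (r ^ 3) x p q p' q') {n m : Eis} (hn : n ≠ 0)
    (hm : m ≠ 0) (hnm : ∀ A : Eis, A ≠ 0 → s n A = s m A) :
    RS s n p q p' q' r = RS s m p q p' q' r := by
  have l1 := lf_ne' h.prime hS.n1
  have l2 := lf_ne' h.prime (sol_n hS)
  unfold RS AS
  rw [hnm _ (LFIN.Gf_ne hS 1 (Or.inl rfl)), hnm _ (LFIN.Gf_ne hS 2 (Or.inr rfl)),
    h.skew n w hn LEV.w_ne, h.skew m w hm LEV.w_ne, hnm _ LEV.w_ne, hnm _ (l1 2), hnm _ (l2 1),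
    hnm _ (l1 1), hnm _ (l2 2)]

theorem RS_zero (h : LSym π s e) (hS : Sol (r ^ 3) x p q p' q') {n : Eis} (hn : n ≠ 0)
    (h0 : ∀ A : Eis, A ≠ 0 → s n A = 0) : RS s n p q p' q' r = 0 := by
  have l1 := lf_ne' h.prime hS.n1
  have l2 := lf_ne' h.prime (sol_n hS)
  unfold RS AS
  rw [h0 _ (LFIN.Gf_ne hS 1 (Or.inl rfl)), h0 _ (LFIN.Gf_ne hS 2 (Or.inr rfl)),
    h.skew n w hn LEV.w_ne, h0 _ LEV.w_ne, h0 _ (l1 2), h0 _ (l2 1), h0 _ (l1 1), h0 _ (l2 2)]
  ring

/-- IF2 -/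
theorem RS_x (h : LSym π s e) (hIF2 : IF2) (hr : r ≠ 0) (hx : x ≠ 0)
    (hS : Sol (r ^ 3) x p q p' q') : RS s (x : Eis) p q p' q' r = 0 := by
  obtain ⟨N0, h1⟩ := hIF2 π s e h (r ^ 3) x p q p' q' (pow_ne_zero 3 hr) hx hS
  have h2 := h1 r (by push_cast; rw [sub_self]; exact dvd_zero _)
  unfold RS
  rw [h2, sub_self]

/-- a symbol of a cube on the right -/
theorem cube_right (h : LSym π s e) {c y : Eis} (hc : c ≠ 0) (hy : y ≠ 0) : s y (c ^ 3) = 0 := by
  rw [h.skew (c ^ 3) y (pow_ne_zero 3 hc) hy, LEV.cube_left h hc hy, neg_zero]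

/-- the case where `x` is a local cube -/
theorem case_cube (h : LSym π s e) (hIF1 : IF1) (hIF4 : IF4) (hr : r ≠ 0) (hx : x ≠ 0)
    (hS : Sol (r ^ 3) x p q p' q') {X Y : ℤ} (hX : X ≠ 0) (hY : Y ≠ 0)
    (hn : X ^ 3 + x * Y ^ 3 ≠ 0) (hL : LC π x) :
    SV s x p q p' q' X Y = RS s ((X ^ 3 + x * Y ^ 3 : ℤ) : Eis) p q p' q' r := by
  have hr3 : r ^ 3 ≠ 0 := pow_ne_zero 3 hr
  obtain ⟨N1, h1⟩ := hIF4 π s e h (r ^ 3) x p q p' q' X Y hr3 hx hS hX hY hn
  obtain ⟨N2, h2⟩ := hIF1 π s e h (r ^ 3) x p q p' q' hr3 hx hS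
  obtain ⟨ξ, hξ⟩ := hL (N1 + N2 + V π ((X ^ 3 + x * Y ^ 3 : ℤ) : Eis) + 1)
  have a1 := h1 ξ ((pow_dvd_pow _ (by omega)).trans hξ)
  have a2 := h2 r ξ (by push_cast; rw [sub_self]; exact dvd_zero _)
    ((pow_dvd_pow _ (by omega)).trans hξ) ((X ^ 3 + x * Y ^ 3 : ℤ) : Eis) (LEV.cast_ne hn)
  have hF := LEV.lf_ne h.prime hn (N := N1 + N2 + V π ((X ^ 3 + x * Y ^ 3 : ℤ) : Eis) + 1)
    (by omega) hξ
  have c1 : ((r ^ 3 : ℤ) : Eis) = (r : Eis) ^ 3 := by push_cast; ring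
  rw [c1, cube_right h (LEV.cast_ne hr) (hF 1), cube_right h (LEV.cast_ne hr) (hF 2)] at a1
  unfold RS
  rw [a1]
  linear_combination a2

end Sym

/-- the continuity of the symbol, in terms of valuations -/
theorem s_close {π : Eis} {s : Eis → Eis → ZMod 3} (h : LSym π s 1) {a c : Eis} (ha : a ≠ 0)
    (hc : c ≠ 0) (hV : V π a < V π c) {A : Eis} (hA : A ≠ 0) : s (a + c) A = s a A := by
  refine h.cont a (a + c) A ha hA ?_
  rw [add_sub_cancel_left]
  exact (pow_dvd_pow _ hV).trans (pow_multiplicity_dvd _ _)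

/-- the tame places -/
theorem tame (hSTM : STM) (hSPP : SPP) (hLCI : LCI) (hIF1 : IF1) (hIF2 : IF2) (hIF4 : IF4)
    (hF6R : F6R) (hF7U : F7U) (π : PP) {r x p q p' q' X Y : ℤ} (hr : r ≠ 0) (hx : x ≠ 0)
    (hS : Sol (r ^ 3) x p q p' q') (hX : X ≠ 0) (hY : Y ≠ 0) (hn : X ^ 3 + x * Y ^ 3 ≠ 0) :
    SV (tm π.1) x p q p' q' X Y =
      RS (tm π.1) ((X ^ 3 + x * Y ^ 3 : ℤ) : Eis) p q p' q' r := by
  have h3 := (hSPP.2.2.2.1 π).1
  have h : LSym π.1 (tm π.1) 1 := hSTM π.1 π.2.1 h3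
  have hπ := π.2.1
  have hr3 : r ^ 3 ≠ 0 := pow_ne_zero 3 hr
  have hXe := LEV.cast_ne hX
  have hYe := LEV.cast_ne hY
  have hxe := LEV.cast_ne hx
  have hne := LEV.cast_ne hn
  have hX3 : (X : Eis) ^ 3 ≠ 0 := pow_ne_zero 3 hXe
  have hY3 : (Y : Eis) ^ 3 ≠ 0 := pow_ne_zero 3 hYe
  have hxY : (x : Eis) * (Y : Eis) ^ 3 ≠ 0 := mul_ne_zero hxe hY3
  have en : ((X ^ 3 + x * Y ^ 3 : ℤ) : Eis) = (X : Eis) ^ 3 + (x : Eis) * (Y : Eis) ^ 3 := by
    push_cast; ring
  have hsX : ∀ A : Eis, A ≠ 0 → tm π.1 ((X : Eis) ^ 3) A = 0 := fun A hA =>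
    LEV.cube_left h hXe hA
  have hsx : ∀ A : Eis, A ≠ 0 → tm π.1 ((x : Eis) * (Y : Eis) ^ 3) A = tm π.1 (x : Eis) A :=
    fun A hA => by rw [h.mul _ _ _ hxe hY3 hA, LEV.cube_left h hYe hA, add_zero]
  have vX : V π.1 ((X : Eis) ^ 3) = 3 * V π.1 (X : Eis) := V_pow hπ hXe 3
  have vx : V π.1 ((x : Eis) * (Y : Eis) ^ 3) = V π.1 (x : Eis) + 3 * V π.1 (Y : Eis) := by
    rw [V_mul hπ hxe hY3, V_pow hπ hYe]
  by_cases hVx : 3 ∣ V π.1 (x : Eis)
  · by_cases hcx : ch π.1 (x : Eis) = 0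
    · exact case_cube h hIF1 hIF4 hr hx hS hX hY hn ((hLCI.1 π x hx).2 ⟨hVx, hcx⟩)
    · -- valuation divisible by three, not a cube
      rw [hF7U π (r ^ 3) x p q p' q' X Y hr3 hx hS hX hY hVx hcx]
      have hVx0 : (V π.1 (x : Eis) : ZMod 3) = 0 := LEV.cast3.2 hVx
      have hVw : (V π.1 w : ZMod 3) = 0 := by
        rw [V_eq_zero (not_dvd_w hπ)]; rfl
      -- the valuation of `n0`
      have hVn : 3 ∣ V π.1 ((X ^ 3 + x * Y ^ 3 : ℤ) : Eis) := by
        rw [en]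
        have hne' : (X : Eis) ^ 3 + (x : Eis) * (Y : Eis) ^ 3 ≠ 0 := by rw [← en]; exact hne
        rcases lt_trichotomy (V π.1 ((X : Eis) ^ 3)) (V π.1 ((x : Eis) * (Y : Eis) ^ 3)) with
          hlt | heq | hlt
        · have e1 : V π.1 ((X : Eis) ^ 3 + (x : Eis) * (Y : Eis) ^ 3) = V π.1 ((X : Eis) ^ 3) := by
            rw [add_comm]
            exact (fin hπ hX3).multiplicity_add_of_gt hlt
          rw [e1, vX]
          exact dvd_mul_right _ _
        · by_cases hgt : V π.1 ((X : Eis) ^ 3) <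
              V π.1 ((X : Eis) ^ 3 + (x : Eis) * (Y : Eis) ^ 3)
          · exfalso
            apply hcx
            have e1 : tm π.1 ((x : Eis) * (Y : Eis) ^ 3) π.1 = 0 := by
              have e2 := s_close h (a := -((X : Eis) ^ 3))
                (c := (X : Eis) ^ 3 + (x : Eis) * (Y : Eis) ^ 3) (neg_ne_zero.2 hX3) hne'
                (by rw [V_neg]; exact hgt) hπ.ne_zero
              rw [neg_add_cancel_left, LEV.neg_left h hX3 hπ.ne_zero,
                hsX _ hπ.ne_zero] at e2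
              exact e2
            rw [hsx _ hπ.ne_zero] at e1
            unfold tm at e1
            rw [V_self, hVx0] at e1
            simpa using e1
          · have hle : V π.1 ((X : Eis) ^ 3) ≤
                V π.1 ((X : Eis) ^ 3 + (x : Eis) * (Y : Eis) ^ 3) := by
              apply (fin hπ hne').le_multiplicity_of_pow_dvd
              refine dvd_add (pow_multiplicity_dvd _ _) ?_
              change π.1 ^ (V π.1 ((X : Eis) ^ 3)) ∣ _
              rw [heq]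
              exact pow_multiplicity_dvd _ _
            have e1 : V π.1 ((X : Eis) ^ 3 + (x : Eis) * (Y : Eis) ^ 3) =
                V π.1 ((X : Eis) ^ 3) := by omega
            rw [e1, vX]
            exact dvd_mul_right _ _
        · have e1 : V π.1 ((X : Eis) ^ 3 + (x : Eis) * (Y : Eis) ^ 3) =
              V π.1 ((x : Eis) * (Y : Eis) ^ 3) :=
            (fin hπ hxY).multiplicity_add_of_gt hlt
          rw [e1, vx]
          exact (Nat.dvd_add_right hVx).2 (dvd_mul_right _ _)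
      have hVn0 : (V π.1 ((X ^ 3 + x * Y ^ 3 : ℤ) : Eis) : ZMod 3) = 0 := LEV.cast3.2 hVn
      have h2 := RS_x h hIF2 hr hx hS
      unfold RS AS tm at h2 ⊢
      rw [hVx0, hVw] at h2
      rw [hVn0, hVw]
      have e1 : ∀ c d t : ZMod 3, c ≠ 0 → c * t = 0 → d * t = 0 := by decide
      have e2 := e1 (ch π.1 (x : Eis)) (ch π.1 ((X ^ 3 + x * Y ^ 3 : ℤ) : Eis))
        ((V π.1 (Gf p q p' q' 1) : ZMod 3) - (V π.1 (Gf p q p' q' 2) : ZMod 3) -
          ((V π.1 (Lf p q 2 r) : ZMod 3) + (V π.1 (Lf p' q' 1 r) : ZMod 3) -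
            (V π.1 (Lf p q 1 r) : ZMod 3) - (V π.1 (Lf p' q' 2 r) : ZMod 3))) hcx
        (by linear_combination h2)
      linear_combination -e2
  · -- valuation not divisible by three
    have hSV : SV (tm π.1) x p q p' q' X Y = 0 := by
      have h6 := hF6R π (r ^ 3) x p q p' q' X Y hr3 hx hS hX hY hVx
      by_cases hVn : 3 ∣ V π.1 ((X ^ 3 + x * Y ^ 3 : ℤ) : Eis)
      · exact h6.1 hVn
      · have c1 : ((r ^ 3 : ℤ) : Eis) = (r : Eis) ^ 3 := by push_cast; ring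
        rw [h6.2 hVn, c1, cube_right h (LEV.cast_ne hr) LEV.w_ne, neg_zero]
    rw [hSV]
    rcases lt_trichotomy (V π.1 ((X : Eis) ^ 3)) (V π.1 ((x : Eis) * (Y : Eis) ^ 3)) with
      hlt | heq | hlt
    · refine (RS_zero h hS hne fun A hA => ?_).symm
      rw [en, s_close h hX3 hxY hlt hA, hsX A hA]
    · exfalso
      omega
    · rw [RS_congr h hS hne hxe, RS_x h hIF2 hr hx hS]
      intro A hA
      rw [en, add_comm, s_close h hxY hX3 hlt hA, hsx A hA]

end IIAG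

open _root_.Pool.Agent.PT3.IIAG in
/-- IIAG: the local term of a point when `b` is the cube of an integer. -/
theorem IIAG_thm (hSTM : STM) (hSPP : SPP) (hSSL : SSL) (hLCI : LCI) (hLFIN : LFIN)
    (hIF1 : IF1) (hIF2 : IF2) (hIF4 : IF4) (hF6R : F6R) (hF7U : F7U) : IIAG := by
  intro r x p q p' q' X Y hr hx hS hX hY hn
  have hr3 : r ^ 3 ≠ 0 := pow_ne_zero 3 hr
  have hne := LEV.cast_ne hn
  obtain ⟨π0, -⟩ := hSPP.2.2.2.2.1 2 Nat.prime_two (by norm_num)
  have l1 := lf_ne' π0.2.1 hS.n1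
  have l2 := lf_ne' π0.2.1 (sol_n hS)
  have key : ∀ a b : Eis, a ≠ 0 → b ≠ 0 → LFIN.FZ (fun v : Pl => sy v a b) :=
    fun a b ha hb => hSSL.2.2.2 a b ha hb
  have hSV : LFIN.FZ (fun v : Pl => SV (sy v) x p q p' q' X Y) :=
    hLFIN.2.2 (r ^ 3) x p q p' q' X Y hr3 hx hS hX hY hn
  have hG1 := LFIN.Gf_ne hS 1 (Or.inl rfl)
  have hG2 := LFIN.Gf_ne hS 2 (Or.inr rfl)
  have hRS : LFIN.FZ (fun v : Pl =>
      RS (sy v) ((X ^ 3 + x * Y ^ 3 : ℤ) : Eis) p q p' q' r) := by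
    unfold RS AS
    exact (((key _ _ hne hG1).sub (key _ _ hne hG2)).add (key _ _ LEV.w_ne hne)).sub
      ((((key _ _ hne (l1 2)).add (key _ _ hne (l2 1))).sub (key _ _ hne (l1 1))).sub
        (key _ _ hne (l2 2)))
  have hD := (hSV.sub hRS).2
  have h0 : ∀ v : Pl, v ≠ none → SV (sy v) x p q p' q' X Y -
      RS (sy v) ((X ^ 3 + x * Y ^ 3 : ℤ) : Eis) p q p' q' r = 0 := by
    intro v hv
    cases v with
    | none => exact absurd rfl hv
    | some π =>
      exact sub_eq_zero.2 (tame hSTM hSPP hLCI hIF1 hIF2 hIF4 hF6R hF7U π hr hx hS hX hY hn)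
  rw [finsum_eq_single _ none h0] at hD
  exact sub_eq_zero.1 hD

end Pool.Agent.PT3


end

section

/-!
# PT3_LB: the local form of the antisymmetry at `lam` when `b` is a local cube
-/

open NumberField IsDedekindDomain Finset
open scoped nonZeroDivisors Pointwise

namespace Pool.Agent.PT3

open Pool.Agent.Lib_helper18 Pool.Agent.Lib_helper18.Eis Pool.Agent.Lib_helper84.Cub
open Pool.Agent.PT Pool.Agent.PTE

namespace LB

/-- the left argument of a symbol at `lam` only matters through its class -/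
theorem sl_congr (hSLC : SLC) (hLCL : LCL) {B x : ℤ} (hB : B ≠ 0) (hx : x ≠ 0)
    (h1 : lv x = lv B) (h2 : lw x = lw B) {c : Eis} (hc : c ≠ 0) :
    sl (B : Eis) c = sl (x : Eis) c := by
  have h3 := hLCL.2.2.2.2.2.1 x B c hx hB hc h1 h2
  rw [hSLC.skew c (B : Eis) hc (LEV.cast_ne hB), hSLC.skew c (x : Eis) hc (LEV.cast_ne hx), h3]

/-- `AS` of a rational number depends only on its class at `lam`. -/
theorem AS_congr (hSLC : SLC) (hLCL : LCL) {B x p q p' q' r : ℤ} (hB : B ≠ 0) (hx : x ≠ 0)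
    (h1 : lv x = lv B) (h2 : lw x = lw B) (hF : ∀ i, Lf p q i r ≠ 0)
    (hH : ∀ i, Lf p' q' i r ≠ 0) :
    AS sl (B : Eis) p q p' q' r = AS sl (x : Eis) p q p' q' r := by
  unfold AS
  rw [sl_congr hSLC hLCL hB hx h1 h2 (hF 2), sl_congr hSLC hLCL hB hx h1 h2 (hH 1),
    sl_congr hSLC hLCL hB hx h1 h2 (hF 1), sl_congr hSLC hLCL hB hx h1 h2 (hH 2)]

theorem hn' {b x p q p' q' : ℤ} (h : SolW b x p q p' q') : p' ^ 3 + b * q' ^ 3 ≠ 0 := by
  intro h0
  apply h.n1
  rw [h.eq, h0, mul_zero]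

theorem first (hSTM : STM) (hSPP : SPP) (hSLC : SLC) (hSCJ : SCJ) (hLCI : LCI) (hIF1 : IF1)
    (hAVV : AVV) (B b x p q p' q' : ℤ) (hB : B ≠ 0) (hb : b ≠ 0) (hx : x ≠ 0)
    (hs : Sol b x p q p' q') (h1 : LC lam b) (h2 : LC lam x) :
    TT none B b x p q p' q' + TT none B x b p (-p') (-q) q' = UV sl B b x p q p' q' := by
  have hL : LSym (uni none) (sy none) 4 := hSLC
  have hs' := LAM.sol_swap hs
  have h1' : LC (uni none) b := h1
  have h2' : LC (uni none) x := h2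
  obtain ⟨N0, hN⟩ := hIF1 (uni none) (sy none) 4 hL b x p q p' q' hb hx hs
  obtain ⟨N1, hN1⟩ := (hAVV none B b x p q p' q' hB hb hx hs.toSolW
    (hSCJ.2.2.1 B x hB hx) h1').1
  obtain ⟨N2, hN2⟩ := (hAVV none B x b p (-p') (-q) q' hB hx hb hs'.toSolW
    (hSCJ.2.2.1 B b hB hb) h2').1
  obtain ⟨r, hr⟩ := h1' (max N0 N1)
  obtain ⟨ξ, hξ⟩ := h2' (max N0 N2)
  have hwb : sy none w (b : Eis) = 0 := LAM.w_lc hLCI hL hb h1'
  have hwx : sy none w (x : Eis) = 0 := LAM.w_lc hLCI hL hx h2'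
  have e1 := hN r ξ (LAM.dvd_weak (le_max_left _ _) hr) (LAM.dvd_weak (le_max_left _ _) hξ)
    (B : Eis) (LAM.icast_ne hB)
  have e2 := hN1 r (LAM.dvd_weak (le_max_right _ _) hr)
  have e3 := hN2 ξ (LAM.dvd_weak (le_max_right _ _) hξ)
  have e4 : UV (sy none) B b x p q p' q' = sy none (B : Eis) (Gf p q p' q' 1) -
      sy none (B : Eis) (Gf p q p' q' 2) + sy none w (B : Eis) := by
    unfold UV
    rw [LAM.w_mul hL hB hx hb, hwb, hwx, add_zero, add_zero]
  change _ = UV (sy none) B b x p q p' q'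
  rw [e4]
  unfold TT
  rw [if_pos h1', if_pos h2', hwb, hwx, ← e2, ← e3]
  linear_combination e1

theorem second (hSLC : SLC) (hSCJ : SCJ) (hLCI : LCI) (hIF2 : IF2)
    (hAVV : AVV) (hLCL : LCL) (B b x p q p' q' : ℤ) (hB : B ≠ 0) (hb : b ≠ 0) (hx : x ≠ 0)
    (hs : Sol b x p q p' q') (h1 : LC lam b) (h2 : lv x = lv B) (h3 : lw x = lw B) :
    TT none B b x p q p' q' = UV sl B b x p q p' q' := by
  have hL : LSym (uni none) (sy none) 4 := hSLC
  have h1' : LC (uni none) b := h1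
  have hwb : sy none w (b : Eis) = 0 := LAM.w_lc hLCI hL hb h1'
  have hwB : sy none w (B : Eis) = sy none w (x : Eis) :=
    hLCL.2.2.2.2.2.1 B x w hB hx LEV.w_ne h2.symm h3.symm
  have hG : ∀ i, i = 1 ∨ i = 2 → sl (B : Eis) (Gf p q p' q' i) = sl (x : Eis) (Gf p q p' q' i) :=
    fun i hi => sl_congr hSLC hLCL hB hx h2 h3 (LFIN.Gf_ne hs i hi)
  obtain ⟨N0, hN⟩ := hIF2 lam sl 4 hSLC b x p q p' q' hb hx hs
  obtain ⟨N1, hN1⟩ := (hAVV none B b x p q p' q' hB hb hx hs.toSolW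
    (hSCJ.2.2.1 B x hB hx) h1').1
  obtain ⟨r, hr⟩ := h1' (max (max N0 N1)
    (max (V lam ((p ^ 3 + b * q ^ 3 : ℤ) : Eis) + 1) (V lam ((p' ^ 3 + b * q' ^ 3 : ℤ) : Eis) + 1)))
  have hr1 := LAM.dvd_weak (le_max_left _ _) hr
  have hr2 := LAM.dvd_weak (le_max_right _ _) hr
  have hF : ∀ i, Lf p q i r ≠ 0 := LEV.lf_ne hSLC.prime hs.n1 (Nat.lt_succ_self _)
    (LAM.dvd_weak (le_max_left _ _) hr2)
  have hH : ∀ i, Lf p' q' i r ≠ 0 := LEV.lf_ne hSLC.prime (hn' hs.toSolW) (Nat.lt_succ_self _)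
    (LAM.dvd_weak (le_max_right _ _) hr2)
  have e1 := hN r (LAM.dvd_weak (le_max_left _ _) hr1)
  have e2 := hN1 r (LAM.dvd_weak (le_max_right _ _) hr1)
  have e3 : AS (sy none) (B : Eis) p q p' q' r = AS sl (x : Eis) p q p' q' r :=
    AS_congr hSLC hLCL hB hx h2 h3 hF hH
  have e4 : UV (sy none) B b x p q p' q' = sl (x : Eis) (Gf p q p' q' 1) -
      sl (x : Eis) (Gf p q p' q' 2) + (sy none w (x : Eis) + sy none w (x : Eis)) := by
    unfold UV
    rw [LAM.w_mul hL hB hx hb, hwb, hwB, add_zero]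
    change sl (B : Eis) _ - sl (B : Eis) _ + _ = _
    rw [hG 1 (Or.inl rfl), hG 2 (Or.inr rfl)]
  change _ = UV (sy none) B b x p q p' q'
  rw [e4]
  unfold TT
  rw [if_pos h1', ← e2, e3, e1]
  change sl (x : Eis) _ - sl (x : Eis) _ + sl w (x : Eis) + sl w (x : Eis) =
    sl (x : Eis) _ - sl (x : Eis) _ + (sl w (x : Eis) + sl w (x : Eis))
  rw [add_assoc]

end LB

set_option linter.unusedVariables false in
theorem LB_thm (hSTM : STM) (hSPP : SPP) (hSSL : SSL) (hSLC : SLC) (hSCJ : SCJ) (hLCI : LCI)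
    (hIF1 : IF1) (hIF2 : IF2) (hAVV : AVV) (hLCL : LCL) : LB :=
  ⟨LB.first hSTM hSPP hSLC hSCJ hLCI hIF1 hAVV, LB.second hSLC hSCJ hLCI hIF2 hAVV hLCL⟩

end Pool.Agent.PT3


end

section

/-!
# Prime twists of rank zero, `n` divisible by `3`: the local evaluation at the tame places
(module LEVG)
-/

namespace Pool.Agent.PT3

open Pool.Agent.Lib_helper18 Pool.Agent.Lib_helper18.Eis Pool.Agent.Lib_helper84.Cub
open Pool.Agent.PT Pool.Agent.PTE

namespace LEVG

/-- A class that is not a local cube and whose symbol with `B` vanishes has valuation prime to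
`3` at a prime dividing `B`. -/
theorem nd {π : PP} {B t : ℤ} (h1 : V π.1 (B : Eis) ≠ 0) (h2 : V π.1 (B : Eis) ≤ 2)
    (ht : tm π.1 (t : Eis) (B : Eis) = 0)
    (hL : ¬ (3 ∣ V π.1 (t : Eis) ∧ ch π.1 (t : Eis) = 0)) : ¬ 3 ∣ V π.1 (t : Eis) := by
  intro h3
  apply hL
  refine ⟨h3, ?_⟩
  unfold tm at ht
  rw [LEV.cast3.2 h3, zero_mul, sub_zero] at ht
  have h9 : (V π.1 (B : Eis) : ZMod 3) ≠ 0 := by
    rw [Ne, LEV.cast3]
    omega
  have : ∀ u y : ZMod 3, u ≠ 0 → u * y = 0 → y = 0 := by decide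
  exact this _ _ h9 ht

end LEVG

/-- LEVG: the local evaluation at the tame places. -/
theorem LEVG_thm (hSTM : STM) (hSPP : SPP) (hSSL : SSL) (hSLC : SLC) (hSREC : SREC) (hSCJ : SCJ)
    (hLCI : LCI) (hIF1 : IF1) (hIF2 : IF2) (hIF4 : IF4) (hIF4B : IF4B) (hAVV : AVV)
    (hTAMG : TAMG) (hF6R : F6R) (hF7U : F7U) : LEVG := by
  intro π B b x p q p' q' X Y hB hb hx hS hP
  have hs : LSym π.1 (tm π.1) 1 := hSTM π.1 π.2.1 (hSPP.2.2.2.1 π).1
  obtain ⟨hF2B, hF3R, hF3U⟩ := hTAMG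
  have hB0 := hB.ne
  have hb0 := hb.ne
  have hx0 := hx.ne
  have hBe := LEV.cast_ne hB0
  have hbe := LEV.cast_ne hb0
  have hxe := LEV.cast_ne hx0
  obtain ⟨hn, c, hc, heq⟩ := LEV.rel hB0 hP
  have hrel := LEV.rel_sym hs hBe hxe (LEV.cast_ne hn) hc heq
  have hsBx : tm π.1 (B : Eis) (x : Eis) = 0 := by
    have h1 := hx.sym π
    have h2 := hs.skew (x : Eis) (B : Eis) hxe hBe
    rw [h2, h1, neg_zero]
  have hwprod : tm π.1 w ((B * x * b : ℤ) : Eis) =
      tm π.1 w (B : Eis) + tm π.1 w (x : Eis) + tm π.1 w (b : Eis) := by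
    push_cast
    rw [LEV.mul_right hs (mul_ne_zero hBe hxe) hbe LEV.w_ne, LEV.mul_right hs hBe hxe LEV.w_ne]
  by_cases hLb : LC π.1 b
  · have hTT : TT (some π) B b x p q p' q' = AV (some π) B b p q p' q' + tm π.1 w (x : Eis) := by
      unfold TT
      exact if_pos hLb
    have hA := hAVV (some π) B b x p q p' q' hB0 hb0 hx0 hS.toSolW hsBx hLb
    by_cases hLx : LC π.1 x
    · -- both cubes
      obtain ⟨N1, h1⟩ := hA.1
      obtain ⟨N2, h2⟩ := hIF1 π.1 (tm π.1) 1 hs b x p q p' q' hb0 hx0 hS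
      obtain ⟨N3, _, h3⟩ := LEV.SV_LC hs hLCI hIF4 hb0 hx0 hS hP.hX hP.hY hn hLx hrel
      obtain ⟨r, hr⟩ := hLb (N1 + N2)
      obtain ⟨ξ, hξ⟩ := hLx (N2 + N3)
      have a1 : AS (tm π.1) (B : Eis) p q p' q' r = AV (some π) B b p q p' q' :=
        h1 r ((pow_dvd_pow π.1 (by omega)).trans hr)
      have a2 := h2 r ξ ((pow_dvd_pow _ (by omega)).trans hr)
        ((pow_dvd_pow _ (by omega)).trans hξ) (B : Eis) hBe
      obtain ⟨hF, a3⟩ := h3 ξ ((pow_dvd_pow _ (by omega)).trans hξ)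
      rw [LEV.lc_right hs hLCI hb0 hLb (hF 1), LEV.lc_right hs hLCI hb0 hLb (hF 2)] at a3
      have a4 := LEV.lc_right hs hLCI hb0 hLb LEV.w_ne
      have a5 := LEV.lc_right hs hLCI hx0 hLx LEV.w_ne
      rw [hTT]
      unfold UV
      rw [hwprod, a3, a4, a5, ← a1]
      linear_combination a2
    · -- `b` is a cube, `x` is not
      obtain ⟨N1, h1⟩ := hF2B π B b x p q p' q' hB hb hx hS hLb hLx
      have a1 := hA.2 _ N1 h1
      have a4 := LEV.lc_right hs hLCI hb0 hLb LEV.w_ne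
      have a2 : SV (tm π.1) x p q p' q' X Y = 0 := by
        by_cases hVx : 3 ∣ V π.1 (x : Eis)
        · refine hF7U π b x p q p' q' X Y hb0 hx0 hS hP.hX hP.hY hVx fun h => hLx ?_
          exact (hLCI.1 π x hx0).2 ⟨hVx, h⟩
        · have h6 := hF6R π b x p q p' q' X Y hb0 hx0 hS hP.hX hP.hY hVx
          by_cases hVn : 3 ∣ V π.1 ((X ^ 3 + x * Y ^ 3 : ℤ) : Eis)
          · exact h6.1 hVn
          · rw [h6.2 hVn, a4, neg_zero]
      rw [hTT, a1, a2]
      unfold UV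
      rw [hwprod, a4]
      ring
  · have hTT : TT (some π) B b x p q p' q' =
        if 3 ∣ V π.1 (b : Eis) + V π.1 (B : Eis) ∧ ¬ 3 ∣ V π.1 (b : Eis)
          then - tm π.1 w (x : Eis) else 0 := by
      unfold TT
      exact if_neg hLb
    by_cases hLx : LC π.1 x
    · -- `x` is a cube, `b` is not
      have a5 := LEV.lc_right hs hLCI hx0 hLx LEV.w_ne
      have hTT0 : TT (some π) B b x p q p' q' = 0 := by
        rw [hTT]
        split_ifs with hcond
        · rw [a5, neg_zero]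
        · rfl
      obtain ⟨N1, h1⟩ := hF2B π B x b p (-p') (-q) q' hB hx hb (LEV.swap hS) hLx hLb
      obtain ⟨N3, hN3, h3⟩ := LEV.SV_LC hs hLCI hIF4 hb0 hx0 hS hP.hX hP.hY hn hLx hrel
      have hmain : ∃ N4 : ℕ, ∀ ξ : ℤ, π.1 ^ N4 ∣ (ξ : Eis) ^ 3 - (x : Eis) →
          (∀ i, Lf X Y i ξ ≠ 0) →
          tm π.1 (Lf X Y 1 ξ) (b : Eis) - tm π.1 (Lf X Y 2 ξ) (b : Eis) =
            tm π.1 w (b : Eis) := by
        by_cases hLB : LC π.1 B
        · have hB' := (hLCI.1 π B hB0).1 hLB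
          have hVB : V π.1 (B : Eis) = 0 := by
            have := hB.cf π
            omega
          have hπB : ¬ π.1 ∣ (B : Eis) := V_eq_zero_iff.1 hVB
          have hπb := hb.unr π hπB
          have hπx := hx.unr π hπB
          have hVb : V π.1 (b : Eis) = 0 := V_eq_zero hπb
          have hVw : V π.1 w = 0 := V_eq_zero (not_dvd_w π.2.1)
          have hVn : 3 ∣ V π.1 ((X ^ 3 + x * Y ^ 3 : ℤ) : Eis) := by
            have h7 := congrArg (V π.1) heq
            rw [V_mul π.2.1 hxe (LEV.cast_ne hn), V_mul π.2.1 hBe (pow_ne_zero 3 hc),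
              V_pow π.2.1 hc, hVB, V_eq_zero hπx] at h7
            omega
          refine ⟨N3, fun ξ hξ hF => ?_⟩
          have h8 := LEV.val_case π.2.1 (hSPP.2.2.2.1 π).1 hP.hX hP.hY hn hπx hN3 hξ hF hVn
          unfold tm
          rw [hVb, hVw, h8]
          push_cast
          ring
        · obtain ⟨j, hj⟩ := LEV.tame_prop (π := π.1) (b := b) (B := B)
            (fun h => hLB ((hLCI.1 π B hB0).2 h)) (hb.sym π)
          exact LEV.prop_case hs hLCI hIF4B hb0 hx0 hP.hX hP.hY hn hLx hrel j hj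
      obtain ⟨N4, h4⟩ := hmain
      obtain ⟨ξ, hξ⟩ := hLx (N1 + N3 + N4)
      obtain ⟨hF, a3⟩ := h3 ξ ((pow_dvd_pow _ (by omega)).trans hξ)
      have a1 := h1 ξ ((pow_dvd_pow _ (by omega)).trans hξ)
      have a6 := h4 ξ ((pow_dvd_pow _ (by omega)).trans hξ) hF
      rw [LEV.gf_swap, LEV.gf_swap] at a1
      rw [hTT0, a3]
      unfold UV
      rw [hwprod, a5]
      linear_combination a1 + a6
    · -- no cubes
      have hLb' : ¬ (3 ∣ V π.1 (b : Eis) ∧ ch π.1 (b : Eis) = 0) :=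
        fun h => hLb ((hLCI.1 π b hb0).2 h)
      have hLx' : ¬ (3 ∣ V π.1 (x : Eis) ∧ ch π.1 (x : Eis) = 0) :=
        fun h => hLx ((hLCI.1 π x hx0).2 h)
      rw [hTT]
      by_cases hπB : π.1 ∣ (B : Eis)
      · have hVB1 : V π.1 (B : Eis) ≠ 0 := fun h => (V_eq_zero_iff.1 h) hπB
        have hVB2 := hB.cf π
        have hVb := LEVG.nd hVB1 hVB2 (hb.sym π) hLb'
        have hVx := LEVG.nd hVB1 hVB2 (hx.sym π) hLx'
        rw [hF3R π B b x p q p' q' hB hb hx hS hπB hVb hVx]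
        have h6 := hF6R π b x p q p' q' X Y hb0 hx0 hS hP.hX hP.hY hVx
        have h7 := congrArg (V π.1) heq
        rw [V_mul π.2.1 hxe (LEV.cast_ne hn), V_mul π.2.1 hBe (pow_ne_zero 3 hc),
          V_pow π.2.1 hc] at h7
        have hSV : SV (tm π.1) x p q p' q' X Y =
            if 3 ∣ V π.1 (x : Eis) + V π.1 (B : Eis) then - tm π.1 w (b : Eis) else 0 := by
          split_ifs with hcond
          · exact h6.2 (by omega)
          · refine h6.1 ?_
            have c1 : V π.1 (x : Eis) % 3 = 1 ∨ V π.1 (x : Eis) % 3 = 2 := by omega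
            have c2 : V π.1 (B : Eis) = 1 ∨ V π.1 (B : Eis) = 2 := by omega
            rcases c1 with c1 | c1 <;> rcases c2 with c2 | c2 <;> omega
        rw [hSV]
        by_cases hcond : 3 ∣ V π.1 (b : Eis) + V π.1 (B : Eis)
        · rw [if_pos ⟨hcond, hVb⟩, if_pos hcond]
          ring
        · rw [if_neg (fun h => hcond h.1), if_neg hcond]
          ring
      · have hπb := hb.unr π hπB
        have hπx := hx.unr π hπB
        have hVb : V π.1 (b : Eis) = 0 := V_eq_zero hπb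
        have hVx : V π.1 (x : Eis) = 0 := V_eq_zero hπx
        have hcb : ch π.1 (b : Eis) ≠ 0 := fun h => hLb' ⟨by rw [hVb]; exact dvd_zero _, h⟩
        have hcx : ch π.1 (x : Eis) ≠ 0 := fun h => hLx' ⟨by rw [hVx]; exact dvd_zero _, h⟩
        rw [hF3U π B b x p q p' q' hB hb hx hS hπB hcb hcx,
          hF7U π b x p q p' q' X Y hb0 hx0 hS hP.hX hP.hY (by rw [hVx]; exact dvd_zero _) hcx,
          if_neg (fun h => h.2 (by rw [hVb]; exact dvd_zero _))]
        ring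

end Pool.Agent.PT3


end
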