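import Mathlib
import Pool.Agent.PTDM.C03
import Pool.Agent.PTDM.C21
import Pool.Agent.PTDM.C29

/-! Parts: PT.ENF, PT.IF1, PT.LCI, PTE.CLSCS, PTE.SPLT, PT3.LVC -/

section

/-!
# ENF: existence of the normal form
-/

namespace Pool.Agent.PT

open Pool.Agent.Lib_helper18 Pool.Agent.Lib_helper18.Eis Pool.Agent.Lib_helper84.Cub

namespace ENF

/-- A prime of `Z[w]` above a split prime. -/
theorem exists_pi (hSPP : SPP) {p : ℕ} (hp : p.Prime) (h1 : p % 3 = 1) :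
    ∃ π : PP, (p : Eis) = π.1 * conj π.1 := by
  obtain ⟨S1, -, -, -, -, S6⟩ := hSPP
  have hp0 : (p : Eis) ≠ 0 := by
    intro h
    have := congrArg Eis.re h
    rw [natCast_re, zero_re] at this
    exact hp.ne_zero (by exact_mod_cast this)
  have hpu : ¬ IsUnit (p : Eis) := by
    rw [isUnit_iff_norm, norm_natCast]
    have h2 : (2 : ℤ) ≤ p := by exact_mod_cast hp.two_le
    nlinarith
  obtain ⟨l, hl, hlp⟩ := WfDvdMonoid.exists_irreducible_factor hpu hp0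
  have hl' : Prime l := hl.prime
  have h3 : ¬ l ∣ 3 := by
    intro h3
    have hcop : IsCoprime (p : ℤ) 3 := by
      rw [Int.isCoprime_iff_gcd_eq_one]
      have h4 : Nat.Coprime p 3 := by
        rw [Nat.Prime.coprime_iff_not_dvd hp]
        intro h5
        have := (Nat.prime_dvd_prime_iff_eq hp Nat.prime_three).1 h5
        subst this
        omega
      exact_mod_cast h4
    obtain ⟨a, b, hab⟩ := hcop
    apply hl'.not_unit
    rw [isUnit_iff_dvd_one]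
    have h6 : (1 : Eis) = (a : Eis) * (p : Eis) + (b : Eis) * 3 := by
      have h7 : ((a * p + b * 3 : ℤ) : Eis) = ((1 : ℤ) : Eis) := by rw [hab]
      push_cast at h7
      exact h7.symm
    rw [h6]
    exact dvd_add (hlp.mul_left _) (h3.mul_left _)
  obtain ⟨π, hπ⟩ := S1 l hl' h3
  have hπp : π.1 ∣ (p : Eis) := hπ.dvd_iff_dvd_left.1 hlp
  obtain ⟨q, hq, h | h⟩ := S6 π
  · exfalso
    rw [h.2] at hπp
    obtain ⟨c, hc⟩ := hπp
    have h4 := congrArg Eis.norm hc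
    rw [norm_natCast, norm_mul, norm_natCast] at h4
    have h5 : q ∣ p ^ 2 := by
      have h6 : (q : ℤ) ∣ (p : ℤ) ^ 2 := by
        rw [h4]
        exact (dvd_pow_self _ two_ne_zero).mul_right _
      exact_mod_cast h6
    have h7 := (Nat.prime_dvd_prime_iff_eq hq hp).1 (hq.dvd_of_dvd_pow h5)
    omega
  · have h4 : q = p := by
      obtain ⟨c, hc⟩ := hπp
      have h4 := congrArg Eis.norm hc
      rw [norm_natCast, norm_mul, h.2.1] at h4
      have h5 : q ∣ p ^ 2 := by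
        have h6 : (q : ℤ) ∣ (p : ℤ) ^ 2 := by
          rw [h4]
          exact dvd_mul_right _ _
        exact_mod_cast h6
      exact (Nat.prime_dvd_prime_iff_eq hq hp).1 (hq.dvd_of_dvd_pow h5)
    refine ⟨π, ?_⟩
    rw [← h4]
    exact h.2.2.1

theorem mem_pf {N l : ℕ} (hl : l.Prime) (h : ¬ 3 ∣ N.factorization l) : l ∈ N.primeFactors := by
  rw [← Nat.support_factorization, Finsupp.mem_support_iff]
  intro h0
  rw [h0] at h
  exact h (dvd_zero 3)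

theorem fin_set (N a : ℕ) :
    Finite {p : ℕ // p.Prime ∧ p % 3 = a ∧ ¬ 3 ∣ N.factorization p} := by
  apply Set.Finite.to_subtype (s := {p : ℕ | p.Prime ∧ p % 3 = a ∧ ¬ 3 ∣ N.factorization p})
  exact (N.primeFactors.finite_toSet).subset fun p hp => mem_pf hp.1 hp.2.2

theorem prod_fin (N a : ℕ) (g : ℕ → ℕ)
    (e : {p : ℕ // p.Prime ∧ p % 3 = a ∧ ¬ 3 ∣ N.factorization p} ≃
      Fin (Nat.card {p : ℕ // p.Prime ∧ p % 3 = a ∧ ¬ 3 ∣ N.factorization p})) :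
    ∏ i, g (e.symm i).1 =
      ∏ l ∈ N.primeFactors, if l % 3 = a ∧ ¬ 3 ∣ N.factorization l then g l else 1 := by
  classical
  have := fin_set N a
  let _ : Fintype {p : ℕ // p.Prime ∧ p % 3 = a ∧ ¬ 3 ∣ N.factorization p} := Fintype.ofFinite _
  rw [e.symm.prod_comp (fun s => g s.1), ← Finset.prod_filter,
    Finset.prod_subtype (N.primeFactors.filter fun l => l % 3 = a ∧ ¬ 3 ∣ N.factorization l)
      (p := fun p => p.Prime ∧ p % 3 = a ∧ ¬ 3 ∣ N.factorization p)]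
  intro l
  rw [Finset.mem_filter]
  constructor
  · intro h
    exact ⟨Nat.prime_of_mem_primeFactors h.1, h.2⟩
  · intro h
    exact ⟨mem_pf h.1 h.2.2, h.2⟩

end ENF

open _root_.Pool.Agent.PT.ENF

/-- ENF. -/
theorem ENF_thm (hSPP : SPP) : ENF := by
  classical
  intro N hN h3
  have f1 := fin_set N 1
  have f2 := fin_set N 2
  obtain ⟨e1⟩ : Nonempty ({p : ℕ // p.Prime ∧ p % 3 = 1 ∧ ¬ 3 ∣ N.factorization p} ≃
      Fin (Nat.card {p : ℕ // p.Prime ∧ p % 3 = 1 ∧ ¬ 3 ∣ N.factorization p})) :=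
    ⟨Finite.equivFin _⟩
  obtain ⟨e2⟩ : Nonempty ({p : ℕ // p.Prime ∧ p % 3 = 2 ∧ ¬ 3 ∣ N.factorization p} ≃
      Fin (Nat.card {p : ℕ // p.Prime ∧ p % 3 = 2 ∧ ¬ 3 ∣ N.factorization p})) :=
    ⟨Finite.equivFin _⟩
  choose π hπ using fun i => exists_pi hSPP (e1.symm i).2.1 (e1.symm i).2.2.1
  have hmod : ∀ l, ¬ 3 ∣ N.factorization l →
      N.factorization l % 3 = 1 ∨ N.factorization l % 3 = 2 := by
    intro l hl
    omega
  refine ⟨∏ l ∈ N.primeFactors, l ^ (N.factorization l % 3),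
    ∏ l ∈ N.primeFactors, l ^ (N.factorization l / 3), π, fun i => (e1.symm i).1,
    fun i => N.factorization (e1.symm i).1 % 3, fun j => (e2.symm j).1,
    fun j => N.factorization (e2.symm j).1 % 3, ?_, ?_, ?_, ?_, ?_⟩
  · exact Finset.prod_pos fun l hl => pow_pos (Nat.prime_of_mem_primeFactors hl).pos _
  · exact Finset.prod_pos fun l hl => pow_pos (Nat.prime_of_mem_primeFactors hl).pos _
  · rw [← Finset.prod_pow, ← Finset.prod_mul_distrib]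
    conv_lhs => rw [← Nat.prod_factorization_pow_eq_self hN.ne']
    rw [Nat.prod_factorization_eq_prod_primeFactors]
    refine Finset.prod_congr rfl fun l _ => ?_
    rw [← pow_mul, ← pow_add]
    congr 1
    omega
  · refine ⟨fun i => (e1.symm i).2.1, fun i => (e1.symm i).2.2.1, hπ,
      fun i => hmod _ (e1.symm i).2.2.2, ?_, fun j => (e2.symm j).2.1,
      fun j => (e2.symm j).2.2.1, fun j => hmod _ (e2.symm j).2.2.2, ?_, ?_⟩
    · intro i i' h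
      exact e1.symm.injective (Subtype.ext h)
    · intro i i' h
      exact e2.symm.injective (Subtype.ext h)
    · rw [prod_fin N 1 (fun l => l ^ (N.factorization l % 3)) e1,
        prod_fin N 2 (fun l => l ^ (N.factorization l % 3)) e2, ← Finset.prod_mul_distrib]
      refine Finset.prod_congr rfl fun l hl => ?_
      have hlp := Nat.prime_of_mem_primeFactors hl
      have hl3 : l % 3 ≠ 0 := by
        intro h0
        have h4 := (Nat.prime_dvd_prime_iff_eq Nat.prime_three hlp).1 (Nat.dvd_of_mod_eq_zero h0)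
        apply h3
        rw [h4]
        exact Nat.dvd_of_mem_primeFactors hl
      by_cases hv : 3 ∣ N.factorization l
      · rw [if_neg (fun h => h.2 hv), if_neg (fun h => h.2 hv), Nat.mod_eq_zero_of_dvd hv]
        simp
      · by_cases h1 : l % 3 = 1
        · rw [if_pos ⟨h1, hv⟩, if_neg (fun h => by omega), mul_one]
        · have h2 : l % 3 = 2 := by omega
          rw [if_neg (fun h => h1 h.1), if_pos ⟨h2, hv⟩, one_mul]
  · intro l hl hv h2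
    exact ⟨e2 ⟨l, hl, h2, hv⟩, congrArg Subtype.val (e2.symm_apply_apply ⟨l, hl, h2, hv⟩)⟩

end Pool.Agent.PT


end

section

/-!
# IF1: the identity of the two norm residue symbols
-/

namespace Pool.Agent.PT

open Pool.Agent.Lib_helper18 Pool.Agent.Lib_helper18.Eis Pool.Agent.Lib_helper84.Cub

namespace IF1

/-! ### The polynomial identity -/

section Poly

variable {R : Type*} [CommRing R]

theorem pair_mul {t : R} (ht : t ^ 2 + t + 1 = 0) (u v u' v' : R) :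
    (u + t * v) * (u' + t * v') = (u * u' - v * v') + t * (u * v' + v * u' - v * v') := by
  linear_combination (v * v') * ht

/-- the cofactor -/
def RR (a b c d : R) : R :=
  a^3*b*c*d - a^3*b*d^2 - a^3*c*d^2 + a^2*b^2*c^2 - 3*a^2*b^2*c*d + a^2*b^2*d^2 - 3*a^2*b*c^2*d
    + 4*a^2*b*c*d^2 - a^2*b*d^3 + a^2*c^2*d^2 - a^2*c*d^3
    - a*b^3*c^2 + a*b^3*c*d - a*b^2*c^3 + 4*a*b^2*c^2*d - 3*a*b^2*c*d^2 + a*b*c^3*d
    - 3*a*b*c^2*d^2 + a*b*c*d^3 - b^3*c^2*d - b^2*c^3*d + b^2*c^2*d^2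

/-- the second coordinate of the product of the first four factors -/
def W1 (a b c d : R) : R :=
  (a*c - b*c + b*d) * (a*d - b*c) + (a*d - b*c) * (a*b - b*c + c*d) - (a*d - b*c) * (a*d - b*c)

/-- the first coordinate of the product of the first four factors -/
def U1 (a b c d : R) : R :=
  (a*c - b*c + b*d) * (a*b - b*c + c*d) - (a*d - b*c) * (a*d - b*c)

def U2 (a b c d : R) : R := U1 a b c d * (b*c + a*d) - W1 a b c d * (a*d)

def W2 (a b c d : R) : R :=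
  U1 a b c d * (a*d) + W1 a b c d * (b*c + a*d) - W1 a b c d * (a*d)

def U3 (a b c d : R) : R := (a+d)^3 + (b+c)^3 - 3*(a+d)*(b+c)^2

def W3 (a b c d : R) : R := 3*(a+d)^2*(b+c) - 3*(a+d)*(b+c)^2

def W4 (a b c d : R) : R :=
  U2 a b c d * W3 a b c d + W2 a b c d * U3 a b c d - W2 a b c d * W3 a b c d

theorem first (a b c d : R) : U2 a b c d * U3 a b c d - W2 a b c d * W3 a b c d =
    (a^3 + b^3 + c^3 + d^3) * RR a b c d := by
  unfold U2 W2 U3 W3 U1 W1 RR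
  ring

theorem prod_eq {t : R} (ht : t ^ 2 + t + 1 = 0) (a b c d : R) :
    (a + t^2*b) * (c + t*d) * ((a + t^2*c) * (b + t*d)) * (b*c - t^2*(a*d)) *
      (a + t*b + t*c + d)^3 = (a^3 + b^3 + c^3 + d^3) * RR a b c d + t * W4 a b c d := by
  have h1 : (a + t^2*b) * (c + t*d) = (a*c - b*c + b*d) + t * (a*d - b*c) := by
    linear_combination (b*c + b*d*(t - 1)) * ht
  have h2 : (a + t^2*c) * (b + t*d) = (a*b - b*c + c*d) + t * (a*d - b*c) := by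
    linear_combination (b*c + c*d*(t - 1)) * ht
  have h3 : b*c - t^2*(a*d) = (b*c + a*d) + t * (a*d) := by
    linear_combination (-(a*d)) * ht
  have h4 : (a + t*b + t*c + d)^3 = U3 a b c d + t * W3 a b c d := by
    unfold U3 W3
    linear_combination (3*(a+d)*(b+c)^2 + (b+c)^3*(t - 1)) * ht
  rw [h1, h2, h3, h4, pair_mul ht]
  have h5 : (a*c - b*c + b*d) * (a*b - b*c + c*d) - (a*d - b*c) * (a*d - b*c) = U1 a b c d := rfl
  have h6 : (a*c - b*c + b*d) * (a*d - b*c) + (a*d - b*c) * (a*b - b*c + c*d) -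
      (a*d - b*c) * (a*d - b*c) = W1 a b c d := rfl
  rw [h5, h6, pair_mul ht]
  have h7 : U1 a b c d * (b*c + a*d) - W1 a b c d * (a*d) = U2 a b c d := rfl
  have h8 : U1 a b c d * (a*d) + W1 a b c d * (b*c + a*d) - W1 a b c d * (a*d) = W2 a b c d := rfl
  rw [h7, h8, pair_mul ht, first]
  rfl

/-- The key identity. -/
theorem key {t : R} (ht : t ^ 2 + t + 1 = 0) (a b c d : R) :
    a^3 + b^3 + c^3 + d^3 ∣
      (t^2 * ((a + t*b) * (c + t^2*d) * ((a + t*c) * (b + t^2*d)) * (b*c - t*(a*d)) *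
        (a + t^2*b + t^2*c + d)^3)) -
      (a + t^2*b) * (c + t*d) * ((a + t^2*c) * (b + t*d)) * (b*c - t^2*(a*d)) *
        (a + t*b + t*c + d)^3 := by
  have h3 : t^3 = 1 := by linear_combination (t - 1) * ht
  have ht' : (t^2)^2 + t^2 + 1 = 0 := by linear_combination (t^2 - t + 1) * ht
  have e1 : (t^2)^2 = t := by linear_combination t * h3
  have h1 := prod_eq ht a b c d
  have h2 := prod_eq ht' a b c d
  rw [e1] at h2
  rw [h1, h2]
  refine ⟨(t^2 - 1) * RR a b c d, ?_⟩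
  linear_combination (t * W4 a b c d) * h3

/-- The identity of the degenerate case. -/
theorem degen {t : R} (h3 : t ^ 3 = 1) (a b c d : R) :
    3 * (b + c) * (b*c - t*(a*d)) = (a + t*b + t*c + d) *
      ((a + t*b + t*c + d)^2 - 3*(a + t*b + t*c + d)*t*(b+c) + 3*t^2*(b+c)^2 - 3*(a*d)) -
      (a^3 + b^3 + c^3 + d^3) := by
  linear_combination (-(b + c)^3) * h3

end Poly

/-! ### Valuations -/

section Val

variable {π : Eis}

theorem le_V {x : Eis} {n : ℕ} (hπ : Prime π) (hx : x ≠ 0) (h : π ^ n ∣ x) : n ≤ V π x :=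
  (fin hπ hx).le_multiplicity_of_pow_dvd h

theorem dvd_V {x : Eis} {n : ℕ} (h : n ≤ V π x) : π ^ n ∣ x :=
  (pow_dvd_pow π h).trans (pow_multiplicity_dvd π x)

/-- Divisors of elements close to `c`. -/
theorem V_le {c c' z : Eis} {N : ℕ} (hπ : Prime π) (hc : c ≠ 0) (hN : V π c < N)
    (h : π ^ N ∣ c' - c) (hz : z ∣ c') : z ≠ 0 ∧ V π z ≤ V π c := by
  have hc' : c' ≠ 0 := by
    rintro rfl
    rw [zero_sub, dvd_neg] at h
    have := le_V hπ hc h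
    omega
  have h1 : V π c' ≤ V π c := by
    by_contra hcon
    have h2 : π ^ (V π c + 1) ∣ c' := dvd_V (by omega)
    have h3 : π ^ (V π c + 1) ∣ c' - c := (pow_dvd_pow π (by omega)).trans h
    have h4 : π ^ (V π c + 1) ∣ c := by
      have := dvd_sub h2 h3
      rwa [sub_sub_cancel] at this
    have := le_V hπ hc h4
    omega
  obtain ⟨y, rfl⟩ := hz
  have hz0 : z ≠ 0 := left_ne_zero_of_mul hc'
  have hy0 : y ≠ 0 := right_ne_zero_of_mul hc'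
  refine ⟨hz0, ?_⟩
  rw [V_mul hπ hz0 hy0] at h1
  omega

theorem dvd_cancel {c n : Eis} {M K : ℕ} (hπ : Prime π) (hc : c ≠ 0) (hK : V π c ≤ K)
    (h : π ^ M ∣ c * n) : π ^ (M - K) ∣ n := by
  by_cases hn : n = 0
  · rw [hn]
    exact dvd_zero _
  · apply dvd_V
    have h1 := le_V hπ (mul_ne_zero hc hn) h
    rw [V_mul hπ hc hn] at h1
    omega

end Val

/-! ### Symbols -/

section Sym

variable {π : Eis} {s : Eis → Eis → ZMod 3} {e : ℕ}

theorem two_mul_eq_zero {a : ZMod 3} (h : a + a = 0) : a = 0 := by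
  revert h
  revert a
  decide

theorem three_mul_eq (a : ZMod 3) : a + a + a = 0 := by
  revert a
  decide

theorem s_one (hs : LSym π s e) {B : Eis} (hB : B ≠ 0) : s 1 B = 0 := by
  have h := hs.mul 1 1 B one_ne_zero one_ne_zero hB
  rw [mul_one] at h
  have h1 : s 1 B + s 1 B - s 1 B = s 1 B - s 1 B := by rw [← h]
  rwa [add_sub_cancel_right, sub_self] at h1

theorem s_neg (hs : LSym π s e) {B y : Eis} (hB : B ≠ 0) (hy : y ≠ 0) : s (-y) B = s y B := by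
  have hn : (-1 : Eis) ≠ 0 := neg_ne_zero.mpr one_ne_zero
  have h := hs.mul (-1) (-1) B hn hn hB
  rw [neg_one_mul, neg_neg, s_one hs hB] at h
  have h1 := two_mul_eq_zero h.symm
  have h2 := hs.mul (-1) y B hn hy hB
  rw [neg_one_mul, h1, zero_add] at h2
  exact h2

theorem s_cube (hs : LSym π s e) {B y : Eis} (hB : B ≠ 0) (hy : y ≠ 0) : s (y ^ 3) B = 0 := by
  have e1 : y ^ 3 = y * y * y := by ring
  rw [e1, hs.mul _ _ _ (mul_ne_zero hy hy) hy hB, hs.mul _ _ _ hy hy hB]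
  exact three_mul_eq _

theorem w_ne : (w : Eis) ≠ 0 := by
  intro h
  have := congrArg Eis.im h
  simp at this

end Sym

/-! ### The core -/

theorem cast_ne {n : ℤ} (h : n ≠ 0) : (n : Eis) ≠ 0 := by
  intro h1
  apply h
  have := congrArg Eis.re h1
  simpa using this

theorem dvd_sub3 {t A C : Eis} (ht : t ^ 3 = 1) : A - t * C ∣ A ^ 3 - C ^ 3 :=
  ⟨A ^ 2 + t * A * C + t ^ 2 * C ^ 2, by linear_combination (C ^ 3) * ht⟩

theorem dvd_add3 {t A C : Eis} (ht : t ^ 3 = 1) : A + t * C ∣ A ^ 3 + C ^ 3 :=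
  ⟨A ^ 2 - t * A * C + t ^ 2 * C ^ 2, by linear_combination (-C ^ 3) * ht⟩

theorem w2_cube : (w ^ 2 : Eis) ^ 3 = 1 := by
  have h := w_cube
  linear_combination (w ^ 3 + 1) * h

/-- The numbers attached to a solution. -/
theorem consts {b x p q p' q' : ℤ} (hb : b ≠ 0) (hS : Sol b x p q p' q') :
    p' ^ 3 + b * q' ^ 3 ≠ 0 ∧ x * q' ^ 3 - q ^ 3 ≠ 0 ∧ Gf p q p' q' 1 ≠ 0 ∧
      Gf p q p' q' 2 ≠ 0 := by
  have h1 : p' ^ 3 + b * q' ^ 3 ≠ 0 := by
    intro h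
    apply hS.n1
    rw [hS.eq, h, mul_zero]
  have h2 : x * q' ^ 3 - q ^ 3 ≠ 0 := by
    intro h
    apply hS.n2
    have h3 := hS.eq
    linear_combination h3 + b * h
  have h3 : (((p' ^ 3 + b * q' ^ 3) * (x * q' ^ 3 - q ^ 3) : ℤ) : Eis) ≠ 0 :=
    cast_ne (mul_ne_zero h1 h2)
  have h4 : (((p' ^ 3 + b * q' ^ 3) * (x * q' ^ 3 - q ^ 3) : ℤ) : Eis) =
      -(((q : Eis) * p' - w * (p * q')) * ((q : Eis) * p' - w ^ 2 * (p * q')) *
        ((q : Eis) * p' - p * q')) := by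
    have h5 : ((p' ^ 3 + b * q' ^ 3) * (x * q' ^ 3 - q ^ 3) : ℤ) =
        (p * q') ^ 3 - (q * p') ^ 3 := by
      have h6 := hS.eq
      linear_combination (-q' ^ 3) * h6
    rw [h5]
    push_cast
    have h7 := w_rel
    linear_combination (-((q : Eis) * p') ^ 2 * (p * q') + w * ((q : Eis) * p') * (p * q') ^ 2 -
      (w - 1) * ((p : Eis) * q') ^ 3) * h7
  rw [h4] at h3
  have h5 := neg_ne_zero.mp h3
  have h6 := left_ne_zero_of_mul h5
  refine ⟨h1, h2, ?_, ?_⟩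
  · have h7 : Gf p q p' q' 1 = (q : Eis) * p' - w * (p * q') := by
      unfold Gf
      ring
    rw [h7]
    exact left_ne_zero_of_mul h6
  · have h7 : Gf p q p' q' 2 = (q : Eis) * p' - w ^ 2 * (p * q') := by
      unfold Gf
      ring
    rw [h7]
    exact right_ne_zero_of_mul h6

/-- The linear forms do not vanish, and their valuations are bounded. -/
theorem forms {π : Eis} (hπ : Prime π) {b x p q p' q' : ℤ} (hb : b ≠ 0)
    (hS : Sol b x p q p' q') {N : ℕ}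
    (hN1 : V π ((p ^ 3 + b * q ^ 3 : ℤ) : Eis) < N)
    (hN2 : V π ((p' ^ 3 + b * q' ^ 3 : ℤ) : Eis) < N)
    (hN3 : V π ((p ^ 3 - x * p' ^ 3 : ℤ) : Eis) < N)
    (hN4 : V π ((q ^ 3 - x * q' ^ 3 : ℤ) : Eis) < N) {r z : Eis}
    (hr : π ^ N ∣ r ^ 3 - (b : Eis)) (hz : π ^ N ∣ z ^ 3 - (x : Eis)) {t : Eis}
    (ht : t ^ 3 = 1) :
    ((p + t * r * q ≠ 0 ∧ V π (p + t * r * q) ≤ V π ((p ^ 3 + b * q ^ 3 : ℤ) : Eis)) ∧
    (p' + t * r * q' ≠ 0 ∧ V π (p' + t * r * q') ≤ V π ((p' ^ 3 + b * q' ^ 3 : ℤ) : Eis))) ∧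
    ((p - t * z * p' ≠ 0 ∧ V π (p - t * z * p') ≤ V π ((p ^ 3 - x * p' ^ 3 : ℤ) : Eis)) ∧
    (q - t * z * q' ≠ 0 ∧ V π (q - t * z * q') ≤ V π ((q ^ 3 - x * q' ^ 3 : ℤ) : Eis))) := by
  obtain ⟨c1, c2, -, -⟩ := consts hb hS
  have c3 : q ^ 3 - x * q' ^ 3 ≠ 0 := by
    intro h
    apply c2
    linear_combination -h
  have e1 : ∀ u v : ℤ, (u : Eis) + t * r * v = u + t * (r * v) := fun u v => by ring
  have e2 : ∀ u v : ℤ, (u : Eis) - t * z * v = u - t * (z * v) := fun u v => by ring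
  refine ⟨⟨?_, ?_⟩, ?_, ?_⟩
  · rw [e1]
    refine V_le (c' := (p : Eis) ^ 3 + (r * q) ^ 3) hπ (cast_ne hS.n1) hN1 ?_ (dvd_add3 ht)
    have e3 : (p : Eis) ^ 3 + (r * q) ^ 3 - ((p ^ 3 + b * q ^ 3 : ℤ) : Eis) =
        (r ^ 3 - b) * q ^ 3 := by
      push_cast
      ring
    rw [e3]
    exact Dvd.dvd.mul_right hr _
  · rw [e1]
    refine V_le (c' := (p' : Eis) ^ 3 + (r * q') ^ 3) hπ (cast_ne c1) hN2 ?_ (dvd_add3 ht)
    have e3 : (p' : Eis) ^ 3 + (r * q') ^ 3 - ((p' ^ 3 + b * q' ^ 3 : ℤ) : Eis) =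
        (r ^ 3 - b) * q' ^ 3 := by
      push_cast
      ring
    rw [e3]
    exact Dvd.dvd.mul_right hr _
  · rw [e2]
    refine V_le (c' := (p : Eis) ^ 3 - (z * p') ^ 3) hπ (cast_ne hS.n2) hN3 ?_ (dvd_sub3 ht)
    have e3 : (p : Eis) ^ 3 - (z * p') ^ 3 - ((p ^ 3 - x * p' ^ 3 : ℤ) : Eis) =
        (z ^ 3 - x) * (-p' ^ 3) := by
      push_cast
      ring
    rw [e3]
    exact Dvd.dvd.mul_right hz _
  · rw [e2]
    refine V_le (c' := (q : Eis) ^ 3 - (z * q') ^ 3) hπ (cast_ne c3) hN4 ?_ (dvd_sub3 ht)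
    have e3 : (q : Eis) ^ 3 - (z * q') ^ 3 - ((q ^ 3 - x * q' ^ 3 : ℤ) : Eis) =
        (z ^ 3 - x) * (-q' ^ 3) := by
      push_cast
      ring
    rw [e3]
    exact Dvd.dvd.mul_right hz _

theorem sum_dvd {π : Eis} {b x p q p' q' : ℤ} (hS : Sol b x p q p' q') {N : ℕ} {r z : Eis}
    (hr : π ^ N ∣ r ^ 3 - (b : Eis)) (hz : π ^ N ∣ z ^ 3 - (x : Eis)) :
    π ^ N ∣ (p : Eis) ^ 3 + (-(z * p')) ^ 3 + (r * q) ^ 3 + (-(z * (r * q'))) ^ 3 := by
  obtain ⟨u, hu⟩ := hr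
  obtain ⟨v, hv⟩ := hz
  have h1 : (p : Eis) ^ 3 + b * q ^ 3 = x * (p' ^ 3 + b * q' ^ 3) := by
    have := congrArg (fun k : ℤ => (k : Eis)) hS.eq
    push_cast at this
    exact this
  refine ⟨u * (q ^ 3 - z ^ 3 * q' ^ 3) - v * (p' ^ 3 + b * q' ^ 3), ?_⟩
  linear_combination ((q : Eis) ^ 3 - z ^ 3 * q' ^ 3) * hu -
    ((p' : Eis) ^ 3 + b * q' ^ 3) * hv + h1

/-- The identity for one cube root `z` of `x`, in the nondegenerate case. -/
theorem core {π : Eis} {s : Eis → Eis → ZMod 3} {e : ℕ} (hs : LSym π s e)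
    (b x p q p' q' : ℤ) (hb : b ≠ 0) (hx : x ≠ 0) (hS : Sol b x p q p' q') :
    ∃ K : ℕ, ∀ (M N : ℕ), K + 3 * M ≤ N → ∀ r z : Eis, π ^ N ∣ r ^ 3 - (b : Eis) →
      π ^ N ∣ z ^ 3 - (x : Eis) →
      ¬ π ^ M ∣ (p + w * (-(z * p')) + w * (r * q) + -(z * (r * q'))) → ∀ B : Eis, B ≠ 0 →
      s (p - w ^ 2 * z * p') B + s (q - w * z * q') B + s (p + w ^ 2 * r * q) B +
        s (p' + w * r * q') B + s (Gf p q p' q' 2) B =
      s (w ^ 2) B + s (p - w * z * p') B + s (q - w ^ 2 * z * q') B + s (p + w * r * q) B +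
        s (p' + w ^ 2 * r * q') B + s (Gf p q p' q' 1) B := by
  have hπ := hs.prime
  have he := hs.pos
  obtain ⟨c1, c2, cG1, cG2⟩ := consts hb hS
  refine ⟨2 * V π (b : Eis) + 2 * V π (x : Eis) + V π ((p ^ 3 + b * q ^ 3 : ℤ) : Eis) +
    V π ((p' ^ 3 + b * q' ^ 3 : ℤ) : Eis) + V π ((p ^ 3 - x * p' ^ 3 : ℤ) : Eis) +
    V π ((q ^ 3 - x * q' ^ 3 : ℤ) : Eis) + V π (Gf p q p' q' 2) + e + 1, ?_⟩
  intro M N hN r z hr hz hE B hB
  obtain ⟨⟨-, vQ1⟩, -, vH1⟩ := forms hπ hb hS (by omega) (by omega) (by omega) (by omega) hr hz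
    w_cube
  obtain ⟨⟨vP2, -⟩, vF2, -⟩ := forms hπ hb hS (by omega) (by omega) (by omega) (by omega) hr hz
    w2_cube
  have vr : r ≠ 0 ∧ V π r ≤ V π (b : Eis) := V_le (c' := r ^ 3) hπ (cast_ne hb)
    (by omega : V π (b : Eis) < N) hr (dvd_pow_self r three_ne_zero)
  have vz : z ≠ 0 ∧ V π z ≤ V π (x : Eis) := V_le (c' := z ^ 3) hπ (cast_ne hx)
    (by omega : V π (x : Eis) < N) hz (dvd_pow_self z three_ne_zero)
  obtain ⟨E1, hE1⟩ : ∃ E1 : Eis, E1 = p + w * (-(z * p')) + w * (r * q) + -(z * (r * q')) :=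
    ⟨_, rfl⟩
  obtain ⟨E2, hE2⟩ : ∃ E2 : Eis,
      E2 = p + w ^ 2 * (-(z * p')) + w ^ 2 * (r * q) + -(z * (r * q')) := ⟨_, rfl⟩
  rw [← hE1] at hE
  have hE0 : E1 ≠ 0 := by
    rintro h
    rw [h] at hE
    exact hE (dvd_zero _)
  have hEV : V π E1 < M := by
    by_contra hcon
    exact hE (dvd_V (not_lt.mp hcon))
  have hkey := (sum_dvd hS hr hz).trans
    (key w_rel (p : Eis) (-(z * p')) (r * q) (-(z * (r * q'))))
  rw [← hE1, ← hE2] at hkey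
  obtain ⟨F2, hF2⟩ : ∃ F2 : Eis, F2 = p - w ^ 2 * z * p' := ⟨_, rfl⟩
  obtain ⟨H1, hH1⟩ : ∃ H1 : Eis, H1 = q - w * z * q' := ⟨_, rfl⟩
  obtain ⟨P2, hP2⟩ : ∃ P2 : Eis, P2 = p + w ^ 2 * r * q := ⟨_, rfl⟩
  obtain ⟨Q1, hQ1⟩ : ∃ Q1 : Eis, Q1 = p' + w * r * q' := ⟨_, rfl⟩
  obtain ⟨F1, hF1⟩ : ∃ F1 : Eis, F1 = p - w * z * p' := ⟨_, rfl⟩
  obtain ⟨H2, hH2⟩ : ∃ H2 : Eis, H2 = q - w ^ 2 * z * q' := ⟨_, rfl⟩
  obtain ⟨P1, hP1⟩ : ∃ P1 : Eis, P1 = p + w * r * q := ⟨_, rfl⟩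
  obtain ⟨Q2, hQ2⟩ : ∃ Q2 : Eis, Q2 = p' + w ^ 2 * r * q' := ⟨_, rfl⟩
  obtain ⟨G1, hG1⟩ : ∃ G1 : Eis, G1 = Gf p q p' q' 1 := ⟨_, rfl⟩
  obtain ⟨G2, hG2⟩ : ∃ G2 : Eis, G2 = Gf p q p' q' 2 := ⟨_, rfl⟩
  have eL : ((p : Eis) + w ^ 2 * (-(z * p'))) * (r * q + w * (-(z * (r * q')))) *
      (((p : Eis) + w ^ 2 * (r * q)) * (-(z * p') + w * (-(z * (r * q'))))) *
      (-(z * p') * (r * q) - w ^ 2 * ((p : Eis) * (-(z * (r * q'))))) * E1 ^ 3 =
      F2 * (r * H1) * (P2 * (-(z * Q1))) * (-(z * (r * G2))) * E1 ^ 3 := by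
    rw [hF2, hH1, hP2, hQ1, hG2]
    unfold Gf
    ring
  have eR : w ^ 2 * (((p : Eis) + w * (-(z * p'))) * (r * q + w ^ 2 * (-(z * (r * q')))) *
      (((p : Eis) + w * (r * q)) * (-(z * p') + w ^ 2 * (-(z * (r * q'))))) *
      (-(z * p') * (r * q) - w * ((p : Eis) * (-(z * (r * q'))))) * E2 ^ 3) =
      w ^ 2 * (F1 * (r * H2) * (P1 * (-(z * Q2))) * (-(z * (r * G1))) * E2 ^ 3) := by
    rw [hF1, hH2, hP1, hQ2, hG1]
    unfold Gf
    ring
  rw [eL, eR] at hkey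
  rw [← hF2, ← hH1, ← hP2, ← hQ1, ← hF1, ← hH2, ← hP1, ← hQ2, ← hG1, ← hG2]
  rw [← hF2] at vF2
  rw [← hH1] at vH1
  rw [← hP2] at vP2
  rw [← hQ1] at vQ1
  rw [← hG2] at hN cG2
  obtain ⟨hr0, hrV⟩ := vr
  obtain ⟨hz0, hzV⟩ := vz
  obtain ⟨hF0, hFV⟩ := vF2
  obtain ⟨hH0, hHV⟩ := vH1
  obtain ⟨hP0, hPV⟩ := vP2
  obtain ⟨hQ0, hQV⟩ := vQ1
  have n1 := mul_ne_zero hr0 hH0
  have n2 := mul_ne_zero hF0 n1
  have n3 := mul_ne_zero hz0 hQ0
  have n3' := neg_ne_zero.mpr n3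
  have n4 := mul_ne_zero hP0 n3'
  have n5 := mul_ne_zero n2 n4
  have n6 := mul_ne_zero hr0 cG2
  have n7 := mul_ne_zero hz0 n6
  have n7' := neg_ne_zero.mpr n7
  have n8 := mul_ne_zero n5 n7'
  have n9 := pow_ne_zero 3 hE0
  have n10 := mul_ne_zero n8 n9
  obtain ⟨L, hL⟩ : ∃ L : Eis, L = F2 * (r * H1) * (P2 * (-(z * Q1))) * (-(z * (r * G2))) *
      E1 ^ 3 := ⟨_, rfl⟩
  have hLV : V π L + e ≤ N := by
    rw [hL, V_mul hπ n8 n9, V_mul hπ n5 n7', V_mul hπ n2 n4, V_mul hπ hF0 n1, V_mul hπ hr0 hH0,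
      V_mul hπ hP0 n3', V_neg, V_mul hπ hz0 hQ0, V_neg, V_mul hπ hz0 n6, V_mul hπ hr0 cG2,
      V_pow hπ hE0]
    omega
  rw [← hL] at hkey n10
  obtain ⟨R, hR⟩ : ∃ R : Eis, R = w ^ 2 * (F1 * (r * H2) * (P1 * (-(z * Q2))) *
      (-(z * (r * G1))) * E2 ^ 3) := ⟨_, rfl⟩
  rw [← hR] at hkey
  have hd : π ^ (V π L + e) ∣ R - L := (pow_dvd_pow π hLV).trans hkey
  have hR0 : R ≠ 0 := (V_le hπ n10 (by omega) hd (dvd_refl R)).1
  have hcont := hs.cont L R B n10 hB hd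
  rw [hR] at hR0
  have m1 := right_ne_zero_of_mul hR0
  have m0 := left_ne_zero_of_mul hR0
  have m2 := right_ne_zero_of_mul m1
  have m3 := left_ne_zero_of_mul m1
  have m4 := right_ne_zero_of_mul m3
  have m5 := left_ne_zero_of_mul m3
  have m6 := right_ne_zero_of_mul m5
  have m7 := left_ne_zero_of_mul m5
  have m8 := right_ne_zero_of_mul m7
  have m9 := left_ne_zero_of_mul m7
  have m10 := right_ne_zero_of_mul m8
  have m11 := left_ne_zero_of_mul m6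
  have m12 := right_ne_zero_of_mul m6
  have m13 := neg_ne_zero.mp m12
  have m14 := right_ne_zero_of_mul m13
  have m15 := neg_ne_zero.mp m4
  have m16 := right_ne_zero_of_mul m15
  have m17 := right_ne_zero_of_mul m16
  have hE20 : E2 ≠ 0 := by
    intro h
    rw [h] at m2
    exact m2 (zero_pow three_ne_zero)
  have hsL : s L B = s F2 B + (s r B + s H1 B) + (s P2 B + (s z B + s Q1 B)) +
      (s z B + (s r B + s G2 B)) := by
    rw [hL, hs.mul _ _ _ n8 n9 hB, hs.mul _ _ _ n5 n7' hB, hs.mul _ _ _ n2 n4 hB,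
      hs.mul _ _ _ hF0 n1 hB, hs.mul _ _ _ hr0 hH0 hB, hs.mul _ _ _ hP0 n3' hB,
      s_neg hs hB n3, hs.mul _ _ _ hz0 hQ0 hB, s_neg hs hB n7, hs.mul _ _ _ hz0 n6 hB,
      hs.mul _ _ _ hr0 cG2 hB, s_cube hs hB hE0, add_zero]
  have hsR : s R B = s (w ^ 2) B + (s F1 B + (s r B + s H2 B) + (s P1 B + (s z B + s Q2 B)) +
      (s z B + (s r B + s G1 B))) := by
    rw [hR, hs.mul _ _ _ m0 m1 hB, hs.mul _ _ _ m3 m2 hB, hs.mul _ _ _ m5 m4 hB,
      hs.mul _ _ _ m7 m6 hB, hs.mul _ _ _ m9 m8 hB, hs.mul _ _ _ hr0 m10 hB,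
      hs.mul _ _ _ m11 m12 hB, s_neg hs hB m13, hs.mul _ _ _ hz0 m14 hB, s_neg hs hB m15,
      hs.mul _ _ _ hz0 m16 hB, hs.mul _ _ _ hr0 m17 hB, s_cube hs hB hE20, add_zero]
  rw [hsL, hsR] at hcont
  linear_combination -hcont

theorem w_sub_ne : (w - 1 : Eis) ≠ 0 := by
  intro h
  have := congrArg Eis.im h
  simp at this

/-- Both roots `z`, `w z` cannot be degenerate. -/
theorem not_both {π : Eis} (hπ : Prime π)
    (b x p q p' q' : ℤ) (hb : b ≠ 0) (hx : x ≠ 0) (hS : Sol b x p q p' q') :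
    ∃ M0 : ℕ, ∀ N : ℕ, M0 ≤ N → ∀ r z : Eis, π ^ N ∣ r ^ 3 - (b : Eis) →
      π ^ N ∣ z ^ 3 - (x : Eis) →
      π ^ M0 ∣ (p + w * (-(z * p')) + w * (r * q) + -(z * (r * q'))) →
      π ^ M0 ∣ (p + w * (-((w * z) * p')) + w * (r * q) + -((w * z) * (r * q'))) → False := by
  obtain ⟨c1, c2, cG1, cG2⟩ := consts hb hS
  have h30 : (3 : Eis) ≠ 0 := by
    have h := cast_ne (n := 3) (by norm_num)
    rwa [Int.cast_ofNat] at h
  refine ⟨(V π (3 : Eis) + V π (x : Eis) + V π (b : Eis) + V π (Gf p q p' q' 1)) +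
    (V π (w - 1 : Eis) + V π (x : Eis) + V π (b : Eis) + V π (p' : Eis) + V π (q' : Eis) + 1),
    ?_⟩
  intro N hN r z hr hz h1 h2
  obtain ⟨hr0, hrV⟩ : r ≠ 0 ∧ V π r ≤ V π (b : Eis) := V_le (c' := r ^ 3) hπ (cast_ne hb)
    (by omega : V π (b : Eis) < N) hr (dvd_pow_self r three_ne_zero)
  obtain ⟨hz0, hzV⟩ : z ≠ 0 ∧ V π z ≤ V π (x : Eis) := V_le (c' := z ^ 3) hπ (cast_ne hx)
    (by omega : V π (x : Eis) < N) hz (dvd_pow_self z three_ne_zero)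
  have hw0 : (w : Eis) ≠ 0 := w_ne
  have hVw : V π (w : Eis) = 0 := by
    apply V_eq_zero
    intro h
    have h3 : π ∣ 1 := by
      rw [← w_cube]
      exact h.trans (dvd_pow_self w three_ne_zero)
    exact hπ.not_isUnit (isUnit_of_dvd_one h3)
  have hwz : π ^ N ∣ (w * z) ^ 3 - (x : Eis) := by
    have e1 : (w * z) ^ 3 = z ^ 3 := by
      rw [mul_pow, w_cube, one_mul]
    rw [e1]
    exact hz
  -- one degenerate root
  have key1 : ∀ y : Eis, y ≠ 0 → V π y ≤ V π (x : Eis) → π ^ N ∣ y ^ 3 - (x : Eis) →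
      ∀ M : ℕ, M ≤ N → π ^ M ∣ (p + w * (-(y * p')) + w * (r * q) + -(y * (r * q'))) →
      π ^ (M - (V π (3 : Eis) + V π (x : Eis) + V π (b : Eis) + V π (Gf p q p' q' 1))) ∣
        (-(y * p') + r * q) ∧
      π ^ (M - (V π (3 : Eis) + V π (x : Eis) + V π (b : Eis) + V π (Gf p q p' q' 1))) ∣
        ((p : Eis) - y * (r * q')) := by
    intro y hy hyV hyx M hM hE
    have e1 := degen w_cube (p : Eis) (-(y * p')) (r * q) (-(y * (r * q')))
    have e2 : π ^ M ∣ 3 * (-(y * p') + r * q) *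
        (-(y * p') * (r * q) - w * ((p : Eis) * (-(y * (r * q'))))) := by
      rw [e1]
      exact dvd_sub (Dvd.dvd.mul_right hE _) ((pow_dvd_pow π hM).trans (sum_dvd hS hr hyx))
    have e3 : 3 * (-(y * p') + r * q) *
        (-(y * p') * (r * q) - w * ((p : Eis) * (-(y * (r * q'))))) =
        (-(3 * (y * (r * Gf p q p' q' 1)))) * (-(y * p') + r * q) := by
      unfold Gf
      ring
    rw [e3] at e2
    have f1 := mul_ne_zero hr0 cG1
    have f2 := mul_ne_zero hy f1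
    have f3 := mul_ne_zero h30 f2
    have e4 := dvd_cancel hπ (neg_ne_zero.mpr f3) (K := V π (3 : Eis) + V π (x : Eis) +
      V π (b : Eis) + V π (Gf p q p' q' 1)) (by
        rw [V_neg, V_mul hπ h30 f2, V_mul hπ hy f1, V_mul hπ hr0 cG1]
        omega) e2
    refine ⟨e4, ?_⟩
    have e5 : (p : Eis) - y * (r * q') =
        (p + w * (-(y * p')) + w * (r * q) + -(y * (r * q'))) -
          w * (-(y * p') + r * q) := by ring
    rw [e5]
    exact dvd_sub ((pow_dvd_pow π (by omega)).trans hE) (Dvd.dvd.mul_left e4 _)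
  obtain ⟨a1, a2⟩ := key1 z hz0 hzV hz _ hN h1
  obtain ⟨a3, a4⟩ := key1 (w * z) (mul_ne_zero hw0 hz0)
    (by rw [V_mul hπ hw0 hz0, hVw, zero_add]; exact hzV) hwz _ hN h2
  rw [Nat.add_sub_cancel_left] at a1 a2 a3 a4
  have b1 : π ^ (V π (w - 1 : Eis) + V π (x : Eis) + V π (b : Eis) + V π (p' : Eis) +
      V π (q' : Eis) + 1) ∣ (w - 1) * (z * p') := by
    have := dvd_sub a1 a3
    have e1 : -(z * (p' : Eis)) + r * q - (-(w * z * p') + r * q) = (w - 1) * (z * p') := by ring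
    rwa [e1] at this
  have b2 : π ^ (V π (w - 1 : Eis) + V π (x : Eis) + V π (b : Eis) + V π (p' : Eis) +
      V π (q' : Eis) + 1) ∣ (w - 1) * (z * (r * q')) := by
    have := dvd_sub a2 a4
    have e1 : (p : Eis) - z * (r * q') - (p - w * z * (r * q')) = (w - 1) * (z * (r * q')) := by
      ring
    rwa [e1] at this
  by_cases hp : p' = 0
  · have hq : q' ≠ 0 := by
      rintro rfl
      apply c1
      rw [hp]
      ring
    have hqE := cast_ne hq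
    have f1 := mul_ne_zero hr0 hqE
    have f2 := mul_ne_zero hz0 f1
    have h3 := le_V hπ (mul_ne_zero w_sub_ne f2) b2
    rw [V_mul hπ w_sub_ne f2, V_mul hπ hz0 f1, V_mul hπ hr0 hqE] at h3
    omega
  · have hpE := cast_ne hp
    have f2 := mul_ne_zero hz0 hpE
    have h3 := le_V hπ (mul_ne_zero w_sub_ne f2) b1
    rw [V_mul hπ w_sub_ne f2, V_mul hπ hz0 hpE] at h3
    omega

end IF1

open _root_.Pool.Agent.PT.IF1 in
/-- IF1: `α_b α_x = w⁻¹ k_0` modulo cubes. -/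
theorem IF1_thm : IF1 := by
  intro π s e hs b x p q p' q' hb hx hS
  have hπ := hs.prime
  have he := hs.pos
  obtain ⟨c1, c2, cG1, cG2⟩ := consts hb hS
  obtain ⟨K, hK⟩ := core hs b x p q p' q' hb hx hS
  obtain ⟨M0, hM0⟩ := not_both hπ b x p q p' q' hb hx hS
  refine ⟨K + 3 * M0 + M0 + V π (b : Eis) + V π ((p ^ 3 + b * q ^ 3 : ℤ) : Eis) +
    V π ((p' ^ 3 + b * q' ^ 3 : ℤ) : Eis) + V π ((p ^ 3 - x * p' ^ 3 : ℤ) : Eis) +
    V π ((q ^ 3 - x * q' ^ 3 : ℤ) : Eis) + e + 1, ?_⟩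
  intro r ξ hr hξ B hB
  obtain ⟨N, hN⟩ : ∃ N : ℕ, N = K + 3 * M0 + M0 + V π (b : Eis) +
    V π ((p ^ 3 + b * q ^ 3 : ℤ) : Eis) +
    V π ((p' ^ 3 + b * q' ^ 3 : ℤ) : Eis) + V π ((p ^ 3 - x * p' ^ 3 : ℤ) : Eis) +
    V π ((q ^ 3 - x * q' ^ 3 : ℤ) : Eis) + e + 1 := ⟨_, rfl⟩
  rw [← hN] at hr hξ
  have hw1 := w_cube
  have forms1 := fun (t : Eis) (ht : t ^ 3 = 1) => forms hπ hb hS (N := N) (by omega) (by omega)
    (by omega) (by omega) hr hξ ht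
  obtain ⟨⟨⟨nP0, -⟩, nQ0, -⟩, ⟨nF0, -⟩, nH0, -⟩ := forms1 1 (one_pow 3)
  obtain ⟨⟨⟨nP1, -⟩, nQ1, -⟩, ⟨nF1, -⟩, nH1, -⟩ := forms1 w w_cube
  obtain ⟨⟨⟨nP2, -⟩, nQ2, -⟩, ⟨nF2, -⟩, nH2, -⟩ := forms1 (w ^ 2) w2_cube
  -- the main equation
  have hmain : s (p - w ^ 2 * ξ * p') B + s (q - w * ξ * q') B + s (p + w ^ 2 * r * q) B +
        s (p' + w * r * q') B + s (Gf p q p' q' 2) B =
      s (w ^ 2) B + s (p - w * ξ * p') B + s (q - w ^ 2 * ξ * q') B + s (p + w * r * q) B +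
        s (p' + w ^ 2 * r * q') B + s (Gf p q p' q' 1) B := by
    by_cases h1 : π ^ M0 ∣ ((p : Eis) + w * (-((ξ : Eis) * p')) + w * ((r : Eis) * q) +
        -((ξ : Eis) * (r * q')))
    swap
    · exact hK M0 N (by omega) r ξ hr hξ h1 B hB
    by_cases h2 : π ^ M0 ∣ ((p : Eis) + w * (-((w * (ξ : Eis)) * p')) + w * ((r : Eis) * q) +
        -((w * (ξ : Eis)) * (r * q')))
    · exact absurd (hM0 N (by omega) r ξ hr hξ h1 h2) id
    have hwz : π ^ N ∣ (w * (ξ : Eis)) ^ 3 - (x : Eis) := by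
      have e1 : (w * (ξ : Eis)) ^ 3 = (ξ : Eis) ^ 3 := by
        rw [mul_pow, w_cube, one_mul]
      rw [e1]
      exact hξ
    have h3 := hK M0 N (by omega) r (w * ξ) hr hwz h2 B hB
    have e1 : (p : Eis) - w ^ 2 * (w * ξ) * p' = p - 1 * ξ * p' := by
      linear_combination (-(ξ : Eis) * p') * hw1
    have e2 : (q : Eis) - w * (w * ξ) * q' = q - w ^ 2 * ξ * q' := by ring
    have e3 : (p : Eis) - w * (w * ξ) * p' = p - w ^ 2 * ξ * p' := by ring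
    have e4 : (q : Eis) - w ^ 2 * (w * ξ) * q' = q - 1 * ξ * q' := by
      linear_combination (-(ξ : Eis) * q') * hw1
    rw [e1, e2, e3, e4] at h3
    -- the sums
    have hrel := w_rel
    have g1 : s (p - 1 * ξ * p') B + s (p - w * ξ * p') B + s (p - w ^ 2 * ξ * p') B =
        s ((p ^ 3 - x * p' ^ 3 : ℤ) : Eis) B := by
      rw [← hs.mul _ _ _ nF0 nF1 hB, ← hs.mul _ _ _ (mul_ne_zero nF0 nF1) nF2 hB]
      apply hs.cont _ _ _ (cast_ne hS.n2) hB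
      have e5 : ((p : Eis) - 1 * ξ * p') * (p - w * ξ * p') * (p - w ^ 2 * ξ * p') -
          ((p ^ 3 - x * p' ^ 3 : ℤ) : Eis) = ((ξ : Eis) ^ 3 - x) * (-p' ^ 3) := by
        push_cast
        linear_combination (-(p : Eis) ^ 2 * (ξ * p') + w * p * (ξ * p') ^ 2 -
          (w - 1) * ((ξ : Eis) * p') ^ 3) * hrel
      rw [e5]
      exact Dvd.dvd.mul_right ((pow_dvd_pow π (by omega)).trans hξ) _
    have c3 : q ^ 3 - x * q' ^ 3 ≠ 0 := by
      intro h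
      apply c2
      linear_combination -h
    have g2 : s (q - 1 * ξ * q') B + s (q - w * ξ * q') B + s (q - w ^ 2 * ξ * q') B =
        s ((q ^ 3 - x * q' ^ 3 : ℤ) : Eis) B := by
      rw [← hs.mul _ _ _ nH0 nH1 hB, ← hs.mul _ _ _ (mul_ne_zero nH0 nH1) nH2 hB]
      apply hs.cont _ _ _ (cast_ne c3) hB
      have e5 : ((q : Eis) - 1 * ξ * q') * (q - w * ξ * q') * (q - w ^ 2 * ξ * q') -
          ((q ^ 3 - x * q' ^ 3 : ℤ) : Eis) = ((ξ : Eis) ^ 3 - x) * (-q' ^ 3) := by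
        push_cast
        linear_combination (-(q : Eis) ^ 2 * (ξ * q') + w * q * (ξ * q') ^ 2 -
          (w - 1) * ((ξ : Eis) * q') ^ 3) * hrel
      rw [e5]
      exact Dvd.dvd.mul_right ((pow_dvd_pow π (by omega)).trans hξ) _
    have g3 : s ((p ^ 3 - x * p' ^ 3 : ℤ) : Eis) B = s ((q ^ 3 - x * q' ^ 3 : ℤ) : Eis) B := by
      have e5 : ((p ^ 3 - x * p' ^ 3 : ℤ) : Eis) = -((b : Eis) *
          ((q ^ 3 - x * q' ^ 3 : ℤ) : Eis)) := by
        have e6 : (p ^ 3 - x * p' ^ 3 : ℤ) = -(b * (q ^ 3 - x * q' ^ 3)) := by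
          have h6 := hS.eq
          linear_combination h6
        rw [e6]
        push_cast
        ring
      have hbE := cast_ne hb
      have hcE := cast_ne c3
      rw [e5, s_neg hs hB (mul_ne_zero hbE hcE), hs.mul _ _ _ hbE hcE hB]
      have e7 : s (b : Eis) B = 0 := by
        have hr0 : (r : Eis) ≠ 0 := (V_le (c' := (r : Eis) ^ 3) hπ hbE
          (by omega : V π (b : Eis) < N) hr (dvd_pow_self (r : Eis) three_ne_zero)).1
        rw [← hs.cont (b : Eis) ((r : Eis) ^ 3) B hbE hB ((pow_dvd_pow π (by omega)).trans hr),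
          s_cube hs hB hr0]
      rw [e7, zero_add]
    have t1 := three_mul_eq (s ((p : Eis) - w ^ 2 * ξ * p') B)
    have t2 := three_mul_eq (s ((q : Eis) - w ^ 2 * ξ * q') B)
    linear_combination h3 + t1 - t2 - g1 + g2 - g3
  -- conclusion
  have f1 : Lf p q 2 r = p + w ^ 2 * r * q := by
    unfold Lf
    ring
  have f2 : Lf p' q' 1 r = p' + w * r * q' := by
    unfold Lf
    ring
  have f3 : Lf p q 1 r = p + w * r * q := by
    unfold Lf
    ring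
  have f4 : Lf p' q' 2 r = p' + w ^ 2 * r * q' := by
    unfold Lf
    ring
  have f5 : Lf p (-p') 2 ξ = p - w ^ 2 * ξ * p' := by
    unfold Lf
    push_cast
    ring
  have f6 : Lf (-q) q' 1 ξ = -(q - w * ξ * q') := by
    unfold Lf
    push_cast
    ring
  have f7 : Lf p (-p') 1 ξ = p - w * ξ * p' := by
    unfold Lf
    push_cast
    ring
  have f8 : Lf (-q) q' 2 ξ = -(q - w ^ 2 * ξ * q') := by
    unfold Lf
    push_cast
    ring
  unfold AS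
  rw [f1, f2, f3, f4, f5, f6, f7, f8, hs.skew _ _ nP2 hB, hs.skew _ _ nQ1 hB,
    hs.skew _ _ nP1 hB, hs.skew _ _ nQ2 hB, hs.skew _ _ nF2 hB,
    hs.skew _ _ (neg_ne_zero.mpr nH1) hB, hs.skew _ _ nF1 hB,
    hs.skew _ _ (neg_ne_zero.mpr nH2) hB, s_neg hs hB nH1, s_neg hs hB nH2,
    hs.skew _ _ cG1 hB, hs.skew _ _ cG2 hB]
  have hw2 : s (w ^ 2) B = s w B + s w B := by
    rw [pow_two, hs.mul _ _ _ w_ne w_ne hB]
  rw [hw2] at hmain
  have t3 := three_mul_eq (s w B)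
  linear_combination -hmain - t3

end Pool.Agent.PT


end

section

/-!
# LCI: rational local cubes
-/

namespace Pool.Agent.PT

open Pool.Agent.Lib_helper18 Pool.Agent.Lib_helper18.Eis Pool.Agent.Lib_helper84.Cub

namespace LCI

/-! ### The unit part -/

theorem up_eq {π a c : Eis} {k : ℕ} (hπ : Prime π) (hc : ¬ π ∣ c) (ha : a = π ^ k * c) :
    V π a = k ∧ up π a = c := by
  have h1 : V π a = k := by rw [ha]; exact V_pow_mul hπ k hc
  refine ⟨h1, ?_⟩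
  unfold up
  rw [h1, ha]
  exact mul_div_cancel_left₀ c (pow_ne_zero _ hπ.ne_zero)

theorem up_spec {π a : Eis} (hπ : Prime π) (ha : a ≠ 0) :
    a = π ^ V π a * up π a ∧ ¬ π ∣ up π a := by
  obtain ⟨c, hc, hd⟩ := V_split hπ ha
  have h1 := (up_eq hπ hd hc).2
  rw [h1]
  exact ⟨hc, hd⟩

theorem ch_mul {π a b : Eis} (hπ : Prime π) (h3 : ¬ π ∣ 3) (ha : a ≠ 0) (hb : b ≠ 0) :
    ch π (a * b) = ch π a + ch π b := by
  obtain ⟨h1, h2⟩ := up_spec hπ ha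
  obtain ⟨h3', h4⟩ := up_spec hπ hb
  have h5 : a * b = π ^ (V π a + V π b) * (up π a * up π b) := by
    conv_lhs => rw [h1, h3']
    ring
  have h6 : ¬ π ∣ up π a * up π b := fun h => (hπ.dvd_or_dvd h).elim h2 h4
  have h7 := (up_eq hπ h6 h5).2
  unfold ch
  rw [h7, sym_mul hπ h3 h2 h4]

theorem ch_unit {π a : Eis} (hπ : Prime π) (ha : ¬ π ∣ a) : ch π a = sym π a := by
  have h := (up_eq (k := 0) hπ ha (by rw [pow_zero, one_mul] : a = π ^ 0 * a)).2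
  unfold ch
  rw [h]

theorem ch_pow {π a : Eis} (hπ : Prime π) (h3 : ¬ π ∣ 3) (ha : a ≠ 0) (n : ℕ) :
    ch π (a ^ n) = n * ch π a := by
  induction n with
  | zero =>
    rw [pow_zero, ch_unit hπ (fun h => hπ.not_isUnit (isUnit_of_dvd_one h)), sym_one hπ h3]
    simp
  | succ n ih =>
    rw [pow_succ, ch_mul hπ h3 (pow_ne_zero _ ha) ha, ih]
    push_cast
    ring

theorem three_mul_zmod {n : ℕ} (h : 3 ∣ n) : (n : ZMod 3) = 0 :=
  (ZMod.natCast_eq_zero_iff n 3).2 h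

theorem cont {π a a' : Eis} (hπ : Prime π) (ha : a ≠ 0) (h : π ^ (V π a + 1) ∣ a' - a) :
    V π a' = V π a ∧ ch π a' = ch π a := by
  obtain ⟨h1, h2⟩ := up_spec hπ ha
  obtain ⟨d, hd⟩ := h
  have h3 : a' = π ^ V π a * (up π a + π * d) := by
    have : a' = a + π ^ (V π a + 1) * d := by rw [← hd]; ring
    rw [this]
    conv_lhs => rw [h1]
    have h4 : V π (π ^ V π a * up π a) = V π a := by rw [← h1]
    rw [h4]
    ring
  have h4 : ¬ π ∣ up π a + π * d := fun h => h2 ((dvd_add_left (dvd_mul_right π d)).1 h)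
  obtain ⟨h5, h6⟩ := up_eq hπ h4 h3
  refine ⟨h5, ?_⟩
  unfold ch
  rw [h6]
  refine sym_congr ⟨d, ?_⟩
  ring

theorem root_ne_zero {π : Eis} (hπ : Prime π) {b : Eis} (hb : b ≠ 0) {r : Eis} {e : ℕ}
    (he : 1 ≤ e) (h : π ^ (V π b + e) ∣ r ^ 3 - b) : r ≠ 0 := by
  rintro rfl
  obtain ⟨h1, h2⟩ := up_spec hπ hb
  have h3 : π ^ (V π b + e) ∣ b := by
    have h4 : (0 : Eis) ^ 3 - b = -b := by ring
    rw [h4] at h
    exact (dvd_neg).1 h
  have h4 : π ^ (V π b + 1) ∣ b := (pow_dvd_pow π (by omega)).trans h3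
  rw [pow_succ] at h4
  have h5 : π ^ V π b * π ∣ π ^ V π b * up π b := by rw [← h1]; exact h4
  exact h2 ((mul_dvd_mul_iff_left (pow_ne_zero _ hπ.ne_zero)).1 h5)

/-! ### Rational integers -/

theorem hensel {p : ℕ} (hp : p.Prime) (h3 : ¬ (p : ℤ) ∣ 3) {b r0 : ℤ} (hb : ¬ (p : ℤ) ∣ b)
    (h : (p : ℤ) ∣ r0 ^ 3 - b) : ∀ N : ℕ, ∃ r : ℤ, (p : ℤ) ^ (N + 1) ∣ r ^ 3 - b := by
  intro N
  induction N with
  | zero => exact ⟨r0, by rw [zero_add, pow_one]; exact h⟩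
  | succ N ih =>
    obtain ⟨r, c, hc⟩ := ih
    have hpi : Prime (p : ℤ) := Nat.prime_iff_prime_int.1 hp
    have hr : ¬ (p : ℤ) ∣ r := by
      intro hr
      apply hb
      have h1 : (p : ℤ) ∣ r ^ 3 - b := (dvd_pow_self _ (Nat.succ_ne_zero N)).trans ⟨c, hc⟩
      have h2 : (p : ℤ) ∣ r ^ 3 := dvd_pow hr (by norm_num)
      have h4 := dvd_sub h2 h1
      have h5 : r ^ 3 - (r ^ 3 - b) = b := by ring
      rwa [h5] at h4
    have hcop : IsCoprime (p : ℤ) (3 * r ^ 2) := by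
      refine (Irreducible.coprime_iff_not_dvd hpi.irreducible).2 ?_
      intro h4
      rcases hpi.dvd_or_dvd h4 with h5 | h5
      · exact h3 h5
      · exact hr (hpi.dvd_of_dvd_pow h5)
    obtain ⟨u, v, huv⟩ := hcop
    refine ⟨r + (p : ℤ) ^ (N + 1) * (-c * v),
      c * u + 3 * r * (p : ℤ) ^ N * (-c * v) ^ 2 + ((p : ℤ) ^ N) ^ 2 * p * (-c * v) ^ 3, ?_⟩
    rw [pow_succ (p : ℤ) N] at hc
    rw [pow_succ (p : ℤ) (N + 1), pow_succ (p : ℤ) N]
    generalize (p : ℤ) ^ N = P at *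
    linear_combination hc + (-(P * p * c)) * huv

theorem hensel3 {b : ℤ} (h : C9 b) : ∀ N : ℕ, ∃ r : ℤ, (3 : ℤ) ^ (N + 2) ∣ r ^ 3 - b := by
  intro N
  have hb : b % 9 = 1 ∨ b % 9 = 8 := h
  induction N with
  | zero =>
    have e : (3 : ℤ) ^ (0 + 2) = 9 := by norm_num
    rw [e]
    rcases hb with h1 | h1
    · exact ⟨1, by omega⟩
    · exact ⟨-1, by
        have e2 : (-1 : ℤ) ^ 3 = -1 := by norm_num
        rw [e2]
        omega⟩
  | succ N ih =>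
    obtain ⟨r, c, hc⟩ := ih
    have hr : ¬ (3 : ℤ) ∣ r := by
      intro hr
      have h1 : (3 : ℤ) ∣ r ^ 3 - b := (dvd_pow_self _ (by omega)).trans ⟨c, hc⟩
      have h2 : (3 : ℤ) ∣ r ^ 3 := dvd_pow hr (by norm_num)
      have h4 := dvd_sub h2 h1
      have h5 : r ^ 3 - (r ^ 3 - b) = b := by ring
      rw [h5] at h4
      omega
    obtain ⟨k, hk⟩ : ∃ k : ℤ, r ^ 2 = 1 + 3 * k := by
      have h1 : r % 3 = 1 ∨ r % 3 = 2 := by omega
      rcases h1 with h1 | h1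
      · obtain ⟨t, ht⟩ : ∃ t, r = 3 * t + 1 := ⟨r / 3, by omega⟩
        exact ⟨3 * t ^ 2 + 2 * t, by rw [ht]; ring⟩
      · obtain ⟨t, ht⟩ : ∃ t, r = 3 * t + 2 := ⟨r / 3, by omega⟩
        exact ⟨3 * t ^ 2 + 4 * t + 1, by rw [ht]; ring⟩
    refine ⟨r - (3 : ℤ) ^ (N + 1) * c,
      -c * k + (3 : ℤ) ^ N * r * c ^ 2 - ((3 : ℤ) ^ N) ^ 2 * c ^ 3, ?_⟩
    have e1 : (3 : ℤ) ^ (N + 2) = (3 : ℤ) ^ N * 9 := by rw [pow_add]; norm_num
    have e2 : (3 : ℤ) ^ (N + 1 + 2) = (3 : ℤ) ^ N * 27 := by rw [pow_add, pow_succ]; ring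
    rw [e1] at hc
    rw [e2, pow_succ (3 : ℤ) N]
    generalize (3 : ℤ) ^ N = P at *
    linear_combination hc + (-(9 * P * c)) * hk

theorem cube_of_pow {p : ℕ} (hp : p.Prime) (h1 : p % 3 = 1) {m : ℤ} (hm : ¬ (p : ℤ) ∣ m)
    (h : (p : ℤ) ∣ m ^ ((p - 1) / 3) - 1) : ∃ r : ℤ, (p : ℤ) ∣ r ^ 3 - m := by
  have : Fact p.Prime := ⟨hp⟩
  have hm0 : (m : ZMod p) ≠ 0 := by
    intro h
    exact hm ((ZMod.intCast_zmod_eq_zero_iff_dvd m p).1 h)
  have h2 : (m : ZMod p) ^ ((p - 1) / 3) = 1 := by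
    have h3 := (ZMod.intCast_zmod_eq_zero_iff_dvd _ p).2 h
    push_cast at h3
    exact sub_eq_zero.1 h3
  obtain ⟨g, hg⟩ := IsCyclic.exists_generator (α := (ZMod p)ˣ)
  obtain ⟨u, hu⟩ : ∃ u : (ZMod p)ˣ, (u : ZMod p) = m := ⟨Units.mk0 _ hm0, rfl⟩
  obtain ⟨k, hk⟩ := (Subgroup.mem_zpowers_iff).1 (hg u)
  have hu1 : u ^ ((p - 1) / 3) = 1 := by
    apply Units.ext
    rw [Units.val_pow_eq_pow_val, hu, h2, Units.val_one]
  have ho : orderOf g = p - 1 := by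
    rw [orderOf_eq_card_of_forall_mem_zpowers hg, Nat.card_eq_fintype_card,
      ZMod.card_units_eq_totient, Nat.totient_prime hp]
  have hd : ((p - 1 : ℕ) : ℤ) ∣ k * (((p - 1) / 3 : ℕ) : ℤ) := by
    rw [← ho]
    apply orderOf_dvd_iff_zpow_eq_one.2
    rw [zpow_mul, hk, zpow_natCast, ho]
    exact hu1
  have h3 : p - 1 = 3 * ((p - 1) / 3) := by omega
  have hp1 : 1 < p := hp.one_lt
  have h3k : (3 : ℤ) ∣ k := by
    obtain ⟨c, hc⟩ := hd
    have h4 : ((p - 1 : ℕ) : ℤ) = 3 * (((p - 1) / 3 : ℕ) : ℤ) := by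
      conv_lhs => rw [h3]
      push_cast
      ring
    rw [h4] at hc
    have h5 : (((p - 1) / 3 : ℕ) : ℤ) ≠ 0 := by omega
    refine ⟨c, ?_⟩
    apply mul_right_cancel₀ h5
    linear_combination hc
  obtain ⟨j, hj⟩ := h3k
  have h6 : ((g ^ j : (ZMod p)ˣ) : ZMod p) ^ 3 = m := by
    rw [← hu, ← hk, hj, ← Units.val_pow_eq_pow_val]
    congr 1
    rw [← zpow_natCast, ← zpow_mul]
    congr 1
    push_cast
    ring
  obtain ⟨r, hr⟩ := ZMod.intCast_surjective ((g ^ j : (ZMod p)ˣ) : ZMod p)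
  refine ⟨r, (ZMod.intCast_zmod_eq_zero_iff_dvd _ p).1 ?_⟩
  push_cast
  rw [hr, h6, sub_self]

theorem cube_inert {p : ℕ} (hp : p.Prime) (h2 : p % 3 = 2) {m : ℤ} (hm : ¬ (p : ℤ) ∣ m) :
    ∃ r : ℤ, (p : ℤ) ∣ r ^ 3 - m := by
  have : Fact p.Prime := ⟨hp⟩
  have hm0 : (m : ZMod p) ≠ 0 := by
    intro h
    exact hm ((ZMod.intCast_zmod_eq_zero_iff_dvd m p).1 h)
  have h3 := ZMod.pow_card_sub_one_eq_one hm0
  refine ⟨m ^ ((2 * (p - 1) + 1) / 3), (ZMod.intCast_zmod_eq_zero_iff_dvd _ p).1 ?_⟩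
  push_cast
  have hp1 : 1 < p := hp.one_lt
  have h4 : (2 * (p - 1) + 1) / 3 * 3 = 2 * (p - 1) + 1 := by omega
  rw [← pow_mul, h4, pow_succ, mul_comm 2, pow_mul, h3, one_pow, one_mul, sub_self]

/-! ### The primes of `PP` -/

theorem norm_int (m : ℤ) : ((m : ℤ) : Eis).norm = m ^ 2 := by
  rw [norm_def, intCast_re, intCast_im]
  ring

theorem above (hSPP : SPP) (π : PP) : ∃ p : ℕ, p.Prime ∧ ¬ (p : ℤ) ∣ 3 ∧
    (∀ m : ℤ, π.1 ∣ (m : Eis) ↔ (p : ℤ) ∣ m) ∧ V π.1 ((p : ℤ) : Eis) = 1 ∧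
    (∀ m : ℤ, ¬ (p : ℤ) ∣ m → sym π.1 (m : Eis) = 0 → ∃ r : ℤ, (p : ℤ) ∣ r ^ 3 - m) := by
  have hπ := π.2.1
  have h3 := (hSPP.2.2.2.1 π).1
  obtain ⟨p, hp, hc⟩ := hSPP.2.2.2.2.2 π
  have hpi : Prime (p : ℤ) := Nat.prime_iff_prime_int.1 hp
  refine ⟨p, hp, ?_, ?_⟩
  · intro h
    have h1 : p ∣ 3 := by exact_mod_cast h
    have h2 := (Nat.prime_dvd_prime_iff_eq hp Nat.prime_three).1 h1
    omega
  rcases hc with ⟨h1, h2⟩ | ⟨h1, h2, h4, h5⟩
  · have h2' : π.1 = ((p : ℤ) : Eis) := by rw [h2, Int.cast_natCast]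
    refine ⟨?_, ?_, ?_⟩
    · intro m
      rw [h2', intCast_dvd_intCast]
    · rw [← h2']
      exact V_self
    · intro m hm _
      exact cube_inert hp h1 hm
  · have h4' : ((p : ℤ) : Eis) = π.1 * conj π.1 := by rw [Int.cast_natCast, h4]
    have hdvd : ∀ m : ℤ, π.1 ∣ (m : Eis) ↔ (p : ℤ) ∣ m := by
      intro m
      constructor
      · rintro ⟨y, hy⟩
        have h6 := congrArg Eis.norm hy
        rw [norm_mul, norm_int, h2] at h6
        exact hpi.dvd_of_dvd_pow ⟨_, h6⟩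
      · intro h
        refine dvd_trans ?_ (intCast_dvd_intCast.2 h)
        rw [h4']
        exact dvd_mul_right _ _
    refine ⟨hdvd, ?_, ?_⟩
    · have h6 : ¬ π.1 ∣ conj π.1 := fun h => h5 (hπ.associated_of_dvd (prime_conj hπ) h)
      rw [h4', V_mul hπ hπ.ne_zero (prime_conj hπ).ne_zero, V_self, V_eq_zero h6]
    · intro m hm hs
      have h6 : ¬ π.1 ∣ (m : Eis) := fun h => hm ((hdvd m).1 h)
      have h7 := sym_spec hπ h3 h6
      have hN : N π.1 = p := by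
        have h8 := N_cast π.1
        rw [h2] at h8
        exact_mod_cast h8
      rw [hs, ZMod.val_zero, pow_zero, hN] at h7
      have h8 : (m : Eis) ^ ((p - 1) / 3) - 1 = ((m ^ ((p - 1) / 3) - 1 : ℤ) : Eis) := by
        push_cast
        ring
      rw [h8, hdvd] at h7
      exact cube_of_pow hp h1 hm h7

theorem cast_ne_zero {b : ℤ} (hb : b ≠ 0) : (b : Eis) ≠ 0 := by
  intro h
  have h1 := congrArg Eis.re h
  rw [intCast_re] at h1
  exact hb h1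

theorem first (hSPP : SPP) (π : PP) (b : ℤ) (hb : b ≠ 0) :
    LC π.1 b ↔ 3 ∣ V π.1 (b : Eis) ∧ ch π.1 (b : Eis) = 0 := by
  have hπ := π.2.1
  have h3 := (hSPP.2.2.2.1 π).1
  have hb0 := cast_ne_zero hb
  constructor
  · intro h
    obtain ⟨r, hr⟩ := h (V π.1 (b : Eis) + 1)
    have hr0 := root_ne_zero hπ hb0 le_rfl hr
    obtain ⟨h1, h2⟩ := cont hπ hb0 hr
    rw [V_pow hπ hr0] at h1
    rw [ch_pow hπ h3 hr0, three_mul_zmod (dvd_refl 3), zero_mul] at h2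
    exact ⟨⟨_, h1.symm⟩, h2.symm⟩
  · rintro ⟨h1, h2⟩
    obtain ⟨p, hp, hp3, hd, hV, hs⟩ := above hSPP π
    have hpi : Prime (p : ℤ) := Nat.prime_iff_prime_int.1 hp
    obtain ⟨c, hc, hpc⟩ :=
      (FiniteMultiplicity.of_prime_left hpi hb).exists_eq_pow_mul_and_not_dvd
    generalize multiplicity (p : ℤ) b = k at hc
    have hp0 : ((p : ℤ) : Eis) ≠ 0 := cast_ne_zero hpi.ne_zero
    have hπc : ¬ π.1 ∣ (c : Eis) := fun h => hpc ((hd c).1 h)
    have hc0 : (c : Eis) ≠ 0 := by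
      intro h
      rw [h] at hπc
      exact hπc (dvd_zero _)
    have hbE : (b : Eis) = ((p : ℤ) : Eis) ^ k * (c : Eis) := by
      rw [hc]
      push_cast
      ring
    have hVb : V π.1 (b : Eis) = k := by
      rw [hbE, V_mul hπ (pow_ne_zero _ hp0) hc0, V_pow hπ hp0, hV, V_eq_zero hπc]
      ring
    rw [hVb] at h1
    rw [hbE, ch_mul hπ h3 (pow_ne_zero _ hp0) hc0, ch_pow hπ h3 hp0, three_mul_zmod h1, zero_mul,
      zero_add, ch_unit hπ hπc] at h2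
    obtain ⟨r0, hr0⟩ := hs c hpc h2
    obtain ⟨j, hj⟩ := h1
    intro N
    obtain ⟨r, hr⟩ := hensel hp hp3 hpc hr0 N
    refine ⟨(p : ℤ) ^ j * r, ?_⟩
    have h4 : (p : ℤ) ^ (N + 1) ∣ ((p : ℤ) ^ j * r) ^ 3 - b := by
      have e : ((p : ℤ) ^ j * r) ^ 3 - b = (p : ℤ) ^ k * (r ^ 3 - c) := by
        rw [hc, hj, mul_comm 3 j, pow_mul]
        ring
      rw [e]
      exact hr.mul_left _
    have h5 : π.1 ^ N ∣ ((p : ℤ) : Eis) ^ (N + 1) := by
      refine (pow_dvd_pow π.1 (Nat.le_succ N)).trans (pow_dvd_pow_of_dvd ?_ _)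
      exact (hd (p : ℤ)).2 (dvd_refl _)
    have h6 : (((p : ℤ) ^ (N + 1) : ℤ) : Eis) ∣ ((((p : ℤ) ^ j * r) ^ 3 - b : ℤ) : Eis) :=
      intCast_dvd_intCast.2 h4
    rw [Int.cast_pow] at h6
    refine (h5.trans h6).trans (dvd_of_eq ?_)
    push_cast
    ring

theorem lam_four : lam ^ 4 = 9 * w ^ 2 := by decide

theorem second (b : ℤ) (hb : ¬ (3 : ℤ) ∣ b) : LC lam b ↔ C9 b := by
  constructor
  · intro h
    obtain ⟨r, hr⟩ := h 4
    have h1 : ((9 : ℤ) : Eis) ∣ ((r ^ 3 - b : ℤ) : Eis) := by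
      rw [lam_four] at hr
      have e : ((9 : ℤ) : Eis) = 9 := by push_cast; rfl
      rw [e]
      refine (dvd_mul_right 9 (w ^ 2)).trans (hr.trans (dvd_of_eq ?_))
      push_cast
      ring
    have h2 : (9 : ℤ) ∣ r ^ 3 - b := intCast_dvd_intCast.1 h1
    show b % 9 = 1 ∨ b % 9 = 8
    obtain ⟨t, ht⟩ : ∃ t, r = 3 * t + r % 3 := ⟨r / 3, by omega⟩
    have h3 : r % 3 = 0 ∨ r % 3 = 1 ∨ r % 3 = 2 := by omega
    rcases h3 with h3 | h3 | h3
    · rw [h3] at ht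
      have e : r ^ 3 = 9 * (3 * t ^ 3) := by rw [ht]; ring
      rw [e] at h2
      generalize 3 * t ^ 3 = T at h2
      omega
    · rw [h3] at ht
      have e : r ^ 3 = 9 * (3 * t ^ 3 + 3 * t ^ 2 + t) + 1 := by rw [ht]; ring
      rw [e] at h2
      generalize 3 * t ^ 3 + 3 * t ^ 2 + t = T at h2
      omega
    · rw [h3] at ht
      have e : r ^ 3 = 9 * (3 * t ^ 3 + 6 * t ^ 2 + 4 * t) + 8 := by rw [ht]; ring
      rw [e] at h2
      generalize 3 * t ^ 3 + 6 * t ^ 2 + 4 * t = T at h2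
      omega
  · intro h N
    obtain ⟨r, hr⟩ := hensel3 h N
    refine ⟨r, ?_⟩
    have h1 : lam ^ N ∣ (3 : Eis) ^ (N + 2) :=
      (pow_dvd_pow lam (by omega)).trans (pow_dvd_pow_of_dvd lam_dvd_three _)
    have h2 : (((3 : ℤ) ^ (N + 2) : ℤ) : Eis) ∣ ((r ^ 3 - b : ℤ) : Eis) :=
      intCast_dvd_intCast.2 hr
    rw [Int.cast_pow, ← three_eq_cast] at h2
    refine (h1.trans h2).trans (dvd_of_eq ?_)
    push_cast
    ring

theorem third (π : Eis) (s : Eis → Eis → ZMod 3) (e : ℕ) (b : ℤ) (a : Eis) (hs : LSym π s e)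
    (h : LC π b) (hb : b ≠ 0) (ha : a ≠ 0) : s (b : Eis) a = 0 := by
  have hb0 := cast_ne_zero hb
  obtain ⟨r, hr⟩ := h (V π (b : Eis) + e)
  have hr0 := root_ne_zero hs.prime hb0 hs.pos hr
  have h1 := hs.cont (b : Eis) ((r : Eis) ^ 3) a hb0 ha hr
  rw [← h1]
  have h2 := hs.mul (r : Eis) (r : Eis) a hr0 hr0 ha
  have h3 := hs.mul ((r : Eis) * (r : Eis)) (r : Eis) a (mul_ne_zero hr0 hr0) hr0 ha
  have e3 : (r : Eis) ^ 3 = (r : Eis) * (r : Eis) * (r : Eis) := by ring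
  rw [e3, h3, h2]
  have h4 : ∀ x : ZMod 3, x + x + x = 0 := by decide
  exact h4 _

end LCI

theorem LCI_thm (_hSTM : STM) (hSPP : SPP) (_hSLC : SLC) : LCI :=
  ⟨LCI.first hSPP, LCI.second, fun π s e b a hs h hb ha => LCI.third π s e b a hs h hb ha⟩

end Pool.Agent.PT


end

section

/-!
# The number of classes modulo `f`
-/

namespace Pool.Agent.PTE

open Pool.Agent.PT

namespace CLSCS

lemma kappa_neg_one {f m : ℕ} (κ : (ZMod f)ˣ →* Multiplicative (Fin (m + 1) → ZMod 3)) :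
    (κ (-1)).toAdd = 0 := by
  have h1 : κ (-1) * κ (-1) = 1 := by
    rw [← map_mul]
    simp
  have h2 : (κ (-1)).toAdd + (κ (-1)).toAdd = 0 := by
    have := congrArg Multiplicative.toAdd h1
    simpa using this
  funext i
  have h3 := congrFun h2 i
  simp only [Pi.add_apply, Pi.zero_apply] at h3 ⊢
  generalize (κ (-1)).toAdd i = x at h3
  revert x
  decide

lemma kappa_neg {f m : ℕ} (κ : (ZMod f)ˣ →* Multiplicative (Fin (m + 1) → ZMod 3))
    (a : (ZMod f)ˣ) : (κ (-a)).toAdd = (κ a).toAdd := by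
  have h : -a = -1 * a := by simp
  rw [h, map_mul, toAdd_mul, kappa_neg_one, zero_add]

lemma val_neg {f : ℕ} (hf : 0 < f) (h3 : 3 ∣ f) (a : (ZMod f)ˣ) (i j : ℕ) (hi : i < 3) (hj : j < 3)
    (hij : i + j = 3) (h : (a : ZMod f).val % 3 = i) : ((-a : (ZMod f)ˣ) : ZMod f).val % 3 = j := by
  have : NeZero f := ⟨hf.ne'⟩
  have h0 : (a : ZMod f) ≠ 0 := by
    intro h0
    rw [h0, ZMod.val_zero] at h
    omega
  rw [Units.val_neg, ZMod.neg_val, if_neg h0]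
  have hlt := ZMod.val_lt (a : ZMod f)
  obtain ⟨k, rfl⟩ := h3
  omega

end CLSCS

open _root_.Pool.Agent.PTE.CLSCS in
/-- CLSCS. -/
theorem CLSCS_thm : CLSCS := by
  intro f m κ hf h9 H c
  have h3 : 3 ∣ f := (by norm_num : 3 ∣ 9).trans h9
  rw [← H c]
  congr 1
  refine Nat.card_congr
    { toFun := fun a => ⟨-a.1, ?_, ?_⟩
      invFun := fun a => ⟨-a.1, ?_, ?_⟩
      left_inv := fun a => by simp
      right_inv := fun a => by simp }
  · exact val_neg hf h3 a.1 1 2 (by norm_num) (by norm_num) rfl a.2.1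
  · rw [kappa_neg]; exact a.2.2
  · exact val_neg hf h3 a.1 2 1 (by norm_num) (by norm_num) rfl a.2.1
  · rw [kappa_neg]; exact a.2.2

end Pool.Agent.PTE


end

section

/-!
# SPLT: the primes `q = 1 (mod 3)`
-/

namespace Pool.Agent.PTE

open Pool.Agent.Lib_helper18 Pool.Agent.Lib_helper18.Eis Pool.Agent.Lib_helper84.Cub
open Pool.Agent.PT

namespace SPLT

/-- A rational integer `x` with `x ^ ((q - 1) / 3) = 1` modulo `q` is a cube modulo `q`. -/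
theorem exists_cube {q : ℕ} (hq : q.Prime) (h3 : q % 3 = 1) (u : (ZMod q)ˣ)
    (hu : u ^ ((q - 1) / 3) = 1) : ∃ v : (ZMod q)ˣ, v ^ 3 = u := by
  have : Fact q.Prime := ⟨hq⟩
  obtain ⟨g, hg⟩ := IsCyclic.exists_generator (α := (ZMod q)ˣ)
  have hord : orderOf g = q - 1 := by
    rw [orderOf_eq_card_of_forall_mem_zpowers hg, Nat.card_eq_fintype_card,
      ZMod.card_units_eq_totient, Nat.totient_prime hq]
  obtain ⟨j, hj⟩ := Subgroup.mem_zpowers_iff.1 (hg u)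
  have hq2 := hq.two_le
  obtain ⟨k, hk⟩ : ∃ k, q - 1 = 3 * k := ⟨(q - 1) / 3, by omega⟩
  have hk0 : 0 < k := by omega
  have hk' : (q - 1) / 3 = k := by omega
  rw [hk', ← hj, ← zpow_natCast, ← zpow_mul, ← orderOf_dvd_iff_zpow_eq_one, hord, hk] at hu
  push_cast at hu
  have h4 : (3 : ℤ) ∣ j := Int.dvd_of_mul_dvd_mul_right (by omega) hu
  obtain ⟨i, rfl⟩ := h4
  refine ⟨g ^ i, ?_⟩
  rw [← hj, ← zpow_natCast, ← zpow_mul, mul_comm i]
  rfl

theorem norm_eq {q : ℕ} {ρ : Eis} (h : (q : Eis) = ρ * conj ρ) : ρ.norm = q := by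
  rw [mul_conj] at h
  have h1 := congrArg Eis.re h
  rw [natCast_re, intCast_re] at h1
  exact h1.symm

end SPLT

set_option linter.unusedVariables false in
theorem SPLT_thm (hSTM : STM) (hSPP : SPP) (hSCJ : SCJ) : SPLT := by
  refine ⟨fun q hq h3 => ?_, fun q ρ hq h3 hρ => ?_⟩
  · have : Fact q.Prime := ⟨hq⟩
    obtain ⟨π0, hπ0, _⟩ := exists_pi hq h3
    have hp := prime_of_norm_eq hπ0
    obtain ⟨ρ, hρ⟩ := hSPP.1 π0 hp (not_dvd_three hπ0 h3)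
    obtain ⟨u, hu⟩ := hρ
    have h1 : ρ.1.norm = q := by
      rw [← hu, norm_mul, isUnit_iff_norm.mp u.isUnit, mul_one, hπ0]
    exact ⟨ρ, (mul_conj_p h1).symm⟩
  · have : Fact q.Prime := ⟨hq⟩
    have hn := SPLT.norm_eq hρ
    have hp := ρ.2.1
    have h3' := not_dvd_three hn h3
    obtain ⟨ρ', hρ'⟩ := (hSPP.2.2.2.1 ρ).2
    refine ⟨fun h => not_dvd_conj h3 hn h.dvd, ⟨ρ', hρ'⟩, ?_, ?_, ?_, ?_⟩
    · intro σ hσ
      rcases (norm_of_dvd_p hn σ.2.1 hσ).2 with h | h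
      · exact Or.inl (congrArg Subtype.val (hSPP.2.1 σ ρ h))
      · right
        rw [← hρ'] at h ⊢
        exact congrArg Subtype.val (hSPP.2.1 σ ρ' h)
    · intro x
      exact dvd_intCast_iff hn
    · intro a ha
      exact sym_conj hp h3' ha
    · intro x hx hs
      have hx' : ¬ ρ.1 ∣ (x : Eis) := by rwa [dvd_intCast_iff hn]
      have h4 := sym_spec hp h3' hx'
      have hN : N ρ.1 = q := by
        have h5 := N_cast ρ.1
        rw [hn] at h5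
        exact_mod_cast h5
      rw [hs, hN] at h4
      have h5 : (x : Eis) ^ ((q - 1) / 3) - w ^ (0 : ZMod 3).val =
          ((x ^ ((q - 1) / 3) - 1 : ℤ) : Eis) := by
        push_cast
        rfl
      rw [h5, dvd_intCast_iff hn, ← ZMod.intCast_zmod_eq_zero_iff_dvd] at h4
      have hx0 : (x : ZMod q) ≠ 0 := by
        intro h
        exact hx ((ZMod.intCast_zmod_eq_zero_iff_dvd _ _).1 h)
      obtain ⟨v, hv⟩ := SPLT.exists_cube hq h3 (Units.mk0 (x : ZMod q) hx0) (by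
        apply Units.ext
        push_cast at h4
        rw [Units.val_pow_eq_pow_val, Units.val_mk0, Units.val_one]
        exact sub_eq_zero.1 h4)
      obtain ⟨r, hr⟩ := ZMod.intCast_surjective (v : ZMod q)
      refine ⟨r, ?_⟩
      rw [← ZMod.intCast_zmod_eq_zero_iff_dvd]
      push_cast
      have h6 := congrArg Units.val hv
      rw [Units.val_pow_eq_pow_val, Units.val_mk0] at h6
      rw [hr, h6, sub_self]

end Pool.Agent.PTE


end

section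

/-!
# PT3, module LVC: `x` is a local cube at `lam` and `v(B) = 1`
-/

set_option autoImplicit false

open NumberField IsDedekindDomain Finset
open scoped nonZeroDivisors Pointwise

namespace Pool.Agent.PT3

open Pool.Agent.Lib_helper18 Pool.Agent.Lib_helper18.Eis Pool.Agent.Lib_helper84.Cub
open Pool.Agent.PT Pool.Agent.PTE

namespace LVC

/-- integers of the same class have the same symbols, first variable -/
theorem left_eq (hSSL : SSL) (hLCL : LCL) {a b : ℤ} (ha : a ≠ 0) (hb : b ≠ 0) (h1 : lv a = lv b)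
    (h2 : lw a = lw b) {c : Eis} (hc : c ≠ 0) : sl (a : Eis) c = sl (b : Eis) c := by
  have h3 := hLCL.2.2.2.2.2.1 a b c ha hb hc h1 h2
  have h4 : sl (a : Eis) c = - sl c (a : Eis) := hSSL.2.1 c (a : Eis) hc (LEV.cast_ne ha)
  have h5 : sl (b : Eis) c = - sl c (b : Eis) := hSSL.2.1 c (b : Eis) hc (LEV.cast_ne hb)
  rw [h4, h5, h3]

end LVC

set_option linter.unusedVariables false in
theorem LVC_thm (hSTM : STM) (hSPP : SPP) (hSSL : SSL) (hSLC : SLC) (hSCJ : SCJ) (hLCI : LCI)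
    (hIF2 : IF2) (hIF4 : IF4) (hIIA : IIA) (hLL1 : LL1) (hLCL : LCL) : LVC := by
  intro B b x p q p' q' X Y X' Y' hB hb hx hS hlv hLCx hP hP'
  have hL : LSym lam sl 4 := hSLC
  have hS' := LEV.swap hS
  obtain ⟨hX, hY, hn0, hcv, hcw⟩ := hP
  obtain ⟨hX', hY', hnb, hcv', hcw'⟩ := hP'
  obtain ⟨hvx, hwx⟩ := (hLCL.1 x hx).1 hLCx
  have hm := hLCL.2.1 x (X ^ 3 + x * Y ^ 3) hx hn0
  have hv0 : lv (X ^ 3 + x * Y ^ 3) = lv B := by rw [← hcv, hm.1, hvx, zero_add]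
  have hw0 : lw (X ^ 3 + x * Y ^ 3) = lw B := by rw [← hcw, hm.2, hwx, zero_add]
  obtain ⟨N1, h1⟩ := hIIA x b p (-p') (-q) q' X' Y' hx hb hLCx hS' hX' hY' hnb
  obtain ⟨N2, h2⟩ := hIF4 lam sl 4 hL b x p q p' q' X Y hb hx hS hX hY hn0
  obtain ⟨N3, h3⟩ := hLL1 x X Y b hx hb hX hY hn0 (by rw [hv0, hlv])
  obtain ⟨N4, h4⟩ := hIF2 lam sl 4 hL x b p (-p') (-q) q' hx hb hS'
  have hn' : p ^ 3 + x * (-p') ^ 3 ≠ 0 := hS'.n1
  have hn'' : (-q) ^ 3 + x * q' ^ 3 ≠ 0 := LEV.nn hS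
  obtain ⟨N, hN⟩ : ∃ N, N = N1 + N2 + N3 + N4 + V lam ((p ^ 3 + x * (-p') ^ 3 : ℤ) : Eis) +
    V lam (((-q) ^ 3 + x * q' ^ 3 : ℤ) : Eis) + 1 := ⟨_, rfl⟩
  obtain ⟨ξ, hξ⟩ := hLCx N
  have g1 := h1 ξ ((pow_dvd_pow lam (by omega)).trans hξ)
  have g2 := h2 ξ ((pow_dvd_pow lam (by omega)).trans hξ)
  have g3 := h3 ξ ((pow_dvd_pow lam (by omega)).trans hξ)
  have g4 := h4 ξ ((pow_dvd_pow lam (by omega)).trans hξ)
  have hG := LEV.lf_ne hL.prime hn' (N := N) (by omega) hξ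
  have hG' := LEV.lf_ne hL.prime hn'' (N := N) (by omega) hξ
  have hw : (w : Eis) ≠ 0 := LEV.w_ne
  have hB' := LEV.cast_ne hB
  have hb' := LEV.cast_ne hb
  have hx' := LEV.cast_ne hx
  have hnb' := LEV.cast_ne hnb
  -- the class of `b n_b` is the class of `B`
  have key : ∀ y : Eis, y ≠ 0 →
      sl (B : Eis) y = sl (b : Eis) y + sl ((X' ^ 3 + b * Y' ^ 3 : ℤ) : Eis) y := by
    intro y hy
    have e1 := LVC.left_eq hSSL hLCL (mul_ne_zero hb hnb) hB hcv' hcw' hy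
    have e2 : ((b * (X' ^ 3 + b * Y' ^ 3) : ℤ) : Eis) =
        (b : Eis) * ((X' ^ 3 + b * Y' ^ 3 : ℤ) : Eis) := Int.cast_mul _ _
    rw [← e1, e2, hL.mul _ _ _ hb' hnb' hy]
  have keyw : sl w (B : Eis) = sl w (b : Eis) + sl w ((X' ^ 3 + b * Y' ^ 3 : ℤ) : Eis) := by
    have e1 := hLCL.2.2.2.2.2.1 _ _ w (mul_ne_zero hb hnb) hB hw hcv' hcw'
    have e2 : ((b * (X' ^ 3 + b * Y' ^ 3) : ℤ) : Eis) =
        (b : Eis) * ((X' ^ 3 + b * Y' ^ 3 : ℤ) : Eis) := Int.cast_mul _ _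
    rw [← e1, e2, LEV.mul_right hL hb' hnb' hw]
  have key0 : ∀ y : Eis, y ≠ 0 →
      sl ((X ^ 3 + x * Y ^ 3 : ℤ) : Eis) y = sl (B : Eis) y := fun y hy =>
    LVC.left_eq hSSL hLCL hn0 hB hv0 hw0 hy
  have a1 : AS sl ((X ^ 3 + x * Y ^ 3 : ℤ) : Eis) p (-p') (-q) q' ξ =
      AS sl (b : Eis) p (-p') (-q) q' ξ +
        AS sl ((X' ^ 3 + b * Y' ^ 3 : ℤ) : Eis) p (-p') (-q) q' ξ := by
    unfold AS
    rw [key0 _ (hG 2), key0 _ (hG' 1), key0 _ (hG 1), key0 _ (hG' 2), key _ (hG 2),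
      key _ (hG' 1), key _ (hG 1), key _ (hG' 2)]
    ring
  have wx : sl w (x : Eis) = 0 := LEV.lc_right hL hLCI hx hLCx hw
  have wm : sl w ((B * x * b : ℤ) : Eis) = sl w (B : Eis) + sl w (b : Eis) := by
    have e2 : ((B * x * b : ℤ) : Eis) = (B : Eis) * (x : Eis) * (b : Eis) := by push_cast; ring
    rw [e2, LEV.mul_right hL (mul_ne_zero hB' hx') hb' hw, LEV.mul_right hL hB' hx' hw, wx,
      add_zero]
  have G1 : Gf p q p' q' 1 ≠ 0 := LFIN.Gf_ne hS 1 (Or.inl rfl)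
  have G2 : Gf p q p' q' 2 ≠ 0 := LFIN.Gf_ne hS 2 (Or.inr rfl)
  rw [LEV.gf_swap, LEV.gf_swap] at g1 g4
  unfold UV
  rw [wm, key _ G1, key _ G2, keyw]
  rw [a1] at g2
  linear_combination g1 + g2 + g3 + g4

end Pool.Agent.PT3


end
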