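import Mathlib
import Pool.Agent.PTDM.C21

/-! Parts: PT.EBAS, PT.F5L, PT.NCNT, PT.NGEN, PT.NTR, PT3.EBAT, PT3.LE3 -/

section

/-!
# Prime twists of rank zero: basis of the admissible classes (module EBAS)
-/

set_option autoImplicit false

namespace Pool.Agent.PT

open Pool.Agent.Lib_helper18 Pool.Agent.Lib_helper18.Eis Pool.Agent.Lib_helper84.Cub

namespace EBAS

/-! ### Linear algebra -/

/-- Exponent vectors modulo `3`. -/
abbrev EV (m k : ℕ) : Type := (Fin m → ZMod 3) × (Fin k → ZMod 3)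

/-- A basis of a subspace such that a linear form vanishes at all its members with at most one
exception. -/
theorem exists_basis {M : Type} [AddCommGroup M] [Module (ZMod 3) M] [Module.Finite (ZMod 3) M]
    (W : M →ₗ[ZMod 3] ZMod 3) (S : Submodule (ZMod 3) M) :
    ∃ b : Module.Basis (Fin (Module.finrank (ZMod 3) S)) (ZMod 3) S,
      ∀ i j, i ≠ j → W (b i) = 0 ∨ W (b j) = 0 := by
  classical
  set b0 := Module.finBasis (ZMod 3) S with hb0
  by_cases h : ∀ i, W (b0 i) = 0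
  · exact ⟨b0, fun i j _ => Or.inl (h i)⟩
  · push Not at h
    obtain ⟨i0, hi0⟩ := h
    let b : Fin (Module.finrank (ZMod 3) S) → S := fun i =>
      if i = i0 then b0 i0 else b0 i - (W (b0 i) / W (b0 i0)) • b0 i0
    have hb1 : b i0 = b0 i0 := if_pos rfl
    have hb2 : ∀ i, i ≠ i0 → b i = b0 i - (W (b0 i) / W (b0 i0)) • b0 i0 := fun i hi => if_neg hi
    have hspan : ⊤ ≤ Submodule.span (ZMod 3) (Set.range b) := by
      rw [← b0.span_eq, Submodule.span_le]
      rintro x ⟨i, rfl⟩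
      have h0 : b0 i0 ∈ Submodule.span (ZMod 3) (Set.range b) := by
        rw [← hb1]
        exact Submodule.subset_span ⟨i0, rfl⟩
      by_cases hi : i = i0
      · rw [hi]
        exact h0
      · have h1 : b0 i = b i + (W (b0 i) / W (b0 i0)) • b0 i0 := by
          rw [hb2 i hi, sub_add_cancel]
        rw [h1]
        exact add_mem (Submodule.subset_span ⟨i, rfl⟩) (Submodule.smul_mem _ _ h0)
    have hli : LinearIndependent (ZMod 3) b :=
      linearIndependent_of_top_le_span_of_card_eq_finrank hspan (by simp)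
    refine ⟨Module.Basis.mk hli hspan, fun i j hij => ?_⟩
    rw [Module.Basis.mk_apply, Module.Basis.mk_apply]
    have h2 : ∀ i, i ≠ i0 → W (b i) = 0 := by
      intro i hi
      rw [hb2 i hi, Submodule.coe_sub, Submodule.coe_smul, map_sub, map_smul, smul_eq_mul,
        div_mul_cancel₀ _ hi0, sub_self]
    by_cases hi : i = i0
    · exact Or.inr (h2 j (by rw [← hi]; exact hij.symm))
    · exact Or.inl (h2 i hi)

/-- The conditions at the split primes. -/
noncomputable def Lm (n : ℕ) {m k : ℕ} (π : Fin m → PP) (p e : Fin m → ℕ) (r : Fin k → ℕ)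
    (c : Fin m → ZMod 3) : EV m k →ₗ[ZMod 3] (Fin m → ZMod 3) where
  toFun v i := (e i : ZMod 3) * (∑ i', v.1 i' *
      (if i' = i then sym (π i).1 (conj (π i).1) else sym (π i).1 (p i' : Eis))) +
    (e i : ZMod 3) * (∑ j, v.2 j * sym (π i).1 (r j : Eis)) -
    v.1 i * (ch (π i).1 (n : Eis) + c i)
  map_add' := by
    intro v v'
    funext i
    simp only [Prod.fst_add, Prod.snd_add, Pi.add_apply, add_mul, Finset.sum_add_distrib]
    ring
  map_smul' := by
    intro t v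
    funext i
    simp only [Prod.smul_fst, Prod.smul_snd, Pi.smul_apply, smul_eq_mul, mul_assoc,
      RingHom.id_apply, ← Finset.mul_sum]
    ring

/-- The condition modulo `9`. -/
noncomputable def Wm {m k : ℕ} (p : Fin m → ℕ) (r : Fin k → ℕ) :
    EV m k →ₗ[ZMod 3] ZMod 3 where
  toFun v := (∑ i, v.1 i * wt ((p i : ℤ) ^ 2)) + ∑ j, v.2 j * wt ((r j : ℤ) ^ 2)
  map_add' := by
    intro v v'
    simp only [Prod.fst_add, Prod.snd_add, Pi.add_apply, add_mul, Finset.sum_add_distrib]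
    ring
  map_smul' := by
    intro t v
    simp only [Prod.smul_fst, Prod.smul_snd, Pi.smul_apply, smul_eq_mul, mul_assoc,
      RingHom.id_apply, ← Finset.mul_sum]
    ring

/-- The rows of the matrix. -/
theorem row (n : ℕ) {m k : ℕ} (π : Fin m → PP) (p e : Fin m → ℕ) (r : Fin k → ℕ)
    (c : Fin m → ZMod 3) (v : EV m k) (i : Fin m) :
    Lm n π p e r c v i = (∑ i', (if i' = i then
          (e i : ZMod 3) * sym (π i).1 (conj (π i).1) - ch (π i).1 (n : Eis) - c i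
        else (e i : ZMod 3) * sym (π i).1 (p i' : Eis)) * v.1 i') +
      (e i : ZMod 3) * (∑ j, v.2 j * sym (π i).1 (r j : Eis)) := by
  classical
  have h1 : ∀ i', (if i' = i then
          (e i : ZMod 3) * sym (π i).1 (conj (π i).1) - ch (π i).1 (n : Eis) - c i
        else (e i : ZMod 3) * sym (π i).1 (p i' : Eis)) * v.1 i' =
      (e i : ZMod 3) * (v.1 i' *
        (if i' = i then sym (π i).1 (conj (π i).1) else sym (π i).1 (p i' : Eis))) -
      (if i' = i then v.1 i' * (ch (π i).1 (n : Eis) + c i) else 0) := by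
    intro i'
    split_ifs
    · ring
    · ring
  rw [Finset.sum_congr rfl fun i' _ => h1 i', Finset.sum_sub_distrib, ← Finset.mul_sum,
    Finset.sum_ite_eq' Finset.univ i, if_pos (Finset.mem_univ i)]
  change (e i : ZMod 3) * (∑ i', v.1 i' *
      (if i' = i then sym (π i).1 (conj (π i).1) else sym (π i).1 (p i' : Eis))) +
    (e i : ZMod 3) * (∑ j, v.2 j * sym (π i).1 (r j : Eis)) -
    v.1 i * (ch (π i).1 (n : Eis) + c i) = _
  ring

theorem solve {m : ℕ} (M : Matrix (Fin (m + 1)) (Fin (m + 1)) (ZMod 3)) (h : M.det ≠ 0)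
    (v : Fin (m + 1) → ZMod 3) : ∃ u : Fin (m + 1) → ZMod 3, ∀ a, ∑ b, M a b * u b = v a := by
  refine ⟨M⁻¹.mulVec v, fun a => ?_⟩
  have h1 : M.mulVec (M⁻¹.mulVec v) = v := by
    rw [Matrix.mulVec_mulVec, Matrix.mul_nonsing_inv _ (isUnit_iff_ne_zero.mpr h),
      Matrix.one_mulVec]
  exact congrFun h1 a

theorem surj_none (n : ℕ) {m k : ℕ} (π : Fin m → PP) (p e : Fin m → ℕ) (r : Fin k → ℕ)
    (c : Fin m → ZMod 3) (h : (Mp n π p e r none c).det ≠ 0) :
    Function.Surjective (Lm n π p e r c : EV m k →ₗ[ZMod 3] (Fin m → ZMod 3)) := by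
  intro v
  obtain ⟨u, hu⟩ := solve _ h (Fin.cons 0 v)
  refine ⟨(fun i => u i.succ, 0), ?_⟩
  funext i
  rw [row]
  have h1 := hu i.succ
  rw [Fin.sum_univ_succ, Fin.cons_succ] at h1
  have h2 : Mp n π p e r none c i.succ 0 = 0 := rfl
  rw [h2, zero_mul, zero_add] at h1
  rw [← h1]
  have h3 : ∑ j : Fin k, (0 : Fin k → ZMod 3) j * sym (π i).1 (r j : Eis) = 0 := by simp
  rw [h3, mul_zero, add_zero]
  rfl

theorem surj_some (n : ℕ) {m k : ℕ} (π : Fin m → PP) (p e : Fin m → ℕ) (r : Fin k → ℕ)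
    (c : Fin m → ZMod 3) (j0 : Fin k) (h : (Mp n π p e r (some j0) c).det ≠ 0) :
    Function.Surjective ((Wm p r).prod (Lm n π p e r c) :
      EV m k →ₗ[ZMod 3] (ZMod 3 × (Fin m → ZMod 3))) := by
  classical
  rintro ⟨t, v⟩
  obtain ⟨u, hu⟩ := solve _ h (Fin.cons t v)
  refine ⟨(fun i => u i.succ, Pi.single j0 (u 0)), ?_⟩
  have hs : ∀ f : Fin k → ZMod 3, ∑ j, (Pi.single j0 (u 0) : Fin k → ZMod 3) j * f j =
      f j0 * u 0 := by
    intro f
    rw [Finset.sum_eq_single j0]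
    · rw [Pi.single_eq_same, mul_comm]
    · intro j _ hj
      rw [Pi.single_eq_of_ne hj, zero_mul]
    · intro hj
      exact absurd (Finset.mem_univ _) hj
  refine Prod.ext ?_ ?_
  · have h1 := hu 0
    rw [Fin.sum_univ_succ, Fin.cons_zero] at h1
    change (∑ i, u i.succ * wt ((p i : ℤ) ^ 2)) +
      ∑ j, (Pi.single j0 (u 0) : Fin k → ZMod 3) j * wt ((r j : ℤ) ^ 2) = t
    rw [hs, ← h1, add_comm]
    congr 1
    exact Finset.sum_congr rfl fun i _ => mul_comm _ _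
  · change Lm n π p e r c (fun i => u i.succ, Pi.single j0 (u 0)) = v
    funext i
    rw [row]
    have h1 := hu i.succ
    rw [Fin.sum_univ_succ, Fin.cons_succ] at h1
    have h2 : Mp n π p e r (some j0) c i.succ 0 = (e i : ZMod 3) * sym (π i).1 (r j0 : Eis) :=
      rfl
    rw [h2] at h1
    rw [← h1]
    have h3 := hs fun j => sym (π i).1 (r j : Eis)
    simp only at h3 ⊢
    rw [h3, add_comm, mul_assoc]
    rfl

/-- The space of admissible exponent vectors. -/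
theorem exists_space (n : ℕ) {m k : ℕ} (π : Fin m → PP) (p e : Fin m → ℕ) (r : Fin k → ℕ)
    (w0 : ZMod 3) (c : Fin m → ZMod 3) (j0 : Option (Fin k))
    (hj0 : (j0 = none ∧ Even k ∧ wt ((n : ℤ) ^ 2) + w0 ≠ 0) ∨
      (j0 ≠ none ∧ Odd k ∧ wt ((n : ℤ) ^ 2) + w0 = 0))
    (h : (Mp n π p e r j0 c).det ≠ 0) :
    ∃ S : Submodule (ZMod 3) (EV m k), Even (Module.finrank (ZMod 3) S) ∧
      ∀ v : EV m k, v ∈ S ↔ (∀ i, Lm n π p e r c v i = 0) ∧
        (wt ((n : ℤ) ^ 2) + w0 = 0 → Wm p r v = 0) := by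
  rcases hj0 with ⟨rfl, hk, hw⟩ | ⟨hne, hk, hw⟩
  · refine ⟨LinearMap.ker (Lm n π p e r c), ?_, fun v => ?_⟩
    · have h1 := LinearMap.finrank_range_add_finrank_ker
        (Lm n π p e r c : EV m k →ₗ[ZMod 3] (Fin m → ZMod 3))
      rw [LinearMap.range_eq_top.mpr (surj_none n π p e r c h), finrank_top] at h1
      simp only [Module.finrank_prod, Module.finrank_fintype_fun_eq_card, Fintype.card_fin] at h1
      have h2 : Module.finrank (ZMod 3) (LinearMap.ker
          (Lm n π p e r c : EV m k →ₗ[ZMod 3] (Fin m → ZMod 3))) = k := by omega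
      rw [h2]
      exact hk
    · rw [LinearMap.mem_ker, funext_iff]
      exact ⟨fun h3 => ⟨h3, fun h4 => absurd h4 hw⟩, fun h3 => h3.1⟩
  · obtain ⟨j1, rfl⟩ := Option.ne_none_iff_exists'.mp hne
    refine ⟨LinearMap.ker ((Wm p r).prod (Lm n π p e r c)), ?_, fun v => ?_⟩
    · have h1 := LinearMap.finrank_range_add_finrank_ker
        ((Wm p r).prod (Lm n π p e r c) : EV m k →ₗ[ZMod 3] (ZMod 3 × (Fin m → ZMod 3)))
      rw [LinearMap.range_eq_top.mpr (surj_some n π p e r c j1 h), finrank_top] at h1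
      simp only [Module.finrank_prod, Module.finrank_fintype_fun_eq_card, Fintype.card_fin,
        Module.finrank_self] at h1
      obtain ⟨k', hk'⟩ := hk
      have h2 : Module.finrank (ZMod 3) (LinearMap.ker
          ((Wm p r).prod (Lm n π p e r c) :
            EV m k →ₗ[ZMod 3] (ZMod 3 × (Fin m → ZMod 3)))) = 2 * k' := by omega
      rw [h2]
      exact even_two_mul k'
    · rw [LinearMap.mem_ker]
      change (Wm p r v, Lm n π p e r c v) = 0 ↔ _
      rw [Prod.mk_eq_zero, funext_iff]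
      exact ⟨fun h3 => ⟨h3.2, fun _ => h3.1⟩, fun h3 => ⟨h3.2 hw, h3.1⟩⟩

/-! ### From exponent vectors to integers -/

/-- The number with given exponents. -/
def toN {m k : ℕ} (p : Fin m → ℕ) (r : Fin k → ℕ) (v : EV m k) : ℕ :=
  (∏ i, p i ^ (v.1 i).val) * ∏ j, r j ^ (v.2 j).val

section

variable {n m k : ℕ} {π : Fin m → PP} {p e : Fin m → ℕ} {r f : Fin k → ℕ}

theorem toN_ne (h : NF n π p e r f) (v : EV m k) : toN p r v ≠ 0 :=
  mul_ne_zero (Finset.prod_ne_zero_iff.mpr fun i _ => pow_ne_zero _ (h.pp i).ne_zero)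
    (Finset.prod_ne_zero_iff.mpr fun j _ => pow_ne_zero _ (h.rp j).ne_zero)

theorem val_prod {a : ℕ} (q : Fin a → ℕ) (hq : ∀ i, (q i).Prime) (x : Fin a → ℕ) (l : ℕ)
    (hl : l.Prime) : padicValNat l (∏ i, q i ^ x i) = ∑ i, if q i = l then x i else 0 := by
  classical
  have hl' : Fact l.Prime := ⟨hl⟩
  have key : ∀ s : Finset (Fin a), padicValNat l (∏ i ∈ s, q i ^ x i) =
      ∑ i ∈ s, if q i = l then x i else 0 := by
    intro s
    induction s using Finset.induction_on with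
    | empty => simp
    | insert b s hb ih =>
      rw [Finset.prod_insert hb, Finset.sum_insert hb,
        padicValNat.mul (pow_ne_zero _ (hq b).ne_zero)
          (Finset.prod_ne_zero_iff.mpr fun i _ => pow_ne_zero _ (hq i).ne_zero), ih,
        padicValNat.pow _ _]
      congr 1
      split_ifs with h1
      · rw [h1, padicValNat_self, mul_one]
      · have hq' : Fact (q b).Prime := ⟨hq b⟩
        rw [padicValNat_primes (Ne.symm h1), mul_zero]
  exact key Finset.univ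

theorem val_toN (h : NF n π p e r f) (v : EV m k) (l : ℕ) (hl : l.Prime) :
    padicValNat l (toN p r v) = (∑ i, if p i = l then (v.1 i).val else 0) +
      ∑ j, if r j = l then (v.2 j).val else 0 := by
  have hl' : Fact l.Prime := ⟨hl⟩
  rw [toN, padicValNat.mul
    (Finset.prod_ne_zero_iff.mpr fun i _ => pow_ne_zero _ (h.pp i).ne_zero)
    (Finset.prod_ne_zero_iff.mpr fun j _ => pow_ne_zero _ (h.rp j).ne_zero),
    val_prod p h.pp _ l hl, val_prod r h.rp _ l hl]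

theorem pr_ne (h : NF n π p e r f) (i : Fin m) (j : Fin k) : p i ≠ r j := by
  intro h1
  have h2 := h.p1 i
  rw [h1, h.r2 j] at h2
  omega

theorem val_p (h : NF n π p e r f) (v : EV m k) (i : Fin m) :
    padicValNat (p i) (toN p r v) = (v.1 i).val := by
  rw [val_toN h v _ (h.pp i)]
  have h1 : ∀ i', (if p i' = p i then (v.1 i').val else 0) = if i' = i then (v.1 i').val else 0 := by
    intro i'
    by_cases h2 : i' = i
    · rw [h2, if_pos rfl, if_pos rfl]
    · rw [if_neg h2, if_neg fun h3 => h2 (h.pinj h3)]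
  have h2 : ∀ j, (if r j = p i then (v.2 j).val else 0) = 0 := fun j =>
    if_neg (pr_ne h i j).symm
  rw [Finset.sum_congr rfl fun i' _ => h1 i', Finset.sum_congr rfl fun j _ => h2 j]
  simp

theorem val_r (h : NF n π p e r f) (v : EV m k) (j : Fin k) :
    padicValNat (r j) (toN p r v) = (v.2 j).val := by
  rw [val_toN h v _ (h.rp j)]
  have h1 : ∀ j', (if r j' = r j then (v.2 j').val else 0) = if j' = j then (v.2 j').val else 0 := by
    intro j'
    by_cases h2 : j' = j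
    · rw [h2, if_pos rfl, if_pos rfl]
    · rw [if_neg h2, if_neg fun h3 => h2 (h.rinj h3)]
  have h2 : ∀ i, (if p i = r j then (v.1 i).val else 0) = 0 := fun i =>
    if_neg (pr_ne h i j)
  rw [Finset.sum_congr rfl fun j' _ => h1 j', Finset.sum_congr rfl fun i _ => h2 i]
  simp

theorem zval_le (a : ZMod 3) : a.val ≤ 2 := by
  have h := ZMod.val_lt a
  omega

/-- The primes dividing `toN`. -/
theorem dvd_toN (h : NF n π p e r f) (v : EV m k) (l : ℕ) (hl : l.Prime) (hd : l ∣ toN p r v) :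
    (∃ i, p i = l) ∨ ∃ j, r j = l := by
  rcases hl.prime.dvd_mul.mp hd with h1 | h1
  · obtain ⟨i, -, hi⟩ := (hl.prime.dvd_finsetProd_iff _).mp h1
    exact Or.inl ⟨i, ((Nat.prime_dvd_prime_iff_eq hl (h.pp i)).mp (hl.dvd_of_dvd_pow hi)).symm⟩
  · obtain ⟨j, -, hj⟩ := (hl.prime.dvd_finsetProd_iff _).mp h1
    exact Or.inr ⟨j, ((Nat.prime_dvd_prime_iff_eq hl (h.rp j)).mp (hl.dvd_of_dvd_pow hj)).symm⟩

theorem val_le (h : NF n π p e r f) (v : EV m k) (l : ℕ) (hl : l.Prime) :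
    padicValNat l (toN p r v) ≤ 2 := by
  by_cases hd : l ∣ toN p r v
  · rcases dvd_toN h v l hl hd with ⟨i, rfl⟩ | ⟨j, rfl⟩
    · rw [val_p h]
      exact zval_le _
    · rw [val_r h]
      exact zval_le _
  · rw [padicValNat.eq_zero_of_not_dvd hd]
    exact Nat.zero_le _

theorem p_dvd (h : NF n π p e r f) (i : Fin m) : p i ∣ n := by
  rw [h.eq]
  refine Dvd.dvd.mul_right ?_ _
  refine dvd_trans (dvd_pow_self (p i) ?_) (Finset.dvd_prod_of_mem _ (Finset.mem_univ i))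
  rcases h.pe i with h1 | h1 <;> rw [h1] <;> omega

theorem r_dvd (h : NF n π p e r f) (j : Fin k) : r j ∣ n := by
  rw [h.eq]
  refine Dvd.dvd.mul_left ?_ _
  refine dvd_trans (dvd_pow_self (r j) ?_) (Finset.dvd_prod_of_mem _ (Finset.mem_univ j))
  rcases h.rf j with h1 | h1 <;> rw [h1] <;> omega

theorem supp_toN (h : NF n π p e r f) (v : EV m k) (l : ℕ) (hl : l.Prime)
    (hd : (l : ℤ) ∣ (toN p r v : ℤ)) : l ∣ n := by
  rcases dvd_toN h v l hl (Int.natCast_dvd_natCast.mp hd) with ⟨i, rfl⟩ | ⟨j, rfl⟩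
  · exact p_dvd h i
  · exact r_dvd h j

theorem three_toN (h : NF n π p e r f) (v : EV m k) : ¬ (3 : ℤ) ∣ (toN p r v : ℤ) := by
  intro hd
  have hd' : 3 ∣ toN p r v := by exact_mod_cast hd
  rcases dvd_toN h v 3 Nat.prime_three hd' with ⟨i, hi⟩ | ⟨j, hj⟩
  · have := h.p1 i
    rw [hi] at this
    omega
  · have := h.r2 j
    rw [hj] at this
    omega

end

/-! ### Multiplicities in `Z[w]` -/

theorem int_dvd {l x : ℤ} (h : (l : Eis) ∣ (x : Eis)) : l ∣ x := by
  obtain ⟨c, hc⟩ := h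
  refine ⟨c.re, ?_⟩
  have h1 := congrArg Eis.re hc
  simpa using h1

theorem V_le (hSPP : SPP) (π : PP) {x : ℤ} (hx : x ≠ 0) :
    ∃ l : ℕ, l.Prime ∧ V π.1 (x : Eis) ≤ padicValInt l x := by
  obtain ⟨l, hl, hcase⟩ := hSPP.2.2.2.2.2 π
  refine ⟨l, hl, ?_⟩
  have hl' : Fact l.Prime := ⟨hl⟩
  have hπ : Prime π.1 := π.2.1
  set a := V π.1 (x : Eis) with ha
  have hxE : (x : Eis) ≠ 0 := by
    intro h
    apply hx
    have h1 := congrArg Eis.re h
    simpa using h1
  have hd : π.1 ^ a ∣ (x : Eis) := pow_multiplicity_dvd _ _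
  have key : (l : ℤ) ^ a ∣ x := by
    apply int_dvd
    rcases hcase with ⟨-, h1⟩ | ⟨-, -, h2, h3⟩
    · rw [h1] at hd
      push_cast
      exact hd
    · have hd' : conj π.1 ^ a ∣ (x : Eis) := by
        have h4 := conj_dvd hd
        rwa [map_pow, conj_intCast] at h4
      have hcop : IsCoprime (π.1 ^ a) (conj π.1 ^ a) := by
        apply IsCoprime.pow
        rw [hπ.irreducible.coprime_iff_not_dvd]
        intro h5
        exact h3 (hπ.irreducible.associated_of_dvd (prime_conj hπ).irreducible h5)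
      have h6 := hcop.mul_dvd hd hd'
      rw [← mul_pow, ← h2] at h6
      push_cast
      exact h6
  have h7 : l ^ a ∣ x.natAbs := by
    have h8 := Int.natAbs_dvd_natAbs.mpr key
    rwa [Int.natAbs_pow, Int.natAbs_natCast] at h8
  rw [padicValInt]
  exact (padicValNat_dvd_iff_le (Int.natAbs_ne_zero.mpr hx)).mp h7

/-! ### The exponent vector of an integer -/

/-- The exponent vector modulo `3`. -/
noncomputable def ev {m k : ℕ} (p : Fin m → ℕ) (r : Fin k → ℕ) (x : ℤ) : EV m k :=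
  (fun i => (padicValInt (p i) x : ZMod 3), fun j => (padicValInt (r j) x : ZMod 3))

theorem padicInt_mul (l : ℕ) (hl : l.Prime) {x y : ℤ} (hx : x ≠ 0) (hy : y ≠ 0) :
    padicValInt l (x * y) = padicValInt l x + padicValInt l y := by
  have hl' : Fact l.Prime := ⟨hl⟩
  exact padicValInt.mul hx hy

theorem padicInt_pow (l : ℕ) (hl : l.Prime) {x : ℤ} (hx : x ≠ 0) (a : ℕ) :
    padicValInt l (x ^ a) = a * padicValInt l x := by
  induction a with
  | zero => simp
  | succ a ih =>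
    rw [pow_succ, padicInt_mul l hl (pow_ne_zero _ hx) hx, ih]
    ring

theorem padicInt_prod (l : ℕ) (hl : l.Prime) {ι : Type} (s : Finset ι) (x : ι → ℤ)
    (hx : ∀ i, x i ≠ 0) : padicValInt l (∏ i ∈ s, x i) = ∑ i ∈ s, padicValInt l (x i) := by
  classical
  induction s using Finset.induction_on with
  | empty => simp
  | insert a s ha ih =>
    rw [Finset.prod_insert ha, Finset.sum_insert ha,
      padicInt_mul l hl (hx a) (Finset.prod_ne_zero_iff.mpr fun i _ => hx i), ih]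

section

variable {n m k : ℕ} {π : Fin m → PP} {p e : Fin m → ℕ} {r f : Fin k → ℕ}

theorem ev_toN (h : NF n π p e r f) (v : EV m k) : ev p r (toN p r v : ℤ) = v := by
  refine Prod.ext ?_ ?_
  · funext i
    change ((padicValInt (p i) (toN p r v : ℤ) : ℕ) : ZMod 3) = v.1 i
    rw [padicValInt.of_nat, val_p h, ZMod.natCast_zmod_val]
  · funext j
    change ((padicValInt (r j) (toN p r v : ℤ) : ℕ) : ZMod 3) = v.2 j
    rw [padicValInt.of_nat, val_r h, ZMod.natCast_zmod_val]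

theorem ev_prod (h : NF n π p e r f) {s : ℕ} (x : Fin s → ℤ) (hx : ∀ i, x i ≠ 0)
    (g : Fin s → ℕ) : ev p r (∏ i, x i ^ g i) = ∑ i, (g i : ZMod 3) • ev p r (x i) := by
  have key : ∀ l : ℕ, l.Prime → ((padicValInt l (∏ i, x i ^ g i) : ℕ) : ZMod 3) =
      ∑ i, (g i : ZMod 3) * (padicValInt l (x i) : ZMod 3) := by
    intro l hl
    rw [padicInt_prod l hl _ _ fun i => pow_ne_zero _ (hx i), Nat.cast_sum]
    refine Finset.sum_congr rfl fun i _ => ?_
    rw [padicInt_pow l hl (hx i), Nat.cast_mul]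
  refine Prod.ext ?_ ?_
  · rw [Prod.fst_sum]
    funext i
    rw [Finset.sum_apply]
    exact key _ (h.pp i)
  · rw [Prod.snd_sum]
    funext j
    rw [Finset.sum_apply]
    exact key _ (h.rp j)

theorem ev_cube (h : NF n π p e r f) (t : ℤ) (ht : t ≠ 0) : ev p r (t ^ 3) = 0 := by
  have h3 : ((3 : ℕ) : ZMod 3) = 0 := ZMod.natCast_self 3
  refine Prod.ext ?_ ?_
  · funext i
    change ((padicValInt (p i) (t ^ 3) : ℕ) : ZMod 3) = 0
    rw [padicInt_pow _ (h.pp i) ht, Nat.cast_mul, h3, zero_mul]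
  · funext j
    change ((padicValInt (r j) (t ^ 3) : ℕ) : ZMod 3) = 0
    rw [padicInt_pow _ (h.rp j) ht, Nat.cast_mul, h3, zero_mul]

end

end EBAS

open _root_.Pool.Agent.PT.EBAS in
/-- EBAS: basis of the admissible classes. -/
theorem EBAS_thm (hEVEC : EVEC) (hSPP : SPP) : EBAS := by
  intro n m k π p e r f w0 c j0 h hj0 _ hdet
  obtain ⟨S, hS, hmem⟩ := exists_space n π p e r w0 c j0 hj0 hdet
  obtain ⟨b, hb⟩ := exists_basis (Wm p r) S
  obtain ⟨hE1, hE2⟩ := hEVEC n m k π p e r f w0 c h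
  have hB0 : ∀ v : EV m k, (toN p r v : ℤ) ≠ 0 := fun v => by
    exact_mod_cast toN_ne h v
  have hadm : ∀ x : ℤ, x ≠ 0 → ¬ (3 : ℤ) ∣ x → (∀ l : ℕ, l.Prime → (l : ℤ) ∣ x → l ∣ n) →
      (AdmC n π w0 c x ↔ ev p r x ∈ S) := by
    intro x h1 h2 h3
    rw [(hE1 x h1 h2 h3).1, hmem]
    exact Iff.rfl
  refine ⟨Module.finrank (ZMod 3) S, fun i => (toN p r (b i) : ℤ), hS, fun i => ?_,
    fun i π' => ?_, fun g hg => ?_, fun i j hij => ?_, fun x hx => ?_⟩
  · rw [hadm _ (hB0 _) (three_toN h _) (supp_toN h _), ev_toN h]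
    exact (b i).2
  · obtain ⟨l, hl, hle⟩ := V_le hSPP π' (hB0 (b i))
    refine hle.trans ?_
    rw [padicValInt.of_nat]
    exact val_le h _ l hl
  · rintro ⟨t, ht⟩
    have hprod : ∏ i, (toN p r (b i) : ℤ) ^ g i ≠ 0 :=
      Finset.prod_ne_zero_iff.mpr fun i _ => pow_ne_zero _ (hB0 _)
    have ht0 : t ≠ 0 := by
      rintro rfl
      apply hprod
      rw [← ht]
      norm_num
    have h1 := ev_prod h (fun i => (toN p r (b i) : ℤ)) (fun i => hB0 _) g
    rw [← ht, ev_cube h t ht0] at h1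
    simp only [ev_toN h] at h1
    have h2 : ∑ i, (g i : ZMod 3) • b i = 0 := by
      apply Subtype.ext
      rw [AddSubmonoidClass.coe_finsetSum]
      exact h1.symm
    have h3 := Fintype.linearIndependent_iff.mp b.linearIndependent _ h2
    obtain ⟨i, hi⟩ := hg
    exact hi ((ZMod.natCast_eq_zero_iff _ _).mp (h3 i))
  · have h1 : ∀ i, C9 (toN p r (b i) : ℤ) ↔ Wm p r (b i : EV m k) = 0 := by
      intro i
      rw [(hE1 _ (hB0 _) (three_toN h _) (supp_toN h _)).2]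
      change Wm p r (ev p r (toN p r (b i) : ℤ)) = 0 ↔ _
      rw [ev_toN h]
    rcases hb i j hij with h2 | h2
    · exact Or.inl ((h1 i).mpr h2)
    · exact Or.inr ((h1 j).mpr h2)
  · have hxS : ev p r x ∈ S := (hadm x hx.ne hx.three hx.supp).mp hx
    refine ⟨fun i => (b.repr ⟨ev p r x, hxS⟩ i).val, ?_⟩
    rw [hE2 x _ hx.ne (Finset.prod_ne_zero_iff.mpr fun i _ => pow_ne_zero _ (hB0 _)) hx.supp
      (fun l hl hd => ?_)]
    · have h1 := ev_prod h (fun i => (toN p r (b i) : ℤ)) (fun i => hB0 _)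
        (fun i => (b.repr ⟨ev p r x, hxS⟩ i).val)
      simp only [ev_toN h, ZMod.natCast_zmod_val] at h1
      have h2 : ev p r x = ev p r (∏ i, (toN p r (b i) : ℤ) ^
          (b.repr ⟨ev p r x, hxS⟩ i).val) := by
        rw [h1]
        have h3 := congrArg (fun z : S => (z : EV m k)) (b.sum_repr ⟨ev p r x, hxS⟩)
        simp only [AddSubmonoidClass.coe_finsetSum] at h3
        exact h3.symm
      exact ⟨fun i => congrFun (congrArg Prod.fst h2) i, fun j => congrFun (congrArg Prod.snd h2) j⟩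
    · obtain ⟨i, -, hi⟩ := (Nat.prime_iff_prime_int.mp hl).dvd_finsetProd_iff _ |>.mp hd
      exact supp_toN h _ l hl ((Nat.prime_iff_prime_int.mp hl).dvd_of_dvd_pow hi)

end Pool.Agent.PT


end

section

/-!
# Module F5L: the local term of a point at `lam` when `b` is a cube and `x` is not
-/

set_option autoImplicit false

namespace Pool.Agent.PT

open Pool.Agent.Lib_helper18 Pool.Agent.Lib_helper18.Eis Pool.Agent.Lib_helper84.Cub

namespace F5L

theorem three0 (a : ZMod 3) (h : 2 * a = 0) : a = 0 := by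
  revert a; decide

theorem eisInt_ne {n : ℤ} (h : n ≠ 0) : (n : Eis) ≠ 0 := by
  intro h0
  have := congrArg Eis.re h0
  simp at this
  exact h this

/-- the element `g + h w` -/
def E (g h : ℤ) : Eis := (g : Eis) + (h : Eis) * w

theorem E_ne {g h : ℤ} (H : ¬ (g = 0 ∧ h = 0)) : E g h ≠ 0 := by
  intro h0
  apply H
  have h1 := congrArg Eis.re h0
  have h2 := congrArg Eis.im h0
  simp [E] at h1 h2
  exact ⟨h1, h2⟩

theorem E_re (g h : ℤ) : (E g h).re = g := by simp [E]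
theorem E_im (g h : ℤ) : (E g h).im = h := by simp [E]

/-- the symbol of `g + h w` and an integer -/
noncomputable def S (g h N : ℤ) : ZMod 3 := sl (E g h) (N : Eis)

section basic

variable (hS : SSL)
include hS

theorem mulL {a b c : Eis} (ha : a ≠ 0) (hb : b ≠ 0) (hc : c ≠ 0) :
    sl (a * b) c = sl a c + sl b c := hS.1 a b c ha hb hc

theorem skew {a b : Eis} (ha : a ≠ 0) (hb : b ≠ 0) : sl b a = - sl a b := hS.2.1 a b ha hb

theorem mulR {a b c : Eis} (ha : a ≠ 0) (hb : b ≠ 0) (hc : c ≠ 0) :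
    sl a (b * c) = sl a b + sl a c := by
  rw [skew hS (mul_ne_zero hb hc) ha, mulL hS hb hc ha, skew hS ha hb, skew hS ha hc]
  ring

theorem oneL {c : Eis} (hc : c ≠ 0) : sl 1 c = 0 := by
  have h := mulL hS one_ne_zero one_ne_zero hc
  rw [one_mul] at h
  linear_combination -h

theorem negOneL {c : Eis} (hc : c ≠ 0) : sl (-1) c = 0 := by
  have h := mulL hS (neg_ne_zero.2 (one_ne_zero (α := Eis))) (neg_ne_zero.2 one_ne_zero) hc
  rw [neg_one_mul, neg_neg, oneL hS hc] at h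
  exact three0 _ (by linear_combination -h)

theorem negL {a c : Eis} (ha : a ≠ 0) (hc : c ≠ 0) : sl (-a) c = sl a c := by
  rw [← neg_one_mul, mulL hS (neg_ne_zero.2 one_ne_zero) ha hc, negOneL hS hc, zero_add]

theorem negR {a c : Eis} (ha : a ≠ 0) (hc : c ≠ 0) : sl a (-c) = sl a c := by
  rw [skew hS (neg_ne_zero.2 hc) ha, negL hS hc ha, ← skew hS hc ha]

theorem S_mul {g h N M : ℤ} (H : ¬ (g = 0 ∧ h = 0)) (hN : N ≠ 0) (hM : M ≠ 0) :
    S g h (N * M) = S g h N + S g h M := by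
  unfold S
  rw [show ((N * M : ℤ) : Eis) = (N : Eis) * (M : Eis) by push_cast; rfl]
  exact mulR hS (E_ne H) (eisInt_ne hN) (eisInt_ne hM)

theorem S_neg {g h N : ℤ} (H : ¬ (g = 0 ∧ h = 0)) (hN : N ≠ 0) : S g h (-N) = S g h N := by
  unfold S
  rw [show ((-N : ℤ) : Eis) = -(N : Eis) by push_cast; rfl]
  exact negR hS (E_ne H) (eisInt_ne hN)

theorem S_27 {g h N : ℤ} (H : ¬ (g = 0 ∧ h = 0)) (hN : N ≠ 0) :
    S g h (27 * N) = S g h N := by
  have h1 : S g h (3 * (3 * (3 * N))) = S g h 3 + (S g h 3 + (S g h 3 + S g h N)) := by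
    rw [S_mul hS H (by norm_num) (by positivity), S_mul hS H (by norm_num) (by positivity),
      S_mul hS H (by norm_num) hN]
  rw [show 27 * N = 3 * (3 * (3 * N)) by ring, h1]
  have h3 : (3 : ZMod 3) = 0 := rfl
  linear_combination (S g h 3) * h3

end basic

section more

variable (hS : SSL) (hC : SCJ)
include hS hC

omit hS in
theorem int_int {m n : ℤ} (hm : m ≠ 0) (hn : n ≠ 0) : sl (m : Eis) (n : Eis) = 0 :=
  hC.2.2.1 m n hm hn

theorem S_three {g h N : ℤ} (H : ¬ (g = 0 ∧ h = 0)) (hN : N ≠ 0) :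
    S (3 * g) (3 * h) N = S g h N := by
  unfold S
  have h1 : E (3 * g) (3 * h) = ((3 : ℤ) : Eis) * E g h := by
    unfold E; push_cast; ring
  rw [h1, mulL hS (eisInt_ne (by norm_num)) (E_ne H) (eisInt_ne hN),
    int_int hC (by norm_num) hN, zero_add]

end more

section sle

variable (hS : SSL) (hC : SCJ) (hL : SLE)
include hL

theorem S1 {g h N : ℤ} (hg : ¬ (3 : ℤ) ∣ g) (hh : (3 : ℤ) ∣ h) (hN : ¬ (3 : ℤ) ∣ N) :
    S g h N = 0 := by
  have := (hL g h N 0 hN).1 hg hh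
  simpa [S, E] using this

theorem S1' {g h N : ℤ} (hg : ¬ (3 : ℤ) ∣ g) (hh : (3 : ℤ) ∣ h) (hN : ¬ (3 : ℤ) ∣ N) :
    S g h (3 * N) = ((g * (h / 3) : ℤ) : ZMod 3) := by
  have := (hL g h N 1 hN).1 hg hh
  simpa [S, E] using this

theorem S2 {g h N : ℤ} (hg : (3 : ℤ) ∣ g) (hh : ¬ (3 : ℤ) ∣ h) (hN : ¬ (3 : ℤ) ∣ N) :
    S g h N = - wt (N ^ 2) := by
  have := (hL g h N 0 hN).2.1 hg hh
  simpa [S, E] using this

theorem S2' {g h N : ℤ} (hg : (3 : ℤ) ∣ g) (hh : ¬ (3 : ℤ) ∣ h) (hN : ¬ (3 : ℤ) ∣ N) :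
    S g h (3 * N) = - wt (N ^ 2) - ((h * (g / 3) : ℤ) : ZMod 3) := by
  have := (hL g h N 1 hN).2.1 hg hh
  simpa [S, E] using this

theorem S3 {g h N : ℤ} (hh : ¬ (3 : ℤ) ∣ h) (hg : (3 : ℤ) ∣ g - h) (hN : ¬ (3 : ℤ) ∣ N) :
    S g h N = wt (N ^ 2) := by
  have := (hL g h N 0 hN).2.2 hh hg
  simpa [S, E] using this

theorem S3' {g h N : ℤ} (hh : ¬ (3 : ℤ) ∣ h) (hg : (3 : ℤ) ∣ g - h) (hN : ¬ (3 : ℤ) ∣ N) :
    S g h (3 * N) = wt (N ^ 2) - ((h * ((g - h) / 3) : ℤ) : ZMod 3) := by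
  have := (hL g h N 1 hN).2.2 hh hg
  simpa [S, E] using this

end sle

/-! ### arithmetic modulo 9 -/

theorem cast_mul3 (a : ℤ) : (3 : ℤ) ∣ a ↔ 3 * (a : ZMod 9) = 0 := by
  constructor
  · rintro ⟨k, rfl⟩
    push_cast
    rw [← mul_assoc, show (3 * 3 : ZMod 9) = 0 from rfl, zero_mul]
  · intro h
    have h1 : ((3 * a : ℤ) : ZMod 9) = 0 := by push_cast; exact h
    rw [ZMod.intCast_zmod_eq_zero_iff_dvd] at h1
    obtain ⟨k, hk⟩ := h1
    exact ⟨k, by push_cast at hk; omega⟩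

theorem wt_congr {a b : ℤ} (h : (a : ZMod 9) = b) : wt a = wt b := by
  rw [ZMod.intCast_eq_intCast_iff_dvd_sub] at h
  obtain ⟨k, hk⟩ := h
  have h1 : (b - 1) / 3 = (a - 1) / 3 + 3 * k := by push_cast at hk; omega
  unfold wt
  rw [h1]
  push_cast
  have h3 : (3 : ZMod 3) = 0 := rfl
  rw [h3]; ring

theorem wt_sq_congr {a b : ℤ} (h : (a : ZMod 9) = b ∨ (a : ZMod 9) = -b) :
    wt (a ^ 2) = wt (b ^ 2) := by
  apply wt_congr
  push_cast
  rcases h with h | h <;> rw [h] <;> ring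

theorem wt_one_of {N : ℤ} (h : (N : ZMod 9) = 1 ∨ (N : ZMod 9) = -1) : wt (N ^ 2) = 0 := by
  have h1 : wt (N ^ 2) = wt ((1 : ℤ) ^ 2) := wt_sq_congr (by simpa using h)
  rw [h1]
  simp [wt]

theorem ndvd_of_unit {N : ℤ} (h : (N : ZMod 9) = 1 ∨ (N : ZMod 9) = -1) : ¬ (3 : ℤ) ∣ N := by
  rw [cast_mul3]
  rcases h with h | h <;> rw [h] <;> decide

section zero

variable (hS : SSL) (hC : SCJ) (hL : SLE)
include hS hC hL

theorem lam_zero {N : ℤ} (h : (N : ZMod 9) = 1 ∨ (N : ZMod 9) = -1) : sl lam (N : Eis) = 0 := by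
  have hN3 := ndvd_of_unit h
  have hN : N ≠ 0 := fun h0 => hN3 (h0 ▸ dvd_zero _)
  have hNE := eisInt_ne hN
  have hw : w ≠ 0 := fun h0 => by
    have := congrArg Eis.im h0
    simp at this
  have hl : lam ≠ 0 := fun h0 => by
    have := congrArg Eis.re h0
    simp at this
  have h1 : sl w (N : Eis) = 0 := by
    have h2 := S2 hL (g := 0) (h := 1) (N := N) (dvd_zero _) (by decide) hN3
    rw [wt_one_of h] at h2
    simpa [S, E] using h2
  have h3 : sl ((3 : ℤ) : Eis) (N : Eis) = 0 := int_int hC (by norm_num) hN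
  have h4 : ((3 : ℤ) : Eis) = (-1) * (w * (w * (lam * lam))) := rfl
  rw [h4, mulL hS (neg_ne_zero.2 one_ne_zero)
    (mul_ne_zero hw (mul_ne_zero hw (mul_ne_zero hl hl))) hNE,
    mulL hS hw (mul_ne_zero hw (mul_ne_zero hl hl)) hNE,
    mulL hS hw (mul_ne_zero hl hl) hNE, mulL hS hl hl hNE, negOneL hS hNE, h1] at h3
  exact three0 _ (by linear_combination h3)

theorem S_zero_aux {N : ℤ} (hN9 : (N : ZMod 9) = 1 ∨ (N : ZMod 9) = -1) :
    ∀ (n : ℕ) (g h : ℤ), ¬ (g = 0 ∧ h = 0) → g ^ 2 - g * h + h ^ 2 < n → S g h N = 0 := by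
  have hN3 := ndvd_of_unit hN9
  have hN : N ≠ 0 := fun h0 => hN3 (h0 ▸ dvd_zero _)
  have hNE := eisInt_ne hN
  intro n
  induction n with
  | zero =>
    intro g h _ hlt
    exfalso
    push_cast at hlt
    nlinarith [sq_nonneg (g - h), sq_nonneg g, sq_nonneg h]
  | succ n ih =>
    intro g h H hlt
    have hpos : 0 < g ^ 2 - g * h + h ^ 2 := by
      by_cases hg : g = 0
      · have hh : h ≠ 0 := fun hh => H ⟨hg, hh⟩
        subst hg
        have : 0 < h ^ 2 := by positivity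
        linarith
      · have : 0 < g ^ 2 := by positivity
        nlinarith [sq_nonneg (g - 2 * h)]
    push_cast at hlt
    by_cases hg : (3 : ℤ) ∣ g
    · by_cases hh : (3 : ℤ) ∣ h
      · obtain ⟨g', rfl⟩ := hg
        obtain ⟨h', rfl⟩ := hh
        have H' : ¬ (g' = 0 ∧ h' = 0) := by
          rintro ⟨rfl, rfl⟩
          exact H ⟨by ring, by ring⟩
        rw [S_three hS hC H' hN]
        refine ih g' h' H' ?_
        nlinarith
      · rw [S2 hL hg hh hN3, wt_one_of hN9, neg_zero]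
    · by_cases hh : (3 : ℤ) ∣ h
      · exact S1 hL hg hh hN3
      · by_cases hgh : (3 : ℤ) ∣ g - h
        · rw [S3 hL hh hgh hN3, wt_one_of hN9]
        · have hs : (3 : ℤ) ∣ g + h := by
            rcases (by omega : g % 3 = 1 ∨ g % 3 = 2) with h1 | h1 <;>
              rcases (by omega : h % 3 = 1 ∨ h % 3 = 2) with h2 | h2 <;> omega
          obtain ⟨b, hb⟩ := hs
          obtain ⟨a, ha⟩ : ∃ a, g = a + b := ⟨g - b, by ring⟩
          have hh' : h = 2 * b - a := by omega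
          subst ha hh'
          have H' : ¬ (a = 0 ∧ b = 0) := by
            rintro ⟨rfl, rfl⟩
            exact H ⟨by ring, by ring⟩
          have h1 : E (a + b) (2 * b - a) = lam * E a b := by
            ext
            · rw [E_re, mul_re, E_re, E_im, lam_re, lam_im]; ring
            · rw [E_im, mul_im, E_re, E_im, lam_re, lam_im]; ring
          have hl : lam ≠ 0 := fun h0 => by
            have := congrArg Eis.re h0
            simp at this
          have h2 : S (a + b) (2 * b - a) N = sl lam (N : Eis) + S a b N := by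
            unfold S
            rw [h1]
            exact mulL hS hl (E_ne H') hNE
          rw [h2, lam_zero hS hC hL hN9, zero_add]
          refine ih a b H' ?_
          nlinarith

theorem S_zero {g h N : ℤ} (H : ¬ (g = 0 ∧ h = 0))
    (hN9 : (N : ZMod 9) = 1 ∨ (N : ZMod 9) = -1) : S g h N = 0 :=
  S_zero_aux hS hC hL hN9 ((g ^ 2 - g * h + h ^ 2).toNat + 1) g h H (by
    push_cast
    have := Int.self_le_toNat (g ^ 2 - g * h + h ^ 2)
    linarith)

theorem S_congr {g h N M : ℤ} (H : ¬ (g = 0 ∧ h = 0)) (hM : ¬ (3 : ℤ) ∣ M)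
    (hNM : (N : ZMod 9) = M ∨ (N : ZMod 9) = -M) : S g h N = S g h M := by
  have hM0 : M ≠ 0 := fun h0 => hM (h0 ▸ dvd_zero _)
  have hM9 : 3 * (M : ZMod 9) ≠ 0 := fun h0 => hM ((cast_mul3 M).2 h0)
  have hN3 : ¬ (3 : ℤ) ∣ N := by
    intro h0
    rw [cast_mul3] at h0
    rcases hNM with h1 | h1
    · rw [h1] at h0; exact hM9 h0
    · rw [h1] at h0; apply hM9; linear_combination -h0
  have hN0 : N ≠ 0 := fun h0 => hN3 (h0 ▸ dvd_zero _)
  have hcube : ∀ m : ZMod 9, 3 * m ≠ 0 → m * m ^ 2 = 1 ∨ m * m ^ 2 = -1 := by decide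
  have h1 : S g h (N * (M * M)) = 0 := by
    apply S_zero hS hC hL H
    push_cast
    rcases hcube _ hM9 with h2 | h2 <;> rcases hNM with h3 | h3 <;> rw [h3]
    · left; linear_combination h2
    · right; linear_combination -h2
    · right; linear_combination h2
    · left; linear_combination -h2
  rw [S_mul hS H hN0 (mul_ne_zero hM0 hM0), S_mul hS H hM0 hM0] at h1
  have h3 : (3 : ZMod 3) = 0 := rfl
  linear_combination h1 - (S g h M) * h3

end zero

/-! ### the primitive case -/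

theorem dvd_cast {a : ℤ} : (3 : ℤ) ∣ a ↔ (a : ZMod 3) = 0 := by
  rw [ZMod.intCast_zmod_eq_zero_iff_dvd]; norm_num

/-- the constants of a point -/
structure Cst (x X Y : ℤ) (δ c0 c1 : ZMod 3) : Prop where
  k0 : ∀ u v N : ℤ, ¬ ((3 : ℤ) ∣ u ∧ (3 : ℤ) ∣ v) → v ^ 3 - x * u ^ 3 = N → ¬ (3 : ℤ) ∣ N →
    S (X * u) (v * Y) N - S (X * u) (v * Y) (X ^ 3 + x * Y ^ 3) = δ * wt (N ^ 2) + c0
  k1 : ∀ u v N : ℤ, ¬ ((3 : ℤ) ∣ u ∧ (3 : ℤ) ∣ v) → v ^ 3 - x * u ^ 3 = 3 * N → ¬ (3 : ℤ) ∣ N →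
    S (X * u) (v * Y) (3 * N) - S (X * u) (v * Y) (X ^ 3 + x * Y ^ 3) = δ * wt (N ^ 2) + c1

theorem hne {X Y u v : ℤ} (hX : X ≠ 0) (hY : Y ≠ 0) (huv : ¬ ((3 : ℤ) ∣ u ∧ (3 : ℤ) ∣ v)) :
    ¬ (X * u = 0 ∧ v * Y = 0) := by
  rintro ⟨h1, h2⟩
  have hu : u = 0 := (mul_eq_zero.1 h1).resolve_left hX
  have hv : v = 0 := (mul_eq_zero.1 h2).resolve_right hY
  exact huv ⟨hu ▸ dvd_zero _, hv ▸ dvd_zero _⟩

theorem nd9 {a : ℤ} (h : ¬ (3 : ℤ) ∣ a) : 3 * (a : ZMod 9) ≠ 0 := fun h0 => h ((cast_mul3 a).2 h0)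

theorem nd3 {a : ℤ} (h : ¬ (3 : ℤ) ∣ a) : (a : ZMod 3) ≠ 0 := fun h0 => h (dvd_cast.2 h0)

theorem ndmul {a b : ℤ} (ha : ¬ (3 : ℤ) ∣ a) (hb : ¬ (3 : ℤ) ∣ b) : ¬ (3 : ℤ) ∣ a * b :=
  fun h => (Int.prime_three.dvd_or_dvd h).elim ha hb

/-- in the case `k = 1` both `u` and `v` are units and `v = x u` modulo `3` -/
theorem k1_units {x u v N : ℤ} (hx : ¬ (3 : ℤ) ∣ x) (huv : ¬ ((3 : ℤ) ∣ u ∧ (3 : ℤ) ∣ v))
    (hN : v ^ 3 - x * u ^ 3 = 3 * N) :
    ¬ (3 : ℤ) ∣ u ∧ ¬ (3 : ℤ) ∣ v ∧ (v : ZMod 3) = x * u := by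
  have h1 : (v : ZMod 3) ^ 3 - x * (u : ZMod 3) ^ 3 = 0 := by
    have := congrArg (fun n : ℤ => (n : ZMod 3)) hN
    push_cast at this
    rw [this, show (3 : ZMod 3) = 0 from rfl, zero_mul]
  rw [dvd_cast, dvd_cast] at huv
  rw [dvd_cast, dvd_cast]
  rw [dvd_cast] at hx
  generalize (v : ZMod 3) = a at *
  generalize (x : ZMod 3) = b at *
  generalize (u : ZMod 3) = c at *
  revert a b c
  decide

theorem sq_one {a : ZMod 3} (h : a ≠ 0) : a ^ 2 = 1 := by revert a; decide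

section prim

variable (hS : SSL) (hC : SCJ) (hL : SLE)
include hS hC hL

theorem cstA {x X Y1 : ℤ} (hx : ¬ (3 : ℤ) ∣ x) (hX3 : ¬ (3 : ℤ) ∣ X) (hY : Y1 ≠ 0) :
    Cst x X (3 * Y1) 0 0 ((X * x * Y1 : ℤ) : ZMod 3) := by
  have hX : X ≠ 0 := fun h => hX3 (h ▸ dvd_zero _)
  have hY' : 3 * Y1 ≠ 0 := by positivity
  have c1 : ∀ a : ZMod 9, 3 * a ≠ 0 → a ^ 3 = 1 ∨ a ^ 3 = -1 := by decide
  have hn0 : (((X ^ 3 + x * (3 * Y1) ^ 3 : ℤ)) : ZMod 9) = 1 ∨
      (((X ^ 3 + x * (3 * Y1) ^ 3 : ℤ)) : ZMod 9) = -1 := by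
    have h1 : (((X ^ 3 + x * (3 * Y1) ^ 3 : ℤ)) : ZMod 9) = (X : ZMod 9) ^ 3 := by
      push_cast
      have h9 : (9 : ZMod 9) = 0 := rfl
      linear_combination (3 * (x : ZMod 9) * (Y1 : ZMod 9) ^ 3) * h9
    rw [h1]
    exact c1 _ (nd9 hX3)
  refine ⟨fun u v N huv hN hN3 => ?_, fun u v N huv hN hN3 => ?_⟩
  · have H := hne hX hY' huv
    rw [S_zero hS hC hL H hn0]
    have h0 : S (X * u) (v * (3 * Y1)) N = 0 := by
      by_cases hu : (3 : ℤ) ∣ u
      · apply S_zero hS hC hL H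
        have hv : ¬ (3 : ℤ) ∣ v := fun h => huv ⟨hu, h⟩
        obtain ⟨u1, rfl⟩ := hu
        have h1 : (N : ZMod 9) = (v : ZMod 9) ^ 3 := by
          rw [← hN]
          push_cast
          have h9 : (9 : ZMod 9) = 0 := rfl
          linear_combination (-3 * (x : ZMod 9) * (u1 : ZMod 9) ^ 3) * h9
        rw [h1]
        exact c1 _ (nd9 hv)
      · exact S1 hL (ndmul hX3 hu) ⟨v * Y1, by ring⟩ hN3
    rw [h0]; ring
  · have H := hne hX hY' huv
    obtain ⟨hu, hv, hvx⟩ := k1_units hx huv hN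
    rw [S_zero hS hC hL H hn0, S1' hL (ndmul hX3 hu) ⟨v * Y1, by ring⟩ hN3,
      show v * (3 * Y1) = 3 * (v * Y1) by ring, Int.mul_ediv_cancel_left _ (by norm_num)]
    push_cast
    rw [hvx]
    have hu2 := sq_one (nd3 hu)
    linear_combination ((X : ZMod 3) * x * Y1) * hu2

theorem cstA' {x X1 Y : ℤ} (hx : ¬ (3 : ℤ) ∣ x) (hX : X1 ≠ 0) (hY3 : ¬ (3 : ℤ) ∣ Y) :
    Cst x (3 * X1) Y (-1) (wt (x ^ 2)) (wt (x ^ 2) - ((x * Y * X1 : ℤ) : ZMod 3)) := by
  have hY : Y ≠ 0 := fun h => hY3 (h ▸ dvd_zero _)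
  have hX' : 3 * X1 ≠ 0 := by positivity
  have c1 : ∀ a : ZMod 9, 3 * a ≠ 0 → a ^ 3 = 1 ∨ a ^ 3 = -1 := by decide
  have hn0 : ((((3 * X1) ^ 3 + x * Y ^ 3 : ℤ)) : ZMod 9) = x ∨
      ((((3 * X1) ^ 3 + x * Y ^ 3 : ℤ)) : ZMod 9) = -x := by
    have h1 : ((((3 * X1) ^ 3 + x * Y ^ 3 : ℤ)) : ZMod 9) = x * (Y : ZMod 9) ^ 3 := by
      push_cast
      have h9 : (9 : ZMod 9) = 0 := rfl
      linear_combination (3 * (X1 : ZMod 9) ^ 3) * h9
    rw [h1]
    rcases c1 _ (nd9 hY3) with h | h <;> rw [h] <;> simp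
  have hn3 : ¬ (3 : ℤ) ∣ (3 * X1) ^ 3 + x * Y ^ 3 := by
    intro h
    rw [cast_mul3] at h
    have := nd9 hx
    rcases hn0 with h1 | h1 <;> rw [h1] at h
    · exact this h
    · exact this (by linear_combination -h)
  refine ⟨fun u v N huv hN hN3 => ?_, fun u v N huv hN hN3 => ?_⟩
  · have H := hne hX' hY huv
    by_cases hv : (3 : ℤ) ∣ v
    · have hu : ¬ (3 : ℤ) ∣ u := fun h => huv ⟨h, hv⟩
      have hNx : (N : ZMod 9) = x ∨ (N : ZMod 9) = -x := by
        obtain ⟨v1, rfl⟩ := hv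
        have h1 : (N : ZMod 9) = -(x * (u : ZMod 9) ^ 3) := by
          rw [← hN]
          push_cast
          have h9 : (9 : ZMod 9) = 0 := rfl
          linear_combination (3 * (v1 : ZMod 9) ^ 3) * h9
        rw [h1]
        rcases c1 _ (nd9 hu) with h | h <;> rw [h] <;> simp
      rw [S_congr hS hC hL H hx hNx, S_congr hS hC hL H hx hn0, wt_sq_congr hNx]
      ring
    · have hg : (3 : ℤ) ∣ 3 * X1 * u := ⟨X1 * u, by ring⟩
      rw [S2 hL hg (ndmul hv hY3) hN3, S2 hL hg (ndmul hv hY3) hn3, wt_sq_congr hn0]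
      ring
  · obtain ⟨hu, hv, hvx⟩ := k1_units hx huv hN
    have hg : (3 : ℤ) ∣ 3 * X1 * u := ⟨X1 * u, by ring⟩
    rw [S2' hL hg (ndmul hv hY3) hN3, S2 hL hg (ndmul hv hY3) hn3, wt_sq_congr hn0,
      show 3 * X1 * u = 3 * (X1 * u) by ring, Int.mul_ediv_cancel_left _ (by norm_num)]
    push_cast
    rw [hvx]
    have hu2 := sq_one (nd3 hu)
    linear_combination (-(X1 : ZMod 3) * x * Y) * hu2

omit hS hC in
/-- the value in the case `k = 1`, `X = x Y` modulo `3` -/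
theorem valB {x X Y s y Z u v N : ℤ} (hx : ¬ (3 : ℤ) ∣ x) (hY3 : ¬ (3 : ℤ) ∣ Y)
    (hXs : X = x * Y + 3 * s) (hy : x ^ 2 = 1 + 3 * y) (hZ : (x * y) ^ 2 = 1 + 3 * Z)
    (huv : ¬ ((3 : ℤ) ∣ u ∧ (3 : ℤ) ∣ v)) (hN : v ^ 3 - x * u ^ 3 = 3 * N)
    (hN3 : ¬ (3 : ℤ) ∣ N) : ∃ t : ZMod 3,
    S (X * u) (v * Y) (3 * N) = wt (N ^ 2) - x * Y * s + x * u * t ∧
    wt (N ^ 2) = Z + 2 * x * y * u * t ∧
    (∀ M : ℤ, ¬ (3 : ℤ) ∣ M → S (X * u) (v * Y) M = wt (M ^ 2)) := by
  obtain ⟨hu, hv, hvx⟩ := k1_units hx huv hN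
  obtain ⟨t, ht⟩ : ∃ t, v = x * u + 3 * t := by
    have h1 : (3 : ℤ) ∣ v - x * u := by
      rw [dvd_cast]; push_cast; rw [hvx]; ring
    obtain ⟨t, ht⟩ := h1
    exact ⟨t, by linarith⟩
  obtain ⟨r, hr⟩ : ∃ r, u ^ 2 = 1 + 3 * r := by
    have h1 : (3 : ℤ) ∣ u ^ 2 - 1 := by
      rw [dvd_cast]; push_cast; rw [sq_one (nd3 hu)]; ring
    obtain ⟨r, hr⟩ := h1
    exact ⟨r, by linarith⟩
  have hh3 : ¬ (3 : ℤ) ∣ v * Y := ndmul hv hY3
  have hgh : (3 : ℤ) ∣ X * u - v * Y := ⟨s * u - t * Y, by rw [hXs, ht]; ring⟩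
  have hNval : N = x * y * u ^ 3 + 3 * x ^ 2 * u ^ 2 * t + 9 * (x * u * t ^ 2 + t ^ 3) := by
    have h1 : 3 * N = 3 * (x * y * u ^ 3 + 3 * x ^ 2 * u ^ 2 * t + 9 * (x * u * t ^ 2 + t ^ 3)) := by
      rw [← hN, ht]
      linear_combination (x * u ^ 3) * hy
    linarith
  have hW : N ^ 2 = 1 + 3 * (Z + 3 * ((1 + 3 * Z) * (r + 3 * r ^ 2 + 3 * r ^ 3))
      + 2 * x ^ 3 * y * u ^ 5 * t + 3 * (x ^ 4 * u ^ 4 * t ^ 2
      + 2 * (x * y * u ^ 3) * (x * u * t ^ 2 + t ^ 3)
      + 6 * (x ^ 2 * u ^ 2 * t) * (x * u * t ^ 2 + t ^ 3)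
      + 9 * (x * u * t ^ 2 + t ^ 3) ^ 2)) := by
    have h6 : u ^ 6 = 1 + 9 * (r + 3 * r ^ 2 + 3 * r ^ 3) := by
      have : u ^ 6 = (u ^ 2) ^ 3 := by ring
      rw [this, hr]; ring
    rw [hNval]
    linear_combination (u ^ 6) * hZ + (1 + 3 * Z) * h6
  refine ⟨(t : ZMod 3), ?_, ?_, fun M hM => S3 hL hh3 hgh hM⟩
  · rw [S3' hL hh3 hgh hN3]
    have h1 : (X * u - v * Y) / 3 = s * u - t * Y := by
      rw [show X * u - v * Y = 3 * (s * u - t * Y) by rw [hXs, ht]; ring,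
        Int.mul_ediv_cancel_left _ (by norm_num)]
    rw [h1]
    push_cast
    rw [hvx]
    have hu2 := sq_one (nd3 hu)
    have hY2 := sq_one (nd3 hY3)
    linear_combination (-(x : ZMod 3) * Y * s) * hu2 + ((x : ZMod 3) * u * t) * hY2
  · rw [wt_eq hW]
    push_cast
    have h3 : (3 : ZMod 3) = 0 := rfl
    have hx3 : (x : ZMod 3) ^ 3 = x := by
      generalize (x : ZMod 3) = a; revert a; decide
    have hu5 : (u : ZMod 3) ^ 5 = u := by
      generalize (u : ZMod 3) = a; revert a; decide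
    rw [h3, hx3, hu5]
    ring

theorem cstB {x X Y s y Z : ℤ} (hx : ¬ (3 : ℤ) ∣ x) (hY3 : ¬ (3 : ℤ) ∣ Y) (hX3 : ¬ (3 : ℤ) ∣ X)
    (hXs : X = x * Y + 3 * s) (hy : x ^ 2 = 1 + 3 * y) (hZ : (x * y) ^ 2 = 1 + 3 * Z)
    (hx9 : (x : ZMod 9) = 2 ∨ (x : ZMod 9) = 7) :
    Cst x X Y 0 0 ((Z - x * Y * s : ℤ) : ZMod 3) := by
  have hX : X ≠ 0 := fun h => hX3 (h ▸ dvd_zero _)
  have hY : Y ≠ 0 := fun h => hY3 (h ▸ dvd_zero _)
  have hn0 : (((X ^ 3 + x * Y ^ 3 : ℤ)) : ZMod 9) = 1 ∨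
      (((X ^ 3 + x * Y ^ 3 : ℤ)) : ZMod 9) = -1 := by
    rw [hXs]
    push_cast
    have c1 : ∀ a b c : ZMod 9, (a = 2 ∨ a = 7) → 3 * b ≠ 0 →
        (a * b + 3 * c) ^ 3 + a * b ^ 3 = 1 ∨ (a * b + 3 * c) ^ 3 + a * b ^ 3 = -1 := by decide
    exact c1 _ _ _ hx9 (nd9 hY3)
  have hy1 : (y : ZMod 3) = 1 := by
    have h1 : (3 : ℤ) ∣ y - 1 := by
      rw [cast_mul3]
      have h2 := congrArg (fun n : ℤ => (n : ZMod 9)) hy
      push_cast at h2 ⊢
      have h3 : (x : ZMod 9) ^ 2 = 4 := by rcases hx9 with h | h <;> rw [h] <;> rfl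
      linear_combination -h2 + h3
    rw [dvd_cast] at h1
    push_cast at h1
    linear_combination h1
  refine ⟨fun u v N huv hN hN3 => ?_, fun u v N huv hN hN3 => ?_⟩
  · have H := hne hX hY huv
    rw [S_zero hS hC hL H hn0]
    have h0 : S (X * u) (v * Y) N = 0 := by
      by_cases hv : (3 : ℤ) ∣ v
      · have hu : ¬ (3 : ℤ) ∣ u := fun h => huv ⟨h, hv⟩
        exact S1 hL (ndmul hX3 hu) (Dvd.dvd.mul_right hv _) hN3
      · apply S_zero hS hC hL H
        have c1 : ∀ a b c : ZMod 9, (a = 2 ∨ a = 7) → 3 * c ≠ 0 → 3 * (c ^ 3 - a * b ^ 3) ≠ 0 →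
          c ^ 3 - a * b ^ 3 = 1 ∨ c ^ 3 - a * b ^ 3 = -1 := by decide
        have h1 := nd9 hN3
        rw [← hN] at h1 ⊢
        push_cast at h1 ⊢
        exact c1 _ _ _ hx9 (nd9 hv) h1
    rw [h0]; ring
  · have H := hne hX hY huv
    obtain ⟨t, h1, h2, -⟩ := valB hL hx hY3 hXs hy hZ huv hN hN3
    rw [S_zero hS hC hL H hn0, h1, h2, hy1]
    push_cast
    have h3 : (3 : ZMod 3) = 0 := rfl
    linear_combination ((x : ZMod 3) * u * t) * h3

theorem cstB' {x X Y s y Z : ℤ} (hx : ¬ (3 : ℤ) ∣ x) (hY3 : ¬ (3 : ℤ) ∣ Y) (hX3 : ¬ (3 : ℤ) ∣ X)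
    (hXs : X = x * Y + 3 * s) (hy : x ^ 2 = 1 + 3 * y) (hZ : (x * y) ^ 2 = 1 + 3 * Z)
    (hx9 : (x : ZMod 9) = 4 ∨ (x : ZMod 9) = 5) :
    Cst x X Y (-1) (wt (x ^ 2)) ((2 * Z - x * Y * s : ℤ) - wt (x ^ 2)) := by
  have hX : X ≠ 0 := fun h => hX3 (h ▸ dvd_zero _)
  have hY : Y ≠ 0 := fun h => hY3 (h ▸ dvd_zero _)
  have hn0 : (((X ^ 3 + x * Y ^ 3 : ℤ)) : ZMod 9) = x ∨
      (((X ^ 3 + x * Y ^ 3 : ℤ)) : ZMod 9) = -x := by
    rw [hXs]
    push_cast
    have c1 : ∀ a b c : ZMod 9, (a = 4 ∨ a = 5) → 3 * b ≠ 0 →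
        (a * b + 3 * c) ^ 3 + a * b ^ 3 = a ∨ (a * b + 3 * c) ^ 3 + a * b ^ 3 = -a := by decide
    exact c1 _ _ _ hx9 (nd9 hY3)
  have hn3 : ¬ (3 : ℤ) ∣ X ^ 3 + x * Y ^ 3 := by
    intro h
    rw [cast_mul3] at h
    have := nd9 hx
    rcases hn0 with h1 | h1 <;> rw [h1] at h
    · exact this h
    · exact this (by linear_combination -h)
  have hy1 : (y : ZMod 3) = 2 := by
    have h1 : (3 : ℤ) ∣ y - 2 := by
      rw [cast_mul3]
      have h2 := congrArg (fun n : ℤ => (n : ZMod 9)) hy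
      push_cast at h2 ⊢
      have h3 : (x : ZMod 9) ^ 2 = 7 := by rcases hx9 with h | h <;> rw [h] <;> rfl
      linear_combination -h2 + h3
    rw [dvd_cast] at h1
    push_cast at h1
    linear_combination h1
  refine ⟨fun u v N huv hN hN3 => ?_, fun u v N huv hN hN3 => ?_⟩
  · have H := hne hX hY huv
    by_cases hu : (3 : ℤ) ∣ u
    · have hv : ¬ (3 : ℤ) ∣ v := fun h => huv ⟨hu, h⟩
      have hg : (3 : ℤ) ∣ X * u := Dvd.dvd.mul_left hu _
      rw [S2 hL hg (ndmul hv hY3) hN3, S2 hL hg (ndmul hv hY3) hn3, wt_sq_congr hn0]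
      ring
    · have hNx : (N : ZMod 9) = x ∨ (N : ZMod 9) = -x := by
        have c1 : ∀ a b c : ZMod 9, (a = 4 ∨ a = 5) → 3 * b ≠ 0 → 3 * (c ^ 3 - a * b ^ 3) ≠ 0 →
          c ^ 3 - a * b ^ 3 = a ∨ c ^ 3 - a * b ^ 3 = -a := by decide
        have h1 := nd9 hN3
        rw [← hN] at h1 ⊢
        push_cast at h1 ⊢
        exact c1 _ _ _ hx9 (nd9 hu) h1
      rw [S_congr hS hC hL H hx hNx, S_congr hS hC hL H hx hn0, wt_sq_congr hNx]
      ring
  · obtain ⟨t, h1, h2, h4⟩ := valB hL hx hY3 hXs hy hZ huv hN hN3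
    rw [h4 _ hn3, wt_sq_congr hn0, h1, h2, hy1]
    push_cast
    have h3 : (3 : ZMod 3) = 0 := rfl
    linear_combination (3 * (x : ZMod 3) * u * t) * h3

theorem exists_cst {x X Y : ℤ} (hx : ¬ (3 : ℤ) ∣ x) (hx9 : ¬ C9 x) (hX : X ≠ 0) (hY : Y ≠ 0)
    (hXY : ¬ ((3 : ℤ) ∣ X ∧ (3 : ℤ) ∣ Y)) (hn : ¬ (3 : ℤ) ∣ X ^ 3 + x * Y ^ 3) :
    ∃ δ c0 c1, Cst x X Y δ c0 c1 := by
  by_cases hY3 : (3 : ℤ) ∣ Y
  · obtain ⟨Y1, rfl⟩ := hY3
    have hX3 : ¬ (3 : ℤ) ∣ X := fun h => hXY ⟨h, Dvd.intro _ rfl⟩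
    exact ⟨_, _, _, cstA hS hC hL hx hX3 (by rintro rfl; exact hY (by ring))⟩
  · by_cases hX3 : (3 : ℤ) ∣ X
    · obtain ⟨X1, rfl⟩ := hX3
      exact ⟨_, _, _, cstA' hS hC hL hx (by rintro rfl; exact hX (by ring)) hY3⟩
    · have h1 : (3 : ℤ) ∣ X - x * Y := by
        rw [dvd_cast] at hn hx hX3 hY3 ⊢
        push_cast at hn ⊢
        generalize (X : ZMod 3) = a at *
        generalize (x : ZMod 3) = b at *
        generalize (Y : ZMod 3) = c at *
        revert a b c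
        decide
      obtain ⟨s, hs⟩ := h1
      have hXs : X = x * Y + 3 * s := by linarith
      obtain ⟨y, hy⟩ : ∃ y, x ^ 2 = 1 + 3 * y := by
        have h1 : (3 : ℤ) ∣ x ^ 2 - 1 := by
          rw [dvd_cast]; push_cast; rw [sq_one (nd3 hx)]; ring
        obtain ⟨r, hr⟩ := h1
        exact ⟨r, by linarith⟩
      have hx9' : (x : ZMod 9) ≠ 1 ∧ (x : ZMod 9) ≠ 8 := by
        unfold C9 at hx9
        push Not at hx9
        constructor
        · intro h
          have h2 : ((x - 1 : ℤ) : ZMod 9) = 0 := by push_cast; rw [h]; ring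
          rw [ZMod.intCast_zmod_eq_zero_iff_dvd] at h2
          apply hx9.1
          push_cast at h2
          omega
        · intro h
          have h2 : ((x - 8 : ℤ) : ZMod 9) = 0 := by push_cast; rw [h]; ring
          rw [ZMod.intCast_zmod_eq_zero_iff_dvd] at h2
          apply hx9.2
          push_cast at h2
          omega
      have hxc : ((x : ZMod 9) = 2 ∨ (x : ZMod 9) = 7) ∨ ((x : ZMod 9) = 4 ∨ (x : ZMod 9) = 5) := by
        have h3 := nd9 hx
        generalize (x : ZMod 9) = a at *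
        revert a
        decide
      have hy3 : ¬ (3 : ℤ) ∣ y := by
        intro h
        rw [cast_mul3] at h
        have h2 := congrArg (fun n : ℤ => (n : ZMod 9)) hy
        push_cast at h2
        rw [h, add_zero] at h2
        have h3 := nd9 hx
        rcases hxc with (h4 | h4) | (h4 | h4) <;> rw [h4] at h2 <;> revert h2 <;> decide
      obtain ⟨Z, hZ⟩ : ∃ Z, (x * y) ^ 2 = 1 + 3 * Z := by
        have h1 : (3 : ℤ) ∣ (x * y) ^ 2 - 1 := by
          rw [dvd_cast]; push_cast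
          have := sq_one (nd3 (ndmul hx hy3))
          push_cast at this
          rw [this]; ring
        obtain ⟨r, hr⟩ := h1
        exact ⟨r, by linarith⟩
      rcases hxc with h4 | h4
      · exact ⟨_, _, _, cstB hS hC hL hx hY3 hX3 hXs hy hZ h4⟩
      · exact ⟨_, _, _, cstB' hS hC hL hx hY3 hX3 hXs hy hZ h4⟩

omit hL in
theorem claim {x X Y : ℤ} {δ c0 c1 : ZMod 3} (hx : ¬ (3 : ℤ) ∣ x) (hx9 : ¬ C9 x) (hX : X ≠ 0)
    (hY : Y ≠ 0) (hn : ¬ (3 : ℤ) ∣ X ^ 3 + x * Y ^ 3) (hc : Cst x X Y δ c0 c1) :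
    ∀ (k : ℕ) (u v N : ℤ), ¬ (3 : ℤ) ∣ N → v ^ 3 - x * u ^ 3 = 3 ^ k * N →
      S (X * u) (v * Y) (3 ^ k * N) - S (X * u) (v * Y) (X ^ 3 + x * Y ^ 3) =
        δ * wt (N ^ 2) + if k % 3 = 0 then c0 else c1 := by
  have hn0 : X ^ 3 + x * Y ^ 3 ≠ 0 := fun h => hn (h ▸ dvd_zero _)
  intro k
  induction k using Nat.strong_induction_on with
  | _ k ih =>
    intro u v N hN3 hN
    have hN0 : N ≠ 0 := fun h => hN3 (h ▸ dvd_zero _)
    by_cases huv : (3 : ℤ) ∣ u ∧ (3 : ℤ) ∣ v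
    · obtain ⟨⟨u1, rfl⟩, v1, rfl⟩ := huv
      have hk : 3 ≤ k := by
        by_contra hk
        push Not at hk
        have h1 : (3 ^ k * 3 ^ (3 - k) : ℤ) = 27 := by
          rw [← pow_add, show k + (3 - k) = 3 by omega]; norm_num
        have h2 : 3 ^ k * N = 3 ^ k * (3 ^ (3 - k) * (v1 ^ 3 - x * u1 ^ 3)) := by
          rw [← hN, ← mul_assoc, h1]; ring
        have h3 : N = 3 ^ (3 - k) * (v1 ^ 3 - x * u1 ^ 3) :=
          mul_left_cancel₀ (pow_ne_zero k (by norm_num)) h2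
        apply hN3
        rw [h3]
        exact Dvd.dvd.mul_right (dvd_pow_self 3 (by omega)) _
      obtain ⟨m, rfl⟩ : ∃ m, k = m + 3 := ⟨k - 3, by omega⟩
      have h1 : v1 ^ 3 - x * u1 ^ 3 = 3 ^ m * N := by
        have : 27 * (v1 ^ 3 - x * u1 ^ 3) = 27 * (3 ^ m * N) := by
          have h2 : (3 * v1) ^ 3 - x * (3 * u1) ^ 3 = 27 * (v1 ^ 3 - x * u1 ^ 3) := by ring
          rw [← h2, hN]; ring
        linarith
      have h2 := ih m (by omega) u1 v1 N hN3 h1
      have hpos : (3 : ℤ) ^ m * N ≠ 0 := mul_ne_zero (pow_ne_zero m (by norm_num)) hN0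
      have H : ¬ (X * u1 = 0 ∧ v1 * Y = 0) := by
        rintro ⟨h3, h4⟩
        have hu : u1 = 0 := (mul_eq_zero.1 h3).resolve_left hX
        have hv : v1 = 0 := (mul_eq_zero.1 h4).resolve_right hY
        rw [hu, hv] at h1
        exact hpos (by rw [← h1]; ring)
      have h5 : (3 : ℤ) ^ (m + 3) * N = 27 * (3 ^ m * N) := by ring
      rw [h5, show X * (3 * u1) = 3 * (X * u1) by ring, show 3 * v1 * Y = 3 * (v1 * Y) by ring,
        S_three hS hC H (mul_ne_zero (by norm_num) hpos), S_three hS hC H hn0,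
        S_27 hS H hpos, h2, show (m + 3) % 3 = m % 3 by omega]
    · rcases Nat.eq_zero_or_pos k with hk | hk
      · subst hk
        have h1 := hc.k0 u v N huv (by simpa using hN) hN3
        simpa using h1
      · have hk1 : k = 1 := by
          by_contra hk1
          obtain ⟨m, rfl⟩ : ∃ m, k = m + 2 := ⟨k - 2, by omega⟩
          have h1 : ((v : ZMod 9) ^ 3 - x * (u : ZMod 9) ^ 3) = 0 := by
            have h2 := congrArg (fun n : ℤ => (n : ZMod 9)) hN
            push_cast at h2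
            rw [h2, pow_add]
            have h9 : (3 : ZMod 9) ^ 2 = 0 := rfl
            rw [h9]; ring
          rw [cast_mul3, cast_mul3] at huv
          have h3 := nd9 hx
          have hx1 : (x : ZMod 9) = 1 ∨ (x : ZMod 9) = 8 := by
            have c1 : ∀ a b c : ZMod 9, 3 * a ≠ 0 → ¬ (3 * b = 0 ∧ 3 * c = 0) →
              c ^ 3 - a * b ^ 3 = 0 → a = 1 ∨ a = 8 := by decide
            exact c1 _ _ _ h3 huv h1
          apply hx9
          unfold C9
          rcases hx1 with h | h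
          · left
            have h2 : ((x - 1 : ℤ) : ZMod 9) = 0 := by push_cast; rw [h]; ring
            rw [ZMod.intCast_zmod_eq_zero_iff_dvd] at h2
            push_cast at h2
            omega
          · right
            have h2 : ((x - 8 : ℤ) : ZMod 9) = 0 := by push_cast; rw [h]; ring
            rw [ZMod.intCast_zmod_eq_zero_iff_dvd] at h2
            push_cast at h2
            omega
        subst hk1
        have h1 := hc.k1 u v N huv (by simpa using hN) hN3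
        simpa using h1

omit hL in
theorem df_eq {X Y u v N : ℤ} (H : ¬ (X * u = 0 ∧ v * Y = 0)) (hN : N ≠ 0) :
    sl (Df X Y u v 1) (N : Eis) = S (X * u) (v * Y) N ∧
    sl (Df X Y u v 2) (N : Eis) = - S (X * u) (v * Y) N := by
  have h1 : Df X Y u v 1 = E (X * u) (v * Y) := by
    unfold Df E; push_cast; ring
  have h2 : Df X Y u v 2 = conj (E (X * u) (v * Y)) := by
    unfold Df E
    rw [map_add, map_mul, conj_w, conj_intCast, conj_intCast]
    push_cast; ring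
  constructor
  · rw [h1]; rfl
  · rw [h2]
    have h3 := hC.2.1 (E (X * u) (v * Y)) (N : Eis) (E_ne H) (eisInt_ne hN)
    rw [conj_intCast] at h3
    exact h3

omit hL in
theorem SV_eq {x p q p' q' X Y : ℤ} (H : ¬ (X * p' = 0 ∧ p * Y = 0))
    (H' : ¬ (X * q' = 0 ∧ q * Y = 0)) (hN : p ^ 3 - x * p' ^ 3 ≠ 0)
    (hN' : x * q' ^ 3 - q ^ 3 ≠ 0) (hn : X ^ 3 + x * Y ^ 3 ≠ 0) :
    SV sl x p q p' q' X Y =
      2 * (S (X * p') (p * Y) (p ^ 3 - x * p' ^ 3) - S (X * p') (p * Y) (X ^ 3 + x * Y ^ 3)) -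
      2 * (S (X * q') (q * Y) (x * q' ^ 3 - q ^ 3) - S (X * q') (q * Y) (X ^ 3 + x * Y ^ 3)) := by
  unfold SV
  rw [(df_eq hS hC H hN).1, (df_eq hS hC H hN).2, (df_eq hS hC H hn).1, (df_eq hS hC H hn).2,
    (df_eq hS hC H' hN').1, (df_eq hS hC H' hN').2, (df_eq hS hC H' hn).1,
    (df_eq hS hC H' hn).2]
  ring

theorem prim_case {b x p q p' q' X Y : ℤ} (hx : ¬ (3 : ℤ) ∣ x) (hb : ¬ (3 : ℤ) ∣ b)
    (hb9 : (b : ZMod 9) = 1 ∨ (b : ZMod 9) = -1) (hx9 : ¬ C9 x) (hX : X ≠ 0) (hY : Y ≠ 0)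
    (hXY : ¬ ((3 : ℤ) ∣ X ∧ (3 : ℤ) ∣ Y)) (hn : ¬ (3 : ℤ) ∣ X ^ 3 + x * Y ^ 3)
    (hN : p ^ 3 - x * p' ^ 3 ≠ 0) (hNN : p ^ 3 - x * p' ^ 3 = b * (x * q' ^ 3 - q ^ 3)) :
    S (X * p') (p * Y) (p ^ 3 - x * p' ^ 3) - S (X * p') (p * Y) (X ^ 3 + x * Y ^ 3) =
    S (X * q') (q * Y) (x * q' ^ 3 - q ^ 3) - S (X * q') (q * Y) (X ^ 3 + x * Y ^ 3) := by
  obtain ⟨δ, c0, c1, hc⟩ := exists_cst hS hC hL hx hx9 hX hY hXY hn
  obtain ⟨k, N1, hN1, h3N1⟩ : ∃ (k : ℕ) (N1 : ℤ), p ^ 3 - x * p' ^ 3 = 3 ^ k * N1 ∧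
      ¬ (3 : ℤ) ∣ N1 := by
    have hf : FiniteMultiplicity (3 : ℤ) (p ^ 3 - x * p' ^ 3) :=
      Int.finiteMultiplicity_iff.2 ⟨by norm_num, hN⟩
    obtain ⟨c, h1, h2⟩ := hf.exists_eq_pow_mul_and_not_dvd
    exact ⟨_, c, h1, h2⟩
  have hdv : (3 : ℤ) ^ k ∣ x * q' ^ 3 - q ^ 3 := by
    have h1 : (3 : ℤ) ^ k ∣ b * (x * q' ^ 3 - q ^ 3) := by
      rw [← hNN, hN1]; exact Dvd.intro _ rfl
    have hco : IsCoprime ((3 : ℤ) ^ k) b :=
      ((Int.prime_three.coprime_iff_not_dvd).2 hb).pow_left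
    exact hco.dvd_of_dvd_mul_left h1
  obtain ⟨M1, hM1⟩ := hdv
  have hbM : N1 = b * M1 := by
    have h1 : (3 : ℤ) ^ k * N1 = 3 ^ k * (b * M1) := by
      rw [← hN1, hNN, hM1]; ring
    exact mul_left_cancel₀ (pow_ne_zero k (by norm_num)) h1
  have hM3 : ¬ (3 : ℤ) ∣ -M1 := by
    intro h
    apply h3N1
    rw [hbM]
    exact Dvd.dvd.mul_left (by simpa using h) _
  have h1 := claim hS hC hx hx9 hX hY hn hc k p' p N1 h3N1 hN1
  have h2 := claim hS hC hx hx9 hX hY hn hc k q' q (-M1) hM3 (by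
    linear_combination -hM1)
  have hMne : x * q' ^ 3 - q ^ 3 ≠ 0 := by
    intro h
    rw [h, mul_zero] at hNN
    exact hN hNN
  have H' : ¬ (X * q' = 0 ∧ q * Y = 0) := by
    rintro ⟨h3, h4⟩
    have hu : q' = 0 := (mul_eq_zero.1 h3).resolve_left hX
    have hv : q = 0 := (mul_eq_zero.1 h4).resolve_right hY
    apply hMne
    rw [hu, hv]; ring
  have h3 : (3 : ℤ) ^ k * -M1 = -(x * q' ^ 3 - q ^ 3) := by rw [hM1]; ring
  rw [h3, S_neg hS H' hMne] at h2
  rw [← hN1] at h1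
  have h4 : wt (N1 ^ 2) = wt ((-M1) ^ 2) := by
    have h5 : (-M1) ^ 2 = M1 ^ 2 := by ring
    rw [h5]
    apply wt_sq_congr
    rw [hbM]
    push_cast
    rcases hb9 with h | h <;> rw [h]
    · left; ring
    · right; ring
  rw [h1, h2, h4]

theorem main_aux {B b x p q p' q' : ℤ} (hB : ¬ (3 : ℤ) ∣ B) (hB0 : B ≠ 0)
    (hx : ¬ (3 : ℤ) ∣ x) (hb : ¬ (3 : ℤ) ∣ b)
    (hb9 : (b : ZMod 9) = 1 ∨ (b : ZMod 9) = -1) (hx9 : ¬ C9 x)
    (hN : p ^ 3 - x * p' ^ 3 ≠ 0) (hNN : p ^ 3 - x * p' ^ 3 = b * (x * q' ^ 3 - q ^ 3)) :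
    ∀ (n : ℕ) (X Y : ℤ), X.natAbs < n → Pt B x X Y →
    S (X * p') (p * Y) (p ^ 3 - x * p' ^ 3) - S (X * p') (p * Y) (X ^ 3 + x * Y ^ 3) =
    S (X * q') (q * Y) (x * q' ^ 3 - q ^ 3) - S (X * q') (q * Y) (X ^ 3 + x * Y ^ 3) := by
  intro n
  induction n with
  | zero => intro X Y h; omega
  | succ n ih =>
    intro X Y hXn hPt
    obtain ⟨hX, hY, c, hc0, hc⟩ := hPt
    by_cases hXY : (3 : ℤ) ∣ X ∧ (3 : ℤ) ∣ Y
    · obtain ⟨⟨X1, rfl⟩, Y1, rfl⟩ := hXY
      have hX1 : X1 ≠ 0 := by rintro rfl; exact hX (by ring)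
      have hY1 : Y1 ≠ 0 := by rintro rfl; exact hY (by ring)
      have h3c : (3 : ℤ) ∣ c := by
        have h1 : (3 : ℤ) ∣ B * c ^ 3 := by
          rw [← hc]
          exact ⟨x * (9 * (X1 ^ 3 + x * Y1 ^ 3)), by ring⟩
        exact Int.prime_three.dvd_of_dvd_pow ((Int.prime_three.dvd_or_dvd h1).resolve_left hB)
      obtain ⟨c1, rfl⟩ := h3c
      have hc1 : c1 ≠ 0 := by rintro rfl; exact hc0 (by ring)
      have hPt1 : Pt B x X1 Y1 := by
        refine ⟨hX1, hY1, c1, hc1, ?_⟩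
        have : 27 * (x * (X1 ^ 3 + x * Y1 ^ 3)) = 27 * (B * c1 ^ 3) := by
          linear_combination hc
        linarith
      have hn1 : X1 ^ 3 + x * Y1 ^ 3 ≠ 0 := by
        obtain ⟨-, -, c2, hc2, hc3⟩ := hPt1
        intro h0
        rw [h0, mul_zero] at hc3
        exact (mul_ne_zero hB0 (pow_ne_zero 3 hc2)) hc3.symm
      have h1 := ih X1 Y1 (by
        have : (3 * X1).natAbs = 3 * X1.natAbs := by rw [Int.natAbs_mul]; rfl
        have h2 : 0 < X1.natAbs := Int.natAbs_pos.2 hX1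
        omega) hPt1
      have hMne : x * q' ^ 3 - q ^ 3 ≠ 0 := by
        intro h
        rw [h, mul_zero] at hNN
        exact hN hNN
      have H : ¬ (X1 * p' = 0 ∧ p * Y1 = 0) := by
        rintro ⟨h3, h4⟩
        have hu : p' = 0 := (mul_eq_zero.1 h3).resolve_left hX1
        have hv : p = 0 := (mul_eq_zero.1 h4).resolve_right hY1
        apply hN
        rw [hu, hv]; ring
      have H' : ¬ (X1 * q' = 0 ∧ q * Y1 = 0) := by
        rintro ⟨h3, h4⟩
        have hu : q' = 0 := (mul_eq_zero.1 h3).resolve_left hX1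
        have hv : q = 0 := (mul_eq_zero.1 h4).resolve_right hY1
        apply hMne
        rw [hu, hv]; ring
      have e1 : (3 * X1) ^ 3 + x * (3 * Y1) ^ 3 = 27 * (X1 ^ 3 + x * Y1 ^ 3) := by ring
      have hn27 : 27 * (X1 ^ 3 + x * Y1 ^ 3) ≠ 0 := mul_ne_zero (by norm_num) hn1
      rw [e1, show 3 * X1 * p' = 3 * (X1 * p') by ring, show p * (3 * Y1) = 3 * (p * Y1) by ring,
        show 3 * X1 * q' = 3 * (X1 * q') by ring, show q * (3 * Y1) = 3 * (q * Y1) by ring,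
        S_three hS hC H hN, S_three hS hC H' hMne, S_three hS hC H hn27,
        S_three hS hC H' hn27, S_27 hS H hn1, S_27 hS H' hn1]
      exact h1
    · refine prim_case hS hC hL hx hb hb9 hx9 hX hY hXY ?_ hN hNN
      intro h3
      -- then `27` divides `n0`
      have h3c : (3 : ℤ) ∣ c := by
        have h1 : (3 : ℤ) ∣ B * c ^ 3 := by
          rw [← hc]
          exact Dvd.dvd.mul_left h3 _
        exact Int.prime_three.dvd_of_dvd_pow ((Int.prime_three.dvd_or_dvd h1).resolve_left hB)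
      obtain ⟨c1, rfl⟩ := h3c
      have h9 : (9 : ℤ) ∣ X ^ 3 + x * Y ^ 3 := by
        have h1 : (9 : ℤ) ∣ x * (X ^ 3 + x * Y ^ 3) := by
          rw [hc]
          exact ⟨B * (3 * c1 ^ 3), by ring⟩
        have hco : IsCoprime (9 : ℤ) x := by
          have := ((Int.prime_three.coprime_iff_not_dvd).2 hx).pow_left (m := 2)
          simpa using this
        exact hco.dvd_of_dvd_mul_left h1
      have h1 : ((X : ZMod 9) ^ 3 + x * (Y : ZMod 9) ^ 3) = 0 := by
        have h2 : ((X ^ 3 + x * Y ^ 3 : ℤ) : ZMod 9) = 0 :=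
          (ZMod.intCast_zmod_eq_zero_iff_dvd _ 9).2 (by exact_mod_cast h9)
        push_cast at h2
        exact h2
      rw [cast_mul3, cast_mul3] at hXY
      have c1 : ∀ a b c : ZMod 9, 3 * a ≠ 0 → ¬ (3 * b = 0 ∧ 3 * c = 0) →
        b ^ 3 + a * c ^ 3 = 0 → a = 1 ∨ a = 8 := by decide
      apply hx9
      unfold C9
      rcases c1 _ _ _ (nd9 hx) hXY h1 with h | h
      · left
        have h2 : ((x - 1 : ℤ) : ZMod 9) = 0 := by push_cast; rw [h]; ring
        rw [ZMod.intCast_zmod_eq_zero_iff_dvd] at h2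
        push_cast at h2
        omega
      · right
        have h2 : ((x - 8 : ℤ) : ZMod 9) = 0 := by push_cast; rw [h]; ring
        rw [ZMod.intCast_zmod_eq_zero_iff_dvd] at h2
        push_cast at h2
        omega

end prim

end F5L

open _root_.Pool.Agent.PT.F5L in
theorem F5L_thm (hSLE : SLE) (hSCJ : SCJ) (hSSL : SSL) : F5L := by
  intro B b x p q p' q' X Y hB hb hx hsol hPt hb9 hx9
  have hN : p ^ 3 - x * p' ^ 3 ≠ 0 := hsol.n2
  have hNN : p ^ 3 - x * p' ^ 3 = b * (x * q' ^ 3 - q ^ 3) := by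
    linear_combination hsol.eq
  have hMne : x * q' ^ 3 - q ^ 3 ≠ 0 := by
    intro h
    rw [h, mul_zero] at hNN
    exact hN hNN
  obtain ⟨hX, hY, c, hc0, hc⟩ := hPt
  have hn : X ^ 3 + x * Y ^ 3 ≠ 0 := by
    intro h0
    rw [h0, mul_zero] at hc
    exact (mul_ne_zero hB.ne (pow_ne_zero 3 hc0)) hc.symm
  have H : ¬ (X * p' = 0 ∧ p * Y = 0) := by
    rintro ⟨h3, h4⟩
    have hu : p' = 0 := (mul_eq_zero.1 h3).resolve_left hX
    have hv : p = 0 := (mul_eq_zero.1 h4).resolve_right hY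
    apply hN
    rw [hu, hv]; ring
  have H' : ¬ (X * q' = 0 ∧ q * Y = 0) := by
    rintro ⟨h3, h4⟩
    have hu : q' = 0 := (mul_eq_zero.1 h3).resolve_left hX
    have hv : q = 0 := (mul_eq_zero.1 h4).resolve_right hY
    apply hMne
    rw [hu, hv]; ring
  have hb9' : (b : ZMod 9) = 1 ∨ (b : ZMod 9) = -1 := by
    rcases hb9 with h | h
    · left
      have h1 : ((b - 1 : ℤ) : ZMod 9) = 0 :=
        (ZMod.intCast_zmod_eq_zero_iff_dvd _ 9).2 (by push_cast; omega)
      push_cast at h1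
      linear_combination h1
    · right
      have h1 : ((b + 1 : ℤ) : ZMod 9) = 0 :=
        (ZMod.intCast_zmod_eq_zero_iff_dvd _ 9).2 (by push_cast; omega)
      push_cast at h1
      linear_combination h1
  rw [SV_eq hSSL hSCJ H H' hN hMne hn,
    main_aux hSSL hSCJ hSLE hB.three hB.ne hx.three hb.three hb9' hx9 hN hNN
      (X.natAbs + 1) X Y (by omega) ⟨hX, hY, c, hc0, hc⟩]
  ring

end Pool.Agent.PT


end

section

/-!
# NCNT: the number of primes above a place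
-/

open NumberField IsDedekindDomain Finset
open scoped nonZeroDivisors Pointwise

namespace Pool.Agent.PT

open Pool.Agent.Lib_helper18 Pool.Agent.Lib_helper18.Eis Pool.Agent.Lib_helper84.Cub

namespace NCNT

/-! ### Arithmetic of `Z[w]` -/

theorem pow_dvd_iff {l a : Eis} (hl : Prime l) (ha : a ≠ 0) (k : ℕ) : l ^ k ∣ a ↔ k ≤ V l a :=
  (fin hl ha).pow_dvd_iff_le_multiplicity

theorem intCast_ne {z : ℤ} (hz : z ≠ 0) : (z : Eis) ≠ 0 := fun h =>
  hz (by simpa using congrArg Eis.re h)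

/-- Division by the exact power. -/
theorem reduce {u x a b : Eis} (hu : Prime u) (hx : x ≠ 0) (hb : b ≠ 0)
    (h : u ^ (3 * V u b + V u x + 4) ∣ x * b ^ 3 - a ^ 3) :
    ∃ x1 a1 b1 : Eis, x = u ^ V u x * x1 ∧ 3 ∣ V u x ∧ ¬ u ∣ x1 ∧ ¬ u ∣ a1 ∧ ¬ u ∣ b1 ∧
      u ^ 4 ∣ x1 * b1 ^ 3 - a1 ^ 3 := by
  obtain ⟨b1, hb1, hub⟩ := V_split hu hb
  obtain ⟨x1, hx1, hux⟩ := V_split hu hx
  have hu0 := hu.ne_zero
  have hxb : x * b ^ 3 ≠ 0 := mul_ne_zero hx (pow_ne_zero _ hb)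
  have hVxb : V u (x * b ^ 3) = V u x + 3 * V u b := by
    rw [V_mul hu hx (pow_ne_zero _ hb), V_pow hu hb]
  have ha : a ≠ 0 := by
    rintro rfl
    have h1 : u ^ (3 * V u b + V u x + 4) ∣ x * b ^ 3 := by simpa using h
    rw [pow_dvd_iff hu hxb, hVxb] at h1
    omega
  have ha3 : a ^ 3 ≠ 0 := pow_ne_zero _ ha
  have hVa : 3 * V u a = V u x + 3 * V u b := by
    rw [← V_pow hu ha, ← hVxb]
    apply le_antisymm
    · rw [← pow_dvd_iff hu hxb]
      by_contra hcon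
      have h2 : V u (a ^ 3) ≤ 3 * V u b + V u x + 4 := by
        by_contra h3
        push Not at h3
        have h4 : u ^ (3 * V u b + V u x + 4) ∣ a ^ 3 := (pow_dvd_iff hu ha3 _).mpr h3.le
        have h5 : u ^ (3 * V u b + V u x + 4) ∣ x * b ^ 3 := by
          have h6 := dvd_add h h4
          rwa [sub_add_cancel] at h6
        rw [pow_dvd_iff hu hxb, hVxb] at h5
        omega
      have h3 : u ^ V u (a ^ 3) ∣ x * b ^ 3 - a ^ 3 := (pow_dvd_pow u h2).trans h
      have h4 : u ^ V u (a ^ 3) ∣ a ^ 3 := (pow_dvd_iff hu ha3 _).mpr le_rfl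
      have h5 := dvd_add h3 h4
      rw [sub_add_cancel] at h5
      exact hcon h5
    · rw [← pow_dvd_iff hu ha3]
      have h3 : u ^ V u (x * b ^ 3) ∣ x * b ^ 3 - a ^ 3 :=
        (pow_dvd_pow u (by rw [hVxb]; omega)).trans h
      have h4 : u ^ V u (x * b ^ 3) ∣ x * b ^ 3 := (pow_dvd_iff hu hxb _).mpr le_rfl
      have h5 := dvd_sub h4 h3
      rwa [sub_sub_cancel] at h5
  obtain ⟨a1, ha1, hua⟩ := V_split hu ha
  refine ⟨x1, a1, b1, hx1, by omega, hux, hua, hub, ?_⟩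
  have e : x * b ^ 3 - a ^ 3 = u ^ (3 * V u b + V u x) * (x1 * b1 ^ 3 - a1 ^ 3) := by
    have e1 : x * b ^ 3 = u ^ (3 * V u b + V u x) * (x1 * b1 ^ 3) := by
      conv_lhs => rw [hx1, hb1]
      rw [mul_pow, ← pow_mul, pow_add, mul_comm (V u b) 3]
      ring
    have e2 : a ^ 3 = u ^ (3 * V u b + V u x) * a1 ^ 3 := by
      conv_lhs => rw [ha1]
      rw [mul_pow, ← pow_mul, mul_comm (V u a) 3, hVa, add_comm (V u x)]
    rw [e1, e2]
    ring
  rw [e, pow_add] at h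
  exact (mul_dvd_mul_iff_left (pow_ne_zero _ hu0)).mp h

/-- Cubes modulo 9. -/
theorem cube_mod_nine {z : Eis} (hz : ¬ lam ∣ z) :
    ∃ ε : ℤ, (ε = 1 ∨ ε = -1) ∧ (9 : ℤ) ∣ (z ^ 3).re - ε ∧ (9 : ℤ) ∣ (z ^ 3).im := by
  rw [lam_dvd_iff] at hz
  have hre : (z ^ 3).re = z.re ^ 3 + z.im ^ 3 - 3 * z.re * z.im ^ 2 := by
    simp only [pow_succ, pow_zero, one_mul, mul_re, mul_im]
    ring
  have him : (z ^ 3).im = 3 * z.re * z.im * (z.re - z.im) := by
    simp only [pow_succ, pow_zero, one_mul, mul_re, mul_im]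
    ring
  rw [hre, him]
  generalize z.re = a at *
  generalize z.im = b at *
  have key : ∀ α β : ZMod 9, (α + β = 0 ∨ α + β = 3 ∨ α + β = 6) ∨
      ((α ^ 3 + β ^ 3 - 3 * α * β ^ 2 = 1 ∨ α ^ 3 + β ^ 3 - 3 * α * β ^ 2 = -1) ∧
        3 * α * β * (α - β) = 0) := by decide
  have hcast : ∀ n : ℤ, ((n : ZMod 9) = 0 ↔ (9 : ℤ) ∣ n) := fun n => by
    have := ZMod.intCast_zmod_eq_zero_iff_dvd n 9
    simpa using this
  rcases key (a : ZMod 9) (b : ZMod 9) with h | ⟨h1, h2⟩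
  · exfalso
    apply hz
    rcases h with h | h | h
    · have h3 := (hcast (a + b)).mp (by push_cast; exact h)
      omega
    · have h3 := (hcast (a + b - 3)).mp (by push_cast; rw [h]; ring)
      omega
    · have h3 := (hcast (a + b - 6)).mp (by push_cast; rw [h]; ring)
      omega
  · have h3 : (9 : ℤ) ∣ 3 * a * b * (a - b) := (hcast _).mp (by push_cast; exact h2)
    rcases h1 with h1 | h1
    · exact ⟨1, Or.inl rfl, (hcast _).mp (by push_cast; rw [h1]; ring), h3⟩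
    · exact ⟨-1, Or.inr rfl, (hcast _).mp (by push_cast; rw [h1]; ring), h3⟩

theorem lam_four : lam ^ 4 = w ^ 2 * 9 := by decide

theorem nine_dvd {z : Eis} (h : lam ^ 4 ∣ z) : (9 : ℤ) ∣ z.re ∧ (9 : ℤ) ∣ z.im := by
  have h1 : ((9 : ℤ) : Eis) ∣ z := by
    refine Dvd.dvd.trans ?_ h
    rw [lam_four]
    exact ⟨w ^ 2, by push_cast; ring⟩
  exact intCast_dvd_iff.mp h1

/-- The end of the argument. -/
theorem local_cube (hLCI : LCI) {x : ℤ} (hx : x ≠ 0) (h3 : ¬ (3 : ℤ) ∣ x) (v : Pl) {a b : Eis}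
    (hu : Prime (uni v)) (hb : b ≠ 0)
    (h : uni v ^ (3 * V (uni v) b + V (uni v) (x : Eis) + 4) ∣ (x : Eis) * b ^ 3 - a ^ 3) :
    LC (uni v) x := by
  have hxE := intCast_ne hx
  obtain ⟨x1, a1, b1, hx1, hV, hux, hua, hub, hd⟩ := reduce hu hxE hb h
  cases v with
  | some π =>
    have hπ3 : ¬ π.1 ∣ 3 := by
      intro h
      have h2 := (dvd_three_iff π.2.1).mp h
      have h4 : lam ∣ π.1 := h2.symm.dvd
      rw [lam_dvd_iff] at h4
      obtain ⟨-, h5, h6⟩ := π.2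
      omega
    change LC π.1 x
    change Prime π.1 at hu
    rw [hLCI.1 π x hx]
    refine ⟨hV, ?_⟩
    have hup : up π.1 (x : Eis) = x1 := by
      unfold up
      conv_lhs => rw [hx1]
      have hne : π.1 ^ V π.1 (x : Eis) ≠ 0 := pow_ne_zero _ hu.ne_zero
      change (π.1 ^ V π.1 (x : Eis) * x1) / π.1 ^ V π.1 (π.1 ^ V π.1 (x : Eis) * x1) = x1
      have hVV : V π.1 (π.1 ^ V π.1 (x : Eis) * x1) = V π.1 (x : Eis) := by
        conv_rhs => rw [show (x : Eis) = π.1 ^ V π.1 (x : Eis) * x1 from hx1]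
      rw [hVV]
      exact mul_div_cancel_left₀ x1 hne
    unfold ch
    rw [hup]
    have hd1 : π.1 ∣ x1 * b1 ^ 3 - a1 ^ 3 :=
      (dvd_pow_self π.1 (by norm_num)).trans hd
    have h1 := sym_congr hd1
    have hb3 : ¬ π.1 ∣ b1 ^ 3 := fun h => hub (hu.dvd_of_dvd_pow h)
    rw [sym_mul hu hπ3 hux hb3, sym_pow hu hπ3 hub, sym_pow hu hπ3 hua] at h1
    have h30 : (3 : ZMod 3) = 0 := by decide
    push_cast at h1
    rw [h30] at h1
    simpa using h1
  | none =>
    change LC lam x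
    change Prime lam at hu
    rw [hLCI.2.1 x h3]
    have hlx : ¬ lam ∣ (x : Eis) := by
      rw [lam_dvd_iff]
      simpa using h3
    have hV0 : V lam (x : Eis) = 0 := V_eq_zero hlx
    have hx1' : (x : Eis) = x1 := by
      have h1 : (x : Eis) = lam ^ V lam (x : Eis) * x1 := hx1
      rw [hV0, pow_zero, one_mul] at h1
      exact h1
    obtain ⟨ε, hε, hr, hi⟩ := cube_mod_nine (z := a1) hua
    obtain ⟨δ, hδ, hr', hi'⟩ := cube_mod_nine (z := b1) hub
    have h9 := (nine_dvd hd).1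
    rw [← hx1'] at h9
    have e1 : ((x : Eis) * b1 ^ 3 - a1 ^ 3).re = x * (b1 ^ 3).re - (a1 ^ 3).re := by
      rw [sub_re, mul_re]
      simp
    rw [e1] at h9
    have h10 : (9 : ℤ) ∣ x * δ - ε := by
      obtain ⟨s, hs⟩ := h9
      obtain ⟨t, ht⟩ := hr
      obtain ⟨t', ht'⟩ := hr'
      exact ⟨s - x * t' + t, by linear_combination hs - x * ht' + ht⟩
    unfold C9
    rcases hε with rfl | rfl <;> rcases hδ with rfl | rfl <;> omega

/-! ### Valuations of `L` -/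

variable {L : Type} [Field L] [NumberField L]

theorem ext_val {P P' : HeightOneSpectrum (𝓞 L)}
    (h : ∀ z : L, P.valuation L z = P'.valuation L z) : P = P' := by
  apply HeightOneSpectrum.ext
  ext z
  rw [← P.valuation_lt_one_iff_mem (K := L), ← P'.valuation_lt_one_iff_mem (K := L), h]

theorem exists_exp_le {γ : WithZero (Multiplicative ℤ)} (h : γ ≠ 0) :
    ∃ N : ℕ, WithZero.exp (-(N : ℤ)) ≤ γ := by
  refine ⟨(-(WithZero.log γ)).toNat, ?_⟩
  rw [← WithZero.exp_log h, WithZero.exp_le_exp, WithZero.log_exp]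
  omega

theorem pow_le_exp {ρ : WithZero (Multiplicative ℤ)} (h : ρ < 1) (N : ℕ) :
    ρ ^ N ≤ WithZero.exp (-(N : ℤ)) := by
  by_cases h0 : ρ = 0
  · rcases N with _ | N
    · simp
    · rw [h0, zero_pow (Nat.succ_ne_zero N)]
      exact zero_le
  · have h1 : WithZero.log ρ < 0 := by
      rw [← WithZero.exp_log h0, ← WithZero.exp_zero, WithZero.exp_lt_exp] at h
      exact h
    rw [← WithZero.exp_log h0, ← WithZero.exp_nsmul, WithZero.exp_le_exp]
    simp only [nsmul_eq_mul]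
    nlinarith [Int.natCast_nonneg N]

theorem exists_pow_lt {ρ γ : WithZero (Multiplicative ℤ)} (h : ρ < 1) (hγ : γ ≠ 0) :
    ∃ N : ℕ, ρ ^ N < γ := by
  obtain ⟨N, hN⟩ := exists_exp_le hγ
  refine ⟨N + 1, (pow_le_exp h (N + 1)).trans_lt (lt_of_lt_of_le ?_ hN)⟩
  rw [WithZero.exp_lt_exp]
  push_cast
  omega

variable {x : ℤ} {ι : Eis →+* L} {θ : L} {σ c : L ≃ₐ[ℚ] L}

/-- The valuation of an element of `Z[w]`. -/
theorem val_eq {v : Pl} {P : HeightOneSpectrum (𝓞 L)} (hu : Prime (uni v))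
    (hle : ∀ a : Eis, P.valuation L (ι a) ≤ 1)
    (hlt : ∀ a : Eis, P.valuation L (ι a) < 1 → uni v ∣ a) {y : Eis} (hy : y ≠ 0) :
    P.valuation L (ι y) = P.valuation L (ι (uni v)) ^ V (uni v) y := by
  obtain ⟨c, hc, huc⟩ := V_split hu hy
  have h1 : P.valuation L (ι c) = 1 := by
    rcases (hle c).lt_or_eq with h | h
    · exact absurd (hlt c h) huc
    · exact h
  conv_lhs => rw [hc]
  rw [map_mul, map_pow, map_mul, map_pow, h1, mul_one]

theorem val_w {P : HeightOneSpectrum (𝓞 L)} : P.valuation L (ι w) = 1 := by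
  have h1 : P.valuation L (ι w) ^ 3 = 1 := by
    rw [← map_pow, ← map_pow, w_cube, map_one, map_one]
  rcases lt_trichotomy (P.valuation L (ι w)) 1 with h | h | h
  · exact absurd h1 (pow_lt_one₀ zero_le h (by norm_num)).ne
  · exact h
  · exact absurd h1 (one_lt_pow₀ h (by norm_num)).ne'

/-- If `x` is a local cube, `σ` does not fix a prime above `v`. -/
theorem no_fix (h : CubF x L ι θ σ c) (hx : x ≠ 0) {v : Pl} {P : HeightOneSpectrum (𝓞 L)}
    (hle : ∀ a : Eis, P.valuation L (ι a) ≤ 1) (hP : P.valuation L (ι (uni v)) < 1)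
    (hfix : ∀ z : L, P.valuation L (σ z) = P.valuation L z) (hLC : LC (uni v) x) : False := by
  have hc0 : (w - 1) ^ 3 * (x : Eis) ≠ 0 :=
    mul_ne_zero (pow_ne_zero _ (by decide)) (intCast_ne hx)
  have hγ : P.valuation L (ι ((w - 1) ^ 3 * (x : Eis))) ≠ 0 := by
    rw [Valuation.ne_zero_iff]
    exact (map_ne_zero_iff ι h.inj).mpr hc0
  obtain ⟨N, hN⟩ := exists_pow_lt hP hγ
  obtain ⟨r, t, ht⟩ := hLC N
  have hsmall : P.valuation L (ι ((r : Eis) ^ 3 - (x : Eis))) ≤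
      P.valuation L (ι (uni v)) ^ N := by
    rw [ht, map_mul, map_mul, map_pow, map_pow]
    exact mul_le_of_le_one_right' (hle t)
  have s0 : σ (θ - ι r) = ι w * (θ - ι (w ^ 2 * r)) := by
    rw [map_sub, h.sθ, h.sι, mul_sub, ← map_mul, ← mul_assoc, ← pow_succ', w_cube, one_mul]
  have s1 : σ (θ - ι (w * r)) = ι w * (θ - ι r) := by
    rw [map_sub, h.sθ, h.sι, mul_sub, ← map_mul]
  have v0 : P.valuation L (θ - ι (w ^ 2 * r)) = P.valuation L (θ - ι r) := by
    rw [← hfix (θ - ι r), s0, Valuation.map_mul, val_w, one_mul]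
  have v1 : P.valuation L (θ - ι (w * r)) = P.valuation L (θ - ι r) := by
    rw [← hfix (θ - ι (w * r)), s1, Valuation.map_mul, val_w, one_mul]
  have hprod : (θ - ι r) * (θ - ι (w * r)) * (θ - ι (w ^ 2 * r)) =
      - ι ((r : Eis) ^ 3 - (x : Eis)) := by
    have h1 : (ι w) ^ 2 + ι w + 1 = 0 := by
      have := congrArg ι w_rel
      simpa using this
    have h2 : (ι w) ^ 3 = 1 := by
      have := congrArg ι w_cube
      simpa using this
    have h3 := h.cube
    have h4 : ι (x : Eis) = (x : L) := map_intCast ι x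
    have h5 : ι (r : Eis) = (r : L) := map_intCast ι r
    simp only [map_sub, map_mul, map_pow, h4, h5]
    linear_combination (-(θ ^ 2 * (r : L)) + θ * (r : L) ^ 2 * ι w) * h1 -
      ((r : L) ^ 3) * h2 + h3
  have hα : P.valuation L (θ - ι r) ^ 3 ≤ P.valuation L (ι (uni v)) ^ N := by
    have h1 := congrArg (P.valuation L) hprod
    rw [map_mul, map_mul, v0, v1, Valuation.map_neg] at h1
    calc P.valuation L (θ - ι r) ^ 3 = P.valuation L (θ - ι r) * P.valuation L (θ - ι r) *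
        P.valuation L (θ - ι r) := by rw [pow_succ, pow_two]
      _ ≤ _ := by rw [h1]; exact hsmall
  have hdiff : P.valuation L (ι ((w - 1) * r)) ≤ P.valuation L (θ - ι r) := by
    have e1 : ι ((w - 1) * r) = (θ - ι r) - (θ - ι (w * r)) := by
      rw [sub_mul, one_mul, map_sub]
      ring
    rw [e1]
    refine (Valuation.map_sub _ _ _).trans ?_
    rw [v1, max_self]
  have hcube : P.valuation L (ι (((w - 1) * r) ^ 3)) ≤ P.valuation L (ι (uni v)) ^ N := by
    rw [map_pow, map_pow]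
    exact (pow_le_pow_left' hdiff 3).trans hα
  have hfin : P.valuation L (ι ((w - 1) ^ 3 * (x : Eis))) ≤ P.valuation L (ι (uni v)) ^ N := by
    have e1 : ι ((w - 1) ^ 3 * (x : Eis)) = ι (((w - 1) * r) ^ 3) -
        ι ((w - 1) ^ 3) * ι ((r : Eis) ^ 3 - (x : Eis)) := by
      rw [← map_mul, ← map_sub]
      congr 1
      ring
    rw [e1]
    refine (Valuation.map_sub _ _ _).trans (max_le hcube ?_)
    rw [map_mul]
    exact (mul_le_of_le_one_left' (hle _)).trans hsmall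
  exact absurd hN (not_lt.mpr hfin)

/-- If `σ` does not fix the prime `P`, then `θ` is approximated at `P` by invariant elements. -/
theorem approx (h : CubF x L ι θ σ c) (h3 : ∀ z : L, σ (σ (σ z)) = z)
    {P P1 P2 : HeightOneSpectrum (𝓞 L)} (h01 : P ≠ P1) (h02 : P ≠ P2) (h12 : P1 ≠ P2)
    (e1 : ∀ z, P1.valuation L (σ z) = P.valuation L z)
    (e2 : ∀ z, P2.valuation L (σ z) = P1.valuation L z) (N : ℕ) :
    ∃ T : L, σ T = T ∧ P.valuation L (θ - T) ≤ WithZero.exp (-(N : ℤ)) := by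
  have hθ : IsIntegral ℤ θ := by
    refine IsIntegral.of_pow (n := 3) (by norm_num) ?_
    rw [h.cube]
    exact isIntegral_algebraMap (R := ℤ) (x := x)
  let θ' : 𝓞 L := ⟨θ, hθ⟩
  obtain ⟨z, hz⟩ := IsDedekindDomain.exists_forall_sub_mem_ideal (R := 𝓞 L)
    (s := (univ : Finset (Fin 3))) (![P.asIdeal, P1.asIdeal, P2.asIdeal]) (fun _ => N)
    (by
      intro i _
      fin_cases i
      · exact P.prime
      · exact P1.prime
      · exact P2.prime)
    (by
      have k01 : P.asIdeal ≠ P1.asIdeal := fun h => h01 (HeightOneSpectrum.ext h)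
      have k02 : P.asIdeal ≠ P2.asIdeal := fun h => h02 (HeightOneSpectrum.ext h)
      have k12 : P1.asIdeal ≠ P2.asIdeal := fun h => h12 (HeightOneSpectrum.ext h)
      intro i _ j _ hij
      fin_cases i <;> fin_cases j
      · exact absurd rfl hij
      · exact k01
      · exact k02
      · exact k01.symm
      · exact absurd rfl hij
      · exact k12
      · exact k02.symm
      · exact k12.symm
      · exact absurd rfl hij)
    (fun i => (![θ', 0, 0] : Fin 3 → 𝓞 L) i.1)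
  have z0 : z - θ' ∈ P.asIdeal ^ N := hz 0 (mem_univ _)
  have z1 : z ∈ P1.asIdeal ^ N := by
    have h1 : z - 0 ∈ P1.asIdeal ^ N := hz 1 (mem_univ _)
    rwa [sub_zero] at h1
  have z2 : z ∈ P2.asIdeal ^ N := by
    have h1 : z - 0 ∈ P2.asIdeal ^ N := hz 2 (mem_univ _)
    rwa [sub_zero] at h1
  have cv : ∀ (Q : HeightOneSpectrum (𝓞 L)) (y : 𝓞 L), y ∈ Q.asIdeal ^ N →
      Q.valuation L (algebraMap (𝓞 L) L y) ≤ WithZero.exp (-(N : ℤ)) := by
    intro Q y hy
    rw [Q.valuation_of_algebraMap, Q.intValuation_le_pow_iff_mem]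
    exact hy
  have w0 := cv P _ z0
  have w1 := cv P1 _ z1
  have w2 := cv P2 _ z2
  rw [map_sub] at w0
  have hθ' : algebraMap (𝓞 L) L θ' = θ := rfl
  rw [hθ'] at w0
  set y : L := algebraMap (𝓞 L) L z with hy
  have f1 : ∀ t, P.valuation L (σ t) = P2.valuation L t := by
    intro t
    rw [← e1 (σ t), ← e2 (σ (σ t)), h3]
  refine ⟨y + σ y + σ (σ y), ?_, ?_⟩
  · rw [map_add, map_add, h3]
    ring
  · have e3 : θ - (y + σ y + σ (σ y)) = -((y - θ) + (σ y + σ (σ y))) := by ring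
    rw [e3, Valuation.map_neg]
    refine (Valuation.map_add _ _ _).trans (max_le w0 ?_)
    refine (Valuation.map_add _ _ _).trans (max_le ?_ ?_)
    · rw [f1]
      exact w2
    · rw [f1, e2]
      exact w1

/-- If `σ` does not fix `P`, then `x` is a local cube. -/
theorem lc_of (hLCI : LCI) (h : CubF x L ι θ σ c) (hx : x ≠ 0) (hx3 : ¬ (3 : ℤ) ∣ x)
    (h3 : ∀ z : L, σ (σ (σ z)) = z)
    (hfixed : ∀ z : L, σ z = z → ∃ a b : Eis, b ≠ 0 ∧ z * ι b = ι a) {v : Pl}
    {P P1 P2 : HeightOneSpectrum (𝓞 L)} (hu : Prime (uni v))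
    (hle : ∀ a : Eis, P.valuation L (ι a) ≤ 1) (hP : P.valuation L (ι (uni v)) < 1)
    (hlt : ∀ a : Eis, P.valuation L (ι a) < 1 → uni v ∣ a)
    (h01 : P ≠ P1) (h02 : P ≠ P2) (h12 : P1 ≠ P2)
    (e1 : ∀ z, P1.valuation L (σ z) = P.valuation L z)
    (e2 : ∀ z, P2.valuation L (σ z) = P1.valuation L z) : LC (uni v) x := by
  have hρ : P.valuation L (ι (uni v)) ≠ 0 := by
    rw [Valuation.ne_zero_iff]
    exact (map_ne_zero_iff ι h.inj).mpr hu.ne_zero
  set ρ := P.valuation L (ι (uni v)) with hρd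
  set M := V (uni v) (x : Eis) + 4 with hM
  obtain ⟨N, hN⟩ := exists_exp_le (pow_ne_zero M hρ)
  obtain ⟨T, hT, hTP⟩ := approx h h3 h01 h02 h12 e1 e2 N
  obtain ⟨a, b, hb, hab⟩ := hfixed T hT
  apply local_cube hLCI hx hx3 v hu hb (a := a)
  set y := (x : Eis) * b ^ 3 - a ^ 3 with hyd
  by_cases hy0 : y = 0
  · rw [hy0]
    exact dvd_zero _
  rw [pow_dvd_iff hu hy0, add_assoc, ← hM]
  by_contra hcon
  push Not at hcon
  have hθ1 : P.valuation L θ ≤ 1 := by
    have hθ : IsIntegral ℤ θ := by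
      refine IsIntegral.of_pow (n := 3) (by norm_num) ?_
      rw [h.cube]
      exact isIntegral_algebraMap (R := ℤ) (x := x)
    exact P.valuation_le_one (K := L) (⟨θ, hθ⟩ : 𝓞 L)
  have hexp : WithZero.exp (-(N : ℤ)) ≤ (1 : WithZero (Multiplicative ℤ)) := by
    rw [← WithZero.exp_zero, WithZero.exp_le_exp]
    omega
  have hT1 : P.valuation L T ≤ 1 := by
    have e3 : T = θ - (θ - T) := by ring
    rw [e3]
    exact (Valuation.map_sub _ _ _).trans (max_le hθ1 (hTP.trans hexp))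
  have hfac : ι y = (θ - T) * ((ι b) ^ 3 * (θ ^ 2 + θ * T + T ^ 2)) := by
    have h4 : ι (x : Eis) = (x : L) := map_intCast ι x
    have h5 := h.cube
    rw [hyd]
    simp only [map_sub, map_mul, map_pow, h4]
    rw [← hab, ← h5]
    ring
  have hquad : P.valuation L (θ ^ 2 + θ * T + T ^ 2) ≤ 1 := by
    refine (Valuation.map_add _ _ _).trans (max_le ((Valuation.map_add _ _ _).trans
      (max_le ?_ ?_)) ?_)
    · rw [map_pow]
      exact pow_le_one' hθ1 2
    · rw [map_mul]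
      exact mul_le_one' hθ1 hT1
    · rw [map_pow]
      exact pow_le_one' hT1 2
  have hval : P.valuation L (ι y) ≤ ρ ^ M * (P.valuation L (ι b)) ^ 3 := by
    rw [hfac, map_mul, map_mul, map_pow]
    refine mul_le_mul' (hTP.trans hN) ?_
    exact mul_le_of_le_one_right' hquad
  rw [val_eq hu hle hlt hy0, val_eq hu hle hlt hb, ← hρd, ← pow_mul, ← pow_add] at hval
  have h6 : M + V (uni v) b * 3 > V (uni v) y := by omega
  have h7 := pow_lt_pow_right_of_lt_one₀ (zero_lt_iff.mpr hρ) hP h6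
  exact absurd hval (not_le.mpr h7)

theorem prime_uni (v : Pl) : Prime (uni v) := by
  cases v with
  | none => exact prime_lam
  | some π => exact π.2.1

end NCNT

open _root_.Pool.Agent.PT.NCNT in
theorem NCNT_thm (_hSPP : SPP) (hLCI : LCI) (hNHN : NHN) (hNTR : NTR) : NCNT := by
  classical
  intro x L _ _ ι θ σ c hx hx3 _ h v
  obtain ⟨h3, hfixed, -⟩ := hNHN x L ι θ σ c hx h
  obtain ⟨t1, t2, t3, t4, t5, -⟩ := hNTR x L ι θ σ c hx hx3 h
  have hu := prime_uni v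
  obtain ⟨P, hP⟩ := (t4 v).2
  obtain ⟨P1, e1⟩ := t3 P
  obtain ⟨P2, e2⟩ := t3 P1
  have hP' : P.valuation L (ι (uni v)) < 1 := hP
  have hP1 : P1 ∈ Abv ι v := by
    change P1.valuation L (ι (uni v)) < 1
    rw [← h.sι, e1]
    exact hP'
  have hP2 : P2 ∈ Abv ι v := by
    change P2.valuation L (ι (uni v)) < 1
    rw [← h.sι, e2]
    exact hP1
  have e0 : ∀ z, P.valuation L (σ z) = P2.valuation L z := by
    intro z
    rw [← e1 (σ z), ← e2 (σ (σ z)), h3]
  have hall : ∀ Q ∈ Abv ι v, Q = P ∨ Q = P1 ∨ Q = P2 := by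
    intro Q hQ
    obtain ⟨i, hi⟩ := t5 v P Q hP hQ
    have key : ∀ i : ℕ, ∀ Q : HeightOneSpectrum (𝓞 L),
        (∀ z : L, Q.valuation L ((σ ^ i) z) = P.valuation L z) → Q = P ∨ Q = P1 ∨ Q = P2 := by
      intro i
      induction i using Nat.strong_induction_on with
      | _ i ih =>
        intro Q hi
        rcases i with _ | _ | _ | i
        · left
          apply ext_val
          intro z
          simpa using hi z
        · right; left
          apply ext_val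
          intro z
          obtain ⟨y, rfl⟩ := σ.surjective z
          rw [e1]
          simpa using hi y
        · right; right
          apply ext_val
          intro z
          obtain ⟨y, rfl⟩ := σ.surjective z
          obtain ⟨y, rfl⟩ := σ.surjective y
          rw [e2, e1]
          have h4 := hi y
          rw [pow_succ, pow_one] at h4
          exact h4
        · refine ih i (by omega) Q fun z => ?_
          have h4 := hi z
          have h5 : (σ ^ (i + 3)) z = (σ ^ i) z := by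
            rw [pow_add]
            change (σ ^ i) ((σ ^ 3) z) = _
            congr 1
            exact h3 z
          rw [← h5]
          exact h4
    exact key i Q hi
  have hlt : ∀ a : Eis, P.valuation L (ι a) < 1 → uni v ∣ a := by
    obtain ⟨v', -, hv'⟩ := t2 P
    intro a ha
    have h4 : uni v' ∣ uni v := hv' _ hP'
    have h5 : Associated (uni v') (uni v) := (prime_uni v').associated_of_dvd hu h4
    exact h5.symm.dvd.trans (hv' a ha)
  by_cases hfix : P = P1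
  · have hfix' : ∀ z : L, P.valuation L (σ z) = P.valuation L z := by
      intro z
      conv_lhs => rw [hfix]
      exact e1 z
    have hnot : ¬ LC (uni v) x := fun hLC => no_fix h hx (t1 P) hP' hfix' hLC
    rw [if_neg hnot]
    have hP2' : P2 = P := by
      apply ext_val
      intro z
      rw [← e0, hfix']
    have hset : Abv ι v = {P} := by
      ext Q
      rw [Set.mem_singleton_iff]
      constructor
      · intro hQ
        rcases hall Q hQ with h4 | h4 | h4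
        · exact h4
        · exact h4.trans hfix.symm
        · exact h4.trans hP2'
      · rintro rfl
        exact hP
    rw [hset]
    simp
  · have h02 : P ≠ P2 := by
      intro h4
      apply hfix
      apply ext_val
      intro z
      obtain ⟨y, rfl⟩ := σ.surjective z
      rw [e1, e0, ← h4]
    have h12 : P1 ≠ P2 := by
      intro h4
      apply hfix
      apply ext_val
      intro z
      calc P.valuation L z = P1.valuation L (σ z) := (e1 z).symm
        _ = P2.valuation L (σ z) := by rw [h4]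
        _ = P1.valuation L z := e2 z
    have hLC : LC (uni v) x :=
      lc_of hLCI h hx hx3 h3 hfixed hu (t1 P) hP' hlt hfix h02 h12 e1 e2
    rw [if_pos hLC]
    have hset : Abv ι v = {P, P1, P2} := by
      ext Q
      simp only [Set.mem_insert_iff, Set.mem_singleton_iff]
      constructor
      · exact hall Q
      · rintro (rfl | rfl | rfl)
        · exact hP
        · exact hP1
        · exact hP2
    rw [Nat.card_coe_set_eq, hset, Set.ncard_eq_three]
    exact ⟨P, P1, P2, hfix, h02, h12, rfl⟩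

end Pool.Agent.PT


end

section

/-!
# A set of places and sufficiently many units with independent symbols
-/

set_option autoImplicit false

open NumberField IsDedekindDomain Finset
open scoped nonZeroDivisors Pointwise

namespace Pool.Agent.PT

open Pool.Agent.Lib_helper18 Pool.Agent.Lib_helper18.Eis Pool.Agent.Lib_helper84.Cub

namespace NGEN

theorem cast_ne {n : ℤ} (h : n ≠ 0) : (n : Eis) ≠ 0 := by
  intro h0
  apply h
  have := congrArg Eis.re h0
  simpa using this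

theorem ppPrim (π : PP) : Prim π.1 := ⟨π.2.2.2, by have := π.2.2.1; omega⟩

theorem intPrim {x : ℤ} (h : ¬ (3 : ℤ) ∣ x) : Prim (x : Eis) := ⟨by simp, by simpa using h⟩

theorem tm_of_not_dvd {π a b : Eis} (ha : ¬ π ∣ a) (hb : ¬ π ∣ b) : tm π a b = 0 := by
  unfold tm
  rw [V_eq_zero ha, V_eq_zero hb]
  simp

theorem ch_of_not_dvd {π a : Eis} (ha : ¬ π ∣ a) : ch π a = sym π a := by
  unfold ch up
  rw [V_eq_zero ha, pow_zero, EuclideanDomain.div_one]

theorem eq_of_dvd (hSPP : SPP) {π ρ : PP} (h : π.1 ∣ ρ.1) : π = ρ :=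
  hSPP.2.1 π ρ ((Prime.dvd_prime_iff_associated π.2.1 ρ.2.1).1 h)

theorem not_three (hSPP : SPP) (π : PP) : ¬ π.1 ∣ 3 := (hSPP.2.2.2.1 π).1

theorem sl_eq {a b : Eis} (F : Finset PP) (hF : ∀ π : PP, π.1 ∣ a ∨ π.1 ∣ b → π ∈ F) :
    sl a b = - ∑ π ∈ F, tm π.1 a b := by
  unfold sl
  congr 1
  apply finsum_eq_sum_of_support_subset
  intro π hπ
  rw [Finset.mem_coe]
  apply hF
  by_contra h
  rw [not_or] at h
  exact hπ (tm_of_not_dvd h.1 h.2)

theorem recPP (hSPP : SPP) (hSREC : SREC) {π ρ : PP} (h : π ≠ ρ) : sym ρ.1 π.1 = sym π.1 ρ.1 := by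
  classical
  have h1 := hSREC.1 π.1 ρ.1 (ppPrim π) (ppPrim ρ)
  have hd1 : ¬ π.1 ∣ ρ.1 := fun hd => h (eq_of_dvd hSPP hd)
  have hd2 : ¬ ρ.1 ∣ π.1 := fun hd => h (eq_of_dvd hSPP hd).symm
  rw [sl_eq {π, ρ} (fun v hv => by
    rcases hv with hv | hv
    · rw [eq_of_dvd hSPP hv]
      simp
    · rw [eq_of_dvd hSPP hv]
      simp), Finset.sum_pair h, neg_eq_zero] at h1
  unfold tm at h1
  rw [V_eq_zero hd1, V_eq_zero hd2, V_self, V_self, ch_of_not_dvd hd1, ch_of_not_dvd hd2] at h1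
  push_cast at h1
  rw [zero_mul, one_mul, one_mul, zero_mul, zero_sub, sub_zero] at h1
  have h2 := eq_neg_of_add_eq_zero_right h1
  rw [neg_neg] at h2
  exact h2

/-- the symbol of `x` at a prime not dividing it -/
theorem ch_eq (hSPP : SPP) (hSREC : SREC) {x : ℤ} (h3 : ¬ (3 : ℤ) ∣ x) (D : Finset PP)
    (hD : ∀ π : PP, π ∈ D ↔ π.1 ∣ (x : Eis)) (ρ : PP) (hρ : ρ ∉ D) :
    ch ρ.1 (x : Eis) = ∑ π ∈ D, (V π.1 (x : Eis) : ZMod 3) * sym π.1 ρ.1 := by
  classical
  have h1 := hSREC.1 ρ.1 (x : Eis) (ppPrim ρ) (intPrim h3)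
  have hρx : ¬ ρ.1 ∣ (x : Eis) := fun h => hρ ((hD ρ).2 h)
  rw [sl_eq (insert ρ D) (fun v hv => by
    rcases hv with hv | hv
    · rw [eq_of_dvd hSPP hv]
      exact Finset.mem_insert_self _ _
    · exact Finset.mem_insert_of_mem ((hD v).2 hv)), Finset.sum_insert hρ, neg_eq_zero] at h1
  have h2 : tm ρ.1 ρ.1 (x : Eis) = - ch ρ.1 (x : Eis) := by
    unfold tm
    rw [V_eq_zero hρx, V_self]
    push_cast
    ring
  have h3' : ∑ π ∈ D, tm π.1 ρ.1 (x : Eis) = ∑ π ∈ D, (V π.1 (x : Eis) : ZMod 3) * sym π.1 ρ.1 := by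
    apply Finset.sum_congr rfl
    intro π hπ
    have hne : π ≠ ρ := fun h => hρ (h ▸ hπ)
    have hd1 : ¬ π.1 ∣ ρ.1 := fun hd => hne (eq_of_dvd hSPP hd)
    unfold tm
    rw [V_eq_zero hd1, ch_of_not_dvd hd1]
    push_cast
    ring
  rw [h2, h3'] at h1
  rw [← add_right_inj (-ch ρ.1 (x : Eis)), h1]
  ring

theorem tm_eq (hSPP : SPP) {x : ℤ} {π ρ : PP} (hne : π ≠ ρ) :
    tm π.1 ρ.1 (x : Eis) = (V π.1 (x : Eis) : ZMod 3) * sym π.1 ρ.1 := by
  have hd1 : ¬ π.1 ∣ ρ.1 := fun hd => hne (eq_of_dvd hSPP hd)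
  unfold tm
  rw [V_eq_zero hd1, ch_of_not_dvd hd1]
  push_cast
  ring

theorem V_prod {κ : Type} [Fintype κ] {l : Eis} (hl : Prime l) (d : κ → Eis) (hd : ∀ i, d i ≠ 0)
    (n : κ → ℕ) : V l (∏ i, d i ^ n i) = ∑ i, n i * V l (d i) := by
  classical
  have : ∀ t : Finset κ, V l (∏ i ∈ t, d i ^ n i) = ∑ i ∈ t, n i * V l (d i) := by
    intro t
    induction t using Finset.induction_on with
    | empty =>
      rw [Finset.prod_empty, Finset.sum_empty]
      exact V_eq_zero (fun h => hl.not_unit (isUnit_of_dvd_one h))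
    | insert i t hi ih =>
      rw [Finset.prod_insert hi, Finset.sum_insert hi,
        V_mul hl (pow_ne_zero _ (hd i)) (Finset.prod_ne_zero_iff.2 (fun j _ => pow_ne_zero _ (hd j))),
        V_pow hl (hd i), ih]
  exact this Finset.univ

theorem mul_indep {κ : Type} [Fintype κ] (d : κ → Eis) (hd : ∀ i, d i ≠ 0)
    (h : ∀ i, ∃ l : Eis, Prime l ∧ V l (d i) ≠ 0 ∧ ∀ j, j ≠ i → V l (d j) = 0) (n m : κ → ℕ)
    (he : ∏ i, d i ^ n i = ∏ i, d i ^ m i) : n = m := by
  classical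
  funext i
  obtain ⟨l, hl, h1, h2⟩ := h i
  have h3 : ∀ n : κ → ℕ, ∑ j, n j * V l (d j) = n i * V l (d i) := by
    intro n
    apply Finset.sum_eq_single i
    · intro j _ hj
      rw [h2 j hj, mul_zero]
    · intro h
      exact absurd (Finset.mem_univ _) h
  have h4 := congrArg (V l) he
  rw [V_prod hl d hd, V_prod hl d hd, h3, h3] at h4
  exact Nat.eq_of_mul_eq_mul_right (Nat.pos_of_ne_zero h1) h4

/-- choice of distinct objects with given properties -/
theorem choose_distinct {κ α : Type} [DecidableEq α] (P : κ → α → Prop) (A : Finset α)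
    (h : ∀ (k : κ) (B : Finset α), ∃ a, a ∉ B ∧ P k a) (T : Finset κ) :
    ∃ f : κ → α, (∀ k ∈ T, P k (f k) ∧ f k ∉ A) ∧ ∀ k ∈ T, ∀ l ∈ T, f k = f l → k = l := by
  classical
  induction T using Finset.induction_on with
  | empty =>
    refine ⟨fun k => (h k ∅).choose, ?_, ?_⟩
    · intro k hk
      simp at hk
    · intro k hk
      simp at hk
  | insert k T hk ih =>
    obtain ⟨f, hf1, hf2⟩ := ih
    obtain ⟨a, ha1, ha2⟩ := h k (A ∪ T.image f)
    rw [Finset.mem_union, not_or] at ha1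
    have hne : ∀ l ∈ T, a ≠ f l := fun l hl he => ha1.2 (he ▸ Finset.mem_image_of_mem f hl)
    refine ⟨Function.update f k a, ?_, ?_⟩
    · intro l hl
      rcases Finset.mem_insert.1 hl with rfl | hl
      · rw [Function.update_self]
        exact ⟨ha2, ha1.1⟩
      · have hlk : l ≠ k := fun he => hk (he ▸ hl)
        rw [Function.update_of_ne hlk]
        exact hf1 l hl
    · intro l hl m hm he
      by_cases hlk : l = k
      · by_cases hmk : m = k
        · rw [hlk, hmk]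
        · have hmT : m ∈ T := Finset.mem_of_mem_insert_of_ne hm hmk
          rw [hlk, Function.update_self, Function.update_of_ne hmk] at he
          exact absurd he (hne m hmT)
      · have hlT : l ∈ T := Finset.mem_of_mem_insert_of_ne hl hlk
        by_cases hmk : m = k
        · rw [hmk, Function.update_self, Function.update_of_ne hlk] at he
          exact absurd he.symm (hne l hlT)
        · have hmT : m ∈ T := Finset.mem_of_mem_insert_of_ne hm hmk
          rw [Function.update_of_ne hlk, Function.update_of_ne hmk] at he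
          exact hf2 l hlT m hmT he

theorem wt_ne {x : ℤ} (h3 : ¬ (3 : ℤ) ∣ x) (h : ¬ C9 x) : wt ((x : Eis).norm) ≠ 0 := by
  rw [norm_intCast]
  unfold wt
  intro h0
  rw [ZMod.intCast_zmod_eq_zero_iff_dvd] at h0
  apply h
  unfold C9
  have hx : x % 9 = 0 ∨ x % 9 = 1 ∨ x % 9 = 2 ∨ x % 9 = 3 ∨ x % 9 = 4 ∨ x % 9 = 5 ∨ x % 9 = 6 ∨
      x % 9 = 7 ∨ x % 9 = 8 := by omega
  have h2 : x ^ 2 % 9 = ((x % 9) * (x % 9)) % 9 := by
    rw [pow_two]
    simp [Int.mul_emod]
  rcases hx with h | h | h | h | h | h | h | h | h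
  · exact absurd (by omega) h3
  · exact Or.inl h
  · rw [h] at h2
    push_cast at h0
    omega
  · exact absurd (by omega) h3
  · rw [h] at h2
    push_cast at h0
    omega
  · rw [h] at h2
    push_cast at h0
    omega
  · exact absurd (by omega) h3
  · rw [h] at h2
    push_cast at h0
    omega
  · exact Or.inr h

/-- `x` is divisible by an element of `PP` -/
theorem exists_dvd (hSPP : SPP) {x : ℤ} (h0 : x ≠ 0) (h3 : ¬ (3 : ℤ) ∣ x)
    (hc : ¬ ∃ c : ℤ, c ^ 3 = x) : ∃ π : PP, π.1 ∣ (x : Eis) := by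
  have h1 : x.natAbs ≠ 1 := by
    intro h
    rcases Int.natAbs_eq x with h' | h'
    · exact hc ⟨1, by rw [h', h]; rfl⟩
    · exact hc ⟨-1, by rw [h', h]; rfl⟩
  obtain ⟨p, hp, hpx⟩ := Nat.exists_prime_and_dvd h1
  have hpx' : (p : ℤ) ∣ x := Int.natCast_dvd.2 hpx
  have hp3 : ¬ (3 : ℤ) ∣ (p : ℤ) := fun h => h3 (h.trans hpx')
  have hpu : ¬ IsUnit ((p : ℤ) : Eis) := by
    rw [Eis.isUnit_iff_norm, norm_intCast]
    have := hp.two_le
    intro h
    have h2 : (2 : ℤ) ≤ (p : ℤ) := by exact_mod_cast this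
    nlinarith
  have hp0 : ((p : ℤ) : Eis) ≠ 0 := cast_ne (by exact_mod_cast hp.ne_zero)
  obtain ⟨l, hl, hlp⟩ := WfDvdMonoid.exists_irreducible_factor hpu hp0
  have hlP : Prime l := hl.prime
  have hl3 : ¬ l ∣ 3 := by
    intro h
    rw [dvd_three_iff hlP] at h
    have h4 : lam ∣ ((p : ℤ) : Eis) := h.symm.dvd.trans hlp
    rw [lam_dvd_iff] at h4
    apply hp3
    simpa using h4
  obtain ⟨π, hπ⟩ := hSPP.1 l hlP hl3
  refine ⟨π, hπ.symm.dvd.trans (hlp.trans ?_)⟩
  obtain ⟨k, hk⟩ := hpx'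
  exact ⟨(k : Eis), by rw [hk]; push_cast; rfl⟩

open Classical in
/-- from a finite type to `Fin e` -/
theorem transfer {κ : Type} [Fintype κ] (x : ℤ) (S₀ S : Finset Pl) (d : κ → Eis) (hS : S₀ ⊆ S)
    (hLC : ∀ v ∈ S, v ∉ S₀ → LC (uni v) x)
    (hcard : (S.filter fun v => ¬ LC (uni v) x).card = Fintype.card κ + 1)
    (hd0 : ∀ i, d i ≠ 0) (hdS : ∀ i (v : Pl), uni v ∣ d i → v ∈ S)
    (hmul : ∀ n m : κ → ℕ, ∏ i, d i ^ n i = ∏ i, d i ^ m i → n = m)
    (hind : ∀ n : κ → ZMod 3, (∀ v : Pl, ∑ i, n i * sy v (d i) (x : Eis) = 0) → n = 0) :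
    ∃ (S : Finset Pl) (e : ℕ) (d : Fin e → Eis), S₀ ⊆ S ∧ (∀ v ∈ S, v ∉ S₀ → LC (uni v) x) ∧
    (S.filter fun v => ¬ LC (uni v) x).card = e + 1 ∧
    (∀ i, d i ≠ 0) ∧ (∀ i (v : Pl), uni v ∣ d i → v ∈ S) ∧
    (∀ n m : Fin e → ℕ, ∏ i, d i ^ n i = ∏ i, d i ^ m i → n = m) ∧
    (∀ n : Fin e → ZMod 3, (∀ v : Pl, ∑ i, n i * sy v (d i) (x : Eis) = 0) → n = 0) := by
  let E : Fin (Fintype.card κ) ≃ κ := (Fintype.equivFin κ).symm
  refine ⟨S, Fintype.card κ, fun i => d (E i), hS, hLC, hcard, fun i => hd0 _,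
    fun i v h => hdS _ v h, ?_, ?_⟩
  · intro n m h
    have h1 : ∀ n : Fin (Fintype.card κ) → ℕ,
        ∏ i, d (E i) ^ n i = ∏ k, d k ^ n (E.symm k) := by
      intro n
      rw [← E.prod_comp]
      simp
    rw [h1, h1] at h
    have h2 := hmul _ _ h
    funext i
    have := congrFun h2 (E i)
    simpa using this
  · intro n h
    have h1 := hind (fun k => n (E.symm k)) (fun v => by
      rw [← h v, ← E.sum_comp]
      simp)
    funext i
    have := congrFun h1 (E i)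
    simpa using this

theorem V_cast {x : ℤ} (π : PP) (h : π.1 ∣ (x : Eis)) (h0 : x ≠ 0) (h2 : V π.1 (x : Eis) ≤ 2) :
    (V π.1 (x : Eis) : ZMod 3) * (V π.1 (x : Eis) : ZMod 3) = 1 ∧ ¬ 3 ∣ V π.1 (x : Eis) := by
  have h1 : V π.1 (x : Eis) ≠ 0 := fun h' => (V_eq_zero_iff.1 h') h
  have h3 : V π.1 (x : Eis) = 1 ∨ V π.1 (x : Eis) = 2 := by omega
  rcases h3 with h3 | h3
  · rw [h3]
    exact ⟨by decide, by decide⟩
  · rw [h3]
    exact ⟨by decide, by decide⟩

end NGEN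

open _root_.Pool.Agent.PT.NGEN in
open Classical in
/-- a set of places and sufficiently many units with independent symbols -/
theorem NGEN_thm (hSTM : STM) (hSPP : SPP) (hSSL : SSL) (hSREC : SREC) (hLCI : LCI)
    (hNAUX : NAUX) : NGEN := by
  intro x S₀ hx0 hx3 hV hcube hnone hS0 hS0'
  obtain ⟨D, hD⟩ : ∃ D : Finset PP, ∀ π : PP, π ∈ D ↔ π.1 ∣ (x : Eis) := by
    refine ⟨(hSPP.2.2.1 (x : Eis) (cast_ne hx0)).toFinset, fun π => ?_⟩
    rw [Set.Finite.mem_toFinset]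
    rfl
  obtain ⟨π₀, hπ₀⟩ := exists_dvd hSPP hx0 hx3 hcube
  have hπ₀D : π₀ ∈ D := (hD π₀).2 hπ₀
  have hVD : ∀ π ∈ D, (V π.1 (x : Eis) : ZMod 3) * (V π.1 (x : Eis) : ZMod 3) = 1 ∧
      ¬ 3 ∣ V π.1 (x : Eis) := fun π hπ => V_cast π ((hD π).1 hπ) hx0 (hV π)
  let κ : Type := {k // k ∈ D.erase π₀}
  -- the vectors
  let r : κ → PP → ZMod 3 := fun k π => if π = k.1 then 1 else
    if π = π₀ then - (V k.1.1 (x : Eis) : ZMod 3) * (V π₀.1 (x : Eis) : ZMod 3) else 0
  have hkD : ∀ k : κ, k.1 ∈ D ∧ k.1 ≠ π₀ := fun k =>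
    ⟨Finset.mem_of_mem_erase k.2, Finset.ne_of_mem_erase k.2⟩
  have hr0 : ∀ k : κ, ∑ π ∈ D, (V π.1 (x : Eis) : ZMod 3) * r k π = 0 := by
    intro k
    obtain ⟨hk1, hk2⟩ := hkD k
    have h1 : ∑ π ∈ D, (V π.1 (x : Eis) : ZMod 3) * r k π =
        ∑ π ∈ ({k.1, π₀} : Finset PP), (V π.1 (x : Eis) : ZMod 3) * r k π := by
      symm
      apply Finset.sum_subset
      · intro π hπ
        rcases Finset.mem_insert.1 hπ with rfl | hπ
        · exact hk1
        · rw [Finset.mem_singleton.1 hπ]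
          exact hπ₀D
      · intro π _ hπ
        rw [Finset.mem_insert, Finset.mem_singleton, not_or] at hπ
        simp only [r]
        rw [if_neg hπ.1, if_neg hπ.2, mul_zero]
    have hr1 : r k k.1 = 1 := if_pos rfl
    have hr2 : r k π₀ = - (V k.1.1 (x : Eis) : ZMod 3) * (V π₀.1 (x : Eis) : ZMod 3) := by
      change (if π₀ = k.1 then (1 : ZMod 3) else
        if π₀ = π₀ then - (V k.1.1 (x : Eis) : ZMod 3) * (V π₀.1 (x : Eis) : ZMod 3) else 0) = _
      rw [if_neg hk2.symm, if_pos rfl]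
    rw [h1, Finset.sum_pair hk2, hr1, hr2]
    have h2 := (hVD π₀ hπ₀D).1
    calc (V k.1.1 (x : Eis) : ZMod 3) * 1 + (V π₀.1 (x : Eis) : ZMod 3) *
          (- (V k.1.1 (x : Eis) : ZMod 3) * (V π₀.1 (x : Eis) : ZMod 3))
        = (V k.1.1 (x : Eis) : ZMod 3) * (1 - (V π₀.1 (x : Eis) : ZMod 3) *
          (V π₀.1 (x : Eis) : ZMod 3)) := by ring
      _ = 0 := by rw [h2, sub_self, mul_zero]
  have hrk : ∀ k l : κ, r k l.1 = if l = k then 1 else 0 := by
    intro k l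
    simp only [r]
    by_cases h : l = k
    · rw [h, if_pos rfl, if_pos rfl]
    · rw [if_neg (fun h' => h (Subtype.ext h')), if_neg (hkD l).2, if_neg h]
  -- the auxiliary primes
  have hex : ∀ (k : κ) (A : Finset PP), ∃ ρ : PP, ρ ∉ A ∧ ∃ ε : ZMod 3, ε ≠ 0 ∧
      ∀ π ∈ D, sym ρ.1 π.1 = ε * r k π := by
    intro k A
    obtain ⟨ρ, hρ, ε, hε, h⟩ := hNAUX D.card (fun i => (D.equivFin.symm i).1)
      (fun i => r k (D.equivFin.symm i).1) A (fun i j h => by
        exact D.equivFin.symm.injective (Subtype.ext h))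
    refine ⟨ρ, hρ, ε, hε, fun π hπ => ?_⟩
    have := h (D.equivFin ⟨π, hπ⟩)
    simpa using this
  let A₀ : Finset PP := (S₀.biUnion fun v => match v with
    | none => ∅
    | some π => {π})
  have hA₀ : ∀ π : PP, π ∈ A₀ ↔ some π ∈ S₀ := by
    intro π
    simp only [A₀, Finset.mem_biUnion]
    constructor
    · rintro ⟨v, hv, hπ⟩
      cases v with
      | none => simp at hπ
      | some π' =>
        have : π = π' := by simpa using hπ
        rw [this]
        exact hv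
    · intro h
      exact ⟨some π, h, by simp⟩
  obtain ⟨ρ, hρ1, hρ2⟩ := choose_distinct (κ := κ) (α := PP)
    (fun k ρ => ∃ ε : ZMod 3, ε ≠ 0 ∧ ∀ π ∈ D, sym ρ.1 π.1 = ε * r k π) A₀ hex Finset.univ
  have hρS : ∀ k, some (ρ k) ∉ S₀ := fun k h => (hρ1 k (Finset.mem_univ _)).2 ((hA₀ _).2 h)
  have hρD : ∀ k, ρ k ∉ D := fun k h => hρS k (hS0 _ ((hD _).1 h))
  have hρinj : ∀ k l, ρ k = ρ l → k = l := fun k l h =>
    hρ2 k (Finset.mem_univ _) l (Finset.mem_univ _) h
  choose ε hε hsym using fun k => (hρ1 k (Finset.mem_univ _)).1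
  have hsym' : ∀ k, ∀ π ∈ D, sym π.1 (ρ k).1 = ε k * r k π := by
    intro k π hπ
    have hne : π ≠ ρ k := fun h => hρD k (h ▸ hπ)
    rw [← recPP hSPP hSREC hne]
    exact hsym k π hπ
  have htm : ∀ k, ∀ π ∈ D, tm π.1 (ρ k).1 (x : Eis) =
      (V π.1 (x : Eis) : ZMod 3) * (ε k * r k π) := by
    intro k π hπ
    have hne : π ≠ ρ k := fun h => hρD k (h ▸ hπ)
    rw [tm_eq hSPP hne, hsym' k π hπ]
  have htm0 : ∀ k, ∑ π ∈ D, tm π.1 (ρ k).1 (x : Eis) = 0 := by
    intro k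
    rw [Finset.sum_congr rfl (htm k)]
    have h1 : ∀ π ∈ D, (V π.1 (x : Eis) : ZMod 3) * (ε k * r k π) =
        ε k * ((V π.1 (x : Eis) : ZMod 3) * r k π) := fun π _ => by ring
    rw [Finset.sum_congr rfl h1, ← Finset.mul_sum, hr0 k, mul_zero]
  have hLCρ : ∀ k, LC (ρ k).1 x := by
    intro k
    rw [hLCI.1 (ρ k) x hx0]
    have hnd : ¬ (ρ k).1 ∣ (x : Eis) := fun h => hρD k ((hD _).2 h)
    refine ⟨by rw [V_eq_zero hnd]; exact dvd_zero _, ?_⟩
    rw [ch_eq hSPP hSREC hx3 D hD (ρ k) (hρD k)]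
    have h1 : ∀ π ∈ D, (V π.1 (x : Eis) : ZMod 3) * sym π.1 (ρ k).1 =
        ε k * ((V π.1 (x : Eis) : ZMod 3) * r k π) := fun π hπ => by
      rw [hsym' k π hπ]
      ring
    rw [Finset.sum_congr rfl h1, ← Finset.mul_sum, hr0 k, mul_zero]
  have hLCD : ∀ π ∈ D, ¬ LC π.1 x := by
    intro π hπ h
    exact (hVD π hπ).2 ((hLCI.1 π x hx0).1 h).1
  -- the set of places
  let S : Finset Pl := S₀ ∪ Finset.univ.image (fun k : κ => some (ρ k))
  have hmemS : ∀ v, v ∈ S ↔ v ∈ S₀ ∨ ∃ k, some (ρ k) = v := by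
    intro v
    simp [S]
  have hLCS : ∀ v ∈ S, v ∉ S₀ → LC (uni v) x := by
    intro v hv hv0
    rcases (hmemS v).1 hv with h | ⟨k, rfl⟩
    · exact absurd h hv0
    · exact hLCρ k
  have hSsub : S₀ ⊆ S := fun v hv => (hmemS v).2 (Or.inl hv)
  have hcκ : Fintype.card κ + 1 = D.card := by
    have h1 : Fintype.card κ = (D.erase π₀).card := Fintype.card_coe _
    rw [h1, Finset.card_erase_of_mem hπ₀D]
    have : 0 < D.card := Finset.card_pos.2 ⟨π₀, hπ₀D⟩
    omega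
  have hfilter : ∀ v, v ∈ S.filter (fun v => ¬ LC (uni v) x) ↔
      v ∈ D.image some ∨ (v = none ∧ ¬ C9 x) := by
    intro v
    rw [Finset.mem_filter, hmemS]
    cases v with
    | none =>
      have h1 : ¬ LC (uni none) x ↔ ¬ C9 x := not_congr (hLCI.2.1 x hx3)
      rw [h1]
      constructor
      · rintro ⟨_, h⟩
        exact Or.inr ⟨rfl, h⟩
      · rintro (h | ⟨_, h⟩)
        · simp at h
        · exact ⟨Or.inl hnone, h⟩
    | some π =>
      constructor
      · rintro ⟨h1, h2⟩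
        left
        rw [Finset.mem_image]
        rcases h1 with h1 | ⟨k, hk⟩
        · exact ⟨π, (hD π).2 (hS0' π h1 h2), rfl⟩
        · exfalso
          have : ρ k = π := by simpa using hk
          exact h2 (this ▸ hLCρ k)
      · rintro (h | ⟨h, _⟩)
        · rw [Finset.mem_image] at h
          obtain ⟨π', hπ', he⟩ := h
          have : π' = π := by simpa using he
          subst this
          exact ⟨Or.inl (hS0 _ ((hD _).1 hπ')), hLCD _ hπ'⟩
        · simp at h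
  have hVρ : ∀ k l, V (ρ k).1 (ρ l).1 = if l = k then 1 else 0 := by
    intro k l
    by_cases h : l = k
    · rw [h, if_pos rfl]
      exact V_self
    · rw [if_neg h]
      apply V_eq_zero
      intro hd
      exact h (hρinj _ _ (eq_of_dvd hSPP hd)).symm
  have hρdS : ∀ (k : κ) (v : Pl), uni v ∣ (ρ k).1 → v ∈ S := by
    intro k v hv
    cases v with
    | none => exact hSsub hnone
    | some π =>
      have : π = ρ k := eq_of_dvd hSPP hv
      rw [this]
      exact (hmemS _).2 (Or.inr ⟨k, rfl⟩)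
  -- independence, first part
  have hsum : ∀ (n : κ → ZMod 3) (l : κ), ∑ k, n k * tm l.1.1 (ρ k).1 (x : Eis) =
      (V l.1.1 (x : Eis) : ZMod 3) * (ε l * n l) := by
    intro n l
    rw [Finset.sum_eq_single l]
    · rw [htm l l.1 (hkD l).1, hrk, if_pos rfl]
      ring
    · intro k _ hk
      rw [htm k l.1 (hkD l).1, hrk, if_neg (fun h => hk h.symm)]
      ring
    · intro h
      exact absurd (Finset.mem_univ _) h
  have hzero : ∀ (l : κ) (a : ZMod 3), (V l.1.1 (x : Eis) : ZMod 3) * (ε l * a) = 0 → a = 0 := by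
    intro l a h
    have h1 := (hVD l.1 (hkD l).1).1
    have h2 : (V l.1.1 (x : Eis) : ZMod 3) ≠ 0 := by
      intro h0
      rw [h0, mul_zero] at h1
      exact zero_ne_one h1
    rcases mul_eq_zero.1 h with h | h
    · exact absurd h h2
    · rcases mul_eq_zero.1 h with h | h
      · exact absurd h (hε l)
      · exact h
  by_cases h9 : C9 x
  · refine transfer (κ := κ) x S₀ S (fun k => (ρ k).1) hSsub hLCS ?_
      (fun k => (ρ k).2.1.ne_zero) hρdS ?_ ?_
    · have h1 : S.filter (fun v => ¬ LC (uni v) x) = D.image some := by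
        ext v
        rw [hfilter]
        constructor
        · rintro (h | ⟨_, h⟩)
          · exact h
          · exact absurd h9 h
        · exact fun h => Or.inl h
      rw [h1, Finset.card_image_of_injective _ (Option.some_injective _), hcκ]
    · apply mul_indep
      · exact fun k => (ρ k).2.1.ne_zero
      · intro k
        refine ⟨(ρ k).1, (ρ k).2.1, ?_, ?_⟩
        · rw [hVρ, if_pos rfl]
          exact one_ne_zero
        · intro l hl
          rw [hVρ, if_neg hl]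
    · intro n h
      funext l
      have h1 := h (some l.1)
      change ∑ k, n k * tm l.1.1 (ρ k).1 (x : Eis) = 0 at h1
      rw [hsum] at h1
      exact hzero l _ h1
  · have hnd : ∀ π : PP, ¬ π.1 ∣ w * lam ^ 3 := by
      intro π h
      rcases π.2.1.dvd_or_dvd h with h | h
      · apply π.2.1.not_unit
        apply isUnit_of_dvd_unit h
        rw [Eis.isUnit_iff_norm]
        decide
      · have h2 := π.2.1.dvd_of_dvd_pow h
        exact not_three hSPP π (h2.trans lam_dvd_three)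
    have hw0 : w ≠ 0 := by
      intro h
      have := congrArg Eis.im h
      revert this
      decide
    have hd0 : w * lam ^ 3 ≠ 0 := mul_ne_zero hw0 (pow_ne_zero _ prime_lam.ne_zero)
    let d : Option κ → Eis := fun o => match o with
      | none => w * lam ^ 3
      | some k => (ρ k).1
    have hd : ∀ o, d o ≠ 0 := by
      intro o
      cases o with
      | none => exact hd0
      | some k => exact (ρ k).2.1.ne_zero
    refine transfer (κ := Option κ) x S₀ S d hSsub hLCS ?_ hd ?_ ?_ ?_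
    · have h1 : S.filter (fun v => ¬ LC (uni v) x) = insert none (D.image some) := by
        ext v
        rw [hfilter, Finset.mem_insert]
        constructor
        · rintro (h | ⟨h, _⟩)
          · exact Or.inr h
          · exact Or.inl h
        · rintro (h | h)
          · exact Or.inr ⟨h, h9⟩
          · exact Or.inl h
      rw [h1, Finset.card_insert_of_notMem (by simp),
        Finset.card_image_of_injective _ (Option.some_injective _), ← hcκ, Fintype.card_option]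
    · intro o v hv
      cases o with
      | none =>
        cases v with
        | none => exact hSsub hnone
        | some π => exact absurd hv (hnd π)
      | some k => exact hρdS k v hv
    · apply mul_indep _ hd
      intro o
      cases o with
      | none =>
        refine ⟨lam, prime_lam, ?_, ?_⟩
        · intro h
          rw [V_eq_zero_iff] at h
          exact h ⟨w * lam ^ 2, by simp only [d]; ring⟩
        · intro o ho
          cases o with
          | none => exact absurd rfl ho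
          | some k => exact V_eq_zero (ppPrim (ρ k)).not_lam_dvd
      | some k =>
        refine ⟨(ρ k).1, (ρ k).2.1, ?_, ?_⟩
        · change V (ρ k).1 (ρ k).1 ≠ 0
          rw [V_self]
          exact one_ne_zero
        · intro o ho
          cases o with
          | none => exact V_eq_zero (hnd (ρ k))
          | some l =>
            change V (ρ k).1 (ρ l).1 = 0
            rw [hVρ, if_neg (fun h => ho (by rw [h]))]
    · intro n h
      have hs : ∀ π : PP, n none * tm π.1 (w * lam ^ 3) (x : Eis) +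
          ∑ k : κ, n (some k) * tm π.1 (ρ k).1 (x : Eis) = 0 := by
        intro π
        have h1 := h (some π)
        rw [Fintype.sum_option] at h1
        exact h1
      have hw : ∀ π : PP, tm π.1 (w * lam ^ 3) (x : Eis) = - tm π.1 (x : Eis) w := by
        intro π
        have hL := hSTM π.1 π.2.1 (not_three hSPP π)
        have hl0 : lam ≠ 0 := prime_lam.ne_zero
        have hx0' := cast_ne hx0
        have e1 : (lam : Eis) ^ 3 = lam * lam * lam := by ring
        rw [hL.mul _ _ _ hw0 (pow_ne_zero _ hl0) hx0', e1,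
          hL.mul _ _ _ (mul_ne_zero hl0 hl0) hl0 hx0', hL.mul _ _ _ hl0 hl0 hx0',
          hL.skew _ _ hx0' hw0]
        have e2 : tm π.1 lam (x : Eis) + tm π.1 lam (x : Eis) + tm π.1 lam (x : Eis) =
            3 * tm π.1 lam (x : Eis) := by ring
        have e3 : (3 : ZMod 3) = 0 := rfl
        rw [e2, e3, zero_mul, add_zero]
      have h1 : ∑ π ∈ D, (n none * tm π.1 (w * lam ^ 3) (x : Eis) +
          ∑ k : κ, n (some k) * tm π.1 (ρ k).1 (x : Eis)) = 0 :=
        Finset.sum_eq_zero (fun π _ => hs π)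
      rw [Finset.sum_add_distrib, Finset.sum_comm] at h1
      have h2 : ∑ k : κ, ∑ π ∈ D, n (some k) * tm π.1 (ρ k).1 (x : Eis) = 0 := by
        apply Finset.sum_eq_zero
        intro k _
        rw [← Finset.mul_sum, htm0 k, mul_zero]
      rw [h2, add_zero, ← Finset.mul_sum] at h1
      have h3 : ∑ π ∈ D, tm π.1 (w * lam ^ 3) (x : Eis) = wt ((x : Eis).norm) := by
        rw [← hSREC.2.1 (x : Eis) (intPrim hx3), sl_eq D (fun π hπ => by
          rcases hπ with hπ | hπ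
          · exact (hD π).2 hπ
          · exact absurd (hπ.mul_right _) (hnd π)), ← Finset.sum_neg_distrib]
        exact Finset.sum_congr rfl (fun π _ => hw π)
      rw [h3] at h1
      have hn0 : n none = 0 := by
        rcases mul_eq_zero.1 h1 with h | h
        · exact h
        · exact absurd h (wt_ne hx3 h9)
      funext o
      cases o with
      | none => exact hn0
      | some l =>
        have h4 := hs l.1
        rw [hn0, zero_mul, zero_add, hsum (fun k => n (some k)) l] at h4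
        exact hzero l _ h4

end Pool.Agent.PT


end

section

/-!
# NTR: the primes of `L = Q(w, x^(1/3))` above the primes of `Z[w]`
-/

open NumberField IsDedekindDomain Finset
open scoped nonZeroDivisors Pointwise

namespace Pool.Agent.PT

open Pool.Agent.Lib_helper18 Pool.Agent.Lib_helper18.Eis Pool.Agent.Lib_helper84.Cub

namespace NTR

variable {L : Type} [Field L] [NumberField L]

theorem uni_prime (v : Pl) : Prime (uni v) := by
  cases v with
  | none => exact prime_lam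
  | some π => exact π.2.1

theorem isIntegral_io (ι : Eis →+* L) (a : Eis) : IsIntegral ℤ (ι a) := by
  have hw : IsIntegral ℤ (ι w) := by
    refine IsIntegral.of_pow (n := 3) (by norm_num) ?_
    rw [← map_pow, w_cube, map_one]; exact isIntegral_one
  have hc : ∀ n : ℤ, IsIntegral ℤ ((n : ℤ) : L) := fun n => by
    have := isIntegral_algebraMap (R := ℤ) (A := L) (x := n)
    simpa using this
  rw [eq_re_add_im a, map_add, map_mul, map_intCast, map_intCast]
  exact (hc _).add ((hc _).mul hw)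

/-- the map to the ring of integers -/
noncomputable def io (ι : Eis →+* L) : Eis →+* 𝓞 L where
  toFun a := ⟨ι a, isIntegral_io ι a⟩
  map_one' := RingOfIntegers.ext (map_one ι)
  map_mul' a b := RingOfIntegers.ext (map_mul ι a b)
  map_zero' := RingOfIntegers.ext (map_zero ι)
  map_add' a b := RingOfIntegers.ext (map_add ι a b)

theorem coe_io (ι : Eis →+* L) (a : Eis) : algebraMap (𝓞 L) L (io ι a) = ι a := rfl

theorem val_le_one (ι : Eis →+* L) (P : HeightOneSpectrum (𝓞 L)) (a : Eis) :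
    P.valuation L (ι a) ≤ 1 := P.valuation_le_one (io ι a)

theorem val_lt_iff (ι : Eis →+* L) (P : HeightOneSpectrum (𝓞 L)) (a : Eis) :
    P.valuation L (ι a) < 1 ↔ io ι a ∈ P.asIdeal := P.valuation_lt_one_iff_mem (io ι a)

theorem exists_place (hSPP : SPP) (ι : Eis →+* L) (P : HeightOneSpectrum (𝓞 L)) :
    ∃ v : Pl, P ∈ Abv ι v ∧ ∀ a : Eis, P.valuation L (ι a) < 1 → uni v ∣ a := by
  set I : Ideal Eis := P.asIdeal.comap (io ι) with hI
  have hIp : I.IsPrime := P.isPrime.comap (io ι)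
  have hI0 : I ≠ ⊥ := by
    intro h0
    have h1 : ((Ideal.absNorm P.asIdeal : ℕ) : Eis) ∈ I := by
      rw [hI, Ideal.mem_comap, map_natCast]
      exact Ideal.absNorm_mem P.asIdeal
    rw [h0, Ideal.mem_bot] at h1
    have h2 : Ideal.absNorm P.asIdeal ≠ 0 := fun h => P.ne_bot (Ideal.absNorm_eq_zero_iff.mp h)
    have h3 := congrArg Eis.re h1
    rw [natCast_re, zero_re] at h3
    exact h2 (by exact_mod_cast h3)
  have hl : Prime (Submodule.IsPrincipal.generator I) :=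
    Submodule.IsPrincipal.prime_generator_of_isPrime I hI0
  set l := Submodule.IsPrincipal.generator I with hldef
  have hmem : ∀ a : Eis, a ∈ I ↔ l ∣ a := fun a => Submodule.IsPrincipal.mem_iff_generator_dvd I
  have hv : ∃ v : Pl, Associated l (uni v) := by
    by_cases h3 : l ∣ 3
    · exact ⟨none, (dvd_three_iff hl).mp h3⟩
    · obtain ⟨π, hπ⟩ := hSPP.1 l hl h3
      exact ⟨some π, hπ⟩
  obtain ⟨v, hv⟩ := hv
  refine ⟨v, ?_, fun a ha => ?_⟩
  · show P.valuation L (ι (uni v)) < 1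
    rw [val_lt_iff]
    exact (hmem _).mpr hv.dvd
  · rw [val_lt_iff] at ha
    exact hv.symm.dvd.trans ((hmem a).mp ha)

theorem lt_iff (hSPP : SPP) {ι : Eis →+* L} {P : HeightOneSpectrum (𝓞 L)} {v : Pl}
    (hP : P ∈ Abv ι v) (a : Eis) : P.valuation L (ι a) < 1 ↔ uni v ∣ a := by
  constructor
  · intro h
    obtain ⟨v', h1, h2⟩ := exists_place hSPP ι P
    have h3 : uni v' ∣ uni v := h2 _ hP
    have h4 : Associated (uni v') (uni v) := (uni_prime v').associated_of_dvd (uni_prime v) h3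
    exact h4.symm.dvd.trans (h2 a h)
  · rintro ⟨b, rfl⟩
    rw [map_mul, map_mul]
    exact mul_lt_one_of_lt_of_le hP (val_le_one ι P b)

theorem eq_one_of (hSPP : SPP) {ι : Eis →+* L} {P : HeightOneSpectrum (𝓞 L)} {v : Pl}
    (hP : P ∈ Abv ι v) {a : Eis} (ha : ¬ uni v ∣ a) : P.valuation L (ι a) = 1 := by
  rcases lt_or_eq_of_le (val_le_one ι P a) with h | h
  · exact absurd ((lt_iff hSPP hP a).mp h) ha
  · exact h

theorem reduce (hSPP : SPP) {ι : Eis →+* L} (hinj : Function.Injective ι)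
    {P : HeightOneSpectrum (𝓞 L)} {v : Pl}
    (hP : P ∈ Abv ι v) {T : L} {a b : Eis} (hb : b ≠ 0) (hT : T * ι b = ι a)
    (hTP : P.valuation L T < 1) :
    ∃ a' b' : Eis, ¬ uni v ∣ b' ∧ T * ι b' = ι (uni v * a') := by
  have hl := uni_prime v
  have hιb : ι b ≠ 0 := fun h => hb (hinj (by rw [h, map_zero]))
  by_cases ha : a = 0
  · refine ⟨0, 1, fun h => hl.not_dvd_one h, ?_⟩
    rw [ha, map_zero] at hT
    rcases mul_eq_zero.mp hT with h | h
    · rw [h]; simp
    · exact absurd h hιb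
  obtain ⟨a', ha', hla⟩ := V_split hl ha
  obtain ⟨b', hb', hlb⟩ := V_split hl hb
  set n := V (uni v) a with hn
  set m := V (uni v) b with hm
  have hιl : ι (uni v) ≠ 0 := fun h => hl.ne_zero (hinj (by rw [h, map_zero]))
  set t := P.valuation L (ι (uni v)) with ht
  have ht1 : t < 1 := hP
  have ht0 : t ≠ 0 := by rw [ht]; exact (Valuation.ne_zero_iff _).mpr hιl
  have hv1 := congrArg (P.valuation L) hT
  rw [ha', hb', map_mul, map_mul ι, map_mul ι, map_mul, map_mul, map_pow, map_pow, map_pow,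
    map_pow, eq_one_of hSPP hP hla, eq_one_of hSPP hP hlb, mul_one, mul_one, ← ht] at hv1
  have hmn : m < n := by
    by_contra hcon
    push Not at hcon
    have h1 : t ^ m ≤ t ^ n := pow_le_pow_right_of_le_one' ht1.le hcon
    rw [← hv1] at h1
    have h2 : P.valuation L T * t ^ m < 1 * t ^ m := by
      exact mul_lt_mul_of_pos_right hTP (zero_lt_iff.mpr (pow_ne_zero _ ht0))
    rw [one_mul] at h2
    exact absurd h1 (not_le.mpr h2)
  obtain ⟨k, hk⟩ : ∃ k, n = m + (k + 1) := ⟨n - m - 1, by omega⟩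
  refine ⟨uni v ^ k * a', b', hlb, ?_⟩
  have h3 : ι (uni v) ^ m ≠ 0 := pow_ne_zero _ hιl
  apply mul_left_cancel₀ h3
  rw [ha', hb', hk] at hT
  simp only [map_mul, map_pow] at hT ⊢
  calc ι (uni v) ^ m * (T * ι b') = T * (ι (uni v) ^ m * ι b') := by ring
    _ = _ := hT
    _ = _ := by ring

theorem exists_map (σ : L ≃ₐ[ℚ] L) (P : HeightOneSpectrum (𝓞 L)) :
    ∃ P' : HeightOneSpectrum (𝓞 L), ∀ z : L, P'.valuation L (σ z) = P.valuation L z := by
  set e : 𝓞 L ≃+* 𝓞 L := RingOfIntegers.mapRingEquiv (σ : L ≃+* L) with he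
  have hmem : ∀ (n : ℕ) (r : 𝓞 L), e r ∈ (P.asIdeal.map e) ^ n ↔ r ∈ P.asIdeal ^ n := by
    intro n r
    rw [← Ideal.map_pow, Ideal.mem_map_of_equiv]
    constructor
    · rintro ⟨x, hx, hxr⟩
      rwa [e.injective hxr] at hx
    · intro h
      exact ⟨r, h, rfl⟩
  let P' : HeightOneSpectrum (𝓞 L) :=
    { asIdeal := P.asIdeal.map e
      isPrime := Ideal.map_isPrime_of_equiv e
      ne_bot := fun h => P.ne_bot ((Ideal.map_eq_bot_iff_of_injective e.injective).mp h) }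
  refine ⟨P', ?_⟩
  have hint : ∀ r : 𝓞 L, P'.intValuation (e r) = P.intValuation r := by
    intro r
    by_cases hr : r = 0
    · rw [hr, map_zero, map_zero, map_zero]
    have her : e r ≠ 0 := fun h => hr (e.injective (by rw [h, map_zero]))
    have hk : ∀ (n : ℕ), P'.intValuation (e r) ≤ WithZero.exp (-(n : ℤ)) ↔
        P.intValuation r ≤ WithZero.exp (-(n : ℤ)) := by
      intro n
      rw [HeightOneSpectrum.intValuation_le_pow_iff_mem,
        HeightOneSpectrum.intValuation_le_pow_iff_mem]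
      exact hmem n r
    have h1 := P'.intValuation_eq_exp_neg_multiplicity her
    have h2 := P.intValuation_eq_exp_neg_multiplicity hr
    refine le_antisymm ?_ ?_
    · rw [h2]
      exact (hk _).mpr h2.le
    · rw [h1]
      exact (hk _).mp h1.le
  have halg : ∀ r : 𝓞 L, σ (algebraMap (𝓞 L) L r) = algebraMap (𝓞 L) L (e r) := fun r => rfl
  intro z
  obtain ⟨x, y, hy, rfl⟩ := IsFractionRing.div_surjective (A := 𝓞 L) z
  rw [map_div₀, map_div₀, map_div₀, halg, halg, HeightOneSpectrum.valuation_of_algebraMap,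
    HeightOneSpectrum.valuation_of_algebraMap, HeightOneSpectrum.valuation_of_algebraMap,
    HeightOneSpectrum.valuation_of_algebraMap, hint, hint]

theorem io_ne_zero {ι : Eis →+* L} (hinj : Function.Injective ι) {a : Eis} (ha : a ≠ 0) :
    io ι a ≠ 0 := by
  intro h
  apply ha
  apply hinj
  rw [map_zero, ← coe_io, h, map_zero]

theorem abv_finite {ι : Eis →+* L} (hinj : Function.Injective ι) (v : Pl) : (Abv ι v).Finite := by
  have h0 := io_ne_zero hinj (uni_prime v).ne_zero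
  have h1 : Ideal.span {io ι (uni v)} ≠ 0 := by
    intro h
    exact h0 (Ideal.span_singleton_eq_bot.mp h)
  refine (Ideal.finite_factors h1).subset ?_
  intro P hP
  exact (P.valuation_lt_one_iff_dvd (K := L) (io ι (uni v))).mp hP

theorem not_isUnit_io {ι : Eis →+* L} (hinj : Function.Injective ι) {c : L ≃ₐ[ℚ] L}
    (hc : ∀ a : Eis, c (ι a) = ι (conj a)) (v : Pl) : ¬ IsUnit (io ι (uni v)) := by
  intro hu
  obtain ⟨z, hz⟩ := hu.exists_right_inv
  have h1 : ι (uni v) * (z : L) = 1 := by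
    have := congrArg (algebraMap (𝓞 L) L) hz
    rw [map_mul, map_one] at this
    exact this
  have h2 : ι (conj (uni v)) * c (z : L) = 1 := by
    rw [← hc, ← map_mul, h1, map_one]
  have hzi : IsIntegral ℤ ((z : L) * c (z : L)) := by
    have hz1 : IsIntegral ℤ (z : L) := z.2
    exact hz1.mul (map_isIntegral_int c hz1)
  set N := (uni v).norm with hN
  have h3 : ((N : ℤ) : L) * ((z : L) * c (z : L)) = 1 := by
    have h4 : ι (uni v) * ι (conj (uni v)) = ((N : ℤ) : L) := by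
      rw [← map_mul, mul_conj, map_intCast]
    rw [← h4]
    calc ι (uni v) * ι (conj (uni v)) * ((z : L) * c (z : L))
        = (ι (uni v) * (z : L)) * (ι (conj (uni v)) * c (z : L)) := by ring
      _ = 1 := by rw [h1, h2, mul_one]
  have hN0 : N ≠ 0 := fun h => (uni_prime v).ne_zero (norm_eq_zero.mp h)
  have hNL : ((N : ℤ) : L) ≠ 0 := by exact_mod_cast hN0
  have h5 : (z : L) * c (z : L) = algebraMap ℚ L ((N : ℚ)⁻¹) := by
    rw [map_inv₀, map_intCast]
    exact (eq_inv_of_mul_eq_one_right h3)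
  rw [h5] at hzi
  have h6 : IsIntegral ℤ ((N : ℚ)⁻¹) := (isIntegral_algebraMap_iff (algebraMap ℚ L).injective).mp hzi
  obtain ⟨k, hk⟩ := IsIntegrallyClosed.isIntegral_iff.mp h6
  have h7 : (k : ℚ) * N = 1 := by
    have hk' : (k : ℚ) = (N : ℚ)⁻¹ := by simpa using hk
    rw [hk']
    exact inv_mul_cancel₀ (by exact_mod_cast hN0)
  have h8 : k * N = 1 := by exact_mod_cast h7
  have h9 : N = 1 := by
    rcases Int.eq_one_or_neg_one_of_mul_eq_one' h8 with h | h
    · exact h.2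
    · have := norm_nonneg (uni v)
      omega
  exact (uni_prime v).not_unit (isUnit_iff_norm.mpr h9)

theorem abv_nonempty {ι : Eis →+* L} (hinj : Function.Injective ι) {c : L ≃ₐ[ℚ] L}
    (hc : ∀ a : Eis, c (ι a) = ι (conj a)) (v : Pl) : (Abv ι v).Nonempty := by
  obtain ⟨M, hM, hmem⟩ := exists_max_ideal_of_mem_nonunits
    (show io ι (uni v) ∈ nonunits (𝓞 L) from not_isUnit_io hinj hc v)
  have h0 : M ≠ ⊥ := by
    intro h
    rw [h, Ideal.mem_bot] at hmem
    exact io_ne_zero hinj (uni_prime v).ne_zero hmem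
  refine ⟨⟨M, hM.isPrime, h0⟩, ?_⟩
  show HeightOneSpectrum.valuation L _ (ι (uni v)) < 1
  rw [val_lt_iff]
  exact hmem

theorem transitive (hSPP : SPP) {ι : Eis →+* L} (hinj : Function.Injective ι) {σ : L ≃ₐ[ℚ] L}
    (hσ3 : ∀ z : L, σ (σ (σ z)) = z)
    (hfix : ∀ z : L, σ z = z → ∃ a b : Eis, b ≠ 0 ∧ z * ι b = ι a)
    (v : Pl) (P P' : HeightOneSpectrum (𝓞 L)) (hP : P ∈ Abv ι v) (hP' : P' ∈ Abv ι v) :
    ∃ i : ℕ, ∀ z : L, P'.valuation L ((σ ^ i) z) = P.valuation L z := by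
  obtain ⟨P1, h1⟩ := exists_map σ P
  obtain ⟨P2, h2⟩ := exists_map σ P1
  by_contra hcon
  push Not at hcon
  have hn0 : P' ≠ P := by
    rintro rfl
    obtain ⟨z, hz⟩ := hcon 0
    exact hz (by rw [pow_zero]; rfl)
  have hn1 : P' ≠ P1 := by
    rintro rfl
    obtain ⟨z, hz⟩ := hcon 1
    exact hz (by rw [pow_one]; exact h1 z)
  have hn2 : P' ≠ P2 := by
    rintro rfl
    obtain ⟨z, hz⟩ := hcon 2
    exact hz (by
      rw [pow_two]
      show P'.valuation L (σ (σ z)) = _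
      rw [h2, h1])
  let f : Fin 3 → Ideal (𝓞 L) := ![P.asIdeal, P1.asIdeal, P2.asIdeal]
  have hfp : ∀ i, (f i).IsPrime := by
    intro i
    fin_cases i
    · exact P.isPrime
    · exact P1.isPrime
    · exact P2.isPrime
  have hne : ∀ Q : HeightOneSpectrum (𝓞 L), P' ≠ Q → ¬ P'.asIdeal ≤ Q.asIdeal := by
    intro Q hQ hle
    have h3 : P'.asIdeal = Q.asIdeal := P'.isMaximal.eq_of_le Q.isPrime.ne_top hle
    exact hQ (HeightOneSpectrum.ext h3)
  have hnot : ¬ ((P'.asIdeal : Set (𝓞 L)) ⊆ ⋃ i ∈ ((Finset.univ : Finset (Fin 3)) : Set (Fin 3)), f i) := by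
    intro hsub
    obtain ⟨i, _, hi⟩ := (Ideal.subset_union_prime (0 : Fin 3) 0 (fun i _ _ _ => hfp i)).mp hsub
    fin_cases i
    · exact hne P hn0 hi
    · exact hne P1 hn1 hi
    · exact hne P2 hn2 hi
  obtain ⟨z, hz, hz2⟩ := Set.not_subset.mp hnot
  have hzi : ∀ i, z ∉ f i := by
    intro i hi
    apply hz2
    simp only [Set.mem_iUnion]
    exact ⟨i, by simp, hi⟩
  set Z : L := algebraMap (𝓞 L) L z with hZ
  have hv0 : P.valuation L Z = 1 := P.valuation_eq_one_iff_notMem.mpr (hzi 0)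
  have hv1 : P1.valuation L Z = 1 := P1.valuation_eq_one_iff_notMem.mpr (hzi 1)
  have hv2 : P2.valuation L Z = 1 := P2.valuation_eq_one_iff_notMem.mpr (hzi 2)
  have hv' : P'.valuation L Z < 1 := (P'.valuation_lt_one_iff_mem z).mpr hz
  have hint : ∀ (Q : HeightOneSpectrum (𝓞 L)) (y : L), IsIntegral ℤ y → Q.valuation L y ≤ 1 :=
    fun Q y hy => Q.valuation_le_one (⟨y, hy⟩ : 𝓞 L)
  have hZi : IsIntegral ℤ Z := z.2
  have hZ1 : IsIntegral ℤ (σ Z) := map_isIntegral_int σ hZi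
  have hZ2 : IsIntegral ℤ (σ (σ Z)) := map_isIntegral_int σ hZ1
  set T : L := Z * σ Z * σ (σ Z) with hT
  have hTfix : σ T = T := by
    rw [hT, map_mul, map_mul, hσ3]; ring
  obtain ⟨a, b, hb, hab⟩ := hfix T hTfix
  have hT' : P'.valuation L T < 1 := by
    rw [hT, mul_assoc, map_mul, map_mul]
    exact mul_lt_one_of_lt_of_le hv' (mul_le_one' (hint P' _ hZ1) (hint P' _ hZ2))
  obtain ⟨a', b', hb', hab'⟩ := reduce hSPP hinj hP' hb hab hT'
  have hTP : P.valuation L T < 1 := by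
    have h5 := congrArg (P.valuation L) hab'
    rw [map_mul, eq_one_of hSPP hP hb', mul_one] at h5
    rw [h5]
    exact (lt_iff hSPP hP _).mpr (dvd_mul_right _ _)
  have hTP1 : P.valuation L T = 1 := by
    rw [hT, map_mul, map_mul, hv0, one_mul]
    have e1 : P.valuation L (σ Z) = 1 := by
      rw [← h1, ← h2, hσ3, hv2]
    have e2 : P.valuation L (σ (σ Z)) = 1 := by
      rw [← h1, hσ3, hv1]
    rw [e1, e2, one_mul]
  rw [hTP1] at hTP
  exact lt_irrefl _ hTP

/-- traces with small valuation are divisible by the uniformizer -/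
theorem trace_dvd (hSPP : SPP) {ι : Eis →+* L} (hinj : Function.Injective ι) {σ : L ≃ₐ[ℚ] L}
    (hσ3 : ∀ z : L, σ (σ (σ z)) = z)
    (hfix : ∀ z : L, σ z = z → ∃ a b : Eis, b ≠ 0 ∧ z * ι b = ι a)
    {v : Pl} {P : HeightOneSpectrum (𝓞 L)} (hP : P ∈ Abv ι v) {s : L} (hs : IsIntegral ℤ s)
    (h0 : P.valuation L s < 1) (h1 : P.valuation L (σ s) < 1)
    (h2 : P.valuation L (σ (σ s)) < 1) :
    ∃ t : L, IsIntegral ℤ t ∧ s + σ s + σ (σ s) = ι (uni v) * t := by
  set T : L := s + σ s + σ (σ s) with hT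
  have hTfix : σ T = T := by
    rw [hT, map_add, map_add, hσ3]; ring
  obtain ⟨a, b, hb, hab⟩ := hfix T hTfix
  have hTP : P.valuation L T < 1 := by
    rw [hT]
    exact lt_of_le_of_lt (Valuation.map_add _ _ _)
      (max_lt (lt_of_le_of_lt (Valuation.map_add _ _ _) (max_lt h0 h1)) h2)
  obtain ⟨a', b', hb', hab'⟩ := reduce hSPP hinj hP hb hab hTP
  have hl := uni_prime v
  obtain ⟨m, n, hmn⟩ := (hl.coprime_iff_not_dvd.mpr hb' : IsCoprime (uni v) b')
  have hTi : IsIntegral ℤ T := by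
    have h3 : IsIntegral ℤ (σ s) := map_isIntegral_int σ hs
    have h4 : IsIntegral ℤ (σ (σ s)) := map_isIntegral_int σ h3
    exact (hs.add h3).add h4
  refine ⟨ι m * T + ι n * ι a', ((isIntegral_io ι m).mul hTi).add
    ((isIntegral_io ι n).mul (isIntegral_io ι a')), ?_⟩
  have h5 : T = T * ι (m * uni v + n * b') := by rw [hmn, map_one, mul_one]
  have h6 : ι (m * uni v + n * b') = ι m * ι (uni v) + ι n * ι b' := by
    simp only [map_add, map_mul]
  rw [h6] at h5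
  rw [map_mul] at hab'
  calc T = T * (ι m * ι (uni v) + ι n * ι b') := h5
    _ = T * ι m * ι (uni v) + ι n * (T * ι b') := by ring
    _ = T * ι m * ι (uni v) + ι n * (ι (uni v) * ι a') := by rw [hab']
    _ = _ := by ring

theorem reduced (hSPP : SPP) {x : ℤ} {ι : Eis →+* L} {θ : L} {σ c : L ≃ₐ[ℚ] L}
    (hF : CubF x L ι θ σ c)
    (hσ3 : ∀ z : L, σ (σ (σ z)) = z)
    (hfix : ∀ z : L, σ z = z → ∃ a b : Eis, b ≠ 0 ∧ z * ι b = ι a)
    {π : PP} {P : HeightOneSpectrum (𝓞 L)} (hx : ¬ π.1 ∣ (x : Eis))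
    (hP : P ∈ Abv ι (some π)) {y u : L} (hy : IsIntegral ℤ y) (hu : IsIntegral ℤ u)
    (hyu : y ^ 2 = ι π.1 * u) : ∃ t : L, IsIntegral ℤ t ∧ y = ι π.1 * t := by
  have hinj := hF.inj
  have hθi : IsIntegral ℤ θ := by
    refine IsIntegral.of_pow (n := 3) (by norm_num) ?_
    rw [hF.cube]
    have := isIntegral_algebraMap (R := ℤ) (A := L) (x := x)
    simpa using this
  have hint : ∀ (Q : HeightOneSpectrum (𝓞 L)) (y : L), IsIntegral ℤ y → Q.valuation L y ≤ 1 :=
    fun Q y hy => Q.valuation_le_one (⟨y, hy⟩ : 𝓞 L)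
  have hσi : ∀ z : L, IsIntegral ℤ z → IsIntegral ℤ (σ z) := fun z hz => map_isIntegral_int σ hz
  have hPlt : P.valuation L (ι π.1) < 1 := hP
  -- small valuations of all conjugates
  have key : ∀ z t : L, IsIntegral ℤ t → z ^ 2 = ι π.1 * t → P.valuation L z < 1 := by
    intro z t ht hzt
    have h1 : P.valuation L z ^ 2 < 1 := by
      rw [← map_pow, hzt, map_mul]
      exact mul_lt_one_of_lt_of_le hPlt (hint P t ht)
    by_contra hcon
    push Not at hcon
    exact absurd (one_le_pow₀ hcon (n := 2)) (not_le.mpr h1)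
  have hy1 : σ y ^ 2 = ι π.1 * σ u := by
    rw [← map_pow, hyu, map_mul, hF.sι]
  have hy2 : σ (σ y) ^ 2 = ι π.1 * σ (σ u) := by
    rw [← map_pow, hy1, map_mul, hF.sι]
  have k0 := key y u hu hyu
  have k1 := key (σ y) (σ u) (hσi _ hu) hy1
  have k2 := key (σ (σ y)) (σ (σ u)) (hσi _ (hσi _ hu)) hy2
  have htr : ∀ t : L, IsIntegral ℤ t → ∃ s : L, IsIntegral ℤ s ∧
      y * t + σ (y * t) + σ (σ (y * t)) = ι π.1 * s := by
    intro t ht
    refine trace_dvd hSPP hinj hσ3 hfix hP (hy.mul ht) ?_ ?_ ?_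
    · rw [map_mul]
      exact mul_lt_one_of_lt_of_le k0 (hint P t ht)
    · rw [map_mul, map_mul]
      exact mul_lt_one_of_lt_of_le k1 (hint P _ (hσi _ ht))
    · rw [map_mul, map_mul, map_mul]
      exact mul_lt_one_of_lt_of_le k2 (hint P _ (hσi _ (hσi _ ht)))
  obtain ⟨s0, hs0, e0⟩ := htr 1 isIntegral_one
  obtain ⟨s1, hs1, e1⟩ := htr θ hθi
  obtain ⟨s2, hs2, e2⟩ := htr (θ ^ 2) (hθi.pow 2)
  have hw : ι w ^ 2 + ι w + 1 = 0 := by
    rw [← map_pow, ← map_one ι, ← map_add, ← map_add, w_rel, map_zero]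
  have hw3 : ι w ^ 3 = 1 := by rw [← map_pow, w_cube, map_one]
  have hcube := hF.cube
  have hmain : 3 * (x : L) * y = ι π.1 * ((x : L) * s0 + θ * s2 + θ ^ 2 * s1) := by
    have h1 : 3 * (x : L) * y = (x : L) * (y * 1 + σ (y * 1) + σ (σ (y * 1))) +
        θ * (y * θ ^ 2 + σ (y * θ ^ 2) + σ (σ (y * θ ^ 2))) +
        θ ^ 2 * (y * θ + σ (y * θ) + σ (σ (y * θ))) := by
      simp only [map_mul, map_pow, hF.sθ, hF.sι, mul_one, map_one]
      rw [← hcube]
      have hw4 : ι w ^ 4 = ι w := by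
        calc ι w ^ 4 = ι w ^ 3 * ι w := by ring
          _ = ι w := by rw [hw3, one_mul]
      have e1' : θ ^ 3 * (σ y * (ι w ^ 2 + ι w + 1)) = 0 := by rw [hw]; ring
      have e2' : θ ^ 3 * (σ (σ y) * (ι w ^ 4 + ι w ^ 2 + 1)) = 0 := by
        rw [hw4]
        have : ι w + ι w ^ 2 + 1 = 0 := by rw [← hw]; ring
        rw [this]; ring
      linear_combination (-1 : L) * e1' - e2'
    rw [h1, e0, e1, e2]
    ring
  have h3 : ¬ π.1 ∣ (3 * x : Eis) := by
    intro h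
    rcases π.2.1.dvd_or_dvd h with h | h
    · exact (hSPP.2.2.2.1 π).1 h
    · exact hx h
  obtain ⟨m, n, hmn⟩ := (π.2.1.coprime_iff_not_dvd.mpr h3 : IsCoprime π.1 (3 * x : Eis))
  have hxi : IsIntegral ℤ (x : L) := by
    have := isIntegral_algebraMap (R := ℤ) (A := L) (x := x)
    simpa using this
  refine ⟨ι m * y + ι n * ((x : L) * s0 + θ * s2 + θ ^ 2 * s1), ?_, ?_⟩
  · exact ((isIntegral_io ι m).mul hy).add ((isIntegral_io ι n).mul
      (((hxi.mul hs0).add (hθi.mul hs2)).add ((hθi.pow 2).mul hs1)))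
  · have h5 : y = y * ι (m * π.1 + n * (3 * x : Eis)) := by rw [hmn, map_one, mul_one]
    have h6 : ι (m * π.1 + n * (3 * x : Eis)) = ι m * ι π.1 + ι n * (3 * (x : L)) := by
      simp only [map_add, map_mul, map_intCast, map_ofNat]
    rw [h6] at h5
    calc y = y * (ι m * ι π.1 + ι n * (3 * (x : L))) := h5
      _ = ι m * ι π.1 * y + ι n * (3 * (x : L) * y) := by ring
      _ = _ := by rw [hmain]; ring

theorem unram (hSPP : SPP) {x : ℤ} {ι : Eis →+* L} {θ : L} {σ c : L ≃ₐ[ℚ] L}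
    (hF : CubF x L ι θ σ c)
    (hσ3 : ∀ z : L, σ (σ (σ z)) = z)
    (hfix : ∀ z : L, σ z = z → ∃ a b : Eis, b ≠ 0 ∧ z * ι b = ι a)
    (π : PP) (P : HeightOneSpectrum (𝓞 L)) (hx : ¬ π.1 ∣ (x : Eis))
    (hP : P ∈ Abv ι (some π)) : P.valuation L (ι π.1) = WithZero.exp (-1 : ℤ) := by
  have hinj := hF.inj
  have hp0 : io ι π.1 ≠ 0 := io_ne_zero hinj π.2.1.ne_zero
  set p := io ι π.1 with hp
  have hnot : p ∉ P.asIdeal ^ 2 := by
    intro hmem
    have hdvd : P.asIdeal ^ 2 ∣ Ideal.span {p} := Ideal.dvd_span_singleton.mpr hmem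
    obtain ⟨J', hJ'⟩ := hdvd
    set J : Ideal (𝓞 L) := P.asIdeal * J' with hJ
    have hpJ : Ideal.span {p} = P.asIdeal * J := by rw [hJ', hJ, pow_two, mul_assoc]
    have hJ2 : J * J ≤ Ideal.span {p} := by
      have h1 : J * J = Ideal.span {p} * J' := by
        rw [hJ', hJ]; ring
      rw [h1]
      exact Ideal.mul_le_left
    have hpne : Ideal.span {p} ≠ (0 : Ideal (𝓞 L)) := fun h => hp0 (Ideal.span_singleton_eq_bot.mp h)
    have hJ0 : J ≠ 0 := by
      intro h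
      rw [h, mul_zero] at hpJ
      exact hpne hpJ
    have hnle : ¬ J ≤ Ideal.span {p} := by
      intro hle
      have h1 : J = P.asIdeal * J := le_antisymm (by rw [← hpJ]; exact hle) Ideal.mul_le_right
      have h2 : (1 : Ideal (𝓞 L)) * J = P.asIdeal * J := by rw [one_mul]; exact h1
      have h3 : (1 : Ideal (𝓞 L)) = P.asIdeal := mul_right_cancel₀ hJ0 h2
      exact P.isPrime.ne_top (by rw [← h3, Ideal.one_eq_top])
    obtain ⟨y, hyJ, hyp⟩ := Set.not_subset.mp hnle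
    have hy2 : y * y ∈ Ideal.span {p} := hJ2 (Ideal.mul_mem_mul hyJ hyJ)
    obtain ⟨u, hu⟩ := Ideal.mem_span_singleton.mp hy2
    have hu' : (y : L) ^ 2 = ι π.1 * (u : L) := by
      have := congrArg (algebraMap (𝓞 L) L) hu
      rw [map_mul, map_mul, ← pow_two] at this
      exact this
    obtain ⟨t, ht, hyt⟩ := reduced hSPP hF hσ3 hfix hx hP y.2 u.2 hu'
    apply hyp
    show y ∈ Ideal.span {p}
    rw [Ideal.mem_span_singleton]
    set t' : 𝓞 L := ⟨t, ht⟩ with ht'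
    exact ⟨t', RingOfIntegers.ext (hyt.trans (map_mul (algebraMap (𝓞 L) L) p t').symm)⟩
  have hval : P.valuation L (ι π.1) = P.intValuation p := P.valuation_of_algebraMap p
  rw [hval, P.intValuation_eq_exp_neg_multiplicity hp0]
  have hlt : P.intValuation p < 1 := by rw [← hval]; exact hP
  set k := multiplicity P.asIdeal (Ideal.span {p}) with hk
  have hk' := P.intValuation_eq_exp_neg_multiplicity hp0
  rw [← hk] at hk'
  have hk1 : 1 ≤ k := by
    by_contra h
    have h0 : k = 0 := by omega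
    rw [h0] at hk'
    rw [hk'] at hlt
    simp at hlt
  have hk2 : k < 2 := by
    by_contra h
    push Not at h
    apply hnot
    rw [← P.intValuation_le_pow_iff_mem, hk', WithZero.exp_le_exp]
    push_cast
    omega
  have hk3 : k = 1 := by omega
  rw [hk3]
  norm_num

end NTR

theorem NTR_thm (hSPP : SPP) (hNHN : NHN) : NTR := by
  intro x L _ _ ι θ σ c hx0 hx3 hF
  obtain ⟨hσ3, hfix, -⟩ := hNHN x L ι θ σ c hx0 hF
  exact ⟨fun P a => NTR.val_le_one ι P a, fun P => NTR.exists_place hSPP ι P,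
    fun P => NTR.exists_map σ P,
    fun v => ⟨NTR.abv_finite hF.inj v, NTR.abv_nonempty hF.inj hF.cι v⟩,
    fun v P P' hP hP' => NTR.transitive hSPP hF.inj hσ3 hfix v P P' hP hP',
    fun π P hπ hP => NTR.unram hSPP hF hσ3 hfix π P hπ hP⟩

end Pool.Agent.PT


end

section

/-!
# Prime twists of rank zero, `n` divisible by `3`: basis of the admissible classes (module EBAT)
-/

namespace Pool.Agent.PT3

open Pool.Agent.Lib_helper18 Pool.Agent.Lib_helper18.Eis Pool.Agent.Lib_helper84.Cub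
open Pool.Agent.PT Pool.Agent.PTE

namespace EBAT

open Pool.Agent.PT.EBAS

/-! ### Linear algebra -/

/-- A basis made of a basis of the kernel of a linear map and of given vectors. -/
theorem glue {S Q : Type} [AddCommGroup S] [Module (ZMod 3) S] [Module.Finite (ZMod 3) S]
    [AddCommGroup Q] [Module (ZMod 3) Q] (Λ : S →ₗ[ZMod 3] Q) {c : ℕ} (u : Fin c → S)
    (hli : ∀ g : Fin c → ZMod 3, ∑ i, g i • Λ (u i) = 0 → ∀ i, g i = 0)
    (hsp : ∀ x, ∃ g : Fin c → ZMod 3, Λ x = ∑ i, g i • Λ (u i)) :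
    ∃ (e : Fin (Module.finrank (ZMod 3) S) ≃
        Fin (Module.finrank (ZMod 3) (LinearMap.ker Λ)) ⊕ Fin c)
      (b : Module.Basis (Fin (Module.finrank (ZMod 3) S)) (ZMod 3) S),
      ∀ i, b i = Sum.elim (fun a =>
        ((Module.finBasis (ZMod 3) (LinearMap.ker Λ) a : LinearMap.ker Λ) : S)) u (e i) := by
  classical
  set K := Module.finBasis (ZMod 3) (LinearMap.ker Λ) with hK
  set F : Fin (Module.finrank (ZMod 3) (LinearMap.ker Λ)) ⊕ Fin c → S :=
    Sum.elim (fun a => ((K a : LinearMap.ker Λ) : S)) u with hF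
  have h1 : LinearIndependent (ZMod 3) F := by
    rw [Fintype.linearIndependent_iff]
    intro g hg
    rw [Fintype.sum_sum_type] at hg
    simp only [hF, Sum.elim_inl, Sum.elim_inr] at hg
    have h2 : ∀ i, g (Sum.inr i) = 0 := by
      apply hli
      have h3 := congrArg Λ hg
      rw [map_add, map_sum, map_sum, map_zero] at h3
      rw [Finset.sum_eq_zero fun a _ => ?_, zero_add] at h3
      · rw [← h3]
        exact Finset.sum_congr rfl fun i _ => by rw [map_smul]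
      · rw [map_smul, LinearMap.mem_ker.mp (K a).2, smul_zero]
    have h4 : ∑ a, g (Sum.inl a) • K a = 0 := by
      apply Subtype.ext
      rw [AddSubmonoidClass.coe_finsetSum, Submodule.coe_zero, ← hg]
      rw [Finset.sum_eq_zero fun i (_ : i ∈ Finset.univ) => show g (Sum.inr i) • u i = 0 by
        rw [h2 i, zero_smul], add_zero]
      rfl
    have h5 := Fintype.linearIndependent_iff.mp K.linearIndependent _ h4
    rintro (a | i)
    · exact h5 a
    · exact h2 i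
  have h6 : ⊤ ≤ Submodule.span (ZMod 3) (Set.range F) := by
    intro x _
    obtain ⟨g, hg⟩ := hsp x
    have h7 : x - ∑ i, g i • u i ∈ LinearMap.ker Λ := by
      rw [LinearMap.mem_ker, map_sub, map_sum, hg, sub_eq_zero]
      exact Finset.sum_congr rfl fun i _ => by rw [map_smul]
    have h8 : x - ∑ i, g i • u i = ∑ a, K.repr ⟨_, h7⟩ a • ((K a : LinearMap.ker Λ) : S) := by
      have h9 := congrArg (fun z : LinearMap.ker Λ => (z : S)) (K.sum_repr ⟨_, h7⟩)
      simp only [AddSubmonoidClass.coe_finsetSum] at h9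
      exact h9.symm
    have h10 : x = ∑ a, K.repr ⟨_, h7⟩ a • ((K a : LinearMap.ker Λ) : S) + ∑ i, g i • u i := by
      rw [← h8, sub_add_cancel]
    rw [h10]
    refine add_mem (sum_mem fun a _ => Submodule.smul_mem _ _ ?_)
      (sum_mem fun i _ => Submodule.smul_mem _ _ ?_)
    · exact Submodule.subset_span ⟨Sum.inl a, rfl⟩
    · exact Submodule.subset_span ⟨Sum.inr i, rfl⟩
  let b := Module.Basis.mk h1 h6
  have hc : Fintype.card (Fin (Module.finrank (ZMod 3) (LinearMap.ker Λ)) ⊕ Fin c) =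
      Module.finrank (ZMod 3) S := (Module.finrank_eq_card_basis b).symm
  let e := Fintype.equivFinOfCardEq hc
  refine ⟨e.symm, b.reindex e, fun i => ?_⟩
  rw [Module.Basis.reindex_apply]
  exact congrFun (Module.Basis.coe_mk h1 h6) _

theorem pair_or : ∀ p q : ZMod 3 × ZMod 3, p ≠ 0 →
    (∃ t : ZMod 3, q = t • p) ∨ ∀ w : ZMod 3 × ZMod 3, ∃ s t : ZMod 3, w = s • p + t • q := by
  rintro ⟨a, b⟩ ⟨c, d⟩ hp
  have hF : Fact (Nat.Prime 3) := ⟨Nat.prime_three⟩
  by_cases hd : a * d - b * c = 0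
  · left
    by_cases ha : a = 0
    · subst ha
      have hb : b ≠ 0 := by
        rintro rfl
        exact hp rfl
      have hc : c = 0 := by
        have : b * c = 0 := by linear_combination -hd
        exact (mul_eq_zero.mp this).resolve_left hb
      subst hc
      refine ⟨d / b, Prod.ext ?_ ?_⟩
      · simp
      · simp only [Prod.smul_mk, smul_eq_mul]
        field_simp
    · refine ⟨c / a, Prod.ext ?_ ?_⟩
      · simp only [Prod.smul_mk, smul_eq_mul]
        field_simp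
      · simp only [Prod.smul_mk, smul_eq_mul]
        field_simp
        linear_combination hd
  · right
    have hd' : a * d - b * c ≠ 0 := hd
    rintro ⟨x, y⟩
    refine ⟨(x * d - y * c) / (a * d - b * c), (a * y - b * x) / (a * d - b * c),
      Prod.ext ?_ ?_⟩
    · simp only [Prod.smul_mk, Prod.mk_add_mk, smul_eq_mul]
      rw [div_mul_eq_mul_div, div_mul_eq_mul_div, ← add_div, eq_div_iff hd']
      ring
    · simp only [Prod.smul_mk, Prod.mk_add_mk, smul_eq_mul]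
      rw [div_mul_eq_mul_div, div_mul_eq_mul_div, ← add_div, eq_div_iff hd']
      ring

theorem dec_one : ((1 : ℕ) : ZMod 3) ≠ 0 := by decide

theorem dec_two : ((2 : ℕ) : ZMod 3) ≠ 0 := by decide

theorem dec_a : ∀ a : ZMod 3, a = 2 * a * ((2 : ℕ) : ZMod 3) := by decide

theorem dec_b : ∀ a b : ZMod 3, a + b = 0 → a = 2 * b := by decide

/-- The properties of an adapted basis. -/
structure Adp {M : Type} [AddCommGroup M] [Module (ZMod 3) M]
    (Λ : M →ₗ[ZMod 3] (ZMod 3 × ZMod 3)) (w : ZMod 3 × ZMod 3) {s : ℕ} (τ : Fin s → Fin 3)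
    (b : Fin s → M) : Prop where
  a0 : ∀ i, τ i = 0 → Λ (b i) = 0
  a1 : ∀ i, τ i = 1 → Λ (b i) = w
  a2 : ∀ i, τ i = 2 → Λ (b i) ≠ 0 ∧ ¬ ∃ t : ZMod 3, Λ (b i) = t • w
  inj : ∀ i j, τ i = τ j → τ i ≠ 0 → i = j
  one : ∀ i j, i ≠ j → (Λ (b i)).1 = 0 ∨ (Λ (b j)).1 = 0

theorem adapted_aux {S : Type} [AddCommGroup S] [Module (ZMod 3) S] [Module.Finite (ZMod 3) S]
    (Λ : S →ₗ[ZMod 3] (ZMod 3 × ZMod 3)) (w : ZMod 3 × ZMod 3) {c : ℕ} (u : Fin c → S)
    (τ : Fin c → Fin 3) (ht : ∀ i, τ i ≠ 0) (hA : Adp Λ w τ u)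
    (hli : ∀ g : Fin c → ZMod 3, ∑ i, g i • Λ (u i) = 0 → ∀ i, g i = 0)
    (hsp : ∀ x, ∃ g : Fin c → ZMod 3, Λ x = ∑ i, g i • Λ (u i)) :
    ∃ (τ : Fin (Module.finrank (ZMod 3) S) → Fin 3)
      (b : Module.Basis (Fin (Module.finrank (ZMod 3) S)) (ZMod 3) S), Adp Λ w τ b := by
  obtain ⟨e, b, hb⟩ := glue Λ u hli hsp
  have hl : ∀ i a, e i = Sum.inl a → Λ (b i) = 0 := by
    intro i a hi
    rw [hb, hi, Sum.elim_inl]
    exact LinearMap.mem_ker.mp (Subtype.prop _)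
  have hr : ∀ i j, e i = Sum.inr j → Λ (b i) = Λ (u j) := by
    intro i j hi
    rw [hb, hi, Sum.elim_inr]
  refine ⟨fun i => Sum.elim (fun _ => 0) τ (e i), b, ?_, ?_, ?_, ?_, ?_⟩
  · intro i hi
    rcases hei : e i with a | j
    · exact hl i a hei
    · simp only [hei, Sum.elim_inr] at hi
      exact absurd hi (ht j)
  · intro i hi
    rcases hei : e i with a | j
    · simp only [hei, Sum.elim_inl] at hi
      exact absurd hi (by decide)
    · simp only [hei, Sum.elim_inr] at hi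
      rw [hr i j hei]
      exact hA.a1 j hi
  · intro i hi
    rcases hei : e i with a | j
    · simp only [hei, Sum.elim_inl] at hi
      exact absurd hi (by decide)
    · simp only [hei, Sum.elim_inr] at hi
      rw [hr i j hei]
      exact hA.a2 j hi
  · intro i i' hii hi
    rcases hei : e i with a | j
    · simp only [hei, Sum.elim_inl] at hi
      exact absurd rfl hi
    · rcases hei' : e i' with a' | j'
      · simp only [hei, hei', Sum.elim_inl, Sum.elim_inr] at hii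
        exact absurd hii (ht j)
      · simp only [hei, hei', Sum.elim_inr] at hii
        have := hA.inj j j' hii (ht j)
        apply e.injective
        rw [hei, hei', this]
  · intro i i' hii
    rcases hei : e i with a | j
    · left
      rw [hl i a hei]
      rfl
    · rcases hei' : e i' with a' | j'
      · right
        rw [hl i' a' hei']
        rfl
      · rw [hr i j hei, hr i' j' hei']
        apply hA.one
        rintro rfl
        apply hii
        apply e.injective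
        rw [hei, hei']

/-- A basis of a space with two linear forms, adapted to a vector `w`. -/
theorem adapted {S : Type} [AddCommGroup S] [Module (ZMod 3) S] [Module.Finite (ZMod 3) S]
    (Λ : S →ₗ[ZMod 3] (ZMod 3 × ZMod 3)) (w : ZMod 3 × ZMod 3) (hw : w.1 ≠ 0) :
    ∃ (τ : Fin (Module.finrank (ZMod 3) S) → Fin 3)
      (b : Module.Basis (Fin (Module.finrank (ZMod 3) S)) (ZMod 3) S), Adp Λ w τ b := by
  have hF : Fact (Nat.Prime 3) := ⟨Nat.prime_three⟩
  have hw0 : w ≠ 0 := by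
    rintro rfl
    exact hw rfl
  by_cases h0 : ∀ x, Λ x = 0
  · -- all types are `0`
    refine adapted_aux Λ w (c := 0) (fun i => i.elim0) (fun i => i.elim0) (fun i => i.elim0)
      ⟨fun i => i.elim0, fun i => i.elim0, fun i => i.elim0, fun i => i.elim0, fun i => i.elim0⟩
      (fun g _ i => i.elim0) (fun x => ⟨fun i => i.elim0, ?_⟩)
    rw [h0 x]
    simp
  push Not at h0
  obtain ⟨x₀, hx₀⟩ := h0
  by_cases h1 : ∃ u₁, Λ u₁ = w
  · obtain ⟨u₁, hu₁⟩ := h1
    by_cases h2 : ∀ x, ∃ t : ZMod 3, Λ x = t • w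
    · refine adapted_aux Λ w (c := 1) (fun _ => u₁) (fun _ => 1) (fun _ => by decide)
        ⟨fun i hi => absurd hi (by decide), fun _ _ => hu₁, fun i hi => absurd hi (by decide),
          fun i j _ _ => Subsingleton.elim i j, fun i j hij => absurd (Subsingleton.elim i j) hij⟩
        (fun g hg i => ?_) (fun x => ?_)
      · rw [Fin.sum_univ_one, hu₁] at hg
        have h3 : g 0 * w.1 = 0 := congrArg Prod.fst hg
        rw [Subsingleton.elim i 0]
        exact (mul_eq_zero.mp h3).resolve_right hw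
      · obtain ⟨t, ht⟩ := h2 x
        refine ⟨fun _ => t, ?_⟩
        rw [Fin.sum_univ_one, hu₁, ht]
    · push Not at h2
      obtain ⟨x, hx⟩ := h2
      obtain ⟨u₂, hu₂⟩ : ∃ u₂, Λ u₂ = (0, 1) := by
        rcases pair_or w (Λ x) hw0 with ⟨t, ht⟩ | h3
        · exact absurd ht (hx t)
        · obtain ⟨s, t, hst⟩ := h3 (0, 1)
          refine ⟨s • u₁ + t • x, ?_⟩
          rw [map_add, map_smul, map_smul, hu₁, ← hst]
      have hv : ∀ i : Fin 2, Λ ((![u₁, u₂] : Fin 2 → S) i) = (![w, (0, 1)] : Fin 2 → _) i := by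
        intro i
        fin_cases i
        · exact hu₁
        · exact hu₂
      refine adapted_aux Λ w (c := 2) ![u₁, u₂] ![1, 2] (fun i => ?_)
        ⟨fun i hi => ?_, fun i hi => ?_, fun i hi => ?_, fun i j hij _ => ?_, fun i j hij => ?_⟩
        (fun g hg => ?_) (fun y => ?_)
      · fin_cases i <;> decide
      · fin_cases i
        · exact absurd hi (by decide)
        · exact absurd hi (by decide)
      · fin_cases i
        · exact hu₁
        · exact absurd hi (by decide)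
      · fin_cases i
        · exact absurd hi (by decide)
        · change Λ u₂ ≠ 0 ∧ ¬ ∃ t : ZMod 3, Λ u₂ = t • w
          rw [hu₂]
          refine ⟨fun h3 => one_ne_zero (congrArg Prod.snd h3), ?_⟩
          rintro ⟨t, ht⟩
          have h4 : (0 : ZMod 3) = t * w.1 := congrArg Prod.fst ht
          have h5 : (1 : ZMod 3) = t * w.2 := congrArg Prod.snd ht
          have h6 : t = 0 := (mul_eq_zero.mp h4.symm).resolve_right hw
          rw [h6, zero_mul] at h5
          exact one_ne_zero h5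
      · fin_cases i <;> fin_cases j
        · rfl
        · exact absurd hij (by decide)
        · exact absurd hij (by decide)
        · rfl
      · fin_cases i <;> fin_cases j
        · exact absurd rfl hij
        · right
          change (Λ u₂).1 = 0
          rw [hu₂]
        · left
          change (Λ u₂).1 = 0
          rw [hu₂]
        · exact absurd rfl hij
      · rw [Fin.sum_univ_two] at hg
        change g 0 • Λ u₁ + g 1 • Λ u₂ = 0 at hg
        rw [hu₁, hu₂] at hg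
        have h3 : g 0 * w.1 + g 1 * 0 = 0 := congrArg Prod.fst hg
        have h4 : g 0 * w.2 + g 1 * 1 = 0 := congrArg Prod.snd hg
        have h5 : g 0 = 0 := by
          rw [mul_zero, add_zero] at h3
          exact (mul_eq_zero.mp h3).resolve_right hw
        rw [h5, zero_mul, zero_add, mul_one] at h4
        intro i
        fin_cases i
        · exact h5
        · exact h4
      · have h3 : ¬ ∃ t : ZMod 3, ((0, 1) : ZMod 3 × ZMod 3) = t • w := by
          rintro ⟨t, ht⟩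
          have h4 : (0 : ZMod 3) = t * w.1 := congrArg Prod.fst ht
          have h5 : (1 : ZMod 3) = t * w.2 := congrArg Prod.snd ht
          have h6 : t = 0 := (mul_eq_zero.mp h4.symm).resolve_right hw
          rw [h6, zero_mul] at h5
          exact one_ne_zero h5
        obtain ⟨s, t, hst⟩ := ((pair_or w (0, 1) hw0).resolve_left h3) (Λ y)
        refine ⟨![s, t], ?_⟩
        rw [Fin.sum_univ_two]
        change Λ y = s • Λ u₁ + t • Λ u₂
        rw [hu₁, hu₂, hst]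
  · -- one vector of type `2`
    have h2 : ∀ x, ∃ t : ZMod 3, Λ x = t • Λ x₀ := by
      intro x
      rcases pair_or (Λ x₀) (Λ x) hx₀ with h3 | h3
      · exact h3
      · obtain ⟨s, t, hst⟩ := h3 w
        exact absurd ⟨s • x₀ + t • x, by rw [map_add, map_smul, map_smul, hst]⟩ h1
    refine adapted_aux Λ w (c := 1) (fun _ => x₀) (fun _ => 2) (fun _ => by decide)
      ⟨fun i hi => absurd hi (by decide), fun i hi => absurd hi (by decide), fun _ _ => ⟨hx₀, ?_⟩,
        fun i j _ _ => Subsingleton.elim i j, fun i j hij => absurd (Subsingleton.elim i j) hij⟩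
      (fun g hg i => ?_) (fun x => ?_)
    · rintro ⟨t, ht⟩
      have ht0 : t ≠ 0 := by
        rintro rfl
        rw [zero_smul] at ht
        exact hx₀ ht
      apply h1
      refine ⟨t⁻¹ • x₀, ?_⟩
      rw [map_smul, ht, smul_smul, inv_mul_cancel₀ ht0, one_smul]
    · rw [Fin.sum_univ_one] at hg
      rw [Subsingleton.elim i 0]
      exact (smul_eq_zero.mp hg).resolve_right hx₀
    · obtain ⟨t, ht⟩ := h2 x
      refine ⟨fun _ => t, ?_⟩
      rw [Fin.sum_univ_one, ht]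

/-! ### Exponent vectors -/

/-- Exponent vectors modulo `3`, with the exponent of `3`. -/
abbrev EVT (m k : ℕ) : Type := ZMod 3 × EV m k

/-- The conditions at the split primes. -/
noncomputable def LmT (h n : ℕ) {m k : ℕ} (π : Fin m → PP) (p e : Fin m → ℕ) (r : Fin k → ℕ)
    (c : Fin m → ZMod 3) : EVT m k →ₗ[ZMod 3] (Fin m → ZMod 3) where
  toFun v i := (e i : ZMod 3) * (v.1 * sym (π i).1 3) + Lm (3 ^ h * n) π p e r c v.2 i
  map_add' := by
    intro v v'
    funext i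
    simp only [Prod.fst_add, Prod.snd_add, map_add, Pi.add_apply]
    ring
  map_smul' := by
    intro t v
    funext i
    simp only [Prod.smul_fst, Prod.smul_snd, map_smul, Pi.smul_apply, smul_eq_mul,
      RingHom.id_apply]
    ring

/-- The condition at `lam`, `h = 2`. -/
noncomputable def WmT (n : ℕ) {m k : ℕ} (p : Fin m → ℕ) (r : Fin k → ℕ) (w0 : ZMod 3) :
    EVT m k →ₗ[ZMod 3] ZMod 3 where
  toFun v := Wm p r v.2 + v.1 * (wt ((n : ℤ) ^ 2) + w0)
  map_add' := by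
    intro v v'
    simp only [Prod.fst_add, Prod.snd_add, map_add]
    ring
  map_smul' := by
    intro t v
    simp only [Prod.smul_fst, Prod.smul_snd, map_smul, smul_eq_mul, RingHom.id_apply]
    ring

/-- The pair `(lv, lw)` in terms of exponents. -/
noncomputable def LaT {m k : ℕ} (p : Fin m → ℕ) (r : Fin k → ℕ) :
    EVT m k →ₗ[ZMod 3] (ZMod 3 × ZMod 3) where
  toFun v := (v.1, Wm p r v.2)
  map_add' := by
    intro v v'
    simp only [Prod.fst_add, Prod.snd_add, map_add, Prod.mk_add_mk]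
  map_smul' := by
    intro t v
    simp only [Prod.smul_fst, Prod.smul_snd, map_smul, RingHom.id_apply, Prod.smul_mk]

theorem sum_zero {m k : ℕ} (π : Fin m → PP) (r : Fin k → ℕ) (i : Fin m) :
    ∑ j, (0 : Fin k → ZMod 3) j * sym (π i).1 (r j : Eis) = 0 :=
  Finset.sum_eq_zero fun j _ => by rw [Pi.zero_apply, zero_mul]

theorem rowT (h n : ℕ) {m k : ℕ} (π : Fin m → PP) (p e : Fin m → ℕ) (r : Fin k → ℕ)
    (w0 : ZMod 3) (c : Fin m → ZMod 3) (u : Fin (m + 1) → ZMod 3) (i : Fin m) :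
    LmT h n π p e r c (u 0, ((fun i => u i.succ), (0 : Fin k → ZMod 3))) i =
      ∑ b, Mt h n π p e w0 c i.succ b * u b := by
  change (e i : ZMod 3) * (u 0 * sym (π i).1 3) +
    Lm (3 ^ h * n) π p e r c ((fun i => u i.succ), (0 : Fin k → ZMod 3)) i = _
  rw [row, Fin.sum_univ_succ]
  have h1 : ∑ j, (((fun i : Fin m => u i.succ), (0 : Fin k → ZMod 3)) : EV m k).2 j *
      sym (π i).1 (r j : Eis) = 0 := sum_zero π r i
  rw [h1, mul_zero, add_zero]
  have h2 : Mt h n π p e w0 c i.succ 0 = (e i : ZMod 3) * sym (π i).1 3 := rfl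
  rw [h2]
  have h3 : (e i : ZMod 3) * (u 0 * sym (π i).1 3) = (e i : ZMod 3) * sym (π i).1 3 * u 0 := by
    ring
  rw [h3]
  rfl

theorem surj_one (n : ℕ) {m k : ℕ} (π : Fin m → PP) (p e : Fin m → ℕ) (r : Fin k → ℕ)
    (w0 : ZMod 3) (c : Fin m → ZMod 3) (hdet : (Mt 1 n π p e w0 c).det ≠ 0) :
    Function.Surjective (LmT 1 n π p e r c : EVT m k →ₗ[ZMod 3] (Fin m → ZMod 3)) := by
  intro v
  obtain ⟨u, hu⟩ := solve _ hdet (Fin.cons 0 v)
  refine ⟨(u 0, ((fun i => u i.succ), 0)), ?_⟩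
  funext i
  rw [rowT 1 n π p e r w0 c u i, hu i.succ, Fin.cons_succ]

theorem surj_two (n : ℕ) {m k : ℕ} (π : Fin m → PP) (p e : Fin m → ℕ) (r : Fin k → ℕ)
    (w0 : ZMod 3) (c : Fin m → ZMod 3) (hdet : (Mt 2 n π p e w0 c).det ≠ 0) :
    Function.Surjective ((WmT n p r w0).prod (LmT 2 n π p e r c) :
      EVT m k →ₗ[ZMod 3] (ZMod 3 × (Fin m → ZMod 3))) := by
  rintro ⟨t, v⟩
  obtain ⟨u, hu⟩ := solve _ hdet (Fin.cons t v)
  refine ⟨(u 0, ((fun i => u i.succ), 0)), Prod.ext ?_ ?_⟩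
  · have h1 := hu 0
    rw [Fin.sum_univ_succ, Fin.cons_zero] at h1
    change ((∑ i, u (Fin.succ i) * wt ((p i : ℤ) ^ 2)) +
      ∑ j, (0 : Fin k → ZMod 3) j * wt ((r j : ℤ) ^ 2)) + u 0 * (wt ((n : ℤ) ^ 2) + w0) = t
    rw [Finset.sum_eq_zero fun j (_ : j ∈ (Finset.univ : Finset (Fin k))) =>
      show (0 : Fin k → ZMod 3) j * wt ((r j : ℤ) ^ 2) = 0 by rw [Pi.zero_apply, zero_mul],
      add_zero, ← h1]
    have h2 : Mt 2 n π p e w0 c 0 0 = wt ((n : ℤ) ^ 2) + w0 := by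
      change (if 2 = 2 then wt ((n : ℤ) ^ 2) + w0 else 1) = _
      rw [if_pos rfl]
    have h3 : ∀ i : Fin m, Mt 2 n π p e w0 c 0 i.succ = wt ((p i : ℤ) ^ 2) := by
      intro i
      change (if 2 = 2 then wt ((p i : ℤ) ^ 2) else 0) = _
      rw [if_pos rfl]
    rw [h2, add_comm]
    congr 1
    · exact mul_comm _ _
    · exact Finset.sum_congr rfl fun i _ => by rw [h3 i, mul_comm]
  · change LmT 2 n π p e r c (u 0, ((fun i => u i.succ), 0)) = v
    funext i
    rw [rowT 2 n π p e r w0 c u i, hu i.succ, Fin.cons_succ]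

/-- The space of admissible exponent vectors. -/
theorem exists_spaceT (h n : ℕ) {m k : ℕ} (π : Fin m → PP) (p e : Fin m → ℕ) (r : Fin k → ℕ)
    (w0 : ZMod 3) (c : Fin m → ZMod 3) (h12 : h = 1 ∨ h = 2)
    (hdet : (Mt h n π p e w0 c).det ≠ 0) :
    ∃ S : Submodule (ZMod 3) (EVT m k), Module.finrank (ZMod 3) S + h = k + 2 ∧
      ∀ v : EVT m k, v ∈ S ↔ (∀ i, LmT h n π p e r c v i = 0) ∧ (h = 2 → WmT n p r w0 v = 0) := by
  rcases h12 with rfl | rfl
  · refine ⟨LinearMap.ker (LmT 1 n π p e r c), ?_, fun v => ?_⟩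
    · have h1 := LinearMap.finrank_range_add_finrank_ker
        (LmT 1 n π p e r c : EVT m k →ₗ[ZMod 3] (Fin m → ZMod 3))
      rw [LinearMap.range_eq_top.mpr (surj_one n π p e r w0 c hdet), finrank_top] at h1
      simp only [Module.finrank_prod, Module.finrank_fintype_fun_eq_card, Fintype.card_fin,
        Module.finrank_self] at h1
      omega
    · rw [LinearMap.mem_ker, funext_iff]
      exact ⟨fun h3 => ⟨h3, fun h4 => absurd h4 (by decide)⟩, fun h3 => h3.1⟩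
  · refine ⟨LinearMap.ker ((WmT n p r w0).prod (LmT 2 n π p e r c)), ?_, fun v => ?_⟩
    · have h1 := LinearMap.finrank_range_add_finrank_ker
        ((WmT n p r w0).prod (LmT 2 n π p e r c) :
          EVT m k →ₗ[ZMod 3] (ZMod 3 × (Fin m → ZMod 3)))
      rw [LinearMap.range_eq_top.mpr (surj_two n π p e r w0 c hdet), finrank_top] at h1
      simp only [Module.finrank_prod, Module.finrank_fintype_fun_eq_card, Fintype.card_fin,
        Module.finrank_self] at h1
      omega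
    · rw [LinearMap.mem_ker]
      change (WmT n p r w0 v, LmT 2 n π p e r c v) = 0 ↔ _
      rw [Prod.mk_eq_zero, funext_iff]
      exact ⟨fun h3 => ⟨h3.2, fun _ => h3.1⟩, fun h3 => ⟨h3.2 rfl, h3.1⟩⟩

/-! ### From exponent vectors to integers -/

/-- The number with given exponents. -/
noncomputable def toT {m k : ℕ} (p : Fin m → ℕ) (r : Fin k → ℕ) (v : EVT m k) : ℤ :=
  ((3 ^ v.1.val * toN p r v.2 : ℕ) : ℤ)

/-- The exponent vector of an integer. -/
noncomputable def evT {m k : ℕ} (p : Fin m → ℕ) (r : Fin k → ℕ) (x : ℤ) : EVT m k :=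
  (lv x, ev p r x)

section

variable {h n m k : ℕ} {π : Fin m → PP} {p e : Fin m → ℕ} {r f : Fin k → ℕ}

theorem toT_ne (hN : NF n π p e r f) (v : EVT m k) : toT p r v ≠ 0 := by
  have h1 : (3 ^ v.1.val * toN p r v.2 : ℕ) ≠ 0 :=
    mul_ne_zero (pow_ne_zero _ (by norm_num)) (toN_ne hN v.2)
  rw [toT]
  exact_mod_cast h1

theorem padic_toT (hN : NF n π p e r f) (v : EVT m k) (l : ℕ) (hl : l.Prime) :
    padicValInt l (toT p r v) =
      (if l = 3 then v.1.val else 0) + padicValNat l (toN p r v.2) := by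
  have hl' : Fact l.Prime := ⟨hl⟩
  have h3 : Fact (Nat.Prime 3) := ⟨Nat.prime_three⟩
  rw [toT, padicValInt.of_nat, padicValNat.mul (pow_ne_zero _ (by norm_num)) (toN_ne hN v.2),
    padicValNat.pow _ _]
  congr 1
  split_ifs with h1
  · subst h1
    rw [padicValNat_self, mul_one]
  · rw [padicValNat_primes h1, mul_zero]

theorem three_toN' (hN : NF n π p e r f) (v : EV m k) : padicValNat 3 (toN p r v) = 0 := by
  apply padicValNat.eq_zero_of_not_dvd
  intro hd
  exact three_toN hN v (by exact_mod_cast hd)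

theorem p_ne (hN : NF n π p e r f) (i : Fin m) : p i ≠ 3 := by
  intro h1
  have := hN.p1 i
  rw [h1] at this
  omega

theorem r_ne (hN : NF n π p e r f) (j : Fin k) : r j ≠ 3 := by
  intro h1
  have := hN.r2 j
  rw [h1] at this
  omega

theorem evT_toT (hN : NF n π p e r f) (v : EVT m k) : evT p r (toT p r v) = v := by
  refine Prod.ext ?_ (Prod.ext ?_ ?_)
  · change ((padicValInt 3 (toT p r v) : ℕ) : ZMod 3) = v.1
    rw [padic_toT hN v 3 Nat.prime_three, if_pos rfl, three_toN' hN, add_zero,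
      ZMod.natCast_zmod_val]
  · funext i
    change ((padicValInt (p i) (toT p r v) : ℕ) : ZMod 3) = v.2.1 i
    rw [padic_toT hN v _ (hN.pp i), if_neg (p_ne hN i), zero_add, val_p hN,
      ZMod.natCast_zmod_val]
  · funext j
    change ((padicValInt (r j) (toT p r v) : ℕ) : ZMod 3) = v.2.2 j
    rw [padic_toT hN v _ (hN.rp j), if_neg (r_ne hN j), zero_add, val_r hN,
      ZMod.natCast_zmod_val]

theorem padic_toT_le (hN : NF n π p e r f) (v : EVT m k) (l : ℕ) (hl : l.Prime) :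
    padicValInt l (toT p r v) ≤ 2 := by
  rw [padic_toT hN v l hl]
  split_ifs with h1
  · subst h1
    rw [three_toN' hN, add_zero]
    exact zval_le _
  · rw [zero_add]
    exact val_le hN _ l hl

theorem V_toT_le (hSPP : SPP) (hN : NF n π p e r f) (v : EVT m k) (π' : PP) :
    V π'.1 (toT p r v : Eis) ≤ 2 := by
  obtain ⟨l, hl, hle⟩ := V_le hSPP π' (toT_ne hN v)
  exact hle.trans (padic_toT_le hN v l hl)

theorem supp_toT (hN : NF n π p e r f) (v : EVT m k) (l : ℕ) (hl : l.Prime)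
    (hd : (l : ℤ) ∣ toT p r v) : l ∣ 3 * n := by
  rw [toT] at hd
  have h1 : l ∣ 3 ^ v.1.val * toN p r v.2 := Int.natCast_dvd_natCast.mp hd
  rcases hl.dvd_mul.mp h1 with h2 | h2
  · have h3 := hl.dvd_of_dvd_pow h2
    exact Dvd.dvd.mul_right h3 _
  · exact Dvd.dvd.mul_left (supp_toN hN v.2 l hl (Int.natCast_dvd_natCast.mpr h2)) _

theorem three_toT (hN : NF n π p e r f) (v : EVT m k) (hv : v.1 = 0) :
    ¬ (3 : ℤ) ∣ toT p r v := by
  have h1 : toT p r v = (toN p r v.2 : ℤ) := by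
    rw [toT, hv]
    simp
  rw [h1]
  exact three_toN hN v.2

theorem evT_prod (hN : NF n π p e r f) {s : ℕ} (x : Fin s → ℤ) (hx : ∀ i, x i ≠ 0)
    (g : Fin s → ℕ) : evT p r (∏ i, x i ^ g i) = ∑ i, (g i : ZMod 3) • evT p r (x i) := by
  refine Prod.ext ?_ ?_
  · rw [Prod.fst_sum]
    change ((padicValInt 3 (∏ i, x i ^ g i) : ℕ) : ZMod 3) =
      ∑ i, (g i : ZMod 3) * (padicValInt 3 (x i) : ZMod 3)
    rw [padicInt_prod 3 Nat.prime_three _ _ fun i => pow_ne_zero _ (hx i), Nat.cast_sum]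
    refine Finset.sum_congr rfl fun i _ => ?_
    rw [padicInt_pow 3 Nat.prime_three (hx i), Nat.cast_mul]
  · rw [Prod.snd_sum]
    exact ev_prod hN x hx g

theorem evT_cube (hN : NF n π p e r f) (t : ℤ) (ht : t ≠ 0) : evT p r (t ^ 3) = 0 := by
  have h3 : ((3 : ℕ) : ZMod 3) = 0 := ZMod.natCast_self 3
  refine Prod.ext ?_ (ev_cube hN t ht)
  change ((padicValInt 3 (t ^ 3) : ℕ) : ZMod 3) = 0
  rw [padicInt_pow _ Nat.prime_three ht, Nat.cast_mul, h3, zero_mul]

/-- Admissible classes in terms of exponent vectors. -/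
theorem adC_iff (hEVET : EVET) (hN : NF n π p e r f) (w0 : ZMod 3) (c : Fin m → ZMod 3)
    (S : Submodule (ZMod 3) (EVT m k))
    (hS : ∀ v : EVT m k, v ∈ S ↔
      (∀ i, LmT h n π p e r c v i = 0) ∧ (h = 2 → WmT n p r w0 v = 0))
    (x : ℤ) (h1 : x ≠ 0) (h2 : ∀ l : ℕ, l.Prime → (l : ℤ) ∣ x → l ∣ 3 * n) :
    AdC h n π w0 c x ↔ evT p r x ∈ S := by
  obtain ⟨hE1, -⟩ := hEVET h n m k π p e r f w0 c hN
  rw [(hE1 x h1 h2).1, hS]
  refine and_congr (forall_congr' fun i => ?_) (forall_congr' fun _ => ?_)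
  · change _ ↔ (e i : ZMod 3) * (lv x * sym (π i).1 3) +
      ((e i : ZMod 3) * (∑ i', (padicValInt (p i') x : ZMod 3) *
          (if i' = i then sym (π i).1 (conj (π i).1) else sym (π i).1 (p i' : Eis))) +
        (e i : ZMod 3) * (∑ j, (padicValInt (r j) x : ZMod 3) * sym (π i).1 (r j : Eis)) -
        (padicValInt (p i) x : ZMod 3) * (ch (π i).1 ((3 ^ h * n : ℕ) : Eis) + c i)) = 0
    rw [← add_sub_assoc, ← add_assoc]
  · exact Iff.rfl

theorem lw_toT (hEVET : EVET) (hN : NF n π p e r f) (h : ℕ) (w0 : ZMod 3) (c : Fin m → ZMod 3)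
    (v : EVT m k) : lw (toT p r v) = Wm p r v.2 := by
  obtain ⟨hE1, -⟩ := hEVET h n m k π p e r f w0 c hN
  rw [(hE1 _ (toT_ne hN v) (supp_toT hN v)).2]
  change Wm p r (evT p r (toT p r v)).2 = _
  rw [evT_toT hN]

theorem lv_toT (hN : NF n π p e r f) (v : EVT m k) : lv (toT p r v) = v.1 :=
  congrArg Prod.fst (evT_toT hN v)

/-- The adapted basis of a space of exponent vectors. -/
theorem core (hEVET : EVET) (hLPT : LPT) (hLCL : LCL) (hN : NF n π p e r f)
    (h12 : h = 1 ∨ h = 2) (w0 : ZMod 3) (c : Fin m → ZMod 3)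
    (T : Submodule (ZMod 3) (EVT m k)) (hT : h = 2 → ∀ v ∈ T, WmT n p r w0 v = 0) :
    ∃ (τ : Fin (Module.finrank (ZMod 3) T) → Fin 3)
      (u : Module.Basis (Fin (Module.finrank (ZMod 3) T)) (ZMod 3) T)
      (X Y : Fin (Module.finrank (ZMod 3) T) → ℤ),
      (∀ i j, i ≠ j → (u i : EVT m k).1 = 0 ∨ (u j : EVT m k).1 = 0) ∧
      ∀ B : ℤ, TyB h n w0 B → LamS B τ (fun i => toT p r (u i : EVT m k)) X Y := by
  have hF : Fact (Nat.Prime 3) := ⟨Nat.prime_three⟩
  set β : ZMod 3 := wt ((n : ℤ) ^ 2) + w0 with hβ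
  have hh : (h : ZMod 3) ≠ 0 := by
    rcases h12 with rfl | rfl
    · exact dec_one
    · exact dec_two
  obtain ⟨τ, u, hA⟩ := adapted ((LaT p r).comp T.subtype) ((h : ZMod 3), β) hh
  have hLa : ∀ i, ((LaT p r).comp T.subtype) (u i) =
      (lv (toT p r (u i : EVT m k)), lw (toT p r (u i : EVT m k))) := by
    intro i
    rw [lv_toT hN, lw_toT hEVET hN h w0 c]
    rfl
  have hLC : ∀ i, LC lam (toT p r (u i : EVT m k)) ↔
      lv (toT p r (u i : EVT m k)) = 0 ∧ lw (toT p r (u i : EVT m k)) = 0 := fun i =>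
    hLCL.1 _ (toT_ne hN _)
  have hXY : ∀ i, ∃ X Y : ℤ, (τ i = 1 → X = 1 ∧ Y = 0) ∧
      (τ i = 2 → X ≠ 0 ∧ Y ≠ 0 ∧ X ^ 3 + toT p r (u i : EVT m k) * Y ^ 3 ≠ 0 ∧
        lv (toT p r (u i : EVT m k) * (X ^ 3 + toT p r (u i : EVT m k) * Y ^ 3)) = 1 ∧
        lw (toT p r (u i : EVT m k) * (X ^ 3 + toT p r (u i : EVT m k) * Y ^ 3)) = β) := by
    intro i
    by_cases h2 : τ i = 2
    · have h3 : ¬ (lv (toT p r (u i : EVT m k)) = 0 ∧ lw (toT p r (u i : EVT m k)) = 0) := by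
        rintro ⟨h4, h5⟩
        apply (hA.a2 i h2).1
        rw [hLa i, h4, h5]
        rfl
      obtain ⟨X, Y, hXY⟩ := hLPT _ β (toT_ne hN (u i : EVT m k)) h3
      refine ⟨X, Y, fun h4 => ?_, fun _ => hXY⟩
      rw [h2] at h4
      exact absurd h4 (by decide)
    · exact ⟨1, 0, fun _ => ⟨rfl, rfl⟩, fun h3 => absurd h3 h2⟩
  choose X Y hX1 hX2 using hXY
  refine ⟨τ, u, X, Y, hA.one, fun B hB => ⟨fun i hi => ?_, fun i hi => ?_, fun i hi => ?_,
    hA.inj⟩⟩
  · have h1 := hA.a0 i hi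
    rw [hLa i, Prod.mk_eq_zero] at h1
    exact (hLC i).mpr h1
  · have h1 := hA.a1 i hi
    rw [hLa i, Prod.mk.injEq] at h1
    obtain ⟨-, hB1, hB2⟩ := hB
    refine ⟨fun h2 => ?_, ?_, ?_, (hX1 i hi).1, (hX1 i hi).2⟩
    · have h3 := ((hLC i).mp h2).1
      rw [h1.1] at h3
      exact hh h3
    · rw [hB1]
      exact h1.1
    · rw [hB2]
      exact h1.2
  · obtain ⟨-, hB1, hB2⟩ := hB
    have h1 := hA.a2 i hi
    have h2 : h ≠ 2 := by
      intro h2
      apply h1.2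
      have h3 : Wm p r (u i : EVT m k).2 + (u i : EVT m k).1 * β = 0 := hT h2 _ (u i).2
      refine ⟨2 * (u i : EVT m k).1, Prod.ext ?_ ?_⟩
      · change (u i : EVT m k).1 = 2 * (u i : EVT m k).1 * (h : ZMod 3)
        rw [h2]
        exact dec_a _
      · change Wm p r (u i : EVT m k).2 = 2 * (u i : EVT m k).1 * β
        rw [mul_assoc]
        exact dec_b _ _ h3
    have h3 : h = 1 := by
      rcases h12 with h3 | h3
      · exact h3
      · exact absurd h3 h2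
    have hB1' : lv B = 1 := by
      rw [hB1, h3, Nat.cast_one]
    obtain ⟨hx1, hx2, hx3, hx4, hx5⟩ := hX2 i hi
    refine ⟨fun h4 => ?_, hB1', ⟨hx1, hx2, hx3, ?_, ?_⟩⟩
    · apply h1.1
      have h5 := (hLC i).mp h4
      rw [hLa i, h5.1, h5.2]
      rfl
    · rw [hB1']
      exact hx4
    · rw [hB2]
      exact hx5

/-- Independence modulo cubes of the numbers of a family of independent exponent vectors. -/
theorem not_cube (hN : NF n π p e r f) {s : ℕ} (v : Fin s → EVT m k)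
    (hv : ∀ g : Fin s → ZMod 3, ∑ i, g i • v i = 0 → ∀ i, g i = 0)
    (g : Fin s → ℕ) (hg : ∃ i, ¬ 3 ∣ g i) : ¬ ∃ t : ℤ, t ^ 3 = ∏ i, toT p r (v i) ^ g i := by
  rintro ⟨t, ht⟩
  have hprod : ∏ i, toT p r (v i) ^ g i ≠ 0 :=
    Finset.prod_ne_zero_iff.mpr fun i _ => pow_ne_zero _ (toT_ne hN _)
  have ht0 : t ≠ 0 := by
    rintro rfl
    apply hprod
    rw [← ht]
    norm_num
  have h1 := evT_prod hN (fun i => toT p r (v i)) (fun i => toT_ne hN _) g
  rw [← ht, evT_cube hN t ht0] at h1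
  simp only [evT_toT hN] at h1
  obtain ⟨i, hi⟩ := hg
  exact hi ((ZMod.natCast_eq_zero_iff _ _).mp (hv _ h1.symm i))

/-- A number whose exponent vector is a combination of given ones. -/
theorem express (hEVET : EVET) (hN : NF n π p e r f) (h : ℕ) (w0 : ZMod 3)
    (c : Fin m → ZMod 3) {s : ℕ} (v : Fin s → EVT m k) (x : ℤ) (hx : x ≠ 0)
    (hxs : ∀ l : ℕ, l.Prime → (l : ℤ) ∣ x → l ∣ 3 * n) (a : Fin s → ZMod 3)
    (hxa : evT p r x = ∑ i, a i • v i) :
    ∃ (g : Fin s → ℕ) (u t : ℤ), u ≠ 0 ∧ t ≠ 0 ∧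
      x * u ^ 3 = (∏ i, toT p r (v i) ^ g i) * t ^ 3 := by
  obtain ⟨-, hE2⟩ := hEVET h n m k π p e r f w0 c hN
  refine ⟨fun i => (a i).val, ?_⟩
  rw [hE2 x _ hx (Finset.prod_ne_zero_iff.mpr fun i _ => pow_ne_zero _ (toT_ne hN _)) hxs
    (fun l hl hd => ?_)]
  · have h1 := evT_prod hN (fun i => toT p r (v i)) (fun i => toT_ne hN _)
      (fun i => (a i).val)
    simp only [evT_toT hN, ZMod.natCast_zmod_val] at h1
    rw [← hxa] at h1
    have h2 : evT p r x = evT p r (∏ i, toT p r (v i) ^ (a i).val) := h1.symm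
    exact ⟨congrArg Prod.fst h2,
      fun i => congrFun (congrArg Prod.fst (congrArg Prod.snd h2)) i,
      fun j => congrFun (congrArg Prod.snd (congrArg Prod.snd h2)) j⟩
  · obtain ⟨i, -, hi⟩ := (Nat.prime_iff_prime_int.mp hl).dvd_finsetProd_iff _ |>.mp hd
    exact supp_toT hN _ l hl ((Nat.prime_iff_prime_int.mp hl).dvd_of_dvd_pow hi)

end

end EBAT

open _root_.Pool.Agent.PT3.EBAT in
/-- EBAT: basis of the admissible classes. -/
theorem EBAT_thm (hEVET : EVET) (hSPP : SPP) (hLPT : LPT) (hLCL : LCL) : EBAT := by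
  intro h n m k π p e r f w0 c hN h12 hdet
  obtain ⟨S, hfr, hS⟩ := exists_spaceT h n π p e r w0 c h12 hdet
  obtain ⟨τ, u, X, Y, hone, hL⟩ := core hEVET hLPT hLCL hN h12 w0 c S
    (fun h2 v hv => ((hS v).mp hv).2 h2)
  refine ⟨Module.finrank (ZMod 3) S, τ, fun i => toT p r (u i), X, Y, hfr, fun i => ?_,
    fun i π' => V_toT_le hSPP hN _ π', fun g hg => ?_, fun i j hij => ?_, hL, fun x hx => ?_⟩
  · rw [adC_iff hEVET hN w0 c S hS _ (toT_ne hN _) (supp_toT hN _), evT_toT hN]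
    exact (u i).2
  · refine not_cube hN (fun i => (u i : EVT m k)) (fun a ha => ?_) g hg
    apply Fintype.linearIndependent_iff.mp u.linearIndependent a
    apply Subtype.ext
    rw [AddSubmonoidClass.coe_finsetSum]
    exact ha
  · rcases hone i j hij with h2 | h2
    · exact Or.inl (three_toT hN _ h2)
    · exact Or.inr (three_toT hN _ h2)
  · have hxS : evT p r x ∈ S := (adC_iff hEVET hN w0 c S hS x hx.ne hx.supp).mp hx
    refine express hEVET hN h w0 c (fun i => (u i : EVT m k)) x hx.ne hx.supp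
      (fun i => u.repr ⟨evT p r x, hxS⟩ i) ?_
    have h3 := congrArg (fun z : S => (z : EVT m k)) (u.sum_repr ⟨evT p r x, hxS⟩)
    simp only [AddSubmonoidClass.coe_finsetSum] at h3
    exact h3.symm

end Pool.Agent.PT3


end

section

/-!
# PT3, module LE3: the local term of a point in the class of `B`, `v(B) = 1`
-/

set_option autoImplicit false

namespace Pool.Agent.PT3

open Pool.Agent.Lib_helper18 Pool.Agent.Lib_helper18.Eis Pool.Agent.Lib_helper84.Cub
open Pool.Agent.PT Pool.Agent.PTE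

namespace LE3

open Pool.Agent.PT.F5L

theorem three_zero : (3 : ZMod 3) = 0 := by decide

theorem three_ne : (3 : ℤ) ≠ 0 := by norm_num

/-- the part prime to `3` -/
theorem fac {n : ℤ} (hn : n ≠ 0) : ∃ (m : ℕ) (u : ℤ), n = 3 ^ m * u ∧ ¬ (3 : ℤ) ∣ u := by
  have hf : FiniteMultiplicity (3 : ℤ) n := Int.finiteMultiplicity_iff.mpr ⟨by norm_num, hn⟩
  obtain ⟨u, h1, h2⟩ := hf.exists_eq_pow_mul_and_not_dvd
  exact ⟨_, u, h1, h2⟩

theorem p30 (m : ℕ) : (3 : ℤ) ^ (3 * m) = (3 ^ m) ^ 3 := by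
  rw [mul_comm, pow_mul]

theorem p31 (m : ℕ) : (3 : ℤ) ^ (3 * m + 1) = (3 ^ m) ^ 3 * 3 := by
  rw [pow_succ, p30]

theorem ndvd_ne {u : ℤ} (h : ¬ (3 : ℤ) ∣ u) : u ≠ 0 := by
  rintro rfl
  exact h (dvd_zero _)

/-- the exponent of `3` and the class of the part prime to `3` -/
theorem lvw (hL : LCL) (m : ℕ) {u : ℤ} (hu : ¬ (3 : ℤ) ∣ u) :
    lv (3 ^ m * u) = m ∧ lw (3 ^ m * u) = wt (u ^ 2) := by
  induction m with
  | zero =>
    rw [pow_zero, one_mul, Nat.cast_zero]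
    exact hL.2.2.2.1 u hu
  | succ m ih =>
    have h1 : (3 : ℤ) ^ (m + 1) * u = 3 * (3 ^ m * u) := by ring
    have h2 : (3 : ℤ) ^ m * u ≠ 0 := mul_ne_zero (pow_ne_zero _ three_ne) (ndvd_ne hu)
    rw [h1, (hL.2.1 _ _ three_ne h2).1, (hL.2.1 _ _ three_ne h2).2, ih.1, ih.2,
      hL.2.2.1.1, hL.2.2.1.2]
    push_cast
    exact ⟨by ring, by ring⟩

theorem six {u : ℤ} (hu : ¬ (3 : ℤ) ∣ u) : ∃ k : ℤ, (u ^ 3) ^ 2 = 1 + 9 * k := by
  have h : u % 3 = 1 ∨ u % 3 = 2 := by omega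
  rcases h with h | h
  · obtain ⟨l, rfl⟩ : ∃ l, u = 3 * l + 1 := ⟨u / 3, by omega⟩
    exact ⟨81 * l ^ 6 + 162 * l ^ 5 + 135 * l ^ 4 + 60 * l ^ 3 + 15 * l ^ 2 + 2 * l, by ring⟩
  · obtain ⟨l, rfl⟩ : ∃ l, u = 3 * l - 1 := ⟨u / 3 + 1, by omega⟩
    exact ⟨81 * l ^ 6 - 162 * l ^ 5 + 135 * l ^ 4 - 60 * l ^ 3 + 15 * l ^ 2 - 2 * l, by ring⟩

/-- the class of `u ^ 3 + 3 m` -/
theorem wt_cube {u : ℤ} (hu : ¬ (3 : ℤ) ∣ u) (m : ℤ) :
    wt ((u ^ 3 + 3 * m) ^ 2) = ((2 * u ^ 3 * m : ℤ) : ZMod 3) := by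
  obtain ⟨k, hk⟩ := six hu
  rw [wt_eq (k := 2 * u ^ 3 * m + 3 * (k + m ^ 2)) (by linear_combination hk)]
  push_cast
  rw [three_zero]
  ring

theorem ndvd_cube {u : ℤ} (hu : ¬ (3 : ℤ) ∣ u) (m : ℤ) : ¬ (3 : ℤ) ∣ u ^ 3 + 3 * m := by
  intro h
  have h1 : (3 : ℤ) ∣ u ^ 3 := (Int.dvd_add_left (Dvd.intro m rfl)).mp h
  exact hu (Int.prime_three.dvd_of_dvd_pow h1)

/-- scaling by powers of `3` -/
theorem S_pow (hS : SSL) (hC : SCJ) {g h N : ℤ} (H : ¬ (g = 0 ∧ h = 0)) (hN : N ≠ 0) (e : ℕ) :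
    S (3 ^ e * g) (3 ^ e * h) N = S g h N := by
  induction e with
  | zero => simp
  | succ e ih =>
    have h1 : (3 : ℤ) ^ (e + 1) * g = 3 * (3 ^ e * g) := by ring
    have h2 : (3 : ℤ) ^ (e + 1) * h = 3 * (3 ^ e * h) := by ring
    rw [h1, h2, S_three hS hC _ hN, ih]
    rintro ⟨h3, h4⟩
    exact H ⟨(mul_eq_zero.mp h3).resolve_left (pow_ne_zero _ three_ne),
      (mul_eq_zero.mp h4).resolve_left (pow_ne_zero _ three_ne)⟩

theorem S_A (hE : SLE) {g h N : ℤ} (v : ℕ) (hg : ¬ (3 : ℤ) ∣ g) (hh : (3 : ℤ) ∣ h)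
    (hN : ¬ (3 : ℤ) ∣ N) : S g h (3 ^ v * N) = v * ((g * (h / 3) : ℤ) : ZMod 3) :=
  (hE g h N v hN).1 hg hh

theorem S_one (hS : SSL) {g h : ℤ} (H : ¬ (g = 0 ∧ h = 0)) : S g h 1 = 0 := by
  unfold S
  rw [Int.cast_one, skew hS one_ne_zero (E_ne H), oneL hS (E_ne H), neg_zero]

/-- numbers in the class of the cubes -/
theorem S_cube (hS : SSL) (hL : LCL) {g h N : ℤ} (H : ¬ (g = 0 ∧ h = 0)) (hN : N ≠ 0)
    (h1 : lv N = 0) (h2 : lw N = 0) : S g h N = 0 := by
  have h3 : lv 1 = 0 ∧ lw 1 = 0 := by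
    have h4 := hL.2.2.2.1 1 (by norm_num)
    refine ⟨h4.1, h4.2.trans ?_⟩
    rw [wt_eq (k := 0) (by norm_num)]
    rfl
  have h4 := hL.2.2.2.2.2.1 N 1 (E g h) hN one_ne_zero (E_ne H) (h1.trans h3.1.symm)
    (h2.trans h3.2.symm)
  have h5 := S_one hS H
  unfold S at *
  rw [h4]
  exact h5

theorem S_pow3 (hS : SSL) {g h N : ℤ} (H : ¬ (g = 0 ∧ h = 0)) (hN : N ≠ 0) :
    S g h (N ^ 3) = 0 := by
  rw [show N ^ 3 = N * (N * N) by ring, S_mul hS H hN (mul_ne_zero hN hN), S_mul hS H hN hN]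
  linear_combination (S g h N) * three_zero

/-- the exponents of the coordinates of the point -/
theorem point (hL : LCL) {x1 X1 Y1 : ℤ} {j a c : ℕ} (hx : ¬ (3 : ℤ) ∣ x1) (hX : ¬ (3 : ℤ) ∣ X1)
    (hY : ¬ (3 : ℤ) ∣ Y1)
    (h1 : lv ((3 ^ a * X1) ^ 3 + 3 ^ (3 * j + 1) * x1 * (3 ^ c * Y1) ^ 3) = 0)
    (h2 : lw ((3 ^ a * X1) ^ 3 + 3 ^ (3 * j + 1) * x1 * (3 ^ c * Y1) ^ 3) = 0) :
    a < j + c := by
  by_contra hlt
  push Not at hlt
  rcases hlt.eq_or_lt with h | h
  · -- equality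
    subst h
    have e : (3 ^ (j + c) * X1) ^ 3 + 3 ^ (3 * j + 1) * x1 * (3 ^ c * Y1) ^ 3 =
        3 ^ (3 * (j + c)) * (X1 ^ 3 + 3 * (x1 * Y1 ^ 3)) := by
      rw [p30, p31, pow_add]
      ring
    rw [e, (lvw hL _ (ndvd_cube hX _)).2, wt_cube hX] at h2
    have h3 : (3 : ℤ) ∣ 2 * X1 ^ 3 * (x1 * Y1 ^ 3) :=
      (ZMod.intCast_zmod_eq_zero_iff_dvd _ 3).mp h2
    have hp := Int.prime_three
    rcases hp.dvd_or_dvd h3 with h4 | h4
    · rcases hp.dvd_or_dvd h4 with h5 | h5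
      · norm_num at h5
      · exact hX (hp.dvd_of_dvd_pow h5)
    · rcases hp.dvd_or_dvd h4 with h5 | h5
      · exact hx h5
      · exact hY (hp.dvd_of_dvd_pow h5)
  · obtain ⟨d, rfl⟩ : ∃ d, a = j + c + (d + 1) := ⟨a - (j + c) - 1, by omega⟩
    have e : (3 ^ (j + c + (d + 1)) * X1) ^ 3 + 3 ^ (3 * j + 1) * x1 * (3 ^ c * Y1) ^ 3 =
        3 ^ (3 * (j + c) + 1) * (x1 * Y1 ^ 3 + 3 * (3 * (3 ^ d) ^ 3 * X1 ^ 3)) := by
      rw [p31, p31, pow_add, pow_add, pow_add, pow_one]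
      ring
    have h3 : ¬ (3 : ℤ) ∣ x1 * Y1 ^ 3 + 3 * (3 * (3 ^ d) ^ 3 * X1 ^ 3) := by
      intro h4
      have h5 : (3 : ℤ) ∣ x1 * Y1 ^ 3 := (Int.dvd_add_left (Dvd.intro _ rfl)).mp h4
      rcases Int.prime_three.dvd_or_dvd h5 with h6 | h6
      · exact hx h6
      · exact hY (Int.prime_three.dvd_of_dvd_pow h6)
    rw [e, (lvw hL _ h3).1] at h1
    push_cast at h1
    rw [three_zero] at h1
    simp at h1

/-- the claim -/
theorem claim (hE : SLE) (hL : LCL) (hC : SCJ) (hS : SSL) {x1 X1 Y1 : ℤ} {j a c : ℕ}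
    (hx : ¬ (3 : ℤ) ∣ x1) (hX : ¬ (3 : ℤ) ∣ X1) (hY : ¬ (3 : ℤ) ∣ Y1) (hac : a < j + c)
    (g g' : ℤ) (hN : g ^ 3 - 3 ^ (3 * j + 1) * x1 * g' ^ 3 ≠ 0) :
    S (3 ^ a * X1 * g') (g * (3 ^ c * Y1)) (g ^ 3 - 3 ^ (3 * j + 1) * x1 * g' ^ 3) = 0 := by
  have hX0 : (3 : ℤ) ^ a * X1 ≠ 0 := mul_ne_zero (pow_ne_zero _ three_ne) (ndvd_ne hX)
  have hY0 : (3 : ℤ) ^ c * Y1 ≠ 0 := mul_ne_zero (pow_ne_zero _ three_ne) (ndvd_ne hY)
  have H : ¬ (3 ^ a * X1 * g' = 0 ∧ g * (3 ^ c * Y1) = 0) := by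
    rintro ⟨h1, h2⟩
    have h3 := (mul_eq_zero.mp h1).resolve_left hX0
    have h4 := (mul_eq_zero.mp h2).resolve_right hY0
    apply hN
    rw [h3, h4]
    ring
  by_cases hg' : g' = 0
  · have e : g ^ 3 - 3 ^ (3 * j + 1) * x1 * g' ^ 3 = g ^ 3 := by rw [hg']; ring
    have hg : g ≠ 0 := by
      rintro rfl
      exact hN (by rw [hg']; ring)
    rw [e]
    exact S_pow3 hS H hg
  by_cases hg : g = 0
  · have e : E (3 ^ a * X1 * g') (g * (3 ^ c * Y1)) = ((3 ^ a * X1 * g' : ℤ) : Eis) := by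
      unfold E
      rw [hg, zero_mul, Int.cast_zero, zero_mul, add_zero]
    unfold S
    rw [e]
    exact int_int hC (mul_ne_zero hX0 hg') hN
  obtain ⟨s, g1, rfl, hg1⟩ := fac hg
  obtain ⟨t, g2, rfl, hg2⟩ := fac hg'
  rcases lt_trichotomy s (j + t) with h | h | h
  · obtain ⟨d, hd⟩ : ∃ d, j + t = s + (d + 1) := ⟨j + t - s - 1, by omega⟩
    have e : (3 ^ s * g1) ^ 3 - 3 ^ (3 * j + 1) * x1 * (3 ^ t * g2) ^ 3 =
        3 ^ (3 * s) * (g1 ^ 3 + 3 * (3 * (-(9 * (3 ^ d) ^ 3 * x1 * g2 ^ 3)))) := by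
      have e1 : (3 : ℤ) ^ (3 * j + 1) * x1 * (3 ^ t * g2) ^ 3 =
          (3 ^ (j + t)) ^ 3 * 3 * x1 * g2 ^ 3 := by
        rw [p31, pow_add]
        ring
      rw [e1, hd, p30, pow_add, pow_add, pow_one]
      ring
    have h3 := lvw hL (3 * s) (ndvd_cube hg1 (3 * (-(9 * (3 ^ d) ^ 3 * x1 * g2 ^ 3))))
    rw [wt_cube hg1] at h3
    rw [e] at hN ⊢
    refine S_cube hS hL H hN ?_ ?_
    · rw [h3.1]
      push_cast
      rw [three_zero, zero_mul]
    · rw [h3.2]
      push_cast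
      rw [three_zero]
      ring
  · have e : (3 ^ s * g1) ^ 3 - 3 ^ (3 * j + 1) * x1 * (3 ^ t * g2) ^ 3 =
        3 ^ (3 * s) * (g1 ^ 3 + 3 * (-(x1 * g2 ^ 3))) := by
      rw [h, p30, p31, pow_add]
      ring
    obtain ⟨d, hd⟩ : ∃ d, j + c = a + (d + 1) := ⟨j + c - a - 1, by omega⟩
    have e2 : (3 : ℤ) ^ a * X1 * (3 ^ t * g2) = 3 ^ (a + t) * (X1 * g2) := by
      rw [pow_add]; ring
    have e3 : (3 : ℤ) ^ s * g1 * (3 ^ c * Y1) = 3 ^ (a + t) * (3 * (3 ^ d * (g1 * Y1))) := by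
      have e4 : s + c = a + t + (d + 1) := by omega
      have e5 : (3 : ℤ) ^ s * g1 * (3 ^ c * Y1) = 3 ^ (s + c) * (g1 * Y1) := by
        rw [pow_add]; ring
      rw [e5, e4, pow_add, pow_succ]
      ring
    have hG : ¬ (3 : ℤ) ∣ X1 * g2 := fun h5 => (Int.prime_three.dvd_or_dvd h5).elim hX hg2
    rw [e] at hN ⊢
    rw [e2, e3, S_pow hS hC (fun h5 => ndvd_ne hG h5.1) hN,
      S_A hE _ hG (Dvd.intro _ rfl) (ndvd_cube hg1 _)]
    push_cast
    rw [three_zero]
    ring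
  · obtain ⟨f, hf⟩ : ∃ f, s = j + t + (f + 1) := ⟨s - (j + t) - 1, by omega⟩
    have e : (3 ^ s * g1) ^ 3 - 3 ^ (3 * j + 1) * x1 * (3 ^ t * g2) ^ 3 =
        3 ^ (3 * (j + t) + 1) * (-(x1 * g2 ^ 3) + 3 * (3 * (3 ^ f) ^ 3 * g1 ^ 3)) := by
      rw [hf, p31, p31, pow_add, pow_add, pow_add, pow_one]
      ring
    have h3 : ¬ (3 : ℤ) ∣ -(x1 * g2 ^ 3) + 3 * (3 * (3 ^ f) ^ 3 * g1 ^ 3) := by
      intro h4
      have h5 : (3 : ℤ) ∣ -(x1 * g2 ^ 3) := (Int.dvd_add_left (Dvd.intro _ rfl)).mp h4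
      rw [dvd_neg] at h5
      rcases Int.prime_three.dvd_or_dvd h5 with h6 | h6
      · exact hx h6
      · exact hg2 (Int.prime_three.dvd_of_dvd_pow h6)
    obtain ⟨d, hd⟩ : ∃ d, j + c = a + (d + 1) := ⟨j + c - a - 1, by omega⟩
    have e2 : (3 : ℤ) ^ a * X1 * (3 ^ t * g2) = 3 ^ (a + t) * (X1 * g2) := by
      rw [pow_add]; ring
    have e3 : (3 : ℤ) ^ s * g1 * (3 ^ c * Y1) =
        3 ^ (a + t) * (3 * (3 * (3 ^ (d + f) * (g1 * Y1)))) := by
      have e4 : s + c = a + t + (d + f + 2) := by omega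
      have e5 : (3 : ℤ) ^ s * g1 * (3 ^ c * Y1) = 3 ^ (s + c) * (g1 * Y1) := by
        rw [pow_add]; ring
      rw [e5, e4, pow_add, pow_add _ (d + f)]
      ring
    have hG : ¬ (3 : ℤ) ∣ X1 * g2 := fun h5 => (Int.prime_three.dvd_or_dvd h5).elim hX hg2
    rw [e] at hN ⊢
    rw [e2, e3, S_pow hS hC (fun h5 => ndvd_ne hG h5.1) hN,
      S_A hE _ hG (Dvd.intro _ rfl) h3, Int.mul_ediv_cancel_left _ three_ne]
    push_cast
    rw [three_zero]
    ring

/-- conjugate linear forms -/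
theorem conjS (hC : SCJ) {g h N : ℤ} (H : ¬ (g = 0 ∧ h = 0)) (hN : N ≠ 0) :
    sl ((g : Eis) + (h : Eis) * w ^ 2) (N : Eis) = - S g h N := by
  have h1 := hC.2.1 (E g h) (N : Eis) (E_ne H) (eisInt_ne hN)
  rw [conj_intCast] at h1
  have h2 : conj (E g h) = (g : Eis) + (h : Eis) * w ^ 2 := by
    unfold E
    rw [map_add, map_mul, conj_intCast, conj_intCast, conj_w]
  rw [h2] at h1
  exact h1

end LE3

open _root_.Pool.Agent.PT3.LE3 Pool.Agent.PT.F5L in
theorem LE3_thm (hSLE : SLE) (hLCL : LCL) (hSCJ : SCJ) (hSSL : SSL) (hSLC : SLC) (hSREC : SREC)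
    (hLCI : LCI) : LE3 := by
  intro B b x p q p' q' X Y _ hb hx hSol hB1 hxB _ hP
  obtain ⟨hX0, hY0, hn0, hcl⟩ := hP
  -- the class of `n0`
  have hm := hLCL.2.1 x _ hx hn0
  have hlv : lv (X ^ 3 + x * Y ^ 3) = 0 := by
    have h1 := hcl.1
    rw [hm.1, hxB] at h1
    linear_combination h1
  have hlw : lw (X ^ 3 + x * Y ^ 3) = 0 := by
    have h1 := hcl.2
    rw [hm.2] at h1
    rename_i h2
    rw [h2] at h1
    linear_combination h1
  obtain ⟨v, x1, hxe, hx1⟩ := fac hx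
  obtain ⟨a, X1, hXe, hX1⟩ := fac hX0
  obtain ⟨c, Y1, hYe, hY1⟩ := fac hY0
  have hv : (v : ZMod 3) = 1 := by
    rw [← hB1, ← hxB, hxe, (lvw hLCL v hx1).1]
  obtain ⟨j, rfl⟩ : ∃ j, v = 3 * j + 1 := by
    have h1 : ((v : ℕ) : ZMod 3) = ((1 : ℕ) : ZMod 3) := by rw [hv, Nat.cast_one]
    rw [ZMod.natCast_eq_natCast_iff] at h1
    have h2 : v % 3 = 1 := h1
    exact ⟨v / 3, by omega⟩
  subst hxe
  subst hXe
  subst hYe
  have hac := point hLCL hx1 hX1 hY1 hlv hlw
  -- the terms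
  have hN1 : p ^ 3 - 3 ^ (3 * j + 1) * x1 * p' ^ 3 ≠ 0 := hSol.n2
  have hN2 : q ^ 3 - 3 ^ (3 * j + 1) * x1 * q' ^ 3 ≠ 0 := by
    intro h
    apply hN1
    have h1 := hSol.eq
    linear_combination h1 - b * h
  have H1 : ¬ (3 ^ a * X1 * p' = 0 ∧ p * (3 ^ c * Y1) = 0) := by
    rintro ⟨h1, h2⟩
    have h3 := (mul_eq_zero.mp h1).resolve_left hX0
    have h4 := (mul_eq_zero.mp h2).resolve_right hY0
    exact hN1 (by rw [h3, h4]; ring)
  have H2 : ¬ (3 ^ a * X1 * q' = 0 ∧ q * (3 ^ c * Y1) = 0) := by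
    rintro ⟨h1, h2⟩
    have h3 := (mul_eq_zero.mp h1).resolve_left hX0
    have h4 := (mul_eq_zero.mp h2).resolve_right hY0
    exact hN2 (by rw [h3, h4]; ring)
  have c1 := claim hSLE hLCL hSCJ hSSL hx1 hX1 hY1 hac p p' hN1
  have c2 := claim hSLE hLCL hSCJ hSSL hx1 hX1 hY1 hac q q' hN2
  have c3 := S_cube hSSL hLCL H1 hn0 hlv hlw
  have c4 := S_cube hSSL hLCL H2 hn0 hlv hlw
  have c2' : S (3 ^ a * X1 * q') (q * (3 ^ c * Y1)) (3 ^ (3 * j + 1) * x1 * q' ^ 3 - q ^ 3) = 0 := by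
    have h1 := S_neg hSSL H2 hN2
    rw [neg_sub] at h1
    rw [h1]
    exact c2
  have hN2' : 3 ^ (3 * j + 1) * x1 * q' ^ 3 - q ^ 3 ≠ 0 := by
    intro h
    exact hN2 (by linear_combination -h)
  have d1 : ∀ u v : ℤ, Df (3 ^ a * X1) (3 ^ c * Y1) u v 1 =
      E (3 ^ a * X1 * u) (v * (3 ^ c * Y1)) := by
    intro u v
    unfold Df E
    push_cast
    ring
  have d2 : ∀ u v : ℤ, Df (3 ^ a * X1) (3 ^ c * Y1) u v 2 =
      ((3 ^ a * X1 * u : ℤ) : Eis) + ((v * (3 ^ c * Y1) : ℤ) : Eis) * w ^ 2 := by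
    intro u v
    unfold Df
    push_cast
    ring
  unfold SV
  rw [d1, d1, d2, d2, conjS hSCJ H1 hN1, conjS hSCJ H1 hn0, conjS hSCJ H2 hN2',
    conjS hSCJ H2 hn0, c1, c2', c3, c4]
  unfold S at c1 c2' c3 c4
  rw [c1, c2', c3, c4]
  ring

end Pool.Agent.PT3


end
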