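import Mathlib
import Pool.Agent.PTDM.C21
import Pool.Agent.PTDM.C23
import Pool.Agent.PTDM.C28
import Pool.Agent.PTDM.C29

/-! Parts: PT.FD2, PT.GALD, PT.SING, PT.SREC, PTE.EADMS, PTE.ECLS, PTE.FD2S, PTE.GALDS, PT3.ECLU, PT3.ECS0, PT3.FD2T, PT3.GALG, PT3.IIA -/

section

/-!
# FD2: the class of a point
-/

namespace Pool.Agent.PT

open Pool.Agent.Lib_helper18 Pool.Agent.Lib_helper18.Eis Pool.Agent.Lib_helper84.Cub

namespace FD2

theorem cast_ne {m : ℤ} (h : m ≠ 0) : (m : Eis) ≠ 0 := fun h' => h (by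
  have := congrArg Eis.re h'
  simpa using this)

/-- A cube-free number is not divisible by the cube of a prime. -/
theorem no_cube (hSPP : SPP) {B : ℤ} (hB : BOk B) {l : ℕ} (hl : l.Prime)
    (h : (l : ℤ) ^ 3 ∣ B) : False := by
  obtain ⟨h1, -⟩ := hSPP
  have hl3 : ¬ (3 : ℤ) ∣ l := by
    intro h3
    exact hB.three (h3.trans ((dvd_pow_self _ (by norm_num)).trans h))
  have hlu : ¬ IsUnit (l : Eis) := by
    rw [isUnit_iff_norm, norm_natCast]
    intro h3
    have h4 : l ^ 2 = 1 := by exact_mod_cast h3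
    have h5 := hl.two_le
    nlinarith
  have hl0 : (l : Eis) ≠ 0 := by
    have := cast_ne (m := (l : ℤ)) (by exact_mod_cast hl.ne_zero)
    simpa using this
  obtain ⟨ρ, hρ, hρl⟩ := WfDvdMonoid.exists_irreducible_factor hlu hl0
  have hρ' : Prime ρ := hρ.prime
  have hρ3 : ¬ ρ ∣ 3 := by
    intro h3
    have h4 : IsCoprime (3 : ℤ) l := by
      rw [Int.isCoprime_iff_gcd_eq_one]
      have h5 : Nat.Coprime 3 l := (Nat.Prime.coprime_iff_not_dvd Nat.prime_three).2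
        (fun h6 => hl3 (by exact_mod_cast h6))
      exact_mod_cast h5
    obtain ⟨u, v, huv⟩ := h4
    have h5 : (u : Eis) * 3 + v * l = 1 := by
      have := congrArg (fun m : ℤ => (m : Eis)) huv
      push_cast at this
      exact this
    exact hρ'.not_isUnit (isUnit_of_dvd_one (h5 ▸ dvd_add (h3.mul_left _) (hρl.mul_left _)))
  obtain ⟨π, hπ⟩ := h1 ρ hρ' hρ3
  have h2 : π.1 ^ 3 ∣ (B : Eis) := by
    have h3 : π.1 ∣ (l : Eis) := hπ.symm.dvd.trans hρl
    refine (pow_dvd_pow_of_dvd h3 3).trans ?_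
    obtain ⟨c, hc⟩ := h
    refine ⟨c, ?_⟩
    rw [hc]
    push_cast
    rfl
  have h3 := (fin π.2.1 (cast_ne hB.ne)).pow_dvd_iff_le_multiplicity.1 h2
  have h4 := hB.cf π
  exact absurd h3 (by unfold V at h4; omega)

section Sym

variable {π : Eis} {s : Eis → Eis → ZMod 3}

theorem three_mul (c : ZMod 3) : c + c + c = 0 := by
  revert c
  decide

theorem two_mul_eq {c : ZMod 3} (h : c = -c) : c = 0 := by
  revert c
  decide

theorem s_cube (hs : LSym π s 1) {a b : Eis} (ha : a ≠ 0) (hb : b ≠ 0) : s (a ^ 3) b = 0 := by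
  have h1 : a ^ 3 = a * a * a := by ring
  rw [h1, hs.mul _ _ _ (mul_ne_zero ha ha) ha hb, hs.mul _ _ _ ha ha hb]
  exact three_mul _

theorem s_cube' (hs : LSym π s 1) {a b : Eis} (ha : a ≠ 0) (hb : b ≠ 0) : s a (b ^ 3) = 0 := by
  rw [hs.skew _ _ (pow_ne_zero 3 hb) ha, s_cube hs hb ha, neg_zero]

theorem s_self (hs : LSym π s 1) {a : Eis} (ha : a ≠ 0) : s a a = 0 :=
  two_mul_eq (hs.skew a a ha ha)

theorem mul_right (hs : LSym π s 1) {a b c : Eis} (ha : a ≠ 0) (hb : b ≠ 0) (hc : c ≠ 0) :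
    s a (b * c) = s a b + s a c := by
  rw [hs.skew _ _ (mul_ne_zero hb hc) ha, hs.mul _ _ _ hb hc ha, hs.skew _ _ ha hb,
    hs.skew _ _ ha hc, neg_add, neg_neg, neg_neg]

theorem s_neg (hs : LSym π s 1) {a b : Eis} (ha : a ≠ 0) (hb : b ≠ 0) : s a (-b) = s a b := by
  have h1 : -b = (-1) ^ 3 * b := by ring
  rw [h1, mul_right hs ha (by simp) hb, s_cube' hs ha (by simp), zero_add]

end Sym

theorem main (hSTM : STM) (hSPP : SPP) {n q : ℕ} (hq : q.Prime) (hB : BOk ((n : ℤ) * q))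
    {a0 a1 a2 x0 x1 x2 : ℤ} (hx0 : x0 ≠ 0) (hx1 : x1 ≠ 0) (hx2 : x2 ≠ 0)
    (hs : a0 * x0 ^ 3 + a1 * x1 ^ 3 + a2 * x2 ^ 3 = 0) (hp : a0 * a1 * a2 = (n : ℤ) * q)
    (hc : IsCoprime a0 a1) (h2 : ¬ IsUnit a0 ∨ ¬ IsUnit a1)
    (h9 : C9 ((n : ℤ) * q) → wt (a0 ^ 2) = wt (a1 ^ 2)) (hq0 : ¬ (q : ℤ) ∣ a0)
    (hq1 : ¬ (q : ℤ) ∣ a1) :
    ∃ z X Y : ℤ, Pt ((n : ℤ) * q) z X Y ∧ Adm ((n : ℤ) * q) z ∧
      (∀ l : ℕ, l.Prime → (l : ℤ) ∣ z → l ∣ n) ∧ ¬ ∃ t : ℤ, t ^ 3 = z := by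
  set B : ℤ := (n : ℤ) * q with hBd
  have ha0 : a0 ≠ 0 := by
    rintro rfl
    exact hB.ne (by rw [← hp]; ring)
  have ha1 : a1 ≠ 0 := by
    rintro rfl
    exact hB.ne (by rw [← hp]; ring)
  have ha2 : a2 ≠ 0 := by
    rintro rfl
    exact hB.ne (by rw [← hp]; ring)
  have h30 : ¬ (3 : ℤ) ∣ a0 := fun h => hB.three (by
    rw [← hp]
    exact (h.mul_right _).mul_right _)
  have h31 : ¬ (3 : ℤ) ∣ a1 := fun h => hB.three (by
    rw [← hp]
    exact (h.mul_left _).mul_right _)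
  have hz0 : a0 ^ 2 * a1 ≠ 0 := mul_ne_zero (pow_ne_zero 2 ha0) ha1
  have heq : a0 ^ 2 * a1 * ((a0 * x0) ^ 3 + a0 ^ 2 * a1 * x1 ^ 3) = B * (-a0 * x2) ^ 3 := by
    rw [← hp]
    linear_combination a0 ^ 4 * a1 * hs
  have hc0 : -a0 * x2 ≠ 0 := mul_ne_zero (neg_ne_zero.2 ha0) hx2
  refine ⟨a0 ^ 2 * a1, a0 * x0, x1, ⟨mul_ne_zero ha0 hx0, hx1, -a0 * x2, hc0, heq⟩, ?_, ?_, ?_⟩
  · refine ⟨hz0, ?_, ?_, ?_, ?_⟩
    · intro h
      rcases Int.prime_three.dvd_or_dvd h with h | h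
      · exact h30 (Int.prime_three.dvd_of_dvd_pow h)
      · exact h31 h
    · intro π
      have hs := hSTM π.1 π.2.1 (hSPP.2.2.2.1 π).1
      set z : Eis := ((a0 ^ 2 * a1 : ℤ) : Eis) with hz
      set n0 : ℤ := (a0 * x0) ^ 3 + a0 ^ 2 * a1 * x1 ^ 3 with hn0
      have hn0' : n0 ≠ 0 := by
        intro h
        rw [h, mul_zero] at heq
        exact mul_ne_zero hB.ne (pow_ne_zero 3 hc0) heq.symm
      have hzne : z ≠ 0 := cast_ne hz0
      have hBne : (B : Eis) ≠ 0 := cast_ne hB.ne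
      have hcne : ((-a0 * x2 : ℤ) : Eis) ≠ 0 := cast_ne hc0
      have hnne : (n0 : Eis) ≠ 0 := cast_ne hn0'
      have hXne : ((a0 * x0 : ℤ) : Eis) ≠ 0 := cast_ne (mul_ne_zero ha0 hx0)
      have hYne : (x1 : Eis) ≠ 0 := cast_ne hx1
      have e1 : z * (n0 : Eis) = (B : Eis) * ((-a0 * x2 : ℤ) : Eis) ^ 3 := by
        have := congrArg (fun m : ℤ => (m : Eis)) heq
        push_cast at this ⊢
        rw [hz]
        push_cast
        exact this
      have e2 : tm π.1 z (B : Eis) = tm π.1 z (z * (n0 : Eis)) := by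
        rw [e1, mul_right hs hzne hBne (pow_ne_zero 3 hcne), s_cube' hs hzne hcne, add_zero]
      rw [e2, mul_right hs hzne hzne hnne, s_self hs hzne, zero_add]
      have e3 : ((a0 * x0 : ℤ) : Eis) ^ 3 + z * (x1 : Eis) ^ 3 + -(n0 : Eis) = 0 := by
        rw [hz, hn0]
        push_cast
        ring
      have e4 := hs.stein _ _ _ (pow_ne_zero 3 hXne) (mul_ne_zero hzne (pow_ne_zero 3 hYne))
        (neg_ne_zero.2 hnne) e3
      rw [s_cube hs hXne (mul_ne_zero hzne (pow_ne_zero 3 hYne)),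
        s_cube' hs (neg_ne_zero.2 hnne) hXne, zero_add, add_zero,
        s_neg hs (mul_ne_zero hzne (pow_ne_zero 3 hYne)) hnne,
        hs.mul _ _ _ hzne (pow_ne_zero 3 hYne) hnne, s_cube hs hYne hnne, add_zero] at e4
      exact e4
    · intro π hπ h
      apply hπ
      have e1 : (B : Eis) = (a0 : Eis) * a1 * a2 := by
        rw [← hp]
        push_cast
        ring
      have e2 : ((a0 ^ 2 * a1 : ℤ) : Eis) = (a0 : Eis) ^ 2 * a1 := by
        push_cast
        ring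
      rw [e2] at h
      rw [e1]
      rcases π.2.1.dvd_or_dvd h with h | h
      · exact ((π.2.1.dvd_of_dvd_pow h).mul_right _).mul_right _
      · exact (h.mul_left _).mul_right _
    · intro h
      have h1 := h9 h
      have e0 : a0 ^ 2 % 3 = 1 := by
        have h3 : a0 % 3 = 1 ∨ a0 % 3 = 2 := by omega
        rcases h3 with h3 | h3 <;> simp [pow_two, Int.mul_emod, h3]
      have e1 : a1 ^ 2 % 3 = 1 := by
        have h3 : a1 % 3 = 1 ∨ a1 % 3 = 2 := by omega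
        rcases h3 with h3 | h3 <;> simp [pow_two, Int.mul_emod, h3]
      unfold wt at h1
      rw [ZMod.intCast_eq_intCast_iff_dvd_sub] at h1
      set A0 : ℤ := a0 ^ 2 with hA0
      set A1 : ℤ := a1 ^ 2 with hA1
      have h3 : (9 : ℤ) ∣ A1 - A0 := by
        push_cast at h1
        omega
      have h4 : (a0 ^ 2 * a1) ^ 2 % 9 = 1 := by
        have h5 : (a0 ^ 2 * a1) ^ 2 = A0 ^ 3 + 9 * ((A1 - A0) / 9 * A0 ^ 2) := by
          have h6 : A1 - A0 = 9 * ((A1 - A0) / 9) := by omega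
          have h7 : (a0 ^ 2 * a1) ^ 2 = A0 ^ 2 * A1 := by rw [hA0, hA1]; ring
          rw [h7]
          linear_combination A0 ^ 2 * h6
        have h8 : A0 ^ 3 % 9 = 1 := by
          obtain ⟨k, hk⟩ : ∃ k, A0 = 1 + 3 * k := ⟨A0 / 3, by omega⟩
          have h9 : A0 ^ 3 = 1 + 9 * (k + 3 * k ^ 2 + 3 * k ^ 3) := by rw [hk]; ring
          omega
        omega
      unfold C9
      set z : ℤ := a0 ^ 2 * a1 with hz
      have h5 : z % 9 = 0 ∨ z % 9 = 1 ∨ z % 9 = 2 ∨ z % 9 = 3 ∨ z % 9 = 4 ∨ z % 9 = 5 ∨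
        z % 9 = 6 ∨ z % 9 = 7 ∨ z % 9 = 8 := by omega
      rcases h5 with h5 | h5 | h5 | h5 | h5 | h5 | h5 | h5 | h5 <;>
        simp [pow_two, Int.mul_emod, h5] at h4 ⊢
  · intro l hl h
    have hl' : Prime (l : ℤ) := Nat.prime_iff_prime_int.1 hl
    have h1 : (l : ℤ) ∣ a0 ∨ (l : ℤ) ∣ a1 := by
      rcases hl'.dvd_or_dvd h with h | h
      · exact Or.inl (hl'.dvd_of_dvd_pow h)
      · exact Or.inr h
    have h3 : (l : ℤ) ∣ B := by
      rw [← hp]
      rcases h1 with h1 | h1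
      · exact (h1.mul_right _).mul_right _
      · exact (h1.mul_left _).mul_right _
    rcases hl'.dvd_or_dvd h3 with h4 | h4
    · exact_mod_cast h4
    · exfalso
      have h5 : l ∣ q := by exact_mod_cast h4
      have h6 : l = q := (Nat.prime_dvd_prime_iff_eq hl hq).1 h5
      rw [h6] at h1
      exact h1.elim hq0 hq1
  · rintro ⟨t, ht⟩
    have hc' : IsCoprime (a0 ^ 2) a1 := hc.pow_left
    obtain ⟨e, he⟩ := Int.eq_pow_of_mul_eq_pow_odd_left hc' (by decide : Odd 3) ht.symm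
    obtain ⟨f, hf⟩ := Int.eq_pow_of_mul_eq_pow_odd_right hc' (by decide : Odd 3) ht.symm
    rcases h2 with h2 | h2
    · -- `a0` is a cube
      have h3 : e ∣ a0 := by
        rw [← Int.pow_dvd_pow_iff (n := 3) (by norm_num)]
        exact ⟨a0, by rw [← he]; ring⟩
      obtain ⟨g, hg⟩ := h3
      have he0 : e ≠ 0 := by
        rintro rfl
        exact ha0 (by rw [hg, zero_mul])
      have h4 : g ^ 2 = e := by
        have h5 : e ^ 2 * g ^ 2 = e ^ 2 * e := by
          rw [← mul_pow, ← hg, he]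
          ring
        exact mul_left_cancel₀ (pow_ne_zero 2 he0) h5
      have h5 : a0 = g ^ 3 := by rw [hg, ← h4]; ring
      have h6 : ¬ IsUnit g := fun h => h2 (by rw [h5]; exact h.pow 3)
      have h7 : g.natAbs ≠ 1 := fun h => h6 (Int.isUnit_iff_natAbs_eq.2 h)
      obtain ⟨l, hl, hlg⟩ := Nat.exists_prime_and_dvd h7
      refine no_cube hSPP hB hl ?_
      have h8 : (l : ℤ) ∣ g := Int.natCast_dvd.2 hlg
      refine (pow_dvd_pow_of_dvd h8 3).trans ?_
      rw [← h5, ← hp]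
      exact ⟨a1 * a2, by ring⟩
    · have h6 : ¬ IsUnit f := fun h => h2 (by rw [hf]; exact h.pow 3)
      have h7 : f.natAbs ≠ 1 := fun h => h6 (Int.isUnit_iff_natAbs_eq.2 h)
      obtain ⟨l, hl, hlg⟩ := Nat.exists_prime_and_dvd h7
      refine no_cube hSPP hB hl ?_
      have h8 : (l : ℤ) ∣ f := Int.natCast_dvd.2 hlg
      refine (pow_dvd_pow_of_dvd h8 3).trans ?_
      rw [← hf, ← hp]
      exact ⟨a0 * a2, by ring⟩

end FD2

open _root_.Pool.Agent.PT.FD2 in
theorem FD2_thm (hSTM : STM) (hSPP : SPP) : FD2 := by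
  intro n q a x hq _ _ _ hB hcell
  obtain ⟨hne, hsum, hprod, hcop, htwo, hnine⟩ := hcell
  rw [Fin.sum_univ_three] at hsum
  rw [Fin.prod_univ_three] at hprod
  have hq' : Prime (q : ℤ) := Nat.prime_iff_prime_int.1 hq
  have hqd : (q : ℤ) ∣ a 0 * a 1 * a 2 := by
    rw [hprod]
    exact dvd_mul_left _ _
  have hnot : ∀ i j, i ≠ j → (q : ℤ) ∣ a i → ¬ (q : ℤ) ∣ a j := fun i j hij h1 h2 =>
    hq'.not_isUnit ((hcop i j hij).isUnit_of_dvd' h1 h2)
  have hk : (q : ℤ) ∣ a 0 ∨ (q : ℤ) ∣ a 1 ∨ (q : ℤ) ∣ a 2 := by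
    rcases hq'.dvd_or_dvd hqd with h | h
    · rcases hq'.dvd_or_dvd h with h | h
      · exact Or.inl h
      · exact Or.inr (Or.inl h)
    · exact Or.inr (Or.inr h)
  rcases hk with h | h | h
  · refine main hSTM hSPP (a0 := a 1) (a1 := a 2) (a2 := a 0) hq hB (hne 1) (hne 2) (hne 0) (by linear_combination hsum)
      (by linear_combination hprod) (hcop 1 2 (by decide)) ?_ (fun h9 => hnine h9 1 2)
      (hnot 0 1 (by decide) h) (hnot 0 2 (by decide) h)
    obtain ⟨j, hj, hu⟩ := htwo 0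
    fin_cases j
    · exact absurd rfl hj
    · exact Or.inl hu
    · exact Or.inr hu
  · refine main hSTM hSPP (a0 := a 0) (a1 := a 2) (a2 := a 1) hq hB (hne 0) (hne 2) (hne 1) (by linear_combination hsum)
      (by linear_combination hprod) (hcop 0 2 (by decide)) ?_ (fun h9 => hnine h9 0 2)
      (hnot 1 0 (by decide) h) (hnot 1 2 (by decide) h)
    obtain ⟨j, hj, hu⟩ := htwo 1
    fin_cases j
    · exact Or.inl hu
    · exact absurd rfl hj
    · exact Or.inr hu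
  · refine main hSTM hSPP (a0 := a 0) (a1 := a 1) (a2 := a 2) hq hB (hne 0) (hne 1) (hne 2) (by linear_combination hsum)
      (by linear_combination hprod) (hcop 0 1 (by decide)) ?_ (fun h9 => hnine h9 0 1)
      (hnot 2 0 (by decide) h) (hnot 2 1 (by decide) h)
    obtain ⟨j, hj, hu⟩ := htwo 2
    fin_cases j
    · exact Or.inl hu
    · exact Or.inr hu
    · exact absurd rfl hj

end Pool.Agent.PT


end

section

/-!
# Prime twists of rank zero: summary of the governing field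
-/

open NumberField IsDedekindDomain Finset
open scoped nonZeroDivisors Pointwise

namespace Pool.Agent.PT.GALD

lemma om_cube {L : Type} [Field L] {ω : L} (h : ω ^ 2 + ω + 1 = 0) : ω ^ 3 = 1 := by
  have : ω ^ 3 - 1 = (ω - 1) * (ω ^ 2 + ω + 1) := by ring
  rw [h, mul_zero] at this
  exact sub_eq_zero.mp this

lemma om_mod {L : Type} [Field L] {ω : L} (h : ω ^ 3 = 1) (n : ℕ) : ω ^ n = ω ^ (n % 3) := by
  conv_lhs => rw [← Nat.div_add_mod n 3]
  rw [pow_add, pow_mul, h, one_pow, one_mul]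

lemma om_congr {L : Type} [Field L] {ω : L} (h : ω ^ 3 = 1) {m n : ℕ} (e : m % 3 = n % 3) :
    ω ^ m = ω ^ n := by
  rw [om_mod h m, om_mod h n, e]

lemma pow_om {L : Type} [Field L] [NumberField L] {ω : L} (h : ω ^ 3 = 1) (g : L ≃ₐ[ℚ] L)
    (hg : g ω = ω ^ 2) (k : ℕ) : (g ^ k) ω = ω ^ (2 ^ k) := by
  induction k with
  | zero => simp
  | succ k ih =>
    rw [pow_succ, AlgEquiv.mul_apply, hg, map_pow, ih, ← pow_mul]
    congr 1

lemma two_pow_odd {k : ℕ} (hk : Odd k) : 2 ^ k % 3 = 2 := by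
  obtain ⟨l, rfl⟩ := hk
  rw [pow_succ, pow_mul, Nat.mul_mod, Nat.pow_mod]
  norm_num

end Pool.Agent.PT.GALD

namespace Pool.Agent.PT

open Pool.Agent.PT.GALD

theorem GALD_thm (hGZERO : GZERO) (hGCHI : GCHI) (hGT : GT) (hGC : GC) (hGFR : GFR) : GALD := by
  classical
  intro s b p q p' q' f hSys hf h9
  obtain ⟨L, hF, hN, ζ, ω, hG⟩ := hGZERO s b p q p' q' f hSys hf h9
  haveI := hG.gal
  obtain ⟨χ, hχs, hχζ, hχF⟩ := hGCHI L f ζ hf hG.prim
  obtain ⟨N₀, hFr⟩ := hGFR s b p q p' q' f L ζ ω hSys hG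
  have hω3 : ω ^ 3 = 1 := om_cube hG.rel
  have hf1 : 1 < f := by
    obtain ⟨c, hc⟩ := h9
    omega
  have hT := hGT s b p q p' q' f L ζ ω hSys hG
  -- action on ω
  have hM : ∀ g : L ≃ₐ[ℚ] L, M2 (χ g) → g ω = ω ^ 2 := by
    intro g hg
    rw [hG.hω, map_pow, hχζ g, ← pow_mul, mul_comm, pow_mul, ← hG.hω]
    apply om_congr hω3
    unfold M2 at hg
    omega
  let t : (L ≃ₐ[ℚ] L) → Fin s → Fin s → ZMod 3 := fun g j i =>
    if h : j ≠ i ∧ g ω = ω ^ 2 then ((hT j i h.1).1 g h.2).choose else 0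
  have ht : ∀ (g : L ≃ₐ[ℚ] L) (j i : Fin s), j ≠ i → g ω = ω ^ 2 →
      IsT b p q p' q' ω g j i (t g j i) := by
    intro g j i hji hg
    have h : j ≠ i ∧ g ω = ω ^ 2 := ⟨hji, hg⟩
    have e : t g j i = ((hT j i h.1).1 g h.2).choose := dif_pos h
    rw [e]
    exact ((hT j i h.1).1 g h.2).choose_spec.1
  have htu : ∀ (g : L ≃ₐ[ℚ] L) (j i : Fin s) (c : ZMod 3), j ≠ i → g ω = ω ^ 2 →
      IsT b p q p' q' ω g j i c → t g j i = c := by
    intro g j i c hji hg hc
    exact ((hT j i hji).1 g hg).unique (ht g j i hji hg) hc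
  refine ⟨L, hF, hN, hG.gal, χ, t, N₀, hχs, ?_, ?_, ?_, ?_⟩
  · intro g τ hg j i hji
    have h1 : χ (τ * g * τ⁻¹) = χ g := by
      rw [map_mul, map_mul, map_inv, mul_comm (χ τ), mul_inv_cancel_right]
    apply htu _ _ _ _ hji
    · apply hM
      rw [h1]
      exact hg
    · exact (hT j i hji).2.1 g τ _ (hM g hg) (ht g j i hji (hM g hg))
  · intro g k hg hk j i hji
    apply htu _ _ _ _ hji
    · rw [pow_om hω3 g (hM g hg) k]
      apply om_congr hω3
      rw [two_pow_odd hk]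
    · exact (hT j i hji).2.2 g _ k (hM g hg) hk (ht g j i hji (hM g hg))
  · intro a v v' ha
    obtain ⟨z, hzζ, hzρ, hzA⟩ := hGC s b p q p' q' f L ζ ω hSys hG (fun j i => v j i - v' j i)
    have hzω : z ω = ω := by rw [hG.hω, map_pow, hzζ]
    have hχz : χ z = 1 := by
      have h1 := hχζ z
      rw [hzζ] at h1
      haveI : NeZero f := ⟨hf.ne'⟩
      have h2 : ((χ z : ZMod f)).val = 1 := by
        apply hG.prim.pow_inj (ZMod.val_lt _) hf1
        rw [← h1, pow_one]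
      apply Units.ext
      have h3 := ZMod.natCast_zmod_val (χ z : ZMod f)
      rw [h2] at h3
      rw [← h3]
      simp
    have key : ∀ g : L ≃ₐ[ℚ] L, g ω = ω ^ 2 → ∀ j i, j < i →
        t (g * z) j i = t g j i - (v j i - v' j i) := by
      intro g hg j i hji
      have hgz : (g * z) ω = ω ^ 2 := by rw [AlgEquiv.mul_apply, hzω, hg]
      apply htu _ _ _ _ hji.ne hgz
      intro ρ A hρ hgρ hA
      rw [AlgEquiv.mul_apply, hzρ j ρ hρ] at hgρ
      have h1 := ht g j i hji.ne hg ρ A hρ hgρ hA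
      rw [AlgEquiv.mul_apply, hzA j i hji ρ A hρ hA, map_mul, map_pow, hg, mul_assoc, h1,
        ← pow_mul, ← pow_add]
      apply om_congr hω3
      have : ((2 * (v j i - v' j i).val + (t g j i).val : ℕ) : ZMod 3) =
          (((t g j i - (v j i - v' j i)).val : ℕ) : ZMod 3) := by
        push_cast
        rw [ZMod.natCast_zmod_val, ZMod.natCast_zmod_val, ZMod.natCast_zmod_val]
        have h3 : (3 : ZMod 3) = 0 := by decide
        linear_combination (v j i - v' j i) * h3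
      exact (ZMod.natCast_eq_natCast_iff' _ _ 3).mp this
    apply Nat.card_congr
    refine Equiv.subtypeEquiv (Equiv.mulRight z) ?_
    intro g
    have hχ : χ (g * z) = χ g := by rw [map_mul, hχz, mul_one]
    show (χ g = a ∧ ∀ j i, j < i → t g j i = v j i) ↔
      (χ (g * z) = a ∧ ∀ j i, j < i → t (g * z) j i = v' j i)
    rw [hχ]
    constructor
    · rintro ⟨h1, h2⟩
      refine ⟨h1, fun j i hji => ?_⟩
      rw [key g (hM g (by rw [h1]; exact ha)) j i hji, h2 j i hji]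
      ring
    · rintro ⟨h1, h2⟩
      refine ⟨h1, fun j i hji => ?_⟩
      have h3 := h2 j i hji
      rw [key g (hM g (by rw [h1]; exact ha)) j i hji] at h3
      linear_combination h3
  · intro Q hQ hQp hN₀ P g hP hQP hst
    haveI := hP
    obtain ⟨h1, h2⟩ := hFr Q hQp hN₀ P hP hQP
    obtain ⟨k, hk, hfr⟩ := h1 g hst
    refine ⟨k, hk, hχF Q hQ hQp P (g ^ k) hP hQP hfr, ?_⟩
    intro hQ3 j i hji r hr
    obtain ⟨h3, h4⟩ := h2 (g ^ k) hfr hQ3
    exact h4 j i hji r _ hr (ht (g ^ k) j i hji h3)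

end Pool.Agent.PT


end

section

/-!
# SING: at most `3/8` of the alternating matrices of even size over `F_3` are singular
-/

namespace Pool.Agent.PT

open Pool.Agent.Lib_helper18 Pool.Agent.Lib_helper18.Eis Pool.Agent.Lib_helper84.Cub

namespace SING

variable {s : ℕ}

instance : Fact (Nat.Prime 3) := ⟨Nat.prime_three⟩

theorem alt_apply (v : Fin s → Fin s → ZMod 3) (j i : Fin s) :
    alt v j i = if j < i then v j i else if i < j then - v i j else 0 := rfl

theorem alt_transpose (v : Fin s → Fin s → ZMod 3) : (alt v).transpose = - alt v := by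
  ext j i
  rw [Matrix.transpose_apply, Matrix.neg_apply, alt_apply, alt_apply]
  rcases lt_trichotomy i j with h | h | h
  · simp [h, not_lt_of_gt h]
  · simp [h]
  · simp [h, not_lt_of_gt h]

theorem alt_add (v v' : Fin s → Fin s → ZMod 3) : alt (v + v') = alt v + alt v' := by
  ext j i
  rw [Matrix.add_apply, alt_apply, alt_apply, alt_apply]
  split_ifs <;> simp [add_comm]

/-- an alternating matrix with given image of `x` -/
def sec (x' y : Fin s → ZMod 3) : Fin s → Fin s → ZMod 3 := fun j i => y j * x' i - x' j * y i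

theorem alt_sec (x' y : Fin s → ZMod 3) (j i : Fin s) :
    alt (sec x' y) j i = y j * x' i - x' j * y i := by
  rw [alt_apply]
  unfold sec
  rcases lt_trichotomy i j with h | h | h
  · simp [h, not_lt_of_gt h]; ring
  · simp [h]; ring
  · simp [h]

theorem sec_mulVec (x x' y : Fin s → ZMod 3) (h1 : ∑ i, x' i * x i = 1) (h2 : ∑ i, y i * x i = 0) :
    (alt (sec x' y)).mulVec x = y := by
  ext j
  rw [Matrix.mulVec, dotProduct]
  calc ∑ i, alt (sec x' y) j i * x i = ∑ i, (y j * (x' i * x i) - x' j * (y i * x i)) := by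
        refine Finset.sum_congr rfl fun i _ => ?_
        rw [alt_sec]; ring
    _ = y j := by
        rw [Finset.sum_sub_distrib, ← Finset.mul_sum, ← Finset.mul_sum, h1, h2]; ring

theorem card_ker (x : Fin s → ZMod 3) (hx : x ≠ 0) :
    3 ^ s * Fintype.card {v : Fin s → Fin s → ZMod 3 // (alt v).mulVec x = 0} ≤
      3 * Fintype.card (Fin s → Fin s → ZMod 3) := by
  obtain ⟨k, hk⟩ := Function.ne_iff.1 hx
  simp only [Pi.zero_apply, ne_eq] at hk
  set x' : Fin s → ZMod 3 := Pi.single k (x k)⁻¹ with hx'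
  have h1 : ∑ i, x' i * x i = 1 := by
    rw [Finset.sum_eq_single k]
    · rw [hx', Pi.single_eq_same, inv_mul_cancel₀ hk]
    · intro b _ hb
      rw [hx', Pi.single_eq_of_ne hb, zero_mul]
    · simp
  -- projection
  let pr : (Fin s → ZMod 3) → (Fin s → ZMod 3) := fun z => z - (∑ i, z i * x i) • x'
  have hpr : ∀ z, ∑ i, pr z i * x i = 0 := by
    intro z
    have : ∑ i, pr z i * x i = ∑ i, z i * x i - (∑ i, z i * x i) * ∑ i, x' i * x i := by
      rw [Finset.mul_sum, ← Finset.sum_sub_distrib]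
      refine Finset.sum_congr rfl fun i _ => ?_
      simp only [pr, Pi.sub_apply, Pi.smul_apply, smul_eq_mul]
      ring
    rw [this, h1, mul_one, sub_self]
  have hc : Fintype.card ((Fin s → ZMod 3) × {v : Fin s → Fin s → ZMod 3 // (alt v).mulVec x = 0}) ≤
      Fintype.card (ZMod 3 × (Fin s → Fin s → ZMod 3)) := by
    refine Fintype.card_le_of_injective
      (fun a => (∑ i, a.1 i * x i, a.2.1 + sec x' (pr a.1))) ?_
    rintro ⟨z, v, hv⟩ ⟨z', v', hv'⟩ h
    simp only [Prod.mk.injEq] at h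
    obtain ⟨ha, hb⟩ := h
    have hp : pr z = pr z' := by
      have := congrArg (fun u => (alt u).mulVec x) hb
      simp only [alt_add, Matrix.add_mulVec, hv, hv', zero_add] at this
      rwa [sec_mulVec x x' _ h1 (hpr z), sec_mulVec x x' _ h1 (hpr z')] at this
    have hz : z = z' := by
      have h3 : z = pr z + (∑ i, z i * x i) • x' := by simp [pr]
      rw [h3, hp, ha]
      simp [pr]
    subst hz
    simp only [Prod.mk.injEq, Subtype.mk.injEq, true_and]
    exact add_right_cancel hb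
  rw [Fintype.card_prod, Fintype.card_prod] at hc
  simpa [ZMod.card] using hc

theorem odd_det {n : ℕ} (hn : Odd n) (A : Matrix (Fin n) (Fin n) (ZMod 3)) (h : A.transpose = - A) :
    A.det = 0 := by
  have h1 : A.det = - A.det := by
    conv_lhs => rw [← Matrix.det_transpose, h, Matrix.det_neg]
    simp [hn.neg_one_pow]
  revert h1
  generalize A.det = d
  revert d
  decide

theorem two_ker (hs : Even s) (v : Fin s → Fin s → ZMod 3) (hv : (alt v).det = 0) :
    ∃ x u : Fin s → ZMod 3, ∃ k : Fin s, (alt v).mulVec x = 0 ∧ (alt v).mulVec u = 0 ∧ x k ≠ 0 ∧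
      u k = 0 ∧ u ≠ 0 := by
  obtain ⟨x, hx0, hx⟩ := Matrix.exists_mulVec_eq_zero_iff.2 hv
  obtain ⟨k, hk⟩ := Function.ne_iff.1 hx0
  simp only [Pi.zero_apply, ne_eq] at hk
  obtain ⟨n, rfl⟩ : ∃ n, s = n + 1 := ⟨s - 1, by have := k.2; omega⟩
  have hn : Odd n := by
    rcases Nat.even_or_odd n with h | h
    · exfalso
      rw [Nat.even_add_one] at hs
      exact hs h
    · exact h
  let A' : Matrix (Fin n) (Fin n) (ZMod 3) := (alt v).submatrix k.succAbove k.succAbove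
  have hA' : A'.det = 0 := by
    refine odd_det hn A' ?_
    show ((alt v).submatrix _ _).transpose = _
    rw [Matrix.transpose_submatrix, alt_transpose]
    rfl
  obtain ⟨u', hu0, hu'⟩ := Matrix.exists_mulVec_eq_zero_iff.2 hA'
  let u : Fin (n + 1) → ZMod 3 := k.insertNth 0 u'
  have huk : u k = 0 := Fin.insertNth_apply_same ..
  have hus : ∀ i, u (k.succAbove i) = u' i := fun i => Fin.insertNth_apply_succAbove ..
  have hne : u ≠ 0 := by
    intro h
    apply hu0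
    ext i
    rw [← hus i, h]; rfl
  have hrow : ∀ i, (alt v).mulVec u (k.succAbove i) = 0 := by
    intro i
    have := congrFun hu' i
    rw [Matrix.mulVec, dotProduct] at this ⊢
    rw [Fin.sum_univ_succAbove _ k, huk, mul_zero, zero_add]
    simpa [A', hus] using this
  have hkk : (alt v).mulVec u k = 0 := by
    have h1 : dotProduct x ((alt v).mulVec u) = 0 := by
      rw [Matrix.dotProduct_mulVec, ← Matrix.mulVec_transpose, alt_transpose, Matrix.neg_mulVec, hx]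
      simp
    rw [dotProduct, Fin.sum_univ_succAbove _ k] at h1
    simp only [hrow, mul_zero, Finset.sum_const_zero, add_zero] at h1
    exact (mul_eq_zero.1 h1).resolve_left hk
  refine ⟨x, u, k, hx, ?_, hk, huk, hne⟩
  ext i
  rcases Fin.eq_self_or_eq_succAbove k i with h | ⟨j, h⟩
  · rw [h]; exact hkk
  · rw [h]; exact hrow j

theorem eight_le (hs : Even s) (v : Fin s → Fin s → ZMod 3) (hv : (alt v).det = 0) :
    9 ≤ Fintype.card {x : Fin s → ZMod 3 // (alt v).mulVec x = 0} := by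
  obtain ⟨x, u, k, hx, hu, hk, huk, hne⟩ := two_ker hs v hv
  obtain ⟨l, hl⟩ := Function.ne_iff.1 hne
  simp only [Pi.zero_apply, ne_eq] at hl
  have := Fintype.card_le_of_injective
    (fun a : ZMod 3 × ZMod 3 => (⟨a.1 • x + a.2 • u, by
      rw [Matrix.mulVec_add, Matrix.mulVec_smul, Matrix.mulVec_smul, hx, hu]; simp⟩ :
        {x : Fin s → ZMod 3 // (alt v).mulVec x = 0})) (by
      rintro ⟨a, b⟩ ⟨a', b'⟩ h
      simp only [Subtype.mk.injEq] at h
      have h1 := congrFun h k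
      simp only [Pi.add_apply, Pi.smul_apply, smul_eq_mul, huk, mul_zero, add_zero] at h1
      have h2 := mul_right_cancel₀ hk h1
      subst h2
      have h3 := congrFun h l
      simp only [Pi.add_apply, Pi.smul_apply, smul_eq_mul] at h3
      have h4 := mul_right_cancel₀ hl (add_left_cancel h3)
      subst h4
      rfl)
  simpa [Fintype.card_prod, ZMod.card] using this

end SING

theorem SING_thm : SING := by
  classical
  intro s hs
  rw [Nat.card_eq_fintype_card, Nat.card_eq_fintype_card]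
  set N := Fintype.card (Fin s → Fin s → ZMod 3) with hN
  -- double counting
  have key := Finset.sum_card_bipartiteAbove_eq_sum_card_bipartiteBelow
    (s := (Finset.univ : Finset (Fin s → Fin s → ZMod 3)))
    (t := (Finset.univ.erase 0 : Finset (Fin s → ZMod 3)))
    (fun v x => (alt v).mulVec x = 0)
  have h1 : 8 * Fintype.card {v : Fin s → Fin s → ZMod 3 // (alt v).det = 0} ≤
      ∑ v : Fin s → Fin s → ZMod 3, ((Finset.univ.erase 0 : Finset (Fin s → ZMod 3)).bipartiteAbove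
        (fun v x => (alt v).mulVec x = 0) v).card := by
    rw [Fintype.card_subtype, mul_comm, ← smul_eq_mul, ← Finset.sum_const]
    refine le_trans (Finset.sum_le_sum fun v hv => ?_)
      (Finset.sum_le_sum_of_subset (Finset.filter_subset (fun v => (alt v).det = 0) _))
    have hv' := (Finset.mem_filter.1 hv).2
    have h9 := SING.eight_le hs v hv'
    rw [Fintype.card_subtype] at h9
    have : (Finset.univ.erase 0 : Finset (Fin s → ZMod 3)).bipartiteAbove
        (fun v x => (alt v).mulVec x = 0) v =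
        (Finset.univ.filter fun x : Fin s → ZMod 3 => (alt v).mulVec x = 0).erase 0 := by
      ext x
      simp [Finset.bipartiteAbove, and_comm]
    rw [this, Finset.card_erase_of_mem (by simp)]
    omega
  have h2 : ∑ x ∈ (Finset.univ.erase 0 : Finset (Fin s → ZMod 3)),
      3 ^ s * ((Finset.univ : Finset (Fin s → Fin s → ZMod 3)).bipartiteBelow
        (fun v x => (alt v).mulVec x = 0) x).card ≤
      ∑ x ∈ (Finset.univ.erase 0 : Finset (Fin s → ZMod 3)), 3 * N := by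
    refine Finset.sum_le_sum fun x hx => ?_
    have := SING.card_ker x (Finset.ne_of_mem_erase hx)
    rw [Fintype.card_subtype] at this
    exact this
  rw [← Finset.mul_sum, ← key, Finset.sum_const, smul_eq_mul] at h2
  have h3 : (Finset.univ.erase 0 : Finset (Fin s → ZMod 3)).card ≤ 3 ^ s := by
    refine le_trans (Finset.card_le_univ _) ?_
    simp [ZMod.card]
  have h4 := le_trans (Nat.mul_le_mul_left (3 ^ s) h1) (le_trans h2 (Nat.mul_le_mul_right _ h3))
  exact Nat.le_of_mul_le_mul_left h4 (by positivity)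

end Pool.Agent.PT


end

section

/-!
# SREC: cubic reciprocity for primary elements and the supplementary laws
-/

namespace Pool.Agent.PT

open Pool.Agent.Lib_helper18 Pool.Agent.Lib_helper18.Eis Pool.Agent.Lib_helper84.Cub

namespace SREC

theorem two_mul_eq_zero {x : ZMod 3} (h : 2 * x = 0) : x = 0 := by
  have h4 : ∀ x : ZMod 3, 2 * x = 0 → x = 0 := by decide
  exact h4 _ h

/-! ### induction over primary elements -/

theorem not_lam_dvd {c : Eis} (hc : Prim c) : ¬ lam ∣ c := by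
  rw [lam_dvd_iff]
  obtain ⟨h1, h2⟩ := hc
  omega

theorem prim_ne_zero {c : Eis} (hc : Prim c) : c ≠ 0 := by
  rintro rfl
  exact not_lam_dvd hc (dvd_zero _)

theorem prim_one : Prim 1 := ⟨by simp, by simp⟩

theorem pp_prim (π : PP) : Prim π.1 := ⟨π.2.2.2, by have := π.2.2.1; omega⟩

theorem prim_mul {c d : Eis} (hc : Prim c) (hd : Prim d) : Prim (c * d) := by
  obtain ⟨⟨a, ha⟩, h2⟩ := hc
  obtain ⟨⟨b, hb⟩, h4⟩ := hd
  refine ⟨?_, ?_⟩
  · rw [mul_im, ha, hb]
    exact ⟨c.re * b + a * d.re - 3 * a * b, by ring⟩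
  · rw [mul_re, ha, hb]
    intro h
    have h5 : (3 : ℤ) ∣ c.re * d.re := by
      have h6 : c.re * d.re = (c.re * d.re - 3 * a * (3 * b)) + 3 * (3 * a * b) := by ring
      rw [h6]
      exact dvd_add h ⟨_, rfl⟩
    rcases Int.prime_three.dvd_or_dvd h5 with h7 | h7
    · exact h2 h7
    · exact h4 h7

theorem prim_of_mul {c d : Eis} (hc : Prim c) (h : Prim (c * d)) : Prim d := by
  obtain ⟨⟨a, ha⟩, h2⟩ := hc
  obtain ⟨h3, h4⟩ := h
  rw [mul_im, ha] at h3
  rw [mul_re, ha] at h4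
  have h5 : (3 : ℤ) ∣ c.re * d.im := by
    obtain ⟨k, hk⟩ := h3
    exact ⟨k - a * d.re + a * d.im, by linear_combination hk⟩
  have h6 : (3 : ℤ) ∣ d.im := (Int.prime_three.dvd_or_dvd h5).resolve_left h2
  refine ⟨h6, fun h7 => h4 ?_⟩
  exact dvd_sub (h7.mul_left _) (h6.mul_left _)

theorem prim_ind (hSPP : SPP) {P : Eis → Prop} (h1 : P 1) (h2 : P (-1))
    (h3 : ∀ (π : PP) (c : Eis), Prim c → P c → P (π.1 * c)) :
    ∀ c : Eis, Prim c → P c := by
  have key : ∀ (n : ℕ) (c : Eis), N c = n → Prim c → P c := by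
    intro n
    induction n using Nat.strong_induction_on with
    | _ n ih =>
      intro c hn hc
      by_cases hu : IsUnit c
      · rcases prim_one.unit hu (by rw [one_mul]; exact hc) with h | h
        · rw [h]; exact h1
        · rw [h]; exact h2
      · obtain ⟨l, hlirr, hlc⟩ := WfDvdMonoid.exists_irreducible_factor hu (prim_ne_zero hc)
        have hl : Prime l := hlirr.prime
        have hl3 : ¬ l ∣ 3 := by
          intro h
          exact not_lam_dvd hc (((dvd_three_iff hl).mp h).symm.dvd.trans hlc)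
        obtain ⟨π, hπ⟩ := hSPP.1 l hl hl3
        obtain ⟨c', rfl⟩ := hπ.symm.dvd.trans hlc
        have hc' : Prim c' := prim_of_mul (pp_prim π) hc
        refine h3 π c' hc' (ih (N c') ?_ c' rfl hc')
        rw [← hn, N_mul]
        have h4 := N_prime π.2.1
        have h5 := N_pos (prim_ne_zero hc')
        nlinarith
  exact fun c hc => key _ c rfl hc

/-! ### formal properties of `sl` -/

theorem sl_one (hSSL : SSL) {c : Eis} (hc : c ≠ 0) : sl 1 c = 0 := by
  have h := hSSL.1 1 1 c one_ne_zero one_ne_zero hc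
  rw [mul_one] at h
  linear_combination (-1 : ZMod 3) * h

theorem sl_neg_one (hSSL : SSL) {c : Eis} (hc : c ≠ 0) : sl (-1) c = 0 := by
  have h := hSSL.1 (-1) (-1) c (neg_ne_zero.mpr one_ne_zero) (neg_ne_zero.mpr one_ne_zero) hc
  rw [neg_mul_neg, mul_one, sl_one hSSL hc] at h
  apply two_mul_eq_zero
  linear_combination (-1 : ZMod 3) * h

theorem sl_mul_right (hSSL : SSL) {a b c : Eis} (ha : a ≠ 0) (hb : b ≠ 0) (hc : c ≠ 0) :
    sl c (a * b) = sl c a + sl c b := by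
  have h1 := hSSL.2.1 (a * b) c (mul_ne_zero ha hb) hc
  have h2 := hSSL.2.1 a c ha hc
  have h3 := hSSL.2.1 b c hb hc
  have h4 := hSSL.1 a b c ha hb hc
  rw [h1, h2, h3, h4]
  ring

/-! ### the symbols at `PP` -/

theorem ch_eq {π a : Eis} (h : ¬ π ∣ a) : ch π a = sym π a := by
  unfold ch up
  rw [V_eq_zero h, pow_zero, EuclideanDomain.div_one]

theorem pp_not_dvd (hSPP : SPP) {π π' : PP} (h : π ≠ π') : ¬ π.1 ∣ π'.1 := fun h' =>
  h (hSPP.2.1 π π' (π.2.1.associated_of_dvd π'.2.1 h'))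

theorem tm_zero {π a b : Eis} (ha : ¬ π ∣ a) (hb : ¬ π ∣ b) : tm π a b = 0 := by
  unfold tm
  rw [V_eq_zero ha, V_eq_zero hb]
  simp

theorem tm_left {π b : Eis} (hb : ¬ π ∣ b) : tm π π b = - sym π b := by
  unfold tm
  rw [V_eq_zero hb, V_self, ch_eq hb]
  simp

theorem tm_right {π a : Eis} (ha : ¬ π ∣ a) : tm π a π = sym π a := by
  unfold tm
  rw [V_eq_zero ha, V_self, ch_eq ha]
  simp

/-- the symbol of an element of `PP` and an element prime to all primes -/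
theorem sl_pp (hSPP : SPP) (π : PP) {b : Eis} (hb : ∀ v : PP, ¬ v.1 ∣ b) :
    sl π.1 b = sym π.1 b := by
  unfold sl
  rw [finsum_eq_single _ π]
  · rw [tm_left (hb π), neg_neg]
  · intro v hv
    exact tm_zero (pp_not_dvd hSPP hv) (hb v)

theorem recip_pp (hSPP : SPP) {π π' : PP} (h : π ≠ π') : sym π.1 π'.1 = sym π'.1 π.1 := by
  obtain ⟨p, hp, h1 | h1⟩ := hSPP.2.2.2.2.2 π
  · have h2 := recip_inert hp h1.1 π'.2.1 (hSPP.2.2.2.1 π').1 (pp_prim π')
      (by rw [← h1.2]; exact pp_not_dvd hSPP h)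
    rw [← h1.2] at h2
    exact h2
  · have : Fact p.Prime := ⟨hp⟩
    exact recip h1.1 h1.2.1 π.2.2.2 π'.2.1 (hSPP.2.2.2.1 π').1 (pp_prim π')
      (fun h' => h (hSPP.2.1 π' π h').symm)

theorem sl_pp_pp (hSPP : SPP) (hSSL : SSL) (π π' : PP) : sl π.1 π'.1 = 0 := by
  classical
  by_cases h : π = π'
  · subst h
    have h1 := hSSL.2.1 π.1 π.1 π.2.1.ne_zero π.2.1.ne_zero
    apply two_mul_eq_zero
    linear_combination h1
  · unfold sl
    rw [finsum_eq_sum_of_support_subset (s := {π, π'})]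
    · rw [Finset.sum_pair h, tm_left (pp_not_dvd hSPP h), tm_right (pp_not_dvd hSPP (Ne.symm h)),
        recip_pp hSPP h]
      ring
    · intro v hv
      by_contra hcon
      rw [Finset.coe_insert, Finset.coe_singleton, Set.mem_insert_iff, Set.mem_singleton_iff] at hcon
      push Not at hcon
      exact hv (tm_zero (pp_not_dvd hSPP hcon.1) (pp_not_dvd hSPP hcon.2))

theorem sl_pp_prim (hSPP : SPP) (hSSL : SSL) (π : PP) : ∀ d : Eis, Prim d → sl π.1 d = 0 := by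
  have h0 := π.2.1.ne_zero
  refine prim_ind hSPP ?_ ?_ ?_
  · rw [hSSL.2.1 1 π.1 one_ne_zero h0, sl_one hSSL h0, neg_zero]
  · rw [hSSL.2.1 (-1) π.1 (neg_ne_zero.mpr one_ne_zero) h0, sl_neg_one hSSL h0, neg_zero]
  · intro π' d hd ih
    rw [sl_mul_right hSSL π'.2.1.ne_zero (prim_ne_zero hd) h0, sl_pp_pp hSPP hSSL, ih, add_zero]

theorem wt_congr {m n : ℤ} (h : (9 : ℤ) ∣ m - n) : wt m = wt n := by
  obtain ⟨k, hk⟩ := h
  unfold wt
  have h1 : (m - 1) / 3 = (n - 1) / 3 + 3 * k := by omega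
  rw [h1]
  push_cast
  linear_combination (k : ZMod 3) * three_zmod

theorem pp_norm (π : PP) : π.1.norm % 3 = 1 :=
  norm_emod_three_of_not_lam_dvd (not_lam_dvd (pp_prim π))

theorem sym_lam_pp (hSPP : SPP) (π : PP) : sym π.1 lam = 2 * wt (π.1.re ^ 2) := by
  obtain ⟨p, hp, h1 | h1⟩ := hSPP.2.2.2.2.2 π
  · have h2 := sym_inert_lam hp h1.1
    have h3 := sym_w' π.2.1 (hSPP.2.2.2.1 π).1
    rw [← h1.2] at h2
    rw [h2, h3]
    have h4 : π.1.norm = π.1.re ^ 2 := by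
      rw [h1.2, norm_def]
      simp
    rw [h4]
    linear_combination (-wt (π.1.re ^ 2)) * three_zmod
  · have : Fact p.Prime := ⟨hp⟩
    obtain ⟨M, hM⟩ := π.2.2.2
    exact sym_lam h1.1 h1.2.1 hM

end SREC

open _root_.Pool.Agent.PT.SREC in
theorem SREC_thm (hSTM : STM) (hSPP : SPP) (hSSL : SSL) : SREC := by
  have hw : ∀ v : PP, ¬ v.1 ∣ w := fun v => not_dvd_w v.2.1
  have hlam : ∀ v : PP, ¬ v.1 ∣ lam := fun v => not_dvd_lam (hSPP.2.2.2.1 v).1
  have hw0 : w ≠ 0 := isUnit_w.ne_zero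
  have hlam0 : lam ≠ 0 := prime_lam.ne_zero
  refine ⟨?_, ?_, ?_, ?_⟩
  · intro c d hc hd
    revert c
    have hd0 := prim_ne_zero hd
    refine prim_ind hSPP (sl_one hSSL hd0) (sl_neg_one hSSL hd0) ?_
    intro π c hc ih
    rw [hSSL.1 π.1 c d π.2.1.ne_zero (prim_ne_zero hc) hd0, sl_pp_prim hSPP hSSL π d hd, ih,
      add_zero]
  · refine prim_ind hSPP ?_ ?_ ?_
    · rw [sl_one hSSL hw0, norm_one, wt_one]
    · rw [sl_neg_one hSSL hw0]
      have : (-1 : Eis).norm = 1 := by decide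
      rw [this, wt_one]
    · intro π c hc ih
      rw [hSSL.1 π.1 c w π.2.1.ne_zero (prim_ne_zero hc) hw0, sl_pp hSPP π hw, ih,
        sym_w' π.2.1 (hSPP.2.2.2.1 π).1, norm_mul,
        wt_mul (pp_norm π) (norm_emod_three_of_not_lam_dvd (not_lam_dvd hc))]
  · refine prim_ind hSPP ?_ ?_ ?_
    · rw [sl_one hSSL hlam0, one_re, one_pow, wt_one, mul_zero]
    · rw [sl_neg_one hSSL hlam0]
      have : (-1 : Eis).re ^ 2 = 1 := by decide
      rw [this, wt_one, mul_zero]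
    · intro π c hc ih
      rw [hSSL.1 π.1 c lam π.2.1.ne_zero (prim_ne_zero hc) hlam0, sl_pp hSPP π hlam, ih,
        sym_lam_pp hSPP π]
      have h1 : (π.1.re ^ 2) % 3 = 1 := sq_mod_three (pp_prim π).2
      have h2 : (c.re ^ 2) % 3 = 1 := sq_mod_three hc.2
      have h3 : wt ((π.1 * c).re ^ 2) = wt (π.1.re ^ 2 * c.re ^ 2) := by
        apply wt_congr
        obtain ⟨a, ha⟩ := (pp_prim π).1
        obtain ⟨b, hb⟩ := hc.1
        rw [mul_re, ha, hb]
        exact ⟨-2 * a * b * (π.1.re * c.re) + 9 * a ^ 2 * b ^ 2, by ring⟩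
      rw [h3, wt_mul h1 h2]
      ring
  · unfold sl
    rw [finsum_eq_zero_of_forall_eq_zero fun v => tm_zero (hw v) (hlam v), neg_zero]

end Pool.Agent.PT


end

section

/-!
# EADMS: `AdmC` and `Adm` for the primes `q = 1 (mod 3)`

Follows `Pool/Agent/PT/EADM.lean`.
-/

set_option autoImplicit false

namespace Pool.Agent.PTE

open Pool.Agent.Lib_helper18 Pool.Agent.Lib_helper18.Eis Pool.Agent.Lib_helper84.Cub
open Pool.Agent.PT

open Pool.Agent.PT.EADM in
/-- EADMS: `AdmC` and `Adm`. -/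
theorem EADMS_thm (hSTM : STM) (hSPP : SPP) (hSCJ : SCJ) (hSPLT : SPLT) : EADMS := by
  have _ := hSTM
  intro n m k π p e r f w0 c q ρ hN hq hcl hqn hqρ
  obtain ⟨_, hSPP2, _, hSPP4, _, hSPP6⟩ := hSPP
  obtain ⟨hSCJ1, _, _, hSCJ4⟩ := hSCJ
  obtain ⟨hq3, hqw, hqc⟩ := hcl
  obtain ⟨-, hsplit⟩ := hSPLT
  obtain ⟨-, -, hS3, hS4, -, -⟩ := hsplit q ρ hq hq3 hqρ
  have hn0 : n ≠ 0 := n_ne hN
  have hn3 : ¬ 3 ∣ n := three_not hN
  have hbelow : ∀ π : PP, ∃ l, Below π l := by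
    intro π
    obtain ⟨l, hl, h⟩ := hSPP6 π
    exact ⟨l, hl, h⟩
  have hcast : (((n : ℤ) * (q : ℤ) : ℤ) : Eis) = ((n * q : ℕ) : Eis) := by push_cast; ring
  have hnq0 : n * q ≠ 0 := mul_ne_zero hn0 hq.ne_zero
  have hB0 : (n : ℤ) * (q : ℤ) ≠ 0 := by exact_mod_cast hnq0
  have hB3 : ¬ (3 : ℤ) ∣ (n : ℤ) * (q : ℤ) := by
    intro h
    have h1 : 3 ∣ n * q := by exact_mod_cast h
    rcases Nat.prime_three.dvd_mul.1 h1 with h2 | h2
    · exact hn3 h2
    · have := (Nat.prime_dvd_prime_iff_eq Nat.prime_three hq).1 h2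
      omega
  refine ⟨⟨hB0, hB3, ?_⟩, ?_⟩
  · intro ϖ
    obtain ⟨l, hl⟩ := hbelow ϖ
    rw [hcast, hl.V_nat hnq0, Nat.factorization_mul hn0 hq.ne_zero, Finsupp.add_apply]
    have h1 := fac_le hN l
    by_cases hlq : l = q
    · have h2 : n.factorization l = 0 := by
        rw [hlq]
        exact Nat.factorization_eq_zero_of_not_dvd hqn
      have h3 : q.factorization l = 1 := by
        rw [hlq]
        exact hq.factorization_self
      omega
    · have h3 : q.factorization l = 0 := by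
        apply Nat.factorization_eq_zero_of_not_dvd
        intro h
        exact hlq ((Nat.prime_dvd_prime_iff_eq hl.pr hq).1 h)
      omega
  · intro x hsupp
    have hρ3 : ¬ ρ.1 ∣ 3 := (hSPP4 ρ).1
    -- `ρ` does not divide `x`
    have hρx : ¬ ρ.1 ∣ (x : Eis) := fun h => hqn (hsupp q hq ((hS4 x).1 h))
    have hρn : ¬ ρ.1 ∣ (n : Eis) := by
      intro h
      have h1 := (hS4 (n : ℤ)).1 (by rwa [Int.cast_natCast])
      exact hqn (by exact_mod_cast h1)
    -- the symbol at `ρ`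
    have hVq : V ρ.1 (q : Eis) = 1 := by
      obtain ⟨l, hl⟩ := hbelow ρ
      have h1 : ρ.1 ∣ (q : Eis) := by rw [hqρ]; exact dvd_mul_right _ _
      have h2 : l = q := (Nat.prime_dvd_prime_iff_eq hl.pr hq).1 ((hl.dvd_nat _).1 h1)
      rw [← h2]
      exact hl.V_self
    have hVB : V ρ.1 (((n : ℤ) * (q : ℤ) : ℤ) : Eis) = 1 := by
      have e1 : (((n : ℤ) * (q : ℤ) : ℤ) : Eis) = (n : Eis) * (q : Eis) := by push_cast; ring
      rw [e1, V_mul ρ.2.1 (natCast_ne hn0) (natCast_ne hq.ne_zero), V_eq_zero hρn, hVq, zero_add]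
    have hrho : tm ρ.1 (x : Eis) (((n : ℤ) * (q : ℤ) : ℤ) : Eis) = sym ρ.1 (x : Eis) := by
      unfold tm
      rw [hVB, V_eq_zero hρx, ch_unit ρ.2.1 hρx]
      simp
    -- the conditions at the `π i`
    have key : x ≠ 0 → ∀ i, (V (π i).1 (n : Eis) : ZMod 3) * ch (π i).1 (x : Eis) -
        (V (π i).1 (x : Eis) : ZMod 3) * (ch (π i).1 (n : Eis) + c i) =
        tm (π i).1 (x : Eis) (((n : ℤ) * (q : ℤ) : ℤ) : Eis) := by
      intro hx i
      obtain ⟨l, hl⟩ := hbelow (π i)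
      have hpi : (p i : Eis) = (π i).1 * conj (π i).1 := hN.pπ i
      have hlp : l = p i := by
        have h1 : (π i).1 ∣ (p i : Eis) := by rw [hpi]; exact dvd_mul_right _ _
        exact (Nat.prime_dvd_prime_iff_eq hl.pr (hN.pp i)).1 ((hl.dvd_nat _).1 h1)
      have hq' : ¬ (π i).1 ∣ (q : Eis) := by
        intro h
        have h1 := (Nat.prime_dvd_prime_iff_eq hl.pr hq).1 ((hl.dvd_nat _).1 h)
        apply hqn
        rw [← h1, hlp, hN.eq]
        have he : e i ≠ 0 := by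
          have := hN.pe i
          omega
        exact Dvd.dvd.mul_right ((dvd_pow_self _ he).trans
          (Finset.dvd_prod_of_mem (fun i => p i ^ e i) (Finset.mem_univ i))) _
      have h3 : ¬ (π i).1 ∣ 3 := (hSPP4 (π i)).1
      have e1 : (((n : ℤ) * (q : ℤ) : ℤ) : Eis) = (n : Eis) * (q : Eis) := by push_cast; ring
      rw [e1]
      unfold tm
      rw [V_mul (π i).2.1 (natCast_ne hn0) (natCast_ne hq.ne_zero), V_eq_zero hq', add_zero,
        ch_mul (π i).2.1 h3 (natCast_ne hn0) (natCast_ne hq.ne_zero), ch_unit (π i).2.1 hq',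
        hqc i]
    have hnine : ¬ (3 : ℤ) ∣ (n : ℤ) := by
      intro h
      exact hn3 (by exact_mod_cast h)
    have hqq : ¬ (3 : ℤ) ∣ (q : ℤ) := by
      intro h
      have : 3 ∣ q := by exact_mod_cast h
      omega
    have hC : C9 ((n : ℤ) * (q : ℤ)) ↔ wt ((n : ℤ) ^ 2) + w0 = 0 := by
      rw [C9_iff hB3, mul_pow, wt_mul (sq_mod_three hnine) (sq_mod_three hqq), hqw]
    constructor
    · rintro ⟨⟨hx, h3, _, hsym, h9⟩, hxρ⟩
      refine ⟨hx, h3, ?_, ?_, fun h => h9 (hC.1 h)⟩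
      · intro ϖ
        obtain ⟨l, hl⟩ := hbelow ϖ
        rcases hl.h with ⟨hl3, hl2⟩ | ⟨hl3, hl2, hl4, hl5⟩
        · rw [hl2]
          exact hSCJ4 l hl.pr hl3 x _ hx hB0
        · by_cases hln : l ∣ n
          · rcases prime_dvd hN hl.pr hln with ⟨i, hi⟩ | ⟨j, hj⟩
            · have h4 : ϖ.1 ∣ (π i).1 * conj (π i).1 := by
                rw [← hN.pπ i, ← hi, hl4]
                exact dvd_mul_right _ _
              rcases ϖ.2.1.dvd_or_dvd h4 with h5 | h5
              · have h6 : ϖ = π i :=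
                  hSPP2 _ _ (ϖ.2.1.associated_of_dvd (π i).2.1 h5)
                rw [h6, ← key hx i]
                exact hsym i
              · obtain ⟨ϖ', hϖ'⟩ := (hSPP4 (π i)).2
                have h6 : ϖ = ϖ' := by
                  apply hSPP2
                  rw [hϖ']
                  exact ϖ.2.1.associated_of_dvd (prime_conj (π i).2.1) h5
                rw [h6, hϖ']
                have h7 := hSCJ1 (π i).1 (x : Eis) (((n : ℤ) * (q : ℤ) : ℤ) : Eis) (π i).2.1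
                  (hSPP4 (π i)).1 (intCast_ne hx) (intCast_ne hB0)
                rw [map_intCast, map_intCast] at h7
                rw [h7, ← key hx i, hsym i, neg_zero]
            · have := hN.r2 j
              rw [← hj] at this
              omega
          · by_cases hlq : l = q
            · -- the primes above `q`
              have h4 : ϖ.1 ∣ (q : Eis) := by
                rw [← hlq, hl4]
                exact dvd_mul_right _ _
              rcases hS3 ϖ h4 with h5 | h5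
              · rw [h5, hrho, hxρ]
              · rw [h5]
                have h7 := hSCJ1 ρ.1 (x : Eis) (((n : ℤ) * (q : ℤ) : ℤ) : Eis) ρ.2.1
                  hρ3 (intCast_ne hx) (intCast_ne hB0)
                rw [map_intCast, map_intCast] at h7
                rw [h7, hrho, hxρ, neg_zero]
            · have h4 : ¬ ϖ.1 ∣ (x : Eis) := by
                intro h
                exact hln (hsupp l hl.pr ((hl.dvd_int x).1 h))
              have h5 : ¬ ϖ.1 ∣ (((n : ℤ) * (q : ℤ) : ℤ) : Eis) := by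
                rw [hcast, hl.dvd_nat]
                intro h
                rcases hl.pr.dvd_mul.1 h with h6 | h6
                · exact hln h6
                · exact hlq ((Nat.prime_dvd_prime_iff_eq hl.pr hq).1 h6)
              unfold tm
              rw [V_eq_zero h4, V_eq_zero h5]
              simp
      · intro ϖ hϖ h
        obtain ⟨l, hl⟩ := hbelow ϖ
        apply hϖ
        rw [hcast, hl.dvd_nat]
        exact (hsupp l hl.pr ((hl.dvd_int x).1 h)).mul_right q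
    · rintro ⟨hx, h3, hsym, _, h9⟩
      refine ⟨⟨hx, h3, hsupp, fun i => ?_, fun h => h9 (hC.2 h)⟩, ?_⟩
      · rw [key hx i]
        exact hsym (π i)
      · rw [← hrho]
        exact hsym ρ

end Pool.Agent.PTE


end

section

/-!
# Prime twists of rank zero, twists by primes `1` modulo `3`: the class and the systems
-/

set_option autoImplicit false

namespace Pool.Agent.PTE

open Pool.Agent.Lib_helper18 Pool.Agent.Lib_helper18.Eis Pool.Agent.Lib_helper84.Cub
open Pool.Agent.PT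

namespace ECLS

/-- a rational cube that is an integer is a cube -/
lemma cube_of {z u t : ℤ} (hu : u ≠ 0) (h : z * u ^ 3 = t ^ 3) : ∃ m : ℤ, m ^ 3 = z := by
  have h1 : u ^ 3 ∣ t ^ 3 := ⟨z, by rw [← h]; ring⟩
  have h2 : u ∣ t := (Int.pow_dvd_pow_iff (by norm_num)).1 h1
  obtain ⟨m, hm⟩ := h2
  refine ⟨m, ?_⟩
  have h3 : z * u ^ 3 = m ^ 3 * u ^ 3 := by rw [h, hm]; ring
  exact (mul_right_cancel₀ (pow_ne_zero 3 hu) h3).symm

/-- the choice of `w0` -/
lemma exists_w0 (x : ZMod 3) : ∃ w0 : ZMod 3, w0 ≠ 0 ∧ x + w0 ≠ 0 := by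
  revert x
  decide

/-- the restriction of a system to the first indices -/
lemma sys_restr {s : ℕ} {b : Fin (s + 1) → ℤ} {P Q P' Q' : Fin (s + 1) → Fin (s + 1) → ℤ}
    (h : Sys b P Q P' Q') : Sys (rv b) (rs P) (rs Q) (rs P') (rs Q') where
  ind := by
    rintro c ⟨i, hi⟩ ⟨t, ht⟩
    refine h.ind (Fin.snoc (α := fun _ => ℕ) c 0) ⟨i.castSucc, ?_⟩ ⟨t, ?_⟩
    · rw [Fin.snoc_castSucc]
      exact hi
    · rw [ht, Fin.prod_univ_castSucc, Fin.snoc_last, pow_zero, mul_one]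
      refine Finset.prod_congr rfl fun j _ => ?_
      rw [Fin.snoc_castSucc]
      rfl
  c9 i j hij := h.c9 i.castSucc j.castSucc fun h1 => hij (Fin.castSucc_injective _ h1)
  sol j i hji := h.sol j.castSucc i.castSucc fun h1 => hji (Fin.castSucc_injective _ h1)
  sw j i hji := h.sw j.castSucc i.castSucc fun h1 => hji (Fin.castSucc_injective _ h1)

/-- the class of a point gives a kernel vector -/
lemma det_zero (hTEND : TEND) {s : ℕ} {b : Fin s → ℤ} {P Q P' Q' : Fin s → Fin s → ℤ} {B : ℤ}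
    (hSys : Sys b P Q P' Q') (hB : BOk B) (hA : ∀ i, Adm B (b i)) {z X1 Y1 : ℤ}
    (hPt : Pt B z X1 Y1) (hcube : ¬ ∃ t : ℤ, t ^ 3 = z) {g : Fin s → ℕ} {u v : ℤ} (hu : u ≠ 0)
    (hv : v ≠ 0) (hg : z * u ^ 3 = (∏ i, b i ^ g i) * v ^ 3) : (Mat b P Q P' Q' B).det = 0 := by
  obtain ⟨W, hW⟩ : ∃ W : ℤ, W = ∏ i, b i ^ g i := ⟨_, rfl⟩
  rw [← hW] at hg
  have hex : ∃ i, ¬ 3 ∣ g i := by
    by_contra hcon
    push Not at hcon
    choose g' hg' using hcon
    apply hcube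
    have h1 : z * u ^ 3 = ((∏ i, b i ^ g' i) * v) ^ 3 := by
      rw [hg, hW, mul_pow, ← Finset.prod_pow]
      congr 1
      refine Finset.prod_congr rfl fun i _ => ?_
      rw [← pow_mul, hg' i, mul_comm]
    exact cube_of hu h1
  have hPt' : Pt B (∏ i, b i ^ g i) (u * v * X1) (v ^ 2 * Y1) := by
    refine ⟨mul_ne_zero (mul_ne_zero hu hv) hPt.hX, mul_ne_zero (pow_ne_zero 2 hv) hPt.hY, ?_⟩
    obtain ⟨c0, hc0, h1⟩ := hPt.eq
    refine ⟨c0 * u ^ 2, mul_ne_zero hc0 (pow_ne_zero 2 hu), ?_⟩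
    rw [← hW]
    have e1 : W * ((u * v * X1) ^ 3 + W * (v ^ 2 * Y1) ^ 3) =
        (W * v ^ 3) * (u ^ 3 * X1 ^ 3 + (W * v ^ 3) * Y1 ^ 3) := by ring
    rw [e1, ← hg]
    have e2 : z * u ^ 3 * (u ^ 3 * X1 ^ 3 + z * u ^ 3 * Y1 ^ 3) =
        u ^ 6 * (z * (X1 ^ 3 + z * Y1 ^ 3)) := by ring
    rw [e2, h1]
    ring
  have hker := (hTEND s b P Q P' Q' B hSys hB hA).2 g _ _ hex hPt'
  rw [← Matrix.exists_mulVec_eq_zero_iff]
  refine ⟨fun i => (g i : ZMod 3), ?_, ?_⟩
  · intro h1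
    obtain ⟨i, hi⟩ := hex
    apply hi
    have h2 := congrFun h1 i
    exact (ZMod.natCast_eq_zero_iff (g i) 3).1 h2
  · ext j
    exact hker j

end ECLS

open _root_.Pool.Agent.PTE.ECLS in
/-- ECLS: the class and the systems. -/
theorem ECLS_thm (hEMAT : EMAT) (hEHPL : EHPL) (hESYS : ESYS) (hEADMS : EADMS) (hHYPS : HYPS)
    (hFD1 : FD1) (hFD2S : FD2S) (hTEND : TEND) (hSPLT : SPLT) : ECLS := by
  intro n m k π p e r f hNF hk
  obtain ⟨w0, hw0, hwt⟩ := exists_w0 (wt ((n : ℤ) ^ 2))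
  obtain ⟨c, _, hdet⟩ := hEMAT n m k π p e r f none hNF (fun j hj => by cases hj)
  obtain ⟨v, hv, hδ⟩ := hEHPL n m k π p e r f w0 c hNF hk.pos hwt hdet
  refine ⟨w0, c, v, hw0, fun i => ⟨(hv i).ne, (hv i).supp⟩, ?_⟩
  intro δ hδ0
  obtain ⟨s, b, hs, hAdm, hV, hind, hc9, hρ⟩ := hδ δ hδ0
  obtain ⟨P, Q, P', Q', hSys⟩ := hESYS n m k π p e r f w0 c (s + 1) b hNF hAdm hV hind hc9
  refine ⟨s, b, P, Q, P', Q', hs, ⟨hSys.ind, hSys.sol⟩, fun i => (hAdm i).ne, ?_, ?_⟩
  · intro ρ h1 h2 h3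
    exact (hρ ρ h1 h2 h3).1
  intro q ρ hq hIn hqn hq3 hqρ h0 h1
  obtain ⟨hB, hE⟩ := hEADMS n m k π p e r f w0 c q ρ hNF hq hIn hqn hqρ
  have hA : ∀ i : Fin s, Adm ((n : ℤ) * q) (b i.castSucc) := fun i =>
    (hE _ (hAdm i.castSucc).supp).1 ⟨hAdm i.castSucc, h0 i⟩
  have hR := sys_restr hSys
  refine ⟨hB, hA, (hTEND s (rv b) _ _ _ _ _ hR hB hA).1, ?_⟩
  rintro ⟨X, Y, hXY⟩
  have hn0 : 0 < n := by
    rcases Nat.eq_zero_or_pos n with h | h
    · exact absurd (by rw [h]; exact dvd_zero q) hqn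
    · exact h
  have h3 : 3 ≤ |(n : ℤ) * q| := by
    have h1 : (3 : ℤ) ≤ (n : ℤ) * q := by
      have h2 : 3 ≤ n * q := by nlinarith
      exact_mod_cast h2
    exact h1.trans (le_abs_self _)
  have hH : HypM ((n : ℤ) * q) := hHYPS n m k π p e r f w0 c q ρ (b (Fin.last s)) hNF hq hIn hqn
    hqρ hwt hdet (hAdm _) h1
  obtain ⟨a, x, hC⟩ := hFD1 ((n : ℤ) * q) hB h3 hH ⟨X, Y, by rw [hXY]; push_cast; ring⟩
  obtain ⟨z, X1, Y1, hPt, hAz, hsupp, hcube⟩ := hFD2S n q a x hq hIn.1 hqn hn0 hB hC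
  obtain ⟨hz1, hz2⟩ := (hE z hsupp).2 hAz
  have hρn : ¬ ρ.1 ∣ (n : Eis) := by
    intro h2
    have h4 := (hSPLT.2 q ρ hq hIn.1 hqρ).2.2.2.1 (n : ℤ)
    rw [Int.cast_natCast] at h4
    exact hqn (Int.natCast_dvd_natCast.1 (h4.1 h2))
  obtain ⟨g, u, t, hu, ht, hg⟩ := (hρ ρ hρn h0 h1).2 z hz1 hz2
  exact det_zero hTEND hR hB hA hPt hcube hu ht hg

end Pool.Agent.PTE


end

section

/-!
# PTE: the class of a point (`q = 1 (mod 3)`)
-/

set_option autoImplicit false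

namespace Pool.Agent.PTE

open Pool.Agent.Lib_helper18 Pool.Agent.Lib_helper18.Eis Pool.Agent.Lib_helper84.Cub
open Pool.Agent.PT

open Pool.Agent.PT.FD2 in
/-- FD2S: the class of a point. -/
theorem FD2S_thm (hSTM : STM) (hSPP : SPP) : FD2S := by
  intro n q a x hq _ _ _ hB hcell
  obtain ⟨hne, hsum, hprod, hcop, htwo, hnine⟩ := hcell
  rw [Fin.sum_univ_three] at hsum
  rw [Fin.prod_univ_three] at hprod
  have hq' : Prime (q : ℤ) := Nat.prime_iff_prime_int.1 hq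
  have hqd : (q : ℤ) ∣ a 0 * a 1 * a 2 := by
    rw [hprod]
    exact dvd_mul_left _ _
  have hnot : ∀ i j, i ≠ j → (q : ℤ) ∣ a i → ¬ (q : ℤ) ∣ a j := fun i j hij h1 h2 =>
    hq'.not_isUnit ((hcop i j hij).isUnit_of_dvd' h1 h2)
  have hk : (q : ℤ) ∣ a 0 ∨ (q : ℤ) ∣ a 1 ∨ (q : ℤ) ∣ a 2 := by
    rcases hq'.dvd_or_dvd hqd with h | h
    · rcases hq'.dvd_or_dvd h with h | h
      · exact Or.inl h
      · exact Or.inr (Or.inl h)
    · exact Or.inr (Or.inr h)
  rcases hk with h | h | h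
  · refine main hSTM hSPP (a0 := a 1) (a1 := a 2) (a2 := a 0) hq hB (hne 1) (hne 2) (hne 0) (by linear_combination hsum)
      (by linear_combination hprod) (hcop 1 2 (by decide)) ?_ (fun h9 => hnine h9 1 2)
      (hnot 0 1 (by decide) h) (hnot 0 2 (by decide) h)
    obtain ⟨j, hj, hu⟩ := htwo 0
    fin_cases j
    · exact absurd rfl hj
    · exact Or.inl hu
    · exact Or.inr hu
  · refine main hSTM hSPP (a0 := a 0) (a1 := a 2) (a2 := a 1) hq hB (hne 0) (hne 2) (hne 1) (by linear_combination hsum)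
      (by linear_combination hprod) (hcop 0 2 (by decide)) ?_ (fun h9 => hnine h9 0 2)
      (hnot 1 0 (by decide) h) (hnot 1 2 (by decide) h)
    obtain ⟨j, hj, hu⟩ := htwo 1
    fin_cases j
    · exact Or.inl hu
    · exact absurd rfl hj
    · exact Or.inr hu
  · refine main hSTM hSPP (a0 := a 0) (a1 := a 1) (a2 := a 2) hq hB (hne 0) (hne 1) (hne 2) (by linear_combination hsum)
      (by linear_combination hprod) (hcop 0 1 (by decide)) ?_ (fun h9 => hnine h9 0 1)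
      (hnot 2 0 (by decide) h) (hnot 2 1 (by decide) h)
    obtain ⟨j, hj, hu⟩ := htwo 2
    fin_cases j
    · exact Or.inl hu
    · exact Or.inr hu
    · exact absurd rfl hj

end Pool.Agent.PTE


end

section

/-!
# Prime twists of rank zero, `q = 1 (mod 3)`: summary of the governing field
-/

open NumberField IsDedekindDomain Finset
open scoped nonZeroDivisors Pointwise

namespace Pool.Agent.PTE.GALDS

open Pool.Agent.Lib_helper18 Pool.Agent.Lib_helper18.Eis Pool.Agent.Lib_helper84.Cub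
open Pool.Agent.PT Pool.Agent.PT.GALD

lemma om_ne {L : Type} [Field L] [CharZero L] {ω : L} (h : ω ^ 2 + ω + 1 = 0) :
    ω ≠ 1 ∧ ω ^ 2 ≠ 1 ∧ ω ^ 2 ≠ ω ∧ ω ≠ 0 := by
  have h3 : (3 : L) ≠ 0 := by norm_num
  have h1 : ω ≠ 1 := by
    rintro rfl
    apply h3
    linear_combination h
  have h0 : ω ≠ 0 := by
    rintro rfl
    norm_num at h
  refine ⟨h1, ?_, ?_, h0⟩
  · intro h2
    have h4 : ω = -2 := by linear_combination h - h2
    rw [h4] at h2
    norm_num at h2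
  · intro h2
    have h4 : ω * (ω - 1) = 0 := by linear_combination h2
    rcases mul_eq_zero.1 h4 with h5 | h5
    · exact h0 h5
    · exact h1 (sub_eq_zero.1 h5)

lemma om_pow_inj {L : Type} [Field L] [CharZero L] {ω : L} (h : ω ^ 2 + ω + 1 = 0) {i j : ℕ}
    (hij : ω ^ i = ω ^ j) : i % 3 = j % 3 := by
  have h3 := om_cube h
  obtain ⟨h1, h2, h21, _⟩ := om_ne h
  rw [om_mod h3 i, om_mod h3 j] at hij
  have hi : i % 3 < 3 := Nat.mod_lt _ (by norm_num)
  have hj : j % 3 < 3 := Nat.mod_lt _ (by norm_num)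
  generalize i % 3 = a at hij hi
  generalize j % 3 = c at hij hj
  have e01 : ω ^ 0 ≠ ω ^ 1 := by rw [pow_zero, pow_one]; exact h1.symm
  have e02 : ω ^ 0 ≠ ω ^ 2 := by rw [pow_zero]; exact h2.symm
  have e12 : ω ^ 1 ≠ ω ^ 2 := by rw [pow_one]; exact h21.symm
  interval_cases a <;> interval_cases c <;>
    first
    | rfl
    | exact absurd hij e01
    | exact absurd hij e02
    | exact absurd hij e12
    | exact absurd hij.symm e01
    | exact absurd hij.symm e02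
    | exact absurd hij.symm e12

lemma om_zmod_inj {L : Type} [Field L] [CharZero L] {ω : L} (h : ω ^ 2 + ω + 1 = 0) {θ : L}
    (hθ : θ ≠ 0) {u v : ZMod 3} (e : ω ^ u.val * θ = ω ^ v.val * θ) : u = v := by
  have h1 := om_pow_inj h (mul_right_cancel₀ hθ e)
  have hu := ZMod.val_lt u
  have hv := ZMod.val_lt v
  apply ZMod.val_injective
  omega

lemma om_add {L : Type} [Field L] {ω : L} (h : ω ^ 3 = 1) (u v : ZMod 3) :
    ω ^ u.val * ω ^ v.val = ω ^ (u + v).val := by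
  rw [← pow_add]
  apply om_congr h
  rw [ZMod.val_add]
  simp

lemma cube_root {L : Type} [Field L] {ω : L} (h : ω ^ 2 + ω + 1 = 0) {θ ρ : L}
    (e : ρ ^ 3 = θ ^ 3) : ∃ u : ZMod 3, ρ = ω ^ u.val * θ := by
  have h3 := om_cube h
  have h1 : (ρ - θ) * ((ρ - ω * θ) * (ρ - ω ^ 2 * θ)) = 0 := by
    have h2 : (ρ - θ) * ((ρ - ω * θ) * (ρ - ω ^ 2 * θ)) =
        (ρ ^ 3 - θ ^ 3) - (ω ^ 2 + ω + 1) * (ρ ^ 2 * θ - ω * ρ * θ ^ 2) -
          (ω ^ 3 - 1) * θ ^ 3 := by ring
    rw [h2, h, h3, e]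
    ring
  rcases mul_eq_zero.1 h1 with h2 | h2
  · refine ⟨0, ?_⟩
    rw [sub_eq_zero.1 h2]
    simp
  · rcases mul_eq_zero.1 h2 with h4 | h4
    · refine ⟨1, ?_⟩
      rw [sub_eq_zero.1 h4, show (1 : ZMod 3).val = 1 from rfl, pow_one]
    · refine ⟨2, ?_⟩
      rw [sub_eq_zero.1 h4, show (2 : ZMod 3).val = 2 from rfl]

/-- the vectors with the last entry not zero and all others zero -/
lemma card_good (s : ℕ) : (univ.filter fun w : Fin (s + 1) → ZMod 3 =>
    (∀ j : Fin s, w j.castSucc = 0) ∧ w (Fin.last s) ≠ 0).card = 2 := by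
  have h1 : (univ.filter fun c : ZMod 3 => c ≠ 0).card = 2 := by decide
  refine (Finset.card_bij (fun w _ => w (Fin.last s)) ?_ ?_ ?_).trans h1
  · intro w hw
    rw [mem_filter] at hw ⊢
    exact ⟨mem_univ _, hw.2.2⟩
  · intro w hw w' hw' e
    rw [mem_filter] at hw hw'
    funext j
    refine Fin.lastCases e (fun i => ?_) j
    rw [hw.2.1 i, hw'.2.1 i]
  · intro c hc
    rw [mem_filter] at hc
    refine ⟨Fin.snoc (fun _ => 0) c, ?_, ?_⟩
    · rw [mem_filter]
      refine ⟨mem_univ _, fun j => ?_, ?_⟩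
      · rw [Fin.snoc_castSucc]
      · rw [Fin.snoc_last]
        exact hc.2
    · rw [Fin.snoc_last]

end Pool.Agent.PTE.GALDS

namespace Pool.Agent.PTE

open Pool.Agent.Lib_helper18 Pool.Agent.Lib_helper18.Eis Pool.Agent.Lib_helper84.Cub
open Pool.Agent.PT Pool.Agent.PT.GALD Pool.Agent.PTE.GALDS

theorem GALDS_thm (hGZEROG : GZEROG) (hGCHI : GCHI) (hGCG : GCG) (hGKUM : GKUM) (hGTS : GTS)
    (hGFRS : GFRS) : GALDS := by
  classical
  intro s b p q p' q' f hSys hf h9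
  obtain ⟨L, hF, hN, ζ, ω, hG⟩ := hGZEROG (s + 1) b p q p' q' f hSys hf h9
  have hgal := hG.gal
  obtain ⟨χ, hχs, hχζ, hχF⟩ := hGCHI L f ζ hf hG.prim
  obtain ⟨N₀, hFr⟩ := hGFRS s b p q p' q' f L ζ ω hSys hG
  have hω3 : ω ^ 3 = 1 := om_cube hG.rel
  have hf1 : 1 < f := by
    obtain ⟨c, hc⟩ := h9
    omega
  have h3f : 3 ∣ f := (by norm_num : (3 : ℕ) ∣ 9).trans h9
  have hfz : NeZero f := ⟨hf.ne'⟩
  obtain ⟨hT1, hT⟩ := hGTS s b p q p' q' f L ζ ω hSys hG
  -- action on ω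
  have hωχ : ∀ g : L ≃ₐ[ℚ] L, g ω = ω ^ ((χ g : ZMod f)).val := by
    intro g
    rw [hG.hω, map_pow, hχζ g, ← pow_mul, mul_comm, pow_mul, ← hG.hω]
  have hM : ∀ g : L ≃ₐ[ℚ] L, M1 (χ g) → g ω = ω := by
    intro g hg
    rw [hωχ g]
    conv_rhs => rw [← pow_one ω]
    apply om_congr hω3
    unfold M1 at hg
    omega
  have hb0 : ∀ j, b j ≠ 0 := by
    intro j h0
    refine hSys.ind (Pi.single j 1) ⟨j, by simp⟩ ⟨0, ?_⟩
    have h1 : ∏ i, b i ^ (Pi.single j 1 : Fin (s + 1) → ℕ) i = 0 := by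
      refine Finset.prod_eq_zero (Finset.mem_univ j) ?_
      rw [Pi.single_eq_same, pow_one, h0]
    rw [h1]
    norm_num
  have hz1 : ∀ z : L ≃ₐ[ℚ] L, z ζ = ζ → z ω = ω ∧ χ z = 1 := by
    intro z hzζ
    refine ⟨by rw [hG.hω, map_pow, hzζ], ?_⟩
    have h1 := hχζ z
    rw [hzζ] at h1
    have h2 : ((χ z : ZMod f)).val = 1 := by
      apply hG.prim.pow_inj (ZMod.val_lt _) hf1
      rw [← h1, pow_one]
    apply Units.ext
    have h3 := ZMod.natCast_zmod_val (χ z : ZMod f)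
    rw [h2] at h3
    rw [← h3]
    simp
  let t : (L ≃ₐ[ℚ] L) → Fin s → Fin s → ZMod 3 := fun g j i =>
    if h : j ≠ i ∧ g ω = ω ∧ Fx b g then ((hT j i h.1).1 g h.2.1 h.2.2).choose else 0
  have ht : ∀ (g : L ≃ₐ[ℚ] L) (j i : Fin s), j ≠ i → g ω = ω → Fx b g →
      IsTS b p q p' q' ω g j.castSucc i.castSucc (t g j i) := by
    intro g j i hji hg hF
    have h : j ≠ i ∧ g ω = ω ∧ Fx b g := ⟨hji, hg, hF⟩
    have e : t g j i = ((hT j i h.1).1 g h.2.1 h.2.2).choose := dif_pos h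
    rw [e]
    exact ((hT j i h.1).1 g h.2.1 h.2.2).choose_spec.1
  have htu : ∀ (g : L ≃ₐ[ℚ] L) (j i : Fin s) (c : ZMod 3), j ≠ i → g ω = ω → Fx b g →
      IsTS b p q p' q' ω g j.castSucc i.castSucc c → t g j i = c := by
    intro g j i c hji hg hF hc
    exact ((hT j i hji).1 g hg hF).unique (ht g j i hji hg hF) hc
  refine ⟨L, hF, hN, hG.gal, χ, Fx b, t, N₀, hχs, ?_, ?_, ?_, ?_, ?_⟩
  · intro g τ hg hFg
    obtain ⟨_, h1, _⟩ := hT1 g (hM g hg) hFg
    obtain ⟨h2, h3⟩ := h1 τ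
    refine ⟨h3, fun j i hji => ?_⟩
    exact htu _ _ _ _ hji h2 h3 ((hT j i hji).2.1 g τ _ (hM g hg) hFg (ht g j i hji (hM g hg) hFg))
  · intro g k hg hFg hk
    obtain ⟨_, _, h1⟩ := hT1 g (hM g hg) hFg
    obtain ⟨h2, h3⟩ := h1 k
    refine ⟨h3 hk, fun j i hji => ?_⟩
    exact htu _ _ _ _ hji h2 (h3 hk) ((hT j i hji).2.2 g _ k (hM g hg)
      (ht g j i hji (hM g hg) hFg))
  · intro a v v' ha
    obtain ⟨z, hzζ, hzρ, hzA⟩ := hGCG (s + 1) b p q p' q' f L ζ ω hSys hG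
      (fun j i => if h : j ≠ Fin.last s ∧ i ≠ Fin.last s then
        v' (j.castPred h.1) (i.castPred h.2) - v (j.castPred h.1) (i.castPred h.2) else 0)
    obtain ⟨hzω, hχz⟩ := hz1 z hzζ
    have hFz : ∀ g : L ≃ₐ[ℚ] L, Fx b (g * z) ↔ Fx b g := by
      intro g
      have h1 : ∀ (j : Fin (s + 1)) (ρ : L), ρ ^ 3 = (b j : L) → (g * z) ρ = g ρ := by
        intro j ρ hρ
        rw [AlgEquiv.mul_apply, hzρ j ρ hρ]
      unfold Fx
      constructor
      · rintro ⟨h2, h3⟩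
        exact ⟨fun j ρ hρ => by rw [← h1 _ ρ hρ]; exact h2 j ρ hρ,
          fun ρ hρ => by rw [← h1 _ ρ hρ]; exact h3 ρ hρ⟩
      · rintro ⟨h2, h3⟩
        exact ⟨fun j ρ hρ => by rw [h1 _ ρ hρ]; exact h2 j ρ hρ,
          fun ρ hρ => by rw [h1 _ ρ hρ]; exact h3 ρ hρ⟩
    have key : ∀ g : L ≃ₐ[ℚ] L, g ω = ω → Fx b g → ∀ j i, j < i →
        t (g * z) j i = (v' j i - v j i) + t g j i := by
      intro g hg hFg j i hji
      have hgz : (g * z) ω = ω := by rw [AlgEquiv.mul_apply, hzω, hg]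
      apply htu _ _ _ _ hji.ne hgz ((hFz g).2 hFg)
      intro ρ A hρ hA
      have h1 := ht g j i hji.ne hg hFg ρ A hρ hA
      have h2 := hzA j.castSucc i.castSucc (Fin.castSucc_lt_castSucc_iff.2 hji) ρ A hρ hA
      have h3 : j.castSucc ≠ Fin.last s ∧ i.castSucc ≠ Fin.last s :=
        ⟨(Fin.castSucc_lt_last j).ne, (Fin.castSucc_lt_last i).ne⟩
      simp only [dif_pos h3, Fin.castPred_castSucc] at h2
      rw [AlgEquiv.mul_apply, h2, map_mul, map_pow, hg, h1, ← mul_assoc, om_add hω3]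
    apply Nat.card_congr
    refine Equiv.subtypeEquiv (Equiv.mulRight z) ?_
    intro g
    have hχ : χ (g * z) = χ g := by rw [map_mul, hχz, mul_one]
    show (χ g = a ∧ Fx b g ∧ ∀ j i, j < i → t g j i = v j i) ↔
      (χ (g * z) = a ∧ Fx b (g * z) ∧ ∀ j i, j < i → t (g * z) j i = v' j i)
    rw [hχ, hFz g]
    constructor
    · rintro ⟨h1, h2, h3⟩
      refine ⟨h1, h2, fun j i hji => ?_⟩
      rw [key g (hM g (by rw [h1]; exact ha)) h2 j i hji, h3 j i hji]
      ring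
    · rintro ⟨h1, h2, h3⟩
      refine ⟨h1, h2, fun j i hji => ?_⟩
      have h4 := h3 j i hji
      rw [key g (hM g (by rw [h1]; exact ha)) h2 j i hji] at h4
      linear_combination h4
  · intro a ha
    choose θ hθ using hG.root
    have hθ0 : ∀ j, θ j ≠ 0 := by
      intro j h0
      have h1 := hθ j
      rw [h0] at h1
      apply hb0 j
      have h2 : ((b j : ℤ) : L) = 0 := by rw [← h1]; norm_num
      exact_mod_cast h2
    have hex : ∀ (g : L ≃ₐ[ℚ] L) (j : Fin (s + 1)), ∃ u : ZMod 3, g (θ j) = ω ^ u.val * θ j := by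
      intro g j
      apply cube_root hG.rel
      rw [← map_pow, hθ j, map_intCast]
    choose uu huu using hex
    have huniq : ∀ (g : L ≃ₐ[ℚ] L) (j : Fin (s + 1)) (u : ZMod 3), g (θ j) = ω ^ u.val * θ j →
        uu g j = u := by
      intro g j u h
      apply om_zmod_inj hG.rel (hθ0 j)
      rw [← huu g j, h]
    -- criterion for `Fx`
    have hFu : ∀ g : L ≃ₐ[ℚ] L, g ω = ω → (Fx b g ↔
        (∀ j : Fin s, uu g j.castSucc = 0) ∧ uu g (Fin.last s) ≠ 0) := by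
      intro g hg
      constructor
      · rintro ⟨h1, h2⟩
        refine ⟨fun j => ?_, fun h0 => ?_⟩
        · apply huniq
          rw [h1 j _ (hθ _)]
          simp
        · apply h2 _ (hθ _)
          rw [huu, h0]
          simp
      · rintro ⟨h1, h2⟩
        have h3 : ∀ (j : Fin (s + 1)) (ρ : L), ρ ^ 3 = (b j : L) →
            g ρ = ω ^ (uu g j).val * ρ := by
          intro j ρ hρ
          obtain ⟨u, hu⟩ := cube_root hG.rel (θ := θ j) (ρ := ρ) (by rw [hρ, hθ])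
          rw [hu, map_mul, map_pow, hg, huu]
          ring
        refine ⟨fun j ρ hρ => ?_, fun ρ hρ h4 => ?_⟩
        · rw [h3 _ ρ hρ, h1 j]
          simp
        · rw [h3 _ ρ hρ] at h4
          have hρ0 : ρ ≠ 0 := by
            intro h0
            rw [h0] at hρ
            apply hb0 (Fin.last s)
            have h5 : ((b (Fin.last s) : ℤ) : L) = 0 := by rw [← hρ]; norm_num
            exact_mod_cast h5
          apply h2
          apply om_zmod_inj hG.rel hρ0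
          rw [h4]
          simp
    have hfib : ∀ w w' : Fin (s + 1) → ZMod 3,
        (univ.filter fun g : L ≃ₐ[ℚ] L => χ g = a ∧ uu g = w).card =
        (univ.filter fun g : L ≃ₐ[ℚ] L => χ g = a ∧ uu g = w').card := by
      intro w w'
      obtain ⟨z, hzζ, hzρ⟩ := hGKUM (s + 1) b p q p' q' f L ζ ω hSys hG (w' - w)
      obtain ⟨hzω, hχz⟩ := hz1 z hzζ
      have key : ∀ g : L ≃ₐ[ℚ] L, g ω = ω → uu (g * z) = (w' - w) + uu g := by
        intro g hg
        funext j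
        apply huniq
        rw [AlgEquiv.mul_apply, hzρ j _ (hθ j), map_mul, map_pow, hg, huu, ← mul_assoc,
          om_add hω3]
        rfl
      refine Finset.card_bij (fun g _ => g * z) ?_ ?_ ?_
      · intro g hg
        rw [mem_filter] at hg ⊢
        obtain ⟨_, h1, h2⟩ := hg
        refine ⟨mem_univ _, by rw [map_mul, hχz, mul_one, h1], ?_⟩
        rw [key g (hM g (by rw [h1]; exact ha)), h2]
        abel
      · intro g _ g' _ e
        exact mul_right_cancel e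
      · intro g hg
        rw [mem_filter] at hg
        obtain ⟨_, h1, h2⟩ := hg
        have h3 : g * z⁻¹ * z = g := inv_mul_cancel_right g z
        have h4 : χ (g * z⁻¹) = a := by rw [map_mul, map_inv, hχz, inv_one, mul_one, h1]
        refine ⟨g * z⁻¹, ?_, h3⟩
        rw [mem_filter]
        refine ⟨mem_univ _, h4, ?_⟩
        have h5 := key (g * z⁻¹) (hM _ (by rw [h4]; exact ha))
        rw [h3, h2] at h5
        funext j
        have h7 := congrFun h5 j
        simp only [Pi.add_apply, Pi.sub_apply] at h7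
        linear_combination (-1 : ZMod 3) * h7
    have hsub : ∀ (D : Finset (Fin (s + 1) → ZMod 3)),
        (univ.filter fun g : L ≃ₐ[ℚ] L => χ g = a ∧ uu g ∈ D).card =
        D.card * (univ.filter fun g : L ≃ₐ[ℚ] L => χ g = a ∧ uu g = 0).card := by
      intro D
      rw [Finset.card_eq_sum_card_fiberwise (f := uu) (t := D)]
      · rw [← smul_eq_mul, ← Finset.sum_const]
        refine Finset.sum_congr rfl fun w hw => ?_
        rw [← hfib w 0, Finset.filter_filter]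
        congr 1
        apply Finset.filter_congr
        intro g _
        constructor
        · rintro ⟨⟨h1, _⟩, h2⟩
          exact ⟨h1, h2⟩
        · rintro ⟨h1, h2⟩
          exact ⟨⟨h1, by rw [h2]; exact hw⟩, h2⟩
      · intro g hg
        have h1 := (mem_filter.1 (Finset.mem_coe.1 hg)).2.2
        exact h1
    have h1 : Nat.card {g : L ≃ₐ[ℚ] L // χ g = a} =
        3 ^ (s + 1) * (univ.filter fun g : L ≃ₐ[ℚ] L => χ g = a ∧ uu g = 0).card := by
      rw [Nat.card_eq_fintype_card, Fintype.card_subtype]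
      have h2 := hsub univ
      simp only [mem_univ, and_true] at h2
      rw [h2, Finset.card_univ, Fintype.card_fun, ZMod.card, Fintype.card_fin]
    have h2 : Nat.card {g : L ≃ₐ[ℚ] L // χ g = a ∧ Fx b g} =
        2 * (univ.filter fun g : L ≃ₐ[ℚ] L => χ g = a ∧ uu g = 0).card := by
      rw [Nat.card_eq_fintype_card, Fintype.card_subtype]
      have h2 := hsub (univ.filter fun w : Fin (s + 1) → ZMod 3 =>
        (∀ j : Fin s, w j.castSucc = 0) ∧ w (Fin.last s) ≠ 0)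
      rw [card_good] at h2
      rw [← h2]
      congr 1
      apply Finset.filter_congr
      intro g _
      constructor
      · rintro ⟨h3, h4⟩
        refine ⟨h3, mem_filter.2 ⟨mem_univ _, ?_⟩⟩
        exact (hFu g (hM g (by rw [h3]; exact ha))).1 h4
      · rintro ⟨h3, h4⟩
        exact ⟨h3, (hFu g (hM g (by rw [h3]; exact ha))).2 (mem_filter.1 h4).2⟩
    rw [h1, h2]
    ring
  · intro Q hQ hQp hN₀ P g hP hQP hst hg hFg
    have hfin := GFR.quo_finite hQp hP hQP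
    obtain ⟨k, hk, hfr⟩ := GFR.exists_frob_gen (R := ℤ) P g hst
    obtain ⟨h3o, _, hpow⟩ := hT1 g (hM g hg) hFg
    have hk3 : ¬ 3 ∣ k := by
      intro h
      have h1 := Nat.dvd_gcd h h3o
      rw [hk] at h1
      omega
    obtain ⟨hkω, hkF⟩ := hpow k
    have hχk := hχF Q hQ hQp P (g ^ k) hP hQP hfr
    have hQ3 : Q % 3 = 1 := by
      have h1 := hωχ (g ^ k)
      rw [hkω, hχk, ZMod.coe_unitOfCoprime, ZMod.val_natCast] at h1
      have h2 := om_pow_inj hG.rel (i := 1) (j := Q % f) (by rw [pow_one]; exact h1)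
      rw [Nat.mod_mod_of_dvd _ h3f] at h2
      omega
    obtain ⟨ρ, hρ1, hρ2, hρ3, hρ4⟩ := hFr Q hQp hN₀ hQ3 P hP hQP (g ^ k) hfr (hkF hk3)
    refine ⟨hQ3, k, hk, hk3, hχk, ρ, hρ1, hρ2, hρ3, fun j i hji r hr => ?_⟩
    exact hρ4 j i hji r _ hr (ht (g ^ k) j i hji hkω (hkF hk3))

end Pool.Agent.PTE


end

section

/-!
# Prime twists of rank zero, `n` divisible by `3`: the systems for the primes `q = 1 (mod 3)`
-/

set_option autoImplicit false

namespace Pool.Agent.PT3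

open Pool.Agent.Lib_helper18 Pool.Agent.Lib_helper18.Eis Pool.Agent.Lib_helper84.Cub
open Pool.Agent.PT Pool.Agent.PTE

namespace ECLU

/-- the restriction of a system to the first indices -/
lemma sysG_restr {s : ℕ} {b : Fin (s + 1) → ℤ} {P Q P' Q' : Fin (s + 1) → Fin (s + 1) → ℤ}
    (h : SysG b P Q P' Q') : SysG (rv b) (rs P) (rs Q) (rs P') (rs Q') where
  ind := by
    rintro c ⟨i, hi⟩ ⟨t, ht⟩
    refine h.ind (Fin.snoc (α := fun _ => ℕ) c 0) ⟨i.castSucc, ?_⟩ ⟨t, ?_⟩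
    · rw [Fin.snoc_castSucc]
      exact hi
    · rw [ht, Fin.prod_univ_castSucc, Fin.snoc_last, pow_zero, mul_one]
      refine Finset.prod_congr rfl fun j _ => ?_
      rw [Fin.snoc_castSucc]
      rfl
  sol j i hji := h.sol j.castSucc i.castSucc fun h1 => hji (Fin.castSucc_injective _ h1)

lemma sw_restr {s : ℕ} {P Q P' Q' : Fin (s + 1) → Fin (s + 1) → ℤ}
    (h : SwS P Q P' Q') : SwS (rs P) (rs Q) (rs P') (rs Q') :=
  fun j i hji => h j.castSucc i.castSucc fun h1 => hji (Fin.castSucc_injective _ h1)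

/-- the class of a point gives a kernel vector -/
lemma det_zero (hTENT : TENT) {s : ℕ} {τ : Fin s → Fin 3} {b X Y : Fin s → ℤ}
    {P Q P' Q' : Fin s → Fin s → ℤ} {B : ℤ}
    (hSys : SysG b P Q P' Q') (hSw : SwS P Q P' Q') (hB : BG B) (hA : ∀ i, AG B (b i))
    (hT : LamS B τ b X Y) (hb : ∀ i, b i ≠ 0) {z X1 Y1 : ℤ}
    (hPt : Pt B z X1 Y1) (hcube : ¬ ∃ t : ℤ, t ^ 3 = z) {g : Fin s → ℕ} {u v : ℤ} (hu : u ≠ 0)
    (hv : v ≠ 0) (hg : z * u ^ 3 = (∏ i, b i ^ g i) * v ^ 3) :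
    (MaT b X Y P Q P' Q' B).det = 0 := by
  obtain ⟨W, hW⟩ : ∃ W : ℤ, W = ∏ i, b i ^ g i := ⟨_, rfl⟩
  rw [← hW] at hg
  have hex : ∃ i, ¬ 3 ∣ g i := by
    by_contra hcon
    push Not at hcon
    choose g' hg' using hcon
    apply hcube
    have h1 : z * u ^ 3 = ((∏ i, b i ^ g' i) * v) ^ 3 := by
      rw [hg, hW, mul_pow, ← Finset.prod_pow]
      congr 1
      refine Finset.prod_congr rfl fun i _ => ?_
      rw [← pow_mul, hg' i, mul_comm]
    exact ECLS.cube_of hu h1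
  have hPt' : Pt B (∏ i, b i ^ g i) (u * v * X1) (v ^ 2 * Y1) := by
    refine ⟨mul_ne_zero (mul_ne_zero hu hv) hPt.hX, mul_ne_zero (pow_ne_zero 2 hv) hPt.hY, ?_⟩
    obtain ⟨c0, hc0, h1⟩ := hPt.eq
    refine ⟨c0 * u ^ 2, mul_ne_zero hc0 (pow_ne_zero 2 hu), ?_⟩
    rw [← hW]
    have e1 : W * ((u * v * X1) ^ 3 + W * (v ^ 2 * Y1) ^ 3) =
        (W * v ^ 3) * (u ^ 3 * X1 ^ 3 + (W * v ^ 3) * Y1 ^ 3) := by ring
    rw [e1, ← hg]
    have e2 : z * u ^ 3 * (u ^ 3 * X1 ^ 3 + z * u ^ 3 * Y1 ^ 3) =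
        u ^ 6 * (z * (X1 ^ 3 + z * Y1 ^ 3)) := by ring
    rw [e2, h1]
    ring
  have hker := (hTENT s τ b X Y P Q P' Q' B hSys hSw hB hA hT hb).2 g _ _ hex hPt'
  rw [← Matrix.exists_mulVec_eq_zero_iff]
  refine ⟨fun i => (g i : ZMod 3), ?_, ?_⟩
  · intro h1
    obtain ⟨i, hi⟩ := hex
    apply hi
    have h2 := congrFun h1 i
    exact (ZMod.natCast_eq_zero_iff (g i) 3).1 h2
  · ext j
    exact hker j

end ECLU

open _root_.Pool.Agent.PT3.ECLU in
/-- ECLU: the systems for a class, `q = 1 (mod 3)`. -/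
theorem ECLU_thm (hHYPU : HYPU) (hEHPT : EHPT) (hEADU : EADU) (hESYT : ESYT) (hFD1T : FD1T)
    (hFD2T : FD2T) (hTENT : TENT) (hSPLT : SPLT) : ECLU := by
  intro h n m k π p e r f w0 c hNF hh hodd hdet
  obtain ⟨d, v, hd, hv, hδ⟩ := hEHPT h n m k π p e r f w0 c hNF hh hdet
  refine ⟨d, v, ?_, fun i => ⟨(hv i).ne, (hv i).supp⟩, ?_⟩
  · rw [Nat.odd_iff] at hodd ⊢
    omega
  intro δ hδ0
  obtain ⟨s, τ, b, X, Y, hs, hAdm, hV, hind, h3, hT, hρ⟩ := hδ δ hδ0
  obtain ⟨P, Q, P', Q', hSys, hSw⟩ := hESYT h n m k π p e r f w0 c (s + 1) b hNF hAdm hV hind h3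
  refine ⟨s, b, X, Y, P, Q, P', Q', hs, hSys, fun i => (hAdm i).ne, ?_, ?_⟩
  · intro ρ h1 h2 h3
    exact (hρ ρ h1 h2 h3).1
  intro E q ρ hE hq hq1 hIn hqn hqρ h0 h1
  obtain ⟨hB, hTy, hEA⟩ := hEADU h n m k π p e r f w0 c E q ρ hNF hh hE hq hq1 hIn hqn hqρ
  have hA : ∀ i : Fin s, AdT (BB h n E q) (b i.castSucc) := fun i =>
    (hEA _ (hAdm i.castSucc).supp).1 ⟨hAdm i.castSucc, h0 i⟩
  have hR := sysG_restr hSys
  have hRw := sw_restr hSw
  have hL := hT _ hTy
  have hAG : ∀ i : Fin s, AG (BB h n E q) (rv b i) := fun i => (hA i).toAG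
  have hne : ∀ i : Fin s, rv b i ≠ 0 := fun i => (hAdm i.castSucc).ne
  refine ⟨hB, hA, (hTENT s τ (rv b) X Y _ _ _ _ _ hR hRw hB.toBG hAG hL hne).1, ?_⟩
  intro hXY
  have hn0 : 0 < n := by
    rcases Nat.eq_zero_or_pos n with h | h
    · exact absurd (by rw [h]; exact dvd_zero q) hqn
    · exact h
  have hq3 : q ≠ 3 := by
    rintro rfl
    norm_num at hq1
  have hH : HypT (BB h n E q) := hHYPU h n m k π p e r f w0 c E q ρ (b (Fin.last s)) hNF hh hE hq
    hq1 hIn hqn hqρ hdet (hAdm _) h1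
  obtain ⟨a, x, hC⟩ := hFD1T (BB h n E q) hB hH hXY
  obtain ⟨z, X1, Y1, hPt, hAz, hsupp, hcube⟩ := hFD2T h n E q a x hh hE hq hq3 hqn hn0 hB hC
  obtain ⟨hz1, hz2⟩ := (hEA z hsupp).2 hAz
  have hρn : ¬ ρ.1 ∣ (n : Eis) := by
    intro h2
    have h4 := (hSPLT.2 q ρ hq hq1 hqρ).2.2.2.1 (n : ℤ)
    rw [Int.cast_natCast] at h4
    exact hqn (Int.natCast_dvd_natCast.1 (h4.1 h2))
  obtain ⟨g, u, t, hu, ht, hg⟩ := (hρ ρ hρn h0 h1).2 z hz1 hz2
  exact det_zero hTENT hR hRw hB.toBG hAG hL hne hPt hcube hu ht hg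

end Pool.Agent.PT3


end

section

/-!
# Prime twists of rank zero: the systems for a given class, `k` odd (module ECS0)
-/

set_option autoImplicit false

namespace Pool.Agent.PT3

open Pool.Agent.Lib_helper18 Pool.Agent.Lib_helper18.Eis Pool.Agent.Lib_helper84.Cub
open Pool.Agent.PT Pool.Agent.PTE
open Pool.Agent.PTE.ECLS

/-- ECS0: the systems for a class, `k` odd. -/
theorem ECS0_thm (hEHPL : EHPL) (hESYS : ESYS) (hEADMS : EADMS) (hHYPS : HYPS)
    (hFD1 : FD1) (hFD2S : FD2S) (hTEND : TEND) (hSPLT : SPLT) : ECS0 := by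
  intro n m k π p e r f w0 c hNF hk hwt hdet
  obtain ⟨v, hv, hδ⟩ := hEHPL n m k π p e r f w0 c hNF hk.pos hwt hdet
  refine ⟨v, fun i => ⟨(hv i).ne, (hv i).supp⟩, ?_⟩
  intro δ hδ0
  obtain ⟨s, b, hs, hAdm, hV, hind, hc9, hρ⟩ := hδ δ hδ0
  obtain ⟨P, Q, P', Q', hSys⟩ := hESYS n m k π p e r f w0 c (s + 1) b hNF hAdm hV hind hc9
  refine ⟨s, b, P, Q, P', Q', hs, ⟨hSys.ind, hSys.sol⟩, fun i => (hAdm i).ne, ?_, ?_⟩
  · intro ρ h1 h2 h3
    exact (hρ ρ h1 h2 h3).1
  intro q ρ hq hIn hqn hq3 hqρ h0 h1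
  obtain ⟨hB, hE⟩ := hEADMS n m k π p e r f w0 c q ρ hNF hq hIn hqn hqρ
  have hA : ∀ i : Fin s, Adm ((n : ℤ) * q) (b i.castSucc) := fun i =>
    (hE _ (hAdm i.castSucc).supp).1 ⟨hAdm i.castSucc, h0 i⟩
  have hR := sys_restr hSys
  refine ⟨hB, hA, (hTEND s (rv b) _ _ _ _ _ hR hB hA).1, ?_⟩
  rintro ⟨X, Y, hXY⟩
  have hn0 : 0 < n := by
    rcases Nat.eq_zero_or_pos n with h | h
    · exact absurd (by rw [h]; exact dvd_zero q) hqn
    · exact h
  have h3 : 3 ≤ |(n : ℤ) * q| := by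
    have h1 : (3 : ℤ) ≤ (n : ℤ) * q := by
      have h2 : 3 ≤ n * q := by nlinarith
      exact_mod_cast h2
    exact h1.trans (le_abs_self _)
  have hH : HypM ((n : ℤ) * q) := hHYPS n m k π p e r f w0 c q ρ (b (Fin.last s)) hNF hq hIn hqn
    hqρ hwt hdet (hAdm _) h1
  obtain ⟨a, x, hC⟩ := hFD1 ((n : ℤ) * q) hB h3 hH ⟨X, Y, by rw [hXY]; push_cast; ring⟩
  obtain ⟨z, X1, Y1, hPt, hAz, hsupp, hcube⟩ := hFD2S n q a x hq hIn.1 hqn hn0 hB hC
  obtain ⟨hz1, hz2⟩ := (hE z hsupp).2 hAz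
  have hρn : ¬ ρ.1 ∣ (n : Eis) := by
    intro h2
    have h4 := (hSPLT.2 q ρ hq hIn.1 hqρ).2.2.2.1 (n : ℤ)
    rw [Int.cast_natCast] at h4
    exact hqn (Int.natCast_dvd_natCast.1 (h4.1 h2))
  obtain ⟨g, u, t, hu, ht, hg⟩ := (hρ ρ hρn h0 h1).2 z hz1 hz2
  exact det_zero hTEND hR hB hA hPt hcube hu ht hg

end Pool.Agent.PT3


end

section

/-!
# FD2T: the class of a point (`B` divisible by `3`)
-/

set_option autoImplicit false

namespace Pool.Agent.PT3

open Pool.Agent.Lib_helper18 Pool.Agent.Lib_helper18.Eis Pool.Agent.Lib_helper84.Cub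
open Pool.Agent.PT Pool.Agent.PTE

namespace FD2T

open Pool.Agent.PT.FD2 (cast_ne s_cube s_cube' s_self mul_right s_neg)

/-- A cube-free number is not divisible by the cube of a prime. -/
theorem no_cube (hSPP : SPP) {B : ℤ} (hB : BT B) {l : ℕ} (hl : l.Prime)
    (h : (l : ℤ) ^ 3 ∣ B) : False := by
  obtain ⟨h1, -⟩ := hSPP
  by_cases hl3 : (3 : ℤ) ∣ l
  · have h3 : 3 ∣ l := by exact_mod_cast hl3
    have h4 : 3 = l := (Nat.prime_dvd_prime_iff_eq Nat.prime_three hl).1 h3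
    subst h4
    exact hB.t2 (by simpa using h)
  have hlu : ¬ IsUnit (l : Eis) := by
    rw [isUnit_iff_norm, norm_natCast]
    intro h3
    have h4 : l ^ 2 = 1 := by exact_mod_cast h3
    have h5 := hl.two_le
    nlinarith
  have hl0 : (l : Eis) ≠ 0 := by
    have := cast_ne (m := (l : ℤ)) (by exact_mod_cast hl.ne_zero)
    simpa using this
  obtain ⟨ρ, hρ, hρl⟩ := WfDvdMonoid.exists_irreducible_factor hlu hl0
  have hρ' : Prime ρ := hρ.prime
  have hρ3 : ¬ ρ ∣ 3 := by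
    intro h3
    have h4 : IsCoprime (3 : ℤ) l := by
      rw [Int.isCoprime_iff_gcd_eq_one]
      have h5 : Nat.Coprime 3 l := (Nat.Prime.coprime_iff_not_dvd Nat.prime_three).2
        (fun h6 => hl3 (by exact_mod_cast h6))
      exact_mod_cast h5
    obtain ⟨u, v, huv⟩ := h4
    have h5 : (u : Eis) * 3 + v * l = 1 := by
      have := congrArg (fun m : ℤ => (m : Eis)) huv
      push_cast at this
      exact this
    exact hρ'.not_isUnit (isUnit_of_dvd_one (h5 ▸ dvd_add (h3.mul_left _) (hρl.mul_left _)))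
  obtain ⟨π, hπ⟩ := h1 ρ hρ' hρ3
  have h2 : π.1 ^ 3 ∣ (B : Eis) := by
    have h3 : π.1 ∣ (l : Eis) := hπ.symm.dvd.trans hρl
    refine (pow_dvd_pow_of_dvd h3 3).trans ?_
    obtain ⟨c, hc⟩ := h
    refine ⟨c, ?_⟩
    rw [hc]
    push_cast
    rfl
  have h3 := (fin π.2.1 (cast_ne hB.ne)).pow_dvd_iff_le_multiplicity.1 h2
  have h4 := hB.cf π
  exact absurd h3 (by unfold V at h4; omega)

theorem cube9 : ∀ y : ZMod 9, y ^ 3 = 0 ∨ y ^ 3 = 1 ∨ y ^ 3 = -1 := by decide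

theorem three_dvd {x : ℤ} (h : (x : ZMod 9) ^ 3 = 0) : (3 : ℤ) ∣ x := by
  have h1 : ((x ^ 3 : ℤ) : ZMod 9) = 0 := by
    push_cast
    exact h
  rw [ZMod.intCast_zmod_eq_zero_iff_dvd] at h1
  have h2 : (3 : ℤ) ∣ x ^ 3 := (Dvd.intro 3 (by norm_num)).trans h1
  exact Int.prime_three.dvd_of_dvd_pow h2

theorem wt_eq {a b : ℤ} (h3 : ¬ (3 : ℤ) ∣ a) (h : ((a : ZMod 9)) ^ 2 = (b : ZMod 9) ^ 2) :
    wt (a ^ 2) = wt (b ^ 2) := by
  have h1 : ((a ^ 2 : ℤ) : ZMod 9) = ((b ^ 2 : ℤ) : ZMod 9) := by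
    push_cast
    exact h
  rw [ZMod.intCast_eq_intCast_iff_dvd_sub] at h1
  have e0 : a ^ 2 % 3 = 1 := by
    have h3 : a % 3 = 1 ∨ a % 3 = 2 := by omega
    rcases h3 with h3 | h3 <;> simp [pow_two, Int.mul_emod, h3]
  unfold wt
  rw [ZMod.intCast_eq_intCast_iff_dvd_sub]
  set A : ℤ := a ^ 2
  set C : ℤ := b ^ 2
  push_cast at h1 ⊢
  omega

/-- the condition at `3` -/
theorem wild0 (a b c : ℤ) (ha : ¬ (3 : ℤ) ∣ a) (hc : (9 : ℤ) ∣ c)
    (hc27 : ¬ (27 : ℤ) ∣ c) : ∀ (N : ℕ) (x y z : ℤ), x.natAbs ≤ N → x ≠ 0 →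
    a * x ^ 3 + b * y ^ 3 + c * z ^ 3 = 0 → ¬ (3 : ℤ) ∣ b → wt (a ^ 2) = wt (b ^ 2) := by
  intro N
  induction N with
  | zero =>
    intro x y z h1 h2 _ _
    exact absurd (Int.natAbs_eq_zero.1 (Nat.le_zero.1 h1)) h2
  | succ N ih =>
    intro x y z h1 h2 hs hb
    by_cases hx : (3 : ℤ) ∣ x
    · obtain ⟨x', rfl⟩ := hx
      have hy : (3 : ℤ) ∣ y := by
        have h5 : (3 : ℤ) ∣ b * y ^ 3 := by
          obtain ⟨c', rfl⟩ := hc
          exact ⟨-(9 * a * x' ^ 3 + 3 * c' * z ^ 3), by linear_combination hs⟩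
        exact Int.prime_three.dvd_of_dvd_pow ((Int.prime_three.dvd_or_dvd h5).resolve_left hb)
      obtain ⟨y', rfl⟩ := hy
      have hz : (3 : ℤ) ∣ z := by
        obtain ⟨c', rfl⟩ := hc
        have h5 : (3 : ℤ) ∣ c' * z ^ 3 := ⟨-(a * x' ^ 3 + b * y' ^ 3), by
          have h6 : (9 : ℤ) * (c' * z ^ 3) = 9 * (3 * (-(a * x' ^ 3 + b * y' ^ 3))) := by
            linear_combination hs
          exact mul_left_cancel₀ (by norm_num) h6⟩
        refine Int.prime_three.dvd_of_dvd_pow ((Int.prime_three.dvd_or_dvd h5).resolve_left ?_)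
        rintro ⟨d, rfl⟩
        exact hc27 ⟨d, by ring⟩
      obtain ⟨z', rfl⟩ := hz
      refine ih x' y' z' ?_ ?_ ?_ hb
      · have : (3 * x').natAbs = 3 * x'.natAbs := by rw [Int.natAbs_mul]; rfl
        have h7 : x'.natAbs ≠ 0 := fun h => h2 (by rw [Int.natAbs_eq_zero.1 h, mul_zero])
        omega
      · rintro rfl
        exact h2 (mul_zero _)
      · have h6 : (27 : ℤ) * (a * x' ^ 3 + b * y' ^ 3 + c * z' ^ 3) = 27 * 0 := by
          linear_combination hs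
        exact mul_left_cancel₀ (by norm_num) h6
    · have hy : ¬ (3 : ℤ) ∣ y := by
        intro hy
        have h5 : (3 : ℤ) ∣ a * x ^ 3 := by
          obtain ⟨c', rfl⟩ := hc
          obtain ⟨y', rfl⟩ := hy
          exact ⟨-(9 * b * y' ^ 3 + 3 * c' * z ^ 3), by linear_combination hs⟩
        exact hx (Int.prime_three.dvd_of_dvd_pow
          ((Int.prime_three.dvd_or_dvd h5).resolve_left ha))
      refine wt_eq ha ?_
      have h9 : (c : ZMod 9) = 0 := by
        rw [ZMod.intCast_zmod_eq_zero_iff_dvd]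
        exact_mod_cast hc
      have hs9 : (a : ZMod 9) * (x : ZMod 9) ^ 3 + (b : ZMod 9) * (y : ZMod 9) ^ 3 = 0 := by
        have := congrArg (Int.cast : ℤ → ZMod 9) hs
        push_cast at this
        rw [h9, zero_mul, add_zero] at this
        exact this
      have hx9 : (x : ZMod 9) ^ 3 = 1 ∨ (x : ZMod 9) ^ 3 = -1 :=
        (cube9 _).resolve_left fun h => hx (three_dvd h)
      have hy9 : (y : ZMod 9) ^ 3 = 1 ∨ (y : ZMod 9) ^ 3 = -1 :=
        (cube9 _).resolve_left fun h => hy (three_dvd h)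
      rcases hx9 with h7 | h7 <;> rcases hy9 with h8 | h8 <;> rw [h7, h8] at hs9
      · have : (a : ZMod 9) = -b := by linear_combination hs9
        rw [this]; ring
      · have : (a : ZMod 9) = b := by linear_combination hs9
        rw [this]
      · have : (a : ZMod 9) = b := by linear_combination -hs9
        rw [this]
      · have : (a : ZMod 9) = -b := by linear_combination -hs9
        rw [this]; ring

theorem z3a : ∀ t : ZMod 3, t + t + t = 0 := by decide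

/-- the number `9` divides one of the three factors -/
theorem split9 {a0 a1 a2 B : ℤ} (hp : a0 * a1 * a2 = B) (hc01 : IsCoprime a0 a1)
    (hc02 : IsCoprime a0 a2) (h9 : (9 : ℤ) ∣ B) (h27 : ¬ (27 : ℤ) ∣ B) (h : (3 : ℤ) ∣ a0) :
    ¬ (3 : ℤ) ∣ a1 ∧ ¬ (3 : ℤ) ∣ a2 ∧ (9 : ℤ) ∣ a0 ∧ ¬ (27 : ℤ) ∣ a0 := by
  have h1 : ¬ (3 : ℤ) ∣ a1 := fun h' => Int.prime_three.not_isUnit (hc01.isUnit_of_dvd' h h')
  have h2 : ¬ (3 : ℤ) ∣ a2 := fun h' => Int.prime_three.not_isUnit (hc02.isUnit_of_dvd' h h')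
  refine ⟨h1, h2, ?_, fun h' => h27 (by rw [← hp]; exact (h'.mul_right _).mul_right _)⟩
  have c1 : IsCoprime (3 : ℤ) a1 :=
    (Int.prime_three.irreducible.coprime_iff_not_dvd).2 h1
  have c2 : IsCoprime (3 : ℤ) a2 :=
    (Int.prime_three.irreducible.coprime_iff_not_dvd).2 h2
  have c3 : IsCoprime (9 : ℤ) (a1 * a2) := by
    have : (9 : ℤ) = 3 ^ 2 := by norm_num
    rw [this]
    exact (c1.mul_right c2).pow_left
  rw [← hp, mul_assoc] at h9
  exact c3.dvd_of_dvd_mul_right h9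

theorem main (hSTM : STM) (hSPP : SPP) (hLCL : LCL) {h n E q : ℕ} (hq : q.Prime)
    (hB : BT (BB h n E q))
    {a0 a1 a2 x0 x1 x2 : ℤ} (hx0 : x0 ≠ 0) (hx1 : x1 ≠ 0) (hx2 : x2 ≠ 0)
    (hs : a0 * x0 ^ 3 + a1 * x1 ^ 3 + a2 * x2 ^ 3 = 0) (hp : a0 * a1 * a2 = BB h n E q)
    (hc : IsCoprime a0 a1) (hc02 : IsCoprime a0 a2) (hc12 : IsCoprime a1 a2)
    (h2 : ¬ IsUnit a0 ∨ ¬ IsUnit a1)
    (hq0 : ¬ (q : ℤ) ∣ a0) (hq1 : ¬ (q : ℤ) ∣ a1) :
    ∃ z X Y : ℤ, Pt (BB h n E q) z X Y ∧ AdT (BB h n E q) z ∧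
      (∀ l : ℕ, l.Prime → (l : ℤ) ∣ z → l ∣ 3 * n) ∧ ¬ ∃ t : ℤ, t ^ 3 = z := by
  have hBB : BB h n E q = (3 : ℤ) ^ h * n * (q : ℤ) ^ E := rfl
  set B : ℤ := BB h n E q with hBd
  have ha0 : a0 ≠ 0 := by
    rintro rfl
    exact hB.ne (by rw [← hp]; ring)
  have ha1 : a1 ≠ 0 := by
    rintro rfl
    exact hB.ne (by rw [← hp]; ring)
  have ha2 : a2 ≠ 0 := by
    rintro rfl
    exact hB.ne (by rw [← hp]; ring)
  have hz0 : a0 ^ 2 * a1 ≠ 0 := mul_ne_zero (pow_ne_zero 2 ha0) ha1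
  have heq : a0 ^ 2 * a1 * ((a0 * x0) ^ 3 + a0 ^ 2 * a1 * x1 ^ 3) = B * (-a0 * x2) ^ 3 := by
    rw [← hp]
    linear_combination a0 ^ 4 * a1 * hs
  have hc0 : -a0 * x2 ≠ 0 := mul_ne_zero (neg_ne_zero.2 ha0) hx2
  refine ⟨a0 ^ 2 * a1, a0 * x0, x1, ⟨mul_ne_zero ha0 hx0, hx1, -a0 * x2, hc0, heq⟩, ?_, ?_, ?_⟩
  · refine ⟨⟨hz0, ?_, ?_⟩, ?_⟩
    · intro π
      have hs := hSTM π.1 π.2.1 (hSPP.2.2.2.1 π).1
      set z : Eis := ((a0 ^ 2 * a1 : ℤ) : Eis) with hz
      set n0 : ℤ := (a0 * x0) ^ 3 + a0 ^ 2 * a1 * x1 ^ 3 with hn0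
      have hn0' : n0 ≠ 0 := by
        intro h
        rw [h, mul_zero] at heq
        exact mul_ne_zero hB.ne (pow_ne_zero 3 hc0) heq.symm
      have hzne : z ≠ 0 := cast_ne hz0
      have hBne : (B : Eis) ≠ 0 := cast_ne hB.ne
      have hcne : ((-a0 * x2 : ℤ) : Eis) ≠ 0 := cast_ne hc0
      have hnne : (n0 : Eis) ≠ 0 := cast_ne hn0'
      have hXne : ((a0 * x0 : ℤ) : Eis) ≠ 0 := cast_ne (mul_ne_zero ha0 hx0)
      have hYne : (x1 : Eis) ≠ 0 := cast_ne hx1
      have e1 : z * (n0 : Eis) = (B : Eis) * ((-a0 * x2 : ℤ) : Eis) ^ 3 := by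
        have := congrArg (fun m : ℤ => (m : Eis)) heq
        push_cast at this ⊢
        rw [hz]
        push_cast
        exact this
      have e2 : tm π.1 z (B : Eis) = tm π.1 z (z * (n0 : Eis)) := by
        rw [e1, mul_right hs hzne hBne (pow_ne_zero 3 hcne), s_cube' hs hzne hcne, add_zero]
      rw [e2, mul_right hs hzne hzne hnne, s_self hs hzne, zero_add]
      have e3 : ((a0 * x0 : ℤ) : Eis) ^ 3 + z * (x1 : Eis) ^ 3 + -(n0 : Eis) = 0 := by
        rw [hz, hn0]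
        push_cast
        ring
      have e4 := hs.stein _ _ _ (pow_ne_zero 3 hXne) (mul_ne_zero hzne (pow_ne_zero 3 hYne))
        (neg_ne_zero.2 hnne) e3
      rw [s_cube hs hXne (mul_ne_zero hzne (pow_ne_zero 3 hYne)),
        s_cube' hs (neg_ne_zero.2 hnne) hXne, zero_add, add_zero,
        s_neg hs (mul_ne_zero hzne (pow_ne_zero 3 hYne)) hnne,
        hs.mul _ _ _ hzne (pow_ne_zero 3 hYne) hnne, s_cube hs hYne hnne, add_zero] at e4
      exact e4
    · intro π hπ h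
      apply hπ
      have e1 : (B : Eis) = (a0 : Eis) * a1 * a2 := by
        rw [← hp]
        push_cast
        ring
      have e2 : ((a0 ^ 2 * a1 : ℤ) : Eis) = (a0 : Eis) ^ 2 * a1 := by
        push_cast
        ring
      rw [e2] at h
      rw [e1]
      rcases π.2.1.dvd_or_dvd h with h | h
      · exact ((π.2.1.dvd_of_dvd_pow h).mul_right _).mul_right _
      · exact (h.mul_left _).mul_right _
    · intro hlv
      obtain ⟨-, hmul, -, hpr, -⟩ := hLCL
      have m1 := hmul a0 a1 ha0 ha1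
      have m2 := hmul (a0 * a1) a2 (mul_ne_zero ha0 ha1) ha2
      have m3 := hmul a0 a0 ha0 ha0
      have m4 := hmul (a0 ^ 2) a1 (pow_ne_zero 2 ha0) ha1
      rw [← pow_two] at m3
      rw [hp, m1.1, m1.2] at m2
      rw [m3.1, m3.2] at m4
      have h9 : (9 : ℤ) ∣ B := by
        have hv1 : padicValInt 3 B < 3 := by
          by_contra hcon
          have : ((3 : ℕ) : ℤ) ^ 3 ∣ B := (padicValInt_dvd_iff 3 B).2 (Or.inr (by omega))
          exact hB.t2 (by simpa using this)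
        have hv2 : padicValInt 3 B = 2 := by
          unfold lv at hlv
          generalize padicValInt 3 B = v at hlv hv1
          interval_cases v
          · exact absurd hlv (by decide)
          · exact absurd hlv (by decide)
          · rfl
        have : ((3 : ℕ) : ℤ) ^ 2 ∣ B := (padicValInt_dvd_iff 2 B).2 (Or.inr hv2.ge)
        simpa using this
      have h3d : (3 : ℤ) ∣ a0 ∨ (3 : ℤ) ∣ a1 ∨ (3 : ℤ) ∣ a2 := by
        have h3B : (3 : ℤ) ∣ a0 * a1 * a2 := by rw [hp]; exact hB.t1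
        rcases Int.prime_three.dvd_or_dvd h3B with h | h
        · rcases Int.prime_three.dvd_or_dvd h with h | h
          · exact Or.inl h
          · exact Or.inr (Or.inl h)
        · exact Or.inr (Or.inr h)
      rw [m4.1, m4.2]
      rcases h3d with h3 | h3 | h3
      · obtain ⟨n1, n2, n3, n4⟩ := split9 hp hc hc02 h9 hB.t2 h3
        have w := wild0 a1 a2 a0 n1 n3 n4 _ x1 x2 x0 le_rfl hx1 (by linear_combination hs) n2
        obtain ⟨v1, u1⟩ := hpr a1 n1
        obtain ⟨v2, u2⟩ := hpr a2 n2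
        rw [v1, v2, hlv] at m2
        rw [m2.2, u2, ← w, ← u1, v1]
        have v0 : lv a0 = 2 := by
          have := m2.1
          linear_combination -this
        rw [v0]
        generalize lw a0 = s
        generalize lw a1 = t
        revert s t
        decide
      · obtain ⟨n1, n2, n3, n4⟩ := split9 (a0 := a1) (a1 := a0) (a2 := a2)
          (by rw [← hp]; ring) hc.symm hc12 h9 hB.t2 h3
        have w := wild0 a0 a2 a1 n1 n3 n4 _ x0 x2 x1 le_rfl hx0 (by linear_combination hs) n2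
        obtain ⟨v1, u1⟩ := hpr a0 n1
        obtain ⟨v2, u2⟩ := hpr a2 n2
        rw [v1, v2, hlv] at m2
        rw [m2.2, u2, ← w, ← u1, v1]
        have v0 : lv a1 = 2 := by
          have := m2.1
          linear_combination -this
        rw [v0]
        generalize lw a0 = s
        generalize lw a1 = t
        revert s t
        decide
      · obtain ⟨n1, n2, n3, n4⟩ := split9 (a0 := a2) (a1 := a0) (a2 := a1)
          (by rw [← hp]; ring) hc02.symm hc12.symm h9 hB.t2 h3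
        have w := wild0 a0 a1 a2 n1 n3 n4 _ x0 x1 x2 le_rfl hx0 hs n2
        obtain ⟨v1, u1⟩ := hpr a0 n1
        obtain ⟨v2, u2⟩ := hpr a1 n2
        rw [u2, ← w, ← u1, v1, v2]
        generalize lw a0 = s
        generalize lw B = t
        revert s t
        decide
  · intro l hl h
    have hl' : Prime (l : ℤ) := Nat.prime_iff_prime_int.1 hl
    have h1 : (l : ℤ) ∣ a0 ∨ (l : ℤ) ∣ a1 := by
      rcases hl'.dvd_or_dvd h with h | h
      · exact Or.inl (hl'.dvd_of_dvd_pow h)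
      · exact Or.inr h
    have h3 : (l : ℤ) ∣ B := by
      rw [← hp]
      rcases h1 with h1 | h1
      · exact (h1.mul_right _).mul_right _
      · exact (h1.mul_left _).mul_right _
    rw [hBB] at h3
    rcases hl'.dvd_or_dvd h3 with h4 | h4
    · rcases hl'.dvd_or_dvd h4 with h5 | h5
      · have h6 : (l : ℤ) ∣ 3 := hl'.dvd_of_dvd_pow h5
        have h7 : l ∣ 3 := by exact_mod_cast h6
        exact h7.mul_right _
      · have h7 : l ∣ n := by exact_mod_cast h5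
        exact h7.mul_left _
    · exfalso
      have h5 : l ∣ q := by
        have := hl'.dvd_of_dvd_pow h4
        exact_mod_cast this
      have h6 : l = q := (Nat.prime_dvd_prime_iff_eq hl hq).1 h5
      rw [h6] at h1
      exact h1.elim hq0 hq1
  · rintro ⟨t, ht⟩
    have hc' : IsCoprime (a0 ^ 2) a1 := hc.pow_left
    obtain ⟨e, he⟩ := Int.eq_pow_of_mul_eq_pow_odd_left hc' (by decide : Odd 3) ht.symm
    obtain ⟨f, hf⟩ := Int.eq_pow_of_mul_eq_pow_odd_right hc' (by decide : Odd 3) ht.symm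
    rcases h2 with h2 | h2
    · -- `a0` is a cube
      have h3 : e ∣ a0 := by
        rw [← Int.pow_dvd_pow_iff (n := 3) (by norm_num)]
        exact ⟨a0, by rw [← he]; ring⟩
      obtain ⟨g, hg⟩ := h3
      have he0 : e ≠ 0 := by
        rintro rfl
        exact ha0 (by rw [hg, zero_mul])
      have h4 : g ^ 2 = e := by
        have h5 : e ^ 2 * g ^ 2 = e ^ 2 * e := by
          rw [← mul_pow, ← hg, he]
          ring
        exact mul_left_cancel₀ (pow_ne_zero 2 he0) h5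
      have h5 : a0 = g ^ 3 := by rw [hg, ← h4]; ring
      have h6 : ¬ IsUnit g := fun h => h2 (by rw [h5]; exact h.pow 3)
      have h7 : g.natAbs ≠ 1 := fun h => h6 (Int.isUnit_iff_natAbs_eq.2 h)
      obtain ⟨l, hl, hlg⟩ := Nat.exists_prime_and_dvd h7
      refine no_cube hSPP hB hl ?_
      have h8 : (l : ℤ) ∣ g := Int.natCast_dvd.2 hlg
      refine (pow_dvd_pow_of_dvd h8 3).trans ?_
      rw [← h5, ← hp]
      exact ⟨a1 * a2, by ring⟩
    · have h6 : ¬ IsUnit f := fun h => h2 (by rw [hf]; exact h.pow 3)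
      have h7 : f.natAbs ≠ 1 := fun h => h6 (Int.isUnit_iff_natAbs_eq.2 h)
      obtain ⟨l, hl, hlg⟩ := Nat.exists_prime_and_dvd h7
      refine no_cube hSPP hB hl ?_
      have h8 : (l : ℤ) ∣ f := Int.natCast_dvd.2 hlg
      refine (pow_dvd_pow_of_dvd h8 3).trans ?_
      rw [← hf, ← hp]
      exact ⟨a0 * a2, by ring⟩

end FD2T

open _root_.Pool.Agent.PT3.FD2T in
theorem FD2T_thm (hSTM : STM) (hSPP : SPP) (hLCL : LCL) : FD2T := by
  intro h n E q a x _ hE hq _ _ _ hB hcell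
  obtain ⟨hne, hsum, hprod, hcop, htwo, -⟩ := hcell
  rw [Fin.sum_univ_three] at hsum
  rw [Fin.prod_univ_three] at hprod
  have hq' : Prime (q : ℤ) := Nat.prime_iff_prime_int.1 hq
  have hqd : (q : ℤ) ∣ a 0 * a 1 * a 2 := by
    rw [hprod]
    have hE0 : E ≠ 0 := by rcases hE with h | h <;> omega
    exact (dvd_pow_self _ hE0).mul_left _
  have hnot : ∀ i j, i ≠ j → (q : ℤ) ∣ a i → ¬ (q : ℤ) ∣ a j := fun i j hij h1 h2 =>
    hq'.not_isUnit ((hcop i j hij).isUnit_of_dvd' h1 h2)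
  have hk : (q : ℤ) ∣ a 0 ∨ (q : ℤ) ∣ a 1 ∨ (q : ℤ) ∣ a 2 := by
    rcases hq'.dvd_or_dvd hqd with h | h
    · rcases hq'.dvd_or_dvd h with h | h
      · exact Or.inl h
      · exact Or.inr (Or.inl h)
    · exact Or.inr (Or.inr h)
  rcases hk with h | h | h
  · refine main hSTM hSPP hLCL (a0 := a 1) (a1 := a 2) (a2 := a 0) hq hB (hne 1) (hne 2) (hne 0)
      (by linear_combination hsum) (by linear_combination hprod) (hcop 1 2 (by decide))
      (hcop 1 0 (by decide)) (hcop 2 0 (by decide)) ?_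
      (hnot 0 1 (by decide) h) (hnot 0 2 (by decide) h)
    obtain ⟨j, hj, hu⟩ := htwo 0
    fin_cases j
    · exact absurd rfl hj
    · exact Or.inl hu
    · exact Or.inr hu
  · refine main hSTM hSPP hLCL (a0 := a 0) (a1 := a 2) (a2 := a 1) hq hB (hne 0) (hne 2) (hne 1)
      (by linear_combination hsum) (by linear_combination hprod) (hcop 0 2 (by decide))
      (hcop 0 1 (by decide)) (hcop 2 1 (by decide)) ?_
      (hnot 1 0 (by decide) h) (hnot 1 2 (by decide) h)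
    obtain ⟨j, hj, hu⟩ := htwo 1
    fin_cases j
    · exact Or.inl hu
    · exact absurd rfl hj
    · exact Or.inr hu
  · refine main hSTM hSPP hLCL (a0 := a 0) (a1 := a 1) (a2 := a 2) hq hB (hne 0) (hne 1) (hne 2)
      (by linear_combination hsum) (by linear_combination hprod) (hcop 0 1 (by decide))
      (hcop 0 2 (by decide)) (hcop 1 2 (by decide)) ?_
      (hnot 2 0 (by decide) h) (hnot 2 1 (by decide) h)
    obtain ⟨j, hj, hu⟩ := htwo 2
    fin_cases j
    · exact Or.inl hu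
    · exact Or.inr hu
    · exact absurd rfl hj

end Pool.Agent.PT3


end

section

/-!
# GALG: summary of the governing field, without congruence conditions at `3`
-/

open NumberField IsDedekindDomain Finset
open scoped nonZeroDivisors Pointwise

namespace Pool.Agent.PT3

open Pool.Agent.Lib_helper18 Pool.Agent.Lib_helper18.Eis Pool.Agent.Lib_helper84.Cub
open Pool.Agent.PT Pool.Agent.PTE Pool.Agent.PT.GALD

theorem GALG_thm (hGZEROG : GZEROG) (hGCHI : GCHI) (hGTG : GTG) (hGCG : GCG) (hGFRG : GFRG) :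
    GALG := by
  classical
  intro s b p q p' q' f hSys hf h9
  obtain ⟨L, hF, hN, ζ, ω, hG⟩ := hGZEROG s b p q p' q' f hSys hf h9
  haveI := hG.gal
  obtain ⟨χ, hχs, hχζ, hχF⟩ := hGCHI L f ζ hf hG.prim
  obtain ⟨N₀, hFr⟩ := hGFRG s b p q p' q' f L ζ ω hSys hG
  have hω3 : ω ^ 3 = 1 := om_cube hG.rel
  have hf1 : 1 < f := by
    obtain ⟨c, hc⟩ := h9
    omega
  have hT := hGTG s b p q p' q' f L ζ ω hSys hG
  -- action on ω
  have hM : ∀ g : L ≃ₐ[ℚ] L, M2 (χ g) → g ω = ω ^ 2 := by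
    intro g hg
    rw [hG.hω, map_pow, hχζ g, ← pow_mul, mul_comm, pow_mul, ← hG.hω]
    apply om_congr hω3
    unfold M2 at hg
    omega
  let t : (L ≃ₐ[ℚ] L) → Fin s → Fin s → ZMod 3 := fun g j i =>
    if h : j ≠ i ∧ g ω = ω ^ 2 then ((hT j i h.1).1 g h.2).choose else 0
  have ht : ∀ (g : L ≃ₐ[ℚ] L) (j i : Fin s), j ≠ i → g ω = ω ^ 2 →
      IsT b p q p' q' ω g j i (t g j i) := by
    intro g j i hji hg
    have h : j ≠ i ∧ g ω = ω ^ 2 := ⟨hji, hg⟩
    have e : t g j i = ((hT j i h.1).1 g h.2).choose := dif_pos h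
    rw [e]
    exact ((hT j i h.1).1 g h.2).choose_spec.1
  have htu : ∀ (g : L ≃ₐ[ℚ] L) (j i : Fin s) (c : ZMod 3), j ≠ i → g ω = ω ^ 2 →
      IsT b p q p' q' ω g j i c → t g j i = c := by
    intro g j i c hji hg hc
    exact ((hT j i hji).1 g hg).unique (ht g j i hji hg) hc
  refine ⟨L, hF, hN, hG.gal, χ, t, N₀, hχs, ?_, ?_, ?_, ?_⟩
  · intro g τ hg j i hji
    have h1 : χ (τ * g * τ⁻¹) = χ g := by
      rw [map_mul, map_mul, map_inv, mul_comm (χ τ), mul_inv_cancel_right]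
    apply htu _ _ _ _ hji
    · apply hM
      rw [h1]
      exact hg
    · exact (hT j i hji).2.1 g τ _ (hM g hg) (ht g j i hji (hM g hg))
  · intro g k hg hk j i hji
    apply htu _ _ _ _ hji
    · rw [pow_om hω3 g (hM g hg) k]
      apply om_congr hω3
      rw [two_pow_odd hk]
    · exact (hT j i hji).2.2 g _ k (hM g hg) hk (ht g j i hji (hM g hg))
  · intro a v v' ha
    obtain ⟨z, hzζ, hzρ, hzA⟩ := hGCG s b p q p' q' f L ζ ω hSys hG (fun j i => v j i - v' j i)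
    have hzω : z ω = ω := by rw [hG.hω, map_pow, hzζ]
    have hχz : χ z = 1 := by
      have h1 := hχζ z
      rw [hzζ] at h1
      haveI : NeZero f := ⟨hf.ne'⟩
      have h2 : ((χ z : ZMod f)).val = 1 := by
        apply hG.prim.pow_inj (ZMod.val_lt _) hf1
        rw [← h1, pow_one]
      apply Units.ext
      have h3 := ZMod.natCast_zmod_val (χ z : ZMod f)
      rw [h2] at h3
      rw [← h3]
      simp
    have key : ∀ g : L ≃ₐ[ℚ] L, g ω = ω ^ 2 → ∀ j i, j < i →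
        t (g * z) j i = t g j i - (v j i - v' j i) := by
      intro g hg j i hji
      have hgz : (g * z) ω = ω ^ 2 := by rw [AlgEquiv.mul_apply, hzω, hg]
      apply htu _ _ _ _ hji.ne hgz
      intro ρ A hρ hgρ hA
      rw [AlgEquiv.mul_apply, hzρ j ρ hρ] at hgρ
      have h1 := ht g j i hji.ne hg ρ A hρ hgρ hA
      rw [AlgEquiv.mul_apply, hzA j i hji ρ A hρ hA, map_mul, map_pow, hg, mul_assoc, h1,
        ← pow_mul, ← pow_add]
      apply om_congr hω3
      have : ((2 * (v j i - v' j i).val + (t g j i).val : ℕ) : ZMod 3) =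
          (((t g j i - (v j i - v' j i)).val : ℕ) : ZMod 3) := by
        push_cast
        rw [ZMod.natCast_zmod_val, ZMod.natCast_zmod_val, ZMod.natCast_zmod_val]
        have h3 : (3 : ZMod 3) = 0 := by decide
        linear_combination (v j i - v' j i) * h3
      exact (ZMod.natCast_eq_natCast_iff' _ _ 3).mp this
    apply Nat.card_congr
    refine Equiv.subtypeEquiv (Equiv.mulRight z) ?_
    intro g
    have hχ : χ (g * z) = χ g := by rw [map_mul, hχz, mul_one]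
    show (χ g = a ∧ ∀ j i, j < i → t g j i = v j i) ↔
      (χ (g * z) = a ∧ ∀ j i, j < i → t (g * z) j i = v' j i)
    rw [hχ]
    constructor
    · rintro ⟨h1, h2⟩
      refine ⟨h1, fun j i hji => ?_⟩
      rw [key g (hM g (by rw [h1]; exact ha)) j i hji, h2 j i hji]
      ring
    · rintro ⟨h1, h2⟩
      refine ⟨h1, fun j i hji => ?_⟩
      have h3 := h2 j i hji
      rw [key g (hM g (by rw [h1]; exact ha)) j i hji] at h3
      linear_combination h3
  · intro Q hQ hQp hN₀ P g hP hQP hst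
    haveI := hP
    obtain ⟨h1, h2⟩ := hFr Q hQp hN₀ P hP hQP
    obtain ⟨k, hk, hfr⟩ := h1 g hst
    refine ⟨k, hk, hχF Q hQ hQp P (g ^ k) hP hQP hfr, ?_⟩
    intro hQ3 j i hji r hr
    obtain ⟨h3, h4⟩ := h2 (g ^ k) hfr hQ3
    exact h4 j i hji r _ hr (ht (g ^ k) j i hji h3)

end Pool.Agent.PT3


end

section

/-!
# Prime twists of rank zero, `n` divisible by `3`: the local term of a point at `lam` when `b` is a
local cube
-/

namespace Pool.Agent.PT3

open Pool.Agent.Lib_helper18 Pool.Agent.Lib_helper18.Eis Pool.Agent.Lib_helper84.Cub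
open Pool.Agent.PT Pool.Agent.PTE

namespace IIA

/-- close integers have the same symbols -/
theorem close (hL : LSym lam sl 4) {a a0 : ℤ} {N : ℕ} (h0 : a0 ≠ 0)
    (hN : V lam (a0 : Eis) + 4 ≤ N) (h : lam ^ N ∣ (a : Eis) - (a0 : Eis)) :
    a ≠ 0 ∧ ∀ y : Eis, y ≠ 0 → sl (a : Eis) y = sl (a0 : Eis) y := by
  refine ⟨?_, fun y hy => hL.cont _ _ y (LEV.cast_ne h0) hy ((pow_dvd_pow lam hN).trans h)⟩
  rintro rfl
  have h1 : lam ^ N ∣ (a0 : Eis) := by
    have := (dvd_neg (a := lam ^ N)).2 h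
    simpa using this
  have h2 := (fin prime_lam (LEV.cast_ne h0)).le_multiplicity_of_pow_dvd h1
  unfold V at hN
  omega

theorem cube_close (hL : LSym lam sl 4) {a h0 m : ℤ} {N : ℕ} (hh : h0 ≠ 0) (hm : m ≠ 0)
    (hN : V lam ((h0 ^ 3 * m : ℤ) : Eis) + 4 ≤ N)
    (h : lam ^ N ∣ (a : Eis) - ((h0 ^ 3 * m : ℤ) : Eis)) :
    a ≠ 0 ∧ ∀ y : Eis, y ≠ 0 → sl (a : Eis) y = sl (m : Eis) y := by
  obtain ⟨h1, h2⟩ := close hL (mul_ne_zero (pow_ne_zero 3 hh) hm) hN h
  refine ⟨h1, fun y hy => ?_⟩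
  rw [h2 y hy]
  push_cast
  rw [hL.mul _ _ _ (pow_ne_zero 3 (LEV.cast_ne hh)) (LEV.cast_ne hm) hy,
    LEV.cube_left hL (LEV.cast_ne hh) hy, zero_add]

theorem wlin {u v : ℤ} (h : u ≠ 0 ∨ v ≠ 0) (i : ℕ) (hi : i = 1 ∨ i = 2) :
    (u : Eis) + w ^ i * (v : Eis) ≠ 0 := by
  intro h0
  rcases hi with rfl | rfl
  · have h1 := congrArg Eis.re h0
    have h2 := congrArg Eis.im h0
    simp at h1 h2
    rcases h with h | h
    · exact h (by omega)
    · exact h (by omega)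
  · have h1 := congrArg Eis.re h0
    have h2 := congrArg Eis.im h0
    rw [pow_two] at h1 h2
    simp at h1 h2
    rcases h with h | h
    · exact h (by omega)
    · exact h (by omega)

end IIA

theorem IIA_thm (hSLC : SLC) (hSSL : SSL) (hSCJ : SCJ) (hIIAG : IIAG) : IIA := by
  intro b x p q p' q' X Y hb hx hLC hS hX hY hn
  have hL : LSym lam sl 4 := hSLC
  obtain ⟨⟨heq, hn1⟩, hn2⟩ := hS
  have hS' : Sol b x p q p' q' := ⟨⟨heq, hn1⟩, hn2⟩
  have hH0 : p' ^ 3 + b * q' ^ 3 ≠ 0 := by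
    intro h0
    apply hn1
    rw [heq, h0, mul_zero]
  have hn3 : x * q' ^ 3 - q ^ 3 ≠ 0 := by
    have := LEV.nn hS'
    intro h0
    apply this
    linear_combination h0
  obtain ⟨H0, hH0d⟩ : ∃ H0, H0 = p' ^ 3 + b * q' ^ 3 := ⟨_, rfl⟩
  rw [← hH0d] at hH0
  set N0 := V lam ((H0 ^ 3 * (X ^ 3 + x * Y ^ 3) : ℤ) : Eis) +
    V lam ((H0 ^ 3 * (p ^ 3 - x * p' ^ 3) : ℤ) : Eis) +
    V lam ((H0 ^ 3 * (x * q' ^ 3 - q ^ 3) : ℤ) : Eis) +
    V lam ((p ^ 3 + b * q ^ 3 : ℤ) : Eis) + V lam ((p' ^ 3 + b * q' ^ 3 : ℤ) : Eis) +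
    V lam (b : Eis) + 5 with hN0
  refine ⟨N0, fun r hr => ?_⟩
  obtain ⟨δ, hδ⟩ : ∃ δ : ℤ, δ = r ^ 3 - b := ⟨_, rfl⟩
  have hδd : lam ^ N0 ∣ (δ : Eis) := by
    rw [hδ]
    push_cast
    exact hr
  have cls : ∀ {a a0 c : ℤ}, a = a0 + δ * c → lam ^ N0 ∣ (a : Eis) - (a0 : Eis) := by
    intro a a0 c h
    have : (a : Eis) - (a0 : Eis) = (δ : Eis) * c := by
      rw [h]
      push_cast
      ring
    rw [this]
    exact Dvd.dvd.mul_right hδd _
  -- nonvanishing
  have hr0 : r ≠ 0 := by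
    have h1 := IIA.close hL (a := r ^ 3) (a0 := b) (N := N0) hb (by omega)
      (cls (c := 1) (by rw [hδ]; ring))
    intro h0
    apply h1.1
    rw [h0]
    ring
  obtain ⟨F, hF⟩ : ∃ F, F = p ^ 3 + r ^ 3 * q ^ 3 := ⟨_, rfl⟩
  obtain ⟨H, hH⟩ : ∃ H, H = p' ^ 3 + r ^ 3 * q' ^ 3 := ⟨_, rfl⟩
  have hFne : F ≠ 0 := (IIA.close hL (a := F) (a0 := p ^ 3 + b * q ^ 3) (N := N0) hn1 (by omega)
    (cls (c := q ^ 3) (by rw [hδ, hF]; ring))).1
  have hHne : H ≠ 0 := (IIA.close hL (a := H) (a0 := p' ^ 3 + b * q' ^ 3) (N := N0)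
    (by rw [← hH0d]; exact hH0) (by omega) (cls (c := q' ^ 3) (by rw [hδ, hH]; ring))).1
  have hHe : H = H0 + δ * q' ^ 3 := by rw [hH, hδ, hH0d]; ring
  have hFe : F = x * H0 + δ * q ^ 3 := by
    rw [hF, hδ, hH0d]
    linear_combination heq
  -- close numbers
  obtain ⟨k1, k1'⟩ := IIA.cube_close hL (a := (X * H) ^ 3 + F * H ^ 2 * Y ^ 3) (h0 := H0)
    (m := X ^ 3 + x * Y ^ 3) (N := N0) hH0 hn (by omega)
    (cls (c := X ^ 3 * (3 * H0 ^ 2 * q' ^ 3 + 3 * H0 * δ * q' ^ 6 + δ ^ 2 * q' ^ 9) +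
      Y ^ 3 * (x * H0 * (2 * H0 * q' ^ 3 + δ * q' ^ 6) +
        q ^ 3 * (H0 + δ * q' ^ 3) ^ 2)) (by rw [hHe, hFe]; ring))
  obtain ⟨k2, k2'⟩ := IIA.cube_close hL (a := (p * H) ^ 3 - F * H ^ 2 * p' ^ 3) (h0 := H0)
    (m := p ^ 3 - x * p' ^ 3) (N := N0) hH0 hn2 (by omega)
    (cls (c := p ^ 3 * (3 * H0 ^ 2 * q' ^ 3 + 3 * H0 * δ * q' ^ 6 + δ ^ 2 * q' ^ 9) -
      p' ^ 3 * (x * H0 * (2 * H0 * q' ^ 3 + δ * q' ^ 6) +
        q ^ 3 * (H0 + δ * q' ^ 3) ^ 2)) (by rw [hHe, hFe]; ring))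
  obtain ⟨k3, k3'⟩ := IIA.cube_close hL (a := F * H ^ 2 * q' ^ 3 - (q * H) ^ 3) (h0 := H0)
    (m := x * q' ^ 3 - q ^ 3) (N := N0) hH0 hn3 (by omega)
    (cls (c := q' ^ 3 * (x * H0 * (2 * H0 * q' ^ 3 + δ * q' ^ 6) +
        q ^ 3 * (H0 + δ * q' ^ 3) ^ 2) -
      q ^ 3 * (3 * H0 ^ 2 * q' ^ 3 + 3 * H0 * δ * q' ^ 6 + δ ^ 2 * q' ^ 9))
      (by rw [hHe, hFe]; ring))
  -- the global identity
  have hSt : Sol (r ^ 3) (F * H ^ 2) (p * H) (q * H) p' q' := by
    refine ⟨⟨?_, ?_⟩, k2⟩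
    · rw [← hH]
      linear_combination (-(H ^ 3)) * hF
    · have : (p * H) ^ 3 + r ^ 3 * (q * H) ^ 3 = F * H ^ 3 := by rw [hF]; ring
      rw [this]
      exact mul_ne_zero hFne (pow_ne_zero 3 hHne)
  have key := hIIAG r (F * H ^ 2) (p * H) (q * H) p' q' (X * H) Y hr0
    (mul_ne_zero hFne (pow_ne_zero 2 hHne)) hSt (mul_ne_zero hX hHne) hY k1
  -- the forms
  have hHc : (H : Eis) ≠ 0 := LEV.cast_ne hHne
  have hpp : p' ≠ 0 ∨ p ≠ 0 := by
    by_contra h0
    push Not at h0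
    apply hn2
    rw [h0.1, h0.2]
    ring
  have hqq : q' ≠ 0 ∨ q ≠ 0 := by
    by_contra h0
    push Not at h0
    apply hn3
    rw [h0.1, h0.2]
    ring
  have hD : ∀ i : ℕ, i = 1 ∨ i = 2 → Df X Y p' p i ≠ 0 := by
    intro i hi
    have := IIA.wlin (u := X * p') (v := p * Y) (by
      rcases hpp with h | h
      · exact Or.inl (mul_ne_zero hX h)
      · exact Or.inr (mul_ne_zero h hY)) i hi
    unfold Df
    intro h0
    apply this
    push_cast
    linear_combination h0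
  have hD' : ∀ i : ℕ, i = 1 ∨ i = 2 → Df X Y q' q i ≠ 0 := by
    intro i hi
    have := IIA.wlin (u := X * q') (v := q * Y) (by
      rcases hqq with h | h
      · exact Or.inl (mul_ne_zero hX h)
      · exact Or.inr (mul_ne_zero h hY)) i hi
    unfold Df
    intro h0
    apply this
    push_cast
    linear_combination h0
  have hG : ∀ i : ℕ, i = 1 ∨ i = 2 → Gf p q p' q' i ≠ 0 := by
    intro i hi
    have := IIA.wlin (u := q * p') (v := -(p * q')) (by
      by_contra h0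
      push Not at h0
      obtain ⟨h1, h2⟩ := h0
      rw [neg_eq_zero] at h2
      rcases mul_eq_zero.1 h1 with h3 | h3 <;> rcases mul_eq_zero.1 h2 with h4 | h4
      · apply hn1
        rw [h3, h4]
        ring
      · apply hn3
        rw [h3, h4]
        ring
      · apply hn2
        rw [h3, h4]
        ring
      · apply hn1
        rw [heq, h3, h4]
        ring) i hi
    unfold Gf
    intro h0
    apply this
    push_cast
    linear_combination h0
  have hLf : ∀ i, Lf p q i r ≠ 0 :=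
    LEV.lf_ne prime_lam (N := N0) hn1 (by omega) hr
  have hLf' : ∀ i, Lf p' q' i r ≠ 0 :=
    LEV.lf_ne prime_lam (N := N0) (b := b) (by rw [← hH0d]; exact hH0) (by omega) hr
  have eD : ∀ i, Df (X * H) Y p' (p * H) i = (H : Eis) * Df X Y p' p i := by
    intro i
    unfold Df
    push_cast
    ring
  have eD' : ∀ i, Df (X * H) Y q' (q * H) i = (H : Eis) * Df X Y q' q i := by
    intro i
    unfold Df
    push_cast
    ring
  have eG : ∀ i, Gf (p * H) (q * H) p' q' i = (H : Eis) * Gf p q p' q' i := by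
    intro i
    unfold Gf
    push_cast
    ring
  have eL : ∀ i, Lf (p * H) (q * H) i r = (H : Eis) * Lf p q i r := by
    intro i
    unfold Lf
    push_cast
    ring
  -- symbols
  have skl : ∀ {m : ℤ} {a : ℤ}, a ≠ 0 → m ≠ 0 → (∀ y : Eis, y ≠ 0 → sl (a : Eis) y = sl (m : Eis) y) →
      ∀ y : Eis, y ≠ 0 → sl y (a : Eis) = sl y (m : Eis) := by
    intro m a ha hm h y hy
    rw [hL.skew _ _ (LEV.cast_ne ha) hy, hL.skew _ _ (LEV.cast_ne hm) hy, h y hy]
  have j1 := skl k1 hn k1'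
  have j2 := skl k2 hn2 k2'
  have j3 := skl k3 hn3 k3'
  have c1 : ∀ {m : ℤ} (hm : m ≠ 0) {u v : Eis} (hu : u ≠ 0) (hv : v ≠ 0),
      sl ((H : Eis) * u) (m : Eis) - sl ((H : Eis) * v) (m : Eis) =
        sl u (m : Eis) - sl v (m : Eis) := by
    intro m hm u v hu hv
    rw [hL.mul _ _ _ hHc hu (LEV.cast_ne hm), hL.mul _ _ _ hHc hv (LEV.cast_ne hm)]
    ring
  have c2 : ∀ {m : ℤ} (hm : m ≠ 0) {u v : Eis} (hu : u ≠ 0) (hv : v ≠ 0),
      sl (m : Eis) ((H : Eis) * u) - sl (m : Eis) ((H : Eis) * v) =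
        sl (m : Eis) u - sl (m : Eis) v := by
    intro m hm u v hu hv
    rw [LEV.mul_right hL hHc hu (LEV.cast_ne hm), LEV.mul_right hL hHc hv (LEV.cast_ne hm)]
    ring
  unfold SV AS at key
  unfold SV AS
  rw [eD, eD, eD', eD', eG, eG, eL, eL] at key
  have f1 := hD 1 (Or.inl rfl)
  have f2 := hD 2 (Or.inr rfl)
  have f3 := hD' 1 (Or.inl rfl)
  have f4 := hD' 2 (Or.inr rfl)
  have f5 := hG 1 (Or.inl rfl)
  have f6 := hG 2 (Or.inr rfl)
  have g1 := c1 k2 f1 f2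
  have g2 := c1 k1 f1 f2
  have g3 := c1 k3 f3 f4
  have g4 := c1 k1 f3 f4
  have g5 := c2 k1 f5 f6
  have g6 := c2 k1 (hLf 2) (hLf 1)
  rw [j2 _ f1, j2 _ f2] at g1
  rw [j1 _ f1, j1 _ f2] at g2
  rw [j3 _ f3, j3 _ f4] at g3
  rw [j1 _ f3, j1 _ f4] at g4
  rw [k1' _ f5, k1' _ f6] at g5
  rw [k1' _ (hLf 2), k1' _ (hLf 1)] at g6
  have g7 := k1' _ (hLf' 1)
  have g8 := k1' _ (hLf' 2)
  have g9 := j1 _ LEV.w_ne
  linear_combination key - g1 + g2 + g3 - g4 + g5 + g9 - g6 - g7 + g8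

end Pool.Agent.PT3


end
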