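import Mathlib
import Pool.Agent.PTDM.C03
import Pool.Agent.PTDM.C21
import Pool.Agent.PTDM.C22
import Pool.Agent.PTDM.C23
import Pool.Agent.PTDM.C24
import Pool.Agent.PTDM.C25
import Pool.Agent.PTDM.C26
import Pool.Agent.PTDM.C27
import Pool.Agent.PTDM.C28
import Pool.Agent.PTDM.C29
import Pool.Agent.PTDM.C30
import Pool.Agent.PTDM.C31
import Pool.Agent.PTDM.C32

/-! Parts: PT.AVV, PT.DIR, PT.GCHI, PT.IF4B, PT.NHO, PT.NRK, PT.SCJ, PT.SSL, PT.STM, PT.SUN, PT.Final, PT3.TTHT -/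

section

/-!
# Prime twists of rank zero: the value `AV`
-/

namespace Pool.Agent.PT

open Pool.Agent.Lib_helper18 Pool.Agent.Lib_helper18.Eis Pool.Agent.Lib_helper84.Cub

namespace AVV

theorem cast_ne {n : ℤ} (h : n ≠ 0) : (n : Eis) ≠ 0 := by
  intro h0
  apply h
  have h1 := congrArg Eis.re h0
  simpa using h1

/-- the symbol at a place is a symbol at its uniformizer -/
theorem lsym (hSTM : STM) (hSPP : SPP) (hSLC : SLC) (v : Pl) : ∃ e, LSym (uni v) (sy v) e := by
  cases v with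
  | none => exact ⟨4, hSLC⟩
  | some π => exact ⟨1, hSTM π.1 π.2.1 (hSPP.2.2.2.1 π).1⟩

end AVV

theorem AVV_thm (hSTM : STM) (hSPP : SPP) (hSLC : SLC) (hROOT : ROOT) : AVV := by
  intro v B b x p q p' q' hB hb hx hsol hs hlc
  obtain ⟨e, he⟩ := AVV.lsym hSTM hSPP hSLC v
  obtain ⟨N0, hN0⟩ := hROOT (uni v) (sy v) e he b x p q p' q' (B : Eis) hb hx hsol
    (AVV.cast_ne hB) hs
  obtain ⟨r0, hr0⟩ := hlc N0
  have h : ∃ c : ZMod 3, ∃ N0 : ℕ, ∀ r : ℤ, uni v ^ N0 ∣ (r : Eis) ^ 3 - (b : Eis) →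
      AS (sy v) (B : Eis) p q p' q' r = c :=
    ⟨AS (sy v) (B : Eis) p q p' q' r0, N0, fun r hr => hN0 r r0 hr hr0⟩
  have hav : AV v B b p q p' q' = h.choose := by
    unfold AV
    rw [dif_pos h]
  have h1 : ∃ N0 : ℕ, ∀ r : ℤ, uni v ^ N0 ∣ (r : Eis) ^ 3 - (b : Eis) →
      AS (sy v) (B : Eis) p q p' q' r = AV v B b p q p' q' := by
    rw [hav]
    exact h.choose_spec
  refine ⟨h1, fun c N hN => ?_⟩
  obtain ⟨M, hM⟩ := h1
  obtain ⟨r, hr⟩ := hlc (max M N)
  rw [← hM r ((pow_dvd_pow _ (le_max_left M N)).trans hr),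
    hN r ((pow_dvd_pow _ (le_max_right M N)).trans hr)]

end Pool.Agent.PT


end

section

/-!
# DIR: upper bound for the number of primes in an arithmetic progression
-/

namespace Pool.Agent.PT

open Pool.Agent.Lib_helper18 Pool.Agent.Lib_helper18.Eis Pool.Agent.Lib_helper84.Cub

namespace DIR

open Complex ArithmeticFunction ArithmeticFunction.vonMangoldt

variable {q : ℕ} [NeZero q] {a : ZMod q}

theorem upper (ha : IsUnit a) :
    ∃ C : ℝ, ∀ x : ℝ, x ∈ Set.Ioc (1:ℝ) 2 →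
      ∑' n, residueClass a n / (n : ℝ) ^ x ≤ (q.totient : ℝ)⁻¹ / (x - 1) + C := by
  have H {x : ℝ} (hx : 1 < x) :
      ∑' n, residueClass a n / (n : ℝ) ^ x =
        (LFunctionResidueClassAux a x).re + (q.totient : ℝ)⁻¹ / (x - 1) := by
    refine ofReal_injective ?_
    simp only [ofReal_tsum, ofReal_div, ofReal_cpow (Nat.cast_nonneg _), ofReal_natCast,
      ofReal_add, ofReal_inv, ofReal_sub, ofReal_one]
    simp_rw [← LFunctionResidueClassAux_real ha hx,
      eqOn_LFunctionResidueClassAux ha <| Set.mem_ofPred.mpr (ofReal_re x ▸ hx), sub_add_cancel,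
      LSeries, LSeries.term]
    refine tsum_congr fun n ↦ ?_
    split_ifs with hn
    · simp only [hn, residueClass_apply_zero, ofReal_zero, zero_div]
    · rfl
  have hc : ContinuousOn (fun x : ℝ ↦ (LFunctionResidueClassAux a x).re) (Set.Icc 1 2) :=
    continuous_re.continuousOn.comp (t := Set.univ) (continuousOn_LFunctionResidueClassAux a)
      (fun ⦃x⦄ a ↦ trivial) |>.comp continuous_ofReal.continuousOn fun x hx ↦ by
        simpa only [Set.mem_ofPred_eq, ofReal_re] using hx.1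
  obtain ⟨C, hC⟩ := bddAbove_def.mp <| IsCompact.bddAbove_image isCompact_Icc hc
  replace hC {x : ℝ} (hx : x ∈ Set.Icc 1 2) : (LFunctionResidueClassAux a x).re ≤ C :=
    hC (LFunctionResidueClassAux a x).re <|
      Set.mem_image_of_mem (fun x : ℝ ↦ (LFunctionResidueClassAux a x).re) hx
  refine ⟨C, fun x hx ↦ ?_⟩
  rw [H hx.1, add_comm]
  exact add_le_add_right (hC (Set.mem_Icc_of_Ioc hx)) _

theorem summ {x : ℝ} (hx : 1 < x) : Summable fun n : ℕ => residueClass a n / (n : ℝ) ^ x :=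
  LSeries.summable_real_of_abscissaOfAbsConv_lt <|
    (abscissaOfAbsConv_residueClass_le_one a).trans_lt <| mod_cast hx

theorem part (T : Finset {p : ℕ // p.Prime ∧ (p : ZMod q) = a}) {x : ℝ} (hx : 1 < x) :
    ∑ p ∈ T, Real.log (p : ℕ) * ((p : ℕ) : ℝ) ^ (-x) ≤ ∑' n, residueClass a n / (n : ℝ) ^ x := by
  classical
  have h1 : ∑ p ∈ T, Real.log (p : ℕ) * ((p : ℕ) : ℝ) ^ (-x) =
      ∑ n ∈ T.map (Function.Embedding.subtype _), residueClass a n / (n : ℝ) ^ x := by
    rw [Finset.sum_map]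
    refine Finset.sum_congr rfl fun p _ => ?_
    change Real.log (p : ℕ) * ((p : ℕ) : ℝ) ^ (-x) = residueClass a (p : ℕ) / ((p : ℕ) : ℝ) ^ x
    have h2 : residueClass a (p : ℕ) = Real.log (p : ℕ) := by
      have h3 : residueClass a (p : ℕ) = vonMangoldt (p : ℕ) := by
        rw [residueClass, Set.indicator_of_mem]
        exact p.2.2
      rw [h3, vonMangoldt_apply_prime p.2.1]
    rw [h2, Real.rpow_neg (Nat.cast_nonneg _), div_eq_mul_inv]
  rw [h1]
  refine (summ hx).sum_le_tsum _ fun n _ => ?_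
  exact div_nonneg (residueClass_nonneg a n) (Real.rpow_nonneg (Nat.cast_nonneg _) _)

end DIR

/-- DIR. -/
theorem DIR_thm : DIR := by
  classical
  intro f a hf
  haveI : NeZero f := ⟨hf.ne'⟩
  obtain ⟨C, hC⟩ := DIR.upper (a := (a : ZMod f)) a.isUnit
  obtain ⟨D, hD⟩ : ∃ D : ℝ, D = |C| := ⟨_, rfl⟩
  have hD0 : 0 ≤ D := by rw [hD]; exact abs_nonneg _
  have hCD : C ≤ D := by rw [hD]; exact le_abs_self _
  obtain ⟨c, hc⟩ : ∃ c : ℝ, c = 1 / (f.totient : ℝ) := ⟨_, rfl⟩
  have hc0 : 0 ≤ c := by rw [hc]; positivity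
  have hs2 : Summable fun n : ℕ => (n : ℝ) ^ (-(2:ℝ)) := by
    rw [Real.summable_nat_rpow]
    norm_num
  obtain ⟨Z, hZ⟩ : ∃ Z : ℝ, Z = ∑' n : ℕ, (n : ℝ) ^ (-(2:ℝ)) := ⟨_, rfl⟩
  have hZ0 : 0 ≤ Z := by
    rw [hZ]
    exact tsum_nonneg fun n => Real.rpow_nonneg (Nat.cast_nonneg _) _
  refine ⟨D + Z, ?_⟩
  intro s hs1 hs2'
  have hlog : 0 ≤ Real.log (1 / (s - 1)) := by
    apply Real.log_nonneg
    rw [le_div_iff₀ (by linarith)]
    linarith
  rw [← hc]
  apply tsum_le_of_sum_le' (by positivity)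
  intro T
  obtain ⟨H, hH⟩ : ∃ H : ℝ → ℝ, H = fun x => ∑ p ∈ T, ((p : ℕ) : ℝ) ^ (-x) +
    c * Real.log (x - 1) + D * x := ⟨_, rfl⟩
  have hder : ∀ x : ℝ, 1 < x → HasDerivAt H (∑ p ∈ T, Real.log (p : ℕ) * (-1) *
      ((p : ℕ) : ℝ) ^ (-x) + c * (1 / (x - 1)) + D * 1) x := by
    intro x hx
    rw [hH]
    refine ((HasDerivAt.fun_sum fun p _ => ?_).add ?_).add ((hasDerivAt_id x).const_mul D)
    · have hp : (0:ℝ) < ((p : ℕ) : ℝ) := by exact_mod_cast p.2.1.pos
      exact (hasDerivAt_neg x).const_rpow hp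
    · exact (((hasDerivAt_id x).sub_const 1).log (by simp only [id]; linarith)).const_mul c
  have hmono : MonotoneOn H (Set.Ioc 1 2) := by
    apply monotoneOn_of_deriv_nonneg (convex_Ioc 1 2)
    · intro x hx
      exact (hder x hx.1).continuousAt.continuousWithinAt
    · intro x hx
      rw [interior_Ioc] at hx
      exact (hder x hx.1).differentiableAt.differentiableWithinAt
    · intro x hx
      rw [interior_Ioc] at hx
      rw [(hder x hx.1).deriv]
      have h1 := DIR.part (a := (a : ZMod f)) T hx.1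
      have h2 := hC x ⟨hx.1, hx.2.le⟩
      have h3 : ∑ p ∈ T, Real.log (p : ℕ) * (-1) * ((p : ℕ) : ℝ) ^ (-x) =
          - ∑ p ∈ T, Real.log (p : ℕ) * ((p : ℕ) : ℝ) ^ (-x) := by
        rw [← Finset.sum_neg_distrib]
        exact Finset.sum_congr rfl fun p _ => by ring
      rw [h3]
      have h4 : c * (1 / (x - 1)) = (f.totient : ℝ)⁻¹ / (x - 1) := by
        rw [hc]
        ring
      rw [h4]
      linarith
  have h5 := hmono ⟨hs1, hs2'⟩ ⟨by norm_num, le_refl (2:ℝ)⟩ hs2'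
  rw [hH] at h5
  have h6 : ∑ p ∈ T, ((p : ℕ) : ℝ) ^ (-(2:ℝ)) ≤ Z := by
    have h7 : ∑ p ∈ T, ((p : ℕ) : ℝ) ^ (-(2:ℝ)) =
        ∑ n ∈ T.map (Function.Embedding.subtype _), (n : ℝ) ^ (-(2:ℝ)) := by
      rw [Finset.sum_map]
      rfl
    rw [h7, hZ]
    exact hs2.sum_le_tsum _ fun n _ => Real.rpow_nonneg (Nat.cast_nonneg _) _
  have h8 : Real.log (1 / (s - 1)) = - Real.log (s - 1) := by
    rw [one_div, Real.log_inv]
  have h9 : Real.log ((2:ℝ) - 1) = 0 := by norm_num
  simp only at h5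
  rw [h9] at h5
  rw [h8]
  nlinarith

end Pool.Agent.PT


end

section

/-!
# GCHI: the cyclotomic character
-/

open NumberField
open scoped nonZeroDivisors Pointwise

namespace Pool.Agent.PT

open Pool.Agent.Lib_helper18 Pool.Agent.Lib_helper18.Eis Pool.Agent.Lib_helper84.Cub

namespace GCHI

theorem under_eq {L : Type} [Field L] [NumberField L] {q : ℕ} (hq : q.Prime) {Q : Ideal (𝓞 L)}
    (hQ : Q.IsPrime) (h : (q : 𝓞 L) ∈ Q) : Q.under ℤ = Ideal.span {(q : ℤ)} := by
  have hmax : (Ideal.span {(q : ℤ)}).IsMaximal :=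
    (Ideal.span_singleton_prime (by exact_mod_cast hq.ne_zero)).mpr
      (Nat.prime_iff_prime_int.mp hq) |>.isMaximal (by
        rw [Ne, Ideal.span_singleton_eq_bot]
        exact_mod_cast hq.ne_zero)
  refine (hmax.eq_of_le (Ideal.IsPrime.under ℤ Q).ne_top ?_).symm
  rw [Ideal.span_singleton_le_iff_mem, Ideal.mem_comap]
  simpa using h

theorem card_eq {L : Type} [Field L] [NumberField L] {q : ℕ} (hq : q.Prime) {Q : Ideal (𝓞 L)}
    (hQ : Q.IsPrime) (h : (q : 𝓞 L) ∈ Q) : Nat.card (ℤ ⧸ Q.under ℤ) = q := by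
  rw [under_eq hq hQ h, Nat.card_congr (Int.quotientSpanNatEquivZMod q).toEquiv, Nat.card_zmod]

end GCHI

open _root_.Pool.Agent.PT.GCHI in
theorem GCHI_thm : GCHI := by
  intro L _ _ _ f ζ hf hζ
  have hf0 : NeZero f := ⟨hf.ne'⟩
  have key : ∀ (g : L ≃ₐ[ℚ] L) (u : (ZMod f)ˣ) (k : ℕ), g ζ = ζ ^ k →
      (k : ZMod f) = (u : ZMod f) → hζ.autToPow ℚ g = u := by
    intro g u k hg hk
    apply Units.ext
    have h2 := hζ.autToPow_spec ℚ g
    have h4 : ζ ^ k = ζ ^ (k % f) := by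
      conv_lhs => rw [← Nat.mod_add_div k f, pow_add, pow_mul, hζ.pow_eq_one, one_pow, mul_one]
    rw [hg, h4] at h2
    have h3 := hζ.pow_inj (ZMod.val_lt _) (Nat.mod_lt _ hf) h2
    rw [← hk]
    apply ZMod.val_injective f
    rw [ZMod.val_natCast]
    exact h3
  refine ⟨hζ.autToPow ℚ, ?_, fun g => (hζ.autToPow_spec ℚ g).symm, ?_⟩
  · intro u
    have hcop : ((u : ZMod f).val).Coprime f := ZMod.val_coe_unit_coprime u
    have hprim : IsPrimitiveRoot (ζ ^ (u : ZMod f).val) f := hζ.pow_of_coprime _ hcop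
    have h1 : Polynomial.aeval (ζ ^ (u : ZMod f).val) (minpoly ℚ ζ) = 0 := by
      rw [← Polynomial.cyclotomic_eq_minpoly_rat hζ hf,
        Polynomial.cyclotomic_eq_minpoly_rat hprim hf]
      exact minpoly.aeval _ _
    obtain ⟨σ, hσ⟩ := minpoly.exists_algEquiv_of_root' (Algebra.IsAlgebraic.isAlgebraic ζ) h1
    exact ⟨σ, key σ u _ hσ (ZMod.natCast_zmod_val _)⟩
  · intro Q hQ hQp P φ hP hQP hF
    let ζ' : 𝓞 L := ⟨ζ, hζ.isIntegral hf⟩
    have hζ' : ζ' ^ f = 1 := by
      apply RingOfIntegers.ext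
      show ζ ^ f = 1
      exact hζ.pow_eq_one
    have hfP : ((f : ℕ) : 𝓞 L) ∉ P := by
      intro hfP
      apply hP.ne_top
      rw [Ideal.eq_top_iff_one]
      have h1 : (1 : 𝓞 L) = (Q : 𝓞 L) * (Nat.gcdA Q f : ℤ) + (f : 𝓞 L) * (Nat.gcdB Q f : ℤ) := by
        have h2 := Nat.gcd_eq_gcd_ab Q f
        rw [hQ] at h2
        have h3 := congrArg (Int.cast : ℤ → 𝓞 L) h2
        push_cast at h3
        exact h3
      rw [h1]
      exact P.add_mem (P.mul_mem_right _ hQP) (P.mul_mem_right _ hfP)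
    have h := AlgHom.IsArithFrobAt.apply_of_pow_eq_one hF hζ' hfP
    rw [card_eq hQp hP hQP] at h
    have h2 : φ ζ = ζ ^ Q := by
      have h3 := congrArg (fun z : 𝓞 L => (z : L)) h
      exact h3
    exact key φ _ Q h2 (by simp)

end Pool.Agent.PT


end

section

/-!
# The symbol of `F_1 / F_2` and `n_0`
-/

namespace Pool.Agent.PT

open Pool.Agent.Lib_helper18 Pool.Agent.Lib_helper18.Eis Pool.Agent.Lib_helper84.Cub

namespace IF4B

theorem not_dvd {π a : Eis} (hπ : Prime π) (ha : a ≠ 0) {N : ℕ} (hN : V π a < N) :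
    ¬ π ^ N ∣ a := by
  intro h
  have h1 := (fin hπ ha).le_multiplicity_of_pow_dvd h
  exact absurd h1 (by
    change ¬ N ≤ V π a
    omega)

theorem w_pow (i : ℕ) : w ^ i = w ^ (i % 3) := by
  conv_lhs => rw [← Nat.div_add_mod i 3, pow_add, pow_mul, w_cube, one_pow, one_mul]

theorem prod_eq (X ξ Y : Eis) : (X + w ^ 0 * ξ * Y) * (X + w ^ 1 * ξ * Y) * (X + w ^ 2 * ξ * Y) =
    X ^ 3 + ξ ^ 3 * Y ^ 3 := by
  have h1 := w_rel
  have h2 := w_cube
  linear_combination (X ^ 2 * ξ * Y + X * ξ ^ 2 * Y ^ 2) * h1 +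
    (X * ξ ^ 2 * Y ^ 2 + ξ ^ 3 * Y ^ 3) * h2

end IF4B

open _root_.Pool.Agent.PT.IF4B

theorem IF4B_thm (hSTAR : STAR) : IF4B := by
  intro π s e hs x X Y hx _ _ hn
  have hn' : ((X ^ 3 + x * Y ^ 3 : ℤ) : Eis) ≠ 0 := by
    intro h
    have h1 := congrArg Eis.re h
    rw [intCast_re] at h1
    exact hn h1
  have hx' : (x : Eis) ≠ 0 := by
    intro h
    have h1 := congrArg Eis.re h
    rw [intCast_re] at h1
    exact hx h1
  have hw : w ≠ 0 := by
    intro h
    have h1 := congrArg Eis.im h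
    simp at h1
  set n0 : Eis := ((X ^ 3 + x * Y ^ 3 : ℤ) : Eis) with hn0
  refine ⟨V π n0 + V π (x : Eis) + e + 1, fun ξ hξ => ?_⟩
  have hξ0 : (ξ : Eis) ≠ 0 := by
    intro h
    rw [h] at hξ
    refine not_dvd hs.prime hx' (N := V π n0 + V π (x : Eis) + e + 1) (by omega) ?_
    have h1 : (0 : Eis) ^ 3 - (x : Eis) = -(x : Eis) := by ring
    rw [h1, dvd_neg] at hξ
    exact hξ
  have hprod := prod_eq (X : Eis) (ξ : Eis) (Y : Eis)
  have hdvd : π ^ (V π n0 + V π (x : Eis) + e + 1) ∣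
      (X : Eis) ^ 3 + (ξ : Eis) ^ 3 * (Y : Eis) ^ 3 - n0 := by
    have h1 : (X : Eis) ^ 3 + (ξ : Eis) ^ 3 * (Y : Eis) ^ 3 - n0 =
        ((ξ : Eis) ^ 3 - (x : Eis)) * (Y : Eis) ^ 3 := by
      rw [hn0]
      push_cast
      ring
    rw [h1]
    exact Dvd.dvd.mul_right hξ _
  have hne : (X : Eis) ^ 3 + (ξ : Eis) ^ 3 * (Y : Eis) ^ 3 ≠ 0 := by
    intro h
    rw [h, zero_sub, dvd_neg] at hdvd
    exact not_dvd hs.prime hn' (by omega) hdvd
  set F : ℕ → Eis := fun i => (X : Eis) + w ^ i * (ξ : Eis) * (Y : Eis) with hF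
  have hF3 : F 0 * F 1 * F 2 = (X : Eis) ^ 3 + (ξ : Eis) ^ 3 * (Y : Eis) ^ 3 := hprod
  have hF0 : F 0 ≠ 0 := by
    intro h
    rw [h, zero_mul, zero_mul] at hF3
    exact hne hF3.symm
  have hF1 : F 1 ≠ 0 := by
    intro h
    rw [h, mul_zero, zero_mul] at hF3
    exact hne hF3.symm
  have hF2 : F 2 ≠ 0 := by
    intro h
    rw [h, mul_zero] at hF3
    exact hne hF3.symm
  have hFi : ∀ i, F i ≠ 0 := by
    intro i
    have h1 : F i = F (i % 3) := by
      simp only [hF]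
      rw [w_pow i]
    rw [h1]
    have h2 : i % 3 < 3 := Nat.mod_lt _ (by norm_num)
    interval_cases i % 3
    · exact hF0
    · exact hF1
    · exact hF2
  have h1 := (hSTAR π s e hs (X : Eis) (Y : Eis) 0 0 (ξ : Eis) F (fun _ => 0) (fun _ => 0)
    (fun _ => rfl) (fun i => by simp) (fun i => by simp) hξ0 hFi).1
  have hcont : ∀ b : Eis, b ≠ 0 → s b (F 0 * F 1 * F 2) = s b n0 := by
    intro b hb
    rw [hs.skew _ b (hF3 ▸ hne) hb, hs.skew n0 b hn' hb, hF3]
    congr 1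
    refine hs.cont n0 _ b hn' hb ((pow_dvd_pow π ?_).trans hdvd)
    omega
  rw [hcont _ hF1, hcont _ hF2, hcont _ hw] at h1
  have h2 : ∀ i, Lf X Y i ξ = F i := by
    intro i
    simp only [Lf, hF]
    ring
  rw [h2, h2]
  exact h1

end Pool.Agent.PT


end

section

/-!
# NHO: the first cohomology of the `S`-units
-/

open NumberField IsDedekindDomain Finset
open scoped nonZeroDivisors Pointwise

namespace Pool.Agent.PT

open Pool.Agent.Lib_helper18 Pool.Agent.Lib_helper18.Eis Pool.Agent.Lib_helper84.Cub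

namespace NHO

variable {L : Type} [Field L] [NumberField L]

lemma mem_SU (ι : Eis →+* L) (S : Finset Pl) (u : Lˣ) :
    u ∈ SU ι S ↔ ∀ P : HeightOneSpectrum (𝓞 L), (∀ v ∈ S, P ∉ Abv ι v) →
      P.valuation L (u : L) = 1 := by
  constructor
  · intro h P hP
    exact h P (by
      intro hmem
      simp only [Set.mem_iUnion] at hmem
      obtain ⟨v, hv, hPv⟩ := hmem
      exact hP v hv hPv)
  · intro h P hP
    refine h P ?_
    intro v hv hPv
    apply hP
    simp only [Set.mem_iUnion]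
    exact ⟨v, hv, hPv⟩

lemma supp_fin (y : L) (hy : y ≠ 0) :
    {P : HeightOneSpectrum (𝓞 L) | P.valuation L y ≠ 1}.Finite := by
  have h1 := HeightOneSpectrum.Support.finite (𝓞 L) y
  have h2 := HeightOneSpectrum.Support.finite (𝓞 L) y⁻¹
  refine (h1.union h2).subset ?_
  intro P hP
  have hP' : P.valuation L y ≠ 1 := hP
  rcases lt_or_gt_of_ne hP' with h | h
  · right
    change 1 < P.valuation L y⁻¹
    rw [map_inv₀]
    have hne : P.valuation L y ≠ 0 := (Valuation.ne_zero_iff _).2 hy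
    exact (one_lt_inv₀ (zero_lt_iff.2 hne)).2 h
  · left
    exact h

end NHO

open _root_.Pool.Agent.PT.NHO in
theorem NHO_thm (hSPP : SPP) (hNHN : NHN) (hNTR : NTR) : NHO := by
  intro x L _ _ ι θ σ c hx h3x hC S hnone hS
  obtain ⟨hN1, hN2, hN3⟩ := hNHN x L ι θ σ c hx hC
  obtain ⟨hT1, hT2, hT3, hT4, hT5, hT6⟩ := hNTR x L ι θ σ c hx h3x hC
  obtain ⟨-, hP2, -, hP4, -, -⟩ := hSPP
  -- the prime `P2` with `P2 z = P (σ z)`
  have hpull : ∀ P : HeightOneSpectrum (𝓞 L), ∃ P₂ : HeightOneSpectrum (𝓞 L),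
      ∀ z : L, P₂.valuation L z = P.valuation L (σ z) := by
    intro P
    obtain ⟨P₁, h₁⟩ := hT3 P
    obtain ⟨P₂, h₂⟩ := hT3 P₁
    refine ⟨P₂, fun z => ?_⟩
    rw [← h₁ (σ z), ← h₂ (σ (σ z)), hN1]
  have hAbv : ∀ (P P₂ : HeightOneSpectrum (𝓞 L)),
      (∀ z : L, P₂.valuation L z = P.valuation L (σ z)) → ∀ v, P₂ ∈ Abv ι v ↔ P ∈ Abv ι v := by
    intro P P₂ h v
    change P₂.valuation L (ι (uni v)) < 1 ↔ P.valuation L (ι (uni v)) < 1
    rw [h, hC.sι]
  have hsm : ∀ u : Lˣ, ((σ • u : Lˣ) : L) = σ (u : L) := fun u => rfl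
  constructor
  · intro u hu
    rw [mem_SU] at hu ⊢
    intro P hP
    obtain ⟨P₂, h₂⟩ := hpull P
    rw [hsm, ← h₂]
    refine hu P₂ ?_
    intro v hv hmem
    exact hP v hv ((hAbv P P₂ h₂ v).1 hmem)
  · intro u hu hprod
    rw [mem_SU] at hu
    obtain ⟨y, hy⟩ := hN3 u hprod
    -- uniqueness of the place below
    have hlam : ∀ π : PP, ¬ π.1 ∣ lam := by
      intro π h
      exact (hP4 π).1 (h.trans lam_dvd_three)
    have huniq : ∀ (π : PP) (v : Pl) (P : HeightOneSpectrum (𝓞 L)), P ∈ Abv ι (some π) →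
        P ∈ Abv ι v → v = some π := by
      intro π v P hP hPv
      obtain ⟨v₀, -, hv₀⟩ := hT2 P
      have h1 := hv₀ _ hP
      have h2 := hv₀ _ hPv
      have key : ∀ w' : Pl, uni v₀ ∣ uni w' → w' = v₀ := by
        intro w' hd
        cases v₀ with
        | none =>
          cases w' with
          | none => rfl
          | some π' =>
            exfalso
            have : Associated lam π'.1 := prime_lam.associated_of_dvd π'.2.1 hd
            exact hlam π' this.symm.dvd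
        | some π₀ =>
          cases w' with
          | none => exact absurd hd (hlam π₀)
          | some π' =>
            have : Associated π₀.1 π'.1 := π₀.2.1.associated_of_dvd π'.2.1 hd
            rw [hP2 _ _ this]
      exact (key v h2).trans (key (some π) h1).symm
    -- valuations of `y` at the primes above a place outside `S`
    have hval : ∀ P : HeightOneSpectrum (𝓞 L), (∀ v ∈ S, P ∉ Abv ι v) →
        P.valuation L (σ (y : L)) = P.valuation L (y : L) := by
      intro P hP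
      have h1 := hu P hP
      rw [hy, Units.val_div_eq_div_val, map_div₀, hsm] at h1
      have hne : P.valuation L (σ (y : L)) ≠ 0 :=
        (Valuation.ne_zero_iff _).2 (by simp)
      exact ((div_eq_one_iff_eq hne).1 h1).symm
    have hout : ∀ (π : PP), some π ∉ S → ∀ P ∈ Abv ι (some π), ∀ v ∈ S, P ∉ Abv ι v := by
      intro π hπ P hP v hv hPv
      exact hπ (huniq π v P hP hPv ▸ hv)
    have hconst : ∀ (π : PP), some π ∉ S → ∀ i : ℕ, ∀ P ∈ Abv ι (some π),
        P.valuation L ((σ ^ i) (y : L)) = P.valuation L (y : L) := by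
      intro π hπ i
      induction i with
      | zero => intro P _; simp
      | succ i ih =>
        intro P hP
        obtain ⟨P₂, h₂⟩ := hpull P
        have hP₂ : P₂ ∈ Abv ι (some π) := (hAbv P P₂ h₂ _).2 hP
        have e : (σ ^ (i + 1)) (y : L) = σ ((σ ^ i) (y : L)) := by
          rw [pow_succ']; rfl
        rw [e, ← h₂, ih P₂ hP₂, h₂, hval P (hout π hπ P hP)]
    have hsame : ∀ (π : PP), some π ∉ S → ∀ P ∈ Abv ι (some π), ∀ P' ∈ Abv ι (some π),
        P'.valuation L (y : L) = P.valuation L (y : L) := by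
      intro π hπ P hP P' hP'
      obtain ⟨i, hi⟩ := hT5 (some π) P P' hP hP'
      rw [← hi, hconst π hπ i P' hP']
    -- the finite set of places
    have hfin : {π : PP | ∃ P ∈ Abv ι (some π), P.valuation L (y : L) ≠ 1}.Finite := by
      have h1 := supp_fin (y : L) (by simp)
      have h2 : (⋃ P ∈ {P : HeightOneSpectrum (𝓞 L) | P.valuation L (y : L) ≠ 1},
          {π : PP | P ∈ Abv ι (some π)}).Finite := by
        refine h1.biUnion fun P _ => ?_
        refine Set.Subsingleton.finite ?_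
        intro π hπ π' hπ'
        have := huniq π (some π') P hπ hπ'
        exact (Option.some_injective _ this).symm
      refine h2.subset ?_
      rintro π ⟨P, hP, hne⟩
      simp only [Set.mem_iUnion]
      exact ⟨P, hne, hP⟩
    -- the exponents
    have hexp : ∀ π : PP, ∃ n : ℤ, some π ∉ S → ∀ P ∈ Abv ι (some π),
        P.valuation L (y : L) = WithZero.exp n := by
      intro π
      by_cases hπ : some π ∈ S
      · exact ⟨0, fun h => absurd hπ h⟩
      · obtain ⟨P, hP⟩ := (hT4 (some π)).2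
        have hne : P.valuation L (y : L) ≠ 0 := (Valuation.ne_zero_iff _).2 (by simp)
        refine ⟨WithZero.log (P.valuation L (y : L)), fun _ P' hP' => ?_⟩
        rw [hsame π hπ P hP P' hP', WithZero.exp_log hne]
    choose n hn using hexp
    have hι : ∀ π : PP, ι π.1 ≠ 0 := by
      intro π h
      exact π.2.1.ne_zero (hC.inj (h.trans (map_zero ι).symm))
    set T : Finset PP := hfin.toFinset with hT
    set g : Lˣ := ∏ π ∈ T, (Units.mk0 (ι π.1) (hι π)) ^ n π with hg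
    have hσg : σ • g = g := by
      rw [hg, Finset.smul_prod']
      refine Finset.prod_congr rfl fun π _ => ?_
      rw [smul_zpow']
      congr 1
      ext
      rw [hsm]
      exact hC.sι _
    have hvg : ∀ P : HeightOneSpectrum (𝓞 L), P.valuation L (g : L) =
        ∏ π ∈ T, (P.valuation L (ι π.1)) ^ n π := by
      intro P
      rw [hg, Units.coe_prod, map_prod]
      refine Finset.prod_congr rfl fun π _ => ?_
      rw [Units.val_zpow_eq_zpow_val, map_zpow₀]
      rfl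
    refine ⟨y * g, ?_, ?_⟩
    · rw [mem_SU]
      intro P hP
      obtain ⟨v₀, hv₀, -⟩ := hT2 P
      have hv₀S : v₀ ∉ S := fun h => hP v₀ h hv₀
      cases v₀ with
      | none => exact absurd hnone hv₀S
      | some π₀ =>
        have hother : ∀ π : PP, π ≠ π₀ → P.valuation L (ι π.1) = 1 := by
          intro π hπ
          refine le_antisymm (hT1 P π.1) ?_
          by_contra hlt
          have : P ∈ Abv ι (some π) := not_le.1 hlt
          exact hπ (Option.some_injective _ (huniq π₀ (some π) P hv₀ this))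
        have hself : P.valuation L (ι π₀.1) = WithZero.exp (-1 : ℤ) := by
          refine hT6 π₀ P ?_ hv₀
          intro hd
          exact hv₀S (hS π₀ hd)
        rw [Units.val_mul, map_mul, hvg, hn π₀ hv₀S P hv₀]
        by_cases hmem : π₀ ∈ T
        · rw [Finset.prod_eq_single π₀ (fun π _ hπ => by rw [hother π hπ, one_zpow])
            (fun h => absurd hmem h), hself, ← WithZero.exp_zsmul, ← WithZero.exp_add]
          simp
        · rw [Finset.prod_eq_one (fun π hπ => by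
            rw [hother π (fun h => hmem (h ▸ hπ)), one_zpow]), mul_one]
          have h1 : P.valuation L (y : L) = 1 := by
            by_contra hne
            exact hmem (hfin.mem_toFinset.2 ⟨P, hv₀, hne⟩)
          rw [← hn π₀ hv₀S P hv₀, h1]
    · rw [hy, smul_mul', hσg, mul_div_mul_right_eq_div]

end Pool.Agent.PT


end

section

/-!
# Prime twists of rank zero: the unit rank of `Q(w, x^(1/3))`
-/

open NumberField IsDedekindDomain Finset
open scoped nonZeroDivisors Pointwise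

namespace Pool.Agent.PT

open Pool.Agent.Lib_helper18 Pool.Agent.Lib_helper18.Eis Pool.Agent.Lib_helper84.Cub

namespace NRK

/-- the basis of `L` over `ℚ` -/
def bv {L : Type} [Field L] (ι : Eis →+* L) (θ : L) : Fin 6 → L :=
  ![1, ι w, θ, ι w * θ, θ ^ 2, ι w * θ ^ 2]

theorem iota_eq {L : Type} [Field L] (ι : Eis →+* L) (a : Eis) :
    ι a = (a.re : L) + (a.im : L) * ι w := by
  conv_lhs => rw [eq_re_add_im a]
  simp

theorem bv_indep {x : ℤ} {L : Type} [Field L] [NumberField L] {ι : Eis →+* L} {θ : L}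
    {σ c : L ≃ₐ[ℚ] L} (h : CubF x L ι θ σ c) : LinearIndependent ℚ (bv ι θ) := by
  rw [← LinearIndependent.iff_fractionRing ℤ ℚ, Fintype.linearIndependent_iff]
  intro g hg
  rw [Fin.sum_univ_six] at hg
  simp only [bv, Matrix.cons_val, zsmul_eq_mul] at hg
  obtain ⟨h1, h2, h3⟩ := h.lin ⟨g 0, g 1⟩ ⟨g 2, g 3⟩ ⟨g 4, g 5⟩ (by
    rw [iota_eq ι ⟨g 0, g 1⟩, iota_eq ι ⟨g 2, g 3⟩, iota_eq ι ⟨g 4, g 5⟩]
    simp only
    rw [← hg]
    ring)
  have e1 := congrArg Eis.re h1
  have e2 := congrArg Eis.im h1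
  have e3 := congrArg Eis.re h2
  have e4 := congrArg Eis.im h2
  have e5 := congrArg Eis.re h3
  have e6 := congrArg Eis.im h3
  simp only [zero_re, zero_im] at e1 e2 e3 e4 e5 e6
  intro i
  fin_cases i <;> assumption

theorem bv_span {x : ℤ} {L : Type} [Field L] [NumberField L] {ι : Eis →+* L} {θ : L}
    {σ c : L ≃ₐ[ℚ] L} (h : CubF x L ι θ σ c) : ⊤ ≤ Submodule.span ℚ (Set.range (bv ι θ)) := by
  intro z _
  obtain ⟨m, a, b, d, hm, hz⟩ := h.rep z
  have hmL : (m : L) ≠ 0 := Int.cast_ne_zero.mpr hm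
  have hz' : z = ((m : ℚ)⁻¹) • ((a.re : ℚ) • bv ι θ 0 + (a.im : ℚ) • bv ι θ 1 +
      (b.re : ℚ) • bv ι θ 2 + (b.im : ℚ) • bv ι θ 3 +
      (d.re : ℚ) • bv ι θ 4 + (d.im : ℚ) • bv ι θ 5) := by
    simp only [bv, Matrix.cons_val, Algebra.smul_def, map_inv₀, map_intCast]
    rw [iota_eq ι a, iota_eq ι b, iota_eq ι d] at hz
    field_simp
    rw [mul_comm z, hz]
    ring
  have hmem : ∀ i, bv ι θ i ∈ Submodule.span ℚ (Set.range (bv ι θ)) := fun i =>
    Submodule.subset_span ⟨i, rfl⟩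
  rw [hz']
  refine Submodule.smul_mem _ _ ?_
  refine Submodule.add_mem _ (Submodule.add_mem _ (Submodule.add_mem _ (Submodule.add_mem _
    (Submodule.add_mem _ ?_ ?_) ?_) ?_) ?_) ?_ <;> exact Submodule.smul_mem _ _ (hmem _)

theorem finrank_six {x : ℤ} {L : Type} [Field L] [NumberField L] {ι : Eis →+* L} {θ : L}
    {σ c : L ≃ₐ[ℚ] L} (h : CubF x L ι θ σ c) : Module.finrank ℚ L = 6 := by
  rw [Module.finrank_eq_card_basis (Module.Basis.mk (bv_indep h) (bv_span h))]
  simp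

theorem prim {x : ℤ} {L : Type} [Field L] [NumberField L] {ι : Eis →+* L} {θ : L}
    {σ c : L ≃ₐ[ℚ] L} (h : CubF x L ι θ σ c) : IsPrimitiveRoot (ι w) 3 := by
  have h3 : (ι w) ^ 3 = 1 := by rw [← map_pow, w_cube, map_one]
  have h1 : ι w ≠ 1 := by
    intro he
    rw [← map_one ι] at he
    have := congrArg Eis.im (h.inj he)
    simp at this
  have := orderOf_eq_prime (p := 3) h3 h1
  rw [← this]
  exact IsPrimitiveRoot.orderOf _

end NRK

/-- NRK: the unit rank. -/
theorem NRK_thm : NRK := by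
  intro x L _ _ ι θ σ c h
  have h6 := NRK.finrank_six h
  have hr : NumberField.InfinitePlace.nrRealPlaces L = 0 :=
    NumberField.InfinitePlace.IsPrimitiveRoot.nrRealPlaces_eq_zero_of_two_lt (by norm_num)
      (NRK.prim h)
  have hc := NumberField.InfinitePlace.card_add_two_mul_card_eq_rank L
  have ht := NumberField.InfinitePlace.card_eq_nrRealPlaces_add_nrComplexPlaces L
  unfold NumberField.Units.rank
  rw [ht]
  omega

end Pool.Agent.PT


end

section

/-!
# SCJ: complex conjugation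
-/

namespace Pool.Agent.PT

open Pool.Agent.Lib_helper18 Pool.Agent.Lib_helper18.Eis Pool.Agent.Lib_helper84.Cub

namespace SCJ

/-- the unit part -/
theorem up_eq {π a c : Eis} {n : ℕ} (hπ : Prime π) (ha : a = π ^ n * c) (hc : ¬ π ∣ c) :
    V π a = n ∧ up π a = c := by
  have h1 : V π a = n := by rw [ha]; exact V_pow_mul hπ n hc
  refine ⟨h1, ?_⟩
  unfold up
  rw [h1, ha]
  exact mul_div_cancel_left₀ c (pow_ne_zero n hπ.ne_zero)

theorem conj_ne_zero {a : Eis} (ha : a ≠ 0) : conj a ≠ 0 := by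
  intro h
  apply ha
  rw [← conj_conj a, h, map_zero]

theorem V_ch_conj {π a : Eis} (hπ : Prime π) (h3 : ¬ π ∣ 3) (ha : a ≠ 0) :
    V (conj π) (conj a) = V π a ∧ ch (conj π) (conj a) = - ch π a := by
  obtain ⟨c, hc, hpc⟩ := V_split hπ ha
  have h1 : conj a = conj π ^ (V π a) * conj c := by
    conv_lhs => rw [hc]
    rw [map_mul, map_pow]
  have hpc' : ¬ conj π ∣ conj c := fun h => hpc (conj_dvd_iff.mp h)
  obtain ⟨e1, e2⟩ := up_eq (prime_conj hπ) h1 hpc'
  obtain ⟨-, e3⟩ := up_eq hπ hc hpc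
  refine ⟨e1, ?_⟩
  unfold ch
  rw [e2, e3]
  exact sym_conj hπ h3 hpc

theorem tm_conj {π a b : Eis} (hπ : Prime π) (h3 : ¬ π ∣ 3) (ha : a ≠ 0) (hb : b ≠ 0) :
    tm (conj π) (conj a) (conj b) = - tm π a b := by
  unfold tm
  rw [(V_ch_conj hπ h3 ha).1, (V_ch_conj hπ h3 ha).2, (V_ch_conj hπ h3 hb).1,
    (V_ch_conj hπ h3 hb).2]
  ring

theorem intCast_ne {m : ℤ} (hm : m ≠ 0) : (m : Eis) ≠ 0 := by
  intro h
  apply hm
  have := congrArg Eis.re h
  simpa using this

theorem eq_zero_of_neg {x : ZMod 3} (h : x = - x) : x = 0 := by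
  revert h
  revert x
  decide

end SCJ

open _root_.Pool.Agent.PT.SCJ in
set_option linter.unusedVariables false in
theorem SCJ_thm (hSTM : STM) (hSPP : SPP) (hSSL : SSL) : SCJ := by
  have h2 : ∀ a b : Eis, a ≠ 0 → b ≠ 0 → sl (conj a) (conj b) = - sl a b := by
    intro a b ha hb
    choose h3 hc using hSPP.2.2.2.1
    choose σ hσ using hc
    have hinv : Function.Involutive σ := fun π => Subtype.ext (by
      rw [hσ, hσ, conj_conj])
    have e1 : ∑ᶠ π : PP, tm π.1 (conj a) (conj b) = ∑ᶠ π : PP, tm (σ π).1 (conj a) (conj b) :=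
      (finsum_comp_equiv (hinv.toPerm σ) (f := fun π : PP => tm π.1 (conj a) (conj b))).symm
    have e2 : ∑ᶠ π : PP, tm (σ π).1 (conj a) (conj b) = ∑ᶠ π : PP, - tm π.1 a b := by
      refine finsum_congr fun π => ?_
      rw [hσ]
      exact tm_conj π.2.1 (h3 π) ha hb
    unfold sl
    rw [e1, e2, finsum_neg_distrib]
  refine ⟨fun π a b hπ h3 ha hb => tm_conj hπ h3 ha hb, h2, ?_, ?_⟩
  · intro m n hm hn
    have h := h2 m n (intCast_ne hm) (intCast_ne hn)
    rw [conj_intCast, conj_intCast] at h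
    exact eq_zero_of_neg h
  · intro q hq hq3 m n hm hn
    have h := tm_conj (prime_inert hq hq3) (n3 hq hq3) (intCast_ne hm) (intCast_ne hn)
    rw [conj_intCast, conj_intCast, conj_natCast] at h
    exact eq_zero_of_neg h

end Pool.Agent.PT


end

section

/-!
# Module SSL: the symbol `sl` and the product formula
-/

namespace Pool.Agent.PT

open Pool.Agent.Lib_helper18 Pool.Agent.Lib_helper18.Eis Pool.Agent.Lib_helper84.Cub

namespace SSL

/-- the tame symbol of `a, b` vanishes at the primes dividing neither -/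
theorem supp_sub (a b : Eis) :
    (Function.support fun π : PP => tm π.1 a b) ⊆ {π : PP | π.1 ∣ a} ∪ {π : PP | π.1 ∣ b} := by
  intro π hπ
  by_contra hcon
  simp only [Set.mem_union, Set.mem_setOf_eq, not_or] at hcon
  apply hπ
  show tm π.1 a b = 0
  unfold tm
  rw [V_eq_zero hcon.1, V_eq_zero hcon.2]
  simp

theorem supp_fin (h : SPP) {a b : Eis} (ha : a ≠ 0) (hb : b ≠ 0) :
    (Function.support fun π : PP => tm π.1 a b).Finite :=
  ((h.2.2.1 a ha).union (h.2.2.1 b hb)).subset (supp_sub a b)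

end SSL

open _root_.Pool.Agent.PT.SSL in
theorem SSL_thm (hSTM : STM) (hSPP : SPP) : SSL := by
  have hL : ∀ π : PP, LSym π.1 (tm π.1) 1 := fun π => hSTM π.1 π.2.1 (hSPP.2.2.2.1 π).1
  refine ⟨?_, ?_, ?_, ?_⟩
  · intro a b c ha hb hc
    have h1 : (fun π : PP => tm π.1 (a * b) c) = fun π : PP => tm π.1 a c + tm π.1 b c := by
      funext π
      exact (hL π).mul a b c ha hb hc
    unfold sl
    rw [h1, finsum_add_distrib (supp_fin hSPP ha hc) (supp_fin hSPP hb hc), neg_add]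
  · intro a b ha hb
    have h1 : (fun π : PP => tm π.1 b a) = fun π : PP => - tm π.1 a b := by
      funext π
      exact (hL π).skew a b ha hb
    unfold sl
    rw [h1, finsum_neg_distrib]
  · intro a b c ha hb hc habc
    have h1 : (fun π : PP => tm π.1 c a) = fun π : PP => -(tm π.1 a b + tm π.1 b c) := by
      funext π
      have := (hL π).stein a b c ha hb hc habc
      linear_combination this
    unfold sl
    rw [h1, finsum_neg_distrib,
      finsum_add_distrib (supp_fin hSPP ha hb) (supp_fin hSPP hb hc)]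
    ring
  · intro a b ha hb
    have hf := supp_fin hSPP ha hb
    refine ⟨?_, ?_⟩
    · refine ((hf.image some).union (Set.finite_singleton none)).subset ?_
      intro v hv
      rcases v with _ | π
      · right
        rfl
      · left
        exact ⟨π, hv, rfl⟩
    · rw [finsum_option (f := fun v : Pl => sy v a b) hf]
      show sl a b + ∑ᶠ π : PP, tm π.1 a b = 0
      unfold sl
      rw [neg_add_cancel]

end Pool.Agent.PT


end

section

/-!
# STM: the tame symbols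
-/

namespace Pool.Agent.PT

open Pool.Agent.Lib_helper18 Pool.Agent.Lib_helper18.Eis Pool.Agent.Lib_helper84.Cub

namespace STM

theorem up_eq {π a c : Eis} {k : ℕ} (hπ : Prime π) (hc : ¬ π ∣ c) (ha : a = π ^ k * c) :
    V π a = k ∧ up π a = c := by
  have h1 : V π a = k := by rw [ha]; exact V_pow_mul hπ k hc
  refine ⟨h1, ?_⟩
  unfold up
  rw [h1, ha]
  exact mul_div_cancel_left₀ c (pow_ne_zero _ hπ.ne_zero)

theorem up_spec {π a : Eis} (hπ : Prime π) (ha : a ≠ 0) :
    a = π ^ V π a * up π a ∧ ¬ π ∣ up π a := by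
  obtain ⟨c, hc, hd⟩ := V_split hπ ha
  have h1 := (up_eq hπ hd hc).2
  rw [h1]
  exact ⟨hc, hd⟩

theorem ch_mul {π a b : Eis} (hπ : Prime π) (h3 : ¬ π ∣ 3) (ha : a ≠ 0) (hb : b ≠ 0) :
    ch π (a * b) = ch π a + ch π b := by
  obtain ⟨h1, h2⟩ := up_spec hπ ha
  obtain ⟨h3', h4⟩ := up_spec hπ hb
  have h5 : a * b = π ^ (V π a + V π b) * (up π a * up π b) := by
    conv_lhs => rw [h1, h3']
    ring
  have h6 : ¬ π ∣ up π a * up π b := fun h => (hπ.dvd_or_dvd h).elim h2 h4
  have h7 := (up_eq hπ h6 h5).2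
  unfold ch
  rw [h7, sym_mul hπ h3 h2 h4]

theorem cont {π a a' : Eis} (hπ : Prime π) (ha : a ≠ 0) (h : π ^ (V π a + 1) ∣ a' - a) :
    V π a' = V π a ∧ ch π a' = ch π a := by
  obtain ⟨h1, h2⟩ := up_spec hπ ha
  obtain ⟨d, hd⟩ := h
  have h3 : a' = π ^ V π a * (up π a + π * d) := by
    have : a' = a + π ^ (V π a + 1) * d := by rw [← hd]; ring
    rw [this]
    conv_lhs => rw [h1]
    have h4 : V π (π ^ V π a * up π a) = V π a := by rw [← h1]
    rw [h4]
    ring
  have h4 : ¬ π ∣ up π a + π * d := fun h => h2 ((dvd_add_left (dvd_mul_right π d)).1 h)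
  obtain ⟨h5, h6⟩ := up_eq hπ h4 h3
  refine ⟨h5, ?_⟩
  unfold ch
  rw [h6]
  refine sym_congr ⟨d, ?_⟩
  ring

theorem ch_neg {π a : Eis} (hπ : Prime π) (h3 : ¬ π ∣ 3) (ha : a ≠ 0) : ch π (-a) = ch π a := by
  have h1 : ch π (-1 : Eis) = 0 := by
    have h2 : ¬ π ∣ (-1 : Eis) := fun h => hπ.not_isUnit (isUnit_of_dvd_unit h (by simp))
    have h4 := (up_eq (k := 0) hπ h2 (by simp : (-1 : Eis) = π ^ 0 * (-1))).2
    unfold ch
    rw [h4]
    exact sym_neg_one hπ h3
  have h2 : -a = -1 * a := by ring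
  rw [h2, ch_mul hπ h3 (by simp) ha, h1, zero_add]

/-- `a + b + c = 0` and `V b > V a` -/
theorem dom {π a b c : Eis} (hπ : Prime π) (h3 : ¬ π ∣ 3) (ha : a ≠ 0) (hb : b ≠ 0) (hc : c ≠ 0)
    (h : a + b + c = 0) (hv : V π a < V π b) : V π c = V π a ∧ ch π c = ch π a := by
  have h1 : π ^ (V π a + 1) ∣ b := by
    obtain ⟨h1, -⟩ := up_spec hπ hb
    rw [h1]
    have h2 : V π (π ^ V π b * up π b) = V π b := by rw [← h1]
    exact (pow_dvd_pow π (by omega)).trans (dvd_mul_right _ _)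
  have h2 : (-c) - a = b := by linear_combination (-1 : Eis) * h
  obtain ⟨h4, h5⟩ := cont hπ ha (by rw [h2]; exact h1)
  rw [V_neg] at h4
  rw [ch_neg hπ h3 hc] at h5
  exact ⟨h4, h5⟩

theorem stein {π a b c : Eis} (hπ : Prime π) (h3 : ¬ π ∣ 3) (ha : a ≠ 0) (hb : b ≠ 0) (hc : c ≠ 0)
    (h : a + b + c = 0) : tm π a b + tm π b c + tm π c a = 0 := by
  unfold tm
  rcases lt_trichotomy (V π a) (V π b) with hv | hv | hv
  · obtain ⟨h1, h2⟩ := dom hπ h3 ha hb hc h hv
    rw [h1, h2]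
    ring
  · rcases lt_trichotomy (V π a) (V π c) with hw | hw | hw
    · obtain ⟨h1, h2⟩ := dom hπ h3 ha hc hb (by linear_combination h) hw
      rw [h1, h2]
      ring
    · rw [← hv, ← hw]
      ring
    · obtain ⟨h1, h2⟩ := dom hπ h3 hc ha hb (by linear_combination h) hw
      omega
  · obtain ⟨h1, h2⟩ := dom hπ h3 hb ha hc (by linear_combination h) hv
    rw [h1, h2]
    ring

end STM

theorem STM_thm : STM := by
  intro π hπ h3
  refine ⟨hπ, le_rfl, ?_, ?_, ?_, ?_⟩
  · intro a b c ha hb hc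
    unfold tm
    rw [STM.ch_mul hπ h3 ha hb, V_mul hπ ha hb]
    push_cast
    ring
  · intro a b _ _
    unfold tm
    ring
  · intro a b c ha hb hc h
    exact STM.stein hπ h3 ha hb hc h
  · intro a a' b ha _ h
    obtain ⟨h1, h2⟩ := STM.cont hπ ha h
    unfold tm
    rw [h1, h2]

end Pool.Agent.PT


end

section

/-!
# SUN: the theorem on `S`-units
-/

open NumberField IsDedekindDomain Module
open scoped nonZeroDivisors

namespace Pool.Agent.PT

namespace SUN

variable {K : Type} [Field K] [NumberField K]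

/-- the additive forms of the group of `S`-units -/
noncomputable def eqv (S : Finset (HeightOneSpectrum (𝓞 K))) :
    Additive ((S : Set (HeightOneSpectrum (𝓞 K))).unit K) ≃ₗ[ℤ] SUnit.U K S where
  toFun x := ⟨Additive.ofMul (x.toMul : Kˣ), x.toMul.2⟩
  invFun x := Additive.ofMul ⟨x.1.toMul, x.2⟩
  map_add' x y := rfl
  map_smul' n x := by
    apply Subtype.ext
    rfl
  left_inv x := rfl
  right_inv x := rfl

theorem ker_torsion (S : Finset (HeightOneSpectrum (𝓞 K))) :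
    finrank ℤ (LinearMap.ker (SUnit.ell S)) = 0 := by
  rw [Module.finrank_eq_zero_iff]
  intro x
  have h1 : SUnit.ell S x.1 = 0 := x.2
  have h2 : SUnit.plog S x.1.1 = 0 := congrArg Subtype.val h1
  have h3 := SUnit.isOfFinAddOrder_of_plog_eq_zero S x.1.1 x.1.2 h2
  obtain ⟨n, hn, hnx⟩ := isOfFinAddOrder_iff_nsmul_eq_zero.mp h3
  refine ⟨n, by exact_mod_cast hn.ne', ?_⟩
  apply Subtype.ext
  apply Subtype.ext
  show (n : ℤ) • x.1.1 = 0
  rw [natCast_zsmul]
  exact hnx

theorem finrank_U (S : Finset (HeightOneSpectrum (𝓞 K))) :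
    finrank ℤ (SUnit.U K S) = NumberField.Units.rank K + S.card := by
  have h1 := Submodule.finrank_quotient_add_finrank (LinearMap.ker (SUnit.ell S))
  have h2 := (SUnit.ell S).quotKerEquivRange.finrank_eq
  have h3 : finrank ℤ (SUnit.lat S) = finrank ℝ (SUnit.hyper K S) := ZLattice.rank ℝ (SUnit.lat S)
  have h4 : finrank ℝ (SUnit.hyper K S) + 1 = Fintype.card (SUnit.Pl K S) :=
    SUnit.finrank_hyperk S ℝ
  have h5 := ker_torsion S
  have h6 : Fintype.card (SUnit.Pl K S) = Fintype.card (InfinitePlace K) + S.card := by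
    rw [Fintype.card_sum, Fintype.card_coe]
  have h7 : 0 < Fintype.card (InfinitePlace K) := Fintype.card_pos
  have h8 : NumberField.Units.rank K = Fintype.card (InfinitePlace K) - 1 := rfl
  have h9 : finrank ℤ (LinearMap.range (SUnit.ell S)) = finrank ℝ (SUnit.hyper K S) := h3
  omega

end SUN

theorem SUN_thm : SUN := by
  intro L _ _ A
  have hfin : Module.Finite ℤ (SUnit.U L A) := inferInstance
  constructor
  · rw [Subgroup.fg_iff_add_fg, ← AddGroup.fg_iff_addSubgroup_fg, ← Module.Finite.iff_addGroup_fg]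
    exact hfin
  · rw [(SUN.eqv A).finrank_eq]
    exact SUN.finrank_U A

end Pool.Agent.PT


end

section

/-!
# Prime twists of rank zero: assembly
-/

namespace Pool.Agent.PT.Final

open Pool.Agent.PT

theorem fSPP : SPP := SPP_thm

theorem fENF : ENF := ENF_thm fSPP

theorem fEDET : EDET := EDET_thm

theorem fEMAT : EMAT := EMAT_thm fEDET

theorem fSTM : STM := STM_thm

theorem fSSL : SSL := SSL_thm fSTM fSPP

theorem fSREC : SREC := SREC_thm fSTM fSPP fSSL

theorem fSCJ : SCJ := SCJ_thm fSTM fSPP fSSL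

theorem fEHYP : EHYP := EHYP_thm fSTM fSPP fSSL fSREC fSCJ

theorem fEVEC : EVEC := EVEC_thm fSTM fSPP

theorem fEBAS : EBAS := EBAS_thm fEVEC fSPP

theorem fEADM : EADM := EADM_thm fSTM fSPP fSCJ

theorem fNFLD : NFLD := NFLD_thm

theorem fSLC : SLC := SLC_thm fSSL fSREC

theorem fLCI : LCI := LCI_thm fSTM fSPP fSLC

theorem fHERBQ : HERBQ := HERBQ_thm

theorem fSUN : SUN := SUN_thm

theorem fNRK : NRK := NRK_thm

theorem fNHN : NHN := NHN_thm

theorem fNTR : NTR := NTR_thm fSPP fNHN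

theorem fNCNT : NCNT := NCNT_thm fSPP fLCI fNHN fNTR

theorem fNFIX : NFIX := NFIX_thm fSPP fNHN fNTR

theorem fNHO : NHO := NHO_thm fSPP fNHN fNTR

theorem fNNS : NNS := NNS_thm

theorem fKUM : KUM := KUM_thm

theorem fNAUX : NAUX := NAUX_thm fSPP fKUM

theorem fNGEN : NGEN := NGEN_thm fSTM fSPP fSSL fSREC fLCI fNAUX

theorem fNMAIN : NMAIN := NMAIN_thm fSTM fSPP fSSL fSLC fLCI fHERBQ fSUN fNRK fNHN fNTR fNCNT fNFIX fNHO fNNS fNGEN

theorem fNDESC : NDESC := NDESC_thm

theorem fHN : HN := HN_thm fNFLD fNMAIN fNDESC fSTM fSPP fLCI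

theorem fESYS : ESYS := ESYS_thm fSTM fSPP fSCJ fHN

theorem fSTAR : STAR := STAR_thm

theorem fFDK : FDK := FDK_thm fSTM fSPP fSTAR

theorem fFDA : FDA := FDA_thm

theorem fFDC : FDC := FDC_thm

theorem fFD1 : FD1 := FD1_thm fFDK fFDA fFDC

theorem fFD2 : FD2 := FD2_thm fSTM fSPP

theorem fIF1 : IF1 := IF1_thm

theorem fIF2 : IF2 := IF2_thm fSTAR

theorem fIF4 : IF4 := IF4_thm fSTAR

theorem fIF4B : IF4B := IF4B_thm fSTAR

theorem fROOT : ROOT := ROOT_thm

theorem fAVV : AVV := AVV_thm fSTM fSPP fSLC fROOT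

theorem fF2B : F2B := F2B_thm fSTM fSPP fSLC fLCI fSCJ fSREC fSSL fIF2

theorem fF6R : F6R := F6R_thm fSTM

theorem fF7U : F7U := F7U_thm fSTM

theorem fSLE : SLE := SLE_thm fSSL fSREC

theorem fF5L : F5L := F5L_thm fSLE fSCJ fSSL

theorem fF3R : F3R := F3R_thm fSTM

theorem fF3U : F3U := F3U_thm fSTM

theorem fLEV : LEV := LEV_thm fSTM fSPP fSSL fSLC fSREC fSCJ fLCI fIF1 fIF2 fIF4 fIF4B fAVV fF2B fF6R fF7U fF5L fF3R fF3U

theorem fLFIN : LFIN := LFIN_thm fSTM fSPP fSSL fSLC fLCI fAVV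

theorem fTC : TC := TC_thm fLEV fLFIN

theorem fLAM : LAM := LAM_thm fSTM fSPP fSSL fSLC fSREC fSCJ fLCI fIF1 fAVV fF2B fF3R fF3U

theorem fTA : TA := TA_thm fLAM fLFIN

theorem fTADD : TADD := TADD_thm fSTM fSPP fSSL fSLC fSCJ fLCI fAVV fLFIN

theorem fTTH : TTH := TTH_thm fSTM fSPP fSSL fSLC fSCJ fLCI fAVV fLFIN

theorem fTEND : TEND := TEND_thm fTC fTA fTADD fTTH fSTM fSPP fSSL fSLC fLCI fAVV fLFIN

theorem fECL : ECL := ECL_thm fEMAT fEHYP fEBAS fEADM fESYS fFD1 fFD2 fTEND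

theorem fDCONST : DCONST := DCONST_thm fSTM fSPP fSSL fSLC fSCJ fLCI fAVV fLFIN

theorem fCLSC : CLSC := CLSC_thm fSPP

theorem fGZERO : GZERO := GZERO_thm

theorem fGCHI : GCHI := GCHI_thm

theorem fGT : GT := GT_thm

theorem fGKI : GKI := GKI_thm

theorem fGC : GC := GC_thm fKUM fGKI

theorem fGFR : GFR := GFR_thm

theorem fGALD : GALD := GALD_thm fGZERO fGCHI fGT fGC fGFR

theorem fSING : SING := SING_thm

theorem fDCNT : DCNT := DCNT_thm fSING

theorem fDIR : DIR := DIR_thm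

theorem fDENS : DENS := DENS_thm fGALD fDCNT fDIR

theorem fFINA : FINA := FINA_thm fSPP fECL fDCONST fCLSC fDENS fTEND

theorem fMAINT : MAINT := MAINT_thm fENF fFINA

end Pool.Agent.PT.Final


end

section

/-!
# TTHT: `O_B(b, b^(1/3)) = 0`
-/

namespace Pool.Agent.PT3

open Pool.Agent.Lib_helper18 Pool.Agent.Lib_helper18.Eis Pool.Agent.Lib_helper84.Cub
open Pool.Agent.PT Pool.Agent.PTE

namespace TTHT

open Pool.Agent.PT.TTH

theorem local_eq (hSTM : STM) (hSPP : SPP) (hSLC : SLC) (hLCI : LCI) (hAVV : AVV)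
    (hLCL : LCL) {B b : ℤ} (hB : BG B) (hb : AG B b)
    (h9 : LC lam b ∨ (lv b = lv B ∧ lw b = lw B)) (v : Pl) :
    TT v B b b 0 1 1 0 = sy v w (b : Eis) - sy v w (B : Eis) := by
  have hB0 : (B : Eis) ≠ 0 := cast_ne hB.ne
  have hb0 : (b : Eis) ≠ 0 := cast_ne hb.ne
  have hsym : ∃ e, LSym (uni v) (sy v) e := by
    cases v with
    | none => exact ⟨4, hSLC⟩
    | some π => exact ⟨1, hSTM π.1 π.2.1 (hSPP.2.2.2.1 π).1⟩
  obtain ⟨e, hs⟩ := hsym
  by_cases hLC : LC (uni v) b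
  · have hBb : sy v (B : Eis) (b : Eis) = 0 := by
      rw [hs.skew _ _ hb0 hB0]
      cases v with
      | none =>
        change - sl (b : Eis) (B : Eis) = 0
        unfold sl
        have h0 : (fun π : PP => tm π.1 (b : Eis) (B : Eis)) = fun _ => 0 := by
          funext π
          exact hb.sym π
        rw [h0, finsum_zero, neg_zero, neg_zero]
      | some π =>
        change - tm π.1 (b : Eis) (B : Eis) = 0
        rw [hb.sym π, neg_zero]
    have hSol : SolW b b 0 1 1 0 := ⟨by ring, by simpa using hb.ne⟩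
    have hAV := (hAVV v B b b 0 1 1 0 hB.ne hb.ne hb.ne hSol hBb hLC).2 (- sy v w (B : Eis))
      (V (uni v) (b : Eis) + 1) (by
        intro r hr
        refine AS_val hs hB0 ?_
        intro hr0
        rw [hr0, zero_pow three_ne_zero, zero_sub, dvd_neg] at hr
        exact (fin hs.prime hb0).not_pow_dvd_of_multiplicity_lt (Nat.lt_succ_self _) hr)
    have hwb : sy v w (b : Eis) = 0 := by
      have h1 := hLCI.2.2 (uni v) (sy v) e b w hs hLC hb.ne w_ne
      rw [hs.skew _ _ hb0 w_ne, h1, neg_zero]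
    unfold TT
    rw [if_pos hLC, hAV, hwb]
    ring
  · cases v with
    | none =>
      have h2 := h9.resolve_left hLC
      unfold TT
      rw [if_neg hLC]
      change (0 : ZMod 3) = sl w (b : Eis) - sl w (B : Eis)
      rw [hLCL.2.2.2.2.1 b hb.ne, hLCL.2.2.2.2.1 B hB.ne, h2.2, sub_self]
    | some π =>
      have hVw : V π.1 w = 0 := by
        rw [V_eq_zero_iff]
        intro h
        have h1 : π.1 ∣ w ^ 3 := dvd_pow h three_ne_zero
        rw [w_cube] at h1
        exact π.2.1.not_isUnit (isUnit_of_dvd_one h1)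
      have ht : ∀ x : Eis, tm π.1 w x = (V π.1 x : ZMod 3) * ch π.1 w := by
        intro x
        unfold tm
        rw [hVw]
        push_cast
        ring
      unfold TT
      rw [if_neg hLC]
      change (if 3 ∣ V π.1 (b : Eis) + V π.1 (B : Eis) ∧ ¬ 3 ∣ V π.1 (b : Eis)
        then - tm π.1 w (b : Eis) else 0) = tm π.1 w (b : Eis) - tm π.1 w (B : Eis)
      rw [ht, ht]
      by_cases hd : π.1 ∣ (B : Eis)
      · have hV1 : V π.1 (B : Eis) ≠ 0 := by
          intro h
          exact (V_eq_zero_iff.mp h) hd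
        have hV2 := hB.cf π
        have hVB : ¬ 3 ∣ V π.1 (B : Eis) := by omega
        have hVb : ¬ 3 ∣ V π.1 (b : Eis) := by
          intro h3
          apply hLC
          refine (hLCI.1 π b hb.ne).mpr ⟨h3, ?_⟩
          have h4 := hb.sym π
          unfold tm at h4
          rw [(cast3 _).mpr h3, zero_mul, sub_zero] at h4
          rcases mul_eq_zero.mp h4 with h5 | h5
          · exact absurd ((cast3 _).mp h5) hVB
          · exact h5
        by_cases h6 : 3 ∣ V π.1 (b : Eis) + V π.1 (B : Eis)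
        · rw [if_pos ⟨h6, hVb⟩]
          refine key3 _ _ _ ?_
          rw [← Nat.cast_add]
          exact (cast3 _).mpr h6
        · rw [if_neg (fun h => h6 h.1)]
          refine key3' _ _ _ ?_ ?_ ?_
          · exact fun h => hVb ((cast3 _).mp h)
          · exact fun h => hVB ((cast3 _).mp h)
          · rw [← Nat.cast_add]
            exact fun h => h6 ((cast3 _).mp h)
      · have h1 : V π.1 (B : Eis) = 0 := V_eq_zero hd
        have h2 : V π.1 (b : Eis) = 0 := V_eq_zero (hb.unr π hd)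
        rw [h1, h2, if_neg (fun h => h.2 (dvd_zero _))]
        push_cast
        ring

end TTHT

/-- TTHT. -/
theorem TTHT_thm (hSTM : STM) (hSPP : SPP) (hSSL : SSL) (hSLC : SLC) (_hSCJ : SCJ) (hLCI : LCI)
    (hAVV : AVV) (_hLFIG : LFIG) (hLCL : LCL) : TTHT := by
  intro B b hB hb h9
  have hB0 : (B : Eis) ≠ 0 := TTH.cast_ne hB.ne
  have hb0 : (b : Eis) ≠ 0 := TTH.cast_ne hb.ne
  unfold OO
  have h1 : (fun v : Pl => TT v B b b 0 1 1 0) =
      fun v => sy v w (b : Eis) - sy v w (B : Eis) := by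
    funext v
    exact TTHT.local_eq hSTM hSPP hSLC hLCI hAVV hLCL hB hb h9 v
  rw [h1, finsum_sub_distrib (hSSL.2.2.2 w b TTH.w_ne hb0).1 (hSSL.2.2.2 w B TTH.w_ne hB0).1,
    (hSSL.2.2.2 w b TTH.w_ne hb0).2, (hSSL.2.2.2 w B TTH.w_ne hB0).2, sub_zero]

end Pool.Agent.PT3


end
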