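import Mathlib
import Pool.Agent.PTDM.C21
import Pool.Agent.PTDM.C30

/-! Parts: PT3.LCL -/

section

/-!
# LCL: local cubes at `lam` and symbols of rational numbers
-/

namespace Pool.Agent.PT3

open Pool.Agent.Lib_helper18 Pool.Agent.Lib_helper18.Eis Pool.Agent.Lib_helper84.Cub
open Pool.Agent.PT Pool.Agent.PTE

namespace LCL

/-! ### The part prime to three -/

theorem split {b : ℤ} (hb : b ≠ 0) : ∃ (k : ℕ) (c : ℤ), b = 3 ^ k * c ∧ ¬ (3 : ℤ) ∣ c := by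
  have h3 : Prime (3 : ℤ) := Int.prime_three
  obtain ⟨c, hc, hpc⟩ := (FiniteMultiplicity.of_prime_left h3 hb).exists_eq_pow_mul_and_not_dvd
  exact ⟨_, c, hc, hpc⟩

theorem val_eq {k : ℕ} {c : ℤ} (hc : ¬ (3 : ℤ) ∣ c) : padicValInt 3 (3 ^ k * c) = k := by
  have : Fact (Nat.Prime 3) := ⟨Nat.prime_three⟩
  have hc0 : c ≠ 0 := by
    rintro rfl
    exact hc (dvd_zero _)
  have h1 : padicValInt 3 c = 0 := padicValInt.eq_zero_of_not_dvd hc
  have h3 : padicValInt 3 (3 : ℤ) = 1 := padicValInt_self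
  rw [padicValInt.mul (pow_ne_zero _ (by norm_num)) hc0, h1, add_zero]
  have h2 : ∀ n : ℕ, padicValInt 3 ((3 : ℤ) ^ n) = n := by
    intro n
    induction n with
    | zero => rw [pow_zero]; exact padicValInt.one
    | succ n ih =>
      rw [pow_succ, padicValInt.mul (pow_ne_zero _ (by norm_num)) (by norm_num), ih, h3]
  exact h2 k

theorem spec {b : ℤ} {k : ℕ} {c : ℤ} (hb : b = 3 ^ k * c) (hc : ¬ (3 : ℤ) ∣ c) :
    lv b = (k : ZMod 3) ∧ lw b = wt (c ^ 2) := by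
  subst hb
  unfold lv lw
  rw [val_eq hc]
  refine ⟨rfl, ?_⟩
  rw [Int.mul_ediv_cancel_left _ (pow_ne_zero _ (by norm_num))]

theorem not_dvd_mul {a b : ℤ} (ha : ¬ (3 : ℤ) ∣ a) (hb : ¬ (3 : ℤ) ∣ b) : ¬ (3 : ℤ) ∣ a * b :=
  fun h => (Int.prime_three.dvd_or_dvd h).elim ha hb

theorem mul_spec {a b : ℤ} (ha : a ≠ 0) (hb : b ≠ 0) :
    lv (a * b) = lv a + lv b ∧ lw (a * b) = lw a + lw b := by
  obtain ⟨k, c, h1, h2⟩ := split ha
  obtain ⟨k', c', h1', h2'⟩ := split hb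
  have h3 : a * b = 3 ^ (k + k') * (c * c') := by
    rw [h1, h1']
    ring
  obtain ⟨e1, e2⟩ := spec h1 h2
  obtain ⟨e3, e4⟩ := spec h1' h2'
  obtain ⟨e5, e6⟩ := spec h3 (not_dvd_mul h2 h2')
  rw [e1, e2, e3, e4, e5, e6, mul_pow]
  refine ⟨by push_cast; rfl, ?_⟩
  exact wt_mul (sq_mod_three h2) (sq_mod_three h2')

theorem wt_zero_iff {c : ℤ} (hc : ¬ (3 : ℤ) ∣ c) : wt (c ^ 2) = 0 ↔ C9 c := by
  obtain ⟨t, r, ht, hr0, hr9⟩ : ∃ t r : ℤ, c = 9 * t + r ∧ 0 ≤ r ∧ r < 9 :=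
    ⟨c / 9, c % 9, by omega, by omega, by omega⟩
  have h1 : c ^ 2 % 9 = r ^ 2 % 9 := by
    have e : c ^ 2 = r ^ 2 + 9 * (9 * t ^ 2 + 2 * t * r) := by rw [ht]; ring
    rw [e]
    omega
  have h2 := sq_mod_three hc
  have h3 : wt (c ^ 2) = 0 ↔ c ^ 2 % 9 = 1 := by
    unfold wt
    rw [ZMod.intCast_zmod_eq_zero_iff_dvd]
    generalize c ^ 2 = s at h2 ⊢
    push_cast
    omega
  rw [h3, h1]
  unfold C9
  have h4 : c % 9 = r := by omega
  rw [h4]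
  have hr3 : r % 3 ≠ 0 := by omega
  interval_cases r <;> simp_all

theorem cube_C9 {s c : ℤ} (hs : ¬ (3 : ℤ) ∣ s) (h : (9 : ℤ) ∣ s ^ 3 - c) : C9 c := by
  obtain ⟨t, r, ht, hr0, hr3⟩ : ∃ t r : ℤ, s = 3 * t + r ∧ 0 < r ∧ r < 3 :=
    ⟨s / 3, s % 3, by omega, by omega, by omega⟩
  have e : s ^ 3 = r ^ 3 + 9 * (3 * t ^ 3 + 3 * t ^ 2 * r + t * r ^ 2) := by rw [ht]; ring
  rw [e] at h
  unfold C9
  generalize 3 * t ^ 3 + 3 * t ^ 2 * r + t * r ^ 2 = T at h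
  interval_cases r
  · left
    omega
  · right
    omega

theorem lam_sq : lam ^ 2 = 3 * (-w) := by decide

/-- local cubes in terms of rational integers -/
theorem int_of_LC {b : ℤ} (h : LC lam b) (N : ℕ) : ∃ r : ℤ, (3 : ℤ) ^ N ∣ r ^ 3 - b := by
  obtain ⟨r, hr⟩ := h (2 * N)
  refine ⟨r, intCast_dvd_intCast.1 ?_⟩
  have h1 : (((3 : ℤ) ^ N : ℤ) : Eis) ∣ lam ^ (2 * N) := by
    rw [pow_mul, lam_sq, mul_pow, Int.cast_pow, ← three_eq_cast]
    exact dvd_mul_right _ _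
  refine (h1.trans hr).trans (dvd_of_eq ?_)
  push_cast
  ring

theorem first (b : ℤ) (hb : b ≠ 0) : LC lam b ↔ lv b = 0 ∧ lw b = 0 := by
  obtain ⟨k, c, h1, h2⟩ := split hb
  obtain ⟨e1, e2⟩ := spec h1 h2
  rw [e1, e2, ZMod.natCast_eq_zero_iff, wt_zero_iff h2]
  constructor
  · intro h
    obtain ⟨r, hr⟩ := int_of_LC h (k + 2)
    have hr0 : r ≠ 0 := by
      rintro rfl
      apply h2
      have h3 : (3 : ℤ) ^ (k + 1) ∣ 3 ^ k * c := by
        rw [← h1]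
        have h4 : (0 : ℤ) ^ 3 - b = -b := by ring
        rw [h4, dvd_neg] at hr
        exact (pow_dvd_pow 3 (by omega)).trans hr
      rw [pow_succ] at h3
      exact (mul_dvd_mul_iff_left (pow_ne_zero k (by norm_num))).1 h3
    obtain ⟨j, s, h3, h4⟩ := split hr0
    have h5 : r ^ 3 - b = 3 ^ (3 * j) * s ^ 3 - 3 ^ k * c := by
      rw [h3, h1, mul_pow, ← pow_mul, mul_comm j 3]
    rw [h5] at hr
    have hs3 : ¬ (3 : ℤ) ∣ s ^ 3 := fun h => h4 (Int.prime_three.dvd_of_dvd_pow h)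
    have hk : k = 3 * j := by
      rcases lt_trichotomy k (3 * j) with hlt | he | hgt
      · exfalso
        apply h2
        have h6 : (3 : ℤ) ^ (k + 1) ∣ 3 ^ (3 * j) * s ^ 3 :=
          (pow_dvd_pow 3 hlt).mul_right _
        have h7 : (3 : ℤ) ^ (k + 1) ∣ 3 ^ (3 * j) * s ^ 3 - 3 ^ k * c :=
          (pow_dvd_pow 3 (by omega)).trans hr
        have h8 := dvd_sub h6 h7
        rw [sub_sub_cancel, pow_succ] at h8
        exact (mul_dvd_mul_iff_left (pow_ne_zero k (by norm_num))).1 h8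
      · exact he
      · exfalso
        apply hs3
        have h6 : (3 : ℤ) ^ (3 * j + 1) ∣ 3 ^ k * c := (pow_dvd_pow 3 hgt).mul_right _
        have h7 : (3 : ℤ) ^ (3 * j + 1) ∣ 3 ^ (3 * j) * s ^ 3 - 3 ^ k * c :=
          (pow_dvd_pow 3 (by omega)).trans hr
        have h8 := dvd_add h7 h6
        rw [sub_add_cancel, pow_succ] at h8
        exact (mul_dvd_mul_iff_left (pow_ne_zero (3 * j) (by norm_num))).1 h8
    refine ⟨⟨j, hk⟩, cube_C9 h4 ?_⟩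
    rw [← hk, ← mul_sub, pow_add] at hr
    have h9 := (mul_dvd_mul_iff_left (pow_ne_zero k (by norm_num : (3 : ℤ) ≠ 0))).1 hr
    norm_num at h9
    exact h9
  · rintro ⟨⟨j, rfl⟩, hc⟩ N
    obtain ⟨r, hr⟩ := (LCI.second c h2).2 hc N
    refine ⟨3 ^ j * r, hr.trans ⟨3 ^ (3 * j), ?_⟩⟩
    rw [h1]
    push_cast
    ring

/-! ### Symbols -/

theorem zmod_two {x : ZMod 3} (h : x = -x) : x = 0 := by
  revert x
  decide

theorem mul_right (hSSL : SSL) {a b c : Eis} (ha : a ≠ 0) (hb : b ≠ 0) (hc : c ≠ 0) :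
    sl c (a * b) = sl c a + sl c b := by
  rw [hSSL.2.1 (a * b) c (mul_ne_zero ha hb) hc, hSSL.1 a b c ha hb hc, hSSL.2.1 a c ha hc,
    hSSL.2.1 b c hb hc]
  ring

theorem w_ne : (w : Eis) ≠ 0 := by decide

theorem lam_ne : (lam : Eis) ≠ 0 := by decide

theorem sl_one (hSSL : SSL) {c : Eis} (hc : c ≠ 0) : sl c 1 = 0 := by
  have h := mul_right hSSL (one_ne_zero) (one_ne_zero) hc
  rw [mul_one] at h
  have h2 : sl c 1 + 0 = sl c 1 + sl c 1 := by rw [add_zero]; exact h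
  exact (add_left_cancel h2).symm

theorem sl_neg_one (hSSL : SSL) {c : Eis} (hc : c ≠ 0) : sl c (-1) = 0 := by
  have hm : (-1 : Eis) ≠ 0 := neg_ne_zero.2 one_ne_zero
  have h := mul_right hSSL hm hm hc
  rw [neg_one_mul, neg_neg, sl_one hSSL hc] at h
  exact zmod_two (eq_neg_of_add_eq_zero_left h.symm)

theorem sl_w_three (hSSL : SSL) (hSREC : SREC) : sl w 3 = 0 := by
  have h3 : (3 : Eis) = (-1) * ((w * w) * (lam * lam)) := by decide
  have hm : (-1 : Eis) ≠ 0 := neg_ne_zero.2 one_ne_zero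
  have hww : sl w w = 0 := zmod_two (hSSL.2.1 w w w_ne w_ne)
  rw [h3, mul_right hSSL hm (mul_ne_zero (mul_ne_zero w_ne w_ne) (mul_ne_zero lam_ne lam_ne)) w_ne,
    mul_right hSSL (mul_ne_zero w_ne w_ne) (mul_ne_zero lam_ne lam_ne) w_ne,
    mul_right hSSL w_ne w_ne w_ne, mul_right hSSL lam_ne lam_ne w_ne, hSREC.2.2.2, hww,
    sl_neg_one hSSL w_ne]
  ring

theorem three_ne : ((3 : Eis)) ≠ 0 := by decide

theorem sl_w_pow (hSSL : SSL) (hSREC : SREC) (k : ℕ) : sl w ((3 : Eis) ^ k) = 0 := by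
  induction k with
  | zero => rw [pow_zero]; exact sl_one hSSL w_ne
  | succ k ih =>
    rw [pow_succ, mul_right hSSL (pow_ne_zero _ three_ne) three_ne w_ne, ih,
      sl_w_three hSSL hSREC, add_zero]

theorem fifth (hSSL : SSL) (hSREC : SREC) (b : ℤ) (hb : b ≠ 0) : sl w (b : Eis) = - lw b := by
  obtain ⟨k, c, h1, h2⟩ := split hb
  obtain ⟨e1, e2⟩ := spec h1 h2
  have hc0 : c ≠ 0 := by
    rintro rfl
    exact h2 (dvd_zero _)
  have hcE := LCI.cast_ne_zero hc0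
  have h3 : (b : Eis) = (3 : Eis) ^ k * (c : Eis) := by
    rw [h1]
    push_cast
    rfl
  have hP : Prim (c : Eis) := by
    refine ⟨?_, ?_⟩
    · rw [intCast_im]
      exact dvd_zero _
    · rw [intCast_re]
      exact h2
  rw [h3, mul_right hSSL (pow_ne_zero _ three_ne) hcE w_ne, sl_w_pow hSSL hSREC, zero_add,
    hSSL.2.1 (c : Eis) w hcE w_ne, hSREC.2.1 _ hP, LCI.norm_int, e2]

theorem seventh (a b : ℤ) (ha : a ≠ 0) (hb : b ≠ 0) (h1 : lv a = lv b) (h2 : lw a = lw b) :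
    LC lam (a * b ^ 2) := by
  have hbb := mul_spec hb hb
  have hab := mul_spec ha (mul_ne_zero hb hb)
  have h3 : ∀ x : ZMod 3, x + (x + x) = 0 := by decide
  rw [pow_two, first _ (mul_ne_zero ha (mul_ne_zero hb hb)), hab.1, hab.2, hbb.1, hbb.2, h1, h2]
  exact ⟨h3 _, h3 _⟩

theorem sixth (hSSL : SSL) (hSLC : SLC) (a b : ℤ) (c : Eis) (ha : a ≠ 0) (hb : b ≠ 0)
    (hc : c ≠ 0) (h1 : lv a = lv b) (h2 : lw a = lw b) : sl c (a : Eis) = sl c (b : Eis) := by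
  have h3 := LCI.third lam sl 4 (a * b ^ 2) c hSLC (seventh a b ha hb h1 h2)
    (mul_ne_zero ha (pow_ne_zero _ hb)) hc
  have haE := LCI.cast_ne_zero ha
  have hbE := LCI.cast_ne_zero hb
  have h4 : ((a * b ^ 2 : ℤ) : Eis) = (a : Eis) * ((b : Eis) * (b : Eis)) := by
    push_cast
    ring
  rw [h4, hSSL.1 _ _ c haE (mul_ne_zero hbE hbE) hc, hSSL.1 _ _ c hbE hbE hc] at h3
  rw [hSSL.2.1 (a : Eis) c haE hc, hSSL.2.1 (b : Eis) c hbE hc]
  have h5 : ∀ x y : ZMod 3, x + (y + y) = 0 → -x = -y := by decide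
  exact h5 _ _ h3

end LCL

theorem LCL_thm (_hSTM : STM) (_hSPP : SPP) (hSSL : SSL) (hSLC : SLC) (hSREC : SREC)
    (_hSCJ : SCJ) (_hLCI : LCI) : LCL := by
  refine ⟨LCL.first, fun a b ha hb => LCL.mul_spec ha hb, ?_, ?_, LCL.fifth hSSL hSREC,
    fun a b c ha hb hc h1 h2 => LCL.sixth hSSL hSLC a b c ha hb hc h1 h2,
    fun a b ha hb h1 h2 => LCL.seventh a b ha hb h1 h2⟩
  · obtain ⟨e1, e2⟩ := LCL.spec (b := 3) (k := 1) (c := 1) (by norm_num) (by norm_num)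
    rw [e1, e2]
    refine ⟨by norm_num, ?_⟩
    rw [one_pow, wt_one]
  · intro b hb
    obtain ⟨e1, e2⟩ := LCL.spec (b := b) (k := 0) (c := b) (by ring) hb
    rw [e1, e2]
    exact ⟨by norm_num, rfl⟩

end Pool.Agent.PT3


end
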