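import Mathlib
import Pool.Agent.PTDM.C01
import Pool.Agent.PTDM.C21

/-! Parts: PT3.EDC, PT3.FCL0 -/

section

/-!
# Prime twists of rank zero, `n` divisible by `3`: the number of the diagonals (module EDC)
-/

namespace Pool.Agent.PT3

open Pool.Agent.Lib_helper18 Pool.Agent.Lib_helper18.Eis Pool.Agent.Lib_helper84.Cub
open Pool.Agent.PT Pool.Agent.PTE

namespace EDC

theorem ne_of : ∀ a b u : ZMod 3, b ≠ 0 → u ≠ 0 → a - (a * b + u) * b ≠ 0 := by
  decide

theorem card_two : Nat.card {u : ZMod 3 // u ≠ 0} = 2 := by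
  rw [Nat.card_eq_fintype_card]
  decide

/-- The determinant of the upper left block. -/
noncomputable def D1 {m : ℕ} (A : Matrix (Fin (m + 2)) (Fin (m + 2)) (ZMod 3))
    (d : Fin m → ZMod 3) : ZMod 3 :=
  (A.submatrix Fin.castSucc Fin.castSucc -
    Matrix.diagonal (Fin.cons 0 d : Fin (m + 1) → ZMod 3)).det

/-- The determinant for the last entry `0`. -/
noncomputable def D0 {m : ℕ} (A : Matrix (Fin (m + 2)) (Fin (m + 2)) (ZMod 3))
    (d : Fin m → ZMod 3) : ZMod 3 :=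
  (A - Matrix.diagonal (Fin.snoc (Fin.cons 0 d : Fin (m + 1) → ZMod 3) 0 :
    Fin (m + 2) → ZMod 3)).det

theorem det_eq {m : ℕ} (A : Matrix (Fin (m + 2)) (Fin (m + 2)) (ZMod 3))
    (d : Fin m → ZMod 3) (t : ZMod 3) :
    (A - Matrix.diagonal (Fin.cons 0 (Fin.snoc d t : Fin (m + 1) → ZMod 3) :
      Fin (m + 2) → ZMod 3)).det = D0 A d - t * D1 A d := by
  rw [EDET.cons_snoc, EDET.det_last]
  rfl

end EDC

/-- EDC: the number of the diagonals such that the matrix becomes invertible. -/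
theorem EDC_thm : EDC := by
  intro m
  induction m with
  | zero =>
    intro A hA
    have hne : Nonempty {d : Fin 0 → ZMod 3 //
        (A - Matrix.diagonal (Fin.cons 0 d : Fin (0 + 1) → ZMod 3)).det ≠ 0} := by
      refine ⟨⟨fun _ => 0, ?_⟩⟩
      rw [Matrix.det_fin_one, Matrix.sub_apply, Matrix.diagonal_apply_eq, Fin.cons_zero, sub_zero]
      exact hA
    rw [pow_zero]
    exact Nat.card_pos
  | succ m ih =>
    intro A hA
    have h1 := ih (A.submatrix Fin.castSucc Fin.castSucc) hA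
    have hD : ∀ d : Fin m → ZMod 3, (A.submatrix Fin.castSucc Fin.castSucc -
        Matrix.diagonal (Fin.cons 0 d : Fin (m + 1) → ZMod 3)).det = EDC.D1 A d := fun _ => rfl
    let f : {d : Fin m → ZMod 3 // (A.submatrix Fin.castSucc Fin.castSucc -
        Matrix.diagonal (Fin.cons 0 d : Fin (m + 1) → ZMod 3)).det ≠ 0} ×
        {u : ZMod 3 // u ≠ 0} → {d : Fin (m + 1) → ZMod 3 //
        (A - Matrix.diagonal (Fin.cons 0 d : Fin (m + 1 + 1) → ZMod 3)).det ≠ 0} := fun x =>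
      ⟨Fin.snoc x.1.1 (EDC.D0 A x.1.1 * EDC.D1 A x.1.1 + x.2.1), by
        rw [EDC.det_eq]
        exact EDC.ne_of _ _ _ x.1.2 x.2.2⟩
    have hf : Function.Injective f := by
      rintro ⟨⟨d, hd⟩, ⟨u, hu⟩⟩ ⟨⟨d', hd'⟩, ⟨u', hu'⟩⟩ hx
      have h2 : (Fin.snoc d (EDC.D0 A d * EDC.D1 A d + u) : Fin (m + 1) → ZMod 3) =
          Fin.snoc d' (EDC.D0 A d' * EDC.D1 A d' + u') := congrArg Subtype.val hx
      have h3 : d = d' := by
        have := congrArg Fin.init h2
        rwa [Fin.init_snoc, Fin.init_snoc] at this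
      subst h3
      have h4 := congrFun h2 (Fin.last m)
      rw [Fin.snoc_last, Fin.snoc_last] at h4
      have h5 : u = u' := add_left_cancel h4
      subst h5
      rfl
    have h6 := Nat.card_le_card_of_injective f hf
    rw [Nat.card_prod, EDC.card_two] at h6
    rw [pow_succ]
    omega

end Pool.Agent.PT3


end

section

/-!
# PT3, module FCL0: one class, `3` does not divide `n`, `k` even
-/

set_option autoImplicit false

open NumberField IsDedekindDomain Finset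
open scoped nonZeroDivisors Pointwise

namespace Pool.Agent.PT3

open Pool.Agent.Lib_helper18 Pool.Agent.Lib_helper18.Eis Pool.Agent.Lib_helper84.Cub
open Pool.Agent.PT Pool.Agent.PTE

namespace FCL0

theorem pos_of_nf {n m k : ℕ} {π : Fin m → PP} {p e : Fin m → ℕ} {r f : Fin k → ℕ}
    (h : NF n π p e r f) : 0 < n := by
  rw [h.eq]
  exact Nat.mul_pos (Finset.prod_pos fun i _ => pow_pos (h.pp i).pos _)
    (Finset.prod_pos fun j _ => pow_pos (h.rp j).pos _)

theorem three_of_nf {n m k : ℕ} {π : Fin m → PP} {p e : Fin m → ℕ} {r f : Fin k → ℕ}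
    (h : NF n π p e r f) : ¬ 3 ∣ n := by
  rw [h.eq]
  intro h0
  rcases (Nat.prime_three.dvd_mul).1 h0 with h1 | h1
  · obtain ⟨i, _, hi⟩ := (Nat.prime_three.prime.dvd_finsetProd_iff _).1 h1
    have h2 := Nat.prime_three.dvd_of_dvd_pow hi
    have h3 := h.p1 i
    omega
  · obtain ⟨i, _, hi⟩ := (Nat.prime_three.prime.dvd_finsetProd_iff _).1 h1
    have h2 := Nat.prime_three.dvd_of_dvd_pow hi
    have h3 := h.r2 i
    omega

/-- The homomorphism with given components. -/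
def assemble {s F : ℕ} (Φ : Fin s → Fin s → ((ZMod F)ˣ →* Multiplicative (ZMod 3))) :
    (ZMod F)ˣ →* Multiplicative (Fin s → Fin s → ZMod 3) where
  toFun := fun a => Multiplicative.ofAdd fun j i => (Φ j i a).toAdd
  map_one' := by
    apply Multiplicative.toAdd.injective
    funext j i
    simp
  map_mul' := fun a a' => by
    apply Multiplicative.toAdd.injective
    funext j i
    simp

theorem assemble_apply {s F : ℕ} (Φ : Fin s → Fin s → ((ZMod F)ˣ →* Multiplicative (ZMod 3)))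
    (a : (ZMod F)ˣ) (j i : Fin s) : (assemble Φ a).toAdd j i = (Φ j i a).toAdd := rfl

end FCL0

set_option linter.unusedVariables false in
/-- One class, `3` does not divide `n`, `k` even. -/
theorem FCL0_thm (hSPP : SPP) (hECL0 : ECL0) (hDCONST : DCONST) (hCLSC : CLSC) (hDENS : DENS)
    (hTEND : TEND) : FCL0 := by
  intro n m k π p e r f w0 c hNF hk hw hdt
  obtain ⟨s, b, P, Q, P', Q', hs, hadm, hsys, hq⟩ := hECL0 n m k π p e r f w0 c hNF hk hw hdt
  have hn : 0 < n := FCL0.pos_of_nf hNF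
  have h3 : ¬ 3 ∣ n := FCL0.three_of_nf hNF
  have hD : ∀ j i : Fin s, ∃ f₀ : ℕ, 0 < f₀ ∧ ∀ F : ℕ, 0 < F → f₀ ∣ F →
      ∃ (C : ZMod 3) (Φ : (ZMod F)ˣ →* Multiplicative (ZMod 3)) (N₀ : ℕ), j ≠ i →
        ∀ (q : ℕ) (hQ : q.Coprime F), q.Prime → N₀ < q → q % 3 = 2 → BOk ((n : ℤ) * q) →
          Adm ((n : ℤ) * q) (b j) → Adm ((n : ℤ) * q) (b i) → ∀ t : ℤ, (q : ℤ) ∣ t ^ 3 - b j →
          OO ((n : ℤ) * q) (b j) (b i) (P j i) (Q j i) (P' j i) (Q' j i) =
            C + (Φ (ZMod.unitOfCoprime q hQ)).toAdd -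
              TAUV q (P j i) (Q j i) (P' j i) (Q' j i) t := by
    intro j i
    by_cases hji : j = i
    · exact ⟨1, one_pos, fun F _ _ => ⟨0, 1, 0, fun h => absurd hji h⟩⟩
    · obtain ⟨f₀, hf₀, h⟩ := hDCONST n (b j) (b i) (P j i) (Q j i) (P' j i) (Q' j i) hn h3
        (hsys.sol j i hji) (hadm j).ne (hadm i).ne
      refine ⟨f₀, hf₀, fun F hF hd => ?_⟩
      obtain ⟨C, Φ, N₀, h'⟩ := h F hF hd
      exact ⟨C, Φ, N₀, fun _ => h'⟩
  choose f₀ hf₀ hD1 using hD
  obtain ⟨F, hF, h9, hpF, hfF⟩ : ∃ F : ℕ, 0 < F ∧ 9 ∣ F ∧ (∀ i, p i ∣ F) ∧ ∀ j i, f₀ j i ∣ F := by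
    refine ⟨9 * (∏ i, p i) * ∏ j, ∏ i, f₀ j i, ?_, ?_, ?_, ?_⟩
    · have h1 : 0 < ∏ i, p i := Finset.prod_pos fun i _ => (hNF.pp i).pos
      have h2 : 0 < ∏ j, ∏ i, f₀ j i :=
        Finset.prod_pos fun j _ => Finset.prod_pos fun i _ => hf₀ j i
      positivity
    · exact Dvd.dvd.mul_right (Dvd.intro _ rfl) _
    · intro i
      exact Dvd.dvd.mul_right (Dvd.dvd.mul_left (Finset.dvd_prod_of_mem p (mem_univ i)) _) _
    · intro j i
      exact Dvd.dvd.mul_left ((Finset.dvd_prod_of_mem (fun i => f₀ j i) (mem_univ i)).trans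
        (Finset.dvd_prod_of_mem (fun j => ∏ i, f₀ j i) (mem_univ j))) _
  choose C Φ N₀ hD2 using fun j i => hD1 j i F hF (hfF j i)
  obtain ⟨κ, hκ, hcount⟩ := hCLSC m π p hNF.pp hNF.p1 hNF.pπ hNF.pinj F hF h9 hpF
  have hdens := hDENS s b P Q P' Q' F m κ (Fin.cons w0 c) C (FCL0.assemble Φ) hsys hs hF h9 hcount
  refine RI.PDGE_thm _ _ (Finset.range (n + 3 + ∑ j, ∑ i, N₀ j i + 1)) _ hdens ?_
  rintro q ⟨hQ, hq3, hκq, hdet⟩ hqp hqA
  rw [Finset.mem_range, not_lt] at hqA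
  have hN : ∀ j i, N₀ j i ≤ ∑ j, ∑ i, N₀ j i := by
    intro j i
    exact (Finset.single_le_sum (f := fun i => N₀ j i) (fun i _ => Nat.zero_le _)
      (mem_univ i)).trans (Finset.single_le_sum (f := fun j => ∑ i, N₀ j i)
        (fun j _ => Nat.zero_le _) (mem_univ j))
  rw [hκ q hQ] at hκq
  have hcl : InCl π w0 c q := by
    refine ⟨hq3, ?_, fun i => ?_⟩
    · have := congrFun hκq 0
      simpa using this
    · have := congrFun hκq i.succ
      simpa using this
  refine ⟨hcl, fun hXY => ?_⟩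
  have hqn : ¬ q ∣ n := fun h => by
    have := Nat.le_of_dvd hn h
    omega
  obtain ⟨hA, hB, hM⟩ := hq q hqp hcl hqn (by omega)
  have hM0 := hM hXY
  have hskew := (hTEND s b P Q P' Q' ((n : ℤ) * q) hsys hB hA).1
  let τ : Fin s → Fin s → ZMod 3 := fun j i =>
    C j i + (Φ j i (ZMod.unitOfCoprime q hQ)).toAdd -
      OO ((n : ℤ) * q) (b j) (b i) (P j i) (Q j i) (P' j i) (Q' j i)
  apply hdet τ
  · intro j i hji t ht
    have h1 := hD2 j i hji q hQ hqp (by have := hN j i; omega) hq3 hB (hA j) (hA i) t ht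
    simp only [τ]
    rw [h1]
    ring
  · rw [← hM0]
    congr 1
    ext j i
    have hv : ∀ j i, (C + (FCL0.assemble Φ (ZMod.unitOfCoprime q hQ)).toAdd - τ) j i =
        OO ((n : ℤ) * q) (b j) (b i) (P j i) (Q j i) (P' j i) (Q' j i) := by
      intro j i
      simp only [Pi.sub_apply, Pi.add_apply, τ, FCL0.assemble_apply]
      ring
    unfold alt
    rw [hv, hv]
    by_cases h1 : j < i
    · rw [if_pos h1]
      unfold Mat
      rw [if_neg h1.ne]
    · rw [if_neg h1]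
      by_cases h2 : i < j
      · rw [if_pos h2, hskew j i]
        unfold Mat
        rw [if_neg h2.ne]
      · rw [if_neg h2]
        have h3 : j = i := le_antisymm (not_lt.1 h2) (not_lt.1 h1)
        unfold Mat
        rw [if_pos h3]

end Pool.Agent.PT3


end
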