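import Mathlib
import Pool.Agent.PTDM.C21
import Pool.Agent.PTDM.C22
import Pool.Agent.PTDM.C23
import Pool.Agent.PTDM.C24
import Pool.Agent.PTDM.C26
import Pool.Agent.PTDM.C27
import Pool.Agent.PTDM.C28
import Pool.Agent.PTDM.C29
import Pool.Agent.PTDM.C30
import Pool.Agent.PTDM.C31
import Pool.Agent.PTDM.C32
import Pool.Agent.PTDM.C33
import Pool.Agent.PTDM.C34
import Pool.Agent.PTDM.C35
import Pool.Agent.PTDM.C36
import Pool.Agent.PTDM.C37

/-! Parts: PTE.DCNTS, PTE.GKUM, PTE.MAINS, PTE.Final, PT3.DCOT, PT3.EMA0, PT3.LAMG, PT3.LE1, PT3.LFIG, PT3.LPT, PT3.LVA, PT3.LVB, PT3.Final -/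

section

/-!
# DCNTS: elements with nonsingular matrix in a class of the Galois group
-/

namespace Pool.Agent.PTE.DCNTS

open Pool.Agent.PT

/-- the nonsingular alternating matrices -/
theorem nonsing (hSING : SING) (s : ℕ) (hs : Even s) :
    rh s * (Nat.card (Fin s → Fin s → ZMod 3) : ℝ) ≤
      (Nat.card {v : Fin s → Fin s → ZMod 3 // (alt v).det ≠ 0} : ℝ) := by
  classical
  by_cases h0 : s = 0
  · subst h0
    have h1 : Nat.card {v : Fin 0 → Fin 0 → ZMod 3 // (alt v).det ≠ 0} =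
        Nat.card (Fin 0 → Fin 0 → ZMod 3) := by
      refine Nat.card_congr (Equiv.subtypeUnivEquiv fun v => ?_)
      rw [Matrix.det_isEmpty]
      exact one_ne_zero
    rw [h1, rh, if_pos rfl, one_mul]
  · have h1 := hSING s hs
    have h2 : Nat.card {v : Fin s → Fin s → ZMod 3 // (alt v).det = 0} +
        Nat.card {v : Fin s → Fin s → ZMod 3 // (alt v).det ≠ 0} =
        Nat.card (Fin s → Fin s → ZMod 3) := by
      rw [← Nat.card_sum]
      exact Nat.card_congr (Equiv.sumCompl fun v : Fin s → Fin s → ZMod 3 => (alt v).det = 0)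
    have h3 : 5 * Nat.card (Fin s → Fin s → ZMod 3) ≤
        8 * Nat.card {v : Fin s → Fin s → ZMod 3 // (alt v).det ≠ 0} := by
      omega
    have h4 : (5 : ℝ) * Nat.card (Fin s → Fin s → ZMod 3) ≤
        8 * Nat.card {v : Fin s → Fin s → ZMod 3 // (alt v).det ≠ 0} := by
      exact_mod_cast h3
    rw [rh, if_neg h0]
    linarith

/-- the number of elements in a class -/
theorem cls {f : ℕ} {G : Type} [Group G] [Finite G] (χ : G →* (ZMod f)ˣ) (hf : 0 < f)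
    (hχ : Function.Surjective χ) (a : (ZMod f)ˣ) :
    Nat.card {g : G // χ g = a} * f.totient = Nat.card G := by
  have : NeZero f := ⟨hf.ne'⟩
  obtain ⟨g0, hg0⟩ := hχ a
  have h1 : Nat.card {g : G // χ g = a} = Nat.card χ.ker := by
    refine Nat.card_congr ⟨fun g => ⟨g0⁻¹ * g.1, ?_⟩, fun g => ⟨g0 * g.1, ?_⟩, ?_, ?_⟩
    · rw [MonoidHom.mem_ker, map_mul, map_inv, hg0, g.2, inv_mul_cancel]
    · rw [map_mul, hg0, MonoidHom.mem_ker.mp g.2, mul_one]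
    · intro g
      exact Subtype.ext (mul_inv_cancel_left _ _)
    · intro g
      exact Subtype.ext (inv_mul_cancel_left _ _)
  have h2 : χ.ker.index = f.totient := by
    rw [Subgroup.index_ker, MonoidHom.range_eq_top.mpr hχ, Subgroup.card_top,
      Nat.card_eq_fintype_card, ZMod.card_units_eq_totient]
  rw [h1, ← h2, Subgroup.card_mul_index]

end Pool.Agent.PTE.DCNTS

namespace Pool.Agent.PTE

open Pool.Agent.PT

open DCNT (Up alt_congr) in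
theorem DCNTS_thm (hSING : SING) : DCNTS := by
  classical
  intro s f G _ _ χ F t hs hf hχ ht hc a C ha
  have hft : Fintype G := Fintype.ofFinite G
  let A : Finset G := Finset.univ.filter fun g => χ g = a ∧ F g
  have hcard : ∀ P : G → Prop, Nat.card {g : G // χ g = a ∧ F g ∧ P g} = (A.filter P).card := by
    intro P
    rw [Nat.card_eq_fintype_card, Fintype.card_subtype, Finset.filter_filter]
    simp only [and_assoc]
  have hA : ∀ v v' : Fin s → Fin s → ZMod 3,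
      (A.filter fun g => Up (t g) v).card = (A.filter fun g => Up (t g) v').card := by
    intro v v'
    rw [← hcard, ← hcard]
    exact ht a v v' ha
  obtain ⟨N, K, hK, hNK⟩ := DCNT.count A t hA
  have hall : K * A.card = N * Nat.card (Fin s → Fin s → ZMod 3) := by
    have h1 := hNK (fun _ => True) (fun _ _ _ _ => trivial)
    rw [Finset.filter_true, Finset.filter_true, Finset.card_univ] at h1
    rw [h1, Nat.card_eq_fintype_card]
  have hAc : Nat.card {g : G // χ g = a ∧ F g} = A.card := by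
    rw [Nat.card_eq_fintype_card, Fintype.card_subtype]
  have hφ : (0 : ℝ) < (f.totient : ℝ) := by exact_mod_cast Nat.totient_pos.2 hf
  have h4 : (Nat.card G : ℝ) / f.totient = (Nat.card {g : G // χ g = a} : ℝ) := by
    rw [div_eq_iff hφ.ne']
    exact_mod_cast (DCNTS.cls χ hf hχ a).symm
  have h5 : (2 / 3 ^ (s + 1) : ℝ) * (Nat.card {g : G // χ g = a} : ℝ) = (A.card : ℝ) := by
    have h6 : (3 : ℝ) ^ (s + 1) * (Nat.card {g : G // χ g = a ∧ F g} : ℝ) =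
        2 * (Nat.card {g : G // χ g = a} : ℝ) := by exact_mod_cast hc a ha
    rw [div_mul_eq_mul_div, ← h6, hAc]
    field_simp
  have hKR : (0 : ℝ) < (K : ℝ) := by exact_mod_cast hK
  have hmain : ∀ P : (Fin s → Fin s → ZMod 3) → Prop, (∀ v w, Up v w → P v → P w) →
      Nat.card {v : Fin s → Fin s → ZMod 3 // P v} =
        Nat.card {v : Fin s → Fin s → ZMod 3 // (alt v).det ≠ 0} →
      rh s * (2 / 3 ^ (s + 1)) * ((Nat.card G : ℝ) / f.totient) ≤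
        (Nat.card {g : G // χ g = a ∧ F g ∧ P (t g)} : ℝ) := by
    intro P hP hPc
    have h1 := hNK P hP
    rw [← Fintype.card_subtype, ← Nat.card_eq_fintype_card, hPc] at h1
    have h2 := DCNTS.nonsing hSING s hs
    rw [hcard (fun g => P (t g)), mul_assoc, h4, h5]
    have h1R : (K : ℝ) * ((A.filter fun g => P (t g)).card : ℝ) =
        N * (Nat.card {v : Fin s → Fin s → ZMod 3 // (alt v).det ≠ 0} : ℝ) := by
      exact_mod_cast h1
    have hallR : (K : ℝ) * (A.card : ℝ) = N * (Nat.card (Fin s → Fin s → ZMod 3) : ℝ) := by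
      exact_mod_cast hall
    have h3 : (K : ℝ) * (rh s * (A.card : ℝ)) ≤
        (K : ℝ) * ((A.filter fun g => P (t g)).card : ℝ) := by
      calc (K : ℝ) * (rh s * (A.card : ℝ)) = rh s * ((K : ℝ) * (A.card : ℝ)) := by ring
        _ = N * (rh s * (Nat.card (Fin s → Fin s → ZMod 3) : ℝ)) := by
            rw [hallR]
            ring
        _ ≤ N * (Nat.card {v : Fin s → Fin s → ZMod 3 // (alt v).det ≠ 0} : ℝ) :=
            mul_le_mul_of_nonneg_left h2 (Nat.cast_nonneg _)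
        _ = _ := h1R.symm
    exact le_of_mul_le_mul_left h3 hKR
  constructor
  · refine hmain (fun v => (alt (C + v)).det ≠ 0) ?_ ?_
    · intro v w hvw hv
      have h1 : Up (C + w) (C + v) := fun j i hji => by
        simp [hvw j i hji]
      change (alt (C + w)).det ≠ 0
      rw [alt_congr h1]
      exact hv
    · exact Nat.card_congr ((Equiv.addLeft C).subtypeEquiv fun v => Iff.rfl)
  · refine hmain (fun v => (alt (C - v)).det ≠ 0) ?_ ?_
    · intro v w hvw hv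
      have h1 : Up (C - w) (C - v) := fun j i hji => by
        simp [hvw j i hji]
      change (alt (C - w)).det ≠ 0
      rw [alt_congr h1]
      exact hv
    · exact Nat.card_congr ((Equiv.subLeft C).subtypeEquiv fun v => Iff.rfl)

end Pool.Agent.PTE


end

section

/-!
# Kummer theory for the cube roots of the `b_j` in the governing field
-/

open NumberField IsDedekindDomain Finset
open scoped nonZeroDivisors Pointwise

namespace Pool.Agent.PTE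

open Pool.Agent.Lib_helper18 Pool.Agent.Lib_helper18.Eis Pool.Agent.Lib_helper84.Cub
open Pool.Agent.PT

namespace GKUM

theorem cube_eq {L : Type} [Field L] {ω : L} (h : ω ^ 2 + ω + 1 = 0) {x y : L}
    (hxy : x ^ 3 = y ^ 3) : ∃ k : ℕ, x = ω ^ k * y := by
  have h1 : (x - y) * ((x - ω * y) * (x - ω ^ 2 * y)) = 0 := by
    linear_combination hxy + (-x ^ 2 * y + ω * x * y ^ 2 - (ω - 1) * y ^ 3) * h
  rcases mul_eq_zero.1 h1 with h2 | h2
  · exact ⟨0, by rw [pow_zero, one_mul]; exact sub_eq_zero.1 h2⟩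
  · rcases mul_eq_zero.1 h2 with h3 | h3
    · exact ⟨1, by rw [pow_one]; exact sub_eq_zero.1 h3⟩
    · exact ⟨2, sub_eq_zero.1 h3⟩

end GKUM

theorem GKUM_thm (hKUM : KUM) (hGKI : GKI) : GKUM := by
  intro s b p q p' q' f L _ _ ζ ω hS hG v
  have hω := hG.rel
  haveI := hG.gal
  have hf : 0 < f := by
    rcases Nat.eq_zero_or_pos f with h | h
    · exfalso
      have h1 := hG.hω
      rw [h, Nat.zero_div, pow_zero] at h1
      rw [h1] at hω
      norm_num at hω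
    · exact h
  have hζf : ζ ^ f = 1 := hG.prim.pow_eq_one
  have hζ : ∀ z : L ≃ₐ[ℚ] L, z ζ = ζ → z ω = ω := by
    intro z hz
    rw [hG.hω, map_pow, hz]
  have hb : ∀ i, b i ≠ 0 := by
    intro i hi
    refine hS.ind (fun l => if l = i then 1 else 0) ⟨i, by simp⟩ ⟨0, ?_⟩
    symm
    rw [zero_pow (by norm_num)]
    exact Finset.prod_eq_zero (Finset.mem_univ i) (by simp [hi])
  choose θ hθ using hG.root
  let F := IntermediateField.adjoin ℚ {ζ}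
  have hζF : ζ ∈ F := IntermediateField.mem_adjoin_simple_self ℚ ζ
  let ζF : F := ⟨ζ, hζF⟩
  obtain ⟨g, hg⟩ := hKUM F L (ζF ^ (f / 3)) (Fin s) (fun i => ((b i : ℤ) : F)) θ
    (by
      apply Subtype.ext
      push_cast
      rw [← hG.hω]
      exact hω)
    (fun i => by exact_mod_cast hb i)
    (fun i => by rw [hθ i, map_intCast])
    (by
      rintro n ⟨β, hβ⟩
      by_contra hcon
      push Not at hcon
      have h1 : ((β : L)) ^ 3 = ((∏ i, b i ^ n i : ℤ) : L) := by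
        have h2 := congrArg (algebraMap F L) hβ
        rw [map_pow, map_prod] at h2
        push_cast
        rw [show ((β : L)) ^ 3 = (algebraMap F L β) ^ 3 from rfl, ← h2]
        refine Finset.prod_congr rfl (fun i _ => ?_)
        rw [map_pow, map_intCast]
      obtain ⟨t, ht⟩ := hGKI L f ζ (β : L) (∏ i, b i ^ n i) hf hζf β.2 h1
      exact hS.ind n hcon ⟨t, ht⟩)
    v
  have hgζ : (g.restrictScalars ℚ) ζ = ζ := g.commutes ζF
  have hgθ : ∀ l, (g.restrictScalars ℚ) (θ l) = ω ^ (v l).val * θ l := by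
    intro l
    have h3 := hg l
    rw [AlgEquiv.restrictScalars_apply, h3, map_pow]
    rw [show algebraMap F L ζF = ζ from rfl, ← hG.hω]
  refine ⟨g.restrictScalars ℚ, hgζ, fun j ρ hρ => ?_⟩
  obtain ⟨k, hk⟩ := GKUM.cube_eq hω (show ρ ^ 3 = θ j ^ 3 by rw [hρ, hθ j])
  rw [hk, map_mul, map_pow, hζ _ hgζ, hgθ]
  ring

end Pool.Agent.PTE


end

section

/-!
# PTE: the theorem for all `n` prime to `3`
-/

set_option autoImplicit false

namespace Pool.Agent.PTE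

open Pool.Agent.Lib_helper18 Pool.Agent.Lib_helper18.Eis Pool.Agent.Lib_helper84.Cub
open Pool.Agent.PT

/-- MAINS: the theorem for all `n` prime to `3`. -/
theorem MAINS_thm (hENF : ENF) (hFINA : FINA) (hFINAS : FINAS) : MAINS := by
  intro N hN h3
  obtain ⟨n, t, π, p, e, r, f, hn, ht, hNn, hNF, hl⟩ := hENF N hN h3
  have key : RI.DensityGE {q : ℕ | ¬ ∃ X Y : ℚ, X ^ 3 + Y ^ 3 = (n : ℚ) * q}
      (1 / (30 * 3 ^ Nat.card {p : ℕ // p.Prime ∧ p % 3 = 1 ∧ ¬ 3 ∣ N.factorization p})) := by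
    rcases Nat.even_or_odd (Nat.card {p : ℕ // p.Prime ∧ p % 3 = 2 ∧
      ¬ 3 ∣ N.factorization p}) with h | h
    · refine PT.DENS.dens_mono (hFINA n _ _ π p e r f hNF (Or.inl h)) ?_
      apply one_div_le_one_div_of_le
      · positivity
      · have h1 : (0 : ℝ) < 3 ^ Nat.card {p : ℕ // p.Prime ∧ p % 3 = 1 ∧
          ¬ 3 ∣ N.factorization p} := by positivity
        linarith
    · exact hFINAS n _ _ π p e r f hNF h
  obtain ⟨C, hC⟩ := key
  refine ⟨C, fun s hs1 hs2 => ?_⟩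
  have hset : {q : ℕ | ¬ ∃ X Y : ℚ, X ^ 3 + Y ^ 3 = (n : ℚ) * q} =
      {q : ℕ | ¬ ∃ X Y : ℚ, X ^ 3 + Y ^ 3 = (N : ℚ) * q} := by
    ext q
    simp only [Set.mem_setOf_eq]
    rw [hNn, MAINT.sum_cubes_iff ht q]
  have := hC s hs1 hs2
  rw [hset] at this
  exact this

end Pool.Agent.PTE


end

section

/-!
# Prime twists of rank zero, every `n` prime to `3`: assembly
-/

namespace Pool.Agent.PTE.Final

open Pool.Agent.PT Pool.Agent.PT.Final Pool.Agent.PTE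

theorem fSPLT : SPLT := SPLT_thm fSTM fSPP fSCJ

theorem fHYPS : HYPS := HYPS_thm fSTM fSPP fSSL fSREC fSCJ fSPLT

theorem fEADMS : EADMS := EADMS_thm fSTM fSPP fSCJ fSPLT

theorem fFD2S : FD2S := FD2S_thm fSTM fSPP

theorem fEHPL : EHPL := EHPL_thm fEVEC fSPP fSTM

theorem fECLS : ECLS := ECLS_thm fEMAT fEHPL fESYS fEADMS fHYPS fFD1 fFD2S fTEND fSPLT

theorem fDCONSTS : DCONSTS := DCONSTS_thm fSTM fSPP fSSL fSLC fSCJ fLCI fAVV fLFIN fSPLT

theorem fGZEROG : GZEROG := GZEROG_thm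

theorem fGCG : GCG := GCG_thm fKUM fGKI

theorem fGKUM : GKUM := GKUM_thm fKUM fGKI

theorem fGTS : GTS := GTS_thm

theorem fGFRS : GFRS := GFRS_thm fSPLT fSPP

theorem fGALDS : GALDS := GALDS_thm fGZEROG fGCHI fGCG fGKUM fGTS fGFRS

theorem fDCNTS : DCNTS := DCNTS_thm fSING

theorem fCLSCS : CLSCS := CLSCS_thm

theorem fDENSS : DENSS := DENSS_thm fGALDS fDCNTS fSPLT

theorem fDIRS : DIRS := DIRS_thm fDIR fCLSC fCLSCS

theorem fDSUM : DSUM := DSUM_thm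

theorem fFINAS : FINAS := FINAS_thm fSPLT fECLS fDCONSTS fCLSC fCLSCS fDENSS fDIRS fDSUM

theorem fMAINS : MAINS := MAINS_thm fENF fFINA fFINAS

end Pool.Agent.PTE.Final


end

section

/-!
# PT3_DCOT: the pairing `O_{NQ^E}(b, η)` as a function of the prime `Q = 2 (mod 3)` and of `E`

Copy of `PTL/DC.lean` with `AG` in place of `Adm` and the constant term of the local point.
-/

set_option autoImplicit false

open NumberField IsDedekindDomain Finset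
open scoped nonZeroDivisors Pointwise

namespace Pool.Agent.PT3

open Pool.Agent.Lib_helper18 Pool.Agent.Lib_helper18.Eis Pool.Agent.Lib_helper84.Cub
open Pool.Agent.PT Pool.Agent.PTE

namespace DCOT

lemma sy_zeroG (hSTM : STM) (hSPP : SPP) {B x : ℤ} (hB : B ≠ 0) (hx : AG B x) (v : Pl) :
    sy v (B : Eis) (x : Eis) = 0 := by
  have h1 : ∀ π : PP, tm π.1 (B : Eis) (x : Eis) = 0 := by
    intro π
    have h1 := (hSTM π.1 π.2.1 (hSPP.2.2.2.1 π).1).skew (x : Eis) (B : Eis)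
      (DCONST.cast_ne hx.ne) (DCONST.cast_ne hB)
    rw [h1, hx.sym π, neg_zero]
  rcases v with _ | π
  · show sl (B : Eis) (x : Eis) = 0
    unfold sl
    rw [finsum_eq_zero_of_forall_eq_zero h1, neg_zero]
  · exact h1 π

open DCONST in
/-- the part `OO` of the pairing -/
theorem main (hSTM : STM) (hSPP : SPP) (hSLC : SLC)
    (hLCI : LCI) (hAVV : AVV) : ∀ (n : ℕ) (b x p q p' q' : ℤ), 0 < n → Sol b x p q p' q' →
  b ≠ 0 → x ≠ 0 → ∃ f₀ : ℕ, 0 < f₀ ∧ ∀ f : ℕ, 0 < f → f₀ ∣ f →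
  ∃ (C : ZMod 3) (Φ : (ZMod f)ˣ →* Multiplicative (ZMod 3)),
    ∀ (E Q : ℕ) (hQ : Q.Coprime f), Q.Prime → Q % 3 = 2 → AG ((n : ℤ) * Q ^ E) x →
      ∀ r : ℤ, (Q : ℤ) ∣ r ^ 3 - b → OO ((n : ℤ) * Q ^ E) b x p q p' q' =
        C + E * ((Φ (ZMod.unitOfCoprime Q hQ)).toAdd - TAUV Q p q p' q' r) := by
  intro n b x p q p' q' hn0 hs hb hx
  have hn1 := hs.n1
  have hn2 : p' ^ 3 + b * q' ^ 3 ≠ 0 := by
    intro h
    apply hs.n1
    rw [hs.eq, h, mul_zero]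
  have hnz : (n : ℤ) ≠ 0 := by omega
  obtain ⟨M, hMdef⟩ : ∃ M : ℤ, M = (n : ℤ) * b * x * (p ^ 3 + b * q ^ 3) *
    (p' ^ 3 + b * q' ^ 3) := ⟨_, rfl⟩
  have hM : M ≠ 0 := by
    rw [hMdef]
    exact mul_ne_zero (mul_ne_zero (mul_ne_zero (mul_ne_zero hnz hb) hx) hn1) hn2
  have dn : (n : ℤ) ∣ M := ⟨b * x * (p ^ 3 + b * q ^ 3) * (p' ^ 3 + b * q' ^ 3), by
    rw [hMdef]; ring⟩
  have db : b ∣ M := ⟨(n : ℤ) * x * (p ^ 3 + b * q ^ 3) * (p' ^ 3 + b * q' ^ 3), by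
    rw [hMdef]; ring⟩
  have dx : x ∣ M := ⟨(n : ℤ) * b * (p ^ 3 + b * q ^ 3) * (p' ^ 3 + b * q' ^ 3), by
    rw [hMdef]; ring⟩
  have d1 : p ^ 3 + b * q ^ 3 ∣ M := ⟨(n : ℤ) * b * x * (p' ^ 3 + b * q' ^ 3), by
    rw [hMdef]; ring⟩
  have d2 : p' ^ 3 + b * q' ^ 3 ∣ M := ⟨(n : ℤ) * b * x * (p ^ 3 + b * q ^ 3), by
    rw [hMdef]; ring⟩
  have hfin := hSPP.2.2.1 (M : Eis) (cast_ne hM)
  have hMa : 0 < M.natAbs := Int.natAbs_pos.2 hM
  refine ⟨9 * M.natAbs, by omega, ?_⟩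
  intro f hf0 hf
  have h9 : 9 ∣ f := (Dvd.intro _ rfl).trans hf
  have hf1 : 1 < f := by
    have := Nat.le_of_dvd hf0 h9
    omega
  have hMf : M ∣ (f : ℤ) := by
    have h1 : M.natAbs ∣ f := (Dvd.intro_left 9 rfl).trans hf
    exact Int.natAbs_dvd.1 (Int.natCast_dvd_natCast.2 h1)
  have hlamf : lam ^ 4 ∣ ((f : ℤ) : Eis) := by
    have h1 : ((9 : ℤ) : Eis) ∣ ((f : ℤ) : Eis) :=
      intCast_dvd_intCast.2 (by exact_mod_cast h9)
    refine Dvd.dvd.trans ⟨w ^ 4, ?_⟩ h1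
    have h2 : ((9 : ℤ) : Eis) = (3 : Eis) ^ 2 := by norm_num
    rw [h2, three_eq]
    ring
  have hQM : ∀ Q : ℕ, Q.Prime → Q.Coprime f → ¬ (Q : ℤ) ∣ M := by
    intro Q hQ hQf h
    have h1 : (Q : ℤ) ∣ (f : ℤ) := h.trans hMf
    have h2 : Q ∣ f := Int.natCast_dvd_natCast.1 h1
    have h3 := Nat.Coprime.eq_one_of_dvd hQf h2
    exact hQ.one_lt.ne' h3
  have hBne : ∀ E Q : ℕ, Q.Prime → (n : ℤ) * Q ^ E ≠ 0 := fun E Q hQ =>
    mul_ne_zero hnz (pow_ne_zero _ (by exact_mod_cast hQ.ne_zero))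
  -- the place above `3`
  obtain ⟨c₀, Φ₀, H₀⟩ : ∃ (c : ZMod 3) (Φ : (ZMod f)ˣ →* Multiplicative (ZMod 3)),
      ∀ (E Q : ℕ) (hQ : Q.Coprime f), Q.Prime → AG ((n : ℤ) * Q ^ E) x →
        TT none ((n : ℤ) * Q ^ E) b x p q p' q' =
          c + E * (Φ (ZMod.unitOfCoprime Q hQ)).toAdd := by
    by_cases hLC : LC (uni none) b
    · obtain ⟨C, Φ, H⟩   := PTL.DC.place_LC (n := (n : ℤ)) hSLC hnz hn1 hn2 hLC hf1 hlamf
      refine ⟨C + sl w (x : Eis), Φ, ?_⟩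
      intro E Q hQ hQp hax
      rw [TT_LC hLC]
      obtain ⟨N0, hN0⟩ := (hAVV none ((n : ℤ) * Q ^ E) b x p q p' q' (hBne E Q hQp) hb hx hs.toSolW
        (DCOT.sy_zeroG hSTM hSPP (hBne E Q hQp) hax none) hLC).1
      rw [H E Q hQ _ N0 hN0]
      show _ + sl w (x : Eis) = _
      ring
    · refine ⟨0, 1, ?_⟩
      intro E Q hQ hQp hax
      unfold TT
      rw [if_neg hLC]
      simp
  -- the places dividing `M`
  have hpl : ∀ π : PP, ∃ (c : ZMod 3) (Φ : (ZMod f)ˣ →* Multiplicative (ZMod 3)),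
      π.1 ∣ (M : Eis) → ∀ (E Q : ℕ) (hQ : Q.Coprime f), Q.Prime → AG ((n : ℤ) * Q ^ E) x →
        TT (some π) ((n : ℤ) * Q ^ E) b x p q p' q' =
          c + E * (Φ (ZMod.unitOfCoprime Q hQ)).toAdd := by
    intro π
    by_cases hπM : π.1 ∣ (M : Eis)
    · have hπf : π.1 ∣ ((f : ℤ) : Eis) := hπM.trans (intCast_dvd_intCast.2 hMf)
      by_cases hLC : LC (uni (some π)) b
      · obtain ⟨C, Φ, H⟩   := PTL.DC.place_LC (n := (n : ℤ)) (hSTM π.1 π.2.1 (hSPP.2.2.2.1 π).1) hnz hn1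
          hn2 hLC hf1 (by rw [pow_one]; exact hπf)
        refine ⟨C + tm π.1 w (x : Eis), Φ, ?_⟩
        intro _ E Q hQ hQp hax
        rw [TT_LC hLC]
        obtain ⟨N0, hN0⟩ := (hAVV (some π) ((n : ℤ) * Q ^ E) b x p q p' q' (hBne E Q hQp) hb hx
          hs.toSolW (DCOT.sy_zeroG hSTM hSPP (hBne E Q hQp) hax (some π)) hLC).1
        rw [H E Q hQ _ N0 hN0]
        show _ + tm π.1 w (x : Eis) = _
        ring
      · refine ⟨if 3 ∣ V π.1 (b : Eis) + V π.1 ((n : ℤ) : Eis) ∧ ¬ 3 ∣ V π.1 (b : Eis)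
          then - tm π.1 w (x : Eis) else 0, 1, ?_⟩
        intro _ E Q hQ hQp hax
        rw [TT_some hLC]
        have hVQ : V π.1 ((Q : ℤ) : Eis) = 0 := by
          apply V_eq_zero
          intro hd
          obtain ⟨y, z, hyz⟩ := Nat.isCoprime_iff_coprime.2 hQ
          apply π.2.1.not_isUnit
          apply isUnit_of_dvd_one
          have h1 : (1 : Eis) = (y : Eis) * ((Q : ℤ) : Eis) + (z : Eis) * ((f : ℤ) : Eis) := by
            have h2 := congrArg (fun t : ℤ => (t : Eis)) hyz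
            simp only [Int.cast_add, Int.cast_mul, Int.cast_one] at h2
            exact h2.symm
          rw [h1]
          exact dvd_add (dvd_mul_of_dvd_right hd _) (dvd_mul_of_dvd_right hπf _)
        have hV : V π.1 (((n : ℤ) * Q ^ E : ℤ) : Eis) = V π.1 ((n : ℤ) : Eis) := by
          have hQe : ((Q : ℤ) : Eis) ≠ 0 := cast_ne (by exact_mod_cast hQp.ne_zero)
          rw [Int.cast_mul, Int.cast_pow, V_mul π.2.1 (cast_ne hnz) (pow_ne_zero _ hQe),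
            V_pow π.2.1 hQe, hVQ, mul_zero, add_zero]
        rw [hV]
        simp
    · exact ⟨0, 1, fun h => absurd h hπM⟩
  choose c Φ H using hpl
  refine ⟨c₀ + ∑ π ∈ hfin.toFinset, c π, Φ₀ * ∏ π ∈ hfin.toFinset, Φ π, ?_⟩
  intro E Q hQ hQp hQ3 hax r hr
  obtain ⟨πQ, hπQ⟩ := hSPP.2.2.2.2.1 Q hQp hQ3
  have hQc : ((Q : ℤ) : Eis) = (Q : Eis) := Int.cast_natCast Q
  have hπQ' : πQ.1 = ((Q : ℤ) : Eis) := by rw [hπQ, hQc]
  have hQnd : ∀ m : ℤ, m ∣ M → ¬ πQ.1 ∣ (m : Eis) := by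
    intro m hm h
    rw [hπQ'] at h
    exact hQM Q hQp hQ ((intCast_dvd_intCast.1 h).trans hm)
  have hQw : ¬ πQ.1 ∣ w := not_dvd_w πQ.2.1
  have hBcast : (((n : ℤ) * Q ^ E : ℤ) : Eis) = ((n : ℤ) : Eis) * πQ.1 ^ E := by
    rw [Int.cast_mul, Int.cast_pow, hπQ']
  -- the place `Q`
  have hTQ : TT (some πQ) ((n : ℤ) * Q ^ E) b x p q p' q' = - (E * TAUV Q p q p' q' r) := by
    have hLC : LC (uni (some πQ)) b := by
      refine (hLCI.1 πQ b hb).2 ⟨?_, ?_⟩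
      · rw [V_eq_zero (hQnd b db)]
        exact dvd_zero 3
      · unfold ch up
        rw [V_eq_zero (hQnd b db), pow_zero, EuclideanDomain.div_one, hπQ]
        refine sym_int hQp hQ3 ?_
        intro h
        exact hQM Q hQp hQ (h.trans db)
    rw [TT_LC hLC]
    have hw : sy (some πQ) w (x : Eis) = 0 := tm_zero hQw (hQnd x dx)
    rw [hw, add_zero]
    refine (hAVV (some πQ) ((n : ℤ) * Q ^ E) b x p q p' q' (hBne E Q hQp) hb hx
      hs.toSolW (DCOT.sy_zeroG hSTM hSPP (hBne E Q hQp) hax (some πQ)) hLC).2 _ 1 ?_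
    intro r' hr'
    have hr1 : πQ.1 ∣ (r' : Eis) ^ 3 - (b : Eis) := by
      have h1 : πQ.1 ^ 1 ∣ (r' : Eis) ^ 3 - (b : Eis) := hr'
      rwa [pow_one] at h1
    have hrr : (Q : ℤ) ∣ r' - r := by
      apply root_unique hQp hQ3
      have h1 : (Q : ℤ) ∣ r' ^ 3 - b := by
        rw [hπQ'] at hr1
        apply intCast_dvd_intCast.1
        push_cast
        push_cast at hr1
        exact hr1
      have h2 : r' ^ 3 - r ^ 3 = (r' ^ 3 - b) - (r ^ 3 - b) := by ring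
      rw [h2]
      exact dvd_sub h1 hr
    have hrr' : πQ.1 ∣ (r' : Eis) - (r : Eis) := by
      rw [hπQ', ← Int.cast_sub]
      exact intCast_dvd_intCast.2 hrr
    have hsym : ∀ (g h : ℤ) (i : ℕ), sym (Q : Eis) (Lf g h i r') = sym (Q : Eis) (Lf g h i r) := by
      intro g h i
      apply sym_congr
      rw [← hπQ]
      have h1 : Lf g h i r' - Lf g h i r = (h * w ^ i) * ((r' : Eis) - r) := by
        unfold Lf
        ring
      rw [h1]
      exact dvd_mul_of_dvd_right hrr' _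
    have k1 := Lf_ndvd (p := p) (q := q) hr1 (hQnd _ d1)
    have k2 := Lf_ndvd (p := p') (q := q') hr1 (hQnd _ d2)
    show tm πQ.1 (((n : ℤ) * Q ^ E : ℤ) : Eis) (Lf p q 2 r') +
      tm πQ.1 (((n : ℤ) * Q ^ E : ℤ) : Eis) (Lf p' q' 1 r') -
      tm πQ.1 (((n : ℤ) * Q ^ E : ℤ) : Eis) (Lf p q 1 r') -
      tm πQ.1 (((n : ℤ) * Q ^ E : ℤ) : Eis) (Lf p' q' 2 r') = - (E * TAUV Q p q p' q' r)
    rw [hBcast, PTL.DC.tm_inert πQ.2.1 (hQnd _ dn) (k1 2), PTL.DC.tm_inert πQ.2.1 (hQnd _ dn) (k2 1),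
      PTL.DC.tm_inert πQ.2.1 (hQnd _ dn) (k1 1), PTL.DC.tm_inert πQ.2.1 (hQnd _ dn) (k2 2), hπQ, hsym, hsym,
      hsym, hsym]
    unfold TAUV
    ring
  -- the sum
  have hQS : πQ ∉ hfin.toFinset := by
    rw [Set.Finite.mem_toFinset]
    exact hQnd M dvd_rfl
  classical
  have hsupp : (Function.support fun v : Pl => TT v ((n : ℤ) * Q ^ E) b x p q p' q') ⊆
      ((insert none (insert (some πQ) (hfin.toFinset.image some)) : Finset Pl) : Set Pl) := by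
    intro v hv
    by_contra hnv
    apply hv
    rcases v with _ | π
    · exact absurd (Finset.mem_coe.2 (Finset.mem_insert_self _ _)) hnv
    · have hnM : ¬ π.1 ∣ (M : Eis) := by
        intro h
        apply hnv
        rw [Finset.mem_coe]
        refine Finset.mem_insert_of_mem (Finset.mem_insert_of_mem (Finset.mem_image_of_mem _ ?_))
        rw [Set.Finite.mem_toFinset]
        exact h
      have hπne : π ≠ πQ := by
        rintro rfl
        apply hnv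
        rw [Finset.mem_coe]
        exact Finset.mem_insert_of_mem (Finset.mem_insert_self _ _)
      have hd : ∀ m : ℤ, m ∣ M → ¬ π.1 ∣ (m : Eis) := fun m hm h =>
        hnM (h.trans (intCast_dvd_intCast.2 hm))
      have hπQnd : ¬ π.1 ∣ πQ.1 := by
        intro h
        exact hπne (hSPP.2.1 π πQ (π.2.1.associated_of_dvd πQ.2.1 h))
      have hnB : ¬ π.1 ∣ (((n : ℤ) * Q ^ E : ℤ) : Eis) := by
        rw [hBcast]
        intro h
        rcases π.2.1.dvd_or_dvd h with h1 | h1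
        · exact hd _ dn h1
        · exact hπQnd (π.2.1.dvd_of_dvd_pow h1)
      have hnw : ¬ π.1 ∣ w := not_dvd_w π.2.1
      show TT (some π) ((n : ℤ) * Q ^ E) b x p q p' q' = 0
      by_cases hLC : LC (uni (some π)) b
      · rw [TT_LC hLC]
        have hw : sy (some π) w (x : Eis) = 0 := tm_zero hnw (hd x dx)
        obtain ⟨N0, hN0⟩ := (hAVV (some π) ((n : ℤ) * Q ^ E) b x p q p' q' (hBne E Q hQp) hb hx
          hs.toSolW (DCOT.sy_zeroG hSTM hSPP (hBne E Q hQp) hax (some π)) hLC).1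
        obtain ⟨r₁, hr₁⟩ := hLC (max N0 1)
        have hr0 : uni (some π) ^ N0 ∣ (r₁ : Eis) ^ 3 - (b : Eis) :=
          (pow_dvd_pow _ (le_max_left _ _)).trans hr₁
        have hr1 : π.1 ∣ (r₁ : Eis) ^ 3 - (b : Eis) := by
          have h1 : π.1 ^ 1 ∣ (r₁ : Eis) ^ 3 - (b : Eis) :=
            (pow_dvd_pow π.1 (le_max_right N0 1)).trans hr₁
          rwa [pow_one] at h1
        have k1 := Lf_ndvd (p := p) (q := q) hr1 (hd _ d1)
        have k2 := Lf_ndvd (p := p') (q := q') hr1 (hd _ d2)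
        rw [hw, ← hN0 r₁ hr0]
        show tm π.1 (((n : ℤ) * Q ^ E : ℤ) : Eis) (Lf p q 2 r₁) +
          tm π.1 (((n : ℤ) * Q ^ E : ℤ) : Eis) (Lf p' q' 1 r₁) -
          tm π.1 (((n : ℤ) * Q ^ E : ℤ) : Eis) (Lf p q 1 r₁) -
          tm π.1 (((n : ℤ) * Q ^ E : ℤ) : Eis) (Lf p' q' 2 r₁) + 0 = 0
        rw [tm_zero hnB (k1 2), tm_zero hnB (k2 1), tm_zero hnB (k1 1), tm_zero hnB (k2 2)]
        simp
      · rw [TT_some hLC, if_neg]
        rintro ⟨-, h1⟩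
        apply h1
        rw [V_eq_zero (hd b db)]
        exact dvd_zero 3
  have hn_notin : (none : Pl) ∉ insert (some πQ) (hfin.toFinset.image some) := by
    simp
  have hQ_notin : (some πQ : Pl) ∉ hfin.toFinset.image some := by
    intro h
    obtain ⟨y, hy, hy'⟩ := Finset.mem_image.1 h
    rw [Option.some.injEq] at hy'
    rw [hy'] at hy
    exact hQS hy
  have hsum : ∑ π ∈ hfin.toFinset, TT (some π) ((n : ℤ) * Q ^ E) b x p q p' q' =
      ∑ π ∈ hfin.toFinset, (c π + E * (Φ π (ZMod.unitOfCoprime Q hQ)).toAdd) := by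
    refine Finset.sum_congr rfl ?_
    intro π hπ
    rw [Set.Finite.mem_toFinset] at hπ
    exact H π hπ E Q hQ hQp hax
  unfold OO
  rw [finsum_eq_sum_of_support_subset _ hsupp, Finset.sum_insert hn_notin,
    Finset.sum_insert hQ_notin, Finset.sum_image (fun _ _ _ _ h => Option.some_injective _ h),
    hsum, hTQ, H₀ E Q hQ hQp hax, Finset.sum_add_distrib, MonoidHom.mul_apply,
    MonoidHom.finsetProd_apply, toAdd_mul, toAdd_prod, ← Finset.mul_sum]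
  ring

end DCOT

/-- DCOT: the pairing `O_{NQ^E}(b, η)` as a function of the prime `Q = 2 (mod 3)` and of `E`. -/
theorem DCOT_thm (hSTM : STM) (hSPP : SPP) (hSLC : SLC) (hLCI : LCI) (hAVV : AVV)
    (_hSCJ : SCJ) : DCOT := by
  classical
  intro N b X Y x p q p' q' hN hs hb hx
  obtain ⟨f₀, hf₀, H⟩ := DCOT.main hSTM hSPP hSLC hLCI hAVV N b x p q p' q' hN hs hb hx
  refine ⟨f₀, hf₀, fun f hf hd => ?_⟩
  obtain ⟨C, Φ, H1⟩ := H f hf hd
  refine ⟨C + (if LC lam b then 0 else SV sl b p (-p') (-q) q' X Y), Φ, ?_⟩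
  intro E Q hQ hQp hQ3 hax r hr
  have h1 := H1 E Q hQ hQp hQ3 hax r hr
  unfold OT
  rw [h1]
  by_cases hLC : LC lam b
  · simp only [if_pos hLC]
    ring
  · simp only [if_neg hLC]
    ring

end Pool.Agent.PT3


end

section

/-!
# PT3, EMA0: the number of the classes with an invertible matrix
-/

namespace Pool.Agent.PT3

open Pool.Agent.PT Pool.Agent.PTE

namespace EMA0

/-- The matrix of a class is the matrix of the class `0` minus a diagonal matrix. -/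
theorem Mp_eq (n m k : ℕ) (π : Fin m → PP) (p e : Fin m → ℕ) (r : Fin k → ℕ)
    (c : Fin m → ZMod 3) :
    Mp n π p e r none c =
      Mp n π p e r none (fun _ => 0) -
        Matrix.diagonal (Fin.cons 0 c : Fin (m + 1) → ZMod 3) := by
  ext a b
  rw [Matrix.sub_apply, Matrix.diagonal_apply]
  refine Fin.cases ?_ (fun i => ?_) a
  · rw [Fin.cons_zero, ite_self, sub_zero]
    rfl
  · refine Fin.cases ?_ (fun i' => ?_) b
    · rw [if_neg (Fin.succ_ne_zero i), sub_zero]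
      rfl
    · by_cases h : i' = i
      · subst h
        rw [if_pos rfl, Fin.cons_succ]
        simp only [Mp, Fin.cases_succ, if_true, sub_zero]
      · rw [if_neg (fun h' => h (Fin.succ_injective _ h').symm), sub_zero]
        simp only [Mp, Fin.cases_succ, if_neg h]

end EMA0

theorem EMA0_thm (hEDC : EDC) : EMA0 := by
  intro n m k π p e r
  have h := hEDC m (Mp n π p e r none (fun _ => 0)) (by
    have : Mp n π p e r none (fun _ => 0) 0 0 = 1 := rfl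
    rw [this]
    exact one_ne_zero)
  refine h.trans (le_of_eq (Nat.card_congr (Equiv.subtypeEquivRight fun c => ?_)))
  rw [EMA0.Mp_eq n m k π p e r c]

end Pool.Agent.PT3


end

section

/-!
# PT3_LAMG: the local form of the antisymmetry at the tame places
-/

namespace Pool.Agent.PT3

open Pool.Agent.Lib_helper18 Pool.Agent.Lib_helper18.Eis Pool.Agent.Lib_helper84.Cub
open Pool.Agent.PT Pool.Agent.PTE

namespace LAMG

open Pool.Agent.PT.LAM in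
/-- `(B, b) = 0` at the tame places -/
theorem sy_zero {B b : ℤ} (h : AG B b) (π : PP) : sy (some π) (B : Eis) (b : Eis) = 0 := by
  show tm π.1 (B : Eis) (b : Eis) = 0
  rw [tm_swap π.1 (b : Eis) (B : Eis), h.sym π, neg_zero]

open Pool.Agent.PT.LAM in
/-- the case that `b` is a local cube and `x` is not -/
theorem half (hSTM : STM) (hSPP : SPP) (hSLC : SLC) (hLCI : LCI) (hAVV : AVV) (hF2B : F2BG)
    (π : PP) (B b x p q p' q' : ℤ) (hB : BG B) (hb : AG B b) (hx : AG B x)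
    (hs : Sol b x p q p' q') (h1 : LC (uni (some π)) b) (h2 : ¬ LC (uni (some π)) x) :
    TT (some π) B b x p q p' q' = UV (sy (some π)) B b x p q p' q' ∧
      TT (some π) B x b p (-p') (-q) q' = 0 := by
  obtain ⟨e, hL⟩ := lsym hSTM hSPP hSLC (some π)
  have hwb : sy (some π) w (b : Eis) = 0 := w_lc hLCI hL hb.ne h1
  obtain ⟨N0, hN⟩ := hF2B π B b x p q p' q' hB hb hx hs h1 h2
  have hA := (hAVV (some π) B b x p q p' q' hB.ne hb.ne hx.ne hs.toSolW (sy_zero hx π) h1).2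
    _ N0 hN
  constructor
  · unfold TT
    rw [if_pos h1, hA]
    unfold UV
    rw [w_mul hL hB.ne hx.ne hb.ne, hwb]
    show tm π.1 (B : Eis) (Gf p q p' q' 1) - tm π.1 (B : Eis) (Gf p q p' q' 2) +
        tm π.1 w (B : Eis) + tm π.1 w (x : Eis) =
      tm π.1 (B : Eis) (Gf p q p' q' 1) - tm π.1 (B : Eis) (Gf p q p' q' 2) +
        (tm π.1 w (B : Eis) + tm π.1 w (x : Eis) + 0)
    ring
  · unfold TT
    rw [if_neg h2]
    show (if 3 ∣ V π.1 (x : Eis) + V π.1 (B : Eis) ∧ ¬ 3 ∣ V π.1 (x : Eis)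
      then - tm π.1 w (b : Eis) else 0) = 0
    have hwb' : tm π.1 w (b : Eis) = 0 := hwb
    rw [hwb', neg_zero, ite_self]

/-- an admissible noncube at a place dividing `B` has valuation prime to `3` -/
theorem val_nc (hLCI : LCI) {B b : ℤ} (hB : BG B) (hb : AG B b) (π : PP)
    (hd : π.1 ∣ (B : Eis)) (h : ¬ LC π.1 b) : ¬ 3 ∣ V π.1 (b : Eis) := by
  intro h3
  apply h
  rw [hLCI.1 π b hb.ne]
  refine ⟨h3, ?_⟩
  have h1 : tm π.1 (b : Eis) (B : Eis) = 0 := hb.sym π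
  have h2 : ((V π.1 (b : Eis) : ℕ) : ZMod 3) = 0 := by
    rw [ZMod.natCast_eq_zero_iff]
    exact h3
  unfold tm at h1
  rw [h2, zero_mul, sub_zero] at h1
  have h4 : V π.1 (B : Eis) ≤ 2 := hB.cf π
  have h5 : V π.1 (B : Eis) ≠ 0 := by
    intro h0
    exact (V_eq_zero_iff.1 h0) hd
  have h6 : ((V π.1 (B : Eis) : ℕ) : ZMod 3) ≠ 0 := by
    intro h0
    rw [ZMod.natCast_eq_zero_iff] at h0
    omega
  have : Fact (Nat.Prime 3) := ⟨Nat.prime_three⟩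
  rcases mul_eq_zero.1 h1 with h7 | h7
  · exact absurd h7 h6
  · exact h7

end LAMG

set_option linter.unusedVariables false in
open _root_.Pool.Agent.PT3.LAMG Pool.Agent.PT.LAM in
theorem LAMG_thm (hSTM : STM) (hSPP : SPP) (hSSL : SSL) (hSLC : SLC) (hSREC : SREC)
    (hSCJ : SCJ) (hLCI : LCI) (hIF1 : IF1) (hAVV : AVV) (hTAMG : TAMG) : LAMG := by
  intro π B b x p q p' q' hB hb hx hs
  obtain ⟨hF2B, hF3R, hF3U⟩ := hTAMG
  obtain ⟨e, hL⟩ := lsym hSTM hSPP hSLC (some π)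
  have hs' := sol_swap hs
  show TT (some π) B b x p q p' q' + TT (some π) B x b p (-p') (-q) q' =
    UV (sy (some π)) B b x p q p' q'
  by_cases h1 : LC (uni (some π)) b
  · by_cases h2 : LC (uni (some π)) x
    · -- both are local cubes
      obtain ⟨N0, hN⟩ := hIF1 (uni (some π)) (sy (some π)) e hL b x p q p' q' hb.ne hx.ne hs
      obtain ⟨N1, hN1⟩ := (hAVV (some π) B b x p q p' q' hB.ne hb.ne hx.ne hs.toSolW
        (LAMG.sy_zero hx π) h1).1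
      obtain ⟨N2, hN2⟩ := (hAVV (some π) B x b p (-p') (-q) q' hB.ne hx.ne hb.ne hs'.toSolW
        (LAMG.sy_zero hb π) h2).1
      obtain ⟨r, hr⟩ := h1 (max N0 N1)
      obtain ⟨ξ, hξ⟩ := h2 (max N0 N2)
      have hwb : sy (some π) w (b : Eis) = 0 := w_lc hLCI hL hb.ne h1
      have hwx : sy (some π) w (x : Eis) = 0 := w_lc hLCI hL hx.ne h2
      have e1 := hN r ξ (dvd_weak (le_max_left _ _) hr) (dvd_weak (le_max_left _ _) hξ)
        (B : Eis) (icast_ne hB.ne)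
      have e2 := hN1 r (dvd_weak (le_max_right _ _) hr)
      have e3 := hN2 ξ (dvd_weak (le_max_right _ _) hξ)
      unfold TT
      rw [if_pos h1, if_pos h2, hwb, hwx, ← e2, ← e3]
      unfold UV
      rw [w_mul hL hB.ne hx.ne hb.ne, hwb, hwx]
      linear_combination e1
    · obtain ⟨h3, h4⟩ := LAMG.half hSTM hSPP hSLC hLCI hAVV hF2B π B b x p q p' q' hB hb hx
        hs h1 h2
      rw [h3, h4, add_zero]
  · by_cases h2 : LC (uni (some π)) x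
    · obtain ⟨h3, h4⟩ := LAMG.half hSTM hSPP hSLC hLCI hAVV hF2B π B x b p (-p') (-q) q' hB hx
        hb hs' h2 h1
      rw [h3, UV_swap]
      rw [neg_neg, neg_neg] at h4
      rw [h4, zero_add]
    · -- both are not local cubes
      have hT1 : TT (some π) B b x p q p' q' =
          if 3 ∣ V π.1 (b : Eis) + V π.1 (B : Eis) ∧ ¬ 3 ∣ V π.1 (b : Eis)
            then - tm π.1 w (x : Eis) else 0 := by
        unfold TT
        rw [if_neg h1]
      have hT2 : TT (some π) B x b p (-p') (-q) q' =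
          if 3 ∣ V π.1 (x : Eis) + V π.1 (B : Eis) ∧ ¬ 3 ∣ V π.1 (x : Eis)
            then - tm π.1 w (b : Eis) else 0 := by
        unfold TT
        rw [if_neg h2]
      have h1' : ¬ LC π.1 b := h1
      have h2' : ¬ LC π.1 x := h2
      rw [hT1, hT2]
      show _ = UV (tm π.1) B b x p q p' q'
      by_cases hd : π.1 ∣ (B : Eis)
      · have hvb := LAMG.val_nc hLCI hB hb π hd h1'
        have hvx := LAMG.val_nc hLCI hB hx π hd h2'
        rw [hF3R π B b x p q p' q' hB hb hx hs hd hvb hvx]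
        simp only [hvb, hvx, not_false_eq_true, and_true]
      · have hvb : V π.1 (b : Eis) = 0 := V_eq_zero (hb.unr π hd)
        have hvx : V π.1 (x : Eis) = 0 := V_eq_zero (hx.unr π hd)
        have hcb : ch π.1 (b : Eis) ≠ 0 := by
          intro h0
          apply h1'
          rw [hLCI.1 π b hb.ne]
          exact ⟨by rw [hvb]; exact dvd_zero 3, h0⟩
        have hcx : ch π.1 (x : Eis) ≠ 0 := by
          intro h0
          apply h2'
          rw [hLCI.1 π x hx.ne]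
          exact ⟨by rw [hvx]; exact dvd_zero 3, h0⟩
        rw [hF3U π B b x p q p' q' hB hb hx hs hd hcb hcx, hvb, hvx]
        simp

end Pool.Agent.PT3


end

section

/-!
# Module LE1: the local evaluation at `lam`, `b` in the class of `B`, `v(B) = 1`, `x` not a cube
(reduction to LN1)
-/

set_option autoImplicit false

namespace Pool.Agent.PT3

open Pool.Agent.Lib_helper18 Pool.Agent.Lib_helper18.Eis Pool.Agent.Lib_helper84.Cub
open Pool.Agent.PT Pool.Agent.PTE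

namespace LE1

open F5L

/-- a pair of integers is a power of `3` times a pair of integers not both divisible by `3` -/
theorem exists_pair : ∀ (n : ℕ) (u v : ℤ), u.natAbs + v.natAbs ≤ n → ¬ (u = 0 ∧ v = 0) →
    ∃ A u1 v1 : ℤ, A ≠ 0 ∧ u = A * u1 ∧ v = A * v1 ∧ ¬ ((3 : ℤ) ∣ u1 ∧ (3 : ℤ) ∣ v1) := by
  intro n
  induction n with
  | zero =>
    intro u v h h0
    exact absurd ⟨by omega, by omega⟩ h0
  | succ n ih =>
    intro u v h h0
    by_cases h3 : (3 : ℤ) ∣ u ∧ (3 : ℤ) ∣ v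
    · obtain ⟨⟨u1, rfl⟩, v1, rfl⟩ := h3
      have e1 : (3 * u1).natAbs = 3 * u1.natAbs := by rw [Int.natAbs_mul]; rfl
      have e2 : (3 * v1).natAbs = 3 * v1.natAbs := by rw [Int.natAbs_mul]; rfl
      have h1 : ¬ (u1 = 0 ∧ v1 = 0) := by
        rintro ⟨rfl, rfl⟩
        exact h0 ⟨rfl, rfl⟩
      have h2 : ¬ (u1.natAbs = 0 ∧ v1.natAbs = 0) := by
        rintro ⟨h3, h4⟩
        exact h1 ⟨Int.natAbs_eq_zero.1 h3, Int.natAbs_eq_zero.1 h4⟩
      obtain ⟨A, u2, v2, hA, hu, hv, h4⟩ := ih u1 v1 (by omega) h1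
      refine ⟨3 * A, u2, v2, mul_ne_zero (by norm_num) hA, ?_, ?_, h4⟩
      · rw [hu]; ring
      · rw [hv]; ring
    · exact ⟨1, u, v, one_ne_zero, (one_mul u).symm, (one_mul v).symm, h3⟩

theorem pair (u v : ℤ) (h : ¬ (u = 0 ∧ v = 0)) :
    ∃ A u1 v1 : ℤ, A ≠ 0 ∧ u = A * u1 ∧ v = A * v1 ∧ ¬ ((3 : ℤ) ∣ u1 ∧ (3 : ℤ) ∣ v1) :=
  exists_pair _ u v le_rfl h

/-- additive functions -/
def Ad (l : ℤ → ZMod 3) : Prop := ∀ a b : ℤ, a ≠ 0 → b ≠ 0 → l (a * b) = l a + l b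

theorem Ad.cube {l : ℤ → ZMod 3} (h : Ad l) {t N : ℤ} (ht : t ≠ 0) (hN : N ≠ 0) :
    l (t ^ 3 * N) = l N := by
  have h3 : (3 : ZMod 3) = 0 := rfl
  have e : t ^ 3 * N = t * (t * (t * N)) := by ring
  rw [e, h t _ ht (mul_ne_zero ht (mul_ne_zero ht hN)), h t _ ht (mul_ne_zero ht hN),
    h t _ ht hN]
  linear_combination (l t) * h3

theorem S_scale (hS : SSL) (hC : SCJ) {t g h N : ℤ} (ht : t ≠ 0) (H : ¬ (g = 0 ∧ h = 0))
    (hN : N ≠ 0) : S (t * g) (t * h) N = S g h N := by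
  unfold S
  have h1 : E (t * g) (t * h) = ((t : ℤ) : Eis) * E g h := by
    unfold E; push_cast; ring
  rw [h1, mulL hS (eisInt_ne ht) (E_ne H) (eisInt_ne hN), int_int hC ht hN, zero_add]

/-- the part of `b` prime to cubes -/
theorem exists_b (hLCL : LCL) {b : ℤ} (hb : b ≠ 0) (h1 : lv b = 1) :
    ∃ T b1 : ℤ, T ≠ 0 ∧ b = T ^ 3 * b1 ∧ (3 : ℤ) ∣ b1 ∧ ¬ (9 : ℤ) ∣ b1 := by
  obtain ⟨-, c2, c3, c4, -⟩ := hLCL
  obtain ⟨k, N, hN, h3⟩ : ∃ (k : ℕ) (N : ℤ), b = 3 ^ k * N ∧ ¬ (3 : ℤ) ∣ N := by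
    have hf : FiniteMultiplicity (3 : ℤ) b := Int.finiteMultiplicity_iff.2 ⟨by norm_num, hb⟩
    obtain ⟨c, h1, h2⟩ := hf.exists_eq_pow_mul_and_not_dvd
    exact ⟨_, c, h1, h2⟩
  have hN0 : N ≠ 0 := by
    rintro rfl
    exact h3 (dvd_zero _)
  have hk : ∀ k : ℕ, lv (3 ^ k * N) = k := by
    intro k
    induction k with
    | zero => rw [pow_zero, one_mul, (c4 N h3).1, Nat.cast_zero]
    | succ k ih =>
      rw [pow_succ', mul_assoc, (c2 3 _ (by norm_num) (mul_ne_zero (pow_ne_zero _ (by norm_num))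
        hN0)).1, ih, c3.1]
      push_cast
      ring
  rw [hN, hk] at h1
  have h4 : k % 3 = 1 := by
    have h5 : ((k : ℕ) : ZMod 3) = ((1 : ℕ) : ZMod 3) := by rw [h1]; norm_num
    rw [ZMod.natCast_eq_natCast_iff] at h5
    exact h5
  refine ⟨3 ^ (k / 3), 3 * N, pow_ne_zero _ (by norm_num), ?_, Dvd.intro _ rfl, ?_⟩
  · rw [hN, ← pow_mul, ← mul_assoc, ← pow_succ]
    congr 2
    omega
  · intro h9
    apply h3
    obtain ⟨t, ht⟩ := h9
    exact ⟨t, by omega⟩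

/-- the relations between the classes -/
theorem rels {l : ℤ → ZMod 3} (h : Ad l) {b x p q p' q' X Y T b1 A p1 q1 C p1' q1' D X3 Y3 : ℤ}
    (hx : x ≠ 0) (hT : T ≠ 0) (hb1 : b1 ≠ 0) (hA : A ≠ 0) (hC : C ≠ 0)
    (hD : D ≠ 0) (hb : b = T ^ 3 * b1) (hp : p = A * p1) (hq : T * q = A * q1)
    (hp' : p' = C * p1') (hq' : T * q' = C * q1') (hX : C * X = D * X3) (hY : A * Y = D * Y3)
    (heq : p ^ 3 + b * q ^ 3 = x * (p' ^ 3 + b * q' ^ 3)) (hn1 : p ^ 3 + b * q ^ 3 ≠ 0)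
    (hn2 : p ^ 3 - x * p' ^ 3 ≠ 0) (hn0 : X ^ 3 + x * Y ^ 3 ≠ 0) :
    p1 ^ 3 + b1 * q1 ^ 3 ≠ 0 ∧ p1' ^ 3 + b1 * q1' ^ 3 ≠ 0 ∧
    (p1' ^ 3 + b1 * q1' ^ 3) * X3 ^ 3 + (p1 ^ 3 + b1 * q1 ^ 3) * Y3 ^ 3 ≠ 0 ∧
    p1 ^ 3 * q1' ^ 3 - q1 ^ 3 * p1' ^ 3 ≠ 0 ∧ x * q' ^ 3 - q ^ 3 ≠ 0 ∧
    l b = l b1 ∧ l (p1 ^ 3 + b1 * q1 ^ 3) = l x + l (p1' ^ 3 + b1 * q1' ^ 3) ∧
    l (p ^ 3 - x * p' ^ 3) + l (p1' ^ 3 + b1 * q1' ^ 3) =
      l b1 + l (p1 ^ 3 * q1' ^ 3 - q1 ^ 3 * p1' ^ 3) ∧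
    l b1 + l (x * q' ^ 3 - q ^ 3) = l (p ^ 3 - x * p' ^ 3) ∧
    l ((p1' ^ 3 + b1 * q1' ^ 3) * X3 ^ 3 + (p1 ^ 3 + b1 * q1 ^ 3) * Y3 ^ 3) =
      l (p1' ^ 3 + b1 * q1' ^ 3) + l (X ^ 3 + x * Y ^ 3) := by
  have hb0 : b ≠ 0 := by rw [hb]; exact mul_ne_zero (pow_ne_zero _ hT) hb1
  have hq3 : (T * q) ^ 3 = (A * q1) ^ 3 := by rw [hq]
  have hq3' : (T * q') ^ 3 = (C * q1') ^ 3 := by rw [hq']
  have hX3 : (C * X) ^ 3 = (D * X3) ^ 3 := by rw [hX]
  have hY3 : (A * Y) ^ 3 = (D * Y3) ^ 3 := by rw [hY]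
  have eF : A ^ 3 * (p1 ^ 3 + b1 * q1 ^ 3) = p ^ 3 + b * q ^ 3 := by
    rw [hb, hp]
    linear_combination (-b1) * hq3
  have eH : C ^ 3 * (p1' ^ 3 + b1 * q1' ^ 3) = p' ^ 3 + b * q' ^ 3 := by
    rw [hb, hp']
    linear_combination (-b1) * hq3'
  have hF : p1 ^ 3 + b1 * q1 ^ 3 ≠ 0 := by
    intro h0
    rw [h0, mul_zero] at eF
    exact hn1 eF.symm
  have hH : p1' ^ 3 + b1 * q1' ^ 3 ≠ 0 := by
    intro h0
    rw [h0, mul_zero] at eH
    rw [← eH, mul_zero] at heq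
    exact hn1 heq
  have r1 : A ^ 3 * (p1 ^ 3 + b1 * q1 ^ 3) = x * (C ^ 3 * (p1' ^ 3 + b1 * q1' ^ 3)) := by
    rw [eF, eH, heq]
  have r2 : C ^ 3 * ((p ^ 3 - x * p' ^ 3) * (p1' ^ 3 + b1 * q1' ^ 3)) =
      (A * C) ^ 3 * (b1 * (p1 ^ 3 * q1' ^ 3 - q1 ^ 3 * p1' ^ 3)) := by
    rw [hp, hp']
    linear_combination (C * p1') ^ 3 * r1
  have r3 : b * (x * q' ^ 3 - q ^ 3) = p ^ 3 - x * p' ^ 3 := by
    linear_combination -heq
  have r4 : D ^ 3 * ((p1' ^ 3 + b1 * q1' ^ 3) * X3 ^ 3 + (p1 ^ 3 + b1 * q1 ^ 3) * Y3 ^ 3) =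
      C ^ 3 * ((p1' ^ 3 + b1 * q1' ^ 3) * (X ^ 3 + x * Y ^ 3)) := by
    linear_combination Y ^ 3 * r1 - (p1' ^ 3 + b1 * q1' ^ 3) * hX3 -
      (p1 ^ 3 + b1 * q1 ^ 3) * hY3
  have hM : (p1' ^ 3 + b1 * q1' ^ 3) * X3 ^ 3 + (p1 ^ 3 + b1 * q1 ^ 3) * Y3 ^ 3 ≠ 0 := by
    intro h0
    rw [h0, mul_zero] at r4
    exact mul_ne_zero (pow_ne_zero 3 hC) (mul_ne_zero hH hn0) r4.symm
  have hW : p1 ^ 3 * q1' ^ 3 - q1 ^ 3 * p1' ^ 3 ≠ 0 := by
    intro h0
    rw [h0, mul_zero, mul_zero] at r2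
    exact mul_ne_zero (pow_ne_zero 3 hC) (mul_ne_zero hn2 hH) r2
  have hN : x * q' ^ 3 - q ^ 3 ≠ 0 := by
    intro h0
    rw [h0, mul_zero] at r3
    exact hn2 r3.symm
  have e0 : l b = l b1 := by rw [hb, h.cube hT hb1]
  refine ⟨hF, hH, hM, hW, hN, e0, ?_, ?_, ?_, ?_⟩
  · rw [← h.cube hA hF, r1, h x _ hx (mul_ne_zero (pow_ne_zero 3 hC) hH), h.cube hC hH]
  · rw [← h _ _ hn2 hH, ← h _ _ hb1 hW, ← h.cube hC (mul_ne_zero hn2 hH), r2,
      h.cube (mul_ne_zero hA hC) (mul_ne_zero hb1 hW)]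
  · rw [← e0, ← h _ _ hb0 hN, r3]
  · rw [← h.cube hD hM, r4, h.cube hC (mul_ne_zero hH hn0), h _ _ hH hn0]

end LE1

open _root_.Pool.Agent.PT3.LE1 F5L in
/-- LE1 -/
theorem LE1_thm (hLN1 : LN1) (hLCL : LCL) (hSCJ : SCJ) (hSSL : SSL) (hSLC : SLC)
    (hSREC : SREC) : LE1 := by
  have _ := hSLC
  have _ := hSREC
  intro B b x p q p' q' X Y hB hb hx hsol hlvB hlvb hlwb hLC hPt
  obtain ⟨hX, hY, hn0, hcl1, hcl2⟩ := hPt
  obtain ⟨⟨heq, hn1⟩, hn2⟩ := hsol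
  obtain ⟨T, b1, hT, hbT, hb3, hb9⟩ := exists_b hLCL hb (hlvb.trans hlvB)
  obtain ⟨c1, c2, c3, c4, c5, c6, c7⟩ := hLCL
  have hb1 : b1 ≠ 0 := by
    rintro rfl
    exact hb9 (dvd_zero _)
  have hadv : Ad lv := fun a b ha hb => (c2 a b ha hb).1
  have hadw : Ad lw := fun a b ha hb => (c2 a b ha hb).2
  -- primitive pairs
  obtain ⟨A, p1, q1, hA, hp, hq, hpq3⟩ := pair p (T * q) (by
    rintro ⟨h1, h2⟩
    have h3 : q = 0 := (mul_eq_zero.1 h2).resolve_left hT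
    apply hn1
    rw [h1, h3]; ring)
  obtain ⟨C, p1', q1', hC, hp', hq', hpq3'⟩ := pair p' (T * q') (by
    rintro ⟨h1, h2⟩
    have h3 : q' = 0 := (mul_eq_zero.1 h2).resolve_left hT
    apply hn1
    rw [heq, h1, h3]; ring)
  obtain ⟨D, X3, Y3, hD, hXD, hYD, hXY3⟩ := pair (C * X) (A * Y) (by
    rintro ⟨h1, -⟩
    exact mul_ne_zero hC hX h1)
  have hX3 : X3 ≠ 0 := by
    rintro rfl
    exact mul_ne_zero hC hX (by rw [hXD, mul_zero])
  have hY3 : Y3 ≠ 0 := by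
    rintro rfl
    exact mul_ne_zero hA hY (by rw [hYD, mul_zero])
  obtain ⟨hF, hH, hM, hW, hN, v1, v2, v3, v4, v5⟩ := rels hadv hx hT hb1 hA hC hD hbT hp hq hp'
    hq' hXD hYD heq hn1 hn2 hn0
  obtain ⟨-, -, -, -, -, w1, w2, w3, w4, w5⟩ := rels hadw hx hT hb1 hA hC hD hbT hp hq hp'
    hq' hXD hYD heq hn1 hn2 hn0
  rw [(c2 _ _ hx hn0).1] at hcl1
  rw [(c2 _ _ hx hn0).2] at hcl2
  have h3 : (3 : ZMod 3) = 0 := rfl
  have key := hLN1 b1 p1 q1 p1' q1' X3 Y3 _ _ _ hb3 hb9 hpq3 hpq3' hXY3 hX3 hY3 rfl rfl rfl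
    hF hH hM hW (by
      rw [v5, v2]
      linear_combination hcl1 + hlvB + lv (p1' ^ 3 + b1 * q1' ^ 3) * h3) (by
      rw [w5, w2]
      linear_combination hcl2 - hlwb + w1 + lw (p1' ^ 3 + b1 * q1' ^ 3) * h3) (by
      rintro ⟨h1, h2⟩
      apply hLC
      rw [c1 x hx]
      constructor
      · linear_combination h1 - v2
      · linear_combination h2 - w2)
  -- the linear forms
  have H1 : ¬ (X * p' = 0 ∧ p * Y = 0) := by
    rintro ⟨h4, h5⟩
    have hu : p' = 0 := (mul_eq_zero.1 h4).resolve_left hX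
    have hv : p = 0 := (mul_eq_zero.1 h5).resolve_right hY
    apply hn2
    rw [hu, hv]; ring
  have H2 : ¬ (X * q' = 0 ∧ q * Y = 0) := by
    rintro ⟨h4, h5⟩
    have hu : q' = 0 := (mul_eq_zero.1 h4).resolve_left hX
    have hv : q = 0 := (mul_eq_zero.1 h5).resolve_right hY
    apply hN
    rw [hu, hv]; ring
  have H3 : ¬ (X3 * p1' = 0 ∧ p1 * Y3 = 0) := by
    rintro ⟨h4, h5⟩
    have hu : p1' = 0 := (mul_eq_zero.1 h4).resolve_left hX3
    have hv : p1 = 0 := (mul_eq_zero.1 h5).resolve_right hY3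
    apply hW
    rw [hu, hv]; ring
  have H4 : ¬ (X3 * q1' = 0 ∧ q1 * Y3 = 0) := by
    rintro ⟨h4, h5⟩
    have hu : q1' = 0 := (mul_eq_zero.1 h4).resolve_left hX3
    have hv : q1 = 0 := (mul_eq_zero.1 h5).resolve_right hY3
    apply hW
    rw [hu, hv]; ring
  have H5 : ¬ (q1 * p1' = 0 ∧ -(p1 * q1') = 0) := by
    rintro ⟨h4, h5⟩
    apply hW
    linear_combination (-(q1 * p1') ^ 2) * h4 - (p1 * q1') ^ 2 * h5
  have s1 : ∀ N : ℤ, N ≠ 0 → S (X * p') (p * Y) N = S (X3 * p1') (p1 * Y3) N := by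
    intro N hN
    have e1 : X * p' = D * (X3 * p1') := by
      rw [hp']
      linear_combination p1' * hXD
    have e2 : p * Y = D * (p1 * Y3) := by
      rw [hp]
      linear_combination p1 * hYD
    rw [e1, e2, S_scale hSSL hSCJ hD H3 hN]
  have s2 : ∀ N : ℤ, N ≠ 0 → S (X * q') (q * Y) N = S (X3 * q1') (q1 * Y3) N := by
    intro N hN
    have e1 : T * (X * q') = D * (X3 * q1') := by
      linear_combination X * hq' + q1' * hXD
    have e2 : T * (q * Y) = D * (q1 * Y3) := by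
      linear_combination Y * hq + q1 * hYD
    rw [← S_scale hSSL hSCJ hT H2 hN, e1, e2, S_scale hSSL hSCJ hD H4 hN]
  have H6 : ¬ (q * p' = 0 ∧ -(p * q') = 0) := by
    rintro ⟨h4, h5⟩
    apply H5
    have e1 : T * (q * p') = A * C * (q1 * p1') := by
      rw [hp']
      linear_combination C * p1' * hq
    have e2 : T * (-(p * q')) = A * C * (-(p1 * q1')) := by
      rw [hp]
      linear_combination (-(A * p1)) * hq'
    rw [h4, mul_zero] at e1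
    rw [h5, mul_zero] at e2
    exact ⟨(mul_eq_zero.1 e1.symm).resolve_left (mul_ne_zero hA hC),
      (mul_eq_zero.1 e2.symm).resolve_left (mul_ne_zero hA hC)⟩
  have s3 : ∀ N : ℤ, N ≠ 0 → S (q * p') (-(p * q')) N = S (q1 * p1') (-(p1 * q1')) N := by
    intro N hN
    have e1 : T * (q * p') = A * C * (q1 * p1') := by
      rw [hp']
      linear_combination C * p1' * hq
    have e2 : T * (-(p * q')) = A * C * (-(p1 * q1')) := by
      rw [hp]
      linear_combination (-(A * p1)) * hq'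
    rw [← S_scale hSSL hSCJ hT H6 hN, e1, e2, S_scale hSSL hSCJ (mul_ne_zero hA hC) H5 hN]
  -- the right side
  have g1 : Gf p q p' q' 1 = E (q * p') (-(p * q')) := by
    unfold Gf E
    push_cast
    ring
  have g2 : Gf p q p' q' 2 = conj (E (q * p') (-(p * q'))) := by
    unfold Gf E
    rw [map_add, map_mul, conj_w, conj_intCast, conj_intCast]
    push_cast
    ring
  have hG1 : Gf p q p' q' 1 ≠ 0 := by
    rw [g1]
    exact E_ne H6
  have hG2 : Gf p q p' q' 2 ≠ 0 := by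
    rw [g2]
    intro h0
    apply E_ne H6
    rw [← conj_conj (E (q * p') (-(p * q'))), h0, map_zero]
  have eG1 : sl (Gf p q p' q' 1) (B : Eis) = S (q * p') (-(p * q')) B := by
    rw [g1]
    rfl
  have eG2 : sl (Gf p q p' q' 2) (B : Eis) = - S (q * p') (-(p * q')) B := by
    have h5 := hSCJ.2.1 (E (q * p') (-(p * q'))) (B : Eis) (E_ne H6) (eisInt_ne hB)
    rw [conj_intCast] at h5
    rw [g2]
    exact h5
  have eU : UV sl B b x p q p' q' = S (q1 * p1') (-(p1 * q1')) b1 + lw b - lw x := by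
    unfold UV
    rw [skew hSSL hG1 (eisInt_ne hB), skew hSSL hG2 (eisInt_ne hB), eG1, eG2,
      c5 _ (mul_ne_zero (mul_ne_zero hB hx) hb), hadw _ _ (mul_ne_zero hB hx) hb,
      hadw _ _ hB hx, s3 B hB]
    have h4 : S (q1 * p1') (-(p1 * q1')) B = S (q1 * p1') (-(p1 * q1')) b1 :=
      c6 B b1 _ hB hb1 (E_ne H5) (hlvb.symm.trans v1) (hlwb.symm.trans w1)
    rw [h4]
    linear_combination (-(S (q1 * p1') (-(p1 * q1')) b1) - lw b) * h3 + hlwb
  -- the left side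
  have hZ : b1 * (p1 ^ 3 * q1' ^ 3 - q1 ^ 3 * p1' ^ 3) * (p1 ^ 3 + b1 * q1 ^ 3) *
      (p1' ^ 3 + b1 * q1' ^ 3) ≠ 0 := mul_ne_zero (mul_ne_zero (mul_ne_zero hb1 hW) hF) hH
  have hl : ∀ l : ℤ → ZMod 3, Ad l → l (b1 * (p1 ^ 3 * q1' ^ 3 - q1 ^ 3 * p1' ^ 3) *
      (p1 ^ 3 + b1 * q1 ^ 3) * (p1' ^ 3 + b1 * q1' ^ 3)) = l b1 +
        l (p1 ^ 3 * q1' ^ 3 - q1 ^ 3 * p1' ^ 3) + l (p1 ^ 3 + b1 * q1 ^ 3) +
        l (p1' ^ 3 + b1 * q1' ^ 3) := by
    intro l h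
    rw [h _ _ (mul_ne_zero (mul_ne_zero hb1 hW) hF) hH, h _ _ (mul_ne_zero hb1 hW) hF,
      h _ _ hb1 hW]
  have t2 : S (X3 * q1') (q1 * Y3) (b1 * (p1 ^ 3 * q1' ^ 3 - q1 ^ 3 * p1' ^ 3) *
      (p1 ^ 3 + b1 * q1 ^ 3) * (p1' ^ 3 + b1 * q1' ^ 3) * b1) =
      S (X3 * q1') (q1 * Y3) (x * q' ^ 3 - q ^ 3) -
        S (X3 * q1') (q1 * Y3) (X ^ 3 + x * Y ^ 3) := by
    rw [eq_sub_iff_add_eq, ← S_mul hSSL H4 (mul_ne_zero hZ hb1) hn0]
    refine c6 _ _ _ (mul_ne_zero (mul_ne_zero hZ hb1) hn0) hN (E_ne H4) ?_ ?_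
    · rw [hadv _ _ (mul_ne_zero hZ hb1) hn0, hadv _ _ hZ hb1, hl lv hadv]
      linear_combination -v3 + v2 + hcl1 - v4 - hlvb + v1 +
        (lv b1 + lv (p1' ^ 3 + b1 * q1' ^ 3)) * h3
    · rw [hadw _ _ (mul_ne_zero hZ hb1) hn0, hadw _ _ hZ hb1, hl lw hadw]
      linear_combination -w3 + w2 + hcl2 - w4 - hlwb + w1 +
        (lw b1 + lw (p1' ^ 3 + b1 * q1' ^ 3)) * h3
  have t1 : S (X3 * p1') (p1 * Y3) (b1 * (p1 ^ 3 * q1' ^ 3 - q1 ^ 3 * p1' ^ 3) *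
      (p1 ^ 3 + b1 * q1 ^ 3) * (p1' ^ 3 + b1 * q1' ^ 3) * b1 ^ 2) =
      S (X3 * p1') (p1 * Y3) (p ^ 3 - x * p' ^ 3) -
        S (X3 * p1') (p1 * Y3) (X ^ 3 + x * Y ^ 3) := by
    have hb2 : b1 ^ 2 ≠ 0 := pow_ne_zero 2 hb1
    rw [eq_sub_iff_add_eq, ← S_mul hSSL H3 (mul_ne_zero hZ hb2) hn0]
    refine c6 _ _ _ (mul_ne_zero (mul_ne_zero hZ hb2) hn0) hn2 (E_ne H3) ?_ ?_
    · rw [hadv _ _ (mul_ne_zero hZ hb2) hn0, hadv _ _ hZ hb2, hl lv hadv, pow_two,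
        hadv _ _ hb1 hb1]
      linear_combination -v3 + v2 + hcl1 - hlvb + v1 +
        (lv b1 + lv (p1' ^ 3 + b1 * q1' ^ 3)) * h3
    · rw [hadw _ _ (mul_ne_zero hZ hb2) hn0, hadw _ _ hZ hb2, hl lw hadw, pow_two,
        hadw _ _ hb1 hb1]
      linear_combination -w3 + w2 + hcl2 - hlwb + w1 +
        (lw b1 + lw (p1' ^ 3 + b1 * q1' ^ 3)) * h3
  have key' : S (X3 * q1') (q1 * Y3) (b1 * (p1 ^ 3 * q1' ^ 3 - q1 ^ 3 * p1' ^ 3) *
      (p1 ^ 3 + b1 * q1 ^ 3) * (p1' ^ 3 + b1 * q1' ^ 3) * b1) -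
      S (X3 * p1') (p1 * Y3) (b1 * (p1 ^ 3 * q1' ^ 3 - q1 ^ 3 * p1' ^ 3) *
      (p1 ^ 3 + b1 * q1 ^ 3) * (p1' ^ 3 + b1 * q1' ^ 3) * b1 ^ 2) =
      S (q1 * p1') (-(p1 * q1')) b1 + lw b1 - lw (p1 ^ 3 + b1 * q1 ^ 3) +
        lw (p1' ^ 3 + b1 * q1' ^ 3) := by
    have g3 : E (q1 * p1') (-(p1 * q1')) =
        ((q1 * p1' : ℤ) : Eis) - ((p1 * q1' : ℤ) : Eis) * w := by
      unfold E
      push_cast
      ring
    unfold S
    rw [g3]
    exact key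
  rw [t1, t2] at key'
  rw [SV_eq hSSL hSCJ H1 H2 hn2 hN hn0, s1 _ hn2, s1 _ hn0, s2 _ hN, s2 _ hn0, eU]
  linear_combination key' - w1 - w2 +
    ((S (X3 * p1') (p1 * Y3) (p ^ 3 - x * p' ^ 3) -
        S (X3 * p1') (p1 * Y3) (X ^ 3 + x * Y ^ 3)) -
      (S (X3 * q1') (q1 * Y3) (x * q' ^ 3 - q ^ 3) -
        S (X3 * q1') (q1 * Y3) (X ^ 3 + x * Y ^ 3))) * h3

end Pool.Agent.PT3


end

section

/-!
# Prime twists of rank zero, `n` divisible by `3`: finiteness of the supports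
-/

set_option autoImplicit false

open NumberField IsDedekindDomain Finset
open scoped nonZeroDivisors Pointwise

namespace Pool.Agent.PT3

open Pool.Agent.Lib_helper18 Pool.Agent.Lib_helper18.Eis Pool.Agent.Lib_helper84.Cub
open Pool.Agent.PT Pool.Agent.PTE

open Pool.Agent.PT.LFIN in
/-- LFIG: finiteness of the supports. -/
theorem LFIG_thm (hSTM : STM) (hSPP : SPP) (_hSSL : SSL) (_hSLC : SLC) (_hSCJ : SCJ)
    (_hLCI : LCI) (hAVV : AVV) : LFIG := by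
  intro B b x p q p' q' hB hb hx hs
  have hn2 : p' ^ 3 + b * q' ^ 3 ≠ 0 := by
    intro h
    apply hs.n1
    rw [hs.eq, h, mul_zero]
  set M : ℤ := B * b * x * (p ^ 3 + b * q ^ 3) * (p' ^ 3 + b * q' ^ 3) with hMdef
  have hM : M ≠ 0 := mul_ne_zero (mul_ne_zero (mul_ne_zero (mul_ne_zero hB.ne hb.ne) hx.ne)
    hs.n1) hn2
  have hfin := hSPP.2.2.1 (M : Eis) (cast_ne hM)
  refine ((hfin.image some).union (Set.finite_singleton none)).subset ?_
  intro v hv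
  rcases v with _ | π
  · right
    rfl
  · left
    refine ⟨π, ?_, rfl⟩
    by_contra hnd
    apply hv
    have hd : ∀ n : ℤ, n ∣ M → ¬ π.1 ∣ ((n : ℤ) : Eis) := by
      intro n hn h1
      apply hnd
      obtain ⟨c, hc⟩ := hn
      show π.1 ∣ (M : Eis)
      rw [hc]
      push_cast
      exact dvd_mul_of_dvd_left h1 _
    have hnB := hd B ⟨b * x * (p ^ 3 + b * q ^ 3) * (p' ^ 3 + b * q' ^ 3), by rw [hMdef]; ring⟩
    have hnb := hd b ⟨B * x * (p ^ 3 + b * q ^ 3) * (p' ^ 3 + b * q' ^ 3), by rw [hMdef]; ring⟩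
    have hnx := hd x ⟨B * b * (p ^ 3 + b * q ^ 3) * (p' ^ 3 + b * q' ^ 3), by rw [hMdef]; ring⟩
    have hn1 := hd (p ^ 3 + b * q ^ 3) ⟨B * b * x * (p' ^ 3 + b * q' ^ 3), by rw [hMdef]; ring⟩
    have hn2 := hd (p' ^ 3 + b * q' ^ 3) ⟨B * b * x * (p ^ 3 + b * q ^ 3), by rw [hMdef]; ring⟩
    have hnw : ¬ π.1 ∣ w := fun h1 => π.2.1.not_isUnit (isUnit_of_dvd_unit h1 w_unit)
    show TT (some π) B b x p q p' q' = 0
    by_cases hLC : LC (uni (some π)) b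
    · have hTT : TT (some π) B b x p q p' q' =
          AV (some π) B b p q p' q' + sy (some π) w (x : Eis) := by
        unfold TT
        rw [if_pos hLC]
      rw [hTT]
      have hw : sy (some π) w (x : Eis) = 0 := tm_zero hnw hnx
      have hsym : sy (some π) (B : Eis) (x : Eis) = 0 := by
        have h1 := (hSTM π.1 π.2.1 (hSPP.2.2.2.1 π).1).skew (x : Eis) (B : Eis)
          (cast_ne hx.ne) (cast_ne hB.ne)
        show tm π.1 (B : Eis) (x : Eis) = 0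
        rw [h1, hx.sym π, neg_zero]
      obtain ⟨N0, hN0⟩ := (hAVV (some π) B b x p q p' q' hB.ne hb.ne hx.ne hs hsym hLC).1
      obtain ⟨r, hr⟩ := hLC (max N0 1)
      have hr0 : uni (some π) ^ N0 ∣ (r : Eis) ^ 3 - (b : Eis) :=
        (pow_dvd_pow _ (le_max_left _ _)).trans hr
      have hr1 : π.1 ∣ (r : Eis) ^ 3 - (b : Eis) := by
        have h1 : π.1 ^ 1 ∣ (r : Eis) ^ 3 - (b : Eis) :=
          (pow_dvd_pow π.1 (le_max_right N0 1)).trans hr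
        rwa [pow_one] at h1
      rw [hw, ← hN0 r hr0]
      show tm π.1 (B : Eis) (Lf p q 2 r) + tm π.1 (B : Eis) (Lf p' q' 1 r) -
        tm π.1 (B : Eis) (Lf p q 1 r) - tm π.1 (B : Eis) (Lf p' q' 2 r) + 0 = 0
      rw [tm_zero hnB (Lf_not_dvd hr1 hn1 2), tm_zero hnB (Lf_not_dvd hr1 hn2 1),
        tm_zero hnB (Lf_not_dvd hr1 hn1 1), tm_zero hnB (Lf_not_dvd hr1 hn2 2)]
      simp
    · unfold TT
      rw [if_neg hLC]
      show (if 3 ∣ V π.1 (b : Eis) + V π.1 (B : Eis) ∧ ¬ 3 ∣ V π.1 (b : Eis)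
        then - tm π.1 w (x : Eis) else 0) = 0
      rw [if_neg]
      rintro ⟨-, h1⟩
      apply h1
      rw [V_eq_zero hnb]
      exact dvd_zero 3

end Pool.Agent.PT3


end

section

/-!
# Module LPT: existence of local points
-/

set_option autoImplicit false

open NumberField IsDedekindDomain Finset
open scoped nonZeroDivisors Pointwise

namespace Pool.Agent.PT3

open Pool.Agent.Lib_helper18 Pool.Agent.Lib_helper18.Eis Pool.Agent.Lib_helper84.Cub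
open Pool.Agent.PT Pool.Agent.PTE

namespace LPT

lemma wt_eq (m k : ℤ) (h : m = 1 + 3 * k) : wt m = (k : ZMod 3) := by
  unfold wt
  have h1 : (m - 1) / 3 = k := by omega
  rw [h1]

lemma sq_form (x : ℤ) (hx : ¬ (3 : ℤ) ∣ x) : ∃ k : ℤ, x ^ 2 = 1 + 3 * k := by
  have h1 : x % 3 = 1 ∨ x % 3 = 2 := by omega
  have h2 := Int.emod_add_mul_ediv x 3
  rcases h1 with h1 | h1
  · refine ⟨3 * (x / 3) ^ 2 + 2 * (x / 3), ?_⟩
    rw [h1] at h2
    generalize x / 3 = a at h2 ⊢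
    rw [← h2]
    ring
  · refine ⟨3 * (x / 3) ^ 2 + 4 * (x / 3) + 1, ?_⟩
    rw [h1] at h2
    generalize x / 3 = a at h2 ⊢
    rw [← h2]
    ring

lemma wt_sq_add (x t : ℤ) (hx : ¬ (3 : ℤ) ∣ x) :
    wt ((x + 3 * t) ^ 2) = wt (x ^ 2) + 2 * (x : ZMod 3) * (t : ZMod 3) := by
  obtain ⟨k, hk⟩ := sq_form x hx
  rw [wt_eq _ _ hk, wt_eq ((x + 3 * t) ^ 2) (k + 2 * x * t + 3 * t ^ 2) (by linear_combination hk)]
  push_cast
  have h3 : (3 : ZMod 3) = 0 := by decide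
  rw [h3]
  ring

lemma exists_rep (γ : ZMod 3) : ∃ Y : ℤ, Y ≠ 0 ∧ (Y : ZMod 3) = γ := by
  have h : ∀ γ : ZMod 3, γ = 0 ∨ γ = 1 ∨ γ = -1 := by decide
  rcases h γ with rfl | rfl | rfl
  · exact ⟨3, by norm_num, by decide⟩
  · exact ⟨1, by norm_num, by simp⟩
  · exact ⟨-1, by norm_num, by simp⟩

lemma cast_ne (x : ℤ) (hx : ¬ (3 : ℤ) ∣ x) : (x : ZMod 3) ≠ 0 := by
  intro h
  exact hx ((ZMod.intCast_zmod_eq_zero_iff_dvd x 3).mp h)

lemma cube_eq (x : ZMod 3) : x ^ 3 = x := by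
  revert x
  decide

/-- solution of a linear equation by a nonzero integer -/
lemma exists_sol (u γ : ZMod 3) (hu : u ≠ 0) : ∃ Y : ℤ, Y ≠ 0 ∧ u * (Y : ZMod 3) = γ := by
  have h : ∀ u : ZMod 3, u ≠ 0 → u * u = 1 := by decide
  obtain ⟨Y, h1, h2⟩ := exists_rep (u * γ)
  exact ⟨Y, h1, by rw [h2, ← mul_assoc, h u hu, one_mul]⟩

lemma two_mul_ne (u : ZMod 3) (hu : u ≠ 0) : 2 * u ≠ 0 := by
  revert u
  decide

/-- the decomposition of a nonzero integer -/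
lemma decomp (b : ℤ) (hb : b ≠ 0) : ∃ (j i : ℕ) (b' : ℤ), i < 3 ∧ ¬ (3 : ℤ) ∣ b' ∧
    b = (3 ^ j) ^ 3 * (3 ^ i * b') := by
  obtain ⟨n, b', h1, h2⟩ := (Int.finiteMultiplicity_iff.mpr ⟨by decide, hb⟩ :
    FiniteMultiplicity (3 : ℤ) b).exists_eq_pow_mul_and_not_dvd |>.elim fun c hc =>
      (⟨_, c, hc.1, hc.2⟩ : ∃ (n : ℕ) (c : ℤ), b = 3 ^ n * c ∧ ¬ (3 : ℤ) ∣ c)
  refine ⟨n / 3, n % 3, b', Nat.mod_lt _ (by norm_num), h2, ?_⟩
  rw [h1, ← mul_assoc, ← pow_mul, ← pow_add]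
  congr 2
  omega

section

variable (hLCL : LCL)

include hLCL

lemma lv_mul {a b : ℤ} (ha : a ≠ 0) (hb : b ≠ 0) : lv (a * b) = lv a + lv b :=
  (hLCL.2.1 a b ha hb).1

lemma lw_mul {a b : ℤ} (ha : a ≠ 0) (hb : b ≠ 0) : lw (a * b) = lw a + lw b :=
  (hLCL.2.1 a b ha hb).2

lemma lv_cube {c a : ℤ} (hc : c ≠ 0) (ha : a ≠ 0) : lv (c ^ 3 * a) = lv a := by
  have h : ∀ x y : ZMod 3, x + (x + x) + y = y := by decide
  rw [lv_mul hLCL (pow_ne_zero 3 hc) ha, pow_succ', pow_two, lv_mul hLCL hc (mul_ne_zero hc hc),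
    lv_mul hLCL hc hc, h]

lemma lw_cube {c a : ℤ} (hc : c ≠ 0) (ha : a ≠ 0) : lw (c ^ 3 * a) = lw a := by
  have h : ∀ x y : ZMod 3, x + (x + x) + y = y := by decide
  rw [lw_mul hLCL (pow_ne_zero 3 hc) ha, pow_succ', pow_two, lw_mul hLCL hc (mul_ne_zero hc hc),
    lw_mul hLCL hc hc, h]

lemma lv_unit {a : ℤ} (ha : ¬ (3 : ℤ) ∣ a) : lv a = 0 := (hLCL.2.2.2.1 a ha).1

lemma lw_unit {a : ℤ} (ha : ¬ (3 : ℤ) ∣ a) : lw a = wt (a ^ 2) := (hLCL.2.2.2.1 a ha).2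

lemma lv_three {a : ℤ} (ha : a ≠ 0) : lv (3 * a) = 1 + lv a := by
  rw [lv_mul hLCL (by norm_num) ha, hLCL.2.2.1.1]

lemma lw_three {a : ℤ} (ha : a ≠ 0) : lw (3 * a) = lw a := by
  rw [lw_mul hLCL (by norm_num) ha, hLCL.2.2.1.2, zero_add]

end

lemma ne_of_not_dvd {a : ℤ} (ha : ¬ (3 : ℤ) ∣ a) : a ≠ 0 := by
  rintro rfl
  exact ha (dvd_zero _)

end LPT

open _root_.Pool.Agent.PT3.LPT in
theorem LPT_thm (hLCL : LCL) : LPT := by
  intro b β hb hne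
  -- reduction to the class of the second factor
  suffices h : ∃ X Y : ℤ, X ≠ 0 ∧ Y ≠ 0 ∧ X ^ 3 + b * Y ^ 3 ≠ 0 ∧
      lv (X ^ 3 + b * Y ^ 3) = 1 - lv b ∧ lw (X ^ 3 + b * Y ^ 3) = β - lw b by
    obtain ⟨X, Y, hX, hY, h0, h1, h2⟩ := h
    refine ⟨X, Y, hX, hY, h0, ?_, ?_⟩
    · rw [lv_mul hLCL hb h0, h1]
      ring
    · rw [lw_mul hLCL hb h0, h2]
      ring
  obtain ⟨j, i, b', hi, hb', rfl⟩ := decomp b hb
  have h3j : (3 : ℤ) ^ j ≠ 0 := pow_ne_zero _ (by norm_num)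
  have hb'0 := ne_of_not_dvd hb'
  have hi' : (3 : ℤ) ^ i * b' ≠ 0 := mul_ne_zero (pow_ne_zero _ (by norm_num)) hb'0
  rw [lv_cube hLCL h3j hi'] at hne ⊢
  rw [lw_cube hLCL h3j hi'] at hne ⊢
  have hu := cast_ne b' hb'
  interval_cases i
  · -- the exponent is divisible by three
    rw [pow_zero, one_mul] at hne ⊢
    rw [lv_unit hLCL hb', lw_unit hLCL hb'] at hne
    rw [lv_unit hLCL hb', lw_unit hLCL hb', sub_zero]
    obtain ⟨k, hk⟩ := sq_form b' hb'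
    rw [wt_eq _ _ hk] at hne ⊢
    have hk3 : (k : ZMod 3) ≠ 0 := fun h => hne ⟨rfl, h⟩
    have hkd : ¬ (3 : ℤ) ∣ k := fun h => hk3 ((ZMod.intCast_zmod_eq_zero_iff_dvd k 3).mpr h)
    have hm0 : ¬ (3 : ℤ) ∣ -(b' * k) := by
      rw [dvd_neg]
      intro h
      rcases (Int.prime_three.dvd_mul).mp h with h | h
      · exact hb' h
      · exact hkd h
    obtain ⟨t, -, ht⟩ := exists_sol (2 * ((-(b' * k) : ℤ) : ZMod 3)) (β - k - wt ((-(b' * k)) ^ 2))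
      (two_mul_ne _ (cast_ne _ hm0))
    have hX' : ¬ (3 : ℤ) ∣ (-b' + 3 * t) := by omega
    set s : ℤ := b' ^ 2 * t - 3 * b' * t ^ 2 + 3 * t ^ 3 with hs
    have hn : (3 ^ j * (-b' + 3 * t)) ^ 3 + (3 ^ j) ^ 3 * b' * 1 ^ 3 =
        (3 ^ j) ^ 3 * (3 * (-(b' * k) + 3 * s)) := by
      rw [hs]
      linear_combination (-(3 : ℤ) ^ (3 * j) * b') * hk
    have hm : ¬ (3 : ℤ) ∣ (-(b' * k) + 3 * s) := by
      intro h
      exact hm0 (by
        have := Int.dvd_sub h (Dvd.intro s rfl : (3 : ℤ) ∣ 3 * s)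
        rwa [add_sub_cancel_right] at this)
    have hm1 := ne_of_not_dvd hm
    have hm3 : (3 : ℤ) * (-(b' * k) + 3 * s) ≠ 0 := mul_ne_zero (by norm_num) hm1
    refine ⟨3 ^ j * (-b' + 3 * t), 1, mul_ne_zero h3j (ne_of_not_dvd hX'), one_ne_zero, ?_, ?_, ?_⟩
    · rw [hn]
      exact mul_ne_zero (pow_ne_zero 3 h3j) hm3
    · rw [hn, lv_cube hLCL h3j hm3, lv_three hLCL hm1, lv_unit hLCL hm, add_zero]
    · rw [hn, lw_cube hLCL h3j hm3, lw_three hLCL hm1, lw_unit hLCL hm, wt_sq_add _ _ hm0]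
      have hst : (s : ZMod 3) = t := by
        have h3 : (3 : ZMod 3) = 0 := by decide
        have hb2 : ((b' : ZMod 3)) ^ 2 = 1 := by
          have h := congrArg (Int.cast : ℤ → ZMod 3) hk
          push_cast at h
          rw [h, h3]
          ring
        rw [hs]
        push_cast
        rw [hb2, h3]
        ring
      rw [hst, ht]
      ring
  · -- the exponent is one modulo three
    rw [pow_one, lv_three hLCL hb'0, lv_unit hLCL hb', add_zero, sub_self]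
    obtain ⟨Y, hY, hY'⟩ := exists_sol (2 * (b' : ZMod 3)) (β - lw (3 * b')) (two_mul_ne _ hu)
    have hn : (3 ^ j) ^ 3 + (3 ^ j) ^ 3 * (3 * b') * Y ^ 3 =
        (3 ^ j) ^ 3 * (1 + 3 * (b' * Y ^ 3)) := by ring
    have hm : ¬ (3 : ℤ) ∣ 1 + 3 * (b' * Y ^ 3) := by omega
    have hm1 := ne_of_not_dvd hm
    refine ⟨3 ^ j, Y, h3j, hY, ?_, ?_, ?_⟩
    · rw [hn]
      exact mul_ne_zero (pow_ne_zero 3 h3j) hm1
    · rw [hn, lv_cube hLCL h3j hm1, lv_unit hLCL hm]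
    · rw [hn, lw_cube hLCL h3j hm1, lw_unit hLCL hm, wt_sq_add 1 _ (by norm_num)]
      have h1 : wt (1 ^ 2) = 0 := by
        rw [wt_eq (1 ^ 2) 0 (by norm_num)]
        simp
      rw [h1, ← hY']
      push_cast
      rw [cube_eq]
      ring
  · -- the exponent is two modulo three
    have e9 : (3 : ℤ) ^ 2 * b' = 3 * (3 * b') := by ring
    have h3b : (3 : ℤ) * b' ≠ 0 := mul_ne_zero (by norm_num) hb'0
    rw [e9, lv_three hLCL h3b, lv_three hLCL hb'0, lv_unit hLCL hb', lw_three hLCL h3b,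
      lw_three hLCL hb'0, lw_unit hLCL hb']
    obtain ⟨X, hX, hX'⟩ := exists_sol (2 * (b' : ZMod 3)) (β - wt (b' ^ 2) - wt (b' ^ 2))
      (two_mul_ne _ hu)
    have hn : (3 ^ j * (3 * X)) ^ 3 + (3 ^ j) ^ 3 * (3 * (3 * b')) * 1 ^ 3 =
        (3 ^ j) ^ 3 * (3 * (3 * (b' + 3 * X ^ 3))) := by ring
    have hm : ¬ (3 : ℤ) ∣ b' + 3 * X ^ 3 := by omega
    have hm1 := ne_of_not_dvd hm
    have hm3 : (3 : ℤ) * (b' + 3 * X ^ 3) ≠ 0 := mul_ne_zero (by norm_num) hm1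
    have hm9 : (3 : ℤ) * (3 * (b' + 3 * X ^ 3)) ≠ 0 := mul_ne_zero (by norm_num) hm3
    refine ⟨3 ^ j * (3 * X), 1, mul_ne_zero h3j (mul_ne_zero (by norm_num) hX), one_ne_zero,
      ?_, ?_, ?_⟩
    · rw [hn]
      exact mul_ne_zero (pow_ne_zero 3 h3j) hm9
    · rw [hn, lv_cube hLCL h3j hm9, lv_three hLCL hm3, lv_three hLCL hm1, lv_unit hLCL hm]
      decide
    · rw [hn, lw_cube hLCL h3j hm9, lw_three hLCL hm3, lw_three hLCL hm1, lw_unit hLCL hm,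
        wt_sq_add _ _ hb']
      push_cast
      rw [cube_eq, hX']
      ring

end Pool.Agent.PT3


end

section

/-!
# PT3, module LVA: the local evaluation at `lam` when `b` is a local cube
-/

namespace Pool.Agent.PT3

open Pool.Agent.Lib_helper18 Pool.Agent.Lib_helper18.Eis Pool.Agent.Lib_helper84.Cub
open Pool.Agent.PT Pool.Agent.PTE

namespace LVA

/-- two rational integers in the same class have the same symbols -/
theorem sl_congr (hSLC : SLC) (hLCL : LCL) {a b : ℤ} (ha : a ≠ 0) (hb : b ≠ 0)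
    (h1 : lv a = lv b) (h2 : lw a = lw b) {y : Eis} (hy : y ≠ 0) :
    sl (a : Eis) y = sl (b : Eis) y := by
  have h := hLCL.2.2.2.2.2.1 a b y ha hb hy h1 h2
  rw [hSLC.skew _ _ (LEV.cast_ne ha) hy, hSLC.skew _ _ (LEV.cast_ne hb) hy] at h
  exact neg_injective h

/-- the relation of symbols of a local point -/
theorem rel (hSLC : SLC) (hLCL : LCL) {B x X Y : ℤ} (hB : B ≠ 0) (hx : x ≠ 0)
    (hP : PtL B x X Y) {y : Eis} (hy : y ≠ 0) :
    sl (B : Eis) y = sl (x : Eis) y + sl ((X ^ 3 + x * Y ^ 3 : ℤ) : Eis) y := by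
  rw [← sl_congr hSLC hLCL (mul_ne_zero hx hP.n0) hB hP.cl.1 hP.cl.2 hy, Int.cast_mul,
    hSLC.mul _ _ _ (LEV.cast_ne hx) (LEV.cast_ne hP.n0) hy]

/-- the relation of symbols of a local point, right argument -/
theorem rel_right (hSLC : SLC) (hLCL : LCL) {B x X Y : ℤ} (hB : B ≠ 0) (hx : x ≠ 0)
    (hP : PtL B x X Y) {y : Eis} (hy : y ≠ 0) :
    sl y (B : Eis) = sl y (x : Eis) + sl y ((X ^ 3 + x * Y ^ 3 : ℤ) : Eis) := by
  rw [hSLC.skew _ _ (LEV.cast_ne hB) hy, hSLC.skew _ _ (LEV.cast_ne hx) hy,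
    hSLC.skew _ _ (LEV.cast_ne hP.n0) hy, rel hSLC hLCL hB hx hP hy]
  ring

/-- expansion of `(w, B x b)` -/
theorem w_mul (hSLC : SLC) {B x b : ℤ} (hB : B ≠ 0) (hx : x ≠ 0) (hb : b ≠ 0) :
    sl w ((B * x * b : ℤ) : Eis) = sl w (B : Eis) + sl w (x : Eis) + sl w (b : Eis) := by
  have h1 : ((B * x * b : ℤ) : Eis) = (B : Eis) * (x : Eis) * (b : Eis) := by push_cast; ring
  rw [h1, LEV.mul_right hSLC (mul_ne_zero (LEV.cast_ne hB) (LEV.cast_ne hx)) (LEV.cast_ne hb)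
    LEV.w_ne, LEV.mul_right hSLC (LEV.cast_ne hB) (LEV.cast_ne hx) LEV.w_ne]

/-- the second linear form -/
theorem n1' {b x p q p' q' : ℤ} (h : Sol b x p q p' q') : p' ^ 3 + b * q' ^ 3 ≠ 0 := by
  intro h0
  apply h.n1
  rw [h.eq, h0, mul_zero]

end LVA

set_option linter.unusedVariables false in
open _root_.Pool.Agent.PT3.LVA in
theorem LVA_thm (hSTM : STM) (hSPP : SPP) (hSSL : SSL) (hSLC : SLC) (hSCJ : SCJ) (hLCI : LCI)
    (hIF2 : IF2) (hAVV : AVV) (hIIA : IIA) (hLCL : LCL) : LVA := by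
  intro B b x p q p' q' X Y hB hb hx hS hLb hP
  obtain ⟨N1, h1⟩ := hIIA b x p q p' q' X Y hb hx hLb hS hP.hX hP.hY hP.n0
  obtain ⟨N2, h2⟩ := hIF2 lam sl 4 hSLC b x p q p' q' hb hx hS
  have hLb' : LC (uni none) b := hLb
  obtain ⟨N3, h3⟩ := (hAVV none B b x p q p' q' hB hb hx hS.toSolW (hSCJ.2.2.1 B x hB hx)
    hLb').1
  obtain ⟨r, hr⟩ := hLb (N1 + N2 + N3 + V lam ((p ^ 3 + b * q ^ 3 : ℤ) : Eis) +
    V lam ((p' ^ 3 + b * q' ^ 3 : ℤ) : Eis) + 1)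
  have hF := LEV.lf_ne hSLC.prime hS.n1 (by omega) hr
  have hF' := LEV.lf_ne hSLC.prime (n1' hS) (by omega) hr
  have a1 := h1 r ((pow_dvd_pow _ (by omega)).trans hr)
  have a2 := h2 r ((pow_dvd_pow _ (by omega)).trans hr)
  have a3 := h3 r ((pow_dvd_pow _ (by omega)).trans hr)
  have hG1 := IF2.Gf_ne hS 1 (Or.inl rfl)
  have hG2 := IF2.Gf_ne hS 2 (Or.inr rfl)
  have hwb : sl w (b : Eis) = 0 := LEV.lc_right hSLC hLCI hb hLb LEV.w_ne
  have hT : TT none B b x p q p' q' = AV none B b p q p' q' + sl w (x : Eis) := by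
    unfold TT
    rw [if_pos hLb']
    rfl
  have a3' : AS sl (B : Eis) p q p' q' r = AV none B b p q p' q' := a3
  rw [hT, ← a3', a1]
  unfold UV
  rw [w_mul hSLC hB hx hb, hwb]
  unfold AS at a2 ⊢
  rw [rel hSLC hLCL hB hx hP (hF 2), rel hSLC hLCL hB hx hP (hF' 1),
    rel hSLC hLCL hB hx hP (hF 1), rel hSLC hLCL hB hx hP (hF' 2),
    rel hSLC hLCL hB hx hP hG1, rel hSLC hLCL hB hx hP hG2,
    rel_right hSLC hLCL hB hx hP LEV.w_ne]
  linear_combination a2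

end Pool.Agent.PT3


end

section

/-!
# Module LVB: the local evaluation at `lam`, `x` a local cube, `b` in the class of `B`
-/

namespace Pool.Agent.PT3

open Pool.Agent.Lib_helper18 Pool.Agent.Lib_helper18.Eis Pool.Agent.Lib_helper84.Cub
open Pool.Agent.PT Pool.Agent.PTE

namespace LVB

/-- symbols of rational numbers in the same class, on the left -/
theorem left_eq (hSLC : SLC) (hLCL : LCL) {a b : ℤ} (ha : a ≠ 0) (hb : b ≠ 0)
    (h1 : lv a = lv b) (h2 : lw a = lw b) {y : Eis} (hy : y ≠ 0) :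
    sl (a : Eis) y = sl (b : Eis) y := by
  have h := hLCL.2.2.2.2.2.1 a b y ha hb hy h1 h2
  rw [hSLC.skew y (a : Eis) hy (LEV.cast_ne ha), hSLC.skew y (b : Eis) hy (LEV.cast_ne hb), h]

end LVB

theorem LVB_thm (_hSTM : STM) (_hSPP : SPP) (_hSSL : SSL) (hSLC : SLC) (_hSCJ : SCJ) (hLCI : LCI)
    (hIF2 : IF2) (hIF4 : IF4) (hIF4B : IF4B) (hLCL : LCL) : LVB := by
  intro B b x p q p' q' X Y hB hb hx hS hLx hbv hbw hP
  have hn := hP.n0
  have hxn : x * (X ^ 3 + x * Y ^ 3) ≠ 0 := mul_ne_zero hx hn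
  have hbe := LEV.cast_ne hb
  have hBe := LEV.cast_ne hB
  have hxe := LEV.cast_ne hx
  have hne := LEV.cast_ne hn
  -- the classes
  have hrel : LEV.Rel sl (B : Eis) (x : Eis) ((X ^ 3 + x * Y ^ 3 : ℤ) : Eis) := by
    intro y hy
    rw [← LVB.left_eq hSLC hLCL hxn hB hP.cl.1 hP.cl.2 hy, Int.cast_mul,
      hSLC.mul _ _ y hxe hne hy]
  have hbB : ∀ y : Eis, y ≠ 0 → sl (b : Eis) y = sl (B : Eis) y := fun y hy =>
    LVB.left_eq hSLC hLCL hb hB hbv hbw hy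
  obtain ⟨N1, _, h1⟩ := LEV.SV_LC hSLC hLCI hIF4 hb hx hS hP.hX hP.hY hn hLx hrel
  obtain ⟨N2, h2⟩ := LEV.prop_case hSLC hLCI hIF4B hb hx hP.hX hP.hY hn hLx hrel 1
    (fun y hy => by rw [one_mul]; exact hbB y hy)
  obtain ⟨N3, h3⟩ := hIF2 lam sl 4 hSLC x b p (-p') (-q) q' hx hb (LEV.swap hS)
  set N0 := N1 + N2 + N3 + V lam ((p ^ 3 + x * (-p') ^ 3 : ℤ) : Eis) +
    V lam (((-q) ^ 3 + x * q' ^ 3 : ℤ) : Eis) + 1 with hN0
  obtain ⟨ξ, hξ⟩ := hLx N0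
  obtain ⟨hF, h4⟩ := h1 ξ ((pow_dvd_pow lam (by omega)).trans hξ)
  have h5 := h2 ξ ((pow_dvd_pow lam (by omega)).trans hξ) hF
  have h6 := h3 ξ ((pow_dvd_pow lam (by omega)).trans hξ)
  have hG := LEV.lf_ne hSLC.prime (LEV.swap hS).n1 (N := N0) (by omega) hξ
  have hG' := LEV.lf_ne hSLC.prime (LEV.nn hS) (N := N0) (by omega) hξ
  have hAS : AS sl (B : Eis) p (-p') (-q) q' ξ = AS sl (b : Eis) p (-p') (-q) q' ξ := by
    unfold AS
    rw [hbB _ (hG 2), hbB _ (hG' 1), hbB _ (hG 1), hbB _ (hG' 2)]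
  have hg1 := IF2.Gf_ne hS 1 (Or.inl rfl)
  have hg2 := IF2.Gf_ne hS 2 (Or.inr rfl)
  rw [LEV.gf_swap, LEV.gf_swap, hbB _ hg1, hbB _ hg2] at h6
  have hw := LEV.w_ne
  -- the symbols of `w`
  have hwb : sl w (b : Eis) = sl w (B : Eis) :=
    hLCL.2.2.2.2.2.1 b B w hb hB hw hbv hbw
  have hwx : sl w (x : Eis) = 0 := LEV.lc_right hSLC hLCI hx hLx hw
  have hwBxb : sl w ((B * x * b : ℤ) : Eis) = sl w (b : Eis) + sl w (b : Eis) := by
    rw [Int.cast_mul, Int.cast_mul, LEV.mul_right hSLC (mul_ne_zero hBe hxe) hbe hw,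
      LEV.mul_right hSLC hBe hxe hw, hwx, hwb, add_zero]
  unfold UV
  rw [hwBxb, h4, hAS, h6]
  linear_combination h5

end Pool.Agent.PT3


end

section

/-!
# Prime twists of rank zero, every `n`: assembly
-/

namespace Pool.Agent.PT3.Final

open Pool.Agent.PT Pool.Agent.PT.Final Pool.Agent.PTE Pool.Agent.PTE.Final Pool.Agent.PT3

theorem fDADD : DADD := DADD_thm

theorem fDCOT : DCOT := DCOT_thm fSTM fSPP fSLC fLCI fAVV fSCJ

theorem fDCOU : DCOU := DCOU_thm fSTM fSPP fSLC fLCI fAVV fSCJ fSPLT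

theorem fECS0 : ECS0 := ECS0_thm fEHPL fESYS fEADMS fHYPS fFD1 fFD2S fTEND fSPLT

theorem fEDC : EDC := EDC_thm

theorem fEMA0 : EMA0 := EMA0_thm fEDC

theorem fEMAX : EMAX := EMAX_thm fEDC

theorem fFCS0 : FCS0 := FCS0_thm fSPLT fECS0 fDCONSTS fCLSC fCLSCS fDENSS fDIRS fDSUM

theorem fFDAT : FDAT := FDAT_thm

theorem fFDCT : FDCT := FDCT_thm

theorem fFDKT : FDKT := FDKT_thm fSTM fSPP fSTAR fSLC fSSL fSCJ

theorem fGFRG : GFRG := GFRG_thm

theorem fGTG : GTG := GTG_thm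

theorem fHYP0 : HYP0 := HYP0_thm fSTM fSPP fSSL fSREC fSCJ

theorem fIIAG : IIAG := IIAG_thm fSTM fSPP fSSL fLCI fLFIN fIF1 fIF2 fIF4 fF6R fF7U

theorem fLCL : LCL := LCL_thm fSTM fSPP fSSL fSLC fSREC fSCJ fLCI

theorem fLE3 : LE3 := LE3_thm fSLE fLCL fSCJ fSSL fSLC fSREC fLCI

theorem fLFIG : LFIG := LFIG_thm fSTM fSPP fSSL fSLC fSCJ fLCI fAVV

theorem fLL1 : LL1 := LL1_thm fSLC fSSL fSCJ fLCL

theorem fLN1 : LN1 := LN1_thm fSLE fSSL fSREC fSCJ fSLC fLCL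

theorem fLPT : LPT := LPT_thm fLCL

theorem fLVB : LVB := LVB_thm fSTM fSPP fSSL fSLC fSCJ fLCI fIF2 fIF4 fIF4B fLCL

theorem fNMAT : NMAT := NMAT_thm fSTM fSPP fSSL fSLC fLCI fHERBQ fSUN fNRK fNHN fNTR fNCNT fNFIX fNHO fNNS fNGEN

theorem fSVAD : SVAD := SVAD_thm fSTM fSPP fSSL fSLC fLCI fLFIN fIF4 fF6R fF7U

theorem fTADT : TADT := TADT_thm fSTM fSPP fSSL fSLC fSCJ fLCI fAVV fLFIG fSVAD

theorem fTAMG : TAMG := TAMG_thm fSTM fSPP fSSL fSLC fSREC fSCJ fLCI fIF2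

theorem fTTHT : TTHT := TTHT_thm fSTM fSPP fSSL fSLC fSCJ fLCI fAVV fLFIG fLCL

theorem fEADT : EADT := EADT_thm fSTM fSPP fSCJ fLCL

theorem fEADU : EADU := EADU_thm fSTM fSPP fSCJ fSPLT fLCL

theorem fECL0 : ECL0 := ECL0_thm fHYP0 fEBAS fEADM fESYS fFD1 fFD2 fTEND

theorem fEVET : EVET := EVET_thm fSTM fSPP fLCL

theorem fFCL0 : FCL0 := FCL0_thm fSPP fECL0 fDCONST fCLSC fDENS fTEND

theorem fFD1T : FD1T := FD1T_thm fFDKT fFDAT fFDCT

theorem fFD2T : FD2T := FD2T_thm fSTM fSPP fLCL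

theorem fFIN0 : FIN0 := FIN0_thm fFCL0 fFCS0 fEMA0 fDADD

theorem fGALG : GALG := GALG_thm fGZEROG fGCHI fGTG fGCG fGFRG

theorem fHNT : HNT := HNT_thm fNFLD fNMAT fNDESC fSTM fSPP fLCI

theorem fHYPT : HYPT := HYPT_thm fSTM fSPP fSSL fSLC fSREC fSCJ fLCI fLCL

theorem fHYPU : HYPU := HYPU_thm fSTM fSPP fSSL fSLC fSREC fSCJ fLCI fSPLT fLCL

theorem fIIA : IIA := IIA_thm fSLC fSSL fSCJ fIIAG

theorem fLAMG : LAMG := LAMG_thm fSTM fSPP fSSL fSLC fSREC fSCJ fLCI fIF1 fAVV fTAMG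

theorem fLB : LB := LB_thm fSTM fSPP fSSL fSLC fSCJ fLCI fIF1 fIF2 fAVV fLCL

theorem fLE1 : LE1 := LE1_thm fLN1 fLCL fSCJ fSSL fSLC fSREC

theorem fLEVG : LEVG := LEVG_thm fSTM fSPP fSSL fSLC fSREC fSCJ fLCI fIF1 fIF2 fIF4 fIF4B fAVV fTAMG fF6R fF7U

theorem fLVA : LVA := LVA_thm fSTM fSPP fSSL fSLC fSCJ fLCI fIF2 fAVV fIIA fLCL

theorem fLVC : LVC := LVC_thm fSTM fSPP fSSL fSLC fSCJ fLCI fIF2 fIF4 fIIA fLL1 fLCL

theorem fTALT : TALT := TALT_thm fSTM fSPP fSSL fSLC fSCJ fLCI fAVV fLFIG fLFIN fLAMG fLB fLVA fLE1 fLCL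

theorem fTPT : TPT := TPT_thm fSTM fSPP fSSL fSLC fSCJ fLCI fAVV fLFIG fLFIN fLEVG fLVA fLVB fLVC fLE1 fLE3 fLCL

theorem fDENG : DENG := DENG_thm fGALG fDCNT fDIR

theorem fEBAT : EBAT := EBAT_thm fEVET fSPP fLPT fLCL

theorem fEHPT : EHPT := EHPT_thm fEVET fSTM fSPP fLPT fLCL

theorem fESYT : ESYT := ESYT_thm fSTM fSPP fSCJ fHNT

theorem fTENT : TENT := TENT_thm fTPT fTALT fTADT fTTHT fSTM fSPP fSSL fSLC fSCJ fLCI fAVV fLCL

theorem fECLT : ECLT := ECLT_thm fHYPT fEBAT fEADT fESYT fFD1T fFD2T fTENT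

theorem fECLU : ECLU := ECLU_thm fHYPU fEHPT fEADU fESYT fFD1T fFD2T fTENT fSPLT

theorem fFCLT : FCLT := FCLT_thm fSPP fECLT fDCOT fCLSC fDENG

theorem fFCLU : FCLU := FCLU_thm fSPLT fECLU fDCOU fCLSC fCLSCS fDENSS fDIRS fDSUM

theorem fFIN3 : FIN3 := FIN3_thm fFCLT fFCLU fEMAX fDADD

theorem fMAIN3 : MAIN3 := MAI3_thm fENF fFIN0 fFIN3

end Pool.Agent.PT3.Final


end
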