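import Mathlib
import Pool.Agent.PTDM.C01
import Pool.Agent.PTDM.C19
import Pool.Agent.PTDM.C21
import Pool.Agent.PTDM.C31
import Pool.Agent.PTL.Defs

/-! Parts: PT.Stmts5, PT.BKER, PT.BDENS, PTL.BD, PTN.StG, PTN.StA, PTN.NVEC, PTN.StD, PTN.StF, PTN.StQ -/

section

/-!
# Prime twists: statements, part 5 (theorem B: the distribution of the rank over prime twists)
-/

open NumberField IsDedekindDomain Finset
open scoped nonZeroDivisors Pointwise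

namespace Pool.Agent.PT

open Pool.Agent.Lib_helper18 Pool.Agent.Lib_helper18.Eis Pool.Agent.Lib_helper84.Cub

/-- FDX: the class of a point given by a cell decomposition, explicitly. -/
def FDX : Prop := ∀ (B : ℤ) (a x : Fin 3 → ℤ), BOk B → (∀ k, x k ≠ 0) →
  ∑ k, a k * x k ^ 3 = 0 → ∏ k, a k = B →
  (∀ i j, i ≠ j → IsCoprime (a i * x i) (a j * x j)) →
  Pt B (a 0 ^ 2 * a 1) (a 0 * x 0) (x 1) ∧ Adm B (a 0 ^ 2 * a 1)

/-- BSYS: systems for products of primes `= 2 (mod 3)`, all classes of `q` modulo `9`. -/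
def BSYS : Prop := ∀ (n k : ℕ) (π : Fin 0 → PP) (p e : Fin 0 → ℕ) (r f : Fin k → ℕ)
  (w0 : ZMod 3) (c : Fin 0 → ZMod 3), NF n π p e r f →
  ∃ (s : ℕ) (b : Fin s → ℤ) (P Q P' Q' : Fin s → Fin s → ℤ),
    (∀ i, AdmC n π w0 c (b i)) ∧ Sys b P Q P' Q' ∧
    (∀ x : ℤ, AdmC n π w0 c x → ∃ (g : Fin s → ℕ) (u v : ℤ), u ≠ 0 ∧ v ≠ 0 ∧
      x * u ^ 3 = (∏ i, b i ^ g i) * v ^ 3)

/-- BKER: the rank is bounded by the dimension of the kernel of the matrix. -/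
def BKER : Prop := ∀ (n k : ℕ) (π : Fin 0 → PP) (p e : Fin 0 → ℕ) (r f : Fin k → ℕ)
  (w0 : ZMod 3) (c : Fin 0 → ZMod 3) (s : ℕ) (b : Fin s → ℤ) (P Q P' Q' : Fin s → Fin s → ℤ)
  (q : ℕ), NF n π p e r f → 1 ≤ k → (∀ i, AdmC n π w0 c (b i)) → Sys b P Q P' Q' →
  (∀ x : ℤ, AdmC n π w0 c x → ∃ (g : Fin s → ℕ) (u v : ℤ), u ≠ 0 ∧ v ≠ 0 ∧
      x * u ^ 3 = (∏ i, b i ^ g i) * v ^ 3) →
  q.Prime → q % 3 = 2 → wt ((q : ℤ) ^ 2) = w0 → ¬ q ∣ n →
  ((∃ j, r j % 9 ≠ 8) ∨ q % 9 ≠ 8) →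
  CubeRank.GenBy ((n : ℤ) * q) (s - (Mat b P Q P' Q' ((n : ℤ) * q)).rank)

/-- ALTK: the number of alternating matrices with large kernel. -/
def ALTK : Prop := ∀ s t : ℕ,
  3 ^ (t * (t - 1) / 2) * Nat.card {v : Fin s → Fin s → ZMod 3 // t ≤ s - (alt v).rank} ≤
    2 * Nat.card (Fin s → Fin s → ZMod 3)

/-- EQD: equidistribution of the matrices in a class of the Galois group. -/
def EQD : Prop := ∀ (s f : ℕ) (G : Type) [Group G] [Finite G] (χ : G →* (ZMod f)ˣ)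
  (t : G → Fin s → Fin s → ZMod 3), 0 < f →
  (∀ (a : (ZMod f)ˣ) (v v' : Fin s → Fin s → ZMod 3), M2 a →
    Nat.card {g : G // χ g = a ∧ ∀ j i, j < i → t g j i = v j i} =
      Nat.card {g : G // χ g = a ∧ ∀ j i, j < i → t g j i = v' j i}) →
  ∀ (a : (ZMod f)ˣ) (C : Fin s → Fin s → ZMod 3) (S : Set (Matrix (Fin s) (Fin s) (ZMod 3))),
    M2 a →
    Nat.card {g : G // χ g = a ∧ alt (C - t g) ∈ S} * Nat.card (Fin s → Fin s → ZMod 3) =
      Nat.card {v : Fin s → Fin s → ZMod 3 // alt v ∈ S} * Nat.card {g : G // χ g = a} ∧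
    Nat.card {g : G // χ g = a ∧ alt (C + t g) ∈ S} * Nat.card (Fin s → Fin s → ZMod 3) =
      Nat.card {v : Fin s → Fin s → ZMod 3 // alt v ∈ S} * Nat.card {g : G // χ g = a}

/-- BDENS: upper bound for the density of the primes with large kernel. -/
def BDENS : Prop := ∀ (s : ℕ) (b : Fin s → ℤ) (p q p' q' : Fin s → Fin s → ℤ) (f m t : ℕ)
  (κ : (ZMod f)ˣ →* Multiplicative (Fin (m + 1) → ZMod 3)) (c : Fin (m + 1) → ZMod 3)
  (C : Fin s → Fin s → ZMod 3) (Φ : (ZMod f)ˣ →* Multiplicative (Fin s → Fin s → ZMod 3)),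
  Sys b p q p' q' → 0 < f → 9 ∣ f →
  (∀ c : Fin (m + 1) → ZMod 3,
    Nat.card {a : (ZMod f)ˣ // M2 a ∧ (κ a).toAdd = c} * (2 * 3 ^ (m + 1)) = f.totient) →
  ∃ K : ℝ, ∀ σ : ℝ, 1 < σ → σ ≤ 2 →
    ∑' Q : {Q : ℕ // Q.Prime ∧ ∃ hQ : Q.Coprime f, Q % 3 = 2 ∧
      (κ (ZMod.unitOfCoprime Q hQ)).toAdd = c ∧
      ∀ τ : Fin s → Fin s → ZMod 3,
        (∀ j i, j ≠ i → ∀ r : ℤ, (Q : ℤ) ∣ r ^ 3 - b j →
          τ j i = TAUV Q (p j i) (q j i) (p' j i) (q' j i) r) →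
        t ≤ s - (alt (C + (Φ (ZMod.unitOfCoprime Q hQ)).toAdd - τ)).rank}, (Q : ℝ) ^ (-σ) ≤
      2 / 3 ^ (t * (t - 1) / 2) / 3 ^ (m + 1) * Real.log (1 / (σ - 1)) + K

/-- BFIN: the distribution of the rank over prime twists. -/
def BFIN : Prop := ∀ (k : ℕ) (r f : Fin k → ℕ), 1 ≤ k → (∀ i, (r i).Prime) →
  (∀ i, r i % 3 = 2) → Function.Injective r → (∀ i, f i = 1 ∨ f i = 2) → ∀ t : ℕ,
  ∃ K : ℝ, ∀ σ : ℝ, 1 < σ → σ ≤ 2 →
    ∑' q : {q : ℕ // q.Prime ∧ q % 3 = 2 ∧ (q % 9 ≠ 8 ∨ ∃ i, r i % 9 ≠ 8) ∧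
      t ≤ CubeRank.rr ((∏ i, (r i : ℤ) ^ f i) * q)}, (q : ℝ) ^ (-σ) ≤
    2 / 3 ^ (t * (t - 1) / 2) * Real.log (1 / (σ - 1)) + K

end Pool.Agent.PT


end

section

/-!
# BKER: the rank is bounded by the dimension of the kernel of the matrix
-/

set_option autoImplicit false

namespace Pool.Agent.PT

open Pool.Agent.Lib_helper18 Pool.Agent.Lib_helper18.Eis Pool.Agent.Lib_helper84.Cub

namespace BKER

open Pool.Agent.CubeRank (UG HypG AA GenBy zf)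

/-- the class of the vector `v` -/
def Z {k : ℕ} (r f : Fin k → ℕ) (v : Fin (k + 1) → ZMod 3) : ℕ :=
  ∏ j, r j ^ (f j * (2 - (v j.succ).val))

/-- the primes -/
def pc {k : ℕ} (q : ℕ) (r : Fin k → ℕ) : Fin (k + 1) → ℕ := Fin.cons q r

theorem AA_pc {k : ℕ} (q : ℕ) (r f : Fin k → ℕ) :
    AA (pc q r) (pc 1 f) = (q : ℤ) * ∏ i, (r i : ℤ) ^ f i := by
  unfold AA
  rw [Fin.prod_univ_succ]
  simp [pc]

theorem cases3 (z : ZMod 3) : z = 0 ∨ z = 1 ∨ z = 2 := by revert z; decide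

theorem Z_eq {k : ℕ} (q : ℕ) (r f : Fin k → ℕ) (v : Fin (k + 1) → ZMod 3) (h0 : v 0 = 2) :
    (Z r f v : ℤ) = cell (pc q r) (pc 1 f) (fun i => zf (v i)) 0 ^ 2 *
      cell (pc q r) (pc 1 f) (fun i => zf (v i)) 1 := by
  unfold cell Z
  rw [Fin.prod_univ_succ, Fin.prod_univ_succ]
  have h1 : zf (v 0) ≠ 0 := by rw [h0]; decide
  have h2 : zf (v 0) ≠ 1 := by rw [h0]; decide
  rw [if_neg h1, if_neg h2, one_mul, one_mul, ← Finset.prod_pow, ← Finset.prod_mul_distrib]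
  push_cast
  refine Finset.prod_congr rfl (fun j _ => ?_)
  simp only [pc, Fin.cons_succ]
  rcases cases3 (v j.succ) with h | h | h
  · rw [h, if_pos (by decide), if_neg (by decide), mul_one, ← pow_mul]
    rfl
  · rw [h, if_neg (by decide), if_pos (by decide), one_pow, one_mul]
    have : (2 - (1 : ZMod 3).val) = 1 := by decide
    rw [this, mul_one]
  · rw [h, if_neg (by decide), if_neg (by decide), one_pow, one_mul]
    have : (2 - (2 : ZMod 3).val) = 0 := by decide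
    rw [this, mul_zero, pow_zero]

theorem val_prod {k : ℕ} {r : Fin k → ℕ} (hr : ∀ j, (r j).Prime) (hinj : Function.Injective r)
    (n : Fin k → ℕ) (j : Fin k) : (∏ i, r i ^ n i).factorization (r j) = n j := by
  rw [Nat.factorization_prod (fun i _ => pow_ne_zero _ (hr i).ne_zero), Finsupp.finset_sum_apply,
    Finset.sum_eq_single j]
  · rw [(hr j).factorization_pow, Finsupp.single_eq_same]
  · intro i _ hij
    rw [(hr i).factorization_pow, Finsupp.single_eq_of_ne (fun h => hij (hinj h).symm)]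
  · intro h
    exact absurd (Finset.mem_univ j) h

theorem Z_pos {k : ℕ} {r f : Fin k → ℕ} (hr : ∀ j, (r j).Prime) (v : Fin (k + 1) → ZMod 3) :
    Z r f v ≠ 0 := Finset.prod_ne_zero_iff.mpr (fun j _ => pow_ne_zero _ (hr j).ne_zero)

/-- equal classes have equal exponents modulo `3` -/
theorem fact_eq {a b : ℕ} {A B : ℤ} (ha : a ≠ 0) (hb : b ≠ 0) (hA : A ≠ 0) (hB : B ≠ 0)
    (h : (a : ℤ) * A ^ 3 = b * B ^ 3) (p : ℕ) :
    (a.factorization p : ZMod 3) = b.factorization p := by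
  have h1 : a * A.natAbs ^ 3 = b * B.natAbs ^ 3 := by
    have := congrArg Int.natAbs h
    simpa [Int.natAbs_mul, Int.natAbs_pow] using this
  have hA' : A.natAbs ≠ 0 := Int.natAbs_ne_zero.mpr hA
  have hB' : B.natAbs ≠ 0 := Int.natAbs_ne_zero.mpr hB
  have h2 := congrArg (fun n => n.factorization p) h1
  simp only [Nat.factorization_mul ha (pow_ne_zero 3 hA'),
    Nat.factorization_mul hb (pow_ne_zero 3 hB'), Nat.factorization_pow, Finsupp.add_apply,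
    Finsupp.smul_apply, smul_eq_mul] at h2
  have h3 := congrArg (fun n : ℕ => (n : ZMod 3)) h2
  simp only [Nat.cast_add, Nat.cast_mul] at h3
  have h30 : ((3 : ℕ) : ZMod 3) = 0 := by decide
  rw [h30, zero_mul, zero_mul, add_zero, add_zero] at h3
  exact h3

theorem Z_inj {k : ℕ} {r f : Fin k → ℕ} (hr : ∀ j, (r j).Prime) (hinj : Function.Injective r)
    (hf : ∀ j, f j = 1 ∨ f j = 2) {v v' : Fin (k + 1) → ZMod 3} (h0 : v 0 = v' 0)
    {A B : ℤ} (hA : A ≠ 0) (hB : B ≠ 0) (h : (Z r f v : ℤ) * A ^ 3 = Z r f v' * B ^ 3) :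
    v = v' := by
  funext i
  refine Fin.cases h0 (fun j => ?_) i
  have h1 := fact_eq (Z_pos hr v) (Z_pos hr v') hA hB h (r j)
  unfold Z at h1
  rw [val_prod hr hinj, val_prod hr hinj] at h1
  generalize v j.succ = a at *
  generalize v' j.succ = b at *
  rcases hf j with h2 | h2 <;> rw [h2] at h1 <;> revert h1 <;> revert a b <;> decide

/-- two products that agree modulo cubes -/
theorem prod_cube {s : ℕ} (b : Fin s → ℤ) (hb : ∀ i, b i ≠ 0) (g g' : Fin s → ℕ)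
    (h : ∀ i, (g i : ZMod 3) = g' i) : ∃ A B : ℤ, A ≠ 0 ∧ B ≠ 0 ∧
      (∏ i, b i ^ g i) * A ^ 3 = (∏ i, b i ^ g' i) * B ^ 3 := by
  refine ⟨∏ i, b i ^ (g' i / 3), ∏ i, b i ^ (g i / 3),
    Finset.prod_ne_zero_iff.mpr (fun i _ => pow_ne_zero _ (hb i)),
    Finset.prod_ne_zero_iff.mpr (fun i _ => pow_ne_zero _ (hb i)), ?_⟩
  rw [← Finset.prod_pow, ← Finset.prod_pow, ← Finset.prod_mul_distrib, ← Finset.prod_mul_distrib]
  refine Finset.prod_congr rfl (fun i _ => ?_)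
  rw [← pow_mul, ← pow_mul, ← pow_add, ← pow_add]
  congr 1
  have h1 : g i % 3 = g' i % 3 := (ZMod.natCast_eq_natCast_iff _ _ _).mp (h i)
  omega

theorem NF_eq {n k : ℕ} {π : Fin 0 → PP} {p e : Fin 0 → ℕ} {r f : Fin k → ℕ}
    (hNF : NF n π p e r f) : n = ∏ j, r j ^ f j := by
  have := hNF.eq
  rwa [Fin.prod_univ_zero, one_mul] at this

theorem AA_eq {n k : ℕ} {π : Fin 0 → PP} {p e : Fin 0 → ℕ} {r f : Fin k → ℕ}
    (hNF : NF n π p e r f) (q : ℕ) : AA (pc q r) (pc 1 f) = (n : ℤ) * q := by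
  rw [AA_pc, NF_eq hNF]
  push_cast
  ring

theorem r_dvd {n k : ℕ} {π : Fin 0 → PP} {p e : Fin 0 → ℕ} {r f : Fin k → ℕ}
    (hNF : NF n π p e r f) (j : Fin k) : r j ∣ n := by
  rw [NF_eq hNF]
  refine (dvd_pow_self (r j) ?_).trans (Finset.dvd_prod_of_mem _ (Finset.mem_univ j))
  have := hNF.rf j
  omega

theorem main (hEADM : EADM) (hFDX : FDX) (hTEND : TEND) {n k : ℕ} {π : Fin 0 → PP}
    {p e : Fin 0 → ℕ} {r f : Fin k → ℕ} {w0 : ZMod 3} {c : Fin 0 → ZMod 3} {s : ℕ}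
    {b : Fin s → ℤ} {P Q P' Q' : Fin s → Fin s → ℤ} {q : ℕ} (hNF : NF n π p e r f)
    (hAdm : ∀ i, AdmC n π w0 c (b i)) (hSys : Sys b P Q P' Q')
    (hgen : ∀ x : ℤ, AdmC n π w0 c x → ∃ (g : Fin s → ℕ) (u v : ℤ), u ≠ 0 ∧ v ≠ 0 ∧
      x * u ^ 3 = (∏ i, b i ^ g i) * v ^ 3)
    (hq : q.Prime) (hq2 : q % 3 = 2) (hw : wt ((q : ℤ) ^ 2) = w0) (hqn : ¬ q ∣ n)
    (hG : HypG (pc q r) (pc 1 f)) {v : Fin (k + 1) → ZMod 3} (hv : UG (pc q r) (pc 1 f) v)
    (h0 : v 0 = 2) :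
    ∃ (g : Fin s → ℕ) (u y : ℤ), u ≠ 0 ∧ y ≠ 0 ∧ (Z r f v : ℤ) * u ^ 3 =
      (∏ i, b i ^ g i) * y ^ 3 ∧
      ∀ j, ∑ i, Mat b P Q P' Q' ((n : ℤ) * q) j i * (g i : ZMod 3) = 0 := by
  obtain ⟨hB, hE⟩ := hEADM n 0 k π p e r f w0 c q hNF hq ⟨hq2, hw, fun i => i.elim0⟩ hqn
  have hA : ∀ i, Adm ((n : ℤ) * q) (b i) := fun i => (hE _ (hAdm i).supp).1 (hAdm i)
  by_cases hc : ∃ c, ∀ i, v i = c
  · obtain ⟨d, hd⟩ := hc
    have hd2 : d = 2 := by rw [← hd 0, h0]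
    refine ⟨0, 1, 1, one_ne_zero, one_ne_zero, ?_, fun j => by simp⟩
    have hZ : Z r f v = 1 := by
      unfold Z
      refine Finset.prod_eq_one (fun j _ => ?_)
      rw [hd, hd2]
      have : (2 - (2 : ZMod 3).val) = 0 := by decide
      rw [this, mul_zero, pow_zero]
    rw [hZ]
    simp
  · obtain ⟨x, hx⟩ := CubeRank.UG_rep hG hv hc
    obtain ⟨hPt, hAz⟩ := hFDX ((n : ℤ) * q) (cell (pc q r) (pc 1 f) (fun i => zf (v i))) x hB
      hx.ne hx.sum (by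
        rw [Fin.prod_univ_three, cell_prod]
        exact AA_eq hNF q) hx.cop
    rw [← Z_eq q r f v h0] at hPt hAz
    have hsupp : ∀ l : ℕ, l.Prime → (l : ℤ) ∣ (Z r f v : ℤ) → l ∣ n := by
      intro l hl hlZ
      rw [Int.natCast_dvd_natCast, Z, hl.prime.dvd_finset_prod_iff] at hlZ
      obtain ⟨j, -, hj⟩ := hlZ
      exact (hl.dvd_of_dvd_pow hj).trans (r_dvd hNF j)
    obtain ⟨g, u, y, hu, hy, hg⟩ := hgen _ ((hE _ hsupp).2 hAz)
    refine ⟨g, u, y, hu, hy, hg, ?_⟩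
    by_cases hex : ∃ i, ¬ 3 ∣ g i
    · generalize (Z r f v : ℤ) = z at *
      set W : ℤ := ∏ i, b i ^ g i with hW
      obtain ⟨c0, hc0, h1⟩ := hPt.eq
      have hPt' : Pt ((n : ℤ) * q) (∏ i, b i ^ g i)
          (u * y * (cell (pc q r) (pc 1 f) (fun i => zf (v i)) 0 * x 0)) (y ^ 2 * x 1) := by
        refine ⟨mul_ne_zero (mul_ne_zero hu hy) hPt.hX, mul_ne_zero (pow_ne_zero 2 hy) hPt.hY,
          c0 * u ^ 2, mul_ne_zero hc0 (pow_ne_zero 2 hu), ?_⟩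
        rw [← hW]
        generalize cell (pc q r) (pc 1 f) (fun i => zf (v i)) 0 * x 0 = X1 at *
        generalize x 1 = Y1 at *
        have e1 : W * ((u * y * X1) ^ 3 + W * (y ^ 2 * Y1) ^ 3) =
            (W * y ^ 3) * (u ^ 3 * X1 ^ 3 + (W * y ^ 3) * Y1 ^ 3) := by ring
        rw [e1, ← hg]
        have e2 : z * u ^ 3 * (u ^ 3 * X1 ^ 3 + z * u ^ 3 * Y1 ^ 3) =
            u ^ 6 * (z * (X1 ^ 3 + z * Y1 ^ 3)) := by ring
        rw [e2, h1]
        ring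
      exact (hTEND s b P Q P' Q' ((n : ℤ) * q) hSys hB hA).2 g _ _ hex hPt'
    · push Not at hex
      intro j
      refine Finset.sum_eq_zero (fun i _ => ?_)
      rw [(ZMod.natCast_eq_zero_iff (g i) 3).2 (hex i), mul_zero]

end BKER

open _root_.Pool.Agent.PT.BKER in
/-- BKER: the rank is bounded by the dimension of the kernel of the matrix. -/
theorem BKER_thm (hEADM : EADM) (hFDX : FDX) (hTEND : TEND) (hSPP : SPP) : BKER := by
  clear hSPP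
  classical
  intro n k π p e r f w0 c s b P Q P' Q' q hNF hk hAdm hSys hgen hq hq2 hw hqn hex
  have hG : CubeRank.HypG (pc q r) (pc 1 f) := by
    refine CubeRank.hypG_of (fun i => ?_) (fun i => ?_) ?_ (fun i => ?_) ?_
    · refine Fin.cases ?_ (fun i => ?_) i
      · simpa [pc] using hq
      · simpa [pc] using hNF.rp i
    · refine Fin.cases ?_ (fun i => ?_) i
      · simpa [pc] using hq2
      · simpa [pc] using hNF.r2 i
    · unfold pc
      rw [Fin.cons_injective_iff]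
      refine ⟨?_, hNF.rinj⟩
      rintro ⟨i, hi⟩
      exact hqn (by rw [← hi]; exact r_dvd hNF i)
    · refine Fin.cases ?_ (fun i => ?_) i
      · left; simp [pc]
      · simpa [pc] using hNF.rf i
    · rcases hex with ⟨j, hj⟩ | h
      · exact ⟨j.succ, by simpa [pc] using hj⟩
      · exact ⟨0, by simpa [pc] using h⟩
  set M := Mat b P Q P' Q' ((n : ℤ) * q) with hMdef
  have H : ∀ v : {v // CubeRank.UG (pc q r) (pc 1 f) v},
      ∃ (g : Fin s → ℕ) (u y : ℤ), u ≠ 0 ∧ y ≠ 0 ∧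
        (Z r f (v.1 + fun _ => 2 - v.1 0) : ℤ) * u ^ 3 = (∏ i, b i ^ g i) * y ^ 3 ∧
        ∀ j, ∑ i, M j i * (g i : ZMod 3) = 0 := by
    intro v
    exact main hEADM hFDX hTEND hNF hAdm hSys hgen hq hq2 hw hqn hG
      (CubeRank.UG_add hG v.2 (CubeRank.UG_const _ _ _)) (by
        simp only [Pi.add_apply]; ring)
  choose g u y hu hy hZ hM using H
  let F : {v // CubeRank.UG (pc q r) (pc 1 f) v} → ZMod 3 × LinearMap.ker M.mulVecLin :=
    fun v => (v.1 0, ⟨fun i => (g v i : ZMod 3), by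
      rw [LinearMap.mem_ker]
      funext j
      exact hM v j⟩)
  have hF : Function.Injective F := by
    intro v v' hvv
    have h0 : v.1 0 = v'.1 0 := congrArg Prod.fst hvv
    have h1 : ∀ i, (g v i : ZMod 3) = g v' i := by
      intro i
      have h2 := congrArg (fun x => (x.2 : Fin s → ZMod 3) i) hvv
      exact h2
    obtain ⟨A, B, hA, hB, hAB⟩ := prod_cube b (fun i => (hAdm i).ne) (g v) (g v') h1
    have h3 := Z_inj (v := v.1 + fun _ => 2 - v.1 0) (v' := v'.1 + fun _ => 2 - v'.1 0)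
      hNF.rp hNF.rinj hNF.rf (by simp only [Pi.add_apply]; ring)
      (A := u v * A * y v') (B := u v' * B * y v)
      (mul_ne_zero (mul_ne_zero (hu v) hA) (hy v')) (mul_ne_zero (mul_ne_zero (hu v') hB) (hy v))
      (by
        have e1 := hZ v
        have e2 := hZ v'
        generalize (Z r f (v.1 + fun _ => 2 - v.1 0) : ℤ) = z1 at *
        generalize (Z r f (v'.1 + fun _ => 2 - v'.1 0) : ℤ) = z2 at *
        linear_combination (A ^ 3 * y v' ^ 3) * e1 - (B ^ 3 * y v ^ 3) * e2 +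
          (y v ^ 3 * y v' ^ 3) * hAB)
    apply Subtype.ext
    rw [h0] at h3
    exact add_right_cancel h3
  have hcard := Nat.card_le_card_of_injective F hF
  have hker : Module.finrank (ZMod 3) (LinearMap.ker M.mulVecLin) = s - M.rank := by
    have h1 := LinearMap.finrank_range_add_finrank_ker M.mulVecLin
    rw [Module.finrank_fintype_fun_eq_card, Fintype.card_fin] at h1
    have h2 : Module.finrank (ZMod 3) (LinearMap.range M.mulVecLin) = M.rank := rfl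
    omega
  rw [Nat.card_prod, Nat.card_zmod,
    Module.natCard_eq_pow_finrank (K := ZMod 3) (V := LinearMap.ker M.mulVecLin), Nat.card_zmod,
    hker] at hcard
  have hfin := CubeRank.gen_of_cardG (by omega) hG (s - M.rank) (by
    rw [pow_succ, mul_comm]
    exact hcard)
  rw [AA_eq hNF q] at hfin
  exact hfin

end Pool.Agent.PT


end

section

/-!
# Prime twists, module BDENS: upper bound for the density of the primes with large kernel
-/

open NumberField IsDedekindDomain Finset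
open scoped nonZeroDivisors Pointwise

namespace Pool.Agent.PT

open Pool.Agent.Lib_helper18 Pool.Agent.Lib_helper18.Eis Pool.Agent.Lib_helper84.Cub

namespace BDENS

/-! ### Sums over sets of primes -/

/-- the sum over the primes of a set -/
noncomputable def sm (S : Set ℕ) (σ : ℝ) : ℝ := ∑' q : {q : ℕ // q.Prime ∧ q ∈ S}, (q : ℝ) ^ (-σ)

/-- the summands as a function on the natural numbers -/
noncomputable def ind (S : Set ℕ) (σ : ℝ) (n : ℕ) : ℝ :=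
  Set.indicator {n : ℕ | n.Prime ∧ n ∈ S} (fun n : ℕ => (n : ℝ) ^ (-σ)) n

theorem sm_eq (S : Set ℕ) (σ : ℝ) : sm S σ = ∑' n, ind S σ n :=
  tsum_subtype {n : ℕ | n.Prime ∧ n ∈ S} (fun n : ℕ => (n : ℝ) ^ (-σ))

theorem ind_summable (S : Set ℕ) {σ : ℝ} (hσ : 1 < σ) : Summable (ind S σ) :=
  (Real.summable_nat_rpow.mpr (by linarith : -σ < -1)).indicator _

theorem ind_nonneg (S : Set ℕ) (σ : ℝ) (n : ℕ) : 0 ≤ ind S σ n :=
  Set.indicator_nonneg (fun n _ => Real.rpow_nonneg (Nat.cast_nonneg n) _) n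

theorem ind_mem {S : Set ℕ} {σ : ℝ} {n : ℕ} (h : n.Prime) (hS : n ∈ S) :
    ind S σ n = (n : ℝ) ^ (-σ) := Set.indicator_of_mem (s := {n : ℕ | n.Prime ∧ n ∈ S}) ⟨h, hS⟩ _

theorem ind_not {S : Set ℕ} {σ : ℝ} {n : ℕ} (h : ¬ (n.Prime ∧ n ∈ S)) : ind S σ n = 0 :=
  Set.indicator_of_notMem (s := {n : ℕ | n.Prime ∧ n ∈ S}) h _

theorem ind_le_one {S : Set ℕ} {σ : ℝ} (hσ : 1 < σ) (n : ℕ) : ind S σ n ≤ 1 := by
  by_cases h : n.Prime ∧ n ∈ S
  · rw [ind_mem h.1 h.2]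
    exact Real.rpow_le_one_of_one_le_of_nonpos (by exact_mod_cast h.1.one_lt.le) (by linarith)
  · rw [ind_not h]
    exact zero_le_one

/-- Two sets of primes, disjoint and contained in a third one up to finitely many primes. -/
theorem sm_add_le (S₁ S₂ W : Set ℕ) (A : Finset ℕ)
    (h1 : ∀ n, n.Prime → n ∉ A → n ∈ S₁ → n ∈ W ∧ n ∉ S₂)
    (h2 : ∀ n, n.Prime → n ∉ A → n ∈ S₂ → n ∈ W) {σ : ℝ} (hσ : 1 < σ) :
    sm S₁ σ + sm S₂ σ ≤ sm W σ + 2 * A.card := by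
  classical
  rw [sm_eq, sm_eq, sm_eq, ← (ind_summable S₁ hσ).tsum_add (ind_summable S₂ hσ)]
  have h3 : Summable fun n : ℕ => if n ∈ A then (2 : ℝ) else 0 :=
    summable_of_ne_finset_zero (s := A) fun n hn => if_neg hn
  have h4 : ∑' n : ℕ, (if n ∈ A then (2 : ℝ) else 0) = 2 * A.card := by
    rw [tsum_eq_sum (s := A) fun n hn => if_neg hn, Finset.sum_congr rfl fun n hn => if_pos hn,
      Finset.sum_const, nsmul_eq_mul, mul_comm]
  rw [← h4, ← (ind_summable W hσ).tsum_add h3]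
  refine ((ind_summable S₁ hσ).add (ind_summable S₂ hσ)).tsum_le_tsum (fun n => ?_)
    ((ind_summable W hσ).add h3)
  by_cases hA : n ∈ A
  · rw [if_pos hA]
    have e1 := ind_le_one (S := S₁) hσ n
    have e2 := ind_le_one (S := S₂) hσ n
    have e3 := ind_nonneg W σ n
    linarith
  · rw [if_neg hA, add_zero]
    by_cases hp : n.Prime
    · by_cases hs1 : n ∈ S₁
      · obtain ⟨e1, e2⟩ := h1 n hp hA hs1
        rw [ind_mem hp hs1, ind_not fun h => e2 h.2, ind_mem hp e1, add_zero]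
      · by_cases hs2 : n ∈ S₂
        · rw [ind_not fun h => hs1 h.2, ind_mem hp hs2, ind_mem hp (h2 n hp hA hs2), zero_add]
        · rw [ind_not fun h => hs1 h.2, ind_not fun h => hs2 h.2, add_zero]
          exact ind_nonneg _ _ _
    · rw [ind_not fun h => hp h.1, ind_not fun h => hp h.1, add_zero]
      exact ind_nonneg _ _ _

/-- A set of primes covered by arithmetic progressions. -/
theorem sm_cover {f : ℕ} (W : Set ℕ) (V : Finset (ZMod f)ˣ)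
    (h : ∀ n : ℕ, n.Prime → n ∈ W → ∃ a ∈ V, (n : ZMod f) = a) {σ : ℝ} (hσ : 1 < σ) :
    sm W σ ≤ ∑ a ∈ V, ∑' q : {q : ℕ // q.Prime ∧ (q : ZMod f) = a}, (q : ℝ) ^ (-σ) := by
  classical
  have e : ∀ a ∈ V, ∑' q : {q : ℕ // q.Prime ∧ (q : ZMod f) = a}, (q : ℝ) ^ (-σ) =
      ∑' n, ind {q : ℕ | (q : ZMod f) = a} σ n := fun a _ => sm_eq {q : ℕ | (q : ZMod f) = a} σ
  rw [Finset.sum_congr rfl e, ← Summable.tsum_finsetSum fun a _ => ind_summable _ hσ, sm_eq]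
  refine (ind_summable W hσ).tsum_le_tsum (fun n => ?_)
    (summable_sum fun a _ => ind_summable _ hσ)
  by_cases hn : n.Prime ∧ n ∈ W
  · obtain ⟨a, ha, hna⟩ := h n hn.1 hn.2
    rw [ind_mem hn.1 hn.2, ← ind_mem (S := {q : ℕ | (q : ZMod f) = a}) hn.1 hna]
    exact Finset.single_le_sum (f := fun a : (ZMod f)ˣ => ind {q : ℕ | (q : ZMod f) = a} σ n)
      (fun a _ => ind_nonneg _ _ _) ha
  · rw [ind_not hn]
    exact Finset.sum_nonneg fun a _ => ind_nonneg _ _ _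

/-! ### Generators of cyclic groups -/

/-- Generators of a cyclic group of even order are powers with odd exponent prime to `3`. -/
theorem exists_pow {G : Type} [Group G] [Finite G] {g h : G}
    (hz : Subgroup.zpowers h = Subgroup.zpowers g) (he : Even (orderOf g)) :
    ∃ k : ℕ, Odd k ∧ k % 3 ≠ 0 ∧ h = g ^ k := by
  have h1 : h ∈ Subgroup.zpowers g := by
    rw [← hz]
    exact Subgroup.mem_zpowers h
  obtain ⟨k, hk⟩ := (isOfFinOrder_of_finite g).mem_powers_iff_mem_zpowers.2 h1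
  have hk' : g ^ k = h := hk
  have h2 : orderOf h = orderOf g := by
    rw [← Nat.card_zpowers, ← Nat.card_zpowers, hz]
  have h3 : (orderOf g).gcd k = 1 := by
    have h5 : orderOf (g ^ k) = orderOf g / (orderOf g).gcd k := orderOf_pow g
    rw [hk', h2] at h5
    have h6 : 0 < orderOf g := orderOf_pos g
    have h7 : (orderOf g).gcd k ∣ orderOf g := Nat.gcd_dvd_left _ _
    obtain ⟨c, hc⟩ := h7
    have h8 : 0 < (orderOf g).gcd k := Nat.gcd_pos_of_pos_left _ h6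
    have h9 : orderOf g / (orderOf g).gcd k = c := Nat.div_eq_of_eq_mul_right h8 hc
    rw [h9] at h5
    rw [← h5] at hc
    have h10 : (orderOf g) * (orderOf g).gcd k = orderOf g * 1 := by
      rw [mul_one, mul_comm]
      exact hc.symm
    exact Nat.eq_of_mul_eq_mul_left h6 h10
  have hodd : ¬ Even k := by
    intro hk2
    have h4 : 2 ∣ (orderOf g).gcd k := Nat.dvd_gcd he.two_dvd hk2.two_dvd
    rw [h3] at h4
    omega
  rw [Nat.not_even_iff_odd] at hodd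
  by_cases h30 : k % 3 = 0
  · refine ⟨k + orderOf g, hodd.add_even he, ?_, ?_⟩
    · intro h4
      have h5 : 3 ∣ (orderOf g).gcd k := Nat.dvd_gcd (by omega) (by omega)
      rw [h3] at h5
      omega
    · rw [pow_add, pow_orderOf_eq_one, mul_one, hk']
  · exact ⟨k, hodd, h30, hk'.symm⟩

/-- generators of the same cyclic group -/
theorem zpowers_pow_eq {G : Type} [Group G] [Finite G] {g : G} {k : ℕ}
    (hk : k.Coprime (orderOf g)) : Subgroup.zpowers (g ^ k) = Subgroup.zpowers g := by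
  apply Subgroup.eq_of_le_of_card_ge
  · rw [Subgroup.zpowers_le]
    exact Subgroup.pow_mem _ (Subgroup.mem_zpowers g) k
  · rw [Nat.card_zpowers, Nat.card_zpowers, orderOf_pow, Nat.gcd_comm, hk, Nat.div_one]

/-! ### Classes modulo `f` -/

theorem M2_iff {f : ℕ} (hf : 0 < f) (h3 : 3 ∣ f) (a : (ZMod f)ˣ) :
    M2 a ↔ ZMod.castHom h3 (ZMod 3) (a : ZMod f) = -1 := by
  have : NeZero f := ⟨hf.ne'⟩
  have h1 : ZMod.castHom h3 (ZMod 3) (a : ZMod f) = (((a : ZMod f).val : ℕ) : ZMod 3) := by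
    rw [ZMod.castHom_apply, ZMod.natCast_val]
  rw [h1]
  unfold M2
  rw [show (-1 : ZMod 3) = ((2 : ℕ) : ZMod 3) from rfl, ZMod.natCast_eq_natCast_iff']

theorem M2_pow {f : ℕ} (hf : 0 < f) (h3 : 3 ∣ f) {a : (ZMod f)ˣ} (ha : M2 a) {k : ℕ}
    (hk : Odd k) : M2 (a ^ k) := by
  rw [M2_iff hf h3] at ha ⊢
  rw [Units.val_pow_eq_pow_val, map_pow, ha, hk.neg_one_pow]

theorem M2_even {f : ℕ} (hf : 0 < f) (h3 : 3 ∣ f) {a : (ZMod f)ˣ} (ha : M2 a) {n : ℕ}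
    (hn : a ^ n = 1) : Even n := by
  by_contra hne
  rw [Nat.not_even_iff_odd] at hne
  have h1 := M2_pow hf h3 ha hne
  rw [hn, M2_iff hf h3, Units.val_one, map_one] at h1
  exact absurd h1 (by decide)

theorem nsmul_one {A : Type} [AddCommGroup A] (h3 : ∀ x : A, 3 • x = 0) {k : ℕ}
    (hk : k % 3 = 1) (x : A) : k • x = x := by
  have h : k = 3 * (k / 3) + 1 := by omega
  rw [h, add_smul, one_smul, mul_smul, h3, zero_add]

theorem nsmul_two {A : Type} [AddCommGroup A] (h3 : ∀ x : A, 3 • x = 0) {k : ℕ}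
    (hk : k % 3 = 2) (x : A) : k • x = -x := by
  have h1 : k • x + x = 0 := by
    have h2 := nsmul_one h3 (k := k + 2) (by omega) x
    have h4 : k • x + x + x = (k + 2) • x := by
      rw [add_smul, two_smul, add_assoc]
    rw [h2] at h4
    exact add_eq_right.1 h4
  exact eq_neg_of_add_eq_zero_left h1

theorem three_z (y : ZMod 3) : 3 • y = 0 := by
  rw [nsmul_eq_mul, show ((3 : ℕ) : ZMod 3) = 0 from rfl, zero_mul]

theorem cast_one {k : ℕ} (hk : k % 3 = 1) (y : ZMod 3) : (k : ZMod 3) * y = y := by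
  rw [← nsmul_eq_mul]
  exact nsmul_one three_z hk y

theorem cast_two {k : ℕ} (hk : k % 3 = 2) (y : ZMod 3) : (k : ZMod 3) * y = -y := by
  rw [← nsmul_eq_mul]
  exact nsmul_two three_z hk y

/-! ### Counting -/

/-- counting over the classes -/
theorem count_le {G H : Type} [Finite G] [Fintype H] (χ : G → H) (P : G → Prop)
    (C : H → Prop) (K M : ℕ)
    (h : ∀ a, C a → K * Nat.card {g : G // χ g = a ∧ P g} ≤ M) :
    K * Nat.card {g : G // C (χ g) ∧ P g} ≤ Nat.card {a : H // C a} * M := by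
  classical
  have := Fintype.ofFinite G
  have e1 : Nat.card {g : G // C (χ g) ∧ P g} =
      (Finset.univ.filter fun g : G => C (χ g) ∧ P g).card := by
    rw [Nat.card_eq_fintype_card, Fintype.card_subtype]
  have e2 : Nat.card {a : H // C a} = (Finset.univ.filter fun a : H => C a).card := by
    rw [Nat.card_eq_fintype_card, Fintype.card_subtype]
  have e3 : ∀ a, Nat.card {g : G // χ g = a ∧ P g} =
      (Finset.univ.filter fun g : G => χ g = a ∧ P g).card := fun a => by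
    rw [Nat.card_eq_fintype_card, Fintype.card_subtype]
  rw [e1, e2, Finset.card_eq_sum_card_fiberwise (f := χ)
    (t := Finset.univ.filter fun a : H => C a) (fun g hg => by
      have hg' := (Finset.mem_filter.1 (Finset.mem_coe.1 hg)).2.1
      exact Finset.mem_coe.2 (Finset.mem_filter.2 ⟨Finset.mem_univ _, hg'⟩)), Finset.mul_sum,
    ← smul_eq_mul (Finset.card _), ← Finset.sum_const]
  refine Finset.sum_le_sum fun a ha => ?_
  have ha' := (Finset.mem_filter.1 ha).2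
  refine le_trans (Nat.mul_le_mul_left K (le_of_eq ?_)) (h a ha')
  rw [e3]
  congr 1
  ext g
  simp only [Finset.mem_filter, Finset.mem_univ, true_and]
  constructor
  · rintro ⟨⟨_, h2⟩, h3⟩
    exact ⟨h3, h2⟩
  · rintro ⟨rfl, h2⟩
    exact ⟨⟨ha', h2⟩, rfl⟩

theorem count_eq {G H : Type} [Finite G] [Fintype H] (χ : G → H)
    (C : H → Prop) (M : ℕ)
    (h : ∀ a, C a → Nat.card {g : G // χ g = a} = M) :
    Nat.card {g : G // C (χ g)} = Nat.card {a : H // C a} * M := by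
  classical
  have := Fintype.ofFinite G
  have e1 : Nat.card {g : G // C (χ g)} =
      (Finset.univ.filter fun g : G => C (χ g)).card := by
    rw [Nat.card_eq_fintype_card, Fintype.card_subtype]
  have e2 : Nat.card {a : H // C a} = (Finset.univ.filter fun a : H => C a).card := by
    rw [Nat.card_eq_fintype_card, Fintype.card_subtype]
  have e3 : ∀ a, Nat.card {g : G // χ g = a} =
      (Finset.univ.filter fun g : G => χ g = a).card := fun a => by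
    rw [Nat.card_eq_fintype_card, Fintype.card_subtype]
  rw [e1, e2, Finset.card_eq_sum_card_fiberwise (f := χ)
    (t := Finset.univ.filter fun a : H => C a) (fun g hg => by
      have hg' := (Finset.mem_filter.1 (Finset.mem_coe.1 hg)).2
      exact Finset.mem_coe.2 (Finset.mem_filter.2 ⟨Finset.mem_univ _, hg'⟩)),
    ← smul_eq_mul (Finset.card _), ← Finset.sum_const]
  refine Finset.sum_congr rfl fun a ha => ?_
  have ha' := (Finset.mem_filter.1 ha).2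
  rw [← h a ha', e3]
  congr 1
  ext g
  simp only [Finset.mem_filter, Finset.mem_univ, true_and]
  constructor
  · rintro ⟨_, h3⟩
    exact h3
  · rintro rfl
    exact ⟨ha', rfl⟩

/-- fibres of a surjective homomorphism -/
theorem fibre {G H : Type} [Group G] [Finite G] [Group H] (χ : G →* H)
    (hχ : Function.Surjective χ) :
    (∀ a : H, Nat.card {g : G // χ g = a} = Nat.card χ.ker) ∧
      Nat.card χ.ker * Nat.card H = Nat.card G := by
  constructor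
  · intro a
    obtain ⟨g0, hg0⟩ := hχ a
    refine Nat.card_congr ⟨fun g => ⟨g0⁻¹ * g.1, ?_⟩, fun g => ⟨g0 * g.1, ?_⟩, ?_, ?_⟩
    · rw [MonoidHom.mem_ker, map_mul, map_inv, hg0, g.2, inv_mul_cancel]
    · rw [map_mul, hg0, MonoidHom.mem_ker.1 g.2, mul_one]
    · intro g
      exact Subtype.ext (mul_inv_cancel_left _ _)
    · intro g
      exact Subtype.ext (inv_mul_cancel_left _ _)
  · have e2 : Nat.card H = χ.ker.index := by
      rw [Subgroup.index_ker, MonoidHom.range_eq_top.2 hχ]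
      exact (Nat.card_congr Subgroup.topEquiv.toEquiv).symm
    rw [e2, Subgroup.card_mul_index]

/-! ### The bad elements -/

/-- the alternating matrix depends only on the entries above the diagonal -/
theorem alt_congr {s : ℕ} {v w : Fin s → Fin s → ZMod 3} (h : ∀ j i, j < i → v j i = w j i) :
    alt v = alt w := by
  funext j i
  unfold alt
  by_cases h1 : j < i
  · rw [if_pos h1, if_pos h1, h j i h1]
  · rw [if_neg h1, if_neg h1]
    by_cases h2 : i < j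
    · rw [if_pos h2, if_pos h2, h i j h2]
    · rw [if_neg h2, if_neg h2]

/-- the elements with class `c` or `-c` -/
def InU {G : Type} [Group G] {f m : ℕ} (χ : G →* (ZMod f)ˣ)
    (κ : (ZMod f)ˣ →* Multiplicative (Fin (m + 1) → ZMod 3)) (c : Fin (m + 1) → ZMod 3)
    (g : G) : Prop := M2 (χ g) ∧ ((κ (χ g)).toAdd = c ∨ (κ (χ g)).toAdd = -c)

/-- the elements with large kernel -/
def Bad {G : Type} [Group G] {f m s : ℕ} (χ : G →* (ZMod f)ˣ)
    (κ : (ZMod f)ˣ →* Multiplicative (Fin (m + 1) → ZMod 3)) (c : Fin (m + 1) → ZMod 3)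
    (C : Fin s → Fin s → ZMod 3) (Φ : (ZMod f)ˣ →* Multiplicative (Fin s → Fin s → ZMod 3))
    (t : ℕ) (tt : G → Fin s → Fin s → ZMod 3) (g : G) : Prop :=
  M2 (χ g) ∧
    (((κ (χ g)).toAdd = c ∧ t ≤ s - (alt (C + (Φ (χ g)).toAdd - tt g)).rank) ∨
      ((κ (χ g)).toAdd = -c ∧ t ≤ s - (alt (C - (Φ (χ g)).toAdd + tt g)).rank))

section
variable {G : Type} [Group G] {f m s : ℕ} (χ : G →* (ZMod f)ˣ)
    (κ : (ZMod f)ˣ →* Multiplicative (Fin (m + 1) → ZMod 3)) (c : Fin (m + 1) → ZMod 3)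
    (C : Fin s → Fin s → ZMod 3) (Φ : (ZMod f)ˣ →* Multiplicative (Fin s → Fin s → ZMod 3))
    (t : ℕ) (tt : G → Fin s → Fin s → ZMod 3)

theorem three_f (x : Fin (m + 1) → ZMod 3) : 3 • x = 0 := by
  funext i
  exact three_z (x i)

theorem three_ff (x : Fin s → Fin s → ZMod 3) : 3 • x = 0 := by
  funext i j
  exact three_z (x i j)

/-- passing to a power with exponent prime to `6` -/
theorem transfer (hf : 0 < f) (h3 : 3 ∣ f) {g h : G} {k : ℕ} (hk : Odd k) (hk3 : k % 3 ≠ 0)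
    (hχ : χ h = χ g ^ k) (hg : M2 (χ g)) (ht : ∀ j i, j ≠ i → tt h j i = k * tt g j i) :
    (InU χ κ c g → InU χ κ c h) ∧ (Bad χ κ c C Φ t tt h → Bad χ κ c C Φ t tt g) := by
  have hM : M2 (χ h) := by
    rw [hχ]
    exact M2_pow hf h3 hg hk
  have e1 : (κ (χ h)).toAdd = k • (κ (χ g)).toAdd := by
    rw [hχ, map_pow, toAdd_pow]
  have e2 : (Φ (χ h)).toAdd = k • (Φ (χ g)).toAdd := by
    rw [hχ, map_pow, toAdd_pow]
  have hk12 : k % 3 = 1 ∨ k % 3 = 2 := by omega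
  rcases hk12 with hk1 | hk2
  · rw [nsmul_one three_f hk1] at e1
    rw [nsmul_one three_ff hk1] at e2
    have e3 : alt (C + (Φ (χ h)).toAdd - tt h) = alt (C + (Φ (χ g)).toAdd - tt g) := by
      apply alt_congr
      intro j i hji
      rw [Pi.sub_apply, Pi.sub_apply, Pi.sub_apply, Pi.sub_apply, ht j i hji.ne,
        cast_one hk1, e2]
    have e4 : alt (C - (Φ (χ h)).toAdd + tt h) = alt (C - (Φ (χ g)).toAdd + tt g) := by
      apply alt_congr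
      intro j i hji
      rw [Pi.add_apply, Pi.add_apply, Pi.add_apply, Pi.add_apply, ht j i hji.ne,
        cast_one hk1, e2]
    constructor
    · rintro ⟨-, h2⟩
      refine ⟨hM, ?_⟩
      rw [e1]
      exact h2
    · rintro ⟨-, h2⟩
      refine ⟨hg, ?_⟩
      rw [e1, e3, e4] at h2
      exact h2
  · rw [nsmul_two three_f hk2] at e1
    rw [nsmul_two three_ff hk2] at e2
    have e3 : alt (C + (Φ (χ h)).toAdd - tt h) = alt (C - (Φ (χ g)).toAdd + tt g) := by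
      apply alt_congr
      intro j i hji
      rw [Pi.sub_apply, Pi.sub_apply, Pi.add_apply, Pi.add_apply, ht j i hji.ne,
        cast_two hk2, e2]
      show C j i + -((Φ (χ g)).toAdd j i) - -tt g j i = C j i - (Φ (χ g)).toAdd j i + tt g j i
      ring
    have e4 : alt (C - (Φ (χ h)).toAdd + tt h) = alt (C + (Φ (χ g)).toAdd - tt g) := by
      apply alt_congr
      intro j i hji
      rw [Pi.add_apply, Pi.add_apply, Pi.sub_apply, Pi.sub_apply, ht j i hji.ne,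
        cast_two hk2, e2]
      show C j i - -((Φ (χ g)).toAdd j i) + -tt g j i = C j i + (Φ (χ g)).toAdd j i - tt g j i
      ring
    constructor
    · rintro ⟨-, h2⟩
      refine ⟨hM, ?_⟩
      rw [e1]
      rcases h2 with h2 | h2
      · exact Or.inr (by rw [h2])
      · exact Or.inl (by rw [h2, neg_neg])
    · rintro ⟨-, h2⟩
      refine ⟨hg, ?_⟩
      rw [e1, e3, e4] at h2
      rcases h2 with ⟨h2, h4⟩ | ⟨h2, h4⟩
      · exact Or.inr ⟨by rw [← h2, neg_neg], h4⟩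
      · exact Or.inl ⟨neg_injective h2, h4⟩

/-- the elements that are not bad are stable under conjugation and change of generator -/
theorem stable [Finite G] (hf : 0 < f) (h3 : 3 ∣ f)
    (hconj : ∀ g τ : G, M2 (χ g) → ∀ j i, j ≠ i → tt (τ * g * τ⁻¹) j i = tt g j i)
    (hpow : ∀ (g : G) (k : ℕ), M2 (χ g) → Odd k → ∀ j i, j ≠ i →
      tt (g ^ k) j i = k * tt g j i)
    {g h τ : G} (hg : InU χ κ c g ∧ ¬ Bad χ κ c C Φ t tt g)
    (hz : Subgroup.zpowers h = Subgroup.zpowers (τ * g * τ⁻¹)) :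
    InU χ κ c h ∧ ¬ Bad χ κ c C Φ t tt h := by
  have hM := hg.1.1
  have hχg : χ (τ * g * τ⁻¹) = χ g := by
    rw [map_mul, map_mul, map_inv, mul_comm (χ τ), mul_inv_cancel_right]
  have hM' : M2 (χ (τ * g * τ⁻¹)) := by
    rw [hχg]
    exact hM
  have he : Even (orderOf (τ * g * τ⁻¹)) := by
    apply M2_even hf h3 hM'
    rw [← map_pow, pow_orderOf_eq_one, map_one]
  obtain ⟨k, hk, hk3, hh⟩ := exists_pow hz he
  have h1 : χ h = χ g ^ k := by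
    rw [hh, map_pow, hχg]
  have h2 : ∀ j i, j ≠ i → tt h j i = k * tt g j i := by
    intro j i hji
    rw [hh, hpow _ k hM' hk j i hji, hconj g τ hM j i hji]
  obtain ⟨h4, h5⟩ := transfer χ κ c C Φ t tt hf h3 hk hk3 h1 hM h2
  exact ⟨h4 hg.1, fun h6 => hg.2 (h5 h6)⟩

/-- counting the bad elements -/
theorem card_bad [Finite G] (hALTK : ALTK) (hEQD : EQD) (hf : 0 < f)
    (hχ : Function.Surjective χ)
    (heq : ∀ (a : (ZMod f)ˣ) (v v' : Fin s → Fin s → ZMod 3), M2 a →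
      Nat.card {g : G // χ g = a ∧ ∀ j i, j < i → tt g j i = v j i} =
        Nat.card {g : G // χ g = a ∧ ∀ j i, j < i → tt g j i = v' j i})
    (hκ : ∀ c : Fin (m + 1) → ZMod 3,
      Nat.card {a : (ZMod f)ˣ // M2 a ∧ (κ a).toAdd = c} * (2 * 3 ^ (m + 1)) = f.totient) :
    3 ^ (t * (t - 1) / 2) * 3 ^ (m + 1) * Nat.card {g : G // Bad χ κ c C Φ t tt g} ≤
      2 * Nat.card G := by
  have : NeZero f := ⟨hf.ne'⟩
  obtain ⟨hfib, hcard⟩ := fibre χ hχ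
  have hH : Nat.card (ZMod f)ˣ = f.totient := by
    rw [Nat.card_eq_fintype_card, ZMod.card_units_eq_totient]
  have hW : 0 < Nat.card (Fin s → Fin s → ZMod 3) := Nat.card_pos
  -- one class
  have cls : ∀ (a : (ZMod f)ˣ) (D : Fin s → Fin s → ZMod 3), M2 a →
      3 ^ (t * (t - 1) / 2) * Nat.card {g : G // χ g = a ∧ t ≤ s - (alt (D - tt g)).rank} ≤
        2 * Nat.card χ.ker ∧
      3 ^ (t * (t - 1) / 2) * Nat.card {g : G // χ g = a ∧ t ≤ s - (alt (D + tt g)).rank} ≤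
        2 * Nat.card χ.ker := by
    intro a D ha
    obtain ⟨h1, h2⟩ := hEQD s f G χ tt hf heq a D {M | t ≤ s - M.rank} ha
    rw [hfib a] at h1 h2
    have h4 := hALTK s t
    have aux : ∀ X Y Z W E : ℕ, 0 < W → X * W = Y * Z → E * Y ≤ 2 * W → E * X ≤ 2 * Z := by
      intro X Y Z W E hW h5 h6
      have h7 : W * (E * X) ≤ W * (2 * Z) := by
        calc W * (E * X) = E * (X * W) := by ring
          _ = E * (Y * Z) := by rw [h5]
          _ = E * Y * Z := by ring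
          _ ≤ 2 * W * Z := Nat.mul_le_mul_right _ h6
          _ = W * (2 * Z) := by ring
      exact Nat.le_of_mul_le_mul_left h7 hW
    exact ⟨aux _ _ _ _ _ hW h1 h4, aux _ _ _ _ _ hW h2 h4⟩
  have hP : 3 ^ (t * (t - 1) / 2) * Nat.card {g : G // (M2 (χ g) ∧ (κ (χ g)).toAdd = c) ∧
      t ≤ s - (alt (C + (Φ (χ g)).toAdd - tt g)).rank} ≤
      Nat.card {a : (ZMod f)ˣ // M2 a ∧ (κ a).toAdd = c} * (2 * Nat.card χ.ker) := by
    refine count_le χ (fun g => t ≤ s - (alt (C + (Φ (χ g)).toAdd - tt g)).rank)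
      (fun a => M2 a ∧ (κ a).toAdd = c) _ _ fun a ha => ?_
    refine le_trans (Nat.mul_le_mul_left _ (le_of_eq ?_)) (cls a (C + (Φ a).toAdd) ha.1).1
    refine Nat.card_congr (Equiv.subtypeEquivRight fun g => ?_)
    constructor
    · rintro ⟨rfl, h⟩
      exact ⟨rfl, h⟩
    · rintro ⟨rfl, h⟩
      exact ⟨rfl, h⟩
  have hN : 3 ^ (t * (t - 1) / 2) * Nat.card {g : G // (M2 (χ g) ∧ (κ (χ g)).toAdd = -c) ∧
      t ≤ s - (alt (C - (Φ (χ g)).toAdd + tt g)).rank} ≤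
      Nat.card {a : (ZMod f)ˣ // M2 a ∧ (κ a).toAdd = -c} * (2 * Nat.card χ.ker) := by
    refine count_le χ (fun g => t ≤ s - (alt (C - (Φ (χ g)).toAdd + tt g)).rank)
      (fun a => M2 a ∧ (κ a).toAdd = -c) _ _ fun a ha => ?_
    refine le_trans (Nat.mul_le_mul_left _ (le_of_eq ?_)) (cls a (C - (Φ a).toAdd) ha.1).2
    refine Nat.card_congr (Equiv.subtypeEquivRight fun g => ?_)
    constructor
    · rintro ⟨rfl, h⟩
      exact ⟨rfl, h⟩
    · rintro ⟨rfl, h⟩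
      exact ⟨rfl, h⟩
  have hB : Nat.card {g : G // Bad χ κ c C Φ t tt g} ≤
      Nat.card {g : G // (M2 (χ g) ∧ (κ (χ g)).toAdd = c) ∧
        t ≤ s - (alt (C + (Φ (χ g)).toAdd - tt g)).rank} +
      Nat.card {g : G // (M2 (χ g) ∧ (κ (χ g)).toAdd = -c) ∧
        t ≤ s - (alt (C - (Φ (χ g)).toAdd + tt g)).rank} := by
    have h1 : {g : G | Bad χ κ c C Φ t tt g} ⊆
        {g : G | (M2 (χ g) ∧ (κ (χ g)).toAdd = c) ∧
          t ≤ s - (alt (C + (Φ (χ g)).toAdd - tt g)).rank} ∪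
        {g : G | (M2 (χ g) ∧ (κ (χ g)).toAdd = -c) ∧
          t ≤ s - (alt (C - (Φ (χ g)).toAdd + tt g)).rank} := by
      rintro g ⟨h2, ⟨h4, h5⟩ | ⟨h4, h5⟩⟩
      · exact Or.inl ⟨⟨h2, h4⟩, h5⟩
      · exact Or.inr ⟨⟨h2, h4⟩, h5⟩
    exact (Set.ncard_le_ncard h1 (Set.toFinite _)).trans (Set.ncard_union_le _ _)
  rw [hH] at hcard
  have h1 := hκ c
  have h2 := hκ (-c)
  generalize Nat.card {g : G // Bad χ κ c C Φ t tt g} = nB at *
  generalize Nat.card {g : G // (M2 (χ g) ∧ (κ (χ g)).toAdd = c) ∧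
        t ≤ s - (alt (C + (Φ (χ g)).toAdd - tt g)).rank} = nP at *
  generalize Nat.card {g : G // (M2 (χ g) ∧ (κ (χ g)).toAdd = -c) ∧
        t ≤ s - (alt (C - (Φ (χ g)).toAdd + tt g)).rank} = nN at *
  generalize Nat.card {a : (ZMod f)ˣ // M2 a ∧ (κ a).toAdd = c} = cP at *
  generalize Nat.card {a : (ZMod f)ˣ // M2 a ∧ (κ a).toAdd = -c} = cN at *
  generalize 3 ^ (t * (t - 1) / 2) = E at *
  generalize 3 ^ (m + 1) = F at *
  generalize Nat.card χ.ker = K at *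
  rw [← hcard]
  calc E * F * nB ≤ E * F * (nP + nN) := Nat.mul_le_mul_left _ hB
    _ = F * (E * nP + E * nN) := by ring
    _ ≤ F * (cP * (2 * K) + cN * (2 * K)) := Nat.mul_le_mul_left _ (add_le_add hP hN)
    _ = K * (cP * (2 * F)) + K * (cN * (2 * F)) := by ring
    _ = K * f.totient + K * f.totient := by rw [h1, h2]
    _ = 2 * (K * f.totient) := by ring

/-- counting the elements of `T` -/
theorem card_T [Finite G] (hALTK : ALTK) (hEQD : EQD) (hf : 0 < f)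
    (hχ : Function.Surjective χ)
    (heq : ∀ (a : (ZMod f)ˣ) (v v' : Fin s → Fin s → ZMod 3), M2 a →
      Nat.card {g : G // χ g = a ∧ ∀ j i, j < i → tt g j i = v j i} =
        Nat.card {g : G // χ g = a ∧ ∀ j i, j < i → tt g j i = v' j i})
    (hκ : ∀ c : Fin (m + 1) → ZMod 3,
      Nat.card {a : (ZMod f)ˣ // M2 a ∧ (κ a).toAdd = c} * (2 * 3 ^ (m + 1)) = f.totient) :
    (Nat.card {a : (ZMod f)ˣ // M2 a ∧ ((κ a).toAdd = c ∨ (κ a).toAdd = -c)} : ℝ) *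
        (1 / (f.totient : ℝ)) -
      (Nat.card {g : G // InU χ κ c g ∧ ¬ Bad χ κ c C Φ t tt g} : ℝ) / Nat.card G ≤
      2 / 3 ^ (t * (t - 1) / 2) / 3 ^ (m + 1) := by
  have : NeZero f := ⟨hf.ne'⟩
  obtain ⟨hfib, hcard⟩ := fibre χ hχ
  have hH : Nat.card (ZMod f)ˣ = f.totient := by
    rw [Nat.card_eq_fintype_card, ZMod.card_units_eq_totient]
  rw [hH] at hcard
  have hU : Nat.card {g : G // InU χ κ c g} =
      Nat.card {a : (ZMod f)ˣ // M2 a ∧ ((κ a).toAdd = c ∨ (κ a).toAdd = -c)} *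
        Nat.card χ.ker :=
    count_eq χ (fun a => M2 a ∧ ((κ a).toAdd = c ∨ (κ a).toAdd = -c)) _ fun a _ => hfib a
  have hUT : Nat.card {g : G // InU χ κ c g} ≤
      Nat.card {g : G // InU χ κ c g ∧ ¬ Bad χ κ c C Φ t tt g} +
        Nat.card {g : G // Bad χ κ c C Φ t tt g} := by
    have h1 : {g : G | InU χ κ c g} ⊆
        {g : G | InU χ κ c g ∧ ¬ Bad χ κ c C Φ t tt g} ∪ {g : G | Bad χ κ c C Φ t tt g} := by
      intro g hg
      by_cases hb : Bad χ κ c C Φ t tt g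
      · exact Or.inr hb
      · exact Or.inl ⟨hg, hb⟩
    exact (Set.ncard_le_ncard h1 (Set.toFinite _)).trans (Set.ncard_union_le _ _)
  have hB := card_bad χ κ c C Φ t tt hALTK hEQD hf hχ heq hκ
  have hK : 0 < Nat.card χ.ker := Nat.card_pos
  have hφ : 0 < f.totient := Nat.totient_pos.2 hf
  rw [hU] at hUT
  generalize Nat.card {a : (ZMod f)ˣ // M2 a ∧ ((κ a).toAdd = c ∨ (κ a).toAdd = -c)} = nV at *
  generalize Nat.card {g : G // InU χ κ c g ∧ ¬ Bad χ κ c C Φ t tt g} = nT at *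
  generalize Nat.card {g : G // Bad χ κ c C Φ t tt g} = nB at *
  generalize Nat.card χ.ker = K at *
  rw [← hcard] at hB ⊢
  have hK' : (0 : ℝ) < K := Nat.cast_pos.2 hK
  have hφ' : (0 : ℝ) < f.totient := Nat.cast_pos.2 hφ
  have hE : (0 : ℝ) < 3 ^ (t * (t - 1) / 2) := by positivity
  have hF : (0 : ℝ) < 3 ^ (m + 1) := by positivity
  have h1 : (nV : ℝ) * K ≤ nT + nB := by exact_mod_cast hUT
  have h2 : (3 : ℝ) ^ (t * (t - 1) / 2) * 3 ^ (m + 1) * nB ≤ 2 * (K * f.totient) := by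
    exact_mod_cast hB
  have h3 : (nV : ℝ) * (1 / (f.totient : ℝ)) - (nT : ℝ) / ((K * f.totient : ℕ) : ℝ) =
      (nV * K - nT) / (K * f.totient) := by
    push_cast
    field_simp
  rw [h3, div_div, div_le_div_iff₀ (by positivity) (by positivity)]
  calc ((nV : ℝ) * K - nT) * (3 ^ (t * (t - 1) / 2) * 3 ^ (m + 1))
      ≤ nB * (3 ^ (t * (t - 1) / 2) * 3 ^ (m + 1)) :=
        mul_le_mul_of_nonneg_right (by linarith) (by positivity)
    _ = 3 ^ (t * (t - 1) / 2) * 3 ^ (m + 1) * nB := by ring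
    _ ≤ 2 * (K * f.totient) := h2

end

end BDENS

open _root_.Pool.Agent.PT.BDENS in
/-- BDENS: upper bound for the density of the primes with large kernel. -/
theorem BDENS_thm (hGALD : GALD) (hALTK : ALTK) (hEQD : EQD) (hDIR : DIR) : BDENS := by
  classical
  intro s b p q p' q' f m t κ c C Φ hSys hf h9 hκ
  obtain ⟨L, iF, iN, iG, χ, tt, N₀, hχ, hconj, hpow, heq, hfrob⟩ :=
    hGALD s b p q p' q' f hSys hf h9
  have h3 : 3 ∣ f := Dvd.dvd.trans (by norm_num) h9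
  have : NeZero f := ⟨hf.ne'⟩
  have hst : ∀ g h τ : L ≃ₐ[ℚ] L, g ∈ {g | InU χ κ c g ∧ ¬ Bad χ κ c C Φ t tt g} →
      Subgroup.zpowers h = Subgroup.zpowers (τ * g * τ⁻¹) →
      h ∈ {g | InU χ κ c g ∧ ¬ Bad χ κ c C Φ t tt g} := fun g h τ hg hz =>
    stable χ κ c C Φ t tt hf h3 hconj hpow hg hz
  obtain ⟨C1, hC1⟩ := RI.FROBD_thm L _ hst
  choose DC hDC using fun a : (ZMod f)ˣ => hDIR f a hf
  have hT := card_T χ κ c C Φ t tt hALTK hEQD hf hχ heq hκ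
  -- the sets of primes
  obtain ⟨SB, hSB⟩ : ∃ SB : Set ℕ, SB = {Q : ℕ | ∃ hQ : Q.Coprime f, Q % 3 = 2 ∧
      (κ (ZMod.unitOfCoprime Q hQ)).toAdd = c ∧
      ∀ τ : Fin s → Fin s → ZMod 3,
        (∀ j i, j ≠ i → ∀ r : ℤ, (Q : ℤ) ∣ r ^ 3 - b j →
          τ j i = TAUV Q (p j i) (q j i) (p' j i) (q' j i) r) →
        t ≤ s - (alt (C + (Φ (ZMod.unitOfCoprime Q hQ)).toAdd - τ)).rank} := ⟨_, rfl⟩
  obtain ⟨ST, hST⟩ : ∃ ST : Set ℕ, ST = {Q : ℕ | ∃ g ∈ {g | InU χ κ c g ∧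
      ¬ Bad χ κ c C Φ t tt g}, ∃ P : Ideal (𝓞 L), P.IsPrime ∧ (Q : 𝓞 L) ∈ P ∧
      MulAction.stabilizer (L ≃ₐ[ℚ] L) P = Subgroup.zpowers g} := ⟨_, rfl⟩
  obtain ⟨V, hV⟩ : ∃ V : Finset (ZMod f)ˣ, V = Finset.univ.filter fun a =>
      M2 a ∧ ((κ a).toAdd = c ∨ (κ a).toAdd = -c) := ⟨_, rfl⟩
  have hVc : V.card =
      Nat.card {a : (ZMod f)ˣ // M2 a ∧ ((κ a).toAdd = c ∨ (κ a).toAdd = -c)} := by
    rw [Nat.card_eq_fintype_card, Fintype.card_subtype, hV]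
  have hM : ∀ (Q : ℕ) (hQ : Q.Coprime f), M2 (ZMod.unitOfCoprime Q hQ) ↔ Q % 3 = 2 := by
    intro Q hQ
    unfold M2
    rw [ZMod.coe_unitOfCoprime, ZMod.val_natCast, Nat.mod_mod_of_dvd _ h3]
  have hcop : ∀ n : ℕ, n.Prime → n ∉ Finset.range (max N₀ f + 1) → n.Coprime f ∧ N₀ < n := by
    intro n hn hA
    rw [Finset.mem_range, not_lt] at hA
    refine ⟨(Nat.Prime.coprime_iff_not_dvd hn).2 fun h => ?_, ?_⟩
    · have h1 := Nat.le_of_dvd hf h
      have h2 := le_max_right N₀ f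
      omega
    · have h2 := le_max_left N₀ f
      omega
  -- the elements of `ST`
  have hSTe : ∀ n : ℕ, n.Prime → n ∉ Finset.range (max N₀ f + 1) → n ∈ ST →
      ∃ (hQ : n.Coprime f) (g : L ≃ₐ[ℚ] L), (InU χ κ c g ∧ ¬ Bad χ κ c C Φ t tt g) ∧
        χ g = ZMod.unitOfCoprime n hQ ∧ (n % 3 = 2 → ∀ j i, j ≠ i → ∀ r : ℤ,
          (n : ℤ) ∣ r ^ 3 - b j → tt g j i = TAUV n (p j i) (q j i) (p' j i) (q' j i) r) := by
    intro n hn hA hnST
    rw [hST] at hnST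
    obtain ⟨g, hg, P, hP, hnP, hstab⟩ := hnST
    obtain ⟨hQ, hN⟩ := hcop n hn hA
    obtain ⟨k, hk, hχk, htk⟩ := hfrob n hQ hn hN P g hP hnP hstab
    refine ⟨hQ, g ^ k, ?_, hχk, htk⟩
    refine hst g (g ^ k) 1 hg ?_
    rw [one_mul, inv_one, mul_one]
    exact zpowers_pow_eq hk
  refine ⟨2 * (Finset.range (max N₀ f + 1)).card + ∑ a ∈ V, DC a + C1, fun σ h1 h2 => ?_⟩
  have key := sm_add_le SB ST {Q : ℕ | ∃ a ∈ V, (Q : ZMod f) = a}
    (Finset.range (max N₀ f + 1)) ?_ ?_ h1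
  · have cov := sm_cover {Q : ℕ | ∃ a ∈ V, (Q : ZMod f) = a} V (fun n _ hn => hn) h1
    have hfr := hC1 σ h1 h2
    have hfr' : ((Nat.card {g : L ≃ₐ[ℚ] L // InU χ κ c g ∧ ¬ Bad χ κ c C Φ t tt g} : ℝ) /
        Nat.card (L ≃ₐ[ℚ] L)) * Real.log (1 / (σ - 1)) - C1 ≤ sm ST σ := by
      rw [hST]
      exact hfr
    have hsum : ∑ a ∈ V, ∑' q : {q : ℕ // q.Prime ∧ (q : ZMod f) = a}, (q : ℝ) ^ (-σ) ≤
        ∑ a ∈ V, ((1 / (f.totient : ℝ)) * Real.log (1 / (σ - 1)) + DC a) :=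
      Finset.sum_le_sum fun a _ => hDC a σ h1 h2
    rw [Finset.sum_add_distrib, Finset.sum_const, nsmul_eq_mul, hVc] at hsum
    have hlog : 0 ≤ Real.log (1 / (σ - 1)) := by
      apply Real.log_nonneg
      rw [le_div_iff₀ (by linarith)]
      linarith
    have hmul := mul_le_mul_of_nonneg_right hT hlog
    have hgoal : sm SB σ ≤ 2 / 3 ^ (t * (t - 1) / 2) / 3 ^ (m + 1) * Real.log (1 / (σ - 1)) +
        (2 * (Finset.range (max N₀ f + 1)).card + ∑ a ∈ V, DC a + C1) := by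
      rw [sub_mul, mul_assoc] at hmul
      linarith
    rw [hSB] at hgoal
    exact hgoal
  · intro n hn hA hnB
    rw [hSB] at hnB
    obtain ⟨hQ, hn3, hnc, hnτ⟩ := hnB
    constructor
    · refine ⟨ZMod.unitOfCoprime n hQ, ?_, ZMod.coe_unitOfCoprime n hQ⟩
      rw [hV]
      exact Finset.mem_filter.2 ⟨Finset.mem_univ _, (hM n hQ).2 hn3, Or.inl hnc⟩
    · intro hnST
      obtain ⟨hQ', g, ⟨hgU, hgB⟩, hχg, htg⟩ := hSTe n hn hA hnST
      apply hgB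
      refine ⟨hgU.1, Or.inl ⟨?_, ?_⟩⟩
      · rw [hχg]
        exact hnc
      · rw [hχg]
        exact hnτ (tt g) (htg hn3)
  · intro n hn hA hnST
    obtain ⟨hQ', g, ⟨hgU, hgB⟩, hχg, htg⟩ := hSTe n hn hA hnST
    refine ⟨ZMod.unitOfCoprime n hQ', ?_, ZMod.coe_unitOfCoprime n hQ'⟩
    rw [hV]
    have h5 := hgU
    unfold InU at h5
    rw [hχg] at h5
    exact Finset.mem_filter.2 ⟨Finset.mem_univ _, h5⟩

end Pool.Agent.PT


end

section

/-!
# Prime power twists: the density of the primes with large kernel, both exponents together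
-/

set_option autoImplicit false

open NumberField IsDedekindDomain Finset
open scoped nonZeroDivisors Pointwise

namespace Pool.Agent.PTL

open Pool.Agent.PT Pool.Agent.Lib_helper18 Pool.Agent.Lib_helper18.Eis Pool.Agent.Lib_helper84.Cub

/-- the number of the matrices with large kernel -/
noncomputable def NK (s t : ℕ) : ℕ :=
  Nat.card {v : Fin s → Fin s → ZMod 3 // t ≤ s - (alt v).rank}

/-- the primes of the class `c` with large kernel, for the exponent `1` -/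
def SP {s : ℕ} (b : Fin s → ℤ) (p q p' q' : Fin s → Fin s → ℤ) {f m : ℕ} (t : ℕ)
    (κ : (ZMod f)ˣ →* Multiplicative (Fin (m + 1) → ZMod 3)) (c : Fin (m + 1) → ZMod 3)
    (C : Fin s → Fin s → ZMod 3) (Φ : (ZMod f)ˣ →* Multiplicative (Fin s → Fin s → ZMod 3)) :
    Set ℕ :=
  {Q : ℕ | ∃ hQ : Q.Coprime f, Q % 3 = 2 ∧ (κ (ZMod.unitOfCoprime Q hQ)).toAdd = c ∧
    ∀ τ : Fin s → Fin s → ZMod 3,
      (∀ j i, j ≠ i → ∀ r : ℤ, (Q : ℤ) ∣ r ^ 3 - b j →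
        τ j i = TAUV Q (p j i) (q j i) (p' j i) (q' j i) r) →
      t ≤ s - (alt (C + (Φ (ZMod.unitOfCoprime Q hQ)).toAdd - τ)).rank}

/-- the primes of the class `-c` with large kernel, for the exponent `2` -/
def SM {s : ℕ} (b : Fin s → ℤ) (p q p' q' : Fin s → Fin s → ℤ) {f m : ℕ} (t : ℕ)
    (κ : (ZMod f)ˣ →* Multiplicative (Fin (m + 1) → ZMod 3)) (c : Fin (m + 1) → ZMod 3)
    (C : Fin s → Fin s → ZMod 3) (Φ : (ZMod f)ˣ →* Multiplicative (Fin s → Fin s → ZMod 3)) :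
    Set ℕ :=
  {Q : ℕ | ∃ hQ : Q.Coprime f, Q % 3 = 2 ∧ (κ (ZMod.unitOfCoprime Q hQ)).toAdd = -c ∧
    ∀ τ : Fin s → Fin s → ZMod 3,
      (∀ j i, j ≠ i → ∀ r : ℤ, (Q : ℤ) ∣ r ^ 3 - b j →
        τ j i = TAUV Q (p j i) (q j i) (p' j i) (q' j i) r) →
      t ≤ s - (alt (C - (Φ (ZMod.unitOfCoprime Q hQ)).toAdd + τ)).rank}

/-- BDE: the exact bound for the density, both exponents together. -/
def BDE : Prop := ∀ (s : ℕ) (b : Fin s → ℤ) (p q p' q' : Fin s → Fin s → ℤ) (f m t : ℕ)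
  (κ : (ZMod f)ˣ →* Multiplicative (Fin (m + 1) → ZMod 3)) (c : Fin (m + 1) → ZMod 3)
  (C : Fin s → Fin s → ZMod 3) (Φ : (ZMod f)ˣ →* Multiplicative (Fin s → Fin s → ZMod 3)),
  Sys b p q p' q' → 0 < f → 9 ∣ f →
  (∀ c : Fin (m + 1) → ZMod 3,
    Nat.card {a : (ZMod f)ˣ // M2 a ∧ (κ a).toAdd = c} * (2 * 3 ^ (m + 1)) = f.totient) →
  ∃ K : ℝ, ∀ σ : ℝ, 1 < σ → σ ≤ 2 →
    BDENS.sm (SP b p q p' q' t κ c C Φ) σ + BDENS.sm (SM b p q p' q' t κ c C Φ) σ ≤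
      (NK s t : ℝ) / Nat.card (Fin s → Fin s → ZMod 3) / 3 ^ (m + 1) *
        Real.log (1 / (σ - 1)) + K

namespace BD

open BDENS

/-- two sets of primes -/
theorem sm_union_inter (S₁ S₂ : Set ℕ) {σ : ℝ} (hσ : 1 < σ) :
    sm S₁ σ + sm S₂ σ = sm (S₁ ∪ S₂) σ + sm (S₁ ∩ S₂) σ := by
  classical
  rw [sm_eq, sm_eq, sm_eq, sm_eq, ← (ind_summable S₁ hσ).tsum_add (ind_summable S₂ hσ),
    ← (ind_summable (S₁ ∪ S₂) hσ).tsum_add (ind_summable (S₁ ∩ S₂) hσ)]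
  refine tsum_congr fun n => ?_
  by_cases hp : n.Prime
  · by_cases h1 : n ∈ S₁
    · by_cases h2 : n ∈ S₂
      · rw [ind_mem hp h1, ind_mem hp h2, ind_mem hp (Or.inl h1 : n ∈ S₁ ∪ S₂),
          ind_mem hp (⟨h1, h2⟩ : n ∈ S₁ ∩ S₂)]
      · rw [ind_mem hp h1, ind_not fun h => h2 h.2, ind_mem hp (Or.inl h1 : n ∈ S₁ ∪ S₂),
          ind_not fun h => h2 h.2.2]
    · by_cases h2 : n ∈ S₂
      · rw [ind_not fun h => h1 h.2, ind_mem hp h2, ind_mem hp (Or.inr h2 : n ∈ S₁ ∪ S₂),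
          ind_not fun h => h1 h.2.1, add_comm]
      · rw [ind_not fun h => h1 h.2, ind_not fun h => h2 h.2,
          ind_not fun h => h.2.elim h1 h2, ind_not fun h => h1 h.2.1]
  · rw [ind_not fun h => hp h.1, ind_not fun h => hp h.1, ind_not fun h => hp h.1,
      ind_not fun h => hp h.1]

section
variable {G : Type} [Group G] {f m s : ℕ} (χ : G →* (ZMod f)ˣ)
    (κ : (ZMod f)ˣ →* Multiplicative (Fin (m + 1) → ZMod 3)) (c : Fin (m + 1) → ZMod 3)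
    (C : Fin s → Fin s → ZMod 3) (Φ : (ZMod f)ˣ →* Multiplicative (Fin s → Fin s → ZMod 3))
    (t : ℕ) (tt : G → Fin s → Fin s → ZMod 3)

/-- the elements of class `c` with large kernel -/
def XP (g : G) : Prop := M2 (χ g) ∧ (κ (χ g)).toAdd = c ∧
  t ≤ s - (alt (C + (Φ (χ g)).toAdd - tt g)).rank

/-- the elements of class `-c` with large kernel -/
def XM (g : G) : Prop := M2 (χ g) ∧ (κ (χ g)).toAdd = -c ∧
  t ≤ s - (alt (C - (Φ (χ g)).toAdd + tt g)).rank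

/-- passing to a power with exponent prime to `6` -/
theorem transfer (hf : 0 < f) (h3 : 3 ∣ f) {g h : G} {k : ℕ} (hk : Odd k) (hk3 : k % 3 ≠ 0)
    (hχ : χ h = χ g ^ k) (hg : M2 (χ g)) (ht : ∀ j i, j ≠ i → tt h j i = k * tt g j i) :
    (InU χ κ c g → InU χ κ c h) ∧
      (((XP χ κ c C Φ t tt h → XP χ κ c C Φ t tt g) ∧
          (XM χ κ c C Φ t tt h → XM χ κ c C Φ t tt g)) ∨
        ((XP χ κ c C Φ t tt h → XM χ κ c C Φ t tt g) ∧
          (XM χ κ c C Φ t tt h → XP χ κ c C Φ t tt g))) := by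
  have hM : M2 (χ h) := by
    rw [hχ]
    exact M2_pow hf h3 hg hk
  have e1 : (κ (χ h)).toAdd = k • (κ (χ g)).toAdd := by
    rw [hχ, map_pow, toAdd_pow]
  have e2 : (Φ (χ h)).toAdd = k • (Φ (χ g)).toAdd := by
    rw [hχ, map_pow, toAdd_pow]
  have hk12 : k % 3 = 1 ∨ k % 3 = 2 := by omega
  rcases hk12 with hk1 | hk2
  · rw [nsmul_one three_f hk1] at e1
    rw [nsmul_one three_ff hk1] at e2
    have e3 : alt (C + (Φ (χ h)).toAdd - tt h) = alt (C + (Φ (χ g)).toAdd - tt g) := by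
      apply alt_congr
      intro j i hji
      rw [Pi.sub_apply, Pi.sub_apply, Pi.sub_apply, Pi.sub_apply, ht j i hji.ne,
        cast_one hk1, e2]
    have e4 : alt (C - (Φ (χ h)).toAdd + tt h) = alt (C - (Φ (χ g)).toAdd + tt g) := by
      apply alt_congr
      intro j i hji
      rw [Pi.add_apply, Pi.add_apply, Pi.add_apply, Pi.add_apply, ht j i hji.ne,
        cast_one hk1, e2]
    refine ⟨?_, Or.inl ⟨?_, ?_⟩⟩
    · rintro ⟨-, h2⟩
      refine ⟨hM, ?_⟩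
      rw [e1]
      exact h2
    · rintro ⟨-, h2, h4⟩
      rw [e1] at h2
      rw [e3] at h4
      exact ⟨hg, h2, h4⟩
    · rintro ⟨-, h2, h4⟩
      rw [e1] at h2
      rw [e4] at h4
      exact ⟨hg, h2, h4⟩
  · rw [nsmul_two three_f hk2] at e1
    rw [nsmul_two three_ff hk2] at e2
    have e3 : alt (C + (Φ (χ h)).toAdd - tt h) = alt (C - (Φ (χ g)).toAdd + tt g) := by
      apply alt_congr
      intro j i hji
      rw [Pi.sub_apply, Pi.sub_apply, Pi.add_apply, Pi.add_apply, ht j i hji.ne,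
        cast_two hk2, e2]
      show C j i + -((Φ (χ g)).toAdd j i) - -tt g j i = C j i - (Φ (χ g)).toAdd j i + tt g j i
      ring
    have e4 : alt (C - (Φ (χ h)).toAdd + tt h) = alt (C + (Φ (χ g)).toAdd - tt g) := by
      apply alt_congr
      intro j i hji
      rw [Pi.add_apply, Pi.add_apply, Pi.sub_apply, Pi.sub_apply, ht j i hji.ne,
        cast_two hk2, e2]
      show C j i - -((Φ (χ g)).toAdd j i) + -tt g j i = C j i + (Φ (χ g)).toAdd j i - tt g j i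
      ring
    refine ⟨?_, Or.inr ⟨?_, ?_⟩⟩
    · rintro ⟨-, h2⟩
      refine ⟨hM, ?_⟩
      rw [e1]
      rcases h2 with h2 | h2
      · exact Or.inr (by rw [h2])
      · exact Or.inl (by rw [h2, neg_neg])
    · rintro ⟨-, h2, h4⟩
      rw [e1] at h2
      rw [e3] at h4
      exact ⟨hg, by rw [← h2, neg_neg], h4⟩
    · rintro ⟨-, h2, h4⟩
      rw [e1] at h2
      rw [e4] at h4
      exact ⟨hg, neg_injective h2, h4⟩

/-- a predicate which can be transferred -/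
def Inv (B : G → Prop) : Prop := ∀ {g h : G} {k : ℕ}, Odd k → k % 3 ≠ 0 → χ h = χ g ^ k →
  M2 (χ g) → (∀ j i, j ≠ i → tt h j i = k * tt g j i) →
  (InU χ κ c g → InU χ κ c h) ∧ (B h → B g)

theorem inv_or (hf : 0 < f) (h3 : 3 ∣ f) :
    Inv χ κ c tt fun g => XP χ κ c C Φ t tt g ∨ XM χ κ c C Φ t tt g := by
  intro g h k hk hk3 hχ hg ht
  obtain ⟨h1, h2⟩ := transfer χ κ c C Φ t tt hf h3 hk hk3 hχ hg ht
  refine ⟨h1, ?_⟩
  rcases h2 with ⟨h4, h5⟩ | ⟨h4, h5⟩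
  · rintro (h6 | h6)
    · exact Or.inl (h4 h6)
    · exact Or.inr (h5 h6)
  · rintro (h6 | h6)
    · exact Or.inr (h4 h6)
    · exact Or.inl (h5 h6)

theorem inv_and (hf : 0 < f) (h3 : 3 ∣ f) :
    Inv χ κ c tt fun g => XP χ κ c C Φ t tt g ∧ XM χ κ c C Φ t tt g := by
  intro g h k hk hk3 hχ hg ht
  obtain ⟨h1, h2⟩ := transfer χ κ c C Φ t tt hf h3 hk hk3 hχ hg ht
  refine ⟨h1, ?_⟩
  rcases h2 with ⟨h4, h5⟩ | ⟨h4, h5⟩
  · rintro ⟨h6, h7⟩
    exact ⟨h4 h6, h5 h7⟩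
  · rintro ⟨h6, h7⟩
    exact ⟨h5 h7, h4 h6⟩

/-- the elements that are not bad are stable under conjugation and change of generator -/
theorem stable [Finite G] (hf : 0 < f) (h3 : 3 ∣ f) {B : G → Prop} (hB : Inv χ κ c tt B)
    (hconj : ∀ g τ : G, M2 (χ g) → ∀ j i, j ≠ i → tt (τ * g * τ⁻¹) j i = tt g j i)
    (hpow : ∀ (g : G) (k : ℕ), M2 (χ g) → Odd k → ∀ j i, j ≠ i →
      tt (g ^ k) j i = k * tt g j i)
    {g h τ : G} (hg : InU χ κ c g ∧ ¬ B g)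
    (hz : Subgroup.zpowers h = Subgroup.zpowers (τ * g * τ⁻¹)) :
    InU χ κ c h ∧ ¬ B h := by
  have hM := hg.1.1
  have hχg : χ (τ * g * τ⁻¹) = χ g := by
    rw [map_mul, map_mul, map_inv, mul_comm (χ τ), mul_inv_cancel_right]
  have hM' : M2 (χ (τ * g * τ⁻¹)) := by
    rw [hχg]
    exact hM
  have he : Even (orderOf (τ * g * τ⁻¹)) := by
    apply M2_even hf h3 hM'
    rw [← map_pow, pow_orderOf_eq_one, map_one]
  obtain ⟨k, hk, hk3, hh⟩ := exists_pow hz he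
  have h1 : χ h = χ g ^ k := by
    rw [hh, map_pow, hχg]
  have h2 : ∀ j i, j ≠ i → tt h j i = k * tt g j i := by
    intro j i hji
    rw [hh, hpow _ k hM' hk j i hji, hconj g τ hM j i hji]
  obtain ⟨h4, h5⟩ := hB hk hk3 h1 hM h2
  exact ⟨h4 hg.1, fun h6 => hg.2 (h5 h6)⟩

/-- counting -/
theorem card_X [Finite G] (hEQD : EQD) (hf : 0 < f) (hχ : Function.Surjective χ)
    (heq : ∀ (a : (ZMod f)ˣ) (v v' : Fin s → Fin s → ZMod 3), M2 a →
      Nat.card {g : G // χ g = a ∧ ∀ j i, j < i → tt g j i = v j i} =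
        Nat.card {g : G // χ g = a ∧ ∀ j i, j < i → tt g j i = v' j i})
    (hκ : ∀ c : Fin (m + 1) → ZMod 3,
      Nat.card {a : (ZMod f)ˣ // M2 a ∧ (κ a).toAdd = c} * (2 * 3 ^ (m + 1)) = f.totient) :
    Nat.card (Fin s → Fin s → ZMod 3) * Nat.card {g : G // XP χ κ c C Φ t tt g} *
        (2 * 3 ^ (m + 1)) ≤ NK s t * Nat.card G ∧
      Nat.card (Fin s → Fin s → ZMod 3) * Nat.card {g : G // XM χ κ c C Φ t tt g} *
        (2 * 3 ^ (m + 1)) ≤ NK s t * Nat.card G := by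
  have : NeZero f := ⟨hf.ne'⟩
  obtain ⟨hfib, hcard⟩ := fibre χ hχ
  have hH : Nat.card (ZMod f)ˣ = f.totient := by
    rw [Nat.card_eq_fintype_card, ZMod.card_units_eq_totient]
  rw [hH] at hcard
  have hcls : ∀ (a : (ZMod f)ˣ) (D : Fin s → Fin s → ZMod 3), M2 a →
      Nat.card (Fin s → Fin s → ZMod 3) *
        Nat.card {g : G // χ g = a ∧ t ≤ s - (alt (D - tt g)).rank} ≤
        NK s t * Nat.card χ.ker ∧
      Nat.card (Fin s → Fin s → ZMod 3) *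
        Nat.card {g : G // χ g = a ∧ t ≤ s - (alt (D + tt g)).rank} ≤
        NK s t * Nat.card χ.ker := by
    intro a D ha
    obtain ⟨h1, h2⟩ := hEQD s f G χ tt hf heq a D {M | t ≤ s - M.rank} ha
    rw [hfib a] at h1 h2
    constructor
    · rw [mul_comm]
      exact le_of_eq h1
    · rw [mul_comm]
      exact le_of_eq h2
  have hP : Nat.card (Fin s → Fin s → ZMod 3) *
      Nat.card {g : G // (M2 (χ g) ∧ (κ (χ g)).toAdd = c) ∧
      t ≤ s - (alt (C + (Φ (χ g)).toAdd - tt g)).rank} ≤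
      Nat.card {a : (ZMod f)ˣ // M2 a ∧ (κ a).toAdd = c} * (NK s t * Nat.card χ.ker) := by
    refine count_le χ (fun g => t ≤ s - (alt (C + (Φ (χ g)).toAdd - tt g)).rank)
      (fun a => M2 a ∧ (κ a).toAdd = c) _ _ fun a ha => ?_
    refine le_trans (Nat.mul_le_mul_left _ (le_of_eq ?_)) (hcls a (C + (Φ a).toAdd) ha.1).1
    refine Nat.card_congr (Equiv.subtypeEquivRight fun g => ?_)
    constructor
    · rintro ⟨rfl, h⟩
      exact ⟨rfl, h⟩
    · rintro ⟨rfl, h⟩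
      exact ⟨rfl, h⟩
  have hN : Nat.card (Fin s → Fin s → ZMod 3) *
      Nat.card {g : G // (M2 (χ g) ∧ (κ (χ g)).toAdd = -c) ∧
      t ≤ s - (alt (C - (Φ (χ g)).toAdd + tt g)).rank} ≤
      Nat.card {a : (ZMod f)ˣ // M2 a ∧ (κ a).toAdd = -c} * (NK s t * Nat.card χ.ker) := by
    refine count_le χ (fun g => t ≤ s - (alt (C - (Φ (χ g)).toAdd + tt g)).rank)
      (fun a => M2 a ∧ (κ a).toAdd = -c) _ _ fun a ha => ?_
    refine le_trans (Nat.mul_le_mul_left _ (le_of_eq ?_)) (hcls a (C - (Φ a).toAdd) ha.1).2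
    refine Nat.card_congr (Equiv.subtypeEquivRight fun g => ?_)
    constructor
    · rintro ⟨rfl, h⟩
      exact ⟨rfl, h⟩
    · rintro ⟨rfl, h⟩
      exact ⟨rfl, h⟩
  have e1 : Nat.card {g : G // XP χ κ c C Φ t tt g} =
      Nat.card {g : G // (M2 (χ g) ∧ (κ (χ g)).toAdd = c) ∧
      t ≤ s - (alt (C + (Φ (χ g)).toAdd - tt g)).rank} :=
    Nat.card_congr (Equiv.subtypeEquivRight fun g => (and_assoc).symm)
  have e2 : Nat.card {g : G // XM χ κ c C Φ t tt g} =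
      Nat.card {g : G // (M2 (χ g) ∧ (κ (χ g)).toAdd = -c) ∧
      t ≤ s - (alt (C - (Φ (χ g)).toAdd + tt g)).rank} :=
    Nat.card_congr (Equiv.subtypeEquivRight fun g => (and_assoc).symm)
  rw [← e1] at hP
  rw [← e2] at hN
  have h1 := hκ c
  have h2 := hκ (-c)
  generalize Nat.card {g : G // XP χ κ c C Φ t tt g} = nP at *
  generalize Nat.card {g : G // XM χ κ c C Φ t tt g} = nN at *
  generalize Nat.card {a : (ZMod f)ˣ // M2 a ∧ (κ a).toAdd = c} = cP at *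
  generalize Nat.card {a : (ZMod f)ˣ // M2 a ∧ (κ a).toAdd = -c} = cN at *
  generalize Nat.card (Fin s → Fin s → ZMod 3) = A at *
  generalize 3 ^ (m + 1) = F at *
  generalize Nat.card χ.ker = K at *
  rw [← hcard]
  constructor
  · calc A * nP * (2 * F) ≤ cP * (NK s t * K) * (2 * F) := Nat.mul_le_mul_right _ hP
      _ = NK s t * (K * (cP * (2 * F))) := by ring
      _ = NK s t * (K * f.totient) := by rw [h1]
  · calc A * nN * (2 * F) ≤ cN * (NK s t * K) * (2 * F) := Nat.mul_le_mul_right _ hN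
      _ = NK s t * (K * (cN * (2 * F))) := by ring
      _ = NK s t * (K * f.totient) := by rw [h2]

/-- inclusion and exclusion -/
theorem card_incl [Finite G] (P Q : G → Prop) :
    Nat.card {g : G // P g ∨ Q g} + Nat.card {g : G // P g ∧ Q g} =
      Nat.card {g : G // P g} + Nat.card {g : G // Q g} :=
  Set.ncard_union_add_ncard_inter {g : G | P g} {g : G | Q g} (Set.toFinite _) (Set.toFinite _)

/-- counting the elements of `T` -/
theorem card_T [Finite G] (hf : 0 < f) (hχ : Function.Surjective χ) (B : G → Prop) :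
    (Nat.card {a : (ZMod f)ˣ // M2 a ∧ ((κ a).toAdd = c ∨ (κ a).toAdd = -c)} : ℝ) *
        (1 / (f.totient : ℝ)) -
      (Nat.card {g : G // InU χ κ c g ∧ ¬ B g} : ℝ) / Nat.card G ≤
      (Nat.card {g : G // B g} : ℝ) / Nat.card G := by
  have : NeZero f := ⟨hf.ne'⟩
  obtain ⟨hfib, hcard⟩ := fibre χ hχ
  have hH : Nat.card (ZMod f)ˣ = f.totient := by
    rw [Nat.card_eq_fintype_card, ZMod.card_units_eq_totient]
  rw [hH] at hcard
  have hU : Nat.card {g : G // InU χ κ c g} =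
      Nat.card {a : (ZMod f)ˣ // M2 a ∧ ((κ a).toAdd = c ∨ (κ a).toAdd = -c)} *
        Nat.card χ.ker :=
    count_eq χ (fun a => M2 a ∧ ((κ a).toAdd = c ∨ (κ a).toAdd = -c)) _ fun a _ => hfib a
  have hUT : Nat.card {g : G // InU χ κ c g} ≤
      Nat.card {g : G // InU χ κ c g ∧ ¬ B g} + Nat.card {g : G // B g} := by
    have h1 : {g : G | InU χ κ c g} ⊆
        {g : G | InU χ κ c g ∧ ¬ B g} ∪ {g : G | B g} := by
      intro g hg
      by_cases hb : B g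
      · exact Or.inr hb
      · exact Or.inl ⟨hg, hb⟩
    exact (Set.ncard_le_ncard h1 (Set.toFinite _)).trans (Set.ncard_union_le _ _)
  have hK : 0 < Nat.card χ.ker := Nat.card_pos
  have hφ : 0 < f.totient := Nat.totient_pos.2 hf
  rw [hU] at hUT
  generalize Nat.card {a : (ZMod f)ˣ // M2 a ∧ ((κ a).toAdd = c ∨ (κ a).toAdd = -c)} = nV at *
  generalize Nat.card {g : G // InU χ κ c g ∧ ¬ B g} = nT at *
  generalize Nat.card {g : G // B g} = nB at *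
  generalize Nat.card χ.ker = K at *
  rw [← hcard]
  have hK' : (0 : ℝ) < K := Nat.cast_pos.2 hK
  have hφ' : (0 : ℝ) < f.totient := Nat.cast_pos.2 hφ
  have h1 : (nV : ℝ) * K ≤ nT + nB := by exact_mod_cast hUT
  have h3 : (nV : ℝ) * (1 / (f.totient : ℝ)) - (nT : ℝ) / ((K * f.totient : ℕ) : ℝ) =
      (nV * K - nT) / (K * f.totient) := by
    push_cast
    field_simp
  rw [h3]
  push_cast
  exact div_le_div_of_nonneg_right (by linarith) (by positivity)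

end

/-- the density of a set of primes -/
theorem dens (hDIR : DIR) {s : ℕ} {b : Fin s → ℤ} {p q p' q' : Fin s → Fin s → ℤ} {f m : ℕ}
    (hf : 0 < f) (h3 : 3 ∣ f)
    (κ : (ZMod f)ˣ →* Multiplicative (Fin (m + 1) → ZMod 3)) (c : Fin (m + 1) → ZMod 3)
    (L : Type) [Field L] [NumberField L] [IsGalois ℚ L] (χ : (L ≃ₐ[ℚ] L) →* (ZMod f)ˣ)
    (tt : (L ≃ₐ[ℚ] L) → Fin s → Fin s → ZMod 3) (N₀ : ℕ) (hχ : Function.Surjective χ)
    (hconj : ∀ g τ : L ≃ₐ[ℚ] L, M2 (χ g) → ∀ j i, j ≠ i → tt (τ * g * τ⁻¹) j i = tt g j i)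
    (hpow : ∀ (g : L ≃ₐ[ℚ] L) (k : ℕ), M2 (χ g) → Odd k → ∀ j i, j ≠ i →
      tt (g ^ k) j i = k * tt g j i)
    (hfrob : ∀ (Q : ℕ) (hQ : Q.Coprime f), Q.Prime → N₀ < Q → ∀ (P : Ideal (𝓞 L))
      (g : L ≃ₐ[ℚ] L), P.IsPrime → (Q : 𝓞 L) ∈ P →
      MulAction.stabilizer (L ≃ₐ[ℚ] L) P = Subgroup.zpowers g →
      ∃ k : ℕ, k.Coprime (orderOf g) ∧ χ (g ^ k) = ZMod.unitOfCoprime Q hQ ∧
        (Q % 3 = 2 → ∀ j i, j ≠ i → ∀ r : ℤ, (Q : ℤ) ∣ r ^ 3 - b j →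
          tt (g ^ k) j i = TAUV Q (p j i) (q j i) (p' j i) (q' j i) r))
    (B : (L ≃ₐ[ℚ] L) → Prop) (hB : Inv χ κ c tt B) (S : Set ℕ)
    (hS1 : ∀ n : ℕ, n.Prime → ∀ hQ : n.Coprime f, n ∈ S → n % 3 = 2 ∧
      ((κ (ZMod.unitOfCoprime n hQ)).toAdd = c ∨ (κ (ZMod.unitOfCoprime n hQ)).toAdd = -c))
    (hS2 : ∀ n : ℕ, n.Prime → ∀ hQ : n.Coprime f, n ∈ S → ∀ g : L ≃ₐ[ℚ] L,
      χ g = ZMod.unitOfCoprime n hQ → (∀ j i, j ≠ i → ∀ r : ℤ, (n : ℤ) ∣ r ^ 3 - b j →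
        tt g j i = TAUV n (p j i) (q j i) (p' j i) (q' j i) r) → B g) :
    ∃ K : ℝ, ∀ σ : ℝ, 1 < σ → σ ≤ 2 → sm S σ ≤
      (Nat.card {g : L ≃ₐ[ℚ] L // B g} : ℝ) / Nat.card (L ≃ₐ[ℚ] L) *
        Real.log (1 / (σ - 1)) + K := by
  classical
  have : NeZero f := ⟨hf.ne'⟩
  have hst : ∀ g h τ : L ≃ₐ[ℚ] L, g ∈ {g | InU χ κ c g ∧ ¬ B g} →
      Subgroup.zpowers h = Subgroup.zpowers (τ * g * τ⁻¹) →
      h ∈ {g | InU χ κ c g ∧ ¬ B g} := fun g h τ hg hz =>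
    stable χ κ c tt hf h3 hB hconj hpow hg hz
  obtain ⟨C1, hC1⟩ := RI.FROBD_thm L _ hst
  choose DC hDC using fun a : (ZMod f)ˣ => hDIR f a hf
  have hT := card_T χ κ c hf hχ B
  obtain ⟨ST, hST⟩ : ∃ ST : Set ℕ, ST = {Q : ℕ | ∃ g ∈ {g | InU χ κ c g ∧
      ¬ B g}, ∃ P : Ideal (𝓞 L), P.IsPrime ∧ (Q : 𝓞 L) ∈ P ∧
      MulAction.stabilizer (L ≃ₐ[ℚ] L) P = Subgroup.zpowers g} := ⟨_, rfl⟩
  obtain ⟨V, hV⟩ : ∃ V : Finset (ZMod f)ˣ, V = Finset.univ.filter fun a =>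
      M2 a ∧ ((κ a).toAdd = c ∨ (κ a).toAdd = -c) := ⟨_, rfl⟩
  have hVc : V.card =
      Nat.card {a : (ZMod f)ˣ // M2 a ∧ ((κ a).toAdd = c ∨ (κ a).toAdd = -c)} := by
    rw [Nat.card_eq_fintype_card, Fintype.card_subtype, hV]
  have hM : ∀ (Q : ℕ) (hQ : Q.Coprime f), M2 (ZMod.unitOfCoprime Q hQ) ↔ Q % 3 = 2 := by
    intro Q hQ
    unfold M2
    rw [ZMod.coe_unitOfCoprime, ZMod.val_natCast, Nat.mod_mod_of_dvd _ h3]
  have hcop : ∀ n : ℕ, n.Prime → n ∉ Finset.range (max N₀ f + 1) → n.Coprime f ∧ N₀ < n := by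
    intro n hn hA
    rw [Finset.mem_range, not_lt] at hA
    refine ⟨(Nat.Prime.coprime_iff_not_dvd hn).2 fun h => ?_, ?_⟩
    · have h1 := Nat.le_of_dvd hf h
      have h2 := le_max_right N₀ f
      omega
    · have h2 := le_max_left N₀ f
      omega
  have hSTe : ∀ n : ℕ, n.Prime → n ∉ Finset.range (max N₀ f + 1) → n ∈ ST →
      ∃ (hQ : n.Coprime f) (g : L ≃ₐ[ℚ] L), (InU χ κ c g ∧ ¬ B g) ∧
        χ g = ZMod.unitOfCoprime n hQ ∧ (n % 3 = 2 → ∀ j i, j ≠ i → ∀ r : ℤ,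
          (n : ℤ) ∣ r ^ 3 - b j → tt g j i = TAUV n (p j i) (q j i) (p' j i) (q' j i) r) := by
    intro n hn hA hnST
    rw [hST] at hnST
    obtain ⟨g, hg, P, hP, hnP, hstab⟩ := hnST
    obtain ⟨hQ, hN⟩ := hcop n hn hA
    obtain ⟨k, hk, hχk, htk⟩ := hfrob n hQ hn hN P g hP hnP hstab
    refine ⟨hQ, g ^ k, ?_, hχk, htk⟩
    refine hst g (g ^ k) 1 hg ?_
    rw [one_mul, inv_one, mul_one]
    exact zpowers_pow_eq hk
  refine ⟨2 * (Finset.range (max N₀ f + 1)).card + ∑ a ∈ V, DC a + C1, fun σ h1 h2 => ?_⟩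
  have key := sm_add_le S ST {Q : ℕ | ∃ a ∈ V, (Q : ZMod f) = a}
    (Finset.range (max N₀ f + 1)) ?_ ?_ h1
  · have cov := sm_cover {Q : ℕ | ∃ a ∈ V, (Q : ZMod f) = a} V (fun n _ hn => hn) h1
    have hfr := hC1 σ h1 h2
    have hfr' : ((Nat.card {g : L ≃ₐ[ℚ] L // InU χ κ c g ∧ ¬ B g} : ℝ) /
        Nat.card (L ≃ₐ[ℚ] L)) * Real.log (1 / (σ - 1)) - C1 ≤ sm ST σ := by
      rw [hST]
      exact hfr
    have hsum : ∑ a ∈ V, ∑' q : {q : ℕ // q.Prime ∧ (q : ZMod f) = a}, (q : ℝ) ^ (-σ) ≤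
        ∑ a ∈ V, ((1 / (f.totient : ℝ)) * Real.log (1 / (σ - 1)) + DC a) :=
      Finset.sum_le_sum fun a _ => hDC a σ h1 h2
    rw [Finset.sum_add_distrib, Finset.sum_const, nsmul_eq_mul, hVc] at hsum
    have hlog : 0 ≤ Real.log (1 / (σ - 1)) := by
      apply Real.log_nonneg
      rw [le_div_iff₀ (by linarith)]
      linarith
    have hmul := mul_le_mul_of_nonneg_right hT hlog
    rw [sub_mul, mul_assoc] at hmul
    linarith
  · intro n hn hA hnB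
    obtain ⟨hQ, _⟩ := hcop n hn hA
    obtain ⟨hn3, hnc⟩ := hS1 n hn hQ hnB
    constructor
    · refine ⟨ZMod.unitOfCoprime n hQ, ?_, ZMod.coe_unitOfCoprime n hQ⟩
      rw [hV]
      exact Finset.mem_filter.2 ⟨Finset.mem_univ _, (hM n hQ).2 hn3, hnc⟩
    · intro hnST
      obtain ⟨hQ', g, ⟨hgU, hgB⟩, hχg, htg⟩ := hSTe n hn hA hnST
      exact hgB (hS2 n hn hQ' hnB g hχg (htg hn3))
  · intro n hn hA hnST
    obtain ⟨hQ', g, ⟨hgU, hgB⟩, hχg, htg⟩ := hSTe n hn hA hnST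
    refine ⟨ZMod.unitOfCoprime n hQ', ?_, ZMod.coe_unitOfCoprime n hQ'⟩
    rw [hV]
    have h5 := hgU
    unfold InU at h5
    rw [hχg] at h5
    exact Finset.mem_filter.2 ⟨Finset.mem_univ _, h5⟩

end BD

open BDENS _root_.Pool.Agent.PTL.BD in
/-- BDE: the exact bound for the density, both exponents together. -/
theorem BDE_thm (hGALD : GALD) (hEQD : EQD) (hDIR : DIR) : BDE := by
  classical
  intro s b p q p' q' f m t κ c C Φ hSys hf h9 hκ
  obtain ⟨L, iF, iN, iG, χ, tt, N₀, hχ, hconj, hpow, heq, hfrob⟩ :=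
    hGALD s b p q p' q' f hSys hf h9
  have h3 : 3 ∣ f := Dvd.dvd.trans (by norm_num) h9
  have hM : ∀ (Q : ℕ) (hQ : Q.Coprime f), M2 (ZMod.unitOfCoprime Q hQ) ↔ Q % 3 = 2 := by
    intro Q hQ
    unfold M2
    rw [ZMod.coe_unitOfCoprime, ZMod.val_natCast, Nat.mod_mod_of_dvd _ h3]
  have hP : ∀ n : ℕ, n.Prime → ∀ hQ : n.Coprime f, n ∈ SP b p q p' q' t κ c C Φ →
      ∀ g : L ≃ₐ[ℚ] L, χ g = ZMod.unitOfCoprime n hQ →
      (∀ j i, j ≠ i → ∀ r : ℤ, (n : ℤ) ∣ r ^ 3 - b j →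
        tt g j i = TAUV n (p j i) (q j i) (p' j i) (q' j i) r) → XP χ κ c C Φ t tt g := by
    intro n hn hQ hnS g hg htg
    obtain ⟨hQ', h1, h2, h4⟩ := hnS
    refine ⟨?_, ?_, ?_⟩
    · rw [hg]
      exact (hM n hQ).2 h1
    · rw [hg]
      exact h2
    · rw [hg]
      exact h4 (tt g) htg
  have hN : ∀ n : ℕ, n.Prime → ∀ hQ : n.Coprime f, n ∈ SM b p q p' q' t κ c C Φ →
      ∀ g : L ≃ₐ[ℚ] L, χ g = ZMod.unitOfCoprime n hQ →
      (∀ j i, j ≠ i → ∀ r : ℤ, (n : ℤ) ∣ r ^ 3 - b j →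
        tt g j i = TAUV n (p j i) (q j i) (p' j i) (q' j i) r) → XM χ κ c C Φ t tt g := by
    intro n hn hQ hnS g hg htg
    obtain ⟨hQ', h1, h2, h4⟩ := hnS
    refine ⟨?_, ?_, ?_⟩
    · rw [hg]
      exact (hM n hQ).2 h1
    · rw [hg]
      exact h2
    · rw [hg]
      exact h4 (tt g) htg
  obtain ⟨K1, hK1⟩ := dens hDIR hf h3 κ c L χ tt N₀ hχ hconj hpow hfrob
    (fun g => XP χ κ c C Φ t tt g ∨ XM χ κ c C Φ t tt g)
    (inv_or χ κ c C Φ t tt hf h3) (SP b p q p' q' t κ c C Φ ∪ SM b p q p' q' t κ c C Φ)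
    (by
      rintro n hn hQ (⟨hQ', h1, h2, -⟩ | ⟨hQ', h1, h2, -⟩)
      · exact ⟨h1, Or.inl h2⟩
      · exact ⟨h1, Or.inr h2⟩)
    (by
      rintro n hn hQ (h | h) g hg htg
      · exact Or.inl (hP n hn hQ h g hg htg)
      · exact Or.inr (hN n hn hQ h g hg htg))
  obtain ⟨K2, hK2⟩ := dens hDIR hf h3 κ c L χ tt N₀ hχ hconj hpow hfrob
    (fun g => XP χ κ c C Φ t tt g ∧ XM χ κ c C Φ t tt g)
    (inv_and χ κ c C Φ t tt hf h3) (SP b p q p' q' t κ c C Φ ∩ SM b p q p' q' t κ c C Φ)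
    (by
      rintro n hn hQ ⟨⟨hQ', h1, h2, -⟩, -⟩
      exact ⟨h1, Or.inl h2⟩)
    (by
      rintro n hn hQ ⟨h, h'⟩ g hg htg
      exact ⟨hP n hn hQ h g hg htg, hN n hn hQ h' g hg htg⟩)
  obtain ⟨hX1, hX2⟩ := card_X χ κ c C Φ t tt hEQD hf hχ heq hκ
  have hincl := card_incl (fun g => XP χ κ c C Φ t tt g) (fun g => XM χ κ c C Φ t tt g)
  refine ⟨K1 + K2, fun σ h1 h2 => ?_⟩
  have e1 := hK1 σ h1 h2
  have e2 := hK2 σ h1 h2
  have hlog : 0 ≤ Real.log (1 / (σ - 1)) := by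
    apply Real.log_nonneg
    rw [le_div_iff₀ (by linarith)]
    linarith
  rw [sm_union_inter _ _ h1]
  have hG : 0 < Nat.card (L ≃ₐ[ℚ] L) := Nat.card_pos
  have hA : 0 < Nat.card (Fin s → Fin s → ZMod 3) := Nat.card_pos
  have hcnt : (Nat.card {g : L ≃ₐ[ℚ] L // XP χ κ c C Φ t tt g ∨ XM χ κ c C Φ t tt g} : ℝ) /
      Nat.card (L ≃ₐ[ℚ] L) +
      (Nat.card {g : L ≃ₐ[ℚ] L // XP χ κ c C Φ t tt g ∧ XM χ κ c C Φ t tt g} : ℝ) /
      Nat.card (L ≃ₐ[ℚ] L) ≤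
      (NK s t : ℝ) / Nat.card (Fin s → Fin s → ZMod 3) / 3 ^ (m + 1) := by
    generalize Nat.card {g : L ≃ₐ[ℚ] L // XP χ κ c C Φ t tt g ∨ XM χ κ c C Φ t tt g} = n1 at *
    generalize Nat.card {g : L ≃ₐ[ℚ] L // XP χ κ c C Φ t tt g ∧ XM χ κ c C Φ t tt g} = n2 at *
    generalize Nat.card {g : L ≃ₐ[ℚ] L // XP χ κ c C Φ t tt g} = x1 at *
    generalize Nat.card {g : L ≃ₐ[ℚ] L // XM χ κ c C Φ t tt g} = x2 at *
    generalize Nat.card (Fin s → Fin s → ZMod 3) = A at *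
    generalize Nat.card (L ≃ₐ[ℚ] L) = g0 at *
    have hG' : (0 : ℝ) < g0 := Nat.cast_pos.2 hG
    have hA' : (0 : ℝ) < A := Nat.cast_pos.2 hA
    have hF : (0 : ℝ) < 3 ^ (m + 1) := by positivity
    have i1 : (A : ℝ) * x1 * (2 * 3 ^ (m + 1)) ≤ NK s t * g0 := by exact_mod_cast hX1
    have i2 : (A : ℝ) * x2 * (2 * 3 ^ (m + 1)) ≤ NK s t * g0 := by exact_mod_cast hX2
    have i3 : (n1 : ℝ) + n2 = x1 + x2 := by exact_mod_cast hincl
    rw [← add_div, i3, div_div, div_le_div_iff₀ hG' (by positivity)]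
    nlinarith
  have hmul := mul_le_mul_of_nonneg_right hcnt hlog
  rw [add_mul] at hmul
  linarith

end Pool.Agent.PTL


end

section

/-!
# The law of the ranks of prime twists for every `n`: the group of `K`-points, `K = Q(w)`

`H = E_A(K)`, `E_A : y² = x³ - 432 A²`, `s = 12 A (w - w²)`, `s² = -432 A²`, `T = (0, s)`.
`om (x, y) = (w x, y)`, `θ = om - om²` (so `θ² = -3`), `cc` is complex conjugation.
`kap (x, y) = y - s` modulo cubes is a homomorphism with kernel `θ H`.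

The group `GA A` of rational points and the coordinates `Crd A P a b c` are those of
`Pool/Agent/CubeRank/Defs.lean`; `CubeRank.basics : BasicsStmt`, `CubeRank.coll`, `CubeRank.gen' :
GenStmt` are proved. `CubeRank/Coll.lean: line_of_sum` treats three collinear points over `ℚ`.
-/

set_option autoImplicit false

namespace Pool.Agent.PTN

open Pool.Agent.Lib_helper18 Pool.Agent.Lib_helper18.Eis Pool.Agent.Lib_helper84.Cub
open Pool.Agent.PT WeierstrassCurve.Affine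

/-! ### The field `K = Q(w)` -/

/-- The data of the field `K = Q(w)`: `ι` is the embedding of `Z[w]` and `c` the complex
conjugation. -/
structure KF (K : Type) [Field K] [CharZero K] (ι : Eis →+* K) (c : K →ₐ[ℚ] K) : Prop where
  inj : Function.Injective ι
  conj : ∀ e : Eis, c (ι e) = ι (conj e)
  frac : ∀ z : K, ∃ (e : Eis) (d : ℤ), d ≠ 0 ∧ z * d = ι e

/-- PTN_KEX: existence of the field `K`.
Proof. `K = FractionRing Eis` (`Eis` is an integral domain of characteristic `0`; instance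
`CharZero (FractionRing Eis)` by injectivity of `algebraMap`), `ι = algebraMap`, `c` the ring
homomorphism induced by `conj` (`IsFractionRing.lift` or `IsFractionRing.ringEquivOfRingEquiv`; a ring
homomorphism between fields of characteristic `0` is a `ℚ`-algebra homomorphism,
`RingHom.toRatAlgHom`), `frac`: an element is `ι a / ι b`, `b ≠ 0`, and
`ι a / ι b * (b * conj b) = ι (a * conj b)` with `b * conj b = (norm b : ℤ) ≠ 0` (`mul_conj`). -/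
def Stmt_KEX : Prop := ∃ (K : Type) (_ : Field K) (_ : CharZero K) (_ : DecidableEq K) (ι : Eis →+* K)
  (c : K →ₐ[ℚ] K), KF K ι c

/-- The group of `K`-points of `y² = x³ - 432 A²`. -/
abbrev HH (A : ℤ) (K : Type) [Field K] [CharZero K] : Type :=
  (WeierstrassCurve.Affine.baseChange (CubeRank.EA A).toAffine K).Point

/-- the square root `12 A (w - w²)` of `-432 A²` -/
def sD {K : Type} [Field K] (ι : Eis →+* K) (A : ℤ) : K := 12 * A * (ι w - ι w ^ 2)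

/-- PTN_KEQ: the points.
Proof. The base change has `a₆ = algebraMap ℚ K (-432 A²) = -432 A²` and the other coefficients `0`
(`WeierstrassCurve.map`, `simp`); `nonsingular_iff`, `equation_iff`: the equation is
`y² = x³ - 432 A²`; nonsingular: `x ≠ 0 ∨ y ≠ 0`, more precisely `3 x² ≠ 0 ∨ 2 y ≠ 0`, and `x = y = 0`
would give `432 A² = 0`. Second part: `(ι w - ι w²)² = -3` (`w² + w + 1 = 0`, lemma `w_rel`) and it
is not `0`. Third: `c (ι w) = ι (conj w) = ι w²`. -/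
def Stmt_KEQ : Prop := ∀ (K : Type) [Field K] [CharZero K] [DecidableEq K] (ι : Eis →+* K) (c : K →ₐ[ℚ] K) (A : ℤ),
  KF K ι c → A ≠ 0 →
  (∀ x y : K, (WeierstrassCurve.Affine.baseChange (CubeRank.EA A).toAffine K).Nonsingular x y ↔
    y ^ 2 = x ^ 3 - 432 * (A : K) ^ 2) ∧
  sD ι A ^ 2 = -432 * (A : K) ^ 2 ∧ sD ι A ≠ 0 ∧ c (sD ι A) = - sD ι A ∧
  (ι w) ^ 2 + ι w + 1 = 0 ∧ ι w ≠ 1

/-- PTN_KEMB: the rational points.
Proof. Complex conjugation is `WeierstrassCurve.Affine.Point.map c` (Mathlib) and the embedding is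
the map of `GA A` with `P = (x, y) ↦ ((x : K), (y : K))`; to get it as a homomorphism use
`Point.map (Algebra.ofId ℚ K)` and the identification of `GA A` with the points over `ℚ` of the base
change to `ℚ` (the same curve: `WeierstrassCurve.map_id`), or prove additivity directly from the
addition formulas as in the proof of `Point.map`. `cc Q = Q` means that `x` and `y` are fixed by
`c`; `x d = ι e`, `c x = x` gives `conj e = e`, so `e` is a rational integer (`conj e = e` implies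
`e.im = 0`) and `x = e / d` is rational. -/
def Stmt_KEMB : Prop := ∀ (K : Type) [Field K] [CharZero K] [DecidableEq K] (ι : Eis →+* K) (c : K →ₐ[ℚ] K) (A : ℤ),
  KF K ι c → A ≠ 0 →
  ∃ (cc : HH A K →+ HH A K) (j : CubeRank.GA A →+ HH A K),
    (∀ x y h, ∃ h', cc (.some x y h) = .some (c x) (c y) h') ∧
    (∀ x y h, ∃ h', j (.some x y h) = .some (x : K) (y : K) h') ∧
    Function.Injective j ∧ (∀ Q, cc (cc Q) = Q) ∧ ∀ Q, cc Q = Q ↔ ∃ P, j P = Q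

/-- PTN_KOM: multiplication by `w`.
Proof. `om 0 = 0`, `om (x, y) = (w x, y)` (`w³ = 1`, `KEQ`). Additive: if `x₁ = x₂` and
`y₁ = -y₂` both sides are `0`; otherwise the slope of the images is `w²` times the slope `ℓ` (in both
cases of `WeierstrassCurve.Affine.slope`: `(y₁ - y₂) / (x₁ - x₂)`, and `3 x² / (2 y)` for a tangent),
so `addX = ℓ² - x₁ - x₂` becomes `w⁴ ℓ² - w x₁ - w x₂ = w addX` and
`negAddY = ℓ (addX - x₁) + y₁` is unchanged. See the proof of `Point.map` in Mathlib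
(`add_of_Y_eq`, `add_some`). Sum: `Q + om Q = - om (om Q)` for `Q = (x, y)`: for `x ≠ 0` the two points
have different first coordinates, the slope is `0`, `addX = - x - w x = w² x`, `negAddY = y`; for
`x = 0` (then `y ≠ 0`) `om Q = Q` and the tangent has slope `0`, so `Q + Q = (0, -y) = -Q`. Last part:
both sides are `(c w · c x, c y)`, `c w = w²`. -/
def Stmt_KOM : Prop := ∀ (K : Type) [Field K] [CharZero K] [DecidableEq K] (ι : Eis →+* K) (c : K →ₐ[ℚ] K) (A : ℤ),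
  KF K ι c → A ≠ 0 →
  ∃ om : HH A K →+ HH A K, (∀ x y h, ∃ h', om (.some x y h) = .some (ι w * x) y h') ∧
    (∀ Q, Q + om Q + om (om Q) = 0) ∧
    ∀ cc : HH A K →+ HH A K, (∀ x y h, ∃ h', cc (.some x y h) = .some (c x) (c y) h') →
      ∀ Q, cc (om Q) = om (om (cc Q))

open Classical in
/-- the Kummer map -/
noncomputable def kap {A : ℤ} {K : Type} [Field K] [CharZero K] (ι : Eis →+* K) : HH A K → K
  | .zero => 1
  | .some _ y _ => if y = sD ι A then (y + sD ι A) ^ 2 else y - sD ι A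

/-- PTN_KAD: the Kummer map is a homomorphism modulo cubes.
Proof. Write `s = sD ι A`. (0) `kap Q ≠ 0` (`y = s` gives `2 s ≠ 0`). (1) `kap (-Q) kap Q` is a cube:
`-Q = (x, -y)`; if `y ≠ ± s` it is `(y - s)(-y - s) = -(y² - s²) = (-x)³`; if `y = s` it is
`(2 s)² (-2 s) = (-2 s)³`, the same for `y = -s`. (2) If `P₁ + P₂ + P₃ = 0` with three affine points
then `kap P₁ kap P₂ kap P₃` is a cube: by `line_of_sum` (CubeRank/Coll.lean, same proof over `K`)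
`y_k = ℓ x_k + μ`, `x₁ + x₂ + x₃ = ℓ²`, `e₂ = -2 ℓ μ`, `x₁ x₂ x₃ = μ² - s²`. Then
`∏ (y_k - s) = ℓ³ e₃ + ℓ² e₂ (μ - s) + ℓ e₁ (μ - s)² + (μ - s)³ = (μ - s)³`. If no `y_k = s` this is
the claim. If `y₁ = s` then `x₁ = 0` (`x₁³ = y₁² - s² = 0`), `μ = s`, `x₂ x₃ = -2 ℓ s`. If
`x₂ ≠ 0 ≠ x₃` then `y₂ - s = ℓ x₂`, `y₃ - s = ℓ x₃`; both are nonzero because `y₂ = s` would imply
`x₂ = 0`, and `kap P₂ kap P₃ = ℓ² x₂ x₃ = -2 s ℓ³`, `kap P₁ = (2 s)²`, product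
`(-2 s ℓ)³`. If `x₂ = 0` then `ℓ = 0` (`x₂ x₃ = -2 ℓ s`), `x₃ = ℓ² = 0` and all three points are `(0, s)`:
product `(4 s²)³`. (3) General `P, Q`: if `P = 0` or `Q = 0` take `g = 1`; if `P + Q = 0` use (1);
otherwise use (2) for `P, Q, -(P + Q)` and (1) for `P + Q`. -/
def Stmt_KAD : Prop := ∀ (K : Type) [Field K] [CharZero K] [DecidableEq K] (ι : Eis →+* K) (c : K →ₐ[ℚ] K) (A : ℤ),
  KF K ι c → A ≠ 0 → (∀ Q : HH A K, kap ι Q ≠ 0) ∧
  ∀ P Q : HH A K, ∃ g : K, g ≠ 0 ∧ kap ι (P + Q) = kap ι P * kap ι Q * g ^ 3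

/-- PTN_KKE: the kernel of the Kummer map.
Proof. `Q = 0`: `R = 0`. `Q = (x, y)`. If `y = s`: `4 s² = g³`; `4 s² = -1728 A² = (-12)³ A²`, so `A²`,
hence `A = (A²)² / A³`, is a cube in `K`. If `y = -s`: `-2 s = g³`,
`-2 s = -24 A (w - w²)` and `(w - w²)³ = -3 (w - w²)`, so `-2 s = 8 A (w - w²)³` and `A` is a cube in
`K`. A rational integer that is a cube `z³` in `K` is a cube: `z d = ι e`, `e³ = A d³` in `Eis`;
taking norms `N(e)³ = (A d³)²`, so `A²` is a cube of a rational number, hence `A` is; a rational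
number whose cube is an integer is an integer. Contradiction with the hypothesis. So
`y ≠ ± s`, `x ≠ 0`, `y - s = g³`, put `h = x / g`: `h³ = y + s`, `g h = x`, `h³ - g³ = 2 s`, `h ≠ g`.
Put `X = -2 s / (h - g)`, `Y = ε (w - w²) s (h + g) / (h - g)` with a sign `ε = ± 1`. Then
`Y² = X³ - 432 A² = X³ + s²` (use `s = (h³ - g³) / 2`, `field_simp; ring` and `(w - w²)² = -3`) and
`om R - om (om R) = Q` for `R = (X, Y)` and the right sign: the points `om R = (w X, Y)` and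
`-(om (om R)) = (w² X, -Y)` have different first coordinates, slope
`m = (Y + Y) / (w X - w² X)`, `addX = m² - w X - w² X = m² + X = h g = x`, and
`negAddY = m (x - w X) + Y`, the second coordinate of the sum is its negative, `= ± y` according to
the sign `ε`. (`Point.add_some`, `slope_of_X_ne`.) -/
def Stmt_KKE : Prop := ∀ (K : Type) [Field K] [CharZero K] [DecidableEq K] (ι : Eis →+* K) (c : K →ₐ[ℚ] K) (A : ℤ),
  KF K ι c → A ≠ 0 → (¬ ∃ n : ℤ, n ^ 3 = A) → ∀ om : HH A K →+ HH A K,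
  (∀ x y h, ∃ h', om (.some x y h) = .some (ι w * x) y h') → (∀ Q, Q + om Q + om (om Q) = 0) →
  ∀ Q : HH A K, (∃ g : K, kap ι Q = g ^ 3) → ∃ R, Q = om R - om (om R)

/-- PTN_KIX: the index of `3 G` (pure group theory).
Proof. Put `θ R = om R - om (om R)`. (a) `om³ = 1` (apply `1 + om + om² = 0` to `om Q` and subtract),
`θ (θ R) = om² R - 2 R + om R·... = -3 R`: `θ θ = om² - 2 om³ + om⁴ = om² + om - 2 = -3`.
(b) `cc (θ R) = om² (cc R) - om (cc R) = - θ (cc R)` (`cc om² = om cc` follows from `cc om = om² cc`).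
(c) `3 T = 0` (`T + T + T = 0`). (d) If `cc (θ R) = - θ R` there is `R'` in the range of `j` with
`θ R' = θ R`: `θ (cc R - R) = 0`, so `cc R = R + i T`; `R' = R - i T`: `cc R' = R + i T + i T`
`= R' + 3 i T = R'`, and `θ R' = θ R` as `θ T = 0`. (e) If `cc (θ R) = θ R` then `cc R = -R`:
`θ (cc R + R) = 0`, `cc R = -R + i T`, apply `cc`: `R = -cc R - i T = R - 2 i T`, so `2 i T = 0`,
`i T = 0`. (f) Choose for every value `α` of `Ψ₁` a `P_α ∈ G` with `Ψ₁ P_α = α`, and for every value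
`β` of `Ψ₂` on `{Q | cc Q = -Q}` such a `Q_β`; `cc (θ Q_β) = θ Q_β`, so `θ Q_β = j (S_β)`. For `P ∈ G`,
`α = Ψ₁ P`: `j (P - P_α) ∈ N`, `= θ Q`, and it is fixed by `cc`, so `cc Q = -Q` by (e). With
`β = Ψ₂ Q`: `Q - Q_β - i T ∈ N`, `= θ R`, `cc (θ R) = - θ R`, so by (d) we may take `R = j U`. Then
`j (P - P_α) = θ Q = θ Q_β + θ θ (j U) = j (S_β - 3 U)`. So every `P` is congruent modulo `3 G` to one
of the at most `|W₁| |W₂|` elements `P_α + S_β`: the map `W₁ × W₂ → G ⧸ 3 G` is surjective. -/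
def Stmt_KIX : Prop := ∀ (G H : Type) [AddCommGroup G] [AddCommGroup H] (j : G →+ H)
  (om cc : H →+ H) (T : H) (N : AddSubgroup H) (W₁ W₂ : Type) [Finite W₁] [Finite W₂]
  (Ψ₁ : G → W₁) (Ψ₂ : H → W₂),
  Function.Injective j → (∀ Q, Q + om Q + om (om Q) = 0) →
  (∀ Q, cc (om Q) = om (om (cc Q))) → (∀ Q, cc (cc Q) = Q) → (∀ Q, cc Q = Q ↔ ∃ P, j P = Q) →
  om T = T → cc T = -T → (∀ R, om R = om (om R) → ∃ i : ℕ, R = i • T) →
  (∀ Q ∈ N, ∃ R, Q = om R - om (om R)) →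
  (∀ P P', Ψ₁ P = Ψ₁ P' → j (P - P') ∈ N) →
  (∀ Q Q', cc Q = -Q → cc Q' = -Q' → Ψ₂ Q = Ψ₂ Q' → ∃ i : ℕ, Q - Q' - i • T ∈ N) →
  ((nsmulAddMonoidHom (α := G) 3).range).FiniteIndex ∧
    ((nsmulAddMonoidHom (α := G) 3).range).index ≤ Nat.card W₁ * Nat.card W₂

/-- PTN_KMI: the class of a rational point.
Proof. `x = 12 A c / (a + b)`, `y = 36 A (a - b) / (a + b)` (`a + b ≠ 0`: `a³ + b³ = A c³ ≠ 0`),
`y ≠ s` since `y` is rational, `s ≠ 0` and `c(s) = -s`. With `δ = w - w²`, `δ² = -3`: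
`y - s = (12 A / (a + b)) (3 (a - b) - δ (a + b)) = (12 A / (a + b)) (-δ) ((a + b) + δ (a - b))` and
`(a + b) + δ (a - b) = -2 w² (a + w² b)` (check: `1 + δ = -2 w²`, `1 - δ = -2 w = -2 w² w²`).
So `y - s = 24 A δ w² (a + w² b) / (a + b)`; `24 δ = (-2 δ)³` as `δ³ = -3 δ`; and
`A = (a + b)(a + w b)(a + w² b) / c³`. -/
def Stmt_KMI : Prop := ∀ (K : Type) [Field K] [CharZero K] [DecidableEq K] (ι : Eis →+* K) (c : K →ₐ[ℚ] K) (A : ℤ),
  KF K ι c → A ≠ 0 → ∀ j : CubeRank.GA A →+ HH A K,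
  (∀ x y h, ∃ h', j (.some x y h) = .some (x : K) (y : K) h') →
  ∀ (P : CubeRank.GA A) (a b z : ℤ), CubeRank.Crd A P a b z →
    ∃ g : K, g ≠ 0 ∧
      kap ι (j P) = ι (w ^ 2 * (((a : Eis) + w * b) * ((a : Eis) + w ^ 2 * b) ^ 2)) * g ^ 3

/-- PTN_KPL: the class of a point with `cc Q = -Q`.
Proof. `Q = 0`: first case, `i = 0`, `g = 1`. `Q = (x, y)`, `c x = x`, `c y = -y`: `x` is rational
(see `KEMB`), `y = δ η` with `η` rational, `δ = w - w²` (`c (y / δ) = y / δ`). `x = 0`: `y = ± s`,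
`kap Q = 4 s² = (-12)³ A²`, resp. `kap Q = -2 s = (2 δ)³ A`: first case with `i = 2` or `1`.
`x ≠ 0`: `-3 η² = x³ - 432 A²`. With `u = 12 A - η`, `v = 12 A + η`: `x³ = 3 u v`,
`u + v - 24 A = 0`, `u v (-24 A) = A (-2 x)³`, and `kap Q = y - s = δ (η - 12 A) = -δ u`. Multiply
`(u, v, -24 A)` by a common denominator and divide by the greatest common divisor: integers
`(a₀, a₁, a₂) = t (u, v, -24 A)`, `t` rational, without a common prime divisor, `a₀ + a₁ + a₂ = 0`, so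
pairwise coprime, `a₀ a₁ a₂ = A m³` with `m = -2 x t` rational, and `m` is an integer because `A` is
cube-free (`A m³` is an integer: if a prime `l` divides the denominator of `m` then `l³ ∣ A`). Class:
`-δ u` is `u / 3` up to the cube `δ³ = -3 δ`; `v = x³ / (3 u)`, so
`a₀² a₁ = t³ u² v = t³ u x³ / 3`, which is `u / 3` times a cube. -/
def Stmt_KPL : Prop := ∀ (K : Type) [Field K] [CharZero K] [DecidableEq K] (ι : Eis →+* K) (c : K →ₐ[ℚ] K) (A : ℤ),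
  KF K ι c → A ≠ 0 → CubeRank.CubeFree A → ∀ cc : HH A K →+ HH A K,
  (∀ x y h, ∃ h', cc (.some x y h) = .some (c x) (c y) h') → ∀ Q : HH A K, cc Q = -Q →
    (∃ (i : ℕ) (g : K), g ≠ 0 ∧ kap ι Q = (A : K) ^ i * g ^ 3) ∨
    ∃ (a : Fin 3 → ℤ) (m : ℤ) (g : K), (∀ k, a k ≠ 0) ∧ a 0 + a 1 + a 2 = 0 ∧
      a 0 * a 1 * a 2 = A * m ^ 3 ∧ (∀ i j, i ≠ j → IsCoprime (a i) (a j)) ∧ g ≠ 0 ∧
      kap ι Q = ((a 0 ^ 2 * a 1 : ℤ) : K) * g ^ 3

/-! ### The result -/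

/-- the classes of the rational points in the minus part -/
def S1 (A : ℤ) (ζ : Eis) : Prop := ζ = 1 ∨ ∃ x y z : ℤ, IsCoprime x y ∧ z ≠ 0 ∧
  x ^ 3 + y ^ 3 = A * z ^ 3 ∧ ζ = w ^ 2 * (((x : Eis) + w * y) * ((x : Eis) + w ^ 2 * y) ^ 2)

/-- the classes of the points of the isogenous curve in the plus part -/
def S2 (A : ℤ) (z : ℤ) : Prop := z = 1 ∨ ∃ (a : Fin 3 → ℤ) (m : ℤ), (∀ k, a k ≠ 0) ∧
  a 0 + a 1 + a 2 = 0 ∧ a 0 * a 1 * a 2 = A * m ^ 3 ∧ (∀ i j, i ≠ j → IsCoprime (a i) (a j)) ∧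
  z = a 0 ^ 2 * a 1

/-- PTN_KID: the bound for the index of the subgroup of the multiples of `3` by the two descents.
Proof. Uses `KEX`, `KEQ`, `KEMB`, `KOM`, `KAD`, `KKE`, `KIX`, `KMI`, `KPL` and `CubeRank.basics`
(existence of `Crd` for `P ≠ 0`). `N = {Q | kap Q is a cube}` is a subgroup by `KAD` (for `-Q`: use `KAD` for
`Q` and `-Q`; `kap 0 = 1`). `T = (0, s)`, `om T = T`, `cc T = (0, -s) = -T`; `om R = om (om R)`:
`R = 0` or `w x = w² x`, so `x = 0`, `y = ± s`: `R = T` or `R = -T = 2 T`. For `P ∈ GA A` choose `ζ_P`: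
`1` if `P = 0`, otherwise from coordinates; `kap (j P) = ι ζ_P g³`, `S1 A ζ_P`. `Ψ₁' P = Ψ₁ ζ_P`: if
`Ψ₁' P = Ψ₁' P'` then `ζ_P g³ = ζ_P' g'³`, so `kap (j P) / kap (j P')` and hence
`kap (j (P - P'))` is a cube. For `Q` with `cc Q = -Q` choose `z_Q` with `S2 A z_Q` and
`kap Q = z_Q A^i g³` by `KPL` (in the first case `z_Q = 1`); `Ψ₂' Q = Ψ₂ z_Q` (arbitrary for other
`Q`); if they agree then `kap (Q - Q') = A^k g³` for some `k : ℕ` (use `A^(-1) = A² / A³`), and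
`kap T = 4 s² = (-12)³ A²`, so `kap (Q - Q' - i • T)` is a cube for a suitable `i`.
`threeMul A` is by definition the range in `KIX`. -/
def Stmt_KID : Prop := ∀ A : ℤ, A ≠ 0 → CubeRank.CubeFree A → (¬ ∃ n : ℤ, n ^ 3 = A) →
  ∀ (W₁ W₂ : Type) [Finite W₁] [Finite W₂] (Ψ₁ : Eis → W₁) (Ψ₂ : ℤ → W₂),
  (∀ ζ ζ', S1 A ζ → S1 A ζ' → Ψ₁ ζ = Ψ₁ ζ' →
    ∃ g g' : Eis, g ≠ 0 ∧ g' ≠ 0 ∧ ζ * g ^ 3 = ζ' * g' ^ 3) →
  (∀ z z', S2 A z → S2 A z' → Ψ₂ z = Ψ₂ z' →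
    ∃ (u v : ℤ) (j : ℕ), u ≠ 0 ∧ v ≠ 0 ∧ z * u ^ 3 = z' * A ^ j * v ^ 3) →
  (CubeRank.threeMul A).FiniteIndex ∧
    (CubeRank.threeMul A).index ≤ Nat.card W₁ * Nat.card W₂

end Pool.Agent.PTN


end

section

/-!
# The law of the ranks of prime twists for every `n`: the class spaces and the first descent

`B = BB h n E q = 3^h n q^E`, `h = 0, 1, 2`, `n` in normal form `NF n π p e r f` (prime to `3`,
cube-free, `p i = π i conj (π i)` the primes `1 (mod 3)`, `r j` the primes `2 (mod 3)`), `q` a prime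
prime to `3 n`, `q^E` in the class `(w0, c)`: `InCT E π w0 c q`.

Everything in `Pool/Agent/PT`, `Pool/Agent/PTE`, `Pool/Agent/PT3` is proved and may be imported
(see `PT/Final.lean`, `PTE/Final.lean`, `PT3/Final.lean` for the discharged statements; a module
may have such statements as hypotheses, for example `(hSPP : SPP)`).

Numbering of the unknowns (`Col m k = Fin (m + 1) ⊕ Fin k`): `inl 0` is the prime `3`,
`inl i.succ` the prime `p i`, `inr j` the prime `r j`. Numbering of the conditions: `0` is the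
condition at `3`, `i.succ` the condition at `π i`.
-/

set_option autoImplicit false

open NumberField IsDedekindDomain Finset
open scoped nonZeroDivisors Pointwise

namespace Pool.Agent.PTN

open Pool.Agent.Lib_helper18 Pool.Agent.Lib_helper18.Eis Pool.Agent.Lib_helper84.Cub
open Pool.Agent.PT Pool.Agent.PTE Pool.Agent.PT3

/-! ### The matrix of the conditions -/

/-- the primes `3`, `p i`, `r j` -/
abbrev Col (m k : ℕ) : Type := Fin (m + 1) ⊕ Fin k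

/-- the prime of a column -/
def prm {m k : ℕ} (p : Fin m → ℕ) (r : Fin k → ℕ) : Col m k → ℕ
  | .inl a => Fin.cases (motive := fun _ => ℕ) 3 (fun i => p i) a
  | .inr j => r j

/-- The matrix of all conditions. -/
noncomputable def Nm (h n : ℕ) {m k : ℕ} (π : Fin m → PP) (p e : Fin m → ℕ) (r : Fin k → ℕ)
    (w0 : ZMod 3) (c : Fin m → ZMod 3) : Matrix (Fin (m + 1)) (Col m k) (ZMod 3) :=
  fun a b => match b with
  | .inl b => Fin.cases
      (motive := fun _ => ZMod 3)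
      (Fin.cases (motive := fun _ => ZMod 3) (wt ((n : ℤ) ^ 2) + w0)
        (fun i' => wt ((p i' : ℤ) ^ 2)) b)
      (fun i => Fin.cases (motive := fun _ => ZMod 3)
        ((e i : ZMod 3) * sym (π i).1 3)
        (fun i' => if i' = i then
            (e i : ZMod 3) * sym (π i).1 (conj (π i).1) -
              ch (π i).1 ((3 ^ h * n : ℕ) : Eis) - c i
          else (e i : ZMod 3) * sym (π i).1 (p i' : Eis)) b) a
  | .inr j => Fin.cases
      (motive := fun _ => ZMod 3) (wt ((r j : ℤ) ^ 2))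
      (fun i => (e i : ZMod 3) * sym (π i).1 (r j : Eis)) a

/-- the condition at `3` is active -/
def actR (h n : ℕ) (w0 : ZMod 3) : Prop := h = 2 ∨ (h = 0 ∧ wt ((n : ℤ) ^ 2) + w0 = 0)

/-- The space of the exponent vectors of the admissible rational classes. -/
def US (h n : ℕ) {m k : ℕ} (π : Fin m → PP) (p e : Fin m → ℕ) (r : Fin k → ℕ)
    (w0 : ZMod 3) (c : Fin m → ZMod 3) : Submodule (ZMod 3) (Col m k → ZMod 3) where
  carrier := {u | (∀ i : Fin m, ((Nm h n π p e r w0 c).mulVec u) i.succ = 0) ∧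
    (actR h n w0 → ((Nm h n π p e r w0 c).mulVec u) 0 = 0) ∧ (h = 0 → u (Sum.inl 0) = 0)}
  add_mem' := by
    rintro u v ⟨h1, h2, h3⟩ ⟨g1, g2, g3⟩
    refine ⟨fun i => ?_, fun ha => ?_, fun h0 => ?_⟩
    · rw [Matrix.mulVec_add, Pi.add_apply, h1 i, g1 i, add_zero]
    · rw [Matrix.mulVec_add, Pi.add_apply, h2 ha, g2 ha, add_zero]
    · rw [Pi.add_apply, h3 h0, g3 h0, add_zero]
  zero_mem' := by
    refine ⟨fun i => ?_, fun ha => ?_, fun h0 => rfl⟩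
    · rw [Matrix.mulVec_zero, Pi.zero_apply]
    · rw [Matrix.mulVec_zero, Pi.zero_apply]
  smul_mem' := by
    rintro t u ⟨h1, h2, h3⟩
    refine ⟨fun i => ?_, fun ha => ?_, fun h0 => ?_⟩
    · rw [Matrix.mulVec_smul, Pi.smul_apply, h1 i, smul_zero]
    · rw [Matrix.mulVec_smul, Pi.smul_apply, h2 ha, smul_zero]
    · rw [Pi.smul_apply, h3 h0, smul_zero]

/-- The space that bounds the minus part of the Selmer group. -/
def VS (h n : ℕ) {m k : ℕ} (π : Fin m → PP) (p e : Fin m → ℕ) (r : Fin k → ℕ)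
    (w0 : ZMod 3) (c : Fin m → ZMod 3) : Submodule (ZMod 3) (Fin (m + 1) → ZMod 3) where
  carrier := {y | (¬ actR h n w0 → y 0 = 0) ∧ ∀ b : Col m k, (h = 0 → b ≠ Sum.inl 0) →
    Matrix.vecMul y (Nm h n π p e r w0 c) b = 0}
  add_mem' := by
    rintro u v ⟨h1, h2⟩ ⟨g1, g2⟩
    refine ⟨fun ha => ?_, fun b hb => ?_⟩
    · rw [Pi.add_apply, h1 ha, g1 ha, add_zero]
    · rw [Matrix.add_vecMul, Pi.add_apply, h2 b hb, g2 b hb, add_zero]
  zero_mem' := by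
    refine ⟨fun ha => rfl, fun b hb => ?_⟩
    rw [Matrix.zero_vecMul, Pi.zero_apply]
  smul_mem' := by
    rintro t u ⟨h1, h2⟩
    refine ⟨fun ha => ?_, fun b hb => ?_⟩
    · rw [Pi.smul_apply, h1 ha, smul_zero]
    · rw [Matrix.smul_vecMul, Pi.smul_apply, h2 b hb, smul_zero]

/-- the dimension `s` -/
noncomputable def sN (h n : ℕ) {m k : ℕ} (π : Fin m → PP) (p e : Fin m → ℕ) (r : Fin k → ℕ)
    (w0 : ZMod 3) (c : Fin m → ZMod 3) : ℕ := Module.finrank (ZMod 3) (US h n π p e r w0 c)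

/-- the dimension `v` -/
noncomputable def vN (h n : ℕ) {m k : ℕ} (π : Fin m → PP) (p e : Fin m → ℕ) (r : Fin k → ℕ)
    (w0 : ZMod 3) (c : Fin m → ZMod 3) : ℕ := Module.finrank (ZMod 3) (VS h n π p e r w0 c)

open Classical in
/-- PTN_NDIM: the relation between the dimensions.
Proof. Let `R = {a : Fin (m + 1) // a ≠ 0 ∨ actR}` (active rows, `m + [actR]` of them) and
`C = {b : Col m k // h ≠ 0 ∨ b ≠ inl 0}` (active columns, `m + k + [h ≠ 0]`), `A` the submatrix of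
`Nm`. `US` is isomorphic to the kernel of `A` (an element of `US` vanishes outside `C`), `VS` to the
kernel of the transpose (an element of `VS` vanishes outside `R`). `rank A = rank Aᵀ`
(`Matrix.rank_transpose`), `rank + finrank ker = ` number of columns
(`LinearMap.finrank_range_add_finrank_ker`): `sN + rank = #C`, `vN + rank = #R`. -/
def Stmt_NDIM : Prop := ∀ (h n m k : ℕ) (π : Fin m → PP) (p e : Fin m → ℕ) (r : Fin k → ℕ)
  (w0 : ZMod 3) (c : Fin m → ZMod 3),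
  sN h n π p e r w0 c + (if actR h n w0 then 1 else 0) =
    vN h n π p e r w0 c + k + (if h = 0 then 0 else 1)

/-- PTN_NSUM: the average of `3 ^ v` over the classes.
Proof. `3 ^ vN = Nat.card (VS ..)` (`Module.natCard_eq_pow_finrank`), so the sum is the number of the
triples `(w0, c, y)` with `y ∈ VS (w0, c)`. Fix `y` and put `S = {i | y i.succ ≠ 0}`. For `i ∈ S` the
condition of the column `inl i.succ` is `const + y i.succ (const - c i) = 0`, where the constants do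
not depend on `c` (they may depend on `w0`? no: the column `inl i.succ` contains `w0` nowhere); so it
determines `c i`. Hence for every `w0` at most `3 ^ (m - #S)` of the `c` occur, in other words
`c` is determined by its restriction to the complement of `S`. If `y 0 ≠ 0`
then `actR` holds, and `w0` is determined: for `h = 2` by the condition of the column `inl 0`,
`y 0 (wt (n²) + w0) + const = 0`, for `h = 0` by `wt (n²) + w0 = 0` (for other `h` there is no such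
`y`). Number of triples: `y 0 = 0`: `∑_S 2^#S · 3 · 3^(m - #S) = 3 · 5^m`; `y 0 ≠ 0`:
`2 · ∑_S 2^#S 3^(m - #S) = 2 · 5^m`. (`∑_{y : Fin m → ZMod 3} ∏ i (if y i = 0 then 3 else 1) =
∏ i (3 + 1 + 1)`, `Finset.prod_univ_sum` or `Fintype.piFinset`; a clean way: bound the number of the
`(c, y')`, `y' : Fin m → ZMod 3`, by `5^m` with the injection into
`Fin m → {pairs (c i, y' i) with y' i ≠ 0 → c i = F(y) i}` … or: for fixed `(w0, y)` the number of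
`c` is at most `∏ i (if y i.succ = 0 then 3 else 1)`, then sum over `y`.) -/
def Stmt_NSUM : Prop := ∀ (h n m k : ℕ) (π : Fin m → PP) (p e : Fin m → ℕ) (r f : Fin k → ℕ),
  NF n π p e r f →
  ∑ x : ZMod 3 × (Fin m → ZMod 3), 3 ^ vN h n π p e r x.1 x.2 ≤ 5 ^ (m + 1)

/-- PTN_NZER: the number of the classes with `v = 0`.
Proof. `Mt h n π p e w0 c` (PT3/Stmts.lean) is invertible for at least `2^m` of the `c` if
(`h = 2 → wt (n²) + w0 ≠ 0`) (`EMAX`, proved). If it is invertible and (`h = 0 → wt (n²) + w0 ≠ 0`)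
then `VS = ⊥`: for `h = 2` the columns `inl` of `Nm` are `Mt`, so `y ∈ VS` gives
`vecMul y Mt = 0`. For `h = 1` (and every `h ≠ 0, 2`): `y 0 = 0`, and the rows `i.succ` of `Mt` are those of `Nm`
restricted to the columns `inl`; row `0` of `Mt` is `(1, 0, …, 0)`; so `vecMul y Mt = 0`. For `h = 0`:
`actR` is false, `y 0 = 0`; the columns `inl i.succ` give `vecMul y Mt = 0` except in column `0`, and
`y' = (-t, y 1, …)`, `t = ∑ y i.succ e i sym (π i) 3`, satisfies `vecMul y' Mt = 0` (row `0` of `Mt` is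
`(1, 0, …, 0)`), so `y' = 0`, `y = 0`. There are at least two values of `w0` with
`wt (n²) + w0 ≠ 0`. -/
def Stmt_NZER : Prop := ∀ (h n m k : ℕ) (π : Fin m → PP) (p e : Fin m → ℕ) (r f : Fin k → ℕ),
  NF n π p e r f →
  2 ^ (m + 1) ≤ Nat.card {x : ZMod 3 × (Fin m → ZMod 3) // vN h n π p e r x.1 x.2 = 0 ∧
    ¬ (h = 0 ∧ wt ((n : ℤ) ^ 2) + x.1 = 0)}

/-! ### The classes -/

/-- The rational classes that are admissible for `3^h n q^E`, `q^E` in the class `(w0, c)`. -/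
def AdN (h n : ℕ) {m : ℕ} (π : Fin m → PP) (w0 : ZMod 3) (c : Fin m → ZMod 3) (x : ℤ) : Prop :=
  AdC h n π w0 c x ∧ (h = 0 → lv x = 0 ∧ (wt ((n : ℤ) ^ 2) + w0 = 0 → lw x = 0))

/-- the exponent vector -/
noncomputable def exv {m k : ℕ} (p : Fin m → ℕ) (r : Fin k → ℕ) (x : ℤ) : Col m k → ZMod 3 :=
  fun b => (padicValInt (prm p r b) x : ZMod 3)

/-- PTN_NVEC: the admissible classes in terms of exponent vectors.
Proof. First part: `EVET` (PT3, proved; it holds for every `h`): the conditions of `EVET` are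
`mulVec (exv x) = 0` in the rows `i.succ` and, for `h = 2`, in row `0`; `lv x = exv x (inl 0)`; for
`h = 0` and `lv x = 0`, `lw x` is row `0` of `mulVec` (formula for `lw x` in `EVET`). Second part: the
last part of `EVET`. Third part: `x = 3^(u (inl 0)).val ∏ p i ^ … ∏ r j ^ …`, the exponents are at
most `2`; `V σ x ≤ 2` for every `σ : PP` (as `V_n`, see `PTE/EHPL.lean`, `PT3/EBAT.lean`,
`PT/BSYS.lean: R_V`: `σ` lies above exactly one prime, which is unramified). -/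
def Stmt_NVEC : Prop := ∀ (h n m k : ℕ) (π : Fin m → PP) (p e : Fin m → ℕ) (r f : Fin k → ℕ)
  (w0 : ZMod 3) (c : Fin m → ZMod 3), NF n π p e r f → h ≤ 2 →
  (∀ x : ℤ, x ≠ 0 → (∀ l : ℕ, l.Prime → (l : ℤ) ∣ x → l ∣ 3 * n) →
    (AdN h n π w0 c x ↔ exv p r x ∈ US h n π p e r w0 c)) ∧
  (∀ x x' : ℤ, x ≠ 0 → x' ≠ 0 → (∀ l : ℕ, l.Prime → (l : ℤ) ∣ x → l ∣ 3 * n) →
    (∀ l : ℕ, l.Prime → (l : ℤ) ∣ x' → l ∣ 3 * n) →
    ((∃ u v : ℤ, u ≠ 0 ∧ v ≠ 0 ∧ x * u ^ 3 = x' * v ^ 3) ↔ exv p r x = exv p r x')) ∧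
  ∀ u : Col m k → ZMod 3, ∃ x : ℤ, x ≠ 0 ∧ (∀ l : ℕ, l.Prime → (l : ℤ) ∣ x → l ∣ 3 * n) ∧
    exv p r x = u ∧ (∀ σ : PP, V σ.1 (x : Eis) ≤ 2) ∧ (u (Sum.inl 0) = 0 → ¬ (3 : ℤ) ∣ x)

/-- PTN_NBAS: basis of the admissible classes with local points.
Proof. As `EBAT` (PT3/EBAT.lean, read it; the invertibility of `Mt` was used only for the dimension).
`Λ = (lv, lw) : US → F_3²` is linear (`lv x = u (inl 0)`, `lw x` the formula in `EVET`).
`β = (h, wt (n²) + w0)`. For `h = 2` the image of `Λ` is contained in the line of `β ≠ 0` (`wild`), for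
`h = 0` and `wt (n²) + w0 ≠ 0` in the line of `β = (0, wt (n²) + w0)`, for `h = 0` and
`wt (n²) + w0 = 0` it is `0`. Basis of `US`: first a basis of `ker Λ` (type `0`); then, if the image
is the line of `β ≠ 0`, one vector `u` with `Λ u = β` (type `1`, `(X, Y) = (1, 0)`); if it is another
line (only for `h = 1`) one vector (type `2`, `(X, Y)` from `LPT` for `b` and `lw B = wt (n²) + w0`); if
it is the plane (only for `h = 1`) two vectors with `Λ = β` (type `1`) and `Λ = (0, 1)` (type `2`,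
`LPT`). `b` from the third part of `NVEC`. At most one of the `b_i` is divisible by `3`: all others have
`lv = 0`. Independence and span: second part of `NVEC` (`exv` of a product is the sum). -/
def Stmt_NBAS : Prop := ∀ (h n m k : ℕ) (π : Fin m → PP) (p e : Fin m → ℕ) (r f : Fin k → ℕ)
  (w0 : ZMod 3) (c : Fin m → ZMod 3), NF n π p e r f → h ≤ 2 →
  ∃ (s : ℕ) (τ : Fin s → Fin 3) (b X Y : Fin s → ℤ), s = sN h n π p e r w0 c ∧
    (∀ i, AdN h n π w0 c (b i)) ∧ (∀ i (π : PP), V π.1 (b i : Eis) ≤ 2) ∧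
    (∀ g : Fin s → ℕ, (∃ i, ¬ 3 ∣ g i) → ¬ ∃ t : ℤ, t ^ 3 = ∏ i, b i ^ g i) ∧
    (∀ i j, i ≠ j → ¬ (3 : ℤ) ∣ b i ∨ ¬ (3 : ℤ) ∣ b j) ∧
    (∀ B : ℤ, TyB h n w0 B → LamS B τ b X Y) ∧
    (∀ x : ℤ, AdN h n π w0 c x → ∃ (g : Fin s → ℕ) (u v : ℤ), u ≠ 0 ∧ v ≠ 0 ∧
      x * u ^ 3 = (∏ i, b i ^ g i) * v ^ 3)

/-- PTN_NHPT: bases adapted to a hyperplane.
Proof. As `EHPT` (PT3/EHPT.lean) and `EHPL` (PTE/EHPL.lean). `v` is any basis of `US` (for example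
that of `NBAS`). For `δ ≠ 0` the hyperplane `H = {∑ g_i v_i : ∑ g_i δ_i = 0}` of `US`; basis of `H` as in
`NBAS` (applied to the subspace `H` in place of `US`; the proof works for every subspace of `US`; state it
as a lemma), and a vector `y0 ∈ US` outside `H`, changed by a multiple of the element of `H`
with `lv ≠ 0` (if there is one) so that `lv y0 = 0`. For `ρ` not dividing `n` the map
`x ↦ sym ρ x` on the numbers supported on `3 n` is additive, and `0` on cubes, so it is a linear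
form on `US` (by exponent vectors). It vanishes on `H` and not on `y0` iff it is `ε δ` with `ε ≠ 0` in
the coordinates of the basis `v`. -/
def Stmt_NHPT : Prop := ∀ (h n m k : ℕ) (π : Fin m → PP) (p e : Fin m → ℕ) (r f : Fin k → ℕ)
  (w0 : ZMod 3) (c : Fin m → ZMod 3), NF n π p e r f → h ≤ 2 →
  ∃ (d : ℕ) (v : Fin d → ℤ), d = sN h n π p e r w0 c ∧ (∀ i, AdN h n π w0 c (v i)) ∧
    (∀ x : ℤ, AdN h n π w0 c x → ∃ (g : Fin d → ℕ) (u t : ℤ), u ≠ 0 ∧ t ≠ 0 ∧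
      x * u ^ 3 = (∏ i, v i ^ g i) * t ^ 3) ∧
    ∀ δ : Fin d → ZMod 3, δ ≠ 0 → ∃ (s : ℕ) (τ : Fin s → Fin 3) (b : Fin (s + 1) → ℤ)
      (X Y : Fin s → ℤ), s + 1 = d ∧
      (∀ i, AdN h n π w0 c (b i)) ∧ (∀ i (π : PP), V π.1 (b i : Eis) ≤ 2) ∧
      (∀ g : Fin (s + 1) → ℕ, (∃ i, ¬ 3 ∣ g i) → ¬ ∃ t : ℤ, t ^ 3 = ∏ i, b i ^ g i) ∧
      (∀ i j, i ≠ j → ¬ (3 : ℤ) ∣ b i ∨ ¬ (3 : ℤ) ∣ b j) ∧
      (∀ B : ℤ, TyB h n w0 B → LamS B τ (rv b) X Y) ∧
      ∀ ρ : PP, ¬ ρ.1 ∣ (n : Eis) →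
        (((∀ i : Fin s, sym ρ.1 (b i.castSucc : Eis) = 0) ∧
          sym ρ.1 (b (Fin.last s) : Eis) ≠ 0) ↔
          ∃ ε : ZMod 3, ε ≠ 0 ∧ ∀ i, sym ρ.1 (v i : Eis) = ε * δ i) ∧
        ((∀ i : Fin s, sym ρ.1 (b i.castSucc : Eis) = 0) →
          sym ρ.1 (b (Fin.last s) : Eis) ≠ 0 →
          ∀ x : ℤ, AdN h n π w0 c x → sym ρ.1 (x : Eis) = 0 → ∃ (g : Fin s → ℕ) (u t : ℤ),
            u ≠ 0 ∧ t ≠ 0 ∧ x * u ^ 3 = (∏ i, b i.castSucc ^ g i) * t ^ 3)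

/-! ### Local conditions for `B` -/

/-- the local condition on the class `x` at `lam` -/
def Loc (B x : ℤ) : Prop :=
  (lv B = 2 → lw x + lv x * lw B = 0) ∧ (lv B = 0 → lv x = 0 ∧ (lw B = 0 → lw x = 0))

/-- PTN_NADT: `AdN` and the local conditions, `q = 2 (mod 3)`.
Proof. As `EADT` (PT3/EADT.lean) for `h = 1, 2` and `PTL/EA.lean` (`EAE_thm`, `m = 0`), `PT/EADM.lean` for
`h = 0`. `V σ B = V σ n + E V σ q`; `q` is inert and does not divide `n`; `BG` and `AG` concern only the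
primes `σ ∈ PP`, i.e. outside `3`. `lv B = h`, `lw B = wt (n²) + w0` (`PT3/HYPT.lean: lvw`, valid for
every `h`), so `lv B = 2 ↔ h = 2`, `lv B = 0 ↔ h = 0`. -/
def Stmt_NADT : Prop := ∀ (h n m k : ℕ) (π : Fin m → PP) (p e : Fin m → ℕ) (r f : Fin k → ℕ)
  (w0 : ZMod 3) (c : Fin m → ZMod 3) (E q : ℕ), NF n π p e r f → h ≤ 2 →
  (E = 1 ∨ E = 2) → q.Prime → q % 3 = 2 → InCT E π w0 c q → ¬ q ∣ n →
  BG (BB h n E q) ∧ TyB h n w0 (BB h n E q) ∧
    ∀ x : ℤ, (∀ l : ℕ, l.Prime → (l : ℤ) ∣ x → l ∣ 3 * n) →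
      (AdN h n π w0 c x ↔ AG (BB h n E q) x ∧ Loc (BB h n E q) x)

/-- PTN_NADU: `AdN` and the local conditions, `q = 1 (mod 3)`.
Proof. As `EADU` (PT3/EADU.lean) and `EADMS` (PTE/EADMS.lean). -/
def Stmt_NADU : Prop := ∀ (h n m k : ℕ) (π : Fin m → PP) (p e : Fin m → ℕ) (r f : Fin k → ℕ)
  (w0 : ZMod 3) (c : Fin m → ZMod 3) (E q : ℕ) (ρ : PP), NF n π p e r f → h ≤ 2 →
  (E = 1 ∨ E = 2) → q.Prime → q % 3 = 1 → InCT E π w0 c q → ¬ q ∣ n →
  (q : Eis) = ρ.1 * conj ρ.1 →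
  BG (BB h n E q) ∧ TyB h n w0 (BB h n E q) ∧
    ∀ x : ℤ, (∀ l : ℕ, l.Prime → (l : ℤ) ∣ x → l ∣ 3 * n) →
      ((AdN h n π w0 c x ∧ sym ρ.1 (x : Eis) = 0) ↔ AG (BB h n E q) x ∧ Loc (BB h n E q) x)

/-! ### The minus part -/

/-- The minus part of the Selmer group. -/
structure SelM (B : ℤ) (z : Eis) : Prop where
  ne : z ≠ 0
  nrm : ∃ t : Eis, z * conj z = t ^ 3
  sym : ∀ π : PP, tm π.1 z (B : Eis) = 0
  unr : ∀ π : PP, ¬ π.1 ∣ (B : Eis) → 3 ∣ V π.1 z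
  lam : lv B = 1 → sl z 3 = 0 ∧ sl z 4 = 0

/-- PTN_NKIN: the classes of the rational points are in the minus part.
Proof. This is the first half of the proofs of `FDK_thm` (PT/FDK.lean) and `FDKT_thm`
(PT3/FDKT.lean), before the hypothesis `HypM` / `HypT` is used; they use only that `B ≠ 0` and that
`x, y` are coprime. `lam`: `lv B = 1` and `27 ∤ B` mean `3 ∣ B`, `9 ∤ B`: `FDKT.dvd27`,
`FDKT.wild`. -/
def Stmt_NKIN : Prop := ∀ B x y z : ℤ, B ≠ 0 → ¬ (27 : ℤ) ∣ B → IsCoprime x y → z ≠ 0 →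
  x ^ 3 + y ^ 3 = B * z ^ 3 →
  SelM B (w ^ 2 * (((x : Eis) + w * y) * ((x : Eis) + w ^ 2 * y) ^ 2))

/-- PTN_NPSI: the minus part, `q = 2 (mod 3)`.
Proof. As `HYPT_thm` (PT3/HYPT.lean, read it: `dat`, `prodf`, `sl_int`, `lvw`, `decomp` hold for every `h`).
`W = VS h n π p e r w0 c`, `Nat.card W = 3 ^ vN`. For `z` with `SelM B z` put
`Y z = Fin.cons (- sl z 4) (fun i => e i * V (π i) z)`; it is in `VS`: (a) `¬ actR → sl z 4 = 0`: for
`h = 1` by `lam` (`lv B = 1`), for `h = 0` by `sl z B = 0` (sum of the `tm π z B`), `lv B = 0`,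
`lw B = wt (n²) + w0 ≠ 0` and `sl z B = lv B * sl z 3 - lw B * sl z 4` (`sl_int`). (b) The columns:
`prodf` for `x = 3` (`h ≠ 0`), `x = p i'`, `x = r j` with `sl z x = lv x * sl z 3 - lw x * sl z 4`: for
`h = 1` both `sl z 3 = sl z 4 = 0`; for `h = 2`: `sl z B = 0` gives
`sl z x = - sl z 4 (lw x + lv x lw B)` (as in `HYPT_thm`); for `h = 0` only `x` prime to `3` occur,
`lv x = 0`. `tm (π i) x B = V(B) ch x - V(x) ch B` is the entry of `Nm` (as in `HYPT_thm`; for `x = r j`: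
`V (π i) (r j) = 0`). Outside of `SelM` put `Y z = 0`. Injective: if `Y z = Y z'` let
`z'' = z z'^2`; `SelM B z''` (multiplicativity), `Y z'' = 3 Y z = 0`; by `decomp` `z'' = ± w^a γ³` (all
`V (π i) z''` are divisible by `3`; see `HYPT_thm`), `-1 = (-1)³`, and
`0 = sl z'' 4 = a sl w 4 = - a lw 4 = a`, so `z''` is a cube `γ³` and `z * z'^3 = z' * γ^3`
(`z * z'^2 = γ^3`, multiply with `z'`). -/
def Stmt_NPSI : Prop := ∀ (h n m k : ℕ) (π : Fin m → PP) (p e : Fin m → ℕ) (r f : Fin k → ℕ)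
  (w0 : ZMod 3) (c : Fin m → ZMod 3) (E q : ℕ), NF n π p e r f → h ≤ 2 →
  (E = 1 ∨ E = 2) → q.Prime → q % 3 = 2 → InCT E π w0 c q → ¬ q ∣ n →
  ∃ (W : Type) (_ : Finite W) (Y : Eis → W), Nat.card W ≤ 3 ^ vN h n π p e r w0 c ∧
    ∀ z z' : Eis, SelM (BB h n E q) z → SelM (BB h n E q) z' → Y z = Y z' →
      ∃ g g' : Eis, g ≠ 0 ∧ g' ≠ 0 ∧ z * g ^ 3 = z' * g' ^ 3

open Classical in
/-- PTN_NPSU: the minus part, `q = 1 (mod 3)`.
Proof. As `NPSI` with the additional split prime `ρ` (see `HYPU_thm`, PT3/HYPU.lean, and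
`HYPS_thm`, PTE/HYPS.lean): `Y z = (y, t)` with `y` as in `NPSI` and `t = V ρ z`; the additional
term of the product formula at `ρ`, `conj ρ` for `x` prime to `q` is
`E V(ρ, z) tm ρ x B = E² V(ρ, z) sym ρ x = t sym ρ x`. So `(y, t)` is in
`W' = {(y, t) | (¬ actR → y 0 = 0) ∧ ∀ b active, vecMul y Nm b + t * sym ρ (prm p r b) = 0}`. The
subgroup `t = 0` is `VS`, so `Nat.card W' ≤ 3 * 3 ^ vN`. If some admissible `x` has
`sym ρ x ≠ 0` then `t = 0` on `W'`: multiply the equations with the exponents `exv x b` (`∈ US`, `NVEC`) and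
sum over `b` (for `h = 0` the column `inl 0` has exponent `0`): `y · (Nm.mulVec (exv x)) = 0` (rows
`i.succ`; row `0` if `actR`, otherwise `y 0 = 0`) and `∑ exv x b * sym ρ (prm b) = sym ρ x`. Injective as
in `NPSI` (`decomp` for the extended normal form `HYPU.ext`; `3 ∣ V ρ z`, `3 ∣ V (π i) z`). -/
def Stmt_NPSU : Prop := ∀ (h n m k : ℕ) (π : Fin m → PP) (p e : Fin m → ℕ) (r f : Fin k → ℕ)
  (w0 : ZMod 3) (c : Fin m → ZMod 3) (E q : ℕ) (ρ : PP), NF n π p e r f → h ≤ 2 →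
  (E = 1 ∨ E = 2) → q.Prime → q % 3 = 1 → InCT E π w0 c q → ¬ q ∣ n →
  (q : Eis) = ρ.1 * conj ρ.1 →
  ∃ (W : Type) (_ : Finite W) (Y : Eis → W), Nat.card W ≤ 3 ^ (vN h n π p e r w0 c +
      if ∃ x : ℤ, AdN h n π w0 c x ∧ sym ρ.1 (x : Eis) ≠ 0 then 0 else 1) ∧
    ∀ z z' : Eis, SelM (BB h n E q) z → SelM (BB h n E q) z' → Y z = Y z' →
      ∃ g g' : Eis, g ≠ 0 ∧ g' ≠ 0 ∧ z * g ^ 3 = z' * g' ^ 3

/-! ### The plus part -/

/-- PTN_NPLU: the class of a point of the isogenous curve.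
Proof. See `PT/FDC.lean`, `PT/FDX.lean` (for `3 ∤ B`), `PT3/FDCT.lean`, `PT3/FD2T.lean`,
`PTE/FD2S.lean`. Splitting into cells (`FDC` for `h = 0`, `FDCT` for `h = 1, 2`; `27 ∤ B`):
`A k = a k * x k ^ 3`, `∏ a k = B`, the `a k` pairwise coprime, the `x k` pairwise coprime; for
`h = 0` and `C9 B`: the `wt (a k ^ 2)` are equal. One may assume that the `a k * x k` are pairwise
coprime since the `A k` are. `q ∣ B` divides exactly one `a k`. Replacing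
`(A 0, A 1, A 2)` by a cyclic permutation changes `A 0 ^ 2 * A 1` by a power of `B` up to cubes:
`A 0 ^ 2 A 1 · (A 0 A 1 A 2)^2 = A 1 ^ 2 A 2 · (A 0 ^ 4 A 1 A 2)`… in detail
`A 1 ^ 2 * A 2 = A 0 ^ 2 * A 1 * (A 0 * A 1 * A 2) * (1 / A 0) ^ 3`, and
`A 2 ^ 2 * A 0 = A 0 ^ 2 * A 1 * (A 0 * A 1 * A 2) ^ 2 * (1 / (A 0 * A 1)) ^ 3`, and
`A 0 * A 1 * A 2 = B m^3`. So one may assume `q ∣ a 2`. Then
`z = a 0 ^ 2 * a 1`, `(X, Y) = (a 0 * x 0, x 1)`: `z (X³ + z Y³) = a 0 ^ 4 a 1 (a 0 x 0³ + a 1 x 1³)·…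
= - a 0 ^ 4 a 1 a 2 x 2 ^ 3 = B (-(a 0) x 2)^3`; `A 0 ^ 2 * A 1 = z * (x 0 ^ 2 * x 1)^3`. `AG B z`: as
in `FDX`/`FD2T`/`FD2S` (at a prime `σ ∣ B` of one of the cells `B`, `z`
and the relation `A 0 + A 1 + A 2 = 0` modulo `σ` make `tm σ z B = 0`). `Loc B z`: `h = 2` as in
`FD2T` (clause `wild`), `h = 0`: `z` is prime to `3`, and if `lw B = 0`, that is `C9 B`, then
`lw z = 2 wt (a 0 ^ 2) + wt (a 1 ^ 2) = 0`. Support: `z ∣ B²` and `q ∤ z`. `h = 1`: nothing. -/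
def Stmt_NPLU : Prop := ∀ (h n m k : ℕ) (π : Fin m → PP) (p e : Fin m → ℕ) (r f : Fin k → ℕ)
  (E q : ℕ) (A : Fin 3 → ℤ) (m' : ℤ), NF n π p e r f → h ≤ 2 →
  (E = 1 ∨ E = 2) → q.Prime → q ≠ 3 → ¬ q ∣ n → (∀ k, A k ≠ 0) → A 0 + A 1 + A 2 = 0 →
  A 0 * A 1 * A 2 = BB h n E q * m' ^ 3 → (∀ i j, i ≠ j → IsCoprime (A i) (A j)) →
  ∃ (z X Y u v : ℤ) (j : ℕ), u ≠ 0 ∧ v ≠ 0 ∧
    z * u ^ 3 = A 0 ^ 2 * A 1 * BB h n E q ^ j * v ^ 3 ∧ Pt (BB h n E q) z X Y ∧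
    AG (BB h n E q) z ∧ Loc (BB h n E q) z ∧ ∀ l : ℕ, l.Prime → (l : ℤ) ∣ z → l ∣ 3 * n

/-! ### The bounds for the rank -/

/-- PTN_NBKN: the bound for the rank, `q = 2 (mod 3)`.
Proof. `B = BB h n E q`: nonzero, cube-free (`CubeRank.CubeFree`: for the prime `3` because `h ≤ 2` and
`3 ∤ n q`; otherwise `n` is cube-free by `NF`, `q ∤ n`), not a cube (`q` has exponent `E = 1, 2`),
`|B| ≥ q > 3`. `KID` with `W₁` from `NPSI` (`NKIN`: `S1 B ζ` implies `SelM B ζ`; for `ζ = 1` clear) and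
`W₂ = ker M`, `M = MaT b X Y P Q P' Q' B`, `Nat.card = 3 ^ (s - rank M)`
(`Module.natCard_eq_pow_finrank`, as at the end of `BKE_thm` in PTL/BK.lean). `Ψ₂`: for `z` with
`S2 B z` choose by `NPLU` a `z'` (`z' = 1` for `z = 1`); `z'` is admissible (`NADT`), so
`z' u³ = (∏ b i ^ g i) v³`; if some `g i` is not divisible by `3` then `Pt B (∏ b i ^ g i) ..` (transport of
`Pt` by cubes as in PTL/BK.lean) and `TENT` gives `M g = 0`; otherwise `g = 0` in `ZMod 3`.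
`Ψ₂ z = (g i : ZMod 3)_i ∈ ker M`. If `Ψ₂ z₁ = Ψ₂ z₂` then the two products `∏ b i ^ g i` differ by a cube
(PTL/BK.lean: `prod_cube`), so `z₁` and `z₂` differ by a cube times a power of `B`. Finally
`CubeRank.gen'` (`GenStmt`) with `d = vN + (s - rank M)`. -/
def Stmt_NBKN : Prop := ∀ (h n m k : ℕ) (π : Fin m → PP) (p e : Fin m → ℕ) (r f : Fin k → ℕ)
  (w0 : ZMod 3) (c : Fin m → ZMod 3) (s : ℕ) (τ : Fin s → Fin 3) (b X Y : Fin s → ℤ)
  (P Q P' Q' : Fin s → Fin s → ℤ) (E q : ℕ), NF n π p e r f → h ≤ 2 →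
  (∀ i, AdN h n π w0 c (b i)) → SysG b P Q P' Q' → SwS P Q P' Q' →
  (∀ B : ℤ, TyB h n w0 B → LamS B τ b X Y) →
  (∀ x : ℤ, AdN h n π w0 c x → ∃ (g : Fin s → ℕ) (u v : ℤ), u ≠ 0 ∧ v ≠ 0 ∧
    x * u ^ 3 = (∏ i, b i ^ g i) * v ^ 3) →
  (E = 1 ∨ E = 2) → q.Prime → 3 < q → q % 3 = 2 → InCT E π w0 c q → ¬ q ∣ n →
  CubeRank.GenBy (BB h n E q)
    (vN h n π p e r w0 c + (s - (MaT b X Y P Q P' Q' (BB h n E q)).rank))

/-- PTN_NBKU: the bound for the rank, `q = 1 (mod 3)`, generic case.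
Proof. As `NBKN` with `NPSU` (`b (Fin.last s)` is admissible with `sym ρ ≠ 0`, so
`Nat.card W ≤ 3 ^ vN`), `NADU`, and the system of the first `s` classes (`rv b`, `rs P`, …, which is
again a `SysG` and `SwS`; see `ECLS`, `PT3/ECLU.lean`). -/
def Stmt_NBKU : Prop := ∀ (h n m k : ℕ) (π : Fin m → PP) (p e : Fin m → ℕ) (r f : Fin k → ℕ)
  (w0 : ZMod 3) (c : Fin m → ZMod 3) (s : ℕ) (τ : Fin s → Fin 3) (b : Fin (s + 1) → ℤ)
  (X Y : Fin s → ℤ) (P Q P' Q' : Fin (s + 1) → Fin (s + 1) → ℤ) (E q : ℕ) (ρ : PP),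
  NF n π p e r f → h ≤ 2 →
  (∀ i, AdN h n π w0 c (b i)) → SysG b P Q P' Q' → SwS P Q P' Q' →
  (∀ B : ℤ, TyB h n w0 B → LamS B τ (rv b) X Y) →
  (∀ x : ℤ, AdN h n π w0 c x → sym ρ.1 (x : Eis) = 0 → ∃ (g : Fin s → ℕ) (u t : ℤ),
    u ≠ 0 ∧ t ≠ 0 ∧ x * u ^ 3 = (∏ i, b i.castSucc ^ g i) * t ^ 3) →
  (E = 1 ∨ E = 2) → q.Prime → 3 < q → q % 3 = 1 → InCT E π w0 c q → ¬ q ∣ n →
  (q : Eis) = ρ.1 * conj ρ.1 → (∀ i : Fin s, sym ρ.1 (b i.castSucc : Eis) = 0) →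
  sym ρ.1 (b (Fin.last s) : Eis) ≠ 0 →
  CubeRank.GenBy (BB h n E q) (vN h n π p e r w0 c +
    (s - (MaT (rv b) X Y (rs P) (rs Q) (rs P') (rs Q') (BB h n E q)).rank))

/-- PTN_NBK0: the bound of the first descent, `q = 1 (mod 3)`.
Proof. `KID` with `W₁` from `NPSU` (`≤ 3 ^ (vN + 1)`) and `W₂ = US`, `Ψ₂ z = exv z'` for the `z'` of
`NPLU` (`NADU`, `NVEC`); no matrix. -/
def Stmt_NBK0 : Prop := ∀ (h n m k : ℕ) (π : Fin m → PP) (p e : Fin m → ℕ) (r f : Fin k → ℕ)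
  (w0 : ZMod 3) (c : Fin m → ZMod 3) (E q : ℕ), NF n π p e r f → h ≤ 2 →
  (E = 1 ∨ E = 2) → q.Prime → 3 < q → q % 3 = 1 → InCT E π w0 c q → ¬ q ∣ n →
  CubeRank.GenBy (BB h n E q) (vN h n π p e r w0 c + 1 + sN h n π p e r w0 c)

end Pool.Agent.PTN


end

section

/-!
# The law of the ranks of prime twists for every `n`: exponent vectors (module NVEC)
-/

set_option autoImplicit false

open Finset

namespace Pool.Agent.PTN

open Pool.Agent.Lib_helper18 Pool.Agent.Lib_helper18.Eis Pool.Agent.Lib_helper84.Cub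
open Pool.Agent.PT Pool.Agent.PTE Pool.Agent.PT3

namespace NVEC

/-- row `i.succ` of the product with a vector -/
theorem row_succ (h n : ℕ) {m k : ℕ} (π : Fin m → PP) (p e : Fin m → ℕ) (r : Fin k → ℕ)
    (w0 : ZMod 3) (c : Fin m → ZMod 3) (u : Col m k → ZMod 3) (i : Fin m) :
    ((Nm h n π p e r w0 c).mulVec u) i.succ =
      (e i : ZMod 3) * (u (Sum.inl 0) * sym (π i).1 3) +
        (e i : ZMod 3) * (∑ i', u (Sum.inl i'.succ) *
          (if i' = i then sym (π i).1 (conj (π i).1) else sym (π i).1 (p i' : Eis))) +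
        (e i : ZMod 3) * (∑ j, u (Sum.inr j) * sym (π i).1 (r j : Eis)) -
        u (Sum.inl i.succ) * (ch (π i).1 ((3 ^ h * n : ℕ) : Eis) + c i) := by
  have h1 : ((Nm h n π p e r w0 c).mulVec u) i.succ =
      ((e i : ZMod 3) * sym (π i).1 3 * u (Sum.inl 0) +
        ∑ i', (if i' = i then (e i : ZMod 3) * sym (π i).1 (conj (π i).1) -
              ch (π i).1 ((3 ^ h * n : ℕ) : Eis) - c i
          else (e i : ZMod 3) * sym (π i).1 (p i' : Eis)) * u (Sum.inl i'.succ)) +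
        ∑ j, (e i : ZMod 3) * sym (π i).1 (r j : Eis) * u (Sum.inr j) := by
    change ∑ b : Col m k, Nm h n π p e r w0 c i.succ b * u b = _
    rw [Fintype.sum_sum_type, Fin.sum_univ_succ]
    rfl
  have h2 : ∀ i' : Fin m, (if i' = i then (e i : ZMod 3) * sym (π i).1 (conj (π i).1) -
              ch (π i).1 ((3 ^ h * n : ℕ) : Eis) - c i
          else (e i : ZMod 3) * sym (π i).1 (p i' : Eis)) * u (Sum.inl i'.succ) =
      (e i : ZMod 3) * (u (Sum.inl i'.succ) *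
          (if i' = i then sym (π i).1 (conj (π i).1) else sym (π i).1 (p i' : Eis))) -
        (if i' = i then u (Sum.inl i'.succ) * (ch (π i).1 ((3 ^ h * n : ℕ) : Eis) + c i)
          else 0) := by
    intro i'
    split_ifs with h3
    · ring
    · ring
  rw [h1, Finset.sum_congr rfl fun i' _ => h2 i', Finset.sum_sub_distrib, ← Finset.mul_sum,
    Finset.sum_ite_eq' Finset.univ i, if_pos (Finset.mem_univ i)]
  have h4 : ∑ j, (e i : ZMod 3) * sym (π i).1 (r j : Eis) * u (Sum.inr j) =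
      (e i : ZMod 3) * (∑ j, u (Sum.inr j) * sym (π i).1 (r j : Eis)) := by
    rw [Finset.mul_sum]
    exact Finset.sum_congr rfl fun j _ => by ring
  rw [h4]
  ring

/-- row `0` of the product with a vector -/
theorem row_zero (h n : ℕ) {m k : ℕ} (π : Fin m → PP) (p e : Fin m → ℕ) (r : Fin k → ℕ)
    (w0 : ZMod 3) (c : Fin m → ZMod 3) (u : Col m k → ZMod 3) :
    ((Nm h n π p e r w0 c).mulVec u) 0 =
      (∑ i, u (Sum.inl i.succ) * wt ((p i : ℤ) ^ 2)) +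
        (∑ j, u (Sum.inr j) * wt ((r j : ℤ) ^ 2)) +
        u (Sum.inl 0) * (wt ((n : ℤ) ^ 2) + w0) := by
  have h1 : ((Nm h n π p e r w0 c).mulVec u) 0 =
      ((wt ((n : ℤ) ^ 2) + w0) * u (Sum.inl 0) +
        ∑ i : Fin m, wt ((p i : ℤ) ^ 2) * u (Sum.inl i.succ)) +
        ∑ j : Fin k, wt ((r j : ℤ) ^ 2) * u (Sum.inr j) := by
    change ∑ b : Col m k, Nm h n π p e r w0 c 0 b * u b = _
    rw [Fintype.sum_sum_type, Fin.sum_univ_succ]
    rfl
  rw [h1, Finset.sum_congr rfl fun i _ => mul_comm (wt ((p i : ℤ) ^ 2)) (u (Sum.inl i.succ)),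
    Finset.sum_congr rfl fun j _ => mul_comm (wt ((r j : ℤ) ^ 2)) (u (Sum.inr j))]
  ring

end NVEC

theorem NVEC_thm (hEVET : EVET) (hSPP : SPP) : Stmt_NVEC := by
  intro h n m k π p e r f w0 c hN hh
  obtain ⟨hE1, hE2⟩ := hEVET h n m k π p e r f w0 c hN
  refine ⟨fun x hx hs => ?_, fun x x' hx hx' hs hs' => ?_, fun u => ?_⟩
  · obtain ⟨hA, hW⟩ := hE1 x hx hs
    have hr : ∀ i : Fin m, ((Nm h n π p e r w0 c).mulVec (exv p r x)) i.succ =
        (e i : ZMod 3) * (lv x * sym (π i).1 3) +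
        (e i : ZMod 3) * (∑ i', (padicValInt (p i') x : ZMod 3) *
          (if i' = i then sym (π i).1 (conj (π i).1) else sym (π i).1 (p i' : Eis))) +
        (e i : ZMod 3) * (∑ j, (padicValInt (r j) x : ZMod 3) * sym (π i).1 (r j : Eis)) -
        (padicValInt (p i) x : ZMod 3) * (ch (π i).1 ((3 ^ h * n : ℕ) : Eis) + c i) := by
      intro i
      rw [NVEC.row_succ]
      rfl
    have h0 : ((Nm h n π p e r w0 c).mulVec (exv p r x)) 0 =
        (∑ i, (padicValInt (p i) x : ZMod 3) * wt ((p i : ℤ) ^ 2)) +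
        (∑ j, (padicValInt (r j) x : ZMod 3) * wt ((r j : ℤ) ^ 2)) +
        lv x * (wt ((n : ℤ) ^ 2) + w0) := by
      rw [NVEC.row_zero]
      rfl
    have hv : exv p r x (Sum.inl 0) = lv x := rfl
    change (AdC h n π w0 c x ∧ (h = 0 → lv x = 0 ∧ (wt ((n : ℤ) ^ 2) + w0 = 0 → lw x = 0))) ↔
      (∀ i : Fin m, ((Nm h n π p e r w0 c).mulVec (exv p r x)) i.succ = 0) ∧
        (actR h n w0 → ((Nm h n π p e r w0 c).mulVec (exv p r x)) 0 = 0) ∧
        (h = 0 → exv p r x (Sum.inl 0) = 0)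
    rw [hA, h0, hv]
    constructor
    · rintro ⟨⟨h1, h2⟩, h3⟩
      refine ⟨fun i => by rw [hr i]; exact h1 i, ?_, fun h4 => (h3 h4).1⟩
      rintro (h5 | ⟨h5, h6⟩)
      · exact h2 h5
      · rw [h6, mul_zero, add_zero, ← hW]
        exact (h3 h5).2 h6
    · rintro ⟨h1, h2, h3⟩
      refine ⟨⟨fun i => by rw [← hr i]; exact h1 i, fun h4 => h2 (Or.inl h4)⟩, fun h4 =>
        ⟨h3 h4, fun h5 => ?_⟩⟩
      have h6 := h2 (Or.inr ⟨h4, h5⟩)
      rw [h5, mul_zero, add_zero, ← hW] at h6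
      exact h6
  · rw [hE2 x x' hx hx' hs hs']
    constructor
    · rintro ⟨h1, h2, h3⟩
      funext b
      rcases b with b | j
      · refine Fin.cases ?_ (fun i => ?_) b
        · exact h1
        · exact h2 i
      · exact h3 j
    · intro h1
      exact ⟨congrFun h1 (Sum.inl 0), fun i => congrFun h1 (Sum.inl i.succ),
        fun j => congrFun h1 (Sum.inr j)⟩
  · set v : EBAT.EVT m k := (u (Sum.inl 0), ((fun i => u (Sum.inl i.succ)), fun j => u (Sum.inr j)))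
      with hv
    have hev := EBAT.evT_toT hN v
    refine ⟨EBAT.toT p r v, EBAT.toT_ne hN v, EBAT.supp_toT hN v, ?_, EBAT.V_toT_le hSPP hN v,
      fun h1 => EBAT.three_toT hN v h1⟩
    funext b
    rcases b with b | j
    · refine Fin.cases ?_ (fun i => ?_) b
      · exact congrArg Prod.fst hev
      · exact congrFun (congrArg (fun z : EBAT.EVT m k => z.2.1) hev) i
    · exact congrFun (congrArg (fun z : EBAT.EVT m k => z.2.2) hev) j

end Pool.Agent.PTN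


end

section

/-!
# The law of the ranks of prime twists for every `n`: densities

`BDENS.sm S σ` is the sum of `q ^ (-σ)` over the primes `q` of the set `S` (PT/BDENS.lean, with many
lemmas on sums over sets of primes). `PTL.NK`, `PTL.SP`, `PTL.SM` are defined in PTL/BD.lean.
Everything in `PT`, `PTE`, `PT3`, `PTL` is proved and may be imported or taken as a hypothesis.
-/

set_option autoImplicit false

open NumberField IsDedekindDomain Finset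
open scoped nonZeroDivisors Pointwise

namespace Pool.Agent.PTN

open Pool.Agent.Lib_helper18 Pool.Agent.Lib_helper18.Eis Pool.Agent.Lib_helper84.Cub
open Pool.Agent.PT Pool.Agent.PTE Pool.Agent.PT3 Pool.Agent.PTL

/-! ### Primes `Q = 2 (mod 3)` -/

/-- PTN_BDG: the exact bound for the density, both exponents together, `Q = 2 (mod 3)`.
Proof. As `BDE_thm` in PTL/BD.lean, with `SysG` and `GALG` (PT3) in place of `Sys` and `GALD`: the
lemmas `BD.dens`, `BD.card_X`, … of PTL/BD.lean do not use `Sys` and can be cited. -/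
def Stmt_BDG : Prop := ∀ (s : ℕ) (b : Fin s → ℤ) (p q p' q' : Fin s → Fin s → ℤ) (f m t : ℕ)
  (κ : (ZMod f)ˣ →* Multiplicative (Fin (m + 1) → ZMod 3)) (c : Fin (m + 1) → ZMod 3)
  (C : Fin s → Fin s → ZMod 3) (Φ : (ZMod f)ˣ →* Multiplicative (Fin s → Fin s → ZMod 3)),
  SysG b p q p' q' → 0 < f → 9 ∣ f →
  (∀ c : Fin (m + 1) → ZMod 3,
    Nat.card {a : (ZMod f)ˣ // M2 a ∧ (κ a).toAdd = c} * (2 * 3 ^ (m + 1)) = f.totient) →
  ∃ K : ℝ, ∀ σ : ℝ, 1 < σ → σ ≤ 2 →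
    BDENS.sm (SP b p q p' q' t κ c C Φ) σ + BDENS.sm (SM b p q p' q' t κ c C Φ) σ ≤
      (NK s t : ℝ) / Nat.card (Fin s → Fin s → ZMod 3) / 3 ^ (m + 1) *
        Real.log (1 / (σ - 1)) + K

/-! ### Primes `Q = 1 (mod 3)`: Frobenius elements -/

/-- PTN_GFRU: Frobenius elements and the pattern, with converse, for both prime factors `ρ`.
Proof. As `GFRS_thm` (PTE/GFRS.lean). `GFRS.exists_dat` gives one prime factor `ρ₀` of `Q`
compatible with `P`. For `ρ₀` the implication from left to right and the statement on `t` are in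
`GFRS_thm`. Converse for `ρ₀`: `Dat.fr_root`: `mk (φ • θ) = z ^ (sym ρ₀ b) * mk θ` for `θ ^ 3 = b`; if
`sym ρ₀ b = 0` then `φ • θ = ω ^ k θ` (same cube) gives `z ^ k = 1`, `3 ∣ k`, `φ • θ = θ`; if `φ • θ = θ`
then `sym ρ₀ b = 0` (`Dat.sym_zero`). Every other `ρ` is `ρ₀` or `conj ρ₀` (`SPLT`: `ρ ∣ Q`), and
`sym (conj ρ₀) x = - sym ρ₀ x` for integers `x` prime to `Q`, `TAUVS (conj ρ₀) = TAUVS ρ₀`
(`SPLT`: `sym (conj ρ) (conj a) = - sym ρ a`, `conj (Lf p q 1 r) = Lf p q 2 r`, and the linear forms are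
prime to `ρ₀`: `GFRS.lf_not_dvd`; `n1` of `Sol`). -/
def Stmt_GFRU : Prop := ∀ (s : ℕ) (b : Fin (s + 1) → ℤ)
  (p q p' q' : Fin (s + 1) → Fin (s + 1) → ℤ) (f : ℕ)
  (L : Type) [Field L] [NumberField L] (ζ ω : L), SysG b p q p' q' →
  GovF b p q p' q' f L ζ ω →
  ∃ N₀ : ℕ, ∀ Q : ℕ, Q.Prime → N₀ < Q → Q % 3 = 1 → ∀ (P : Ideal (𝓞 L)), P.IsPrime →
    (Q : 𝓞 L) ∈ P → ∀ φ : L ≃ₐ[ℚ] L, IsArithFrobAt ℤ φ P → ∀ ρ : PP,
    (Q : Eis) = ρ.1 * conj ρ.1 →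
    (Fx b φ ↔ (∀ j : Fin s, sym ρ.1 (b j.castSucc : Eis) = 0) ∧
      sym ρ.1 (b (Fin.last s) : Eis) ≠ 0) ∧
    (Fx b φ → ∀ j i : Fin s, j ≠ i → ∀ (r : ℤ) (t : ZMod 3), (Q : ℤ) ∣ r ^ 3 - b j.castSucc →
      IsTS b p q p' q' ω φ j.castSucc i.castSucc t →
      t = TAUVS ρ.1 (rs p j i) (rs q j i) (rs p' j i) (rs q' j i) r)

/-- PTN_GALDU: summary of the governing field.
Proof. As `GALDS_thm` (PTE/GALDS.lean) with `GFRU` in place of `GFRS`; only the last clause changes: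
`k` is chosen such that `g ^ k` is a Frobenius element of `P` (see `GALDS_thm` or
`PT/GALD.lean`), `χ (g ^ k) = Q` by `GCHI`, and for `Q % 3 = 1` the statement is `GFRU` for
`φ = g ^ k` (`t` is characterised by `IsTS` on the elements with `g ω = ω`, `Fx b g`; `M1 (χ g)` gives
`g ω = ω`). -/
def Stmt_GALDU : Prop := ∀ (s : ℕ) (b : Fin (s + 1) → ℤ)
  (p q p' q' : Fin (s + 1) → Fin (s + 1) → ℤ) (f : ℕ), SysG b p q p' q' → 0 < f → 9 ∣ f →
  ∃ (L : Type) (_ : Field L) (_ : NumberField L) (_ : IsGalois ℚ L)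
    (χ : (L ≃ₐ[ℚ] L) →* (ZMod f)ˣ) (F : (L ≃ₐ[ℚ] L) → Prop)
    (t : (L ≃ₐ[ℚ] L) → Fin s → Fin s → ZMod 3) (N₀ : ℕ),
    Function.Surjective χ ∧
    (∀ g τ : L ≃ₐ[ℚ] L, M1 (χ g) → F g →
      F (τ * g * τ⁻¹) ∧ ∀ j i, j ≠ i → t (τ * g * τ⁻¹) j i = t g j i) ∧
    (∀ (g : L ≃ₐ[ℚ] L) (k : ℕ), M1 (χ g) → F g → ¬ 3 ∣ k →
      F (g ^ k) ∧ ∀ j i, j ≠ i → t (g ^ k) j i = k * t g j i) ∧
    (∀ (a : (ZMod f)ˣ) (v v' : Fin s → Fin s → ZMod 3), M1 a →
      Nat.card {g : L ≃ₐ[ℚ] L // χ g = a ∧ F g ∧ ∀ j i, j < i → t g j i = v j i} =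
        Nat.card {g : L ≃ₐ[ℚ] L // χ g = a ∧ F g ∧ ∀ j i, j < i → t g j i = v' j i}) ∧
    (∀ a : (ZMod f)ˣ, M1 a → 3 ^ (s + 1) * Nat.card {g : L ≃ₐ[ℚ] L // χ g = a ∧ F g} =
      2 * Nat.card {g : L ≃ₐ[ℚ] L // χ g = a}) ∧
    ∀ (Q : ℕ) (hQ : Q.Coprime f), Q.Prime → N₀ < Q →
      ∀ (P : Ideal (𝓞 L)) (g : L ≃ₐ[ℚ] L), P.IsPrime → (Q : 𝓞 L) ∈ P →
      MulAction.stabilizer (L ≃ₐ[ℚ] L) P = Subgroup.zpowers g →
      ∃ k : ℕ, k.Coprime (orderOf g) ∧ χ (g ^ k) = ZMod.unitOfCoprime Q hQ ∧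
        (Q % 3 = 1 → ∀ ρ : PP, (Q : Eis) = ρ.1 * conj ρ.1 →
          (F (g ^ k) ↔ (∀ j : Fin s, sym ρ.1 (b j.castSucc : Eis) = 0) ∧
            sym ρ.1 (b (Fin.last s) : Eis) ≠ 0) ∧
          (F (g ^ k) → ∀ j i : Fin s, j ≠ i → ∀ r : ℤ, (Q : ℤ) ∣ r ^ 3 - b j.castSucc →
            t (g ^ k) j i = TAUVS ρ.1 (rs p j i) (rs q j i) (rs p' j i) (rs q' j i) r))

/-! ### Primes `Q = 1 (mod 3)`: counting and densities -/

/-- PTN_EQX: equidistribution.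
Proof. As `EQD_thm` (PT; the proof does not use the group). `alt v` depends only on the
`v j i` with `j < i`. Each fibre of `x ↦ (t x j i)_{j < i}` has the same number of elements; sum over
the classes `C ± t x`. -/
def Stmt_EQX : Prop := ∀ (s : ℕ) (X : Type) [Finite X] (t : X → Fin s → Fin s → ZMod 3),
  (∀ v v' : Fin s → Fin s → ZMod 3,
    Nat.card {x : X // ∀ j i, j < i → t x j i = v j i} =
      Nat.card {x : X // ∀ j i, j < i → t x j i = v' j i}) →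
  ∀ (C : Fin s → Fin s → ZMod 3) (S : Set (Matrix (Fin s) (Fin s) (ZMod 3))),
    Nat.card {x : X // alt (C + t x) ∈ S} * Nat.card (Fin s → Fin s → ZMod 3) =
      Nat.card {v : Fin s → Fin s → ZMod 3 // alt v ∈ S} * Nat.card X ∧
    Nat.card {x : X // alt (C - t x) ∈ S} * Nat.card (Fin s → Fin s → ZMod 3) =
      Nat.card {v : Fin s → Fin s → ZMod 3 // alt v ∈ S} * Nat.card X

/-- the primes of the class `c` with the pattern and large kernel, for the exponent `1` -/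
def SPU {s f m : ℕ} (b : Fin (s + 1) → ℤ) (p q p' q' : Fin (s + 1) → Fin (s + 1) → ℤ) (t : ℕ)
    (κ : (ZMod f)ˣ →* Multiplicative (Fin (m + 1) → ZMod 3)) (c : Fin (m + 1) → ZMod 3)
    (C : Fin s → Fin s → ZMod 3) (Φ : (ZMod f)ˣ →* Multiplicative (Fin s → Fin s → ZMod 3)) :
    Set ℕ :=
  {Q : ℕ | ∃ (hQ : Q.Coprime f) (ρ : PP), ClQ b κ c Q hQ ρ ∧
    ∀ τ : Fin s → Fin s → ZMod 3,
      (∀ j i, j ≠ i → ∀ r : ℤ, (Q : ℤ) ∣ r ^ 3 - b j.castSucc →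
        τ j i = TAUVS ρ.1 (rs p j i) (rs q j i) (rs p' j i) (rs q' j i) r) →
      t ≤ s - (alt (C + (Φ (ZMod.unitOfCoprime Q hQ)).toAdd + τ)).rank}

/-- the primes of the class `-c` with the pattern and large kernel, for the exponent `2` -/
def SMU {s f m : ℕ} (b : Fin (s + 1) → ℤ) (p q p' q' : Fin (s + 1) → Fin (s + 1) → ℤ) (t : ℕ)
    (κ : (ZMod f)ˣ →* Multiplicative (Fin (m + 1) → ZMod 3)) (c : Fin (m + 1) → ZMod 3)
    (C : Fin s → Fin s → ZMod 3) (Φ : (ZMod f)ˣ →* Multiplicative (Fin s → Fin s → ZMod 3)) :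
    Set ℕ :=
  {Q : ℕ | ∃ (hQ : Q.Coprime f) (ρ : PP), ClQ b κ (-c) Q hQ ρ ∧
    ∀ τ : Fin s → Fin s → ZMod 3,
      (∀ j i, j ≠ i → ∀ r : ℤ, (Q : ℤ) ∣ r ^ 3 - b j.castSucc →
        τ j i = TAUVS ρ.1 (rs p j i) (rs q j i) (rs p' j i) (rs q' j i) r) →
      t ≤ s - (alt (C - (Φ (ZMod.unitOfCoprime Q hQ)).toAdd - τ)).rank}

/-- PTN_BDU: the exact bound for the density, both exponents together, `Q = 1 (mod 3)`.
Proof. As `BDE_thm` in PTL/BD.lean (read it first), with `GALDU`, `M1` in place of `M2`. Put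
`InU g : M1 (χ g) ∧ ((κ (χ g)).toAdd = c ∨ (κ (χ g)).toAdd = -c)`,
`XP g : M1 (χ g) ∧ (κ (χ g)).toAdd = c ∧ F g ∧ t ≤ s - rank (alt (C + (Φ (χ g)).toAdd + t g))`,
`XM g : M1 (χ g) ∧ (κ (χ g)).toAdd = -c ∧ F g ∧ t ≤ s - rank (alt (C - (Φ (χ g)).toAdd - t g))`.
(1) If `h = g' ^ k` with `¬ 3 ∣ k` and `g' = τ g τ⁻¹` then `InU` is preserved, and `XP`, `XM` are
preserved for `k = 1 (mod 3)` and exchanged for `k = 2 (mod 3)` (clauses 2, 3 of `GALDU`; `F h → F g'`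
because `g'` is a power of `h` with exponent prime to `3`). Two generators of a finite cyclic group
are powers of each other with an exponent prime to `3` (add the order if necessary, see
`BDENS.exists_pow`). So `XP ∨ XM` and `XP ∧ XM` are stable under `zpowers h = zpowers (τ g τ⁻¹)`, and so
are `InU ∧ ¬ (XP ∨ XM)`, `InU ∧ ¬ (XP ∧ XM)`. (2) Counting with `EQX` (`X = {g // χ g = a ∧ F g}`), clause 5 of
`GALDU` and the number of the `a`: `3 ^ (s + 1) * Nat.card (Fin s → Fin s → ZMod 3) * #XP * (2 * 3 ^ (m + 1)) =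
2 * NK s t * #G`, the same for `XM`. (3) As `BD.dens`: for a stable `B` (`XP ∨ XM`, `XP ∧ XM`) and a set `S`
of primes `= 1 (mod 3)` of the classes `± c` such that the Frobenius element `g ^ k` of every large `n ∈ S`
satisfies `B`: `sm S ≤ (#B / #G) log + K` (`RI.FROBD_thm` for the complement `InU ∧ ¬ B`, `DIR` for the
residue classes, `BD.card_T`-like counting). For `S = SPU ∪ SMU`, `SPU ∩ SMU`: if `n ∈ SPU`, with `ρ`,
then the pattern for `ρ` gives `F (g ^ k)` and `t (g ^ k)` is the `TAUVS` for `ρ`; take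
`τ = t (g ^ k)`. (4) `BD.sm_union_inter`, `BD.card_incl`. -/
def Stmt_BDU : Prop := ∀ (s : ℕ) (b : Fin (s + 1) → ℤ)
  (p q p' q' : Fin (s + 1) → Fin (s + 1) → ℤ) (f m t : ℕ)
  (κ : (ZMod f)ˣ →* Multiplicative (Fin (m + 1) → ZMod 3)) (c : Fin (m + 1) → ZMod 3)
  (C : Fin s → Fin s → ZMod 3) (Φ : (ZMod f)ˣ →* Multiplicative (Fin s → Fin s → ZMod 3)),
  SysG b p q p' q' → 0 < f → 9 ∣ f →
  (∀ c : Fin (m + 1) → ZMod 3,
    Nat.card {a : (ZMod f)ˣ // M1 a ∧ (κ a).toAdd = c} * (2 * 3 ^ (m + 1)) = f.totient) →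
  ∃ K : ℝ, ∀ σ : ℝ, 1 < σ → σ ≤ 2 →
    BDENS.sm (SPU b p q p' q' t κ c C Φ) σ + BDENS.sm (SMU b p q p' q' t κ c C Φ) σ ≤
      2 / 3 ^ (s + 1) * ((NK s t : ℝ) / Nat.card (Fin s → Fin s → ZMod 3)) / 3 ^ (m + 1) *
        Real.log (1 / (σ - 1)) + K

/-- PTN_BDL: the lower bound for the number of the primes with a given pattern.
Proof. Notation as in `BDU` with `t = 0` (the last condition is empty): `XP ∨ XM`, `XP ∧ XM` are
stable; `RI.FROBD_thm` for these two sets gives lower bounds for the sums over the primes `Q` with a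
prime `P` above `Q` whose stabilizer is generated by an element of the set. For such a `Q` (large),
`g ^ k` (last clause of `GALDU`; `zpowers (g ^ k) = zpowers g`) is in the set too; so
`Q % 3 = 1`, the class of `Q` is `± c`, `F (g ^ k)` holds, so the pattern holds for a `ρ` (exists by
`SPLT`): `Q ∈ SPU 0 ∪ SMU 0`, resp. `Q ∈ SPU 0 ∩ SMU 0` (up to finitely many `Q`). Sum:
`BD.sm_union_inter`, `BD.card_incl`, `3 ^ (s + 1) * #XP * (2 * 3 ^ (m + 1)) = 2 * #G` (clause 5), same for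
`XM`. -/
def Stmt_BDL : Prop := ∀ (s : ℕ) (b : Fin (s + 1) → ℤ)
  (p q p' q' : Fin (s + 1) → Fin (s + 1) → ℤ) (f m : ℕ)
  (κ : (ZMod f)ˣ →* Multiplicative (Fin (m + 1) → ZMod 3)) (c : Fin (m + 1) → ZMod 3),
  SysG b p q p' q' → 0 < f → 9 ∣ f →
  (∀ c : Fin (m + 1) → ZMod 3,
    Nat.card {a : (ZMod f)ˣ // M1 a ∧ (κ a).toAdd = c} * (2 * 3 ^ (m + 1)) = f.totient) →
  ∃ K : ℝ, ∀ σ : ℝ, 1 < σ → σ ≤ 2 →
    2 / 3 ^ (s + 1) / 3 ^ (m + 1) * Real.log (1 / (σ - 1)) - K ≤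
      BDENS.sm {Q : ℕ | ∃ (hQ : Q.Coprime f) (ρ : PP), ClQ b κ c Q hQ ρ} σ +
      BDENS.sm {Q : ℕ | ∃ (hQ : Q.Coprime f) (ρ : PP), ClQ b κ (-c) Q hQ ρ} σ

/-- PTN_CLT: the number of the primes `= a (mod 3)` in a class, both exponents together.
Proof. Let `f = 9 ∏ p i`, `κ` from `CLSC`. For `q` prime to `f`, `q % 3 = a`, `InCT E π w0 c q` means
`κ q = (w0, c)` for `E = 1` and `κ q = (-w0, -c)` for `E = 2` (`wt (q ^ 4) = 2 wt (q ^ 2)`,
`CL.wt_sq2`-like, for `q` prime to `3`; `2 x = y ↔ x = -y` in `ZMod 3`). By `CLSC` (`a = 2`) and `CLSCS`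
(`a = 1`) the number of the units of `ZMod f` with `M2`, resp. `M1`, and given `κ` is `φ(f) / (2 · 3^(m+1))`.
Upper bound: `DIR` for every such unit (`BDENS.sm_cover`). Lower bound:
for every unit `u` modulo `f` the primes `= u (mod f)` have `sm ≥ (1 / φ(f)) log - K`: all primes
(`PTL/DL.lean: total`) minus the other units, as `DL.cls_lower` (there `f = 9`). -/
def Stmt_CLT : Prop := ∀ (m : ℕ) (π : Fin m → PP) (p : Fin m → ℕ), (∀ i, (p i).Prime) →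
  (∀ i, p i % 3 = 1) → (∀ i, (p i : Eis) = (π i).1 * conj (π i).1) → Function.Injective p →
  ∀ (w0 : ZMod 3) (c : Fin m → ZMod 3) (a : ℕ), (a = 1 ∨ a = 2) →
  ∃ K : ℝ, ∀ σ : ℝ, 1 < σ → σ ≤ 2 →
    1 / 3 ^ (m + 1) * Real.log (1 / (σ - 1)) - K ≤
      BDENS.sm {q : ℕ | q % 3 = a ∧ InCT 1 π w0 c q} σ +
      BDENS.sm {q : ℕ | q % 3 = a ∧ InCT 2 π w0 c q} σ ∧
    BDENS.sm {q : ℕ | q % 3 = a ∧ InCT 1 π w0 c q} σ +
      BDENS.sm {q : ℕ | q % 3 = a ∧ InCT 2 π w0 c q} σ ≤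
      1 / 3 ^ (m + 1) * Real.log (1 / (σ - 1)) + K

/-- PTN_SMT: sets of primes covered twice.
Proof. `BDENS.sm_eq`, `BDENS.ind_summable`: compare the series term by term; the terms with
`n ≤ M` contribute at most a constant (`ind ≤ 1`). (1): for a prime `n > M` in `S`,
`2 ind S ≤ ∑ i ind (T i)` (two different indices contribute `ind S`). (2): for a prime `n > M` at most two indices
`i` contribute, and if one contributes then `n ∈ S`. (3): for `n > M` in `S`, `ind S ≤ ind T₁ + ind T₂`. -/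
def Stmt_SMT : Prop := ∀ (ι : Type) [Fintype ι] (S T₁ T₂ : Set ℕ) (T : ι → Set ℕ) (M : ℕ),
  ((∀ n, n.Prime → M < n → n ∈ S → ∃ i j, i ≠ j ∧ n ∈ T i ∧ n ∈ T j) →
    ∃ K : ℝ, ∀ σ : ℝ, 1 < σ → σ ≤ 2 → 2 * BDENS.sm S σ ≤ ∑ i, BDENS.sm (T i) σ + K) ∧
  ((∀ n, n.Prime → M < n → ∀ i, n ∈ T i → n ∈ S) →
    (∀ n, n.Prime → M < n → ∃ i₁ i₂, ∀ i, n ∈ T i → i = i₁ ∨ i = i₂) →
    ∃ K : ℝ, ∀ σ : ℝ, 1 < σ → σ ≤ 2 → ∑ i, BDENS.sm (T i) σ ≤ 2 * BDENS.sm S σ + K) ∧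
  ((∀ n, n.Prime → M < n → n ∈ S → n ∈ T₁ ∨ n ∈ T₂) →
    ∃ K : ℝ, ∀ σ : ℝ, 1 < σ → σ ≤ 2 →
      BDENS.sm S σ ≤ BDENS.sm T₁ σ + BDENS.sm T₂ σ + K)

end Pool.Agent.PTN


end

section

/-!
# The law of the ranks of prime twists for every `n`: the classes and the final theorems

Everything in `PT`, `PTE`, `PT3`, `PTL` is proved and may be imported or taken as a hypothesis; the
statements of StG, StA, StD may be hypotheses.
-/

set_option autoImplicit false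

open NumberField IsDedekindDomain Finset
open scoped nonZeroDivisors Pointwise

namespace Pool.Agent.PTN

open Pool.Agent.Lib_helper18 Pool.Agent.Lib_helper18.Eis Pool.Agent.Lib_helper84.Cub
open Pool.Agent.PT Pool.Agent.PTE Pool.Agent.PT3 Pool.Agent.PTL

/-- the primes `q = a (mod 3)` with `q^E` in the class `(w0, c)` and rank at least `t` -/
def WR (h n : ℕ) {m : ℕ} (π : Fin m → PP) (w0 : ZMod 3) (c : Fin m → ZMod 3) (a E t : ℕ) :
    Set ℕ := {q : ℕ | q % 3 = a ∧ InCT E π w0 c q ∧ t ≤ CubeRank.rr (BB h n E q)}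

/-- the probability that the kernel of a skew-symmetric `s × s` matrix has dimension at least `t` -/
noncomputable def LI (s t : ℕ) : ℝ := (NK s t : ℝ) / Nat.card (Fin s → Fin s → ZMod 3)

/-- the bound for the tail of the distribution of the rank, `q = 1 (mod 3)` -/
noncomputable def LS (s v t : ℕ) : ℝ :=
  (1 - 1 / 3 ^ s) * LI (s - 1) (t - v) + 1 / 3 ^ s * (if t ≤ v + s + 1 then 1 else 0)

/-! ### Classes, `q = 2 (mod 3)` -/

/-- PTN_CLN: the distribution of the rank in a class, `q = 2 (mod 3)`.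
Proof. As `CLE_thm` in PTL/CL.lean. `s, τ, b, X, Y` from `NBAS`, `P Q P' Q'` from `ESYT`
(`AdN` implies `AdC`), `C`, `Φ` from `DCOT` for `N = 3 ^ h * n` and all pairs `j ≠ i`
(`(N : ℤ) * q ^ E = BB h n E q`), conductor `F = 9 (∏ p i) ∏ f₀ j i`, `κ` from `CLSC`. For `q` prime,
`q > M`, `q % 3 = 2`, `InCT E π w0 c q`: `NBKN` gives `GenBy B (vN + (s - rank M))`, `M = MaT ..`, so
`rr B ≤ vN + (s - rank M)` (`CubeRank.rr_le`); `M` is alternating (`TENT`; `AG B (b i)` from `NADT`) with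
entries from `DCOT`, `M = alt (C + E (Φ - τ))`. So `t ≤ rr B` implies
`t - vN ≤ s - rank M`, and `q` is in `SP`, resp. `SM`, for `t - vN` (for `E = 2` the class of `q` is
`-(w0, c)`). `BDG`. First part: `GenBy B d` for `d ≤ d'` implies `GenBy B d'` (`card ≤`).
`Fin.cons w0 c` is the class. -/
def Stmt_CLN : Prop := ∀ (h n m k : ℕ) (π : Fin m → PP) (p e : Fin m → ℕ) (r f : Fin k → ℕ)
  (w0 : ZMod 3) (c : Fin m → ZMod 3), NF n π p e r f → h ≤ 2 →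
  (∃ M : ℕ, ∀ E q : ℕ, (E = 1 ∨ E = 2) → q.Prime → M < q → q % 3 = 2 → InCT E π w0 c q →
    CubeRank.GenBy (BB h n E q) (vN h n π p e r w0 c + sN h n π p e r w0 c)) ∧
  ∀ t : ℕ, ∃ K : ℝ, ∀ σ : ℝ, 1 < σ → σ ≤ 2 →
    BDENS.sm (WR h n π w0 c 2 1 t) σ + BDENS.sm (WR h n π w0 c 2 2 t) σ ≤
      LI (sN h n π p e r w0 c) (t - vN h n π p e r w0 c) / 3 ^ (m + 1) *
        Real.log (1 / (σ - 1)) + K

/-! ### Classes, `q = 1 (mod 3)` -/

/-- the conclusion of `NHPT` for the basis `v` -/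
def HB (h n : ℕ) {m : ℕ} (π : Fin m → PP) (w0 : ZMod 3) (c : Fin m → ZMod 3) {d : ℕ}
    (v : Fin d → ℤ) : Prop :=
  (∀ i, AdN h n π w0 c (v i)) ∧
    (∀ x : ℤ, AdN h n π w0 c x → ∃ (g : Fin d → ℕ) (u t : ℤ), u ≠ 0 ∧ t ≠ 0 ∧
      x * u ^ 3 = (∏ i, v i ^ g i) * t ^ 3) ∧
    ∀ δ : Fin d → ZMod 3, δ ≠ 0 → ∃ (s : ℕ) (τ : Fin s → Fin 3) (b : Fin (s + 1) → ℤ)
      (X Y : Fin s → ℤ), s + 1 = d ∧
      (∀ i, AdN h n π w0 c (b i)) ∧ (∀ i (π : PP), V π.1 (b i : Eis) ≤ 2) ∧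
      (∀ g : Fin (s + 1) → ℕ, (∃ i, ¬ 3 ∣ g i) → ¬ ∃ t : ℤ, t ^ 3 = ∏ i, b i ^ g i) ∧
      (∀ i j, i ≠ j → ¬ (3 : ℤ) ∣ b i ∨ ¬ (3 : ℤ) ∣ b j) ∧
      (∀ B : ℤ, TyB h n w0 B → LamS B τ (rv b) X Y) ∧
      ∀ ρ : PP, ¬ ρ.1 ∣ (n : Eis) →
        (((∀ i : Fin s, sym ρ.1 (b i.castSucc : Eis) = 0) ∧
          sym ρ.1 (b (Fin.last s) : Eis) ≠ 0) ↔
          ∃ ε : ZMod 3, ε ≠ 0 ∧ ∀ i, sym ρ.1 (v i : Eis) = ε * δ i) ∧
        ((∀ i : Fin s, sym ρ.1 (b i.castSucc : Eis) = 0) →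
          sym ρ.1 (b (Fin.last s) : Eis) ≠ 0 →
          ∀ x : ℤ, AdN h n π w0 c x → sym ρ.1 (x : Eis) = 0 → ∃ (g : Fin s → ℕ) (u t : ℤ),
            u ≠ 0 ∧ t ≠ 0 ∧ x * u ^ 3 = (∏ i, b i.castSucc ^ g i) * t ^ 3)

/-- the primes whose pattern is `± δ` -/
def Pat {d : ℕ} (v : Fin d → ℤ) (δ : Fin d → ZMod 3) : Set ℕ :=
  {q : ℕ | ∃ ρ : PP, (q : Eis) = ρ.1 * conj ρ.1 ∧
    ∃ ε : ZMod 3, ε ≠ 0 ∧ ∀ i, sym ρ.1 (v i : Eis) = ε * δ i}

/-- PTN_DLU: the distribution of the rank for a given pattern, upper bound.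
Proof. `b, τ, X, Y` from `HB` for `δ`; `P Q P' Q'` from `ESYT` for `b` (`AdN` implies `AdC`);
`C`, `Φ`, `N₀` from `DCOU` for `N = 3 ^ h * n` and all pairs `j ≠ i` of `Fin s` (classes `rv b`, numbers
`rs P`, …), conductor `F = 9 (∏ p i) ∏ f₀ j i`, `κ` from `CLSC`, the hypothesis of `BDU` from `CLSCS`.
For `q` prime, `q > M`, in `WR h n π w0 c 1 E t ∩ Pat v δ`: take `ρ` from `Pat`; `ρ ∤ n`; so
`(b i.castSucc)` have `sym ρ = 0`, `sym ρ (b last) ≠ 0` (`HB`). `NBKU` gives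
`rr B ≤ vN + (s - rank M)`, and `M = MaT (rv b) ..` is alternating (`TENT`, `AG B (b i.castSucc)` from
`NADU`; `rv b, rs P, …` is a `SysG` with `SwS`, see `PT3/ECLU.lean`) with entries from `DCOU`:
`M = alt (C + E (Φ + τ))` (a root `r` with `q ∣ r ^ 3 - b j.castSucc` exists by `SPLT`). So `q` is in
`SPU`, resp. `SMU`, for `t - vN`. `BDU`. `2 / 3 ^ (s + 1) = 2 / 3 ^ d`. -/
def Stmt_DLU : Prop := ∀ (h n m k : ℕ) (π : Fin m → PP) (p e : Fin m → ℕ) (r f : Fin k → ℕ)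
  (w0 : ZMod 3) (c : Fin m → ZMod 3) (d : ℕ) (v : Fin d → ℤ), NF n π p e r f → h ≤ 2 →
  HB h n π w0 c v → ∀ (δ : Fin d → ZMod 3), δ ≠ 0 → ∀ t : ℕ,
  ∃ K : ℝ, ∀ σ : ℝ, 1 < σ → σ ≤ 2 →
    BDENS.sm (WR h n π w0 c 1 1 t ∩ Pat v δ) σ + BDENS.sm (WR h n π w0 c 1 2 t ∩ Pat v δ) σ ≤
      2 / 3 ^ d * LI (d - 1) (t - vN h n π p e r w0 c) / 3 ^ (m + 1) *
        Real.log (1 / (σ - 1)) + K

/-- PTN_DLL: the number of the primes of a given pattern, lower bound.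
Proof. `b` from `HB` for `δ`, `P Q P' Q'` from `ESYT`, `f = 9 ∏ p i`, `κ` from `CLSC`; `BDL`. For a prime
`q` (large) with `ClQ b κ (w0, c) q hQ ρ`: `ρ ∤ n`, `HB` gives the pattern, the class of `q` is
`(w0, c)`, so `q ∈ WR h n π w0 c 1 1 0 ∩ Pat v δ`; with `-(w0, c)`: `q ∈ WR h n π w0 c 1 2 0 ∩ Pat v δ`. -/
def Stmt_DLL : Prop := ∀ (h n m k : ℕ) (π : Fin m → PP) (p e : Fin m → ℕ) (r f : Fin k → ℕ)
  (w0 : ZMod 3) (c : Fin m → ZMod 3) (d : ℕ) (v : Fin d → ℤ), NF n π p e r f → h ≤ 2 →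
  HB h n π w0 c v → ∀ (δ : Fin d → ZMod 3), δ ≠ 0 →
  ∃ K : ℝ, ∀ σ : ℝ, 1 < σ → σ ≤ 2 →
    2 / 3 ^ d / 3 ^ (m + 1) * Real.log (1 / (σ - 1)) - K ≤
      BDENS.sm (WR h n π w0 c 1 1 0 ∩ Pat v δ) σ + BDENS.sm (WR h n π w0 c 1 2 0 ∩ Pat v δ) σ

/-- PTN_CLU: the distribution of the rank in a class, `q = 1 (mod 3)`.
Proof. `d = sN`, `v` from `NHPT` (`HB` is its conclusion). Every prime `q % 3 = 1` has a `ρ` (`SPLT`), and the
vector `x = (sym ρ (v i))_i` is `0` or `Pat v x` holds for `q` (`ε = 1`). For two factors `ρ`, `ρ'` of `q`,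
`ρ' = ρ` or `ρ' = conj ρ`, and `x' = ± x` (`SPLT`, `q` large). So the large primes `q % 3 = 1` with
`Pat v 0` (all symbols `0`) are exactly those in no `Pat v δ`, `δ ≠ 0`; every other one is in `Pat v δ`
for exactly two `δ ≠ 0` (`δ = ± x`, different). `ι = {δ // δ ≠ 0}`, `3 ^ d - 1` elements.
(1) Nonzero pattern: `S_E = {q ∈ WR .. 1 E t, not Pat v 0}`, `SMT` (1) with
`T δ = WR .. 1 E t ∩ Pat v δ` and `DLU`: `2 (sm S_1 + sm S_2) ≤ (3^d - 1) (2 / 3^d) LI (d - 1) (t - v) / 3^(m+1) log + K`,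
so `sm S_1 + sm S_2 ≤ (1 - 1 / 3^d) LI (d - 1) (t - v) / 3^(m+1) log + K'`. (2) Zero pattern: let
`Z_E = {q ∈ WR .. 1 E 0, Pat v 0}`, `N_E = {q ∈ WR .. 1 E 0, not Pat v 0}`: `SMT` (2) and `DLL`:
`2 (sm N_1 + sm N_2) ≥ (3^d - 1) (2 / 3^d) / 3^(m+1) log - K`; `CLT` (`a = 1`; the set there is `WR .. 1 E 0`):
`sm Z_1 + sm Z_2 ≤ (1 / 3^d) / 3^(m+1) log + K` (`sm` is additive on disjoint unions). If
`t > v + d + 1` then `Z_E ∩ {t ≤ rr}` contains only small primes by `NBK0` (`rr ≤ vN + 1 + sN`).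
(3) `WR .. 1 E t ⊆ S_E ∪ (Z_E ∩ {t ≤ rr})` (`SMT` (3)). First part of the statement: `NBK0`. -/
def Stmt_CLU : Prop := ∀ (h n m k : ℕ) (π : Fin m → PP) (p e : Fin m → ℕ) (r f : Fin k → ℕ)
  (w0 : ZMod 3) (c : Fin m → ZMod 3), NF n π p e r f → h ≤ 2 →
  (∃ M : ℕ, ∀ E q : ℕ, (E = 1 ∨ E = 2) → q.Prime → M < q → q % 3 = 1 → InCT E π w0 c q →
    CubeRank.GenBy (BB h n E q) (vN h n π p e r w0 c + 1 + sN h n π p e r w0 c)) ∧
  ∀ t : ℕ, ∃ K : ℝ, ∀ σ : ℝ, 1 < σ → σ ≤ 2 →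
    BDENS.sm (WR h n π w0 c 1 1 t) σ + BDENS.sm (WR h n π w0 c 1 2 t) σ ≤
      LS (sN h n π p e r w0 c) (vN h n π p e r w0 c) t / 3 ^ (m + 1) *
        Real.log (1 / (σ - 1)) + K

/-! ### Averages -/

open Classical in
/-- PTN_DOMG: from tails to averages.
Proof. As `DOM.point`, `DOM.dom` in PTL/DOM.lean, which is the case `S E = WS r f w0 E 0`. For a prime
`q > M` in `S E`: `F (R E q) = F 0 + ∑_{t < N} (F (t + 1) - F t) 1(t + 1 ≤ R E q)`; the primes `≤ M`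
contribute a constant. -/
def Stmt_DOMG : Prop := ∀ (S : ℕ → Set ℕ) (R : ℕ → ℕ → ℕ) (P : ℕ → ℝ) (M N : ℕ) (F : ℕ → ℝ),
  (∀ E q, (E = 1 ∨ E = 2) → q.Prime → M < q → q ∈ S E → R E q ≤ N) →
  (∀ t, ∃ K : ℝ, ∀ σ : ℝ, 1 < σ → σ ≤ 2 →
    BDENS.sm {q | q ∈ S 1 ∧ t ≤ R 1 q} σ + BDENS.sm {q | q ∈ S 2 ∧ t ≤ R 2 q} σ ≤
      P t * Real.log (1 / (σ - 1)) + K) →
  Monotone F → 0 ≤ F 0 →
  ∃ K : ℝ, ∀ σ : ℝ, 1 < σ → σ ≤ 2 → ∀ T : Finset ℕ,
    ∑ E ∈ ({1, 2} : Finset ℕ), ∑ q ∈ T,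
      (if q.Prime ∧ q ∈ S E then F (R E q) * (q : ℝ) ^ (-σ) else 0) ≤
      (F 0 * P 0 + ∑ t ∈ Finset.range N, (F (t + 1) - F t) * P (t + 1)) *
        Real.log (1 / (σ - 1)) + K

/-- PTN_LAW: the sums of `DOMG` for the two laws.
Proof. `LI s 0 = 1` (`DOM.NK_zero`), `LI s t = 0` for `s < t`, and
`Esk s G = G 0 + ∑_{j < s} (G (j + 1) - G j) LI s (j + 1)` (`AL.Esk_sum`, see the end of `DOM.dom`). Split
the range `t < v + s` (resp. `v + s + 1`) at `v`; for `t < v` the factor is `LI s 0 = 1`, telescoping sum. For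
the second identity write `LS` as the sum of its two parts; the part
`1 / 3 ^ s * (if ..)` gives `1 / 3 ^ s * F (v + s + 1)` (telescoping). Tails: `AL.Esk_pos`, `AL.Esk_two` for
`LI s 1 ≤ 3 / 8` (`s` even), `LI s 2 ≤ 1 / 24` (`s` odd) (with `Esk s (fun c => if t ≤ c then 1 else 0) = LI s t`,
see `FIN.below`), `AL.Esk_pow`. (5): `s` odd, `x = 1 / 3 ^ s ≤ 1 / 3`:
`LI (s - 1) 1 ≤ 3 / 8 - 9 x / 8` (`AL.Esk_le`), `(1 - x) (3 / 8 - 9 x / 8) + x ≤ 3 / 8`. (6): `s` even: `s = 0`: `LS 0 0 2 = 0`; `s = 2`: `LI 1 2 = 0`,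
`LS 2 0 2 = 1 / 9`; `s ≥ 4`: `(1 - x) / 24 + x ≤ 1 / 9` for `x ≤ 1 / 81`. (7):
`(1 - 1 / 3 ^ s) (4 - 3 / 3 ^ (s - 1)) 3 ^ v + 3 ^ (v + s + 1) / 3 ^ s ≤ 7 · 3 ^ v`. -/
def Stmt_LAW : Prop :=
  (∀ (s v : ℕ) (F : ℕ → ℝ), F 0 * LI s (0 - v) +
    ∑ t ∈ Finset.range (v + s), (F (t + 1) - F t) * LI s (t + 1 - v) =
      Esk s (fun c => F (v + c))) ∧
  (∀ (s v : ℕ) (F : ℕ → ℝ), F 0 * LS s v 0 +
    ∑ t ∈ Finset.range (v + s + 1), (F (t + 1) - F t) * LS s v (t + 1) =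
      (1 - 1 / 3 ^ s) * Esk (s - 1) (fun c => F (v + c)) + 1 / 3 ^ s * F (v + s + 1)) ∧
  (∀ s, Even s → LI s 1 ≤ 3 / 8) ∧ (∀ s, Odd s → LI s 2 ≤ 1 / 24) ∧
  (∀ s, Odd s → LS s 0 1 ≤ 3 / 8) ∧ (∀ s, Even s → LS s 0 2 ≤ 1 / 9) ∧
  (∀ s v : ℕ, Esk s (fun c => (3 : ℝ) ^ (v + c)) ≤ 4 * 3 ^ v) ∧
  ∀ s v : ℕ, (1 - 1 / 3 ^ s) * Esk (s - 1) (fun c => (3 : ℝ) ^ (v + c)) +
    1 / 3 ^ s * (3 : ℝ) ^ (v + s + 1) ≤ 7 * 3 ^ v

/-! ### The sums of the final theorem -/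

open Classical in
/-- The sum of `F(A) / q ^ σ` over the pairs `(q, e)` with `e = 1, 2`, `q` in the finite set `T`, `q` prime,
`q = a (mod 3)`, for which `q ^ e` has the property `W`; `A = n q ^ e`. -/
noncomputable def SumA (n : ℤ) (a : ℕ) (W : ℤ → Prop) (F : ℤ → ℝ) (σ : ℝ) (T : Finset ℕ) : ℝ :=
  ∑ e ∈ ({1, 2} : Finset ℕ), ∑ q ∈ T,
    if q.Prime ∧ q % 3 = a ∧ W (q ^ e) then F (n * q ^ e) * (q : ℝ) ^ (-σ) else 0

/-- The sum of `F(A)` over the `A = n q ^ e` such that `q ^ e` has the property `W` is at most `x` times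
`log (1 / (σ - 1))`, up to a constant. -/
def AboveA (n : ℤ) (a : ℕ) (W : ℤ → Prop) (F : ℤ → ℝ) (x : ℝ) : Prop :=
  ∃ K : ℝ, ∀ σ : ℝ, 1 < σ → σ ≤ 2 → ∀ T : Finset ℕ,
    SumA n a W F σ T ≤ x * Real.log (1 / (σ - 1)) + K

/-- The sum of `F(A)` over the `A = n q ^ e` such that `q ^ e` has the property `W` is at least `x` times
`log (1 / (σ - 1))`, up to a constant. -/
def BelowA (n : ℤ) (a : ℕ) (W : ℤ → Prop) (F : ℤ → ℝ) (x : ℝ) : Prop :=
  ∃ K : ℝ, ∀ σ : ℝ, 1 < σ → σ ≤ 2 → ∃ T : Finset ℕ,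
    x * Real.log (1 / (σ - 1)) - K ≤ SumA n a W F σ T

/-- `y` is in the class `(w0, c)` -/
def Kl {m : ℕ} (π : Fin m → PP) (w0 : ZMod 3) (c : Fin m → ZMod 3) (y : ℤ) : Prop :=
  wt (y ^ 2) = w0 ∧ ∀ i, sym (π i).1 (y : Eis) = c i

open Classical in
/-- PTN_CAB: averages in a class.
Proof. `CLN` (`a = 2`), `CLU` (`a = 1`), `DOMG` with `S E = {q | q % 3 = a ∧ InCT E π w0 c q}` (which is
`WR .. a E 0` up to the trivial condition), `R E q = rr (BB h n E q)`, `N = vN + sN` (resp.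
`vN + sN + 1`; `CubeRank.rr_le`), `P t = LI sN (t - vN) / 3 ^ (m + 1)`, resp. `LS sN vN t / 3 ^ (m + 1)`, and `LAW`.
For large `q` (`q ≠ p i`, i.e. `q` prime to `n`): `Kl π w0 c (q ^ E)` iff `InCT E π w0 c q`
(`sym (π i) (q ^ E) = E sym (π i) q`); for `q = p i` both sides may differ, finitely many `q`: a
constant (bound the sum by the sum over the large `q` plus finitely many terms, each at most
`F (R E q)`). -/
def Stmt_CAB : Prop := ∀ (h n m k : ℕ) (π : Fin m → PP) (p e : Fin m → ℕ) (r f : Fin k → ℕ)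
  (w0 : ZMod 3) (c : Fin m → ZMod 3), NF n π p e r f → h ≤ 2 →
  ∀ F : ℕ → ℝ, Monotone F → 0 ≤ F 0 →
  AboveA ((3 ^ h * n : ℕ) : ℤ) 2 (Kl π w0 c) (fun A => F (CubeRank.rr A))
    (Esk (sN h n π p e r w0 c) (fun x => F (vN h n π p e r w0 c + x)) / 3 ^ (m + 1)) ∧
  AboveA ((3 ^ h * n : ℕ) : ℤ) 1 (Kl π w0 c) (fun A => F (CubeRank.rr A))
    (((1 - 1 / 3 ^ sN h n π p e r w0 c) *
        Esk (sN h n π p e r w0 c - 1) (fun x => F (vN h n π p e r w0 c + x)) +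
      1 / 3 ^ sN h n π p e r w0 c *
        F (vN h n π p e r w0 c + sN h n π p e r w0 c + 1)) / 3 ^ (m + 1))

/-- PTN_CBE: lower bounds in a class.
Proof. Tails from `CLN`, `CLU`, total number from `CLT` (both for the sets
`{q | q % 3 = a ∧ InCT E π w0 c q}`): as `DOM.low` in PTL/DOM.lean. The finite set `T` is obtained as in
`DOM.approx`. For large primes `q` not in `WR .. t` the rank is `< t`, so `R A` holds by the hypothesis
(`GenBy B (rr B)` by `CubeRank.gen_rr` and the first parts of `CLN`, `CLU`). `Kl` and `InCT` as in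
`CAB` (only large `q` are needed). -/
def Stmt_CBE : Prop := ∀ (h n m k : ℕ) (π : Fin m → PP) (p e : Fin m → ℕ) (r f : Fin k → ℕ)
  (w0 : ZMod 3) (c : Fin m → ZMod 3), NF n π p e r f → h ≤ 2 → ∀ (t : ℕ) (R : ℤ → Prop),
  (∀ A : ℤ, A ≠ 0 → CubeRank.GenBy A (CubeRank.rr A) → CubeRank.rr A < t → R A) →
  BelowA ((3 ^ h * n : ℕ) : ℤ) 2 (Kl π w0 c) (fun A => tf (R A))
    ((1 - LI (sN h n π p e r w0 c) (t - vN h n π p e r w0 c)) / 3 ^ (m + 1)) ∧
  BelowA ((3 ^ h * n : ℕ) : ℤ) 1 (Kl π w0 c) (fun A => tf (R A))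
    ((1 - LS (sN h n π p e r w0 c) (vN h n π p e r w0 c) t) / 3 ^ (m + 1))

/-- PTN_SUMA: sums over the classes.
Proof. For every `y` exactly one `(w0, c)` satisfies `Kl π w0 c y`. (1) the sums are additive over
the classes; add the bounds. (2) the same with the union of the finite sets `T` (the summands are
`≥ 0`, see `FIN.Sum_mono`, `FIN.Below_all` in PTL/FIN.lean). (3), (4): `log (1 / (σ - 1)) ≥ 0`
(`FIN.log_nn`, `FIN.Above.mono`). -/
def Stmt_SUMA : Prop := ∀ (n : ℤ) (a m : ℕ) (π : Fin m → PP) (F : ℤ → ℝ),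
  (∀ x : ZMod 3 × (Fin m → ZMod 3) → ℝ, (∀ y, AboveA n a (Kl π y.1 y.2) F (x y)) →
    AboveA n a (fun _ => True) F (∑ y, x y)) ∧
  (∀ x : ZMod 3 × (Fin m → ZMod 3) → ℝ, (∀ A, 0 ≤ F A) →
    (∀ y, BelowA n a (Kl π y.1 y.2) F (x y)) → BelowA n a (fun _ => True) F (∑ y, x y)) ∧
  (∀ (W : ℤ → Prop) (x y : ℝ), x ≤ y → AboveA n a W F x → AboveA n a W F y) ∧
  ∀ (W : ℤ → Prop) (x y : ℝ), x ≤ y → BelowA n a W F y → BelowA n a W F x

open Classical in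
/-- PTN_ALLA: the averages over all `A`.
Proof. `CAB` for `F = 3 ^ ·`, `LAW` (7), (8), `SUMA`, `NSUM`:
`∑ 4 · 3 ^ v / 3 ^ (m + 1) ≤ 4 (5 / 3) ^ (m + 1)`. Lower bounds: by `NZER` there are at least `2 ^ (m + 1)`
classes with `v = 0` and not (`h = 0` and `wt (n²) + w0 = 0`); for these `NDIM` gives
`sN + [h = 2] = k + [h ≠ 0]` (`actR` is `h = 2` then), so `sN = k + [h = 1]`. `CBE` with
`R A = ¬ ∃ X Y, X ^ 3 + Y ^ 3 = A`, `t = 1` (`DOM.no_sol` in PTL/DOM.lean), or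
`R A = rr A ≤ 1`, `t = 2`; `LAW` (3)-(6); the other classes have the lower bound `0` (empty `T`; or
`BelowA _ _ _ _ 0` by `T = ∅`). `1 - 3 / 8 = 5 / 8`, `1 - 1 / 24`, `1 - 1 / 9`. -/
def Stmt_ALLA : Prop := ∀ (h n m k : ℕ) (π : Fin m → PP) (p e : Fin m → ℕ) (r f : Fin k → ℕ),
  NF n π p e r f → h ≤ 2 →
  AboveA ((3 ^ h * n : ℕ) : ℤ) 2 (fun _ => True) (fun A => 3 ^ CubeRank.rr A)
    (4 * (5 / 3) ^ (m + 1)) ∧
  AboveA ((3 ^ h * n : ℕ) : ℤ) 1 (fun _ => True) (fun A => 3 ^ CubeRank.rr A)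
    (7 * (5 / 3) ^ (m + 1)) ∧
  (Even (k + if h = 1 then 1 else 0) →
    BelowA ((3 ^ h * n : ℕ) : ℤ) 2 (fun _ => True)
      (fun A => tf (¬ ∃ X Y : ℚ, X ^ 3 + Y ^ 3 = (A : ℚ))) (5 / 8 * (2 / 3) ^ (m + 1)) ∧
    BelowA ((3 ^ h * n : ℕ) : ℤ) 1 (fun _ => True) (fun A => tf (CubeRank.rr A ≤ 1))
      (8 / 9 * (2 / 3) ^ (m + 1))) ∧
  (Odd (k + if h = 1 then 1 else 0) →
    BelowA ((3 ^ h * n : ℕ) : ℤ) 2 (fun _ => True) (fun A => tf (CubeRank.rr A ≤ 1))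
      (23 / 24 * (2 / 3) ^ (m + 1)) ∧
    BelowA ((3 ^ h * n : ℕ) : ℤ) 1 (fun _ => True)
      (fun A => tf (¬ ∃ X Y : ℚ, X ^ 3 + Y ^ 3 = (A : ℚ))) (5 / 8 * (2 / 3) ^ (m + 1)))

/-! ### Units modulo `9 n` -/

/-- PTN_TRU: the units modulo `9 N`, `N = 3 ^ h n`, and the classes.
Proof. `f = 9 N`: `9 ∣ f`, `p i ∣ f`; `κ` from `CLSC`: for a unit `u` with representative
`U = (u : ZMod f).val` (prime to `f`), `κ u = (wt (U²), sym (π i) U)`. (1): the number of the units with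
`κ u = (w0, c)` is the sum of the numbers with `M2` and `M1` (every unit is `1` or `2` modulo `3`), by `CLSC` and
`CLSCS` `φ(f) / 3 ^ (m + 1)`. (2): if `9 N ∣ y - U x³` and `y` is prime to `9 N` then `x` is prime to
`9 N`, `wt (y²) = wt (U² x⁶)` (`wt` depends only on the class modulo `9`) `= wt (U²) + 3 wt (x²)`, and
`sym (π i) y = sym (π i) (U x³) = sym (π i) U + 3 sym (π i) x` (`sym` depends only on the class modulo `π i`).
-/
def Stmt_TRU : Prop := ∀ (h n m k : ℕ) (π : Fin m → PP) (p e : Fin m → ℕ) (r f : Fin k → ℕ),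
  NF n π p e r f →
  (∀ (w0 : ZMod 3) (c : Fin m → ZMod 3),
    Nat.card {u : (ZMod (9 * (3 ^ h * n)))ˣ //
      Kl π w0 c (((u : ZMod (9 * (3 ^ h * n))).val : ℕ) : ℤ)} * 3 ^ (m + 1) =
      (9 * (3 ^ h * n)).totient) ∧
  ∀ (u : (ZMod (9 * (3 ^ h * n)))ˣ) (w0 : ZMod 3) (c : Fin m → ZMod 3) (y x : ℤ),
    Kl π w0 c (((u : ZMod (9 * (3 ^ h * n))).val : ℕ) : ℤ) →
    IsCoprime y ((9 * (3 ^ h * n) : ℕ) : ℤ) →
    ((9 * (3 ^ h * n) : ℕ) : ℤ) ∣ y - (((u : ZMod (9 * (3 ^ h * n))).val : ℕ) : ℤ) * x ^ 3 →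
    Kl π w0 c y

/-- PTN_NFE: normal form.
Proof. As in PT3/MAI3.lean (or PT/MAIN, PTE/MAINS). Let `h` be the exponent of `3` in `N` (`≤ 2`),
`n = N / 3 ^ h`, `p` an enumeration of the primes `1 (mod 3)` dividing `N`, `e` their exponents, `π` from `SPLT` or
`SPP`, `r`, `f` for the primes `2 (mod 3)`. -/
def Stmt_NFE : Prop := ∀ N : ℕ, 0 < N → (∀ p : ℕ, p.Prime → ¬ p ^ 3 ∣ N) →
  ∃ (h n m k : ℕ) (π : Fin m → PP) (p e : Fin m → ℕ) (r f : Fin k → ℕ), NF n π p e r f ∧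
    h ≤ 2 ∧ h = N.factorization 3 ∧ N = 3 ^ h * n ∧
    m = (N.primeFactors.filter (fun p => p % 3 = 1)).card ∧
    k = (N.primeFactors.filter (fun p => p % 3 = 2)).card

open Classical in
/-- PTN_MAINN: the theorem.
Proof. `NFE`, `NDIM`, `NSUM`, `NZER`, `CAB`, `ALLA`, `TRU`, `SUMA`, `CLN`, `CLU`. For a unit `u` put
`w0 = wt (U²)`, `c i = sym (π i) U`, `U = u.val`, `v u = vN .. w0 c`, `s u = sN .. w0 c`. The condition
`N u = ± 1 (mod 9)` (for `h = 0`) means `wt ((n U)²) = 0`, `wt (n²) + w0 = 0` (`FIN.wt_res`, `FIN.cls_iff` in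
PTL/FIN.lean; `wt_mul`). `NDIM` gives (1) (cases `h = 0, 1, 2`). (2), (3): sum over the classes with `TRU` (1),
`NSUM`, `NZER`. (4): `CAB` and `TRU` (2): for `q > 9 N` prime, `q ^ e = u x³ (mod 9 N)` implies
`Kl π w0 c (q ^ e)`; the finitely many other `q` contribute a constant (the summands are `≥ 0`:
`F` monotone, `F 0 ≥ 0`). (5): `CLN`, `CLU` for every class (finitely many), `CubeRank.gen_rr`. (6): `ALLA`. -/
def Stmt_MAINN : Prop := ∀ N : ℕ, 0 < N → (∀ p : ℕ, p.Prime → ¬ p ^ 3 ∣ N) →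
  ∀ m k : ℕ, m = (N.primeFactors.filter (fun p => p % 3 = 1)).card →
  k = (N.primeFactors.filter (fun p => p % 3 = 2)).card →
  (∃ v s : (ZMod (9 * N))ˣ → ℕ,
    (∀ u : (ZMod (9 * N))ˣ, s u + (if ¬ 3 ∣ N ∧ ((N * (u : ZMod (9 * N)).val) % 9 = 1 ∨
        (N * (u : ZMod (9 * N)).val) % 9 = 8) then 1 else 0) =
      v u + k + (if 3 ∣ N ∧ ¬ 9 ∣ N then 1 else 0)) ∧
    (∑ᶠ u : (ZMod (9 * N))ˣ, (3 : ℝ) ^ v u ≤ (5 / 3) ^ (m + 1) * (9 * N).totient) ∧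
    ((2 / 3 : ℝ) ^ (m + 1) * (9 * N).totient ≤ Nat.card {u : (ZMod (9 * N))ˣ // v u = 0}) ∧
    ∀ (u : (ZMod (9 * N))ˣ) (F : ℕ → ℝ), Monotone F → 0 ≤ F 0 →
      AboveA N 2 (fun y => ∃ x : ℤ, ((9 * N : ℕ) : ℤ) ∣ y - ((u : ZMod (9 * N)).val : ℤ) * x ^ 3)
        (fun A => F (CubeRank.rr A)) (Esk (s u) (fun x => F (v u + x)) / 3 ^ (m + 1)) ∧
      AboveA N 1 (fun y => ∃ x : ℤ, ((9 * N : ℕ) : ℤ) ∣ y - ((u : ZMod (9 * N)).val : ℤ) * x ^ 3)
        (fun A => F (CubeRank.rr A))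
        (((1 - 1 / 3 ^ s u) * Esk (s u - 1) (fun x => F (v u + x)) +
          1 / 3 ^ s u * F (v u + s u + 1)) / 3 ^ (m + 1))) ∧
  (∃ M : ℕ, ∀ q e : ℕ, q.Prime → M < q → (e = 1 ∨ e = 2) →
    CubeRank.GenBy (N * q ^ e) (CubeRank.rr (N * q ^ e))) ∧
  AboveA N 2 (fun _ => True) (fun A => 3 ^ CubeRank.rr A) (4 * (5 / 3) ^ (m + 1)) ∧
  AboveA N 1 (fun _ => True) (fun A => 3 ^ CubeRank.rr A) (7 * (5 / 3) ^ (m + 1)) ∧
  (Even (k + if 3 ∣ N ∧ ¬ 9 ∣ N then 1 else 0) →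
    BelowA N 2 (fun _ => True)
      (fun A => tf (¬ ∃ X Y : ℚ, X ^ 3 + Y ^ 3 = (A : ℚ))) (5 / 8 * (2 / 3) ^ (m + 1)) ∧
    BelowA N 1 (fun _ => True) (fun A => tf (CubeRank.rr A ≤ 1)) (8 / 9 * (2 / 3) ^ (m + 1))) ∧
  (Odd (k + if 3 ∣ N ∧ ¬ 9 ∣ N then 1 else 0) →
    BelowA N 2 (fun _ => True) (fun A => tf (CubeRank.rr A ≤ 1)) (23 / 24 * (2 / 3) ^ (m + 1)) ∧
    BelowA N 1 (fun _ => True)
      (fun A => tf (¬ ∃ X Y : ℚ, X ^ 3 + Y ^ 3 = (A : ℚ))) (5 / 8 * (2 / 3) ^ (m + 1)))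

end Pool.Agent.PTN


end

section

/-!
# The law of the ranks of prime twists for every `n`: sharper final statements

Additions to StF: the sharper counts for `h = 1`, the classes with `N q^e = ± 1 (mod 9)`, lower bounds
for the single classes modulo `9 N`.
-/

set_option autoImplicit false

open NumberField IsDedekindDomain Finset
open scoped nonZeroDivisors Pointwise

namespace Pool.Agent.PTN

open Pool.Agent.Lib_helper18 Pool.Agent.Lib_helper18.Eis Pool.Agent.Lib_helper84.Cub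
open Pool.Agent.PT Pool.Agent.PTE Pool.Agent.PT3 Pool.Agent.PTL

/-- PTN_NSU1: the average of `3 ^ v` over the classes, `h = 1`.
Proof. As `NSUM` (see PTN/NSUM.lean): `actR` is false, so `y 0 = 0` for `y ∈ VS`; only the term
`3 · 5^m` remains. -/
def Stmt_NSU1 : Prop := ∀ (n m k : ℕ) (π : Fin m → PP) (p e : Fin m → ℕ) (r f : Fin k → ℕ),
  NF n π p e r f →
  ∑ x : ZMod 3 × (Fin m → ZMod 3), 3 ^ vN 1 n π p e r x.1 x.2 ≤ 3 * 5 ^ m

/-- PTN_NZE1: the number of the classes with `v = 0`, `h = 1`.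
Proof. As `NZER` (see PTN/NZER.lean): all three values of `w0` are allowed. -/
def Stmt_NZE1 : Prop := ∀ (n m k : ℕ) (π : Fin m → PP) (p e : Fin m → ℕ) (r f : Fin k → ℕ),
  NF n π p e r f →
  3 * 2 ^ m ≤ Nat.card {x : ZMod 3 × (Fin m → ZMod 3) // vN 1 n π p e r x.1 x.2 = 0}

/-- PTN_NZE0: the number of the classes with `v = 0`, `h = 0`, `B = ± 1 (mod 9)`.
Proof. Take `w0 = - wt (n²)`. `y ∈ VS` gives `vecMul y A = 0` for the square matrix `A` with the columns `inr j`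
(column `0`) and `inl i.succ` (column `i.succ`) of `Nm`; `A 0 0 = wt (r j ^ 2) ≠ 0`, and `A` depends
on `c` through `- c i` at the places `(i.succ, i.succ)`. `EDC` (PT3): `A` is invertible for at
least `2 ^ m` of the `c`; then `VS = ⊥`, `vN = 0`. -/
def Stmt_NZE0 : Prop := ∀ (n m k : ℕ) (π : Fin m → PP) (p e : Fin m → ℕ) (r f : Fin k → ℕ),
  NF n π p e r f → (∃ j, wt ((r j : ℤ) ^ 2) ≠ 0) →
  2 ^ m ≤ Nat.card {x : ZMod 3 × (Fin m → ZMod 3) // vN 0 n π p e r x.1 x.2 = 0 ∧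
    wt ((n : ℤ) ^ 2) + x.1 = 0}

/-- PTN_TRC: converse of `TRU`: numbers of the same class differ by a cube modulo `9 N`.
Proof. Let `G` be the group of units modulo `f = 9 N`, `N = 3 ^ h n`, `κ : G → F_3^(m+1)` from `CLSC` (`9 ∣ f`,
`p i ∣ f`), `κ u = (wt (U²), sym (π i) U)`. `κ` is surjective (`CLSC`: every fibre is nonempty, as
`φ(f) > 0`), so its kernel has `φ(f) / 3^(m+1)` elements, and it contains the group of cubes, which
has `φ(f) / #G[3]` elements, `G[3] = {x | x³ = 1}`. `#G[3] ≤ 3^(m+1)`: `x ∈ G[3]` is determined by its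
classes modulo `3^(h+2)`, `p i ^ e i`, `r j ^ f j` (pairwise coprime, product `f`); modulo an odd prime
power the units are cyclic, so there are at most `3` solutions of `x³ = 1` (`IsCyclic.card_pow_eq_one_le`,
`ZMod.isCyclic_units_of_prime_pow` or similar), and modulo `r j ^ f j` only `x = 1`, since `3` does not divide
`φ(r j ^ f j) = r j ^ (f j - 1) (r j - 1)`. So the kernel is the group of cubes. If `y` and `U` have
the same class then `y / U ∈ G` is in the kernel, `y = U x³`. -/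
def Stmt_TRC : Prop := ∀ (h n m k : ℕ) (π : Fin m → PP) (p e : Fin m → ℕ) (r f : Fin k → ℕ),
  NF n π p e r f →
  ∀ (u : (ZMod (9 * (3 ^ h * n)))ˣ) (w0 : ZMod 3) (c : Fin m → ZMod 3) (y : ℤ),
    Kl π w0 c (((u : ZMod (9 * (3 ^ h * n))).val : ℕ) : ℤ) → Kl π w0 c y →
    IsCoprime y ((9 * (3 ^ h * n) : ℕ) : ℤ) →
    ∃ x : ℤ, ((9 * (3 ^ h * n) : ℕ) : ℤ) ∣
      y - (((u : ZMod (9 * (3 ^ h * n))).val : ℕ) : ℤ) * x ^ 3

open Classical in
/-- PTN_ALLQ: the averages over all `A`, sharper for `h = 1`.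
Proof. As `ALLA` (see PTN/ALLA.lean), for `h = 1` with `NSU1`, `NZE1` in place of `NSUM`, `NZER`. -/
def Stmt_ALLQ : Prop := ∀ (h n m k : ℕ) (π : Fin m → PP) (p e : Fin m → ℕ) (r f : Fin k → ℕ),
  NF n π p e r f → h ≤ 2 → ∀ μ : ℕ, μ = m + (if h = 1 then 0 else 1) →
  AboveA ((3 ^ h * n : ℕ) : ℤ) 2 (fun _ => True) (fun A => 3 ^ CubeRank.rr A)
    (4 * (5 / 3) ^ μ) ∧
  AboveA ((3 ^ h * n : ℕ) : ℤ) 1 (fun _ => True) (fun A => 3 ^ CubeRank.rr A)
    (7 * (5 / 3) ^ μ) ∧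
  (Even (k + if h = 1 then 1 else 0) →
    BelowA ((3 ^ h * n : ℕ) : ℤ) 2 (fun _ => True)
      (fun A => tf (¬ ∃ X Y : ℚ, X ^ 3 + Y ^ 3 = (A : ℚ))) (5 / 8 * (2 / 3) ^ μ) ∧
    BelowA ((3 ^ h * n : ℕ) : ℤ) 1 (fun _ => True) (fun A => tf (CubeRank.rr A ≤ 1))
      (8 / 9 * (2 / 3) ^ μ)) ∧
  (Odd (k + if h = 1 then 1 else 0) →
    BelowA ((3 ^ h * n : ℕ) : ℤ) 2 (fun _ => True) (fun A => tf (CubeRank.rr A ≤ 1))
      (23 / 24 * (2 / 3) ^ μ) ∧
    BelowA ((3 ^ h * n : ℕ) : ℤ) 1 (fun _ => True)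
      (fun A => tf (¬ ∃ X Y : ℚ, X ^ 3 + Y ^ 3 = (A : ℚ))) (5 / 8 * (2 / 3) ^ μ))

/-- `y = u x³ (mod 9 N)` for some `x` -/
def Cu (N : ℕ) (u : (ZMod (9 * N))ˣ) (y : ℤ) : Prop :=
  ∃ x : ℤ, ((9 * N : ℕ) : ℤ) ∣ y - ((u : ZMod (9 * N)).val : ℤ) * x ^ 3

/-- `N u = ± 1 (mod 9)` -/
def Nu1 (N : ℕ) (u : (ZMod (9 * N))ˣ) : Prop :=
  (N * (u : ZMod (9 * N)).val) % 9 = 1 ∨ (N * (u : ZMod (9 * N)).val) % 9 = 8

open Classical in
/-- PTN_MAINQ: the theorem.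
Proof. As `MAINN` (see PTN/MAINN.lean; `Nu1 N u` implies `3 ∤ N`), with `ALLQ`, and for the
additional statements: the last part of the first block: `CBE` for the class of `u` (`v u = 0`,
`R A` the negation with `t = 1`, or `R A = rr A ≤ 1`, `t = 2`), `LAW` (3)-(6), and
`TRC`: for large `q` of the class, `Cu N u (q ^ e)`. The lower bound for the number of the `u` with
`Nu1 N u` and `v u = 0`: `NZE0` and `TRU` (1) (a prime `p ∣ N` with `p % 9 = 2` or `5` is one of the `r j`, and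
`wt (p ^ 2) ≠ 0`, `FIN.p_wt` in PTL/FIN.lean); each class has `φ(9 N) / 3 ^ (m + 1)` units. -/
def Stmt_MAINQ : Prop := ∀ N : ℕ, 0 < N → (∀ p : ℕ, p.Prime → ¬ p ^ 3 ∣ N) →
  ∀ m k δ μ : ℕ, m = (N.primeFactors.filter (fun p => p % 3 = 1)).card →
  k = (N.primeFactors.filter (fun p => p % 3 = 2)).card →
  δ = (if 3 ∣ N ∧ ¬ 9 ∣ N then 1 else 0) → μ + δ = m + 1 →
  (∃ v s : (ZMod (9 * N))ˣ → ℕ,
    (∀ u : (ZMod (9 * N))ˣ, s u + (if Nu1 N u then 1 else 0) = v u + k + δ) ∧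
    (∑ᶠ u : (ZMod (9 * N))ˣ, (3 : ℝ) ^ v u ≤ (5 / 3) ^ μ * (9 * N).totient) ∧
    ((2 / 3 : ℝ) ^ μ * (9 * N).totient ≤
      Nat.card {u : (ZMod (9 * N))ˣ // v u = 0 ∧ ¬ Nu1 N u}) ∧
    (¬ 3 ∣ N → (∃ p : ℕ, p.Prime ∧ p ∣ N ∧ (p % 9 = 2 ∨ p % 9 = 5)) →
      1 / 3 * (2 / 3 : ℝ) ^ m * (9 * N).totient ≤
        Nat.card {u : (ZMod (9 * N))ˣ // v u = 0 ∧ Nu1 N u}) ∧
    (∀ (u : (ZMod (9 * N))ˣ) (F : ℕ → ℝ), Monotone F → 0 ≤ F 0 →
      AboveA N 2 (Cu N u) (fun A => F (CubeRank.rr A))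
        (Esk (s u) (fun x => F (v u + x)) / 3 ^ (m + 1)) ∧
      AboveA N 1 (Cu N u) (fun A => F (CubeRank.rr A))
        (((1 - 1 / 3 ^ s u) * Esk (s u - 1) (fun x => F (v u + x)) +
          1 / 3 ^ s u * F (v u + s u + 1)) / 3 ^ (m + 1))) ∧
    ∀ u : (ZMod (9 * N))ˣ, v u = 0 →
      (Even (s u) →
        BelowA N 2 (Cu N u) (fun A => tf (¬ ∃ X Y : ℚ, X ^ 3 + Y ^ 3 = (A : ℚ)))
          (5 / 8 / 3 ^ (m + 1)) ∧
        BelowA N 1 (Cu N u) (fun A => tf (CubeRank.rr A ≤ 1)) (8 / 9 / 3 ^ (m + 1))) ∧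
      (Odd (s u) →
        BelowA N 2 (Cu N u) (fun A => tf (CubeRank.rr A ≤ 1)) (23 / 24 / 3 ^ (m + 1)) ∧
        BelowA N 1 (Cu N u) (fun A => tf (¬ ∃ X Y : ℚ, X ^ 3 + Y ^ 3 = (A : ℚ)))
          (5 / 8 / 3 ^ (m + 1)))) ∧
  (∃ M : ℕ, ∀ q e : ℕ, q.Prime → M < q → (e = 1 ∨ e = 2) →
    CubeRank.GenBy (N * q ^ e) (CubeRank.rr (N * q ^ e))) ∧
  AboveA N 2 (fun _ => True) (fun A => 3 ^ CubeRank.rr A) (4 * (5 / 3) ^ μ) ∧
  AboveA N 1 (fun _ => True) (fun A => 3 ^ CubeRank.rr A) (7 * (5 / 3) ^ μ) ∧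
  (Even (k + δ) →
    BelowA N 2 (fun _ => True)
      (fun A => tf (¬ ∃ X Y : ℚ, X ^ 3 + Y ^ 3 = (A : ℚ))) (5 / 8 * (2 / 3) ^ μ) ∧
    BelowA N 1 (fun _ => True) (fun A => tf (CubeRank.rr A ≤ 1)) (8 / 9 * (2 / 3) ^ μ)) ∧
  (Odd (k + δ) →
    BelowA N 2 (fun _ => True) (fun A => tf (CubeRank.rr A ≤ 1)) (23 / 24 * (2 / 3) ^ μ) ∧
    BelowA N 1 (fun _ => True)
      (fun A => tf (¬ ∃ X Y : ℚ, X ^ 3 + Y ^ 3 = (A : ℚ))) (5 / 8 * (2 / 3) ^ μ))

end Pool.Agent.PTN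


end
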