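import Mathlib
import Pool.Agent.PTDM.C22
import Pool.Agent.PTDM.C28
import Pool.Agent.PTDM.C39

/-! Parts: PTL.DL, PTN.KID, PTN.CLT -/

section

/-!
# Prime power twists: lower bound for the number of primes in a class modulo `9`
-/

set_option autoImplicit false

open NumberField Finset

namespace Pool.Agent.PTL

open Pool.Agent.PT Pool.Agent.Lib_helper18 Pool.Agent.Lib_helper18.Eis Pool.Agent.Lib_helper84.Cub

namespace DL

open BDENS

theorem sm_nonneg (S : Set ℕ) (σ : ℝ) : 0 ≤ sm S σ := by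
  rw [sm_eq]
  exact tsum_nonneg fun n => ind_nonneg S σ n

theorem sm_mono {S T : Set ℕ} (h : ∀ n, n.Prime → n ∈ S → n ∈ T) {σ : ℝ} (hσ : 1 < σ) :
    sm S σ ≤ sm T σ := by
  rw [sm_eq, sm_eq]
  refine (ind_summable S hσ).tsum_le_tsum (fun n => ?_) (ind_summable T hσ)
  by_cases hn : n.Prime ∧ n ∈ S
  · rw [ind_mem hn.1 hn.2, ind_mem hn.1 (h n hn.1 hn.2)]
  · rw [ind_not hn]
    exact ind_nonneg _ _ _

theorem total_of (L : Type) [Field L] [NumberField L] [IsGalois ℚ L] :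
    ∃ C : ℝ, ∀ σ : ℝ, 1 < σ → σ ≤ 2 → Real.log (1 / (σ - 1)) - C ≤ sm Set.univ σ := by
  obtain ⟨C, hC⟩ := RI.FROBD_thm L (T := Set.univ) fun _ _ _ _ _ => Set.mem_univ _
  refine ⟨C, fun σ h1 h2 => ?_⟩
  have h3 := hC σ h1 h2
  have h4 : (Nat.card (Set.univ : Set (L ≃ₐ[ℚ] L)) : ℝ) / Nat.card (L ≃ₐ[ℚ] L) = 1 := by
    rw [Nat.card_coe_set_eq, Set.ncard_univ]
    exact div_self (Nat.cast_ne_zero.2 Nat.card_pos.ne')
  rw [h4, one_mul] at h3
  refine h3.trans ?_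
  exact sm_mono (fun n _ _ => Set.mem_univ n) h1

/-- all primes -/
theorem total : ∃ C : ℝ, ∀ σ : ℝ, 1 < σ → σ ≤ 2 →
    Real.log (1 / (σ - 1)) - C ≤ sm Set.univ σ := by
  have hgal : @IsGalois ℚ _ ℚ _ DivisionRing.toRatAlgebra := by
    have h : (DivisionRing.toRatAlgebra : Algebra ℚ ℚ) = Algebra.id ℚ := Subsingleton.elim _ _
    rw [h]
    infer_instance
  exact @total_of ℚ _ _ hgal

/-- a class modulo `9` -/
theorem cls_lower (hDIR : DIR) (a : (ZMod 9)ˣ) : ∃ C : ℝ, ∀ σ : ℝ, 1 < σ → σ ≤ 2 →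
    1 / 6 * Real.log (1 / (σ - 1)) - C ≤ sm {q : ℕ | (q : ZMod 9) = a} σ := by
  classical
  obtain ⟨C0, hC0⟩ := total
  choose DC hDC using fun b : (ZMod 9)ˣ => hDIR 9 b (by norm_num)
  refine ⟨C0 + 2 + ∑ b ∈ (Finset.univ : Finset (ZMod 9)ˣ).erase a, DC b, fun σ h1 h2 => ?_⟩
  have e0 := hC0 σ h1 h2
  have e1 := sm_add_le Set.univ ∅ {n : ℕ | n ≠ 3} {3} (fun n _ hA _ => ⟨by
    rw [Finset.mem_singleton] at hA
    exact hA, fun h => h⟩) (fun n _ _ h => absurd h (Set.notMem_empty n)) h1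
  have e2 := sm_cover {n : ℕ | n ≠ 3} (Finset.univ : Finset (ZMod 9)ˣ) (fun n hn hn3 => by
    have h3 : n.Coprime 9 := by
      have h4 : (9 : ℕ) = 3 ^ 2 := by norm_num
      rw [h4]
      apply Nat.Coprime.pow_right
      exact (Nat.coprime_primes hn Nat.prime_three).2 hn3
    exact ⟨ZMod.unitOfCoprime n h3, Finset.mem_univ _, (ZMod.coe_unitOfCoprime n h3).symm⟩) h1
  have e3 := sm_nonneg ∅ σ
  rw [← Finset.add_sum_erase _ _ (Finset.mem_univ a)] at e2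
  have e4 : ∑ b ∈ (Finset.univ : Finset (ZMod 9)ˣ).erase a,
      ∑' q : {q : ℕ // q.Prime ∧ (q : ZMod 9) = b}, (q : ℝ) ^ (-σ) ≤
      ∑ b ∈ (Finset.univ : Finset (ZMod 9)ˣ).erase a,
        ((1 / ((Nat.totient 9 : ℕ) : ℝ)) * Real.log (1 / (σ - 1)) + DC b) :=
    Finset.sum_le_sum fun b _ => hDC b σ h1 h2
  have h9 : Nat.totient 9 = 6 := by decide
  rw [Finset.sum_add_distrib, Finset.sum_const, Finset.card_erase_of_mem (Finset.mem_univ a),
    Finset.card_univ, ZMod.card_units_eq_totient, h9, nsmul_eq_mul] at e4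
  have e5 : sm {q : ℕ | (q : ZMod 9) = a} σ =
      ∑' q : {q : ℕ // q.Prime ∧ (q : ZMod 9) = a}, (q : ℝ) ^ (-σ) := rfl
  rw [Finset.card_singleton] at e1
  have h5 : ((6 - 1 : ℕ) : ℝ) = 5 := by norm_num
  have h6 : ((6 : ℕ) : ℝ) = 6 := by norm_num
  have h7 : ((1 : ℕ) : ℝ) = 1 := by norm_num
  rw [h5, h6] at e4
  rw [h7] at e1
  rw [e5]
  linarith

theorem wt_val {q : ℕ} (c : ℕ) (s t : ℤ) (hq : q % 9 = c) (h : (c : ℤ) ^ 2 = 1 + 3 * (3 * s + t)) :
    wt ((q : ℤ) ^ 2) = (t : ZMod 3) := by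
  obtain ⟨k, hk⟩ : ∃ k : ℤ, (q : ℤ) = 9 * k + c := ⟨(q : ℤ) / 9, by omega⟩
  have h3 : (q : ℤ) ^ 2 = 1 + 3 * (3 * (9 * k ^ 2 + 2 * k * c + s) + t) := by
    rw [hk]
    linear_combination h
  rw [wt_eq h3]
  push_cast
  have h4 : (3 : ZMod 3) = 0 := by decide
  rw [h4]
  ring

/-- the primes `= 2 (mod 3)` of a class modulo `9` -/
theorem w_lower (hDIR : DIR) (w : ZMod 3) : ∃ C : ℝ, ∀ σ : ℝ, 1 < σ → σ ≤ 2 →
    1 / 6 * Real.log (1 / (σ - 1)) - C ≤ sm {q : ℕ | q % 3 = 2 ∧ wt ((q : ℤ) ^ 2) = w} σ := by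
  have key : ∀ (c : ℕ) (hc : c.Coprime 9) (s t : ℤ), c < 9 → c % 3 = 2 →
      (c : ℤ) ^ 2 = 1 + 3 * (3 * s + t) → (t : ZMod 3) = w → ∃ C : ℝ, ∀ σ : ℝ, 1 < σ → σ ≤ 2 →
    1 / 6 * Real.log (1 / (σ - 1)) - C ≤
      sm {q : ℕ | q % 3 = 2 ∧ wt ((q : ℤ) ^ 2) = w} σ := by
    intro c hc s t hc9 hc3 h ht
    obtain ⟨C, hC⟩ := cls_lower hDIR (ZMod.unitOfCoprime c hc)
    refine ⟨C, fun σ h1 h2 => (hC σ h1 h2).trans (sm_mono ?_ h1)⟩
    intro n _ hn
    have h3 : (n : ZMod 9) = (c : ZMod 9) := by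
      rw [← ZMod.coe_unitOfCoprime c hc]
      exact hn
    rw [ZMod.natCast_eq_natCast_iff'] at h3
    have h4 : n % 9 = c := by omega
    refine ⟨by omega, ?_⟩
    rw [wt_val c s t h4 h, ht]
  have hw : ∀ w : ZMod 3, w = 0 ∨ w = 1 ∨ w = 2 := by decide
  rcases hw w with rfl | rfl | rfl
  · exact key 8 (by decide) 7 0 (by norm_num) (by norm_num) (by norm_num) (by decide)
  · exact key 2 (by decide) 0 1 (by norm_num) (by norm_num) (by norm_num) (by decide)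
  · exact key 5 (by decide) 2 2 (by norm_num) (by norm_num) (by norm_num) (by decide)

end DL

end Pool.Agent.PTL


end

section

/-!
# The two descents bound the index of the multiples of 3
-/

set_option autoImplicit false

namespace Pool.Agent.PTN.KID

open Pool.Agent.Lib_helper18 Pool.Agent.Lib_helper18.Eis Pool.Agent.Lib_helper84.Cub
open Pool.Agent.PT WeierstrassCurve.Affine

variable {K : Type} [Field K] [CharZero K] [DecidableEq K] {ι : Eis →+* K} {A : ℤ}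

omit [DecidableEq K] in
theorem kap_zero : kap ι (0 : HH A K) = 1 := rfl

/-- the class of a difference -/
theorem kap_sub (h0 : ∀ Q : HH A K, kap ι Q ≠ 0)
    (hadd : ∀ P Q : HH A K, ∃ g : K, g ≠ 0 ∧ kap ι (P + Q) = kap ι P * kap ι Q * g ^ 3)
    (P Q : HH A K) : ∃ g : K, g ≠ 0 ∧ kap ι (P - Q) = kap ι P / kap ι Q * g ^ 3 := by
  obtain ⟨g, hg, h⟩ := hadd (P - Q) Q
  rw [sub_add_cancel] at h
  refine ⟨g⁻¹, inv_ne_zero hg, ?_⟩
  have h1 := h0 Q
  rw [h]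
  field_simp

/-- the subgroup of the points whose class is a cube -/
noncomputable def cubes (hadd : ∀ P Q : HH A K, ∃ g : K, g ≠ 0 ∧
      kap ι (P + Q) = kap ι P * kap ι Q * g ^ 3)
    (h0 : ∀ Q : HH A K, kap ι Q ≠ 0) : AddSubgroup (HH A K) where
  carrier := {Q | ∃ g : K, kap ι Q = g ^ 3}
  zero_mem' := ⟨1, by rw [kap_zero]; ring⟩
  add_mem' := by
    rintro P Q ⟨a, ha⟩ ⟨b, hb⟩
    obtain ⟨g, -, hg⟩ := hadd P Q
    exact ⟨a * b * g, by rw [hg, ha, hb]; ring⟩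
  neg_mem' := by
    rintro Q ⟨a, ha⟩
    obtain ⟨g, -, hg⟩ := kap_sub h0 hadd 0 Q
    rw [zero_sub, kap_zero, ha] at hg
    exact ⟨a⁻¹ * g, by rw [hg, mul_pow, inv_pow, one_div]⟩

theorem mem_cubes {hadd : ∀ P Q : HH A K, ∃ g : K, g ≠ 0 ∧
      kap ι (P + Q) = kap ι P * kap ι Q * g ^ 3}
    {h0 : ∀ Q : HH A K, kap ι Q ≠ 0} {Q : HH A K} :
    Q ∈ cubes hadd h0 ↔ ∃ g : K, kap ι Q = g ^ 3 := Iff.rfl

end Pool.Agent.PTN.KID

namespace Pool.Agent.PTN

open Pool.Agent.Lib_helper18 Pool.Agent.Lib_helper18.Eis Pool.Agent.Lib_helper84.Cub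
open Pool.Agent.PT WeierstrassCurve.Affine
open Pool.Agent.PTN.KID

theorem KID_thm (h0 : Stmt_KEX) (h1 : Stmt_KEQ) (h2 : Stmt_KEMB) (h3 : Stmt_KOM) (h4 : Stmt_KAD)
    (h5 : Stmt_KKE) (h6 : Stmt_KIX) (h7 : Stmt_KMI) (h8 : Stmt_KPL) : Stmt_KID := by
  classical
  intro A hA hcf hnc W₁ W₂ _ _ Ψ₁ Ψ₂ hΨ₁ hΨ₂
  obtain ⟨K, fK, cK, dK, ι, c, hK⟩ := h0
  obtain ⟨hns, hs2, hs0, hcs, hw, hw1⟩ := h1 K ι c A hK hA
  obtain ⟨cc, j, hcc, hj, hjinj, hcc2, hccj⟩ := h2 K ι c A hK hA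
  obtain ⟨om, hom, hom3, homcc⟩ := h3 K ι c A hK hA
  obtain ⟨hk0, hadd⟩ := h4 K ι c A hK hA
  have hker := h5 K ι c A hK hA hnc om hom hom3
  have hAK : (A : K) ≠ 0 := by exact_mod_cast hA
  -- the point T
  have hT : (WeierstrassCurve.Affine.baseChange (CubeRank.EA A).toAffine K).Nonsingular 0
      (sD ι A) := by
    rw [hns, hs2]; ring
  obtain ⟨T, hTdef⟩ : ∃ T : HH A K, T = .some 0 (sD ι A) hT := ⟨_, rfl⟩
  have homT : om T = T := by
    obtain ⟨h', e⟩ := hom 0 (sD ι A) hT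
    rw [hTdef, e]
    simp
  have hccT : cc T = -T := by
    obtain ⟨h', e⟩ := hcc 0 (sD ι A) hT
    rw [hTdef, e, WeierstrassCurve.Affine.Point.neg_some]
    simp only [map_zero, WeierstrassCurve.Affine.Point.some.injEq, true_and]
    rw [hcs, WeierstrassCurve.Affine.negY]
    simp [WeierstrassCurve.Affine.baseChange, CubeRank.EA]
  have h3T : T + T + T = 0 := by
    have := hom3 T
    rwa [homT, homT] at this
  have hfix : ∀ R, om R = om (om R) → ∃ i : ℕ, R = i • T := by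
    intro R hR
    match R, hR with
    | .zero, _ => exact ⟨0, by rw [zero_smul]; rfl⟩
    | .some x y h, hR =>
      obtain ⟨h', e⟩ := hom x y h
      obtain ⟨h'', e'⟩ := hom (ι w * x) y h'
      rw [e, e'] at hR
      rw [WeierstrassCurve.Affine.Point.some.injEq] at hR
      have hx : x = 0 := by
        have h5 := hR.1
        have h6 : (ι w - ι w ^ 2) * x = 0 := by linear_combination h5
        rcases mul_eq_zero.1 h6 with h7 | h7
        · exfalso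
          have h8 : ι w * (1 - ι w) = 0 := by linear_combination h7
          rcases mul_eq_zero.1 h8 with h9 | h9
          · rw [h9] at hw; simp at hw
          · exact hw1 (sub_eq_zero.1 h9).symm
        · exact h7
      subst hx
      have hy := (hns 0 y).1 h
      have hy2 : (y - sD ι A) * (y + sD ι A) = 0 := by linear_combination hy - hs2
      rcases mul_eq_zero.1 hy2 with h7 | h7
      · refine ⟨1, ?_⟩
        rw [one_smul, hTdef, WeierstrassCurve.Affine.Point.some.injEq]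
        exact ⟨rfl, sub_eq_zero.1 h7⟩
      · refine ⟨2, ?_⟩
        have h8 : (2 : ℕ) • T = -T := by
          rw [two_smul]
          exact eq_neg_of_add_eq_zero_left h3T
        rw [h8, ← hccT, hTdef]
        obtain ⟨h', e⟩ := hcc 0 (sD ι A) hT
        rw [e, WeierstrassCurve.Affine.Point.some.injEq, map_zero, hcs]
        exact ⟨rfl, by linear_combination h7⟩
  -- the classes of the rational points
  have hζ : ∀ P : CubeRank.GA A, ∃ ζ : Eis, S1 A ζ ∧ ∃ g : K, g ≠ 0 ∧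
      kap ι (j P) = ι ζ * g ^ 3 := by
    intro P
    by_cases hP : P = 0
    · refine ⟨1, Or.inl rfl, 1, one_ne_zero, ?_⟩
      rw [hP, map_zero, kap_zero, map_one]; ring
    · obtain ⟨a, b, z, hC⟩ := (CubeRank.basics A hA).1 hcf P hP
      obtain ⟨g, hg, e⟩ := h7 K ι c A hK hA j hj P a b z hC
      exact ⟨_, Or.inr ⟨a, b, z, hC.2.1, hC.1, hC.2.2.1, rfl⟩, g, hg, e⟩
  choose ζ hζS gζ hgζ hζe using hζ
  -- the classes of the points of the plus part
  have hz : ∀ Q : HH A K, ∃ z : ℤ, cc Q = -Q → S2 A z ∧ ∃ (i : ℕ) (g : K), g ≠ 0 ∧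
      kap ι Q = (z : K) * (A : K) ^ i * g ^ 3 := by
    intro Q
    by_cases hQ : cc Q = -Q
    · rcases h8 K ι c A hK hA hcf cc hcc Q hQ with ⟨i, g, hg, e⟩ | ⟨a, m, g, ha0, hs, hp, hco, hg, e⟩
      · exact ⟨1, fun _ => ⟨Or.inl rfl, i, g, hg, by rw [e]; push_cast; ring⟩⟩
      · exact ⟨a 0 ^ 2 * a 1, fun _ => ⟨Or.inr ⟨a, m, ha0, hs, hp, hco, rfl⟩, 0, g, hg,
          by rw [e]; ring⟩⟩
    · exact ⟨1, fun h => absurd h hQ⟩
  choose z hzS using hz
  -- multiples of T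
  have hkT : kap ι T = (A : K) ^ 2 * (-12) ^ 3 := by
    have e : kap ι T = (sD ι A + sD ι A) ^ 2 := by
      rw [hTdef]
      simp only [kap, if_true]
    rw [e]
    linear_combination 4 * hs2
  have hnT : ∀ n : ℕ, ∃ g : K, g ≠ 0 ∧ kap ι (n • T) = (A : K) ^ (2 * n) * g ^ 3 := by
    intro n
    induction n with
    | zero => exact ⟨1, one_ne_zero, by rw [zero_smul, kap_zero]; ring⟩
    | succ n ih =>
      obtain ⟨g, hg, e⟩ := ih
      obtain ⟨g', hg', e'⟩ := hadd (n • T) T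
      refine ⟨g * (-12) * g', mul_ne_zero (mul_ne_zero hg (by norm_num)) hg', ?_⟩
      rw [succ_nsmul, e', e, hkT]
      ring
  refine h6 (CubeRank.GA A) (HH A K) j om cc T (cubes hadd hk0) W₁ W₂ (fun P => Ψ₁ (ζ P))
    (fun Q => Ψ₂ (z Q)) hjinj hom3 (homcc cc hcc) hcc2 hccj homT hccT hfix ?_ ?_ ?_
  · intro Q hQ
    exact hker Q (mem_cubes.1 hQ)
  · intro P P' hPP
    rw [mem_cubes, map_sub]
    obtain ⟨g, g', hg, hg', e⟩ := hΨ₁ _ _ (hζS P) (hζS P') hPP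
    obtain ⟨k, -, ek⟩ := kap_sub hk0 hadd (j P) (j P')
    have hk1 := hk0 (j P')
    have e1 := hζe P
    have e2 := hζe P'
    have hz' : ι (ζ P') ≠ 0 := by
      intro h
      rw [e2, h, zero_mul] at hk1
      exact hk1 rfl
    have hgK : ι g ≠ 0 := by
      intro h
      exact hg (hK.inj (by rw [h, map_zero]))
    have e3 : ι (ζ P) * ι g ^ 3 = ι (ζ P') * ι g' ^ 3 := by
      have := congrArg ι e
      simpa using this
    have hg1 := hgζ P'
    refine ⟨ι g' * gζ P * k / (ι g * gζ P'), ?_⟩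
    rw [ek, e1, e2]
    field_simp
    linear_combination (gζ P) ^ 3 * k ^ 3 * e3
  · intro Q Q' hQ hQ' hQQ
    obtain ⟨hS, i, g, hg, e⟩ := hzS Q hQ
    obtain ⟨hS', i', g', hg', e'⟩ := hzS Q' hQ'
    obtain ⟨u, v, l, hu, hv, euv⟩ := hΨ₂ _ _ hS hS' hQQ
    obtain ⟨n, hn⟩ : ∃ n, n = 2 * (l + i + 2 * i') := ⟨_, rfl⟩
    refine ⟨n, ?_⟩
    rw [mem_cubes]
    obtain ⟨k, -, ek⟩ := kap_sub hk0 hadd (Q - Q') (n • T)
    obtain ⟨k', -, ek'⟩ := kap_sub hk0 hadd Q Q'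
    obtain ⟨t, ht, et⟩ := hnT n
    have hk1 := hk0 Q'
    have hz' : (z Q' : K) ≠ 0 := by
      intro h
      rw [e', h, zero_mul, zero_mul] at hk1
      exact hk1 rfl
    have huK : (u : K) ≠ 0 := by exact_mod_cast hu
    have euvK : (z Q : K) * (u : K) ^ 3 = (z Q' : K) * (A : K) ^ l * (v : K) ^ 3 := by
      exact_mod_cast euv
    refine ⟨(v : K) * g * k' * k / ((u : K) * g' * t * (A : K) ^ (l + i + 3 * i')), ?_⟩
    rw [ek, ek', e, e', et, hn]
    have hpow : (A : K) ^ (2 * (2 * (l + i + 2 * i'))) * (A : K) ^ i' =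
        (A : K) ^ l * (A : K) ^ i * ((A : K) ^ (l + i + 3 * i')) ^ 3 := by
      rw [← pow_mul, ← pow_add, ← pow_add, ← pow_add]
      congr 1
      ring
    have hA1 : (A : K) ^ i' ≠ 0 := pow_ne_zero _ hAK
    have hA2 : (A : K) ^ (2 * (2 * (l + i + 2 * i'))) ≠ 0 := pow_ne_zero _ hAK
    have hA3 : (A : K) ^ (l + i + 3 * i') ≠ 0 := pow_ne_zero _ hAK
    obtain ⟨X, hX⟩ : ∃ X, X = (A : K) ^ (2 * (2 * (l + i + 2 * i'))) := ⟨_, rfl⟩
    obtain ⟨Y, hY⟩ : ∃ Y, Y = (A : K) ^ i' := ⟨_, rfl⟩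
    obtain ⟨Z, hZ⟩ : ∃ Z, Z = (A : K) ^ (l + i + 3 * i') := ⟨_, rfl⟩
    obtain ⟨U, hU⟩ : ∃ U, U = (A : K) ^ l := ⟨_, rfl⟩
    obtain ⟨V, hV⟩ : ∃ V, V = (A : K) ^ i := ⟨_, rfl⟩
    rw [← hX, ← hY, ← hU, ← hV, ← hZ] at hpow
    rw [← hU] at euvK
    rw [← hX, ← hY, ← hV, ← hZ]
    rw [← hY] at hA1
    rw [← hX] at hA2
    rw [← hZ] at hA3
    have hzQ : (z Q : K) = (z Q' : K) * U * (v : K) ^ 3 / (u : K) ^ 3 := by
      rw [eq_div_iff (pow_ne_zero _ huK)]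
      exact euvK
    have hXe : X = U * V * Z ^ 3 / Y := by
      rw [eq_div_iff hA1]
      exact hpow
    have hUV : U * V ≠ 0 := by
      rw [hU, hV]
      exact mul_ne_zero (pow_ne_zero _ hAK) (pow_ne_zero _ hAK)
    have hU0 : U ≠ 0 := left_ne_zero_of_mul hUV
    have hV0 : V ≠ 0 := right_ne_zero_of_mul hUV
    rw [hzQ, hXe]
    field_simp

end Pool.Agent.PTN


end

section

/-!
# CLT: the number of the primes in a class, both exponents together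
-/

set_option autoImplicit false

open NumberField IsDedekindDomain Finset
open scoped nonZeroDivisors Pointwise

namespace Pool.Agent.PTN

open Pool.Agent.Lib_helper18 Pool.Agent.Lib_helper18.Eis Pool.Agent.Lib_helper84.Cub
open Pool.Agent.PT Pool.Agent.PTE Pool.Agent.PT3 Pool.Agent.PTL

namespace CLT

open BDENS

/-- the primes of finitely many residue classes -/
theorem two_sided (hDIR : DIR) {f : ℕ} (hf : 0 < f) (V : Finset (ZMod f)ˣ) (S : Set ℕ)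
    (h : ∀ (n : ℕ) (hn : n.Coprime f), n.Prime → (n ∈ S ↔ ZMod.unitOfCoprime n hn ∈ V)) :
    ∃ K : ℝ, ∀ σ : ℝ, 1 < σ → σ ≤ 2 →
      (V.card : ℝ) / f.totient * Real.log (1 / (σ - 1)) - K ≤ sm S σ ∧
      sm S σ ≤ (V.card : ℝ) / f.totient * Real.log (1 / (σ - 1)) + K := by
  classical
  have : NeZero f := ⟨hf.ne'⟩
  have hcop : ∀ n : ℕ, n.Prime → n ∉ f.divisors → n.Coprime f := by
    intro n hn hd
    rw [Nat.Prime.coprime_iff_not_dvd hn]
    intro hd'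
    exact hd (Nat.mem_divisors.mpr ⟨hd', hf.ne'⟩)
  obtain ⟨C0, hC0⟩ := DL.total
  obtain ⟨K1, hK1⟩ := DIRS.upper hDIR hf V f.divisors S (by
    intro q hq hp hd
    have hc := hcop q hp hd
    exact ⟨ZMod.unitOfCoprime q hc, (h q hc hp).1 hq, (ZMod.coe_unitOfCoprime q hc).symm⟩)
  obtain ⟨K2, hK2⟩ := DIRS.upper hDIR hf Vᶜ f.divisors Sᶜ (by
    intro q hq hp hd
    have hc := hcop q hp hd
    refine ⟨ZMod.unitOfCoprime q hc, ?_, (ZMod.coe_unitOfCoprime q hc).symm⟩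
    rw [Finset.mem_compl]
    exact fun h' => hq ((h q hc hp).2 h'))
  refine ⟨max (C0 + K2) K1, fun σ h1 h2 => ?_⟩
  have e0 := hC0 σ h1 h2
  have e1 : sm S σ ≤ (V.card : ℝ) / f.totient * Real.log (1 / (σ - 1)) + K1 := hK1 σ h1 h2
  have e2 : sm Sᶜ σ ≤ (Vᶜ.card : ℝ) / f.totient * Real.log (1 / (σ - 1)) + K2 := hK2 σ h1 h2
  have e3 := BD.sm_union_inter S Sᶜ h1
  rw [Set.union_compl_self, Set.inter_compl_self] at e3
  have e4 := DL.sm_nonneg ∅ σ
  have e5 : (Vᶜ.card : ℝ) / f.totient = 1 - (V.card : ℝ) / f.totient := by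
    have hφ : (0 : ℝ) < f.totient := by exact_mod_cast Nat.totient_pos.mpr hf
    have h3 : V.card + Vᶜ.card = f.totient := by
      rw [Finset.card_add_card_compl, ZMod.card_units_eq_totient]
    have h4 : (V.card : ℝ) + Vᶜ.card = f.totient := by exact_mod_cast h3
    rw [eq_sub_iff_add_eq, ← add_div, add_comm, h4, div_self hφ.ne']
  rw [e5, sub_mul, one_mul] at e2
  have m1 := le_max_left (C0 + K2) K1
  have m2 := le_max_right (C0 + K2) K1
  constructor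
  · linarith
  · linarith

theorem wt_four {q : ℤ} (hq : ¬ (3 : ℤ) ∣ q) : wt ((q ^ 2) ^ 2) = 2 * wt (q ^ 2) := by
  have h := wt_mul (sq_mod_three hq) (sq_mod_three hq)
  rw [sq (q ^ 2), h]
  ring

theorem two_iff : ∀ x y : ZMod 3, 2 * x = y ↔ x = -y := by decide

end CLT

open _root_.Pool.Agent.PTN.CLT in
theorem CLT_thm (hDIR : DIR) (hCLSC : CLSC) (hCLSCS : CLSCS) : Stmt_CLT := by
  classical
  intro m π p hp hp3 hpπ hinj w0 c a ha
  set f : ℕ := 9 * ∏ i, p i with hfdef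
  have hf : 0 < f := Nat.mul_pos (by norm_num) (Finset.prod_pos fun i _ => (hp i).pos)
  have h9 : 9 ∣ f := Dvd.intro _ rfl
  have hpf : ∀ i, p i ∣ f := fun i => Dvd.dvd.mul_left (Finset.dvd_prod_of_mem _ (mem_univ i)) 9
  have : NeZero f := ⟨hf.ne'⟩
  have h3f : 3 ∣ f := dvd_trans (by norm_num) h9
  obtain ⟨κ, hκ, hM2⟩ := hCLSC m π p hp hp3 hpπ hinj f hf h9 hpf
  have hM1 := hCLSCS f m κ hf h9 hM2
  have hcard : ∀ d : Fin (m + 1) → ZMod 3,
      Nat.card {u : (ZMod f)ˣ // (u : ZMod f).val % 3 = a ∧ (κ u).toAdd = d} *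
        (2 * 3 ^ (m + 1)) = f.totient := by
    intro d
    rcases ha with rfl | rfl
    · exact hM1 d
    · exact hM2 d
  have hφ : 0 < f.totient := Nat.totient_pos.mpr hf
  have hV : ∀ d : Fin (m + 1) → ZMod 3,
      (((univ.filter (fun u : (ZMod f)ˣ => (u : ZMod f).val % 3 = a ∧
        (κ u).toAdd = d)).card : ℕ) : ℝ) / f.totient = 1 / (2 * 3 ^ (m + 1)) := by
    intro d
    have h1 := hcard d
    rw [Nat.card_eq_fintype_card, Fintype.card_subtype] at h1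
    rw [div_eq_div_iff (by exact_mod_cast hφ.ne') (by positivity), one_mul]
    exact_mod_cast h1
  have hmod : ∀ (n : ℕ) (hn : n.Coprime f),
      ((ZMod.unitOfCoprime n hn : (ZMod f)ˣ) : ZMod f).val % 3 = n % 3 := by
    intro n hn
    rw [ZMod.coe_unitOfCoprime, ZMod.val_natCast, Nat.mod_mod_of_dvd _ h3f]
  have hn3 : ∀ (n : ℕ), n.Coprime f → ¬ (3 : ℤ) ∣ (n : ℤ) := by
    intro n hn hd
    have h1 : 3 ∣ n := by exact_mod_cast hd
    have h2 : 3 ∣ n.gcd f := Nat.dvd_gcd h1 h3f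
    rw [hn] at h2
    omega
  obtain ⟨K1, hK1⟩ := two_sided hDIR hf
    (univ.filter (fun u : (ZMod f)ˣ => (u : ZMod f).val % 3 = a ∧
      (κ u).toAdd = (Fin.cons w0 c : Fin (m + 1) → ZMod 3)))
    {q : ℕ | q % 3 = a ∧ InCT 1 π w0 c q} (by
      intro n hn _
      rw [Finset.mem_filter, hmod, hκ, Set.mem_ofPred_eq, InCT, pow_one, Nat.cast_one]
      simp only [mem_univ, true_and, one_mul]
      refine and_congr_right fun _ => ?_
      rw [Fin.cons_inj, funext_iff])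
  obtain ⟨K2, hK2⟩ := two_sided hDIR hf
    (univ.filter (fun u : (ZMod f)ˣ => (u : ZMod f).val % 3 = a ∧
      (κ u).toAdd = (Fin.cons (-w0) (-c) : Fin (m + 1) → ZMod 3)))
    {q : ℕ | q % 3 = a ∧ InCT 2 π w0 c q} (by
      intro n hn _
      rw [Finset.mem_filter, hmod, hκ, Set.mem_ofPred_eq, InCT, wt_four (hn3 n hn)]
      simp only [mem_univ, true_and, Nat.cast_ofNat, two_iff]
      refine and_congr_right fun _ => ?_
      rw [Fin.cons_inj, funext_iff]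
      rfl)
  refine ⟨K1 + K2, fun σ h1 h2 => ?_⟩
  obtain ⟨a1, a2⟩ := hK1 σ h1 h2
  obtain ⟨b1, b2⟩ := hK2 σ h1 h2
  rw [hV] at a1 a2 b1 b2
  have e : (1 : ℝ) / 3 ^ (m + 1) * Real.log (1 / (σ - 1)) =
      1 / (2 * 3 ^ (m + 1)) * Real.log (1 / (σ - 1)) +
        1 / (2 * 3 ^ (m + 1)) * Real.log (1 / (σ - 1)) := by
    field_simp
    ring
  rw [e]
  constructor
  · linarith
  · linarith

end Pool.Agent.PTN


end
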