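import Mathlib
import Pool.Agent.PTDM.C32
import Pool.Agent.PTDM.C39
import Pool.Agent.PTL.Defs

/-! Parts: PT.ALTK, PTL.AL, PTN.KMI, PTN.CLU -/

section

/-!
# ALTK: the number of alternating matrices with large kernel

Adding one row and one column to an alternating matrix `A` changes the dimension of the kernel by
`-1` if the new column is not in the image of `A`; in any case it increases at most by `1`.
-/

namespace Pool.Agent.PT

namespace ALTK

/-- the entries -/
abbrev F3 : Type := ZMod 3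

instance : Fact (Nat.Prime 3) := ⟨Nat.prime_three⟩

variable {s : ℕ}

theorem alt_skew (v : Fin s → Fin s → ZMod 3) (i j : Fin s) : alt v i j = - alt v j i := by
  unfold alt
  rcases lt_trichotomy i j with h | h | h
  · simp [h, h.not_gt]
  · subst h
    simp
  · simp [h, h.not_gt]

/-- the smaller matrix -/
def res (v : Fin (s + 1) → Fin (s + 1) → ZMod 3) : Fin s → Fin s → ZMod 3 :=
  fun j i => v j.succ i.succ

/-- the new row -/
def row (v : Fin (s + 1) → Fin (s + 1) → ZMod 3) : Fin s → ZMod 3 := fun i => v 0 i.succ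

theorem alt_succ (v : Fin (s + 1) → Fin (s + 1) → ZMod 3) (j i : Fin s) :
    alt v j.succ i.succ = alt (res v) j i := by
  unfold alt res
  simp only [Fin.succ_lt_succ_iff]

theorem alt_zero_succ (v : Fin (s + 1) → Fin (s + 1) → ZMod 3) (i : Fin s) :
    alt v 0 i.succ = row v i := by
  unfold alt row
  simp

theorem alt_succ_zero (v : Fin (s + 1) → Fin (s + 1) → ZMod 3) (i : Fin s) :
    alt v i.succ 0 = - row v i := by
  rw [alt_skew, alt_zero_succ]

/-- the matrix without its first row -/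
def BB (v : Fin (s + 1) → Fin (s + 1) → ZMod 3) : Matrix (Fin s) (Fin (s + 1)) (ZMod 3) :=
  fun j i => alt v j.succ i

theorem range_A_le (v : Fin (s + 1) → Fin (s + 1) → ZMod 3) :
    LinearMap.range (alt (res v)).mulVecLin ≤ LinearMap.range (BB v).mulVecLin := by
  rintro _ ⟨x, rfl⟩
  refine ⟨Fin.cons 0 x, ?_⟩
  ext j
  simp only [Matrix.mulVecLin_apply, Matrix.mulVec, dotProduct, Fin.sum_univ_succ, Fin.cons_zero,
    Fin.cons_succ, mul_zero, zero_add, BB, alt_succ]

theorem row_mem (v : Fin (s + 1) → Fin (s + 1) → ZMod 3) :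
    row v ∈ LinearMap.range (BB v).mulVecLin := by
  refine ⟨Fin.cons (-1) 0, ?_⟩
  ext j
  simp only [Matrix.mulVecLin_apply, Matrix.mulVec, dotProduct, Fin.sum_univ_succ, Fin.cons_zero,
    Fin.cons_succ, BB, alt_succ_zero, Pi.zero_apply, mul_zero, Finset.sum_const_zero, add_zero]
  ring

theorem range_B_le (v : Fin (s + 1) → Fin (s + 1) → ZMod 3) :
    LinearMap.range (BB v).transpose.mulVecLin ≤ LinearMap.range (alt v).transpose.mulVecLin := by
  rintro _ ⟨x, rfl⟩
  refine ⟨Fin.cons 0 x, ?_⟩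
  ext j
  simp only [Matrix.mulVecLin_apply, Matrix.mulVec, dotProduct, Fin.sum_univ_succ, Fin.cons_zero,
    Fin.cons_succ, mul_zero, zero_add, BB, Matrix.transpose_apply]

theorem first_mem (v : Fin (s + 1) → Fin (s + 1) → ZMod 3) :
    alt v 0 ∈ LinearMap.range (alt v).transpose.mulVecLin := by
  refine ⟨Pi.single 0 1, ?_⟩
  ext j
  simp

theorem first_not_mem (v : Fin (s + 1) → Fin (s + 1) → ZMod 3)
    (h : row v ∉ LinearMap.range (alt (res v)).mulVecLin) :
    alt v 0 ∉ LinearMap.range (BB v).transpose.mulVecLin := by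
  rintro ⟨y, hy⟩
  apply h
  refine ⟨-y, ?_⟩
  ext i
  have h1 := congrFun hy i.succ
  rw [alt_zero_succ] at h1
  rw [← h1]
  simp only [Matrix.mulVecLin_apply, Matrix.mulVec, dotProduct, Matrix.transpose_apply, BB,
    alt_succ, Pi.neg_apply]
  refine Finset.sum_congr rfl fun j _ => ?_
  rw [alt_skew (res v) i j]
  ring

theorem rank_le (v : Fin (s + 1) → Fin (s + 1) → ZMod 3) :
    (alt (res v)).rank ≤ (alt v).rank := by
  have h1 : (alt (res v)).rank ≤ (BB v).rank := Submodule.finrank_mono (range_A_le v)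
  have h2 : (BB v).transpose.rank ≤ (alt v).transpose.rank := Submodule.finrank_mono (range_B_le v)
  rw [Matrix.rank_transpose, Matrix.rank_transpose] at h2
  exact h1.trans h2

theorem rank_lt (v : Fin (s + 1) → Fin (s + 1) → ZMod 3)
    (h : row v ∉ LinearMap.range (alt (res v)).mulVecLin) :
    (alt (res v)).rank + 2 ≤ (alt v).rank := by
  have h1 : (alt (res v)).rank < (BB v).rank := by
    refine Submodule.finrank_lt_finrank_of_lt (lt_of_le_of_ne (range_A_le v) ?_)
    intro h2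
    exact h (h2 ▸ row_mem v)
  have h2 : (BB v).transpose.rank < (alt v).transpose.rank := by
    refine Submodule.finrank_lt_finrank_of_lt (lt_of_le_of_ne (range_B_le v) ?_)
    intro h2
    exact first_not_mem v h (h2 ▸ first_mem v)
  rw [Matrix.rank_transpose, Matrix.rank_transpose] at h2
  omega

theorem card_range (A : Matrix (Fin s) (Fin s) (ZMod 3)) :
    Nat.card {c : Fin s → ZMod 3 // c ∈ LinearMap.range A.mulVecLin} = 3 ^ A.rank := by
  have h1 := Module.natCard_eq_pow_finrank (K := ZMod 3) (V := LinearMap.range A.mulVecLin)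
  rw [Nat.card_zmod] at h1
  exact h1

/-- the number of matrices with large kernel -/
noncomputable def N (s t : ℕ) : ℕ :=
  Nat.card {v : Fin s → Fin s → ZMod 3 // t ≤ s - (alt v).rank}

/-- the number of all matrices -/
theorem card_all (s : ℕ) : Nat.card (Fin s → Fin s → ZMod 3) = 3 ^ (s * s) := by
  rw [Nat.card_fun, Nat.card_fun, Nat.card_zmod, Nat.card_fin, pow_mul]

theorem rank_le_s (A : Matrix (Fin s) (Fin s) (ZMod 3)) : A.rank ≤ s := by
  have h1 := A.rank_le_card_width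
  rwa [Fintype.card_fin] at h1

theorem step (s t : ℕ) : N (s + 1) (t + 1) ≤
    3 ^ (s + 1) * (N s (t + 2) * 3 ^ s + N s t * 3 ^ (s - t)) := by
  classical
  let T1 : Type := {v : Fin s → Fin s → ZMod 3 // t + 2 ≤ s - (alt v).rank} × (Fin s → ZMod 3)
  let T2 : Type := Σ v : {v : Fin s → Fin s → ZMod 3 // t ≤ s - (alt v).rank},
    {c : Fin s → ZMod 3 // c ∈ LinearMap.range (alt v.1).mulVecLin}
  have key : ∀ v : {v : Fin (s + 1) → Fin (s + 1) → ZMod 3 // t + 1 ≤ s + 1 - (alt v).rank},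
      ¬ (t + 2 ≤ s - (alt (res v.1)).rank) → t ≤ s - (alt (res v.1)).rank ∧
        row v.1 ∈ LinearMap.range (alt (res v.1)).mulVecLin := by
    intro v hv
    have h0 := v.2
    have h1 := rank_le v.1
    refine ⟨by omega, ?_⟩
    by_contra h2
    have h3 := rank_lt v.1 h2
    have h4 := rank_le_s (alt v.1)
    omega
  let f : {v : Fin (s + 1) → Fin (s + 1) → ZMod 3 // t + 1 ≤ s + 1 - (alt v).rank} →
      (ZMod 3 × (Fin s → ZMod 3)) × (T1 ⊕ T2) := fun v =>
    ((v.1 0 0, fun j => v.1 j.succ 0), if h : t + 2 ≤ s - (alt (res v.1)).rank then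
      Sum.inl (⟨res v.1, h⟩, row v.1) else
      Sum.inr ⟨⟨res v.1, (key v h).1⟩, ⟨row v.1, (key v h).2⟩⟩)
  have hf : Function.Injective f := by
    intro v v' h
    have h1 := congrArg Prod.fst h
    have h2 := congrArg Prod.snd h
    have h00 : v.1 0 0 = v'.1 0 0 := congrArg Prod.fst h1
    have h10 : ∀ j : Fin s, v.1 j.succ 0 = v'.1 j.succ 0 := fun j =>
      congrFun (congrArg Prod.snd h1) j
    have h3 : res v.1 = res v'.1 ∧ row v.1 = row v'.1 := by
      simp only [f] at h2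
      by_cases ha : t + 2 ≤ s - (alt (res v.1)).rank
      · rw [dif_pos ha] at h2
        by_cases hb : t + 2 ≤ s - (alt (res v'.1)).rank
        · rw [dif_pos hb] at h2
          have h4 := Sum.inl_injective h2
          exact ⟨congrArg (fun z : T1 => z.1.1) h4, congrArg (fun z : T1 => z.2) h4⟩
        · rw [dif_neg hb] at h2
          cases h2
      · rw [dif_neg ha] at h2
        by_cases hb : t + 2 ≤ s - (alt (res v'.1)).rank
        · rw [dif_pos hb] at h2
          cases h2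
        · rw [dif_neg hb] at h2
          have h4 := Sum.inr_injective h2
          exact ⟨congrArg (fun z : T2 => z.1.1) h4, congrArg (fun z : T2 => z.2.1) h4⟩
    apply Subtype.ext
    funext j i
    refine Fin.cases ?_ (fun j => ?_) j
    · refine Fin.cases h00 (fun i => ?_) i
      exact congrFun h3.2 i
    · refine Fin.cases (h10 j) (fun i => ?_) i
      exact congrFun (congrFun h3.1 j) i
  have h1 := Nat.card_le_card_of_injective f hf
  have hT1 : Nat.card T1 = N s (t + 2) * 3 ^ s := by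
    simp only [T1, Nat.card_prod, Nat.card_fun, Nat.card_zmod, Nat.card_fin]
    rfl
  have hT2 : Nat.card T2 ≤ N s t * 3 ^ (s - t) := by
    simp only [T2]
    rw [Nat.card_sigma]
    have h2 : ∀ v : {v : Fin s → Fin s → ZMod 3 // t ≤ s - (alt v).rank},
        Nat.card {c : Fin s → ZMod 3 // c ∈ LinearMap.range (alt v.1).mulVecLin} ≤ 3 ^ (s - t) := by
      intro v
      rw [card_range]
      have h3 := v.2
      have h4 := rank_le_s (alt v.1)
      exact Nat.pow_le_pow_right (by norm_num) (by omega)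
    refine (Finset.sum_le_sum fun v _ => h2 v).trans ?_
    rw [Finset.sum_const, smul_eq_mul, Finset.card_univ, ← Nat.card_eq_fintype_card]
    exact le_of_eq rfl
  have h2 : Nat.card ((ZMod 3 × (Fin s → ZMod 3)) × (T1 ⊕ T2)) =
      3 ^ (s + 1) * (Nat.card T1 + Nat.card T2) := by
    have : Finite T1 := by
      simp only [T1]
      infer_instance
    have : Finite T2 := by
      simp only [T2]
      infer_instance
    rw [Nat.card_prod, Nat.card_prod, Nat.card_sum, Nat.card_fun, Nat.card_zmod, Nat.card_fin,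
      pow_succ]
    ring
  rw [h2] at h1
  refine h1.trans (Nat.mul_le_mul_left _ ?_)
  rw [hT1]
  exact Nat.add_le_add_left hT2 _

theorem half (t : ℕ) : (t + 1) * t / 2 = t * (t - 1) / 2 + t := by
  rcases Nat.eq_zero_or_pos t with h | h
  · subst h
    rfl
  · obtain ⟨u, rfl⟩ : ∃ u, t = u + 1 := ⟨t - 1, by omega⟩
    have h1 : (u + 1 + 1) * (u + 1) = (u + 1) * u + (u + 1) * 2 := by ring
    rw [h1, Nat.add_mul_div_right _ _ (by norm_num)]
    rfl

theorem main (s : ℕ) : ∀ t : ℕ, 3 ^ (t * (t - 1) / 2 + t) * N s t + 3 ^ (s * s) ≤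
    2 * 3 ^ t * 3 ^ (s * s) := by
  induction s with
  | zero =>
    intro t
    rcases Nat.eq_zero_or_pos t with h | h
    · subst h
      have h1 : N 0 0 ≤ 1 := by
        unfold N
        rw [Finite.card_le_one_iff_subsingleton]
        infer_instance
      simp
      omega
    · have h1 : N 0 t = 0 := by
        unfold N
        rw [Finite.card_eq_zero_iff]
        refine ⟨fun v => ?_⟩
        have := v.2
        omega
      rw [h1, mul_zero, zero_add]
      have h2 : 1 ≤ 3 ^ t := Nat.one_le_pow _ _ (by norm_num)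
      nlinarith [Nat.one_le_pow (0 * 0) 3 (by norm_num)]
  | succ s ih =>
    intro t
    rcases Nat.eq_zero_or_pos t with h | h
    · subst h
      have h1 : N (s + 1) 0 ≤ 3 ^ ((s + 1) * (s + 1)) := by
        rw [← card_all]
        exact Finite.card_subtype_le _
      simp
      omega
    · obtain ⟨t, rfl⟩ : ∃ u, t = u + 1 := ⟨t - 1, by omega⟩
      have h1 := step s t
      have h2 := ih t
      have h3 := ih (t + 2)
      have e1 : (t + 1) * (t + 1 - 1) / 2 = t * (t - 1) / 2 + t := half t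
      have e2 : (t + 2) * (t + 2 - 1) / 2 = t * (t - 1) / 2 + t + (t + 1) := by
        have h4 := half (t + 1)
        have h5 : (t + 2) * (t + 2 - 1) / 2 = (t + 1 + 1) * (t + 1) / 2 := rfl
        rw [h5, h4, e1]
      set E := t * (t - 1) / 2 with hE
      set T := 3 ^ (s * s) with hT
      have hT1 : 3 ^ ((s + 1) * (s + 1)) = 3 ^ (s + 1) * 3 ^ s * T := by
        rw [hT, ← pow_add, ← pow_add]
        congr 1
        ring
      rw [e1, hT1]
      -- the first term
      have h4 : 3 ^ (E + t + (t + 1)) * N s (t + 2) ≤ 2 * T := by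
        have h5 : 3 ^ (t + 2) * (3 ^ (E + t + (t + 1)) * N s (t + 2)) ≤ 3 ^ (t + 2) * (2 * T) := by
          rw [e2, pow_add _ _ (t + 2)] at h3
          nlinarith
        exact Nat.le_of_mul_le_mul_left h5 (by positivity)
      rcases Nat.lt_or_ge s t with hst | hst
      · have h5 : N s t = 0 := by
          unfold N
          rw [Finite.card_eq_zero_iff]
          refine ⟨fun v => ?_⟩
          have := v.2
          omega
        have h6 : N s (t + 2) = 0 := by
          unfold N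
          rw [Finite.card_eq_zero_iff]
          refine ⟨fun v => ?_⟩
          have := v.2
          omega
        have h7 : N (s + 1) (t + 1) = 0 := by
          rw [h5, h6] at h1
          simpa using h1
        rw [h7, mul_zero, zero_add]
        have h8 : 1 ≤ 3 ^ (t + 1) := Nat.one_le_pow _ _ (by norm_num)
        calc 3 ^ (s + 1) * 3 ^ s * T = 1 * (3 ^ (s + 1) * 3 ^ s * T) := by ring
          _ ≤ 2 * 3 ^ (t + 1) * (3 ^ (s + 1) * 3 ^ s * T) := Nat.mul_le_mul_right _ (by omega)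
      · have h5 : 3 ^ (t + 1) * 3 ^ (s - t) = 3 * 3 ^ s := by
          rw [← pow_add, ← pow_succ']
          congr 1
          omega
        have h6 : 3 ^ (E + t + (t + 1)) * N (s + 1) (t + 1) ≤
            3 ^ (s + 1) * 3 ^ s * (2 * T + 3 * (3 ^ (E + t) * N s t)) := by
          calc 3 ^ (E + t + (t + 1)) * N (s + 1) (t + 1)
              ≤ 3 ^ (E + t + (t + 1)) *
                (3 ^ (s + 1) * (N s (t + 2) * 3 ^ s + N s t * 3 ^ (s - t))) :=
                Nat.mul_le_mul_left _ h1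
            _ = 3 ^ (s + 1) * 3 ^ s * (3 ^ (E + t + (t + 1)) * N s (t + 2)) +
                3 ^ (s + 1) * 3 ^ (E + t) * N s t * (3 ^ (t + 1) * 3 ^ (s - t)) := by
                rw [pow_add 3 (E + t) (t + 1)]
                ring
            _ ≤ 3 ^ (s + 1) * 3 ^ s * (2 * T) +
                3 ^ (s + 1) * 3 ^ (E + t) * N s t * (3 ^ (t + 1) * 3 ^ (s - t)) :=
                Nat.add_le_add_right (Nat.mul_le_mul_left _ h4) _
            _ = 3 ^ (s + 1) * 3 ^ s * (2 * T + 3 * (3 ^ (E + t) * N s t)) := by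
                rw [h5]
                ring
        calc 3 ^ (E + t + (t + 1)) * N (s + 1) (t + 1) + 3 ^ (s + 1) * 3 ^ s * T
            ≤ 3 ^ (s + 1) * 3 ^ s * (2 * T + 3 * (3 ^ (E + t) * N s t)) +
              3 ^ (s + 1) * 3 ^ s * T := Nat.add_le_add_right h6 _
          _ = 3 ^ (s + 1) * 3 ^ s * (3 * (3 ^ (E + t) * N s t + T)) := by ring
          _ ≤ 3 ^ (s + 1) * 3 ^ s * (3 * (2 * 3 ^ t * T)) :=
              Nat.mul_le_mul_left _ (Nat.mul_le_mul_left _ h2)
          _ = 2 * 3 ^ (t + 1) * (3 ^ (s + 1) * 3 ^ s * T) := by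
              rw [pow_succ 3 t]
              ring

end ALTK

theorem ALTK_thm : ALTK := by
  intro s t
  have h1 := ALTK.main s t
  rw [ALTK.card_all]
  have h2 : 3 ^ t * (3 ^ (t * (t - 1) / 2) * ALTK.N s t) ≤ 3 ^ t * (2 * 3 ^ (s * s)) := by
    rw [pow_add] at h1
    calc 3 ^ t * (3 ^ (t * (t - 1) / 2) * ALTK.N s t)
        = 3 ^ (t * (t - 1) / 2) * 3 ^ t * ALTK.N s t := by ring
      _ ≤ 2 * 3 ^ t * 3 ^ (s * s) := (Nat.le_add_right _ _).trans h1
      _ = 3 ^ t * (2 * 3 ^ (s * s)) := by ring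
  exact Nat.le_of_mul_le_mul_left h2 (by positivity)

end Pool.Agent.PT


end

section

/-!
# Prime power twists: averages over skew-symmetric matrices over `F_3`
-/

set_option autoImplicit false

open Finset

namespace Pool.Agent.PTL

open Pool.Agent.PT

namespace AL

instance : Fact (Nat.Prime 3) := ⟨Nat.prime_three⟩

variable {s : ℕ}

/-- the corank -/
noncomputable def cr (v : Fin s → Fin s → ZMod 3) : ℕ := s - (alt v).rank

open Classical in
/-- matrices and skew-symmetric matrices -/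
noncomputable def eqv (s : ℕ) : (Fin s → Fin s → ZMod 3) ≃
    {M : Matrix (Fin s) (Fin s) (ZMod 3) // M.transpose = -M} ×
      ({x : Fin s × Fin s // ¬ x.1 < x.2} → ZMod 3) where
  toFun v := (⟨alt v, SING.alt_transpose v⟩, fun x => v x.1.1 x.1.2)
  invFun z := fun j i => if h : j < i then z.1.1 j i else z.2 ⟨(j, i), h⟩
  left_inv v := by
    funext j i
    by_cases h : j < i
    · simp [h, alt]
    · simp [h]
  right_inv z := by
    obtain ⟨⟨M, hM⟩, u⟩ := z
    have hsk : ∀ j i, M j i = - M i j := fun j i => by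
      have h1 := congrFun (congrFun hM i) j
      rw [Matrix.transpose_apply, Matrix.neg_apply] at h1
      exact h1
    have hd : ∀ j, M j j = 0 := fun j => by
      have h1 := hsk j j
      revert h1
      generalize M j j = d
      revert d
      decide
    refine Prod.ext (Subtype.ext ?_) ?_
    · ext j i
      change alt (fun j i => if h : j < i then M j i else u ⟨(j, i), h⟩) j i = M j i
      unfold alt
      rcases lt_trichotomy j i with h | h | h
      · simp [h]
      · subst h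
        simp [hd]
      · simp [h, not_lt_of_gt h, hsk j i]
    · funext x
      show (if h : x.1.1 < x.1.2 then M x.1.1 x.1.2 else u ⟨(x.1.1, x.1.2), h⟩) = u x
      rw [dif_neg x.2]

/-- the average over all arrays -/
theorem Esk_eq (s : ℕ) (F : ℕ → ℝ) :
    Esk s F = (∑ v : Fin s → Fin s → ZMod 3, F (cr v)) /
      Nat.card (Fin s → Fin s → ZMod 3) := by
  classical
  have : Fintype {M : Matrix (Fin s) (Fin s) (ZMod 3) // M.transpose = -M} :=
    Fintype.ofFinite _
  unfold Esk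
  rw [finsum_eq_sum_of_fintype, Nat.card_congr (eqv s), Nat.card_prod]
  have h1 : (∑ v : Fin s → Fin s → ZMod 3, F (cr v)) =
      Nat.card ({x : Fin s × Fin s // ¬ x.1 < x.2} → ZMod 3) *
        ∑ M : {M : Matrix (Fin s) (Fin s) (ZMod 3) // M.transpose = -M}, F (s - M.1.rank) := by
    rw [← (eqv s).symm.sum_comp, Fintype.sum_prod_type, Finset.mul_sum]
    refine Finset.sum_congr rfl fun M _ => ?_
    have h2 : ∀ u : {x : Fin s × Fin s // ¬ x.1 < x.2} → ZMod 3,
        F (cr ((eqv s).symm (M, u))) = F (s - M.1.rank) := by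
      intro u
      have h3 : alt ((eqv s).symm (M, u)) = M.1 := by
        have h4 := congrArg (fun z => z.1.1) ((eqv s).apply_symm_apply (M, u))
        exact h4
      unfold cr
      rw [h3]
    rw [Finset.sum_congr rfl fun u _ => h2 u, Finset.sum_const, nsmul_eq_mul, Finset.card_univ,
      ← Nat.card_eq_fintype_card]
  rw [h1, Nat.cast_mul, mul_comm ((Nat.card {M : Matrix (Fin s) (Fin s) (ZMod 3) //
    M.transpose = -M} : ℕ) : ℝ)]
  have h4 : (Nat.card ({x : Fin s × Fin s // ¬ x.1 < x.2} → ZMod 3) : ℝ) ≠ 0 :=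
    Nat.cast_ne_zero.2 Nat.card_pos.ne'
  rw [mul_div_mul_left _ _ h4]

theorem rank_le_s (A : Matrix (Fin s) (Fin s) (ZMod 3)) : A.rank ≤ s := ALTK.rank_le_s A

/-- the number of the vectors in the kernel -/
theorem card_ker (v : Fin s → Fin s → ZMod 3) :
    Nat.card {x : Fin s → ZMod 3 // (alt v).mulVec x = 0} = 3 ^ cr v := by
  have hker : Module.finrank (ZMod 3) (LinearMap.ker (alt v).mulVecLin) = cr v := by
    have h1 := LinearMap.finrank_range_add_finrank_ker (alt v).mulVecLin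
    rw [Module.finrank_fintype_fun_eq_card, Fintype.card_fin] at h1
    have h2 : Module.finrank (ZMod 3) (LinearMap.range (alt v).mulVecLin) = (alt v).rank := rfl
    unfold cr
    omega
  have h1 := Module.natCard_eq_pow_finrank (K := ZMod 3)
    (V := LinearMap.ker (alt v).mulVecLin)
  rw [Nat.card_zmod, hker] at h1
  exact h1

/-- the average of `3 ^ c` -/
theorem moment (s : ℕ) : (∑ v : Fin s → Fin s → ZMod 3, (3 : ℝ) ^ cr v) ≤
    (4 - 3 / 3 ^ s) * Nat.card (Fin s → Fin s → ZMod 3) := by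
  classical
  have hN : (Nat.card (Fin s → Fin s → ZMod 3) : ℝ) =
      Fintype.card (Fin s → Fin s → ZMod 3) := by rw [Nat.card_eq_fintype_card]
  have h1 : (∑ v : Fin s → Fin s → ZMod 3, (3 : ℝ) ^ cr v) =
      ∑ x : Fin s → ZMod 3,
        (Fintype.card {v : Fin s → Fin s → ZMod 3 // (alt v).mulVec x = 0} : ℝ) := by
    have h2 : ∀ v : Fin s → Fin s → ZMod 3, (3 : ℝ) ^ cr v =
        ∑ x : Fin s → ZMod 3, if (alt v).mulVec x = 0 then (1 : ℝ) else 0 := by
      intro v
      have h3 := card_ker v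
      rw [Nat.card_eq_fintype_card, Fintype.card_subtype] at h3
      rw [Finset.sum_ite, Finset.sum_const_zero, add_zero, Finset.sum_const, nsmul_eq_mul,
        mul_one, h3]
      push_cast
      rfl
    have h4 : ∀ x : Fin s → ZMod 3,
        (Fintype.card {v : Fin s → Fin s → ZMod 3 // (alt v).mulVec x = 0} : ℝ) =
        ∑ v : Fin s → Fin s → ZMod 3, if (alt v).mulVec x = 0 then (1 : ℝ) else 0 := by
      intro x
      rw [Finset.sum_ite, Finset.sum_const_zero, add_zero, Finset.sum_const, nsmul_eq_mul,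
        mul_one, Fintype.card_subtype]
    rw [Finset.sum_congr rfl fun v _ => h2 v, Finset.sum_congr rfl fun x _ => h4 x,
      Finset.sum_comm]
  rw [h1, ← Finset.add_sum_erase _ _ (Finset.mem_univ (0 : Fin s → ZMod 3))]
  have h5 : (Fintype.card {v : Fin s → Fin s → ZMod 3 // (alt v).mulVec 0 = 0} : ℝ) ≤
      Nat.card (Fin s → Fin s → ZMod 3) := by
    rw [hN]
    exact_mod_cast Fintype.card_subtype_le _
  have h6 : ∀ x ∈ (Finset.univ : Finset (Fin s → ZMod 3)).erase 0,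
      (Fintype.card {v : Fin s → Fin s → ZMod 3 // (alt v).mulVec x = 0} : ℝ) ≤
        3 / 3 ^ s * Nat.card (Fin s → Fin s → ZMod 3) := by
    intro x hx
    have h7 := SING.card_ker x (Finset.ne_of_mem_erase hx)
    have h8 : (3 : ℝ) ^ s *
        Fintype.card {v : Fin s → Fin s → ZMod 3 // (alt v).mulVec x = 0} ≤
        3 * Fintype.card (Fin s → Fin s → ZMod 3) := by exact_mod_cast h7
    rw [hN, div_mul_eq_mul_div, le_div_iff₀ (by positivity)]
    linarith
  have h9 := Finset.sum_le_sum h6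
  rw [Finset.sum_const, nsmul_eq_mul, Finset.card_erase_of_mem (Finset.mem_univ _),
    Finset.card_univ, Fintype.card_fun, ZMod.card, Fintype.card_fin] at h9
  have h10 : ((3 ^ s - 1 : ℕ) : ℝ) = 3 ^ s - 1 := by
    rw [Nat.cast_sub (Nat.one_le_pow _ _ (by norm_num))]
    push_cast
    rfl
  rw [h10] at h9
  have h11 : ((3 : ℝ) ^ s - 1) * (3 / 3 ^ s * Nat.card (Fin s → Fin s → ZMod 3)) =
      (3 - 3 / 3 ^ s) * Nat.card (Fin s → Fin s → ZMod 3) := by
    have h12 : (3 : ℝ) ^ s ≠ 0 := by positivity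
    field_simp
  rw [h11] at h9
  linarith

/-- the rank of a skew-symmetric matrix is even -/
theorem even_rank (A : Matrix (Fin s) (Fin s) (ZMod 3)) (hA : A.transpose = -A) :
    Even A.rank := by
  classical
  obtain ⟨U, hU⟩ := Submodule.exists_isCompl (LinearMap.ker A.mulVecLin)
  have hr : Module.finrank (ZMod 3) U = A.rank := by
    have h1 := LinearMap.finrank_range_add_finrank_ker A.mulVecLin
    have h2 := Submodule.finrank_add_eq_of_isCompl hU
    have h3 : Module.finrank (ZMod 3) (LinearMap.range A.mulVecLin) = A.rank := rfl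
    omega
  rw [← hr]
  set r := Module.finrank (ZMod 3) U with hrdef
  let B : Module.Basis (Fin r) (ZMod 3) U := Module.finBasis (ZMod 3) U
  have hsk : ∀ x y : Fin s → ZMod 3, x ⬝ᵥ A.mulVec y = - (y ⬝ᵥ A.mulVec x) := by
    intro x y
    rw [Matrix.dotProduct_mulVec, ← Matrix.mulVec_transpose, hA, Matrix.neg_mulVec,
      neg_dotProduct, dotProduct_comm]
  let G : Matrix (Fin r) (Fin r) (ZMod 3) := fun i j =>
    (B i : Fin s → ZMod 3) ⬝ᵥ A.mulVec (B j)
  have hG : G.transpose = -G := by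
    ext i j
    rw [Matrix.transpose_apply, Matrix.neg_apply]
    exact hsk _ _
  by_contra hodd
  rw [Nat.not_even_iff_odd] at hodd
  have hdet := SING.odd_det hodd G hG
  obtain ⟨x, hx0, hx⟩ := Matrix.exists_mulVec_eq_zero_iff.2 hdet
  obtain ⟨w, hw⟩ : ∃ w : U, w = ∑ j, x j • B j := ⟨_, rfl⟩
  have hAw : ∀ u : Fin s → ZMod 3, u ⬝ᵥ A.mulVec (w : Fin s → ZMod 3) = 0 := by
    have hB : ∀ i, (B i : Fin s → ZMod 3) ⬝ᵥ A.mulVec (w : Fin s → ZMod 3) = 0 := by
      intro i
      have h1 := congrFun hx i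
      have h2 : A.mulVec (w : Fin s → ZMod 3) = ∑ j, x j • A.mulVec (B j : Fin s → ZMod 3) := by
        rw [hw, Submodule.coe_sum, ← Matrix.mulVecLin_apply, map_sum]
        refine Finset.sum_congr rfl fun j _ => ?_
        rw [Submodule.coe_smul, map_smul, Matrix.mulVecLin_apply]
      rw [h2, dotProduct_sum]
      refine Eq.trans ?_ (h1 : (G.mulVec x) i = 0)
      unfold Matrix.mulVec dotProduct
      refine Finset.sum_congr rfl fun j _ => ?_
      simp only [G, Matrix.mulVec, dotProduct, Pi.smul_apply, smul_eq_mul, Finset.sum_mul]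
      refine Finset.sum_congr rfl fun a _ => ?_
      ring
    intro u
    have hu : u ∈ LinearMap.ker A.mulVecLin ⊔ U := by
      rw [hU.sup_eq_top]
      exact Submodule.mem_top
    obtain ⟨k, hk, y, hy, rfl⟩ := Submodule.mem_sup.1 hu
    rw [add_dotProduct]
    have h1 : k ⬝ᵥ A.mulVec (w : Fin s → ZMod 3) = 0 := by
      rw [hsk]
      have h2 : A.mulVec k = 0 := hk
      rw [h2, dotProduct_zero, neg_zero]
    have h2 : y ⬝ᵥ A.mulVec (w : Fin s → ZMod 3) = 0 := by
      have h3 := congrArg (Subtype.val : U → Fin s → ZMod 3) (B.sum_repr ⟨y, hy⟩)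
      rw [Submodule.coe_sum] at h3
      have h4 : y = ∑ j, (B.repr ⟨y, hy⟩ j) • (B j : Fin s → ZMod 3) := h3.symm
      rw [h4, sum_dotProduct]
      refine Finset.sum_eq_zero fun j _ => ?_
      rw [smul_dotProduct, hB, smul_zero]
    rw [h1, h2, add_zero]
  have hker : (w : Fin s → ZMod 3) ∈ LinearMap.ker A.mulVecLin := by
    rw [LinearMap.mem_ker, Matrix.mulVecLin_apply]
    funext i
    have h1 := hAw (Pi.single i 1)
    rw [single_one_dotProduct] at h1
    exact h1
  have hw0 : (w : Fin s → ZMod 3) = 0 := by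
    have h1 : (w : Fin s → ZMod 3) ∈ LinearMap.ker A.mulVecLin ⊓ U := ⟨hker, w.2⟩
    rw [hU.inf_eq_bot] at h1
    exact (Submodule.mem_bot _).1 h1
  have hw1 : ∑ j, x j • B j = 0 := by
    rw [← hw]
    exact Subtype.ext hw0
  exact hx0 (funext fun j => Fintype.linearIndependent_iff.1 B.linearIndependent x hw1 j)

theorem cr_parity (v : Fin s → Fin s → ZMod 3) : cr v % 2 = s % 2 := by
  have h1 := even_rank (alt v) (SING.alt_transpose v)
  have h2 := rank_le_s (alt v)
  obtain ⟨a, ha⟩ := h1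
  unfold cr
  omega

theorem Esk_le (s : ℕ) (F : ℕ → ℝ) (α β : ℝ) (hα : 0 ≤ α)
    (h : ∀ c : ℕ, c % 2 = s % 2 → F c ≤ α * 3 ^ c + β) :
    Esk s F ≤ α * (4 - 3 / 3 ^ s) + β := by
  rw [Esk_eq]
  have hN : (0 : ℝ) < Nat.card (Fin s → Fin s → ZMod 3) := Nat.cast_pos.2 Nat.card_pos
  rw [div_le_iff₀ hN]
  have h1 : (∑ v : Fin s → Fin s → ZMod 3, F (cr v)) ≤
      ∑ v : Fin s → Fin s → ZMod 3, (α * 3 ^ cr v + β) :=
    Finset.sum_le_sum fun v _ => h _ (cr_parity v)
  rw [Finset.sum_add_distrib, ← Finset.mul_sum, Finset.sum_const, nsmul_eq_mul,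
    Finset.card_univ, ← Nat.card_eq_fintype_card] at h1
  have h2 := mul_le_mul_of_nonneg_left (moment s) hα
  linarith

theorem pos3 (s : ℕ) : (0 : ℝ) < 3 / 3 ^ s := by positivity

theorem pow_even {c : ℕ} (hc : c ≠ 1) : 4 * c + 1 ≤ 3 ^ c := by
  rcases Nat.lt_or_ge c 2 with h | h
  · have : c = 0 := by omega
    subst this
    norm_num
  · induction c, h using Nat.le_induction with
    | base => norm_num
    | succ c hc ih =>
      have := ih (by omega)
      rw [pow_succ]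
      omega

theorem pow_odd {c : ℕ} (hc : c % 2 = 1) : 12 * c ≤ 3 ^ c + 9 := by
  rcases Nat.lt_or_ge c 3 with h | h
  · have : c = 1 := by omega
    subst this
    norm_num
  · clear hc
    induction c, h using Nat.le_induction with
    | base => norm_num
    | succ c hc ih =>
      rw [pow_succ]
      omega

/-- the average of the corank -/
theorem Esk_id (s : ℕ) : Esk s (fun c => (c : ℝ)) ≤ if Even s then 3 / 4 else 13 / 12 := by
  have h3 := pos3 s
  by_cases hs : Even s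
  · rw [if_pos hs]
    have h1 := Esk_le s (fun c => (c : ℝ)) (1 / 4) (-(1 / 4)) (by norm_num) fun c hc => by
      have h2 := pow_even (c := c) (by
        rintro rfl
        rw [Nat.even_iff] at hs
        omega)
      have h4 : (4 * c + 1 : ℝ) ≤ 3 ^ c := by exact_mod_cast h2
      linarith
    linarith
  · rw [if_neg hs]
    rw [Nat.not_even_iff] at hs
    have h1 := Esk_le s (fun c => (c : ℝ)) (1 / 12) (3 / 4) (by norm_num) fun c hc => by
      have h2 := pow_odd (c := c) (by omega)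
      have h4 : (12 * c : ℝ) ≤ 3 ^ c + 9 := by exact_mod_cast h2
      linarith
    linarith

/-- the average of `3 ^ c` -/
theorem Esk_pow (s : ℕ) : Esk s (fun c => (3 : ℝ) ^ c) ≤ 4 - 3 / 3 ^ s := by
  have h1 := Esk_le s (fun c => (3 : ℝ) ^ c) 1 0 (by norm_num) fun c hc => by simp
  linarith

/-- the proportion of the singular matrices of even size -/
theorem Esk_pos {s : ℕ} (hs : Even s) : Esk s (fun c => if 1 ≤ c then 1 else 0) ≤ 3 / 8 := by
  have h3 := pos3 s
  rw [Nat.even_iff] at hs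
  have h1 := Esk_le s (fun c => if 1 ≤ c then 1 else 0) (1 / 8) (-(1 / 8)) (by norm_num)
    fun c hc => by
      show (if 1 ≤ c then (1 : ℝ) else 0) ≤ _
      by_cases h0 : c = 0
      · subst h0
        norm_num
      · rw [if_pos (by omega)]
        have h2 : 3 ^ 2 ≤ 3 ^ c := Nat.pow_le_pow_right (by norm_num) (by omega)
        have h4 : (3 ^ 2 : ℝ) ≤ 3 ^ c := by exact_mod_cast h2
        linarith
  linarith

/-- the proportion of the matrices of odd size with large kernel -/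
theorem Esk_two {s : ℕ} (hs : Odd s) : Esk s (fun c => if 2 ≤ c then 1 else 0) ≤ 1 / 24 := by
  have h3 := pos3 s
  rw [Nat.odd_iff] at hs
  have h1 := Esk_le s (fun c => if 2 ≤ c then 1 else 0) (1 / 24) (-(1 / 8)) (by norm_num)
    fun c hc => by
      show (if 2 ≤ c then (1 : ℝ) else 0) ≤ _
      by_cases h0 : c = 1
      · subst h0
        norm_num
      · rw [if_pos (by omega)]
        have h2 : 3 ^ 3 ≤ 3 ^ c := Nat.pow_le_pow_right (by norm_num) (by omega)
        have h4 : (3 ^ 3 : ℝ) ≤ 3 ^ c := by exact_mod_cast h2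
        linarith
  linarith

/-- summation by parts -/
theorem Esk_sum (s : ℕ) (F : ℕ → ℝ) : Esk s F = F 0 +
    ∑ t ∈ Finset.range s, (F (t + 1) - F t) *
      ((Nat.card {v : Fin s → Fin s → ZMod 3 // t + 1 ≤ s - (alt v).rank} : ℝ) /
        Nat.card (Fin s → Fin s → ZMod 3)) := by
  classical
  rw [Esk_eq]
  have hN : (Nat.card (Fin s → Fin s → ZMod 3) : ℝ) ≠ 0 := Nat.cast_ne_zero.2 Nat.card_pos.ne'
  have key : ∀ v : Fin s → Fin s → ZMod 3, F (cr v) = F 0 +
      ∑ t ∈ Finset.range s, (F (t + 1) - F t) * (if t + 1 ≤ cr v then 1 else 0) := by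
    intro v
    have h1 : cr v ≤ s := Nat.sub_le _ _
    have h2 : ∀ t, (F (t + 1) - F t) * (if t + 1 ≤ cr v then (1 : ℝ) else 0) =
        if t < cr v then F (t + 1) - F t else 0 := by
      intro t
      by_cases h : t < cr v
      · rw [if_pos h, if_pos (show t + 1 ≤ cr v from h), mul_one]
      · rw [if_neg h, if_neg (show ¬ t + 1 ≤ cr v from h), mul_zero]
    rw [Finset.sum_congr rfl fun t _ => h2 t, ← Finset.sum_filter]
    have h3 : (Finset.range s).filter (fun t => t < cr v) = Finset.range (cr v) := by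
      ext t
      simp only [Finset.mem_filter, Finset.mem_range]
      omega
    rw [h3, Finset.sum_range_sub]
    ring
  rw [Finset.sum_congr rfl fun v _ => key v, Finset.sum_add_distrib, Finset.sum_const,
    nsmul_eq_mul, Finset.card_univ, ← Nat.card_eq_fintype_card, Finset.sum_comm, add_div,
    mul_div_cancel_left₀ _ hN, Finset.sum_div]
  congr 1
  refine Finset.sum_congr rfl fun t _ => ?_
  rw [← Finset.mul_sum, mul_div_assoc]
  congr 2
  rw [Nat.card_eq_fintype_card, Fintype.card_subtype, Finset.sum_ite, Finset.sum_const_zero,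
    add_zero, Finset.sum_const, nsmul_eq_mul, mul_one]
  rfl

end AL

end Pool.Agent.PTL


end

section

/-! # PTN_KMI: the class of a rational point -/

set_option autoImplicit false

namespace Pool.Agent.PTN

open Pool.Agent.Lib_helper18 Pool.Agent.Lib_helper18.Eis Pool.Agent.Lib_helper84.Cub
open Pool.Agent.PT WeierstrassCurve.Affine

namespace KMI

/-- the polynomial identity behind the class -/
theorem ident {K : Type} [Field K] {o a b A z y d : K} (hw : o ^ 2 + o + 1 = 0)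
    (hd : d = o - o ^ 2) (hab : a + b ≠ 0) (h3 : a ^ 3 + b ^ 3 = A * z ^ 3)
    (hy : y * (a + b) = 36 * A * (a - b)) :
    (y - 12 * A * d) * z ^ 3 = o ^ 2 * ((a + o * b) * (a + o ^ 2 * b) ^ 2) * (-2 * d) ^ 3 := by
  have ho : o ^ 3 = 1 := by linear_combination (o - 1) * hw
  have hd2 : d ^ 2 = -3 := by
    rw [hd]
    linear_combination hw + (o - 2) * ho
  have hd3 : (-2 * d) ^ 3 = 24 * d := by linear_combination (-8 * d) * hd2
  have hf : (a + o * b) * (a + o ^ 2 * b) * (a + b) = a ^ 3 + b ^ 3 := by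
    linear_combination ((a * b) * hw + b ^ 2 * ho) * (a + b)
  have hl : 3 * (a - b) - d * (a + b) = 2 * d * o ^ 2 * (a + o ^ 2 * b) := by
    rw [hd]
    linear_combination (a - b) * hw - (2 * (1 - o) * a + 2 * (o ^ 2 - o ^ 3 - 1) * b) * ho
  apply mul_right_cancel₀ hab
  rw [hd3]
  linear_combination z ^ 3 * hy - (36 * (a - b) - 12 * d * (a + b)) * h3
    + 12 * (a ^ 3 + b ^ 3) * hl - o ^ 2 * (a + o ^ 2 * b) * (24 * d) * hf

end KMI

theorem KMI_thm (h0 : Stmt_KEQ) : Stmt_KMI := by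
  intro K _ _ _ ι c A hK hA j hj P a b z hP
  obtain ⟨-, -, hs0, hcs, hw, -⟩ := h0 K ι c A hK hA
  obtain ⟨hz, hab, h3, x, y, h, rfl, hx, hy⟩ := hP
  obtain ⟨h', hj'⟩ := hj x y h
  have hzK : (z : K) ≠ 0 := by exact_mod_cast hz
  have hAK : (A : K) ≠ 0 := by exact_mod_cast hA
  have h3K : (a : K) ^ 3 + (b : K) ^ 3 = (A : K) * (z : K) ^ 3 := by exact_mod_cast congrArg (fun t : ℤ => (t : K)) h3
  have habK : (a : K) + (b : K) ≠ 0 := by
    intro h1
    have h2 : (A : K) * (z : K) ^ 3 = 0 := by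
      rw [← h3K]
      linear_combination ((a : K) ^ 2 - a * b + (b : K) ^ 2) * h1
    exact (mul_ne_zero hAK (pow_ne_zero 3 hzK)) h2
  have hyK : (y : K) * ((a : K) + b) = 36 * (A : K) * ((a : K) - b) := by
    have := congrArg (fun t : ℚ => (t : K)) hy
    push_cast at this
    exact this
  have hys : (y : K) ≠ sD ι A := by
    intro h1
    have h2 : c (y : K) = (y : K) := by
      have := c.commutes y
      simpa using this
    rw [h1, hcs] at h2
    have h4 : (2 : K) * sD ι A = 0 := by linear_combination -h2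
    rcases mul_eq_zero.mp h4 with h5 | h5
    · exact two_ne_zero h5
    · exact hs0 h5
  have hid := KMI.ident (K := K) (o := ι w) (a := a) (b := b) (A := A) (z := z) (y := y)
    (d := ι w - ι w ^ 2) hw rfl habK h3K hyK
  have hd0 : (ι w - ι w ^ 2 : K) ≠ 0 := by
    intro h1
    apply hs0
    unfold sD
    rw [h1, mul_zero]
  refine ⟨(-2 * (ι w - ι w ^ 2)) / z, ?_, ?_⟩
  · exact div_ne_zero (mul_ne_zero (by norm_num) hd0) hzK
  · rw [hj']
    have hk : kap ι (.some (x : K) (y : K) h' : HH A K) = (y : K) - sD ι A := by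
      unfold kap
      exact if_neg hys
    rw [hk, div_pow, map_mul, map_mul, map_pow, map_pow, map_add, map_add, map_mul, map_mul, map_pow,
      map_intCast, map_intCast, mul_div_assoc', eq_div_iff (pow_ne_zero 3 hzK)]
    unfold sD
    exact hid

end Pool.Agent.PTN


end

section

/-!
# The distribution of the rank in a class, `q = 1 (mod 3)`
-/

set_option autoImplicit false

open NumberField IsDedekindDomain Finset
open scoped nonZeroDivisors Pointwise

namespace Pool.Agent.PTN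

open Pool.Agent.Lib_helper18 Pool.Agent.Lib_helper18.Eis Pool.Agent.Lib_helper84.Cub
open Pool.Agent.PT Pool.Agent.PTE Pool.Agent.PT3 Pool.Agent.PTL

namespace CLU

open BDENS

theorem sm_nonneg (S : Set ℕ) (σ : ℝ) : 0 ≤ sm S σ := by
  rw [sm_eq]
  exact tsum_nonneg fun n => ind_nonneg S σ n

theorem sm_empty (σ : ℝ) : sm ∅ σ = 0 := by
  rw [sm_eq, tsum_congr fun n => ind_not (S := ∅) (σ := σ) (n := n) fun h => h.2, tsum_zero]

theorem sm_le (S T : Set ℕ) (M : ℕ) (h : ∀ n, n.Prime → M < n → n ∈ S → n ∈ T) :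
    ∃ K : ℝ, ∀ σ : ℝ, 1 < σ → sm S σ ≤ sm T σ + K := by
  refine ⟨2 * ((Finset.range (M + 1)).card : ℝ), fun σ hσ => ?_⟩
  have h1 := sm_add_le S ∅ T (Finset.range (M + 1)) (fun n hn hA hS => ⟨h n hn (by
    rw [Finset.mem_range, not_lt] at hA
    omega) hS, fun h => h⟩) (fun n _ _ h => absurd h (Set.notMem_empty n)) hσ
  have h2 := sm_nonneg ∅ σ
  linarith

theorem sm_small (S : Set ℕ) (M : ℕ) (h : ∀ n, n.Prime → M < n → n ∉ S) :
    ∃ K : ℝ, ∀ σ : ℝ, 1 < σ → sm S σ ≤ K := by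
  obtain ⟨K, hK⟩ := sm_le S ∅ M fun n h1 h2 h3 => absurd h3 (h n h1 h2)
  refine ⟨K, fun σ hσ => ?_⟩
  have h1 := hK σ hσ
  rw [sm_empty] at h1
  linarith

theorem z3_cases : ∀ ε : ZMod 3, ε ≠ 0 → ε = 1 ∨ ε = -1 := by decide

theorem z3_neg : ∀ y : ZMod 3, y = -y → y = 0 := by decide

theorem ne_neg {d : ℕ} {x : Fin d → ZMod 3} (hx : x ≠ 0) : x ≠ -x := by
  intro h
  apply hx
  funext i
  exact z3_neg _ (congrFun h i)

/-- the patterns of a large prime -/
theorem pat_iff (hSPLT : SPLT) {d : ℕ} (v : Fin d → ℤ) {q : ℕ} (hq : q.Prime) (h1 : q % 3 = 1)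
    (hv : ∀ i, ¬ (q : ℤ) ∣ v i) {ρ : PP} (hρ : (q : Eis) = ρ.1 * conj ρ.1)
    (δ : Fin d → ZMod 3) :
    q ∈ Pat v δ ↔ δ = (fun i => sym ρ.1 (v i : Eis)) ∨ δ = -(fun i => sym ρ.1 (v i : Eis)) := by
  obtain ⟨-, -, hσ, hdvd, hsym, -⟩ := hSPLT.2 q ρ hq h1 hρ
  have hs : ∀ i, sym (conj ρ.1) (v i : Eis) = - sym ρ.1 (v i : Eis) := by
    intro i
    have h2 := hsym (v i : Eis) fun h => hv i ((hdvd _).1 h)
    rwa [conj_intCast] at h2
  constructor
  · rintro ⟨ρ', hρ', ε, hε, h⟩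
    have key : ∀ ε' : ZMod 3, ε' ≠ 0 → (∀ i, sym ρ.1 (v i : Eis) = ε' * δ i) →
        δ = (fun i => sym ρ.1 (v i : Eis)) ∨ δ = -(fun i => sym ρ.1 (v i : Eis)) := by
      intro ε' hε' h'
      rcases z3_cases ε' hε' with rfl | rfl
      · left
        funext i
        rw [h' i, one_mul]
      · right
        funext i
        rw [Pi.neg_apply, h' i]
        ring
    rcases hσ ρ' (Dvd.intro _ hρ'.symm) with h2 | h2
    · rw [h2] at h
      exact key ε hε h
    · rw [h2] at h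
      refine key (-ε) (neg_ne_zero.2 hε) fun i => ?_
      have h3 := h i
      rw [hs i] at h3
      rw [neg_mul, ← h3, neg_neg]
  · rintro (rfl | rfl)
    · exact ⟨ρ, hρ, 1, one_ne_zero, fun i => (one_mul _).symm⟩
    · refine ⟨ρ, hρ, -1, by decide, fun i => ?_⟩
      rw [Pi.neg_apply]
      ring

/-- counting with the patterns -/
theorem comb (hSMT : Stmt_SMT) {d : ℕ} (M : ℕ) (W : Set ℕ) (P : (Fin d → ZMod 3) → Set ℕ)
    (x : ℕ → Fin d → ZMod 3)
    (hP : ∀ n, n.Prime → M < n → n ∈ W → ∀ δ, n ∈ P δ ↔ δ = x n ∨ δ = - x n) :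
    (∃ K : ℝ, ∀ σ : ℝ, 1 < σ → σ ≤ 2 → 2 * sm (W \ P 0) σ ≤
      ∑ i : {δ : Fin d → ZMod 3 // δ ≠ 0}, sm (W ∩ P i.1) σ + K) ∧
    ∃ K : ℝ, ∀ σ : ℝ, 1 < σ → σ ≤ 2 →
      ∑ i : {δ : Fin d → ZMod 3 // δ ≠ 0}, sm (W ∩ P i.1) σ ≤ 2 * sm (W \ P 0) σ + K := by
  classical
  have hx0 : ∀ n, n.Prime → M < n → n ∈ W → (n ∉ P 0 ↔ x n ≠ 0) := by
    intro n hn hM hW
    rw [hP n hn hM hW, not_iff_not]
    constructor
    · rintro (h | h)
      · exact h.symm
      · exact (neg_eq_zero.1 h.symm)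
    · intro h
      exact Or.inl h.symm
  obtain ⟨h1, h2, -⟩ := hSMT {δ : Fin d → ZMod 3 // δ ≠ 0} (W \ P 0) ∅ ∅
    (fun i => W ∩ P i.1) M
  refine ⟨h1 ?_, ?_⟩
  · intro n hn hM hS
    have hx := (hx0 n hn hM hS.1).1 hS.2
    refine ⟨⟨x n, hx⟩, ⟨-x n, neg_ne_zero.2 hx⟩, ?_, ⟨hS.1, ?_⟩, ⟨hS.1, ?_⟩⟩
    · intro h
      exact ne_neg hx (congrArg Subtype.val h)
    · exact (hP n hn hM hS.1 _).2 (Or.inl rfl)
    · exact (hP n hn hM hS.1 _).2 (Or.inr rfl)
  · rcases isEmpty_or_nonempty {δ : Fin d → ZMod 3 // δ ≠ 0} with hE | ⟨⟨i0⟩⟩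
    · refine ⟨0, fun σ _ _ => ?_⟩
      rw [Finset.sum_of_isEmpty]
      have := sm_nonneg (W \ P 0) σ
      linarith
    · apply h2
      · rintro n hn hM i ⟨hW, hi⟩
        refine ⟨hW, ?_⟩
        rw [hx0 n hn hM hW]
        rcases (hP n hn hM hW _).1 hi with h | h
        · rw [← h]
          exact i.2
        · intro h0
          rw [h0, neg_zero] at h
          exact i.2 h
      · intro n hn hM
        by_cases hW : n ∈ W
        · by_cases hx : x n = 0
          · refine ⟨i0, i0, fun i hi => ?_⟩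
            exfalso
            rcases (hP n hn hM hW _).1 hi.2 with h | h
            · exact i.2 (h.trans hx)
            · exact i.2 (by rw [h, hx, neg_zero])
          · refine ⟨⟨x n, hx⟩, ⟨-x n, neg_ne_zero.2 hx⟩, fun i hi => ?_⟩
            rcases (hP n hn hM hW _).1 hi.2 with h | h
            · exact Or.inl (Subtype.ext h)
            · exact Or.inr (Subtype.ext h)
        · exact ⟨i0, i0, fun i hi => absurd hi.1 hW⟩

theorem card_ne (d : ℕ) :
    (Fintype.card {δ : Fin d → ZMod 3 // δ ≠ 0} : ℝ) = 3 ^ d - 1 := by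
  classical
  have h1 : Fintype.card {δ : Fin d → ZMod 3 // δ ≠ 0} = 3 ^ d - 1 := by
    rw [Fintype.card_subtype_compl, Fintype.card_fun, ZMod.card, Fintype.card_fin]
    congr 1
  rw [h1, Nat.cast_sub (Nat.one_le_pow _ _ (by norm_num))]
  push_cast
  rfl

end CLU

open _root_.Pool.Agent.PTN.CLU BDENS in
/-- CLU: the distribution of the rank in a class, `q = 1 (mod 3)`. -/
theorem CLU_thm (hNHPT : Stmt_NHPT) (hDLU : Stmt_DLU) (hDLL : Stmt_DLL) (hCLT : Stmt_CLT)
    (hSMT : Stmt_SMT) (hNBK0 : Stmt_NBK0) (hSPLT : SPLT) : Stmt_CLU := by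
  classical
  intro h n m k π p e r f w0 c hNF hh
  have hn0 : 0 < n := by
    rw [hNF.eq]
    exact Nat.mul_pos (Finset.prod_pos fun i _ => pow_pos (hNF.pp i).pos _)
      (Finset.prod_pos fun j _ => pow_pos (hNF.rp j).pos _)
  have hG : ∀ E q : ℕ, (E = 1 ∨ E = 2) → q.Prime → n + 3 < q → q % 3 = 1 → InCT E π w0 c q →
      CubeRank.GenBy (BB h n E q) (vN h n π p e r w0 c + 1 + sN h n π p e r w0 c) := by
    intro E q hE hq hM h1 hC
    refine hNBK0 h n m k π p e r f w0 c E q hNF hh hE hq (by omega) h1 hC fun hd => ?_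
    have := Nat.le_of_dvd hn0 hd
    omega
  refine ⟨⟨n + 3, hG⟩, ?_⟩
  intro t
  obtain ⟨d, V, hd, hAd, hspan, hHP⟩ := hNHPT h n m k π p e r f w0 c hNF hh
  have hHB : HB h n π w0 c V := ⟨hAd, hspan, hHP⟩
  rw [← hd]
  rw [← hd] at hG
  obtain ⟨vv, hvv⟩ : ∃ vv, vv = vN h n π p e r w0 c := ⟨_, rfl⟩
  have hU := hDLU h n m k π p e r f w0 c d V hNF hh hHB
  have hL := hDLL h n m k π p e r f w0 c d V hNF hh hHB
  rw [← hvv] at hG hU ⊢
  obtain ⟨M, hM⟩ : ∃ M, M = n + 3 + ∑ i, (V i).natAbs := ⟨_, rfl⟩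
  have hV : ∀ q : ℕ, M < q → ∀ i, ¬ (q : ℤ) ∣ V i := by
    intro q hq i hdv
    have h1 : q ∣ (V i).natAbs := Int.natCast_dvd.1 hdv
    have h2 := Nat.le_of_dvd (Int.natAbs_pos.2 (hAd i).1.ne) h1
    have h3 : (V i).natAbs ≤ ∑ i, (V i).natAbs :=
      Finset.single_le_sum (f := fun i => (V i).natAbs) (fun i _ => Nat.zero_le _)
        (Finset.mem_univ i)
    omega
  obtain ⟨x, hx⟩ : ∃ x : ℕ → Fin d → ZMod 3, ∀ q : ℕ, q.Prime → M < q → q % 3 = 1 → ∀ δ,
      q ∈ Pat V δ ↔ δ = x q ∨ δ = - x q := by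
    refine ⟨fun q => if hx : ∃ ρ : PP, (q : Eis) = ρ.1 * conj ρ.1 then
      fun i => sym hx.choose.1 (V i : Eis) else 0, fun q hq hMq h1 δ => ?_⟩
    have hex := hSPLT.1 q hq h1
    simp only [dif_pos hex]
    exact pat_iff hSPLT V hq h1 (hV q hMq) hex.choose_spec δ
  have hc : ∀ E t' : ℕ, _ := fun E t' => comb hSMT M (WR h n π w0 c 1 E t') (Pat V) x
    fun q hq hMq hW => hx q hq hMq hW.1
  obtain ⟨KA1, hA1⟩ := (hc 1 t).1
  obtain ⟨KA2, hA2⟩ := (hc 2 t).1
  obtain ⟨KB1, hB1⟩ := (hc 1 0).2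
  obtain ⟨KB2, hB2⟩ := (hc 2 0).2
  choose KU hKU using fun δ : {δ : Fin d → ZMod 3 // δ ≠ 0} => hU δ.1 δ.2 t
  choose KL hKL using fun δ : {δ : Fin d → ZMod 3 // δ ≠ 0} => hL δ.1 δ.2
  obtain ⟨KC, hKC⟩ := hCLT m π p hNF.pp hNF.p1 hNF.pπ hNF.pinj w0 c 1 (Or.inl rfl)
  have hWset : ∀ E : ℕ, {q : ℕ | q % 3 = 1 ∧ InCT E π w0 c q} = WR h n π w0 c 1 E 0 := by
    intro E
    ext q
    simp [WR]
  rw [hWset 1, hWset 2] at hKC
  -- the zero pattern
  have hZ : ∀ E : ℕ, (E = 1 ∨ E = 2) → ∃ K : ℝ, ∀ σ : ℝ, 1 < σ →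
      sm (WR h n π w0 c 1 E t) σ ≤ sm (WR h n π w0 c 1 E t \ Pat V 0) σ +
        (if t ≤ vv + d + 1 then sm (WR h n π w0 c 1 E 0 ∩ Pat V 0) σ else 0) + K := by
    intro E hE
    have h1 : ∀ σ : ℝ, 1 < σ → sm (WR h n π w0 c 1 E t) σ ≤
        sm (WR h n π w0 c 1 E t \ Pat V 0) σ + sm (WR h n π w0 c 1 E t ∩ Pat V 0) σ := by
      intro σ hσ
      rw [sm_eq, sm_eq, sm_eq, ← (ind_summable _ hσ).tsum_add (ind_summable _ hσ)]
      refine (ind_summable _ hσ).tsum_le_tsum (fun q => ?_)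
        ((ind_summable _ hσ).add (ind_summable _ hσ))
      by_cases hq : q.Prime ∧ q ∈ WR h n π w0 c 1 E t
      · by_cases hP : q ∈ Pat V 0
        · rw [ind_mem hq.1 hq.2, ind_mem (S := WR h n π w0 c 1 E t ∩ Pat V 0) hq.1 ⟨hq.2, hP⟩]
          have := ind_nonneg (WR h n π w0 c 1 E t \ Pat V 0) σ q
          linarith
        · rw [ind_mem hq.1 hq.2, ind_mem (S := WR h n π w0 c 1 E t \ Pat V 0) hq.1 ⟨hq.2, hP⟩]
          have := ind_nonneg (WR h n π w0 c 1 E t ∩ Pat V 0) σ q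
          linarith
      · rw [ind_not hq]
        exact add_nonneg (ind_nonneg _ _ _) (ind_nonneg _ _ _)
    by_cases ht : t ≤ vv + d + 1
    · obtain ⟨K, hK⟩ := sm_le (WR h n π w0 c 1 E t ∩ Pat V 0) (WR h n π w0 c 1 E 0 ∩ Pat V 0) 0
        fun q _ _ hq => ⟨⟨hq.1.1, hq.1.2.1, Nat.zero_le _⟩, hq.2⟩
      refine ⟨K, fun σ hσ => ?_⟩
      rw [if_pos ht]
      have := h1 σ hσ
      have := hK σ hσ
      linarith
    · obtain ⟨K, hK⟩ := sm_small (WR h n π w0 c 1 E t ∩ Pat V 0) (n + 3)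
        fun q hq hM hS => by
          have h2 := CubeRank.rr_le (hG E q hE hq hM hS.1.1 hS.1.2.1)
          have h3 := hS.1.2.2
          omega
      refine ⟨K, fun σ hσ => ?_⟩
      rw [if_neg ht]
      have := h1 σ hσ
      have := hK σ hσ
      linarith
  obtain ⟨KZ1, hZ1⟩ := hZ 1 (Or.inl rfl)
  obtain ⟨KZ2, hZ2⟩ := hZ 2 (Or.inr rfl)
  have hNZ : ∀ E : ℕ, ∀ σ : ℝ, 1 < σ → sm (WR h n π w0 c 1 E 0 \ Pat V 0) σ +
      sm (WR h n π w0 c 1 E 0 ∩ Pat V 0) σ ≤ sm (WR h n π w0 c 1 E 0) σ := by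
    intro E σ hσ
    have h1 := sm_add_le (WR h n π w0 c 1 E 0 \ Pat V 0) (WR h n π w0 c 1 E 0 ∩ Pat V 0)
      (WR h n π w0 c 1 E 0) ∅ (fun q _ _ hq => ⟨hq.1, fun h' => hq.2 h'.2⟩)
      (fun q _ _ hq => hq.1) hσ
    simpa using h1
  have hcard := card_ne d
  have hD : (0 : ℝ) < 3 ^ d := by positivity
  have hN : (0 : ℝ) < 3 ^ (m + 1) := by positivity
  refine ⟨KZ1 + KZ2 + (KA1 + KA2 + ∑ i, KU i) / 2 + |KC + (KB1 + KB2 + ∑ i, KL i) / 2|,
    fun σ hσ hσ2 => ?_⟩
  have a1 := hA1 σ hσ hσ2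
  have a2 := hA2 σ hσ hσ2
  have b1 := hB1 σ hσ hσ2
  have b2 := hB2 σ hσ hσ2
  have z1 := hZ1 σ hσ
  have z2 := hZ2 σ hσ
  have c0 := (hKC σ hσ hσ2).2
  have n1 := hNZ 1 σ hσ
  have n2 := hNZ 2 σ hσ
  obtain ⟨Lg, hLg⟩ : ∃ Lg, Lg = Real.log (1 / (σ - 1)) := ⟨_, rfl⟩
  have u1 : ∑ i : {δ : Fin d → ZMod 3 // δ ≠ 0}, sm (WR h n π w0 c 1 1 t ∩ Pat V i.1) σ +
      ∑ i : {δ : Fin d → ZMod 3 // δ ≠ 0}, sm (WR h n π w0 c 1 2 t ∩ Pat V i.1) σ ≤
      (3 ^ d - 1) * (2 / 3 ^ d * LI (d - 1) (t - vv) / 3 ^ (m + 1) * Lg) + ∑ i, KU i := by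
    rw [← Finset.sum_add_distrib, ← hcard, ← nsmul_eq_mul, ← Finset.card_univ,
      ← Finset.sum_const, ← Finset.sum_add_distrib, hLg]
    exact Finset.sum_le_sum fun i _ => hKU i σ hσ hσ2
  have l1 : (3 ^ d - 1) * (2 / 3 ^ d / 3 ^ (m + 1) * Lg) - ∑ i, KL i ≤
      ∑ i : {δ : Fin d → ZMod 3 // δ ≠ 0}, sm (WR h n π w0 c 1 1 0 ∩ Pat V i.1) σ +
      ∑ i : {δ : Fin d → ZMod 3 // δ ≠ 0}, sm (WR h n π w0 c 1 2 0 ∩ Pat V i.1) σ := by
    rw [← Finset.sum_add_distrib, ← hcard, ← nsmul_eq_mul, ← Finset.card_univ,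
      ← Finset.sum_const, ← Finset.sum_sub_distrib, hLg]
    exact Finset.sum_le_sum fun i _ => hKL i σ hσ hσ2
  rw [← hLg] at c0 ⊢
  unfold LS
  have e1 : (3 ^ d - 1 : ℝ) * (2 / 3 ^ d * LI (d - 1) (t - vv) / 3 ^ (m + 1) * Lg) =
      2 * ((1 - 1 / 3 ^ d) * LI (d - 1) (t - vv) / 3 ^ (m + 1) * Lg) := by
    field_simp
  have e2 : (3 ^ d - 1 : ℝ) * (2 / 3 ^ d / 3 ^ (m + 1) * Lg) =
      2 * ((1 - 1 / 3 ^ d) / 3 ^ (m + 1) * Lg) := by
    field_simp
  have e3 : (1 / 3 ^ (m + 1) * Lg : ℝ) - (1 - 1 / 3 ^ d) / 3 ^ (m + 1) * Lg =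
      1 / 3 ^ d / 3 ^ (m + 1) * Lg := by
    ring
  rw [e1] at u1
  rw [e2] at l1
  have k1 := le_abs_self (KC + (KB1 + KB2 + ∑ i, KL i) / 2)
  have k2 := abs_nonneg (KC + (KB1 + KB2 + ∑ i, KL i) / 2)
  by_cases ht : t ≤ vv + d + 1
  · rw [if_pos ht] at z1 z2 ⊢
    have e4 : ((1 - 1 / 3 ^ d) * LI (d - 1) (t - vv) + 1 / 3 ^ d * 1) / 3 ^ (m + 1) * Lg =
        (1 - 1 / 3 ^ d) * LI (d - 1) (t - vv) / 3 ^ (m + 1) * Lg +
          1 / 3 ^ d / 3 ^ (m + 1) * Lg := by
      ring
    rw [e4]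
    linarith
  · rw [if_neg ht] at z1 z2 ⊢
    have e4 : ((1 - 1 / 3 ^ d) * LI (d - 1) (t - vv) + 1 / 3 ^ d * 0) / 3 ^ (m + 1) * Lg =
        (1 - 1 / 3 ^ d) * LI (d - 1) (t - vv) / 3 ^ (m + 1) * Lg := by
      ring
    rw [e4]
    linarith

end Pool.Agent.PTN


end
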