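import Mathlib
import Pool.Agent.PTDM.C22
import Pool.Agent.PTDM.C24
import Pool.Agent.PTDM.C28
import Pool.Agent.PTDM.C39

/-! Parts: PTL.EA, PTL.BK, PT.BSYS, PTL.BS, PT.BFINA, PTL.CL, PTN.SMT, PTN.CLN -/

section

/-!
# Prime power twists: `AdmC` and `Adm` for `n q^E`
-/

set_option autoImplicit false

namespace Pool.Agent.PTL

open Pool.Agent.PT Pool.Agent.Lib_helper18 Pool.Agent.Lib_helper18.Eis Pool.Agent.Lib_helper84.Cub

/-- EAE: `AdmC` and `Adm` for `n q^E`, `E = 1, 2`. -/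
def EAE : Prop := ∀ (n k : ℕ) (π : Fin 0 → PP) (p e : Fin 0 → ℕ) (r f : Fin k → ℕ)
  (w0 : ZMod 3) (c : Fin 0 → ZMod 3) (E q : ℕ), NF n π p e r f → q.Prime → q % 3 = 2 →
  (E = 1 ∨ E = 2) → wt (((q : ℤ) ^ E) ^ 2) = w0 →
  ¬ q ∣ n → BOk ((n : ℤ) * q ^ E) ∧ ∀ x : ℤ, (∀ l : ℕ, l.Prime → (l : ℤ) ∣ x → l ∣ n) →
    (AdmC n π w0 c x ↔ Adm ((n : ℤ) * q ^ E) x)

open EADM in
/-- EAE: `AdmC` and `Adm` for `n q^E`. -/
theorem EAE_thm (hSPP : SPP) (hSCJ : SCJ) : EAE := by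
  intro n k π p e r f w0 c E q hN hq hq3 hE hqw hqn
  obtain ⟨_, _, _, _, _, hSPP6⟩ := hSPP
  obtain ⟨_, _, _, hSCJ4⟩ := hSCJ
  have hn0 : n ≠ 0 := n_ne hN
  have hn3 : ¬ 3 ∣ n := three_not hN
  have hbelow : ∀ π : PP, ∃ l, EADM.Below π l := by
    intro π
    obtain ⟨l, hl, h⟩ := hSPP6 π
    exact ⟨l, hl, h⟩
  have hqE : q ^ E ≠ 0 := pow_ne_zero _ hq.ne_zero
  have hcast : (((n : ℤ) * (q : ℤ) ^ E : ℤ) : Eis) = ((n * q ^ E : ℕ) : Eis) := by push_cast; ring
  have hnq0 : n * q ^ E ≠ 0 := mul_ne_zero hn0 hqE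
  have hB0 : (n : ℤ) * (q : ℤ) ^ E ≠ 0 := by exact_mod_cast hnq0
  have hB3 : ¬ (3 : ℤ) ∣ (n : ℤ) * (q : ℤ) ^ E := by
    intro h
    have h1 : 3 ∣ n * q ^ E := by exact_mod_cast h
    rcases Nat.prime_three.dvd_mul.1 h1 with h2 | h2
    · exact hn3 h2
    · have := (Nat.prime_dvd_prime_iff_eq Nat.prime_three hq).1 (Nat.prime_three.dvd_of_dvd_pow h2)
      omega
  refine ⟨⟨hB0, hB3, ?_⟩, ?_⟩
  · intro ϖ
    obtain ⟨l, hl⟩ := hbelow ϖ
    rw [hcast, hl.V_nat hnq0, Nat.factorization_mul hn0 hqE, Finsupp.add_apply]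
    have h1 := fac_le hN l
    by_cases hlq : l = q
    · have h2 : n.factorization l = 0 := by
        rw [hlq]
        exact Nat.factorization_eq_zero_of_not_dvd hqn
      have h3 : (q ^ E).factorization l = E := by
        rw [hlq, hq.factorization_pow, Finsupp.single_eq_same]
      omega
    · have h3 : (q ^ E).factorization l = 0 := by
        apply Nat.factorization_eq_zero_of_not_dvd
        intro h
        exact hlq ((Nat.prime_dvd_prime_iff_eq hl.pr hq).1 (hl.pr.dvd_of_dvd_pow h))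
      omega
  · intro x hsupp
    have hnine : ¬ (3 : ℤ) ∣ (n : ℤ) := by
      intro h
      exact hn3 (by exact_mod_cast h)
    have hqq : ¬ (3 : ℤ) ∣ (q : ℤ) ^ E := by
      intro h
      have h1 : 3 ∣ q ^ E := by exact_mod_cast h
      have h2 := Nat.prime_three.dvd_of_dvd_pow h1
      omega
    have hC : C9 ((n : ℤ) * (q : ℤ) ^ E) ↔ wt ((n : ℤ) ^ 2) + w0 = 0 := by
      rw [C9_iff hB3, mul_pow, wt_mul (sq_mod_three hnine) (sq_mod_three hqq), hqw]
    constructor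
    · rintro ⟨hx, h3, _, hsym, h9⟩
      refine ⟨hx, h3, ?_, ?_, fun h => h9 (hC.1 h)⟩
      · intro ϖ
        obtain ⟨l, hl⟩ := hbelow ϖ
        rcases hl.h with ⟨hl3, hl2⟩ | ⟨hl3, hl2, hl4, hl5⟩
        · rw [hl2]
          exact hSCJ4 l hl.pr hl3 x _ hx hB0
        · have hln : ¬ l ∣ n := by
            intro hln
            rcases prime_dvd hN hl.pr hln with ⟨i, hi⟩ | ⟨j, hj⟩
            · exact i.elim0
            · have := hN.r2 j
              rw [← hj] at this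
              omega
          have h4 : ¬ ϖ.1 ∣ (x : Eis) := by
            intro h
            exact hln (hsupp l hl.pr ((hl.dvd_int x).1 h))
          have h5 : ¬ ϖ.1 ∣ (((n : ℤ) * (q : ℤ) ^ E : ℤ) : Eis) := by
            rw [hcast, hl.dvd_nat]
            intro h
            rcases hl.pr.dvd_mul.1 h with h6 | h6
            · exact hln h6
            · have := (Nat.prime_dvd_prime_iff_eq hl.pr hq).1 (hl.pr.dvd_of_dvd_pow h6)
              omega
          unfold tm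
          rw [V_eq_zero h4, V_eq_zero h5]
          simp
      · intro ϖ hϖ h
        obtain ⟨l, hl⟩ := hbelow ϖ
        apply hϖ
        rw [hcast, hl.dvd_nat]
        exact (hsupp l hl.pr ((hl.dvd_int x).1 h)).mul_right _
    · rintro ⟨hx, h3, hsym, _, h9⟩
      exact ⟨hx, h3, hsupp, fun i => i.elim0, fun h => h9 (hC.2 h)⟩

end Pool.Agent.PTL


end

section

/-!
# Prime power twists: the rank is bounded by the dimension of the kernel of the matrix
-/

set_option autoImplicit false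

namespace Pool.Agent.PTL

open Pool.Agent.PT Pool.Agent.Lib_helper18 Pool.Agent.Lib_helper18.Eis Pool.Agent.Lib_helper84.Cub

/-- BKE: the rank is bounded by the dimension of the kernel of the matrix. -/
def BKE : Prop := ∀ (n k : ℕ) (π : Fin 0 → PP) (p e : Fin 0 → ℕ) (r f : Fin k → ℕ)
  (w0 : ZMod 3) (c : Fin 0 → ZMod 3) (s : ℕ) (b : Fin s → ℤ) (P Q P' Q' : Fin s → Fin s → ℤ)
  (E q : ℕ), NF n π p e r f → 1 ≤ k → (∀ i, AdmC n π w0 c (b i)) → Sys b P Q P' Q' →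
  (∀ x : ℤ, AdmC n π w0 c x → ∃ (g : Fin s → ℕ) (u v : ℤ), u ≠ 0 ∧ v ≠ 0 ∧
      x * u ^ 3 = (∏ i, b i ^ g i) * v ^ 3) →
  q.Prime → q % 3 = 2 → (E = 1 ∨ E = 2) → wt (((q : ℤ) ^ E) ^ 2) = w0 → ¬ q ∣ n →
  ((∃ j, r j % 9 ≠ 8) ∨ q % 9 ≠ 8) →
  CubeRank.GenBy ((n : ℤ) * q ^ E) (s - (Mat b P Q P' Q' ((n : ℤ) * q ^ E)).rank)

namespace BK

open BKER Pool.Agent.CubeRank

theorem AA_pc {k : ℕ} (E q : ℕ) (r f : Fin k → ℕ) :
    AA (pc q r) (pc E f) = (q : ℤ) ^ E * ∏ i, (r i : ℤ) ^ f i := by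
  unfold AA
  rw [Fin.prod_univ_succ]
  simp [pc]

theorem Z_eq {k : ℕ} (E q : ℕ) (r f : Fin k → ℕ) (v : Fin (k + 1) → ZMod 3) (h0 : v 0 = 2) :
    (Z r f v : ℤ) = cell (pc q r) (pc E f) (fun i => zf (v i)) 0 ^ 2 *
      cell (pc q r) (pc E f) (fun i => zf (v i)) 1 := by
  unfold cell Z
  rw [Fin.prod_univ_succ, Fin.prod_univ_succ]
  have h1 : zf (v 0) ≠ 0 := by rw [h0]; decide
  have h2 : zf (v 0) ≠ 1 := by rw [h0]; decide
  rw [if_neg h1, if_neg h2, one_mul, one_mul, ← Finset.prod_pow, ← Finset.prod_mul_distrib]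
  push_cast
  refine Finset.prod_congr rfl (fun j _ => ?_)
  simp only [pc, Fin.cons_succ]
  rcases cases3 (v j.succ) with h | h | h
  · rw [h, if_pos (by decide), if_neg (by decide), mul_one, ← pow_mul]
    rfl
  · rw [h, if_neg (by decide), if_pos (by decide), one_pow, one_mul]
    have : (2 - (1 : ZMod 3).val) = 1 := by decide
    rw [this, mul_one]
  · rw [h, if_neg (by decide), if_neg (by decide), one_pow, one_mul]
    have : (2 - (2 : ZMod 3).val) = 0 := by decide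
    rw [this, mul_zero, pow_zero]

theorem AA_eq {n k : ℕ} {π : Fin 0 → PP} {p e : Fin 0 → ℕ} {r f : Fin k → ℕ}
    (hNF : NF n π p e r f) (E q : ℕ) :
    AA (pc q r) (pc E f) = (n : ℤ) * q ^ E := by
  rw [AA_pc, NF_eq hNF]
  push_cast
  ring

theorem main (hEAE : EAE) (hFDX : FDX) (hTEND : TEND) {n k : ℕ} {π : Fin 0 → PP}
    {p e : Fin 0 → ℕ} {r f : Fin k → ℕ} {w0 : ZMod 3} {c : Fin 0 → ZMod 3} {s : ℕ}
    {b : Fin s → ℤ} {P Q P' Q' : Fin s → Fin s → ℤ} {E q : ℕ} (hNF : NF n π p e r f)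
    (hAdm : ∀ i, AdmC n π w0 c (b i)) (hSys : Sys b P Q P' Q')
    (hgen : ∀ x : ℤ, AdmC n π w0 c x → ∃ (g : Fin s → ℕ) (u v : ℤ), u ≠ 0 ∧ v ≠ 0 ∧
      x * u ^ 3 = (∏ i, b i ^ g i) * v ^ 3)
    (hq : q.Prime) (hq2 : q % 3 = 2) (hEE : E = 1 ∨ E = 2) (hw : wt (((q : ℤ) ^ E) ^ 2) = w0)
    (hqn : ¬ q ∣ n)
    (hG : HypG (pc q r) (pc E f)) {v : Fin (k + 1) → ZMod 3} (hv : UG (pc q r) (pc E f) v)
    (h0 : v 0 = 2) :
    ∃ (g : Fin s → ℕ) (u y : ℤ), u ≠ 0 ∧ y ≠ 0 ∧ (Z r f v : ℤ) * u ^ 3 =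
      (∏ i, b i ^ g i) * y ^ 3 ∧
      ∀ j, ∑ i, Mat b P Q P' Q' ((n : ℤ) * q ^ E) j i * (g i : ZMod 3) = 0 := by
  obtain ⟨hB, hE⟩ := hEAE n k π p e r f w0 c E q hNF hq hq2 hEE hw hqn
  have hA : ∀ i, Adm ((n : ℤ) * q ^ E) (b i) := fun i => (hE _ (hAdm i).supp).1 (hAdm i)
  by_cases hc : ∃ c, ∀ i, v i = c
  · obtain ⟨d, hd⟩ := hc
    have hd2 : d = 2 := by rw [← hd 0, h0]
    refine ⟨0, 1, 1, one_ne_zero, one_ne_zero, ?_, fun j => by simp⟩
    have hZ : Z r f v = 1 := by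
      unfold Z
      refine Finset.prod_eq_one (fun j _ => ?_)
      rw [hd, hd2]
      have : (2 - (2 : ZMod 3).val) = 0 := by decide
      rw [this, mul_zero, pow_zero]
    rw [hZ]
    simp
  · obtain ⟨x, hx⟩ := CubeRank.UG_rep hG hv hc
    obtain ⟨hPt, hAz⟩ := hFDX ((n : ℤ) * q ^ E) (cell (pc q r) (pc E f) (fun i => zf (v i))) x hB
      hx.ne hx.sum (by
        rw [Fin.prod_univ_three, cell_prod]
        exact AA_eq hNF E q) hx.cop
    rw [← Z_eq E q r f v h0] at hPt hAz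
    have hsupp : ∀ l : ℕ, l.Prime → (l : ℤ) ∣ (Z r f v : ℤ) → l ∣ n := by
      intro l hl hlZ
      rw [Int.natCast_dvd_natCast, Z, hl.prime.dvd_finset_prod_iff] at hlZ
      obtain ⟨j, -, hj⟩ := hlZ
      exact (hl.dvd_of_dvd_pow hj).trans (r_dvd hNF j)
    obtain ⟨g, u, y, hu, hy, hg⟩ := hgen _ ((hE _ hsupp).2 hAz)
    refine ⟨g, u, y, hu, hy, hg, ?_⟩
    by_cases hex : ∃ i, ¬ 3 ∣ g i
    · generalize (Z r f v : ℤ) = z at *
      set W : ℤ := ∏ i, b i ^ g i with hW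
      obtain ⟨c0, hc0, h1⟩ := hPt.eq
      have hPt' : Pt ((n : ℤ) * q ^ E) (∏ i, b i ^ g i)
          (u * y * (cell (pc q r) (pc E f) (fun i => zf (v i)) 0 * x 0)) (y ^ 2 * x 1) := by
        refine ⟨mul_ne_zero (mul_ne_zero hu hy) hPt.hX, mul_ne_zero (pow_ne_zero 2 hy) hPt.hY,
          c0 * u ^ 2, mul_ne_zero hc0 (pow_ne_zero 2 hu), ?_⟩
        rw [← hW]
        generalize cell (pc q r) (pc E f) (fun i => zf (v i)) 0 * x 0 = X1 at *
        generalize x 1 = Y1 at *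
        have e1 : W * ((u * y * X1) ^ 3 + W * (y ^ 2 * Y1) ^ 3) =
            (W * y ^ 3) * (u ^ 3 * X1 ^ 3 + (W * y ^ 3) * Y1 ^ 3) := by ring
        rw [e1, ← hg]
        have e2 : z * u ^ 3 * (u ^ 3 * X1 ^ 3 + z * u ^ 3 * Y1 ^ 3) =
            u ^ 6 * (z * (X1 ^ 3 + z * Y1 ^ 3)) := by ring
        rw [e2, h1]
        ring
      exact (hTEND s b P Q P' Q' ((n : ℤ) * q ^ E) hSys hB hA).2 g _ _ hex hPt'
    · push Not at hex
      intro j
      refine Finset.sum_eq_zero (fun i _ => ?_)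
      rw [(ZMod.natCast_eq_zero_iff (g i) 3).2 (hex i), mul_zero]

end BK

open BKER _root_.Pool.Agent.PTL.BK in
/-- BKE: the rank is bounded by the dimension of the kernel of the matrix. -/
theorem BKE_thm (hEAE : EAE) (hFDX : FDX) (hTEND : TEND) : BKE := by
  classical
  intro n k π p e r f w0 c s b P Q P' Q' E q hNF hk hAdm hSys hgen hq hq2 hEE hw hqn hex
  have hG : CubeRank.HypG (pc q r) (pc E f) := by
    refine CubeRank.hypG_of (fun i => ?_) (fun i => ?_) ?_ (fun i => ?_) ?_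
    · refine Fin.cases ?_ (fun i => ?_) i
      · simpa [pc] using hq
      · simpa [pc] using hNF.rp i
    · refine Fin.cases ?_ (fun i => ?_) i
      · simpa [pc] using hq2
      · simpa [pc] using hNF.r2 i
    · unfold pc
      rw [Fin.cons_injective_iff]
      refine ⟨?_, hNF.rinj⟩
      rintro ⟨i, hi⟩
      exact hqn (by rw [← hi]; exact r_dvd hNF i)
    · refine Fin.cases ?_ (fun i => ?_) i
      · simpa [pc] using hEE
      · simpa [pc] using hNF.rf i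
    · rcases hex with ⟨j, hj⟩ | h
      · exact ⟨j.succ, by simpa [pc] using hj⟩
      · exact ⟨0, by simpa [pc] using h⟩
  set M := Mat b P Q P' Q' ((n : ℤ) * q ^ E) with hMdef
  have H : ∀ v : {v // CubeRank.UG (pc q r) (pc E f) v},
      ∃ (g : Fin s → ℕ) (u y : ℤ), u ≠ 0 ∧ y ≠ 0 ∧
        (Z r f (v.1 + fun _ => 2 - v.1 0) : ℤ) * u ^ 3 = (∏ i, b i ^ g i) * y ^ 3 ∧
        ∀ j, ∑ i, M j i * (g i : ZMod 3) = 0 := by
    intro v
    exact BK.main hEAE hFDX hTEND hNF hAdm hSys hgen hq hq2 hEE hw hqn hG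
      (CubeRank.UG_add hG v.2 (CubeRank.UG_const _ _ _)) (by
        simp only [Pi.add_apply]; ring)
  choose g u y hu hy hZ hM using H
  let F : {v // CubeRank.UG (pc q r) (pc E f) v} → ZMod 3 × LinearMap.ker M.mulVecLin :=
    fun v => (v.1 0, ⟨fun i => (g v i : ZMod 3), by
      rw [LinearMap.mem_ker]
      funext j
      exact hM v j⟩)
  have hF : Function.Injective F := by
    intro v v' hvv
    have h0 : v.1 0 = v'.1 0 := congrArg Prod.fst hvv
    have h1 : ∀ i, (g v i : ZMod 3) = g v' i := by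
      intro i
      have h2 := congrArg (fun x => (x.2 : Fin s → ZMod 3) i) hvv
      exact h2
    obtain ⟨A, B, hA, hB, hAB⟩ := prod_cube b (fun i => (hAdm i).ne) (g v) (g v') h1
    have h3 := Z_inj (v := v.1 + fun _ => 2 - v.1 0) (v' := v'.1 + fun _ => 2 - v'.1 0)
      hNF.rp hNF.rinj hNF.rf (by simp only [Pi.add_apply]; ring)
      (A := u v * A * y v') (B := u v' * B * y v)
      (mul_ne_zero (mul_ne_zero (hu v) hA) (hy v')) (mul_ne_zero (mul_ne_zero (hu v') hB) (hy v))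
      (by
        have e1 := hZ v
        have e2 := hZ v'
        generalize (Z r f (v.1 + fun _ => 2 - v.1 0) : ℤ) = z1 at *
        generalize (Z r f (v'.1 + fun _ => 2 - v'.1 0) : ℤ) = z2 at *
        linear_combination (A ^ 3 * y v' ^ 3) * e1 - (B ^ 3 * y v ^ 3) * e2 +
          (y v ^ 3 * y v' ^ 3) * hAB)
    apply Subtype.ext
    rw [h0] at h3
    exact add_right_cancel h3
  have hcard := Nat.card_le_card_of_injective F hF
  have hker : Module.finrank (ZMod 3) (LinearMap.ker M.mulVecLin) = s - M.rank := by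
    have h1 := LinearMap.finrank_range_add_finrank_ker M.mulVecLin
    rw [Module.finrank_fintype_fun_eq_card, Fintype.card_fin] at h1
    have h2 : Module.finrank (ZMod 3) (LinearMap.range M.mulVecLin) = M.rank := rfl
    omega
  rw [Nat.card_prod, Nat.card_zmod,
    Module.natCard_eq_pow_finrank (K := ZMod 3) (V := LinearMap.ker M.mulVecLin), Nat.card_zmod,
    hker] at hcard
  have hfin := CubeRank.gen_of_cardG (by omega) hG (s - M.rank) (by
    rw [pow_succ, mul_comm]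
    exact hcard)
  rw [BK.AA_eq hNF E q] at hfin
  exact hfin

end Pool.Agent.PTL


end

section

/-!
# Prime twists: systems for products of primes `= 2 (mod 3)`
-/

set_option autoImplicit false

namespace Pool.Agent.PT

open Pool.Agent.Lib_helper18 Pool.Agent.Lib_helper18.Eis Pool.Agent.Lib_helper84.Cub

namespace BSYS

/-- A basis of `W` with at most one vector outside the kernel of `lam`. -/
theorem basis_exists {k : ℕ} (W : Submodule (ZMod 3) (Fin k → ZMod 3))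
    (φ : (Fin k → ZMod 3) →ₗ[ZMod 3] ZMod 3) :
    ∃ (s : ℕ) (v : Fin s → Fin k → ZMod 3), (∀ i, v i ∈ W) ∧
      (∀ g : Fin s → ZMod 3, ∑ i, g i • v i = 0 → g = 0) ∧
      (∀ x ∈ W, ∃ g : Fin s → ZMod 3, x = ∑ i, g i • v i) ∧
      ∀ i j, i ≠ j → φ (v i) = 0 ∨ φ (v j) = 0 := by
  have gen : ∀ (s : ℕ) (B : Module.Basis (Fin s) (ZMod 3) W),
      (∀ i j, i ≠ j → φ (B i) = 0 ∨ φ (B j) = 0) →
      ∃ (s : ℕ) (v : Fin s → Fin k → ZMod 3), (∀ i, v i ∈ W) ∧
      (∀ g : Fin s → ZMod 3, ∑ i, g i • v i = 0 → g = 0) ∧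
      (∀ x ∈ W, ∃ g : Fin s → ZMod 3, x = ∑ i, g i • v i) ∧
      ∀ i j, i ≠ j → φ (v i) = 0 ∨ φ (v j) = 0 := by
    intro s B hB
    refine ⟨s, fun i => B i, fun i => (B i).2, ?_, ?_, hB⟩
    · intro g hg
      have h1 : ∑ i, g i • B i = 0 := by
        apply Subtype.ext
        rw [Submodule.coe_sum]
        simpa using hg
      funext i
      exact Fintype.linearIndependent_iff.mp B.linearIndependent g h1 i
    · intro x hx
      refine ⟨fun i => B.repr ⟨x, hx⟩ i, ?_⟩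
      have h1 := congrArg (Subtype.val : W → Fin k → ZMod 3) (B.sum_repr ⟨x, hx⟩)
      rw [Submodule.coe_sum] at h1
      simpa using h1.symm
  let N : Submodule (ZMod 3) (Fin k → ZMod 3) := W ⊓ LinearMap.ker φ
  let b := Module.finBasis (ZMod 3) N
  have hb : ∀ i, φ (b i) = 0 := fun i => LinearMap.mem_ker.mp (b i).2.2
  by_cases h : ∃ y ∈ W, φ y ≠ 0
  · obtain ⟨y, hy, hyφ⟩ := h
    have hNW : N ≤ W := inf_le_left
    have hli : ∀ (c : ZMod 3), ∀ x ∈ N, c • y + x = 0 → c = 0 := by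
      intro c x hx h1
      have h2 := congrArg φ h1
      rw [map_add, map_smul, map_zero, LinearMap.mem_ker.mp hx.2, add_zero, smul_eq_mul] at h2
      exact (mul_eq_zero.mp h2).resolve_right hyφ
    have hsp : ∀ z ∈ W, ∃ c : ZMod 3, z + c • y ∈ N := by
      intro z hz
      refine ⟨-(φ z / φ y), Submodule.mem_inf.mpr ⟨W.add_mem hz (W.smul_mem _ hy), ?_⟩⟩
      rw [LinearMap.mem_ker, map_add, map_smul, smul_eq_mul, neg_mul, div_mul_cancel₀ _ hyφ,
        add_neg_cancel]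
    refine gen _ (Module.Basis.mkFinConsOfLE y hy b hNW hli hsp) ?_
    intro i j hij
    rw [Module.Basis.coe_mkFinConsOfLE]
    rcases Fin.eq_zero_or_eq_succ i with rfl | ⟨i', rfl⟩
    · rcases Fin.eq_zero_or_eq_succ j with rfl | ⟨j', rfl⟩
      · exact absurd rfl hij
      · right
        rw [Fin.cons_succ]
        exact hb j'
    · left
      rw [Fin.cons_succ]
      exact hb i'
  · push Not at h
    have hWN : W = N := le_antisymm (fun x hx => ⟨hx, LinearMap.mem_ker.mpr (h x hx)⟩) inf_le_left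
    refine gen _ (b.map (LinearEquiv.ofEq N W hWN.symm)) ?_
    intro i j _
    left
    exact hb i

section

variable {k : ℕ} {r : Fin k → ℕ}

/-- The product of the powers of the `r j`. -/
def R (r : Fin k → ℕ) (A : Fin k → ℕ) : ℕ := ∏ j, r j ^ A j

theorem R_ne (hr : ∀ j, (r j).Prime) (A : Fin k → ℕ) : R r A ≠ 0 :=
  Finset.prod_ne_zero_iff.mpr fun j _ => pow_ne_zero _ (hr j).ne_zero

theorem R_supp (hr : ∀ j, (r j).Prime) {A : Fin k → ℕ} {l : ℕ} (hl : l.Prime)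
    (h : l ∣ R r A) : ∃ j, l = r j := by
  obtain ⟨j, -, hj⟩ := (Prime.dvd_finsetProd_iff hl.prime _).mp h
  exact ⟨j, (Nat.prime_dvd_prime_iff_eq hl (hr j)).mp (hl.dvd_of_dvd_pow hj)⟩

theorem R_val (hr : ∀ j, (r j).Prime) (hinj : Function.Injective r) (A : Fin k → ℕ) (j : Fin k) :
    padicValInt (r j) (R r A : ℤ) = A j := by
  classical
  have hf : Fact (r j).Prime := ⟨hr j⟩
  rw [padicValInt.of_nat, R, ← Finset.mul_prod_erase _ _ (Finset.mem_univ j), padicValNat.mul,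
    padicValNat.prime_pow, padicValNat.eq_zero_of_not_dvd, add_zero]
  · intro h
    obtain ⟨j', hj', h1⟩ := (Prime.dvd_finsetProd_iff (hr j).prime _).mp h
    have h2 := (Nat.prime_dvd_prime_iff_eq (hr j) (hr j')).mp ((hr j).dvd_of_dvd_pow h1)
    exact (Finset.mem_erase.mp hj').1 (hinj h2).symm
  · exact pow_ne_zero _ (hr j).ne_zero
  · exact Finset.prod_ne_zero_iff.mpr fun j' _ => pow_ne_zero _ (hr j').ne_zero

theorem V_prod {l : Eis} (hl : Prime l) {ι : Type} (s : Finset ι) (f : ι → Eis)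
    (hf : ∀ i, f i ≠ 0) : V l (∏ i ∈ s, f i) = ∑ i ∈ s, V l (f i) := by
  classical
  induction s using Finset.induction_on with
  | empty =>
    rw [Finset.prod_empty, Finset.sum_empty]
    exact V_eq_zero fun h => hl.not_isUnit (isUnit_of_dvd_one h)
  | insert a s ha ih =>
    rw [Finset.prod_insert ha, Finset.sum_insert ha, V_mul hl (hf a)
      (Finset.prod_ne_zero_iff.mpr fun i _ => hf i), ih]

theorem nat_ne {n : ℕ} (h : n ≠ 0) : (n : Eis) ≠ 0 := by
  intro h'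
  have := congrArg Eis.re h'
  simp at this
  exact h this

/-- The valuations of the products are bounded. -/
theorem R_V (hSPP : SPP) (hr : ∀ j, (r j).Prime) (hr2 : ∀ j, r j % 3 = 2)
    (hinj : Function.Injective r) {A : Fin k → ℕ} (hA : ∀ j, A j ≤ 2) (π : PP) :
    V π.1 ((R r A : ℤ) : Eis) ≤ 2 := by
  classical
  have hπ : Prime π.1 := π.2.1
  have hd : ∀ j, π.1 ∣ (r j : Eis) → π.1 = (r j : Eis) := by
    intro j h
    obtain ⟨π', hπ'⟩ := hSPP.2.2.2.2.1 (r j) (hr j) (hr2 j)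
    rw [← hπ'] at h ⊢
    rw [hSPP.2.1 π π' (hπ.associated_of_dvd π'.2.1 h)]
  have h1 : ((R r A : ℤ) : Eis) = ∏ j, (r j : Eis) ^ A j := by
    rw [R]
    push_cast
    rfl
  have h2 : ∀ j, (r j : Eis) ≠ 0 := fun j => nat_ne (hr j).ne_zero
  rw [h1, V_prod hπ _ _ fun j => pow_ne_zero _ (h2 j)]
  by_cases h : ∃ j, π.1 = (r j : Eis)
  · obtain ⟨j, hj⟩ := h
    rw [Finset.sum_eq_single j]
    · rw [V_pow hπ (h2 j), ← hj, V_self, mul_one]
      exact hA j
    · intro j' _ hne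
      apply V_eq_zero
      intro h3
      have h4 := hd j' (hπ.dvd_of_dvd_pow h3)
      rw [hj] at h4
      have h5 := congrArg Eis.re h4
      simp at h5
      exact hne (hinj h5).symm
    · intro h3
      exact absurd (Finset.mem_univ _) h3
  · rw [Finset.sum_eq_zero]
    · norm_num
    · intro j _
      apply V_eq_zero
      intro h3
      exact h ⟨j, hd j (hπ.dvd_of_dvd_pow h3)⟩

end

end BSYS

open _root_.Pool.Agent.PT.BSYS in
theorem BSYS_thm (hEVEC : EVEC) (hESYS : ESYS) (hSPP : SPP) : BSYS := by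
  classical
  intro n k π p e r f w0 c hNF
  obtain ⟨hE1, hE2⟩ := hEVEC n 0 k π p e r f w0 c hNF
  have hr := hNF.rp
  have hinj := hNF.rinj
  have hn : n = ∏ j, r j ^ f j := by
    rw [hNF.eq, Finset.univ_eq_empty (α := Fin 0), Finset.prod_empty, one_mul]
  have hrn : ∀ j, r j ∣ n := by
    intro j
    rw [hn]
    refine (dvd_pow_self (r j) ?_).trans (Finset.dvd_prod_of_mem _ (Finset.mem_univ j))
    rcases hNF.rf j with h | h <;> omega
  -- the functional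
  let φ : (Fin k → ZMod 3) →ₗ[ZMod 3] ZMod 3 :=
    ∑ j, wt ((r j : ℤ) ^ 2) • LinearMap.proj j
  have hφ : ∀ z, φ z = ∑ j, z j * wt ((r j : ℤ) ^ 2) := by
    intro z
    change (∑ j, wt ((r j : ℤ) ^ 2) • LinearMap.proj j : (Fin k → ZMod 3) →ₗ[ZMod 3] ZMod 3) z = _
    rw [LinearMap.sum_apply]
    refine Finset.sum_congr rfl fun j _ => ?_
    rw [LinearMap.smul_apply, LinearMap.proj_apply, smul_eq_mul, mul_comm]
  let W : Submodule (ZMod 3) (Fin k → ZMod 3) :=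
    if wt ((n : ℤ) ^ 2) + w0 = 0 then LinearMap.ker φ else ⊤
  have hW : ∀ z, z ∈ W ↔ (wt ((n : ℤ) ^ 2) + w0 = 0 → φ z = 0) := by
    intro z
    change z ∈ (if wt ((n : ℤ) ^ 2) + w0 = 0 then LinearMap.ker φ else ⊤) ↔ _
    split_ifs with h
    · rw [LinearMap.mem_ker]
      exact ⟨fun h1 _ => h1, fun h1 => h1 h⟩
    · exact ⟨fun _ h1 => absurd h1 h, fun _ => Submodule.mem_top⟩
  obtain ⟨s, v, hv1, hv2, hv3, hv4⟩ := basis_exists W φ
  -- elementary facts on the products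
  have hR0 : ∀ A, (R r A : ℤ) ≠ 0 := fun A => by exact_mod_cast R_ne hr A
  have hRs : ∀ A, ∀ l : ℕ, l.Prime → (l : ℤ) ∣ (R r A : ℤ) → l ∣ n := by
    intro A l hl h
    obtain ⟨j, rfl⟩ := R_supp hr hl (Int.natCast_dvd_natCast.mp h)
    exact hrn j
  have hR3 : ∀ A, ¬ (3 : ℤ) ∣ (R r A : ℤ) := by
    intro A h
    have h1 : ((3 : ℕ) : ℤ) ∣ (R r A : ℤ) := by exact_mod_cast h
    obtain ⟨j, hj⟩ := R_supp hr Nat.prime_three (Int.natCast_dvd_natCast.mp h1)
    have h2 := hNF.r2 j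
    omega
  have hRv : ∀ A j, (padicValInt (r j) (R r A : ℤ) : ZMod 3) = A j := fun A j => by
    rw [R_val hr hinj]
  have hRφ : ∀ A : Fin k → ℕ, (∑ i : Fin 0, (padicValInt (p i) (R r A : ℤ) : ZMod 3) *
      wt ((p i : ℤ) ^ 2)) + ∑ j, (padicValInt (r j) (R r A : ℤ) : ZMod 3) *
      wt ((r j : ℤ) ^ 2) = φ fun j => (A j : ZMod 3) := by
    intro A
    rw [Finset.univ_eq_empty (α := Fin 0), Finset.sum_empty, zero_add, hφ]
    exact Finset.sum_congr rfl fun j _ => by rw [hRv]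
  have hRC : ∀ A : Fin k → ℕ, AdmC n π w0 c (R r A : ℤ) ↔ (fun j => (A j : ZMod 3)) ∈ W := by
    intro A
    rw [(hE1 _ (hR0 A) (hR3 A) (hRs A)).1, hRφ, hW]
    exact ⟨fun h => h.2, fun h => ⟨fun i => i.elim0, h⟩⟩
  have hR9 : ∀ A : Fin k → ℕ, C9 (R r A : ℤ) ↔ φ (fun j => (A j : ZMod 3)) = 0 := by
    intro A
    rw [(hE1 _ (hR0 A) (hR3 A) (hRs A)).2, hRφ]
  -- the basis
  let a : Fin s → Fin k → ℕ := fun i j => (v i j).val
  have ha : ∀ i, (fun j => (a i j : ZMod 3)) = v i := by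
    intro i
    funext j
    exact ZMod.natCast_zmod_val (v i j)
  let b : Fin s → ℤ := fun i => (R r (a i) : ℤ)
  have hprod : ∀ g : Fin s → ℕ, ∏ i, b i ^ g i = (R r (fun j => ∑ i, g i * a i j) : ℤ) := by
    intro g
    change ∏ i, ((R r (a i) : ℕ) : ℤ) ^ g i = _
    unfold R
    push_cast
    simp only [← Finset.prod_pow]
    rw [Finset.prod_comm]
    refine Finset.prod_congr rfl fun j _ => ?_
    rw [← Finset.prod_pow_eq_pow_sum]
    refine Finset.prod_congr rfl fun i _ => ?_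
    rw [← pow_mul, mul_comm]
  have hAdm : ∀ i, AdmC n π w0 c (b i) := by
    intro i
    rw [hRC, ha]
    exact hv1 i
  have hind : ∀ g : Fin s → ℕ, (∃ i, ¬ 3 ∣ g i) → ¬ ∃ t : ℤ, t ^ 3 = ∏ i, b i ^ g i := by
    rintro g ⟨i, hi⟩ ⟨t, ht⟩
    rw [hprod] at ht
    have ht0 : t ≠ 0 := by
      rintro rfl
      exact hR0 _ (by rw [← ht]; norm_num)
    have h1 := (hE2 (R r fun j => ∑ i, g i * a i j) 1 (hR0 _) one_ne_zero (hRs _) (by
      intro l hl h
      exact absurd (Int.natCast_dvd_natCast.mp (by exact_mod_cast h) : l ∣ 1)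
        hl.not_dvd_one)).mp ⟨1, t, one_ne_zero, ht0, by rw [← ht]; ring⟩
    have h2 : (fun i => (g i : ZMod 3)) = 0 := by
      apply hv2
      funext j
      have h3 := h1.2 j
      rw [hRv, padicValInt.one] at h3
      push_cast at h3
      rw [Finset.sum_apply, Pi.zero_apply, ← h3]
      refine Finset.sum_congr rfl fun i _ => ?_
      rw [Pi.smul_apply, smul_eq_mul, ← congrFun (ha i) j]
    have h3 := congrFun h2 i
    exact hi ((ZMod.natCast_eq_zero_iff (g i) 3).mp h3)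
  have h9 : ∀ i j, i ≠ j → C9 (b i) ∨ C9 (b j) := by
    intro i j hij
    rw [hR9, hR9, ha, ha]
    exact hv4 i j hij
  have hV : ∀ i (π : PP), V π.1 (b i : Eis) ≤ 2 := by
    intro i π
    refine R_V hSPP hr hNF.r2 hinj (fun j => ?_) π
    have := ZMod.val_lt (v i j)
    change (v i j).val ≤ 2
    omega
  obtain ⟨P, Q, P', Q', hSys⟩ := hESYS n 0 k π p e r f w0 c s b hNF hAdm hV hind h9
  refine ⟨s, b, P, Q, P', Q', hAdm, hSys, ?_⟩
  intro x hx
  have h1 := (hE1 x hx.ne hx.three hx.supp).1.mp hx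
  have h2 : (fun j => (padicValInt (r j) x : ZMod 3)) ∈ W := by
    rw [hW, hφ]
    intro h
    have h3 := h1.2 h
    rwa [Finset.univ_eq_empty (α := Fin 0), Finset.sum_empty, zero_add] at h3
  obtain ⟨g, hg⟩ := hv3 _ h2
  obtain ⟨u, w, hu, hw, huw⟩ := (hE2 x (R r fun j => ∑ i, (g i).val * a i j) hx.ne (hR0 _)
    hx.supp (hRs _)).mpr ⟨fun i => i.elim0, fun j => by
      rw [hRv]
      have h3 := congrFun hg j
      change (padicValInt (r j) x : ZMod 3) = _ at h3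
      rw [h3, Finset.sum_apply]
      push_cast
      refine Finset.sum_congr rfl fun i _ => ?_
      rw [Pi.smul_apply, smul_eq_mul, ← congrFun (ha i) j, ZMod.natCast_zmod_val (g i)]⟩
  refine ⟨fun i => (g i).val, u, w, hu, hw, ?_⟩
  rw [hprod]
  exact huw

end Pool.Agent.PT


end

section

/-!
# Prime power twists: systems for products of primes `= 2 (mod 3)`, with their size
-/

set_option autoImplicit false

namespace Pool.Agent.PTL

open Pool.Agent.PT Pool.Agent.Lib_helper18 Pool.Agent.Lib_helper18.Eis Pool.Agent.Lib_helper84.Cub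

open Classical in
/-- BSE: systems for products of primes `= 2 (mod 3)`, all classes modulo `9`. -/
def BSE : Prop := ∀ (n k : ℕ) (π : Fin 0 → PP) (p e : Fin 0 → ℕ) (r f : Fin k → ℕ)
  (w0 : ZMod 3) (c : Fin 0 → ZMod 3), NF n π p e r f →
  ∃ (s : ℕ) (b : Fin s → ℤ) (P Q P' Q' : Fin s → Fin s → ℤ),
    (s = if wt ((n : ℤ) ^ 2) + w0 = 0 ∧ ∃ j, wt ((r j : ℤ) ^ 2) ≠ 0 then k - 1 else k) ∧
    (∀ i, AdmC n π w0 c (b i)) ∧ Sys b P Q P' Q' ∧
    (∀ x : ℤ, AdmC n π w0 c x → ∃ (g : Fin s → ℕ) (u v : ℤ), u ≠ 0 ∧ v ≠ 0 ∧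
      x * u ^ 3 = (∏ i, b i ^ g i) * v ^ 3)

namespace BS

instance : Fact (Nat.Prime 3) := ⟨Nat.prime_three⟩

theorem size {k s : ℕ} (W : Submodule (ZMod 3) (Fin k → ZMod 3)) (v : Fin s → Fin k → ZMod 3)
    (h1 : ∀ i, v i ∈ W) (h2 : ∀ g : Fin s → ZMod 3, ∑ i, g i • v i = 0 → g = 0)
    (h3 : ∀ x ∈ W, ∃ g : Fin s → ZMod 3, x = ∑ i, g i • v i) :
    s = Module.finrank (ZMod 3) W := by
  have hli : LinearIndependent (ZMod 3) v := by
    rw [Fintype.linearIndependent_iff]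
    intro g hg i
    rw [h2 g hg]
    rfl
  have hspan : Submodule.span (ZMod 3) (Set.range v) = W := by
    apply le_antisymm
    · rw [Submodule.span_le]
      rintro _ ⟨i, rfl⟩
      exact h1 i
    · intro x hx
      obtain ⟨g, rfl⟩ := h3 x hx
      exact Submodule.sum_mem _ fun i _ => Submodule.smul_mem _ _
        (Submodule.subset_span ⟨i, rfl⟩)
  have h4 := finrank_span_eq_card hli
  rw [hspan, Fintype.card_fin] at h4
  exact h4.symm

theorem fin_ker {k : ℕ} (φ : (Fin k → ZMod 3) →ₗ[ZMod 3] ZMod 3) (h : φ ≠ 0) :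
    Module.finrank (ZMod 3) (LinearMap.ker φ) = k - 1 := by
  have h1 := LinearMap.finrank_range_add_finrank_ker φ
  rw [LinearMap.range_eq_top.2 (LinearMap.surjective h), finrank_top,
    Module.finrank_self, Module.finrank_fintype_fun_eq_card, Fintype.card_fin] at h1
  omega

end BS

open BSYS in
/-- BSE -/
theorem BSE_thm (hEVEC : EVEC) (hESYS : ESYS) (hSPP : SPP) : BSE := by
  classical
  intro n k π p e r f w0 c hNF
  obtain ⟨hE1, hE2⟩ := hEVEC n 0 k π p e r f w0 c hNF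
  have hr := hNF.rp
  have hinj := hNF.rinj
  have hn : n = ∏ j, r j ^ f j := by
    rw [hNF.eq, Finset.univ_eq_empty (α := Fin 0), Finset.prod_empty, one_mul]
  have hrn : ∀ j, r j ∣ n := by
    intro j
    rw [hn]
    refine (dvd_pow_self (r j) ?_).trans (Finset.dvd_prod_of_mem _ (Finset.mem_univ j))
    rcases hNF.rf j with h | h <;> omega
  -- the functional
  let φ : (Fin k → ZMod 3) →ₗ[ZMod 3] ZMod 3 :=
    ∑ j, wt ((r j : ℤ) ^ 2) • LinearMap.proj j
  have hφ : ∀ z, φ z = ∑ j, z j * wt ((r j : ℤ) ^ 2) := by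
    intro z
    change (∑ j, wt ((r j : ℤ) ^ 2) • LinearMap.proj j : (Fin k → ZMod 3) →ₗ[ZMod 3] ZMod 3) z = _
    rw [LinearMap.sum_apply]
    refine Finset.sum_congr rfl fun j _ => ?_
    rw [LinearMap.smul_apply, LinearMap.proj_apply, smul_eq_mul, mul_comm]
  let W : Submodule (ZMod 3) (Fin k → ZMod 3) :=
    if wt ((n : ℤ) ^ 2) + w0 = 0 then LinearMap.ker φ else ⊤
  have hW : ∀ z, z ∈ W ↔ (wt ((n : ℤ) ^ 2) + w0 = 0 → φ z = 0) := by
    intro z
    change z ∈ (if wt ((n : ℤ) ^ 2) + w0 = 0 then LinearMap.ker φ else ⊤) ↔ _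
    split_ifs with h
    · rw [LinearMap.mem_ker]
      exact ⟨fun h1 _ => h1, fun h1 => h1 h⟩
    · exact ⟨fun _ h1 => absurd h1 h, fun _ => Submodule.mem_top⟩
  obtain ⟨s, v, hv1, hv2, hv3, hv4⟩ := basis_exists W φ
  have hsz := BS.size W v hv1 hv2 hv3
  have hφ0 : φ ≠ 0 ↔ ∃ j, wt ((r j : ℤ) ^ 2) ≠ 0 := by
    constructor
    · intro h
      by_contra h1
      push Not at h1
      apply h
      refine LinearMap.ext fun z => ?_
      rw [hφ, LinearMap.zero_apply]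
      exact Finset.sum_eq_zero fun j _ => by rw [h1 j, mul_zero]
    · rintro ⟨j, hj⟩ h
      apply hj
      have h1 := congrArg (fun ψ : (Fin k → ZMod 3) →ₗ[ZMod 3] ZMod 3 => ψ (Pi.single j 1)) h
      simp only [LinearMap.zero_apply] at h1
      rw [hφ, Finset.sum_eq_single j (fun i _ hij => by rw [Pi.single_eq_of_ne hij, zero_mul])
        (fun h => absurd (Finset.mem_univ j) h), Pi.single_eq_same, one_mul] at h1
      exact h1
  have hsz' : s = if wt ((n : ℤ) ^ 2) + w0 = 0 ∧ ∃ j, wt ((r j : ℤ) ^ 2) ≠ 0 then k - 1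
      else k := by
    rw [hsz]
    change Module.finrank (ZMod 3) (if wt ((n : ℤ) ^ 2) + w0 = 0 then LinearMap.ker φ else ⊤ :
      Submodule (ZMod 3) (Fin k → ZMod 3)) = _
    by_cases ha : wt ((n : ℤ) ^ 2) + w0 = 0
    · rw [if_pos ha]
      by_cases hb : ∃ j, wt ((r j : ℤ) ^ 2) ≠ 0
      · rw [if_pos ⟨ha, hb⟩]
        exact BS.fin_ker φ (hφ0.2 hb)
      · rw [if_neg fun h => hb h.2]
        have h0 : φ = 0 := by
          by_contra h
          exact hb (hφ0.1 h)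
        rw [h0, LinearMap.ker_zero, finrank_top, Module.finrank_fintype_fun_eq_card,
          Fintype.card_fin]
    · rw [if_neg ha, if_neg fun h => ha h.1, finrank_top, Module.finrank_fintype_fun_eq_card,
        Fintype.card_fin]
  -- elementary facts on the products
  have hR0 : ∀ A, (R r A : ℤ) ≠ 0 := fun A => by exact_mod_cast R_ne hr A
  have hRs : ∀ A, ∀ l : ℕ, l.Prime → (l : ℤ) ∣ (R r A : ℤ) → l ∣ n := by
    intro A l hl h
    obtain ⟨j, rfl⟩ := R_supp hr hl (Int.natCast_dvd_natCast.mp h)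
    exact hrn j
  have hR3 : ∀ A, ¬ (3 : ℤ) ∣ (R r A : ℤ) := by
    intro A h
    have h1 : ((3 : ℕ) : ℤ) ∣ (R r A : ℤ) := by exact_mod_cast h
    obtain ⟨j, hj⟩ := R_supp hr Nat.prime_three (Int.natCast_dvd_natCast.mp h1)
    have h2 := hNF.r2 j
    omega
  have hRv : ∀ A j, (padicValInt (r j) (R r A : ℤ) : ZMod 3) = A j := fun A j => by
    rw [R_val hr hinj]
  have hRφ : ∀ A : Fin k → ℕ, (∑ i : Fin 0, (padicValInt (p i) (R r A : ℤ) : ZMod 3) *
      wt ((p i : ℤ) ^ 2)) + ∑ j, (padicValInt (r j) (R r A : ℤ) : ZMod 3) *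
      wt ((r j : ℤ) ^ 2) = φ fun j => (A j : ZMod 3) := by
    intro A
    rw [Finset.univ_eq_empty (α := Fin 0), Finset.sum_empty, zero_add, hφ]
    exact Finset.sum_congr rfl fun j _ => by rw [hRv]
  have hRC : ∀ A : Fin k → ℕ, AdmC n π w0 c (R r A : ℤ) ↔ (fun j => (A j : ZMod 3)) ∈ W := by
    intro A
    rw [(hE1 _ (hR0 A) (hR3 A) (hRs A)).1, hRφ, hW]
    exact ⟨fun h => h.2, fun h => ⟨fun i => i.elim0, h⟩⟩
  have hR9 : ∀ A : Fin k → ℕ, C9 (R r A : ℤ) ↔ φ (fun j => (A j : ZMod 3)) = 0 := by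
    intro A
    rw [(hE1 _ (hR0 A) (hR3 A) (hRs A)).2, hRφ]
  -- the basis
  let a : Fin s → Fin k → ℕ := fun i j => (v i j).val
  have ha : ∀ i, (fun j => (a i j : ZMod 3)) = v i := by
    intro i
    funext j
    exact ZMod.natCast_zmod_val (v i j)
  let b : Fin s → ℤ := fun i => (R r (a i) : ℤ)
  have hprod : ∀ g : Fin s → ℕ, ∏ i, b i ^ g i = (R r (fun j => ∑ i, g i * a i j) : ℤ) := by
    intro g
    change ∏ i, ((R r (a i) : ℕ) : ℤ) ^ g i = _
    unfold R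
    push_cast
    simp only [← Finset.prod_pow]
    rw [Finset.prod_comm]
    refine Finset.prod_congr rfl fun j _ => ?_
    rw [← Finset.prod_pow_eq_pow_sum]
    refine Finset.prod_congr rfl fun i _ => ?_
    rw [← pow_mul, mul_comm]
  have hAdm : ∀ i, AdmC n π w0 c (b i) := by
    intro i
    rw [hRC, ha]
    exact hv1 i
  have hind : ∀ g : Fin s → ℕ, (∃ i, ¬ 3 ∣ g i) → ¬ ∃ t : ℤ, t ^ 3 = ∏ i, b i ^ g i := by
    rintro g ⟨i, hi⟩ ⟨t, ht⟩
    rw [hprod] at ht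
    have ht0 : t ≠ 0 := by
      rintro rfl
      exact hR0 _ (by rw [← ht]; norm_num)
    have h1 := (hE2 (R r fun j => ∑ i, g i * a i j) 1 (hR0 _) one_ne_zero (hRs _) (by
      intro l hl h
      exact absurd (Int.natCast_dvd_natCast.mp (by exact_mod_cast h) : l ∣ 1)
        hl.not_dvd_one)).mp ⟨1, t, one_ne_zero, ht0, by rw [← ht]; ring⟩
    have h2 : (fun i => (g i : ZMod 3)) = 0 := by
      apply hv2
      funext j
      have h3 := h1.2 j
      rw [hRv, padicValInt.one] at h3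
      push_cast at h3
      rw [Finset.sum_apply, Pi.zero_apply, ← h3]
      refine Finset.sum_congr rfl fun i _ => ?_
      rw [Pi.smul_apply, smul_eq_mul, ← congrFun (ha i) j]
    have h3 := congrFun h2 i
    exact hi ((ZMod.natCast_eq_zero_iff (g i) 3).mp h3)
  have h9 : ∀ i j, i ≠ j → C9 (b i) ∨ C9 (b j) := by
    intro i j hij
    rw [hR9, hR9, ha, ha]
    exact hv4 i j hij
  have hV : ∀ i (π : PP), V π.1 (b i : Eis) ≤ 2 := by
    intro i π
    refine R_V hSPP hr hNF.r2 hinj (fun j => ?_) π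
    have := ZMod.val_lt (v i j)
    change (v i j).val ≤ 2
    omega
  obtain ⟨P, Q, P', Q', hSys⟩ := hESYS n 0 k π p e r f w0 c s b hNF hAdm hV hind h9
  refine ⟨s, b, P, Q, P', Q', hsz', hAdm, hSys, ?_⟩
  intro x hx
  have h1 := (hE1 x hx.ne hx.three hx.supp).1.mp hx
  have h2 : (fun j => (padicValInt (r j) x : ZMod 3)) ∈ W := by
    rw [hW, hφ]
    intro h
    have h3 := h1.2 h
    rwa [Finset.univ_eq_empty (α := Fin 0), Finset.sum_empty, zero_add] at h3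
  obtain ⟨g, hg⟩ := hv3 _ h2
  obtain ⟨u, w, hu, hw, huw⟩ := (hE2 x (R r fun j => ∑ i, (g i).val * a i j) hx.ne (hR0 _)
    hx.supp (hRs _)).mpr ⟨fun i => i.elim0, fun j => by
      rw [hRv]
      have h3 := congrFun hg j
      change (padicValInt (r j) x : ZMod 3) = _ at h3
      rw [h3, Finset.sum_apply]
      push_cast
      refine Finset.sum_congr rfl fun i _ => ?_
      rw [Pi.smul_apply, smul_eq_mul, ← congrFun (ha i) j, ZMod.natCast_zmod_val (g i)]⟩
  refine ⟨fun i => (g i).val, u, w, hu, hw, ?_⟩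
  rw [hprod]
  exact huw

end Pool.Agent.PTL


end

section

/-!
# BFINA: the distribution of the rank over prime twists, final assembly
-/

open NumberField IsDedekindDomain Finset
open scoped nonZeroDivisors Pointwise

namespace Pool.Agent.PT

open Pool.Agent.Lib_helper18 Pool.Agent.Lib_helper18.Eis Pool.Agent.Lib_helper84.Cub

namespace BFINA

/-! ### Sums over sets of natural numbers -/

/-- The sum of `q ^ (-σ)` over the set `A`. -/
noncomputable def PS (A : Set ℕ) (σ : ℝ) : ℝ := ∑' q : A, ((q : ℕ) : ℝ) ^ (-σ)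

theorem PS_eq (A : Set ℕ) (σ : ℝ) : PS A σ = ∑' n : ℕ, A.indicator (fun n : ℕ => (n : ℝ) ^ (-σ)) n :=
  tsum_subtype A fun n : ℕ => (n : ℝ) ^ (-σ)

theorem summ {σ : ℝ} (h : 1 < σ) (A : Set ℕ) :
    Summable (A.indicator (fun n : ℕ => (n : ℝ) ^ (-σ))) :=
  (Real.summable_nat_rpow.2 (by linarith)).indicator A

theorem rpow_nn (n : ℕ) (σ : ℝ) : 0 ≤ (n : ℝ) ^ (-σ) := Real.rpow_nonneg (Nat.cast_nonneg n) _

theorem PS_mono {A B : Set ℕ} (hAB : A ⊆ B) {σ : ℝ} (h : 1 < σ) : PS A σ ≤ PS B σ := by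
  rw [PS_eq, PS_eq]
  apply (summ h A).tsum_le_tsum _ (summ h B)
  intro n
  exact Set.indicator_le_indicator_of_subset hAB (fun n => rpow_nn n σ) n

theorem PS_union {A B : Set ℕ} {σ : ℝ} (h : 1 < σ) : PS (A ∪ B) σ ≤ PS A σ + PS B σ := by
  classical
  rw [PS_eq, PS_eq, PS_eq, ← (summ h A).tsum_add (summ h B)]
  apply (summ h (A ∪ B)).tsum_le_tsum _ ((summ h A).add (summ h B))
  intro n
  have h0 := rpow_nn n σ
  rw [Set.indicator_apply, Set.indicator_apply, Set.indicator_apply]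
  by_cases hA : n ∈ A
  · rw [if_pos (show n ∈ A ∪ B from Or.inl hA), if_pos hA]
    split_ifs <;> linarith
  · by_cases hB : n ∈ B
    · rw [if_pos (show n ∈ A ∪ B from Or.inr hB), if_neg hA, if_pos hB, zero_add]
    · rw [if_neg (show n ∉ A ∪ B from fun h => h.elim hA hB), if_neg hA, if_neg hB, zero_add]

theorem PS_small (M : ℕ) {σ : ℝ} (h : 1 < σ) : PS {q | q ≤ M} σ ≤ M + 1 := by
  classical
  rw [PS_eq, tsum_eq_sum (s := Finset.range (M + 1))]
  · calc ∑ n ∈ Finset.range (M + 1), Set.indicator {q | q ≤ M} (fun n : ℕ => (n : ℝ) ^ (-σ)) n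
        ≤ ∑ n ∈ Finset.range (M + 1), (1 : ℝ) := by
          refine Finset.sum_le_sum fun n _ => ?_
          rw [Set.indicator_apply]
          split_ifs
          · rcases Nat.eq_zero_or_pos n with rfl | hn
            · rw [Nat.cast_zero, Real.zero_rpow (by linarith)]
              exact zero_le_one
            · exact Real.rpow_le_one_of_one_le_of_nonpos (by exact_mod_cast hn) (by linarith)
          · exact zero_le_one
      _ = M + 1 := by
          rw [Finset.sum_const, Finset.card_range, nsmul_eq_mul, mul_one]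
          push_cast
          ring
  · intro n hn
    rw [Finset.mem_range, not_lt] at hn
    exact Set.indicator_of_notMem (s := {q | q ≤ M})
      (fun h => absurd (show n ≤ M from h) (by omega)) _

/-! ### Cube roots -/

theorem exists_root {q : ℕ} (hq : q.Prime) (h3 : q % 3 = 2) (b : ℤ) : ∃ r : ℤ, (q : ℤ) ∣ r ^ 3 - b := by
  have : Fact q.Prime := ⟨hq⟩
  obtain ⟨k, hk⟩ : ∃ k, k = (2 * q - 1) / 3 := ⟨_, rfl⟩
  have hk3 : k * 3 = q + (q - 1) := by
    have := hq.two_le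
    omega
  refine ⟨b ^ k, ?_⟩
  rw [← ZMod.intCast_zmod_eq_zero_iff_dvd]
  push_cast
  rw [← pow_mul, hk3, pow_add, ZMod.pow_card, ← pow_succ', Nat.sub_add_cancel hq.one_le,
    ZMod.pow_card, sub_self]

section Cls

variable {k : ℕ} {r f : Fin k → ℕ} (hk : 1 ≤ k) (hr : ∀ i, (r i).Prime) (h2 : ∀ i, r i % 3 = 2)
  (hinj : Function.Injective r) (hf : ∀ i, f i = 1 ∨ f i = 2)

include hr h2 in
theorem three_ndvd : ¬ 3 ∣ ∏ i, r i ^ f i := by
  intro h
  obtain ⟨i, -, hi⟩ := (Nat.prime_three.prime.dvd_finset_prod_iff _).1 h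
  have h3 := Nat.prime_three.dvd_of_dvd_pow hi
  have := h2 i
  omega

include hr h2 hinj hf in
theorem nf : NF (∏ i, r i ^ f i) (fun i : Fin 0 => i.elim0) (fun i : Fin 0 => i.elim0)
    (fun i : Fin 0 => i.elim0) r f where
  pp := fun i => i.elim0
  p1 := fun i => i.elim0
  pπ := fun i => i.elim0
  pe := fun i => i.elim0
  pinj := fun i => i.elim0
  rp := hr
  r2 := h2
  rf := hf
  rinj := hinj
  eq := by rw [Fin.prod_univ_zero, one_mul]

include hk hr h2 hinj hf in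
theorem cls (hBSYS : BSYS) (hDCONST : DCONST) (hCLSC : CLSC) (hBKER : BKER) (hBDENS : BDENS)
    (hTEND : TEND) (hEADM : EADM) (t : ℕ) (w0 : ZMod 3) :
    ∃ K : ℝ, ∀ σ : ℝ, 1 < σ → σ ≤ 2 →
      PS {q : ℕ | (q.Prime ∧ q % 3 = 2 ∧ (q % 9 ≠ 8 ∨ ∃ i, r i % 9 ≠ 8) ∧
        t ≤ CubeRank.rr ((∏ i, (r i : ℤ) ^ f i) * q)) ∧ wt ((q : ℤ) ^ 2) = w0} σ ≤
      2 / 3 ^ (t * (t - 1) / 2) / 3 * Real.log (1 / (σ - 1)) + K := by
  classical
  obtain ⟨n, hn⟩ : ∃ n, n = ∏ i, r i ^ f i := ⟨_, rfl⟩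
  have hNF := nf hr h2 hinj hf
  rw [← hn] at hNF
  have hn0 : 0 < n := by
    rw [hn]
    exact Finset.prod_pos fun i _ => pow_pos (hr i).pos _
  have hn3 : ¬ 3 ∣ n := by
    rw [hn]
    exact three_ndvd hr h2
  have hnZ : (∏ i, (r i : ℤ) ^ f i) = (n : ℤ) := by
    rw [hn]
    push_cast
    rfl
  obtain ⟨s, b, P, Q, P', Q', hAC, hSys, hspan⟩ := hBSYS n k (fun i : Fin 0 => i.elim0)
    (fun i : Fin 0 => i.elim0) (fun i : Fin 0 => i.elim0) r f w0 (fun i : Fin 0 => i.elim0) hNF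
  -- the conductor
  have hD : ∀ j i : Fin s, ∃ f₀ : ℕ, 0 < f₀ ∧ (j ≠ i → ∀ f : ℕ, 0 < f → f₀ ∣ f →
      ∃ (C : ZMod 3) (Φ : (ZMod f)ˣ →* Multiplicative (ZMod 3)) (N₀ : ℕ),
        ∀ (q : ℕ) (hQ : q.Coprime f), q.Prime → N₀ < q → q % 3 = 2 →
          BOk ((n : ℤ) * q) → Adm ((n : ℤ) * q) (b j) → Adm ((n : ℤ) * q) (b i) →
          ∀ r : ℤ, (q : ℤ) ∣ r ^ 3 - b j →
            OO ((n : ℤ) * q) (b j) (b i) (P j i) (Q j i) (P' j i) (Q' j i) =
            C + (Φ (ZMod.unitOfCoprime q hQ)).toAdd -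
              TAUV q (P j i) (Q j i) (P' j i) (Q' j i) r) := by
    intro j i
    by_cases hji : j = i
    · exact ⟨1, one_pos, fun h => absurd hji h⟩
    · obtain ⟨f₀, h0, h1⟩ := hDCONST n (b j) (b i) (P j i) (Q j i) (P' j i) (Q' j i) hn0 hn3
        (hSys.sol j i hji) (hAC j).ne (hAC i).ne
      exact ⟨f₀, h0, fun _ => h1⟩
  choose F0 hF0 hF1 using hD
  obtain ⟨F, hFdef⟩ : ∃ F, F = 9 * ∏ j, ∏ i, F0 j i := ⟨_, rfl⟩
  have hFpos : 0 < F := by
    rw [hFdef]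
    exact Nat.mul_pos (by norm_num) (Finset.prod_pos fun j _ => Finset.prod_pos fun i _ => hF0 j i)
  have hF9 : 9 ∣ F := by
    rw [hFdef]
    exact dvd_mul_right _ _
  have hFd : ∀ j i, F0 j i ∣ F := by
    intro j i
    rw [hFdef]
    apply Dvd.dvd.mul_left
    exact (Finset.dvd_prod_of_mem (fun i => F0 j i) (Finset.mem_univ i)).trans
      (Finset.dvd_prod_of_mem (fun j => ∏ i, F0 j i) (Finset.mem_univ j))
  have hC : ∀ j i : Fin s, ∃ (C : ZMod 3) (Φ : (ZMod F)ˣ →* Multiplicative (ZMod 3)) (N₀ : ℕ),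
      j ≠ i → ∀ (q : ℕ) (hQ : q.Coprime F), q.Prime → N₀ < q → q % 3 = 2 →
          BOk ((n : ℤ) * q) → Adm ((n : ℤ) * q) (b j) → Adm ((n : ℤ) * q) (b i) →
          ∀ r : ℤ, (q : ℤ) ∣ r ^ 3 - b j →
            OO ((n : ℤ) * q) (b j) (b i) (P j i) (Q j i) (P' j i) (Q' j i) =
            C + (Φ (ZMod.unitOfCoprime q hQ)).toAdd -
              TAUV q (P j i) (Q j i) (P' j i) (Q' j i) r := by
    intro j i
    by_cases hji : j = i
    · exact ⟨0, 1, 0, fun h => absurd hji h⟩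
    · obtain ⟨C, Φ, N₀, h⟩ := hF1 j i hji F hFpos (hFd j i)
      exact ⟨C, Φ, N₀, fun _ => h⟩
  choose C Φ N₀ hC using hC
  obtain ⟨κ, hκ1, hκ2⟩ := hCLSC 0 (fun i : Fin 0 => i.elim0) (fun i : Fin 0 => i.elim0)
    (fun i => i.elim0) (fun i => i.elim0) (fun i => i.elim0) (fun i => i.elim0) F hFpos hF9
    (fun i => i.elim0)
  let Φ' : (ZMod F)ˣ →* Multiplicative (Fin s → Fin s → ZMod 3) :=
    { toFun := fun a => Multiplicative.ofAdd fun j i => (Φ j i a).toAdd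
      map_one' := by
        rw [← ofAdd_zero]
        congr 1
        funext j i
        rw [map_one]
        rfl
      map_mul' := by
        intro a a'
        rw [← ofAdd_add]
        congr 1
        funext j i
        rw [map_mul]
        rfl }
  obtain ⟨K, hK⟩ := hBDENS s b P Q P' Q' F 0 t κ (Fin.cons w0 fun i : Fin 0 => i.elim0) C Φ' hSys
    hFpos hF9 hκ2
  obtain ⟨M, hM⟩ : ∃ M, M = n + F + ∑ j, ∑ i, N₀ j i := ⟨_, rfl⟩
  refine ⟨K + (M + 1), fun σ h1 hσ2 => ?_⟩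
  have hB := hK σ h1 hσ2
  obtain ⟨B, hBdef⟩ : ∃ B : Set ℕ, B = {q : ℕ | q.Prime ∧ ∃ hQ : q.Coprime F, q % 3 = 2 ∧
      (κ (ZMod.unitOfCoprime q hQ)).toAdd = (Fin.cons w0 fun i : Fin 0 => i.elim0) ∧
      ∀ τ : Fin s → Fin s → ZMod 3,
        (∀ j i, j ≠ i → ∀ r : ℤ, (q : ℤ) ∣ r ^ 3 - b j →
          τ j i = TAUV q (P j i) (Q j i) (P' j i) (Q' j i) r) →
        t ≤ s - (alt (C + (Φ' (ZMod.unitOfCoprime q hQ)).toAdd - τ)).rank} := ⟨_, rfl⟩
  have hB' : PS B σ ≤ 2 / 3 ^ (t * (t - 1) / 2) / 3 ^ (0 + 1) * Real.log (1 / (σ - 1)) + K := by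
    rw [hBdef]
    exact hB
  have hsub : {q : ℕ | (q.Prime ∧ q % 3 = 2 ∧ (q % 9 ≠ 8 ∨ ∃ i, r i % 9 ≠ 8) ∧
      t ≤ CubeRank.rr ((∏ i, (r i : ℤ) ^ f i) * q)) ∧ wt ((q : ℤ) ^ 2) = w0} ⊆
      B ∪ {q | q ≤ M} := by
    rintro q ⟨⟨hq, hq3, hq9, hrr⟩, hw⟩
    rcases le_or_gt q M with hqM | hqM
    · exact Or.inr hqM
    left
    rw [hnZ] at hrr
    have hqn : ¬ q ∣ n := fun h => by
      have := Nat.le_of_dvd hn0 h
      omega
    have hQ : q.Coprime F := by
      rw [Nat.Prime.coprime_iff_not_dvd hq]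
      intro h
      have := Nat.le_of_dvd hFpos h
      omega
    have hIn : InCl (fun i : Fin 0 => i.elim0) w0 (fun i : Fin 0 => i.elim0) q :=
      ⟨hq3, hw, fun i => i.elim0⟩
    obtain ⟨hBOk, hA⟩ := hEADM n 0 k (fun i : Fin 0 => i.elim0) (fun i : Fin 0 => i.elim0)
      (fun i : Fin 0 => i.elim0) r f w0 (fun i : Fin 0 => i.elim0) q hNF hq hIn hqn
    have hAdm : ∀ i, Adm ((n : ℤ) * q) (b i) := fun i => (hA (b i) (hAC i).supp).1 (hAC i)
    have hgen := hBKER n k (fun i : Fin 0 => i.elim0) (fun i : Fin 0 => i.elim0)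
      (fun i : Fin 0 => i.elim0) r f w0 (fun i : Fin 0 => i.elim0) s b P Q P' Q' q hNF hk hAC
      hSys hspan hq hq3 hw hqn hq9.symm
    have ht : t ≤ s - (Mat b P Q P' Q' ((n : ℤ) * q)).rank := hrr.trans (CubeRank.rr_le hgen)
    rw [hBdef]
    refine ⟨hq, hQ, hq3, ?_, ?_⟩
    · rw [hκ1]
      funext i
      refine Fin.cases ?_ (fun i => i.elim0) i
      rw [Fin.cons_zero, Fin.cons_zero, hw]
    · intro τ hτ
      have hent : ∀ j i, j ≠ i → Mat b P Q P' Q' ((n : ℤ) * q) j i =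
          (C + (Φ' (ZMod.unitOfCoprime q hQ)).toAdd - τ) j i := by
        intro j i hji
        obtain ⟨ρ, hρ⟩ := exists_root hq hq3 (b j)
        have hN : N₀ j i < q := by
          have e1 : N₀ j i ≤ ∑ i, N₀ j i :=
            Finset.single_le_sum (f := fun i => N₀ j i) (fun _ _ => Nat.zero_le _)
              (Finset.mem_univ i)
          have e2 : ∑ i, N₀ j i ≤ ∑ j, ∑ i, N₀ j i :=
            Finset.single_le_sum (f := fun j => ∑ i, N₀ j i) (fun _ _ => Nat.zero_le _)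
              (Finset.mem_univ j)
          omega
        rw [Mat, if_neg hji, hC j i hji q hQ hq hN hq3 hBOk (hAdm j) (hAdm i) ρ hρ,
          ← hτ j i hji ρ hρ]
        rfl
      have hMat : Mat b P Q P' Q' ((n : ℤ) * q) =
          alt (C + (Φ' (ZMod.unitOfCoprime q hQ)).toAdd - τ) := by
        have hanti := (hTEND s b P Q P' Q' ((n : ℤ) * q) hSys hBOk hAdm).1
        ext j i
        rw [alt]
        rcases lt_trichotomy j i with h | h | h
        · rw [if_pos h, hent j i h.ne]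
        · subst h
          rw [if_neg (lt_irrefl _), if_neg (lt_irrefl _), Mat, if_pos rfl]
        · rw [if_neg (not_lt.2 h.le), if_pos h, hanti j i, hent i j h.ne]
      rw [← hMat]
      exact ht
  have h5 := PS_mono hsub h1
  have h6 := PS_union (A := B) (B := {q | q ≤ M}) h1
  have h7 := PS_small M h1
  rw [zero_add, pow_one] at hB'
  linarith

end Cls

end BFINA

open _root_.Pool.Agent.PT.BFINA

/-- BFINA. -/
theorem BFIN_thm (hSPP : SPP) (hBSYS : BSYS) (hDCONST : DCONST) (hCLSC : CLSC) (hBKER : BKER)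
    (hBDENS : BDENS) (hTEND : TEND) (hEADM : EADM) : BFIN := by
  intro k r f hk hr h2 hinj hf t
  have hcl := fun w0 => cls hk hr h2 hinj hf hBSYS hDCONST hCLSC hBKER hBDENS hTEND hEADM t w0
  obtain ⟨K0, hK0⟩ := hcl 0
  obtain ⟨K1, hK1⟩ := hcl 1
  obtain ⟨K2, hK2⟩ := hcl 2
  refine ⟨K0 + K1 + K2, fun σ h1 hσ => ?_⟩
  obtain ⟨A, hA⟩ : ∃ A : ZMod 3 → Set ℕ, ∀ w0, A w0 = {q : ℕ | (q.Prime ∧ q % 3 = 2 ∧
      (q % 9 ≠ 8 ∨ ∃ i, r i % 9 ≠ 8) ∧
        t ≤ CubeRank.rr ((∏ i, (r i : ℤ) ^ f i) * q)) ∧ wt ((q : ℤ) ^ 2) = w0} :=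
    ⟨_, fun _ => rfl⟩
  have h3 : {q : ℕ | q.Prime ∧ q % 3 = 2 ∧ (q % 9 ≠ 8 ∨ ∃ i, r i % 9 ≠ 8) ∧
        t ≤ CubeRank.rr ((∏ i, (r i : ℤ) ^ f i) * q)} ⊆ (A 0 ∪ A 1) ∪ A 2 := by
    intro q hq
    rw [Set.mem_union, Set.mem_union, hA, hA, hA]
    have h4 : ∀ v : ZMod 3, (v = 0 ∨ v = 1) ∨ v = 2 := by decide
    rcases h4 (wt ((q : ℤ) ^ 2)) with (h | h) | h
    · exact Or.inl (Or.inl ⟨hq, h⟩)
    · exact Or.inl (Or.inr ⟨hq, h⟩)
    · exact Or.inr ⟨hq, h⟩
  have h4 := PS_mono h3 h1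
  have h5 := PS_union (A := A 0 ∪ A 1) (B := A 2) h1
  have h6 := PS_union (A := A 0) (B := A 1) h1
  have e0 := hK0 σ h1 hσ
  have e1 := hK1 σ h1 hσ
  have e2 := hK2 σ h1 hσ
  rw [← hA] at e0 e1 e2
  have h7 : PS {q : ℕ | q.Prime ∧ q % 3 = 2 ∧ (q % 9 ≠ 8 ∨ ∃ i, r i % 9 ≠ 8) ∧
        t ≤ CubeRank.rr ((∏ i, (r i : ℤ) ^ f i) * q)} σ ≤
      2 / 3 ^ (t * (t - 1) / 2) * Real.log (1 / (σ - 1)) + (K0 + K1 + K2) := by
    have h8 : (2 / 3 ^ (t * (t - 1) / 2) : ℝ) * Real.log (1 / (σ - 1)) =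
        3 * (2 / 3 ^ (t * (t - 1) / 2) / 3 * Real.log (1 / (σ - 1))) := by
      ring
    rw [h8]
    linarith
  exact h7

end Pool.Agent.PT


end

section

/-!
# Prime power twists: the distribution of the rank in a class
-/

set_option autoImplicit false

open NumberField IsDedekindDomain Finset
open scoped nonZeroDivisors Pointwise

namespace Pool.Agent.PTL

open Pool.Agent.PT Pool.Agent.Lib_helper18 Pool.Agent.Lib_helper18.Eis Pool.Agent.Lib_helper84.Cub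

/-- the primes `q` with `n q^E` in the class `w0` and rank at least `t` -/
def WS {k : ℕ} (r f : Fin k → ℕ) (w0 : ZMod 3) (E t : ℕ) : Set ℕ :=
  {q : ℕ | q % 3 = 2 ∧ (q % 9 ≠ 8 ∨ ∃ i, r i % 9 ≠ 8) ∧ wt (((q : ℤ) ^ E) ^ 2) = w0 ∧
    t ≤ CubeRank.rr ((∏ i, (r i : ℤ) ^ f i) * q ^ E)}

open Classical in
/-- the size of the matrices -/
noncomputable def sz {k : ℕ} (r f : Fin k → ℕ) (w0 : ZMod 3) : ℕ :=
  if wt (((∏ i, r i ^ f i : ℕ) : ℤ) ^ 2) + w0 = 0 ∧ ∃ j, wt ((r j : ℤ) ^ 2) ≠ 0 then k - 1 else k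

/-- CLE: the distribution of the rank in a class. -/
def CLE : Prop := ∀ (k : ℕ) (r f : Fin k → ℕ), 1 ≤ k → (∀ i, (r i).Prime) →
  (∀ i, r i % 3 = 2) → Function.Injective r → (∀ i, f i = 1 ∨ f i = 2) → ∀ w0 : ZMod 3,
  (∃ M : ℕ, ∀ (E q : ℕ), (E = 1 ∨ E = 2) → q.Prime → M < q → q ∈ WS r f w0 E 0 →
    CubeRank.rr ((∏ i, (r i : ℤ) ^ f i) * q ^ E) ≤ sz r f w0) ∧
  ∀ t : ℕ, ∃ K : ℝ, ∀ σ : ℝ, 1 < σ → σ ≤ 2 →
    BDENS.sm (WS r f w0 1 t) σ + BDENS.sm (WS r f w0 2 t) σ ≤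
      (NK (sz r f w0) t : ℝ) / Nat.card (Fin (sz r f w0) → Fin (sz r f w0) → ZMod 3) / 3 *
        Real.log (1 / (σ - 1)) + K

namespace CL

open BDENS

theorem sm_le_add (S T : Set ℕ) (M : ℕ) (h : ∀ n, n.Prime → M < n → n ∈ S → n ∈ T) {σ : ℝ}
    (hσ : 1 < σ) : sm S σ ≤ sm T σ + 2 * ((Finset.range (M + 1)).card : ℝ) := by
  have h1 := sm_add_le S ∅ T (Finset.range (M + 1)) (fun n hn hA hS => ⟨h n hn (by
    rw [Finset.mem_range, not_lt] at hA
    omega) hS, fun h => h⟩) (fun n _ _ h => absurd h (Set.notMem_empty n)) hσ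
  have h2 : 0 ≤ sm ∅ σ := by
    rw [sm_eq]
    exact tsum_nonneg fun n => ind_nonneg ∅ σ n
  linarith

theorem wt_sq2 {q : ℕ} (hq : q % 3 = 2) : wt (((q : ℤ) ^ 2) ^ 2) = 2 * wt ((q : ℤ) ^ 2) := by
  have h : ¬ (3 : ℤ) ∣ (q : ℤ) := by omega
  have h1 := sq_mod_three h
  have h2 : ((q : ℤ) ^ 2) ^ 2 = (q : ℤ) ^ 2 * (q : ℤ) ^ 2 := by ring
  rw [h2, wt_mul h1 h1]
  ring

end CL

open BFINA _root_.Pool.Agent.PTL.CL in
/-- CLE: the distribution of the rank in a class. -/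
theorem CLE_thm (hBSE : BSE) (hDCE : DCE) (hCLSC : CLSC) (hBKE : BKE) (hBDE : BDE)
    (hTEND : TEND) (hEAE : EAE) : CLE := by
  classical
  intro k r f hk hr h2 hinj hf w0
  obtain ⟨n, hn⟩ : ∃ n, n = ∏ i, r i ^ f i := ⟨_, rfl⟩
  have hNF := nf hr h2 hinj hf
  rw [← hn] at hNF
  have hn0 : 0 < n := by
    rw [hn]
    exact Finset.prod_pos fun i _ => pow_pos (hr i).pos _
  have hnZ : (∏ i, (r i : ℤ) ^ f i) = (n : ℤ) := by
    rw [hn]
    push_cast
    rfl
  obtain ⟨s, b, P, Q, P', Q', hs, hAC, hSys, hspan⟩ := hBSE n k (fun i : Fin 0 => i.elim0)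
    (fun i : Fin 0 => i.elim0) (fun i : Fin 0 => i.elim0) r f w0 (fun i : Fin 0 => i.elim0) hNF
  have hsz : sz r f w0 = s := by
    rw [hs]
    unfold sz
    rw [← hn]
  rw [hsz]
  -- the conductor
  have hD : ∀ j i : Fin s, ∃ f₀ : ℕ, 0 < f₀ ∧ (j ≠ i → ∀ f : ℕ, 0 < f → f₀ ∣ f →
      ∃ (C : ZMod 3) (Φ : (ZMod f)ˣ →* Multiplicative (ZMod 3)),
        ∀ (E q : ℕ) (hQ : q.Coprime f), q.Prime → q % 3 = 2 →
          Adm ((n : ℤ) * q ^ E) (b i) →
          ∀ r : ℤ, (q : ℤ) ∣ r ^ 3 - b j →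
            OO ((n : ℤ) * q ^ E) (b j) (b i) (P j i) (Q j i) (P' j i) (Q' j i) =
            C + E * ((Φ (ZMod.unitOfCoprime q hQ)).toAdd -
              TAUV q (P j i) (Q j i) (P' j i) (Q' j i) r)) := by
    intro j i
    by_cases hji : j = i
    · exact ⟨1, one_pos, fun h => absurd hji h⟩
    · obtain ⟨f₀, h0, h1⟩ := hDCE n (b j) (b i) (P j i) (Q j i) (P' j i) (Q' j i) hn0
        (hSys.sol j i hji) (hAC j).ne (hAC i).ne
      exact ⟨f₀, h0, fun _ => h1⟩
  choose F0 hF0 hF1 using hD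
  obtain ⟨F, hFdef⟩ : ∃ F, F = 9 * ∏ j, ∏ i, F0 j i := ⟨_, rfl⟩
  have hFpos : 0 < F := by
    rw [hFdef]
    exact Nat.mul_pos (by norm_num) (Finset.prod_pos fun j _ => Finset.prod_pos fun i _ => hF0 j i)
  have hF9 : 9 ∣ F := by
    rw [hFdef]
    exact dvd_mul_right _ _
  have hFd : ∀ j i, F0 j i ∣ F := by
    intro j i
    rw [hFdef]
    apply Dvd.dvd.mul_left
    exact (Finset.dvd_prod_of_mem (fun i => F0 j i) (Finset.mem_univ i)).trans
      (Finset.dvd_prod_of_mem (fun j => ∏ i, F0 j i) (Finset.mem_univ j))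
  have hC : ∀ j i : Fin s, ∃ (C : ZMod 3) (Φ : (ZMod F)ˣ →* Multiplicative (ZMod 3)),
      j ≠ i → ∀ (E q : ℕ) (hQ : q.Coprime F), q.Prime → q % 3 = 2 →
          Adm ((n : ℤ) * q ^ E) (b i) →
          ∀ r : ℤ, (q : ℤ) ∣ r ^ 3 - b j →
            OO ((n : ℤ) * q ^ E) (b j) (b i) (P j i) (Q j i) (P' j i) (Q' j i) =
            C + E * ((Φ (ZMod.unitOfCoprime q hQ)).toAdd -
              TAUV q (P j i) (Q j i) (P' j i) (Q' j i) r) := by
    intro j i
    by_cases hji : j = i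
    · exact ⟨0, 1, fun h => absurd hji h⟩
    · obtain ⟨C, Φ, h⟩ := hF1 j i hji F hFpos (hFd j i)
      exact ⟨C, Φ, fun _ => h⟩
  choose C Φ hC using hC
  obtain ⟨κ, hκ1, hκ2⟩ := hCLSC 0 (fun i : Fin 0 => i.elim0) (fun i : Fin 0 => i.elim0)
    (fun i => i.elim0) (fun i => i.elim0) (fun i => i.elim0) (fun i => i.elim0) F hFpos hF9
    (fun i => i.elim0)
  let Φ' : (ZMod F)ˣ →* Multiplicative (Fin s → Fin s → ZMod 3) :=
    { toFun := fun a => Multiplicative.ofAdd fun j i => (Φ j i a).toAdd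
      map_one' := by
        rw [← ofAdd_zero]
        congr 1
        funext j i
        rw [map_one]
        rfl
      map_mul' := by
        intro a a'
        rw [← ofAdd_add]
        congr 1
        funext j i
        rw [map_mul]
        rfl }
  obtain ⟨M, hM⟩ : ∃ M, M = n + F := ⟨_, rfl⟩
  -- the matrix
  have hmat : ∀ (E q : ℕ), (E = 1 ∨ E = 2) → q.Prime → M < q → q ∈ WS r f w0 E 0 →
      CubeRank.rr ((n : ℤ) * q ^ E) ≤ s - (Mat b P Q P' Q' ((n : ℤ) * q ^ E)).rank ∧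
      ∃ hQ : q.Coprime F, ∀ τ : Fin s → Fin s → ZMod 3,
        (∀ j i, j ≠ i → ∀ r : ℤ, (q : ℤ) ∣ r ^ 3 - b j →
          τ j i = TAUV q (P j i) (Q j i) (P' j i) (Q' j i) r) →
        Mat b P Q P' Q' ((n : ℤ) * q ^ E) = alt fun j i =>
          C j i + E * ((Φ j i (ZMod.unitOfCoprime q hQ)).toAdd - τ j i) := by
    intro E q hE hq hqM ⟨hq3, hq9, hw, _⟩
    have hqn : ¬ q ∣ n := fun h => by
      have := Nat.le_of_dvd hn0 h
      omega
    have hQ : q.Coprime F := by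
      rw [Nat.Prime.coprime_iff_not_dvd hq]
      intro h
      have := Nat.le_of_dvd hFpos h
      omega
    obtain ⟨hBOk, hA⟩ := hEAE n k (fun i : Fin 0 => i.elim0) (fun i : Fin 0 => i.elim0)
      (fun i : Fin 0 => i.elim0) r f w0 (fun i : Fin 0 => i.elim0) E q hNF hq hq3 hE hw hqn
    have hAdm : ∀ i, Adm ((n : ℤ) * q ^ E) (b i) := fun i => (hA (b i) (hAC i).supp).1 (hAC i)
    have hgen := hBKE n k (fun i : Fin 0 => i.elim0) (fun i : Fin 0 => i.elim0)
      (fun i : Fin 0 => i.elim0) r f w0 (fun i : Fin 0 => i.elim0) s b P Q P' Q' E q hNF hk hAC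
      hSys hspan hq hq3 hE hw hqn hq9.symm
    refine ⟨CubeRank.rr_le hgen, hQ, ?_⟩
    intro τ hτ
    have hent : ∀ j i, j ≠ i → Mat b P Q P' Q' ((n : ℤ) * q ^ E) j i =
        C j i + E * ((Φ j i (ZMod.unitOfCoprime q hQ)).toAdd - τ j i) := by
      intro j i hji
      obtain ⟨ρ, hρ⟩ := exists_root hq hq3 (b j)
      rw [Mat, if_neg hji, hC j i hji E q hQ hq hq3 (hAdm i) ρ hρ, ← hτ j i hji ρ hρ]
    have hanti := (hTEND s b P Q P' Q' ((n : ℤ) * q ^ E) hSys hBOk hAdm).1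
    ext j i
    rw [alt]
    rcases lt_trichotomy j i with h | h | h
    · rw [if_pos h, hent j i h.ne]
    · subst h
      rw [if_neg (lt_irrefl _), if_neg (lt_irrefl _), Mat, if_pos rfl]
    · rw [if_neg (not_lt.2 h.le), if_pos h, hanti j i, hent i j h.ne]
  constructor
  · refine ⟨M, fun E q hE hq hqM hqW => ?_⟩
    rw [hnZ]
    exact (hmat E q hE hq hqM hqW).1.trans (Nat.sub_le _ _)
  intro t
  obtain ⟨K, hK⟩ := hBDE s b P Q P' Q' F 0 t κ (Fin.cons w0 fun i : Fin 0 => i.elim0) C Φ' hSys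
    hFpos hF9 hκ2
  refine ⟨K + 2 * (2 * ((Finset.range (M + 1)).card : ℝ)), fun σ h1 hσ2 => ?_⟩
  have hB := hK σ h1 hσ2
  have h31 : (3 : ℝ) ^ (0 + 1) = 3 := by norm_num
  rw [h31] at hB
  have hsub1 : ∀ q : ℕ, q.Prime → M < q → q ∈ WS r f w0 1 t →
      q ∈ SP b P Q P' Q' t κ (Fin.cons w0 fun i : Fin 0 => i.elim0) C Φ' := by
    intro q hq hqM ⟨hq3, hq9, hw, hrr⟩
    obtain ⟨hr1, hQ, hm⟩ := hmat 1 q (Or.inl rfl) hq hqM ⟨hq3, hq9, hw, Nat.zero_le _⟩
    rw [hnZ] at hrr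
    refine ⟨hQ, hq3, ?_, ?_⟩
    · rw [hκ1]
      funext i
      refine Fin.cases ?_ (fun i => i.elim0) i
      rw [Fin.cons_zero, Fin.cons_zero]
      rw [pow_one] at hw
      exact hw
    · intro τ hτ
      have e1 : (fun j i => C j i + ((1 : ℕ) : ZMod 3) *
          ((Φ j i (ZMod.unitOfCoprime q hQ)).toAdd - τ j i)) =
          C + (Φ' (ZMod.unitOfCoprime q hQ)).toAdd - τ := by
        funext j i
        show C j i + ((1 : ℕ) : ZMod 3) * ((Φ j i (ZMod.unitOfCoprime q hQ)).toAdd - τ j i) =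
          C j i + (Φ j i (ZMod.unitOfCoprime q hQ)).toAdd - τ j i
        rw [Nat.cast_one]
        ring
      rw [← e1, ← hm τ hτ]
      exact hrr.trans hr1
  have hsub2 : ∀ q : ℕ, q.Prime → M < q → q ∈ WS r f w0 2 t →
      q ∈ SM b P Q P' Q' t κ (Fin.cons w0 fun i : Fin 0 => i.elim0) C Φ' := by
    intro q hq hqM ⟨hq3, hq9, hw, hrr⟩
    obtain ⟨hr1, hQ, hm⟩ := hmat 2 q (Or.inr rfl) hq hqM ⟨hq3, hq9, hw, Nat.zero_le _⟩
    rw [hnZ] at hrr
    refine ⟨hQ, hq3, ?_, ?_⟩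
    · rw [hκ1]
      funext i
      refine Fin.cases ?_ (fun i => i.elim0) i
      rw [Fin.cons_zero, Pi.neg_apply, Fin.cons_zero]
      rw [wt_sq2 hq3] at hw
      rw [← hw]
      generalize wt ((q : ℤ) ^ 2) = z
      revert z
      decide
    · intro τ hτ
      have e1 : (fun j i => C j i + ((2 : ℕ) : ZMod 3) *
          ((Φ j i (ZMod.unitOfCoprime q hQ)).toAdd - τ j i)) =
          C - (Φ' (ZMod.unitOfCoprime q hQ)).toAdd + τ := by
        funext j i
        show C j i + ((2 : ℕ) : ZMod 3) * ((Φ j i (ZMod.unitOfCoprime q hQ)).toAdd - τ j i) =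
          C j i - (Φ j i (ZMod.unitOfCoprime q hQ)).toAdd + τ j i
        rw [show ((2 : ℕ) : ZMod 3) = -1 from by decide]
        ring
      rw [← e1, ← hm τ hτ]
      exact hrr.trans hr1
  have i1 := sm_le_add _ _ M hsub1 h1
  have i2 := sm_le_add _ _ M hsub2 h1
  linarith

end Pool.Agent.PTL


end

section

/-!
# PTN_SMT: sets of primes covered twice
-/

open NumberField IsDedekindDomain Finset
open scoped nonZeroDivisors Pointwise

namespace Pool.Agent.PTN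

namespace SMT

open Pool.Agent.PT Pool.Agent.PT.BDENS

/-- the constant from the terms up to `M` -/
noncomputable def cst (M : ℕ) (c : ℝ) (n : ℕ) : ℝ := if n ∈ Finset.range (M + 1) then c else 0

theorem cst_summable (M : ℕ) (c : ℝ) : Summable (cst M c) :=
  summable_of_ne_finset_zero (s := Finset.range (M + 1)) fun _ hn => if_neg hn

theorem cst_tsum (M : ℕ) (c : ℝ) : ∑' n, cst M c n = (M + 1 : ℕ) * c := by
  have h : ∑' n, cst M c n = ∑ n ∈ Finset.range (M + 1), cst M c n :=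
    tsum_eq_sum (s := Finset.range (M + 1)) fun _ hn => if_neg hn
  have h2 : ∀ n ∈ Finset.range (M + 1), cst M c n = c := fun _ hn => if_pos hn
  rw [h, Finset.sum_congr rfl h2, Finset.sum_const, Finset.card_range, nsmul_eq_mul]

/-- comparison of finite sums of the series term by term -/
theorem compare (M : ℕ) (c : ℝ) (f g : ℕ → ℝ) (hf : Summable f) (hg : Summable g)
    (h : ∀ n, f n ≤ g n + cst M c n) : ∑' n, f n ≤ ∑' n, g n + (M + 1 : ℕ) * c := by
  rw [← cst_tsum M c, ← hg.tsum_add (cst_summable M c)]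
  exact hf.tsum_le_tsum h (hg.add (cst_summable M c))

theorem ind_not_prime {S : Set ℕ} {σ : ℝ} {n : ℕ} (h : ¬ n.Prime) : ind S σ n = 0 :=
  ind_not fun h' => h h'.1

theorem ind_le {S : Set ℕ} {σ : ℝ} {n : ℕ} (h : n.Prime) : ind S σ n ≤ (n : ℝ) ^ (-σ) := by
  by_cases hS : n ∈ S
  · rw [ind_mem h hS]
  · rw [ind_not fun h' => hS h'.2]
    exact Real.rpow_nonneg (Nat.cast_nonneg n) _

end SMT

open Pool.Agent.PT in
theorem SMT_thm : Stmt_SMT := by
  classical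
  intro ι _ S T₁ T₂ T M
  refine ⟨fun H => ?_, fun H1 H2 => ?_, fun H => ?_⟩
  · refine ⟨(M + 1 : ℕ) * 2, fun σ hσ _ => ?_⟩
    rw [BDENS.sm_eq, ← tsum_mul_left]
    simp only [BDENS.sm_eq]
    rw [← Summable.tsum_finsetSum fun i _ => BDENS.ind_summable _ hσ]
    refine SMT.compare M 2 _ _ ((BDENS.ind_summable S hσ).mul_left 2)
      (summable_sum fun i _ => BDENS.ind_summable _ hσ) fun n => ?_
    have h0 : 0 ≤ ∑ i, BDENS.ind (T i) σ n := Finset.sum_nonneg fun i _ => BDENS.ind_nonneg _ _ _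
    by_cases hM : n ∈ Finset.range (M + 1)
    · have h1 := BDENS.ind_le_one (S := S) hσ n
      rw [SMT.cst, if_pos hM]
      linarith
    · rw [SMT.cst, if_neg hM, add_zero]
      by_cases hn : n.Prime ∧ n ∈ S
      · have hM' : M < n := by
          rw [Finset.mem_range] at hM
          omega
        obtain ⟨i, j, hij, hi, hj⟩ := H n hn.1 hM' hn.2
        rw [BDENS.ind_mem hn.1 hn.2]
        have h2 : ∑ k ∈ ({i, j} : Finset ι), BDENS.ind (T k) σ n ≤ ∑ k, BDENS.ind (T k) σ n :=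
          Finset.sum_le_sum_of_subset_of_nonneg (Finset.subset_univ _)
            fun k _ _ => BDENS.ind_nonneg _ _ _
        rw [Finset.sum_pair hij, BDENS.ind_mem hn.1 hi, BDENS.ind_mem hn.1 hj] at h2
        linarith
      · rw [BDENS.ind_not hn, mul_zero]
        exact h0
  · refine ⟨(M + 1 : ℕ) * Fintype.card ι, fun σ hσ _ => ?_⟩
    rw [BDENS.sm_eq S, ← tsum_mul_left]
    simp only [BDENS.sm_eq]
    rw [← Summable.tsum_finsetSum fun i _ => BDENS.ind_summable _ hσ]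
    refine SMT.compare M _ _ _ (summable_sum fun i _ => BDENS.ind_summable _ hσ)
      ((BDENS.ind_summable S hσ).mul_left 2) fun n => ?_
    have h0 : 0 ≤ BDENS.ind S σ n := BDENS.ind_nonneg _ _ _
    by_cases hM : n ∈ Finset.range (M + 1)
    · have h1 : ∑ i, BDENS.ind (T i) σ n ≤ ∑ _i : ι, (1 : ℝ) :=
        Finset.sum_le_sum fun i _ => BDENS.ind_le_one hσ n
      rw [Finset.sum_const, Finset.card_univ, nsmul_eq_mul, mul_one] at h1
      rw [SMT.cst, if_pos hM]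
      linarith
    · rw [SMT.cst, if_neg hM, add_zero]
      by_cases hn : n.Prime
      · have hM' : M < n := by
          rw [Finset.mem_range] at hM
          omega
        by_cases hex : ∃ i, n ∈ T i
        · obtain ⟨i, hi⟩ := hex
          have hS : n ∈ S := H1 n hn hM' i hi
          obtain ⟨i₁, i₂, h12⟩ := H2 n hn hM'
          have h3 : ∑ k, BDENS.ind (T k) σ n = ∑ k ∈ ({i₁, i₂} : Finset ι), BDENS.ind (T k) σ n := by
            symm
            refine Finset.sum_subset (Finset.subset_univ _) fun k _ hk => ?_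
            refine BDENS.ind_not fun h' => hk ?_
            rw [Finset.mem_insert, Finset.mem_singleton]
            exact h12 k h'.2
          rw [h3, BDENS.ind_mem hn hS]
          calc ∑ k ∈ ({i₁, i₂} : Finset ι), BDENS.ind (T k) σ n
              ≤ ∑ _k ∈ ({i₁, i₂} : Finset ι), (n : ℝ) ^ (-σ) :=
                Finset.sum_le_sum fun k _ => SMT.ind_le hn
            _ = (({i₁, i₂} : Finset ι).card : ℝ) * (n : ℝ) ^ (-σ) := by
                rw [Finset.sum_const, nsmul_eq_mul]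
            _ ≤ 2 * (n : ℝ) ^ (-σ) := by
                refine mul_le_mul_of_nonneg_right ?_ (Real.rpow_nonneg (Nat.cast_nonneg n) _)
                exact_mod_cast Finset.card_le_two
        · have h4 : ∑ k, BDENS.ind (T k) σ n = 0 :=
            Finset.sum_eq_zero fun k _ => BDENS.ind_not fun h' => hex ⟨k, h'.2⟩
          rw [h4]
          linarith
      · have h4 : ∑ k, BDENS.ind (T k) σ n = 0 :=
          Finset.sum_eq_zero fun k _ => BDENS.ind_not fun h' => hn h'.1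
        rw [h4]
        linarith
  · refine ⟨(M + 1 : ℕ) * 1, fun σ hσ _ => ?_⟩
    rw [BDENS.sm_eq, BDENS.sm_eq, BDENS.sm_eq,
      ← (BDENS.ind_summable T₁ hσ).tsum_add (BDENS.ind_summable T₂ hσ)]
    refine SMT.compare M 1 _ _ (BDENS.ind_summable S hσ)
      ((BDENS.ind_summable T₁ hσ).add (BDENS.ind_summable T₂ hσ)) fun n => ?_
    have h1 := BDENS.ind_nonneg T₁ σ n
    have h2 := BDENS.ind_nonneg T₂ σ n
    by_cases hM : n ∈ Finset.range (M + 1)
    · have h3 := BDENS.ind_le_one (S := S) hσ n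
      rw [SMT.cst, if_pos hM]
      linarith
    · rw [SMT.cst, if_neg hM, add_zero]
      by_cases hn : n.Prime ∧ n ∈ S
      · have hM' : M < n := by
          rw [Finset.mem_range] at hM
          omega
        rw [BDENS.ind_mem hn.1 hn.2]
        rcases H n hn.1 hM' hn.2 with h | h
        · rw [BDENS.ind_mem hn.1 h]
          linarith
        · rw [BDENS.ind_mem hn.1 h]
          linarith
      · rw [BDENS.ind_not hn]
        linarith

end Pool.Agent.PTN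


end

section

/-!
# The law of the ranks of prime twists: classes, `q = 2 (mod 3)`
-/

set_option autoImplicit false

open NumberField IsDedekindDomain Finset
open scoped nonZeroDivisors Pointwise

namespace Pool.Agent.PTN

open Pool.Agent.Lib_helper18 Pool.Agent.Lib_helper18.Eis Pool.Agent.Lib_helper84.Cub
open Pool.Agent.PT Pool.Agent.PTE Pool.Agent.PT3 Pool.Agent.PTL

namespace CLN

theorem neg_of_two {x y : ZMod 3} (h : ((2 : ℕ) : ZMod 3) * x = y) : x = -y := by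
  rw [← h]
  clear h y
  revert x
  decide

end CLN

open _root_.Pool.Agent.PTN.CLN in
/-- PTN_CLN: the distribution of the rank in a class, `q = 2 (mod 3)`. -/
theorem CLN_thm (hNBAS : Stmt_NBAS) (hESYT : ESYT) (hDCOT : DCOT) (hCLSC : CLSC)
    (hNBKN : Stmt_NBKN) (hBDG : Stmt_BDG) (hTENT : TENT) (hNADT : Stmt_NADT) : Stmt_CLN := by
  classical
  intro h n m k π p e r f w0 c hNF hh
  have hn0 : 0 < n := PT.FINA.pos_of_nf hNF
  have hN0 : 0 < 3 ^ h * n := Nat.mul_pos (pow_pos (by norm_num) _) hn0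
  have hBB : ∀ E q : ℕ, BB h n E q = ((3 ^ h * n : ℕ) : ℤ) * (q : ℤ) ^ E := by
    intro E q
    unfold BB
    push_cast
    ring
  obtain ⟨s, τ', b, X, Y, hs, hAdN, hV, hind, h3, hLam, hspan⟩ :=
    hNBAS h n m k π p e r f w0 c hNF hh
  have hAdC : ∀ i, AdC h n π w0 c (b i) := fun i => (hAdN i).1
  have hb0 : ∀ i, b i ≠ 0 := fun i => (hAdC i).ne
  obtain ⟨P, Q, P', Q', hSys, hSw⟩ := hESYT h n m k π p e r f w0 c s b hNF hAdC hV hind h3
  rw [← hs]
  generalize hv : vN h n π p e r w0 c = v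
  -- the conductor
  have hD : ∀ j i : Fin s, ∃ f₀ : ℕ, 0 < f₀ ∧ (j ≠ i → ∀ f : ℕ, 0 < f → f₀ ∣ f →
      ∃ (C : ZMod 3) (Φ : (ZMod f)ˣ →* Multiplicative (ZMod 3)),
        ∀ (E q : ℕ) (hQ : q.Coprime f), q.Prime → q % 3 = 2 →
          AG (BB h n E q) (b i) →
          ∀ r : ℤ, (q : ℤ) ∣ r ^ 3 - b j →
            OT (BB h n E q) (b j) (X j) (Y j) (b i) (P j i) (Q j i) (P' j i) (Q' j i) =
            C + E * ((Φ (ZMod.unitOfCoprime q hQ)).toAdd -
              TAUV q (P j i) (Q j i) (P' j i) (Q' j i) r)) := by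
    intro j i
    by_cases hji : j = i
    · exact ⟨1, one_pos, fun h => absurd hji h⟩
    · obtain ⟨f₀, h0, h1⟩ := hDCOT (3 ^ h * n) (b j) (X j) (Y j) (b i) (P j i) (Q j i) (P' j i)
        (Q' j i) hN0 (hSys.sol j i hji) (hb0 j) (hb0 i)
      refine ⟨f₀, h0, fun _ f hf hd => ?_⟩
      obtain ⟨C, Φ, h2⟩ := h1 f hf hd
      refine ⟨C, Φ, fun E q hQ hq hq3 hAG r hr => ?_⟩
      rw [hBB] at hAG ⊢
      exact h2 E q hQ hq hq3 hAG r hr
  choose F0 hF0 hF1 using hD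
  obtain ⟨F, hFpos, hF9, hpF, hFd⟩ : ∃ F : ℕ, 0 < F ∧ 9 ∣ F ∧ (∀ i, p i ∣ F) ∧
      ∀ j i, F0 j i ∣ F := by
    refine ⟨9 * (∏ i, p i) * ∏ j, ∏ i, F0 j i, ?_, ?_, ?_, ?_⟩
    · have h1 : 0 < ∏ i, p i := Finset.prod_pos fun i _ => (hNF.pp i).pos
      have h2 : 0 < ∏ j, ∏ i, F0 j i :=
        Finset.prod_pos fun j _ => Finset.prod_pos fun i _ => hF0 j i
      positivity
    · exact Dvd.dvd.mul_right (Dvd.intro _ rfl) _
    · intro i
      exact Dvd.dvd.mul_right (Dvd.dvd.mul_left (Finset.dvd_prod_of_mem p (mem_univ i)) _) _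
    · intro j i
      exact Dvd.dvd.mul_left ((Finset.dvd_prod_of_mem (fun i => F0 j i) (mem_univ i)).trans
        (Finset.dvd_prod_of_mem (fun j => ∏ i, F0 j i) (mem_univ j))) _
  have hC : ∀ j i : Fin s, ∃ (C : ZMod 3) (Φ : (ZMod F)ˣ →* Multiplicative (ZMod 3)),
      j ≠ i → ∀ (E q : ℕ) (hQ : q.Coprime F), q.Prime → q % 3 = 2 →
          AG (BB h n E q) (b i) →
          ∀ r : ℤ, (q : ℤ) ∣ r ^ 3 - b j →
            OT (BB h n E q) (b j) (X j) (Y j) (b i) (P j i) (Q j i) (P' j i) (Q' j i) =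
            C + E * ((Φ (ZMod.unitOfCoprime q hQ)).toAdd -
              TAUV q (P j i) (Q j i) (P' j i) (Q' j i) r) := by
    intro j i
    by_cases hji : j = i
    · exact ⟨0, 1, fun h => absurd hji h⟩
    · obtain ⟨C, Φ, h⟩ := hF1 j i hji F hFpos (hFd j i)
      exact ⟨C, Φ, fun _ => h⟩
  choose C Φ hC using hC
  obtain ⟨κ, hκ1, hκ2⟩ := hCLSC m π p hNF.pp hNF.p1 hNF.pπ hNF.pinj F hFpos hF9 hpF
  let Φ' : (ZMod F)ˣ →* Multiplicative (Fin s → Fin s → ZMod 3) := PT.FINA.assemble Φ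
  obtain ⟨M, hM⟩ : ∃ M, M = n + F := ⟨_, rfl⟩
  -- the matrix
  have hmat : ∀ (E q : ℕ), (E = 1 ∨ E = 2) → q.Prime → M < q → q % 3 = 2 → InCT E π w0 c q →
      CubeRank.GenBy (BB h n E q) (v + (s - (MaT b X Y P Q P' Q' (BB h n E q)).rank)) ∧
      ∃ hQ : q.Coprime F, ∀ τ : Fin s → Fin s → ZMod 3,
        (∀ j i, j ≠ i → ∀ r : ℤ, (q : ℤ) ∣ r ^ 3 - b j →
          τ j i = TAUV q (P j i) (Q j i) (P' j i) (Q' j i) r) →
        MaT b X Y P Q P' Q' (BB h n E q) = alt fun j i =>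
          C j i + E * ((Φ j i (ZMod.unitOfCoprime q hQ)).toAdd - τ j i) := by
    intro E q hE hq hqM hq3 hIn
    have hF9' : 9 ≤ F := Nat.le_of_dvd hFpos hF9
    have hqn : ¬ q ∣ n := fun h => by
      have := Nat.le_of_dvd hn0 h
      omega
    have hQ : q.Coprime F := by
      rw [Nat.Prime.coprime_iff_not_dvd hq]
      intro h
      have := Nat.le_of_dvd hFpos h
      omega
    obtain ⟨hBG, hTy, hiff⟩ := hNADT h n m k π p e r f w0 c E q hNF hh hE hq hq3 hIn hqn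
    have hAG : ∀ i, AG (BB h n E q) (b i) := fun i =>
      ((hiff (b i) (hAdC i).supp).1 (hAdN i)).1
    have hgen := hNBKN h n m k π p e r f w0 c s τ' b X Y P Q P' Q' E q hNF hh hAdN hSys hSw hLam
      hspan hE hq (by omega) hq3 hIn hqn
    rw [hv] at hgen
    refine ⟨hgen, hQ, ?_⟩
    intro τ hτ
    have hent : ∀ j i, j ≠ i → MaT b X Y P Q P' Q' (BB h n E q) j i =
        C j i + E * ((Φ j i (ZMod.unitOfCoprime q hQ)).toAdd - τ j i) := by
      intro j i hji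
      obtain ⟨ρ, hρ⟩ := BFINA.exists_root hq hq3 (b j)
      rw [MaT, if_neg hji, hC j i hji E q hQ hq hq3 (hAG i) ρ hρ, ← hτ j i hji ρ hρ]
    have hanti := (hTENT s τ' b X Y P Q P' Q' (BB h n E q) hSys hSw hBG hAG (hLam _ hTy) hb0).1
    ext j i
    rw [alt]
    rcases lt_trichotomy j i with h | h | h
    · rw [if_pos h, hent j i h.ne]
    · subst h
      rw [if_neg (lt_irrefl _), if_neg (lt_irrefl _), MaT, if_pos rfl]
    · rw [if_neg (not_lt.2 h.le), if_pos h, hanti j i, hent i j h.ne]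
  constructor
  · refine ⟨M, fun E q hE hq hqM hq3 hIn => ?_⟩
    obtain ⟨S, hS1, hS2⟩ := (hmat E q hE hq hqM hq3 hIn).1
    exact ⟨S, hS1.trans (Nat.add_le_add_left (Nat.sub_le _ _) _), hS2⟩
  intro t
  obtain ⟨K, hK⟩ := hBDG s b P Q P' Q' F m (t - v) κ (Fin.cons w0 c) C Φ' hSys hFpos hF9 hκ2
  refine ⟨K + 2 * (2 * ((Finset.range (M + 1)).card : ℝ)), fun σ h1 hσ2 => ?_⟩
  have hB := hK σ h1 hσ2
  have hsub1 : ∀ q : ℕ, q.Prime → M < q → q ∈ WR h n π w0 c 2 1 t →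
      q ∈ SP b P Q P' Q' (t - v) κ (Fin.cons w0 c) C Φ' := by
    intro q hq hqM ⟨hq3, hIn, hrr⟩
    obtain ⟨hgen, hQ, hm⟩ := hmat 1 q (Or.inl rfl) hq hqM hq3 hIn
    have hr1 := CubeRank.rr_le hgen
    refine ⟨hQ, hq3, ?_, ?_⟩
    · rw [hκ1]
      funext i
      refine Fin.cases ?_ (fun i => ?_) i
      · rw [Fin.cons_zero, Fin.cons_zero]
        have h5 := hIn.1
        rw [pow_one] at h5
        exact h5
      · rw [Fin.cons_succ, Fin.cons_succ]
        have h5 := hIn.2 i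
        rw [Nat.cast_one, one_mul] at h5
        exact h5
    · intro τ hτ
      have e1 : (fun j i => C j i + ((1 : ℕ) : ZMod 3) *
          ((Φ j i (ZMod.unitOfCoprime q hQ)).toAdd - τ j i)) =
          C + (Φ' (ZMod.unitOfCoprime q hQ)).toAdd - τ := by
        funext j i
        show C j i + ((1 : ℕ) : ZMod 3) * ((Φ j i (ZMod.unitOfCoprime q hQ)).toAdd - τ j i) =
          C j i + (Φ j i (ZMod.unitOfCoprime q hQ)).toAdd - τ j i
        rw [Nat.cast_one]
        ring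
      rw [← e1, ← hm τ hτ]
      omega
  have hsub2 : ∀ q : ℕ, q.Prime → M < q → q ∈ WR h n π w0 c 2 2 t →
      q ∈ SM b P Q P' Q' (t - v) κ (Fin.cons w0 c) C Φ' := by
    intro q hq hqM ⟨hq3, hIn, hrr⟩
    obtain ⟨hgen, hQ, hm⟩ := hmat 2 q (Or.inr rfl) hq hqM hq3 hIn
    have hr1 := CubeRank.rr_le hgen
    refine ⟨hQ, hq3, ?_, ?_⟩
    · rw [hκ1]
      funext i
      refine Fin.cases ?_ (fun i => ?_) i
      · rw [Fin.cons_zero, Pi.neg_apply, Fin.cons_zero]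
        have h5 := hIn.1
        rw [CL.wt_sq2 hq3] at h5
        exact neg_of_two h5
      · rw [Fin.cons_succ, Pi.neg_apply, Fin.cons_succ]
        exact neg_of_two (hIn.2 i)
    · intro τ hτ
      have e1 : (fun j i => C j i + ((2 : ℕ) : ZMod 3) *
          ((Φ j i (ZMod.unitOfCoprime q hQ)).toAdd - τ j i)) =
          C - (Φ' (ZMod.unitOfCoprime q hQ)).toAdd + τ := by
        funext j i
        show C j i + ((2 : ℕ) : ZMod 3) * ((Φ j i (ZMod.unitOfCoprime q hQ)).toAdd - τ j i) =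
          C j i - (Φ j i (ZMod.unitOfCoprime q hQ)).toAdd + τ j i
        rw [show ((2 : ℕ) : ZMod 3) = -1 from by decide]
        ring
      rw [← e1, ← hm τ hτ]
      omega
  have i1 := CL.sm_le_add _ _ M hsub1 h1
  have i2 := CL.sm_le_add _ _ M hsub2 h1
  unfold LI
  linarith

end Pool.Agent.PTN


end
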