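import Mathlib
import Pool.Agent.PTDM.C18
import Pool.Agent.PTDM.C21
import Pool.Agent.PTDM.C39
import Pool.Agent.PTDM.C40
import Pool.Agent.PTDM.C41
import Pool.Agent.PTDM.C42
import Pool.Agent.PTL.Defs

/-! Parts: PTL.DOM, PTL.FIN, PTN.LAW, PTN.CBE, PTN.TRU, PTN.ALLA, PTN.ALLQ, PTN.MAINQ -/

section

/-!
# Prime power twists: averages of functions of the rank in a class
-/

set_option autoImplicit false

open NumberField IsDedekindDomain Finset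
open scoped nonZeroDivisors Pointwise

namespace Pool.Agent.PTL

open Pool.Agent.PT Pool.Agent.Lib_helper18 Pool.Agent.Lib_helper18.Eis Pool.Agent.Lib_helper84.Cub

namespace DOM

open BDENS

/-- The groups are finitely generated. -/
theorem fin_gen {k : ℕ} (hk : 1 ≤ k) {p e : Fin k → ℕ} (hp : ∀ i, (p i).Prime)
    (h3 : ∀ i, p i % 3 = 2) (hinj : Function.Injective p) (he : ∀ i, e i = 1 ∨ e i = 2)
    {q E : ℕ} (hq : q.Prime) (hq3 : q % 3 = 2) (hE : E = 1 ∨ E = 2)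
    (h9 : q % 9 ≠ 8 ∨ ∃ i, p i % 9 ≠ 8) (hne : ∀ i, p i ≠ q) :
    CubeRank.GenBy ((∏ i, (p i : ℤ) ^ e i) * q ^ E)
      (CubeRank.rr ((∏ i, (p i : ℤ) ^ e i) * q ^ E)) := by
  have h := CubeRank.gen_no (q := (Fin.cons q p : Fin (k + 1) → ℕ))
    (fun i => Fin.cases (by simpa using hq) (fun i => by simpa using hp i) i)
    (fun i => Fin.cases (by simpa using hq3) (fun i => by simpa using h3 i) i)
    (by
      rw [Fin.cons_injective_iff]
      exact ⟨fun ⟨i, hi⟩ => hne i hi, hinj⟩)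
    (by
      rcases h9 with h9 | ⟨i, h9⟩
      · exact ⟨0, by simpa using h9⟩
      · exact ⟨i.succ, by simpa using h9⟩)
    (by omega) (e := (Fin.cons E e : Fin (k + 1) → ℕ))
    (fun i => Fin.cases (by simpa using hE) (fun i => by simpa using he i) i)
  rw [Fin.prod_univ_succ] at h
  simp only [Fin.cons_zero, Fin.cons_succ] at h
  rw [mul_comm] at h
  exact CubeRank.gen_rr h

/-- The trivial group has no rational points. -/
theorem no_sol {A : ℤ} (hA : A ≠ 0) (h : CubeRank.GenBy A 0) :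
    ¬ ∃ X Y : ℚ, X ^ 3 + Y ^ 3 = (A : ℚ) := by
  rintro ⟨X, Y, hXY⟩
  have hAq : (A : ℚ) ≠ 0 := by exact_mod_cast hA
  obtain ⟨s, hs, hcl⟩ := h
  have hs0 : s = ∅ := Finset.card_eq_zero.1 (by omega)
  rw [hs0, Finset.coe_empty, AddSubgroup.closure_empty] at hcl
  have hsum : X + Y ≠ 0 := by
    intro h0
    apply hAq
    rw [← hXY]
    have : Y = -X := by linarith
    rw [this]
    ring
  have hx : 12 * (A : ℚ) / (X + Y) ≠ 0 := div_ne_zero (mul_ne_zero (by norm_num) hAq) hsum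
  have hns := CubeRank.bas_nonsing (A := A) (x := 12 * (A : ℚ) / (X + Y))
    (y := 36 * (A : ℚ) * (X - Y) / (X + Y)) hx (by
      rw [← hXY]
      field_simp
      ring)
  have h1 : (WeierstrassCurve.Affine.Point.some _ _ hns : CubeRank.GA A) ∈
      (⊥ : AddSubgroup (CubeRank.GA A)) := by
    rw [hcl]
    exact AddSubgroup.mem_top _
  rw [AddSubgroup.mem_bot] at h1
  exact WeierstrassCurve.Affine.Point.some_ne_zero _ h1

theorem sum_ind_le (S : Set ℕ) {σ : ℝ} (hσ : 1 < σ) (T : Finset ℕ) :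
    ∑ q ∈ T, ind S σ q ≤ sm S σ := by
  rw [sm_eq]
  exact (ind_summable S hσ).sum_le_tsum T fun n _ => ind_nonneg S σ n

theorem NK_zero (s : ℕ) : NK s 0 = Nat.card (Fin s → Fin s → ZMod 3) := by
  unfold NK
  exact Nat.card_congr (Equiv.subtypeUnivEquiv fun v => Nat.zero_le _)

section

variable {k : ℕ} {r f : Fin k → ℕ} {w0 : ZMod 3}

theorem WS_zero {E t q : ℕ} (h : q ∈ WS r f w0 E t) : q ∈ WS r f w0 E 0 :=
  ⟨h.1, h.2.1, h.2.2.1, Nat.zero_le _⟩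

open Classical in
/-- one exponent, pointwise -/
theorem point (F : ℕ → ℝ) (hF : Monotone F) (h0 : 0 ≤ F 0) {M s : ℕ} {E : ℕ}
    (hM : ∀ q : ℕ, q.Prime → M < q → q ∈ WS r f w0 E 0 →
      CubeRank.rr ((∏ i, (r i : ℤ) ^ f i) * q ^ E) ≤ s) {σ : ℝ} (hσ : 1 < σ) (q : ℕ) :
    (if q.Prime ∧ q ∈ WS r f w0 E 0 then
      F (CubeRank.rr ((∏ i, (r i : ℤ) ^ f i) * q ^ E)) * (q : ℝ) ^ (-σ) else 0) ≤
    F 0 * ind (WS r f w0 E 0) σ q +
      ∑ t ∈ Finset.range s, (F (t + 1) - F t) * ind (WS r f w0 E (t + 1)) σ q +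
      (if q ≤ M then F (CubeRank.rr ((∏ i, (r i : ℤ) ^ f i) * q ^ E)) else 0) := by
  have hFn : ∀ n, 0 ≤ F n := fun n => h0.trans (hF (Nat.zero_le n))
  have hsum : 0 ≤ ∑ t ∈ Finset.range s, (F (t + 1) - F t) * ind (WS r f w0 E (t + 1)) σ q :=
    Finset.sum_nonneg fun t _ => mul_nonneg (sub_nonneg.2 (hF (Nat.le_succ t)))
      (ind_nonneg _ _ _)
  have h00 : 0 ≤ F 0 * ind (WS r f w0 E 0) σ q := mul_nonneg h0 (ind_nonneg _ _ _)
  have hlast : 0 ≤ (if q ≤ M then F (CubeRank.rr ((∏ i, (r i : ℤ) ^ f i) * q ^ E)) else 0) := by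
    split_ifs
    · exact hFn _
    · exact le_rfl
  by_cases hq : q.Prime ∧ q ∈ WS r f w0 E 0
  · rw [if_pos hq]
    by_cases hqM : q ≤ M
    · rw [if_pos hqM]
      have h1 : (q : ℝ) ^ (-σ) ≤ 1 :=
        Real.rpow_le_one_of_one_le_of_nonpos (by exact_mod_cast hq.1.one_lt.le) (by linarith)
      have h2 := mul_le_mul_of_nonneg_left h1
        (hFn (CubeRank.rr ((∏ i, (r i : ℤ) ^ f i) * q ^ E)))
      rw [mul_one] at h2
      linarith
    · rw [if_neg hqM, add_zero]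
      push Not at hqM
      have hrs := hM q hq.1 hqM hq.2
      obtain ⟨ρ, hρ⟩ : ∃ ρ, ρ = CubeRank.rr ((∏ i, (r i : ℤ) ^ f i) * q ^ E) := ⟨_, rfl⟩
      rw [← hρ] at hrs ⊢
      have e1 : ∀ t, ind (WS r f w0 E (t + 1)) σ q = if t < ρ then (q : ℝ) ^ (-σ) else 0 := by
        intro t
        by_cases ht : t < ρ
        · rw [if_pos ht]
          exact ind_mem hq.1 ⟨hq.2.1, hq.2.2.1, hq.2.2.2.1, by rw [← hρ]; exact ht⟩
        · rw [if_neg ht]
          refine ind_not fun h => ht ?_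
          have h3 := h.2.2.2.2
          rw [← hρ] at h3
          exact h3
      have e2 : ∑ t ∈ Finset.range s, (F (t + 1) - F t) * ind (WS r f w0 E (t + 1)) σ q =
          (F ρ - F 0) * (q : ℝ) ^ (-σ) := by
        have e3 : ∀ t ∈ Finset.range s, (F (t + 1) - F t) * ind (WS r f w0 E (t + 1)) σ q =
            if t < ρ then (F (t + 1) - F t) * (q : ℝ) ^ (-σ) else 0 := by
          intro t _
          rw [e1 t, mul_ite, mul_zero]
        rw [Finset.sum_congr rfl e3, ← Finset.sum_filter]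
        have e4 : (Finset.range s).filter (fun t => t < ρ) = Finset.range ρ := by
          ext t
          simp only [Finset.mem_filter, Finset.mem_range]
          omega
        rw [e4, ← Finset.sum_mul, Finset.sum_range_sub]
      rw [e2, ind_mem hq.1 hq.2]
      apply le_of_eq
      ring
  · rw [if_neg hq]
    linarith

open Classical in
/-- averages in a class -/
theorem dom (hCLE : CLE) (hk : 1 ≤ k) (hr : ∀ i, (r i).Prime) (h2 : ∀ i, r i % 3 = 2)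
    (hinj : Function.Injective r) (hf : ∀ i, f i = 1 ∨ f i = 2) (w0 : ZMod 3)
    (F : ℕ → ℝ) (hF : Monotone F) (h0 : 0 ≤ F 0) :
    ∃ K : ℝ, ∀ σ : ℝ, 1 < σ → σ ≤ 2 → ∀ T : Finset ℕ,
      ∑ E ∈ ({1, 2} : Finset ℕ), ∑ q ∈ T, (if q.Prime ∧ q ∈ WS r f w0 E 0 then
        F (CubeRank.rr ((∏ i, (r i : ℤ) ^ f i) * q ^ E)) * (q : ℝ) ^ (-σ) else 0) ≤
      Esk (sz r f w0) F / 3 * Real.log (1 / (σ - 1)) + K := by
  obtain ⟨⟨M, hM⟩, hC⟩ := hCLE k r f hk hr h2 hinj hf w0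
  choose K hK using hC
  have hFn : ∀ n, 0 ≤ F n := fun n => h0.trans (hF (Nat.zero_le n))
  obtain ⟨s, hs⟩ : ∃ s, s = sz r f w0 := ⟨_, rfl⟩
  rw [← hs] at hM hK ⊢
  obtain ⟨B, hB⟩ : ∃ B : ℕ → ℝ, ∀ E, B E = ∑ q ∈ Finset.range (M + 1),
      F (CubeRank.rr ((∏ i, (r i : ℤ) ^ f i) * (q : ℤ) ^ E)) := ⟨_, fun _ => rfl⟩
  refine ⟨F 0 * K 0 + ∑ t ∈ Finset.range s, (F (t + 1) - F t) * K (t + 1) + B 1 + B 2,
    fun σ h1 hσ2 T => ?_⟩
  have hone : ∀ E : ℕ, (E = 1 ∨ E = 2) →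
      ∑ q ∈ T, (if q.Prime ∧ q ∈ WS r f w0 E 0 then
        F (CubeRank.rr ((∏ i, (r i : ℤ) ^ f i) * q ^ E)) * (q : ℝ) ^ (-σ) else 0) ≤
      F 0 * sm (WS r f w0 E 0) σ + ∑ t ∈ Finset.range s, (F (t + 1) - F t) *
        sm (WS r f w0 E (t + 1)) σ + B E := by
    intro E hE
    refine (Finset.sum_le_sum fun q _ => point F hF h0 (s := s) (M := M)
      (fun q hq hqM hqW => hM E q hE hq hqM hqW) h1 q).trans ?_
    rw [Finset.sum_add_distrib, Finset.sum_add_distrib]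
    refine add_le_add (add_le_add ?_ ?_) ?_
    · rw [← Finset.mul_sum]
      exact mul_le_mul_of_nonneg_left (sum_ind_le _ h1 T) h0
    · rw [Finset.sum_comm]
      refine Finset.sum_le_sum fun t _ => ?_
      rw [← Finset.mul_sum]
      exact mul_le_mul_of_nonneg_left (sum_ind_le _ h1 T) (sub_nonneg.2 (hF (Nat.le_succ t)))
    · rw [← Finset.sum_filter, hB]
      refine Finset.sum_le_sum_of_subset_of_nonneg ?_ fun q _ _ => hFn _
      intro q hq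
      rw [Finset.mem_range]
      have := (Finset.mem_filter.1 hq).2
      omega
  rw [Finset.sum_pair (by norm_num : (1 : ℕ) ≠ 2)]
  have i1 := hone 1 (Or.inl rfl)
  have i2 := hone 2 (Or.inr rfl)
  have j0 := mul_le_mul_of_nonneg_left (hK 0 σ h1 hσ2) h0
  have j1 : ∑ t ∈ Finset.range s, (F (t + 1) - F t) * (sm (WS r f w0 1 (t + 1)) σ +
      sm (WS r f w0 2 (t + 1)) σ) ≤ ∑ t ∈ Finset.range s, (F (t + 1) - F t) *
      ((NK s (t + 1) : ℝ) / Nat.card (Fin s → Fin s → ZMod 3) / 3 *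
        Real.log (1 / (σ - 1)) + K (t + 1)) :=
    Finset.sum_le_sum fun t _ => mul_le_mul_of_nonneg_left (hK (t + 1) σ h1 hσ2)
      (sub_nonneg.2 (hF (Nat.le_succ t)))
  have hN : (Nat.card (Fin s → Fin s → ZMod 3) : ℝ) ≠ 0 := Nat.cast_ne_zero.2 Nat.card_pos.ne'
  rw [NK_zero, div_self hN] at j0
  have hE : Esk s F / 3 * Real.log (1 / (σ - 1)) =
      F 0 * (1 / 3 * Real.log (1 / (σ - 1))) +
      ∑ t ∈ Finset.range s, (F (t + 1) - F t) *
        ((NK s (t + 1) : ℝ) / Nat.card (Fin s → Fin s → ZMod 3) / 3 *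
          Real.log (1 / (σ - 1))) := by
    rw [AL.Esk_sum, add_div, add_mul, Finset.sum_div, Finset.sum_mul]
    congr 1
    · ring
    · refine Finset.sum_congr rfl fun t _ => ?_
      unfold NK
      ring
  rw [hE]
  have e1 : ∑ t ∈ Finset.range s, (F (t + 1) - F t) * (sm (WS r f w0 1 (t + 1)) σ +
      sm (WS r f w0 2 (t + 1)) σ) =
      ∑ t ∈ Finset.range s, (F (t + 1) - F t) * sm (WS r f w0 1 (t + 1)) σ +
      ∑ t ∈ Finset.range s, (F (t + 1) - F t) * sm (WS r f w0 2 (t + 1)) σ := by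
    rw [← Finset.sum_add_distrib]
    exact Finset.sum_congr rfl fun t _ => by ring
  have e2 : ∑ t ∈ Finset.range s, (F (t + 1) - F t) *
      ((NK s (t + 1) : ℝ) / Nat.card (Fin s → Fin s → ZMod 3) / 3 *
        Real.log (1 / (σ - 1)) + K (t + 1)) =
      ∑ t ∈ Finset.range s, (F (t + 1) - F t) *
        ((NK s (t + 1) : ℝ) / Nat.card (Fin s → Fin s → ZMod 3) / 3 *
          Real.log (1 / (σ - 1))) +
      ∑ t ∈ Finset.range s, (F (t + 1) - F t) * K (t + 1) := by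
    rw [← Finset.sum_add_distrib]
    exact Finset.sum_congr rfl fun t _ => by ring
  rw [e1, e2] at j1
  rw [mul_add, mul_add] at j0
  linarith

/-- the number of the primes in the class -/
theorem low0 (hDIR : DIR) (w0 : ZMod 3) (hH : (∃ i, r i % 9 ≠ 8) ∨ w0 ≠ 0) :
    ∃ K : ℝ, ∀ σ : ℝ, 1 < σ → σ ≤ 2 →
      1 / 3 * Real.log (1 / (σ - 1)) - K ≤ sm (WS r f w0 1 0) σ + sm (WS r f w0 2 0) σ := by
  obtain ⟨C1, hC1⟩ := DL.w_lower hDIR w0
  obtain ⟨C2, hC2⟩ := DL.w_lower hDIR (-w0)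
  have h9 : ∀ q : ℕ, q % 3 = 2 → wt ((q : ℤ) ^ 2) = w0 ∨ wt ((q : ℤ) ^ 2) = -w0 →
      q % 9 ≠ 8 ∨ ∃ i, r i % 9 ≠ 8 := by
    intro q _ hw
    rcases hH with h | h
    · exact Or.inr h
    · refine Or.inl fun hq => h ?_
      have h1 := DL.wt_val 8 7 0 hq (by norm_num)
      rw [h1] at hw
      rcases hw with hw | hw
      · rw [← hw]
        decide
      · have h2 : w0 = -(-w0) := (neg_neg _).symm
        rw [h2, ← hw]
        decide
  refine ⟨C1 + C2, fun σ h1 h2 => ?_⟩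
  have e1 := hC1 σ h1 h2
  have e2 := hC2 σ h1 h2
  have e3 : sm {q : ℕ | q % 3 = 2 ∧ wt ((q : ℤ) ^ 2) = w0} σ ≤ sm (WS r f w0 1 0) σ := by
    refine DL.sm_mono ?_ h1
    intro q _ hq
    refine ⟨hq.1, h9 q hq.1 (Or.inl hq.2), ?_, Nat.zero_le _⟩
    rw [pow_one]
    exact hq.2
  have e4 : sm {q : ℕ | q % 3 = 2 ∧ wt ((q : ℤ) ^ 2) = -w0} σ ≤ sm (WS r f w0 2 0) σ := by
    refine DL.sm_mono ?_ h1
    intro q _ hq
    refine ⟨hq.1, h9 q hq.1 (Or.inr hq.2), ?_, Nat.zero_le _⟩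
    rw [CL.wt_sq2 hq.1, hq.2]
    have h3 : ∀ z : ZMod 3, 2 * -z = z := by decide
    exact h3 w0
  linarith

theorem approx (S : Set ℕ) {σ : ℝ} (hσ : 1 < σ) :
    ∃ T : Finset ℕ, sm S σ - 1 ≤ ∑ q ∈ T, ind S σ q := by
  have h1 := (ind_summable S hσ).hasSum
  rw [← sm_eq] at h1
  have h2 := h1.eventually (lt_mem_nhds (show sm S σ - 1 < sm S σ by linarith))
  obtain ⟨T, hT⟩ := h2.exists
  exact ⟨T, hT.le⟩

/-- lower bounds in a class -/
theorem low (hCLE : CLE) (hDIR : DIR) (hk : 1 ≤ k) (hr : ∀ i, (r i).Prime)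
    (h2 : ∀ i, r i % 3 = 2) (hinj : Function.Injective r) (hf : ∀ i, f i = 1 ∨ f i = 2)
    (w0 : ZMod 3) (hH : (∃ i, r i % 9 ≠ 8) ∨ w0 ≠ 0) (t : ℕ) (G : ℕ → Set ℕ) (M : ℕ)
    (hG : ∀ E q : ℕ, (E = 1 ∨ E = 2) → q.Prime → M < q → q ∈ WS r f w0 E 0 →
      q ∉ WS r f w0 E t → q ∈ G E) :
    ∃ K : ℝ, ∀ σ : ℝ, 1 < σ → σ ≤ 2 → ∃ T : Finset ℕ,
      (1 - (NK (sz r f w0) t : ℝ) / Nat.card (Fin (sz r f w0) → Fin (sz r f w0) → ZMod 3)) / 3 *
        Real.log (1 / (σ - 1)) - K ≤ ∑ E ∈ ({1, 2} : Finset ℕ), ∑ q ∈ T, ind (G E) σ q := by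
  obtain ⟨-, hC⟩ := hCLE k r f hk hr h2 hinj hf w0
  obtain ⟨K, hK⟩ := hC t
  obtain ⟨K0, hK0⟩ := low0 (r := r) (f := f) hDIR w0 hH
  refine ⟨K + K0 + 2 * (2 * ((Finset.range (M + 1)).card : ℝ)) + 2, fun σ h1 hσ2 => ?_⟩
  have e1 := hK σ h1 hσ2
  have e2 := hK0 σ h1 hσ2
  have e3 : ∀ E : ℕ, (E = 1 ∨ E = 2) → sm (WS r f w0 E 0) σ ≤
      sm (WS r f w0 E t) σ + sm (G E) σ + 2 * ((Finset.range (M + 1)).card : ℝ) := by
    intro E hE
    have i1 := CL.sm_le_add (WS r f w0 E 0) (WS r f w0 E t ∪ G E) M (fun q hq hqM hqW => by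
      by_cases h : q ∈ WS r f w0 E t
      · exact Or.inl h
      · exact Or.inr (hG E q hE hq hqM hqW h)) h1
    have i2 := BD.sm_union_inter (WS r f w0 E t) (G E) h1
    have i3 := DL.sm_nonneg (WS r f w0 E t ∩ G E) σ
    linarith
  obtain ⟨T1, hT1⟩ := approx (G 1) h1
  obtain ⟨T2, hT2⟩ := approx (G 2) h1
  refine ⟨T1 ∪ T2, ?_⟩
  rw [Finset.sum_pair (by norm_num : (1 : ℕ) ≠ 2)]
  have j1 : ∑ q ∈ T1, ind (G 1) σ q ≤ ∑ q ∈ T1 ∪ T2, ind (G 1) σ q :=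
    Finset.sum_le_sum_of_subset_of_nonneg Finset.subset_union_left fun q _ _ =>
      ind_nonneg _ _ _
  have j2 : ∑ q ∈ T2, ind (G 2) σ q ≤ ∑ q ∈ T1 ∪ T2, ind (G 2) σ q :=
    Finset.sum_le_sum_of_subset_of_nonneg Finset.subset_union_right fun q _ _ =>
      ind_nonneg _ _ _
  have e4 := e3 1 (Or.inl rfl)
  have e5 := e3 2 (Or.inr rfl)
  have e6 : (1 - (NK (sz r f w0) t : ℝ) /
      Nat.card (Fin (sz r f w0) → Fin (sz r f w0) → ZMod 3)) / 3 * Real.log (1 / (σ - 1)) =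
      1 / 3 * Real.log (1 / (σ - 1)) - (NK (sz r f w0) t : ℝ) /
      Nat.card (Fin (sz r f w0) → Fin (sz r f w0) → ZMod 3) / 3 * Real.log (1 / (σ - 1)) := by
    ring
  rw [e6]
  linarith

end

end DOM

end Pool.Agent.PTL


end

section

/-!
# Prime power twists: the theorems
-/

set_option autoImplicit false

open NumberField IsDedekindDomain Finset
open scoped nonZeroDivisors Pointwise

namespace Pool.Agent.PTL

open Pool.Agent.PT Pool.Agent.Lib_helper18 Pool.Agent.Lib_helper18.Eis Pool.Agent.Lib_helper84.Cub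

namespace FIN

open BDENS

/-! ### Sums -/

theorem log_nn {σ : ℝ} (h1 : 1 < σ) (h2 : σ ≤ 2) : 0 ≤ Real.log (1 / (σ - 1)) := by
  apply Real.log_nonneg
  rw [le_div_iff₀ (by linarith)]
  linarith

theorem Above.mono {n : ℤ} {W : ℤ → Prop} {F : ℤ → ℝ} {x y : ℝ} (h : Above n W F x) (hxy : x ≤ y) :
    Above n W F y := by
  obtain ⟨K, hK⟩ := h
  refine ⟨K, fun σ h1 h2 T => (hK σ h1 h2 T).trans ?_⟩
  have := mul_le_mul_of_nonneg_right hxy (log_nn h1 h2)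
  linarith

theorem Below.mono {n : ℤ} {W : ℤ → Prop} {F : ℤ → ℝ} {x y : ℝ} (h : Below n W F x) (hxy : y ≤ x) :
    Below n W F y := by
  obtain ⟨K, hK⟩ := h
  refine ⟨K, fun σ h1 h2 => ?_⟩
  obtain ⟨T, hT⟩ := hK σ h1 h2
  refine ⟨T, le_trans ?_ hT⟩
  have := mul_le_mul_of_nonneg_right hxy (log_nn h1 h2)
  linarith

theorem Sum_mono {n : ℤ} {W : ℤ → Prop} {F : ℤ → ℝ} (hF : ∀ A, 0 ≤ F A) {σ : ℝ} {T T' : Finset ℕ}
    (h : T ⊆ T') : Sum n W F σ T ≤ Sum n W F σ T' := by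
  classical
  unfold Sum
  refine Finset.sum_le_sum fun e _ => Finset.sum_le_sum_of_subset_of_nonneg h fun q _ _ => ?_
  split_ifs
  · exact mul_nonneg (hF _) (Real.rpow_nonneg (Nat.cast_nonneg q) _)
  · exact le_rfl

theorem not_three {n : ℤ} (hn : ¬ (3 : ℤ) ∣ n) {q : ℕ} (hq : q % 3 = 2) (E : ℕ) :
    ¬ (3 : ℤ) ∣ n * (q : ℤ) ^ E := by
  intro h
  rcases Int.prime_three.dvd_or_dvd h with h1 | h1
  · exact hn h1
  · have := Int.prime_three.dvd_of_dvd_pow h1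
    omega

/-- the three classes -/
theorem Sum_all {n : ℤ} (hn : ¬ (3 : ℤ) ∣ n) (F : ℤ → ℝ) (σ : ℝ) (T : Finset ℕ) :
    Sum n (fun _ => True) F σ T = Sum n (Cls 1) F σ T + Sum n (Cls 2) F σ T +
      Sum n (Cls 4) F σ T := by
  classical
  unfold Sum
  rw [← Finset.sum_add_distrib, ← Finset.sum_add_distrib]
  refine Finset.sum_congr rfl fun e _ => ?_
  rw [← Finset.sum_add_distrib, ← Finset.sum_add_distrib]
  refine Finset.sum_congr rfl fun q _ => ?_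
  by_cases hq : q.Prime ∧ q % 3 = 2
  · have h3 := not_three hn hq.2 e
    generalize n * (q : ℤ) ^ e = A at *
    have hA : (Cls 1 A ∧ ¬ Cls 2 A ∧ ¬ Cls 4 A) ∨ (¬ Cls 1 A ∧ Cls 2 A ∧ ¬ Cls 4 A) ∨
        (¬ Cls 1 A ∧ ¬ Cls 2 A ∧ Cls 4 A) := by
      unfold Cls
      omega
    rcases hA with ⟨h1, h2, h4⟩ | ⟨h1, h2, h4⟩ | ⟨h1, h2, h4⟩
    · rw [if_pos ⟨hq.1, hq.2, trivial⟩, if_pos ⟨hq.1, hq.2, h1⟩, if_neg fun h => h2 h.2.2,
        if_neg fun h => h4 h.2.2]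
      ring
    · rw [if_pos ⟨hq.1, hq.2, trivial⟩, if_neg fun h => h1 h.2.2, if_pos ⟨hq.1, hq.2, h2⟩,
        if_neg fun h => h4 h.2.2]
      ring
    · rw [if_pos ⟨hq.1, hq.2, trivial⟩, if_neg fun h => h1 h.2.2, if_neg fun h => h2 h.2.2,
        if_pos ⟨hq.1, hq.2, h4⟩]
      ring
  · rw [if_neg fun h => hq ⟨h.1, h.2.1⟩, if_neg fun h => hq ⟨h.1, h.2.1⟩,
      if_neg fun h => hq ⟨h.1, h.2.1⟩, if_neg fun h => hq ⟨h.1, h.2.1⟩]
    ring

theorem Above_all {n : ℤ} (hn : ¬ (3 : ℤ) ∣ n) {F : ℤ → ℝ} {x y z : ℝ} (h1 : Above n (Cls 1) F x)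
    (h2 : Above n (Cls 2) F y) (h4 : Above n (Cls 4) F z) :
    Above n (fun _ => True) F (x + y + z) := by
  obtain ⟨K1, hK1⟩ := h1
  obtain ⟨K2, hK2⟩ := h2
  obtain ⟨K4, hK4⟩ := h4
  refine ⟨K1 + K2 + K4, fun σ h1 h2 T => ?_⟩
  rw [Sum_all hn]
  have e1 := hK1 σ h1 h2 T
  have e2 := hK2 σ h1 h2 T
  have e4 := hK4 σ h1 h2 T
  have : (x + y + z) * Real.log (1 / (σ - 1)) = x * Real.log (1 / (σ - 1)) +
      y * Real.log (1 / (σ - 1)) + z * Real.log (1 / (σ - 1)) := by ring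
  linarith

theorem Below_zero {n : ℤ} {W : ℤ → Prop} {F : ℤ → ℝ} : Below n W F 0 := by
  refine ⟨0, fun σ h1 h2 => ⟨∅, ?_⟩⟩
  unfold Sum
  simp

theorem Below_all {n : ℤ} (hn : ¬ (3 : ℤ) ∣ n) {F : ℤ → ℝ} (hF : ∀ A, 0 ≤ F A) {x y z : ℝ}
    (h1 : Below n (Cls 1) F x) (h2 : Below n (Cls 2) F y) (h4 : Below n (Cls 4) F z) :
    Below n (fun _ => True) F (x + y + z) := by
  classical
  obtain ⟨K1, hK1⟩ := h1
  obtain ⟨K2, hK2⟩ := h2
  obtain ⟨K4, hK4⟩ := h4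
  refine ⟨K1 + K2 + K4, fun σ h1 h2 => ?_⟩
  obtain ⟨T1, e1⟩ := hK1 σ h1 h2
  obtain ⟨T2, e2⟩ := hK2 σ h1 h2
  obtain ⟨T4, e4⟩ := hK4 σ h1 h2
  refine ⟨T1 ∪ T2 ∪ T4, ?_⟩
  rw [Sum_all hn]
  have i1 : Sum n (Cls 1) F σ T1 ≤ Sum n (Cls 1) F σ (T1 ∪ T2 ∪ T4) :=
    Sum_mono hF fun q hq => by simp [hq]
  have i2 : Sum n (Cls 2) F σ T2 ≤ Sum n (Cls 2) F σ (T1 ∪ T2 ∪ T4) :=
    Sum_mono hF fun q hq => by simp [hq]
  have i4 : Sum n (Cls 4) F σ T4 ≤ Sum n (Cls 4) F σ (T1 ∪ T2 ∪ T4) :=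
    Sum_mono hF fun q hq => by simp [hq]
  have : (x + y + z) * Real.log (1 / (σ - 1)) = x * Real.log (1 / (σ - 1)) +
      y * Real.log (1 / (σ - 1)) + z * Real.log (1 / (σ - 1)) := by ring
  linarith

/-! ### Classes -/

theorem wt_res {A : ℤ} {c : ℤ} (s t : ℤ) (hA : A % 9 = c) (h : c ^ 2 = 1 + 3 * (3 * s + t)) :
    wt (A ^ 2) = (t : ZMod 3) := by
  obtain ⟨k, hk⟩ : ∃ k : ℤ, A = 9 * k + c := ⟨A / 9, by omega⟩
  have h3 : A ^ 2 = 1 + 3 * (3 * (9 * k ^ 2 + 2 * k * c + s) + t) := by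
    rw [hk]
    linear_combination h
  rw [wt_eq h3]
  push_cast
  have h4 : (3 : ZMod 3) = 0 := by decide
  rw [h4]
  ring

theorem cls_iff {a A : ℤ} (ha : a = 1 ∨ a = 2 ∨ a = 4) (hA : ¬ (3 : ℤ) ∣ A) :
    Cls a A ↔ wt (A ^ 2) = wt (a ^ 2) := by
  have w1 : wt ((1 : ℤ) ^ 2) = 0 := by rw [wt_res (c := 1) 0 0 (by norm_num) (by norm_num)]; decide
  have w2 : wt ((2 : ℤ) ^ 2) = 1 := by rw [wt_res (c := 2) 0 1 (by norm_num) (by norm_num)]; decide
  have w4 : wt ((4 : ℤ) ^ 2) = 2 := by rw [wt_res (c := 4) 1 2 (by norm_num) (by norm_num)]; decide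
  have d01 : (0 : ZMod 3) ≠ 1 := by decide
  have d02 : (0 : ZMod 3) ≠ 2 := by decide
  have d12 : (1 : ZMod 3) ≠ 2 := by decide
  have hr : A % 9 = 1 ∨ A % 9 = 2 ∨ A % 9 = 4 ∨ A % 9 = 5 ∨ A % 9 = 7 ∨ A % 9 = 8 := by omega
  have hwt : (A % 9 = 1 ∨ A % 9 = 8) ∧ wt (A ^ 2) = 0 ∨ (A % 9 = 2 ∨ A % 9 = 7) ∧ wt (A ^ 2) = 1 ∨
      (A % 9 = 4 ∨ A % 9 = 5) ∧ wt (A ^ 2) = 2 := by
    rcases hr with h | h | h | h | h | h
    · exact Or.inl ⟨Or.inl h, by rw [wt_res 0 0 h (by norm_num)]; decide⟩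
    · exact Or.inr (Or.inl ⟨Or.inl h, by rw [wt_res 0 1 h (by norm_num)]; decide⟩)
    · exact Or.inr (Or.inr ⟨Or.inl h, by rw [wt_res 1 2 h (by norm_num)]; decide⟩)
    · exact Or.inr (Or.inr ⟨Or.inr h, by rw [wt_res 2 2 h (by norm_num)]; decide⟩)
    · exact Or.inr (Or.inl ⟨Or.inr h, by rw [wt_res 5 1 h (by norm_num)]; decide⟩)
    · exact Or.inl ⟨Or.inr h, by rw [wt_res 7 0 h (by norm_num)]; decide⟩
  unfold Cls
  rcases ha with rfl | rfl | rfl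
  · rw [w1]
    rcases hwt with ⟨h, hw⟩ | ⟨h, hw⟩ | ⟨h, hw⟩
    · rw [hw]
      exact ⟨fun _ => rfl, fun _ => by omega⟩
    · rw [hw]
      exact ⟨fun _ => by omega, fun h => absurd h.symm d01⟩
    · rw [hw]
      exact ⟨fun _ => by omega, fun h => absurd h.symm d02⟩
  · rw [w2]
    rcases hwt with ⟨h, hw⟩ | ⟨h, hw⟩ | ⟨h, hw⟩
    · rw [hw]
      exact ⟨fun _ => by omega, fun h => absurd h d01⟩
    · rw [hw]
      exact ⟨fun _ => rfl, fun _ => by omega⟩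
    · rw [hw]
      exact ⟨fun _ => by omega, fun h => absurd h.symm d12⟩
  · rw [w4]
    rcases hwt with ⟨h, hw⟩ | ⟨h, hw⟩ | ⟨h, hw⟩
    · rw [hw]
      exact ⟨fun _ => by omega, fun h => absurd h d02⟩
    · rw [hw]
      exact ⟨fun _ => by omega, fun h => absurd h d12⟩
    · rw [hw]
      exact ⟨fun _ => rfl, fun _ => by omega⟩

theorem wt_one_iff {a : ℤ} (ha : a = 1 ∨ a = 2 ∨ a = 4) : wt (a ^ 2) = 0 ↔ a = 1 := by
  have h1 := cls_iff (a := 1) (A := a) (Or.inl rfl) (by omega)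
  have w1 : wt ((1 : ℤ) ^ 2) = 0 := by rw [wt_res (c := 1) 0 0 (by norm_num) (by norm_num)]; decide
  rw [w1] at h1
  rw [← h1]
  unfold Cls
  omega

section

variable {k : ℕ} {p e : Fin k → ℕ} (hp : ∀ i, (p i).Prime) (h3 : ∀ i, p i % 3 = 2)

include hp h3 in
theorem n_three : ¬ (3 : ℤ) ∣ ∏ i, (p i : ℤ) ^ e i := by
  intro h
  obtain ⟨i, -, hi⟩ := (Prime.dvd_finsetProd_iff Int.prime_three _).1 h
  have h1 := Int.prime_three.dvd_of_dvd_pow hi
  have := h3 i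
  omega

theorem p_wt {q : ℕ} (hq : q % 3 = 2) : wt ((q : ℤ) ^ 2) ≠ 0 ↔ q % 9 ≠ 8 := by
  have h1 : q % 9 = 2 ∨ q % 9 = 5 ∨ q % 9 = 8 := by omega
  rcases h1 with h | h | h
  · rw [DL.wt_val 2 0 1 h (by norm_num)]
    exact ⟨fun _ => by omega, fun _ => by decide⟩
  · rw [DL.wt_val 5 2 2 h (by norm_num)]
    exact ⟨fun _ => by omega, fun _ => by decide⟩
  · rw [DL.wt_val 8 7 0 h (by norm_num)]
    exact ⟨fun h2 => absurd (by decide : ((0 : ℤ) : ZMod 3) = 0) h2, fun h2 => absurd h h2⟩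

/-- if all primes are `8` modulo `9` -/
theorem n_wt (h8 : ∀ i, p i % 9 = 8) : wt ((∏ i, (p i : ℤ) ^ e i) ^ 2) = 0 := by
  have h1 : (((∏ i, (p i : ℤ) ^ e i) ^ 2 : ℤ) : ZMod 9) = 1 := by
    push_cast
    rw [← Finset.prod_pow]
    refine Finset.prod_eq_one fun i _ => ?_
    have h2 : ((p i : ℕ) : ZMod 9) = 8 := by
      have h4 : ((p i : ℕ) : ZMod 9) = ((8 : ℕ) : ZMod 9) := by
        rw [ZMod.natCast_eq_natCast_iff']
        rw [h8 i]
      rw [h4]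
      rfl
    rw [h2, ← pow_mul, mul_comm, pow_mul]
    have h5 : (8 : ZMod 9) ^ 2 = 1 := by decide
    rw [h5, one_pow]
  have h2 : (9 : ℤ) ∣ (∏ i, (p i : ℤ) ^ e i) ^ 2 - 1 := by
    have h4 : (((∏ i, (p i : ℤ) ^ e i) ^ 2 - 1 : ℤ) : ZMod 9) = 0 := by
      rw [Int.cast_sub, h1, Int.cast_one, sub_self]
    exact (ZMod.intCast_zmod_eq_zero_iff_dvd _ 9).1 h4
  obtain ⟨m, hm⟩ := h2
  have h4 : (∏ i, (p i : ℤ) ^ e i) ^ 2 = 1 + 3 * (3 * m) := by linarith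
  rw [wt_eq h4]
  push_cast
  have h5 : (3 : ZMod 3) = 0 := by decide
  rw [h5, zero_mul]

/-- the class of `q` -/
noncomputable def w0 (p e : Fin k → ℕ) (a : ℤ) : ZMod 3 :=
  wt (a ^ 2) - wt ((∏ i, (p i : ℤ) ^ e i) ^ 2)

theorem H_of {a : ℤ} (ha : a = 1 ∨ a = 2 ∨ a = 4) (h1 : a = 1 → ∃ i, p i % 9 ≠ 8) :
    (∃ i, p i % 9 ≠ 8) ∨ w0 p e a ≠ 0 := by
  by_cases h : ∃ i, p i % 9 ≠ 8
  · exact Or.inl h
  · right
    push Not at h
    unfold w0
    rw [n_wt h, sub_zero]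
    intro h2
    exact absurd (h1 ((wt_one_iff ha).1 h2)) (by push Not; exact h)

include hp h3 in
theorem mem_iff {a : ℤ} (ha : a = 1 ∨ a = 2 ∨ a = 4) (h1 : a = 1 → ∃ i, p i % 9 ≠ 8)
    (E q : ℕ) (hE : E = 1 ∨ E = 2) : (q % 3 = 2 ∧ Cls a ((∏ i, (p i : ℤ) ^ e i) * q ^ E)) ↔
      q ∈ WS p e (w0 p e a) E 0 := by
  have hn := n_three (e := e) hp h3
  by_cases hq3 : q % 3 = 2
  · have hqE : ¬ (3 : ℤ) ∣ (q : ℤ) ^ E := by
      intro h
      have := Int.prime_three.dvd_of_dvd_pow h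
      omega
    have key : Cls a ((∏ i, (p i : ℤ) ^ e i) * q ^ E) ↔
        wt (((q : ℤ) ^ E) ^ 2) = w0 p e a := by
      rw [cls_iff ha (not_three hn hq3 E), mul_pow, wt_mul (sq_mod_three hn) (sq_mod_three hqE)]
      unfold w0
      rw [eq_sub_iff_add_eq, add_comm]
    constructor
    · rintro ⟨-, hc⟩
      have hw := key.1 hc
      refine ⟨hq3, ?_, hw, Nat.zero_le _⟩
      rcases H_of (e := e) ha h1 with h | h
      · exact Or.inr h
      · left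
        rw [← p_wt hq3]
        intro h2
        apply h
        rw [← hw]
        rcases hE with rfl | rfl
        · rw [pow_one]
          exact h2
        · rw [CL.wt_sq2 hq3, h2, mul_zero]
    · intro h
      exact ⟨hq3, key.2 h.2.2.1⟩
  · exact ⟨fun h => absurd h.1 hq3, fun h => absurd h.1 hq3⟩

include h3 in
theorem sz_eq {a : ℤ} (ha : a = 1 ∨ a = 2 ∨ a = 4) (h1 : a = 1 → ∃ i, p i % 9 ≠ 8) :
    sz p e (w0 p e a) = if a = 1 then k - 1 else k := by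
  classical
  unfold sz
  have hcast : ((∏ i, p i ^ e i : ℕ) : ℤ) = ∏ i, (p i : ℤ) ^ e i := by
    push_cast
    rfl
  rw [hcast]
  have h2 : wt ((∏ i, (p i : ℤ) ^ e i) ^ 2) + w0 p e a = 0 ↔ a = 1 := by
    unfold w0
    rw [add_sub_cancel]
    exact wt_one_iff ha
  by_cases h : a = 1
  · rw [if_pos h, if_pos]
    refine ⟨h2.2 h, ?_⟩
    obtain ⟨i, hi⟩ := h1 h
    exact ⟨i, (p_wt (h3 i)).2 hi⟩
  · rw [if_neg h, if_neg fun h' => h (h2.1 h'.1)]

include hp h3 in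
/-- averages -/
theorem above (hCLE : CLE) (hk : 1 ≤ k) (hinj : Function.Injective p)
    (he : ∀ i, e i = 1 ∨ e i = 2) {a : ℤ} (ha : a = 1 ∨ a = 2 ∨ a = 4)
    (h1 : a = 1 → ∃ i, p i % 9 ≠ 8) (F : ℕ → ℝ) (hF : Monotone F) (h0 : 0 ≤ F 0) :
    Above (∏ i, (p i : ℤ) ^ e i) (Cls a) (fun A => F (CubeRank.rr A))
      (Esk (if a = 1 then k - 1 else k) F / 3) := by
  classical
  obtain ⟨K, hK⟩ := DOM.dom hCLE hk hp h3 hinj he (w0 p e a) F hF h0
  rw [sz_eq h3 ha h1] at hK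
  refine ⟨K, fun σ hs1 hs2 T => le_trans (le_of_eq ?_) (hK σ hs1 hs2 T)⟩
  unfold Sum
  refine Finset.sum_congr rfl fun E hE => ?_
  have hE' : E = 1 ∨ E = 2 := by simpa using hE
  refine Finset.sum_congr rfl fun q _ => ?_
  have hm := mem_iff (e := e) hp h3 ha h1 E q hE'
  by_cases hq : q.Prime ∧ q ∈ WS p e (w0 p e a) E 0
  · rw [if_pos hq, if_pos ⟨hq.1, (hm.2 hq.2).1, (hm.2 hq.2).2⟩]
  · rw [if_neg hq, if_neg fun h => hq ⟨h.1, hm.1 ⟨h.2.1, h.2.2⟩⟩]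

include hp h3 in
/-- lower bounds -/
theorem below (hCLE : CLE) (hDIR : DIR) (hk : 1 ≤ k) (hinj : Function.Injective p)
    (he : ∀ i, e i = 1 ∨ e i = 2) {a : ℤ} (ha : a = 1 ∨ a = 2 ∨ a = 4)
    (h1 : a = 1 → ∃ i, p i % 9 ≠ 8) (t M : ℕ) (R : ℤ → Prop) (x : ℝ)
    (hx : Esk (if a = 1 then k - 1 else k) (fun c => if t ≤ c then 1 else 0) ≤ x)
    (hR : ∀ E q : ℕ, (E = 1 ∨ E = 2) → q.Prime → M < q → q % 3 = 2 →
      (q % 9 ≠ 8 ∨ ∃ i, p i % 9 ≠ 8) → ¬ t ≤ CubeRank.rr ((∏ i, (p i : ℤ) ^ e i) * q ^ E) →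
      R ((∏ i, (p i : ℤ) ^ e i) * q ^ E)) :
    Below (∏ i, (p i : ℤ) ^ e i) (Cls a) (fun A => tf (R A)) ((1 - x) / 3) := by
  classical
  obtain ⟨K, hK⟩ := DOM.low hCLE hDIR hk hp h3 hinj he (w0 p e a) (H_of ha h1) t
    (fun E => {q | q ∈ WS p e (w0 p e a) E 0 ∧ R ((∏ i, (p i : ℤ) ^ e i) * (q : ℤ) ^ E)}) M
    (fun E q hE hq hqM hqW hqt => ⟨hqW, hR E q hE hq hqM hqW.1 hqW.2.1 fun ht =>
      hqt ⟨hqW.1, hqW.2.1, hqW.2.2.1, ht⟩⟩)
  rw [sz_eq h3 ha h1] at hK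
  refine ⟨K, fun σ hs1 hs2 => ?_⟩
  obtain ⟨T, hT⟩ := hK σ hs1 hs2
  refine ⟨T, le_trans ?_ (hT.trans (le_of_eq ?_))⟩
  · have h2 : Esk (if a = 1 then k - 1 else k) (fun c => if t ≤ c then 1 else 0) =
        (NK (if a = 1 then k - 1 else k) t : ℝ) / Nat.card
          (Fin (if a = 1 then k - 1 else k) → Fin (if a = 1 then k - 1 else k) → ZMod 3) := by
      generalize (if a = 1 then k - 1 else k) = s
      rw [AL.Esk_eq]
      congr 1
      unfold NK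
      rw [Nat.card_eq_fintype_card, Fintype.card_subtype, Finset.sum_ite, Finset.sum_const_zero,
        add_zero, Finset.sum_const, nsmul_eq_mul, mul_one]
      rfl
    rw [h2] at hx
    have h4 := mul_le_mul_of_nonneg_right (sub_le_sub_left hx 1) (log_nn hs1 hs2)
    linarith
  · unfold Sum
    refine Finset.sum_congr rfl fun E hE => ?_
    have hE' : E = 1 ∨ E = 2 := by simpa using hE
    refine Finset.sum_congr rfl fun q _ => ?_
    have hm := mem_iff (e := e) hp h3 ha h1 E q hE'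
    show ind {q : ℕ | q ∈ WS p e (w0 p e a) E 0 ∧
      R ((∏ i, (p i : ℤ) ^ e i) * (q : ℤ) ^ E)} σ q = _
    unfold tf
    beta_reduce
    by_cases hq : q.Prime ∧ q ∈ WS p e (w0 p e a) E 0
    · rw [if_pos ⟨hq.1, (hm.2 hq.2).1, (hm.2 hq.2).2⟩]
      by_cases hRq : R ((∏ i, (p i : ℤ) ^ e i) * (q : ℤ) ^ E)
      · rw [ind_mem (S := {q : ℕ | q ∈ WS p e (w0 p e a) E 0 ∧
          R ((∏ i, (p i : ℤ) ^ e i) * (q : ℤ) ^ E)}) hq.1 ⟨hq.2, hRq⟩, if_pos hRq, one_mul]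
      · rw [ind_not fun h => hRq h.2.2, if_neg hRq, zero_mul]
    · rw [if_neg fun h => hq ⟨h.1, hm.1 ⟨h.2.1, h.2.2⟩⟩, ind_not fun h => hq ⟨h.1, h.2.1⟩]

end

end FIN

end Pool.Agent.PTL


end

section

/-!
# PTN_LAW: the sums of `DOMG` for the two laws
-/

set_option autoImplicit false

open Finset

namespace Pool.Agent.PTN

open Pool.Agent.PT Pool.Agent.PTL

namespace LAW

theorem LI_zero (s : ℕ) : LI s 0 = 1 := by
  unfold LI
  rw [DOM.NK_zero]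
  exact div_self (Nat.cast_ne_zero.2 Nat.card_pos.ne')

theorem LI_big {s t : ℕ} (h : s < t) : LI s t = 0 := by
  unfold LI
  have h1 : NK s t = 0 := by
    unfold NK
    have : IsEmpty {v : Fin s → Fin s → ZMod 3 // t ≤ s - (alt v).rank} :=
      ⟨fun v => by
        have h2 := v.2
        omega⟩
    exact Nat.card_of_isEmpty
  rw [h1, Nat.cast_zero, zero_div]

theorem LI_nonneg (s t : ℕ) : 0 ≤ LI s t := by
  unfold LI
  positivity

theorem Esk_LI (s : ℕ) (G : ℕ → ℝ) : Esk s G = G 0 +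
    ∑ t ∈ Finset.range s, (G (t + 1) - G t) * LI s (t + 1) :=
  AL.Esk_sum s G

theorem Esk_ind (s t : ℕ) : Esk s (fun c => if t ≤ c then 1 else 0) = LI s t := by
  classical
  rw [AL.Esk_eq]
  unfold LI
  congr 1
  unfold NK
  rw [Nat.card_eq_fintype_card, Fintype.card_subtype, Finset.sum_ite, Finset.sum_const_zero,
    add_zero, Finset.sum_const, nsmul_eq_mul, mul_one]
  rfl

theorem main (s v k : ℕ) (F : ℕ → ℝ) : F 0 * LI s (0 - v) +
    ∑ t ∈ Finset.range (v + (s + k)), (F (t + 1) - F t) * LI s (t + 1 - v) =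
      Esk s (fun c => F (v + c)) := by
  have h0 : 0 - v = 0 := by omega
  rw [h0, LI_zero, mul_one, Finset.sum_range_add, Esk_LI]
  have h1 : ∑ x ∈ Finset.range v, (F (x + 1) - F x) * LI s (x + 1 - v) = F v - F 0 := by
    rw [← Finset.sum_range_sub]
    refine Finset.sum_congr rfl fun x hx => ?_
    rw [Finset.mem_range] at hx
    have h2 : x + 1 - v = 0 := by omega
    rw [h2, LI_zero, mul_one]
  have h3 : ∑ x ∈ Finset.range (s + k), (F (v + x + 1) - F (v + x)) * LI s (v + x + 1 - v) =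
      ∑ x ∈ Finset.range s, (F (v + (x + 1)) - F (v + x)) * LI s (x + 1) := by
    rw [Finset.sum_range_add]
    have h4 : ∑ x ∈ Finset.range k, (F (v + (s + x) + 1) - F (v + (s + x))) *
        LI s (v + (s + x) + 1 - v) = 0 := by
      refine Finset.sum_eq_zero fun x _ => ?_
      rw [LI_big (by omega), mul_zero]
    rw [h4, add_zero]
    refine Finset.sum_congr rfl fun x _ => ?_
    have h5 : v + x + 1 - v = x + 1 := by omega
    rw [h5, add_assoc]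
  rw [h1, h3]
  show F 0 + (F v - F 0 + _) = F (v + 0) + _
  rw [add_zero]
  ring

theorem x_nonneg (s : ℕ) : (0 : ℝ) ≤ 1 / 3 ^ s := by positivity

theorem x_le (s n : ℕ) (h : n ≤ s) : (1 : ℝ) / 3 ^ s ≤ 1 / 3 ^ n :=
  one_div_le_one_div_of_le (by positivity) (pow_le_pow_right₀ (by norm_num) h)

theorem pow_le (s v : ℕ) : Esk s (fun c => (3 : ℝ) ^ (v + c)) ≤ 4 * 3 ^ v := by
  have h := AL.Esk_le s (fun c => (3 : ℝ) ^ (v + c)) (3 ^ v) 0 (by positivity) fun c _ => by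
    rw [pow_add, add_zero]
  have h3 : (0 : ℝ) ≤ 3 ^ v * (3 / 3 ^ s) := by positivity
  linarith

end LAW

open _root_.Pool.Agent.PTN.LAW in
theorem LAW_thm : Stmt_LAW := by
  refine ⟨fun s v F => main s v 0 F, ?_, ?_, ?_, ?_, ?_, pow_le, ?_⟩
  · intro s v F
    have hb : F 0 * (if 0 ≤ v + s + 1 then (1 : ℝ) else 0) +
        ∑ t ∈ Finset.range (v + s + 1), (F (t + 1) - F t) *
          (if t + 1 ≤ v + s + 1 then (1 : ℝ) else 0) = F (v + s + 1) := by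
      rw [if_pos (Nat.zero_le _), mul_one]
      have h1 : ∑ t ∈ Finset.range (v + s + 1), (F (t + 1) - F t) *
          (if t + 1 ≤ v + s + 1 then (1 : ℝ) else 0) = F (v + s + 1) - F 0 := by
        rw [← Finset.sum_range_sub]
        refine Finset.sum_congr rfl fun t ht => ?_
        rw [Finset.mem_range] at ht
        rw [if_pos (by omega), mul_one]
      rw [h1]
      ring
    have ha : F 0 * LI (s - 1) (0 - v) +
        ∑ t ∈ Finset.range (v + s + 1), (F (t + 1) - F t) * LI (s - 1) (t + 1 - v) =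
        Esk (s - 1) (fun c => F (v + c)) := by
      have h1 : v + s + 1 = v + (s - 1 + (s + 1 - (s - 1))) := by omega
      rw [h1]
      exact main (s - 1) v _ F
    rw [← ha, ← hb]
    unfold LS
    have e1 : ∀ t, (F (t + 1) - F t) * ((1 - 1 / 3 ^ s) * LI (s - 1) (t + 1 - v) +
        1 / 3 ^ s * (if t + 1 ≤ v + s + 1 then (1 : ℝ) else 0)) =
        (1 - 1 / 3 ^ s) * ((F (t + 1) - F t) * LI (s - 1) (t + 1 - v)) +
        1 / 3 ^ s * ((F (t + 1) - F t) * (if t + 1 ≤ v + s + 1 then (1 : ℝ) else 0)) := by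
      intro t
      ring
    rw [Finset.sum_congr rfl fun t _ => e1 t, Finset.sum_add_distrib, ← Finset.mul_sum,
      ← Finset.mul_sum]
    ring
  · intro s hs
    rw [← Esk_ind]
    exact AL.Esk_pos hs
  · intro s hs
    rw [← Esk_ind]
    exact AL.Esk_two hs
  · intro s hs
    unfold LS
    rw [if_pos (by omega), mul_one]
    show (1 - 1 / 3 ^ s) * LI (s - 1) 1 + 1 / 3 ^ s ≤ 3 / 8
    obtain ⟨k, rfl⟩ := hs
    have h1 : LI (2 * k + 1 - 1) 1 ≤ 1 / 8 * (4 - 3 / 3 ^ (2 * k + 1 - 1)) + -(1 / 8) := by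
      rw [← Esk_ind]
      refine AL.Esk_le _ (fun c => if 1 ≤ c then 1 else 0) (1 / 8) (-(1 / 8)) (by norm_num)
        fun c hc => ?_
      show (if 1 ≤ c then (1 : ℝ) else 0) ≤ _
      by_cases h0 : c = 0
      · subst h0
        norm_num
      · rw [if_pos (by omega)]
        have h2 : 3 ^ 2 ≤ 3 ^ c := Nat.pow_le_pow_right (by norm_num) (by omega)
        have h4 : (3 ^ 2 : ℝ) ≤ 3 ^ c := by exact_mod_cast h2
        linarith
    have h2 := x_le (2 * k + 1) 1 (by omega)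
    have h3 := x_nonneg (2 * k + 1)
    have h6 : (3 : ℝ) / 3 ^ (2 * k + 1 - 1) = 9 * (1 / 3 ^ (2 * k + 1)) := by
      have : (3 : ℝ) ^ (2 * k) ≠ 0 := by positivity
      rw [Nat.add_sub_cancel, pow_succ]
      field_simp
      norm_num
    rw [h6] at h1
    rw [pow_one] at h2
    generalize (1 : ℝ) / 3 ^ (2 * k + 1) = x at h1 h2 h3 ⊢
    generalize LI (2 * k + 1 - 1) 1 = y at h1 ⊢
    have h4 : (0 : ℝ) ≤ 1 - x := by linarith
    have h5 := mul_le_mul_of_nonneg_left h1 h4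
    nlinarith [mul_nonneg h3 (by linarith : (0 : ℝ) ≤ 1 / 3 - x)]
  · intro s hs
    unfold LS
    show (1 - 1 / 3 ^ s) * LI (s - 1) 2 + 1 / 3 ^ s * (if 2 ≤ 0 + s + 1 then (1 : ℝ) else 0) ≤
      1 / 9
    obtain ⟨k, rfl⟩ := hs
    rcases Nat.lt_or_ge k 2 with hk | hk
    · interval_cases k
      · norm_num
      · rw [LI_big (by norm_num), if_pos (by norm_num)]
        norm_num
    · rw [if_pos (by omega), mul_one]
      have h1 : LI (k + k - 1) 2 ≤ 1 / 24 := by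
        rw [← Esk_ind]
        exact AL.Esk_two ⟨k - 1, by omega⟩
      have h2 := x_le (k + k) 4 (by omega)
      have h3 := x_nonneg (k + k)
      have h6 : (1 : ℝ) / 3 ^ 4 = 1 / 81 := by norm_num
      rw [h6] at h2
      have h4 : (0 : ℝ) ≤ 1 - 1 / 3 ^ (k + k) := by linarith
      have h5 := mul_le_mul_of_nonneg_left h1 h4
      linarith
  · intro s v
    have h1 := pow_le (s - 1) v
    have h3 := x_nonneg s
    have h2 := x_le s 0 (Nat.zero_le _)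
    rw [pow_zero, div_one] at h2
    have h4 : (0 : ℝ) ≤ 1 - 1 / 3 ^ s := by linarith
    have h5 := mul_le_mul_of_nonneg_left h1 h4
    have h6 : 1 / 3 ^ s * (3 : ℝ) ^ (v + s + 1) = 3 * 3 ^ v := by
      have : (3 : ℝ) ^ s ≠ 0 := by positivity
      rw [pow_add, pow_add]
      field_simp
    have h7 : (0 : ℝ) ≤ 1 / 3 ^ s * (4 * 3 ^ v) := by positivity
    rw [h6]
    linarith

end Pool.Agent.PTN


end

section

/-!
# CBE: lower bounds in a class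
-/

set_option autoImplicit false

open NumberField IsDedekindDomain Finset
open scoped nonZeroDivisors Pointwise

namespace Pool.Agent.PTN

open Pool.Agent.Lib_helper18 Pool.Agent.Lib_helper18.Eis Pool.Agent.Lib_helper84.Cub
open Pool.Agent.PT Pool.Agent.PTE Pool.Agent.PT3 Pool.Agent.PTL

namespace CBE

open BDENS

theorem low (S W G : ℕ → Set ℕ) (P D : ℝ) (M : ℕ)
    (hG : ∀ E q : ℕ, (E = 1 ∨ E = 2) → q.Prime → M < q → q ∈ S E → q ∉ W E → q ∈ G E)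
    (hD : ∃ K : ℝ, ∀ σ : ℝ, 1 < σ → σ ≤ 2 →
      D * Real.log (1 / (σ - 1)) - K ≤ sm (S 1) σ + sm (S 2) σ)
    (hP : ∃ K : ℝ, ∀ σ : ℝ, 1 < σ → σ ≤ 2 →
      sm (W 1) σ + sm (W 2) σ ≤ P * Real.log (1 / (σ - 1)) + K) :
    ∃ K : ℝ, ∀ σ : ℝ, 1 < σ → σ ≤ 2 → ∃ T : Finset ℕ,
      (D - P) * Real.log (1 / (σ - 1)) - K ≤
        ∑ E ∈ ({1, 2} : Finset ℕ), ∑ q ∈ T, ind (G E) σ q := by
  obtain ⟨K0, hK0⟩ := hD
  obtain ⟨K, hK⟩ := hP
  refine ⟨K + K0 + 2 * (2 * ((Finset.range (M + 1)).card : ℝ)) + 2, fun σ h1 hσ2 => ?_⟩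
  have e1 := hK σ h1 hσ2
  have e2 := hK0 σ h1 hσ2
  have e3 : ∀ E : ℕ, (E = 1 ∨ E = 2) → sm (S E) σ ≤
      sm (W E) σ + sm (G E) σ + 2 * ((Finset.range (M + 1)).card : ℝ) := by
    intro E hE
    have i1 := CL.sm_le_add (S E) (W E ∪ G E) M (fun q hq hqM hqW => by
      by_cases h : q ∈ W E
      · exact Or.inl h
      · exact Or.inr (hG E q hE hq hqM hqW h)) h1
    have i2 := BD.sm_union_inter (W E) (G E) h1
    have i3 := DL.sm_nonneg (W E ∩ G E) σ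
    linarith
  obtain ⟨T1, hT1⟩ := DOM.approx (G 1) h1
  obtain ⟨T2, hT2⟩ := DOM.approx (G 2) h1
  refine ⟨T1 ∪ T2, ?_⟩
  rw [Finset.sum_pair (by norm_num : (1 : ℕ) ≠ 2)]
  have j1 : ∑ q ∈ T1, ind (G 1) σ q ≤ ∑ q ∈ T1 ∪ T2, ind (G 1) σ q :=
    Finset.sum_le_sum_of_subset_of_nonneg Finset.subset_union_left fun q _ _ =>
      ind_nonneg _ _ _
  have j2 : ∑ q ∈ T2, ind (G 2) σ q ≤ ∑ q ∈ T1 ∪ T2, ind (G 2) σ q :=
    Finset.sum_le_sum_of_subset_of_nonneg Finset.subset_union_right fun q _ _ =>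
      ind_nonneg _ _ _
  have e4 := e3 1 (Or.inl rfl)
  have e5 := e3 2 (Or.inr rfl)
  have e6 : (D - P) * Real.log (1 / (σ - 1)) =
      D * Real.log (1 / (σ - 1)) - P * Real.log (1 / (σ - 1)) := by ring
  rw [e6]
  linarith

theorem n_ne {n m k : ℕ} {π : Fin m → PP} {p e : Fin m → ℕ} {r f : Fin k → ℕ}
    (hN : NF n π p e r f) : n ≠ 0 := by
  rw [hN.eq]
  refine mul_ne_zero ?_ ?_
  · exact Finset.prod_ne_zero_iff.2 fun i _ => pow_ne_zero _ (hN.pp i).ne_zero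
  · exact Finset.prod_ne_zero_iff.2 fun i _ => pow_ne_zero _ (hN.rp i).ne_zero

/-- for large primes the two forms of the class agree -/
theorem kl_of (hSPP : SPP) {n m k : ℕ} {π : Fin m → PP} {p e : Fin m → ℕ} {r f : Fin k → ℕ}
    (hN : NF n π p e r f) {w0 : ZMod 3} {c : Fin m → ZMod 3} {E q : ℕ} (hq : q.Prime)
    (hqp : ∀ i, p i < q) (h : InCT E π w0 c q) : Kl π w0 c ((q : ℤ) ^ E) := by
  refine ⟨h.1, fun i => ?_⟩
  have hn := CLSC.norm_of _ _ (hN.pπ i)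
  have : Fact (p i).Prime := ⟨hN.pp i⟩
  have hd : ¬ (π i).1 ∣ (q : Eis) := by
    rw [dvd_natCast_iff hn]
    intro h1
    have h2 := (Nat.prime_dvd_prime_iff_eq (hN.pp i) hq).1 h1
    have h3 := hqp i
    omega
  have h1 : (((q : ℤ) ^ E : ℤ) : Eis) = (q : Eis) ^ E := by
    push_cast
    rfl
  rw [h1, sym_pow (π i).2.1 (hSPP.2.2.2.1 (π i)).1 hd]
  exact h.2 i

theorem below (hSPP : SPP) {h n m k : ℕ} {π : Fin m → PP} {p e : Fin m → ℕ}
    {r f : Fin k → ℕ} {w0 : ZMod 3} {c : Fin m → ZMod 3} (hN : NF n π p e r f) (a t : ℕ)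
    (R : ℤ → Prop)
    (hR : ∀ A : ℤ, A ≠ 0 → CubeRank.GenBy A (CubeRank.rr A) → CubeRank.rr A < t → R A)
    (hgen : ∃ M : ℕ, ∀ E q : ℕ, (E = 1 ∨ E = 2) → q.Prime → M < q → q % 3 = a →
      InCT E π w0 c q → ∃ d, CubeRank.GenBy (BB h n E q) d)
    (D P : ℝ)
    (hD : ∃ K : ℝ, ∀ σ : ℝ, 1 < σ → σ ≤ 2 →
      D * Real.log (1 / (σ - 1)) - K ≤ sm {q : ℕ | q % 3 = a ∧ InCT 1 π w0 c q} σ +
        sm {q : ℕ | q % 3 = a ∧ InCT 2 π w0 c q} σ)
    (hP : ∃ K : ℝ, ∀ σ : ℝ, 1 < σ → σ ≤ 2 →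
      sm (WR h n π w0 c a 1 t) σ + sm (WR h n π w0 c a 2 t) σ ≤
        P * Real.log (1 / (σ - 1)) + K) :
    BelowA ((3 ^ h * n : ℕ) : ℤ) a (Kl π w0 c) (fun A => tf (R A)) (D - P) := by
  classical
  obtain ⟨M, hM⟩ := hgen
  have hBB : ∀ E q : ℕ, ((3 ^ h * n : ℕ) : ℤ) * (q : ℤ) ^ E = BB h n E q := by
    intro E q
    unfold BB
    push_cast
    rfl
  obtain ⟨K, hK⟩ := low (fun E => {q : ℕ | q % 3 = a ∧ InCT E π w0 c q})
    (fun E => WR h n π w0 c a E t)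
    (fun E => {q : ℕ | q % 3 = a ∧ Kl π w0 c ((q : ℤ) ^ E) ∧
      R (((3 ^ h * n : ℕ) : ℤ) * (q : ℤ) ^ E)}) P D (M + ∑ i, p i)
    (fun E q hE hq hqM hqS hqW => by
      have hp : ∀ i, p i < q := by
        intro i
        have := Finset.single_le_sum (f := p) (fun j _ => Nat.zero_le _) (Finset.mem_univ i)
        omega
      refine ⟨hqS.1, kl_of hSPP hN hq hp hqS.2, ?_⟩
      rw [hBB]
      obtain ⟨d, hd⟩ := hM E q hE hq (by omega) hqS.1 hqS.2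
      refine hR _ ?_ (CubeRank.gen_rr hd) ?_
      · unfold BB
        refine mul_ne_zero (mul_ne_zero (pow_ne_zero _ (by norm_num)) ?_) (pow_ne_zero _ ?_)
        · exact_mod_cast n_ne hN
        · exact_mod_cast hq.ne_zero
      · by_contra hlt
        exact hqW ⟨hqS.1, hqS.2, not_lt.1 hlt⟩) hD hP
  refine ⟨K, fun σ h1 h2 => ?_⟩
  obtain ⟨T, hT⟩ := hK σ h1 h2
  refine ⟨T, hT.trans (le_of_eq ?_)⟩
  unfold SumA
  refine Finset.sum_congr rfl fun E _ => Finset.sum_congr rfl fun q _ => ?_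
  show ind {q : ℕ | q % 3 = a ∧ Kl π w0 c ((q : ℤ) ^ E) ∧
    R (((3 ^ h * n : ℕ) : ℤ) * (q : ℤ) ^ E)} σ q = _
  unfold tf
  beta_reduce
  by_cases hq : q.Prime ∧ q % 3 = a ∧ Kl π w0 c ((q : ℤ) ^ E)
  · rw [if_pos hq]
    by_cases hRq : R (((3 ^ h * n : ℕ) : ℤ) * (q : ℤ) ^ E)
    · rw [ind_mem (S := {q : ℕ | q % 3 = a ∧ Kl π w0 c ((q : ℤ) ^ E) ∧
        R (((3 ^ h * n : ℕ) : ℤ) * (q : ℤ) ^ E)}) hq.1 ⟨hq.2.1, hq.2.2, hRq⟩, if_pos hRq,
        one_mul]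
    · rw [ind_not fun h => hRq h.2.2.2, if_neg hRq, zero_mul]
  · rw [if_neg hq, ind_not fun h => hq ⟨h.1, h.2.1, h.2.2.1⟩]

end CBE

theorem CBE_thm (hCLN : Stmt_CLN) (hCLU : Stmt_CLU) (hCLT : Stmt_CLT) (hSPP : SPP) :
    Stmt_CBE := by
  intro h n m k π p e r f w0 c hN hh t R hR
  constructor
  · obtain ⟨⟨M, hM⟩, hT⟩ := hCLN h n m k π p e r f w0 c hN hh
    obtain ⟨K, hK⟩ := hCLT m π p hN.pp hN.p1 hN.pπ hN.pinj w0 c 2 (Or.inr rfl)
    have := CBE.below hSPP hN 2 t R hR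
      ⟨M, fun E q hE hq hqM hq3 hqc => ⟨_, hM E q hE hq hqM hq3 hqc⟩⟩ (1 / 3 ^ (m + 1))
      (LI (sN h n π p e r w0 c) (t - vN h n π p e r w0 c) / 3 ^ (m + 1))
      ⟨K, fun σ h1 h2 => (hK σ h1 h2).1⟩ (hT t)
    rwa [← sub_div] at this
  · obtain ⟨⟨M, hM⟩, hT⟩ := hCLU h n m k π p e r f w0 c hN hh
    obtain ⟨K, hK⟩ := hCLT m π p hN.pp hN.p1 hN.pπ hN.pinj w0 c 1 (Or.inl rfl)
    have := CBE.below hSPP hN 1 t R hR
      ⟨M, fun E q hE hq hqM hq3 hqc => ⟨_, hM E q hE hq hqM hq3 hqc⟩⟩ (1 / 3 ^ (m + 1))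
      (LS (sN h n π p e r w0 c) (vN h n π p e r w0 c) t / 3 ^ (m + 1))
      ⟨K, fun σ h1 h2 => (hK σ h1 h2).1⟩ (hT t)
    rwa [← sub_div] at this

end Pool.Agent.PTN


end

section

/-!
# TRU: the units modulo `9 N` and the classes
-/

set_option autoImplicit false

open NumberField IsDedekindDomain Finset
open scoped nonZeroDivisors Pointwise

namespace Pool.Agent.PTN

open Pool.Agent.Lib_helper18 Pool.Agent.Lib_helper18.Eis Pool.Agent.Lib_helper84.Cub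
open Pool.Agent.PT Pool.Agent.PTE Pool.Agent.PT3 Pool.Agent.PTL

namespace TRU

theorem f_pos {n m k : ℕ} {π : Fin m → PP} {p e : Fin m → ℕ} {r f : Fin k → ℕ}
    (hNF : NF n π p e r f) : 0 < n := by
  rw [hNF.eq]
  exact Nat.mul_pos (Finset.prod_pos fun i _ => pow_pos (hNF.pp i).pos _)
    (Finset.prod_pos fun j _ => pow_pos (hNF.rp j).pos _)

/-- the class of a unit is the value of `κ` -/
theorem kl_iff {f m : ℕ} [NeZero f] (π : Fin m → PP)
    (κ : (ZMod f)ˣ →* Multiplicative (Fin (m + 1) → ZMod 3))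
    (hκ : ∀ (Q : ℕ) (hQ : Q.Coprime f), (κ (ZMod.unitOfCoprime Q hQ)).toAdd =
      Fin.cons (wt ((Q : ℤ) ^ 2)) (fun i => sym (π i).1 (Q : Eis)))
    (u : (ZMod f)ˣ) (w0 : ZMod 3) (c : Fin m → ZMod 3) :
    Kl π w0 c (((u : ZMod f).val : ℕ) : ℤ) ↔
      (κ u).toAdd = (Fin.cons w0 c : Fin (m + 1) → ZMod 3) := by
  have hu : ZMod.unitOfCoprime (u : ZMod f).val (ZMod.val_coe_unit_coprime u) = u := by
    ext
    rw [ZMod.coe_unitOfCoprime, ZMod.natCast_zmod_val]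
  have h1 := hκ (u : ZMod f).val (ZMod.val_coe_unit_coprime u)
  rw [hu] at h1
  rw [h1]
  unfold Kl
  constructor
  · rintro ⟨a, b⟩
    rw [← a]
    congr 1
    funext i
    rw [← b i]
    push_cast
    rfl
  · intro H
    have h2 := congrFun H 0
    rw [Fin.cons_zero, Fin.cons_zero] at h2
    refine ⟨h2, fun i => ?_⟩
    have h3 := congrFun H i.succ
    rw [Fin.cons_succ, Fin.cons_succ] at h3
    rw [← h3]
    push_cast
    rfl

/-- every unit is `1` or `2` modulo `3` -/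
theorem val_mod {f : ℕ} [NeZero f] (h3 : 3 ∣ f) (u : (ZMod f)ˣ) :
    (u : ZMod f).val % 3 = 1 ∨ (u : ZMod f).val % 3 = 2 := by
  have h1 := ZMod.val_coe_unit_coprime u
  have h2 : ¬ 3 ∣ (u : ZMod f).val := by
    intro h
    have := Nat.Coprime.eq_one_of_dvd (h1.coprime_dvd_left h) h3
    omega
  omega

theorem card_split {f : ℕ} [NeZero f] (h3 : 3 ∣ f) (P : (ZMod f)ˣ → Prop) :
    Nat.card {a : (ZMod f)ˣ // P a} =
      Nat.card {a : (ZMod f)ˣ // M2 a ∧ P a} + Nat.card {a : (ZMod f)ˣ // M1 a ∧ P a} := by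
  classical
  rw [Nat.card_eq_fintype_card, Nat.card_eq_fintype_card, Nat.card_eq_fintype_card,
    Fintype.card_subtype, Fintype.card_subtype, Fintype.card_subtype, ← Finset.card_union_of_disjoint]
  · congr 1
    ext a
    simp only [Finset.mem_filter, Finset.mem_univ, true_and, Finset.mem_union]
    constructor
    · intro h
      rcases val_mod h3 a with h' | h'
      · exact Or.inr ⟨h', h⟩
      · exact Or.inl ⟨h', h⟩
    · rintro (h | h)
      · exact h.2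
      · exact h.2
  · rw [Finset.disjoint_left]
    intro a ha hb
    simp only [Finset.mem_filter, Finset.mem_univ, true_and] at ha hb
    have h1 : (a : ZMod f).val % 3 = 2 := ha.1
    have h2 : (a : ZMod f).val % 3 = 1 := hb.1
    omega

end TRU

open _root_.Pool.Agent.PTN.TRU in
theorem TRU_thm (hCLSC : CLSC) (hCLSCS : CLSCS) (hSPP : SPP) : Stmt_TRU := by
  intro h n m k π p e r f hNF
  have hn : 0 < n := f_pos hNF
  have hF0 : 0 < 9 * (3 ^ h * n) := by positivity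
  have : NeZero (9 * (3 ^ h * n)) := ⟨hF0.ne'⟩
  have h9 : 9 ∣ 9 * (3 ^ h * n) := ⟨_, rfl⟩
  have h3 : 3 ∣ 9 * (3 ^ h * n) := (by norm_num : 3 ∣ 9).trans h9
  have hpn : ∀ i, p i ∣ n := by
    intro i
    rw [hNF.eq]
    refine Dvd.dvd.mul_right ?_ _
    refine (dvd_pow_self _ ?_).trans (Finset.dvd_prod_of_mem _ (Finset.mem_univ i))
    rcases hNF.pe i with hh | hh <;> omega
  have hpf : ∀ i, p i ∣ 9 * (3 ^ h * n) := fun i =>
    ((hpn i).mul_left _).mul_left _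
  constructor
  · intro w0 c
    obtain ⟨κ, hκ, hc2⟩ := hCLSC m π p hNF.pp hNF.p1 hNF.pπ hNF.pinj _ hF0 h9 hpf
    have hc1 := hCLSCS _ m κ hF0 h9 hc2
    have e1 : Nat.card {u : (ZMod (9 * (3 ^ h * n)))ˣ //
        Kl π w0 c (((u : ZMod (9 * (3 ^ h * n))).val : ℕ) : ℤ)} =
        Nat.card {u : (ZMod (9 * (3 ^ h * n)))ˣ //
          (κ u).toAdd = (Fin.cons w0 c : Fin (m + 1) → ZMod 3)} :=
      Nat.card_congr (Equiv.subtypeEquivRight fun u => kl_iff π κ hκ u w0 c)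
    rw [e1, card_split h3]
    have a1 := hc1 (Fin.cons w0 c)
    have a2 := hc2 (Fin.cons w0 c)
    set A := Nat.card {a : (ZMod (9 * (3 ^ h * n)))ˣ //
      M1 a ∧ (κ a).toAdd = (Fin.cons w0 c : Fin (m + 1) → ZMod 3)}
    set B := Nat.card {a : (ZMod (9 * (3 ^ h * n)))ˣ //
      M2 a ∧ (κ a).toAdd = (Fin.cons w0 c : Fin (m + 1) → ZMod 3)}
    have : (B + A) * 3 ^ (m + 1) * 2 = (9 * (3 ^ h * n)).totient * 2 := by
      calc (B + A) * 3 ^ (m + 1) * 2 = B * (2 * 3 ^ (m + 1)) + A * (2 * 3 ^ (m + 1)) := by ring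
        _ = _ := by rw [a1, a2]; ring
    omega
  · intro u w0 c y x hu hy hd
    set U : ℤ := (((u : ZMod (9 * (3 ^ h * n))).val : ℕ) : ℤ) with hU
    have hUc : IsCoprime U ((9 * (3 ^ h * n) : ℕ) : ℤ) :=
      Nat.isCoprime_iff_coprime.2 (ZMod.val_coe_unit_coprime u)
    -- `U x ^ 3` is prime to `9 N`
    have hUx : IsCoprime (U * x ^ 3) ((9 * (3 ^ h * n) : ℕ) : ℤ) := by
      obtain ⟨t, ht⟩ := hd
      have : U * x ^ 3 = y + ((9 * (3 ^ h * n) : ℕ) : ℤ) * (-t) := by linarith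
      rw [this]
      exact (IsCoprime.add_mul_left_left_iff).2 hy
    have hxc : IsCoprime x ((9 * (3 ^ h * n) : ℕ) : ℤ) := by
      have := IsCoprime.of_mul_left_right hUx
      exact (IsCoprime.pow_left_iff (by norm_num)).1 this
    have h9d : (9 : ℤ) ∣ ((9 * (3 ^ h * n) : ℕ) : ℤ) := by exact_mod_cast h9
    have h3d : (3 : ℤ) ∣ ((9 * (3 ^ h * n) : ℕ) : ℤ) := by exact_mod_cast h3
    have n3 : ∀ z : ℤ, IsCoprime z ((9 * (3 ^ h * n) : ℕ) : ℤ) → ¬ (3 : ℤ) ∣ z := by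
      intro z hz h3z
      have := (IsCoprime.of_isCoprime_of_dvd_left hz h3z).isUnit_of_dvd' (dvd_refl _) h3d
      exact absurd this (by decide)
    have np : ∀ (i : Fin m) (z : ℤ), IsCoprime z ((9 * (3 ^ h * n) : ℕ) : ℤ) →
        ¬ (p i : ℤ) ∣ z := by
      intro i z hz hpz
      have h1 : (p i : ℤ) ∣ ((9 * (3 ^ h * n) : ℕ) : ℤ) := by exact_mod_cast hpf i
      have := (IsCoprime.of_isCoprime_of_dvd_left hz hpz).isUnit_of_dvd' (dvd_refl _) h1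
      exact (Nat.prime_iff_prime_int.1 (hNF.pp i)).not_isUnit this
    obtain ⟨hw, hs⟩ := hu
    constructor
    · rw [← hw]
      have e1 : wt (y ^ 2) = wt ((U * x ^ 3) ^ 2) := by
        apply CLSC.wt_congr
        have : y ^ 2 - (U * x ^ 3) ^ 2 = (y - U * x ^ 3) * (y + U * x ^ 3) := by ring
        rw [this]
        exact Dvd.dvd.mul_right (h9d.trans hd) _
      have e2 : (U * x ^ 3) ^ 2 = U ^ 2 * (x ^ 2 * (x ^ 2 * x ^ 2)) := by ring
      have hx2 := sq_mod_three (n3 x hxc)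
      have hU2 := sq_mod_three (n3 U hUc)
      have m1 : ∀ a b : ℤ, a % 3 = 1 → b % 3 = 1 → (a * b) % 3 = 1 := by
        intro a b ha hb
        rw [Int.mul_emod, ha, hb]
        rfl
      rw [e1, e2, wt_mul hU2 (m1 _ _ hx2 (m1 _ _ hx2 hx2)), wt_mul hx2 (m1 _ _ hx2 hx2),
        wt_mul hx2 hx2]
      generalize wt (U ^ 2) = a
      generalize wt (x ^ 2) = b
      revert a b
      decide
    · intro i
      rw [← hs i]
      have : Fact (p i).Prime := ⟨hNF.pp i⟩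
      have hnm := CLSC.norm_of _ _ (hNF.pπ i)
      have hπ3 := (hSPP.2.2.2.1 (π i)).1
      have hU' : ¬ (π i).1 ∣ (U : Eis) := by
        rw [dvd_intCast_iff hnm]
        exact np i U hUc
      have hx' : ¬ (π i).1 ∣ (x : Eis) := by
        rw [dvd_intCast_iff hnm]
        exact np i x hxc
      have e1 : sym (π i).1 (y : Eis) = sym (π i).1 ((U : Eis) * (x : Eis) ^ 3) := by
        apply sym_congr
        have h1 : (p i : ℤ) ∣ y - U * x ^ 3 := by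
          have h2 : (p i : ℤ) ∣ ((9 * (3 ^ h * n) : ℕ) : ℤ) := by exact_mod_cast hpf i
          exact h2.trans hd
        obtain ⟨t, ht⟩ := h1
        have e : (y : Eis) - (U : Eis) * (x : Eis) ^ 3 = (p i : Eis) * (t : Eis) := by
          have : ((y - U * x ^ 3 : ℤ) : Eis) = (((p i : ℤ) * t : ℤ) : Eis) := by rw [ht]
          push_cast at this
          exact this
        rw [e, hNF.pπ i]
        exact ⟨conj (π i).1 * t, by ring⟩
      have hx3 : ¬ (π i).1 ∣ (x : Eis) ^ 3 := fun hh => hx' ((π i).2.1.dvd_of_dvd_pow hh)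
      rw [e1, sym_mul (π i).2.1 hπ3 hU' hx3, sym_pow (π i).2.1 hπ3 hx']
      generalize sym (π i).1 (U : Eis) = a
      generalize sym (π i).1 (x : Eis) = b
      revert a b
      decide

end Pool.Agent.PTN


end

section

/-!
# The law of the ranks of prime twists for every `n`: averages over all `A` (module ALLA)
-/

set_option autoImplicit false

open NumberField IsDedekindDomain Finset
open scoped nonZeroDivisors Pointwise

namespace Pool.Agent.PTN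

open Pool.Agent.Lib_helper18 Pool.Agent.Lib_helper18.Eis Pool.Agent.Lib_helper84.Cub
open Pool.Agent.PT Pool.Agent.PTE Pool.Agent.PT3 Pool.Agent.PTL

namespace ALLA

theorem tf_nn (P : Prop) : 0 ≤ tf P := by
  unfold tf
  split_ifs
  · exact zero_le_one
  · exact le_refl _

/-- the lower bound `0` -/
theorem below_zero (n : ℤ) (a : ℕ) (W : ℤ → Prop) (F : ℤ → ℝ) : BelowA n a W F 0 := by
  refine ⟨0, fun σ _ _ => ⟨∅, ?_⟩⟩
  rw [zero_mul, sub_zero]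
  unfold SumA
  refine Finset.sum_nonneg fun e _ => ?_
  rw [Finset.sum_empty]

/-- sum of the lower bounds over the classes with a property -/
theorem low (hSUMA : Stmt_SUMA) (n : ℤ) (a m : ℕ) (π : Fin m → PP) (F : ℤ → ℝ)
    (hF : ∀ A, 0 ≤ F A) (P : ZMod 3 × (Fin m → ZMod 3) → Prop) (d : ℝ) (hd : 0 ≤ d)
    (h : ∀ y, P y → BelowA n a (Kl π y.1 y.2) F (d / 3 ^ (m + 1)))
    (hcard : 2 ^ (m + 1) ≤ Nat.card {x : ZMod 3 × (Fin m → ZMod 3) // P x}) :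
    BelowA n a (fun _ => True) F (d * (2 / 3) ^ (m + 1)) := by
  classical
  obtain ⟨-, h2, -, h4⟩ := hSUMA n a m π F
  have h5 := h2 (fun y => if P y then d / 3 ^ (m + 1) else 0) hF (fun y => by
    by_cases hy : P y
    · simp only [if_pos hy]
      exact h y hy
    · simp only [if_neg hy]
      exact below_zero _ _ _ _)
  refine h4 _ _ _ ?_ h5
  have h6 : ∑ y : ZMod 3 × (Fin m → ZMod 3), (if P y then d / 3 ^ (m + 1) else 0) =
      (Nat.card {x : ZMod 3 × (Fin m → ZMod 3) // P x} : ℝ) * (d / 3 ^ (m + 1)) := by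
    rw [← Finset.sum_filter, Finset.sum_const, nsmul_eq_mul, Nat.card_eq_fintype_card,
      Fintype.card_subtype]
  rw [h6]
  have h7 : ((2 : ℝ) ^ (m + 1)) ≤ Nat.card {x : ZMod 3 × (Fin m → ZMod 3) // P x} := by
    exact_mod_cast hcard
  calc d * (2 / 3) ^ (m + 1) = (2 : ℝ) ^ (m + 1) * (d / 3 ^ (m + 1)) := by
        rw [div_pow]
        ring
    _ ≤ _ := mul_le_mul_of_nonneg_right h7 (by positivity)

/-- sum of the upper bounds over the classes -/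
theorem up (hSUMA : Stmt_SUMA) (n : ℤ) (a m : ℕ) (π : Fin m → PP) (F : ℤ → ℝ)
    (V : ZMod 3 × (Fin m → ZMod 3) → ℕ) (x : ZMod 3 × (Fin m → ZMod 3) → ℝ) (d : ℝ) (hd : 0 ≤ d)
    (h : ∀ y, AboveA n a (Kl π y.1 y.2) F (x y / 3 ^ (m + 1))) (hx : ∀ y, x y ≤ d * 3 ^ V y)
    (hs : ∑ y : ZMod 3 × (Fin m → ZMod 3), 3 ^ V y ≤ 5 ^ (m + 1)) :
    AboveA n a (fun _ => True) F (d * (5 / 3) ^ (m + 1)) := by
  obtain ⟨h1, -, h3, -⟩ := hSUMA n a m π F
  refine h3 _ _ _ ?_ (h1 _ h)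
  have h6 : ∑ y : ZMod 3 × (Fin m → ZMod 3), (3 : ℝ) ^ V y ≤ 5 ^ (m + 1) := by exact_mod_cast hs
  have h3' : (0 : ℝ) < 3 ^ (m + 1) := by positivity
  calc ∑ y : ZMod 3 × (Fin m → ZMod 3), x y / 3 ^ (m + 1) ≤
        ∑ y : ZMod 3 × (Fin m → ZMod 3), d * 3 ^ V y / 3 ^ (m + 1) :=
        Finset.sum_le_sum fun y _ => div_le_div_of_nonneg_right (hx y) h3'.le
    _ = d * (∑ y : ZMod 3 × (Fin m → ZMod 3), (3 : ℝ) ^ V y) / 3 ^ (m + 1) := by
        rw [Finset.mul_sum, Finset.sum_div]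
    _ ≤ d * 5 ^ (m + 1) / 3 ^ (m + 1) :=
        div_le_div_of_nonneg_right (mul_le_mul_of_nonneg_left h6 hd) h3'.le
    _ = d * (5 / 3) ^ (m + 1) := by
        rw [div_pow]
        ring

end ALLA

theorem ALLA_thm (hCAB : Stmt_CAB) (hCBE : Stmt_CBE) (hLAW : Stmt_LAW) (hSUMA : Stmt_SUMA)
    (hNDIM : Stmt_NDIM) (hNSUM : Stmt_NSUM) (hNZER : Stmt_NZER) : Stmt_ALLA := by
  classical
  intro h n m k π p e r f hN hh
  obtain ⟨-, -, hL3, hL4, hL5, hL6, hL7, hL8⟩ := hLAW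
  have hmono : Monotone fun j : ℕ => (3 : ℝ) ^ j := fun i j hij =>
    pow_le_pow_right₀ (by norm_num) hij
  have hz : (0 : ℝ) ≤ (fun j : ℕ => (3 : ℝ) ^ j) 0 := by norm_num
  have hC := fun y : ZMod 3 × (Fin m → ZMod 3) =>
    hCAB h n m k π p e r f y.1 y.2 hN hh (fun j : ℕ => (3 : ℝ) ^ j) hmono hz
  have hB := fun y : ZMod 3 × (Fin m → ZMod 3) => hCBE h n m k π p e r f y.1 y.2 hN hh
  have hS := hNSUM h n m k π p e r f hN
  have hZ := hNZER h n m k π p e r f hN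
  -- the classes with `v = 0`
  have hdim : ∀ y : ZMod 3 × (Fin m → ZMod 3), (vN h n π p e r y.1 y.2 = 0 ∧
      ¬ (h = 0 ∧ wt ((n : ℤ) ^ 2) + y.1 = 0)) →
      vN h n π p e r y.1 y.2 = 0 ∧
        sN h n π p e r y.1 y.2 = k + if h = 1 then 1 else 0 := by
    rintro y ⟨h1, h2⟩
    have h3 := hNDIM h n m k π p e r y.1 y.2
    refine ⟨h1, ?_⟩
    rw [h1] at h3
    have hact : actR h n y.1 ↔ h = 2 := by
      unfold actR
      constructor
      · rintro (h4 | h4)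
        · exact h4
        · exact absurd h4 h2
      · exact fun h4 => Or.inl h4
    simp only [hact] at h3
    have hcase : h = 0 ∨ h = 1 ∨ h = 2 := by omega
    rcases hcase with rfl | rfl | rfl
    · simp at h3 ⊢
      omega
    · simp at h3 ⊢
      omega
    · simp at h3 ⊢
      omega
  have hsol : ∀ A : ℤ, A ≠ 0 → CubeRank.GenBy A (CubeRank.rr A) → CubeRank.rr A < 1 →
      ¬ ∃ X Y : ℚ, X ^ 3 + Y ^ 3 = (A : ℚ) := by
    intro A hA h1 h2
    have h3 : CubeRank.rr A = 0 := by omega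
    rw [h3] at h1
    exact DOM.no_sol hA h1
  have hone : ∀ A : ℤ, A ≠ 0 → CubeRank.GenBy A (CubeRank.rr A) → CubeRank.rr A < 2 →
      CubeRank.rr A ≤ 1 := by
    intro A _ _ h2
    omega
  -- the two kinds of lower bounds
  have key2 : ∀ (t : ℕ) (R : ℤ → Prop),
      (∀ A : ℤ, A ≠ 0 → CubeRank.GenBy A (CubeRank.rr A) → CubeRank.rr A < t → R A) →
      ∀ d : ℝ, 0 ≤ d → d ≤ 1 - LI (k + if h = 1 then 1 else 0) t →
      BelowA ((3 ^ h * n : ℕ) : ℤ) 2 (fun _ => True) (fun A => tf (R A))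
        (d * (2 / 3) ^ (m + 1)) := by
    intro t R hR d hd hdl
    refine ALLA.low hSUMA _ 2 m π _ (fun A => ALLA.tf_nn _) _ d hd (fun y hy => ?_) hZ
    obtain ⟨h1, h2⟩ := hdim y hy
    have h3 := (hB y t R hR).1
    rw [h1, h2, Nat.sub_zero] at h3
    exact (hSUMA _ 2 m π _).2.2.2 _ _ _ (div_le_div_of_nonneg_right hdl (by positivity)) h3
  have key1 : ∀ (t : ℕ) (R : ℤ → Prop),
      (∀ A : ℤ, A ≠ 0 → CubeRank.GenBy A (CubeRank.rr A) → CubeRank.rr A < t → R A) →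
      ∀ d : ℝ, 0 ≤ d → d ≤ 1 - LS (k + if h = 1 then 1 else 0) 0 t →
      BelowA ((3 ^ h * n : ℕ) : ℤ) 1 (fun _ => True) (fun A => tf (R A))
        (d * (2 / 3) ^ (m + 1)) := by
    intro t R hR d hd hdl
    refine ALLA.low hSUMA _ 1 m π _ (fun A => ALLA.tf_nn _) _ d hd (fun y hy => ?_) hZ
    obtain ⟨h1, h2⟩ := hdim y hy
    have h3 := (hB y t R hR).2
    rw [h1, h2] at h3
    exact (hSUMA _ 1 m π _).2.2.2 _ _ _ (div_le_div_of_nonneg_right hdl (by positivity)) h3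
  refine ⟨?_, ?_, fun hk => ⟨?_, ?_⟩, fun hk => ⟨?_, ?_⟩⟩
  · exact ALLA.up hSUMA _ 2 m π _ (fun y => vN h n π p e r y.1 y.2) _ 4 (by norm_num)
      (fun y => (hC y).1) (fun y => hL7 _ _) hS
  · exact ALLA.up hSUMA _ 1 m π _ (fun y => vN h n π p e r y.1 y.2) _ 7 (by norm_num)
      (fun y => (hC y).2) (fun y => hL8 _ _) hS
  · refine key2 1 _ hsol _ (by norm_num) ?_
    have := hL3 _ hk
    linarith
  · refine key1 2 _ hone _ (by norm_num) ?_
    have := hL6 _ hk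
    linarith
  · refine key2 2 _ hone _ (by norm_num) ?_
    have := hL4 _ hk
    linarith
  · refine key1 1 _ hsol _ (by norm_num) ?_
    have := hL5 _ hk
    linarith

end Pool.Agent.PTN


end

section

/-!
# The law of the ranks of prime twists for every `n`: averages over all `A`, sharper (module ALLQ)
-/

set_option autoImplicit false

open NumberField IsDedekindDomain Finset
open scoped nonZeroDivisors Pointwise

namespace Pool.Agent.PTN

open Pool.Agent.Lib_helper18 Pool.Agent.Lib_helper18.Eis Pool.Agent.Lib_helper84.Cub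
open Pool.Agent.PT Pool.Agent.PTE Pool.Agent.PT3 Pool.Agent.PTL

namespace ALLQ

/-- sum of the lower bounds over the classes with a property, `3 * 2 ^ m` classes -/
theorem low (hSUMA : Stmt_SUMA) (n : ℤ) (a m : ℕ) (π : Fin m → PP) (F : ℤ → ℝ)
    (hF : ∀ A, 0 ≤ F A) (P : ZMod 3 × (Fin m → ZMod 3) → Prop) (d : ℝ) (hd : 0 ≤ d)
    (h : ∀ y, P y → BelowA n a (Kl π y.1 y.2) F (d / 3 ^ (m + 1)))
    (hcard : 3 * 2 ^ m ≤ Nat.card {x : ZMod 3 × (Fin m → ZMod 3) // P x}) :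
    BelowA n a (fun _ => True) F (d * (2 / 3) ^ m) := by
  classical
  obtain ⟨-, h2, -, h4⟩ := hSUMA n a m π F
  have h5 := h2 (fun y => if P y then d / 3 ^ (m + 1) else 0) hF (fun y => by
    by_cases hy : P y
    · simp only [if_pos hy]
      exact h y hy
    · simp only [if_neg hy]
      exact ALLA.below_zero _ _ _ _)
  refine h4 _ _ _ ?_ h5
  have h6 : ∑ y : ZMod 3 × (Fin m → ZMod 3), (if P y then d / 3 ^ (m + 1) else 0) =
      (Nat.card {x : ZMod 3 × (Fin m → ZMod 3) // P x} : ℝ) * (d / 3 ^ (m + 1)) := by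
    rw [← Finset.sum_filter, Finset.sum_const, nsmul_eq_mul, Nat.card_eq_fintype_card,
      Fintype.card_subtype]
  rw [h6]
  have h7 : ((3 : ℝ) * 2 ^ m) ≤ Nat.card {x : ZMod 3 × (Fin m → ZMod 3) // P x} := by
    exact_mod_cast hcard
  have h3' : (3 : ℝ) ^ m ≠ 0 := by positivity
  calc d * (2 / 3) ^ m = ((3 : ℝ) * 2 ^ m) * (d / 3 ^ (m + 1)) := by
        rw [div_pow, pow_succ]
        field_simp
    _ ≤ _ := mul_le_mul_of_nonneg_right h7 (by positivity)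

/-- sum of the upper bounds over the classes, sum at most `3 * 5 ^ m` -/
theorem up (hSUMA : Stmt_SUMA) (n : ℤ) (a m : ℕ) (π : Fin m → PP) (F : ℤ → ℝ)
    (V : ZMod 3 × (Fin m → ZMod 3) → ℕ) (x : ZMod 3 × (Fin m → ZMod 3) → ℝ) (d : ℝ) (hd : 0 ≤ d)
    (h : ∀ y, AboveA n a (Kl π y.1 y.2) F (x y / 3 ^ (m + 1))) (hx : ∀ y, x y ≤ d * 3 ^ V y)
    (hs : ∑ y : ZMod 3 × (Fin m → ZMod 3), 3 ^ V y ≤ 3 * 5 ^ m) :
    AboveA n a (fun _ => True) F (d * (5 / 3) ^ m) := by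
  obtain ⟨h1, -, h3, -⟩ := hSUMA n a m π F
  refine h3 _ _ _ ?_ (h1 _ h)
  have h6 : ∑ y : ZMod 3 × (Fin m → ZMod 3), (3 : ℝ) ^ V y ≤ 3 * 5 ^ m := by exact_mod_cast hs
  have h3' : (0 : ℝ) < 3 ^ (m + 1) := by positivity
  have h3'' : (3 : ℝ) ^ m ≠ 0 := by positivity
  calc ∑ y : ZMod 3 × (Fin m → ZMod 3), x y / 3 ^ (m + 1) ≤
        ∑ y : ZMod 3 × (Fin m → ZMod 3), d * 3 ^ V y / 3 ^ (m + 1) :=
        Finset.sum_le_sum fun y _ => div_le_div_of_nonneg_right (hx y) h3'.le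
    _ = d * (∑ y : ZMod 3 × (Fin m → ZMod 3), (3 : ℝ) ^ V y) / 3 ^ (m + 1) := by
        rw [Finset.mul_sum, Finset.sum_div]
    _ ≤ d * (3 * 5 ^ m) / 3 ^ (m + 1) :=
        div_le_div_of_nonneg_right (mul_le_mul_of_nonneg_left h6 hd) h3'.le
    _ = d * (5 / 3) ^ m := by
        rw [div_pow, pow_succ]
        field_simp

end ALLQ

theorem ALLQ_thm (hCAB : Stmt_CAB) (hCBE : Stmt_CBE) (hLAW : Stmt_LAW) (hSUMA : Stmt_SUMA)
    (hNDIM : Stmt_NDIM) (hNSUM : Stmt_NSUM) (hNZER : Stmt_NZER) (hNSU1 : Stmt_NSU1)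
    (hNZE1 : Stmt_NZE1) : Stmt_ALLQ := by
  classical
  intro h n m k π p e r f hN hh μ hμ
  by_cases h1' : h = 1
  swap
  · rw [if_neg h1'] at hμ
    subst hμ
    exact ALLA_thm hCAB hCBE hLAW hSUMA hNDIM hNSUM hNZER h n m k π p e r f hN hh
  subst h1'
  rw [if_pos rfl, add_zero] at hμ
  subst hμ
  simp only [if_true]
  obtain ⟨-, -, hL3, hL4, hL5, hL6, hL7, hL8⟩ := hLAW
  have hmono : Monotone fun j : ℕ => (3 : ℝ) ^ j := fun i j hij =>
    pow_le_pow_right₀ (by norm_num) hij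
  have hz : (0 : ℝ) ≤ (fun j : ℕ => (3 : ℝ) ^ j) 0 := by norm_num
  have hC := fun y : ZMod 3 × (Fin μ → ZMod 3) =>
    hCAB 1 n μ k π p e r f y.1 y.2 hN hh (fun j : ℕ => (3 : ℝ) ^ j) hmono hz
  have hB := fun y : ZMod 3 × (Fin μ → ZMod 3) => hCBE 1 n μ k π p e r f y.1 y.2 hN hh
  have hS := hNSU1 n μ k π p e r f hN
  have hZ := hNZE1 n μ k π p e r f hN
  -- the classes with `v = 0`
  have hdim : ∀ y : ZMod 3 × (Fin μ → ZMod 3), vN 1 n π p e r y.1 y.2 = 0 →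
      vN 1 n π p e r y.1 y.2 = 0 ∧ sN 1 n π p e r y.1 y.2 = k + 1 := by
    rintro y h1
    have h3 := hNDIM 1 n μ k π p e r y.1 y.2
    refine ⟨h1, ?_⟩
    rw [h1] at h3
    have hact : ¬ actR 1 n y.1 := by
      unfold actR
      rintro (h4 | h4)
      · omega
      · omega
    simp [hact] at h3 ⊢
    omega
  have hsol : ∀ A : ℤ, A ≠ 0 → CubeRank.GenBy A (CubeRank.rr A) → CubeRank.rr A < 1 →
      ¬ ∃ X Y : ℚ, X ^ 3 + Y ^ 3 = (A : ℚ) := by
    intro A hA h1 h2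
    have h3 : CubeRank.rr A = 0 := by omega
    rw [h3] at h1
    exact DOM.no_sol hA h1
  have hone : ∀ A : ℤ, A ≠ 0 → CubeRank.GenBy A (CubeRank.rr A) → CubeRank.rr A < 2 →
      CubeRank.rr A ≤ 1 := by
    intro A _ _ h2
    omega
  -- the two kinds of lower bounds
  have key2 : ∀ (t : ℕ) (R : ℤ → Prop),
      (∀ A : ℤ, A ≠ 0 → CubeRank.GenBy A (CubeRank.rr A) → CubeRank.rr A < t → R A) →
      ∀ d : ℝ, 0 ≤ d → d ≤ 1 - LI (k + 1) t →
      BelowA ((3 ^ 1 * n : ℕ) : ℤ) 2 (fun _ => True) (fun A => tf (R A))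
        (d * (2 / 3) ^ μ) := by
    intro t R hR d hd hdl
    refine ALLQ.low hSUMA _ 2 μ π _ (fun A => ALLA.tf_nn _) _ d hd (fun y hy => ?_) hZ
    obtain ⟨h1, h2⟩ := hdim y hy
    have h3 := (hB y t R hR).1
    rw [h1, h2, Nat.sub_zero] at h3
    exact (hSUMA _ 2 μ π _).2.2.2 _ _ _ (div_le_div_of_nonneg_right hdl (by positivity)) h3
  have key1 : ∀ (t : ℕ) (R : ℤ → Prop),
      (∀ A : ℤ, A ≠ 0 → CubeRank.GenBy A (CubeRank.rr A) → CubeRank.rr A < t → R A) →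
      ∀ d : ℝ, 0 ≤ d → d ≤ 1 - LS (k + 1) 0 t →
      BelowA ((3 ^ 1 * n : ℕ) : ℤ) 1 (fun _ => True) (fun A => tf (R A))
        (d * (2 / 3) ^ μ) := by
    intro t R hR d hd hdl
    refine ALLQ.low hSUMA _ 1 μ π _ (fun A => ALLA.tf_nn _) _ d hd (fun y hy => ?_) hZ
    obtain ⟨h1, h2⟩ := hdim y hy
    have h3 := (hB y t R hR).2
    rw [h1, h2] at h3
    exact (hSUMA _ 1 μ π _).2.2.2 _ _ _ (div_le_div_of_nonneg_right hdl (by positivity)) h3
  refine ⟨?_, ?_, fun hk => ⟨?_, ?_⟩, fun hk => ⟨?_, ?_⟩⟩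
  · exact ALLQ.up hSUMA _ 2 μ π _ (fun y => vN 1 n π p e r y.1 y.2) _ 4 (by norm_num)
      (fun y => (hC y).1) (fun y => hL7 _ _) hS
  · exact ALLQ.up hSUMA _ 1 μ π _ (fun y => vN 1 n π p e r y.1 y.2) _ 7 (by norm_num)
      (fun y => (hC y).2) (fun y => hL8 _ _) hS
  · refine key2 1 _ hsol _ (by norm_num) ?_
    have := hL3 _ hk
    linarith
  · refine key1 2 _ hone _ (by norm_num) ?_
    have := hL6 _ hk
    linarith
  · refine key2 2 _ hone _ (by norm_num) ?_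
    have := hL4 _ hk
    linarith
  · refine key1 1 _ hsol _ (by norm_num) ?_
    have := hL5 _ hk
    linarith

end Pool.Agent.PTN


end

section

/-!
# The law of the ranks of prime twists for every `n`: the theorem (module MAINQ)
-/

set_option autoImplicit false

open NumberField IsDedekindDomain Finset
open scoped nonZeroDivisors Pointwise

namespace Pool.Agent.PTN

open Pool.Agent.Lib_helper18 Pool.Agent.Lib_helper18.Eis Pool.Agent.Lib_helper84.Cub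
open Pool.Agent.PT Pool.Agent.PTE Pool.Agent.PT3 Pool.Agent.PTL

namespace MAINQ

theorem tf_nn (P : Prop) : 0 ≤ tf P := by
  unfold tf
  split_ifs
  · exact zero_le_one
  · exact le_refl _

/-! ### Comparison of sums -/

/-- the sum of the values at the small primes -/
noncomputable def small (n : ℤ) (M : ℕ) (F : ℤ → ℝ) : ℝ :=
  ∑ e ∈ ({1, 2} : Finset ℕ), ∑ q ∈ Finset.range (M + 1), F (n * (q : ℤ) ^ e)

theorem sum_le (n : ℤ) (a M : ℕ) (W W' : ℤ → Prop) (F : ℤ → ℝ) (hF : ∀ A, 0 ≤ F A)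
    (h : ∀ e q : ℕ, (e = 1 ∨ e = 2) → q.Prime → M < q → W ((q : ℤ) ^ e) → W' ((q : ℤ) ^ e))
    {σ : ℝ} (h1 : 1 < σ) (T : Finset ℕ) :
    SumA n a W F σ T ≤ SumA n a W' F σ T + small n M F := by
  classical
  unfold SumA small
  rw [← Finset.sum_add_distrib]
  refine Finset.sum_le_sum fun e he => ?_
  have he' : e = 1 ∨ e = 2 := by simpa using he
  have h0 : ∑ q ∈ T, (if q ∈ Finset.range (M + 1) then F (n * (q : ℤ) ^ e) else 0) ≤
      ∑ q ∈ Finset.range (M + 1), F (n * (q : ℤ) ^ e) := by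
    rw [← Finset.sum_filter]
    exact Finset.sum_le_sum_of_subset_of_nonneg (fun q hq => (Finset.mem_filter.1 hq).2)
      (fun _ _ _ => hF _)
  refine le_trans ?_ (add_le_add le_rfl h0)
  rw [← Finset.sum_add_distrib]
  refine Finset.sum_le_sum fun q _ => ?_
  have hpw : 0 ≤ (q : ℝ) ^ (-σ) := Real.rpow_nonneg (Nat.cast_nonneg q) _
  have hnn : 0 ≤ F (n * (q : ℤ) ^ e) * (q : ℝ) ^ (-σ) := mul_nonneg (hF _) hpw
  by_cases hW : q.Prime ∧ q % 3 = a ∧ W ((q : ℤ) ^ e)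
  · rw [if_pos hW]
    by_cases hM : M < q
    · rw [if_pos ⟨hW.1, hW.2.1, h e q he' hW.1 hM hW.2.2⟩,
        if_neg (fun h5 => absurd (Finset.mem_range.1 h5) (by omega)), add_zero]
    · rw [if_pos (Finset.mem_range.2 (by omega))]
      have h3 : (q : ℝ) ^ (-σ) ≤ 1 :=
        Real.rpow_le_one_of_one_le_of_nonpos (by exact_mod_cast hW.1.one_lt.le) (by linarith)
      have h4 : F (n * (q : ℤ) ^ e) * (q : ℝ) ^ (-σ) ≤ F (n * (q : ℤ) ^ e) :=
        mul_le_of_le_one_right (hF _) h3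
      split_ifs
      · linarith
      · linarith
  · rw [if_neg hW]
    have h6 := hF (n * (q : ℤ) ^ e)
    split_ifs <;> linarith

theorem above_of {n : ℤ} {a M : ℕ} {W W' : ℤ → Prop} {F : ℤ → ℝ} {x : ℝ} (hF : ∀ A, 0 ≤ F A)
    (h : ∀ e q : ℕ, (e = 1 ∨ e = 2) → q.Prime → M < q → W ((q : ℤ) ^ e) → W' ((q : ℤ) ^ e))
    (hA : AboveA n a W' F x) : AboveA n a W F x := by
  obtain ⟨K, hK⟩ := hA
  refine ⟨K + small n M F, fun σ h1 h2 T => ?_⟩
  have e1 := sum_le n a M W W' F hF h h1 T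
  have e2 := hK σ h1 h2 T
  linarith

theorem below_of {n : ℤ} {a M : ℕ} {W W' : ℤ → Prop} {F : ℤ → ℝ} {x : ℝ} (hF : ∀ A, 0 ≤ F A)
    (h : ∀ e q : ℕ, (e = 1 ∨ e = 2) → q.Prime → M < q → W' ((q : ℤ) ^ e) → W ((q : ℤ) ^ e))
    (hB : BelowA n a W' F x) : BelowA n a W F x := by
  obtain ⟨K, hK⟩ := hB
  refine ⟨K + small n M F, fun σ h1 h2 => ?_⟩
  obtain ⟨T, hT⟩ := hK σ h1 h2
  refine ⟨T, ?_⟩
  have e1 := sum_le n a M W' W F hF h h1 T
  linarith

/-! ### Units -/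

/-- the class of a unit -/
noncomputable def clu (f : ℕ) {m : ℕ} (π : Fin m → PP) (u : (ZMod f)ˣ) :
    ZMod 3 × (Fin m → ZMod 3) :=
  (wt ((((u : ZMod f).val : ℕ) : ℤ) ^ 2), fun i => sym (π i).1 ((((u : ZMod f).val : ℕ) : ℤ) : Eis))

theorem kl_clu (f : ℕ) {m : ℕ} (π : Fin m → PP) (u : (ZMod f)ˣ) :
    Kl π (clu f π u).1 (clu f π u).2 (((u : ZMod f).val : ℕ) : ℤ) := ⟨rfl, fun _ => rfl⟩

theorem kl_iff (f : ℕ) {m : ℕ} (π : Fin m → PP) (u : (ZMod f)ˣ) (w0 : ZMod 3)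
    (c : Fin m → ZMod 3) :
    Kl π w0 c (((u : ZMod f).val : ℕ) : ℤ) ↔ clu f π u = (w0, c) := by
  unfold Kl clu
  rw [Prod.ext_iff, funext_iff]

/-- sums over the units -/
theorem sum_clu {f m : ℕ} [NeZero f] (π : Fin m → PP)
    (h : ∀ (w0 : ZMod 3) (c : Fin m → ZMod 3),
      Nat.card {u : (ZMod f)ˣ // Kl π w0 c (((u : ZMod f).val : ℕ) : ℤ)} * 3 ^ (m + 1) =
        f.totient) (G : ZMod 3 × (Fin m → ZMod 3) → ℝ) :
    ∑ u : (ZMod f)ˣ, G (clu f π u) = (∑ x, G x) * ((f.totient : ℝ) / 3 ^ (m + 1)) := by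
  classical
  rw [← Finset.sum_fiberwise (Finset.univ : Finset (ZMod f)ˣ) (clu f π), Finset.sum_mul]
  refine Finset.sum_congr rfl fun x _ => ?_
  have h1 : ∀ u ∈ Finset.univ.filter (fun u : (ZMod f)ˣ => clu f π u = x), G (clu f π u) = G x :=
    fun u hu => by rw [(Finset.mem_filter.1 hu).2]
  rw [Finset.sum_congr rfl h1, Finset.sum_const, nsmul_eq_mul, mul_comm]
  congr 1
  have h2 := h x.1 x.2
  have h3 : Nat.card {u : (ZMod f)ˣ // Kl π x.1 x.2 (((u : ZMod f).val : ℕ) : ℤ)} =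
      (Finset.univ.filter (fun u : (ZMod f)ˣ => clu f π u = x)).card := by
    rw [Nat.card_eq_fintype_card, Fintype.card_subtype]
    congr 1
    ext u
    simp only [Finset.mem_filter, Finset.mem_univ, true_and]
    exact kl_iff f π u x.1 x.2
  rw [h3] at h2
  rw [eq_div_iff (by positivity)]
  exact_mod_cast h2

/-- numbers of units -/
theorem count {f m : ℕ} [NeZero f] (π : Fin m → PP)
    (h : ∀ (w0 : ZMod 3) (c : Fin m → ZMod 3),
      Nat.card {u : (ZMod f)ˣ // Kl π w0 c (((u : ZMod f).val : ℕ) : ℤ)} * 3 ^ (m + 1) =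
        f.totient) (P : ZMod 3 × (Fin m → ZMod 3) → Prop) :
    (Nat.card {u : (ZMod f)ˣ // P (clu f π u)} : ℝ) =
      Nat.card {x : ZMod 3 × (Fin m → ZMod 3) // P x} * ((f.totient : ℝ) / 3 ^ (m + 1)) := by
  classical
  have h1 := sum_clu π h (fun x => if P x then (1 : ℝ) else 0)
  have h2 : ∑ u : (ZMod f)ˣ, (if P (clu f π u) then (1 : ℝ) else 0) =
      Nat.card {u : (ZMod f)ˣ // P (clu f π u)} := by
    rw [← Finset.sum_filter, Finset.sum_const, nsmul_eq_mul, mul_one, Nat.card_eq_fintype_card,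
      Fintype.card_subtype]
  have h3 : ∑ x : ZMod 3 × (Fin m → ZMod 3), (if P x then (1 : ℝ) else 0) =
      Nat.card {x : ZMod 3 × (Fin m → ZMod 3) // P x} := by
    rw [← Finset.sum_filter, Finset.sum_const, nsmul_eq_mul, mul_one, Nat.card_eq_fintype_card,
      Fintype.card_subtype]
  rw [← h2, ← h3]
  exact h1

section

variable {h n m k : ℕ} {π : Fin m → PP} {p e : Fin m → ℕ} {r f : Fin k → ℕ}

/-- the condition modulo `9` -/
theorem nu1_iff (hN : NF n π p e r f) (u : (ZMod (9 * (3 ^ h * n)))ˣ) :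
    Nu1 (3 ^ h * n) u ↔ (h = 0 ∧ wt ((n : ℤ) ^ 2) + (clu (9 * (3 ^ h * n)) π u).1 = 0) := by
  have hcop : Nat.Coprime (u : ZMod (9 * (3 ^ h * n))).val (9 * (3 ^ h * n)) :=
    ZMod.val_coe_unit_coprime u
  have hn3 : ¬ 3 ∣ n := EADM.three_not hN
  unfold Nu1
  rcases Nat.eq_zero_or_pos h with rfl | hpos
  · have hU3 : ¬ 3 ∣ (u : ZMod (9 * (3 ^ 0 * n))).val := by
      intro h3
      have h4 : 3 ∣ 9 * (3 ^ 0 * n) := (by norm_num : 3 ∣ 9).mul_right _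
      have h5 := Nat.dvd_gcd h3 h4
      rw [hcop] at h5
      omega
    have e1 : (clu (9 * (3 ^ 0 * n)) π u).1 =
        wt ((((u : ZMod (9 * (3 ^ 0 * n))).val : ℕ) : ℤ) ^ 2) := rfl
    rw [e1]
    generalize (u : ZMod (9 * (3 ^ 0 * n))).val = U at *
    have hnz : ¬ (3 : ℤ) ∣ (n : ℤ) := by
      intro h3
      exact hn3 (by exact_mod_cast h3)
    have hUz : ¬ (3 : ℤ) ∣ (U : ℤ) := by
      intro h3
      exact hU3 (by exact_mod_cast h3)
    have hA : ¬ (3 : ℤ) ∣ (n : ℤ) * U := by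
      intro h3
      rcases Int.prime_three.dvd_or_dvd h3 with h4 | h4
      · exact hnz h4
      · exact hUz h4
    have h6 := FIN.cls_iff (a := 1) (A := (n : ℤ) * U) (Or.inl rfl) hA
    have w1 : wt ((1 : ℤ) ^ 2) = 0 := by
      rw [FIN.wt_res (c := 1) 0 0 (by norm_num) (by norm_num)]
      decide
    rw [w1, mul_pow, wt_mul (sq_mod_three hnz) (sq_mod_three hUz)] at h6
    unfold PTL.Cls at h6
    have h7 : ((3 ^ 0 * n * U % 9 = 1) ∨ (3 ^ 0 * n * U % 9 = 8)) ↔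
        ((n : ℤ) * U % 9 = 1 ∨ (n : ℤ) * U % 9 = 9 - 1) := by
      rw [pow_zero, one_mul]
      have h8 : (n : ℤ) * U = ((n * U : ℕ) : ℤ) := by push_cast; ring
      rw [h8]
      omega
    rw [h7, h6]
    exact ⟨fun h9 => ⟨rfl, h9⟩, fun h9 => h9.2⟩
  · constructor
    · intro h1
      exfalso
      have h2 : 3 ∣ 3 ^ h * n * (u : ZMod (9 * (3 ^ h * n))).val :=
        ((dvd_pow_self 3 (by omega)).mul_right _).mul_right _
      omega
    · rintro ⟨h1, -⟩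
      omega

/-- the relation between the dimensions -/
theorem dims (hNDIM : Stmt_NDIM) (hh : h ≤ 2) (w0 : ZMod 3) (c : Fin m → ZMod 3) :
    sN h n π p e r w0 c + (if h = 0 ∧ wt ((n : ℤ) ^ 2) + w0 = 0 then 1 else 0) =
      vN h n π p e r w0 c + k + (if h = 1 then 1 else 0) := by
  have h3 := hNDIM h n m k π p e r w0 c
  unfold actR at h3
  have hcase : h = 0 ∨ h = 1 ∨ h = 2 := by omega
  rcases hcase with rfl | rfl | rfl
  · simp only [true_and, if_true, OfNat.zero_ne_ofNat, false_or] at h3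
    rw [if_neg (by norm_num : ¬ (0 : ℕ) = 1)]
    by_cases hw : wt ((n : ℤ) ^ 2) + w0 = 0
    · rw [if_pos hw] at h3
      rw [if_pos ⟨rfl, hw⟩]
      exact h3
    · rw [if_neg hw] at h3
      rw [if_neg fun h => hw h.2]
      exact h3
  · rw [if_neg (by norm_num), if_neg (by norm_num : ¬ (1 : ℕ) = 0)] at h3
    rw [if_neg fun h => absurd h.1 (by norm_num), if_pos rfl]
    exact h3
  · rw [if_pos (Or.inl rfl), if_neg (by norm_num : ¬ (2 : ℕ) = 0)] at h3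
    rw [if_neg fun h => absurd h.1 (by norm_num), if_neg (by norm_num : ¬ (2 : ℕ) = 1)]
    omega

/-- the number `δ` -/
theorem delta_eq (hN : NF n π p e r f) (hh : h ≤ 2) :
    (3 ∣ 3 ^ h * n ∧ ¬ 9 ∣ 3 ^ h * n) ↔ h = 1 := by
  have hn3 : ¬ 3 ∣ n := EADM.three_not hN
  have hcase : h = 0 ∨ h = 1 ∨ h = 2 := by omega
  rcases hcase with rfl | rfl | rfl
  · rw [pow_zero, one_mul]
    exact ⟨fun h1 => absurd h1.1 hn3, fun h1 => absurd h1 (by norm_num)⟩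
  · rw [pow_one]
    refine ⟨fun _ => rfl, fun _ => ⟨dvd_mul_right _ _, fun h9 => hn3 ?_⟩⟩
    omega
  · refine ⟨fun h1 => absurd ?_ h1.2, fun h1 => absurd h1 (by norm_num)⟩
    exact dvd_mul_right _ _

end

theorem no_sol' : ∀ A : ℤ, A ≠ 0 → CubeRank.GenBy A (CubeRank.rr A) → CubeRank.rr A < 1 →
    ¬ ∃ X Y : ℚ, X ^ 3 + Y ^ 3 = (A : ℚ) := by
  intro A hA h1 h2
  have h3 : CubeRank.rr A = 0 := by omega
  rw [h3] at h1
  exact DOM.no_sol hA h1

theorem le_one : ∀ A : ℤ, A ≠ 0 → CubeRank.GenBy A (CubeRank.rr A) → CubeRank.rr A < 2 →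
    CubeRank.rr A ≤ 1 := by
  intro A _ _ h2
  omega

end MAINQ

open _root_.Pool.Agent.PTN.MAINQ in
theorem MAINQ_thm (hNFE : Stmt_NFE) (hNDIM : Stmt_NDIM) (hNSUM : Stmt_NSUM) (hNZER : Stmt_NZER)
    (hNSU1 : Stmt_NSU1) (hNZE1 : Stmt_NZE1) (hNZE0 : Stmt_NZE0) (hCAB : Stmt_CAB)
    (hCBE : Stmt_CBE) (hLAW : Stmt_LAW) (hALLQ : Stmt_ALLQ) (hTRU : Stmt_TRU)
    (hTRC : Stmt_TRC) (hCLN : Stmt_CLN) (hCLU : Stmt_CLU) (hSUMA : Stmt_SUMA) :
    Stmt_MAINQ := by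
  classical
  intro N hN0 hcf m k δ μ hm hk hδ hμ
  obtain ⟨h, n, m', k', π, p, e, r, f, hNF, hh, -, hNe, hm', hk'⟩ := hNFE N hN0 hcf
  have em : m' = m := hm'.trans hm.symm
  have ek : k' = k := hk'.trans hk.symm
  subst em ek
  clear hm hk hm' hk'
  subst hNe
  have hδ' : δ = if h = 1 then 1 else 0 := by
    rw [hδ]
    by_cases h1 : h = 1
    · rw [if_pos ((delta_eq hNF hh).2 h1), if_pos h1]
    · rw [if_neg fun h2 => h1 ((delta_eq hNF hh).1 h2), if_neg h1]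
  clear hδ
  subst hδ'
  have hμ' : μ = m' + (if h = 1 then 0 else 1) := by
    split_ifs at hμ ⊢ <;> omega
  have hf0 : 9 * (3 ^ h * n) ≠ 0 := by
    have := hN0
    omega
  have : NeZero (9 * (3 ^ h * n)) := ⟨hf0⟩
  obtain ⟨hT1, hT2⟩ := hTRU h n m' k' π p e r f hNF
  have hcopq : ∀ q e' : ℕ, q.Prime → 9 * (3 ^ h * n) < q →
      IsCoprime ((q : ℤ) ^ e') ((9 * (3 ^ h * n) : ℕ) : ℤ) := by
    intro q e' hq hlt
    apply IsCoprime.pow_left
    rw [Nat.isCoprime_iff_coprime]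
    exact (Nat.Prime.coprime_iff_not_dvd hq).2 fun hd =>
      absurd (Nat.le_of_dvd (Nat.pos_of_ne_zero hf0) hd) (by omega)
  have hCK : ∀ u : (ZMod (9 * (3 ^ h * n)))ˣ, ∀ e' q : ℕ, (e' = 1 ∨ e' = 2) → q.Prime →
      9 * (3 ^ h * n) < q → Cu (3 ^ h * n) u ((q : ℤ) ^ e') →
      Kl π (clu (9 * (3 ^ h * n)) π u).1 (clu (9 * (3 ^ h * n)) π u).2 ((q : ℤ) ^ e') := by
    rintro u e' q - hq hlt ⟨x, hx⟩
    exact hT2 u _ _ _ x (kl_clu _ π u) (hcopq q e' hq hlt) hx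
  have hKC : ∀ u : (ZMod (9 * (3 ^ h * n)))ˣ, ∀ e' q : ℕ, (e' = 1 ∨ e' = 2) → q.Prime →
      9 * (3 ^ h * n) < q →
      Kl π (clu (9 * (3 ^ h * n)) π u).1 (clu (9 * (3 ^ h * n)) π u).2 ((q : ℤ) ^ e') →
      Cu (3 ^ h * n) u ((q : ℤ) ^ e') := by
    rintro u e' q - hq hlt hy
    exact hTRC h n m' k' π p e r f hNF u _ _ _ (kl_clu _ π u) hy (hcopq q e' hq hlt)
  have hφ : (0 : ℝ) ≤ ((9 * (3 ^ h * n)).totient : ℝ) := Nat.cast_nonneg _
  refine ⟨⟨fun u => vN h n π p e r (clu (9 * (3 ^ h * n)) π u).1 (clu (9 * (3 ^ h * n)) π u).2,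
    fun u => sN h n π p e r (clu (9 * (3 ^ h * n)) π u).1 (clu (9 * (3 ^ h * n)) π u).2,
    ?_, ?_, ?_, ?_, ?_, ?_⟩, ?_, ?_⟩
  · -- the relation of the dimensions
    intro u
    have h1 := dims (π := π) (p := p) (e := e) (r := r) (n := n) hNDIM hh
      (clu (9 * (3 ^ h * n)) π u).1 (clu (9 * (3 ^ h * n)) π u).2
    by_cases h2 : Nu1 (3 ^ h * n) u
    · rw [if_pos h2]
      rw [if_pos ((nu1_iff hNF u).1 h2)] at h1
      exact h1
    · rw [if_neg h2]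
      rw [if_neg fun h3 => h2 ((nu1_iff hNF u).2 h3)] at h1
      exact h1
  · -- the average of `3 ^ v`
    rw [finsum_eq_sum_of_fintype,
      sum_clu π hT1 (fun x => (3 : ℝ) ^ vN h n π p e r x.1 x.2)]
    have hS : ∑ x : ZMod 3 × (Fin m' → ZMod 3), (3 : ℝ) ^ vN h n π p e r x.1 x.2 ≤
        (5 / 3) ^ μ * 3 ^ (m' + 1) := by
      by_cases h1 : h = 1
      · subst h1
        have h2 := hNSU1 n m' k' π p e r f hNF
        have h3 : ∑ x : ZMod 3 × (Fin m' → ZMod 3), (3 : ℝ) ^ vN 1 n π p e r x.1 x.2 ≤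
            3 * 5 ^ m' := by exact_mod_cast h2
        rw [hμ', if_pos rfl, add_zero, div_pow, pow_succ]
        refine h3.trans (le_of_eq ?_)
        field_simp
      · have h2 := hNSUM h n m' k' π p e r f hNF
        have h3 : ∑ x : ZMod 3 × (Fin m' → ZMod 3), (3 : ℝ) ^ vN h n π p e r x.1 x.2 ≤
            5 ^ (m' + 1) := by exact_mod_cast h2
        rw [hμ', if_neg h1, div_pow]
        refine h3.trans (le_of_eq ?_)
        field_simp
    calc _ ≤ ((5 / 3) ^ μ * 3 ^ (m' + 1)) * (((9 * (3 ^ h * n)).totient : ℝ) / 3 ^ (m' + 1)) :=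
          mul_le_mul_of_nonneg_right hS (by positivity)
      _ = (5 / 3) ^ μ * (9 * (3 ^ h * n)).totient := by field_simp
  · -- the units with `v = 0`
    have hC := count π hT1 (fun x => vN h n π p e r x.1 x.2 = 0 ∧
      ¬ (h = 0 ∧ wt ((n : ℤ) ^ 2) + x.1 = 0))
    have e1 : Nat.card {u : (ZMod (9 * (3 ^ h * n)))ˣ //
        vN h n π p e r (clu (9 * (3 ^ h * n)) π u).1 (clu (9 * (3 ^ h * n)) π u).2 = 0 ∧
          ¬ Nu1 (3 ^ h * n) u} =
        Nat.card {u : (ZMod (9 * (3 ^ h * n)))ˣ //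
          vN h n π p e r (clu (9 * (3 ^ h * n)) π u).1 (clu (9 * (3 ^ h * n)) π u).2 = 0 ∧
            ¬ (h = 0 ∧ wt ((n : ℤ) ^ 2) + (clu (9 * (3 ^ h * n)) π u).1 = 0)} :=
      Nat.card_congr (Equiv.subtypeEquivRight fun u => by rw [nu1_iff hNF u])
    rw [e1, hC]
    have hS : (2 / 3 : ℝ) ^ μ * 3 ^ (m' + 1) ≤
        Nat.card {x : ZMod 3 × (Fin m' → ZMod 3) // vN h n π p e r x.1 x.2 = 0 ∧
          ¬ (h = 0 ∧ wt ((n : ℤ) ^ 2) + x.1 = 0)} := by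
      by_cases h1 : h = 1
      · subst h1
        have h2 := hNZE1 n m' k' π p e r f hNF
        have e2 : Nat.card {x : ZMod 3 × (Fin m' → ZMod 3) // vN 1 n π p e r x.1 x.2 = 0 ∧
            ¬ (1 = 0 ∧ wt ((n : ℤ) ^ 2) + x.1 = 0)} =
            Nat.card {x : ZMod 3 × (Fin m' → ZMod 3) // vN 1 n π p e r x.1 x.2 = 0} :=
          Nat.card_congr (Equiv.subtypeEquivRight fun x =>
            ⟨fun h3 => h3.1, fun h3 => ⟨h3, fun h4 => absurd h4.1 one_ne_zero⟩⟩)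
        rw [e2, hμ', if_pos rfl, add_zero, div_pow, pow_succ]
        have h3 : (3 : ℝ) * 2 ^ m' ≤
            Nat.card {x : ZMod 3 × (Fin m' → ZMod 3) // vN 1 n π p e r x.1 x.2 = 0} := by
          exact_mod_cast h2
        refine le_trans (le_of_eq ?_) h3
        field_simp
      · have h2 := hNZER h n m' k' π p e r f hNF
        have h3 : (2 : ℝ) ^ (m' + 1) ≤
            Nat.card {x : ZMod 3 × (Fin m' → ZMod 3) // vN h n π p e r x.1 x.2 = 0 ∧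
              ¬ (h = 0 ∧ wt ((n : ℤ) ^ 2) + x.1 = 0)} := by exact_mod_cast h2
        rw [hμ', if_neg h1, div_pow]
        refine le_trans (le_of_eq ?_) h3
        field_simp
    calc (2 / 3 : ℝ) ^ μ * (9 * (3 ^ h * n)).totient =
        ((2 / 3 : ℝ) ^ μ * 3 ^ (m' + 1)) * (((9 * (3 ^ h * n)).totient : ℝ) / 3 ^ (m' + 1)) := by
          field_simp
      _ ≤ _ := mul_le_mul_of_nonneg_right hS (by positivity)
  · -- the units with `v = 0`, `N u = ± 1`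
    rintro h3N ⟨l, hl, hlN, hl9⟩
    have hh0 : h = 0 := by
      by_contra h0
      exact h3N ((dvd_pow_self 3 h0).mul_right _)
    subst hh0
    have hj : ∃ j, wt ((r j : ℤ) ^ 2) ≠ 0 := by
      rw [pow_zero, one_mul] at hlN
      rcases EADM.prime_dvd hNF hl hlN with ⟨i, hi⟩ | ⟨j, hj⟩
      · have := hNF.p1 i
        omega
      · refine ⟨j, (FIN.p_wt (hNF.r2 j)).2 ?_⟩
        omega
    have h2 := hNZE0 n m' k' π p e r f hNF hj
    have hC := count π hT1 (fun x => vN 0 n π p e r x.1 x.2 = 0 ∧ wt ((n : ℤ) ^ 2) + x.1 = 0)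
    have e1 : Nat.card {u : (ZMod (9 * (3 ^ 0 * n)))ˣ //
        vN 0 n π p e r (clu (9 * (3 ^ 0 * n)) π u).1 (clu (9 * (3 ^ 0 * n)) π u).2 = 0 ∧
          Nu1 (3 ^ 0 * n) u} =
        Nat.card {u : (ZMod (9 * (3 ^ 0 * n)))ˣ //
          vN 0 n π p e r (clu (9 * (3 ^ 0 * n)) π u).1 (clu (9 * (3 ^ 0 * n)) π u).2 = 0 ∧
            wt ((n : ℤ) ^ 2) + (clu (9 * (3 ^ 0 * n)) π u).1 = 0} :=
      Nat.card_congr (Equiv.subtypeEquivRight fun u => by
        rw [nu1_iff hNF u]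
        exact ⟨fun h3 => ⟨h3.1, h3.2.2⟩, fun h3 => ⟨h3.1, rfl, h3.2⟩⟩)
    rw [e1, hC]
    have h3 : (2 : ℝ) ^ m' ≤
        Nat.card {x : ZMod 3 × (Fin m' → ZMod 3) // vN 0 n π p e r x.1 x.2 = 0 ∧
          wt ((n : ℤ) ^ 2) + x.1 = 0} := by exact_mod_cast h2
    calc 1 / 3 * (2 / 3 : ℝ) ^ m' * (9 * (3 ^ 0 * n)).totient =
        2 ^ m' * (((9 * (3 ^ 0 * n)).totient : ℝ) / 3 ^ (m' + 1)) := by
          rw [div_pow, pow_succ]
          field_simp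
      _ ≤ _ := mul_le_mul_of_nonneg_right h3 (by positivity)
  · -- averages
    intro u F hF h0
    have hnn : ∀ A : ℤ, 0 ≤ F (CubeRank.rr A) := fun A => h0.trans (hF (Nat.zero_le _))
    have h1 := hCAB h n m' k' π p e r f (clu (9 * (3 ^ h * n)) π u).1
      (clu (9 * (3 ^ h * n)) π u).2 hNF hh F hF h0
    exact ⟨above_of hnn (hCK u) h1.1, above_of hnn (hCK u) h1.2⟩
  · -- lower bounds in a class
    obtain ⟨-, -, hL3, hL4, hL5, hL6, -, -⟩ := hLAW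
    intro u hv
    have hv' : vN h n π p e r (clu (9 * (3 ^ h * n)) π u).1 (clu (9 * (3 ^ h * n)) π u).2 = 0 :=
      hv
    have hB := hCBE h n m' k' π p e r f (clu (9 * (3 ^ h * n)) π u).1
      (clu (9 * (3 ^ h * n)) π u).2 hNF hh
    rw [hv'] at hB
    have key : ∀ (a : ℕ) (R : ℤ → Prop) (x d : ℝ),
        BelowA ((3 ^ h * n : ℕ) : ℤ) a (Kl π (clu (9 * (3 ^ h * n)) π u).1
          (clu (9 * (3 ^ h * n)) π u).2) (fun A => tf (R A)) ((1 - x) / 3 ^ (m' + 1)) →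
        d ≤ 1 - x →
        BelowA ((3 ^ h * n : ℕ) : ℤ) a (Cu (3 ^ h * n) u) (fun A => tf (R A))
          (d / 3 ^ (m' + 1)) := by
      intro a R x d h1 h2
      refine below_of (fun A => tf_nn _) (hKC u) ?_
      exact (hSUMA _ a m' π _).2.2.2 _ _ _ (div_le_div_of_nonneg_right h2 (by positivity)) h1
    refine ⟨fun hs => ⟨?_, ?_⟩, fun hs => ⟨?_, ?_⟩⟩
    · have h2 := hL3 _ hs
      exact key 2 _ _ _ (hB 1 _ no_sol').1 (by rw [Nat.sub_zero]; linarith)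
    · have h2 := hL6 _ hs
      exact key 1 _ _ _ (hB 2 _ le_one).2 (by linarith)
    · have h2 := hL4 _ hs
      exact key 2 _ _ _ (hB 2 _ le_one).1 (by rw [Nat.sub_zero]; linarith)
    · have h2 := hL5 _ hs
      exact key 1 _ _ _ (hB 1 _ no_sol').2 (by linarith)
  · -- finite generation
    choose M1 hM1 using fun x : ZMod 3 × (Fin m' → ZMod 3) =>
      (hCLN h n m' k' π p e r f x.1 x.2 hNF hh).1
    choose M2 hM2 using fun x : ZMod 3 × (Fin m' → ZMod 3) =>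
      (hCLU h n m' k' π p e r f x.1 x.2 hNF hh).1
    refine ⟨3 + ∑ x, (M1 x + M2 x), fun q E hq hM hE => ?_⟩
    have hBB : ((3 ^ h * n : ℕ) : ℤ) * (q : ℤ) ^ E = BB h n E q := by
      unfold BB
      push_cast
      ring
    rw [hBB]
    let x : ZMod 3 × (Fin m' → ZMod 3) :=
      (wt (((q : ℤ) ^ E) ^ 2), fun i => (E : ZMod 3) * sym (π i).1 (q : Eis))
    have hcl : InCT E π x.1 x.2 q := ⟨rfl, fun _ => rfl⟩
    have hx : M1 x + M2 x ≤ ∑ x, (M1 x + M2 x) :=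
      Finset.single_le_sum (f := fun x => M1 x + M2 x) (fun _ _ => Nat.zero_le _)
        (Finset.mem_univ x)
    have hq3 : q % 3 = 1 ∨ q % 3 = 2 := by
      have h1 : ¬ 3 ∣ q := by
        intro h3
        have := (Nat.prime_dvd_prime_iff_eq Nat.prime_three hq).1 h3
        omega
      omega
    rcases hq3 with h1 | h2
    · exact CubeRank.gen_rr (hM2 x E q hE hq (by omega) h1 hcl)
    · exact CubeRank.gen_rr (hM1 x E q hE hq (by omega) h2 hcl)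
  · -- the averages over all `A`
    exact hALLQ h n m' k' π p e r f hNF hh μ hμ'

end Pool.Agent.PTN


end
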