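import Mathlib
import Pool.Agent.PTDM.C19
import Pool.Agent.PTDM.C22
import Pool.Agent.PTDM.C27
import Pool.Agent.PTDM.C28
import Pool.Agent.PTDM.C39

/-! Parts: PT.EQD, PTN.KEX, PTN.KAD, PTN.NDIM, PTN.NADU, PTN.NPSI, PTN.NBKN, PTN.BDG, PTN.EQX, PTN.BDL, PTN.DOMG, PTN.NZE0, PTN.TRC -/

section

/-!
# EQD: equidistribution of the matrices in a class of the Galois group
-/

namespace Pool.Agent.PT.EQD

open Pool.Agent.Lib_helper18 Pool.Agent.Lib_helper18.Eis Pool.Agent.Lib_helper84.Cub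

/-- counting with fibres of equal cardinality -/
theorem fib_count {X E : Type} [Finite X] [Finite E] (φ : X → E)
    (h : ∀ e e', Nat.card {x // φ x = e} = Nat.card {x // φ x = e'}) (S : Set E) :
    Nat.card {x // φ x ∈ S} * Nat.card E = Nat.card S * Nat.card X := by
  classical
  have := Fintype.ofFinite E
  rcases isEmpty_or_nonempty E with hE | ⟨⟨e0⟩⟩
  · have h1 : Nat.card E = 0 := Nat.card_of_isEmpty
    have h2 : Nat.card S = 0 := Nat.card_of_isEmpty
    rw [h1, h2, mul_zero, zero_mul]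
  · have h1 : Nat.card X = Nat.card E * Nat.card {x // φ x = e0} := by
      rw [← Nat.card_congr (Equiv.sigmaFiberEquiv φ), Nat.card_sigma,
        Finset.sum_congr rfl fun e _ => h e e0, Finset.sum_const, Finset.card_univ,
        smul_eq_mul, Nat.card_eq_fintype_card (α := E)]
    have e : {x // φ x ∈ S} ≃ Σ e : S, {x // φ x = (e : E)} :=
      { toFun := fun x => ⟨⟨φ x.1, x.2⟩, ⟨x.1, rfl⟩⟩
        invFun := fun y => ⟨y.2.1, by
          rw [y.2.2]
          exact y.1.2⟩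
        left_inv := fun x => rfl
        right_inv := by
          rintro ⟨e, ⟨x, hx⟩⟩
          have hmem : φ x ∈ S := by
            rw [hx]
            exact e.2
          obtain rfl : (⟨φ x, hmem⟩ : S) = e := Subtype.ext hx
          rfl }
    have := Fintype.ofFinite S
    have h2 : Nat.card {x // φ x ∈ S} = Nat.card S * Nat.card {x // φ x = e0} := by
      rw [Nat.card_congr e, Nat.card_sigma, Finset.sum_congr rfl fun (e : S) _ => h (e : E) e0,
        Finset.sum_const, Finset.card_univ, smul_eq_mul, Nat.card_eq_fintype_card (α := S)]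
    rw [h1, h2]
    ring

/-- the pairs above the diagonal -/
abbrev Pr (s : ℕ) : Type := {x : Fin s × Fin s // x.1 < x.2}

/-- the entries above the diagonal -/
def rst {s : ℕ} (v : Fin s → Fin s → ZMod 3) : Pr s → ZMod 3 := fun x => v x.1.1 x.1.2

/-- a function with given entries above the diagonal -/
def lft {s : ℕ} (e : Pr s → ZMod 3) : Fin s → Fin s → ZMod 3 :=
  fun j i => if h : j < i then e ⟨(j, i), h⟩ else 0

theorem rst_lft {s : ℕ} (e : Pr s → ZMod 3) : rst (lft e) = e := by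
  funext x
  exact dif_pos x.2

theorem alt_lft {s : ℕ} (v : Fin s → Fin s → ZMod 3) : alt (lft (rst v)) = alt v := by
  funext j i
  unfold alt lft rst
  by_cases h1 : j < i
  · rw [if_pos h1, if_pos h1, dif_pos h1]
  · rw [if_neg h1, if_neg h1]
    by_cases h2 : i < j
    · rw [if_pos h2, if_pos h2, dif_pos h2]
    · rw [if_neg h2, if_neg h2]

theorem rst_eq_iff {s : ℕ} (v : Fin s → Fin s → ZMod 3) (e : Pr s → ZMod 3) :
    rst v = e ↔ ∀ j i, j < i → v j i = lft e j i := by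
  constructor
  · rintro rfl j i h
    have h1 : lft (rst v) j i = rst v ⟨(j, i), h⟩ := dif_pos h
    rw [h1]
    rfl
  · intro h
    funext x
    have h1 := h x.1.1 x.1.2 x.2
    rw [show rst v x = v x.1.1 x.1.2 from rfl, h1]
    exact dif_pos x.2

theorem fib_all {s : ℕ} (e e' : Pr s → ZMod 3) :
    Nat.card {v : Fin s → Fin s → ZMod 3 // rst v = e} =
      Nat.card {v : Fin s → Fin s → ZMod 3 // rst v = e'} := by
  refine Nat.card_congr ⟨fun v => ⟨v.1 - lft e + lft e', ?_⟩, fun v => ⟨v.1 - lft e' + lft e, ?_⟩,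
    ?_, ?_⟩
  · have h1 : rst (v.1 - lft e + lft e') = rst v.1 - rst (lft e) + rst (lft e') := rfl
    rw [h1, v.2, rst_lft, rst_lft]
    abel
  · have h1 : rst (v.1 - lft e' + lft e) = rst v.1 - rst (lft e') + rst (lft e) := rfl
    rw [h1, v.2, rst_lft, rst_lft]
    abel
  · intro v
    apply Subtype.ext
    show v.1 - lft e + lft e' - lft e' + lft e = v.1
    abel
  · intro v
    apply Subtype.ext
    show v.1 - lft e' + lft e - lft e + lft e' = v.1
    abel

/-- The comparison of two counts. -/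
theorem main {s : ℕ} {X : Type} [Finite X] (u : X → Fin s → Fin s → ZMod 3)
    (h : ∀ e e' : Pr s → ZMod 3, Nat.card {x // rst (u x) = e} = Nat.card {x // rst (u x) = e'})
    (S : Set (Matrix (Fin s) (Fin s) (ZMod 3))) :
    Nat.card {x : X // alt (u x) ∈ S} * Nat.card (Fin s → Fin s → ZMod 3) =
      Nat.card {v : Fin s → Fin s → ZMod 3 // alt v ∈ S} * Nat.card X := by
  have h1 := fib_count (fun x => rst (u x)) h {e | alt (lft e) ∈ S}
  have h2 := fib_count (rst (s := s)) fib_all {e | alt (lft e) ∈ S}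
  simp only [Set.mem_ofPred_eq, alt_lft] at h1 h2
  have h3 : 0 < Nat.card (Pr s → ZMod 3) := Nat.card_pos
  apply Nat.eq_of_mul_eq_mul_right h3
  calc Nat.card {x : X // alt (u x) ∈ S} * Nat.card (Fin s → Fin s → ZMod 3) *
      Nat.card (Pr s → ZMod 3)
      = (Nat.card {x : X // alt (u x) ∈ S} * Nat.card (Pr s → ZMod 3)) *
        Nat.card (Fin s → Fin s → ZMod 3) := by ring
    _ = (Nat.card {e : Pr s → ZMod 3 | alt (lft e) ∈ S} *
        Nat.card (Fin s → Fin s → ZMod 3)) * Nat.card X := by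
        rw [h1]
        ring
    _ = Nat.card {v : Fin s → Fin s → ZMod 3 // alt v ∈ S} * Nat.card X *
      Nat.card (Pr s → ZMod 3) := by
        rw [← h2]
        ring

end Pool.Agent.PT.EQD

namespace Pool.Agent.PT

theorem EQD_thm : EQD := by
  intro s f G _ _ χ t hf h a C S ha
  have hsub : ∀ (P : G → Prop),
      Nat.card {x : {g : G // χ g = a} // P x.1} = Nat.card {g : G // χ g = a ∧ P g} := by
    intro P
    exact Nat.card_congr (Equiv.subtypeSubtypeEquivSubtypeInter (fun g => χ g = a) P)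
  constructor
  · have h1 := EQD.main (fun x : {g : G // χ g = a} => C - t x.1) ?_ S
    · rw [hsub (fun g => alt (C - t g) ∈ S)] at h1
      exact h1
    · intro e e'
      have h2 : ∀ e : EQD.Pr s → ZMod 3,
          Nat.card {x : {g : G // χ g = a} // EQD.rst (C - t x.1) = e} =
            Nat.card {g : G // χ g = a ∧ ∀ j i, j < i → t g j i = (C - EQD.lft e) j i} := by
        intro e
        rw [← hsub]
        refine Nat.card_congr (Equiv.subtypeEquivRight fun x => ?_)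
        rw [EQD.rst_eq_iff]
        refine forall₃_congr fun j i _ => ?_
        show C j i - t x.1 j i = EQD.lft e j i ↔ t x.1 j i = C j i - EQD.lft e j i
        constructor
        · intro h3
          rw [← h3]
          ring
        · intro h3
          rw [h3]
          ring
      rw [h2, h2]
      exact h a _ _ ha
  · have h1 := EQD.main (fun x : {g : G // χ g = a} => C + t x.1) ?_ S
    · rw [hsub (fun g => alt (C + t g) ∈ S)] at h1
      exact h1
    · intro e e'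
      have h2 : ∀ e : EQD.Pr s → ZMod 3,
          Nat.card {x : {g : G // χ g = a} // EQD.rst (C + t x.1) = e} =
            Nat.card {g : G // χ g = a ∧ ∀ j i, j < i → t g j i = (EQD.lft e - C) j i} := by
        intro e
        rw [← hsub]
        refine Nat.card_congr (Equiv.subtypeEquivRight fun x => ?_)
        rw [EQD.rst_eq_iff]
        refine forall₃_congr fun j i _ => ?_
        show C j i + t x.1 j i = EQD.lft e j i ↔ t x.1 j i = EQD.lft e j i - C j i
        constructor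
        · intro h3
          rw [← h3]
          ring
        · intro h3
          rw [h3]
          ring
      rw [h2, h2]
      exact h a _ _ ha

end Pool.Agent.PT


end

section

/-!
# KEX: existence of the field `K = Q(w)`
-/

set_option autoImplicit false

namespace Pool.Agent.PTN

open Pool.Agent.Lib_helper18 Pool.Agent.Lib_helper18.Eis Pool.Agent.Lib_helper84.Cub
open Pool.Agent.PT WeierstrassCurve.Affine

namespace KEX

theorem alg_inj : Function.Injective (algebraMap Eis (FractionRing Eis)) :=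
  IsFractionRing.injective Eis (FractionRing Eis)

theorem charZero : CharZero (FractionRing Eis) := by
  refine ⟨fun m n h => ?_⟩
  have h1 : algebraMap Eis (FractionRing Eis) (m : Eis) =
      algebraMap Eis (FractionRing Eis) (n : Eis) := by
    rw [map_natCast, map_natCast]
    exact h
  have h2 := congrArg Eis.re (alg_inj h1)
  rw [natCast_re, natCast_re] at h2
  exact_mod_cast h2

theorem conj_inj : Function.Injective
    ((algebraMap Eis (FractionRing Eis)).comp Eis.conj) := by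
  intro a b h
  have h1 : Eis.conj a = Eis.conj b := alg_inj h
  rw [← conj_conj a, ← conj_conj b, h1]

end KEX

open _root_.Pool.Agent.PTN.KEX in
theorem KEX_thm : Stmt_KEX := by
  classical
  refine ⟨FractionRing Eis, inferInstance, charZero, inferInstance,
    algebraMap Eis (FractionRing Eis), ?_⟩
  have hc := charZero
  refine ⟨(IsFractionRing.lift conj_inj : FractionRing Eis →+* FractionRing Eis).toRatAlgHom,
    alg_inj, ?_, ?_⟩
  · intro e
    exact IsFractionRing.lift_algebraMap conj_inj e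
  · intro z
    obtain ⟨a, b, hb, rfl⟩ := IsFractionRing.div_surjective (A := Eis) z
    have hb0 : b ≠ 0 := nonZeroDivisors.ne_zero hb
    have hbi : algebraMap Eis (FractionRing Eis) b ≠ 0 := fun h =>
      hb0 (alg_inj (h.trans (map_zero _).symm))
    refine ⟨a * Eis.conj b, b.norm, (norm_pos hb0).ne', ?_⟩
    have h1 : ((b.norm : ℤ) : FractionRing Eis) =
        algebraMap Eis (FractionRing Eis) b * algebraMap Eis (FractionRing Eis) (Eis.conj b) := by
      rw [← map_mul, mul_conj, map_intCast]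
    rw [h1, map_mul]
    field_simp

end Pool.Agent.PTN


end

section

/-!
# PTN_KAD: the Kummer map is a homomorphism modulo cubes
-/

set_option autoImplicit false

namespace Pool.Agent.PTN

open Pool.Agent.Lib_helper18 Pool.Agent.Lib_helper18.Eis Pool.Agent.Lib_helper84.Cub
open Pool.Agent.PT WeierstrassCurve.Affine

namespace KAD

/-- the line through three points of sum zero -/
lemma line_of_sum {K : Type} [Field K] [DecidableEq K] {W : WeierstrassCurve.Affine K} {d : K}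
    (a1 : W.a₁ = 0) (a2 : W.a₂ = 0) (a3 : W.a₃ = 0) (a4 : W.a₄ = 0) (a6 : W.a₆ = d)
    {x1 y1 x2 y2 x3 y3 : K} {h1 : W.Nonsingular x1 y1}
    {h2 : W.Nonsingular x2 y2} {h3 : W.Nonsingular x3 y3}
    (h : (Point.some x1 y1 h1 + Point.some x2 y2 h2 + Point.some x3 y3 h3 : W.Point) = 0) :
    ∃ ℓ μ : K, y1 = ℓ * x1 + μ ∧ y2 = ℓ * x2 + μ ∧ y3 = ℓ * x3 + μ ∧ x1 + x2 + x3 = ℓ ^ 2 ∧
      x1 * x2 + x1 * x3 + x2 * x3 = -2 * ℓ * μ ∧ x1 * x2 * x3 = μ ^ 2 - d := by
  by_cases hxy : x1 = x2 ∧ y1 = W.negY x2 y2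
  · rw [Point.add_of_Y_eq hxy.1 hxy.2, zero_add] at h
    exact absurd h (Point.some_ne_zero _)
  have hR : (Point.some x3 y3 h3 : W.Point) = -(Point.some x1 y1 h1 + Point.some x2 y2 h2) := by
    rw [eq_neg_iff_add_eq_zero, add_comm]
    exact h
  rw [Point.add_some hxy, Point.neg_some, Point.some.injEq] at hR
  obtain ⟨hx3, hy3⟩ := hR
  have hp := addPolynomial_slope h1.1 h2.1 hxy
  set ℓ := W.slope x1 x2 y1 y2 with hℓ
  rw [addPolynomial_eq, neg_inj, Cubic.prod_X_sub_C_eq, Cubic.toPoly_injective] at hp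
  rw [← hx3] at hp
  simp only [Cubic.mk.injEq] at hp
  obtain ⟨-, hb, hc, hd⟩ := hp
  have hx3' : x3 = ℓ ^ 2 - x1 - x2 := by
    rw [hx3, addX, a1, a2]
    ring
  have hy3' : y3 = ℓ * (x3 - x1) + y1 := by
    rw [hy3, addY, negY_negY, negAddY, ← hx3]
  rw [a1, a3, a4] at hc
  rw [a3, a6] at hd
  refine ⟨ℓ, y1 - ℓ * x1, by ring, ?_, ?_, ?_, ?_, ?_⟩
  · by_cases hx : x1 = x2
    · have hy : y1 ≠ W.negY x2 y2 := fun h => hxy ⟨hx, h⟩
      have := Y_eq_of_Y_ne h1.1 h2.1 hx hy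
      rw [← this, ← hx]
      ring
    · rw [hℓ, slope_of_X_ne hx]
      have : x1 - x2 ≠ 0 := sub_ne_zero.2 hx
      field_simp
      ring
  · rw [hy3']
    ring
  · rw [hx3']
    ring
  · linear_combination (-1 : K) * hc
  · linear_combination hd

variable {K : Type} [Field K] [CharZero K]

/-- the value of the Kummer map -/
def kv [DecidableEq K] (s y : K) : K := if y = s then (y + s) ^ 2 else y - s

variable [DecidableEq K]

lemma kv_pos (s : K) : kv s s = (2 * s) ^ 2 := by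
  unfold kv
  rw [if_pos rfl]
  ring

lemma kv_neg {s y : K} (h : y ≠ s) : kv s y = y - s := if_neg h

lemma kv_ne {s : K} (hs : s ≠ 0) (y : K) : kv s y ≠ 0 := by
  by_cases h : y = s
  · rw [h, kv_pos]
    exact pow_ne_zero _ (mul_ne_zero two_ne_zero hs)
  · rw [kv_neg h]
    exact sub_ne_zero.2 h

lemma kv_cube_neg {s x y : K} (hs : s ≠ 0) (h : y ^ 2 = x ^ 3 + s ^ 2) :
    ∃ g : K, g ≠ 0 ∧ kv s (-y) * kv s y = g ^ 3 := by
  have key : ∃ g : K, kv s (-y) * kv s y = g ^ 3 := by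
    by_cases h1 : y = s
    · have h2 : -s ≠ s := by
        intro h3
        have h4 : 2 * s = 0 := by linear_combination -h3
        rcases mul_eq_zero.1 h4 with h5 | h5
        · exact two_ne_zero h5
        · exact hs h5
      rw [h1, kv_pos, kv_neg h2]
      exact ⟨-2 * s, by ring⟩
    · by_cases h2 : -y = s
      · rw [h2, kv_pos, kv_neg h1]
        exact ⟨-2 * s, by rw [← h2]; ring⟩
      · rw [kv_neg h1, kv_neg h2]
        exact ⟨-x, by linear_combination -h⟩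
  obtain ⟨g, hg⟩ := key
  refine ⟨g, ?_, hg⟩
  rintro rfl
  have h3 := mul_ne_zero (kv_ne hs (-y)) (kv_ne hs y)
  rw [hg] at h3
  simp at h3

lemma kv_line {s ℓ μ x1 x2 x3 y1 y2 y3 : K} (hs : s ≠ 0) (e1 : y1 ^ 2 = x1 ^ 3 + s ^ 2)
    (e2 : y2 ^ 2 = x2 ^ 3 + s ^ 2) (e3 : y3 ^ 2 = x3 ^ 3 + s ^ 2)
    (l1 : y1 = ℓ * x1 + μ) (l2 : y2 = ℓ * x2 + μ) (l3 : y3 = ℓ * x3 + μ)
    (s1 : x1 + x2 + x3 = ℓ ^ 2) (s2 : x1 * x2 + x1 * x3 + x2 * x3 = -2 * ℓ * μ)
    (s3 : x1 * x2 * x3 = μ ^ 2 - s ^ 2) (h1 : y1 = s) :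
    ∃ g : K, kv s y1 * kv s y2 * kv s y3 = g ^ 3 := by
  have hx : ∀ {x y : K}, y ^ 2 = x ^ 3 + s ^ 2 → y = s → x = 0 := by
    intro x y h h'
    rw [h'] at h
    have h2 : x ^ 3 = 0 := by linear_combination -h
    exact pow_eq_zero_iff (three_ne_zero) |>.1 h2
  have x10 : x1 = 0 := hx e1 h1
  have hμ : μ = s := by rw [← h1, l1, x10]; ring
  have h23 : x2 * x3 = -2 * ℓ * s := by
    rw [← hμ, ← s2, x10]
    ring
  by_cases h2 : x2 = 0
  · have hl : ℓ = 0 := by
      rw [h2, zero_mul] at h23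
      have h4 : ℓ * s = 0 := by
        have h5 : (2 : K) * (ℓ * s) = 0 := by linear_combination h23
        exact (mul_eq_zero.1 h5).resolve_left two_ne_zero
      exact (mul_eq_zero.1 h4).resolve_right hs
    have y2s : y2 = s := by rw [l2, h2, hl, hμ]; ring
    have y3s : y3 = s := by rw [l3, hl, hμ]; ring
    rw [h1, y2s, y3s, kv_pos]
    exact ⟨(2 * s) ^ 2, by ring⟩
  · by_cases h3 : x3 = 0
    · have hl : ℓ = 0 := by
        rw [h3, mul_zero] at h23
        have h4 : ℓ * s = 0 := by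
          have h5 : (2 : K) * (ℓ * s) = 0 := by linear_combination h23
          exact (mul_eq_zero.1 h5).resolve_left two_ne_zero
        exact (mul_eq_zero.1 h4).resolve_right hs
      have y2s : y2 = s := by rw [l2, hl, hμ]; ring
      exact absurd (hx e2 y2s) h2
    · have y2s : y2 ≠ s := fun h => h2 (hx e2 h)
      have y3s : y3 ≠ s := fun h => h3 (hx e3 h)
      rw [h1, kv_pos, kv_neg y2s, kv_neg y3s]
      refine ⟨-2 * s * ℓ, ?_⟩
      rw [l2, l3, hμ]
      linear_combination (2 * s) ^ 2 * ℓ ^ 2 * h23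

lemma kv_sum {s ℓ μ x1 x2 x3 y1 y2 y3 : K} (hs : s ≠ 0) (e1 : y1 ^ 2 = x1 ^ 3 + s ^ 2)
    (e2 : y2 ^ 2 = x2 ^ 3 + s ^ 2) (e3 : y3 ^ 2 = x3 ^ 3 + s ^ 2)
    (l1 : y1 = ℓ * x1 + μ) (l2 : y2 = ℓ * x2 + μ) (l3 : y3 = ℓ * x3 + μ)
    (s1 : x1 + x2 + x3 = ℓ ^ 2) (s2 : x1 * x2 + x1 * x3 + x2 * x3 = -2 * ℓ * μ)
    (s3 : x1 * x2 * x3 = μ ^ 2 - s ^ 2) :
    ∃ g : K, g ≠ 0 ∧ kv s y1 * kv s y2 * kv s y3 = g ^ 3 := by
  have key : ∃ g : K, kv s y1 * kv s y2 * kv s y3 = g ^ 3 := by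
    by_cases h1 : y1 = s
    · exact kv_line hs e1 e2 e3 l1 l2 l3 s1 s2 s3 h1
    · by_cases h2 : y2 = s
      · obtain ⟨g, hg⟩ := kv_line hs e2 e1 e3 l2 l1 l3 (by rw [← s1]; ring)
          (by rw [← s2]; ring) (by rw [← s3]; ring) h2
        exact ⟨g, by rw [← hg]; ring⟩
      · by_cases h3 : y3 = s
        · obtain ⟨g, hg⟩ := kv_line hs e3 e2 e1 l3 l2 l1 (by rw [← s1]; ring)
            (by rw [← s2]; ring) (by rw [← s3]; ring) h3
          exact ⟨g, by rw [← hg]; ring⟩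
        · rw [kv_neg h1, kv_neg h2, kv_neg h3]
          refine ⟨μ - s, ?_⟩
          rw [l1, l2, l3]
          linear_combination ℓ ^ 3 * s3 + ℓ ^ 2 * (μ - s) * s2 + ℓ * (μ - s) ^ 2 * s1
  obtain ⟨g, hg⟩ := key
  refine ⟨g, ?_, hg⟩
  rintro rfl
  have h3 := mul_ne_zero (mul_ne_zero (kv_ne hs y1) (kv_ne hs y2)) (kv_ne hs y3)
  rw [hg] at h3
  simp at h3

end KAD

open _root_.Pool.Agent.PTN.KAD in
theorem KAD_thm (h0 : Stmt_KEQ) : Stmt_KAD := by
  intro K _ _ _ ι c A hK hA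
  obtain ⟨hns, hs2, hs, -, -, -⟩ := h0 K ι c A hK hA
  set s := sD ι A with hsd
  set W := WeierstrassCurve.Affine.baseChange (CubeRank.EA A).toAffine K with hW
  have a1 : W.a₁ = 0 := by
    change algebraMap ℚ K (CubeRank.EA A).a₁ = 0
    simp [CubeRank.EA]
  have a2 : W.a₂ = 0 := by
    change algebraMap ℚ K (CubeRank.EA A).a₂ = 0
    simp [CubeRank.EA]
  have a3 : W.a₃ = 0 := by
    change algebraMap ℚ K (CubeRank.EA A).a₃ = 0
    simp [CubeRank.EA]
  have a4 : W.a₄ = 0 := by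
    change algebraMap ℚ K (CubeRank.EA A).a₄ = 0
    simp [CubeRank.EA]
  have a6 : W.a₆ = s ^ 2 := by
    rw [hs2]
    change algebraMap ℚ K (CubeRank.EA A).a₆ = _
    simp [CubeRank.EA]
  have heq : ∀ {x y : K}, W.Nonsingular x y → y ^ 2 = x ^ 3 + s ^ 2 := by
    intro x y h
    rw [(hns x y).1 h, hs2]
    ring
  have hkz : kap ι (0 : HH A K) = 1 := rfl
  have hks : ∀ (x y : K) (h : W.Nonsingular x y), kap ι (Point.some x y h : HH A K) = kv s y := by
    intro x y h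
    by_cases hy : y = s
    · have e1 : kap ι (Point.some x y h : HH A K) = (y + s) ^ 2 := if_pos hy
      have e2 : kv s y = (y + s) ^ 2 := if_pos hy
      rw [e1, e2]
    · have e1 : kap ι (Point.some x y h : HH A K) = y - s := if_neg hy
      have e2 : kv s y = y - s := if_neg hy
      rw [e1, e2]
  have hne : ∀ Q : HH A K, kap ι Q ≠ 0 := by
    intro Q
    rcases Q with _ | ⟨x, y, h⟩
    · change (1 : K) ≠ 0
      exact one_ne_zero
    · rw [hks]
      exact kv_ne hs y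
  have hneg : ∀ Q : HH A K, ∃ g : K, g ≠ 0 ∧ kap ι (-Q) * kap ι Q = g ^ 3 := by
    intro Q
    rcases Q with _ | ⟨x, y, h⟩
    · refine ⟨1, one_ne_zero, ?_⟩
      change (1 : K) * 1 = 1 ^ 3
      ring
    · have hy : W.negY x y = -y := by
        rw [negY, a1, a3]
        ring
      rw [Point.neg_some, hks, hks, hy]
      exact kv_cube_neg hs (heq h)
  have hsum : ∀ P Q R : HH A K, P ≠ 0 → Q ≠ 0 → R ≠ 0 → P + Q + R = 0 →
      ∃ g : K, g ≠ 0 ∧ kap ι P * kap ι Q * kap ι R = g ^ 3 := by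
    intro P Q R hP hQ hR h
    rcases P with _ | ⟨x1, y1, h1⟩
    · exact absurd rfl hP
    rcases Q with _ | ⟨x2, y2, h2⟩
    · exact absurd rfl hQ
    rcases R with _ | ⟨x3, y3, h3⟩
    · exact absurd rfl hR
    obtain ⟨ℓ, μ, l1, l2, l3, s1, s2, s3⟩ := line_of_sum a1 a2 a3 a4 a6 h
    rw [hks, hks, hks]
    exact kv_sum hs (heq h1) (heq h2) (heq h3) l1 l2 l3 s1 s2 s3
  refine ⟨hne, fun P Q => ?_⟩
  by_cases hP : P = 0
  · refine ⟨1, one_ne_zero, ?_⟩
    rw [hP, zero_add, hkz]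
    ring
  by_cases hQ : Q = 0
  · refine ⟨1, one_ne_zero, ?_⟩
    rw [hQ, add_zero, hkz]
    ring
  by_cases hPQ : P + Q = 0
  · obtain ⟨b, hb, hb'⟩ := hneg P
    have hQP : Q = -P := (neg_eq_of_add_eq_zero_right hPQ).symm
    refine ⟨b⁻¹, inv_ne_zero hb, ?_⟩
    rw [hPQ, hkz, hQP, mul_comm (kap ι P), hb', inv_pow, mul_inv_cancel₀ (pow_ne_zero _ hb)]
  obtain ⟨a, ha, ha'⟩ := hsum P Q (-(P + Q)) hP hQ (neg_ne_zero.2 hPQ) (add_neg_cancel _)
  obtain ⟨b, hb, hb'⟩ := hneg (P + Q)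
  refine ⟨b / a, div_ne_zero hb ha, ?_⟩
  have h1 := hne (-(P + Q))
  apply mul_left_cancel₀ h1
  rw [hb', div_pow]
  have h2 : kap ι (-(P + Q)) * (kap ι P * kap ι Q * (b ^ 3 / a ^ 3)) =
      (kap ι P * kap ι Q * kap ι (-(P + Q))) * (b ^ 3 / a ^ 3) := by ring
  rw [h2, ha', mul_div_cancel₀]
  exact pow_ne_zero _ ha

end Pool.Agent.PTN


end

section

/-!
# The law of the ranks of prime twists for every `n`: the relation between the dimensions
-/

set_option autoImplicit false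

open NumberField IsDedekindDomain Finset
open scoped nonZeroDivisors Pointwise

namespace Pool.Agent.PTN

open Pool.Agent.Lib_helper18 Pool.Agent.Lib_helper18.Eis Pool.Agent.Lib_helper84.Cub
open Pool.Agent.PT Pool.Agent.PTE Pool.Agent.PT3

namespace NDIM

theorem ker_dim {α β : Type} [Fintype β] (M : Matrix α β (ZMod 3)) (R : α → Prop)
    (S : β → Prop) [DecidablePred S] [Fintype {b // S b}] (U : Submodule (ZMod 3) (β → ZMod 3))
    (hU : ∀ u, u ∈ U ↔ (∀ a, R a → M.mulVec u a = 0) ∧ ∀ b, ¬ S b → u b = 0) :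
    Module.finrank (ZMod 3) U +
      (M.submatrix (fun a : {a // R a} => a.1) (fun b : {b // S b} => b.1)).rank =
      Fintype.card {b // S b} := by
  set A : Matrix {a // R a} {b // S b} (ZMod 3) :=
    M.submatrix (fun a : {a // R a} => a.1) (fun b : {b // S b} => b.1) with hA
  have key : ∀ (u : β → ZMod 3), (∀ b, ¬ S b → u b = 0) → ∀ a : {a // R a},
      M.mulVec u a.1 = A.mulVec (fun b => u b.1) a := by
    intro u hu a
    rw [Matrix.mulVec, Matrix.mulVec, dotProduct, dotProduct]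
    rw [← Finset.sum_subset (Finset.subset_univ (Finset.univ.filter S))]
    · exact Finset.sum_subtype (Finset.univ.filter S) (p := S) (by simp)
        (fun b => M a.1 b * u b)
    · intro b _ hb
      rw [hu b (by simpa using hb), mul_zero]
  let e : U ≃ₗ[ZMod 3] LinearMap.ker A.mulVecLin :=
    { toFun := fun u => ⟨fun b => u.1 b.1, by
        rw [LinearMap.mem_ker, Matrix.mulVecLin_apply]
        funext a
        obtain ⟨h1, h2⟩ := (hU u.1).1 u.2
        rw [← key u.1 h2 a]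
        exact h1 a.1 a.2⟩
      map_add' := fun u v => rfl
      map_smul' := fun t u => rfl
      invFun := fun w => ⟨fun b => if h : S b then w.1 ⟨b, h⟩ else 0, by
        rw [hU]
        have h2 : ∀ b, ¬ S b → (fun b => if h : S b then w.1 ⟨b, h⟩ else 0) b = 0 := by
          intro b hb
          exact dif_neg hb
        refine ⟨fun a ha => ?_, h2⟩
        rw [key _ h2 ⟨a, ha⟩]
        have h3 : (fun b : {b // S b} => (if h : S b.1 then w.1 ⟨b.1, h⟩ else 0)) = w.1 := by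
          funext b
          exact dif_pos b.2
        rw [h3]
        have h4 := w.2
        rw [LinearMap.mem_ker, Matrix.mulVecLin_apply] at h4
        exact congrFun h4 ⟨a, ha⟩⟩
      left_inv := fun u => by
        apply Subtype.ext
        funext b
        show (if h : S b then u.1 b else 0) = u.1 b
        split_ifs with h
        · rfl
        · exact (((hU u.1).1 u.2).2 b h).symm
      right_inv := fun w => by
        apply Subtype.ext
        funext b
        exact dif_pos b.2 }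
  have h1 := e.finrank_eq
  have h2 := LinearMap.finrank_range_add_finrank_ker A.mulVecLin
  have h3 : A.rank = Module.finrank (ZMod 3) (LinearMap.range A.mulVecLin) := rfl
  rw [h1, h3, Nat.add_comm, h2, Module.finrank_pi]

end NDIM

open _root_.Pool.Agent.PTN.NDIM in
theorem NDIM_thm : Stmt_NDIM := by
  classical
  intro h n m k π p e r w0 c
  have h1 := ker_dim (Nm h n π p e r w0 c) (fun a => a ≠ 0 ∨ actR h n w0)
    (fun b => h ≠ 0 ∨ b ≠ Sum.inl 0) (US h n π p e r w0 c) (by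
      intro u
      constructor
      · rintro ⟨g1, g2, g3⟩
        refine ⟨fun a ha => ?_, fun b hb => ?_⟩
        · rcases Fin.eq_zero_or_eq_succ a with rfl | ⟨i, rfl⟩
          · rcases ha with ha | ha
            · exact absurd rfl ha
            · exact g2 ha
          · exact g1 i
        · push Not at hb
          rw [hb.2]
          exact g3 hb.1
      · rintro ⟨g1, g2⟩
        refine ⟨fun i => g1 _ (Or.inl (Fin.succ_ne_zero i)), fun ha => g1 0 (Or.inr ha),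
          fun h0 => g2 _ ?_⟩
        push Not
        exact ⟨h0, rfl⟩)
  have h2 := ker_dim (Nm h n π p e r w0 c).transpose (fun b => h ≠ 0 ∨ b ≠ Sum.inl 0)
    (fun a => a ≠ 0 ∨ actR h n w0) (VS h n π p e r w0 c) (by
      intro y
      constructor
      · rintro ⟨g1, g2⟩
        refine ⟨fun b hb => ?_, fun a ha => ?_⟩
        · rw [Matrix.mulVec_transpose]
          refine g2 b fun h0 => ?_
          rcases hb with hb | hb
          · exact absurd h0 hb
          · exact hb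
        · push Not at ha
          rw [ha.1]
          exact g1 ha.2
      · rintro ⟨g1, g2⟩
        refine ⟨fun ha => g2 0 ?_, fun b hb => ?_⟩
        · push Not
          exact ⟨rfl, ha⟩
        · have h3 := g1 b (by
            by_cases h0 : h = 0
            · exact Or.inr (hb h0)
            · exact Or.inl h0)
          rw [Matrix.mulVec_transpose] at h3
          exact h3)
  have h3 : ((Nm h n π p e r w0 c).transpose.submatrix
      (fun a : {b : Col m k // h ≠ 0 ∨ b ≠ Sum.inl 0} => a.1)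
      (fun b : {a : Fin (m + 1) // a ≠ 0 ∨ actR h n w0} => b.1)).rank =
      ((Nm h n π p e r w0 c).submatrix
      (fun b : {a : Fin (m + 1) // a ≠ 0 ∨ actR h n w0} => b.1)
      (fun a : {b : Col m k // h ≠ 0 ∨ b ≠ Sum.inl 0} => a.1)).rank := by
    rw [← Matrix.rank_transpose]
    rfl
  rw [h3] at h2
  have hC : Fintype.card {b : Col m k // h ≠ 0 ∨ b ≠ Sum.inl 0} =
      m + k + (if h = 0 then 0 else 1) := by
    by_cases h0 : h = 0
    · rw [if_pos h0]
      have e1 : Fintype.card {b : Col m k // h ≠ 0 ∨ b ≠ Sum.inl 0} =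
          Fintype.card {b : Col m k // b ≠ Sum.inl 0} :=
        Fintype.card_congr (Equiv.subtypeEquivRight fun b => by simp [h0])
      rw [e1, Fintype.card_subtype_compl, Fintype.card_sum, Fintype.card_fin, Fintype.card_fin,
        Fintype.card_subtype_eq]
      omega
    · rw [if_neg h0]
      have e1 : Fintype.card {b : Col m k // h ≠ 0 ∨ b ≠ Sum.inl 0} = Fintype.card (Col m k) :=
        Fintype.card_congr (Equiv.subtypeUnivEquiv fun b => Or.inl h0)
      rw [e1, Fintype.card_sum, Fintype.card_fin, Fintype.card_fin]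
      omega
  have hR : Fintype.card {a : Fin (m + 1) // a ≠ 0 ∨ actR h n w0} =
      m + (if actR h n w0 then 1 else 0) := by
    by_cases h0 : actR h n w0
    · rw [if_pos h0]
      have e1 : Fintype.card {a : Fin (m + 1) // a ≠ 0 ∨ actR h n w0} =
          Fintype.card (Fin (m + 1)) :=
        Fintype.card_congr (Equiv.subtypeUnivEquiv fun b => Or.inr h0)
      rw [e1, Fintype.card_fin]
    · rw [if_neg h0]
      have e1 : Fintype.card {a : Fin (m + 1) // a ≠ 0 ∨ actR h n w0} =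
          Fintype.card {a : Fin (m + 1) // a ≠ 0} :=
        Fintype.card_congr (Equiv.subtypeEquivRight fun b => by simp [h0])
      rw [e1, Fintype.card_subtype_compl, Fintype.card_fin, Fintype.card_subtype_eq]
      omega
  have h4 : Module.finrank (ZMod 3) (US h n π p e r w0 c) = sN h n π p e r w0 c := rfl
  have h5 : Module.finrank (ZMod 3) (VS h n π p e r w0 c) = vN h n π p e r w0 c := rfl
  rw [h4] at h1
  rw [h5] at h2
  rw [← Fintype.card_congr (Equiv.refl {b : Col m k // h ≠ 0 ∨ b ≠ Sum.inl 0})] at h1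
  have hC' := hC
  have hR' := hR
  generalize Fintype.card {b : Col m k // h ≠ 0 ∨ b ≠ Sum.inl 0} = cC at *
  generalize Fintype.card {a : Fin (m + 1) // a ≠ 0 ∨ actR h n w0} = cR at *
  omega

end Pool.Agent.PTN


end

section

/-!
# NADU: `AdN` and the local conditions for the primes `q = 1 (mod 3)`

Follows `Pool/Agent/PT3/EADU.lean`.
-/

set_option autoImplicit false

namespace Pool.Agent.PTN

open Pool.Agent.Lib_helper18 Pool.Agent.Lib_helper18.Eis Pool.Agent.Lib_helper84.Cub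
open Pool.Agent.PT Pool.Agent.PTE Pool.Agent.PT3

namespace NADU

open Pool.Agent.PT.EADM

theorem ch_pow' {π a : Eis} (hπ : Prime π) (h3 : ¬ π ∣ 3) (ha : a ≠ 0) (E : ℕ) :
    ch π (a ^ E) = (E : ZMod 3) * ch π a := by
  induction E with
  | zero =>
    have h1 : ch π (1 * 1 : Eis) = ch π 1 + ch π 1 := ch_mul hπ h3 one_ne_zero one_ne_zero
    rw [one_mul] at h1
    have h2 : ch π (1 : Eis) = 0 := by
      have h4 := sub_eq_zero.2 h1
      linear_combination - h4
    rw [pow_zero, h2, Nat.cast_zero, zero_mul]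
  | succ k ih =>
    rw [pow_succ, ch_mul hπ h3 (pow_ne_zero _ ha) ha, ih]
    push_cast
    ring

theorem below_ne {π : PP} {l : ℕ} (h : Below π l) : l ≠ 3 := by
  rcases h.h with ⟨h1, _⟩ | ⟨h1, _⟩ <;> omega

/-- the type of `B` at `3` -/
theorem type (hLCL : LCL) {h n E q : ℕ} {w0 : ZMod 3} (hh : h ≤ 2)
    (hn0 : n ≠ 0) (hn3 : ¬ 3 ∣ n) (hq0 : q ≠ 0) (hq3 : ¬ 3 ∣ q)
    (hw : wt (((q : ℤ) ^ E) ^ 2) = w0) : TyB h n w0 (BB h n E q) := by
  obtain ⟨-, hL2, ⟨hL3, hL4⟩, hL5, -⟩ := hLCL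
  have hn : (n : ℤ) ≠ 0 := by exact_mod_cast hn0
  have hq : (q : ℤ) ≠ 0 := by exact_mod_cast hq0
  have hqE : (q : ℤ) ^ E ≠ 0 := pow_ne_zero _ hq
  have h3n : ¬ (3 : ℤ) ∣ (n : ℤ) := fun h => hn3 (by exact_mod_cast h)
  have h3q : ¬ (3 : ℤ) ∣ (q : ℤ) ^ E := by
    intro h
    have h1 : (3 : ℤ) ∣ (q : ℤ) := Int.prime_three.dvd_of_dvd_pow h
    exact hq3 (by exact_mod_cast h1)
  have h3h : (3 : ℤ) ^ h ≠ 0 := pow_ne_zero _ (by norm_num)
  have hp : lv ((3 : ℤ) ^ h) = (h : ZMod 3) ∧ lw ((3 : ℤ) ^ h) = 0 := by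
    interval_cases h
    · have h1 := hL2 1 1 (by norm_num) (by norm_num)
      rw [mul_one] at h1
      have h2 : lv 1 = 0 := by
        have h3 := h1.1
        linear_combination - h3
      have h4 : lw 1 = 0 := by
        have h3 := h1.2
        linear_combination - h3
      rw [pow_zero, h2, h4]
      exact ⟨by norm_num, rfl⟩
    · rw [pow_one]
      exact ⟨by rw [hL3]; norm_num, hL4⟩
    · have h1 := hL2 3 3 (by norm_num) (by norm_num)
      have h2 : (3 : ℤ) ^ 2 = 3 * 3 := by norm_num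
      rw [h2, h1.1, h1.2, hL3, hL4]
      constructor
      · decide
      · ring
  have hB : BB h n E q ≠ 0 := mul_ne_zero (mul_ne_zero h3h hn) hqE
  obtain ⟨h1, h2⟩ := hL2 ((3 : ℤ) ^ h * n) ((q : ℤ) ^ E) (mul_ne_zero h3h hn) hqE
  obtain ⟨h3, h4⟩ := hL2 ((3 : ℤ) ^ h) n h3h hn
  obtain ⟨h5, h6⟩ := hL5 n h3n
  obtain ⟨h7, h8⟩ := hL5 _ h3q
  refine ⟨hB, ?_, ?_⟩
  · unfold BB
    rw [h1, h3, hp.1, h5, h7]
    ring
  · unfold BB
    rw [h2, h4, hp.2, h6, h8, hw]
    ring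

/-- the conditions on `B` -/
theorem bt {h n m k : ℕ} {π : Fin m → PP} {p e : Fin m → ℕ} {r f : Fin k → ℕ} {E q : ℕ}
    (hN : NF n π p e r f) (hh : h ≤ 2) (hE : E = 1 ∨ E = 2) (hq : q.Prime)
    (hq3 : ¬ 3 ∣ q) (hqn : ¬ q ∣ n) (hbelow : ∀ π : PP, ∃ l, Below π l) :
    BG (BB h n E q) := by
  have _ := hh
  have hn0 : n ≠ 0 := n_ne hN
  have hn3 : ¬ 3 ∣ n := three_not hN
  have _ := hn3
  have _ := hq3
  have e0 : BB h n E q = ((3 ^ h * (n * q ^ E) : ℕ) : ℤ) := by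
    unfold BB
    push_cast
    ring
  have hne : 3 ^ h * (n * q ^ E) ≠ 0 :=
    mul_ne_zero (pow_ne_zero _ (by norm_num)) (mul_ne_zero hn0 (pow_ne_zero _ hq.ne_zero))
  refine ⟨?_, ?_⟩
  · rw [e0]
    exact_mod_cast hne
  · intro ϖ
    obtain ⟨l, hl⟩ := hbelow ϖ
    have hl3 := below_ne hl
    rw [e0, Int.cast_natCast, hl.V_nat hne,
      Nat.factorization_mul (pow_ne_zero _ (by norm_num))
        (mul_ne_zero hn0 (pow_ne_zero _ hq.ne_zero)), Finsupp.add_apply,
      Nat.factorization_mul hn0 (pow_ne_zero _ hq.ne_zero), Finsupp.add_apply]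
    have h1 := fac_le hN l
    have h0 : (3 ^ h).factorization l = 0 := by
      apply Nat.factorization_eq_zero_of_not_dvd
      intro h2
      exact hl3 ((Nat.prime_dvd_prime_iff_eq hl.pr Nat.prime_three).1 (hl.pr.dvd_of_dvd_pow h2))
    by_cases hlq : l = q
    · have h2 : n.factorization l = 0 := by
        rw [hlq]
        exact Nat.factorization_eq_zero_of_not_dvd hqn
      have h3 : (q ^ E).factorization l = E := by
        rw [hlq, hq.factorization_pow, Finsupp.single_eq_same]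
      omega
    · have h3 : (q ^ E).factorization l = 0 := by
        apply Nat.factorization_eq_zero_of_not_dvd
        intro h2
        exact hlq ((Nat.prime_dvd_prime_iff_eq hl.pr hq).1 (hl.pr.dvd_of_dvd_pow h2))
      omega

end NADU

open Pool.Agent.PT.EADM _root_.Pool.Agent.PTN.NADU in
/-- PTN_NADU: `AdN` and the local conditions, `q = 1 (mod 3)`. -/
theorem NADU_thm (hSTM : STM) (hSPP : SPP) (hSCJ : SCJ) (hSPLT : SPLT) (hLCL : LCL) :
    Stmt_NADU := by
  have _ := hSTM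
  intro h n m k π p e r f w0 c E q ρ hN hh hE hq hq3 hcl hqn hqρ
  obtain ⟨_, hSPP2, _, hSPP4, _, hSPP6⟩ := hSPP
  obtain ⟨hSCJ1, _, _, hSCJ4⟩ := hSCJ
  obtain ⟨hqw, hqc⟩ := hcl
  obtain ⟨-, hsplit⟩ := hSPLT
  obtain ⟨-, -, hS3, hS4, -, -⟩ := hsplit q ρ hq hq3 hqρ
  have hn0 : n ≠ 0 := n_ne hN
  have hn3 : ¬ 3 ∣ n := three_not hN
  have hbelow : ∀ π : PP, ∃ l, Below π l := by
    intro π
    obtain ⟨l, hl, h⟩ := hSPP6 π
    exact ⟨l, hl, h⟩
  have h3q : ¬ 3 ∣ q := by omega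
  have hbt := bt hN hh hE hq h3q hqn hbelow
  have hty := NADU.type hLCL hh hn0 hn3 hq.ne_zero h3q hqw
  refine ⟨hbt, hty, ?_⟩
  have hB0 : BB h n E q ≠ 0 := hbt.ne
  intro x hsupp
  have hρ3 : ¬ ρ.1 ∣ 3 := (hSPP4 ρ).1
  have h3ne : ((3 ^ h * n : ℕ) : Eis) ≠ 0 := natCast_ne
    (mul_ne_zero (pow_ne_zero _ (by norm_num)) hn0)
  have hq0 : (q : Eis) ≠ 0 := natCast_ne hq.ne_zero
  have e1 : ((BB h n E q : ℤ) : Eis) = ((3 ^ h * n : ℕ) : Eis) * (q : Eis) ^ E := by
    unfold BB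
    push_cast
    ring
  -- divisors of `3 n`
  have hsupp' : ∀ l : ℕ, l.Prime → l ≠ 3 → (l : ℤ) ∣ x → l ∣ n := by
    intro l hl hl3 hlx
    rcases hl.dvd_mul.1 (hsupp l hl hlx) with h1 | h1
    · exact absurd ((Nat.prime_dvd_prime_iff_eq hl Nat.prime_three).1 h1) hl3
    · exact h1
  have hq3' : q ≠ 3 := by omega
  -- `ρ` does not divide `x`
  have hρx : ¬ ρ.1 ∣ (x : Eis) := fun h => hqn (hsupp' q hq hq3' ((hS4 x).1 h))
  have hρn : ¬ ρ.1 ∣ ((3 ^ h * n : ℕ) : Eis) := by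
    intro h1
    have h2 := (hS4 ((3 ^ h * n : ℕ) : ℤ)).1 (by rwa [Int.cast_natCast])
    have h3 : q ∣ 3 ^ h * n := by exact_mod_cast h2
    rcases hq.dvd_mul.1 h3 with h4 | h4
    · exact hq3' ((Nat.prime_dvd_prime_iff_eq hq Nat.prime_three).1 (hq.dvd_of_dvd_pow h4))
    · exact hqn h4
  -- the symbol at `ρ`
  have hVq : V ρ.1 (q : Eis) = 1 := by
    obtain ⟨l, hl⟩ := hbelow ρ
    have h1 : ρ.1 ∣ (q : Eis) := by rw [hqρ]; exact dvd_mul_right _ _
    have h2 : l = q := (Nat.prime_dvd_prime_iff_eq hl.pr hq).1 ((hl.dvd_nat _).1 h1)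
    rw [← h2]
    exact hl.V_self
  have hVB : V ρ.1 ((BB h n E q : ℤ) : Eis) = E := by
    rw [e1, V_mul ρ.2.1 h3ne (pow_ne_zero _ hq0), V_eq_zero hρn, V_pow ρ.2.1 hq0, hVq,
      zero_add, mul_one]
  have hrho : tm ρ.1 (x : Eis) ((BB h n E q : ℤ) : Eis) = (E : ZMod 3) * sym ρ.1 (x : Eis) := by
    unfold tm
    rw [hVB, V_eq_zero hρx, ch_unit ρ.2.1 hρx]
    simp
  have hE0 : (E : ZMod 3) ≠ 0 := by
    rcases hE with rfl | rfl <;> decide
  -- the conditions at the `π i`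
  have key : x ≠ 0 → ∀ i, (V (π i).1 (n : Eis) : ZMod 3) * ch (π i).1 (x : Eis) -
      (V (π i).1 (x : Eis) : ZMod 3) * (ch (π i).1 ((3 ^ h * n : ℕ) : Eis) + c i) =
      tm (π i).1 (x : Eis) ((BB h n E q : ℤ) : Eis) := by
    intro hx i
    obtain ⟨l, hl⟩ := hbelow (π i)
    have hpi : (p i : Eis) = (π i).1 * conj (π i).1 := hN.pπ i
    have hlp : l = p i := by
      have h1 : (π i).1 ∣ (p i : Eis) := by rw [hpi]; exact dvd_mul_right _ _
      exact (Nat.prime_dvd_prime_iff_eq hl.pr (hN.pp i)).1 ((hl.dvd_nat _).1 h1)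
    have hq' : ¬ (π i).1 ∣ (q : Eis) := by
      intro h
      have h1 := (Nat.prime_dvd_prime_iff_eq hl.pr hq).1 ((hl.dvd_nat _).1 h)
      apply hqn
      rw [← h1, hlp, hN.eq]
      have he : e i ≠ 0 := by
        have := hN.pe i
        omega
      exact Dvd.dvd.mul_right ((dvd_pow_self _ he).trans
        (Finset.dvd_prod_of_mem (fun i => p i ^ e i) (Finset.mem_univ i))) _
    have h3 : ¬ (π i).1 ∣ 3 := (hSPP4 (π i)).1
    have h3' : ¬ (π i).1 ∣ ((3 ^ h : ℕ) : Eis) := by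
      intro h4
      apply h3
      have h5 := (hl.dvd_nat _).1 h4
      have h6 := (hl.dvd_nat 3).2 (hl.pr.dvd_of_dvd_pow h5)
      exact_mod_cast h6
    have h30 : ((3 ^ h : ℕ) : Eis) ≠ 0 := natCast_ne (pow_ne_zero _ (by norm_num))
    have hV : V (π i).1 ((3 ^ h * n : ℕ) : Eis) = V (π i).1 (n : Eis) := by
      rw [Nat.cast_mul, V_mul (π i).2.1 h30 (natCast_ne hn0), V_eq_zero h3', zero_add]
    rw [e1]
    unfold tm
    rw [V_mul (π i).2.1 h3ne (pow_ne_zero _ hq0), V_pow (π i).2.1 hq0, V_eq_zero hq', mul_zero,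
      add_zero, hV, ch_mul (π i).2.1 h3 h3ne (pow_ne_zero _ hq0), ch_pow' (π i).2.1 h3 hq0 E,
      ch_unit (π i).2.1 hq', hqc i]
  have hwild : h = 2 ↔ lv (BB h n E q) = 2 := by
    rw [hty.2.1]
    clear * - hh
    interval_cases h <;> decide
  have hzero : h = 0 ↔ lv (BB h n E q) = 0 := by
    rw [hty.2.1]
    clear * - hh
    interval_cases h <;> decide
  constructor
  · rintro ⟨⟨⟨hx, _, hsym, h9⟩, h0⟩, hxρ⟩
    refine ⟨⟨hx, ?_, ?_⟩, fun h1 => ?_, fun h1 => ?_⟩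
    · intro ϖ
      obtain ⟨l, hl⟩ := hbelow ϖ
      rcases hl.h with ⟨hl3, hl2⟩ | ⟨hl3, hl2, hl4, hl5⟩
      · rw [hl2]
        exact hSCJ4 l hl.pr hl3 x _ hx hB0
      · by_cases hln : l ∣ n
        · rcases prime_dvd hN hl.pr hln with ⟨i, hi⟩ | ⟨j, hj⟩
          · have h4 : ϖ.1 ∣ (π i).1 * conj (π i).1 := by
              rw [← hN.pπ i, ← hi, hl4]
              exact dvd_mul_right _ _
            rcases ϖ.2.1.dvd_or_dvd h4 with h5 | h5
            · have h6 : ϖ = π i :=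
                hSPP2 _ _ (ϖ.2.1.associated_of_dvd (π i).2.1 h5)
              rw [h6, ← key hx i]
              exact hsym i
            · obtain ⟨ϖ', hϖ'⟩ := (hSPP4 (π i)).2
              have h6 : ϖ = ϖ' := by
                apply hSPP2
                rw [hϖ']
                exact ϖ.2.1.associated_of_dvd (prime_conj (π i).2.1) h5
              rw [h6, hϖ']
              have h7 := hSCJ1 (π i).1 (x : Eis) ((BB h n E q : ℤ) : Eis) (π i).2.1
                (hSPP4 (π i)).1 (intCast_ne hx) (intCast_ne hB0)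
              rw [map_intCast, map_intCast] at h7
              rw [h7, ← key hx i, hsym i, neg_zero]
          · have := hN.r2 j
            rw [← hj] at this
            omega
        · by_cases hlq : l = q
          · -- the primes above `q`
            have h4 : ϖ.1 ∣ (q : Eis) := by
              rw [← hlq, hl4]
              exact dvd_mul_right _ _
            rcases hS3 ϖ h4 with h5 | h5
            · rw [h5, hrho, hxρ, mul_zero]
            · rw [h5]
              have h7 := hSCJ1 ρ.1 (x : Eis) ((BB h n E q : ℤ) : Eis) ρ.2.1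
                hρ3 (intCast_ne hx) (intCast_ne hB0)
              rw [map_intCast, map_intCast] at h7
              rw [h7, hrho, hxρ, mul_zero, neg_zero]
          · have h4 : ¬ ϖ.1 ∣ (x : Eis) := by
              intro h
              exact hln (hsupp' l hl.pr (below_ne hl) ((hl.dvd_int x).1 h))
            have h5 : ¬ ϖ.1 ∣ ((BB h n E q : ℤ) : Eis) := by
              rw [e1]
              intro h6
              rcases ϖ.2.1.dvd_or_dvd h6 with h7 | h7
              · rcases hl.pr.dvd_mul.1 ((hl.dvd_nat _).1 h7) with h8 | h8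
                · exact below_ne hl ((Nat.prime_dvd_prime_iff_eq hl.pr Nat.prime_three).1
                    (hl.pr.dvd_of_dvd_pow h8))
                · exact hln h8
              · exact hlq ((Nat.prime_dvd_prime_iff_eq hl.pr hq).1
                  ((hl.dvd_nat _).1 (ϖ.2.1.dvd_of_dvd_pow h7)))
            unfold tm
            rw [V_eq_zero h4, V_eq_zero h5]
            simp
    · intro ϖ hϖ h1
      obtain ⟨l, hl⟩ := hbelow ϖ
      apply hϖ
      rw [e1]
      apply Dvd.dvd.mul_right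
      rw [hl.dvd_nat]
      exact (hsupp' l hl.pr (below_ne hl) ((hl.dvd_int x).1 h1)).mul_left _
    · have h2 := h9 (hwild.2 h1)
      rw [hty.2.2]
      exact h2
    · have h2 := h0 (hzero.2 h1)
      rw [hty.2.2]
      exact h2
  · rintro ⟨⟨hx, hsym, _⟩, h9, h0⟩
    refine ⟨⟨⟨hx, hsupp, fun i => ?_, fun h1 => ?_⟩, fun h1 => ?_⟩, ?_⟩
    · rw [key hx i]
      exact hsym (π i)
    · have h2 := h9 (hwild.1 h1)
      rw [hty.2.2] at h2
      exact h2
    · have h2 := h0 (hzero.1 h1)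
      rw [hty.2.2] at h2
      exact h2
    · have h1 := hsym ρ
      rw [hrho] at h1
      exact (mul_eq_zero.1 h1).resolve_left hE0

end Pool.Agent.PTN


end

section

/-!
# NPSI: the minus part of the Selmer group is bounded by `VS`, `B = 3^h n q^E`, `q = 2 (mod 3)`
-/

set_option autoImplicit false

namespace Pool.Agent.PTN

open Pool.Agent.Lib_helper18 Pool.Agent.Lib_helper18.Eis Pool.Agent.Lib_helper84.Cub
open Pool.Agent.PT Pool.Agent.PTE Pool.Agent.PT3 Pool.Agent.PT.EHYP Pool.Agent.PT3.HYPT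

namespace NPSI

/-- the vector of a class of the minus part -/
noncomputable def yv {m : ℕ} (π : Fin m → PP) (e : Fin m → ℕ) (z : Eis) : Fin (m + 1) → ZMod 3 :=
  Fin.cons (-sl z 4) fun i => (e i : ZMod 3) * (V (π i).1 z : ZMod 3)

/-- the vector is in `VS` -/
theorem yv_mem (hSPP : SPP) (hSSL : SSL) (hSCJ : SCJ) (hLCL : LCL) {h n m k : ℕ}
    {π : Fin m → PP} {p e : Fin m → ℕ} {r f : Fin k → ℕ} {w0 : ZMod 3} {c : Fin m → ZMod 3}
    {E q : ℕ} (hn : NF n π p e r f) (hh : h ≤ 2) (hE : E = 1 ∨ E = 2) (hq : q.Prime)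
    (hq2 : q % 3 = 2) (hcl : InCT E π w0 c q) (hqn : ¬ q ∣ n) {z : Eis}
    (hS : SelM (BB h n E q) z) : yv π e z ∈ VS h n π p e r w0 c := by
  obtain ⟨hw, hqs⟩ := hcl
  obtain ⟨hz, ⟨t, hzt⟩, htm, hun, hlam⟩ := hS
  have hD := dat hSPP hn (h := h) hE hq hq2 hqn
  have hq3 : ¬ 3 ∣ q := by omega
  have hqI := inert hSPP hq hq2
  have hn0 := HYPS.n_ne0 hn
  obtain ⟨hlv, hlw⟩ := lvw hLCL hn (h := h) hq hq3 hw
  have hsl := sl_int hSSL hLCL hz
  have hslB : sl z ((BB h n E q : ℤ) : Eis) = 0 := by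
    unfold sl
    rw [finsum_eq_zero_of_forall_eq_zero fun π => htm π, neg_zero]
  have hB := hsl _ hD.ne
  rw [hslB, hlv, hlw] at hB
  set μ : ZMod 3 := -sl z 4 with hμdef
  have : Fact (Nat.Prime 3) := ⟨Nat.prime_three⟩
  -- the values of the symbol
  have hμ : ∀ x : ℤ, x ≠ 0 → (h = 0 → lv x = 0) →
      sl z (x : Eis) = μ * (lw x + lv x * (wt ((n : ℤ) ^ 2) + w0)) := by
    intro x hx hx0
    obtain rfl | rfl | rfl : h = 0 ∨ h = 1 ∨ h = 2 := by omega
    · rw [hsl x hx, hx0 rfl]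
      ring
    · obtain ⟨h1, h2⟩ := hlam (by rw [hlv]; rfl)
      rw [hsl x hx, hμdef, h1, h2]
      ring
    · rw [hsl x hx, hμdef]
      have h3 := three_zero (lv x * sl z 3)
      push_cast at hB
      linear_combination h3 + (-lv x) * (-1) * hB
  -- the product formula
  have key : ∀ x : ℤ, x ≠ 0 → (h = 0 → lv x = 0) →
      (∀ σ : PP, σ.1 ∣ (x : Eis) → σ.1 ∣ ((BB h n E q : ℤ) : Eis)) →
      μ * (lw x + lv x * (wt ((n : ℤ) ^ 2) + w0)) +
        ∑ i, (e i : ZMod 3) * (V (π i).1 z : ZMod 3) *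
          tm (π i).1 (x : Eis) ((BB h n E q : ℤ) : Eis) = 0 := by
    intro x hx hx0 hxn
    rw [← hμ x hx hx0]
    exact prodf hSPP hSCJ hD hz hzt htm hun x hx hxn
  have hi : ∀ i, Prime (π i).1 := fun i => (π i).2.1
  have h3 : ∀ i, ¬ (π i).1 ∣ 3 := fun i => (hSPP.2.2.2.1 (π i)).1
  have hqi : ∀ i, ¬ (π i).1 ∣ (q : Eis) := fun i h5 =>
    not_assoc_nat hn i q ((hi i).associated_of_dvd hqI.1 h5)
  have hcB : ∀ i, ch (π i).1 ((BB h n E q : ℤ) : Eis) =
      ch (π i).1 ((3 ^ h * n : ℕ) : Eis) + c i := fun i => by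
    have h1 : ((3 ^ h * n : ℕ) : Eis) = 3 ^ h * (n : Eis) := by push_cast; rfl
    have h2 := (add3_ch (hi i) (h3 i)).pow hqI.1.ne_zero E
    rw [BB_cast, h1, ch_mul (hi i) (h3 i) (mul_ne_zero (pow_ne_zero _ three_ne) hn0)
      (pow_ne_zero _ hqI.1.ne_zero), h2, ch_of_not_dvd (hi i) (hqi i), hqs i]
  have hpn : ∀ i, (p i : Eis) ∣ (n : Eis) := fun i => by
    have h1 : p i ∣ n := by
      rw [hn.eq]
      refine Dvd.dvd.mul_right ?_ _
      have h1 : p i ^ e i ∣ ∏ i, p i ^ e i := Finset.dvd_prod_of_mem _ (Finset.mem_univ i)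
      refine (dvd_pow_self _ ?_).trans h1
      have := hn.pe i
      omega
    obtain ⟨d, hd⟩ := h1
    exact ⟨(d : Eis), by rw [hd]; push_cast; rfl⟩
  have hrn : ∀ j, (r j : Eis) ∣ (n : Eis) := fun j => by
    have h1 : r j ∣ n := by
      rw [hn.eq]
      refine Dvd.dvd.mul_left ?_ _
      have h1 : r j ^ f j ∣ ∏ j, r j ^ f j := Finset.dvd_prod_of_mem _ (Finset.mem_univ j)
      refine (dvd_pow_self _ ?_).trans h1
      have := hn.rf j
      omega
    obtain ⟨d, hd⟩ := h1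
    exact ⟨(d : Eis), by rw [hd]; push_cast; rfl⟩
  constructor
  · intro hact
    change -sl z 4 = 0
    obtain rfl | rfl | rfl : h = 0 ∨ h = 1 ∨ h = 2 := by omega
    · have h1 : wt ((n : ℤ) ^ 2) + w0 ≠ 0 := fun h1 => hact (Or.inr ⟨rfl, h1⟩)
      push_cast at hB
      rw [zero_mul, zero_sub] at hB
      have h2 : (wt ((n : ℤ) ^ 2) + w0) * sl z 4 = 0 := neg_eq_zero.1 hB.symm
      rw [(mul_eq_zero.1 h2).resolve_left h1, neg_zero]
    · rw [(hlam (by rw [hlv]; rfl)).2, neg_zero]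
    · exact absurd (Or.inl rfl) hact
  · intro b hb
    rcases b with b | j
    · revert hb
      refine Fin.cases (fun hb => ?_) (fun i' hb => ?_) b
      · have h1 : Matrix.vecMul (yv π e z) (Nm h n π p e r w0 c) (Sum.inl 0) =
            μ * (wt ((n : ℤ) ^ 2) + w0) +
              ∑ i, (e i : ZMod 3) * (V (π i).1 z : ZMod 3) *
              ((e i : ZMod 3) * sym (π i).1 3) := by
          simp [Matrix.vecMul, dotProduct, Nm, yv, Fin.sum_univ_succ, hμdef]
        rw [h1]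
        have h2 := key 3 (by norm_num) (fun h0 => absurd rfl (hb h0))
          (fun σ hσ => absurd (by push_cast at hσ; exact hσ) (hSPP.2.2.2.1 σ).1)
        rw [hLCL.2.2.1.1, hLCL.2.2.1.2, one_mul, zero_add] at h2
        rw [← h2]
        congr 1
        refine Finset.sum_congr rfl fun i _ => ?_
        congr 1
        push_cast
        unfold tm
        rw [hD.vB i, V_eq_zero (h3 i), ch_of_not_dvd (hi i) (h3 i)]
        simp
      · have h1 : Matrix.vecMul (yv π e z) (Nm h n π p e r w0 c) (Sum.inl i'.succ) =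
            μ * wt ((p i' : ℤ) ^ 2) +
              ∑ i, (e i : ZMod 3) * (V (π i).1 z : ZMod 3) *
              (if i' = i then (e i : ZMod 3) * sym (π i).1 (conj (π i).1) -
                ch (π i).1 ((3 ^ h * n : ℕ) : Eis) - c i
              else (e i : ZMod 3) * sym (π i).1 (p i' : Eis)) := by
          simp [Matrix.vecMul, dotProduct, Nm, yv, Fin.sum_univ_succ, hμdef]
        rw [h1]
        have h4 := hLCL.2.2.2.1 (p i' : ℤ) fun h5 => by
          have h6 : 3 ∣ p i' := by exact_mod_cast h5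
          have := hn.p1 i'
          omega
        have h2 := key (p i') (by exact_mod_cast (hn.pp i').ne_zero) (fun _ => h4.1)
          (fun σ hσ => by
            rw [Int.cast_natCast] at hσ
            exact (dvd_iff hSPP hE σ).2 (Or.inl (hσ.trans (hpn i'))))
        rw [h4.1, h4.2, zero_mul, add_zero] at h2
        rw [← h2]
        congr 1
        refine Finset.sum_congr rfl fun i _ => ?_
        congr 1
        rw [Int.cast_natCast]
        unfold tm
        rw [hD.vB i, hcB i]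
        split_ifs with hii
        · subst hii
          have hcj : ¬ (π i').1 ∣ conj (π i').1 := fun h5 =>
            not_assoc hn i' i' ((hi i').associated_of_dvd (prime_conj (π i').2.1) h5)
          rw [hn.pπ i', V_mul (hi i') (hi i').ne_zero (prime_conj (π i').2.1).ne_zero, V_self,
            V_eq_zero hcj, ch_mul (hi i') (h3 i') (hi i').ne_zero
              (prime_conj (π i').2.1).ne_zero, ch_self (hi i') (h3 i'),
            ch_of_not_dvd (hi i') hcj]
          push_cast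
          ring
        · have hnd : ¬ (π i).1 ∣ (p i' : Eis) := by
            rw [hn.pπ i']
            intro h5
            rcases (hi i).dvd_or_dvd h5 with h5 | h5
            · exact hii (assoc_iff hn i i' ((hi i).associated_of_dvd (π i').2.1 h5)).symm
            · exact not_assoc hn i i' ((hi i).associated_of_dvd (prime_conj (π i').2.1) h5)
          rw [V_eq_zero hnd, ch_of_not_dvd (hi i) hnd]
          push_cast
          ring
    · have h1 : Matrix.vecMul (yv π e z) (Nm h n π p e r w0 c) (Sum.inr j) =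
          μ * wt ((r j : ℤ) ^ 2) +
            ∑ i, (e i : ZMod 3) * (V (π i).1 z : ZMod 3) *
            ((e i : ZMod 3) * sym (π i).1 (r j : Eis)) := by
        simp [Matrix.vecMul, dotProduct, Nm, yv, Fin.sum_univ_succ, hμdef]
      rw [h1]
      have h4 := hLCL.2.2.2.1 (r j : ℤ) fun h5 => by
        have h6 : 3 ∣ r j := by exact_mod_cast h5
        have := hn.r2 j
        omega
      have h2 := key (r j) (by exact_mod_cast (hn.rp j).ne_zero) (fun _ => h4.1)
        (fun σ hσ => by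
          rw [Int.cast_natCast] at hσ
          exact (dvd_iff hSPP hE σ).2 (Or.inl (hσ.trans (hrn j))))
      rw [h4.1, h4.2, zero_mul, add_zero] at h2
      rw [← h2]
      congr 1
      refine Finset.sum_congr rfl fun i _ => ?_
      congr 1
      rw [Int.cast_natCast]
      unfold tm
      have hjI := inert hSPP (hn.rp j) (hn.r2 j)
      have hnd : ¬ (π i).1 ∣ (r j : Eis) := fun h5 =>
        not_assoc_nat hn i (r j) ((hi i).associated_of_dvd hjI.1 h5)
      rw [hD.vB i, V_eq_zero hnd, ch_of_not_dvd (hi i) hnd]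
      push_cast
      ring

/-- two classes with the same vector differ by a cube -/
theorem yv_inj (hSPP : SPP) (hSSL : SSL) (hLCL : LCL) {h n m k : ℕ}
    {π : Fin m → PP} {p e : Fin m → ℕ} {r f : Fin k → ℕ}
    {E q : ℕ} (hn : NF n π p e r f) (hE : E = 1 ∨ E = 2) (hq : q.Prime)
    (hq2 : q % 3 = 2) (hqn : ¬ q ∣ n) {z z' : Eis}
    (hS : SelM (BB h n E q) z) (hS' : SelM (BB h n E q) z') (hy : yv π e z = yv π e z') :
    ∃ g g' : Eis, g ≠ 0 ∧ g' ≠ 0 ∧ z * g ^ 3 = z' * g' ^ 3 := by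
  obtain ⟨hz, ⟨t, hzt⟩, htm, hun, -⟩ := hS
  obtain ⟨hz', ⟨t', hzt'⟩, htm', hun', -⟩ := hS'
  have hD := dat hSPP hn (h := h) hE hq hq2 hqn
  have : Fact (Nat.Prime 3) := ⟨Nat.prime_three⟩
  have hz2 : z' ^ 2 ≠ 0 := pow_ne_zero _ hz'
  have hzz : z * z' ^ 2 ≠ 0 := mul_ne_zero hz hz2
  have hconj : (z * z' ^ 2) * conj (z * z' ^ 2) = (t * t' ^ 2) ^ 3 := by
    have h1 : conj (z * z' ^ 2) = conj z * (conj z') ^ 2 := by
      rw [map_mul, map_pow]
    rw [h1]
    calc z * z' ^ 2 * (conj z * conj z' ^ 2) = (z * conj z) * (z' * conj z') ^ 2 := by ring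
      _ = (t * t' ^ 2) ^ 3 := by rw [hzt, hzt']; ring
  have hV : ∀ l : Eis, Prime l → V l (z * z' ^ 2) = V l z + 2 * V l z' := by
    intro l hl
    rw [V_mul hl hz hz2, V_pow hl hz']
  obtain ⟨a, hF, hcube⟩ := decomp hSPP hn hq hq2 hzz hconj (fun σ hσ => by
    have hnd : ¬ σ.1 ∣ ((BB h n E q : ℤ) : Eis) := fun h1 => hσ (by
      push_cast
      rcases (dvd_iff hSPP hE σ).1 h1 with h2 | h2
      · exact Dvd.dvd.mul_right h2 _
      · exact Dvd.dvd.mul_left h2 _)
    rw [hV σ.1 σ.2.1]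
    exact dvd_add (hun σ hnd) (Dvd.dvd.mul_left (hun' σ hnd) _))
  have hVi : ∀ i, (V (π i).1 z : ZMod 3) = (V (π i).1 z' : ZMod 3) := by
    intro i
    have h1 := congrFun hy i.succ
    simp only [yv, Fin.cons_succ] at h1
    have h4 := e_sq hD i
    have he : (e i : ZMod 3) ≠ 0 := by
      intro h2
      rw [h2, mul_zero] at h4
      exact zero_ne_one h4
    exact mul_left_cancel₀ he h1
  have hV0 : ∀ i, (V (π i).1 (z * z' ^ 2) : ZMod 3) = 0 := by
    intro i
    rw [hV _ (π i).2.1]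
    push_cast
    rw [hVi i]
    have h2 := three_zero (V (π i).1 z' : ZMod 3)
    linear_combination h2
  have h4ne : (4 : Eis) ≠ 0 := by
    have := int_ne (x := 4) (by norm_num)
    push_cast at this
    exact this
  have hadd := add3_sl hSSL h4ne
  have hs4 : sl (z * z' ^ 2) 4 = 0 := by
    have h1 := congrFun hy 0
    simp only [yv, Fin.cons_zero] at h1
    have h2 := hadd z (z' ^ 2) hz hz2
    have h3 := hadd.pow hz' 2
    simp only at h2 h3
    rw [h2, h3]
    have h5 : sl z 4 = sl z' 4 := neg_injective h1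
    rw [h5]
    have h6 := three_zero (sl z' 4)
    push_cast
    linear_combination h6
  have ha := hF _ hadd
  simp only [hV0, zero_mul, Finset.sum_const_zero, add_zero] at ha
  rw [hs4] at ha
  have hw4 : sl w 4 = 1 := by
    have h1 := hLCL.2.2.2.2.1 4 (by norm_num)
    rw [(lw_four hLCL).2, neg_neg] at h1
    push_cast at h1
    exact h1
  rw [hw4, mul_one] at ha
  obtain ⟨γ, hγ⟩ := hcube ha.symm hV0
  have hγ0 : γ ≠ 0 := by
    rintro rfl
    rw [zero_pow (by norm_num)] at hγ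
    exact hzz hγ
  refine ⟨z', γ, hz', hγ0, ?_⟩
  rw [← hγ]
  ring

end NPSI

open _root_.Pool.Agent.PTN.NPSI in
/-- NPSI -/
theorem NPSI_thm (_hSTM : STM) (hSPP : SPP) (hSSL : SSL) (_hSLC : SLC) (_hSREC : SREC)
    (hSCJ : SCJ) (_hLCI : LCI) (hLCL : LCL) : Stmt_NPSI := by
  intro h n m k π p e r f w0 c E q hn hh hE hq hq2 hcl hqn
  classical
  have : Fact (Nat.Prime 3) := ⟨Nat.prime_three⟩
  refine ⟨VS h n π p e r w0 c, inferInstance, fun z =>
    if hz : SelM (BB h n E q) z then ⟨yv π e z, yv_mem hSPP hSSL hSCJ hLCL hn hh hE hq hq2 hcl hqn hz⟩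
    else 0, ?_, ?_⟩
  · have h1 := Module.natCard_eq_pow_finrank (K := ZMod 3) (V := VS h n π p e r w0 c)
    rw [h1, Nat.card_zmod]
    exact le_rfl
  · intro z z' hz hz' hyy
    simp only [dif_pos hz, dif_pos hz'] at hyy
    exact yv_inj hSPP hSSL hLCL hn hE hq hq2 hqn hz hz' (congrArg Subtype.val hyy)

end Pool.Agent.PTN


end

section

/-!
# NBKN: the bound for the rank, `q = 2 (mod 3)`
-/

set_option autoImplicit false

namespace Pool.Agent.PTN

open Pool.Agent.Lib_helper18 Pool.Agent.Lib_helper18.Eis Pool.Agent.Lib_helper84.Cub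
open Pool.Agent.PT Pool.Agent.PTE Pool.Agent.PT3

namespace NBKN

/-! ### The class `1` -/

theorem tm_one (hSPP : SPP) (π : PP) (x : Eis) : tm π.1 1 x = 0 := by
  have hπ : Prime π.1 := π.2.1
  have h1 : ¬ π.1 ∣ 1 := hπ.not_dvd_one
  have h2 := EADM.up_eq (k := 0) hπ h1 (by rw [pow_zero, one_mul] : (1 : Eis) = π.1 ^ 0 * 1)
  unfold tm ch
  rw [h2.1, h2.2, sym_one hπ (hSPP.2.2.2.1 π).1]
  simp

theorem sl_one (hSPP : SPP) (x : Eis) : sl 1 x = 0 := by
  unfold sl
  rw [finsum_eq_zero_of_forall_eq_zero (fun π : PP => tm_one hSPP π x), neg_zero]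

theorem selM_one (hSPP : SPP) (B : ℤ) : SelM B 1 where
  ne := one_ne_zero
  nrm := ⟨1, by simp⟩
  sym := fun π => tm_one hSPP π _
  unr := fun π _ => by
    rw [V_eq_zero π.2.1.not_dvd_one]
    exact dvd_zero 3
  lam := fun _ => ⟨sl_one hSPP 3, sl_one hSPP 4⟩

/-! ### The number `B` -/

section BBs

variable {h n m k E q : ℕ} {π : Fin m → PP} {p e : Fin m → ℕ} {r f : Fin k → ℕ}

theorem natAbs_BB (h n E q : ℕ) : (BB h n E q).natAbs = 3 ^ h * n * q ^ E := by
  have e1 : BB h n E q = ((3 ^ h * n * q ^ E : ℕ) : ℤ) := by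
    unfold BB
    push_cast
    ring
  rw [e1, Int.natAbs_natCast]

theorem cubeFree_BB (hN : NF n π p e r f) (hh : h ≤ 2) (hE : E = 1 ∨ E = 2) (hq : q.Prime)
    (hq3 : 3 < q) (hqn : ¬ q ∣ n) : CubeRank.CubeFree (BB h n E q) := by
  intro t ht hd
  have hl : t.natAbs.Prime := Int.prime_iff_natAbs_prime.1 ht
  have h1 : t.natAbs ^ 3 ∣ 3 ^ h * n * q ^ E := by
    have h2 := Int.natAbs_dvd_natAbs.2 hd
    rw [Int.natAbs_pow, natAbs_BB] at h2
    exact h2
  have hn0 := EADM.n_ne hN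
  have h30 : (3 : ℕ) ^ h ≠ 0 := pow_ne_zero _ (by norm_num)
  have hq0 : q ^ E ≠ 0 := pow_ne_zero _ hq.ne_zero
  have h3 : 3 ≤ (3 ^ h * n * q ^ E).factorization t.natAbs :=
    (hl.pow_dvd_iff_le_factorization (mul_ne_zero (mul_ne_zero h30 hn0) hq0)).1 h1
  rw [Nat.factorization_mul (mul_ne_zero h30 hn0) hq0, Nat.factorization_mul h30 hn0,
    Finsupp.add_apply, Finsupp.add_apply, Nat.prime_three.factorization_pow,
    hq.factorization_pow, Finsupp.single_apply, Finsupp.single_apply] at h3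
  have h4 := EADM.fac_le hN t.natAbs
  by_cases c3 : 3 = t.natAbs
  · have h5 : n.factorization t.natAbs = 0 := by
      rw [← c3]
      exact Nat.factorization_eq_zero_of_not_dvd (EADM.three_not hN)
    have h6 : ¬ q = t.natAbs := by omega
    rw [if_pos c3, if_neg h6, h5] at h3
    omega
  · rw [if_neg c3] at h3
    by_cases cq : q = t.natAbs
    · have h5 : n.factorization t.natAbs = 0 := by
        rw [← cq]
        exact Nat.factorization_eq_zero_of_not_dvd hqn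
      rw [if_pos cq, h5] at h3
      omega
    · rw [if_neg cq] at h3
      omega

theorem three_le_BB (hN : NF n π p e r f) (hE : E = 1 ∨ E = 2) (hq3 : 3 < q) :
    3 ≤ (BB h n E q).natAbs := by
  rw [natAbs_BB]
  have h1 : 0 < 3 ^ h * n := Nat.mul_pos (pow_pos (by norm_num) _)
    (Nat.pos_of_ne_zero (EADM.n_ne hN))
  have h2 : q ≤ q ^ E := Nat.le_self_pow (by omega) q
  calc 3 ≤ q ^ E := by omega
    _ ≤ 3 ^ h * n * q ^ E := Nat.le_mul_of_pos_left _ h1

end BBs

/-! ### The classes in the plus part -/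

theorem key (hA : Stmt_NADT) (hL : Stmt_NPLU) (hTENT : TENT) {h n m k : ℕ} {π : Fin m → PP}
    {p e : Fin m → ℕ} {r f : Fin k → ℕ} {w0 : ZMod 3} {c : Fin m → ZMod 3} {s : ℕ}
    {τ : Fin s → Fin 3} {b X Y : Fin s → ℤ} {P Q P' Q' : Fin s → Fin s → ℤ} {E q : ℕ}
    (hNF : NF n π p e r f) (hh : h ≤ 2) (hAdm : ∀ i, AdN h n π w0 c (b i))
    (hSys : SysG b P Q P' Q') (hSw : SwS P Q P' Q')
    (hLam : ∀ B : ℤ, TyB h n w0 B → LamS B τ b X Y)
    (hgen : ∀ x : ℤ, AdN h n π w0 c x → ∃ (g : Fin s → ℕ) (u v : ℤ), u ≠ 0 ∧ v ≠ 0 ∧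
      x * u ^ 3 = (∏ i, b i ^ g i) * v ^ 3)
    (hEE : E = 1 ∨ E = 2) (hq : q.Prime) (hq3 : 3 < q) (hq2 : q % 3 = 2)
    (hInC : InCT E π w0 c q) (hqn : ¬ q ∣ n) (z : ℤ) (hz : S2 (BB h n E q) z) :
    ∃ (g : Fin s → ℕ) (u y : ℤ) (j : ℕ), u ≠ 0 ∧ y ≠ 0 ∧
      (∏ i, b i ^ g i) * u ^ 3 = z * BB h n E q ^ j * y ^ 3 ∧
      ∀ a, ∑ i, MaT b X Y P Q P' Q' (BB h n E q) a i * (g i : ZMod 3) = 0 := by
  obtain ⟨hBG, hTy, hE⟩ := hA h n m k π p e r f w0 c E q hNF hh hEE hq hq2 hInC hqn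
  rcases hz with rfl | ⟨A, m', hA0, hsum, hprod, hcop, rfl⟩
  · refine ⟨0, 1, 1, 0, one_ne_zero, one_ne_zero, by simp, fun a => by simp⟩
  · obtain ⟨z', X1, Y1, u, v, j, hu, hv, hzz, hPt, hAG, hLoc, hsupp⟩ :=
      hL h n m k π p e r f E q A m' hNF hh hEE hq (by omega) hqn hA0 hsum hprod hcop
    obtain ⟨g, u1, v1, hu1, hv1, hg⟩ := hgen z' ((hE z' hsupp).2 ⟨hAG, hLoc⟩)
    refine ⟨g, v1 * u, v * u1, j, mul_ne_zero hv1 hu, mul_ne_zero hv hu1, ?_, ?_⟩
    · generalize (∏ i, b i ^ g i) = W at *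
      generalize BB h n E q ^ j = Bj at *
      linear_combination (-(u ^ 3)) * hg + u1 ^ 3 * hzz
    · by_cases hex : ∃ i, ¬ 3 ∣ g i
      · obtain ⟨c0, hc0, h1⟩ := hPt.eq
        have hPt' : Pt (BB h n E q) (∏ i, b i ^ g i) (u1 * v1 * X1) (v1 ^ 2 * Y1) := by
          refine ⟨mul_ne_zero (mul_ne_zero hu1 hv1) hPt.hX, mul_ne_zero (pow_ne_zero 2 hv1) hPt.hY,
            c0 * u1 ^ 2, mul_ne_zero hc0 (pow_ne_zero 2 hu1), ?_⟩
          generalize (∏ i, b i ^ g i) = W at *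
          have e1 : W * ((u1 * v1 * X1) ^ 3 + W * (v1 ^ 2 * Y1) ^ 3) =
              (W * v1 ^ 3) * (u1 ^ 3 * X1 ^ 3 + (W * v1 ^ 3) * Y1 ^ 3) := by ring
          rw [e1, ← hg]
          have e2 : z' * u1 ^ 3 * (u1 ^ 3 * X1 ^ 3 + z' * u1 ^ 3 * Y1 ^ 3) =
              u1 ^ 6 * (z' * (X1 ^ 3 + z' * Y1 ^ 3)) := by ring
          rw [e2, h1]
          ring
        exact (hTENT s τ b X Y P Q P' Q' (BB h n E q) hSys hSw hBG
          (fun i => ((hE _ (hAdm i).1.supp).1 (hAdm i)).1) (hLam _ hTy)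
          (fun i => (hAdm i).1.ne)).2 g _ _ hex hPt'
      · push Not at hex
        intro a
        refine Finset.sum_eq_zero (fun i _ => ?_)
        rw [(ZMod.natCast_eq_zero_iff (g i) 3).2 (hex i), mul_zero]

end NBKN

open _root_.Pool.Agent.PTN.NBKN in
/-- NBKN: the bound for the rank, `q = 2 (mod 3)`. -/
theorem NBKN_thm (hK : Stmt_KID) (hP : Stmt_NPSI) (hI : Stmt_NKIN) (hA : Stmt_NADT)
    (hL : Stmt_NPLU) (hTENT : TENT) (hSPP : SPP) : Stmt_NBKN := by
  classical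
  intro h n m k π p e r f w0 c s τ b X Y P Q P' Q' E q hNF hh hAdm hSys hSw hLam hgen hEE hq hq3
    hq2 hInC hqn
  obtain ⟨hBG, hTy, hE⟩ := hA h n m k π p e r f w0 c E q hNF hh hEE hq hq2 hInC hqn
  obtain ⟨W₁, hfin, Y₁, hW₁, hY₁⟩ := hP h n m k π p e r f w0 c E q hNF hh hEE hq hq2 hInC hqn
  have H := key hA hL hTENT hNF hh hAdm hSys hSw hLam hgen hEE hq hq3 hq2 hInC hqn
  have hcf : CubeRank.CubeFree (BB h n E q) := cubeFree_BB hNF hh hEE hq hq3 hqn
  have h3B : 3 ≤ (BB h n E q).natAbs := three_le_BB hNF hEE hq3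
  obtain ⟨B, hB⟩ : ∃ B : ℤ, B = BB h n E q := ⟨_, rfl⟩
  rw [← hB] at hBG hTy hE hY₁ H hcf h3B ⊢
  have hB0 : B ≠ 0 := hTy.1
  have habs : 3 ≤ |B| := by
    rw [Int.abs_eq_natAbs]
    exact_mod_cast h3B
  have hnc : ¬ ∃ t : ℤ, t ^ 3 = B := CubeRank.GenPf.not_cube hcf habs
  have h27 : ¬ (27 : ℤ) ∣ B := by
    intro hd
    refine hcf 3 Int.prime_three ?_
    have e27 : (3 : ℤ) ^ 3 = 27 := by norm_num
    rw [e27]
    exact hd
  obtain ⟨M, hM⟩ : ∃ M : Matrix (Fin s) (Fin s) (ZMod 3), M = MaT b X Y P Q P' Q' B := ⟨_, rfl⟩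
  rw [← hM] at H ⊢
  choose g u y j hu hy hz hker using H
  let Ψ₂ : ℤ → LinearMap.ker M.mulVecLin := fun z =>
    if hs : S2 B z then ⟨fun i => (g z hs i : ZMod 3), by
      rw [LinearMap.mem_ker]
      funext a
      exact hker z hs a⟩ else 0
  have hsel : ∀ ζ : Eis, S1 B ζ → SelM B ζ := by
    rintro ζ (rfl | ⟨x1, y1, z1, hc1, hz1, he1, rfl⟩)
    · exact selM_one hSPP B
    · exact hI B x1 y1 z1 hB0 h27 hc1 hz1 he1
  have hidx := hK B hB0 hcf hnc W₁ (LinearMap.ker M.mulVecLin) Y₁ Ψ₂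
    (fun ζ ζ' h1 h2 h12 => hY₁ ζ ζ' (hsel ζ h1) (hsel ζ' h2) h12)
    (by
      intro z z' h1 h2 h12
      have h3 : ∀ i, (g z h1 i : ZMod 3) = g z' h2 i := by
        intro i
        have h4 := congrArg (fun x : LinearMap.ker M.mulVecLin => (x : Fin s → ZMod 3) i) h12
        simp only [Ψ₂, dif_pos h1, dif_pos h2] at h4
        exact h4
      obtain ⟨A1, A2, hA1, hA2, hAA⟩ := BKER.prod_cube b (fun i => (hAdm i).1.ne) (g z h1)
        (g z' h2) h3
      have e1 := hz z h1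
      have e2 := hz z' h2
      have hu1 := hu z h1
      have hu2 := hu z' h2
      have hy1 := hy z h1
      have hy2 := hy z' h2
      generalize (∏ i, b i ^ g z h1 i) = P1 at *
      generalize (∏ i, b i ^ g z' h2 i) = P2 at *
      generalize u z h1 = u1 at *
      generalize u z' h2 = u2 at *
      generalize y z h1 = y1 at *
      generalize y z' h2 = y2 at *
      generalize j z h1 = j1 at *
      generalize j z' h2 = j2 at *
      refine ⟨B ^ j1 * y1 * A1 * u2, y2 * A2 * u1, j2 + 2 * j1, ?_, ?_, ?_⟩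
      · exact mul_ne_zero (mul_ne_zero (mul_ne_zero (pow_ne_zero _ hB0) hy1) hA1) hu2
      · exact mul_ne_zero (mul_ne_zero hy2 hA2) hu1
      · have e3 : B ^ (j2 + 2 * j1) = B ^ j2 * (B ^ j1) ^ 2 := by
          rw [pow_add, mul_comm 2 j1, pow_mul]
        rw [e3]
        generalize B ^ j1 = C1 at *
        generalize B ^ j2 = C2 at *
        linear_combination (-(C1 ^ 2 * A1 ^ 3 * u2 ^ 3)) * e1 +
          (C1 ^ 2 * u1 ^ 3 * u2 ^ 3) * hAA + (C1 ^ 2 * A2 ^ 3 * u1 ^ 3) * e2)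
  have hkr : Module.finrank (ZMod 3) (LinearMap.ker M.mulVecLin) = s - M.rank := by
    have h1 := LinearMap.finrank_range_add_finrank_ker M.mulVecLin
    rw [Module.finrank_fintype_fun_eq_card, Fintype.card_fin] at h1
    have h2 : Module.finrank (ZMod 3) (LinearMap.range M.mulVecLin) = M.rank := rfl
    omega
  refine CubeRank.gen' B hcf h3B _ hidx.1 (hidx.2.trans ?_)
  rw [Module.natCard_eq_pow_finrank (K := ZMod 3) (V := LinearMap.ker M.mulVecLin),
    Nat.card_zmod, hkr, pow_add]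
  exact Nat.mul_le_mul_right _ hW₁

end Pool.Agent.PTN


end

section

/-!
# The law of the ranks of prime twists for every `n`: densities (module BDG)
-/

set_option autoImplicit false

open NumberField IsDedekindDomain Finset
open scoped nonZeroDivisors Pointwise

namespace Pool.Agent.PTN

open Pool.Agent.Lib_helper18 Pool.Agent.Lib_helper18.Eis Pool.Agent.Lib_helper84.Cub
open Pool.Agent.PT Pool.Agent.PTE Pool.Agent.PT3 Pool.Agent.PTL
open Pool.Agent.PT.BDENS Pool.Agent.PTL.BD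

theorem BDG_thm (hGALG : GALG) (hEQD : EQD) (hDIR : DIR) : Stmt_BDG := by
  classical
  intro s b p q p' q' f m t κ c C Φ hSys hf h9 hκ
  obtain ⟨L, iF, iN, iG, χ, tt, N₀, hχ, hconj, hpow, heq, hfrob⟩ :=
    hGALG s b p q p' q' f hSys hf h9
  have h3 : 3 ∣ f := Dvd.dvd.trans (by norm_num) h9
  have hM : ∀ (Q : ℕ) (hQ : Q.Coprime f), M2 (ZMod.unitOfCoprime Q hQ) ↔ Q % 3 = 2 := by
    intro Q hQ
    unfold M2
    rw [ZMod.coe_unitOfCoprime, ZMod.val_natCast, Nat.mod_mod_of_dvd _ h3]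
  have hP : ∀ n : ℕ, n.Prime → ∀ hQ : n.Coprime f, n ∈ SP b p q p' q' t κ c C Φ →
      ∀ g : L ≃ₐ[ℚ] L, χ g = ZMod.unitOfCoprime n hQ →
      (∀ j i, j ≠ i → ∀ r : ℤ, (n : ℤ) ∣ r ^ 3 - b j →
        tt g j i = TAUV n (p j i) (q j i) (p' j i) (q' j i) r) → XP χ κ c C Φ t tt g := by
    intro n hn hQ hnS g hg htg
    obtain ⟨hQ', h1, h2, h4⟩ := hnS
    refine ⟨?_, ?_, ?_⟩
    · rw [hg]
      exact (hM n hQ).2 h1
    · rw [hg]
      exact h2
    · rw [hg]
      exact h4 (tt g) htg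
  have hN : ∀ n : ℕ, n.Prime → ∀ hQ : n.Coprime f, n ∈ SM b p q p' q' t κ c C Φ →
      ∀ g : L ≃ₐ[ℚ] L, χ g = ZMod.unitOfCoprime n hQ →
      (∀ j i, j ≠ i → ∀ r : ℤ, (n : ℤ) ∣ r ^ 3 - b j →
        tt g j i = TAUV n (p j i) (q j i) (p' j i) (q' j i) r) → XM χ κ c C Φ t tt g := by
    intro n hn hQ hnS g hg htg
    obtain ⟨hQ', h1, h2, h4⟩ := hnS
    refine ⟨?_, ?_, ?_⟩
    · rw [hg]
      exact (hM n hQ).2 h1
    · rw [hg]
      exact h2
    · rw [hg]
      exact h4 (tt g) htg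
  obtain ⟨K1, hK1⟩ := dens hDIR hf h3 κ c L χ tt N₀ hχ hconj hpow hfrob
    (fun g => XP χ κ c C Φ t tt g ∨ XM χ κ c C Φ t tt g)
    (inv_or χ κ c C Φ t tt hf h3) (SP b p q p' q' t κ c C Φ ∪ SM b p q p' q' t κ c C Φ)
    (by
      rintro n hn hQ (⟨hQ', h1, h2, -⟩ | ⟨hQ', h1, h2, -⟩)
      · exact ⟨h1, Or.inl h2⟩
      · exact ⟨h1, Or.inr h2⟩)
    (by
      rintro n hn hQ (h | h) g hg htg
      · exact Or.inl (hP n hn hQ h g hg htg)
      · exact Or.inr (hN n hn hQ h g hg htg))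
  obtain ⟨K2, hK2⟩ := dens hDIR hf h3 κ c L χ tt N₀ hχ hconj hpow hfrob
    (fun g => XP χ κ c C Φ t tt g ∧ XM χ κ c C Φ t tt g)
    (inv_and χ κ c C Φ t tt hf h3) (SP b p q p' q' t κ c C Φ ∩ SM b p q p' q' t κ c C Φ)
    (by
      rintro n hn hQ ⟨⟨hQ', h1, h2, -⟩, -⟩
      exact ⟨h1, Or.inl h2⟩)
    (by
      rintro n hn hQ ⟨h, h'⟩ g hg htg
      exact ⟨hP n hn hQ h g hg htg, hN n hn hQ h' g hg htg⟩)
  obtain ⟨hX1, hX2⟩ := card_X χ κ c C Φ t tt hEQD hf hχ heq hκ
  have hincl := card_incl (fun g => XP χ κ c C Φ t tt g) (fun g => XM χ κ c C Φ t tt g)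
  refine ⟨K1 + K2, fun σ h1 h2 => ?_⟩
  have e1 := hK1 σ h1 h2
  have e2 := hK2 σ h1 h2
  have hlog : 0 ≤ Real.log (1 / (σ - 1)) := by
    apply Real.log_nonneg
    rw [le_div_iff₀ (by linarith)]
    linarith
  rw [sm_union_inter _ _ h1]
  have hG : 0 < Nat.card (L ≃ₐ[ℚ] L) := Nat.card_pos
  have hA : 0 < Nat.card (Fin s → Fin s → ZMod 3) := Nat.card_pos
  have hcnt : (Nat.card {g : L ≃ₐ[ℚ] L // XP χ κ c C Φ t tt g ∨ XM χ κ c C Φ t tt g} : ℝ) /
      Nat.card (L ≃ₐ[ℚ] L) +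
      (Nat.card {g : L ≃ₐ[ℚ] L // XP χ κ c C Φ t tt g ∧ XM χ κ c C Φ t tt g} : ℝ) /
      Nat.card (L ≃ₐ[ℚ] L) ≤
      (NK s t : ℝ) / Nat.card (Fin s → Fin s → ZMod 3) / 3 ^ (m + 1) := by
    generalize Nat.card {g : L ≃ₐ[ℚ] L // XP χ κ c C Φ t tt g ∨ XM χ κ c C Φ t tt g} = n1 at *
    generalize Nat.card {g : L ≃ₐ[ℚ] L // XP χ κ c C Φ t tt g ∧ XM χ κ c C Φ t tt g} = n2 at *
    generalize Nat.card {g : L ≃ₐ[ℚ] L // XP χ κ c C Φ t tt g} = x1 at *
    generalize Nat.card {g : L ≃ₐ[ℚ] L // XM χ κ c C Φ t tt g} = x2 at *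
    generalize Nat.card (Fin s → Fin s → ZMod 3) = A at *
    generalize Nat.card (L ≃ₐ[ℚ] L) = g0 at *
    have hG' : (0 : ℝ) < g0 := Nat.cast_pos.2 hG
    have hA' : (0 : ℝ) < A := Nat.cast_pos.2 hA
    have hF : (0 : ℝ) < 3 ^ (m + 1) := by positivity
    have i1 : (A : ℝ) * x1 * (2 * 3 ^ (m + 1)) ≤ NK s t * g0 := by exact_mod_cast hX1
    have i2 : (A : ℝ) * x2 * (2 * 3 ^ (m + 1)) ≤ NK s t * g0 := by exact_mod_cast hX2
    have i3 : (n1 : ℝ) + n2 = x1 + x2 := by exact_mod_cast hincl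
    rw [← add_div, i3, div_div, div_le_div_iff₀ hG' (by positivity)]
    nlinarith
  have hmul := mul_le_mul_of_nonneg_right hcnt hlog
  rw [add_mul] at hmul
  linarith

end Pool.Agent.PTN


end

section

/-!
# PTN_EQX: equidistribution
-/

namespace Pool.Agent.PTN

open Pool.Agent.PT

theorem EQX_thm : Stmt_EQX := by
  intro s X _ t hf C S
  constructor
  · refine EQD.main (fun x : X => C + t x) ?_ S
    intro e e'
    have h2 : ∀ e : EQD.Pr s → ZMod 3,
        Nat.card {x : X // EQD.rst (C + t x) = e} =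
          Nat.card {x : X // ∀ j i, j < i → t x j i = (EQD.lft e - C) j i} := by
      intro e
      refine Nat.card_congr (Equiv.subtypeEquivRight fun x => ?_)
      rw [EQD.rst_eq_iff]
      refine forall₃_congr fun j i _ => ?_
      show C j i + t x j i = EQD.lft e j i ↔ t x j i = EQD.lft e j i - C j i
      constructor
      · intro h3
        rw [← h3]
        ring
      · intro h3
        rw [h3]
        ring
    rw [h2, h2]
    exact hf _ _
  · refine EQD.main (fun x : X => C - t x) ?_ S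
    intro e e'
    have h2 : ∀ e : EQD.Pr s → ZMod 3,
        Nat.card {x : X // EQD.rst (C - t x) = e} =
          Nat.card {x : X // ∀ j i, j < i → t x j i = (C - EQD.lft e) j i} := by
      intro e
      refine Nat.card_congr (Equiv.subtypeEquivRight fun x => ?_)
      rw [EQD.rst_eq_iff]
      refine forall₃_congr fun j i _ => ?_
      show C j i - t x j i = EQD.lft e j i ↔ t x j i = C j i - EQD.lft e j i
      constructor
      · intro h3
        rw [← h3]
        ring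
      · intro h3
        rw [h3]
        ring
    rw [h2, h2]
    exact hf _ _

end Pool.Agent.PTN


end

section

/-!
# PTN_BDL: the lower bound for the number of the primes with a given pattern
-/

set_option autoImplicit false

open NumberField IsDedekindDomain Finset
open scoped nonZeroDivisors Pointwise

namespace Pool.Agent.PTN

open Pool.Agent.Lib_helper18 Pool.Agent.Lib_helper18.Eis Pool.Agent.Lib_helper84.Cub
open Pool.Agent.PT Pool.Agent.PTE Pool.Agent.PT3 Pool.Agent.PTL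

namespace BDL

/-- Generators of a finite cyclic group are powers with exponent prime to `3`. -/
theorem exists_pow3 {G : Type} [Group G] [Finite G] {g h : G}
    (hz : Subgroup.zpowers h = Subgroup.zpowers g) : ∃ k : ℕ, ¬ 3 ∣ k ∧ h = g ^ k := by
  have h1 : h ∈ Subgroup.zpowers g := by
    rw [← hz]
    exact Subgroup.mem_zpowers h
  obtain ⟨k, hk⟩ := (isOfFinOrder_of_finite g).mem_powers_iff_mem_zpowers.2 h1
  have hk' : g ^ k = h := hk
  by_cases h3 : 3 ∣ k
  · refine ⟨k + orderOf g, ?_, ?_⟩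
    · intro h4
      have h5 : 3 ∣ orderOf g := (Nat.dvd_add_right h3).1 h4
      have h6 : orderOf h = orderOf g := by
        rw [← Nat.card_zpowers, ← Nat.card_zpowers, hz]
      obtain ⟨l, rfl⟩ := h3
      obtain ⟨n, hn⟩ := h5
      have h7 : h ^ n = 1 := by
        rw [← hk', ← pow_mul, show 3 * l * n = (3 * n) * l by ring, ← hn, pow_mul,
          pow_orderOf_eq_one, one_pow]
      have h8 : orderOf g ∣ n := h6 ▸ orderOf_dvd_of_pow_eq_one h7
      have h9 : 0 < orderOf g := orderOf_pos g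
      have h10 : 0 < n := by
        rcases Nat.eq_zero_or_pos n with h | h
        · rw [h, Nat.mul_zero] at hn
          omega
        · exact h
      have h11 := Nat.le_of_dvd h10 h8
      omega
    · rw [pow_add, pow_orderOf_eq_one, mul_one, hk']
  · exact ⟨k, h3, hk'.symm⟩

section
variable {G : Type} [Group G] [Finite G] {f m : ℕ} [NeZero f] (χ : G →* (ZMod f)ˣ)
    (κ : (ZMod f)ˣ →* Multiplicative (Fin (m + 1) → ZMod 3)) (F : G → Prop)

/-- the elements of class `c` with the pattern -/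
def YP (c : Fin (m + 1) → ZMod 3) (g : G) : Prop := M1 (χ g) ∧ (κ (χ g)).toAdd = c ∧ F g

omit [NeZero f] in
/-- The exponents prime to `3`. -/
theorem cases3 {k : ℕ} (hk : ¬ 3 ∣ k) (v : Fin (m + 1) → ZMod 3) : k • v = v ∨ k • v = -v := by
  rw [← Nat.cast_smul_eq_nsmul (ZMod 3)]
  have h0 : (k : ZMod 3) ≠ 0 := fun h => hk ((ZMod.natCast_eq_zero_iff k 3).1 h)
  have hc : (k : ZMod 3) = 1 ∨ (k : ZMod 3) = -1 := by
    revert h0
    generalize (k : ZMod 3) = x
    revert x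
    decide
  rcases hc with h | h
  · left
    rw [h, one_smul]
  · right
    rw [h, neg_smul, one_smul]

variable {χ κ F} in
/-- Stability. -/
theorem step (h3 : 3 ∣ f)
    (hconj : ∀ g τ : G, M1 (χ g) → F g → F (τ * g * τ⁻¹))
    (hpow : ∀ (g : G) (k : ℕ), M1 (χ g) → F g → ¬ 3 ∣ k → F (g ^ k))
    {g h τ : G} (hg : M1 (χ g)) (hF : F g)
    (hz : Subgroup.zpowers h = Subgroup.zpowers (τ * g * τ⁻¹)) :
    M1 (χ h) ∧ F h ∧ ((κ (χ h)).toAdd = (κ (χ g)).toAdd ∨
      (κ (χ h)).toAdd = -(κ (χ g)).toAdd) := by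
  have hχ : χ (τ * g * τ⁻¹) = χ g := by
    rw [map_mul, map_mul, map_inv, mul_comm (χ τ) (χ g), mul_inv_cancel_right]
  have hg' : M1 (χ (τ * g * τ⁻¹)) := by rw [hχ]; exact hg
  have hF' := hconj g τ hg hF
  obtain ⟨k, hk3, hk⟩ := exists_pow3 hz
  have c1 : χ h = χ g ^ k := by rw [hk, map_pow, hχ]
  have hFh : F h := by
    rw [hk]
    exact hpow _ k hg' hF' hk3
  have hM : M1 (χ h) := by
    rw [DENSS.M1_iff h3] at hg ⊢
    rw [c1, Units.val_pow_eq_pow_val, map_pow, hg, one_pow]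
  refine ⟨hM, hFh, ?_⟩
  have e1 : (κ (χ h)).toAdd = k • (κ (χ g)).toAdd := by rw [c1, map_pow, toAdd_pow]
  rw [e1]
  exact cases3 hk3 _

/-- Counting. -/
theorem count (s : ℕ) (c : Fin (m + 1) → ZMod 3) (hf : 0 < f) (hχ : Function.Surjective χ)
    (hcnt : ∀ a : (ZMod f)ˣ, M1 a → 3 ^ (s + 1) * Nat.card {g : G // χ g = a ∧ F g} =
      2 * Nat.card {g : G // χ g = a})
    (hκ : Nat.card {a : (ZMod f)ˣ // M1 a ∧ (κ a).toAdd = c} * (2 * 3 ^ (m + 1)) = f.totient) :
    3 ^ (s + 1) * 3 ^ (m + 1) * Nat.card {g : G // YP χ κ F c g} = Nat.card G := by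
  classical
  obtain ⟨hfib, hcard⟩ := BDENS.fibre χ hχ
  have hH : Nat.card (ZMod f)ˣ = f.totient := by
    rw [Nat.card_eq_fintype_card, ZMod.card_units_eq_totient]
  rw [hH] at hcard
  have e1 : Nat.card {g : G // YP χ κ F c g} =
      Nat.card {g : G // (M1 (χ g) ∧ (κ (χ g)).toAdd = c) ∧ F g} :=
    Nat.card_congr (Equiv.subtypeEquivRight fun g => (and_assoc).symm)
  have e2 := DENS.card_fib (G := G) (β := (ZMod f)ˣ) χ
    (fun a => M1 a ∧ (κ a).toAdd = c) F
  have e3 : 3 ^ (s + 1) * Nat.card {g : G // YP χ κ F c g} =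
      Nat.card {a : (ZMod f)ˣ // M1 a ∧ (κ a).toAdd = c} * (2 * Nat.card χ.ker) := by
    rw [e1, e2, Finset.mul_sum, Nat.card_eq_fintype_card, Fintype.card_subtype,
      ← smul_eq_mul (Finset.card _), ← Finset.sum_const]
    refine Finset.sum_congr rfl fun a ha => ?_
    simp only [Finset.mem_filter, Finset.mem_univ, true_and] at ha
    rw [hcnt a ha.1, hfib a]
  generalize Nat.card {g : G // YP χ κ F c g} = n at *
  generalize Nat.card {a : (ZMod f)ˣ // M1 a ∧ (κ a).toAdd = c} = u at *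
  generalize Nat.card χ.ker = K at *
  rw [← hcard, ← hκ]
  calc 3 ^ (s + 1) * 3 ^ (m + 1) * n = 3 ^ (s + 1) * n * 3 ^ (m + 1) := by ring
    _ = u * (2 * K) * 3 ^ (m + 1) := by rw [e3]
    _ = K * (u * (2 * 3 ^ (m + 1))) := by ring

end

end BDL

open BDENS _root_.Pool.Agent.PTN.BDL in
/-- PTN_BDL. -/
theorem BDL_thm (hGALDU : Stmt_GALDU) (hSPLT : SPLT) : Stmt_BDL := by
  classical
  intro s b p q p' q' f m κ c hSys hf h9 hκ
  have : NeZero f := ⟨hf.ne'⟩
  have h3f : 3 ∣ f := dvd_trans (by norm_num) h9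
  obtain ⟨L, iF, iN, iG, χ, F, t, N₀, hχ, hconj, hpow, -, hcnt, hfrob⟩ :=
    hGALDU s b p q p' q' f hSys hf h9
  have hconj' : ∀ g τ : L ≃ₐ[ℚ] L, M1 (χ g) → F g → F (τ * g * τ⁻¹) :=
    fun g τ h1 h2 => (hconj g τ h1 h2).1
  have hpow' : ∀ (g : L ≃ₐ[ℚ] L) (k : ℕ), M1 (χ g) → F g → ¬ 3 ∣ k → F (g ^ k) :=
    fun g k h1 h2 h3 => (hpow g k h1 h2 h3).1
  have hcP := count χ κ F s c hf hχ hcnt (hκ c)
  have hcM := count χ κ F s (-c) hf hχ hcnt (hκ (-c))
  have hincl := BD.card_incl (fun g => YP χ κ F c g) (fun g => YP χ κ F (-c) g)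
  -- stability
  have hT1 : ∀ g h τ : L ≃ₐ[ℚ] L, g ∈ {g | YP χ κ F c g ∨ YP χ κ F (-c) g} →
      Subgroup.zpowers h = Subgroup.zpowers (τ * g * τ⁻¹) →
      h ∈ {g | YP χ κ F c g ∨ YP χ κ F (-c) g} := by
    rintro g h τ (⟨h1, h2, h4⟩ | ⟨h1, h2, h4⟩) hz
    · obtain ⟨g1, g2, g3⟩ := step (κ := κ) h3f hconj' hpow' h1 h4 hz
      rw [h2] at g3
      rcases g3 with g3 | g3
      · exact Or.inl ⟨g1, g3, g2⟩
      · exact Or.inr ⟨g1, g3, g2⟩
    · obtain ⟨g1, g2, g3⟩ := step (κ := κ) h3f hconj' hpow' h1 h4 hz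
      rw [h2, neg_neg] at g3
      rcases g3 with g3 | g3
      · exact Or.inr ⟨g1, g3, g2⟩
      · exact Or.inl ⟨g1, g3, g2⟩
  have hT2 : ∀ g h τ : L ≃ₐ[ℚ] L, g ∈ {g | YP χ κ F c g ∧ YP χ κ F (-c) g} →
      Subgroup.zpowers h = Subgroup.zpowers (τ * g * τ⁻¹) →
      h ∈ {g | YP χ κ F c g ∧ YP χ κ F (-c) g} := by
    rintro g h τ ⟨⟨h1, h2, h4⟩, -, h6, -⟩ hz
    obtain ⟨g1, g2, g3⟩ := step (κ := κ) h3f hconj' hpow' h1 h4 hz
    have h7 : c = -c := h2.symm.trans h6
    rw [h2, ← h7, or_self] at g3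
    exact ⟨⟨g1, g3, g2⟩, ⟨g1, g3.trans h7, g2⟩⟩
  -- the primes
  have hprime : ∀ (T : Set (L ≃ₐ[ℚ] L)), (∀ g h τ : L ≃ₐ[ℚ] L, g ∈ T →
      Subgroup.zpowers h = Subgroup.zpowers (τ * g * τ⁻¹) → h ∈ T) →
      ∀ Q ∈ {q : ℕ | ∃ g ∈ T, ∃ P : Ideal (𝓞 L), P.IsPrime ∧ (q : 𝓞 L) ∈ P ∧
        MulAction.stabilizer (L ≃ₐ[ℚ] L) P = Subgroup.zpowers g}, Q.Prime →
      Q ∉ Finset.range (N₀ + f + 1) → ∃ (hQ : Q.Coprime f) (ρ : PP) (g : L ≃ₐ[ℚ] L), g ∈ T ∧
        χ g = ZMod.unitOfCoprime Q hQ ∧ (Q % 3 = 1 → (Q : Eis) = ρ.1 * conj ρ.1 ∧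
          (F g → (∀ j : Fin s, sym ρ.1 (b j.castSucc : Eis) = 0) ∧
            sym ρ.1 (b (Fin.last s) : Eis) ≠ 0)) := by
    rintro T hT Q ⟨g, hg, P, hP, hQP, hst⟩ hQ hQA
    rw [Finset.mem_range, not_lt] at hQA
    have hcf : Q.Coprime f := by
      rw [Nat.Prime.coprime_iff_not_dvd hQ]
      intro hd
      have := Nat.le_of_dvd hf hd
      omega
    obtain ⟨k, hk, hχk, hcl⟩ := hfrob Q hcf hQ (by omega) P g hP hQP hst
    have hφT : g ^ k ∈ T := by
      refine hT g (g ^ k) 1 hg ?_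
      rw [one_mul, inv_one, mul_one]
      exact DENS.zp hk
    by_cases h1 : Q % 3 = 1
    · obtain ⟨ρ, hρ⟩ := hSPLT.1 Q hQ h1
      exact ⟨hcf, ρ, g ^ k, hφT, hχk, fun _ => ⟨hρ, ((hcl h1 ρ hρ).1).1⟩⟩
    · obtain ⟨ρ, -⟩ := hSPLT.1 7 (by norm_num) (by norm_num)
      exact ⟨hcf, ρ, g ^ k, hφT, hχk, fun h => absurd h h1⟩
  have hcl : ∀ (Q : ℕ) (hQ : Q.Coprime f) (ρ : PP) (g : L ≃ₐ[ℚ] L)
      (d : Fin (m + 1) → ZMod 3), YP χ κ F d g → χ g = ZMod.unitOfCoprime Q hQ →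
      (Q % 3 = 1 → (Q : Eis) = ρ.1 * conj ρ.1 ∧
          (F g → (∀ j : Fin s, sym ρ.1 (b j.castSucc : Eis) = 0) ∧
            sym ρ.1 (b (Fin.last s) : Eis) ≠ 0)) → ClQ b κ d Q hQ ρ := by
    rintro Q hQ ρ g d ⟨h1, h2, h4⟩ hg h5
    rw [hg] at h1 h2
    have h6 := DENSS.M1_Q h3f hQ h1
    obtain ⟨h7, h8⟩ := h5 h6
    exact ⟨h6, h2, h7, h8 h4⟩
  obtain ⟨K1, hK1⟩ := RI.PDGE_thm _
    ({Q : ℕ | ∃ (hQ : Q.Coprime f) (ρ : PP), ClQ b κ c Q hQ ρ} ∪
      {Q : ℕ | ∃ (hQ : Q.Coprime f) (ρ : PP), ClQ b κ (-c) Q hQ ρ})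
    (Finset.range (N₀ + f + 1)) _ (RI.FROBD_thm L _ hT1) (by
      intro Q hQS hQ hQA
      obtain ⟨hQf, ρ, g, hgT, hg, h5⟩ := hprime _ hT1 Q hQS hQ hQA
      rcases hgT with h | h
      · exact Or.inl ⟨hQf, ρ, hcl Q hQf ρ g c h hg h5⟩
      · exact Or.inr ⟨hQf, ρ, hcl Q hQf ρ g (-c) h hg h5⟩)
  obtain ⟨K2, hK2⟩ := RI.PDGE_thm _
    ({Q : ℕ | ∃ (hQ : Q.Coprime f) (ρ : PP), ClQ b κ c Q hQ ρ} ∩
      {Q : ℕ | ∃ (hQ : Q.Coprime f) (ρ : PP), ClQ b κ (-c) Q hQ ρ})
    (Finset.range (N₀ + f + 1)) _ (RI.FROBD_thm L _ hT2) (by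
      intro Q hQS hQ hQA
      obtain ⟨hQf, ρ, g, hgT, hg, h5⟩ := hprime _ hT2 Q hQS hQ hQA
      exact ⟨⟨hQf, ρ, hcl Q hQf ρ g c hgT.1 hg h5⟩, ⟨hQf, ρ, hcl Q hQf ρ g (-c) hgT.2 hg h5⟩⟩)
  refine ⟨K1 + K2, fun σ h1 h2 => ?_⟩
  have e1 := hK1 σ h1 h2
  have e2 := hK2 σ h1 h2
  rw [BD.sm_union_inter _ _ h1]
  have hG : 0 < Nat.card (L ≃ₐ[ℚ] L) := Nat.card_pos
  have hcount : (2 : ℝ) / 3 ^ (s + 1) / 3 ^ (m + 1) =
      (Nat.card {g : L ≃ₐ[ℚ] L | YP χ κ F c g ∨ YP χ κ F (-c) g} : ℝ) /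
        Nat.card (L ≃ₐ[ℚ] L) +
      (Nat.card {g : L ≃ₐ[ℚ] L | YP χ κ F c g ∧ YP χ κ F (-c) g} : ℝ) /
        Nat.card (L ≃ₐ[ℚ] L) := by
    have i3 : (Nat.card {g : L ≃ₐ[ℚ] L | YP χ κ F c g ∨ YP χ κ F (-c) g} : ℝ) +
        Nat.card {g : L ≃ₐ[ℚ] L | YP χ κ F c g ∧ YP χ κ F (-c) g} =
        Nat.card {g : L ≃ₐ[ℚ] L // YP χ κ F c g} +
          Nat.card {g : L ≃ₐ[ℚ] L // YP χ κ F (-c) g} := by exact_mod_cast hincl
    rw [← add_div, i3]
    generalize Nat.card {g : L ≃ₐ[ℚ] L // YP χ κ F c g} = x1 at *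
    generalize Nat.card {g : L ≃ₐ[ℚ] L // YP χ κ F (-c) g} = x2 at *
    generalize Nat.card (L ≃ₐ[ℚ] L) = g0 at *
    have hG' : (0 : ℝ) < g0 := Nat.cast_pos.2 hG
    have i1 : (3 : ℝ) ^ (s + 1) * 3 ^ (m + 1) * x1 = g0 := by exact_mod_cast hcP
    have i2 : (3 : ℝ) ^ (s + 1) * 3 ^ (m + 1) * x2 = g0 := by exact_mod_cast hcM
    rw [div_div, div_eq_div_iff (by positivity) hG'.ne']
    linear_combination (-1 : ℝ) * i1 - i2
  rw [hcount, add_mul]
  have e1' : (Nat.card {g : L ≃ₐ[ℚ] L | YP χ κ F c g ∨ YP χ κ F (-c) g} : ℝ) /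
        Nat.card (L ≃ₐ[ℚ] L) * Real.log (1 / (σ - 1)) - K1 ≤
      sm ({Q : ℕ | ∃ (hQ : Q.Coprime f) (ρ : PP), ClQ b κ c Q hQ ρ} ∪
      {Q : ℕ | ∃ (hQ : Q.Coprime f) (ρ : PP), ClQ b κ (-c) Q hQ ρ}) σ := e1
  have e2' : (Nat.card {g : L ≃ₐ[ℚ] L | YP χ κ F c g ∧ YP χ κ F (-c) g} : ℝ) /
        Nat.card (L ≃ₐ[ℚ] L) * Real.log (1 / (σ - 1)) - K2 ≤
      sm ({Q : ℕ | ∃ (hQ : Q.Coprime f) (ρ : PP), ClQ b κ c Q hQ ρ} ∩
      {Q : ℕ | ∃ (hQ : Q.Coprime f) (ρ : PP), ClQ b κ (-c) Q hQ ρ}) σ := e2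
  linarith

end Pool.Agent.PTN


end

section

/-!
# From tails to averages
-/

set_option autoImplicit false

open Finset

namespace Pool.Agent.PTN

open Pool.Agent.PT Pool.Agent.PTL

namespace DOMG

open BDENS

/-- the tail sets -/
def TS (S : ℕ → Set ℕ) (R : ℕ → ℕ → ℕ) (E t : ℕ) : Set ℕ := {q | q ∈ S E ∧ t ≤ R E q}

theorem sum_ind_le (S : Set ℕ) {σ : ℝ} (hσ : 1 < σ) (T : Finset ℕ) :
    ∑ q ∈ T, ind S σ q ≤ sm S σ := by
  rw [sm_eq]
  exact (ind_summable S hσ).sum_le_tsum T fun n _ => ind_nonneg S σ n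

open Classical in
/-- one exponent, pointwise -/
theorem point (S : ℕ → Set ℕ) (R : ℕ → ℕ → ℕ) (F : ℕ → ℝ) (hF : Monotone F) (h0 : 0 ≤ F 0)
    {M N E : ℕ} (hM : ∀ q : ℕ, q.Prime → M < q → q ∈ S E → R E q ≤ N) {σ : ℝ} (hσ : 1 < σ)
    (q : ℕ) :
    (if q.Prime ∧ q ∈ S E then F (R E q) * (q : ℝ) ^ (-σ) else 0) ≤
    F 0 * ind (TS S R E 0) σ q +
      ∑ t ∈ Finset.range N, (F (t + 1) - F t) * ind (TS S R E (t + 1)) σ q +
      (if q ≤ M then F (R E q) else 0) := by
  have hFn : ∀ n, 0 ≤ F n := fun n => h0.trans (hF (Nat.zero_le n))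
  have hsum : 0 ≤ ∑ t ∈ Finset.range N, (F (t + 1) - F t) * ind (TS S R E (t + 1)) σ q :=
    Finset.sum_nonneg fun t _ => mul_nonneg (sub_nonneg.2 (hF (Nat.le_succ t)))
      (ind_nonneg _ _ _)
  have h00 : 0 ≤ F 0 * ind (TS S R E 0) σ q := mul_nonneg h0 (ind_nonneg _ _ _)
  have hlast : 0 ≤ (if q ≤ M then F (R E q) else 0) := by
    split_ifs
    · exact hFn _
    · exact le_rfl
  by_cases hq : q.Prime ∧ q ∈ S E
  · rw [if_pos hq]
    by_cases hqM : q ≤ M
    · rw [if_pos hqM]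
      have h1 : (q : ℝ) ^ (-σ) ≤ 1 :=
        Real.rpow_le_one_of_one_le_of_nonpos (by exact_mod_cast hq.1.one_lt.le) (by linarith)
      have h2 := mul_le_mul_of_nonneg_left h1 (hFn (R E q))
      rw [mul_one] at h2
      linarith
    · rw [if_neg hqM, add_zero]
      push Not at hqM
      have hrs := hM q hq.1 hqM hq.2
      obtain ⟨ρ, hρ⟩ : ∃ ρ, ρ = R E q := ⟨_, rfl⟩
      rw [← hρ] at hrs ⊢
      have e1 : ∀ t, ind (TS S R E (t + 1)) σ q = if t < ρ then (q : ℝ) ^ (-σ) else 0 := by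
        intro t
        by_cases ht : t < ρ
        · rw [if_pos ht]
          exact ind_mem hq.1 ⟨hq.2, by rw [← hρ]; exact ht⟩
        · rw [if_neg ht]
          refine ind_not fun h => ht ?_
          have h3 := h.2.2
          rw [← hρ] at h3
          exact h3
      have e2 : ∑ t ∈ Finset.range N, (F (t + 1) - F t) * ind (TS S R E (t + 1)) σ q =
          (F ρ - F 0) * (q : ℝ) ^ (-σ) := by
        have e3 : ∀ t ∈ Finset.range N, (F (t + 1) - F t) * ind (TS S R E (t + 1)) σ q =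
            if t < ρ then (F (t + 1) - F t) * (q : ℝ) ^ (-σ) else 0 := by
          intro t _
          rw [e1 t, mul_ite, mul_zero]
        rw [Finset.sum_congr rfl e3, ← Finset.sum_filter]
        have e4 : (Finset.range N).filter (fun t => t < ρ) = Finset.range ρ := by
          ext t
          simp only [Finset.mem_filter, Finset.mem_range]
          omega
        rw [e4, ← Finset.sum_mul, Finset.sum_range_sub]
      rw [e2, ind_mem hq.1 (show q ∈ TS S R E 0 from ⟨hq.2, Nat.zero_le _⟩)]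
      apply le_of_eq
      ring
  · rw [if_neg hq]
    linarith

end DOMG

open BDENS _root_.Pool.Agent.PTN.DOMG in
/-- from tails to averages -/
theorem DOMG_thm : Stmt_DOMG := by
  classical
  intro S R P M N F hR hC hF h0
  choose K hK using hC
  have hFn : ∀ n, 0 ≤ F n := fun n => h0.trans (hF (Nat.zero_le n))
  obtain ⟨B, hB⟩ : ∃ B : ℕ → ℝ, ∀ E, B E = ∑ q ∈ Finset.range (M + 1), F (R E q) :=
    ⟨_, fun _ => rfl⟩
  refine ⟨F 0 * K 0 + ∑ t ∈ Finset.range N, (F (t + 1) - F t) * K (t + 1) + B 1 + B 2,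
    fun σ h1 hσ2 T => ?_⟩
  have hone : ∀ E : ℕ, (E = 1 ∨ E = 2) →
      ∑ q ∈ T, (if q.Prime ∧ q ∈ S E then F (R E q) * (q : ℝ) ^ (-σ) else 0) ≤
      F 0 * sm (TS S R E 0) σ + ∑ t ∈ Finset.range N, (F (t + 1) - F t) *
        sm (TS S R E (t + 1)) σ + B E := by
    intro E hE
    refine (Finset.sum_le_sum fun q _ => point S R F hF h0 (N := N) (M := M)
      (fun q hq hqM hqW => hR E q hE hq hqM hqW) h1 q).trans ?_
    rw [Finset.sum_add_distrib, Finset.sum_add_distrib]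
    refine add_le_add (add_le_add ?_ ?_) ?_
    · rw [← Finset.mul_sum]
      exact mul_le_mul_of_nonneg_left (DOMG.sum_ind_le _ h1 T) h0
    · rw [Finset.sum_comm]
      refine Finset.sum_le_sum fun t _ => ?_
      rw [← Finset.mul_sum]
      exact mul_le_mul_of_nonneg_left (DOMG.sum_ind_le _ h1 T)
        (sub_nonneg.2 (hF (Nat.le_succ t)))
    · rw [← Finset.sum_filter, hB]
      refine Finset.sum_le_sum_of_subset_of_nonneg ?_ fun q _ _ => hFn _
      intro q hq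
      rw [Finset.mem_range]
      have := (Finset.mem_filter.1 hq).2
      omega
  rw [Finset.sum_pair (by norm_num : (1 : ℕ) ≠ 2)]
  have i1 := hone 1 (Or.inl rfl)
  have i2 := hone 2 (Or.inr rfl)
  have hK' : ∀ t, sm (TS S R 1 t) σ + sm (TS S R 2 t) σ ≤
      P t * Real.log (1 / (σ - 1)) + K t := fun t => hK t σ h1 hσ2
  have j0 := mul_le_mul_of_nonneg_left (hK' 0) h0
  have j1 : ∑ t ∈ Finset.range N, (F (t + 1) - F t) * (sm (TS S R 1 (t + 1)) σ +
      sm (TS S R 2 (t + 1)) σ) ≤ ∑ t ∈ Finset.range N, (F (t + 1) - F t) *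
      (P (t + 1) * Real.log (1 / (σ - 1)) + K (t + 1)) :=
    Finset.sum_le_sum fun t _ => mul_le_mul_of_nonneg_left (hK' (t + 1))
      (sub_nonneg.2 (hF (Nat.le_succ t)))
  have hE : (F 0 * P 0 + ∑ t ∈ Finset.range N, (F (t + 1) - F t) * P (t + 1)) *
        Real.log (1 / (σ - 1)) =
      F 0 * (P 0 * Real.log (1 / (σ - 1))) +
      ∑ t ∈ Finset.range N, (F (t + 1) - F t) * (P (t + 1) * Real.log (1 / (σ - 1))) := by
    rw [add_mul, Finset.sum_mul]
    congr 1
    · ring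
    · exact Finset.sum_congr rfl fun t _ => by ring
  rw [hE]
  have e1 : ∑ t ∈ Finset.range N, (F (t + 1) - F t) * (sm (TS S R 1 (t + 1)) σ +
      sm (TS S R 2 (t + 1)) σ) =
      ∑ t ∈ Finset.range N, (F (t + 1) - F t) * sm (TS S R 1 (t + 1)) σ +
      ∑ t ∈ Finset.range N, (F (t + 1) - F t) * sm (TS S R 2 (t + 1)) σ := by
    rw [← Finset.sum_add_distrib]
    exact Finset.sum_congr rfl fun t _ => by ring
  have e2 : ∑ t ∈ Finset.range N, (F (t + 1) - F t) *
      (P (t + 1) * Real.log (1 / (σ - 1)) + K (t + 1)) =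
      ∑ t ∈ Finset.range N, (F (t + 1) - F t) * (P (t + 1) * Real.log (1 / (σ - 1))) +
      ∑ t ∈ Finset.range N, (F (t + 1) - F t) * K (t + 1) := by
    rw [← Finset.sum_add_distrib]
    exact Finset.sum_congr rfl fun t _ => by ring
  rw [e1, e2] at j1
  rw [mul_add, mul_add] at j0
  linarith

end Pool.Agent.PTN


end

section

/-!
# NZE0: the number of the classes with `v = 0` in the case `h = 0`, `B = ± 1 (mod 9)`
-/

set_option autoImplicit false

open NumberField IsDedekindDomain Finset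
open scoped nonZeroDivisors Pointwise

namespace Pool.Agent.PTN

open Pool.Agent.Lib_helper18 Pool.Agent.Lib_helper18.Eis Pool.Agent.Lib_helper84.Cub
open Pool.Agent.PT Pool.Agent.PTE Pool.Agent.PT3

namespace NZE0

/-- the columns used: `inr j` and `inl i.succ` -/
def colN {m k : ℕ} (j : Fin k) (b : Fin (m + 1)) : Col m k :=
  Fin.cases (motive := fun _ => Col m k) (Sum.inr j) (fun i => Sum.inl i.succ) b

variable (n : ℕ) {m k : ℕ} (π : Fin m → PP) (p e : Fin m → ℕ) (r : Fin k → ℕ)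
    (w0 : ZMod 3) (c : Fin m → ZMod 3) (j : Fin k)

/-- the square matrix, without the diagonal `c` -/
noncomputable def Am : Matrix (Fin (m + 1)) (Fin (m + 1)) (ZMod 3) :=
  fun a b => Nm 0 n π p e r w0 0 a (colN j b)

theorem Am_sub (a b : Fin (m + 1)) :
    (Am n π p e r w0 j - Matrix.diagonal (Fin.cons 0 c : Fin (m + 1) → ZMod 3)) a b =
      Nm 0 n π p e r w0 c a (colN j b) := by
  rw [Matrix.sub_apply]
  refine Fin.cases ?_ (fun i' => ?_) b
  · refine Fin.cases ?_ (fun i => ?_) a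
    · rw [Matrix.diagonal_apply_eq, Fin.cons_zero, sub_zero]
      rfl
    · rw [Matrix.diagonal_apply_ne _ (Fin.succ_ne_zero i), sub_zero]
      rfl
  · refine Fin.cases ?_ (fun i => ?_) a
    · rw [Matrix.diagonal_apply_ne _ (Fin.succ_ne_zero i').symm, sub_zero]
      rfl
    · by_cases hi : i' = i
      · subst hi
        rw [Matrix.diagonal_apply_eq, Fin.cons_succ]
        simp only [Am, colN, Nm, Fin.cases_succ, if_true, Pi.zero_apply, sub_zero]
      · have h1 : i.succ ≠ i'.succ := fun h0 => hi (Fin.succ_injective _ h0).symm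
        rw [Matrix.diagonal_apply_ne _ h1, sub_zero]
        simp only [Am, colN, Nm, Fin.cases_succ, if_neg hi]

theorem vN_zero
    (hdet : (Am n π p e r w0 j - Matrix.diagonal (Fin.cons 0 c : Fin (m + 1) → ZMod 3)).det ≠ 0) :
    vN 0 n π p e r w0 c = 0 := by
  have : Fact (Nat.Prime 3) := ⟨Nat.prime_three⟩
  have h1 : VS 0 n π p e r w0 c = ⊥ := by
    rw [Submodule.eq_bot_iff]
    intro y hy
    obtain ⟨-, h2⟩ := hy
    refine Matrix.eq_zero_of_vecMul_eq_zero hdet ?_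
    funext b
    rw [Pi.zero_apply]
    have h3 := h2 (colN j b) (fun _ => by
      refine Fin.cases ?_ (fun i => ?_) b
      · exact fun h0 => nomatch h0
      · exact fun h0 => Fin.succ_ne_zero _ (Sum.inl.inj h0))
    refine Eq.trans ?_ h3
    change ∑ a, y a * (Am n π p e r w0 j -
      Matrix.diagonal (Fin.cons 0 c : Fin (m + 1) → ZMod 3)) a b =
        ∑ a, y a * Nm 0 n π p e r w0 c a (colN j b)
    refine Finset.sum_congr rfl fun a _ => ?_
    rw [Am_sub]
  unfold vN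
  rw [h1]
  exact finrank_bot _ _

end NZE0

open _root_.Pool.Agent.PTN.NZE0 in
/-- NZE0: the number of the classes with `v = 0`, `h = 0`, `B = ± 1 (mod 9)`. -/
theorem NZE0_thm (hEDC : EDC) : Stmt_NZE0 := by
  intro n m k π p e r f _ hj
  obtain ⟨j, hj⟩ := hj
  have h0 : (Am n π p e r (- wt ((n : ℤ) ^ 2)) j) 0 0 ≠ 0 := hj
  refine (hEDC m _ h0).trans (Nat.card_le_card_of_injective
    (fun x => (⟨(- wt ((n : ℤ) ^ 2), x.1), vN_zero n π p e r _ _ j x.2,
      add_neg_cancel _⟩ : {x : ZMod 3 × (Fin m → ZMod 3) //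
        vN 0 n π p e r x.1 x.2 = 0 ∧ wt ((n : ℤ) ^ 2) + x.1 = 0})) ?_)
  intro x1 x2 hx
  have h2 := congrArg Subtype.val hx
  exact Subtype.ext (Prod.ext_iff.1 h2).2

end Pool.Agent.PTN


end

section

/-!
# TRC: numbers of the same class differ by a cube modulo `9 N`
-/

set_option autoImplicit false

open NumberField IsDedekindDomain Finset
open scoped nonZeroDivisors Pointwise

namespace Pool.Agent.PTN

open Pool.Agent.Lib_helper18 Pool.Agent.Lib_helper18.Eis Pool.Agent.Lib_helper84.Cub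
open Pool.Agent.PT Pool.Agent.PTE Pool.Agent.PT3 Pool.Agent.PTL

namespace TRC

/-- the number of the solutions of `x ^ 3 = 1` modulo `f` -/
noncomputable def N3 (f : ℕ) : ℕ := Nat.card {x : (ZMod f)ˣ // x ^ 3 = 1}

theorem N3_mul {a b : ℕ} (ha : a ≠ 0) (hb : b ≠ 0) (h : a.Coprime b) :
    N3 (a * b) ≤ N3 a * N3 b := by
  have : NeZero a := ⟨ha⟩
  have : NeZero b := ⟨hb⟩
  have : NeZero (a * b) := ⟨mul_ne_zero ha hb⟩
  unfold N3
  rw [← Nat.card_prod]
  let e : (ZMod (a * b))ˣ ≃* (ZMod a)ˣ × (ZMod b)ˣ :=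
    (Units.mapEquiv (ZMod.chineseRemainder h).toMulEquiv).trans MulEquiv.prodUnits
  refine Nat.card_le_card_of_injective
    (fun x : {x : (ZMod (a * b))ˣ // x ^ 3 = 1} =>
      ((⟨(e x.1).1, by rw [← Prod.pow_fst, ← map_pow, x.2, map_one, Prod.fst_one]⟩,
        ⟨(e x.1).2, by rw [← Prod.pow_snd, ← map_pow, x.2, map_one, Prod.snd_one]⟩) :
        {x : (ZMod a)ˣ // x ^ 3 = 1} × {x : (ZMod b)ˣ // x ^ 3 = 1})) ?_
  intro x y hxy
  rw [Prod.ext_iff, Subtype.ext_iff, Subtype.ext_iff] at hxy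
  exact Subtype.ext (e.injective (Prod.ext hxy.1 hxy.2))

theorem N3_prod {ι : Type} [DecidableEq ι] (s : Finset ι) (q : ι → ℕ) (hq : ∀ i, q i ≠ 0)
    (hc : ∀ i j, i ≠ j → (q i).Coprime (q j)) : N3 (∏ i ∈ s, q i) ≤ ∏ i ∈ s, N3 (q i) := by
  induction s using Finset.induction_on with
  | empty =>
    rw [Finset.prod_empty, Finset.prod_empty]
    unfold N3
    have : Subsingleton (ZMod 1) := inferInstance
    have : Subsingleton (ZMod 1)ˣ := inferInstance
    exact Finite.card_le_one_iff_subsingleton.2 inferInstance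
  | insert i s hi ih =>
    rw [Finset.prod_insert hi, Finset.prod_insert hi]
    refine (N3_mul (hq i) (Finset.prod_ne_zero_iff.2 fun j _ => hq j) ?_).trans
      (Nat.mul_le_mul_left _ ih)
    refine Nat.Coprime.prod_right fun j hj => hc i j ?_
    rintro rfl
    exact hi hj

theorem N3_cyc {q : ℕ} (hq : q.Prime) (h2 : q ≠ 2) (j : ℕ) : N3 (q ^ j) ≤ 3 := by
  classical
  have : NeZero (q ^ j) := ⟨pow_ne_zero _ hq.ne_zero⟩
  have hcyc : IsCyclic (ZMod (q ^ j))ˣ := ZMod.isCyclic_units_of_prime_pow q hq h2 j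
  unfold N3
  rw [Nat.card_eq_fintype_card, Fintype.card_subtype]
  exact IsCyclic.card_pow_eq_one_le (by norm_num)

theorem N3_one {q : ℕ} (hq : q.Prime) (h2 : q % 3 = 2) {j : ℕ} (hj : 0 < j) :
    N3 (q ^ j) ≤ 1 := by
  classical
  have : NeZero (q ^ j) := ⟨pow_ne_zero _ hq.ne_zero⟩
  unfold N3
  refine Finite.card_le_one_iff_subsingleton.2 ⟨fun x y => ?_⟩
  have key : ∀ x : {x : (ZMod (q ^ j))ˣ // x ^ 3 = 1}, x.1 = 1 := by
    rintro ⟨x, hx⟩
    have h1 : orderOf x ∣ 3 := orderOf_dvd_of_pow_eq_one hx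
    have h3 : orderOf x ∣ (q ^ j).totient := by
      rw [← ZMod.card_units_eq_totient]
      exact orderOf_dvd_card
    rw [Nat.totient_prime_pow hq hj] at h3
    have hc : Nat.Coprime 3 (q ^ (j - 1) * (q - 1)) := by
      rw [Nat.Prime.coprime_iff_not_dvd Nat.prime_three]
      intro hd
      rcases (Nat.Prime.dvd_mul Nat.prime_three).1 hd with h | h
      · have h4 := Nat.Prime.dvd_of_dvd_pow Nat.prime_three h
        omega
      · omega
    have h4 : orderOf x ∣ 1 := by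
      have h5 := Nat.dvd_gcd h1 h3
      rwa [hc] at h5
    exact orderOf_eq_one_iff.1 (Nat.dvd_one.1 h4)
  exact Subtype.ext ((key x).trans (key y).symm)

/-- the number of the cubes -/
theorem card_cubes (f : ℕ) [NeZero f] (u : (ZMod f)ˣ) :
    f.totient = (Set.range fun x : (ZMod f)ˣ => u * x ^ 3).ncard * N3 f := by
  classical
  let g : (ZMod f)ˣ →* (ZMod f)ˣ := powMonoidHom 3
  have h1 : Nat.card g.ker * g.ker.index = Nat.card (ZMod f)ˣ := Subgroup.card_mul_index _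
  rw [Subgroup.index_ker] at h1
  have h2 : Nat.card g.ker = N3 f := rfl
  have h3 : Nat.card g.range = (Set.range fun x : (ZMod f)ˣ => u * x ^ 3).ncard := by
    have h4 : (Set.range fun x : (ZMod f)ˣ => u * x ^ 3) =
        (fun y => u * y) '' (g.range : Set (ZMod f)ˣ) := by
      ext z
      constructor
      · rintro ⟨x, rfl⟩
        exact ⟨x ^ 3, ⟨x, rfl⟩, rfl⟩
      · rintro ⟨y, ⟨x, rfl⟩, rfl⟩
        exact ⟨x, rfl⟩
    rw [h4, Set.ncard_image_of_injective _ (mul_right_injective u)]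
    exact Nat.card_coe_set_eq _
  rw [← ZMod.card_units_eq_totient, ← Nat.card_eq_fintype_card, ← h1, h2, h3, mul_comm]

end TRC

open _root_.Pool.Agent.PTN.TRC in
theorem TRC_thm (hTRU : Stmt_TRU) : Stmt_TRC := by
  classical
  intro h n m k π p e r f hNF u w0 c y hu hy hcop
  obtain ⟨hT1, hT2⟩ := hTRU h n m k π p e r f hNF
  have hp0 : ∀ i, p i ^ e i ≠ 0 := fun i => pow_ne_zero _ (hNF.pp i).ne_zero
  have hr0 : ∀ j, r j ^ f j ≠ 0 := fun j => pow_ne_zero _ (hNF.rp j).ne_zero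
  have hn0 : n ≠ 0 := by
    rw [hNF.eq]
    exact mul_ne_zero (Finset.prod_ne_zero_iff.2 fun i _ => hp0 i)
      (Finset.prod_ne_zero_iff.2 fun j _ => hr0 j)
  have hF0 : 9 * (3 ^ h * n) ≠ 0 := by positivity
  -- the number of the cube roots of unity
  have hN3 : N3 (9 * (3 ^ h * n)) ≤ 3 ^ (m + 1) := by
    have e1 : 9 * (3 ^ h * n) = 3 ^ (h + 2) * ((∏ i, p i ^ e i) * ∏ j, r j ^ f j) := by
      rw [← hNF.eq]
      ring
    rw [e1]
    have cpr : ∀ i j, (p i ^ e i).Coprime (r j ^ f j) := by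
      intro i j
      refine Nat.Coprime.pow _ _ ((Nat.coprime_primes (hNF.pp i) (hNF.rp j)).2 fun hh => ?_)
      have a1 := hNF.p1 i
      have a2 := hNF.r2 j
      rw [hh] at a1
      omega
    have cpp : ∀ i j, i ≠ j → (p i ^ e i).Coprime (p j ^ e j) := fun i j hij =>
      Nat.Coprime.pow _ _ ((Nat.coprime_primes (hNF.pp i) (hNF.pp j)).2
        fun hh => hij (hNF.pinj hh))
    have crr : ∀ i j, i ≠ j → (r i ^ f i).Coprime (r j ^ f j) := fun i j hij =>
      Nat.Coprime.pow _ _ ((Nat.coprime_primes (hNF.rp i) (hNF.rp j)).2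
        fun hh => hij (hNF.rinj hh))
    have c3 : Nat.Coprime (3 ^ (h + 2)) ((∏ i, p i ^ e i) * ∏ j, r j ^ f j) := by
      refine Nat.Coprime.mul_right ?_ ?_
      · refine Nat.Coprime.prod_right fun i _ => Nat.Coprime.pow _ _ ?_
        refine (Nat.coprime_primes Nat.prime_three (hNF.pp i)).2 fun hh => ?_
        have a1 := hNF.p1 i
        rw [← hh] at a1
        omega
      · refine Nat.Coprime.prod_right fun i _ => Nat.Coprime.pow _ _ ?_
        refine (Nat.coprime_primes Nat.prime_three (hNF.rp i)).2 fun hh => ?_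
        have a1 := hNF.r2 i
        rw [← hh] at a1
        omega
    have cprod : Nat.Coprime (∏ i, p i ^ e i) (∏ j, r j ^ f j) :=
      Nat.Coprime.prod_left fun i _ => Nat.Coprime.prod_right fun j _ => cpr i j
    have b1 : N3 (3 ^ (h + 2)) ≤ 3 := N3_cyc Nat.prime_three (by norm_num) _
    have b2 : N3 (∏ i, p i ^ e i) ≤ 3 ^ m := by
      refine (N3_prod univ _ hp0 cpp).trans ?_
      refine (Finset.prod_le_prod' fun i _ => N3_cyc (hNF.pp i) ?_ (e i)).trans ?_
      · intro hh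
        have a1 := hNF.p1 i
        rw [hh] at a1
        omega
      · rw [Finset.prod_const, Finset.card_univ, Fintype.card_fin]
    have b3 : N3 (∏ j, r j ^ f j) ≤ 1 := by
      refine (N3_prod univ _ hr0 crr).trans ?_
      refine (Finset.prod_le_prod' fun j _ => N3_one (hNF.rp j) (hNF.r2 j) ?_).trans ?_
      · rcases hNF.rf j with hh | hh <;> omega
      · rw [Finset.prod_const_one]
    have hA0 : (∏ i, p i ^ e i) ≠ 0 := Finset.prod_ne_zero_iff.2 fun i _ => hp0 i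
    have hB0 : (∏ j, r j ^ f j) ≠ 0 := Finset.prod_ne_zero_iff.2 fun j _ => hr0 j
    calc N3 (3 ^ (h + 2) * ((∏ i, p i ^ e i) * ∏ j, r j ^ f j))
        ≤ N3 (3 ^ (h + 2)) * N3 ((∏ i, p i ^ e i) * ∏ j, r j ^ f j) :=
          N3_mul (by positivity) (mul_ne_zero hA0 hB0) c3
      _ ≤ 3 * (3 ^ m * 1) := by
          refine Nat.mul_le_mul b1 ((N3_mul hA0 hB0 cprod).trans (Nat.mul_le_mul b2 b3))
      _ = 3 ^ (m + 1) := by ring
  have : NeZero (9 * (3 ^ h * n)) := ⟨hF0⟩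
  -- the class of `u`
  let S : Set (ZMod (9 * (3 ^ h * n)))ˣ :=
    {v | Kl π w0 c (((v : ZMod (9 * (3 ^ h * n))).val : ℕ) : ℤ)}
  let C : Set (ZMod (9 * (3 ^ h * n)))ˣ := Set.range fun x => u * x ^ 3
  have hCS : C ⊆ S := by
    rintro _ ⟨x, rfl⟩
    refine hT2 u w0 c _ (((x : ZMod (9 * (3 ^ h * n))).val : ℕ) : ℤ) hu ?_ ?_
    · exact Nat.isCoprime_iff_coprime.2 (ZMod.val_coe_unit_coprime _)
    · rw [← ZMod.intCast_zmod_eq_zero_iff_dvd]
      push_cast
      rw [ZMod.natCast_zmod_val, ZMod.natCast_zmod_val, ZMod.natCast_zmod_val, sub_self]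
  have hcard : S.ncard ≤ C.ncard := by
    have h1 : S.ncard * 3 ^ (m + 1) = (9 * (3 ^ h * n)).totient := by
      rw [← Nat.card_coe_set_eq]
      exact hT1 w0 c
    have h2 := card_cubes (9 * (3 ^ h * n)) u
    have h3 : S.ncard * 3 ^ (m + 1) ≤ C.ncard * 3 ^ (m + 1) := by
      rw [h1, h2]
      exact Nat.mul_le_mul_left _ hN3
    exact Nat.le_of_mul_le_mul_right h3 (by positivity)
  have hCSeq : C = S := Set.eq_of_subset_of_ncard_le hCS hcard S.toFinite
  -- the unit of `y`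
  obtain ⟨Y, hY⟩ : IsUnit ((y : ℤ) : ZMod (9 * (3 ^ h * n))) :=
    (ZMod.coe_int_isUnit_iff_isCoprime _ _).2 hcop.symm
  have hYS : Y ∈ S := by
    obtain ⟨g1, g2⟩ := hT2 Y (wt ((((Y : ZMod (9 * (3 ^ h * n))).val : ℕ) : ℤ) ^ 2))
      (fun i => sym (π i).1 ((((Y : ZMod (9 * (3 ^ h * n))).val : ℕ) : ℤ) : Eis)) y 1
      ⟨rfl, fun i => rfl⟩ hcop (by
        rw [← ZMod.intCast_zmod_eq_zero_iff_dvd]
        push_cast
        rw [ZMod.natCast_zmod_val, hY, mul_one, sub_self])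
    exact ⟨g1.symm.trans hy.1, fun i => (g2 i).symm.trans (hy.2 i)⟩
  rw [← hCSeq] at hYS
  obtain ⟨x, hx⟩ := hYS
  refine ⟨(((x : ZMod (9 * (3 ^ h * n))).val : ℕ) : ℤ), ?_⟩
  rw [← ZMod.intCast_zmod_eq_zero_iff_dvd]
  push_cast
  rw [ZMod.natCast_zmod_val, ZMod.natCast_zmod_val, ← hY, ← hx, sub_eq_zero]
  push_cast
  rfl

end Pool.Agent.PTN


end
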