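import Mathlib
import Pool.Agent.PTDM.C21
import Pool.Agent.PTDM.C22
import Pool.Agent.PTDM.C23
import Pool.Agent.PTDM.C27
import Pool.Agent.PTDM.C37
import Pool.Agent.PTDM.C39

/-! Parts: PTN.KEMB, PTN.KOM, PTN.KKE, PTN.KIX, PTN.KPL, PTN.NZER, PTN.NPSU, PTN.GFRU, PTN.BDU, PTN.CAB, PTN.SUMA, PTN.NZE1 -/

section

/-!
# PTN_KEMB: the rational points and complex conjugation (statement of helper3)
-/

set_option autoImplicit false

namespace Pool.Agent.PTN.KEMB

open Pool.Agent.Lib_helper18 Pool.Agent.Lib_helper18.Eis Pool.Agent.Lib_helper84.Cub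
open Pool.Agent.PT WeierstrassCurve.Affine

/-- the points over the rationals of the base change to the rationals are the rational points -/
noncomputable def idHom (A : ℤ) :
    CubeRank.GA A →+ (WeierstrassCurve.Affine.baseChange (CubeRank.EA A).toAffine ℚ).Point :=
  AddMonoidHom.id _

theorem idHom_some (A : ℤ) (x y : ℚ) (h) : ∃ h', idHom A (.some x y h) = .some x y h' := ⟨h, rfl⟩

theorem idHom_injective (A : ℤ) : Function.Injective (idHom A) := fun _ _ h => h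

variable {K : Type} [Field K] [CharZero K]

/-- an element fixed by the conjugation is rational -/
theorem rational_of_fixed {ι : Eis →+* K} {c : K →ₐ[ℚ] K} (hK : KF K ι c) {z : K} (hz : c z = z) :
    ∃ q : ℚ, z = (q : K) := by
  obtain ⟨e, d, hd, he⟩ := hK.frac z
  have hd' : (d : K) ≠ 0 := Int.cast_ne_zero.mpr hd
  have h1 : ι (conj e) = ι e := by
    rw [← hK.conj e, ← he, map_mul, hz, map_intCast]
  have h2 : conj e = e := hK.inj h1
  have h3 : e.im = 0 := by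
    have := congrArg Eis.im h2
    rw [conj_im] at this
    omega
  have h4 : e = (e.re : Eis) := by
    ext
    · simp
    · simp [h3]
  refine ⟨(e.re : ℚ) / (d : ℚ), ?_⟩
  rw [h4, map_intCast] at he
  push_cast
  rw [eq_div_iff hd', he]

theorem _root_.Pool.Agent.PTN.KEMB_thm : Stmt_KEMB := by
  intro K _ _ _ ι c A hK hA
  refine ⟨Point.map c, (Point.map (W' := (CubeRank.EA A).toAffine) (Algebra.ofId ℚ K)).comp
    (idHom A), ?_, ?_, ?_, ?_, ?_⟩
  · intro x y h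
    exact ⟨_, rfl⟩
  · intro x y h
    refine ⟨((CubeRank.EA A).toAffine.baseChange_nonsingular (Algebra.ofId ℚ K).injective ..).mpr
      h, rfl⟩
  · exact (Point.map_injective _).comp (idHom_injective A)
  · intro Q
    rcases Q with _ | ⟨x, y, h⟩
    · rfl
    · have hcc : ∀ z : K, c (c z) = z := by
        intro z
        obtain ⟨e, d, hd, he⟩ := hK.frac z
        have hd' : (d : K) ≠ 0 := Int.cast_ne_zero.mpr hd
        have h1 : c (c z) * d = z * d := by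
          calc c (c z) * d = c (c (z * d)) := by simp only [map_mul, map_intCast]
            _ = z * d := by rw [he, hK.conj, hK.conj, conj_conj]
        exact mul_right_cancel₀ hd' h1
      change Point.some _ _ _ = Point.some _ _ _
      simp only [Point.some.injEq]
      exact ⟨hcc x, hcc y⟩
  · intro Q
    constructor
    · intro hQ
      rcases Q with _ | ⟨x, y, h⟩
      · exact ⟨0, rfl⟩
      · change Point.some _ _ _ = Point.some _ _ _ at hQ
        simp only [Point.some.injEq] at hQ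
        obtain ⟨q, rfl⟩ := rational_of_fixed hK hQ.1
        obtain ⟨r, rfl⟩ := rational_of_fixed hK hQ.2
        exact ⟨.some q r (((CubeRank.EA A).toAffine.baseChange_nonsingular
          (Algebra.ofId ℚ K).injective ..).mp h), rfl⟩
    · rintro ⟨P, rfl⟩
      rcases P with _ | ⟨x, y, h⟩
      · rfl
      · change Point.some _ _ _ = Point.some _ _ _
        simp only [Point.some.injEq]
        exact ⟨c.commutes x, c.commutes y⟩

end Pool.Agent.PTN.KEMB


end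

section

/-!
# Module PTN_KOM: multiplication by `w`
-/

set_option autoImplicit false

namespace Pool.Agent.PTN

open Pool.Agent.Lib_helper18 Pool.Agent.Lib_helper18.Eis Pool.Agent.Lib_helper84.Cub
open Pool.Agent.PT WeierstrassCurve.Affine

namespace KOM

/-- The data of a curve `y² = x³ + B` with a cube root of unity. -/
structure Dt {K : Type} [Field K] (W : WeierstrassCurve.Affine K) (z B : K) : Prop where
  a1 : W.a₁ = 0
  a2 : W.a₂ = 0
  a3 : W.a₃ = 0
  a4 : W.a₄ = 0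
  B0 : B ≠ 0
  two : (2 : K) ≠ 0
  ns : ∀ x y : K, W.Nonsingular x y ↔ y ^ 2 = x ^ 3 + B
  rel : z ^ 2 + z + 1 = 0
  ne1 : z ≠ 1

variable {K : Type} [Field K] [DecidableEq K] {W : WeierstrassCurve.Affine K} {z B : K}

theorem Dt.cube (h : Dt W z B) : z ^ 3 = 1 := by
  have := h.rel
  linear_combination (z - 1) * this

theorem Dt.ns' (h : Dt W z B) {x y : K} (hxy : W.Nonsingular x y) : W.Nonsingular (z * x) y := by
  rw [h.ns] at hxy ⊢
  rw [hxy, mul_pow, h.cube, one_mul]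

/-- multiplication by the root of unity on the points -/
def omf (h : Dt W z B) : W.Point → W.Point
  | .zero => .zero
  | .some x y hxy => .some (z * x) y (h.ns' hxy)

theorem some_congr {x x' y y' : K} (hx : x = x') (hy : y = y') (h : W.Nonsingular x y)
    (h' : W.Nonsingular x' y') : Point.some x y h = Point.some x' y' h' := by
  subst hx hy
  rfl

theorem Dt.negY (h : Dt W z B) (x y : K) : W.negY x y = -y := by
  unfold WeierstrassCurve.Affine.negY
  rw [h.a1, h.a3]; ring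

theorem Dt.addX (h : Dt W z B) (x y l : K) : W.addX x y l = l ^ 2 - x - y := by
  unfold WeierstrassCurve.Affine.addX
  rw [h.a1, h.a2]; ring

theorem Dt.addY (h : Dt W z B) (x y u l : K) : W.addY x y u l =
    -(l * (l ^ 2 - x - y - x) + u) := by
  unfold WeierstrassCurve.Affine.addY WeierstrassCurve.Affine.negAddY
  rw [h.negY, h.addX]

theorem Dt.slope_same (h : Dt W z B) (x y y' : K) (hy : y ≠ -y') :
    W.slope x x y y' = 3 * x ^ 2 / (2 * y) := by
  unfold WeierstrassCurve.Affine.slope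
  rw [if_pos rfl, h.negY, if_neg hy, h.a1, h.a2, h.a4, h.negY]
  congr 1 <;> ring

theorem Dt.slope_ne (x x' y y' : K) (hx : x ≠ x') : W.slope x x' y y' = (y - y') / (x - x') := by
  unfold WeierstrassCurve.Affine.slope
  rw [if_neg hx]

theorem Dt.z0 (h : Dt W z B) : z ≠ 0 := by
  intro h0
  have := h.cube
  rw [h0] at this
  norm_num at this

theorem Dt.slope (h : Dt W z B) (x x' y y' : K) (hxy : ¬ (x = x' ∧ y = W.negY x' y')) :
    W.slope (z * x) (z * x') y y' = z ^ 2 * W.slope x x' y y' := by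
  by_cases hx : x = x'
  · subst hx
    have hy : y ≠ -y' := fun hh => hxy ⟨rfl, by rw [h.negY]; exact hh⟩
    rw [h.slope_same _ _ _ hy, h.slope_same _ _ _ hy]
    ring
  · have hx' : z * x ≠ z * x' := fun hh => hx (mul_left_cancel₀ h.z0 hh)
    rw [Dt.slope_ne _ _ _ _ hx, Dt.slope_ne _ _ _ _ hx']
    have h1 : x - x' ≠ 0 := sub_ne_zero.2 hx
    have h2 : z * x - z * x' ≠ 0 := sub_ne_zero.2 hx'
    rw [mul_div_assoc', div_eq_div_iff h2 h1]
    linear_combination (-(y - y') * (x - x')) * h.cube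

/-- multiplication by the root of unity as a homomorphism -/
def om (h : Dt W z B) : W.Point →+ W.Point where
  toFun := omf h
  map_zero' := rfl
  map_add' := by
    rintro (_ | ⟨x₁, y₁, h₁⟩) (_ | ⟨x₂, y₂, h₂⟩)
    any_goals rfl
    by_cases hxy : x₁ = x₂ ∧ y₁ = W.negY x₂ y₂
    · rw [Point.add_of_Y_eq hxy.1 hxy.2]
      show (0 : W.Point) = Point.some _ _ (h.ns' h₁) + Point.some _ _ (h.ns' h₂)
      rw [Point.add_of_Y_eq (by rw [hxy.1]) (by rw [hxy.2, h.negY, h.negY])]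
    · rw [Point.add_some hxy]
      show Point.some _ _ _ = Point.some _ _ (h.ns' h₁) + Point.some _ _ (h.ns' h₂)
      have hxy' : ¬ (z * x₁ = z * x₂ ∧ y₁ = W.negY (z * x₂) y₂) := by
        rintro ⟨e1, e2⟩
        exact hxy ⟨mul_left_cancel₀ h.z0 e1, by rw [h.negY] at e2 ⊢; exact e2⟩
      rw [Point.add_some hxy']
      apply some_congr
      · rw [h.addX, h.addX, h.slope _ _ _ _ hxy]
        linear_combination (-(z * W.slope x₁ x₂ y₁ y₂ ^ 2)) * h.cube
      · rw [h.addY, h.addY, h.slope _ _ _ _ hxy]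
        have h3 := h.cube
        have h6 : z ^ 6 = 1 := by
          calc z ^ 6 = (z ^ 3) ^ 2 := by ring
            _ = 1 := by rw [h3]; ring
        linear_combination (W.slope x₁ x₂ y₁ y₂ ^ 3) * h6 -
          (W.slope x₁ x₂ y₁ y₂ * (2 * x₁ + x₂)) * h3

theorem om_some (h : Dt W z B) (x y : K) (hxy : W.Nonsingular x y) :
    om h (.some x y hxy) = .some (z * x) y (h.ns' hxy) := rfl

theorem om_sum (h : Dt W z B) (Q : W.Point) : Q + om h Q + om h (om h Q) = 0 := by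
  rcases Q with _ | ⟨x, y, hxy⟩
  · rfl
  · rw [om_some, om_some]
    have h0 := (h.ns x y).1 hxy
    have hx0 : x = z * x → x = 0 := by
      intro e
      have h1 : x * (1 - z) = 0 := by linear_combination e
      rcases mul_eq_zero.1 h1 with h2 | h2
      · exact h2
      · exact absurd (sub_eq_zero.1 h2).symm h.ne1
    have hne : ¬ (x = z * x ∧ y = W.negY (z * x) y) := by
      rintro ⟨e1, e2⟩
      have e3 := hx0 e1
      rw [h.negY] at e2
      have e4 : (2 : K) * y = 0 := by linear_combination e2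
      have e5 : y = 0 := (mul_eq_zero.1 e4).resolve_left h.two
      rw [e3, e5] at h0
      apply h.B0
      linear_combination -h0
    rw [Point.add_some hne]
    have hs : W.slope x (z * x) y y = 0 := by
      by_cases hx : x = z * x
      · have e3 := hx0 hx
        have hy : y ≠ -y := by
          intro e
          exact hne ⟨hx, by rw [h.negY]; exact e⟩
        rw [e3, mul_zero, h.slope_same _ _ _ hy]
        simp
      · rw [Dt.slope_ne _ _ _ _ hx]
        simp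
    apply Point.add_of_Y_eq
    · rw [h.addX, hs]
      linear_combination (-x) * h.rel
    · rw [h.addY, hs, h.negY]
      ring

end KOM

theorem KOM_thm (h0 : Stmt_KEQ) : Stmt_KOM := by
  intro K _ _ _ ι c A hKF hA
  obtain ⟨hns, -, -, -, hrel, hne⟩ := h0 K ι c A hKF hA
  have hB : (-432 * (A : K) ^ 2) ≠ 0 := by
    have : (A : K) ≠ 0 := by exact_mod_cast hA
    have h4 : (432 : K) ≠ 0 := by norm_num
    simp [this]
  have D : KOM.Dt (WeierstrassCurve.Affine.baseChange (CubeRank.EA A).toAffine K) (ι w)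
      (-432 * (A : K) ^ 2) := by
    refine ⟨?_, ?_, ?_, ?_, hB, two_ne_zero, ?_, hrel, hne⟩
    · show algebraMap ℚ K 0 = 0
      exact map_zero _
    · show algebraMap ℚ K 0 = 0
      exact map_zero _
    · show algebraMap ℚ K 0 = 0
      exact map_zero _
    · show algebraMap ℚ K 0 = 0
      exact map_zero _
    · intro x y
      rw [hns x y]
      constructor
      · intro h; rw [h]; ring
      · intro h; rw [h]; ring
  have hc : c (ι w) = (ι w) ^ 2 := by
    rw [hKF.conj, conj_w, map_pow]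
  refine ⟨KOM.om D, fun x y h => ⟨D.ns' h, rfl⟩, KOM.om_sum D, ?_⟩
  intro cc hcc Q
  rcases Q with _ | ⟨x, y, hxy⟩
  · show cc (KOM.om D 0) = KOM.om D (KOM.om D (cc 0))
    rw [map_zero, map_zero, map_zero, map_zero]
  · rw [KOM.om_some]
    obtain ⟨h1, e1⟩ := hcc _ _ (D.ns' hxy)
    obtain ⟨h2, e2⟩ := hcc _ _ hxy
    rw [e1, e2, KOM.om_some, KOM.om_some]
    apply KOM.some_congr
    · rw [map_mul, hc]; ring
    · rfl

end Pool.Agent.PTN


end

section

/-!
# Module PTN_KKE: the kernel of the Kummer map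
-/

set_option autoImplicit false

namespace Pool.Agent.PTN

open Pool.Agent.Lib_helper18 Pool.Agent.Lib_helper18.Eis Pool.Agent.Lib_helper84.Cub
open Pool.Agent.PT WeierstrassCurve.Affine

namespace KKE

/-- a rational integer whose cube root is in `K` is a cube -/
theorem int_cube {K : Type} [Field K] [CharZero K] {ι : Eis →+* K} {c : K →ₐ[ℚ] K}
    (hK : KF K ι c) {A : ℤ} (hA : A ≠ 0) {z : K} (hz : z ^ 3 = (A : K)) :
    ∃ n : ℤ, n ^ 3 = A := by
  obtain ⟨e, d, hd, he⟩ := hK.frac z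
  have h1 : ι (e ^ 3) = ι ((A * d ^ 3 : ℤ) : Eis) := by
    rw [map_pow, ← he, map_intCast]
    push_cast
    rw [← hz]
    ring
  have h2 : e ^ 3 = ((A * d ^ 3 : ℤ) : Eis) := hK.inj h1
  have h3 : norm e ^ 3 = (A * d ^ 3) ^ 2 := by
    have h4 := congrArg norm h2
    have h5 : norm (e ^ 3) = norm e ^ 3 := by
      rw [pow_succ, pow_succ, pow_one, norm_mul, norm_mul]
      ring
    rw [h5, norm_intCast] at h4
    exact h4
  have hB : A * d ^ 3 ≠ 0 := mul_ne_zero hA (pow_ne_zero _ hd)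
  generalize hBdef : A * d ^ 3 = B at *
  have h6 : norm e ^ 3 ∣ B ^ 3 := ⟨B, by rw [h3]; ring⟩
  have h7 : norm e ∣ B := (Int.pow_dvd_pow_iff (by norm_num)).1 h6
  obtain ⟨m, hm⟩ := h7
  have h8 : B = m ^ 3 := by
    have h9 : B ^ 2 * B = B ^ 2 * m ^ 3 := by
      rw [← h3]
      have : B ^ 2 * B = B ^ 3 := by ring
      rw [h3, this]
      conv_lhs => rw [hm]
      rw [← h3]
      ring
    exact mul_left_cancel₀ (pow_ne_zero 2 hB) h9
  have h10 : d ^ 3 ∣ m ^ 3 := ⟨A, by rw [← h8, ← hBdef]; ring⟩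
  have h11 : d ∣ m := (Int.pow_dvd_pow_iff (by norm_num)).1 h10
  obtain ⟨n, hn⟩ := h11
  refine ⟨n, ?_⟩
  have h12 : d ^ 3 * n ^ 3 = d ^ 3 * A := by
    have : A * d ^ 3 = (d * n) ^ 3 := by rw [hBdef, h8, hn]
    linear_combination -this
  exact mul_left_cancel₀ (pow_ne_zero 3 hd) h12

/-- the point of the isogeny -/
theorem theta {K : Type} [Field K] [DecidableEq K] {W : WeierstrassCurve.Affine K} {z s : K}
    (D : KOM.Dt W z (s ^ 2)) (g h x y : K) (hx : x = g * h) (h1 : h ^ 3 = y + s)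
    (h2 : g ^ 3 = y - s) (hxy : W.Nonsingular x y) :
    ∃ (X Y : K) (H0 : W.Nonsingular X Y) (H1 : W.Nonsingular (z * X) Y)
      (H2 : W.Nonsingular (z * (z * X)) Y),
      (Point.some x y hxy : W.Point) = Point.some (z * X) Y H1 - Point.some (z * (z * X)) Y H2 := by
  have two := D.two
  have hz := D.rel
  have hs : s ≠ 0 := by
    intro h0
    exact D.B0 (by rw [h0]; ring)
  have h3 : (h ^ 2 + h * g + g ^ 2) * (h - g) = 2 * s := by
    linear_combination h1 - h2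
  have hq : h ^ 2 + h * g + g ^ 2 ≠ 0 := by
    intro h0
    rw [h0, zero_mul] at h3
    exact mul_ne_zero two hs h3.symm
  set q := h ^ 2 + h * g + g ^ 2 with hqd
  have hne : ¬ (z * -q = z * (z * -q)) := by
    intro h0
    have h4 : (z * -q) * (1 - z) = 0 := by linear_combination h0
    rcases mul_eq_zero.1 h4 with h5 | h5
    · rcases mul_eq_zero.1 h5 with h6 | h6
      · exact D.z0 h6
      · exact hq (neg_eq_zero.1 h6)
    · exact D.ne1 (sub_eq_zero.1 h5).symm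
  have H0 : W.Nonsingular (-q) (-(z - z ^ 2) * q * (h + g) / 2) := by
    rw [D.ns]
    have hs' : s = q * (h - g) / 2 := by
      rw [eq_div_iff two]; linear_combination -h3
    have hd : (z - z ^ 2) ^ 2 = -3 := by
      linear_combination (z ^ 2 - 3 * z + 3) * hz
    have e1 : (-(z - z ^ 2) * q * (h + g) / 2) ^ 2 = (z - z ^ 2) ^ 2 * (q * (h + g) / 2) ^ 2 := by
      ring
    rw [e1, hd, hs', hqd]
    field_simp
    ring
  refine ⟨-q, -(z - z ^ 2) * q * (h + g) / 2, H0, D.ns' H0, D.ns' (D.ns' H0), ?_⟩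
  set Y := -(z - z ^ 2) * q * (h + g) / 2 with hY
  have hY2 : 2 * Y = -(z - z ^ 2) * q * (h + g) := by
    rw [hY]; field_simp
  rw [sub_eq_add_neg, Point.neg_some]
  have hne' : ¬ (z * -q = z * (z * -q) ∧ Y = W.negY (z * (z * -q)) (W.negY (z * (z * -q)) Y)) :=
    fun h0 => hne h0.1
  rw [Point.add_some hne']
  have hsl : W.slope (z * -q) (z * (z * -q)) Y (W.negY (z * (z * -q)) Y) = h + g := by
    rw [KOM.Dt.slope_ne _ _ _ _ hne, D.negY, div_eq_iff (sub_ne_zero.2 hne)]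
    linear_combination hY2
  apply KOM.some_congr
  · rw [D.addX, hsl, hx, hqd]
    linear_combination (-(h ^ 2 + h * g + g ^ 2)) * hz
  · rw [D.addY, hsl]
    apply mul_left_cancel₀ two
    have h5 : 2 * y = h ^ 3 + g ^ 3 := by linear_combination -h1 - h2
    have h6 : q = h ^ 2 + h * g + g ^ 2 := hqd
    linear_combination h5 + hY2 + 3 * (h + g) * q * hz - 3 * (h + g) * h6

end KKE

theorem KKE_thm (h0 : Stmt_KEQ) : Stmt_KKE := by
  intro K _ _ _ ι c A hK hA hcube om hom _ Q hQ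
  obtain ⟨hns, hs2, hs, -, hrel, hne⟩ := h0 K ι c A hK hA
  have hAK : (A : K) ≠ 0 := by exact_mod_cast hA
  obtain ⟨g, hg⟩ := hQ
  rcases Q with _ | ⟨x, y, hxy⟩
  · refine ⟨0, ?_⟩
    rw [map_zero, map_zero, sub_zero]
    rfl
  have hB : sD ι A ^ 2 ≠ 0 := pow_ne_zero 2 hs
  have D : KOM.Dt (WeierstrassCurve.Affine.baseChange (CubeRank.EA A).toAffine K) (ι w)
      (sD ι A ^ 2) := by
    refine ⟨?_, ?_, ?_, ?_, hB, two_ne_zero, ?_, hrel, hne⟩
    · show algebraMap ℚ K 0 = 0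
      exact map_zero _
    · show algebraMap ℚ K 0 = 0
      exact map_zero _
    · show algebraMap ℚ K 0 = 0
      exact map_zero _
    · show algebraMap ℚ K 0 = 0
      exact map_zero _
    · intro x y
      rw [hns x y, hs2]
      constructor
      · intro h; rw [h]; ring
      · intro h; rw [h]; ring
  have hE : y ^ 2 = x ^ 3 + sD ι A ^ 2 := (D.ns x y).1 hxy
  have hd2 : (ι w - ι w ^ 2) ^ 2 = -3 := by
    linear_combination (ι w ^ 2 - 3 * ι w + 3) * hrel
  have hd0 : ι w - ι w ^ 2 ≠ 0 := by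
    intro h
    rw [h] at hd2
    norm_num at hd2
  by_cases hy : y = sD ι A
  · exfalso
    apply hcube
    have e1 : kap ι (Point.some x y hxy : HH A K) = (y + sD ι A) ^ 2 := if_pos hy
    have e2 : g ^ 3 = -1728 * (A : K) ^ 2 := by
      rw [← hg, e1, hy]
      linear_combination 4 * hs2
    apply KKE.int_cube hK hA (z := (g / 12) ^ 2 / A)
    have e3 : ((g / 12) ^ 2 / (A : K)) ^ 3 = (g ^ 3) ^ 2 / (12 ^ 6 * (A : K) ^ 3) := by
      field_simp
    rw [e3, e2]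
    field_simp
    norm_num
  by_cases hy' : y = -sD ι A
  · exfalso
    apply hcube
    have e1 : kap ι (Point.some x y hxy : HH A K) = y - sD ι A := if_neg hy
    have e2 : g ^ 3 = -24 * (A : K) * (ι w - ι w ^ 2) := by
      rw [← hg, e1, hy', sD]
      ring
    apply KKE.int_cube hK hA (z := g / (2 * (ι w - ι w ^ 2)))
    rw [div_pow, e2, div_eq_iff (pow_ne_zero 3 (mul_ne_zero two_ne_zero hd0))]
    linear_combination (-8 * (A : K) * (ι w - ι w ^ 2)) * hd2
  have e1 : kap ι (Point.some x y hxy : HH A K) = y - sD ι A := if_neg hy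
  have e2 : g ^ 3 = y - sD ι A := by rw [← hg, e1]
  have hg0 : g ≠ 0 := by
    intro h
    rw [h] at e2
    apply hy
    linear_combination -e2
  have e3 : (x / g) ^ 3 = y + sD ι A := by
    rw [div_pow, div_eq_iff (pow_ne_zero 3 hg0), e2]
    linear_combination -hE
  have e4 : x = g * (x / g) := by field_simp
  obtain ⟨X, Y, H0, H1, H2, he⟩ := KKE.theta D g (x / g) x y e4 e3 e2 hxy
  refine ⟨Point.some X Y H0, ?_⟩
  obtain ⟨H1', k1⟩ := hom X Y H0
  obtain ⟨H2', k2⟩ := hom _ _ H1'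
  rw [k1, k2]
  exact he

end Pool.Agent.PTN


end

section

/-!
# PTN_KIX: the index of `3 G` (pure group theory)
-/

set_option autoImplicit false

namespace Pool.Agent.PTN

namespace KIX

variable {G H : Type} [AddCommGroup G] [AddCommGroup H]

lemma om3 (om : H →+ H) (h1 : ∀ Q, Q + om Q + om (om Q) = 0) (Q : H) :
    om (om (om Q)) = Q := by
  have a := h1 Q
  have b := h1 (om Q)
  have c : om (om (om Q)) - Q = 0 := by
    have : om (om (om Q)) - Q =
      (om Q + om (om Q) + om (om (om Q))) - (Q + om Q + om (om Q)) := by abel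
    rw [this, a, b, sub_zero]
  exact sub_eq_zero.mp c

lemma theta2 (om : H →+ H) (h1 : ∀ Q, Q + om Q + om (om Q) = 0) (Q : H) :
    om (om Q - om (om Q)) - om (om (om Q - om (om Q))) = -(3 • Q) := by
  have c := om3 om h1
  have a := h1 Q
  simp only [map_sub]
  rw [c Q]
  have : om (om Q) - Q - (Q - om Q) = (Q + om Q + om (om Q)) - 3 • Q := by
    rw [show (3 : ℕ) = 2 + 1 from rfl, add_nsmul, two_nsmul, one_nsmul]; abel
  rw [this, a, zero_sub]

lemma ccom2 (om cc : H →+ H) (h1 : ∀ Q, Q + om Q + om (om Q) = 0)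
    (h2 : ∀ Q, cc (om Q) = om (om (cc Q))) (Q : H) : cc (om (om Q)) = om (cc Q) := by
  rw [h2, h2, om3 om h1]

lemma cctheta (om cc : H →+ H) (h1 : ∀ Q, Q + om Q + om (om Q) = 0)
    (h2 : ∀ Q, cc (om Q) = om (om (cc Q))) (R : H) :
    cc (om R - om (om R)) = -(om (cc R) - om (om (cc R))) := by
  rw [map_sub, ccom2 om cc h1 h2, h2]; abel

lemma threeT (om : H →+ H) (T : H) (h1 : ∀ Q, Q + om Q + om (om Q) = 0) (h5 : om T = T) :
    3 • T = 0 := by
  have := h1 T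
  rw [h5, h5] at this
  rw [show (3 : ℕ) = 2 + 1 from rfl, add_nsmul, two_nsmul, one_nsmul]
  exact this

lemma threeiT (om : H →+ H) (T : H) (h1 : ∀ Q, Q + om Q + om (om Q) = 0) (h5 : om T = T)
    (i : ℕ) : i • T + i • T + i • T = 0 := by
  have h := threeT om T h1 h5
  have : i • T + i • T + i • T = i • (3 • T) := by
    rw [show (3 : ℕ) = 2 + 1 from rfl, add_nsmul, two_nsmul, one_nsmul, nsmul_add, nsmul_add]
  rw [this, h, nsmul_zero]

lemma thetaT (om : H →+ H) (T : H) (h5 : om T = T) (i : ℕ) :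
    om (i • T) = i • T := by
  rw [map_nsmul, h5]

lemma partD (om cc : H →+ H) (T : H) (h1 : ∀ Q, Q + om Q + om (om Q) = 0)
    (h2 : ∀ Q, cc (om Q) = om (om (cc Q))) (h5 : om T = T) (h6 : cc T = -T)
    (h7 : ∀ R, om R = om (om R) → ∃ i : ℕ, R = i • T) (R : H)
    (h : cc (om R - om (om R)) = -(om R - om (om R))) :
    ∃ R', cc R' = R' ∧ om R' - om (om R') = om R - om (om R) := by
  rw [cctheta om cc h1 h2] at h
  have h' : om (cc R) - om (om (cc R)) = om R - om (om R) := neg_injective h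
  have h'' : om (cc R - R) = om (om (cc R - R)) := by
    simp only [map_sub]
    have : om (cc R) - om R - (om (om (cc R)) - om (om R)) = 0 := by
      have e : om (cc R) - om R - (om (om (cc R)) - om (om R)) =
        (om (cc R) - om (om (cc R))) - (om R - om (om R)) := by abel
      rw [e, h', sub_self]
    exact sub_eq_zero.mp this
  obtain ⟨i, hi⟩ := h7 _ h''
  have hc : cc R = R + i • T := by rw [← hi]; abel
  refine ⟨R - i • T, ?_, ?_⟩
  · rw [map_sub, map_nsmul, h6, hc, smul_neg]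
    have h3 := threeiT om T h1 h5 i
    have e : R + i • T - -(i • T) = (R - i • T) + (i • T + i • T + i • T) := by abel
    rw [e, h3, add_zero]
  · simp only [map_sub, thetaT om T h5 i]
    abel

lemma partE (om cc : H →+ H) (T : H) (h1 : ∀ Q, Q + om Q + om (om Q) = 0)
    (h2 : ∀ Q, cc (om Q) = om (om (cc Q))) (h3 : ∀ Q, cc (cc Q) = Q)
    (h5 : om T = T) (h6 : cc T = -T)
    (h7 : ∀ R, om R = om (om R) → ∃ i : ℕ, R = i • T) (R : H)
    (h : cc (om R - om (om R)) = om R - om (om R)) : cc R = -R := by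
  rw [cctheta om cc h1 h2] at h
  have h'' : om (cc R + R) = om (om (cc R + R)) := by
    simp only [map_add]
    have : om (cc R) + om R - (om (om (cc R)) + om (om R)) = 0 := by
      have e : om (cc R) + om R - (om (om (cc R)) + om (om R)) =
        (om (cc R) - om (om (cc R))) + (om R - om (om R)) := by abel
      rw [e, ← h, add_neg_cancel]
    exact sub_eq_zero.mp this
  obtain ⟨i, hi⟩ := h7 _ h''
  have hc : cc (cc R + R) = cc (i • T) := by rw [hi]
  rw [map_add, h3, map_nsmul, h6, smul_neg, add_comm, hi] at hc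
  have h3 := threeiT om T h1 h5 i
  have hz : i • T = 0 := by
    have : i • T + i • T = 0 := by nth_rw 1 [hc]; abel
    rw [this, zero_add] at h3
    exact h3
  rw [hz] at hi
  exact eq_neg_of_add_eq_zero_left hi

end KIX

open _root_.Pool.Agent.PTN.KIX in
theorem KIX_thm : Stmt_KIX := by
  intro G H _ _ j om cc T N W₁ W₂ _ _ Ψ₁ Ψ₂ hj h1 h2 h3 h4 h5 h6 h7 h8 h9 h10
  classical
  -- representatives
  let f1 : W₁ → G := fun α => if h : ∃ P, Ψ₁ P = α then h.choose else 0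
  have hf1 : ∀ P, Ψ₁ (f1 (Ψ₁ P)) = Ψ₁ P := by
    intro P
    have hex : ∃ P', Ψ₁ P' = Ψ₁ P := ⟨P, rfl⟩
    have : f1 (Ψ₁ P) = hex.choose := dif_pos hex
    rw [this]; exact hex.choose_spec
  have hS : ∀ β : W₂, ∃ S : G, ∀ Q, cc Q = -Q → Ψ₂ Q = β →
      ∃ Q', cc Q' = -Q' ∧ Ψ₂ Q' = β ∧ j S = om Q' - om (om Q') := by
    intro β
    by_cases hex : ∃ Q, cc Q = -Q ∧ Ψ₂ Q = β
    · obtain ⟨Q', hQ', hQ'2⟩ := hex
      have : cc (om Q' - om (om Q')) = om Q' - om (om Q') := by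
        rw [cctheta om cc h1 h2, hQ']
        simp only [map_neg]
        abel
      obtain ⟨S, hS⟩ := (h4 _).mp this
      exact ⟨S, fun _ _ _ => ⟨Q', hQ', hQ'2, hS⟩⟩
    · exact ⟨0, fun Q hQ hQ2 => absurd ⟨Q, hQ, hQ2⟩ hex⟩
  choose f2 hf2 using hS
  have key : ∀ P : G, ∃ (β : W₂) (U : G), P = f1 (Ψ₁ P) + f2 β - 3 • U := by
    intro P
    have hN := h9 P (f1 (Ψ₁ P)) (hf1 P).symm
    obtain ⟨Q, hQ⟩ := h8 _ hN
    have hfix : cc (om Q - om (om Q)) = om Q - om (om Q) := by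
      rw [← hQ]; exact (h4 _).mpr ⟨_, rfl⟩
    have hQm := partE om cc T h1 h2 h3 h5 h6 h7 Q hfix
    obtain ⟨Q', hQ', hQ'2, hS⟩ := hf2 (Ψ₂ Q) Q hQm rfl
    obtain ⟨i, hi⟩ := h10 Q Q' hQm hQ' hQ'2.symm
    obtain ⟨R, hR⟩ := h8 _ hi
    have hRm : cc (om R - om (om R)) = -(om R - om (om R)) := by
      rw [← hR]
      rw [map_sub, map_sub, map_nsmul, hQm, hQ', h6, smul_neg]
      abel
    obtain ⟨R', hR', hR'2⟩ := partD om cc T h1 h2 h5 h6 h7 R hRm
    obtain ⟨U, hU⟩ := (h4 _).mp hR'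
    refine ⟨Ψ₂ Q, U, ?_⟩
    apply hj
    have hjP : j P = j (f1 (Ψ₁ P)) + (om Q - om (om Q)) := by
      rw [← hQ, map_sub]; abel
    have hQe : Q = Q' + i • T + (om R' - om (om R')) := by
      rw [hR'2, ← hR]; abel
    have hth : om Q - om (om Q) = (om Q' - om (om Q')) +
        (om (om R' - om (om R')) - om (om (om R' - om (om R')))) := by
      conv_lhs => rw [hQe]
      simp only [map_add, thetaT om T h5 i]
      abel
    rw [hjP, hth, theta2 om h1, ← hS, ← hU, map_sub, map_add, map_nsmul]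
    abel
  let F : W₁ × W₂ → G ⧸ (nsmulAddMonoidHom (α := G) 3).range :=
    fun p => QuotientAddGroup.mk (f1 p.1 + f2 p.2)
  have hF : Function.Surjective F := by
    intro q
    obtain ⟨P, rfl⟩ := QuotientAddGroup.mk_surjective q
    obtain ⟨β, U, hU⟩ := key P
    refine ⟨(Ψ₁ P, β), ?_⟩
    refine (QuotientAddGroup.eq).mpr ?_
    refine ⟨-U, ?_⟩
    show 3 • (-U) = -(f1 (Ψ₁ P) + f2 β) + P
    generalize f1 (Ψ₁ P) = a at hU ⊢
    rw [hU, smul_neg]
    abel
  have : Finite (G ⧸ (nsmulAddMonoidHom (α := G) 3).range) := Finite.of_surjective F hF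
  refine ⟨AddSubgroup.finiteIndex_of_finite_quotient, ?_⟩
  have := Nat.card_le_card_of_surjective F hF
  rw [Nat.card_prod] at this
  exact this

end Pool.Agent.PTN


end

section

/-!
# PTN_KPL: the class of a point with `cc Q = -Q` (statement of helper3)
-/

set_option autoImplicit false

namespace Pool.Agent.PTN.KPL

open Pool.Agent.Lib_helper18 Pool.Agent.Lib_helper18.Eis Pool.Agent.Lib_helper84.Cub
open Pool.Agent.PT WeierstrassCurve.Affine

/-- a rational number `m` with `A m³` an integer is an integer if `A` is cube-free -/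
theorem int_of_cube {A N : ℤ} (hf : CubeRank.CubeFree A) {m : ℚ} (h : (A : ℚ) * m ^ 3 = N) :
    ∃ n : ℤ, m = n := by
  have hden : ((m.den : ℤ) : ℚ) ≠ 0 := by
    have := m.den_ne_zero
    exact_mod_cast this
  have hm : m * ((m.den : ℤ) : ℚ) = (m.num : ℚ) := by
    have := Rat.mul_den_eq_num m
    exact_mod_cast this
  have h1 : A * m.num ^ 3 = N * (m.den : ℤ) ^ 3 := by
    have h2 : (A : ℚ) * (m.num : ℚ) ^ 3 = N * ((m.den : ℤ) : ℚ) ^ 3 := by
      rw [← hm, ← h]; ring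
    exact_mod_cast h2
  have hcop : IsCoprime ((m.den : ℤ) ^ 3) (m.num ^ 3) := by
    have := m.reduced
    have h3 : IsCoprime m.num (m.den : ℤ) := by
      rw [Int.isCoprime_iff_gcd_eq_one, Int.gcd_eq_natAbs, Int.natAbs_natCast]
      exact this
    exact (h3.symm).pow
  have hdvd : (m.den : ℤ) ^ 3 ∣ A := by
    exact hcop.dvd_of_dvd_mul_right ⟨N, by rw [h1]; ring⟩
  by_cases h1' : m.den = 1
  · exact ⟨m.num, by rw [← hm, h1']; simp⟩
  · exfalso
    obtain ⟨q, hq, hqd⟩ := Nat.exists_prime_and_dvd h1'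
    refine hf (q : ℤ) (Nat.prime_iff_prime_int.mp hq) ?_
    refine (pow_dvd_pow_of_dvd ?_ 3).trans hdvd
    exact_mod_cast hqd

/-- the primitive triple -/
theorem triple {A : ℤ} (hA : A ≠ 0) (hf : CubeRank.CubeFree A) {u v x : ℚ} (hx : x ≠ 0)
    (h3 : x ^ 3 = 3 * u * v) (hs : u + v = 24 * A) :
    ∃ (a : Fin 3 → ℤ) (m : ℤ) (t : ℚ), t ≠ 0 ∧ (a 0 : ℚ) = t * u ∧ (a 1 : ℚ) = t * v ∧
      (∀ k, a k ≠ 0) ∧ a 0 + a 1 + a 2 = 0 ∧ a 0 * a 1 * a 2 = A * m ^ 3 ∧
      (∀ i j, i ≠ j → IsCoprime (a i) (a j)) := by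
  have hu : u ≠ 0 := by
    rintro rfl
    apply hx
    have : x ^ 3 = 0 := by rw [h3]; ring
    exact pow_eq_zero_iff (three_ne_zero) |>.mp this
  have hv : v ≠ 0 := by
    rintro rfl
    apply hx
    have : x ^ 3 = 0 := by rw [h3]; ring
    exact pow_eq_zero_iff (three_ne_zero) |>.mp this
  have hud : ((u.den : ℤ) : ℚ) ≠ 0 := by
    have := u.den_ne_zero
    exact_mod_cast this
  have hvd : ((v.den : ℤ) : ℚ) ≠ 0 := by
    have := v.den_ne_zero
    exact_mod_cast this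
  have hum : u * ((u.den : ℤ) : ℚ) = (u.num : ℚ) := by
    have := Rat.mul_den_eq_num u
    exact_mod_cast this
  have hvm : v * ((v.den : ℤ) : ℚ) = (v.num : ℚ) := by
    have := Rat.mul_den_eq_num v
    exact_mod_cast this
  set d : ℤ := (u.den : ℤ) * (v.den : ℤ) with hd
  set U : ℤ := u.num * (v.den : ℤ) with hU
  set V : ℤ := v.num * (u.den : ℤ) with hV
  have hd0 : (d : ℚ) ≠ 0 := by
    rw [hd]; push_cast; exact mul_ne_zero (by exact_mod_cast hud) (by exact_mod_cast hvd)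
  have hUq : (U : ℚ) = d * u := by
    rw [hU, hd]; push_cast; rw [← hum]; push_cast; ring
  have hVq : (V : ℚ) = d * v := by
    rw [hV, hd]; push_cast; rw [← hvm]; push_cast; ring
  have hU0 : U ≠ 0 := by
    intro h
    rw [h] at hUq
    exact (mul_ne_zero hd0 hu) (by rw [← hUq]; simp)
  have hV0 : V ≠ 0 := by
    intro h
    rw [h] at hVq
    exact (mul_ne_zero hd0 hv) (by rw [← hVq]; simp)
  obtain ⟨a0, a1, hcop, e0, e1⟩ : ∃ a0 a1 : ℤ, IsCoprime a0 a1 ∧ U = a0 * (Int.gcd U V : ℤ) ∧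
      V = a1 * (Int.gcd U V : ℤ) := by
    have hg : 0 < Int.gcd U V := Int.gcd_pos_of_ne_zero_left _ hU0
    obtain ⟨a0, h0⟩ := Int.gcd_dvd_left U V
    obtain ⟨a1, h1⟩ := Int.gcd_dvd_right U V
    refine ⟨a0, a1, ?_, by rw [mul_comm]; exact h0, by rw [mul_comm]; exact h1⟩
    have h2 : U / (Int.gcd U V : ℤ) = a0 := by
      apply Int.ediv_eq_of_eq_mul_right (by exact_mod_cast hg.ne') h0
    have h3 : V / (Int.gcd U V : ℤ) = a1 := by
      apply Int.ediv_eq_of_eq_mul_right (by exact_mod_cast hg.ne') h1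
    have h4 := Int.gcd_ediv_gcd_ediv_gcd hg
    rw [h2, h3] at h4
    exact Int.isCoprime_iff_gcd_eq_one.mpr h4
  set g : ℤ := (Int.gcd U V : ℤ) with hgdef
  have hg0 : (g : ℚ) ≠ 0 := by
    have : g ≠ 0 := by
      intro h
      rw [h, mul_zero] at e0
      exact hU0 e0
    exact_mod_cast this
  have ha0 : a0 ≠ 0 := by
    rintro rfl
    rw [zero_mul] at e0
    exact hU0 e0
  have ha1 : a1 ≠ 0 := by
    rintro rfl
    rw [zero_mul] at e1
    exact hV0 e1
  set t : ℚ := (d : ℚ) / g with ht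
  have ht0 : t ≠ 0 := div_ne_zero hd0 hg0
  have q0 : (a0 : ℚ) = t * u := by
    rw [ht, div_mul_eq_mul_div, eq_div_iff hg0, ← hUq, e0]; push_cast; ring
  have q1 : (a1 : ℚ) = t * v := by
    rw [ht, div_mul_eq_mul_div, eq_div_iff hg0, ← hVq, e1]; push_cast; ring
  have q2 : (a0 : ℚ) + a1 = 24 * A * t := by
    rw [q0, q1, ← mul_add, hs]; ring
  have hprod : (A : ℚ) * (-2 * x * t) ^ 3 = ((a0 * a1 * (-a0 - a1) : ℤ) : ℚ) := by
    push_cast
    have : (-(a0 : ℚ) - a1) = -(24 * A * t) := by rw [← q2]; ring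
    rw [this, q0, q1]
    linear_combination (-8 * (A : ℚ) * t ^ 3) * h3
  obtain ⟨m, hm⟩ := int_of_cube hf hprod
  rw [hm] at hprod
  obtain ⟨p, q, hpq⟩ := hcop
  have c01 : IsCoprime a0 a1 := ⟨p, q, hpq⟩
  have c02 : IsCoprime a0 (-a0 - a1) := ⟨p - q, -q, by linear_combination hpq⟩
  have c12 : IsCoprime a1 (-a0 - a1) := ⟨q - p, -p, by linear_combination hpq⟩
  have ha2 : -a0 - a1 ≠ 0 := by
    intro h
    have h' : (a0 : ℚ) + a1 = 0 := by
      have : a0 + a1 = 0 := by linear_combination -h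
      exact_mod_cast this
    rw [q2] at h'
    have hAq : (A : ℚ) ≠ 0 := by exact_mod_cast hA
    exact (mul_ne_zero (mul_ne_zero (by norm_num) hAq) ht0) h'
  refine ⟨![a0, a1, -a0 - a1], m, t, ht0, q0, q1, ?_, ?_, ?_, ?_⟩
  · intro k
    fin_cases k
    · exact ha0
    · exact ha1
    · exact ha2
  · simp
  · have : (a0 * a1 * (-a0 - a1) : ℤ) = A * m ^ 3 := by
      have := hprod.symm
      exact_mod_cast this
    simpa using this
  · intro i j hij
    fin_cases i <;> fin_cases j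
    · exact absurd rfl hij
    · exact c01
    · exact c02
    · exact c01.symm
    · exact absurd rfl hij
    · exact c12
    · exact c02.symm
    · exact c12.symm
    · exact absurd rfl hij

/-- an element fixed by the conjugation is rational -/
theorem rational_of_fixed {K : Type} [Field K] [CharZero K] {ι : Eis →+* K} {c : K →ₐ[ℚ] K}
    (hK : KF K ι c) {z : K} (hz : c z = z) : ∃ q : ℚ, z = (q : K) := by
  obtain ⟨e, d, hd, he⟩ := hK.frac z
  have hd' : (d : K) ≠ 0 := Int.cast_ne_zero.mpr hd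
  have h1 : ι (conj e) = ι e := by
    rw [← hK.conj e, ← he, map_mul, hz, map_intCast]
  have h2 : conj e = e := hK.inj h1
  have h3 : e.im = 0 := by
    have := congrArg Eis.im h2
    rw [conj_im] at this
    omega
  have h4 : e = (e.re : Eis) := by
    ext
    · simp
    · simp [h3]
  refine ⟨(e.re : ℚ) / (d : ℚ), ?_⟩
  rw [h4, map_intCast] at he
  push_cast
  rw [eq_div_iff hd', he]

theorem negY_eq (K : Type) [Field K] [CharZero K] (A : ℤ) (x y : K) :
    (WeierstrassCurve.Affine.baseChange (CubeRank.EA A).toAffine K).negY x y = -y := by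
  have h1 : (WeierstrassCurve.Affine.baseChange (CubeRank.EA A).toAffine K).a₁ = 0 :=
    map_zero (algebraMap ℚ K)
  have h3 : (WeierstrassCurve.Affine.baseChange (CubeRank.EA A).toAffine K).a₃ = 0 :=
    map_zero (algebraMap ℚ K)
  rw [WeierstrassCurve.Affine.negY, h1, h3]
  ring

theorem _root_.Pool.Agent.PTN.KPL_thm (h0 : Stmt_KEQ) : Stmt_KPL := by
  intro K _ _ _ ι c A hK hA hf cc hcc Q hQ
  obtain ⟨hns, hs2, hs0, hcs, hw, hw1⟩ := h0 K ι c A hK hA
  have hAK : (A : K) ≠ 0 := by exact_mod_cast hA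
  rcases Q with _ | ⟨x, y, h⟩
  · left
    exact ⟨0, 1, one_ne_zero, by simp [kap]⟩
  obtain ⟨h', e⟩ := hcc x y h
  rw [e, WeierstrassCurve.Affine.Point.neg_some] at hQ
  simp only [Point.some.injEq, negY_eq] at hQ
  obtain ⟨hx, hy⟩ := hQ
  have heq : y ^ 2 = x ^ 3 - 432 * (A : K) ^ 2 := (hns x y).mp h
  set δ : K := ι w - ι w ^ 2 with hδ
  have hsD : sD ι A = 12 * A * δ := rfl
  have hδ2 : δ ^ 2 = -3 := by
    rw [hδ]
    linear_combination (ι w ^ 2 - 3 * ι w + 3) * hw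
  have hδ0 : δ ≠ 0 := by
    intro h1
    rw [h1] at hδ2
    norm_num at hδ2
  have hcδ : c δ = -δ := by
    rw [hsD, map_mul, map_mul, map_intCast] at hcs
    have h12 : c 12 = 12 := by
      have := map_ofNat c 12
      exact this
    rw [h12] at hcs
    have : (12 * (A : K)) * c δ = (12 * (A : K)) * (-δ) := by rw [hcs]; ring
    exact mul_left_cancel₀ (mul_ne_zero (by norm_num) hAK) this
  obtain ⟨q, hq⟩ := rational_of_fixed hK hx
  obtain ⟨η, hη⟩ := rational_of_fixed (z := y / δ) hK (by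
    rw [map_div₀, hcδ, hy, neg_div_neg_eq])
  have hyη : y = δ * η := by
    rw [← hη]; field_simp
  by_cases hx0 : x = 0
  · left
    have hys : (y - sD ι A) * (y + sD ι A) = 0 := by
      rw [hx0] at heq
      linear_combination heq - hs2
    rcases mul_eq_zero.mp hys with h1 | h1
    · refine ⟨2, -12, by norm_num, ?_⟩
      have hy1 : y = sD ι A := sub_eq_zero.mp h1
      have : kap ι (Point.some x y h) = (y + sD ι A) ^ 2 := by
        simp only [kap]; rw [if_pos hy1]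
      rw [this, hy1]
      linear_combination 4 * hs2
    · refine ⟨1, 2 * δ, mul_ne_zero two_ne_zero hδ0, ?_⟩
      have hy1 : y = - sD ι A := eq_neg_of_add_eq_zero_left h1
      have hne : y ≠ sD ι A := by
        intro h2
        rw [hy1] at h2
        have : 2 * sD ι A = 0 := by linear_combination -h2
        rcases mul_eq_zero.mp this with h3 | h3
        · norm_num at h3
        · exact hs0 h3
      have : kap ι (Point.some x y h) = y - sD ι A := by
        simp only [kap]; rw [if_neg hne]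
      rw [this, hy1, hsD]
      linear_combination (-8 * (A : K) * δ) * hδ2
  · right
    have hne : y ≠ sD ι A := by
      intro h2
      apply hx0
      have : x ^ 3 = 0 := by
        rw [h2] at heq
        linear_combination hs2 - heq
      exact pow_eq_zero_iff (three_ne_zero) |>.mp this
    have hkap : kap ι (Point.some x y h) = y - sD ι A := by
      simp only [kap]; rw [if_neg hne]
    have hq0 : q ≠ 0 := by
      rintro rfl
      exact hx0 (by rw [hq]; simp)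
    have hcub : q ^ 3 = 3 * (12 * (A : ℚ) - η) * (12 * A + η) := by
      have h1 : (q : K) ^ 3 = 3 * (12 * (A : K) - η) * (12 * A + η) := by
        rw [hq, hyη] at heq
        linear_combination (-(heq) + (η : K) ^ 2 * hδ2)
      exact_mod_cast h1
    obtain ⟨a, m, t, ht0, q0, q1, hne0, hsum, hprod, hcop⟩ :=
      triple hA hf hq0 hcub (by ring : (12 * (A : ℚ) - η) + (12 * A + η) = 24 * A)
    have htK : (t : K) ≠ 0 := by exact_mod_cast ht0
    refine ⟨a, m, δ / (t * x), hne0, hsum, hprod, hcop,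
      div_ne_zero hδ0 (mul_ne_zero htK hx0), ?_⟩
    have k0 : ((a 0 : ℤ) : K) = t * (12 * A - η) := by
      have := congrArg (fun z : ℚ => (z : K)) q0
      push_cast at this
      exact this
    have k1 : ((a 1 : ℤ) : K) = t * (12 * A + η) := by
      have := congrArg (fun z : ℚ => (z : K)) q1
      push_cast at this
      exact this
    have hcubK : x ^ 3 = 3 * (12 * (A : K) - η) * (12 * A + η) := by
      rw [hq]
      exact_mod_cast hcub
    have hd3 : δ ^ 3 = -3 * δ := by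
      linear_combination δ * hδ2
    have hg3 : (δ / ((t : K) * x)) ^ 3 =
        -3 * δ / ((t : K) ^ 3 * (3 * (12 * (A : K) - η) * (12 * A + η))) := by
      rw [div_pow, mul_pow, hd3, hcubK]
    rw [hkap, hsD, hyη, hg3]
    push_cast
    rw [k0, k1]
    have hx3 : (3 * (12 * (A : K) - η) * (12 * A + η)) ≠ 0 := by
      rw [← hcubK]; exact pow_ne_zero _ hx0
    have hA1 : (12 * (A : K) - η) ≠ 0 := fun h1 => hx3 (by rw [h1]; ring)
    have hA2 : (12 * (A : K) + η) ≠ 0 := fun h1 => hx3 (by rw [h1]; ring)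
    field_simp
    ring

end Pool.Agent.PTN.KPL


end

section

/-!
# NZER: the number of the classes with `v = 0`
-/

set_option autoImplicit false

open NumberField IsDedekindDomain Finset
open scoped nonZeroDivisors Pointwise

namespace Pool.Agent.PTN

open Pool.Agent.Lib_helper18 Pool.Agent.Lib_helper18.Eis Pool.Agent.Lib_helper84.Cub
open Pool.Agent.PT Pool.Agent.PTE Pool.Agent.PT3

namespace NZER

theorem vecMul_apply' {m : ℕ} {β : Type} (y : Fin (m + 1) → ZMod 3)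
    (A : Matrix (Fin (m + 1)) β (ZMod 3)) (b : β) :
    Matrix.vecMul y A b = y 0 * A 0 b + ∑ i : Fin m, y i.succ * A i.succ b := by
  change ∑ a, y a * A a b = _
  rw [Fin.sum_univ_succ]

theorem card_w0 (a : ZMod 3) : Nat.card {w : ZMod 3 // a + w ≠ 0} = 2 := by
  rw [Nat.card_eq_fintype_card]
  revert a
  decide

variable (h n : ℕ) {m k : ℕ} (π : Fin m → PP) (p e : Fin m → ℕ) (r : Fin k → ℕ)
    (w0 : ZMod 3) (c : Fin m → ZMod 3)

theorem eq_zero (hdet : (Mt h n π p e w0 c).det ≠ 0) (hw : wt ((n : ℤ) ^ 2) + w0 ≠ 0)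
    (y : Fin (m + 1) → ZMod 3) (hy : y ∈ VS h n π p e r w0 c) : y = 0 := by
  have : Fact (Nat.Prime 3) := ⟨Nat.prime_three⟩
  obtain ⟨h1, h2⟩ := hy
  by_cases hh : h = 2
  · refine Matrix.eq_zero_of_vecMul_eq_zero hdet ?_
    funext b
    have h3 := h2 (Sum.inl b) (fun h0 => by omega)
    rw [vecMul_apply'] at h3
    rw [vecMul_apply', Pi.zero_apply, ← h3]
    have h4 : Mt h n π p e w0 c 0 b = Nm h n π p e r w0 c 0 (Sum.inl b) := by
      refine Fin.cases ?_ (fun i' => ?_) b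
      · simp only [Mt, Nm, Fin.cases_zero, if_pos hh]
      · simp only [Mt, Nm, Fin.cases_zero, Fin.cases_succ, if_pos hh]
    have h5 : ∀ i : Fin m, Mt h n π p e w0 c i.succ b =
        Nm h n π p e r w0 c i.succ (Sum.inl b) := by
      intro i
      simp only [Mt, Nm, Fin.cases_succ]
    rw [h4]
    simp only [h5]
  · have hact : ¬ actR h n w0 := by
      rintro (h0 | ⟨-, h0⟩)
      · exact hh h0
      · exact hw h0
    have hy0 := h1 hact
    have h6 : (Fin.cons (- ∑ i : Fin m, y i.succ * Mt h n π p e w0 c i.succ 0)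
        (fun i => y i.succ) : Fin (m + 1) → ZMod 3) = 0 := by
      refine Matrix.eq_zero_of_vecMul_eq_zero hdet ?_
      funext b
      rw [vecMul_apply', Pi.zero_apply]
      simp only [Fin.cons_zero, Fin.cons_succ]
      refine Fin.cases ?_ (fun i' => ?_) b
      · have h7 : Mt h n π p e w0 c 0 0 = 1 := by
          simp only [Mt, Fin.cases_zero, if_neg hh]
        rw [h7, mul_one, neg_add_cancel]
      · have h7 : Mt h n π p e w0 c 0 i'.succ = 0 := by
          simp only [Mt, Fin.cases_zero, Fin.cases_succ, if_neg hh]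
        have h3 := h2 (Sum.inl i'.succ) (fun _ h0 => Fin.succ_ne_zero _ (Sum.inl.inj h0))
        rw [vecMul_apply', hy0, zero_mul, zero_add] at h3
        rw [h7, mul_zero, zero_add, ← h3]
        exact Finset.sum_congr rfl fun i _ => rfl
    funext a
    refine Fin.cases ?_ (fun i => ?_) a
    · exact hy0
    · have h8 := congrFun h6 i.succ
      rw [Fin.cons_succ] at h8
      exact h8

theorem vN_zero (hdet : (Mt h n π p e w0 c).det ≠ 0) (hw : wt ((n : ℤ) ^ 2) + w0 ≠ 0) :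
    vN h n π p e r w0 c = 0 := by
  have h1 : VS h n π p e r w0 c = ⊥ := by
    rw [Submodule.eq_bot_iff]
    exact eq_zero h n π p e r w0 c hdet hw
  unfold vN
  rw [h1]
  exact finrank_bot _ _

end NZER

open _root_.Pool.Agent.PTN.NZER in
theorem NZER_thm (hEMAX : EMAX) : Stmt_NZER := by
  intro h n m k π p e r f _
  let Z : Type := {w : ZMod 3 // wt ((n : ℤ) ^ 2) + w ≠ 0}
  let C : Z → Type := fun w => {c : Fin m → ZMod 3 // (Mt h n π p e w.1 c).det ≠ 0}
  have h1 : 2 ^ (m + 1) ≤ Nat.card (Σ w : Z, C w) := by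
    rw [Nat.card_sigma]
    calc 2 ^ (m + 1) = ∑ w : Z, 2 ^ m := by
          rw [Finset.sum_const, Finset.card_univ, ← Nat.card_eq_fintype_card, card_w0,
            smul_eq_mul, pow_succ, mul_comm]
      _ ≤ ∑ w : Z, Nat.card (C w) :=
          Finset.sum_le_sum fun w _ => hEMAX h n m π p e w.1 fun _ => w.2
  refine h1.trans (Nat.card_le_card_of_injective
    (fun x : Σ w : Z, C w => (⟨(x.1.1, x.2.1), vN_zero h n π p e r _ _ x.2.2 x.1.2,
      fun h0 => x.1.2 h0.2⟩ : {x : ZMod 3 × (Fin m → ZMod 3) //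
        vN h n π p e r x.1 x.2 = 0 ∧ ¬ (h = 0 ∧ wt ((n : ℤ) ^ 2) + x.1 = 0)})) ?_)
  rintro ⟨⟨w1, hw1⟩, ⟨c1, hc1⟩⟩ ⟨⟨w2, hw2⟩, ⟨c2, hc2⟩⟩ hx
  have h2 := congrArg Subtype.val hx
  obtain ⟨h3, h4⟩ := Prod.ext_iff.1 h2
  change w1 = w2 at h3
  change c1 = c2 at h4
  subst h3
  subst h4
  rfl

end Pool.Agent.PTN


end

section

/-!
# NPSU: the minus part, `q = 1 (mod 3)`
-/

set_option autoImplicit false

namespace Pool.Agent.PTN

open Pool.Agent.Lib_helper18 Pool.Agent.Lib_helper18.Eis Pool.Agent.Lib_helper84.Cub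
open Pool.Agent.PT Pool.Agent.PTE Pool.Agent.PT3 Pool.Agent.PT.EHYP

namespace NPSU

/-! ### The space of the pairs -/

/-- the space of the pairs -/
def WS (h n : ℕ) {m k : ℕ} (π : Fin m → PP) (p e : Fin m → ℕ) (r : Fin k → ℕ)
    (w0 : ZMod 3) (c : Fin m → ZMod 3) (σ : Col m k → ZMod 3) :
    Submodule (ZMod 3) ((Fin (m + 1) → ZMod 3) × ZMod 3) where
  carrier := {y | (¬ actR h n w0 → y.1 0 = 0) ∧ ∀ b : Col m k, (h = 0 → b ≠ Sum.inl 0) →
    Matrix.vecMul y.1 (Nm h n π p e r w0 c) b + y.2 * σ b = 0}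
  add_mem' := by
    rintro u v ⟨h1, h2⟩ ⟨g1, g2⟩
    refine ⟨fun ha => ?_, fun b hb => ?_⟩
    · rw [Prod.fst_add, Pi.add_apply, h1 ha, g1 ha, add_zero]
    · rw [Prod.fst_add, Prod.snd_add, Matrix.add_vecMul, Pi.add_apply, add_mul]
      linear_combination h2 b hb + g2 b hb
  zero_mem' := by
    refine ⟨fun ha => rfl, fun b hb => ?_⟩
    rw [Prod.fst_zero, Prod.snd_zero, Matrix.zero_vecMul, Pi.zero_apply, zero_mul, add_zero]
  smul_mem' := by
    rintro t u ⟨h1, h2⟩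
    refine ⟨fun ha => ?_, fun b hb => ?_⟩
    · rw [Prod.smul_fst, Pi.smul_apply, h1 ha, smul_zero]
    · rw [Prod.smul_fst, Prod.smul_snd, Matrix.smul_vecMul, Pi.smul_apply, smul_eq_mul,
        smul_eq_mul]
      linear_combination t * h2 b hb

section

variable {h n m k : ℕ} {π : Fin m → PP} {p e : Fin m → ℕ} {r f : Fin k → ℕ} {w0 : ZMod 3}
  {c : Fin m → ZMod 3}

theorem mem_WS {σ : Col m k → ZMod 3} {y : (Fin (m + 1) → ZMod 3) × ZMod 3} :
    y ∈ WS h n π p e r w0 c σ ↔ (¬ actR h n w0 → y.1 0 = 0) ∧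
      ∀ b : Col m k, (h = 0 → b ≠ Sum.inl 0) →
        Matrix.vecMul y.1 (Nm h n π p e r w0 c) b + y.2 * σ b = 0 := Iff.rfl

theorem mem_VS {y : Fin (m + 1) → ZMod 3} :
    y ∈ VS h n π p e r w0 c ↔ (¬ actR h n w0 → y 0 = 0) ∧
      ∀ b : Col m k, (h = 0 → b ≠ Sum.inl 0) →
        Matrix.vecMul y (Nm h n π p e r w0 c) b = 0 := Iff.rfl

theorem fst_mem {σ : Col m k → ZMod 3} {y : (Fin (m + 1) → ZMod 3) × ZMod 3}
    (hy : y ∈ WS h n π p e r w0 c σ) (h0 : y.2 = 0) : y.1 ∈ VS h n π p e r w0 c := by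
  rw [mem_WS] at hy
  rw [mem_VS]
  refine ⟨hy.1, fun b hb => ?_⟩
  have h1 := hy.2 b hb
  rw [h0, zero_mul, add_zero] at h1
  exact h1

theorem fin_le0 (σ : Col m k → ZMod 3)
    (hT : ∀ y ∈ WS h n π p e r w0 c σ, y.2 = 0) :
    Module.finrank (ZMod 3) (WS h n π p e r w0 c σ) ≤ vN h n π p e r w0 c := by
  let J : WS h n π p e r w0 c σ →ₗ[ZMod 3] VS h n π p e r w0 c :=
    LinearMap.codRestrict _ ((LinearMap.fst (ZMod 3) _ _).comp (WS h n π p e r w0 c σ).subtype)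
      fun y => fst_mem y.2 (hT _ y.2)
  have hJ : Function.Injective J := by
    intro y y' hy
    have h1 : y.1.1 = y'.1.1 := congrArg Subtype.val hy
    apply Subtype.ext
    refine Prod.ext h1 ?_
    rw [hT _ y.2, hT _ y'.2]
  exact LinearMap.finrank_le_finrank_of_injective hJ

theorem fin_le1 (σ : Col m k → ZMod 3) :
    Module.finrank (ZMod 3) (WS h n π p e r w0 c σ) ≤ vN h n π p e r w0 c + 1 := by
  let T : WS h n π p e r w0 c σ →ₗ[ZMod 3] ZMod 3 :=
    (LinearMap.snd (ZMod 3) _ _).comp (WS h n π p e r w0 c σ).subtype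
  have h1 := LinearMap.finrank_range_add_finrank_ker T
  have h2 : Module.finrank (ZMod 3) (LinearMap.range T) ≤ 1 := by
    refine (Submodule.finrank_le _).trans ?_
    rw [Module.finrank_self]
  let J : LinearMap.ker T →ₗ[ZMod 3] VS h n π p e r w0 c :=
    LinearMap.codRestrict _ (((LinearMap.fst (ZMod 3) _ _).comp
      (WS h n π p e r w0 c σ).subtype).comp (LinearMap.ker T).subtype)
      fun y => fst_mem y.1.2 (LinearMap.mem_ker.1 y.2)
  have hJ : Function.Injective J := by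
    intro y y' hy
    have h3 : y.1.1.1 = y'.1.1.1 := congrArg Subtype.val hy
    apply Subtype.ext
    apply Subtype.ext
    refine Prod.ext h3 ?_
    have h4 : y.1.1.2 = 0 := LinearMap.mem_ker.1 y.2
    have h5 : y'.1.1.2 = 0 := LinearMap.mem_ker.1 y'.2
    rw [h4, h5]
  have h3 : Module.finrank (ZMod 3) (LinearMap.ker T) ≤ vN h n π p e r w0 c :=
    LinearMap.finrank_le_finrank_of_injective hJ
  omega

/-- the pairing of an admissible class with the space of the pairs -/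
theorem snd_zero {σ : Col m k → ZMod 3} {u : Col m k → ZMod 3}
    (hu : u ∈ US h n π p e r w0 c) (hs : ∑ b, u b * σ b ≠ 0) :
    ∀ y ∈ WS h n π p e r w0 c σ, y.2 = 0 := by
  intro y hy
  obtain ⟨hu1, hu2, hu3⟩ := hu
  rw [mem_WS] at hy
  have h1 : ∑ b, u b * (Matrix.vecMul y.1 (Nm h n π p e r w0 c) b + y.2 * σ b) = 0 := by
    refine Finset.sum_eq_zero fun b _ => ?_
    by_cases hb : h = 0 ∧ b = Sum.inl 0
    · rw [hb.2, hu3 hb.1, zero_mul]
    · rw [hy.2 b fun h0 hb' => hb ⟨h0, hb'⟩, mul_zero]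
  have h2 : ∑ b, u b * Matrix.vecMul y.1 (Nm h n π p e r w0 c) b = 0 := by
    have h3 : ∑ b, u b * Matrix.vecMul y.1 (Nm h n π p e r w0 c) b =
        dotProduct (Matrix.vecMul y.1 (Nm h n π p e r w0 c)) u := by
      unfold dotProduct
      exact Finset.sum_congr rfl fun b _ => mul_comm _ _
    rw [h3, ← Matrix.dotProduct_mulVec]
    unfold dotProduct
    rw [Fin.sum_univ_succ]
    have h4 : y.1 0 * (Nm h n π p e r w0 c).mulVec u 0 = 0 := by
      by_cases ha : actR h n w0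
      · rw [hu2 ha, mul_zero]
      · rw [hy.1 ha, zero_mul]
    rw [h4, zero_add]
    exact Finset.sum_eq_zero fun i _ => by rw [hu1 i, mul_zero]
  have h5 : y.2 * ∑ b, u b * σ b = 0 := by
    rw [Finset.mul_sum]
    have h6 : ∑ b, u b * (Matrix.vecMul y.1 (Nm h n π p e r w0 c) b + y.2 * σ b) =
        ∑ b, u b * Matrix.vecMul y.1 (Nm h n π p e r w0 c) b + ∑ b, y.2 * (u b * σ b) := by
      rw [← Finset.sum_add_distrib]
      exact Finset.sum_congr rfl fun b _ => by ring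
    rw [h6, h2, zero_add] at h1
    exact h1
  have hF3 : Fact (Nat.Prime 3) := ⟨Nat.prime_three⟩
  exact (mul_eq_zero.1 h5).resolve_right hs

/-! ### The setting -/

/-- facts about `B` -/
structure Dat (h n E q : ℕ) {m : ℕ} (π : Fin m → PP) (e : Fin m → ℕ) (w0 : ZMod 3)
    (c : Fin m → ZMod 3) (ρ : PP) : Prop where
  ne : BB h n E q ≠ 0
  bv : lv (BB h n E q) = h
  bw : lw (BB h n E q) = wt ((n : ℤ) ^ 2) + w0
  vb : ∀ σ : PP, V σ.1 ((BB h n E q : ℤ) : Eis) = V σ.1 ((n * q ^ E : ℕ) : Eis)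
  db : ∀ σ : PP, ¬ σ.1 ∣ ((n * q ^ E : ℕ) : Eis) → ¬ σ.1 ∣ ((BB h n E q : ℤ) : Eis)
  vi : ∀ i, V (π i).1 ((BB h n E q : ℤ) : Eis) = e i
  ci : ∀ i, ch (π i).1 ((BB h n E q : ℤ) : Eis) = ch (π i).1 ((3 ^ h * n : ℕ) : Eis) + c i
  rn : ¬ ρ.1 ∣ (n : Eis)
  vr : V ρ.1 ((BB h n E q : ℤ) : Eis) = E

theorem dat (hSPP : SPP) (hLCL : LCL) {E q : ℕ} {ρ : PP} (hN : NF n π p e r f)
    (hE : E = 1 ∨ E = 2) (hq : q.Prime) (hq1 : q % 3 = 1) (hcl : InCT E π w0 c q)
    (hqn : ¬ q ∣ n) (hρ : (q : Eis) = ρ.1 * conj ρ.1) : Dat h n E q π e w0 c ρ := by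
  obtain ⟨hcw, hci⟩ := hcl
  have h' := HYPU.ext hN hE ρ hq hq1 hqn hρ
  have hn0 := HYPS.n_ne0 hN
  have hn1 := n_ne hN
  have h3n := three_n hN
  have hq0 : (q : Eis) ≠ 0 := by
    rw [hρ]
    exact mul_ne_zero ρ.2.1.ne_zero (prime_conj ρ.2.1).ne_zero
  obtain ⟨hBne, hBv, hBw⟩ := HYPU.l_BB hLCL (h := h) (E := E) h3n hq (Or.inl hq1) hn1
  rw [hcw] at hBw
  have h30 : (3 : Eis) ≠ 0 := by
    have := HYPU.cast_ne (x := 3) (by norm_num)
    exact_mod_cast this
  have hσ3 : ∀ σ : PP, ¬ σ.1 ∣ 3 := fun σ => (hSPP.2.2.2.1 σ).1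
  have hBe : ((BB h n E q : ℤ) : Eis) = (3 : Eis) ^ h * ((n * q ^ E : ℕ) : Eis) := by
    unfold BB
    push_cast
    ring
  have hn'0 := HYPS.n_ne0 h'
  have hVB : ∀ σ : PP, V σ.1 ((BB h n E q : ℤ) : Eis) = V σ.1 ((n * q ^ E : ℕ) : Eis) := by
    intro σ
    rw [hBe, V_mul σ.2.1 (pow_ne_zero _ h30) hn'0, V_pow σ.2.1 h30, V_eq_zero (hσ3 σ)]
    omega
  have hdB : ∀ σ : PP, ¬ σ.1 ∣ ((n * q ^ E : ℕ) : Eis) → ¬ σ.1 ∣ ((BB h n E q : ℤ) : Eis) := by
    intro σ h1 h2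
    rw [hBe] at h2
    rcases σ.2.1.dvd_or_dvd h2 with h2 | h2
    · exact hσ3 σ (σ.2.1.dvd_of_dvd_pow h2)
    · exact h1 h2
  have hi : ∀ i, Prime (π i).1 := fun i => (π i).2.1
  have h3 : ∀ i, ¬ (π i).1 ∣ 3 := fun i => hσ3 (π i)
  have hqi : ∀ i, ¬ (π i).1 ∣ (q : Eis) := fun i h5 => by
    rw [hρ] at h5
    have h6 := not_assoc h' i.succ 0
    have h7 := mt (assoc_iff h' i.succ 0) (Fin.succ_ne_zero i)
    simp only [Fin.cons_zero, Fin.cons_succ] at h6 h7
    rcases (hi i).dvd_or_dvd h5 with h5 | h5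
    · exact h7 ((hi i).associated_of_dvd ρ.2.1 h5)
    · exact h6 ((hi i).associated_of_dvd (prime_conj ρ.2.1) h5)
  refine ⟨hBne, hBv, hBw, hVB, hdB, fun i => ?_, fun i => ?_, ?_, ?_⟩
  · rw [hVB (π i)]
    have h1 := V_n_i hSPP h' i.succ
    simpa only [Fin.cons_succ] using h1
  · have h1 : ((BB h n E q : ℤ) : Eis) = ((3 ^ h * n : ℕ) : Eis) * (q : Eis) ^ E := by
      unfold BB
      push_cast
      ring
    have h2 : ((3 ^ h * n : ℕ) : Eis) ≠ 0 := by
      push_cast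
      exact mul_ne_zero (pow_ne_zero _ h30) hn0
    rw [h1, ch_mul (hi i) (h3 i) h2 (pow_ne_zero _ hq0),
      (add3_ch (hi i) (h3 i)).pow hq0 E, ch_of_not_dvd (hi i) (hqi i), hci i]
  · intro h1
    rcases HYPS.cls hSPP hN ρ.2.1 h1 with ⟨i, h2 | h2⟩ | ⟨j, h2⟩
    · have h7 := mt (assoc_iff h' 0 i.succ) (Fin.succ_ne_zero i).symm
      simp only [Fin.cons_zero, Fin.cons_succ] at h7
      exact h7 h2
    · have h6 := not_assoc h' 0 i.succ
      simp only [Fin.cons_zero, Fin.cons_succ] at h6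
      exact h6 h2
    · have h6 := not_assoc_nat h' 0 (r j)
      simp only [Fin.cons_zero] at h6
      exact h6 h2
  · rw [hVB ρ]
    have h1 := V_n_i hSPP h' 0
    simpa only [Fin.cons_zero] using h1

/-- the primes of the columns -/
theorem prm_dvd (hN : NF n π p e r f) (b : Col m k) : prm p r b ∣ 3 * n := by
  rcases b with b | j
  · refine Fin.cases ?_ (fun i => ?_) b
    · exact Dvd.intro _ rfl
    · refine Dvd.dvd.mul_left ?_ _
      change p i ∣ n
      rw [hN.eq]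
      refine Dvd.dvd.mul_right ?_ _
      have h1 : p i ^ e i ∣ ∏ i, p i ^ e i := Finset.dvd_prod_of_mem _ (Finset.mem_univ i)
      refine (dvd_pow_self _ ?_).trans h1
      have := hN.pe i
      omega
  · refine Dvd.dvd.mul_left ?_ _
    change r j ∣ n
    rw [hN.eq]
    refine Dvd.dvd.mul_left ?_ _
    have h1 : r j ^ f j ∣ ∏ j, r j ^ f j := Finset.dvd_prod_of_mem _ (Finset.mem_univ j)
    refine (dvd_pow_self _ ?_).trans h1
    have := hN.rf j
    omega

theorem prm_ne (hN : NF n π p e r f) (b : Col m k) : ((prm p r b : ℕ) : ℤ) ≠ 0 := by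
  have h1 := prm_dvd hN b
  have h2 := n_ne hN
  intro h3
  have h4 : prm p r b = 0 := by exact_mod_cast h3
  rw [h4] at h1
  have h5 := Nat.eq_zero_of_zero_dvd h1
  omega

/-- a prime of `PP` that divides the prime of a column divides `n` -/
theorem prm_supp (hSPP : SPP) (hN : NF n π p e r f) (b : Col m k) (σ : PP)
    (hσ : σ.1 ∣ (((prm p r b : ℕ) : ℤ) : Eis)) : σ.1 ∣ (n : Eis) := by
  obtain ⟨d, hd⟩ := prm_dvd hN b
  have h1 : σ.1 ∣ ((3 * n : ℕ) : Eis) := by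
    rw [hd]
    push_cast
    rw [Int.cast_natCast] at hσ
    exact Dvd.dvd.mul_right hσ _
  push_cast at h1
  rcases σ.2.1.dvd_or_dvd h1 with h2 | h2
  · exact absurd h2 (hSPP.2.2.2.1 σ).1
  · exact h2

/-- the entries of the matrix in the rows of the primes `π i` -/
theorem entry (hSPP : SPP) {E q : ℕ} {ρ : PP} (hN : NF n π p e r f)
    (hD : Dat h n E q π e w0 c ρ) (b : Col m k) (i : Fin m) :
    tm (π i).1 (((prm p r b : ℕ) : ℤ) : Eis) ((BB h n E q : ℤ) : Eis) =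
      Nm h n π p e r w0 c i.succ b := by
  have hi : ∀ i, Prime (π i).1 := fun i => (π i).2.1
  have h3 : ∀ i, ¬ (π i).1 ∣ 3 := fun i => (hSPP.2.2.2.1 (π i)).1
  rw [Int.cast_natCast]
  rcases b with b | j
  · refine Fin.cases ?_ (fun i' => ?_) b
    · change tm (π i).1 ((3 : ℕ) : Eis) _ = (e i : ZMod 3) * sym (π i).1 3
      rw [Nat.cast_ofNat]
      unfold tm
      rw [hD.vi i, V_eq_zero (h3 i), ch_of_not_dvd (hi i) (h3 i)]
      simp
    · change tm (π i).1 (p i' : Eis) _ = if i' = i then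
            (e i : ZMod 3) * sym (π i).1 (conj (π i).1) -
              ch (π i).1 ((3 ^ h * n : ℕ) : Eis) - c i
          else (e i : ZMod 3) * sym (π i).1 (p i' : Eis)
      unfold tm
      rw [hD.vi i, hD.ci i]
      split_ifs with hii
      · subst hii
        have hcj : ¬ (π i').1 ∣ conj (π i').1 := fun h5 =>
          not_assoc hN i' i' ((hi i').associated_of_dvd (prime_conj (π i').2.1) h5)
        rw [hN.pπ i', V_mul (hi i') (hi i').ne_zero (prime_conj (π i').2.1).ne_zero, V_self,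
          V_eq_zero hcj, ch_mul (hi i') (h3 i') (hi i').ne_zero
            (prime_conj (π i').2.1).ne_zero, ch_self (hi i') (h3 i'),
          ch_of_not_dvd (hi i') hcj]
        push_cast
        ring
      · have hnd : ¬ (π i).1 ∣ (p i' : Eis) := by
          rw [hN.pπ i']
          intro h5
          rcases (hi i).dvd_or_dvd h5 with h5 | h5
          · exact hii (assoc_iff hN i i' ((hi i).associated_of_dvd (π i').2.1 h5)).symm
          · exact not_assoc hN i i' ((hi i).associated_of_dvd (prime_conj (π i').2.1) h5)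
        rw [V_eq_zero hnd, ch_of_not_dvd (hi i) hnd]
        push_cast
        ring
  · change tm (π i).1 (r j : Eis) _ = (e i : ZMod 3) * sym (π i).1 (r j : Eis)
    have hnd : ¬ (π i).1 ∣ (r j : Eis) := fun h5 =>
      not_assoc_nat hN i (r j) ((hi i).associated_of_dvd (inert hSPP (hN.rp j) (hN.r2 j)).1 h5)
    unfold tm
    rw [hD.vi i, V_eq_zero hnd, ch_of_not_dvd (hi i) hnd]
    simp

/-- the values of the symbol at `lam` -/
theorem row (hSSL : SSL) (hLCL : LCL) {E q : ℕ} {ρ : PP} (hN : NF n π p e r f) (hh : h ≤ 2)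
    (hD : Dat h n E q π e w0 c ρ) {z : Eis} (hz : SelM (BB h n E q) z) (b : Col m k)
    (hb : h = 0 → b ≠ Sum.inl 0) :
    sl z (((prm p r b : ℕ) : ℤ) : Eis) = -sl z 4 * Nm h n π p e r w0 c 0 b := by
  have hlin := fun x hx => HYPU.sl_lin hSSL hLCL hz.ne x hx
  have hslB : sl z ((BB h n E q : ℤ) : Eis) = 0 := by
    unfold sl
    rw [finsum_eq_zero_of_forall_eq_zero fun σ => hz.sym σ, neg_zero]
  have hB := hlin _ hD.ne
  rw [hslB, hD.bv, hD.bw] at hB
  -- the classes at `lam` of the primes of the columns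
  have hx : ∀ x : ℤ, x ≠ 0 → (h = 0 → lv x = 0) → sl z (x : Eis) =
      -sl z 4 * (lw x + lv x * (wt ((n : ℤ) ^ 2) + w0)) := by
    intro x hx h0
    rw [hlin x hx]
    have hcase : h = 0 ∨ h = 1 ∨ h = 2 := by omega
    rcases hcase with hh0 | hh1 | hh2
    · rw [h0 hh0]
      ring
    · have h1 : lv (BB h n E q) = 1 := by
        rw [hD.bv, hh1]
        exact Nat.cast_one
      obtain ⟨h2, h5⟩ := hz.lam h1
      rw [h2, h5]
      ring
    · rw [hh2] at hB
      have h2 := three_zero (lv x * sl z 3)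
      push_cast at hB
      linear_combination (lv x) * hB + h2
  rw [hx _ (prm_ne hN b)]
  · congr 1
    rcases b with b | j
    · revert hb
      refine Fin.cases ?_ (fun i' => ?_) b
      · intro _
        change lw ((3 : ℕ) : ℤ) + lv ((3 : ℕ) : ℤ) * (wt ((n : ℤ) ^ 2) + w0) =
          wt ((n : ℤ) ^ 2) + w0
        rw [Nat.cast_ofNat, hLCL.2.2.1.1, hLCL.2.2.1.2]
        ring
      · intro _
        change lw ((p i' : ℕ) : ℤ) + lv ((p i' : ℕ) : ℤ) * (wt ((n : ℤ) ^ 2) + w0) =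
          wt ((p i' : ℤ) ^ 2)
        have hp3 : ¬ (3 : ℤ) ∣ (p i' : ℤ) := by
          intro h4
          have h5 : 3 ∣ p i' := by exact_mod_cast h4
          have := hN.p1 i'
          omega
        rw [(hLCL.2.2.2.1 _ hp3).1, (hLCL.2.2.2.1 _ hp3).2]
        ring
    · change lw ((r j : ℕ) : ℤ) + lv ((r j : ℕ) : ℤ) * (wt ((n : ℤ) ^ 2) + w0) =
          wt ((r j : ℤ) ^ 2)
      have hp3 : ¬ (3 : ℤ) ∣ (r j : ℤ) := by
        intro h4
        have h5 : 3 ∣ r j := by exact_mod_cast h4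
        have := hN.r2 j
        omega
      rw [(hLCL.2.2.2.1 _ hp3).1, (hLCL.2.2.2.1 _ hp3).2]
      ring
  · intro h0
    rcases b with b | j
    · revert hb
      refine Fin.cases ?_ (fun i' => ?_) b
      · intro hb
        exact absurd rfl (hb h0)
      · intro _
        have hp3 : ¬ (3 : ℤ) ∣ (p i' : ℤ) := by
          intro h4
          have h5 : 3 ∣ p i' := by exact_mod_cast h4
          have := hN.p1 i'
          omega
        exact (hLCL.2.2.2.1 _ hp3).1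
    · have hp3 : ¬ (3 : ℤ) ∣ (r j : ℤ) := by
        intro h4
        have h5 : 3 ∣ r j := by exact_mod_cast h4
        have := hN.r2 j
        omega
      exact (hLCL.2.2.2.1 _ hp3).1

/-- the pair of a class of the minus part -/
noncomputable def YY {m : ℕ} (π : Fin m → PP) (e : Fin m → ℕ) (ρ : PP) (z : Eis) :
    (Fin (m + 1) → ZMod 3) × ZMod 3 :=
  (Fin.cons (-sl z 4) fun i => (e i : ZMod 3) * (V (π i).1 z : ZMod 3), (V ρ.1 z : ZMod 3))

theorem mem_YY (hSPP : SPP) (hSSL : SSL) (hSCJ : SCJ) (hLCL : LCL) {E q : ℕ} {ρ : PP}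
    (hN : NF n π p e r f) (hh : h ≤ 2) (hE : E = 1 ∨ E = 2) (hq : q.Prime) (hq1 : q % 3 = 1)
    (hqn : ¬ q ∣ n) (hρ : (q : Eis) = ρ.1 * conj ρ.1)
    (hD : Dat h n E q π e w0 c ρ) {z : Eis} (hz : SelM (BB h n E q) z) :
    YY π e ρ z ∈ WS h n π p e r w0 c fun b => sym ρ.1 (((prm p r b : ℕ) : ℤ) : Eis) := by
  have h' := HYPU.ext hN hE ρ hq hq1 hqn hρ
  have hB0 := HYPU.cast_ne hD.ne
  have hE2 : (E : ZMod 3) * (E : ZMod 3) = 1 := by
    rcases hE with h1 | h1 <;> rw [h1] <;> decide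
  have hF3 : Fact (Nat.Prime 3) := ⟨Nat.prime_three⟩
  obtain ⟨t, hzt⟩ := hz.nrm
  rw [mem_WS]
  constructor
  · intro ha
    change -sl z 4 = 0
    have hcase : h = 0 ∨ h = 1 ∨ h = 2 := by omega
    rcases hcase with hh0 | hh1 | hh2
    · have hw : wt ((n : ℤ) ^ 2) + w0 ≠ 0 := fun h1 => ha (Or.inr ⟨hh0, h1⟩)
      have hslB : sl z ((BB h n E q : ℤ) : Eis) = 0 := by
        unfold sl
        rw [finsum_eq_zero_of_forall_eq_zero fun σ => hz.sym σ, neg_zero]
      have hB := HYPU.sl_lin hSSL hLCL hz.ne _ hD.ne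
      rw [hslB, hD.bv, hD.bw, hh0] at hB
      have h1 : (wt ((n : ℤ) ^ 2) + w0) * -sl z 4 = 0 := by
        push_cast at hB
        linear_combination -hB
      exact (mul_eq_zero.1 h1).resolve_left hw
    · have h1 : lv (BB h n E q) = 1 := by
        rw [hD.bv, hh1]
        exact Nat.cast_one
      rw [(hz.lam h1).2, neg_zero]
    · exact absurd (Or.inl hh2) ha
  · intro b hb
    have h6 := HYPU.finsum_tm hSPP hSCJ h' hB0 hD.vb hz.ne hzt hz.sym
      (fun σ h1 => hz.unr σ (hD.db σ h1)) _ (prm_ne hN b) fun σ hσ => by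
        push_cast
        exact Dvd.dvd.mul_right (prm_supp hSPP hN b σ hσ) _
    rw [Fin.sum_univ_succ] at h6
    simp only [Fin.cons_zero, Fin.cons_succ] at h6
    have h7 : sl z (((prm p r b : ℕ) : ℤ) : Eis) +
        ((E : ZMod 3) * (V ρ.1 z : ZMod 3) *
        tm ρ.1 (((prm p r b : ℕ) : ℤ) : Eis) ((BB h n E q : ℤ) : Eis) +
        ∑ i, (e i : ZMod 3) * (V (π i).1 z : ZMod 3) *
          tm (π i).1 (((prm p r b : ℕ) : ℤ) : Eis) ((BB h n E q : ℤ) : Eis)) = 0 := by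
      rw [← h6]
      unfold sl
      rw [neg_add_cancel]
    have htmρ : tm ρ.1 (((prm p r b : ℕ) : ℤ) : Eis) ((BB h n E q : ℤ) : Eis) =
        (E : ZMod 3) * sym ρ.1 (((prm p r b : ℕ) : ℤ) : Eis) := by
      have hx : ¬ ρ.1 ∣ (((prm p r b : ℕ) : ℤ) : Eis) := fun h1 =>
        hD.rn (prm_supp hSPP hN b ρ h1)
      unfold tm
      rw [hD.vr, V_eq_zero hx, ch_of_not_dvd ρ.2.1 hx]
      simp
    rw [row hSSL hLCL hN hh hD hz b hb, htmρ] at h7
    have h8 : Matrix.vecMul (YY π e ρ z).1 (Nm h n π p e r w0 c) b =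
        -sl z 4 * Nm h n π p e r w0 c 0 b + ∑ i, (e i : ZMod 3) * (V (π i).1 z : ZMod 3) *
          tm (π i).1 (((prm p r b : ℕ) : ℤ) : Eis) ((BB h n E q : ℤ) : Eis) := by
      unfold Matrix.vecMul dotProduct YY
      rw [Fin.sum_univ_succ]
      simp only [Fin.cons_zero, Fin.cons_succ]
      congr 1
      exact Finset.sum_congr rfl fun i _ => by rw [entry hSPP hN hD b i]
    rw [h8]
    change _ + (V ρ.1 z : ZMod 3) * sym ρ.1 (((prm p r b : ℕ) : ℤ) : Eis) = 0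
    linear_combination h7 - (V ρ.1 z : ZMod 3) * sym ρ.1 (((prm p r b : ℕ) : ℤ) : Eis) * hE2

/-- a class of the minus part with trivial pair is a cube -/
theorem cube (hSPP : SPP) (hSSL : SSL) (hLCL : LCL) {E q : ℕ} {ρ : PP}
    (hN : NF n π p e r f) (hE : E = 1 ∨ E = 2) (hq : q.Prime) (hq1 : q % 3 = 1)
    (hqn : ¬ q ∣ n) (hρ : (q : Eis) = ρ.1 * conj ρ.1)
    (hD : Dat h n E q π e w0 c ρ) {z : Eis} (hz : SelM (BB h n E q) z) (h4 : sl z 4 = 0)
    (hVi : ∀ i, (V (π i).1 z : ZMod 3) = 0) (hV0 : (V ρ.1 z : ZMod 3) = 0) :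
    ∃ γ : Eis, z = γ ^ 3 := by
  have h' := HYPU.ext hN hE ρ hq hq1 hqn hρ
  obtain ⟨t, hzt⟩ := hz.nrm
  have h40 : (4 : Eis) ≠ 0 := by
    have := HYPU.cast_ne (x := 4) (by norm_num)
    exact_mod_cast this
  have h4' : ((4 : ℤ) : Eis) = 4 := by push_cast; rfl
  have hun2 : ∀ σ : PP, ¬ σ.1 ∣ ((((n * q ^ E : ℕ) : ℤ) * (2 : ℕ) : ℤ) : Eis) →
      3 ∣ V σ.1 z := by
    intro σ hσ
    refine hz.unr σ (hD.db σ fun h1 => hσ ?_)
    rw [Int.cast_mul, Int.cast_natCast]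
    exact Dvd.dvd.mul_right h1 _
  obtain ⟨a, hF, hcube⟩ := decomp hSPP h' Nat.prime_two rfl hz.ne hzt hun2
  have hVall : ∀ i : Fin (m + 1), (V ((Fin.cons ρ π : Fin (m + 1) → PP) i).1 z : ZMod 3) = 0 := by
    intro i
    refine Fin.cases ?_ (fun i => ?_) i
    · exact hV0
    · exact hVi i
  have ha : (a : ZMod 3) = 0 := by
    have h1 := hF _ (add3_sl hSSL h40)
    have h5 : sl w 4 = 1 := by
      have h6 := hLCL.2.2.2.2.1 4 (by norm_num)
      rw [(HYPU.l_four hLCL).2, neg_neg, h4'] at h6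
      exact h6
    rw [h4, h5, Finset.sum_congr rfl fun i _ => by rw [hVall i, zero_mul], Finset.sum_const_zero,
      add_zero, mul_one] at h1
    exact h1.symm
  exact hcube ha hVall

end

/-- the minus part is closed under products with squares -/
theorem SelM_mul (hSTM : STM) (hSPP : SPP) (hSSL : SSL) {B : ℤ} (hB : B ≠ 0) {z z' : Eis}
    (hz : SelM B z) (hz' : SelM B z') : SelM B (z * z' ^ 2) := by
  have hB0 := HYPU.cast_ne hB
  have h30 : (3 : Eis) ≠ 0 := by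
    have := HYPU.cast_ne (x := 3) (by norm_num)
    exact_mod_cast this
  have h40 : (4 : Eis) ≠ 0 := by
    have := HYPU.cast_ne (x := 4) (by norm_num)
    exact_mod_cast this
  have hne := hz.ne
  have hne' := hz'.ne
  obtain ⟨t, ht⟩ := hz.nrm
  obtain ⟨t', ht'⟩ := hz'.nrm
  have hsl : ∀ b : Eis, b ≠ 0 → sl (z * z' ^ 2) b = sl z b + 2 * sl z' b := by
    intro b hb
    have h1 := add3_sl hSSL hb
    have h2 := h1 z (z' ^ 2) hne (pow_ne_zero _ hne')
    have h3 := h1.pow hne' 2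
    simp only at h2 h3
    rw [h2, h3]
    push_cast
    ring
  refine ⟨mul_ne_zero hne (pow_ne_zero _ hne'), ⟨t * t' ^ 2, ?_⟩, fun σ => ?_, fun σ hσ => ?_,
    fun hl => ⟨?_, ?_⟩⟩
  · rw [map_mul, map_pow]
    calc z * z' ^ 2 * (conj z * conj z' ^ 2) = (z * conj z) * (z' * conj z') ^ 2 := by ring
      _ = (t * t' ^ 2) ^ 3 := by
        rw [ht, ht']
        ring
  · have h1 := add3_tm hSTM σ.2.1 (hSPP.2.2.2.1 σ).1 hB0
    have h2 := h1 z (z' ^ 2) hne (pow_ne_zero _ hne')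
    have h3 := h1.pow hne' 2
    simp only at h2 h3
    rw [h2, h3, hz.sym σ, hz'.sym σ, mul_zero, add_zero]
  · rw [V_mul σ.2.1 hne (pow_ne_zero _ hne'), V_pow σ.2.1 hne']
    exact (Nat.dvd_add_right (hz.unr σ hσ)).2 (Dvd.dvd.mul_left (hz'.unr σ hσ) _)
  · rw [hsl 3 h30, (hz.lam hl).1, (hz'.lam hl).1]
    ring
  · rw [hsl 4 h40, (hz.lam hl).2, (hz'.lam hl).2]
    ring

/-- the sum over the columns -/
theorem sum_col (hSPP : SPP) {n m k : ℕ} {π : Fin m → PP} {p e : Fin m → ℕ} {r f : Fin k → ℕ}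
    (hN : NF n π p e r f) (ρ : PP) (hρn : ¬ ρ.1 ∣ (n : Eis)) {x : ℤ} (hx : x ≠ 0)
    (hs : ∀ l : ℕ, l.Prime → (l : ℤ) ∣ x → l ∣ 3 * n) :
    ∑ b : Col m k, exv p r x b * sym ρ.1 (((prm p r b : ℕ) : ℤ) : Eis) = sym ρ.1 (x : Eis) := by
  rw [EHPT.sym_eq hSPP hN ρ hρn hx hs, Fintype.sum_sum_type, Fin.sum_univ_succ]
  have h1 : ∀ b : Col m k, ch ρ.1 ((prm p r b : ℕ) : Eis) =
      sym ρ.1 (((prm p r b : ℕ) : ℤ) : Eis) := by
    intro b
    have h2 : ¬ ρ.1 ∣ (((prm p r b : ℕ) : ℤ) : Eis) := fun h3 =>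
      hρn (prm_supp hSPP hN b ρ h3)
    rw [Int.cast_natCast] at h2 ⊢
    exact ch_of_not_dvd ρ.2.1 h2
  rw [add_assoc]
  congr 1
  change _ = (∑ i, (padicValInt (p i) x : ZMod 3) * ch ρ.1 (p i : Eis)) +
    ∑ j, (padicValInt (r j) x : ZMod 3) * ch ρ.1 (r j : Eis)
  congr 1
  · refine Finset.sum_congr rfl fun i _ => ?_
    have h3 := h1 (Sum.inl i.succ)
    change ch ρ.1 (p i : Eis) = _ at h3
    rw [h3]
    rfl
  · refine Finset.sum_congr rfl fun j _ => ?_
    have h3 := h1 (Sum.inr j)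
    change ch ρ.1 (r j : Eis) = _ at h3
    rw [h3]
    rfl

end NPSU

open _root_.Pool.Agent.PTN.NPSU in
/-- PTN_NPSU: the minus part, `q = 1 (mod 3)`. -/
theorem NPSU_thm (hV : Stmt_NVEC) (hSTM : STM) (hSPP : SPP) (hSSL : SSL) (_hSLC : SLC)
    (_hSREC : SREC) (hSCJ : SCJ) (_hLCI : LCI) (_hSPLT : SPLT) (hLCL : LCL) : Stmt_NPSU := by
  classical
  intro h n m k π p e r f w0 c E q ρ hN hh hE hq hq1 hcl hqn hρ
  have hD : Dat h n E q π e w0 c ρ := dat hSPP hLCL hN hE hq hq1 hcl hqn hρ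
  obtain ⟨hV1, -, -⟩ := hV h n m k π p e r f w0 c hN hh
  set σ : Col m k → ZMod 3 := fun b => sym ρ.1 (((prm p r b : ℕ) : ℤ) : Eis) with hσ
  have hmem : ∀ z, SelM (BB h n E q) z → YY π e ρ z ∈ WS h n π p e r w0 c σ := fun z hz =>
    mem_YY hSPP hSSL hSCJ hLCL hN hh hE hq hq1 hqn hρ hD hz
  have hF3 : Fact (Nat.Prime 3) := ⟨Nat.prime_three⟩
  refine ⟨WS h n π p e r w0 c σ, inferInstance,
    fun z => if hz : SelM (BB h n E q) z then ⟨YY π e ρ z, hmem z hz⟩ else 0, ?_, ?_⟩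
  · rw [Module.natCard_eq_pow_finrank (K := ZMod 3), Nat.card_zmod]
    refine Nat.pow_le_pow_right (by norm_num) ?_
    split_ifs with hx
    · obtain ⟨x, hx1, hx2⟩ := hx
      have h1 := (hV1 x hx1.1.ne hx1.1.supp).1 hx1
      have h2 := sum_col hSPP hN ρ hD.rn hx1.1.ne hx1.1.supp
      rw [add_zero]
      refine fin_le0 σ (snd_zero h1 ?_)
      rw [hσ]
      dsimp only
      rw [h2]
      exact hx2
    · exact fin_le1 σ
  · intro z z' hz hz' hY
    dsimp only at hY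
    rw [dif_pos hz, dif_pos hz'] at hY
    have hY1 : YY π e ρ z = YY π e ρ z' := congrArg Subtype.val hY
    have h40 : (4 : Eis) ≠ 0 := by
      have := HYPU.cast_ne (x := 4) (by norm_num)
      exact_mod_cast this
    have h1 := congrArg Prod.fst hY1
    have h2 : (V ρ.1 z : ZMod 3) = (V ρ.1 z' : ZMod 3) := congrArg Prod.snd hY1
    have h3 : -sl z 4 = -sl z' 4 := congrFun h1 0
    have h4 : ∀ i : Fin m, (e i : ZMod 3) * (V (π i).1 z : ZMod 3) =
        (e i : ZMod 3) * (V (π i).1 z' : ZMod 3) := fun i => congrFun h1 i.succ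
    have h5 : ∀ i : Fin m, (V (π i).1 z : ZMod 3) = (V (π i).1 z' : ZMod 3) := by
      intro i
      have h6 := HYPS.e_sq hN i
      linear_combination (e i : ZMod 3) * h4 i - ((V (π i).1 z : ZMod 3) -
        (V (π i).1 z' : ZMod 3)) * h6
    have hz2 := SelM_mul hSTM hSPP hSSL hD.ne hz hz'
    have hne := hz.ne
    have hne' := hz'.ne
    have hVz : ∀ τ : PP, (V τ.1 z : ZMod 3) = (V τ.1 z' : ZMod 3) →
        (V τ.1 (z * z' ^ 2) : ZMod 3) = 0 := by
      intro τ hτ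
      rw [V_mul τ.2.1 hne (pow_ne_zero _ hne'), V_pow τ.2.1 hne']
      push_cast
      rw [hτ]
      linear_combination three_zero (V τ.1 z' : ZMod 3)
    have h6 : sl (z * z' ^ 2) 4 = 0 := by
      have h7 := add3_sl hSSL h40
      have h8 := h7 z (z' ^ 2) hne (pow_ne_zero _ hne')
      have h9 := h7.pow hne' 2
      simp only at h8 h9
      rw [h8, h9]
      push_cast
      linear_combination three_zero (sl z' 4) - h3
    obtain ⟨γ, hγ⟩ := cube hSPP hSSL hLCL hN hE hq hq1 hqn hρ hD hz2 h6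
      (fun i => hVz _ (h5 i)) (hVz _ h2)
    refine ⟨z', γ, hne', ?_, ?_⟩
    · rintro rfl
      rw [zero_pow (by norm_num)] at hγ
      exact mul_ne_zero hne (pow_ne_zero _ hne') hγ
    · rw [← hγ]
      ring

end Pool.Agent.PTN


end

section

/-!
# Frobenius elements and the pattern, for both prime factors
-/

open NumberField IsDedekindDomain Finset
open scoped nonZeroDivisors Pointwise

namespace Pool.Agent.PTN

open Pool.Agent.Lib_helper18 Pool.Agent.Lib_helper18.Eis Pool.Agent.Lib_helper84.Cub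
open Pool.Agent.PT Pool.Agent.PTE Pool.Agent.PT3 Pool.Agent.PTL

namespace GFRU

theorem conj_lf1 (p q r : ℤ) : conj (Lf p q 1 r) = Lf p q 2 r := by
  simp only [Lf, map_add, map_mul, conj_intCast, pow_one, conj_w]

theorem conj_lf2 (p q r : ℤ) : conj (Lf p q 2 r) = Lf p q 1 r := by
  rw [← conj_lf1, conj_conj]

/-- complex conjugation and the symbols of rational integers and of the linear forms -/
structure CJ (ρ : Eis) (Q : ℕ) : Prop where
  hd : ∀ x : ℤ, ρ ∣ (x : Eis) ↔ (Q : ℤ) ∣ x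
  cj : ∀ a : Eis, ¬ ρ ∣ a → sym (conj ρ) (conj a) = - sym ρ a

theorem CJ.int {ρ : Eis} {Q : ℕ} (h : CJ ρ Q) {x : ℤ} (hx : ¬ (Q : ℤ) ∣ x) :
    sym (conj ρ) (x : Eis) = - sym ρ (x : Eis) := by
  have h1 := h.cj (x : Eis) (fun h2 => hx ((h.hd x).1 h2))
  rwa [conj_intCast] at h1

theorem CJ.tauvs {ρ : Eis} {Q : ℕ} (h : CJ ρ Q) {b p q p' q' r : ℤ}
    (h1 : ¬ (Q : ℤ) ∣ p ^ 3 + b * q ^ 3) (h2 : ¬ (Q : ℤ) ∣ p' ^ 3 + b * q' ^ 3)
    (hr : (Q : ℤ) ∣ r ^ 3 - b) : TAUVS (conj ρ) p q p' q' r = TAUVS ρ p q p' q' r := by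
  obtain ⟨e1, e2⟩ := PTE.GFRS.lf_not_dvd h.hd h1 hr
  obtain ⟨e1', e2'⟩ := PTE.GFRS.lf_not_dvd h.hd h2 hr
  have a1 := h.cj _ e1
  have a2 := h.cj _ e2
  have a1' := h.cj _ e1'
  have a2' := h.cj _ e2'
  rw [conj_lf1] at a1 a1'
  rw [conj_lf2] at a2 a2'
  unfold TAUVS
  rw [a1, a2, a1', a2']
  ring

end GFRU

theorem GFRU_thm (hSPLT : SPLT) (hSPP : SPP) : Stmt_GFRU := by
  classical
  intro s b p q p' q' f L _ _ ζ ω hS hG
  let B : Fin (s + 1) → Fin (s + 1) → ℕ := fun j i => (b j).natAbs +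
    (p j i ^ 3 + b j * q j i ^ 3).natAbs + (p' j i ^ 3 + b j * q' j i ^ 3).natAbs
  refine ⟨∑ j, ∑ i, B j i, fun Q hQ hQN hQ3 P hP hQP φ hφ ρ hρQ => ?_⟩
  have hB : ∀ j i, B j i < Q := by
    intro j i
    refine lt_of_le_of_lt ?_ hQN
    have h1 : B j i ≤ ∑ i, B j i :=
      Finset.single_le_sum (f := fun i => B j i) (fun _ _ => Nat.zero_le _) (Finset.mem_univ i)
    refine h1.trans ?_
    exact Finset.single_le_sum (f := fun j => ∑ i, B j i) (fun _ _ => Nat.zero_le _)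
      (Finset.mem_univ j)
  have hb : ∀ j, ¬ (Q : ℤ) ∣ b j := fun j =>
    GFR.not_dvd_of_lt (PTE.GFRS.ne_zero hS j)
      (by have := hB j j; simp only [B] at this; omega)
  have hd1 : ∀ j i : Fin s, j ≠ i →
      ¬ (Q : ℤ) ∣ rs p j i ^ 3 + b j.castSucc * rs q j i ^ 3 ∧
      ¬ (Q : ℤ) ∣ rs p' j i ^ 3 + b j.castSucc * rs q' j i ^ 3 := by
    intro j i hji
    have hji' : j.castSucc ≠ i.castSucc := fun h => hji (Fin.castSucc_injective _ h)
    have hsol := hS.sol j.castSucc i.castSucc hji'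
    have h2 : p' j.castSucc i.castSucc ^ 3 + b j.castSucc * q' j.castSucc i.castSucc ^ 3 ≠ 0 := by
      intro h0
      refine hsol.n1 ?_
      rw [hsol.eq, h0, mul_zero]
    have hBji := hB j.castSucc i.castSucc
    simp only [B] at hBji
    have e1 := GFR.not_dvd_of_lt (Q := Q) hsol.n1 (by omega)
    have e2 := GFR.not_dvd_of_lt (Q := Q) h2 (by omega)
    exact ⟨e1, e2⟩
  obtain ⟨ωB, ρ₀, F, _, mk, z, ψ, rfl, hρ₀, D⟩ :=
    PTE.GFRS.exists_dat hSPLT hSPP hQ hP hQP hQ3 hφ hG.rel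
  -- the statement for the prime factor compatible with `P`
  have key1 : Fx b φ ↔ (∀ j : Fin s, sym ρ₀.1 (b j.castSucc : Eis) = 0) ∧
      sym ρ₀.1 (b (Fin.last s) : Eis) ≠ 0 := by
    constructor
    · intro hF
      refine ⟨fun j => ?_, ?_⟩
      · obtain ⟨θ, hθ⟩ := hG.root j.castSucc
        obtain ⟨θB, rfl, hθB⟩ := PTE.GFRS.exists_int hθ
        exact D.sym_zero hθB (hb _) (RingOfIntegers.coe_injective (hF.1 j _ hθ))
      · obtain ⟨θ, hθ⟩ := hG.root (Fin.last s)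
        obtain ⟨θB, rfl, hθB⟩ := PTE.GFRS.exists_int hθ
        exact D.sym_ne hθB (hb _) fun h => hF.2 _ hθ (congrArg (fun x : 𝓞 L => (x : L)) h)
    · rintro ⟨h1, h2⟩
      refine ⟨fun j θ hθ => ?_, fun θ hθ h => ?_⟩
      · obtain ⟨θB, rfl, hθB⟩ := PTE.GFRS.exists_int hθ
        by_contra h3
        exact D.sym_ne hθB (hb _)
          (fun h => h3 (congrArg (fun x : 𝓞 L => (x : L)) h)) (h1 j)
      · obtain ⟨θB, rfl, hθB⟩ := PTE.GFRS.exists_int hθ
        exact h2 (D.sym_zero hθB (hb _) (RingOfIntegers.coe_injective h))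
  have key2 : Fx b φ → ∀ j i : Fin s, j ≠ i → ∀ (r : ℤ) (t : ZMod 3),
      (Q : ℤ) ∣ r ^ 3 - b j.castSucc →
      IsTS b p q p' q' (ωB : L) φ j.castSucc i.castSucc t →
      t = TAUVS ρ₀.1 (rs p j i) (rs q j i) (rs p' j i) (rs q' j i) r := by
    intro hF j i hji r t hr ht
    have hji' : j.castSucc ≠ i.castSucc := fun h => hji (Fin.castSucc_injective _ h)
    obtain ⟨e1, e2⟩ := hd1 j i hji
    obtain ⟨θ₀, hθ₀⟩ := hG.root j.castSucc
    obtain ⟨θ₁, rfl, hθ₁⟩ := PTE.GFRS.exists_int hθ₀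
    obtain ⟨θ, hθ, hrθ⟩ := D.exists_root hr hθ₁
    have hθL : (θ : L) ^ 3 = (b j.castSucc : L) := by
      rw [← map_pow, hθ, map_intCast]
    obtain ⟨A, hA⟩ := hG.A j.castSucc i.castSucc hji' θ hθL
    exact D.core e1 e2 hr hrθ (hF.1 j θ hθL) hA (ht θ A hθL hA)
  -- the other prime factor
  obtain ⟨-, -, h3, h4, h5, -⟩ := hSPLT.2 Q ρ₀ hQ hQ3 hρ₀
  have hC : GFRU.CJ ρ₀.1 Q := ⟨h4, h5⟩
  rcases h3 ρ ⟨conj ρ.1, hρQ⟩ with h6 | h6
  · rw [h6]
    exact ⟨key1, key2⟩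
  · rw [h6]
    refine ⟨?_, fun hF j i hji r t hr ht => ?_⟩
    · rw [key1]
      refine and_congr (forall_congr' fun j => ?_) ?_
      · rw [hC.int (hb _), neg_eq_zero]
      · rw [hC.int (hb _), ne_eq, ne_eq, neg_eq_zero]
    · rw [hC.tauvs (hd1 j i hji).1 (hd1 j i hji).2 hr]
      exact key2 hF j i hji r t hr ht

end Pool.Agent.PTN


end

section

/-!
# The law of the ranks of prime twists for every `n`: module BDU (the exact bound for the density,
both exponents together, `Q = 1 (mod 3)`)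
-/

set_option autoImplicit false

open NumberField IsDedekindDomain Finset
open scoped nonZeroDivisors Pointwise

namespace Pool.Agent.PTN

open Pool.Agent.Lib_helper18 Pool.Agent.Lib_helper18.Eis Pool.Agent.Lib_helper84.Cub
open Pool.Agent.PT Pool.Agent.PTE Pool.Agent.PT3 Pool.Agent.PTL

namespace BDU

open BDENS

theorem M1_pow {f : ℕ} (hf : 0 < f) (h3 : 3 ∣ f) {a : (ZMod f)ˣ} (ha : M1 a) (k : ℕ) :
    M1 (a ^ k) := by
  have : NeZero f := ⟨hf.ne'⟩
  rw [DENSS.M1_iff h3] at ha ⊢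
  rw [Units.val_pow_eq_pow_val, map_pow, ha, one_pow]

/-- Generators of a finite cyclic group are powers of each other with an exponent prime
to `3`. -/
theorem exists_pow3 {G : Type} [Group G] [Finite G] {g h : G}
    (hz : Subgroup.zpowers h = Subgroup.zpowers g) :
    ∃ k : ℕ, k % 3 ≠ 0 ∧ h = g ^ k := by
  have h1 : h ∈ Subgroup.zpowers g := by
    rw [← hz]
    exact Subgroup.mem_zpowers h
  obtain ⟨k, hk⟩ := (isOfFinOrder_of_finite g).mem_powers_iff_mem_zpowers.2 h1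
  have hk' : g ^ k = h := hk
  have h2 : orderOf h = orderOf g := by
    rw [← Nat.card_zpowers, ← Nat.card_zpowers, hz]
  have h3 : (orderOf g).gcd k = 1 := by
    have h5 : orderOf (g ^ k) = orderOf g / (orderOf g).gcd k := orderOf_pow g
    rw [hk', h2] at h5
    have h6 : 0 < orderOf g := orderOf_pos g
    have h7 : (orderOf g).gcd k ∣ orderOf g := Nat.gcd_dvd_left _ _
    obtain ⟨c, hc⟩ := h7
    have h8 : 0 < (orderOf g).gcd k := Nat.gcd_pos_of_pos_left _ h6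
    have h9 : orderOf g / (orderOf g).gcd k = c := Nat.div_eq_of_eq_mul_right h8 hc
    rw [h9] at h5
    rw [← h5] at hc
    have h10 : (orderOf g) * (orderOf g).gcd k = orderOf g * 1 := by
      rw [mul_one, mul_comm]
      exact hc.symm
    exact Nat.eq_of_mul_eq_mul_left h6 h10
  by_cases h30 : k % 3 = 0
  · refine ⟨k + orderOf g, ?_, ?_⟩
    · intro h4
      have h5 : 3 ∣ (orderOf g).gcd k := Nat.dvd_gcd (by omega) (by omega)
      rw [h3] at h5
      omega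
    · rw [pow_add, pow_orderOf_eq_one, mul_one, hk']
  · exact ⟨k, h30, hk'.symm⟩

section
variable {G : Type} [Group G] {f m s : ℕ} (χ : G →* (ZMod f)ˣ)
    (κ : (ZMod f)ˣ →* Multiplicative (Fin (m + 1) → ZMod 3)) (c : Fin (m + 1) → ZMod 3)
    (C : Fin s → Fin s → ZMod 3) (Φ : (ZMod f)ˣ →* Multiplicative (Fin s → Fin s → ZMod 3))
    (t : ℕ) (F : G → Prop) (tt : G → Fin s → Fin s → ZMod 3)

/-- the elements with class `c` or `-c` -/
def InU (g : G) : Prop := M1 (χ g) ∧ ((κ (χ g)).toAdd = c ∨ (κ (χ g)).toAdd = -c)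

/-- the elements of class `c` with the pattern and large kernel -/
def XP (g : G) : Prop := M1 (χ g) ∧ (κ (χ g)).toAdd = c ∧ F g ∧
  t ≤ s - (alt (C + (Φ (χ g)).toAdd + tt g)).rank

/-- the elements of class `-c` with the pattern and large kernel -/
def XM (g : G) : Prop := M1 (χ g) ∧ (κ (χ g)).toAdd = -c ∧ F g ∧
  t ≤ s - (alt (C - (Φ (χ g)).toAdd - tt g)).rank

/-- passing to a power with exponent prime to `3` -/
theorem transfer (hf : 0 < f) (h3 : 3 ∣ f) {g h : G} {k : ℕ} (hk3 : k % 3 ≠ 0)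
    (hχ : χ h = χ g ^ k) (hg : M1 (χ g)) (hF : F h → F g)
    (ht : F g → ∀ j i, j ≠ i → tt h j i = k * tt g j i) :
    (InU χ κ c g → InU χ κ c h) ∧
      (((XP χ κ c C Φ t F tt h → XP χ κ c C Φ t F tt g) ∧
          (XM χ κ c C Φ t F tt h → XM χ κ c C Φ t F tt g)) ∨
        ((XP χ κ c C Φ t F tt h → XM χ κ c C Φ t F tt g) ∧
          (XM χ κ c C Φ t F tt h → XP χ κ c C Φ t F tt g))) := by
  have hM : M1 (χ h) := by
    rw [hχ]
    exact M1_pow hf h3 hg k
  have e1 : (κ (χ h)).toAdd = k • (κ (χ g)).toAdd := by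
    rw [hχ, map_pow, toAdd_pow]
  have e2 : (Φ (χ h)).toAdd = k • (Φ (χ g)).toAdd := by
    rw [hχ, map_pow, toAdd_pow]
  have hk12 : k % 3 = 1 ∨ k % 3 = 2 := by omega
  rcases hk12 with hk1 | hk2
  · rw [nsmul_one three_f hk1] at e1
    rw [nsmul_one three_ff hk1] at e2
    have ht' : F g → ∀ j i, j ≠ i → tt h j i = tt g j i := by
      intro hFg j i hji
      rw [ht hFg j i hji, cast_one hk1]
    refine ⟨?_, Or.inl ⟨?_, ?_⟩⟩
    · rintro ⟨-, h2⟩
      refine ⟨hM, ?_⟩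
      rw [e1]
      exact h2
    · rintro ⟨-, h2, hFh, h4⟩
      rw [e1] at h2
      rw [(DENSS.det_same e2 (ht' (hF hFh))).1] at h4
      exact ⟨hg, h2, hF hFh, h4⟩
    · rintro ⟨-, h2, hFh, h4⟩
      rw [e1] at h2
      rw [(DENSS.det_same e2 (ht' (hF hFh))).2] at h4
      exact ⟨hg, h2, hF hFh, h4⟩
  · rw [nsmul_two three_f hk2] at e1
    rw [nsmul_two three_ff hk2] at e2
    have ht' : F g → ∀ j i, j ≠ i → tt h j i = - tt g j i := by
      intro hFg j i hji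
      rw [ht hFg j i hji, cast_two hk2]
    refine ⟨?_, Or.inr ⟨?_, ?_⟩⟩
    · rintro ⟨-, h2⟩
      refine ⟨hM, ?_⟩
      rw [e1]
      rcases h2 with h2 | h2
      · exact Or.inr (by rw [h2])
      · exact Or.inl (by rw [h2, neg_neg])
    · rintro ⟨-, h2, hFh, h4⟩
      rw [e1] at h2
      rw [(DENSS.det_opp e2 (ht' (hF hFh))).1] at h4
      exact ⟨hg, by rw [← h2, neg_neg], hF hFh, h4⟩
    · rintro ⟨-, h2, hFh, h4⟩
      rw [e1] at h2
      rw [(DENSS.det_opp e2 (ht' (hF hFh))).2] at h4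
      exact ⟨hg, neg_injective h2, hF hFh, h4⟩

/-- a predicate which can be transferred -/
def Inv (B : G → Prop) : Prop := ∀ {g h : G} {k : ℕ}, k % 3 ≠ 0 → χ h = χ g ^ k →
  M1 (χ g) → (F h → F g) → (F g → ∀ j i, j ≠ i → tt h j i = k * tt g j i) →
  (InU χ κ c g → InU χ κ c h) ∧ (B h → B g)

theorem inv_or (hf : 0 < f) (h3 : 3 ∣ f) :
    Inv χ κ c F tt fun g => XP χ κ c C Φ t F tt g ∨ XM χ κ c C Φ t F tt g := by
  intro g h k hk3 hχ hg hF ht
  obtain ⟨h1, h2⟩ := transfer χ κ c C Φ t F tt hf h3 hk3 hχ hg hF ht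
  refine ⟨h1, ?_⟩
  rcases h2 with ⟨h4, h5⟩ | ⟨h4, h5⟩
  · rintro (h6 | h6)
    · exact Or.inl (h4 h6)
    · exact Or.inr (h5 h6)
  · rintro (h6 | h6)
    · exact Or.inr (h4 h6)
    · exact Or.inl (h5 h6)

theorem inv_and (hf : 0 < f) (h3 : 3 ∣ f) :
    Inv χ κ c F tt fun g => XP χ κ c C Φ t F tt g ∧ XM χ κ c C Φ t F tt g := by
  intro g h k hk3 hχ hg hF ht
  obtain ⟨h1, h2⟩ := transfer χ κ c C Φ t F tt hf h3 hk3 hχ hg hF ht
  refine ⟨h1, ?_⟩
  rcases h2 with ⟨h4, h5⟩ | ⟨h4, h5⟩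
  · rintro ⟨h6, h7⟩
    exact ⟨h4 h6, h5 h7⟩
  · rintro ⟨h6, h7⟩
    exact ⟨h5 h7, h4 h6⟩

/-- the data of generators of conjugate cyclic groups -/
theorem gen [Finite G] (hf : 0 < f) (h3 : 3 ∣ f)
    (hconj : ∀ g τ : G, M1 (χ g) → F g →
      F (τ * g * τ⁻¹) ∧ ∀ j i, j ≠ i → tt (τ * g * τ⁻¹) j i = tt g j i)
    (hpow : ∀ (g : G) (k : ℕ), M1 (χ g) → F g → ¬ 3 ∣ k →
      F (g ^ k) ∧ ∀ j i, j ≠ i → tt (g ^ k) j i = k * tt g j i)
    {g h τ : G} (hM : M1 (χ g))
    (hz : Subgroup.zpowers h = Subgroup.zpowers (τ * g * τ⁻¹)) :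
    ∃ k : ℕ, k % 3 ≠ 0 ∧ χ h = χ g ^ k ∧ (F h → F g) ∧
      (F g → ∀ j i, j ≠ i → tt h j i = k * tt g j i) := by
  have hχg : χ (τ * g * τ⁻¹) = χ g := by
    rw [map_mul, map_mul, map_inv, mul_comm (χ τ), mul_inv_cancel_right]
  have hM' : M1 (χ (τ * g * τ⁻¹)) := by
    rw [hχg]
    exact hM
  obtain ⟨k, hk3, hh⟩ := exists_pow3 hz
  obtain ⟨l, hl3, hl⟩ := exists_pow3 hz.symm
  have h1 : χ h = χ g ^ k := by
    rw [hh, map_pow, hχg]
  have hMh : M1 (χ h) := by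
    rw [h1]
    exact M1_pow hf h3 hM k
  refine ⟨k, hk3, h1, ?_, ?_⟩
  · intro hFh
    have h4 : F (τ * g * τ⁻¹) := by
      rw [hl]
      exact (hpow h l hMh hFh (by omega)).1
    have h5 := (hconj (τ * g * τ⁻¹) τ⁻¹ hM' h4).1
    have h6 : τ⁻¹ * (τ * g * τ⁻¹) * τ⁻¹⁻¹ = g := by group
    rwa [h6] at h5
  · intro hFg j i hji
    obtain ⟨h4, h5⟩ := hconj g τ hM hFg
    rw [hh, (hpow _ k hM' h4 (by omega)).2 j i hji, h5 j i hji]

/-- the elements that are not bad are stable under conjugation and change of generator -/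
theorem stable [Finite G] (hf : 0 < f) (h3 : 3 ∣ f) {B : G → Prop} (hB : Inv χ κ c F tt B)
    (hconj : ∀ g τ : G, M1 (χ g) → F g →
      F (τ * g * τ⁻¹) ∧ ∀ j i, j ≠ i → tt (τ * g * τ⁻¹) j i = tt g j i)
    (hpow : ∀ (g : G) (k : ℕ), M1 (χ g) → F g → ¬ 3 ∣ k →
      F (g ^ k) ∧ ∀ j i, j ≠ i → tt (g ^ k) j i = k * tt g j i)
    {g h τ : G} (hg : InU χ κ c g ∧ ¬ B g)
    (hz : Subgroup.zpowers h = Subgroup.zpowers (τ * g * τ⁻¹)) :
    InU χ κ c h ∧ ¬ B h := by
  obtain ⟨k, hk3, h1, h2, h4⟩ := gen χ F tt hf h3 hconj hpow hg.1.1 hz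
  obtain ⟨h5, h6⟩ := hB hk3 h1 hg.1.1 h2 h4
  exact ⟨h5 hg.1, fun h7 => hg.2 (h6 h7)⟩

/-- counting in one class -/
theorem card_cls [Finite G] (hEQX : Stmt_EQX)
    (heq : ∀ (a : (ZMod f)ˣ) (v v' : Fin s → Fin s → ZMod 3), M1 a →
      Nat.card {g : G // χ g = a ∧ F g ∧ ∀ j i, j < i → tt g j i = v j i} =
        Nat.card {g : G // χ g = a ∧ F g ∧ ∀ j i, j < i → tt g j i = v' j i})
    (hcF : ∀ a : (ZMod f)ˣ, M1 a → 3 ^ (s + 1) * Nat.card {g : G // χ g = a ∧ F g} =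
      2 * Nat.card {g : G // χ g = a})
    (hfib : ∀ a : (ZMod f)ˣ, Nat.card {g : G // χ g = a} = Nat.card χ.ker)
    (a : (ZMod f)ˣ) (D : Fin s → Fin s → ZMod 3) (ha : M1 a) :
    (3 ^ (s + 1) * Nat.card (Fin s → Fin s → ZMod 3)) *
        Nat.card {g : G // χ g = a ∧ F g ∧ t ≤ s - (alt (D + tt g)).rank} ≤
        2 * NK s t * Nat.card χ.ker ∧
    (3 ^ (s + 1) * Nat.card (Fin s → Fin s → ZMod 3)) *
        Nat.card {g : G // χ g = a ∧ F g ∧ t ≤ s - (alt (D - tt g)).rank} ≤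
        2 * NK s t * Nat.card χ.ker := by
  have key : ∀ R : G → Prop, Nat.card {x : {g : G // χ g = a ∧ F g} // R x} =
      Nat.card {g : G // χ g = a ∧ F g ∧ R g} := fun R =>
    Nat.card_congr ((Equiv.subtypeSubtypeEquivSubtypeInter (fun g : G => χ g = a ∧ F g) R).trans
      (Equiv.subtypeEquivRight fun g => and_assoc))
  obtain ⟨h1, h2⟩ := hEQX s {g : G // χ g = a ∧ F g} (fun x => tt x) (by
    intro v v'
    rw [key (fun g => ∀ j i, j < i → tt g j i = v j i),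
      key (fun g => ∀ j i, j < i → tt g j i = v' j i)]
    exact heq a v v' ha) D {M | t ≤ s - M.rank}
  have k1 := key (fun g => t ≤ s - (alt (D + tt g)).rank)
  have k2 := key (fun g => t ≤ s - (alt (D - tt g)).rank)
  have h3 := hcF a ha
  rw [hfib a] at h3
  have h1' : Nat.card {g : G // χ g = a ∧ F g ∧ t ≤ s - (alt (D + tt g)).rank} *
      Nat.card (Fin s → Fin s → ZMod 3) = NK s t * Nat.card {g : G // χ g = a ∧ F g} := by
    rw [← k1]
    exact h1
  have h2' : Nat.card {g : G // χ g = a ∧ F g ∧ t ≤ s - (alt (D - tt g)).rank} *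
      Nat.card (Fin s → Fin s → ZMod 3) = NK s t * Nat.card {g : G // χ g = a ∧ F g} := by
    rw [← k2]
    exact h2
  generalize Nat.card {g : G // χ g = a ∧ F g ∧ t ≤ s - (alt (D + tt g)).rank} = x1 at *
  generalize Nat.card {g : G // χ g = a ∧ F g ∧ t ≤ s - (alt (D - tt g)).rank} = x2 at *
  generalize Nat.card {g : G // χ g = a ∧ F g} = X at *
  generalize Nat.card (Fin s → Fin s → ZMod 3) = A at *
  generalize Nat.card χ.ker = K at *
  generalize 3 ^ (s + 1) = T at *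
  constructor
  · calc (T * A) * x1 = T * (x1 * A) := by ring
      _ = NK s t * (T * X) := by rw [h1']; ring
      _ = 2 * NK s t * K := by rw [h3]; ring
      _ ≤ _ := le_refl _
  · calc (T * A) * x2 = T * (x2 * A) := by ring
      _ = NK s t * (T * X) := by rw [h2']; ring
      _ = 2 * NK s t * K := by rw [h3]; ring
      _ ≤ _ := le_refl _

/-- counting -/
theorem card_X [Finite G] (hEQX : Stmt_EQX) (hf : 0 < f) (hχ : Function.Surjective χ)
    (heq : ∀ (a : (ZMod f)ˣ) (v v' : Fin s → Fin s → ZMod 3), M1 a →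
      Nat.card {g : G // χ g = a ∧ F g ∧ ∀ j i, j < i → tt g j i = v j i} =
        Nat.card {g : G // χ g = a ∧ F g ∧ ∀ j i, j < i → tt g j i = v' j i})
    (hcF : ∀ a : (ZMod f)ˣ, M1 a → 3 ^ (s + 1) * Nat.card {g : G // χ g = a ∧ F g} =
      2 * Nat.card {g : G // χ g = a})
    (hκ : ∀ c : Fin (m + 1) → ZMod 3,
      Nat.card {a : (ZMod f)ˣ // M1 a ∧ (κ a).toAdd = c} * (2 * 3 ^ (m + 1)) = f.totient) :
    (3 ^ (s + 1) * Nat.card (Fin s → Fin s → ZMod 3)) *
        Nat.card {g : G // XP χ κ c C Φ t F tt g} *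
        (2 * 3 ^ (m + 1)) ≤ 2 * NK s t * Nat.card G ∧
      (3 ^ (s + 1) * Nat.card (Fin s → Fin s → ZMod 3)) *
        Nat.card {g : G // XM χ κ c C Φ t F tt g} *
        (2 * 3 ^ (m + 1)) ≤ 2 * NK s t * Nat.card G := by
  have : NeZero f := ⟨hf.ne'⟩
  obtain ⟨hfib, hcard⟩ := fibre χ hχ
  have hH : Nat.card (ZMod f)ˣ = f.totient := by
    rw [Nat.card_eq_fintype_card, ZMod.card_units_eq_totient]
  rw [hH] at hcard
  have hcls := card_cls χ t F tt hEQX heq hcF hfib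
  have hP : (3 ^ (s + 1) * Nat.card (Fin s → Fin s → ZMod 3)) *
      Nat.card {g : G // (M1 (χ g) ∧ (κ (χ g)).toAdd = c) ∧
        F g ∧ t ≤ s - (alt (C + (Φ (χ g)).toAdd + tt g)).rank} ≤
      Nat.card {a : (ZMod f)ˣ // M1 a ∧ (κ a).toAdd = c} * (2 * NK s t * Nat.card χ.ker) := by
    refine count_le χ (fun g => F g ∧ t ≤ s - (alt (C + (Φ (χ g)).toAdd + tt g)).rank)
      (fun a => M1 a ∧ (κ a).toAdd = c) _ _ fun a ha => ?_
    refine le_trans (Nat.mul_le_mul_left _ (le_of_eq ?_)) (hcls a (C + (Φ a).toAdd) ha.1).1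
    refine Nat.card_congr (Equiv.subtypeEquivRight fun g => ?_)
    constructor
    · rintro ⟨rfl, h⟩
      exact ⟨rfl, h⟩
    · rintro ⟨rfl, h⟩
      exact ⟨rfl, h⟩
  have hN : (3 ^ (s + 1) * Nat.card (Fin s → Fin s → ZMod 3)) *
      Nat.card {g : G // (M1 (χ g) ∧ (κ (χ g)).toAdd = -c) ∧
        F g ∧ t ≤ s - (alt (C - (Φ (χ g)).toAdd - tt g)).rank} ≤
      Nat.card {a : (ZMod f)ˣ // M1 a ∧ (κ a).toAdd = -c} * (2 * NK s t * Nat.card χ.ker) := by
    refine count_le χ (fun g => F g ∧ t ≤ s - (alt (C - (Φ (χ g)).toAdd - tt g)).rank)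
      (fun a => M1 a ∧ (κ a).toAdd = -c) _ _ fun a ha => ?_
    refine le_trans (Nat.mul_le_mul_left _ (le_of_eq ?_)) (hcls a (C - (Φ a).toAdd) ha.1).2
    refine Nat.card_congr (Equiv.subtypeEquivRight fun g => ?_)
    constructor
    · rintro ⟨rfl, h⟩
      exact ⟨rfl, h⟩
    · rintro ⟨rfl, h⟩
      exact ⟨rfl, h⟩
  have e1 : Nat.card {g : G // XP χ κ c C Φ t F tt g} =
      Nat.card {g : G // (M1 (χ g) ∧ (κ (χ g)).toAdd = c) ∧
        F g ∧ t ≤ s - (alt (C + (Φ (χ g)).toAdd + tt g)).rank} :=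
    Nat.card_congr (Equiv.subtypeEquivRight fun g => (and_assoc).symm)
  have e2 : Nat.card {g : G // XM χ κ c C Φ t F tt g} =
      Nat.card {g : G // (M1 (χ g) ∧ (κ (χ g)).toAdd = -c) ∧
        F g ∧ t ≤ s - (alt (C - (Φ (χ g)).toAdd - tt g)).rank} :=
    Nat.card_congr (Equiv.subtypeEquivRight fun g => (and_assoc).symm)
  rw [← e1] at hP
  rw [← e2] at hN
  have h1 := hκ c
  have h2 := hκ (-c)
  generalize Nat.card {g : G // XP χ κ c C Φ t F tt g} = nP at *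
  generalize Nat.card {g : G // XM χ κ c C Φ t F tt g} = nN at *
  generalize Nat.card {a : (ZMod f)ˣ // M1 a ∧ (κ a).toAdd = c} = cP at *
  generalize Nat.card {a : (ZMod f)ˣ // M1 a ∧ (κ a).toAdd = -c} = cN at *
  generalize 3 ^ (s + 1) * Nat.card (Fin s → Fin s → ZMod 3) = A at *
  generalize 3 ^ (m + 1) = T at *
  generalize Nat.card χ.ker = K at *
  rw [← hcard]
  constructor
  · calc A * nP * (2 * T) ≤ cP * (2 * NK s t * K) * (2 * T) := Nat.mul_le_mul_right _ hP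
      _ = 2 * NK s t * (K * (cP * (2 * T))) := by ring
      _ = 2 * NK s t * (K * f.totient) := by rw [h1]
  · calc A * nN * (2 * T) ≤ cN * (2 * NK s t * K) * (2 * T) := Nat.mul_le_mul_right _ hN
      _ = 2 * NK s t * (K * (cN * (2 * T))) := by ring
      _ = 2 * NK s t * (K * f.totient) := by rw [h2]

/-- counting the elements of `T` -/
theorem card_T [Finite G] (hf : 0 < f) (hχ : Function.Surjective χ) (B : G → Prop) :
    (Nat.card {a : (ZMod f)ˣ // M1 a ∧ ((κ a).toAdd = c ∨ (κ a).toAdd = -c)} : ℝ) *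
        (1 / (f.totient : ℝ)) -
      (Nat.card {g : G // InU χ κ c g ∧ ¬ B g} : ℝ) / Nat.card G ≤
      (Nat.card {g : G // B g} : ℝ) / Nat.card G := by
  have : NeZero f := ⟨hf.ne'⟩
  obtain ⟨hfib, hcard⟩ := fibre χ hχ
  have hH : Nat.card (ZMod f)ˣ = f.totient := by
    rw [Nat.card_eq_fintype_card, ZMod.card_units_eq_totient]
  rw [hH] at hcard
  have hU : Nat.card {g : G // InU χ κ c g} =
      Nat.card {a : (ZMod f)ˣ // M1 a ∧ ((κ a).toAdd = c ∨ (κ a).toAdd = -c)} *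
        Nat.card χ.ker :=
    count_eq χ (fun a => M1 a ∧ ((κ a).toAdd = c ∨ (κ a).toAdd = -c)) _ fun a _ => hfib a
  have hUT : Nat.card {g : G // InU χ κ c g} ≤
      Nat.card {g : G // InU χ κ c g ∧ ¬ B g} + Nat.card {g : G // B g} := by
    have h1 : {g : G | InU χ κ c g} ⊆
        {g : G | InU χ κ c g ∧ ¬ B g} ∪ {g : G | B g} := by
      intro g hg
      by_cases hb : B g
      · exact Or.inr hb
      · exact Or.inl ⟨hg, hb⟩
    exact (Set.ncard_le_ncard h1 (Set.toFinite _)).trans (Set.ncard_union_le _ _)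
  have hK : 0 < Nat.card χ.ker := Nat.card_pos
  have hφ : 0 < f.totient := Nat.totient_pos.2 hf
  rw [hU] at hUT
  generalize Nat.card {a : (ZMod f)ˣ // M1 a ∧ ((κ a).toAdd = c ∨ (κ a).toAdd = -c)} = nV at *
  generalize Nat.card {g : G // InU χ κ c g ∧ ¬ B g} = nT at *
  generalize Nat.card {g : G // B g} = nB at *
  generalize Nat.card χ.ker = K at *
  rw [← hcard]
  have hK' : (0 : ℝ) < K := Nat.cast_pos.2 hK
  have hφ' : (0 : ℝ) < f.totient := Nat.cast_pos.2 hφ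
  have h1 : (nV : ℝ) * K ≤ nT + nB := by exact_mod_cast hUT
  have h3 : (nV : ℝ) * (1 / (f.totient : ℝ)) - (nT : ℝ) / ((K * f.totient : ℕ) : ℝ) =
      (nV * K - nT) / (K * f.totient) := by
    push_cast
    field_simp
  rw [h3]
  push_cast
  exact div_le_div_of_nonneg_right (by linarith) (by positivity)

end

/-- the density of a set of primes -/
theorem dens (hDIR : DIR) {f m : ℕ} (hf : 0 < f) (h3 : 3 ∣ f)
    (κ : (ZMod f)ˣ →* Multiplicative (Fin (m + 1) → ZMod 3)) (c : Fin (m + 1) → ZMod 3)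
    (L : Type) [Field L] [NumberField L] [IsGalois ℚ L] (χ : (L ≃ₐ[ℚ] L) →* (ZMod f)ˣ)
    (N₀ : ℕ) (hχ : Function.Surjective χ) (R : ℕ → (L ≃ₐ[ℚ] L) → Prop)
    (hfrob : ∀ (Q : ℕ) (hQ : Q.Coprime f), Q.Prime → N₀ < Q → ∀ (P : Ideal (𝓞 L))
      (g : L ≃ₐ[ℚ] L), P.IsPrime → (Q : 𝓞 L) ∈ P →
      MulAction.stabilizer (L ≃ₐ[ℚ] L) P = Subgroup.zpowers g →
      ∃ k : ℕ, k.Coprime (orderOf g) ∧ χ (g ^ k) = ZMod.unitOfCoprime Q hQ ∧ R Q (g ^ k))
    (B : (L ≃ₐ[ℚ] L) → Prop)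
    (hst : ∀ g h τ : L ≃ₐ[ℚ] L, InU χ κ c g ∧ ¬ B g →
      Subgroup.zpowers h = Subgroup.zpowers (τ * g * τ⁻¹) → InU χ κ c h ∧ ¬ B h)
    (S : Set ℕ)
    (hS1 : ∀ n : ℕ, n.Prime → ∀ hQ : n.Coprime f, n ∈ S → n % 3 = 1 ∧
      ((κ (ZMod.unitOfCoprime n hQ)).toAdd = c ∨ (κ (ZMod.unitOfCoprime n hQ)).toAdd = -c))
    (hS2 : ∀ n : ℕ, n.Prime → ∀ hQ : n.Coprime f, n ∈ S → ∀ g : L ≃ₐ[ℚ] L,
      χ g = ZMod.unitOfCoprime n hQ → R n g → B g) :
    ∃ K : ℝ, ∀ σ : ℝ, 1 < σ → σ ≤ 2 → sm S σ ≤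
      (Nat.card {g : L ≃ₐ[ℚ] L // B g} : ℝ) / Nat.card (L ≃ₐ[ℚ] L) *
        Real.log (1 / (σ - 1)) + K := by
  classical
  have : NeZero f := ⟨hf.ne'⟩
  have hst' : ∀ g h τ : L ≃ₐ[ℚ] L, g ∈ {g | InU χ κ c g ∧ ¬ B g} →
      Subgroup.zpowers h = Subgroup.zpowers (τ * g * τ⁻¹) →
      h ∈ {g | InU χ κ c g ∧ ¬ B g} := fun g h τ hg hz => hst g h τ hg hz
  obtain ⟨C1, hC1⟩ := RI.FROBD_thm L _ hst'
  choose DC hDC using fun a : (ZMod f)ˣ => hDIR f a hf
  have hT := card_T χ κ c hf hχ B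
  obtain ⟨ST, hST⟩ : ∃ ST : Set ℕ, ST = {Q : ℕ | ∃ g ∈ {g | InU χ κ c g ∧
      ¬ B g}, ∃ P : Ideal (𝓞 L), P.IsPrime ∧ (Q : 𝓞 L) ∈ P ∧
      MulAction.stabilizer (L ≃ₐ[ℚ] L) P = Subgroup.zpowers g} := ⟨_, rfl⟩
  obtain ⟨V, hV⟩ : ∃ V : Finset (ZMod f)ˣ, V = Finset.univ.filter fun a =>
      M1 a ∧ ((κ a).toAdd = c ∨ (κ a).toAdd = -c) := ⟨_, rfl⟩
  have hVc : V.card =
      Nat.card {a : (ZMod f)ˣ // M1 a ∧ ((κ a).toAdd = c ∨ (κ a).toAdd = -c)} := by
    rw [Nat.card_eq_fintype_card, Fintype.card_subtype, hV]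
  have hM : ∀ (Q : ℕ) (hQ : Q.Coprime f), M1 (ZMod.unitOfCoprime Q hQ) ↔ Q % 3 = 1 := by
    intro Q hQ
    unfold M1
    rw [ZMod.coe_unitOfCoprime, ZMod.val_natCast, Nat.mod_mod_of_dvd _ h3]
  have hcop : ∀ n : ℕ, n.Prime → n ∉ Finset.range (max N₀ f + 1) → n.Coprime f ∧ N₀ < n := by
    intro n hn hA
    rw [Finset.mem_range, not_lt] at hA
    refine ⟨(Nat.Prime.coprime_iff_not_dvd hn).2 fun h => ?_, ?_⟩
    · have h1 := Nat.le_of_dvd hf h
      have h2 := le_max_right N₀ f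
      omega
    · have h2 := le_max_left N₀ f
      omega
  have hSTe : ∀ n : ℕ, n.Prime → n ∉ Finset.range (max N₀ f + 1) → n ∈ ST →
      ∃ (hQ : n.Coprime f) (g : L ≃ₐ[ℚ] L), (InU χ κ c g ∧ ¬ B g) ∧
        χ g = ZMod.unitOfCoprime n hQ ∧ R n g := by
    intro n hn hA hnST
    rw [hST] at hnST
    obtain ⟨g, hg, P, hP, hnP, hstab⟩ := hnST
    obtain ⟨hQ, hN⟩ := hcop n hn hA
    obtain ⟨k, hk, hχk, htk⟩ := hfrob n hQ hn hN P g hP hnP hstab
    refine ⟨hQ, g ^ k, ?_, hχk, htk⟩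
    refine hst g (g ^ k) 1 hg ?_
    rw [one_mul, inv_one, mul_one]
    exact zpowers_pow_eq hk
  refine ⟨2 * (Finset.range (max N₀ f + 1)).card + ∑ a ∈ V, DC a + C1, fun σ h1 h2 => ?_⟩
  have key := sm_add_le S ST {Q : ℕ | ∃ a ∈ V, (Q : ZMod f) = a}
    (Finset.range (max N₀ f + 1)) ?_ ?_ h1
  · have cov := sm_cover {Q : ℕ | ∃ a ∈ V, (Q : ZMod f) = a} V (fun n _ hn => hn) h1
    have hfr := hC1 σ h1 h2
    have hfr' : ((Nat.card {g : L ≃ₐ[ℚ] L // InU χ κ c g ∧ ¬ B g} : ℝ) /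
        Nat.card (L ≃ₐ[ℚ] L)) * Real.log (1 / (σ - 1)) - C1 ≤ sm ST σ := by
      rw [hST]
      exact hfr
    have hsum : ∑ a ∈ V, ∑' q : {q : ℕ // q.Prime ∧ (q : ZMod f) = a}, (q : ℝ) ^ (-σ) ≤
        ∑ a ∈ V, ((1 / (f.totient : ℝ)) * Real.log (1 / (σ - 1)) + DC a) :=
      Finset.sum_le_sum fun a _ => hDC a σ h1 h2
    rw [Finset.sum_add_distrib, Finset.sum_const, nsmul_eq_mul, hVc] at hsum
    have hlog : 0 ≤ Real.log (1 / (σ - 1)) := by
      apply Real.log_nonneg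
      rw [le_div_iff₀ (by linarith)]
      linarith
    have hmul := mul_le_mul_of_nonneg_right hT hlog
    rw [sub_mul, mul_assoc] at hmul
    linarith
  · intro n hn hA hnB
    obtain ⟨hQ, _⟩ := hcop n hn hA
    obtain ⟨hn3, hnc⟩ := hS1 n hn hQ hnB
    constructor
    · refine ⟨ZMod.unitOfCoprime n hQ, ?_, ZMod.coe_unitOfCoprime n hQ⟩
      rw [hV]
      exact Finset.mem_filter.2 ⟨Finset.mem_univ _, (hM n hQ).2 hn3, hnc⟩
    · intro hnST
      obtain ⟨hQ', g, ⟨hgU, hgB⟩, hχg, htg⟩ := hSTe n hn hA hnST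
      exact hgB (hS2 n hn hQ' hnB g hχg htg)
  · intro n hn hA hnST
    obtain ⟨hQ', g, ⟨hgU, hgB⟩, hχg, htg⟩ := hSTe n hn hA hnST
    refine ⟨ZMod.unitOfCoprime n hQ', ?_, ZMod.coe_unitOfCoprime n hQ'⟩
    rw [hV]
    have h5 := hgU
    unfold InU at h5
    rw [hχg] at h5
    exact Finset.mem_filter.2 ⟨Finset.mem_univ _, h5⟩

end BDU

open BDENS _root_.Pool.Agent.PTN.BDU in
/-- BDU: the exact bound for the density, both exponents together, `Q = 1 (mod 3)`. -/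
theorem BDU_thm (hGALDU : Stmt_GALDU) (hEQX : Stmt_EQX) (hDIR : DIR) : Stmt_BDU := by
  classical
  intro s b p q p' q' f m t κ c C Φ hSys hf h9 hκ
  obtain ⟨L, iF, iN, iG, χ, F, tt, N₀, hχ, hconj, hpow, heq, hcF, hfrob⟩ :=
    hGALDU s b p q p' q' f hSys hf h9
  have h3 : 3 ∣ f := Dvd.dvd.trans (by norm_num) h9
  have hM : ∀ (Q : ℕ) (hQ : Q.Coprime f), M1 (ZMod.unitOfCoprime Q hQ) ↔ Q % 3 = 1 := by
    intro Q hQ
    unfold M1
    rw [ZMod.coe_unitOfCoprime, ZMod.val_natCast, Nat.mod_mod_of_dvd _ h3]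
  let R : ℕ → (L ≃ₐ[ℚ] L) → Prop := fun Q g =>
    Q % 3 = 1 → ∀ ρ : PP, (Q : Eis) = ρ.1 * conj ρ.1 →
      (F g ↔ (∀ j : Fin s, sym ρ.1 (b j.castSucc : Eis) = 0) ∧
        sym ρ.1 (b (Fin.last s) : Eis) ≠ 0) ∧
      (F g → ∀ j i : Fin s, j ≠ i → ∀ r : ℤ, (Q : ℤ) ∣ r ^ 3 - b j.castSucc →
        tt g j i = TAUVS ρ.1 (rs p j i) (rs q j i) (rs p' j i) (rs q' j i) r)
  have hP : ∀ n : ℕ, n.Prime → ∀ hQ : n.Coprime f, n ∈ SPU b p q p' q' t κ c C Φ →
      ∀ g : L ≃ₐ[ℚ] L, χ g = ZMod.unitOfCoprime n hQ → R n g → XP χ κ c C Φ t F tt g := by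
    intro n hn hQ hnS g hg hR
    obtain ⟨hQ', ρ, ⟨h1, h2, h5, h6, h7⟩, h4⟩ := hnS
    obtain ⟨r1, r2⟩ := hR h1 ρ h5
    have hFg : F g := r1.2 ⟨h6, h7⟩
    refine ⟨?_, ?_, hFg, ?_⟩
    · rw [hg]
      exact (hM n hQ).2 h1
    · rw [hg]
      exact h2
    · rw [hg]
      exact h4 (tt g) (r2 hFg)
  have hN : ∀ n : ℕ, n.Prime → ∀ hQ : n.Coprime f, n ∈ SMU b p q p' q' t κ c C Φ →
      ∀ g : L ≃ₐ[ℚ] L, χ g = ZMod.unitOfCoprime n hQ → R n g → XM χ κ c C Φ t F tt g := by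
    intro n hn hQ hnS g hg hR
    obtain ⟨hQ', ρ, ⟨h1, h2, h5, h6, h7⟩, h4⟩ := hnS
    obtain ⟨r1, r2⟩ := hR h1 ρ h5
    have hFg : F g := r1.2 ⟨h6, h7⟩
    refine ⟨?_, ?_, hFg, ?_⟩
    · rw [hg]
      exact (hM n hQ).2 h1
    · rw [hg]
      exact h2
    · rw [hg]
      exact h4 (tt g) (r2 hFg)
  obtain ⟨K1, hK1⟩ := dens hDIR hf h3 κ c L χ N₀ hχ R hfrob
    (fun g => XP χ κ c C Φ t F tt g ∨ XM χ κ c C Φ t F tt g)
    (fun g h τ hg hz => stable χ κ c F tt hf h3 (inv_or χ κ c C Φ t F tt hf h3) hconj hpow hg hz)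
    (SPU b p q p' q' t κ c C Φ ∪ SMU b p q p' q' t κ c C Φ)
    (by
      rintro n hn hQ (⟨hQ', ρ, ⟨h1, h2, -⟩, -⟩ | ⟨hQ', ρ, ⟨h1, h2, -⟩, -⟩)
      · exact ⟨h1, Or.inl h2⟩
      · exact ⟨h1, Or.inr h2⟩)
    (by
      rintro n hn hQ (h | h) g hg htg
      · exact Or.inl (hP n hn hQ h g hg htg)
      · exact Or.inr (hN n hn hQ h g hg htg))
  obtain ⟨K2, hK2⟩ := dens hDIR hf h3 κ c L χ N₀ hχ R hfrob
    (fun g => XP χ κ c C Φ t F tt g ∧ XM χ κ c C Φ t F tt g)
    (fun g h τ hg hz => stable χ κ c F tt hf h3 (inv_and χ κ c C Φ t F tt hf h3) hconj hpow hg hz)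
    (SPU b p q p' q' t κ c C Φ ∩ SMU b p q p' q' t κ c C Φ)
    (by
      rintro n hn hQ ⟨⟨hQ', ρ, ⟨h1, h2, -⟩, -⟩, -⟩
      exact ⟨h1, Or.inl h2⟩)
    (by
      rintro n hn hQ ⟨h, h'⟩ g hg htg
      exact ⟨hP n hn hQ h g hg htg, hN n hn hQ h' g hg htg⟩)
  obtain ⟨hX1, hX2⟩ := card_X χ κ c C Φ t F tt hEQX hf hχ heq hcF hκ
  have hincl := BD.card_incl (fun g => XP χ κ c C Φ t F tt g) (fun g => XM χ κ c C Φ t F tt g)
  refine ⟨K1 + K2, fun σ h1 h2 => ?_⟩
  have e1 := hK1 σ h1 h2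
  have e2 := hK2 σ h1 h2
  have hlog : 0 ≤ Real.log (1 / (σ - 1)) := by
    apply Real.log_nonneg
    rw [le_div_iff₀ (by linarith)]
    linarith
  rw [BD.sm_union_inter _ _ h1]
  have hG : 0 < Nat.card (L ≃ₐ[ℚ] L) := Nat.card_pos
  have hA : 0 < Nat.card (Fin s → Fin s → ZMod 3) := Nat.card_pos
  have hcnt : (Nat.card {g : L ≃ₐ[ℚ] L // XP χ κ c C Φ t F tt g ∨ XM χ κ c C Φ t F tt g} : ℝ) /
      Nat.card (L ≃ₐ[ℚ] L) +
      (Nat.card {g : L ≃ₐ[ℚ] L // XP χ κ c C Φ t F tt g ∧ XM χ κ c C Φ t F tt g} : ℝ) /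
      Nat.card (L ≃ₐ[ℚ] L) ≤
      2 / 3 ^ (s + 1) * ((NK s t : ℝ) / Nat.card (Fin s → Fin s → ZMod 3)) / 3 ^ (m + 1) := by
    generalize Nat.card {g : L ≃ₐ[ℚ] L // XP χ κ c C Φ t F tt g ∨ XM χ κ c C Φ t F tt g} = n1
      at *
    generalize Nat.card {g : L ≃ₐ[ℚ] L // XP χ κ c C Φ t F tt g ∧ XM χ κ c C Φ t F tt g} = n2
      at *
    generalize Nat.card {g : L ≃ₐ[ℚ] L // XP χ κ c C Φ t F tt g} = x1 at *
    generalize Nat.card {g : L ≃ₐ[ℚ] L // XM χ κ c C Φ t F tt g} = x2 at *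
    generalize Nat.card (Fin s → Fin s → ZMod 3) = A at *
    generalize Nat.card (L ≃ₐ[ℚ] L) = g0 at *
    have hG' : (0 : ℝ) < g0 := Nat.cast_pos.2 hG
    have hA' : (0 : ℝ) < A := Nat.cast_pos.2 hA
    have hT : (0 : ℝ) < 3 ^ (m + 1) := by positivity
    have hT' : (0 : ℝ) < 3 ^ (s + 1) := by positivity
    have i1 : (3 : ℝ) ^ (s + 1) * A * x1 * (2 * 3 ^ (m + 1)) ≤ 2 * NK s t * g0 := by
      exact_mod_cast hX1
    have i2 : (3 : ℝ) ^ (s + 1) * A * x2 * (2 * 3 ^ (m + 1)) ≤ 2 * NK s t * g0 := by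
      exact_mod_cast hX2
    have i3 : (n1 : ℝ) + n2 = x1 + x2 := by exact_mod_cast hincl
    have i4 : (2 : ℝ) / 3 ^ (s + 1) * ((NK s t : ℝ) / A) / 3 ^ (m + 1) =
        2 * NK s t / (3 ^ (s + 1) * A * 3 ^ (m + 1)) := by
      field_simp
    rw [← add_div, i3, i4, div_le_div_iff₀ hG' (by positivity)]
    nlinarith
  have hmul := mul_le_mul_of_nonneg_right hcnt hlog
  rw [add_mul] at hmul
  linarith

end Pool.Agent.PTN


end

section

/-!
# CAB: averages in a class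
-/

set_option autoImplicit false

open NumberField IsDedekindDomain Finset
open scoped nonZeroDivisors Pointwise

namespace Pool.Agent.PTN

open Pool.Agent.Lib_helper18 Pool.Agent.Lib_helper18.Eis Pool.Agent.Lib_helper84.Cub
open Pool.Agent.PT Pool.Agent.PTE Pool.Agent.PT3 Pool.Agent.PTL

namespace CAB

theorem F_nonneg {F : ℕ → ℝ} (hF : Monotone F) (h0 : 0 ≤ F 0) (n : ℕ) : 0 ≤ F n :=
  h0.trans (hF (Nat.zero_le n))

/-- the two descriptions of the class -/
theorem kl_iff (hSPP : SPP) {n m k : ℕ} {π : Fin m → PP} {p e : Fin m → ℕ} {r f : Fin k → ℕ}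
    (hN : NF n π p e r f) (w0 : ZMod 3) (c : Fin m → ZMod 3) {q : ℕ} (hq : q.Prime)
    (hqp : ∀ i, q ≠ p i) (E : ℕ) : Kl π w0 c ((q : ℤ) ^ E) ↔ InCT E π w0 c q := by
  unfold Kl InCT
  refine and_congr_right fun _ => forall_congr' fun i => ?_
  have : Fact (p i).Prime := ⟨hN.pp i⟩
  have hn := CLSC.norm_of _ _ (hN.pπ i)
  have hd : ¬ (π i).1 ∣ (q : Eis) := by
    rw [dvd_natCast_iff hn]
    intro h
    exact hqp i ((Nat.prime_dvd_prime_iff_eq (hN.pp i) hq).1 h).symm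
  have h1 := Eis.sym_pow (π i).2.1 (hSPP.2.2.2.1 (π i)).1 hd E
  push_cast
  rw [h1]

open Classical in
/-- from the class in the sense of `InCT` to the class in the sense of `Kl` -/
theorem above_of (hSPP : SPP) {h n m k : ℕ} {π : Fin m → PP} {p e : Fin m → ℕ} {r f : Fin k → ℕ}
    (hN : NF n π p e r f) (w0 : ZMod 3) (c : Fin m → ZMod 3) (a : ℕ) {F : ℕ → ℝ}
    (hF : Monotone F) (h0 : 0 ≤ F 0) {x : ℝ} (S : ℕ → Set ℕ)
    (hS : ∀ E q, q ∈ S E ↔ q % 3 = a ∧ InCT E π w0 c q)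
    (H : ∃ K : ℝ, ∀ σ : ℝ, 1 < σ → σ ≤ 2 → ∀ T : Finset ℕ,
      ∑ E ∈ ({1, 2} : Finset ℕ), ∑ q ∈ T,
        (if q.Prime ∧ q ∈ S E then
          F (CubeRank.rr (BB h n E q)) * (q : ℝ) ^ (-σ) else 0) ≤
        x * Real.log (1 / (σ - 1)) + K) :
    AboveA ((3 ^ h * n : ℕ) : ℤ) a (Kl π w0 c) (fun A => F (CubeRank.rr A)) x := by
  obtain ⟨K, hK⟩ := H
  refine ⟨K + ∑ E ∈ ({1, 2} : Finset ℕ), ∑ q ∈ univ.image p,
    F (CubeRank.rr (BB h n E q)), fun σ h1 h2 T => ?_⟩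
  have e1 := hK σ h1 h2 T
  have e2 : SumA ((3 ^ h * n : ℕ) : ℤ) a (Kl π w0 c) (fun A => F (CubeRank.rr A)) σ T ≤
      ∑ E ∈ ({1, 2} : Finset ℕ), ∑ q ∈ T,
        (if q.Prime ∧ q ∈ S E then
          F (CubeRank.rr (BB h n E q)) * (q : ℝ) ^ (-σ) else 0) +
      ∑ E ∈ ({1, 2} : Finset ℕ), ∑ q ∈ univ.image p, F (CubeRank.rr (BB h n E q)) := by
    unfold SumA
    rw [← Finset.sum_add_distrib]
    refine Finset.sum_le_sum fun E _ => ?_
    have hFn := F_nonneg hF h0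
    have hB : ∀ q : ℕ, ((3 ^ h * n : ℕ) : ℤ) * (q : ℤ) ^ E = BB h n E q := by
      intro q
      unfold BB
      push_cast
      ring
    have e3 : ∑ q ∈ T, (if q ∈ univ.image p then F (CubeRank.rr (BB h n E q)) else 0) ≤
        ∑ q ∈ univ.image p, F (CubeRank.rr (BB h n E q)) := by
      rw [← Finset.sum_filter]
      refine Finset.sum_le_sum_of_subset_of_nonneg ?_ fun q _ _ => hFn _
      intro q hq
      exact (Finset.mem_filter.1 hq).2
    refine le_trans ?_ (add_le_add_right e3 _)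
    rw [← Finset.sum_add_distrib]
    refine Finset.sum_le_sum fun q _ => ?_
    have hpos : 0 ≤ F (CubeRank.rr (BB h n E q)) * (q : ℝ) ^ (-σ) :=
      mul_nonneg (hFn _) (Real.rpow_nonneg (Nat.cast_nonneg q) _)
    rw [hB]
    by_cases hqp : q ∈ univ.image p
    · rw [if_pos hqp]
      have hle : (if q.Prime ∧ q % 3 = a ∧ Kl π w0 c ((q : ℤ) ^ E) then
          F (CubeRank.rr (BB h n E q)) * (q : ℝ) ^ (-σ) else 0) ≤
          F (CubeRank.rr (BB h n E q)) := by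
        split_ifs with hc
        · refine mul_le_of_le_one_right (hFn _) ?_
          exact Real.rpow_le_one_of_one_le_of_nonpos (by exact_mod_cast hc.1.one_lt.le)
            (by linarith)
        · exact hFn _
      have hge : 0 ≤ (if q.Prime ∧ q ∈ S E then
          F (CubeRank.rr (BB h n E q)) * (q : ℝ) ^ (-σ) else 0) := by
        split_ifs
        · exact hpos
        · exact le_refl 0
      linarith
    · rw [if_neg hqp, add_zero]
      by_cases hq : q.Prime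
      · have hqi : ∀ i, q ≠ p i := fun i hi => hqp (Finset.mem_image.2 ⟨i, mem_univ _, hi.symm⟩)
        have hiff := kl_iff hSPP hN w0 c hq hqi E
        refine le_of_eq ?_
        refine if_congr ?_ rfl rfl
        rw [hS, hiff]
      · rw [if_neg fun hc => hq hc.1, if_neg fun hc => hq hc.1]
  linarith

end CAB

open _root_.Pool.Agent.PTN.CAB in
theorem CAB_thm (hSPP : SPP) (hCLN : Stmt_CLN) (hCLU : Stmt_CLU) (hDOMG : Stmt_DOMG)
    (hLAW : Stmt_LAW) : Stmt_CAB := by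
  classical
  intro h n m k π p e r f w0 c hN hh F hF h0
  obtain ⟨hL1, hL2, -⟩ := hLAW
  obtain ⟨⟨M, hM⟩, hT⟩ := hCLN h n m k π p e r f w0 c hN hh
  obtain ⟨⟨M', hM'⟩, hT'⟩ := hCLU h n m k π p e r f w0 c hN hh
  set s := sN h n π p e r w0 c with hs
  set v := vN h n π p e r w0 c with hv
  constructor
  · refine above_of hSPP hN w0 c 2 hF h0
      (fun E => {q : ℕ | q % 3 = 2 ∧ InCT E π w0 c q}) (fun E q => Iff.rfl) ?_
    obtain ⟨K, hK⟩ := hDOMG (fun E => {q : ℕ | q % 3 = 2 ∧ InCT E π w0 c q})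
      (fun E q => CubeRank.rr (BB h n E q)) (fun t => LI s (t - v) / 3 ^ (m + 1)) M (v + s) F
      (fun E q hE hq hMq hqS => CubeRank.rr_le (hM E q hE hq hMq hqS.1 hqS.2))
      (fun t => by
        obtain ⟨K, hK⟩ := hT t
        refine ⟨K, fun σ h1 h2 => ?_⟩
        have e1 := hK σ h1 h2
        have e2 : ∀ E : ℕ, {q : ℕ | q ∈ {q : ℕ | q % 3 = 2 ∧ InCT E π w0 c q} ∧
            t ≤ CubeRank.rr (BB h n E q)} = WR h n π w0 c 2 E t := by
          intro E
          ext q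
          exact and_assoc
        rw [e2, e2]
        exact e1) hF h0
    refine ⟨K, fun σ h1 h2 T => (hK σ h1 h2 T).trans_eq ?_⟩
    rw [← hL1 s v F, add_div, Finset.sum_div]
    simp only [mul_div_assoc]
  · refine above_of hSPP hN w0 c 1 hF h0
      (fun E => {q : ℕ | q % 3 = 1 ∧ InCT E π w0 c q}) (fun E q => Iff.rfl) ?_
    obtain ⟨K, hK⟩ := hDOMG (fun E => {q : ℕ | q % 3 = 1 ∧ InCT E π w0 c q})
      (fun E q => CubeRank.rr (BB h n E q)) (fun t => LS s v t / 3 ^ (m + 1)) M' (v + s + 1) F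
      (fun E q hE hq hMq hqS =>
        (CubeRank.rr_le (hM' E q hE hq hMq hqS.1 hqS.2)).trans (by omega))
      (fun t => by
        obtain ⟨K, hK⟩ := hT' t
        refine ⟨K, fun σ h1 h2 => ?_⟩
        have e1 := hK σ h1 h2
        have e2 : ∀ E : ℕ, {q : ℕ | q ∈ {q : ℕ | q % 3 = 1 ∧ InCT E π w0 c q} ∧
            t ≤ CubeRank.rr (BB h n E q)} = WR h n π w0 c 1 E t := by
          intro E
          ext q
          exact and_assoc
        rw [e2, e2]
        exact e1) hF h0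
    refine ⟨K, fun σ h1 h2 T => (hK σ h1 h2 T).trans_eq ?_⟩
    rw [← hL2 s v F, add_div, Finset.sum_div]
    simp only [mul_div_assoc]

end Pool.Agent.PTN


end

section

/-!
# PTN_SUMA: sums over the classes
-/

set_option autoImplicit false

open NumberField IsDedekindDomain Finset
open scoped nonZeroDivisors Pointwise

namespace Pool.Agent.PTN

open Pool.Agent.Lib_helper18 Pool.Agent.Lib_helper18.Eis Pool.Agent.Lib_helper84.Cub
open Pool.Agent.PT Pool.Agent.PTE Pool.Agent.PT3 Pool.Agent.PTL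

namespace SUMA

theorem log_nn {σ : ℝ} (h1 : 1 < σ) (h2 : σ ≤ 2) : 0 ≤ Real.log (1 / (σ - 1)) := by
  apply Real.log_nonneg
  rw [le_div_iff₀ (by linarith)]
  linarith

theorem kl_iff {m : ℕ} (π : Fin m → PP) (y : ℤ) (x : ZMod 3 × (Fin m → ZMod 3)) :
    Kl π x.1 x.2 y ↔ (wt (y ^ 2), fun i => sym (π i).1 (y : Eis)) = x := by
  unfold Kl
  rw [Prod.ext_iff, funext_iff]

theorem sum_all {m : ℕ} (π : Fin m → PP) (n : ℤ) (a : ℕ) (F : ℤ → ℝ) (σ : ℝ) (T : Finset ℕ) :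
    SumA n a (fun _ => True) F σ T =
      ∑ x : ZMod 3 × (Fin m → ZMod 3), SumA n a (Kl π x.1 x.2) F σ T := by
  classical
  symm
  unfold SumA
  rw [Finset.sum_comm]
  refine Finset.sum_congr rfl fun e _ => ?_
  rw [Finset.sum_comm]
  refine Finset.sum_congr rfl fun q _ => ?_
  by_cases hq : q.Prime ∧ q % 3 = a
  · rw [if_pos ⟨hq.1, hq.2, trivial⟩]
    rw [Finset.sum_eq_single
      ((wt (((q : ℤ) ^ e) ^ 2), fun i => sym (π i).1 (((q : ℤ) ^ e : ℤ) : Eis)) :
        ZMod 3 × (Fin m → ZMod 3))]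
    · rw [if_pos ⟨hq.1, hq.2, (kl_iff π _ _).2 rfl⟩]
    · intro x _ hx
      rw [if_neg fun h => hx ((kl_iff π _ _).1 h.2.2).symm]
    · intro h
      exact absurd (Finset.mem_univ _) h
  · rw [if_neg fun h => hq ⟨h.1, h.2.1⟩]
    refine Finset.sum_eq_zero fun x _ => ?_
    rw [if_neg fun h => hq ⟨h.1, h.2.1⟩]

theorem sum_mono {n : ℤ} {a : ℕ} {W : ℤ → Prop} {F : ℤ → ℝ} (hF : ∀ A, 0 ≤ F A) {σ : ℝ}
    {T T' : Finset ℕ} (h : T ⊆ T') : SumA n a W F σ T ≤ SumA n a W F σ T' := by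
  classical
  unfold SumA
  refine Finset.sum_le_sum fun e _ => Finset.sum_le_sum_of_subset_of_nonneg h fun q _ _ => ?_
  split_ifs
  · exact mul_nonneg (hF _) (Real.rpow_nonneg (Nat.cast_nonneg q) _)
  · exact le_rfl

end SUMA

theorem SUMA_thm : Stmt_SUMA := by
  classical
  intro n a m π F
  refine ⟨?_, ?_, ?_, ?_⟩
  · intro x h
    choose K hK using h
    refine ⟨∑ y, K y, fun σ h1 h2 T => ?_⟩
    rw [SUMA.sum_all π, Finset.sum_mul, ← Finset.sum_add_distrib]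
    exact Finset.sum_le_sum fun y _ => hK y σ h1 h2 T
  · intro x hF h
    choose K hK using h
    refine ⟨∑ y, K y, fun σ h1 h2 => ?_⟩
    choose T hT using fun y => hK y σ h1 h2
    refine ⟨Finset.univ.biUnion T, ?_⟩
    rw [SUMA.sum_all π, Finset.sum_mul, ← Finset.sum_sub_distrib]
    refine Finset.sum_le_sum fun y _ => (hT y).trans ?_
    exact SUMA.sum_mono hF (Finset.subset_biUnion_of_mem T (Finset.mem_univ y))
  · rintro W x y hxy ⟨K, hK⟩
    refine ⟨K, fun σ h1 h2 T => (hK σ h1 h2 T).trans ?_⟩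
    have := mul_le_mul_of_nonneg_right hxy (SUMA.log_nn h1 h2)
    linarith
  · rintro W x y hxy ⟨K, hK⟩
    refine ⟨K, fun σ h1 h2 => ?_⟩
    obtain ⟨T, hT⟩ := hK σ h1 h2
    refine ⟨T, le_trans ?_ hT⟩
    have := mul_le_mul_of_nonneg_right hxy (SUMA.log_nn h1 h2)
    linarith

end Pool.Agent.PTN


end

section

/-!
# NZE1: the number of the classes with `v = 0`, `h = 1`
-/

set_option autoImplicit false

open NumberField IsDedekindDomain Finset
open scoped nonZeroDivisors Pointwise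

namespace Pool.Agent.PTN

open Pool.Agent.Lib_helper18 Pool.Agent.Lib_helper18.Eis Pool.Agent.Lib_helper84.Cub
open Pool.Agent.PT Pool.Agent.PTE Pool.Agent.PT3

namespace NZE1

variable (n : ℕ) {m k : ℕ} (π : Fin m → PP) (p e : Fin m → ℕ) (r : Fin k → ℕ)
    (w0 : ZMod 3) (c : Fin m → ZMod 3)

theorem eq_zero (hdet : (Mt 1 n π p e w0 c).det ≠ 0)
    (y : Fin (m + 1) → ZMod 3) (hy : y ∈ VS 1 n π p e r w0 c) : y = 0 := by
  have : Fact (Nat.Prime 3) := ⟨Nat.prime_three⟩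
  obtain ⟨h1, h2⟩ := hy
  have hh : ¬ (1 : ℕ) = 2 := by norm_num
  have hact : ¬ actR 1 n w0 := by
    rintro (h0 | ⟨h0, -⟩)
    · exact hh h0
    · exact absurd h0 (by norm_num)
  have hy0 := h1 hact
  have h6 : (Fin.cons (- ∑ i : Fin m, y i.succ * Mt 1 n π p e w0 c i.succ 0)
      (fun i => y i.succ) : Fin (m + 1) → ZMod 3) = 0 := by
    refine Matrix.eq_zero_of_vecMul_eq_zero hdet ?_
    funext b
    rw [NZER.vecMul_apply', Pi.zero_apply]
    simp only [Fin.cons_zero, Fin.cons_succ]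
    refine Fin.cases ?_ (fun i' => ?_) b
    · have h7 : Mt 1 n π p e w0 c 0 0 = 1 := by
        simp only [Mt, Fin.cases_zero, if_neg hh]
      rw [h7, mul_one, neg_add_cancel]
    · have h7 : Mt 1 n π p e w0 c 0 i'.succ = 0 := by
        simp only [Mt, Fin.cases_zero, Fin.cases_succ, if_neg hh]
      have h3 := h2 (Sum.inl i'.succ) (fun _ h0 => Fin.succ_ne_zero _ (Sum.inl.inj h0))
      rw [NZER.vecMul_apply', hy0, zero_mul, zero_add] at h3
      rw [h7, mul_zero, zero_add, ← h3]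
      exact Finset.sum_congr rfl fun i _ => rfl
  funext a
  refine Fin.cases ?_ (fun i => ?_) a
  · exact hy0
  · have h8 := congrFun h6 i.succ
    rw [Fin.cons_succ] at h8
    exact h8

theorem vN_zero (hdet : (Mt 1 n π p e w0 c).det ≠ 0) : vN 1 n π p e r w0 c = 0 := by
  have h1 : VS 1 n π p e r w0 c = ⊥ := by
    rw [Submodule.eq_bot_iff]
    exact eq_zero n π p e r w0 c hdet
  unfold vN
  rw [h1]
  exact finrank_bot _ _

end NZE1

open _root_.Pool.Agent.PTN.NZE1 in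
theorem NZE1_thm (hEMAX : EMAX) : Stmt_NZE1 := by
  intro n m k π p e r f _
  let C : ZMod 3 → Type := fun w => {c : Fin m → ZMod 3 // (Mt 1 n π p e w c).det ≠ 0}
  have h1 : 3 * 2 ^ m ≤ Nat.card (Σ w : ZMod 3, C w) := by
    rw [Nat.card_sigma]
    calc 3 * 2 ^ m = ∑ w : ZMod 3, 2 ^ m := by
          rw [Finset.sum_const, Finset.card_univ, smul_eq_mul, ZMod.card]
      _ ≤ ∑ w : ZMod 3, Nat.card (C w) :=
          Finset.sum_le_sum fun w _ => hEMAX 1 n m π p e w fun h => absurd h (by norm_num)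
  refine h1.trans (Nat.card_le_card_of_injective
    (fun x : Σ w : ZMod 3, C w => (⟨(x.1, x.2.1), vN_zero n π p e r _ _ x.2.2⟩ :
      {x : ZMod 3 × (Fin m → ZMod 3) // vN 1 n π p e r x.1 x.2 = 0})) ?_)
  rintro ⟨w1, ⟨c1, hc1⟩⟩ ⟨w2, ⟨c2, hc2⟩⟩ hx
  have h2 := congrArg Subtype.val hx
  obtain ⟨h3, h4⟩ := Prod.ext_iff.1 h2
  change w1 = w2 at h3
  change c1 = c2 at h4
  subst h3
  subst h4
  rfl

end Pool.Agent.PTN


end
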