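import Mathlib
import Pool.Agent.PTDM.C19
import Pool.Agent.PTDM.C21
import Pool.Agent.PTDM.C26
import Pool.Agent.PTDM.C27
import Pool.Agent.PTDM.C28
import Pool.Agent.PTDM.C31
import Pool.Agent.PTDM.C32
import Pool.Agent.PTDM.C37
import Pool.Agent.PTDM.C39
import Pool.Agent.PTDM.C40
import Pool.Agent.PTDM.C42

/-! Parts: PTN.NSUM, PTN.NBAS, PTN.NHPT, PTN.NADT, PTN.NBKU, PTN.NBK0, PTN.GALDU, PTN.DLU, PTN.DLL, PTN.NFE, PTN.NSU1 -/

section

/-!
# NSUM: the average of `3 ^ v` over the classes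
-/

set_option autoImplicit false

open Finset

namespace Pool.Agent.PTN

namespace NSUM

open Pool.Agent.Lib_helper18 Pool.Agent.Lib_helper18.Eis Pool.Agent.Lib_helper84.Cub
open Pool.Agent.PT Pool.Agent.PTE Pool.Agent.PT3

variable {h n m k : ℕ} {π : Fin m → PP} {p e : Fin m → ℕ} {r : Fin k → ℕ}

theorem diff_succ (w0 w0' : ZMod 3) (c c' : Fin m → ZMod 3) (y : Fin (m + 1) → ZMod 3)
    (i : Fin m) :
    Matrix.vecMul y (Nm h n π p e r w0 c) (Sum.inl i.succ) -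
      Matrix.vecMul y (Nm h n π p e r w0' c') (Sum.inl i.succ) = y i.succ * (c' i - c i) := by
  unfold Matrix.vecMul dotProduct
  rw [← Finset.sum_sub_distrib, Finset.sum_eq_single i.succ]
  · simp [Nm]
    ring
  · intro a _ ha
    revert ha
    refine Fin.cases ?_ (fun i1 => ?_) a
    · intro _
      simp [Nm]
    · intro h1
      have h2 : i ≠ i1 := fun h => h1 (by rw [h])
      simp [Nm, h2]
  · intro h
    exact absurd (Finset.mem_univ _) h

theorem diff_zero (w0 w0' : ZMod 3) (c c' : Fin m → ZMod 3) (y : Fin (m + 1) → ZMod 3) :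
    Matrix.vecMul y (Nm h n π p e r w0 c) (Sum.inl 0) -
      Matrix.vecMul y (Nm h n π p e r w0' c') (Sum.inl 0) = y 0 * (w0 - w0') := by
  unfold Matrix.vecMul dotProduct
  rw [← Finset.sum_sub_distrib, Finset.sum_eq_single 0]
  · simp [Nm]
    ring
  · intro a _ ha
    revert ha
    refine Fin.cases ?_ (fun i1 => ?_) a
    · intro h1
      exact absurd rfl h1
    · intro _
      simp [Nm]
  · intro h
    exact absurd (Finset.mem_univ _) h

theorem det_succ {w0 w0' : ZMod 3} {c c' : Fin m → ZMod 3} {y : Fin (m + 1) → ZMod 3}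
    (h1 : y ∈ VS h n π p e r w0 c) (h2 : y ∈ VS h n π p e r w0' c') (i : Fin m)
    (hy : y i.succ ≠ 0) : c i = c' i := by
  have h3 := diff_succ (h := h) (n := n) (π := π) (p := p) (e := e) (r := r) w0 w0' c c' y i
  have hne : (Sum.inl i.succ : Col m k) ≠ Sum.inl 0 := by
    intro h4
    exact (Fin.succ_ne_zero i) (Sum.inl_injective h4)
  rw [h1.2 _ fun _ => hne, h2.2 _ fun _ => hne, sub_zero] at h3
  have h4 := (mul_eq_zero.1 h3.symm).resolve_left hy
  exact (sub_eq_zero.1 h4).symm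

theorem det_zero {w0 w0' : ZMod 3} {c c' : Fin m → ZMod 3} {y : Fin (m + 1) → ZMod 3}
    (h1 : y ∈ VS h n π p e r w0 c) (h2 : y ∈ VS h n π p e r w0' c')
    (hy : y 0 ≠ 0) : w0 = w0' := by
  have a1 : actR h n w0 := by
    by_contra h3
    exact hy (h1.1 h3)
  have a2 : actR h n w0' := by
    by_contra h3
    exact hy (h2.1 h3)
  unfold actR at a1 a2
  rcases a1 with a1 | a1
  · have h3 := diff_zero (h := h) (n := n) (π := π) (p := p) (e := e) (r := r) w0 w0' c c' y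
    rw [h1.2 _ fun h0 => absurd h0 (by omega), h2.2 _ fun h0 => absurd h0 (by omega),
      sub_zero] at h3
    have h4 := (mul_eq_zero.1 h3.symm).resolve_left hy
    exact sub_eq_zero.1 h4
  · rcases a2 with a2 | a2
    · omega
    · exact add_left_cancel (a1.2.trans a2.2.symm)

open Classical in
theorem card_bound (h n : ℕ) (π : Fin m → PP) (p e : Fin m → ℕ) (r : Fin k → ℕ)
    (y : Fin (m + 1) → ZMod 3) :
    (Finset.univ.filter fun x : ZMod 3 × (Fin m → ZMod 3) =>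
      y ∈ VS h n π p e r x.1 x.2).card ≤ ∏ a, if y a = 0 then 3 else 1 := by
  by_cases hne : ∃ x0 : ZMod 3 × (Fin m → ZMod 3), y ∈ VS h n π p e r x0.1 x0.2
  · obtain ⟨x0, hx0⟩ := hne
    have hsub : (Finset.univ.filter fun x : ZMod 3 × (Fin m → ZMod 3) =>
        y ∈ VS h n π p e r x.1 x.2) ⊆
        (if y 0 = 0 then Finset.univ else {x0.1}) ×ˢ
          Fintype.piFinset fun i : Fin m => if y i.succ = 0 then Finset.univ else {x0.2 i} := by
      intro x hx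
      rw [Finset.mem_filter] at hx
      rw [Finset.mem_product]
      constructor
      · split_ifs with h1
        · exact Finset.mem_univ _
        · rw [Finset.mem_singleton]
          exact det_zero hx.2 hx0 h1
      · rw [Fintype.mem_piFinset]
        intro i
        split_ifs with h1
        · exact Finset.mem_univ _
        · rw [Finset.mem_singleton]
          exact det_succ hx.2 hx0 i h1
    refine (Finset.card_le_card hsub).trans (le_of_eq ?_)
    rw [Finset.card_product, Fintype.card_piFinset, Fin.prod_univ_succ]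
    congr 1
    · split_ifs
      · rw [Finset.card_univ, ZMod.card]
      · rfl
    · refine Finset.prod_congr rfl fun i _ => ?_
      split_ifs
      · rw [Finset.card_univ, ZMod.card]
      · rfl
  · rw [Finset.card_eq_zero.2]
    · exact Nat.zero_le _
    · rw [Finset.filter_eq_empty_iff]
      intro x _ hx
      exact hne ⟨x, hx⟩

open Classical in
theorem pow_vN (h n : ℕ) (π : Fin m → PP) (p e : Fin m → ℕ) (r : Fin k → ℕ)
    (x : ZMod 3 × (Fin m → ZMod 3)) :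
    3 ^ vN h n π p e r x.1 x.2 =
      (Finset.univ.filter fun y : Fin (m + 1) → ZMod 3 => y ∈ VS h n π p e r x.1 x.2).card := by
  haveI : Fact (Nat.Prime 3) := ⟨Nat.prime_three⟩
  have h1 := Module.natCard_eq_pow_finrank (K := ZMod 3) (V := VS h n π p e r x.1 x.2)
  rw [Nat.card_zmod] at h1
  unfold vN
  rw [← h1, Nat.card_eq_fintype_card, Fintype.card_subtype]

theorem sum_prod (m : ℕ) :
    ∑ y : Fin (m + 1) → ZMod 3, ∏ a, (if y a = 0 then 3 else 1) = 5 ^ (m + 1) := by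
  have h1 := Finset.prod_univ_sum (fun _ : Fin (m + 1) => (Finset.univ : Finset (ZMod 3)))
    (fun _ z => if z = 0 then 3 else 1)
  rw [Fintype.piFinset_univ] at h1
  rw [← h1]
  have h2 : ∑ z : ZMod 3, (if z = 0 then 3 else 1) = 5 := by decide
  rw [h2, Finset.prod_const, Finset.card_univ, Fintype.card_fin]

end NSUM

open _root_.Pool.Agent.PTN.NSUM

theorem NSUM_thm : Stmt_NSUM := by
  classical
  intro h n m k π p e r f _
  have h1 : ∑ x : ZMod 3 × (Fin m → ZMod 3), 3 ^ vN h n π p e r x.1 x.2 =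
      ∑ y : Fin (m + 1) → ZMod 3, (Finset.univ.filter fun x : ZMod 3 × (Fin m → ZMod 3) =>
        y ∈ VS h n π p e r x.1 x.2).card := by
    rw [Finset.sum_congr rfl fun x _ => pow_vN h n π p e r x]
    exact Finset.sum_card_bipartiteAbove_eq_sum_card_bipartiteBelow
      (fun (x : ZMod 3 × (Fin m → ZMod 3)) (y : Fin (m + 1) → ZMod 3) =>
        y ∈ VS h n π p e r x.1 x.2)
  rw [h1, ← sum_prod m]
  exact Finset.sum_le_sum fun y _ => card_bound h n π p e r y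

end Pool.Agent.PTN


end

section

/-!
# The law of the ranks of prime twists for every `n`: basis of the admissible classes (module NBAS)
-/

set_option autoImplicit false

open Finset

namespace Pool.Agent.PTN

open Pool.Agent.Lib_helper18 Pool.Agent.Lib_helper18.Eis Pool.Agent.Lib_helper84.Cub
open Pool.Agent.PT Pool.Agent.PTE Pool.Agent.PT3

namespace NBAS

open Pool.Agent.PT.EBAS Pool.Agent.PT3.EBAT

/-- An adapted basis when the image of the linear map is contained in a line. -/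
theorem adapted_line {S : Type} [AddCommGroup S] [Module (ZMod 3) S] [Module.Finite (ZMod 3) S]
    (Λ : S →ₗ[ZMod 3] (ZMod 3 × ZMod 3)) (w : ZMod 3 × ZMod 3)
    (hw : ∀ x, ∃ t : ZMod 3, Λ x = t • w) :
    ∃ (τ : Fin (Module.finrank (ZMod 3) S) → Fin 3)
      (b : Module.Basis (Fin (Module.finrank (ZMod 3) S)) (ZMod 3) S), Adp Λ w τ b := by
  have hF : Fact (Nat.Prime 3) := ⟨Nat.prime_three⟩
  by_cases h0 : ∀ x, Λ x = 0
  · refine adapted_aux Λ w (c := 0) (fun i => i.elim0) (fun i => i.elim0) (fun i => i.elim0)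
      ⟨fun i => i.elim0, fun i => i.elim0, fun i => i.elim0, fun i => i.elim0, fun i => i.elim0⟩
      (fun g _ i => i.elim0) (fun x => ⟨fun i => i.elim0, ?_⟩)
    rw [h0 x]
    simp
  push Not at h0
  obtain ⟨x₀, hx₀⟩ := h0
  obtain ⟨t, ht⟩ := hw x₀
  have ht0 : t ≠ 0 := by
    rintro rfl
    rw [zero_smul] at ht
    exact hx₀ ht
  have hw0 : w ≠ 0 := by
    rintro rfl
    rw [smul_zero] at ht
    exact hx₀ ht
  have hu : Λ (t⁻¹ • x₀) = w := by
    rw [map_smul, ht, smul_smul, inv_mul_cancel₀ ht0, one_smul]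
  refine adapted_aux Λ w (c := 1) (fun _ => t⁻¹ • x₀) (fun _ => 1) (fun _ => by decide)
    ⟨fun i hi => absurd hi (by decide), fun _ _ => hu, fun i hi => absurd hi (by decide),
      fun i j _ _ => Subsingleton.elim i j, fun i j hij => absurd (Subsingleton.elim i j) hij⟩
    (fun g hg i => ?_) (fun x => ?_)
  · rw [Fin.sum_univ_one, hu] at hg
    rw [Subsingleton.elim i 0]
    exact (smul_eq_zero.mp hg).resolve_right hw0
  · obtain ⟨t', ht'⟩ := hw x
    refine ⟨fun _ => t', ?_⟩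
    rw [Fin.sum_univ_one, hu, ht']

/-- The pair `(lv, lw)` in terms of exponent vectors. -/
noncomputable def La {m k : ℕ} (p : Fin m → ℕ) (r : Fin k → ℕ) :
    (Col m k → ZMod 3) →ₗ[ZMod 3] (ZMod 3 × ZMod 3) where
  toFun v := (v (Sum.inl 0), (∑ i : Fin m, v (Sum.inl i.succ) * wt ((p i : ℤ) ^ 2)) +
    ∑ j, v (Sum.inr j) * wt ((r j : ℤ) ^ 2))
  map_add' := by
    intro v v'
    refine Prod.ext rfl ?_
    simp only [Pi.add_apply, add_mul, Finset.sum_add_distrib, Prod.mk_add_mk]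
    ring
  map_smul' := by
    intro t v
    refine Prod.ext rfl ?_
    simp only [Pi.smul_apply, smul_eq_mul, mul_assoc, RingHom.id_apply, ← Finset.mul_sum,
      Prod.smul_mk]
    ring

/-- The row of the prime `3`. -/
theorem row0 (h n : ℕ) {m k : ℕ} (π : Fin m → PP) (p e : Fin m → ℕ) (r : Fin k → ℕ)
    (w0 : ZMod 3) (c : Fin m → ZMod 3) (u : Col m k → ZMod 3) :
    ((Nm h n π p e r w0 c).mulVec u) 0 =
      (wt ((n : ℤ) ^ 2) + w0) * u (Sum.inl 0) + (La p r u).2 := by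
  rw [Matrix.mulVec, dotProduct, Fintype.sum_sum_type, Fin.sum_univ_succ]
  change ((wt ((n : ℤ) ^ 2) + w0) * u (Sum.inl 0) +
    ∑ i : Fin m, wt ((p i : ℤ) ^ 2) * u (Sum.inl i.succ)) +
    ∑ j, wt ((r j : ℤ) ^ 2) * u (Sum.inr j) = (wt ((n : ℤ) ^ 2) + w0) * u (Sum.inl 0) +
    ((∑ i : Fin m, u (Sum.inl i.succ) * wt ((p i : ℤ) ^ 2)) +
      ∑ j, u (Sum.inr j) * wt ((r j : ℤ) ^ 2))
  rw [add_assoc]
  congr 2
  · exact Finset.sum_congr rfl fun i _ => mul_comm _ _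
  · exact Finset.sum_congr rfl fun i _ => mul_comm _ _

theorem dec_d : ∀ a b x : ZMod 3, b * a + x = 0 → x = (2 * a) * b := by decide

theorem dec_e : ((0 : ℕ) : ZMod 3) = 0 := by decide

/-- The image of the admissible vectors in a line, `h = 0` and `h = 2`. -/
theorem line (h n : ℕ) {m k : ℕ} (π : Fin m → PP) (p e : Fin m → ℕ) (r : Fin k → ℕ)
    (w0 : ZMod 3) (c : Fin m → ZMod 3) (h02 : h = 0 ∨ h = 2) (u : Col m k → ZMod 3)
    (hu : u ∈ US h n π p e r w0 c) :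
    ∃ t : ZMod 3, La p r u = t • ((h : ZMod 3), wt ((n : ℤ) ^ 2) + w0) := by
  have hF : Fact (Nat.Prime 3) := ⟨Nat.prime_three⟩
  obtain ⟨-, h1, h2⟩ := hu
  rcases h02 with rfl | rfl
  · have h3 : u (Sum.inl 0) = 0 := h2 rfl
    by_cases h4 : wt ((n : ℤ) ^ 2) + w0 = 0
    · have h5 := h1 (Or.inr ⟨rfl, h4⟩)
      rw [row0, h3, mul_zero, zero_add] at h5
      refine ⟨0, ?_⟩
      rw [zero_smul]
      exact Prod.ext h3 h5
    · refine ⟨(La p r u).2 / (wt ((n : ℤ) ^ 2) + w0), Prod.ext ?_ ?_⟩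
      · change u (Sum.inl 0) = _ * ((0 : ℕ) : ZMod 3)
        rw [h3, dec_e, mul_zero]
      · change (La p r u).2 = (La p r u).2 / (wt ((n : ℤ) ^ 2) + w0) * (wt ((n : ℤ) ^ 2) + w0)
        rw [div_mul_cancel₀ _ h4]
  · have h5 := h1 (Or.inl rfl)
    rw [row0] at h5
    refine ⟨2 * u (Sum.inl 0), Prod.ext ?_ ?_⟩
    · exact dec_a _
    · exact dec_d _ _ _ h5

section

variable {h n m k : ℕ} {π : Fin m → PP} {p e : Fin m → ℕ} {r f : Fin k → ℕ}

theorem prm_prime (hN : NF n π p e r f) (b : Col m k) : (prm p r b).Prime := by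
  rcases b with b | j
  · refine Fin.cases ?_ (fun i => ?_) b
    · exact Nat.prime_three
    · exact hN.pp i
  · exact hN.rp j

theorem exv_prod (hN : NF n π p e r f) {s : ℕ} (x : Fin s → ℤ) (hx : ∀ i, x i ≠ 0)
    (g : Fin s → ℕ) : exv p r (∏ i, x i ^ g i) = ∑ i, (g i : ZMod 3) • exv p r (x i) := by
  funext b
  rw [Finset.sum_apply]
  change ((padicValInt (prm p r b) (∏ i, x i ^ g i) : ℕ) : ZMod 3) =
      ∑ i, (g i : ZMod 3) * (padicValInt (prm p r b) (x i) : ZMod 3)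
  rw [padicInt_prod _ (prm_prime hN b) _ _ fun i => pow_ne_zero _ (hx i), Nat.cast_sum]
  refine Finset.sum_congr rfl fun i _ => ?_
  rw [padicInt_pow _ (prm_prime hN b) (hx i), Nat.cast_mul]

theorem exv_cube (hN : NF n π p e r f) (t : ℤ) (ht : t ≠ 0) : exv p r (t ^ 3) = 0 := by
  have h3 : ((3 : ℕ) : ZMod 3) = 0 := ZMod.natCast_self 3
  funext b
  change ((padicValInt (prm p r b) (t ^ 3) : ℕ) : ZMod 3) = 0
  rw [padicInt_pow _ (prm_prime hN b) ht, Nat.cast_mul, h3, zero_mul]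

theorem lv_eq (x : ℤ) : lv x = exv p r x (Sum.inl 0) := rfl

theorem lw_eq (hEVET : EVET) (hN : NF n π p e r f) (h : ℕ) (w0 : ZMod 3) (c : Fin m → ZMod 3)
    (x : ℤ) (h1 : x ≠ 0) (h2 : ∀ l : ℕ, l.Prime → (l : ℤ) ∣ x → l ∣ 3 * n) :
    lw x = (La p r (exv p r x)).2 := by
  obtain ⟨hE1, -⟩ := hEVET h n m k π p e r f w0 c hN
  exact (hE1 x h1 h2).2

/-- The adapted basis of a space of admissible exponent vectors. -/
theorem core (hEVET : EVET) (hLPT : LPT) (hLCL : LCL) (hN : NF n π p e r f)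
    (h2 : h ≤ 2) (w0 : ZMod 3) (c : Fin m → ZMod 3)
    (x : (Col m k → ZMod 3) → ℤ) (hx0 : ∀ u, x u ≠ 0)
    (hxs : ∀ u, ∀ l : ℕ, l.Prime → (l : ℤ) ∣ x u → l ∣ 3 * n)
    (hxe : ∀ u, exv p r (x u) = u)
    (T : Submodule (ZMod 3) (Col m k → ZMod 3)) (hT : T ≤ US h n π p e r w0 c) :
    ∃ (τ : Fin (Module.finrank (ZMod 3) T) → Fin 3)
      (u : Module.Basis (Fin (Module.finrank (ZMod 3) T)) (ZMod 3) T)
      (X Y : Fin (Module.finrank (ZMod 3) T) → ℤ),
      (∀ i j, i ≠ j → (u i : Col m k → ZMod 3) (Sum.inl 0) = 0 ∨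
        (u j : Col m k → ZMod 3) (Sum.inl 0) = 0) ∧
      ∀ B : ℤ, TyB h n w0 B → LamS B τ (fun i => x (u i : Col m k → ZMod 3)) X Y := by
  have hF : Fact (Nat.Prime 3) := ⟨Nat.prime_three⟩
  set β : ZMod 3 := wt ((n : ℤ) ^ 2) + w0 with hβ
  obtain ⟨τ, u, hA, hA1⟩ : ∃ (τ : Fin (Module.finrank (ZMod 3) T) → Fin 3)
      (u : Module.Basis (Fin (Module.finrank (ZMod 3) T)) (ZMod 3) T),
      Adp ((La p r).comp T.subtype) ((h : ZMod 3), β) τ u ∧
      ∀ i, τ i = 1 → ((h : ZMod 3), β) ≠ 0 := by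
    by_cases h1 : h = 1
    · have h3 : ((h : ZMod 3), β).1 ≠ 0 := by
        subst h1
        exact dec_one
      obtain ⟨τ, u, hA⟩ := adapted ((La p r).comp T.subtype) ((h : ZMod 3), β) h3
      refine ⟨τ, u, hA, fun _ _ h4 => h3 ?_⟩
      rw [h4]
      rfl
    · have h02 : h = 0 ∨ h = 2 := by omega
      have h3 : ∀ v, ∃ t : ZMod 3, ((La p r).comp T.subtype) v = t • ((h : ZMod 3), β) :=
        fun v => line h n π p e r w0 c h02 v (hT v.2)
      by_cases h4 : ((h : ZMod 3), β) = 0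
      · have d1 : ¬ (0 : Fin 3) = 1 := by decide
        have d2 : ¬ (0 : Fin 3) = 2 := by decide
        refine ⟨fun _ => 0, Module.finBasis (ZMod 3) T, ⟨fun i _ => ?_,
          fun i hi => absurd hi d1, fun i hi => absurd hi d2,
          fun i j _ hi => absurd rfl hi, fun i j _ => ?_⟩, fun i hi => absurd hi d1⟩
        · obtain ⟨t, ht⟩ := h3 (Module.finBasis (ZMod 3) T i)
          rw [ht, h4, smul_zero]
        · left
          obtain ⟨t, ht⟩ := h3 (Module.finBasis (ZMod 3) T i)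
          rw [ht, h4, smul_zero]
          rfl
      · obtain ⟨τ, u, hA⟩ := adapted_line ((La p r).comp T.subtype) ((h : ZMod 3), β) h3
        exact ⟨τ, u, hA, fun _ _ => h4⟩
  have hLa : ∀ i, ((La p r).comp T.subtype) (u i) =
      (lv (x (u i : Col m k → ZMod 3)), lw (x (u i : Col m k → ZMod 3))) := by
    intro i
    rw [lv_eq (p := p) (r := r), lw_eq hEVET hN h w0 c _ (hx0 _) (hxs _), hxe]
    rfl
  have hLC : ∀ i, LC lam (x (u i : Col m k → ZMod 3)) ↔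
      lv (x (u i : Col m k → ZMod 3)) = 0 ∧ lw (x (u i : Col m k → ZMod 3)) = 0 := fun i =>
    hLCL.1 _ (hx0 _)
  have hXY : ∀ i, ∃ X Y : ℤ, (τ i = 1 → X = 1 ∧ Y = 0) ∧
      (τ i = 2 → X ≠ 0 ∧ Y ≠ 0 ∧ X ^ 3 + x (u i : Col m k → ZMod 3) * Y ^ 3 ≠ 0 ∧
        lv (x (u i : Col m k → ZMod 3) * (X ^ 3 + x (u i : Col m k → ZMod 3) * Y ^ 3)) = 1 ∧
        lw (x (u i : Col m k → ZMod 3) * (X ^ 3 + x (u i : Col m k → ZMod 3) * Y ^ 3)) = β) := by
    intro i
    by_cases h2 : τ i = 2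
    · have h3 : ¬ (lv (x (u i : Col m k → ZMod 3)) = 0 ∧
          lw (x (u i : Col m k → ZMod 3)) = 0) := by
        rintro ⟨h4, h5⟩
        apply (hA.a2 i h2).1
        rw [hLa i, h4, h5]
        rfl
      obtain ⟨X, Y, hXY⟩ := hLPT _ β (hx0 (u i : Col m k → ZMod 3)) h3
      refine ⟨X, Y, fun h4 => ?_, fun _ => hXY⟩
      rw [h2] at h4
      exact absurd h4 (by decide)
    · exact ⟨1, 0, fun _ => ⟨rfl, rfl⟩, fun h3 => absurd h3 h2⟩
  choose X Y hX1 hX2 using hXY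
  refine ⟨τ, u, X, Y, hA.one, fun B hB => ⟨fun i hi => ?_, fun i hi => ?_, fun i hi => ?_,
    hA.inj⟩⟩
  · have h1 := hA.a0 i hi
    rw [hLa i, Prod.mk_eq_zero] at h1
    exact (hLC i).mpr h1
  · have h1 := hA.a1 i hi
    rw [hLa i, Prod.mk.injEq] at h1
    obtain ⟨-, hB1, hB2⟩ := hB
    refine ⟨fun h2 => ?_, ?_, ?_, (hX1 i hi).1, (hX1 i hi).2⟩
    · obtain ⟨h3, h4⟩ := (hLC i).mp h2
      apply hA1 i hi
      rw [Prod.mk_eq_zero, ← h1.1, ← h1.2]
      exact ⟨h3, h4⟩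
    · rw [hB1]
      exact h1.1
    · rw [hB2]
      exact h1.2
  · obtain ⟨-, hB1, hB2⟩ := hB
    have h1 := hA.a2 i hi
    have h3 : h = 1 := by
      by_contra h4
      have h02 : h = 0 ∨ h = 2 := by omega
      exact h1.2 (line h n π p e r w0 c h02 _ (hT (u i).2))
    have hB1' : lv B = 1 := by
      rw [hB1, h3, Nat.cast_one]
    obtain ⟨hx1, hx2, hx3, hx4, hx5⟩ := hX2 i hi
    refine ⟨fun h4 => ?_, hB1', ⟨hx1, hx2, hx3, ?_, ?_⟩⟩
    · apply h1.1
      have h5 := (hLC i).mp h4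
      rw [hLa i, h5.1, h5.2]
      rfl
    · rw [hB1']
      exact hx4
    · rw [hB2]
      exact hx5

end

end NBAS

open _root_.Pool.Agent.PTN.NBAS in
/-- NBAS: basis of the admissible classes with local points. -/
theorem NBAS_thm (hV : Stmt_NVEC) (hEVET : EVET) (hSPP : SPP) (hLPT : LPT) (hLCL : LCL) :
    Stmt_NBAS := by
  intro h n m k π p e r f w0 c hN h2
  obtain ⟨hV1, hV2, hV3⟩ := hV h n m k π p e r f w0 c hN h2
  choose x hx0 hxs hxe hxV hx3 using hV3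
  obtain ⟨τ, u, X, Y, hone, hL⟩ := core hEVET hLPT hLCL hN h2 w0 c x hx0 hxs hxe
    (US h n π p e r w0 c) le_rfl
  have hps : ∀ g : Fin (Module.finrank (ZMod 3) (US h n π p e r w0 c)) → ℕ,
      ∏ i, x (u i : Col m k → ZMod 3) ^ g i ≠ 0 := fun g =>
    Finset.prod_ne_zero_iff.mpr fun i _ => pow_ne_zero _ (hx0 _)
  have hpe : ∀ g : Fin (Module.finrank (ZMod 3) (US h n π p e r w0 c)) → ℕ,
      exv p r (∏ i, x (u i : Col m k → ZMod 3) ^ g i) =
        ∑ i, (g i : ZMod 3) • (u i : Col m k → ZMod 3) := by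
    intro g
    rw [exv_prod hN (fun i => x (u i : Col m k → ZMod 3)) (fun i => hx0 _) g]
    simp only [hxe]
  refine ⟨Module.finrank (ZMod 3) (US h n π p e r w0 c), τ, fun i => x (u i), X, Y, rfl,
    fun i => ?_, fun i π' => hxV _ π', fun g hg => ?_, fun i j hij => ?_, hL, fun y hy => ?_⟩
  · rw [hV1 _ (hx0 _) (hxs _), hxe]
    exact (u i).2
  · rintro ⟨t, ht⟩
    have ht0 : t ≠ 0 := by
      rintro rfl
      apply hps g
      rw [← ht]
      norm_num
    have h1 := hpe g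
    rw [← ht, exv_cube hN t ht0] at h1
    obtain ⟨i, hi⟩ := hg
    apply hi
    rw [← ZMod.natCast_eq_zero_iff]
    apply Fintype.linearIndependent_iff.mp u.linearIndependent (fun i => (g i : ZMod 3))
    apply Subtype.ext
    rw [AddSubmonoidClass.coe_finsetSum]
    exact h1.symm
  · rcases hone i j hij with h1 | h1
    · exact Or.inl (hx3 _ h1)
    · exact Or.inr (hx3 _ h1)
  · have hy0 : y ≠ 0 := hy.1.ne
    have hys := hy.1.supp
    have hyS : exv p r y ∈ US h n π p e r w0 c := (hV1 y hy0 hys).mp hy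
    refine ⟨fun i => (u.repr ⟨exv p r y, hyS⟩ i).val, ?_⟩
    rw [hV2 y _ hy0 (hps _) hys (fun l hl hd => ?_)]
    · rw [hpe]
      have h3 := congrArg (fun z : US h n π p e r w0 c => (z : Col m k → ZMod 3))
        (u.sum_repr ⟨exv p r y, hyS⟩)
      simp only [AddSubmonoidClass.coe_finsetSum] at h3
      refine h3.symm.trans (Finset.sum_congr rfl fun i _ => ?_)
      rw [ZMod.natCast_zmod_val]
      rfl
    · obtain ⟨i, -, hi⟩ := (Nat.prime_iff_prime_int.mp hl).dvd_finsetProd_iff _ |>.mp hd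
      exact hxs _ l hl ((Nat.prime_iff_prime_int.mp hl).dvd_of_dvd_pow hi)

end Pool.Agent.PTN


end

section

/-!
# The law of the ranks of prime twists: bases adapted to a hyperplane (module PTN_NHPT)
-/

set_option autoImplicit false

namespace Pool.Agent.PTN

open Pool.Agent.Lib_helper18 Pool.Agent.Lib_helper18.Eis Pool.Agent.Lib_helper84.Cub
open Pool.Agent.PT Pool.Agent.PTE Pool.Agent.PT3

namespace NHPT

open Pool.Agent.PT.EBAS

/-! ### Linear algebra -/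

/-- A basis adapted to two linear forms. -/
theorem fam {M : Type} [AddCommGroup M] [Module (ZMod 3) M] [Module.Finite (ZMod 3) M]
    (A W : M →ₗ[ZMod 3] ZMod 3) (h : ℕ) (β : ZMod 3)
    (hh : h = 1 ∨ (h = 2 ∧ ∀ x, W x + A x * β = 0) ∨
      (h = 0 ∧ (∀ x, A x = 0) ∧ (β = 0 → ∀ x, W x = 0))) :
    ∃ (s : ℕ) (b : Fin s → M) (τ : Fin s → Fin 3), s = Module.finrank (ZMod 3) M ∧
      (∀ g : Fin s → ZMod 3, ∑ i, g i • b i = 0 → ∀ i, g i = 0) ∧
      (∀ x, ∃ g : Fin s → ZMod 3, x = ∑ i, g i • b i) ∧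
      (∀ i, τ i = 0 → A (b i) = 0 ∧ W (b i) = 0) ∧
      (∀ i, τ i = 1 → A (b i) = (h : ZMod 3) ∧ W (b i) = β ∧ ¬ (A (b i) = 0 ∧ W (b i) = 0)) ∧
      (∀ i, τ i = 2 → h = 1 ∧ ¬ (A (b i) = 0 ∧ W (b i) = 0)) ∧
      (∀ i j, τ i = τ j → τ i ≠ 0 → i = j) ∧
      (∀ i j, i ≠ j → A (b i) = 0 ∨ A (b j) = 0) := by
  rcases hh with h1 | ⟨h2, hw⟩ | ⟨h0, hA, hW⟩
  · have hβ : (h : ZMod 3) ≠ 0 := by
      rw [h1]
      decide
    obtain ⟨s, b, τ, hs, hli, hsp, ht0, ht1, ht2, hinj, hA'⟩ :=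
      PT3.EHPT.family A W (h : ZMod 3) β hβ (h = 1) (Or.inl h1)
    exact ⟨s, b, τ, hs, hli, hsp, ht0, fun i hi => ⟨(ht1 i hi).1, (ht1 i hi).2,
      fun h3 => hβ ((ht1 i hi).1.symm.trans h3.1)⟩, ht2, hinj, hA'⟩
  · have hβ : (h : ZMod 3) ≠ 0 := by
      rw [h2]
      decide
    obtain ⟨s, b, τ, hs, hli, hsp, ht0, ht1, ht2, hinj, hA'⟩ :=
      PT3.EHPT.family A W (h : ZMod 3) β hβ (h = 1) (Or.inr fun x => by
        have h5 : (h : ZMod 3) = -1 := by
          rw [h2]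
          decide
        rw [h5, eq_neg_of_add_eq_zero_left (hw x)]
        ring)
    exact ⟨s, b, τ, hs, hli, hsp, ht0, fun i hi => ⟨(ht1 i hi).1, (ht1 i hi).2,
      fun h3 => hβ ((ht1 i hi).1.symm.trans h3.1)⟩, ht2, hinj, hA'⟩
  · by_cases hβ : β = 0
    · obtain ⟨s, b, τ, hs, hli, hsp, ht0, ht1, ht2, hinj, -⟩ :=
        PT3.EHPT.family A W 1 0 one_ne_zero False (Or.inr fun x => by
          rw [hA x, hW hβ x]
          ring)
      refine ⟨s, b, τ, hs, hli, hsp, fun i _ => ⟨hA _, hW hβ _⟩, fun i hi => ?_,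
        fun i hi => (ht2 i hi).1.elim, hinj, fun i j _ => Or.inl (hA _)⟩
      exfalso
      have h3 := (ht1 i hi).1
      rw [hA] at h3
      exact zero_ne_one h3
    · obtain ⟨s, b, τ, hs, hli, hsp, ht0, ht1, ht2, hinj, -⟩ :=
        PT3.EHPT.family W A β 0 hβ False (Or.inr fun x => by
          rw [hA x]
          ring)
      refine ⟨s, b, τ, hs, hli, hsp, fun i hi => ⟨(ht0 i hi).2, (ht0 i hi).1⟩, fun i hi => ?_,
        fun i hi => (ht2 i hi).1.elim, hinj, fun i j _ => Or.inl (hA _)⟩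
      obtain ⟨h3, h4⟩ := ht1 i hi
      refine ⟨?_, h3, fun h5 => hβ (h3.symm.trans h5.2)⟩
      rw [h4, h0]
      rfl

/-! ### Exponent vectors -/

/-- exponent vectors as elements of `E3` -/
def toE {m k : ℕ} : (Col m k → ZMod 3) →ₗ[ZMod 3] PT3.EHPT.E3 m k where
  toFun u := (u (Sum.inl 0), (fun i => u (Sum.inl i.succ), fun j => u (Sum.inr j)))
  map_add' := by
    intro u v
    rfl
  map_smul' := by
    intro t u
    rfl

theorem toE_inj {m k : ℕ} {u v : Col m k → ZMod 3} (h : toE u = toE v) : u = v := by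
  have h1 : u (Sum.inl 0) = v (Sum.inl 0) := congrArg Prod.fst h
  have h2 : ∀ i : Fin m, u (Sum.inl i.succ) = v (Sum.inl i.succ) := fun i =>
    congrFun (congrArg (fun z => z.2.1) h) i
  have h3 : ∀ j : Fin k, u (Sum.inr j) = v (Sum.inr j) := fun j =>
    congrFun (congrArg (fun z => z.2.2) h) j
  funext b
  rcases b with a | j
  · induction a using Fin.cases with
    | zero => exact h1
    | succ i => exact h2 i
  · exact h3 j

theorem toE_exv {m k : ℕ} (p : Fin m → ℕ) (r : Fin k → ℕ) (x : ℤ) :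
    toE (exv p r x) = PT3.EHPT.e3 p r x := rfl

/-- the number with given exponents -/
def NC {m k : ℕ} (p : Fin m → ℕ) (r : Fin k → ℕ) (u : Col m k → ZMod 3) : ℤ :=
  PT3.EHPT.N3 p r (toE u)

section

variable {n m k : ℕ} {π : Fin m → PP} {p e : Fin m → ℕ} {r f : Fin k → ℕ}

theorem exv_NC (hLCL : LCL) (h : NF n π p e r f) (u : Col m k → ZMod 3) :
    exv p r (NC p r u) = u :=
  toE_inj (by rw [toE_exv]; exact PT3.EHPT.e3_N3 hLCL h (toE u))

theorem exv_prod (hLCL : LCL) (h : NF n π p e r f) {s : ℕ} (x : Fin s → ℤ)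
    (hx : ∀ i, x i ≠ 0) (g : Fin s → ℕ) :
    exv p r (∏ i, x i ^ g i) = ∑ i, (g i : ZMod 3) • exv p r (x i) := by
  refine toE_inj ?_
  rw [toE_exv, PT3.EHPT.e3_prod hLCL h x hx g, map_sum]
  exact Finset.sum_congr rfl fun i _ => by rw [map_smul, toE_exv]

theorem exv_cube (hLCL : LCL) (h : NF n π p e r f) (t : ℤ) (ht : t ≠ 0) :
    exv p r (t ^ 3) = 0 := by
  refine toE_inj ?_
  rw [toE_exv, PT3.EHPT.e3_cube hLCL h t ht, map_zero]

end

end NHPT

open _root_.Pool.Agent.PTN.NHPT in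
/-- NHPT: bases adapted to a hyperplane. -/
theorem NHPT_thm (hV : Stmt_NVEC) (hEVET : EVET) (_hSTM : STM) (hSPP : SPP) (hLPT : LPT)
    (hLCL : LCL) : Stmt_NHPT := by
  classical
  intro h n m k π p e r f w0 c hNF hh
  obtain ⟨hE1, hE2⟩ := hEVET h n m k π p e r f w0 c hNF
  obtain ⟨hV1, hV2, -⟩ := hV h n m k π p e r f w0 c hNF hh
  have hne : ∀ u : Col m k → ZMod 3, NC p r u ≠ 0 := fun u => PT3.EHPT.N3_ne hNF _
  have hsupp : ∀ (u : Col m k → ZMod 3) (l : ℕ), l.Prime → (l : ℤ) ∣ NC p r u → l ∣ 3 * n :=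
    fun u => PT3.EHPT.N3_supp hNF _
  have hex : ∀ u : Col m k → ZMod 3, exv p r (NC p r u) = u := exv_NC hLCL hNF
  set S : Submodule (ZMod 3) (Col m k → ZMod 3) := US h n π p e r w0 c with hS
  set β : ZMod 3 := wt ((n : ℤ) ^ 2) + w0 with hβdef
  have hadmB : ∀ u : S, AdN h n π w0 c (NC p r (u : Col m k → ZMod 3)) := by
    intro u
    rw [hV1 _ (hne _) (hsupp _), hex]
    exact u.2
  -- from equal exponents to equality up to cubes
  have hcub : ∀ x x' : ℤ, x ≠ 0 → x' ≠ 0 → (∀ l : ℕ, l.Prime → (l : ℤ) ∣ x → l ∣ 3 * n) →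
      (∀ l : ℕ, l.Prime → (l : ℤ) ∣ x' → l ∣ 3 * n) → exv p r x = exv p r x' →
      ∃ u v : ℤ, u ≠ 0 ∧ v ≠ 0 ∧ x * u ^ 3 = x' * v ^ 3 := fun x x' h1 h2 h3 h4 h5 =>
    (hV2 x x' h1 h2 h3 h4).mpr h5
  have hspan : ∀ (s : ℕ) (b : Fin s → S) (x : ℤ), AdN h n π w0 c x →
      (∃ g : Fin s → ZMod 3, exv p r x = ∑ i, g i • (b i : Col m k → ZMod 3)) →
      ∃ (g : Fin s → ℕ) (u t : ℤ), u ≠ 0 ∧ t ≠ 0 ∧
        x * u ^ 3 = (∏ i, NC p r (b i : Col m k → ZMod 3) ^ g i) * t ^ 3 := by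
    intro s b x hx hg
    obtain ⟨g, hg⟩ := hg
    have hne' : ∏ i : Fin s, NC p r (b i : Col m k → ZMod 3) ^ (g i).val ≠ 0 :=
      Finset.prod_ne_zero_iff.mpr fun i _ => pow_ne_zero _ (hne _)
    have h1 := exv_prod hLCL hNF (fun i : Fin s => NC p r (b i : Col m k → ZMod 3))
      (fun i => hne _) (fun i => (g i).val)
    simp only [hex, ZMod.natCast_zmod_val] at h1
    obtain ⟨u, t, hu, ht, hut⟩ := hcub x _ hx.1.ne hne' hx.1.supp (fun l hl hd => by
      obtain ⟨i, -, hi⟩ := (Nat.prime_iff_prime_int.mp hl).dvd_finsetProd_iff _ |>.mp hd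
      exact hsupp _ l hl ((Nat.prime_iff_prime_int.mp hl).dvd_of_dvd_pow hi)) (by rw [h1, hg])
    exact ⟨fun i => (g i).val, u, t, hu, ht, hut⟩
  -- the two forms
  have hLV0 : ∀ u : Col m k → ZMod 3, lv (NC p r u) = u (Sum.inl 0) := fun u =>
    PT3.EHPT.lv_N3 hLCL hNF _
  have hLW0 : ∀ u : Col m k → ZMod 3, lw (NC p r u) = EBAS.Wm p r (toE u).2 := by
    intro u
    rw [(hE1 _ (hne _) (hsupp _)).2]
    change EBAS.Wm p r (EBAS.ev p r (NC p r u)) = EBAS.Wm p r (toE u).2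
    have h1 : PT3.EHPT.e3 p r (NC p r u) = toE u := PT3.EHPT.e3_N3 hLCL hNF _
    have h2 : EBAS.ev p r (NC p r u) = (toE u).2 := congrArg Prod.snd h1
    rw [h2]
  let A : S →ₗ[ZMod 3] ZMod 3 := (LinearMap.proj (Sum.inl 0 : Col m k)).comp S.subtype
  let W : S →ₗ[ZMod 3] ZMod 3 := (EBAS.Wm p r).comp
    ((LinearMap.snd (ZMod 3) (ZMod 3) (EBAS.EV m k)).comp (toE.comp S.subtype))
  have hLV : ∀ u : S, lv (NC p r (u : Col m k → ZMod 3)) = A u := fun u => hLV0 _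
  have hLW : ∀ u : S, lw (NC p r (u : Col m k → ZMod 3)) = W u := fun u => hLW0 _
  have hAW : h = 1 ∨ (h = 2 ∧ ∀ x : S, W x + A x * β = 0) ∨
      (h = 0 ∧ (∀ x : S, A x = 0) ∧ (β = 0 → ∀ x : S, W x = 0)) := by
    have h3 : h = 1 ∨ h = 2 ∨ h = 0 := by omega
    rcases h3 with h3 | h3 | h3
    · exact Or.inl h3
    · refine Or.inr (Or.inl ⟨h3, fun x => ?_⟩)
      have h4 := (hadmB x).1.wild h3
      rw [hLV, hLW] at h4
      exact h4
    · refine Or.inr (Or.inr ⟨h3, fun x => ?_, fun hb x => ?_⟩)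
      · have h4 := ((hadmB x).2 h3).1
        rw [hLV] at h4
        exact h4
      · have h4 := ((hadmB x).2 h3).2 hb
        rw [hLW] at h4
        exact h4
  let B0 : Module.Basis (Fin (Module.finrank (ZMod 3) S)) (ZMod 3) S :=
    Module.finBasisOfFinrankEq (ZMod 3) S rfl
  refine ⟨_, fun i => NC p r (B0 i : Col m k → ZMod 3), rfl, fun i => hadmB _, fun x hx => ?_,
    fun δ hδ => ?_⟩
  · refine hspan _ (fun i => B0 i) x hx ⟨fun i => B0.repr ⟨exv p r x,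
      (hV1 x hx.1.ne hx.1.supp).mp hx⟩ i, ?_⟩
    have h3 := congrArg (fun z : S => (z : Col m k → ZMod 3))
      (B0.sum_repr ⟨exv p r x, (hV1 x hx.1.ne hx.1.supp).mp hx⟩)
    simp only [AddSubmonoidClass.coe_finsetSum] at h3
    exact h3.symm
  let D : S →ₗ[ZMod 3] ZMod 3 := B0.constr (ZMod 3) δ
  have hDB : ∀ i, D (B0 i) = δ i := fun i => B0.constr_basis (ZMod 3) δ i
  have hD : D ≠ 0 := by
    intro h0
    apply hδ
    funext i
    rw [← hDB i, h0]
    rfl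
  obtain ⟨s, b', τ, hs, hli, hsp, ht0, ht1, ht2, hinj, hA'⟩ := fam
    (M := LinearMap.ker D) (A.comp (LinearMap.ker D).subtype) (W.comp (LinearMap.ker D).subtype)
    h β (by
      rcases hAW with h1 | ⟨h1, h2⟩ | ⟨h1, h2, h3⟩
      · exact Or.inl h1
      · exact Or.inr (Or.inl ⟨h1, fun x => h2 (x : S)⟩)
      · exact Or.inr (Or.inr ⟨h1, fun x => h2 (x : S), fun hb x => h3 hb (x : S)⟩))
  have hrk : Module.finrank (ZMod 3) (LinearMap.ker D) + 1 = Module.finrank (ZMod 3) S := by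
    have h1 := LinearMap.finrank_range_add_finrank_ker D
    rw [LinearMap.range_eq_top.mpr (LinearMap.surjective hD), finrank_top,
      Module.finrank_self] at h1
    omega
  have hDb : ∀ i, D (b' i : S) = 0 := fun i => LinearMap.mem_ker.mp (b' i).2
  obtain ⟨y0, hy0⟩ : ∃ y, D y ≠ 0 := by
    by_contra hc
    push Not at hc
    exact hD (LinearMap.ext hc)
  obtain ⟨y, hy, hyA⟩ : ∃ y : S, D y ≠ 0 ∧ (A y = 0 ∨ ∀ i, A (b' i : S) = 0) := by
    by_cases h1 : ∀ i, A (b' i : S) = 0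
    · exact ⟨y0, hy0, Or.inr h1⟩
    · push Not at h1
      obtain ⟨i0, hi0⟩ := h1
      refine ⟨y0 - (A y0 / A (b' i0 : S)) • (b' i0 : S), ?_, Or.inl ?_⟩
      · rw [map_sub, map_smul, hDb, smul_zero, sub_zero]
        exact hy0
      · rw [map_sub, map_smul, smul_eq_mul, div_mul_cancel₀ _ hi0, sub_self]
  let b : Fin (s + 1) → S := Fin.snoc (α := fun _ => S) (fun i => (b' i : S)) y
  have hb1 : ∀ i : Fin s, b i.castSucc = (b' i : S) := fun i =>
    Fin.snoc_castSucc (α := fun _ => S) _ _ _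
  have hb2 : b (Fin.last s) = y := Fin.snoc_last (α := fun _ => S) _ _
  have hbli : ∀ g : Fin (s + 1) → ZMod 3, ∑ i, g i • b i = 0 → ∀ i, g i = 0 := by
    intro g hg
    rw [Fin.sum_univ_castSucc, hb2] at hg
    simp only [hb1] at hg
    have hl : g (Fin.last _) = 0 := by
      have h1 := congrArg D hg
      rw [map_add, map_sum, map_smul, map_zero, smul_eq_mul] at h1
      have h2 : ∑ i, D (g (Fin.castSucc i) • (b' i : S)) = 0 :=
        Finset.sum_eq_zero fun i _ => by rw [map_smul, hDb, smul_zero]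
      rw [h2, zero_add] at h1
      exact (mul_eq_zero.mp h1).resolve_right hy
    rw [hl, zero_smul, add_zero] at hg
    have h3 : ∑ i, g (Fin.castSucc i) • b' i = 0 := by
      apply Subtype.ext
      rw [AddSubmonoidClass.coe_finsetSum]
      exact hg
    have h4 := hli _ h3
    intro i
    induction i using Fin.lastCases with
    | last => exact hl
    | cast i => exact h4 i
  have hbA : ∀ i j, i ≠ j → A (b i) = 0 ∨ A (b j) = 0 := by
    intro i j hij
    induction i using Fin.lastCases with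
    | last =>
      induction j using Fin.lastCases with
      | last => exact absurd rfl hij
      | cast j =>
        rw [hb2, hb1]
        rcases hyA with h1 | h1
        · exact Or.inl h1
        · exact Or.inr (h1 j)
    | cast i =>
      induction j using Fin.lastCases with
      | last =>
        rw [hb2, hb1]
        rcases hyA with h1 | h1
        · exact Or.inr h1
        · exact Or.inl (h1 i)
      | cast j =>
        rw [hb1, hb1]
        exact hA' i j fun h1 => hij (congrArg _ h1)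
  have hXY : ∀ i : Fin s, ∃ X Y : ℤ, (τ i ≠ 2 → X = 1 ∧ Y = 0) ∧ (τ i = 2 → X ≠ 0 ∧ Y ≠ 0 ∧
      X ^ 3 + NC p r ((b' i : S) : Col m k → ZMod 3) * Y ^ 3 ≠ 0 ∧
      lv (NC p r ((b' i : S) : Col m k → ZMod 3) *
        (X ^ 3 + NC p r ((b' i : S) : Col m k → ZMod 3) * Y ^ 3)) = 1 ∧
      lw (NC p r ((b' i : S) : Col m k → ZMod 3) *
        (X ^ 3 + NC p r ((b' i : S) : Col m k → ZMod 3) * Y ^ 3)) = β) := by
    intro i
    by_cases hi : τ i = 2
    · obtain ⟨X, Y, h1⟩ := hLPT (NC p r ((b' i : S) : Col m k → ZMod 3)) β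
        (hne _) (by rw [hLV, hLW]; exact (ht2 i hi).2)
      exact ⟨X, Y, fun h2 => absurd hi h2, fun _ => h1⟩
    · exact ⟨1, 0, fun _ => ⟨rfl, rfl⟩, fun h2 => absurd h2 hi⟩
  choose X Y hXY1 hXY2 using hXY
  have h12 : (1 : Fin 3) ≠ 2 := by decide
  have hD3 : ∀ x : S, D x = 0 → ∃ g : Fin s → ZMod 3, x = ∑ i, g i • b i.castSucc := by
    intro x hx
    obtain ⟨g, hg⟩ := hsp ⟨x, LinearMap.mem_ker.mpr hx⟩
    refine ⟨g, ?_⟩
    simp only [hb1]
    have h3 := congrArg (fun z : LinearMap.ker D => (z : S)) hg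
    simp only [AddSubmonoidClass.coe_finsetSum] at h3
    exact h3
  refine ⟨s, τ, fun i => NC p r (b i : Col m k → ZMod 3), X, Y, by omega, fun i => hadmB _,
    fun i π' => PT3.EHPT.V_N3_le hSPP hNF _ π', fun g hg => ?_, fun i j hij => ?_,
    fun B hB => ?_, fun ρ hρ => ?_⟩
  · rintro ⟨t, ht⟩
    have hprod : ∏ i, NC p r (b i : Col m k → ZMod 3) ^ g i ≠ 0 :=
      Finset.prod_ne_zero_iff.mpr fun i _ => pow_ne_zero _ (hne _)
    have ht0 : t ≠ 0 := by
      rintro rfl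
      apply hprod
      rw [← ht]
      norm_num
    have h1 := exv_prod hLCL hNF (fun i => NC p r (b i : Col m k → ZMod 3)) (fun i => hne _) g
    rw [← ht, exv_cube hLCL hNF t ht0] at h1
    simp only [hex] at h1
    have h2 : ∑ i, (g i : ZMod 3) • b i = 0 := by
      apply Subtype.ext
      rw [AddSubmonoidClass.coe_finsetSum]
      exact h1.symm
    have h3 := hbli _ h2
    obtain ⟨i, hi⟩ := hg
    exact hi ((ZMod.natCast_eq_zero_iff _ _).mp (h3 i))
  · rcases hbA i j hij with h2 | h2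
    · exact Or.inl (PT3.EHPT.not_three_N3 hNF _ h2)
    · exact Or.inr (PT3.EHPT.not_three_N3 hNF _ h2)
  · obtain ⟨hB0, hB1, hB2⟩ := hB
    have hrv : ∀ i : Fin s, rv (fun i => NC p r (b i : Col m k → ZMod 3)) i =
        NC p r ((b' i : S) : Col m k → ZMod 3) := by
      intro i
      change NC p r (b i.castSucc : Col m k → ZMod 3) = _
      rw [hb1]
    refine ⟨fun i hi => ?_, fun i hi => ?_, fun i hi => ?_, fun i j hij hi => ?_⟩
    · rw [hrv, hLCL.1 _ (hne _), hLV, hLW]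
      exact ht0 i hi
    · obtain ⟨h1, h2, h3⟩ := ht1 i hi
      rw [hrv, hLCL.1 _ (hne _), hLV, hLW, hB1, hB2]
      exact ⟨h3, h1, h2, hXY1 i (by rw [hi]; exact h12)⟩
    · obtain ⟨h1, h2⟩ := ht2 i hi
      obtain ⟨h3, h4, h5, h6, h7⟩ := hXY2 i hi
      rw [hrv, hLCL.1 _ (hne _), hLV, hLW, hB1]
      refine ⟨h2, by rw [h1]; decide, ⟨h3, h4, h5, ?_, ?_⟩⟩
      · rw [h6, hB1, h1]
        decide
      · rw [h7, hB2]
    · exact hinj i j hij hi
  · let F : S →ₗ[ZMod 3] ZMod 3 := sym ρ.1 3 • A +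
      (PTE.EHPL.Fm (fun i => ch ρ.1 (p i : Eis)) (fun j => ch ρ.1 (r j : Eis))).comp
        ((LinearMap.snd (ZMod 3) (ZMod 3) (EBAS.EV m k)).comp (toE.comp S.subtype))
    have hFx : ∀ (x : ℤ) (hx : AdN h n π w0 c x),
        sym ρ.1 (x : Eis) = F ⟨exv p r x, (hV1 x hx.1.ne hx.1.supp).mp hx⟩ := by
      intro x hx
      rw [PT3.EHPT.sym_eq hSPP hNF ρ hρ hx.1.ne hx.1.supp]
      change (PT3.EHPT.e3 p r x).1 * sym ρ.1 3 + _ = sym ρ.1 3 * (PT3.EHPT.e3 p r x).1 + _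
      rw [mul_comm]
      rfl
    have hF : ∀ u : S, sym ρ.1 (NC p r (u : Col m k → ZMod 3) : Eis) = F u := by
      intro u
      rw [hFx _ (hadmB u)]
      congr 1
      exact Subtype.ext (hex _)
    refine ⟨⟨fun hρ2 => ?_, fun hε => ?_⟩, fun hρ0 hρ1 x hx hx0 => ?_⟩
    · obtain ⟨hρ0, hρ1⟩ := hρ2
      have hF0 : ∀ u : S, D u = 0 → F u = 0 := by
        intro u hu
        obtain ⟨g, hg⟩ := hD3 u hu
        rw [hg, map_sum]
        refine Finset.sum_eq_zero fun i _ => ?_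
        rw [map_smul, ← hF, hρ0 i, smul_zero]
      obtain ⟨ε, hε, hFD⟩ := PTE.EHPL.form_eq D F hF0 (b (Fin.last s)) (by rw [hb2]; exact hy)
        (by rw [← hF]; exact hρ1)
      exact ⟨ε, hε, fun i => by rw [hF, hFD, hDB]⟩
    · obtain ⟨ε, hε, hv⟩ := hε
      have hFD : F = ε • D := by
        refine B0.ext fun i => ?_
        rw [← hF, hv i, LinearMap.smul_apply, hDB, smul_eq_mul]
      refine ⟨fun i => ?_, ?_⟩
      · rw [hF, hFD, LinearMap.smul_apply, hb1, hDb, smul_zero]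
      · rw [hF, hFD, LinearMap.smul_apply, hb2, smul_eq_mul]
        exact mul_ne_zero hε hy
    · have hF0 : ∀ u : S, D u = 0 → F u = 0 := by
        intro u hu
        obtain ⟨g, hg⟩ := hD3 u hu
        rw [hg, map_sum]
        refine Finset.sum_eq_zero fun i _ => ?_
        rw [map_smul, ← hF, hρ0 i, smul_zero]
      obtain ⟨ε, hε, hFD⟩ := PTE.EHPL.form_eq D F hF0 (b (Fin.last s)) (by rw [hb2]; exact hy)
        (by rw [← hF]; exact hρ1)
      have hDx : D ⟨exv p r x, (hV1 x hx.1.ne hx.1.supp).mp hx⟩ = 0 := by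
        have h1 := hFD ⟨exv p r x, (hV1 x hx.1.ne hx.1.supp).mp hx⟩
        rw [← hFx x hx, hx0] at h1
        exact (mul_eq_zero.mp h1.symm).resolve_left hε
      obtain ⟨g, hg⟩ := hD3 _ hDx
      refine hspan s (fun i : Fin s => b i.castSucc) x hx ⟨g, ?_⟩
      have h3 := congrArg (fun z : S => (z : Col m k → ZMod 3)) hg
      simp only [AddSubmonoidClass.coe_finsetSum] at h3
      exact h3

end Pool.Agent.PTN


end

section

/-!
# NADT: `AdN` and the local conditions, `q = 2 (mod 3)`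

Follows `Pool/Agent/PT3/EADT.lean`.
-/

set_option autoImplicit false

namespace Pool.Agent.PTN

open Pool.Agent.Lib_helper18 Pool.Agent.Lib_helper18.Eis Pool.Agent.Lib_helper84.Cub
open Pool.Agent.PT Pool.Agent.PTE Pool.Agent.PT3

namespace NADT

open Pool.Agent.PT.EADM

theorem cast_two {h : ℕ} (hh : h ≤ 2) : (h : ZMod 3) = 2 ↔ h = 2 := by
  have h1 : h = 0 ∨ h = 1 ∨ h = 2 := by omega
  rcases h1 with rfl | rfl | rfl <;> decide

theorem cast_zero {h : ℕ} (hh : h ≤ 2) : (h : ZMod 3) = 0 ↔ h = 0 := by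
  have h1 : h = 0 ∨ h = 1 ∨ h = 2 := by omega
  rcases h1 with rfl | rfl | rfl <;> decide

section

variable {h n m k E q : ℕ} {π : Fin m → PP} {p e : Fin m → ℕ} {r f : Fin k → ℕ}
  {w0 : ZMod 3} {c : Fin m → ZMod 3}

theorem base_BG (hSPP : SPP) (hN : NF n π p e r f) (hE : E = 1 ∨ E = 2)
    (hq : q.Prime) (hqn : ¬ q ∣ n) : BG (BB h n E q) := by
  have hn0 : n ≠ 0 := n_ne hN
  refine ⟨EADT.BB_ne hN hq, fun ϖ => ?_⟩
  obtain ⟨l, hl⟩ := EADT.below hSPP ϖ
  have hqE : q ^ E ≠ 0 := pow_ne_zero _ hq.ne_zero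
  have h30 : 3 ^ h ≠ 0 := pow_ne_zero _ three_ne_zero
  rw [EADT.BB_eis, hl.V_nat (EADT.nat_ne hN hq), Nat.factorization_mul (mul_ne_zero h30 hn0) hqE,
    Nat.factorization_mul h30 hn0, Finsupp.add_apply, Finsupp.add_apply]
  have h1 := fac_le hN l
  have h2 : (3 ^ h).factorization l = 0 := by
    apply Nat.factorization_eq_zero_of_not_dvd
    intro h4
    exact EADT.below_ne hl ((Nat.prime_dvd_prime_iff_eq hl.pr Nat.prime_three).1
      (hl.pr.dvd_of_dvd_pow h4))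
  by_cases hlq : l = q
  · have h4 : n.factorization l = 0 := by
      rw [hlq]
      exact Nat.factorization_eq_zero_of_not_dvd hqn
    have h3 : (q ^ E).factorization l = E := by
      rw [hlq, hq.factorization_pow, Finsupp.single_eq_same]
    omega
  · have h3 : (q ^ E).factorization l = 0 := by
      apply Nat.factorization_eq_zero_of_not_dvd
      intro h
      exact hlq ((Nat.prime_dvd_prime_iff_eq hl.pr hq).1 (hl.pr.dvd_of_dvd_pow h))
    omega

theorem base_Ty (hLCL : LCL) (hN : NF n π p e r f) (hh : h ≤ 2)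
    (hq : q.Prime) (hq3 : q ≠ 3) (hw : wt (((q : ℤ) ^ E) ^ 2) = w0) :
    TyB h n w0 (BB h n E q) := by
  rcases Nat.eq_zero_or_pos h with rfl | hpos
  · obtain ⟨-, hmul, -, hunit, -⟩ := hLCL
    have hn0 : (n : ℤ) ≠ 0 := by exact_mod_cast n_ne hN
    have hn3 : ¬ (3 : ℤ) ∣ (n : ℤ) := by
      intro h
      exact three_not hN (by exact_mod_cast h)
    have hq0 : (q : ℤ) ^ E ≠ 0 := pow_ne_zero _ (by exact_mod_cast hq.ne_zero)
    have hqE3 : ¬ (3 : ℤ) ∣ (q : ℤ) ^ E := by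
      intro h
      have h1 : 3 ∣ q ^ E := by exact_mod_cast h
      exact hq3 ((Nat.prime_dvd_prime_iff_eq Nat.prime_three hq).1
        (Nat.prime_three.dvd_of_dvd_pow h1)).symm
    have h2 := hmul (n : ℤ) ((q : ℤ) ^ E) hn0 hq0
    refine ⟨EADT.BB_ne hN hq, ?_, ?_⟩
    · unfold BB
      rw [pow_zero, one_mul, h2.1, (hunit _ hn3).1, (hunit _ hqE3).1, add_zero, Nat.cast_zero]
    · unfold BB
      rw [pow_zero, one_mul, h2.2, (hunit _ hn3).2, (hunit _ hqE3).2, hw]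
  · exact EADT.base_Ty hLCL hN (by omega) hq hq3 hw

theorem unr_of (hSPP : SPP) {x : ℤ}
    (hsupp : ∀ l : ℕ, l.Prime → (l : ℤ) ∣ x → l ∣ 3 * n) (ϖ : PP)
    (hϖ : ¬ ϖ.1 ∣ ((BB h n E q : ℤ) : Eis)) : ¬ ϖ.1 ∣ (x : Eis) := by
  intro h1
  obtain ⟨l, hl⟩ := EADT.below hSPP ϖ
  apply hϖ
  rw [EADT.BB_eis, hl.dvd_nat]
  have h2 : l ∣ n := by
    rcases hl.pr.dvd_mul.1 (hsupp l hl.pr ((hl.dvd_int x).1 h1)) with h3 | h3
    · exact absurd ((Nat.prime_dvd_prime_iff_eq hl.pr Nat.prime_three).1 h3) (EADT.below_ne hl)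
    · exact h3
  exact (h2.mul_left _).mul_right _

/-- The local conditions at `3`. -/
theorem loc_iff (hT : TyB h n w0 (BB h n E q)) (hh : h ≤ 2) (x : ℤ) :
    ((h = 2 → lw x + lv x * (wt ((n : ℤ) ^ 2) + w0) = 0) ∧
      (h = 0 → lv x = 0 ∧ (wt ((n : ℤ) ^ 2) + w0 = 0 → lw x = 0))) ↔
      Loc (BB h n E q) x := by
  obtain ⟨-, h1, h2⟩ := hT
  unfold Loc
  rw [h1, h2, cast_two hh, cast_zero hh]

end

end NADT

/-- NADT: `AdN` and the local conditions, `q = 2 (mod 3)`. -/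
theorem NADT_thm (hSTM : STM) (hSPP : SPP) (hSCJ : SCJ) (hLCL : LCL) : Stmt_NADT := by
  have _ := hSTM
  intro h n m k π p e r f w0 c E q hN hh hE hq hq3 hcl hqn
  obtain ⟨hqw, hqc⟩ := hcl
  have hq3' : q ≠ 3 := by rintro rfl; omega
  have hT := NADT.base_Ty hLCL hN hh hq hq3' hqw
  refine ⟨NADT.base_BG hSPP hN hE hq hqn, hT, fun x hsupp => ⟨?_, ?_⟩⟩
  · rintro ⟨⟨hx, _, hsym, hwild⟩, h0⟩
    exact ⟨⟨hx, fun ϖ => EADT.sym_of hSPP hSCJ hN hE hq hqn hqc hx hsupp hsym ϖ (Or.inl hq3),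
      fun ϖ hϖ => NADT.unr_of hSPP hsupp ϖ hϖ⟩, (NADT.loc_iff hT hh x).1 ⟨hwild, h0⟩⟩
  · rintro ⟨⟨hx, hsym, _⟩, hloc⟩
    obtain ⟨hwild, h0⟩ := (NADT.loc_iff hT hh x).2 hloc
    refine ⟨⟨hx, hsupp, fun i => ?_, hwild⟩, h0⟩
    rw [EADT.key hSPP hN hE hq hqn hqc hx i]
    exact hsym (π i)

end Pool.Agent.PTN


end

section

/-!
# PTN_NBKU: the bound for the rank, `q = 1 (mod 3)`, generic case
-/

set_option autoImplicit false

namespace Pool.Agent.PTN

open Pool.Agent.Lib_helper18 Pool.Agent.Lib_helper18.Eis Pool.Agent.Lib_helper84.Cub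
open Pool.Agent.PT Pool.Agent.PTE Pool.Agent.PT3

namespace NBKU

theorem BB_nat (h n E q : ℕ) : BB h n E q = ((3 ^ h * (n * q ^ E) : ℕ) : ℤ) := by
  unfold BB
  push_cast
  ring

variable {h n m k : ℕ} {π : Fin m → PP} {p e : Fin m → ℕ} {r f : Fin k → ℕ} {E q : ℕ}

theorem nat_ne (hN : NF n π p e r f) (hq : q.Prime) : 3 ^ h * (n * q ^ E) ≠ 0 :=
  mul_ne_zero (pow_ne_zero _ (by norm_num)) (mul_ne_zero (EADM.n_ne hN) (pow_ne_zero _ hq.ne_zero))

theorem BB_ne (hN : NF n π p e r f) (hq : q.Prime) : BB h n E q ≠ 0 := by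
  rw [BB_nat]
  exact_mod_cast nat_ne hN hq

/-- no cube divides `B` -/
theorem fac (hN : NF n π p e r f) (hh : h ≤ 2) (hE : E = 1 ∨ E = 2) (hq : q.Prime) (hq3 : q ≠ 3)
    (hqn : ¬ q ∣ n) {l : ℕ} (hl : l.Prime) : (3 ^ h * (n * q ^ E)).factorization l ≤ 2 := by
  have hn0 : n ≠ 0 := EADM.n_ne hN
  have hn3 : ¬ 3 ∣ n := EADM.three_not hN
  rw [Nat.factorization_mul (pow_ne_zero _ (by norm_num))
    (mul_ne_zero hn0 (pow_ne_zero _ hq.ne_zero)), Finsupp.add_apply,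
    Nat.factorization_mul hn0 (pow_ne_zero _ hq.ne_zero), Finsupp.add_apply]
  have h1 := EADM.fac_le hN l
  by_cases hl3 : l = 3
  · subst hl3
    have h2 : n.factorization 3 = 0 := Nat.factorization_eq_zero_of_not_dvd hn3
    have h3 : (q ^ E).factorization 3 = 0 := by
      apply Nat.factorization_eq_zero_of_not_dvd
      intro h4
      exact hq3 ((Nat.prime_dvd_prime_iff_eq Nat.prime_three hq).1
        (Nat.prime_three.dvd_of_dvd_pow h4)).symm
    have h5 : (3 ^ h).factorization 3 = h := by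
      rw [Nat.prime_three.factorization_pow, Finsupp.single_eq_same]
    omega
  · have h0 : (3 ^ h).factorization l = 0 := by
      apply Nat.factorization_eq_zero_of_not_dvd
      intro h2
      exact hl3 ((Nat.prime_dvd_prime_iff_eq hl Nat.prime_three).1 (hl.dvd_of_dvd_pow h2))
    by_cases hlq : l = q
    · have h2 : n.factorization l = 0 := by
        rw [hlq]
        exact Nat.factorization_eq_zero_of_not_dvd hqn
      have h3 : (q ^ E).factorization l = E := by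
        rw [hlq, hq.factorization_pow, Finsupp.single_eq_same]
      omega
    · have h3 : (q ^ E).factorization l = 0 := by
        apply Nat.factorization_eq_zero_of_not_dvd
        intro h2
        exact hlq ((Nat.prime_dvd_prime_iff_eq hl hq).1 (hl.dvd_of_dvd_pow h2))
      omega

theorem no_cube (hN : NF n π p e r f) (hh : h ≤ 2) (hE : E = 1 ∨ E = 2) (hq : q.Prime)
    (hq3 : q ≠ 3) (hqn : ¬ q ∣ n) {l : ℕ} (hl : l.Prime) : ¬ l ^ 3 ∣ 3 ^ h * (n * q ^ E) := by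
  intro hd
  have h1 := (hl.pow_dvd_iff_le_factorization (nat_ne hN hq)).1 hd
  have h2 := fac hN hh hE hq hq3 hqn hl
  omega

theorem cubeFree (hN : NF n π p e r f) (hh : h ≤ 2) (hE : E = 1 ∨ E = 2) (hq : q.Prime)
    (hq3 : q ≠ 3) (hqn : ¬ q ∣ n) : CubeRank.CubeFree (BB h n E q) := by
  intro l hl hd
  have h1 := Int.prime_iff_natAbs_prime.1 hl
  apply no_cube hN hh hE hq hq3 hqn h1
  rw [BB_nat] at hd
  have h2 := Int.natAbs_dvd_natAbs.2 hd
  rwa [Int.natAbs_pow, Int.natAbs_natCast] at h2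

theorem not27 (hN : NF n π p e r f) (hh : h ≤ 2) (hE : E = 1 ∨ E = 2) (hq : q.Prime)
    (hq3 : q ≠ 3) (hqn : ¬ q ∣ n) : ¬ (27 : ℤ) ∣ BB h n E q := by
  intro hd
  apply no_cube hN hh hE hq hq3 hqn Nat.prime_three
  rw [BB_nat] at hd
  have h2 : (27 : ℕ) ∣ 3 ^ h * (n * q ^ E) := by exact_mod_cast hd
  simpa using h2

theorem abs_ge (hN : NF n π p e r f) (hE : E = 1 ∨ E = 2) (hq : q.Prime) (hq3 : 3 < q) :
    3 ≤ (BB h n E q).natAbs := by
  rw [BB_nat, Int.natAbs_natCast]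
  have h1 : q ∣ 3 ^ h * (n * q ^ E) := by
    apply Dvd.dvd.mul_left
    apply Dvd.dvd.mul_left
    exact dvd_pow_self q (by omega)
  have h2 := Nat.le_of_dvd (Nat.pos_of_ne_zero (nat_ne hN hq)) h1
  omega

theorem tm_one (σ : PP) (b : Eis) : tm σ.1 1 b = 0 := by
  have h1 : ¬ σ.1 ∣ 1 := fun h => σ.2.1.not_isUnit (isUnit_of_dvd_one h)
  unfold tm
  rw [V_eq_zero h1, EHYP.ch_of_not_dvd σ.2.1 h1, sym_one σ.2.1 (F3R.not_dvd_three σ)]
  simp

theorem sl_one (b : Eis) : sl 1 b = 0 := by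
  unfold sl
  simp_rw [tm_one]
  simp

theorem selM_one (B : ℤ) : SelM B 1 where
  ne := one_ne_zero
  nrm := ⟨1, by rw [map_one]; ring⟩
  sym σ := tm_one σ _
  unr σ _ := by
    have h1 : ¬ σ.1 ∣ 1 := fun h => σ.2.1.not_isUnit (isUnit_of_dvd_one h)
    rw [V_eq_zero h1]
    exact dvd_zero 3
  lam _ := ⟨sl_one _, sl_one _⟩

/-- transport of a point -/
theorem pt_transport {B z W X1 Y1 u v : ℤ} (hPt : Pt B z X1 Y1) (hu : u ≠ 0) (hv : v ≠ 0)
    (hg : z * u ^ 3 = W * v ^ 3) : Pt B W (u * v * X1) (v ^ 2 * Y1) := by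
  refine ⟨mul_ne_zero (mul_ne_zero hu hv) hPt.hX, mul_ne_zero (pow_ne_zero 2 hv) hPt.hY, ?_⟩
  obtain ⟨c0, hc0, h1⟩ := hPt.eq
  refine ⟨c0 * u ^ 2, mul_ne_zero hc0 (pow_ne_zero 2 hu), ?_⟩
  have e1 : W * ((u * v * X1) ^ 3 + W * (v ^ 2 * Y1) ^ 3) =
      (W * v ^ 3) * (u ^ 3 * X1 ^ 3 + (W * v ^ 3) * Y1 ^ 3) := by ring
  rw [e1, ← hg]
  have e2 : z * u ^ 3 * (u ^ 3 * X1 ^ 3 + z * u ^ 3 * Y1 ^ 3) =
      u ^ 6 * (z * (X1 ^ 3 + z * Y1 ^ 3)) := by ring
  rw [e2, h1]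
  ring

end NBKU

open _root_.Pool.Agent.PTN.NBKU in
/-- PTN_NBKU: the bound for the rank, `q = 1 (mod 3)`, generic case. -/
theorem NBKU_thm (hK : Stmt_KID) (hP : Stmt_NPSU) (hI : Stmt_NKIN) (hA : Stmt_NADU)
    (hL : Stmt_NPLU) (hTENT : TENT) : Stmt_NBKU := by
  classical
  intro h n m k π p e r f w0 c s τ b X Y P Q P' Q' E q ρ hN hh hAd hSys hSw hT hgen hE hq hq3 hq1
    hIn hqn hqρ h0 h1
  have hq3' : q ≠ 3 := by omega
  have hB0 : BB h n E q ≠ 0 := BB_ne hN hq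
  have hcf := cubeFree (h := h) hN hh hE hq hq3' hqn
  have h27 := not27 (h := h) hN hh hE hq hq3' hqn
  have habs := abs_ge (h := h) hN hE hq hq3
  have hnc : ¬ ∃ t : ℤ, t ^ 3 = BB h n E q := by
    apply CubeRank.GenPf.not_cube hcf
    have h2 : ((BB h n E q).natAbs : ℤ) = |BB h n E q| := Int.natCast_natAbs _
    rw [← h2]
    exact_mod_cast habs
  obtain ⟨hBG, hTy, hAdm⟩ := hA h n m k π p e r f w0 c E q ρ hN hh hE hq hq1 hIn hqn hqρ
  obtain ⟨W, _, Ψ₁, hW, hΨ₁⟩ := hP h n m k π p e r f w0 c E q ρ hN hh hE hq hq1 hIn hqn hqρ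
  rw [if_pos ⟨_, hAd (Fin.last s), h1⟩, add_zero] at hW
  set B := BB h n E q with hBdef
  set M := MaT (rv b) X Y (rs P) (rs Q) (rs P') (rs Q') B with hM
  have hsupp : ∀ i : Fin (s + 1), ∀ l : ℕ, l.Prime → (l : ℤ) ∣ b i → l ∣ 3 * n := fun i =>
    (hAd i).1.supp
  have hAG : ∀ i : Fin s, AG B (rv b i) := fun i =>
    ((hAdm (b i.castSucc) (hsupp _)).1 ⟨hAd _, h0 i⟩).1
  have hne : ∀ i : Fin s, rv b i ≠ 0 := fun i => (hAd i.castSucc).1.ne
  have hker := (hTENT s τ (rv b) X Y _ _ _ _ B (ECLU.sysG_restr hSys) (ECLU.sw_restr hSw) hBG hAG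
    (hT B hTy) hne).2
  -- the class of a point of the isogenous curve
  have hz : ∀ z : ℤ, S2 B z → ∃ (g : Fin s → ℕ) (u v : ℤ) (j : ℕ), u ≠ 0 ∧ v ≠ 0 ∧
      z * B ^ j * u ^ 3 = (∏ i, rv b i ^ g i) * v ^ 3 ∧
      ∀ j, ∑ i, M j i * (g i : ZMod 3) = 0 := by
    rintro z (rfl | ⟨A, m', hA0, hsum, hprod, hcop, rfl⟩)
    · exact ⟨fun _ => 0, 1, 1, 0, one_ne_zero, one_ne_zero, by simp, fun j => by simp⟩
    · obtain ⟨z', X1, Y1, u, v, j, hu, hv, hz', hPt, hAGz, hLoc, hs⟩ :=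
        hL h n m k π p e r f E q A m' hN hh hE hq hq3' hqn hA0 hsum hprod hcop
      obtain ⟨g1, g2⟩ := (hAdm z' hs).2 ⟨hAGz, hLoc⟩
      obtain ⟨g, u', v', hu', hv', hg⟩ := hgen z' g1 g2
      change z' * u' ^ 3 = (∏ i, rv b i ^ g i) * v' ^ 3 at hg
      refine ⟨g, v * u', v' * u, j, mul_ne_zero hv hu', mul_ne_zero hv' hu, ?_, ?_⟩
      · have e1 : A 0 ^ 2 * A 1 * B ^ j * (v * u') ^ 3 =
            (A 0 ^ 2 * A 1 * B ^ j * v ^ 3) * u' ^ 3 := by ring
        rw [e1, ← hz']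
        linear_combination (u ^ 3) * hg
      · by_cases hex : ∃ i, ¬ 3 ∣ g i
        · exact hker g _ _ hex (pt_transport hPt hu' hv' hg)
        · push Not at hex
          intro j
          refine Finset.sum_eq_zero (fun i _ => ?_)
          rw [(ZMod.natCast_eq_zero_iff (g i) 3).2 (hex i), mul_zero]
  choose! g u v j hu hv hzg hzM using hz
  let Ψ₂ : ℤ → LinearMap.ker M.mulVecLin := fun z =>
    if hS : S2 B z then ⟨fun i => (g z i : ZMod 3), by
      rw [LinearMap.mem_ker]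
      funext j'
      exact hzM z hS j'⟩ else 0
  have hΨ₂ : ∀ z z', S2 B z → S2 B z' → Ψ₂ z = Ψ₂ z' →
      ∃ (u v : ℤ) (j : ℕ), u ≠ 0 ∧ v ≠ 0 ∧ z * u ^ 3 = z' * B ^ j * v ^ 3 := by
    intro z z' hS hS' hΨ
    have h2 : ∀ i, (g z i : ZMod 3) = g z' i := by
      intro i
      have h3 := congrArg (fun x : LinearMap.ker M.mulVecLin => (x : Fin s → ZMod 3) i) hΨ
      simp only [Ψ₂, dif_pos hS, dif_pos hS'] at h3
      exact h3
    obtain ⟨A, A', hA0, hA0', hAA⟩ := BKER.prod_cube (rv b) hne (g z) (g z') h2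
    refine ⟨B ^ j z * (u z * A * v z'), u z' * A' * v z, j z' + 2 * j z,
      mul_ne_zero (pow_ne_zero _ hB0) (mul_ne_zero (mul_ne_zero (hu z hS) hA0) (hv z' hS')),
      mul_ne_zero (mul_ne_zero (hu z' hS') hA0') (hv z hS), ?_⟩
    have e1 := hzg z hS
    have e2 := hzg z' hS'
    generalize (∏ i, rv b i ^ g z i) = w1 at *
    generalize (∏ i, rv b i ^ g z' i) = w2 at *
    rw [pow_add, mul_comm 2 (j z), pow_mul]
    generalize B ^ j z = β at *
    generalize B ^ j z' = β' at *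
    linear_combination (β ^ 2 * A ^ 3 * v z' ^ 3) * e1 - (β ^ 2 * A' ^ 3 * v z ^ 3) * e2 +
      (β ^ 2 * v z ^ 3 * v z' ^ 3) * hAA
  have hΨ₁' : ∀ ζ ζ', S1 B ζ → S1 B ζ' → Ψ₁ ζ = Ψ₁ ζ' →
      ∃ g g' : Eis, g ≠ 0 ∧ g' ≠ 0 ∧ ζ * g ^ 3 = ζ' * g' ^ 3 := by
    have hsel : ∀ ζ, S1 B ζ → SelM B ζ := by
      rintro ζ (rfl | ⟨x, y, z, hxy, hz0, heq, rfl⟩)
      · exact selM_one B
      · exact hI B x y z hB0 h27 hxy hz0 heq
    intro ζ ζ' h2 h3 h4
    exact hΨ₁ ζ ζ' (hsel ζ h2) (hsel ζ' h3) h4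
  obtain ⟨hfin, hidx⟩ := hK B hB0 hcf hnc W (LinearMap.ker M.mulVecLin) Ψ₁ Ψ₂ hΨ₁' hΨ₂
  have hkerd : Module.finrank (ZMod 3) (LinearMap.ker M.mulVecLin) = s - M.rank := by
    have h2 := LinearMap.finrank_range_add_finrank_ker M.mulVecLin
    rw [Module.finrank_fintype_fun_eq_card, Fintype.card_fin] at h2
    have h3 : Module.finrank (ZMod 3) (LinearMap.range M.mulVecLin) = M.rank := rfl
    omega
  rw [Module.natCard_eq_pow_finrank (K := ZMod 3) (V := LinearMap.ker M.mulVecLin), Nat.card_zmod,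
    hkerd] at hidx
  refine CubeRank.gen' B hcf habs _ hfin (hidx.trans ?_)
  rw [pow_add]
  exact Nat.mul_le_mul_right _ hW

end Pool.Agent.PTN


end

section

/-!
# NBK0: the bound of the first descent, `q = 1 (mod 3)`
-/

set_option autoImplicit false

open NumberField IsDedekindDomain Finset
open scoped nonZeroDivisors Pointwise

namespace Pool.Agent.PTN

open Pool.Agent.Lib_helper18 Pool.Agent.Lib_helper18.Eis Pool.Agent.Lib_helper84.Cub
open Pool.Agent.PT Pool.Agent.PTE Pool.Agent.PT3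

namespace NBK0

/-! ### the number `3 ^ h n q ^ E` -/

theorem BB_eq (h n E q : ℕ) : BB h n E q = ((3 ^ h * n * q ^ E : ℕ) : ℤ) := by
  unfold BB
  push_cast
  rfl

section B

variable {h n m k : ℕ} {π : Fin m → PP} {p e : Fin m → ℕ} {r f : Fin k → ℕ} {E q : ℕ}

theorem N_ne (hN : NF n π p e r f) (hq : q.Prime) : 3 ^ h * n * q ^ E ≠ 0 :=
  mul_ne_zero (mul_ne_zero (pow_ne_zero _ (by norm_num)) (EADM.n_ne hN))
    (pow_ne_zero _ hq.ne_zero)

theorem fac_le (hN : NF n π p e r f) (hh : h ≤ 2) (hE : E = 1 ∨ E = 2) (hq : q.Prime)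
    (hq3 : 3 < q) (hqn : ¬ q ∣ n) (l : ℕ) : (3 ^ h * n * q ^ E).factorization l ≤ 2 := by
  have hn0 := EADM.n_ne hN
  have h30 : (3 : ℕ) ^ h ≠ 0 := pow_ne_zero _ (by norm_num)
  rw [Nat.factorization_mul (mul_ne_zero h30 hn0) (pow_ne_zero _ hq.ne_zero),
    Nat.factorization_mul h30 hn0, Finsupp.add_apply, Finsupp.add_apply,
    Nat.prime_three.factorization_pow, hq.factorization_pow, Finsupp.single_apply,
    Finsupp.single_apply]
  by_cases h3 : 3 = l
  · subst h3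
    rw [if_pos rfl, if_neg (by omega), Nat.factorization_eq_zero_of_not_dvd (EADM.three_not hN)]
    omega
  · by_cases hql : q = l
    · subst hql
      rw [if_neg h3, if_pos rfl, Nat.factorization_eq_zero_of_not_dvd hqn]
      omega
    · rw [if_neg h3, if_neg hql]
      have := EADM.fac_le hN l
      omega

theorem cubeFree_BB (hN : NF n π p e r f) (hh : h ≤ 2) (hE : E = 1 ∨ E = 2) (hq : q.Prime)
    (hq3 : 3 < q) (hqn : ¬ q ∣ n) : CubeRank.CubeFree (BB h n E q) := by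
  intro z hz hd
  have hl : z.natAbs.Prime := Int.prime_iff_natAbs_prime.1 hz
  rw [BB_eq] at hd
  have h1 : z.natAbs ^ 3 ∣ 3 ^ h * n * q ^ E := by
    have h2 := Int.natAbs_dvd_natAbs.2 hd
    rwa [Int.natAbs_pow, Int.natAbs_natCast] at h2
  have h3 := (hl.pow_dvd_iff_le_factorization (N_ne hN hq)).1 h1
  have h4 := fac_le hN hh hE hq hq3 hqn z.natAbs
  omega

theorem BB_ne (hN : NF n π p e r f) (hq : q.Prime) : BB h n E q ≠ 0 := by
  rw [BB_eq]
  exact_mod_cast N_ne hN hq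

theorem three_le (hN : NF n π p e r f) (hE : E = 1 ∨ E = 2) (hq : q.Prime) (hq3 : 3 < q) :
    3 ≤ (BB h n E q).natAbs := by
  rw [BB_eq, Int.natAbs_natCast]
  have h1 : q ∣ 3 ^ h * n * q ^ E := by
    refine Dvd.dvd.mul_left (dvd_pow_self q ?_) _
    omega
  have := Nat.le_of_dvd (Nat.pos_of_ne_zero (N_ne hN hq)) h1
  omega

theorem not_27 (hN : NF n π p e r f) (hh : h ≤ 2) (hE : E = 1 ∨ E = 2) (hq : q.Prime)
    (hq3 : 3 < q) (hqn : ¬ q ∣ n) : ¬ (27 : ℤ) ∣ BB h n E q := by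
  intro h1
  refine cubeFree_BB hN hh hE hq hq3 hqn 3 Int.prime_three ?_
  norm_num
  exact h1

end B

/-! ### the class `1` in the minus part -/

theorem tm_one (hSPP : SPP) (π : PP) (b : Eis) : tm π.1 1 b = 0 := by
  have hd : ¬ π.1 ∣ 1 := fun h => π.2.1.not_isUnit (isUnit_of_dvd_one h)
  unfold tm
  rw [EADM.ch_unit π.2.1 hd, sym_one π.2.1 (hSPP.2.2.2.1 π).1, V_eq_zero hd]
  simp

theorem sl_one' (hSPP : SPP) (b : Eis) : sl 1 b = 0 := by
  unfold sl
  rw [finsum_eq_zero_of_forall_eq_zero fun π => tm_one hSPP π b, neg_zero]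

theorem selM_one (hSPP : SPP) (B : ℤ) : SelM B 1 where
  ne := one_ne_zero
  nrm := ⟨1, by rw [map_one]; ring⟩
  sym π := tm_one hSPP π _
  unr π _ := by
    rw [V_eq_zero fun h => π.2.1.not_isUnit (isUnit_of_dvd_one h)]
    exact dvd_zero 3
  lam _ := ⟨sl_one' hSPP _, sl_one' hSPP _⟩

theorem selM_of_S1 (hSPP : SPP) (hI : Stmt_NKIN) {B : ℤ} (hB : B ≠ 0) (h27 : ¬ (27 : ℤ) ∣ B)
    {ζ : Eis} (h : S1 B ζ) : SelM B ζ := by
  rcases h with rfl | ⟨x, y, z, hc, hz, he, rfl⟩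
  · exact selM_one hSPP B
  · exact hI B x y z hB h27 hc hz he

/-! ### the plus part -/

/-- a representative supported on `3 n` with an exponent vector in `US` -/
def Rp (h n : ℕ) {m k : ℕ} (π : Fin m → PP) (p e : Fin m → ℕ) (r : Fin k → ℕ)
    (w0 : ZMod 3) (c : Fin m → ZMod 3) (A z z' : ℤ) : Prop :=
  z' ≠ 0 ∧ (∀ l : ℕ, l.Prime → (l : ℤ) ∣ z' → l ∣ 3 * n) ∧
    exv p r z' ∈ US h n π p e r w0 c ∧
    ∃ (u v : ℤ) (j : ℕ), u ≠ 0 ∧ v ≠ 0 ∧ z' * u ^ 3 = z * A ^ j * v ^ 3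

theorem exv_one {m k : ℕ} (p : Fin m → ℕ) (r : Fin k → ℕ) : exv p r 1 = 0 := by
  funext b
  simp [exv]

theorem join {A z₁ z₂ z₁' z₂' u₁ v₁ u₂ v₂ a b : ℤ} {i j : ℕ}
    (h₁ : z₁' * u₁ ^ 3 = z₁ * A ^ i * v₁ ^ 3) (h₂ : z₂' * u₂ ^ 3 = z₂ * A ^ j * v₂ ^ 3)
    (h : z₁' * a ^ 3 = z₂' * b ^ 3) :
    z₁ * (A ^ i * v₁ * a * u₂) ^ 3 = z₂ * A ^ (j + 2 * i) * (v₂ * b * u₁) ^ 3 := by
  have e1 : z₁ * (A ^ i * v₁ * a * u₂) ^ 3 =
      (z₁ * A ^ i * v₁ ^ 3) * (A ^ i) ^ 2 * a ^ 3 * u₂ ^ 3 := by ring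
  have e2 : z₂ * A ^ (j + 2 * i) * (v₂ * b * u₁) ^ 3 =
      (z₂ * A ^ j * v₂ ^ 3) * (A ^ i) ^ 2 * b ^ 3 * u₁ ^ 3 := by
    rw [pow_add, pow_mul']
    ring
  rw [e1, e2, ← h₁, ← h₂]
  linear_combination ((A ^ i) ^ 2 * u₁ ^ 3 * u₂ ^ 3) * h

end NBK0

open _root_.Pool.Agent.PTN.NBK0 in
theorem NBK0_thm (hK : Stmt_KID) (hP : Stmt_NPSU) (hI : Stmt_NKIN) (hA : Stmt_NADU)
    (hL : Stmt_NPLU) (hV : Stmt_NVEC) (hSPP : SPP) (hSPLT : SPLT) : Stmt_NBK0 := by
  classical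
  intro h n m k π p e r f w0 c E q hN hh hE hq hq3 hq1 hcl hqn
  obtain ⟨ρ, hρ⟩ := hSPLT.1 q hq hq1
  have hB0 : BB h n E q ≠ 0 := BB_ne hN hq
  have hcf := cubeFree_BB hN hh hE hq hq3 hqn
  have h3le : 3 ≤ (BB h n E q).natAbs := three_le hN hE hq hq3
  have hnc : ¬ ∃ t : ℤ, t ^ 3 = BB h n E q :=
    CubeRank.GenPf.not_cube hcf (by rw [Int.abs_eq_natAbs]; exact_mod_cast h3le)
  have h27 := not_27 hN hh hE hq hq3 hqn
  obtain ⟨W, hWfin, Y, hWc, hY⟩ := hP h n m k π p e r f w0 c E q ρ hN hh hE hq hq1 hcl hqn hρ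
  obtain ⟨-, -, hAd⟩ := hA h n m k π p e r f w0 c E q ρ hN hh hE hq hq1 hcl hqn hρ
  obtain ⟨hV1, hV2, -⟩ := hV h n m k π p e r f w0 c hN hh
  have hrep : ∀ z : ℤ, S2 (BB h n E q) z →
      ∃ z' : ℤ, Rp h n π p e r w0 c (BB h n E q) z z' := by
    rintro z (rfl | ⟨a, m', ha, hs, hpr, hco, rfl⟩)
    · refine ⟨1, one_ne_zero, ?_, ?_, 1, 1, 0, one_ne_zero, one_ne_zero, by ring⟩
      · intro l hl hd
        have h1 : l ∣ 1 := by exact_mod_cast hd
        exact absurd (Nat.dvd_one.1 h1) hl.one_lt.ne'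
      · rw [exv_one]
        exact Submodule.zero_mem _
    · obtain ⟨z', X, Y', u, v, j, hu, hv, he, -, hag, hloc, hsupp⟩ :=
        hL h n m k π p e r f E q a m' hN hh hE hq (by omega) hqn ha hs hpr hco
      have hadm := ((hAd z' hsupp).2 ⟨hag, hloc⟩).1
      exact ⟨z', hag.ne, hsupp, (hV1 z' hag.ne hsupp).1 hadm, u, v, j, hu, hv, he⟩
  have hUfin : Finite (US h n π p e r w0 c) := inferInstance
  let Ψ : ℤ → US h n π p e r w0 c := fun z =>
    if hz : ∃ z' : ℤ, Rp h n π p e r w0 c (BB h n E q) z z' then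
      ⟨exv p r hz.choose, hz.choose_spec.2.2.1⟩ else 0
  have hΨ : ∀ z (hz : ∃ z' : ℤ, Rp h n π p e r w0 c (BB h n E q) z z'),
      (Ψ z : Col m k → ZMod 3) = exv p r hz.choose := by
    intro z hz
    change ((if hz : ∃ z' : ℤ, Rp h n π p e r w0 c (BB h n E q) z z' then
      (⟨exv p r hz.choose, hz.choose_spec.2.2.1⟩ : US h n π p e r w0 c) else 0 :
      US h n π p e r w0 c) : Col m k → ZMod 3) = _
    rw [dif_pos hz]
  have hkid := hK (BB h n E q) hB0 hcf hnc W (US h n π p e r w0 c) Y Ψ ?_ ?_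
  · obtain ⟨hfi, hidx⟩ := hkid
    refine CubeRank.gen' (BB h n E q) hcf h3le _ hfi (hidx.trans ?_)
    have hU : Nat.card (US h n π p e r w0 c) = 3 ^ sN h n π p e r w0 c := by
      have h1 := Module.natCard_eq_pow_finrank (K := ZMod 3) (V := US h n π p e r w0 c)
      rw [Nat.card_zmod] at h1
      exact h1
    have hW1 : Nat.card W ≤ 3 ^ (vN h n π p e r w0 c + 1) := by
      refine hWc.trans (Nat.pow_le_pow_right (by norm_num) ?_)
      split_ifs <;> omega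
    rw [hU, pow_add]
    exact Nat.mul_le_mul_right _ hW1
  · intro ζ ζ' h1 h2 he
    exact hY ζ ζ' (selM_of_S1 hSPP hI hB0 h27 h1) (selM_of_S1 hSPP hI hB0 h27 h2) he
  · intro z z' h1 h2 he
    have hz := hrep z h1
    have hz' := hrep z' h2
    have he' : exv p r hz.choose = exv p r hz'.choose := by
      rw [← hΨ z hz, ← hΨ z' hz', he]
    obtain ⟨g1, g2, -, u1, v1, j1, hu1, hv1, e1⟩ := hz.choose_spec
    obtain ⟨g1', g2', -, u2, v2, j2, hu2, hv2, e2⟩ := hz'.choose_spec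
    obtain ⟨a, b, ha, hb, hab⟩ := (hV2 _ _ g1 g1' g2 g2').2 he'
    exact ⟨BB h n E q ^ j1 * v1 * a * u2, v2 * b * u1, j2 + 2 * j1,
      mul_ne_zero (mul_ne_zero (mul_ne_zero (pow_ne_zero _ hB0) hv1) ha) hu2,
      mul_ne_zero (mul_ne_zero hv2 hb) hu1, join e1 e2 hab⟩

end Pool.Agent.PTN


end

section

/-!
# The law of the ranks of prime twists for every `n`: summary of the governing field
-/

set_option autoImplicit false

open NumberField IsDedekindDomain Finset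
open scoped nonZeroDivisors Pointwise

namespace Pool.Agent.PTN

open Pool.Agent.Lib_helper18 Pool.Agent.Lib_helper18.Eis Pool.Agent.Lib_helper84.Cub
open Pool.Agent.PT Pool.Agent.PTE Pool.Agent.PT3 Pool.Agent.PTL
open Pool.Agent.PT.GALD Pool.Agent.PTE.GALDS

theorem GALDU_thm (hGZEROG : GZEROG) (hGCHI : GCHI) (hGCG : GCG) (hGKUM : GKUM) (hGTS : GTS)
    (hGFRU : Stmt_GFRU) : Stmt_GALDU := by
  classical
  intro s b p q p' q' f hSys hf h9
  obtain ⟨L, hF, hN, ζ, ω, hG⟩ := hGZEROG (s + 1) b p q p' q' f hSys hf h9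
  have hgal := hG.gal
  obtain ⟨χ, hχs, hχζ, hχF⟩ := hGCHI L f ζ hf hG.prim
  obtain ⟨N₀, hFr⟩ := hGFRU s b p q p' q' f L ζ ω hSys hG
  have hω3 : ω ^ 3 = 1 := om_cube hG.rel
  have hf1 : 1 < f := by
    obtain ⟨c, hc⟩ := h9
    omega
  have h3f : 3 ∣ f := (by norm_num : (3 : ℕ) ∣ 9).trans h9
  have hfz : NeZero f := ⟨hf.ne'⟩
  obtain ⟨hT1, hT⟩ := hGTS s b p q p' q' f L ζ ω hSys hG
  -- action on ω
  have hωχ : ∀ g : L ≃ₐ[ℚ] L, g ω = ω ^ ((χ g : ZMod f)).val := by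
    intro g
    rw [hG.hω, map_pow, hχζ g, ← pow_mul, mul_comm, pow_mul, ← hG.hω]
  have hM : ∀ g : L ≃ₐ[ℚ] L, M1 (χ g) → g ω = ω := by
    intro g hg
    rw [hωχ g]
    conv_rhs => rw [← pow_one ω]
    apply om_congr hω3
    unfold M1 at hg
    omega
  have hb0 : ∀ j, b j ≠ 0 := by
    intro j h0
    refine hSys.ind (Pi.single j 1) ⟨j, by simp⟩ ⟨0, ?_⟩
    have h1 : ∏ i, b i ^ (Pi.single j 1 : Fin (s + 1) → ℕ) i = 0 := by
      refine Finset.prod_eq_zero (Finset.mem_univ j) ?_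
      rw [Pi.single_eq_same, pow_one, h0]
    rw [h1]
    norm_num
  have hz1 : ∀ z : L ≃ₐ[ℚ] L, z ζ = ζ → z ω = ω ∧ χ z = 1 := by
    intro z hzζ
    refine ⟨by rw [hG.hω, map_pow, hzζ], ?_⟩
    have h1 := hχζ z
    rw [hzζ] at h1
    have h2 : ((χ z : ZMod f)).val = 1 := by
      apply hG.prim.pow_inj (ZMod.val_lt _) hf1
      rw [← h1, pow_one]
    apply Units.ext
    have h3 := ZMod.natCast_zmod_val (χ z : ZMod f)
    rw [h2] at h3
    rw [← h3]
    simp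
  let t : (L ≃ₐ[ℚ] L) → Fin s → Fin s → ZMod 3 := fun g j i =>
    if h : j ≠ i ∧ g ω = ω ∧ Fx b g then ((hT j i h.1).1 g h.2.1 h.2.2).choose else 0
  have ht : ∀ (g : L ≃ₐ[ℚ] L) (j i : Fin s), j ≠ i → g ω = ω → Fx b g →
      IsTS b p q p' q' ω g j.castSucc i.castSucc (t g j i) := by
    intro g j i hji hg hF
    have h : j ≠ i ∧ g ω = ω ∧ Fx b g := ⟨hji, hg, hF⟩
    have e : t g j i = ((hT j i h.1).1 g h.2.1 h.2.2).choose := dif_pos h
    rw [e]
    exact ((hT j i h.1).1 g h.2.1 h.2.2).choose_spec.1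
  have htu : ∀ (g : L ≃ₐ[ℚ] L) (j i : Fin s) (c : ZMod 3), j ≠ i → g ω = ω → Fx b g →
      IsTS b p q p' q' ω g j.castSucc i.castSucc c → t g j i = c := by
    intro g j i c hji hg hF hc
    exact ((hT j i hji).1 g hg hF).unique (ht g j i hji hg hF) hc
  refine ⟨L, hF, hN, hG.gal, χ, Fx b, t, N₀, hχs, ?_, ?_, ?_, ?_, ?_⟩
  · intro g τ hg hFg
    obtain ⟨_, h1, _⟩ := hT1 g (hM g hg) hFg
    obtain ⟨h2, h3⟩ := h1 τ
    refine ⟨h3, fun j i hji => ?_⟩
    exact htu _ _ _ _ hji h2 h3 ((hT j i hji).2.1 g τ _ (hM g hg) hFg (ht g j i hji (hM g hg) hFg))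
  · intro g k hg hFg hk
    obtain ⟨_, _, h1⟩ := hT1 g (hM g hg) hFg
    obtain ⟨h2, h3⟩ := h1 k
    refine ⟨h3 hk, fun j i hji => ?_⟩
    exact htu _ _ _ _ hji h2 (h3 hk) ((hT j i hji).2.2 g _ k (hM g hg)
      (ht g j i hji (hM g hg) hFg))
  · intro a v v' ha
    obtain ⟨z, hzζ, hzρ, hzA⟩ := hGCG (s + 1) b p q p' q' f L ζ ω hSys hG
      (fun j i => if h : j ≠ Fin.last s ∧ i ≠ Fin.last s then
        v' (j.castPred h.1) (i.castPred h.2) - v (j.castPred h.1) (i.castPred h.2) else 0)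
    obtain ⟨hzω, hχz⟩ := hz1 z hzζ
    have hFz : ∀ g : L ≃ₐ[ℚ] L, Fx b (g * z) ↔ Fx b g := by
      intro g
      have h1 : ∀ (j : Fin (s + 1)) (ρ : L), ρ ^ 3 = (b j : L) → (g * z) ρ = g ρ := by
        intro j ρ hρ
        rw [AlgEquiv.mul_apply, hzρ j ρ hρ]
      unfold Fx
      constructor
      · rintro ⟨h2, h3⟩
        exact ⟨fun j ρ hρ => by rw [← h1 _ ρ hρ]; exact h2 j ρ hρ,
          fun ρ hρ => by rw [← h1 _ ρ hρ]; exact h3 ρ hρ⟩
      · rintro ⟨h2, h3⟩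
        exact ⟨fun j ρ hρ => by rw [h1 _ ρ hρ]; exact h2 j ρ hρ,
          fun ρ hρ => by rw [h1 _ ρ hρ]; exact h3 ρ hρ⟩
    have key : ∀ g : L ≃ₐ[ℚ] L, g ω = ω → Fx b g → ∀ j i, j < i →
        t (g * z) j i = (v' j i - v j i) + t g j i := by
      intro g hg hFg j i hji
      have hgz : (g * z) ω = ω := by rw [AlgEquiv.mul_apply, hzω, hg]
      apply htu _ _ _ _ hji.ne hgz ((hFz g).2 hFg)
      intro ρ A hρ hA
      have h1 := ht g j i hji.ne hg hFg ρ A hρ hA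
      have h2 := hzA j.castSucc i.castSucc (Fin.castSucc_lt_castSucc_iff.2 hji) ρ A hρ hA
      have h3 : j.castSucc ≠ Fin.last s ∧ i.castSucc ≠ Fin.last s :=
        ⟨(Fin.castSucc_lt_last j).ne, (Fin.castSucc_lt_last i).ne⟩
      simp only [dif_pos h3, Fin.castPred_castSucc] at h2
      rw [AlgEquiv.mul_apply, h2, map_mul, map_pow, hg, h1, ← mul_assoc, om_add hω3]
    apply Nat.card_congr
    refine Equiv.subtypeEquiv (Equiv.mulRight z) ?_
    intro g
    have hχ : χ (g * z) = χ g := by rw [map_mul, hχz, mul_one]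
    show (χ g = a ∧ Fx b g ∧ ∀ j i, j < i → t g j i = v j i) ↔
      (χ (g * z) = a ∧ Fx b (g * z) ∧ ∀ j i, j < i → t (g * z) j i = v' j i)
    rw [hχ, hFz g]
    constructor
    · rintro ⟨h1, h2, h3⟩
      refine ⟨h1, h2, fun j i hji => ?_⟩
      rw [key g (hM g (by rw [h1]; exact ha)) h2 j i hji, h3 j i hji]
      ring
    · rintro ⟨h1, h2, h3⟩
      refine ⟨h1, h2, fun j i hji => ?_⟩
      have h4 := h3 j i hji
      rw [key g (hM g (by rw [h1]; exact ha)) h2 j i hji] at h4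
      linear_combination h4
  · intro a ha
    choose θ hθ using hG.root
    have hθ0 : ∀ j, θ j ≠ 0 := by
      intro j h0
      have h1 := hθ j
      rw [h0] at h1
      apply hb0 j
      have h2 : ((b j : ℤ) : L) = 0 := by rw [← h1]; norm_num
      exact_mod_cast h2
    have hex : ∀ (g : L ≃ₐ[ℚ] L) (j : Fin (s + 1)), ∃ u : ZMod 3, g (θ j) = ω ^ u.val * θ j := by
      intro g j
      apply cube_root hG.rel
      rw [← map_pow, hθ j, map_intCast]
    choose uu huu using hex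
    have huniq : ∀ (g : L ≃ₐ[ℚ] L) (j : Fin (s + 1)) (u : ZMod 3), g (θ j) = ω ^ u.val * θ j →
        uu g j = u := by
      intro g j u h
      apply om_zmod_inj hG.rel (hθ0 j)
      rw [← huu g j, h]
    -- criterion for `Fx`
    have hFu : ∀ g : L ≃ₐ[ℚ] L, g ω = ω → (Fx b g ↔
        (∀ j : Fin s, uu g j.castSucc = 0) ∧ uu g (Fin.last s) ≠ 0) := by
      intro g hg
      constructor
      · rintro ⟨h1, h2⟩
        refine ⟨fun j => ?_, fun h0 => ?_⟩
        · apply huniq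
          rw [h1 j _ (hθ _)]
          simp
        · apply h2 _ (hθ _)
          rw [huu, h0]
          simp
      · rintro ⟨h1, h2⟩
        have h3 : ∀ (j : Fin (s + 1)) (ρ : L), ρ ^ 3 = (b j : L) →
            g ρ = ω ^ (uu g j).val * ρ := by
          intro j ρ hρ
          obtain ⟨u, hu⟩ := cube_root hG.rel (θ := θ j) (ρ := ρ) (by rw [hρ, hθ])
          rw [hu, map_mul, map_pow, hg, huu]
          ring
        refine ⟨fun j ρ hρ => ?_, fun ρ hρ h4 => ?_⟩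
        · rw [h3 _ ρ hρ, h1 j]
          simp
        · rw [h3 _ ρ hρ] at h4
          have hρ0 : ρ ≠ 0 := by
            intro h0
            rw [h0] at hρ
            apply hb0 (Fin.last s)
            have h5 : ((b (Fin.last s) : ℤ) : L) = 0 := by rw [← hρ]; norm_num
            exact_mod_cast h5
          apply h2
          apply om_zmod_inj hG.rel hρ0
          rw [h4]
          simp
    have hfib : ∀ w w' : Fin (s + 1) → ZMod 3,
        (univ.filter fun g : L ≃ₐ[ℚ] L => χ g = a ∧ uu g = w).card =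
        (univ.filter fun g : L ≃ₐ[ℚ] L => χ g = a ∧ uu g = w').card := by
      intro w w'
      obtain ⟨z, hzζ, hzρ⟩ := hGKUM (s + 1) b p q p' q' f L ζ ω hSys hG (w' - w)
      obtain ⟨hzω, hχz⟩ := hz1 z hzζ
      have key : ∀ g : L ≃ₐ[ℚ] L, g ω = ω → uu (g * z) = (w' - w) + uu g := by
        intro g hg
        funext j
        apply huniq
        rw [AlgEquiv.mul_apply, hzρ j _ (hθ j), map_mul, map_pow, hg, huu, ← mul_assoc,
          om_add hω3]
        rfl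
      refine Finset.card_bij (fun g _ => g * z) ?_ ?_ ?_
      · intro g hg
        rw [mem_filter] at hg ⊢
        obtain ⟨_, h1, h2⟩ := hg
        refine ⟨mem_univ _, by rw [map_mul, hχz, mul_one, h1], ?_⟩
        rw [key g (hM g (by rw [h1]; exact ha)), h2]
        abel
      · intro g _ g' _ e
        exact mul_right_cancel e
      · intro g hg
        rw [mem_filter] at hg
        obtain ⟨_, h1, h2⟩ := hg
        have h3 : g * z⁻¹ * z = g := inv_mul_cancel_right g z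
        have h4 : χ (g * z⁻¹) = a := by rw [map_mul, map_inv, hχz, inv_one, mul_one, h1]
        refine ⟨g * z⁻¹, ?_, h3⟩
        rw [mem_filter]
        refine ⟨mem_univ _, h4, ?_⟩
        have h5 := key (g * z⁻¹) (hM _ (by rw [h4]; exact ha))
        rw [h3, h2] at h5
        funext j
        have h7 := congrFun h5 j
        simp only [Pi.add_apply, Pi.sub_apply] at h7
        linear_combination (-1 : ZMod 3) * h7
    have hsub : ∀ (D : Finset (Fin (s + 1) → ZMod 3)),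
        (univ.filter fun g : L ≃ₐ[ℚ] L => χ g = a ∧ uu g ∈ D).card =
        D.card * (univ.filter fun g : L ≃ₐ[ℚ] L => χ g = a ∧ uu g = 0).card := by
      intro D
      rw [Finset.card_eq_sum_card_fiberwise (f := uu) (t := D)]
      · rw [← smul_eq_mul, ← Finset.sum_const]
        refine Finset.sum_congr rfl fun w hw => ?_
        rw [← hfib w 0, Finset.filter_filter]
        congr 1
        apply Finset.filter_congr
        intro g _
        constructor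
        · rintro ⟨⟨h1, _⟩, h2⟩
          exact ⟨h1, h2⟩
        · rintro ⟨h1, h2⟩
          exact ⟨⟨h1, by rw [h2]; exact hw⟩, h2⟩
      · intro g hg
        have h1 := (mem_filter.1 (Finset.mem_coe.1 hg)).2.2
        exact h1
    have h1 : Nat.card {g : L ≃ₐ[ℚ] L // χ g = a} =
        3 ^ (s + 1) * (univ.filter fun g : L ≃ₐ[ℚ] L => χ g = a ∧ uu g = 0).card := by
      rw [Nat.card_eq_fintype_card, Fintype.card_subtype]
      have h2 := hsub univ
      simp only [mem_univ, and_true] at h2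
      rw [h2, Finset.card_univ, Fintype.card_fun, ZMod.card, Fintype.card_fin]
    have h2 : Nat.card {g : L ≃ₐ[ℚ] L // χ g = a ∧ Fx b g} =
        2 * (univ.filter fun g : L ≃ₐ[ℚ] L => χ g = a ∧ uu g = 0).card := by
      rw [Nat.card_eq_fintype_card, Fintype.card_subtype]
      have h2 := hsub (univ.filter fun w : Fin (s + 1) → ZMod 3 =>
        (∀ j : Fin s, w j.castSucc = 0) ∧ w (Fin.last s) ≠ 0)
      rw [card_good] at h2
      rw [← h2]
      congr 1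
      apply Finset.filter_congr
      intro g _
      constructor
      · rintro ⟨h3, h4⟩
        refine ⟨h3, mem_filter.2 ⟨mem_univ _, ?_⟩⟩
        exact (hFu g (hM g (by rw [h3]; exact ha))).1 h4
      · rintro ⟨h3, h4⟩
        exact ⟨h3, (hFu g (hM g (by rw [h3]; exact ha))).2 (mem_filter.1 h4).2⟩
    rw [h1, h2]
    ring
  · intro Q hQ hQp hN₀ P g hP hQP hst
    have hfin := GFR.quo_finite hQp hP hQP
    obtain ⟨k, hk, hfr⟩ := GFR.exists_frob_gen (R := ℤ) P g hst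
    have hχk := hχF Q hQ hQp P (g ^ k) hP hQP hfr
    refine ⟨k, hk, hχk, fun hQ3 ρ hρ => ?_⟩
    obtain ⟨h1, h2⟩ := hFr Q hQp hN₀ hQ3 P hP hQP (g ^ k) hfr ρ hρ
    have hM1 : M1 (χ (g ^ k)) := by
      unfold M1
      rw [hχk, ZMod.coe_unitOfCoprime, ZMod.val_natCast, Nat.mod_mod_of_dvd _ h3f]
      exact hQ3
    refine ⟨h1, fun hF j i hji r hr => ?_⟩
    exact h2 hF j i hji r _ hr (ht (g ^ k) j i hji (hM _ hM1) hF)

end Pool.Agent.PTN


end

section

/-!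
# The law of the ranks of prime twists: the distribution of the rank for a given pattern,
`q = 1 (mod 3)`, upper bound
-/

set_option autoImplicit false

open NumberField IsDedekindDomain Finset
open scoped nonZeroDivisors Pointwise

namespace Pool.Agent.PTN

open Pool.Agent.Lib_helper18 Pool.Agent.Lib_helper18.Eis Pool.Agent.Lib_helper84.Cub
open Pool.Agent.PT Pool.Agent.PTE Pool.Agent.PT3 Pool.Agent.PTL

namespace DLU

theorem BB_eq (h n E q : ℕ) : BB h n E q = ((3 ^ h * n : ℕ) : ℤ) * (q : ℤ) ^ E := by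
  unfold BB
  push_cast
  rfl

theorem cons_eq {m : ℕ} {x y : Fin (m + 1) → ZMod 3} (h0 : x 0 = y 0)
    (h1 : ∀ i : Fin m, x i.succ = y i.succ) : x = y := by
  funext i
  exact Fin.cases h0 h1 i

theorem neg_of_two {x y : ZMod 3} (h : 2 * x = y) : x = -y := by
  revert x y
  decide

end DLU

open _root_.Pool.Agent.PTN.DLU in
/-- PTN_DLU: the distribution of the rank for a given pattern, upper bound. -/
theorem DLU_thm (hESYT : ESYT) (hDCOU : DCOU) (hCLSC : CLSC) (hCLSCS : CLSCS)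
    (hNBKU : Stmt_NBKU) (hBDU : Stmt_BDU) (hTENT : TENT) (hNADU : Stmt_NADU)
    (hSPLT : SPLT) : Stmt_DLU := by
  intro h n m k π p e r f w0 c d v hNF hh hHB δ hδ t
  obtain ⟨hv, hspan, hδ'⟩ := hHB
  obtain ⟨s, τ, b, X, Y, hs, hAdN, hV, hind, h3, hLam, hρ⟩ := hδ' δ hδ
  obtain ⟨P, Q, P', Q', hSys, hSw⟩ := hESYT h n m k π p e r f w0 c (s + 1) b hNF
    (fun i => (hAdN i).1) hV hind h3
  have hn : 0 < n := FINAS.pos_of_nf hNF
  have hN0 : 0 < 3 ^ h * n := Nat.mul_pos (pow_pos (by norm_num) _) hn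
  have hb : ∀ i, b i ≠ 0 := fun i => (hAdN i).1.ne
  have hD : ∀ j i : Fin s, ∃ f₀ : ℕ, 0 < f₀ ∧ ∀ F : ℕ, 0 < F → f₀ ∣ F →
      ∃ (C : ZMod 3) (Φ : (ZMod F)ˣ →* Multiplicative (ZMod 3)) (N₀ : ℕ), j ≠ i →
        ∀ (E q : ℕ) (hQ : q.Coprime F) (ρ : PP), (E = 1 ∨ E = 2) → q.Prime → N₀ < q →
          q % 3 = 1 → (q : Eis) = ρ.1 * conj ρ.1 →
          AG (BB h n E q) (b j.castSucc) → AG (BB h n E q) (b i.castSucc) →
          ∀ t : ℤ, (q : ℤ) ∣ t ^ 3 - b j.castSucc →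
          OT (BB h n E q) (b j.castSucc) (X j) (Y j) (b i.castSucc) (rs P j i) (rs Q j i)
            (rs P' j i) (rs Q' j i) = C + E * ((Φ (ZMod.unitOfCoprime q hQ)).toAdd +
              TAUVS ρ.1 (rs P j i) (rs Q j i) (rs P' j i) (rs Q' j i) t) := by
    intro j i
    by_cases hji : j = i
    · exact ⟨1, one_pos, fun F _ _ => ⟨0, 1, 0, fun h => absurd hji h⟩⟩
    · obtain ⟨f₀, hf₀, hf⟩ := hDCOU (3 ^ h * n) (b j.castSucc) (X j) (Y j) (b i.castSucc)
        (rs P j i) (rs Q j i) (rs P' j i) (rs Q' j i) hN0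
        (hSys.sol j.castSucc i.castSucc fun h => hji (Fin.castSucc_injective _ h)) (hb _) (hb _)
      refine ⟨f₀, hf₀, fun F hF hd => ?_⟩
      obtain ⟨C, Φ, N₀, h'⟩ := hf F hF hd
      refine ⟨C, Φ, N₀, fun _ E q hQ ρ hE hqp hqN hq3 hqρ hAj hAi t ht => ?_⟩
      rw [BB_eq] at hAj hAi ⊢
      exact h' E q hQ ρ hE hqp hqN hq3 hqρ hAj hAi t ht
  choose f₀ hf₀ hD1 using hD
  obtain ⟨F, hF, h9, hpF, hfF⟩ : ∃ F : ℕ, 0 < F ∧ 9 ∣ F ∧ (∀ i, p i ∣ F) ∧ ∀ j i, f₀ j i ∣ F := by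
    refine ⟨9 * (∏ i, p i) * ∏ j, ∏ i, f₀ j i, ?_, ?_, ?_, ?_⟩
    · have h1 : 0 < ∏ i, p i := Finset.prod_pos fun i _ => (hNF.pp i).pos
      have h2 : 0 < ∏ j, ∏ i, f₀ j i :=
        Finset.prod_pos fun j _ => Finset.prod_pos fun i _ => hf₀ j i
      positivity
    · exact Dvd.dvd.mul_right (Dvd.intro _ rfl) _
    · intro i
      exact Dvd.dvd.mul_right (Dvd.dvd.mul_left (Finset.dvd_prod_of_mem p (mem_univ i)) _) _
    · intro j i
      exact Dvd.dvd.mul_left ((Finset.dvd_prod_of_mem (fun i => f₀ j i) (mem_univ i)).trans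
        (Finset.dvd_prod_of_mem (fun j => ∏ i, f₀ j i) (mem_univ j))) _
  choose C Φ N₀ hD2 using fun j i => hD1 j i F hF (hfF j i)
  obtain ⟨κ, hκ, hcount⟩ := hCLSC m π p hNF.pp hNF.p1 hNF.pπ hNF.pinj F hF h9 hpF
  have hcount' := hCLSCS F m κ hF h9 hcount
  obtain ⟨K, hK⟩ := hBDU s b P Q P' Q' F m (t - vN h n π p e r w0 c) κ (Fin.cons w0 c) C
    (FINAS.assemble Φ) hSys hF h9 hcount'
  have hN : ∀ j i, N₀ j i ≤ ∑ j, ∑ i, N₀ j i := by
    intro j i
    exact (Finset.single_le_sum (f := fun i => N₀ j i) (fun i _ => Nat.zero_le _)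
      (mem_univ i)).trans (Finset.single_le_sum (f := fun j => ∑ i, N₀ j i)
        (fun j _ => Nat.zero_le _) (mem_univ j))
  obtain ⟨M, hM⟩ : ∃ M, M = n + F + 3 + ∑ j, ∑ i, N₀ j i := ⟨_, rfl⟩
  -- the matrix
  have hmat : ∀ (E q : ℕ), (E = 1 ∨ E = 2) → q.Prime → M < q →
      q ∈ WR h n π w0 c 1 E t ∩ Pat v δ →
      ∃ (hQ : q.Coprime F) (ρ : PP), (q : Eis) = ρ.1 * conj ρ.1 ∧
        (∀ j : Fin s, sym ρ.1 (b j.castSucc : Eis) = 0) ∧ sym ρ.1 (b (Fin.last s) : Eis) ≠ 0 ∧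
        ∀ τ' : Fin s → Fin s → ZMod 3,
        (∀ j i, j ≠ i → ∀ r : ℤ, (q : ℤ) ∣ r ^ 3 - b j.castSucc →
          τ' j i = TAUVS ρ.1 (rs P j i) (rs Q j i) (rs P' j i) (rs Q' j i) r) →
        t - vN h n π p e r w0 c ≤ s - (alt fun j i =>
          C j i + E * ((Φ j i (ZMod.unitOfCoprime q hQ)).toAdd + τ' j i)).rank := by
    intro E q hE hq hqM ⟨⟨hq3, hIn, hrr⟩, ρ, hqρ, hpat⟩
    have hqn : ¬ q ∣ n := fun h => by
      have := Nat.le_of_dvd hn h
      omega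
    have hQ : q.Coprime F := by
      rw [Nat.Prime.coprime_iff_not_dvd hq]
      intro h
      have := Nat.le_of_dvd hF h
      omega
    have h3q : 3 < q := by omega
    have hρn : ¬ ρ.1 ∣ (n : Eis) := by
      intro h2
      have h4 := (hSPLT.2 q ρ hq hq3 hqρ).2.2.2.1 (n : ℤ)
      rw [Int.cast_natCast] at h4
      exact hqn (Int.natCast_dvd_natCast.1 (h4.1 h2))
    obtain ⟨hiff, hsp⟩ := hρ ρ hρn
    obtain ⟨hb0, hb1⟩ := hiff.2 hpat
    obtain ⟨hBG, hTy, hA⟩ := hNADU h n m k π p e r f w0 c E q ρ hNF hh hE hq hq3 hIn hqn hqρ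
    have hAG : ∀ i : Fin s, AG (BB h n E q) (b i.castSucc) := fun i =>
      ((hA _ (hAdN i.castSucc).1.supp).1 ⟨hAdN i.castSucc, hb0 i⟩).1
    have hgen := hNBKU h n m k π p e r f w0 c s τ b X Y P Q P' Q' E q ρ hNF hh hAdN hSys hSw hLam
      (hsp hb0 hb1) hE hq h3q hq3 hIn hqn hqρ hb0 hb1
    have hle := CubeRank.rr_le hgen
    have hskew := (hTENT s τ (rv b) X Y _ _ _ _ _ (ECLU.sysG_restr hSys) (ECLU.sw_restr hSw) hBG
      hAG (hLam _ hTy) (fun i => hb _)).1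
    refine ⟨hQ, ρ, hqρ, hb0, hb1, fun τ' hτ' => ?_⟩
    have hent : ∀ j i, j ≠ i →
        MaT (rv b) X Y (rs P) (rs Q) (rs P') (rs Q') (BB h n E q) j i =
        C j i + E * ((Φ j i (ZMod.unitOfCoprime q hQ)).toAdd + τ' j i) := by
      intro j i hji
      have hqb : ¬ (q : ℤ) ∣ b j.castSucc := fun h => by
        rcases (hq.dvd_mul).1 ((hAdN j.castSucc).1.supp q hq h) with h1 | h1
        · have := Nat.le_of_dvd (by norm_num) h1
          omega
        · exact hqn h1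
      obtain ⟨x, hx⟩ := (hSPLT.2 q ρ hq hq3 hqρ).2.2.2.2.2 _ hqb (hb0 j)
      unfold MaT
      rw [if_neg hji]
      refine (hD2 j i hji E q hQ ρ hE hq (by have := hN j i; omega) hq3 hqρ (hAG j) (hAG i) x
        hx).trans ?_
      rw [← hτ' j i hji x hx]
    have hMa : MaT (rv b) X Y (rs P) (rs Q) (rs P') (rs Q') (BB h n E q) = alt fun j i =>
        C j i + E * ((Φ j i (ZMod.unitOfCoprime q hQ)).toAdd + τ' j i) := by
      ext j i
      rw [alt]
      rcases lt_trichotomy j i with h | h | h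
      · rw [if_pos h, hent j i h.ne]
      · subst h
        rw [if_neg (lt_irrefl _), if_neg (lt_irrefl _), MaT, if_pos rfl]
      · rw [if_neg (not_lt.2 h.le), if_pos h, hskew j i, hent i j h.ne]
    rw [← hMa]
    omega
  refine ⟨K + 2 * (2 * ((Finset.range (M + 1)).card : ℝ)), fun σ h1 hσ2 => ?_⟩
  have hB := hK σ h1 hσ2
  have hsub1 : ∀ q : ℕ, q.Prime → M < q → q ∈ WR h n π w0 c 1 1 t ∩ Pat v δ →
      q ∈ SPU b P Q P' Q' (t - vN h n π p e r w0 c) κ (Fin.cons w0 c) C (FINAS.assemble Φ) := by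
    intro q hq hqM hqW
    obtain ⟨hQ, ρ, hqρ, hb0, hb1, hm⟩ := hmat 1 q (Or.inl rfl) hq hqM hqW
    obtain ⟨⟨hq3, ⟨hw, hc⟩, -⟩, -⟩ := hqW
    refine ⟨hQ, ρ, ⟨hq3, ?_, hqρ, hb0, hb1⟩, fun τ' hτ' => ?_⟩
    · rw [hκ]
      refine cons_eq ?_ fun i => ?_
      · rw [Fin.cons_zero, Fin.cons_zero]
        rw [pow_one] at hw
        exact hw
      · rw [Fin.cons_succ, Fin.cons_succ, ← hc i, Nat.cast_one, one_mul]
    · have e1 : (fun j i => C j i + ((1 : ℕ) : ZMod 3) *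
          ((Φ j i (ZMod.unitOfCoprime q hQ)).toAdd + τ' j i)) =
          C + (FINAS.assemble Φ (ZMod.unitOfCoprime q hQ)).toAdd + τ' := by
        funext j i
        show C j i + ((1 : ℕ) : ZMod 3) * ((Φ j i (ZMod.unitOfCoprime q hQ)).toAdd + τ' j i) =
          C j i + (Φ j i (ZMod.unitOfCoprime q hQ)).toAdd + τ' j i
        rw [Nat.cast_one]
        ring
      rw [← e1]
      exact hm τ' hτ'
  have hsub2 : ∀ q : ℕ, q.Prime → M < q → q ∈ WR h n π w0 c 1 2 t ∩ Pat v δ →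
      q ∈ SMU b P Q P' Q' (t - vN h n π p e r w0 c) κ (Fin.cons w0 c) C (FINAS.assemble Φ) := by
    intro q hq hqM hqW
    obtain ⟨hQ, ρ, hqρ, hb0, hb1, hm⟩ := hmat 2 q (Or.inr rfl) hq hqM hqW
    obtain ⟨⟨hq3, ⟨hw, hc⟩, -⟩, -⟩ := hqW
    refine ⟨hQ, ρ, ⟨hq3, ?_, hqρ, hb0, hb1⟩, fun τ' hτ' => ?_⟩
    · rw [hκ]
      refine cons_eq ?_ fun i => ?_
      · rw [Fin.cons_zero, Pi.neg_apply, Fin.cons_zero]
        have h3 : ¬ (3 : ℤ) ∣ (q : ℤ) := by omega
        have h4 := sq_mod_three h3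
        have h5 : ((q : ℤ) ^ 2) ^ 2 = (q : ℤ) ^ 2 * (q : ℤ) ^ 2 := by ring
        rw [h5, wt_mul h4 h4] at hw
        exact neg_of_two (by rw [two_mul]; exact hw)
      · rw [Fin.cons_succ, Pi.neg_apply, Fin.cons_succ]
        exact neg_of_two (hc i)
    · have e1 : (fun j i => C j i + ((2 : ℕ) : ZMod 3) *
          ((Φ j i (ZMod.unitOfCoprime q hQ)).toAdd + τ' j i)) =
          C - (FINAS.assemble Φ (ZMod.unitOfCoprime q hQ)).toAdd - τ' := by
        funext j i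
        show C j i + ((2 : ℕ) : ZMod 3) * ((Φ j i (ZMod.unitOfCoprime q hQ)).toAdd + τ' j i) =
          C j i - (Φ j i (ZMod.unitOfCoprime q hQ)).toAdd - τ' j i
        rw [show ((2 : ℕ) : ZMod 3) = -1 from by decide]
        ring
      rw [← e1]
      exact hm τ' hτ'
  have i1 := CL.sm_le_add _ _ M hsub1 h1
  have i2 := CL.sm_le_add _ _ M hsub2 h1
  have e2 : (2 / 3 ^ d * LI (d - 1) (t - vN h n π p e r w0 c) / 3 ^ (m + 1) : ℝ) =
      2 / 3 ^ (s + 1) * ((NK s (t - vN h n π p e r w0 c) : ℝ) /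
        Nat.card (Fin s → Fin s → ZMod 3)) / 3 ^ (m + 1) := by
    subst hs
    rw [LI, Nat.add_sub_cancel]
  rw [e2]
  linarith

end Pool.Agent.PTN


end

section

/-!
# PTN_DLL: the number of the primes of a given pattern, lower bound
-/

set_option autoImplicit false

open NumberField IsDedekindDomain Finset
open scoped nonZeroDivisors Pointwise

namespace Pool.Agent.PTN

open Pool.Agent.Lib_helper18 Pool.Agent.Lib_helper18.Eis Pool.Agent.Lib_helper84.Cub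
open Pool.Agent.PT Pool.Agent.PTE Pool.Agent.PT3 Pool.Agent.PTL

namespace DLL

/-- a number in normal form is positive -/
theorem nf_pos {n m k : ℕ} {π : Fin m → PP} {p e : Fin m → ℕ} {r f : Fin k → ℕ}
    (h : NF n π p e r f) : 0 < n := by
  rw [h.eq]
  exact Nat.mul_pos (Finset.prod_pos fun i _ => pow_pos (h.pp i).pos _)
    (Finset.prod_pos fun j _ => pow_pos (h.rp j).pos _)

theorem neg_cancel3 : ∀ x y : ZMod 3, x = -y → 2 * x = y := by decide

end DLL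

open _root_.Pool.Agent.PTN.DLL in
theorem DLL_thm (hESYT : ESYT) (hCLSC : CLSC) (hCLSCS : CLSCS) (hBDL : Stmt_BDL)
    (hSPLT : SPLT) : Stmt_DLL := by
  intro h n m k π p e r f w0 c d v hNF hh hHB δ hδ
  obtain ⟨-, -, hHB3⟩ := hHB
  obtain ⟨s, τ, b, X, Y, hs, hAdm, hV, hind, h3, -, hρ⟩ := hHB3 δ hδ
  obtain ⟨P, Q, P', Q', hSys, -⟩ := hESYT h n m k π p e r f w0 c (s + 1) b hNF
    (fun i => (hAdm i).1) hV hind h3
  have hn0 := nf_pos hNF
  -- the classes
  set F : ℕ := 9 * ∏ i, p i with hF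
  have hF0 : 0 < F := Nat.mul_pos (by norm_num) (Finset.prod_pos fun i _ => (hNF.pp i).pos)
  have h9 : 9 ∣ F := Dvd.intro _ rfl
  have hpF : ∀ i, p i ∣ F :=
    fun i => Dvd.dvd.mul_left (Finset.dvd_prod_of_mem _ (mem_univ i)) 9
  have h3F : 3 ∣ F := dvd_trans (by norm_num) h9
  obtain ⟨κ, hκ, hM2⟩ := hCLSC m π p hNF.pp hNF.p1 hNF.pπ hNF.pinj F hF0 h9 hpF
  have hM1 := hCLSCS F m κ hF0 h9 hM2
  obtain ⟨K, hK⟩ := hBDL s b P Q P' Q' F m κ (Fin.cons w0 c) hSys hF0 h9 hM1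
  -- the pattern
  have hpat : ∀ (q : ℕ) (hq : q.Coprime F) (ρ : PP) (c' : Fin (m + 1) → ZMod 3), q.Prime → n < q →
      ClQ b κ c' q hq ρ → q ∈ Pat v δ := by
    intro q hq ρ c' hqp hnq hCl
    obtain ⟨h1, -, h2, h4, h5⟩ := hCl
    have hρn : ¬ ρ.1 ∣ (n : Eis) := by
      intro h6
      have h7 := (hSPLT.2 q ρ hqp h1 h2).2.2.2.1 (n : ℤ)
      rw [Int.cast_natCast] at h7
      exact absurd (Nat.le_of_dvd hn0 (Int.natCast_dvd_natCast.1 (h7.1 h6))) (by omega)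
    exact ⟨ρ, h2, ((hρ ρ hρn).1).1 ⟨h4, h5⟩⟩
  have e1 : ∀ q : ℕ, q.Prime → n < q →
      q ∈ {q : ℕ | ∃ (hq : q.Coprime F) (ρ : PP), ClQ b κ (Fin.cons w0 c) q hq ρ} →
      q ∈ WR h n π w0 c 1 1 0 ∩ Pat v δ := by
    rintro q hqp hnq ⟨hq, ρ, hCl⟩
    refine ⟨⟨hCl.1, ?_, Nat.zero_le _⟩, hpat q hq ρ _ hqp hnq hCl⟩
    have h1 := hCl.2.1
    rw [hκ, Fin.cons_inj] at h1
    refine ⟨by rw [pow_one]; exact h1.1, fun i => ?_⟩
    rw [Nat.cast_one, one_mul]
    exact congrFun h1.2 i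
  have e2 : ∀ q : ℕ, q.Prime → n < q →
      q ∈ {q : ℕ | ∃ (hq : q.Coprime F) (ρ : PP), ClQ b κ (-Fin.cons w0 c) q hq ρ} →
      q ∈ WR h n π w0 c 1 2 0 ∩ Pat v δ := by
    rintro q hqp hnq ⟨hq, ρ, hCl⟩
    refine ⟨⟨hCl.1, ?_, Nat.zero_le _⟩, hpat q hq ρ _ hqp hnq hCl⟩
    have h1 := hCl.2.1
    rw [hκ] at h1
    have hq3 : ¬ (3 : ℤ) ∣ (q : ℤ) := by
      intro hd
      have h1 : 3 ∣ q := by exact_mod_cast hd
      have h2 : 3 ∣ q.gcd F := Nat.dvd_gcd h1 h3F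
      rw [hq] at h2
      omega
    refine ⟨?_, fun i => ?_⟩
    · rw [CLT.wt_four hq3]
      apply neg_cancel3
      have h2 := congrFun h1 0
      rw [Fin.cons_zero, Pi.neg_apply, Fin.cons_zero] at h2
      exact h2
    · rw [Nat.cast_ofNat]
      apply neg_cancel3
      have h2 := congrFun h1 i.succ
      rw [Fin.cons_succ, Pi.neg_apply, Fin.cons_succ] at h2
      exact h2
  refine ⟨K + 2 * ((Finset.range (n + 1)).card : ℝ) + 2 * ((Finset.range (n + 1)).card : ℝ),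
    fun σ h1 h2 => ?_⟩
  have a1 := hK σ h1 h2
  have a2 := CL.sm_le_add _ _ n e1 h1
  have a3 := CL.sm_le_add _ _ n e2 h1
  rw [hs] at a1
  linarith

end Pool.Agent.PTN


end

section

set_option autoImplicit false

open NumberField IsDedekindDomain Finset
open scoped nonZeroDivisors Pointwise

namespace Pool.Agent.PTN

open Pool.Agent.Lib_helper18 Pool.Agent.Lib_helper18.Eis Pool.Agent.Lib_helper84.Cub
open Pool.Agent.PT Pool.Agent.PTE Pool.Agent.PT3 Pool.Agent.PTL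

namespace NFE

theorem card_eq {N : ℕ} (hN : 0 < N) (hcf : ∀ p : ℕ, p.Prime → ¬ p ^ 3 ∣ N) (a : ℕ)
    (ha : a ≠ 0) :
    Nat.card {p : ℕ // p.Prime ∧ p % 3 = a ∧
      ¬ 3 ∣ (N / 3 ^ N.factorization 3).factorization p} =
      (N.primeFactors.filter (fun p => p % 3 = a)).card := by
  apply Nat.subtype_card
  intro p
  rw [Finset.mem_filter]
  constructor
  · rintro ⟨hp, hpa⟩
    have hpr := Nat.prime_of_mem_primeFactors hp
    have h3 : p ≠ 3 := by
      rintro rfl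
      exact ha hpa.symm
    refine ⟨hpr, hpa, ?_⟩
    rw [Nat.factorization_ordCompl, Finsupp.erase_ne h3]
    have h1 : 0 < N.factorization p :=
      hpr.factorization_pos_of_dvd hN.ne' (Nat.dvd_of_mem_primeFactors hp)
    have h2 : N.factorization p < 3 := by
      by_contra hc
      exact hcf p hpr ((hpr.pow_dvd_iff_le_factorization hN.ne').2 (not_lt.1 hc))
    omega
  · rintro ⟨hpr, hpa, h⟩
    have h3 : p ≠ 3 := by
      rintro rfl
      exact ha hpa.symm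
    rw [Nat.factorization_ordCompl, Finsupp.erase_ne h3] at h
    refine ⟨?_, hpa⟩
    rw [← Nat.support_factorization, Finsupp.mem_support_iff]
    intro h0
    rw [h0] at h
    exact h (dvd_zero 3)

end NFE

/-- NFE: normal form. -/
theorem NFE_thm (hENF : ENF) : Stmt_NFE := by
  intro N hN hcf
  have h3 : ¬ 3 ∣ N / 3 ^ N.factorization 3 := Nat.not_dvd_ordCompl Nat.prime_three hN.ne'
  have hpos : 0 < N / 3 ^ N.factorization 3 := Nat.ordCompl_pos 3 hN.ne'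
  have hle : N.factorization 3 ≤ 2 := by
    by_contra hc
    exact hcf 3 Nat.prime_three
      ((Nat.prime_three.pow_dvd_iff_le_factorization hN.ne').2 (by omega))
  obtain ⟨n, t, π, p, e, r, f, hn, ht, hNn, hNF, -⟩ := hENF _ hpos h3
  have ht1 : t = 1 := by
    by_contra hc
    obtain ⟨l, hl, hlt⟩ := Nat.exists_prime_and_dvd hc
    apply hcf l hl
    have h1 : l ^ 3 ∣ N / 3 ^ N.factorization 3 := by
      rw [hNn]
      exact (pow_dvd_pow_of_dvd hlt 3).mul_left n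
    exact h1.trans (Nat.ordCompl_dvd N 3)
  rw [ht1, one_pow, mul_one] at hNn
  refine ⟨N.factorization 3, n, _, _, π, p, e, r, f, hNF, hle, rfl, ?_, ?_, ?_⟩
  · rw [← hNn]
    exact (Nat.ordProj_mul_ordCompl_eq_self N 3).symm
  · exact NFE.card_eq hN hcf 1 (by norm_num)
  · exact NFE.card_eq hN hcf 2 (by norm_num)

end Pool.Agent.PTN


end

section

/-!
# NSU1: the average of `3 ^ v` over the classes, `h = 1`
-/

set_option autoImplicit false

open Finset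

namespace Pool.Agent.PTN

namespace NSU1

open Pool.Agent.Lib_helper18 Pool.Agent.Lib_helper18.Eis Pool.Agent.Lib_helper84.Cub
open Pool.Agent.PT Pool.Agent.PTE Pool.Agent.PT3

variable {n m k : ℕ} {π : Fin m → PP} {p e : Fin m → ℕ} {r : Fin k → ℕ}

theorem zero_of_mem {w0 : ZMod 3} {c : Fin m → ZMod 3} {y : Fin (m + 1) → ZMod 3}
    (hy : y ∈ VS 1 n π p e r w0 c) : y 0 = 0 := by
  apply hy.1
  unfold actR
  omega

open Classical in
theorem card_bound (n : ℕ) (π : Fin m → PP) (p e : Fin m → ℕ) (r : Fin k → ℕ)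
    (y : Fin (m + 1) → ZMod 3) :
    (Finset.univ.filter fun x : ZMod 3 × (Fin m → ZMod 3) =>
      y ∈ VS 1 n π p e r x.1 x.2).card ≤
      (if y 0 = 0 then 3 else 0) * ∏ i : Fin m, if y i.succ = 0 then 3 else 1 := by
  by_cases h0 : y 0 = 0
  · refine (NSUM.card_bound 1 n π p e r y).trans (le_of_eq ?_)
    rw [Fin.prod_univ_succ, if_pos h0, if_pos h0]
  · rw [if_neg h0, zero_mul, Nat.le_zero, Finset.card_eq_zero, Finset.filter_eq_empty_iff]
    intro x _ hx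
    exact h0 (zero_of_mem hx)

theorem sum_prod (m : ℕ) :
    ∑ y : Fin (m + 1) → ZMod 3, (if y 0 = 0 then 3 else 0) *
      ∏ i : Fin m, (if y i.succ = 0 then 3 else 1) = 3 * 5 ^ m := by
  have h1 := Finset.prod_univ_sum (fun _ : Fin (m + 1) => (Finset.univ : Finset (ZMod 3)))
    (fun a z => if a = 0 then (if z = 0 then 3 else 0) else (if z = 0 then 3 else 1))
  rw [Fintype.piFinset_univ] at h1
  have h2 : ∀ y : Fin (m + 1) → ZMod 3, (if y 0 = 0 then 3 else 0) *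
      ∏ i : Fin m, (if y i.succ = 0 then 3 else 1) =
      ∏ a : Fin (m + 1), if a = 0 then (if y a = 0 then 3 else 0) else
        (if y a = 0 then 3 else 1) := by
    intro y
    rw [Fin.prod_univ_succ, if_pos rfl]
    congr 1
  rw [Finset.sum_congr rfl fun y _ => h2 y, ← h1, Fin.prod_univ_succ]
  have h3 : ∑ z : ZMod 3, (if z = 0 then 3 else 1) = 5 := by decide
  have h4 : ∑ z : ZMod 3, (if z = 0 then 3 else 0) = 3 := by decide
  simp only [if_true, Fin.succ_ne_zero, if_false, h3, h4, Finset.prod_const, Finset.card_univ,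
    Fintype.card_fin]

end NSU1

open _root_.Pool.Agent.PTN.NSU1

theorem NSU1_thm : Stmt_NSU1 := by
  classical
  intro n m k π p e r f _
  have h1 : ∑ x : ZMod 3 × (Fin m → ZMod 3), 3 ^ vN 1 n π p e r x.1 x.2 =
      ∑ y : Fin (m + 1) → ZMod 3, (Finset.univ.filter fun x : ZMod 3 × (Fin m → ZMod 3) =>
        y ∈ VS 1 n π p e r x.1 x.2).card := by
    rw [Finset.sum_congr rfl fun x _ => NSUM.pow_vN 1 n π p e r x]
    exact Finset.sum_card_bipartiteAbove_eq_sum_card_bipartiteBelow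
      (fun (x : ZMod 3 × (Fin m → ZMod 3)) (y : Fin (m + 1) → ZMod 3) =>
        y ∈ VS 1 n π p e r x.1 x.2)
  rw [h1, ← sum_prod m]
  exact Finset.sum_le_sum fun y _ => NSU1.card_bound n π p e r y

end Pool.Agent.PTN


end
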