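import Mathlib
import Pool.Agent.PTDM.C26
import Pool.Agent.PTDM.C28
import Pool.Agent.PTDM.C32
import Pool.Agent.PTDM.C33
import Pool.Agent.PTDM.C39
import Pool.Agent.PTDM.C41
import Pool.Agent.PTDM.C42
import Pool.Agent.PTDM.C44

/-! Parts: PT.FDX, PT.FinalB, PTN.KEQ, PTN.NKIN, PTN.NPLU -/

section

/-!
# FDX: the class of a point given by a cell decomposition
-/

namespace Pool.Agent.PT

open Pool.Agent.Lib_helper18 Pool.Agent.Lib_helper18.Eis Pool.Agent.Lib_helper84.Cub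

namespace FDX

theorem castne {n : ℤ} (h : n ≠ 0) : (n : Eis) ≠ 0 := by
  intro h1
  apply h
  have := congrArg Eis.re h1
  simpa using this

theorem C9_iff (m : ℤ) : C9 m ↔ (m : ZMod 9) = 1 ∨ (m : ZMod 9) = -1 := by
  have h1 : (m : ZMod 9) = 1 ↔ ((9 : ℕ) : ℤ) ∣ 1 - m := by
    rw [← ZMod.intCast_eq_intCast_iff_dvd_sub]
    simp
  have h2 : (m : ZMod 9) = -1 ↔ ((9 : ℕ) : ℤ) ∣ -1 - m := by
    rw [← ZMod.intCast_eq_intCast_iff_dvd_sub]
    simp
  rw [h1, h2, C9]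
  omega

theorem cube9 : ∀ y : ZMod 9, y ^ 3 = 0 ∨ y ^ 3 = 1 ∨ y ^ 3 = -1 := by decide

theorem three_dvd {x : ℤ} (h : (x : ZMod 9) ^ 3 = 0) : (3 : ℤ) ∣ x := by
  have h1 : ((x ^ 3 : ℤ) : ZMod 9) = 0 := by
    push_cast
    exact h
  rw [ZMod.intCast_zmod_eq_zero_iff_dvd] at h1
  have h2 : (3 : ℤ) ∣ x ^ 3 := (Dvd.intro 3 (by norm_num)).trans h1
  exact Int.prime_three.dvd_of_dvd_pow h2

theorem L0 : ∀ a b c : ZMod 9, a + b + c = 0 → ¬ (a * b * c = 1 ∨ a * b * c = -1) := by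
  intro a b c h
  have hc : c = -a - b := by linear_combination h
  subst hc
  clear h
  revert a b
  decide

theorem L1 : ∀ a b c : ZMod 9, b + c = 0 → (a * b * c = 1 ∨ a * b * c = -1) →
    (a ^ 2 * b = 1 ∨ a ^ 2 * b = -1) := by
  intro a b c h
  have hc : c = -b := by linear_combination h
  subst hc
  clear h
  revert a b
  decide

theorem L2 : ∀ a b c : ZMod 9, a + c = 0 → (a * b * c = 1 ∨ a * b * c = -1) →
    (a ^ 2 * b = 1 ∨ a ^ 2 * b = -1) := by
  intro a b c h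
  have hc : c = -a := by linear_combination h
  subst hc
  clear h
  revert a b
  decide

theorem L3 : ∀ a b c : ZMod 9, a + b = 0 → (a * b * c = 1 ∨ a * b * c = -1) →
    (a ^ 2 * b = 1 ∨ a ^ 2 * b = -1) := by
  intro a b c h
  have hc : b = -a := by linear_combination h
  subst hc
  clear h
  revert a c
  decide

theorem pm_iff {u v : ZMod 9} (h : u = v ∨ u = -v) : (u = 1 ∨ u = -1) ↔ (v = 1 ∨ v = -1) := by
  rcases h with rfl | rfl
  · rfl
  · revert v
    decide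

/-- the computation modulo `9` -/
theorem mod9 (a b c y1 y2 y3 : ZMod 9) (hs : a * y1 ^ 3 + b * y2 ^ 3 + c * y3 ^ 3 = 0)
    (hp : a * b * c = 1 ∨ a * b * c = -1) (h12 : ¬ (y1 ^ 3 = 0 ∧ y2 ^ 3 = 0))
    (h13 : ¬ (y1 ^ 3 = 0 ∧ y3 ^ 3 = 0)) (h23 : ¬ (y2 ^ 3 = 0 ∧ y3 ^ 3 = 0)) :
    a ^ 2 * b = 1 ∨ a ^ 2 * b = -1 := by
  have key : ∀ e1 e2 e3 : ZMod 9, (e1 = 1 ∨ e1 = -1) → (e2 = 1 ∨ e2 = -1) →
      (e3 = 1 ∨ e3 = -1) → (((a * e1) * (b * e2) * (c * e3) = 1 ∨
        (a * e1) * (b * e2) * (c * e3) = -1)) ∧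
      (((a * e1) ^ 2 * (b * e2) = 1 ∨ (a * e1) ^ 2 * (b * e2) = -1) →
        (a ^ 2 * b = 1 ∨ a ^ 2 * b = -1)) := by
    intro e1 e2 e3 h1 h2 h3
    constructor
    · refine (pm_iff ?_).2 hp
      rcases h1 with rfl | rfl <;> rcases h2 with rfl | rfl <;> rcases h3 with rfl | rfl <;>
        ring_nf <;> simp
    · refine (pm_iff ?_).1
      rcases h1 with rfl | rfl <;> rcases h2 with rfl | rfl <;>
        ring_nf <;> simp
  rcases cube9 y1 with h1 | h1
  · rcases cube9 y2 with h2 | h2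
    · exact absurd ⟨h1, h2⟩ h12
    · rcases cube9 y3 with h3 | h3
      · exact absurd ⟨h1, h3⟩ h13
      · obtain ⟨k1, k2⟩ := key 1 (y2 ^ 3) (y3 ^ 3) (Or.inl rfl) h2 h3
        apply k2
        exact L1 _ _ _ (by linear_combination hs - a * h1) k1
  · rcases cube9 y2 with h2 | h2
    · rcases cube9 y3 with h3 | h3
      · exact absurd ⟨h2, h3⟩ h23
      · obtain ⟨k1, k2⟩ := key (y1 ^ 3) 1 (y3 ^ 3) h1 (Or.inl rfl) h3
        apply k2
        exact L2 _ _ _ (by linear_combination hs - b * h2) k1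
    · rcases cube9 y3 with h3 | h3
      · obtain ⟨k1, k2⟩ := key (y1 ^ 3) (y2 ^ 3) 1 h1 h2 (Or.inl rfl)
        apply k2
        exact L3 _ _ _ (by linear_combination hs - c * h3) k1
      · obtain ⟨k1, k2⟩ := key (y1 ^ 3) (y2 ^ 3) (y3 ^ 3) h1 h2 h3
        exact absurd k1 (L0 _ _ _ hs)

variable {π : Eis} {s : Eis → Eis → ZMod 3} {e : ℕ}

theorem s_one (h : LSym π s e) {c : Eis} (hc : c ≠ 0) : s 1 c = 0 := by
  have := h.mul 1 1 c one_ne_zero one_ne_zero hc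
  rw [mul_one] at this
  simpa using this

theorem s_neg (h : LSym π s e) {a c : Eis} (ha : a ≠ 0) (hc : c ≠ 0) : s (-a) c = s a c := by
  have hm : (-1 : Eis) ≠ 0 := neg_ne_zero.2 one_ne_zero
  have h1 := h.mul (-1) (-1) c hm hm hc
  rw [neg_mul_neg, one_mul, s_one h hc] at h1
  have h2 : s (-1) c = 0 := by
    generalize s (-1) c = z at h1
    revert z
    decide
  have h3 := h.mul (-1) a c hm ha hc
  rwa [neg_one_mul, h2, zero_add] at h3

theorem s_neg' (h : LSym π s e) {a c : Eis} (ha : a ≠ 0) (hc : c ≠ 0) : s a (-c) = s a c := by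
  rw [h.skew (-c) a (neg_ne_zero.2 hc) ha, s_neg h hc ha, ← h.skew c a hc ha]

theorem mul_right (h : LSym π s e) {a b c : Eis} (ha : a ≠ 0) (hb : b ≠ 0) (hc : c ≠ 0) :
    s a (b * c) = s a b + s a c := by
  rw [h.skew (b * c) a (mul_ne_zero hb hc) ha, h.mul b c a hb hc ha, h.skew b a hb ha,
    h.skew c a hc ha]
  ring

theorem s_cube (h : LSym π s e) {a c : Eis} (ha : a ≠ 0) (hc : c ≠ 0) : s (a ^ 3) c = 0 := by
  have h1 : a ^ 3 = a * (a * a) := by ring
  rw [h1, h.mul a (a * a) c ha (mul_ne_zero ha ha) hc, h.mul a a c ha ha hc]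
  generalize s a c = z
  revert z
  decide

theorem s_cube' (h : LSym π s e) {a c : Eis} (ha : a ≠ 0) (hc : c ≠ 0) : s c (a ^ 3) = 0 := by
  rw [h.skew (a ^ 3) c (pow_ne_zero _ ha) hc, s_cube h ha hc, neg_zero]

theorem s_self (h : LSym π s e) {a : Eis} (ha : a ≠ 0) : s a a = 0 := by
  have h1 := h.skew a a ha ha
  generalize s a a = z at h1
  revert z
  decide

end FDX

open _root_.Pool.Agent.PT.FDX in
theorem FDX_thm (hSTM : STM) (hSPP : SPP) : FDX := by
  intro B a x hB hx hsum hprod hcop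
  rw [Fin.sum_univ_three] at hsum
  rw [Fin.prod_univ_three] at hprod
  have hB0 := hB.ne
  have ha0 : a 0 ≠ 0 := by
    intro h
    rw [h, zero_mul, zero_mul] at hprod
    exact hB0 hprod.symm
  have ha1 : a 1 ≠ 0 := by
    intro h
    rw [h, mul_zero, zero_mul] at hprod
    exact hB0 hprod.symm
  have ha2 : a 2 ≠ 0 := by
    intro h
    rw [h, mul_zero] at hprod
    exact hB0 hprod.symm
  have heq : a 0 ^ 2 * a 1 * ((a 0 * x 0) ^ 3 + a 0 ^ 2 * a 1 * (x 1) ^ 3)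
      = B * (- a 0 * x 2) ^ 3 := by
    rw [← hprod]
    linear_combination (a 0 ^ 4 * a 1) * hsum
  have hc0 : - a 0 * x 2 ≠ 0 := mul_ne_zero (neg_ne_zero.2 ha0) (hx 2)
  have hz0 : a 0 ^ 2 * a 1 ≠ 0 := mul_ne_zero (pow_ne_zero _ ha0) ha1
  have hX0 : a 0 * x 0 ≠ 0 := mul_ne_zero ha0 (hx 0)
  have hn0 : (a 0 * x 0) ^ 3 + a 0 ^ 2 * a 1 * (x 1) ^ 3 ≠ 0 := by
    intro h
    rw [h, mul_zero] at heq
    exact (mul_ne_zero hB0 (pow_ne_zero _ hc0)) heq.symm
  refine ⟨⟨hX0, hx 1, _, hc0, heq⟩, ⟨hz0, ?_, ?_, ?_, ?_⟩⟩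
  · intro h3
    apply hB.three
    rw [← hprod]
    rcases Int.prime_three.dvd_or_dvd h3 with h | h
    · exact ((Int.prime_three.dvd_of_dvd_pow h).mul_right _).mul_right _
    · exact (h.mul_left _).mul_right _
  · intro ρ
    have hs : LSym ρ.1 (tm ρ.1) 1 := hSTM ρ.1 ρ.2.1 (hSPP.2.2.2.1 ρ).1
    set z : Eis := ((a 0 ^ 2 * a 1 : ℤ) : Eis) with hz
    set n0 : Eis := (((a 0 * x 0) ^ 3 + a 0 ^ 2 * a 1 * (x 1) ^ 3 : ℤ) : Eis) with hn
    have z0 : z ≠ 0 := castne hz0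
    have n00 : n0 ≠ 0 := castne hn0
    have cX : ((a 0 * x 0 : ℤ) : Eis) ≠ 0 := castne hX0
    have cY : ((x 1 : ℤ) : Eis) ≠ 0 := castne (hx 1)
    have cC : ((- a 0 * x 2 : ℤ) : Eis) ≠ 0 := castne hc0
    have cB : (B : Eis) ≠ 0 := castne hB0
    have e1 : ((a 0 * x 0 : ℤ) : Eis) ^ 3 + z * (x 1 : Eis) ^ 3 + (-n0) = 0 := by
      rw [hz, hn]
      push_cast
      ring
    have h1 := hs.stein _ _ _ (pow_ne_zero 3 cX) (mul_ne_zero z0 (pow_ne_zero 3 cY))
      (neg_ne_zero.2 n00) e1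
    rw [s_cube hs cX (mul_ne_zero z0 (pow_ne_zero 3 cY)), s_neg' hs
      (mul_ne_zero z0 (pow_ne_zero 3 cY)) n00, hs.mul _ _ _ z0 (pow_ne_zero 3 cY) n00,
      s_cube hs cY n00, s_cube' hs cX (neg_ne_zero.2 n00)] at h1
    have e2 : z * n0 = (B : Eis) * ((- a 0 * x 2 : ℤ) : Eis) ^ 3 := by
      rw [hz, hn, ← Int.cast_mul, heq]
      push_cast
      ring
    have h2 : tm ρ.1 z (z * n0) = tm ρ.1 z ((B : Eis) * ((- a 0 * x 2 : ℤ) : Eis) ^ 3) := by
      rw [e2]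
    rw [mul_right hs z0 z0 n00, s_self hs z0, mul_right hs z0 cB (pow_ne_zero 3 cC),
      s_cube' hs cC z0] at h2
    linear_combination h1 - h2
  · intro ρ hρ hd
    apply hρ
    rw [← hprod]
    push_cast at hd ⊢
    rcases ρ.2.1.dvd_or_dvd hd with h | h
    · exact ((ρ.2.1.dvd_of_dvd_pow h).mul_right _).mul_right _
    · exact (h.mul_left _).mul_right _
  · intro h9
    have hnd : ∀ i j : Fin 3, i ≠ j → ¬ ((x i : ZMod 9) ^ 3 = 0 ∧ (x j : ZMod 9) ^ 3 = 0) := by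
      rintro i j hij ⟨h1, h2⟩
      have h3 := (three_dvd h1).mul_left (a i)
      have h4 := (three_dvd h2).mul_left (a j)
      have h5 := (hcop i j hij).isUnit_of_dvd' h3 h4
      exact Int.prime_three.not_isUnit h5
    rw [C9_iff] at h9 ⊢
    rw [← hprod] at h9
    push_cast at h9 ⊢
    refine mod9 (a 0) (a 1) (a 2) (x 0) (x 1) (x 2) ?_ h9 (hnd 0 1 (by decide))
      (hnd 0 2 (by decide)) (hnd 1 2 (by decide))
    have := congrArg (Int.cast : ℤ → ZMod 9) hsum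
    push_cast at this
    exact this

end Pool.Agent.PT


end

section

/-!
# Prime twists: assembly of theorem B
-/

namespace Pool.Agent.PT.FinalB

open Pool.Agent.PT Pool.Agent.PT.Final

theorem fBSYS : BSYS := BSYS_thm fEVEC fESYS fSPP

theorem fFDX : FDX := FDX_thm fSTM fSPP

theorem fBKER : BKER := BKER_thm fEADM fFDX fTEND fSPP

theorem fALTK : ALTK := ALTK_thm

theorem fEQD : EQD := EQD_thm

theorem fBDENS : BDENS := BDENS_thm fGALD fALTK fEQD fDIR

theorem fBFIN : BFIN := BFIN_thm fSPP fBSYS fDCONST fCLSC fBKER fBDENS fTEND fEADM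

/-- The groups are finitely generated. -/
theorem fin_gen {k : ℕ} (hk : 1 ≤ k) {p e : Fin k → ℕ} (hp : ∀ i, (p i).Prime)
    (h3 : ∀ i, p i % 3 = 2) (hinj : Function.Injective p) (he : ∀ i, e i = 1 ∨ e i = 2)
    {q : ℕ} (hq : q.Prime) (hq3 : q % 3 = 2) (h9 : q % 9 ≠ 8 ∨ ∃ i, p i % 9 ≠ 8)
    (hne : ∀ i, p i ≠ q) :
    CubeRank.GenBy ((∏ i, (p i : ℤ) ^ e i) * q)
      (CubeRank.rr ((∏ i, (p i : ℤ) ^ e i) * q)) := by
  have h := CubeRank.gen_no (q := (Fin.cons q p : Fin (k + 1) → ℕ))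
    (fun i => Fin.cases (by simpa using hq) (fun i => by simpa using hp i) i)
    (fun i => Fin.cases (by simpa using hq3) (fun i => by simpa using h3 i) i)
    (by
      rw [Fin.cons_injective_iff]
      exact ⟨fun ⟨i, hi⟩ => hne i hi, hinj⟩)
    (by
      rcases h9 with h9 | ⟨i, h9⟩
      · exact ⟨0, by simpa using h9⟩
      · exact ⟨i.succ, by simpa using h9⟩)
    (by omega) (e := (Fin.cons 1 e : Fin (k + 1) → ℕ))
    (fun i => Fin.cases (by simp) (fun i => by simpa using he i) i)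
  rw [Fin.prod_univ_succ] at h
  simp only [Fin.cons_zero, Fin.cons_succ, pow_one] at h
  rw [mul_comm] at h
  exact CubeRank.gen_rr h

end Pool.Agent.PT.FinalB


end

section

/-!
# PTN_KEQ: the points of `y² = x³ - 432 A²` over `K = Q(w)`
-/

set_option autoImplicit false

namespace Pool.Agent.PTN

open Pool.Agent.Lib_helper18 Pool.Agent.Lib_helper18.Eis Pool.Agent.Lib_helper84.Cub
open Pool.Agent.PT WeierstrassCurve.Affine

namespace KEQ

/-- the base changed curve -/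
abbrev WK (K : Type) [Field K] [CharZero K] (A : ℤ) : WeierstrassCurve.Affine K :=
  WeierstrassCurve.Affine.baseChange (CubeRank.EA A).toAffine K

theorem wk_a1 (K : Type) [Field K] [CharZero K] (A : ℤ) : (WK K A).a₁ = 0 :=
  map_zero (algebraMap ℚ K)

theorem wk_a2 (K : Type) [Field K] [CharZero K] (A : ℤ) : (WK K A).a₂ = 0 :=
  map_zero (algebraMap ℚ K)

theorem wk_a3 (K : Type) [Field K] [CharZero K] (A : ℤ) : (WK K A).a₃ = 0 :=
  map_zero (algebraMap ℚ K)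

theorem wk_a4 (K : Type) [Field K] [CharZero K] (A : ℤ) : (WK K A).a₄ = 0 :=
  map_zero (algebraMap ℚ K)

theorem wk_a6 (K : Type) [Field K] [CharZero K] (A : ℤ) : (WK K A).a₆ = -432 * (A : K) ^ 2 := by
  have h : (WK K A).a₆ = algebraMap ℚ K (-432 * (A : ℚ) ^ 2) := rfl
  rw [h]
  simp

theorem ns_iff (K : Type) [Field K] [CharZero K] (A : ℤ) (hA : A ≠ 0) (x y : K) :
    (WeierstrassCurve.Affine.baseChange (CubeRank.EA A).toAffine K).Nonsingular x y ↔
      y ^ 2 = x ^ 3 - 432 * (A : K) ^ 2 := by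
  have hAK : (A : K) ≠ 0 := by exact_mod_cast hA
  change (WK K A).Nonsingular x y ↔ y ^ 2 = x ^ 3 - 432 * (A : K) ^ 2
  have h1 : (WK K A).Equation x y ↔ y ^ 2 = x ^ 3 - 432 * (A : K) ^ 2 := by
    rw [WeierstrassCurve.Affine.equation_iff, wk_a1, wk_a2, wk_a3, wk_a4, wk_a6]
    constructor
    · intro h; linear_combination h
    · intro h; linear_combination h
  rw [WeierstrassCurve.Affine.nonsingular_iff, h1, wk_a1, wk_a2, wk_a3, wk_a4]
  constructor
  · exact fun h => h.1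
  · intro h
    refine ⟨h, ?_⟩
    by_contra hcon
    push Not at hcon
    obtain ⟨e1, e2⟩ := hcon
    have hx : x = 0 := by
      have : 3 * x ^ 2 = 0 := by linear_combination -e1
      rcases mul_eq_zero.mp this with h3 | h3
      · norm_num at h3
      · exact pow_eq_zero_iff (two_ne_zero) |>.mp h3
    have hy : y = 0 := by
      have : 2 * y = 0 := by linear_combination e2
      rcases mul_eq_zero.mp this with h3 | h3
      · norm_num at h3
      · exact h3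
    rw [hx, hy] at h
    have : 432 * (A : K) ^ 2 = 0 := by linear_combination h
    rcases mul_eq_zero.mp this with h3 | h3
    · norm_num at h3
    · exact hAK (pow_eq_zero_iff (two_ne_zero) |>.mp h3)

end KEQ

theorem KEQ_thm : Stmt_KEQ := by
  intro K _ _ _ ι c A hK hA
  have hAK : (A : K) ≠ 0 := by exact_mod_cast hA
  have hrel : (ι w) ^ 2 + ι w + 1 = 0 := by
    have := congrArg ι w_rel
    simpa using this
  have hne : ι w ≠ 1 := by
    intro h
    rw [h] at hrel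
    norm_num at hrel
  have hd : (ι w - ι w ^ 2) ^ 2 = -3 := by
    linear_combination (ι w ^ 2 - 3 * ι w + 3) * hrel
  have hd0 : ι w - ι w ^ 2 ≠ 0 := by
    intro h
    rw [h] at hd
    norm_num at hd
  have hcw : c (ι w) = ι w ^ 2 := by
    rw [hK.conj, conj_w, map_pow]
  have hcube : ι w ^ 3 = 1 := by
    linear_combination (ι w - 1) * hrel
  refine ⟨fun x y => KEQ.ns_iff K A hA x y, ?_, ?_, ?_, hrel, hne⟩
  · unfold sD
    rw [mul_pow, hd]; ring
  · unfold sD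
    refine mul_ne_zero (mul_ne_zero (by norm_num) hAK) hd0
  · unfold sD
    rw [map_mul, map_mul, map_sub, map_pow, hcw, map_intCast, map_ofNat]
    linear_combination (-12 * (A : K) * ι w) * hcube

end Pool.Agent.PTN


end

section

/-!
# NKIN: the classes of the rational points are in the minus part
-/

set_option autoImplicit false

open NumberField IsDedekindDomain Finset
open scoped nonZeroDivisors Pointwise

namespace Pool.Agent.PTN

open Pool.Agent.Lib_helper18 Pool.Agent.Lib_helper18.Eis Pool.Agent.Lib_helper84.Cub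
open Pool.Agent.PT Pool.Agent.PTE Pool.Agent.PT3

namespace NKIN

theorem cast0 : ¬ (((0 : ℕ) : ZMod 3) = 1) := by decide

theorem cast2 : ¬ (((2 : ℕ) : ZMod 3) = 1) := by decide

theorem three_dvd {B : ℤ} (hB : B ≠ 0) (h27 : ¬ (27 : ℤ) ∣ B) (h : lv B = 1) :
    (3 : ℤ) ∣ B ∧ ¬ (9 : ℤ) ∣ B := by
  have hp : Fact (Nat.Prime 3) := ⟨Nat.prime_three⟩
  have h1 : ∀ k : ℕ, ((3 : ℕ) : ℤ) ^ k ∣ B ↔ k ≤ padicValInt 3 B := by
    intro k
    rw [padicValInt_dvd_iff]
    constructor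
    · rintro (h | h)
      · exact absurd h hB
      · exact h
    · exact Or.inr
  have h3 : ¬ 3 ≤ padicValInt 3 B := by
    rw [← h1 3]
    norm_num
    exact h27
  have h4 : padicValInt 3 B = 1 := by
    have h5 : ((padicValInt 3 B : ℕ) : ZMod 3) = 1 := h
    have h6 : padicValInt 3 B = 0 ∨ padicValInt 3 B = 1 ∨ padicValInt 3 B = 2 := by omega
    rcases h6 with h6 | h6 | h6
    · exfalso
      rw [h6] at h5
      exact cast0 h5
    · exact h6
    · exfalso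
      rw [h6] at h5
      exact cast2 h5
  constructor
  · have := (h1 1).2 (by omega)
    simpa using this
  · intro h9
    have := (h1 2).1 (by norm_num; exact h9)
    omega

end NKIN

open PT.FDK in
theorem NKIN_thm (hSTM : STM) (hSPP : SPP) (hSTAR : STAR) (hSLC : SLC) (_hSSL : SSL)
    (_hSCJ : SCJ) (_hLCL : LCL) : Stmt_NKIN := by
  intro B x y z hB h27B hxy hz hxyz
  have hB0 : (B : Eis) ≠ 0 := Pool.Agent.PT.FDK.cast_ne hB
  have hz0 : (z : Eis) ≠ 0 := Pool.Agent.PT.FDK.cast_ne hz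
  obtain ⟨F, hF⟩ : ∃ F : ℕ → Eis, F = fun i => (x : Eis) + w ^ i * 1 * y := ⟨_, rfl⟩
  have hF0 : F 0 = (x : Eis) + y := by rw [hF]; ring
  have hF1 : F 1 = (x : Eis) + w * y := by rw [hF]; ring
  have hF2 : F 2 = (x : Eis) + w ^ 2 * y := by rw [hF]; ring
  have hcast : (x : Eis) ^ 3 + (y : Eis) ^ 3 = B * (z : Eis) ^ 3 := by
    have := congrArg (fun t : ℤ => (t : Eis)) hxyz
    push_cast at this
    exact this
  have hprod : F 0 * F 1 * F 2 = (B : Eis) * (z : Eis) ^ 3 := by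
    rw [← hcast, hF0, hF1, hF2]
    linear_combination ((x : Eis) ^ 2 * y + x * y ^ 2) * w_rel + ((x : Eis) * y ^ 2 + y ^ 3) * w_cube
  have hne : F 0 * F 1 * F 2 ≠ 0 := by
    rw [hprod]
    exact mul_ne_zero hB0 (pow_ne_zero _ hz0)
  have h0 : F 0 ≠ 0 := left_ne_zero_of_mul (left_ne_zero_of_mul hne)
  have h1 : F 1 ≠ 0 := right_ne_zero_of_mul (left_ne_zero_of_mul hne)
  have h2 : F 2 ≠ 0 := right_ne_zero_of_mul hne
  have hc1 : conj (F 1) = F 2 := by
    rw [hF1, hF2, map_add, map_mul, conj_intCast, conj_intCast, conj_w]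
  have hc2 : conj (F 2) = F 1 := by rw [← hc1, conj_conj]
  have hw0 : w ≠ 0 := fun h => by
    have := w_cube
    rw [h] at this
    norm_num at this
  have hFall : ∀ i, F i ≠ 0 := by
    intro i
    have hi : F i = F (i % 3) := by
      have : w ^ i = w ^ (i % 3) := by
        conv_lhs => rw [← Nat.div_add_mod i 3, pow_add, pow_mul, w_cube, one_pow, one_mul]
      rw [hF]
      simp only [this]
    rw [hi]
    have h3 : i % 3 < 3 := Nat.mod_lt _ (by norm_num)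
    interval_cases (i % 3)
    · exact h0
    · exact h1
    · exact h2
  -- the element
  obtain ⟨ζ, hζ⟩ : ∃ ζ : Eis, ζ = w ^ 2 * (F 1 * F 2 ^ 2) := ⟨_, rfl⟩
  have hζ0 : ζ ≠ 0 := by
    rw [hζ]
    exact mul_ne_zero (pow_ne_zero _ hw0) (mul_ne_zero h1 (pow_ne_zero _ h2))
  have hζn : ζ * conj ζ = (F 1 * F 2) ^ 3 := by
    rw [hζ, map_mul, map_mul, map_pow, map_pow, hc1, hc2, conj_w]
    linear_combination ((F 1 * F 2) ^ 3 * (w ^ 3 + 1)) * w_cube
  have htm : ∀ π : PP, tm π.1 ζ (B : Eis) = 0 := by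
    intro π
    have hs := hSTM π.1 π.2.1 (hSPP.2.2.2.1 π).1
    obtain ⟨hst, -⟩ := hSTAR π.1 (tm π.1) 1 hs x y 0 0 1 F (fun _ => 0 + w ^ 0 * 1 * 0)
      (fun i => (x : Eis) * 0 - w ^ i * 0 * y) (fun i => by rw [hF]) (fun i => by ring)
      (fun i => by ring) one_ne_zero hFall
    have hz3 : (z : Eis) ^ 3 ≠ 0 := pow_ne_zero _ hz0
    have hr : ∀ a : Eis, a ≠ 0 → tm π.1 a (F 0 * F 1 * F 2) = tm π.1 a (B : Eis) := by
      intro a ha
      rw [hprod, right_mul hs ha hB0 hz3, pow_succ, right_mul hs ha (pow_ne_zero _ hz0) hz0,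
        pow_two, right_mul hs ha hz0 hz0]
      have h3 : (3 : ZMod 3) = 0 := rfl
      linear_combination (tm π.1 a z) * h3
    rw [hr _ h1, hr _ h2, hr _ hw0] at hst
    rw [hζ, hs.mul _ _ _ (pow_ne_zero _ hw0) (mul_ne_zero h1 (pow_ne_zero _ h2)) hB0,
      hs.mul _ _ _ h1 (pow_ne_zero _ h2) hB0, pow_two, pow_two, hs.mul _ _ _ hw0 hw0 hB0,
      hs.mul _ _ _ h2 h2 hB0]
    have h3 : (3 : ZMod 3) = 0 := rfl
    linear_combination hst + (tm π.1 w B + tm π.1 (F 2) B) * h3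
  have hV : ∀ π : PP, ¬ π.1 ∣ (B : Eis) → 3 ∣ V π.1 ζ := by
    intro π hπB
    have hπ := π.2.1
    have h3 : ¬ π.1 ∣ 3 := (hSPP.2.2.2.1 π).1
    have hsum : V π.1 (F 0) + V π.1 (F 1) + V π.1 (F 2) = 3 * V π.1 (z : Eis) := by
      rw [← V_mul hπ h0 h1, ← V_mul hπ (mul_ne_zero h0 h1) h2, hprod,
        V_mul_not_dvd hπ hπB (pow_ne_zero _ hz0), V_pow hπ hz0]
    have hd1 : (1 - w) ∣ (3 : Eis) := ⟨_, three_fac⟩
    have h01 : ¬ (π.1 ∣ F 0 ∧ π.1 ∣ F 1) := by
      rintro ⟨ha, hb⟩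
      refine not_dvd_of hπ h3 hxy hd1 ?_ ?_
      · have : (1 - w) * (x : Eis) = F 1 - w * F 0 := by rw [hF0, hF1]; ring
        rw [this]
        exact dvd_sub hb (Dvd.dvd.mul_left ha _)
      · have : (1 - w) * (y : Eis) = F 0 - F 1 := by rw [hF0, hF1]; ring
        rw [this]
        exact dvd_sub ha hb
    have h12 : ¬ (π.1 ∣ F 1 ∧ π.1 ∣ F 2) := by
      rintro ⟨ha, hb⟩
      refine not_dvd_of hπ h3 hxy hd1 ?_ ?_
      · have : (1 - w) * (x : Eis) = F 2 - w * F 1 := by rw [hF1, hF2]; ring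
        rw [this]
        exact dvd_sub hb (Dvd.dvd.mul_left ha _)
      · have : (1 - w) * (y : Eis) = w ^ 2 * (F 1 - F 2) := by
          rw [hF1, hF2]
          linear_combination (-(1 - w) * (y : Eis)) * w_cube
        rw [this]
        exact Dvd.dvd.mul_left (dvd_sub ha hb) _
    have hd2 : (1 - w ^ 2) ∣ (3 : Eis) := ⟨1 - w, by rw [three_fac]; ring⟩
    have h02 : ¬ (π.1 ∣ F 0 ∧ π.1 ∣ F 2) := by
      rintro ⟨ha, hb⟩
      refine not_dvd_of hπ h3 hxy hd2 ?_ ?_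
      · have : (1 - w ^ 2) * (x : Eis) = F 2 - w ^ 2 * F 0 := by rw [hF0, hF2]; ring
        rw [this]
        exact dvd_sub hb (Dvd.dvd.mul_left ha _)
      · have : (1 - w ^ 2) * (y : Eis) = F 0 - F 2 := by rw [hF0, hF2]; ring
        rw [this]
        exact dvd_sub ha hb
    have hz0' : V π.1 (F 0) = 0 ∨ V π.1 (F 1) = 0 := by
      by_contra hcon
      push Not at hcon
      apply h01
      constructor
      · by_contra h
        exact hcon.1 (V_eq_zero h)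
      · by_contra h
        exact hcon.2 (V_eq_zero h)
    have hz1' : V π.1 (F 1) = 0 ∨ V π.1 (F 2) = 0 := by
      by_contra hcon
      push Not at hcon
      apply h12
      constructor
      · by_contra h
        exact hcon.1 (V_eq_zero h)
      · by_contra h
        exact hcon.2 (V_eq_zero h)
    have hz2' : V π.1 (F 0) = 0 ∨ V π.1 (F 2) = 0 := by
      by_contra hcon
      push Not at hcon
      apply h02
      constructor
      · by_contra h
        exact hcon.1 (V_eq_zero h)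
      · by_contra h
        exact hcon.2 (V_eq_zero h)
    have hw : ¬ π.1 ∣ w ^ 2 := by
      intro h
      apply hπ.not_isUnit
      apply isUnit_of_dvd_unit h
      exact (IsUnit.of_mul_eq_one (w ^ 2) (by rw [← pow_succ', w_cube])).pow 2
    rw [hζ, V_mul_not_dvd hπ hw (mul_ne_zero h1 (pow_ne_zero _ h2)), V_mul hπ h1 (pow_ne_zero _ h2),
      V_pow hπ h2]
    omega
  have key : SelM B ζ := by
    refine ⟨hζ0, ⟨F 1 * F 2, hζn⟩, htm, hV, fun hl => ?_⟩
    obtain ⟨h3B, h9B⟩ := NKIN.three_dvd hB h27B hl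
    obtain ⟨h27, hy3⟩ := FDKT.dvd27 h3B h9B hxy hxyz
    rw [hζ, hF1, hF2]
    exact ⟨FDKT.wild hSLC h27 hy3 3 FDKT.three_ne, FDKT.wild hSLC h27 hy3 4 FDKT.four_ne⟩
  rw [hζ, hF1, hF2] at key
  exact key

end Pool.Agent.PTN


end

section

/-!
# NPLU: the class of a point of the isogenous curve (every `n`)
-/

set_option autoImplicit false

namespace Pool.Agent.PTN

open Pool.Agent.Lib_helper18 Pool.Agent.Lib_helper18.Eis Pool.Agent.Lib_helper84.Cub
open Pool.Agent.PT Pool.Agent.PTE Pool.Agent.PT3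

namespace NPLU

open Pool.Agent.PT.FD2 (s_cube s_cube' s_self mul_right s_neg)
open Pool.Agent.PT.FDC (CF exists_cf cf_unique)
open Pool.Agent.PT3.FD2T (wild0 split9)

theorem cf_one : CF 1 := fun _ hp h =>
  hp.not_isUnit (isUnit_of_dvd_one ((dvd_pow_self _ (by norm_num)).trans h))

theorem cf_prime_pow {p : ℕ} (hp : p.Prime) {e : ℕ} (he : e ≤ 2) : CF ((p : ℤ) ^ e) := by
  intro ρ hρ h
  have hp' : Prime (p : ℤ) := Nat.prime_iff_prime_int.1 hp
  have h1 : ρ ∣ (p : ℤ) := hρ.dvd_of_dvd_pow ((dvd_pow_self ρ (by norm_num)).trans h)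
  have h2 : Associated ρ (p : ℤ) := (hρ.dvd_prime_iff_associated hp').1 h1
  have h3 : (p : ℤ) ^ 3 ∣ (p : ℤ) ^ e := ((h2.pow_pow (n := 3)).symm.dvd).trans h
  have h4 : 3 ≤ e := (pow_dvd_pow_iff hp'.ne_zero hp'.not_isUnit).1 h3
  omega

theorem cf_prod {ι : Type} (s : Finset ι) (f : ι → ℤ) (h : ∀ i ∈ s, CF (f i))
    (hc : ∀ i ∈ s, ∀ j ∈ s, i ≠ j → IsCoprime (f i) (f j)) : CF (∏ i ∈ s, f i) := by
  classical
  induction s using Finset.induction_on with
  | empty => simpa using cf_one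
  | insert a s ha ih =>
    rw [Finset.prod_insert ha]
    refine FDC.CF.mul (h a (Finset.mem_insert_self a s))
      (ih (fun i hi => h i (Finset.mem_insert_of_mem hi))
        (fun i hi j hj => hc i (Finset.mem_insert_of_mem hi) j (Finset.mem_insert_of_mem hj))) ?_
    refine IsCoprime.prod_right fun i hi => hc a (Finset.mem_insert_self a s) i
      (Finset.mem_insert_of_mem hi) ?_
    rintro rfl
    exact ha hi

theorem cop {p q : ℕ} (hp : p.Prime) (hq : q.Prime) (h : p ≠ q) (e f : ℕ) :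
    IsCoprime ((p : ℤ) ^ e) ((q : ℤ) ^ f) := by
  have h1 : Nat.Coprime p q := (Nat.coprime_primes hp hq).2 h
  exact (Nat.isCoprime_iff_coprime.2 h1).pow

theorem cf_B {h n m k : ℕ} {π : Fin m → PP} {p e : Fin m → ℕ} {r f : Fin k → ℕ} {E q : ℕ}
    (hN : NF n π p e r f) (hh : h ≤ 2) (hE : E = 1 ∨ E = 2) (hq : q.Prime) (hq3 : q ≠ 3)
    (hqn : ¬ q ∣ n) : CF (BB h n E q) := by
  have hn : (n : ℤ) = (∏ i, (p i : ℤ) ^ e i) * ∏ j, (r j : ℤ) ^ f j := by
    rw [hN.eq]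
    push_cast
    rfl
  have hpr : ∀ i j, p i ≠ r j := fun i j h => by
    have h1 := hN.p1 i
    have h2 := hN.r2 j
    rw [h] at h1
    omega
  have h3p : ∀ i, 3 ≠ p i := fun i h => by
    have h1 := hN.p1 i
    rw [← h] at h1
    omega
  have h3r : ∀ i, 3 ≠ r i := fun i h => by
    have h1 := hN.r2 i
    rw [← h] at h1
    omega
  have hcn : CF (n : ℤ) := by
    rw [hn]
    refine FDC.CF.mul (cf_prod _ _ (fun i _ => cf_prime_pow (hN.pp i) ?_) fun i _ j _ hij =>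
      cop (hN.pp i) (hN.pp j) (fun h => hij (hN.pinj h)) _ _)
      (cf_prod _ _ (fun i _ => cf_prime_pow (hN.rp i) ?_) fun i _ j _ hij =>
      cop (hN.rp i) (hN.rp j) (fun h => hij (hN.rinj h)) _ _) ?_
    · rcases hN.pe i with h | h <;> omega
    · rcases hN.rf i with h | h <;> omega
    · exact IsCoprime.prod_left fun i _ => IsCoprime.prod_right fun j _ =>
        cop (hN.pp i) (hN.rp j) (hpr i j) _ _
  have h3n : IsCoprime ((3 : ℤ) ^ h) (n : ℤ) := by
    rw [hn]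
    refine IsCoprime.mul_right (IsCoprime.prod_right fun i _ => ?_)
      (IsCoprime.prod_right fun i _ => ?_)
    · exact_mod_cast cop Nat.prime_three (hN.pp i) (h3p i) h (e i)
    · exact_mod_cast cop Nat.prime_three (hN.rp i) (h3r i) h (f i)
  have hqn' : IsCoprime (n : ℤ) ((q : ℤ) ^ E) := by
    have h1 : Nat.Coprime q n := (Nat.Prime.coprime_iff_not_dvd hq).2 hqn
    exact ((Nat.isCoprime_iff_coprime.2 h1).symm).pow_right
  unfold BB
  refine FDC.CF.mul (FDC.CF.mul ?_ hcn h3n) (cf_prime_pow hq ?_) (IsCoprime.mul_left ?_ hqn')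
  · exact_mod_cast cf_prime_pow Nat.prime_three hh
  · rcases hE with h | h <;> omega
  · exact_mod_cast cop Nat.prime_three hq (Ne.symm hq3) h E

/-- splitting into cells -/
theorem cells {B m : ℤ} {A : Fin 3 → ℤ} (hB : CF B) (hA : ∀ k, A k ≠ 0)
    (hprod : A 0 * A 1 * A 2 = B * m ^ 3) (hcop : ∀ i j, i ≠ j → IsCoprime (A i) (A j)) :
    ∃ a x : Fin 3 → ℤ, (∀ k, A k = a k * x k ^ 3) ∧ a 0 * a 1 * a 2 = B := by
  choose a x hax hcf using fun k => exists_cf (A k) (hA k)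
  have hx0 : ∀ k, x k ≠ 0 := by
    intro k h
    apply hA k
    rw [hax k, h]; ring
  have hm0 : m ≠ 0 := by
    rintro rfl
    have : A 0 * A 1 * A 2 = 0 := by rw [hprod]; ring
    exact mul_ne_zero (mul_ne_zero (hA 0) (hA 1)) (hA 2) this
  have hca : ∀ i j, i ≠ j → IsCoprime (a i) (a j) := by
    intro i j hij
    have h := hcop i j hij
    rw [hax i, hax j] at h
    exact h.of_mul_left_left.of_mul_right_left
  have hP : CF (a 0 * a 1 * a 2) := FDC.CF.mul
    (FDC.CF.mul (hcf 0) (hcf 1) (hca 0 1 (by decide))) (hcf 2)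
    (IsCoprime.mul_left (hca 0 2 (by decide)) (hca 1 2 (by decide)))
  have hu := cf_unique hB hP hm0
    (mul_ne_zero (mul_ne_zero (hx0 0) (hx0 1)) (hx0 2)) (by
      rw [← hprod, hax 0, hax 1, hax 2]; ring)
  rcases hu with hu | hu
  · exact ⟨a, x, hax, hu⟩
  · exact ⟨fun k => -a k, fun k => -x k, fun k => by rw [hax k]; ring,
      by linear_combination -hu⟩

theorem wt_zero {x : ℤ} (h3 : ¬ (3 : ℤ) ∣ x) : wt (x ^ 2) = 0 ↔ C9 x := by
  have h : x % 9 = 1 ∨ x % 9 = 2 ∨ x % 9 = 4 ∨ x % 9 = 5 ∨ x % 9 = 7 ∨ x % 9 = 8 := by omega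
  have e : wt (x ^ 2) = wt ((x % 9) ^ 2) := by
    refine FDC.wt_congr ?_
    rw [pow_two, pow_two, Int.mul_emod]
  rw [e, C9]
  rcases h with h | h | h | h | h | h <;> rw [h] <;> decide

/-- the main part -/
theorem main (hSTM : STM) (hSPP : SPP) (hLCL : LCL) {h n E q : ℕ} (hq : q.Prime)
    (hB : CF (BB h n E q)) (hB0 : BB h n E q ≠ 0)
    {a0 a1 a2 x0 x1 x2 : ℤ} (hx0 : x0 ≠ 0) (hx1 : x1 ≠ 0) (hx2 : x2 ≠ 0)
    (hs : a0 * x0 ^ 3 + a1 * x1 ^ 3 + a2 * x2 ^ 3 = 0) (hp : a0 * a1 * a2 = BB h n E q)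
    (hc : IsCoprime (a0 * x0 ^ 3) (a1 * x1 ^ 3)) (hc02 : IsCoprime (a0 * x0 ^ 3) (a2 * x2 ^ 3))
    (hc12 : IsCoprime (a1 * x1 ^ 3) (a2 * x2 ^ 3))
    (hq0 : ¬ (q : ℤ) ∣ a0) (hq1 : ¬ (q : ℤ) ∣ a1) :
    Pt (BB h n E q) (a0 ^ 2 * a1) (a0 * x0) x1 ∧ AG (BB h n E q) (a0 ^ 2 * a1) ∧
      Loc (BB h n E q) (a0 ^ 2 * a1) ∧
      ∀ l : ℕ, l.Prime → (l : ℤ) ∣ a0 ^ 2 * a1 → l ∣ 3 * n := by
  have hBB : BB h n E q = (3 : ℤ) ^ h * n * (q : ℤ) ^ E := rfl
  set B : ℤ := BB h n E q with hBd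
  have h27 : ¬ (27 : ℤ) ∣ B := fun h => hB 3 Int.prime_three (by norm_num; exact h)
  have ca : IsCoprime a0 a1 := hc.of_mul_left_left.of_mul_right_left
  have ca02 : IsCoprime a0 a2 := hc02.of_mul_left_left.of_mul_right_left
  have ca12 : IsCoprime a1 a2 := hc12.of_mul_left_left.of_mul_right_left
  have ha0 : a0 ≠ 0 := by
    rintro rfl
    exact hB0 (by rw [← hp]; ring)
  have ha1 : a1 ≠ 0 := by
    rintro rfl
    exact hB0 (by rw [← hp]; ring)
  have ha2 : a2 ≠ 0 := by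
    rintro rfl
    exact hB0 (by rw [← hp]; ring)
  have hz0 : a0 ^ 2 * a1 ≠ 0 := mul_ne_zero (pow_ne_zero 2 ha0) ha1
  have heq : a0 ^ 2 * a1 * ((a0 * x0) ^ 3 + a0 ^ 2 * a1 * x1 ^ 3) = B * (-a0 * x2) ^ 3 := by
    rw [← hp]
    linear_combination a0 ^ 4 * a1 * hs
  have hc0 : -a0 * x2 ≠ 0 := mul_ne_zero (neg_ne_zero.2 ha0) hx2
  refine ⟨⟨mul_ne_zero ha0 hx0, hx1, -a0 * x2, hc0, heq⟩, ⟨hz0, ?_, ?_⟩, ⟨?_, ?_⟩, ?_⟩
  · intro π
    have hs := hSTM π.1 π.2.1 (hSPP.2.2.2.1 π).1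
    set z : Eis := ((a0 ^ 2 * a1 : ℤ) : Eis) with hz
    set n0 : ℤ := (a0 * x0) ^ 3 + a0 ^ 2 * a1 * x1 ^ 3 with hn0
    have hn0' : n0 ≠ 0 := by
      intro h
      rw [h, mul_zero] at heq
      exact mul_ne_zero hB0 (pow_ne_zero 3 hc0) heq.symm
    have hzne : z ≠ 0 := FD2.cast_ne hz0
    have hBne : (B : Eis) ≠ 0 := FD2.cast_ne hB0
    have hcne : ((-a0 * x2 : ℤ) : Eis) ≠ 0 := FD2.cast_ne hc0
    have hnne : (n0 : Eis) ≠ 0 := FD2.cast_ne hn0'
    have hXne : ((a0 * x0 : ℤ) : Eis) ≠ 0 := FD2.cast_ne (mul_ne_zero ha0 hx0)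
    have hYne : (x1 : Eis) ≠ 0 := FD2.cast_ne hx1
    have e1 : z * (n0 : Eis) = (B : Eis) * ((-a0 * x2 : ℤ) : Eis) ^ 3 := by
      have := congrArg (fun m : ℤ => (m : Eis)) heq
      push_cast at this ⊢
      rw [hz]
      push_cast
      exact this
    have e2 : tm π.1 z (B : Eis) = tm π.1 z (z * (n0 : Eis)) := by
      rw [e1, mul_right hs hzne hBne (pow_ne_zero 3 hcne), s_cube' hs hzne hcne, add_zero]
    rw [e2, mul_right hs hzne hzne hnne, s_self hs hzne, zero_add]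
    have e3 : ((a0 * x0 : ℤ) : Eis) ^ 3 + z * (x1 : Eis) ^ 3 + -(n0 : Eis) = 0 := by
      rw [hz, hn0]
      push_cast
      ring
    have e4 := hs.stein _ _ _ (pow_ne_zero 3 hXne) (mul_ne_zero hzne (pow_ne_zero 3 hYne))
      (neg_ne_zero.2 hnne) e3
    rw [s_cube hs hXne (mul_ne_zero hzne (pow_ne_zero 3 hYne)),
      s_cube' hs (neg_ne_zero.2 hnne) hXne, zero_add, add_zero,
      s_neg hs (mul_ne_zero hzne (pow_ne_zero 3 hYne)) hnne,
      hs.mul _ _ _ hzne (pow_ne_zero 3 hYne) hnne, s_cube hs hYne hnne, add_zero] at e4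
    exact e4
  · intro π hπ h
    apply hπ
    have e1 : (B : Eis) = (a0 : Eis) * a1 * a2 := by
      rw [← hp]
      push_cast
      ring
    have e2 : ((a0 ^ 2 * a1 : ℤ) : Eis) = (a0 : Eis) ^ 2 * a1 := by
      push_cast
      ring
    rw [e2] at h
    rw [e1]
    rcases π.2.1.dvd_or_dvd h with h | h
    · exact ((π.2.1.dvd_of_dvd_pow h).mul_right _).mul_right _
    · exact (h.mul_left _).mul_right _
  · intro hlv
    obtain ⟨-, hmul, -, hpr, -⟩ := hLCL
    have m1 := hmul a0 a1 ha0 ha1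
    have m2 := hmul (a0 * a1) a2 (mul_ne_zero ha0 ha1) ha2
    have m3 := hmul a0 a0 ha0 ha0
    have m4 := hmul (a0 ^ 2) a1 (pow_ne_zero 2 ha0) ha1
    rw [← pow_two] at m3
    rw [hp, m1.1, m1.2] at m2
    rw [m3.1, m3.2] at m4
    have h9 : (9 : ℤ) ∣ B := by
      have hv1 : padicValInt 3 B < 3 := by
        by_contra hcon
        have : ((3 : ℕ) : ℤ) ^ 3 ∣ B := (padicValInt_dvd_iff 3 B).2 (Or.inr (by omega))
        exact h27 (by simpa using this)
      have hv2 : padicValInt 3 B = 2 := by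
        unfold lv at hlv
        generalize padicValInt 3 B = v at hlv hv1
        interval_cases v
        · exact absurd hlv (by decide)
        · exact absurd hlv (by decide)
        · rfl
      have : ((3 : ℕ) : ℤ) ^ 2 ∣ B := (padicValInt_dvd_iff 2 B).2 (Or.inr hv2.ge)
      simpa using this
    have h3d : (3 : ℤ) ∣ a0 ∨ (3 : ℤ) ∣ a1 ∨ (3 : ℤ) ∣ a2 := by
      have h3B : (3 : ℤ) ∣ a0 * a1 * a2 := by
        rw [hp]
        exact (Dvd.intro 3 (by norm_num)).trans h9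
      rcases Int.prime_three.dvd_or_dvd h3B with h | h
      · rcases Int.prime_three.dvd_or_dvd h with h | h
        · exact Or.inl h
        · exact Or.inr (Or.inl h)
      · exact Or.inr (Or.inr h)
    rw [m4.1, m4.2]
    rcases h3d with h3 | h3 | h3
    · obtain ⟨n1, n2, n3, n4⟩ := split9 hp ca ca02 h9 h27 h3
      have w := wild0 a1 a2 a0 n1 n3 n4 _ x1 x2 x0 le_rfl hx1 (by linear_combination hs) n2
      obtain ⟨v1, u1⟩ := hpr a1 n1
      obtain ⟨v2, u2⟩ := hpr a2 n2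
      rw [v1, v2, hlv] at m2
      rw [m2.2, u2, ← w, ← u1, v1]
      have v0 : lv a0 = 2 := by
        have := m2.1
        linear_combination -this
      rw [v0]
      generalize lw a0 = s
      generalize lw a1 = t
      revert s t
      decide
    · obtain ⟨n1, n2, n3, n4⟩ := split9 (a0 := a1) (a1 := a0) (a2 := a2)
        (by rw [← hp]; ring) ca.symm ca12 h9 h27 h3
      have w := wild0 a0 a2 a1 n1 n3 n4 _ x0 x2 x1 le_rfl hx0 (by linear_combination hs) n2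
      obtain ⟨v1, u1⟩ := hpr a0 n1
      obtain ⟨v2, u2⟩ := hpr a2 n2
      rw [v1, v2, hlv] at m2
      rw [m2.2, u2, ← w, ← u1, v1]
      have v0 : lv a1 = 2 := by
        have := m2.1
        linear_combination -this
      rw [v0]
      generalize lw a0 = s
      generalize lw a1 = t
      revert s t
      decide
    · obtain ⟨n1, n2, n3, n4⟩ := split9 (a0 := a2) (a1 := a0) (a2 := a1)
        (by rw [← hp]; ring) ca02.symm ca12.symm h9 h27 h3
      have w := wild0 a0 a1 a2 n1 n3 n4 _ x0 x1 x2 le_rfl hx0 hs n2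
      obtain ⟨v1, u1⟩ := hpr a0 n1
      obtain ⟨v2, u2⟩ := hpr a1 n2
      rw [u2, ← w, ← u1, v1, v2]
      generalize lw a0 = s
      generalize lw B = t
      revert s t
      decide
  · intro hlv
    obtain ⟨-, -, -, hpr, -⟩ := hLCL
    have h3B : ¬ (3 : ℤ) ∣ B := by
      intro h3
      have hv1 : padicValInt 3 B < 3 := by
        by_contra hcon
        have : ((3 : ℕ) : ℤ) ^ 3 ∣ B := (padicValInt_dvd_iff 3 B).2 (Or.inr (by omega))
        exact h27 (by simpa using this)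
      have hv0 : 1 ≤ padicValInt 3 B := by
        have := (padicValInt_dvd_iff (p := 3) 1 B).1 (by simpa using h3)
        exact this.resolve_left hB0
      unfold lv at hlv
      generalize padicValInt 3 B = v at hlv hv1 hv0
      interval_cases v
      · exact absurd hlv (by decide)
      · exact absurd hlv (by decide)
    have h3z : ¬ (3 : ℤ) ∣ a0 ^ 2 * a1 := by
      intro h3
      apply h3B
      rw [← hp]
      rcases Int.prime_three.dvd_or_dvd h3 with h | h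
      · exact ((Int.prime_three.dvd_of_dvd_pow h).mul_right _).mul_right _
      · exact (h.mul_left _).mul_right _
    refine ⟨(hpr _ h3z).1, fun hlw => ?_⟩
    rw [(hpr _ h3B).2, wt_zero h3B] at hlw
    rw [(hpr _ h3z).2, wt_zero h3z]
    have hnd : ∀ a b x y : ℤ, IsCoprime (a * x ^ 3) (b * y ^ 3) →
        ¬ ((x : ZMod 9) ^ 3 = 0 ∧ (y : ZMod 9) ^ 3 = 0) := by
      rintro a b x y hxy ⟨h1, h2⟩
      have h3 : (3 : ℤ) ∣ a * x ^ 3 :=
        ((FDX.three_dvd h1).trans (dvd_pow_self _ (by norm_num))).mul_left a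
      have h4 : (3 : ℤ) ∣ b * y ^ 3 :=
        ((FDX.three_dvd h2).trans (dvd_pow_self _ (by norm_num))).mul_left b
      exact Int.prime_three.not_isUnit (hxy.isUnit_of_dvd' h3 h4)
    rw [FDX.C9_iff] at hlw ⊢
    rw [← hp] at hlw
    push_cast at hlw ⊢
    refine FDX.mod9 a0 a1 a2 x0 x1 x2 ?_ hlw (hnd _ _ _ _ hc) (hnd _ _ _ _ hc02)
      (hnd _ _ _ _ hc12)
    have := congrArg (Int.cast : ℤ → ZMod 9) hs
    push_cast at this
    exact this
  · intro l hl h
    have hl' : Prime (l : ℤ) := Nat.prime_iff_prime_int.1 hl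
    have h1 : (l : ℤ) ∣ a0 ∨ (l : ℤ) ∣ a1 := by
      rcases hl'.dvd_or_dvd h with h | h
      · exact Or.inl (hl'.dvd_of_dvd_pow h)
      · exact Or.inr h
    have h3 : (l : ℤ) ∣ B := by
      rw [← hp]
      rcases h1 with h1 | h1
      · exact (h1.mul_right _).mul_right _
      · exact (h1.mul_left _).mul_right _
    rw [hBB] at h3
    rcases hl'.dvd_or_dvd h3 with h4 | h4
    · rcases hl'.dvd_or_dvd h4 with h5 | h5
      · have h6 : (l : ℤ) ∣ 3 := hl'.dvd_of_dvd_pow h5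
        have h7 : l ∣ 3 := by exact_mod_cast h6
        exact h7.mul_right _
      · have h7 : l ∣ n := by exact_mod_cast h5
        exact h7.mul_left _
    · exfalso
      have h5 : l ∣ q := by
        have := hl'.dvd_of_dvd_pow h4
        exact_mod_cast this
      have h6 : l = q := (Nat.prime_dvd_prime_iff_eq hl hq).1 h5
      rw [h6] at h1
      exact h1.elim hq0 hq1

end NPLU

open _root_.Pool.Agent.PTN.NPLU in
/-- NPLU: the class of a point of the isogenous curve. -/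
theorem NPLU_thm (hSTM : STM) (hSPP : SPP) (hLCL : LCL) : Stmt_NPLU := by
  intro h n m k π p e r f E q A m' hN hh hE hq hq3 hqn hA hsum hprod hcop
  have hCF : FDC.CF (BB h n E q) := cf_B hN hh hE hq hq3 hqn
  have hm0 : m' ≠ 0 := by
    rintro rfl
    have : A 0 * A 1 * A 2 = 0 := by rw [hprod]; ring
    exact mul_ne_zero (mul_ne_zero (hA 0) (hA 1)) (hA 2) this
  have hB0 : BB h n E q ≠ 0 := by
    intro h0
    have : A 0 * A 1 * A 2 = 0 := by rw [hprod, h0, zero_mul]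
    exact mul_ne_zero (mul_ne_zero (hA 0) (hA 1)) (hA 2) this
  obtain ⟨a, x, hax, hpa⟩ := cells hCF hA hprod hcop
  have hx0 : ∀ k, x k ≠ 0 := by
    intro k h
    apply hA k
    rw [hax k, h]; ring
  have hc' : ∀ i j, i ≠ j → IsCoprime (a i * x i ^ 3) (a j * x j ^ 3) := fun i j hij => by
    rw [← hax i, ← hax j]
    exact hcop i j hij
  have hs : a 0 * x 0 ^ 3 + a 1 * x 1 ^ 3 + a 2 * x 2 ^ 3 = 0 := by
    rw [← hax, ← hax, ← hax]
    exact hsum
  have hq' : Prime (q : ℤ) := Nat.prime_iff_prime_int.1 hq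
  have hqd : (q : ℤ) ∣ a 0 * a 1 * a 2 := by
    rw [hpa]
    have hE0 : E ≠ 0 := by rcases hE with h | h <;> omega
    exact (dvd_pow_self _ hE0).mul_left _
  have hnot : ∀ i j, i ≠ j → (q : ℤ) ∣ a i → ¬ (q : ℤ) ∣ a j := fun i j hij h1 h2 =>
    hq'.not_isUnit ((hc' i j hij).isUnit_of_dvd' (h1.mul_right _) (h2.mul_right _))
  have hk : (q : ℤ) ∣ a 0 ∨ (q : ℤ) ∣ a 1 ∨ (q : ℤ) ∣ a 2 := by
    rcases hq'.dvd_or_dvd hqd with h | h
    · rcases hq'.dvd_or_dvd h with h | h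
      · exact Or.inl h
      · exact Or.inr (Or.inl h)
    · exact Or.inr (Or.inr h)
  rcases hk with hk | hk | hk
  · obtain ⟨r1, r2, r3, r4⟩ := main hSTM hSPP hLCL (a0 := a 1) (a1 := a 2) (a2 := a 0) hq hCF hB0
      (hx0 1) (hx0 2) (hx0 0)
      (by linear_combination hs) (by linear_combination hpa) (hc' 1 2 (by decide))
      (hc' 1 0 (by decide)) (hc' 2 0 (by decide)) (hnot 0 1 (by decide) hk)
      (hnot 0 2 (by decide) hk)
    refine ⟨a 1 ^ 2 * a 2, a 1 * x 1, x 2, x 1 ^ 2 * x 2 * A 0, m', 1,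
      mul_ne_zero (mul_ne_zero (pow_ne_zero 2 (hx0 1)) (hx0 2)) (hA 0), hm0, ?_, r1, r2, r3, r4⟩
    have e : a 1 ^ 2 * a 2 * (x 1 ^ 2 * x 2 * A 0) ^ 3 = A 0 ^ 2 * A 1 * (A 0 * A 1 * A 2) := by
      rw [hax 1, hax 2]
      ring
    rw [e, hprod]
    ring
  · obtain ⟨r1, r2, r3, r4⟩ := main hSTM hSPP hLCL (a0 := a 2) (a1 := a 0) (a2 := a 1) hq hCF hB0
      (hx0 2) (hx0 0) (hx0 1)
      (by linear_combination hs) (by linear_combination hpa) (hc' 2 0 (by decide))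
      (hc' 2 1 (by decide)) (hc' 0 1 (by decide)) (hnot 1 2 (by decide) hk)
      (hnot 1 0 (by decide) hk)
    refine ⟨a 2 ^ 2 * a 0, a 2 * x 2, x 0, x 2 ^ 2 * x 0 * (A 0 * A 1), m' ^ 2, 2,
      mul_ne_zero (mul_ne_zero (pow_ne_zero 2 (hx0 2)) (hx0 0)) (mul_ne_zero (hA 0) (hA 1)),
      pow_ne_zero 2 hm0, ?_, r1, r2, r3, r4⟩
    have e : a 2 ^ 2 * a 0 * (x 2 ^ 2 * x 0 * (A 0 * A 1)) ^ 3 =
        A 0 ^ 2 * A 1 * (A 0 * A 1 * A 2) ^ 2 := by
      rw [mul_pow (x 2 ^ 2 * x 0)]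
      have e1 : a 2 ^ 2 * a 0 * ((x 2 ^ 2 * x 0) ^ 3) = A 2 ^ 2 * A 0 := by
        rw [hax 2, hax 0]
        ring
      rw [← mul_assoc, e1]
      ring
    rw [e, hprod]
    ring
  · obtain ⟨r1, r2, r3, r4⟩ := main hSTM hSPP hLCL (a0 := a 0) (a1 := a 1) (a2 := a 2) hq hCF hB0
      (hx0 0) (hx0 1) (hx0 2)
      (by linear_combination hs) (by linear_combination hpa) (hc' 0 1 (by decide))
      (hc' 0 2 (by decide)) (hc' 1 2 (by decide)) (hnot 2 0 (by decide) hk)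
      (hnot 2 1 (by decide) hk)
    refine ⟨a 0 ^ 2 * a 1, a 0 * x 0, x 1, x 0 ^ 2 * x 1, 1, 0,
      mul_ne_zero (pow_ne_zero 2 (hx0 0)) (hx0 1), one_ne_zero, ?_, r1, r2, r3, r4⟩
    rw [hax 0, hax 1]
    ring

end Pool.Agent.PTN


end
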