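import Mathlib
import Pool.Agent.PTDM.C38
import Pool.Agent.PTDM.C39
import Pool.Agent.PTDM.C40
import Pool.Agent.PTDM.C41
import Pool.Agent.PTDM.C42
import Pool.Agent.PTDM.C43
import Pool.Agent.PTDM.C44
import Pool.Agent.PTDM.C45
import Pool.Agent.PTDM.C46
import Pool.Agent.PTDM.C47

/-! Parts: PTL.MAIN, PTN.Final -/

section

/-!
# Prime power twists: assembly
-/

set_option autoImplicit false

namespace Pool.Agent.PTL.MAIN

open Pool.Agent.PT Pool.Agent.PT.Final Pool.Agent.PT.FinalB Pool.Agent.PTL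

theorem fDCE : DCE := DCE_thm fSTM fSPP fSLC fLCI fAVV

theorem fEAE : EAE := EAE_thm fSPP fSCJ

theorem fBKE : BKE := BKE_thm fEAE fFDX fTEND

theorem fBSE : BSE := BSE_thm fEVEC fESYS fSPP

theorem fBDE : BDE := BDE_thm fGALD fEQD fDIR

theorem fCLE : CLE := CLE_thm fBSE fDCE fCLSC fBKE fBDE fTEND fEAE

theorem tf_nonneg (P : Prop) : 0 ≤ tf P := by
  unfold tf
  split_ifs
  · exact zero_le_one
  · exact le_rfl

variable {k : ℕ} {p e : Fin k → ℕ}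

theorem big {q : ℕ} (h : ∑ i, p i < q) (i : Fin k) : p i ≠ q := by
  have h1 : p i ≤ ∑ i, p i := Finset.single_le_sum (f := p) (fun _ _ => Nat.zero_le _)
    (Finset.mem_univ i)
  omega

/-- the class `a` -/
theorem cls (hk : 1 ≤ k) (hp : ∀ i, (p i).Prime) (h3 : ∀ i, p i % 3 = 2)
    (hinj : Function.Injective p) (he : ∀ i, e i = 1 ∨ e i = 2) (a : ℤ)
    (ha : a = 1 ∨ a = 2 ∨ a = 4) (h1 : a = 1 → ∃ i, p i % 9 ≠ 8) (s : ℕ)
    (hs : s = if a = 1 then k - 1 else k) :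
    (∀ F : ℕ → ℝ, Monotone F → 0 ≤ F 0 →
      Above (∏ i, (p i : ℤ) ^ e i) (Cls a) (fun A => F (CubeRank.rr A)) (Esk s F / 3)) ∧
    Above (∏ i, (p i : ℤ) ^ e i) (Cls a) (fun A => 3 ^ CubeRank.rr A) ((4 - 3 / 3 ^ s) / 3) ∧
    Above (∏ i, (p i : ℤ) ^ e i) (Cls a) (fun A => (CubeRank.rr A : ℝ))
      ((if Even s then 3 / 4 else 13 / 12) / 3) ∧
    (Even s → Below (∏ i, (p i : ℤ) ^ e i) (Cls a)
      (fun A => tf (¬ ∃ X Y : ℚ, X ^ 3 + Y ^ 3 = (A : ℚ))) (5 / 24)) ∧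
    (Odd s → Below (∏ i, (p i : ℤ) ^ e i) (Cls a) (fun A => tf (CubeRank.rr A ≤ 1)) (23 / 72)) := by
  have hA := fun F hF h0 => FIN.above (p := p) (e := e) hp h3 fCLE hk hinj he ha h1 F hF h0
  rw [← hs] at hA
  refine ⟨hA, ?_, ?_, ?_, ?_⟩
  · have h2 := hA (fun c => (3 : ℝ) ^ c) (fun a b hab => pow_le_pow_right₀ (by norm_num) hab)
      (by norm_num)
    refine FIN.Above.mono h2 ?_
    have := AL.Esk_pow s
    linarith
  · have h2 := hA (fun c => (c : ℝ)) (fun a b hab => Nat.cast_le.2 hab) (by norm_num)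
    refine FIN.Above.mono h2 ?_
    have := AL.Esk_id s
    linarith
  · intro hev
    have hx := AL.Esk_pos hev
    rw [hs] at hx
    have h2 := FIN.below (p := p) (e := e) hp h3 fCLE fDIR hk hinj he ha h1 1 (∑ i, p i)
      (fun A => ¬ ∃ X Y : ℚ, X ^ 3 + Y ^ 3 = (A : ℚ)) (3 / 8) hx (by
        intro E q hE hq hqM hq3 hq9 hr
        have hg := DOM.fin_gen hk hp h3 hinj he hq hq3 hE hq9 (big hqM)
        have hr0 : CubeRank.rr ((∏ i, (p i : ℤ) ^ e i) * q ^ E) = 0 := by omega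
        rw [hr0] at hg
        refine DOM.no_sol ?_ hg
        refine mul_ne_zero (Finset.prod_ne_zero_iff.2 fun i _ => pow_ne_zero _ ?_)
          (pow_ne_zero _ ?_)
        · exact_mod_cast (hp i).ne_zero
        · exact_mod_cast hq.ne_zero)
    have e1 : ((1 : ℝ) - 3 / 8) / 3 = 5 / 24 := by norm_num
    rw [e1] at h2
    exact h2
  · intro hodd
    have hx := AL.Esk_two hodd
    rw [hs] at hx
    have h2 := FIN.below (p := p) (e := e) hp h3 fCLE fDIR hk hinj he ha h1 2 (∑ i, p i)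
      (fun A => CubeRank.rr A ≤ 1) (1 / 24) hx (by
        intro E q hE hq hqM hq3 hq9 hr
        omega)
    have e1 : ((1 : ℝ) - 1 / 24) / 3 = 23 / 72 := by norm_num
    rw [e1] at h2
    exact h2

/-- all classes -/
theorem all (hk : 1 ≤ k) (hp : ∀ i, (p i).Prime) (h3 : ∀ i, p i % 3 = 2)
    (hinj : Function.Injective p) (he : ∀ i, e i = 1 ∨ e i = 2) (h9 : ∃ i, p i % 9 ≠ 8) :
    Above (∏ i, (p i : ℤ) ^ e i) (fun _ => True) (fun A => (CubeRank.rr A : ℝ)) (35 / 36) ∧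
    Below (∏ i, (p i : ℤ) ^ e i) (fun _ => True)
      (fun A => tf (¬ ∃ X Y : ℚ, X ^ 3 + Y ^ 3 = (A : ℚ)))
      (if Even k then 5 / 12 else 5 / 24) := by
  have hn := FIN.n_three (e := e) hp h3
  obtain ⟨-, -, a1, b1, -⟩ := cls hk hp h3 hinj he 1 (Or.inl rfl) (fun _ => h9) (k - 1) rfl
  obtain ⟨-, -, a2, b2, -⟩ := cls hk hp h3 hinj he 2 (Or.inr (Or.inl rfl))
    (fun h => absurd h (by norm_num)) k rfl
  obtain ⟨-, -, a4, b4, -⟩ := cls hk hp h3 hinj he 4 (Or.inr (Or.inr rfl))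
    (fun h => absurd h (by norm_num)) k rfl
  have hnn : ∀ A : ℤ, 0 ≤ tf (¬ ∃ X Y : ℚ, X ^ 3 + Y ^ 3 = (A : ℚ)) := fun A => tf_nonneg _
  by_cases hev : Even k
  · have hodd : ¬ Even (k - 1) := by
      rw [Nat.even_iff] at hev ⊢
      omega
    rw [if_neg hodd] at a1
    rw [if_pos hev] at a2 a4
    refine ⟨FIN.Above.mono (FIN.Above_all hn a1 a2 a4) (by norm_num), ?_⟩
    rw [if_pos hev]
    exact FIN.Below.mono (FIN.Below_all hn hnn FIN.Below_zero (b2 hev) (b4 hev)) (by norm_num)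
  · have hev1 : Even (k - 1) := by
      rw [Nat.even_iff] at hev ⊢
      omega
    rw [if_pos hev1] at a1
    rw [if_neg hev] at a2 a4
    refine ⟨FIN.Above.mono (FIN.Above_all hn a1 a2 a4) (by norm_num), ?_⟩
    rw [if_neg hev]
    exact FIN.Below.mono (FIN.Below_all hn hnn (b1 hev1) FIN.Below_zero FIN.Below_zero)
      (by norm_num)

end Pool.Agent.PTL.MAIN


end

section

/-!
# The law of the ranks of prime twists for every `n`: assembly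
-/

namespace Pool.Agent.PTN.Final

open Pool.Agent.PT Pool.Agent.PT.Final Pool.Agent.PT.FinalB Pool.Agent.PTE Pool.Agent.PTE.Final
open Pool.Agent.PT3 Pool.Agent.PT3.Final Pool.Agent.PTN

theorem fKEX : Stmt_KEX := KEX_thm

theorem fKEQ : Stmt_KEQ := KEQ_thm

theorem fKEMB : Stmt_KEMB := KEMB_thm

theorem fKOM : Stmt_KOM := KOM_thm fKEQ

theorem fKAD : Stmt_KAD := KAD_thm fKEQ

theorem fKKE : Stmt_KKE := KKE_thm fKEQ

theorem fKIX : Stmt_KIX := KIX_thm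

theorem fKMI : Stmt_KMI := KMI_thm fKEQ

theorem fKPL : Stmt_KPL := KPL_thm fKEQ

theorem fKID : Stmt_KID := KID_thm fKEX fKEQ fKEMB fKOM fKAD fKKE fKIX fKMI fKPL

theorem fNDIM : Stmt_NDIM := NDIM_thm

theorem fNSUM : Stmt_NSUM := NSUM_thm

theorem fNZER : Stmt_NZER := NZER_thm fEMAX

theorem fNVEC : Stmt_NVEC := NVEC_thm fEVET fSPP

theorem fNBAS : Stmt_NBAS := NBAS_thm fNVEC fEVET fSPP fLPT fLCL

theorem fNHPT : Stmt_NHPT := NHPT_thm fNVEC fEVET fSTM fSPP fLPT fLCL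

theorem fNADT : Stmt_NADT := NADT_thm fSTM fSPP fSCJ fLCL

theorem fNADU : Stmt_NADU := NADU_thm fSTM fSPP fSCJ fSPLT fLCL

theorem fNKIN : Stmt_NKIN := NKIN_thm fSTM fSPP fSTAR fSLC fSSL fSCJ fLCL

theorem fNPSI : Stmt_NPSI := NPSI_thm fSTM fSPP fSSL fSLC fSREC fSCJ fLCI fLCL

theorem fNPSU : Stmt_NPSU := NPSU_thm fNVEC fSTM fSPP fSSL fSLC fSREC fSCJ fLCI fSPLT fLCL

theorem fNPLU : Stmt_NPLU := NPLU_thm fSTM fSPP fLCL

theorem fNBKN : Stmt_NBKN := NBKN_thm fKID fNPSI fNKIN fNADT fNPLU fTENT fSPP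

theorem fNBKU : Stmt_NBKU := NBKU_thm fKID fNPSU fNKIN fNADU fNPLU fTENT

theorem fNBK0 : Stmt_NBK0 := NBK0_thm fKID fNPSU fNKIN fNADU fNPLU fNVEC fSPP fSPLT

theorem fBDG : Stmt_BDG := BDG_thm fGALG fEQD fDIR

theorem fGFRU : Stmt_GFRU := GFRU_thm fSPLT fSPP

theorem fGALDU : Stmt_GALDU := GALDU_thm fGZEROG fGCHI fGCG fGKUM fGTS fGFRU

theorem fEQX : Stmt_EQX := EQX_thm

theorem fBDU : Stmt_BDU := BDU_thm fGALDU fEQX fDIR

theorem fBDL : Stmt_BDL := BDL_thm fGALDU fSPLT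

theorem fCLT : Stmt_CLT := CLT_thm fDIR fCLSC fCLSCS

theorem fSMT : Stmt_SMT := SMT_thm

theorem fCLN : Stmt_CLN := CLN_thm fNBAS fESYT fDCOT fCLSC fNBKN fBDG fTENT fNADT

theorem fDLU : Stmt_DLU := DLU_thm fESYT fDCOU fCLSC fCLSCS fNBKU fBDU fTENT fNADU fSPLT

theorem fDLL : Stmt_DLL := DLL_thm fESYT fCLSC fCLSCS fBDL fSPLT

theorem fCLU : Stmt_CLU := CLU_thm fNHPT fDLU fDLL fCLT fSMT fNBK0 fSPLT

theorem fDOMG : Stmt_DOMG := DOMG_thm

theorem fLAW : Stmt_LAW := LAW_thm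

theorem fCAB : Stmt_CAB := CAB_thm fSPP fCLN fCLU fDOMG fLAW

theorem fCBE : Stmt_CBE := CBE_thm fCLN fCLU fCLT fSPP

theorem fSUMA : Stmt_SUMA := SUMA_thm

theorem fTRU : Stmt_TRU := TRU_thm fCLSC fCLSCS fSPP

theorem fNFE : Stmt_NFE := NFE_thm fENF

theorem fNSU1 : Stmt_NSU1 := NSU1_thm

theorem fNZE1 : Stmt_NZE1 := NZE1_thm fEMAX

theorem fNZE0 : Stmt_NZE0 := NZE0_thm fEDC

theorem fTRC : Stmt_TRC := TRC_thm fTRU

theorem fALLQ : Stmt_ALLQ := ALLQ_thm fCAB fCBE fLAW fSUMA fNDIM fNSUM fNZER fNSU1 fNZE1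

theorem fMAINQ : Stmt_MAINQ := MAINQ_thm fNFE fNDIM fNSUM fNZER fNSU1 fNZE1 fNZE0 fCAB fCBE fLAW fALLQ fTRU fTRC fCLN fCLU fSUMA

end Pool.Agent.PTN.Final


end
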